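import Mathlib

/-!
# Operators congruent to the identity modulo two
-/

namespace Pool.Agent.Lib.MP_89bcae_ag

section Alg

variable {G : Type*} [AddCommGroup G]

lemma end_mul_apply8 (S T : AddMonoid.End G) (x : G) : (S * T) x = S (T x) := rfl

lemma two_nsmul_inj (htf : ∀ x : G, x + x = 0 → x = 0) {x y : G} (h : x + x = y + y) : x = y := by
  have h1 : (x - y) + (x - y) = 0 := by
    have : (x - y) + (x - y) = (x + x) - (y + y) := by abel
    rw [this, h, sub_self]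
  exact sub_eq_zero.mp (htf _ h1)

/-- If a property of elements forces them to be the double of an element with the same property,
such elements vanish. -/
lemma eq_zero_of_descent (hsep : ∀ x : G, (∀ n : ℕ, ∃ y, x = 2 ^ n • y) → x = 0)
    (p : G → Prop) (hp : ∀ x, p x → ∃ y, x = y + y ∧ p y) {x : G} (hx : p x) : x = 0 := by
  apply hsep
  intro n
  suffices ∃ y, x = 2 ^ n • y ∧ p y from this.imp fun _ h => h.1
  induction n with
  | zero => exact ⟨x, by simp, hx⟩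
  | succ n ih =>
    obtain ⟨y, hy, hpy⟩ := ih
    obtain ⟨z, hz, hpz⟩ := hp y hpy
    exact ⟨z, by rw [hy, hz, ← two_nsmul, ← mul_smul, pow_succ], hpz⟩

/-- Powers of an operator congruent to one. -/
lemma pow_cong (T : AddMonoid.End G) (hT : ∀ x, ∃ z, T x - x = z + z) (n : ℕ) (x : G) :
    ∃ z, (T ^ n) x - x = z + z := by
  induction n with
  | zero => exact ⟨0, by simp⟩
  | succ n ih =>
    obtain ⟨z, hz⟩ := ih
    obtain ⟨z', hz'⟩ := hT ((T ^ n) x)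
    refine ⟨z' + z, ?_⟩
    rw [pow_succ', end_mul_apply8]
    have : T ((T ^ n) x) - x = (T ((T ^ n) x) - (T ^ n) x) + ((T ^ n) x - x) := by abel
    rw [this, hz, hz']
    abel

lemma sum_pow_eq (T : AddMonoid.End G) (m : ℕ) (x : G) :
    (∑ i ∈ Finset.range m, (T ^ i) (T x - x)) = (T ^ m) x - x := by
  induction m with
  | zero => simp
  | succ m ih =>
    rw [Finset.sum_range_succ, ih, map_sub, ← end_mul_apply8, ← pow_succ]
    abel

/-- If an odd power of an operator congruent to one fixes `x`, then the operator fixes `x`. -/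
lemma eq_of_odd_pow (htf : ∀ x : G, x + x = 0 → x = 0)
    (hsep : ∀ x : G, (∀ n : ℕ, ∃ y, x = 2 ^ n • y) → x = 0)
    (T : AddMonoid.End G) (hT : ∀ x, ∃ z, T x - x = z + z) {m : ℕ} (hm : Odd m) {x : G}
    (h : (T ^ m) x = x) : T x = x := by
  rw [← sub_eq_zero]
  apply eq_zero_of_descent hsep (fun w => ∑ i ∈ Finset.range m, (T ^ i) w = 0)
  · intro w hw
    choose s hs using fun i => pow_cong T hT i w
    obtain ⟨l, rfl⟩ := hm
    have h1 : ∑ i ∈ Finset.range (2 * l + 1), (T ^ i) w =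
        (2 * l + 1) • w + ((∑ i ∈ Finset.range (2 * l + 1), s i) +
          (∑ i ∈ Finset.range (2 * l + 1), s i)) := by
      rw [← Finset.sum_add_distrib, ← Finset.card_range (2 * l + 1), ← Finset.sum_const,
        Finset.card_range, ← Finset.sum_add_distrib]
      apply Finset.sum_congr rfl
      intro i _
      rw [← hs i]
      abel
    rw [h1] at hw
    have h2 : w = (-(l • w) - ∑ i ∈ Finset.range (2 * l + 1), s i) +
        (-(l • w) - ∑ i ∈ Finset.range (2 * l + 1), s i) := by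
      rw [add_smul, one_smul, mul_smul, two_nsmul] at hw
      have : w = w - (l • w + l • w + w + (∑ i ∈ Finset.range (2 * l + 1), s i +
        ∑ i ∈ Finset.range (2 * l + 1), s i)) := by rw [hw, sub_zero]
      conv_lhs => rw [this]
      abel
    refine ⟨_, h2, ?_⟩
    apply htf
    rw [← Finset.sum_add_distrib]
    have h3 : ∀ i ∈ Finset.range (2 * l + 1), (T ^ i) (-(l • w) -
        ∑ i ∈ Finset.range (2 * l + 1), s i) + (T ^ i) (-(l • w) -
        ∑ i ∈ Finset.range (2 * l + 1), s i) = (T ^ i) w := by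
      intro i _
      rw [← map_add, ← h2]
    rw [Finset.sum_congr rfl h3, h1, hw]
  · rw [sum_pow_eq, h, sub_self]

/-- If the square of an operator congruent to one modulo four fixes `x`, then so does the
operator. -/
lemma eq_of_sq_four (htf : ∀ x : G, x + x = 0 → x = 0)
    (hsep : ∀ x : G, (∀ n : ℕ, ∃ y, x = 2 ^ n • y) → x = 0)
    (T : AddMonoid.End G) (hT : ∀ x, ∃ z, T x - x = (z + z) + (z + z)) {x : G}
    (h : T (T x) = x) : T x = x := by
  rw [← sub_eq_zero]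
  apply eq_zero_of_descent hsep (fun w => T w = -w)
  · intro w hw
    obtain ⟨z, hz⟩ := hT w
    rw [hw] at hz
    have h1 : w = -z + -z := by
      apply two_nsmul_inj htf
      have : w + w = -(-w - w) := by abel
      rw [this, hz]
      abel
    refine ⟨-z, h1, ?_⟩
    apply two_nsmul_inj htf
    rw [← map_add, ← h1, hw, h1]
    abel
  · rw [map_sub, h]
    abel

/-- The square of an operator congruent to one modulo two is congruent to one modulo four. -/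
lemma sq_cong_four (T : AddMonoid.End G) (hT : ∀ x, ∃ z, T x - x = z + z) (x : G) :
    ∃ z, T (T x) - x = (z + z) + (z + z) := by
  obtain ⟨z, hz⟩ := hT x
  obtain ⟨z', hz'⟩ := hT z
  refine ⟨z + z', ?_⟩
  have h1 : T x = x + (z + z) := by rw [← hz]; abel
  have h2 : T z = z + (z' + z') := by rw [← hz']; abel
  rw [h1, map_add, map_add, h1, h2]
  abel

lemma pow_cong_four (T : AddMonoid.End G) (hT : ∀ x, ∃ z, T x - x = (z + z) + (z + z)) (n : ℕ)
    (x : G) : ∃ z, (T ^ n) x - x = (z + z) + (z + z) := by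
  induction n with
  | zero => exact ⟨0, by simp⟩
  | succ n ih =>
    obtain ⟨z, hz⟩ := ih
    obtain ⟨z', hz'⟩ := hT ((T ^ n) x)
    refine ⟨z' + z, ?_⟩
    rw [pow_succ', end_mul_apply8]
    have : T ((T ^ n) x) - x = (T ((T ^ n) x) - (T ^ n) x) + ((T ^ n) x - x) := by abel
    rw [this, hz, hz']
    abel

/-- If some power of an operator congruent to one modulo two fixes `x`, then its square does. -/
theorem sq_eq_of_pow (htf : ∀ x : G, x + x = 0 → x = 0)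
    (hsep : ∀ x : G, (∀ n : ℕ, ∃ y, x = 2 ^ n • y) → x = 0)
    (U : AddMonoid.End G) (hU : ∀ x, ∃ z, U x - x = z + z) {M : ℕ} (hM : 0 < M) {x : G}
    (h : (U ^ M) x = x) : U (U x) = x := by
  have hU2 : ∀ n, ∀ x, ∃ z, ((U ^ 2) ^ n) x - x = (z + z) + (z + z) := by
    intro n
    apply pow_cong_four
    intro x
    rw [pow_two, end_mul_apply8]
    exact sq_cong_four U hU x
  obtain ⟨a, m, hm, rfl⟩ := Nat.exists_eq_two_pow_mul_odd hM.ne'
  -- `U² ^ (2^a m)` fixes `x`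
  have h0 : ((U ^ 2) ^ (2 ^ a * m)) x = x := by
    rw [← pow_mul, mul_comm 2, pow_mul, pow_two, end_mul_apply8, h, h]
  clear h hM
  have h1 : ((U ^ 2) ^ m) x = x := by
    induction a with
    | zero => simpa using h0
    | succ a ih =>
      apply ih
      apply eq_of_sq_four htf hsep ((U ^ 2) ^ (2 ^ a * m)) (hU2 _)
      rw [← end_mul_apply8, ← pow_add]
      have : 2 ^ a * m + 2 ^ a * m = 2 ^ (a + 1) * m := by ring
      rw [this]
      exact h0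
  have h2 := eq_of_odd_pow htf hsep (U ^ 2) (by
    intro x
    obtain ⟨z, hz⟩ := sq_cong_four U hU x
    refine ⟨z + z, ?_⟩
    rw [pow_two, end_mul_apply8, hz]) hm h1
  rwa [pow_two, end_mul_apply8] at h2

/-- **Simultaneous eigenvectors.** -/
theorem mem_of_no_eigen {Γ : Type*} [Group Γ] (ρ : Γ →* AddMonoid.End G) (Γ₁ : Subgroup Γ)
    (htf : ∀ x : G, x + x = 0 → x = 0)
    (hsep : ∀ x : G, (∀ n : ℕ, ∃ y, x = 2 ^ n • y) → x = 0)
    (hcong : ∀ γ ∈ Γ₁, ∀ x, ∃ z, ρ γ x - x = z + z)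
    (G' : AddSubgroup G) (hstab : ∀ γ ∈ Γ₁, ∀ x ∈ G', ρ γ x ∈ G')
    (hsat : ∀ x, x + x ∈ G' → x ∈ G')
    (hfin : ∀ γ ∈ Γ₁, ∀ x ∈ G', ∃ M > 0, (ρ γ ^ M) x = x)
    {ι : Type*} (Z : G → ι) (hfinite : (Set.range Z).Finite)
    (hZ : ∀ x y, Z x = Z y ↔ ∃ z, x - y = z + z)
    (v : Γ → ι → ι) (hv : ∀ γ ∈ Γ₁, ∀ x z, ρ γ x - x = z + z → Z z = v γ (Z x))
    (B : AddSubgroup G)
    (hbad : ∀ x ∈ G', x ∉ B → ∃ γ ∈ Γ₁, v γ (Z x) ≠ Z x ∧ v γ (Z x) ≠ Z 0) :
    ∀ x ∈ G', x ∈ B := by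
  by_contra hcon
  push Not at hcon
  obtain ⟨x₀, hx₀, hx₀B⟩ := hcon
  choose! V hV using hcong
  have hVadd : ∀ γ ∈ Γ₁, ∀ x y, V γ (x + y) = V γ x + V γ y := by
    intro γ hγ x y
    apply two_nsmul_inj htf
    rw [← hV γ hγ, map_add]
    have : V γ x + V γ y + (V γ x + V γ y) = (V γ x + V γ x) + (V γ y + V γ y) := by abel
    rw [this, ← hV γ hγ, ← hV γ hγ]
    abel
  have hVmem : ∀ γ ∈ Γ₁, ∀ x ∈ G', V γ x ∈ G' := by
    intro γ hγ x hx
    apply hsat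
    rw [← hV γ hγ]
    exact G'.sub_mem (hstab γ hγ x hx) hx
  have hact : ∀ γ ∈ Γ₁, ∀ x, ρ γ x = x + (V γ x + V γ x) := by
    intro γ hγ x
    rw [← hV γ hγ]
    abel
  have hsq : ∀ γ ∈ Γ₁, ∀ x ∈ G', ρ γ (ρ γ x) = x := by
    intro γ hγ x hx
    obtain ⟨M, hM, h⟩ := hfin γ hγ x hx
    exact sq_eq_of_pow htf hsep (ρ γ) (fun x => ⟨V γ x, hV γ hγ x⟩) hM h
  have hVV : ∀ γ ∈ Γ₁, ∀ x ∈ G', V γ (V γ x) = -V γ x := by
    intro γ hγ x hx
    have h1 := hsq γ hγ x hx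
    rw [hact γ hγ x, map_add, map_add, hact γ hγ x, hact γ hγ (V γ x)] at h1
    have h2 : V γ (V γ x) + V γ x = 0 := by
      apply htf
      apply htf
      have h3 : V γ (V γ x) + V γ x + (V γ (V γ x) + V γ x) +
          (V γ (V γ x) + V γ x + (V γ (V γ x) + V γ x)) =
          x + (V γ x + V γ x) + (V γ x + (V γ (V γ x) + V γ (V γ x)) +
            (V γ x + (V γ (V γ x) + V γ (V γ x)))) - x := by abel
      rw [h3, h1, sub_self]
    exact eq_neg_of_add_eq_zero_left h2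
  have hcomm : ∀ γ ∈ Γ₁, ∀ δ ∈ Γ₁, ∀ x ∈ G', ρ γ (ρ δ x) = ρ δ (ρ γ x) := by
    intro γ hγ δ hδ x hx
    have h1 := hsq (γ * δ) (Γ₁.mul_mem hγ hδ) x hx
    rw [map_mul, end_mul_apply8, end_mul_apply8] at h1
    have h2 := congrArg (ρ γ) h1
    rw [hsq γ hγ _ (hstab δ hδ _ (hstab γ hγ _ (hstab δ hδ _ hx)))] at h2
    have h3 := congrArg (ρ δ) h2
    rwa [hsq δ hδ _ (hstab γ hγ _ (hstab δ hδ _ hx))] at h3
  have hVcomm : ∀ γ ∈ Γ₁, ∀ δ ∈ Γ₁, ∀ x ∈ G', V γ (V δ x) = V δ (V γ x) := by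
    intro γ hγ δ hδ x hx
    have h1 := hcomm γ hγ δ hδ x hx
    rw [hact δ hδ x, hact γ hγ x, map_add, map_add, map_add, map_add, hact γ hγ x, hact δ hδ x,
      hact γ hγ (V δ x), hact δ hδ (V γ x)] at h1
    apply two_nsmul_inj htf
    apply two_nsmul_inj htf
    have h3 : V γ (V δ x) + V γ (V δ x) + (V γ (V δ x) + V γ (V δ x)) =
        (x + (V γ x + V γ x) + (V δ x + (V γ (V δ x) + V γ (V δ x)) +
          (V δ x + (V γ (V δ x) + V γ (V δ x))))) - x - (V γ x + V γ x) - (V δ x + V δ x) := by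
      abel
    rw [h3, h1]
    abel
  -- an element whose set of eigen-operators is maximal
  set K : ι → Set Γ := fun ζ => {γ | γ ∈ Γ₁ ∧ (v γ ζ = ζ ∨ v γ ζ = Z 0)} with hK
  obtain ⟨ζ, ⟨x, hx, hxB, rfl⟩, hmax⟩ := Set.Finite.exists_maximalFor K
    {ζ | ∃ x ∈ G', x ∉ B ∧ Z x = ζ} (hfinite.subset (by rintro _ ⟨x, -, -, rfl⟩; exact ⟨x, rfl⟩))
    ⟨Z x₀, x₀, hx₀, hx₀B, rfl⟩
  obtain ⟨δ, hδ, hne1, hne2⟩ := hbad x hx hxB
  have hδK : δ ∉ K (Z x) := by
    rintro ⟨-, h | h⟩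
    · exact hne1 h
    · exact hne2 h
  set z := V δ x with hz
  have hzG : z ∈ G' := hVmem δ hδ x hx
  -- the eigen-operators of `x`
  have hkx : ∀ γ ∈ K (Z x), (∃ s, V γ x = x + (s + s)) ∨ (∃ s, V γ x = s + s) := by
    rintro γ ⟨hγ, h⟩
    rw [← hv γ hγ x (V γ x) (hV γ hγ x), hZ, hZ] at h
    rcases h with ⟨s, hs⟩ | ⟨s, hs⟩
    · left
      exact ⟨s, by rw [← hs]; abel⟩
    · right
      exact ⟨s, by rw [← hs]; abel⟩
  have hkz : ∀ γ ∈ K (Z x), ((∃ s, V γ x = x + (s + s)) ∧ (∃ s, V γ z = z + (s + s))) ∨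
      ((∃ s, V γ x = s + s) ∧ (∃ s, V γ z = s + s)) := by
    intro γ hγ
    have h1 : V γ z = V δ (V γ x) := hVcomm γ hγ.1 δ hδ x hx
    rcases hkx γ hγ with ⟨s, hs⟩ | ⟨s, hs⟩
    · left
      refine ⟨⟨s, hs⟩, V δ s, ?_⟩
      rw [h1, hs, hVadd δ hδ, hVadd δ hδ]
    · right
      refine ⟨⟨s, hs⟩, V δ s, ?_⟩
      rw [h1, hs, hVadd δ hδ]
  have hmem : ∀ γ ∈ Γ₁, ∀ u, ((∃ s, V γ u = u + (s + s)) ∨ (∃ s, V γ u = s + s)) →
      γ ∈ K (Z u) := by
    intro γ hγ u hu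
    refine ⟨hγ, ?_⟩
    rw [← hv γ hγ u (V γ u) (hV γ hγ u), hZ, hZ]
    rcases hu with ⟨s, hs⟩ | ⟨s, hs⟩
    · left
      exact ⟨s, by rw [hs]; abel⟩
    · right
      exact ⟨s, by rw [hs]; abel⟩
  have hfinal : ∀ u ∈ G', u ∉ B → K (Z x) ⊆ K (Z u) → δ ∈ K (Z u) → False := by
    intro u hu huB hsub hδu
    exact hδK (hmax (j := Z u) ⟨u, hu, huB, rfl⟩ hsub hδu)
  by_cases hzB : z ∈ B
  · -- use `x + z`
    have hxz : x + z ∉ B := fun h => hxB (by
      have := B.sub_mem h hzB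
      rwa [add_sub_cancel_right] at this)
    apply hfinal (x + z) (G'.add_mem hx hzG) hxz
    · intro γ hγ
      apply hmem γ hγ.1
      rcases hkz γ hγ with ⟨⟨s, hs⟩, ⟨s', hs'⟩⟩ | ⟨⟨s, hs⟩, ⟨s', hs'⟩⟩
      · left
        refine ⟨s + s', ?_⟩
        rw [hVadd γ hγ.1, hs, hs']
        abel
      · right
        refine ⟨s + s', ?_⟩
        rw [hVadd γ hγ.1, hs, hs']
        abel
    · apply hmem δ hδ
      right
      refine ⟨0, ?_⟩
      rw [hVadd δ hδ, hz, hVV δ hδ x hx]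
      abel
  · apply hfinal z hzG hzB
    · intro γ hγ
      apply hmem γ hγ.1
      rcases hkz γ hγ with ⟨-, ⟨s', hs'⟩⟩ | ⟨-, ⟨s', hs'⟩⟩
      · left; exact ⟨s', hs'⟩
      · right; exact ⟨s', hs'⟩
    · apply hmem δ hδ
      left
      refine ⟨-z, ?_⟩
      rw [hz, hVV δ hδ x hx]
      abel

end Alg

section Rel

variable {A Γ : Type*} [AddCommGroup A] [Group Γ]

/-- The endomorphism of a subquotient induced by an endomorphism. -/
noncomputable def quotEnd (S T : AddSubgroup A) (f : AddMonoid.End A) (hS : ∀ x ∈ S, f x ∈ S)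
    (hT : ∀ x ∈ T, f x ∈ T) : AddMonoid.End (S ⧸ T.addSubgroupOf S) :=
  QuotientAddGroup.map (T.addSubgroupOf S) (T.addSubgroupOf S)
    ((AddMonoidHom.comp f S.subtype).codRestrict S (fun x => hS x x.2)) (fun _ hx => hT _ hx)

lemma quotEnd_mk (S T : AddSubgroup A) (f : AddMonoid.End A) (hS : ∀ x ∈ S, f x ∈ S)
    (hT : ∀ x ∈ T, f x ∈ T) (x : S) :
    quotEnd S T f hS hT (QuotientAddGroup.mk x) = QuotientAddGroup.mk ⟨f x, hS x x.2⟩ := rfl

/-- Simultaneous eigenvectors, for a subquotient. -/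
theorem rel_mem_of_no_eigen (ρ : Γ →* AddMonoid.End A) (Γ₁ : Subgroup Γ)
    (S T : AddSubgroup A)
    (hS : ∀ γ, ∀ x ∈ S, ρ γ x ∈ S) (hT : ∀ γ, ∀ x ∈ T, ρ γ x ∈ T)
    (htf : ∀ x ∈ S, x + x ∈ T → x ∈ T)
    (hsep : ∀ x ∈ S, (∀ n : ℕ, ∃ y ∈ S, x - 2 ^ n • y ∈ T) → x ∈ T)
    (hcong : ∀ γ ∈ Γ₁, ∀ x ∈ S, ∃ z ∈ S, ρ γ x - x - (z + z) ∈ T)
    (G' : AddSubgroup A) (hTG : T ≤ G') (hGS : G' ≤ S)
    (hstab : ∀ γ ∈ Γ₁, ∀ x ∈ G', ρ γ x ∈ G')
    (hsat : ∀ x ∈ S, x + x ∈ G' → x ∈ G')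
    (hfin : ∀ γ ∈ Γ₁, ∀ x ∈ G', ∃ M > 0, ρ (γ ^ M) x - x ∈ T)
    {ι : Type*} (Z : A → ι) (hfinite : (Z '' S).Finite)
    (hZ : ∀ x ∈ S, ∀ y ∈ S, Z x = Z y ↔ ∃ z ∈ S, x - y - (z + z) ∈ T)
    (v : Γ → ι → ι)
    (hv : ∀ γ ∈ Γ₁, ∀ x ∈ S, ∀ z ∈ S, ρ γ x - x - (z + z) ∈ T → Z z = v γ (Z x))
    (B : AddSubgroup A) (hTB : T ≤ B)
    (hbad : ∀ x ∈ G', x ∉ B → ∃ γ ∈ Γ₁, v γ (Z x) ≠ Z x ∧ v γ (Z x) ≠ Z 0) :
    ∀ x ∈ G', x ∈ B := by
  set π : S →+ S ⧸ T.addSubgroupOf S := QuotientAddGroup.mk' (T.addSubgroupOf S) with hπdef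
  have hsurj : Function.Surjective π := QuotientAddGroup.mk'_surjective _
  have hπ : ∀ x : S, π x = 0 ↔ (x : A) ∈ T := by
    intro x
    rw [hπdef, QuotientAddGroup.mk'_apply, QuotientAddGroup.eq_zero_iff,
      AddSubgroup.mem_addSubgroupOf]
  have hπ2 : ∀ x y : S, π x = π y ↔ (x : A) - y ∈ T := by
    intro x y
    rw [← sub_eq_zero, ← map_sub, hπ]
    rfl
  let ρ' : Γ →* AddMonoid.End (S ⧸ T.addSubgroupOf S) :=
    { toFun := fun γ => quotEnd S T (ρ γ) (hS γ) (hT γ)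
      map_one' := by
        ext q
        obtain ⟨x, rfl⟩ := hsurj q
        change π _ = π x
        congr 1
        apply Subtype.ext
        change ρ 1 x = x
        rw [map_one]
        rfl
      map_mul' := fun γ δ => by
        ext q
        obtain ⟨x, rfl⟩ := hsurj q
        change π _ = π _
        congr 1
        apply Subtype.ext
        change ρ (γ * δ) x = ρ γ (ρ δ x)
        rw [map_mul]
        rfl }
  have hρ' : ∀ γ (x : S), ρ' γ (π x) = π ⟨ρ γ x, hS γ x x.2⟩ := fun _ _ => rfl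
  let Z' : (S ⧸ T.addSubgroupOf S) → ι := fun q => Z ((Quotient.out q : S) : A)
  have hZ' : ∀ x : S, Z' (π x) = Z x := by
    intro x
    rw [hZ _ (Quotient.out (π x) : S).2 x x.2]
    refine ⟨0, S.zero_mem, ?_⟩
    have : π (Quotient.out (π x) : S) = π x := Quotient.out_eq (π x)
    rw [hπ2] at this
    simpa using this
  let G'' : AddSubgroup (S ⧸ T.addSubgroupOf S) := (G'.addSubgroupOf S).map π
  have hG'' : ∀ x : S, π x ∈ G'' ↔ (x : A) ∈ G' := by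
    intro x
    constructor
    · rintro ⟨y, hy, hxy⟩
      have h1 : (y : A) ∈ G' := hy
      have h2 := hTG ((hπ2 y x).mp hxy)
      have h3 := G'.sub_mem h1 h2
      rwa [sub_sub_cancel] at h3
    · intro h
      exact ⟨x, h, rfl⟩
  let B' : AddSubgroup (S ⧸ T.addSubgroupOf S) := (B.addSubgroupOf S).map π
  have hB' : ∀ x : S, π x ∈ B' ↔ (x : A) ∈ B := by
    intro x
    constructor
    · rintro ⟨y, hy, hxy⟩
      have h1 : (y : A) ∈ B := hy
      have h2 := hTB ((hπ2 y x).mp hxy)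
      have h3 := B.sub_mem h1 h2
      rwa [sub_sub_cancel] at h3
    · intro h
      exact ⟨x, h, rfl⟩
  intro x hx
  rw [← hB' ⟨x, hGS hx⟩]
  apply mem_of_no_eigen ρ' Γ₁ ?_ ?_ ?_ G'' ?_ ?_ ?_ Z' ?_ ?_ v ?_ B' ?_
  · exact (hG'' ⟨x, hGS hx⟩).mpr hx
  · intro q hq
    obtain ⟨y, rfl⟩ := hsurj q
    rw [← map_add, hπ] at hq
    rw [hπ]
    exact htf y y.2 hq
  · intro q hq
    obtain ⟨y, rfl⟩ := hsurj q
    rw [hπ]
    apply hsep y y.2
    intro n
    obtain ⟨p, hp⟩ := hq n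
    obtain ⟨w, rfl⟩ := hsurj p
    refine ⟨w, w.2, ?_⟩
    rw [← map_nsmul, hπ2] at hp
    exact hp
  · intro γ hγ q
    obtain ⟨y, rfl⟩ := hsurj q
    obtain ⟨z, hz, hyz⟩ := hcong γ hγ y y.2
    refine ⟨π ⟨z, hz⟩, ?_⟩
    rw [hρ', ← map_sub, ← map_add, hπ2]
    exact hyz
  · intro γ hγ q hq
    obtain ⟨y, rfl⟩ := hsurj q
    rw [hρ', hG'']
    exact hstab γ hγ y ((hG'' y).mp hq)
  · intro q hq
    obtain ⟨y, rfl⟩ := hsurj q
    rw [← map_add, hG''] at hq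
    rw [hG'']
    exact hsat y y.2 hq
  · intro γ hγ q hq
    obtain ⟨y, rfl⟩ := hsurj q
    obtain ⟨M, hM, h⟩ := hfin γ hγ y ((hG'' y).mp hq)
    refine ⟨M, hM, ?_⟩
    rw [← map_pow, hρ', hπ2]
    exact h
  · apply hfinite.subset
    rintro _ ⟨q, rfl⟩
    exact ⟨(Quotient.out q : S), (Quotient.out q : S).2, rfl⟩
  · intro q q'
    obtain ⟨y, rfl⟩ := hsurj q
    obtain ⟨y', rfl⟩ := hsurj q'
    rw [hZ', hZ', hZ y y.2 y' y'.2]
    constructor
    · rintro ⟨z, hz, h⟩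
      refine ⟨π ⟨z, hz⟩, ?_⟩
      rw [← map_sub, ← map_add, hπ2]
      exact h
    · rintro ⟨p, h⟩
      obtain ⟨z, rfl⟩ := hsurj p
      rw [← map_sub, ← map_add, hπ2] at h
      exact ⟨z, z.2, h⟩
  · intro γ hγ q p h
    obtain ⟨y, rfl⟩ := hsurj q
    obtain ⟨z, rfl⟩ := hsurj p
    rw [hZ', hZ']
    apply hv γ hγ y y.2 z z.2
    rw [hρ', ← map_sub, ← map_add, hπ2] at h
    exact h
  · intro q hq hqB
    obtain ⟨y, rfl⟩ := hsurj q
    rw [hZ']
    have h0 : Z' 0 = Z 0 := by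
      have := hZ' 0
      rw [map_zero] at this
      exact this
    rw [h0]
    exact hbad y ((hG'' y).mp hq) (fun h => hqB ((hB' y).mpr h))

end Rel

end Pool.Agent.Lib.MP_89bcae_ag
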