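import Mathlib

/-!
# Invariant classes in the two-adic Selmer group of an elliptic curve over `k(t)`

`k` is a field, `F` an algebraic closure of `k`, `L` the field of rational functions `F(t)` and
`Ω` a separable closure of `L`.
-/

open Polynomial WeierstrassCurve IsDedekindDomain

open scoped Classical

namespace Pool.Agent.Lib.MP_89bcae_ag

universe u

/-- For a field `A` containing `L = F(t)`: the inclusion of `k[t]` in `A`. -/
noncomputable def base (k F L A : Type u) [Field k] [Field F] [Algebra k F] [Field L]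
    [Algebra F[X] L] [Field A] [Algebra L A] : k[X] →+* A :=
  (algebraMap L A).comp ((algebraMap F[X] L).comp (mapRingHom (algebraMap k F)))

/-- `IsImage σ P Q` means that `Q = σ(P)`: the coordinates of the point `Q` of the curve `W'` are the
images of those of the point `P` of the curve `W` under the homomorphism `σ`. -/
inductive IsImage {A B : Type u} [Field A] [Field B] (σ : A →+* B) {W : WeierstrassCurve A}
    {W' : WeierstrassCurve B} : W.toAffine.Point → W'.toAffine.Point → Prop
  | zero : IsImage σ 0 0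
  | some (x y : A) (h : W.toAffine.Nonsingular x y) (h' : W'.toAffine.Nonsingular (σ x) (σ y)) :
    IsImage σ (.some x y h) (.some (σ x) (σ y) h')

section

variable {k F L Ω : Type u} [Field k] [Field F] [Algebra k F] [Field L] [Algebra F[X] L] [Field Ω]
  [Algebra L Ω]

/-- `c` is a continuous `1`-cocycle of `Gal(Ω/L)` with values in the two-adic Tate module of the
curve `W`; its component `c n` has values in the points of order dividing `2ⁿ`. -/
structure IsTateCocycle (W : WeierstrassCurve k[X])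
    (c : ℕ → (Ω ≃ₐ[L] Ω) → (W.map (base k F L Ω)).toAffine.Point) : Prop where
  zero : ∀ σ, c 0 σ = 0
  two_smul : ∀ n σ, 2 • c (n + 1) σ = c n σ
  cocycle : ∀ n (σ τ : Ω ≃ₐ[L] Ω) P, IsImage (σ : Ω →+* Ω) (c n τ) P → c n (σ * τ) = c n σ + P
  locallyConstant : ∀ n, IsLocallyConstant (c n)

/-- The class of the cocycle `c` in `H¹(Lv, W)` is trivial, where `Lv` is a field containing `L`:
for every separable closure `M` of `Lv` and every embedding `j` of `Ω` in `M` over `L`, there is a
point `Q` of `W(M)` with `j(c(g|_Ω)) = g(Q) - Q` for all `g` in `Gal(M/Lv)`. -/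
def IsLocallyTrivial (W : WeierstrassCurve k[X])
    (c : (Ω ≃ₐ[L] Ω) → (W.map (base k F L Ω)).toAffine.Point)
    (Lv : Type u) [Field Lv] [Algebra L Lv] : Prop :=
  ∀ (M : Type u) [Field M] [Algebra Lv M] [IsSepClosure Lv M] [Algebra L M] [IsScalarTower L Lv M]
    (j : Ω →ₐ[L] M), ∃ Q : (W.map (base k F L M)).toAffine.Point,
      ∀ (g : M ≃ₐ[Lv] M) (g' : Ω ≃ₐ[L] Ω), (∀ x, j (g' x) = g (j x)) →
        ∀ P : (W.map (base k F L M)).toAffine.Point, IsImage (g : M →+* M) Q P →
          IsImage (j : Ω →+* M) (c g') (P - Q)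

/-- The class of the cocycle `c` in `H¹(L, T₂W)` is fixed, up to torsion, by the automorphism `γ`
of `Ω`: some positive multiple `m (γ c - c)` is at every level a coboundary. Here
`(γ c)(h) = γ (c (γ⁻¹ h γ))`. -/
def IsFixedBy (W : WeierstrassCurve k[X])
    (c : ℕ → (Ω ≃ₐ[L] Ω) → (W.map (base k F L Ω)).toAffine.Point) (γ : Ω ≃+* Ω) : Prop :=
  ∃ m : ℕ, 0 < m ∧ ∀ n, ∃ A : (W.map (base k F L Ω)).toAffine.Point, 2 ^ n • A = 0 ∧
    ∀ g h : Ω ≃ₐ[L] Ω, (∀ x, γ (g x) = h (γ x)) →
      ∀ P A' : (W.map (base k F L Ω)).toAffine.Point, IsImage (γ : Ω →+* Ω) (c n g) P →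
        IsImage (h : Ω →+* Ω) A A' → m • (P - c n h) = A' - A

/-- The class of the cocycle `c` vanishes: at every level `n`, it is the coboundary of a point of
order dividing `2ⁿ`. -/
def IsTrivial (W : WeierstrassCurve k[X])
    (c : ℕ → (Ω ≃ₐ[L] Ω) → (W.map (base k F L Ω)).toAffine.Point) : Prop :=
  ∀ n, ∃ A : (W.map (base k F L Ω)).toAffine.Point, 2 ^ n • A = 0 ∧
    ∀ (g : Ω ≃ₐ[L] Ω) (A' : (W.map (base k F L Ω)).toAffine.Point), IsImage (g : Ω →+* Ω) A A' →
      c n g = A' - A

end

/-- The Weierstrass equation of the curve `D(t) y² = g(x) - t`, where `g` is a monic cubic: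
in terms of `X = D x` and `Y = D² y` it reads `Y² = X³ + g₂ D X² + g₁ D² X + (g₀ - t) D³`. -/
noncomputable def twist {k : Type u} [Field k] (g D : k[X]) : WeierstrassCurve k[X] where
  a₁ := 0
  a₂ := C (g.coeff 2) * D
  a₃ := 0
  a₄ := C (g.coeff 1) * D ^ 2
  a₆ := (C (g.coeff 0) - X) * D ^ 3

end Pool.Agent.Lib.MP_89bcae_ag
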