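import Mathlib
import Pool.Agent.Lib.MP_89bcae_ag.Defs8

/-!
# Invariant classes in the two-adic Selmer group over a two-power tower

`k` is a field, `F` an algebraic closure of `k`, `L` the field of rational functions `F(t)`, `Ω` a
separable closure of `L` and `K` a subfield of `Ω` containing `k(t)`.
-/

open Polynomial WeierstrassCurve IsDedekindDomain

open scoped Classical

namespace Pool.Agent.Lib.MP_89bcae_ag

universe u

/-- The subfield `K` of `Ω` is obtained from the subfield `K₀` by adjoining square roots, finitely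
many times one after the other. -/
inductive IsSqrtTower {Ω : Type u} [Field Ω] (K₀ : Subfield Ω) : Subfield Ω → Prop
  | base : IsSqrtTower K₀ K₀
  | step (K : Subfield Ω) (a : Ω) : IsSqrtTower K₀ K → a ^ 2 ∈ K →
      IsSqrtTower K₀ (K ⊔ Subfield.closure {a})

/-- The Galois group of `Ω` over the field generated by `L` and the subfield `K`. -/
def galOver (L : Type u) {Ω : Type u} [Field L] [Field Ω] [Algebra L Ω] (K : Subfield Ω) :
    Subgroup (Ω ≃ₐ[L] Ω) where
  carrier := {σ | ∀ x ∈ K, σ x = x}
  mul_mem' := fun {σ τ} hσ hτ x hx => by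
    rw [AlgEquiv.mul_apply, hτ x hx, hσ x hx]
  one_mem' := fun x _ => rfl
  inv_mem' := fun {σ} hσ x hx => by
    apply σ.injective
    rw [hσ x hx]
    exact σ.apply_symm_apply x

/-- The field generated by `L = F(t)` and `K` is unramified over `L` at the place with completion
`Lv`: since the residue fields are algebraically closed, this means that all its embeddings over `L`
in a separable closure of `Lv` have their image in `Lv`. -/
def SplitsAt {L Ω : Type u} [Field L] [Field Ω] [Algebra L Ω] (K : Subfield Ω) (Lv : Type u)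
    [Field Lv] [Algebra L Lv] : Prop :=
  ∀ (M : Type u) [Field M] [Algebra Lv M] [IsSepClosure Lv M] [Algebra L M] [IsScalarTower L Lv M]
    (j : Ω →ₐ[L] M), ∀ x ∈ K, j x ∈ (algebraMap Lv M).range

section

variable {k F L Ω : Type u} [Field k] [Field F] [Algebra k F] [Field L] [Algebra F[X] L] [Field Ω]
  [Algebra L Ω]

/-- `c` is a continuous `1`-cocycle of the Galois group of `Ω` over the field generated by `L` and
`K` with values in the two-adic Tate module of the curve `W`; its component `c n` has values in the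
points of order dividing `2ⁿ`. -/
structure IsTateCocycleOver (W : WeierstrassCurve k[X]) (K : Subfield Ω)
    (c : ℕ → galOver L K → (W.map (base k F L Ω)).toAffine.Point) : Prop where
  zero : ∀ σ, c 0 σ = 0
  two_smul : ∀ n σ, 2 • c (n + 1) σ = c n σ
  cocycle : ∀ n (σ τ : galOver L K) P, IsImage ((σ : Ω ≃ₐ[L] Ω) : Ω →+* Ω) (c n τ) P →
    c n (σ * τ) = c n σ + P
  locallyConstant : ∀ n, IsLocallyConstant (c n)

/-- The class of the cocycle `c` (of the Galois group of `Ω` over the field generated by `L` and
`K`) is trivial in the cohomology with values in `W` of all the composites of that field with the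
field `Lv` containing `L`: for every separable closure `M` of `Lv` and every embedding `j` of `Ω` in
`M` over `L` there is a point `Q` of `W(M)` with `j(c(g|_Ω)) = g(Q) - Q` for all `g` in `Gal(M/Lv)`
whose restriction to `Ω` fixes `K` pointwise. -/
def IsLocallyTrivialOver (W : WeierstrassCurve k[X]) (K : Subfield Ω)
    (c : galOver L K → (W.map (base k F L Ω)).toAffine.Point)
    (Lv : Type u) [Field Lv] [Algebra L Lv] : Prop :=
  ∀ (M : Type u) [Field M] [Algebra Lv M] [IsSepClosure Lv M] [Algebra L M] [IsScalarTower L Lv M]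
    (j : Ω →ₐ[L] M), ∃ Q : (W.map (base k F L M)).toAffine.Point,
      ∀ (g : M ≃ₐ[Lv] M) (g' : galOver L K), (∀ x, j ((g' : Ω ≃ₐ[L] Ω) x) = g (j x)) →
        ∀ P : (W.map (base k F L M)).toAffine.Point, IsImage (g : M →+* M) Q P →
          IsImage (j : Ω →+* M) (c g') (P - Q)

/-- The class of the cocycle `c` is fixed, up to torsion, by the automorphism `γ` of `Ω`: some
positive multiple `m (γ c - c)` is at every level a coboundary. Here
`(γ c)(h) = γ (c (γ⁻¹ h γ))`. -/
def IsFixedByOver (W : WeierstrassCurve k[X]) (K : Subfield Ω)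
    (c : ℕ → galOver L K → (W.map (base k F L Ω)).toAffine.Point) (γ : Ω ≃+* Ω) : Prop :=
  ∃ m : ℕ, 0 < m ∧ ∀ n, ∃ A : (W.map (base k F L Ω)).toAffine.Point, 2 ^ n • A = 0 ∧
    ∀ g h : galOver L K, (∀ x, γ ((g : Ω ≃ₐ[L] Ω) x) = (h : Ω ≃ₐ[L] Ω) (γ x)) →
      ∀ P A' : (W.map (base k F L Ω)).toAffine.Point, IsImage (γ : Ω →+* Ω) (c n g) P →
        IsImage ((h : Ω ≃ₐ[L] Ω) : Ω →+* Ω) A A' → m • (P - c n h) = A' - A

/-- The class of the cocycle `c` vanishes: at every level `n`, it is the coboundary of a point of
order dividing `2ⁿ`. -/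
def IsTrivialOver (W : WeierstrassCurve k[X]) (K : Subfield Ω)
    (c : ℕ → galOver L K → (W.map (base k F L Ω)).toAffine.Point) : Prop :=
  ∀ n, ∃ A : (W.map (base k F L Ω)).toAffine.Point, 2 ^ n • A = 0 ∧
    ∀ (g : galOver L K) (A' : (W.map (base k F L Ω)).toAffine.Point),
      IsImage ((g : Ω ≃ₐ[L] Ω) : Ω →+* Ω) A A' → c n g = A' - A

end

end Pool.Agent.Lib.MP_89bcae_ag
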