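import Mathlib
import Pool.Agent.Lib.MP_89bcae_ag.DefsTower7

/-!
# Absence of Tate classes over the cyclic covers `s ^ (2 ^ r) = D(t)` of the line

`k` is a field, `F` an algebraic closure of `k`, `L` the field of rational functions `F(t)` and `Ω` a
separable closure of `L`.
-/

open Polynomial WeierstrassCurve IsDedekindDomain

open scoped Classical

namespace Pool.Agent.Lib.MP_89bcae_ag

universe u

/-- Let `K` be a subfield of `Ω`. Every class of the two-adic Selmer group of `D(t) y² = g(x) - t`
over the field generated by `L` and `K` (a class in `H¹(·, T₂E)` which is locally trivial at all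
finite places, at all levels) fixed, up to torsion, by the automorphisms of `Ω` over `K`
vanishes. -/
def NoTateClassOver (k F L : Type u) {Ω : Type u} [Field k] [Field F] [Algebra k F] [Field L]
    [Algebra F[X] L] [IsFractionRing F[X] L] [Field Ω] [Algebra L Ω] (g D : k[X])
    (K : Subfield Ω) : Prop :=
  ∀ c : ℕ → galOver L K → ((twist g D).map (base k F L Ω)).toAffine.Point,
    IsTateCocycleOver (twist g D) K c →
    (∀ (v : HeightOneSpectrum F[X]) (n : ℕ),
      IsLocallyTrivialOver (twist g D) K (c n) (v.adicCompletion L)) →
    (∀ γ : Ω ≃+* Ω, (∀ x ∈ K, γ x = x) → IsFixedByOver (twist g D) K c γ) →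
    IsTrivialOver (twist g D) K c

/-- The subfield `k(t, s)` of `Ω`. -/
def cover (k F L : Type u) {Ω : Type u} [Field k] [Field F] [Algebra k F] [Field L]
    [Algebra F[X] L] [Field Ω] [Algebra L Ω] (s : Ω) : Subfield Ω :=
  Subfield.closure (insert s (Set.range (base k F L Ω)))

end Pool.Agent.Lib.MP_89bcae_ag
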