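import Mathlib

/-!
# Frobenius orbits
-/

open Polynomial IntermediateField

namespace Pool.Agent.Lib.MP_89bcae_ag

variable {k F : Type*} [Field k] [Fintype k] [Field F] [Algebra k F] [Algebra.IsAlgebraic k F]

variable (k F) in
/-- The Frobenius automorphism. -/
noncomputable def frob8 : F ≃ₐ[k] F := FiniteField.frobeniusAlgEquivOfAlgebraic k F

lemma frob8_apply (x : F) : frob8 k F x = x ^ Fintype.card k := rfl

lemma frob8_pow_apply (i : ℕ) (x : F) : (frob8 k F ^ i) x = x ^ (Fintype.card k ^ i) := by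
  induction i generalizing x with
  | zero => simp
  | succ i ih => rw [pow_succ, AlgEquiv.mul_apply, frob8_apply, ih, ← pow_mul, pow_succ, mul_comm]

lemma frob8_pow_pow (i m : ℕ) {x : F} (h : (frob8 k F ^ i) x = x) :
    (frob8 k F ^ (i * m)) x = x := by
  induction m with
  | zero => simp
  | succ m ih => rw [Nat.mul_succ, pow_add, AlgEquiv.mul_apply, h, ih]

lemma frob8_pow_mod {N : ℕ} (i : ℕ) {x : F} (h : (frob8 k F ^ N) x = x) :
    (frob8 k F ^ (i % N)) x = (frob8 k F ^ i) x := by
  conv_rhs => rw [← Nat.mod_add_div i N, pow_add, AlgEquiv.mul_apply, frob8_pow_pow N _ h]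

/-- The Frobenius orbit of an element has the degree of its minimal polynomial as length. -/
lemma frob8_pow_eq_iff (x : F) (i : ℕ) :
    (frob8 k F ^ i) x = x ↔ (minpoly k x).natDegree ∣ i := by
  have hint : IsIntegral k x := Algebra.IsIntegral.isIntegral x
  have : FiniteDimensional k k⟮x⟯ := adjoin.finiteDimensional hint
  have : Finite k⟮x⟯ := Module.finite_of_finite k
  rw [← adjoin.finrank hint, ← FiniteField.orderOf_frobeniusAlgEquivOfAlgebraic k k⟮x⟯,
    orderOf_dvd_iff_pow_eq_one]
  have key : ∀ y : k⟮x⟯, (((FiniteField.frobeniusAlgEquivOfAlgebraic k k⟮x⟯ ^ i) y : k⟮x⟯) : F) =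
      (frob8 k F ^ i) (y : F) := by
    intro y
    rw [frob8_pow_apply, AlgEquiv.coe_pow, FiniteField.coe_frobeniusAlgEquivOfAlgebraic_iterate]
    rfl
  constructor
  · intro h
    ext y
    rw [key]
    change (frob8 k F ^ i) (y : F) = y
    have h1 : k⟮x⟯ ≤ IntermediateField.fixedField (Subgroup.zpowers (frob8 k F ^ i)) := by
      rw [adjoin_simple_le_iff, IntermediateField.mem_fixedField_iff]
      intro τ hτ
      obtain ⟨m, rfl⟩ := Subgroup.mem_zpowers_iff.mp hτ
      exact (MulAction.stabilizer (F ≃ₐ[k] F) x).zpow_mem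
        (show frob8 k F ^ i ∈ MulAction.stabilizer (F ≃ₐ[k] F) x from h) m
    exact (IntermediateField.mem_fixedField_iff _ _).mp (h1 y.2) _ (Subgroup.mem_zpowers _)
  · intro h
    have h1 := key (AdjoinSimple.gen k x)
    rw [h] at h1
    exact h1.symm

/-- The roots of an irreducible polynomial form a Frobenius orbit. -/
lemma exists_frob8_pow [IsAlgClosed F] {p : k[X]} (hp : Irreducible p) {x y : F}
    (hx : aeval x p = 0) (hy : aeval y p = 0) : ∃ i < p.natDegree, y = (frob8 k F ^ i) x := by
  classical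
  have hsep : p.Separable := PerfectField.separable_of_irreducible hp
  have hdeg : (minpoly k x).natDegree = p.natDegree := by
    have h1 := minpoly.eq_of_irreducible hp hx
    rw [← h1, natDegree_mul_leadingCoeff_inv _ hp.ne_zero]
  have hcard : (p.rootSet F).ncard = p.natDegree := by
    rw [← Nat.card_coe_set_eq, Nat.card_eq_fintype_card]
    exact card_rootSet_eq_natDegree hsep (IsAlgClosed.splits _)
  let f : ℕ → F := fun i => (frob8 k F ^ i) x
  have hinj : Set.InjOn f (Finset.range p.natDegree : Set ℕ) := by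
    intro a ha b hb hab
    rw [Finset.mem_coe, Finset.mem_range] at ha hb
    wlog hle : a ≤ b generalizing a b
    · exact (this hb ha hab.symm (by omega)).symm
    have h1 : (frob8 k F ^ (b - a)) x = x := by
      apply (frob8 k F ^ a).injective
      rw [← AlgEquiv.mul_apply, ← pow_add, Nat.add_sub_cancel' hle]
      exact hab.symm
    rw [frob8_pow_eq_iff, hdeg] at h1
    have := Nat.eq_zero_of_dvd_of_lt h1 (by omega)
    omega
  have hsub : ((Finset.range p.natDegree).image f : Set F) ⊆ p.rootSet F := by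
    intro z hz
    rw [Finset.mem_coe, Finset.mem_image] at hz
    obtain ⟨i, -, rfl⟩ := hz
    rw [mem_rootSet]
    refine ⟨hp.ne_zero, ?_⟩
    change aeval ((frob8 k F ^ i : F ≃ₐ[k] F) x) p = 0
    rw [← AlgEquiv.coe_toAlgHom (frob8 k F ^ i), aeval_algHom_apply, hx, map_zero]
  have heq : ((Finset.range p.natDegree).image f : Set F) = p.rootSet F := by
    apply Set.eq_of_subset_of_ncard_le hsub _ (rootSet_finite _ _)
    rw [hcard, Set.ncard_coe_finset, Finset.card_image_of_injOn hinj, Finset.card_range]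
  have hy' : y ∈ p.rootSet F := mem_rootSet.mpr ⟨hp.ne_zero, hy⟩
  rw [← heq, Finset.mem_coe, Finset.mem_image] at hy'
  obtain ⟨i, hi, rfl⟩ := hy'
  exact ⟨i, Finset.mem_range.mp hi, rfl⟩

end Pool.Agent.Lib.MP_89bcae_ag
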