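import Mathlib

/-!
# A lemma on automorphisms of a module over the ring of integers of a two-power cyclotomic field

`W` is an abelian group without 2-torsion, `τ` an endomorphism with `τ ^ (2 ^ k) = -1` (`k ≥ 1`), `π = 1 - τ`,
and `W` is separated for the filtration `π ^ i W`.  `U` is an endomorphism with `U τ = τ ^ u U`, `u` odd, and
`U = 1 + π V`.  If `V`, `V + 1` and `V ^ 2 + V + 1` are injective modulo `π W`, then no positive power of `U` fixes a
nonzero element of `W`.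
-/

namespace PoolMP89Grad8

open Polynomial

variable {W : Type*} [AddCommGroup W]

/-- `O τ i w`: the element `w` lies in `(1 - τ) ^ i W`. -/
def O (τ : Module.End ℤ W) (i : ℕ) (w : W) : Prop := ∃ w' : W, w = ((1 - τ) ^ i) w'

lemma O.zero {τ : Module.End ℤ W} {i : ℕ} : O τ i 0 := ⟨0, by simp⟩

lemma O.add {τ : Module.End ℤ W} {i : ℕ} {a b : W} (ha : O τ i a) (hb : O τ i b) : O τ i (a + b) := by
  obtain ⟨a', rfl⟩ := ha
  obtain ⟨b', rfl⟩ := hb
  exact ⟨a' + b', by simp⟩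

lemma O.neg {τ : Module.End ℤ W} {i : ℕ} {a : W} (ha : O τ i a) : O τ i (-a) := by
  obtain ⟨a', rfl⟩ := ha
  exact ⟨-a', by simp⟩

lemma O.sub {τ : Module.End ℤ W} {i : ℕ} {a b : W} (ha : O τ i a) (hb : O τ i b) : O τ i (a - b) := by
  rw [sub_eq_add_neg]
  exact ha.add hb.neg

lemma O.zsmul {τ : Module.End ℤ W} {i : ℕ} {a : W} (ha : O τ i a) (m : ℤ) : O τ i (m • a) := by
  obtain ⟨a', rfl⟩ := ha
  exact ⟨m • a', by simp⟩

lemma O.mono {τ : Module.End ℤ W} {i j : ℕ} (hij : i ≤ j) {a : W} (ha : O τ j a) : O τ i a := by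
  obtain ⟨a', rfl⟩ := ha
  refine ⟨((1 - τ) ^ (j - i)) a', ?_⟩
  rw [← Module.End.mul_apply, ← pow_add, Nat.add_sub_cancel' hij]

lemma O.self {τ : Module.End ℤ W} (i : ℕ) (w : W) : O τ i (((1 - τ) ^ i) w) := ⟨w, rfl⟩

lemma O.pi {τ : Module.End ℤ W} {i : ℕ} {a : W} (ha : O τ i a) (j : ℕ) : O τ (j + i) (((1 - τ) ^ j) a) := by
  obtain ⟨a', rfl⟩ := ha
  exact ⟨a', by rw [pow_add, Module.End.mul_apply]⟩

/-- `Sy τ N s A`: the endomorphism `N` raises the filtration by `s`, with leading coefficient `A i` in degree `i`. -/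
def Sy (τ N : Module.End ℤ W) (s : ℕ) (A : ℕ → Module.End ℤ W) : Prop :=
  ∀ (i : ℕ) (w : W), O τ (i + s + 1) (N (((1 - τ) ^ i) w) - ((1 - τ) ^ (i + s)) (A i w))

lemma Sy.mapsO {τ N : Module.End ℤ W} {s : ℕ} {A : ℕ → Module.End ℤ W} (h : Sy τ N s A) {i : ℕ} {w : W}
    (hw : O τ i w) : O τ (i + s) (N w) := by
  obtain ⟨w', rfl⟩ := hw
  have h1 := (h i w').mono (show i + s ≤ i + s + 1 by omega)
  have h2 := O.self (τ := τ) (i + s) (A i w')
  have := h1.add h2
  simpa using this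

lemma Sy.comp {τ N N' : Module.End ℤ W} {s s' : ℕ} {A A' : ℕ → Module.End ℤ W} (h : Sy τ N s A)
    (h' : Sy τ N' s' A') : Sy τ (N * N') (s' + s) (fun i => A (i + s') * A' i) := by
  intro i w
  have h1 := h.mapsO (h' i w)
  have h2 := h (i + s') (A' i w)
  have h3 := (h1.mono (show i + (s' + s) + 1 ≤ i + s' + 1 + s by omega)).add
    (h2.mono (show i + (s' + s) + 1 ≤ i + s' + s + 1 by omega))
  have e : (N * N') (((1 - τ) ^ i) w) - ((1 - τ) ^ (i + (s' + s))) ((A (i + s') * A' i) w)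
      = N (N' (((1 - τ) ^ i) w) - ((1 - τ) ^ (i + s')) (A' i w))
        + (N (((1 - τ) ^ (i + s')) (A' i w)) - ((1 - τ) ^ (i + s' + s)) (A (i + s') (A' i w))) := by
    rw [map_sub, Module.End.mul_apply, Module.End.mul_apply, add_assoc]
    abel
  rw [e]
  exact h3

lemma Sy.add {τ N N' : Module.End ℤ W} {s : ℕ} {A A' : ℕ → Module.End ℤ W} (h : Sy τ N s A)
    (h' : Sy τ N' s A') : Sy τ (N + N') s (fun i => A i + A' i) := by
  intro i w
  have e : (N + N') (((1 - τ) ^ i) w) - ((1 - τ) ^ (i + s)) ((A i + A' i) w)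
      = (N (((1 - τ) ^ i) w) - ((1 - τ) ^ (i + s)) (A i w))
        + (N' (((1 - τ) ^ i) w) - ((1 - τ) ^ (i + s)) (A' i w)) := by
    simp only [LinearMap.add_apply, map_add]
    abel
  rw [e]
  exact (h i w).add (h' i w)

lemma Sy.lower {τ N : Module.End ℤ W} {s s' : ℕ} {A : ℕ → Module.End ℤ W} (h : Sy τ N s A) (hs : s' < s) :
    Sy τ N s' (fun _ => 0) := by
  intro i w
  have h1 := h.mapsO (O.self (τ := τ) i w)
  simp only [LinearMap.zero_apply, map_zero, sub_zero]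
  exact h1.mono (by omega)

lemma Sy.congr {τ N : Module.End ℤ W} {s : ℕ} {A B : ℕ → Module.End ℤ W} (h : Sy τ N s A)
    (hAB : ∀ i w, O τ 1 (A i w - B i w)) : Sy τ N s B := by
  intro i w
  have h1 := (hAB i w).pi (i + s)
  have e : N (((1 - τ) ^ i) w) - ((1 - τ) ^ (i + s)) (B i w)
      = (N (((1 - τ) ^ i) w) - ((1 - τ) ^ (i + s)) (A i w)) + ((1 - τ) ^ (i + s)) (A i w - B i w) := by
    rw [map_sub]; abel
  rw [e]
  exact (h i w).add h1

/-- `(1 - X) ^ (2 ^ k) = 1 + X ^ (2 ^ k) + 2 X h(X)` for `k ≥ 1`. -/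
lemma exists_poly : ∀ k : ℕ, 1 ≤ k → ∃ h : ℤ[X], (1 - X : ℤ[X]) ^ (2 ^ k) = 1 + X ^ (2 ^ k) + 2 * (X * h) := by
  intro k hk
  induction k, hk using Nat.le_induction with
  | base => exact ⟨-1, by norm_num; ring⟩
  | succ k hk ih =>
    obtain ⟨h, hh⟩ := ih
    have h1 : ∃ m, 2 ^ k = m + 1 := ⟨2 ^ k - 1, by have := Nat.one_le_two_pow (n := k); omega⟩
    obtain ⟨m, hm⟩ := h1
    refine ⟨2 * X * h ^ 2 + X ^ m + 2 * h * (1 + X ^ (2 ^ k)), ?_⟩
    rw [pow_succ, pow_mul, hh, pow_mul, hm]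
    ring

lemma two_eq (τ : Module.End ℤ W) {k : ℕ} (hk : 1 ≤ k) (hτ : τ ^ (2 ^ k) = -1) :
    ∃ h : Module.End ℤ W, Commute h τ ∧ (2 : Module.End ℤ W) = -(1 - τ) ^ (2 ^ k) - (1 - τ) * h * 2 := by
  obtain ⟨h, hh⟩ := exists_poly k hk
  refine ⟨aeval (1 - τ) h, ?_, ?_⟩
  · have : Commute (aeval (1 - τ) h) (1 - (1 - τ)) := by
      have h2 := (Commute.all h (1 - X : ℤ[X])).map (aeval (1 - τ) : ℤ[X] →ₐ[ℤ] Module.End ℤ W)
      simpa using h2
    simpa using this
  · have h1 := congrArg (aeval (1 - τ)) hh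
    simp only [map_pow, map_sub, map_one, aeval_X, map_add, map_mul, sub_sub_cancel, map_ofNat, hτ] at h1
    have h2 : (1 - τ) * (aeval (1 - τ) h : Module.End ℤ W) * 2 = 2 * ((1 - τ) * aeval (1 - τ) h) := by
      rw [mul_two, two_mul]
    rw [h2]
    have h3 : (2 : Module.End ℤ W) = 1 + 1 := by norm_num
    have h4 : 2 * ((1 - τ) * (aeval (1 - τ) h : Module.End ℤ W)) = -1 - (1 + (1 - τ) ^ (2 ^ k)) := by
      rw [h1]; abel
    rw [h4, h3]
    abel

/-- multiplication by `2` raises the filtration by `2 ^ k`, with leading coefficient `1`. -/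
lemma sy_two (τ : Module.End ℤ W) {k : ℕ} (hk : 1 ≤ k) (hτ : τ ^ (2 ^ k) = -1) :
    Sy τ 2 (2 ^ k) (fun _ => 1) := by
  obtain ⟨h, hc, h2⟩ := two_eq τ hk hτ
  have hcp : Commute h (1 - τ) := (Commute.one_right h).sub_right hc
  set e := 2 ^ k with he
  have he1 : 1 ≤ e := Nat.one_le_two_pow
  have two_apply : ∀ w : W, (2 : Module.End ℤ W) w = -((1 - τ) ^ e) w - (1 - τ) (h ((2 : Module.End ℤ W) w)) := by
    intro w
    have := congrArg (fun f : Module.End ℤ W => f w) h2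
    simpa [Module.End.mul_apply, smul_sub] using this
  have two_comm : ∀ (f : Module.End ℤ W) (w : W), (2 : Module.End ℤ W) (f w) = f ((2 : Module.End ℤ W) w) := by
    intro f w
    rw [← Module.End.mul_apply, ← Module.End.mul_apply, mul_two, two_mul]
  -- `2 W ⊂ π ^ e W + π ^ m (2 W)`
  have step : ∀ (m : ℕ) (w : W), ∃ a b : W,
      (2 : Module.End ℤ W) w = ((1 - τ) ^ e) a + ((1 - τ) ^ m) ((2 : Module.End ℤ W) b) := by
    intro m
    induction m with
    | zero => intro w; exact ⟨0, w, by simp⟩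
    | succ m ih =>
      intro w
      obtain ⟨a, b, hab⟩ := ih w
      refine ⟨a - ((1 - τ) ^ m) b, -(h b), ?_⟩
      rw [hab, two_apply b, map_sub, map_neg, map_sub, ← two_comm h b]
      have e1 : ((1 - τ) ^ m) (((1 - τ) ^ e) b) = ((1 - τ) ^ e) (((1 - τ) ^ m) b) := by
        rw [← Module.End.mul_apply, ← Module.End.mul_apply, ← pow_add, ← pow_add, add_comm]
      have e2 : ((1 - τ) ^ (m + 1)) ((2 : Module.End ℤ W) (-(h b)))
          = -((1 - τ) ^ m) ((1 - τ) ((2 : Module.End ℤ W) (h b))) := by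
        rw [pow_succ, Module.End.mul_apply, map_neg, map_neg, map_neg]
      rw [e1, e2]
      abel
  have hO : ∀ w : W, O τ e ((2 : Module.End ℤ W) w) := by
    intro w
    obtain ⟨a, b, hab⟩ := step e w
    exact ⟨a + (2 : Module.End ℤ W) b, by rw [hab, map_add]⟩
  have key : ∀ w : W, O τ (e + 1) ((2 : Module.End ℤ W) w - ((1 - τ) ^ e) w) := by
    intro w
    obtain ⟨c, hc'⟩ := hO w
    have e1 : (2 : Module.End ℤ W) w - ((1 - τ) ^ e) w
        = -((2 : Module.End ℤ W) (((1 - τ) ^ e) w)) - (1 - τ) (h ((2 : Module.End ℤ W) w)) := by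
      have h3 : (2 : Module.End ℤ W) (((1 - τ) ^ e) w) = ((1 - τ) ^ e) w + ((1 - τ) ^ e) w := by
        rw [show (2 : Module.End ℤ W) = 1 + 1 by norm_num]; simp
      rw [h3]
      nth_rewrite 1 [two_apply w]
      abel
    rw [e1]
    apply O.sub
    · apply O.neg
      rw [two_comm]
      exact ((hO w).pi e).mono (by omega)
    · rw [hc']
      have h4 : (1 - τ) (h (((1 - τ) ^ e) c)) = ((1 - τ) ^ (e + 1)) (h c) := by
        rw [pow_succ', Module.End.mul_apply, ← Module.End.mul_apply h, (hcp.pow_right e).eq,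
          Module.End.mul_apply]
      rw [h4]
      exact O.self _ _
  intro i w
  have h5 : (2 : Module.End ℤ W) (((1 - τ) ^ i) w) - ((1 - τ) ^ (i + e)) ((1 : Module.End ℤ W) w)
      = ((1 - τ) ^ i) ((2 : Module.End ℤ W) w - ((1 - τ) ^ e) w) := by
    rw [map_sub, two_comm, pow_add, Module.End.mul_apply, Module.End.one_apply]
  rw [h5]
  exact ((key w).pi i).mono (by omega)

lemma O.of_two {τ : Module.End ℤ W} {k : ℕ} (hk : 1 ≤ k) (hτ : τ ^ (2 ^ k) = -1) (w : W) :
    O τ 2 (w + w) := by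
  have h := (sy_two τ hk hτ).mapsO (O.self (τ := τ) 0 w)
  have h2 : 2 ≤ 2 ^ k := by
    calc 2 = 2 ^ 1 := rfl
      _ ≤ 2 ^ k := Nat.pow_le_pow_right (by norm_num) hk
  have h3 := h.mono (show 2 ≤ 0 + 2 ^ k by omega)
  rw [show (2 : Module.End ℤ W) = 1 + 1 by norm_num] at h3
  simpa using h3

/-- `π` is injective. -/
lemma pi_inj {τ : Module.End ℤ W} (htf : ∀ w : W, w + w = 0 → w = 0) {k : ℕ} (hτ : τ ^ (2 ^ k) = -1)
    {w : W} (hw : (1 - τ) w = 0) : w = 0 := by
  have h1 : τ w = w := by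
    have : w - τ w = 0 := by simpa using hw
    exact (sub_eq_zero.mp this).symm
  have h2 : ∀ m : ℕ, (τ ^ m) w = w := by
    intro m
    induction m with
    | zero => simp
    | succ m ih => rw [pow_succ, Module.End.mul_apply, h1, ih]
  have h3 := h2 (2 ^ k)
  rw [hτ] at h3
  apply htf
  have : -w = w := by simpa using h3
  nth_rewrite 1 [← this]
  simp

lemma pi_pow_inj {τ : Module.End ℤ W} (htf : ∀ w : W, w + w = 0 → w = 0) {k : ℕ} (hτ : τ ^ (2 ^ k) = -1)
    (i : ℕ) {w : W} (hw : ((1 - τ) ^ i) w = 0) : w = 0 := by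
  induction i with
  | zero => simpa using hw
  | succ i ih =>
    rw [pow_succ', Module.End.mul_apply] at hw
    exact ih (pi_inj htf hτ hw)

lemma O.of_pi {τ : Module.End ℤ W} (htf : ∀ w : W, w + w = 0 → w = 0) {k : ℕ} (hτ : τ ^ (2 ^ k) = -1)
    {i j : ℕ} {w : W} (hw : O τ (i + j) (((1 - τ) ^ i) w)) : O τ j w := by
  obtain ⟨w', hw'⟩ := hw
  refine ⟨w', ?_⟩
  rw [pow_add, Module.End.mul_apply] at hw'
  have : ((1 - τ) ^ i) (w - ((1 - τ) ^ j) w') = 0 := by rw [map_sub, hw', sub_self]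
  exact sub_eq_zero.mp (pi_pow_inj htf hτ i this)

/-- a separated filtration: every nonzero element is `π ^ i w'` with `w'` outside `π W`. -/
lemma exists_order {τ : Module.End ℤ W} (hsep : ∀ w : W, (∀ i, O τ i w) → w = 0) {w : W} (hw : w ≠ 0) :
    ∃ (i : ℕ) (w' : W), w = ((1 - τ) ^ i) w' ∧ ¬ O τ 1 w' := by
  classical
  have h1 : ∃ i, ¬ O τ i w := by
    by_contra h
    push Not at h
    exact hw (hsep w h)
  obtain ⟨i, hi, hmin⟩ : ∃ i, ¬ O τ i w ∧ ∀ j < i, O τ j w :=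
    ⟨Nat.find h1, Nat.find_spec h1, fun j hj => not_not.mp (Nat.find_min h1 hj)⟩
  cases i with
  | zero => exact absurd ⟨w, by simp⟩ hi
  | succ i =>
    obtain ⟨w', hw'⟩ := hmin i (Nat.lt_succ_self i)
    refine ⟨i, w', hw', fun h => hi ?_⟩
    rw [hw']
    exact h.pi i

/-- an operator whose leading coefficients are injective modulo `π W` is injective. -/
lemma Sy.ne_zero {τ N : Module.End ℤ W} {s : ℕ} {A : ℕ → Module.End ℤ W} (h : Sy τ N s A)
    (htf : ∀ w : W, w + w = 0 → w = 0) {k : ℕ} (hτ : τ ^ (2 ^ k) = -1)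
    (hsep : ∀ w : W, (∀ i, O τ i w) → w = 0) (hA : ∀ i w, ¬ O τ 1 w → ¬ O τ 1 (A i w)) {w : W} (hw : w ≠ 0) :
    N w ≠ 0 := by
  obtain ⟨i, w', rfl, hw'⟩ := exists_order hsep hw
  intro h0
  have h1 := h i w'
  rw [h0, zero_sub] at h1
  have h2 := h1.neg
  rw [neg_neg] at h2
  exact hA i w' hw' (O.of_pi htf hτ h2)

/-- `1 + τ + … + τ ^ (m - 1)`. -/
def geo (τ : Module.End ℤ W) (m : ℕ) : Module.End ℤ W := ∑ i ∈ Finset.range m, τ ^ i

lemma geo_succ (τ : Module.End ℤ W) (m : ℕ) : geo τ (m + 1) = geo τ m + τ ^ m := Finset.sum_range_succ _ _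

lemma geo_mul (τ : Module.End ℤ W) (m : ℕ) : (1 - τ) * geo τ m = 1 - τ ^ m := mul_neg_geom_sum τ m

lemma commute_geo (τ : Module.End ℤ W) (m : ℕ) : Commute (geo τ m) (1 - τ) := by
  apply Commute.sub_right (Commute.one_right _)
  exact Commute.sum_left _ _ _ fun i _ => (Commute.refl τ).pow_left i

/-- `τ ^ m = 1 - m π` modulo `π ^ 2`. -/
lemma pow_mod (τ : Module.End ℤ W) (m : ℕ) (w : W) : O τ 2 ((τ ^ m) w - w + (m : ℤ) • (1 - τ) w) := by
  induction m with
  | zero => simpa using O.zero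
  | succ m ih =>
    have e1 : (τ ^ (m + 1)) w - w + ((m + 1 : ℕ) : ℤ) • (1 - τ) w
        = ((τ ^ m) w - w + (m : ℤ) • (1 - τ) w) + (((1 - τ) w) - (τ ^ m) ((1 - τ) w)) := by
      have h : (τ ^ (m + 1)) w = (τ ^ m) w - (τ ^ m) ((1 - τ) w) := by
        rw [pow_succ, Module.End.mul_apply, ← map_sub]
        congr 1
        simp
      rw [h]
      push_cast
      rw [add_smul, one_smul]
      abel
    rw [e1]
    apply ih.add
    have h2 : (1 - τ) w - (τ ^ m) ((1 - τ) w) = ((1 - τ : Module.End ℤ W) ^ 2) (geo τ m w) := by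
      have h3 : (1 - τ ^ m) * (1 - τ) = (1 - τ) ^ 2 * geo τ m := by
        rw [← geo_mul, mul_assoc, (commute_geo τ m).eq, pow_two, mul_assoc]
      have h4 := congrArg (fun f : Module.End ℤ W => f w) h3
      simpa [Module.End.mul_apply] using h4
    rw [h2]
    exact O.self _ _

/-- `1 + τ + … + τ ^ (2 c) = 1 + c π` modulo `π ^ 2`. -/
lemma geo_mod {τ : Module.End ℤ W} {k : ℕ} (hk : 1 ≤ k) (hτ : τ ^ (2 ^ k) = -1) (c : ℕ) (w : W) :
    O τ 2 (geo τ (2 * c + 1) w - w - (c : ℤ) • (1 - τ) w) := by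
  induction c with
  | zero => simpa [geo] using O.zero
  | succ c ih =>
    have h1 := pow_mod τ (2 * c + 1) w
    have h2 := pow_mod τ (2 * c + 2) w
    have h3 := O.of_two hk hτ w
    have h4 := O.of_two hk hτ ((1 - τ) w)
    have e1 : geo τ (2 * (c + 1) + 1) w - w - ((c + 1 : ℕ) : ℤ) • (1 - τ) w
        = (geo τ (2 * c + 1) w - w - (c : ℤ) • (1 - τ) w)
          + (((τ ^ (2 * c + 1)) w - w + ((2 * c + 1 : ℕ) : ℤ) • (1 - τ) w)
          + (((τ ^ (2 * c + 2)) w - w + ((2 * c + 2 : ℕ) : ℤ) • (1 - τ) w)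
          + ((w + w) - ((2 * c + 2 : ℕ) : ℤ) • ((1 - τ) w + (1 - τ) w)))) := by
      rw [show 2 * (c + 1) + 1 = (2 * c + 1) + 1 + 1 by ring, geo_succ, geo_succ]
      simp only [LinearMap.add_apply]
      push_cast
      module
    rw [e1]
    exact ih.add (h1.add (h2.add (h3.sub (h4.zsmul _))))

/-- the symbol of `U - 1`. -/
lemma sy_U {τ U V : Module.End ℤ W} {k : ℕ} (hk : 1 ≤ k) (hτ : τ ^ (2 ^ k) = -1) {c : ℕ}
    (hU : U * τ = τ ^ (2 * c + 1) * U) (hV : U = 1 + (1 - τ) * V) :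
    Sy τ (U - 1) 1 (fun i => V + ((i * c : ℕ) : ℤ) • 1) := by
  set G := geo τ (2 * c + 1) with hG
  have hcG : Commute G (1 - τ) := commute_geo τ _
  have hGm : ∀ w, O τ 2 (G w - w - (c : ℤ) • (1 - τ) w) := geo_mod hk hτ c
  have hUp : U * (1 - τ) = (1 - τ) * (G * U) := by
    rw [mul_sub, mul_one, hU, ← mul_assoc, hG, geo_mul, sub_mul, one_mul]
  have hUpi : ∀ i : ℕ, U * (1 - τ) ^ i = (1 - τ) ^ i * (G ^ i * U) := by
    intro i
    induction i with
    | zero => simp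
    | succ i ih =>
      rw [pow_succ, ← mul_assoc, ih, mul_assoc, mul_assoc, hUp]
      have h1 : Commute (G ^ i) (1 - τ) := hcG.pow_left i
      calc (1 - τ) ^ i * (G ^ i * ((1 - τ) * (G * U)))
          = (1 - τ) ^ i * ((G ^ i * (1 - τ)) * (G * U)) := by simp only [mul_assoc]
        _ = (1 - τ) ^ i * (((1 - τ) * G ^ i) * (G * U)) := by rw [h1.eq]
        _ = (1 - τ) ^ i * (1 - τ) * (G ^ (i + 1) * U) := by rw [pow_succ G]; simp only [mul_assoc]
  -- `G ^ i = 1 + i c π` modulo `π ^ 2`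
  have hGi : ∀ (i : ℕ) (w : W), O τ 2 ((G ^ i) w - w - ((i * c : ℕ) : ℤ) • (1 - τ) w) := by
    intro i w
    induction i with
    | zero => simpa using O.zero
    | succ i ih =>
      have h1 : (G ^ (i + 1)) w = (G ^ i) (G w) := by rw [pow_succ, Module.End.mul_apply]
      have hGO : ∀ (j m : ℕ) (x : W), O τ j x → O τ j ((G ^ m) x) := by
        rintro j m x ⟨x', rfl⟩
        refine ⟨(G ^ m) x', ?_⟩
        rw [← Module.End.mul_apply, ← Module.End.mul_apply, ((hcG.pow_left m).pow_right j).eq]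
      have hG1 : ∀ (m : ℕ) (x : W), O τ 1 ((G ^ m) x - x) := by
        intro m
        induction m with
        | zero => intro x; simpa using O.zero
        | succ m ihm =>
          intro x
          have h2 : (G ^ (m + 1)) x - x = ((G ^ m) (G x) - G x) + ((G x - x - (c : ℤ) • (1 - τ) x) + (c : ℤ) • (1 - τ) x) := by
            rw [pow_succ, Module.End.mul_apply]; abel
          rw [h2]
          refine (ihm _).add (((hGm x).mono (by norm_num)).add (O.zsmul ?_ _))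
          exact ⟨x, by simp⟩
      have e1 : (G ^ (i + 1)) w - w - (((i + 1) * c : ℕ) : ℤ) • (1 - τ) w
          = ((G ^ i) w - w - ((i * c : ℕ) : ℤ) • (1 - τ) w) + ((G ^ i) (G w - w - (c : ℤ) • (1 - τ) w)
            + (c : ℤ) • ((G ^ i) ((1 - τ) w) - (1 - τ) w)) := by
        rw [h1, map_sub (G ^ i), map_sub (G ^ i), map_zsmul (G ^ i)]
        push_cast
        module
      rw [e1]
      refine ih.add ((hGO 2 i _ (hGm w)).add (O.zsmul ?_ _))
      have h3 : (G ^ i) ((1 - τ) w) - (1 - τ) w = ((1 - τ : Module.End ℤ W) ^ 1) ((G ^ i) w - w) := by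
        rw [map_sub, pow_one, ← Module.End.mul_apply, ← Module.End.mul_apply, (hcG.pow_left i).eq]
      rw [h3]
      exact (hG1 i w).pi 1
  intro i w
  have h1 : (U - 1) (((1 - τ) ^ i) w) = ((1 - τ) ^ i) ((G ^ i) (w + (1 - τ) (V w)) - w) := by
    have h2 : U (((1 - τ) ^ i) w) = ((1 - τ) ^ i) ((G ^ i) (U w)) := by
      have := congrArg (fun f : Module.End ℤ W => f w) (hUpi i)
      simpa [Module.End.mul_apply] using this
    have h3 : U w = w + (1 - τ) (V w) := by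
      have := congrArg (fun f : Module.End ℤ W => f w) hV
      simpa [Module.End.mul_apply] using this
    rw [LinearMap.sub_apply, h2, h3, Module.End.one_apply, ← map_sub]
  have e1 : (U - 1) (((1 - τ) ^ i) w) - ((1 - τ) ^ (i + 1)) ((V + ((i * c : ℕ) : ℤ) • (1 : Module.End ℤ W)) w)
      = ((1 - τ) ^ i) (((G ^ i) w - w - ((i * c : ℕ) : ℤ) • (1 - τ) w)
          + ((G ^ i) ((1 - τ) (V w)) - (1 - τ) (V w))) := by
    rw [h1, pow_succ, Module.End.mul_apply, ← map_sub]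
    congr 1
    simp only [LinearMap.add_apply, LinearMap.smul_apply, Module.End.one_apply, map_add, map_zsmul]
    abel
  rw [e1]
  refine ((O.add (hGi i w) ?_).pi i).mono (by omega)
  have h3 := hGi i ((1 - τ) (V w))
  have h4 : O τ 2 (((i * c : ℕ) : ℤ) • (1 - τ) ((1 - τ) (V w))) := O.zsmul ⟨V w, by rw [pow_two]; rfl⟩ _
  have h5 := h3.add h4
  simpa using h5

/-- injectivity modulo `π W`. -/
def Inj (τ A : Module.End ℤ W) : Prop := ∀ w : W, ¬ O τ 1 w → ¬ O τ 1 (A w)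

lemma Inj.mul {τ A B : Module.End ℤ W} (hA : Inj τ A) (hB : Inj τ B) : Inj τ (A * B) :=
  fun w hw => hA _ (hB w hw)

lemma Inj.congr {τ A B : Module.End ℤ W} (hA : Inj τ A) (h : ∀ w, O τ 1 (A w - B w)) : Inj τ B := by
  intro w hw hB
  apply hA w hw
  have := (h w).add hB
  simpa using this

lemma Sy.mulOne {τ P Q : Module.End ℤ W} {s : ℕ} (hs : 1 ≤ s) {A B : Module.End ℤ W}
    (hP : Sy τ (P - 1) s (fun _ => A)) (hQ : Sy τ (Q - 1) s (fun _ => B)) :
    Sy τ (P * Q - 1) s (fun _ => A + B) := by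
  have h1 : P * Q - 1 = (P - 1) + (Q - 1) + (P - 1) * (Q - 1) := by
    rw [sub_mul, mul_sub]; simp only [mul_one, one_mul]; abel
  have h2 := ((hP.comp hQ).lower (show s < s + s by omega))
  have h3 := (hP.add hQ).add h2
  rw [h1]
  simpa using h3

lemma Sy.sq {τ P : Module.End ℤ W} {k : ℕ} (hk : 1 ≤ k) (hτ : τ ^ (2 ^ k) = -1) {s : ℕ}
    {A : Module.End ℤ W} (hP : Sy τ (P - 1) s (fun _ => A)) (hs : 1 ≤ s) :
    Sy τ (P * P - 1) s (fun _ => 0) := by
  refine (hP.mulOne hs hP).congr fun _ w => ?_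
  have := (O.of_two hk hτ (A w)).mono (show 1 ≤ 2 by norm_num)
  simpa using this

lemma Sy.odd {τ P : Module.End ℤ W} {k : ℕ} (hk : 1 ≤ k) (hτ : τ ^ (2 ^ k) = -1) {s : ℕ}
    {A : Module.End ℤ W} (hP : Sy τ (P - 1) s (fun _ => A)) (hs : 1 ≤ s) (c : ℕ) :
    Sy τ (P ^ (2 * c + 1) - 1) s (fun _ => A) := by
  induction c with
  | zero => simpa using hP
  | succ c ih =>
    have h1 : P ^ (2 * (c + 1) + 1) = P ^ (2 * c + 1) * (P * P) := by
      rw [← pow_two, ← pow_add]; congr 1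
    rw [h1]
    have h2 := ih.mulOne hs (hP.sq hk hτ hs)
    simpa using h2

/-- the symbol of `T ^ (2 ^ j) - 1`. -/
lemma exists_sy {τ T : Module.End ℤ W} {k : ℕ} (hk : 1 ≤ k) (hτ : τ ^ (2 ^ k) = -1) {B : Module.End ℤ W}
    (hT : Sy τ (T - 1) 2 (fun _ => B)) (hB : Inj τ B) (hB1 : Inj τ (B + 1)) (j : ℕ) :
    ∃ (s : ℕ) (A : Module.End ℤ W), 1 ≤ s ∧ Sy τ (T ^ (2 ^ j) - 1) s (fun _ => A) ∧ Inj τ A ∧
      ((s = 2 ^ (j + 1) ∧ j + 1 ≤ k ∧ Inj τ (A + 1)) ∨ 2 ^ k < s) := by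
  induction j with
  | zero => exact ⟨2, B, by norm_num, by simpa using hT, hB, Or.inl ⟨by norm_num, by omega, hB1⟩⟩
  | succ j ih =>
    obtain ⟨s, A, hs, hSy, hA, hor⟩ := ih
    have hsq : T ^ (2 ^ (j + 1)) - 1 = (T ^ (2 ^ j) - 1) * (T ^ (2 ^ j) - 1) + 2 * (T ^ (2 ^ j) - 1) := by
      rw [pow_succ 2 j, pow_mul, pow_two, sub_mul, mul_sub, two_mul]
      simp only [mul_one, one_mul]
      abel
    have h1 := hSy.comp hSy
    have h2 := (sy_two τ hk hτ).comp hSy
    rcases hor with ⟨hs1, hjk, hA1⟩ | hlt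
    · rcases Nat.lt_or_ge (j + 1) k with hlt | hge
      · have hpow : 2 ^ (j + 1) < 2 ^ k := Nat.pow_lt_pow_right (by norm_num) hlt
        refine ⟨s + s, A * A, by omega, ?_, hA.mul hA, Or.inl ⟨by rw [hs1]; ring, by omega, ?_⟩⟩
        · have h3 := h1.add (h2.lower (show s + s < s + 2 ^ k by omega))
          rw [hsq]
          simpa using h3
        · refine (hA1.mul hA1).congr fun w => ?_
          have h4 := (O.of_two hk hτ (A w)).mono (show 1 ≤ 2 by norm_num)
          have h5 : ((A + 1) * (A + 1)) w - (A * A + 1) w = A w + A w := by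
            simp only [Module.End.mul_apply, LinearMap.add_apply, Module.End.one_apply, map_add]
            abel
          rw [h5]
          exact h4
      · have hjk' : j + 1 = k := by omega
        have hse : s = 2 ^ k := by rw [hs1, hjk']
        have h0 : 0 < 2 ^ k := by positivity
        refine ⟨s + s, (A + 1) * A, by omega, ?_, hA1.mul hA, Or.inr (by omega)⟩
        rw [← hse] at h2
        have h3 := h1.add h2
        rw [hsq]
        refine h3.congr fun _ w => ?_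
        have h5 : (A * A + 1 * A) w - ((A + 1) * A) w = 0 := by
          rw [add_mul, sub_self]
        rw [h5]
        exact O.zero
    · have h0 : 0 < 2 ^ k := by positivity
      refine ⟨s + 2 ^ k, A, by omega, ?_, hA, Or.inr (by omega)⟩
      have h3 := (h1.lower (show s + 2 ^ k < s + s by omega)).add h2
      rw [hsq]
      simpa using h3

/-- **The lemma.** -/
theorem pow_apply_ne {τ U V : Module.End ℤ W} (htf : ∀ w : W, w + w = 0 → w = 0) {k : ℕ} (hk : 1 ≤ k)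
    (hτ : τ ^ (2 ^ k) = -1) {u : ℕ} (hu : Odd u) (hU : U * τ = τ ^ u * U) (hV : U = 1 + (1 - τ) * V)
    (hsep : ∀ w : W, (∀ i, O τ i w) → w = 0) (h0 : Inj τ V) (h1 : Inj τ (V + 1))
    (h2 : Inj τ (V * V + V + 1)) {M : ℕ} (hM : 0 < M) {w : W} (hw : w ≠ 0) : (U ^ M) w ≠ w := by
  obtain ⟨c, rfl⟩ := hu
  have hSU := sy_U hk hτ hU hV
  have htwo : ∀ w : W, O τ 1 (w + w) := fun w => (O.of_two hk hτ w).mono (by norm_num)
  set T : Module.End ℤ W := U * U with hT
  -- the symbol of `T - 1`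
  have hT1 : T - 1 = (U - 1) * (U - 1) + 2 * (U - 1) := by
    rw [hT, sub_mul, mul_sub, two_mul]; simp only [mul_one, one_mul]; abel
  have hek : 2 ≤ 2 ^ k := by
    calc 2 = 2 ^ 1 := rfl
      _ ≤ 2 ^ k := Nat.pow_le_pow_right (by norm_num) hk
  obtain ⟨B, hB, hB0, hB1⟩ : ∃ B : Module.End ℤ W, Sy τ (T - 1) 2 (fun _ => B) ∧ Inj τ B ∧ Inj τ (B + 1) := by
    have h3 := (hSU.comp hSU).add (((sy_two τ hk hτ).comp hSU).lower (show 1 + 1 < 1 + 2 ^ k by omega))
    rw [← hT1] at h3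
    rcases Nat.even_or_odd c with ⟨d, hd⟩ | ⟨d, hd⟩
    · refine ⟨V * V, h3.congr fun i w => ?_, h0.mul h0, (h1.mul h1).congr fun w => ?_⟩
      · have h4 : ((V + (((i + 1) * c : ℕ) : ℤ) • (1 : Module.End ℤ W)) * (V + ((i * c : ℕ) : ℤ) • (1 : Module.End ℤ W)) + 0) w
            - (V * V) w = (((2 * i + 1) * d : ℕ) : ℤ) • (V w + V w)
              + ((2 * (i * (i + 1)) * d * d : ℕ) : ℤ) • (w + w) := by
          simp only [Module.End.mul_apply, LinearMap.add_apply, LinearMap.smul_apply, Module.End.one_apply,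
            map_add, map_zsmul, LinearMap.zero_apply, hd]
          push_cast
          module
        rw [h4]
        exact ((htwo _).zsmul _).add ((htwo _).zsmul _)
      · have h5 : ((V + 1) * (V + 1)) w - (V * V + 1) w = V w + V w := by
          simp only [Module.End.mul_apply, LinearMap.add_apply, Module.End.one_apply, map_add]
          abel
        rw [h5]
        exact htwo _
    · refine ⟨(V + 1) * V, h3.congr fun i w => ?_, h1.mul h0, h2.congr fun w => ?_⟩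
      · obtain ⟨b, hb⟩ : ∃ b : ℕ, i * (i + 1) = 2 * b := (Nat.even_mul_succ_self i).exists_two_nsmul.imp
          fun b hb => by rw [hb, smul_eq_mul]
        have hbz : (i : ℤ) * (i + 1) = 2 * b := by exact_mod_cast hb
        have h4 : ((V + (((i + 1) * c : ℕ) : ℤ) • (1 : Module.End ℤ W)) * (V + ((i * c : ℕ) : ℤ) • (1 : Module.End ℤ W)) + 0) w
            - ((V + 1) * V) w = ((2 * i * d + i + d : ℕ) : ℤ) • (V w + V w)
              + ((b * c * c : ℕ) : ℤ) • (w + w) := by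
          simp only [Module.End.mul_apply, LinearMap.add_apply, LinearMap.smul_apply, Module.End.one_apply,
            map_add, map_zsmul, LinearMap.zero_apply]
          have h6 : ((((i + 1) * c : ℕ) : ℤ) * ((i * c : ℕ) : ℤ)) = 2 * ((b * c * c : ℕ) : ℤ) := by
            push_cast
            linear_combination (c : ℤ) * c * hbz
          have h7 : ((((i + 1) * c : ℕ) : ℤ) + ((i * c : ℕ) : ℤ)) = 2 * ((2 * i * d + i + d : ℕ) : ℤ) + 1 := by
            rw [hd]; push_cast; ring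
          have h8 : ∀ x y : ℤ, (V (V w) + x • V w) + y • (V w + x • w) + 0 - (V (V w) + V w)
              = (x + y - 1) • V w + (x * y) • w := by
            intro x y; module
          have h9 := h8 ((((i + 1) * c : ℕ) : ℤ)) (((i * c : ℕ) : ℤ))
          rw [h6, h7] at h9
          rw [h9]
          module
        rw [h4]
        exact ((htwo _).zsmul _).add ((htwo _).zsmul _)
      · have h5 : (V * V + V + 1) w - ((V + 1) * V + 1) w = 0 := by
          rw [add_mul, one_mul, sub_self]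
        rw [h5]
        exact O.zero
  intro hfix
  -- `T ^ M` fixes `w`
  have hTM : (T ^ M) w = w := by
    rw [hT, ← pow_two, ← pow_mul, mul_comm, pow_mul, pow_two, Module.End.mul_apply, hfix, hfix]
  obtain ⟨j, m', hm', rfl⟩ := Nat.exists_eq_two_pow_mul_odd hM.ne'
  obtain ⟨c', rfl⟩ := hm'
  obtain ⟨s, A, hs, hSy, hA, -⟩ := exists_sy hk hτ hB hB0 hB1 j
  have h6 := hSy.odd hk hτ hs c'
  have h7 := h6.ne_zero htf hτ hsep (fun _ => hA) hw
  apply h7
  rw [← pow_mul, LinearMap.sub_apply, hTM, Module.End.one_apply, sub_self]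

end PoolMP89Grad8
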