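import Mathlib

/-!
# Cocycles on a normal subgroup: restriction and extension
-/

namespace Pool.Agent.Lib.MP_89bcae_ag.Inf

set_option linter.unusedSectionVars false

variable {Γ A X : Type*} [Group Γ] [AddCommGroup A] [DistribMulAction Γ A] [MulAction Γ X]

/-- `f` is a cocycle on the subgroup `H`. -/
def Co (H : Subgroup Γ) (f : Γ → A) : Prop := ∀ σ ∈ H, ∀ τ ∈ H, f (σ * τ) = f σ + σ • f τ

/-- The coboundary of `a`. -/
def cob (a : A) (σ : Γ) : A := σ • a - a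

/-- The conjugate of `f` by `γ`. -/
def cj (γ : Γ) (f : Γ → A) (σ : Γ) : A := γ • f (γ⁻¹ * σ * γ)

/-- `f` and `f'` are cohomologous on `H`, by an element of order dividing `m`. -/
def Eqv (m : ℕ) (H : Subgroup Γ) (f f' : Γ → A) : Prop :=
  ∃ a : A, m • a = 0 ∧ ∀ σ ∈ H, f σ - f' σ = cob a σ

/-- `f` vanishes on the elements of `H` which fix finitely many given elements. -/
def Sm (X : Type*) [MulAction Γ X] (H : Subgroup Γ) (f : Γ → A) : Prop :=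
  ∃ T : Finset X, ∀ σ ∈ H, (∀ x ∈ T, σ • x = x) → f σ = 0

lemma cob_add (a b : A) (σ : Γ) : cob (a + b) σ = cob a σ + cob b σ := by
  simp only [cob, smul_add]; abel

lemma cob_neg (a : A) (σ : Γ) : cob (-a) σ = -cob a σ := by
  simp only [cob, smul_neg]; abel

lemma cob_nsmul (m : ℕ) (a : A) (σ : Γ) : cob (m • a) σ = m • cob a σ := by
  simp only [cob, smul_sub]
  rw [smul_comm]

lemma cob_zero (σ : Γ) : cob (0 : A) σ = 0 := by simp [cob]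

lemma Co.cob (H : Subgroup Γ) (a : A) : Co H (cob a : Γ → A) := by
  intro σ _ τ _
  simp only [Inf.cob, mul_smul, smul_sub]
  abel

lemma Co.add {H : Subgroup Γ} {f f' : Γ → A} (h : Co H f) (h' : Co H f') :
    Co H (fun σ => f σ + f' σ) := by
  intro σ hσ τ hτ
  simp only [h σ hσ τ hτ, h' σ hσ τ hτ, smul_add]
  abel

lemma Co.neg {H : Subgroup Γ} {f : Γ → A} (h : Co H f) : Co H (fun σ => -f σ) := by
  intro σ hσ τ hτ
  simp only [h σ hσ τ hτ, smul_neg]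
  abel

lemma Co.sub {H : Subgroup Γ} {f f' : Γ → A} (h : Co H f) (h' : Co H f') :
    Co H (fun σ => f σ - f' σ) := by
  intro σ hσ τ hτ
  simp only [h σ hσ τ hτ, h' σ hσ τ hτ, smul_sub]
  abel

lemma Co.nsmul {H : Subgroup Γ} {f : Γ → A} (h : Co H f) (m : ℕ) : Co H (fun σ => m • f σ) := by
  intro σ hσ τ hτ
  simp only [h σ hσ τ hτ, smul_add]
  rw [smul_comm m σ]

lemma Co.congr {H : Subgroup Γ} {f f' : Γ → A} (h : Co H f) (hff : ∀ σ ∈ H, f' σ = f σ) :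
    Co H f' := by
  intro σ hσ τ hτ
  rw [hff _ (H.mul_mem hσ hτ), hff _ hσ, hff _ hτ, h σ hσ τ hτ]

lemma Co.mono {H G : Subgroup Γ} (hHG : H ≤ G) {f : Γ → A} (h : Co G f) : Co H f :=
  fun σ hσ τ hτ => h σ (hHG hσ) τ (hHG hτ)

lemma Co.one {H : Subgroup Γ} {f : Γ → A} (h : Co H f) : f 1 = 0 := by
  have h1 := h 1 H.one_mem 1 H.one_mem
  rw [mul_one, one_smul] at h1
  exact left_eq_add.mp h1

lemma Co.inv {H : Subgroup Γ} {f : Γ → A} (h : Co H f) {σ : Γ} (hσ : σ ∈ H) :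
    σ • f σ⁻¹ = -f σ := by
  have h1 := h σ hσ σ⁻¹ (H.inv_mem hσ)
  rw [mul_inv_cancel, h.one] at h1
  exact (neg_eq_of_add_eq_zero_right h1.symm).symm

lemma Co.cj {H : Subgroup Γ} {f : Γ → A} (h : Co H f) {γ : Γ} (hγ : ∀ σ ∈ H, γ⁻¹ * σ * γ ∈ H) :
    Co H (cj γ f) := by
  intro σ hσ τ hτ
  have h1 : γ⁻¹ * (σ * τ) * γ = (γ⁻¹ * σ * γ) * (γ⁻¹ * τ * γ) := by group
  simp only [Inf.cj]
  rw [h1, h _ (hγ σ hσ) _ (hγ τ hτ), smul_add]
  congr 1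
  rw [← mul_smul, ← mul_smul]
  congr 1
  group

lemma cj_one (f : Γ → A) : cj 1 f = f := by
  funext σ; simp [cj]

lemma cj_mul (γ δ : Γ) (f : Γ → A) : cj (γ * δ) f = cj γ (cj δ f) := by
  funext σ
  simp only [cj, mul_smul, mul_inv_rev, mul_assoc]

lemma cj_add (γ : Γ) (f f' : Γ → A) : cj γ (fun σ => f σ + f' σ) = fun σ => cj γ f σ + cj γ f' σ := by
  funext σ; simp [cj]

lemma cj_sub (γ : Γ) (f f' : Γ → A) : cj γ (fun σ => f σ - f' σ) = fun σ => cj γ f σ - cj γ f' σ := by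
  funext σ; simp [cj, smul_sub]

lemma cj_cob (γ : Γ) (a : A) : cj γ (cob a) = cob (γ • a) := by
  funext σ
  simp only [cj, cob, smul_sub, ← mul_smul]
  congr 2
  group

/-- An element of `H` acts trivially on classes over `H`. -/
lemma Co.cj_self {H : Subgroup Γ} {f : Γ → A} (h : Co H f) {γ : Γ} (hγ : γ ∈ H) {σ : Γ}
    (hσ : σ ∈ H) : Inf.cj γ f σ = f σ + Inf.cob (f γ) σ := by
  have h1 : f (γ⁻¹ * σ * γ) = f γ⁻¹ + γ⁻¹ • (f σ + σ • f γ) := by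
    rw [mul_assoc, h _ (H.inv_mem hγ) _ (H.mul_mem hσ hγ), h σ hσ γ hγ]
  simp only [Inf.cj, Inf.cob]
  rw [h1, smul_add, h.inv hγ, ← mul_smul, mul_inv_cancel, one_smul]
  abel

section Uniq

variable {H G : Subgroup Γ}

/-- A cocycle which vanishes on `H` has values fixed by `H`. -/
lemma Co.eq_zero (hHG : H ≤ G) (hn : ∀ g ∈ G, ∀ h ∈ H, g⁻¹ * h * g ∈ H) {f : Γ → A} (hf : Co G f)
    (h0 : ∀ σ ∈ H, f σ = 0) {m : ℕ} (hm : ∀ a : A, m • a = 0 → (∀ σ ∈ H, σ • a = a) → a = 0)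
    (hfm : ∀ g ∈ G, m • f g = 0) : ∀ g ∈ G, f g = 0 := by
  intro g hg
  apply hm _ (hfm g hg)
  intro h hh
  have h1 := hf h (hHG hh) g hg
  have h2 : h * g = g * (g⁻¹ * h * g) := by group
  rw [h2, hf g hg _ (hHG (hn g hg h hh)), h0 _ (hn g hg h hh), smul_zero, add_zero, h0 h hh,
    zero_add] at h1
  exact h1.symm

/-- Cocycles on `G` which are cohomologous on `H` are cohomologous. -/
lemma Co.eqv_of_restrict (hHG : H ≤ G) (hn : ∀ g ∈ G, ∀ h ∈ H, g⁻¹ * h * g ∈ H) {f f' : Γ → A}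
    (hf : Co G f) (hf' : Co G f') {m : ℕ}
    (hm : ∀ a : A, m • a = 0 → (∀ σ ∈ H, σ • a = a) → a = 0) (hfm : ∀ g ∈ G, m • f g = 0)
    (hfm' : ∀ g ∈ G, m • f' g = 0) {a : A} (ha : m • a = 0)
    (h : ∀ σ ∈ H, f σ - f' σ = Inf.cob a σ) : ∀ σ ∈ G, f σ - f' σ = Inf.cob a σ := by
  have h1 : Co G (fun σ => (f σ - f' σ) - Inf.cob a σ) := (hf.sub hf').sub (Co.cob G a)
  have h2 := h1.eq_zero hHG hn (fun σ hσ => sub_eq_zero.mpr (h σ hσ)) hm (by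
    intro g hg
    rw [smul_sub, smul_sub, hfm g hg, hfm' g hg, ← cob_nsmul, ha, cob_zero, sub_zero, sub_zero])
  intro σ hσ
  exact sub_eq_zero.mp (h2 σ hσ)

/-- **Extension of invariant classes.** -/
theorem exists_ext (hHG : H ≤ G) (hn : ∀ g ∈ G, ∀ h ∈ H, g⁻¹ * h * g ∈ H) {m : ℕ}
    (hm : ∀ a : A, m • a = 0 → (∀ σ ∈ H, σ • a = a) → a = 0) {f : Γ → A} (hf : Co H f)
    (hfm : ∀ σ ∈ H, m • f σ = 0) (hinv : ∀ g ∈ G, Eqv m H (cj g f) f) :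
    ∃ f' : Γ → A, Co G f' ∧ (∀ σ ∈ H, f' σ = f σ) ∧ ∀ g ∈ G, m • f' g = 0 := by
  classical
  choose! e he1 he2 using hinv
  have huniq : ∀ a b : A, m • a = 0 → m • b = 0 → (∀ σ ∈ H, cob a σ = cob b σ) → a = b := by
    intro a b ha hb hab
    have h1 : m • (a - b) = 0 := by rw [smul_sub, ha, hb, sub_zero]
    apply sub_eq_zero.mp
    apply hm _ h1
    intro σ hσ
    have h2 := hab σ hσ
    simp only [cob] at h2
    rw [smul_sub]
    have h3 : σ • a - σ • b - (a - b) = (σ • a - a) - (σ • b - b) := by abel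
    apply sub_eq_zero.mp
    rw [h3, h2, sub_self]
  refine ⟨e, ?_, ?_, he1⟩
  · intro σ hσ τ hτ
    apply huniq _ _ (he1 _ (G.mul_mem hσ hτ))
    · rw [smul_add, he1 σ hσ, smul_comm, he1 τ hτ, smul_zero, add_zero]
    · intro h hh
      rw [← he2 _ (G.mul_mem hσ hτ) h hh, cj_mul, cob_add]
      have h1 : σ⁻¹ * h * σ ∈ H := hn σ hσ h hh
      have h2 := he2 τ hτ _ h1
      have h3 := he2 σ hσ h hh
      have h4 : cob (σ • e τ) h = σ • cob (e τ) (σ⁻¹ * h * σ) := by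
        rw [← cj_cob]; rfl
      rw [h4, ← h2, ← h3]
      simp only [cj, smul_sub]
      abel
  · intro σ hσ
    apply huniq _ _ (he1 σ (hHG hσ)) (hfm σ hσ)
    intro τ hτ
    rw [← he2 σ (hHG hσ) τ hτ, hf.cj_self hσ hτ]
    abel

end Uniq

/-- Smoothness is inherited by an extension to a group in which `H` is open. -/
lemma Sm.ext {H G : Subgroup Γ} {f f' : Γ → A} (h : Sm X H f) (hff : ∀ σ ∈ H, f' σ = f σ)
    (hop : ∃ T : Finset X, ∀ σ ∈ G, (∀ x ∈ T, σ • x = x) → σ ∈ H) : Sm X G f' := by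
  classical
  obtain ⟨T, hT⟩ := h
  obtain ⟨T', hT'⟩ := hop
  refine ⟨T ∪ T', fun σ hσ hx => ?_⟩
  have h1 : σ ∈ H := hT' σ hσ fun x hx' => hx x (Finset.mem_union_right _ hx')
  rw [hff σ h1]
  exact hT σ h1 fun x hx' => hx x (Finset.mem_union_left _ hx')

lemma Sm.mono {H G : Subgroup Γ} (hHG : H ≤ G) {f : Γ → A} (h : Sm X G f) : Sm X H f := by
  obtain ⟨T, hT⟩ := h
  exact ⟨T, fun σ hσ hx => hT σ (hHG hσ) hx⟩

lemma Sm.add {H : Subgroup Γ} {f f' : Γ → A} (h : Sm X H f) (h' : Sm X H f') :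
    Sm X H (fun σ => f σ + f' σ) := by
  classical
  obtain ⟨T, hT⟩ := h
  obtain ⟨T', hT'⟩ := h'
  refine ⟨T ∪ T', fun σ hσ hx => ?_⟩
  change f σ + f' σ = 0
  rw [hT σ hσ fun x hx' => hx x (Finset.mem_union_left _ hx'),
    hT' σ hσ fun x hx' => hx x (Finset.mem_union_right _ hx'), add_zero]

lemma Sm.neg {H : Subgroup Γ} {f : Γ → A} (h : Sm X H f) : Sm X H (fun σ => -f σ) := by
  obtain ⟨T, hT⟩ := h
  refine ⟨T, fun σ hσ hx => ?_⟩
  change -f σ = 0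
  rw [hT σ hσ hx, neg_zero]

lemma Sm.sub {H : Subgroup Γ} {f f' : Γ → A} (h : Sm X H f) (h' : Sm X H f') :
    Sm X H (fun σ => f σ - f' σ) := by
  simpa only [sub_eq_add_neg] using h.add h'.neg

lemma Sm.congr {H : Subgroup Γ} {f f' : Γ → A} (h : Sm X H f) (hff : ∀ σ ∈ H, f' σ = f σ) :
    Sm X H f' := by
  obtain ⟨T, hT⟩ := h
  exact ⟨T, fun σ hσ hx => by rw [hff σ hσ, hT σ hσ hx]⟩

lemma Sm.cj {H : Subgroup Γ} {f : Γ → A} (h : Sm X H f) {γ : Γ} (hγ : ∀ σ ∈ H, γ⁻¹ * σ * γ ∈ H) :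
    Sm X H (cj γ f) := by
  classical
  obtain ⟨T, hT⟩ := h
  refine ⟨T.image (fun x => γ • x), fun σ hσ hx => ?_⟩
  simp only [Inf.cj]
  rw [hT _ (hγ σ hσ), smul_zero]
  intro x hx'
  have h1 := hx (γ • x) (Finset.mem_image_of_mem _ hx')
  rw [mul_smul, mul_smul, h1, ← mul_smul, inv_mul_cancel, one_smul]

end Pool.Agent.Lib.MP_89bcae_ag.Inf
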