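import Mathlib
import Pool.Agent.Lib.MP_89bcae_ag.InfA8

/-!
# The group of classes of cocycles with values in the two-adic Tate module
-/

namespace Pool.Agent.Lib.MP_89bcae_ag.Inf

set_option linter.unusedSectionVars false

variable {Γ A X : Type*} [Group Γ] [AddCommGroup A] [DistribMulAction Γ A] [MulAction Γ X]

lemma Eqv.refl (m : ℕ) (H : Subgroup Γ) (f : Γ → A) : Eqv m H f f :=
  ⟨0, smul_zero _, fun σ _ => by rw [cob_zero, sub_self]⟩

lemma Eqv.of_eq {m : ℕ} {H : Subgroup Γ} {f f' : Γ → A} (h : ∀ σ ∈ H, f σ = f' σ) : Eqv m H f f' :=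
  ⟨0, smul_zero _, fun σ hσ => by rw [cob_zero, h σ hσ, sub_self]⟩

lemma Eqv.symm {m : ℕ} {H : Subgroup Γ} {f f' : Γ → A} (h : Eqv m H f f') : Eqv m H f' f := by
  obtain ⟨a, ha, h⟩ := h
  refine ⟨-a, by rw [smul_neg, ha, neg_zero], fun σ hσ => ?_⟩
  rw [cob_neg, ← h σ hσ]
  abel

lemma Eqv.trans {m : ℕ} {H : Subgroup Γ} {f f' f'' : Γ → A} (h : Eqv m H f f')
    (h' : Eqv m H f' f'') : Eqv m H f f'' := by
  obtain ⟨a, ha, h⟩ := h
  obtain ⟨a', ha', h'⟩ := h'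
  refine ⟨a + a', by rw [smul_add, ha, ha', add_zero], fun σ hσ => ?_⟩
  rw [cob_add, ← h σ hσ, ← h' σ hσ]
  abel

lemma Eqv.add {m : ℕ} {H : Subgroup Γ} {f f' g g' : Γ → A} (h : Eqv m H f f')
    (h' : Eqv m H g g') : Eqv m H (fun σ => f σ + g σ) (fun σ => f' σ + g' σ) := by
  obtain ⟨a, ha, h⟩ := h
  obtain ⟨a', ha', h'⟩ := h'
  refine ⟨a + a', by rw [smul_add, ha, ha', add_zero], fun σ hσ => ?_⟩
  rw [cob_add, ← h σ hσ, ← h' σ hσ]
  change f σ + g σ - (f' σ + g' σ) = _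
  abel

lemma Eqv.neg {m : ℕ} {H : Subgroup Γ} {f f' : Γ → A} (h : Eqv m H f f') :
    Eqv m H (fun σ => -f σ) (fun σ => -f' σ) := by
  obtain ⟨a, ha, h⟩ := h
  refine ⟨-a, by rw [smul_neg, ha, neg_zero], fun σ hσ => ?_⟩
  rw [cob_neg, ← h σ hσ]
  change -f σ - -f' σ = _
  abel

lemma Eqv.sub {m : ℕ} {H : Subgroup Γ} {f f' g g' : Γ → A} (h : Eqv m H f f')
    (h' : Eqv m H g g') : Eqv m H (fun σ => f σ - g σ) (fun σ => f' σ - g' σ) := by
  simpa only [sub_eq_add_neg] using h.add h'.neg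

lemma Eqv.mono {m : ℕ} {H G : Subgroup Γ} (hHG : H ≤ G) {f f' : Γ → A} (h : Eqv m G f f') :
    Eqv m H f f' := by
  obtain ⟨a, ha, h⟩ := h
  exact ⟨a, ha, fun σ hσ => h σ (hHG hσ)⟩

lemma Eqv.cj {m : ℕ} {H : Subgroup Γ} {f f' : Γ → A} (h : Eqv m H f f') {γ : Γ}
    (hγ : ∀ σ ∈ H, γ⁻¹ * σ * γ ∈ H) : Eqv m H (cj γ f) (cj γ f') := by
  obtain ⟨a, ha, h⟩ := h
  refine ⟨γ • a, by rw [smul_comm, ha, smul_zero], fun σ hσ => ?_⟩
  rw [← cj_cob]
  simp only [Inf.cj]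
  rw [← h _ (hγ σ hσ), smul_sub]

/-- A continuous cocycle on `H` with values in the two-adic Tate module. -/
structure TCo (X : Type*) [MulAction Γ X] (H : Subgroup Γ) (c : ℕ → Γ → A) : Prop where
  zero : ∀ σ ∈ H, c 0 σ = 0
  two : ∀ n, ∀ σ ∈ H, 2 • c (n + 1) σ = c n σ
  co : ∀ n, Co H (c n)
  sm : ∀ n, Sm X H (c n)

lemma TCo.tors {H : Subgroup Γ} {c : ℕ → Γ → A} (h : TCo X H c) (n : ℕ) :
    ∀ σ ∈ H, 2 ^ n • c n σ = 0 := by
  induction n with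
  | zero => intro σ hσ; rw [h.zero σ hσ, smul_zero]
  | succ n ih => intro σ hσ; rw [pow_succ, mul_smul, h.two n σ hσ, ih σ hσ]

lemma TCo.add {H : Subgroup Γ} {c c' : ℕ → Γ → A} (h : TCo X H c) (h' : TCo X H c') :
    TCo X H (c + c') where
  zero σ hσ := by
    change c 0 σ + c' 0 σ = 0
    rw [h.zero σ hσ, h'.zero σ hσ, add_zero]
  two n σ hσ := by
    change 2 • (c (n + 1) σ + c' (n + 1) σ) = c n σ + c' n σ
    rw [smul_add, h.two n σ hσ, h'.two n σ hσ]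
  co n := (h.co n).add (h'.co n)
  sm n := (h.sm n).add (h'.sm n)

lemma TCo.neg {H : Subgroup Γ} {c : ℕ → Γ → A} (h : TCo X H c) : TCo X H (-c) where
  zero σ hσ := by
    change -c 0 σ = 0
    rw [h.zero σ hσ, neg_zero]
  two n σ hσ := by
    change 2 • (-c (n + 1) σ) = -c n σ
    rw [smul_neg, h.two n σ hσ]
  co n := (h.co n).neg
  sm n := (h.sm n).neg

lemma TCo.cj {H : Subgroup Γ} {c : ℕ → Γ → A} (h : TCo X H c) {γ : Γ}
    (hγ : ∀ σ ∈ H, γ⁻¹ * σ * γ ∈ H) : TCo X H (fun n => cj γ (c n)) where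
  zero σ hσ := by
    simp only [Inf.cj]
    rw [h.zero _ (hγ σ hσ), smul_zero]
  two n σ hσ := by
    simp only [Inf.cj]
    rw [smul_comm, h.two n _ (hγ σ hσ)]
  co n := (h.co n).cj hγ
  sm n := (h.sm n).cj hγ

/-- The axioms for the local conditions. -/
structure LocAx (H : Subgroup Γ) (Loc : (Γ → A) → Prop) : Prop where
  congr : ∀ {f f' : Γ → A}, (∀ σ ∈ H, f' σ = f σ) → Loc f → Loc f'
  add : ∀ {f f' : Γ → A}, Loc f → Loc f' → Loc (fun σ => f σ + f' σ)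
  neg : ∀ {f : Γ → A}, Loc f → Loc (fun σ => -f σ)
  cob : ∀ q : A, Loc (cob q)
  cj : ∀ (γ : Γ) {f : Γ → A}, Loc f → Loc (cj γ f)

/-- The cocycles. -/
def Zg (X : Type*) [MulAction Γ X] (H : Subgroup Γ) {Loc : (Γ → A) → Prop} (hL : LocAx H Loc) :
    AddSubgroup (ℕ → Γ → A) where
  carrier := {c | TCo X H c ∧ ∀ n, Loc (c n)}
  zero_mem' := ⟨⟨fun _ _ => rfl, fun _ _ _ => smul_zero _, fun _ σ _ τ _ => by simp,
    fun _ => ⟨∅, fun _ _ _ => rfl⟩⟩, fun n => by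
      have h := hL.cob (0 : A)
      have e : (cob (0 : A) : Γ → A) = (0 : ℕ → Γ → A) n := by
        funext σ; exact cob_zero σ
      rw [← e]
      exact h⟩
  add_mem' := fun h h' => ⟨h.1.add h'.1, fun n => hL.add (h.2 n) (h'.2 n)⟩
  neg_mem' := fun h => ⟨h.1.neg, fun n => hL.neg (h.2 n)⟩

/-- The coboundaries. -/
def Bg (A : Type*) [AddCommGroup A] [DistribMulAction Γ A] (H : Subgroup Γ) :
    AddSubgroup (ℕ → Γ → A) where
  carrier := {c | ∀ n, Eqv (2 ^ n) H (c n) 0}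
  zero_mem' := fun n => Eqv.refl _ _ _
  add_mem' := fun h h' n => by
    have h1 := (h n).add (h' n)
    refine h1.trans (Eqv.of_eq fun σ _ => ?_)
    simp
  neg_mem' := fun h n => by
    have h1 := (h n).neg
    refine h1.trans (Eqv.of_eq fun σ _ => ?_)
    simp

section Q

variable {H : Subgroup Γ} [hN : H.Normal]

lemma conj_mem' (γ : Γ) : ∀ σ ∈ H, γ⁻¹ * σ * γ ∈ H := fun σ hσ => by
  have := hN.conj_mem σ hσ γ⁻¹
  rwa [inv_inv] at this

/-- The group of all functions modulo coboundaries. -/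
abbrev Q (A : Type*) [AddCommGroup A] [DistribMulAction Γ A] (H : Subgroup Γ) : Type _ :=
  (ℕ → Γ → A) ⧸ Bg A H

/-- Conjugation on the functions. -/
def cjF (A : Type*) [AddCommGroup A] [DistribMulAction Γ A] (γ : Γ) : (ℕ → Γ → A) →+ (ℕ → Γ → A) where
  toFun c := fun n => cj γ (c n)
  map_zero' := by funext n σ; simp [cj]
  map_add' c c' := by funext n σ; simp [cj]

/-- Conjugation on the classes. -/
def cjQ (A : Type*) [AddCommGroup A] [DistribMulAction Γ A] (H : Subgroup Γ) [H.Normal] (γ : Γ) :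
    Q A H →+ Q A H :=
  QuotientAddGroup.map (Bg A H) (Bg A H) (cjF A γ) (by
    intro c hc n
    refine ((hc n).cj (conj_mem' γ)).trans (Eqv.of_eq fun σ _ => ?_)
    simp [cj])

lemma cjQ_mk (γ : Γ) (c : ℕ → Γ → A) :
    cjQ A H γ (QuotientAddGroup.mk c) = QuotientAddGroup.mk (fun n => cj γ (c n)) := rfl

lemma cjQ_mul (γ δ : Γ) (x : Q A H) : cjQ A H (γ * δ) x = cjQ A H γ (cjQ A H δ x) := by
  induction x using QuotientAddGroup.induction_on with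
  | H c =>
    rw [cjQ_mk, cjQ_mk, cjQ_mk]
    congr 1
    funext n
    exact cj_mul γ δ (c n)

lemma cjQ_one (x : Q A H) : cjQ A H 1 x = x := by
  induction x using QuotientAddGroup.induction_on with
  | H c =>
    rw [cjQ_mk]
    congr 1
    funext n
    exact cj_one (c n)

lemma mk_eq_iff {c c' : ℕ → Γ → A} :
    (QuotientAddGroup.mk c : Q A H) = QuotientAddGroup.mk c' ↔ ∀ n, Eqv (2 ^ n) H (c n) (c' n) := by
  rw [eq_comm, QuotientAddGroup.eq]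
  constructor
  · intro h n
    obtain ⟨a, ha, h1⟩ := h n
    refine ⟨a, ha, fun σ hσ => ?_⟩
    rw [← h1 σ hσ]
    simp only [Pi.add_apply, Pi.neg_apply, Pi.zero_apply, sub_zero]
    abel
  · intro h n
    obtain ⟨a, ha, h1⟩ := h n
    refine ⟨a, ha, fun σ hσ => ?_⟩
    rw [← h1 σ hσ]
    simp only [Pi.add_apply, Pi.neg_apply, Pi.zero_apply, sub_zero]
    abel

variable {Loc : (Γ → A) → Prop} (hL : LocAx H Loc)

/-- The Selmer classes. -/
def ZQ (X : Type*) [MulAction Γ X] {Loc : (Γ → A) → Prop} (hL : LocAx H Loc) :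
    AddSubgroup (Q A H) := (Zg X H hL).map (QuotientAddGroup.mk' (Bg A H))

lemma mem_ZQ {x : Q A H} : x ∈ ZQ X hL ↔ ∃ c ∈ Zg X H hL, QuotientAddGroup.mk c = x := Iff.rfl

lemma cjQ_mem (γ : Γ) {x : Q A H} (hx : x ∈ ZQ X hL) : cjQ A H γ x ∈ ZQ X hL := by
  obtain ⟨c, hc, rfl⟩ := (mem_ZQ hL).mp hx
  exact (mem_ZQ hL).mpr ⟨fun n => cj γ (c n), ⟨hc.1.cj (conj_mem' γ), fun n => hL.cj γ (hc.2 n)⟩, rfl⟩

/-- `H` acts trivially. -/
lemma cjQ_of_mem {γ : Γ} (hγ : γ ∈ H) {x : Q A H} (hx : x ∈ ZQ X hL) : cjQ A H γ x = x := by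
  obtain ⟨c, hc, rfl⟩ := (mem_ZQ hL).mp hx
  rw [cjQ_mk, mk_eq_iff]
  intro n
  exact ⟨c n γ, hc.1.tors n γ hγ, fun σ hσ => by rw [(hc.1.co n).cj_self hγ hσ]; abel⟩

variable (hA : ∀ a : A, 2 • a = 0 → (∀ σ ∈ H, σ • a = a) → a = 0)

include hA in
lemma inv_zero (n : ℕ) : ∀ a : A, 2 ^ n • a = 0 → (∀ σ ∈ H, σ • a = a) → a = 0 := by
  induction n with
  | zero => intro a ha _; simpa using ha
  | succ n ih =>
    intro a ha hinv
    apply hA a _ hinv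
    apply ih
    · rw [← mul_smul, ← pow_succ]; exact ha
    · intro σ hσ
      rw [smul_comm, hinv σ hσ]

include hA in
/-- No torsion. -/
lemma ZQ_torsion {x : Q A H} (hx : x ∈ ZQ X hL) (h2 : 2 • x = 0) : x = 0 := by
  obtain ⟨c, hc, rfl⟩ := (mem_ZQ hL).mp hx
  rw [← QuotientAddGroup.mk_nsmul, ← QuotientAddGroup.mk_zero, mk_eq_iff] at h2
  rw [← QuotientAddGroup.mk_zero, mk_eq_iff]
  intro n
  obtain ⟨a, ha, h1⟩ := h2 (n + 1)
  have h3 : ∀ σ ∈ H, c n σ = cob a σ := by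
    intro σ hσ
    rw [← h1 σ hσ, ← hc.1.two n σ hσ]
    simp
  refine ⟨a, ?_, fun σ hσ => ?_⟩
  · apply hA _ _ _
    · rw [← mul_smul, ← pow_succ']; exact ha
    · intro σ hσ
      have h4 := hc.1.tors n σ hσ
      rw [h3 σ hσ, ← cob_nsmul] at h4
      exact sub_eq_zero.mp h4
  · rw [← h3 σ hσ]
    simp

/-- `f` represents `x` modulo two. -/
def Rep (X : Type*) [MulAction Γ X] {H : Subgroup Γ} {Loc : (Γ → A) → Prop} (hL : LocAx H Loc)
    (x : Q A H) (f : Γ → A) : Prop :=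
  ∃ c ∈ Zg X H hL, (QuotientAddGroup.mk c : Q A H) = x ∧ Eqv 2 H f (c 1)

lemma exists_rep {x : Q A H} (hx : x ∈ ZQ X hL) : ∃ f : Γ → A, Rep X hL x f ∧ Co H f ∧
    (∀ σ ∈ H, 2 • f σ = 0) ∧ Sm X H f ∧ Loc f := by
  obtain ⟨c, hc, rfl⟩ := (mem_ZQ hL).mp hx
  exact ⟨c 1, ⟨c, hc, rfl, Eqv.refl _ _ _⟩, hc.1.co 1, fun σ hσ => by simpa using hc.1.tors 1 σ hσ,
    hc.1.sm 1, hc.2 1⟩

lemma Rep.mem {x : Q A H} {f : Γ → A} (h : Rep X hL x f) : x ∈ ZQ X hL := by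
  obtain ⟨c, hc, rfl, -⟩ := h
  exact (mem_ZQ hL).mpr ⟨c, hc, rfl⟩

lemma Rep.add {x y : Q A H} {f g : Γ → A} (h : Rep X hL x f) (h' : Rep X hL y g) :
    Rep X hL (x + y) (fun σ => f σ + g σ) := by
  obtain ⟨c, hc, rfl, h1⟩ := h
  obtain ⟨c', hc', rfl, h1'⟩ := h'
  exact ⟨c + c', (Zg X H hL).add_mem hc hc', rfl, h1.add h1'⟩

lemma Rep.neg {x : Q A H} {f : Γ → A} (h : Rep X hL x f) :
    Rep X hL (-x) (fun σ => -f σ) := by
  obtain ⟨c, hc, rfl, h1⟩ := h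
  exact ⟨-c, (Zg X H hL).neg_mem hc, rfl, h1.neg⟩

lemma Rep.sub {x y : Q A H} {f g : Γ → A} (h : Rep X hL x f) (h' : Rep X hL y g) :
    Rep X hL (x - y) (fun σ => f σ - g σ) := by
  simpa only [sub_eq_add_neg] using h.add hL (h'.neg hL)

lemma Rep.cj {x : Q A H} {f : Γ → A} (h : Rep X hL x f) (γ : Γ) :
    Rep X hL (cjQ A H γ x) (cj γ f) := by
  obtain ⟨c, hc, rfl, h1⟩ := h
  exact ⟨fun n => Inf.cj γ (c n), ⟨hc.1.cj (conj_mem' γ), fun n => hL.cj γ (hc.2 n)⟩, rfl,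
    h1.cj (conj_mem' γ)⟩

lemma Rep.eqv {x : Q A H} {f f' : Γ → A} (h : Rep X hL x f) (h' : Rep X hL x f') :
    Eqv 2 H f f' := by
  obtain ⟨c, hc, hx, h1⟩ := h
  obtain ⟨c', hc', hx', h1'⟩ := h'
  have h3 := (mk_eq_iff.mp (hx.trans hx'.symm)) 1
  rw [pow_one] at h3
  exact h1.trans (h3.trans h1'.symm)

lemma Rep.congr {x : Q A H} {f f' : Γ → A} (h : Rep X hL x f) (h' : Eqv 2 H f' f) :
    Rep X hL x f' := by
  obtain ⟨c, hc, hx, h1⟩ := h
  exact ⟨c, hc, hx, h'.trans h1⟩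

/-- A class divisible by two. -/
lemma rep_two {y : Q A H} (hy : y ∈ ZQ X hL) : Rep X hL (2 • y) 0 := by
  obtain ⟨c, hc, rfl⟩ := (mem_ZQ hL).mp hy
  refine ⟨2 • c, (Zg X H hL).nsmul_mem hc 2, rfl, Eqv.of_eq fun σ hσ => ?_⟩
  have h1 := hc.1.tors 1 σ hσ
  rw [pow_one] at h1
  simp only [Pi.zero_apply, Pi.smul_apply]
  exact h1.symm

/-- A class which vanishes modulo two is divisible by two. -/
lemma Rep.exists_half (hdiv : ∀ P : A, ∃ Q, Q + Q = P) (hsm : ∀ a : A, Sm X H (cob a : Γ → A))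
    {x : Q A H} (h : Rep X hL x 0) : ∃ y ∈ ZQ X hL, x = 2 • y := by
  obtain ⟨c, hc, rfl, h1⟩ := h
  obtain ⟨a, ha, h1⟩ := h1.symm
  -- a sequence of halves
  choose half hhalf using hdiv
  let q : ℕ → A := fun n => Nat.casesOn n 0 (fun m => half^[m] a)
  have hq0 : q 0 = 0 := rfl
  have hq1 : q 1 = a := rfl
  have hq : ∀ n, q (n + 1) + q (n + 1) = q n := by
    intro n
    cases n with
    | zero => change a + a = 0; rw [← two_nsmul]; exact ha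
    | succ m =>
      change half^[m + 1] a + half^[m + 1] a = half^[m] a
      rw [Function.iterate_succ_apply']
      exact hhalf _
  have hqn : ∀ n, 2 ^ n • q n = 0 := by
    intro n
    induction n with
    | zero => rw [hq0, smul_zero]
    | succ m ih => rw [pow_succ, mul_smul, two_nsmul, hq, ih]
  let d : ℕ → Γ → A := fun n σ => c (n + 1) σ - cob (q (n + 1)) σ
  have hd : d ∈ Zg X H hL := by
    refine ⟨⟨?_, ?_, ?_, ?_⟩, ?_⟩
    · intro σ hσ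
      have h3 := h1 σ hσ
      simp only [Pi.zero_apply, sub_zero] at h3
      change c (0 + 1) σ - cob (q (0 + 1)) σ = 0
      rw [zero_add, h3, hq1, sub_self]
    · intro n σ hσ
      change 2 • (c (n + 1 + 1) σ - cob (q (n + 1 + 1)) σ) = c (n + 1) σ - cob (q (n + 1)) σ
      rw [smul_sub, hc.1.two (n + 1) σ hσ, ← cob_nsmul, two_nsmul, hq]
    · intro n
      exact (hc.1.co (n + 1)).sub (Co.cob H _)
    · intro n
      exact (hc.1.sm (n + 1)).sub (hsm _)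
    · intro n
      have h3 := hL.add (hc.2 (n + 1)) (hL.neg (hL.cob (q (n + 1))))
      refine hL.congr (fun σ _ => ?_) h3
      change c (n + 1) σ - cob (q (n + 1)) σ = _
      rw [sub_eq_add_neg]
  refine ⟨QuotientAddGroup.mk d, (mem_ZQ hL).mpr ⟨d, hd, rfl⟩, ?_⟩
  rw [← QuotientAddGroup.mk_nsmul, mk_eq_iff]
  intro n
  refine ⟨q n, hqn n, fun σ hσ => ?_⟩
  change c n σ - 2 • (c (n + 1) σ - cob (q (n + 1)) σ) = cob (q n) σ
  rw [smul_sub, hc.1.two n σ hσ, ← cob_nsmul, two_nsmul, hq]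
  abel

/-- The classes are separated. -/
lemma ZQ_separated {x : Q A H} (h : ∀ n, ∃ y ∈ ZQ X hL, x = 2 ^ n • y) : x = 0 := by
  have hx : x ∈ ZQ X hL := by
    obtain ⟨y, hy, rfl⟩ := h 0
    exact (ZQ X hL).nsmul_mem hy _
  obtain ⟨c, hc, rfl⟩ := (mem_ZQ hL).mp hx
  rw [← QuotientAddGroup.mk_zero, mk_eq_iff]
  intro n
  obtain ⟨y, hy, h1⟩ := h n
  obtain ⟨d, hd, rfl⟩ := (mem_ZQ hL).mp hy
  rw [← QuotientAddGroup.mk_nsmul, mk_eq_iff] at h1
  refine (h1 n).trans (Eqv.of_eq fun σ hσ => ?_)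
  exact hd.1.tors n σ hσ

end Q

end Pool.Agent.Lib.MP_89bcae_ag.Inf
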