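import Mathlib
import Pool.Agent.Lib.MP_89bcae_ag.InfB8

/-!
# One layer of the tower: the group of Tate classes
-/

namespace Pool.Agent.Lib.MP_89bcae_ag.Inf

set_option linter.unusedSectionVars false

variable {Γ A X : Type*} [Group Γ] [AddCommGroup A] [DistribMulAction Γ A] [MulAction Γ X]

section Ext

variable {H G : Subgroup Γ} [hN : H.Normal] {Loc : (Γ → A) → Prop} {hL : LocAx H Loc}

/-- Extension of an invariant class with values in the Tate module. -/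
theorem exists_extT (hHG : H ≤ G) (hA : ∀ a : A, 2 • a = 0 → (∀ σ ∈ H, σ • a = a) → a = 0)
    (hop : ∃ T : Finset X, ∀ σ ∈ G, (∀ x ∈ T, σ • x = x) → σ ∈ H) {d : ℕ → Γ → A}
    (hd : d ∈ Zg X H hL)
    (hinv : ∀ g ∈ G, cjQ A H g (QuotientAddGroup.mk d) = QuotientAddGroup.mk d) :
    ∃ d' : ℕ → Γ → A, TCo X G d' ∧ ∀ n, ∀ σ ∈ H, d' n σ = d n σ := by
  have hn : ∀ g ∈ G, ∀ h ∈ H, g⁻¹ * h * g ∈ H := fun g _ => conj_mem' g
  have h1 : ∀ n, ∃ f' : Γ → A, Co G f' ∧ (∀ σ ∈ H, f' σ = d n σ) ∧ ∀ g ∈ G, 2 ^ n • f' g = 0 := by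
    intro n
    apply exists_ext hHG hn (inv_zero hA n) (hd.1.co n) (hd.1.tors n)
    intro g hg
    have h2 := hinv g hg
    rw [cjQ_mk, mk_eq_iff] at h2
    exact h2 n
  choose d' hd1 hd2 hd3 using h1
  refine ⟨d', ⟨?_, ?_, hd1, ?_⟩, hd2⟩
  · intro σ hσ
    simpa using hd3 0 σ hσ
  · intro n
    have h2 : Co G (fun σ => 2 • d' (n + 1) σ - d' n σ) := ((hd1 (n + 1)).nsmul 2).sub (hd1 n)
    have h3 := h2.eq_zero hHG hn (fun σ hσ => by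
      rw [hd2 _ σ hσ, hd2 _ σ hσ, hd.1.two n σ hσ, sub_self]) (inv_zero hA n) (by
      intro g hg
      rw [smul_sub, hd3 n g hg, ← mul_smul, ← pow_succ, hd3 (n + 1) g hg, sub_zero])
    intro σ hσ
    exact sub_eq_zero.mp (h3 σ hσ)
  · intro n
    exact (hd.1.sm n).ext (hd2 n) hop

end Ext

/-- The subgroups and automorphisms of one layer of the tower. -/
structure Tw (X : Type*) [MulAction Γ X] (H H' H1 G : Subgroup Γ) (τ φ : Γ) (k q : ℕ) : Prop where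
  le' : H ≤ H'
  le1 : H' ≤ H1
  leG : H1 ≤ G
  memG : τ ∈ G
  mem' : τ ^ (2 ^ k) ∈ H'
  mem : τ ^ (2 ^ (k + 1)) ∈ H
  genG : ∀ g ∈ G, ∃ i : ℕ, (τ ^ i)⁻¹ * g ∈ H
  gen1 : ∀ g ∈ H1, ∃ i : ℕ, (τ ^ (2 * i))⁻¹ * g ∈ H
  gen' : ∀ g ∈ H', g ∈ H ∨ (τ ^ (2 ^ k))⁻¹ * g ∈ H
  rel : φ * τ * φ⁻¹ * (τ ^ q)⁻¹ ∈ H
  odd : Odd q
  opn : ∃ T : Finset X, ∀ σ ∈ G, (∀ x ∈ T, σ • x = x) → σ ∈ H

section W

variable {H H' H1 G : Subgroup Γ} [H.Normal] [H'.Normal] {τ φ : Γ} {k q : ℕ}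
  {Loc Loc' : (Γ → A) → Prop} {hL : LocAx H Loc} {hL' : LocAx H' Loc'}

lemma cjQ_pow (γ : Γ) (n : ℕ) (x : Q A H) : cjQ A H (γ ^ n) x = (cjQ A H γ)^[n] x := by
  induction n generalizing x with
  | zero => rw [pow_zero, cjQ_one]; rfl
  | succ n ih => rw [pow_succ, cjQ_mul, ih, Function.iterate_succ_apply]

/-- Elements congruent modulo `H` act in the same way. -/
lemma cjQ_congr {γ δ : Γ} (h : γ * δ⁻¹ ∈ H) {x : Q A H} (hx : x ∈ ZQ X hL) :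
    cjQ A H γ x = cjQ A H δ x := by
  have h1 : γ = (γ * δ⁻¹) * δ := by group
  rw [h1, cjQ_mul]
  exact cjQ_of_mem hL h (cjQ_mem hL δ hx)

lemma Tw.tau_period (hT : Tw X H H' H1 G τ φ k q) {a b : ℕ} (h : a ≡ b [MOD 2 ^ (k + 1)])
    {x : Q A H} (hx : x ∈ ZQ X hL) : cjQ A H (τ ^ a) x = cjQ A H (τ ^ b) x := by
  wlog hab : a ≤ b generalizing a b
  · exact (this h.symm (by omega)).symm
  obtain ⟨c, hc⟩ := (Nat.modEq_iff_dvd' hab).mp h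
  have h1 : b = a + 2 ^ (k + 1) * c := by omega
  rw [h1, pow_add, cjQ_mul]
  congr 1
  symm
  apply cjQ_of_mem hL _ hx
  rw [pow_mul]
  exact H.pow_mem hT.mem c

/-- The relation between `φ` and `τ`. -/
lemma Tw.phi_tau (hT : Tw X H H' H1 G τ φ k q) {x : Q A H} (hx : x ∈ ZQ X hL) :
    cjQ A H φ (cjQ A H τ x) = cjQ A H (τ ^ q) (cjQ A H φ x) := by
  rw [← cjQ_mul, ← cjQ_mul]
  apply cjQ_congr (hL := hL) _ hx
  have : φ * τ * (τ ^ q * φ)⁻¹ = φ * τ * φ⁻¹ * (τ ^ q)⁻¹ := by group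
  rw [this]
  exact hT.rel

lemma Tw.phi_tau_pow (hT : Tw X H H' H1 G τ φ k q) (i : ℕ) {x : Q A H} (hx : x ∈ ZQ X hL) :
    cjQ A H φ (cjQ A H (τ ^ i) x) = cjQ A H (τ ^ (q * i)) (cjQ A H φ x) := by
  induction i with
  | zero => rw [mul_zero, pow_zero, cjQ_one, cjQ_one]
  | succ i ih =>
    rw [pow_succ', cjQ_mul, hT.phi_tau (cjQ_mem hL _ hx), ih, ← cjQ_mul, ← pow_add,
      show q + q * i = q * (i + 1) by ring]

lemma Tw.phi_pow_tau_pow (hT : Tw X H H' H1 G τ φ k q) (m i : ℕ) {x : Q A H} (hx : x ∈ ZQ X hL) :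
    cjQ A H (φ ^ m) (cjQ A H (τ ^ i) x) = cjQ A H (τ ^ (q ^ m * i)) (cjQ A H (φ ^ m) x) := by
  induction m with
  | zero => rw [pow_zero, pow_zero, one_mul, cjQ_one, cjQ_one]
  | succ m ih =>
    rw [pow_succ' φ, cjQ_mul, ih, hT.phi_tau_pow _ (cjQ_mem hL _ hx), ← cjQ_mul φ,
      show q * (q ^ m * i) = q ^ (m + 1) * i by ring]

variable (hL) in
/-- The classes fixed by a power of `φ`. -/
def Wg (X : Type*) [MulAction Γ X] (hL : LocAx H Loc) (φ : Γ) : AddSubgroup (Q A H) where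
  carrier := {x | x ∈ ZQ X hL ∧ ∃ M : ℕ, 0 < M ∧ cjQ A H (φ ^ M) x = x}
  zero_mem' := ⟨(ZQ X hL).zero_mem, 1, one_pos, map_zero _⟩
  add_mem' := by
    rintro x y ⟨hx, M, hM, h1⟩ ⟨hy, N, hN, h2⟩
    refine ⟨(ZQ X hL).add_mem hx hy, M * N, Nat.mul_pos hM hN, ?_⟩
    have h3 : cjQ A H (φ ^ (M * N)) x = x := by
      rw [pow_mul, cjQ_pow]
      exact Function.iterate_fixed h1 N
    have h4 : cjQ A H (φ ^ (M * N)) y = y := by
      rw [mul_comm, pow_mul, cjQ_pow]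
      exact Function.iterate_fixed h2 M
    rw [map_add, h3, h4]
  neg_mem' := by
    rintro x ⟨hx, M, hM, h1⟩
    exact ⟨(ZQ X hL).neg_mem hx, M, hM, by rw [map_neg, h1]⟩

lemma Wg.fix_mul {x : Q A H} {M : ℕ} (h1 : cjQ A H (φ ^ M) x = x) (N : ℕ) :
    cjQ A H (φ ^ (M * N)) x = x := by
  rw [pow_mul, cjQ_pow]
  exact Function.iterate_fixed h1 N

lemma Wg.phi {x : Q A H} (hx : x ∈ Wg X hL φ) : cjQ A H φ x ∈ Wg X hL φ := by
  obtain ⟨hx, M, hM, h1⟩ := hx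
  refine ⟨cjQ_mem hL _ hx, M, hM, ?_⟩
  rw [← cjQ_mul, ← pow_succ, pow_succ', cjQ_mul, h1]

lemma exists_pow_modEq_one {q k : ℕ} (hq : Odd q) : ∃ N : ℕ, 0 < N ∧ ∀ m, q ^ (N * m) ≡ 1 [MOD 2 ^ k] := by
  have hc : Nat.Coprime q (2 ^ k) := Nat.Coprime.pow_right k (Nat.coprime_two_right.mpr hq)
  refine ⟨Nat.totient (2 ^ k), Nat.totient_pos.mpr (by positivity), fun m => ?_⟩
  rw [pow_mul]
  have := (Nat.ModEq.pow_totient hc).pow m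
  rwa [one_pow] at this

lemma Wg.tau (hT : Tw X H H' H1 G τ φ k q) {x : Q A H} (hx : x ∈ Wg X hL φ) (i : ℕ) :
    cjQ A H (τ ^ i) x ∈ Wg X hL φ := by
  obtain ⟨hx, M, hM, h1⟩ := hx
  obtain ⟨N, hN, hN1⟩ := exists_pow_modEq_one (k := k + 1) hT.odd
  refine ⟨cjQ_mem hL _ hx, M * N, Nat.mul_pos hM hN, ?_⟩
  rw [hT.phi_pow_tau_pow _ _ hx, Wg.fix_mul h1]
  apply hT.tau_period _ hx
  have := (hN1 M).mul_right i
  rwa [one_mul, mul_comm N M] at this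

/-- A half of a Tate class is a Tate class. -/
lemma Wg.half (hA : ∀ a : A, 2 • a = 0 → (∀ σ ∈ H, σ • a = a) → a = 0) {x y : Q A H}
    (hx : x ∈ Wg X hL φ) (hy : y ∈ ZQ X hL) (hxy : x = 2 • y) : y ∈ Wg X hL φ := by
  obtain ⟨hx, M, hM, h1⟩ := hx
  refine ⟨hy, M, hM, ?_⟩
  have h2 : 2 • (cjQ A H (φ ^ M) y - y) = 0 := by
    rw [nsmul_sub, ← map_nsmul, ← hxy, h1, sub_self]
  exact sub_eq_zero.mp (ZQ_torsion hL hA ((ZQ X hL).sub_mem (cjQ_mem hL _ hy) hy) h2)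

/-- The trace to the previous layer vanishes. -/
theorem Tw.trace (hT : Tw X H H' H1 G τ φ k q)
    (hA : ∀ a : A, 2 • a = 0 → (∀ σ ∈ H, σ • a = a) → a = 0)
    (hLoc : ∀ d : ℕ → Γ → A, TCo X H' d → (∀ n, Loc (d n)) → ∀ n, Loc' (d n))
    (hW' : ∀ y ∈ Wg X hL' φ, y = 0) {x : Q A H} (hx : x ∈ Wg X hL φ) :
    x + cjQ A H (τ ^ (2 ^ k)) x = 0 := by
  obtain ⟨hx, M, hM, h1⟩ := hx
  set y := x + cjQ A H (τ ^ (2 ^ k)) x with hy
  have hyZ : y ∈ ZQ X hL := (ZQ X hL).add_mem hx (cjQ_mem hL _ hx)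
  have htwo : τ ^ (2 ^ k) * τ ^ (2 ^ k) = τ ^ (2 ^ (k + 1)) := by
    rw [← pow_add, pow_succ, mul_two]
  have hτy : cjQ A H (τ ^ (2 ^ k)) y = y := by
    rw [hy, map_add, ← cjQ_mul, htwo, cjQ_of_mem hL hT.mem hx, add_comm]
  have hφy : cjQ A H (φ ^ M) y = y := by
    rw [hy, map_add, h1, hT.phi_pow_tau_pow _ _ hx, h1]
    congr 1
    apply hT.tau_period _ hx
    obtain ⟨m, hm⟩ := hT.odd.pow (n := M)
    rw [hm]
    have h3 : (2 * m + 1) * 2 ^ k = 2 ^ k + 2 ^ (k + 1) * m := by ring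
    rw [h3]
    exact (Nat.modEq_iff_dvd' (by omega)).mpr ⟨m, by omega⟩ |>.symm
  obtain ⟨d, hd, hdy⟩ := (mem_ZQ hL).mp hyZ
  obtain ⟨d', hd'1, hd'2⟩ := exists_extT (X := X) (hL := hL) hT.le' hA (by
    obtain ⟨T, hTT⟩ := hT.opn
    exact ⟨T, fun σ hσ hx => hTT σ (hT.leG (hT.le1 hσ)) hx⟩) hd (by
    intro g hg
    rw [hdy]
    rcases hT.gen' g hg with h2 | h2
    · exact cjQ_of_mem hL h2 hyZ
    · have h3 : g = τ ^ (2 ^ k) * ((τ ^ (2 ^ k))⁻¹ * g) := by group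
      rw [h3, cjQ_mul, cjQ_of_mem hL h2 hyZ, hτy])
  have hL2 : ∀ n, Loc' (d' n) := by
    apply hLoc d' hd'1
    intro n
    exact hL.congr (fun σ hσ => hd'2 n σ hσ) (hd.2 n)
  have hZ' : d' ∈ Zg X H' hL' := ⟨hd'1, hL2⟩
  -- the extension is fixed by the power of `φ`
  have hfix : cjQ A H' (φ ^ M) (QuotientAddGroup.mk d') = QuotientAddGroup.mk d' := by
    rw [cjQ_mk, mk_eq_iff]
    intro n
    rw [← hdy, cjQ_mk, mk_eq_iff] at hφy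
    obtain ⟨a, ha, h3⟩ := hφy n
    have h4 : ∀ σ ∈ H, cj (φ ^ M) (d' n) σ - d' n σ = cob a σ := by
      intro σ hσ
      rw [← h3 σ hσ]
      simp only [cj]
      rw [hd'2 n _ (conj_mem' _ σ hσ), hd'2 n σ hσ]
    refine ⟨a, ha, ?_⟩
    apply Co.eqv_of_restrict hT.le' (fun g _ => conj_mem' g) ((hd'1.co n).cj (conj_mem' _))
      (hd'1.co n) (inv_zero hA n) _ (hd'1.tors n) ha h4
    intro g hg
    simp only [cj]
    rw [smul_comm, hd'1.tors n _ (conj_mem' _ g hg), smul_zero]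
  have h5 := hW' (QuotientAddGroup.mk d') ⟨(mem_ZQ hL').mpr ⟨d', hZ', rfl⟩, M, hM, hfix⟩
  rw [← hdy, ← QuotientAddGroup.mk_zero, mk_eq_iff]
  rw [← QuotientAddGroup.mk_zero, mk_eq_iff] at h5
  intro n
  obtain ⟨a, ha, h6⟩ := h5 n
  refine ⟨a, ha, fun σ hσ => ?_⟩
  rw [← h6 σ (hT.le' hσ), hd'2 n σ hσ]

end W

end Pool.Agent.Lib.MP_89bcae_ag.Inf
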