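import Mathlib
import Pool.Agent.Lib.MP_89bcae_ag.InfC8
import Pool.Agent.Lib.MP_89bcae_ag.Grad8

/-!
# One layer of the tower: the map to the divisors
-/

namespace Pool.Agent.Lib.MP_89bcae_ag.Inf

set_option linter.unusedSectionVars false

open PoolMP89Grad8

variable {Γ A X : Type*} [Group Γ] [AddCommGroup A] [DistribMulAction Γ A] [MulAction Γ X]

/-- The cocycles on `G` with values in the points of order two which satisfy the local
conditions. -/
structure Adm (X : Type*) [MulAction Γ X] (G : Subgroup Γ) (Loc : (Γ → A) → Prop) (z : Γ → A) :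
    Prop where
  co : Co G z
  two : ∀ g ∈ G, 2 • z g = 0
  sm : Sm X G z
  loc : Loc z

/-- The axioms for the divisor of a cocycle. -/
structure DvAx (X : Type*) [MulAction Γ X] (G : Subgroup Γ) (Loc : (Γ → A) → Prop) (φ : Γ)
    {M : Type*} [AddCommGroup M] (S : M →+ M) (dv : (Γ → A) → M) : Prop where
  add : ∀ {z z' : Γ → A}, Adm X G Loc z → Adm X G Loc z' →
    dv (fun σ => z σ + z' σ) = dv z + dv z'
  zero_iff : ∀ {z : Γ → A}, Adm X G Loc z → (dv z = 0 ↔ Eqv 2 G z 0)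
  cj : ∀ {z : Γ → A}, Adm X G Loc z → dv (cj φ z) = S (dv z)

section

variable {H H' H1 G : Subgroup Γ} [H.Normal] [H'.Normal] [H1.Normal] [G.Normal] {τ φ : Γ}
  {k q : ℕ} {Loc : (Γ → A) → Prop} {hL : LocAx H Loc}

/-- Extension of a class modulo two. -/
theorem exists_ext2 {K : Subgroup Γ} (hHK : H ≤ K)
    (hA : ∀ a : A, 2 • a = 0 → (∀ σ ∈ H, σ • a = a) → a = 0)
    (hop : ∃ T : Finset X, ∀ σ ∈ K, (∀ x ∈ T, σ • x = x) → σ ∈ H) {y : Q A H} (hy : y ∈ ZQ X hL)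
    (hinv : ∀ g ∈ K, ∃ w ∈ ZQ X hL, cjQ A H g y - y = 2 • w) :
    ∃ z : Γ → A, Adm X K Loc z ∧ Rep X hL y z := by
  obtain ⟨f, hf, hco, h2, hsm, hloc⟩ := exists_rep hL hy
  obtain ⟨z, hz1, hz2, hz3⟩ := exists_ext (m := 2) hHK (fun g _ => conj_mem' g)
    (by simpa using inv_zero hA 1) hco h2 (by
      intro g hg
      obtain ⟨w, hw, h3⟩ := hinv g hg
      have h4 := (hf.cj hL g).sub hL hf
      rw [h3] at h4
      obtain ⟨a, ha, h5⟩ := h4.eqv hL (rep_two hL hw)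
      exact ⟨a, ha, fun σ hσ => by rw [← h5 σ hσ]; simp⟩)
  exact ⟨z, ⟨hz1, hz3, hsm.ext hz2 hop, hL.congr hz2 hloc⟩, hf.congr hL (Eqv.of_eq hz2)⟩

/-- Uniqueness of the extension. -/
theorem Rep.eqv_ext {K : Subgroup Γ} [K.Normal] (hHK : H ≤ K)
    (hA : ∀ a : A, 2 • a = 0 → (∀ σ ∈ H, σ • a = a) → a = 0) {y : Q A H} {z z' : Γ → A}
    (hz : Co K z) (hz2 : ∀ g ∈ K, 2 • z g = 0) (hz' : Co K z') (hz2' : ∀ g ∈ K, 2 • z' g = 0)
    (h : Rep X hL y z) (h' : Rep X hL y z') : Eqv 2 K z z' := by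
  obtain ⟨a, ha, h1⟩ := h.eqv hL h'
  exact ⟨a, ha, Co.eqv_of_restrict hHK (fun g _ => conj_mem' g) hz hz' (by simpa using inv_zero hA 1)
    hz2 hz2' ha h1⟩

lemma DvAx.congr {M : Type*} [AddCommGroup M] {S : M →+ M} {dv : (Γ → A) → M}
    (hD : DvAx X G Loc φ S dv) (hM : ∀ m : M, m + m = 0) (hL : LocAx H Loc) {z z' : Γ → A}
    (hz : Adm X G Loc z) (hz' : Adm X G Loc z') (h : Eqv 2 G z z') : dv z = dv z' := by
  have h1 : Adm X G Loc (fun σ => z σ + z' σ) := ⟨hz.co.add hz'.co, fun g hg => by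
    rw [smul_add, hz.two g hg, hz'.two g hg, add_zero], hz.sm.add hz'.sm, hL.add hz.loc hz'.loc⟩
  have h2 : Eqv 2 G (fun σ => z σ + z' σ) 0 := by
    obtain ⟨a, ha, h⟩ := h
    refine ⟨a, ha, fun σ hσ => ?_⟩
    rw [← h σ hσ]
    have h3 := hz'.two σ hσ
    rw [two_nsmul] at h3
    have h4 : z' σ = - z' σ := (neg_eq_of_add_eq_zero_left h3).symm
    simp only [Pi.zero_apply, sub_zero]
    rw [sub_eq_add_neg, ← h4]
  have h3 := (hD.zero_iff h1).mpr h2
  rw [hD.add hz hz'] at h3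
  have h4 : dv z = -dv z' := eq_neg_of_add_eq_zero_left h3
  rw [h4]
  exact neg_eq_of_add_eq_zero_left (hM _)

variable (hT : Tw X H H' H1 G τ φ k q)

/-- The action of `τ`. -/
noncomputable def tW (hT : Tw X H H' H1 G τ φ k q) (hL : LocAx H Loc) :
    Module.End ℤ (Wg X hL φ) :=
  AddMonoidHom.toIntLinearMap
    { toFun := fun x => ⟨cjQ A H τ x, by
        have := Wg.tau hT x.2 1
        rwa [pow_one] at this⟩
      map_zero' := by ext; simp
      map_add' := fun x y => by ext; simp }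

/-- The action of `φ`. -/
noncomputable def fW (X : Type*) [MulAction Γ X] (φ : Γ) (hL : LocAx H Loc) :
    Module.End ℤ (Wg X hL φ) :=
  AddMonoidHom.toIntLinearMap
    { toFun := fun x => ⟨cjQ A H φ x, Wg.phi x.2⟩
      map_zero' := by ext; simp
      map_add' := fun x y => by ext; simp }

lemma coe_tW (x : Wg X hL φ) : ((tW hT hL x : Wg X hL φ) : Q A H) = cjQ A H τ x := rfl

lemma coe_fW (x : Wg X hL φ) : ((fW X φ hL x : Wg X hL φ) : Q A H) = cjQ A H φ x := rfl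

lemma coe_tW_pow (i : ℕ) (x : Wg X hL φ) :
    (((tW hT hL ^ i) x : Wg X hL φ) : Q A H) = cjQ A H (τ ^ i) x := by
  induction i with
  | zero => rw [pow_zero, pow_zero, cjQ_one]; rfl
  | succ i ih => rw [pow_succ', pow_succ', Module.End.mul_apply, coe_tW, ih, cjQ_mul]

lemma coe_fW_pow (i : ℕ) (x : Wg X hL φ) :
    (((fW X φ hL ^ i) x : Wg X hL φ) : Q A H) = cjQ A H (φ ^ i) x := by
  induction i with
  | zero => rw [pow_zero, pow_zero, cjQ_one]; rfl
  | succ i ih => rw [pow_succ', pow_succ', Module.End.mul_apply, coe_fW, ih, cjQ_mul]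

lemma f_pow_t_pow (m i : ℕ) : fW X φ hL ^ m * tW hT hL ^ i = tW hT hL ^ (q ^ m * i) * fW X φ hL ^ m := by
  apply LinearMap.ext
  intro x
  apply Subtype.ext
  rw [Module.End.mul_apply, Module.End.mul_apply, coe_fW_pow, coe_tW_pow, coe_tW_pow, coe_fW_pow]
  exact hT.phi_pow_tau_pow m i x.2.1

lemma f_pow_t (m : ℕ) : fW X φ hL ^ m * tW hT hL = tW hT hL ^ (q ^ m) * fW X φ hL ^ m := by
  have := f_pow_t_pow (hL := hL) hT m 1
  rwa [pow_one, mul_one] at this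

lemma W_torsion (hA : ∀ a : A, 2 • a = 0 → (∀ σ ∈ H, σ • a = a) → a = 0) (x : Wg X hL φ)
    (h : x + x = 0) : x = 0 := by
  apply Subtype.ext
  apply ZQ_torsion hL hA x.2.1
  rw [two_nsmul]
  exact congrArg Subtype.val h

/-- `π ^ e x` is divisible by two. -/
lemma exists_pi_e {τ' : Module.End ℤ (Wg X hL φ)} (hk : 1 ≤ k) (hτ : τ' ^ (2 ^ k) = -1)
    (x : Wg X hL φ) : ∃ w, ((1 - τ' : Module.End ℤ (Wg X hL φ)) ^ (2 ^ k)) x = w + w := by
  obtain ⟨h, hc, h2⟩ := two_eq τ' hk hτ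
  have h3 := congrArg (fun f : Module.End ℤ (Wg X hL φ) => f x) h2
  have h4 : (2 : Module.End ℤ (Wg X hL φ)) x = x + x := by
    rw [show (2 : Module.End ℤ (Wg X hL φ)) = 1 + 1 by norm_num]; simp
  simp only [LinearMap.sub_apply, LinearMap.neg_apply, Module.End.mul_apply] at h3
  rw [h4] at h3
  have h5 : h (x + x) = h x + h x := map_add _ _ _
  rw [h5, map_add] at h3
  refine ⟨-x - ((h x) - τ' (h x)), ?_⟩
  have h6 : ((1 - τ' : Module.End ℤ (Wg X hL φ)) ^ (2 ^ k)) x = -(x + x) - ((1 : Module.End ℤ (Wg X hL φ)) (h x + h x) - τ' (h x + h x)) := by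
    rw [h3]
    simp only [map_add]
    abel
  rw [h6, Module.End.one_apply, map_add]
  abel

lemma exists_pi_of_two {τ' : Module.End ℤ (Wg X hL φ)} (hk : 1 ≤ k) (hτ : τ' ^ (2 ^ k) = -1)
    (x : Wg X hL φ) : ∃ w, x + x = ((1 - τ' : Module.End ℤ (Wg X hL φ)) ^ (2 ^ k)) w := by
  have h := (sy_two τ' hk hτ).mapsO (O.self (τ := τ') 0 x)
  rw [show (2 : Module.End ℤ (Wg X hL φ)) = 1 + 1 by norm_num, zero_add] at h
  obtain ⟨w, hw⟩ := h
  exact ⟨w, by simpa using hw⟩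

/-- Two represents: a class of the form `w + w`. -/
lemma rep_double (w : Wg X hL φ) : Rep X hL ((w + w : Wg X hL φ) : Q A H) 0 := by
  have := rep_two (X := X) hL w.2.1
  rw [two_nsmul] at this
  exact this

/-- The data attached to a class. -/
def Ph (hT : Tw X H H' H1 G τ φ k q) (hL : LocAx H Loc) (x : Wg X hL φ) (z : Γ → A) : Prop :=
  Adm X G Loc z ∧ Rep X hL ((((1 - tW hT hL : Module.End ℤ (Wg X hL φ)) ^ (2 ^ k - 1)) x : Wg X hL φ) : Q A H) z

end

end Pool.Agent.Lib.MP_89bcae_ag.Inf
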