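import Mathlib
import Pool.Agent.Lib.MP_89bcae_ag.InfD8

/-!
# One layer of the tower: the operator `V`
-/

namespace Pool.Agent.Lib.MP_89bcae_ag.Inf

set_option linter.unusedSectionVars false

open PoolMP89Grad8

section Alg

variable {W : Type*} [AddCommGroup W]

lemma mul_pi_pow {τ U : Module.End ℤ W} {u : ℕ} (hU : U * τ = τ ^ u * U) (i : ℕ) :
    U * (1 - τ) ^ i = (1 - τ) ^ i * (geo τ u ^ i * U) := by
  have hcG : Commute (geo τ u) (1 - τ) := commute_geo τ _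
  have hUp : U * (1 - τ) = (1 - τ) * (geo τ u * U) := by
    rw [mul_sub, mul_one, hU, ← mul_assoc, geo_mul, sub_mul, one_mul]
  induction i with
  | zero => simp
  | succ i ih =>
    rw [pow_succ, ← mul_assoc, ih, mul_assoc, mul_assoc, hUp]
    have h1 : Commute (geo τ u ^ i) (1 - τ) := hcG.pow_left i
    calc (1 - τ) ^ i * (geo τ u ^ i * ((1 - τ) * (geo τ u * U)))
        = (1 - τ) ^ i * ((geo τ u ^ i * (1 - τ)) * (geo τ u * U)) := by simp only [mul_assoc]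
      _ = (1 - τ) ^ i * (((1 - τ) * geo τ u ^ i) * (geo τ u * U)) := by rw [h1.eq]
      _ = (1 - τ) ^ i * (1 - τ) * (geo τ u ^ (i + 1) * U) := by
        rw [pow_succ (geo τ u)]; simp only [mul_assoc]

lemma geo_pow_mod {τ : Module.End ℤ W} {k : ℕ} (hk : 1 ≤ k) (hτ : τ ^ (2 ^ k) = -1) {u : ℕ}
    (hu : Odd u) (m : ℕ) (x : W) : O τ 1 ((geo τ u ^ m) x - x) := by
  obtain ⟨c, rfl⟩ := hu
  induction m generalizing x with
  | zero => simpa using O.zero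
  | succ m ihm =>
    have h2 : (geo τ (2 * c + 1) ^ (m + 1)) x - x =
        ((geo τ (2 * c + 1) ^ m) (geo τ (2 * c + 1) x) - geo τ (2 * c + 1) x) +
        ((geo τ (2 * c + 1) x - x - (c : ℤ) • (1 - τ) x) + (c : ℤ) • (1 - τ) x) := by
      rw [pow_succ, Module.End.mul_apply]; abel
    rw [h2]
    refine (ihm _).add (((geo_mod hk hτ c x).mono (by norm_num)).add (O.zsmul ?_ _))
    exact ⟨x, by simp⟩

/-- `U (π ^ i x) - π ^ i (U x)` lies in `π ^ (i + 1) W`. -/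
lemma comm_mod {τ U : Module.End ℤ W} {k : ℕ} (hk : 1 ≤ k) (hτ : τ ^ (2 ^ k) = -1) {u : ℕ}
    (hu : Odd u) (hU : U * τ = τ ^ u * U) (i : ℕ) (x : W) :
    O τ (i + 1) (U (((1 - τ) ^ i) x) - ((1 - τ) ^ i) (U x)) := by
  have h1 := congrArg (fun f : Module.End ℤ W => f x) (mul_pi_pow hU i)
  simp only [Module.End.mul_apply] at h1
  rw [h1, ← map_sub]
  exact (geo_pow_mod hk hτ hu i (U x)).pi i

/-- `(1 - τ ^ i) π ^ j x` lies in `π ^ (j + 1) W`. -/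
lemma one_sub_pow_apply (τ : Module.End ℤ W) (i j : ℕ) (x : W) :
    (τ ^ i) (((1 - τ) ^ j) x) - ((1 - τ) ^ j) x = -(((1 - τ) ^ (j + 1)) (geo τ i x)) := by
  have h1 : (1 - τ ^ i) * (1 - τ) ^ j = (1 - τ) ^ (j + 1) * geo τ i := by
    rw [← geo_mul, mul_assoc, ((commute_geo τ i).pow_right j).eq, ← mul_assoc, ← pow_succ']
  have h2 := congrArg (fun f : Module.End ℤ W => f x) h1
  simp only [Module.End.mul_apply, LinearMap.sub_apply, Module.End.one_apply] at h2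
  rw [← h2]
  abel

/-- `(1 - τ ^ (2 i)) π ^ j x = 2 π ^ (j + 1) x' - π ^ (j + 2) x'`. -/
lemma one_sub_pow_two_apply (τ : Module.End ℤ W) (i j : ℕ) (x : W) :
    ∃ x' : W, (τ ^ (2 * i)) (((1 - τ) ^ j) x) - ((1 - τ) ^ j) x =
      ((1 - τ) ^ (j + 2)) x' - (((1 - τ) ^ (j + 1)) x' + ((1 - τ) ^ (j + 1)) x') := by
  refine ⟨geo (τ ^ 2) i x, ?_⟩
  have hc : Commute (geo (τ ^ 2) i) (1 - τ) := by
    apply Commute.sub_right (Commute.one_right _)
    exact Commute.sum_left _ _ _ fun i _ => ((Commute.refl τ).pow_left 2).pow_left i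
  have h0 : (1 - τ ^ 2 : Module.End ℤ W) = 2 * (1 - τ) - (1 - τ) ^ 2 := by
    rw [pow_two, pow_two, two_mul]; noncomm_ring
  have h1 : (1 - τ ^ (2 * i)) * (1 - τ) ^ j =
      (2 * (1 - τ) ^ (j + 1) - (1 - τ) ^ (j + 2)) * geo (τ ^ 2) i := by
    rw [pow_mul, ← geo_mul, mul_assoc, (hc.pow_right j).eq, ← mul_assoc, h0, sub_mul, mul_assoc,
      ← pow_succ', ← pow_add, add_comm 2 j]
  have h2 := congrArg (fun f : Module.End ℤ W => f x) h1
  simp only [Module.End.mul_apply, LinearMap.sub_apply, Module.End.one_apply] at h2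
  have h3 : (2 : Module.End ℤ W) (((1 - τ) ^ (j + 1)) (geo (τ ^ 2) i x)) =
      ((1 - τ) ^ (j + 1)) (geo (τ ^ 2) i x) + ((1 - τ) ^ (j + 1)) (geo (τ ^ 2) i x) := by
    rw [show (2 : Module.End ℤ W) = 1 + 1 by norm_num]; simp
  rw [h3] at h2
  have h4 : (τ ^ (2 * i)) (((1 - τ) ^ j) x) - ((1 - τ) ^ j) x =
      -((((1 - τ) ^ j) x) - (τ ^ (2 * i)) (((1 - τ) ^ j) x)) := by abel
  rw [h4, h2]
  abel

end Alg

variable {Γ A X : Type*} [Group Γ] [AddCommGroup A] [DistribMulAction Γ A] [MulAction Γ X]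
  {H H' H1 G : Subgroup Γ} [H.Normal] [H'.Normal] [H1.Normal] [G.Normal] {τ φ : Γ}
  {k q : ℕ} {Loc : (Γ → A) → Prop} {hL : LocAx H Loc} (hT : Tw X H H' H1 G τ φ k q)
  {M : Type*} [AddCommGroup M] {S : M →+ M} {dv : (Γ → A) → M}

section

variable (hA : ∀ a : A, 2 • a = 0 → (∀ σ ∈ H, σ • a = a) → a = 0) (hk : 1 ≤ k)
  (hτ : tW hT hL ^ (2 ^ k) = -1)

include hA hk hτ

lemma exists_Ph (x : Wg X hL φ) : ∃ z, Ph hT hL x z := by
  have h1 : 2 ^ k - 1 + 1 = 2 ^ k := Nat.sub_add_cancel Nat.one_le_two_pow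
  set y : Wg X hL φ := ((1 - tW hT hL : Module.End ℤ (Wg X hL φ)) ^ (2 ^ k - 1)) x with hy
  apply exists_ext2 (hT.le'.trans (hT.le1.trans hT.leG)) hA hT.opn y.2.1
  intro g hg
  obtain ⟨i, hi⟩ := hT.genG g hg
  have h2 : cjQ A H g (y : Q A H) = (((tW hT hL ^ i) y : Wg X hL φ) : Q A H) := by
    rw [coe_tW_pow]
    have h3 : g = τ ^ i * ((τ ^ i)⁻¹ * g) := by group
    rw [h3, cjQ_mul, cjQ_of_mem hL hi y.2.1]
  have h3 := one_sub_pow_apply (tW hT hL) i (2 ^ k - 1) x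
  rw [h1] at h3
  obtain ⟨w, hw⟩ := exists_pi_e hk hτ (geo (tW hT hL) i x)
  rw [hw] at h3
  refine ⟨((-w : Wg X hL φ) : Q A H), (-w).2.1, ?_⟩
  rw [h2, two_nsmul]
  have h4 := congrArg Subtype.val h3
  simp only [AddSubgroup.coe_sub, AddSubgroup.coe_neg, AddSubgroup.coe_add] at h4 ⊢
  rw [h4]
  abel

omit hk hτ in
lemma Ph.eqv {x : Wg X hL φ} {z z' : Γ → A} (h : Ph hT hL x z) (h' : Ph hT hL x z') :
    Eqv 2 G z z' :=
  Rep.eqv_ext (hT.le'.trans (hT.le1.trans hT.leG)) hA h.1.co h.1.two h'.1.co h'.1.two h.2 h'.2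

omit hA hk hτ in
lemma Ph.add {x x' : Wg X hL φ} {z z' : Γ → A} (h : Ph hT hL x z) (h' : Ph hT hL x' z') :
    Ph hT hL (x + x') (fun σ => z σ + z' σ) := by
  refine ⟨⟨h.1.co.add h'.1.co, fun g hg => ?_, h.1.sm.add h'.1.sm, hL.add h.1.loc h'.1.loc⟩, ?_⟩
  · rw [smul_add, h.1.two g hg, h'.1.two g hg, add_zero]
  · rw [map_add]
    exact h.2.add hL h'.2

omit hA in
lemma Ph.cj {x : Wg X hL φ} {z : Γ → A} (h : Ph hT hL x z) :
    Ph hT hL (fW X φ hL x) (cj φ z) := by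
  refine ⟨⟨h.1.co.cj (conj_mem' φ), fun g hg => ?_, h.1.sm.cj (conj_mem' φ), hL.cj φ h.1.loc⟩, ?_⟩
  · simp only [Inf.cj]
    rw [smul_comm, h.1.two _ (conj_mem' φ g hg), smul_zero]
  · have h1 : 2 ^ k - 1 + 1 = 2 ^ k := Nat.sub_add_cancel Nat.one_le_two_pow
    have h2 := comm_mod hk hτ (hT.odd.pow (n := 1)) (f_pow_t (hL := hL) hT 1) (2 ^ k - 1) x
    rw [h1, pow_one] at h2
    obtain ⟨w, hw⟩ := h2
    obtain ⟨v, hv⟩ := exists_pi_e hk hτ w
    rw [hv] at hw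
    have h3 : ((1 - tW hT hL : Module.End ℤ (Wg X hL φ)) ^ (2 ^ k - 1)) (fW X φ hL x) =
        fW X φ hL (((1 - tW hT hL : Module.End ℤ (Wg X hL φ)) ^ (2 ^ k - 1)) x) + (-v + -v) := by
      have h4 := sub_eq_iff_eq_add.mp hw
      rw [h4]
      abel
    rw [h3]
    have h5 := (h.2.cj hL φ).add hL (rep_double (-v))
    refine (h5.congr hL (Eqv.of_eq fun σ _ => ?_))
    simp

/-- The map to the divisors. -/
noncomputable def phi (dv : (Γ → A) → M) (x : Wg X hL φ) : M :=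
  dv (exists_Ph hT hA hk hτ x).choose

variable (hD : DvAx X G Loc φ S dv) (hM : ∀ m : M, m + m = 0)

include hD hM

lemma phi_eq {x : Wg X hL φ} {z : Γ → A} (h : Ph hT hL x z) :
    phi hT hA hk hτ dv x = dv z := by
  have h1 := (exists_Ph hT hA hk hτ x).choose_spec
  exact hD.congr hM hL h1.1 h.1 (h1.eqv hT hA h)

lemma phi_add (x y : Wg X hL φ) : phi hT hA hk hτ dv (x + y) =
    phi hT hA hk hτ dv x + phi hT hA hk hτ dv y := by
  obtain ⟨z, hz⟩ := exists_Ph hT hA hk hτ x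
  obtain ⟨z', hz'⟩ := exists_Ph hT hA hk hτ y
  rw [phi_eq hT hA hk hτ hD hM hz, phi_eq hT hA hk hτ hD hM hz',
    phi_eq hT hA hk hτ hD hM (hz.add hT hz'), hD.add hz.1 hz'.1]

lemma phi_neg (x : Wg X hL φ) : phi hT hA hk hτ dv (-x) = phi hT hA hk hτ dv x := by
  have h0 : phi hT hA hk hτ dv (0 : Wg X hL φ) = 0 := by
    have := phi_add hT hA hk hτ hD hM 0 0
    rw [add_zero] at this
    exact left_eq_add.mp this
  have h1 := phi_add hT hA hk hτ hD hM x (-x)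
  rw [add_neg_cancel, h0] at h1
  have h2 := eq_neg_of_add_eq_zero_right h1.symm
  rw [h2]
  exact neg_eq_of_add_eq_zero_left (hM _)

lemma phi_sub (x y : Wg X hL φ) : phi hT hA hk hτ dv (x - y) =
    phi hT hA hk hτ dv x + phi hT hA hk hτ dv y := by
  rw [sub_eq_add_neg, phi_add hT hA hk hτ hD hM, phi_neg hT hA hk hτ hD hM]

lemma phi_fW (x : Wg X hL φ) : phi hT hA hk hτ dv (fW X φ hL x) =
    S (phi hT hA hk hτ dv x) := by
  obtain ⟨z, hz⟩ := exists_Ph hT hA hk hτ x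
  rw [phi_eq hT hA hk hτ hD hM (hz.cj hT hk hτ), phi_eq hT hA hk hτ hD hM hz, hD.cj hz.1]

lemma phi_fW_pow (x : Wg X hL φ) (n : ℕ) : phi hT hA hk hτ dv ((fW X φ hL ^ n) x) =
    (S^[n]) (phi hT hA hk hτ dv x) := by
  induction n with
  | zero => rfl
  | succ n ih =>
    rw [pow_succ', Module.End.mul_apply, phi_fW hT hA hk hτ hD hM, ih,
      Function.iterate_succ_apply']

/-- The kernel of the map to the divisors. -/
lemma phi_eq_zero_iff (hdiv : ∀ P : A, ∃ Q, Q + Q = P) (hsm : ∀ a : A, Sm X H (cob a : Γ → A))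
    (x : Wg X hL φ) : phi hT hA hk hτ dv x = 0 ↔ O (tW hT hL) 1 x := by
  have h1 : 2 ^ k - 1 + 1 = 2 ^ k := Nat.sub_add_cancel Nat.one_le_two_pow
  obtain ⟨z, hz⟩ := exists_Ph hT hA hk hτ x
  rw [phi_eq hT hA hk hτ hD hM hz]
  constructor
  · intro h0
    have h2 := ((hD.zero_iff hz.1).mp h0).mono (hT.le'.trans (hT.le1.trans hT.leG))
    obtain ⟨y, hy, hxy⟩ := (hz.2.congr hL h2.symm).exists_half hL hdiv hsm
    have hyW : y ∈ Wg X hL φ := Wg.half (hL := hL) hA (Subtype.property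
      (((1 - tW hT hL : Module.End ℤ (Wg X hL φ)) ^ (2 ^ k - 1)) x)) hy hxy
    have h3 : ((1 - tW hT hL : Module.End ℤ (Wg X hL φ)) ^ (2 ^ k - 1)) x =
        (⟨y, hyW⟩ : Wg X hL φ) + ⟨y, hyW⟩ := by
      apply Subtype.ext
      rw [hxy, two_nsmul]
      rfl
    obtain ⟨w, hw⟩ := exists_pi_of_two hk hτ (⟨y, hyW⟩ : Wg X hL φ)
    refine ⟨w, ?_⟩
    have h4 : ((1 - tW hT hL : Module.End ℤ (Wg X hL φ)) ^ (2 ^ k - 1))
        (x - ((1 - tW hT hL : Module.End ℤ (Wg X hL φ)) ^ 1) w) = 0 := by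
      rw [map_sub, h3, hw, ← Module.End.mul_apply, ← pow_add, h1, sub_self]
    exact sub_eq_zero.mp (pi_pow_inj (W_torsion hA) hτ _ h4)
  · rintro ⟨w, hw⟩
    obtain ⟨v, hv⟩ := exists_pi_e hk hτ w
    have h3 : ((1 - tW hT hL : Module.End ℤ (Wg X hL φ)) ^ (2 ^ k - 1)) x = v + v := by
      rw [hw, ← Module.End.mul_apply, ← pow_add, h1, hv]
    have h4 := hz.2
    rw [h3] at h4
    rw [hD.zero_iff hz.1]
    exact Rep.eqv_ext (hT.le'.trans (hT.le1.trans hT.leG)) hA hz.1.co hz.1.two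
      (fun σ _ τ _ => by simp) (fun g _ => by simp) h4 (rep_double v)

/-- The operator `V`. -/
theorem exists_V (hdiv : ∀ P : A, ∃ Q, Q + Q = P) (hsm : ∀ a : A, Sm X H (cob a : Γ → A))
    {N : ℕ} (hN : ∀ m : M, (S^[N]) m = m) :
    ∃ V : Module.End ℤ (Wg X hL φ), fW X φ hL ^ N = 1 + (1 - tW hT hL) * V := by
  have h1 : ∀ x : Wg X hL φ, ∃ y : Wg X hL φ, (fW X φ hL ^ N) x - x = (1 - tW hT hL) y := by
    intro x
    have h2 : phi hT hA hk hτ dv ((fW X φ hL ^ N) x - x) = 0 := by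
      rw [phi_sub hT hA hk hτ hD hM, phi_fW_pow hT hA hk hτ hD hM, hN, hM]
    obtain ⟨y, hy⟩ := (phi_eq_zero_iff hT hA hk hτ hD hM hdiv hsm _).mp h2
    exact ⟨y, by rw [hy, pow_one]⟩
  choose v hv using h1
  have hinj : ∀ a b : Wg X hL φ, (1 - tW hT hL) a = (1 - tW hT hL) b → a = b := by
    intro a b hab
    apply sub_eq_zero.mp
    apply pi_inj (W_torsion hA) hτ
    rw [map_sub, hab, sub_self]
  refine ⟨AddMonoidHom.toIntLinearMap ⟨⟨v, ?_⟩, ?_⟩, ?_⟩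
  · apply hinj
    rw [← hv, map_zero, map_zero, sub_zero]
  · intro x y
    apply hinj
    change (1 - tW hT hL) (v (x + y)) = (1 - tW hT hL) (v x + v y)
    rw [map_add, ← hv, ← hv, ← hv, map_add]
    abel
  · apply LinearMap.ext
    intro x
    change (fW X φ hL ^ N) x = x + (1 - tW hT hL) (v x)
    rw [← hv]
    abel

end

end Pool.Agent.Lib.MP_89bcae_ag.Inf
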