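import Mathlib

/-!
# The polynomial `x^(2n) + x^n + 1` over the field with two elements, `n` a power of three
-/

open Polynomial

namespace Pool.Agent.Lib.MP_89bcae_ag

/-- The order of `2` modulo `3 ^ (j + 1)`. -/
lemma dvd_of_three_pow_dvd {j d : ℕ} (h : 3 ^ (j + 1) ∣ 2 ^ d - 1) : 2 * 3 ^ j ∣ d := by
  rcases Nat.eq_zero_or_pos d with rfl | hd
  · exact dvd_zero _
  have h3 : 3 ∣ 2 ^ d - 1 := (dvd_pow_self 3 (Nat.succ_ne_zero j)).trans h
  have heven : 2 ∣ d := by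
    by_contra hodd
    have hodd' : d % 2 = 1 := by omega
    obtain ⟨e, he⟩ : ∃ e, d = 2 * e + 1 := ⟨d / 2, by omega⟩
    rw [he, pow_succ, pow_mul] at h3
    have h1 : 1 ≤ (2 ^ 2) ^ e := Nat.one_le_pow _ _ (by norm_num)
    have h4 : (2 ^ 2) ^ e % 3 = 1 := by
      rw [Nat.pow_mod]
      norm_num
    omega
  obtain ⟨e, rfl⟩ := heven
  have he : e ≠ 0 := by omega
  rw [pow_mul] at h
  apply Nat.mul_dvd_mul_left
  have h5 : padicValNat 3 ((2 ^ 2) ^ e - 1 ^ e) = padicValNat 3 (2 ^ 2 - 1) + padicValNat 3 e :=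
    padicValNat.pow_sub_pow (p := 3) (by decide) (by norm_num) (by norm_num) (by norm_num) he
  have hne : (2 ^ 2) ^ e - 1 ^ e ≠ 0 := by
    have : 1 < (2 ^ 2) ^ e := Nat.one_lt_pow he (by norm_num)
    rw [one_pow]
    omega
  have h6 : j + 1 ≤ padicValNat 3 ((2 ^ 2) ^ e - 1 ^ e) := by
    rw [← padicValNat_dvd_iff_le hne, one_pow]
    exact h
  rw [h5] at h6
  have h7 : padicValNat 3 (2 ^ 2 - 1) = 1 := by
    have : (2 ^ 2 - 1 : ℕ) = 3 := by norm_num
    rw [this]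
    exact padicValNat_self
  rw [h7] at h6
  rw [padicValNat_dvd_iff_le he]
  omega

lemma orderOf_two_mod (j : ℕ) (h : Nat.Coprime 2 (3 ^ (j + 1))) :
    orderOf (ZMod.unitOfCoprime 2 h) = 2 * 3 ^ j := by
  have hN : NeZero (3 ^ (j + 1)) := ⟨by positivity⟩
  apply Nat.dvd_antisymm
  · apply orderOf_dvd_of_pow_eq_one
    have h1 : 2 * 3 ^ j = Nat.totient (3 ^ (j + 1)) := by
      rw [Nat.totient_prime_pow Nat.prime_three (Nat.succ_pos j), Nat.succ_sub_one, mul_comm]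
    rw [h1]
    exact ZMod.pow_totient _
  · apply dvd_of_three_pow_dvd
    have h1 := pow_orderOf_eq_one (ZMod.unitOfCoprime 2 h)
    have h2 := congrArg Units.val h1
    rw [Units.val_pow_eq_pow_val, ZMod.coe_unitOfCoprime, Units.val_one] at h2
    have h3 : ((2 ^ orderOf (ZMod.unitOfCoprime 2 h) - 1 : ℕ) : ZMod (3 ^ (j + 1))) = 0 := by
      rw [Nat.cast_sub (Nat.one_le_pow _ _ (by norm_num)), Nat.cast_pow, Nat.cast_one, h2,
        sub_self]
    exact (ZMod.natCast_eq_zero_iff _ _).mp h3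

lemma psi_eq_cyclotomic (j : ℕ) :
    (X ^ (2 * 3 ^ j) + X ^ (3 ^ j) + 1 : (ZMod 2)[X]) = cyclotomic (3 ^ (j + 1)) (ZMod 2) := by
  rw [cyclotomic_prime_pow_eq_geom_sum Nat.prime_three]
  simp only [Finset.sum_range_succ, Finset.sum_range_zero, pow_zero, pow_one, zero_add]
  rw [← pow_mul, mul_comm 2]
  ring

/-- **Irreducibility.** -/
theorem psi_irreducible (j : ℕ) :
    Irreducible (X ^ (2 * 3 ^ j) + X ^ (3 ^ j) + 1 : (ZMod 2)[X]) := by
  have hp : Fact (Nat.Prime 2) := ⟨Nat.prime_two⟩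
  have hnd : ¬ 2 ∣ 3 ^ (j + 1) := by
    intro h
    have := Nat.prime_two.dvd_of_dvd_pow h
    omega
  rw [psi_eq_cyclotomic]
  apply ZMod.irreducible_of_dvd_cyclotomic_of_natDegree (p := 2) hnd dvd_rfl
  rw [natDegree_cyclotomic, orderOf_two_mod j,
    Nat.totient_prime_pow Nat.prime_three (Nat.succ_pos j), Nat.succ_sub_one, mul_comm]

lemma natDegree_psi (j : ℕ) :
    (X ^ (2 * 3 ^ j) + X ^ (3 ^ j) + 1 : (ZMod 2)[X]).natDegree = 2 * 3 ^ j := by
  rw [psi_eq_cyclotomic, natDegree_cyclotomic,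
    Nat.totient_prime_pow Nat.prime_three (Nat.succ_pos j), Nat.succ_sub_one, mul_comm]

end Pool.Agent.Lib.MP_89bcae_ag
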