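import Mathlib
import Pool.Agent.Lib.MP_89bcae_ag.Irr8

/-!
# Circulant operators on an irreducible module for a cyclic group
-/

open Polynomial

namespace Pool.Agent.Lib.MP_89bcae_ag

section

variable (N : ℕ)

/-- The shift of functions on `ZMod N`. -/
def shift8 : Module.End (ZMod 2) (ZMod N → ZMod 2) :=
  LinearMap.funLeft (ZMod 2) (ZMod 2) (fun i : ZMod N => i + 1)

variable {N}

lemma shift8_apply (z : ZMod N → ZMod 2) (i : ZMod N) : shift8 N z i = z (i + 1) := rfl

lemma shift8_pow (m : ℕ) (z : ZMod N → ZMod 2) (i : ZMod N) :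
    (shift8 N ^ m) z i = z (i + m) := by
  induction m generalizing z with
  | zero => simp
  | succ m ih =>
    rw [pow_succ, Module.End.mul_apply, ih, shift8_apply, Nat.cast_succ, add_assoc]

/-- The functions whose sums over the classes modulo `n` vanish. -/
def even8 (N n : ℕ) : Submodule (ZMod 2) (ZMod N → ZMod 2) where
  carrier := {z | ∀ i, z (i + (2 * n : ℕ)) + z (i + n) + z i = 0}
  zero_mem' := by intro i; simp
  add_mem' := by
    intro a b ha hb i
    have h1 := ha i
    have h2 := hb i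
    simp only [Pi.add_apply]
    linear_combination h1 + h2
  smul_mem' := by
    intro c a ha i
    have h1 := ha i
    simp only [Pi.smul_apply, smul_eq_mul]
    linear_combination c * h1

lemma mem_even8 {n : ℕ} {z : ZMod N → ZMod 2} :
    z ∈ even8 N n ↔ ∀ i, z (i + (2 * n : ℕ)) + z (i + n) + z i = 0 := Iff.rfl

lemma finrank_even8_le {n : ℕ} [NeZero N] (hN : N = 3 * n) :
    Module.finrank (ZMod 2) (even8 N n) ≤ 2 * n := by
  let f : even8 N n →ₗ[ZMod 2] (Fin (2 * n) → ZMod 2) :=
    { toFun := fun z t => (z : ZMod N → ZMod 2) ((t : ℕ) : ZMod N)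
      map_add' := fun _ _ => rfl
      map_smul' := fun _ _ => rfl }
  have hf : Function.Injective f := by
    rw [← LinearMap.ker_eq_bot, LinearMap.ker_eq_bot']
    rintro ⟨z, hz⟩ h0
    have h1 : ∀ m : ℕ, m < 2 * n → z (m : ZMod N) = 0 := fun m hm => congrFun h0 ⟨m, hm⟩
    apply Subtype.ext
    funext i
    change z i = 0
    obtain ⟨m, hm, rfl⟩ : ∃ m : ℕ, m < N ∧ (m : ZMod N) = i :=
      ⟨i.val, ZMod.val_lt i, ZMod.natCast_zmod_val i⟩
    by_cases h2 : m < 2 * n
    · exact h1 m h2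
    · have h3 := hz ((m - 2 * n : ℕ) : ZMod N)
      rw [← Nat.cast_add, ← Nat.cast_add, h1 (m - 2 * n + n) (by omega),
        h1 (m - 2 * n) (by omega), Nat.sub_add_cancel (by omega)] at h3
      simpa using h3
  have h4 := LinearMap.finrank_le_finrank_of_injective hf
  rwa [Module.finrank_fin_fun] at h4

/-- **A nonzero submodule of the irreducible module is everything.** -/
theorem eq_even8 {j : ℕ} {W : Submodule (ZMod 2) (ZMod (3 * 3 ^ j) → ZMod 2)}
    (hW : W ≤ even8 (3 * 3 ^ j) (3 ^ j)) (hS : ∀ z ∈ W, shift8 _ z ∈ W) (h0 : W ≠ ⊥) :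
    W = even8 (3 * 3 ^ j) (3 ^ j) := by
  have : NeZero (3 * 3 ^ j) := ⟨by positivity⟩
  let T : Module.End (ZMod 2) W := (shift8 (3 * 3 ^ j)).restrict hS
  have hpow : ∀ (m : ℕ) (z : W), ((T ^ m) z : ZMod (3 * 3 ^ j) → ZMod 2) =
      (shift8 (3 * 3 ^ j) ^ m) z := by
    intro m
    induction m with
    | zero => intro z; rfl
    | succ m ih =>
      intro z
      rw [pow_succ, pow_succ, Module.End.mul_apply, Module.End.mul_apply, ih]
      rfl
  have hΨ : aeval T (X ^ (2 * 3 ^ j) + X ^ (3 ^ j) + 1 : (ZMod 2)[X]) = 0 := by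
    apply LinearMap.ext
    intro z
    apply Subtype.ext
    funext i
    rw [map_add, map_add, map_pow, map_pow, aeval_X, map_one]
    change (((T ^ (2 * 3 ^ j)) z : W) : ZMod (3 * 3 ^ j) → ZMod 2) i +
      (((T ^ (3 ^ j)) z : W) : ZMod (3 * 3 ^ j) → ZMod 2) i + (z : _ → ZMod 2) i = 0
    rw [hpow, hpow, shift8_pow, shift8_pow]
    exact hW z.2 i
  have : Nontrivial W := Submodule.nontrivial_iff_ne_bot.mpr h0
  have hdvd := minpoly.dvd (ZMod 2) T hΨ
  have hne : minpoly (ZMod 2) T ≠ 1 := minpoly.ne_one (ZMod 2) T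
  have hirr := psi_irreducible j
  have hint : IsIntegral (ZMod 2) T := Algebra.IsIntegral.isIntegral T
  have hdeg : 2 * 3 ^ j ≤ (minpoly (ZMod 2) T).natDegree := by
    rw [← natDegree_psi j]
    have hnu : ¬ IsUnit (minpoly (ZMod 2) T) := minpoly.not_isUnit (ZMod 2) T
    have hassoc : Associated (minpoly (ZMod 2) T)
        (X ^ (2 * 3 ^ j) + X ^ (3 ^ j) + 1 : (ZMod 2)[X]) :=
      ((hirr.dvd_iff.mp hdvd).resolve_left hnu).symm
    exact (natDegree_eq_of_degree_eq (degree_eq_degree_of_associated hassoc)).ge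
  have hle : (minpoly (ZMod 2) T).natDegree ≤ Module.finrank (ZMod 2) W := by
    rw [← LinearMap.charpoly_natDegree T]
    exact natDegree_le_of_dvd (LinearMap.minpoly_dvd_charpoly T) (LinearMap.charpoly_monic T).ne_zero
  apply Submodule.eq_of_le_of_finrank_le hW
  exact (finrank_even8_le rfl).trans (hdeg.trans hle)

/-- The operator with matrix `a (i - j)`. -/
def circ8 (N : ℕ) [NeZero N] (a : ZMod N → ZMod 2) :
    Module.End (ZMod 2) (ZMod N → ZMod 2) where
  toFun z i := ∑ t, a (i - t) * z t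
  map_add' z w := by
    funext i
    simp only [Pi.add_apply, mul_add, Finset.sum_add_distrib]
  map_smul' c z := by
    funext i
    simp only [Pi.smul_apply, smul_eq_mul, RingHom.id_apply, Finset.mul_sum]
    exact Finset.sum_congr rfl fun t _ => by ring

lemma circ8_shift [NeZero N] (a : ZMod N → ZMod 2) (z : ZMod N → ZMod 2) :
    circ8 N a (shift8 N z) = shift8 N (circ8 N a z) := by
  funext i
  change ∑ t, a (i - t) * z (t + 1) = ∑ t, a (i + 1 - t) * z t
  rw [← Equiv.sum_comp (Equiv.addRight (1 : ZMod N)) (fun t => a (i + 1 - t) * z t)]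
  apply Finset.sum_congr rfl
  intro t _
  simp only [Equiv.coe_addRight]
  congr 2
  ring

/-- If a circulant operator acts as a scalar on one nonzero even function, it acts as this scalar
on all of them. -/
theorem circ8_scalar {j : ℕ} [NeZero (3 * 3 ^ j)] (a : ZMod (3 * 3 ^ j) → ZMod 2) (c : ZMod 2)
    {z : ZMod (3 * 3 ^ j) → ZMod 2} (hz : z ∈ even8 (3 * 3 ^ j) (3 ^ j)) (h0 : z ≠ 0)
    (hc : ∀ i, ∑ t, a (i - t) * z t = c * z i) {w : ZMod (3 * 3 ^ j) → ZMod 2}
    (hw : w ∈ even8 (3 * 3 ^ j) (3 ^ j)) (i : ZMod (3 * 3 ^ j)) :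
    ∑ t, a (i - t) * w t = c * w i := by
  let W : Submodule (ZMod 2) (ZMod (3 * 3 ^ j) → ZMod 2) :=
    even8 (3 * 3 ^ j) (3 ^ j) ⊓ LinearMap.ker (circ8 _ a - c • LinearMap.id)
  have hmem : ∀ w, w ∈ LinearMap.ker (circ8 _ a - c • LinearMap.id) ↔
      ∀ i, ∑ t, a (i - t) * w t = c * w i := by
    intro w
    rw [LinearMap.mem_ker, LinearMap.sub_apply, sub_eq_zero]
    exact funext_iff
  have hW : W = even8 (3 * 3 ^ j) (3 ^ j) := by
    apply eq_even8 inf_le_left
    · intro y hy
      refine ⟨fun i => ?_, ?_⟩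
      · have := hy.1 (i + 1)
        simp only [shift8_apply]
        rw [add_right_comm i _ 1, add_right_comm i _ 1]
        exact this
      · change _ ∈ LinearMap.ker (circ8 _ a - c • LinearMap.id)
        rw [hmem]
        intro i
        have h1 := congrFun (circ8_shift a y) i
        have h2 := (hmem y).mp hy.2 (i + 1)
        change ∑ t, a (i - t) * shift8 _ y t = shift8 _ (circ8 _ a y) i at h1
        rw [h1]
        exact h2
    · intro hbot
      apply h0
      have h2 : z ∈ (⊥ : Submodule (ZMod 2) (ZMod (3 * 3 ^ j) → ZMod 2)) := by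
        rw [← hbot]
        exact ⟨hz, (hmem z).mpr hc⟩
      exact (Submodule.mem_bot _).mp h2
  have h1 : w ∈ W := by rw [hW]; exact hw
  exact (hmem w).mp h1.2 i

/-- The even function supported by two points of the fibre of `0`. -/
def pair8 (n : ℕ) : ZMod (3 * n) → ZMod 2 := fun t => if t = 0 ∨ t = (n : ℕ) then 1 else 0

lemma n_ne_zero8 {n : ℕ} (hn0 : 0 < n) : ((n : ℕ) : ZMod (3 * n)) ≠ 0 := by
  rw [Ne, ZMod.natCast_eq_zero_iff]
  intro h
  have := Nat.le_of_dvd hn0 h
  omega

lemma pair8_mem {n : ℕ} (hn0 : 0 < n) : pair8 n ∈ even8 (3 * n) n := by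
  have h3n : ((3 * n : ℕ) : ZMod (3 * n)) = 0 := ZMod.natCast_self _
  have hn0' := n_ne_zero8 hn0
  intro t
  have e1 : ((2 * n : ℕ) : ZMod (3 * n)) = -(n : ℕ) := by
    rw [eq_neg_iff_add_eq_zero, ← Nat.cast_add, ← h3n]
    congr 1
    ring
  have e2 : (n : ZMod (3 * n)) + n = -n := by
    rw [← e1, ← Nat.cast_add]
    congr 1
    ring
  have hnn : -(n : ZMod (3 * n)) ≠ n := by
    intro h
    apply hn0'
    have h4 : (n : ZMod (3 * n)) + n + n = 0 := by
      rw [e2, neg_add_cancel]
    have h5 : (n : ZMod (3 * n)) + n = 0 := by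
      nth_rewrite 1 [← h]
      rw [neg_add_cancel]
    rw [h5, zero_add] at h4
    exact h4
  have hnn0 : -(n : ZMod (3 * n)) ≠ 0 := by
    rw [neg_ne_zero]
    exact hn0'
  change pair8 n (t + (2 * n : ℕ)) + pair8 n (t + n) + pair8 n t = 0
  rw [e1]
  by_cases ht0 : t = 0
  · subst ht0
    simp only [pair8, zero_add, true_or, if_true, or_true, neg_eq_zero, hn0', hnn, or_self,
      if_false]
    decide
  · by_cases ht1 : t = n
    · subst ht1
      simp only [pair8, add_neg_cancel, e2, true_or, if_true, or_true, neg_eq_zero, hn0', hnn,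
        or_self, if_false]
      decide
    · by_cases ht2 : t = -n
      · subst ht2
        have e7 : -(n : ZMod (3 * n)) + -n = n := by
          rw [← neg_add, e2, neg_neg]
        simp only [pair8, neg_add_cancel, e7, true_or, if_true, or_true,
          neg_eq_zero, hn0', hnn, or_self, if_false]
        decide
      · have e3 : ¬ (t + -n = 0) := by
          intro h
          exact ht1 (by rw [← sub_eq_add_neg] at h; exact sub_eq_zero.mp h)
        have e4 : ¬ (t + -n = n) := by
          intro h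
          apply ht2
          rw [← e2]
          linear_combination h
        have e5 : ¬ (t + n = 0) := by
          intro h
          exact ht2 (eq_neg_of_add_eq_zero_left h)
        have e6 : ¬ (t + n = n) := by
          intro h
          exact ht0 (by simpa using h)
        simp only [pair8, e3, e4, e5, e6, ht0, ht1, or_self, if_false]
        decide

/-- The symbols between two fibres. -/
theorem circ8_symbol {j : ℕ} [NeZero (3 * 3 ^ j)] (a : ZMod (3 * 3 ^ j) → ZMod 2) (c : ZMod 2)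
    {z : ZMod (3 * 3 ^ j) → ZMod 2} (hz : z ∈ even8 (3 * 3 ^ j) (3 ^ j)) (h0 : z ≠ 0)
    (hc : ∀ i, ∑ t, a (i - t) * z t = c * z i) {i : ZMod (3 * 3 ^ j)} (h1 : i ≠ 0)
    (h2 : i ≠ (3 ^ j : ℕ)) : a i = a (i - (3 ^ j : ℕ)) := by
  have hn0 : 0 < 3 ^ j := by positivity
  have hn0' := n_ne_zero8 hn0
  have h3 := circ8_scalar a c hz h0 hc (pair8_mem hn0) i
  have h4 : pair8 (3 ^ j) i = 0 := if_neg (by rintro (h | h); exacts [h1 h, h2 h])
  rw [h4, mul_zero, ← Finset.sum_subset (Finset.subset_univ {0, ((3 ^ j : ℕ) : ZMod (3 * 3 ^ j))}),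
    Finset.sum_pair hn0'.symm] at h3
  · have h5 : pair8 (3 ^ j) 0 = 1 := if_pos (Or.inl rfl)
    have h6 : pair8 (3 ^ j) (3 ^ j : ℕ) = 1 := if_pos (Or.inr rfl)
    rw [h5, h6, mul_one, mul_one, sub_zero] at h3
    have h7 : a i + a (i - (3 ^ j : ℕ)) + a (i - (3 ^ j : ℕ)) = a (i - (3 ^ j : ℕ)) := by
      rw [h3, zero_add]
    rw [add_assoc, CharTwo.add_self_eq_zero, add_zero] at h7
    exact h7
  · intro t _ ht
    rw [Finset.mem_insert, Finset.mem_singleton] at ht
    have : pair8 (3 ^ j) t = 0 := if_neg ht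
    rw [this, mul_zero]

end

end Pool.Agent.Lib.MP_89bcae_ag
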