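import Mathlib
import Pool.Agent.Lib.MP_89bcae_ag.InfE8
import Pool.Agent.Lib.MP_89bcae_ag.Mod8

/-!
# One layer of the tower: vanishing of the Tate classes
-/

namespace Pool.Agent.Lib.MP_89bcae_ag.Inf

set_option linter.unusedSectionVars false

open PoolMP89Grad8

section

variable {Γ A X : Type*} [Group Γ] [AddCommGroup A] [DistribMulAction Γ A] [MulAction Γ X]
  {H H' H1 G : Subgroup Γ} [H.Normal] [H'.Normal] [H1.Normal] [G.Normal] {τ φ : Γ}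
  {k q : ℕ} {Loc : (Γ → A) → Prop} {hL : LocAx H Loc} (hT : Tw X H H' H1 G τ φ k q)
  {M : Type*} [AddCommGroup M] {S : M →+ M} {dv : (Γ → A) → M}

variable (hA : ∀ a : A, 2 • a = 0 → (∀ σ ∈ H, σ • a = a) → a = 0) (hk : 1 ≤ k)
  (hτ : tW hT hL ^ (2 ^ k) = -1)

include hA hk hτ

/-- The cocycle modulo two of `π ^ (e - 2) w`, over the first layer. -/
lemma exists_y (w : Wg X hL φ) : ∃ y : Γ → A, Adm X H1 Loc y ∧
    Rep X hL ((((1 - tW hT hL : Module.End ℤ (Wg X hL φ)) ^ (2 ^ k - 2)) w : Wg X hL φ) : Q A H) y := by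
  have he : 2 ≤ 2 ^ k := by
    calc 2 = 2 ^ 1 := rfl
      _ ≤ 2 ^ k := Nat.pow_le_pow_right (by norm_num) hk
  have h1 : 2 ^ k - 2 + 2 = 2 ^ k := Nat.sub_add_cancel he
  set y0 : Wg X hL φ := ((1 - tW hT hL : Module.End ℤ (Wg X hL φ)) ^ (2 ^ k - 2)) w with hy0
  apply exists_ext2 (hT.le'.trans hT.le1) hA (by
    obtain ⟨T, hTT⟩ := hT.opn
    exact ⟨T, fun σ hσ hx => hTT σ (hT.leG hσ) hx⟩) y0.2.1
  intro g hg
  obtain ⟨i, hi⟩ := hT.gen1 g hg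
  have h2 : cjQ A H g (y0 : Q A H) = (((tW hT hL ^ (2 * i)) y0 : Wg X hL φ) : Q A H) := by
    rw [coe_tW_pow]
    have h3 : g = τ ^ (2 * i) * ((τ ^ (2 * i))⁻¹ * g) := by group
    rw [h3, cjQ_mul, cjQ_of_mem hL hi y0.2.1]
  obtain ⟨x', h3⟩ := one_sub_pow_two_apply (tW hT hL) i (2 ^ k - 2) w
  rw [h1] at h3
  obtain ⟨v, hv⟩ := exists_pi_e hk hτ x'
  set u : Wg X hL φ := ((1 - tW hT hL : Module.End ℤ (Wg X hL φ)) ^ (2 ^ k - 2 + 1)) x' with hu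
  rw [hv] at h3
  refine ⟨((v - u : Wg X hL φ) : Q A H), (v - u).2.1, ?_⟩
  rw [h2, two_nsmul]
  have h4 := congrArg Subtype.val h3
  simp only [AddSubgroup.coe_sub, AddSubgroup.coe_add] at h4 ⊢
  rw [h4]
  abel

variable (hD : DvAx X G Loc φ S dv) (hM : ∀ m : M, m + m = 0)

include hD hM

/-- The formula for `V`. -/
theorem phi_V {Fm : M → M → Prop} {N : ℕ}
    (hform : ∀ (z z' y : Γ → A) (a a' : A), Adm X G Loc z → Adm X G Loc z' → Adm X H1 Loc y →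
      2 • a = 0 → 2 • a' = 0 → (∀ σ ∈ H1, y σ - cj τ y σ = z σ + cob a σ) →
      (∀ σ ∈ H1, cj (φ ^ N) y σ - y σ = z' σ + cob a' σ) → Fm (dv z) (dv z'))
    {V : Module.End ℤ (Wg X hL φ)} (hV : fW X φ hL ^ N = 1 + (1 - tW hT hL) * V) (w : Wg X hL φ) :
    Fm (phi hT hA hk hτ dv w) (phi hT hA hk hτ dv (V w)) := by
  have he : 2 ≤ 2 ^ k := by
    calc 2 = 2 ^ 1 := rfl
      _ ≤ 2 ^ k := Nat.pow_le_pow_right (by norm_num) hk
  have hHG := hT.le'.trans (hT.le1.trans hT.leG)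
  obtain ⟨z, hz⟩ := exists_Ph hT hA hk hτ w
  obtain ⟨z', hz'⟩ := exists_Ph hT hA hk hτ (V w)
  rw [phi_eq hT hA hk hτ hD hM hz, phi_eq hT hA hk hτ hD hM hz']
  obtain ⟨y, hy, hyr⟩ := exists_y hT hA hk hτ w
  set y0 : Wg X hL φ := ((1 - tW hT hL : Module.End ℤ (Wg X hL φ)) ^ (2 ^ k - 2)) w with hy0
  have hz1 : Co H1 z := hz.1.co.mono hT.leG
  have hz1' : Co H1 z' := hz'.1.co.mono hT.leG
  have hz2 : ∀ g ∈ H1, 2 • z g = 0 := fun g hg => hz.1.two g (hT.leG hg)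
  have hz2' : ∀ g ∈ H1, 2 • z' g = 0 := fun g hg => hz'.1.two g (hT.leG hg)
  have hcj2 : ∀ γ : Γ, ∀ g ∈ H1, 2 • cj γ y g = 0 := by
    intro γ g hg
    simp only [cj]
    rw [smul_comm, hy.two _ (conj_mem' γ g hg), smul_zero]
  -- the first relation
  obtain ⟨a, ha, h1⟩ : Eqv 2 H1 (fun σ => y σ - cj τ y σ) z := by
    apply Rep.eqv_ext (hL := hL) (y := ((((1 - tW hT hL : Module.End ℤ (Wg X hL φ)) ^ (2 ^ k - 1)) w :
      Wg X hL φ) : Q A H)) (hT.le'.trans hT.le1) hA (hy.co.sub (hy.co.cj (conj_mem' τ))) _ hz1 hz2 _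
      hz.2
    · intro g hg
      rw [smul_sub, hy.two g hg, hcj2 τ g hg, sub_zero]
    · have h3 := hyr.sub hL (hyr.cj hL τ)
      have h4 : ((((1 - tW hT hL : Module.End ℤ (Wg X hL φ)) ^ (2 ^ k - 1)) w :
          Wg X hL φ) : Q A H) = (y0 : Q A H) - cjQ A H τ (y0 : Q A H) := by
        have h5 : 2 ^ k - 1 = (2 ^ k - 2) + 1 := by omega
        rw [h5, pow_succ', Module.End.mul_apply, ← hy0]
        rfl
      rw [h4]
      exact h3
  -- the second relation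
  obtain ⟨a', ha', h2⟩ : Eqv 2 H1 (fun σ => cj (φ ^ N) y σ - y σ) z' := by
    apply Rep.eqv_ext (hL := hL) (y := ((((1 - tW hT hL : Module.End ℤ (Wg X hL φ)) ^ (2 ^ k - 1))
      (V w) : Wg X hL φ) : Q A H)) (hT.le'.trans hT.le1) hA ((hy.co.cj (conj_mem' _)).sub hy.co) _
      hz1' hz2' _ hz'.2
    · intro g hg
      rw [smul_sub, hy.two g hg, hcj2 _ g hg, sub_zero]
    · have h3 := (hyr.cj hL (φ ^ N)).sub hL hyr
      obtain ⟨c, hc⟩ := hT.odd.pow (n := N)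
      have hU := f_pow_t (hL := hL) hT N
      rw [hc] at hU
      have h4 := sy_U hk hτ hU hV (2 ^ k - 2) w
      have h5 : 2 ^ k - 2 + 1 = 2 ^ k - 1 := by omega
      have h6 : 2 ^ k - 2 + 1 + 1 = 2 ^ k := by omega
      rw [h6, h5] at h4
      obtain ⟨v, hv⟩ := h4
      obtain ⟨v', hv'⟩ := exists_pi_e hk hτ v
      obtain ⟨b, hb⟩ : ∃ b : ℕ, 2 ^ k - 2 = 2 * b := by
        obtain ⟨m, rfl⟩ := Nat.exists_eq_add_of_le hk
        refine ⟨2 ^ m - 1, ?_⟩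
        rw [pow_add, pow_one, Nat.mul_sub]
      set d : Wg X hL φ := ((1 - tW hT hL : Module.End ℤ (Wg X hL φ)) ^ (2 ^ k - 1)) w with hd
      have h7 : ((1 - tW hT hL : Module.End ℤ (Wg X hL φ)) ^ (2 ^ k - 1)) (V w) =
          ((fW X φ hL ^ N) y0 - y0) + (-(v' + ((b * c : ℕ) : ℤ) • d) + -(v' + ((b * c : ℕ) : ℤ) • d)) := by
        have h8 : (fW X φ hL ^ N) y0 - y0 = ((1 - tW hT hL : Module.End ℤ (Wg X hL φ)) ^ (2 ^ k - 1)) (V w)
            + (((2 ^ k - 2) * c : ℕ) : ℤ) • d + (v' + v') := by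
          rw [← hv', ← hv]
          simp only [LinearMap.sub_apply, Module.End.one_apply, LinearMap.add_apply,
            LinearMap.smul_apply, map_add, map_zsmul]
          rw [← hd, ← hy0]
          abel
        rw [h8, hb]
        push_cast
        module
      rw [h7]
      have h9 := h3.add hL (rep_double (-(v' + ((b * c : ℕ) : ℤ) • d)))
      have h10 : (((fW X φ hL ^ N) y0 - y0 + (-(v' + ((b * c : ℕ) : ℤ) • d) +
          -(v' + ((b * c : ℕ) : ℤ) • d)) : Wg X hL φ) : Q A H) =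
          (cjQ A H (φ ^ N) (y0 : Q A H) - (y0 : Q A H)) +
            ((-(v' + ((b * c : ℕ) : ℤ) • d) + -(v' + ((b * c : ℕ) : ℤ) • d) : Wg X hL φ) : Q A H) := by
        rw [AddSubgroup.coe_add, AddSubgroup.coe_sub, coe_fW_pow]
      rw [h10]
      exact h9.congr hL (Eqv.of_eq fun σ _ => by simp)
  exact hform z z' y a a' hz.1 hz'.1 hy ha ha'
    (fun σ hσ => by rw [← h1 σ hσ]; abel) (fun σ hσ => by rw [← h2 σ hσ]; abel)

end

end Pool.Agent.Lib.MP_89bcae_ag.Inf
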