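import Mathlib
import Pool.Agent.Lib.MP_89bcae_ag.InfF8

/-!
# One layer of the tower: the final argument
-/

namespace Pool.Agent.Lib.MP_89bcae_ag.Inf

set_option linter.unusedSectionVars false

open PoolMP89Grad8

section Alg

variable {W : Type*} [AddCommGroup W] {τ U V f : Module.End ℤ W} {k : ℕ}

/-- `V` preserves `π W`. -/
lemma V_O (htf : ∀ w : W, w + w = 0 → w = 0) (hk : 1 ≤ k) (hτ : τ ^ (2 ^ k) = -1) {u : ℕ}
    (hu : Odd u) (hU : U * τ = τ ^ u * U) (hV : U = 1 + (1 - τ) * V) {w : W} (hw : O τ 1 w) :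
    O τ 1 (V w) := by
  obtain ⟨w', rfl⟩ := hw
  obtain ⟨c, rfl⟩ := hu
  have h1 := sy_U hk hτ hU hV 1 w'
  have h2 : (U - 1) (((1 - τ : Module.End ℤ W) ^ 1) w') = ((1 - τ : Module.End ℤ W) ^ 1) (V (((1 - τ : Module.End ℤ W) ^ 1) w')) := by
    have := congrArg (fun f : Module.End ℤ W => f (((1 - τ : Module.End ℤ W) ^ 1) w')) hV
    simp only [LinearMap.add_apply, Module.End.one_apply, Module.End.mul_apply] at this
    rw [LinearMap.sub_apply, this, Module.End.one_apply, pow_one]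
    abel
  rw [h2] at h1
  have h3 : O τ (1 + 1) (((1 - τ : Module.End ℤ W) ^ 1) (V (((1 - τ : Module.End ℤ W) ^ 1) w'))) := by
    have h5 := (h1.mono (show 1 + 1 ≤ 1 + 1 + 1 by omega)).add
      (O.self (τ := τ) (1 + 1) ((V + ((1 * c : ℕ) : ℤ) • 1) w'))
    simpa using h5
  exact O.of_pi htf hτ h3

/-- `V` commutes with `f` modulo `π W`. -/
lemma V_comm (htf : ∀ w : W, w + w = 0 → w = 0) (hk : 1 ≤ k) (hτ : τ ^ (2 ^ k) = -1) {u : ℕ}
    (hu : Odd u) (hf : f * τ = τ ^ u * f) (hUf : U * f = f * U) (hV : U = 1 + (1 - τ) * V) (w : W) :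
    O τ 1 (V (f w) - f (V w)) := by
  have h0 : ∀ x, U x - x = ((1 - τ : Module.End ℤ W) ^ 1) (V x) := by
    intro x
    have := congrArg (fun f : Module.End ℤ W => f x) hV
    simp only [LinearMap.add_apply, Module.End.one_apply, Module.End.mul_apply] at this
    rw [this, pow_one]
    abel
  have h1 : ((1 - τ : Module.End ℤ W) ^ 1) (V (f w)) = f (((1 - τ : Module.End ℤ W) ^ 1) (V w)) := by
    rw [← h0, ← h0, map_sub]
    congr 1
    have := congrArg (fun f : Module.End ℤ W => f w) hUf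
    simpa [Module.End.mul_apply] using this
  have h2 := comm_mod hk hτ hu hf 1 (V w)
  rw [← h1, ← map_sub] at h2
  exact O.of_pi htf hτ h2

lemma O_f (hk : 1 ≤ k) (hτ : τ ^ (2 ^ k) = -1) {u : ℕ}
    (hu : Odd u) (hf : f * τ = τ ^ u * f) {w : W} (hw : O τ 1 w) : O τ 1 (f w) := by
  obtain ⟨w', rfl⟩ := hw
  have h2 := (comm_mod hk hτ hu hf 1 w').mono (show 1 ≤ 1 + 1 by omega)
  have h3 := h2.add (O.self (τ := τ) 1 (f w'))
  simpa using h3

end Alg

section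

variable {j : ℕ}

/-- The inverse shift. -/
def S8 (N : ℕ) : (ZMod N → ZMod 2) →+ (ZMod N → ZMod 2) where
  toFun z i := z (i - 1)
  map_zero' := rfl
  map_add' _ _ := rfl

lemma S8_iterate {N : ℕ} (m : ℕ) (z : ZMod N → ZMod 2) (i : ZMod N) :
    ((S8 N)^[m]) z i = z (i - m) := by
  induction m generalizing i with
  | zero => simp
  | succ m ih =>
    rw [Function.iterate_succ_apply']
    change ((S8 N)^[m]) z (i - 1) = _
    rw [ih]
    congr 1
    push_cast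
    ring

lemma S8_period {N : ℕ} (z : ZMod N → ZMod 2) : ((S8 N)^[N]) z = z := by
  funext i
  rw [S8_iterate, ZMod.natCast_self, sub_zero]

/-- A nonzero additive subgroup stable under the inverse shift is everything. -/
lemma mem_of_stable {P : (ZMod (3 * 3 ^ j) → ZMod 2) → Prop}
    (hadd : ∀ a b, P a → P b → P (a + b)) (hS : ∀ a, P a → P (S8 _ a))
    (heven : ∀ a, P a → a ∈ even8 (3 * 3 ^ j) (3 ^ j)) {a₀ : ZMod (3 * 3 ^ j) → ZMod 2} (h0 : P a₀)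
    (hne : a₀ ≠ 0) {b : ZMod (3 * 3 ^ j) → ZMod 2} (hb : b ∈ even8 (3 * 3 ^ j) (3 ^ j)) : P b := by
  have hzero : P 0 := by
    have := hadd a₀ a₀ h0 h0
    have h2 : a₀ + a₀ = 0 := by funext i; exact CharTwo.add_self_eq_zero _
    rwa [h2] at this
  let W : Submodule (ZMod 2) (ZMod (3 * 3 ^ j) → ZMod 2) :=
    { carrier := {a | P a}
      zero_mem' := hzero
      add_mem' := fun ha hb => hadd _ _ ha hb
      smul_mem' := by
        intro c a ha
        have hc : c = 0 ∨ c = 1 := by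
          revert c; decide
        rcases hc with rfl | rfl
        · rw [zero_smul]; exact hzero
        · rw [one_smul]; exact ha }
  have hiter : ∀ m (a : ZMod (3 * 3 ^ j) → ZMod 2), P a → P (((S8 _)^[m]) a) := by
    intro m
    induction m with
    | zero => intro a ha; exact ha
    | succ m ih => intro a ha; rw [Function.iterate_succ_apply']; exact hS _ (ih a ha)
  have hW := eq_even8 (j := j) (W := W) heven (by
    intro z hz
    have h1 := hiter (3 * 3 ^ j - 1) z hz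
    have h2 : ((S8 (3 * 3 ^ j))^[3 * 3 ^ j - 1]) z = shift8 _ z := by
      funext i
      rw [S8_iterate, shift8_apply]
      congr 1
      have h3 : 1 ≤ 3 * 3 ^ j := by have : 0 < 3 ^ j := by positivity
                                    omega
      rw [Nat.cast_sub h3, ZMod.natCast_self]
      ring
    change P _
    rw [← h2]
    exact h1) (by
    intro h1
    apply hne
    have h2 : a₀ ∈ W := h0
    rw [h1] at h2
    exact (Submodule.mem_bot _).mp h2)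
  have : b ∈ W := by rw [hW]; exact hb
  exact this

variable {Γ A X : Type*} [Group Γ] [AddCommGroup A] [DistribMulAction Γ A] [MulAction Γ X]
  {H H' H1 G : Subgroup Γ} [H.Normal] [H'.Normal] [H1.Normal] [G.Normal] {τ φ : Γ}
  {k q : ℕ} {Loc Loc' : (Γ → A) → Prop} {hL : LocAx H Loc} {hL' : LocAx H' Loc'}
  {dv : (Γ → A) → (ZMod (3 * 3 ^ j) → ZMod 2)}

/-- **Vanishing of the Tate classes of one layer.** -/
theorem Wg_eq_zero (hT : Tw X H H' H1 G τ φ k q)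
    (hA : ∀ a : A, 2 • a = 0 → (∀ σ ∈ H, σ • a = a) → a = 0) (hk : 1 ≤ k)
    (hLoc : ∀ d : ℕ → Γ → A, TCo X H' d → (∀ n, Loc (d n)) → ∀ n, Loc' (d n))
    (hW' : ∀ y ∈ Wg X hL' φ, y = 0)
    (hdiv : ∀ P : A, ∃ Q, Q + Q = P) (hsm : ∀ a : A, Sm X H (cob a : Γ → A))
    (hD : DvAx X G Loc φ (S8 (3 * 3 ^ j)) dv)
    (heven : ∀ z, Adm X G Loc z → dv z ∈ even8 (3 * 3 ^ j) (3 ^ j))
    (hform : ∀ (z z' y : Γ → A) (a a' : A), Adm X G Loc z → Adm X G Loc z' → Adm X H1 Loc y →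
      2 • a = 0 → 2 • a' = 0 → (∀ σ ∈ H1, y σ - cj τ y σ = z σ + cob a σ) →
      (∀ σ ∈ H1, cj (φ ^ (3 * 3 ^ j)) y σ - y σ = z' σ + cob a' σ) → dv z = pair8 (3 ^ j) →
      ¬ ∀ i : ZMod (3 * 3 ^ j), i ≠ 0 → i ≠ (3 ^ j : ℕ) → i ≠ (2 * 3 ^ j : ℕ) → dv z' i = 0)
    {x : Q A H} (hx : x ∈ Wg X hL φ) : x = 0 := by
  have hn0 : 0 < 3 ^ j := by positivity
  have hτ : tW hT hL ^ (2 ^ k) = -1 := by
    apply LinearMap.ext
    intro y
    apply Subtype.ext
    have h1 := hT.trace (hL := hL) (hL' := hL') hA hLoc hW' y.2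
    rw [coe_tW_pow]
    change _ = -(y : Q A H)
    exact (neg_eq_of_add_eq_zero_right h1).symm
  have hM : ∀ m : ZMod (3 * 3 ^ j) → ZMod 2, m + m = 0 := fun m => by
    funext i; exact CharTwo.add_self_eq_zero _
  have htf := W_torsion (X := X) (hL := hL) (φ := φ) hA
  obtain ⟨V, hV⟩ := exists_V hT hA hk hτ hD hM hdiv hsm (N := 3 * 3 ^ j) (fun m => S8_period m)
  set ϕ := phi hT hA hk hτ dv with hϕ
  have hϕadd : ∀ a b, ϕ (a + b) = ϕ a + ϕ b := phi_add hT hA hk hτ hD hM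
  have hϕ0 : ∀ a, ϕ a = 0 ↔ O (tW hT hL) 1 a := phi_eq_zero_iff hT hA hk hτ hD hM hdiv hsm
  have hϕf : ∀ a, ϕ (fW X φ hL a) = S8 _ (ϕ a) := phi_fW hT hA hk hτ hD hM
  have hϕeven : ∀ a, ϕ a ∈ even8 (3 * 3 ^ j) (3 ^ j) := by
    intro a
    obtain ⟨z, hz⟩ := exists_Ph hT hA hk hτ a
    rw [hϕ, phi_eq hT hA hk hτ hD hM hz]
    exact heven z hz.1
  have hϕcong : ∀ a b, O (tW hT hL) 1 (a - b) → ϕ a = ϕ b := by
    intro a b hab
    have h1 := (hϕ0 _).mpr hab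
    rw [hϕ, phi_sub hT hA hk hτ hD hM, ← hϕ] at h1
    have h2 := eq_neg_of_add_eq_zero_left h1
    rw [h2]
    exact neg_eq_of_add_eq_zero_left (hM _)
  have hfo : Odd (q ^ 1) := hT.odd.pow
  have hft : fW X φ hL * tW hT hL = tW hT hL ^ (q ^ 1) * fW X φ hL := by
    have := f_pow_t (hL := hL) hT 1
    simpa using this
  have hUo : Odd (q ^ (3 * 3 ^ j)) := hT.odd.pow
  have hUt := f_pow_t (hL := hL) hT (3 * 3 ^ j)
  have hVO : ∀ w, O (tW hT hL) 1 w → O (tW hT hL) 1 (V w) := fun w hw =>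
    V_O htf hk hτ hUo hUt hV hw
  have hVf : ∀ w, O (tW hT hL) 1 (V (fW X φ hL w) - fW X φ hL (V w)) := fun w =>
    V_comm htf hk hτ hfo hft (by rw [← pow_succ, pow_succ']) hV w
  have hϕVf : ∀ w, ϕ (V (fW X φ hL w)) = S8 _ (ϕ (V w)) := by
    intro w
    rw [hϕcong _ _ (hVf w), hϕf]
  -- the formula
  have hF : ∀ w, ϕ w = pair8 (3 ^ j) →
      ¬ ∀ i : ZMod (3 * 3 ^ j), i ≠ 0 → i ≠ (3 ^ j : ℕ) → i ≠ (2 * 3 ^ j : ℕ) → ϕ (V w) i = 0 :=
    phi_V hT hA hk hτ hD hM (Fm := fun ζ ζ' => ζ = pair8 (3 ^ j) →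
      ¬ ∀ i : ZMod (3 * 3 ^ j), i ≠ 0 → i ≠ (3 ^ j : ℕ) → i ≠ (2 * 3 ^ j : ℕ) → ζ' i = 0) hform hV
  have hpair : pair8 (3 ^ j) ∈ even8 (3 * 3 ^ j) (3 ^ j) := pair8_mem hn0
  -- a general consequence
  have key : ∀ c : (Wg X hL φ) → (ZMod (3 * 3 ^ j) → ZMod 2), (∀ a b, c (a + b) = c a + c b) →
      (∀ a, c (fW X φ hL a) = S8 _ (c a)) → ∀ w, c w = 0 → ϕ w ≠ 0 →
      ∀ ζ ∈ even8 (3 * 3 ^ j) (3 ^ j), ∃ w', ϕ w' = ζ ∧ c w' = 0 := by
    intro c hc hcf w hw hϕw ζ hζ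
    apply mem_of_stable (P := fun ζ => ∃ w', ϕ w' = ζ ∧ c w' = 0) (a₀ := ϕ w) _ _ _ ⟨w, rfl, hw⟩ hϕw hζ
    · rintro _ _ ⟨a, rfl, ha⟩ ⟨b, rfl, hb⟩
      exact ⟨a + b, hϕadd a b, by rw [hc, ha, hb, add_zero]⟩
    · rintro _ ⟨a, rfl, ha⟩
      exact ⟨fW X φ hL a, hϕf a, by rw [hcf, ha, map_zero]⟩
    · rintro _ ⟨a, rfl, -⟩
      exact hϕeven a
  have hpair0 : ∀ i : ZMod (3 * 3 ^ j), i ≠ 0 → i ≠ (3 ^ j : ℕ) → pair8 (3 ^ j) i = 0 := by
    intro i h1 h2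
    exact if_neg (by rintro (h | h); exacts [h1 h, h2 h])
  have hInj0 : Inj (tW hT hL) V := by
    intro w hw hVw
    obtain ⟨w', h1, h2⟩ := key (fun w => ϕ (V w)) (fun a b => by rw [map_add, hϕadd]) hϕVf w
      ((hϕ0 _).mpr hVw) (fun h => hw ((hϕ0 _).mp h)) _ hpair
    exact hF w' h1 (fun i _ _ _ => by rw [h2]; rfl)
  have hInj1 : Inj (tW hT hL) (V + 1) := by
    intro w hw hVw
    obtain ⟨w', h1, h2⟩ := key (fun w => ϕ (V w) + ϕ w) (fun a b => by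
      rw [map_add, hϕadd, hϕadd]; abel) (fun a => by rw [hϕVf, hϕf, map_add]) w (by
        rw [← hϕadd]
        exact (hϕ0 _).mpr hVw) (fun h => hw ((hϕ0 _).mp h)) _ hpair
    refine hF w' h1 (fun i hi0 hi1 _ => ?_)
    have h3 := congrFun h2 i
    rw [Pi.add_apply, h1, hpair0 i hi0 hi1, add_zero] at h3
    exact h3
  have hInj2 : Inj (tW hT hL) (V * V + V + 1) := by
    intro w₀ hw₀ hVw
    -- `ϕ (V ^ 2 w + V w + w) = 0` for every `w`
    have hall : ∀ w, ϕ (V (V w)) + ϕ (V w) + ϕ w = 0 := by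
      intro w
      obtain ⟨w', h1, h2⟩ := key (fun w => ϕ (V (V w)) + ϕ (V w) + ϕ w) (fun a b => by
        rw [map_add, map_add, hϕadd, hϕadd, hϕadd]; abel) (fun a => by
          have h3 : ϕ (V (V (fW X φ hL a))) = S8 _ (ϕ (V (V a))) := by
            rw [← hϕVf]
            apply hϕcong
            rw [← map_sub]
            exact hVO _ (hVf a)
          rw [h3, hϕVf, hϕf, map_add, map_add]) w₀ (by
            rw [← hϕadd, ← hϕadd]
            exact (hϕ0 _).mpr hVw) (fun h => hw₀ ((hϕ0 _).mp h)) _ (hϕeven w)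
      have h4 : O (tW hT hL) 1 (w - w') := by
        rw [← hϕ0, hϕ, phi_sub hT hA hk hτ hD hM, ← hϕ, h1, hM]
      have h5 : ϕ (V w) = ϕ (V w') := hϕcong _ _ (by rw [← map_sub]; exact hVO _ h4)
      have h6 : ϕ (V (V w)) = ϕ (V (V w')) := hϕcong _ _ (by
        rw [← map_sub, ← map_sub]; exact hVO _ (hVO _ h4))
      rw [h5, h6, ← h1]
      exact h2
    have hϕfm : ∀ (m : ℕ) a, ϕ ((fW X φ hL ^ m) a) = ((S8 (3 * 3 ^ j))^[m]) (ϕ a) := by
      intro m a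
      exact phi_fW_pow hT hA hk hτ hD hM a m
    have hϕVfm : ∀ (m : ℕ) a, ϕ (V ((fW X φ hL ^ m) a)) = ((S8 (3 * 3 ^ j))^[m]) (ϕ (V a)) := by
      intro m
      induction m with
      | zero => intro a; rfl
      | succ m ih =>
        intro a
        rw [pow_succ', Module.End.mul_apply, hϕVf, ih, Function.iterate_succ_apply']
    -- the two eigenvalues
    have hsupp : ∀ m : ℕ, m = (3 ^ j) ∨ m = 2 * 3 ^ j → ∀ i : ZMod (3 * 3 ^ j), i ≠ 0 → i ≠ ((3 ^ j : ℕ) : ZMod (3 * 3 ^ j)) →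
        i ≠ (2 * 3 ^ j : ℕ) → ((S8 (3 * 3 ^ j))^[m]) (pair8 (3 ^ j)) i = 0 := by
      have h3n : ((3 * 3 ^ j : ℕ) : ZMod (3 * 3 ^ j)) = 0 := ZMod.natCast_self _
      intro m hm i hi0 hi1 hi2
      rw [S8_iterate]
      rcases hm with rfl | rfl
      · apply hpair0
        · exact fun h => hi1 (sub_eq_zero.mp h)
        · intro h
          apply hi2
          rw [sub_eq_iff_eq_add.mp h, two_mul, Nat.cast_add]
      · apply hpair0
        · exact fun h => hi2 (sub_eq_zero.mp h)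
        · intro h
          apply hi0
          rw [sub_eq_iff_eq_add.mp h, ← Nat.cast_add, ← h3n]
          congr 1
          ring
    have hcase : ∀ m : ℕ, m = (3 ^ j) ∨ m = 2 * 3 ^ j → ∀ w, ϕ (V w) + ((S8 (3 * 3 ^ j))^[m]) (ϕ w) = 0 →
        ϕ w = 0 := by
      intro m hm w hw
      by_contra hϕw
      obtain ⟨w', h1, h2⟩ := key (fun w => ϕ (V w) + ((S8 (3 * 3 ^ j))^[m]) (ϕ w)) (fun a b => by
        have h3 : ((S8 (3 * 3 ^ j))^[m]) (ϕ (a + b)) = ((S8 (3 * 3 ^ j))^[m]) (ϕ a) +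
            ((S8 (3 * 3 ^ j))^[m]) (ϕ b) := by
          rw [hϕadd]
          funext i
          rw [Pi.add_apply, S8_iterate, S8_iterate, S8_iterate, Pi.add_apply]
        rw [h3, map_add, hϕadd]; abel) (fun a => by
          rw [hϕVf, hϕf, map_add, ← Function.iterate_succ_apply, Function.iterate_succ_apply']) w hw
        hϕw _ hpair
      refine hF w' h1 (fun i hi0 hi1 hi2 => ?_)
      have h3 := congrFun h2 i
      rw [Pi.add_apply, h1, hsupp m hm i hi0 hi1 hi2, add_zero] at h3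
      exact h3
    have hϕw₀ : ϕ w₀ ≠ 0 := fun h => hw₀ ((hϕ0 _).mp h)
    set w₁ := V w₀ + (fW X φ hL ^ (3 ^ j)) w₀ with hw₁
    have h1 : ϕ w₁ = ϕ (V w₀) + ((S8 (3 * 3 ^ j))^[(3 ^ j)]) (ϕ w₀) := by
      rw [hw₁, hϕadd, hϕfm]
    have h2 : ϕ w₁ ≠ 0 := by
      intro h3
      rw [h1] at h3
      exact hϕw₀ (hcase (3 ^ j) (Or.inl rfl) w₀ h3)
    apply h2
    apply hcase (2 * 3 ^ j) (Or.inr rfl)
    rw [h1]
    have h3 : ϕ (V w₁) = ϕ (V (V w₀)) + ((S8 (3 * 3 ^ j))^[(3 ^ j)]) (ϕ (V w₀)) := by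
      rw [hw₁, map_add, hϕadd, hϕVfm]
    have h4 := hall w₀
    have h5 := hϕeven (V w₀)
    have h3n : ((3 * 3 ^ j : ℕ) : ZMod (3 * 3 ^ j)) = 0 := ZMod.natCast_self _
    rw [h3]
    funext i
    have h4' := congrFun h4 i
    simp only [Pi.add_apply, Pi.zero_apply] at h4'
    have h5' := h5 (i - (2 * 3 ^ j : ℕ))
    simp only [Pi.add_apply, Pi.zero_apply, S8_iterate]
    have e1 : i - (2 * 3 ^ j : ℕ) + (2 * 3 ^ j : ℕ) = i := by ring
    have e2 : i - ((2 * 3 ^ j : ℕ) : ZMod (3 * 3 ^ j)) + ((3 ^ j : ℕ) : ZMod (3 * 3 ^ j)) = i - ((3 ^ j : ℕ) : ZMod (3 * 3 ^ j)) := by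
      push_cast; ring
    have e3 : i - ((2 * 3 ^ j : ℕ) : ZMod (3 * 3 ^ j)) - ((3 ^ j : ℕ) : ZMod (3 * 3 ^ j)) = i := by
      have : ((2 * 3 ^ j : ℕ) : ZMod (3 * 3 ^ j)) + ((3 ^ j : ℕ) : ZMod (3 * 3 ^ j)) = 0 := by
        rw [← Nat.cast_add, ← h3n]; congr 1; ring
      rw [sub_sub, this, sub_zero]
    rw [e1, e2] at h5'
    rw [e3]
    have e4 : ϕ (V (V w₀)) i = ϕ (V w₀) i + ϕ w₀ i := by
      have : ϕ (V (V w₀)) i + (ϕ (V w₀) i + ϕ w₀ i) = 0 := by rw [← add_assoc]; exact h4'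
      exact CharTwo.add_eq_zero.mp this
    rw [e4]
    have e5 : ϕ w₀ i + ϕ w₀ i = 0 := CharTwo.add_self_eq_zero _
    linear_combination h5' + e5
  -- conclusion
  by_contra hx0
  have hw0 : (⟨x, hx⟩ : Wg X hL φ) ≠ 0 := fun h => hx0 (congrArg Subtype.val h)
  obtain ⟨-, Mx, hMx, hfix⟩ := id hx
  refine pow_apply_ne htf hk hτ hUo hUt hV ?_ hInj0 hInj1 hInj2 hMx hw0 ?_
  · -- the filtration is separated
    intro y hy
    have h1 : ∀ (n : ℕ) (z : Wg X hL φ), ∃ z', ((1 - tW hT hL : Module.End ℤ (Wg X hL φ)) ^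
        (2 ^ k * n)) z = 2 ^ n • z' := by
      intro n
      induction n with
      | zero => intro z; exact ⟨z, by simp⟩
      | succ n ih =>
        intro z
        obtain ⟨v, hv⟩ := exists_pi_e hk hτ z
        obtain ⟨z', hz'⟩ := ih v
        refine ⟨z', ?_⟩
        rw [Nat.mul_succ, pow_add, Module.End.mul_apply, hv, map_add, hz', pow_succ, mul_comm,
          mul_smul, two_nsmul]
    apply Subtype.ext
    apply ZQ_separated (X := X) hL
    intro n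
    obtain ⟨z, hz⟩ := hy (2 ^ k * n)
    obtain ⟨z', hz'⟩ := h1 n z
    refine ⟨z', z'.2.1, ?_⟩
    rw [hz, hz']
    rfl
  · apply Subtype.ext
    rw [← pow_mul, coe_fW_pow, mul_comm]
    exact Wg.fix_mul hfix _

end

end Pool.Agent.Lib.MP_89bcae_ag.Inf
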