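import Mathlib
import Pool.Agent.Lib.MP_89bcae_ag.Defs8

/-!
# Divisors of classes of the curves `D(t) y² = g(x) - t`

`k` is a field, `F` an algebraic closure of `k`, `L` the field of rational functions `F(t)` and
`Ω` a separable closure of `L`.
-/

open Polynomial WeierstrassCurve

open scoped Classical

namespace Pool.Agent.Lib.MP_89bcae_ag

universe u

/-- For a finite subset `Z` of `F` and `β' ∈ F`: the product of the differences `β' - β` over the
`β ∈ Z` with `g(β) ≠ g(β')`, multiplied by `-D'(g(β'))` if `β'` belongs to `Z`. -/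
noncomputable def PZ {F : Type*} [Field F] (g D : F[X]) (Z : Finset F) (β' : F) : F :=
  (∏ β ∈ Z.filter (fun β => g.eval β ≠ g.eval β'), (β' - β)) *
    if β' ∈ Z then -(derivative D).eval (g.eval β') else 1

section

variable {k F L Ω : Type u} [Field k] [Field F] [Algebra k F] [Field L] [Algebra F[X] L] [Field Ω]
  [Algebra L Ω]

/-- The set `Z` is the divisor of the point `P` of the curve `D(t) y² = g(x) - t` over `L = F(t)`:
either `P` is the origin and `Z` is empty, or the first coordinate of `P` (in terms of the
Weierstrass equation `twist g D`) is the fraction `A(t) / B(t)` and the rational function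
`A(g(x)) / B(g(x)) - D(g(x)) x` of `x` is a square times the product of the `x - β`, `β ∈ Z`. -/
inductive HasDivisor (g D : k[X]) :
    ((twist g D).map (base k F L L)).toAffine.Point → Finset F → Prop
  | zero : HasDivisor g D 0 ∅
  | some (x y : L) (h : ((twist g D).map (base k F L L)).toAffine.Nonsingular x y) (Z : Finset F)
      (A B p q : F[X]) (hB : B ≠ 0) (hq : q ≠ 0)
      (hx : x * algebraMap F[X] L B = algebraMap F[X] L A)
      (hZ : q ^ 2 * (B.comp (g.map (algebraMap k F)) * (A.comp (g.map (algebraMap k F)) -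
        X * (D.map (algebraMap k F)).comp (g.map (algebraMap k F)) *
          B.comp (g.map (algebraMap k F)))) = p ^ 2 * ∏ β ∈ Z, (X - C β)) :
    HasDivisor g D (.some x y h) Z

/-- The cocycle `c` is the Kummer cocycle (for multiplication by `2ⁿ`) of the point `P` over `L`:
there is a point `Q` over `Ω` with `2ⁿ Q = P` and `c σ = σ Q - Q`. -/
def IsKummerOf (W : WeierstrassCurve k[X])
    (c : (Ω ≃ₐ[L] Ω) → (W.map (base k F L Ω)).toAffine.Point) (n : ℕ)
    (P : (W.map (base k F L L)).toAffine.Point) : Prop :=
  ∃ P' Q : (W.map (base k F L Ω)).toAffine.Point, IsImage (algebraMap L Ω) P P' ∧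
    2 ^ n • Q = P' ∧ ∀ (σ : Ω ≃ₐ[L] Ω) (Q' : (W.map (base k F L Ω)).toAffine.Point),
      IsImage (σ : Ω →+* Ω) Q Q' → c σ = Q' - Q

end

end Pool.Agent.Lib.MP_89bcae_ag
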