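import Mathlib

/-!
# The 2-descent functions on `y² = x³ + a₂x² + a₄x + a₆`
-/

open Polynomial WeierstrassCurve

namespace Pool.Agent.Lib.MP_89bcae_ag

set_option linter.unusedSectionVars false

variable {K : Type*} [Field K] [DecidableEq K]

/-- The curve has the form `y² = x³ + a₂x² + a₄x + a₆`. -/
structure Short (W : WeierstrassCurve K) : Prop where
  a₁ : W.a₁ = 0
  a₃ : W.a₃ = 0

/-- `e` is a root of the cubic `x³ + a₂x² + a₄x + a₆`. -/
def Rt (W : WeierstrassCurve K) (e : K) : Prop := e ^ 3 + W.a₂ * e ^ 2 + W.a₄ * e + W.a₆ = 0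

/-- The function `ρ_e` with `ρ_e(P)² = x(2P) - e`; on `2`-torsion points it is a sign. -/
noncomputable def rho {W : WeierstrassCurve.Affine K} (e : K) : W.Point → K
  | .zero => 1
  | .some x y _ => if y = 0 then (if x = e then 1 else -1) else
      ((x - e) ^ 2 - (3 * e ^ 2 + 2 * W.a₂ * e + W.a₄)) / (2 * y)

variable {W : WeierstrassCurve.Affine K}

@[simp] lemma rho_zero (e : K) : rho e (0 : W.Point) = 1 := rfl

lemma rho_some (e : K) {x y : K} (h : W.Nonsingular x y) :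
    rho e (.some x y h) = if y = 0 then (if x = e then 1 else -1) else
      ((x - e) ^ 2 - (3 * e ^ 2 + 2 * W.a₂ * e + W.a₄)) / (2 * y) := rfl

lemma Short.equation (hW : Short W) {x y : K} (h : W.Equation x y) :
    y ^ 2 = x ^ 3 + W.a₂ * x ^ 2 + W.a₄ * x + W.a₆ := by
  rw [Affine.equation_iff, hW.a₁, hW.a₃] at h
  linear_combination h

lemma Short.negY (hW : Short W) (x y : K) : W.negY x y = -y := by
  simp [Affine.negY, hW.a₁, hW.a₃]

lemma add_self_eq_zero_iff (hW : Short W) (h2 : (2 : K) ≠ 0) {x y : K} (h : W.Nonsingular x y) :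
    (Affine.Point.some x y h + Affine.Point.some x y h = 0) ↔ y = 0 := by
  constructor
  · intro h0
    by_contra hy
    have hne : y ≠ W.negY x y := by
      rw [hW.negY]
      intro h1
      have : 2 * y = 0 := by linear_combination h1
      rcases mul_eq_zero.mp this with h3 | h3
      · exact h2 h3
      · exact hy h3
    rw [Affine.Point.add_self_of_Y_ne hne] at h0
    exact Affine.Point.some_ne_zero _ h0
  · intro hy
    apply Affine.Point.add_self_of_Y_eq
    rw [hW.negY, hy, neg_zero]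

lemma two_torsion_iff (hW : Short W) (h2 : (2 : K) ≠ 0) (P : W.Point) :
    2 • P = 0 ↔ P = 0 ∨ ∃ e h, Rt W e ∧ P = .some e 0 h := by
  rw [two_nsmul]
  rcases P with _ | ⟨x, y, h⟩
  · simp [← Affine.Point.zero_def]
  · rw [add_self_eq_zero_iff hW h2]
    constructor
    · intro hy
      subst hy
      right
      refine ⟨x, h, ?_, rfl⟩
      have := hW.equation h.1
      rw [Rt]
      linear_combination -this
    · rintro (h0 | ⟨e, h', he, h0⟩)
      · exact absurd h0 (Affine.Point.some_ne_zero _)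
      · simp only [Affine.Point.some.injEq] at h0
        exact h0.2

/-- `ρ_e(P)² = x(2P) - e`. -/
lemma rho_sq (hW : Short W) (h2 : (2 : K) ≠ 0) {e : K} (he : Rt W e) {x y : K}
    (h : W.Nonsingular x y) (hy : y ≠ 0) :
    rho e (.some x y h) ^ 2 = W.addX x x (W.slope x x y y) - e := by
  have hne : y ≠ W.negY x y := by
    rw [hW.negY]
    intro h1
    have : 2 * y = 0 := by linear_combination h1
    rcases mul_eq_zero.mp this with h3 | h3
    · exact h2 h3
    · exact hy h3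
  rw [rho_some, if_neg hy, Affine.addX, Affine.slope_of_Y_ne rfl hne, hW.negY, hW.a₁]
  have heq := hW.equation h.1
  unfold Rt at he
  have hyy : y - -y = 2 * y := by ring
  rw [hyy]
  field_simp
  simp only [mul_zero, add_zero, sub_zero]
  linear_combination (4 * W.a₂ + 8 * x + 4 * e) * heq + (4 * W.a₂ + 8 * x + 4 * e) * he

/-- The relation between two distinct roots. -/
lemma Rt.pair {e e' : K} (he : Rt W e) (he' : Rt W e') (hne : e ≠ e') :
    e ^ 2 + e * e' + e' ^ 2 + W.a₂ * (e + e') + W.a₄ = 0 := by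
  unfold Rt at he he'
  have h1 : (e - e') * (e ^ 2 + e * e' + e' ^ 2 + W.a₂ * (e + e') + W.a₄) = 0 := by
    linear_combination he - he'
  rcases mul_eq_zero.mp h1 with h | h
  · exact absurd (sub_eq_zero.mp h) hne
  · exact h

lemma rho_add_aux (hW : Short W) (h2 : (2 : K) ≠ 0) {e e' : K} (he : Rt W e) (he' : Rt W e')
    {x y : K} (h : W.Nonsingular x y) (hT : W.Nonsingular e' 0) (hd : 3 * e' ^ 2 + 2 * W.a₂ * e' + W.a₄ ≠ 0)
    (hy : y ≠ 0) :
    rho e (.some x y h + .some e' 0 hT) = rho e (.some x y h) * rho e (.some e' 0 hT) := by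
  have heq := hW.equation h.1
  have hx : x ≠ e' := by
    rintro rfl
    apply hy
    have : y ^ 2 = 0 := by rw [heq]; exact he'
    exact pow_eq_zero_iff (two_ne_zero) |>.mp this
  have hx' : x - e' ≠ 0 := sub_ne_zero.mpr hx
  have hq : (x - e') * ((x ^ 2 + x * e' + e' ^ 2) + W.a₂ * (x + e') + W.a₄) = y ^ 2 := by
    unfold Rt at he'
    linear_combination -heq - he'
  rw [Affine.Point.add_of_X_ne hx]
  set X := W.addX x e' (W.slope x e' y 0) with hX
  set Y := W.addY x e' y (W.slope x e' y 0) with hY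
  have hXe : X - e' = (3 * e' ^ 2 + 2 * W.a₂ * e' + W.a₄) / (x - e') := by
    rw [hX, Affine.addX, Affine.slope_of_X_ne hx, hW.a₁]
    unfold Rt at he'
    field_simp
    linear_combination heq + he'
  have hYe : Y = - y * (3 * e' ^ 2 + 2 * W.a₂ * e' + W.a₄) / (x - e') ^ 2 := by
    have h3 : Y = -(y / (x - e') * (X - e')) := by
      rw [hY, Affine.addY, Affine.negAddY, hW.negY, Affine.slope_of_X_ne hx, ← Affine.slope_of_X_ne hx, ← hX,
        Affine.slope_of_X_ne hx]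
      field_simp
      ring
    rw [h3, hXe]
    field_simp
  have hYne : Y ≠ 0 := by
    rw [hYe]
    apply div_ne_zero
    · exact mul_ne_zero (neg_ne_zero.mpr hy) hd
    · exact pow_ne_zero _ hx'
  rw [rho_some, rho_some, rho_some, if_neg hYne, if_neg hy, if_pos rfl]
  have hXe' : X - e = (3 * e' ^ 2 + 2 * W.a₂ * e' + W.a₄) / (x - e') + (e' - e) := by
    rw [← hXe]; ring
  rw [← hX, ← hY, hXe', hYe]
  by_cases hee : e' = e
  · subst hee
    rw [if_pos rfl]
    generalize 3 * e' ^ 2 + 2 * W.a₂ * e' + W.a₄ = d at hd ⊢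
    field_simp
    ring
  · rw [if_neg hee]
    have hpair := Rt.pair he he' (Ne.symm hee)
    obtain ⟨p, hp⟩ : ∃ p, p = e' - e := ⟨_, rfl⟩
    obtain ⟨v, hv⟩ : ∃ v, v = 2 * e' + e + W.a₂ := ⟨_, rfl⟩
    have hd' : 3 * e' ^ 2 + 2 * W.a₂ * e' + W.a₄ = p * v := by
      rw [hp, hv]; linear_combination hpair
    have hd'' : 3 * e ^ 2 + 2 * W.a₂ * e + W.a₄ = - p * (v - p) := by
      rw [hp, hv]; linear_combination hpair
    rw [hd'] at hd ⊢
    rw [hd'', ← hp]
    obtain ⟨h6, h7⟩ := mul_ne_zero_iff.mp hd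
    have hx3 : x - e = (x - e') + p := by rw [hp]; ring
    rw [hx3]
    generalize x - e' = u at hx' ⊢
    field_simp
    ring


lemma Short.deriv_ne (hW : Short W) {e : K} (h : W.Nonsingular e 0) :
    3 * e ^ 2 + 2 * W.a₂ * e + W.a₄ ≠ 0 := by
  have h' := (W.nonsingular_iff e 0).mp h
  rw [hW.a₁, hW.a₃] at h'
  intro h0
  rcases h'.2 with h1 | h1
  · apply h1; linear_combination -h0
  · apply h1; ring

lemma Short.rt_of_nonsingular (hW : Short W) {e : K} (h : W.Nonsingular e 0) : Rt W e := by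
  have := hW.equation h.1
  rw [Rt]; linear_combination -this

lemma Short.nonsingular_of_rt (hW : Short W) {e : K} (he : Rt W e)
    (hd : 3 * e ^ 2 + 2 * W.a₂ * e + W.a₄ ≠ 0) : W.Nonsingular e 0 := by
  rw [W.nonsingular_iff e 0, Affine.equation_iff, hW.a₁, hW.a₃]
  refine ⟨?_, Or.inl ?_⟩
  · unfold Rt at he; linear_combination -he
  · intro h; apply hd; linear_combination -h

lemma add_two_torsion (hW : Short W) {e' e'' : K} (h' : W.Nonsingular e' 0)
    (h'' : W.Nonsingular e'' 0) (hne : e'' ≠ e') :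
    ∃ h, (Affine.Point.some e'' 0 h'' + Affine.Point.some e' 0 h') =
      Affine.Point.some (-W.a₂ - e' - e'') 0 h := by
  rw [Affine.Point.add_of_X_ne hne]
  have hs : W.slope e'' e' 0 0 = 0 := by
    rw [Affine.slope_of_X_ne hne]; simp
  have hX : W.addX e'' e' 0 = -W.a₂ - e' - e'' := by
    rw [Affine.addX]; ring
  have hY : W.addY e'' e' 0 0 = 0 := by
    rw [Affine.addY, Affine.negAddY, hW.negY]; ring
  refine ⟨?_, ?_⟩
  · have := Affine.nonsingular_add h'' h' (fun hxy => hne hxy.1)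
    rwa [hs, hX, hY] at this
  · simp only [hs, hX, hY]

lemma rho_two_torsion (e : K) {e' : K} (h : W.Nonsingular e' 0) :
    rho e (.some e' 0 h) = if e' = e then 1 else -1 := by
  rw [rho_some, if_pos rfl]

/-- `ρ_e(P + T) = ρ_e(P) ρ_e(T)` for `T ∈ W[2]`. -/
lemma rho_add (hW : Short W) (h2 : (2 : K) ≠ 0) {e : K} (he : Rt W e) (P T : W.Point)
    (hT : 2 • T = 0) : rho e (P + T) = rho e P * rho e T := by
  rcases (two_torsion_iff hW h2 T).mp hT with rfl | ⟨e', h', he', rfl⟩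
  · simp
  rcases P with _ | ⟨x, y, h⟩
  · rw [← Affine.Point.zero_def]; simp
  by_cases hy : y = 0
  · subst hy
    have hx : Rt W x := hW.rt_of_nonsingular h
    have hd' := hW.deriv_ne h'
    have hdx := hW.deriv_ne h
    by_cases hxe : x = e'
    · subst hxe
      have : (Affine.Point.some x 0 h + Affine.Point.some x 0 h' : W.Point) = 0 :=
        (add_self_eq_zero_iff hW h2 h).mpr rfl
      rw [this, rho_two_torsion, rho_zero]
      split_ifs <;> ring
    · obtain ⟨h3, h4⟩ := add_two_torsion hW h' h hxe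
      rw [h4, rho_two_torsion, rho_two_torsion, rho_two_torsion]
      have hpair := Rt.pair hx he' hxe
      have hxe0 : x - e' ≠ 0 := sub_ne_zero.mpr hxe
      by_cases h5 : e' = e
      · subst h5
        rw [if_pos rfl, if_neg hxe, if_neg]
        · ring
        intro h6
        apply hd'
        linear_combination hpair - (e' - x) * h6
      · by_cases h6 : x = e
        · subst h6
          rw [if_neg h5, if_pos rfl, if_neg]
          · ring
          intro h7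
          apply hdx
          linear_combination hpair - (x - e') * h7
        · rw [if_neg h5, if_neg h6, if_pos]
          · ring
          have hpair' := Rt.pair he he' (Ne.symm h5)
          have h7 : (e - x) * (e + x + e' + W.a₂) = 0 := by linear_combination hpair' - hpair
          rcases mul_eq_zero.mp h7 with h8 | h8
          · exact absurd (sub_eq_zero.mp h8).symm h6
          · linear_combination -h8
  · exact rho_add_aux hW h2 he he' h h' (hW.deriv_ne h') hy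


lemma rho_two_torsion_sq (hW : Short W) (h2 : (2 : K) ≠ 0) (e : K) {T : W.Point} (hT : 2 • T = 0) :
    rho e T = 1 ∨ rho e T = -1 := by
  rcases (two_torsion_iff hW h2 T).mp hT with rfl | ⟨e', h', he', rfl⟩
  · left; simp
  · rw [rho_two_torsion]
    split_ifs
    · left; rfl
    · right; rfl

lemma rho_two_torsion_mul_self (hW : Short W) (h2 : (2 : K) ≠ 0) (e : K) {T : W.Point}
    (hT : 2 • T = 0) : rho e T * rho e T = 1 := by
  rcases rho_two_torsion_sq hW h2 e hT with h | h <;> rw [h] <;> ring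

/-- A cubic with three distinct roots has no other root. -/
lemma Rt.mem_of_three {e₁ e₂ e₃ e : K} (h₁ : Rt W e₁) (h₂ : Rt W e₂) (h₃ : Rt W e₃)
    (h₁₂ : e₁ ≠ e₂) (h₁₃ : e₁ ≠ e₃) (h₂₃ : e₂ ≠ e₃) (he : Rt W e) : e = e₁ ∨ e = e₂ ∨ e = e₃ := by
  by_contra hcon
  push Not at hcon
  obtain ⟨n1, n2, n3⟩ := hcon
  have p12 := Rt.pair h₁ h₂ h₁₂
  have p13 := Rt.pair h₁ h₃ h₁₃
  have p1 := Rt.pair h₁ he (Ne.symm n1)
  have q3 : (e₂ - e₃) * (e₁ + e₂ + e₃ + W.a₂) = 0 := by linear_combination p12 - p13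
  have q4 : (e₂ - e) * (e₁ + e₂ + e + W.a₂) = 0 := by linear_combination p12 - p1
  have q3' := (mul_eq_zero.mp q3).resolve_left (sub_ne_zero.mpr h₂₃)
  have q4' := (mul_eq_zero.mp q4).resolve_left (sub_ne_zero.mpr (Ne.symm n2))
  apply n3
  linear_combination q4' - q3'

lemma prod_rho (hW : Short W) (h2 : (2 : K) ≠ 0) {e₁ e₂ e₃ : K} (h₁ : Rt W e₁) (h₂ : Rt W e₂)
    (h₃ : Rt W e₃) (h₁₂ : e₁ ≠ e₂) (h₁₃ : e₁ ≠ e₃) (h₂₃ : e₂ ≠ e₃) {T : W.Point} (hT : 2 • T = 0) :
    rho e₁ T * rho e₂ T * rho e₃ T = 1 := by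
  rcases (two_torsion_iff hW h2 T).mp hT with rfl | ⟨e', h', he', rfl⟩
  · simp
  · rw [rho_two_torsion, rho_two_torsion, rho_two_torsion]
    rcases Rt.mem_of_three h₁ h₂ h₃ h₁₂ h₁₃ h₂₃ he' with rfl | rfl | rfl
    · rw [if_pos rfl, if_neg h₁₂, if_neg h₁₃]; ring
    · rw [if_pos rfl, if_neg (Ne.symm h₁₂), if_neg h₂₃]; ring
    · rw [if_pos rfl, if_neg (Ne.symm h₁₃), if_neg (Ne.symm h₂₃)]; ring

lemma eq_zero_of_rho_eq_one (hW : Short W) (h2 : (2 : K) ≠ 0) {e₁ e₂ : K} (h₁₂ : e₁ ≠ e₂)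
    {T : W.Point} (hT : 2 • T = 0) (r1 : rho e₁ T = 1) (r2 : rho e₂ T = 1) : T = 0 := by
  rcases (two_torsion_iff hW h2 T).mp hT with rfl | ⟨e', h', he', rfl⟩
  · rfl
  · exfalso
    rw [rho_two_torsion] at r1 r2
    have hm : (-1 : K) ≠ 1 := by
      intro h; apply h2; linear_combination -h
    by_cases h1 : e' = e₁
    · by_cases h2' : e' = e₂
      · exact h₁₂ (h1 ▸ h2')
      · rw [if_neg h2'] at r2; exact hm r2
    · rw [if_neg h1] at r1; exact hm r1

/-- Existence of a 2-torsion point with prescribed signs. -/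
lemma exists_two_torsion (hW : Short W) (h2 : (2 : K) ≠ 0) {e₁ e₂ e₃ : K} (h₁ : Rt W e₁)
    (h₂ : Rt W e₂) (h₃ : Rt W e₃) (h₁₂ : e₁ ≠ e₂) (h₁₃ : e₁ ≠ e₃) (h₂₃ : e₂ ≠ e₃)
    (s₁ s₂ s₃ : K) (hs₁ : s₁ = 1 ∨ s₁ = -1) (hs₂ : s₂ = 1 ∨ s₂ = -1) (hs₃ : s₃ = 1 ∨ s₃ = -1)
    (hs : s₁ * s₂ * s₃ = 1) :
    ∃ T : W.Point, 2 • T = 0 ∧ rho e₁ T = s₁ ∧ rho e₂ T = s₂ ∧ rho e₃ T = s₃ := by
  have hm : (-1 : K) ≠ 1 := by
    intro h; apply h2; linear_combination -h
  have p12 := Rt.pair h₁ h₂ h₁₂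
  have p13 := Rt.pair h₁ h₃ h₁₃
  have p23 := Rt.pair h₂ h₃ h₂₃
  have q3 : (e₂ - e₃) * (e₁ + e₂ + e₃ + W.a₂) = 0 := by linear_combination p12 - p13
  have q := (mul_eq_zero.mp q3).resolve_left (sub_ne_zero.mpr h₂₃)
  have n12 := sub_ne_zero.mpr h₁₂
  have n13 := sub_ne_zero.mpr h₁₃
  have n23 := sub_ne_zero.mpr h₂₃
  have n32 : e₃ - e₂ ≠ 0 := sub_ne_zero.mpr (Ne.symm h₂₃)
  have n21 : e₂ - e₁ ≠ 0 := sub_ne_zero.mpr (Ne.symm h₁₂)
  have n31 : e₃ - e₁ ≠ 0 := sub_ne_zero.mpr (Ne.symm h₁₃)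
  have d1 : 3 * e₁ ^ 2 + 2 * W.a₂ * e₁ + W.a₄ ≠ 0 := by
    have : 3 * e₁ ^ 2 + 2 * W.a₂ * e₁ + W.a₄ = (e₁ - e₂) * (e₁ - e₃) := by
      linear_combination p12 + (e₁ - e₂) * q
    rw [this]; exact mul_ne_zero n12 n13
  have d2 : 3 * e₂ ^ 2 + 2 * W.a₂ * e₂ + W.a₄ ≠ 0 := by
    have : 3 * e₂ ^ 2 + 2 * W.a₂ * e₂ + W.a₄ = (e₂ - e₁) * (e₂ - e₃) := by
      linear_combination p12 + (e₂ - e₁) * q
    rw [this]; exact mul_ne_zero n21 n23
  have d3 : 3 * e₃ ^ 2 + 2 * W.a₂ * e₃ + W.a₄ ≠ 0 := by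
    have : 3 * e₃ ^ 2 + 2 * W.a₂ * e₃ + W.a₄ = (e₃ - e₁) * (e₃ - e₂) := by
      linear_combination p13 + (e₃ - e₁) * q
    rw [this]; exact mul_ne_zero n31 n32
  have ns1 := hW.nonsingular_of_rt h₁ d1
  have ns2 := hW.nonsingular_of_rt h₂ d2
  have ns3 := hW.nonsingular_of_rt h₃ d3
  have t : ∀ {e : K} (h : W.Nonsingular e 0), 2 • (Affine.Point.some e 0 h : W.Point) = 0 := by
    intro e h; rw [two_nsmul]; exact (add_self_eq_zero_iff hW h2 h).mpr rfl
  rcases hs₁ with rfl | rfl <;> rcases hs₂ with rfl | rfl <;> rcases hs₃ with rfl | rfl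
  · exact ⟨0, by simp, rfl, rfl, rfl⟩
  · exfalso; apply hm; linear_combination hs
  · exfalso; apply hm; linear_combination hs
  · exact ⟨_, t ns1, by rw [rho_two_torsion, if_pos rfl], by rw [rho_two_torsion, if_neg h₁₂],
      by rw [rho_two_torsion, if_neg h₁₃]⟩
  · exfalso; apply hm; linear_combination hs
  · exact ⟨_, t ns2, by rw [rho_two_torsion, if_neg (Ne.symm h₁₂)],
      by rw [rho_two_torsion, if_pos rfl], by rw [rho_two_torsion, if_neg h₂₃]⟩
  · exact ⟨_, t ns3, by rw [rho_two_torsion, if_neg (Ne.symm h₁₃)],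
      by rw [rho_two_torsion, if_neg (Ne.symm h₂₃)], by rw [rho_two_torsion, if_pos rfl]⟩
  · exfalso; apply hm; linear_combination hs

/-- Halving of points when `x - eᵢ` are squares. -/
lemma exists_half (hW : Short W) (h2 : (2 : K) ≠ 0) (hsq : ∀ x : K, ∃ z, z ^ 2 = x)
    {e₁ e₂ e₃ : K} (h₁ : Rt W e₁)
    (h₂ : Rt W e₂) (h₃ : Rt W e₃) (h₁₂ : e₁ ≠ e₂) (h₁₃ : e₁ ≠ e₃) (h₂₃ : e₂ ≠ e₃)
    (P : W.Point) : ∃ Q : W.Point, 2 • Q = P := by
  rcases P with _ | ⟨x₀, y₀, h⟩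
  · exact ⟨0, by simp [← Affine.Point.zero_def]⟩
  have p12 := Rt.pair h₁ h₂ h₁₂
  have p13 := Rt.pair h₁ h₃ h₁₃
  have q3 : (e₂ - e₃) * (e₁ + e₂ + e₃ + W.a₂) = 0 := by linear_combination p12 - p13
  have q := (mul_eq_zero.mp q3).resolve_left (sub_ne_zero.mpr h₂₃)
  have ha2 : W.a₂ = -(e₁ + e₂ + e₃) := by linear_combination q
  have ha4 : W.a₄ = e₁ * e₂ + e₁ * e₃ + e₂ * e₃ := by
    linear_combination p12 - (e₁ + e₂) * q
  have ha6 : W.a₆ = -(e₁ * e₂ * e₃) := by
    unfold Rt at h₁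
    rw [ha2, ha4] at h₁
    linear_combination h₁
  have heq : y₀ ^ 2 = (x₀ - e₁) * (x₀ - e₂) * (x₀ - e₃) := by
    rw [hW.equation h.1, ha2, ha4, ha6]; ring
  obtain ⟨r₁, hr₁⟩ := hsq (x₀ - e₁)
  obtain ⟨r₂, hr₂⟩ := hsq (x₀ - e₂)
  obtain ⟨r₃', hr₃'⟩ := hsq (x₀ - e₃)
  -- choose the sign of `r₃` such that `r₁ r₂ r₃ = y₀`
  obtain ⟨r₃, hr₃, hy₀⟩ : ∃ r₃, r₃ ^ 2 = x₀ - e₃ ∧ y₀ = r₁ * r₂ * r₃ := by
    have h3 : (y₀ - r₁ * r₂ * r₃') * (y₀ + r₁ * r₂ * r₃') = 0 := by
      have : (r₁ * r₂ * r₃') ^ 2 = (x₀ - e₁) * (x₀ - e₂) * (x₀ - e₃) := by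
        rw [← hr₁, ← hr₂, ← hr₃']; ring
      linear_combination heq - this
    rcases mul_eq_zero.mp h3 with h4 | h4
    · exact ⟨r₃', hr₃', by linear_combination h4⟩
    · exact ⟨-r₃', by rw [neg_sq, hr₃'], by linear_combination h4⟩
  have e1 : e₁ = x₀ - r₁ ^ 2 := by rw [hr₁]; ring
  have e2 : e₂ = x₀ - r₂ ^ 2 := by rw [hr₂]; ring
  have e3 : e₃ = x₀ - r₃ ^ 2 := by rw [hr₃]; ring
  have n12 : r₁ + r₂ ≠ 0 := by
    intro h0; apply h₁₂; rw [e1, e2]; linear_combination (r₂ - r₁) * h0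
  have n13 : r₁ + r₃ ≠ 0 := by
    intro h0; apply h₁₃; rw [e1, e3]; linear_combination (r₃ - r₁) * h0
  have n23 : r₂ + r₃ ≠ 0 := by
    intro h0; apply h₂₃; rw [e2, e3]; linear_combination (r₃ - r₂) * h0
  set x := x₀ + r₁ * r₂ + r₁ * r₃ + r₂ * r₃ with hx
  set y := (r₁ + r₂) * (r₁ + r₃) * (r₂ + r₃) with hy
  have hyne : y ≠ 0 := mul_ne_zero (mul_ne_zero n12 n13) n23
  have hQ : W.Nonsingular x y := by
    rw [W.nonsingular_iff x y, Affine.equation_iff, hW.a₁, hW.a₃]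
    refine ⟨?_, Or.inr ?_⟩
    · rw [ha2, ha4, ha6, e1, e2, e3, hx, hy]; ring
    · intro h0; apply hyne
      have : 2 * y = 0 := by linear_combination h0
      exact (mul_eq_zero.mp this).resolve_left h2
  refine ⟨.some x y hQ, ?_⟩
  have hne : y ≠ W.negY x y := by
    rw [hW.negY]; intro h1
    have : 2 * y = 0 := by linear_combination h1
    exact hyne ((mul_eq_zero.mp this).resolve_left h2)
  have hslope : W.slope x x y y = r₁ + r₂ + r₃ := by
    rw [Affine.slope_of_Y_ne rfl hne, hW.negY, hW.a₁]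
    have : y - -y = 2 * y := by ring
    rw [this, div_eq_iff (mul_ne_zero h2 hyne), ha2, ha4, e1, e2, e3, hx, hy]
    ring
  have hX : W.addX x x (r₁ + r₂ + r₃) = x₀ := by
    rw [Affine.addX, hW.a₁, ha2, e1, e2, e3, hx]; ring
  have hY : W.addY x x y (r₁ + r₂ + r₃) = y₀ := by
    rw [Affine.addY, Affine.negAddY, hX, hW.negY, hy₀, hx, hy]; ring
  rw [two_nsmul, Affine.Point.add_self_of_Y_ne hne]
  simp only [hslope, hX, hY]

end Pool.Agent.Lib.MP_89bcae_ag

namespace Pool.Agent.Lib.MP_89bcae_ag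

section Map

open WeierstrassCurve

variable {R S : Type*} [CommRing R] [CommRing S] {A B : Type*} [Field A] [Field B] [DecidableEq A]
  [DecidableEq B] [Algebra R S] [Algebra R A] [Algebra S A] [IsScalarTower R S A] [Algebra R B]
  [Algebra S B] [IsScalarTower R S B] {W' : WeierstrassCurve.Affine R}

lemma rho_map (f : A →ₐ[S] B) (e : A) (P : (Affine.baseChange W' A).Point) :
    rho (f e) (Affine.Point.map (W' := W') f P) = f (rho e P) := by
  have hf : ∀ r : R, f (algebraMap R A r) = algebraMap R B r := by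
    intro r
    rw [IsScalarTower.algebraMap_apply R S A, AlgHom.commutes, ← IsScalarTower.algebraMap_apply]
  rcases P with _ | ⟨x, y, h⟩
  · exact (map_one f).symm
  · rw [Affine.Point.map_some, rho_some, rho_some]
    by_cases hy : y = 0
    · rw [if_pos hy, if_pos (by rw [hy, map_zero])]
      by_cases hx : x = e
      · rw [if_pos hx, if_pos (by rw [hx]), map_one]
      · have hx' : f x ≠ f e := fun h => hx (f.injective h)
        rw [if_neg hx, if_neg hx', map_neg, map_one]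
    · have hy' : f y ≠ 0 := fun h => hy ((map_eq_zero f).mp h)
      rw [if_neg hy, if_neg hy']
      simp only [map_div₀, map_sub, map_pow, map_add, map_mul, map_ofNat]
      simp [Affine.baseChange, WeierstrassCurve.baseChange, hf]

end Map

end Pool.Agent.Lib.MP_89bcae_ag
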