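import Mathlib

/-!
# Kummer theory for quadratic characters, and its version for a transitive set of roots
-/

namespace Pool.Agent.Lib.MP_89bcae_ag

variable {L Ω : Type*} [Field L] [Field Ω] [Algebra L Ω] [IsGalois L Ω]

/-- A continuous sign character on the stabiliser of `θ₀` comes from a Kummer generator. -/
lemma exists_kummer_gen (θ₀ : Ω) (χ : (Ω ≃ₐ[L] Ω) → Ω)
    (hsign : ∀ σ : Ω ≃ₐ[L] Ω, σ θ₀ = θ₀ → χ σ = 1 ∨ χ σ = -1)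
    (hmul : ∀ σ τ : Ω ≃ₐ[L] Ω, σ θ₀ = θ₀ → τ θ₀ = θ₀ → χ (σ * τ) = χ σ * χ τ)
    (hloc : IsLocallyConstant χ) :
    ∃ b : Ω, b ≠ 0 ∧ ∀ σ : Ω ≃ₐ[L] Ω, σ θ₀ = θ₀ → σ b = χ σ * b := by
  classical
  by_cases hneg1 : (-1 : Ω) = 1
  · refine ⟨1, one_ne_zero, fun σ hσ => ?_⟩
    rcases hsign σ hσ with h | h <;> simp [h, hneg1]
  by_cases htriv : ∀ σ : Ω ≃ₐ[L] Ω, σ θ₀ = θ₀ → χ σ = 1
  · exact ⟨1, one_ne_zero, fun σ hσ => by rw [htriv σ hσ, map_one, mul_one]⟩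
  push Not at htriv
  obtain ⟨σ₁, hσ₁, hχ₁⟩ := htriv
  have hχ₁' : χ σ₁ = -1 := (hsign σ₁ hσ₁).resolve_left hχ₁
  have hχone : χ 1 = 1 := by
    have h1 : (1 : Ω ≃ₐ[L] Ω) θ₀ = θ₀ := rfl
    have := hmul 1 1 h1 h1
    rw [mul_one] at this
    rcases hsign 1 h1 with h | h
    · exact h
    · rw [h] at this; exfalso; apply hneg1; rw [this]; ring
  have hinv : ∀ σ : Ω ≃ₐ[L] Ω, σ θ₀ = θ₀ → σ⁻¹ θ₀ = θ₀ := by
    intro σ hσ
    have : σ⁻¹ (σ θ₀) = θ₀ := σ.symm_apply_apply θ₀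
    rwa [hσ] at this
  have hχinv : ∀ σ : Ω ≃ₐ[L] Ω, σ θ₀ = θ₀ → χ σ⁻¹ = χ σ := by
    intro σ hσ
    have h := hmul σ σ⁻¹ hσ (hinv σ hσ)
    rw [mul_inv_cancel, hχone] at h
    rcases hsign σ hσ with h1 | h1 <;> rcases hsign σ⁻¹ (hinv σ hσ) with h2 | h2
    · rw [h1, h2]
    · rw [h1, h2] at h; exfalso; exact hneg1 (by linear_combination -h)
    · rw [h1, h2] at h; exfalso; exact hneg1 (by linear_combination -h)
    · rw [h1, h2]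
  -- the closed subgroup `H' = ker χ`
  let H' : Subgroup (Ω ≃ₐ[L] Ω) :=
    { carrier := {σ | σ θ₀ = θ₀ ∧ χ σ = 1}
      mul_mem' := by
        rintro a b ⟨ha, ha'⟩ ⟨hb, hb'⟩
        refine ⟨?_, ?_⟩
        · change a (b θ₀) = θ₀
          rw [hb, ha]
        · rw [hmul a b ha hb, ha', hb', mul_one]
      one_mem' := ⟨rfl, hχone⟩
      inv_mem' := by
        rintro a ⟨ha, ha'⟩
        exact ⟨hinv a ha, by rw [hχinv a ha, ha']⟩ }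
  have hH'closed : IsClosed (H' : Set (Ω ≃ₐ[L] Ω)) := by
    have h1 : IsClosed {σ : Ω ≃ₐ[L] Ω | σ θ₀ = θ₀} := by
      have h3 := InfiniteGalois.fixingSubgroup_isClosed (IntermediateField.adjoin L {θ₀})
      convert h3 using 1
      ext σ
      simp only [Set.mem_ofPred_eq, SetLike.mem_coe]
      rw [IntermediateField.mem_fixingSubgroup_iff]
      constructor
      · intro h x hx
        have : IntermediateField.adjoin L {θ₀} ≤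
            IntermediateField.fixedField (Subgroup.zpowers σ) := by
          rw [IntermediateField.adjoin_le_iff, Set.singleton_subset_iff]
          rw [SetLike.mem_coe, IntermediateField.mem_fixedField_iff]
          rintro f ⟨n, rfl⟩
          have hst : σ ∈ MulAction.stabilizer (Ω ≃ₐ[L] Ω) θ₀ := h
          exact (Subgroup.zpow_mem _ hst n)
        exact (IntermediateField.mem_fixedField_iff _ _).mp (this hx) σ (Subgroup.mem_zpowers σ)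
      · intro h
        exact h θ₀ (IntermediateField.mem_adjoin_simple_self L θ₀)
    have h2 : IsClosed {σ : Ω ≃ₐ[L] Ω | χ σ = 1} := (hloc.isClosed_fiber 1)
    exact h1.inter h2
  let H'c : ClosedSubgroup (Ω ≃ₐ[L] Ω) := ⟨H', hH'closed⟩
  have hnotmem : σ₁ ∉ H' := by
    rintro ⟨_, h⟩
    rw [hχ₁'] at h
    exact hneg1 h
  have hex : ∃ y ∈ IntermediateField.fixedField H', σ₁ y ≠ y := by
    by_contra hcon
    push Not at hcon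
    apply hnotmem
    have h4 := InfiniteGalois.fixingSubgroup_fixedField H'c
    have h5 : σ₁ ∈ (IntermediateField.fixedField H').fixingSubgroup := by
      rw [IntermediateField.mem_fixingSubgroup_iff]
      exact hcon
    have h6 : (IntermediateField.fixedField H').fixingSubgroup = H' := h4
    rwa [h6] at h5
  obtain ⟨y, hy, hσy⟩ := hex
  rw [IntermediateField.mem_fixedField_iff] at hy
  refine ⟨y - σ₁ y, sub_ne_zero.mpr (Ne.symm hσy), fun σ hσ => ?_⟩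
  have key : ∀ h ∈ H', h (σ₁ y) = σ₁ y := by
    rintro h ⟨hh, hh'⟩
    have hm : σ₁⁻¹ * h * σ₁ ∈ H' := by
      refine ⟨?_, ?_⟩
      · change σ₁⁻¹ (h (σ₁ θ₀)) = θ₀
        rw [hσ₁, hh, hinv σ₁ hσ₁]
      · have e1 : (σ₁⁻¹ * h) θ₀ = θ₀ := by
          change σ₁⁻¹ (h θ₀) = θ₀
          rw [hh, hinv σ₁ hσ₁]
        rw [hmul _ _ e1 hσ₁, hmul _ _ (hinv σ₁ hσ₁) hh, hχinv σ₁ hσ₁, hh', hχ₁']
        ring
    have := hy _ hm
    change σ₁⁻¹ (h (σ₁ y)) = y at this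
    have h7 : σ₁ (σ₁⁻¹ (h (σ₁ y))) = h (σ₁ y) := σ₁.apply_symm_apply _
    rw [← h7, this]
  rcases hsign σ hσ with h1 | h1
  · have hm : σ ∈ H' := ⟨hσ, h1⟩
    rw [map_sub, hy σ hm, key σ hm, h1, one_mul]
  · -- `σ = h σ₁` with `h ∈ H'`
    have hm : σ * σ₁⁻¹ ∈ H' := by
      refine ⟨?_, ?_⟩
      · change σ (σ₁⁻¹ θ₀) = θ₀
        rw [hinv σ₁ hσ₁, hσ]
      · rw [hmul _ _ hσ (hinv σ₁ hσ₁), h1, hχinv σ₁ hσ₁, hχ₁']; ring
    have hm2 : σ₁ * σ₁ ∈ H' := by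
      refine ⟨?_, ?_⟩
      · change σ₁ (σ₁ θ₀) = θ₀
        rw [hσ₁, hσ₁]
      · rw [hmul _ _ hσ₁ hσ₁, hχ₁']; ring
    have e1 : σ y = σ₁ y := by
      have h8 : (σ * σ₁⁻¹) (σ₁ y) = σ y := by
        change σ (σ₁⁻¹ (σ₁ y)) = σ y
        congr 1
        exact σ₁.symm_apply_apply y
      rw [← h8]
      exact key _ hm
    have e2 : σ (σ₁ y) = y := by
      have h8 : (σ * σ₁⁻¹) (σ₁ (σ₁ y)) = σ (σ₁ y) := by
        change σ (σ₁⁻¹ (σ₁ (σ₁ y))) = σ (σ₁ y)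
        congr 1
        exact σ₁.symm_apply_apply (σ₁ y)
      have h9 : σ₁ (σ₁ y) = y := hy _ hm2
      rw [← h8, h9]
      exact hy _ hm
    rw [map_sub, e1, e2, h1]
    ring

/-- The descent functions attached to a `±1`-valued cocycle on a transitive set `R`. -/
lemma exists_descent_fun (R : Set Ω) (hR : ∀ θ ∈ R, ∀ σ : Ω ≃ₐ[L] Ω, σ θ ∈ R)
    (htrans : ∀ θ ∈ R, ∀ θ' ∈ R, ∃ σ : Ω ≃ₐ[L] Ω, σ θ = θ') (hne : R.Nonempty)
    (s : Ω → (Ω ≃ₐ[L] Ω) → Ω) (hs1 : ∀ θ ∈ R, ∀ σ, s θ σ = 1 ∨ s θ σ = -1)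
    (hs : ∀ θ ∈ R, ∀ σ τ, s (σ θ) (σ * τ) = s (σ θ) σ * s θ τ)
    (hloc : ∀ θ ∈ R, IsLocallyConstant (s θ)) :
    ∃ b : Ω → Ω, (∀ θ ∈ R, b θ ≠ 0) ∧ ∀ θ ∈ R, ∀ σ : Ω ≃ₐ[L] Ω, σ (b θ) = s (σ θ) σ * b (σ θ) := by
  classical
  obtain ⟨θ₀, hθ₀⟩ := hne
  obtain ⟨b₀, hb₀, hb⟩ := exists_kummer_gen θ₀ (s θ₀) (fun σ _ => hs1 θ₀ hθ₀ σ)
    (fun σ τ hσ hτ => by
      have := hs θ₀ hθ₀ σ τ
      rwa [hσ] at this) (hloc θ₀ hθ₀)
  choose! g hg using fun θ (hθ : θ ∈ R) => htrans θ₀ hθ₀ θ hθ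
  have hsq : ∀ θ ∈ R, ∀ σ, s θ σ * s θ σ = 1 := by
    intro θ hθ σ
    rcases hs1 θ hθ σ with h | h <;> rw [h] <;> ring
  have hsn : ∀ θ ∈ R, ∀ σ, s θ σ ≠ 0 := by
    intro θ hθ σ h
    have := hsq θ hθ σ
    rw [h, mul_zero] at this
    exact zero_ne_one this
  have hsfix : ∀ θ ∈ R, ∀ σ, ∀ τ : Ω ≃ₐ[L] Ω, τ (s θ σ) = s θ σ := by
    intro θ hθ σ τ
    rcases hs1 θ hθ σ with h | h <;> simp [h]
  refine ⟨fun θ => s θ (g θ) * g θ b₀, fun θ hθ => mul_ne_zero (hsn θ hθ _) ?_, fun θ hθ σ => ?_⟩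
  · intro h
    exact hb₀ ((map_eq_zero (g θ)).mp h)
  · have hσθ := hR θ hθ σ
    set g' := g (σ θ) with hg'
    have hg1 : g θ θ₀ = θ := hg θ hθ
    have hg2 : g' θ₀ = σ θ := hg (σ θ) hσθ
    set h := g'⁻¹ * (σ * g θ) with hh
    have hfix : h θ₀ = θ₀ := by
      change g'⁻¹ (σ (g θ θ₀)) = θ₀
      rw [hg1, ← hg2]
      exact g'.symm_apply_apply θ₀
    have hmul : σ * g θ = g' * h := by rw [hh]; group
    have e1 : σ (g θ b₀) = g' (h b₀) := by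
      change (σ * g θ) b₀ = (g' * h) b₀
      rw [hmul]
    have e2 : σ (g θ b₀) = s θ₀ h * g' b₀ := by
      rw [e1, hb h hfix, map_mul, hsfix θ₀ hθ₀]
    have e3 : s (σ θ) (σ * g θ) = s (σ θ) σ * s θ (g θ) := by
      exact hs θ hθ σ (g θ)
    have e4 : s (σ θ) (σ * g θ) = s (σ θ) g' * s θ₀ h := by
      have := hs θ₀ hθ₀ g' h
      rwa [hg2, ← hmul] at this
    have e5 : s θ₀ h = s (σ θ) g' * (s (σ θ) σ * s θ (g θ)) := by
      rw [← e3, e4, ← mul_assoc, hsq _ hσθ, one_mul]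
    change σ (s θ (g θ) * g θ b₀) = s (σ θ) σ * (s (σ θ) g' * g' b₀)
    rw [map_mul, hsfix θ hθ, e2, e5]
    calc s θ (g θ) * (s (σ θ) g' * (s (σ θ) σ * s θ (g θ)) * g' b₀)
        = (s θ (g θ) * s θ (g θ)) * (s (σ θ) g' * s (σ θ) σ * g' b₀) := by ring
      _ = s (σ θ) σ * (s (σ θ) g' * g' b₀) := by rw [hsq θ hθ]; ring

end Pool.Agent.Lib.MP_89bcae_ag
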