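import Mathlib

/-!
# The roots of `g(x) = t` in a separable closure of `F(t)`
-/

open Polynomial

set_option linter.unusedSectionVars false

namespace Pool.Agent.Lib.MP_89bcae_ag

section Roots

variable {F L Ω : Type*} [Field F] [Field L] [Field Ω] [Algebra F[X] L]
  [IsFractionRing F[X] L] [Algebra L Ω] [Algebra F[X] Ω] [IsScalarTower F[X] L Ω]

variable (F Ω) in
/-- Evaluation of a polynomial with coefficients in `F` at an element of `Ω`. -/
noncomputable def ev (θ : Ω) : F[X] →+* Ω := eval₂RingHom ((algebraMap F[X] Ω).comp C) θ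

lemma ev_C (θ : Ω) (a : F) : ev F Ω θ (C a) = algebraMap F[X] Ω (C a) := by
  simp [ev]

lemma ev_X (θ : Ω) : ev F Ω θ X = θ := by
  simp [ev]

lemma ev_map (σ : Ω ≃ₐ[L] Ω) (θ : Ω) (p : F[X]) : σ (ev F Ω θ p) = ev F Ω (σ θ) p := by
  have h : (σ : Ω →+* Ω).comp (ev F Ω θ) = ev F Ω (σ θ) := by
    apply Polynomial.ringHom_ext
    · intro a
      simp only [RingHom.comp_apply, ev_C]
      rw [IsScalarTower.algebraMap_apply F[X] L Ω]
      exact σ.commutes _
    · simp [ev_X]
  exact RingHom.congr_fun h p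

/-- The set of roots of `g(x) = t`. -/
def RootSet (g : F[X]) : Set Ω := {θ | ev F Ω θ g = algebraMap F[X] Ω X}

lemma ev_comp_of_mem {g : F[X]} {θ : Ω} (hθ : θ ∈ RootSet (Ω := Ω) g) (p : F[X]) :
    ev F Ω θ (p.comp g) = algebraMap F[X] Ω p := by
  have h : (ev F Ω θ).comp (compRingHom g) = algebraMap F[X] Ω := by
    apply Polynomial.ringHom_ext
    · intro a
      simp [ev_C]
    · simp only [RingHom.comp_apply, coe_compRingHom_apply, X_comp]
      exact hθ
  exact RingHom.congr_fun h p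

lemma map_mem_rootSet {g : F[X]} (σ : Ω ≃ₐ[L] Ω) {θ : Ω} (hθ : θ ∈ RootSet (Ω := Ω) g) :
    σ θ ∈ RootSet (Ω := Ω) g := by
  change ev F Ω (σ θ) g = _
  rw [← ev_map, show ev F Ω θ g = _ from hθ, IsScalarTower.algebraMap_apply F[X] L Ω]
  exact σ.commutes _

include L in
variable (L) in
lemma algebraMap_Om_injective : Function.Injective (algebraMap F[X] Ω) := by
  rw [IsScalarTower.algebraMap_eq F[X] L Ω]
  exact (algebraMap L Ω).injective.comp (IsFractionRing.injective F[X] L)

variable (L) in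
include L in
/-- A root `θ` of `g(x) = t` is transcendental over `F`. -/
lemma ev_injective [IsAlgClosed F] {g : F[X]} {θ : Ω} (hθ : θ ∈ RootSet (Ω := Ω) g) :
    Function.Injective (ev F Ω θ) := by
  rw [injective_iff_map_eq_zero]
  intro p hp
  by_contra hp0
  have hex : ∃ a : F, θ = algebraMap F[X] Ω (C a) := by
    have hs := IsAlgClosed.splits p
    have h1 := hs.eq_prod_roots
    rw [h1, map_mul, map_multiset_prod, mul_eq_zero] at hp
    rcases hp with h | h
    · exfalso
      rw [ev_C] at h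
      have := algebraMap_Om_injective (F := F) L (Ω := Ω) (h.trans (map_zero _).symm)
      rw [C_eq_zero, leadingCoeff_eq_zero] at this
      exact hp0 this
    · rw [Multiset.prod_eq_zero_iff, Multiset.mem_map] at h
      obtain ⟨q, hq, hq0⟩ := h
      rw [Multiset.mem_map] at hq
      obtain ⟨a, -, rfl⟩ := hq
      rw [map_sub, ev_X, ev_C, sub_eq_zero] at hq0
      exact ⟨a, hq0⟩
  obtain ⟨a, rfl⟩ := hex
  have h2 : ev F Ω (algebraMap F[X] Ω (C a)) g = algebraMap F[X] Ω (C (g.eval a)) := by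
    have h : (ev F Ω (algebraMap F[X] Ω (C a))) =
        (algebraMap F[X] Ω).comp (C.comp (evalRingHom a)) := by
      apply Polynomial.ringHom_ext
      · intro b
        simp [ev_C]
      · simp [ev_X]
    rw [h]; rfl
  have h3 : algebraMap F[X] Ω (C (g.eval a)) = algebraMap F[X] Ω X := by
    rw [← h2]; exact hθ
  have h4 := algebraMap_Om_injective (F := F) L (Ω := Ω) h3
  have h5 := congrArg natDegree h4
  rw [natDegree_C, natDegree_X] at h5
  exact zero_ne_one h5

variable (L) in
/-- The polynomial `g(x) - t` over `L`. -/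
noncomputable def PL (g : F[X]) : L[X] := g.map ((algebraMap F[X] L).comp C) - C (algebraMap F[X] L X)

lemma PL_natDegree {g : F[X]} (hdeg : g.natDegree = 3) : (PL L g).natDegree = 3 := by
  unfold PL
  rw [natDegree_sub_C, natDegree_map_eq_of_injective, hdeg]
  exact (IsFractionRing.injective F[X] L).comp C_injective

lemma PL_monic {g : F[X]} (hg : g.Monic) (hdeg : g.natDegree = 3) : (PL L g).Monic := by
  unfold PL
  apply (hg.map _).sub_of_left
  refine lt_of_le_of_lt degree_C_le ?_
  rw [degree_eq_natDegree (hg.map _).ne_zero, (hg.natDegree_map _), hdeg]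
  norm_num

lemma PL_aeval {g : F[X]} (θ : Ω) :
    (PL L g).aeval θ = ev F Ω θ g - algebraMap F[X] Ω X := by
  unfold PL ev
  rw [map_sub, aeval_C, ← IsScalarTower.algebraMap_apply, aeval_def, eval₂_map,
    coe_eval₂RingHom, ← RingHom.comp_assoc, ← IsScalarTower.algebraMap_eq]

lemma mem_rootSet_iff {g : F[X]} {θ : Ω} :
    θ ∈ RootSet (Ω := Ω) g ↔ (PL L g).aeval θ = 0 := by
  rw [PL_aeval, sub_eq_zero]; rfl

/-- `g(x) - t` is irreducible over `F(t)`. -/
lemma PL_irreducible {g : F[X]} (hg : g.Monic) (hdeg : g.natDegree = 3) :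
    Irreducible (PL L g) := by
  rw [(PL_monic (L := L) hg hdeg).irreducible_iff_roots_eq_zero_of_degree_le_three
    (by rw [PL_natDegree hdeg]; norm_num) (by rw [PL_natDegree hdeg])]
  rw [Multiset.eq_zero_iff_forall_notMem]
  intro x hx
  rw [mem_roots (PL_monic (L := L) hg hdeg).ne_zero, IsRoot.def] at hx
  -- `x` is integral over `F[t]`
  have hint : IsIntegral F[X] x := by
    refine ⟨g.map C - C X, ?_, ?_⟩
    · apply (hg.map _).sub_of_left
      refine lt_of_le_of_lt degree_C_le ?_
      rw [degree_eq_natDegree (hg.map _).ne_zero, (hg.natDegree_map _), hdeg]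
      norm_num
    · rw [eval₂_sub, eval₂_map, eval₂_C]
      rw [PL, eval_sub, eval_C, eval_map] at hx
      exact hx
  obtain ⟨p, rfl⟩ := IsIntegrallyClosed.isIntegral_iff.mp hint
  have h1 : algebraMap F[X] L (g.comp p) = algebraMap F[X] L X := by
    rw [PL, eval_sub, eval_C, eval_map, sub_eq_zero] at hx
    rw [← hx]
    have h : (algebraMap F[X] L).comp (compRingHom p) =
        eval₂RingHom ((algebraMap F[X] L).comp C) (algebraMap F[X] L p) := by
      apply Polynomial.ringHom_ext
      · intro a; simp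
      · simp
    exact RingHom.congr_fun h g
  have h2 := IsFractionRing.injective F[X] L h1
  have h3 := congrArg natDegree h2
  rw [natDegree_comp, hdeg, natDegree_X] at h3
  omega

lemma PL_separable {g : F[X]} (hg : g.Monic) (hdeg : g.natDegree = 3)
    (hd : derivative g ≠ 0) : (PL L g).Separable := by
  rw [separable_iff_derivative_ne_zero (PL_irreducible hg hdeg)]
  unfold PL
  rw [derivative_sub, derivative_C, sub_zero, derivative_map]
  rw [Polynomial.map_ne_zero_iff]
  · exact hd
  · exact (IsFractionRing.injective F[X] L).comp C_injective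

variable (L) in
include L in
/-- The three roots of `g(x) = t`. -/
lemma exists_three_roots [IsSepClosed Ω] {g : F[X]} (hg : g.Monic) (hdeg : g.natDegree = 3)
    (hd : derivative g ≠ 0) :
    ∃ θ₁ θ₂ θ₃ : Ω, θ₁ ≠ θ₂ ∧ θ₁ ≠ θ₃ ∧ θ₂ ≠ θ₃ ∧
      (∀ θ, θ ∈ RootSet (Ω := Ω) g ↔ θ = θ₁ ∨ θ = θ₂ ∨ θ = θ₃) ∧
      (∀ x : Ω, ev F Ω x g - algebraMap F[X] Ω X = (x - θ₁) * (x - θ₂) * (x - θ₃)) ∧
      (PL L g).map (algebraMap L Ω) = (X - C θ₁) * (X - C θ₂) * (X - C θ₃) := by
  have hsep := PL_separable (L := L) hg hdeg hd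
  set P : Polynomial Ω := (PL L g).map (algebraMap L Ω) with hP
  have hPm : P.Monic := (PL_monic (L := L) hg hdeg).map _
  have hs : P.Splits := IsSepClosed.splits_of_separable P (Separable.map hsep)
  have hnd : P.roots.Nodup := nodup_roots (Separable.map hsep)
  have hcard : P.roots.card = 3 := by
    rw [← hs.natDegree_eq_card_roots, hP, natDegree_map, PL_natDegree hdeg]
  obtain ⟨θ₁, θ₂, θ₃, h⟩ := Multiset.card_eq_three.mp hcard
  rw [h] at hnd
  have hprod : P = (X - C θ₁) * (X - C θ₂) * (X - C θ₃) := by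
    have := hs.eq_prod_roots_of_monic hPm
    rw [h] at this
    rw [this]
    simp [mul_assoc]
  have heval : ∀ x : Ω, ev F Ω x g - algebraMap F[X] Ω X = (x - θ₁) * (x - θ₂) * (x - θ₃) := by
    intro x
    rw [← PL_aeval (L := L), aeval_def, ← eval_map, ← hP, hprod]
    simp
  simp only [Multiset.insert_eq_cons, Multiset.nodup_cons, Multiset.mem_cons,
    Multiset.mem_singleton, not_or, Multiset.nodup_singleton, and_true] at hnd
  refine ⟨θ₁, θ₂, θ₃, hnd.1.1, hnd.1.2, hnd.2, ?_, heval, hprod⟩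
  intro θ
  have h5 : θ ∈ RootSet (Ω := Ω) g ↔ ev F Ω θ g - algebraMap F[X] Ω X = 0 := by
    rw [sub_eq_zero]; rfl
  rw [h5, heval, mul_eq_zero, mul_eq_zero, sub_eq_zero, sub_eq_zero, sub_eq_zero, or_assoc]

/-- The Galois group acts transitively on the roots. -/
lemma rootSet_transitive [IsGalois L Ω] {g : F[X]} (hg : g.Monic) (hdeg : g.natDegree = 3)
    {θ θ' : Ω} (hθ : θ ∈ RootSet (Ω := Ω) g) (hθ' : θ' ∈ RootSet (Ω := Ω) g) :
    ∃ σ : Ω ≃ₐ[L] Ω, σ θ = θ' := by
  have h1 : minpoly L θ = minpoly L θ' := by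
    rw [← minpoly.eq_of_irreducible_of_monic (PL_irreducible hg hdeg)
      ((mem_rootSet_iff (L := L)).mp hθ) (PL_monic hg hdeg),
      ← minpoly.eq_of_irreducible_of_monic (PL_irreducible hg hdeg)
      ((mem_rootSet_iff (L := L)).mp hθ') (PL_monic hg hdeg)]
  obtain ⟨σ, hσ⟩ := (Normal.minpoly_eq_iff_mem_orbit Ω).mp h1.symm
  exact ⟨σ, hσ⟩

/-- An element fixed by the stabiliser of `θ` is a rational function of `θ`. -/
lemma exists_rational_of_fixed [IsAlgClosed F] [IsGalois L Ω] {g : F[X]} {θ : Ω}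
    (hθ : θ ∈ RootSet (Ω := Ω) g) {x : Ω} (hx : ∀ σ : Ω ≃ₐ[L] Ω, σ θ = θ → σ x = x) :
    ∃ p q : F[X], q ≠ 0 ∧ x * ev F Ω θ q = ev F Ω θ p := by
  have hinj := ev_injective L hθ
  let K₀ : IntermediateField L Ω :=
    { carrier := {x | ∃ p q : F[X], q ≠ 0 ∧ x * ev F Ω θ q = ev F Ω θ p}
      mul_mem' := by
        rintro a b ⟨p, q, hq, h⟩ ⟨p', q', hq', h'⟩
        exact ⟨p * p', q * q', mul_ne_zero hq hq', by
          rw [map_mul, map_mul, ← h, ← h']; ring⟩
      add_mem' := by
        rintro a b ⟨p, q, hq, h⟩ ⟨p', q', hq', h'⟩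
        exact ⟨p * q' + p' * q, q * q', mul_ne_zero hq hq', by
          rw [map_mul, map_add, map_mul, map_mul, ← h, ← h']; ring⟩
      algebraMap_mem' := by
        intro r
        obtain ⟨p, q, hq, rfl⟩ := IsFractionRing.div_surjective (A := F[X]) r
        have hq' : algebraMap F[X] Ω q ≠ 0 := by
          intro h
          exact nonZeroDivisors.ne_zero hq
            (algebraMap_Om_injective (F := F) L (Ω := Ω) (h.trans (map_zero _).symm))
        refine ⟨p.comp g, q.comp g, ?_, ?_⟩
        · intro h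
          apply hq'
          rw [← ev_comp_of_mem hθ, h, map_zero]
        · rw [ev_comp_of_mem hθ, ev_comp_of_mem hθ, map_div₀, ← IsScalarTower.algebraMap_apply,
            ← IsScalarTower.algebraMap_apply]
          field_simp
      inv_mem' := by
        rintro a ⟨p, q, hq, h⟩
        by_cases ha : a = 0
        · exact ⟨0, 1, one_ne_zero, by simp [ha]⟩
        · refine ⟨q, p, ?_, ?_⟩
          · rintro rfl
            rw [map_zero, mul_eq_zero] at h
            rcases h with h | h
            · exact ha h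
            · exact hq (hinj (h.trans (map_zero _).symm))
          · rw [← h]; field_simp }
  have hθK : θ ∈ K₀ := ⟨X, 1, one_ne_zero, by rw [map_one, ev_X, mul_one]⟩
  have hle : IntermediateField.adjoin L {θ} ≤ K₀ := by
    rw [IntermediateField.adjoin_le_iff, Set.singleton_subset_iff]
    exact hθK
  have hmem : x ∈ IntermediateField.adjoin L {θ} := by
    rw [← InfiniteGalois.fixedField_fixingSubgroup (IntermediateField.adjoin L {θ}),
      IntermediateField.mem_fixedField_iff]
    intro σ hσ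
    apply hx
    exact (IntermediateField.mem_fixingSubgroup_iff _ _).mp hσ θ
      (IntermediateField.mem_adjoin_simple_self L θ)
  exact hle hmem

variable (L) in
include L in
/-- The three roots of `g(x) = t`, one of them being given. -/
lemma exists_other_roots [IsSepClosed Ω] {g : F[X]} (hg : g.Monic) (hdeg : g.natDegree = 3)
    (hd : derivative g ≠ 0) {θ : Ω} (hθ : θ ∈ RootSet (Ω := Ω) g) :
    ∃ θ₂ θ₃ : Ω, θ ≠ θ₂ ∧ θ ≠ θ₃ ∧ θ₂ ≠ θ₃ ∧
      (∀ x, x ∈ RootSet (Ω := Ω) g ↔ x = θ ∨ x = θ₂ ∨ x = θ₃) ∧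
      (∀ x : Ω, ev F Ω x g - algebraMap F[X] Ω X = (x - θ) * (x - θ₂) * (x - θ₃)) ∧
      ev F Ω θ (derivative g) = (θ - θ₂) * (θ - θ₃) := by
  have key : ∀ a b c : Ω, (PL L g).map (algebraMap L Ω) = (X - C a) * (X - C b) * (X - C c) →
      ev F Ω a (derivative g) = (a - b) * (a - c) := by
    intro a b c h
    have h1 := congrArg (fun P : Polynomial Ω => (derivative P).eval a) h
    simp only [derivative_mul, derivative_sub, derivative_X, derivative_C, sub_zero, one_mul,
      mul_one, eval_add, eval_mul, eval_sub, eval_X, eval_C, sub_self, zero_mul,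
      add_zero] at h1
    rw [derivative_map, PL, derivative_sub, derivative_C, sub_zero, derivative_map,
      Polynomial.map_map, ← RingHom.comp_assoc, ← IsScalarTower.algebraMap_eq, eval_map] at h1
    rw [ev, coe_eval₂RingHom, h1]
  obtain ⟨θ₁, θ₂, θ₃, h12, h13, h23, hR, heval, hP⟩ :=
    exists_three_roots (F := F) L (Ω := Ω) hg hdeg hd
  rcases (hR θ).mp hθ with rfl | rfl | rfl
  · exact ⟨θ₂, θ₃, h12, h13, h23, hR, heval, key _ _ _ hP⟩
  · refine ⟨θ₁, θ₃, h12.symm, h23, h13, ?_, ?_, key _ _ _ (by rw [hP]; ring)⟩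
    · intro x; rw [hR]; tauto
    · intro x; rw [heval]; ring
  · refine ⟨θ₁, θ₂, h13.symm, h23.symm, h12, ?_, ?_, key _ _ _ (by rw [hP]; ring)⟩
    · intro x; rw [hR]; tauto
    · intro x; rw [heval]; ring

end Roots

end Pool.Agent.Lib.MP_89bcae_ag
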