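import Mathlib

/-!
# Polynomials over an algebraically closed field modulo squares
-/

open Polynomial

namespace Pool.Agent.Lib.MP_89bcae_ag

variable {F : Type*} [Field F]

lemma exists_sq_mul_prod_aux [DecidableEq F] (s : Multiset F) :
    ∃ (S : F[X]) (Z : Finset F), S ≠ 0 ∧
      (s.map fun a => X - C a).prod = S ^ 2 * ∏ β ∈ Z, (X - C β) := by
  induction s using Multiset.induction with
  | empty => exact ⟨1, ∅, one_ne_zero, by simp⟩
  | cons a s ih =>
    obtain ⟨S, Z, hS, h⟩ := ih
    rw [Multiset.map_cons, Multiset.prod_cons, h]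
    by_cases ha : a ∈ Z
    · refine ⟨S * (X - C a), Z.erase a, mul_ne_zero hS (X_sub_C_ne_zero a), ?_⟩
      rw [← Finset.mul_prod_erase Z _ ha]
      ring
    · refine ⟨S, insert a Z, hS, ?_⟩
      rw [Finset.prod_insert ha]
      ring

/-- Every nonzero polynomial is a square times a product of distinct linear factors. -/
lemma exists_sq_mul_prod [IsAlgClosed F] (r : F[X]) (hr : r ≠ 0) :
    ∃ (S : F[X]) (Z : Finset F), S ≠ 0 ∧ r = S ^ 2 * ∏ β ∈ Z, (X - C β) := by
  classical
  obtain ⟨S, Z, hS, h⟩ := exists_sq_mul_prod_aux r.roots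
  obtain ⟨z, hz⟩ := IsAlgClosed.exists_pow_nat_eq r.leadingCoeff (n := 2) (by norm_num)
  have hz0 : z ≠ 0 := by
    rintro rfl
    rw [zero_pow two_ne_zero] at hz
    exact hr (leadingCoeff_eq_zero.mp hz.symm)
  refine ⟨C z * S, Z, mul_ne_zero (C_ne_zero.mpr hz0) hS, ?_⟩
  conv_lhs => rw [(IsAlgClosed.splits r).eq_prod_roots]
  rw [h, ← hz, C_pow]
  ring

/-- Parity of the multiplicities in a square. -/
lemma even_card_of_sq [DecidableEq F] {ι : Type*} (Z : Finset ι) (f : ι → F) {p q : F[X]}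
    (hq : q ≠ 0) (h : p ^ 2 = q ^ 2 * ∏ β ∈ Z, (X - C (f β))) (α : F) :
    Even (Z.filter fun β => f β = α).card := by
  have hprod : (∏ β ∈ Z, (X - C (f β))) ≠ 0 := by
    rw [Finset.prod_ne_zero_iff]
    intro β _
    exact X_sub_C_ne_zero _
  have h1 := congrArg (fun P : F[X] => P.roots.count α) h
  rw [roots_pow, roots_mul (mul_ne_zero (pow_ne_zero 2 hq) hprod), roots_pow, Multiset.count_nsmul,
    Multiset.count_add, Multiset.count_nsmul] at h1
  have h2 : (∏ β ∈ Z, (X - C (f β))).roots = Z.val.map f := by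
    have : (∏ β ∈ Z, (X - C (f β))) = ((Z.val.map f).map fun a => X - C a).prod := by
      rw [Multiset.map_map]; rfl
    rw [this, roots_multiset_prod_X_sub_C]
  have h3 : (Z.val.map f).count α = (Z.filter fun β => f β = α).card := by
    rw [Multiset.count_map, Finset.card_def, Finset.filter_val]
    congr 1
    apply Multiset.filter_congr
    intro x _
    exact eq_comm
  rw [h2, h3] at h1
  rw [Nat.even_iff]
  omega

/-- If a product of two products of distinct linear factors is a square, the two sets agree. -/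
lemma eq_of_sq [DecidableEq F] (Z Z' : Finset F) {p q : F[X]} (hq : q ≠ 0)
    (h : p ^ 2 = q ^ 2 * ((∏ β ∈ Z, (X - C β)) * ∏ β ∈ Z', (X - C β))) : Z = Z' := by
  have h' : p ^ 2 = q ^ 2 * ∏ x ∈ Z.disjSum Z', (X - C (Sum.elim id id x)) := by
    rw [h, Finset.prod_disjSum]
    simp
  ext α
  have := even_card_of_sq (Z.disjSum Z') (Sum.elim id id) hq h' α
  have h2 : ((Z.disjSum Z').filter fun x => Sum.elim id id x = α).card =
      (if α ∈ Z then 1 else 0) + (if α ∈ Z' then 1 else 0) := by
    have e : ∀ s : Finset F, (∑ x ∈ s, if x = α then 1 else 0) = (if α ∈ s then 1 else 0 : ℕ) :=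
      fun s => Finset.sum_ite_eq' s α _
    rw [Finset.card_filter, Finset.sum_disjSum]
    exact congrArg₂ (· + ·) (e Z) (e Z')
  rw [h2] at this
  by_cases h3 : α ∈ Z <;> by_cases h4 : α ∈ Z' <;> simp [h3, h4] at this ⊢

end Pool.Agent.Lib.MP_89bcae_ag
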