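import Mathlib
import Pool.Agent.Lib.MP_89bcae_ag.Roots8
import Pool.Agent.Lib.MP_89bcae_ag.Curve8
import Pool.Agent.Lib.MP_89bcae_ag.Kummer8
import Pool.Agent.Lib.MP_89bcae_ag.Square8

/-!
# Two-descent for the twists `D(t) y² = g(x) - t`
-/

open Polynomial WeierstrassCurve WeierstrassCurve.Affine

open scoped Classical

namespace Pool.Agent.Lib.MP_89bcae_ag

set_option linter.unusedSectionVars false

/-- Over the field `A`, the curve `W` is `D(t) y² = g(x) - t` in Weierstrass form. -/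
structure IsTwist {R F : Type*} [CommRing R] [Field F] (A : Type*) [Field A] [Algebra R A]
    [Algebra F[X] A] (W : Affine R) (g D : F[X]) : Prop where
  a₁ : algebraMap R A W.a₁ = 0
  a₂ : algebraMap R A W.a₂ = algebraMap F[X] A (C (g.coeff 2) * D)
  a₃ : algebraMap R A W.a₃ = 0
  a₄ : algebraMap R A W.a₄ = algebraMap F[X] A (C (g.coeff 1) * D ^ 2)
  a₆ : algebraMap R A W.a₆ = algebraMap F[X] A ((C (g.coeff 0) - X) * D ^ 3)

section Twist

variable {R F : Type*} [CommRing R] [Field F] {A B : Type*} [Field A] [Algebra R A]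
    [Algebra F[X] A] [Field B] [Algebra R B] [Algebra F[X] B] {W : Affine R} {g D : F[X]}

lemma IsTwist.short (h : IsTwist A W g D) : Short (W.baseChange A) :=
  ⟨h.a₁, h.a₃⟩

lemma ev_cubic (hg : g.Monic) (hdeg : g.natDegree = 3) (x : A) :
    ev F A x g = x ^ 3 + algebraMap F[X] A (C (g.coeff 2)) * x ^ 2 +
      algebraMap F[X] A (C (g.coeff 1)) * x + algebraMap F[X] A (C (g.coeff 0)) := by
  unfold ev
  have h3 : g.coeff 3 = 1 := by rw [← hdeg]; exact hg.coeff_natDegree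
  rw [coe_eval₂RingHom, eval₂_eq_sum_range, hdeg, Finset.sum_range_succ, Finset.sum_range_succ,
    Finset.sum_range_succ, Finset.sum_range_one, h3]
  simp only [RingHom.comp_apply, map_one, pow_zero, mul_one, pow_one, one_mul]
  ring

lemma eq_cubic (hg : g.Monic) (hdeg : g.natDegree = 3) :
    g = X ^ 3 + C (g.coeff 2) * X ^ 2 + C (g.coeff 1) * X + C (g.coeff 0) := by
  have h3 : g.coeff 3 = 1 := by rw [← hdeg]; exact hg.coeff_natDegree
  conv_lhs => rw [g.as_sum_range_C_mul_X_pow, hdeg, Finset.sum_range_succ, Finset.sum_range_succ,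
    Finset.sum_range_succ, Finset.sum_range_one, h3]
  simp only [map_one, pow_zero, mul_one, pow_one, one_mul]
  ring

lemma ev_derivative_cubic (hg : g.Monic) (hdeg : g.natDegree = 3) (x : A) :
    ev F A x (derivative g) = 3 * x ^ 2 + 2 * algebraMap F[X] A (C (g.coeff 2)) * x +
      algebraMap F[X] A (C (g.coeff 1)) := by
  have h1 : derivative g = C 3 * X ^ 2 + C 2 * C (g.coeff 2) * X + C (g.coeff 1) := by
    conv_lhs => rw [eq_cubic hg hdeg]
    simp only [derivative_add, derivative_mul, derivative_X_pow, derivative_C, derivative_X]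
    simp only [Nat.cast_ofNat, map_ofNat]
    ring
  have h3 : (C (3 : F) : F[X]) = 3 := map_ofNat C 3
  have h2 : (C (2 : F) : F[X]) = 2 := map_ofNat C 2
  rw [h1, h2, h3]
  simp only [map_add, map_mul, map_pow, ev_C, ev_X, map_ofNat]

lemma IsTwist.rt (h : IsTwist A W g D) (hg : g.Monic) (hdeg : g.natDegree = 3) {θ : A}
    (hθ : θ ∈ RootSet g) : Rt (W.baseChange A) (algebraMap F[X] A D * θ) := by
  have h1 : ev F A θ g = algebraMap F[X] A X := hθ
  rw [ev_cubic hg hdeg] at h1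
  change (algebraMap F[X] A D * θ) ^ 3 + algebraMap R A W.a₂ * (algebraMap F[X] A D * θ) ^ 2 +
    algebraMap R A W.a₄ * (algebraMap F[X] A D * θ) + algebraMap R A W.a₆ = 0
  rw [h.a₂, h.a₄, h.a₆]
  simp only [map_mul, map_pow, map_sub]
  linear_combination (algebraMap F[X] A D) ^ 3 * h1

end Twist

section Kummer

variable {R F L Ω : Type*} [CommRing R] [Field F] [IsAlgClosed F] [Field L] [Field Ω]
  [Algebra F[X] L] [IsFractionRing F[X] L] [Algebra L Ω] [Algebra F[X] Ω] [IsScalarTower F[X] L Ω]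
  [Algebra R L] [Algebra R Ω] [IsScalarTower R L Ω] {W : Affine R} {g D : F[X]}
  [IsGalois L Ω] [IsSepClosed Ω] [DecidableEq Ω]

/-- the descent functions of a two-torsion cocycle -/
structure IsDesc (W : Affine R) (g D : F[X]) (c : (Ω ≃ₐ[L] Ω) → (W.baseChange Ω).Point)
    (Z : Finset F) (b : Ω → Ω) : Prop where
  sq : ∀ θ ∈ RootSet (Ω := Ω) g, b θ ^ 2 = ∏ β ∈ Z, (θ - algebraMap F[X] Ω (C β))
  act : ∀ θ ∈ RootSet (Ω := Ω) g, ∀ σ : Ω ≃ₐ[L] Ω,
    σ (b θ) = rho (algebraMap F[X] Ω D * σ θ) (c σ) * b (σ θ)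

lemma map_D (σ : Ω ≃ₐ[L] Ω) (D : F[X]) : σ (algebraMap F[X] Ω D) = algebraMap F[X] Ω D := by
  rw [IsScalarTower.algebraMap_apply F[X] L Ω]
  exact σ.commutes _

variable (L) in
include L in
lemma root_sub_ne_zero {θ : Ω} (hθ : θ ∈ RootSet (Ω := Ω) g) (β : F) :
    θ - algebraMap F[X] Ω (C β) ≠ 0 := by
  intro h
  have h1 : ev F Ω θ (X - C β) = 0 := by rw [map_sub, ev_X, ev_C, h]
  have h2 := ev_injective L hθ (h1.trans (map_zero _).symm)
  exact X_sub_C_ne_zero β h2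

/-- Existence of the descent functions. -/
lemma exists_desc (h2 : (2 : Ω) ≠ 0) (hW : IsTwist Ω W g D) (hg : g.Monic)
    (hdeg : g.natDegree = 3) (hd : derivative g ≠ 0)
    (c : (Ω ≃ₐ[L] Ω) → (W.baseChange Ω).Point) (hc : ∀ σ, 2 • c σ = 0)
    (hmul : ∀ σ τ : Ω ≃ₐ[L] Ω, c (σ * τ) = c σ + Point.map (σ : Ω →ₐ[L] Ω) (c τ))
    (hloc : IsLocallyConstant c) :
    ∃ (Z : Finset F) (b : Ω → Ω), IsDesc W g D c Z b := by
  have hshort := hW.short
  obtain ⟨θ₁, θ₂, θ₃, -, -, -, hR, -, -⟩ := exists_three_roots (F := F) L (Ω := Ω) hg hdeg hd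
  have hθ₁ : θ₁ ∈ RootSet (Ω := Ω) g := (hR θ₁).mpr (Or.inl rfl)
  set d := algebraMap F[X] Ω D with hdd
  have hrt : ∀ θ ∈ RootSet (Ω := Ω) g, Rt (W.baseChange Ω) (d * θ) :=
    fun θ hθ => hW.rt hg hdeg hθ
  have hσd : ∀ σ : Ω ≃ₐ[L] Ω, σ d = d := fun σ => map_D σ D
  -- the sign functions
  obtain ⟨b, hb0, hb⟩ := exists_descent_fun (L := L) (RootSet (Ω := Ω) g)
    (fun θ hθ σ => map_mem_rootSet σ hθ)
    (fun θ hθ θ' hθ' => rootSet_transitive hg hdeg hθ hθ') ⟨θ₁, hθ₁⟩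
    (fun θ σ => rho (d * θ) (c σ))
    (fun θ _ σ => rho_two_torsion_sq hshort h2 (d * θ) (hc σ))
    (by
      intro θ hθ σ τ
      have hθ' := map_mem_rootSet σ hθ
      have h3 : 2 • Point.map (W' := W) (σ : Ω →ₐ[L] Ω) (c τ) = 0 := by
        rw [← map_nsmul, hc, map_zero]
      rw [hmul, rho_add hshort h2 (hrt _ hθ') _ _ h3]
      congr 1
      have h4 : d * σ θ = (σ : Ω →ₐ[L] Ω) (d * θ) := by
        simp [hσd]
      rw [h4, rho_map]
      rcases rho_two_torsion_sq hshort h2 (d * θ) (hc τ) with h | h <;> simp [h])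
    (fun θ _ => hloc.comp (rho (d * θ)))
  have hsgn : ∀ (θ : Ω) σ, rho (d * θ) (c σ) * rho (d * θ) (c σ) = 1 :=
    fun θ σ => rho_two_torsion_mul_self hshort h2 _ (hc σ)
  -- the square of `b` is a rational function
  obtain ⟨p, q, hq, hpq⟩ := exists_rational_of_fixed (L := L) hθ₁ (x := b θ₁ ^ 2) (by
    intro σ hσ
    rw [map_pow, hb θ₁ hθ₁, hσ, mul_pow, pow_two (rho _ _), hsgn, one_mul])
  have hinj : ∀ θ ∈ RootSet (Ω := Ω) g, Function.Injective (ev F Ω θ) :=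
    fun θ hθ => ev_injective L hθ
  have hp : p ≠ 0 := by
    rintro rfl
    rw [map_zero, mul_eq_zero] at hpq
    rcases hpq with h | h
    · exact hb0 θ₁ hθ₁ (pow_eq_zero_iff two_ne_zero |>.mp h)
    · exact hq (hinj θ₁ hθ₁ (h.trans (map_zero _).symm))
  obtain ⟨S, Z, hS, hSZ⟩ := exists_sq_mul_prod (p * q) (mul_ne_zero hp hq)
  have hne : ∀ θ ∈ RootSet (Ω := Ω) g, ∀ r : F[X], r ≠ 0 → ev F Ω θ r ≠ 0 :=
    fun θ hθ r hr h => hr (hinj θ hθ (h.trans (map_zero _).symm))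
  refine ⟨Z, fun θ => b θ * ev F Ω θ q / ev F Ω θ S, ?_, ?_⟩
  · intro θ hθ
    obtain ⟨σ, rfl⟩ := rootSet_transitive (L := L) hg hdeg hθ₁ hθ
    have h5 : b (σ θ₁) ^ 2 * ev F Ω (σ θ₁) q = ev F Ω (σ θ₁) p := by
      have h6 := congrArg σ hpq
      rw [map_mul, map_pow, hb θ₁ hθ₁, mul_pow, pow_two (rho _ _), hsgn, one_mul, ev_map,
        ev_map] at h6
      exact h6
    have h7 : ev F Ω (σ θ₁) p * ev F Ω (σ θ₁) q =
        ev F Ω (σ θ₁) S ^ 2 * ∏ β ∈ Z, (σ θ₁ - algebraMap F[X] Ω (C β)) := by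
      rw [← map_mul, hSZ, map_mul, map_pow, map_prod]
      congr 1
      apply Finset.prod_congr rfl
      intro β _
      rw [map_sub, ev_X, ev_C]
    have h8 := hne _ hθ S hS
    rw [div_pow, div_eq_iff (pow_ne_zero 2 h8), mul_pow]
    linear_combination (ev F Ω (σ θ₁) q) * h5 + h7
  · intro θ hθ σ
    rw [map_div₀, map_mul, hb θ hθ, ev_map, ev_map]
    ring

lemma ev_const (β : F) (p : F[X]) :
    ev F Ω (algebraMap F[X] Ω (C β)) p = algebraMap F[X] Ω (C (p.eval β)) := by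
  have h : (ev F Ω (algebraMap F[X] Ω (C β))) =
      (algebraMap F[X] Ω).comp (C.comp (evalRingHom β)) := by
    apply Polynomial.ringHom_ext
    · intro b
      simp [ev_C]
    · simp [ev_X]
  rw [h]; rfl

/-- A product over the three roots is invariant under the Galois group. -/
lemma prod_roots_map {T : Finset Ω} (hT : ∀ θ, θ ∈ T ↔ θ ∈ RootSet (Ω := Ω) g)
    (σ : Ω ≃ₐ[L] Ω) (f : Ω → Ω) : ∏ θ ∈ T, f (σ θ) = ∏ θ ∈ T, f θ := by
  apply Finset.prod_nbij' (fun θ => σ θ) (fun θ => σ.symm θ)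
  · intro θ hθ
    exact (hT _).mpr (map_mem_rootSet σ ((hT _).mp hθ))
  · intro θ hθ
    exact (hT _).mpr (map_mem_rootSet σ.symm ((hT _).mp hθ))
  · intro θ _; simp
  · intro θ _; simp
  · intro θ _; rfl

variable (L) in
include L in
lemma algebraMap_ne_zero_Om {D : F[X]} (hD : D ≠ 0) : algebraMap F[X] Ω D ≠ 0 :=
  fun h => hD (algebraMap_Om_injective (F := F) L (Ω := Ω) (h.trans (map_zero _).symm))

variable (L) in
include L in
/-- The product over the roots of the three signs of a two-torsion point is `1`. -/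
lemma prod_rho_roots (h2 : (2 : Ω) ≠ 0) (hW : IsTwist Ω W g D) (hg : g.Monic)
    (hdeg : g.natDegree = 3) (hd : derivative g ≠ 0) (hD : D ≠ 0) {T : Finset Ω}
    (hT : ∀ θ, θ ∈ T ↔ θ ∈ RootSet (Ω := Ω) g) {P : (W.baseChange Ω).Point} (hP : 2 • P = 0) :
    ∏ θ ∈ T, rho (algebraMap F[X] Ω D * θ) P = 1 := by
  obtain ⟨θ₁, θ₂, θ₃, h12, h13, h23, hR, -, -⟩ :=
    exists_three_roots (F := F) L (Ω := Ω) hg hdeg hd
  have hT' : T = {θ₁, θ₂, θ₃} := by
    ext θ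
    rw [hT, hR]
    simp
  have hd0 : algebraMap F[X] Ω D ≠ 0 := algebraMap_ne_zero_Om L hD
  rw [hT', Finset.prod_insert (by simp [h12, h13]), Finset.prod_insert (by simp [h23]),
    Finset.prod_singleton, ← mul_assoc]
  apply prod_rho hW.short h2 (hW.rt hg hdeg ((hR θ₁).mpr (Or.inl rfl)))
    (hW.rt hg hdeg ((hR θ₂).mpr (Or.inr (Or.inl rfl))))
    (hW.rt hg hdeg ((hR θ₃).mpr (Or.inr (Or.inr rfl)))) _ _ _ hP
  · exact fun h => h12 (mul_left_cancel₀ hd0 h)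
  · exact fun h => h13 (mul_left_cancel₀ hd0 h)
  · exact fun h => h23 (mul_left_cancel₀ hd0 h)

/-- The product of the descent functions is rational. -/
lemma IsDesc.exists_norm {c : (Ω ≃ₐ[L] Ω) → (W.baseChange Ω).Point} {Z : Finset F} {b : Ω → Ω}
    (h : IsDesc W g D c Z b) (h2 : (2 : Ω) ≠ 0) (hW : IsTwist Ω W g D) (hg : g.Monic)
    (hdeg : g.natDegree = 3) (hd : derivative g ≠ 0) (hD : D ≠ 0) (hc : ∀ σ, 2 • c σ = 0)
    {T : Finset Ω} (hT : ∀ θ, θ ∈ T ↔ θ ∈ RootSet (Ω := Ω) g) :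
    (∀ σ : Ω ≃ₐ[L] Ω, σ (∏ θ ∈ T, b θ) = ∏ θ ∈ T, b θ) ∧
      (∏ θ ∈ T, b θ) ^ 2 = algebraMap F[X] Ω (∏ β ∈ Z, (X - C (g.eval β))) := by
  constructor
  · intro σ
    rw [map_prod]
    have h1 : ∏ θ ∈ T, σ (b θ) =
        ∏ θ ∈ T, (rho (algebraMap F[X] Ω D * σ θ) (c σ) * b (σ θ)) :=
      Finset.prod_congr rfl fun θ hθ => h.act θ ((hT θ).mp hθ) σ
    rw [h1, prod_roots_map hT σ (fun θ => rho (algebraMap F[X] Ω D * θ) (c σ) * b θ),
      Finset.prod_mul_distrib, prod_rho_roots L h2 hW hg hdeg hd hD hT (hc σ), one_mul]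
  · obtain ⟨θ₁, θ₂, θ₃, h12, h13, h23, hR, heval, -⟩ :=
      exists_three_roots (F := F) L (Ω := Ω) hg hdeg hd
    have hT' : T = {θ₁, θ₂, θ₃} := by
      ext θ
      rw [hT, hR]
      simp
    rw [← Finset.prod_pow, Finset.prod_congr rfl fun θ hθ => h.sq θ ((hT θ).mp hθ),
      Finset.prod_comm, map_prod]
    apply Finset.prod_congr rfl
    intro β _
    have h3 := heval (algebraMap F[X] Ω (C β))
    rw [ev_const] at h3
    rw [hT', Finset.prod_insert (by simp [h12, h13]), Finset.prod_insert (by simp [h23]),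
      Finset.prod_singleton, map_sub]
    linear_combination h3

/-- The fibres of `g` meet `Z` in sets of even size. -/
lemma IsDesc.even {c : (Ω ≃ₐ[L] Ω) → (W.baseChange Ω).Point} {Z : Finset F} {b : Ω → Ω}
    (h : IsDesc W g D c Z b) (h2 : (2 : Ω) ≠ 0) (hW : IsTwist Ω W g D) (hg : g.Monic)
    (hdeg : g.natDegree = 3) (hd : derivative g ≠ 0) (hD : D ≠ 0) (hc : ∀ σ, 2 • c σ = 0)
    (α : F) : Even (Z.filter fun β => g.eval β = α).card := by
  obtain ⟨θ₁, θ₂, θ₃, -, -, -, hR, -, -⟩ := exists_three_roots (F := F) L (Ω := Ω) hg hdeg hd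
  have hT : ∀ θ, θ ∈ ({θ₁, θ₂, θ₃} : Finset Ω) ↔ θ ∈ RootSet (Ω := Ω) g := by
    intro θ
    rw [hR]
    simp
  obtain ⟨e1, e2⟩ := h.exists_norm h2 hW hg hdeg hd hD hc hT
  obtain ⟨y, hy⟩ := (InfiniteGalois.mem_range_algebraMap_iff_fixed (k := L) _).mpr e1
  obtain ⟨p, q, hq, rfl⟩ := IsFractionRing.div_surjective (A := F[X]) y
  have hq0 : q ≠ 0 := nonZeroDivisors.ne_zero hq
  apply even_card_of_sq Z (fun β => g.eval β) hq0 (p := p)
  apply IsFractionRing.injective F[X] L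
  apply (algebraMap L Ω).injective
  rw [← IsScalarTower.algebraMap_apply, ← IsScalarTower.algebraMap_apply, map_mul, ← e2, ← hy,
    map_div₀, ← IsScalarTower.algebraMap_apply, ← IsScalarTower.algebraMap_apply, map_pow, map_pow]
  have := algebraMap_ne_zero_Om (F := F) L (Ω := Ω) hq0
  field_simp

variable (L) in
include L in
/-- A two-torsion point with prescribed signs. -/
lemma exists_point_signs (h2 : (2 : Ω) ≠ 0) (hW : IsTwist Ω W g D) (hg : g.Monic)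
    (hdeg : g.natDegree = 3) (hd : derivative g ≠ 0) (hD : D ≠ 0) {T : Finset Ω}
    (hT : ∀ θ, θ ∈ T ↔ θ ∈ RootSet (Ω := Ω) g) (s : Ω → Ω) (hs : ∀ θ ∈ T, s θ = 1 ∨ s θ = -1)
    (hprod : ∏ θ ∈ T, s θ = 1) :
    ∃ P : (W.baseChange Ω).Point, 2 • P = 0 ∧
      ∀ θ ∈ T, rho (algebraMap F[X] Ω D * θ) P = s θ := by
  obtain ⟨θ₁, θ₂, θ₃, h12, h13, h23, hR, -, -⟩ :=
    exists_three_roots (F := F) L (Ω := Ω) hg hdeg hd
  have hT' : T = {θ₁, θ₂, θ₃} := by
    ext θ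
    rw [hT, hR]
    simp
  subst hT'
  have hd0 : algebraMap F[X] Ω D ≠ 0 := algebraMap_ne_zero_Om L hD
  rw [Finset.prod_insert (by simp [h12, h13]), Finset.prod_insert (by simp [h23]),
    Finset.prod_singleton, ← mul_assoc] at hprod
  obtain ⟨P, hP, r1, r2, r3⟩ := exists_two_torsion hW.short h2
    (hW.rt hg hdeg ((hR θ₁).mpr (Or.inl rfl)))
    (hW.rt hg hdeg ((hR θ₂).mpr (Or.inr (Or.inl rfl))))
    (hW.rt hg hdeg ((hR θ₃).mpr (Or.inr (Or.inr rfl))))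
    (fun h => h12 (mul_left_cancel₀ hd0 h)) (fun h => h13 (mul_left_cancel₀ hd0 h))
    (fun h => h23 (mul_left_cancel₀ hd0 h)) (s θ₁) (s θ₂) (s θ₃)
    (hs _ (by simp)) (hs _ (by simp)) (hs _ (by simp)) hprod
  refine ⟨P, hP, ?_⟩
  intro θ hθ
  simp only [Finset.mem_insert, Finset.mem_singleton] at hθ
  rcases hθ with rfl | rfl | rfl
  · exact r1
  · exact r2
  · exact r3

variable (L) in
include L in
/-- A two-torsion point is determined by its signs. -/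
lemma eq_of_signs (h2 : (2 : Ω) ≠ 0) (hW : IsTwist Ω W g D) (hg : g.Monic)
    (hdeg : g.natDegree = 3) (hd : derivative g ≠ 0) (hD : D ≠ 0)
    {P Q : (W.baseChange Ω).Point} (hP : 2 • P = 0) (hQ : 2 • Q = 0)
    (h : ∀ θ ∈ RootSet (Ω := Ω) g, rho (algebraMap F[X] Ω D * θ) P =
      rho (algebraMap F[X] Ω D * θ) Q) : P = Q := by
  obtain ⟨θ₁, θ₂, θ₃, h12, h13, h23, hR, -, -⟩ :=
    exists_three_roots (F := F) L (Ω := Ω) hg hdeg hd
  have hd0 : algebraMap F[X] Ω D ≠ 0 := algebraMap_ne_zero_Om L hD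
  have h1 : θ₁ ∈ RootSet (Ω := Ω) g := (hR θ₁).mpr (Or.inl rfl)
  have h1' : θ₂ ∈ RootSet (Ω := Ω) g := (hR θ₂).mpr (Or.inr (Or.inl rfl))
  have hQ' : 2 • (-Q) = 0 := by rw [smul_neg, hQ, neg_zero]
  have hnQ : -Q = Q := by
    have : Q + Q = 0 := by rw [← two_nsmul]; exact hQ
    exact neg_eq_of_add_eq_zero_left this
  have h3 : P - Q = 0 := by
    apply eq_zero_of_rho_eq_one hW.short h2 (e₁ := algebraMap F[X] Ω D * θ₁)
      (e₂ := algebraMap F[X] Ω D * θ₂) (fun h => h12 (mul_left_cancel₀ hd0 h))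
    · rw [smul_sub, hP, hQ, sub_zero]
    · rw [sub_eq_add_neg, rho_add hW.short h2 (hW.rt hg hdeg h1) _ _ hQ', hnQ, h _ h1]
      exact rho_two_torsion_mul_self hW.short h2 _ hQ
    · rw [sub_eq_add_neg, rho_add hW.short h2 (hW.rt hg hdeg h1') _ _ hQ', hnQ, h _ h1']
      exact rho_two_torsion_mul_self hW.short h2 _ hQ
  exact sub_eq_zero.mp h3

/-- The signs of the image of a two-torsion point under an automorphism. -/
lemma rho_map_two_torsion (h2 : (2 : Ω) ≠ 0) (hW : IsTwist Ω W g D)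
    (σ : Ω ≃ₐ[L] Ω) (θ : Ω) {P : (W.baseChange Ω).Point} (hP : 2 • P = 0) :
    rho (algebraMap F[X] Ω D * σ θ) (Point.map (W' := W) (σ : Ω →ₐ[L] Ω) P) =
      rho (algebraMap F[X] Ω D * θ) P := by
  have h4 : algebraMap F[X] Ω D * σ θ = (σ : Ω →ₐ[L] Ω) (algebraMap F[X] Ω D * θ) := by
    simp [map_D]
  rw [h4, rho_map]
  rcases rho_two_torsion_sq hW.short h2 (algebraMap F[X] Ω D * θ) hP with h | h <;> simp [h]

/-- If `Z` is empty, the cocycle is a coboundary. -/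
lemma IsDesc.coboundary {c : (Ω ≃ₐ[L] Ω) → (W.baseChange Ω).Point} {b : Ω → Ω}
    (h : IsDesc W g D c (∅ : Finset F) b) (h2 : (2 : Ω) ≠ 0) (hW : IsTwist Ω W g D) (hg : g.Monic)
    (hdeg : g.natDegree = 3) (hd : derivative g ≠ 0) (hD : D ≠ 0) (hc : ∀ σ, 2 • c σ = 0) :
    ∃ P : (W.baseChange Ω).Point, 2 • P = 0 ∧
      ∀ σ : Ω ≃ₐ[L] Ω, c σ = Point.map (σ : Ω →ₐ[L] Ω) P - P := by
  obtain ⟨θ₁, θ₂, θ₃, h12, h13, h23, hR, -, -⟩ :=
    exists_three_roots (F := F) L (Ω := Ω) hg hdeg hd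
  have hT : ∀ θ, θ ∈ ({θ₁, θ₂, θ₃} : Finset Ω) ↔ θ ∈ RootSet (Ω := Ω) g := by
    intro θ
    rw [hR]
    simp
  have hb : ∀ θ ∈ RootSet (Ω := Ω) g, b θ = 1 ∨ b θ = -1 := by
    intro θ hθ
    have := h.sq θ hθ
    rw [Finset.prod_empty] at this
    exact mul_self_eq_one_iff.mp (by rw [← pow_two]; exact this)
  set ε := ∏ θ ∈ ({θ₁, θ₂, θ₃} : Finset Ω), b θ with hε
  have hε' : ε = b θ₁ * b θ₂ * b θ₃ := by
    rw [hε, Finset.prod_insert (by simp [h12, h13]), Finset.prod_insert (by simp [h23]),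
      Finset.prod_singleton, ← mul_assoc]
  have hm1 : θ₁ ∈ RootSet (Ω := Ω) g := (hR θ₁).mpr (Or.inl rfl)
  have hm2 : θ₂ ∈ RootSet (Ω := Ω) g := (hR θ₂).mpr (Or.inr (Or.inl rfl))
  have hm3 : θ₃ ∈ RootSet (Ω := Ω) g := (hR θ₃).mpr (Or.inr (Or.inr rfl))
  have hεs : ε = 1 ∨ ε = -1 := by
    rw [hε']
    rcases hb _ hm1 with e1 | e1 <;> rcases hb _ hm2 with e2 | e2 <;>
      rcases hb _ hm3 with e3 | e3 <;> simp [e1, e2, e3]
  obtain ⟨P, hP, hPs⟩ := exists_point_signs L h2 hW hg hdeg hd hD hT (fun θ => ε * b θ)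
    (by
      intro θ hθ
      rcases hεs with e1 | e1 <;> rcases hb _ ((hT θ).mp hθ) with e2 | e2 <;> simp [e1, e2])
    (by
      rw [Finset.prod_mul_distrib, ← hε, Finset.prod_const,
        Finset.card_insert_of_notMem (by simp [h12, h13]),
        Finset.card_insert_of_notMem (by simp [h23]), Finset.card_singleton]
      rcases hεs with e1 | e1 <;> rw [e1] <;> norm_num)
  refine ⟨P, hP, fun σ => ?_⟩
  have hσP : 2 • Point.map (W' := W) (σ : Ω →ₐ[L] Ω) P = 0 := by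
    rw [← map_nsmul, hP, map_zero]
  have hnP : -P = P := by
    have : P + P = 0 := by rw [← two_nsmul]; exact hP
    exact neg_eq_of_add_eq_zero_left this
  apply eq_of_signs L h2 hW hg hdeg hd hD (hc σ) (by rw [smul_sub, hσP, hP, sub_zero])
  intro θ' hθ'
  obtain ⟨θ, rfl⟩ : ∃ θ, σ θ = θ' := ⟨σ.symm θ', σ.apply_symm_apply θ'⟩
  have hθ : θ ∈ RootSet (Ω := Ω) g := by
    have := map_mem_rootSet σ.symm hθ'
    rwa [σ.symm_apply_apply] at this
  rw [sub_eq_add_neg, rho_add hW.short h2 (hW.rt hg hdeg hθ') _ _ (by rw [hnP]; exact hP), hnP,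
    rho_map_two_torsion h2 hW σ θ hP, hPs θ ((hT θ).mpr hθ), hPs (σ θ) ((hT _).mpr hθ')]
  have h5 := h.act θ hθ σ
  have h6 : σ (b θ) = b θ := by
    rcases hb _ hθ with e | e <;> simp [e]
  rw [h6] at h5
  rw [h5]
  have h7 : b (σ θ) * b (σ θ) = 1 := by
    rcases hb _ hθ' with e | e <;> simp [e]
  have h8 : ε * ε = 1 := by
    rcases hεs with e | e <;> simp [e]
  linear_combination (-(rho (algebraMap F[X] Ω D * σ θ) (c σ)) * b (σ θ) * b (σ θ)) * h8 -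
    (rho (algebraMap F[X] Ω D * σ θ) (c σ)) * h7

end Kummer

end Pool.Agent.Lib.MP_89bcae_ag
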