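import Mathlib
import Pool.Agent.Lib.MP_89bcae_ag.Desc8

/-!
# Stable sets with even fibres
-/

open Polynomial IntermediateField

open scoped Classical

namespace Pool.Agent.Lib.MP_89bcae_ag

section

variable {F : Type*} [Field F]

/-- A cubic has at most one multiple root. -/
lemma double_root_unique {g : F[X]} (hg : g.Monic) (hdeg : g.natDegree = 3) {β β' : F}
    (h : g.eval β = g.eval β') (hd : (derivative g).eval β = 0)
    (hd' : (derivative g).eval β' = 0) : β = β' := by
  by_contra hne
  have hder : ∀ x, (derivative g).eval x = 3 * x ^ 2 + 2 * g.coeff 2 * x + g.coeff 1 := by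
    intro x
    conv_lhs => rw [eq_cubic hg hdeg]
    simp only [derivative_add, derivative_mul, derivative_X_pow, derivative_C, derivative_X]
    simp
    ring
  have hev : ∀ x, g.eval x = x ^ 3 + g.coeff 2 * x ^ 2 + g.coeff 1 * x + g.coeff 0 := by
    intro x
    conv_lhs => rw [eq_cubic hg hdeg]
    simp
  rw [hev, hev] at h
  rw [hder] at hd hd'
  have hne' : β - β' ≠ 0 := sub_ne_zero.mpr hne
  have key : (β - β') ^ 3 = 0 := by
    linear_combination (-2) * h + (β - β') * hd + (β - β') * hd'
  exact hne' (pow_eq_zero_iff (by norm_num) |>.mp key)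

end

section

variable {k F : Type*} [Field k] [Field F] [Algebra k F] [Algebra.IsAlgebraic k F] [IsAlgClosed F]

/-- If `g(x) - g(β)` has no root in `k(g(β))`, it has three distinct roots in `F`, and they are
conjugate over `k(g(β))`. -/
lemma fibre_transitive {g : k[X]} (hg : g.Monic) (hdeg : g.natDegree = 3)
    (hd : derivative g ≠ 0) {β : F}
    (hroot : ∀ β' : F, aeval β' g = aeval β g → β' ∉ k⟮aeval β g⟯) :
    (∃ S : Finset F, S.card = 3 ∧ ∀ β', β' ∈ S ↔ aeval β' g = aeval β g) ∧
      ∀ β' : F, aeval β' g = aeval β g → ∃ τ : F ≃ₐ[k] F, τ β = β' := by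
  set α := aeval β g with hα
  let K := k⟮α⟯
  let a : K := ⟨α, mem_adjoin_simple_self k α⟩
  set p : K[X] := g.map (algebraMap k K) - C a with hp
  have hpm : p.Monic := by
    apply (hg.map _).sub_of_left
    refine lt_of_le_of_lt degree_C_le ?_
    rw [degree_eq_natDegree (hg.map _).ne_zero, (hg.natDegree_map _), hdeg]
    norm_num
  have hpd : p.natDegree = 3 := by
    rw [hp, natDegree_sub_C, hg.natDegree_map, hdeg]
  have heval : ∀ x : F, aeval x p = aeval x g - α := by
    intro x
    rw [hp, map_sub, aeval_C, aeval_map_algebraMap]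
    rfl
  have hirr : Irreducible p := by
    rw [hpm.irreducible_iff_roots_eq_zero_of_degree_le_three (by rw [hpd]; norm_num)
      (by rw [hpd])]
    rw [Multiset.eq_zero_iff_forall_notMem]
    intro x hx
    rw [mem_roots hpm.ne_zero, IsRoot.def] at hx
    have h1 : aeval (x : F) p = 0 := by
      have : aeval (algebraMap K F x) p = algebraMap K F (p.eval x) := by
        rw [aeval_algebraMap_apply, coe_aeval_eq_eval]
      rw [hx, map_zero] at this
      exact this
    rw [heval, sub_eq_zero] at h1
    exact hroot x h1 x.2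
  have hsep : p.Separable := by
    rw [separable_iff_derivative_ne_zero hirr, hp, derivative_sub, derivative_C, sub_zero,
      derivative_map, Polynomial.map_ne_zero_iff (algebraMap k K).injective]
    exact hd
  have halg : Algebra.IsAlgebraic K F := Algebra.IsAlgebraic.tower_top (K := k) K
  have hnormal : Normal K F := normal_iff.mpr fun x =>
    ⟨Algebra.IsIntegral.isIntegral x, IsAlgClosed.splits _⟩
  constructor
  · refine ⟨(p.map (algebraMap K F)).roots.toFinset, ?_, ?_⟩
    · rw [Multiset.toFinset_card_of_nodup (nodup_roots (Separable.map hsep)),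
        ← (IsAlgClosed.splits _).natDegree_eq_card_roots, natDegree_map, hpd]
    · intro β'
      rw [Multiset.mem_toFinset, mem_roots (hpm.map _).ne_zero, IsRoot.def, eval_map_algebraMap,
        heval, sub_eq_zero]
  · intro β' hβ'
    have h1 : minpoly K β = minpoly K β' := by
      rw [← minpoly.eq_of_irreducible_of_monic hirr (x := β) (by rw [heval, ← hα, sub_self]) hpm,
        ← minpoly.eq_of_irreducible_of_monic hirr (x := β') (by rw [heval, hβ', sub_self]) hpm]
    obtain ⟨σ, hσ⟩ := (Normal.minpoly_eq_iff_mem_orbit F).mp h1.symm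
    exact ⟨σ.restrictScalars k, hσ⟩

/-- A finite set which is stable under `Aut(F/k)`, has even fibres under `g`, and lies over the
roots of `D` or at multiple roots, is empty if `g(x) - α` has no root in `k(α)` for all roots `α`
of `D`. -/
lemma empty_of_stable {g D : k[X]} (hg : g.Monic) (hdeg : g.natDegree = 3)
    (hd : derivative g ≠ 0)
    (hirr : ∀ β : F, aeval (aeval β g) D = 0 → β ∉ k⟮aeval β g⟯) (Z : Finset F)
    (heven : ∀ α, Even (Z.filter fun β => (g.map (algebraMap k F)).eval β = α).card)
    (hZ : ∀ β ∈ Z, (D.map (algebraMap k F)).eval ((g.map (algebraMap k F)).eval β) ≠ 0 →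
      (derivative (g.map (algebraMap k F))).eval β = 0)
    (hstab : ∀ τ : F ≃ₐ[k] F, ∀ β ∈ Z, τ β ∈ Z) : Z = ∅ := by
  rw [Finset.eq_empty_iff_forall_notMem]
  intro β hβ
  set gF := g.map (algebraMap k F) with hgF
  have hgFm : gF.Monic := hg.map _
  have hgFd : gF.natDegree = 3 := by rw [hgF, hg.natDegree_map, hdeg]
  have hev : ∀ x : F, gF.eval x = aeval x g := fun x => eval_map_algebraMap g x
  by_cases hD : aeval (aeval β g) D = 0
  · have hroot : ∀ β' : F, aeval β' g = aeval β g → β' ∉ k⟮aeval β g⟯ := by
      intro β' h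
      rw [← h]
      apply hirr
      rw [h]; exact hD
    obtain ⟨⟨S, hS, hSm⟩, htr⟩ := fibre_transitive hg hdeg hd hroot
    have h1 : Z.filter (fun β' => gF.eval β' = gF.eval β) = S := by
      ext β'
      rw [Finset.mem_filter, hSm, hev, hev]
      constructor
      · exact fun h => h.2
      · intro h
        obtain ⟨τ, rfl⟩ := htr β' h
        exact ⟨hstab τ β hβ, h⟩
    have h2 := heven (gF.eval β)
    rw [h1, hS] at h2
    exact absurd h2 (by decide)
  · have h1 := heven (gF.eval β)
    have h2 : Z.filter (fun β' => gF.eval β' = gF.eval β) = {β} := by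
      ext β'
      rw [Finset.mem_filter, Finset.mem_singleton]
      constructor
      · rintro ⟨h3, h4⟩
        have hne : ∀ x, gF.eval x = gF.eval β → x ∈ Z → (derivative gF).eval x = 0 := by
          intro x hx hxZ
          apply hZ x hxZ
          rw [hx, hev, eval_map_algebraMap]
          exact hD
        exact double_root_unique hgFm hgFd h4 (hne β' h4 h3) (hne β rfl hβ)
      · rintro rfl
        exact ⟨hβ, rfl⟩
    rw [h2, Finset.card_singleton] at h1
    exact absurd h1 (by decide)

end

end Pool.Agent.Lib.MP_89bcae_ag
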