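import Mathlib

/-!
# Automorphisms of a separable closure of `k̄(t)` over `k(t)`
-/

open Polynomial

namespace Pool.Agent.Lib.MP_89bcae_ag

section Extend

variable {F Ω : Type*} [Field F] [Field Ω] [Algebra F Ω]

lemma exists_extend_aux {Ω' : Type*} [Field Ω'] [Algebra F Ω'] [IsSepClosure F Ω]
    [IsSepClosed Ω'] (τ : F ≃+* F) (e : Ω ≃+* Ω')
    (h : ∀ x, algebraMap F Ω' x = e (algebraMap F Ω (τ x))) :
    ∃ γ : Ω ≃+* Ω', ∀ x, γ (algebraMap F Ω x) = e (algebraMap F Ω (τ x)) := by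
  have h2 : Algebra.IsSeparable F Ω' :=
    Algebra.IsSeparable.of_equiv_equiv (A₁ := F) (B₁ := Ω) (A₂ := F) (B₂ := Ω') τ.symm e (by
      ext x
      change algebraMap F Ω' (τ.symm x) = e (algebraMap F Ω x)
      rw [h, RingEquiv.apply_symm_apply])
  have h3 : IsSepClosure F Ω' := ⟨inferInstance, h2⟩
  refine ⟨(IsSepClosure.equiv F Ω Ω').toRingEquiv, fun x => ?_⟩
  rw [← h]
  exact (IsSepClosure.equiv F Ω Ω').commutes x

/-- An automorphism of `F` extends to a separable closure. -/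
lemma exists_extend [IsSepClosure F Ω] (τ : F ≃+* F) :
    ∃ γ : Ω ≃+* Ω, ∀ x, γ (algebraMap F Ω x) = algebraMap F Ω (τ x) := by
  have hsc : IsSepClosed Ω := IsSepClosure.sep_closed F
  exact @exists_extend_aux F Ω _ _ _ Ω _ ((algebraMap F Ω).comp τ.toRingHom).toAlgebra _ hsc τ
    (RingEquiv.refl Ω) (fun x => rfl)

end Extend

section Tower

variable {k kb F Ω : Type*} [Field k] [Field kb] [Algebra k kb] [Algebra.IsAlgebraic k kb]
  [IsAlgClosed kb] [Field F] [Algebra kb[X] F] [IsFractionRing kb[X] F] [Algebra k[X] F]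
  [Field Ω] [Algebra F Ω] [Algebra k[X] Ω] [IsScalarTower k[X] F Ω] [Algebra kb[X] Ω]
  [IsScalarTower kb[X] F Ω]

variable (hk : ∀ p : k[X], algebraMap k[X] F p = algebraMap kb[X] F (p.map (algebraMap k kb)))

include hk

omit [Algebra.IsAlgebraic k kb] [IsAlgClosed kb] [IsFractionRing kb[X] F] in
lemma algebraMap_tower (p : k[X]) :
    algebraMap k[X] Ω p = algebraMap kb[X] Ω (p.map (algebraMap k kb)) := by
  rw [IsScalarTower.algebraMap_apply k[X] F Ω, hk, ← IsScalarTower.algebraMap_apply]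

omit [Algebra.IsAlgebraic k kb] [IsAlgClosed kb] in
lemma tower_injective : Function.Injective (algebraMap kb[X] Ω) := by
  rw [IsScalarTower.algebraMap_eq kb[X] F Ω]
  exact (algebraMap F Ω).injective.comp (IsFractionRing.injective kb[X] F)

/-- Every automorphism of `k̄` over `k` extends to `Ω`, fixing `t`. -/
lemma exists_lift_aut [IsSepClosure F Ω] (σ : kb ≃ₐ[k] kb) :
    ∃ γ : Ω ≃ₐ[k[X]] Ω, ∀ p : kb[X], γ (algebraMap kb[X] Ω p) =
      algebraMap kb[X] Ω (p.map (σ : kb →+* kb)) := by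
  let e : kb[X] ≃+* kb[X] := Polynomial.mapEquiv (σ : kb ≃+* kb)
  let τ : F ≃+* F := IsFractionRing.ringEquivOfRingEquiv (K := F) (L := F) e
  obtain ⟨γ, hγ⟩ := exists_extend (Ω := Ω) τ
  have h1 : ∀ p : kb[X], γ (algebraMap kb[X] Ω p) =
      algebraMap kb[X] Ω (p.map (σ : kb →+* kb)) := by
    intro p
    rw [IsScalarTower.algebraMap_apply kb[X] F Ω, hγ,
      IsScalarTower.algebraMap_apply kb[X] F Ω]
    congr 1
    exact IsFractionRing.ringEquivOfRingEquiv_algebraMap e p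
  refine ⟨AlgEquiv.ofRingEquiv (f := γ) ?_, h1⟩
  intro p
  rw [algebraMap_tower (kb := kb) (F := F) hk, h1, Polynomial.map_map]
  congr 2
  ext x
  simp

/-- Every automorphism of `Ω` over `k(t)` restricts to `k̄`. -/
lemma exists_restrict_aut (γ : Ω ≃ₐ[k[X]] Ω) :
    ∃ σ : kb ≃ₐ[k] kb, ∀ p : kb[X], γ (algebraMap kb[X] Ω p) =
      algebraMap kb[X] Ω (p.map (σ : kb →+* kb)) := by
  let ι : kb →+* Ω := (algebraMap kb[X] Ω).comp C
  let _ : Algebra kb Ω := ι.toAlgebra
  let _ : Algebra k Ω := (ι.comp (algebraMap k kb)).toAlgebra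
  have : IsScalarTower k kb Ω := IsScalarTower.of_algebraMap_eq fun x => rfl
  have hkΩ : ∀ x : k, algebraMap k Ω x = algebraMap k[X] Ω (C x) := by
    intro x
    rw [algebraMap_tower (kb := kb) (F := F) hk, Polynomial.map_C]
    rfl
  have : Normal k kb := normal_iff.mpr fun x =>
    ⟨Algebra.IsIntegral.isIntegral x, IsAlgClosed.splits _⟩
  let γ' : Ω ≃ₐ[k] Ω := AlgEquiv.ofRingEquiv (f := γ.toRingEquiv) (by
    intro x
    rw [hkΩ]
    exact γ.commutes (C x))
  let σ := γ'.restrictNormal kb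
  have hσ : ∀ x : kb, γ (algebraMap kb[X] Ω (C x)) = algebraMap kb[X] Ω (C (σ x)) := by
    intro x
    exact (γ'.restrictNormal_commutes kb x).symm
  refine ⟨σ, fun p => ?_⟩
  have hX : γ (algebraMap kb[X] Ω X) = algebraMap kb[X] Ω X := by
    have : algebraMap kb[X] Ω X = algebraMap k[X] Ω X := by
      rw [algebraMap_tower (kb := kb) (F := F) hk, Polynomial.map_X]
    rw [this]
    exact γ.commutes X
  induction p using Polynomial.induction_on' with
  | add p q hp hq => rw [map_add, map_add, hp, hq, Polynomial.map_add, map_add]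
  | monomial n a =>
    rw [← C_mul_X_pow_eq_monomial, map_mul, map_mul, hσ, map_pow, map_pow, hX,
      Polynomial.map_mul, Polynomial.map_C, Polynomial.map_pow, Polynomial.map_X, map_mul, map_pow]
    rfl

/-- Conjugation of an element of `Gal(Ω/F)` by an automorphism over `k(t)`. -/
lemma exists_conj (γ : Ω ≃ₐ[k[X]] Ω) (h : Ω ≃ₐ[F] Ω) :
    ∃ g : Ω ≃ₐ[F] Ω, ∀ x, γ (g x) = h (γ x) := by
  obtain ⟨σ, hσ⟩ := exists_restrict_aut (kb := kb) (F := F) hk γ
  have hF : ∀ y : F, ∃ z : F, γ (algebraMap F Ω y) = algebraMap F Ω z := by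
    intro y
    obtain ⟨p, q, hq, rfl⟩ := IsFractionRing.div_surjective (A := kb[X]) y
    refine ⟨algebraMap kb[X] F (p.map (σ : kb →+* kb)) /
      algebraMap kb[X] F (q.map (σ : kb →+* kb)), ?_⟩
    rw [map_div₀, map_div₀, map_div₀, ← IsScalarTower.algebraMap_apply,
      ← IsScalarTower.algebraMap_apply, hσ, hσ, ← IsScalarTower.algebraMap_apply,
      ← IsScalarTower.algebraMap_apply]
  refine ⟨AlgEquiv.ofRingEquiv (f := (γ.toRingEquiv.trans h.toRingEquiv).trans
    γ.symm.toRingEquiv) ?_, ?_⟩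
  · intro y
    obtain ⟨z, hz⟩ := hF y
    change γ.symm (h (γ (algebraMap F Ω y))) = algebraMap F Ω y
    rw [hz, h.commutes, ← hz, AlgEquiv.symm_apply_apply]
  · intro x
    change γ (γ.symm (h (γ x))) = h (γ x)
    rw [AlgEquiv.apply_symm_apply]

end Tower

end Pool.Agent.Lib.MP_89bcae_ag
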