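import Mathlib

/-!
# Roots of cubic polynomials in complete discretely valued fields
-/

open Filter Topology Valued

namespace Pool.Agent.Lib.MP_89bcae_ag

variable {K : Type*} [Field K] [hv : Valued K (WithZero (Multiplicative ℤ))]

lemma tendsto_zero_of_val_le {f : ℕ → K}
    (h : ∀ n, hv.v (f n) ≤ WithZero.exp (-(n : ℤ))) : Tendsto f atTop (𝓝 0) := by
  rw [(Valued.hasBasis_nhds_zero K _).tendsto_right_iff]
  intro γ _
  set δ := MonoidWithZeroHom.ValueGroup₀.embedding γ.1 with hδ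
  have hδ0 : δ ≠ 0 := by
    rw [hδ]
    simp
  have h1 : ∀ᶠ n : ℕ in atTop, WithZero.exp (-(n : ℤ)) < δ := by
    obtain ⟨m, hm⟩ : ∃ m : ℤ, δ = WithZero.exp m := ⟨WithZero.log δ, (WithZero.exp_log hδ0).symm⟩
    rw [hm]
    filter_upwards [eventually_gt_atTop (-m).toNat] with n hn
    rw [WithZero.exp_lt_exp]
    omega
  filter_upwards [h1] with n hn
  change hv.v.restrict (f n) < γ
  rw [Valuation.restrict_lt_iff_lt_embedding]
  exact lt_of_le_of_lt (h n) hn

lemma nonarchimedeanAddGroup_of_valued : NonarchimedeanAddGroup K where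
  is_nonarchimedean := by
    intro U hU
    obtain ⟨γ, hγ⟩ := Valued.mem_nhds_zero.mp hU
    refine ⟨⟨Valuation.ltAddSubgroup hv.v.restrict γ, Valued.isOpen_ball K _⟩, hγ⟩

lemma le_exp_neg_one {x : WithZero (Multiplicative ℤ)} (h : x < 1) :
    x ≤ WithZero.exp (-1 : ℤ) := by
  by_cases hx : x = 0
  · rw [hx]; exact zero_le
  · rw [← WithZero.exp_log hx] at h ⊢
    rw [← WithZero.exp_zero, WithZero.exp_lt_exp] at h
    rw [WithZero.exp_le_exp]
    omega

/-- Hensel's lemma for a cubic polynomial `a₀ + a₁ u + a₂ u² + u³` with `a₀` small and `a₁` a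
unit. -/
lemma exists_cubic_root [CompleteSpace K] [T2Space K] {a₀ a₁ a₂ : K} (h0 : hv.v a₀ < 1)
    (h1 : hv.v a₁ = 1) (h2 : hv.v a₂ ≤ 1) :
    ∃ u : K, hv.v u = hv.v a₀ ∧ a₀ + a₁ * u + a₂ * u ^ 2 + u ^ 3 = 0 := by
  have := nonarchimedeanAddGroup_of_valued (K := K)
  have ha1 : a₁ ≠ 0 := by
    rintro rfl
    rw [map_zero] at h1
    exact zero_ne_one h1
  have h0' := le_exp_neg_one h0
  have hsq : ∀ {x y : WithZero (Multiplicative ℤ)}, x ≤ WithZero.exp (-1 : ℤ) →
      y ≤ WithZero.exp (-1 : ℤ) → x * y ≤ WithZero.exp (-1 : ℤ) := by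
    intro x y hx hy
    calc x * y ≤ WithZero.exp (-1 : ℤ) * 1 :=
          mul_le_mul' hx (le_trans hy (by rw [← WithZero.exp_zero, WithZero.exp_le_exp]; norm_num))
      _ = WithZero.exp (-1 : ℤ) := mul_one _
  set Φ : K → K := fun u => -(a₀ + a₂ * u ^ 2 + u ^ 3) / a₁ with hΦ
  have hv3 : ∀ {x y z : K}, hv.v x ≤ WithZero.exp (-1 : ℤ) → hv.v y ≤ WithZero.exp (-1 : ℤ) →
      hv.v (x + y) ≤ WithZero.exp (-1 : ℤ) := by
    intro x y _ hx hy
    exact le_trans (hv.v.map_add _ _) (max_le hx hy)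
  have hΦv : ∀ u, hv.v u ≤ WithZero.exp (-1 : ℤ) → hv.v (Φ u) ≤ WithZero.exp (-1 : ℤ) := by
    intro u hu
    rw [hΦ]
    simp only
    rw [map_div₀, h1, div_one, Valuation.map_neg]
    have e2 : hv.v (u ^ 2) ≤ WithZero.exp (-1 : ℤ) := by
      rw [map_pow, pow_two]; exact hsq hu hu
    have e3 : hv.v (u ^ 3) ≤ WithZero.exp (-1 : ℤ) := by
      rw [pow_succ, map_mul]; exact hsq e2 hu
    refine hv3 (z := 0) (hv3 (z := 0) h0' ?_) e3
    rw [map_mul]
    calc hv.v a₂ * hv.v (u ^ 2) ≤ 1 * WithZero.exp (-1 : ℤ) := mul_le_mul' h2 e2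
      _ = _ := one_mul _
  set u : ℕ → K := fun n => Φ^[n] 0 with hu
  have hus : ∀ n, u (n + 1) = Φ (u n) := fun n => Function.iterate_succ_apply' Φ n 0
  have huv : ∀ n, hv.v (u n) ≤ WithZero.exp (-1 : ℤ) := by
    intro n
    induction n with
    | zero => simp [hu]
    | succ n ih => rw [hus]; exact hΦv _ ih
  have hΦd : ∀ x y, hv.v x ≤ WithZero.exp (-1 : ℤ) → hv.v y ≤ WithZero.exp (-1 : ℤ) →
      hv.v (Φ x - Φ y) ≤ hv.v (x - y) * WithZero.exp (-1 : ℤ) := by
    intro x y hx hy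
    have e : Φ x - Φ y = -((x - y) * (a₂ * (x + y) + (x * x + x * y + y * y)) / a₁) := by
      rw [hΦ]; field_simp; ring
    rw [e, Valuation.map_neg, map_div₀, h1, div_one, map_mul]
    apply mul_le_mul' le_rfl
    refine hv3 (z := 0) ?_ (hv3 (z := 0) (hv3 (z := 0) ?_ ?_) ?_)
    · rw [map_mul]
      calc hv.v a₂ * hv.v (x + y) ≤ 1 * WithZero.exp (-1 : ℤ) := mul_le_mul' h2 (hv3 (z := 0) hx hy)
        _ = _ := one_mul _
    · rw [map_mul]; exact hsq hx hx
    · rw [map_mul]; exact hsq hx hy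
    · rw [map_mul]; exact hsq hy hy
  have hdiff : ∀ n, hv.v (u (n + 1) - u n) ≤ WithZero.exp (-(n : ℤ)) := by
    intro n
    induction n with
    | zero =>
      have : u 0 = 0 := rfl
      rw [this, sub_zero]
      apply le_trans (huv _)
      rw [WithZero.exp_le_exp]; norm_num
    | succ n ih =>
      rw [hus (n + 1), hus n]
      apply le_trans (hΦd _ _ (by rw [← hus]; exact huv _) (huv n))
      rw [← hus]
      apply le_trans (mul_le_mul' ih le_rfl)
      rw [← WithZero.exp_add]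
      rw [WithZero.exp_le_exp]
      push_cast
      linarith
  have hcauchy : CauchySeq u :=
    NonarchimedeanAddGroup.cauchySeq_of_tendsto_sub_nhds_zero (tendsto_zero_of_val_le hdiff)
  obtain ⟨l, hl⟩ := cauchySeq_tendsto_of_complete hcauchy
  have hcont : Continuous Φ := by
    rw [hΦ]
    have : (fun u => -(a₀ + a₂ * u ^ 2 + u ^ 3) / a₁) =
        fun u => -(a₀ + a₂ * u ^ 2 + u ^ 3) * a₁⁻¹ := by
      funext u; rw [div_eq_mul_inv]
    rw [this]
    exact ((continuous_const.add (continuous_const.mul (continuous_id.pow 2))).add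
      (continuous_id.pow 3)).neg.mul continuous_const
  have hfix : Φ l = l := by
    have e1 : Tendsto (fun n => u (n + 1)) atTop (𝓝 l) := (tendsto_add_atTop_iff_nat 1).mpr hl
    have e2 : Tendsto (fun n => u (n + 1)) atTop (𝓝 (Φ l)) := by
      have := (hcont.tendsto l).comp hl
      exact this.congr fun n => (hus n).symm
    exact tendsto_nhds_unique e2 e1
  have heq : a₀ + a₁ * l + a₂ * l ^ 2 + l ^ 3 = 0 := by
    have : a₁ * Φ l = a₁ * l := by rw [hfix]
    rw [hΦ] at this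
    simp only at this
    rw [mul_div_cancel₀ _ ha1] at this
    linear_combination -this
  -- the valuation of the limit
  have hlv : hv.v l < 1 := by
    have e1 : Tendsto (fun n => u n - l) atTop (𝓝 0) := by
      have := hl.sub_const l
      rwa [sub_self] at this
    rw [(Valued.hasBasis_nhds_zero K _).tendsto_right_iff] at e1
    obtain ⟨n, hn⟩ := (e1 1 trivial).exists
    change hv.v.restrict (u n - l) < ((1 : (MonoidWithZeroHom.ValueGroup₀ (.ofClass hv.v))ˣ) :
      MonoidWithZeroHom.ValueGroup₀ (.ofClass hv.v)) at hn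
    rw [Valuation.restrict_lt_iff_lt_embedding] at hn
    rw [Units.val_one, map_one] at hn
    have e2 : l = u n - (u n - l) := by ring
    rw [e2]
    apply lt_of_le_of_lt (hv.v.map_sub _ _)
    apply max_lt _ hn
    apply lt_of_le_of_lt (huv n)
    rw [← WithZero.exp_zero, WithZero.exp_lt_exp]; norm_num
  refine ⟨l, ?_, heq⟩
  have hunit : hv.v (a₁ + (a₂ * l + l ^ 2)) = 1 := by
    rw [Valuation.map_add_eq_of_lt_left, h1]
    rw [h1]
    apply lt_of_le_of_lt (hv.v.map_add _ _)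
    apply max_lt
    · rw [map_mul]
      exact lt_of_le_of_lt (mul_le_mul' h2 le_rfl) (by rwa [one_mul])
    · rw [map_pow]; exact pow_lt_one₀ zero_le hlv two_ne_zero
  have e3 : a₀ = -(l * (a₁ + (a₂ * l + l ^ 2))) := by linear_combination heq
  rw [e3, Valuation.map_neg, map_mul, hunit, mul_one]

end Pool.Agent.Lib.MP_89bcae_ag
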