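import Mathlib
import Pool.Agent.Lib.MP_89bcae_ag.Desc8

/-!
# Uniqueness and Galois equivariance of the descent data
-/

open Polynomial WeierstrassCurve WeierstrassCurve.Affine

open scoped Classical

namespace Pool.Agent.Lib.MP_89bcae_ag

set_option linter.unusedSectionVars false

section Unique

variable {R F L Ω : Type*} [CommRing R] [Field F] [IsAlgClosed F] [Field L] [Field Ω]
  [Algebra F[X] L] [IsFractionRing F[X] L] [Algebra L Ω] [Algebra F[X] Ω] [IsScalarTower F[X] L Ω]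
  [Algebra R L] [Algebra R Ω] [IsScalarTower R L Ω] {W : Affine R} {g D : F[X]}
  [IsGalois L Ω] [IsSepClosed Ω] [DecidableEq Ω]

lemma IsDesc.ne_zero {c : (Ω ≃ₐ[L] Ω) → (W.baseChange Ω).Point} {Z : Finset F} {b : Ω → Ω}
    (h : IsDesc W g D c Z b) {θ : Ω} (hθ : θ ∈ RootSet (Ω := Ω) g) : b θ ≠ 0 := by
  intro h0
  have h1 := h.sq θ hθ
  rw [h0, zero_pow two_ne_zero, eq_comm, Finset.prod_eq_zero_iff] at h1
  obtain ⟨β, -, h2⟩ := h1
  exact root_sub_ne_zero L hθ β h2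

lemma ev_prod (Z : Finset F) (θ : Ω) :
    ev F Ω θ (∏ β ∈ Z, (X - C β)) = ∏ β ∈ Z, (θ - algebraMap F[X] Ω (C β)) := by
  rw [map_prod]
  apply Finset.prod_congr rfl
  intro β _
  rw [map_sub, ev_X, ev_C]

/-- The quotient of two descent functions, for cocycles with the same values, is a rational
function of `θ`. -/
lemma IsDesc.exists_ratio {c : (Ω ≃ₐ[L] Ω) → (W.baseChange Ω).Point} {Z Z' : Finset F}
    {b b' : Ω → Ω} (h : IsDesc W g D c Z b) (h' : IsDesc W g D c Z' b') (h2 : (2 : Ω) ≠ 0)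
    (hW : IsTwist Ω W g D) (hc : ∀ σ, 2 • c σ = 0) {θ : Ω} (hθ : θ ∈ RootSet (Ω := Ω) g) :
    ∃ p q : F[X], q ≠ 0 ∧ b θ * b' θ * ev F Ω θ q = ev F Ω θ p := by
  apply exists_rational_of_fixed (L := L) hθ
  intro σ hσ
  rw [map_mul, h.act θ hθ, h'.act θ hθ, hσ]
  linear_combination (b θ * b' θ) * rho_two_torsion_mul_self hW.short h2
    (algebraMap F[X] Ω D * θ) (hc σ)

/-- Uniqueness of the set `Z`. -/
lemma IsDesc.unique {c : (Ω ≃ₐ[L] Ω) → (W.baseChange Ω).Point} {Z Z' : Finset F}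
    {b b' : Ω → Ω} (h : IsDesc W g D c Z b) (h' : IsDesc W g D c Z' b') (h2 : (2 : Ω) ≠ 0)
    (hW : IsTwist Ω W g D) (hg : g.Monic) (hdeg : g.natDegree = 3) (hd : derivative g ≠ 0)
    (hc : ∀ σ, 2 • c σ = 0) : Z = Z' := by
  obtain ⟨θ, _, _, -, -, -, hR, -, -⟩ := exists_three_roots (F := F) L (Ω := Ω) hg hdeg hd
  have hθ : θ ∈ RootSet (Ω := Ω) g := (hR θ).mpr (Or.inl rfl)
  obtain ⟨p, q, hq, hpq⟩ := h.exists_ratio h' h2 hW hc hθ
  apply eq_of_sq Z Z' hq (p := p)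
  apply ev_injective L hθ
  rw [map_pow, ← hpq, map_mul, map_mul, map_pow, ev_prod, ev_prod, ← h.sq θ hθ, ← h'.sq θ hθ]
  ring

/-- Changing the cocycle by a coboundary. -/
lemma IsDesc.twist {c c' : (Ω ≃ₐ[L] Ω) → (W.baseChange Ω).Point} {Z : Finset F}
    {b : Ω → Ω} (h : IsDesc W g D c Z b) (h2 : (2 : Ω) ≠ 0)
    (hW : IsTwist Ω W g D) (hg : g.Monic) (hdeg : g.natDegree = 3)
    {A : (W.baseChange Ω).Point} (hA : 2 • A = 0)
    (hcc : ∀ σ : Ω ≃ₐ[L] Ω, c' σ = c σ + (Point.map (σ : Ω →ₐ[L] Ω) A - A)) :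
    IsDesc W g D c' Z (fun θ => rho (algebraMap F[X] Ω D * θ) A * b θ) := by
  have hsq : ∀ θ : Ω, rho (algebraMap F[X] Ω D * θ) A * rho (algebraMap F[X] Ω D * θ) A = 1 :=
    fun θ => rho_two_torsion_mul_self hW.short h2 _ hA
  have hnA : -A = A := by
    have : A + A = 0 := by rw [← two_nsmul]; exact hA
    exact neg_eq_of_add_eq_zero_left this
  refine ⟨?_, ?_⟩
  · intro θ hθ
    rw [mul_pow, h.sq θ hθ, pow_two, hsq, one_mul]
  · intro θ hθ σ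
    have hσA : 2 • Point.map (W' := W) (σ : Ω →ₐ[L] Ω) A = 0 := by
      rw [← map_nsmul, hA, map_zero]
    have hθ' := map_mem_rootSet σ hθ
    have hrt := hW.rt hg hdeg hθ'
    rw [hcc, sub_eq_add_neg, hnA, rho_add hW.short h2 hrt _ _ (by
      rw [smul_add, hσA, hA, add_zero]), rho_add hW.short h2 hrt _ _ hA,
      rho_map_two_torsion h2 hW σ θ hA, map_mul, h.act θ hθ]
    have h3 : σ (rho (algebraMap F[X] Ω D * θ) A) = rho (algebraMap F[X] Ω D * θ) A := by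
      rcases rho_two_torsion_sq hW.short h2 (algebraMap F[X] Ω D * θ) hA with e | e <;> simp [e]
    rw [h3]
    linear_combination (-(rho (algebraMap F[X] Ω D * θ) A) *
      rho (algebraMap F[X] Ω D * σ θ) (c σ) * b (σ θ)) * hsq (σ θ)

end Unique

section Conj

variable {R F L Ω : Type*} [CommRing R] [Field F] [IsAlgClosed F] [Field L] [Field Ω]
  [Algebra F[X] L] [IsFractionRing F[X] L] [Algebra L Ω] [Algebra F[X] Ω] [IsScalarTower F[X] L Ω]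
  [Algebra R L] [Algebra R Ω] [IsScalarTower R L Ω] {W : Affine R} {g D : F[X]}
  [IsGalois L Ω] [IsSepClosed Ω] [DecidableEq Ω] {γ : Ω ≃ₐ[R] Ω} {τ : F →+* F}

lemma ev_gamma (hγ : ∀ p : F[X], γ (algebraMap F[X] Ω p) = algebraMap F[X] Ω (p.map τ))
    (θ : Ω) (p : F[X]) : γ (ev F Ω θ p) = ev F Ω (γ θ) (p.map τ) := by
  have h : (γ : Ω →+* Ω).comp (ev F Ω θ) = (ev F Ω (γ θ)).comp (mapRingHom τ) := by
    apply Polynomial.ringHom_ext
    · intro a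
      simp only [RingHom.comp_apply, ev_C, coe_mapRingHom, map_C]
      have := hγ (C a)
      rw [map_C] at this
      exact this
    · simp [ev_X]
  exact RingHom.congr_fun h p

lemma gamma_mem_rootSet (hγ : ∀ p : F[X], γ (algebraMap F[X] Ω p) = algebraMap F[X] Ω (p.map τ))
    (hgτ : g.map τ = g) {θ : Ω} (hθ : θ ∈ RootSet (Ω := Ω) g) : γ θ ∈ RootSet (Ω := Ω) g := by
  change ev F Ω (γ θ) g = _
  have h1 := ev_gamma hγ θ g
  rw [hgτ, show ev F Ω θ g = _ from hθ, hγ, map_X] at h1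
  exact h1.symm

lemma gamma_symm_mem_rootSet
    (hγ : ∀ p : F[X], γ (algebraMap F[X] Ω p) = algebraMap F[X] Ω (p.map τ))
    (hgτ : g.map τ = g) {θ : Ω} (hθ : θ ∈ RootSet (Ω := Ω) g) :
    γ.symm θ ∈ RootSet (Ω := Ω) g := by
  change ev F Ω (γ.symm θ) g = _
  apply γ.injective
  rw [ev_gamma hγ, hgτ, γ.apply_symm_apply, hγ, map_X]
  exact hθ

/-- Conjugating the cocycle by an automorphism over `k(t)`. -/
lemma IsDesc.conj {c c' : (Ω ≃ₐ[L] Ω) → (W.baseChange Ω).Point} {Z : Finset F}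
    {b : Ω → Ω} (h : IsDesc W g D c Z b)
    (hγ : ∀ p : F[X], γ (algebraMap F[X] Ω p) = algebraMap F[X] Ω (p.map τ))
    (hgτ : g.map τ = g) (hDτ : D.map τ = D)
    (hconj : ∀ σ : Ω ≃ₐ[L] Ω, ∃ σ' : Ω ≃ₐ[L] Ω, (∀ x, γ (σ' x) = σ (γ x)) ∧
      c' σ = Point.map (W' := W) (γ : Ω →ₐ[R] Ω) (c σ')) :
    IsDesc W g D c' (Z.image τ) (fun θ => γ (b (γ.symm θ))) := by
  refine ⟨?_, ?_⟩
  · intro θ hθ
    have hθ' := gamma_symm_mem_rootSet hγ hgτ hθ
    rw [← map_pow, h.sq _ hθ', map_prod, Finset.prod_image (fun x _ y _ hxy => τ.injective hxy)]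
    apply Finset.prod_congr rfl
    intro β _
    rw [map_sub, γ.apply_symm_apply, hγ, map_C]
  · intro θ hθ σ
    have hθ' := gamma_symm_mem_rootSet hγ hgτ hθ
    obtain ⟨σ', h1, h3⟩ := hconj σ
    have h4 : σ' (γ.symm θ) = γ.symm (σ θ) := by
      apply γ.injective
      rw [h1, γ.apply_symm_apply, γ.apply_symm_apply]
    rw [← h1, h.act _ hθ', map_mul, h4, h3]
    congr 1
    have h5 : algebraMap F[X] Ω D * σ θ = (γ : Ω →ₐ[R] Ω) (algebraMap F[X] Ω D * γ.symm (σ θ)) := by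
      change _ = γ (algebraMap F[X] Ω D * γ.symm (σ θ))
      rw [map_mul, hγ, hDτ, γ.apply_symm_apply]
    rw [h5, rho_map]
    rfl

/-- Invariance of the class implies invariance of the set `Z`. -/
lemma IsDesc.image_eq {c : (Ω ≃ₐ[L] Ω) → (W.baseChange Ω).Point} {Z : Finset F}
    {b : Ω → Ω} (h : IsDesc W g D c Z b) (h2 : (2 : Ω) ≠ 0)
    (hW : IsTwist Ω W g D) (hg : g.Monic) (hdeg : g.natDegree = 3) (hd : derivative g ≠ 0)
    (hc : ∀ σ, 2 • c σ = 0)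
    (hγ : ∀ p : F[X], γ (algebraMap F[X] Ω p) = algebraMap F[X] Ω (p.map τ))
    (hgτ : g.map τ = g) (hDτ : D.map τ = D)
    (hconj : ∀ σ : Ω ≃ₐ[L] Ω, ∃ σ' : Ω ≃ₐ[L] Ω, ∀ x, γ (σ' x) = σ (γ x))
    {A : (W.baseChange Ω).Point} (hA : 2 • A = 0)
    (hinv : ∀ σ' σ : Ω ≃ₐ[L] Ω, (∀ x, γ (σ' x) = σ (γ x)) →
      Point.map (W' := W) (γ : Ω →ₐ[R] Ω) (c σ') - c σ =
        Point.map (W' := W) (σ : Ω →ₐ[L] Ω) A - A) :
    Z.image τ = Z := by
  set c' : (Ω ≃ₐ[L] Ω) → (W.baseChange Ω).Point :=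
    fun σ => c σ + (Point.map (W' := W) (σ : Ω →ₐ[L] Ω) A - A) with hc'
  have h3 := h.twist h2 hW hg hdeg hA (c' := c') (fun σ => rfl)
  have h4 := h.conj (c' := c') hγ hgτ hDτ (by
    intro σ
    obtain ⟨σ', hσ'⟩ := hconj σ
    refine ⟨σ', hσ', ?_⟩
    rw [hc']
    simp only
    rw [← hinv σ' σ hσ']
    abel)
  apply h4.unique h3 h2 hW hg hdeg hd
  intro σ
  have hσA : 2 • Point.map (W' := W) (σ : Ω →ₐ[L] Ω) A = 0 := by
    rw [← map_nsmul, hA, map_zero]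
  rw [hc']
  simp only
  rw [smul_add, hc, smul_sub, hσA, hA, sub_zero, add_zero]

end Conj

end Pool.Agent.Lib.MP_89bcae_ag
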