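import Mathlib

/-!
# Two-torsion and halving on `y² = (x - a)(x - b)(x - c)`

Elementary formulas for the group law on a Weierstrass curve over a field of characteristic not two
whose two-torsion is rational.
-/

open WeierstrassCurve WeierstrassCurve.Affine

namespace Pool.Agent.Lib.MP_89bcae_ag

variable {F : Type*} [Field F] [DecidableEq F]

/-- `W` is the curve `y² = (x - a)(x - b)(x - c)` with `a, b, c` distinct, in characteristic
not two. -/
structure Split (W : Affine F) (a b c : F) : Prop where
  a₁ : W.a₁ = 0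
  a₂ : W.a₂ = -(a + b + c)
  a₃ : W.a₃ = 0
  a₄ : W.a₄ = a * b + a * c + b * c
  a₆ : W.a₆ = -(a * b * c)
  ab : a ≠ b
  ac : a ≠ c
  bc : b ≠ c
  two : (2 : F) ≠ 0

namespace Split

variable {W : Affine F} {a b c : F}

omit [DecidableEq F] in
lemma swap12 (h : Split W a b c) : Split W b a c where
  a₁ := h.a₁
  a₂ := by rw [h.a₂]; ring
  a₃ := h.a₃
  a₄ := by rw [h.a₄]; ring
  a₆ := by rw [h.a₆]; ring
  ab := h.ab.symm
  ac := h.bc
  bc := h.ac
  two := h.two

omit [DecidableEq F] in
lemma swap23 (h : Split W a b c) : Split W a c b where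
  a₁ := h.a₁
  a₂ := by rw [h.a₂]; ring
  a₃ := h.a₃
  a₄ := by rw [h.a₄]; ring
  a₆ := by rw [h.a₆]; ring
  ab := h.ac
  ac := h.ab
  bc := h.bc.symm
  two := h.two

omit [DecidableEq F] in
lemma rot (h : Split W a b c) : Split W b c a := h.swap12.swap23

omit [DecidableEq F] in
lemma equation_iff (h : Split W a b c) (x y : F) :
    W.Equation x y ↔ y ^ 2 = (x - a) * (x - b) * (x - c) := by
  rw [Affine.equation_iff, h.a₁, h.a₂, h.a₃, h.a₄, h.a₆]
  constructor <;> intro H <;> linear_combination H

omit [DecidableEq F] in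
lemma negY_eq (h : Split W a b c) (x y : F) : W.negY x y = -y := by
  rw [Affine.negY, h.a₁, h.a₃]; ring

omit [DecidableEq F] in
lemma nonsingular_of_equation (h : Split W a b c) {x y : F}
    (H : y ^ 2 = (x - a) * (x - b) * (x - c)) : W.Nonsingular x y := by
  rw [Affine.nonsingular_iff', h.equation_iff]
  refine ⟨H, ?_⟩
  rw [h.a₁, h.a₂, h.a₃, h.a₄]
  by_cases hy : y = 0
  · left
    subst hy
    have H' : (x - a) * (x - b) * (x - c) = 0 := by rw [← H]; ring
    rcases mul_eq_zero.mp H' with H' | H'
    · rcases mul_eq_zero.mp H' with H' | H'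
      · obtain rfl : x = a := sub_eq_zero.mp H'
        intro h0
        have : (x - b) * (x - c) = 0 := by linear_combination -h0
        rcases mul_eq_zero.mp this with h1 | h1
        · exact h.ab (sub_eq_zero.mp h1)
        · exact h.ac (sub_eq_zero.mp h1)
      · obtain rfl : x = b := sub_eq_zero.mp H'
        intro h0
        have : (x - a) * (x - c) = 0 := by linear_combination -h0
        rcases mul_eq_zero.mp this with h1 | h1
        · exact h.ab (sub_eq_zero.mp h1).symm
        · exact h.bc (sub_eq_zero.mp h1)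
    · obtain rfl : x = c := sub_eq_zero.mp H'
      intro h0
      have : (x - a) * (x - b) = 0 := by linear_combination -h0
      rcases mul_eq_zero.mp this with h1 | h1
      · exact h.ac (sub_eq_zero.mp h1).symm
      · exact h.bc (sub_eq_zero.mp h1).symm
  · right
    intro h0
    have : (2 : F) * y = 0 := by linear_combination h0
    rcases mul_eq_zero.mp this with h1 | h1
    · exact h.two h1
    · exact hy h1

/-- The two-torsion point `(a, 0)`. -/
def T (h : Split W a b c) : W.Point :=
  .some a 0 (h.nonsingular_of_equation (by ring))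

omit [DecidableEq F] in
lemma eq_of_point (h : Split W a b c) {x y : F} (hP : W.Nonsingular x y) :
    y ^ 2 = (x - a) * (x - b) * (x - c) :=
  (h.equation_iff x y).mp hP.1

/-- A point which is killed by two is `0` or one of the three points `(a, 0)`, `(b, 0)`,
`(c, 0)`. -/
lemma two_torsion (h : Split W a b c) (R : W.Point) (hR : R + R = 0) :
    R = 0 ∨ R = h.T ∨ R = h.swap12.T ∨ R = h.rot.rot.T := by
  rcases R with _ | ⟨x, y, hP⟩
  · exact Or.inl rfl
  · right
    by_cases hy : y = W.negY x y
    · rw [h.negY_eq] at hy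
      have hy0 : y = 0 := by
        have : (2 : F) * y = 0 := by linear_combination hy
        rcases mul_eq_zero.mp this with h1 | h1
        · exact absurd h1 h.two
        · exact h1
      subst hy0
      have H := h.eq_of_point hP
      have H' : (x - a) * (x - b) * (x - c) = 0 := by rw [← H]; ring
      rcases mul_eq_zero.mp H' with H' | H'
      · rcases mul_eq_zero.mp H' with H' | H'
        · obtain rfl : x = a := sub_eq_zero.mp H'
          exact Or.inl rfl
        · obtain rfl : x = b := sub_eq_zero.mp H'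
          exact Or.inr (Or.inl rfl)
      · obtain rfl : x = c := sub_eq_zero.mp H'
        exact Or.inr (Or.inr rfl)
    · rw [Point.add_self_of_Y_ne hy] at hR
      exact absurd hR (Point.some_ne_zero _)

lemma T_add_T (h : Split W a b c) : h.T + h.T = 0 := by
  apply Point.add_self_of_Y_eq
  rw [h.negY_eq]; ring

/-- The function `ρ_a(R) = ((x - a)² - (a - b)(a - c)) / (2 y)`, a square root of
`x(2R) - a`. -/
def rho (a b c x y : F) : F := ((x - a) ^ 2 - (a - b) * (a - c)) / (2 * y)

omit [DecidableEq F] in
lemma rho_comm (a b c x y : F) : rho a b c x y = rho a c b x y := by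
  unfold rho; ring

/-- Doubling. -/
lemma double_some (h : Split W a b c) {x y : F} (hP : W.Nonsingular x y) (hy : y ≠ 0) :
    ∃ (X Y : F) (H : W.Nonsingular X Y), Point.some x y hP + Point.some x y hP = .some X Y H ∧
      X - a = (rho a b c x y) ^ 2 ∧ X - b = (rho b a c x y) ^ 2 ∧ X - c = (rho c a b x y) ^ 2 := by
  have h2 := h.two
  have hy' : y ≠ W.negY x y := by
    rw [h.negY_eq]
    intro h0
    have : (2 : F) * y = 0 := by linear_combination h0
    rcases mul_eq_zero.mp this with h1 | h1
    · exact h2 h1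
    · exact hy h1
  have H := h.eq_of_point hP
  refine ⟨_, _, _, Point.add_self_of_Y_ne hy', ?_, ?_, ?_⟩
  all_goals
    rw [Affine.addX, slope_of_Y_ne rfl hy', h.negY_eq, h.a₁, h.a₂, h.a₄]
    unfold rho
    have e1 : y - -y = 2 * y := by ring
    rw [e1]
    field_simp
    rw [show y ^ 2 = (x - a) * (x - b) * (x - c) from H]
    ring

/-- Translation by a two-torsion point. -/
lemma add_T (h : Split W a b c) {x y : F} (hP : W.Nonsingular x y) (hy : y ≠ 0) :
    ∃ (H : W.Nonsingular (a + (a - b) * (a - c) / (x - a))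
        (-(y * ((a - b) * (a - c)) / (x - a) ^ 2))),
      Point.some x y hP + h.T = .some _ _ H := by
  have H := h.eq_of_point hP
  have hxa : x - a ≠ 0 := by
    intro h0
    apply hy
    have : y ^ 2 = 0 := by rw [H, h0]; ring
    exact pow_eq_zero_iff (two_ne_zero) |>.mp this
  have hx : x ≠ a := sub_ne_zero.mp hxa
  have key := Point.add_of_X_ne (W := W) (h₁ := hP) (h₂ := (h.nonsingular_of_equation (by ring) :
    W.Nonsingular a 0)) hx
  have eX : W.addX x a (W.slope x a y 0) = a + (a - b) * (a - c) / (x - a) := by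
    rw [Affine.addX, slope_of_X_ne hx, h.a₁, h.a₂]
    field_simp
    linear_combination H
  have eY : W.addY x a y (W.slope x a y 0) = -(y * ((a - b) * (a - c)) / (x - a) ^ 2) := by
    rw [Affine.addY, Affine.negAddY, h.negY_eq, eX, slope_of_X_ne hx]
    field_simp
    ring
  have N := nonsingular_add (W := W) hP ((h.nonsingular_of_equation (by ring) :
    W.Nonsingular a 0)) (fun hxy => hx hxy.left)
  rw [eX, eY] at N
  refine ⟨N, ?_⟩
  rw [T, key]
  simp only [Point.some.injEq]
  exact ⟨eX, eY⟩

omit [DecidableEq F] in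
lemma ne_root (h : Split W a b c) {x y : F} (hP : W.Nonsingular x y) (hy : y ≠ 0) :
    x - a ≠ 0 := by
  have H := h.eq_of_point hP
  intro h0
  apply hy
  have : y ^ 2 = 0 := by rw [H, h0]; ring
  exact pow_eq_zero_iff (two_ne_zero) |>.mp this

omit [DecidableEq F] in
/-- `ρ_a` is invariant under translation by `(a, 0)`. -/
lemma rho_add_T_self (h : Split W a b c) {x y : F} (hP : W.Nonsingular x y) (hy : y ≠ 0) :
    rho a b c (a + (a - b) * (a - c) / (x - a)) (-(y * ((a - b) * (a - c)) / (x - a) ^ 2)) =
      rho a b c x y := by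
  have hxa := h.ne_root hP hy
  have hab : a - b ≠ 0 := sub_ne_zero.mpr h.ab
  have hac : a - c ≠ 0 := sub_ne_zero.mpr h.ac
  have h2 := h.two
  unfold rho
  field_simp
  ring

omit [DecidableEq F] in
/-- `ρ_b` changes sign under translation by `(a, 0)`. -/
lemma rho_add_T_other (h : Split W a b c) {x y : F} (hP : W.Nonsingular x y) (hy : y ≠ 0) :
    rho b a c (a + (a - b) * (a - c) / (x - a)) (-(y * ((a - b) * (a - c)) / (x - a) ^ 2)) =
      - rho b a c x y := by
  have hxa := h.ne_root hP hy
  have hab : a - b ≠ 0 := sub_ne_zero.mpr h.ab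
  have hac : a - c ≠ 0 := sub_ne_zero.mpr h.ac
  have h2 := h.two
  unfold rho
  field_simp
  ring

/-- The doubling map is surjective over a field in which every element is a square. -/
lemma exists_half (h : Split W a b c) (hsq : ∀ z : F, ∃ w, w ^ 2 = z) (P : W.Point) :
    ∃ Q : W.Point, Q + Q = P := by
  rcases P with _ | ⟨X, Y, hP⟩
  · exact ⟨0, by simp [Point.zero_def]⟩
  · obtain ⟨r₁, h₁⟩ := hsq (X - a)
    obtain ⟨r₂, h₂⟩ := hsq (X - b)
    obtain ⟨r₃, h₃⟩ := hsq (X - c)
    have h2 := h.two
    have h12 : r₁ + r₂ ≠ 0 := by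
      intro h0
      apply h.ab
      have : r₁ ^ 2 = r₂ ^ 2 := by linear_combination (r₁ - r₂) * h0
      rw [h₁, h₂] at this
      linear_combination -this
    have h13 : r₁ + r₃ ≠ 0 := by
      intro h0
      apply h.ac
      have : r₁ ^ 2 = r₃ ^ 2 := by linear_combination (r₁ - r₃) * h0
      rw [h₁, h₃] at this
      linear_combination -this
    have h23 : r₂ + r₃ ≠ 0 := by
      intro h0
      apply h.bc
      have : r₂ ^ 2 = r₃ ^ 2 := by linear_combination (r₂ - r₃) * h0
      rw [h₂, h₃] at this
      linear_combination -this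
    set x := X + r₁ * r₂ + r₁ * r₃ + r₂ * r₃ with hx
    set y := (r₁ + r₂) * (r₁ + r₃) * (r₂ + r₃) with hy
    have xa : x - a = (r₁ + r₂) * (r₁ + r₃) := by rw [hx]; linear_combination -h₁
    have xb : x - b = (r₁ + r₂) * (r₂ + r₃) := by rw [hx]; linear_combination -h₂
    have xc : x - c = (r₁ + r₃) * (r₂ + r₃) := by rw [hx]; linear_combination -h₃
    have hN : W.Nonsingular x y := h.nonsingular_of_equation (by rw [xa, xb, xc, hy]; ring)
    have hy0 : y ≠ 0 := mul_ne_zero (mul_ne_zero h12 h13) h23
    obtain ⟨X', Y', H', e, ea, -, -⟩ := h.double_some hN hy0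
    have hX : X' = X := by
      have : rho a b c x y = r₁ := by
        unfold rho
        rw [div_eq_iff (mul_ne_zero h2 hy0), xa, hy]
        have e1 : a - b = r₂ ^ 2 - r₁ ^ 2 := by linear_combination h₁ - h₂
        have e2 : a - c = r₃ ^ 2 - r₁ ^ 2 := by linear_combination h₁ - h₃
        rw [e1, e2]
        ring
      rw [this] at ea
      linear_combination ea + h₁
    rcases (Point.X_eq_iff (h₁ := H') (h₂ := hP)).mp hX with h0 | h0
    · exact ⟨.some x y hN, by rw [e, h0]⟩
    · refine ⟨-(.some x y hN), ?_⟩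
      rw [← neg_add, e, h0, neg_neg]

omit [DecidableEq F] in
lemma T_ne_zero (h : Split W a b c) : h.T ≠ 0 := Point.some_ne_zero _

omit [DecidableEq F] in
lemma T_ne_T (h : Split W a b c) : h.T ≠ h.swap12.T := by
  intro H
  simp only [T, Point.some.injEq] at H
  exact h.ab H.1

/-- `(a, 0) + (b, 0) = (c, 0)`. -/
lemma T_add (h : Split W a b c) : h.T + h.swap12.T = h.rot.rot.T := by
  have h1 : (h.T + h.swap12.T) + (h.T + h.swap12.T) = 0 := by
    have := h.T_add_T
    have := h.swap12.T_add_T
    calc (h.T + h.swap12.T) + (h.T + h.swap12.T) = (h.T + h.T) + (h.swap12.T + h.swap12.T) := by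
          abel
      _ = 0 := by rw [h.T_add_T, h.swap12.T_add_T, add_zero]
  rcases h.two_torsion _ h1 with H | H | H | H
  · exfalso
    apply h.T_ne_T
    have := h.swap12.T_add_T
    calc h.T = h.T + (h.swap12.T + h.swap12.T) := by rw [this, add_zero]
      _ = (h.T + h.swap12.T) + h.swap12.T := by abel
      _ = h.swap12.T := by rw [H, zero_add]
  · exfalso
    exact h.swap12.T_ne_zero (by simpa using H)
  · exfalso
    exact h.T_ne_zero (by simpa using H)
  · exact H

open Classical in
/-- The character `T ↦ e₂(T, (a, 0))` of the two-torsion. -/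
noncomputable def chi (h : Split W a b c) (P : W.Point) : ℤ := if P = 0 ∨ P = h.T then 1 else -1

lemma chi_zero (h : Split W a b c) : h.chi 0 = 1 := by simp [chi]

lemma chi_self (h : Split W a b c) : h.chi h.T = 1 := by simp [chi]

lemma chi_other (h : Split W a b c) : h.chi h.swap12.T = -1 := by
  have h1 : h.swap12.T ≠ h.T := h.T_ne_T.symm
  have h2 : h.swap12.T ≠ 0 := Point.some_ne_zero _
  simp [chi, h1, h2]

lemma chi_other' (h : Split W a b c) : h.chi h.rot.rot.T = -1 := by
  have h1 : h.rot.rot.T ≠ h.T := by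
    intro H
    simp only [T, Point.some.injEq] at H
    exact h.ac H.1.symm
  have h2 : h.rot.rot.T ≠ 0 := Point.some_ne_zero _
  simp [chi, h1, h2]

lemma chi_sq (h : Split W a b c) (P : W.Point) : h.chi P * h.chi P = 1 := by
  unfold chi
  split_ifs <;> norm_num

lemma chi_add (h : Split W a b c) {P Q : W.Point} (hP : P + P = 0) (hQ : Q + Q = 0) :
    h.chi (P + Q) = h.chi P * h.chi Q := by
  have e0 := h.chi_zero
  have ea := h.chi_self
  have eb := h.chi_other
  have ec := h.chi_other'
  have haa := h.T_add_T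
  have hbb := h.swap12.T_add_T
  have hcc := h.rot.rot.T_add_T
  have hab : h.T + h.swap12.T = h.rot.rot.T := h.T_add
  have hba : h.swap12.T + h.T = h.rot.rot.T := by rw [add_comm]; exact hab
  have hac : h.T + h.rot.rot.T = h.swap12.T := by rw [← hab, ← add_assoc, haa, zero_add]
  have hca : h.rot.rot.T + h.T = h.swap12.T := by rw [add_comm]; exact hac
  have hbc : h.swap12.T + h.rot.rot.T = h.T := by
    rw [← hab, add_comm h.T, ← add_assoc, hbb, zero_add]
  have hcb : h.rot.rot.T + h.swap12.T = h.T := by rw [add_comm]; exact hbc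
  rcases h.two_torsion P hP with rfl | rfl | rfl | rfl <;>
  rcases h.two_torsion Q hQ with rfl | rfl | rfl | rfl <;>
  simp [e0, ea, eb, ec, haa, hbb, hcc, hab, hba, hac, hca, hbc, hcb]

lemma chi_swap23 (h : Split W a b c) (P : W.Point) : h.swap23.chi P = h.chi P := rfl

lemma chi_mul_chi (h : Split W a b c) {P : W.Point} (hP : P + P = 0) :
    h.swap12.chi P * h.rot.rot.chi P = h.chi P := by
  have e1 : h.swap12.T ≠ h.T := h.T_ne_T.symm
  have e2 : h.rot.rot.T ≠ h.T := by
    intro H
    simp only [T, Point.some.injEq] at H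
    exact h.ac H.1.symm
  have e3 : h.rot.rot.T ≠ h.swap12.T := by
    intro H
    simp only [T, Point.some.injEq] at H
    exact h.bc H.1.symm
  have z1 : h.T ≠ 0 := h.T_ne_zero
  have z2 : h.swap12.T ≠ 0 := h.swap12.T_ne_zero
  have z3 : h.rot.rot.T ≠ 0 := h.rot.rot.T_ne_zero
  rcases h.two_torsion P hP with rfl | rfl | rfl | rfl <;>
  simp [chi, e1, e2, e3, e1.symm, e2.symm, e3.symm, z1, z2, z3]

lemma eq_zero_of_chi (h : Split W a b c) {P : W.Point} (hP : P + P = 0) (h1 : h.chi P = 1)
    (h2 : h.swap12.chi P = 1) : P = 0 := by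
  rcases h.two_torsion P hP with rfl | rfl | rfl | rfl
  · rfl
  · exfalso
    have := h.swap12.chi_other
    have e : h.swap12.swap12.T = h.T := rfl
    rw [e, h2] at this
    norm_num at this
  · exfalso
    rw [h.chi_other] at h1
    norm_num at h1
  · exfalso
    rw [h.chi_other'] at h1
    norm_num at h1

/-- `ρ_a` of a point, translated by a two-torsion point, changes by the character `chi`. -/
lemma rho_add_torsion (h : Split W a b c) {x y : F} (hP : W.Nonsingular x y) (hy : y ≠ 0)
    {x' y' : F} (hP' : W.Nonsingular x' y') {T : W.Point} (hT : T + T = 0)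
    (e : Point.some x' y' hP' = Point.some x y hP + T) :
    rho a b c x' y' = (h.chi T : F) * rho a b c x y := by
  rcases h.two_torsion T hT with rfl | rfl | rfl | rfl
  · rw [h.chi_zero, add_zero] at *
    simp only [Point.some.injEq] at e
    rw [e.1, e.2]; simp
  · rw [h.chi_self]
    obtain ⟨H, e'⟩ := h.add_T hP hy
    rw [e'] at e
    simp only [Point.some.injEq] at e
    rw [e.1, e.2, h.rho_add_T_self hP hy]; simp
  · rw [h.chi_other]
    obtain ⟨H, e'⟩ := h.swap12.add_T hP hy
    rw [e'] at e
    simp only [Point.some.injEq] at e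
    rw [e.1, e.2, h.swap12.rho_add_T_other hP hy]; simp
  · rw [h.chi_other']
    obtain ⟨H, e'⟩ := h.rot.rot.add_T hP hy
    rw [e'] at e
    simp only [Point.some.injEq] at e
    rw [e.1, e.2, rho_comm a b c, rho_comm a b c, h.rot.rot.rho_add_T_other hP hy]; simp

end Split

end Pool.Agent.Lib.MP_89bcae_ag
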