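import Mathlib
import Pool.Agent.Lib.MP_89bcae_ag.TwoTorsion

/-!
# Quadratic characters of a Galois group and classes modulo squares
-/

open WeierstrassCurve WeierstrassCurve.Affine

namespace Pool.Agent.Lib.MP_89bcae_ag

section Character

variable {F Ω : Type*} [Field F] [Field Ω] [Algebra F Ω] [IsGalois F Ω]

/-- A locally constant quadratic character of an absolute Galois group has an eigenvector. -/
lemma exists_eigen (χ : (Ω ≃ₐ[F] Ω) → ℤ) (h1 : ∀ g, χ g = 1 ∨ χ g = -1)
    (hmul : ∀ g h, χ (g * h) = χ g * χ h) (hcont : IsLocallyConstant χ) :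
    ∃ β : Ω, β ≠ 0 ∧ ∀ g : Ω ≃ₐ[F] Ω, g β = (χ g : Ω) * β := by
  have hone : χ 1 = 1 := by
    rcases h1 1 with h | h
    · exact h
    · have := hmul 1 1
      rw [mul_one, h] at this
      norm_num at this
  have hinv : ∀ g, χ g⁻¹ = χ g := by
    intro g
    have := hmul g g⁻¹
    rw [mul_inv_cancel, hone] at this
    rcases h1 g with h | h <;> rcases h1 g⁻¹ with h' | h' <;> rw [h, h'] at this <;> omega
  let H : ClosedSubgroup (Ω ≃ₐ[F] Ω) :=
    { carrier := {g | χ g = 1}
      mul_mem' := by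
        intro a b ha hb
        simp only [Set.mem_ofPred_eq] at *
        rw [hmul, ha, hb, mul_one]
      one_mem' := hone
      inv_mem' := by
        intro a ha
        simp only [Set.mem_ofPred_eq] at *
        rw [hinv, ha]
      isClosed' := by
        have : IsClopen (χ ⁻¹' {1}) := hcont.isClopen_fiber 1
        exact this.1 }
  by_cases hall : ∀ g, χ g = 1
  · exact ⟨1, one_ne_zero, fun g => by rw [hall g]; simp⟩
  · push Not at hall
    obtain ⟨g₀, hg₀⟩ := hall
    have hg₀' : χ g₀ = -1 := (h1 g₀).resolve_left hg₀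
    have hfix := InfiniteGalois.fixingSubgroup_fixedField H
    have hnot : g₀ ∉ (IntermediateField.fixedField H.toSubgroup).fixingSubgroup := by
      rw [hfix]
      exact hg₀
    rw [IntermediateField.mem_fixingSubgroup_iff] at hnot
    push Not at hnot
    obtain ⟨z, hz, hne⟩ := hnot
    rw [IntermediateField.mem_fixedField_iff] at hz
    refine ⟨z - g₀ z, sub_ne_zero.mpr (Ne.symm hne), ?_⟩
    have hH : ∀ h : Ω ≃ₐ[F] Ω, χ h = 1 → h z = z := fun h hh => hz h hh
    have hH' : ∀ h : Ω ≃ₐ[F] Ω, χ h = -1 → h z = g₀ z := by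
      intro h hh
      have e1 : χ (g₀⁻¹ * h) = 1 := by rw [hmul, hinv, hg₀', hh]; norm_num
      have e2 := hH _ e1
      have e3 : g₀ ((g₀⁻¹ * h) z) = g₀ z := by rw [e2]
      rw [← AlgEquiv.mul_apply, mul_inv_cancel_left] at e3
      exact e3
    intro g
    rcases h1 g with hg | hg
    · have e1 : g (g₀ z) = g₀ z := by
        rw [← AlgEquiv.mul_apply]
        exact hH' _ (by rw [hmul, hg, hg₀']; norm_num)
      rw [map_sub, hH g hg, e1, hg]
      simp
    · have e1 : g (g₀ z) = z := by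
        rw [← AlgEquiv.mul_apply]
        exact hH _ (by rw [hmul, hg, hg₀']; norm_num)
      rw [map_sub, hH' g hg, e1, hg]
      simp

omit [IsGalois F Ω] in
lemma sign_sq_fixed {χ : (Ω ≃ₐ[F] Ω) → ℤ} (h1 : ∀ g, χ g * χ g = 1) {β β' : Ω}
    (hβ : ∀ g : Ω ≃ₐ[F] Ω, g β = (χ g : Ω) * β) (hβ' : ∀ g : Ω ≃ₐ[F] Ω, g β' = (χ g : Ω) * β')
    (g : Ω ≃ₐ[F] Ω) : g (β * β') = β * β' := by
  rw [map_mul, hβ, hβ']
  have : (χ g : Ω) * (χ g : Ω) = 1 := by exact_mod_cast congrArg (Int.cast : ℤ → Ω) (h1 g)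
  linear_combination (β * β') * this

lemma exists_of_fixed {x : Ω} (h : ∀ g : Ω ≃ₐ[F] Ω, g x = x) : ∃ y : F, algebraMap F Ω y = x :=
  (InfiniteGalois.mem_range_algebraMap_iff_fixed x).mpr h

end Character

end Pool.Agent.Lib.MP_89bcae_ag
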