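import Mathlib
import Pool.Agent.Lib.MP_89bcae_ag.Kummer

/-!
# Galois action on points and quadratic characters attached to two-torsion cocycles
-/

open WeierstrassCurve WeierstrassCurve.Affine

namespace Pool.Agent.Lib.MP_89bcae_ag

section Maps

variable {R S A B : Type*} [CommRing R] [CommRing S] [Field A] [Field B]
  [Algebra R S] [Algebra R A] [Algebra S A] [IsScalarTower R S A] [Algebra R B] [Algebra S B]
  [IsScalarTower R S B] [DecidableEq A] [DecidableEq B] {W : Affine R} {a b c : R}

/-- `W`, over the field `A`, is the curve `y² = (x - a)(x - b)(x - c)`. -/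
abbrev SplitAt (A : Type*) [Field A] [Algebra R A] (W : Affine R) (a b c : R) : Prop :=
  Split (W.baseChange A) (algebraMap R A a) (algebraMap R A b) (algebraMap R A c)

omit [DecidableEq A] [DecidableEq B] in
lemma algHom_algebraMap (f : A →ₐ[S] B) (x : R) : f (algebraMap R A x) = algebraMap R B x := by
  rw [IsScalarTower.algebraMap_apply R S A, AlgHom.commutes, ← IsScalarTower.algebraMap_apply]

lemma map_T (f : A →ₐ[S] B) (hA : SplitAt A W a b c) (hB : SplitAt B W a b c) :
    Point.map (W' := W) f hA.T = hB.T := by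
  rw [Split.T, Point.map_some, Split.T]
  simp only [Point.some.injEq]
  exact ⟨algHom_algebraMap f a, map_zero f⟩

lemma chi_map (f : A →ₐ[S] B) (hA : SplitAt A W a b c) (hB : SplitAt B W a b c)
    (P : (W.baseChange A).Point) : hB.chi (Point.map (W' := W) f P) = hA.chi P := by
  unfold Split.chi
  have h1 : Point.map (W' := W) f P = 0 ↔ P = 0 := by
    rw [← Point.map_zero (W' := W) f]
    exact (Point.map_injective (W' := W) f).eq_iff
  have h2 : Point.map (W' := W) f P = hB.T ↔ P = hA.T := by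
    rw [← map_T f hA hB]
    exact (Point.map_injective (W' := W) f).eq_iff
  simp only [h1, h2]

omit [DecidableEq A] [DecidableEq B] in
lemma map_rho (f : A →ₐ[S] B) (x y : A) :
    Split.rho (algebraMap R B a) (algebraMap R B b) (algebraMap R B c) (f x) (f y) =
      f (Split.rho (algebraMap R A a) (algebraMap R A b) (algebraMap R A c) x y) := by
  unfold Split.rho
  simp only [map_div₀, map_sub, map_mul, map_pow, algHom_algebraMap, map_ofNat]

omit [DecidableEq A] [DecidableEq B] in
lemma SplitAt.up (hA : SplitAt A W a b c) (f : A →ₐ[S] B) : SplitAt B W a b c where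
  a₁ := by
    have := congrArg f hA.a₁
    rw [map_zero] at this
    exact (algHom_algebraMap f W.a₁).symm.trans this
  a₂ := by
    have := congrArg f hA.a₂
    rw [map_neg, map_add, map_add, algHom_algebraMap, algHom_algebraMap, algHom_algebraMap] at this
    exact (algHom_algebraMap f W.a₂).symm.trans this
  a₃ := by
    have := congrArg f hA.a₃
    rw [map_zero] at this
    exact (algHom_algebraMap f W.a₃).symm.trans this
  a₄ := by
    have := congrArg f hA.a₄
    rw [map_add, map_add, map_mul, map_mul, map_mul, algHom_algebraMap, algHom_algebraMap,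
      algHom_algebraMap] at this
    exact (algHom_algebraMap f W.a₄).symm.trans this
  a₆ := by
    have := congrArg f hA.a₆
    rw [map_neg, map_mul, map_mul, algHom_algebraMap, algHom_algebraMap,
      algHom_algebraMap] at this
    exact (algHom_algebraMap f W.a₆).symm.trans this
  ab := by
    intro h
    apply hA.ab
    apply f.injective
    rw [AlgHom.toRingHom_eq_coe, RingHom.coe_coe, algHom_algebraMap, algHom_algebraMap, h]
  ac := by
    intro h
    apply hA.ac
    apply f.injective
    rw [AlgHom.toRingHom_eq_coe, RingHom.coe_coe, algHom_algebraMap, algHom_algebraMap, h]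
  bc := by
    intro h
    apply hA.bc
    apply f.injective
    rw [AlgHom.toRingHom_eq_coe, RingHom.coe_coe, algHom_algebraMap, algHom_algebraMap, h]
  two := by
    intro h
    apply hA.two
    apply f.injective
    rw [AlgHom.toRingHom_eq_coe, RingHom.coe_coe, map_ofNat, map_zero]
    exact h

/-- A two-torsion point is fixed by every automorphism. -/
lemma map_two_torsion (f : A →ₐ[S] A) (hA : SplitAt A W a b c) {P : (W.baseChange A).Point}
    (hP : P + P = 0) : Point.map (W' := W) f P = P := by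
  have e1 := map_T f hA hA
  have e2 := map_T f (a := b) (b := a) (c := c) hA.swap12 hA.swap12
  have e3 := map_T f (a := c) (b := a) (c := b) hA.rot.rot hA.rot.rot
  rcases hA.two_torsion P hP with rfl | rfl | rfl | rfl
  · rfl
  · exact e1
  · exact e2
  · exact e3

end Maps

section Rep

variable {R F Ω : Type*} [CommRing R] [Field F] [Field Ω] [Algebra R Ω]
  [Algebra F Ω] [DecidableEq Ω] {W : Affine R} {a b c : R}

/-- The element `d` of `F` represents, modulo squares, the quadratic character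
`g ↦ e₂(c(g), (a, 0))` attached to a map `c` from the Galois group to the two-torsion. -/
def Rep (hΩ : SplitAt Ω W a b c) (s : (Ω ≃ₐ[F] Ω) → (W.baseChange Ω).Point) (d : F) : Prop :=
  ∃ β : Ω, β ≠ 0 ∧ β ^ 2 = algebraMap F Ω d ∧ ∀ g : Ω ≃ₐ[F] Ω, g β = (hΩ.chi (s g) : Ω) * β

variable (hΩ : SplitAt Ω W a b c) {s s' : (Ω ≃ₐ[F] Ω) → (W.baseChange Ω).Point} {d d' : F}

include hΩ in
lemma chi_cast_sq (P : (W.baseChange Ω).Point) : (hΩ.chi P : Ω) * (hΩ.chi P : Ω) = 1 := by
  exact_mod_cast congrArg (Int.cast : ℤ → Ω) (hΩ.chi_sq P)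

lemma Rep.mul (h : Rep hΩ s d) (h' : Rep hΩ s' d') (hs : ∀ g, s g + s g = 0)
    (hs' : ∀ g, s' g + s' g = 0) : Rep hΩ (fun g => s g + s' g) (d * d') := by
  obtain ⟨β, hβ, h1, h2⟩ := h
  obtain ⟨β', hβ', h1', h2'⟩ := h'
  refine ⟨β * β', mul_ne_zero hβ hβ', by rw [mul_pow, h1, h1', map_mul], fun g => ?_⟩
  rw [map_mul, h2, h2', hΩ.chi_add (hs g) (hs' g)]
  push_cast
  ring

lemma Rep.unique [IsGalois F Ω] (h : Rep hΩ s d) (h' : Rep hΩ s d') : ∃ w : F, w ≠ 0 ∧
    d * d' = w ^ 2 := by
  obtain ⟨β, hβ, h1, h2⟩ := h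
  obtain ⟨β', hβ', h1', h2'⟩ := h'
  obtain ⟨w, hw⟩ := exists_of_fixed (F := F) (x := β * β') (by
    intro g
    rw [map_mul, h2, h2']
    linear_combination (β * β') * chi_cast_sq hΩ (s g))
  refine ⟨w, ?_, ?_⟩
  · rintro rfl
    rw [map_zero] at hw
    exact mul_ne_zero hβ hβ' hw.symm
  · apply (algebraMap F Ω).injective
    rw [map_mul, map_pow, hw, ← h1, ← h1']
    ring

lemma Rep.ne_zero (h : Rep hΩ s d) : d ≠ 0 := by
  obtain ⟨β, hβ, h1, h2⟩ := h
  rintro rfl
  rw [map_zero] at h1
  exact hβ (pow_eq_zero_iff (two_ne_zero) |>.mp h1)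

lemma Rep.chi_eq_one (h : Rep hΩ s d) {w : F} (hd : d = w ^ 2) (g : Ω ≃ₐ[F] Ω) :
    hΩ.chi (s g) = 1 := by
  obtain ⟨β, hβ, h1, h2⟩ := h
  rw [hd, map_pow] at h1
  have : β = algebraMap F Ω w ∨ β = -algebraMap F Ω w := sq_eq_sq_iff_eq_or_eq_neg.mp h1
  have hfix : g β = β := by
    rcases this with h | h
    · rw [h, AlgEquiv.commutes]
    · rw [h, map_neg, AlgEquiv.commutes]
  have h3 := h2 g
  rw [hfix] at h3
  have h4 : (hΩ.chi (s g) : Ω) = 1 := by
    have : ((hΩ.chi (s g) : Ω) - 1) * β = 0 := by linear_combination -h3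
    rcases mul_eq_zero.mp this with h5 | h5
    · linear_combination h5
    · exact absurd h5 hβ
  unfold Split.chi at h4 ⊢
  split_ifs at h4 ⊢ with h5
  · rfl
  · exfalso
    apply hΩ.two
    push_cast at h4
    linear_combination -h4

lemma Rep.of_eq (h : Rep hΩ s d) (e : ∀ g, s g = s' g) : Rep hΩ s' d := by
  obtain ⟨β, hβ, h1, h2⟩ := h
  exact ⟨β, hβ, h1, fun g => by rw [h2, e]⟩

lemma Rep.mul_sq (h : Rep hΩ s d) {w : F} (hw : w ≠ 0) : Rep hΩ s (d * w ^ 2) := by
  obtain ⟨β, hβ, h1, h2⟩ := h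
  have hw' : algebraMap F Ω w ≠ 0 := fun h => hw ((algebraMap F Ω).injective (by rw [h, map_zero]))
  refine ⟨β * algebraMap F Ω w, mul_ne_zero hβ hw', by rw [mul_pow, h1, map_mul, map_pow],
    fun g => ?_⟩
  rw [map_mul, h2, AlgEquiv.commutes]
  ring

/-- Existence of a representative. -/
lemma exists_rep [IsGalois F Ω] (hs : ∀ g, s g + s g = 0) (hmul : ∀ g h, s (g * h) = s g + s h)
    (hc : IsLocallyConstant s) : ∃ d : F, Rep hΩ s d := by
  obtain ⟨β, hβ, h2⟩ := exists_eigen (F := F) (Ω := Ω) (fun g => hΩ.chi (s g))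
    (fun g => by
      unfold Split.chi
      split_ifs
      · exact Or.inl rfl
      · exact Or.inr rfl)
    (fun g h => by rw [hmul, hΩ.chi_add (hs g) (hs h)])
    (hc.comp hΩ.chi)
  obtain ⟨d, hd⟩ := exists_of_fixed (F := F) (x := β * β) (by
    intro g
    rw [map_mul, h2]
    linear_combination (β * β) * chi_cast_sq hΩ (s g))
  exact ⟨d, β, hβ, by rw [hd]; ring, h2⟩

end Rep

end Pool.Agent.Lib.MP_89bcae_ag
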