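import Mathlib
import Pool.Agent.Lib.MP_89bcae_ag.Points

/-!
# Local conditions at a place
-/

open WeierstrassCurve WeierstrassCurve.Affine WithZero Multiplicative

namespace Pool.Agent.Lib.MP_89bcae_ag

section Valuation

variable {L : Type*} [Field L] (w : Valuation L ℤᵐ⁰)

/-- The valuation, written additively (with the sign convention of `Valuation`). -/
noncomputable def lg (x : L) : ℤ := WithZero.log (w x)

lemma lg_mul {x y : L} (hx : x ≠ 0) (hy : y ≠ 0) : lg w (x * y) = lg w x + lg w y := by
  unfold lg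
  rw [map_mul, WithZero.log_mul ((Valuation.ne_zero_iff w).mpr hx)
    ((Valuation.ne_zero_iff w).mpr hy)]

lemma lg_pow {x : L} (n : ℕ) : lg w (x ^ n) = n * lg w x := by
  unfold lg
  rw [map_pow, WithZero.log_pow, nsmul_eq_mul]

lemma lg_neg (x : L) : lg w (-x) = lg w x := by
  unfold lg; rw [Valuation.map_neg]

lemma lg_lt {x y : L} (hx : x ≠ 0) (hy : y ≠ 0) : lg w x < lg w y ↔ w x < w y :=
  WithZero.log_lt_log ((Valuation.ne_zero_iff w).mpr hx) ((Valuation.ne_zero_iff w).mpr hy)

lemma lg_add_of_lt {x y : L} (hx : x ≠ 0) (hy : y ≠ 0) (h : lg w x < lg w y) :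
    x + y ≠ 0 ∧ lg w (x + y) = lg w y := by
  have h1 := (lg_lt w hx hy).mp h
  have h2 := w.map_add_eq_of_lt_right h1
  refine ⟨?_, by unfold lg; rw [h2]⟩
  intro h0
  rw [h0, map_zero] at h2
  exact (Valuation.ne_zero_iff w).mpr hy h2.symm

/-- If `a - b` and `a - c` have the same even valuation, then `x - a` has even valuation for every
point `(x, y)` of `y² = (x - a)(x - b)(x - c)` with `x ≠ a`. -/
lemma even_lg_sub {a b c x y : L} (hab : a ≠ b) (hac : a ≠ c)
    (he : lg w (a - b) = lg w (a - c)) (h2 : Even (lg w (a - b)))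
    (H : y ^ 2 = (x - a) * (x - b) * (x - c)) (hx : x ≠ a) : Even (lg w (x - a)) := by
  have hxa : x - a ≠ 0 := sub_ne_zero.mpr hx
  have hab' : a - b ≠ 0 := sub_ne_zero.mpr hab
  have hac' : a - c ≠ 0 := sub_ne_zero.mpr hac
  rcases lt_trichotomy (lg w (x - a)) (lg w (a - b)) with h | h | h
  · obtain ⟨n1, e1⟩ := lg_add_of_lt w hxa hab' h
    obtain ⟨n2, e2⟩ := lg_add_of_lt w hxa hac' (he ▸ h)
    have s1 : x - a + (a - b) = x - b := by ring
    have s2 : x - a + (a - c) = x - c := by ring
    rw [s1] at n1 e1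
    rw [s2] at n2 e2
    have e3 := congrArg (lg w) H
    rw [lg_pow, lg_mul w (mul_ne_zero hxa n1) n2, lg_mul w hxa n1, e1, e2, ← he] at e3
    have : lg w (x - a) = 2 * (lg w y - lg w (a - b)) := by push_cast at e3; linarith
    rw [this]
    exact even_two_mul _
  · rw [h]; exact h2
  · obtain ⟨n1, e1⟩ := lg_add_of_lt w hab' hxa h
    obtain ⟨n2, e2⟩ := lg_add_of_lt w hac' hxa (he ▸ h)
    have s1 : a - b + (x - a) = x - b := by ring
    have s2 : a - c + (x - a) = x - c := by ring
    rw [s1] at n1 e1
    rw [s2] at n2 e2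
    have e3 := congrArg (lg w) H
    rw [lg_pow, lg_mul w (mul_ne_zero hxa n1) n2, lg_mul w hxa n1, e1, e2] at e3
    have : lg w (x - a) = 2 * (lg w y - lg w (x - a)) := by push_cast at e3; linarith
    rw [this]
    exact even_two_mul _

end Valuation

section Restrict

variable {F Ω ΩL : Type*} [Field F] [Field Ω] [Field ΩL] [Algebra F Ω] [Algebra F ΩL]
  [Normal F Ω]

/-- Restriction of an automorphism along an embedding of a normal extension. -/
lemma exists_restrict (j : Ω →ₐ[F] ΩL) (g : ΩL ≃ₐ[F] ΩL) :
    ∃ g' : Ω ≃ₐ[F] Ω, ∀ x, j (g' x) = g (j x) := by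
  let _ : Algebra Ω ΩL := j.toRingHom.toAlgebra
  have : IsScalarTower F Ω ΩL := IsScalarTower.of_algebraMap_eq fun x => (j.commutes x).symm
  exact ⟨g.restrictNormal Ω, fun x => g.restrictNormal_commutes Ω x⟩

end Restrict

section LocalRep

variable {R F Ω L ΩL : Type*} [CommRing R] [Field F] [Field Ω] [Field L] [Field ΩL]
  [Algebra R F] [Algebra R Ω] [Algebra F Ω] [IsScalarTower R F Ω]
  [Algebra F L] [Algebra R L] [IsScalarTower R F L]
  [Algebra L ΩL] [Algebra F ΩL] [IsScalarTower F L ΩL] [Algebra R ΩL] [IsScalarTower R F ΩL]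
  [IsScalarTower R L ΩL] [Normal F Ω] [IsGalois L ΩL]
  [DecidableEq Ω] [DecidableEq L] [DecidableEq ΩL] {W : Affine R} {a b c : R}

/-- If a two-torsion cocycle becomes, at a place, the Kummer class of a local point, then the
element representing it is locally a square times `x - a` (or a square, or `(a - b)(a - c)` times a
square). -/
lemma local_rep (hΩ : SplitAt Ω W a b c) (hL : SplitAt L W a b c)
    {s : (Ω ≃ₐ[F] Ω) → (W.baseChange Ω).Point} {d : F} (hrep : Rep hΩ s d)
    (hs : ∀ g, s g + s g = 0) (j : Ω →ₐ[F] ΩL) (Q : (W.baseChange ΩL).Point)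
    (P : (W.baseChange L).Point) (hP : Q + Q = Point.map (W' := W) (Algebra.ofId L ΩL) P)
    (hc : ∀ (g : ΩL ≃ₐ[L] ΩL) (g' : Ω ≃ₐ[F] Ω), (∀ x, j (g' x) = g (j x)) →
      Point.map (W' := W) j (s g') = Point.map (W' := W) (g : ΩL →ₐ[L] ΩL) Q - Q) :
    ∃ u : L, u ≠ 0 ∧ (algebraMap F L d = u ^ 2 ∨
      (∃ x y : L, y ^ 2 = (x - algebraMap R L a) * (x - algebraMap R L b) *
        (x - algebraMap R L c) ∧ x ≠ algebraMap R L a ∧
        algebraMap F L d = u ^ 2 * (x - algebraMap R L a)) ∨
      algebraMap F L d = u ^ 2 * ((algebraMap R L a - algebraMap R L b) *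
        (algebraMap R L a - algebraMap R L c))) := by
  have hΩL : SplitAt ΩL W a b c := hL.up (Algebra.ofId L ΩL)
  obtain ⟨β, hβ, h1, h2⟩ := hrep
  have hj : j β ≠ 0 := (map_ne_zero j).mpr hβ
  have hjsq : (j β) ^ 2 = algebraMap L ΩL (algebraMap F L d) := by
    rw [← map_pow, h1, AlgHom.commutes, ← IsScalarTower.algebraMap_apply]
  -- the basic dichotomy: for every `g` there is a two-torsion point
  have key : ∀ g : ΩL ≃ₐ[L] ΩL, ∃ T : (W.baseChange ΩL).Point, T + T = 0 ∧
      Point.map (W' := W) (g : ΩL →ₐ[L] ΩL) Q = Q + T ∧ g (j β) = (hΩL.chi T : ΩL) * j β := by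
    intro g
    obtain ⟨g', hg'⟩ := exists_restrict (F := F) j (g.restrictScalars F)
    refine ⟨Point.map (W' := W) j (s g'), ?_, ?_, ?_⟩
    · rw [← map_add, hs, map_zero]
    · rw [hc g g' hg']; abel
    · rw [chi_map j hΩ hΩL]
      have := hg' β
      rw [h2, map_mul] at this
      rw [show g (j β) = (g.restrictScalars F) (j β) from rfl, ← this]
      simp
  -- conclusion from a fixed quotient
  have concl : ∀ z : ΩL, z ≠ 0 → (∀ g : ΩL ≃ₐ[L] ΩL, g (j β * z) = j β * z) →
      ∃ u : L, u ≠ 0 ∧ algebraMap L ΩL (algebraMap F L d) * z ^ 2 = (algebraMap L ΩL u) ^ 2 := by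
    intro z hz hfix
    obtain ⟨u, hu⟩ := exists_of_fixed (F := L) hfix
    refine ⟨u, ?_, ?_⟩
    · rintro rfl
      rw [map_zero] at hu
      exact mul_ne_zero hj hz hu.symm
    · rw [hu, ← hjsq]; ring
  have hchi2 : ∀ T : (W.baseChange ΩL).Point, (hΩL.chi T : ΩL) * (hΩL.chi T : ΩL) = 1 :=
    fun T => chi_cast_sq hΩL T
  by_cases hQ : Q + Q = 0
  · -- the local class is trivial
    obtain ⟨u, hu, hu'⟩ := concl 1 one_ne_zero (by
      intro g
      obtain ⟨T, hT, e1, e2⟩ := key g
      rw [map_two_torsion (g : ΩL →ₐ[L] ΩL) hΩL hQ] at e1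
      have hT0 : T = 0 := by simpa using e1
      rw [mul_one, e2, hT0, hΩL.chi_zero]
      simp)
    refine ⟨u, hu, Or.inl ?_⟩
    apply (algebraMap L ΩL).injective
    rw [map_pow, ← hu']
    ring
  · rcases Q with _ | ⟨x, y, hxy⟩
    · exact absurd (add_zero _) hQ
    · have hy : y ≠ 0 := by
        rintro rfl
        apply hQ
        apply Point.add_self_of_Y_eq
        rw [hΩL.negY_eq]; ring
      obtain ⟨X, Y, H, e, ea, eb, ec⟩ := hΩL.double_some hxy hy
      -- the local point
      rcases P with _ | ⟨X₀, Y₀, h₀⟩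
      · exfalso
        apply hQ
        rw [hP]; rfl
      · rw [e, Point.map_some] at hP
        simp only [Point.some.injEq] at hP
        obtain ⟨hX, -⟩ := hP
        have hX' : X = algebraMap L ΩL X₀ := hX
        have hrho : ∀ g : ΩL ≃ₐ[L] ΩL, ∀ T : (W.baseChange ΩL).Point, T + T = 0 →
            Point.map (W' := W) (g : ΩL →ₐ[L] ΩL) (.some x y hxy) = .some x y hxy + T →
            g (Split.rho (algebraMap R ΩL a) (algebraMap R ΩL b) (algebraMap R ΩL c) x y) =
              (hΩL.chi T : ΩL) *
                Split.rho (algebraMap R ΩL a) (algebraMap R ΩL b) (algebraMap R ΩL c) x y := by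
          intro g T hT e1
          rw [Point.map_some] at e1
          have := hΩL.rho_add_torsion hxy hy _ hT e1
          rw [map_rho (g : ΩL →ₐ[L] ΩL)] at this
          exact this
        have hrhob : ∀ g : ΩL ≃ₐ[L] ΩL, ∀ T : (W.baseChange ΩL).Point, T + T = 0 →
            Point.map (W' := W) (g : ΩL →ₐ[L] ΩL) (.some x y hxy) = .some x y hxy + T →
            g (Split.rho (algebraMap R ΩL b) (algebraMap R ΩL a) (algebraMap R ΩL c) x y) =
              (hΩL.swap12.chi T : ΩL) *
                Split.rho (algebraMap R ΩL b) (algebraMap R ΩL a) (algebraMap R ΩL c) x y := by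
          intro g T hT e1
          rw [Point.map_some] at e1
          have := hΩL.swap12.rho_add_torsion hxy hy _ hT e1
          rw [map_rho (g : ΩL →ₐ[L] ΩL)] at this
          exact this
        have hrhoc : ∀ g : ΩL ≃ₐ[L] ΩL, ∀ T : (W.baseChange ΩL).Point, T + T = 0 →
            Point.map (W' := W) (g : ΩL →ₐ[L] ΩL) (.some x y hxy) = .some x y hxy + T →
            g (Split.rho (algebraMap R ΩL c) (algebraMap R ΩL a) (algebraMap R ΩL b) x y) =
              (hΩL.rot.rot.chi T : ΩL) *
                Split.rho (algebraMap R ΩL c) (algebraMap R ΩL a) (algebraMap R ΩL b) x y := by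
          intro g T hT e1
          rw [Point.map_some] at e1
          have := hΩL.rot.rot.rho_add_torsion hxy hy _ hT e1
          rw [map_rho (g : ΩL →ₐ[L] ΩL)] at this
          exact this
        have eqn : Y₀ ^ 2 = (X₀ - algebraMap R L a) * (X₀ - algebraMap R L b) *
            (X₀ - algebraMap R L c) := hL.eq_of_point h₀
        have am : ∀ r : R, algebraMap R ΩL r = algebraMap L ΩL (algebraMap R L r) :=
          fun r => IsScalarTower.algebraMap_apply R L ΩL r
        by_cases hXa : X₀ = algebraMap R L a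
        · -- use the other two square roots
          set ρb := Split.rho (algebraMap R ΩL b) (algebraMap R ΩL a) (algebraMap R ΩL c) x y
            with hρb
          set ρc := Split.rho (algebraMap R ΩL c) (algebraMap R ΩL a) (algebraMap R ΩL b) x y
            with hρc
          have eb' : ρb ^ 2 = algebraMap L ΩL (algebraMap R L a - algebraMap R L b) := by
            rw [← eb, hX', hXa, map_sub, am b]
          have ec' : ρc ^ 2 = algebraMap L ΩL (algebraMap R L a - algebraMap R L c) := by
            rw [← ec, hX', hXa, map_sub, am c]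
          have hab : algebraMap R L a - algebraMap R L b ≠ 0 := sub_ne_zero.mpr hL.ab
          have hac : algebraMap R L a - algebraMap R L c ≠ 0 := sub_ne_zero.mpr hL.ac
          have hb0 : ρb ≠ 0 := by
            intro h
            rw [h] at eb'
            apply hab
            apply (algebraMap L ΩL).injective
            rw [← eb', map_zero]; ring
          have hc0 : ρc ≠ 0 := by
            intro h
            rw [h] at ec'
            apply hac
            apply (algebraMap L ΩL).injective
            rw [← ec', map_zero]; ring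
          obtain ⟨u, hu, hu'⟩ := concl (ρb * ρc) (mul_ne_zero hb0 hc0) (by
            intro g
            obtain ⟨T, hT, e1, e2⟩ := key g
            rw [map_mul, map_mul, e2, hrhob g T hT e1, hrhoc g T hT e1]
            have h3 := hΩL.chi_mul_chi hT
            have h3' : (hΩL.swap12.chi T : ΩL) * (hΩL.rot.rot.chi T : ΩL) = (hΩL.chi T : ΩL) := by
              exact_mod_cast congrArg (Int.cast : ℤ → ΩL) h3
            linear_combination (hΩL.chi T : ΩL) * j β * ρb * ρc * h3' + j β * ρb * ρc * hchi2 T)
          refine ⟨u / ((algebraMap R L a - algebraMap R L b) *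
            (algebraMap R L a - algebraMap R L c)), div_ne_zero hu (mul_ne_zero hab hac),
            Or.inr (Or.inr ?_)⟩
          rw [mul_pow, eb', ec', ← map_mul, ← map_mul, ← map_pow] at hu'
          have := (algebraMap L ΩL).injective hu'
          field_simp
          linear_combination this
        · set ρ := Split.rho (algebraMap R ΩL a) (algebraMap R ΩL b) (algebraMap R ΩL c) x y
            with hρ
          have ea' : ρ ^ 2 = algebraMap L ΩL (X₀ - algebraMap R L a) := by
            rw [← ea, hX', map_sub, am a]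
          have hXa' : X₀ - algebraMap R L a ≠ 0 := sub_ne_zero.mpr hXa
          have hρ0 : ρ ≠ 0 := by
            intro h
            rw [h] at ea'
            apply hXa'
            apply (algebraMap L ΩL).injective
            rw [← ea', map_zero]; ring
          obtain ⟨u, hu, hu'⟩ := concl ρ hρ0 (by
            intro g
            obtain ⟨T, hT, e1, e2⟩ := key g
            rw [map_mul, e2, hrho g T hT e1]
            linear_combination (j β * ρ) * hchi2 T)
          refine ⟨u / (X₀ - algebraMap R L a), div_ne_zero hu hXa', Or.inr (Or.inl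
            ⟨X₀, Y₀, eqn, hXa, ?_⟩)⟩
          rw [ea', ← map_mul, ← map_pow] at hu'
          have := (algebraMap L ΩL).injective hu'
          field_simp
          linear_combination this

end LocalRep

end Pool.Agent.Lib.MP_89bcae_ag
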