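import Mathlib
import Pool.Agent.Lib.MP_89bcae_ag.Inv8
import Pool.Agent.Lib.MP_89bcae_ag.Local

/-!
# The local condition at a place of good reduction
-/

open Polynomial WeierstrassCurve WeierstrassCurve.Affine

open scoped Classical

namespace Pool.Agent.Lib.MP_89bcae_ag

set_option linter.unusedSectionVars false

section Valuation

variable {K : Type*} [Field K] (w : Valuation K (WithZero (Multiplicative ℤ)))

lemma lg_one : lg w 1 = 0 := by simp [lg]

lemma lg_eq_zero_of {x : K} (h : w x = 1) : lg w x = 0 := by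
  unfold lg; rw [h, WithZero.log_one]

lemma ne_zero_of_val_one {x : K} (h : w x = 1) : x ≠ 0 := by
  rintro rfl
  rw [map_zero] at h
  exact zero_ne_one h

lemma lg_prod {ι : Type*} (s : Finset ι) (f : ι → K) (hf : ∀ i ∈ s, f i ≠ 0) :
    lg w (∏ i ∈ s, f i) = ∑ i ∈ s, lg w (f i) := by
  induction s using Finset.induction_on with
  | empty => simp [lg_one]
  | insert a s ha ih =>
    rw [Finset.prod_insert ha, Finset.sum_insert ha,
      lg_mul w (hf a (Finset.mem_insert_self a s))
        (Finset.prod_ne_zero_iff.mpr fun i hi => hf i (Finset.mem_insert_of_mem hi)),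
      ih fun i hi => hf i (Finset.mem_insert_of_mem hi)]

/-- At a place of good reduction, `x - e` has even valuation. -/
lemma even_lg_of_eq {u a q Y : K} (hu : u ≠ 0) (ha : w a ≤ 1) (hq : w q = 1)
    (h : Y ^ 2 = u * (u ^ 2 + a * u + q)) : Even (lg w u) := by
  have hq0 := ne_zero_of_val_one w hq
  rcases lt_trichotomy (w u) 1 with h1 | h1 | h1
  · -- `q` dominates
    have h3 : w (u ^ 2 + a * u) < w q := by
      rw [hq]
      apply lt_of_le_of_lt (w.map_add _ _)
      rw [max_lt_iff, map_pow, map_mul]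
      refine ⟨pow_lt_one₀ zero_le h1 two_ne_zero, ?_⟩
      exact lt_of_le_of_lt (mul_le_mul_left ha _) (by rwa [one_mul])
    have h4 : w (u ^ 2 + a * u + q) = 1 := by
      rw [w.map_add_eq_of_lt_right h3, hq]
    have h5 := congrArg (lg w) h
    rw [lg_pow, lg_mul w hu (ne_zero_of_val_one w h4), lg_eq_zero_of w h4] at h5
    exact ⟨lg w Y, by push_cast at h5; linarith⟩
  · rw [lg_eq_zero_of w h1]; exact ⟨0, by simp⟩
  · -- `u ^ 2` dominates
    have h2 : w (a * u + q) < w (u ^ 2) := by
      apply lt_of_le_of_lt (w.map_add _ _)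
      rw [max_lt_iff, map_pow, map_mul, hq, pow_two]
      refine ⟨?_, ?_⟩
      · apply lt_of_le_of_lt (mul_le_mul_left ha _)
        rw [one_mul]
        exact lt_mul_of_one_lt_left (lt_trans zero_lt_one h1) h1
      · exact lt_trans h1 (lt_mul_of_one_lt_left (lt_trans zero_lt_one h1) h1)
    have h4 : w (u ^ 2 + a * u + q) = w (u ^ 2) := by
      rw [add_assoc]; exact w.map_add_eq_of_lt_left h2
    have h6 : u ^ 2 + a * u + q ≠ 0 := by
      intro h0
      rw [h0, map_zero, eq_comm, map_pow, pow_eq_zero_iff two_ne_zero, map_eq_zero] at h4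
      exact hu h4
    have h7 : lg w (u ^ 2 + a * u + q) = 2 * lg w u := by
      unfold lg; rw [h4, map_pow, WithZero.log_pow, nsmul_eq_mul]; norm_num
    have h5 := congrArg (lg w) h
    rw [lg_pow, lg_mul w hu h6, h7] at h5
    exact ⟨lg w Y - lg w u, by push_cast at h5; linarith⟩

end Valuation

section Local

variable {R F L Ω : Type*} [CommRing R] [Field F] [IsAlgClosed F] [Field L] [Field Ω]
  [Algebra F[X] L] [IsFractionRing F[X] L] [Algebra L Ω] [Algebra F[X] Ω] [IsScalarTower F[X] L Ω]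
  [Algebra R L] [Algebra R Ω] [IsScalarTower R L Ω] {W : Affine R} {g D : F[X]}
  [IsGalois L Ω] [IsSepClosed Ω] [DecidableEq Ω]
  {Lv M : Type*} [Field Lv] [Field M] [Algebra L Lv] [Algebra Lv M] [Algebra L M]
  [IsScalarTower L Lv M] [Algebra R Lv] [Algebra R M] [IsScalarTower R L Lv]
  [IsScalarTower R L M] [IsScalarTower R Lv M] [Algebra F[X] Lv] [Algebra F[X] M]
  [IsScalarTower F[X] L Lv] [IsScalarTower F[X] L M] [IsScalarTower F[X] Lv M] [IsGalois Lv M]
  [DecidableEq Lv] [DecidableEq M]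

lemma IsTwist.up {A B : Type*} [Field A] [Field B] [Algebra A B] [Algebra R A] [Algebra R B]
    [IsScalarTower R A B] [Algebra F[X] A] [Algebra F[X] B] [IsScalarTower F[X] A B]
    (h : IsTwist A W g D) : IsTwist B W g D where
  a₁ := by rw [IsScalarTower.algebraMap_apply R A B, h.a₁, map_zero]
  a₂ := by
    rw [IsScalarTower.algebraMap_apply R A B, h.a₂, ← IsScalarTower.algebraMap_apply]
  a₃ := by rw [IsScalarTower.algebraMap_apply R A B, h.a₃, map_zero]
  a₄ := by
    rw [IsScalarTower.algebraMap_apply R A B, h.a₄, ← IsScalarTower.algebraMap_apply]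
  a₆ := by
    rw [IsScalarTower.algebraMap_apply R A B, h.a₆, ← IsScalarTower.algebraMap_apply]

/-- An embedding commutes with evaluation. -/
lemma ev_algHom (j : Ω →ₐ[L] M) (θ : Ω) (p : F[X]) : j (ev F Ω θ p) = ev F M (j θ) p := by
  have h : (j : Ω →+* M).comp (ev F Ω θ) = ev F M (j θ) := by
    apply Polynomial.ringHom_ext
    · intro a
      simp only [RingHom.comp_apply, ev_C]
      rw [IsScalarTower.algebraMap_apply F[X] L Ω, IsScalarTower.algebraMap_apply F[X] L M]
      exact j.commutes _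
    · simp [ev_X]
  exact RingHom.congr_fun h p

lemma algHom_algebraMap_poly (j : Ω →ₐ[L] M) (p : F[X]) :
    j (algebraMap F[X] Ω p) = algebraMap F[X] M p := by
  rw [IsScalarTower.algebraMap_apply F[X] L Ω, IsScalarTower.algebraMap_apply F[X] L M]
  exact j.commutes _

/-- The image of the root set. -/
lemma exists_root_of_mem (hg : g.Monic) (hdeg : g.natDegree = 3) (hd : derivative g ≠ 0)
    (j : Ω →ₐ[L] M) {y : M} (hy : y ∈ RootSet (Ω := M) g) :
    ∃ θ ∈ RootSet (Ω := Ω) g, j θ = y := by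
  obtain ⟨θ₁, θ₂, θ₃, -, -, -, hR, -, hP⟩ := exists_three_roots (F := F) L (Ω := Ω) hg hdeg hd
  have h1 := congrArg (fun P : Polynomial Ω => (P.map (j : Ω →+* M)).eval y) hP
  simp only [Polynomial.map_mul, Polynomial.map_sub, Polynomial.map_X, Polynomial.map_C,
    eval_mul, eval_sub, eval_X, eval_C] at h1
  rw [Polynomial.map_map, show (j : Ω →+* M).comp (algebraMap L Ω) = algebraMap L M from
    j.comp_algebraMap, eval_map_algebraMap, (mem_rootSet_iff (L := L)).mp hy, eq_comm, mul_eq_zero,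
    mul_eq_zero] at h1
  rcases h1 with (h1 | h1) | h1
  · exact ⟨θ₁, (hR _).mpr (Or.inl rfl), (sub_eq_zero.mp h1).symm⟩
  · exact ⟨θ₂, (hR _).mpr (Or.inr (Or.inl rfl)), (sub_eq_zero.mp h1).symm⟩
  · exact ⟨θ₃, (hR _).mpr (Or.inr (Or.inr rfl)), (sub_eq_zero.mp h1).symm⟩

lemma lg_root_prod (w : Valuation Lv (WithZero (Multiplicative ℤ))) {θv : Lv} {β : F}
    (hβ : w (θv - algebraMap F[X] Lv (C β)) = WithZero.exp (-1 : ℤ))
    (hβ' : ∀ β' : F, β' ≠ β → w (θv - algebraMap F[X] Lv (C β')) = 1) (Z : Finset F) :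
    (∀ β' : F, θv - algebraMap F[X] Lv (C β') ≠ 0) ∧
    lg w (∏ β' ∈ Z, (θv - algebraMap F[X] Lv (C β'))) = if β ∈ Z then -1 else 0 := by
  have hne : ∀ β' : F, θv - algebraMap F[X] Lv (C β') ≠ 0 := by
    intro β' h0
    by_cases hb : β' = β
    · subst hb
      rw [h0, map_zero] at hβ
      exact WithZero.exp_ne_zero hβ.symm
    · have := hβ' β' hb
      rw [h0, map_zero] at this
      exact zero_ne_one this
  refine ⟨hne, ?_⟩
  rw [lg_prod w Z _ (fun i _ => hne i)]
  have h1 : ∀ β' ∈ Z, lg w (θv - algebraMap F[X] Lv (C β')) = if β' = β then -1 else 0 := by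
    intro β' _
    by_cases hb : β' = β
    · subst hb
      rw [if_pos rfl]
      unfold lg
      rw [hβ, WithZero.log_exp]
    · rw [if_neg hb]
      exact lg_eq_zero_of w (hβ' β' hb)
  rw [Finset.sum_congr rfl h1, Finset.sum_ite_eq']

/-- The values of `ρ²` at a half of a rational point. -/
lemma rho_sq_of_double (hW : IsTwist M W g D) (h2M : (2 : M) ≠ 0)
    (P : (W.baseChange Lv).Point) (Q : (W.baseChange M).Point)
    (hPQ : 2 • Q = Point.map (W' := W) (Algebra.ofId Lv M) P) :
    (∀ e : M, rho e Q ^ 2 = 1) ∨ ∃ (X₀ Y₀ : Lv) (h : (W.baseChange Lv).Nonsingular X₀ Y₀),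
      P = .some X₀ Y₀ h ∧ ∀ e : M, Rt (W.baseChange M) e →
        rho e Q ^ 2 = algebraMap Lv M X₀ - e := by
  by_cases h0 : 2 • Q = 0
  · left
    intro e
    rw [pow_two]
    exact rho_two_torsion_mul_self hW.short h2M e h0
  · right
    rcases Q with _ | ⟨x, y, hxy⟩
    · exact absurd (by rw [← Point.zero_def, smul_zero]) h0
    have hy : y ≠ 0 := by
      intro hy0
      apply h0
      rw [two_nsmul]
      exact (add_self_eq_zero_iff hW.short h2M hxy).mpr hy0
    rcases P with _ | ⟨X₀, Y₀, h₀⟩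
    · exfalso
      apply h0
      rw [hPQ]; rfl
    · refine ⟨X₀, Y₀, h₀, rfl, fun e he => ?_⟩
      rw [rho_sq hW.short h2M he hxy hy]
      have hne : y ≠ (W.baseChange M).negY x y := by
        rw [hW.short.negY]
        intro h1
        have : 2 * y = 0 := by linear_combination h1
        rcases mul_eq_zero.mp this with h3 | h3
        · exact h2M h3
        · exact hy h3
      rw [two_nsmul, Point.add_self_of_Y_ne hne, Point.map_some] at hPQ
      simp only [Point.some.injEq] at hPQ
      rw [hPQ.1]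
      rfl

/-- Equivariance of `θ ↦ j(b(θ)) ρ_{Dθ}(Q)`. -/
lemma IsDesc.equivariant {c : (Ω ≃ₐ[L] Ω) → (W.baseChange Ω).Point} {Z : Finset F}
    {b : Ω → Ω} (h : IsDesc W g D c Z b) (h2M : (2 : M) ≠ 0)
    (hWM : IsTwist M W g D) (hg : g.Monic) (hdeg : g.natDegree = 3)
    (hc : ∀ σ, 2 • c σ = 0) (j : Ω →ₐ[L] M) (Q : (W.baseChange M).Point)
    (σ : M ≃ₐ[Lv] M) (σ' : Ω ≃ₐ[L] Ω) (hσ : ∀ x, j (σ' x) = σ (j x))
    (hcQ : Point.map (W' := W) j (c σ') = Point.map (W' := W) (σ : M →ₐ[Lv] M) Q - Q)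
    {θ : Ω} (hθ : θ ∈ RootSet (Ω := Ω) g) :
    σ (j (b θ) * rho (algebraMap F[X] M D * j θ) Q) =
      j (b (σ' θ)) * rho (algebraMap F[X] M D * j (σ' θ)) Q := by
  have hσQ : Point.map (W' := W) (σ : M →ₐ[Lv] M) Q = Q + Point.map (W' := W) j (c σ') := by
    rw [hcQ]; abel
  have hjc : 2 • Point.map (W' := W) j (c σ') = 0 := by rw [← map_nsmul, hc, map_zero]
  have hσθ := map_mem_rootSet σ' hθ
  have hjσθ : j (σ' θ) ∈ RootSet (Ω := M) g := by
    change ev F M (j (σ' θ)) g = _
    rw [← ev_algHom (L := L), show ev F Ω (σ' θ) g = _ from hσθ, algHom_algebraMap_poly (L := L)]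
  have hσd : σ (algebraMap F[X] M D) = algebraMap F[X] M D := by
    rw [IsScalarTower.algebraMap_apply F[X] Lv M]; exact σ.commutes _
  have e1 : σ (rho (algebraMap F[X] M D * j θ) Q) =
      rho (algebraMap F[X] M D * j (σ' θ)) Q *
        rho (algebraMap F[X] M D * j (σ' θ)) (Point.map (W' := W) j (c σ')) := by
    rw [← rho_add hWM.short h2M (hWM.rt hg hdeg hjσθ) _ _ hjc, ← hσQ, hσ]
    have : algebraMap F[X] M D * σ (j θ) = (σ : M →ₐ[Lv] M) (algebraMap F[X] M D * j θ) := by
      change _ = σ (algebraMap F[X] M D * j θ)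
      rw [map_mul, hσd]
    rw [this, rho_map]
    rfl
  have e2 : σ (j (b θ)) = rho (algebraMap F[X] M D * j (σ' θ)) (Point.map (W' := W) j (c σ')) *
      j (b (σ' θ)) := by
    rw [← hσ, h.act θ hθ, map_mul]
    congr 1
    rw [← algHom_algebraMap_poly (L := L) j D, ← map_mul, rho_map]
  rw [map_mul, e1, e2]
  linear_combination (j (b (σ' θ)) * rho (algebraMap F[X] M D * j (σ' θ)) Q) *
    rho_two_torsion_mul_self hWM.short h2M (algebraMap F[X] M D * j (σ' θ)) hjc

/-- The local condition at a place of good reduction at which `β` is a simple root of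
`g(x) = g(β)`: the point `β` does not belong to `Z`. -/
lemma IsDesc.notMem_of_local {c : (Ω ≃ₐ[L] Ω) → (W.baseChange Ω).Point} {Z : Finset F}
    {b : Ω → Ω} (h : IsDesc W g D c Z b) (h2 : (2 : Lv) ≠ 0)
    (hW : IsTwist L W g D) (hg : g.Monic) (hdeg : g.natDegree = 3) (hd : derivative g ≠ 0)
    (hD : D ≠ 0) (hc : ∀ σ, 2 • c σ = 0) (j : Ω →ₐ[L] M)
    (w : Valuation Lv (WithZero (Multiplicative ℤ))) {θv : Lv} (hθv : θv ∈ RootSet (Ω := Lv) g)
    {β : F} (hβ : w (θv - algebraMap F[X] Lv (C β)) = WithZero.exp (-1 : ℤ))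
    (hβ' : ∀ β' : F, β' ≠ β → w (θv - algebraMap F[X] Lv (C β')) = 1)
    (hwD : w (algebraMap F[X] Lv D) = 1) (hint : ∀ p : F[X], w (algebraMap F[X] Lv p) ≤ 1)
    (hwg : w (ev F Lv θv (derivative g)) = 1)
    (hwt : w (algebraMap F[X] Lv (X - C (g.eval β))) = WithZero.exp (-1 : ℤ))
    (hwt' : ∀ α : F, α ≠ g.eval β → w (algebraMap F[X] Lv (X - C α)) = 1)
    (P : (W.baseChange Lv).Point) (Q : (W.baseChange M).Point)
    (hPQ : 2 • Q = Point.map (W' := W) (Algebra.ofId Lv M) P)
    (hcQ : ∀ (σ : M ≃ₐ[Lv] M) (σ' : Ω ≃ₐ[L] Ω), (∀ x, j (σ' x) = σ (j x)) →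
      Point.map (W' := W) j (c σ') = Point.map (W' := W) (σ : M →ₐ[Lv] M) Q - Q) : β ∉ Z := by
  have hWΩ : IsTwist Ω W g D := hW.up
  have hWv : IsTwist Lv W g D := hW.up
  have hWM : IsTwist M W g D := hW.up
  have inj : Function.Injective (algebraMap Lv M) := (algebraMap Lv M).injective
  have h2M : (2 : M) ≠ 0 := by
    intro h0; apply h2; apply inj; rw [map_ofNat, h0, map_zero]
  have h2Ω : (2 : Ω) ≠ 0 := by
    intro h0; apply h2M
    have := congrArg j h0
    rwa [map_ofNat, map_zero] at this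
  obtain ⟨hne, hlg⟩ := lg_root_prod w hβ hβ' Z
  -- it suffices that the valuation of the product is even
  suffices hev : Even (lg w (∏ β' ∈ Z, (θv - algebraMap F[X] Lv (C β')))) by
    intro hZ
    rw [hlg, if_pos hZ] at hev
    exact absurd hev (by decide)
  have hθM : algebraMap Lv M θv ∈ RootSet (Ω := M) g := by
    have h0 : ev F Lv θv g = algebraMap F[X] Lv X := hθv
    have h1 : (algebraMap Lv M) (ev F Lv θv g) = ev F M (algebraMap Lv M θv) g := by
      have h : (algebraMap Lv M).comp (ev F Lv θv) = ev F M (algebraMap Lv M θv) := by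
        apply Polynomial.ringHom_ext
        · intro a
          simp only [RingHom.comp_apply, ev_C]
          rw [← IsScalarTower.algebraMap_apply]
        · simp [ev_X]
      exact RingHom.congr_fun h g
    change ev F M (algebraMap Lv M θv) g = _
    rw [← h1, h0, ← IsScalarTower.algebraMap_apply]
  obtain ⟨θ, hθ, hjθ⟩ := exists_root_of_mem (F := F) (L := L) hg hdeg hd j hθM
  have hd0 : algebraMap F[X] Ω D ≠ 0 := algebraMap_ne_zero_Om L hD
  have hd0M : algebraMap F[X] M D ≠ 0 := by
    rw [← algHom_algebraMap_poly (L := L) j D]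
    exact (map_ne_zero j).mpr hd0
  set z : Ω → M := fun θ' => j (b θ') * rho (algebraMap F[X] M D * j θ') Q with hz
  have hzσ : ∀ (σ : M ≃ₐ[Lv] M) (σ' : Ω ≃ₐ[L] Ω), (∀ x, j (σ' x) = σ (j x)) →
      ∀ θ' ∈ RootSet (Ω := Ω) g, σ (z θ') = z (σ' θ') :=
    fun σ σ' hσ θ' hθ' => h.equivariant h2M hWM hg hdeg hc j Q σ σ' hσ (hcQ σ σ' hσ) hθ'
  have hres : ∀ σ : M ≃ₐ[Lv] M, ∃ σ' : Ω ≃ₐ[L] Ω, (∀ x, j (σ' x) = σ (j x)) ∧ σ' θ = θ := by
    intro σ
    obtain ⟨σ', hσ'⟩ := exists_restrict (F := L) j (σ.restrictScalars L)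
    refine ⟨σ', hσ', j.injective ?_⟩
    change j (σ' θ) = j θ
    rw [hσ', hjθ]
    exact σ.commutes _
  -- the element `z θ`
  obtain ⟨y, hy⟩ := exists_of_fixed (F := Lv) (x := z θ) (by
    intro σ
    obtain ⟨σ', h1, h3⟩ := hres σ
    rw [hzσ σ σ' h1 θ hθ, h3])
  have hjb : ∀ θ' ∈ RootSet (Ω := Ω) g, j (b θ') ^ 2 =
      ∏ β' ∈ Z, (j θ' - algebraMap F[X] M (C β')) := by
    intro θ' hθ'
    rw [← map_pow, h.sq θ' hθ', map_prod]
    apply Finset.prod_congr rfl
    intro β' _
    rw [map_sub, algHom_algebraMap_poly]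
  have hprodM : algebraMap Lv M (∏ β' ∈ Z, (θv - algebraMap F[X] Lv (C β'))) = j (b θ) ^ 2 := by
    rw [hjb θ hθ, map_prod]
    apply Finset.prod_congr rfl
    intro β' _
    rw [map_sub, hjθ, ← IsScalarTower.algebraMap_apply]
  have hprod0 : (∏ β' ∈ Z, (θv - algebraMap F[X] Lv (C β'))) ≠ 0 :=
    Finset.prod_ne_zero_iff.mpr fun β' _ => hne β'
  rcases rho_sq_of_double hWM h2M P Q hPQ with hρ | ⟨X₀, Y₀, h₀, rfl, hρ⟩
  · -- the class is locally the class of a two-torsion point
    have h5 : y ^ 2 = ∏ β' ∈ Z, (θv - algebraMap F[X] Lv (C β')) := by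
      apply inj
      rw [hprodM, map_pow, hy, hz]
      simp only
      rw [mul_pow, hρ, mul_one]
    rw [← h5, lg_pow]
    exact ⟨lg w y, by push_cast; ring⟩
  · have hrtv : Rt (W.baseChange Lv) (algebraMap F[X] Lv D * θv) := hWv.rt hg hdeg hθv
    have hem : algebraMap F[X] M D * j θ = algebraMap Lv M (algebraMap F[X] Lv D * θv) := by
      rw [map_mul, hjθ, ← IsScalarTower.algebraMap_apply]
    have hjmem : ∀ θ' ∈ RootSet (Ω := Ω) g, j θ' ∈ RootSet (Ω := M) g := by
      intro θ' hθ'
      change ev F M (j θ') g = _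
      rw [← ev_algHom (L := L), show ev F Ω θ' g = _ from hθ', algHom_algebraMap_poly (L := L)]
    by_cases hX : X₀ = algebraMap F[X] Lv D * θv
    · -- the special case
      obtain ⟨θ₂, θ₃, n2, n3, n23, hR, heval, hder⟩ :=
        exists_other_roots (F := F) L (Ω := Ω) hg hdeg hd hθ
      have hm2 : θ₂ ∈ RootSet (Ω := Ω) g := (hR _).mpr (Or.inr (Or.inl rfl))
      have hm3 : θ₃ ∈ RootSet (Ω := Ω) g := (hR _).mpr (Or.inr (Or.inr rfl))
      obtain ⟨y', hy'⟩ := exists_of_fixed (F := Lv) (x := z θ₂ * z θ₃) (by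
        intro σ
        obtain ⟨σ', h1, h3⟩ := hres σ
        rw [map_mul, hzσ σ σ' h1 θ₂ hm2, hzσ σ σ' h1 θ₃ hm3]
        have k2 := (hR _).mp (map_mem_rootSet σ' hm2)
        have k3 := (hR _).mp (map_mem_rootSet σ' hm3)
        have q2 : σ' θ₂ ≠ θ := fun h0 => n2 (σ'.injective (h3.trans h0.symm))
        have q3 : σ' θ₃ ≠ θ := fun h0 => n3 (σ'.injective (h3.trans h0.symm))
        have q23 : σ' θ₂ ≠ σ' θ₃ := fun h0 => n23 (σ'.injective h0)
        rcases k2 with k2 | k2 | k2
        · exact absurd k2 q2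
        · rcases k3 with k3 | k3 | k3
          · exact absurd k3 q3
          · exact absurd (k2.trans k3.symm) q23
          · rw [k2, k3]
        · rcases k3 with k3 | k3 | k3
          · exact absurd k3 q3
          · rw [k2, k3, mul_comm]
          · exact absurd (k2.trans k3.symm) q23)
      -- the key identity
      have hprodT : ∏ β' ∈ Z, algebraMap F[X] Lv (X - C (g.eval β')) ≠ 0 := by
        rw [Finset.prod_ne_zero_iff]
        intro β' _ h0
        by_cases hb : g.eval β' = g.eval β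
        · rw [hb] at h0
          rw [h0, map_zero] at hwt
          exact WithZero.exp_ne_zero hwt.symm
        · have := hwt' _ hb
          rw [h0, map_zero] at this
          exact zero_ne_one this
      have key : y' ^ 2 * ∏ β' ∈ Z, (θv - algebraMap F[X] Lv (C β')) =
          (∏ β' ∈ Z, algebraMap F[X] Lv (X - C (g.eval β'))) *
            ((algebraMap F[X] Lv D) ^ 2 * ev F Lv θv (derivative g)) := by
        apply inj
        rw [map_mul, map_mul, map_pow, hy', hz]
        simp only
        rw [mul_pow, mul_pow, mul_pow, hjb θ₂ hm2, hjb θ₃ hm3,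
          hρ _ (hWM.rt hg hdeg (hjmem θ₂ hm2)), hρ _ (hWM.rt hg hdeg (hjmem θ₃ hm3)), hprodM,
          hjb θ hθ, map_prod]
        have e1 : ∀ β' ∈ Z, algebraMap Lv M (algebraMap F[X] Lv (X - C (g.eval β'))) =
            (j θ - algebraMap F[X] M (C β')) * (j θ₂ - algebraMap F[X] M (C β')) *
              (j θ₃ - algebraMap F[X] M (C β')) := by
          intro β' _
          have h3 := heval (algebraMap F[X] Ω (C β'))
          rw [ev_const] at h3
          have h4 := congrArg j h3
          simp only [map_sub, map_mul, algHom_algebraMap_poly] at h4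
          rw [← IsScalarTower.algebraMap_apply, map_sub]
          linear_combination -h4
        rw [Finset.prod_congr rfl e1, Finset.prod_mul_distrib, Finset.prod_mul_distrib]
        have e2 : algebraMap Lv M (algebraMap F[X] Lv D ^ 2 * ev F Lv θv (derivative g)) =
            (algebraMap F[X] M D * j θ - algebraMap F[X] M D * j θ₂) *
            (algebraMap F[X] M D * j θ - algebraMap F[X] M D * j θ₃) := by
          have h3 : algebraMap Lv M (ev F Lv θv (derivative g)) = j (ev F Ω θ (derivative g)) := by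
            rw [ev_derivative_cubic hg hdeg, ev_derivative_cubic hg hdeg]
            simp only [map_add, map_mul, map_pow, map_ofNat, hjθ, algHom_algebraMap_poly,
              ← IsScalarTower.algebraMap_apply]
          rw [map_mul, map_pow, ← IsScalarTower.algebraMap_apply, h3, hder, map_mul, map_sub,
            map_sub]
          ring
        rw [e2, hX, ← hem]
        ring
      have h6 := congrArg (lg w) key
      have hy'0 : y' ≠ 0 := by
        intro h0
        rw [h0, zero_pow two_ne_zero, zero_mul, eq_comm, mul_eq_zero, mul_eq_zero] at key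
        rcases key with k | k | k
        · exact hprodT k
        · rw [pow_eq_zero_iff two_ne_zero] at k
          exact ne_zero_of_val_one w hwD k
        · exact ne_zero_of_val_one w hwg k
      have hwd2 : w ((algebraMap F[X] Lv D) ^ 2 * ev F Lv θv (derivative g)) = 1 := by
        rw [map_mul, map_pow, hwD, hwg]; simp
      have hlp := lg_prod w Z (fun β' => algebraMap F[X] Lv (X - C (g.eval β'))) (fun β' hb => by
          intro h0
          exact hprodT (Finset.prod_eq_zero hb h0))
      rw [lg_mul w (pow_ne_zero 2 hy'0) hprod0, lg_mul w hprodT (ne_zero_of_val_one w hwd2),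
        lg_eq_zero_of w hwd2, lg_pow, hlp] at h6
      have h7 : ∀ β' ∈ Z, lg w (algebraMap F[X] Lv (X - C (g.eval β'))) =
          if g.eval β' = g.eval β then -1 else 0 := by
        intro β' _
        by_cases hb : g.eval β' = g.eval β
        · rw [if_pos hb, hb]
          unfold lg
          rw [hwt, WithZero.log_exp]
        · rw [if_neg hb]
          exact lg_eq_zero_of w (hwt' _ hb)
      obtain ⟨r, hr⟩ := h.even h2Ω hWΩ hg hdeg hd hD hc (g.eval β)
      rw [Finset.sum_congr rfl h7, ← Finset.sum_filter, Finset.sum_const, hr, nsmul_eq_mul] at h6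
      exact ⟨-r - lg w y', by push_cast at h6; linarith⟩
    · have hu : X₀ - algebraMap F[X] Lv D * θv ≠ 0 := sub_ne_zero.mpr hX
      have h5 : y ^ 2 = (∏ β' ∈ Z, (θv - algebraMap F[X] Lv (C β'))) *
          (X₀ - algebraMap F[X] Lv D * θv) := by
        apply inj
        rw [map_mul, hprodM, map_pow, hy, hz]
        simp only
        rw [mul_pow, hρ _ (hWM.rt hg hdeg (hjmem θ hθ)), hem, map_sub]
      have h6 := congrArg (lg w) h5
      rw [lg_pow, lg_mul w hprod0 hu] at h6
      have h7 : Even (lg w (X₀ - algebraMap F[X] Lv D * θv)) := by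
        have heq := hWv.short.equation h₀.1
        have hθint : w θv ≤ 1 := by
          have : θv = (θv - algebraMap F[X] Lv (C β)) + algebraMap F[X] Lv (C β) := by ring
          rw [this]
          apply le_trans (w.map_add _ _)
          rw [max_le_iff]
          refine ⟨?_, hint _⟩
          rw [hβ, ← WithZero.exp_zero]
          exact WithZero.exp_le_exp.mpr (by norm_num)
        set d := algebraMap F[X] Lv D with hdd
        set e := d * θv with he
        have ea2 : (W.baseChange Lv).a₂ = algebraMap F[X] Lv (C (g.coeff 2)) * d := by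
          rw [hdd, ← map_mul]; exact hWv.a₂
        have ea4 : (W.baseChange Lv).a₄ = algebraMap F[X] Lv (C (g.coeff 1)) * d ^ 2 := by
          rw [hdd, ← map_pow, ← map_mul]; exact hWv.a₄
        have ha : w (algebraMap F[X] Lv (3 * D) * θv + algebraMap F[X] Lv (C (g.coeff 2) * D)) ≤
            1 := by
          apply le_trans (w.map_add _ _)
          rw [max_le_iff, map_mul]
          exact ⟨mul_le_one' (hint _) hθint, hint _⟩
        have hq : w (d ^ 2 * ev F Lv θv (derivative g)) = 1 := by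
          rw [map_mul, map_pow, hwD, hwg]; simp
        apply even_lg_of_eq w hu ha hq (Y := Y₀)
        rw [heq, ev_derivative_cubic hg hdeg, ea2, ea4]
        rw [Rt, ea2, ea4] at hrtv
        simp only [map_mul, map_ofNat, ← hdd]
        linear_combination hrtv
      obtain ⟨r, hr⟩ := h7
      exact ⟨lg w y - r, by push_cast at h6; linarith⟩

end Local

end Pool.Agent.Lib.MP_89bcae_ag
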