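import Mathlib
import Pool.Agent.Lib.MP_89bcae_ag.Loc8
import Pool.Agent.Lib.MP_89bcae_ag.Hensel8

/-!
# The completion at `t = τ` and the local root of `g(x) = t`
-/

open Polynomial WeierstrassCurve WeierstrassCurve.Affine IsDedekindDomain

open scoped Classical

namespace Pool.Agent.Lib.MP_89bcae_ag

set_option linter.unusedSectionVars false

section Place

variable {F : Type*} [Field F]

/-- The place `t = τ` of `F(t)`. -/
noncomputable def placeAt (τ : F) : HeightOneSpectrum F[X] where
  asIdeal := Ideal.span {X - C τ}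
  isPrime := (Ideal.span_singleton_prime (X_sub_C_ne_zero τ)).mpr (prime_X_sub_C τ)
  ne_bot := by rw [Ne, Ideal.span_singleton_eq_bot]; exact X_sub_C_ne_zero τ

variable (L : Type*) [Field L] [Algebra F[X] L] [IsFractionRing F[X] L]

lemma val_algebraMap (τ : F) (p : F[X]) :
    Valued.v (algebraMap F[X] ((placeAt τ).adicCompletion L) p) = (placeAt τ).intValuation p :=
  (HeightOneSpectrum.valuedAdicCompletion_eq_valuation (K := L) (placeAt τ) p).trans
    ((placeAt τ).valuation_of_algebraMap p)

lemma val_le_one (τ : F) (p : F[X]) :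
    Valued.v (algebraMap F[X] ((placeAt τ).adicCompletion L) p) ≤ 1 := by
  rw [val_algebraMap]
  exact (placeAt τ).intValuation_le_one p

lemma val_X_sub_C (τ : F) :
    Valued.v (algebraMap F[X] ((placeAt τ).adicCompletion L) (X - C τ)) =
      WithZero.exp (-1 : ℤ) := by
  rw [val_algebraMap]
  exact (placeAt τ).intValuation_singleton (X_sub_C_ne_zero τ) rfl

lemma val_eq_one (τ : F) {p : F[X]} (hp : p.eval τ ≠ 0) :
    Valued.v (algebraMap F[X] ((placeAt τ).adicCompletion L) p) = 1 := by
  rw [val_algebraMap, HeightOneSpectrum.intValuation_eq_one_iff]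
  change p ∉ Ideal.span {X - C τ}
  rw [Ideal.mem_span_singleton, dvd_iff_isRoot]
  exact hp

/-- The local root of `g(x) = t` near a simple root `β` of `g(x) = g(β)`. -/
lemma exists_local_root {g : F[X]} (hg : g.Monic) (hdeg : g.natDegree = 3) {β : F}
    (hβ : (derivative g).eval β ≠ 0) :
    ∃ θv ∈ RootSet (F := F) (Ω := (placeAt (g.eval β)).adicCompletion L) g,
      Valued.v (θv - algebraMap F[X] _ (C β)) = WithZero.exp (-1 : ℤ) ∧
      (∀ β' : F, β' ≠ β → Valued.v (θv - algebraMap F[X] _ (C β')) = 1) ∧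
      Valued.v (ev F _ θv (derivative g)) = 1 := by
  set τ := g.eval β with hτ
  set K := (placeAt τ).adicCompletion L with hK
  set ι : F[X] →+* K := algebraMap F[X] K with hι
  have hlt : WithZero.exp (-1 : ℤ) < (1 : WithZero (Multiplicative ℤ)) := by
    rw [← WithZero.exp_zero, WithZero.exp_lt_exp]; norm_num
  have ha0 : Valued.v (-(ι (X - C τ))) = WithZero.exp (-1 : ℤ) := by
    rw [Valuation.map_neg]; exact val_X_sub_C L τ
  have ha1 : Valued.v (ι (C ((derivative g).eval β))) = 1 :=
    val_eq_one L τ (by rw [eval_C]; exact hβ)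
  have ha2 : Valued.v (ι (C (3 * β + g.coeff 2))) ≤ 1 := val_le_one L τ _
  obtain ⟨u, hu, heq⟩ := exists_cubic_root (by rw [ha0]; exact hlt) ha1 ha2
  rw [ha0] at hu
  have hder : (derivative g).eval β = 3 * β ^ 2 + 2 * g.coeff 2 * β + g.coeff 1 := by
    conv_lhs => rw [eq_cubic hg hdeg]
    simp only [derivative_add, derivative_mul, derivative_X_pow, derivative_C, derivative_X]
    simp
    ring
  have hgb : τ = β ^ 3 + g.coeff 2 * β ^ 2 + g.coeff 1 * β + g.coeff 0 := by
    rw [hτ]
    conv_lhs => rw [eq_cubic hg hdeg]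
    simp
  refine ⟨ι (C β) + u, ?_, ?_, ?_, ?_⟩
  · change ev F K (ι (C β) + u) g = ι X
    rw [ev_cubic hg hdeg]
    have hgb' := congrArg (fun z => ι (C z)) hgb
    rw [hder] at heq
    simp only [map_sub, map_add, map_mul, map_pow, map_ofNat, ← hι] at heq hgb' ⊢
    linear_combination heq - hgb'
  · rw [add_sub_cancel_left]
    exact hu
  · intro β' hb
    have e1 : ι (C β) + u - ι (C β') = ι (C (β - β')) + u := by
      rw [map_sub, map_sub]; ring
    have e2 : Valued.v (ι (C (β - β'))) = 1 :=
      val_eq_one L τ (by rw [eval_C]; exact sub_ne_zero.mpr (Ne.symm hb))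
    rw [e1, Valuation.map_add_eq_of_lt_left, e2]
    rw [e2, hu]
    exact hlt
  · rw [ev_derivative_cubic hg hdeg]
    have e1 : 3 * (ι (C β) + u) ^ 2 + 2 * ι (C (g.coeff 2)) * (ι (C β) + u) +
        ι (C (g.coeff 1)) = ι (C ((derivative g).eval β)) +
          u * (ι (C (6 * β + 2 * g.coeff 2)) + ι (C 3) * u) := by
      rw [hder]
      simp only [map_add, map_mul, map_pow, map_ofNat]
      ring
    rw [e1, Valuation.map_add_eq_of_lt_left, ha1]
    rw [ha1, map_mul, hu]
    have e3 : Valued.v (ι (C (6 * β + 2 * g.coeff 2)) + ι (C 3) * u) ≤ 1 := by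
      apply le_trans (Valuation.map_add _ _ _)
      apply max_le (val_le_one L τ _)
      rw [map_mul]
      exact mul_le_one' (val_le_one L τ _) (by rw [hu]; exact hlt.le)
    calc WithZero.exp (-1 : ℤ) * _ ≤ WithZero.exp (-1 : ℤ) * 1 := mul_le_mul' le_rfl e3
      _ < 1 := by rw [mul_one]; exact hlt

end Place

end Pool.Agent.Lib.MP_89bcae_ag
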