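import Mathlib
import Pool.Agent.Lib.MP_89bcae_ag.Kummer
import Pool.Agent.Lib.MP_89bcae_ag.Local

/-!
# Tate module cocycles: division by two
-/

open Polynomial WeierstrassCurve WeierstrassCurve.Affine

namespace Pool.Agent.Lib.MP_89bcae_ag

section Basic

variable {R F Ω : Type*} [CommRing R] [Field F] [Field Ω] [Algebra R F] [Algebra R Ω]
  [Algebra F Ω] [IsScalarTower R F Ω] [DecidableEq Ω] {W : Affine R}

/-- A continuous cocycle with values in the two-adic Tate module. -/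
structure TC (W : Affine R) (c : ℕ → (Ω ≃ₐ[F] Ω) → (W.baseChange Ω).Point) : Prop where
  zero : ∀ g, c 0 g = 0
  two : ∀ n g, 2 • c (n + 1) g = c n g
  mul : ∀ n g h, c n (g * h) = c n g + Point.map (W' := W) (g : Ω →ₐ[F] Ω) (c n h)
  loc : ∀ n, IsLocallyConstant (c n)

/-- The class is fixed by `γ` up to torsion. -/
def InvMT (W : Affine R) (c : ℕ → (Ω ≃ₐ[F] Ω) → (W.baseChange Ω).Point) (γ : Ω ≃ₐ[R] Ω) : Prop :=
  ∃ m : ℕ, 0 < m ∧ ∀ n, ∃ A : (W.baseChange Ω).Point, 2 ^ n • A = 0 ∧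
    ∀ g h : Ω ≃ₐ[F] Ω, (∀ x, γ (g x) = h (γ x)) →
      m • (Point.map (W' := W) (γ : Ω →ₐ[R] Ω) (c n g) - c n h) =
        Point.map (W' := W) (h : Ω →ₐ[F] Ω) A - A

/-- The stabilizer of an algebraic element is open. -/
lemma isLocallyConstant_apply8 [Algebra.IsAlgebraic F Ω] (x : Ω) :
    IsLocallyConstant (fun g : Ω ≃ₐ[F] Ω => g x) := by
  rw [IsLocallyConstant.iff_exists_open]
  intro g
  have hfin : FiniteDimensional F (IntermediateField.adjoin F {x}) :=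
    IntermediateField.adjoin.finiteDimensional (Algebra.IsIntegral.isIntegral x)
  have hopen := IntermediateField.fixingSubgroup_isOpen (IntermediateField.adjoin F {x})
  refine ⟨(fun h => g⁻¹ * h) ⁻¹' ((IntermediateField.adjoin F {x}).fixingSubgroup :
    Set (Ω ≃ₐ[F] Ω)), hopen.preimage (continuous_const_mul g⁻¹), ?_, ?_⟩
  · simp only [Set.mem_preimage, inv_mul_cancel]
    exact Subgroup.one_mem _
  · intro h hh
    have h1 := (IntermediateField.mem_fixingSubgroup_iff _ _).mp hh x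
      (IntermediateField.mem_adjoin_simple_self F x)
    have h2 : g ((g⁻¹ * h) x) = g x := by rw [h1]
    rwa [← AlgEquiv.mul_apply, mul_inv_cancel_left] at h2

lemma isLocallyConstant_map8 [Algebra.IsAlgebraic F Ω] (Q : (W.baseChange Ω).Point) :
    IsLocallyConstant (fun g : Ω ≃ₐ[F] Ω => Point.map (W' := W) (g : Ω →ₐ[F] Ω) Q) := by
  rcases Q with _ | ⟨x, y, h⟩
  · exact IsLocallyConstant.const 0
  · have h1 := isLocallyConstant_apply8 (F := F) x
    have h2 := isLocallyConstant_apply8 (F := F) y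
    rw [IsLocallyConstant.iff_exists_open] at h1 h2 ⊢
    intro g
    obtain ⟨U, hU, hgU, h1'⟩ := h1 g
    obtain ⟨V, hV, hgV, h2'⟩ := h2 g
    refine ⟨U ∩ V, hU.inter hV, ⟨hgU, hgV⟩, ?_⟩
    intro h hh
    rw [Point.map_some, Point.map_some]
    simp only [Point.some.injEq]
    exact ⟨h1' h hh.1, h2' h hh.2⟩

/-- A point fixed by the Galois group is rational. -/
lemma exists_point_of_fixed8 [DecidableEq F] [IsGalois F Ω] (Q : (W.baseChange Ω).Point)
    (h : ∀ g : Ω ≃ₐ[F] Ω, Point.map (W' := W) (g : Ω →ₐ[F] Ω) Q = Q) :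
    ∃ P : (W.baseChange F).Point, Point.map (W' := W) (Algebra.ofId F Ω) P = Q := by
  rcases Q with _ | ⟨x, y, hxy⟩
  · exact ⟨0, rfl⟩
  · have h' : ∀ g : Ω ≃ₐ[F] Ω, g x = x ∧ g y = y := by
      intro g
      have := h g
      rw [Point.map_some] at this
      simp only [Point.some.injEq] at this
      exact this
    obtain ⟨x₀, hx₀⟩ := exists_of_fixed (F := F) (x := x) (fun g => (h' g).1)
    obtain ⟨y₀, hy₀⟩ := exists_of_fixed (F := F) (x := y) (fun g => (h' g).2)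
    subst hx₀ hy₀
    have hN : (W.baseChange F).Nonsingular x₀ y₀ :=
      (W.baseChange_nonsingular (f := Algebra.ofId F Ω) (Algebra.ofId F Ω).injective x₀ y₀).mp hxy
    exact ⟨.some x₀ y₀ hN, rfl⟩

/-- A sequence of successive halves. -/
lemma exists_seq8 {A : Type*} [AddCommGroup A] (h : ∀ P : A, ∃ Q, Q + Q = P) (P Q : A)
    (hQ : Q + Q = P) : ∃ q : ℕ → A, q 0 = P ∧ q 1 = Q ∧ ∀ n, q (n + 1) + q (n + 1) = q n := by
  choose f hf using h
  refine ⟨fun n => Nat.casesOn n P (fun m => f^[m] Q), rfl, rfl, ?_⟩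
  intro n
  cases n with
  | zero => exact hQ
  | succ m =>
    change f^[m + 1] Q + f^[m + 1] Q = f^[m] Q
    rw [Function.iterate_succ_apply']
    exact hf _

lemma two_pow_seq8 {A : Type*} [AddCommGroup A] {q : ℕ → A}
    (h : ∀ n, q (n + 1) + q (n + 1) = q n) (n : ℕ) : 2 ^ n • q n = q 0 := by
  induction n with
  | zero => simp
  | succ m ih => rw [pow_succ, mul_smul, two_nsmul, h, ih]

lemma TC.two_pow {c : ℕ → (Ω ≃ₐ[F] Ω) → (W.baseChange Ω).Point} (hc : TC W c) (n : ℕ)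
    (g : Ω ≃ₐ[F] Ω) : 2 ^ n • c n g = 0 := by
  induction n with
  | zero => rw [hc.zero, smul_zero]
  | succ m ih => rw [pow_succ, mul_smul, hc.two, ih]

/-- The quotient by two of `c - δ(q)`, where `c` agrees with `δ(q)` at the first level. -/
lemma TC.half [IsGalois F Ω] {c : ℕ → (Ω ≃ₐ[F] Ω) → (W.baseChange Ω).Point} (hc : TC W c)
    {q : ℕ → (W.baseChange Ω).Point} (hq : ∀ n, q (n + 1) + q (n + 1) = q n)
    (h1 : ∀ g : Ω ≃ₐ[F] Ω, c 1 g = Point.map (W' := W) (g : Ω →ₐ[F] Ω) (q 1) - q 1) :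
    TC W (fun n (g : Ω ≃ₐ[F] Ω) => c (n + 1) g -
      (Point.map (W' := W) (g : Ω →ₐ[F] Ω) (q (n + 1)) - q (n + 1))) where
  zero g := by
    change c (0 + 1) g - _ = 0
    rw [zero_add, h1, sub_self]
  two n g := by
    change 2 • (c (n + 1 + 1) g - (Point.map (W' := W) (g : Ω →ₐ[F] Ω) (q (n + 1 + 1)) -
      q (n + 1 + 1))) = c (n + 1) g - (Point.map (W' := W) (g : Ω →ₐ[F] Ω) (q (n + 1)) - q (n + 1))
    rw [smul_sub, hc.two, smul_sub, ← map_nsmul, two_nsmul (q (n + 1 + 1)), hq]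
  mul n g h := by
    have e : Point.map (W' := W) ((g * h : Ω ≃ₐ[F] Ω) : Ω →ₐ[F] Ω) (q (n + 1)) =
        Point.map (g : Ω →ₐ[F] Ω) (Point.map (h : Ω →ₐ[F] Ω) (q (n + 1))) := by
      rw [Point.map_map]; rfl
    change c (n + 1) (g * h) - (Point.map (W' := W) ((g * h : Ω ≃ₐ[F] Ω) : Ω →ₐ[F] Ω) (q (n + 1)) -
      q (n + 1)) = _
    rw [hc.mul, e, map_sub, map_sub]
    abel
  loc n := (hc.loc (n + 1)).sub ((isLocallyConstant_map8 _).sub (IsLocallyConstant.const _))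

/-- Invariance up to torsion is inherited. -/
lemma InvMT.half {c : ℕ → (Ω ≃ₐ[F] Ω) → (W.baseChange Ω).Point}
    {q : ℕ → (W.baseChange Ω).Point} (hq : ∀ n, q (n + 1) + q (n + 1) = q n) {γ : Ω ≃ₐ[R] Ω}
    (hfix : Point.map (W' := W) (γ : Ω →ₐ[R] Ω) (q 0) = q 0)
    (hinv : InvMT W c γ) : InvMT W (fun n (g : Ω ≃ₐ[F] Ω) => c (n + 1) g -
      (Point.map (W' := W) (g : Ω →ₐ[F] Ω) (q (n + 1)) - q (n + 1))) γ := by
  obtain ⟨m, hm, H⟩ := hinv
  refine ⟨2 * m, by positivity, fun n => ?_⟩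
  obtain ⟨A, hA, HA⟩ := H (n + 1)
  set B := Point.map (W' := W) (γ : Ω →ₐ[R] Ω) (q (n + 1)) - q (n + 1) with hB
  refine ⟨2 • (A - m • B), ?_, ?_⟩
  · have hB' : 2 ^ (n + 1) • B = 0 := by
      rw [hB, smul_sub, ← map_nsmul, two_pow_seq8 hq, hfix, sub_self]
    rw [← mul_smul, ← pow_succ, smul_sub, hA, smul_comm, hB', smul_zero, sub_zero]
  · intro g h hgh
    have e1 : Point.map (W' := W) (γ : Ω →ₐ[R] Ω) (Point.map (g : Ω →ₐ[F] Ω) (q (n + 1))) =
        Point.map (h : Ω →ₐ[F] Ω) (Point.map (γ : Ω →ₐ[R] Ω) (q (n + 1))) := by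
      rcases q (n + 1) with _ | ⟨x, y, hxy⟩
      · rfl
      · rw [Point.map_some, Point.map_some, Point.map_some, Point.map_some]
        simp only [Point.some.injEq]
        exact ⟨hgh x, hgh y⟩
    have e2 := HA g h hgh
    have e3 : Point.map (W' := W) (γ : Ω →ₐ[R] Ω) (c (n + 1) g -
      (Point.map (g : Ω →ₐ[F] Ω) (q (n + 1)) - q (n + 1))) - (c (n + 1) h -
      (Point.map (h : Ω →ₐ[F] Ω) (q (n + 1)) - q (n + 1))) =
      (Point.map (γ : Ω →ₐ[R] Ω) (c (n + 1) g) - c (n + 1) h) -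
        (Point.map (h : Ω →ₐ[F] Ω) B - B) := by
      rw [map_sub, map_sub, e1, hB, map_sub]
      abel
    have e4 : Point.map (W' := W) (h : Ω →ₐ[F] Ω) (A - m • B) =
        Point.map (W' := W) (h : Ω →ₐ[F] Ω) A - m • Point.map (W' := W) (h : Ω →ₐ[F] Ω) B := by
      rw [map_sub, map_nsmul]
    change (2 * m) • (Point.map (W' := W) (γ : Ω →ₐ[R] Ω) (c (n + 1) g -
      (Point.map (W' := W) (g : Ω →ₐ[F] Ω) (q (n + 1)) - q (n + 1))) - (c (n + 1) h -
      (Point.map (W' := W) (h : Ω →ₐ[F] Ω) (q (n + 1)) - q (n + 1)))) = _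
    rw [e3, mul_smul, smul_sub m, e2, map_nsmul, e4, ← smul_sub 2]
    congr 1
    rw [smul_sub m]
    abel

end Basic

end Pool.Agent.Lib.MP_89bcae_ag
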