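import Mathlib
import Pool.Agent.Lib.MP_89bcae_ag.Place8
import Pool.Agent.Lib.MP_89bcae_ag.Fibre8
import Pool.Agent.Lib.MP_89bcae_ag.TC8
import Pool.Agent.Lib.MP_89bcae_ag.Defs8
import Pool.Agent.Lib.MP_89bcae_ag.Galois

/-!
# The two-adic Selmer group of `D(t) y² = g(x) - t`
-/

open Polynomial WeierstrassCurve WeierstrassCurve.Affine IsDedekindDomain

open scoped Classical

namespace Pool.Agent.Lib.MP_89bcae_ag

set_option linter.unusedSectionVars false

section Torsion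

variable {R F L Ω : Type*} [CommRing R] [Field F] [IsAlgClosed F] [Field L] [Field Ω]
  [Algebra F[X] L] [IsFractionRing F[X] L] [Algebra L Ω] [Algebra F[X] Ω] [IsScalarTower F[X] L Ω]
  [Algebra R L] [Algebra R Ω] [IsScalarTower R L Ω] {W : Affine R} {g D : F[X]}
  [IsGalois L Ω] [IsSepClosed Ω] [DecidableEq Ω]

/-- There is no rational point of order two. -/
lemma eq_zero_of_fixed_two (h2 : (2 : Ω) ≠ 0) (hW : IsTwist Ω W g D) (hg : g.Monic)
    (hdeg : g.natDegree = 3) (hd : derivative g ≠ 0) (hD : D ≠ 0) {P : (W.baseChange Ω).Point}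
    (hP : 2 • P = 0) (hfix : ∀ σ : Ω ≃ₐ[L] Ω, Point.map (W' := W) (σ : Ω →ₐ[L] Ω) P = P) :
    P = 0 := by
  obtain ⟨θ₁, θ₂, θ₃, h12, h13, h23, hR, -, -⟩ :=
    exists_three_roots (F := F) L (Ω := Ω) hg hdeg hd
  have hT : ∀ θ, θ ∈ ({θ₁, θ₂, θ₃} : Finset Ω) ↔ θ ∈ RootSet (Ω := Ω) g := by
    intro θ
    rw [hR]
    simp
  have hθ₁ : θ₁ ∈ RootSet (Ω := Ω) g := (hR _).mpr (Or.inl rfl)
  have hs : ∀ θ ∈ RootSet (Ω := Ω) g,
      rho (algebraMap F[X] Ω D * θ) P = rho (algebraMap F[X] Ω D * θ₁) P := by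
    intro θ hθ
    obtain ⟨σ, rfl⟩ := rootSet_transitive (L := L) hg hdeg hθ₁ hθ
    rw [← rho_map_two_torsion h2 hW σ θ₁ hP, hfix]
  have hprod := prod_rho_roots L h2 hW hg hdeg hd hD hT hP
  rw [Finset.prod_congr rfl fun θ hθ => hs θ ((hT θ).mp hθ), Finset.prod_const,
    Finset.card_insert_of_notMem (by simp [h12, h13]),
    Finset.card_insert_of_notMem (by simp [h23]), Finset.card_singleton] at hprod
  apply eq_of_signs L h2 hW hg hdeg hd hD hP (by simp)
  intro θ hθ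
  rw [hs θ hθ, rho_zero]
  rcases rho_two_torsion_sq hW.short h2 (algebraMap F[X] Ω D * θ₁) hP with h | h
  · exact h
  · rw [h] at hprod
    rw [h]
    norm_num at hprod
    exact hprod

/-- There is no rational point of two-power order. -/
lemma eq_zero_of_fixed (h2 : (2 : Ω) ≠ 0) (hW : IsTwist Ω W g D) (hg : g.Monic)
    (hdeg : g.natDegree = 3) (hd : derivative g ≠ 0) (hD : D ≠ 0) (n : ℕ)
    {P : (W.baseChange Ω).Point} (hP : 2 ^ n • P = 0)
    (hfix : ∀ σ : Ω ≃ₐ[L] Ω, Point.map (W' := W) (σ : Ω →ₐ[L] Ω) P = P) :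
    P = 0 := by
  induction n with
  | zero => simpa using hP
  | succ n ih =>
    apply ih
    apply eq_zero_of_fixed_two (L := L) h2 hW hg hdeg hd hD
    · rw [← mul_smul, mul_comm, ← pow_succ]
      exact hP
    · intro σ
      rw [map_nsmul, hfix]

end Torsion

section LevelOne

variable {R F L Ω : Type*} [CommRing R] [Field F] [IsAlgClosed F] [Field L] [Field Ω]
  [Algebra F[X] L] [IsFractionRing F[X] L] [Algebra L Ω] [Algebra F[X] Ω] [IsScalarTower F[X] L Ω]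
  [Algebra R L] [Algebra R Ω] [IsScalarTower R L Ω] {W : Affine R} {g D : F[X]}
  [IsGalois L Ω] [IsSepClosed Ω] [DecidableEq Ω]

/-- Invariance up to torsion implies invariance at every level. -/
lemma level_invariant (h2 : (2 : Ω) ≠ 0) (hW : IsTwist Ω W g D) (hg : g.Monic)
    (hdeg : g.natDegree = 3) (hd : derivative g ≠ 0) (hD : D ≠ 0)
    {c : ℕ → (Ω ≃ₐ[L] Ω) → (W.baseChange Ω).Point} (hc : TC W c) {γ : Ω ≃ₐ[R] Ω}
    (hconj : ∀ σ : Ω ≃ₐ[L] Ω, ∃ σ' : Ω ≃ₐ[L] Ω, ∀ x, γ (σ' x) = σ (γ x))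
    (hinv : InvMT W c γ) (l : ℕ) :
    ∃ A : (W.baseChange Ω).Point, 2 ^ l • A = 0 ∧
      ∀ σ' σ : Ω ≃ₐ[L] Ω, (∀ x, γ (σ' x) = σ (γ x)) →
        Point.map (W' := W) (γ : Ω →ₐ[R] Ω) (c l σ') - c l σ =
          Point.map (W' := W) (σ : Ω →ₐ[L] Ω) A - A := by
  obtain ⟨m, hm, H⟩ := hinv
  obtain ⟨a, m', hm', rfl⟩ := Nat.exists_eq_two_pow_mul_odd hm.ne'
  obtain ⟨A, hA, HA⟩ := H (a + l)
  have hlev : ∀ (j : ℕ) (σ : Ω ≃ₐ[L] Ω), 2 ^ j • c (j + l) σ = c l σ := by
    intro j σ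
    induction j with
    | zero => simp
    | succ j ih =>
      rw [pow_succ, mul_smul, show j + 1 + l = (j + l) + 1 by ring, hc.two, ih]
  -- an inverse of `m'` modulo `2 ^ l`
  obtain ⟨r, q, hr⟩ : ∃ r q : ℕ, m' * r = 2 ^ l * q + 1 := by
    rcases Nat.eq_zero_or_pos l with rfl | hl
    · obtain ⟨t, rfl⟩ := hm'
      exact ⟨1, 2 * t, by ring⟩
    · have hcop : Nat.Coprime m' (2 ^ l) := (Nat.coprime_two_right.mpr hm').pow_right l
      obtain ⟨r, -, hr⟩ := Nat.exists_mul_mod_eq_one_of_coprime hcop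
        (Nat.one_lt_two_pow (by omega))
      refine ⟨r, m' * r / 2 ^ l, ?_⟩
      have h3 := Nat.div_add_mod (m' * r) (2 ^ l)
      rw [hr] at h3
      exact h3.symm
  have key : ∀ σ' σ : Ω ≃ₐ[L] Ω, (∀ x, γ (σ' x) = σ (γ x)) →
        Point.map (W' := W) (γ : Ω →ₐ[R] Ω) (c l σ') - c l σ =
          Point.map (W' := W) (σ : Ω →ₐ[L] Ω) (r • A) - r • A := by
    intro σ' σ hσ
    rw [map_nsmul, ← smul_sub, ← HA σ' σ hσ]
    have e1 : (2 ^ a * m') • (Point.map (W' := W) (γ : Ω →ₐ[R] Ω) (c (a + l) σ') -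
        c (a + l) σ) = m' • (Point.map (W' := W) (γ : Ω →ₐ[R] Ω) (c l σ') - c l σ) := by
      rw [mul_comm, mul_smul, smul_sub (2 ^ a), ← map_nsmul, hlev, hlev]
    rw [e1, ← mul_smul, mul_comm, hr, add_smul, one_smul, mul_comm (2 ^ l), mul_smul,
      smul_sub (2 ^ l), ← map_nsmul, hc.two_pow, hc.two_pow, map_zero, sub_zero, smul_zero,
      zero_add]
  refine ⟨r • A, ?_, key⟩
  apply eq_zero_of_fixed (L := L) h2 hW hg hdeg hd hD a
  · rw [← mul_smul, ← pow_add, smul_comm, hA, smul_zero]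
  · intro σ
    obtain ⟨σ', hσ'⟩ := hconj σ
    have e1 := congrArg (fun P => 2 ^ l • P) (key σ' σ hσ')
    rw [smul_sub (2 ^ l), smul_sub (2 ^ l), ← map_nsmul, ← map_nsmul, hc.two_pow, hc.two_pow,
      map_zero, sub_zero] at e1
    exact (sub_eq_zero.mp e1.symm)

end LevelOne

section Main

variable {k F L Ω : Type*} [Field k] [Field F] [Algebra k F] [Algebra.IsAlgebraic k F]
  [IsAlgClosed F] [Field L] [Field Ω]
  [Algebra F[X] L] [IsFractionRing F[X] L] [Algebra L Ω] [Algebra F[X] Ω] [IsScalarTower F[X] L Ω]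
  [Algebra k[X] L] [Algebra k[X] Ω] [IsScalarTower k[X] L Ω]
  [IsGalois L Ω] [IsSepClosed Ω] [IsSepClosure L Ω] [DecidableEq Ω]

variable (hk : ∀ p : k[X], algebraMap k[X] L p = algebraMap F[X] L (p.map (algebraMap k F)))

section Twist8

universe v

variable {k' : Type v} [Field k'] {F L : Type*} [Field F] [Algebra k' F] [Field L]
  [Algebra F[X] L] [Algebra k'[X] L] {g D : k'[X]}

lemma isTwist_twist
    (hk : ∀ p : k'[X], algebraMap k'[X] L p = algebraMap F[X] L (p.map (algebraMap k' F))) :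
    IsTwist L (twist g D).toAffine (g.map (algebraMap k' F)) (D.map (algebraMap k' F)) where
  a₁ := by simp [twist]
  a₂ := by
    rw [twist, hk, Polynomial.map_mul, Polynomial.map_C, coeff_map]
  a₃ := by simp [twist]
  a₄ := by
    rw [twist, hk, Polynomial.map_mul, Polynomial.map_C, coeff_map, Polynomial.map_pow]
  a₆ := by
    rw [twist, hk, Polynomial.map_mul, Polynomial.map_sub, Polynomial.map_C, coeff_map,
      Polynomial.map_pow, Polynomial.map_X]

end Twist8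

/-- The standing assumptions on `g` and `D`. -/
structure Good (g D : k[X]) : Prop where
  two : (2 : k) ≠ 0
  monic : g.Monic
  deg : g.natDegree = 3
  der : derivative g ≠ 0
  ne : D ≠ 0

variable (F) in
omit [Algebra.IsAlgebraic k F] [IsAlgClosed F] in
lemma Good.map {g D : k[X]} (h : Good g D) :
    Good (g.map (algebraMap k F)) (D.map (algebraMap k F)) where
  two := by
    intro h0; apply h.two; apply (algebraMap k F).injective; rw [map_ofNat, h0, map_zero]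
  monic := h.monic.map _
  deg := by rw [h.monic.natDegree_map, h.deg]
  der := by
    rw [derivative_map, Polynomial.map_ne_zero_iff (algebraMap k F).injective]; exact h.der
  ne := by rw [Polynomial.map_ne_zero_iff (algebraMap k F).injective]; exact h.ne

variable (L Ω) in
include L in
lemma two_ne_zero_Om (h : (2 : F) ≠ 0) : (2 : Ω) ≠ 0 := by
  intro h0
  have h3 : algebraMap F[X] Ω (C (2 : F)) = 0 := by
    have h4 : (C (2 : F) : F[X]) = 2 := map_ofNat C 2
    rw [h4, map_ofNat, h0]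
  have h5 := algebraMap_Om_injective (F := F) L (Ω := Ω) (h3.trans (map_zero _).symm)
  exact h (C_eq_zero.mp h5)

/-- `b` is a system of descent functions for `c`, with divisor `Z`. -/
abbrev Desc (g D : k[X]) (W : Affine k[X]) (c : (Ω ≃ₐ[L] Ω) → (W.baseChange Ω).Point) (Z : Finset F)
    (b : Ω → Ω) : Prop :=
  IsDesc W (g.map (algebraMap k F)) (D.map (algebraMap k F)) c Z b

include hk in
/-- The first level of an invariant Selmer class is trivial. -/
lemma level_one_trivial {g D : k[X]} (hgD : Good g D) {W : Affine k[X]}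
    (hWL : IsTwist L W (g.map (algebraMap k F)) (D.map (algebraMap k F)))
    (hirr : ∀ β : F, aeval (aeval β g) D = 0 → β ∉ IntermediateField.adjoin k {aeval β g})
    {c : ℕ → (Ω ≃ₐ[L] Ω) → (W.baseChange Ω).Point} (hc : TC W c)
    (hS : ∀ (Z : Finset F) (b : Ω → Ω), Desc g D W (c 1) Z b → ∀ β ∈ Z,
      (D.map (algebraMap k F)).eval ((g.map (algebraMap k F)).eval β) ≠ 0 →
        (derivative (g.map (algebraMap k F))).eval β = 0)
    (hinv : ∀ γ : Ω ≃ₐ[k[X]] Ω, InvMT W c γ) :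
    ∃ P : (W.baseChange Ω).Point, 2 • P = 0 ∧
      ∀ σ : Ω ≃ₐ[L] Ω, c 1 σ = Point.map (W' := W) (σ : Ω →ₐ[L] Ω) P - P := by
  have hF := hgD.map F
  have h2Ω : (2 : Ω) ≠ 0 := two_ne_zero_Om (F := F) L Ω hF.two
  have hWΩ : IsTwist Ω W (g.map (algebraMap k F)) (D.map (algebraMap k F)) := hWL.up
  have hc2 : ∀ σ : Ω ≃ₐ[L] Ω, 2 • c 1 σ = 0 := fun σ => by
    rw [hc.two, hc.zero]
  obtain ⟨Z, b, hb⟩ := exists_desc (F := F) h2Ω hWΩ hF.monic hF.deg hF.der (c 1) hc2
    (hc.mul 1) (hc.loc 1)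
  have hZ : Z = ∅ := by
    apply empty_of_stable hgD.monic hgD.deg hgD.der hirr Z
      (hb.even h2Ω hWΩ hF.monic hF.deg hF.der hF.ne hc2) (hS Z b hb)
    intro τ β hβ
    obtain ⟨γ, hγ⟩ := exists_lift_aut (Ω := Ω) hk τ
    obtain ⟨A, hA, hAinv⟩ := level_invariant h2Ω hWΩ hF.monic hF.deg hF.der hF.ne hc
      (exists_conj hk γ) (hinv γ) 1
    rw [pow_one] at hA
    have hcomp : (τ : F →+* F).comp (algebraMap k F) = algebraMap k F := by
      ext x
      exact τ.commutes x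
    have h6 := hb.image_eq h2Ω hWΩ hF.monic hF.deg hF.der hc2 hγ
      (by rw [Polynomial.map_map, hcomp]) (by rw [Polynomial.map_map, hcomp])
      (exists_conj hk γ) hA hAinv
    rw [← h6]
    exact Finset.mem_image_of_mem _ hβ
  subst hZ
  exact hb.coboundary h2Ω hWΩ hF.monic hF.deg hF.der hF.ne hc2

variable (L) in
include L in
lemma exists_halves {g D : F[X]} (hF : Good g D) {W : Affine k[X]}
    (hWΩ : IsTwist Ω W g D) (P : (W.baseChange Ω).Point) :
    ∃ Q : (W.baseChange Ω).Point, Q + Q = P := by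
  have h2Ω : (2 : Ω) ≠ 0 := two_ne_zero_Om (F := F) L Ω hF.two
  obtain ⟨θ₁, θ₂, θ₃, h12, h13, h23, hR, -, -⟩ :=
    exists_three_roots (F := F) L (Ω := Ω) hF.monic hF.deg hF.der
  have hd0 : algebraMap F[X] Ω D ≠ 0 := algebraMap_ne_zero_Om L hF.ne
  obtain ⟨Q, hQ⟩ := exists_half hWΩ.short h2Ω
    (fun x => by
      have : NeZero ((2 : ℕ) : Ω) := ⟨by exact_mod_cast h2Ω⟩
      exact IsSepClosed.exists_pow_nat_eq x 2)
    (hWΩ.rt hF.monic hF.deg ((hR θ₁).mpr (Or.inl rfl)))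
    (hWΩ.rt hF.monic hF.deg ((hR θ₂).mpr (Or.inr (Or.inl rfl))))
    (hWΩ.rt hF.monic hF.deg ((hR θ₃).mpr (Or.inr (Or.inr rfl))))
    (fun h => h12 (mul_left_cancel₀ hd0 h)) (fun h => h13 (mul_left_cancel₀ hd0 h))
    (fun h => h23 (mul_left_cancel₀ hd0 h)) P
  exact ⟨Q, by rw [← two_nsmul]; exact hQ⟩

end Main

end Pool.Agent.Lib.MP_89bcae_ag
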