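import Mathlib
import Pool.Agent.Lib.MP_89bcae_ag.Defs8
import Pool.Agent.Lib.MP_89bcae_ag.TC8

/-!
# From images of points to maps of points
-/

open Polynomial WeierstrassCurve WeierstrassCurve.Affine

open scoped Classical

namespace Pool.Agent.Lib.MP_89bcae_ag

universe u

section General

variable {R : Type*} {S : Type*} {A B : Type u} [CommRing R] [CommRing S] [Field A] [Field B]
  [Algebra R S] [Algebra R A] [Algebra S A] [IsScalarTower R S A] [Algebra R B] [Algebra S B]
  [IsScalarTower R S B] {W : WeierstrassCurve R}

lemma isImage_map (f : A →ₐ[S] B) (P : (Affine.baseChange W.toAffine A).Point) :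
    IsImage (f : A →+* B) (W := W.map (algebraMap R A)) (W' := W.map (algebraMap R B)) P
      (Point.map (W' := W.toAffine) f P) := by
  rcases P with _ | ⟨x, y, h⟩
  · exact IsImage.zero
  · exact IsImage.some x y h _

lemma isImage_iff (f : A →ₐ[S] B) (P : (Affine.baseChange W.toAffine A).Point)
    (Q : (Affine.baseChange W.toAffine B).Point) :
    IsImage (f : A →+* B) (W := W.map (algebraMap R A)) (W' := W.map (algebraMap R B)) P Q ↔
      Q = Point.map (W' := W.toAffine) f P := by
  constructor
  · intro h
    cases h with
    | zero => rfl
    | some x y h h' => rfl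
  · rintro rfl
    exact isImage_map f P

end General

end Pool.Agent.Lib.MP_89bcae_ag
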