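import Mathlib
import Pool.Agent.Lib.MP_89bcae_ag.Main8
import Pool.Agent.Lib.MP_89bcae_ag.Rel8

/-!
# Selmer classes: from the definitions to the abstract setting
-/

open Polynomial WeierstrassCurve WeierstrassCurve.Affine IsDedekindDomain

open scoped Classical

namespace Pool.Agent.Lib.MP_89bcae_ag

set_option linter.unusedSectionVars false
set_option linter.style.haveILetI false

universe u

section Inst

/-- The `k[t]`-algebra structure of `A`. -/
noncomputable abbrev algK (k F L A : Type u) [Field k] [Field F] [Algebra k F] [Field L]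
    [Algebra F[X] L] [Field A] [Algebra L A] : Algebra k[X] A := (base k F L A).toAlgebra

/-- The `F[t]`-algebra structure of `A`. -/
noncomputable abbrev algF (F L A : Type u) [Field F] [Field L]
    [Algebra F[X] L] [Field A] [Algebra L A] : Algebra F[X] A :=
  ((algebraMap L A).comp (algebraMap F[X] L)).toAlgebra

end Inst

variable {k F L Ω : Type u} [Field k] [Field F] [Algebra k F] [IsAlgClosed F]
  [Field L] [Algebra F[X] L] [IsFractionRing F[X] L] [Field Ω]
  [Algebra L Ω] [IsGalois L Ω] [IsSepClosed Ω]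

/-- The local condition at a place of good reduction, in terms of the definitions. -/
lemma notMem_of_isLocallyTrivial_aux {Lv M : Type u} [Field Lv] [Field M] [Algebra L Lv]
    [Algebra F[X] Lv] [IsScalarTower F[X] L Lv] [Algebra Lv M] [IsSepClosure Lv M] [Algebra L M]
    [IsScalarTower L Lv M] {g D : k[X]} (hgD : Good g D)
    (c : (Ω ≃ₐ[L] Ω) → ((twist g D).map (base k F L Ω)).toAffine.Point)
    (hc2 : ∀ σ, 2 • c σ = 0) {Z : Finset F} {b : Ω → Ω}
    (hb : letI := algK k F L L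
      letI := algK k F L Ω
      letI := algF F L Ω
      haveI : IsScalarTower F[X] L Ω := IsScalarTower.of_algebraMap_eq fun _ => rfl
      haveI : IsScalarTower k[X] L Ω := IsScalarTower.of_algebraMap_eq fun _ => rfl
      Desc (L := L) g D (twist g D).toAffine c Z b)
    (w : Valuation Lv (WithZero (Multiplicative ℤ))) {θv : Lv}
    (hθv : θv ∈ RootSet (Ω := Lv) (g.map (algebraMap k F)))
    {β : F} (hβ : w (θv - algebraMap F[X] Lv (C β)) = WithZero.exp (-1 : ℤ))
    (hβ' : ∀ β' : F, β' ≠ β → w (θv - algebraMap F[X] Lv (C β')) = 1)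
    (hwD : w (algebraMap F[X] Lv (D.map (algebraMap k F))) = 1)
    (hint : ∀ p : F[X], w (algebraMap F[X] Lv p) ≤ 1)
    (hwg : w (ev F Lv θv (derivative (g.map (algebraMap k F)))) = 1)
    (hwt : w (algebraMap F[X] Lv (X - C ((g.map (algebraMap k F)).eval β))) =
      WithZero.exp (-1 : ℤ))
    (hwt' : ∀ α : F, α ≠ (g.map (algebraMap k F)).eval β →
      w (algebraMap F[X] Lv (X - C α)) = 1) (h2 : (2 : Lv) ≠ 0)
    (hloc : ∃ (j : Ω →ₐ[L] M) (Q : ((twist g D).map (base k F L M)).toAffine.Point),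
      ∀ (s : M ≃ₐ[Lv] M) (s' : Ω ≃ₐ[L] Ω), (∀ x, j (s' x) = s (j x)) →
        ∀ P : ((twist g D).map (base k F L M)).toAffine.Point, IsImage (s : M →+* M) Q P →
          IsImage (j : Ω →+* M) (c s') (P - Q)) : β ∉ Z := by
  letI := algK k F L L
  letI := algK k F L Ω
  letI := algF F L Ω
  letI := algK k F L Lv
  letI := algK k F L M
  letI := algF F L M
  haveI : IsScalarTower F[X] L Ω := IsScalarTower.of_algebraMap_eq fun _ => rfl
  haveI : IsScalarTower k[X] L Ω := IsScalarTower.of_algebraMap_eq fun _ => rfl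
  haveI : IsScalarTower F[X] L M := IsScalarTower.of_algebraMap_eq fun _ => rfl
  haveI : IsScalarTower k[X] L M := IsScalarTower.of_algebraMap_eq fun _ => rfl
  haveI : IsScalarTower k[X] L Lv := IsScalarTower.of_algebraMap_eq fun _ => rfl
  haveI : IsScalarTower F[X] Lv M := IsScalarTower.of_algebraMap_eq fun p => by
    rw [IsScalarTower.algebraMap_apply F[X] L Lv, ← IsScalarTower.algebraMap_apply L Lv M]
    rfl
  haveI : IsScalarTower k[X] Lv M := IsScalarTower.of_algebraMap_eq fun p => by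
    rw [IsScalarTower.algebraMap_apply k[X] L Lv, ← IsScalarTower.algebraMap_apply L Lv M]
    rfl
  have hF := hgD.map F
  obtain ⟨j, Q₀, hQ₀⟩ := hloc
  let W : Affine k[X] := (twist g D).toAffine
  let c' : (Ω ≃ₐ[L] Ω) → (W.baseChange Ω).Point := c
  obtain ⟨Q, hQ⟩ : ∃ Q : (W.baseChange M).Point, ∀ (σ : M ≃ₐ[Lv] M) (σ' : Ω ≃ₐ[L] Ω),
      (∀ x, j (σ' x) = σ (j x)) →
      Point.map (W' := W) j (c' σ') = Point.map (W' := W) (σ : M →ₐ[Lv] M) Q - Q := by
    refine ⟨Q₀, fun σ σ' hσ => ?_⟩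
    have h1 := hQ₀ σ σ' hσ (Point.map (W' := W) (σ : M →ₐ[Lv] M) Q₀)
      (isImage_map (W := twist g D) (σ : M →ₐ[Lv] M) Q₀)
    exact ((isImage_iff (W := twist g D) j (c σ') _).mp h1).symm
  have hc2' : ∀ σ, 2 • c' σ = 0 := hc2
  obtain ⟨P, hP⟩ := exists_point_of_fixed8 (F := Lv) (W := W) (2 • Q) (by
    intro σ
    obtain ⟨σ', hσ'⟩ := exists_restrict (F := L) j (σ.restrictScalars L)
    have h3 := congrArg (fun P => 2 • P) (hQ σ σ' hσ')
    rw [← map_nsmul, smul_sub, ← map_nsmul, hc2', map_zero] at h3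
    exact sub_eq_zero.mp h3.symm)
  exact hb.notMem_of_local h2 (isTwist_twist fun _ => rfl) hF.monic hF.deg hF.der hF.ne hc2' j w hθv
    hβ hβ' hwD hint hwg hwt hwt' P Q hP.symm hQ

/-- The set `Z` of a locally trivial class lies over the zeros of `D`, up to multiple roots. -/
lemma eval_eq_zero_of_isLocallyTrivial {g D : k[X]} (hgD : Good g D)
    (c : (Ω ≃ₐ[L] Ω) → ((twist g D).map (base k F L Ω)).toAffine.Point)
    (hc2 : ∀ σ, 2 • c σ = 0) {Z : Finset F} {b : Ω → Ω}
    (hb : letI := algK k F L L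
      letI := algK k F L Ω
      letI := algF F L Ω
      haveI : IsScalarTower F[X] L Ω := IsScalarTower.of_algebraMap_eq fun _ => rfl
      haveI : IsScalarTower k[X] L Ω := IsScalarTower.of_algebraMap_eq fun _ => rfl
      Desc (L := L) g D (twist g D).toAffine c Z b)
    (hS : ∀ τ : F, IsLocallyTrivial (twist g D) c ((placeAt τ).adicCompletion L)) :
    ∀ β ∈ Z, (D.map (algebraMap k F)).eval ((g.map (algebraMap k F)).eval β) ≠ 0 →
        (derivative (g.map (algebraMap k F))).eval β = 0 := by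
  intro β hβ hDβ
  by_contra hgβ
  have hF := hgD.map F
  obtain ⟨θv, hθv, e1, e2, e3⟩ := exists_local_root (F := F) L hF.monic hF.deg hgβ
  have h2v : (2 : (placeAt ((g.map (algebraMap k F)).eval β)).adicCompletion L) ≠ 0 := by
    intro h0
    have h3 := val_eq_one L ((g.map (algebraMap k F)).eval β) (p := C 2)
      (by rw [eval_C]; exact hF.two)
    have h4 : (C (2 : F) : F[X]) = 2 := map_ofNat C 2
    rw [h4, map_ofNat, h0, map_zero] at h3
    exact zero_ne_one h3
  have hj : Nonempty (Ω →ₐ[L] SeparableClosure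
      ((placeAt ((g.map (algebraMap k F)).eval β)).adicCompletion L)) := ⟨IsSepClosed.lift⟩
  obtain ⟨j⟩ := hj
  obtain ⟨Q, hQ⟩ := hS ((g.map (algebraMap k F)).eval β) (SeparableClosure
    ((placeAt ((g.map (algebraMap k F)).eval β)).adicCompletion L)) j
  exact notMem_of_isLocallyTrivial_aux hgD c hc2 hb Valued.v hθv e1 e2 (val_eq_one L _ hDβ)
    (val_le_one L _) e3 (val_X_sub_C L _)
    (fun α hα => val_eq_one L _ (by
      rw [eval_sub, eval_X, eval_C]; exact sub_ne_zero.mpr (Ne.symm hα))) h2v ⟨j, Q, hQ⟩ hβ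

/-- Local triviality is not changed by a coboundary. -/
lemma IsLocallyTrivial.sub {W : WeierstrassCurve k[X]}
    {c : (Ω ≃ₐ[L] Ω) → (W.map (base k F L Ω)).toAffine.Point}
    {Lv : Type u} [Field Lv] [Algebra L Lv] (hc : IsLocallyTrivial W c Lv)
    (q : (W.map (base k F L Ω)).toAffine.Point)
    {c' : (Ω ≃ₐ[L] Ω) → (W.map (base k F L Ω)).toAffine.Point}
    (hc' : ∀ (σ : Ω ≃ₐ[L] Ω) q', IsImage (σ : Ω →+* Ω) q q' → c' σ = c σ - (q' - q)) :
    IsLocallyTrivial W c' Lv := by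
  intro M _ _ _ _ _ j
  obtain ⟨Q₀, hQ₀⟩ := hc M j
  letI := algK k F L L
  letI := algK k F L Ω
  letI := algK k F L Lv
  letI := algK k F L M
  haveI : IsScalarTower k[X] L Ω := IsScalarTower.of_algebraMap_eq fun _ => rfl
  haveI : IsScalarTower k[X] L M := IsScalarTower.of_algebraMap_eq fun _ => rfl
  haveI : IsScalarTower k[X] L Lv := IsScalarTower.of_algebraMap_eq fun _ => rfl
  haveI : IsScalarTower k[X] Lv M := IsScalarTower.of_algebraMap_eq fun p => by
    rw [IsScalarTower.algebraMap_apply k[X] L Lv, ← IsScalarTower.algebraMap_apply L Lv M]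
    rfl
  let V : Affine k[X] := W.toAffine
  let q₁ : (V.baseChange Ω).Point := q
  let c₁ : (Ω ≃ₐ[L] Ω) → (V.baseChange Ω).Point := c
  let c₁' : (Ω ≃ₐ[L] Ω) → (V.baseChange Ω).Point := c'
  let Q₁ : (V.baseChange M).Point := Q₀
  have hc1 : ∀ σ : Ω ≃ₐ[L] Ω, c₁' σ =
      c₁ σ - (Point.map (W' := V) (σ : Ω →ₐ[L] Ω) q₁ - q₁) := fun σ =>
    hc' σ _ (isImage_map (W := W) (σ : Ω →ₐ[L] Ω) q₁)
  refine ⟨Q₁ - Point.map (W' := V) j q₁, fun g g' hg P hP => ?_⟩
  have h1 := hQ₀ g g' hg (Point.map (W' := V) (g : M →ₐ[Lv] M) Q₁)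
      (isImage_map (W := W) (g : M →ₐ[Lv] M) Q₁)
  have h2 : Point.map (W' := V) j (c₁ g') =
      Point.map (W' := V) (g : M →ₐ[Lv] M) Q₁ - Q₁ :=
    ((isImage_iff (W := W) j (c₁ g') _).mp h1).symm
  have h3 := (isImage_iff (W := W) (g : M →ₐ[Lv] M) _ _).mp hP
  have e1 : Point.map (W' := V) j (Point.map (g' : Ω →ₐ[L] Ω) q₁) =
      Point.map (W' := V) (g : M →ₐ[Lv] M) (Point.map j q₁) := by
    rcases q₁ with _ | ⟨x, y, hxy⟩
    · rfl
    · rw [Point.map_some, Point.map_some, Point.map_some, Point.map_some]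
      simp only [Point.some.injEq]
      exact ⟨hg x, hg y⟩
  apply (isImage_iff (W := W) j (c₁' g') _).mpr
  rw [h3, hc1, map_sub, map_sub, map_sub, e1, h2]
  abel

/-- Invariant Selmer classes vanish. -/
theorem isTrivial_of_invariant [Algebra.IsAlgebraic k F] [IsSepClosure L Ω] {g D : k[X]}
    (hgD : Good g D)
    (hirr : ∀ β : F, aeval (aeval β g) D = 0 → β ∉ IntermediateField.adjoin k {aeval β g})
    (c : ℕ → (Ω ≃ₐ[L] Ω) → ((twist g D).map (base k F L Ω)).toAffine.Point)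
    (hc : IsTateCocycle (twist g D) c)
    (hS : ∀ (τ : F) (n : ℕ), IsLocallyTrivial (twist g D) (c n) ((placeAt τ).adicCompletion L))
    (hinv : ∀ γ : Ω ≃+* Ω, (∀ p : k[X], γ (base k F L Ω p) = base k F L Ω p) →
      IsFixedBy (twist g D) c γ) : IsTrivial (twist g D) c := by
  letI := algK k F L L
  letI := algK k F L Ω
  letI := algF F L Ω
  haveI : IsScalarTower F[X] L Ω := IsScalarTower.of_algebraMap_eq fun _ => rfl
  haveI : IsScalarTower k[X] L Ω := IsScalarTower.of_algebraMap_eq fun _ => rfl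
  let W : Affine k[X] := (twist g D).toAffine
  have hk : ∀ p : k[X], algebraMap k[X] L p = algebraMap F[X] L (p.map (algebraMap k F)) :=
    fun _ => rfl
  have hWL : IsTwist L W (g.map (algebraMap k F)) (D.map (algebraMap k F)) := isTwist_twist hk
  have hWΩ : IsTwist Ω W (g.map (algebraMap k F)) (D.map (algebraMap k F)) := hWL.up
  have key : ∀ n : ℕ, ∀ c : ℕ → (Ω ≃ₐ[L] Ω) → (W.baseChange Ω).Point, TC W c →
      (∀ (τ : F) (n : ℕ), IsLocallyTrivial (twist g D) (c n) ((placeAt τ).adicCompletion L)) →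
      (∀ γ : Ω ≃ₐ[k[X]] Ω, InvMT W c γ) →
      ∃ Q : (W.baseChange Ω).Point, 2 ^ n • Q = 0 ∧
        ∀ σ : Ω ≃ₐ[L] Ω, c n σ = Point.map (W' := W) (σ : Ω →ₐ[L] Ω) Q - Q := by
    intro n
    induction n with
    | zero =>
      intro c hc _ _
      exact ⟨0, by simp, fun σ => by rw [hc.zero, map_zero, sub_zero]⟩
    | succ n ih =>
      intro c hc hS hinv
      have hc2 : ∀ σ, 2 • c 1 σ = 0 := fun σ => by rw [hc.two, hc.zero]
      obtain ⟨P, hP, hcP⟩ := level_one_trivial hk hgD hWL hirr hc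
        (fun Z b hb => eval_eq_zero_of_isLocallyTrivial hgD (c 1) hc2 hb (fun τ => hS τ 1)) hinv
      obtain ⟨q, hq0, hq1, hq⟩ := exists_seq8 (exists_halves L (hgD.map F) hWΩ) 0 P
        (by rw [← two_nsmul]; exact hP)
      have h1 : ∀ σ : Ω ≃ₐ[L] Ω, c 1 σ =
          Point.map (W' := W) (σ : Ω →ₐ[L] Ω) (q 1) - q 1 := by
        intro σ; rw [hq1]; exact hcP σ
      obtain ⟨Q, hQ, hcQ⟩ := ih _ (hc.half hq h1)
        (fun τ m => (hS τ (m + 1)).sub (q (m + 1)) (fun σ q' hq' => by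
          rw [(isImage_iff (W := twist g D) (σ : Ω →ₐ[L] Ω) _ _).mp hq']
          rfl))
        (fun γ => (hinv γ).half hq (by rw [hq0, map_zero]))
      refine ⟨Q + q (n + 1), ?_, fun σ => ?_⟩
      · rw [smul_add, pow_succ, mul_comm, mul_smul, hQ, smul_zero, zero_add, mul_comm, ← pow_succ,
          two_pow_seq8 hq, hq0]
      · have := hcQ σ
        rw [sub_eq_iff_eq_add] at this
        rw [this, map_add]
        abel
  have hTC : TC W (fun n (σ : Ω ≃ₐ[L] Ω) => (c n σ : (W.baseChange Ω).Point)) :=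
    { zero := hc.zero
      two := hc.two_smul
      mul := fun n σ τ => hc.cocycle n σ τ _
        (isImage_map (W := twist g D) (σ : Ω →ₐ[L] Ω) (c n τ))
      loc := hc.locallyConstant }
  have hinv' : ∀ γ : Ω ≃ₐ[k[X]] Ω, InvMT W
      (fun n (σ : Ω ≃ₐ[L] Ω) => (c n σ : (W.baseChange Ω).Point)) γ := by
    intro γ
    obtain ⟨m, hm, H⟩ := hinv γ.toRingEquiv (fun p => γ.commutes p)
    refine ⟨m, hm, fun n => ?_⟩
    obtain ⟨A, hA, HA⟩ := H n
    refine ⟨A, hA, fun s h hs => ?_⟩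
    exact HA s h hs _ _ (isImage_map (W := twist g D) (γ : Ω →ₐ[k[X]] Ω) (c n s))
      (isImage_map (W := twist g D) (h : Ω →ₐ[L] Ω) A)
  intro n
  obtain ⟨Q, hQ, hcQ⟩ := key n _ hTC hS hinv'
  refine ⟨Q, hQ, fun σ A' hA' => ?_⟩
  rw [(isImage_iff (W := twist g D) (σ : Ω →ₐ[L] Ω) Q A').mp hA']
  exact hcQ σ

end Pool.Agent.Lib.MP_89bcae_ag
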