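import Mathlib
import Pool.Agent.Lib.MP_89bcae_ag.Place8

/-!
# Automorphisms of the completions of `F(t)`
-/

open Polynomial IsDedekindDomain Topology

open scoped Classical WithZeroTopology

namespace Pool.Agent.Lib.MP_89bcae_ag

set_option linter.unusedSectionVars false

section Cont

variable {A B : Type*} [Field A] [Field B] {v : Valuation A (WithZero (Multiplicative ℤ))}
  {v' : Valuation B (WithZero (Multiplicative ℤ))}

lemma continuous_congr8 (f : A ≃+* B) (h : ∀ x, v' (f x) = v x)
    (hsurj : Function.Surjective v) : Continuous (WithVal.congr v v' f) := by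
  apply continuous_of_continuousAt_zero (WithVal.congr v v' f)
  unfold ContinuousAt
  rw [map_zero, (Valued.hasBasis_nhds_zero (WithVal v') _).tendsto_right_iff]
  intro γ _
  set δ := MonoidWithZeroHom.ValueGroup₀.embedding γ.1 with hδ
  have hδ0 : δ ≠ 0 := by
    rw [hδ]
    simp
  obtain ⟨x₀, hx₀⟩ := hsurj δ
  have hne : (Valued.v.restrict (WithVal.toVal v x₀)) ≠ 0 := by
    intro h0
    rw [Valuation.restrict_eq_zero_iff] at h0
    rw [WithVal.valued_toVal, hx₀] at h0
    exact hδ0 h0
  have hopen := (Valued.isOpen_ball (WithVal v)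
    (Valued.v.restrict (WithVal.toVal v x₀))).mem_nhds (x := 0) (by
      simp only [Set.mem_ofPred_eq, map_zero]
      exact zero_lt_iff.mpr hne)
  filter_upwards [hopen] with x hx
  change Valued.v.restrict _ < γ.1
  rw [Valuation.restrict_lt_iff_lt_embedding]
  have h1 : Valued.v x < Valued.v (WithVal.toVal v x₀) := (Valuation.restrict_lt_iff _).mp hx
  have h1' : v x.ofVal < v x₀ := h1
  rw [hx₀] at h1'
  have h2 : Valued.v (WithVal.congr v v' f x) = v x.ofVal := by
    rw [WithVal.congr_apply, WithVal.valued_toVal, h]
  rw [h2]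
  exact h1'

/-- The isomorphism of completions induced by an isomorphism compatible with the valuations. -/
lemma exists_completion_equiv (f : A ≃+* B) (h : ∀ x, v' (f x) = v x)
    (hsurj : Function.Surjective v) (hsurj' : Function.Surjective v') :
    ∃ φ : v.Completion ≃+* v'.Completion,
      (∀ x : A, φ (x : v.Completion) = ((f x : B) : v'.Completion)) ∧
      ∀ x, Valued.v (φ x) = Valued.v x := by
  have hc := continuous_congr8 f h hsurj
  have h' : ∀ y, v (f.symm y) = v' y := by
    intro y
    rw [← h, f.apply_symm_apply]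
  have hc' : Continuous (WithVal.congr v v' f).symm := continuous_congr8 f.symm h' hsurj'
  refine ⟨UniformSpace.Completion.mapRingEquiv (WithVal.congr v v' f) hc hc', ?_, ?_⟩
  · intro x
    exact UniformSpace.Completion.mapRingHom_coe hc _
  · have h1 : Function.Surjective (Valued.v : v.Completion → WithZero (Multiplicative ℤ)) :=
      Valued.valuedCompletion_surjective_iff.mpr (fun γ => by
        obtain ⟨x, hx⟩ := hsurj γ
        exact ⟨WithVal.toVal v x, hx⟩)
    have h1' : Function.Surjective (Valued.v : v'.Completion → WithZero (Multiplicative ℤ)) :=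
      Valued.valuedCompletion_surjective_iff.mpr (fun γ => by
        obtain ⟨x, hx⟩ := hsurj' γ
        exact ⟨WithVal.toVal v' x, hx⟩)
    have h2 := Valued.continuous_valuation_of_surjective h1
    have h2' := Valued.continuous_valuation_of_surjective h1'
    have h3 : Continuous (UniformSpace.Completion.mapRingEquiv (WithVal.congr v v' f) hc hc') :=
      UniformSpace.Completion.continuous_map
    intro x
    refine UniformSpace.Completion.induction_on x ?_ fun a => ?_
    · exact isClosed_eq (h2'.comp h3) h2
    · have h4 : UniformSpace.Completion.mapRingEquiv (WithVal.congr v v' f) hc hc'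
          (a : UniformSpace.Completion (WithVal v)) =
          ((WithVal.congr v v' f a : WithVal v') : UniformSpace.Completion (WithVal v')) :=
        UniformSpace.Completion.mapRingHom_coe hc _
      rw [h4, Valued.valuedCompletion_apply, Valued.valuedCompletion_apply]
      exact h a.ofVal

end Cont

section Place

variable {F : Type*} [Field F] (L : Type*) [Field L] [Algebra F[X] L] [IsFractionRing F[X] L]

lemma intValuation_map (σ : F ≃+* F) (τ : F) (p : F[X]) :
    (placeAt (σ τ)).intValuation (p.map (σ : F →+* F)) = (placeAt τ).intValuation p := by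
  by_cases hp : p = 0
  · rw [hp, Polynomial.map_zero, map_zero, map_zero]
  obtain ⟨q, hq, hqτ⟩ := exists_eq_pow_rootMultiplicity_mul_and_not_dvd p hp τ
  have h1 : ∀ (τ : F) (q : F[X]) (n : ℕ), ¬ (X - C τ) ∣ q →
      (placeAt τ).intValuation ((X - C τ) ^ n * q) = WithZero.exp (-1 : ℤ) ^ n := by
    intro τ q n hq
    rw [map_mul, map_pow]
    have e1 : (placeAt τ).intValuation (X - C τ) = WithZero.exp (-1 : ℤ) :=
      (placeAt τ).intValuation_singleton (X_sub_C_ne_zero τ) rfl
    have e2 : (placeAt τ).intValuation q = 1 := by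
      rw [HeightOneSpectrum.intValuation_eq_one_iff]
      change q ∉ Ideal.span {X - C τ}
      rw [Ideal.mem_span_singleton]
      exact hq
    rw [e1, e2, mul_one]
  rw [hq, h1 τ q _ hqτ, Polynomial.map_mul, Polynomial.map_pow, Polynomial.map_sub,
    Polynomial.map_X, Polynomial.map_C]
  apply h1
  intro h2
  apply hqτ
  rw [dvd_iff_isRoot, IsRoot.def] at h2 ⊢
  rw [eval_map] at h2
  have h3 : eval₂ (σ : F →+* F) (σ τ) q = σ (q.eval τ) :=
    eval₂_hom (p := q) (σ : F →+* F) τ
  rw [h3] at h2
  exact (map_eq_zero σ).mp h2

/-- The automorphism of `F(t)` induced by an automorphism of `F`. -/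
noncomputable def coefL (σ : F ≃+* F) : L ≃+* L :=
  IsFractionRing.ringEquivOfRingEquiv (K := L) (L := L) (Polynomial.mapEquiv σ)

lemma coefL_algebraMap (σ : F ≃+* F) (p : F[X]) :
    coefL L σ (algebraMap F[X] L p) = algebraMap F[X] L (p.map (σ : F →+* F)) :=
  IsFractionRing.ringEquivOfRingEquiv_algebraMap (Polynomial.mapEquiv σ) p

lemma valuation_coefL (σ : F ≃+* F) (τ : F) (x : L) :
    (placeAt (σ τ)).valuation L (coefL L σ x) = (placeAt τ).valuation L x := by
  obtain ⟨p, q, hq, rfl⟩ := IsFractionRing.div_surjective (A := F[X]) x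
  rw [map_div₀, map_div₀, map_div₀, coefL_algebraMap, coefL_algebraMap,
    HeightOneSpectrum.valuation_of_algebraMap, HeightOneSpectrum.valuation_of_algebraMap,
    HeightOneSpectrum.valuation_of_algebraMap, HeightOneSpectrum.valuation_of_algebraMap,
    intValuation_map, intValuation_map]

/-- The isomorphism of the completion at `t = τ` with the completion at `t = σ(τ)` induced by an
automorphism `σ` of `F`. -/
lemma exists_adic_equiv (σ : F ≃+* F) (τ : F) :
    ∃ φ : (placeAt τ).adicCompletion L ≃+* (placeAt (σ τ)).adicCompletion L,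
      (∀ x : L, φ (algebraMap L _ x) = algebraMap L _ (coefL L σ x)) ∧
      ∀ x, Valued.v (φ x) = Valued.v x := by
  obtain ⟨φ, h1, h2⟩ := exists_completion_equiv (v := (placeAt τ).valuation L)
    (v' := (placeAt (σ τ)).valuation L) (coefL L σ) (valuation_coefL L σ τ)
    ((placeAt τ).valuation_surjective L) ((placeAt (σ τ)).valuation_surjective L)
  refine ⟨((HeightOneSpectrum.adicCompletion.equiv L (placeAt τ)).trans φ).trans
    (HeightOneSpectrum.adicCompletion.equiv L (placeAt (σ τ))).symm, ?_, ?_⟩
  · intro x
    apply HeightOneSpectrum.adicCompletion.ext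
    exact h1 x
  · intro x
    exact h2 x.toCompletion

end Place

end Pool.Agent.Lib.MP_89bcae_ag
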