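import Mathlib
import Pool.Agent.Lib.MP_89bcae_ag.Sel8
import Pool.Agent.Lib.MP_89bcae_ag.Trans8

/-!
# Conjugates of locally trivial classes
-/

open Polynomial WeierstrassCurve WeierstrassCurve.Affine IsDedekindDomain

open scoped Classical

namespace Pool.Agent.Lib.MP_89bcae_ag

set_option linter.unusedSectionVars false
set_option linter.style.haveILetI false

universe u

variable {k F L Ω : Type u} [Field k] [Field F] [Algebra k F] [IsAlgClosed F]
  [Field L] [Algebra F[X] L] [IsFractionRing F[X] L] [Field Ω]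
  [Algebra L Ω]

/-- Conjugation by an automorphism of `Ω` which preserves `L`. -/
lemma exists_conj_aux (f : L ≃+* L) (γ : Ω ≃+* Ω)
    (hγ : ∀ x : L, γ (algebraMap L Ω x) = algebraMap L Ω (f x)) (h : Ω ≃ₐ[L] Ω) :
    ∃ g : Ω ≃ₐ[L] Ω, ∀ x, γ (g x) = h (γ x) := by
  refine ⟨AlgEquiv.ofRingEquiv (f := (γ.trans h.toRingEquiv).trans γ.symm) ?_, ?_⟩
  · intro y
    change γ.symm (h (γ (algebraMap L Ω y))) = algebraMap L Ω y
    rw [hγ, h.commutes, ← hγ, RingEquiv.symm_apply_apply]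
  · intro x
    change γ (γ.symm (h (γ x))) = h (γ x)
    rw [RingEquiv.apply_symm_apply]

lemma isLocallyTrivial_conj_aux {W : WeierstrassCurve k[X]}
    {c c' : (Ω ≃ₐ[L] Ω) → (W.map (base k F L Ω)).toAffine.Point}
    {Lv Lv' : Type u} [Field Lv] [Algebra L Lv] [Field Lv'] [Algebra L Lv'] (f : L ≃+* L)
    (hf : ∀ p : k[X], f (base k F L L p) = base k F L L p) (φ : Lv ≃+* Lv')
    (γ : Ω ≃+* Ω)
    (hγ : ∀ x : L, γ (algebraMap L Ω x) = algebraMap L Ω (f x))
    (hcc' : ∀ σ σ' : Ω ≃ₐ[L] Ω, (∀ x, γ (σ' x) = σ (γ x)) →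
      IsImage (γ : Ω →+* Ω) (c σ') (c' σ)) (h : IsLocallyTrivial W c Lv)
    {M : Type u} [Field M] [Algebra Lv' M] [Algebra L M] [IsScalarTower L Lv' M]
    {M' : Type u} [Field M'] [Algebra Lv M'] [IsSepClosure Lv M'] [Algebra L M']
    [IsScalarTower L Lv M'] (e : M' ≃+* M)
    (he : ∀ x : Lv, e (algebraMap Lv M' x) = algebraMap Lv' M (φ x))
    (he' : ∀ x : L, e (algebraMap L M' x) = algebraMap L M (f x))
    (j : Ω →ₐ[L] M) :
    ∃ Q : (W.map (base k F L M)).toAffine.Point,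
      ∀ (g : M ≃ₐ[Lv'] M) (g' : Ω ≃ₐ[L] Ω), (∀ x, j (g' x) = g (j x)) →
        ∀ P : (W.map (base k F L M)).toAffine.Point, IsImage (g : M →+* M) Q P →
          IsImage (j : Ω →+* M) (c' g') (P - Q) := by
  letI := algK k F L L
  letI := algK k F L Ω
  letI := algK k F L Lv
  letI := algK k F L Lv'
  letI := algK k F L M
  letI := algK k F L M'
  haveI : IsScalarTower k[X] L Ω := IsScalarTower.of_algebraMap_eq fun _ => rfl
  haveI : IsScalarTower k[X] L M := IsScalarTower.of_algebraMap_eq fun _ => rfl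
  haveI : IsScalarTower k[X] L M' := IsScalarTower.of_algebraMap_eq fun _ => rfl
  haveI : IsScalarTower k[X] L Lv := IsScalarTower.of_algebraMap_eq fun _ => rfl
  haveI : IsScalarTower k[X] L Lv' := IsScalarTower.of_algebraMap_eq fun _ => rfl
  haveI : IsScalarTower k[X] Lv' M := IsScalarTower.of_algebraMap_eq fun p => by
    rw [IsScalarTower.algebraMap_apply k[X] L Lv', ← IsScalarTower.algebraMap_apply L Lv' M]
    rfl
  haveI : IsScalarTower k[X] Lv M' := IsScalarTower.of_algebraMap_eq fun p => by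
    rw [IsScalarTower.algebraMap_apply k[X] L Lv, ← IsScalarTower.algebraMap_apply L Lv M']
    rfl
  -- `e`, `γ` as algebra homomorphisms
  have hek : ∀ p : k[X], e (algebraMap k[X] M' p) = algebraMap k[X] M p := by
    intro p
    change e (algebraMap L M' (base k F L L p)) = algebraMap L M (base k F L L p)
    rw [he', hf]
  have hγk : ∀ p : k[X], γ (algebraMap k[X] Ω p) = algebraMap k[X] Ω p := by
    intro p
    change γ (algebraMap L Ω (base k F L L p)) = algebraMap L Ω (base k F L L p)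
    rw [hγ, hf]
  let e' : M' ≃ₐ[k[X]] M := AlgEquiv.ofRingEquiv (f := e) hek
  let γ' : Ω ≃ₐ[k[X]] Ω := AlgEquiv.ofRingEquiv (f := γ) hγk
  -- the embedding of `Ω` in `M'`
  let j' : Ω →ₐ[L] M' :=
    { toRingHom := (e.symm : M →+* M').comp ((j : Ω →+* M).comp (γ : Ω →+* Ω))
      commutes' := fun x => by
        change e.symm (j (γ (algebraMap L Ω x))) = algebraMap L M' x
        rw [hγ, j.commutes, ← he', RingEquiv.symm_apply_apply] }
  have hj' : ∀ x, e (j' x) = j (γ x) := fun x => by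
    change e (e.symm (j (γ x))) = _
    rw [RingEquiv.apply_symm_apply]
  obtain ⟨Q₀, hQ₀⟩ := h M' j'
  let V : Affine k[X] := W.toAffine
  let Q₁ : (V.baseChange M').Point := Q₀
  let c₁ : (Ω ≃ₐ[L] Ω) → (V.baseChange Ω).Point := c
  let c₁' : (Ω ≃ₐ[L] Ω) → (V.baseChange Ω).Point := c'
  refine ⟨Point.map (W' := V) (e' : M' →ₐ[k[X]] M) Q₁, fun g g' hg P hP => ?_⟩
  -- the conjugates of `g` and `g'`
  let s : M' ≃ₐ[Lv] M' := AlgEquiv.ofRingEquiv (f := (e.trans g.toRingEquiv).trans e.symm) (by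
    intro y
    change e.symm (g (e (algebraMap Lv M' y))) = algebraMap Lv M' y
    rw [he, g.commutes, ← he, RingEquiv.symm_apply_apply])
  have hs : ∀ x, e (s x) = g (e x) := fun x => by
    change e (e.symm (g (e x))) = _
    rw [RingEquiv.apply_symm_apply]
  obtain ⟨s', hs'⟩ := exists_conj_aux f γ hγ g'
  have hss : ∀ x, j' (s' x) = s (j' x) := by
    intro x
    apply e.injective
    rw [hj', hs', hg, hs, hj']
  have h1 := hQ₀ s s' hss (Point.map (W' := V) (s : M' →ₐ[Lv] M') Q₁)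
    (isImage_map (W := W) (s : M' →ₐ[Lv] M') Q₁)
  have h2 : Point.map (W' := V) (s : M' →ₐ[Lv] M') Q₁ - Q₁ = Point.map (W' := V) j' (c₁ s') :=
    (isImage_iff (W := W) j' (c₁ s') _).mp h1
  have h3 : c₁' g' = Point.map (W' := V) (γ' : Ω →ₐ[k[X]] Ω) (c₁ s') :=
    (isImage_iff (W := W) (γ' : Ω →ₐ[k[X]] Ω) (c₁ s') (c₁' g')).mp (hcc' g' s' hs')
  have h4 : P = Point.map (W' := V) (g : M →ₐ[Lv'] M)
      (Point.map (W' := V) (e' : M' →ₐ[k[X]] M) Q₁) :=
    (isImage_iff (W := W) (g : M →ₐ[Lv'] M) _ _).mp hP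
  apply (isImage_iff (W := W) j (c₁' g') _).mpr
  have e1 : Point.map (W' := V) (g : M →ₐ[Lv'] M)
      (Point.map (W' := V) (e' : M' →ₐ[k[X]] M) Q₁) =
      Point.map (W' := V) (e' : M' →ₐ[k[X]] M) (Point.map (W' := V) (s : M' →ₐ[Lv] M') Q₁) := by
    rcases Q₁ with _ | ⟨x, y, hxy⟩
    · rfl
    · rw [Point.map_some, Point.map_some, Point.map_some, Point.map_some]
      simp only [Point.some.injEq]
      exact ⟨(hs x).symm, (hs y).symm⟩
  have e2 : Point.map (W' := V) j (Point.map (W' := V) (γ' : Ω →ₐ[k[X]] Ω) (c₁ s')) =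
      Point.map (W' := V) (e' : M' →ₐ[k[X]] M) (Point.map (W' := V) j' (c₁ s')) := by
    rcases c₁ s' with _ | ⟨x, y, hxy⟩
    · rfl
    · rw [Point.map_some, Point.map_some, Point.map_some, Point.map_some]
      simp only [Point.some.injEq]
      exact ⟨(hj' x).symm, (hj' y).symm⟩
  rw [h4, h3, e1, e2, ← h2, map_sub]
  rfl

/-- The conjugate of a locally trivial class is locally trivial at the conjugate place. -/
lemma IsLocallyTrivial.conj {W : WeierstrassCurve k[X]}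
    {c c' : (Ω ≃ₐ[L] Ω) → (W.map (base k F L Ω)).toAffine.Point}
    {Lv Lv' : Type u} [Field Lv] [Algebra L Lv] [Field Lv'] [Algebra L Lv'] (f : L ≃+* L)
    (hf : ∀ p : k[X], f (base k F L L p) = base k F L L p) (φ : Lv ≃+* Lv')
    (hφ : ∀ x : L, φ (algebraMap L Lv x) = algebraMap L Lv' (f x)) (γ : Ω ≃+* Ω)
    (hγ : ∀ x : L, γ (algebraMap L Ω x) = algebraMap L Ω (f x))
    (hcc' : ∀ σ σ' : Ω ≃ₐ[L] Ω, (∀ x, γ (σ' x) = σ (γ x)) →
      IsImage (γ : Ω →+* Ω) (c σ') (c' σ)) (h : IsLocallyTrivial W c Lv) :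
    IsLocallyTrivial W c' Lv' := by
  intro M _ i1 i2 i3 i4 j
  have hsc : IsSepClosed M := IsSepClosure.sep_closed Lv'
  have hsep : Algebra.IsSeparable Lv' M := IsSepClosure.separable
  have htow : ∀ x : L, algebraMap L M x = algebraMap Lv' M (algebraMap L Lv' x) := fun x =>
    IsScalarTower.algebraMap_apply L Lv' M x
  let ιv : Lv' →+* M := algebraMap Lv' M
  let ιL : L →+* M := algebraMap L M
  let a1 : Algebra Lv M := (ιv.comp (φ : Lv →+* Lv')).toAlgebra
  let a2 : Algebra L M := (ιL.comp (f : L →+* L)).toAlgebra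
  have a3 : @IsScalarTower L Lv M _ a1.toSMul a2.toSMul :=
    @IsScalarTower.of_algebraMap_eq L Lv M _ _ _ _ a1 a2 (fun x => by
      change ιL (f x) = ιv (φ (algebraMap L Lv x))
      rw [hφ]
      exact htow (f x))
  have a4 : @Algebra.IsSeparable Lv M _ _ a1 := by
    refine @Algebra.IsSeparable.of_equiv_equiv Lv' M Lv M _ _ _ _ i1 a1 φ.symm (RingEquiv.refl M)
      ?_ hsep
    ext x
    change ιv (φ (φ.symm x)) = ιv x
    rw [RingEquiv.apply_symm_apply]
  have a5 : @IsSepClosure Lv _ M _ a1 := ⟨hsc, a4⟩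
  exact @isLocallyTrivial_conj_aux k F L Ω _ _ _ _ _ _ _ _ _ W c c' Lv Lv' _ _ _ _ f hf φ γ hγ
    hcc' h M _ i1 i3 i4 M _ a1 a5 a2 a3 (RingEquiv.refl M) (fun x => rfl) (fun x => rfl) j

end Pool.Agent.Lib.MP_89bcae_ag
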