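import Mathlib
import Pool.Agent.Lib.MP_89bcae_ag.TC8
import Pool.Agent.Lib.MP_89bcae_ag.Kummer8
import Pool.Agent.Lib.MP_89bcae_ag.Loc8

/-!
# Quadratic characters of a discretely valued field all of whose units are squares
-/

open Polynomial WeierstrassCurve WeierstrassCurve.Affine

namespace Pool.Agent.Lib.MP_89bcae_ag

set_option linter.unusedSectionVars false

section Comp

variable {L Ω K M : Type*} [Field L] [Field Ω] [Algebra L Ω] [Field K] [Field M] [Algebra K M]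
  [Algebra.IsAlgebraic K M]

/-- A locally constant function on a Galois group stays locally constant after composition with a
map induced by an embedding. -/
lemma isLocallyConstant_comp8 {Y : Type*} (ι : Ω →+* M) (ψ : (M ≃ₐ[K] M) → (Ω ≃ₐ[L] Ω))
    (hψ : ∀ σ x, ι (ψ σ x) = σ (ι x)) {f : (Ω ≃ₐ[L] Ω) → Y} (hf : IsLocallyConstant f) :
    IsLocallyConstant (fun σ => f (ψ σ)) := by
  classical
  rw [IsLocallyConstant.iff_exists_open]
  intro σ₁
  have h1 : (fun h => ψ σ₁ * h) ⁻¹' (f ⁻¹' {f (ψ σ₁)}) ∈ nhds (1 : Ω ≃ₐ[L] Ω) := by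
    apply (continuous_const_mul (ψ σ₁)).continuousAt.preimage_mem_nhds
    rw [mul_one]
    exact (hf.isOpen_fiber _).mem_nhds rfl
  obtain ⟨E, hE, hEs⟩ := (krullTopology_mem_nhds_one_iff L Ω _).mp h1
  obtain ⟨S, hS⟩ : E.FG := IntermediateField.essFiniteType_iff.mp inferInstance
  refine ⟨⋂ x ∈ S, {σ : M ≃ₐ[K] M | σ (ι x) = σ₁ (ι x)}, ?_, ?_, ?_⟩
  · apply isOpen_biInter_finset
    intro x _
    exact (isLocallyConstant_apply8 (F := K) (ι x)).isOpen_fiber (σ₁ (ι x))
  · simp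
  · intro σ hσ
    have h2 : (ψ σ₁)⁻¹ * ψ σ ∈ E.fixingSubgroup := by
      rw [← hS, IntermediateField.mem_fixingSubgroup_iff]
      intro y hy
      have h3 : (ψ σ₁)⁻¹ * ψ σ ∈ (IntermediateField.adjoin L (S : Set Ω)).fixingSubgroup := by
        rw [← Subgroup.zpowers_le, ← IntermediateField.le_iff_le, IntermediateField.adjoin_le_iff]
        intro x hx
        rw [SetLike.mem_coe, IntermediateField.mem_fixedField_iff]
        intro τ hτ
        have h4 : ((ψ σ₁)⁻¹ * ψ σ) x = x := by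
          apply (ψ σ₁).injective
          rw [← AlgEquiv.mul_apply, mul_inv_cancel_left]
          apply ι.injective
          rw [hψ, hψ]
          have := Set.mem_iInter₂.mp hσ x hx
          exact this
        obtain ⟨n, rfl⟩ := Subgroup.mem_zpowers_iff.mp hτ
        have h5 : (ψ σ₁)⁻¹ * ψ σ ∈ MulAction.stabilizer (Ω ≃ₐ[L] Ω) x := h4
        exact (MulAction.stabilizer (Ω ≃ₐ[L] Ω) x).zpow_mem h5 n
      exact (IntermediateField.mem_fixingSubgroup_iff _ _).mp h3 y hy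
    have h3 := hEs h2
    have h4 : f (ψ σ₁ * ((ψ σ₁)⁻¹ * ψ σ)) = f (ψ σ₁) := h3
    rwa [mul_inv_cancel_left] at h4

end Comp

section Units

variable {K Ω : Type*} [Field K] [Field Ω] [Algebra K Ω]
  (w : Valuation K (WithZero (Multiplicative ℤ)))

lemma lg_zpow {x : K} (hx : x ≠ 0) (n : ℤ) : lg w (x ^ n) = n * lg w x := by
  rcases n with n | n
  · rw [Int.ofNat_eq_natCast, zpow_natCast, lg_pow]
  · rw [zpow_negSucc]
    have h1 : lg w ((x ^ (n + 1))⁻¹) = -lg w (x ^ (n + 1)) := by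
      have h2 := lg_mul w (inv_ne_zero (pow_ne_zero (n + 1) hx)) (pow_ne_zero (n + 1) hx)
      rw [inv_mul_cancel₀ (pow_ne_zero _ hx), lg_one] at h2
      linarith
    rw [h1, lg_pow, Int.negSucc_eq]
    push_cast
    ring

lemma val_one_of_lg {x : K} (hx : x ≠ 0) (h : lg w x = 0) : w x = 1 := by
  unfold lg at h
  have := WithZero.exp_log (show w x ≠ 0 from (map_ne_zero w).mpr hx)
  rw [h, WithZero.exp_zero] at this
  exact this.symm

/-- If the valuation of `x` is even, then `x` is a square. -/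
lemma exists_sqrt_of_even {π : K} (hπ : w π = WithZero.exp (-1 : ℤ))
    (hsq : ∀ x : K, w x = 1 → ∃ r, r ^ 2 = x) {x : K} (hx : x ≠ 0) (h : Even (lg w x)) :
    ∃ r, r ^ 2 = x := by
  obtain ⟨n, hn⟩ := h
  have hπ0 : π ≠ 0 := by
    rintro rfl
    rw [map_zero] at hπ
    exact WithZero.exp_ne_zero hπ.symm
  have hlπ : lg w π = -1 := by
    unfold lg
    rw [hπ, WithZero.log_exp]
  have h1 : w (x * (π ^ n) ^ 2) = 1 := by
    apply val_one_of_lg w (mul_ne_zero hx (pow_ne_zero 2 (zpow_ne_zero n hπ0)))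
    rw [lg_mul w hx (pow_ne_zero 2 (zpow_ne_zero n hπ0)), lg_pow, lg_zpow w hπ0, hlπ, hn]
    push_cast
    ring
  obtain ⟨r, hr⟩ := hsq _ h1
  refine ⟨r / π ^ n, ?_⟩
  rw [div_pow, hr]
  field_simp [zpow_ne_zero n hπ0]

/-- Square roots of elements of even valuation are rational. -/
lemma exists_rational_sqrt {π : K} (hπ : w π = WithZero.exp (-1 : ℤ))
    (hsq : ∀ x : K, w x = 1 → ∃ r, r ^ 2 = x) {x : K} (hx : x ≠ 0) (h : Even (lg w x)) {d : Ω}
    (hd : d ^ 2 = algebraMap K Ω x) : ∃ r, algebraMap K Ω r = d := by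
  obtain ⟨r, hr⟩ := exists_sqrt_of_even w hπ hsq hx h
  have h1 : (d - algebraMap K Ω r) * (d + algebraMap K Ω r) = 0 := by
    rw [← hr, map_pow] at hd
    linear_combination hd
  rcases mul_eq_zero.mp h1 with h2 | h2
  · exact ⟨r, (sub_eq_zero.mp h2).symm⟩
  · exact ⟨-r, by rw [map_neg]; linear_combination -h2⟩

variable {w} in
/-- The Galois action on a square root of an element of odd valuation. -/
lemma sqrt_odd {π : K} (hπ : w π = WithZero.exp (-1 : ℤ))
    (hsq : ∀ x : K, w x = 1 → ∃ r, r ^ 2 = x) {S : Ω} (hS : S ^ 2 = algebraMap K Ω π) {x : K}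
    (hx : x ≠ 0) (h : Odd (lg w x)) {d : Ω} (hd : d ^ 2 = algebraMap K Ω x) (σ : Ω ≃ₐ[K] Ω) :
    σ d * S = d * σ S := by
  have hπ0 : π ≠ 0 := by
    rintro rfl
    rw [map_zero] at hπ
    exact WithZero.exp_ne_zero hπ.symm
  have hlπ : lg w π = -1 := by
    unfold lg
    rw [hπ, WithZero.log_exp]
  have hS0 : S ≠ 0 := by
    rintro rfl
    rw [zero_pow two_ne_zero, eq_comm, map_eq_zero] at hS
    exact hπ0 hS
  obtain ⟨r, hr⟩ := exists_rational_sqrt w hπ hsq (x := x * π) (mul_ne_zero hx hπ0) (by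
    rw [lg_mul w hx hπ0, hlπ]
    exact h.add_odd (by decide)) (d := d * S) (by rw [mul_pow, hd, hS, map_mul])
  have h1 : σ d * σ S = d * S := by
    rw [← map_mul, ← hr, σ.commutes]
  have h2 : σ S ^ 2 = S ^ 2 := by rw [← map_pow, hS, σ.commutes]
  have hσS : σ S ≠ 0 := (map_ne_zero σ).mpr hS0
  apply mul_right_cancel₀ hσS
  linear_combination S * h1 - d * h2

/-- A square root of a uniformizer is moved by some element of the Galois group. -/
lemma exists_moves [IsGalois K Ω] {π : K} (hπ : w π = WithZero.exp (-1 : ℤ)) {S : Ω}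
    (hS : S ^ 2 = algebraMap K Ω π) : ∃ σ : Ω ≃ₐ[K] Ω, σ S = -S := by
  by_contra hcon
  push Not at hcon
  have h1 : ∀ σ : Ω ≃ₐ[K] Ω, σ S = S := by
    intro σ
    have h2 : (σ S - S) * (σ S + S) = 0 := by
      have : σ S ^ 2 = S ^ 2 := by rw [← map_pow, hS, σ.commutes]
      linear_combination this
    rcases mul_eq_zero.mp h2 with h | h
    · exact sub_eq_zero.mp h
    · exact absurd (by linear_combination h) (hcon σ)
  obtain ⟨y, hy⟩ := exists_of_fixed (F := K) (x := S) h1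
  have h3 : y ^ 2 = π := by
    apply (algebraMap K Ω).injective
    rw [map_pow, hy, hS]
  have h4 := lg_pow w (x := y) 2
  rw [h3] at h4
  have hlπ : lg w π = -1 := by
    unfold lg
    rw [hπ, WithZero.log_exp]
  rw [hlπ] at h4
  push_cast at h4
  omega

lemma smul_sign [IsGalois K Ω] {π : K} {S : Ω}
    (hS : S ^ 2 = algebraMap K Ω π) (σ : Ω ≃ₐ[K] Ω) : σ S = S ∨ σ S = -S := by
  have h2 : (σ S - S) * (σ S + S) = 0 := by
    have : σ S ^ 2 = S ^ 2 := by rw [← map_pow, hS, σ.commutes]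
    linear_combination this
  rcases mul_eq_zero.mp h2 with h | h
  · exact Or.inl (sub_eq_zero.mp h)
  · exact Or.inr (by linear_combination h)

/-- A sign character which is trivial at an element moving the square root of a uniformizer is
trivial. -/
lemma char_trivial [IsGalois K Ω] (h2 : (2 : Ω) ≠ 0) {π : K} (hπ : w π = WithZero.exp (-1 : ℤ))
    (hsq : ∀ x : K, w x = 1 → ∃ r, r ^ 2 = x) {S : Ω} (hS : S ^ 2 = algebraMap K Ω π)
    {σ₀ : Ω ≃ₐ[K] Ω} (hσ₀ : σ₀ S = -S) (χ : (Ω ≃ₐ[K] Ω) → Ω)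
    (hsign : ∀ σ, χ σ = 1 ∨ χ σ = -1) (hmul : ∀ σ τ, χ (σ * τ) = χ σ * χ τ)
    (hloc : IsLocallyConstant χ) (h0 : χ σ₀ = 1) (σ : Ω ≃ₐ[K] Ω) : χ σ = 1 := by
  obtain ⟨b, hb0, hb⟩ := exists_kummer_gen (0 : Ω) χ (fun σ _ => hsign σ)
    (fun σ τ _ _ => hmul σ τ) hloc
  have hb' : ∀ σ : Ω ≃ₐ[K] Ω, σ b = χ σ * b := fun σ => hb σ (map_zero σ)
  obtain ⟨x, hx⟩ := exists_of_fixed (F := K) (x := b ^ 2) (by
    intro σ
    rw [map_pow, hb']
    rcases hsign σ with h | h <;> rw [h] <;> ring)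
  have hx0 : x ≠ 0 := by
    rintro rfl
    rw [map_zero] at hx
    exact hb0 (pow_eq_zero_iff two_ne_zero |>.mp hx.symm)
  have hπ0 : π ≠ 0 := by
    rintro rfl
    rw [map_zero] at hπ
    exact WithZero.exp_ne_zero hπ.symm
  have hS0 : S ≠ 0 := by
    rintro rfl
    rw [zero_pow two_ne_zero, eq_comm, map_eq_zero] at hS
    exact hπ0 hS
  rcases Int.even_or_odd (lg w x) with he | ho
  · obtain ⟨r, hr⟩ := exists_rational_sqrt w hπ hsq hx0 he (d := b) hx.symm
    have h1 := hb' σ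
    rw [← hr, σ.commutes] at h1
    have h3 : algebraMap K Ω r ≠ 0 := by rw [hr]; exact hb0
    exact (mul_right_cancel₀ h3 (by rw [one_mul]; exact h1)).symm
  · exfalso
    have h1 := sqrt_odd hπ hsq hS hx0 ho (d := b) hx.symm σ₀
    rw [hb', h0, one_mul, hσ₀] at h1
    have h3 : 2 * (b * S) = 0 := by linear_combination h1
    rcases mul_eq_zero.mp h3 with h | h
    · exact h2 h
    · exact mul_ne_zero hb0 hS0 h

end Units

end Pool.Agent.Lib.MP_89bcae_ag
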