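import Mathlib
import Pool.Agent.Lib.MP_89bcae_ag.Inv8

/-!
# The exact effect of an automorphism on the descent functions
-/

open Polynomial WeierstrassCurve WeierstrassCurve.Affine

open scoped Classical

namespace Pool.Agent.Lib.MP_89bcae_ag

set_option linter.unusedSectionVars false

section SqrtProd

variable {F : Type*} [Field F]

/-- A product over a set with even fibres is a square. -/
lemma prod_even_fibres {M : Type*} [CommMonoid M] (Z : Finset F) (f : F → F) (u : F → M)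
    (h : ∀ α, Even (Z.filter fun β => f β = α).card) :
    ∏ β ∈ Z, u (f β) =
      (∏ α ∈ Z.image f, u α ^ ((Z.filter fun β => f β = α).card / 2)) ^ 2 := by
  rw [Finset.prod_comp u f, ← Finset.prod_pow]
  apply Finset.prod_congr rfl
  intro α _
  rw [← pow_mul]
  congr 1
  obtain ⟨n, hn⟩ := h α
  omega

end SqrtProd

section Conj

variable {R F L Ω : Type*} [CommRing R] [Field F] [IsAlgClosed F] [Field L] [Field Ω]
  [Algebra F[X] L] [IsFractionRing F[X] L] [Algebra L Ω] [Algebra F[X] Ω] [IsScalarTower F[X] L Ω]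
  [Algebra R L] [Algebra R Ω] [IsScalarTower R L Ω] {W : Affine R} {g D : F[X]}
  [IsGalois L Ω] [IsSepClosed Ω] [DecidableEq Ω] {γ : Ω ≃ₐ[R] Ω} {τ : F →+* F}

/-- The effect of an automorphism fixing the points of `Z` on the descent functions. -/
lemma IsDesc.conj_eq {c : (Ω ≃ₐ[L] Ω) → (W.baseChange Ω).Point} {Z : Finset F}
    {b : Ω → Ω} (h : IsDesc W g D c Z b) (h2 : (2 : Ω) ≠ 0)
    (hW : IsTwist Ω W g D) (hg : g.Monic) (hdeg : g.natDegree = 3) (hd : derivative g ≠ 0)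
    (hD : D ≠ 0) (hc : ∀ σ, 2 • c σ = 0)
    (hγ : ∀ p : F[X], γ (algebraMap F[X] Ω p) = algebraMap F[X] Ω (p.map τ))
    (hgτ : g.map τ = g) (hDτ : D.map τ = D)
    (hconj : ∀ σ : Ω ≃ₐ[L] Ω, ∃ σ' : Ω ≃ₐ[L] Ω, ∀ x, γ (σ' x) = σ (γ x))
    (hfix : ∀ β ∈ Z, τ β = β)
    {A : (W.baseChange Ω).Point} (hA : 2 • A = 0)
    (hinv : ∀ σ' σ : Ω ≃ₐ[L] Ω, (∀ x, γ (σ' x) = σ (γ x)) →
      Point.map (W' := W) (γ : Ω →ₐ[R] Ω) (c σ') - c σ =
        Point.map (W' := W) (σ : Ω →ₐ[L] Ω) A - A) :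
    ∀ θ ∈ RootSet (Ω := Ω) g, γ (b (γ.symm θ)) = rho (algebraMap F[X] Ω D * θ) A * b θ := by
  set c' : (Ω ≃ₐ[L] Ω) → (W.baseChange Ω).Point :=
    fun σ => c σ + (Point.map (W' := W) (σ : Ω →ₐ[L] Ω) A - A) with hc'
  have h3 := h.twist h2 hW hg hdeg hA (c' := c') (fun σ => rfl)
  have h4 := h.conj (c' := c') hγ hgτ hDτ (by
    intro σ
    obtain ⟨σ', hσ'⟩ := hconj σ
    refine ⟨σ', hσ', ?_⟩
    rw [hc']
    simp only
    rw [← hinv σ' σ hσ']
    abel)
  have hZ : Z.image τ = Z := by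
    ext β
    rw [Finset.mem_image]
    constructor
    · rintro ⟨β', h5, rfl⟩
      rw [hfix β' h5]
      exact h5
    · intro h5
      exact ⟨β, h5, hfix β h5⟩
  rw [hZ] at h4
  have hc2' : ∀ σ, 2 • c' σ = 0 := by
    intro σ
    have hσA : 2 • Point.map (W' := W) (σ : Ω →ₐ[L] Ω) A = 0 := by
      rw [← map_nsmul, hA, map_zero]
    rw [hc']
    simp only
    rw [smul_add, hc, smul_sub, hσA, hA, sub_zero, add_zero]
  obtain ⟨θ₁, θ₂, θ₃, h12, h13, h23, hR, -, -⟩ :=
    exists_three_roots (F := F) L (Ω := Ω) hg hdeg hd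
  have hT : ∀ θ, θ ∈ ({θ₁, θ₂, θ₃} : Finset Ω) ↔ θ ∈ RootSet (Ω := Ω) g := by
    intro θ
    rw [hR]
    simp
  have hθ₁ : θ₁ ∈ RootSet (Ω := Ω) g := (hR _).mpr (Or.inl rfl)
  -- the two systems of descent functions agree up to a global sign
  set B1 : Ω → Ω := fun θ => rho (algebraMap F[X] Ω D * θ) A * b θ with hB1
  set B2 : Ω → Ω := fun θ => γ (b (γ.symm θ)) with hB2
  have hs0 : ∀ θ σ, rho (algebraMap F[X] Ω D * θ) (c' σ) ≠ 0 := by
    intro θ σ h0
    have := rho_two_torsion_mul_self hW.short h2 (algebraMap F[X] Ω D * θ) (hc2' σ)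
    rw [h0, mul_zero] at this
    exact zero_ne_one this
  have hglob : ∀ s : Ω, (s = 1 ∨ s = -1) → B2 θ₁ = s * B1 θ₁ →
      ∀ θ ∈ RootSet (Ω := Ω) g, B2 θ = s * B1 θ := by
    intro s hs h5 θ hθ
    obtain ⟨σ, rfl⟩ := rootSet_transitive (L := L) hg hdeg hθ₁ hθ
    have h6 := congrArg σ h5
    have hσs : σ s = s := by
      rcases hs with rfl | rfl <;> simp
    rw [map_mul, hσs, h4.act θ₁ hθ₁ σ, h3.act θ₁ hθ₁ σ] at h6
    apply mul_left_cancel₀ (hs0 (σ θ₁) σ)
    linear_combination h6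
  have hsgn : B2 θ₁ = 1 * B1 θ₁ ∨ B2 θ₁ = -1 * B1 θ₁ := by
    have h5 : B2 θ₁ ^ 2 = B1 θ₁ ^ 2 := (h4.sq θ₁ hθ₁).trans (h3.sq θ₁ hθ₁).symm
    have h6 : (B2 θ₁ - B1 θ₁) * (B2 θ₁ + B1 θ₁) = 0 := by linear_combination h5
    rcases mul_eq_zero.mp h6 with h7 | h7
    · left; linear_combination h7
    · right; linear_combination h7
  rcases hsgn with h5 | h5
  · intro θ hθ
    have := hglob 1 (Or.inl rfl) h5 θ hθ
    rw [one_mul] at this
    exact this
  · exfalso
    have h6 := hglob (-1) (Or.inr rfl) h5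
    -- the norm
    set T : Finset Ω := {θ₁, θ₂, θ₃} with hTdef
    obtain ⟨-, hN2⟩ := h.exists_norm h2 hW hg hdeg hd hD hc hT
    set N := ∏ θ ∈ T, b θ with hN
    have hB1N : ∏ θ ∈ T, B1 θ = N := by
      rw [hB1, Finset.prod_mul_distrib, prod_rho_roots L h2 hW hg hdeg hd hD hT hA, one_mul]
    have hcard : T.card = 3 := by
      rw [hTdef, Finset.card_insert_of_notMem (by simp [h12, h13]),
        Finset.card_insert_of_notMem (by simp [h23]), Finset.card_singleton]
    have hB2N : ∏ θ ∈ T, B2 θ = -N := by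
      rw [Finset.prod_congr rfl fun θ hθ => h6 θ ((hT θ).mp hθ), Finset.prod_mul_distrib, hB1N,
        Finset.prod_const, hcard]
      ring
    have hB2γ : ∏ θ ∈ T, B2 θ = γ N := by
      rw [hN, map_prod]
      symm
      apply Finset.prod_nbij' (fun θ => γ θ) (fun θ => γ.symm θ)
      · intro θ hθ
        exact (hT _).mpr (gamma_mem_rootSet hγ hgτ ((hT θ).mp hθ))
      · intro θ hθ
        exact (hT _).mpr (gamma_symm_mem_rootSet hγ hgτ ((hT θ).mp hθ))
      · intro θ _; simp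
      · intro θ _; simp
      · intro θ _
        rw [hB2]
        simp
    -- `N` is fixed by `γ`
    have heven := h.even h2 hW hg hdeg hd hD hc
    set q : F[X] := ∏ α ∈ Z.image (fun β => g.eval β),
      (X - C α) ^ ((Z.filter fun β => g.eval β = α).card / 2) with hq
    have hNq : N ^ 2 = (algebraMap F[X] Ω q) ^ 2 := by
      rw [hN2, ← map_pow, hq]
      congr 1
      exact prod_even_fibres Z (fun β => g.eval β) (fun α => X - C α) heven
    have hqτ : q.map τ = q := by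
      rw [hq, Polynomial.map_prod]
      apply Finset.prod_congr rfl
      intro α hα
      obtain ⟨β, hβ, rfl⟩ := Finset.mem_image.mp hα
      have h7 : τ (g.eval β) = g.eval β := by
        have := eval₂_hom (p := g) τ β
        rw [← this, ← eval_map, hgτ, hfix β hβ]
      rw [Polynomial.map_pow, Polynomial.map_sub, Polynomial.map_X, Polynomial.map_C, h7]
    have hγN : γ N = N := by
      have h7 : (N - algebraMap F[X] Ω q) * (N + algebraMap F[X] Ω q) = 0 := by
        linear_combination hNq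
      have h8 : γ (algebraMap F[X] Ω q) = algebraMap F[X] Ω q := by rw [hγ, hqτ]
      rcases mul_eq_zero.mp h7 with h9 | h9
      · rw [sub_eq_zero.mp h9, h8]
      · have : N = -algebraMap F[X] Ω q := by linear_combination h9
        rw [this, map_neg, h8]
    have hN0 : N ≠ 0 := by
      rw [hN]
      exact Finset.prod_ne_zero_iff.mpr fun θ hθ => h.ne_zero ((hT θ).mp hθ)
    rw [hB2γ, hγN] at hB2N
    have : 2 * N = 0 := by linear_combination hB2N
    rcases mul_eq_zero.mp this with h7 | h7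
    · exact h2 h7
    · exact hN0 h7

end Conj

end Pool.Agent.Lib.MP_89bcae_ag
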