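import Mathlib
import Pool.Agent.Lib.MP_89bcae_ag.Char8
import Pool.Agent.Lib.MP_89bcae_ag.Norm8

/-!
# The local Galois action on points of order four at a place where `D` vanishes
-/

open Polynomial WeierstrassCurve WeierstrassCurve.Affine

open scoped Classical

namespace Pool.Agent.Lib.MP_89bcae_ag

set_option linter.unusedSectionVars false

section RhoDouble

variable {K : Type*} [Field K] {W : WeierstrassCurve.Affine K}

/-- `ρ_e(Q)² = x(2Q) - e`. -/
lemma rho_sq_double (hW : Short W) (h2 : (2 : K) ≠ 0) {e : K} (he : Rt W e) {Q : W.Point}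
    {X Y : K} {h : W.Nonsingular X Y} (hQ : 2 • Q = .some X Y h) : rho e Q ^ 2 = X - e := by
  rcases Q with _ | ⟨x, y, hxy⟩
  · exfalso
    rw [← Affine.Point.zero_def, smul_zero] at hQ
    exact Affine.Point.some_ne_zero _ hQ.symm
  have hy : y ≠ 0 := by
    intro hy0
    rw [two_nsmul, (add_self_eq_zero_iff hW h2 hxy).mpr hy0] at hQ
    exact Affine.Point.some_ne_zero _ hQ.symm
  rw [rho_sq hW h2 he hxy hy]
  have hne : y ≠ W.negY x y := by
    rw [hW.negY]
    intro h1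
    have : 2 * y = 0 := by linear_combination h1
    rcases mul_eq_zero.mp this with h3 | h3
    · exact h2 h3
    · exact hy h3
  rw [two_nsmul, Affine.Point.add_self_of_Y_ne hne] at hQ
  simp only [Affine.Point.some.injEq] at hQ
  rw [hQ.1]

end RhoDouble

section Local

variable {R F L Ω : Type*} [CommRing R] [Field F] [IsAlgClosed F] [Field L] [Field Ω]
  [Algebra F[X] L] [IsFractionRing F[X] L] [Algebra L Ω] [Algebra F[X] Ω] [IsScalarTower F[X] L Ω]
  [Algebra R L] [Algebra R Ω] [IsScalarTower R L Ω] {W : Affine R} {g D : F[X]}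
  [IsGalois L Ω] [IsSepClosed Ω]
  {K : Type*} [Field K] [Algebra L K] [Algebra K Ω] [IsScalarTower L K Ω] [Algebra F[X] K]
  [IsScalarTower F[X] L K] [IsScalarTower F[X] K Ω] [IsGalois K Ω]

/-- The local situation: `K` is a field between `L` and `Ω` with a discrete valuation `w` such that
units are squares, `π` is a uniformizer with square root `S`, the roots of `g(x) = t` are in `K`,
their differences are units and `D` has odd valuation. -/
structure IsLoc (w : Valuation K (WithZero (Multiplicative ℤ))) (g D : F[X]) (π : K) (S : Ω) :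
    Prop where
  two : (2 : Ω) ≠ 0
  unif : w π = WithZero.exp (-1 : ℤ)
  sqrt : ∀ x : K, w x = 1 → ∃ r, r ^ 2 = x
  root : ∀ θ ∈ RootSet (Ω := Ω) g, ∃ x : K, algebraMap K Ω x = θ
  diff : ∀ x y : K, algebraMap K Ω x ∈ RootSet (Ω := Ω) g → algebraMap K Ω y ∈ RootSet (Ω := Ω) g →
    x ≠ y → w (x - y) = 1
  odd : Odd (lg w (algebraMap F[X] K D))
  ne : D ≠ 0
  S_sq : S ^ 2 = algebraMap K Ω π

variable {w : Valuation K (WithZero (Multiplicative ℤ))} {π : K} {S : Ω}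

lemma IsLoc.pi_ne (hL : IsLoc w g D π S) : π ≠ 0 := by
  rintro rfl
  have := hL.unif
  rw [map_zero] at this
  exact WithZero.exp_ne_zero this.symm

lemma IsLoc.S_ne (hL : IsLoc w g D π S) : S ≠ 0 := by
  intro h0
  have := hL.S_sq
  rw [h0, zero_pow two_ne_zero, eq_comm, map_eq_zero] at this
  exact hL.pi_ne this

lemma IsLoc.fix_root (hL : IsLoc w g D π S) {θ : Ω} (hθ : θ ∈ RootSet (Ω := Ω) g)
    (σ : Ω ≃ₐ[K] Ω) : σ θ = θ := by
  obtain ⟨x, rfl⟩ := hL.root θ hθ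
  exact σ.commutes x

/-- The Galois group acts trivially on points of order two. -/
lemma IsLoc.map_two (hL : IsLoc w g D π S) (hW : IsTwist Ω W g D) (hg : g.Monic)
    (hdeg : g.natDegree = 3) (hd : derivative g ≠ 0) {P : (W.baseChange Ω).Point} (hP : 2 • P = 0)
    (σ : Ω ≃ₐ[K] Ω) :
    Point.map (W' := W) ((σ.restrictScalars L : Ω ≃ₐ[L] Ω) : Ω →ₐ[L] Ω) P = P := by
  apply eq_of_signs L hL.two hW hg hdeg hd hL.ne (by rw [← map_nsmul, hP, map_zero]) hP
  intro θ hθ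
  have h1 := rho_map_two_torsion hL.two hW (σ.restrictScalars L : Ω ≃ₐ[L] Ω) θ hP
  have h3 : (σ.restrictScalars L : Ω ≃ₐ[L] Ω) θ = θ := hL.fix_root hθ σ
  rwa [h3] at h1

variable (L) in
include L in
/-- The classification of nonzero points of order two. -/
lemma exists_root_of_two (h2 : (2 : Ω) ≠ 0) (hW : IsTwist Ω W g D) (hg : g.Monic)
    (hdeg : g.natDegree = 3) (hd : derivative g ≠ 0) (hD : D ≠ 0) {P : (W.baseChange Ω).Point}
    (hP : 2 • P = 0) (h0 : P ≠ 0) :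
    ∃ θ ∈ RootSet (Ω := Ω) g, ∃ h, P = .some (algebraMap F[X] Ω D * θ) 0 h := by
  obtain ⟨θ₁, θ₂, θ₃, h12, h13, h23, hR, -, -⟩ :=
    exists_three_roots (F := F) L (Ω := Ω) hg hdeg hd
  have hd0 : algebraMap F[X] Ω D ≠ 0 := algebraMap_ne_zero_Om L hD
  rcases (two_torsion_iff hW.short h2 P).mp hP with h | ⟨e, h, he, rfl⟩
  · exact absurd h h0
  · have m1 : θ₁ ∈ RootSet (Ω := Ω) g := (hR _).mpr (Or.inl rfl)
    have m2 : θ₂ ∈ RootSet (Ω := Ω) g := (hR _).mpr (Or.inr (Or.inl rfl))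
    have m3 : θ₃ ∈ RootSet (Ω := Ω) g := (hR _).mpr (Or.inr (Or.inr rfl))
    rcases Rt.mem_of_three (hW.rt hg hdeg m1) (hW.rt hg hdeg m2) (hW.rt hg hdeg m3)
      (fun h => h12 (mul_left_cancel₀ hd0 h)) (fun h => h13 (mul_left_cancel₀ hd0 h))
      (fun h => h23 (mul_left_cancel₀ hd0 h)) he with rfl | rfl | rfl
    · exact ⟨θ₁, m1, h, rfl⟩
    · exact ⟨θ₂, m2, h, rfl⟩
    · exact ⟨θ₃, m3, h, rfl⟩

/-- The square of `ρ` at a half of a point of order two. -/
lemma IsLoc.rho_half (hL : IsLoc w g D π S) (hW : IsTwist Ω W g D) (hg : g.Monic)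
    (hdeg : g.natDegree = 3) {Q : (W.baseChange Ω).Point}
    {θ : Ω} {h : (W.baseChange Ω).Nonsingular (algebraMap F[X] Ω D * θ) 0}
    (hQ : 2 • Q = .some (algebraMap F[X] Ω D * θ) 0 h) {θ' : Ω}
    (hθ' : θ' ∈ RootSet (Ω := Ω) g) :
    rho (algebraMap F[X] Ω D * θ') Q ^ 2 = algebraMap F[X] Ω D * (θ - θ') := by
  rw [rho_sq_double hW.short hL.two (hW.rt hg hdeg hθ') hQ]
  ring

variable (L) in
include L in
/-- The Galois action on `ρ` at a half of a point of order two. -/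
lemma IsLoc.act_half (hL : IsLoc w g D π S) (hW : IsTwist Ω W g D) (hg : g.Monic)
    (hdeg : g.natDegree = 3) {Q : (W.baseChange Ω).Point}
    {θ : Ω} (hθ : θ ∈ RootSet (Ω := Ω) g)
    {h : (W.baseChange Ω).Nonsingular (algebraMap F[X] Ω D * θ) 0}
    (hQ : 2 • Q = .some (algebraMap F[X] Ω D * θ) 0 h) {θ' : Ω}
    (hθ' : θ' ∈ RootSet (Ω := Ω) g) (hne : θ ≠ θ') (σ : Ω ≃ₐ[K] Ω) :
    rho (algebraMap F[X] Ω D * θ') Q ≠ 0 ∧
    σ (rho (algebraMap F[X] Ω D * θ') Q) * S = rho (algebraMap F[X] Ω D * θ') Q * σ S := by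
  have hd0 : algebraMap F[X] Ω D ≠ 0 := algebraMap_ne_zero_Om L hL.ne
  have h1 := hL.rho_half hW hg hdeg hQ hθ'
  obtain ⟨x, rfl⟩ := hL.root θ hθ
  obtain ⟨y, rfl⟩ := hL.root θ' hθ'
  have hxy : x ≠ y := fun h => hne (by rw [h])
  have hwxy := hL.diff x y hθ hθ' hxy
  have hdK : algebraMap F[X] K D ≠ 0 := by
    intro h0
    apply hd0
    rw [IsScalarTower.algebraMap_apply F[X] K Ω, h0, map_zero]
  have h3 : rho (algebraMap F[X] Ω D * algebraMap K Ω y) Q ^ 2 =
      algebraMap K Ω (algebraMap F[X] K D * (x - y)) := by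
    rw [h1, map_mul, ← IsScalarTower.algebraMap_apply, map_sub]
  have h4 : algebraMap F[X] K D * (x - y) ≠ 0 := mul_ne_zero hdK (sub_ne_zero.mpr hxy)
  refine ⟨?_, ?_⟩
  · intro h0
    rw [h0, zero_pow two_ne_zero, eq_comm, map_eq_zero] at h3
    exact h4 h3
  · apply sqrt_odd hL.unif hL.sqrt hL.S_sq h4 _ h3 σ
    rw [lg_mul w hdK (sub_ne_zero.mpr hxy), lg_eq_zero_of w hwxy, add_zero]
    exact hL.odd

/-- The Galois group acts on points of order four by the character of the square root of a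
uniformizer. -/
lemma IsLoc.map_four (hL : IsLoc w g D π S) (hW : IsTwist Ω W g D) (hg : g.Monic)
    (hdeg : g.natDegree = 3) (hd : derivative g ≠ 0) {Q : (W.baseChange Ω).Point}
    (hQ : 4 • Q = 0) (σ : Ω ≃ₐ[K] Ω) :
    (σ S = S → Point.map (W' := W) ((σ.restrictScalars L : Ω ≃ₐ[L] Ω) : Ω →ₐ[L] Ω) Q = Q) ∧
    (σ S = -S → Point.map (W' := W) ((σ.restrictScalars L : Ω ≃ₐ[L] Ω) : Ω →ₐ[L] Ω) Q = -Q) := by
  have hT2 : 2 • (2 • Q) = 0 := by rw [← mul_smul]; exact hQ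
  by_cases hT0 : 2 • Q = 0
  · have h1 := hL.map_two (L := L) hW hg hdeg hd hT0 σ
    have h3 : -Q = Q := by
      have : Q + Q = 0 := by rw [← two_nsmul]; exact hT0
      exact neg_eq_of_add_eq_zero_left this
    exact ⟨fun _ => h1, fun _ => by rw [h3]; exact h1⟩
  obtain ⟨θ, hθ, h, hTθ⟩ := exists_root_of_two L hL.two hW hg hdeg hd hL.ne hT2 hT0
  obtain ⟨θ₂, θ₃, n2, n3, n23, hR, -, -⟩ :=
    exists_other_roots (F := F) L (Ω := Ω) hg hdeg hd hθ
  have m2 : θ₂ ∈ RootSet (Ω := Ω) g := (hR _).mpr (Or.inr (Or.inl rfl))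
  have m3 : θ₃ ∈ RootSet (Ω := Ω) g := (hR _).mpr (Or.inr (Or.inr rfl))
  have hd0 : algebraMap F[X] Ω D ≠ 0 := algebraMap_ne_zero_Om L hL.ne
  set σQ := Point.map (W' := W) ((σ.restrictScalars L : Ω ≃ₐ[L] Ω) : Ω →ₐ[L] Ω) Q with hσQ
  set V := σQ - Q with hV
  have hV2 : 2 • V = 0 := by
    rw [hV, smul_sub, hσQ, ← map_nsmul, hL.map_two hW hg hdeg hd hT2 σ, sub_self]
  have hσV : σQ = Q + V := by rw [hV]; abel
  have hrho : ∀ θ' ∈ RootSet (Ω := Ω) g, rho (algebraMap F[X] Ω D * θ') Q *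
      rho (algebraMap F[X] Ω D * θ') V = σ (rho (algebraMap F[X] Ω D * θ') Q) := by
    intro θ' hθ'
    rw [← rho_add hW.short hL.two (hW.rt hg hdeg hθ') _ _ hV2, ← hσV, hσQ]
    have h5 : algebraMap F[X] Ω D * θ' =
        ((σ.restrictScalars L : Ω ≃ₐ[L] Ω) : Ω →ₐ[L] Ω) (algebraMap F[X] Ω D * θ') := by
      change _ = σ (algebraMap F[X] Ω D * θ')
      rw [map_mul, hL.fix_root hθ' σ, IsScalarTower.algebraMap_apply F[X] K Ω, σ.commutes]
    conv_lhs => rw [h5]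
    rw [rho_map]
    rfl
  have hkey : ∀ θ' ∈ RootSet (Ω := Ω) g, θ ≠ θ' →
      rho (algebraMap F[X] Ω D * θ') V * S = σ S := by
    intro θ' hθ' hne
    obtain ⟨h5, h6⟩ := hL.act_half L hW hg hdeg hθ hTθ hθ' hne σ
    rw [← hrho θ' hθ'] at h6
    apply mul_left_cancel₀ h5
    linear_combination h6
  have hneD : algebraMap F[X] Ω D * θ₂ ≠ algebraMap F[X] Ω D * θ₃ :=
    fun h => n23 (mul_left_cancel₀ hd0 h)
  constructor
  · intro hS
    have h5 : V = 0 := by
      apply eq_zero_of_rho_eq_one hW.short hL.two hneD hV2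
      · apply mul_right_cancel₀ hL.S_ne
        rw [hkey θ₂ m2 n2, hS, one_mul]
      · apply mul_right_cancel₀ hL.S_ne
        rw [hkey θ₃ m3 n3, hS, one_mul]
    rw [hσV, h5, add_zero]
  · intro hS
    have h6 : ∀ θ' ∈ RootSet (Ω := Ω) g, θ ≠ θ' →
        rho (algebraMap F[X] Ω D * θ') (V + 2 • Q) = 1 := by
      intro θ' hθ' hne
      rw [rho_add hW.short hL.two (hW.rt hg hdeg hθ') _ _ hT2, hTθ, rho_two_torsion, if_neg]
      · apply mul_right_cancel₀ hL.S_ne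
        linear_combination -(hkey θ' hθ' hne) - hS
      · intro h7
        exact hne (mul_left_cancel₀ hd0 h7)
    have h5 : V + 2 • Q = 0 := by
      apply eq_zero_of_rho_eq_one hW.short hL.two hneD
      · rw [smul_add, hV2, hT2, add_zero]
      · exact h6 θ₂ m2 n2
      · exact h6 θ₃ m3 n3
    have h7 : V = -(2 • Q) := eq_neg_of_add_eq_zero_left h5
    rw [hσV, h7, two_nsmul]
    abel

variable (L) in
include L in
/-- A homomorphism to the points of order two which is trivial at an element moving the square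
root of a uniformizer is trivial. -/
lemma IsLoc.hom_trivial (hL : IsLoc w g D π S) (hW : IsTwist Ω W g D) (hg : g.Monic)
    (hdeg : g.natDegree = 3) (hd : derivative g ≠ 0) {σ₀ : Ω ≃ₐ[K] Ω} (hσ₀ : σ₀ S = -S)
    (f : (Ω ≃ₐ[K] Ω) → (W.baseChange Ω).Point) (hf2 : ∀ σ, 2 • f σ = 0)
    (hmul : ∀ σ τ, f (σ * τ) = f σ + f τ) (hloc : IsLocallyConstant f) (h0 : f σ₀ = 0)
    (σ : Ω ≃ₐ[K] Ω) : f σ = 0 := by
  apply eq_of_signs L hL.two hW hg hdeg hd hL.ne (hf2 σ) (smul_zero 2)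
  intro θ hθ
  rw [rho_zero]
  exact char_trivial w hL.two hL.unif hL.sqrt hL.S_sq hσ₀
    (fun σ => rho (algebraMap F[X] Ω D * θ) (f σ))
    (fun σ => rho_two_torsion_sq hW.short hL.two _ (hf2 σ))
    (fun σ τ => by
      rw [hmul, rho_add hW.short hL.two (hW.rt hg hdeg hθ) _ _ (hf2 τ)])
    (hloc.comp (fun P => rho (algebraMap F[X] Ω D * θ) P)) (by rw [h0, rho_zero]) σ

/-- The structure of a cocycle of the local Galois group with values in the points of order four. -/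
lemma IsLoc.cocycle_eq (hL : IsLoc w g D π S) (hW : IsTwist Ω W g D) (hg : g.Monic)
    (hdeg : g.natDegree = 3) (hd : derivative g ≠ 0) {σ₀ : Ω ≃ₐ[K] Ω} (hσ₀ : σ₀ S = -S)
    (c : (Ω ≃ₐ[K] Ω) → (W.baseChange Ω).Point) (hc4 : ∀ σ, 4 • c σ = 0)
    (hmul : ∀ σ τ, c (σ * τ) = c σ +
      Point.map (W' := W) ((σ.restrictScalars L : Ω ≃ₐ[L] Ω) : Ω →ₐ[L] Ω) (c τ))
    (hloc : IsLocallyConstant c)
    (h2 : ∀ σ, 2 • (c σ - if σ S = S then 0 else c σ₀) = 0) (σ : Ω ≃ₐ[K] Ω) :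
    c σ = if σ S = S then 0 else c σ₀ := by
  have hne : -S ≠ S := by
    intro h0
    have : 2 * S = 0 := by linear_combination -h0
    rcases mul_eq_zero.mp this with h | h
    · exact hL.two h
    · exact hL.S_ne h
  have key := hL.hom_trivial L hW hg hdeg hd hσ₀
    (fun σ => c σ - if σ S = S then 0 else c σ₀) h2 (by
      intro σ τ
      have hm := hL.map_four (L := L) hW hg hdeg hd (hc4 τ) σ
      have e1 : ((σ * τ : Ω ≃ₐ[K] Ω)) S = σ (τ S) := rfl
      have h2τ := h2 τ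
      rcases smul_sign hL.S_sq σ with hs | hs <;> rcases smul_sign hL.S_sq τ with ht | ht
      · rw [hmul, hm.1 hs, e1, ht, hs, if_pos rfl]
        abel
      · rw [hmul, hm.1 hs, e1, ht, map_neg, hs, if_pos rfl, if_neg hne]
        abel
      · rw [ht, if_pos rfl, sub_zero, two_nsmul] at h2τ
        have e2 : -c τ = c τ := neg_eq_of_add_eq_zero_left h2τ
        rw [hmul, hm.2 hs, e1, ht, hs, if_neg hne, if_pos rfl, e2]
        abel
      · rw [ht, if_neg hne, two_nsmul] at h2τ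
        have e2 : -c τ = (c τ - c σ₀ - c σ₀) - (c τ - c σ₀ + (c τ - c σ₀)) := by abel
        rw [h2τ, sub_zero] at e2
        rw [hmul, hm.2 hs, e1, ht, map_neg, hs, neg_neg, if_pos rfl, if_neg hne, e2]
        abel)
    (by
      apply hloc.sub
      exact (isLocallyConstant_apply8 (F := K) S).comp (fun x => if x = S then 0 else c σ₀))
    (by rw [hσ₀, if_neg hne, sub_self]) σ
  exact sub_eq_zero.mp key

/-- The structure of a Tate module cocycle at level two. -/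
lemma IsLoc.level_two (hL : IsLoc w g D π S) (hW : IsTwist Ω W g D) (hg : g.Monic)
    (hdeg : g.natDegree = 3) (hd : derivative g ≠ 0) {σ₀ : Ω ≃ₐ[K] Ω} (hσ₀ : σ₀ S = -S)
    {y : ℕ → (Ω ≃ₐ[L] Ω) → (W.baseChange Ω).Point} (hy : TC W y) (σ : Ω ≃ₐ[K] Ω) :
    y 2 (σ.restrictScalars L) = if σ S = S then 0 else y 2 (σ₀.restrictScalars L) := by
  have hloc : ∀ n, IsLocallyConstant (fun σ : Ω ≃ₐ[K] Ω => y n (σ.restrictScalars L)) := fun n =>
    isLocallyConstant_comp8 (K := K) (RingHom.id Ω) (fun σ => σ.restrictScalars L)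
      (fun _ _ => rfl) (hy.loc n)
  have hmul : ∀ n (σ τ : Ω ≃ₐ[K] Ω), y n ((σ * τ).restrictScalars L) =
      y n (σ.restrictScalars L) + Point.map (W' := W)
        ((σ.restrictScalars L : Ω ≃ₐ[L] Ω) : Ω →ₐ[L] Ω) (y n (τ.restrictScalars L)) :=
    fun n σ τ => hy.mul n (σ.restrictScalars L) (τ.restrictScalars L)
  have h1 := hL.cocycle_eq (L := L) hW hg hdeg hd hσ₀ (fun σ => y 1 (σ.restrictScalars L))
    (fun σ => by
      have h3 := hy.two_pow 1 (σ.restrictScalars L)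
      rw [show (4 : ℕ) = 2 * 2 ^ 1 by norm_num, mul_smul, h3, smul_zero]) (hmul 1) (hloc 1) (by
    intro σ
    have h3 := fun σ : Ω ≃ₐ[L] Ω => hy.two_pow 1 σ
    simp only [pow_one] at h3
    rw [smul_sub, h3]
    split_ifs
    · simp
    · rw [h3, sub_zero])
  apply hL.cocycle_eq (L := L) hW hg hdeg hd hσ₀ (fun σ => y 2 (σ.restrictScalars L))
    (fun σ => hy.two_pow 2 (σ.restrictScalars L)) (hmul 2) (hloc 2)
  intro σ
  have h3 := h1 σ
  rw [smul_sub, hy.two 1, h3]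
  split_ifs
  · simp
  · rw [hy.two 1, sub_self]

end Local

end Pool.Agent.Lib.MP_89bcae_ag
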