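import Mathlib
import Pool.Agent.Lib.MP_89bcae_ag.Lev8
import Pool.Agent.Lib.MP_89bcae_ag.DefsGeom8

/-!
# The effect of an automorphism on the second level of a Selmer class: local computation
-/

open Polynomial WeierstrassCurve WeierstrassCurve.Affine

open scoped Classical

namespace Pool.Agent.Lib.MP_89bcae_ag

set_option linter.unusedSectionVars false

/-- The automorphism `U` moves the square roots of `c`. -/
def Moves {F : Type*} [Field F] (U : F → F) (c : F) : Prop := ∀ s : F, s ^ 2 = c → U s ≠ s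

section Cong

variable {F K : Type*} [Field F] [Field K] [Algebra F[X] K]
  (w : Valuation K (WithZero (Multiplicative ℤ))) (α : F)

/-- The valuation `w` lies over the place `t = α`. -/
structure IsOver : Prop where
  unif : w (algebraMap F[X] K (X - C α)) = WithZero.exp (-1 : ℤ)
  unit : ∀ p : F[X], p.eval α ≠ 0 → w (algebraMap F[X] K p) = 1

/-- `x` is congruent to the constant `c`. -/
def Cg (x : K) (c : F) : Prop := w (x - algebraMap F[X] K (C c)) < 1

variable {w α}

lemma IsOver.unif_lt (h : IsOver w α) : w (algebraMap F[X] K (X - C α)) < 1 := by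
  rw [h.unif, ← WithZero.exp_zero, WithZero.exp_lt_exp]; norm_num

lemma IsOver.const_le (h : IsOver w α) (c : F) : w (algebraMap F[X] K (C c)) ≤ 1 := by
  by_cases hc : c = 0
  · rw [hc, map_zero, map_zero, map_zero]; exact zero_le_one
  · rw [h.unit _ (by rw [eval_C]; exact hc)]

lemma IsOver.const_one (h : IsOver w α) {c : F} (hc : c ≠ 0) : w (algebraMap F[X] K (C c)) = 1 :=
  h.unit _ (by rw [eval_C]; exact hc)

lemma IsOver.cg_const (c : F) : Cg w (algebraMap F[X] K (C c)) c := by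
  unfold Cg
  rw [sub_self, map_zero]
  exact zero_lt_one

lemma Cg.le (h : IsOver w α) {x : K} {c : F} (hx : Cg w x c) : w x ≤ 1 := by
  have : x = (x - algebraMap F[X] K (C c)) + algebraMap F[X] K (C c) := by ring
  rw [this]
  apply le_trans (w.map_add _ _)
  exact max_le (le_of_lt hx) (h.const_le c)

lemma Cg.one (h : IsOver w α) {x : K} {c : F} (hx : Cg w x c) (hc : c ≠ 0) : w x = 1 := by
  have h1 : x = algebraMap F[X] K (C c) + (x - algebraMap F[X] K (C c)) := by ring
  rw [h1, w.map_add_eq_of_lt_left, h.const_one hc]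
  rw [h.const_one hc]
  exact hx

lemma Cg.add {x y : K} {c d : F} (hx : Cg w x c) (hy : Cg w y d) : Cg w (x + y) (c + d) := by
  unfold Cg at *
  have : x + y - algebraMap F[X] K (C (c + d)) = (x - algebraMap F[X] K (C c)) +
      (y - algebraMap F[X] K (C d)) := by rw [C_add, map_add]; ring
  rw [this]
  exact lt_of_le_of_lt (w.map_add _ _) (max_lt hx hy)

lemma Cg.neg {x : K} {c : F} (hx : Cg w x c) : Cg w (-x) (-c) := by
  unfold Cg at *
  have : -x - algebraMap F[X] K (C (-c)) = -(x - algebraMap F[X] K (C c)) := by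
    rw [C_neg, map_neg]; ring
  rw [this, w.map_neg]
  exact hx

lemma Cg.sub {x y : K} {c d : F} (hx : Cg w x c) (hy : Cg w y d) : Cg w (x - y) (c - d) := by
  rw [sub_eq_add_neg, sub_eq_add_neg]
  exact hx.add hy.neg

lemma Cg.mul (h : IsOver w α) {x y : K} {c d : F} (hx : Cg w x c) (hy : Cg w y d) :
    Cg w (x * y) (c * d) := by
  have hyl := hy.le h
  unfold Cg at *
  have : x * y - algebraMap F[X] K (C (c * d)) = (x - algebraMap F[X] K (C c)) * y +
      algebraMap F[X] K (C c) * (y - algebraMap F[X] K (C d)) := by rw [C_mul, map_mul]; ring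
  rw [this]
  apply lt_of_le_of_lt (w.map_add _ _)
  apply max_lt
  · rw [map_mul]
    exact lt_of_le_of_lt (mul_le_mul_right hyl _) (by rwa [mul_one])
  · rw [map_mul]
    exact lt_of_le_of_lt (mul_le_mul_left (h.const_le c) _) (by rwa [one_mul])

lemma Cg.prod (h : IsOver w α) {ι : Type*} (s : Finset ι) {x : ι → K} {c : ι → F}
    (hx : ∀ i ∈ s, Cg w (x i) (c i)) : Cg w (∏ i ∈ s, x i) (∏ i ∈ s, c i) := by
  induction s using Finset.induction_on with
  | empty =>
    rw [Finset.prod_empty, Finset.prod_empty]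
    have := IsOver.cg_const (K := K) (w := w) (1 : F)
    rwa [C_1, map_one] at this
  | insert a s ha ih =>
    rw [Finset.prod_insert ha, Finset.prod_insert ha]
    exact (hx a (Finset.mem_insert_self a s)).mul h
      (ih fun i hi => hx i (Finset.mem_insert_of_mem hi))

lemma Cg.unique (h : IsOver w α) {x : K} {c d : F} (hx : Cg w x c) (hy : Cg w x d) : c = d := by
  by_contra hne
  have h1 := hx.sub hy
  rw [sub_self] at h1
  have h2 := h1.one h (sub_ne_zero.mpr hne)
  rw [map_zero] at h2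
  exact zero_ne_one h2

lemma Cg.poly (h : IsOver w α) (p : F[X]) : Cg w (algebraMap F[X] K p) (p.eval α) := by
  unfold Cg
  rw [← map_sub]
  obtain ⟨q, hq⟩ : (X - C α) ∣ (p - C (p.eval α)) := by
    rw [dvd_iff_isRoot]; simp
  have hle : ∀ q : F[X], w (algebraMap F[X] K q) ≤ 1 := by
    intro q
    induction q using Polynomial.induction_on' with
    | add p q hp hq =>
      rw [map_add]
      exact le_trans (w.map_add _ _) (max_le hp hq)
    | monomial n a =>
      rw [← C_mul_X_pow_eq_monomial, map_mul, map_mul, map_pow, map_pow]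
      have hX : w (algebraMap F[X] K X) ≤ 1 := by
        have : (X : F[X]) = (X - C α) + C α := by ring
        rw [this, map_add]
        exact le_trans (w.map_add _ _) (max_le h.unif_lt.le (h.const_le α))
      exact mul_le_one' (h.const_le a) (pow_le_one' hX n)
  rw [hq, map_mul, map_mul]
  exact lt_of_le_of_lt (mul_le_mul_right (hle q) _) (by rw [mul_one]; exact h.unif_lt)

/-- Reading off from a unit of `K` whether an automorphism moves the square roots of its residue. -/
lemma moves_iff_aux [IsAlgClosed F] (h : IsOver w α) (h2 : (2 : F) ≠ 0) {τ : F →+* F}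
    {γK : K ≃+* K} (hγK : ∀ a : F, γK (algebraMap F[X] K (C a)) = algebraMap F[X] K (C (τ a)))
    (hwγ : ∀ x, w (γK x) = w x) {m : K} {c : F} (hc : c ≠ 0) (hm : Cg w (m ^ 2) c) :
    (γK m = m → ¬ Moves τ c) ∧ (γK m = -m → Moves τ c) := by
  obtain ⟨s₀, hs₀⟩ := IsAlgClosed.exists_pow_nat_eq c (n := 2) (by norm_num)
  have hs0 : s₀ ≠ 0 := by
    rintro rfl
    apply hc
    rw [← hs₀]; ring
  -- choose the sign of the square root
  obtain ⟨s, hs, hms⟩ : ∃ s : F, s ^ 2 = c ∧ Cg w m s := by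
    have h1 : w ((m - algebraMap F[X] K (C s₀)) * (m + algebraMap F[X] K (C s₀))) < 1 := by
      have : (m - algebraMap F[X] K (C s₀)) * (m + algebraMap F[X] K (C s₀)) =
          m ^ 2 - algebraMap F[X] K (C c) := by
        rw [← hs₀, C_pow, map_pow]; ring
      rw [this]
      exact hm
    by_cases h3 : Cg w m s₀
    · exact ⟨s₀, hs₀, h3⟩
    · refine ⟨-s₀, by rw [neg_sq, hs₀], ?_⟩
      unfold Cg at h3 ⊢
      rw [C_neg, map_neg, sub_neg_eq_add]
      rw [map_mul] at h1
      push Not at h3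
      by_contra h4
      push Not at h4
      exact absurd (le_trans (by rw [one_mul]) (mul_le_mul' h3 h4)) (not_le.mpr h1)
  have hs0' : s ≠ 0 := by
    rintro rfl
    apply hc
    rw [← hs]; ring
  have hγm : Cg w (γK m) (τ s) := by
    unfold Cg
    rw [← hγK, ← map_sub, hwγ]
    exact hms
  constructor
  · intro h3 h4
    rw [h3] at hγm
    exact h4 s hs (hγm.unique h hms)
  · intro h3 s' hs' h4
    rw [h3] at hγm
    have h5 : τ s = -s := hγm.unique h hms.neg
    have h6 : (s' - s) * (s' + s) = 0 := by linear_combination hs' - hs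
    have h7 : τ s' = -s' := by
      rcases mul_eq_zero.mp h6 with h | h
      · rw [sub_eq_zero.mp h, h5]
      · have : s' = -s := by linear_combination h
        rw [this, map_neg, h5]
    rw [h7] at h4
    have h8 : 2 * s' = 0 := by linear_combination -h4
    rcases mul_eq_zero.mp h8 with h | h
    · exact h2 h
    · rw [h] at hs'
      apply hc
      rw [← hs']; ring

end Cong

section MovesLemmas

variable {F : Type*} [Field F] [IsAlgClosed F] {τ : F →+* F}

lemma moves_iff_neg (h2 : (2 : F) ≠ 0) {c : F} (hc : c ≠ 0) (hτ : τ c = c) {s : F}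
    (hs : s ^ 2 = c) : (Moves τ c ↔ τ s = -s) ∧ (¬ Moves τ c ↔ τ s = s) := by
  have hs0 : s ≠ 0 := by
    rintro rfl
    apply hc
    rw [← hs]; ring
  have hne : -s ≠ s := by
    intro h0
    have : 2 * s = 0 := by linear_combination -h0
    rcases mul_eq_zero.mp this with h | h
    · exact h2 h
    · exact hs0 h
  have hor : τ s = s ∨ τ s = -s := by
    have h1 : (τ s) ^ 2 = s ^ 2 := by rw [← map_pow, hs, hτ]
    have h3 : (τ s - s) * (τ s + s) = 0 := by linear_combination h1
    rcases mul_eq_zero.mp h3 with h | h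
    · exact Or.inl (sub_eq_zero.mp h)
    · exact Or.inr (by linear_combination h)
  have hall : τ s = -s → Moves τ c := by
    intro h3 s' hs' h4
    have h6 : (s' - s) * (s' + s) = 0 := by linear_combination hs' - hs
    rcases mul_eq_zero.mp h6 with h | h
    · rw [sub_eq_zero.mp h, h3] at h4
      exact hne h4
    · have : s' = -s := by linear_combination h
      rw [this, map_neg, h3, neg_neg] at h4
      exact hne h4.symm
  have hno : Moves τ c → τ s = -s := fun h => hor.resolve_left (h s hs)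
  refine ⟨⟨hno, hall⟩, ⟨fun h => hor.resolve_right (fun h3 => h (hall h3)), fun h h3 => ?_⟩⟩
  exact h3 s hs h

/-- The parity relation. -/
lemma moves_parity (h2 : (2 : F) ≠ 0) {c₁ c₂ c₃ E : F} (h₁ : c₁ ≠ 0) (h₂ : c₂ ≠ 0) (h₃ : c₃ ≠ 0)
    (t₁ : τ c₁ = c₁) (t₂ : τ c₂ = c₂) (t₃ : τ c₃ = c₃) (hE : c₁ * c₂ * c₃ = E ^ 2)
    (hτE : τ E = E) : Moves τ c₁ ↔ ¬ (Moves τ c₂ ↔ Moves τ c₃) := by
  obtain ⟨s₁, hs₁⟩ := IsAlgClosed.exists_pow_nat_eq c₁ (n := 2) (by norm_num)
  obtain ⟨s₂, hs₂⟩ := IsAlgClosed.exists_pow_nat_eq c₂ (n := 2) (by norm_num)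
  obtain ⟨s₃, hs₃⟩ := IsAlgClosed.exists_pow_nat_eq c₃ (n := 2) (by norm_num)
  have a₁ := moves_iff_neg h2 h₁ t₁ hs₁
  have a₂ := moves_iff_neg h2 h₂ t₂ hs₂
  have a₃ := moves_iff_neg h2 h₃ t₃ hs₃
  have hfix : τ (s₁ * s₂ * s₃) = s₁ * s₂ * s₃ := by
    have h4 : (s₁ * s₂ * s₃ - E) * (s₁ * s₂ * s₃ + E) = 0 := by
      have : (s₁ * s₂ * s₃) ^ 2 = E ^ 2 := by
        rw [mul_pow, mul_pow, hs₁, hs₂, hs₃, hE]
      linear_combination this
    rcases mul_eq_zero.mp h4 with h | h
    · rw [sub_eq_zero.mp h, hτE]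
    · have : s₁ * s₂ * s₃ = -E := by linear_combination h
      rw [this, map_neg, hτE]
  have hne : s₁ * s₂ * s₃ ≠ 0 := by
    intro h0
    have : (s₁ * s₂ * s₃) ^ 2 = 0 := by rw [h0]; ring
    rw [mul_pow, mul_pow, hs₁, hs₂, hs₃] at this
    exact mul_ne_zero (mul_ne_zero h₁ h₂) h₃ this
  have hneg : -(s₁ * s₂ * s₃) ≠ s₁ * s₂ * s₃ := by
    intro h0
    have : 2 * (s₁ * s₂ * s₃) = 0 := by linear_combination -h0
    rcases mul_eq_zero.mp this with h | h
    · exact h2 h
    · exact hne h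
  rw [map_mul, map_mul] at hfix
  by_cases m₁ : Moves τ c₁ <;> by_cases m₂ : Moves τ c₂ <;> by_cases m₃ : Moves τ c₃
  · exfalso
    rw [a₁.1.mp m₁, a₂.1.mp m₂, a₃.1.mp m₃] at hfix
    exact hneg (by linear_combination hfix)
  · simp [m₁, m₂, m₃]
  · simp [m₁, m₂, m₃]
  · exfalso
    rw [a₁.1.mp m₁, a₂.2.mp m₂, a₃.2.mp m₃] at hfix
    exact hneg (by linear_combination hfix)
  · simp [m₁, m₂, m₃]
  · exfalso
    rw [a₁.2.mp m₁, a₂.1.mp m₂, a₃.2.mp m₃] at hfix
    exact hneg (by linear_combination hfix)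
  · exfalso
    rw [a₁.2.mp m₁, a₂.2.mp m₂, a₃.1.mp m₃] at hfix
    exact hneg (by linear_combination hfix)
  · simp [m₁, m₂, m₃]

end MovesLemmas

section Tower

variable {R F L Ω : Type*} [CommRing R] [Field F] [IsAlgClosed F] [Field L] [Field Ω]
  [Algebra F[X] L] [IsFractionRing F[X] L] [Algebra L Ω] [Algebra F[X] Ω] [IsScalarTower F[X] L Ω]
  [Algebra R L] [Algebra R Ω] [IsScalarTower R L Ω] {W : Affine R} {g D : F[X]}
  [IsGalois L Ω] [IsSepClosed Ω]
  {K : Type*} [Field K] [Algebra L K] [Algebra K Ω] [IsScalarTower L K Ω] [Algebra F[X] K]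
  [IsScalarTower F[X] L K] [IsScalarTower F[X] K Ω] [IsGalois K Ω]

/-- The local data at a root `α` of `D` with an automorphism `γ`. -/
structure KeyData (w : Valuation K (WithZero (Multiplicative ℤ))) (g D : F[X]) (α : F) (S : Ω)
    (γ : Ω ≃ₐ[R] Ω) (γK : K ≃+* K) (τ : F →+* F) : Prop where
  isOver : IsOver w α
  loc : IsLoc w g D (algebraMap F[X] K (X - C α)) S
  near : ∀ β, g.eval β = α → ∃ x : K, algebraMap K Ω x ∈ RootSet (Ω := Ω) g ∧
    w (x - algebraMap F[X] K (C β)) = WithZero.exp (-1 : ℤ)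
  γ_poly : ∀ p : F[X], γ (algebraMap F[X] Ω p) = algebraMap F[X] Ω (p.map τ)
  γ_K : ∀ x : K, γ (algebraMap K Ω x) = algebraMap K Ω (γK x)
  γ_val : ∀ x, w (γK x) = w x
  g_fix : g.map τ = g
  D_fix : D.map τ = D
  α_fix : τ α = α
  β_fix : ∀ β, g.eval β = α → τ β = β

variable {w : Valuation K (WithZero (Multiplicative ℤ))} {α : F} {S : Ω} {γ : Ω ≃ₐ[R] Ω}
  {γK : K ≃+* K} {τ : F →+* F}

lemma KeyData.γK_poly (h : KeyData w g D α S γ γK τ) (p : F[X]) :
    γK (algebraMap F[X] K p) = algebraMap F[X] K (p.map τ) := by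
  apply (algebraMap K Ω).injective
  rw [← h.γ_K, ← IsScalarTower.algebraMap_apply, ← IsScalarTower.algebraMap_apply, h.γ_poly]

lemma cg_of_near {x : K} {β : F}
    (hx : w (x - algebraMap F[X] K (C β)) = WithZero.exp (-1 : ℤ)) : Cg w x β := by
  unfold Cg
  rw [hx, ← WithZero.exp_zero, WithZero.exp_lt_exp]; norm_num

/-- The root near a fixed constant is fixed. -/
lemma KeyData.fix_near (h : KeyData w g D α S γ γK τ) {β : F} (hβ : g.eval β = α) {x : K}
    (hx : algebraMap K Ω x ∈ RootSet (Ω := Ω) g) (hc : Cg w x β) :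
    γK x = x := by
  by_contra hne
  have h1 : algebraMap K Ω (γK x) ∈ RootSet (Ω := Ω) g := by
    rw [← h.γ_K]
    exact gamma_mem_rootSet h.γ_poly h.g_fix hx
  have h2 := h.loc.diff _ _ h1 hx hne
  have h3 : Cg w (γK x) β := by
    unfold Cg at hc ⊢
    have h4 := h.γK_poly (C β)
    rw [map_C, h.β_fix β hβ] at h4
    rw [← h4, ← map_sub, h.γ_val]
    exact hc
  have h4 := h3.sub hc
  unfold Cg at h4
  rw [sub_self, C_0, map_zero, sub_zero, h2] at h4
  exact lt_irrefl _ h4

/-- Labels for the fibre and the roots. -/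
lemma KeyData.labels (h : KeyData w g D α S γ γK τ) (hg : g.Monic) (hdeg : g.natDegree = 3)
    (hd : derivative g ≠ 0) (L' : Type*) [Field L'] [Algebra F[X] L'] [IsFractionRing F[X] L']
    [Algebra L' Ω] [IsScalarTower F[X] L' Ω] {β₁ β₂ β₃ : F}
    (h12 : β₁ ≠ β₂) (h13 : β₁ ≠ β₃) (h23 : β₂ ≠ β₃)
    (hfac : g - C α = (X - C β₁) * (X - C β₂) * (X - C β₃)) :
    ∃ x₁ x₂ x₃ : K, (algebraMap K Ω x₁ ∈ RootSet (Ω := Ω) g ∧
      algebraMap K Ω x₂ ∈ RootSet (Ω := Ω) g ∧ algebraMap K Ω x₃ ∈ RootSet (Ω := Ω) g) ∧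
      (w (x₁ - algebraMap F[X] K (C β₁)) = WithZero.exp (-1 : ℤ) ∧
      w (x₂ - algebraMap F[X] K (C β₂)) = WithZero.exp (-1 : ℤ) ∧
      w (x₃ - algebraMap F[X] K (C β₃)) = WithZero.exp (-1 : ℤ)) ∧
      ∀ θ ∈ RootSet (Ω := Ω) g, θ = algebraMap K Ω x₁ ∨ θ = algebraMap K Ω x₂ ∨
        θ = algebraMap K Ω x₃ := by
  have hev : ∀ β, g.eval β - α = (β - β₁) * (β - β₂) * (β - β₃) := by
    intro β
    have := congrArg (fun p => p.eval β) hfac
    simpa using this
  have e1 : g.eval β₁ = α := by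
    have := hev β₁
    rw [sub_self, zero_mul, zero_mul] at this
    exact sub_eq_zero.mp this
  have e2 : g.eval β₂ = α := by
    have := hev β₂
    rw [sub_self, mul_zero, zero_mul] at this
    exact sub_eq_zero.mp this
  have e3 : g.eval β₃ = α := by
    have := hev β₃
    rw [sub_self, mul_zero] at this
    exact sub_eq_zero.mp this
  obtain ⟨x₁, m1, n1⟩ := h.near β₁ e1
  obtain ⟨x₂, m2, n2⟩ := h.near β₂ e2
  obtain ⟨x₃, m3, n3⟩ := h.near β₃ e3
  refine ⟨x₁, x₂, x₃, ⟨m1, m2, m3⟩, ⟨n1, n2, n3⟩, ?_⟩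
  have d12 : algebraMap K Ω x₁ ≠ algebraMap K Ω x₂ := by
    intro h0
    have := (algebraMap K Ω).injective h0
    subst this
    exact h12 ((cg_of_near n1).unique h.isOver (cg_of_near n2))
  have d13 : algebraMap K Ω x₁ ≠ algebraMap K Ω x₃ := by
    intro h0
    have := (algebraMap K Ω).injective h0
    subst this
    exact h13 ((cg_of_near n1).unique h.isOver (cg_of_near n3))
  have d23 : algebraMap K Ω x₂ ≠ algebraMap K Ω x₃ := by
    intro h0
    have := (algebraMap K Ω).injective h0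
    subst this
    exact h23 ((cg_of_near n2).unique h.isOver (cg_of_near n3))
  obtain ⟨θ₁, θ₂, θ₃, t12, t13, t23, hR, -, -⟩ :=
    exists_three_roots (F := F) L' (Ω := Ω) hg hdeg hd
  have hsub : ({algebraMap K Ω x₁, algebraMap K Ω x₂, algebraMap K Ω x₃} : Finset Ω) ⊆
      {θ₁, θ₂, θ₃} := by
    intro θ hθ
    simp only [Finset.mem_insert, Finset.mem_singleton] at hθ ⊢
    rcases hθ with rfl | rfl | rfl
    · exact (hR _).mp m1
    · exact (hR _).mp m2
    · exact (hR _).mp m3
  have heq := Finset.eq_of_subset_of_card_le hsub (by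
    rw [Finset.card_insert_of_notMem (by simp [t12, t13]),
      Finset.card_insert_of_notMem (by simp [t23]), Finset.card_singleton,
      Finset.card_insert_of_notMem (by simp [d12, d13]),
      Finset.card_insert_of_notMem (by simp [d23]), Finset.card_singleton])
  intro θ hθ
  have h5 : θ ∈ ({θ₁, θ₂, θ₃} : Finset Ω) := by simpa using (hR θ).mp hθ
  rw [← heq] at h5
  simpa using h5

/-- The conjugate of an element of the local Galois group. -/
lemma KeyData.exists_conj (h : KeyData w g D α S γ γK τ) (σ : Ω ≃ₐ[K] Ω) :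
    ∃ σ' : Ω ≃ₐ[K] Ω, (∀ x, γ (σ' x) = σ (γ x)) ∧ (σ S = -S → σ' S = -S) := by
  refine ⟨AlgEquiv.ofRingEquiv (f := (γ.toRingEquiv.trans σ.toRingEquiv).trans
    γ.symm.toRingEquiv) ?_, ?_, ?_⟩
  · intro y
    change γ.symm (σ (γ (algebraMap K Ω y))) = algebraMap K Ω y
    rw [h.γ_K, σ.commutes, ← h.γ_K, AlgEquiv.symm_apply_apply]
  · intro x
    change γ (γ.symm (σ (γ x))) = σ (γ x)
    rw [AlgEquiv.apply_symm_apply]
  · intro hσ
    have h1 : (γ S) ^ 2 = S ^ 2 := by
      rw [← map_pow, h.loc.S_sq, ← IsScalarTower.algebraMap_apply, h.γ_poly, Polynomial.map_sub,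
        Polynomial.map_X, Polynomial.map_C, h.α_fix]
    have h3 : (γ S - S) * (γ S + S) = 0 := by linear_combination h1
    change γ.symm (σ (γ S)) = -S
    apply γ.injective
    rw [AlgEquiv.apply_symm_apply, map_neg]
    rcases mul_eq_zero.mp h3 with h4 | h4
    · rw [sub_eq_zero.mp h4, hσ]
    · have h5 : γ S = -S := by linear_combination h4
      rw [h5, map_neg, hσ]

variable (L) in
include L in
/-- An automorphism fixing the roots acts trivially on points of order two. -/
lemma gamma_two (h2 : (2 : Ω) ≠ 0) (hW : IsTwist Ω W g D) (hg : g.Monic)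
    (hdeg : g.natDegree = 3) (hd : derivative g ≠ 0) (hD : D ≠ 0)
    (hγD : γ (algebraMap F[X] Ω D) = algebraMap F[X] Ω D)
    (hγθ : ∀ θ ∈ RootSet (Ω := Ω) g, γ θ = θ) {T : (W.baseChange Ω).Point} (hT : 2 • T = 0) :
    Point.map (W' := W) (γ : Ω →ₐ[R] Ω) T = T := by
  apply eq_of_signs L h2 hW hg hdeg hd hD (by rw [← map_nsmul, hT, map_zero]) hT
  intro θ hθ
  have h1 : algebraMap F[X] Ω D * θ = (γ : Ω →ₐ[R] Ω) (algebraMap F[X] Ω D * θ) := by
    change _ = γ (algebraMap F[X] Ω D * θ)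
    rw [map_mul, hγD, hγθ θ hθ]
  conv_lhs => rw [h1]
  rw [rho_map]
  rcases rho_two_torsion_sq hW.short h2 (algebraMap F[X] Ω D * θ) hT with h3 | h3
  · rw [h3, map_one]
  · rw [h3, map_neg, map_one]

/-- The value of the second class at an element moving `S`. -/
lemma KeyData.value (h : KeyData w g D α S γ γK τ) (hW : IsTwist Ω W g D) (hg : g.Monic)
    (hdeg : g.natDegree = 3) (hd : derivative g ≠ 0)
    {y z : ℕ → (Ω ≃ₐ[L] Ω) → (W.baseChange Ω).Point} (hy : TC W y)
    {P : (W.baseChange Ω).Point} (hP : 4 • P = 0)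
    (hrel : ∀ σ' σ : Ω ≃ₐ[L] Ω, (∀ x, γ (σ' x) = σ (γ x)) →
      Point.map (W' := W) (γ : Ω →ₐ[R] Ω) (y 2 σ') =
        y 2 σ + z 1 σ + (Point.map (W' := W) (σ : Ω →ₐ[L] Ω) P - P))
    {σ₀ : Ω ≃ₐ[K] Ω} (hσ₀ : σ₀ S = -S) :
    z 1 (σ₀.restrictScalars L) =
      (Point.map (W' := W) (γ : Ω →ₐ[R] Ω) (y 2 (σ₀.restrictScalars L)) -
        y 2 (σ₀.restrictScalars L)) + 2 • P := by
  have hne : -S ≠ S := by
    intro h0
    have : 2 * S = 0 := by linear_combination -h0
    rcases mul_eq_zero.mp this with h1 | h1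
    · exact h.loc.two h1
    · exact h.loc.S_ne h1
  obtain ⟨σ₁, h1, h3⟩ := h.exists_conj σ₀
  have h4 := hrel (σ₁.restrictScalars L) (σ₀.restrictScalars L) h1
  have h5 := h.loc.level_two (L := L) hW hg hdeg hd hσ₀ hy σ₁
  rw [h3 hσ₀, if_neg hne] at h5
  rw [h5, (h.loc.map_four (L := L) hW hg hdeg hd hP σ₀).2 hσ₀] at h4
  rw [h4, two_nsmul]
  abel

/-- The sign of a cocycle of order two at an element moving `S`. -/
lemma KeyData.sign_near (h : KeyData w g D α S γ γK τ)
    {c : (Ω ≃ₐ[L] Ω) → (W.baseChange Ω).Point} {Z : Finset F} {b : Ω → Ω}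
    (hb : IsDesc W g D c Z b)
    {σ₀ : Ω ≃ₐ[K] Ω} (hσ₀ : σ₀ S = -S) {x : K} {β : F}
    (hx : algebraMap K Ω x ∈ RootSet (Ω := Ω) g)
    (hn : w (x - algebraMap F[X] K (C β)) = WithZero.exp (-1 : ℤ)) :
    rho (algebraMap F[X] Ω D * algebraMap K Ω x) (c (σ₀.restrictScalars L)) =
      if β ∈ Z then -1 else 1 := by
  have hoth : ∀ β' : F, β' ≠ β → w (x - algebraMap F[X] K (C β')) = 1 := by
    intro β' hne
    exact ((cg_of_near hn).sub (IsOver.cg_const (w := w) β')).one h.isOver
      (sub_ne_zero.mpr (Ne.symm hne))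
  obtain ⟨hne, hlg⟩ := lg_root_prod w hn hoth Z
  have hprod0 : (∏ β' ∈ Z, (x - algebraMap F[X] K (C β'))) ≠ 0 :=
    Finset.prod_ne_zero_iff.mpr fun β' _ => hne β'
  have hsq : b (algebraMap K Ω x) ^ 2 =
      algebraMap K Ω (∏ β' ∈ Z, (x - algebraMap F[X] K (C β'))) := by
    rw [hb.sq _ hx, map_prod]
    apply Finset.prod_congr rfl
    intro β' _
    rw [map_sub, ← IsScalarTower.algebraMap_apply]
  have hact := hb.act _ hx (σ₀.restrictScalars L)
  have hfix : (σ₀.restrictScalars L) (algebraMap K Ω x) = algebraMap K Ω x := σ₀.commutes x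
  rw [hfix] at hact
  have hb0 := hb.ne_zero hx
  by_cases hβ : β ∈ Z
  · rw [if_pos hβ] at hlg ⊢
    have h1 := sqrt_odd h.loc.unif h.loc.sqrt h.loc.S_sq hprod0 (by rw [hlg]; decide) hsq σ₀
    have h3 : σ₀ (b (algebraMap K Ω x)) = -b (algebraMap K Ω x) := by
      apply mul_right_cancel₀ h.loc.S_ne
      rw [h1, hσ₀]; ring
    have h4 : (σ₀.restrictScalars L) (b (algebraMap K Ω x)) = -b (algebraMap K Ω x) := h3
    rw [h4] at hact
    apply mul_right_cancel₀ hb0
    rw [← hact]; ring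
  · rw [if_neg hβ] at hlg ⊢
    obtain ⟨r, hr⟩ := exists_rational_sqrt w h.loc.unif h.loc.sqrt hprod0 (by rw [hlg]; decide) hsq
    have h4 : (σ₀.restrictScalars L) (b (algebraMap K Ω x)) = b (algebraMap K Ω x) := by
      rw [← hr]; exact σ₀.commutes r
    rw [h4] at hact
    apply mul_right_cancel₀ hb0
    rw [← hact]; ring

/-- Everything that is needed about the two classes `y` and `z = (γ y - y) / 2`. -/
structure KeyRel (W : Affine R) (g D : F[X]) (γ : Ω ≃ₐ[R] Ω) (τ : F →+* F)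
    (y z : ℕ → (Ω ≃ₐ[L] Ω) → (W.baseChange Ω).Point) (P : (W.baseChange Ω).Point)
    (Z Z' : Finset F) (b b' : Ω → Ω) : Prop where
  tcy : TC W y
  tcz : TC W z
  four : 4 • P = 0
  rel : ∀ σ' σ : Ω ≃ₐ[L] Ω, (∀ x, γ (σ' x) = σ (γ x)) →
      Point.map (W' := W) (γ : Ω →ₐ[R] Ω) (y 2 σ') =
        y 2 σ + z 1 σ + (Point.map (W' := W) (σ : Ω →ₐ[L] Ω) P - P)
  descy : IsDesc W g D (y 1) Z b
  descz : IsDesc W g D (z 1) Z' b'
  fixZ : ∀ β ∈ Z, τ β = β
  conj : ∀ σ : Ω ≃ₐ[L] Ω, ∃ σ' : Ω ≃ₐ[L] Ω, ∀ x, γ (σ' x) = σ (γ x)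

variable {y z : ℕ → (Ω ≃ₐ[L] Ω) → (W.baseChange Ω).Point} {P : (W.baseChange Ω).Point}
  {Z Z' : Finset F} {b b' : Ω → Ω}

/-- The effect of `γ` on `ρ(B) b(θ)`. -/
lemma KeyData.core (h : KeyData w g D α S γ γK τ) (hr : KeyRel W g D γ τ y z P Z Z' b b')
    (hW : IsTwist Ω W g D) (hg : g.Monic) (hdeg : g.natDegree = 3) (hd : derivative g ≠ 0)
    (hγθ : ∀ θ ∈ RootSet (Ω := Ω) g, γ θ = θ) {σ₀ : Ω ≃ₐ[K] Ω} (hσ₀ : σ₀ S = -S)
    {x : K} {β : F} (hx : algebraMap K Ω x ∈ RootSet (Ω := Ω) g)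
    (hn : w (x - algebraMap F[X] K (C β)) = WithZero.exp (-1 : ℤ)) :
    γ (rho (algebraMap F[X] Ω D * algebraMap K Ω x) (y 2 (σ₀.restrictScalars L)) *
        b (algebraMap K Ω x)) =
      (if β ∈ Z' then -1 else 1) *
        (rho (algebraMap F[X] Ω D * algebraMap K Ω x) (y 2 (σ₀.restrictScalars L)) *
          b (algebraMap K Ω x)) := by
  set θ := algebraMap K Ω x with hθ
  set B := y 2 (σ₀.restrictScalars L) with hB
  have hγD : γ (algebraMap F[X] Ω D) = algebraMap F[X] Ω D := by rw [h.γ_poly, h.D_fix]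
  have hz2 : ∀ σ, 2 • z 1 σ = 0 := fun σ => by
    have := hr.tcz.two_pow 1 σ
    rwa [pow_one] at this
  have hy2 : ∀ σ, 2 • y 1 σ = 0 := fun σ => by
    have := hr.tcy.two_pow 1 σ
    rwa [pow_one] at this
  have hP2 : 2 • (2 • P) = 0 := by rw [← mul_smul]; exact hr.four
  -- the level one relation
  have hrel1 : ∀ σ' σ : Ω ≃ₐ[L] Ω, (∀ x, γ (σ' x) = σ (γ x)) →
      Point.map (W' := W) (γ : Ω →ₐ[R] Ω) (y 1 σ') - y 1 σ =
        Point.map (W' := W) (σ : Ω →ₐ[L] Ω) (2 • P) - 2 • P := by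
    intro σ' σ hσ
    have h1 := congrArg (fun Q => 2 • Q) (hr.rel σ' σ hσ)
    rw [← map_nsmul, hr.tcy.two 1, smul_add, smul_add, hr.tcy.two 1, hz2, add_zero, smul_sub,
      ← map_nsmul] at h1
    rw [h1]
    abel
  have hb := hr.descy.conj_eq h.loc.two hW hg hdeg hd h.loc.ne hy2 h.γ_poly h.g_fix h.D_fix
    hr.conj hr.fixZ hP2 hrel1 θ hx
  have hsymm : γ.symm θ = θ := by
    apply γ.injective
    rw [AlgEquiv.apply_symm_apply, hγθ θ hx]
  rw [hsymm] at hb
  have hval := h.value hW hg hdeg hd hr.tcy hr.four hr.rel hσ₀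
  rw [← hB] at hval
  set V := Point.map (W' := W) (γ : Ω →ₐ[R] Ω) B - B with hV
  have h2B : 2 • B = y 1 (σ₀.restrictScalars L) := hr.tcy.two 1 _
  have hV2 : 2 • V = 0 := by
    rw [hV, smul_sub, ← map_nsmul, h2B, gamma_two L h.loc.two hW hg hdeg hd h.loc.ne hγD hγθ
      (hy2 _), sub_self]
  have hγB : Point.map (W' := W) (γ : Ω →ₐ[R] Ω) B = B + V := by rw [hV]; abel
  have h3 : γ (rho (algebraMap F[X] Ω D * θ) B) =
      rho (algebraMap F[X] Ω D * θ) B * rho (algebraMap F[X] Ω D * θ) V := by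
    rw [← rho_add hW.short h.loc.two (hW.rt hg hdeg hx) _ _ hV2, ← hγB]
    have h5 : algebraMap F[X] Ω D * θ = (γ : Ω →ₐ[R] Ω) (algebraMap F[X] Ω D * θ) := by
      change _ = γ (algebraMap F[X] Ω D * θ)
      rw [map_mul, hγD, hγθ θ hx]
    conv_rhs => rw [h5]
    rw [rho_map]
    rfl
  have h4 := h.sign_near hr.descz hσ₀ hx hn
  rw [hval, rho_add hW.short h.loc.two (hW.rt hg hdeg hx) _ _ hP2] at h4
  rw [map_mul, h3, hb, ← h4]
  ring

/-- The final step: comparison of the two signs. -/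
lemma KeyData.final (h : KeyData w g D α S γ γK τ) (h2F : (2 : F) ≠ 0) {m : K} {c : F} (hc : c ≠ 0)
    (hm : Cg w (m ^ 2) c) {β : F}
    (hκ : γ (algebraMap K Ω m) = (if β ∈ Z' then -1 else 1) * algebraMap K Ω m) :
    β ∈ Z' ↔ Moves τ c := by
  have haux := moves_iff_aux h.isOver h2F (τ := τ) (γK := γK) (fun a => by
    rw [h.γK_poly, map_C]) h.γ_val hc hm
  by_cases hβ : β ∈ Z'
  · rw [if_pos hβ] at hκ
    refine ⟨fun _ => haux.2 ?_, fun _ => hβ⟩
    apply (algebraMap K Ω).injective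
    rw [← h.γ_K, hκ, map_neg]; ring
  · rw [if_neg hβ] at hκ
    refine ⟨fun h1 => absurd h1 hβ, fun h1 => absurd h1 (haux.1 ?_)⟩
    apply (algebraMap K Ω).injective
    rw [← h.γ_K, hκ, one_mul]

/-- The case in which the fibre does not meet `Z`. -/
lemma KeyData.case_zero (h : KeyData w g D α S γ γK τ) (hr : KeyRel W g D γ τ y z P Z Z' b b')
    (h2F : (2 : F) ≠ 0)
    (hW : IsTwist Ω W g D) (hg : g.Monic) (hdeg : g.natDegree = 3) (hd : derivative g ≠ 0)
    (hγθ : ∀ θ ∈ RootSet (Ω := Ω) g, γ θ = θ) {σ₀ : Ω ≃ₐ[K] Ω} (hσ₀ : σ₀ S = -S)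
    (h2B : 2 • y 2 (σ₀.restrictScalars L) = 0)
    {x : K} {β : F} (hβ : g.eval β = α) (hx : algebraMap K Ω x ∈ RootSet (Ω := Ω) g)
    (hn : w (x - algebraMap F[X] K (C β)) = WithZero.exp (-1 : ℤ)) :
    β ∈ Z' ↔ Moves τ (PZ g D Z β) := by
  have h2y : ∀ σ, 2 • y 2 σ = y 1 σ := fun σ => hr.tcy.two 1 σ
  have hm1 : (1 : Ω) ≠ -1 := by
    intro h0
    apply h.loc.two
    linear_combination h0
  -- no point of the fibre is in `Z`
  have hno : ∀ β' ∈ Z, g.eval β' ≠ α := by
    intro β' hβ' heq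
    obtain ⟨x', m', n'⟩ := h.near β' heq
    have h1 := h.sign_near hr.descy hσ₀ m' n'
    rw [← h2y, h2B, rho_zero, if_pos hβ'] at h1
    exact hm1 h1
  have hβZ : β ∉ Z := fun h1 => hno β h1 hβ
  have hfilter : Z.filter (fun β' => g.eval β' ≠ g.eval β) = Z := by
    apply Finset.filter_true_of_mem
    intro β' hβ'
    rw [hβ]
    exact hno β' hβ'
  have hPZ : PZ g D Z β = ∏ β' ∈ Z, (β - β') := by
    rw [PZ, hfilter, if_neg hβZ, mul_one]
  have hcore := h.core hr hW hg hdeg hd hγθ hσ₀ hx hn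
  set θ := algebraMap K Ω x with hθ
  set B := y 2 (σ₀.restrictScalars L) with hB
  have hoth : ∀ β' : F, β' ≠ β → w (x - algebraMap F[X] K (C β')) = 1 := by
    intro β' hne
    exact ((cg_of_near hn).sub (IsOver.cg_const (w := w) β')).one h.isOver
      (sub_ne_zero.mpr (Ne.symm hne))
  obtain ⟨hne, hlg⟩ := lg_root_prod w hn hoth Z
  rw [if_neg hβZ] at hlg
  have hprod0 : (∏ β' ∈ Z, (x - algebraMap F[X] K (C β'))) ≠ 0 :=
    Finset.prod_ne_zero_iff.mpr fun β' _ => hne β'
  have hsq : (rho (algebraMap F[X] Ω D * θ) B * b θ) ^ 2 =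
      algebraMap K Ω (∏ β' ∈ Z, (x - algebraMap F[X] K (C β'))) := by
    rw [mul_pow, pow_two (rho _ _), rho_two_torsion_mul_self hW.short h.loc.two _ h2B, one_mul,
      hr.descy.sq _ hx, map_prod]
    apply Finset.prod_congr rfl
    intro β' _
    rw [map_sub, ← IsScalarTower.algebraMap_apply]
  obtain ⟨m, hm⟩ := exists_rational_sqrt w h.loc.unif h.loc.sqrt hprod0 (by rw [hlg]; decide) hsq
  rw [← hm] at hcore
  have hm2 : m ^ 2 = ∏ β' ∈ Z, (x - algebraMap F[X] K (C β')) := by
    apply (algebraMap K Ω).injective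
    rw [map_pow, hm, hsq]
  rw [hPZ]
  apply h.final h2F _ _ hcore
  · apply Finset.prod_ne_zero_iff.mpr
    intro β' hβ'
    apply sub_ne_zero.mpr
    rintro rfl
    exact hβZ hβ'
  · rw [hm2]
    apply Cg.prod h.isOver
    intro β' _
    exact (cg_of_near hn).sub (IsOver.cg_const (w := w) β')

/-- The case of a point of the fibre which belongs to `Z`. -/
lemma KeyData.case_one (h : KeyData w g D α S γ γK τ) (hr : KeyRel W g D γ τ y z P Z Z' b b')
    (h2F : (2 : F) ≠ 0)
    (hW : IsTwist Ω W g D) (hg : g.Monic) (hdeg : g.natDegree = 3) (hd : derivative g ≠ 0)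
    (hDα : D.eval α = 0) (hD' : (derivative D).eval α ≠ 0)
    (hγθ : ∀ θ ∈ RootSet (Ω := Ω) g, γ θ = θ) {σ₀ : Ω ≃ₐ[K] Ω} (hσ₀ : σ₀ S = -S)
    {βi βj βl : F} (hij : βi ≠ βj) (hil : βi ≠ βl) (hjl : βj ≠ βl)
    (hfac : g - C α = (X - C βi) * (X - C βj) * (X - C βl)) {xi xj : K}
    (hxi : algebraMap K Ω xi ∈ RootSet (Ω := Ω) g) (hxj : algebraMap K Ω xj ∈ RootSet (Ω := Ω) g)
    (hni : w (xi - algebraMap F[X] K (C βi)) = WithZero.exp (-1 : ℤ))
    (hnj : w (xj - algebraMap F[X] K (C βj)) = WithZero.exp (-1 : ℤ))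
    {hP' : (W.baseChange Ω).Nonsingular (algebraMap F[X] Ω D * algebraMap K Ω xj) 0}
    (h2B : 2 • y 2 (σ₀.restrictScalars L) =
      .some (algebraMap F[X] Ω D * algebraMap K Ω xj) 0 hP') :
    βi ∈ Z' ↔ Moves τ (PZ g D Z βi) := by
  have hm1 : (1 : Ω) ≠ -1 := by
    intro h0
    apply h.loc.two
    linear_combination h0
  have hd0 : algebraMap F[X] Ω D ≠ 0 := algebraMap_ne_zero_Om L h.loc.ne
  have h2y : ∀ σ, 2 • y 2 σ = y 1 σ := fun σ => hr.tcy.two 1 σ
  have hev : ∀ β, g.eval β - α = (β - βi) * (β - βj) * (β - βl) := by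
    intro β
    have := congrArg (fun p => p.eval β) hfac
    simpa using this
  have ei : g.eval βi = α := by
    have := hev βi
    rw [sub_self, zero_mul, zero_mul] at this
    exact sub_eq_zero.mp this
  have ej : g.eval βj = α := by
    have := hev βj
    rw [sub_self, mul_zero, zero_mul] at this
    exact sub_eq_zero.mp this
  have el : g.eval βl = α := by
    have := hev βl
    rw [sub_self, mul_zero] at this
    exact sub_eq_zero.mp this
  -- membership in `Z`
  have hmem : ∀ (β' : F) (x' : K), algebraMap K Ω x' ∈ RootSet (Ω := Ω) g →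
      w (x' - algebraMap F[X] K (C β')) = WithZero.exp (-1 : ℤ) → (β' ∈ Z ↔ xj ≠ x') := by
    intro β' x' m' n'
    have h1 := h.sign_near hr.descy hσ₀ m' n'
    rw [← h2y, h2B, rho_two_torsion] at h1
    by_cases hx' : xj = x'
    · rw [if_pos (by rw [hx'])] at h1
      constructor
      · intro h3
        rw [if_pos h3] at h1
        exact absurd h1 hm1
      · intro h3
        exact absurd hx' h3
    · rw [if_neg (fun h3 => hx' ((algebraMap K Ω).injective (mul_left_cancel₀ hd0 h3)))] at h1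
      constructor
      · exact fun _ => hx'
      · intro _
        by_contra h3
        rw [if_neg h3] at h1
        exact hm1 h1.symm
  have hxij : xi ≠ xj := by
    rintro rfl
    exact hij ((cg_of_near hni).unique h.isOver (cg_of_near hnj))
  have hZi : βi ∈ Z := (hmem βi xi hxi hni).mpr (Ne.symm hxij)
  have hZj : βj ∉ Z := fun h1 => (hmem βj xj hxj hnj).mp h1 rfl
  have hZl : βl ∈ Z := by
    obtain ⟨xl, ml, nl⟩ := h.near βl el
    apply (hmem βl xl ml nl).mpr
    rintro rfl
    exact hjl ((cg_of_near hnj).unique h.isOver (cg_of_near nl))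
  -- splitting off the fibre
  have hfib : Z.filter (fun β' => ¬ g.eval β' ≠ g.eval βi) = {βi, βl} := by
    ext β'
    rw [Finset.mem_filter, Finset.mem_insert, Finset.mem_singleton, not_not, ei]
    constructor
    · rintro ⟨h1, h3⟩
      have h4 := hev β'
      rw [h3, sub_self, eq_comm, mul_eq_zero, mul_eq_zero] at h4
      rcases h4 with (h4 | h4) | h4
      · exact Or.inl (sub_eq_zero.mp h4)
      · rw [sub_eq_zero.mp h4] at h1
        exact absurd h1 hZj
      · exact Or.inr (sub_eq_zero.mp h4)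
    · rintro (rfl | rfl)
      · exact ⟨hZi, ei⟩
      · exact ⟨hZl, el⟩
  set px : K := ∏ β' ∈ Z.filter (fun β' => g.eval β' ≠ g.eval βi),
    (xi - algebraMap F[X] K (C β')) with hpx
  set pb : F := ∏ β' ∈ Z.filter (fun β' => g.eval β' ≠ g.eval βi), (βi - β') with hpb
  have hsplit : ∏ β' ∈ Z, (xi - algebraMap F[X] K (C β')) =
      px * ((xi - algebraMap F[X] K (C βi)) * (xi - algebraMap F[X] K (C βl))) := by
    rw [← Finset.prod_filter_mul_prod_filter_not Z (fun β' => g.eval β' ≠ g.eval βi), hfib,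
      Finset.prod_pair hil]
  have hcp : Cg w px pb := by
    apply Cg.prod h.isOver
    intro β' _
    exact (cg_of_near hni).sub (IsOver.cg_const (w := w) β')
  have hp0 : pb ≠ 0 := by
    apply Finset.prod_ne_zero_iff.mpr
    intro β' hβ'
    apply sub_ne_zero.mpr
    rintro rfl
    rw [Finset.mem_filter] at hβ'
    exact hβ'.2 rfl
  -- the product formula for `t - α`
  have hπ : algebraMap F[X] K (X - C α) = (xi - algebraMap F[X] K (C βi)) *
      (xi - algebraMap F[X] K (C βj)) * (xi - algebraMap F[X] K (C βl)) := by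
    apply (algebraMap K Ω).injective
    have h1 := congrArg (ev F Ω (algebraMap K Ω xi)) hfac
    rw [map_sub, show ev F Ω (algebraMap K Ω xi) g = _ from hxi] at h1
    simp only [map_mul, map_sub, ev_X, ev_C] at h1
    simp only [map_mul, map_sub, ← IsScalarTower.algebraMap_apply]
    exact h1
  obtain ⟨D₁, hD₁⟩ : (X - C α) ∣ D := dvd_iff_isRoot.mpr hDα
  have hD₁α : D₁.eval α = (derivative D).eval α := by
    rw [hD₁]
    simp
  have hπ0 := h.loc.pi_ne
  have hcore := h.core hr hW hg hdeg hd hγθ hσ₀ hxi hni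
  set θ := algebraMap K Ω xi with hθ
  set B := y 2 (σ₀.restrictScalars L) with hB
  set XX : K := algebraMap F[X] K D * (xj - xi) * ∏ β' ∈ Z, (xi - algebraMap F[X] K (C β')) with hXX
  have hsq : (rho (algebraMap F[X] Ω D * θ) B * b θ) ^ 2 = algebraMap K Ω XX := by
    rw [mul_pow, h.loc.rho_half hW hg hdeg h2B hxi, hr.descy.sq _ hxi, hXX, map_mul, map_mul,
      map_sub, map_prod, ← IsScalarTower.algebraMap_apply]
    congr 1
    apply Finset.prod_congr rfl
    intro β' _
    rw [map_sub, ← IsScalarTower.algebraMap_apply]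
  have hoth : ∀ β' : F, β' ≠ βi → w (xi - algebraMap F[X] K (C β')) = 1 := by
    intro β' hne
    exact ((cg_of_near hni).sub (IsOver.cg_const (w := w) β')).one h.isOver
      (sub_ne_zero.mpr (Ne.symm hne))
  obtain ⟨hne, hlg⟩ := lg_root_prod w hni hoth Z
  rw [if_pos hZi] at hlg
  have hprod0 : (∏ β' ∈ Z, (xi - algebraMap F[X] K (C β'))) ≠ 0 :=
    Finset.prod_ne_zero_iff.mpr fun β' _ => hne β'
  have hdK : algebraMap F[X] K D ≠ 0 := by
    intro h0
    apply hd0
    rw [IsScalarTower.algebraMap_apply F[X] K Ω, h0, map_zero]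
  have hwji : w (xj - xi) = 1 := h.loc.diff _ _ hxj hxi (Ne.symm hxij)
  have hji0 : xj - xi ≠ 0 := sub_ne_zero.mpr (Ne.symm hxij)
  have hXX0 : XX ≠ 0 := mul_ne_zero (mul_ne_zero hdK hji0) hprod0
  have hXXe : Even (lg w XX) := by
    rw [hXX, lg_mul w (mul_ne_zero hdK hji0) hprod0, lg_mul w hdK hji0, hlg,
      lg_eq_zero_of w hwji, add_zero]
    exact h.loc.odd.add_odd (by decide)
  obtain ⟨n, hn⟩ := exists_rational_sqrt w h.loc.unif h.loc.sqrt hXX0 hXXe hsq
  have hn2 : n ^ 2 = XX := by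
    apply (algebraMap K Ω).injective
    rw [map_pow, hn, hsq]
  -- the normalised element
  set π : K := algebraMap F[X] K (X - C α) with hπdef
  have hγπ : γ (algebraMap K Ω π) = algebraMap K Ω π := by
    rw [hπdef, ← IsScalarTower.algebraMap_apply, h.γ_poly, Polynomial.map_sub, Polynomial.map_X,
      Polynomial.map_C, h.α_fix]
  have hcore' : γ (algebraMap K Ω (n / π)) =
      (if βi ∈ Z' then -1 else 1) * algebraMap K Ω (n / π) := by
    rw [map_div₀, map_div₀, hγπ, hn, hcore]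
    ring
  have hPZ : PZ g D Z βi = pb * -(derivative D).eval α := by
    rw [PZ, if_pos hZi, ei, hpb, ei]
  rw [hPZ]
  have huj : xi - algebraMap F[X] K (C βj) ≠ 0 := hne βj
  have hwj : w (xi - algebraMap F[X] K (C βj)) = 1 := hoth βj (Ne.symm hij)
  have hkey : (n / π) ^ 2 * (xi - algebraMap F[X] K (C βj)) =
      algebraMap F[X] K D₁ * (xj - xi) * px := by
    have e1 : algebraMap F[X] K D = π * algebraMap F[X] K D₁ := by
      rw [hπdef, ← map_mul, ← hD₁]
    rw [div_pow, hn2, hXX, hsplit, e1, div_mul_eq_mul_div, div_eq_iff (pow_ne_zero 2 hπ0)]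
    linear_combination (-(π * algebraMap F[X] K D₁ * (xj - xi) * px)) * hπ
  apply h.final h2F _ _ hcore'
  · exact mul_ne_zero hp0 (neg_ne_zero.mpr hD')
  · have h5 : Cg w (algebraMap F[X] K D₁ * (xj - xi) * px - algebraMap F[X] K
        (C (pb * -(derivative D).eval α)) * (xi - algebraMap F[X] K (C βj)))
        (D₁.eval α * (βj - βi) * pb - (pb * -(derivative D).eval α) * (βi - βj)) := by
      apply Cg.sub
      · exact ((Cg.poly h.isOver D₁).mul h.isOver
          ((cg_of_near hnj).sub (cg_of_near hni))).mul h.isOver hcp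
      · exact (IsOver.cg_const (w := w) _).mul h.isOver
          ((cg_of_near hni).sub (IsOver.cg_const (w := w) βj))
    rw [hD₁α, show (derivative D).eval α * (βj - βi) * pb -
      (pb * -(derivative D).eval α) * (βi - βj) = 0 by ring, ← hkey, ← sub_mul] at h5
    unfold Cg at h5 ⊢
    rw [C_0, map_zero, sub_zero, map_mul, hwj, mul_one] at h5
    exact h5

/-- The product of the three values of `PZ` over a fibre is the square of a fixed element. -/
lemma prod_PZ {F : Type*} [Field F] [IsAlgClosed F] {g D : F[X]} {Z : Finset F} {τ : F →+* F}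
    {α βi βj βl : F} (hij : βi ≠ βj) (hil : βi ≠ βl) (hjl : βj ≠ βl)
    (hfac : g - C α = (X - C βi) * (X - C βj) * (X - C βl))
    (heven : ∀ α, Even (Z.filter fun β => g.eval β = α).card) (hZ : ∀ β ∈ Z, τ β = β)
    (hg : g.map τ = g) (hD : D.map τ = D) (hα : τ α = α) :
    ∃ E, τ E = E ∧ PZ g D Z βi * PZ g D Z βj * PZ g D Z βl = E ^ 2 := by
  have hev : ∀ β, g.eval β - α = (β - βi) * (β - βj) * (β - βl) := by
    intro β
    have := congrArg (fun p => p.eval β) hfac
    simpa using this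
  have ei : g.eval βi = α := by
    have := hev βi
    rw [sub_self, zero_mul, zero_mul] at this
    exact sub_eq_zero.mp this
  have ej : g.eval βj = α := by
    have := hev βj
    rw [sub_self, mul_zero, zero_mul] at this
    exact sub_eq_zero.mp this
  have el : g.eval βl = α := by
    have := hev βl
    rw [sub_self, mul_zero] at this
    exact sub_eq_zero.mp this
  have hτev : ∀ (p : F[X]) (x : F), p.map τ = p → τ x = x → τ (p.eval x) = p.eval x := by
    intro p x hp hx
    have := eval₂_hom (p := p) τ x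
    rw [← this, ← eval_map, hp, hx]
  set Zf := Z.filter (fun β => g.eval β ≠ α) with hZf
  set d := -(derivative D).eval α with hd
  have hτd : τ d = d := by
    rw [hd, map_neg, hτev (derivative D) α (by rw [← derivative_map, hD]) hα]
  -- the part away from the fibre
  have hevenf : ∀ a, Even (Zf.filter fun β => g.eval β = a).card := by
    intro a
    by_cases ha : a = α
    · subst ha
      have : Zf.filter (fun β => g.eval β = a) = ∅ := by
        apply Finset.filter_false_of_mem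
        intro β hβ
        rw [hZf, Finset.mem_filter] at hβ
        exact hβ.2
      rw [this]
      exact ⟨0, rfl⟩
    · have : Zf.filter (fun β => g.eval β = a) = Z.filter (fun β => g.eval β = a) := by
        rw [hZf, Finset.filter_filter]
        apply Finset.filter_congr
        intro β _
        constructor
        · exact fun h => h.2
        · intro h
          exact ⟨by rw [h]; exact ha, h⟩
      rw [this]
      exact heven a
  set E₁ : F := ∏ a ∈ Zf.image (fun β => g.eval β),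
    (α - a) ^ ((Zf.filter fun β => g.eval β = a).card / 2) with hE₁
  have hτE₁ : τ E₁ = E₁ := by
    rw [hE₁, map_prod]
    apply Finset.prod_congr rfl
    intro a ha
    obtain ⟨β, hβ, rfl⟩ := Finset.mem_image.mp ha
    have hβZ : β ∈ Z := (Finset.mem_filter.mp hβ).1
    rw [map_pow, map_sub, hα, hτev g β hg (hZ β hβZ)]
  have hprod : (∏ β ∈ Zf, (βi - β)) * (∏ β ∈ Zf, (βj - β)) * (∏ β ∈ Zf, (βl - β)) = E₁ ^ 2 := by
    rw [← Finset.prod_mul_distrib, ← Finset.prod_mul_distrib, hE₁,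
      ← prod_even_fibres Zf (fun β => g.eval β) (fun a => α - a) hevenf]
    apply Finset.prod_congr rfl
    intro β _
    linear_combination hev β
  -- the part in the fibre
  have hfib : Z.filter (fun β => g.eval β = α) =
      ({βi, βj, βl} : Finset F).filter (fun β => β ∈ Z) := by
    ext β
    simp only [Finset.mem_filter, Finset.mem_insert, Finset.mem_singleton]
    constructor
    · rintro ⟨h1, h3⟩
      refine ⟨?_, h1⟩
      have h4 := hev β
      rw [h3, sub_self, eq_comm, mul_eq_zero, mul_eq_zero] at h4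
      rcases h4 with (h4 | h4) | h4
      · exact Or.inl (sub_eq_zero.mp h4)
      · exact Or.inr (Or.inl (sub_eq_zero.mp h4))
      · exact Or.inr (Or.inr (sub_eq_zero.mp h4))
    · rintro ⟨h1, h3⟩
      refine ⟨h3, ?_⟩
      rcases h1 with rfl | rfl | rfl
      · exact ei
      · exact ej
      · exact el
  have hpar := heven α
  rw [hfib] at hpar
  obtain ⟨e, hτe, he⟩ : ∃ e, τ e = e ∧ (if βi ∈ Z then d else 1) * (if βj ∈ Z then d else 1) *
      (if βl ∈ Z then d else 1) = e ^ 2 := by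
    by_cases hi : βi ∈ Z <;> by_cases hj : βj ∈ Z <;> by_cases hl : βl ∈ Z
    all_goals simp only [Finset.filter_insert, Finset.filter_singleton, hi, hj, hl, if_true,
      if_false] at hpar ⊢
    · rw [Finset.card_insert_of_notMem (by simp [hij, hil]),
        Finset.card_insert_of_notMem (by simp [hjl]), Finset.card_singleton] at hpar
      exact absurd hpar (by decide)
    · exact ⟨d, hτd, by ring⟩
    · exact ⟨d, hτd, by ring⟩
    · rw [Finset.card_insert_of_notMem (by simp)] at hpar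
      simp at hpar
    · exact ⟨d, hτd, by ring⟩
    · rw [Finset.card_insert_of_notMem (by simp)] at hpar
      simp at hpar
    · rw [Finset.card_singleton] at hpar
      exact absurd hpar (by decide)
    · exact ⟨1, map_one τ, by ring⟩
  refine ⟨E₁ * e, by rw [map_mul, hτE₁, hτe], ?_⟩
  rw [PZ, PZ, PZ, ei, ej, el, mul_pow, ← hprod, ← he]
  ring

lemma map_PZ {F : Type*} [Field F] {g D : F[X]} {Z : Finset F} {τ : F →+* F}
    {β' : F} (hZ : ∀ β ∈ Z, τ β = β) (hβ' : τ β' = β')
    (hg : g.map τ = g) (hD : D.map τ = D) : τ (PZ g D Z β') = PZ g D Z β' := by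
  have hτev : ∀ (p : F[X]) (x : F), p.map τ = p → τ x = x → τ (p.eval x) = p.eval x := by
    intro p x hp hx
    have := eval₂_hom (p := p) τ x
    rw [← this, ← eval_map, hp, hx]
  rw [PZ, map_mul, map_prod]
  congr 1
  · apply Finset.prod_congr rfl
    intro β hβ
    rw [map_sub, hβ', hZ β (Finset.mem_filter.mp hβ).1]
  · split_ifs
    · rw [map_neg, hτev (derivative D) _ (by rw [← derivative_map, hD]) (hτev g β' hg hβ')]
    · rw [map_one]

lemma PZ_ne_zero {F : Type*} [Field F] {g D : F[X]} {Z : Finset F}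
    {β' : F} (hD' : (derivative D).eval (g.eval β') ≠ 0) : PZ g D Z β' ≠ 0 := by
  rw [PZ]
  apply mul_ne_zero
  · apply Finset.prod_ne_zero_iff.mpr
    intro β hβ
    apply sub_ne_zero.mpr
    rintro rfl
    rw [Finset.mem_filter] at hβ
    exact hβ.2 rfl
  · split_ifs
    · exact neg_ne_zero.mpr hD'
    · exact one_ne_zero

/-- Parity of the intersection of a set with a fibre. -/
lemma mem_parity {F : Type*} [Field F] {g : F[X]} {Z : Finset F}
    {α βi βj βl : F} (hij : βi ≠ βj) (hil : βi ≠ βl) (hjl : βj ≠ βl)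
    (hfac : g - C α = (X - C βi) * (X - C βj) * (X - C βl))
    (heven : Even (Z.filter fun β => g.eval β = α).card) :
    βj ∈ Z ↔ ¬ (βi ∈ Z ↔ βl ∈ Z) := by
  have hev : ∀ β, g.eval β - α = (β - βi) * (β - βj) * (β - βl) := by
    intro β
    have := congrArg (fun p => p.eval β) hfac
    simpa using this
  have ei : g.eval βi = α := by
    have := hev βi
    rw [sub_self, zero_mul, zero_mul] at this
    exact sub_eq_zero.mp this
  have ej : g.eval βj = α := by
    have := hev βj
    rw [sub_self, mul_zero, zero_mul] at this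
    exact sub_eq_zero.mp this
  have el : g.eval βl = α := by
    have := hev βl
    rw [sub_self, mul_zero] at this
    exact sub_eq_zero.mp this
  have hfib : Z.filter (fun β => g.eval β = α) =
      ({βi, βj, βl} : Finset F).filter (fun β => β ∈ Z) := by
    ext β
    simp only [Finset.mem_filter, Finset.mem_insert, Finset.mem_singleton]
    constructor
    · rintro ⟨h1, h3⟩
      refine ⟨?_, h1⟩
      have h4 := hev β
      rw [h3, sub_self, eq_comm, mul_eq_zero, mul_eq_zero] at h4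
      rcases h4 with (h4 | h4) | h4
      · exact Or.inl (sub_eq_zero.mp h4)
      · exact Or.inr (Or.inl (sub_eq_zero.mp h4))
      · exact Or.inr (Or.inr (sub_eq_zero.mp h4))
    · rintro ⟨h1, h3⟩
      refine ⟨h3, ?_⟩
      rcases h1 with rfl | rfl | rfl
      · exact ei
      · exact ej
      · exact el
  rw [hfib] at heven
  by_cases hi : βi ∈ Z <;> by_cases hj : βj ∈ Z <;> by_cases hl : βl ∈ Z
  all_goals simp only [Finset.filter_insert, Finset.filter_singleton, hi, hj, hl, if_true,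
    if_false] at heven ⊢
  all_goals try tauto
  · exfalso
    rw [Finset.card_insert_of_notMem (by simp [hij, hil]),
      Finset.card_insert_of_notMem (by simp [hjl]), Finset.card_singleton] at heven
    exact absurd heven (by decide)
  · exfalso
    rw [Finset.card_insert_of_notMem (by simp)] at heven
    simp at heven
  · exfalso
    rw [Finset.card_insert_of_notMem (by simp)] at heven
    simp at heven
  · exfalso
    rw [Finset.card_singleton] at heven
    exact absurd heven (by decide)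

end Tower

end Pool.Agent.Lib.MP_89bcae_ag
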