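import Mathlib
import Pool.Agent.Lib.MP_89bcae_ag.Key8

/-!
# The effect of an automorphism on the second level of a Selmer class: the three points of a fibre
-/

open Polynomial WeierstrassCurve WeierstrassCurve.Affine

open scoped Classical

namespace Pool.Agent.Lib.MP_89bcae_ag

set_option linter.unusedSectionVars false

section Tower

variable {R F L Ω : Type*} [CommRing R] [Field F] [IsAlgClosed F] [Field L] [Field Ω]
  [Algebra F[X] L] [IsFractionRing F[X] L] [Algebra L Ω] [Algebra F[X] Ω] [IsScalarTower F[X] L Ω]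
  [Algebra R L] [Algebra R Ω] [IsScalarTower R L Ω] {W : Affine R} {g D : F[X]}
  [IsGalois L Ω] [IsSepClosed Ω]
  {K : Type*} [Field K] [Algebra L K] [Algebra K Ω] [IsScalarTower L K Ω] [Algebra F[X] K]
  [IsScalarTower F[X] L K] [IsScalarTower F[X] K Ω] [IsGalois K Ω]
  {w : Valuation K (WithZero (Multiplicative ℤ))} {α : F} {S : Ω} {γ : Ω ≃ₐ[R] Ω}
  {γK : K ≃+* K} {τ : F →+* F}
  {y z : ℕ → (Ω ≃ₐ[L] Ω) → (W.baseChange Ω).Point} {P : (W.baseChange Ω).Point}
  {Z Z' : Finset F} {b b' : Ω → Ω}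

/-- The case of a fibre which meets `Z`. -/
lemma KeyData.case_all (h : KeyData w g D α S γ γK τ) (hr : KeyRel W g D γ τ y z P Z Z' b b')
    (h2F : (2 : F) ≠ 0)
    (hW : IsTwist Ω W g D) (hg : g.Monic) (hdeg : g.natDegree = 3) (hd : derivative g ≠ 0)
    (hDα : D.eval α = 0) (hD' : (derivative D).eval α ≠ 0)
    (hγθ : ∀ θ ∈ RootSet (Ω := Ω) g, γ θ = θ) {σ₀ : Ω ≃ₐ[K] Ω} (hσ₀ : σ₀ S = -S)
    {βi βj βl : F} (hij : βi ≠ βj) (hil : βi ≠ βl) (hjl : βj ≠ βl)
    (hfac : g - C α = (X - C βi) * (X - C βj) * (X - C βl)) {xi xj xl : K}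
    (hxi : algebraMap K Ω xi ∈ RootSet (Ω := Ω) g) (hxj : algebraMap K Ω xj ∈ RootSet (Ω := Ω) g)
    (hxl : algebraMap K Ω xl ∈ RootSet (Ω := Ω) g)
    (hni : w (xi - algebraMap F[X] K (C βi)) = WithZero.exp (-1 : ℤ))
    (hnj : w (xj - algebraMap F[X] K (C βj)) = WithZero.exp (-1 : ℤ))
    (hnl : w (xl - algebraMap F[X] K (C βl)) = WithZero.exp (-1 : ℤ))
    {hP' : (W.baseChange Ω).Nonsingular (algebraMap F[X] Ω D * algebraMap K Ω xj) 0}
    (h2B : 2 • y 2 (σ₀.restrictScalars L) =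
      .some (algebraMap F[X] Ω D * algebraMap K Ω xj) 0 hP') :
    (βi ∈ Z' ↔ Moves τ (PZ g D Z βi)) ∧ (βj ∈ Z' ↔ Moves τ (PZ g D Z βj)) ∧
      (βl ∈ Z' ↔ Moves τ (PZ g D Z βl)) := by
  have hy2 : ∀ σ, 2 • y 1 σ = 0 := fun σ => by
    have := hr.tcy.two_pow 1 σ
    rwa [pow_one] at this
  have hz2 : ∀ σ, 2 • z 1 σ = 0 := fun σ => by
    have := hr.tcz.two_pow 1 σ
    rwa [pow_one] at this
  have ci := h.case_one hr h2F hW hg hdeg hd hDα hD' hγθ hσ₀ hij hil hjl hfac hxi hxj hni hnj h2B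
  have cl := h.case_one hr h2F hW hg hdeg hd hDα hD' hγθ hσ₀ (Ne.symm hjl) (Ne.symm hil)
    (Ne.symm hij) (by rw [hfac]; ring) hxl hxj hnl hnj h2B
  refine ⟨ci, ?_, cl⟩
  have hev : ∀ β, g.eval β - α = (β - βi) * (β - βj) * (β - βl) := by
    intro β
    have := congrArg (fun p => p.eval β) hfac
    simpa using this
  have ei : g.eval βi = α := by
    have := hev βi
    rw [sub_self, zero_mul, zero_mul] at this
    exact sub_eq_zero.mp this
  have ej : g.eval βj = α := by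
    have := hev βj
    rw [sub_self, mul_zero, zero_mul] at this
    exact sub_eq_zero.mp this
  have el : g.eval βl = α := by
    have := hev βl
    rw [sub_self, mul_zero] at this
    exact sub_eq_zero.mp this
  have hevZ := hr.descy.even h.loc.two hW hg hdeg hd h.loc.ne hy2
  have hevZ' := hr.descz.even h.loc.two hW hg hdeg hd h.loc.ne hz2
  obtain ⟨E, hE, hE2⟩ := prod_PZ hij hil hjl hfac hevZ hr.fixZ h.g_fix h.D_fix h.α_fix
  have ti := map_PZ hr.fixZ (h.β_fix βi ei) h.g_fix h.D_fix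
  have tj := map_PZ hr.fixZ (h.β_fix βj ej) h.g_fix h.D_fix
  have tl := map_PZ hr.fixZ (h.β_fix βl el) h.g_fix h.D_fix
  have zi : PZ g D Z βi ≠ 0 := PZ_ne_zero (by rw [ei]; exact hD')
  have zj : PZ g D Z βj ≠ 0 := PZ_ne_zero (by rw [ej]; exact hD')
  have zl : PZ g D Z βl ≠ 0 := PZ_ne_zero (by rw [el]; exact hD')
  rw [mem_parity hij hil hjl hfac (hevZ' α), ci, cl,
    moves_parity h2F zj zi zl tj ti tl (E := E) (by rw [← hE2]; ring) hE]

/-- **The local formula**: the divisor of `(γ y - y) / 2` consists of the points `β'` such that the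
automorphism moves the square roots of `PZ g D Z β'`. -/
theorem KeyData.key (h : KeyData w g D α S γ γK τ) (hr : KeyRel W g D γ τ y z P Z Z' b b')
    (h2F : (2 : F) ≠ 0)
    (hW : IsTwist Ω W g D) (hg : g.Monic) (hdeg : g.natDegree = 3) (hd : derivative g ≠ 0)
    (hDα : D.eval α = 0) (hD' : (derivative D).eval α ≠ 0)
    {β₁ β₂ β₃ : F} (h12 : β₁ ≠ β₂) (h13 : β₁ ≠ β₃) (h23 : β₂ ≠ β₃)
    (hfac : g - C α = (X - C β₁) * (X - C β₂) * (X - C β₃)) {β : F} (hβ : g.eval β = α) :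
    β ∈ Z' ↔ Moves τ (PZ g D Z β) := by
  have hev : ∀ β, g.eval β - α = (β - β₁) * (β - β₂) * (β - β₃) := by
    intro β
    have := congrArg (fun p => p.eval β) hfac
    simpa using this
  have e1 : g.eval β₁ = α := by
    have := hev β₁
    rw [sub_self, zero_mul, zero_mul] at this
    exact sub_eq_zero.mp this
  have e2 : g.eval β₂ = α := by
    have := hev β₂
    rw [sub_self, mul_zero, zero_mul] at this
    exact sub_eq_zero.mp this
  have e3 : g.eval β₃ = α := by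
    have := hev β₃
    rw [sub_self, mul_zero] at this
    exact sub_eq_zero.mp this
  have hcases : β = β₁ ∨ β = β₂ ∨ β = β₃ := by
    have h4 := hev β
    rw [hβ, sub_self, eq_comm, mul_eq_zero, mul_eq_zero] at h4
    rcases h4 with (h4 | h4) | h4
    · exact Or.inl (sub_eq_zero.mp h4)
    · exact Or.inr (Or.inl (sub_eq_zero.mp h4))
    · exact Or.inr (Or.inr (sub_eq_zero.mp h4))
  obtain ⟨x₁, x₂, x₃, ⟨m1, m2, m3⟩, ⟨n1, n2, n3⟩, hall⟩ :=
    h.labels hg hdeg hd L h12 h13 h23 hfac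
  have hγθ : ∀ θ ∈ RootSet (Ω := Ω) g, γ θ = θ := by
    intro θ hθ
    rcases hall θ hθ with rfl | rfl | rfl
    · rw [h.γ_K, h.fix_near e1 m1 (cg_of_near n1)]
    · rw [h.γ_K, h.fix_near e2 m2 (cg_of_near n2)]
    · rw [h.γ_K, h.fix_near e3 m3 (cg_of_near n3)]
  obtain ⟨σ₀, hσ₀⟩ := exists_moves w h.loc.unif h.loc.S_sq
  have h4B : 2 • (2 • y 2 (σ₀.restrictScalars L)) = 0 := by
    have h5 : 2 • y 2 (σ₀.restrictScalars L) = y 1 (σ₀.restrictScalars L) := hr.tcy.two 1 _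
    have := hr.tcy.two_pow 1 (σ₀.restrictScalars L)
    rw [h5]
    rwa [pow_one] at this
  by_cases h2B : 2 • y 2 (σ₀.restrictScalars L) = 0
  · rcases hcases with rfl | rfl | rfl
    · exact h.case_zero hr h2F hW hg hdeg hd hγθ hσ₀ h2B hβ m1 n1
    · exact h.case_zero hr h2F hW hg hdeg hd hγθ hσ₀ h2B hβ m2 n2
    · exact h.case_zero hr h2F hW hg hdeg hd hγθ hσ₀ h2B hβ m3 n3
  · obtain ⟨θ, hθ, hP, hθP⟩ := exists_root_of_two L h.loc.two hW hg hdeg hd h.loc.ne h4B h2B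
    rcases hall θ hθ with rfl | rfl | rfl
    · have := h.case_all hr h2F hW hg hdeg hd hDα hD' hγθ hσ₀ (Ne.symm h12) h23 h13
        (by rw [hfac]; ring) m2 m1 m3 n2 n1 n3 hθP
      rcases hcases with rfl | rfl | rfl
      · exact this.2.1
      · exact this.1
      · exact this.2.2
    · have := h.case_all hr h2F hW hg hdeg hd hDα hD' hγθ hσ₀ h12 h13 h23
        hfac m1 m2 m3 n1 n2 n3 hθP
      rcases hcases with rfl | rfl | rfl
      · exact this.1
      · exact this.2.1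
      · exact this.2.2
    · have := h.case_all hr h2F hW hg hdeg hd hDα hD' hγθ hσ₀ h13 h12 (Ne.symm h23)
        (by rw [hfac]; ring) m1 m3 m2 n1 n3 n2 hθP
      rcases hcases with rfl | rfl | rfl
      · exact this.1
      · exact this.2.2
      · exact this.2.1

end Tower

end Pool.Agent.Lib.MP_89bcae_ag
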