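import Mathlib
import Pool.Agent.Lib.MP_89bcae_ag.KeyB8
import Pool.Agent.Lib.MP_89bcae_ag.Main8
import Pool.Agent.Lib.MP_89bcae_ag.Alg8

/-!
# The group of classes and the action of the automorphisms
-/

open Polynomial WeierstrassCurve WeierstrassCurve.Affine

open scoped Classical

namespace Pool.Agent.Lib.MP_89bcae_ag

set_option linter.unusedSectionVars false

section Closure

variable {R F Ω : Type*} [CommRing R] [Field F] [Field Ω] [Algebra R F] [Algebra R Ω]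
  [Algebra F Ω] [IsScalarTower R F Ω] {W : Affine R}

lemma TC.add {c c' : ℕ → (Ω ≃ₐ[F] Ω) → (W.baseChange Ω).Point} (hc : TC W c) (hc' : TC W c') :
    TC W (c + c') where
  zero g := by
    change c 0 g + c' 0 g = 0
    rw [hc.zero, hc'.zero, add_zero]
  two n g := by
    change 2 • (c (n + 1) g + c' (n + 1) g) = c n g + c' n g
    rw [smul_add, hc.two, hc'.two]
  mul n g h := by
    change c n (g * h) + c' n (g * h) = (c n g + c' n g) + Point.map (W' := W) _ (c n h + c' n h)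
    rw [hc.mul, hc'.mul, map_add]
    abel
  loc n := (hc.loc n).add (hc'.loc n)

lemma TC.neg {c : ℕ → (Ω ≃ₐ[F] Ω) → (W.baseChange Ω).Point} (hc : TC W c) : TC W (-c) where
  zero g := by
    change -c 0 g = 0
    rw [hc.zero, neg_zero]
  two n g := by
    change 2 • (-c (n + 1) g) = -c n g
    rw [smul_neg, hc.two]
  mul n g h := by
    change -c n (g * h) = -c n g + Point.map (W' := W) _ (-c n h)
    rw [hc.mul, map_neg]
    abel
  loc n := (hc.loc n).neg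

lemma TC.zero_tc : TC W (0 : ℕ → (Ω ≃ₐ[F] Ω) → (W.baseChange Ω).Point) where
  zero g := rfl
  two n g := smul_zero _
  mul n g h := by
    change (0 : (W.baseChange Ω).Point) = 0 + Point.map (W' := W) _ 0
    rw [map_zero, add_zero]
  loc n := IsLocallyConstant.const 0

end Closure

section Act

variable {k F L Ω : Type*} [Field k] [Field F] [Algebra k F] [Algebra.IsAlgebraic k F]
  [IsAlgClosed F] [Field L] [Field Ω]
  [Algebra F[X] L] [IsFractionRing F[X] L] [Algebra L Ω] [Algebra F[X] Ω] [IsScalarTower F[X] L Ω]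
  [Algebra k[X] L] [Algebra k[X] Ω] [IsScalarTower k[X] L Ω]
  [IsGalois L Ω] [IsSepClosed Ω] [IsSepClosure L Ω]

variable (hk : ∀ p : k[X], algebraMap k[X] L p = algebraMap F[X] L (p.map (algebraMap k F)))

/-- Conjugation of an element of the Galois group by an automorphism. -/
noncomputable def cj (γ : Ω ≃ₐ[k[X]] Ω) (σ : Ω ≃ₐ[L] Ω) : Ω ≃ₐ[L] Ω :=
  Classical.choose (exists_conj hk γ σ)

lemma cj_spec (γ : Ω ≃ₐ[k[X]] Ω) (σ : Ω ≃ₐ[L] Ω) (x : Ω) : γ (cj hk γ σ x) = σ (γ x) :=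
  Classical.choose_spec (exists_conj hk γ σ) x

lemma cj_unique {γ : Ω ≃ₐ[k[X]] Ω} {σ σ' : Ω ≃ₐ[L] Ω} (h : ∀ x, γ (σ' x) = σ (γ x)) :
    cj hk γ σ = σ' := by
  ext x
  apply γ.injective
  rw [cj_spec, h]

lemma cj_mul (γ : Ω ≃ₐ[k[X]] Ω) (σ σ' : Ω ≃ₐ[L] Ω) :
    cj hk γ (σ * σ') = cj hk γ σ * cj hk γ σ' := by
  apply cj_unique
  intro x
  rw [AlgEquiv.mul_apply, cj_spec, cj_spec, AlgEquiv.mul_apply]

lemma cj_one (σ : Ω ≃ₐ[L] Ω) : cj hk 1 σ = σ := by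
  apply cj_unique
  intro x
  rfl

lemma cj_comp (γ δ : Ω ≃ₐ[k[X]] Ω) (σ : Ω ≃ₐ[L] Ω) : cj hk (γ * δ) σ = cj hk δ (cj hk γ σ) := by
  apply cj_unique
  intro x
  rw [AlgEquiv.mul_apply, cj_spec, cj_spec, AlgEquiv.mul_apply]

variable (W : Affine k[X])

/-- The action of an automorphism on functions on the Galois group. -/
noncomputable def act8 (γ : Ω ≃ₐ[k[X]] Ω) :
    AddMonoid.End (ℕ → (Ω ≃ₐ[L] Ω) → (W.baseChange Ω).Point) where
  toFun c n σ := Point.map (W' := W) (γ : Ω →ₐ[k[X]] Ω) (c n (cj hk γ σ))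
  map_zero' := by
    funext n σ
    exact map_zero (Point.map (W' := W) (γ : Ω →ₐ[k[X]] Ω))
  map_add' c c' := by
    funext n σ
    exact map_add (Point.map (W' := W) (γ : Ω →ₐ[k[X]] Ω)) _ _

lemma act8_apply (γ : Ω ≃ₐ[k[X]] Ω) (c : ℕ → (Ω ≃ₐ[L] Ω) → (W.baseChange Ω).Point) (n : ℕ)
    (σ : Ω ≃ₐ[L] Ω) :
    act8 hk W γ c n σ = Point.map (W' := W) (γ : Ω →ₐ[k[X]] Ω) (c n (cj hk γ σ)) := rfl

/-- The action of the group of automorphisms. -/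
noncomputable def rho8 : (Ω ≃ₐ[k[X]] Ω) →*
    AddMonoid.End (ℕ → (Ω ≃ₐ[L] Ω) → (W.baseChange Ω).Point) where
  toFun := act8 hk W
  map_one' := by
    apply AddMonoidHom.ext
    intro c
    funext n σ
    change Point.map (W' := W) ((1 : Ω ≃ₐ[k[X]] Ω) : Ω →ₐ[k[X]] Ω) (c n (cj hk 1 σ)) = c n σ
    rw [cj_one]
    rcases c n σ with _ | ⟨x, y, h⟩
    · rfl
    · rfl
  map_mul' γ δ := by
    apply AddMonoidHom.ext
    intro c
    funext n σ
    change Point.map (W' := W) ((γ * δ : Ω ≃ₐ[k[X]] Ω) : Ω →ₐ[k[X]] Ω) (c n (cj hk (γ * δ) σ)) =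
      Point.map (W' := W) (γ : Ω →ₐ[k[X]] Ω) (Point.map (W' := W) (δ : Ω →ₐ[k[X]] Ω)
        (c n (cj hk δ (cj hk γ σ))))
    rw [cj_comp]
    rcases c n (cj hk δ (cj hk γ σ)) with _ | ⟨x, y, h⟩
    · rfl
    · rfl

lemma rho8_apply (γ : Ω ≃ₐ[k[X]] Ω) (c : ℕ → (Ω ≃ₐ[L] Ω) → (W.baseChange Ω).Point) (n : ℕ)
    (σ : Ω ≃ₐ[L] Ω) :
    rho8 hk W γ c n σ = Point.map (W' := W) (γ : Ω →ₐ[k[X]] Ω) (c n (cj hk γ σ)) := rfl

variable {W}

lemma gamma_sigma_map (γ : Ω ≃ₐ[k[X]] Ω) (σ : Ω ≃ₐ[L] Ω) (Q : (W.baseChange Ω).Point) :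
    Point.map (W' := W) (γ : Ω →ₐ[k[X]] Ω) (Point.map (W' := W) (cj hk γ σ : Ω →ₐ[L] Ω) Q) =
      Point.map (W' := W) (σ : Ω →ₐ[L] Ω) (Point.map (W' := W) (γ : Ω →ₐ[k[X]] Ω) Q) := by
  rcases Q with _ | ⟨x, y, h⟩
  · rfl
  · rw [Point.map_some, Point.map_some, Point.map_some, Point.map_some]
    simp only [Point.some.injEq]
    exact ⟨cj_spec hk γ σ x, cj_spec hk γ σ y⟩

lemma TC.rho8 {c : ℕ → (Ω ≃ₐ[L] Ω) → (W.baseChange Ω).Point} (hc : TC W c)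
    (γ : Ω ≃ₐ[k[X]] Ω) : TC W (rho8 hk W γ c) where
  zero g := by
    rw [rho8_apply, hc.zero, map_zero]
  two n g := by
    rw [rho8_apply, rho8_apply, ← map_nsmul, hc.two]
  mul n g h := by
    rw [rho8_apply, rho8_apply, rho8_apply, cj_mul, hc.mul, map_add, gamma_sigma_map]
  loc n := by
    have h1 := isLocallyConstant_comp8 (K := L) (M := Ω) (γ : Ω →+* Ω) (cj hk γ)
      (fun σ x => cj_spec hk γ σ x) (hc.loc n)
    exact h1.comp (fun Q => Point.map (W' := W) (γ : Ω →ₐ[k[X]] Ω) Q)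

/-- Inner automorphisms act trivially on classes. -/
lemma rho8_inner {c : ℕ → (Ω ≃ₐ[L] Ω) → (W.baseChange Ω).Point} (hc : TC W c)
    {γ : Ω ≃ₐ[k[X]] Ω} {σ₀ : Ω ≃ₐ[L] Ω} (h : ∀ x, γ x = σ₀ x) (n : ℕ) (σ : Ω ≃ₐ[L] Ω) :
    rho8 hk W γ c n σ - c n σ = Point.map (W' := W) (σ : Ω →ₐ[L] Ω) (c n σ₀) - c n σ₀ := by
  have h1 : cj hk γ σ = σ₀⁻¹ * (σ * σ₀) := by
    apply cj_unique
    intro x
    rw [h, h, AlgEquiv.mul_apply, AlgEquiv.mul_apply, ← AlgEquiv.mul_apply σ₀ σ₀⁻¹, mul_inv_cancel]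
    rfl
  have h2 : ∀ Q : (W.baseChange Ω).Point, Point.map (W' := W) (γ : Ω →ₐ[k[X]] Ω) Q =
      Point.map (W' := W) (σ₀ : Ω →ₐ[L] Ω) Q := by
    intro Q
    rcases Q with _ | ⟨x, y, hxy⟩
    · rfl
    · rw [Point.map_some, Point.map_some]
      simp only [Point.some.injEq]
      exact ⟨h x, h y⟩
  have h3 := hc.mul n σ₀ (cj hk γ σ)
  rw [h1, mul_inv_cancel_left, hc.mul n σ σ₀] at h3
  rw [rho8_apply, h2, h1]
  rw [sub_eq_sub_iff_add_eq_add, add_comm, ← h3]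
  abel

end Act

end Pool.Agent.Lib.MP_89bcae_ag
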