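import Mathlib
import Pool.Agent.Lib.MP_89bcae_ag.Grp8

/-!
# Selmer classes modulo two
-/

open Polynomial WeierstrassCurve WeierstrassCurve.Affine

open scoped Classical

namespace Pool.Agent.Lib.MP_89bcae_ag

set_option linter.unusedSectionVars false

section

variable {k F L Ω : Type*} [Field k] [Field F] [Algebra k F] [Algebra.IsAlgebraic k F]
  [IsAlgClosed F] [Field L] [Field Ω]
  [Algebra F[X] L] [IsFractionRing F[X] L] [Algebra L Ω] [Algebra F[X] Ω] [IsScalarTower F[X] L Ω]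
  [Algebra k[X] L] [Algebra k[X] Ω] [IsScalarTower k[X] L Ω]
  [IsGalois L Ω] [IsSepClosed Ω] [IsSepClosure L Ω]

variable (hk : ∀ p : k[X], algebraMap k[X] L p = algebraMap F[X] L (p.map (algebraMap k F)))

/-- The properties of the local conditions. -/
structure SelAx (W : Affine k[X]) (g D : F[X])
    (LT : ((Ω ≃ₐ[L] Ω) → (W.baseChange Ω).Point) → Prop) : Prop where
  add : ∀ c c', LT c → LT c' → LT (c + c')
  neg : ∀ c, LT c → LT (-c)
  cob : ∀ q : (W.baseChange Ω).Point,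
    LT (fun σ : Ω ≃ₐ[L] Ω => Point.map (W' := W) (σ : Ω →ₐ[L] Ω) q - q)
  conj : ∀ (γ : Ω ≃ₐ[k[X]] Ω) (c : (Ω ≃ₐ[L] Ω) → (W.baseChange Ω).Point), LT c →
    LT (fun σ => Point.map (W' := W) (γ : Ω →ₐ[k[X]] Ω) (c (cj hk γ σ)))
  root : ∀ c : (Ω ≃ₐ[L] Ω) → (W.baseChange Ω).Point, (∀ σ, 2 • c σ = 0) → LT c →
    ∀ (Z : Finset F) (b : Ω → Ω), IsDesc W g D c Z b →
      ∀ β ∈ Z, D.eval (g.eval β) ≠ 0 → (derivative g).eval β = 0

variable {W : Affine k[X]} {LT : ((Ω ≃ₐ[L] Ω) → (W.baseChange Ω).Point) → Prop}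

/-- Selmer cocycles. -/
structure IsSel8 (W : Affine k[X]) (LT : ((Ω ≃ₐ[L] Ω) → (W.baseChange Ω).Point) → Prop)
    (c : ℕ → (Ω ≃ₐ[L] Ω) → (W.baseChange Ω).Point) : Prop where
  tc : TC W c
  lt : ∀ n, LT (c n)

/-- Cocycles with trivial class. -/
def IsTriv8 (W : Affine k[X]) (c : ℕ → (Ω ≃ₐ[L] Ω) → (W.baseChange Ω).Point) : Prop :=
  ∀ n, ∃ Q : (W.baseChange Ω).Point, 2 ^ n • Q = 0 ∧
    ∀ σ : Ω ≃ₐ[L] Ω, c n σ = Point.map (W' := W) (σ : Ω →ₐ[L] Ω) Q - Q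

variable {g D : k[X]}

variable {hk} in
lemma SelAx.zero (h : SelAx hk W (g.map (algebraMap k F)) (D.map (algebraMap k F)) LT) :
    LT 0 := by
  have := h.cob 0
  have h0 : (fun σ : Ω ≃ₐ[L] Ω => Point.map (W' := W) (σ : Ω →ₐ[L] Ω)
      (0 : (W.baseChange Ω).Point) - 0) = 0 := by
    funext σ
    rw [map_zero, sub_zero]
    rfl
  rwa [h0] at this

/-- The group of Selmer cocycles. -/
def S8 (h : SelAx hk W (g.map (algebraMap k F)) (D.map (algebraMap k F)) LT) :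
    AddSubgroup (ℕ → (Ω ≃ₐ[L] Ω) → (W.baseChange Ω).Point) where
  carrier := {c | IsSel8 W LT c}
  zero_mem' := ⟨TC.zero_tc, fun _ => h.zero⟩
  add_mem' := fun ha hb => ⟨ha.tc.add hb.tc, fun n => h.add _ _ (ha.lt n) (hb.lt n)⟩
  neg_mem' := fun ha => ⟨ha.tc.neg, fun n => h.neg _ (ha.lt n)⟩

/-- The group of Selmer cocycles with trivial class. -/
def T8 (h : SelAx hk W (g.map (algebraMap k F)) (D.map (algebraMap k F)) LT) :
    AddSubgroup (ℕ → (Ω ≃ₐ[L] Ω) → (W.baseChange Ω).Point) where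
  carrier := {c | IsSel8 W LT c ∧ IsTriv8 W c}
  zero_mem' := by
    refine ⟨(S8 hk h).zero_mem, fun n => ⟨0, smul_zero _, fun σ => ?_⟩⟩
    rw [map_zero, sub_zero]
    rfl
  add_mem' := by
    rintro a b ⟨ha, ha'⟩ ⟨hb, hb'⟩
    refine ⟨(S8 hk h).add_mem ha hb, fun n => ?_⟩
    obtain ⟨Q, hQ, h1⟩ := ha' n
    obtain ⟨Q', hQ', h2⟩ := hb' n
    refine ⟨Q + Q', by rw [smul_add, hQ, hQ', add_zero], fun σ => ?_⟩
    change a n σ + b n σ = _
    rw [h1, h2, map_add]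
    abel
  neg_mem' := by
    rintro a ⟨ha, ha'⟩
    refine ⟨(S8 hk h).neg_mem ha, fun n => ?_⟩
    obtain ⟨Q, hQ, h1⟩ := ha' n
    refine ⟨-Q, by rw [smul_neg, hQ, neg_zero], fun σ => ?_⟩
    change -a n σ = _
    rw [h1, map_neg]
    abel

/-- The standing assumptions. -/
structure Ctx8 (W : Affine k[X]) (g D : k[X])
    (LT : ((Ω ≃ₐ[L] Ω) → (W.baseChange Ω).Point) → Prop) : Prop where
  good : Good g D
  sep : (D.comp g).Separable
  tw : IsTwist L W (g.map (algebraMap k F)) (D.map (algebraMap k F))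
  ax : SelAx hk W (g.map (algebraMap k F)) (D.map (algebraMap k F)) LT

variable {hk}

lemma Ctx8.two (h : Ctx8 hk W g D LT) : (2 : Ω) ≠ 0 := by
  exact two_ne_zero_Om (F := F) L Ω (h.good.map F).two

lemma Ctx8.twO (h : Ctx8 hk W g D LT) :
    IsTwist Ω W (g.map (algebraMap k F)) (D.map (algebraMap k F)) := h.tw.up

lemma mem_S8 (h : Ctx8 hk W g D LT) {c : ℕ → (Ω ≃ₐ[L] Ω) → (W.baseChange Ω).Point} :
    c ∈ S8 hk h.ax ↔ IsSel8 W LT c := Iff.rfl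

lemma mem_T8 (h : Ctx8 hk W g D LT) {c : ℕ → (Ω ≃ₐ[L] Ω) → (W.baseChange Ω).Point} :
    c ∈ T8 hk h.ax ↔ IsSel8 W LT c ∧ IsTriv8 W c := Iff.rfl

lemma TC.two_one {c : ℕ → (Ω ≃ₐ[L] Ω) → (W.baseChange Ω).Point} (hc : TC W c)
    (σ : Ω ≃ₐ[L] Ω) : 2 • c 1 σ = 0 := by
  rw [hc.two, hc.zero]

/-- The group of classes has no two-torsion. -/
lemma Ctx8.torsionFree (h : Ctx8 hk W g D LT)
    {c : ℕ → (Ω ≃ₐ[L] Ω) → (W.baseChange Ω).Point} (hc : IsSel8 W LT c)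
    (h2 : c + c ∈ T8 hk h.ax) : c ∈ T8 hk h.ax := by
  refine ⟨hc, fun n => ?_⟩
  obtain ⟨Q, hQ, h1⟩ := h2.2 (n + 1)
  have h3 : ∀ σ : Ω ≃ₐ[L] Ω, c n σ = Point.map (W' := W) (σ : Ω →ₐ[L] Ω) Q - Q := by
    intro σ
    rw [← h1 σ, ← hc.tc.two n σ, two_nsmul]
    rfl
  refine ⟨Q, ?_, h3⟩
  have hF := h.good.map F
  apply eq_zero_of_fixed_two (L := L) h.two h.twO hF.monic hF.deg hF.der hF.ne
  · rw [← mul_smul, mul_comm, ← pow_succ]
    exact hQ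
  · intro σ
    have h4 : 2 ^ n • c n σ = 2 ^ n • (Point.map (W' := W) (σ : Ω →ₐ[L] Ω) Q - Q) := by
      rw [← h3 σ]
    rw [hc.tc.two_pow, smul_sub, ← map_nsmul] at h4
    exact (sub_eq_zero.mp h4.symm)

/-- The group of classes is separated. -/
lemma Ctx8.separated (h : Ctx8 hk W g D LT)
    {c : ℕ → (Ω ≃ₐ[L] Ω) → (W.baseChange Ω).Point} (hc : IsSel8 W LT c)
    (h2 : ∀ n : ℕ, ∃ y ∈ S8 hk h.ax, c - 2 ^ n • y ∈ T8 hk h.ax) : c ∈ T8 hk h.ax := by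
  refine ⟨hc, fun n => ?_⟩
  obtain ⟨y, hy, hyT⟩ := h2 n
  obtain ⟨Q, hQ, h1⟩ := hyT.2 n
  refine ⟨Q, hQ, fun σ => ?_⟩
  rw [← h1 σ]
  change c n σ = c n σ - 2 ^ n • y n σ
  rw [(show IsSel8 W LT y from hy).tc.two_pow, sub_zero]

/-- The difference of two descent functions with the same divisor. -/
lemma IsDesc.sub_same {g D : F[X]} {c c' : (Ω ≃ₐ[L] Ω) → (W.baseChange Ω).Point} {Z : Finset F}
    {b b' : Ω → Ω} (h : IsDesc W g D c Z b) (h' : IsDesc W g D c' Z b') (h2 : (2 : Ω) ≠ 0)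
    (hW : IsTwist Ω W g D) (hg : g.Monic) (hdeg : g.natDegree = 3)
    (hc' : ∀ σ, 2 • c' σ = 0) : IsDesc W g D (c - c') ∅ (fun θ => b θ / b' θ) where
  sq θ hθ := by
    have hb : b' θ ^ 2 ≠ 0 := pow_ne_zero 2 (h'.ne_zero hθ)
    rw [div_pow, h.sq θ hθ, Finset.prod_empty]
    rw [h'.sq θ hθ] at hb ⊢
    exact div_self hb
  act θ hθ σ := by
    have hθ' := map_mem_rootSet σ hθ
    have hr := rho_two_torsion_mul_self hW.short h2 (algebraMap F[X] Ω D * σ θ) (hc' σ)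
    have hn : -c' σ = c' σ := by
      have : c' σ + c' σ = 0 := by rw [← two_nsmul]; exact hc' σ
      exact neg_eq_of_add_eq_zero_left this
    have hr0 : rho (algebraMap F[X] Ω D * σ θ) (c' σ) ≠ 0 := by
      intro h0
      rw [h0, mul_zero] at hr
      exact zero_ne_one hr
    have hb0 : b' (σ θ) ≠ 0 := h'.ne_zero hθ'
    rw [Pi.sub_apply, sub_eq_add_neg, hn, rho_add hW.short h2 (hW.rt hg hdeg hθ') _ _ (hc' σ),
      map_div₀, h.act θ hθ, h'.act θ hθ, div_eq_iff (mul_ne_zero hr0 hb0)]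
    field_simp
    linear_combination (-(rho (algebraMap F[X] Ω D * σ θ) (c σ)) * b (σ θ)) * hr

/-- The divisor of a class. -/
noncomputable def div8 (W : Affine k[X]) (g D : F[X])
    (c : ℕ → (Ω ≃ₐ[L] Ω) → (W.baseChange Ω).Point) : Finset F :=
  if h : ∃ Z : Finset F, ∃ b : Ω → Ω, IsDesc W g D (c 1) Z b then Classical.choose h else ∅

lemma Ctx8.div_spec (h : Ctx8 hk W g D LT)
    {c : ℕ → (Ω ≃ₐ[L] Ω) → (W.baseChange Ω).Point} (hc : TC W c) :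
    ∃ b : Ω → Ω, IsDesc W (g.map (algebraMap k F)) (D.map (algebraMap k F)) (c 1)
      (div8 W (g.map (algebraMap k F)) (D.map (algebraMap k F)) c) b := by
  have hF := h.good.map F
  obtain ⟨Z, b, hb⟩ := exists_desc (F := F) h.two h.twO hF.monic hF.deg hF.der (c 1) hc.two_one
    (hc.mul 1) (hc.loc 1)
  have hex : ∃ Z : Finset F, ∃ b : Ω → Ω,
      IsDesc W (g.map (algebraMap k F)) (D.map (algebraMap k F)) (c 1) Z b := ⟨Z, b, hb⟩
  rw [div8, dif_pos hex]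
  exact Classical.choose_spec hex

lemma Ctx8.div_eq (h : Ctx8 hk W g D LT)
    {c : ℕ → (Ω ≃ₐ[L] Ω) → (W.baseChange Ω).Point} (hc : TC W c) {Z : Finset F} {b : Ω → Ω}
    (hb : IsDesc W (g.map (algebraMap k F)) (D.map (algebraMap k F)) (c 1) Z b) :
    div8 W (g.map (algebraMap k F)) (D.map (algebraMap k F)) c = Z := by
  have hF := h.good.map F
  obtain ⟨b', hb'⟩ := h.div_spec hc
  exact hb'.unique hb h.two h.twO hF.monic hF.deg hF.der hc.two_one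

/-- A class which is trivial at the first level is divisible by two. -/
lemma Ctx8.half (h : Ctx8 hk W g D LT)
    {c : ℕ → (Ω ≃ₐ[L] Ω) → (W.baseChange Ω).Point} (hc : IsSel8 W LT c)
    {P : (W.baseChange Ω).Point} (hP : 2 • P = 0)
    (hcP : ∀ σ : Ω ≃ₐ[L] Ω, c 1 σ = Point.map (W' := W) (σ : Ω →ₐ[L] Ω) P - P) :
    ∃ z ∈ S8 hk h.ax, c - (z + z) ∈ T8 hk h.ax := by
  have hF := h.good.map F
  obtain ⟨q, hq0, hq1, hq⟩ := exists_seq8 (exists_halves L hF h.twO) 0 P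
    (by rw [← two_nsmul]; exact hP)
  have h1 : ∀ σ : Ω ≃ₐ[L] Ω, c 1 σ = Point.map (W' := W) (σ : Ω →ₐ[L] Ω) (q 1) - q 1 := by
    intro σ; rw [hq1]; exact hcP σ
  set z : ℕ → (Ω ≃ₐ[L] Ω) → (W.baseChange Ω).Point := fun n (σ : Ω ≃ₐ[L] Ω) => c (n + 1) σ -
      (Point.map (W' := W) (σ : Ω →ₐ[L] Ω) (q (n + 1)) - q (n + 1)) with hz
  have hzS : IsSel8 W LT z := by
    refine ⟨hc.tc.half hq h1, fun n => ?_⟩
    have : z n = c (n + 1) + -(fun σ : Ω ≃ₐ[L] Ω =>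
        Point.map (W' := W) (σ : Ω →ₐ[L] Ω) (q (n + 1)) - q (n + 1)) := by
      funext σ
      exact sub_eq_add_neg _ _
    rw [this]
    exact h.ax.add _ _ (hc.lt (n + 1)) (h.ax.neg _ (h.ax.cob _))
  refine ⟨z, hzS, (S8 hk h.ax).sub_mem hc ((S8 hk h.ax).add_mem hzS hzS), fun n =>
    ⟨q n, by rw [two_pow_seq8 hq, hq0], fun σ => ?_⟩⟩
  change c n σ - (z n σ + z n σ) = _
  rw [hz]
  simp only
  rw [← two_nsmul, smul_sub, hc.tc.two, smul_sub, ← map_nsmul, two_nsmul, hq]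
  abel

/-- Two classes have the same divisor if and only if they are congruent modulo two. -/
lemma Ctx8.div_eq_iff (h : Ctx8 hk W g D LT)
    {x y : ℕ → (Ω ≃ₐ[L] Ω) → (W.baseChange Ω).Point} (hx : IsSel8 W LT x) (hy : IsSel8 W LT y) :
    div8 W (g.map (algebraMap k F)) (D.map (algebraMap k F)) x =
      div8 W (g.map (algebraMap k F)) (D.map (algebraMap k F)) y ↔
      ∃ z ∈ S8 hk h.ax, x - y - (z + z) ∈ T8 hk h.ax := by
  have hF := h.good.map F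
  obtain ⟨b, hb⟩ := h.div_spec hx.tc
  obtain ⟨b', hb'⟩ := h.div_spec hy.tc
  constructor
  · intro heq
    rw [← heq] at hb'
    have hsub := hb.sub_same hb' h.two h.twO hF.monic hF.deg hy.tc.two_one
    obtain ⟨P, hP, hcP⟩ := hsub.coboundary h.two h.twO hF.monic hF.deg hF.der hF.ne (by
      intro σ
      rw [Pi.sub_apply, smul_sub, hx.tc.two_one, hy.tc.two_one, sub_zero])
    exact h.half ((S8 hk h.ax).sub_mem hx hy) hP hcP
  · rintro ⟨z, hz, hT⟩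
    obtain ⟨Q, hQ, h1⟩ := hT.2 1
    rw [pow_one] at hQ
    have h3 : ∀ σ : Ω ≃ₐ[L] Ω, x 1 σ = y 1 σ +
        (Point.map (W' := W) (σ : Ω →ₐ[L] Ω) Q - Q) := by
      intro σ
      have h4 := h1 σ
      change x 1 σ - y 1 σ - (z 1 σ + z 1 σ) = _ at h4
      rw [← two_nsmul, (show IsSel8 W LT z from hz).tc.two_one, sub_zero] at h4
      rw [← h4]
      abel
    exact h.div_eq hx.tc (hb'.twist h.two h.twO hF.monic hF.deg hQ h3)

end

end Pool.Agent.Lib.MP_89bcae_ag
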