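import Mathlib
import Pool.Agent.Lib.MP_89bcae_ag.GrpB8

/-!
# Classes fixed by an open subgroup
-/

open Polynomial WeierstrassCurve WeierstrassCurve.Affine

open scoped Classical

namespace Pool.Agent.Lib.MP_89bcae_ag

set_option linter.unusedSectionVars false

section Alg

variable {k F : Type*} [Field k] [Field F] [Algebra k F] [Algebra.IsAlgebraic k F]

lemma exists_pow_fix_one (τ : F ≃ₐ[k] F) (a : F) : ∃ M > 0, (τ ^ M) a = a := by
  have hfin : ((minpoly k a).rootSet F).Finite := Polynomial.rootSet_finite _ _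
  have hne : minpoly k a ≠ 0 := minpoly.ne_zero (Algebra.IsIntegral.isIntegral a)
  have hmem : ∀ n : ℕ, (τ ^ n) a ∈ (minpoly k a).rootSet F := by
    intro n
    rw [Polynomial.mem_rootSet]
    refine ⟨hne, ?_⟩
    have h1 := Polynomial.aeval_algHom_apply ((τ ^ n : F ≃ₐ[k] F) : F →ₐ[k] F) a (minpoly k a)
    rw [minpoly.aeval, map_zero] at h1
    exact h1
  obtain ⟨i, j, hij, h⟩ := Set.Finite.exists_lt_map_eq_of_forall_mem hmem hfin
  refine ⟨j - i, Nat.sub_pos_of_lt hij, ?_⟩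
  apply (τ ^ i).injective
  rw [← AlgEquiv.mul_apply, ← pow_add, Nat.add_sub_cancel' hij.le]
  exact h.symm

lemma exists_pow_fix (τ : F ≃ₐ[k] F) (s : Finset F) : ∃ M > 0, ∀ a ∈ s, (τ ^ M) a = a := by
  induction s using Finset.induction_on with
  | empty => exact ⟨1, one_pos, by simp⟩
  | insert a s ha ih =>
    obtain ⟨M, hM, h⟩ := ih
    obtain ⟨M', hM', h'⟩ := exists_pow_fix_one τ a
    have hfix : ∀ (σ : F ≃ₐ[k] F) (x : F) (n : ℕ), σ x = x → (σ ^ n) x = x := by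
      intro σ x n hσ
      induction n with
      | zero => simp
      | succ n ih => rw [pow_succ, AlgEquiv.mul_apply, hσ, ih]
    refine ⟨M * M', Nat.mul_pos hM hM', fun b hb => ?_⟩
    rcases Finset.mem_insert.mp hb with rfl | hb
    · rw [mul_comm, pow_mul]
      exact hfix _ _ _ h'
    · rw [pow_mul]
      exact hfix _ _ _ (h b hb)

end Alg

section

variable {k F L Ω : Type*} [Field k] [Field F] [Algebra k F] [Algebra.IsAlgebraic k F]
  [IsAlgClosed F] [Field L] [Field Ω]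
  [Algebra F[X] L] [IsFractionRing F[X] L] [Algebra L Ω] [Algebra F[X] Ω] [IsScalarTower F[X] L Ω]
  [Algebra k[X] L] [Algebra k[X] Ω] [IsScalarTower k[X] L Ω]
  [IsGalois L Ω] [IsSepClosed Ω] [IsSepClosure L Ω]

variable (hk : ∀ p : k[X], algebraMap k[X] L p = algebraMap F[X] L (p.map (algebraMap k F)))

/-- The restriction of an automorphism to `F`. -/
noncomputable def resF (γ : Ω ≃ₐ[k[X]] Ω) : F ≃ₐ[k] F :=
  Classical.choose (exists_restrict_aut hk γ)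

lemma resF_spec (γ : Ω ≃ₐ[k[X]] Ω) (p : F[X]) :
    γ (algebraMap F[X] Ω p) = algebraMap F[X] Ω (p.map ((resF hk γ : F ≃ₐ[k] F) : F →+* F)) :=
  Classical.choose_spec (exists_restrict_aut hk γ) p

variable (L Ω) in
include L in
lemma const_injective {a b : F} (h : algebraMap F[X] Ω (C a) = algebraMap F[X] Ω (C b)) :
    a = b :=
  C_injective (algebraMap_Om_injective L h)

lemma resF_unique {γ : Ω ≃ₐ[k[X]] Ω} {τ : F ≃ₐ[k] F}
    (h : ∀ a : F, γ (algebraMap F[X] Ω (C a)) = algebraMap F[X] Ω (C (τ a))) :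
    resF hk γ = τ := by
  ext a
  apply const_injective L Ω
  rw [← h, resF_spec hk, map_C]
  rfl

lemma resF_mul (γ δ : Ω ≃ₐ[k[X]] Ω) : resF hk (γ * δ) = resF hk γ * resF hk δ := by
  apply resF_unique
  intro a
  rw [AlgEquiv.mul_apply, resF_spec hk δ, map_C, resF_spec hk γ, map_C]
  rfl

lemma resF_one : resF hk (1 : Ω ≃ₐ[k[X]] Ω) = 1 := by
  apply resF_unique
  intro a
  rfl

lemma resF_pow (γ : Ω ≃ₐ[k[X]] Ω) (n : ℕ) : resF hk (γ ^ n) = resF hk γ ^ n := by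
  induction n with
  | zero => rw [pow_zero, pow_zero, resF_one]
  | succ n ih => rw [pow_succ, pow_succ, resF_mul, ih]

lemma resF_inv (γ : Ω ≃ₐ[k[X]] Ω) : resF hk γ⁻¹ = (resF hk γ)⁻¹ := by
  rw [eq_inv_iff_mul_eq_one, ← resF_mul, inv_mul_cancel, resF_one]

/-- An automorphism fixing `F` fixes `L`. -/
lemma exists_inner {γ : Ω ≃ₐ[k[X]] Ω} (h : resF hk γ = 1) :
    ∃ σ : Ω ≃ₐ[L] Ω, ∀ x, γ x = σ x := by
  have h1 : ∀ p : F[X], γ (algebraMap F[X] Ω p) = algebraMap F[X] Ω p := by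
    intro p
    rw [resF_spec hk, h]
    congr 1
    exact Polynomial.map_id
  refine ⟨AlgEquiv.ofRingEquiv (f := γ.toRingEquiv) ?_, fun x => rfl⟩
  intro y
  obtain ⟨p, q, hq, rfl⟩ := IsFractionRing.div_surjective (A := F[X]) y
  change γ (algebraMap L Ω (algebraMap F[X] L p / algebraMap F[X] L q)) =
    algebraMap L Ω (algebraMap F[X] L p / algebraMap F[X] L q)
  rw [map_div₀, map_div₀, ← IsScalarTower.algebraMap_apply, ← IsScalarTower.algebraMap_apply,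
    h1, h1]

variable {hk}
variable {W : Affine k[X]} {LT : ((Ω ≃ₐ[L] Ω) → (W.baseChange Ω).Point) → Prop} {g D : k[X]}

lemma Ctx8.map_mem_S (h : Ctx8 hk W g D LT) (γ : Ω ≃ₐ[k[X]] Ω)
    {c : ℕ → (Ω ≃ₐ[L] Ω) → (W.baseChange Ω).Point} (hc : IsSel8 W LT c) :
    IsSel8 W LT (rho8 hk W γ c) :=
  ⟨hc.tc.rho8 hk γ, fun n => h.ax.conj γ _ (hc.lt n)⟩

lemma Ctx8.map_mem_T (h : Ctx8 hk W g D LT) (γ : Ω ≃ₐ[k[X]] Ω)
    {c : ℕ → (Ω ≃ₐ[L] Ω) → (W.baseChange Ω).Point} (hc : c ∈ T8 hk h.ax) :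
    rho8 hk W γ c ∈ T8 hk h.ax := by
  refine ⟨h.map_mem_S γ hc.1, fun n => ?_⟩
  obtain ⟨Q, hQ, h1⟩ := hc.2 n
  refine ⟨Point.map (W' := W) (γ : Ω →ₐ[k[X]] Ω) Q, by rw [← map_nsmul, hQ, map_zero],
    fun σ => ?_⟩
  rw [rho8_apply, h1, map_sub, gamma_sigma_map]

lemma Ctx8.root_facts (h : Ctx8 hk W g D LT) {β : F}
    (hβ : (D.map (algebraMap k F)).eval ((g.map (algebraMap k F)).eval β) = 0) :
    (derivative (D.map (algebraMap k F))).eval ((g.map (algebraMap k F)).eval β) ≠ 0 ∧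
      (derivative (g.map (algebraMap k F))).eval β ≠ 0 := by
  have h1 : ((D.comp g).map (algebraMap k F)).Separable := h.sep.map
  rw [Polynomial.map_comp] at h1
  have h2 := h1.eval₂_derivative_ne_zero (RingHom.id F) (x := β) (by
    rw [eval₂_id, eval_comp]; exact hβ)
  rw [eval₂_id, derivative_comp, eval_mul, eval_comp] at h2
  exact ⟨right_ne_zero_of_mul h2, left_ne_zero_of_mul h2⟩

/-- The divisor of a Selmer class consists of roots of `D ∘ g`. -/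
lemma Ctx8.div_root (h : Ctx8 hk W g D LT)
    {c : ℕ → (Ω ≃ₐ[L] Ω) → (W.baseChange Ω).Point} (hc : IsSel8 W LT c) :
    ∀ β ∈ div8 W (g.map (algebraMap k F)) (D.map (algebraMap k F)) c,
      (D.map (algebraMap k F)).eval ((g.map (algebraMap k F)).eval β) = 0 := by
  intro β hβ
  by_contra hD
  have hF := h.good.map F
  obtain ⟨b, hb⟩ := h.div_spec hc.tc
  have hroot := h.ax.root (c 1) hc.tc.two_one (hc.lt 1) _ b hb
  have h1 := hb.even h.two h.twO hF.monic hF.deg hF.der hF.ne hc.tc.two_one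
    ((g.map (algebraMap k F)).eval β)
  have h2 : (div8 W (g.map (algebraMap k F)) (D.map (algebraMap k F)) c).filter
      (fun β' => (g.map (algebraMap k F)).eval β' = (g.map (algebraMap k F)).eval β) = {β} := by
    ext β'
    rw [Finset.mem_filter, Finset.mem_singleton]
    constructor
    · rintro ⟨h3, h4⟩
      exact double_root_unique hF.monic hF.deg h4 (hroot β' h3 (by rw [h4]; exact hD))
        (hroot β hβ hD)
    · rintro rfl
      exact ⟨hβ, rfl⟩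
  rw [h2, Finset.card_singleton] at h1
  exact absurd h1 (by decide)

lemma Ctx8.div_even (h : Ctx8 hk W g D LT)
    {c : ℕ → (Ω ≃ₐ[L] Ω) → (W.baseChange Ω).Point} (hc : IsSel8 W LT c) (α : F) :
    Even ((div8 W (g.map (algebraMap k F)) (D.map (algebraMap k F)) c).filter
      fun β => (g.map (algebraMap k F)).eval β = α).card := by
  have hF := h.good.map F
  obtain ⟨b, hb⟩ := h.div_spec hc.tc
  exact hb.even h.two h.twO hF.monic hF.deg hF.der hF.ne hc.tc.two_one α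

lemma map_fix (τ : F ≃ₐ[k] F) (p : k[X]) :
    (p.map (algebraMap k F)).map (τ : F →+* F) = p.map (algebraMap k F) := by
  rw [Polynomial.map_map]
  congr 1
  ext x
  exact τ.commutes x

/-- The divisor of the conjugate class. -/
lemma Ctx8.div_map (h : Ctx8 hk W g D LT) (γ : Ω ≃ₐ[k[X]] Ω)
    {c : ℕ → (Ω ≃ₐ[L] Ω) → (W.baseChange Ω).Point} (hc : IsSel8 W LT c) :
    div8 W (g.map (algebraMap k F)) (D.map (algebraMap k F)) (rho8 hk W γ c) =
      (div8 W (g.map (algebraMap k F)) (D.map (algebraMap k F)) c).image (resF hk γ) := by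
  obtain ⟨b, hb⟩ := h.div_spec hc.tc
  have h1 := hb.conj (c' := rho8 hk W γ c 1) (resF_spec hk γ) (map_fix _ g) (map_fix _ D)
    (fun σ => ⟨cj hk γ σ, cj_spec hk γ σ, rfl⟩)
  exact h.div_eq (hc.tc.rho8 hk γ) h1

/-- The automorphisms fixing the roots of `D ∘ g`. -/
noncomputable def Gam1 (hk : ∀ p : k[X], algebraMap k[X] L p =
    algebraMap F[X] L (p.map (algebraMap k F))) (g D : F[X]) : Subgroup (Ω ≃ₐ[k[X]] Ω) where
  carrier := {γ | ∀ β : F, D.eval (g.eval β) = 0 → resF hk γ β = β}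
  one_mem' := by
    intro β _
    rw [resF_one]
    rfl
  mul_mem' := by
    intro γ δ hγ hδ β hβ
    rw [resF_mul, AlgEquiv.mul_apply, hδ β hβ, hγ β hβ]
  inv_mem' := by
    intro γ hγ β hβ
    rw [resF_inv]
    apply (resF hk γ).injective
    rw [← AlgEquiv.mul_apply, mul_inv_cancel, hγ β hβ]
    rfl

lemma Ctx8.cong (h : Ctx8 hk W g D LT) {γ : Ω ≃ₐ[k[X]] Ω}
    (hγ : γ ∈ Gam1 (Ω := Ω) hk (g.map (algebraMap k F)) (D.map (algebraMap k F)))
    {c : ℕ → (Ω ≃ₐ[L] Ω) → (W.baseChange Ω).Point} (hc : IsSel8 W LT c) :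
    ∃ z ∈ S8 hk h.ax, rho8 hk W γ c - c - (z + z) ∈ T8 hk h.ax := by
  rw [← h.div_eq_iff (h.map_mem_S γ hc) hc, h.div_map γ hc]
  ext β
  rw [Finset.mem_image]
  constructor
  · rintro ⟨β', h1, rfl⟩
    rw [hγ β' (h.div_root hc β' h1)]
    exact h1
  · intro h1
    exact ⟨β, h1, hγ β (h.div_root hc β h1)⟩

/-- The classes fixed by the automorphisms fixing a finite subset of `F`. -/
def G8 (h : Ctx8 hk W g D LT) : AddSubgroup (ℕ → (Ω ≃ₐ[L] Ω) → (W.baseChange Ω).Point) where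
  carrier := {c | IsSel8 W LT c ∧ ∃ s : Finset F, ∀ γ : Ω ≃ₐ[k[X]] Ω,
    (∀ a ∈ s, resF hk γ a = a) → rho8 hk W γ c - c ∈ T8 hk h.ax}
  zero_mem' := by
    refine ⟨(S8 hk h.ax).zero_mem, ∅, fun γ _ => ?_⟩
    rw [map_zero, sub_zero]
    exact (T8 hk h.ax).zero_mem
  add_mem' := by
    rintro a b ⟨ha, s, hs⟩ ⟨hb, s', hs'⟩
    refine ⟨(S8 hk h.ax).add_mem ha hb, s ∪ s', fun γ hγ => ?_⟩
    have h1 := hs γ (fun a ha => hγ a (Finset.mem_union_left _ ha))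
    have h2 := hs' γ (fun a ha => hγ a (Finset.mem_union_right _ ha))
    have h3 := (T8 hk h.ax).add_mem h1 h2
    rw [map_add]
    have : rho8 hk W γ a + rho8 hk W γ b - (a + b) =
      rho8 hk W γ a - a + (rho8 hk W γ b - b) := by abel
    rw [this]
    exact h3
  neg_mem' := by
    rintro a ⟨ha, s, hs⟩
    refine ⟨(S8 hk h.ax).neg_mem ha, s, fun γ hγ => ?_⟩
    have h3 := (T8 hk h.ax).neg_mem (hs γ hγ)
    rw [map_neg]
    have : -rho8 hk W γ a - -a = -(rho8 hk W γ a - a) := by abel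
    rw [this]
    exact h3

lemma Ctx8.T_le_G (h : Ctx8 hk W g D LT) : T8 hk h.ax ≤ G8 h := by
  intro c hc
  exact ⟨hc.1, ∅, fun γ _ => (T8 hk h.ax).sub_mem (h.map_mem_T γ hc) hc⟩

lemma Ctx8.G_le_S (h : Ctx8 hk W g D LT) : G8 h ≤ S8 hk h.ax := fun _ hc => hc.1

lemma Ctx8.map_mem_G (h : Ctx8 hk W g D LT) (γ₀ : Ω ≃ₐ[k[X]] Ω)
    {c : ℕ → (Ω ≃ₐ[L] Ω) → (W.baseChange Ω).Point} (hc : c ∈ G8 h) :
    rho8 hk W γ₀ c ∈ G8 h := by
  obtain ⟨hcS, s, hs⟩ := hc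
  refine ⟨h.map_mem_S γ₀ hcS, s.image (resF hk γ₀), fun γ hγ => ?_⟩
  have h1 := hs (γ₀⁻¹ * γ * γ₀) (by
    intro a ha
    rw [resF_mul, resF_mul, AlgEquiv.mul_apply, AlgEquiv.mul_apply,
      hγ _ (Finset.mem_image_of_mem _ ha), resF_inv, ← AlgEquiv.mul_apply, inv_mul_cancel]
    rfl)
  have h2 := h.map_mem_T γ₀ h1
  rw [map_sub, ← end_mul_apply8, ← map_mul] at h2
  have : γ₀ * (γ₀⁻¹ * γ * γ₀) = γ * γ₀ := by group
  rw [this, map_mul, end_mul_apply8] at h2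
  exact h2

lemma Ctx8.G_sat (h : Ctx8 hk W g D LT)
    {c : ℕ → (Ω ≃ₐ[L] Ω) → (W.baseChange Ω).Point} (hc : IsSel8 W LT c) (h2 : c + c ∈ G8 h) :
    c ∈ G8 h := by
  obtain ⟨-, s, hs⟩ := h2
  refine ⟨hc, s, fun γ hγ => ?_⟩
  apply h.torsionFree ((S8 hk h.ax).sub_mem (h.map_mem_S γ hc) hc)
  have h1 := hs γ hγ
  rw [map_add] at h1
  have : rho8 hk W γ c - c + (rho8 hk W γ c - c) =
    rho8 hk W γ c + rho8 hk W γ c - (c + c) := by abel
  rw [this]
  exact h1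

lemma Ctx8.G_fin (h : Ctx8 hk W g D LT) (γ : Ω ≃ₐ[k[X]] Ω)
    {c : ℕ → (Ω ≃ₐ[L] Ω) → (W.baseChange Ω).Point} (hc : c ∈ G8 h) :
    ∃ M > 0, rho8 hk W (γ ^ M) c - c ∈ T8 hk h.ax := by
  obtain ⟨-, s, hs⟩ := hc
  obtain ⟨M, hM, h1⟩ := exists_pow_fix (resF hk γ) s
  refine ⟨M, hM, hs _ fun a ha => ?_⟩
  rw [resF_pow]
  exact h1 a ha

/-- The Kummer cocycle of a sequence of successive halves. -/
noncomputable def del8 (W : Affine k[X]) (q : ℕ → (W.baseChange Ω).Point) :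
    ℕ → (Ω ≃ₐ[L] Ω) → (W.baseChange Ω).Point :=
  fun n σ => Point.map (W' := W) (σ : Ω →ₐ[L] Ω) (q n) - q n

lemma Ctx8.del_mem (h : Ctx8 hk W g D LT) {q : ℕ → (W.baseChange Ω).Point}
    (hq : ∀ n, q (n + 1) + q (n + 1) = q n)
    (h0 : ∀ σ : Ω ≃ₐ[L] Ω, Point.map (W' := W) (σ : Ω →ₐ[L] Ω) (q 0) = q 0) :
    IsSel8 W LT (del8 (L := L) W q) where
  tc :=
    { zero := fun σ => by
        change Point.map (W' := W) (σ : Ω →ₐ[L] Ω) (q 0) - q 0 = 0
        rw [h0, sub_self]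
      two := fun n σ => by
        change 2 • (Point.map (W' := W) (σ : Ω →ₐ[L] Ω) (q (n + 1)) - q (n + 1)) =
          Point.map (W' := W) (σ : Ω →ₐ[L] Ω) (q n) - q n
        rw [smul_sub, ← map_nsmul, two_nsmul, hq]
      mul := fun n σ τ => by
        have e : Point.map (W' := W) ((σ * τ : Ω ≃ₐ[L] Ω) : Ω →ₐ[L] Ω) (q n) =
            Point.map (σ : Ω →ₐ[L] Ω) (Point.map (τ : Ω →ₐ[L] Ω) (q n)) := by
          rw [Point.map_map]; rfl
        change Point.map (W' := W) ((σ * τ : Ω ≃ₐ[L] Ω) : Ω →ₐ[L] Ω) (q n) - q n =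
          (Point.map (W' := W) (σ : Ω →ₐ[L] Ω) (q n) - q n) +
            Point.map (W' := W) (σ : Ω →ₐ[L] Ω) (Point.map (W' := W) (τ : Ω →ₐ[L] Ω) (q n) - q n)
        rw [e, map_sub]
        abel
      loc := fun n => (isLocallyConstant_map8 _).sub (IsLocallyConstant.const _) }
  lt n := h.ax.cob (q n)

end

end Pool.Agent.Lib.MP_89bcae_ag
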