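import Mathlib
import Pool.Agent.Lib.MP_89bcae_ag.GrpC8

/-!
# Classes fixed by an open subgroup: the main argument
-/

open Polynomial WeierstrassCurve WeierstrassCurve.Affine

open scoped Classical

namespace Pool.Agent.Lib.MP_89bcae_ag

set_option linter.unusedSectionVars false

section

variable {k F L Ω : Type*} [Field k] [Field F] [Algebra k F] [Algebra.IsAlgebraic k F]
  [IsAlgClosed F] [Field L] [Field Ω]
  [Algebra F[X] L] [IsFractionRing F[X] L] [Algebra L Ω] [Algebra F[X] Ω] [IsScalarTower F[X] L Ω]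
  [Algebra k[X] L] [Algebra k[X] Ω] [IsScalarTower k[X] L Ω]
  [IsGalois L Ω] [IsSepClosed Ω] [IsSepClosure L Ω]

variable {hk : ∀ p : k[X], algebraMap k[X] L p = algebraMap F[X] L (p.map (algebraMap k F))}
variable {W : Affine k[X]} {LT : ((Ω ≃ₐ[L] Ω) → (W.baseChange Ω).Point) → Prop} {g D : k[X]}

/-- The set of roots `β'` of `D ∘ g` such that the square roots of `PZ g D ζ β'` are moved. -/
noncomputable def v8 (g D : F[X]) (τ : F →+* F) (ζ : Finset F) : Finset F :=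
  (D.comp g).roots.toFinset.filter fun β' => Moves τ (PZ g D ζ β')

lemma Ctx8.mem_v8 (h : Ctx8 hk W g D LT) {τ : F →+* F} {ζ : Finset F} {β : F} :
    β ∈ v8 (g.map (algebraMap k F)) (D.map (algebraMap k F)) τ ζ ↔
      (D.map (algebraMap k F)).eval ((g.map (algebraMap k F)).eval β) = 0 ∧
        Moves τ (PZ (g.map (algebraMap k F)) (D.map (algebraMap k F)) ζ β) := by
  have h1 : (D.map (algebraMap k F)).comp (g.map (algebraMap k F)) ≠ 0 := by
    rw [← Polynomial.map_comp]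
    exact h.sep.map.ne_zero
  rw [v8, Finset.mem_filter, Multiset.mem_toFinset, mem_roots h1, IsRoot.def, eval_comp]

/-- The local formula holds, for a suitable lift, at each root of `D`. -/
def PlaceHyp (L Ω : Type*) [Field L] [Field Ω] [Algebra F[X] L] [Algebra L Ω] [Algebra F[X] Ω]
    [Algebra k[X] L] [Algebra k[X] Ω] [IsScalarTower k[X] L Ω] (W : Affine k[X]) (g D : F[X]) :
    Prop :=
  ∀ α : F, D.eval α = 0 → ∀ τ : F ≃ₐ[k] F, (∀ β, D.eval (g.eval β) = 0 → τ β = β) →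
    ∃ γ : Ω ≃ₐ[k[X]] Ω, (∀ p : F[X], γ (algebraMap F[X] Ω p) =
        algebraMap F[X] Ω (p.map (τ : F →+* F))) ∧
      ∀ (y z : ℕ → (Ω ≃ₐ[L] Ω) → (W.baseChange Ω).Point) (P : (W.baseChange Ω).Point)
        (Z Z' : Finset F) (b b' : Ω → Ω), KeyRel W g D γ (τ : F →+* F) y z P Z Z' b b' →
        ∀ β, g.eval β = α → (β ∈ Z' ↔ Moves (τ : F →+* F) (PZ g D Z β))

/-- The formula for the divisor of `(γ x - x) / 2`. -/
lemma Ctx8.formula (h : Ctx8 hk W g D LT)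
    (hp : PlaceHyp L Ω W (g.map (algebraMap k F)) (D.map (algebraMap k F)))
    {γ : Ω ≃ₐ[k[X]] Ω}
    (hγ : γ ∈ Gam1 (Ω := Ω) hk (g.map (algebraMap k F)) (D.map (algebraMap k F)))
    {x z : ℕ → (Ω ≃ₐ[L] Ω) → (W.baseChange Ω).Point} (hx : IsSel8 W LT x) (hz : IsSel8 W LT z)
    (hT : rho8 hk W γ x - x - (z + z) ∈ T8 hk h.ax) :
    div8 W (g.map (algebraMap k F)) (D.map (algebraMap k F)) z =
      v8 (g.map (algebraMap k F)) (D.map (algebraMap k F)) ((resF hk γ : F ≃ₐ[k] F) : F →+* F)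
        (div8 W (g.map (algebraMap k F)) (D.map (algebraMap k F)) x) := by
  ext β
  rw [h.mem_v8]
  suffices hs : (D.map (algebraMap k F)).eval ((g.map (algebraMap k F)).eval β) = 0 →
      (β ∈ div8 W (g.map (algebraMap k F)) (D.map (algebraMap k F)) z ↔
        Moves ((resF hk γ : F ≃ₐ[k] F) : F →+* F)
          (PZ (g.map (algebraMap k F)) (D.map (algebraMap k F))
            (div8 W (g.map (algebraMap k F)) (D.map (algebraMap k F)) x) β)) by
    constructor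
    · intro hβ
      have h1 := h.div_root hz β hβ
      exact ⟨h1, (hs h1).mp hβ⟩
    · rintro ⟨h1, h2⟩
      exact (hs h1).mpr h2
  intro hβ
  obtain ⟨γ', hγ', hkey⟩ := hp _ hβ (resF hk γ) hγ
  have hres : resF hk γ' = resF hk γ := by
    apply resF_unique
    intro a
    rw [hγ', map_C]
    rfl
  -- replace `γ` by `γ'`
  obtain ⟨σ₀, hσ₀⟩ := exists_inner hk (γ := γ⁻¹ * γ') (by
    rw [resF_mul, resF_inv, hres, inv_mul_cancel])
  have h1 : rho8 hk W (γ⁻¹ * γ') x - x ∈ T8 hk h.ax := by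
    refine ⟨(S8 hk h.ax).sub_mem (h.map_mem_S _ hx) hx, fun n => ?_⟩
    exact ⟨x n σ₀, hx.tc.two_pow n σ₀, fun σ => rho8_inner hk hx.tc hσ₀ n σ⟩
  have h2 := h.map_mem_T γ h1
  rw [map_sub, ← end_mul_apply8, ← map_mul, mul_inv_cancel_left] at h2
  have h3 : rho8 hk W γ' x - x - (z + z) ∈ T8 hk h.ax := by
    have := (T8 hk h.ax).add_mem h2 hT
    have e : rho8 hk W γ' x - rho8 hk W γ x + (rho8 hk W γ x - x - (z + z)) =
      rho8 hk W γ' x - x - (z + z) := by abel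
    rwa [e] at this
  obtain ⟨P, hP, hrel⟩ := h3.2 2
  obtain ⟨b, hb⟩ := h.div_spec hx.tc
  obtain ⟨b', hb'⟩ := h.div_spec hz.tc
  refine hkey x z P _ _ b b' ⟨hx.tc, hz.tc, hP, ?_, hb, hb', ?_, exists_conj hk γ'⟩ β rfl
  · intro σ' σ hσ
    have h4 := hrel σ
    change Point.map (W' := W) (γ' : Ω →ₐ[k[X]] Ω) (x 2 (cj hk γ' σ)) - x 2 σ -
      (z 2 σ + z 2 σ) = _ at h4
    rw [cj_unique hk hσ, ← two_nsmul, hz.tc.two 1] at h4
    rw [← h4]
    abel
  · intro β' hβ'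
    exact hγ β' (h.div_root hx β' hβ')

/-- The classes congruent modulo two to the class of a point of `M`. -/
def B8 (h : Ctx8 hk W g D LT) (M : AddSubgroup (W.baseChange Ω).Point) :
    AddSubgroup (ℕ → (Ω ≃ₐ[L] Ω) → (W.baseChange Ω).Point) where
  carrier := {c | ∃ q : ℕ → (W.baseChange Ω).Point, q 0 ∈ M ∧ (∀ n, q (n + 1) + q (n + 1) = q n) ∧
    ∃ z ∈ S8 hk h.ax, c - del8 W q - (z + z) ∈ T8 hk h.ax}
  zero_mem' := by
    refine ⟨0, M.zero_mem, fun n => by simp, 0, (S8 hk h.ax).zero_mem, ?_⟩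
    have : (0 : ℕ → (Ω ≃ₐ[L] Ω) → (W.baseChange Ω).Point) - del8 W 0 - (0 + 0) = 0 := by
      funext n σ
      change (0 : (W.baseChange Ω).Point) - (Point.map (W' := W) (σ : Ω →ₐ[L] Ω) 0 - 0) -
        (0 + 0) = 0
      rw [map_zero]
      abel
    rw [this]
    exact (T8 hk h.ax).zero_mem
  add_mem' := by
    rintro a b ⟨q, hq0, hq, z, hz, hT⟩ ⟨q', hq0', hq', z', hz', hT'⟩
    refine ⟨q + q', M.add_mem hq0 hq0', fun n => ?_, z + z', (S8 hk h.ax).add_mem hz hz', ?_⟩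
    · change q (n + 1) + q' (n + 1) + (q (n + 1) + q' (n + 1)) = q n + q' n
      rw [← hq n, ← hq' n]
      abel
    · have := (T8 hk h.ax).add_mem hT hT'
      have e : a + b - del8 W (q + q') - (z + z' + (z + z')) =
          a - del8 W q - (z + z) + (b - del8 W q' - (z' + z')) := by
        have : del8 (L := L) W (q + q') = del8 W q + del8 W q' := by
          funext n σ
          change Point.map (W' := W) (σ : Ω →ₐ[L] Ω) (q n + q' n) - (q n + q' n) =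
            (Point.map (W' := W) (σ : Ω →ₐ[L] Ω) (q n) - q n) +
              (Point.map (W' := W) (σ : Ω →ₐ[L] Ω) (q' n) - q' n)
          rw [map_add]
          abel
        rw [this]
        abel
      rw [e]
      exact this
  neg_mem' := by
    rintro a ⟨q, hq0, hq, z, hz, hT⟩
    refine ⟨-q, M.neg_mem hq0, fun n => ?_, -z, (S8 hk h.ax).neg_mem hz, ?_⟩
    · change -q (n + 1) + -q (n + 1) = -q n
      rw [← hq n]
      abel
    · have := (T8 hk h.ax).neg_mem hT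
      have e : -a - del8 W (-q) - (-z + -z) = -(a - del8 W q - (z + z)) := by
        have : del8 (L := L) W (-q) = -del8 W q := by
          funext n σ
          change Point.map (W' := W) (σ : Ω →ₐ[L] Ω) (-q n) - (-q n) =
            -(Point.map (W' := W) (σ : Ω →ₐ[L] Ω) (q n) - q n)
          rw [map_neg]
          abel
        rw [this]
        abel
      rw [e]
      exact this

lemma Ctx8.T_le_B (h : Ctx8 hk W g D LT) (M : AddSubgroup (W.baseChange Ω).Point) :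
    T8 hk h.ax ≤ B8 h M := by
  intro c hc
  refine ⟨0, M.zero_mem, fun n => by simp, 0, (S8 hk h.ax).zero_mem, ?_⟩
  have : c - del8 W 0 - (0 + 0) = c := by
    funext n σ
    change c n σ - (Point.map (W' := W) (σ : Ω →ₐ[L] Ω) 0 - 0) - (0 + 0) = c n σ
    rw [map_zero]
    abel
  rw [this]
  exact hc

/-- Points over `L` are defined over a finite extension of `k(t)`. -/
lemma exists_finset_fix {P : (W.baseChange Ω).Point}
    (hP : ∀ σ : Ω ≃ₐ[L] Ω, Point.map (W' := W) (σ : Ω →ₐ[L] Ω) P = P) :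
    ∃ s : Finset F, ∀ γ : Ω ≃ₐ[k[X]] Ω, (∀ a ∈ s, resF hk γ a = a) →
      Point.map (W' := W) (γ : Ω →ₐ[k[X]] Ω) P = P := by
  have hone : ∀ x : Ω, (∀ σ : Ω ≃ₐ[L] Ω, σ x = x) → ∃ s : Finset F, ∀ γ : Ω ≃ₐ[k[X]] Ω,
      (∀ a ∈ s, resF hk γ a = a) → γ x = x := by
    intro x hx
    obtain ⟨y, rfl⟩ := exists_of_fixed (F := L) (x := x) hx
    obtain ⟨p, q, hq, rfl⟩ := IsFractionRing.div_surjective (A := F[X]) y
    refine ⟨p.coeffs ∪ q.coeffs, fun γ hγ => ?_⟩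
    have hmap : ∀ r : F[X], (∀ a ∈ r.coeffs, resF hk γ a = a) →
        γ (algebraMap F[X] Ω r) = algebraMap F[X] Ω r := by
      intro r hr
      rw [resF_spec hk]
      congr 1
      ext n
      rw [coeff_map]
      by_cases hn : r.coeff n = 0
      · rw [hn, map_zero]
      · exact hr _ (coeff_mem_coeffs hn)
    rw [map_div₀, map_div₀, ← IsScalarTower.algebraMap_apply, ← IsScalarTower.algebraMap_apply,
      hmap p (fun a ha => hγ a (Finset.mem_union_left _ ha)),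
      hmap q (fun a ha => hγ a (Finset.mem_union_right _ ha))]
  rcases P with _ | ⟨x, y, hxy⟩
  · exact ⟨∅, fun γ _ => rfl⟩
  · have h' : ∀ σ : Ω ≃ₐ[L] Ω, σ x = x ∧ σ y = y := by
      intro σ
      have := hP σ
      rw [Point.map_some] at this
      simp only [Point.some.injEq] at this
      exact this
    obtain ⟨s, hs⟩ := hone x fun σ => (h' σ).1
    obtain ⟨s', hs'⟩ := hone y fun σ => (h' σ).2
    refine ⟨s ∪ s', fun γ hγ => ?_⟩
    rw [Point.map_some]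
    simp only [Point.some.injEq]
    exact ⟨hs γ fun a ha => hγ a (Finset.mem_union_left _ ha),
      hs' γ fun a ha => hγ a (Finset.mem_union_right _ ha)⟩

/-- The class of a point over `L` is fixed by an open subgroup. -/
lemma Ctx8.del_mem_G (h : Ctx8 hk W g D LT) {q : ℕ → (W.baseChange Ω).Point}
    (hq : ∀ n, q (n + 1) + q (n + 1) = q n)
    (h0 : ∀ σ : Ω ≃ₐ[L] Ω, Point.map (W' := W) (σ : Ω →ₐ[L] Ω) (q 0) = q 0) :
    del8 W q ∈ G8 h := by
  have hS := h.del_mem hq h0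
  obtain ⟨s, hs⟩ := exists_finset_fix (hk := hk) h0
  refine ⟨hS, s, fun γ hγ => ⟨(S8 hk h.ax).sub_mem (h.map_mem_S γ hS) hS, fun n => ?_⟩⟩
  refine ⟨Point.map (W' := W) (γ : Ω →ₐ[k[X]] Ω) (q n) - q n, ?_, fun σ => ?_⟩
  · rw [smul_sub, ← map_nsmul, two_pow_seq8 hq, hs γ hγ, sub_self]
  · change Point.map (W' := W) (γ : Ω →ₐ[k[X]] Ω)
      (Point.map (W' := W) (cj hk γ σ : Ω →ₐ[L] Ω) (q n) - q n) -
        (Point.map (W' := W) (σ : Ω →ₐ[L] Ω) (q n) - q n) = _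
    rw [map_sub, gamma_sigma_map, map_sub]
    abel

/-- The main theorem in the abstract setting. -/
theorem Ctx8.main (h : Ctx8 hk W g D LT)
    (hp : PlaceHyp L Ω W (g.map (algebraMap k F)) (D.map (algebraMap k F)))
    (M : AddSubgroup (W.baseChange Ω).Point)
    (hM : ∀ P ∈ M, ∀ σ : Ω ≃ₐ[L] Ω, Point.map (W' := W) (σ : Ω →ₐ[L] Ω) P = P)
    (hH : ∀ ζ : Finset F, ζ.Nonempty →
      (∀ β ∈ ζ, (D.map (algebraMap k F)).eval ((g.map (algebraMap k F)).eval β) = 0) →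
      (∀ α, Even (ζ.filter fun β => (g.map (algebraMap k F)).eval β = α).card) →
      (∃ τ : F ≃ₐ[k] F, (∀ β, (D.map (algebraMap k F)).eval
          ((g.map (algebraMap k F)).eval β) = 0 → τ β = β) ∧
        v8 (g.map (algebraMap k F)) (D.map (algebraMap k F)) (τ : F →+* F) ζ ≠ ζ ∧
        v8 (g.map (algebraMap k F)) (D.map (algebraMap k F)) (τ : F →+* F) ζ ≠ ∅) ∨
      (∃ q : ℕ → (W.baseChange Ω).Point, q 0 ∈ M ∧ (∀ n, q (n + 1) + q (n + 1) = q n) ∧
        div8 (L := L) W (g.map (algebraMap k F)) (D.map (algebraMap k F)) (del8 W q) = ζ))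
    {c : ℕ → (Ω ≃ₐ[L] Ω) → (W.baseChange Ω).Point} (hc : c ∈ G8 h) (n : ℕ) :
    ∃ Q : (W.baseChange Ω).Point, 2 ^ n • Q ∈ M ∧
      ∀ σ : Ω ≃ₐ[L] Ω, c n σ = Point.map (W' := W) (σ : Ω →ₐ[L] Ω) Q - Q := by
  set gF := g.map (algebraMap k F) with hgF
  set DF := D.map (algebraMap k F) with hDF
  have hne : DF.comp gF ≠ 0 := by
    rw [hgF, hDF, ← Polynomial.map_comp]
    exact h.sep.map.ne_zero
  have a1 : ∀ γ : Ω ≃ₐ[k[X]] Ω, ∀ x ∈ S8 hk h.ax, rho8 hk W γ x ∈ S8 hk h.ax :=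
    fun γ x hx => h.map_mem_S γ ((mem_S8 h).mp hx)
  have a2 : ∀ γ : Ω ≃ₐ[k[X]] Ω, ∀ x ∈ T8 hk h.ax, rho8 hk W γ x ∈ T8 hk h.ax :=
    fun γ x hx => h.map_mem_T γ hx
  have a3 : ∀ x ∈ S8 hk h.ax, x + x ∈ T8 hk h.ax → x ∈ T8 hk h.ax :=
    fun x hx h2 => h.torsionFree ((mem_S8 h).mp hx) h2
  have a4 : ∀ x ∈ S8 hk h.ax, (∀ n : ℕ, ∃ y ∈ S8 hk h.ax, x - 2 ^ n • y ∈ T8 hk h.ax) →
      x ∈ T8 hk h.ax := fun x hx h2 => h.separated ((mem_S8 h).mp hx) h2
  have a5 : ∀ γ ∈ Gam1 (Ω := Ω) hk gF DF, ∀ x ∈ S8 hk h.ax, ∃ z ∈ S8 hk h.ax,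
      rho8 hk W γ x - x - (z + z) ∈ T8 hk h.ax := fun γ hγ x hx => h.cong hγ ((mem_S8 h).mp hx)
  have a6 : ∀ γ ∈ Gam1 (Ω := Ω) hk gF DF, ∀ x ∈ G8 h, rho8 hk W γ x ∈ G8 h :=
    fun γ _ x hx => h.map_mem_G γ hx
  have a7 : ∀ x ∈ S8 hk h.ax, x + x ∈ G8 h → x ∈ G8 h :=
    fun x hx h2 => h.G_sat ((mem_S8 h).mp hx) h2
  have a8 : ∀ γ ∈ Gam1 (Ω := Ω) hk gF DF, ∀ x ∈ G8 h, ∃ M > 0,
      rho8 hk W (γ ^ M) x - x ∈ T8 hk h.ax := fun γ _ x hx => h.G_fin γ hx
  have a9 : ∀ x ∈ S8 hk h.ax, ∀ y ∈ S8 hk h.ax, div8 W gF DF x = div8 W gF DF y ↔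
      ∃ z ∈ S8 hk h.ax, x - y - (z + z) ∈ T8 hk h.ax :=
    fun x hx y hy => h.div_eq_iff ((mem_S8 h).mp hx) ((mem_S8 h).mp hy)
  have a10 : ∀ γ ∈ Gam1 (Ω := Ω) hk gF DF, ∀ x ∈ S8 hk h.ax, ∀ z ∈ S8 hk h.ax,
      rho8 hk W γ x - x - (z + z) ∈ T8 hk h.ax → div8 W gF DF z =
        v8 gF DF ((resF hk γ : F ≃ₐ[k] F) : F →+* F) (div8 W gF DF x) :=
    fun γ hγ x hx z hz hT => h.formula hp hγ ((mem_S8 h).mp hx) ((mem_S8 h).mp hz) hT
  have a11 : (div8 (L := L) (Ω := Ω) W gF DF ''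
      (S8 hk h.ax : Set (ℕ → (Ω ≃ₐ[L] Ω) → (W.baseChange Ω).Point))).Finite := by
    apply (Finset.finite_toSet (DF.comp gF).roots.toFinset.powerset).subset
    rintro _ ⟨x, hx, rfl⟩
    rw [Finset.mem_coe, Finset.mem_powerset]
    intro β hβ
    rw [Multiset.mem_toFinset, mem_roots hne, IsRoot.def, eval_comp]
    exact h.div_root hx β hβ
  have h0 : div8 (L := L) (Ω := Ω) W gF DF 0 = ∅ := by
    have hz : IsSel8 W LT 0 := (S8 hk h.ax).zero_mem
    apply h.div_eq hz.tc (b := fun _ => 1)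
    refine ⟨fun θ _ => by simp, fun θ _ σ => ?_⟩
    change σ 1 = rho _ (0 : (W.baseChange Ω).Point) * 1
    rw [rho_zero, map_one, one_mul]
  have a12 : ∀ x ∈ G8 h, x ∉ B8 h M → ∃ γ ∈ Gam1 (Ω := Ω) hk gF DF,
      v8 gF DF ((resF hk γ : F ≃ₐ[k] F) : F →+* F) (div8 W gF DF x) ≠ div8 W gF DF x ∧
      v8 gF DF ((resF hk γ : F ≃ₐ[k] F) : F →+* F) (div8 W gF DF x) ≠
        div8 (L := L) (Ω := Ω) W gF DF 0 := by
    intro x hx hxB
    have hxS : IsSel8 W LT x := hx.1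
    have hnotM : ∀ q : ℕ → (W.baseChange Ω).Point, q 0 ∈ M →
        (∀ n, q (n + 1) + q (n + 1) = q n) → div8 (L := L) (Ω := Ω) W gF DF (del8 W q) ≠
          div8 W gF DF x := by
      intro q hq0 hq heq
      apply hxB
      obtain ⟨z, hz, hT⟩ := (h.div_eq_iff hxS (h.del_mem hq (hM _ hq0))).mp heq.symm
      exact ⟨q, hq0, hq, z, hz, hT⟩
    have hnonempty : (div8 W gF DF x).Nonempty := by
      rw [Finset.nonempty_iff_ne_empty]
      intro he
      apply hnotM 0 M.zero_mem (fun n => by simp)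
      rw [he, ← h0]
      congr 1
    rcases hH _ hnonempty (h.div_root hxS) (h.div_even hxS) with ⟨τ, h1, h2, h3⟩ | ⟨q, h1, h2, h3⟩
    · obtain ⟨γ, hγ⟩ := exists_lift_aut (Ω := Ω) hk τ
      have hres : resF hk γ = τ := by
        apply resF_unique
        intro a
        rw [hγ, map_C]
        rfl
      refine ⟨γ, fun β hβ => by rw [hres]; exact h1 β hβ, ?_, ?_⟩
      · rw [hres]
        exact h2
      · rw [hres, h0]
        exact h3
    · exact absurd h3 (hnotM q h1 h2)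
  -- every class fixed by an open subgroup is congruent to a point of `M`
  have hB : ∀ x ∈ G8 h, x ∈ B8 h M :=
    rel_mem_of_no_eigen (A := ℕ → (Ω ≃ₐ[L] Ω) → (W.baseChange Ω).Point) (Γ := Ω ≃ₐ[k[X]] Ω)
      (ι := Finset F) (rho8 hk W) (Gam1 (Ω := Ω) hk gF DF) (S8 hk h.ax)
      (T8 hk h.ax) a1 a2 a3 a4 a5 (G8 h) h.T_le_G h.G_le_S a6 a7 a8 (div8 W gF DF) a11 a9
      (fun γ ζ => v8 gF DF ((resF hk γ : F ≃ₐ[k] F) : F →+* F) ζ) a10 (B8 h M) (h.T_le_B M) a12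
  -- iterate
  have hiter : ∀ n : ℕ, ∀ x ∈ G8 h, ∃ q : ℕ → (W.baseChange Ω).Point, q 0 ∈ M ∧
      (∀ n, q (n + 1) + q (n + 1) = q n) ∧ ∃ w ∈ G8 h, x - del8 W q - 2 ^ n • w ∈ T8 hk h.ax := by
    intro n
    induction n with
    | zero =>
      intro x hx
      refine ⟨0, M.zero_mem, fun n => by simp, x, hx, ?_⟩
      have : x - del8 W 0 - 2 ^ 0 • x = 0 := by
        funext n σ
        change x n σ - (Point.map (W' := W) (σ : Ω →ₐ[L] Ω) 0 - 0) - 2 ^ 0 • x n σ = 0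
        rw [map_zero, pow_zero, one_smul]
        abel
      rw [this]
      exact (T8 hk h.ax).zero_mem
    | succ n ih =>
      intro x hx
      obtain ⟨q, hq0, hq, w, hw, hT⟩ := ih x hx
      obtain ⟨q', hq0', hq', z, hz, hT'⟩ := hB w hw
      have hzG : z ∈ G8 h := by
        apply h.G_sat hz
        have e : z + z = w - del8 W q' - (w - del8 W q' - (z + z)) := by abel
        rw [e]
        exact (G8 h).sub_mem ((G8 h).sub_mem hw (h.del_mem_G hq' (hM _ hq0'))) (h.T_le_G hT')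
      refine ⟨q + 2 ^ n • q', M.add_mem hq0 (M.nsmul_mem hq0' _), fun m => ?_, z, hzG, ?_⟩
      · change q (m + 1) + 2 ^ n • q' (m + 1) + (q (m + 1) + 2 ^ n • q' (m + 1)) =
          q m + 2 ^ n • q' m
        rw [← hq m, ← hq' m, smul_add]
        abel
      · have := (T8 hk h.ax).add_mem hT ((T8 hk h.ax).nsmul_mem hT' (2 ^ n))
        have e : x - del8 W (q + 2 ^ n • q') - 2 ^ (n + 1) • z =
            x - del8 W q - 2 ^ n • w + 2 ^ n • (w - del8 W q' - (z + z)) := by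
          have e1 : del8 (L := L) W (q + 2 ^ n • q') = del8 W q + 2 ^ n • del8 W q' := by
            funext m σ
            change Point.map (W' := W) (σ : Ω →ₐ[L] Ω) (q m + 2 ^ n • q' m) -
              (q m + 2 ^ n • q' m) = (Point.map (W' := W) (σ : Ω →ₐ[L] Ω) (q m) - q m) +
                2 ^ n • (Point.map (W' := W) (σ : Ω →ₐ[L] Ω) (q' m) - q' m)
            rw [map_add, map_nsmul, smul_sub]
            abel
          rw [e1, pow_succ, mul_smul, two_nsmul z, smul_sub, smul_sub]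
          abel
        rw [e]
        exact this
  obtain ⟨q, hq0, hq, w, hw, hT⟩ := hiter n c hc
  obtain ⟨A, hA, hAσ⟩ := hT.2 n
  refine ⟨q n + A, by rw [smul_add, hA, add_zero, two_pow_seq8 hq]; exact hq0, fun σ => ?_⟩
  have h1 := hAσ σ
  change c n σ - (Point.map (W' := W) (σ : Ω →ₐ[L] Ω) (q n) - q n) - 2 ^ n • w n σ = _ at h1
  rw [(show IsSel8 W LT w from hw.1).tc.two_pow, sub_zero] at h1
  rw [sub_eq_iff_eq_add] at h1
  rw [h1, map_add]
  abel

end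

end Pool.Agent.Lib.MP_89bcae_ag
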