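import Mathlib
import Pool.Agent.Lib.MP_89bcae_ag.Place8

/-!
# Residues and square roots in the completions of `F(t)`
-/

open Polynomial IsDedekindDomain Topology

open scoped Classical WithZeroTopology

namespace Pool.Agent.Lib.MP_89bcae_ag

set_option linter.unusedSectionVars false

section Resid

variable {F : Type*} [Field F] (L : Type*) [Field L] [Algebra F[X] L] [IsFractionRing F[X] L]

lemma val_lt_one_of_root (τ : F) {p : F[X]} (hp : p.eval τ = 0) :
    Valued.v (algebraMap F[X] ((placeAt τ).adicCompletion L) p) < 1 := by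
  rw [val_algebraMap, HeightOneSpectrum.intValuation_lt_one_iff_mem]
  change p ∈ Ideal.span {X - C τ}
  rw [Ideal.mem_span_singleton, dvd_iff_isRoot]
  exact hp

/-- Every integral element of the completion at `t = τ` is congruent to a constant. -/
lemma exists_residue (τ : F) (x : (placeAt τ).adicCompletion L) (hx : Valued.v x ≤ 1) :
    ∃ c : F, Valued.v (x - algebraMap F[X] _ (C c)) < 1 := by
  -- approximate by an element of `L`
  obtain ⟨y, hy⟩ : ∃ y : L, Valued.v (x - algebraMap L ((placeAt τ).adicCompletion L) y) < 1 := by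
    have h1 := HeightOneSpectrum.denseRange_algebraMap L (placeAt τ)
    have hcont : Continuous (Valued.v : (placeAt τ).adicCompletion L → WithZero (Multiplicative ℤ)) :=
      Valued.continuous_valuation_of_surjective
        (HeightOneSpectrum.valuedAdicCompletion_surjective L (placeAt τ))
    have h2 : IsOpen {z : (placeAt τ).adicCompletion L | Valued.v (x - z) < 1} := by
      have : {z : (placeAt τ).adicCompletion L | Valued.v (x - z) < 1} =
          (fun z => Valued.v (x - z)) ⁻¹' (Set.Iio (1 : WithZero (Multiplicative ℤ))) := rfl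
      rw [this]
      exact (WithZeroTopology.isOpen_Iio).preimage (hcont.comp (continuous_const.sub continuous_id))
    obtain ⟨z, hz, y, rfl⟩ := h1.inter_open_nonempty _ h2 ⟨x, by simp⟩
    exact ⟨y, hz⟩
  have hy1 : Valued.v (algebraMap L ((placeAt τ).adicCompletion L) y) ≤ 1 := by
    have : algebraMap L ((placeAt τ).adicCompletion L) y =
      x - (x - algebraMap L ((placeAt τ).adicCompletion L) y) := by ring
    rw [this]
    apply le_trans (Valuation.map_sub _ _ _)
    exact max_le hx hy.le
  have hval : ∀ z : L, Valued.v (algebraMap L ((placeAt τ).adicCompletion L) z) =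
      (placeAt τ).valuation L z := fun z =>
    HeightOneSpectrum.valuedAdicCompletion_eq_valuation' (placeAt τ) z
  rw [hval] at hy1
  obtain ⟨a, ha⟩ := HeightOneSpectrum.exists_valuation_sub_lt_of_integer (placeAt τ) hy1 1
  refine ⟨a.eval τ, ?_⟩
  have e1 : x - algebraMap F[X] ((placeAt τ).adicCompletion L) (C (a.eval τ)) =
      (x - algebraMap L ((placeAt τ).adicCompletion L) y) -
        algebraMap L ((placeAt τ).adicCompletion L) (algebraMap F[X] L a - y) +
        algebraMap F[X] ((placeAt τ).adicCompletion L) (a - C (a.eval τ)) := by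
    rw [map_sub, map_sub, ← IsScalarTower.algebraMap_apply]
    ring
  rw [e1]
  apply lt_of_le_of_lt (Valuation.map_add _ _ _)
  apply max_lt
  · apply lt_of_le_of_lt (Valuation.map_sub _ _ _)
    apply max_lt hy
    rw [hval]
    exact ha
  · apply val_lt_one_of_root
    simp

/-- Square roots of one-units. -/
lemma exists_sqrt_one_add {K : Type*} [Field K] [hv : Valued K (WithZero (Multiplicative ℤ))]
    [CompleteSpace K] [T2Space K] (h2K : hv.v (2 : K) = 1) (h3K : hv.v (3 : K) ≤ 1) {ε : K}
    (hvε : hv.v ε < 1) : ∃ u : K, (1 + u) ^ 2 = 1 + ε := by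
  obtain ⟨u, hu, heq⟩ := exists_cubic_root (K := K) (a₀ := -ε) (a₁ := 2 - ε) (a₂ := 3)
    (by rw [Valuation.map_neg]; exact hvε)
    (by rw [Valuation.map_sub_eq_of_lt_left, h2K]; rw [h2K]; exact hvε) h3K
  rw [Valuation.map_neg] at hu
  have hu1 : u + 1 ≠ 0 := by
    intro h0
    have : u = -1 := by linear_combination h0
    rw [this, Valuation.map_neg, map_one] at hu
    rw [← hu] at hvε
    exact lt_irrefl _ hvε
  have h3 : u ^ 2 + 2 * u - ε = 0 := by
    have h4 : (u ^ 2 + 2 * u - ε) * (u + 1) = 0 := by linear_combination heq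
    exact (mul_eq_zero.mp h4).resolve_right hu1
  exact ⟨u, by linear_combination h3⟩

/-- Every unit of the completion at `t = τ` is a square. -/
lemma exists_sqrt_of_unit [IsAlgClosed F] (h2 : (2 : F) ≠ 0) (τ : F)
    (x : (placeAt τ).adicCompletion L) (hx : Valued.v x = 1) : ∃ r, r ^ 2 = x := by
  obtain ⟨c, hc⟩ := exists_residue L τ x hx.le
  have hc0 : c ≠ 0 := by
    rintro rfl
    rw [map_zero, map_zero, sub_zero, hx] at hc
    exact lt_irrefl _ hc
  obtain ⟨s, hs⟩ := IsAlgClosed.exists_pow_nat_eq c (n := 2) (by norm_num)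
  have hvc := val_eq_one L τ (p := C c) (by rw [eval_C]; exact hc0)
  have h2K : Valued.v (2 : (placeAt τ).adicCompletion L) = 1 := by
    have := val_eq_one L τ (p := C 2) (by rw [eval_C]; exact h2)
    rwa [map_ofNat C 2, map_ofNat] at this
  have h3K : Valued.v (3 : (placeAt τ).adicCompletion L) ≤ 1 := by
    have := val_le_one L τ (C 3)
    rwa [map_ofNat C 3, map_ofNat] at this
  have h6 : algebraMap F[X] ((placeAt τ).adicCompletion L) (C s) ^ 2 =
      algebraMap F[X] ((placeAt τ).adicCompletion L) (C c) := by rw [← map_pow, ← C_pow, hs]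
  revert hc hvc h6
  generalize algebraMap F[X] ((placeAt τ).adicCompletion L) (C c) = y
  generalize algebraMap F[X] ((placeAt τ).adicCompletion L) (C s) = z
  intro hc hvc h6
  have hy : y ≠ 0 := by
    intro h0
    rw [h0, map_zero] at hvc
    exact zero_ne_one hvc
  obtain ⟨u, hu⟩ := exists_sqrt_one_add h2K h3K (ε := (x - y) / y) (by
    rw [map_div₀, hvc, div_one]; exact hc)
  refine ⟨z * (1 + u), ?_⟩
  rw [mul_pow, h6, hu]
  field_simp
  ring

end Resid

end Pool.Agent.Lib.MP_89bcae_ag
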