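import Mathlib
import Pool.Agent.Lib.MP_89bcae_ag.GrpD8
import Pool.Agent.Lib.MP_89bcae_ag.Trans8
import Pool.Agent.Lib.MP_89bcae_ag.Resid8

/-!
# The decomposition field at a root of `D`
-/

open Polynomial WeierstrassCurve WeierstrassCurve.Affine IsDedekindDomain

open scoped Classical

namespace Pool.Agent.Lib.MP_89bcae_ag

set_option linter.unusedSectionVars false

section Restrict

variable {L Ω M : Type*} [Field L] [Field Ω] [Field M] [Algebra L Ω] [Algebra L M] [Normal L Ω]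

/-- Two embeddings of a normal extension differ by an automorphism. -/
lemma exists_alg_restrict (j h : Ω →ₐ[L] M) : ∃ σ : Ω ≃ₐ[L] Ω, ∀ x, j (σ x) = h x := by
  let _ : Algebra Ω M := j.toRingHom.toAlgebra
  have : IsScalarTower L Ω M := IsScalarTower.of_algebraMap_eq fun x => (j.commutes x).symm
  exact ⟨h.restrictNormal' Ω, fun x => h.restrictNormal_commutes Ω x⟩

end Restrict

section Field

variable {L Ω Kv M : Type*} [Field L] [Field Ω] [Field Kv] [Field M] [Algebra L Ω] [Algebra L Kv]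
  [Algebra Kv M] [Algebra L M] [IsScalarTower L Kv M]

variable (Kv) in
/-- The elements of `Ω` whose image under `j` lies in `Kv`. -/
def KF (j : Ω →ₐ[L] M) : IntermediateField L Ω where
  carrier := {x | ∃ u : Kv, algebraMap Kv M u = j x}
  mul_mem' := by
    rintro x y ⟨u, hu⟩ ⟨v, hv⟩
    exact ⟨u * v, by rw [map_mul, map_mul, hu, hv]⟩
  add_mem' := by
    rintro x y ⟨u, hu⟩ ⟨v, hv⟩
    exact ⟨u + v, by rw [map_add, map_add, hu, hv]⟩
  algebraMap_mem' := fun x => ⟨algebraMap L Kv x, by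
    rw [AlgHom.commutes, ← IsScalarTower.algebraMap_apply]⟩
  inv_mem' := by
    rintro x ⟨u, hu⟩
    exact ⟨u⁻¹, by rw [map_inv₀, map_inv₀, hu]⟩

lemma mem_KF {j : Ω →ₐ[L] M} {x : Ω} : x ∈ KF Kv j ↔ ∃ u : Kv, algebraMap Kv M u = j x := Iff.rfl

/-- The embedding in `Kv`. -/
noncomputable def toKv (j : Ω →ₐ[L] M) : KF Kv j →+* Kv where
  toFun x := Classical.choose x.2
  map_one' := by
    apply (algebraMap Kv M).injective
    rw [Classical.choose_spec (1 : KF Kv j).2, map_one]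
    exact map_one j
  map_mul' x y := by
    apply (algebraMap Kv M).injective
    rw [Classical.choose_spec (x * y).2, map_mul, Classical.choose_spec x.2,
      Classical.choose_spec y.2]
    exact map_mul j _ _
  map_zero' := by
    apply (algebraMap Kv M).injective
    rw [Classical.choose_spec (0 : KF Kv j).2, map_zero]
    exact map_zero j
  map_add' x y := by
    apply (algebraMap Kv M).injective
    rw [Classical.choose_spec (x + y).2, map_add, Classical.choose_spec x.2,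
      Classical.choose_spec y.2]
    exact map_add j _ _

lemma toKv_spec (j : Ω →ₐ[L] M) (x : KF Kv j) : algebraMap Kv M (toKv j x) = j x :=
  Classical.choose_spec x.2

lemma toKv_eq {j : Ω →ₐ[L] M} {x : KF Kv j} {u : Kv} (h : algebraMap Kv M u = j x) :
    toKv j x = u := by
  apply (algebraMap Kv M).injective
  rw [toKv_spec, h]

end Field

section Tower

variable {k F L Ω : Type*} [Field k] [Field F] [Algebra k F] [Algebra.IsAlgebraic k F]
  [IsAlgClosed F] [Field L] [Field Ω]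
  [Algebra F[X] L] [IsFractionRing F[X] L] [Algebra L Ω] [Algebra F[X] Ω] [IsScalarTower F[X] L Ω]
  [Algebra k[X] L] [Algebra k[X] Ω] [IsScalarTower k[X] L Ω]
  [IsGalois L Ω] [IsSepClosed Ω] [IsSepClosure L Ω]

variable (hk : ∀ p : k[X], algebraMap k[X] L p = algebraMap F[X] L (p.map (algebraMap k F)))

variable {Kv M : Type*} [Field Kv] [Algebra L Kv] [Algebra F[X] Kv] [IsScalarTower F[X] L Kv]
  [Field M] [Algebra Kv M] [IsSepClosure Kv M] [Algebra L M] [IsScalarTower L Kv M]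

include hk in
/-- A lift of the automorphism `τ` of `F` which is compatible with an automorphism of `Kv`. -/
lemma exists_local_lift (j : Ω →ₐ[L] M) (τ : F ≃ₐ[k] F) (φ : Kv ≃+* Kv)
    (hφ : ∀ x : L, φ (algebraMap L Kv x) = algebraMap L Kv (coefL L (τ : F ≃+* F) x)) :
    ∃ γ : Ω ≃ₐ[k[X]] Ω, (∀ p : F[X], γ (algebraMap F[X] Ω p) =
      algebraMap F[X] Ω (p.map (τ : F →+* F))) ∧
      ∃ U : M ≃+* M, (∀ x : Kv, U (algebraMap Kv M x) = algebraMap Kv M (φ x)) ∧
        ∀ x, j (γ x) = U (j x) := by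
  obtain ⟨U, hU⟩ := exists_extend (F := Kv) (Ω := M) φ
  obtain ⟨γ₀, hγ₀⟩ := exists_lift_aut (Ω := Ω) hk τ
  have hγL : ∀ x : L, γ₀ (algebraMap L Ω x) = algebraMap L Ω (coefL L (τ : F ≃+* F) x) := by
    intro x
    obtain ⟨p, q, hq, rfl⟩ := IsFractionRing.div_surjective (A := F[X]) x
    rw [map_div₀, map_div₀, map_div₀, map_div₀, coefL_algebraMap, coefL_algebraMap,
      ← IsScalarTower.algebraMap_apply, ← IsScalarTower.algebraMap_apply,
      ← IsScalarTower.algebraMap_apply, ← IsScalarTower.algebraMap_apply, hγ₀, hγ₀]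
    rfl
  have hUL : ∀ x : L, U (algebraMap L M x) = algebraMap L M (coefL L (τ : F ≃+* F) x) := by
    intro x
    rw [IsScalarTower.algebraMap_apply L Kv M, hU, hφ, ← IsScalarTower.algebraMap_apply]
  -- the second embedding
  let h₁ : Ω →ₐ[L] M :=
    { toRingHom := (U : M →+* M).comp ((j : Ω →+* M).comp (γ₀.symm : Ω →+* Ω))
      commutes' := fun x => by
        change U (j (γ₀.symm (algebraMap L Ω x))) = algebraMap L M x
        have h1 : γ₀.symm (algebraMap L Ω x) =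
            algebraMap L Ω ((coefL L (τ : F ≃+* F)).symm x) := by
          apply γ₀.injective
          rw [AlgEquiv.apply_symm_apply, hγL, RingEquiv.apply_symm_apply]
        rw [h1, j.commutes, hUL, RingEquiv.apply_symm_apply] }
  obtain ⟨σ, hσ⟩ := exists_alg_restrict j h₁
  have hσk : ∀ p : k[X], σ (algebraMap k[X] Ω p) = algebraMap k[X] Ω p := by
    intro p
    rw [IsScalarTower.algebraMap_apply k[X] L Ω, σ.commutes]
  refine ⟨γ₀.trans (AlgEquiv.ofRingEquiv (f := σ.toRingEquiv) hσk), ?_, U, hU, ?_⟩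
  · intro p
    change σ (γ₀ (algebraMap F[X] Ω p)) = _
    rw [hγ₀, IsScalarTower.algebraMap_apply F[X] L Ω, σ.commutes]
  · intro x
    change j (σ (γ₀ x)) = U (j x)
    rw [hσ]
    change U (j (γ₀.symm (γ₀ x))) = U (j x)
    rw [AlgEquiv.symm_apply_apply]

variable {wv : Valuation Kv (WithZero (Multiplicative ℤ))}

lemma toKv_poly (j : Ω →ₐ[L] M) (p : F[X]) :
    toKv j (algebraMap F[X] (KF Kv j) p) = algebraMap F[X] Kv p := by
  apply toKv_eq
  have h1 : ((algebraMap F[X] (KF Kv j) p : KF Kv j) : Ω) = algebraMap F[X] Ω p := rfl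
  rw [h1, IsScalarTower.algebraMap_apply F[X] L Ω, j.commutes,
    IsScalarTower.algebraMap_apply F[X] L Kv, ← IsScalarTower.algebraMap_apply L Kv M]

/-- The restriction of the lift to the decomposition field. -/
lemma exists_gammaK {R : Type*} [CommRing R] [Algebra R Ω] (j : Ω →ₐ[L] M) (φ : Kv ≃+* Kv)
    (γ : Ω ≃ₐ[R] Ω) (U : M ≃+* M) (hU : ∀ x : Kv, U (algebraMap Kv M x) = algebraMap Kv M (φ x))
    (hγ : ∀ x, j (γ x) = U (j x)) :
    ∃ γK : KF Kv j ≃+* KF Kv j, (∀ x : KF Kv j, γ (algebraMap (KF Kv j) Ω x) =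
      algebraMap (KF Kv j) Ω (γK x)) ∧ ∀ x, toKv j (γK x) = φ (toKv j x) := by
  have h1 : ∀ x ∈ KF Kv j, γ x ∈ KF Kv j := by
    rintro x ⟨u, hu⟩
    exact ⟨φ u, by rw [← hU, hu, hγ]⟩
  have h2 : ∀ x ∈ KF Kv j, γ.symm x ∈ KF Kv j := by
    rintro x ⟨u, hu⟩
    refine ⟨φ.symm u, ?_⟩
    apply U.injective
    rw [hU, RingEquiv.apply_symm_apply, hu, ← hγ, AlgEquiv.apply_symm_apply]
  refine ⟨{ toFun := fun x => ⟨γ x, h1 x x.2⟩
            invFun := fun x => ⟨γ.symm x, h2 x x.2⟩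
            left_inv := fun x => Subtype.ext (γ.symm_apply_apply _)
            right_inv := fun x => Subtype.ext (γ.apply_symm_apply _)
            map_mul' := fun x y => Subtype.ext (map_mul γ _ _)
            map_add' := fun x y => Subtype.ext (map_add γ _ _) }, fun x => rfl, fun x => ?_⟩
  apply toKv_eq
  change algebraMap Kv M (φ (toKv j x)) = j (γ (x : Ω))
  rw [← hU, toKv_spec, hγ]

/-- The local data at a root of `D`. -/
lemma keyData_of {g D : F[X]} (h2Ω : (2 : Ω) ≠ 0)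
    (hg : g.Monic) (hdeg : g.natDegree = 3)
    (hd : derivative g ≠ 0) (hD0 : D ≠ 0) {α : F} (hDα : D.eval α = 0)
    (hD' : (derivative D).eval α ≠ 0)
    {β₁ β₂ β₃ : F} (h12 : β₁ ≠ β₂) (h13 : β₁ ≠ β₃) (h23 : β₂ ≠ β₃)
    (hfac : g - C α = (X - C β₁) * (X - C β₂) * (X - C β₃))
    (hover : IsOver wv α) (hsqrt : ∀ x : Kv, wv x = 1 → ∃ r, r ^ 2 = x)
    (hnear : ∀ β, g.eval β = α → ∃ θv ∈ RootSet (Ω := Kv) g,
      wv (θv - algebraMap F[X] Kv (C β)) = WithZero.exp (-1 : ℤ))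
    (j : Ω →ₐ[L] M) (φ : Kv ≃+* Kv) (hφv : ∀ x, wv (φ x) = wv x)
    {R : Type*} [CommRing R] [Algebra R Ω] {τ : F →+* F} {γ : Ω ≃ₐ[R] Ω} {U : M ≃+* M}
    (hγp : ∀ p : F[X], γ (algebraMap F[X] Ω p) = algebraMap F[X] Ω (p.map τ))
    (hU : ∀ x : Kv, U (algebraMap Kv M x) = algebraMap Kv M (φ x))
    (hγ : ∀ x, j (γ x) = U (j x))
    (hgτ : g.map τ = g) (hDτ : D.map τ = D) (hα : τ α = α)
    (hβ : ∀ β, g.eval β = α → τ β = β) :
    ∃ (S : Ω) (γK : KF Kv j ≃+* KF Kv j), KeyData (wv.comap (toKv j)) g D α S γ γK τ := by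
  let _ : Algebra F[X] M := ((algebraMap Kv M).comp (algebraMap F[X] Kv)).toAlgebra
  have t1 : IsScalarTower F[X] Kv M := IsScalarTower.of_algebraMap_eq fun _ => rfl
  have t2 : IsScalarTower F[X] L M := IsScalarTower.of_algebraMap_eq fun p => by
    rw [IsScalarTower.algebraMap_apply F[X] Kv M, IsScalarTower.algebraMap_apply F[X] L Kv,
      ← IsScalarTower.algebraMap_apply L Kv M]
  obtain ⟨γK, hγK, hγKv⟩ := exists_gammaK j φ γ U hU hγ
  have hNZ : NeZero ((2 : ℕ) : Ω) := ⟨by exact_mod_cast h2Ω⟩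
  obtain ⟨S, hS⟩ := IsSepClosed.exists_pow_nat_eq
    (algebraMap F[X] Ω (X - C α)) 2
  have hw : ∀ x : KF Kv j, (wv.comap (toKv j)) x = wv (toKv j x) := fun _ => rfl
  have hwp : ∀ p : F[X], (wv.comap (toKv j)) (algebraMap F[X] (KF Kv j) p) =
      wv (algebraMap F[X] Kv p) := fun p => by rw [hw, toKv_poly]
  have hover' : IsOver (wv.comap (toKv j)) α :=
    ⟨by rw [hwp]; exact hover.unif, fun p hp => by rw [hwp]; exact hover.unit p hp⟩
  -- roots
  have hroot : ∀ θv ∈ RootSet (F := F) (Ω := Kv) g, ∃ x : KF Kv j,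
      algebraMap (KF Kv j) Ω x ∈ RootSet (Ω := Ω) g ∧ toKv j x = θv := by
    intro θv hθv
    have h1 : algebraMap Kv M θv ∈ RootSet (F := F) (Ω := M) g := by
      change ev F M (algebraMap Kv M θv) g = _
      have h3 : (algebraMap Kv M).comp (ev F Kv θv) = ev F M (algebraMap Kv M θv) := by
        apply Polynomial.ringHom_ext
        · intro a
          simp only [RingHom.comp_apply, ev_C]
          rw [← IsScalarTower.algebraMap_apply]
        · simp [ev_X]
      rw [← h3, RingHom.comp_apply, show ev F Kv θv g = _ from hθv,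
        ← IsScalarTower.algebraMap_apply]
    obtain ⟨θ, hθ, hj⟩ := exists_root_of_mem (F := F) hg hdeg hd j h1
    have hmem : θ ∈ KF Kv j := ⟨θv, hj.symm⟩
    exact ⟨⟨θ, hmem⟩, hθ, toKv_eq hj.symm⟩
  have hnear' : ∀ β, g.eval β = α → ∃ x : KF Kv j, algebraMap (KF Kv j) Ω x ∈
      RootSet (Ω := Ω) g ∧ (wv.comap (toKv j)) (x - algebraMap F[X] (KF Kv j) (C β)) =
        WithZero.exp (-1 : ℤ) := by
    intro β hβ
    obtain ⟨θv, h1, h3⟩ := hnear β hβ
    obtain ⟨x, h4, h5⟩ := hroot θv h1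
    refine ⟨x, h4, ?_⟩
    rw [hw, map_sub, h5, toKv_poly]
    exact h3
  -- the three roots
  have hev : ∀ β, g.eval β - α = (β - β₁) * (β - β₂) * (β - β₃) := by
    intro β
    have := congrArg (fun p => p.eval β) hfac
    simpa using this
  have e1 : g.eval β₁ = α := by
    have := hev β₁
    rw [sub_self, zero_mul, zero_mul] at this
    exact sub_eq_zero.mp this
  have e2 : g.eval β₂ = α := by
    have := hev β₂
    rw [sub_self, mul_zero, zero_mul] at this
    exact sub_eq_zero.mp this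
  have e3 : g.eval β₃ = α := by
    have := hev β₃
    rw [sub_self, mul_zero] at this
    exact sub_eq_zero.mp this
  obtain ⟨x₁, m1, n1⟩ := hnear' β₁ e1
  obtain ⟨x₂, m2, n2⟩ := hnear' β₂ e2
  obtain ⟨x₃, m3, n3⟩ := hnear' β₃ e3
  have ne12 : x₁ ≠ x₂ := by
    rintro rfl
    exact h12 ((cg_of_near n1).unique hover' (cg_of_near n2))
  have ne13 : x₁ ≠ x₃ := by
    rintro rfl
    exact h13 ((cg_of_near n1).unique hover' (cg_of_near n3))
  have ne23 : x₂ ≠ x₃ := by
    rintro rfl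
    exact h23 ((cg_of_near n2).unique hover' (cg_of_near n3))
  have hall : ∀ θ ∈ RootSet (Ω := Ω) g, θ = algebraMap (KF Kv j) Ω x₁ ∨
      θ = algebraMap (KF Kv j) Ω x₂ ∨ θ = algebraMap (KF Kv j) Ω x₃ := by
    obtain ⟨θ₁, θ₂, θ₃, t12, t13, t23, hR, -, -⟩ :=
      exists_three_roots (F := F) L (Ω := Ω) hg hdeg hd
    have hinj := (algebraMap (KF Kv j) Ω).injective
    have hsub : ({algebraMap (KF Kv j) Ω x₁, algebraMap (KF Kv j) Ω x₂,
        algebraMap (KF Kv j) Ω x₃} : Finset Ω) ⊆ {θ₁, θ₂, θ₃} := by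
      intro θ hθ
      simp only [Finset.mem_insert, Finset.mem_singleton] at hθ ⊢
      rcases hθ with rfl | rfl | rfl
      · exact (hR _).mp m1
      · exact (hR _).mp m2
      · exact (hR _).mp m3
    have heq := Finset.eq_of_subset_of_card_le hsub (by
      rw [Finset.card_insert_of_notMem (by simp [t12, t13]),
        Finset.card_insert_of_notMem (by simp [t23]), Finset.card_singleton,
        Finset.card_insert_of_notMem (by
          simp only [Finset.mem_insert, Finset.mem_singleton, not_or]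
          exact ⟨fun h => ne12 (hinj h), fun h => ne13 (hinj h)⟩),
        Finset.card_insert_of_notMem (by
          simp only [Finset.mem_singleton]
          exact fun h => ne23 (hinj h)), Finset.card_singleton])
    intro θ hθ
    have h5 : θ ∈ ({θ₁, θ₂, θ₃} : Finset Ω) := by simpa using (hR θ).mp hθ
    rw [← heq] at h5
    simpa using h5
  have hdiff : ∀ (a b : F) (x y : KF Kv j), a ≠ b →
      (wv.comap (toKv j)) (x - algebraMap F[X] (KF Kv j) (C a)) = WithZero.exp (-1 : ℤ) →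
      (wv.comap (toKv j)) (y - algebraMap F[X] (KF Kv j) (C b)) = WithZero.exp (-1 : ℤ) →
      (wv.comap (toKv j)) (x - y) = 1 := by
    intro a b x y hab hx hy
    exact ((cg_of_near hx).sub (cg_of_near hy)).one hover' (sub_ne_zero.mpr hab)
  refine ⟨S, γK, hover', ⟨h2Ω, hover'.unif, ?_, ?_, ?_, ?_, hD0, ?_⟩, hnear', hγp, hγK, ?_,
    hgτ, hDτ, hα, hβ⟩
  · -- square roots of units
    intro x hx
    obtain ⟨r, hr⟩ := hsqrt (toKv j x) hx
    obtain ⟨s, hs⟩ := IsSepClosed.exists_pow_nat_eq (algebraMap (KF Kv j) Ω x) 2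
    have hjs : j s = algebraMap Kv M r ∨ j s = algebraMap Kv M (-r) := by
      have h1 : j s ^ 2 = (algebraMap Kv M r) ^ 2 := by
        rw [← map_pow, hs, ← map_pow, hr, toKv_spec]
        rfl
      have h3 : (j s - algebraMap Kv M r) * (j s + algebraMap Kv M r) = 0 := by
        linear_combination h1
      rcases mul_eq_zero.mp h3 with h | h
      · exact Or.inl (sub_eq_zero.mp h)
      · right
        rw [map_neg]
        linear_combination h
    have hmem : s ∈ KF Kv j := by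
      rcases hjs with h | h
      · exact ⟨r, h.symm⟩
      · exact ⟨-r, h.symm⟩
    exact ⟨⟨s, hmem⟩, Subtype.ext hs⟩
  · intro θ hθ
    rcases hall θ hθ with rfl | rfl | rfl
    · exact ⟨x₁, rfl⟩
    · exact ⟨x₂, rfl⟩
    · exact ⟨x₃, rfl⟩
  · intro x y hx hy hne
    have hinj := (algebraMap (KF Kv j) Ω).injective
    rcases hall _ hx with h | h | h <;> rcases hall _ hy with h' | h' | h' <;>
      (have e := hinj h; have e' := hinj h'; subst e; subst e')
    · exact absurd rfl hne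
    · exact hdiff _ _ _ _ h12 n1 n2
    · exact hdiff _ _ _ _ h13 n1 n3
    · exact hdiff _ _ _ _ (Ne.symm h12) n2 n1
    · exact absurd rfl hne
    · exact hdiff _ _ _ _ h23 n2 n3
    · exact hdiff _ _ _ _ (Ne.symm h13) n3 n1
    · exact hdiff _ _ _ _ (Ne.symm h23) n3 n2
    · exact absurd rfl hne
  · -- `D` has odd valuation
    obtain ⟨D₁, hD₁⟩ : (X - C α) ∣ D := dvd_iff_isRoot.mpr hDα
    have hD₁α : D₁.eval α ≠ 0 := by
      have : (derivative D).eval α = D₁.eval α := by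
        rw [hD₁]
        simp
      rwa [← this]
    have hval : (wv.comap (toKv j)) (algebraMap F[X] (KF Kv j) D) = WithZero.exp (-1 : ℤ) := by
      rw [hD₁, map_mul, map_mul, hover'.unif, hover'.unit _ hD₁α, mul_one]
    unfold lg
    rw [hval, WithZero.log_exp]
    decide
  · rw [hS]
    rfl
  · intro x
    rw [hw, hw, hγKv, hφv]

/-- The local formula at a root of `D`. -/
lemma key_of {g D : F[X]} (h2F : (2 : F) ≠ 0) (h2Ω : (2 : Ω) ≠ 0)
    (hg : g.Monic) (hdeg : g.natDegree = 3)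
    (hd : derivative g ≠ 0) (hD0 : D ≠ 0) {α : F} (hDα : D.eval α = 0)
    (hD' : (derivative D).eval α ≠ 0)
    {β₁ β₂ β₃ : F} (h12 : β₁ ≠ β₂) (h13 : β₁ ≠ β₃) (h23 : β₂ ≠ β₃)
    (hfac : g - C α = (X - C β₁) * (X - C β₂) * (X - C β₃))
    (hover : IsOver wv α) (hsqrt : ∀ x : Kv, wv x = 1 → ∃ r, r ^ 2 = x)
    (hnear : ∀ β, g.eval β = α → ∃ θv ∈ RootSet (Ω := Kv) g,
      wv (θv - algebraMap F[X] Kv (C β)) = WithZero.exp (-1 : ℤ))
    (j : Ω →ₐ[L] M) (φ : Kv ≃+* Kv) (hφv : ∀ x, wv (φ x) = wv x)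
    {R : Type*} [CommRing R] [Algebra R L] [Algebra R Ω] [IsScalarTower R L Ω] {τ : F →+* F}
    {γ : Ω ≃ₐ[R] Ω} {U : M ≃+* M}
    (hγp : ∀ p : F[X], γ (algebraMap F[X] Ω p) = algebraMap F[X] Ω (p.map τ))
    (hU : ∀ x : Kv, U (algebraMap Kv M x) = algebraMap Kv M (φ x))
    (hγ : ∀ x, j (γ x) = U (j x))
    (hgτ : g.map τ = g) (hDτ : D.map τ = D) (hα : τ α = α)
    (hβ : ∀ β, g.eval β = α → τ β = β) {W : Affine R} (hW : IsTwist Ω W g D)
    {y z : ℕ → (Ω ≃ₐ[L] Ω) → (W.baseChange Ω).Point} {P : (W.baseChange Ω).Point}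
    {Z Z' : Finset F} {b b' : Ω → Ω} (hr : KeyRel W g D γ τ y z P Z Z' b b')
    {β : F} (hβα : g.eval β = α) : β ∈ Z' ↔ Moves τ (PZ g D Z β) := by
  obtain ⟨S, γK, hK⟩ := keyData_of h2Ω hg hdeg hd hD0 hDα hD' h12 h13 h23 hfac hover hsqrt hnear
    j φ hφv hγp hU hγ hgτ hDτ hα hβ
  have i1 : IsScalarTower F[X] (KF Kv j) Ω := IsScalarTower.of_algebraMap_eq fun _ => rfl
  exact hK.key hr h2F hW hg hdeg hd hDα hD' h12 h13 h23 hfac hβα

end Tower

end Pool.Agent.Lib.MP_89bcae_ag
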