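import Mathlib
import Pool.Agent.Lib.MP_89bcae_ag.PlaceC8

/-!
# The local formula at every root of `D`
-/

open Polynomial WeierstrassCurve WeierstrassCurve.Affine IsDedekindDomain

open scoped Classical

namespace Pool.Agent.Lib.MP_89bcae_ag

set_option linter.unusedSectionVars false

section Fac

variable {F : Type*} [Field F] [IsAlgClosed F]

/-- A fibre without multiple points has three points. -/
lemma exists_three_of_fibre {g : F[X]} (hg : g.Monic) (hdeg : g.natDegree = 3) {α : F}
    (h : ∀ β, g.eval β = α → (derivative g).eval β ≠ 0) :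
    ∃ β₁ β₂ β₃ : F, β₁ ≠ β₂ ∧ β₁ ≠ β₃ ∧ β₂ ≠ β₃ ∧
      g - C α = (X - C β₁) * (X - C β₂) * (X - C β₃) := by
  have hpm : (g - C α).Monic := by
    apply hg.sub_of_left
    refine lt_of_le_of_lt degree_C_le ?_
    rw [degree_eq_natDegree hg.ne_zero, hdeg]
    norm_num
  have hpd : (g - C α).natDegree = 3 := by rw [natDegree_sub_C, hdeg]
  have hsplit : (g - C α).Splits := IsAlgClosed.splits _
  have hcard : Multiset.card (g - C α).roots = 3 := by
    rw [← hpd]
    exact hsplit.natDegree_eq_card_roots.symm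
  obtain ⟨β₁, β₂, β₃, hr⟩ := Multiset.card_eq_three.mp hcard
  have hprod : g - C α = (X - C β₁) * (X - C β₂) * (X - C β₃) := by
    have h1 := prod_multiset_X_sub_C_of_monic_of_roots_card_eq hpm (by rw [hcard, hpd])
    rw [hr] at h1
    simp only [Multiset.insert_eq_cons, Multiset.map_cons, Multiset.map_singleton,
      Multiset.prod_cons, Multiset.prod_singleton] at h1
    rw [← h1]
    ring
  have hder : ∀ β, (derivative g).eval β = (derivative (g - C α)).eval β := by
    intro β
    simp
  have hev : ∀ β, g.eval β = α ↔ (g - C α).eval β = 0 := by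
    intro β
    rw [eval_sub, eval_C, sub_eq_zero]
  have h12 : β₁ ≠ β₂ := by
    rintro rfl
    apply h β₁ ((hev _).mpr (by rw [hprod]; simp))
    rw [hder, hprod]
    simp
  have h13 : β₁ ≠ β₃ := by
    rintro rfl
    apply h β₁ ((hev _).mpr (by rw [hprod]; simp))
    rw [hder, hprod]
    simp
  have h23 : β₂ ≠ β₃ := by
    rintro rfl
    apply h β₂ ((hev _).mpr (by rw [hprod]; simp))
    rw [hder, hprod]
    simp
  exact ⟨β₁, β₂, β₃, h12, h13, h23, hprod⟩

end Fac

section Adic

variable {F : Type*} [Field F] (L : Type*) [Field L] [Algebra F[X] L] [IsFractionRing F[X] L]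

/-- The automorphism of the completion at a place fixed by an automorphism of `F`. -/
lemma exists_adic_aut (σ : F ≃+* F) (α : F) (h : σ α = α) :
    ∃ φ : (placeAt α).adicCompletion L ≃+* (placeAt α).adicCompletion L,
      (∀ x : L, φ (algebraMap L _ x) = algebraMap L _ (coefL L σ x)) ∧
      ∀ x, Valued.v (φ x) = Valued.v x := by
  have := exists_adic_equiv L σ α
  rw [h] at this
  exact this

end Adic

section Tower

variable {k F L Ω : Type*} [Field k] [Field F] [Algebra k F] [Algebra.IsAlgebraic k F]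
  [IsAlgClosed F] [Field L] [Field Ω]
  [Algebra F[X] L] [IsFractionRing F[X] L] [Algebra L Ω] [Algebra F[X] Ω] [IsScalarTower F[X] L Ω]
  [Algebra k[X] L] [Algebra k[X] Ω] [IsScalarTower k[X] L Ω]
  [IsGalois L Ω] [IsSepClosed Ω] [IsSepClosure L Ω]

variable {hk : ∀ p : k[X], algebraMap k[X] L p = algebraMap F[X] L (p.map (algebraMap k F))}
variable {W : Affine k[X]} {LT : ((Ω ≃ₐ[L] Ω) → (W.baseChange Ω).Point) → Prop} {g D : k[X]}

theorem Ctx8.placeHyp (h : Ctx8 hk W g D LT) :
    PlaceHyp L Ω W (g.map (algebraMap k F)) (D.map (algebraMap k F)) := by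
  intro α hα τ hτ
  have hF := h.good.map F
  set gF := g.map (algebraMap k F) with hgF
  set DF := D.map (algebraMap k F) with hDF
  have hfix : ∀ p : k[X], (p.map (algebraMap k F)).map (τ : F →+* F) = p.map (algebraMap k F) :=
    fun p => map_fix τ p
  obtain ⟨β₁, β₂, β₃, h12, h13, h23, hfac⟩ := exists_three_of_fibre hF.monic hF.deg (α := α)
    (fun β hβ => (h.root_facts (by rw [← hgF, hβ]; exact hα)).2)
  have hev : ∀ β, gF.eval β - α = (β - β₁) * (β - β₂) * (β - β₃) := by
    intro β
    have := congrArg (fun p => p.eval β) hfac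
    simpa using this
  have e1 : gF.eval β₁ = α := by
    have := hev β₁
    rw [sub_self, zero_mul, zero_mul] at this
    exact sub_eq_zero.mp this
  have hDα : (derivative DF).eval α ≠ 0 := by
    have := (h.root_facts (β := β₁) (by rw [← hgF, e1]; exact hα)).1
    rwa [← hgF, e1] at this
  have hτβ : ∀ β, gF.eval β = α → τ β = β := fun β hβ => hτ β (by rw [hβ]; exact hα)
  have hτev : ∀ (x : F), τ x = x → τ (gF.eval x) = gF.eval x := by
    intro x hx
    have := eval₂_hom (p := gF) (τ : F →+* F) x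
    change eval₂ (τ : F →+* F) (τ x) gF = τ (gF.eval x) at this
    rw [← this, ← eval_map, hfix g, hx]
  have hτα : τ α = α := by
    rw [← e1]
    exact hτev β₁ (hτβ β₁ e1)
  obtain ⟨φ, hφ, hφv⟩ := exists_adic_aut L (τ : F ≃+* F) α hτα
  have hj : Nonempty (Ω →ₐ[L] SeparableClosure ((placeAt α).adicCompletion L)) :=
    ⟨IsSepClosed.lift⟩
  obtain ⟨j⟩ := hj
  obtain ⟨γ, hγp, U, hU, hγ⟩ := exists_local_lift hk j τ φ hφ
  have hover : IsOver (K := (placeAt α).adicCompletion L) Valued.v α :=
    ⟨val_X_sub_C L α, fun p hp => val_eq_one L α hp⟩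
  have hnear : ∀ β, gF.eval β = α → ∃ θv ∈ RootSet (Ω := (placeAt α).adicCompletion L) gF,
      Valued.v (θv - algebraMap F[X] _ (C β)) = WithZero.exp (-1 : ℤ) := by
    intro β hβ
    have hβ' : (derivative gF).eval β ≠ 0 :=
      (h.root_facts (by rw [← hgF, hβ]; exact hα)).2
    have := exists_local_root L hF.monic hF.deg hβ'
    rw [hβ] at this
    obtain ⟨θv, h1, h2, -⟩ := this
    exact ⟨θv, h1, h2⟩
  refine ⟨γ, hγp, fun y z P Z Z' b b' hr β hβ => ?_⟩
  exact key_of (Ω := Ω) (wv := Valued.v) hF.two h.two hF.monic hF.deg hF.der hF.ne hα hDα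
    h12 h13 h23 hfac hover (fun x hx => exists_sqrt_of_unit L hF.two α x hx) hnear j φ hφv
    hγp hU hγ (hfix g) (hfix D) hτα hτβ h.twO hr hβ

end Tower

end Pool.Agent.Lib.MP_89bcae_ag
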