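import Mathlib
import Pool.Agent.Lib.MP_89bcae_ag.LT8
import Pool.Agent.Lib.MP_89bcae_ag.PlaceD8
import Pool.Agent.Lib.MP_89bcae_ag.DefsGeom8

/-!
# The local conditions form a Selmer structure; the class of a point
-/

open Polynomial WeierstrassCurve WeierstrassCurve.Affine IsDedekindDomain

open scoped Classical

namespace Pool.Agent.Lib.MP_89bcae_ag

set_option linter.unusedSectionVars false
set_option linter.style.haveILetI false

universe u

section LocalTriv

variable {k F L Ω : Type u} [Field k] [Field F] [Algebra k F]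
  [Field L] [Algebra F[X] L] [Field Ω] [Algebra L Ω]

/-- Sums of locally trivial classes. -/
lemma IsLocallyTrivial.add {W : WeierstrassCurve k[X]}
    {c c' c'' : (Ω ≃ₐ[L] Ω) → (W.map (base k F L Ω)).toAffine.Point}
    {Lv : Type u} [Field Lv] [Algebra L Lv] (hc : IsLocallyTrivial W c Lv)
    (hc' : IsLocallyTrivial W c' Lv) (h : ∀ σ, c'' σ = c σ + c' σ) :
    IsLocallyTrivial W c'' Lv := by
  intro M _ _ _ _ _ j
  obtain ⟨Q₀, hQ₀⟩ := hc M j
  obtain ⟨Q₀', hQ₀'⟩ := hc' M j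
  letI := algK k F L L
  letI := algK k F L Ω
  letI := algK k F L Lv
  letI := algK k F L M
  haveI : IsScalarTower k[X] L Ω := IsScalarTower.of_algebraMap_eq fun _ => rfl
  haveI : IsScalarTower k[X] L M := IsScalarTower.of_algebraMap_eq fun _ => rfl
  haveI : IsScalarTower k[X] L Lv := IsScalarTower.of_algebraMap_eq fun _ => rfl
  haveI : IsScalarTower k[X] Lv M := IsScalarTower.of_algebraMap_eq fun p => by
    rw [IsScalarTower.algebraMap_apply k[X] L Lv, ← IsScalarTower.algebraMap_apply L Lv M]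
    rfl
  let V : Affine k[X] := W.toAffine
  let c₁ : (Ω ≃ₐ[L] Ω) → (V.baseChange Ω).Point := c
  let c₁' : (Ω ≃ₐ[L] Ω) → (V.baseChange Ω).Point := c'
  let c₁'' : (Ω ≃ₐ[L] Ω) → (V.baseChange Ω).Point := c''
  let Q₁ : (V.baseChange M).Point := Q₀
  let Q₁' : (V.baseChange M).Point := Q₀'
  have h₁ : ∀ σ, c₁'' σ = c₁ σ + c₁' σ := h
  refine ⟨Q₁ + Q₁', fun g g' hg P hP => ?_⟩
  have h1 := hQ₀ g g' hg (Point.map (W' := V) (g : M →ₐ[Lv] M) Q₁)
      (isImage_map (W := W) (g : M →ₐ[Lv] M) Q₁)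
  have h1' := hQ₀' g g' hg (Point.map (W' := V) (g : M →ₐ[Lv] M) Q₁')
      (isImage_map (W := W) (g : M →ₐ[Lv] M) Q₁')
  have h2 : Point.map (W' := V) j (c₁ g') =
      Point.map (W' := V) (g : M →ₐ[Lv] M) Q₁ - Q₁ :=
    ((isImage_iff (W := W) j (c₁ g') _).mp h1).symm
  have h2' : Point.map (W' := V) j (c₁' g') =
      Point.map (W' := V) (g : M →ₐ[Lv] M) Q₁' - Q₁' :=
    ((isImage_iff (W := W) j (c₁' g') _).mp h1').symm
  have h3 := (isImage_iff (W := W) (g : M →ₐ[Lv] M) _ _).mp hP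
  apply (isImage_iff (W := W) j (c₁'' g') _).mpr
  rw [h3, h₁, map_add, map_add, h2, h2']
  abel

/-- The opposite of a locally trivial class. -/
lemma IsLocallyTrivial.neg {W : WeierstrassCurve k[X]}
    {c c'' : (Ω ≃ₐ[L] Ω) → (W.map (base k F L Ω)).toAffine.Point}
    {Lv : Type u} [Field Lv] [Algebra L Lv] (hc : IsLocallyTrivial W c Lv)
    (h : ∀ σ, c'' σ = -c σ) : IsLocallyTrivial W c'' Lv := by
  intro M _ _ _ _ _ j
  obtain ⟨Q₀, hQ₀⟩ := hc M j
  letI := algK k F L L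
  letI := algK k F L Ω
  letI := algK k F L Lv
  letI := algK k F L M
  haveI : IsScalarTower k[X] L Ω := IsScalarTower.of_algebraMap_eq fun _ => rfl
  haveI : IsScalarTower k[X] L M := IsScalarTower.of_algebraMap_eq fun _ => rfl
  haveI : IsScalarTower k[X] L Lv := IsScalarTower.of_algebraMap_eq fun _ => rfl
  haveI : IsScalarTower k[X] Lv M := IsScalarTower.of_algebraMap_eq fun p => by
    rw [IsScalarTower.algebraMap_apply k[X] L Lv, ← IsScalarTower.algebraMap_apply L Lv M]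
    rfl
  let V : Affine k[X] := W.toAffine
  let c₁ : (Ω ≃ₐ[L] Ω) → (V.baseChange Ω).Point := c
  let c₁'' : (Ω ≃ₐ[L] Ω) → (V.baseChange Ω).Point := c''
  let Q₁ : (V.baseChange M).Point := Q₀
  have h₁ : ∀ σ, c₁'' σ = -c₁ σ := h
  refine ⟨-Q₁, fun g g' hg P hP => ?_⟩
  have h1 := hQ₀ g g' hg (Point.map (W' := V) (g : M →ₐ[Lv] M) Q₁)
      (isImage_map (W := W) (g : M →ₐ[Lv] M) Q₁)
  have h2 : Point.map (W' := V) j (c₁ g') =
      Point.map (W' := V) (g : M →ₐ[Lv] M) Q₁ - Q₁ :=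
    ((isImage_iff (W := W) j (c₁ g') _).mp h1).symm
  have h3 := (isImage_iff (W := W) (g : M →ₐ[Lv] M) _ _).mp hP
  apply (isImage_iff (W := W) j (c₁'' g') _).mpr
  rw [h3, h₁, map_neg, map_neg, h2]
  abel

/-- Coboundaries are locally trivial. -/
lemma isLocallyTrivial_cob {W : WeierstrassCurve k[X]}
    (q : (W.map (base k F L Ω)).toAffine.Point)
    {c : (Ω ≃ₐ[L] Ω) → (W.map (base k F L Ω)).toAffine.Point}
    {Lv : Type u} [Field Lv] [Algebra L Lv]
    (hc : ∀ (σ : Ω ≃ₐ[L] Ω) q', IsImage (σ : Ω →+* Ω) q q' → c σ = q' - q) :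
    IsLocallyTrivial W c Lv := by
  intro M _ _ _ _ _ j
  letI := algK k F L L
  letI := algK k F L Ω
  letI := algK k F L Lv
  letI := algK k F L M
  haveI : IsScalarTower k[X] L Ω := IsScalarTower.of_algebraMap_eq fun _ => rfl
  haveI : IsScalarTower k[X] L M := IsScalarTower.of_algebraMap_eq fun _ => rfl
  haveI : IsScalarTower k[X] L Lv := IsScalarTower.of_algebraMap_eq fun _ => rfl
  haveI : IsScalarTower k[X] Lv M := IsScalarTower.of_algebraMap_eq fun p => by
    rw [IsScalarTower.algebraMap_apply k[X] L Lv, ← IsScalarTower.algebraMap_apply L Lv M]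
    rfl
  let V : Affine k[X] := W.toAffine
  let q₁ : (V.baseChange Ω).Point := q
  let c₁ : (Ω ≃ₐ[L] Ω) → (V.baseChange Ω).Point := c
  have hc1 : ∀ σ : Ω ≃ₐ[L] Ω, c₁ σ = Point.map (W' := V) (σ : Ω →ₐ[L] Ω) q₁ - q₁ := fun σ =>
    hc σ _ (isImage_map (W := W) (σ : Ω →ₐ[L] Ω) q₁)
  refine ⟨Point.map (W' := V) j q₁, fun g g' hg P hP => ?_⟩
  have h3 := (isImage_iff (W := W) (g : M →ₐ[Lv] M) _ _).mp hP
  have e1 : Point.map (W' := V) j (Point.map (g' : Ω →ₐ[L] Ω) q₁) =
      Point.map (W' := V) (g : M →ₐ[Lv] M) (Point.map j q₁) := by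
    rcases q₁ with _ | ⟨x, y, hxy⟩
    · rfl
    · rw [Point.map_some, Point.map_some, Point.map_some, Point.map_some]
      simp only [Point.some.injEq]
      exact ⟨hg x, hg y⟩
  apply (isImage_iff (W := W) j (c₁ g') _).mpr
  rw [h3, hc1, map_sub, e1]
  rfl

end LocalTriv

section Ax

variable {k F L Ω : Type u} [Field k] [Field F] [Algebra k F] [Algebra.IsAlgebraic k F]
  [IsAlgClosed F] [Field L] [Algebra F[X] L] [IsFractionRing F[X] L] [Field Ω]
  [Algebra L Ω] [IsGalois L Ω] [IsSepClosed Ω] [IsSepClosure L Ω]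

/-- The local conditions at the finite places. -/
def LT8 (W : WeierstrassCurve k[X])
    (c : (Ω ≃ₐ[L] Ω) → (W.map (base k F L Ω)).toAffine.Point) : Prop :=
  ∀ τ : F, IsLocallyTrivial W c ((placeAt τ).adicCompletion L)

lemma selAx_of {g D : k[X]} (hgD : Good g D) :
    letI := algK k F L L
    letI := algK k F L Ω
    letI := algF F L Ω
    haveI : IsScalarTower F[X] L Ω := IsScalarTower.of_algebraMap_eq fun _ => rfl
    haveI : IsScalarTower k[X] L Ω := IsScalarTower.of_algebraMap_eq fun _ => rfl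
    SelAx (k := k) (F := F) (L := L) (Ω := Ω) (fun _ => rfl) (twist g D).toAffine
      (g.map (algebraMap k F)) (D.map (algebraMap k F)) (LT8 (twist g D)) := by
  letI := algK k F L L
  letI := algK k F L Ω
  letI := algF F L Ω
  haveI : IsScalarTower F[X] L Ω := IsScalarTower.of_algebraMap_eq fun _ => rfl
  haveI : IsScalarTower k[X] L Ω := IsScalarTower.of_algebraMap_eq fun _ => rfl
  have hk : ∀ p : k[X], algebraMap k[X] L p = algebraMap F[X] L (p.map (algebraMap k F)) :=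
    fun _ => rfl
  let W : Affine k[X] := (twist g D).toAffine
  refine ⟨?_, ?_, ?_, ?_, ?_⟩
  · intro c c' hc hc' τ
    exact (hc τ).add (hc' τ) (fun _ => rfl)
  · intro c hc τ
    exact (hc τ).neg (fun _ => rfl)
  · intro q τ
    apply isLocallyTrivial_cob (W := twist g D) q
    intro σ q' hq'
    rw [(isImage_iff (W := twist g D) (σ : Ω →ₐ[L] Ω) _ _).mp hq']
    rfl
  · intro γ c hc τ'
    obtain ⟨τ, rfl⟩ : ∃ τ, (resF hk γ) τ = τ' := (resF hk γ).surjective τ'
    obtain ⟨φ, hφ, -⟩ := exists_adic_equiv L ((resF hk γ : F ≃ₐ[k] F) : F ≃+* F) τ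
    refine IsLocallyTrivial.conj (W := twist g D) (c := c)
      (coefL L ((resF hk γ : F ≃ₐ[k] F) : F ≃+* F)) ?_ φ hφ (γ : Ω ≃+* Ω) ?_ ?_ (hc τ)
    · intro p
      change coefL L _ (algebraMap F[X] L (p.map (algebraMap k F))) =
        algebraMap F[X] L (p.map (algebraMap k F))
      rw [coefL_algebraMap]
      congr 1
      exact map_fix (resF hk γ) p
    · intro x
      obtain ⟨p, q, hq, rfl⟩ := IsFractionRing.div_surjective (A := F[X]) x
      rw [map_div₀, map_div₀, map_div₀, map_div₀, coefL_algebraMap, coefL_algebraMap,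
        ← IsScalarTower.algebraMap_apply, ← IsScalarTower.algebraMap_apply,
        ← IsScalarTower.algebraMap_apply, ← IsScalarTower.algebraMap_apply]
      have h1 : ∀ r : F[X], (γ : Ω ≃+* Ω) (algebraMap F[X] Ω r) = algebraMap F[X] Ω
          (r.map ((resF hk γ : F ≃ₐ[k] F) : F →+* F)) := fun r => resF_spec hk γ r
      rw [h1, h1]
      rfl
    · intro σ σ' hσ
      have h1 : cj hk γ σ = σ' := cj_unique hk hσ
      rw [h1]
      exact isImage_map (W := twist g D) (γ : Ω →ₐ[k[X]] Ω) (c σ')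
  · intro c hc2 hc Z b hb
    exact eval_eq_zero_of_isLocallyTrivial hgD c hc2 hb hc

end Ax

end Pool.Agent.Lib.MP_89bcae_ag
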