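import Mathlib
import Pool.Agent.Lib.MP_89bcae_ag.SelB8
import Pool.Agent.Lib.MP_89bcae_ag.DefsTower7

/-!
# Descending invariant classes along quadratic steps
-/

open Polynomial WeierstrassCurve WeierstrassCurve.Affine

open scoped Classical

namespace Pool.Agent.Lib.MP_89bcae_ag

set_option linter.unusedSectionVars false

section Sub

variable {Ω : Type*} [Field Ω]

/-- The map `f` fixes the elements of `K`. -/
def FixS (K : Subfield Ω) (f : Ω → Ω) : Prop := ∀ x ∈ K, f x = x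

lemma FixS.mono {K K' : Subfield Ω} (h : K ≤ K') {f : Ω → Ω} (hf : FixS K' f) : FixS K f :=
  fun x hx => hf x (h hx)

lemma fixS_sup {K : Subfield Ω} {a : Ω} (f : Ω →+* Ω) :
    FixS (K ⊔ Subfield.closure {a}) f ↔ FixS K f ∧ f a = a := by
  constructor
  · intro h
    refine ⟨h.mono le_sup_left, ?_⟩
    exact h a ((le_sup_right : Subfield.closure {a} ≤ K ⊔ Subfield.closure {a})
      (Subfield.subset_closure rfl))
  · rintro ⟨h1, h2⟩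
    have h3 : K ⊔ Subfield.closure {a} ≤ RingHom.eqLocusField f (RingHom.id Ω) := by
      apply sup_le
      · intro x hx
        exact h1 x hx
      · rw [Subfield.closure_le]
        rintro x rfl
        exact h2
    intro x hx
    exact h3 hx

lemma eq_or_neg_of_fixS {K : Subfield Ω} {a : Ω} (ha : a ^ 2 ∈ K) (f : Ω →+* Ω)
    (hf : FixS K f) : f a = a ∨ f a = -a := by
  have h1 : (f a) ^ 2 = a ^ 2 := by rw [← map_pow]; exact hf _ ha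
  have h3 : (f a - a) * (f a + a) = 0 := by linear_combination h1
  rcases mul_eq_zero.mp h3 with h | h
  · exact Or.inl (sub_eq_zero.mp h)
  · exact Or.inr (by linear_combination h)

end Sub

section Act

variable {k F L Ω : Type*} [Field k] [Field F] [Algebra k F] [Algebra.IsAlgebraic k F]
  [IsAlgClosed F] [Field L] [Field Ω]
  [Algebra F[X] L] [IsFractionRing F[X] L] [Algebra L Ω] [Algebra F[X] Ω] [IsScalarTower F[X] L Ω]
  [Algebra k[X] L] [Algebra k[X] Ω] [IsScalarTower k[X] L Ω]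
  [IsGalois L Ω] [IsSepClosed Ω] [IsSepClosure L Ω]

variable (hk : ∀ p : k[X], algebraMap k[X] L p = algebraMap F[X] L (p.map (algebraMap k F)))

lemma cj_fix {K : Subfield Ω} {γ : Ω ≃ₐ[k[X]] Ω} {σ : Ω ≃ₐ[L] Ω} (hγ : FixS K γ)
    (hσ : FixS K σ) : FixS K (cj hk γ σ) := by
  intro x hx
  apply γ.injective
  rw [cj_spec, hγ x hx, hσ x hx]

lemma cj_fix_step {K : Subfield Ω} {a : Ω} (ha : a ^ 2 ∈ K) {γ : Ω ≃ₐ[k[X]] Ω} {σ : Ω ≃ₐ[L] Ω}
    (hγ : FixS K γ) (hσ : FixS (K ⊔ Subfield.closure {a}) σ) :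
    FixS (K ⊔ Subfield.closure {a}) (cj hk γ σ) := by
  have h1 := (fixS_sup (σ : Ω →+* Ω)).mp hσ
  apply (fixS_sup ((cj hk γ σ : Ω ≃ₐ[L] Ω) : Ω →+* Ω)).mpr
  refine ⟨cj_fix hk hγ h1.1, ?_⟩
  apply γ.injective
  change γ (cj hk γ σ a) = γ a
  have h2 : σ a = a := h1.2
  rw [cj_spec]
  rcases eq_or_neg_of_fixS ha (γ : Ω →+* Ω) hγ with h | h
  · have h' : γ a = a := h
    rw [h', h2]
  · have h' : γ a = -a := h
    rw [h', map_neg, h2]

variable (W : Affine k[X])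

/-- The action of an element of the Galois group on points. -/
noncomputable abbrev sm (σ : Ω ≃ₐ[L] Ω) : (W.baseChange Ω).Point →+ (W.baseChange Ω).Point :=
  Point.map (W' := W) (σ : Ω →ₐ[L] Ω)

/-- The action of an automorphism over `k(t)` on points. -/
noncomputable abbrev gm (γ : Ω ≃ₐ[k[X]] Ω) : (W.baseChange Ω).Point →+ (W.baseChange Ω).Point :=
  Point.map (W' := W) (γ : Ω →ₐ[k[X]] Ω)

lemma sm_mul (σ τ : Ω ≃ₐ[L] Ω) (P : (W.baseChange Ω).Point) :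
    sm W (σ * τ) P = sm W σ (sm W τ P) := by
  rcases P with _ | ⟨x, y, h⟩ <;> rfl

lemma sm_one (P : (W.baseChange Ω).Point) : sm W (1 : Ω ≃ₐ[L] Ω) P = P := by
  rcases P with _ | ⟨x, y, h⟩ <;> rfl

lemma gm_mul (γ δ : Ω ≃ₐ[k[X]] Ω) (P : (W.baseChange Ω).Point) :
    gm W (γ * δ) P = gm W γ (gm W δ P) := by
  rcases P with _ | ⟨x, y, h⟩ <;> rfl

lemma gm_one (P : (W.baseChange Ω).Point) : gm W (1 : Ω ≃ₐ[k[X]] Ω) P = P := by
  rcases P with _ | ⟨x, y, h⟩ <;> rfl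

lemma gm_sm (γ : Ω ≃ₐ[k[X]] Ω) (σ : Ω ≃ₐ[L] Ω) (P : (W.baseChange Ω).Point) :
    gm W γ (sm W (cj hk γ σ) P) = sm W σ (gm W γ P) := gamma_sigma_map hk γ σ P

lemma gm_eq_sm {γ : Ω ≃ₐ[k[X]] Ω} {σ : Ω ≃ₐ[L] Ω} (h : ∀ x, γ x = σ x)
    (P : (W.baseChange Ω).Point) : gm W γ P = sm W σ P := by
  rcases P with _ | ⟨x, y, hxy⟩
  · rfl
  · rw [gm, sm, Point.map_some, Point.map_some]
    simp only [Point.some.injEq]
    exact ⟨h x, h y⟩

/-- `c` is a continuous cocycle with values in the two-torsion of the Galois group fixing `K`. -/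
structure OneC (K : Subfield Ω) (c : (Ω ≃ₐ[L] Ω) → (W.baseChange Ω).Point) : Prop where
  two : ∀ σ : Ω ≃ₐ[L] Ω, FixS K σ → 2 • c σ = 0
  mul : ∀ σ τ : Ω ≃ₐ[L] Ω, FixS K σ → FixS K τ → c (σ * τ) = c σ + sm W σ (c τ)
  cont : ∃ S : Finset Ω, ∀ σ : Ω ≃ₐ[L] Ω, FixS K σ → (∀ x ∈ S, σ x = x) → c σ = 0

/-- The class of `c` is invariant under `γ`. -/
def InvBy (K : Subfield Ω) (c : (Ω ≃ₐ[L] Ω) → (W.baseChange Ω).Point)
    (γ : Ω ≃ₐ[k[X]] Ω) : Prop :=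
  ∃ A : (W.baseChange Ω).Point, 2 • A = 0 ∧ ∀ σ : Ω ≃ₐ[L] Ω, FixS K σ →
    gm W γ (c (cj hk γ σ)) - c σ = sm W σ A - A

/-- There is no nonzero two-torsion point fixed by the Galois group fixing `K`. -/
def NoFix (L : Type*) {Ω : Type*} [Field L] [Field Ω] [Algebra L Ω] [Algebra k[X] L]
    [Algebra k[X] Ω] [IsScalarTower k[X] L Ω] (W : Affine k[X]) (K : Subfield Ω) : Prop :=
  ∀ P : (W.baseChange Ω).Point, 2 • P = 0 → (∀ σ : Ω ≃ₐ[L] Ω, FixS K σ → sm W σ P = P) → P = 0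

variable {W}

lemma fixS_mul {K : Subfield Ω} {σ τ : Ω ≃ₐ[L] Ω} (hσ : FixS K σ) (hτ : FixS K τ) :
    FixS K (σ * τ : Ω ≃ₐ[L] Ω) := by
  intro x hx
  rw [AlgEquiv.mul_apply, hτ x hx, hσ x hx]

lemma fixS_inv {K : Subfield Ω} {σ : Ω ≃ₐ[L] Ω} (hσ : FixS K σ) :
    FixS K (σ⁻¹ : Ω ≃ₐ[L] Ω) := by
  intro x hx
  apply σ.injective
  rw [hσ x hx]
  exact σ.apply_symm_apply x

lemma fixS_mul' {K : Subfield Ω} {σ τ : Ω ≃ₐ[k[X]] Ω} (hσ : FixS K σ) (hτ : FixS K τ) :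
    FixS K (σ * τ : Ω ≃ₐ[k[X]] Ω) := by
  intro x hx
  rw [AlgEquiv.mul_apply, hτ x hx, hσ x hx]

lemma fixS_inv' {K : Subfield Ω} {σ : Ω ≃ₐ[k[X]] Ω} (hσ : FixS K σ) :
    FixS K (σ⁻¹ : Ω ≃ₐ[k[X]] Ω) := by
  intro x hx
  apply σ.injective
  rw [hσ x hx]
  exact σ.apply_symm_apply x

lemma OneC.one {K : Subfield Ω} {c : (Ω ≃ₐ[L] Ω) → (W.baseChange Ω).Point} (hc : OneC W K c) :
    c 1 = 0 := by
  obtain ⟨S, hS⟩ := hc.cont
  exact hS 1 (fun x _ => rfl) (fun x _ => rfl)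

/-- The relation `c(σ) + σ c(σ⁻¹hσ) = c(h) + h c(σ)`. -/
lemma OneC.comm {K : Subfield Ω} {c : (Ω ≃ₐ[L] Ω) → (W.baseChange Ω).Point} (hc : OneC W K c)
    {σ h h' : Ω ≃ₐ[L] Ω} (hσ : FixS K σ) (hh : FixS K h) (hh' : FixS K h') (e : σ * h' = h * σ) :
    c σ + sm W σ (c h') = c h + sm W h (c σ) := by
  rw [← hc.mul σ h' hσ hh', ← hc.mul h σ hh hσ, e]

/-- An element of the Galois group as an automorphism over `k(t)`. -/
noncomputable def toG (σ : Ω ≃ₐ[L] Ω) : Ω ≃ₐ[k[X]] Ω := σ.restrictScalars k[X]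

omit [Algebra.IsAlgebraic k F] [IsAlgClosed F] [IsGalois L Ω] [IsSepClosed Ω]
  [IsSepClosure L Ω] in
lemma toG_apply (σ : Ω ≃ₐ[L] Ω) (x : Ω) : toG (k := k) σ x = σ x := rfl

lemma cj_toG (σ h : Ω ≃ₐ[L] Ω) : cj hk (toG σ) h = σ⁻¹ * (h * σ) := by
  apply cj_unique
  intro x
  rw [toG_apply, toG_apply, AlgEquiv.mul_apply, AlgEquiv.mul_apply, ← AlgEquiv.mul_apply σ σ⁻¹,
    mul_inv_cancel]
  rfl

lemma gm_toG (σ : Ω ≃ₐ[L] Ω) (P : (W.baseChange Ω).Point) : gm W (toG σ) P = sm W σ P :=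
  gm_eq_sm W (fun _ => rfl) P

/-- Extension of an invariant class from the index-two subgroup. -/
lemma exists_extension {K : Subfield Ω} {a : Ω} (ha : a ^ 2 ∈ K)
    {c : (Ω ≃ₐ[L] Ω) → (W.baseChange Ω).Point}
    (hc : OneC W (K ⊔ Subfield.closure {a}) c)
    (hinv : ∀ γ : Ω ≃ₐ[k[X]] Ω, FixS K γ → InvBy hk W (K ⊔ Subfield.closure {a}) c γ)
    (hN : NoFix L W (K ⊔ Subfield.closure {a})) :
    ∃ c₀ : (Ω ≃ₐ[L] Ω) → (W.baseChange Ω).Point, OneC W K c₀ ∧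
      (∀ γ : Ω ≃ₐ[k[X]] Ω, FixS K γ → InvBy hk W K c₀ γ) ∧
      ∀ σ : Ω ≃ₐ[L] Ω, FixS (K ⊔ Subfield.closure {a}) σ → c₀ σ = c σ := by
  set K₁ := K ⊔ Subfield.closure {a} with hK₁
  have hle : K ≤ K₁ := le_sup_left
  -- the choice
  have hex : ∀ σ : Ω ≃ₐ[L] Ω, FixS K σ → ∃ A : (W.baseChange Ω).Point, 2 • A = 0 ∧
      ∀ h : Ω ≃ₐ[L] Ω, FixS K₁ h → sm W σ (c (σ⁻¹ * (h * σ))) - c h = sm W h A - A := by
    intro σ hσ
    obtain ⟨A, hA, h1⟩ := hinv (toG σ) hσ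
    refine ⟨A, hA, fun h hh => ?_⟩
    rw [← h1 h hh, cj_toG, gm_toG]
  choose! A hA2 hA using hex
  have huniq : ∀ B B' : (W.baseChange Ω).Point, 2 • B = 0 → 2 • B' = 0 →
      (∀ h : Ω ≃ₐ[L] Ω, FixS K₁ h → sm W h B - B = sm W h B' - B') → B = B' := by
    intro B B' hB hB' h1
    apply sub_eq_zero.mp
    apply hN
    · rw [smul_sub, hB, hB', sub_zero]
    · intro h hh
      have := h1 h hh
      rw [map_sub, sub_eq_sub_iff_sub_eq_sub.mp this]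
  have hconj : ∀ σ h : Ω ≃ₐ[L] Ω, FixS K σ → FixS K₁ h → FixS K₁ (σ⁻¹ * (h * σ) : Ω ≃ₐ[L] Ω) := by
    intro σ h hσ hh
    rw [← cj_toG hk]
    exact cj_fix_step hk ha (γ := toG σ) hσ hh
  have heq : ∀ σ : Ω ≃ₐ[L] Ω, FixS K₁ σ → A σ = c σ := by
    intro σ hσ
    apply huniq _ _ (hA2 σ (hσ.mono hle)) (hc.two σ hσ)
    intro h hh
    rw [← hA σ (hσ.mono hle) h hh]
    have h1 := hc.comm (σ := σ) (h := h) (h' := σ⁻¹ * (h * σ)) hσ hh
      (hconj σ h (hσ.mono hle) hh) (by rw [mul_inv_cancel_left])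
    rw [sub_eq_sub_iff_add_eq_add, add_comm, h1, add_comm]
  have hAmul : ∀ σ τ : Ω ≃ₐ[L] Ω, FixS K σ → FixS K τ → A (σ * τ) = A σ + sm W σ (A τ) := by
    intro σ τ hσ hτ
    have hστ : FixS K (σ * τ : Ω ≃ₐ[L] Ω) := fixS_mul hσ hτ
    apply huniq _ _ (hA2 _ hστ) (by rw [smul_add, ← map_nsmul, hA2 σ hσ, hA2 τ hτ, map_zero,
      add_zero])
    intro h hh
    rw [← hA _ hστ h hh]
    have e1 := hA σ hσ h hh
    have e2 := congrArg (sm W σ) (hA τ hτ _ (hconj σ h hσ hh))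
    have e3 : τ⁻¹ * (σ⁻¹ * (h * σ) * τ) = (σ * τ)⁻¹ * (h * (σ * τ)) := by
      rw [mul_inv_rev]; simp only [mul_assoc]
    rw [map_sub, map_sub, ← sm_mul, e3, ← sm_mul, mul_inv_cancel_left, sm_mul W h σ (A τ)] at e2
    rw [sub_eq_iff_eq_add] at e1 e2
    rw [map_add, e2, e1]
    abel
  refine ⟨A, ⟨hA2, hAmul, ?_⟩, ?_, heq⟩
  · -- continuity
    obtain ⟨S, hS⟩ := hc.cont
    refine ⟨insert a S, fun σ hσ h1 => ?_⟩
    have h2 : FixS K₁ σ := (fixS_sup (σ : Ω →+* Ω)).mpr ⟨hσ, h1 a (Finset.mem_insert_self a S)⟩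
    rw [heq σ h2]
    exact hS σ h2 (fun x hx => h1 x (Finset.mem_insert_of_mem hx))
  · -- invariance
    intro γ hγ
    obtain ⟨B, hB, h1⟩ := hinv γ hγ
    refine ⟨B, hB, ?_⟩
    -- the difference vanishes on the smaller group
    set d : (Ω ≃ₐ[L] Ω) → (W.baseChange Ω).Point := fun σ =>
      gm W γ (A (cj hk γ σ)) - A σ - (sm W σ B - B) with hd
    have hdmul : ∀ σ τ : Ω ≃ₐ[L] Ω, FixS K σ → FixS K τ → d (σ * τ) = d σ + sm W σ (d τ) := by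
      intro σ τ hσ hτ
      simp only [hd]
      rw [cj_mul, hAmul _ _ (cj_fix hk hγ hσ) (cj_fix hk hγ hτ), hAmul _ _ hσ hτ, map_add, gm_sm,
        sm_mul, map_sub, map_sub, map_sub]
      abel
    have hd1 : ∀ σ : Ω ≃ₐ[L] Ω, FixS K₁ σ → d σ = 0 := by
      intro σ hσ
      simp only [hd]
      rw [heq _ (cj_fix_step hk ha hγ hσ), heq _ hσ, h1 σ hσ, sub_self]
    have hd0 : ∀ σ : Ω ≃ₐ[L] Ω, FixS K σ → d σ = 0 := by
      intro σ hσ
      apply hN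
      · simp only [hd]
        rw [smul_sub, smul_sub, smul_sub, ← map_nsmul, ← map_nsmul, hA2 _ (cj_fix hk hγ hσ), hA2 _ hσ,
          hB, map_zero, map_zero]
        simp
      · intro h hh
        have e1 := hdmul h σ (hh.mono hle) hσ
        have e2 := hdmul σ (σ⁻¹ * (h * σ)) hσ ((hconj σ h hσ hh).mono hle)
        rw [mul_inv_cancel_left, e1, hd1 _ hh, hd1 _ (hconj σ h hσ hh), map_zero, zero_add,
          add_zero] at e2
        exact e2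
    intro σ hσ
    have := hd0 σ hσ
    simp only [hd] at this
    exact sub_eq_zero.mp this

variable (W) in
/-- The conjugate of a function on the Galois group. -/
noncomputable def cjc (γ : Ω ≃ₐ[k[X]] Ω) (c : (Ω ≃ₐ[L] Ω) → (W.baseChange Ω).Point) :
    (Ω ≃ₐ[L] Ω) → (W.baseChange Ω).Point :=
  fun σ => gm W γ (c (cj hk γ σ))

/-- The abstract local conditions. They only depend on the restriction to the Galois group fixing
`Kt`. -/
structure TowAx (W : Affine k[X]) (Kt : Subfield Ω)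
    (LT : ((Ω ≃ₐ[L] Ω) → (W.baseChange Ω).Point) → Prop) : Prop where
  add : ∀ c c', LT c → LT c' → LT (c + c')
  neg : ∀ c, LT c → LT (-c)
  cob : ∀ q : (W.baseChange Ω).Point, LT (fun σ : Ω ≃ₐ[L] Ω => sm W σ q - q)
  conj : ∀ (γ : Ω ≃ₐ[k[X]] Ω) (c : (Ω ≃ₐ[L] Ω) → (W.baseChange Ω).Point), LT c →
    LT (cjc hk W γ c)
  congr : ∀ c c' : (Ω ≃ₐ[L] Ω) → (W.baseChange Ω).Point,
    (∀ σ : Ω ≃ₐ[L] Ω, FixS Kt σ → c σ = c' σ) → LT c → LT c'

/-- The vanishing of the invariant classes over `K`. -/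
def PK (W : Affine k[X]) (LT : ((Ω ≃ₐ[L] Ω) → (W.baseChange Ω).Point) → Prop)
    (K : Subfield Ω) : Prop :=
  ∀ c : (Ω ≃ₐ[L] Ω) → (W.baseChange Ω).Point, OneC W K c →
    (∀ γ : Ω ≃ₐ[k[X]] Ω, FixS K γ → InvBy hk W K c γ) → LT c →
    ∃ P : (W.baseChange Ω).Point, 2 • P = 0 ∧ ∀ σ : Ω ≃ₐ[L] Ω, FixS K σ → c σ = sm W σ P - P

/-- Invariance is compatible with products. -/
lemma InvBy.mul {K : Subfield Ω} {c : (Ω ≃ₐ[L] Ω) → (W.baseChange Ω).Point}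
    {γ δ : Ω ≃ₐ[k[X]] Ω} (hγK : ∀ σ : Ω ≃ₐ[L] Ω, FixS K σ → FixS K (cj hk γ σ))
    (hγ : InvBy hk W K c γ) (hδ : InvBy hk W K c δ) : InvBy hk W K c (γ * δ) := by
  obtain ⟨A, hA, h1⟩ := hγ
  obtain ⟨B, hB, h2⟩ := hδ
  refine ⟨gm W γ B + A, by rw [smul_add, ← map_nsmul, hB, hA, map_zero, add_zero], ?_⟩
  intro σ hσ
  have e1 := h1 σ hσ
  have e2 := congrArg (gm W γ) (h2 _ (hγK σ hσ))
  rw [map_sub, map_sub, gm_sm, sub_eq_iff_eq_add] at e2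
  rw [sub_eq_iff_eq_add] at e1
  rw [cj_comp, gm_mul, e2, e1, map_add]
  abel

/-- The step of the induction. -/
theorem PK.step {LT : ((Ω ≃ₐ[L] Ω) → (W.baseChange Ω).Point) → Prop} {Kt K : Subfield Ω} {a : Ω}
    (hLT : TowAx hk W Kt LT) (ha : a ^ 2 ∈ K) (hle : K ⊔ Subfield.closure {a} ≤ Kt)
    (hN : NoFix L W (K ⊔ Subfield.closure {a})) (hP : PK hk W LT K) :
    PK hk W LT (K ⊔ Subfield.closure {a}) := by
  set K₁ := K ⊔ Subfield.closure {a} with hK₁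
  have hKK : K ≤ K₁ := le_sup_left
  -- classes invariant under the larger group
  have claim : ∀ c : (Ω ≃ₐ[L] Ω) → (W.baseChange Ω).Point, OneC W K₁ c →
      (∀ γ : Ω ≃ₐ[k[X]] Ω, FixS K γ → InvBy hk W K₁ c γ) → LT c →
      ∃ P : (W.baseChange Ω).Point, 2 • P = 0 ∧
        ∀ σ : Ω ≃ₐ[L] Ω, FixS K₁ σ → c σ = sm W σ P - P := by
    intro c hc hinv hcL
    obtain ⟨c₀, h0, h1, h2⟩ := exists_extension hk ha hc hinv hN
    obtain ⟨P, hP2, hP1⟩ := hP c₀ h0 h1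
      (hLT.congr c c₀ (fun σ hσ => (h2 σ (hσ.mono hle)).symm) hcL)
    refine ⟨P, hP2, fun σ hσ => ?_⟩
    rw [← h2 σ hσ]
    exact hP1 σ (hσ.mono hKK)
  intro c hc hinv hcL
  by_cases hex : ∃ γ₀ : Ω ≃ₐ[k[X]] Ω, FixS K γ₀ ∧ γ₀ a ≠ a
  · obtain ⟨γ₀, hγ₀, hγa⟩ := hex
    have hneg : ∀ γ : Ω ≃ₐ[k[X]] Ω, FixS K γ → γ a ≠ a → γ a = -a := by
      intro γ hγ hne
      rcases eq_or_neg_of_fixS ha (γ : Ω →+* Ω) hγ with h | h
      · exact absurd h hne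
      · exact h
    have hmem : ∀ γ : Ω ≃ₐ[k[X]] Ω, FixS K γ → γ a = a → FixS K₁ γ := by
      intro γ hγ h
      exact (fixS_sup (γ : Ω →+* Ω)).mpr ⟨hγ, h⟩
    have hcjK : ∀ γ : Ω ≃ₐ[k[X]] Ω, FixS K γ → ∀ σ : Ω ≃ₐ[L] Ω, FixS K₁ σ →
        FixS K₁ (cj hk γ σ) := fun γ hγ σ hσ => cj_fix_step hk ha hγ hσ
    have hc2 : ∀ σ : Ω ≃ₐ[L] Ω, FixS K₁ σ → c σ + c σ = 0 := by
      intro σ hσ
      rw [← two_nsmul]
      exact hc.two σ hσ
    -- the sum of `c` and its conjugate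
    set c' : (Ω ≃ₐ[L] Ω) → (W.baseChange Ω).Point := c + cjc hk W γ₀ c with hc'
    have hc'v : ∀ σ, c' σ = c σ + gm W γ₀ (c (cj hk γ₀ σ)) := fun σ => rfl
    have hone : OneC W K₁ c' := by
      refine ⟨?_, ?_, ?_⟩
      · intro σ hσ
        rw [hc'v, smul_add, ← map_nsmul, hc.two σ hσ, hc.two _ (hcjK γ₀ hγ₀ σ hσ), map_zero,
          add_zero]
      · intro σ τ hσ hτ
        rw [hc'v, hc'v, hc'v, cj_mul, hc.mul σ τ hσ hτ,
          hc.mul _ _ (hcjK γ₀ hγ₀ σ hσ) (hcjK γ₀ hγ₀ τ hτ), map_add, gm_sm, map_add]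
        abel
      · obtain ⟨S, hS⟩ := hc.cont
        refine ⟨S ∪ S.image γ₀, fun σ hσ h1 => ?_⟩
        rw [hc'v, hS σ hσ (fun x hx => h1 x (Finset.mem_union_left _ hx)),
          hS _ (hcjK γ₀ hγ₀ σ hσ) (fun x hx => ?_), map_zero, add_zero]
        apply γ₀.injective
        rw [cj_spec]
        exact h1 _ (Finset.mem_union_right _ (Finset.mem_image_of_mem _ hx))
    -- conjugates of `c`
    have hinv₁ : ∀ γ : Ω ≃ₐ[k[X]] Ω, FixS K₁ γ → ∃ A : (W.baseChange Ω).Point, 2 • A = 0 ∧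
        ∀ σ : Ω ≃ₐ[L] Ω, FixS K₁ σ → gm W γ (c (cj hk γ σ)) = c σ + (sm W σ A - A) := by
      intro γ hγ
      obtain ⟨A, hA, h1⟩ := hinv γ hγ
      refine ⟨A, hA, fun σ hσ => ?_⟩
      rw [← h1 σ hσ]
      abel
    have hI₁ : ∀ γ : Ω ≃ₐ[k[X]] Ω, FixS K₁ γ → InvBy hk W K₁ c' γ := by
      intro γ hγ
      obtain ⟨A, hA, h1⟩ := hinv₁ γ hγ
      have hδ : FixS K₁ (γ₀⁻¹ * (γ * γ₀) : Ω ≃ₐ[k[X]] Ω) := by
        apply hmem
        · exact fixS_mul' (fixS_inv' hγ₀) (fixS_mul' (hγ.mono hKK) hγ₀)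
        · have h3 : γ a = a := hγ a ((le_sup_right : Subfield.closure {a} ≤ K₁)
            (Subfield.subset_closure rfl))
          apply γ₀.injective
          rw [← AlgEquiv.mul_apply, mul_inv_cancel_left, AlgEquiv.mul_apply, hneg γ₀ hγ₀ hγa,
            map_neg, h3]
      obtain ⟨B, hB, h2⟩ := hinv₁ _ hδ
      refine ⟨A + gm W γ₀ B, by rw [smul_add, ← map_nsmul, hA, hB, map_zero, add_zero], ?_⟩
      intro σ hσ
      have e1 := h1 σ hσ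
      have e2 := congrArg (gm W γ₀) (h2 _ (hcjK γ₀ hγ₀ σ hσ))
      rw [← gm_mul, ← cj_comp, mul_inv_cancel_left, map_add, map_sub, gm_sm, gm_mul, cj_comp] at e2
      rw [hc'v, hc'v, map_add, e1, e2, map_add]
      abel
    have hI₂ : InvBy hk W K₁ c' γ₀ := by
      have hδ : FixS K₁ (γ₀ * γ₀ : Ω ≃ₐ[k[X]] Ω) := by
        apply hmem
        · exact fixS_mul' hγ₀ hγ₀
        · rw [AlgEquiv.mul_apply, hneg γ₀ hγ₀ hγa, map_neg, hneg γ₀ hγ₀ hγa, neg_neg]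
      obtain ⟨B, hB, h2⟩ := hinv₁ _ hδ
      refine ⟨B, hB, ?_⟩
      intro σ hσ
      have e2 := h2 σ hσ
      rw [gm_mul, cj_comp] at e2
      rw [hc'v, hc'v, map_add, e2]
      abel
    have hI : ∀ γ : Ω ≃ₐ[k[X]] Ω, FixS K γ → InvBy hk W K₁ c' γ := by
      intro γ hγ
      by_cases h : γ a = a
      · exact hI₁ γ (hmem γ hγ h)
      · have hδ : FixS K₁ (γ * γ₀⁻¹ : Ω ≃ₐ[k[X]] Ω) := by
          apply hmem
          · exact fixS_mul' hγ (fixS_inv' hγ₀)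
          · have h4 : γ₀⁻¹ a = -a := by
              apply γ₀.injective
              rw [← AlgEquiv.mul_apply, mul_inv_cancel, map_neg, hneg γ₀ hγ₀ hγa, neg_neg]
              rfl
            rw [AlgEquiv.mul_apply, h4, map_neg, hneg γ hγ h, neg_neg]
        have := InvBy.mul hk (hcjK _ (hδ.mono hKK)) (hI₁ _ hδ) hI₂
        rwa [inv_mul_cancel_right] at this
    obtain ⟨P, hP2, hP1⟩ := claim c' hone hI (hLT.add _ _ hcL (hLT.conj γ₀ c hcL))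
    -- hence `c` itself is invariant
    have hJ₂ : InvBy hk W K₁ c γ₀ := by
      refine ⟨P, hP2, fun σ hσ => ?_⟩
      rw [← hP1 σ hσ, hc'v]
      have h3 := hc2 σ hσ
      have h4 : c σ = -c σ := eq_neg_of_add_eq_zero_left h3
      rw [sub_eq_add_neg, ← h4]
      abel
    have hJ : ∀ γ : Ω ≃ₐ[k[X]] Ω, FixS K γ → InvBy hk W K₁ c γ := by
      intro γ hγ
      by_cases h : γ a = a
      · exact hinv γ (hmem γ hγ h)
      · have hδ : FixS K₁ (γ * γ₀⁻¹ : Ω ≃ₐ[k[X]] Ω) := by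
          apply hmem
          · exact fixS_mul' hγ (fixS_inv' hγ₀)
          · have h4 : γ₀⁻¹ a = -a := by
              apply γ₀.injective
              rw [← AlgEquiv.mul_apply, mul_inv_cancel, map_neg, hneg γ₀ hγ₀ hγa, neg_neg]
              rfl
            rw [AlgEquiv.mul_apply, h4, map_neg, hneg γ hγ h, neg_neg]
        have := InvBy.mul hk (hcjK _ (hδ.mono hKK)) (hinv _ hδ) hJ₂
        rwa [inv_mul_cancel_right] at this
    exact claim c hc hJ hcL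
  · push Not at hex
    apply claim c hc _ hcL
    intro γ hγ
    exact hinv γ ((fixS_sup (γ : Ω →+* Ω)).mpr ⟨hγ, hex γ hγ⟩)

end Act

end Pool.Agent.Lib.MP_89bcae_ag
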