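import Mathlib
import Pool.Agent.Lib.MP_89bcae_ag.Tower7

/-!
# The tower: torsion points, the bottom of the tower, the higher levels
-/

open Polynomial WeierstrassCurve WeierstrassCurve.Affine IntermediateField

open scoped Classical

namespace Pool.Agent.Lib.MP_89bcae_ag

set_option linter.unusedSectionVars false

section Cyc

/-- A fixed-point-free permutation of three elements is a cycle. -/
lemma cycle_three {Y : Type*} {θ₁ θ₂ θ₃ : Y} (f : Y → Y)
    (hf : Function.Injective f) {T : Set Y} (hT : ∀ θ, θ ∈ T ↔ θ = θ₁ ∨ θ = θ₂ ∨ θ = θ₃)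
    (h12 : θ₁ ≠ θ₂) (h13 : θ₁ ≠ θ₃) (h23 : θ₂ ≠ θ₃)
    (hfT : ∀ θ ∈ T, f θ ∈ T) (hne : ∀ θ ∈ T, f θ ≠ θ) :
    (f θ₁ = θ₂ ∧ f θ₂ = θ₃ ∧ f θ₃ = θ₁) ∨ (f θ₁ = θ₃ ∧ f θ₃ = θ₂ ∧ f θ₂ = θ₁) := by
  have m1 : θ₁ ∈ T := (hT _).mpr (Or.inl rfl)
  have m2 : θ₂ ∈ T := (hT _).mpr (Or.inr (Or.inl rfl))
  have m3 : θ₃ ∈ T := (hT _).mpr (Or.inr (Or.inr rfl))
  have a1 := (hT _).mp (hfT _ m1)
  have a2 := (hT _).mp (hfT _ m2)
  have a3 := (hT _).mp (hfT _ m3)
  have n1 := hne _ m1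
  have n2 := hne _ m2
  have n3 := hne _ m3
  have i12 : f θ₁ ≠ f θ₂ := fun h => h12 (hf h)
  have i13 : f θ₁ ≠ f θ₃ := fun h => h13 (hf h)
  have i23 : f θ₂ ≠ f θ₃ := fun h => h23 (hf h)
  rcases a1 with a1 | a1 | a1
  · exact absurd a1 n1
  · left
    have b3 : f θ₃ = θ₁ := by
      rcases a3 with a3 | a3 | a3
      · exact a3
      · exact absurd (a1.trans a3.symm) i13
      · exact absurd a3 n3
    have b2 : f θ₂ = θ₃ := by
      rcases a2 with a2 | a2 | a2
      · exact absurd (a2.trans b3.symm) i23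
      · exact absurd a2 n2
      · exact a2
    exact ⟨a1, b2, b3⟩
  · right
    have b2 : f θ₂ = θ₁ := by
      rcases a2 with a2 | a2 | a2
      · exact a2
      · exact absurd a2 n2
      · exact absurd (a1.trans a2.symm) i12
    have b3 : f θ₃ = θ₂ := by
      rcases a3 with a3 | a3 | a3
      · exact absurd (b2.trans a3.symm) i23
      · exact a3
      · exact absurd a3 n3
    exact ⟨a1, b3, b2⟩

variable {k F L Ω : Type*} [Field k] [Field F] [Algebra k F] [Algebra.IsAlgebraic k F]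
  [IsAlgClosed F] [Field L] [Field Ω]
  [Algebra F[X] L] [IsFractionRing F[X] L] [Algebra L Ω] [Algebra F[X] Ω] [IsScalarTower F[X] L Ω]
  [Algebra k[X] L] [Algebra k[X] Ω] [IsScalarTower k[X] L Ω]
  [IsGalois L Ω] [IsSepClosed Ω] [IsSepClosure L Ω]

/-- The Galois group fixing `K` contains an element without fixed root. -/
def Cyc (L : Type*) {F Ω : Type*} [Field F] [Field L] [Field Ω] [Algebra L Ω] [Algebra F[X] Ω]
    (g : F[X]) (K : Subfield Ω) : Prop :=
  ∃ σ : Ω ≃ₐ[L] Ω, FixS K σ ∧ ∀ θ ∈ RootSet (Ω := Ω) g, σ θ ≠ θ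

variable {g D : F[X]}

/-- The bottom of the tower. -/
lemma cyc_base (hg : g.Monic) (hdeg : g.natDegree = 3) (hd : derivative g ≠ 0) {K : Subfield Ω}
    (hK : ∀ σ : Ω ≃ₐ[L] Ω, FixS K σ) : Cyc L g K := by
  obtain ⟨θ₁, θ₂, θ₃, h12, h13, h23, hR, -, -⟩ :=
    exists_three_roots (F := F) L (Ω := Ω) hg hdeg hd
  have m1 : θ₁ ∈ RootSet (Ω := Ω) g := (hR θ₁).mpr (Or.inl rfl)
  have m2 : θ₂ ∈ RootSet (Ω := Ω) g := (hR θ₂).mpr (Or.inr (Or.inl rfl))
  have m3 : θ₃ ∈ RootSet (Ω := Ω) g := (hR θ₃).mpr (Or.inr (Or.inr rfl))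
  by_contra hno
  have hno' : ∀ σ : Ω ≃ₐ[L] Ω, ∃ θ ∈ RootSet (Ω := Ω) g, σ θ = θ := by
    intro σ
    by_contra h
    apply hno
    refine ⟨σ, hK σ, fun θ hθ h' => h ⟨θ, hθ, h'⟩⟩
  obtain ⟨σ, hσ⟩ := rootSet_transitive (L := L) hg hdeg m1 m2
  obtain ⟨τ, hτ⟩ := rootSet_transitive (L := L) hg hdeg m1 m3
  -- `σ` fixes `θ₃` and exchanges `θ₁`, `θ₂`
  have hσ3 : σ θ₃ = θ₃ := by
    obtain ⟨θ, hθ, h⟩ := hno' σ
    rcases (hR θ).mp hθ with rfl | rfl | rfl
    · exact absurd (h.symm.trans hσ) h12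
    · exact absurd (σ.injective (hσ.trans h.symm)) h12
    · exact h
  have hσ2 : σ θ₂ = θ₁ := by
    rcases (hR _).mp (map_mem_rootSet σ m2) with h | h | h
    · exact h
    · exact absurd (σ.injective (h.trans hσ.symm)) (Ne.symm h12)
    · exact absurd (σ.injective (h.trans hσ3.symm)) h23
  have hτ2 : τ θ₂ = θ₂ := by
    obtain ⟨θ, hθ, h⟩ := hno' τ
    rcases (hR θ).mp hθ with rfl | rfl | rfl
    · exact absurd (h.symm.trans hτ) h13
    · exact h
    · exact absurd (τ.injective (hτ.trans h.symm)) h13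
  have hτ3 : τ θ₃ = θ₁ := by
    rcases (hR _).mp (map_mem_rootSet τ m3) with h | h | h
    · exact h
    · exact absurd (τ.injective (h.trans hτ2.symm)) (Ne.symm h23)
    · exact absurd (τ.injective (h.trans hτ.symm)) (Ne.symm h13)
  obtain ⟨θ, hθ, h⟩ := hno' (σ * τ)
  rw [AlgEquiv.mul_apply] at h
  rcases (hR θ).mp hθ with rfl | rfl | rfl
  · rw [hτ, hσ3] at h
    exact h13 h.symm
  · rw [hτ2, hσ2] at h
    exact h12 h
  · rw [hτ3, hσ] at h
    exact h23 h

/-- The quadratic step. -/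
lemma Cyc.step (hg : g.Monic) (hdeg : g.natDegree = 3) (hd : derivative g ≠ 0) {K : Subfield Ω}
    {a : Ω} (ha : a ^ 2 ∈ K) (h : Cyc L g K) : Cyc L g (K ⊔ Subfield.closure {a}) := by
  obtain ⟨θ₁, θ₂, θ₃, h12, h13, h23, hR, -, -⟩ :=
    exists_three_roots (F := F) L (Ω := Ω) hg hdeg hd
  obtain ⟨σ, hσ, hne⟩ := h
  refine ⟨σ * σ, ?_, ?_⟩
  · apply (fixS_sup ((σ * σ : Ω ≃ₐ[L] Ω) : Ω →+* Ω)).mpr
    refine ⟨fixS_mul hσ hσ, ?_⟩
    change σ (σ a) = a
    rcases eq_or_neg_of_fixS ha (σ : Ω →+* Ω) hσ with h | h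
    · have h' : σ a = a := h
      rw [h', h']
    · have h' : σ a = -a := h
      rw [h', map_neg, h', neg_neg]
  · intro θ hθ
    rw [AlgEquiv.mul_apply]
    rcases cycle_three (T := RootSet (Ω := Ω) g) σ σ.injective hR h12 h13 h23
      (fun θ hθ => map_mem_rootSet σ hθ) hne with ⟨e1, e2, e3⟩ | ⟨e1, e2, e3⟩ <;>
    rcases (hR θ).mp hθ with h | h | h <;> rw [h]
    · rw [e1, e2]; exact Ne.symm h13
    · rw [e2, e3]; exact h12
    · rw [e3, e1]; exact h23
    · rw [e1, e2]; exact Ne.symm h12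
    · rw [e3, e1]; exact Ne.symm h23
    · rw [e2, e3]; exact h13

variable {W : Affine k[X]}

/-- There is no two-torsion point. -/
lemma Cyc.noFix (h2 : (2 : Ω) ≠ 0) (hW : IsTwist Ω W g D) (hg : g.Monic)
    (hdeg : g.natDegree = 3) (hd : derivative g ≠ 0) (hD : D ≠ 0) {K : Subfield Ω}
    (h : Cyc L g K) : NoFix L W K := by
  intro P hP hfix
  obtain ⟨θ₁, θ₂, θ₃, h12, h13, h23, hR, -, -⟩ :=
    exists_three_roots (F := F) L (Ω := Ω) hg hdeg hd
  have hT : ∀ θ, θ ∈ ({θ₁, θ₂, θ₃} : Finset Ω) ↔ θ ∈ RootSet (Ω := Ω) g := by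
    intro θ
    rw [hR]
    simp
  obtain ⟨σ, hσ, hne⟩ := h
  have hinv : ∀ θ, rho (algebraMap F[X] Ω D * σ θ) P = rho (algebraMap F[X] Ω D * θ) P := by
    intro θ
    have h1 := rho_map_two_torsion h2 hW σ θ hP
    rwa [show Point.map (W' := W) (σ : Ω →ₐ[L] Ω) P = P from hfix σ hσ] at h1
  have hs : ∀ θ ∈ RootSet (Ω := Ω) g,
      rho (algebraMap F[X] Ω D * θ) P = rho (algebraMap F[X] Ω D * θ₁) P := by
    intro θ hθ
    rcases cycle_three (T := RootSet (Ω := Ω) g) σ σ.injective hR h12 h13 h23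
      (fun θ hθ => map_mem_rootSet σ hθ) hne with ⟨e1, e2, e3⟩ | ⟨e1, e2, e3⟩ <;>
    rcases (hR θ).mp hθ with h | h | h <;> rw [h]
    · rw [← e1, hinv]
    · rw [← e2, hinv, ← e1, hinv]
    · rw [← e2, hinv, ← e1, hinv]
    · rw [← e1, hinv]
  have hprod := prod_rho_roots L h2 hW hg hdeg hd hD hT hP
  rw [Finset.prod_congr rfl fun θ hθ => hs θ ((hT θ).mp hθ), Finset.prod_const,
    Finset.card_insert_of_notMem (by simp [h12, h13]),
    Finset.card_insert_of_notMem (by simp [h23]), Finset.card_singleton] at hprod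
  apply eq_of_signs L h2 hW hg hdeg hd hD hP (by simp)
  intro θ hθ
  rw [hs θ hθ, rho_zero]
  rcases rho_two_torsion_sq hW.short h2 (algebraMap F[X] Ω D * θ₁) hP with h | h
  · exact h
  · rw [h] at hprod
    rw [h]
    norm_num at hprod
    exact hprod

end Cyc

section Empty

variable {k F : Type*} [Field k] [Field F] [Algebra k F] [Algebra.IsAlgebraic k F] [IsAlgClosed F]

/-- A finite set which is stable under `Aut(F/k)` and has even fibres under `g` is empty, if its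
elements `β` for which the fibre of `g(β)` contains an element of `k(g(β))` are multiple roots. -/
lemma empty_of_stable7 {g : k[X]} (hg : g.Monic) (hdeg : g.natDegree = 3)
    (hd : derivative g ≠ 0) (Z : Finset F)
    (heven : ∀ α, Even (Z.filter fun β => (g.map (algebraMap k F)).eval β = α).card)
    (hZ : ∀ β ∈ Z, (∃ β' : F, aeval β' g = aeval β g ∧ β' ∈ k⟮aeval β g⟯) →
      (derivative (g.map (algebraMap k F))).eval β = 0)
    (hstab : ∀ τ : F ≃ₐ[k] F, ∀ β ∈ Z, τ β ∈ Z) : Z = ∅ := by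
  rw [Finset.eq_empty_iff_forall_notMem]
  intro β hβ
  set gF := g.map (algebraMap k F) with hgF
  have hgFm : gF.Monic := hg.map _
  have hgFd : gF.natDegree = 3 := by rw [hgF, hg.natDegree_map, hdeg]
  have hev : ∀ x : F, gF.eval x = aeval x g := fun x => eval_map_algebraMap g x
  by_cases hD : ∃ β' : F, aeval β' g = aeval β g ∧ β' ∈ k⟮aeval β g⟯
  · have h1 := heven (gF.eval β)
    have h2 : Z.filter (fun β' => gF.eval β' = gF.eval β) = {β} := by
      ext β'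
      rw [Finset.mem_filter, Finset.mem_singleton]
      constructor
      · rintro ⟨h3, h4⟩
        have hne : ∀ x, gF.eval x = gF.eval β → x ∈ Z → (derivative gF).eval x = 0 := by
          intro x hx hxZ
          apply hZ x hxZ
          rw [hev, hev] at hx
          rw [hx]
          exact hD
        exact double_root_unique hgFm hgFd h4 (hne β' h4 h3) (hne β rfl hβ)
      · rintro rfl
        exact ⟨hβ, rfl⟩
    rw [h2, Finset.card_singleton] at h1
    exact absurd h1 (by decide)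
  · have hroot : ∀ β' : F, aeval β' g = aeval β g → β' ∉ k⟮aeval β g⟯ := by
      intro β' h h'
      exact hD ⟨β', h, h'⟩
    obtain ⟨⟨S, hS, hSm⟩, htr⟩ := fibre_transitive hg hdeg hd hroot
    have h1 : Z.filter (fun β' => gF.eval β' = gF.eval β) = S := by
      ext β'
      rw [Finset.mem_filter, hSm, hev, hev]
      constructor
      · exact fun h => h.2
      · intro h
        obtain ⟨τ, rfl⟩ := htr β' h
        exact ⟨hstab τ β hβ, h⟩
    have h2 := heven (gF.eval β)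
    rw [h1, hS] at h2
    exact absurd h2 (by decide)

end Empty

section Base

variable {k F L Ω : Type*} [Field k] [Field F] [Algebra k F] [Algebra.IsAlgebraic k F]
  [IsAlgClosed F] [Field L] [Field Ω]
  [Algebra F[X] L] [IsFractionRing F[X] L] [Algebra L Ω] [Algebra F[X] Ω] [IsScalarTower F[X] L Ω]
  [Algebra k[X] L] [Algebra k[X] Ω] [IsScalarTower k[X] L Ω]
  [IsGalois L Ω] [IsSepClosed Ω] [IsSepClosure L Ω]

variable (hk : ∀ p : k[X], algebraMap k[X] L p = algebraMap F[X] L (p.map (algebraMap k F)))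

variable {W : Affine k[X]} {g D : k[X]}

/-- A cocycle which vanishes near the identity is locally constant. -/
lemma OneC.loc {K : Subfield Ω} (hK : ∀ σ : Ω ≃ₐ[L] Ω, FixS K σ)
    {c : (Ω ≃ₐ[L] Ω) → (W.baseChange Ω).Point} (hc : OneC W K c) : IsLocallyConstant c := by
  obtain ⟨S, hS⟩ := hc.cont
  rw [IsLocallyConstant.iff_exists_open]
  intro σ
  have hfin : FiniteDimensional L (IntermediateField.adjoin L (S : Set Ω)) :=
    IntermediateField.finiteDimensional_adjoin fun x _ => Algebra.IsIntegral.isIntegral x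
  have hopen := IntermediateField.fixingSubgroup_isOpen (IntermediateField.adjoin L (S : Set Ω))
  refine ⟨(fun h => σ⁻¹ * h) ⁻¹' ((IntermediateField.adjoin L (S : Set Ω)).fixingSubgroup :
    Set (Ω ≃ₐ[L] Ω)), hopen.preimage (continuous_const_mul σ⁻¹), ?_, ?_⟩
  · simp only [Set.mem_preimage, inv_mul_cancel]
    exact Subgroup.one_mem _
  · intro h hh
    have h1 : ∀ x ∈ S, (σ⁻¹ * h) x = x := fun x hx =>
      (IntermediateField.mem_fixingSubgroup_iff _ _).mp hh x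
        (IntermediateField.subset_adjoin L (S : Set Ω) hx)
    have h2 := hc.mul σ (σ⁻¹ * h) (hK _) (hK _)
    rw [mul_inv_cancel_left, hS _ (hK _) h1, map_zero, add_zero] at h2
    exact h2

include hk in
/-- The bottom of the tower. -/
theorem PK.base {LT : ((Ω ≃ₐ[L] Ω) → (W.baseChange Ω).Point) → Prop} (hgD : Good g D)
    (hWL : IsTwist L W (g.map (algebraMap k F)) (D.map (algebraMap k F))) {K : Subfield Ω}
    (hK : ∀ σ : Ω ≃ₐ[L] Ω, FixS K σ) (hK' : ∀ γ : Ω ≃ₐ[k[X]] Ω, FixS K γ)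
    (hroot : ∀ c : (Ω ≃ₐ[L] Ω) → (W.baseChange Ω).Point, (∀ σ, 2 • c σ = 0) → LT c →
      ∀ (Z : Finset F) (b : Ω → Ω), IsDesc W (g.map (algebraMap k F)) (D.map (algebraMap k F)) c Z b →
        ∀ β ∈ Z, (∃ β' : F, aeval β' g = aeval β g ∧ β' ∈ k⟮aeval β g⟯) →
          (derivative (g.map (algebraMap k F))).eval β = 0) :
    PK hk W LT K := by
  intro c hc hinv hcL
  have hF := hgD.map F
  have h2Ω : (2 : Ω) ≠ 0 := two_ne_zero_Om (F := F) L Ω hF.two
  have hWΩ : IsTwist Ω W (g.map (algebraMap k F)) (D.map (algebraMap k F)) := hWL.up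
  have hc2 : ∀ σ : Ω ≃ₐ[L] Ω, 2 • c σ = 0 := fun σ => hc.two σ (hK σ)
  obtain ⟨Z, b, hb⟩ := exists_desc (F := F) h2Ω hWΩ hF.monic hF.deg hF.der c hc2
    (fun σ τ => hc.mul σ τ (hK σ) (hK τ)) (hc.loc hK)
  have hZ : Z = ∅ := by
    apply empty_of_stable7 hgD.monic hgD.deg hgD.der Z
      (hb.even h2Ω hWΩ hF.monic hF.deg hF.der hF.ne hc2) (hroot c hc2 hcL Z b hb)
    intro τ β hβ
    obtain ⟨γ, hγ⟩ := exists_lift_aut (Ω := Ω) hk τ
    obtain ⟨A, hA, hAinv⟩ := hinv γ (hK' γ)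
    have hcomp : (τ : F →+* F).comp (algebraMap k F) = algebraMap k F := by
      ext x
      exact τ.commutes x
    have h6 := hb.image_eq h2Ω hWΩ hF.monic hF.deg hF.der hc2 hγ
      (by rw [Polynomial.map_map, hcomp]) (by rw [Polynomial.map_map, hcomp])
      (exists_conj hk γ) hA (fun σ' σ hσ => by
        have h7 := hAinv σ (hK σ)
        rw [cj_unique hk hσ] at h7
        exact h7)
    rw [← h6]
    exact Finset.mem_image_of_mem _ hβ
  subst hZ
  obtain ⟨P, hP, h1⟩ := hb.coboundary h2Ω hWΩ hF.monic hF.deg hF.der hF.ne hc2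
  exact ⟨P, hP, fun σ _ => h1 σ⟩

include hk in
/-- The vanishing of the invariant classes over the fields of the tower. -/
theorem PK.tower {LT : ((Ω ≃ₐ[L] Ω) → (W.baseChange Ω).Point) → Prop} (hgD : Good g D)
    (hWL : IsTwist L W (g.map (algebraMap k F)) (D.map (algebraMap k F))) {K₀ Kt : Subfield Ω}
    (hK : ∀ σ : Ω ≃ₐ[L] Ω, FixS K₀ σ) (hK' : ∀ γ : Ω ≃ₐ[k[X]] Ω, FixS K₀ γ)
    (hLT : TowAx hk W Kt LT)
    (hroot : ∀ c : (Ω ≃ₐ[L] Ω) → (W.baseChange Ω).Point, (∀ σ, 2 • c σ = 0) → LT c →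
      ∀ (Z : Finset F) (b : Ω → Ω), IsDesc W (g.map (algebraMap k F)) (D.map (algebraMap k F)) c Z b →
        ∀ β ∈ Z, (∃ β' : F, aeval β' g = aeval β g ∧ β' ∈ k⟮aeval β g⟯) →
          (derivative (g.map (algebraMap k F))).eval β = 0)
    {K : Subfield Ω} (hT : IsSqrtTower K₀ K) (hle : K ≤ Kt) :
    PK hk W LT K ∧ NoFix L W K := by
  have hF := hgD.map F
  have h2Ω : (2 : Ω) ≠ 0 := two_ne_zero_Om (F := F) L Ω hF.two
  have hWΩ : IsTwist Ω W (g.map (algebraMap k F)) (D.map (algebraMap k F)) := hWL.up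
  have key : PK hk W LT K ∧ Cyc L (g.map (algebraMap k F)) K := by
    induction hT with
    | base => exact ⟨PK.base hk hgD hWL hK hK' hroot, cyc_base hF.monic hF.deg hF.der hK⟩
    | step K a hT ha ih =>
      obtain ⟨h1, h2⟩ := ih (le_trans le_sup_left hle)
      have h3 := h2.step hF.monic hF.deg hF.der ha
      exact ⟨h1.step hk hLT ha hle (h3.noFix h2Ω hWΩ hF.monic hF.deg hF.der hF.ne), h3⟩
  exact ⟨key.1, key.2.noFix h2Ω hWΩ hF.monic hF.deg hF.der hF.ne⟩

end Base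

end Pool.Agent.Lib.MP_89bcae_ag
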