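import Mathlib
import Pool.Agent.Lib.MP_89bcae_ag.Tower7B

/-!
# The tower: the higher levels and the final theorem
-/

open Polynomial WeierstrassCurve WeierstrassCurve.Affine IntermediateField IsDedekindDomain

open scoped Classical

namespace Pool.Agent.Lib.MP_89bcae_ag

set_option linter.unusedSectionVars false
set_option linter.style.haveILetI false

section Levels

variable {k F L Ω : Type*} [Field k] [Field F] [Algebra k F] [Algebra.IsAlgebraic k F]
  [IsAlgClosed F] [Field L] [Field Ω]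
  [Algebra F[X] L] [IsFractionRing F[X] L] [Algebra L Ω] [Algebra F[X] Ω] [IsScalarTower F[X] L Ω]
  [Algebra k[X] L] [Algebra k[X] Ω] [IsScalarTower k[X] L Ω]
  [IsGalois L Ω] [IsSepClosed Ω] [IsSepClosure L Ω]

variable (hk : ∀ p : k[X], algebraMap k[X] L p = algebraMap F[X] L (p.map (algebraMap k F)))

/-- A continuous cocycle of the Galois group fixing `K` with values in the Tate module. -/
structure TCOn (W : Affine k[X]) (K : Subfield Ω)
    (c : ℕ → (Ω ≃ₐ[L] Ω) → (W.baseChange Ω).Point) : Prop where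
  zero : ∀ σ : Ω ≃ₐ[L] Ω, FixS K σ → c 0 σ = 0
  two : ∀ n, ∀ σ : Ω ≃ₐ[L] Ω, FixS K σ → 2 • c (n + 1) σ = c n σ
  mul : ∀ n, ∀ σ τ : Ω ≃ₐ[L] Ω, FixS K σ → FixS K τ → c n (σ * τ) = c n σ + sm W σ (c n τ)
  cont : ∀ n, ∃ S : Finset Ω, ∀ σ : Ω ≃ₐ[L] Ω, FixS K σ → (∀ x ∈ S, σ x = x) → c n σ = 0

/-- The class is fixed by `γ` up to torsion. -/
def InvMTOn (W : Affine k[X]) (K : Subfield Ω)
    (c : ℕ → (Ω ≃ₐ[L] Ω) → (W.baseChange Ω).Point) (γ : Ω ≃ₐ[k[X]] Ω) : Prop :=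
  ∃ m : ℕ, 0 < m ∧ ∀ n, ∃ A : (W.baseChange Ω).Point, 2 ^ n • A = 0 ∧
    ∀ σ : Ω ≃ₐ[L] Ω, FixS K σ →
      m • (gm W γ (c n (cj hk γ σ)) - c n σ) = sm W σ A - A

variable {W : Affine k[X]}

lemma NoFix.pow {K : Subfield Ω} (h : NoFix L W K) (n : ℕ) {P : (W.baseChange Ω).Point}
    (hP : 2 ^ n • P = 0) (hfix : ∀ σ : Ω ≃ₐ[L] Ω, FixS K σ → sm W σ P = P) : P = 0 := by
  induction n with
  | zero => simpa using hP
  | succ n ih =>
    apply ih
    apply h
    · rw [← mul_smul, mul_comm, ← pow_succ]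
      exact hP
    · intro σ hσ
      rw [map_nsmul, hfix σ hσ]

lemma TCOn.two_pow {K : Subfield Ω} {c : ℕ → (Ω ≃ₐ[L] Ω) → (W.baseChange Ω).Point}
    (hc : TCOn W K c) (n : ℕ) {σ : Ω ≃ₐ[L] Ω} (hσ : FixS K σ) : 2 ^ n • c n σ = 0 := by
  induction n with
  | zero => rw [hc.zero σ hσ, smul_zero]
  | succ m ih => rw [pow_succ, mul_smul, hc.two m σ hσ, ih]

lemma TCOn.one {K : Subfield Ω} {c : ℕ → (Ω ≃ₐ[L] Ω) → (W.baseChange Ω).Point}
    (hc : TCOn W K c) : OneC W K (c 1) where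
  two σ hσ := by rw [hc.two 0 σ hσ, hc.zero σ hσ]
  mul := hc.mul 1
  cont := hc.cont 1

/-- Invariance up to torsion implies invariance at the first level. -/
lemma InvMTOn.one {K : Subfield Ω} (hN : NoFix L W K)
    {c : ℕ → (Ω ≃ₐ[L] Ω) → (W.baseChange Ω).Point} (hc : TCOn W K c) {γ : Ω ≃ₐ[k[X]] Ω}
    (hγ : FixS K γ) (hinv : InvMTOn hk W K c γ) : InvBy hk W K (c 1) γ := by
  obtain ⟨m, hm, H⟩ := hinv
  obtain ⟨a, m', hm', rfl⟩ := Nat.exists_eq_two_pow_mul_odd hm.ne'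
  obtain ⟨A, hA, HA⟩ := H (a + 1)
  have hlev : ∀ (j : ℕ) (σ : Ω ≃ₐ[L] Ω), FixS K σ → 2 ^ j • c (j + 1) σ = c 1 σ := by
    intro j σ hσ
    induction j with
    | zero => simp
    | succ j ih => rw [pow_succ, mul_smul, hc.two _ σ hσ, ih]
  have hodd : ∀ P : (W.baseChange Ω).Point, 2 • P = 0 → m' • P = P := by
    intro P hP
    obtain ⟨r, rfl⟩ := hm'
    rw [add_smul, one_smul, mul_comm, mul_smul, hP, smul_zero, zero_add]
  have key : ∀ σ : Ω ≃ₐ[L] Ω, FixS K σ →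
      gm W γ (c 1 (cj hk γ σ)) - c 1 σ = sm W σ A - A := by
    intro σ hσ
    have hσ' : FixS K (cj hk γ σ) := cj_fix hk hγ hσ
    rw [← HA σ hσ, mul_comm, mul_smul, smul_sub (2 ^ a), ← map_nsmul, hlev a _ hσ', hlev a σ hσ]
    symm
    apply hodd
    rw [smul_sub, ← map_nsmul, hc.one.two _ hσ', hc.one.two _ hσ, map_zero, sub_zero]
  refine ⟨A, ?_, key⟩
  apply hN.pow a
  · rw [← mul_smul, ← pow_succ]
    exact hA
  · intro σ hσ
    have hσ' : FixS K (cj hk γ σ) := cj_fix hk hγ hσ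
    have e1 := congrArg (fun P => 2 • P) (key σ hσ)
    rw [smul_sub 2, smul_sub 2, ← map_nsmul, ← map_nsmul, hc.one.two _ hσ', hc.one.two _ hσ,
      map_zero, sub_zero] at e1
    exact (sub_eq_zero.mp e1.symm)

omit [Algebra.IsAlgebraic k F] [IsAlgClosed F] [IsSepClosed Ω] [IsSepClosure L Ω] in
lemma exists_fix_set (P : (W.baseChange Ω).Point) :
    ∃ S : Finset Ω, ∀ σ : Ω ≃ₐ[L] Ω, (∀ x ∈ S, σ x = x) → sm W σ P = P := by
  rcases P with _ | ⟨x, y, h⟩
  · exact ⟨∅, fun σ _ => rfl⟩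
  · refine ⟨{x, y}, fun σ hσ => ?_⟩
    rw [sm, Point.map_some]
    simp only [Point.some.injEq]
    exact ⟨hσ x (by simp), hσ y (by simp)⟩

/-- The quotient by two of `c - δ(q)`, where `c` agrees with `δ(q)` at the first level. -/
lemma TCOn.half {K : Subfield Ω} {c : ℕ → (Ω ≃ₐ[L] Ω) → (W.baseChange Ω).Point}
    (hc : TCOn W K c) {q : ℕ → (W.baseChange Ω).Point} (hq : ∀ n, q (n + 1) + q (n + 1) = q n)
    (h1 : ∀ σ : Ω ≃ₐ[L] Ω, FixS K σ → c 1 σ = sm W σ (q 1) - q 1) :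
    TCOn W K (fun n (σ : Ω ≃ₐ[L] Ω) => c (n + 1) σ - (sm W σ (q (n + 1)) - q (n + 1))) where
  zero σ hσ := by
    rw [zero_add, h1 σ hσ, sub_self]
  two n σ hσ := by
    rw [smul_sub, hc.two _ σ hσ, smul_sub, ← map_nsmul, two_nsmul (q (n + 1 + 1)), hq]
  mul n σ τ hσ hτ := by
    rw [hc.mul _ σ τ hσ hτ, sm_mul, map_sub, map_sub]
    abel
  cont n := by
    obtain ⟨S, hS⟩ := hc.cont (n + 1)
    obtain ⟨T, hT⟩ := exists_fix_set (L := L) (q (n + 1))
    refine ⟨S ∪ T, fun σ hσ h => ?_⟩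
    rw [hS σ hσ (fun x hx => h x (Finset.mem_union_left _ hx)),
      hT σ (fun x hx => h x (Finset.mem_union_right _ hx)), sub_self, sub_zero]

/-- Invariance up to torsion is inherited. -/
lemma InvMTOn.half {K : Subfield Ω} {c : ℕ → (Ω ≃ₐ[L] Ω) → (W.baseChange Ω).Point}
    {q : ℕ → (W.baseChange Ω).Point} (hq : ∀ n, q (n + 1) + q (n + 1) = q n) {γ : Ω ≃ₐ[k[X]] Ω}
    (hfix : gm W γ (q 0) = q 0)
    (hinv : InvMTOn hk W K c γ) : InvMTOn hk W K (fun n (σ : Ω ≃ₐ[L] Ω) => c (n + 1) σ -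
      (sm W σ (q (n + 1)) - q (n + 1))) γ := by
  obtain ⟨m, hm, H⟩ := hinv
  refine ⟨2 * m, by positivity, fun n => ?_⟩
  obtain ⟨A, hA, HA⟩ := H (n + 1)
  set B := gm W γ (q (n + 1)) - q (n + 1) with hB
  refine ⟨2 • (A - m • B), ?_, ?_⟩
  · have hB' : 2 ^ (n + 1) • B = 0 := by
      rw [hB, smul_sub, ← map_nsmul, two_pow_seq8 hq, hfix, sub_self]
    rw [← mul_smul, ← pow_succ, smul_sub, hA, smul_comm, hB', smul_zero, sub_zero]
  · intro σ hσ
    have e2 := HA σ hσ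
    have e3 : gm W γ (c (n + 1) (cj hk γ σ) -
      (sm W (cj hk γ σ) (q (n + 1)) - q (n + 1))) - (c (n + 1) σ -
      (sm W σ (q (n + 1)) - q (n + 1))) =
      (gm W γ (c (n + 1) (cj hk γ σ)) - c (n + 1) σ) - (sm W σ B - B) := by
      rw [map_sub, map_sub, gm_sm, hB, map_sub]
      abel
    have e4 : sm W σ (A - m • B) = sm W σ A - m • sm W σ B := by
      rw [map_sub, map_nsmul]
    change (2 * m) • (gm W γ (c (n + 1) (cj hk γ σ) -
      (sm W (cj hk γ σ) (q (n + 1)) - q (n + 1))) - (c (n + 1) σ -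
      (sm W σ (q (n + 1)) - q (n + 1)))) = _
    rw [e3, mul_smul, smul_sub m, e2, map_nsmul, e4, ← smul_sub 2]
    congr 1
    rw [smul_sub m]
    abel

/-- The vanishing at all levels. -/
theorem trivial_of_PK {LT : ((Ω ≃ₐ[L] Ω) → (W.baseChange Ω).Point) → Prop} {Kt K : Subfield Ω}
    (hLT : TowAx hk W Kt LT) (hPK : PK hk W LT K) (hN : NoFix L W K)
    (hhalf : ∀ P : (W.baseChange Ω).Point, ∃ Q, Q + Q = P)
    (n : ℕ) : ∀ c : ℕ → (Ω ≃ₐ[L] Ω) → (W.baseChange Ω).Point, TCOn W K c → (∀ m, LT (c m)) →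
      (∀ γ : Ω ≃ₐ[k[X]] Ω, FixS K γ → InvMTOn hk W K c γ) →
      ∃ Q : (W.baseChange Ω).Point, 2 ^ n • Q = 0 ∧
        ∀ σ : Ω ≃ₐ[L] Ω, FixS K σ → c n σ = sm W σ Q - Q := by
  induction n with
  | zero =>
    intro c hc _ _
    exact ⟨0, by simp, fun σ hσ => by rw [hc.zero σ hσ, map_zero, sub_zero]⟩
  | succ n ih =>
    intro c hc hS hinv
    obtain ⟨P, hP, hcP⟩ := hPK (c 1) hc.one (fun γ hγ => (hinv γ hγ).one hk hN hc hγ) (hS 1)
    obtain ⟨q, hq0, hq1, hq⟩ := exists_seq8 hhalf 0 P (by rw [← two_nsmul]; exact hP)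
    have h1 : ∀ σ : Ω ≃ₐ[L] Ω, FixS K σ → c 1 σ = sm W σ (q 1) - q 1 := by
      intro σ hσ; rw [hq1]; exact hcP σ hσ
    obtain ⟨Q, hQ, hcQ⟩ := ih _ (hc.half hq h1)
      (fun m => by
        have e1 := hLT.add _ _ (hS (m + 1)) (hLT.neg _ (hLT.cob (q (m + 1))))
        have e2 : (fun σ : Ω ≃ₐ[L] Ω => c (m + 1) σ - (sm W σ (q (m + 1)) - q (m + 1))) =
            c (m + 1) + -(fun σ : Ω ≃ₐ[L] Ω => sm W σ (q (m + 1)) - q (m + 1)) := by
          funext σ
          simp only [Pi.add_apply, Pi.neg_apply, sub_eq_add_neg]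
        rw [e2]
        exact e1)
      (fun γ hγ => (hinv γ hγ).half hk hq (by rw [hq0, map_zero]))
    refine ⟨Q + q (n + 1), ?_, fun σ hσ => ?_⟩
    · rw [smul_add, pow_succ, mul_comm, mul_smul, hQ, smul_zero, zero_add, mul_comm, ← pow_succ,
        two_pow_seq8 hq, hq0]
    · have := hcQ σ hσ
      rw [sub_eq_iff_eq_add] at this
      rw [this, map_add]
      abel

end Levels

universe u

section Local

variable {k F L Ω : Type u} [Field k] [Field F] [Algebra k F] [IsAlgClosed F]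
  [Field L] [Algebra F[X] L] [IsFractionRing F[X] L] [Field Ω]
  [Algebra L Ω] [IsGalois L Ω] [IsSepClosed Ω]

/-- An automorphism inducing an automorphism of the completion fixes a field which splits. -/
lemma fixS_of_splitsAt {K : Subfield Ω} {Lv M : Type u} [Field Lv] [Algebra L Lv] [Field M]
    [Algebra Lv M] [IsSepClosure Lv M] [Algebra L M] [IsScalarTower L Lv M]
    (hK : SplitsAt (L := L) K Lv) (j : Ω →ₐ[L] M) {g : M ≃ₐ[Lv] M} {g' : Ω ≃ₐ[L] Ω}
    (h : ∀ x, j (g' x) = g (j x)) : FixS K g' := by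
  intro x hx
  obtain ⟨y, hy⟩ := hK M j x hx
  apply (j : Ω →+* M).injective
  change j (g' x) = j x
  rw [h, ← hy, g.commutes]

/-- The set `Z` of a class which is locally trivial at the place `t = g(β)` does not contain `β`,
up to multiple roots. -/
lemma eval_eq_zero_of_isLocallyTrivial7 {g D : k[X]} (hgD : Good g D)
    (c : (Ω ≃ₐ[L] Ω) → ((twist g D).map (base k F L Ω)).toAffine.Point)
    (hc2 : ∀ σ, 2 • c σ = 0) {Z : Finset F} {b : Ω → Ω}
    (hb : letI := algK k F L L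
      letI := algK k F L Ω
      letI := algF F L Ω
      haveI : IsScalarTower F[X] L Ω := IsScalarTower.of_algebraMap_eq fun _ => rfl
      haveI : IsScalarTower k[X] L Ω := IsScalarTower.of_algebraMap_eq fun _ => rfl
      Desc (L := L) g D (twist g D).toAffine c Z b) {β : F} (hβ : β ∈ Z)
    (hS : IsLocallyTrivial (twist g D) c
      ((placeAt ((g.map (algebraMap k F)).eval β)).adicCompletion L))
    (hDβ : (D.map (algebraMap k F)).eval ((g.map (algebraMap k F)).eval β) ≠ 0) :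
    (derivative (g.map (algebraMap k F))).eval β = 0 := by
  by_contra hgβ
  have hF := hgD.map F
  obtain ⟨θv, hθv, e1, e2, e3⟩ := exists_local_root (F := F) L hF.monic hF.deg hgβ
  have h2v : (2 : (placeAt ((g.map (algebraMap k F)).eval β)).adicCompletion L) ≠ 0 := by
    intro h0
    have h3 := val_eq_one L ((g.map (algebraMap k F)).eval β) (p := C 2)
      (by rw [eval_C]; exact hF.two)
    have h4 : (C (2 : F) : F[X]) = 2 := map_ofNat C 2
    rw [h4, map_ofNat, h0, map_zero] at h3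
    exact zero_ne_one h3
  have hj : Nonempty (Ω →ₐ[L] SeparableClosure
      ((placeAt ((g.map (algebraMap k F)).eval β)).adicCompletion L)) := ⟨IsSepClosed.lift⟩
  obtain ⟨j⟩ := hj
  obtain ⟨Q, hQ⟩ := hS (SeparableClosure
    ((placeAt ((g.map (algebraMap k F)).eval β)).adicCompletion L)) j
  exact notMem_of_isLocallyTrivial_aux hgD c hc2 hb Valued.v hθv e1 e2 (val_eq_one L _ hDβ)
    (val_le_one L _) e3 (val_X_sub_C L _)
    (fun α hα => val_eq_one L _ (by
      rw [eval_sub, eval_X, eval_C]; exact sub_ne_zero.mpr (Ne.symm hα))) h2v ⟨j, Q, hQ⟩ hβ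

end Local

section Final

variable {k F L Ω : Type u} [Field k] [Field F] [Algebra k F] [Algebra.IsAlgebraic k F]
  [IsAlgClosed F] [Field L] [Algebra F[X] L] [IsFractionRing F[X] L] [Field Ω]
  [Algebra L Ω] [IsGalois L Ω] [IsSepClosed Ω] [IsSepClosure L Ω]

/-- The field `K` splits at the conjugates of the place `t = τ`. -/
def GoodPl (k : Type u) {F : Type u} (L : Type u) {Ω : Type u} [Field k] [Field F] [Algebra k F]
    [Field L] [Algebra F[X] L] [IsFractionRing F[X] L] [Field Ω] [Algebra L Ω] (K : Subfield Ω)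
    (τ : F) : Prop :=
  ∀ ρ : F ≃ₐ[k] F, SplitsAt (L := L) K ((placeAt (ρ τ)).adicCompletion L)

/-- The local conditions at the places where the field splits. -/
def LT7 (W : WeierstrassCurve k[X]) (K : Subfield Ω)
    (c : (Ω ≃ₐ[L] Ω) → (W.map (base k F L Ω)).toAffine.Point) : Prop :=
  ∀ τ : F, GoodPl k L K τ → IsLocallyTrivial W c ((placeAt τ).adicCompletion L)

lemma towAx_of {g D : k[X]} (K : Subfield Ω) :
    letI := algK k F L L
    letI := algK k F L Ω
    letI := algF F L Ω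
    haveI : IsScalarTower F[X] L Ω := IsScalarTower.of_algebraMap_eq fun _ => rfl
    haveI : IsScalarTower k[X] L Ω := IsScalarTower.of_algebraMap_eq fun _ => rfl
    TowAx (k := k) (F := F) (L := L) (Ω := Ω) (fun _ => rfl) (twist g D).toAffine
      K (LT7 (twist g D) K) := by
  letI := algK k F L L
  letI := algK k F L Ω
  letI := algF F L Ω
  haveI : IsScalarTower F[X] L Ω := IsScalarTower.of_algebraMap_eq fun _ => rfl
  haveI : IsScalarTower k[X] L Ω := IsScalarTower.of_algebraMap_eq fun _ => rfl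
  have hk : ∀ p : k[X], algebraMap k[X] L p = algebraMap F[X] L (p.map (algebraMap k F)) :=
    fun _ => rfl
  let W : Affine k[X] := (twist g D).toAffine
  refine ⟨?_, ?_, ?_, ?_, ?_⟩
  · intro c c' hc hc' τ hτ
    exact (hc τ hτ).add (hc' τ hτ) (fun _ => rfl)
  · intro c hc τ hτ
    exact (hc τ hτ).neg (fun _ => rfl)
  · intro q τ _
    apply isLocallyTrivial_cob (W := twist g D) q
    intro σ q' hq'
    rw [(isImage_iff (W := twist g D) (σ : Ω →ₐ[L] Ω) _ _).mp hq']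
    rfl
  · intro γ c hc τ' hτ'
    obtain ⟨τ, rfl⟩ : ∃ τ, (resF hk γ) τ = τ' := (resF hk γ).surjective τ'
    have hτ : GoodPl k L K τ := by
      intro ρ
      have h1 := hτ' (ρ * (resF hk γ)⁻¹)
      have h2 : (ρ * (resF hk γ)⁻¹ : F ≃ₐ[k] F) ((resF hk γ) τ) = ρ τ := by
        rw [AlgEquiv.mul_apply, ← AlgEquiv.mul_apply (resF hk γ)⁻¹, inv_mul_cancel]
        rfl
      rwa [h2] at h1
    obtain ⟨φ, hφ, -⟩ := exists_adic_equiv L ((resF hk γ : F ≃ₐ[k] F) : F ≃+* F) τ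
    refine IsLocallyTrivial.conj (W := twist g D) (c := c)
      (coefL L ((resF hk γ : F ≃ₐ[k] F) : F ≃+* F)) ?_ φ hφ (γ : Ω ≃+* Ω) ?_ ?_ (hc τ hτ)
    · intro p
      change coefL L _ (algebraMap F[X] L (p.map (algebraMap k F))) =
        algebraMap F[X] L (p.map (algebraMap k F))
      rw [coefL_algebraMap]
      congr 1
      exact map_fix (resF hk γ) p
    · intro x
      obtain ⟨p, q, hq, rfl⟩ := IsFractionRing.div_surjective (A := F[X]) x
      rw [map_div₀, map_div₀, map_div₀, map_div₀, coefL_algebraMap, coefL_algebraMap,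
        ← IsScalarTower.algebraMap_apply, ← IsScalarTower.algebraMap_apply,
        ← IsScalarTower.algebraMap_apply, ← IsScalarTower.algebraMap_apply]
      have h1 : ∀ r : F[X], (γ : Ω ≃+* Ω) (algebraMap F[X] Ω r) = algebraMap F[X] Ω
          (r.map ((resF hk γ : F ≃ₐ[k] F) : F →+* F)) := fun r => resF_spec hk γ r
      rw [h1, h1]
      rfl
    · intro σ σ' hσ
      have h1 : cj hk γ σ = σ' := cj_unique hk hσ
      change IsImage _ _ (gm W γ (c (cj hk γ σ)))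
      rw [h1]
      exact isImage_map (W := twist g D) (γ : Ω →ₐ[k[X]] Ω) (c σ')
  · intro c c' hcc hc τ hτ M _ _ _ _ _ j
    have hsp : SplitsAt (L := L) K ((placeAt τ).adicCompletion L) := by
      have := hτ 1
      exact this
    obtain ⟨Q, hQ⟩ := hc τ hτ M j
    refine ⟨Q, fun g g' hg P hP => ?_⟩
    rw [← hcc g' (fixS_of_splitsAt hsp j hg)]
    exact hQ g g' hg P hP

/-- Neighbourhoods of the identity. -/
lemma exists_finset_of_locallyConstant {K : Subfield Ω} {Y : Type*}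
    {c : galOver L K → Y} (hc : IsLocallyConstant c) :
    ∃ S : Finset Ω, ∀ σ : galOver L K, (∀ x ∈ S, (σ : Ω ≃ₐ[L] Ω) x = x) → c σ = c 1 := by
  have h1 : IsOpen (c ⁻¹' {c 1}) := hc {c 1}
  rw [isOpen_induced_iff] at h1
  obtain ⟨U, hU, hUc⟩ := h1
  have h2 : (1 : Ω ≃ₐ[L] Ω) ∈ U := by
    have : (1 : galOver L K) ∈ Subtype.val ⁻¹' U := by rw [hUc]; rfl
    exact this
  obtain ⟨E, hE, hEU⟩ := (krullTopology_mem_nhds_one_iff L Ω U).mp (hU.mem_nhds h2)
  obtain ⟨S, hS⟩ := IntermediateField.fg_of_fg_toSubalgebra E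
    (Subalgebra.fg_of_fg_toSubmodule (Module.Finite.iff_fg.mp hE))
  refine ⟨S, fun σ hσ => ?_⟩
  have h3 : (σ : Ω ≃ₐ[L] Ω) ∈ E.fixingSubgroup := by
    rw [IntermediateField.mem_fixingSubgroup_iff, ← hS]
    intro x hx
    induction hx using IntermediateField.adjoin_induction with
    | mem x hx => exact hσ x hx
    | algebraMap x => exact (σ : Ω ≃ₐ[L] Ω).commutes x
    | add x y _ _ h1 h2 => rw [map_add, h1, h2]
    | inv x _ h1 => rw [map_inv₀, h1]
    | mul x y _ _ h1 h2 => rw [map_mul, h1, h2]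
  have h4 : σ ∈ Subtype.val ⁻¹' U := hEU h3
  rw [hUc] at h4
  exact h4

/-- Invariant Selmer classes vanish over the fields of the tower. -/
theorem isTrivialOver_of_invariant {g D : k[X]} (hgD : Good g D) {K : Subfield Ω}
    (hK : IsSqrtTower (Subfield.closure (Set.range (base k F L Ω))) K)
    (hirr : ∀ β : F, β ∈ k⟮aeval β g⟯ →
      aeval (aeval β g) D ≠ 0 ∧ SplitsAt (L := L) K ((placeAt (aeval β g)).adicCompletion L))
    (c : ℕ → galOver L K → ((twist g D).map (base k F L Ω)).toAffine.Point)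
    (hc : IsTateCocycleOver (twist g D) K c)
    (hS : ∀ (τ : F) (n : ℕ), IsLocallyTrivialOver (twist g D) K (c n)
      ((placeAt τ).adicCompletion L))
    (hinv : ∀ γ : Ω ≃+* Ω, (∀ x ∈ K, γ x = x) → IsFixedByOver (twist g D) K c γ) :
    IsTrivialOver (twist g D) K c := by
  letI := algK k F L L
  letI := algK k F L Ω
  letI := algF F L Ω
  haveI : IsScalarTower F[X] L Ω := IsScalarTower.of_algebraMap_eq fun _ => rfl
  haveI : IsScalarTower k[X] L Ω := IsScalarTower.of_algebraMap_eq fun _ => rfl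
  have hk : ∀ p : k[X], algebraMap k[X] L p = algebraMap F[X] L (p.map (algebraMap k F)) :=
    fun _ => rfl
  let W : Affine k[X] := (twist g D).toAffine
  have hWL : IsTwist L W (g.map (algebraMap k F)) (D.map (algebraMap k F)) := isTwist_twist hk
  have hWΩ : IsTwist Ω W (g.map (algebraMap k F)) (D.map (algebraMap k F)) := hWL.up
  -- extension by zero
  let c' : ℕ → (Ω ≃ₐ[L] Ω) → (W.baseChange Ω).Point := fun n σ =>
    if h : σ ∈ galOver L K then c n ⟨σ, h⟩ else 0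
  have hc' : ∀ n (σ : Ω ≃ₐ[L] Ω) (h : σ ∈ galOver L K), c' n σ = c n ⟨σ, h⟩ := fun n σ h =>
    dif_pos h
  have hTC : TCOn W K c' := by
    refine ⟨?_, ?_, ?_, ?_⟩
    · intro σ hσ
      rw [hc' 0 σ hσ]
      exact hc.zero _
    · intro n σ hσ
      rw [hc' _ σ hσ, hc' _ σ hσ]
      exact hc.two_smul n _
    · intro n σ τ hσ hτ
      rw [hc' n σ hσ, hc' n τ hτ, hc' n (σ * τ) (fixS_mul hσ hτ)]
      exact hc.cocycle n ⟨σ, hσ⟩ ⟨τ, hτ⟩ _
        (isImage_map (W := twist g D) (σ : Ω →ₐ[L] Ω) (c n ⟨τ, hτ⟩))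
    · intro n
      obtain ⟨S, hS⟩ := exists_finset_of_locallyConstant (hc.locallyConstant n)
      have h1 : c n 1 = (0 : (W.baseChange Ω).Point) := by
        have h2 := hc.cocycle n 1 1 _
          (isImage_map (W := twist g D) ((1 : Ω ≃ₐ[L] Ω) : Ω →ₐ[L] Ω) (c n 1))
        have h3 : Point.map (W' := W) ((1 : Ω ≃ₐ[L] Ω) : Ω →ₐ[L] Ω) (c n 1) = c n 1 := sm_one W _
        rw [mul_one] at h2
        let x : (W.baseChange Ω).Point := c n 1
        have h4 : x = x + Point.map (W' := W) ((1 : Ω ≃ₐ[L] Ω) : Ω →ₐ[L] Ω) x := h2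
        have h5 : Point.map (W' := W) ((1 : Ω ≃ₐ[L] Ω) : Ω →ₐ[L] Ω) x = x := h3
        rw [h5] at h4
        exact (left_eq_add.mp h4)
      refine ⟨S, fun σ hσ h => ?_⟩
      rw [hc' n σ hσ]
      exact (hS ⟨σ, hσ⟩ h).trans h1
  have hLT : ∀ m, LT7 (twist g D) K (c' m) := by
    intro m τ hτ M _ _ _ _ _ j
    have hsp : SplitsAt (L := L) K ((placeAt τ).adicCompletion L) := by
      have := hτ 1
      exact this
    obtain ⟨Q, hQ⟩ := hS τ m M j
    refine ⟨Q, fun s s' hs P hP => ?_⟩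
    have hmem : s' ∈ galOver L K := fixS_of_splitsAt hsp j hs
    rw [hc' m s' hmem]
    exact hQ s ⟨s', hmem⟩ hs P hP
  have hinv' : ∀ γ : Ω ≃ₐ[k[X]] Ω, FixS K γ → InvMTOn hk W K c' γ := by
    intro γ hγ
    obtain ⟨m, hm, H⟩ := hinv γ.toRingEquiv hγ
    refine ⟨m, hm, fun n => ?_⟩
    obtain ⟨A, hA, HA⟩ := H n
    refine ⟨A, hA, fun σ hσ => ?_⟩
    have hσ' : FixS K (cj hk γ σ) := cj_fix hk hγ hσ
    rw [hc' n σ hσ, hc' n _ hσ']
    exact HA ⟨cj hk γ σ, hσ'⟩ ⟨σ, hσ⟩ (fun x => cj_spec hk γ σ x) _ _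
      (isImage_map (W := twist g D) (γ : Ω →ₐ[k[X]] Ω) (c n ⟨cj hk γ σ, hσ'⟩))
      (isImage_map (W := twist g D) (σ : Ω →ₐ[L] Ω) A)
  -- the bottom of the tower
  have hK₀ : ∀ f : Ω →+* Ω, (∀ p : k[X], f (base k F L Ω p) = base k F L Ω p) →
      FixS (Subfield.closure (Set.range (base k F L Ω))) f := by
    intro f hf
    have h3 : Subfield.closure (Set.range (base k F L Ω)) ≤
        RingHom.eqLocusField f (RingHom.id Ω) := by
      rw [Subfield.closure_le]
      rintro x ⟨p, rfl⟩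
      exact hf p
    intro x hx
    exact h3 hx
  have hroot : ∀ c : (Ω ≃ₐ[L] Ω) → (W.baseChange Ω).Point, (∀ σ, 2 • c σ = 0) →
      LT7 (twist g D) K c → ∀ (Z : Finset F) (b : Ω → Ω),
        IsDesc W (g.map (algebraMap k F)) (D.map (algebraMap k F)) c Z b →
          ∀ β ∈ Z, (∃ β' : F, aeval β' g = aeval β g ∧ β' ∈ k⟮aeval β g⟯) →
            (derivative (g.map (algebraMap k F))).eval β = 0 := by
    rintro c hc2 hcL Z b hb β hβ ⟨β', hβ', hmem⟩
    have hgood : GoodPl k L K (aeval β g) := by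
      intro ρ
      have h1 : aeval (ρ β') g = ρ (aeval β g) := by
        rw [← hβ', aeval_algHom_apply]
      have h2 : ρ β' ∈ k⟮aeval (ρ β') g⟯ := by
        rw [h1]
        have h3 : (k⟮aeval β g⟯).map (ρ : F →ₐ[k] F) = k⟮ρ (aeval β g)⟯ := by
          rw [IntermediateField.adjoin_map, Set.image_singleton]
          rfl
        rw [← h3]
        exact ⟨β', hmem, rfl⟩
      have h4 := (hirr (ρ β') h2).2
      rwa [h1] at h4
    have hDβ := (hirr β' (by rw [hβ']; exact hmem)).1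
    rw [hβ'] at hDβ
    have hev : (g.map (algebraMap k F)).eval β = aeval β g := eval_map_algebraMap g β
    apply eval_eq_zero_of_isLocallyTrivial7 hgD c hc2 hb hβ
    · rw [hev]
      exact hcL _ hgood
    · rw [hev, eval_map_algebraMap]
      exact hDβ
  obtain ⟨hPK, hNF⟩ := PK.tower hk hgD hWL
    (K₀ := Subfield.closure (Set.range (base k F L Ω))) (Kt := K)
    (fun σ => hK₀ (σ : Ω →+* Ω) (fun p => σ.commutes _))
    (fun γ => hK₀ (γ : Ω →+* Ω) (fun p => γ.commutes p))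
    (towAx_of (g := g) (D := D) K) hroot hK le_rfl
  intro n
  obtain ⟨Q, hQ, hcQ⟩ := trivial_of_PK hk (towAx_of (g := g) (D := D) K) hPK hNF
    (exists_halves L (hgD.map F) hWΩ) n c' hTC hLT hinv'
  refine ⟨Q, hQ, fun σ A' hA' => ?_⟩
  rw [(isImage_iff (W := twist g D) ((σ : Ω ≃ₐ[L] Ω) : Ω →ₐ[L] Ω) Q A').mp hA']
  have h1 := hcQ σ σ.2
  rw [hc' n _ σ.2] at h1
  exact h1

end Final

end Pool.Agent.Lib.MP_89bcae_ag
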