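import Mathlib
import Pool.Agent.Lib.MP_89bcae_ag.InfG8
import Pool.Agent.Lib.MP_89bcae_ag.Tower7C

/-!
# The layers of the tower: groups, action on the points, local conditions
-/

open Polynomial WeierstrassCurve WeierstrassCurve.Affine IsDedekindDomain

open scoped Classical

namespace Pool.Agent.Lib.MP_89bcae_ag

set_option linter.unusedSectionVars false
set_option linter.style.haveILetI false

section Act

variable {k L Ω : Type*} [Field k] [Field L] [Field Ω] [Algebra L Ω]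
  [Algebra k[X] L] [Algebra k[X] Ω] [IsScalarTower k[X] L Ω]

/-- The action of the automorphisms on the points. -/
@[instance_reducible]
noncomputable def actW (W : Affine k[X]) :
    DistribMulAction (Ω ≃ₐ[k[X]] Ω) (W.baseChange Ω).Point where
  smul γ P := Point.map (W' := W) (γ : Ω →ₐ[k[X]] Ω) P
  one_smul P := by rcases P with _ | ⟨x, y, h⟩ <;> rfl
  mul_smul γ δ P := by rcases P with _ | ⟨x, y, h⟩ <;> rfl
  smul_zero γ := map_zero (Point.map (W' := W) (γ : Ω →ₐ[k[X]] Ω))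
  smul_add γ P Q := map_add (Point.map (W' := W) (γ : Ω →ₐ[k[X]] Ω)) P Q

lemma actW_smul (W : Affine k[X]) (γ : Ω ≃ₐ[k[X]] Ω) (P : (W.baseChange Ω).Point) :
    letI := actW (k := k) (Ω := Ω) W
    γ • P = Point.map (W' := W) (γ : Ω →ₐ[k[X]] Ω) P := rfl

variable (k L Ω) in
/-- The automorphisms which are trivial on `L`, as a subgroup of the automorphisms over `k[t]`. -/
def GL8 : Subgroup (Ω ≃ₐ[k[X]] Ω) where
  carrier := {γ | ∀ x : L, γ (algebraMap L Ω x) = algebraMap L Ω x}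
  mul_mem' := fun {γ δ} hγ hδ x => by rw [AlgEquiv.mul_apply, hδ x, hγ x]
  one_mem' := fun x => rfl
  inv_mem' := fun {γ} hγ x => by
    apply γ.injective
    rw [hγ x]
    exact γ.apply_symm_apply _

variable (k L) in
/-- The automorphisms which are trivial on `L(s)`. -/
def HS8 (s : Ω) : Subgroup (Ω ≃ₐ[k[X]] Ω) where
  carrier := {γ | γ ∈ GL8 k L Ω ∧ γ s = s}
  mul_mem' := fun {γ δ} hγ hδ =>
    ⟨(GL8 k L Ω).mul_mem hγ.1 hδ.1, by rw [AlgEquiv.mul_apply, hδ.2, hγ.2]⟩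
  one_mem' := ⟨(GL8 k L Ω).one_mem, rfl⟩
  inv_mem' := fun {γ} hγ => ⟨(GL8 k L Ω).inv_mem hγ.1, by
    apply γ.injective
    rw [hγ.2]
    exact γ.apply_symm_apply _⟩

lemma mem_GL8 {γ : Ω ≃ₐ[k[X]] Ω} :
    γ ∈ GL8 k L Ω ↔ ∀ x : L, γ (algebraMap L Ω x) = algebraMap L Ω x := Iff.rfl

lemma mem_HS8 {s : Ω} {γ : Ω ≃ₐ[k[X]] Ω} : γ ∈ HS8 k L s ↔ γ ∈ GL8 k L Ω ∧ γ s = s := Iff.rfl

lemma toG_mem_GL8 (σ : Ω ≃ₐ[L] Ω) : toG (k := k) σ ∈ GL8 k L Ω := fun x => σ.commutes x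

lemma toG_mem_HS8 {s : Ω} {σ : Ω ≃ₐ[L] Ω} : toG (k := k) σ ∈ HS8 k L s ↔ σ s = s :=
  ⟨fun h => h.2, fun h => ⟨toG_mem_GL8 σ, h⟩⟩

/-- An element of `GL8` as an automorphism over `L`. -/
noncomputable def ofGL {γ : Ω ≃ₐ[k[X]] Ω} (h : γ ∈ GL8 k L Ω) : Ω ≃ₐ[L] Ω :=
  AlgEquiv.ofRingEquiv (f := (γ : Ω ≃+* Ω)) h

lemma ofGL_apply {γ : Ω ≃ₐ[k[X]] Ω} (h : γ ∈ GL8 k L Ω) (x : Ω) : ofGL h x = γ x := rfl

lemma toG_ofGL {γ : Ω ≃ₐ[k[X]] Ω} (h : γ ∈ GL8 k L Ω) : toG (k := k) (ofGL h) = γ := by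
  ext x; rfl

lemma toG_mul (σ τ : Ω ≃ₐ[L] Ω) : toG (k := k) (σ * τ) = toG σ * toG τ := by
  ext x; rfl

lemma toG_inv (σ : Ω ≃ₐ[L] Ω) : toG (k := k) σ⁻¹ = (toG σ)⁻¹ := by
  ext x; rfl

end Act

universe u

section LT

variable {k F L Ω : Type u} [Field k] [Field F] [Algebra k F] [Field L] [Algebra F[X] L] [Field Ω]
  [Algebra L Ω]

/-- Local triviality of a cocycle on the subgroup `N`. -/
def LTOn (W : WeierstrassCurve k[X]) (N : Subgroup (Ω ≃ₐ[L] Ω))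
    (c : (Ω ≃ₐ[L] Ω) → (W.map (base k F L Ω)).toAffine.Point)
    (Lv : Type u) [Field Lv] [Algebra L Lv] : Prop :=
  ∀ (M : Type u) [Field M] [Algebra Lv M] [IsSepClosure Lv M] [Algebra L M] [IsScalarTower L Lv M]
    (j : Ω →ₐ[L] M), ∃ Q : (W.map (base k F L M)).toAffine.Point,
      ∀ (g : M ≃ₐ[Lv] M) (g' : Ω ≃ₐ[L] Ω), g' ∈ N → (∀ x, j (g' x) = g (j x)) →
        ∀ P : (W.map (base k F L M)).toAffine.Point, IsImage (g : M →+* M) Q P →
          IsImage (j : Ω →+* M) (c g') (P - Q)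

end LT

/-- The subgroup of the `σ` in `Gal(Ω/L)` with `σ s = s`. -/
abbrev NS (L : Type u) {Ω : Type u} [Field L] [Field Ω] [Algebra L Ω] (s : Ω) :
    Subgroup (Ω ≃ₐ[L] Ω) := galOver L (Subfield.closure {s})

lemma mem_NS {L Ω : Type u} [Field L] [Field Ω] [Algebra L Ω] {s : Ω} {σ : Ω ≃ₐ[L] Ω} :
    σ ∈ NS L s ↔ σ s = s := by
  constructor
  · intro h
    exact h s (Subfield.subset_closure rfl)
  · intro h
    have h3 : Subfield.closure {s} ≤ RingHom.eqLocusField (σ : Ω →+* Ω) (RingHom.id Ω) := by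
      rw [Subfield.closure_le]
      rintro x rfl
      exact h
    intro x hx
    exact h3 hx

section Loc

variable {k F L Ω : Type u} [Field k] [Field F] [Algebra k F] [IsAlgClosed F]
  [Field L] [Algebra F[X] L] [IsFractionRing F[X] L] [Field Ω] [Algebra L Ω]

/-- The local conditions for functions on the group of automorphisms over `k(t)`, over the layer
`L(s)`. -/
def LocS (W : WeierstrassCurve k[X]) (s : Ω)
    (f : letI := algK k F L Ω
      (Ω ≃ₐ[k[X]] Ω) → (W.map (base k F L Ω)).toAffine.Point) : Prop :=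
  letI := algK k F L L
  letI := algK k F L Ω
  haveI : IsScalarTower k[X] L Ω := IsScalarTower.of_algebraMap_eq fun _ => rfl
  ∀ τ : F, LTOn W (NS L s) (fun σ => f (toG (k := k) σ)) ((placeAt τ).adicCompletion L)

end Loc

end Pool.Agent.Lib.MP_89bcae_ag
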