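import Mathlib
import Pool.Agent.Lib.MP_89bcae_ag.Tower7C
import Pool.Agent.Lib.MP_89bcae_ag.Frob8
import Pool.Agent.Lib.MP_89bcae_ag.InfDefs8

/-!
# The groups of the cyclic covers `s ^ (2 ^ r) = D(t)`
-/

open Polynomial WeierstrassCurve WeierstrassCurve.Affine

open scoped Classical

namespace Pool.Agent.Lib.MP_89bcae_ag

set_option linter.unusedSectionVars false

section Parity

/-- A polynomial of odd degree is not the square of a rational function. -/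
lemma not_sq_of_odd {F L : Type*} [Field F] [Field L] [Algebra F[X] L] [IsFractionRing F[X] L]
    {D : F[X]} (hD : Odd D.natDegree) : ¬ ∃ y : L, y ^ 2 = algebraMap F[X] L D := by
  rintro ⟨y, hy⟩
  have hD0 : D ≠ 0 := by
    rintro rfl
    simp at hD
  obtain ⟨p, q, hq, rfl⟩ := IsFractionRing.div_surjective (A := F[X]) y
  have hq0 : q ≠ 0 := nonZeroDivisors.ne_zero hq
  have hq1 : algebraMap F[X] L q ≠ 0 := by
    rw [Ne, FaithfulSMul.algebraMap_eq_zero_iff]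
    exact hq0
  rw [div_pow, div_eq_iff (pow_ne_zero 2 hq1), ← map_pow, ← map_pow, ← map_mul] at hy
  have h1 : p ^ 2 = D * q ^ 2 := IsFractionRing.injective F[X] L hy
  have h2 := congrArg natDegree h1
  rw [natDegree_pow, natDegree_mul hD0 (pow_ne_zero 2 hq0), natDegree_pow] at h2
  obtain ⟨m, hm⟩ := hD
  omega

end Parity

section Groups

variable {k F L Ω : Type*} [Field k] [Field F] [Algebra k F] [Algebra.IsAlgebraic k F]
  [IsAlgClosed F] [Field L] [Field Ω]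
  [Algebra F[X] L] [IsFractionRing F[X] L] [Algebra L Ω] [Algebra F[X] Ω] [IsScalarTower F[X] L Ω]
  [Algebra k[X] L] [Algebra k[X] Ω] [IsScalarTower k[X] L Ω]
  [IsGalois L Ω] [IsSepClosed Ω] [IsSepClosure L Ω]

omit [IsSepClosed Ω] [IsSepClosure L Ω] [IsGalois L Ω] in
lemma exists_toG {γ : Ω ≃ₐ[k[X]] Ω} (hγ : γ ∈ GL8 k L Ω) : ∃ σ : Ω ≃ₐ[L] Ω, toG σ = γ :=
  ⟨AlgEquiv.ofRingEquiv (f := γ.toRingEquiv) hγ, by ext x; rfl⟩

variable (hk : ∀ p : k[X], algebraMap k[X] L p = algebraMap F[X] L (p.map (algebraMap k F)))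

include hk in
lemma gs_normal : (GL8 k L Ω).Normal := by
  refine ⟨fun g hg γ => ?_⟩
  obtain ⟨σ, rfl⟩ := exists_toG hg
  have h1 : γ * toG σ * γ⁻¹ = toG (cj hk γ⁻¹ σ) := by
    ext x
    have h2 := cj_spec hk γ⁻¹ σ x
    rw [AlgEquiv.mul_apply, AlgEquiv.mul_apply, toG_apply, toG_apply, ← h2]
    exact γ.apply_symm_apply _
  rw [h1]
  exact toG_mem_GL8 _

/-- Constants of `Ω`. -/
noncomputable abbrev cst (Ω : Type*) {F : Type*} [Field F] [Field Ω] [Algebra F[X] Ω] (a : F) : Ω :=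
  algebraMap F[X] Ω (C a)

lemma cst_one (Ω : Type*) {F : Type*} [Field F] [Field Ω] [Algebra F[X] Ω] :
    cst Ω (1 : F) = 1 := by
  rw [cst, C_1, map_one]

lemma cst_neg_one (Ω : Type*) {F : Type*} [Field F] [Field Ω] [Algebra F[X] Ω] :
    cst Ω (-1 : F) = -1 := by
  rw [cst, C_neg, C_1, map_neg, map_one]

lemma cst_mul (Ω : Type*) {F : Type*} [Field F] [Field Ω] [Algebra F[X] Ω] (a b : F) :
    cst Ω (a * b) = cst Ω a * cst Ω b := by
  rw [cst, C_mul, map_mul]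

lemma cst_pow (Ω : Type*) {F : Type*} [Field F] [Field Ω] [Algebra F[X] Ω] (a : F) (n : ℕ) :
    cst Ω (a ^ n) = cst Ω a ^ n := by
  rw [cst, C_pow, map_pow]

lemma gs_cst {γ : Ω ≃ₐ[k[X]] Ω} (hγ : γ ∈ GL8 k L Ω) (a : F) : γ (cst Ω a) = cst Ω a := by
  rw [cst, IsScalarTower.algebraMap_apply F[X] L Ω]
  exact hγ _

include hk in
lemma map_cst (γ : Ω ≃ₐ[k[X]] Ω) (a : F) : γ (cst Ω a) = cst Ω (resF hk γ a) := by
  have := resF_spec hk γ (C a)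
  rw [map_C] at this
  exact this

/-- The roots of unity of `Ω` are constants. -/
lemma exists_cst_of_pow_eq_one {N : ℕ} (hN : 0 < N) {u : Ω} (hu : u ^ N = 1) :
    ∃ ζ : F, ζ ^ N = 1 ∧ u = cst Ω ζ := by
  have hp : (X ^ N - 1 : F[X]) ≠ 0 := X_pow_sub_C_ne_zero hN 1
  have hs := (IsAlgClosed.splits (X ^ N - 1 : F[X])).eq_prod_roots
  have hlc : (X ^ N - 1 : F[X]).leadingCoeff = 1 := leadingCoeff_X_pow_sub_one hN
  rw [hlc, C_1, one_mul] at hs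
  let ι : F →+* Ω := (algebraMap F[X] Ω).comp C
  have h1 : eval₂ ι u (X ^ N - 1 : F[X]) = 0 := by
    rw [eval₂_sub, eval₂_X_pow, eval₂_one, hu, sub_self]
  rw [hs, eval₂_multiset_prod, Multiset.map_map] at h1
  rw [Multiset.prod_eq_zero_iff, Multiset.mem_map] at h1
  obtain ⟨ζ, hζ, h2⟩ := h1
  rw [mem_roots hp, IsRoot.def, eval_sub, eval_pow, eval_X, eval_one, sub_eq_zero] at hζ
  refine ⟨ζ, hζ, ?_⟩
  simp only [Function.comp_apply, eval₂_sub, eval₂_X, eval₂_C] at h2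
  exact sub_eq_zero.mp h2

variable {D : k[X]} {s : Ω} {r : ℕ}

/-- The images of `s` under automorphisms. -/
lemma exists_zeta (hs : s ^ (2 ^ r) = algebraMap k[X] Ω D) (hs0 : s ≠ 0) (γ : Ω ≃ₐ[k[X]] Ω) :
    ∃ ζ : F, ζ ^ (2 ^ r) = 1 ∧ γ s = cst Ω ζ * s := by
  have h1 : (γ s / s) ^ (2 ^ r) = 1 := by
    rw [div_pow, ← map_pow, hs, γ.commutes, ← hs]
    exact div_self (pow_ne_zero _ hs0)
  obtain ⟨ζ, hζ, h2⟩ := exists_cst_of_pow_eq_one (F := F) (by positivity) h1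
  refine ⟨ζ, hζ, ?_⟩
  rw [← h2, div_mul_cancel₀ _ hs0]

include hk in
lemma hs_normal (hs : s ^ (2 ^ r) = algebraMap k[X] Ω D) (hs0 : s ≠ 0) :
    (HS8 k L s).Normal := by
  refine ⟨fun g hg γ => ⟨(gs_normal hk).conj_mem g hg.1 γ, ?_⟩⟩
  obtain ⟨ζ, -, h1⟩ := exists_zeta (F := F) hs hs0 γ⁻¹
  rw [AlgEquiv.mul_apply, AlgEquiv.mul_apply, h1, map_mul, gs_cst hg.1, hg.2, ← h1]
  exact γ.apply_symm_apply _

/-- An element of the group moving `s` by a primitive root of unity. -/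
lemma exists_tau (hs : s ^ (2 ^ (r + 1)) = algebraMap k[X] Ω D) (hs0 : s ≠ 0)
    (hD : ¬ ∃ y : L, y ^ 2 = algebraMap k[X] L D) :
    ∃ τ ∈ GL8 k L Ω, ∃ ζ : F, IsPrimitiveRoot ζ (2 ^ (r + 1)) ∧ τ s = cst Ω ζ * s := by
  by_contra hno
  push Not at hno
  apply hD
  have hfix : ∀ σ : Ω ≃ₐ[L] Ω, σ (s ^ (2 ^ r)) = s ^ (2 ^ r) := by
    intro σ
    obtain ⟨ζ, hζ, h1⟩ := exists_zeta (F := F) hs hs0 (toG σ)
    have h3 : ζ ^ (2 ^ r) = 1 := by
      by_contra hne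
      exact hno (toG σ) (toG_mem_GL8 σ) ζ (IsPrimitiveRoot.iff_orderOf.mpr
        (orderOf_eq_prime_pow hne hζ)) h1
    have h4 : σ s = cst Ω ζ * s := h1
    rw [map_pow, h4, mul_pow, ← map_pow, ← map_pow, h3, map_one, map_one, one_mul]
  obtain ⟨y, hy⟩ := (InfiniteGalois.mem_range_algebraMap_iff_fixed (k := L) _).mpr hfix
  refine ⟨y, ?_⟩
  apply (algebraMap L Ω).injective
  rw [map_pow, hy, ← pow_mul, ← pow_succ, hs, ← IsScalarTower.algebraMap_apply]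

lemma pow_map_s {τ : Ω ≃ₐ[k[X]] Ω} (hτ : τ ∈ GL8 k L Ω) {ζ : F} (h1 : τ s = cst Ω ζ * s) (i : ℕ) :
    (τ ^ i) s = cst Ω (ζ ^ i) * s := by
  induction i with
  | zero => rw [pow_zero, pow_zero, cst_one, one_mul]; rfl
  | succ i ih =>
    rw [pow_succ', AlgEquiv.mul_apply, ih, map_mul, gs_cst hτ, h1, ← mul_assoc, ← cst_mul,
      ← pow_succ]

include hk in
/-- Lifts of automorphisms of `F` which fix `s`. -/
lemma exists_phi (hs : s ^ (2 ^ (r + 1)) = algebraMap k[X] Ω D) (hs0 : s ≠ 0)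
    {τ : Ω ≃ₐ[k[X]] Ω} (hτ : τ ∈ GL8 k L Ω) {ζ : F} (hζ : IsPrimitiveRoot ζ (2 ^ (r + 1)))
    (h1 : τ s = cst Ω ζ * s) (f : F ≃ₐ[k] F) :
    ∃ φ : Ω ≃ₐ[k[X]] Ω, φ s = s ∧ resF hk φ = f := by
  obtain ⟨γ, hγ⟩ := exists_lift_aut (Ω := Ω) hk f
  obtain ⟨ζ', hζ', h2⟩ := exists_zeta (F := F) hs hs0 γ
  obtain ⟨i, -, hi⟩ := hζ.eq_pow_of_pow_eq_one hζ'
  have hτi : τ ^ i ∈ GL8 k L Ω := (GL8 k L Ω).pow_mem hτ i
  refine ⟨(τ ^ i)⁻¹ * γ, ?_, ?_⟩
  · apply (τ ^ i).injective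
    rw [← AlgEquiv.mul_apply, mul_inv_cancel_left, h2, pow_map_s hτ h1, hi]
  · apply resF_unique
    intro a
    have h3 := gs_cst ((GL8 k L Ω).inv_mem hτi) (f a)
    rw [AlgEquiv.mul_apply, hγ, map_C]
    exact h3

lemma eq_one_or_neg_one_of_sq {K : Type*} [Field K] {x : K} (h : x ^ 2 = 1) : x = 1 ∨ x = -1 :=
  sq_eq_sq_iff_eq_or_eq_neg.mp (by rw [h, one_pow])

lemma mem_hs_of {g g' : Ω ≃ₐ[k[X]] Ω} {u : Ω} (hg : g ∈ GL8 k L Ω) (hg' : g' ∈ GL8 k L Ω)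
    (h : g u = g' u) : g'⁻¹ * g ∈ HS8 k L u := by
  refine ⟨(GL8 k L Ω).mul_mem ((GL8 k L Ω).inv_mem hg') hg, ?_⟩
  apply g'.injective
  rw [← AlgEquiv.mul_apply, mul_inv_cancel_left, h]

/-- **The groups of the cyclic cover.** -/
theorem tw_of (hr : 1 ≤ r) (hs : s ^ (2 ^ (r + 1)) = algebraMap k[X] Ω D)
    (hs0 : s ≠ 0) {τ : Ω ≃ₐ[k[X]] Ω} (hτ : τ ∈ GL8 k L Ω) {ζ : F}
    (hζ : IsPrimitiveRoot ζ (2 ^ (r + 1))) (h1 : τ s = cst Ω ζ * s) {φ : Ω ≃ₐ[k[X]] Ω}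
    (hφ : φ s = s) {q : ℕ} (hq : Odd q) (hres : ∀ a : F, resF hk φ a = a ^ q) :
    Inf.Tw Ω (HS8 k L s) (HS8 k L (s ^ 2)) (HS8 k L (s ^ (2 ^ r))) (GL8 k L Ω) τ φ r q := by
  have hp : ∀ i : ℕ, τ ^ i ∈ GL8 k L Ω := fun i => (GL8 k L Ω).pow_mem hτ i
  have hgen : ∀ g ∈ GL8 k L Ω, ∃ i : ℕ, g s = cst Ω (ζ ^ i) * s := by
    intro g _
    obtain ⟨ζ', hζ', h3⟩ := exists_zeta (F := F) hs hs0 g
    obtain ⟨i, -, hi⟩ := hζ.eq_pow_of_pow_eq_one hζ'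
    exact ⟨i, by rw [h3, hi]⟩
  have hone : ∀ u : F, ∀ x : Ω, x ≠ 0 → cst Ω u * x = x → u = 1 := by
    intro u x hx h3
    have h4 : cst Ω u = 1 := by
      have := mul_right_cancel₀ hx (h3.trans (one_mul x).symm)
      exact this
    apply const_injective L Ω
    rw [C_1, map_one]
    exact h4
  have hsub : ∀ m : ℕ, HS8 k L s ≤ HS8 k L (s ^ m) := by
    intro m g hg
    exact ⟨hg.1, by rw [map_pow, hg.2]⟩
  refine ⟨hsub 2, ?_, fun g hg => hg.1, hτ, ?_, ?_, ?_, ?_, ?_, ?_, hq, ?_⟩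
  · intro g hg
    obtain ⟨m, rfl⟩ : ∃ m, r = m + 1 := ⟨r - 1, by omega⟩
    refine ⟨hg.1, ?_⟩
    rw [pow_succ', pow_mul, map_pow, hg.2]
  · refine ⟨hp _, ?_⟩
    rw [map_pow, pow_map_s hτ h1, mul_pow, ← cst_pow, ← pow_mul, ← pow_succ,
      hζ.pow_eq_one, cst_one, one_mul]
  · refine ⟨hp _, ?_⟩
    rw [pow_map_s hτ h1, hζ.pow_eq_one, cst_one, one_mul]
  · intro g hg
    obtain ⟨i, hi⟩ := hgen g hg
    refine ⟨i, mem_hs_of hg (hp i) ?_⟩
    rw [hi, pow_map_s hτ h1]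
  · intro g hg
    obtain ⟨i, hi⟩ := hgen g hg.1
    have h3 := hg.2
    rw [map_pow, hi, mul_pow, ← cst_pow, ← pow_mul] at h3
    have h4 := hone _ _ (pow_ne_zero _ hs0) h3
    rw [hζ.pow_eq_one_iff_dvd, pow_succ', Nat.mul_dvd_mul_iff_right (by positivity)] at h4
    obtain ⟨j, rfl⟩ := h4
    refine ⟨j, mem_hs_of hg.1 (hp _) ?_⟩
    rw [hi, pow_map_s hτ h1]
  · intro g hg
    obtain ⟨i, hi⟩ := hgen g hg.1
    have h3 := hg.2
    rw [map_pow, hi, mul_pow, ← cst_pow, ← pow_mul] at h3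
    have h4 := hone _ _ (pow_ne_zero _ hs0) h3
    have h5 : ζ ^ i = 1 ∨ ζ ^ i = -1 := by
      rw [pow_mul] at h4
      exact eq_one_or_neg_one_of_sq h4
    rcases h5 with h5 | h5
    · left
      refine ⟨hg.1, ?_⟩
      rw [hi, h5, cst_one, one_mul]
    · right
      apply mem_hs_of hg.1 (hp _)
      rw [hi, pow_map_s hτ h1]
      have h6 : ζ ^ (2 ^ r) = -1 := by
        have h7 : (ζ ^ (2 ^ r)) ^ 2 = 1 := by rw [← pow_mul, ← pow_succ, hζ.pow_eq_one]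
        rcases eq_one_or_neg_one_of_sq h7 with h8 | h8
        · exfalso
          have h9 := Nat.le_of_dvd (by positivity) ((hζ.pow_eq_one_iff_dvd (2 ^ r)).mp h8)
          rw [pow_succ] at h9
          have : 0 < 2 ^ r := by positivity
          omega
        · exact h8
      rw [h5, h6]
  · refine ⟨(GL8 k L Ω).mul_mem ((gs_normal hk).conj_mem _ hτ φ)
      ((GL8 k L Ω).inv_mem ((GL8 k L Ω).pow_mem hτ q)), ?_⟩
    have h3 : φ⁻¹ s = s := by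
      apply φ.injective
      rw [hφ]
      exact φ.apply_symm_apply s
    have h4 : (φ * τ * φ⁻¹) s = (τ ^ q) s := by
      rw [AlgEquiv.mul_apply, AlgEquiv.mul_apply, h3, h1, map_mul, hφ, map_cst hk, hres,
        pow_map_s hτ h1]
    have h5 : (φ * τ * φ⁻¹ * (τ ^ q)⁻¹) ((τ ^ q) s) = (τ ^ q) s := by
      rw [AlgEquiv.mul_apply, ← AlgEquiv.mul_apply (τ ^ q)⁻¹, inv_mul_cancel]
      exact h4
    rw [pow_map_s hτ h1, map_mul, gs_cst ((GL8 k L Ω).mul_mem ((gs_normal hk).conj_mem _ hτ φ)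
      ((GL8 k L Ω).inv_mem ((GL8 k L Ω).pow_mem hτ q)))] at h5
    apply mul_left_cancel₀ _ h5
    rw [cst_pow]
    apply pow_ne_zero
    intro h6
    apply hζ.ne_zero (by positivity)
    apply const_injective L Ω
    rw [C_0, map_zero]
    exact h6
  · refine ⟨{s}, fun σ hσ hx => ⟨hσ, ?_⟩⟩
    exact hx s (Finset.mem_singleton_self s)

variable {W : Affine k[X]}

/-- There are no two-torsion points over the cyclic cover. -/
theorem noInv_of (h2 : (2 : Ω) ≠ 0) {g E : F[X]} (hW : IsTwist Ω W g E) (hg : g.Monic)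
    (hdeg : g.natDegree = 3) (hd : derivative g ≠ 0) (hE : E ≠ 0)
    (hs : s ^ (2 ^ r) = algebraMap k[X] Ω D) (P : (W.baseChange Ω).Point) (hP : 2 • P = 0)
    (hfix : ∀ γ ∈ HS8 k L s, gm W γ P = P) : P = 0 := by
  have key : ∀ j : ℕ, ∀ u : Ω, u ^ (2 ^ j) = algebraMap k[X] Ω D →
      ∃ K : Subfield Ω, u ∈ K ∧ Cyc L g K := by
    intro j
    induction j with
    | zero =>
      intro u hu
      refine ⟨(algebraMap L Ω).fieldRange, ?_, cyc_base hg hdeg hd ?_⟩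
      · rw [pow_zero, pow_one] at hu
        rw [hu, IsScalarTower.algebraMap_apply k[X] L Ω]
        exact RingHom.mem_fieldRange_self _ _
      · rintro σ x ⟨y, rfl⟩
        exact σ.commutes y
    | succ j ih =>
      intro u hu
      obtain ⟨K, hK, hc⟩ := ih (u ^ 2) (by rw [← pow_mul, ← pow_succ', hu])
      refine ⟨K ⊔ Subfield.closure {u}, ?_, hc.step hg hdeg hd hK⟩
      exact (le_sup_right : Subfield.closure {u} ≤ K ⊔ Subfield.closure {u})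
        (Subfield.subset_closure rfl)
  obtain ⟨K, hK, hc⟩ := key r s hs
  apply hc.noFix h2 hW hg hdeg hd hE P hP
  intro σ hσ
  rw [← gm_toG (k := k)]
  exact hfix _ ⟨toG_mem_GL8 σ, hσ s hK⟩

end Groups

end Pool.Agent.Lib.MP_89bcae_ag
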