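import Mathlib
import Pool.Agent.Lib.MP_89bcae_ag.GrpInf7

/-!
# Local conditions go down one quadratic step
-/

open Polynomial WeierstrassCurve WeierstrassCurve.Affine IsDedekindDomain

open scoped Classical

namespace Pool.Agent.Lib.MP_89bcae_ag

set_option linter.unusedSectionVars false
set_option linter.style.haveILetI false

universe u

section Core

/-- The group-theoretic core: a class which is divisible by two and trivial on a subgroup of index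
at most two is trivial. -/
lemma core_down {G B : Type*} [Group G] [AddCommGroup B] (ac : G → B →+ B)
    (hmul : ∀ g h b, ac (g * h) b = ac g (ac h b)) (N N' : Set G) (hN : N ⊆ N')
    (hNm : ∀ g ∈ N, ∀ h ∈ N, g * h ∈ N) (hNm' : ∀ g ∈ N', ∀ h ∈ N', g * h ∈ N')
    (hNi' : ∀ g ∈ N', g⁻¹ ∈ N') (hNi : ∀ g ∈ N, g⁻¹ ∈ N)
    (hidx : ∀ x ∈ N', ∀ y ∈ N', x ∉ N → y ∉ N → x * y⁻¹ ∈ N) (d d' : G → B)
    (hd : ∀ g ∈ N', ∀ h ∈ N', d (g * h) = d g + ac g (d h)) (hdd : ∀ g ∈ N', d' g = 2 • d g)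
    (Q : B) (hQ : ∀ g ∈ N, d g = ac g Q - Q) : ∃ Q' : B, ∀ g ∈ N', d' g = ac g Q' - Q' := by
  by_cases hex : ∃ g₀ ∈ N', g₀ ∉ N
  swap
  · push Not at hex
    refine ⟨2 • Q, fun g hg => ?_⟩
    rw [hdd g hg, hQ g (hex g hg), map_nsmul, smul_sub]
  obtain ⟨g₀, hg₀, hg₀N⟩ := hex
  -- the cocycle `a`
  let a : G → B := fun g => d g - (ac g Q - Q)
  have ha : ∀ g ∈ N', ∀ h ∈ N', a (g * h) = a g + ac g (a h) := by
    intro g hg h hh
    simp only [a]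
    rw [hd g hg h hh, hmul, map_sub, map_sub]
    abel
  have ha0 : ∀ g ∈ N, a g = 0 := fun g hg => by
    simp only [a]
    rw [hQ g hg, sub_self]
  -- normality
  have hnorm : ∀ g ∈ N', ∀ h ∈ N, g⁻¹ * h * g ∈ N := by
    intro g hg h hh
    by_cases hgN : g ∈ N
    · exact hNm _ (hNm _ (hNi _ hgN) _ hh) _ hgN
    · by_contra hno
      have h2 := hidx _ (hNm' _ (hNm' _ (hNi' _ hg) _ (hN hh)) _ hg) g hg hno hgN
      rw [mul_inv_cancel_right] at h2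
      have h3 := hNm _ h2 _ (hNi _ hh)
      rw [mul_inv_cancel_right] at h3
      have h4 := hNi _ h3
      rw [inv_inv] at h4
      exact hgN h4
  have hA : ∀ h ∈ N, ac h (a g₀) = a g₀ := by
    intro h hh
    have e1 := ha h (hN hh) g₀ hg₀
    have e2 := ha g₀ hg₀ _ (hN (hnorm g₀ hg₀ h hh))
    rw [show g₀ * (g₀⁻¹ * h * g₀) = h * g₀ by group, ha0 _ (hnorm g₀ hg₀ h hh), map_zero,
      add_zero] at e2
    rw [ha0 h hh, zero_add, e2] at e1
    exact e1.symm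
  have hA2 : ac g₀ (a g₀) = -a g₀ := by
    have h2 : g₀ * g₀ ∈ N := by
      have h3 : g₀⁻¹ ∉ N := fun h => hg₀N (by rw [← inv_inv g₀]; exact hNi _ h)
      have := hidx g₀ hg₀ g₀⁻¹ (hNi' _ hg₀) hg₀N h3
      rwa [inv_inv] at this
    have h3 := ha g₀ hg₀ g₀ hg₀
    rw [ha0 _ h2] at h3
    exact (neg_eq_of_add_eq_zero_right h3.symm).symm
  refine ⟨2 • Q - a g₀, fun g hg => ?_⟩
  have h5 : 2 • a g = ac g (-a g₀) - (-a g₀) := by
    by_cases hgN : g ∈ N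
    · rw [ha0 g hgN, smul_zero, map_neg, hA g hgN]
      abel
    · have h6 := hidx g hg g₀ hg₀ hgN hg₀N
      have h7 := ha _ (hN h6) g₀ hg₀
      rw [inv_mul_cancel_right, ha0 _ h6, zero_add, hA _ h6] at h7
      have h8 : ac g (a g₀) = -a g₀ := by
        have h9 := hmul (g * g₀⁻¹) g₀ (a g₀)
        rw [inv_mul_cancel_right, hA2, map_neg, hA _ h6] at h9
        exact h9
      rw [h7, map_neg, h8, two_smul]
      abel
  have h6 : d g = a g + (ac g Q - Q) := by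
    simp only [a]
    abel
  rw [hdd g hg, h6, smul_add, h5, map_sub, map_nsmul, map_neg, smul_sub]
  abel

end Core

section Down

variable {k F L Ω : Type u} [Field k] [Field F] [Algebra k F] [Field L] [Algebra F[X] L]
  [Field Ω] [Algebra L Ω]

/-- **The local conditions go down one quadratic step.** -/
theorem LTOn.down {W : WeierstrassCurve k[X]} {Lv : Type u} [Field Lv] [Algebra L Lv] :
    letI := algK k F L L
    letI := algK k F L Ω
    haveI : IsScalarTower k[X] L Ω := IsScalarTower.of_algebraMap_eq fun _ => rfl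
    ∀ {N N' : Subgroup (Ω ≃ₐ[L] Ω)} (_ : N ≤ N')
    (_ : ∀ x ∈ N', ∀ y ∈ N', x ∉ N → y ∉ N → x * y⁻¹ ∈ N)
    {d d' : (Ω ≃ₐ[L] Ω) → (W.toAffine.baseChange Ω).Point}
    (_ : ∀ σ ∈ N', ∀ τ ∈ N', d (σ * τ) = d σ + sm W.toAffine σ (d τ))
    (_ : ∀ σ ∈ N', d' σ = 2 • d σ)
    (_ : LTOn (F := F) W N d Lv), LTOn (F := F) W N' d' Lv := by
  letI := algK k F L L
  letI := algK k F L Ω
  haveI : IsScalarTower k[X] L Ω := IsScalarTower.of_algebraMap_eq fun _ => rfl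
  intro N N' hle hidx d d' hd hdd hloc M _ i1 i2 i3 i4 j
  letI := algK k F L M
  haveI : IsScalarTower k[X] L M := IsScalarTower.of_algebraMap_eq fun _ => rfl
  letI := algK k F L Lv
  haveI : IsScalarTower k[X] L Lv := IsScalarTower.of_algebraMap_eq fun _ => rfl
  haveI : IsScalarTower k[X] Lv M := IsScalarTower.of_algebraMap_eq fun p => by
    rw [IsScalarTower.algebraMap_apply k[X] L Lv, ← IsScalarTower.algebraMap_apply L Lv M]
    rfl
  obtain ⟨Q, hQ⟩ := hloc M j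
  let V : Affine k[X] := W.toAffine
  let Q₀ : (V.baseChange M).Point := Q
  let d₀ : (Ω ≃ₐ[L] Ω) → (V.baseChange Ω).Point := d
  let d₀' : (Ω ≃ₐ[L] Ω) → (V.baseChange Ω).Point := d'
  have huniq : ∀ {g : M ≃ₐ[Lv] M} {γ γ' : Ω ≃ₐ[L] Ω}, (∀ x, j (γ x) = g (j x)) →
      (∀ x, j (γ' x) = g (j x)) → γ = γ' := by
    intro g γ γ' h h'
    ext x
    exact (j : Ω →+* M).injective ((h x).trans (h' x).symm)
  let S : Set (M ≃ₐ[Lv] M) := {g | ∃ γ ∈ N, ∀ x, j (γ x) = g (j x)}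
  let S' : Set (M ≃ₐ[Lv] M) := {g | ∃ γ ∈ N', ∀ x, j (γ x) = g (j x)}
  have hmulj : ∀ {g h : M ≃ₐ[Lv] M} {γ δ : Ω ≃ₐ[L] Ω}, (∀ x, j (γ x) = g (j x)) →
      (∀ x, j (δ x) = h (j x)) → ∀ x, j ((γ * δ) x) = (g * h) (j x) := by
    intro g h γ δ h1 h2 x
    rw [AlgEquiv.mul_apply, AlgEquiv.mul_apply, h1, h2]
  have hinvj : ∀ {g : M ≃ₐ[Lv] M} {γ : Ω ≃ₐ[L] Ω}, (∀ x, j (γ x) = g (j x)) →
      ∀ x, j (γ⁻¹ x) = g⁻¹ (j x) := by
    intro g γ h1 x
    apply g.injective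
    rw [← h1, ← AlgEquiv.mul_apply, ← AlgEquiv.mul_apply, mul_inv_cancel, mul_inv_cancel]
    rfl
  let e : (M ≃ₐ[Lv] M) → (V.baseChange M).Point := fun g =>
    if h : ∃ γ ∈ N', ∀ x, j (γ x) = g (j x) then Point.map (W' := V) j (d₀ h.choose) else 0
  have he : ∀ {g : M ≃ₐ[Lv] M} {γ : Ω ≃ₐ[L] Ω}, γ ∈ N' → (∀ x, j (γ x) = g (j x)) →
      e g = Point.map (W' := V) j (d₀ γ) := by
    intro g γ hγ h
    have hex : ∃ γ ∈ N', ∀ x, j (γ x) = g (j x) := ⟨γ, hγ, h⟩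
    simp only [e]
    rw [dif_pos hex, huniq hex.choose_spec.2 h]
  obtain ⟨Q', hQ'⟩ := core_down (G := M ≃ₐ[Lv] M) (B := (V.baseChange M).Point)
    (fun g => Point.map (W' := V) (g : M →ₐ[Lv] M)) (by
      intro g h b
      rcases b with _ | ⟨x, y, hxy⟩ <;> rfl) S S' (by
      rintro g ⟨γ, hγ, h⟩
      exact ⟨γ, hle hγ, h⟩) (by
      rintro g ⟨γ, hγ, h⟩ g' ⟨γ', hγ', h'⟩
      exact ⟨γ * γ', N.mul_mem hγ hγ', hmulj h h'⟩) (by
      rintro g ⟨γ, hγ, h⟩ g' ⟨γ', hγ', h'⟩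
      exact ⟨γ * γ', N'.mul_mem hγ hγ', hmulj h h'⟩) (by
      rintro g ⟨γ, hγ, h⟩
      exact ⟨γ⁻¹, N'.inv_mem hγ, hinvj h⟩) (by
      rintro g ⟨γ, hγ, h⟩
      exact ⟨γ⁻¹, N.inv_mem hγ, hinvj h⟩) (by
      rintro x ⟨γ, hγ, h⟩ y ⟨γ', hγ', h'⟩ hx hy
      exact ⟨γ * γ'⁻¹, hidx _ hγ _ hγ' (fun hh => hx ⟨γ, hh, h⟩) (fun hh => hy ⟨γ', hh, h'⟩),
        hmulj h (hinvj h')⟩) e (fun g => 2 • e g) (by
      rintro g ⟨γ, hγ, h⟩ g' ⟨γ', hγ', h'⟩
      rw [he (N'.mul_mem hγ hγ') (hmulj h h'), he hγ h, he hγ' h']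
      have h3 : d₀ (γ * γ') = d₀ γ + sm V γ (d₀ γ') := hd γ hγ γ' hγ'
      rw [h3, map_add]
      congr 1
      rcases d₀ γ' with _ | ⟨x, y, hxy⟩
      · rfl
      · rw [sm, Point.map_some, Point.map_some, Point.map_some, Point.map_some]
        simp only [Point.some.injEq]
        exact ⟨h x, h y⟩) (fun g _ => rfl) Q₀ (by
      rintro g ⟨γ, hγ, h⟩
      rw [he (hle hγ) h]
      have h1 := hQ g γ hγ h (Point.map (W' := V) (g : M →ₐ[Lv] M) Q₀)
        (isImage_map (W := W) (g : M →ₐ[Lv] M) Q₀)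
      exact ((isImage_iff (W := W) j (d₀ γ) _).mp h1).symm)
  refine ⟨Q', fun g γ hγ h P hP => ?_⟩
  have h1 : 2 • e g = Point.map (W' := V) (g : M →ₐ[Lv] M) Q' - Q' := hQ' g ⟨γ, hγ, h⟩
  have h2 : d₀' γ = 2 • d₀ γ := hdd γ hγ
  have h4 : P = Point.map (W' := V) (g : M →ₐ[Lv] M) Q' :=
    (isImage_iff (W := W) (g : M →ₐ[Lv] M) _ _).mp hP
  apply (isImage_iff (W := W) j (d₀' γ) _).mpr
  rw [h2, map_nsmul, h4, ← he hγ h]
  exact h1.symm

end Down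

section LocS

variable {k F L Ω : Type u} [Field k] [Field F] [Algebra k F] [IsAlgClosed F]
  [Field L] [Algebra F[X] L] [IsFractionRing F[X] L] [Field Ω] [Algebra L Ω]

/-- The subgroup fixing `s` has index at most two in the one fixing `s ^ 2`. -/
lemma ns_index {s : Ω} : ∀ x ∈ NS L (s ^ 2), ∀ y ∈ NS L (s ^ 2), x ∉ NS L s → y ∉ NS L s →
    x * y⁻¹ ∈ NS L s := by
  intro x hx y hy hx' hy'
  rw [mem_NS] at *
  have key : ∀ {z : Ω ≃ₐ[L] Ω}, z (s ^ 2) = s ^ 2 → ¬ z s = s → z s = -s := by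
    intro z hz hz'
    rw [map_pow] at hz
    rcases sq_eq_sq_iff_eq_or_eq_neg.mp hz with h | h
    · exact absurd h hz'
    · exact h
  have h1 := key hx hx'
  have h2 := key hy hy'
  rw [AlgEquiv.mul_apply]
  have h3 : y⁻¹ s = -s := by
    apply y.injective
    rw [← AlgEquiv.mul_apply, mul_inv_cancel, map_neg, h2, neg_neg]
    rfl
  rw [h3, map_neg, h1, neg_neg]

lemma ns_le (s : Ω) : NS L s ≤ NS L (s ^ 2) := by
  intro x hx
  rw [mem_NS] at *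
  rw [map_pow, hx]

/-- **(C4)** -/
theorem locS_down (W : WeierstrassCurve k[X]) (s : Ω) :
    letI := algK k F L L
    letI := algK k F L Ω
    haveI : IsScalarTower k[X] L Ω := IsScalarTower.of_algebraMap_eq fun _ => rfl
    letI := actW (k := k) (Ω := Ω) W.toAffine
    ∀ d : ℕ → (Ω ≃ₐ[k[X]] Ω) → (W.toAffine.baseChange Ω).Point,
      Inf.TCo Ω (HS8 k L (s ^ 2)) d → (∀ n, LocS (F := F) (L := L) W s (d n)) →
        ∀ n, LocS (F := F) (L := L) W (s ^ 2) (d n) := by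
  letI := algK k F L L
  letI := algK k F L Ω
  haveI : IsScalarTower k[X] L Ω := IsScalarTower.of_algebraMap_eq fun _ => rfl
  letI := actW (k := k) (Ω := Ω) W.toAffine
  intro d hd hloc n τ
  have hmem : ∀ {σ : Ω ≃ₐ[L] Ω}, σ ∈ NS L (s ^ 2) → toG (k := k) σ ∈ HS8 k L (s ^ 2) :=
    fun h => toG_mem_HS8.mpr (mem_NS.mp h)
  apply LTOn.down (F := F) (ns_le s) ns_index (d := fun σ => d (n + 1) (toG σ)) _ _
    (hloc (n + 1) τ)
  · intro σ hσ τ hτ
    have h1 := hd.co (n + 1) (toG σ) (hmem hσ) (toG τ) (hmem hτ)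
    have h2 : ∀ P : (W.toAffine.baseChange Ω).Point,
        toG (k := k) σ • P = sm W.toAffine σ P := by
      intro P
      rcases P with _ | ⟨x, y, hxy⟩ <;> rfl
    rw [← toG_mul, h2] at h1
    exact h1
  · intro σ hσ
    exact (hd.two n _ (hmem hσ)).symm

end LocS

end Pool.Agent.Lib.MP_89bcae_ag
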