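import Mathlib
import Pool.Agent.Lib.MP_89bcae_ag.LocInf7
import Pool.Agent.Lib.MP_89bcae_ag.DefsInf7

/-!
# From the layers of the tower to the classes of the statement
-/

open Polynomial WeierstrassCurve WeierstrassCurve.Affine IsDedekindDomain

open scoped Classical

namespace Pool.Agent.Lib.MP_89bcae_ag

set_option linter.unusedSectionVars false
set_option linter.style.haveILetI false

universe u

namespace Inf

section Tors

variable {Γ A X : Type*} [Group Γ] [AddCommGroup A] [DistribMulAction Γ A] [MulAction Γ X]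
  {H : Subgroup Γ} [hN : H.Normal] {Loc : (Γ → A) → Prop} (hL : LocAx H Loc)

lemma ZQ_odd_torsion {x : Q A H} (hx : x ∈ ZQ X hL) {m : ℕ} (hm : Odd m) (h : m • x = 0) :
    x = 0 := by
  obtain ⟨c, hc, rfl⟩ := (mem_ZQ hL).mp hx
  rw [← QuotientAddGroup.mk_nsmul, ← QuotientAddGroup.mk_zero, mk_eq_iff] at h
  rw [← QuotientAddGroup.mk_zero, mk_eq_iff]
  intro n
  obtain ⟨a, ha, h1⟩ := h n
  have hcop : IsCoprime (m : ℤ) ((2 ^ n : ℕ) : ℤ) :=
    Nat.isCoprime_iff_coprime.mpr (Nat.Coprime.pow_right n (Nat.coprime_two_right.mpr hm))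
  obtain ⟨u, v, huv⟩ := hcop
  refine ⟨u • a, ?_, fun σ hσ => ?_⟩
  · rw [smul_comm, ha, smul_zero]
  · have h2 : m • c n σ = cob a σ := by
      rw [← h1 σ hσ]
      simp
    have h3 : c n σ = u • (m • c n σ) + v • (2 ^ n • c n σ) := by
      rw [← natCast_zsmul, ← natCast_zsmul (c n σ) (2 ^ n), ← mul_smul, ← mul_smul, ← add_smul, huv,
        one_smul]
    have h4 : cob (u • a) σ = u • cob a σ := by
      simp only [cob, smul_sub]
      rw [smul_comm]
    rw [h4, ← h2]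
    simp only [Pi.zero_apply, sub_zero]
    conv_lhs => rw [h3, hc.1.tors n σ hσ, smul_zero, add_zero]

lemma ZQ_nsmul_torsion (hA : ∀ a : A, 2 • a = 0 → (∀ σ ∈ H, σ • a = a) → a = 0) (m : ℕ) :
    ∀ {x : Q A H}, x ∈ ZQ X hL → 0 < m → m • x = 0 → x = 0 := by
  induction m using Nat.strong_induction_on with
  | _ m ih =>
    intro x hx hm h
    rcases Nat.even_or_odd' m with ⟨m', rfl | rfl⟩
    · have h1 : 2 • (m' • x) = 0 := by rw [← mul_smul]; exact h
      have h2 := ZQ_torsion hL hA ((ZQ X hL).nsmul_mem hx m') h1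
      exact ih m' (by omega) hx (by omega) h2
    · exact ZQ_odd_torsion hL hx ⟨m', rfl⟩ h

end Tors

end Inf

section Cover

variable {k F L Ω : Type u} [Field k] [Field F] [Algebra k F] [Field L] [Algebra F[X] L]
  [Field Ω] [Algebra L Ω]

lemma mem_galOver_cover {s : Ω} {σ : Ω ≃ₐ[L] Ω} : σ ∈ galOver L (cover k F L s) ↔ σ s = s := by
  constructor
  · intro h
    exact h s (Subfield.subset_closure (Set.mem_insert _ _))
  · intro h
    have h3 : cover k F L s ≤ RingHom.eqLocusField (σ : Ω →+* Ω) (RingHom.id Ω) := by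
      rw [cover, Subfield.closure_le]
      rintro x (rfl | ⟨p, rfl⟩)
      · exact h
      · exact σ.commutes _
    intro x hx
    exact h3 hx

lemma fix_cover {s : Ω} {f : Ω →+* Ω} (hs : f s = s)
    (hf : ∀ p : k[X], f (base k F L Ω p) = base k F L Ω p) : ∀ x ∈ cover k F L s, f x = x := by
  have h3 : cover k F L s ≤ RingHom.eqLocusField f (RingHom.id Ω) := by
    rw [cover, Subfield.closure_le]
    rintro x (rfl | ⟨p, rfl⟩)
    · exact hs
    · exact hf p
  intro x hx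
  exact h3 hx

end Cover

section Transfer

variable {k F L Ω : Type u} [Field k] [Fintype k] [Field F] [Algebra k F]
  [Algebra.IsAlgebraic k F] [IsAlgClosed F] [Field L] [Algebra F[X] L] [IsFractionRing F[X] L]
  [Field Ω] [Algebra L Ω] [IsGalois L Ω] [IsSepClosed Ω] [IsSepClosure L Ω]

/-- **From the layers to the statement.** -/
theorem trivialOver_of_wg {g D : k[X]} {s : Ω} {K : Subfield Ω}
    (hK : ∀ σ : Ω ≃ₐ[L] Ω, σ ∈ galOver L K ↔ σ s = s) :
    letI := algK k F L L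
    letI := algK k F L Ω
    letI := algF F L Ω
    haveI : IsScalarTower F[X] L Ω := IsScalarTower.of_algebraMap_eq fun _ => rfl
    haveI : IsScalarTower k[X] L Ω := IsScalarTower.of_algebraMap_eq fun _ => rfl
    letI := actW (k := k) (Ω := Ω) (twist g D).toAffine
    ∀ (hN : (HS8 k L s).Normal)
      (_ : ∀ a : ((twist g D).toAffine.baseChange Ω).Point, 2 • a = 0 →
        (∀ σ ∈ HS8 k L s, σ • a = a) → a = 0)
      (hL : Inf.LocAx (A := ((twist g D).toAffine.baseChange Ω).Point) (HS8 k L s)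
        (LocS (F := F) (L := L) (twist g D) s))
      (φ : Ω ≃ₐ[k[X]] Ω)
      (_ : ∀ x ∈ Inf.Wg Ω hL φ, x = 0)
      (c : ℕ → galOver L K → ((twist g D).map (base k F L Ω)).toAffine.Point)
      (_ : IsTateCocycleOver (twist g D) K c)
      (_ : ∀ (τ : F) (n : ℕ),
        IsLocallyTrivialOver (twist g D) K (c n) ((placeAt τ).adicCompletion L))
      (_ : ∃ M : ℕ, 0 < M ∧
        IsFixedByOver (twist g D) K c (φ ^ M : Ω ≃ₐ[k[X]] Ω).toRingEquiv),
      IsTrivialOver (twist g D) K c := by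
  letI := algK k F L L
  letI := algK k F L Ω
  letI := algF F L Ω
  haveI : IsScalarTower F[X] L Ω := IsScalarTower.of_algebraMap_eq fun _ => rfl
  haveI : IsScalarTower k[X] L Ω := IsScalarTower.of_algebraMap_eq fun _ => rfl
  letI := actW (k := k) (Ω := Ω) (twist g D).toAffine
  intro hN hA hL φ hW c hc hS hinv
  have hk : ∀ p : k[X], algebraMap k[X] L p = algebraMap F[X] L (p.map (algebraMap k F)) :=
    fun _ => rfl
  let W : Affine k[X] := (twist g D).toAffine
  have hmem : ∀ {γ : Ω ≃ₐ[k[X]] Ω} (h : γ ∈ HS8 k L s), ofGL h.1 ∈ galOver L K := fun h =>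
    (hK _).mpr h.2
  -- extension by zero
  let d : ℕ → (Ω ≃ₐ[k[X]] Ω) → (W.baseChange Ω).Point := fun n γ =>
    if h : γ ∈ HS8 k L s then c n ⟨ofGL h.1, hmem h⟩ else 0
  have hd : ∀ n (γ : Ω ≃ₐ[k[X]] Ω) (h : γ ∈ HS8 k L s), d n γ = c n ⟨ofGL h.1, hmem h⟩ :=
    fun n γ h => dif_pos h
  have hTC : Inf.TCo Ω (HS8 k L s) d := by
    refine ⟨?_, ?_, ?_, ?_⟩
    · intro σ hσ
      rw [hd 0 σ hσ]
      exact hc.zero _
    · intro n σ hσ
      rw [hd _ σ hσ, hd _ σ hσ]
      exact hc.two_smul n _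
    · intro n σ hσ τ hτ
      rw [hd n σ hσ, hd n τ hτ, hd n (σ * τ) ((HS8 k L s).mul_mem hσ hτ)]
      exact hc.cocycle n ⟨ofGL hσ.1, hmem hσ⟩ ⟨ofGL hτ.1, hmem hτ⟩ _
        (isImage_map (W := twist g D) (σ : Ω →ₐ[k[X]] Ω) (c n ⟨ofGL hτ.1, hmem hτ⟩))
    · intro n
      obtain ⟨S, hS⟩ := exists_finset_of_locallyConstant (hc.locallyConstant n)
      have h1 : c n 1 = (0 : (W.baseChange Ω).Point) := by
        have h2 := hc.cocycle n 1 1 _
          (isImage_map (W := twist g D) ((1 : Ω ≃ₐ[L] Ω) : Ω →ₐ[L] Ω) (c n 1))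
        have h3 : Point.map (W' := W) ((1 : Ω ≃ₐ[L] Ω) : Ω →ₐ[L] Ω) (c n 1) = c n 1 := sm_one W _
        rw [mul_one] at h2
        let x : (W.baseChange Ω).Point := c n 1
        have h4 : x = x + Point.map (W' := W) ((1 : Ω ≃ₐ[L] Ω) : Ω →ₐ[L] Ω) x := h2
        have h5 : Point.map (W' := W) ((1 : Ω ≃ₐ[L] Ω) : Ω →ₐ[L] Ω) x = x := h3
        rw [h5] at h4
        exact (left_eq_add.mp h4)
      refine ⟨S, fun σ hσ h => ?_⟩
      rw [hd n σ hσ]
      exact (hS ⟨ofGL hσ.1, hmem hσ⟩ h).trans h1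
  have hLoc : ∀ n, LocS (F := F) (L := L) (twist g D) s (d n) := by
    intro n τ M _ _ _ _ _ j
    obtain ⟨Q, hQ⟩ := hS τ n M j
    refine ⟨Q, fun y y' hy' hy P hP => ?_⟩
    have hy2 : toG (k := k) y' ∈ HS8 k L s := toG_mem_HS8.mpr (mem_NS.mp hy')
    have h1 := hQ y ⟨ofGL hy2.1, hmem hy2⟩ hy P hP
    change IsImage _ (d n (toG y')) _
    rw [hd n _ hy2]
    exact h1
  have hx : (QuotientAddGroup.mk d : Inf.Q (W.baseChange Ω).Point (HS8 k L s)) ∈ Inf.ZQ Ω hL :=
    (Inf.mem_ZQ hL).mpr ⟨d, ⟨hTC, hLoc⟩, rfl⟩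
  obtain ⟨M, hM, m, hm, H⟩ := hinv
  have hfix : Inf.cjQ (W.baseChange Ω).Point (HS8 k L s) (φ ^ M) (QuotientAddGroup.mk d) =
      QuotientAddGroup.mk d := by
    rw [← sub_eq_zero]
    apply Inf.ZQ_nsmul_torsion hL hA m ((Inf.ZQ Ω hL).sub_mem (Inf.cjQ_mem hL _ hx) hx) hm
    rw [Inf.cjQ_mk, ← QuotientAddGroup.mk_sub, ← QuotientAddGroup.mk_nsmul,
      ← QuotientAddGroup.mk_zero, Inf.mk_eq_iff]
    intro n
    obtain ⟨A, hA1, hA2⟩ := H n
    refine ⟨A, hA1, fun σ hσ => ?_⟩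
    have hσ' : (φ ^ M)⁻¹ * σ * φ ^ M ∈ HS8 k L s := Inf.conj_mem' (φ ^ M) σ hσ
    have h1 := hA2 ⟨ofGL hσ'.1, hmem hσ'⟩ ⟨ofGL hσ.1, hmem hσ⟩ (fun x => by
      change (φ ^ M) (((φ ^ M)⁻¹ * σ * φ ^ M) x) = σ ((φ ^ M) x)
      rw [AlgEquiv.mul_apply, AlgEquiv.mul_apply, ← AlgEquiv.mul_apply (φ ^ M) (φ ^ M)⁻¹,
        mul_inv_cancel]
      rfl) _ _
      (isImage_map (W := twist g D) ((φ ^ M : Ω ≃ₐ[k[X]] Ω) : Ω →ₐ[k[X]] Ω)
        (c n ⟨ofGL hσ'.1, hmem hσ'⟩))
      (isImage_map (W := twist g D) (σ : Ω →ₐ[k[X]] Ω) A)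
    rw [← hd n _ hσ, ← hd n _ hσ'] at h1
    rw [Pi.zero_apply, Pi.zero_apply, sub_zero]
    exact h1
  have h0 := hW _ ⟨hx, M, hM, hfix⟩
  rw [← QuotientAddGroup.mk_zero, Inf.mk_eq_iff] at h0
  intro n
  obtain ⟨a, ha, h1⟩ := h0 n
  refine ⟨a, ha, fun y A' hA' => ?_⟩
  have hy2 : toG (k := k) (y : Ω ≃ₐ[L] Ω) ∈ HS8 k L s := toG_mem_HS8.mpr ((hK _).mp y.2)
  have h2 := h1 _ hy2
  rw [hd n _ hy2] at h2
  have h3 : A' = Point.map (W' := W) ((y : Ω ≃ₐ[L] Ω) : Ω →ₐ[L] Ω) a :=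
    (isImage_iff (W := twist g D) ((y : Ω ≃ₐ[L] Ω) : Ω →ₐ[L] Ω) _ _).mp hA'
  have h4 : c n y - 0 = Point.map (W' := W) ((y : Ω ≃ₐ[L] Ω) : Ω →ₐ[L] Ω) a - a := h2
  rw [sub_zero] at h4
  rw [h3]
  exact h4

/-- The powers of a lift of Frobenius which fix `k'(t, s)`. -/
lemma exists_pow_fix_cover {s : Ω} (k' : IntermediateField k F) [FiniteDimensional k k'] :
    letI := algK k F L L
    letI := algK k F L Ω
    letI := algF F L Ω
    haveI : IsScalarTower F[X] L Ω := IsScalarTower.of_algebraMap_eq fun _ => rfl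
    haveI : IsScalarTower k[X] L Ω := IsScalarTower.of_algebraMap_eq fun _ => rfl
    ∀ (φ : Ω ≃ₐ[k[X]] Ω) (_ : φ s = s)
      (_ : resF (k := k) (F := F) (L := L) (Ω := Ω) (fun _ => rfl) φ = frob8 k F),
      ∃ M : ℕ, 0 < M ∧ ∀ x ∈ cover k' F L s, (φ ^ M) x = x := by
  letI := algK k F L L
  letI := algK k F L Ω
  letI := algF F L Ω
  haveI : IsScalarTower F[X] L Ω := IsScalarTower.of_algebraMap_eq fun _ => rfl
  haveI : IsScalarTower k[X] L Ω := IsScalarTower.of_algebraMap_eq fun _ => rfl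
  have hk : ∀ p : k[X], algebraMap k[X] L p = algebraMap F[X] L (p.map (algebraMap k F)) :=
    fun _ => rfl
  intro φ hφ hres
  refine ⟨Module.finrank k k', Module.finrank_pos, ?_⟩
  have hfin : Finite k' := Module.finite_of_finite k
  have := Fintype.ofFinite k'
  have hfixF : ∀ a : k', (resF hk (φ ^ Module.finrank k k')) (a : F) = a := by
    intro a
    rw [resF_pow, show resF hk φ = frob8 k F from hres, frob8_pow_apply,
      ← Module.card_eq_pow_finrank (K := k) (V := k')]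
    have h1 := FiniteField.pow_card a
    exact_mod_cast congrArg (fun x : k' => (x : F)) h1
  apply fix_cover (f := ((φ ^ Module.finrank k k' : Ω ≃ₐ[k[X]] Ω) : Ω →+* Ω))
  · change (φ ^ Module.finrank k k') s = s
    generalize Module.finrank k k' = M
    induction M with
    | zero => rfl
    | succ M ih => rw [pow_succ, AlgEquiv.mul_apply, hφ, ih]
  · intro p
    have h1 := resF_spec hk (φ ^ Module.finrank k k') (p.map (algebraMap k' F))
    have h2 : (p.map (algebraMap k' F)).map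
        ((resF hk (φ ^ Module.finrank k k') : F ≃ₐ[k] F) : F →+* F) =
        p.map (algebraMap k' F) := by
      rw [Polynomial.map_map]
      congr 1
      ext a
      exact hfixF a
    rw [h2] at h1
    exact h1

/-- **No Tate classes over the cover.** -/
theorem noTateClassOver_of_wg {g D : k[X]} {s : Ω} (k' : IntermediateField k F)
    [FiniteDimensional k k'] :
    letI := algK k F L L
    letI := algK k F L Ω
    letI := algF F L Ω
    haveI : IsScalarTower F[X] L Ω := IsScalarTower.of_algebraMap_eq fun _ => rfl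
    haveI : IsScalarTower k[X] L Ω := IsScalarTower.of_algebraMap_eq fun _ => rfl
    letI := actW (k := k) (Ω := Ω) (twist g D).toAffine
    ∀ (hN : (HS8 k L s).Normal)
      (_ : ∀ a : ((twist g D).toAffine.baseChange Ω).Point, 2 • a = 0 →
        (∀ σ ∈ HS8 k L s, σ • a = a) → a = 0)
      (hL : Inf.LocAx (A := ((twist g D).toAffine.baseChange Ω).Point) (HS8 k L s)
        (LocS (F := F) (L := L) (twist g D) s))
      (φ : Ω ≃ₐ[k[X]] Ω) (_ : φ s = s)
      (_ : resF (k := k) (F := F) (L := L) (Ω := Ω) (fun _ => rfl) φ = frob8 k F)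
      (_ : ∀ x ∈ Inf.Wg Ω hL φ, x = 0),
      NoTateClassOver k F L g D (cover k' F L s) := by
  intro hN hA hL φ hφ hres hW c hc hS hinv
  obtain ⟨M, hM, h⟩ := exists_pow_fix_cover k' φ hφ hres
  exact trivialOver_of_wg (fun σ => mem_galOver_cover) hN hA hL φ hW c hc
    (fun τ n => hS (placeAt τ) n) ⟨M, hM, hinv _ h⟩

/-- **No Tate classes over the cover**, another form. -/
theorem trivialOver_closure_of_wg {g D : k[X]} {s : Ω} (k' : IntermediateField k F)
    [FiniteDimensional k k'] :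
    letI := algK k F L L
    letI := algK k F L Ω
    letI := algF F L Ω
    haveI : IsScalarTower F[X] L Ω := IsScalarTower.of_algebraMap_eq fun _ => rfl
    haveI : IsScalarTower k[X] L Ω := IsScalarTower.of_algebraMap_eq fun _ => rfl
    letI := actW (k := k) (Ω := Ω) (twist g D).toAffine
    ∀ (hN : (HS8 k L s).Normal)
      (_ : ∀ a : ((twist g D).toAffine.baseChange Ω).Point, 2 • a = 0 →
        (∀ σ ∈ HS8 k L s, σ • a = a) → a = 0)
      (hL : Inf.LocAx (A := ((twist g D).toAffine.baseChange Ω).Point) (HS8 k L s)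
        (LocS (F := F) (L := L) (twist g D) s))
      (φ : Ω ≃ₐ[k[X]] Ω) (_ : φ s = s)
      (_ : resF (k := k) (F := F) (L := L) (Ω := Ω) (fun _ => rfl) φ = frob8 k F)
      (_ : ∀ x ∈ Inf.Wg Ω hL φ, x = 0)
      (c : ℕ → galOver L (Subfield.closure {s}) →
        ((twist g D).map (base k F L Ω)).toAffine.Point)
      (_ : IsTateCocycleOver (twist g D) (Subfield.closure {s}) c)
      (_ : ∀ (v : HeightOneSpectrum F[X]) (n : ℕ),
        IsLocallyTrivialOver (twist g D) (Subfield.closure {s}) (c n) (v.adicCompletion L))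
      (_ : ∀ γ : Ω ≃+* Ω, (∀ p : k'[X], γ (base k' F L Ω p) = base k' F L Ω p) → γ s = s →
        IsFixedByOver (twist g D) (Subfield.closure {s}) c γ),
      IsTrivialOver (twist g D) (Subfield.closure {s}) c := by
  intro hN hA hL φ hφ hres hW c hc hS hinv
  obtain ⟨M, hM, h⟩ := exists_pow_fix_cover k' φ hφ hres
  exact trivialOver_of_wg (fun σ => mem_NS) hN hA hL φ hW c hc
    (fun τ n => hS (placeAt τ) n) ⟨M, hM, hinv _ (fun p =>
      h _ (Subfield.subset_closure (Set.mem_insert_of_mem _ ⟨p, rfl⟩)))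
      (h _ (Subfield.subset_closure (Set.mem_insert _ _)))⟩

end Transfer

end Pool.Agent.Lib.MP_89bcae_ag
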