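import Mathlib
import Pool.Agent.Lib.MP_89bcae_ag.Lev8

/-!
# Descent functions over the quadratic extension `L(s)`, `s² = D`
-/

open Polynomial WeierstrassCurve WeierstrassCurve.Affine

open scoped Classical

namespace Pool.Agent.Lib.MP_89bcae_ag

set_option linter.unusedSectionVars false

section Trans

variable {F L Ω : Type*} [Field F] [IsAlgClosed F] [Field L] [Field Ω]
  [Algebra F[X] L] [IsFractionRing F[X] L] [Algebra L Ω] [Algebra F[X] Ω] [IsScalarTower F[X] L Ω]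
  [IsGalois L Ω] [IsSepClosed Ω] {g D : F[X]} {s : Ω}

/-- An automorphism acts on a square root of `D` by a sign. -/
lemma map_sqrt14 (hs : s ^ 2 = algebraMap F[X] Ω D) (σ : Ω ≃ₐ[L] Ω) : σ s = s ∨ σ s = -s := by
  have h2 : (σ s - s) * (σ s + s) = 0 := by
    have : σ s ^ 2 = s ^ 2 := by rw [← map_pow, hs, map_D]
    linear_combination this
  rcases mul_eq_zero.mp h2 with h | h
  · exact Or.inl (sub_eq_zero.mp h)
  · exact Or.inr (by linear_combination h)

/-- The stabiliser of a square root `s` acts transitively on the roots of `g(x) = t`. -/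
lemma exists_fix_trans14 (h2 : (2 : Ω) ≠ 0) (hg : g.Monic) (hdeg : g.natDegree = 3)
    (hd : derivative g ≠ 0) (hs : s ^ 2 = algebraMap F[X] Ω D) (hs0 : s ≠ 0) {ι : Ω ≃ₐ[L] Ω}
    (hι : ι s = -s) {θ θ' : Ω} (hθ : θ ∈ RootSet (Ω := Ω) g) (hθ' : θ' ∈ RootSet (Ω := Ω) g) :
    ∃ h : Ω ≃ₐ[L] Ω, h s = s ∧ h θ = θ' := by
  by_contra hcon
  push Not at hcon
  have hne : s ≠ -s := by
    intro h
    have : 2 * s = 0 := by linear_combination h
    rcases mul_eq_zero.mp this with h | h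
    · exact h2 h
    · exact hs0 h
  obtain ⟨σ, hσ⟩ := rootSet_transitive (L := L) hg hdeg hθ hθ'
  have hσs : σ s = -s := (map_sqrt14 hs σ).resolve_left fun h => hcon σ h hσ
  have hfix : ∀ ρ : Ω ≃ₐ[L] Ω, ρ θ = θ → ρ s = s := by
    intro ρ hρ
    rcases map_sqrt14 hs ρ with h | h
    · exact h
    · exfalso
      apply hcon (σ * ρ)
      · rw [AlgEquiv.mul_apply, h, map_neg, hσs, neg_neg]
      · rw [AlgEquiv.mul_apply, hρ, hσ]
  obtain ⟨p, q, hq, hpq⟩ := exists_rational_of_fixed (L := L) hθ hfix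
  have hq0 : ∀ θ ∈ RootSet (Ω := Ω) g, ev F Ω θ q ≠ 0 := fun θ hθ h0 =>
    hq (ev_injective L hθ (h0.trans (map_zero _).symm))
  have hr : ∀ θ'' ∈ RootSet (Ω := Ω) g, ev F Ω θ'' p / ev F Ω θ'' q = s ∨
      ev F Ω θ'' p / ev F Ω θ'' q = -s := by
    intro θ'' hθ''
    obtain ⟨ρ, rfl⟩ := rootSet_transitive (L := L) hg hdeg hθ hθ''
    have h1 := congrArg ρ hpq
    rw [map_mul, ev_map, ev_map] at h1
    rw [← h1, mul_div_assoc, div_self (hq0 _ hθ''), mul_one]
    exact map_sqrt14 hs ρ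
  obtain ⟨θ₁, θ₂, θ₃, h12, h13, h23, hR, -, -⟩ :=
    exists_three_roots (F := F) L (Ω := Ω) hg hdeg hd
  have hT : ∀ θ, θ ∈ ({θ₁, θ₂, θ₃} : Finset Ω) ↔ θ ∈ RootSet (Ω := Ω) g := by
    intro θ
    rw [hR]
    simp
  set r : Ω → Ω := fun θ => ev F Ω θ p / ev F Ω θ q with hrdef
  have hP : ι (∏ θ ∈ ({θ₁, θ₂, θ₃} : Finset Ω), r θ) = ∏ θ ∈ ({θ₁, θ₂, θ₃} : Finset Ω), r θ := by
    rw [map_prod, ← prod_roots_map hT ι r]
    apply Finset.prod_congr rfl
    intro θ _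
    rw [hrdef]
    simp only
    rw [map_div₀, ev_map, ev_map]
  rw [Finset.prod_insert (by simp [h12, h13]), Finset.prod_insert (by simp [h23]),
    Finset.prod_singleton] at hP
  have hs3 : s * (s * s) ≠ 0 := mul_ne_zero hs0 (mul_ne_zero hs0 hs0)
  have hfin : ι (s * (s * s)) ≠ s * (s * s) := by
    intro h
    rw [map_mul, map_mul, hι] at h
    have : 2 * (s * (s * s)) = 0 := by linear_combination -h
    rcases mul_eq_zero.mp this with h | h
    · exact h2 h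
    · exact hs3 h
  have e1 := hr θ₁ ((hR _).mpr (Or.inl rfl))
  have e2 := hr θ₂ ((hR _).mpr (Or.inr (Or.inl rfl)))
  have e3 := hr θ₃ ((hR _).mpr (Or.inr (Or.inr rfl)))
  change r θ₁ = s ∨ r θ₁ = -s at e1
  change r θ₂ = s ∨ r θ₂ = -s at e2
  change r θ₃ = s ∨ r θ₃ = -s at e3
  have hcase : r θ₁ * (r θ₂ * r θ₃) = s * (s * s) ∨ r θ₁ * (r θ₂ * r θ₃) = -(s * (s * s)) := by
    rcases e1 with e1 | e1 <;> rcases e2 with e2 | e2 <;> rcases e3 with e3 | e3 <;>
      rw [e1, e2, e3] <;> first | (left; ring1) | (right; ring1)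
  rcases hcase with h | h
  · rw [h] at hP
    exact hfin hP
  · rw [h, map_neg, neg_inj] at hP
    exact hfin hP

end Trans

section Descent

variable {R F L Ω : Type*} [CommRing R] [Field F] [IsAlgClosed F] [Field L] [Field Ω]
  [Algebra F[X] L] [IsFractionRing F[X] L] [Algebra L Ω] [Algebra F[X] Ω] [IsScalarTower F[X] L Ω]
  [Algebra R L] [Algebra R Ω] [IsScalarTower R L Ω] {W : Affine R} {g D E : F[X]}
  [IsGalois L Ω] [IsSepClosed Ω] {s : Ω}

/-- An automorphism fixing `s` is an automorphism over `L(s)`. -/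
lemma exists_over14 {h : Ω ≃ₐ[L] Ω} (hs : h s = s) :
    ∃ h' : Ω ≃ₐ[IntermediateField.adjoin L {s}] Ω, ∀ x, h' x = h x := by
  have hfix : ∀ x : IntermediateField.adjoin L {s}, h (algebraMap _ Ω x) = algebraMap _ Ω x := by
    intro x
    have hle : IntermediateField.adjoin L {s} ≤
        IntermediateField.fixedField (Subgroup.zpowers h) := by
      rw [IntermediateField.adjoin_le_iff, Set.singleton_subset_iff, SetLike.mem_coe,
        IntermediateField.mem_fixedField_iff]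
      rintro f ⟨n, rfl⟩
      have hst : h ∈ MulAction.stabilizer (Ω ≃ₐ[L] Ω) s := hs
      exact (Subgroup.zpow_mem _ hst n)
    exact (IntermediateField.mem_fixedField_iff _ _).mp (hle x.2) h (Subgroup.mem_zpowers h)
  exact ⟨AlgEquiv.ofRingEquiv (f := h.toRingEquiv) hfix, fun x => rfl⟩

/-- Descent functions for a cocycle of the stabiliser of `s`. -/
lemma exists_desc14 (h2 : (2 : Ω) ≠ 0) (hW : IsTwist Ω W g E) (hg : g.Monic)
    (hdeg : g.natDegree = 3) (hd : derivative g ≠ 0)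
    (hs : s ^ 2 = algebraMap F[X] Ω D) (hs0 : s ≠ 0) {ι : Ω ≃ₐ[L] Ω} (hι : ι s = -s)
    {y : (Ω ≃ₐ[L] Ω) → (W.baseChange Ω).Point} (hy2 : ∀ σ, σ s = s → 2 • y σ = 0)
    (hmul : ∀ σ τ : Ω ≃ₐ[L] Ω, σ s = s → τ s = s →
      y (σ * τ) = y σ + Point.map (σ : Ω →ₐ[L] Ω) (y τ))
    (hloc : IsLocallyConstant y) :
    ∃ B : Ω → Ω, (∀ θ ∈ RootSet (Ω := Ω) g, B θ ≠ 0) ∧
      ∀ θ ∈ RootSet (Ω := Ω) g, ∀ h : Ω ≃ₐ[L] Ω, h s = s →
        h (B θ) = rho (algebraMap F[X] Ω E * h θ) (y h) * B (h θ) := by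
  have hshort := hW.short
  obtain ⟨θ₁, θ₂, θ₃, -, -, -, hR, -, -⟩ := exists_three_roots (F := F) L (Ω := Ω) hg hdeg hd
  have hθ₁ : θ₁ ∈ RootSet (Ω := Ω) g := (hR θ₁).mpr (Or.inl rfl)
  set d := algebraMap F[X] Ω E with hdd
  have hσd : ∀ σ : Ω ≃ₐ[L] Ω, σ d = d := fun σ => map_D σ E
  have hres : ∀ σ : Ω ≃ₐ[IntermediateField.adjoin L {s}] Ω, (σ.restrictScalars L) s = s := by
    intro σ
    have := σ.commutes ⟨s, IntermediateField.mem_adjoin_simple_self L s⟩
    exact this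
  obtain ⟨B, hB0, hB⟩ := exists_descent_fun (L := IntermediateField.adjoin L {s})
    (RootSet (Ω := Ω) g)
    (fun θ hθ σ => map_mem_rootSet (σ.restrictScalars L) hθ)
    (fun θ hθ θ' hθ' => by
      obtain ⟨h, h1, h3⟩ := exists_fix_trans14 h2 hg hdeg hd hs hs0 hι hθ hθ'
      obtain ⟨h', h4⟩ := exists_over14 h1
      exact ⟨h', by rw [h4, h3]⟩) ⟨θ₁, hθ₁⟩
    (fun θ σ => rho (d * θ) (y (σ.restrictScalars L)))
    (fun θ _ σ => rho_two_torsion_sq hshort h2 (d * θ) (hy2 _ (hres σ)))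
    (by
      intro θ hθ σ τ
      have hθ' : σ θ ∈ RootSet (Ω := Ω) g := map_mem_rootSet (σ.restrictScalars L) hθ
      have h3 : 2 • Point.map (W' := W) ((σ.restrictScalars L : Ω ≃ₐ[L] Ω) : Ω →ₐ[L] Ω)
          (y (τ.restrictScalars L)) = 0 := by
        rw [← map_nsmul, hy2 _ (hres τ), map_zero]
      have e0 : (σ * τ).restrictScalars L = σ.restrictScalars L * τ.restrictScalars L := rfl
      rw [e0, hmul _ _ (hres σ) (hres τ), rho_add hshort h2 (hW.rt hg hdeg hθ') _ _ h3]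
      congr 1
      have h4 : d * σ θ = ((σ.restrictScalars L : Ω ≃ₐ[L] Ω) : Ω →ₐ[L] Ω) (d * θ) := by
        change _ = (σ.restrictScalars L) (d * θ)
        rw [map_mul, hσd]
        rfl
      rw [h4, rho_map]
      rcases rho_two_torsion_sq hshort h2 (d * θ) (hy2 _ (hres τ)) with h | h <;> simp [h])
    (fun θ _ => (isLocallyConstant_comp8 (K := IntermediateField.adjoin L {s}) (RingHom.id Ω)
      (fun σ => σ.restrictScalars L) (fun _ _ => rfl) hloc).comp (rho (d * θ)))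
  refine ⟨B, hB0, fun θ hθ h hh => ?_⟩
  obtain ⟨h', hh'⟩ := exists_over14 hh
  have e1 : h'.restrictScalars L = h := by
    ext x
    exact hh' x
  have h5 := hB θ hθ h'
  rw [hh', hh'] at h5
  rw [h5]
  change rho (d * h θ) (y (h'.restrictScalars L)) * B (h θ) = _
  rw [e1]

end Descent

end Pool.Agent.Lib.MP_89bcae_ag
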