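import Mathlib
import Pool.Agent.Lib.MP_89bcae_ag.DinfA14
import Pool.Agent.Lib.MP_89bcae_ag.Norm8

/-!
# Classes over `L(s)`, `s² = D`, whose conjugates differ by classes over `L`
-/

open Polynomial WeierstrassCurve WeierstrassCurve.Affine

open scoped Classical

namespace Pool.Agent.Lib.MP_89bcae_ag

set_option linter.unusedSectionVars false

section Maps

variable {R L Ω : Type*} [CommRing R] [Field L] [Field Ω] [Algebra L Ω] [Algebra R L] [Algebra R Ω]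
  [IsScalarTower R L Ω] {W : Affine R}

lemma pmap_mul14 (σ τ : Ω ≃ₐ[L] Ω) (P : (W.baseChange Ω).Point) :
    Point.map (W' := W) ((σ * τ : Ω ≃ₐ[L] Ω) : Ω →ₐ[L] Ω) P =
      Point.map (W' := W) (σ : Ω →ₐ[L] Ω) (Point.map (W' := W) (τ : Ω →ₐ[L] Ω) P) := by
  rcases P with _ | ⟨x, y, h⟩
  · rfl
  · rfl

lemma pmap_one14 (P : (W.baseChange Ω).Point) :
    Point.map (W' := W) ((1 : Ω ≃ₐ[L] Ω) : Ω →ₐ[L] Ω) P = P := by
  rcases P with _ | ⟨x, y, h⟩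
  · rfl
  · rfl

/-- Comparison of the action of two automorphisms. -/
lemma pmap_gamma14 {γ : Ω ≃ₐ[R] Ω} {σ σ' : Ω ≃ₐ[L] Ω} (h : ∀ x, γ (σ' x) = σ (γ x))
    (Q : (W.baseChange Ω).Point) :
    Point.map (W' := W) (γ : Ω →ₐ[R] Ω) (Point.map (W' := W) (σ' : Ω →ₐ[L] Ω) Q) =
      Point.map (W' := W) (σ : Ω →ₐ[L] Ω) (Point.map (W' := W) (γ : Ω →ₐ[R] Ω) Q) := by
  rcases Q with _ | ⟨x, y, hxy⟩
  · rfl
  · rw [Point.map_some, Point.map_some, Point.map_some, Point.map_some]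
    simp only [Point.some.injEq]
    exact ⟨h x, h y⟩

lemma pmap_comp14 {γ γ₂ : Ω ≃ₐ[R] Ω} {σ₁ : Ω ≃ₐ[L] Ω} (h : ∀ x, γ₂ x = γ (σ₁ x))
    (Q : (W.baseChange Ω).Point) :
    Point.map (W' := W) (γ₂ : Ω →ₐ[R] Ω) Q =
      Point.map (W' := W) (γ : Ω →ₐ[R] Ω) (Point.map (W' := W) (σ₁ : Ω →ₐ[L] Ω) Q) := by
  rcases Q with _ | ⟨x, y, hxy⟩
  · rfl
  · rw [Point.map_some, Point.map_some, Point.map_some]
    simp only [Point.some.injEq]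
    exact ⟨h x, h y⟩

lemma two_map14 {P : (W.baseChange Ω).Point} (σ : Ω ≃ₐ[L] Ω) (hP : 2 • P = 0) :
    2 • Point.map (W' := W) (σ : Ω →ₐ[L] Ω) P = 0 := by
  rw [← map_nsmul, hP, map_zero]

lemma two_map_gamma14 {P : (W.baseChange Ω).Point} (γ : Ω ≃ₐ[R] Ω) (hP : 2 • P = 0) :
    2 • Point.map (W' := W) (γ : Ω →ₐ[R] Ω) P = 0 := by
  rw [← map_nsmul, hP, map_zero]

end Maps

section Rel

variable {R L Ω : Type*} [CommRing R] [Field L] [Field Ω] [Algebra L Ω] [Algebra R L] [Algebra R Ω]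
  [IsScalarTower R L Ω]

/-- The function `y` is a cocycle of the stabiliser `H` of `s` with values in the points of order
two, and `z`, `z'` are cocycles of the whole group; the classes of `y - ι y` and of `z` are equal on
`H`, and so are the classes of `γ y - y` and of `z'`. -/
structure Rel2 (W : Affine R) (s : Ω) (γ : Ω ≃ₐ[R] Ω) (ι : Ω ≃ₐ[L] Ω)
    (y z z' : (Ω ≃ₐ[L] Ω) → (W.baseChange Ω).Point) (A A' : (W.baseChange Ω).Point) : Prop where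
  two_y : ∀ σ, σ s = s → 2 • y σ = 0
  mul_y : ∀ σ τ : Ω ≃ₐ[L] Ω, σ s = s → τ s = s →
    y (σ * τ) = y σ + Point.map (W' := W) (σ : Ω →ₐ[L] Ω) (y τ)
  two_z : ∀ σ, 2 • z σ = 0
  mul_z : ∀ σ τ : Ω ≃ₐ[L] Ω, z (σ * τ) = z σ + Point.map (W' := W) (σ : Ω →ₐ[L] Ω) (z τ)
  two_z' : ∀ σ, 2 • z' σ = 0
  two_A : 2 • A = 0
  two_A' : 2 • A' = 0
  rel_iota : ∀ h : Ω ≃ₐ[L] Ω, h s = s →
    y h - Point.map (W' := W) (ι : Ω →ₐ[L] Ω) (y (ι⁻¹ * h * ι)) =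
      z h + (Point.map (W' := W) (h : Ω →ₐ[L] Ω) A - A)
  rel_gamma : ∀ σ' σ : Ω ≃ₐ[L] Ω, (∀ x, γ (σ' x) = σ (γ x)) → σ s = s →
    Point.map (W' := W) (γ : Ω →ₐ[R] Ω) (y σ') =
      y σ + z' σ + (Point.map (W' := W) (σ : Ω →ₐ[L] Ω) A' - A')

variable {W : Affine R} {s : Ω} {γ : Ω ≃ₐ[R] Ω} {ι : Ω ≃ₐ[L] Ω}
  {y z z' : (Ω ≃ₐ[L] Ω) → (W.baseChange Ω).Point} {A A' : (W.baseChange Ω).Point}

lemma inv_neg14 {ι : Ω ≃ₐ[L] Ω} (hι : ι s = -s) : ι⁻¹ s = -s := by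
  apply ι.injective
  rw [← AlgEquiv.mul_apply, mul_inv_cancel, map_neg, hι, neg_neg]
  rfl

/-- The element `ι` may be changed. -/
lemma Rel2.change_iota (h : Rel2 W s γ ι y z z' A A') {ι₂ : Ω ≃ₐ[L] Ω} (hι : ι s = -s)
    (hι₂ : ι₂ s = -s) : ∃ A₂, Rel2 W s γ ι₂ y z z' A₂ A' := by
  set h₂ : Ω ≃ₐ[L] Ω := ι₂ * ι⁻¹ with hh₂
  have h₂s : h₂ s = s := by
    rw [hh₂, AlgEquiv.mul_apply, inv_neg14 hι, map_neg, hι₂, neg_neg]
  have h₂s' : h₂⁻¹ s = s := by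
    apply h₂.injective
    rw [← AlgEquiv.mul_apply, mul_inv_cancel, h₂s]
    rfl
  refine ⟨z h₂ + Point.map (W' := W) (h₂ : Ω →ₐ[L] Ω) A - y h₂, h.two_y, h.mul_y, h.two_z, h.mul_z,
    h.two_z', ?_, h.two_A', ?_, h.rel_gamma⟩
  · rw [smul_sub, smul_add, h.two_z, two_map14 _ h.two_A, h.two_y _ h₂s]
    simp
  · intro g hg
    set g' : Ω ≃ₐ[L] Ω := h₂⁻¹ * g * h₂ with hg'
    have g's : g' s = s := by
      rw [hg', AlgEquiv.mul_apply, AlgEquiv.mul_apply, h₂s, hg, h₂s']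
    have hk : ι⁻¹ * g' * ι = ι₂⁻¹ * g * ι₂ := by
      rw [hg', hh₂]
      group
    have e1 := h.rel_iota g' g's
    rw [hk] at e1
    have e2 := congrArg (Point.map (W' := W) (h₂ : Ω →ₐ[L] Ω)) e1
    rw [map_sub, map_add, map_sub, ← pmap_mul14 h₂ ι, ← pmap_mul14 h₂ g'] at e2
    have e3 : h₂ * ι = ι₂ := by rw [hh₂, inv_mul_cancel_right]
    have e4 : h₂ * g' = g * h₂ := by
      rw [hg']
      group
    rw [e3, e4, pmap_mul14 g h₂] at e2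
    have e5 := h.mul_y h₂ g' h₂s g's
    rw [e4, h.mul_y g h₂ hg h₂s] at e5
    have e6 := h.mul_z h₂ g'
    rw [e4, h.mul_z g h₂] at e6
    have e7 : Point.map (W' := W) (h₂ : Ω →ₐ[L] Ω) (y g') =
        y g + Point.map (W' := W) (g : Ω →ₐ[L] Ω) (y h₂) - y h₂ := by
      rw [e5]; abel
    have e8 : Point.map (W' := W) (h₂ : Ω →ₐ[L] Ω) (z g') =
        z g + Point.map (W' := W) (g : Ω →ₐ[L] Ω) (z h₂) - z h₂ := by
      rw [e6]; abel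
    rw [e7, e8] at e2
    rw [map_sub, map_add]
    have e9 : y g - Point.map (W' := W) (ι₂ : Ω →ₐ[L] Ω) (y (ι₂⁻¹ * g * ι₂)) =
        (y g + Point.map (W' := W) (g : Ω →ₐ[L] Ω) (y h₂) - y h₂ -
          Point.map (W' := W) (ι₂ : Ω →ₐ[L] Ω) (y (ι₂⁻¹ * g * ι₂))) -
          (Point.map (W' := W) (g : Ω →ₐ[L] Ω) (y h₂) - y h₂) := by abel
    rw [e9, e2]
    abel

/-- The lift `γ` may be changed. -/
lemma Rel2.change_gamma (h : Rel2 W s γ ι y z z' A A') (hγ : γ s = s) {γ₂ : Ω ≃ₐ[R] Ω}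
    {σ₁ : Ω ≃ₐ[L] Ω} (hσ₁ : σ₁ s = s) (h12 : ∀ x, γ₂ x = γ (σ₁ x)) :
    ∃ A₂, Rel2 W s γ₂ ι y z z' A A₂ := by
  refine ⟨A' + Point.map (W' := W) (γ : Ω →ₐ[R] Ω) (y σ₁), h.two_y, h.mul_y, h.two_z, h.mul_z,
    h.two_z', h.two_A, ?_, h.rel_iota, ?_⟩
  · rw [smul_add, h.two_A', two_map_gamma14 _ (h.two_y _ hσ₁), add_zero]
  · intro σ' σ hσ hs
    have hσ's : σ' s = s := by
      have h1 := hσ s
      rw [h12 s, hσ₁, hγ, hs] at h1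
      have h3 : γ₂ s = s := by rw [h12, hσ₁, hγ]
      exact γ₂.injective (h1.trans h3.symm)
    have hinv : σ₁⁻¹ s = s := by
      apply σ₁.injective
      rw [← AlgEquiv.mul_apply, mul_inv_cancel, hσ₁]
      rfl
    set σ'' : Ω ≃ₐ[L] Ω := σ₁ * σ' * σ₁⁻¹ with hσ''
    have hc : ∀ x, γ (σ'' x) = σ (γ x) := by
      intro x
      rw [hσ'', AlgEquiv.mul_apply, AlgEquiv.mul_apply, ← h12, hσ, h12, ← AlgEquiv.mul_apply,
        mul_inv_cancel]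
      rfl
    have hσ''s : σ'' s = s := by
      rw [hσ'', AlgEquiv.mul_apply, AlgEquiv.mul_apply, hinv, hσ's, hσ₁]
    have e1 := h.rel_gamma σ'' σ hc hs
    have e2 := h.mul_y σ₁ σ' hσ₁ hσ's
    have e3 := h.mul_y σ'' σ₁ hσ''s hσ₁
    have e4 : σ'' * σ₁ = σ₁ * σ' := by rw [hσ'', inv_mul_cancel_right]
    rw [e4, e2] at e3
    have e5 : Point.map (W' := W) (σ₁ : Ω →ₐ[L] Ω) (y σ') = y σ'' +
        Point.map (W' := W) (σ'' : Ω →ₐ[L] Ω) (y σ₁) - y σ₁ := by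
      rw [← e3]; abel
    rw [pmap_comp14 h12, e5, map_sub, map_add, e1, pmap_gamma14 hc, map_add]
    abel

end Rel

end Pool.Agent.Lib.MP_89bcae_ag
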