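import Mathlib
import Pool.Agent.Lib.MP_89bcae_ag.DinfB14

/-!
# The formula for the divisor of `γ y - y`: global part
-/

open Polynomial WeierstrassCurve WeierstrassCurve.Affine

open scoped Classical

namespace Pool.Agent.Lib.MP_89bcae_ag

set_option linter.unusedSectionVars false

section Sign

variable {R F L Ω : Type*} [CommRing R] [Field F] [IsAlgClosed F] [Field L] [Field Ω]
  [Algebra F[X] L] [IsFractionRing F[X] L] [Algebra L Ω] [Algebra F[X] Ω] [IsScalarTower F[X] L Ω]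
  [Algebra R L] [Algebra R Ω] [IsScalarTower R L Ω] {W : Affine R} {g E : F[X]}
  [IsGalois L Ω] [IsSepClosed Ω]

/-- The sign of a point of order two at a root. -/
noncomputable def sg14 (E : F[X]) (θ : Ω) (P : (W.baseChange Ω).Point) : Ω :=
  rho (algebraMap F[X] Ω E * θ) P

lemma sg_or14 (hW : IsTwist Ω W g E) (h2 : (2 : Ω) ≠ 0) (θ : Ω) {P : (W.baseChange Ω).Point}
    (hP : 2 • P = 0) : sg14 E θ P = 1 ∨ sg14 E θ P = -1 :=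
  rho_two_torsion_sq hW.short h2 _ hP

lemma sg_self14 (hW : IsTwist Ω W g E) (h2 : (2 : Ω) ≠ 0) (θ : Ω) {P : (W.baseChange Ω).Point}
    (hP : 2 • P = 0) : sg14 E θ P * sg14 E θ P = 1 :=
  rho_two_torsion_mul_self hW.short h2 _ hP

lemma sg_add14 (hW : IsTwist Ω W g E) (h2 : (2 : Ω) ≠ 0) (hg : g.Monic) (hdeg : g.natDegree = 3)
    {θ : Ω} (hθ : θ ∈ RootSet (Ω := Ω) g) (P : (W.baseChange Ω).Point)
    {Q : (W.baseChange Ω).Point} (hQ : 2 • Q = 0) :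
    sg14 E θ (P + Q) = sg14 E θ P * sg14 E θ Q :=
  rho_add hW.short h2 (hW.rt hg hdeg hθ) _ _ hQ

lemma map_sg14 (hW : IsTwist Ω W g E) (h2 : (2 : Ω) ≠ 0) (θ : Ω) {P : (W.baseChange Ω).Point}
    (hP : 2 • P = 0) (σ : Ω ≃ₐ[L] Ω) : σ (sg14 E θ P) = sg14 E θ P := by
  rcases sg_or14 hW h2 θ hP with h | h <;> simp [h]

lemma map_sg_gamma14 (hW : IsTwist Ω W g E) (h2 : (2 : Ω) ≠ 0) (θ : Ω)
    {P : (W.baseChange Ω).Point} (hP : 2 • P = 0) (γ : Ω ≃ₐ[R] Ω) :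
    γ (sg14 E θ P) = sg14 E θ P := by
  rcases sg_or14 hW h2 θ hP with h | h <;> simp [h]

lemma sg_map14 (hW : IsTwist Ω W g E) (h2 : (2 : Ω) ≠ 0) (θ : Ω) {P : (W.baseChange Ω).Point}
    (hP : 2 • P = 0) (σ : Ω ≃ₐ[L] Ω) :
    sg14 E (σ θ) (Point.map (W' := W) (σ : Ω →ₐ[L] Ω) P) = sg14 E θ P :=
  rho_map_two_torsion h2 hW σ θ hP

lemma sg_map_gamma14 (hW : IsTwist Ω W g E) (h2 : (2 : Ω) ≠ 0) {γ : Ω ≃ₐ[R] Ω}
    (hγE : γ (algebraMap F[X] Ω E) = algebraMap F[X] Ω E) {θ : Ω} (hθ : γ θ = θ)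
    {P : (W.baseChange Ω).Point} (hP : 2 • P = 0) :
    sg14 E θ (Point.map (W' := W) (γ : Ω →ₐ[R] Ω) P) = sg14 E θ P := by
  have h1 : algebraMap F[X] Ω E * θ = (γ : Ω →ₐ[R] Ω) (algebraMap F[X] Ω E * θ) := by
    change _ = γ (algebraMap F[X] Ω E * θ)
    rw [map_mul, hγE, hθ]
  unfold sg14
  conv_lhs => rw [h1]
  rw [rho_map]
  rcases rho_two_torsion_sq hW.short h2 (algebraMap F[X] Ω E * θ) hP with h3 | h3
  · rw [h3, map_one]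
  · rw [h3, map_neg, map_one]

/-- The product of the signs of five points of order two with sum zero, in the form
`a - b = c + (d - e)`. -/
lemma sg_rel14 (hW : IsTwist Ω W g E) (h2 : (2 : Ω) ≠ 0) (hg : g.Monic) (hdeg : g.natDegree = 3)
    {θ : Ω} (hθ : θ ∈ RootSet (Ω := Ω) g) {a b c d e : (W.baseChange Ω).Point}
    (hb : 2 • b = 0) (hd : 2 • d = 0) (he : 2 • e = 0) (h : a - b = c + (d - e)) :
    sg14 E θ a * sg14 E θ b = sg14 E θ c * sg14 E θ d * sg14 E θ e := by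
  rw [two_nsmul] at hb he
  have h1 : a + b = c + d + e := by
    have e1 : a + b = (a - b) + (b + b) := by abel
    have e3 : c + d + e = (c + (d - e)) + (e + e) := by abel
    rw [e1, e3, hb, he, h]
  rw [← two_nsmul] at hb he
  have h3 := congrArg (sg14 E θ) h1
  rwa [sg_add14 hW h2 hg hdeg hθ _ hb, sg_add14 hW h2 hg hdeg hθ _ he,
    sg_add14 hW h2 hg hdeg hθ _ hd] at h3

/-- A sign function on the roots which is invariant under a transitive group and whose product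
is `1` is trivial. -/
lemma sign_one14 (h2 : (2 : Ω) ≠ 0) (hg : g.Monic)
    (hdeg : g.natDegree = 3) (hd : derivative g ≠ 0) {f : Ω → Ω}
    (hf : ∀ θ ∈ RootSet (Ω := Ω) g, f θ = 1 ∨ f θ = -1)
    (hconst : ∀ θ ∈ RootSet (Ω := Ω) g, ∀ θ' ∈ RootSet (Ω := Ω) g, f θ = f θ')
    (hprod : ∀ T : Finset Ω, (∀ θ, θ ∈ T ↔ θ ∈ RootSet (Ω := Ω) g) → ∏ θ ∈ T, f θ = 1)
    (L' : Type*) [Field L'] [Algebra F[X] L'] [IsFractionRing F[X] L']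
    [Algebra L' Ω] [IsScalarTower F[X] L' Ω] :
    ∀ θ ∈ RootSet (Ω := Ω) g, f θ = 1 := by
  obtain ⟨θ₁, θ₂, θ₃, h12, h13, h23, hR, -, -⟩ :=
    exists_three_roots (F := F) L' (Ω := Ω) hg hdeg hd
  have hT : ∀ θ, θ ∈ ({θ₁, θ₂, θ₃} : Finset Ω) ↔ θ ∈ RootSet (Ω := Ω) g := by
    intro θ
    rw [hR]
    simp
  have h3 := hprod _ hT
  rw [Finset.prod_insert (by simp [h12, h13]), Finset.prod_insert (by simp [h23]),
    Finset.prod_singleton] at h3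
  have m1 : θ₁ ∈ RootSet (Ω := Ω) g := (hR _).mpr (Or.inl rfl)
  have m2 : θ₂ ∈ RootSet (Ω := Ω) g := (hR _).mpr (Or.inr (Or.inl rfl))
  have m3 : θ₃ ∈ RootSet (Ω := Ω) g := (hR _).mpr (Or.inr (Or.inr rfl))
  have h1 : f θ₁ = 1 := by
    rcases hf θ₁ m1 with h | h
    · exact h
    · exfalso
      rw [← hconst θ₁ m1 θ₂ m2, ← hconst θ₁ m1 θ₃ m3, h] at h3
      apply h2
      linear_combination -h3
  intro θ hθ
  rw [hconst θ hθ θ₁ m1, h1]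

/-- The product of the descent functions over the three roots is fixed by `γ`. -/
lemma IsDesc.gamma_prod14 {c : (Ω ≃ₐ[L] Ω) → (W.baseChange Ω).Point} {Z : Finset F}
    {b : Ω → Ω} (h : IsDesc W g E c Z b) (h2 : (2 : Ω) ≠ 0)
    (hW : IsTwist Ω W g E) (hg : g.Monic) (hdeg : g.natDegree = 3) (hd : derivative g ≠ 0)
    (hE : E ≠ 0) (hc : ∀ σ, 2 • c σ = 0) {γ : Ω ≃ₐ[R] Ω} {τ : F →+* F}
    (hγ : ∀ p : F[X], γ (algebraMap F[X] Ω p) = algebraMap F[X] Ω (p.map τ))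
    (hgτ : g.map τ = g) (hfix : ∀ β ∈ Z, τ β = β) {T : Finset Ω}
    (hT : ∀ θ, θ ∈ T ↔ θ ∈ RootSet (Ω := Ω) g) :
    γ (∏ θ ∈ T, b θ) = ∏ θ ∈ T, b θ := by
  obtain ⟨-, hN2⟩ := h.exists_norm h2 hW hg hdeg hd hE hc hT
  set N := ∏ θ ∈ T, b θ with hN
  have heven := h.even h2 hW hg hdeg hd hE hc
  set q : F[X] := ∏ α ∈ Z.image (fun β => g.eval β),
    (X - C α) ^ ((Z.filter fun β => g.eval β = α).card / 2) with hq
  have hNq : N ^ 2 = (algebraMap F[X] Ω q) ^ 2 := by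
    rw [hN2, ← map_pow, hq]
    congr 1
    exact prod_even_fibres Z (fun β => g.eval β) (fun α => X - C α) heven
  have hqτ : q.map τ = q := by
    rw [hq, Polynomial.map_prod]
    apply Finset.prod_congr rfl
    intro α hα
    obtain ⟨β, hβ, rfl⟩ := Finset.mem_image.mp hα
    have h7 : τ (g.eval β) = g.eval β := by
      have := eval₂_hom (p := g) τ β
      rw [← this, ← eval_map, hgτ, hfix β hβ]
    rw [Polynomial.map_pow, Polynomial.map_sub, Polynomial.map_X, Polynomial.map_C, h7]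
  have h7 : (N - algebraMap F[X] Ω q) * (N + algebraMap F[X] Ω q) = 0 := by
    linear_combination hNq
  have h8 : γ (algebraMap F[X] Ω q) = algebraMap F[X] Ω q := by rw [hγ, hqτ]
  rcases mul_eq_zero.mp h7 with h9 | h9
  · rw [sub_eq_zero.mp h9, h8]
  · have : N = -algebraMap F[X] Ω q := by linear_combination h9
    rw [this, map_neg, h8]

/-- The adapted situation: the automorphisms `ι` and `γ` fix the three roots. -/
structure Adp14 (g E D : F[X]) (s : Ω) (γ : Ω ≃ₐ[R] Ω) (ι σ₀ : Ω ≃ₐ[L] Ω) (τ : F →+* F) :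
    Prop where
  s_sq : s ^ 2 = algebraMap F[X] Ω D
  s_ne : s ≠ 0
  ι_s : ι s = -s
  γ_s : γ s = s
  ι_θ : ∀ θ ∈ RootSet (Ω := Ω) g, ι θ = θ
  γ_θ : ∀ θ ∈ RootSet (Ω := Ω) g, γ θ = θ
  σ₀_eq : ∀ x, γ (ι x) = σ₀ (γ x)
  γ_poly : ∀ p : F[X], γ (algebraMap F[X] Ω p) = algebraMap F[X] Ω (p.map τ)
  g_fix : g.map τ = g
  E_fix : E.map τ = E
  conj : ∀ σ : Ω ≃ₐ[L] Ω, ∃ σ' : Ω ≃ₐ[L] Ω, ∀ x, γ (σ' x) = σ (γ x)

variable {D : F[X]} {s : Ω} {γ : Ω ≃ₐ[R] Ω} {ι σ₀ : Ω ≃ₐ[L] Ω} {τ : F →+* F}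

lemma Adp14.inv_θ (a : Adp14 (R := R) g E D s γ ι σ₀ τ) {θ : Ω} (hθ : θ ∈ RootSet (Ω := Ω) g) :
    ι⁻¹ θ = θ := by
  apply ι.injective
  rw [a.ι_θ θ hθ]
  exact ι.apply_symm_apply θ

lemma Adp14.k_s (a : Adp14 (R := R) g E D s γ ι σ₀ τ) {h : Ω ≃ₐ[L] Ω} (hs : h s = s) :
    (ι⁻¹ * h * ι) s = s := by
  rw [AlgEquiv.mul_apply, AlgEquiv.mul_apply, a.ι_s, map_neg, hs, map_neg, inv_neg14 a.ι_s,
    neg_neg]

lemma Adp14.k_θ (a : Adp14 (R := R) g E D s γ ι σ₀ τ) (h : Ω ≃ₐ[L] Ω) {θ : Ω}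
    (hθ : θ ∈ RootSet (Ω := Ω) g) : (ι⁻¹ * h * ι) θ = h θ := by
  rw [AlgEquiv.mul_apply, AlgEquiv.mul_apply, a.ι_θ θ hθ, a.inv_θ (map_mem_rootSet h hθ)]

lemma Adp14.swap (h : Ω ≃ₐ[L] Ω) (x : Ω) : h (ι x) = ι ((ι⁻¹ * h * ι) x) := by
  rw [AlgEquiv.mul_apply, AlgEquiv.mul_apply]
  exact (ι.apply_symm_apply _).symm

lemma Adp14.σ₀_s (a : Adp14 (R := R) g E D s γ ι σ₀ τ) : σ₀ s = -s := by
  have h1 := a.σ₀_eq s
  rw [a.ι_s, map_neg, a.γ_s] at h1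
  exact h1.symm

lemma Adp14.σ₀_θ (a : Adp14 (R := R) g E D s γ ι σ₀ τ) {θ : Ω} (hθ : θ ∈ RootSet (Ω := Ω) g) :
    σ₀ θ = θ := by
  have h1 := a.σ₀_eq θ
  rw [a.ι_θ θ hθ, a.γ_θ θ hθ] at h1
  exact h1.symm

lemma Adp14.h₃_s (a : Adp14 (R := R) g E D s γ ι σ₀ τ) : (ι⁻¹ * σ₀) s = s := by
  rw [AlgEquiv.mul_apply, a.σ₀_s, map_neg, inv_neg14 a.ι_s, neg_neg]

lemma Adp14.h₃_θ (a : Adp14 (R := R) g E D s γ ι σ₀ τ) {θ : Ω} (hθ : θ ∈ RootSet (Ω := Ω) g) :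
    (ι⁻¹ * σ₀) θ = θ := by
  rw [AlgEquiv.mul_apply, a.σ₀_θ hθ, a.inv_θ hθ]

lemma Adp14.σ₀_apply (x : Ω) : σ₀ x = ι ((ι⁻¹ * σ₀) x) := by
  rw [AlgEquiv.mul_apply]
  exact (ι.apply_symm_apply _).symm

/-- The conjugate by `γ` of an element fixing `s`. -/
lemma Adp14.exists_conj_fix (a : Adp14 (R := R) g E D s γ ι σ₀ τ) {σ : Ω ≃ₐ[L] Ω} (hσ : σ s = s) :
    ∃ σ' : Ω ≃ₐ[L] Ω, (∀ x, γ (σ' x) = σ (γ x)) ∧ σ' s = s ∧
      ∀ θ ∈ RootSet (Ω := Ω) g, σ' θ = σ θ := by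
  obtain ⟨σ', h⟩ := a.conj σ
  refine ⟨σ', h, ?_, fun θ hθ => ?_⟩
  · apply γ.injective
    rw [h, a.γ_s, hσ]
  · apply γ.injective
    rw [h, a.γ_θ θ hθ, a.γ_θ _ (map_mem_rootSet σ hθ)]

variable {y z z' : (Ω ≃ₐ[L] Ω) → (W.baseChange Ω).Point} {A A' : (W.baseChange Ω).Point}
  {Z Z' : Finset F} {b b' B : Ω → Ω}

/-- The function `C`. -/
noncomputable def CC14 (E : F[X]) (ι : Ω ≃ₐ[L] Ω) (A : (W.baseChange Ω).Point) (b B : Ω → Ω)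
    (θ : Ω) : Ω := sg14 E θ A * B θ * ι (B θ) / b θ

/-- The function `w`. -/
noncomputable def ww14 (E : F[X]) (γ : Ω ≃ₐ[R] Ω) (A' : (W.baseChange Ω).Point) (b' B : Ω → Ω)
    (θ : Ω) : Ω := sg14 E θ A' * γ (B θ) / (B θ * b' θ)

/-- The function `C` is equivariant for the elements fixing `s`. -/
lemma Adp14.C_fix (a : Adp14 (R := R) g E D s γ ι σ₀ τ) (hW : IsTwist Ω W g E) (h2 : (2 : Ω) ≠ 0)
    (hg : g.Monic) (hdeg : g.natDegree = 3) (hr : Rel2 W s γ ι y z z' A A')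
    (hb : IsDesc W g E z Z b)
    (hB : ∀ θ ∈ RootSet (Ω := Ω) g, ∀ h : Ω ≃ₐ[L] Ω, h s = s →
        h (B θ) = sg14 E (h θ) (y h) * B (h θ))
    {θ : Ω} (hθ : θ ∈ RootSet (Ω := Ω) g) {h : Ω ≃ₐ[L] Ω} (hh : h s = s) :
    h (CC14 E ι A b B θ) = CC14 E ι A b B (h θ) := by
  have hθ' := map_mem_rootSet h hθ
  set k : Ω ≃ₐ[L] Ω := ι⁻¹ * h * ι with hk
  have hks := a.k_s hh
  have hkθ := a.k_θ h hθ
  have hkθ' : ι (h θ) = h θ := a.ι_θ _ hθ'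
  have e1 := hB θ hθ h hh
  have e2 : h (ι (B θ)) = sg14 E (h θ) (y k) * ι (B (h θ)) := by
    rw [Adp14.swap (ι := ι) h, ← hk, hB θ hθ k hks, hkθ, map_mul,
      map_sg14 hW h2 _ (hr.two_y k hks)]
  have e3 : h (b θ) = sg14 E (h θ) (z h) * b (h θ) := hb.act θ hθ h
  have e4 : sg14 E (h θ) (Point.map (W' := W) (h : Ω →ₐ[L] Ω) A) = sg14 E θ A :=
    sg_map14 hW h2 θ hr.two_A h
  have e5 : sg14 E (h θ) (Point.map (W' := W) (ι : Ω →ₐ[L] Ω) (y k)) = sg14 E (h θ) (y k) := by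
    have := sg_map14 hW h2 (h θ) (hr.two_y k hks) ι
    rwa [hkθ'] at this
  have hrel := sg_rel14 hW h2 hg hdeg hθ' (two_map14 ι (hr.two_y k hks)) (two_map14 h hr.two_A)
    hr.two_A (hr.rel_iota h hh)
  rw [e5, e4] at hrel
  have s1 := sg_self14 hW h2 θ hr.two_A
  have hb0 := hb.ne_zero hθ'
  have s3 := sg_self14 hW h2 (h θ) (hr.two_z h)
  have hs30 : sg14 E (h θ) (z h) ≠ 0 := fun h0 => by
    rw [h0, mul_zero] at s3
    exact zero_ne_one s3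
  unfold CC14
  rw [map_div₀, map_mul, map_mul, map_sg14 hW h2 θ hr.two_A, e1, e2, e3,
    div_eq_div_iff (mul_ne_zero hs30 hb0) hb0]
  linear_combination (B (h θ) * ι (B (h θ)) * b (h θ)) *
    (sg14 E θ A * hrel + sg14 E (h θ) (z h) * sg14 E (h θ) A * s1)

/-- The effect of `ι` on `C`. -/
lemma Adp14.C_iota (a : Adp14 (R := R) g E D s γ ι σ₀ τ) (hW : IsTwist Ω W g E) (h2 : (2 : Ω) ≠ 0)
    (hr : Rel2 W s γ ι y z z' A A')
    (hb : IsDesc W g E z Z b)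
    (hB : ∀ θ ∈ RootSet (Ω := Ω) g, ∀ h : Ω ≃ₐ[L] Ω, h s = s →
        h (B θ) = sg14 E (h θ) (y h) * B (h θ))
    {θ : Ω} (hθ : θ ∈ RootSet (Ω := Ω) g) :
    ι (CC14 E ι A b B θ) =
      (sg14 E θ (y (ι * ι)) * sg14 E θ (z ι)) * CC14 E ι A b B θ := by
  have hιι : (ι * ι) s = s := by rw [AlgEquiv.mul_apply, a.ι_s, map_neg, a.ι_s, neg_neg]
  have hιιθ : (ι * ι) θ = θ := by rw [AlgEquiv.mul_apply, a.ι_θ θ hθ, a.ι_θ θ hθ]
  have e1 := hB θ hθ (ι * ι) hιι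
  rw [hιιθ, AlgEquiv.mul_apply] at e1
  have e3 : ι (b θ) = sg14 E (ι θ) (z ι) * b (ι θ) := hb.act θ hθ ι
  rw [a.ι_θ θ hθ] at e3
  have s3 := sg_self14 hW h2 θ (hr.two_z ι)
  have hs30 : sg14 E θ (z ι) ≠ 0 := fun h0 => by
    rw [h0, mul_zero] at s3
    exact zero_ne_one s3
  have hb0 := hb.ne_zero hθ
  unfold CC14
  rw [map_div₀, map_mul, map_mul, map_sg14 hW h2 θ hr.two_A, e1, e3,
    div_eq_iff (mul_ne_zero hs30 hb0), mul_div_assoc', div_mul_eq_mul_div, eq_div_iff hb0]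
  linear_combination (-(sg14 E θ A * ι (B θ) * sg14 E θ (y (ι * ι)) * B θ * b θ)) * s3

lemma ne_zero_C14 (hW : IsTwist Ω W g E) (h2 : (2 : Ω) ≠ 0) (hA : 2 • A = 0)
    (hb0 : ∀ θ ∈ RootSet (Ω := Ω) g, b θ ≠ 0)
    (hB0 : ∀ θ ∈ RootSet (Ω := Ω) g, B θ ≠ 0) {θ : Ω} (hθ : θ ∈ RootSet (Ω := Ω) g) :
    CC14 E ι A b B θ ≠ 0 := by
  have s3 := sg_self14 hW h2 θ hA
  have hs30 : sg14 E θ A ≠ 0 := fun h0 => by
    rw [h0, mul_zero] at s3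
    exact zero_ne_one s3
  exact div_ne_zero (mul_ne_zero (mul_ne_zero hs30 (hB0 θ hθ))
    ((map_ne_zero ι).mpr (hB0 θ hθ))) (hb0 θ hθ)

/-- The function `C` is equivariant. -/
lemma Adp14.C_map (a : Adp14 (R := R) g E D s γ ι σ₀ τ) (hW : IsTwist Ω W g E) (h2 : (2 : Ω) ≠ 0)
    (hg : g.Monic) (hdeg : g.natDegree = 3) (hd : derivative g ≠ 0) (hE : E ≠ 0)
    (hr : Rel2 W s γ ι y z z' A A')
    (hb : IsDesc W g E z Z b) (hB0 : ∀ θ ∈ RootSet (Ω := Ω) g, B θ ≠ 0)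
    (hB : ∀ θ ∈ RootSet (Ω := Ω) g, ∀ h : Ω ≃ₐ[L] Ω, h s = s →
        h (B θ) = sg14 E (h θ) (y h) * B (h θ))
    {θ : Ω} (hθ : θ ∈ RootSet (Ω := Ω) g) (σ : Ω ≃ₐ[L] Ω) :
    σ (CC14 E ι A b B θ) = CC14 E ι A b B (σ θ) := by
  have hιι : (ι * ι) s = s := by rw [AlgEquiv.mul_apply, a.ι_s, map_neg, a.ι_s, neg_neg]
  have h2yι := hr.two_y _ hιι
  have hb0 : ∀ θ ∈ RootSet (Ω := Ω) g, b θ ≠ 0 := fun θ hθ => hb.ne_zero hθ
  have hη : ∀ θ ∈ RootSet (Ω := Ω) g, sg14 E θ (y (ι * ι)) * sg14 E θ (z ι) = 1 := by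
    apply sign_one14 (f := fun θ => sg14 E θ (y (ι * ι)) * sg14 E θ (z ι)) h2 hg hdeg hd _ _ _ L
    · intro θ _
      rcases sg_or14 hW h2 θ h2yι with h | h <;> rcases sg_or14 hW h2 θ (hr.two_z ι) with h' | h' <;>
        simp [h, h']
    · intro θ hθ θ' hθ'
      obtain ⟨h, hh, rfl⟩ := exists_fix_trans14 h2 hg hdeg hd a.s_sq a.s_ne a.ι_s hθ hθ'
      have e1 := congrArg h (a.C_iota hW h2 hr hb hB hθ)
      rw [map_mul, map_mul, map_sg14 hW h2 _ h2yι, map_sg14 hW h2 _ (hr.two_z ι),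
        a.C_fix hW h2 hg hdeg hr hb hB hθ hh, Adp14.swap (ι := ι) h,
        a.C_fix hW h2 hg hdeg hr hb hB hθ (a.k_s hh), a.k_θ h hθ,
        a.C_iota hW h2 hr hb hB hθ'] at e1
      exact (mul_right_cancel₀ (ne_zero_C14 hW h2 hr.two_A hb0 hB0 hθ') e1).symm
    · intro T hT
      have p1 := prod_rho_roots L h2 hW hg hdeg hd hE hT h2yι
      have p2 := prod_rho_roots L h2 hW hg hdeg hd hE hT (hr.two_z ι)
      rw [Finset.prod_mul_distrib]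
      unfold sg14
      rw [p1, p2, one_mul]
  have hι : ∀ θ ∈ RootSet (Ω := Ω) g, ι (CC14 E ι A b B θ) = CC14 E ι A b B θ := by
    intro θ hθ
    rw [a.C_iota hW h2 hr hb hB hθ, hη θ hθ, one_mul]
  rcases map_sqrt14 a.s_sq σ with h | h
  · exact a.C_fix hW h2 hg hdeg hr hb hB hθ h
  · have h1 : (ι⁻¹ * σ) s = s := by
      rw [AlgEquiv.mul_apply, h, map_neg, inv_neg14 a.ι_s, neg_neg]
    have h3 : (ι⁻¹ * σ) θ = σ θ := by
      rw [AlgEquiv.mul_apply, a.inv_θ (map_mem_rootSet σ hθ)]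
    have h4 := a.C_fix hW h2 hg hdeg hr hb hB hθ h1
    rw [h3] at h4
    have h5 : σ (CC14 E ι A b B θ) = ι ((ι⁻¹ * σ) (CC14 E ι A b B θ)) := by
      rw [AlgEquiv.mul_apply]
      exact (ι.apply_symm_apply _).symm
    rw [h5, h4, hι _ (map_mem_rootSet σ hθ)]

end Sign

end Pool.Agent.Lib.MP_89bcae_ag
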