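import Mathlib
import Pool.Agent.Lib.MP_89bcae_ag.DinfC14

/-!
# The formula for the divisor of `γ y - y`: the effect of `γ` on the descent functions
-/

open Polynomial WeierstrassCurve WeierstrassCurve.Affine

open scoped Classical

namespace Pool.Agent.Lib.MP_89bcae_ag

set_option linter.unusedSectionVars false

section Sign

variable {R F L Ω : Type*} [CommRing R] [Field F] [IsAlgClosed F] [Field L] [Field Ω]
  [Algebra F[X] L] [IsFractionRing F[X] L] [Algebra L Ω] [Algebra F[X] Ω] [IsScalarTower F[X] L Ω]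
  [Algebra R L] [Algebra R Ω] [IsScalarTower R L Ω] {W : Affine R} {g E : F[X]}
  [IsGalois L Ω] [IsSepClosed Ω]
  {D : F[X]} {s : Ω} {γ : Ω ≃ₐ[R] Ω} {ι σ₀ : Ω ≃ₐ[L] Ω} {τ : F →+* F}
  {y z z' : (Ω ≃ₐ[L] Ω) → (W.baseChange Ω).Point} {A A' : (W.baseChange Ω).Point}
  {Z Z' : Finset F} {b b' B : Ω → Ω}

lemma Adp14.γ_E (a : Adp14 (R := R) g E D s γ ι σ₀ τ) :
    γ (algebraMap F[X] Ω E) = algebraMap F[X] Ω E := by rw [a.γ_poly, a.E_fix]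

lemma sg_ne14 (hW : IsTwist Ω W g E) (h2 : (2 : Ω) ≠ 0) (θ : Ω) {P : (W.baseChange Ω).Point}
    (hP : 2 • P = 0) : sg14 E θ P ≠ 0 := by
  intro h0
  have s3 := sg_self14 hW h2 θ hP
  rw [h0, mul_zero] at s3
  exact zero_ne_one s3

/-- The function `w` is equivariant for the elements fixing `s`. -/
lemma Adp14.w_fix (a : Adp14 (R := R) g E D s γ ι σ₀ τ) (hW : IsTwist Ω W g E) (h2 : (2 : Ω) ≠ 0)
    (hg : g.Monic) (hdeg : g.natDegree = 3) (hr : Rel2 W s γ ι y z z' A A')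
    (hb' : IsDesc W g E z' Z' b') (hB0 : ∀ θ ∈ RootSet (Ω := Ω) g, B θ ≠ 0)
    (hB : ∀ θ ∈ RootSet (Ω := Ω) g, ∀ h : Ω ≃ₐ[L] Ω, h s = s →
        h (B θ) = sg14 E (h θ) (y h) * B (h θ))
    {θ : Ω} (hθ : θ ∈ RootSet (Ω := Ω) g) {σ : Ω ≃ₐ[L] Ω} (hσ : σ s = s) :
    σ (ww14 E γ A' b' B θ) = ww14 E γ A' b' B (σ θ) := by
  have hθ' := map_mem_rootSet σ hθ
  obtain ⟨σ', h1, h3, h4⟩ := a.exists_conj_fix hσ
  have e1 : σ (γ (B θ)) = sg14 E (σ θ) (y σ') * γ (B (σ θ)) := by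
    rw [← h1, hB θ hθ σ' h3, h4 θ hθ, map_mul, map_sg_gamma14 hW h2 _ (hr.two_y σ' h3)]
  have e3 := hB θ hθ σ hσ
  have e4 : σ (b' θ) = sg14 E (σ θ) (z' σ) * b' (σ θ) := hb'.act θ hθ σ
  have e5 : sg14 E (σ θ) (Point.map (W' := W) (σ : Ω →ₐ[L] Ω) A') = sg14 E θ A' :=
    sg_map14 hW h2 θ hr.two_A' σ
  have e6 : sg14 E (σ θ) (Point.map (W' := W) (γ : Ω →ₐ[R] Ω) (y σ')) = sg14 E (σ θ) (y σ') :=
    sg_map_gamma14 hW h2 a.γ_E (a.γ_θ _ hθ') (hr.two_y σ' h3)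
  have hrel0 := hr.rel_gamma σ' σ h1 hσ
  have hrel := sg_rel14 (b := y σ) (c := z' σ) hW h2 hg hdeg hθ' (hr.two_y σ hσ)
    (two_map14 σ hr.two_A') hr.two_A' (a := Point.map (W' := W) (γ : Ω →ₐ[R] Ω) (y σ'))
    (by rw [hrel0]; abel)
  rw [e6, e5] at hrel
  have s1 := sg_self14 hW h2 θ hr.two_A'
  have n1 := sg_ne14 hW h2 (σ θ) (hr.two_y σ hσ)
  have n3 := sg_ne14 hW h2 (σ θ) (hr.two_z' σ)
  have s3 := sg_self14 hW h2 (σ θ) (hr.two_y σ hσ)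
  have hB0' := hB0 _ hθ'
  have hb0' := hb'.ne_zero hθ'
  unfold ww14
  rw [map_div₀, map_mul, map_mul, map_sg14 hW h2 θ hr.two_A', e1, e3, e4,
    div_eq_div_iff (mul_ne_zero (mul_ne_zero n1 hB0') (mul_ne_zero n3 hb0')) (mul_ne_zero hB0' hb0')]
  linear_combination (γ (B (σ θ)) * B (σ θ) * b' (σ θ)) *
    (sg14 E θ A' * sg14 E (σ θ) (y σ) * hrel - sg14 E θ A' * sg14 E (σ θ) (y σ') * s3 +
      sg14 E (σ θ) (y σ) * sg14 E (σ θ) (z' σ) * sg14 E (σ θ) A' * s1)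

lemma ww_ne14 (hW : IsTwist Ω W g E) (h2 : (2 : Ω) ≠ 0) (hA : 2 • A' = 0)
    (hb0 : ∀ θ ∈ RootSet (Ω := Ω) g, b' θ ≠ 0)
    (hB0 : ∀ θ ∈ RootSet (Ω := Ω) g, B θ ≠ 0) {θ : Ω} (hθ : θ ∈ RootSet (Ω := Ω) g) :
    ww14 E γ A' b' B θ ≠ 0 :=
  div_ne_zero (mul_ne_zero (sg_ne14 hW h2 θ hA) ((map_ne_zero γ).mpr (hB0 θ hθ)))
    (mul_ne_zero (hB0 θ hθ) (hb0 θ hθ))

lemma gamma_B14 (hW : IsTwist Ω W g E) (h2 : (2 : Ω) ≠ 0) (hA : 2 • A' = 0)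
    (hb0 : ∀ θ ∈ RootSet (Ω := Ω) g, b' θ ≠ 0)
    (hB0 : ∀ θ ∈ RootSet (Ω := Ω) g, B θ ≠ 0) {θ : Ω} (hθ : θ ∈ RootSet (Ω := Ω) g) :
    γ (B θ) = sg14 E θ A' * ww14 E γ A' b' B θ * B θ * b' θ := by
  have s1 := sg_self14 hW h2 θ hA
  have h1 := hB0 θ hθ
  have h3 := hb0 θ hθ
  unfold ww14
  field_simp
  linear_combination (-(γ (B θ))) * s1

/-- The effect of `γ` on the product `C`. -/
lemma Adp14.gamma_C (a : Adp14 (R := R) g E D s γ ι σ₀ τ) (hW : IsTwist Ω W g E)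
    (h2 : (2 : Ω) ≠ 0)
    (hg : g.Monic) (hdeg : g.natDegree = 3) (hr : Rel2 W s γ ι y z z' A A')
    (hb : IsDesc W g E z Z b)
    (hb' : IsDesc W g E z' Z' b') (hB0 : ∀ θ ∈ RootSet (Ω := Ω) g, B θ ≠ 0)
    (hB : ∀ θ ∈ RootSet (Ω := Ω) g, ∀ h : Ω ≃ₐ[L] Ω, h s = s →
        h (B θ) = sg14 E (h θ) (y h) * B (h θ))
    {θ : Ω} (hθ : θ ∈ RootSet (Ω := Ω) g) {δ : Ω} (hδ : γ (b θ) = δ * b θ) (hδ1 : δ * δ = 1) :
    γ (CC14 E ι A b B θ) = (sg14 E θ (y (ι⁻¹ * σ₀)) * sg14 E θ (z' σ₀) * δ) *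
      (ww14 E γ A' b' B θ * ι (ww14 E γ A' b' B θ) * b' θ ^ 2 * CC14 E ι A b B θ) := by
  have hb0' : ∀ θ ∈ RootSet (Ω := Ω) g, b' θ ≠ 0 := fun θ hθ => hb'.ne_zero hθ
  have h3s := a.h₃_s
  have h3θ := a.h₃_θ hθ
  have e0 := gamma_B14 (γ := γ) hW h2 hr.two_A' hb0' hB0 hθ
  have e1 : σ₀ (ww14 E γ A' b' B θ) = ι (ww14 E γ A' b' B θ) := by
    rw [Adp14.σ₀_apply (ι := ι) (σ₀ := σ₀), a.w_fix hW h2 hg hdeg hr hb' hB0 hB hθ h3s, h3θ]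
  have e2 : σ₀ (B θ) = sg14 E θ (y (ι⁻¹ * σ₀)) * ι (B θ) := by
    rw [Adp14.σ₀_apply (ι := ι) (σ₀ := σ₀), hB θ hθ _ h3s, h3θ, map_mul,
      map_sg14 hW h2 _ (hr.two_y _ h3s)]
  have e3 : σ₀ (b' θ) = sg14 E θ (z' σ₀) * b' θ := by
    have := hb'.act θ hθ σ₀
    rwa [a.σ₀_θ hθ] at this
  have e4 : γ (ι (B θ)) = sg14 E θ A' * ι (ww14 E γ A' b' B θ) *
      (sg14 E θ (y (ι⁻¹ * σ₀)) * ι (B θ)) * (sg14 E θ (z' σ₀) * b' θ) := by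
    rw [a.σ₀_eq, e0, map_mul, map_mul, map_mul, map_sg14 hW h2 θ hr.two_A', e1, e2, e3]
  have hδ0 : δ ≠ 0 := by
    rintro rfl
    rw [mul_zero] at hδ1
    exact zero_ne_one hδ1
  have hb0 := hb.ne_zero hθ
  have s1 := sg_self14 hW h2 θ hr.two_A'
  have e5 : γ (CC14 E ι A b B θ) = sg14 E θ A * γ (B θ) * γ (ι (B θ)) / (δ * b θ) := by
    unfold CC14
    rw [map_div₀, map_mul, map_mul, map_sg_gamma14 hW h2 θ hr.two_A, hδ]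
  have e6 : sg14 E θ A * B θ * ι (B θ) = CC14 E ι A b B θ * b θ := by
    unfold CC14
    rw [div_mul_cancel₀ _ hb0]
  rw [e5, e4, e0, div_eq_iff (mul_ne_zero hδ0 hb0)]
  generalize ww14 E γ A' b' B θ = w at *
  generalize CC14 E ι A b B θ = CC at *
  linear_combination (w * ι w * b' θ ^ 2 * sg14 E θ (y (ι⁻¹ * σ₀)) * sg14 E θ (z' σ₀)) *
    (sg14 E θ A * B θ * ι (B θ) * s1 + e6 - CC * b θ * hδ1)

/-- **The effect of `γ` on the descent functions of `z`.** -/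
theorem Adp14.gamma_b (a : Adp14 (R := R) g E D s γ ι σ₀ τ) (hW : IsTwist Ω W g E)
    (h2 : (2 : Ω) ≠ 0)
    (hg : g.Monic) (hdeg : g.natDegree = 3) (hd : derivative g ≠ 0) (hE : E ≠ 0)
    (hr : Rel2 W s γ ι y z z' A A')
    (hb : IsDesc W g E z Z b)
    (hb' : IsDesc W g E z' Z' b') (hB0 : ∀ θ ∈ RootSet (Ω := Ω) g, B θ ≠ 0)
    (hB : ∀ θ ∈ RootSet (Ω := Ω) g, ∀ h : Ω ≃ₐ[L] Ω, h s = s →
        h (B θ) = sg14 E (h θ) (y h) * B (h θ))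
    (hfix : ∀ β ∈ Z, τ β = β)
    {θ : Ω} (hθ : θ ∈ RootSet (Ω := Ω) g) :
    γ (b θ) = sg14 E θ (y (ι⁻¹ * σ₀)) * sg14 E θ (z' σ₀) * b θ := by
  have hb0 : ∀ θ ∈ RootSet (Ω := Ω) g, b θ ≠ 0 := fun θ hθ => hb.ne_zero hθ
  have hb0' : ∀ θ ∈ RootSet (Ω := Ω) g, b' θ ≠ 0 := fun θ hθ => hb'.ne_zero hθ
  have h3s := a.h₃_s
  -- the sign `δ`
  have hδ : ∀ θ ∈ RootSet (Ω := Ω) g, γ (b θ) = (γ (b θ) / b θ) * b θ ∧
      (γ (b θ) / b θ) * (γ (b θ) / b θ) = 1 := by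
    intro θ hθ
    have h1 := hb0 θ hθ
    refine ⟨(div_mul_cancel₀ _ h1).symm, ?_⟩
    have h3 : γ (b θ) ^ 2 = b θ ^ 2 := by
      rw [← map_pow, hb.sq θ hθ, map_prod]
      apply Finset.prod_congr rfl
      intro β hβ
      rw [map_sub, a.γ_θ θ hθ, a.γ_poly, Polynomial.map_C, hfix β hβ]
    rw [div_mul_div_comm, ← pow_two, ← pow_two, h3, div_self (pow_ne_zero 2 h1)]
  set δ : Ω → Ω := fun θ => γ (b θ) / b θ with hδdef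
  have hC0 : ∀ θ ∈ RootSet (Ω := Ω) g, CC14 E ι A b B θ ≠ 0 := fun θ hθ =>
    ne_zero_C14 hW h2 hr.two_A hb0 hB0 hθ
  have hw0 : ∀ θ ∈ RootSet (Ω := Ω) g, ww14 E γ A' b' B θ ≠ 0 := fun θ hθ =>
    ww_ne14 hW h2 hr.two_A' hb0' hB0 hθ
  have hone : ∀ θ ∈ RootSet (Ω := Ω) g,
      sg14 E θ (y (ι⁻¹ * σ₀)) * sg14 E θ (z' σ₀) * δ θ = 1 := by
    apply sign_one14 (f := fun θ => sg14 E θ (y (ι⁻¹ * σ₀)) * sg14 E θ (z' σ₀) * δ θ)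
      h2 hg hdeg hd _ _ _ L
    · intro θ hθ
      have h1 : δ θ = 1 ∨ δ θ = -1 := mul_self_eq_one_iff.mp (hδ θ hθ).2
      rcases sg_or14 hW h2 θ (hr.two_y _ h3s) with h | h <;>
        rcases sg_or14 hW h2 θ (hr.two_z' σ₀) with h' | h' <;> rcases h1 with h1 | h1 <;>
        simp [h, h', h1]
    · intro θ hθ θ' hθ'
      obtain ⟨h, hh, rfl⟩ := exists_fix_trans14 h2 hg hdeg hd a.s_sq a.s_ne a.ι_s hθ hθ'
      obtain ⟨h', k1, k2, k3⟩ := a.exists_conj_fix hh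
      have e1 := a.gamma_C hW h2 hg hdeg hr hb hb' hB0 hB hθ (hδ θ hθ).1 (hδ θ hθ).2
      have e2 := a.gamma_C hW h2 hg hdeg hr hb hb' hB0 hB hθ' (hδ _ hθ').1 (hδ _ hθ').2
      have e3 := congrArg h e1
      have e4 : h (γ (CC14 E ι A b B θ)) = γ (CC14 E ι A b B (h θ)) := by
        rw [← k1, a.C_fix hW h2 hg hdeg hr hb hB hθ k2, k3 θ hθ]
      have e5 : h (ι (ww14 E γ A' b' B θ)) = ι (ww14 E γ A' b' B (h θ)) := by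
        rw [Adp14.swap (ι := ι) h, a.w_fix hW h2 hg hdeg hr hb' hB0 hB hθ (a.k_s hh), a.k_θ h hθ]
      have e6 : h (b' θ) ^ 2 = b' (h θ) ^ 2 := by
        have e7 : h (b' θ) = sg14 E (h θ) (z' h) * b' (h θ) := hb'.act θ hθ h
        have e8 := sg_self14 hW h2 (h θ) (hr.two_z' h)
        rw [e7, mul_pow, pow_two (sg14 E (h θ) (z' h)), e8, one_mul]
      have e9 : h (sg14 E θ (y (ι⁻¹ * σ₀)) * sg14 E θ (z' σ₀) * (γ (b θ) / b θ)) =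
          sg14 E θ (y (ι⁻¹ * σ₀)) * sg14 E θ (z' σ₀) * (γ (b θ) / b θ) := by
        have h1 : γ (b θ) / b θ = 1 ∨ γ (b θ) / b θ = -1 := mul_self_eq_one_iff.mp (hδ θ hθ).2
        rw [map_mul, map_mul, map_sg14 hW h2 _ (hr.two_y _ h3s), map_sg14 hW h2 _ (hr.two_z' _)]
        rcases h1 with h1 | h1 <;> rw [h1] <;> simp
      rw [e4, e2, map_mul, e9, map_mul, map_mul, map_mul, e5, map_pow, e6,
        a.w_fix hW h2 hg hdeg hr hb' hB0 hB hθ hh, a.C_fix hW h2 hg hdeg hr hb hB hθ hh] at e3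
      exact (mul_right_cancel₀ (mul_ne_zero (mul_ne_zero (mul_ne_zero (hw0 _ hθ')
        ((map_ne_zero ι).mpr (hw0 _ hθ'))) (pow_ne_zero 2 (hb0' _ hθ'))) (hC0 _ hθ')) e3).symm
    · intro T hT
      have p1 := prod_rho_roots L h2 hW hg hdeg hd hE hT (hr.two_y _ h3s)
      have p2 := prod_rho_roots L h2 hW hg hdeg hd hE hT (hr.two_z' σ₀)
      have p3 := hb.gamma_prod14 h2 hW hg hdeg hd hE hr.two_z a.γ_poly a.g_fix hfix hT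
      have p4 : ∏ θ ∈ T, δ θ = 1 := by
        rw [hδdef, Finset.prod_div_distrib, ← map_prod, p3]
        exact div_self (Finset.prod_ne_zero_iff.mpr fun θ hθ => hb0 θ ((hT θ).mp hθ))
      rw [Finset.prod_mul_distrib, Finset.prod_mul_distrib, p4]
      unfold sg14
      rw [p1, p2, one_mul, one_mul]
  have h1 := hone θ hθ
  have s1 := sg_self14 hW h2 θ (hr.two_y _ h3s)
  have s2 := sg_self14 hW h2 θ (hr.two_z' σ₀)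
  have h4 : δ θ = sg14 E θ (y (ι⁻¹ * σ₀)) * sg14 E θ (z' σ₀) := by
    linear_combination (sg14 E θ (y (ι⁻¹ * σ₀)) * sg14 E θ (z' σ₀)) * h1 -
      δ θ * s1 - δ θ * (sg14 E θ (y (ι⁻¹ * σ₀)) * sg14 E θ (y (ι⁻¹ * σ₀))) * (s2)
  rw [(hδ θ hθ).1]
  change δ θ * b θ = _
  rw [h4]

end Sign

end Pool.Agent.Lib.MP_89bcae_ag
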