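import Mathlib
import Pool.Agent.Lib.MP_89bcae_ag.DinfD14
import Pool.Agent.Lib.MP_89bcae_ag.Key8

/-!
# The formula for the divisor of `γ y - y`: local part
-/

open Polynomial WeierstrassCurve WeierstrassCurve.Affine

open scoped Classical

namespace Pool.Agent.Lib.MP_89bcae_ag

set_option linter.unusedSectionVars false

section Tower

variable {R F L Ω : Type*} [CommRing R] [Field F] [IsAlgClosed F] [Field L] [Field Ω]
  [Algebra F[X] L] [IsFractionRing F[X] L] [Algebra L Ω] [Algebra F[X] Ω] [IsScalarTower F[X] L Ω]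
  [Algebra R L] [Algebra R Ω] [IsScalarTower R L Ω] {W : Affine R} {g D E : F[X]}
  [IsGalois L Ω] [IsSepClosed Ω]
  {K : Type*} [Field K] [Algebra L K] [Algebra K Ω] [IsScalarTower L K Ω] [Algebra F[X] K]
  [IsScalarTower F[X] L K] [IsScalarTower F[X] K Ω] [IsGalois K Ω]
  {w : Valuation K (WithZero (Multiplicative ℤ))} {α : F} {S : Ω} {γ : Ω ≃ₐ[R] Ω}
  {γK : K ≃+* K} {τ : F →+* F} {s : Ω}
  {y z z' : (Ω ≃ₐ[L] Ω) → (W.baseChange Ω).Point} {A A' : (W.baseChange Ω).Point}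
  {Z Z' : Finset F} {b b' B : Ω → Ω}

variable (L) in
include L in
/-- The action of the local Galois group on the square root of `D`. -/
lemma KeyData.act_s (h : KeyData w g D α S γ γK τ) (hs : s ^ 2 = algebraMap F[X] Ω D)
    (σ : Ω ≃ₐ[K] Ω) : (σ S = S → σ s = s) ∧ (σ S = -S → σ s = -s) := by
  have hdK : algebraMap F[X] K D ≠ 0 := by
    intro h0
    apply algebraMap_ne_zero_Om (F := F) L (Ω := Ω) h.loc.ne
    rw [IsScalarTower.algebraMap_apply F[X] K Ω, h0, map_zero]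
  have h1 := sqrt_odd h.loc.unif h.loc.sqrt h.loc.S_sq hdK h.loc.odd (d := s)
    (by rw [hs, ← IsScalarTower.algebraMap_apply]) σ
  constructor
  · intro h3
    rw [h3] at h1
    exact mul_right_cancel₀ h.loc.S_ne h1
  · intro h3
    rw [h3] at h1
    apply mul_right_cancel₀ h.loc.S_ne
    rw [h1]; ring

/-- The sign of a cocycle of order two at an element moving `S`. -/
lemma KeyData.sign_near14 (h : KeyData w g D α S γ γK τ)
    {c : (Ω ≃ₐ[L] Ω) → (W.baseChange Ω).Point} {Z : Finset F} {b : Ω → Ω}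
    (hb : IsDesc W g E c Z b)
    {σ₀ : Ω ≃ₐ[K] Ω} (hσ₀ : σ₀ S = -S) {x : K} {β : F}
    (hx : algebraMap K Ω x ∈ RootSet (Ω := Ω) g)
    (hn : w (x - algebraMap F[X] K (C β)) = WithZero.exp (-1 : ℤ)) :
    sg14 E (algebraMap K Ω x) (c (σ₀.restrictScalars L)) = if β ∈ Z then -1 else 1 := by
  have hoth : ∀ β' : F, β' ≠ β → w (x - algebraMap F[X] K (C β')) = 1 := by
    intro β' hne
    exact ((cg_of_near hn).sub (IsOver.cg_const (w := w) β')).one h.isOver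
      (sub_ne_zero.mpr (Ne.symm hne))
  obtain ⟨hne, hlg⟩ := lg_root_prod w hn hoth Z
  have hprod0 : (∏ β' ∈ Z, (x - algebraMap F[X] K (C β'))) ≠ 0 :=
    Finset.prod_ne_zero_iff.mpr fun β' _ => hne β'
  have hsq : b (algebraMap K Ω x) ^ 2 =
      algebraMap K Ω (∏ β' ∈ Z, (x - algebraMap F[X] K (C β'))) := by
    rw [hb.sq _ hx, map_prod]
    apply Finset.prod_congr rfl
    intro β' _
    rw [map_sub, ← IsScalarTower.algebraMap_apply]
  have hact := hb.act _ hx (σ₀.restrictScalars L)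
  have hfix : (σ₀.restrictScalars L) (algebraMap K Ω x) = algebraMap K Ω x := σ₀.commutes x
  rw [hfix] at hact
  have hb0 := hb.ne_zero hx
  unfold sg14
  by_cases hβ : β ∈ Z
  · rw [if_pos hβ] at hlg ⊢
    have h1 := sqrt_odd h.loc.unif h.loc.sqrt h.loc.S_sq hprod0 (by rw [hlg]; decide) hsq σ₀
    have h3 : σ₀ (b (algebraMap K Ω x)) = -b (algebraMap K Ω x) := by
      apply mul_right_cancel₀ h.loc.S_ne
      rw [h1, hσ₀]; ring
    have h4 : (σ₀.restrictScalars L) (b (algebraMap K Ω x)) = -b (algebraMap K Ω x) := h3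
    rw [h4] at hact
    apply mul_right_cancel₀ hb0
    rw [← hact]; ring
  · rw [if_neg hβ] at hlg ⊢
    obtain ⟨r, hr⟩ := exists_rational_sqrt w h.loc.unif h.loc.sqrt hprod0 (by rw [hlg]; decide) hsq
    have h4 : (σ₀.restrictScalars L) (b (algebraMap K Ω x)) = b (algebraMap K Ω x) := by
      rw [← hr]; exact σ₀.commutes r
    rw [h4] at hact
    apply mul_right_cancel₀ hb0
    rw [← hact]; ring

/-- The elements of the local Galois group which fix `S` fix `B(θ)`, provided that the product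
`B(θ) ι(B(θ))` is in `K`. -/
lemma KeyData.fix_B14 (h : KeyData w g D α S γ γK τ) (hW : IsTwist Ω W g E)
    (hs : s ^ 2 = algebraMap F[X] Ω D)
    (hy2 : ∀ σ : Ω ≃ₐ[L] Ω, σ s = s → 2 • y σ = 0)
    (hB0 : ∀ θ ∈ RootSet (Ω := Ω) g, B θ ≠ 0)
    (hB : ∀ θ ∈ RootSet (Ω := Ω) g, ∀ h : Ω ≃ₐ[L] Ω, h s = s →
        h (B θ) = sg14 E (h θ) (y h) * B (h θ))
    {ι : Ω ≃ₐ[K] Ω} (hι : ι S = -S) {θ : Ω} (hθ : θ ∈ RootSet (Ω := Ω) g)
    (hN : ∀ σ : Ω ≃ₐ[K] Ω, σ (B θ * ι (B θ)) = B θ * ι (B θ)) {h₁ : Ω ≃ₐ[K] Ω} (hh : h₁ S = S) :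
    sg14 E θ (y (h₁.restrictScalars L)) = 1 := by
  have h2 := h.loc.two
  have hinv : ι⁻¹ S = -S := by
    apply ι.injective
    rw [← AlgEquiv.mul_apply, mul_inv_cancel, map_neg, hι, neg_neg]
    rfl
  have hfixθ : ∀ σ : Ω ≃ₐ[K] Ω, σ θ = θ := fun σ => h.loc.fix_root hθ σ
  have hact : ∀ σ : Ω ≃ₐ[K] Ω, σ S = S → σ (B θ) = sg14 E θ (y (σ.restrictScalars L)) * B θ ∧
      2 • y (σ.restrictScalars L) = 0 := by
    intro σ hσ
    have h1 : (σ.restrictScalars L) s = s := (h.act_s L hs σ).1 hσ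
    have h3 := hB θ hθ (σ.restrictScalars L) h1
    have h4 : (σ.restrictScalars L) θ = θ := hfixθ σ
    rw [h4] at h3
    exact ⟨h3, hy2 _ h1⟩
  have hBθ := hB0 θ hθ
  have hιB : ι (B θ) ≠ 0 := (map_ne_zero ι).mpr hBθ
  -- squares
  have q1 : ∀ σ : Ω ≃ₐ[K] Ω, σ S = S → σ (B θ) ^ 2 = B θ ^ 2 := by
    intro σ hσ
    obtain ⟨h1, h3⟩ := hact σ hσ
    rw [h1, mul_pow, pow_two (sg14 E θ _), sg_self14 hW h2 θ h3, one_mul]
  have q2 : ∀ σ : Ω ≃ₐ[K] Ω, σ S = -S → σ (B θ) ^ 2 = ι (B θ) ^ 2 := by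
    intro σ hσ
    have h1 := q1 (ι⁻¹ * σ) (by rw [AlgEquiv.mul_apply, hσ, map_neg, hinv, neg_neg])
    have h3 := congrArg ι h1
    rw [map_pow, map_pow, ← AlgEquiv.mul_apply, mul_inv_cancel_left] at h3
    exact h3
  have q3 : ∀ σ : Ω ≃ₐ[K] Ω, σ (B θ ^ 2 + ι (B θ) ^ 2) = B θ ^ 2 + ι (B θ) ^ 2 := by
    intro σ
    rw [map_add, map_pow, map_pow]
    rcases smul_sign h.loc.S_sq σ with hσ | hσ
    · have h1 := q2 (σ * ι) (by rw [AlgEquiv.mul_apply, hι, map_neg, hσ])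
      rw [AlgEquiv.mul_apply] at h1
      rw [q1 σ hσ, h1]
    · have h1 := q1 (σ * ι) (by rw [AlgEquiv.mul_apply, hι, map_neg, hσ, neg_neg])
      rw [AlgEquiv.mul_apply] at h1
      rw [q2 σ hσ, h1, add_comm]
  -- the two signs
  set χ := sg14 E θ (y (h₁.restrictScalars L)) with hχ
  obtain ⟨a1, t1⟩ := hact h₁ hh
  rw [← hχ] at a1
  set k : Ω ≃ₐ[K] Ω := ι⁻¹ * h₁ * ι with hk
  have hkS : k S = S := by
    rw [hk, AlgEquiv.mul_apply, AlgEquiv.mul_apply, hι, map_neg, hh, map_neg, hinv, neg_neg]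
  obtain ⟨a2, t2⟩ := hact k hkS
  have a3 : h₁ (ι (B θ)) = sg14 E θ (y (k.restrictScalars L)) * ι (B θ) := by
    have h1 : h₁ (ι (B θ)) = ι (k (B θ)) := by
      rw [hk, AlgEquiv.mul_apply, AlgEquiv.mul_apply]
      exact (ι.apply_symm_apply _).symm
    rw [h1, a2, map_mul]
    rcases sg_or14 hW h2 θ t2 with h3 | h3 <;> rw [h3] <;> simp
  have hχ2 : χ * χ = 1 := sg_self14 hW h2 θ t1
  have hχχ : sg14 E θ (y (k.restrictScalars L)) = χ := by
    have h1 := hN h₁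
    rw [map_mul, a1, a3] at h1
    have h3 : χ * sg14 E θ (y (k.restrictScalars L)) = 1 := by
      apply mul_right_cancel₀ (mul_ne_zero hBθ hιB)
      linear_combination h1
    linear_combination χ * h3 - sg14 E θ (y (k.restrictScalars L)) * hχ2
  rw [hχχ] at a3
  -- a nonzero element
  obtain ⟨ε, hε, hε0⟩ : ∃ ε : K, (ε = 1 ∨ ε = -1) ∧ B θ + algebraMap K Ω ε * ι (B θ) ≠ 0 := by
    by_cases h0 : B θ + ι (B θ) = 0
    · refine ⟨-1, Or.inr rfl, fun h1 => ?_⟩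
      have h3 : 2 * B θ = 0 := by
        rw [map_neg, map_one] at h1
        linear_combination h0 + h1
      rcases mul_eq_zero.mp h3 with h4 | h4
      · exact h2 h4
      · exact hBθ h4
    · exact ⟨1, Or.inl rfl, by rwa [map_one, one_mul]⟩
  set e := B θ + algebraMap K Ω ε * ι (B θ) with he
  have he2 : e ^ 2 = (B θ ^ 2 + ι (B θ) ^ 2) + 2 * (algebraMap K Ω ε * (B θ * ι (B θ))) := by
    have h1 : algebraMap K Ω ε * algebraMap K Ω ε = 1 := by
      rcases hε with h3 | h3 <;> rw [h3] <;> simp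
    rw [he]
    linear_combination (ι (B θ) ^ 2) * h1
  obtain ⟨n, hn⟩ := exists_of_fixed (F := K) (x := e ^ 2) (by
    intro σ
    rw [he2, map_add, q3 σ, map_mul, map_mul, hN σ, σ.commutes, map_ofNat])
  have hn0 : n ≠ 0 := by
    rintro rfl
    rw [map_zero] at hn
    exact hε0 (pow_eq_zero_iff two_ne_zero |>.mp hn.symm)
  have hhe : h₁ e = e := by
    rcases Int.even_or_odd (lg w n) with hev | hodd
    · obtain ⟨r, hr⟩ := exists_rational_sqrt w h.loc.unif h.loc.sqrt hn0 hev (d := e) hn.symm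
      rw [← hr, h₁.commutes]
    · have h1 := sqrt_odd h.loc.unif h.loc.sqrt h.loc.S_sq hn0 hodd (d := e) hn.symm h₁
      rw [hh] at h1
      exact mul_right_cancel₀ h.loc.S_ne h1
  have hχe : h₁ e = χ * e := by
    rw [he, map_add, map_mul, h₁.commutes, a1, a3]
    ring
  rw [hhe] at hχe
  exact (mul_right_cancel₀ hε0 (by rw [one_mul]; exact hχe)).symm

/-- **The formula.** For a point `β` of a fibre of `g` over a root of `D` which does not belong to
the divisor `Z` of `z = y - ι y`: `β` belongs to the divisor of `z' = γ y - y` if and only if `γ`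
moves the square roots of the product of the `β - c`, `c ∈ Z`. -/
theorem KeyData.key14 (h : KeyData w g D α S γ γK τ) (h2F : (2 : F) ≠ 0)
    (hW : IsTwist Ω W g E) (hE0 : E ≠ 0) (hEτ : E.map τ = E) (hg : g.Monic)
    (hdeg : g.natDegree = 3) (hd : derivative g ≠ 0)
    {β₁ β₂ β₃ : F} (h12 : β₁ ≠ β₂) (h13 : β₁ ≠ β₃) (h23 : β₂ ≠ β₃)
    (hfac : g - C α = (X - C β₁) * (X - C β₂) * (X - C β₃))
    (hs : s ^ 2 = algebraMap F[X] Ω D) (hγs : γ s = s) {ι₀ : Ω ≃ₐ[L] Ω} (hι₀ : ι₀ s = -s)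
    (hconj : ∀ σ : Ω ≃ₐ[L] Ω, ∃ σ' : Ω ≃ₐ[L] Ω, ∀ x, γ (σ' x) = σ (γ x))
    (hr₀ : Rel2 W s γ ι₀ y z z' A A') (hloc : IsLocallyConstant y)
    (hb : IsDesc W g E z Z b) (hb' : IsDesc W g E z' Z' b') (hfix : ∀ β ∈ Z, τ β = β)
    {β : F} (hβ : g.eval β = α) (hβZ : β ∉ Z) :
    β ∈ Z' ↔ Moves τ (∏ c ∈ Z, (β - c)) := by
  have h2 := h.loc.two
  have hev : ∀ β, g.eval β - α = (β - β₁) * (β - β₂) * (β - β₃) := by
    intro β
    have := congrArg (fun p => p.eval β) hfac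
    simpa using this
  have e1 : g.eval β₁ = α := by
    have := hev β₁
    rw [sub_self, zero_mul, zero_mul] at this
    exact sub_eq_zero.mp this
  have e2 : g.eval β₂ = α := by
    have := hev β₂
    rw [sub_self, mul_zero, zero_mul] at this
    exact sub_eq_zero.mp this
  have e3 : g.eval β₃ = α := by
    have := hev β₃
    rw [sub_self, mul_zero] at this
    exact sub_eq_zero.mp this
  obtain ⟨x₁, x₂, x₃, ⟨m1, m2, m3⟩, ⟨n1, n2, n3⟩, hall⟩ :=
    h.labels hg hdeg hd L h12 h13 h23 hfac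
  have hγθ : ∀ θ ∈ RootSet (Ω := Ω) g, γ θ = θ := by
    intro θ hθ
    rcases hall θ hθ with rfl | rfl | rfl
    · rw [h.γ_K, h.fix_near e1 m1 (cg_of_near n1)]
    · rw [h.γ_K, h.fix_near e2 m2 (cg_of_near n2)]
    · rw [h.γ_K, h.fix_near e3 m3 (cg_of_near n3)]
  obtain ⟨x, hx, hn⟩ := h.near β hβ
  obtain ⟨σ₀, hσ₀⟩ := exists_moves w h.loc.unif h.loc.S_sq
  obtain ⟨ι, hι1, hι2⟩ := h.exists_conj σ₀
  have hιS := hι2 hσ₀
  have hs0 : s ≠ 0 := by
    rintro rfl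
    rw [zero_pow two_ne_zero] at hs
    exact algebraMap_ne_zero_Om (F := F) L (Ω := Ω) h.loc.ne hs.symm
  have hιs : (ι.restrictScalars L) s = -s := (h.act_s L hs ι).2 hιS
  obtain ⟨A₂, hr⟩ := hr₀.change_iota hι₀ hιs
  have hadp : Adp14 g E D s γ (ι.restrictScalars L) (σ₀.restrictScalars L) τ :=
    ⟨hs, hs0, hιs, hγs, fun θ hθ => h.loc.fix_root hθ ι, hγθ, hι1, h.γ_poly, h.g_fix, hEτ, hconj⟩
  obtain ⟨B, hB0, hB⟩ := exists_desc14 (E := E) h2 hW hg hdeg hd hs hs0 hιs hr.two_y hr.mul_y hloc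
  have hmain := hadp.gamma_b hW h2 hg hdeg hd hE0 hr hb hb' hB0 hB hfix hx
  have hCmap := hadp.C_map hW h2 hg hdeg hd hE0 hr hb hB0 hB hx
  set θ := algebraMap K Ω x with hθ
  -- the descent function of `z` at `θ` is in `K`
  have hoth : ∀ β' : F, β' ≠ β → w (x - algebraMap F[X] K (C β')) = 1 := by
    intro β' hne
    exact ((cg_of_near hn).sub (IsOver.cg_const (w := w) β')).one h.isOver
      (sub_ne_zero.mpr (Ne.symm hne))
  obtain ⟨hne, hlg⟩ := lg_root_prod w hn hoth Z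
  rw [if_neg hβZ] at hlg
  have hprod0 : (∏ β' ∈ Z, (x - algebraMap F[X] K (C β'))) ≠ 0 :=
    Finset.prod_ne_zero_iff.mpr fun β' _ => hne β'
  have hsq : b θ ^ 2 = algebraMap K Ω (∏ β' ∈ Z, (x - algebraMap F[X] K (C β'))) := by
    rw [hb.sq _ hx, map_prod]
    apply Finset.prod_congr rfl
    intro β' _
    rw [map_sub, ← IsScalarTower.algebraMap_apply]
  obtain ⟨m, hm⟩ := exists_rational_sqrt w h.loc.unif h.loc.sqrt hprod0 (by rw [hlg]; decide) hsq
  have hm2 : m ^ 2 = ∏ β' ∈ Z, (x - algebraMap F[X] K (C β')) := by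
    apply (algebraMap K Ω).injective
    rw [map_pow, hm, hsq]
  have hbK : ∀ σ : Ω ≃ₐ[K] Ω, σ (b θ) = b θ := fun σ => by rw [← hm, σ.commutes]
  -- the product `B ι B` is in `K`
  have hN : ∀ σ : Ω ≃ₐ[K] Ω, σ (B θ * ι (B θ)) = B θ * ι (B θ) := by
    intro σ
    have h1 : B θ * ι (B θ) = sg14 E θ A₂ *
        CC14 E (ι.restrictScalars L : Ω ≃ₐ[L] Ω) A₂ b B θ * b θ := by
      have h3 := sg_self14 hW h2 θ hr.two_A
      unfold CC14
      rw [mul_assoc, div_mul_cancel₀ _ (hb.ne_zero hx)]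
      change B θ * ι (B θ) = sg14 E θ A₂ * (sg14 E θ A₂ * B θ * ι (B θ))
      linear_combination (-(B θ * ι (B θ))) * h3
    have h3 : σ (CC14 E (ι.restrictScalars L : Ω ≃ₐ[L] Ω) A₂ b B θ) =
        CC14 E (ι.restrictScalars L : Ω ≃ₐ[L] Ω) A₂ b B θ := by
      have h4 := hCmap (σ.restrictScalars L)
      have h5 : (σ.restrictScalars L) θ = θ := h.loc.fix_root hx σ
      rw [h5] at h4
      exact h4
    have h4 : σ (sg14 E θ A₂) = sg14 E θ A₂ := map_sg14 hW h2 θ hr.two_A (σ.restrictScalars L)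
    rw [h1, map_mul, map_mul, h3, hbK, h4]
  have hh₁ : (ι⁻¹ * σ₀) S = S := by
    have hinv : ι⁻¹ S = -S := by
      apply ι.injective
      rw [← AlgEquiv.mul_apply, mul_inv_cancel, map_neg, hιS, neg_neg]
      rfl
    rw [AlgEquiv.mul_apply, hσ₀, map_neg, hinv, neg_neg]
  have hχ := h.fix_B14 (L := L) hW hs hr.two_y hB0 hB hιS hx hN hh₁
  have hres : ((ι⁻¹ * σ₀ : Ω ≃ₐ[K] Ω).restrictScalars L : Ω ≃ₐ[L] Ω) =
      (ι.restrictScalars L)⁻¹ * σ₀.restrictScalars L := by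
    ext x
    rfl
  rw [hres] at hχ
  have hsgn := h.sign_near14 hb' hσ₀ hx hn
  rw [hχ, one_mul, hsgn, ← hm] at hmain
  apply h.final h2F _ _ hmain
  · apply Finset.prod_ne_zero_iff.mpr
    intro β' hβ'
    apply sub_ne_zero.mpr
    rintro rfl
    exact hβZ hβ'
  · rw [hm2]
    apply Cg.prod h.isOver
    intro β' _
    exact (cg_of_near hn).sub (IsOver.cg_const (w := w) β')

end Tower

end Pool.Agent.Lib.MP_89bcae_ag
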