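import Mathlib
import Pool.Agent.Lib.MP_89bcae_ag.DinfE14
import Pool.Agent.Lib.MP_89bcae_ag.PlaceD8

/-!
# The formula for the divisor of `γ y - y`
-/

open Polynomial WeierstrassCurve WeierstrassCurve.Affine IsDedekindDomain

open scoped Classical

namespace Pool.Agent.Lib.MP_89bcae_ag

set_option linter.unusedSectionVars false

section Comp

variable {R F L Ω : Type*} [CommRing R] [Field F] [IsAlgClosed F] [Field L] [Field Ω]
  [Algebra F[X] L] [IsFractionRing F[X] L] [Algebra L Ω] [Algebra F[X] Ω] [IsScalarTower F[X] L Ω]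
  [Algebra R L] [Algebra R Ω] [IsScalarTower R L Ω] {g D : F[X]}
  [IsGalois L Ω] [IsSepClosed Ω]
  {K : Type*} [Field K] [Algebra L K] [Algebra K Ω] [IsScalarTower L K Ω] [Algebra F[X] K]
  [IsScalarTower F[X] L K] [IsScalarTower F[X] K Ω] [IsGalois K Ω]
  {w : Valuation K (WithZero (Multiplicative ℤ))} {α : F} {S : Ω} {γ : Ω ≃ₐ[R] Ω}
  {γK : K ≃+* K} {τ : F →+* F}

/-- The lift `γ` may be multiplied by an element of the local Galois group. -/
lemma KeyData.comp14 (h : KeyData w g D α S γ γK τ) (σ : Ω ≃ₐ[K] Ω) {γ₂ : Ω ≃ₐ[R] Ω}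
    (h2 : ∀ x, γ₂ x = γ (σ x)) : KeyData w g D α S γ₂ γK τ where
  isOver := h.isOver
  loc := h.loc
  near := h.near
  γ_poly p := by
    rw [h2, IsScalarTower.algebraMap_apply F[X] K Ω, σ.commutes,
      ← IsScalarTower.algebraMap_apply F[X] K Ω, h.γ_poly]
  γ_K x := by rw [h2, σ.commutes, h.γ_K]
  γ_val := h.γ_val
  g_fix := h.g_fix
  D_fix := h.D_fix
  α_fix := h.α_fix
  β_fix := h.β_fix

end Comp

section Tower

variable {k F L Ω : Type*} [Field k] [Field F] [Algebra k F] [Algebra.IsAlgebraic k F]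
  [IsAlgClosed F] [Field L] [Field Ω]
  [Algebra F[X] L] [IsFractionRing F[X] L] [Algebra L Ω] [Algebra F[X] Ω] [IsScalarTower F[X] L Ω]
  [Algebra k[X] L] [Algebra k[X] Ω] [IsScalarTower k[X] L Ω]
  [IsGalois L Ω] [IsSepClosed Ω] [IsSepClosure L Ω]

variable (hk : ∀ p : k[X], algebraMap k[X] L p = algebraMap F[X] L (p.map (algebraMap k F)))
variable {W : Affine k[X]} {g D E : k[X]}

/-- **The formula.** Let `s² = D`, `y` a cocycle of the stabiliser of `s`, `z` and `z'` cocycles of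
the whole group with divisors `Z` and `Z'`, such that the classes of `y - ι y` and `z` (`ι s = -s`)
and those of `γ y - y` and `z'` (`γ s = s`, and `γ` fixes the roots of `D ∘ g`) agree on the
stabiliser of `s`. Then, for a root `β` of `D ∘ g` not in `Z`, `β` is in `Z'` if and only if `γ`
moves the square roots of the product of the `β - c`, `c ∈ Z`. -/
theorem formula14 (hG : Good g D) (hsep : (D.comp g).Separable)
    (hW : IsTwist Ω W (g.map (algebraMap k F)) (E.map (algebraMap k F))) (hE : E ≠ 0)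
    {s : Ω} (hs : s ^ 2 = algebraMap F[X] Ω (D.map (algebraMap k F)))
    {γ : Ω ≃ₐ[k[X]] Ω} (hγs : γ s = s)
    (hγ : ∀ β, (D.map (algebraMap k F)).eval ((g.map (algebraMap k F)).eval β) = 0 →
      resF hk γ β = β)
    {ι : Ω ≃ₐ[L] Ω} (hι : ι s = -s)
    {y z z' : (Ω ≃ₐ[L] Ω) → (W.baseChange Ω).Point} {A A' : (W.baseChange Ω).Point}
    (hr : Rel2 W s γ ι y z z' A A') (hloc : IsLocallyConstant y)
    {Z Z' : Finset F} {b b' : Ω → Ω}
    (hb : IsDesc W (g.map (algebraMap k F)) (E.map (algebraMap k F)) z Z b)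
    (hb' : IsDesc W (g.map (algebraMap k F)) (E.map (algebraMap k F)) z' Z' b')
    (hZ : ∀ c ∈ Z, (D.map (algebraMap k F)).eval ((g.map (algebraMap k F)).eval c) = 0)
    {β : F} (hβ : (D.map (algebraMap k F)).eval ((g.map (algebraMap k F)).eval β) = 0)
    (hβZ : β ∉ Z) :
    β ∈ Z' ↔ Moves ((resF hk γ : F ≃ₐ[k] F) : F →+* F) (∏ c ∈ Z, (β - c)) := by
  have hF := hG.map F
  have h2Ω : (2 : Ω) ≠ 0 := two_ne_zero_Om (F := F) L Ω hF.two
  set gF := g.map (algebraMap k F) with hgF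
  set DF := D.map (algebraMap k F) with hDF
  set EF := E.map (algebraMap k F) with hEF
  have hEF0 : EF ≠ 0 := by
    rw [hEF, Polynomial.map_ne_zero_iff (algebraMap k F).injective]
    exact hE
  have hroot : ∀ β, DF.eval (gF.eval β) = 0 →
      (derivative DF).eval (gF.eval β) ≠ 0 ∧ (derivative gF).eval β ≠ 0 := by
    intro β hβ
    have h1 : ((D.comp g).map (algebraMap k F)).Separable := hsep.map
    rw [Polynomial.map_comp] at h1
    have h2 := h1.eval₂_derivative_ne_zero (RingHom.id F) (x := β) (by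
      rw [eval₂_id, eval_comp]; exact hβ)
    rw [eval₂_id, derivative_comp, eval_mul, eval_comp] at h2
    exact ⟨right_ne_zero_of_mul h2, left_ne_zero_of_mul h2⟩
  set τ := resF hk γ with hτdef
  have hfix : ∀ p : k[X], (p.map (algebraMap k F)).map (τ : F →+* F) = p.map (algebraMap k F) :=
    fun p => map_fix τ p
  obtain ⟨α, hα⟩ : ∃ α, gF.eval β = α := ⟨_, rfl⟩
  have hDα0 : DF.eval α = 0 := by rw [← hα]; exact hβ
  obtain ⟨β₁, β₂, β₃, h12, h13, h23, hfac⟩ := exists_three_of_fibre hF.monic hF.deg (α := α)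
    (fun β' hβ' => (hroot β' (by rw [hβ']; exact hDα0)).2)
  have hDα : (derivative DF).eval α ≠ 0 := by
    have := (hroot β hβ).1
    rwa [hα] at this
  have hτβ : ∀ β', gF.eval β' = α → τ β' = β' := fun β' hβ' => hγ β' (by rw [hβ']; exact hDα0)
  have hτα : τ α = α := by
    have := eval₂_hom (p := gF) (τ : F →+* F) β
    change eval₂ (τ : F →+* F) (τ β) gF = τ (gF.eval β) at this
    rw [← hα, ← this, ← eval_map, hfix g, hτβ β hα]
  obtain ⟨φ, hφ, hφv⟩ := exists_adic_aut L (τ : F ≃+* F) α hτα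
  have hj : Nonempty (Ω →ₐ[L] SeparableClosure ((placeAt α).adicCompletion L)) :=
    ⟨IsSepClosed.lift⟩
  obtain ⟨j⟩ := hj
  obtain ⟨γ', hγp, U, hU, hγ'⟩ := exists_local_lift hk j τ φ hφ
  have hover : IsOver (K := (placeAt α).adicCompletion L) Valued.v α :=
    ⟨val_X_sub_C L α, fun p hp => val_eq_one L α hp⟩
  have hnear : ∀ β, gF.eval β = α → ∃ θv ∈ RootSet (Ω := (placeAt α).adicCompletion L) gF,
      Valued.v (θv - algebraMap F[X] _ (C β)) = WithZero.exp (-1 : ℤ) := by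
    intro β hβ
    have hβ' : (derivative gF).eval β ≠ 0 := (hroot β (by rw [hβ]; exact hDα0)).2
    have := exists_local_root L hF.monic hF.deg hβ'
    rw [hβ] at this
    obtain ⟨θv, h1, h2, -⟩ := this
    exact ⟨θv, h1, h2⟩
  obtain ⟨S, γK, hK⟩ := keyData_of (Ω := Ω) (wv := Valued.v) h2Ω hF.monic hF.deg hF.der hF.ne hDα0
    hDα h12 h13 h23 hfac hover (fun x hx => exists_sqrt_of_unit L hF.two α x hx) hnear j φ hφv
    hγp hU hγ' (hfix g) (hfix D) hτα hτβ
  have i1 : IsScalarTower F[X] (KF ((placeAt α).adicCompletion L) j) Ω :=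
    IsScalarTower.of_algebraMap_eq fun _ => rfl
  -- comparison of the two lifts
  have hres : resF hk γ' = τ := by
    apply resF_unique
    intro a
    rw [hγp, map_C]
    rfl
  obtain ⟨σ₁, hσ₁⟩ := exists_inner hk (γ := γ⁻¹ * γ') (by
    rw [resF_mul, resF_inv, hres, ← hτdef, inv_mul_cancel])
  have hσ₁' : ∀ x, γ' x = γ (σ₁ x) := by
    intro x
    rw [← hσ₁, AlgEquiv.mul_apply]
    exact (γ.apply_symm_apply _).symm
  -- a local element acting on `s` as `σ₁`
  obtain ⟨σK, hσK⟩ : ∃ σK : Ω ≃ₐ[KF ((placeAt α).adicCompletion L) j] Ω, σK s = σ₁ s := by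
    rcases map_sqrt14 hs σ₁ with h1 | h1
    · exact ⟨1, by rw [h1]; rfl⟩
    · obtain ⟨σ, hσ⟩ := exists_moves _ hK.loc.unif hK.loc.S_sq
      exact ⟨σ, by rw [h1]; exact (hK.act_s L hs σ).2 hσ⟩
  set σ₂ : Ω ≃ₐ[L] Ω := σ₁ * σK.restrictScalars L with hσ₂
  have hσ₂s : σ₂ s = s := by
    have h1 : (σK.restrictScalars L : Ω ≃ₐ[L] Ω) s = σ₁ s := hσK
    rw [hσ₂, AlgEquiv.mul_apply, h1]
    rcases map_sqrt14 hs σ₁ with h3 | h3
    · rw [h3, h3]
    · rw [h3, map_neg, h3, neg_neg]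
  set γ₂ : Ω ≃ₐ[k[X]] Ω := γ * σ₂.restrictScalars k[X] with hγ₂
  have hγ₂1 : ∀ x, γ₂ x = γ (σ₂ x) := fun x => rfl
  have hγ₂2 : ∀ x, γ₂ x = γ' (σK x) := fun x => by
    rw [hσ₁', hγ₂1, hσ₂, AlgEquiv.mul_apply]
    rfl
  have hK₂ := hK.comp14 σK hγ₂2
  obtain ⟨A₂, hr₂⟩ := hr.change_gamma hγs hσ₂s hγ₂1
  have hγ₂s : γ₂ s = s := by rw [hγ₂1, hσ₂s, hγs]
  exact hK₂.key14 hF.two hW hEF0 (hfix E) hF.monic hF.deg hF.der h12 h13 h23 hfac hs hγ₂s hι
    (exists_conj hk γ₂) hr₂ hloc hb hb' (fun c hc => hγ c (hZ c hc)) hα hβZ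

end Tower

end Pool.Agent.Lib.MP_89bcae_ag
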