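import Mathlib
import Pool.Agent.Lib.MP_89bcae_ag.Frob8

/-!
# The Frobenius orbit of a root of `D ∘ g`
-/

open Polynomial IntermediateField

namespace Pool.Agent.Lib.MP_89bcae_ag

set_option linter.unusedSectionVars false

variable {k F : Type*} [Field k] [Fintype k] [Field F] [Algebra k F] [Algebra.IsAlgebraic k F]

/-- The polynomial `D ∘ g` is irreducible, `α` is a root of `D` and `β` one of `g - α`. -/
structure Orb8 (g D : k[X]) (n : ℕ) (α β : F) : Prop where
  monic : g.Monic
  deg : g.natDegree = 3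
  irr : Irreducible (D.comp g)
  degD : D.natDegree = n
  gβ : aeval β g = α
  Dα : aeval α D = 0

namespace Orb8

variable {g D : k[X]} {n : ℕ} {α β : F}

lemma root (h : Orb8 g D n α β) : aeval β (D.comp g) = 0 := by
  rw [aeval_comp, h.gβ, h.Dα]

lemma natDegree_comp (h : Orb8 g D n α β) : (D.comp g).natDegree = 3 * n := by
  rw [Polynomial.natDegree_comp, h.deg, h.degD, mul_comm]

lemma natDegree_minpoly (h : Orb8 g D n α β) : (minpoly k β).natDegree = 3 * n := by
  rw [← minpoly.eq_of_irreducible h.irr h.root, natDegree_mul_leadingCoeff_inv _ h.irr.ne_zero,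
    h.natDegree_comp]

lemma ne_zero (h : Orb8 g D n α β) : D ≠ 0 := by
  rintro rfl
  exact h.irr.ne_zero (zero_comp)

lemma pos (h : Orb8 g D n α β) : 0 < n := by
  have := h.natDegree_comp
  have h1 := h.irr.natDegree_pos
  omega

lemma natDegree_minpoly_alpha (h : Orb8 g D n α β) : (minpoly k α).natDegree = n := by
  have hint : IsIntegral k α := Algebra.IsIntegral.isIntegral α
  apply le_antisymm
  · rw [← h.degD]
    exact natDegree_le_of_dvd (minpoly.dvd k α h.Dα) h.ne_zero
  · have h1 : aeval β ((minpoly k α).comp g) = 0 := by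
      rw [aeval_comp, h.gβ, minpoly.aeval]
    have h2 : (minpoly k α).comp g ≠ 0 := by
      intro h3
      have h4 := congrArg natDegree h3
      rw [Polynomial.natDegree_comp, h.deg, natDegree_zero] at h4
      have := minpoly.natDegree_pos hint
      omega
    have h3 := natDegree_le_of_dvd (minpoly.dvd k β h1) h2
    rw [h.natDegree_minpoly, Polynomial.natDegree_comp, h.deg] at h3
    omega

lemma beta_iff (h : Orb8 g D n α β) (i : ℕ) : (frob8 k F ^ i) β = β ↔ 3 * n ∣ i := by
  rw [frob8_pow_eq_iff, h.natDegree_minpoly]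

lemma alpha_iff (h : Orb8 g D n α β) (i : ℕ) : (frob8 k F ^ i) α = α ↔ n ∣ i := by
  rw [frob8_pow_eq_iff, h.natDegree_minpoly_alpha]

end Orb8

/-- The points of the orbit. -/
noncomputable def e8 (k : Type*) {F : Type*} [Field k] [Fintype k] [Field F] [Algebra k F]
    [Algebra.IsAlgebraic k F] {N : ℕ} (β : F) (u : ZMod N) : F := (frob8 k F ^ u.val) β

lemma frob8_pow_inj {x : F} {N a b : ℕ} (h : ∀ i, (frob8 k F ^ i) x = x ↔ N ∣ i) :
    (frob8 k F ^ a) x = (frob8 k F ^ b) x ↔ a ≡ b [MOD N] := by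
  rcases le_total a b with hle | hle
  · have h1 : (frob8 k F ^ a) x = (frob8 k F ^ b) x ↔ (frob8 k F ^ (b - a)) x = x := by
      constructor
      · intro h1
        apply (frob8 k F ^ a).injective
        rw [← AlgEquiv.mul_apply, ← pow_add, Nat.add_sub_cancel' hle]
        exact h1.symm
      · intro h1
        rw [← Nat.add_sub_cancel' hle, pow_add, AlgEquiv.mul_apply, h1]
    rw [h1, h, Nat.modEq_iff_dvd' hle]
  · have h1 : (frob8 k F ^ a) x = (frob8 k F ^ b) x ↔ (frob8 k F ^ (a - b)) x = x := by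
      constructor
      · intro h1
        apply (frob8 k F ^ b).injective
        rw [← AlgEquiv.mul_apply, ← pow_add, Nat.add_sub_cancel' hle]
        exact h1
      · intro h1
        rw [← Nat.add_sub_cancel' hle, pow_add, AlgEquiv.mul_apply, h1]
    rw [h1, h, Nat.ModEq.comm, Nat.modEq_iff_dvd' hle]

namespace Orb8

variable {g D : k[X]} {n : ℕ} {α β : F}

lemma e_natCast (h : Orb8 g D n α β) (i : ℕ) :
    e8 k β (i : ZMod (3 * n)) = (frob8 k F ^ i) β := by
  have : NeZero (3 * n) := ⟨by have := h.pos; omega⟩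
  rw [e8, ZMod.val_natCast, frob8_pow_mod _ ((h.beta_iff _).mpr dvd_rfl)]

lemma e_add (h : Orb8 g D n α β) (u v : ZMod (3 * n)) :
    e8 k β (u + v) = (frob8 k F ^ v.val) (e8 k β u) := by
  have : NeZero (3 * n) := ⟨by have := h.pos; omega⟩
  have h1 : u + v = ((v.val + u.val : ℕ) : ZMod (3 * n)) := by
    rw [Nat.cast_add, ZMod.natCast_zmod_val, ZMod.natCast_zmod_val, add_comm]
  rw [h1, h.e_natCast, pow_add, AlgEquiv.mul_apply, e8]

lemma e_add_natCast (h : Orb8 g D n α β) (u : ZMod (3 * n)) (i : ℕ) :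
    e8 k β (u + (i : ZMod (3 * n))) = (frob8 k F ^ i) (e8 k β u) := by
  have : NeZero (3 * n) := ⟨by have := h.pos; omega⟩
  have h1 : u + (i : ZMod (3 * n)) = ((i + u.val : ℕ) : ZMod (3 * n)) := by
    rw [Nat.cast_add, ZMod.natCast_zmod_val, add_comm]
  rw [h1, h.e_natCast, pow_add, AlgEquiv.mul_apply, e8]

lemma e_zero : e8 k β (0 : ZMod (3 * n)) = β := by
  rw [e8, ZMod.val_zero, pow_zero, AlgEquiv.one_apply]

lemma e_injective (h : Orb8 g D n α β) :
    Function.Injective (e8 k β : ZMod (3 * n) → F) := by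
  have : NeZero (3 * n) := ⟨by have := h.pos; omega⟩
  intro u v huv
  rw [e8, e8, frob8_pow_inj h.beta_iff] at huv
  apply ZMod.val_injective
  rw [Nat.ModEq, Nat.mod_eq_of_lt (ZMod.val_lt u), Nat.mod_eq_of_lt (ZMod.val_lt v)] at huv
  exact huv

lemma e_surj [IsAlgClosed F] (h : Orb8 g D n α β) {γ : F} (hγ : aeval γ (D.comp g) = 0) :
    ∃ u : ZMod (3 * n), e8 k β u = γ := by
  obtain ⟨i, -, rfl⟩ := exists_frob8_pow h.irr h.root hγ
  exact ⟨i, h.e_natCast i⟩

lemma e_root (h : Orb8 g D n α β) (u : ZMod (3 * n)) : aeval (e8 k β u) (D.comp g) = 0 := by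
  rw [e8, ← AlgEquiv.coe_toAlgHom (frob8 k F ^ _), aeval_algHom_apply, h.root, map_zero]

lemma aeval_frob8 (i : ℕ) (p : k[X]) (x : F) :
    aeval ((frob8 k F ^ i) x) p = (frob8 k F ^ i) (aeval x p) := by
  rw [← AlgEquiv.coe_toAlgHom (frob8 k F ^ _), aeval_algHom_apply]

lemma g_e (h : Orb8 g D n α β) (u : ZMod (3 * n)) :
    aeval (e8 k β u) g = (frob8 k F ^ u.val) α := by
  rw [e8, aeval_frob8, h.gβ]

lemma g_e_eq_iff (h : Orb8 g D n α β) (u v : ZMod (3 * n)) :
    aeval (e8 k β u) g = aeval (e8 k β v) g ↔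
      u - v = 0 ∨ u - v = (n : ℕ) ∨ u - v = (2 * n : ℕ) := by
  have hpos := h.pos
  have : NeZero (3 * n) := ⟨by omega⟩
  have h1 : u = (u - v) + v := by ring
  set w := u - v with hw
  have h2 : aeval (e8 k β u) g = (frob8 k F ^ v.val) (aeval (e8 k β w) g) := by
    rw [h1, h.e_add, aeval_frob8]
  have h3 : aeval (e8 k β v) g = (frob8 k F ^ v.val) α := h.g_e v
  rw [h2, h3, (frob8 k F ^ v.val).injective.eq_iff, h.g_e, h.alpha_iff]
  constructor
  · rintro ⟨c, hc⟩
    have h4 := ZMod.val_lt w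
    rw [hc] at h4
    have h5 : c < 3 := by
      by_contra h6
      have : n * 3 ≤ n * c := Nat.mul_le_mul_left n (by omega)
      omega
    have h6 : w = ((n * c : ℕ) : ZMod (3 * n)) := by
      rw [← hc, ZMod.natCast_zmod_val]
    interval_cases c
    · left; rw [h6, mul_zero, Nat.cast_zero]
    · right; left; rw [h6, mul_one]
    · right; right; rw [h6, mul_comm n 2]
  · rintro (h4 | h4 | h4)
    · rw [h4, ZMod.val_zero]
      exact dvd_zero _
    · rw [h4, ZMod.val_natCast, Nat.mod_eq_of_lt (by omega)]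
    · rw [h4, ZMod.val_natCast, Nat.mod_eq_of_lt (by omega)]
      exact Dvd.intro_left 2 rfl

end Orb8

end Pool.Agent.Lib.MP_89bcae_ag
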