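import Mathlib
import Pool.Agent.Lib.MP_89bcae_ag.Orb8

/-!
# The quadratic symbol of the field with `q ^ N` elements
-/

open Polynomial IntermediateField

namespace Pool.Agent.Lib.MP_89bcae_ag

set_option linter.unusedSectionVars false

variable {k F : Type*} [Field k] [Fintype k] [Field F] [Algebra k F] [Algebra.IsAlgebraic k F]

open scoped Classical in
/-- The symbol of an element of the field with `q ^ N` elements: `0` for the squares. -/
noncomputable def nu8 (k : Type*) {F : Type*} [Fintype k] [Field F] (N : ℕ) (x : F) : ZMod 2 :=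
  if x ^ ((Fintype.card k ^ N - 1) / 2) = 1 then 0 else 1

lemma odd_card8 (h2 : (2 : k) ≠ 0) : Odd (Fintype.card k) := by
  rw [Nat.odd_iff]
  apply FiniteField.odd_card_of_char_ne_two
  intro h3
  apply h2
  have h4 := ringChar.Nat.cast_ringChar (R := k)
  rw [h3] at h4
  exact_mod_cast h4

lemma two_mul_half8 (h2 : (2 : k) ≠ 0) (N : ℕ) :
    2 * ((Fintype.card k ^ N - 1) / 2) + 1 = Fintype.card k ^ N := by
  have h1 : Odd (Fintype.card k ^ N) := (odd_card8 h2).pow
  obtain ⟨m, hm⟩ := h1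
  omega

lemma two_ne_zero8 (F : Type*) [Field F] [Algebra k F] (h2 : (2 : k) ≠ 0) : (2 : F) ≠ 0 := by
  intro h
  apply h2
  apply (algebraMap k F).injective
  rw [map_ofNat, h, map_zero]

lemma pow_half_sq8 (h2 : (2 : k) ≠ 0) {N : ℕ} {x : F} (hx : (frob8 k F ^ N) x = x) (h0 : x ≠ 0) :
    (x ^ ((Fintype.card k ^ N - 1) / 2)) ^ 2 = 1 := by
  rw [← pow_mul]
  have h1 := two_mul_half8 h2 N
  rw [frob8_pow_apply, ← h1, pow_succ] at hx
  have h3 := mul_right_cancel₀ h0 (hx.trans (one_mul x).symm)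
  rw [mul_comm]
  exact h3

lemma sq_eq_one_iff_of_side_8 {x : F} (h : x ^ 2 = 1) : x = 1 ∨ x = -1 := by
  have h1 : (x - 1) * (x + 1) = 0 := by linear_combination h
  rcases mul_eq_zero.mp h1 with h3 | h3
  · exact Or.inl (sub_eq_zero.mp h3)
  · exact Or.inr (eq_neg_of_add_eq_zero_left h3)

lemma pow_half8 (h2 : (2 : k) ≠ 0) {N : ℕ} {x : F} (hx : (frob8 k F ^ N) x = x) (h0 : x ≠ 0) :
    (x ^ ((Fintype.card k ^ N - 1) / 2) = 1 ∧ nu8 k N x = 0) ∨
      (x ^ ((Fintype.card k ^ N - 1) / 2) = -1 ∧ nu8 k N x = 1) := by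
  have h2F := two_ne_zero8 F h2
  rcases sq_eq_one_iff_of_side_8 (pow_half_sq8 h2 hx h0) with h | h
  · exact Or.inl ⟨h, if_pos h⟩
  · refine Or.inr ⟨h, if_neg ?_⟩
    rw [h]
    intro h3
    apply h2F
    have : (2 : F) = 1 - (-1) := by norm_num
    rw [this, h3, sub_self]

lemma nu8_mul (h2 : (2 : k) ≠ 0) {N : ℕ} {x y : F} (hx : (frob8 k F ^ N) x = x) (hx0 : x ≠ 0)
    (hy : (frob8 k F ^ N) y = y) (hy0 : y ≠ 0) : nu8 k N (x * y) = nu8 k N x + nu8 k N y := by
  have hxy : (frob8 k F ^ N) (x * y) = x * y := by rw [map_mul, hx, hy]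
  have h2F := two_ne_zero8 F h2
  have hne : (-1 : F) ≠ 1 := by
    intro h3
    apply h2F
    have : (2 : F) = 1 - (-1) := by norm_num
    rw [this, h3, sub_self]
  rcases pow_half8 h2 hx hx0 with ⟨h1, h1'⟩ | ⟨h1, h1'⟩ <;>
    rcases pow_half8 h2 hy hy0 with ⟨h3, h3'⟩ | ⟨h3, h3'⟩ <;>
    rcases pow_half8 h2 hxy (mul_ne_zero hx0 hy0) with ⟨h4, h4'⟩ | ⟨h4, h4'⟩ <;>
    rw [mul_pow, h1, h3] at h4 <;> rw [h1', h3', h4']
  all_goals first
    | decide
    | (exfalso; simp at h4; first | exact hne h4 | exact hne h4.symm)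

lemma nu8_one (N : ℕ) : nu8 k N (1 : F) = 0 := if_pos (one_pow _)

lemma nu8_frob {N : ℕ} {x : F} (t : ℕ) : nu8 k N ((frob8 k F ^ t) x) = nu8 k N x := by
  unfold nu8
  congr 1
  rw [← map_pow, eq_iff_iff]
  constructor
  · intro h
    apply (frob8 k F ^ t).injective
    rw [h, map_one]
  · intro h
    rw [h, map_one]

lemma nu8_prod (h2 : (2 : k) ≠ 0) {N : ℕ} {ι : Type*} (s : Finset ι) (f : ι → F)
    (hf : ∀ i ∈ s, (frob8 k F ^ N) (f i) = f i) (h0 : ∀ i ∈ s, f i ≠ 0) :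
    nu8 k N (∏ i ∈ s, f i) = ∑ i ∈ s, nu8 k N (f i) := by
  classical
  induction s using Finset.induction_on with
  | empty => rw [Finset.prod_empty, Finset.sum_empty, nu8_one]
  | insert a s ha ih =>
    rw [Finset.prod_insert ha, Finset.sum_insert ha, nu8_mul h2
      (hf a (Finset.mem_insert_self _ _)) (h0 a (Finset.mem_insert_self _ _)), ih]
    · intro i hi; exact hf i (Finset.mem_insert_of_mem hi)
    · intro i hi; exact h0 i (Finset.mem_insert_of_mem hi)
    · rw [map_prod]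
      exact Finset.prod_congr rfl fun i hi => hf i (Finset.mem_insert_of_mem hi)
    · rw [Finset.prod_ne_zero_iff]
      intro i hi; exact h0 i (Finset.mem_insert_of_mem hi)

/-- The elements with trivial symbol are the squares. -/
lemma nu8_eq_zero_iff [IsAlgClosed F] (h2 : (2 : k) ≠ 0) {N : ℕ} {x : F}
    (hx : (frob8 k F ^ N) x = x) (h0 : x ≠ 0) :
    nu8 k N x = 0 ↔ ∃ s : F, (frob8 k F ^ N) s = s ∧ s ^ 2 = x := by
  constructor
  · intro h
    obtain ⟨s, hs⟩ := IsAlgClosed.exists_pow_nat_eq x (n := 2) (by norm_num)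
    refine ⟨s, ?_, hs⟩
    have h1 : x ^ ((Fintype.card k ^ N - 1) / 2) = 1 := by
      rcases pow_half8 h2 hx h0 with ⟨h1, -⟩ | ⟨-, h1⟩
      · exact h1
      · rw [h1] at h
        exact absurd h (by decide)
    rw [frob8_pow_apply, ← two_mul_half8 h2 N, pow_succ, pow_mul, hs, h1, one_mul]
  · rintro ⟨s, hs, rfl⟩
    have hs0 : s ≠ 0 := by
      rintro rfl
      exact h0 (zero_pow two_ne_zero)
    apply if_pos
    rw [← pow_mul, mul_comm, pow_mul]
    exact pow_half_sq8 h2 hs hs0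

/-- The elements of the field generated by the roots. -/
lemma frob8_adjoin {g D : k[X]} {n : ℕ} {α β : F} [IsAlgClosed F] (h : Orb8 g D n α β) {s : F}
    (hs : s ∈ adjoin k {β : F | aeval β (D.comp g) = 0}) : (frob8 k F ^ (3 * n)) s = s := by
  have h1 : adjoin k {β : F | aeval β (D.comp g) = 0} ≤
      IntermediateField.fixedField (Subgroup.zpowers (frob8 k F ^ (3 * n))) := by
    rw [adjoin_le_iff]
    intro b hb
    rw [SetLike.mem_coe, IntermediateField.mem_fixedField_iff]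
    intro τ hτ
    obtain ⟨m, rfl⟩ := Subgroup.mem_zpowers_iff.mp hτ
    obtain ⟨u, rfl⟩ := h.e_surj hb
    have h5 : frob8 k F ^ (3 * n) ∈ MulAction.stabilizer (F ≃ₐ[k] F) (e8 k β u) := by
      change (frob8 k F ^ (3 * n)) (e8 k β u) = e8 k β u
      rw [e8, ← AlgEquiv.mul_apply, ← pow_add, add_comm, pow_add, AlgEquiv.mul_apply,
        (h.beta_iff _).mpr dvd_rfl]
    exact (MulAction.stabilizer (F ≃ₐ[k] F) _).zpow_mem h5 m
  exact (IntermediateField.mem_fixedField_iff _ _).mp (h1 hs) _ (Subgroup.mem_zpowers _)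

end Pool.Agent.Lib.MP_89bcae_ag
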