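import Mathlib
import Pool.Agent.Lib.MP_89bcae_ag.Symb8
import Pool.Agent.Lib.MP_89bcae_ag.Mod8
import Pool.Agent.Lib.MP_89bcae_ag.DefsGeom8

/-!
# The criterion for twists by irreducible polynomials of degree a power of three
-/

open Polynomial IntermediateField

namespace Pool.Agent.Lib.MP_89bcae_ag

set_option linter.unusedSectionVars false

variable {k F : Type*} [Field k] [Fintype k] [Field F] [Algebra k F] [Algebra.IsAlgebraic k F]
  [IsAlgClosed F]

section Fix

open scoped Classical in
/-- The elements of `F` fixed by the power `q ^ i`. -/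
noncomputable def fix8 (k F : Type*) [Fintype k] [Field F] (i : ℕ) : Finset F :=
  (X ^ (Fintype.card k ^ i) - X : F[X]).roots.toFinset

lemma exists_charP8 (k F : Type*) [Field k] [Fintype k] [Field F] [Algebra k F] :
    ∃ p r : ℕ, p.Prime ∧ 0 < r ∧ CharP F p ∧ Fintype.card k = p ^ r := by
  obtain ⟨p, hp⟩ := CharP.exists k
  obtain ⟨r, hp', hr⟩ := FiniteField.card k p
  exact ⟨p, r, hp', r.pos, charP_of_injective_algebraMap (algebraMap k F).injective p, hr⟩

lemma one_lt_card8 (k : Type*) [Field k] [Fintype k] : 1 < Fintype.card k := Fintype.one_lt_card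

lemma pow_sub_eq_prod8 (k : Type*) {F : Type*} [Field k] [Fintype k] [Field F] [Algebra k F]
    [IsAlgClosed F] {i : ℕ} (hi : 0 < i) (x : F) :
    x ^ (Fintype.card k ^ i) - x = ∏ c ∈ fix8 k F i, (x - c) := by
  classical
  obtain ⟨p, r, hp, hr, hF, hcard⟩ := exists_charP8 k F
  have : Fact p.Prime := ⟨hp⟩
  have hdvd : p ∣ Fintype.card k ^ i := by
    rw [hcard, ← pow_mul]
    exact dvd_pow_self p (by positivity)
  have hsep : (X ^ (Fintype.card k ^ i) - X : F[X]).Separable := galois_poly_separable p _ hdvd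
  have h1 : 1 < Fintype.card k ^ i := Nat.one_lt_pow hi.ne' (one_lt_card8 k)
  have hmonic : (X ^ (Fintype.card k ^ i) - X : F[X]).Monic := by
    apply monic_X_pow_sub
    rw [degree_X]
    exact_mod_cast h1
  have h2 : (X ^ (Fintype.card k ^ i) - X : F[X]) = ∏ c ∈ fix8 k F i, (X - C c) := by
    have h3 := (IsAlgClosed.splits (X ^ (Fintype.card k ^ i) - X : F[X])).eq_prod_roots
    rw [hmonic.leadingCoeff, C_1, one_mul] at h3
    conv_lhs => rw [h3]
    change _ = ((fix8 k F i).val.map fun c => (X - C c : F[X])).prod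
    rw [fix8, Multiset.toFinset_val, Multiset.dedup_eq_self.mpr (nodup_roots hsep)]
  have h3 := congrArg (eval x) h2
  rw [eval_sub, eval_pow, eval_X, eval_prod] at h3
  rw [h3]
  exact Finset.prod_congr rfl fun c _ => by rw [eval_sub, eval_X, eval_C]

lemma mem_fix8 {i : ℕ} (hi : 0 < i) {x : F} : x ∈ fix8 k F i ↔ (frob8 k F ^ i) x = x := by
  classical
  have h1 : 1 < Fintype.card k ^ i := Nat.one_lt_pow hi.ne' (one_lt_card8 k)
  have hmonic : (X ^ (Fintype.card k ^ i) - X : F[X]).Monic := by
    apply monic_X_pow_sub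
    rw [degree_X]
    exact_mod_cast h1
  rw [fix8, Multiset.mem_toFinset, mem_roots hmonic.ne_zero, IsRoot.def, eval_sub, eval_pow,
    eval_X, sub_eq_zero, frob8_pow_apply]

end Fix

namespace Orb8

variable {g D : k[X]} {n : ℕ} {α β : F}

lemma n_ne (h : Orb8 g D n α β) : ((n : ℕ) : ZMod (3 * n)) ≠ 0 := n_ne_zero8 h.pos

lemma two_n_ne (h : Orb8 g D n α β) : ((2 * n : ℕ) : ZMod (3 * n)) ≠ 0 := by
  have := h.pos
  rw [Ne, ZMod.natCast_eq_zero_iff]
  intro h1
  have := Nat.le_of_dvd (by omega) h1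
  omega

lemma two_n_ne_n (h : Orb8 g D n α β) :
    ((2 * n : ℕ) : ZMod (3 * n)) ≠ (n : ℕ) := by
  have := h.pos
  intro h1
  rw [ZMod.natCast_eq_natCast_iff, Nat.ModEq, Nat.mod_eq_of_lt (by omega),
    Nat.mod_eq_of_lt (by omega)] at h1
  omega

/-- The fibre through a point of the orbit. -/
lemma sub_eq_prod (h : Orb8 g D n α β) (u : ZMod (3 * n)) (x : F) :
    aeval x g - aeval (e8 k β u) g = (x - e8 k β u) * (x - e8 k β (u + (n : ZMod (3 * n)))) *
      (x - e8 k β (u + ((2 * n : ℕ) : ZMod (3 * n)))) := by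
  classical
  set a := aeval (e8 k β u) g with ha
  set gF := g.map (algebraMap k F) with hgF
  have hmon : (gF - C a).Monic := by
    apply Monic.sub_of_left (h.monic.map _)
    rw [degree_eq_natDegree (h.monic.map (algebraMap k F)).ne_zero, h.monic.natDegree_map, h.deg]
    exact lt_of_le_of_lt degree_C_le (by norm_num)
  have hdeg : (gF - C a).natDegree = 3 := by
    rw [natDegree_sub_C, h.monic.natDegree_map, h.deg]
  have hroot : ∀ v : ZMod (3 * n), aeval (e8 k β v) g = a → e8 k β v ∈ (gF - C a).roots := by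
    intro v hv
    rw [mem_roots hmon.ne_zero, IsRoot.def, eval_sub, eval_C, hgF, eval_map_algebraMap, hv,
      sub_self]
  let S : Finset F := {e8 k β u, e8 k β (u + (n : ZMod (3 * n))), e8 k β (u + ((2 * n : ℕ) : ZMod (3 * n)))}
  have hd1 : e8 k β u ≠ e8 k β (u + (n : ZMod (3 * n))) := fun h1 =>
    h.n_ne (by simpa using (h.e_injective h1).symm)
  have hd2 : e8 k β u ≠ e8 k β (u + ((2 * n : ℕ) : ZMod (3 * n))) := fun h1 =>
    h.two_n_ne (by simpa using (h.e_injective h1).symm)
  have hd3 : e8 k β (u + (n : ZMod (3 * n))) ≠ e8 k β (u + ((2 * n : ℕ) : ZMod (3 * n))) := fun h1 =>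
    h.two_n_ne_n (add_left_cancel (h.e_injective h1)).symm
  have hn1 : e8 k β u ∉ ({e8 k β (u + (n : ZMod (3 * n))),
      e8 k β (u + ((2 * n : ℕ) : ZMod (3 * n)))} : Finset F) := by
    rw [Finset.mem_insert, Finset.mem_singleton]
    rintro (h1 | h1)
    exacts [hd1 h1, hd2 h1]
  have hn2 : e8 k β (u + (n : ZMod (3 * n))) ∉
      ({e8 k β (u + ((2 * n : ℕ) : ZMod (3 * n)))} : Finset F) := by
    rw [Finset.mem_singleton]
    exact hd3
  have hS : S.card = 3 := by
    rw [Finset.card_insert_of_notMem hn1, Finset.card_insert_of_notMem hn2,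
      Finset.card_singleton]
  have hSsub : S.val ≤ (gF - C a).roots := by
    rw [Finset.val_le_iff_val_subset]
    intro y hy
    have hy' : y ∈ S := hy
    rw [Finset.mem_insert, Finset.mem_insert, Finset.mem_singleton] at hy'
    rcases hy' with rfl | rfl | rfl
    · exact hroot _ rfl
    · apply hroot
      rw [ha, h.g_e_eq_iff]
      right; left
      ring
    · apply hroot
      rw [ha, h.g_e_eq_iff]
      right; right
      ring
  have hcard : Multiset.card (gF - C a).roots ≤ 3 := by
    rw [← hdeg]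
    exact card_roots' _
  have heq : S.val = (gF - C a).roots := by
    apply Multiset.eq_of_le_of_card_le hSsub
    rw [Finset.card_val, hS]
    exact hcard
  have hprod := (IsAlgClosed.splits (gF - C a)).eq_prod_roots
  rw [hmon.leadingCoeff, C_1, one_mul, ← heq] at hprod
  have h3 := congrArg (eval x) hprod
  rw [eval_sub, eval_C, hgF, eval_map_algebraMap] at h3
  rw [h3]
  change eval x (∏ c ∈ S, (X - C c)) = _
  rw [eval_prod, Finset.prod_insert hn1, Finset.prod_insert hn2, Finset.prod_singleton]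
  simp only [eval_sub, eval_X, eval_C]
  ring

/-- The basic differences. -/
noncomputable def bb (n : ℕ) (D : k[X]) (α β : F) (u : ZMod (3 * n)) : F :=
  if u = 0 then -aeval α (derivative D) else
    if u = (n : ZMod (3 * n)) ∨ u = ((2 * n : ℕ) : ZMod (3 * n)) then 1 else e8 k β u - β

lemma frob8_e (h : Orb8 g D n α β) (u : ZMod (3 * n)) :
    (frob8 k F ^ (3 * n)) (e8 k β u) = e8 k β u := by
  rw [e8, ← AlgEquiv.mul_apply, ← pow_add, add_comm, pow_add, AlgEquiv.mul_apply,
    (h.beta_iff _).mpr dvd_rfl]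

lemma frob8_beta (h : Orb8 g D n α β) : (frob8 k F ^ (3 * n)) β = β :=
  (h.beta_iff _).mpr dvd_rfl

lemma frob8_alpha (h : Orb8 g D n α β) : (frob8 k F ^ (3 * n)) α = α :=
  (h.alpha_iff _).mpr (Dvd.intro_left 3 rfl)

lemma frob8_bb (h : Orb8 g D n α β) (u : ZMod (3 * n)) :
    (frob8 k F ^ (3 * n)) (bb n D α β u) = bb n D α β u := by
  unfold bb
  split_ifs
  · rw [map_neg, ← aeval_frob8, h.frob8_alpha]
  · rw [map_one]
  · rw [map_sub, h.frob8_e, h.frob8_beta]

lemma der_ne (h : Orb8 g D n α β) : aeval α (derivative D) ≠ 0 := by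
  have hsep : (D.comp g).Separable := PerfectField.separable_of_irreducible h.irr
  have h2 := hsep.eval₂_derivative_ne_zero (algebraMap k F) (x := β) h.root
  rw [derivative_comp, eval₂_mul] at h2
  have h3 := left_ne_zero_of_mul h2
  have h4 := right_ne_zero_of_mul h2
  first
    | (rw [eval₂_comp] at h4; change aeval (aeval β g) (derivative D) ≠ 0 at h4; rwa [h.gβ] at h4)
    | (rw [eval₂_comp] at h3; change aeval (aeval β g) (derivative D) ≠ 0 at h3; rwa [h.gβ] at h3)

lemma bb_ne (h : Orb8 g D n α β) (u : ZMod (3 * n)) : bb n D α β u ≠ 0 := by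
  unfold bb
  split_ifs with h1 h2
  · exact neg_ne_zero.mpr h.der_ne
  · exact one_ne_zero
  · intro h3
    apply h1
    apply h.e_injective
    rw [e_zero]
    exact sub_eq_zero.mp h3

open scoped Classical in
/-- The products of the statement, in terms of the basic differences. -/
lemma PZ_eq (h : Orb8 g D n α β) {Z : Finset F} (hZ : ∀ γ ∈ Z, aeval γ (D.comp g) = 0)
    [NeZero (3 * n)] (i : ZMod (3 * n)) :
    PZ (g.map (algebraMap k F)) (D.map (algebraMap k F)) Z (e8 k β i) =
      ∏ t ∈ Finset.univ.filter (fun t : ZMod (3 * n) => e8 k β t ∈ Z),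
        (frob8 k F ^ t.val) (bb n D α β (i - t)) := by
  have hev : ∀ x : F, (g.map (algebraMap k F)).eval x = aeval x g := fun x =>
    eval_map_algebraMap g x
  set S : Finset (ZMod (3 * n)) := Finset.univ.filter fun t => e8 k β t ∈ Z with hS
  have hmemS : ∀ t, t ∈ S ↔ e8 k β t ∈ Z := fun t => by
    rw [hS, Finset.mem_filter]
    exact ⟨fun h1 => h1.2, fun h1 => ⟨Finset.mem_univ _, h1⟩⟩
  -- the product over the other fibres
  have h1 : ∏ γ ∈ Z.filter (fun γ => (g.map (algebraMap k F)).eval γ ≠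
      (g.map (algebraMap k F)).eval (e8 k β i)), (e8 k β i - γ) =
      ∏ t ∈ S.filter (fun t => aeval (e8 k β t) g ≠ aeval (e8 k β i) g),
        (frob8 k F ^ t.val) (bb n D α β (i - t)) := by
    symm
    apply Finset.prod_bij (fun t _ => e8 k β t)
    · intro t ht
      rw [Finset.mem_filter, hmemS] at ht
      rw [Finset.mem_filter, hev, hev]
      exact ht
    · intro t _ t' _ htt
      exact h.e_injective htt
    · intro γ hγ
      rw [Finset.mem_filter, hev, hev] at hγ
      obtain ⟨t, rfl⟩ := h.e_surj (hZ γ hγ.1)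
      exact ⟨t, Finset.mem_filter.mpr ⟨(hmemS t).mpr hγ.1, hγ.2⟩, rfl⟩
    · intro t ht
      rw [Finset.mem_filter] at ht
      have h2 := ht.2
      rw [ne_comm, Ne, h.g_e_eq_iff, not_or, not_or] at h2
      rw [bb, if_neg h2.1, if_neg (not_or.mpr h2.2), map_sub, ← h.e_add]
      rw [sub_add_cancel]
      rfl
  -- the product over the fibre
  have h3 : ∏ t ∈ S.filter (fun t => ¬ (aeval (e8 k β t) g ≠ aeval (e8 k β i) g)),
        (frob8 k F ^ t.val) (bb n D α β (i - t)) =
      if e8 k β i ∈ Z then -(derivative (D.map (algebraMap k F))).eval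
        ((g.map (algebraMap k F)).eval (e8 k β i)) else 1 := by
    have h4 : ∀ t ∈ S.filter (fun t => ¬ (aeval (e8 k β t) g ≠ aeval (e8 k β i) g)),
        (frob8 k F ^ t.val) (bb n D α β (i - t)) = if t = i then
          -(derivative (D.map (algebraMap k F))).eval
            ((g.map (algebraMap k F)).eval (e8 k β i)) else 1 := by
      intro t ht
      rw [Finset.mem_filter, not_not, eq_comm, h.g_e_eq_iff] at ht
      by_cases hti : t = i
      · subst hti
        rw [if_pos rfl, bb, sub_self, if_pos rfl, hev, derivative_map, eval_map_algebraMap,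
          h.g_e, map_neg, aeval_frob8]
      · rw [if_neg hti, bb, if_neg (fun h5 => hti (sub_eq_zero.mp h5).symm)]
        rcases ht.2 with h5 | h5
        · exact absurd (sub_eq_zero.mp h5).symm hti
        · rw [if_pos h5, map_one]
    rw [Finset.prod_congr rfl h4, Finset.prod_ite_eq']
    apply if_congr _ rfl rfl
    rw [Finset.mem_filter, hmemS]
    simp
  rw [PZ, h1, ← h3, Finset.prod_filter_mul_prod_filter_not]

end Orb8

end Pool.Agent.Lib.MP_89bcae_ag
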