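import Mathlib
import Pool.Agent.Lib.MP_89bcae_ag.Crit8

/-!
# The criterion for twists by irreducible polynomials of degree a power of three: end
-/

open Polynomial IntermediateField

namespace Pool.Agent.Lib.MP_89bcae_ag

set_option linter.unusedSectionVars false

variable {k F : Type*} [Field k] [Fintype k] [Field F] [Algebra k F] [Algebra.IsAlgebraic k F]
  [IsAlgClosed F]

namespace Orb8

variable {g D : k[X]} {n : ℕ} {α β : F}

open scoped Classical in
/-- The indicator function of a set of roots. -/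
noncomputable def ind8 (n : ℕ) (β : F) (k : Type*) [Field k] [Fintype k] [Algebra k F]
    [Algebra.IsAlgebraic k F] (Z : Finset F) (t : ZMod (3 * n)) : ZMod 2 :=
  if e8 k β t ∈ Z then 1 else 0

open scoped Classical in
lemma ind8_mem (h : Orb8 g D n α β) {Z : Finset F}
    (heven : ∀ a : F, Even (Z.filter fun γ => aeval γ g = a).card)
    (hZ : ∀ γ ∈ Z, aeval γ (D.comp g) = 0) :
    ind8 n β k Z ∈ even8 (3 * n) n := by
  intro i
  set S : Finset (ZMod (3 * n)) := {i, i + (n : ZMod (3 * n)), i + ((2 * n : ℕ) : ZMod (3 * n))}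
    with hS
  have hn1 : i ∉ ({i + (n : ZMod (3 * n)), i + ((2 * n : ℕ) : ZMod (3 * n))} :
      Finset (ZMod (3 * n))) := by
    rw [Finset.mem_insert, Finset.mem_singleton]
    rintro (h1 | h1)
    · exact h.n_ne (by simpa using h1.symm)
    · exact h.two_n_ne (left_eq_add.mp h1)
  have hn2 : i + (n : ZMod (3 * n)) ∉
      ({i + ((2 * n : ℕ) : ZMod (3 * n))} : Finset (ZMod (3 * n))) := by
    rw [Finset.mem_singleton]
    intro h1
    exact h.two_n_ne_n (add_left_cancel h1).symm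
  have hsum : ∑ t ∈ S, ind8 n β k Z t = ind8 n β k Z (i + ((2 * n : ℕ) : ZMod (3 * n))) +
      ind8 n β k Z (i + n) + ind8 n β k Z i := by
    rw [hS, Finset.sum_insert hn1, Finset.sum_insert hn2, Finset.sum_singleton]
    ring
  rw [← hsum]
  have himg : (S.filter fun t => e8 k β t ∈ Z).image (e8 k β) =
      Z.filter fun γ => aeval γ g = aeval (e8 k β i) g := by
    ext γ
    rw [Finset.mem_image, Finset.mem_filter]
    constructor
    · rintro ⟨t, ht, rfl⟩
      rw [Finset.mem_filter] at ht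
      refine ⟨ht.2, ?_⟩
      rw [h.g_e_eq_iff]
      have h1 := ht.1
      rw [hS, Finset.mem_insert, Finset.mem_insert, Finset.mem_singleton] at h1
      rcases h1 with rfl | rfl | rfl
      · left; ring
      · right; left; ring
      · right; right; ring
    · rintro ⟨h1, h2⟩
      obtain ⟨t, rfl⟩ := h.e_surj (hZ γ h1)
      refine ⟨t, ?_, rfl⟩
      rw [Finset.mem_filter]
      refine ⟨?_, h1⟩
      rw [h.g_e_eq_iff] at h2
      rw [hS, Finset.mem_insert, Finset.mem_insert, Finset.mem_singleton]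
      rcases h2 with h2 | h2 | h2
      · left; exact sub_eq_zero.mp h2
      · right; left; rw [← h2]; ring
      · right; right; rw [← h2]; ring
  have h1 := heven (aeval (e8 k β i) g)
  rw [← himg, Finset.card_image_of_injective _ h.e_injective] at h1
  have h2 : ∑ t ∈ S, ind8 n β k Z t = (((S.filter fun t => e8 k β t ∈ Z).card : ℕ) : ZMod 2) := by
    rw [Finset.natCast_card_filter]
    rfl
  rw [h2]
  exact (ZMod.natCast_eq_zero_iff_even).mpr h1

/-- The symbols of the basic differences. -/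
noncomputable def aa (k : Type*) {F : Type*} [Field k] [Fintype k] [Field F] [Algebra k F]
    [Algebra.IsAlgebraic k F] (n : ℕ) (D : k[X]) (α β : F) (u : ZMod (3 * n)) : ZMod 2 :=
  nu8 k (3 * n) (bb n D α β u)

open scoped Classical in
lemma nu_PZ (h2 : (2 : k) ≠ 0) (h : Orb8 g D n α β) {Z : Finset F}
    (hZ : ∀ γ ∈ Z, aeval γ (D.comp g) = 0) [NeZero (3 * n)] (i : ZMod (3 * n)) :
    nu8 k (3 * n) (PZ (g.map (algebraMap k F)) (D.map (algebraMap k F)) Z (e8 k β i)) =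
      ∑ t, aa k n D α β (i - t) * ind8 n β k Z t := by
  rw [h.PZ_eq hZ, nu8_prod h2]
  · rw [Finset.sum_filter]
    apply Finset.sum_congr rfl
    intro t _
    rw [nu8_frob, ind8]
    split_ifs
    · rw [mul_one]; rfl
    · rw [mul_zero]
  · intro t _
    rw [← AlgEquiv.mul_apply, ← pow_add, add_comm, pow_add, AlgEquiv.mul_apply, h.frob8_bb]
  · intro t _ h3
    exact h.bb_ne (i - t) ((frob8 k F ^ t.val).injective (h3.trans (map_zero _).symm))

lemma PZ_ne (h : Orb8 g D n α β) {Z : Finset F}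
    (hZ : ∀ γ ∈ Z, aeval γ (D.comp g) = 0) [NeZero (3 * n)] (i : ZMod (3 * n)) :
    PZ (g.map (algebraMap k F)) (D.map (algebraMap k F)) Z (e8 k β i) ≠ 0 := by
  classical
  rw [h.PZ_eq hZ, Finset.prod_ne_zero_iff]
  intro t _ h3
  exact h.bb_ne (i - t) ((frob8 k F ^ t.val).injective (h3.trans (map_zero _).symm))

lemma frob8_PZ (h : Orb8 g D n α β) {Z : Finset F}
    (hZ : ∀ γ ∈ Z, aeval γ (D.comp g) = 0) [NeZero (3 * n)] (i : ZMod (3 * n)) :
    (frob8 k F ^ (3 * n)) (PZ (g.map (algebraMap k F)) (D.map (algebraMap k F)) Z (e8 k β i)) =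
      PZ (g.map (algebraMap k F)) (D.map (algebraMap k F)) Z (e8 k β i) := by
  classical
  rw [h.PZ_eq hZ, map_prod]
  apply Finset.prod_congr rfl
  intro t _
  rw [← AlgEquiv.mul_apply, ← pow_add, add_comm, pow_add, AlgEquiv.mul_apply, h.frob8_bb]

open scoped Classical in
/-- If both alternatives of the criterion fail for some set `Z`, the symbols of the differences
`β' - β` with a given `g(β')` agree. -/
theorem symbol_eq {j : ℕ} (h2 : (2 : k) ≠ 0) (h : Orb8 g D (3 ^ j) α β) {Z : Finset F}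
    (hne : Z.Nonempty) (hZ : ∀ γ ∈ Z, aeval γ (D.comp g) = 0)
    (heven : ∀ a : F, Even (Z.filter fun γ => aeval γ g = a).card)
    (H1 : ∀ γ : F, aeval γ (D.comp g) = 0 → γ ∉ Z →
      ∃ s ∈ adjoin k {β : F | aeval β (D.comp g) = 0},
        s ^ 2 = PZ (g.map (algebraMap k F)) (D.map (algebraMap k F)) Z γ)
    (H2 : ∀ γ ∈ Z, ∀ γ' ∈ Z, ∃ s ∈ adjoin k {β : F | aeval β (D.comp g) = 0},
      s ^ 2 = PZ (g.map (algebraMap k F)) (D.map (algebraMap k F)) Z γ *
        PZ (g.map (algebraMap k F)) (D.map (algebraMap k F)) Z γ')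
    {i : ZMod (3 * 3 ^ j)} (hi0 : i ≠ 0) (hi1 : i ≠ (3 ^ j : ℕ)) :
    aa k (3 ^ j) D α β i = aa k (3 ^ j) D α β (i - (3 ^ j : ℕ)) := by
  have : NeZero (3 * 3 ^ j) := ⟨by positivity⟩
  obtain ⟨γ₀, hγ₀⟩ := hne
  obtain ⟨i₀, rfl⟩ := h.e_surj (hZ γ₀ hγ₀)
  set c := ∑ t, aa k (3 ^ j) D α β (i₀ - t) * ind8 (3 ^ j) β k Z t with hc
  have hz : ind8 (3 ^ j) β k Z ∈ even8 (3 * 3 ^ j) (3 ^ j) := h.ind8_mem heven hZ
  apply circ8_symbol (aa k (3 ^ j) D α β) c (z := ind8 (3 ^ j) β k Z) hz _ _ hi0 hi1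
  · intro h0
    have h1 := congrFun h0 i₀
    rw [ind8, if_pos hγ₀] at h1
    exact one_ne_zero h1
  · intro i
    by_cases hi : e8 k β i ∈ Z
    · obtain ⟨s, hs, hs2⟩ := H2 _ hi _ hγ₀
      have h3 : nu8 k (3 * 3 ^ j) (PZ (g.map (algebraMap k F)) (D.map (algebraMap k F)) Z
          (e8 k β i) * PZ (g.map (algebraMap k F)) (D.map (algebraMap k F)) Z (e8 k β i₀)) = 0 := by
        rw [nu8_eq_zero_iff h2]
        · exact ⟨s, frob8_adjoin h hs, hs2⟩
        · rw [map_mul, h.frob8_PZ hZ, h.frob8_PZ hZ]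
        · exact mul_ne_zero (h.PZ_ne hZ i) (h.PZ_ne hZ i₀)
      rw [nu8_mul h2 (h.frob8_PZ hZ i) (h.PZ_ne hZ i) (h.frob8_PZ hZ i₀) (h.PZ_ne hZ i₀),
        h.nu_PZ h2 hZ, h.nu_PZ h2 hZ, ← hc] at h3
      have h4 : ind8 (3 ^ j) β k Z i = 1 := if_pos hi
      rw [h4, mul_one]
      rw [add_eq_zero_iff_eq_neg, CharTwo.neg_eq] at h3
      exact h3
    · obtain ⟨s, hs, hs2⟩ := H1 _ (h.e_root i) hi
      have h3 : nu8 k (3 * 3 ^ j) (PZ (g.map (algebraMap k F)) (D.map (algebraMap k F)) Z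
          (e8 k β i)) = 0 := by
        rw [nu8_eq_zero_iff h2 (h.frob8_PZ hZ i) (h.PZ_ne hZ i)]
        exact ⟨s, frob8_adjoin h hs, hs2⟩
      rw [h.nu_PZ h2 hZ] at h3
      have h4 : ind8 (3 ^ j) β k Z i = 0 := if_neg hi
      rw [h3, h4, mul_zero]

/-- The norm of a square. -/
theorem exists_sq (h2 : (2 : k) ≠ 0) (h : Orb8 g D n α β) {i : ℕ} (hi0 : 0 < i) (hin : i < n)
    (ha : aa k n D α β ((i + 2 * n : ℕ) : ZMod (3 * n)) =
      aa k n D α β ((i + n : ℕ) : ZMod (3 * n))) :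
    ∃ y : F, (frob8 k F ^ n) y = y ∧
      y ^ 2 = ∏ c ∈ fix8 k F i, ((α - c) * (α - aeval c g)) := by
  have hcast : ∀ a b : ℕ, a < 3 * n → b < 3 * n → ((a : ZMod (3 * n)) = b ↔ a = b) := by
    intro a b ha hb
    rw [ZMod.natCast_eq_natCast_iff, Nat.ModEq, Nat.mod_eq_of_lt ha, Nat.mod_eq_of_lt hb]
  -- the two differences
  have hb2 : bb n D α β ((i + 2 * n : ℕ) : ZMod (3 * n)) =
      e8 k β ((i + 2 * n : ℕ) : ZMod (3 * n)) - β := by
    rw [bb, if_neg, if_neg]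
    · rw [not_or, hcast _ _ (by omega) (by omega), hcast _ _ (by omega) (by omega)]
      omega
    · rw [← Nat.cast_zero, hcast _ _ (by omega) (by omega)]
      omega
  have hb1 : bb n D α β ((i + n : ℕ) : ZMod (3 * n)) =
      e8 k β ((i + n : ℕ) : ZMod (3 * n)) - β := by
    rw [bb, if_neg, if_neg]
    · rw [not_or, hcast _ _ (by omega) (by omega), hcast _ _ (by omega) (by omega)]
      omega
    · rw [← Nat.cast_zero, hcast _ _ (by omega) (by omega)]
      omega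
  set φ := frob8 k F with hφ
  set ψ := φ ^ n with hψ
  have hβ3 : (φ ^ (3 * n)) β = β := h.frob8_beta
  have hψα : ψ α = α := (h.alpha_iff n).mpr dvd_rfl
  -- a square root of the product of the differences
  obtain ⟨s, hs, hs2⟩ : ∃ s : F, (φ ^ (3 * n)) s = s ∧
      s ^ 2 = bb n D α β ((i + 2 * n : ℕ) : ZMod (3 * n)) *
        bb n D α β ((i + n : ℕ) : ZMod (3 * n)) := by
    rw [← nu8_eq_zero_iff h2]
    · rw [nu8_mul h2 (h.frob8_bb _) (h.bb_ne _) (h.frob8_bb _) (h.bb_ne _)]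
      unfold aa at ha
      rw [ha, CharTwo.add_self_eq_zero]
    · rw [map_mul, h.frob8_bb, h.frob8_bb]
    · exact mul_ne_zero (h.bb_ne _) (h.bb_ne _)
  -- `φ^i α - α` as a product
  have he : ∀ m : ℕ, e8 k β (m : ZMod (3 * n)) = (φ ^ m) β := fun m => h.e_natCast m
  have hprod0 := h.sub_eq_prod ((i : ℕ) : ZMod (3 * n)) β
  rw [← Nat.cast_add, ← Nat.cast_add, he, he, he, aeval_frob8, h.gβ] at hprod0
  rw [hb1, hb2, he, he] at hs2
  set w := s * ((φ ^ i) β - β) with hw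
  have hw2 : w ^ 2 = ((φ ^ i) α - α) * ((φ ^ i) β - β) := by
    rw [hw, mul_pow, hs2]
    linear_combination ((φ ^ i) β - β) * hprod0
  have hw3 : (φ ^ (3 * n)) w = w := by
    rw [hw, map_mul, hs, map_sub, hβ3, ← AlgEquiv.mul_apply, ← pow_add, add_comm, pow_add,
      AlgEquiv.mul_apply, hβ3]
  have hψ3 : ψ (ψ (ψ w)) = w := by
    rw [hψ, ← AlgEquiv.mul_apply, ← AlgEquiv.mul_apply, ← pow_add, ← pow_add]
    have : n + n + n = 3 * n := by ring
    rw [this]
    exact hw3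
  have hψi : ∀ x, ψ ((φ ^ i) x) = (φ ^ i) (ψ x) := by
    intro x
    rw [hψ, ← AlgEquiv.mul_apply, ← pow_add, add_comm, pow_add, AlgEquiv.mul_apply]
  -- the norm
  set y := w * ψ w * ψ (ψ w) with hy
  have hyψ : ψ y = y := by
    rw [hy, map_mul, map_mul, hψ3]
    ring
  have hy2 : y ^ 2 = ((φ ^ i) α - α) ^ 3 * (((φ ^ i) β - β) * ((φ ^ i) (ψ β) - ψ β) *
      ((φ ^ i) (ψ (ψ β)) - ψ (ψ β))) := by
    have e1 : (ψ w) ^ 2 = ((φ ^ i) α - α) * ((φ ^ i) (ψ β) - ψ β) := by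
      rw [← map_pow, hw2, map_mul, map_sub, map_sub, hψi, hψi, hψα]
    have e2 : (ψ (ψ w)) ^ 2 = ((φ ^ i) α - α) * ((φ ^ i) (ψ (ψ β)) - ψ (ψ β)) := by
      rw [← map_pow, e1, map_mul, map_sub, map_sub, hψi, hψi, hψα]
    rw [hy, mul_pow, mul_pow, hw2, e1, e2]
    ring
  -- the products over the fixed elements
  have hcyc : ((φ ^ i) β - β) * ((φ ^ i) (ψ β) - ψ β) * ((φ ^ i) (ψ (ψ β)) - ψ (ψ β)) =
      ∏ c ∈ fix8 k F i, (α - aeval c g) := by
    have hφi : ∀ x : F, (φ ^ i) x - x = ∏ c ∈ fix8 k F i, (x - c) := fun x => by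
      rw [hφ, frob8_pow_apply, pow_sub_eq_prod8 k hi0]
    rw [hφi β, hφi (ψ β), hφi (ψ (ψ β)), ← Finset.prod_mul_distrib,
      ← Finset.prod_mul_distrib]
    apply Finset.prod_congr rfl
    intro c _
    have h5 := h.sub_eq_prod (0 : ZMod (3 * n)) c
    rw [zero_add, zero_add, he, he, e_zero, h.gβ] at h5
    have h6 : (φ ^ (2 * n)) β = ψ (ψ β) := by
      rw [hψ, ← AlgEquiv.mul_apply, ← pow_add, two_mul]
    rw [h6] at h5
    change aeval c g - α = (c - β) * (c - ψ β) * (c - ψ (ψ β)) at h5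
    linear_combination h5
  have hα0 : (φ ^ i) α - α = ∏ c ∈ fix8 k F i, (α - c) := by
    rw [hφ, frob8_pow_apply, pow_sub_eq_prod8 k hi0]
  have hαne : (φ ^ i) α - α ≠ 0 := by
    intro h7
    have := (h.alpha_iff i).mp (sub_eq_zero.mp h7)
    have := Nat.le_of_dvd hi0 this
    omega
  refine ⟨y / ((φ ^ i) α - α), ?_, ?_⟩
  · rw [map_div₀, hyψ, map_sub, hψi, hψα]
  · rw [div_pow, hy2, hcyc, Finset.prod_mul_distrib, ← hα0]
    field_simp

end Orb8

end Pool.Agent.Lib.MP_89bcae_ag
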