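import Mathlib
import Pool.Agent.Lib.MP_89bcae_ag.InfDefs8

/-!
# The layers of the tower: the axioms of the local conditions
-/

open Polynomial WeierstrassCurve WeierstrassCurve.Affine IsDedekindDomain

open scoped Classical

namespace Pool.Agent.Lib.MP_89bcae_ag

set_option linter.unusedSectionVars false
set_option linter.style.haveILetI false

universe u

section Expl

variable {R L Ω Lv M : Type*} [CommRing R] [Field L] [Field Ω] [Field Lv] [Field M]
  [Algebra L Ω] [Algebra L Lv] [Algebra L M] [Algebra Lv M] [IsScalarTower L Lv M]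
  [Algebra R L] [Algebra R Ω] [Algebra R Lv] [Algebra R M] [IsScalarTower R L Ω]
  [IsScalarTower R L M] [IsScalarTower R L Lv] [IsScalarTower R Lv M] {V : Affine R}

/-- The local condition, with explicit structures. -/
def LTA (V : Affine R) (N : Subgroup (Ω ≃ₐ[L] Ω)) (c : (Ω ≃ₐ[L] Ω) → (V.baseChange Ω).Point)
    (Lv : Type*) [Field Lv] [Algebra L Lv] [Algebra Lv M] [IsScalarTower L Lv M] [Algebra R Lv]
    [IsScalarTower R L Lv] [IsScalarTower R Lv M] (j : Ω →ₐ[L] M) : Prop :=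
  ∃ Q : (V.baseChange M).Point, ∀ (g : M ≃ₐ[Lv] M) (g' : Ω ≃ₐ[L] Ω), g' ∈ N →
    (∀ x, j (g' x) = g (j x)) → Point.map (W' := V) j (c g') =
      Point.map (W' := V) (g : M →ₐ[Lv] M) Q - Q

variable {N : Subgroup (Ω ≃ₐ[L] Ω)} {c c' c'' : (Ω ≃ₐ[L] Ω) → (V.baseChange Ω).Point}
  {j : Ω →ₐ[L] M}

lemma LTA.congr (hc : LTA V N c Lv j) (h : ∀ σ ∈ N, c' σ = c σ) : LTA V N c' Lv j := by
  obtain ⟨Q, hQ⟩ := hc
  exact ⟨Q, fun g g' hN hg => by rw [h g' hN]; exact hQ g g' hN hg⟩

lemma LTA.add (hc : LTA V N c Lv j) (hc' : LTA V N c' Lv j) (h : ∀ σ ∈ N, c'' σ = c σ + c' σ) :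
    LTA V N c'' Lv j := by
  obtain ⟨Q, hQ⟩ := hc
  obtain ⟨Q', hQ'⟩ := hc'
  refine ⟨Q + Q', fun g g' hN hg => ?_⟩
  rw [h g' hN, map_add, map_add, hQ g g' hN hg, hQ' g g' hN hg]
  abel

lemma LTA.neg (hc : LTA V N c Lv j) (h : ∀ σ ∈ N, c'' σ = -c σ) :
    LTA V N c'' Lv j := by
  obtain ⟨Q, hQ⟩ := hc
  refine ⟨-Q, fun g g' hN hg => ?_⟩
  rw [h g' hN, map_neg, map_neg, hQ g g' hN hg]
  abel

lemma LTA.cob (q : (V.baseChange Ω).Point)
    (h : ∀ σ ∈ N, c σ = Point.map (W' := V) (σ : Ω →ₐ[L] Ω) q - q) : LTA V N c Lv j := by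
  refine ⟨Point.map (W' := V) j q, fun g g' hN hg => ?_⟩
  have e1 : Point.map (W' := V) j (Point.map (g' : Ω →ₐ[L] Ω) q) =
      Point.map (W' := V) (g : M →ₐ[Lv] M) (Point.map j q) := by
    rcases q with _ | ⟨x, y, h⟩
    · rfl
    · rw [Point.map_some, Point.map_some, Point.map_some, Point.map_some]
      simp only [Point.some.injEq]
      exact ⟨hg x, hg y⟩
  rw [h g' hN, map_sub, e1]

end Expl

section Basic

variable {k F L Ω : Type u} [Field k] [Field F] [Algebra k F]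
  [Field L] [Algebra F[X] L] [Field Ω] [Algebra L Ω]

/-- The local condition in terms of homomorphisms of groups of points. -/
lemma ltOn_iff {W : WeierstrassCurve k[X]} {N : Subgroup (Ω ≃ₐ[L] Ω)}
    {c : (Ω ≃ₐ[L] Ω) → (W.map (base k F L Ω)).toAffine.Point}
    {Lv : Type u} [Field Lv] [Algebra L Lv] : LTOn W N c Lv ↔
    ∀ (M : Type u) [Field M] [Algebra Lv M] [IsSepClosure Lv M] [Algebra L M]
      [IsScalarTower L Lv M] (j : Ω →ₐ[L] M),
      letI := algK k F L L
      letI := algK k F L Ω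
      letI := algK k F L Lv
      letI := algK k F L M
      haveI : IsScalarTower k[X] L Ω := IsScalarTower.of_algebraMap_eq fun _ => rfl
      haveI : IsScalarTower k[X] L M := IsScalarTower.of_algebraMap_eq fun _ => rfl
      haveI : IsScalarTower k[X] L Lv := IsScalarTower.of_algebraMap_eq fun _ => rfl
      haveI : IsScalarTower k[X] Lv M := IsScalarTower.of_algebraMap_eq fun p => by
        rw [IsScalarTower.algebraMap_apply k[X] L Lv, ← IsScalarTower.algebraMap_apply L Lv M]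
        rfl
      LTA W.toAffine N c Lv j := by
  constructor
  · intro h M _ _ _ _ _ j
    obtain ⟨Q₀, hQ₀⟩ := h M j
    letI := algK k F L L
    letI := algK k F L Ω
    letI := algK k F L Lv
    letI := algK k F L M
    haveI : IsScalarTower k[X] L Ω := IsScalarTower.of_algebraMap_eq fun _ => rfl
    haveI : IsScalarTower k[X] L M := IsScalarTower.of_algebraMap_eq fun _ => rfl
    haveI : IsScalarTower k[X] L Lv := IsScalarTower.of_algebraMap_eq fun _ => rfl
    haveI : IsScalarTower k[X] Lv M := IsScalarTower.of_algebraMap_eq fun p => by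
      rw [IsScalarTower.algebraMap_apply k[X] L Lv, ← IsScalarTower.algebraMap_apply L Lv M]
      rfl
    let V : Affine k[X] := W.toAffine
    let Q₁ : (V.baseChange M).Point := Q₀
    refine ⟨Q₁, fun g g' hN hg => ?_⟩
    have h1 := hQ₀ g g' hN hg (Point.map (W' := V) (g : M →ₐ[Lv] M) Q₁)
      (isImage_map (W := W) (g : M →ₐ[Lv] M) Q₁)
    exact ((isImage_iff (W := W) j (c g') _).mp h1).symm
  · intro h M _ _ _ _ _ j
    letI := algK k F L L
    letI := algK k F L Ω
    letI := algK k F L Lv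
    letI := algK k F L M
    haveI : IsScalarTower k[X] L Ω := IsScalarTower.of_algebraMap_eq fun _ => rfl
    haveI : IsScalarTower k[X] L M := IsScalarTower.of_algebraMap_eq fun _ => rfl
    haveI : IsScalarTower k[X] L Lv := IsScalarTower.of_algebraMap_eq fun _ => rfl
    haveI : IsScalarTower k[X] Lv M := IsScalarTower.of_algebraMap_eq fun p => by
      rw [IsScalarTower.algebraMap_apply k[X] L Lv, ← IsScalarTower.algebraMap_apply L Lv M]
      rfl
    have h0 : LTA W.toAffine N c Lv j := h M j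
    obtain ⟨Q₀, hQ₀⟩ := h0
    let V : Affine k[X] := W.toAffine
    let Q₁ : (V.baseChange M).Point := Q₀
    refine ⟨Q₁, fun g g' hN hg P hP => ?_⟩
    have h3 := (isImage_iff (W := W) (g : M →ₐ[Lv] M) _ _).mp hP
    apply (isImage_iff (W := W) j (c g') _).mpr
    rw [h3]
    exact (hQ₀ g g' hN hg).symm

variable {W : WeierstrassCurve k[X]} {N : Subgroup (Ω ≃ₐ[L] Ω)}
  {c c' c'' : (Ω ≃ₐ[L] Ω) → (W.map (base k F L Ω)).toAffine.Point}
  {Lv : Type u} [Field Lv] [Algebra L Lv]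

lemma LTOn.congr (hc : LTOn W N c Lv) (h : ∀ σ ∈ N, c' σ = c σ) : LTOn W N c' Lv := by
  rw [ltOn_iff] at hc ⊢
  intro M _ _ _ _ _ j
  letI := algK k F L L
  letI := algK k F L Ω
  letI := algK k F L Lv
  letI := algK k F L M
  haveI : IsScalarTower k[X] L Ω := IsScalarTower.of_algebraMap_eq fun _ => rfl
  haveI : IsScalarTower k[X] L M := IsScalarTower.of_algebraMap_eq fun _ => rfl
  haveI : IsScalarTower k[X] L Lv := IsScalarTower.of_algebraMap_eq fun _ => rfl
  haveI : IsScalarTower k[X] Lv M := IsScalarTower.of_algebraMap_eq fun p => by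
    rw [IsScalarTower.algebraMap_apply k[X] L Lv, ← IsScalarTower.algebraMap_apply L Lv M]
    rfl
  exact LTA.congr (V := W.toAffine) (hc M j) h

lemma LTOn.add (hc : LTOn W N c Lv) (hc' : LTOn W N c' Lv) (h : ∀ σ ∈ N, c'' σ = c σ + c' σ) :
    LTOn W N c'' Lv := by
  rw [ltOn_iff] at hc hc' ⊢
  intro M _ _ _ _ _ j
  letI := algK k F L L
  letI := algK k F L Ω
  letI := algK k F L Lv
  letI := algK k F L M
  haveI : IsScalarTower k[X] L Ω := IsScalarTower.of_algebraMap_eq fun _ => rfl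
  haveI : IsScalarTower k[X] L M := IsScalarTower.of_algebraMap_eq fun _ => rfl
  haveI : IsScalarTower k[X] L Lv := IsScalarTower.of_algebraMap_eq fun _ => rfl
  haveI : IsScalarTower k[X] Lv M := IsScalarTower.of_algebraMap_eq fun p => by
    rw [IsScalarTower.algebraMap_apply k[X] L Lv, ← IsScalarTower.algebraMap_apply L Lv M]
    rfl
  exact LTA.add (V := W.toAffine) (hc M j) (hc' M j) h

lemma LTOn.neg (hc : LTOn W N c Lv) (h : ∀ σ ∈ N, c'' σ = -c σ) :
    LTOn W N c'' Lv := by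
  rw [ltOn_iff] at hc ⊢
  intro M _ _ _ _ _ j
  letI := algK k F L L
  letI := algK k F L Ω
  letI := algK k F L Lv
  letI := algK k F L M
  haveI : IsScalarTower k[X] L Ω := IsScalarTower.of_algebraMap_eq fun _ => rfl
  haveI : IsScalarTower k[X] L M := IsScalarTower.of_algebraMap_eq fun _ => rfl
  haveI : IsScalarTower k[X] L Lv := IsScalarTower.of_algebraMap_eq fun _ => rfl
  haveI : IsScalarTower k[X] Lv M := IsScalarTower.of_algebraMap_eq fun p => by
    rw [IsScalarTower.algebraMap_apply k[X] L Lv, ← IsScalarTower.algebraMap_apply L Lv M]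
    rfl
  exact LTA.neg (V := W.toAffine) (hc M j) h

lemma ltOn_cob (q : (W.map (base k F L Ω)).toAffine.Point)
    (h : letI := algK k F L L
      letI := algK k F L Ω
      haveI : IsScalarTower k[X] L Ω := IsScalarTower.of_algebraMap_eq fun _ => rfl
      let q' : (W.toAffine.baseChange Ω).Point := q
      ∀ σ ∈ N, c σ = (Point.map (W' := W.toAffine) (σ : Ω →ₐ[L] Ω) q' - q' :
        (W.toAffine.baseChange Ω).Point)) :
    LTOn W N c Lv := by
  rw [ltOn_iff]
  intro M _ _ _ _ _ j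
  letI := algK k F L L
  letI := algK k F L Ω
  letI := algK k F L Lv
  letI := algK k F L M
  haveI : IsScalarTower k[X] L Ω := IsScalarTower.of_algebraMap_eq fun _ => rfl
  haveI : IsScalarTower k[X] L M := IsScalarTower.of_algebraMap_eq fun _ => rfl
  haveI : IsScalarTower k[X] L Lv := IsScalarTower.of_algebraMap_eq fun _ => rfl
  haveI : IsScalarTower k[X] Lv M := IsScalarTower.of_algebraMap_eq fun p => by
    rw [IsScalarTower.algebraMap_apply k[X] L Lv, ← IsScalarTower.algebraMap_apply L Lv M]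
    rfl
  exact LTA.cob (V := W.toAffine) q h

end Basic

section Conj

variable {k F L Ω : Type u} [Field k] [Field F] [Algebra k F] [IsAlgClosed F]
  [Field L] [Algebra F[X] L] [IsFractionRing F[X] L] [Field Ω]
  [Algebra L Ω]

lemma ltOn_conj_aux {W : WeierstrassCurve k[X]} {N N' : Subgroup (Ω ≃ₐ[L] Ω)}
    {c c' : (Ω ≃ₐ[L] Ω) → (W.map (base k F L Ω)).toAffine.Point}
    {Lv Lv' : Type u} [Field Lv] [Algebra L Lv] [Field Lv'] [Algebra L Lv'] (f : L ≃+* L)
    (hf : ∀ p : k[X], f (base k F L L p) = base k F L L p) (φ : Lv ≃+* Lv')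
    (γ : Ω ≃+* Ω)
    (hγ : ∀ x : L, γ (algebraMap L Ω x) = algebraMap L Ω (f x))
    (hNN : ∀ σ σ' : Ω ≃ₐ[L] Ω, (∀ x, γ (σ' x) = σ (γ x)) → σ ∈ N' → σ' ∈ N)
    (hcc' : ∀ σ σ' : Ω ≃ₐ[L] Ω, σ ∈ N' → (∀ x, γ (σ' x) = σ (γ x)) →
      IsImage (γ : Ω →+* Ω) (c σ') (c' σ)) (h : LTOn W N c Lv)
    {M : Type u} [Field M] [Algebra Lv' M] [Algebra L M] [IsScalarTower L Lv' M]
    {M' : Type u} [Field M'] [Algebra Lv M'] [IsSepClosure Lv M'] [Algebra L M']
    [IsScalarTower L Lv M'] (e : M' ≃+* M)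
    (he : ∀ x : Lv, e (algebraMap Lv M' x) = algebraMap Lv' M (φ x))
    (he' : ∀ x : L, e (algebraMap L M' x) = algebraMap L M (f x))
    (j : Ω →ₐ[L] M) :
    ∃ Q : (W.map (base k F L M)).toAffine.Point,
      ∀ (g : M ≃ₐ[Lv'] M) (g' : Ω ≃ₐ[L] Ω), g' ∈ N' → (∀ x, j (g' x) = g (j x)) →
        ∀ P : (W.map (base k F L M)).toAffine.Point, IsImage (g : M →+* M) Q P →
          IsImage (j : Ω →+* M) (c' g') (P - Q) := by
  letI := algK k F L L
  letI := algK k F L Ω
  letI := algK k F L Lv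
  letI := algK k F L Lv'
  letI := algK k F L M
  letI := algK k F L M'
  haveI : IsScalarTower k[X] L Ω := IsScalarTower.of_algebraMap_eq fun _ => rfl
  haveI : IsScalarTower k[X] L M := IsScalarTower.of_algebraMap_eq fun _ => rfl
  haveI : IsScalarTower k[X] L M' := IsScalarTower.of_algebraMap_eq fun _ => rfl
  haveI : IsScalarTower k[X] L Lv := IsScalarTower.of_algebraMap_eq fun _ => rfl
  haveI : IsScalarTower k[X] L Lv' := IsScalarTower.of_algebraMap_eq fun _ => rfl
  haveI : IsScalarTower k[X] Lv' M := IsScalarTower.of_algebraMap_eq fun p => by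
    rw [IsScalarTower.algebraMap_apply k[X] L Lv', ← IsScalarTower.algebraMap_apply L Lv' M]
    rfl
  haveI : IsScalarTower k[X] Lv M' := IsScalarTower.of_algebraMap_eq fun p => by
    rw [IsScalarTower.algebraMap_apply k[X] L Lv, ← IsScalarTower.algebraMap_apply L Lv M']
    rfl
  -- `e`, `γ` as algebra homomorphisms
  have hek : ∀ p : k[X], e (algebraMap k[X] M' p) = algebraMap k[X] M p := by
    intro p
    change e (algebraMap L M' (base k F L L p)) = algebraMap L M (base k F L L p)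
    rw [he', hf]
  have hγk : ∀ p : k[X], γ (algebraMap k[X] Ω p) = algebraMap k[X] Ω p := by
    intro p
    change γ (algebraMap L Ω (base k F L L p)) = algebraMap L Ω (base k F L L p)
    rw [hγ, hf]
  let e' : M' ≃ₐ[k[X]] M := AlgEquiv.ofRingEquiv (f := e) hek
  let γ' : Ω ≃ₐ[k[X]] Ω := AlgEquiv.ofRingEquiv (f := γ) hγk
  -- the embedding of `Ω` in `M'`
  let j' : Ω →ₐ[L] M' :=
    { toRingHom := (e.symm : M →+* M').comp ((j : Ω →+* M).comp (γ : Ω →+* Ω))
      commutes' := fun x => by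
        change e.symm (j (γ (algebraMap L Ω x))) = algebraMap L M' x
        rw [hγ, j.commutes, ← he', RingEquiv.symm_apply_apply] }
  have hj' : ∀ x, e (j' x) = j (γ x) := fun x => by
    change e (e.symm (j (γ x))) = _
    rw [RingEquiv.apply_symm_apply]
  obtain ⟨Q₀, hQ₀⟩ := h M' j'
  let V : Affine k[X] := W.toAffine
  let Q₁ : (V.baseChange M').Point := Q₀
  let c₁ : (Ω ≃ₐ[L] Ω) → (V.baseChange Ω).Point := c
  let c₁' : (Ω ≃ₐ[L] Ω) → (V.baseChange Ω).Point := c'
  refine ⟨Point.map (W' := V) (e' : M' →ₐ[k[X]] M) Q₁, fun g g' hgN hg P hP => ?_⟩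
  -- the conjugates of `g` and `g'`
  let s : M' ≃ₐ[Lv] M' := AlgEquiv.ofRingEquiv (f := (e.trans g.toRingEquiv).trans e.symm) (by
    intro y
    change e.symm (g (e (algebraMap Lv M' y))) = algebraMap Lv M' y
    rw [he, g.commutes, ← he, RingEquiv.symm_apply_apply])
  have hs : ∀ x, e (s x) = g (e x) := fun x => by
    change e (e.symm (g (e x))) = _
    rw [RingEquiv.apply_symm_apply]
  obtain ⟨s', hs'⟩ := exists_conj_aux f γ hγ g'
  have hss : ∀ x, j' (s' x) = s (j' x) := by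
    intro x
    apply e.injective
    rw [hj', hs', hg, hs, hj']
  have h1 := hQ₀ s s' (hNN g' s' hs' hgN) hss (Point.map (W' := V) (s : M' →ₐ[Lv] M') Q₁)
    (isImage_map (W := W) (s : M' →ₐ[Lv] M') Q₁)
  have h2 : Point.map (W' := V) (s : M' →ₐ[Lv] M') Q₁ - Q₁ = Point.map (W' := V) j' (c₁ s') :=
    (isImage_iff (W := W) j' (c₁ s') _).mp h1
  have h3 : c₁' g' = Point.map (W' := V) (γ' : Ω →ₐ[k[X]] Ω) (c₁ s') :=
    (isImage_iff (W := W) (γ' : Ω →ₐ[k[X]] Ω) (c₁ s') (c₁' g')).mp (hcc' g' s' hgN hs')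
  have h4 : P = Point.map (W' := V) (g : M →ₐ[Lv'] M)
      (Point.map (W' := V) (e' : M' →ₐ[k[X]] M) Q₁) :=
    (isImage_iff (W := W) (g : M →ₐ[Lv'] M) _ _).mp hP
  apply (isImage_iff (W := W) j (c₁' g') _).mpr
  have e1 : Point.map (W' := V) (g : M →ₐ[Lv'] M)
      (Point.map (W' := V) (e' : M' →ₐ[k[X]] M) Q₁) =
      Point.map (W' := V) (e' : M' →ₐ[k[X]] M) (Point.map (W' := V) (s : M' →ₐ[Lv] M') Q₁) := by
    rcases Q₁ with _ | ⟨x, y, hxy⟩
    · rfl
    · rw [Point.map_some, Point.map_some, Point.map_some, Point.map_some]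
      simp only [Point.some.injEq]
      exact ⟨(hs x).symm, (hs y).symm⟩
  have e2 : Point.map (W' := V) j (Point.map (W' := V) (γ' : Ω →ₐ[k[X]] Ω) (c₁ s')) =
      Point.map (W' := V) (e' : M' →ₐ[k[X]] M) (Point.map (W' := V) j' (c₁ s')) := by
    rcases c₁ s' with _ | ⟨x, y, hxy⟩
    · rfl
    · rw [Point.map_some, Point.map_some, Point.map_some, Point.map_some]
      simp only [Point.some.injEq]
      exact ⟨(hj' x).symm, (hj' y).symm⟩
  rw [h4, h3, e1, e2, ← h2, map_sub]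
  rfl

/-- The conjugate of a locally trivial class is locally trivial at the conjugate place. -/
lemma LTOn.conj {W : WeierstrassCurve k[X]} {N N' : Subgroup (Ω ≃ₐ[L] Ω)}
    {c c' : (Ω ≃ₐ[L] Ω) → (W.map (base k F L Ω)).toAffine.Point}
    {Lv Lv' : Type u} [Field Lv] [Algebra L Lv] [Field Lv'] [Algebra L Lv'] (f : L ≃+* L)
    (hf : ∀ p : k[X], f (base k F L L p) = base k F L L p) (φ : Lv ≃+* Lv')
    (hφ : ∀ x : L, φ (algebraMap L Lv x) = algebraMap L Lv' (f x)) (γ : Ω ≃+* Ω)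
    (hγ : ∀ x : L, γ (algebraMap L Ω x) = algebraMap L Ω (f x))
    (hNN : ∀ σ σ' : Ω ≃ₐ[L] Ω, (∀ x, γ (σ' x) = σ (γ x)) → σ ∈ N' → σ' ∈ N)
    (hcc' : ∀ σ σ' : Ω ≃ₐ[L] Ω, σ ∈ N' → (∀ x, γ (σ' x) = σ (γ x)) →
      IsImage (γ : Ω →+* Ω) (c σ') (c' σ)) (h : LTOn W N c Lv) :
    LTOn W N' c' Lv' := by
  intro M _ i1 i2 i3 i4 j
  have hsc : IsSepClosed M := IsSepClosure.sep_closed Lv'
  have hsep : Algebra.IsSeparable Lv' M := IsSepClosure.separable
  have htow : ∀ x : L, algebraMap L M x = algebraMap Lv' M (algebraMap L Lv' x) := fun x =>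
    IsScalarTower.algebraMap_apply L Lv' M x
  let ιv : Lv' →+* M := algebraMap Lv' M
  let ιL : L →+* M := algebraMap L M
  let a1 : Algebra Lv M := (ιv.comp (φ : Lv →+* Lv')).toAlgebra
  let a2 : Algebra L M := (ιL.comp (f : L →+* L)).toAlgebra
  have a3 : @IsScalarTower L Lv M _ a1.toSMul a2.toSMul :=
    @IsScalarTower.of_algebraMap_eq L Lv M _ _ _ _ a1 a2 (fun x => by
      change ιL (f x) = ιv (φ (algebraMap L Lv x))
      rw [hφ]
      exact htow (f x))
  have a4 : @Algebra.IsSeparable Lv M _ _ a1 := by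
    refine @Algebra.IsSeparable.of_equiv_equiv Lv' M Lv M _ _ _ _ i1 a1 φ.symm (RingEquiv.refl M)
      ?_ hsep
    ext x
    change ιv (φ (φ.symm x)) = ιv x
    rw [RingEquiv.apply_symm_apply]
  have a5 : @IsSepClosure Lv _ M _ a1 := ⟨hsc, a4⟩
  exact @ltOn_conj_aux k F L Ω _ _ _ _ _ _ _ _ _ W N N' c c' Lv Lv' _ _ _ _ f hf φ γ hγ
    hNN hcc' h M _ i1 i3 i4 M _ a1 a5 a2 a3 (RingEquiv.refl M) (fun x => rfl) (fun x => rfl) j

end Conj

section Ax

variable {k F L Ω : Type u} [Field k] [Field F] [Algebra k F] [Algebra.IsAlgebraic k F]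
  [IsAlgClosed F] [Field L] [Algebra F[X] L] [IsFractionRing F[X] L] [Field Ω]
  [Algebra L Ω] [IsGalois L Ω] [IsSepClosed Ω] [IsSepClosure L Ω]

/-- The axioms of the local conditions over a layer. -/
theorem locAx_LocS (W : WeierstrassCurve k[X]) {s : Ω}
    (hs : letI := algK k F L Ω
      ∀ γ : Ω ≃ₐ[k[X]] Ω, ∃ a : F, γ s = algebraMap L Ω (algebraMap F[X] L (C a)) * s) :
    letI := algK k F L L
    letI := algK k F L Ω
    haveI : IsScalarTower k[X] L Ω := IsScalarTower.of_algebraMap_eq fun _ => rfl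
    letI := actW (k := k) (Ω := Ω) W.toAffine
    Inf.LocAx (A := (W.toAffine.baseChange Ω).Point) (HS8 k L s) (LocS W s) := by
  letI := algK k F L L
  letI := algK k F L Ω
  letI := algF F L Ω
  haveI : IsScalarTower F[X] L Ω := IsScalarTower.of_algebraMap_eq fun _ => rfl
  haveI : IsScalarTower k[X] L Ω := IsScalarTower.of_algebraMap_eq fun _ => rfl
  letI : DistribMulAction (Ω ≃ₐ[k[X]] Ω) (W.toAffine.baseChange Ω).Point :=
    actW (k := k) (Ω := Ω) W.toAffine
  have hk : ∀ p : k[X], algebraMap k[X] L p = algebraMap F[X] L (p.map (algebraMap k F)) :=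
    fun _ => rfl
  refine ⟨?_, ?_, ?_, ?_, ?_⟩
  · intro f f' hff hf τ
    exact (hf τ).congr fun σ hσ => hff _ (toG_mem_HS8.mpr (mem_NS.mp hσ))
  · intro f f' hf hf' τ
    exact (hf τ).add (hf' τ) fun σ _ => rfl
  · intro f hf τ
    exact (hf τ).neg fun σ _ => rfl
  · intro q τ
    exact ltOn_cob q fun σ _ => rfl
  · intro γ f hf τ'
    obtain ⟨τ, rfl⟩ : ∃ τ, (resF hk γ) τ = τ' := (resF hk γ).surjective τ'
    obtain ⟨φ, hφ, -⟩ := exists_adic_equiv L ((resF hk γ : F ≃ₐ[k] F) : F ≃+* F) τ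
    refine LTOn.conj (W := W) (c := fun σ => f (toG σ))
      (coefL L ((resF hk γ : F ≃ₐ[k] F) : F ≃+* F)) ?_ φ hφ (γ : Ω ≃+* Ω) ?_ ?_ ?_ (hf τ)
    · intro p
      change coefL L _ (algebraMap F[X] L (p.map (algebraMap k F))) =
        algebraMap F[X] L (p.map (algebraMap k F))
      rw [coefL_algebraMap]
      congr 1
      exact map_fix (resF hk γ) p
    · intro x
      obtain ⟨p, q, hq, rfl⟩ := IsFractionRing.div_surjective (A := F[X]) x
      rw [map_div₀, map_div₀, map_div₀, map_div₀, coefL_algebraMap, coefL_algebraMap,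
        ← IsScalarTower.algebraMap_apply, ← IsScalarTower.algebraMap_apply,
        ← IsScalarTower.algebraMap_apply, ← IsScalarTower.algebraMap_apply]
      have h1 : ∀ r : F[X], (γ : Ω ≃+* Ω) (algebraMap F[X] Ω r) = algebraMap F[X] Ω
          (r.map ((resF hk γ : F ≃ₐ[k] F) : F →+* F)) := fun r => resF_spec hk γ r
      rw [h1, h1]
      rfl
    · intro σ σ' hσ hσN
      rw [mem_NS] at hσN ⊢
      apply γ.injective
      have h1 : γ (σ' s) = σ (γ s) := hσ s
      rw [h1]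
      obtain ⟨a, ha⟩ := hs γ
      rw [ha, map_mul, hσN, σ.commutes]
    · intro σ σ' hσN hσ
      have h2 : γ⁻¹ * toG σ * γ = toG (k := k) σ' := by
        ext x
        rw [AlgEquiv.mul_apply, AlgEquiv.mul_apply]
        apply γ.injective
        rw [← AlgEquiv.mul_apply γ γ⁻¹, mul_inv_cancel, AlgEquiv.one_apply]
        exact (hσ x).symm
      change IsImage _ _ (γ • f (γ⁻¹ * toG σ * γ))
      rw [h2]
      exact isImage_map (W := W) (γ : Ω →ₐ[k[X]] Ω) (f (toG σ'))

end Ax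

end Pool.Agent.Lib.MP_89bcae_ag
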