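import Mathlib
import Pool.Agent.Lib.MP_89bcae_ag.InfL8
import Pool.Agent.Lib.MP_89bcae_ag.Resid8

/-!
# The layers of the tower split outside the zeros of `D`
-/

open Polynomial WeierstrassCurve WeierstrassCurve.Affine IsDedekindDomain

open scoped Classical

namespace Pool.Agent.Lib.MP_89bcae_ag

set_option linter.unusedSectionVars false
set_option linter.style.haveILetI false

universe u

section Split

variable {F L Ω : Type u} [Field F] [IsAlgClosed F]
  [Field L] [Algebra F[X] L] [IsFractionRing F[X] L] [Field Ω] [Algebra L Ω]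

/-- Units of the completion are `2 ^ r`-th powers. -/
lemma exists_root_of_unit (h2 : (2 : F) ≠ 0) (τ : F) (r : ℕ)
    (x : (placeAt τ).adicCompletion L) (hx : Valued.v x = 1) : ∃ y, y ^ (2 ^ r) = x := by
  induction r generalizing x with
  | zero => exact ⟨x, by simp⟩
  | succ r ih =>
    obtain ⟨y, hy⟩ := ih x hx
    have hvy : Valued.v y = 1 := by
      have h1 : (Valued.v y) ^ (2 ^ r) = 1 := by rw [← map_pow, hy, hx]
      exact (pow_eq_one_iff.mp h1).resolve_right (by positivity)
    obtain ⟨z, hz⟩ := exists_sqrt_of_unit L h2 τ y hvy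
    exact ⟨z, by rw [pow_succ, mul_comm, pow_mul, hz, hy]⟩

/-- The layer `L(s)`, `s ^ (2 ^ r) = D(t)`, splits at the places where `D` does not vanish. -/
lemma splits_of_eval_ne (h2 : (2 : F) ≠ 0) {D : F[X]} {τ : F} (hD : D.eval τ ≠ 0) {r : ℕ} {s : Ω}
    (hs : s ^ (2 ^ r) = algebraMap L Ω (algebraMap F[X] L D)) {M : Type u} [Field M]
    [Algebra ((placeAt τ).adicCompletion L) M] [Algebra L M]
    [IsScalarTower L ((placeAt τ).adicCompletion L) M] (j : Ω →ₐ[L] M) :
    ∃ y : (placeAt τ).adicCompletion L, algebraMap _ M y = j s := by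
  have h3 := val_eq_one L τ hD
  obtain ⟨y, hy⟩ := exists_root_of_unit h2 τ r _ h3
  have hy' : (algebraMap _ M y) ^ (2 ^ r) = (j s) ^ (2 ^ r) := by
    rw [← map_pow, ← map_pow, hy, hs, j.commutes,
      IsScalarTower.algebraMap_apply L ((placeAt τ).adicCompletion L) M]
    rfl
  by_cases hy0 : (algebraMap ((placeAt τ).adicCompletion L) M y) = 0
  · refine ⟨y, ?_⟩
    rw [hy0, zero_pow (by positivity)] at hy'
    rw [hy0]
    exact (eq_zero_of_pow_eq_zero hy'.symm).symm
  · -- the quotient is a root of unity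
    set u := j s / algebraMap _ M y with hu
    have hu1 : u ^ (2 ^ r) = 1 := by
      rw [hu, div_pow, ← hy', div_self (pow_ne_zero _ hy0)]
    have h4 : (X ^ (2 ^ r) - 1 : F[X]).Separable := by
      apply separable_X_pow_sub_C_unit (1 : Fˣ)
      rw [Nat.cast_pow, isUnit_iff_ne_zero]
      exact pow_ne_zero _ (by exact_mod_cast h2)
    obtain ⟨a, ha⟩ : ∃ a : F, algebraMap L M (algebraMap F[X] L (C a)) = u := by
      have h5 := (IsAlgClosed.splits (X ^ (2 ^ r) - 1 : F[X])).eq_prod_roots
      have hm : (X ^ (2 ^ r) - 1 : F[X]).Monic := monic_X_pow_sub_C 1 (by positivity)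
      rw [hm.leadingCoeff, C_1, one_mul] at h5
      let ι : F →+* M := ((algebraMap L M).comp (algebraMap F[X] L)).comp C
      have h6 := congrArg (eval₂ ι u) h5
      rw [eval₂_sub, eval₂_pow, eval₂_X, eval₂_one, hu1, sub_self, ← coe_eval₂RingHom,
        map_multiset_prod, eq_comm, Multiset.prod_eq_zero_iff, Multiset.mem_map] at h6
      obtain ⟨p, hp, hp0⟩ := h6
      rw [Multiset.mem_map] at hp
      obtain ⟨a, -, rfl⟩ := hp
      refine ⟨a, ?_⟩
      rw [coe_eval₂RingHom, eval₂_sub, eval₂_X, eval₂_C] at hp0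
      exact (sub_eq_zero.mp hp0).symm
    refine ⟨algebraMap L _ (algebraMap F[X] L (C a)) * y, ?_⟩
    rw [map_mul, ← IsScalarTower.algebraMap_apply L ((placeAt τ).adicCompletion L) M, ha, hu,
      div_mul_cancel₀ _ hy0]

end Split

section Triv

variable {k F L Ω : Type u} [Field k] [Field F] [Algebra k F] [IsAlgClosed F]
  [Field L] [Algebra F[X] L] [IsFractionRing F[X] L] [Field Ω] [Algebra L Ω]

/-- At a place where `D` does not vanish, the local condition over the layer is the local condition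
over `L`. -/
lemma LTOn.isLocallyTrivial {W : WeierstrassCurve k[X]} (h2 : (2 : F) ≠ 0) {D : F[X]} {τ : F}
    (hD : D.eval τ ≠ 0) {r : ℕ} {s : Ω}
    (hs : s ^ (2 ^ r) = algebraMap L Ω (algebraMap F[X] L D))
    {c : (Ω ≃ₐ[L] Ω) → (W.map (base k F L Ω)).toAffine.Point}
    (h : LTOn W (NS L s) c ((placeAt τ).adicCompletion L)) :
    IsLocallyTrivial W c ((placeAt τ).adicCompletion L) := by
  intro M _ _ _ _ _ j
  obtain ⟨Q, hQ⟩ := h M j
  refine ⟨Q, fun g g' hg => hQ g g' ?_ hg⟩
  rw [mem_NS]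
  apply (j : Ω →+* M).injective
  change j (g' s) = j s
  obtain ⟨y, hy⟩ := splits_of_eval_ne h2 hD hs j
  rw [hg, ← hy, g.commutes]

end Triv

end Pool.Agent.Lib.MP_89bcae_ag
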