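import Mathlib
import Pool.Agent.Lib.MP_89bcae_ag.InfP8
import Pool.Agent.Lib.MP_89bcae_ag.CritB8

/-!
# The divisor of a cocycle
-/

open Polynomial WeierstrassCurve WeierstrassCurve.Affine

open scoped Classical

namespace Pool.Agent.Lib.MP_89bcae_ag

set_option linter.unusedSectionVars false

section Desc

variable {R F L Ω : Type*} [CommRing R] [Field F] [IsAlgClosed F] [Field L] [Field Ω]
  [Algebra F[X] L] [IsFractionRing F[X] L] [Algebra L Ω] [Algebra F[X] Ω] [IsScalarTower F[X] L Ω]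
  [Algebra R L] [Algebra R Ω] [IsScalarTower R L Ω] {W : Affine R} {g D : F[X]}
  [IsGalois L Ω] [IsSepClosed Ω]

/-- The sum of two cocycles. -/
lemma IsDesc.add8 {c c' : (Ω ≃ₐ[L] Ω) → (W.baseChange Ω).Point} {Z Z' : Finset F}
    {b b' : Ω → Ω} (h : IsDesc W g D c Z b) (h' : IsDesc W g D c' Z' b') (h2 : (2 : Ω) ≠ 0)
    (hW : IsTwist Ω W g D) (hg : g.Monic) (hdeg : g.natDegree = 3)
    (hc' : ∀ σ, 2 • c' σ = 0) :
    IsDesc W g D (fun σ => c σ + c' σ) (symmDiff Z Z')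
      (fun θ => b θ * b' θ / ∏ β ∈ Z ∩ Z', (θ - algebraMap F[X] Ω (C β))) where
  sq θ hθ := by
    have hne : ∀ T : Finset F, (∏ β ∈ T, (θ - algebraMap F[X] Ω (C β))) ≠ 0 := fun T =>
      Finset.prod_ne_zero_iff.mpr fun β _ => root_sub_ne_zero L hθ β
    rw [div_pow, mul_pow, h.sq θ hθ, h'.sq θ hθ, div_eq_iff (pow_ne_zero 2 (hne _))]
    have h3 : symmDiff Z Z' = (Z \ Z') ∪ (Z' \ Z) := rfl
    have hd : Disjoint (Z \ Z') (Z' \ Z) := disjoint_sdiff_sdiff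
    rw [h3, Finset.prod_union hd]
    have e1 : (∏ β ∈ Z \ Z', (θ - algebraMap F[X] Ω (C β))) *
        ∏ β ∈ Z ∩ Z', (θ - algebraMap F[X] Ω (C β)) = ∏ β ∈ Z, (θ - algebraMap F[X] Ω (C β)) := by
      rw [← Finset.prod_union (Finset.disjoint_sdiff_inter Z Z'), Finset.sdiff_union_inter]
    have e2 : (∏ β ∈ Z' \ Z, (θ - algebraMap F[X] Ω (C β))) *
        ∏ β ∈ Z ∩ Z', (θ - algebraMap F[X] Ω (C β)) = ∏ β ∈ Z', (θ - algebraMap F[X] Ω (C β)) := by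
      rw [Finset.inter_comm, ← Finset.prod_union (Finset.disjoint_sdiff_inter Z' Z),
        Finset.sdiff_union_inter]
    rw [← e1, ← e2]
    ring
  act θ hθ σ := by
    have hθ' := map_mem_rootSet σ hθ
    rw [rho_add hW.short h2 (hW.rt hg hdeg hθ') _ _ (hc' σ), map_div₀, map_mul, h.act θ hθ,
      h'.act θ hθ, map_prod]
    have e1 : ∏ β ∈ Z ∩ Z', σ (θ - algebraMap F[X] Ω (C β)) =
        ∏ β ∈ Z ∩ Z', (σ θ - algebraMap F[X] Ω (C β)) :=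
      Finset.prod_congr rfl fun β _ => by rw [map_sub, map_D]
    rw [e1]
    ring

/-- The divisor of the zero cocycle. -/
lemma IsDesc.zero8 : IsDesc (L := L) W g D (fun _ : Ω ≃ₐ[L] Ω => (0 : (W.baseChange Ω).Point)) ∅
    (fun _ => (1 : Ω)) where
  sq θ _ := by simp
  act θ _ σ := by rw [rho_zero, map_one, one_mul]

end Desc

section

variable {k F L Ω : Type*} [Field k] [Field F] [Algebra k F] [Algebra.IsAlgebraic k F]
  [IsAlgClosed F] [Field L] [Field Ω]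
  [Algebra F[X] L] [IsFractionRing F[X] L] [Algebra L Ω] [Algebra F[X] Ω] [IsScalarTower F[X] L Ω]
  [Algebra k[X] L] [Algebra k[X] Ω] [IsScalarTower k[X] L Ω]
  [IsGalois L Ω] [IsSepClosed Ω] [IsSepClosure L Ω]

attribute [local instance] actW

variable {W : Affine k[X]} {Loc : ((Ω ≃ₐ[k[X]] Ω) → (W.baseChange Ω).Point) → Prop}

variable (L) in
/-- The restriction of a function to the Galois group. -/
noncomputable def cG (z : (Ω ≃ₐ[k[X]] Ω) → (W.baseChange Ω).Point) (σ : Ω ≃ₐ[L] Ω) :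
    (W.baseChange Ω).Point := z (toG σ)

lemma Inf.Adm.cG_two {z : (Ω ≃ₐ[k[X]] Ω) → (W.baseChange Ω).Point}
    (h : Inf.Adm Ω (GL8 k L Ω) Loc z) (σ : Ω ≃ₐ[L] Ω) : 2 • cG L z σ = 0 :=
  h.two _ (toG_mem_GL8 σ)

lemma Inf.Adm.cG_mul {z : (Ω ≃ₐ[k[X]] Ω) → (W.baseChange Ω).Point}
    (h : Inf.Adm Ω (GL8 k L Ω) Loc z) (σ τ : Ω ≃ₐ[L] Ω) :
    cG L z (σ * τ) = cG L z σ + Point.map (W' := W) (σ : Ω →ₐ[L] Ω) (cG L z τ) := by
  have h1 := h.co _ (toG_mem_GL8 (k := k) σ) _ (toG_mem_GL8 (k := k) τ)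
  rw [← toG_mul] at h1
  exact h1

lemma Inf.Adm.cG_loc {z : (Ω ≃ₐ[k[X]] Ω) → (W.baseChange Ω).Point}
    (h : Inf.Adm Ω (GL8 k L Ω) Loc z) : IsLocallyConstant (cG L z) := by
  have hK : ∀ σ : Ω ≃ₐ[L] Ω, FixS (algebraMap L Ω).fieldRange σ := by
    rintro σ _ ⟨x, rfl⟩
    exact σ.commutes x
  have h1 : OneC W (algebraMap L Ω).fieldRange (cG L z) := by
    refine ⟨fun σ _ => h.cG_two σ, fun σ τ _ _ => h.cG_mul σ τ, ?_⟩
    obtain ⟨T, hT⟩ := h.sm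
    exact ⟨T, fun σ _ hσ => hT _ (toG_mem_GL8 σ) hσ⟩
  exact h1.loc hK

/-- The divisor of a cocycle. -/
noncomputable def dvZ (L : Type*) {Ω : Type*} [Field L] [Field Ω] [Algebra F[X] L] [Algebra L Ω]
    [Algebra F[X] Ω] [Algebra k[X] L] [Algebra k[X] Ω] [IsScalarTower k[X] L Ω]
    (W : Affine k[X]) (g D : F[X])
    (z : (Ω ≃ₐ[k[X]] Ω) → (W.baseChange Ω).Point) : Finset F :=
  if h : ∃ Z : Finset F, ∃ b : Ω → Ω, IsDesc W g D (cG L z) Z b then Classical.choose h else ∅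

variable {g D : F[X]}

lemma dvZ_spec (hF : Good g D) (h2 : (2 : Ω) ≠ 0) (hW : IsTwist Ω W g D)
    {z : (Ω ≃ₐ[k[X]] Ω) → (W.baseChange Ω).Point} (h : Inf.Adm Ω (GL8 k L Ω) Loc z) :
    ∃ b : Ω → Ω, IsDesc W g D (cG L z) (dvZ L W g D z) b := by
  have hex : ∃ Z : Finset F, ∃ b : Ω → Ω, IsDesc W g D (cG L z) Z b :=
    exists_desc (F := F) h2 hW hF.monic hF.deg hF.der (cG L z) h.cG_two h.cG_mul h.cG_loc
  rw [dvZ, dif_pos hex]
  exact Classical.choose_spec hex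

lemma dvZ_eq (hF : Good g D) (h2 : (2 : Ω) ≠ 0) (hW : IsTwist Ω W g D)
    {z : (Ω ≃ₐ[k[X]] Ω) → (W.baseChange Ω).Point} (h : Inf.Adm Ω (GL8 k L Ω) Loc z)
    {Z : Finset F} {b : Ω → Ω} (hb : IsDesc W g D (cG L z) Z b) : dvZ L W g D z = Z := by
  obtain ⟨b', hb'⟩ := dvZ_spec hF h2 hW h
  exact hb'.unique hb h2 hW hF.monic hF.deg hF.der h.cG_two

lemma dvZ_add (hF : Good g D) (h2 : (2 : Ω) ≠ 0) (hW : IsTwist Ω W g D)
    {z z' : (Ω ≃ₐ[k[X]] Ω) → (W.baseChange Ω).Point} (h : Inf.Adm Ω (GL8 k L Ω) Loc z)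
    (h' : Inf.Adm Ω (GL8 k L Ω) Loc z') (hs : Inf.Adm Ω (GL8 k L Ω) Loc (fun σ => z σ + z' σ)) :
    dvZ L W g D (fun σ => z σ + z' σ) = symmDiff (dvZ L W g D z) (dvZ L W g D z') := by
  obtain ⟨b, hb⟩ := dvZ_spec hF h2 hW h
  obtain ⟨b', hb'⟩ := dvZ_spec hF h2 hW h'
  exact dvZ_eq hF h2 hW hs (hb.add8 hb' h2 hW hF.monic hF.deg h'.cG_two)

lemma dvZ_eq_empty_iff (hF : Good g D) (h2 : (2 : Ω) ≠ 0) (hW : IsTwist Ω W g D)
    {z : (Ω ≃ₐ[k[X]] Ω) → (W.baseChange Ω).Point} (h : Inf.Adm Ω (GL8 k L Ω) Loc z) :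
    dvZ L W g D z = ∅ ↔ Inf.Eqv 2 (GL8 k L Ω) z 0 := by
  constructor
  · intro h0
    obtain ⟨b, hb⟩ := dvZ_spec hF h2 hW h
    rw [h0] at hb
    obtain ⟨P, hP, hcP⟩ := hb.coboundary h2 hW hF.monic hF.deg hF.der hF.ne h.cG_two
    refine ⟨P, hP, fun γ hγ => ?_⟩
    have h1 := hcP (ofGL hγ)
    have h3 : cG L z (ofGL hγ) = z γ := by
      unfold cG
      rw [toG_ofGL]
    rw [h3] at h1
    rw [h1]
    change _ - 0 = _
    rw [sub_zero]
    rfl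
  · rintro ⟨a, ha, h1⟩
    have h3 : IsDesc (L := L) W g D (cG L z) ∅
        (fun θ => rho (algebraMap F[X] Ω D * θ) a * 1) := by
      refine IsDesc.twist (IsDesc.zero8 (L := L) (W := W) (g := g) (D := D)) h2 hW hF.monic hF.deg ha
        (c' := cG L z) ?_
      intro σ
      have h4 := h1 _ (toG_mem_GL8 (k := k) σ)
      rw [Pi.zero_apply, sub_zero] at h4
      change z (toG σ) = _
      rw [h4, zero_add]
      rfl
    exact dvZ_eq hF h2 hW h h3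

lemma dvZ_even (hF : Good g D) (h2 : (2 : Ω) ≠ 0) (hW : IsTwist Ω W g D)
    {z : (Ω ≃ₐ[k[X]] Ω) → (W.baseChange Ω).Point} (h : Inf.Adm Ω (GL8 k L Ω) Loc z) (α : F) :
    Even ((dvZ L W g D z).filter fun β => g.eval β = α).card := by
  obtain ⟨b, hb⟩ := dvZ_spec hF h2 hW h
  exact hb.even h2 hW hF.monic hF.deg hF.der hF.ne h.cG_two α

end

section Conj

variable {k F L Ω : Type*} [Field k] [Field F] [Algebra k F] [Algebra.IsAlgebraic k F]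
  [IsAlgClosed F] [Field L] [Field Ω]
  [Algebra F[X] L] [IsFractionRing F[X] L] [Algebra L Ω] [Algebra F[X] Ω] [IsScalarTower F[X] L Ω]
  [Algebra k[X] L] [Algebra k[X] Ω] [IsScalarTower k[X] L Ω]
  [IsGalois L Ω] [IsSepClosed Ω] [IsSepClosure L Ω]

attribute [local instance] actW

variable (hk : ∀ p : k[X], algebraMap k[X] L p = algebraMap F[X] L (p.map (algebraMap k F)))
variable {W : Affine k[X]} {Loc : ((Ω ≃ₐ[k[X]] Ω) → (W.baseChange Ω).Point) → Prop}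
  {g D : k[X]}

lemma dvZ_cj (hF : Good (g.map (algebraMap k F)) (D.map (algebraMap k F))) (h2 : (2 : Ω) ≠ 0)
    (hW : IsTwist Ω W (g.map (algebraMap k F)) (D.map (algebraMap k F)))
    {z : (Ω ≃ₐ[k[X]] Ω) → (W.baseChange Ω).Point} (h : Inf.Adm Ω (GL8 k L Ω) Loc z)
    (γ : Ω ≃ₐ[k[X]] Ω) (h' : Inf.Adm Ω (GL8 k L Ω) Loc (Inf.cj γ z)) :
    dvZ L W (g.map (algebraMap k F)) (D.map (algebraMap k F)) (Inf.cj γ z) =
      (dvZ L W (g.map (algebraMap k F)) (D.map (algebraMap k F)) z).image (resF hk γ) := by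
  obtain ⟨b, hb⟩ := dvZ_spec hF h2 hW h
  apply dvZ_eq hF h2 hW h'
  refine hb.conj (c' := cG L (Inf.cj γ z)) (resF_spec hk γ) (map_fix _ g) (map_fix _ D) ?_
  intro σ
  refine ⟨cj hk γ σ, cj_spec hk γ σ, ?_⟩
  have h3 : γ⁻¹ * toG σ * γ = toG (k := k) (cj hk γ σ) := by
    ext x
    rw [AlgEquiv.mul_apply, AlgEquiv.mul_apply]
    apply γ.injective
    rw [← AlgEquiv.mul_apply γ γ⁻¹, mul_inv_cancel, AlgEquiv.one_apply]
    exact (cj_spec hk γ σ x).symm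
  change γ • z (γ⁻¹ * toG σ * γ) = _
  rw [h3]
  rfl

end Conj

end Pool.Agent.Lib.MP_89bcae_ag
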