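import Mathlib
import Pool.Agent.Lib.MP_89bcae_ag.InfM8

/-!
# The map to the divisors satisfies its axioms
-/

open Polynomial WeierstrassCurve WeierstrassCurve.Affine IsDedekindDomain

open scoped Classical

namespace Pool.Agent.Lib.MP_89bcae_ag

set_option linter.unusedSectionVars false
set_option linter.style.haveILetI false

universe u

section Ind

variable {k F : Type*} [Field k] [Fintype k] [Field F] [Algebra k F] [Algebra.IsAlgebraic k F]
  [IsAlgClosed F] {g D : k[X]} {n : ℕ} {α β : F}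

lemma ind8_symmDiff (Z Z' : Finset F) :
    Orb8.ind8 n β k (symmDiff Z Z') = Orb8.ind8 n β k Z + Orb8.ind8 n β k Z' := by
  funext t
  rw [Pi.add_apply]
  unfold Orb8.ind8
  by_cases h1 : e8 k β t ∈ Z <;> by_cases h2 : e8 k β t ∈ Z' <;>
    simp [Finset.mem_symmDiff, h1, h2]
  decide

lemma ind8_eq_zero (h : Orb8 g D n α β) {Z : Finset F}
    (hZ : ∀ γ ∈ Z, aeval γ (D.comp g) = 0) (h0 : Orb8.ind8 n β k Z = 0) : Z = ∅ := by
  rw [Finset.eq_empty_iff_forall_notMem]
  intro γ hγ
  obtain ⟨t, rfl⟩ := h.e_surj (hZ γ hγ)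
  have h1 := congrFun h0 t
  rw [Orb8.ind8, if_pos hγ] at h1
  exact one_ne_zero h1

lemma ind8_image (h : Orb8 g D n α β) (Z : Finset F) :
    Orb8.ind8 n β k (Z.image (frob8 k F)) = Inf.S8 (3 * n) (Orb8.ind8 n β k Z) := by
  funext t
  change _ = Orb8.ind8 n β k Z (t - 1)
  unfold Orb8.ind8
  apply if_congr _ rfl rfl
  have h1 : e8 k β t = frob8 k F (e8 k β (t - 1)) := by
    have h3 := h.e_add_natCast (t - 1) 1
    rw [Nat.cast_one, sub_add_cancel, pow_one] at h3
    exact h3
  rw [h1, Finset.mem_image]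
  constructor
  · rintro ⟨x, hx, hxt⟩
    rwa [← (frob8 k F).injective hxt]
  · intro hx
    exact ⟨_, hx, rfl⟩

end Ind

section Root

variable {k F L Ω : Type u} [Field k] [Field F] [Algebra k F] [Algebra.IsAlgebraic k F]
  [IsAlgClosed F] [Field L] [Algebra F[X] L] [IsFractionRing F[X] L] [Field Ω]
  [Algebra L Ω] [IsGalois L Ω] [IsSepClosed Ω] [IsSepClosure L Ω]

/-- The divisors are supported by the roots of `D ∘ g`. -/
theorem dvZ_root {g D : k[X]} (hgood : Good g 1) {r : ℕ} {s : Ω}
    (hs : s ^ (2 ^ r) = base k F L Ω D)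
    {z : letI := algK k F L Ω
      (Ω ≃ₐ[k[X]] Ω) → ((twist g 1).map (base k F L Ω)).toAffine.Point}
    (hz : letI := algK k F L L
      letI := algK k F L Ω
      haveI : IsScalarTower k[X] L Ω := IsScalarTower.of_algebraMap_eq fun _ => rfl
      letI := actW (k := k) (Ω := Ω) (twist g 1).toAffine
      Inf.Adm (A := ((twist g 1).toAffine.baseChange Ω).Point) Ω (GL8 k L Ω)
        (LocS (twist g 1) s) z) :
    letI := algK k F L L
    letI := algK k F L Ω
    letI := algF F L Ω
    haveI : IsScalarTower k[X] L Ω := IsScalarTower.of_algebraMap_eq fun _ => rfl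
    ∀ β ∈ dvZ L (twist g 1).toAffine (g.map (algebraMap k F)) ((1 : k[X]).map (algebraMap k F)) z,
      aeval β (D.comp g) = 0 := by
  letI := algK k F L L
  letI := algK k F L Ω
  letI := algF F L Ω
  haveI : IsScalarTower F[X] L Ω := IsScalarTower.of_algebraMap_eq fun _ => rfl
  haveI : IsScalarTower k[X] L Ω := IsScalarTower.of_algebraMap_eq fun _ => rfl
  letI := actW (k := k) (Ω := Ω) (twist g 1).toAffine
  have hk : ∀ p : k[X], algebraMap k[X] L p = algebraMap F[X] L (p.map (algebraMap k F)) :=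
    fun _ => rfl
  have hF := hgood.map F
  have h2Ω : (2 : Ω) ≠ 0 := two_ne_zero_Om (F := F) L Ω hF.two
  have hW : IsTwist Ω (twist g 1).toAffine (g.map (algebraMap k F))
      ((1 : k[X]).map (algebraMap k F)) := (isTwist_twist hk).up
  intro β hβ
  by_contra hD
  have hDF : ∀ γ : F, aeval γ (D.comp g) =
      (D.map (algebraMap k F)).eval ((g.map (algebraMap k F)).eval γ) := by
    intro γ
    rw [aeval_comp, eval_map_algebraMap, eval_map_algebraMap]
  rw [hDF] at hD
  obtain ⟨b, hb⟩ := dvZ_spec hF h2Ω hW hz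
  have hroot : ∀ β' ∈ dvZ L (twist g 1).toAffine (g.map (algebraMap k F))
      ((1 : k[X]).map (algebraMap k F)) z,
      (D.map (algebraMap k F)).eval ((g.map (algebraMap k F)).eval β') ≠ 0 →
      (derivative (g.map (algebraMap k F))).eval β' = 0 := by
    intro β' hβ' hD'
    apply eval_eq_zero_of_isLocallyTrivial7 hgood (cG L z) hz.cG_two hb hβ'
    · exact LTOn.isLocallyTrivial hF.two hD' hs (hz.loc _)
    · rw [Polynomial.map_one, eval_one]
      exact one_ne_zero
  have h1 := hb.even h2Ω hW hF.monic hF.deg hF.der hF.ne hz.cG_two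
    ((g.map (algebraMap k F)).eval β)
  have h2 : (dvZ L (twist g 1).toAffine (g.map (algebraMap k F))
      ((1 : k[X]).map (algebraMap k F)) z).filter
      (fun β' => (g.map (algebraMap k F)).eval β' = (g.map (algebraMap k F)).eval β) = {β} := by
    ext β'
    rw [Finset.mem_filter, Finset.mem_singleton]
    constructor
    · rintro ⟨h3, h4⟩
      exact double_root_unique hF.monic hF.deg h4 (hroot β' h3 (by rw [h4]; exact hD))
        (hroot β hβ hD)
    · rintro rfl
      exact ⟨hβ, rfl⟩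
  rw [h2, Finset.card_singleton] at h1
  exact absurd h1 (by decide)

/-- The map to the divisors. -/
noncomputable def dv8 [Fintype k] (L : Type u) {Ω : Type u} [Field L] [Algebra F[X] L] [Field Ω]
    [Algebra L Ω] (g : k[X]) (n : ℕ) (β : F)
    (z : letI := algK k F L Ω
      (Ω ≃ₐ[k[X]] Ω) → ((twist g 1).map (base k F L Ω)).toAffine.Point) : ZMod (3 * n) → ZMod 2 :=
  letI := algK k F L L
  letI := algK k F L Ω
  letI := algF F L Ω
  haveI : IsScalarTower k[X] L Ω := IsScalarTower.of_algebraMap_eq fun _ => rfl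
  Orb8.ind8 n β k (dvZ L (twist g 1).toAffine (g.map (algebraMap k F))
    ((1 : k[X]).map (algebraMap k F)) z)

theorem dvAx8 [Fintype k] {g D : k[X]} (hgood : Good g 1) {n : ℕ} {α β : F}
    (ho : Orb8 g D n α β) {r : ℕ} {s : Ω}
    (hs : s ^ (2 ^ r) = base k F L Ω D)
    (hsa : letI := algK k F L Ω
      ∀ γ : Ω ≃ₐ[k[X]] Ω, ∃ a : F, γ s = algebraMap L Ω (algebraMap F[X] L (C a)) * s)
    (hGn : letI := algK k F L L
      letI := algK k F L Ω
      haveI : IsScalarTower k[X] L Ω := IsScalarTower.of_algebraMap_eq fun _ => rfl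
      (GL8 k L Ω).Normal)
    {φ : letI := algK k F L Ω
      (Ω ≃ₐ[k[X]] Ω)}
    (hφ : letI := algK k F L L
      letI := algK k F L Ω
      letI := algF F L Ω
      haveI : IsScalarTower F[X] L Ω := IsScalarTower.of_algebraMap_eq fun _ => rfl
      haveI : IsScalarTower k[X] L Ω := IsScalarTower.of_algebraMap_eq fun _ => rfl
      resF (k := k) (F := F) (L := L) (Ω := Ω) (fun _ => rfl) φ = frob8 k F) :
    letI := algK k F L L
    letI := algK k F L Ω
    haveI : IsScalarTower k[X] L Ω := IsScalarTower.of_algebraMap_eq fun _ => rfl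
    letI := actW (k := k) (Ω := Ω) (twist g 1).toAffine
    Inf.DvAx (A := ((twist g 1).toAffine.baseChange Ω).Point) Ω (GL8 k L Ω)
      (LocS (twist g 1) s) φ (Inf.S8 (3 * n)) (dv8 L g n β) := by
  letI := algK k F L L
  letI := algK k F L Ω
  letI := algF F L Ω
  haveI : IsScalarTower F[X] L Ω := IsScalarTower.of_algebraMap_eq fun _ => rfl
  haveI : IsScalarTower k[X] L Ω := IsScalarTower.of_algebraMap_eq fun _ => rfl
  letI := actW (k := k) (Ω := Ω) (twist g 1).toAffine
  have hk : ∀ p : k[X], algebraMap k[X] L p = algebraMap F[X] L (p.map (algebraMap k F)) :=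
    fun _ => rfl
  have hF := hgood.map F
  have h2Ω : (2 : Ω) ≠ 0 := two_ne_zero_Om (F := F) L Ω hF.two
  have hW : IsTwist Ω (twist g 1).toAffine (g.map (algebraMap k F))
      ((1 : k[X]).map (algebraMap k F)) := (isTwist_twist hk).up
  have hL := locAx_LocS (k := k) (F := F) (L := L) (Ω := Ω) (twist g 1) hsa
  refine ⟨?_, ?_, ?_⟩
  · intro z z' hz hz'
    have hzz : Inf.Adm (A := ((twist g 1).toAffine.baseChange Ω).Point) Ω (GL8 k L Ω)
        (LocS (twist g 1) s) (fun σ => z σ + z' σ) :=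
      ⟨hz.co.add hz'.co, fun σ hσ => by rw [smul_add, hz.two σ hσ, hz'.two σ hσ, add_zero],
        hz.sm.add hz'.sm, hL.add hz.loc hz'.loc⟩
    unfold dv8
    rw [dvZ_add hF h2Ω hW hz hz' hzz, ind8_symmDiff]
  · intro z hz
    rw [← dvZ_eq_empty_iff hF h2Ω hW hz]
    constructor
    · intro h0
      exact ind8_eq_zero ho (dvZ_root hgood hs hz) h0
    · intro h0
      unfold dv8
      rw [h0]
      funext t
      exact if_neg (Finset.notMem_empty _)
  · intro z hz
    have hcj : Inf.Adm (A := ((twist g 1).toAffine.baseChange Ω).Point) Ω (GL8 k L Ω)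
        (LocS (twist g 1) s) (Inf.cj φ z) := by
      have hGc : ∀ σ ∈ GL8 k L Ω, φ⁻¹ * σ * φ ∈ GL8 k L Ω := fun σ hσ => by
        have := hGn.conj_mem σ hσ φ⁻¹
        rwa [inv_inv] at this
      refine ⟨hz.co.cj hGc, fun σ hσ => ?_, hz.sm.cj hGc, hL.cj φ hz.loc⟩
      simp only [Inf.cj]
      rw [smul_comm, hz.two _ (hGc σ hσ), smul_zero]
    unfold dv8
    rw [dvZ_cj hk hF h2Ω hW hz φ hcj]
    rw [hφ]
    exact ind8_image ho _

theorem dv8_even [Fintype k] {g D : k[X]} (hgood : Good g 1) {n : ℕ} {α β : F}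
    (ho : Orb8 g D n α β) {r : ℕ} {s : Ω}
    (hs : s ^ (2 ^ r) = base k F L Ω D)
    {z : letI := algK k F L Ω
      (Ω ≃ₐ[k[X]] Ω) → ((twist g 1).map (base k F L Ω)).toAffine.Point}
    (hz : letI := algK k F L L
      letI := algK k F L Ω
      haveI : IsScalarTower k[X] L Ω := IsScalarTower.of_algebraMap_eq fun _ => rfl
      letI := actW (k := k) (Ω := Ω) (twist g 1).toAffine
      Inf.Adm (A := ((twist g 1).toAffine.baseChange Ω).Point) Ω (GL8 k L Ω)
        (LocS (twist g 1) s) z) : dv8 L g n β z ∈ even8 (3 * n) n := by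
  letI := algK k F L L
  letI := algK k F L Ω
  letI := algF F L Ω
  haveI : IsScalarTower F[X] L Ω := IsScalarTower.of_algebraMap_eq fun _ => rfl
  haveI : IsScalarTower k[X] L Ω := IsScalarTower.of_algebraMap_eq fun _ => rfl
  letI := actW (k := k) (Ω := Ω) (twist g 1).toAffine
  have hk : ∀ p : k[X], algebraMap k[X] L p = algebraMap F[X] L (p.map (algebraMap k F)) :=
    fun _ => rfl
  have hF := hgood.map F
  have h2Ω : (2 : Ω) ≠ 0 := two_ne_zero_Om (F := F) L Ω hF.two
  have hW : IsTwist Ω (twist g 1).toAffine (g.map (algebraMap k F))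
      ((1 : k[X]).map (algebraMap k F)) := (isTwist_twist hk).up
  refine ho.ind8_mem ?_ (dvZ_root hgood hs hz)
  intro a
  have := dvZ_even hF h2Ω hW hz a
  simpa only [eval_map_algebraMap] using this

end Root

end Pool.Agent.Lib.MP_89bcae_ag
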