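import Mathlib
import Pool.Agent.Lib.MP_89bcae_ag.DinfF14
import Pool.Agent.Lib.MP_89bcae_ag.InfN8

/-!
# The formula for the divisors, for functions on the group of automorphisms over `k(t)`
-/

open Polynomial WeierstrassCurve WeierstrassCurve.Affine IsDedekindDomain

open scoped Classical

namespace Pool.Agent.Lib.MP_89bcae_ag

set_option linter.unusedSectionVars false
set_option linter.style.haveILetI false

section

variable {k F L Ω : Type*} [Field k] [Field F] [Algebra k F] [Algebra.IsAlgebraic k F]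
  [IsAlgClosed F] [Field L] [Field Ω]
  [Algebra F[X] L] [IsFractionRing F[X] L] [Algebra L Ω] [Algebra F[X] Ω] [IsScalarTower F[X] L Ω]
  [Algebra k[X] L] [Algebra k[X] Ω] [IsScalarTower k[X] L Ω]
  [IsGalois L Ω] [IsSepClosed Ω] [IsSepClosure L Ω]

attribute [local instance] actW

variable (hk : ∀ p : k[X], algebraMap k[X] L p = algebraMap F[X] L (p.map (algebraMap k F)))
variable {W : Affine k[X]} {Loc Loc' : ((Ω ≃ₐ[k[X]] Ω) → (W.baseChange Ω).Point) → Prop}
  {g D E : k[X]}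

/-- The extension by zero of a cocycle of the stabiliser of `s` is locally constant. -/
lemma loc_ext14 {s : Ω} {y : (Ω ≃ₐ[k[X]] Ω) → (W.baseChange Ω).Point}
    (hy : Inf.Adm Ω (HS8 k L s) Loc y) :
    IsLocallyConstant (fun σ : Ω ≃ₐ[L] Ω => if σ s = s then y (toG σ) else 0) := by
  obtain ⟨S, hS⟩ := hy.sm
  rw [IsLocallyConstant.iff_exists_open]
  intro σ
  have hfin : FiniteDimensional L (IntermediateField.adjoin L (insert s S : Set Ω)) :=
    IntermediateField.finiteDimensional_adjoin fun x _ => Algebra.IsIntegral.isIntegral x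
  have hopen := IntermediateField.fixingSubgroup_isOpen
    (IntermediateField.adjoin L (insert s S : Set Ω))
  refine ⟨(fun h => σ⁻¹ * h) ⁻¹' ((IntermediateField.adjoin L (insert s S : Set Ω)).fixingSubgroup :
    Set (Ω ≃ₐ[L] Ω)), hopen.preimage (continuous_const_mul σ⁻¹), ?_, ?_⟩
  · simp only [Set.mem_preimage, inv_mul_cancel]
    exact Subgroup.one_mem _
  · intro h hh
    have h1 : ∀ x ∈ (insert s S : Set Ω), (σ⁻¹ * h) x = x := fun x hx =>
      (IntermediateField.mem_fixingSubgroup_iff _ _).mp hh x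
        (IntermediateField.subset_adjoin L (insert s S : Set Ω) hx)
    have h2 : (σ⁻¹ * h) s = s := h1 s (Set.mem_insert _ _)
    have h3 : h s = σ s := by
      have := congrArg σ h2
      rw [← AlgEquiv.mul_apply, mul_inv_cancel_left] at this
      exact this
    change (if h s = s then y (toG h) else 0) = if σ s = s then y (toG σ) else 0
    rw [h3]
    by_cases hs : σ s = s
    · rw [if_pos hs, if_pos hs]
      have h4 := hy.co _ (toG_mem_HS8.mpr hs) _ (toG_mem_HS8 (k := k).mpr h2)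
      rw [← toG_mul, mul_inv_cancel_left] at h4
      rw [h4, hS _ (toG_mem_HS8.mpr h2) (fun x hx => h1 x (Set.mem_insert_of_mem _ hx)), smul_zero,
        add_zero]
    · rw [if_neg hs, if_neg hs]

/-- **The formula for the divisors.** -/
theorem dvZ_formula14 (hG : Good g D) (hGE : Good g E) (hsep : (D.comp g).Separable)
    (hW : IsTwist Ω W (g.map (algebraMap k F)) (E.map (algebraMap k F)))
    {s : Ω} (hs : s ^ 2 = algebraMap F[X] Ω (D.map (algebraMap k F)))
    {γ : Ω ≃ₐ[k[X]] Ω} (hγs : γ s = s)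
    (hγ : ∀ β, (D.map (algebraMap k F)).eval ((g.map (algebraMap k F)).eval β) = 0 →
      resF hk γ β = β)
    {τ : Ω ≃ₐ[k[X]] Ω} (hτ : τ ∈ GL8 k L Ω) (hτs : τ s = -s)
    {y z z' : (Ω ≃ₐ[k[X]] Ω) → (W.baseChange Ω).Point} {a a' : (W.baseChange Ω).Point}
    (hz : Inf.Adm Ω (GL8 k L Ω) Loc z) (hz' : Inf.Adm Ω (GL8 k L Ω) Loc z')
    (hy : Inf.Adm Ω (HS8 k L s) Loc' y) (ha : 2 • a = 0) (ha' : 2 • a' = 0)
    (h1 : ∀ σ ∈ HS8 k L s, y σ - Inf.cj τ y σ = z σ + Inf.cob a σ)
    (h2 : ∀ σ ∈ HS8 k L s, Inf.cj γ y σ - y σ = z' σ + Inf.cob a' σ)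
    (hZ : ∀ c ∈ dvZ L W (g.map (algebraMap k F)) (E.map (algebraMap k F)) z,
      (D.map (algebraMap k F)).eval ((g.map (algebraMap k F)).eval c) = 0)
    {β : F} (hβ : (D.map (algebraMap k F)).eval ((g.map (algebraMap k F)).eval β) = 0)
    (hβZ : β ∉ dvZ L W (g.map (algebraMap k F)) (E.map (algebraMap k F)) z) :
    β ∈ dvZ L W (g.map (algebraMap k F)) (E.map (algebraMap k F)) z' ↔
      Moves ((resF hk γ : F ≃ₐ[k] F) : F →+* F)
        (∏ c ∈ dvZ L W (g.map (algebraMap k F)) (E.map (algebraMap k F)) z, (β - c)) := by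
  have hFE := hGE.map F
  have h2Ω : (2 : Ω) ≠ 0 := two_ne_zero_Om (F := F) L Ω hFE.two
  obtain ⟨b, hb⟩ := dvZ_spec hFE h2Ω hW hz
  obtain ⟨b', hb'⟩ := dvZ_spec hFE h2Ω hW hz'
  have hιs : (ofGL hτ) s = -s := hτs
  have hconj : ∀ h : Ω ≃ₐ[L] Ω, h s = s → ((ofGL hτ)⁻¹ * h * ofGL hτ) s = s := by
    intro h hh
    apply (ofGL hτ).injective
    rw [← AlgEquiv.mul_apply, ← mul_assoc, mul_inv_cancel_left, AlgEquiv.mul_apply, hιs, map_neg, hh]
  have hr : Rel2 W s γ (ofGL hτ) (fun σ : Ω ≃ₐ[L] Ω => if σ s = s then y (toG σ) else 0)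
      (cG L z) (cG L z') a a' := by
    refine ⟨?_, ?_, hz.cG_two, hz.cG_mul, hz'.cG_two, ha, ha', ?_, ?_⟩
    · intro σ hσ
      simp only [if_pos hσ]
      exact hy.two _ (toG_mem_HS8.mpr hσ)
    · intro σ τ' hσ hτ'
      have h3 : (σ * τ') s = s := by rw [AlgEquiv.mul_apply, hτ', hσ]
      simp only [if_pos hσ, if_pos hτ', if_pos h3]
      rw [toG_mul, hy.co _ (toG_mem_HS8.mpr hσ) _ (toG_mem_HS8.mpr hτ')]
      rfl
    · intro h hh
      have h3 := hconj h hh
      simp only [if_pos hh, if_pos h3]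
      have h4 := h1 _ (toG_mem_HS8.mpr hh)
      have h5 : τ⁻¹ * toG h * τ = toG (k := k) ((ofGL hτ)⁻¹ * h * ofGL hτ) := by
        rw [toG_mul, toG_mul, toG_inv, toG_ofGL]
      rw [Inf.cj, h5] at h4
      exact h4
    · intro σ' σ hσσ hσ
      have hσ' : σ' s = s := by
        apply γ.injective
        rw [hσσ, hγs, hσ]
      simp only [if_pos hσ, if_pos hσ']
      have h4 := h2 _ (toG_mem_HS8.mpr hσ)
      have h5 : γ⁻¹ * toG σ * γ = toG (k := k) σ' := by
        ext x
        rw [AlgEquiv.mul_apply, AlgEquiv.mul_apply]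
        apply γ.injective
        rw [← AlgEquiv.mul_apply γ γ⁻¹, mul_inv_cancel, AlgEquiv.one_apply]
        exact (hσσ x).symm
      rw [Inf.cj, h5, sub_eq_iff_eq_add'] at h4
      rw [add_assoc]
      exact h4
  exact formula14 hk hG hsep hW hGE.ne hs hγs hγ hιs hr (loc_ext14 hy) hb hb' hZ hβ hβZ

end

end Pool.Agent.Lib.MP_89bcae_ag
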