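import Mathlib

/-!
# The orbit of a root of `D ∘ g` under an automorphism
-/

open Polynomial IntermediateField

namespace Pool.Agent.Lib.MP_89bcae_ag

set_option linter.unusedSectionVars false

section Aut

variable {k F : Type*} [Field k] [Field F] [Algebra k F] (φ : F ≃ₐ[k] F)

lemma autP_pow_pow (i m : ℕ) {x : F} (h : (φ ^ i) x = x) : (φ ^ (i * m)) x = x := by
  induction m with
  | zero => simp
  | succ m ih => rw [Nat.mul_succ, pow_add, AlgEquiv.mul_apply, h, ih]

lemma autP_pow_mod {N : ℕ} (i : ℕ) {x : F} (h : (φ ^ N) x = x) :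
    (φ ^ (i % N)) x = (φ ^ i) x := by
  conv_rhs => rw [← Nat.mod_add_div i N, pow_add, AlgEquiv.mul_apply, autP_pow_pow φ N _ h]

lemma autP_pow_inj {x : F} {N a b : ℕ} (h : ∀ i, (φ ^ i) x = x ↔ N ∣ i) :
    (φ ^ a) x = (φ ^ b) x ↔ a ≡ b [MOD N] := by
  rcases le_total a b with hle | hle
  · have h1 : (φ ^ a) x = (φ ^ b) x ↔ (φ ^ (b - a)) x = x := by
      constructor
      · intro h1
        apply (φ ^ a).injective
        rw [← AlgEquiv.mul_apply, ← pow_add, Nat.add_sub_cancel' hle]
        exact h1.symm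
      · intro h1
        rw [← Nat.add_sub_cancel' hle, pow_add, AlgEquiv.mul_apply, h1]
    rw [h1, h, Nat.modEq_iff_dvd' hle]
  · have h1 : (φ ^ a) x = (φ ^ b) x ↔ (φ ^ (a - b)) x = x := by
      constructor
      · intro h1
        apply (φ ^ b).injective
        rw [← AlgEquiv.mul_apply, ← pow_add, Nat.add_sub_cancel' hle]
        exact h1
      · intro h1
        rw [← Nat.add_sub_cancel' hle, pow_add, AlgEquiv.mul_apply, h1]
    rw [h1, h, Nat.ModEq.comm, Nat.modEq_iff_dvd' hle]

lemma aeval_autP (i : ℕ) (p : k[X]) (x : F) :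
    aeval ((φ ^ i) x) p = (φ ^ i) (aeval x p) := by
  rw [← AlgEquiv.coe_toAlgHom (φ ^ _), aeval_algHom_apply]

end Aut

variable {k F : Type*} [Field k] [Field F] [Algebra k F] {φ : F ≃ₐ[k] F}

/-- The roots of the polynomial `D ∘ g` form an orbit of length `3 n` of the automorphism `φ`, `α` is
a root of `D` and `β` one of `g - α`. -/
structure OrbP8 (φ : F ≃ₐ[k] F) (g D : k[X]) (n : ℕ) (α β : F) : Prop where
  monic : g.Monic
  deg : g.natDegree = 3
  pos : 0 < n
  degD : D.natDegree = n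
  gβ : aeval β g = α
  Dα : aeval α D = 0
  orb : ∀ γ : F, aeval γ (D.comp g) = 0 → ∃ i : ℕ, γ = (φ ^ i) β
  beta_iff : ∀ i : ℕ, (φ ^ i) β = β ↔ 3 * n ∣ i

namespace OrbP8

variable {g D : k[X]} {n : ℕ} {α β : F}

lemma root (h : OrbP8 φ g D n α β) : aeval β (D.comp g) = 0 := by
  rw [aeval_comp, h.gβ, h.Dα]

lemma ne_zero (h : OrbP8 φ g D n α β) : D ≠ 0 := by
  rintro rfl
  have h1 := h.degD
  have := h.pos
  rw [natDegree_zero] at h1
  omega

lemma natDegree_comp (h : OrbP8 φ g D n α β) : (D.comp g).natDegree = 3 * n := by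
  rw [Polynomial.natDegree_comp, h.deg, h.degD, mul_comm]

lemma comp_ne (h : OrbP8 φ g D n α β) : D.comp g ≠ 0 := by
  intro h0
  have h1 := h.natDegree_comp
  rw [h0, natDegree_zero] at h1
  have := h.pos
  omega

end OrbP8

/-- The points of the orbit. -/
noncomputable def eP8 (φ : F ≃ₐ[k] F) {N : ℕ} (β : F) (u : ZMod N) : F := (φ ^ u.val) β

namespace OrbP8

variable {g D : k[X]} {n : ℕ} {α β : F}

lemma e_natCast (h : OrbP8 φ g D n α β) (i : ℕ) :
    eP8 φ β (i : ZMod (3 * n)) = (φ ^ i) β := by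
  have : NeZero (3 * n) := ⟨by have := h.pos; omega⟩
  rw [eP8, ZMod.val_natCast, autP_pow_mod φ _ ((h.beta_iff _).mpr dvd_rfl)]

lemma e_add (h : OrbP8 φ g D n α β) (u v : ZMod (3 * n)) :
    eP8 φ β (u + v) = (φ ^ v.val) (eP8 φ β u) := by
  have : NeZero (3 * n) := ⟨by have := h.pos; omega⟩
  have h1 : u + v = ((v.val + u.val : ℕ) : ZMod (3 * n)) := by
    rw [Nat.cast_add, ZMod.natCast_zmod_val, ZMod.natCast_zmod_val, add_comm]
  rw [h1, h.e_natCast, pow_add, AlgEquiv.mul_apply, eP8]

lemma e_add_natCast (h : OrbP8 φ g D n α β) (u : ZMod (3 * n)) (i : ℕ) :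
    eP8 φ β (u + (i : ZMod (3 * n))) = (φ ^ i) (eP8 φ β u) := by
  have : NeZero (3 * n) := ⟨by have := h.pos; omega⟩
  have h1 : u + (i : ZMod (3 * n)) = ((i + u.val : ℕ) : ZMod (3 * n)) := by
    rw [Nat.cast_add, ZMod.natCast_zmod_val, add_comm]
  rw [h1, h.e_natCast, pow_add, AlgEquiv.mul_apply, eP8]

lemma e_zero : eP8 φ β (0 : ZMod (3 * n)) = β := by
  rw [eP8, ZMod.val_zero, pow_zero, AlgEquiv.one_apply]

lemma e_injective (h : OrbP8 φ g D n α β) :
    Function.Injective (eP8 φ β : ZMod (3 * n) → F) := by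
  have : NeZero (3 * n) := ⟨by have := h.pos; omega⟩
  intro u v huv
  rw [eP8, eP8, autP_pow_inj φ h.beta_iff] at huv
  apply ZMod.val_injective
  rw [Nat.ModEq, Nat.mod_eq_of_lt (ZMod.val_lt u), Nat.mod_eq_of_lt (ZMod.val_lt v)] at huv
  exact huv

lemma e_surj (h : OrbP8 φ g D n α β) {γ : F} (hγ : aeval γ (D.comp g) = 0) :
    ∃ u : ZMod (3 * n), eP8 φ β u = γ := by
  obtain ⟨i, rfl⟩ := h.orb γ hγ
  exact ⟨i, h.e_natCast i⟩

lemma e_root (h : OrbP8 φ g D n α β) (u : ZMod (3 * n)) : aeval (eP8 φ β u) (D.comp g) = 0 := by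
  rw [eP8, aeval_autP, h.root, map_zero]

lemma g_e (h : OrbP8 φ g D n α β) (u : ZMod (3 * n)) :
    aeval (eP8 φ β u) g = (φ ^ u.val) α := by
  rw [eP8, aeval_autP, h.gβ]

/-- The roots of `D ∘ g` are distinct. -/
lemma separable (h : OrbP8 φ g D n α β) : (D.comp g).Separable := by
  classical
  have : NeZero (3 * n) := ⟨by have := h.pos; omega⟩
  have h0 := h.comp_ne
  have h0' : (D.comp g).map (algebraMap k F) ≠ 0 := (Polynomial.map_ne_zero h0)
  have hcard : (Finset.univ.image (eP8 φ β : ZMod (3 * n) → F)).card = 3 * n := by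
    rw [Finset.card_image_of_injective _ h.e_injective, Finset.card_univ, ZMod.card]
  have hsub : (Finset.univ.image (eP8 φ β : ZMod (3 * n) → F)).val ≤
      ((D.comp g).map (algebraMap k F)).roots := by
    rw [Finset.val_le_iff_val_subset]
    intro y hy
    have hy' : y ∈ Finset.univ.image (eP8 φ β : ZMod (3 * n) → F) := hy
    rw [Finset.mem_image] at hy'
    obtain ⟨u, -, rfl⟩ := hy'
    rw [mem_roots h0', IsRoot.def, eval_map_algebraMap]
    exact h.e_root u
  have hdeg : ((D.comp g).map (algebraMap k F)).natDegree = 3 * n := by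
    rw [natDegree_map, h.natDegree_comp]
  have heq : (Finset.univ.image (eP8 φ β : ZMod (3 * n) → F)).val =
      ((D.comp g).map (algebraMap k F)).roots := by
    apply Multiset.eq_of_le_of_card_le hsub
    rw [Finset.card_val, hcard, ← hdeg]
    exact card_roots' _
  rw [← separable_map (algebraMap k F)]
  have hsp : ((D.comp g).map (algebraMap k F)).Splits := by
    rw [splits_iff_card_roots, ← heq, Finset.card_val, hcard, hdeg]
  rw [← nodup_roots_iff_of_splits h0' hsp, ← heq]
  exact Finset.nodup _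

lemma alpha_iff (h : OrbP8 φ g D n α β) (i : ℕ) : (φ ^ i) α = α ↔ n ∣ i := by
  classical
  have hpos := h.pos
  set m := Function.minimalPeriod φ α with hm
  have hit : ∀ i : ℕ, (φ ^ i) α = α ↔ m ∣ i := by
    intro i
    rw [hm, ← Function.isPeriodicPt_iff_minimalPeriod_dvd, Function.IsPeriodicPt,
      Function.IsFixedPt, ← AlgEquiv.coe_pow]
  have hgβ : ∀ i : ℕ, aeval ((φ ^ i) β) g = (φ ^ i) α := by
    intro i
    rw [aeval_autP, h.gβ]
  have hm0 : 0 < m := by
    have h1 : (φ ^ (3 * n)) α = α := by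
      rw [← hgβ, (h.beta_iff _).mpr dvd_rfl, h.gβ]
    rw [hit] at h1
    exact Nat.pos_of_dvd_of_pos h1 (by omega)
  -- the orbit of `α` consists of roots of `D`
  have hmn : m ≤ n := by
    have hD0 : D.map (algebraMap k F) ≠ 0 := Polynomial.map_ne_zero h.ne_zero
    have hinj : Set.InjOn (fun i : ℕ => (φ ^ i) α) (Finset.range m : Set ℕ) := by
      intro a ha b hb hab
      rw [Finset.mem_coe, Finset.mem_range] at ha hb
      have h1 := (autP_pow_inj φ hit).mp hab
      rwa [Nat.ModEq, Nat.mod_eq_of_lt ha, Nat.mod_eq_of_lt hb] at h1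
    have h2 : ((Finset.range m).image fun i : ℕ => (φ ^ i) α) ⊆
        (D.map (algebraMap k F)).roots.toFinset := by
      intro y hy
      rw [Finset.mem_image] at hy
      obtain ⟨a, -, rfl⟩ := hy
      rw [Multiset.mem_toFinset, mem_roots hD0, IsRoot.def, eval_map_algebraMap, aeval_autP, h.Dα,
        map_zero]
    have h3 := Finset.card_le_card h2
    rw [Finset.card_image_of_injOn hinj, Finset.card_range] at h3
    calc m ≤ _ := h3
      _ ≤ Multiset.card (D.map (algebraMap k F)).roots := Multiset.toFinset_card_le _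
      _ ≤ (D.map (algebraMap k F)).natDegree := card_roots' _
      _ = n := by rw [natDegree_map, h.degD]
  -- the fibre of `α` has at most three elements
  have hnm : n ≤ m := by
    by_contra hlt
    push Not at hlt
    have hmon : (g.map (algebraMap k F) - C α).Monic := by
      apply Monic.sub_of_left (h.monic.map _)
      rw [degree_eq_natDegree (h.monic.map (algebraMap k F)).ne_zero, h.monic.natDegree_map, h.deg]
      exact lt_of_le_of_lt degree_C_le (by norm_num)
    have hdeg : (g.map (algebraMap k F) - C α).natDegree = 3 := by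
      rw [natDegree_sub_C, h.monic.natDegree_map, h.deg]
    have hinj : Set.InjOn (fun c : ℕ => (φ ^ (m * c)) β) (Finset.range 4 : Set ℕ) := by
      intro a ha b hb hab
      rw [Finset.mem_coe, Finset.mem_range] at ha hb
      have h1 := (autP_pow_inj φ h.beta_iff).mp hab
      have ha' : m * a ≤ m * 3 := Nat.mul_le_mul_left m (by omega)
      have hb' : m * b ≤ m * 3 := Nat.mul_le_mul_left m (by omega)
      rw [Nat.ModEq, Nat.mod_eq_of_lt (by omega), Nat.mod_eq_of_lt (by omega)] at h1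
      exact Nat.eq_of_mul_eq_mul_left hm0 h1
    have h2 : ((Finset.range 4).image fun c : ℕ => (φ ^ (m * c)) β) ⊆
        (g.map (algebraMap k F) - C α).roots.toFinset := by
      intro y hy
      rw [Finset.mem_image] at hy
      obtain ⟨a, -, rfl⟩ := hy
      rw [Multiset.mem_toFinset, mem_roots hmon.ne_zero, IsRoot.def, eval_sub, eval_C,
        eval_map_algebraMap, hgβ, (hit _).mpr (dvd_mul_right _ _), sub_self]
    have h3 := Finset.card_le_card h2
    rw [Finset.card_image_of_injOn hinj, Finset.card_range] at h3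
    have h4 : 4 ≤ 3 := calc
      4 ≤ _ := h3
      _ ≤ Multiset.card (g.map (algebraMap k F) - C α).roots := Multiset.toFinset_card_le _
      _ ≤ (g.map (algebraMap k F) - C α).natDegree := card_roots' _
      _ = 3 := hdeg
    omega
  rw [hit, le_antisymm hmn hnm]

lemma g_e_eq_iff (h : OrbP8 φ g D n α β) (u v : ZMod (3 * n)) :
    aeval (eP8 φ β u) g = aeval (eP8 φ β v) g ↔
      u - v = 0 ∨ u - v = (n : ℕ) ∨ u - v = (2 * n : ℕ) := by
  have hpos := h.pos
  have : NeZero (3 * n) := ⟨by omega⟩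
  have h1 : u = (u - v) + v := by ring
  set w := u - v with hw
  have h2 : aeval (eP8 φ β u) g = (φ ^ v.val) (aeval (eP8 φ β w) g) := by
    rw [h1, h.e_add, aeval_autP]
  have h3 : aeval (eP8 φ β v) g = (φ ^ v.val) α := h.g_e v
  rw [h2, h3, (φ ^ v.val).injective.eq_iff, h.g_e, h.alpha_iff]
  constructor
  · rintro ⟨c, hc⟩
    have h4 := ZMod.val_lt w
    rw [hc] at h4
    have h5 : c < 3 := by
      by_contra h6
      have : n * 3 ≤ n * c := Nat.mul_le_mul_left n (by omega)
      omega
    have h6 : w = ((n * c : ℕ) : ZMod (3 * n)) := by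
      rw [← hc, ZMod.natCast_zmod_val]
    interval_cases c
    · left; rw [h6, mul_zero, Nat.cast_zero]
    · right; left; rw [h6, mul_one]
    · right; right; rw [h6, mul_comm n 2]
  · rintro (h4 | h4 | h4)
    · rw [h4, ZMod.val_zero]
      exact dvd_zero _
    · rw [h4, ZMod.val_natCast, Nat.mod_eq_of_lt (by omega)]
    · rw [h4, ZMod.val_natCast, Nat.mod_eq_of_lt (by omega)]
      exact Dvd.intro_left 2 rfl

end OrbP8

end Pool.Agent.Lib.MP_89bcae_ag
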