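import Mathlib
import Pool.Agent.Lib.MP_89bcae_ag.OrbP8

/-!
# The symbol of an automorphism
-/

open Polynomial IntermediateField

namespace Pool.Agent.Lib.MP_89bcae_ag

set_option linter.unusedSectionVars false

variable {k F : Type*} [Field k] [Field F] [Algebra k F] {φ : F ≃ₐ[k] F}

open scoped Classical in
/-- The symbol of an element with respect to an automorphism: `0` if a square root is fixed. -/
noncomputable def nuP8 (ψ : F ≃ₐ[k] F) (x : F) : ZMod 2 :=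
  if ∃ s : F, ψ s = s ∧ s ^ 2 = x then 0 else 1

lemma two_ne_zeroP8 (F : Type*) [Field F] [Algebra k F] (h2 : (2 : k) ≠ 0) : (2 : F) ≠ 0 := by
  intro h
  apply h2
  apply (algebraMap k F).injective
  rw [map_ofNat, h, map_zero]

lemma map_neg_of_sq {ψ : F ≃ₐ[k] F} {s : F} (h : ψ (s ^ 2) = s ^ 2) : ψ s = s ∨ ψ s = -s := by
  rw [map_pow] at h
  exact sq_eq_sq_iff_eq_or_eq_neg.mp h

/-- The elements with trivial symbol are the squares. -/
lemma nuP8_eq_zero_iff {ψ : F ≃ₐ[k] F} {x : F} :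
    nuP8 ψ x = 0 ↔ ∃ s : F, ψ s = s ∧ s ^ 2 = x := by
  unfold nuP8
  split_ifs with h
  · exact ⟨fun _ => h, fun _ => rfl⟩
  · exact ⟨fun h1 => absurd h1 one_ne_zero, fun h1 => absurd h1 h⟩

lemma nuP8_eq_one_iff {ψ : F ≃ₐ[k] F} {x : F} :
    nuP8 ψ x = 1 ↔ ¬ ∃ s : F, ψ s = s ∧ s ^ 2 = x := by
  unfold nuP8
  split_ifs with h
  · exact ⟨fun h1 => absurd h1 zero_ne_one, fun h1 => absurd h h1⟩
  · exact ⟨fun _ => h, fun _ => rfl⟩

lemma nuP8_sq [IsAlgClosed F] (h2 : (2 : F) ≠ 0) {ψ : F ≃ₐ[k] F} {s : F} (h0 : s ≠ 0)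
    (hs : ψ (s ^ 2) = s ^ 2) : (ψ s = s ∧ nuP8 ψ (s ^ 2) = 0) ∨ (ψ s = -s ∧ nuP8 ψ (s ^ 2) = 1) := by
  rcases map_neg_of_sq hs with h | h
  · exact Or.inl ⟨h, nuP8_eq_zero_iff.mpr ⟨s, h, rfl⟩⟩
  · refine Or.inr ⟨h, nuP8_eq_one_iff.mpr ?_⟩
    rintro ⟨t, ht, hts⟩
    have h3 : ψ s = s := by
      rcases sq_eq_sq_iff_eq_or_eq_neg.mp hts with h4 | h4
      · rw [← h4, ht]
      · rw [← neg_eq_iff_eq_neg.mpr h4, map_neg, ht]
    rw [h3] at h
    apply h0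
    have h4 : (2 : F) * s = 0 := by linear_combination h
    exact (mul_eq_zero.mp h4).resolve_left h2

lemma nuP8_mul [IsAlgClosed F] (h2 : (2 : k) ≠ 0) {ψ : F ≃ₐ[k] F} {x y : F} (hx : ψ x = x)
    (hx0 : x ≠ 0) (hy : ψ y = y) (hy0 : y ≠ 0) : nuP8 ψ (x * y) = nuP8 ψ x + nuP8 ψ y := by
  have h2F := two_ne_zeroP8 F h2
  obtain ⟨s, rfl⟩ := IsAlgClosed.exists_pow_nat_eq x (n := 2) (by norm_num)
  obtain ⟨t, rfl⟩ := IsAlgClosed.exists_pow_nat_eq y (n := 2) (by norm_num)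
  have hs0 : s ≠ 0 := fun h => hx0 (by rw [h, zero_pow two_ne_zero])
  have ht0 : t ≠ 0 := fun h => hy0 (by rw [h, zero_pow two_ne_zero])
  have hst : s * t ≠ 0 := mul_ne_zero hs0 ht0
  have hne : ∀ z : F, z ≠ 0 → z ≠ -z := by
    intro z hz h
    have h4 : (2 : F) * z = 0 := by linear_combination h
    exact hz ((mul_eq_zero.mp h4).resolve_left h2F)
  rw [← mul_pow]
  rcases nuP8_sq h2F hs0 hx with ⟨h1, h1'⟩ | ⟨h1, h1'⟩ <;>
    rcases nuP8_sq h2F ht0 hy with ⟨h3, h3'⟩ | ⟨h3, h3'⟩ <;>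
    rcases nuP8_sq h2F hst (by rw [mul_pow, map_mul, hx, hy]) with ⟨h4, h4'⟩ | ⟨h4, h4'⟩ <;>
    rw [map_mul, h1, h3] at h4 <;> rw [h1', h3', h4']
  · decide
  · exact absurd h4 (hne _ hst)
  · rw [mul_neg] at h4
    exact absurd h4.symm (hne _ hst)
  · decide
  · rw [neg_mul] at h4
    exact absurd h4.symm (hne _ hst)
  · decide
  · decide
  · rw [neg_mul_neg] at h4
    exact absurd h4 (hne _ hst)

lemma nuP8_one (ψ : F ≃ₐ[k] F) : nuP8 ψ (1 : F) = 0 :=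
  nuP8_eq_zero_iff.mpr ⟨1, map_one _, one_pow _⟩

lemma nuP8_aut {N : ℕ} {x : F} (t : ℕ) : nuP8 (φ ^ N) ((φ ^ t) x) = nuP8 (φ ^ N) x := by
  have hc : ∀ y : F, (φ ^ N) ((φ ^ t) y) = (φ ^ t) ((φ ^ N) y) := fun y => by
    rw [← AlgEquiv.mul_apply, ← pow_add, add_comm, pow_add, AlgEquiv.mul_apply]
  unfold nuP8
  congr 1
  rw [eq_iff_iff]
  constructor
  · rintro ⟨s, hs, hs2⟩
    obtain ⟨r, rfl⟩ := (φ ^ t).surjective s
    refine ⟨r, ?_, ?_⟩
    · rw [hc] at hs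
      exact (φ ^ t).injective hs
    · rw [← map_pow] at hs2
      exact (φ ^ t).injective hs2
  · rintro ⟨s, hs, hs2⟩
    exact ⟨(φ ^ t) s, by rw [hc, hs], by rw [← map_pow, hs2]⟩

lemma nuP8_prod [IsAlgClosed F] (h2 : (2 : k) ≠ 0) {ψ : F ≃ₐ[k] F} {ι : Type*} (s : Finset ι)
    (f : ι → F) (hf : ∀ i ∈ s, ψ (f i) = f i) (h0 : ∀ i ∈ s, f i ≠ 0) :
    nuP8 ψ (∏ i ∈ s, f i) = ∑ i ∈ s, nuP8 ψ (f i) := by
  classical
  induction s using Finset.induction_on with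
  | empty => rw [Finset.prod_empty, Finset.sum_empty, nuP8_one]
  | insert a s ha ih =>
    rw [Finset.prod_insert ha, Finset.sum_insert ha, nuP8_mul h2
      (hf a (Finset.mem_insert_self _ _)) (h0 a (Finset.mem_insert_self _ _)), ih]
    · intro i hi; exact hf i (Finset.mem_insert_of_mem hi)
    · intro i hi; exact h0 i (Finset.mem_insert_of_mem hi)
    · rw [map_prod]
      exact Finset.prod_congr rfl fun i hi => hf i (Finset.mem_insert_of_mem hi)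
    · rw [Finset.prod_ne_zero_iff]
      intro i hi; exact h0 i (Finset.mem_insert_of_mem hi)

/-- The elements of the field generated by the roots. -/
lemma autP8_adjoin {g D : k[X]} {n : ℕ} {α β : F} (h : OrbP8 φ g D n α β) {s : F}
    (hs : s ∈ adjoin k {β : F | aeval β (D.comp g) = 0}) : (φ ^ (3 * n)) s = s := by
  have h1 : adjoin k {β : F | aeval β (D.comp g) = 0} ≤
      IntermediateField.fixedField (Subgroup.zpowers (φ ^ (3 * n))) := by
    rw [adjoin_le_iff]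
    intro b hb
    rw [SetLike.mem_coe, IntermediateField.mem_fixedField_iff]
    intro τ hτ
    obtain ⟨m, rfl⟩ := Subgroup.mem_zpowers_iff.mp hτ
    obtain ⟨u, rfl⟩ := h.e_surj hb
    have h5 : φ ^ (3 * n) ∈ MulAction.stabilizer (F ≃ₐ[k] F) (eP8 φ β u) := by
      change (φ ^ (3 * n)) (eP8 φ β u) = eP8 φ β u
      rw [eP8, ← AlgEquiv.mul_apply, ← pow_add, add_comm, pow_add, AlgEquiv.mul_apply,
        (h.beta_iff _).mpr dvd_rfl]
    exact (MulAction.stabilizer (F ≃ₐ[k] F) _).zpow_mem h5 m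
  exact (IntermediateField.mem_fixedField_iff _ _).mp (h1 hs) _ (Subgroup.mem_zpowers _)

end Pool.Agent.Lib.MP_89bcae_ag
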