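import Mathlib
import Pool.Agent.Lib.MP_89bcae_ag.CritP8

/-!
# The criterion for twists by irreducible polynomials of degree a power of three: end
-/

open Polynomial IntermediateField

namespace Pool.Agent.Lib.MP_89bcae_ag

set_option linter.unusedSectionVars false

variable {k F : Type*} [Field k] [Field F] [Algebra k F] [IsAlgClosed F] {φ : F ≃ₐ[k] F}

namespace OrbP8

variable {g D : k[X]} {n : ℕ} {α β : F}

open scoped Classical in
/-- The indicator function of a set of roots. -/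
noncomputable def indP8 (φ : F ≃ₐ[k] F) (n : ℕ) (β : F) (Z : Finset F) (t : ZMod (3 * n)) :
    ZMod 2 :=
  if eP8 φ β t ∈ Z then 1 else 0

open scoped Classical in
lemma indP8_mem (h : OrbP8 φ g D n α β) {Z : Finset F}
    (heven : ∀ a : F, Even (Z.filter fun γ => aeval γ g = a).card)
    (hZ : ∀ γ ∈ Z, aeval γ (D.comp g) = 0) :
    indP8 φ n β Z ∈ even8 (3 * n) n := by
  intro i
  set S : Finset (ZMod (3 * n)) := {i, i + (n : ZMod (3 * n)), i + ((2 * n : ℕ) : ZMod (3 * n))}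
    with hS
  have hn1 : i ∉ ({i + (n : ZMod (3 * n)), i + ((2 * n : ℕ) : ZMod (3 * n))} :
      Finset (ZMod (3 * n))) := by
    rw [Finset.mem_insert, Finset.mem_singleton]
    rintro (h1 | h1)
    · exact h.n_ne (by simpa using h1.symm)
    · exact h.two_n_ne (left_eq_add.mp h1)
  have hn2 : i + (n : ZMod (3 * n)) ∉
      ({i + ((2 * n : ℕ) : ZMod (3 * n))} : Finset (ZMod (3 * n))) := by
    rw [Finset.mem_singleton]
    intro h1
    exact h.two_n_ne_n (add_left_cancel h1).symm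
  have hsum : ∑ t ∈ S, indP8 φ n β Z t = indP8 φ n β Z (i + ((2 * n : ℕ) : ZMod (3 * n))) +
      indP8 φ n β Z (i + n) + indP8 φ n β Z i := by
    rw [hS, Finset.sum_insert hn1, Finset.sum_insert hn2, Finset.sum_singleton]
    ring
  rw [← hsum]
  have himg : (S.filter fun t => eP8 φ β t ∈ Z).image (eP8 φ β) =
      Z.filter fun γ => aeval γ g = aeval (eP8 φ β i) g := by
    ext γ
    rw [Finset.mem_image, Finset.mem_filter]
    constructor
    · rintro ⟨t, ht, rfl⟩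
      rw [Finset.mem_filter] at ht
      refine ⟨ht.2, ?_⟩
      rw [h.g_e_eq_iff]
      have h1 := ht.1
      rw [hS, Finset.mem_insert, Finset.mem_insert, Finset.mem_singleton] at h1
      rcases h1 with rfl | rfl | rfl
      · left; ring
      · right; left; ring
      · right; right; ring
    · rintro ⟨h1, h2⟩
      obtain ⟨t, rfl⟩ := h.e_surj (hZ γ h1)
      refine ⟨t, ?_, rfl⟩
      rw [Finset.mem_filter]
      refine ⟨?_, h1⟩
      rw [h.g_e_eq_iff] at h2
      rw [hS, Finset.mem_insert, Finset.mem_insert, Finset.mem_singleton]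
      rcases h2 with h2 | h2 | h2
      · left; exact sub_eq_zero.mp h2
      · right; left; rw [← h2]; ring
      · right; right; rw [← h2]; ring
  have h1 := heven (aeval (eP8 φ β i) g)
  rw [← himg, Finset.card_image_of_injective _ h.e_injective] at h1
  have h2 : ∑ t ∈ S, indP8 φ n β Z t = (((S.filter fun t => eP8 φ β t ∈ Z).card : ℕ) : ZMod 2) := by
    rw [Finset.natCast_card_filter]
    rfl
  rw [h2]
  exact (ZMod.natCast_eq_zero_iff_even).mpr h1

/-- The symbols of the basic differences. -/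
noncomputable def aaP (φ : F ≃ₐ[k] F) (n : ℕ) (D : k[X]) (α β : F) (u : ZMod (3 * n)) : ZMod 2 :=
  nuP8 (φ ^ (3 * n)) (bbP φ n D α β u)

open scoped Classical in
lemma nu_PZ (h2 : (2 : k) ≠ 0) (h : OrbP8 φ g D n α β) {Z : Finset F}
    (hZ : ∀ γ ∈ Z, aeval γ (D.comp g) = 0) [NeZero (3 * n)] (i : ZMod (3 * n)) :
    nuP8 (φ ^ (3 * n)) (PZ (g.map (algebraMap k F)) (D.map (algebraMap k F)) Z (eP8 φ β i)) =
      ∑ t, aaP φ n D α β (i - t) * indP8 φ n β Z t := by
  rw [h.PZ_eq hZ, nuP8_prod h2]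
  · rw [Finset.sum_filter]
    apply Finset.sum_congr rfl
    intro t _
    rw [nuP8_aut, indP8]
    split_ifs
    · rw [mul_one]; rfl
    · rw [mul_zero]
  · intro t _
    rw [← AlgEquiv.mul_apply, ← pow_add, add_comm, pow_add, AlgEquiv.mul_apply, h.autP_bb]
  · intro t _ h3
    exact h.bb_ne (i - t) ((φ ^ t.val).injective (h3.trans (map_zero _).symm))

lemma PZ_ne (h : OrbP8 φ g D n α β) {Z : Finset F}
    (hZ : ∀ γ ∈ Z, aeval γ (D.comp g) = 0) [NeZero (3 * n)] (i : ZMod (3 * n)) :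
    PZ (g.map (algebraMap k F)) (D.map (algebraMap k F)) Z (eP8 φ β i) ≠ 0 := by
  classical
  rw [h.PZ_eq hZ, Finset.prod_ne_zero_iff]
  intro t _ h3
  exact h.bb_ne (i - t) ((φ ^ t.val).injective (h3.trans (map_zero _).symm))

lemma autP_PZ (h : OrbP8 φ g D n α β) {Z : Finset F}
    (hZ : ∀ γ ∈ Z, aeval γ (D.comp g) = 0) [NeZero (3 * n)] (i : ZMod (3 * n)) :
    (φ ^ (3 * n)) (PZ (g.map (algebraMap k F)) (D.map (algebraMap k F)) Z (eP8 φ β i)) =
      PZ (g.map (algebraMap k F)) (D.map (algebraMap k F)) Z (eP8 φ β i) := by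
  classical
  rw [h.PZ_eq hZ, map_prod]
  apply Finset.prod_congr rfl
  intro t _
  rw [← AlgEquiv.mul_apply, ← pow_add, add_comm, pow_add, AlgEquiv.mul_apply, h.autP_bb]

open scoped Classical in
/-- If both alternatives of the criterion fail for some set `Z`, the symbols of the differences
`β' - β` with a given `g(β')` agree. -/
theorem symbol_eq {j : ℕ} (h2 : (2 : k) ≠ 0) (h : OrbP8 φ g D (3 ^ j) α β) {Z : Finset F}
    (hne : Z.Nonempty) (hZ : ∀ γ ∈ Z, aeval γ (D.comp g) = 0)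
    (heven : ∀ a : F, Even (Z.filter fun γ => aeval γ g = a).card)
    (H1 : ∀ γ : F, aeval γ (D.comp g) = 0 → γ ∉ Z →
      ∃ s ∈ adjoin k {β : F | aeval β (D.comp g) = 0},
        s ^ 2 = PZ (g.map (algebraMap k F)) (D.map (algebraMap k F)) Z γ)
    (H2 : ∀ γ ∈ Z, ∀ γ' ∈ Z, ∃ s ∈ adjoin k {β : F | aeval β (D.comp g) = 0},
      s ^ 2 = PZ (g.map (algebraMap k F)) (D.map (algebraMap k F)) Z γ *
        PZ (g.map (algebraMap k F)) (D.map (algebraMap k F)) Z γ')
    {i : ZMod (3 * 3 ^ j)} (hi0 : i ≠ 0) (hi1 : i ≠ (3 ^ j : ℕ)) :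
    aaP φ (3 ^ j) D α β i = aaP φ (3 ^ j) D α β (i - (3 ^ j : ℕ)) := by
  have : NeZero (3 * 3 ^ j) := ⟨by positivity⟩
  obtain ⟨γ₀, hγ₀⟩ := hne
  obtain ⟨i₀, rfl⟩ := h.e_surj (hZ γ₀ hγ₀)
  set c := ∑ t, aaP φ (3 ^ j) D α β (i₀ - t) * indP8 φ (3 ^ j) β Z t with hc
  have hz : indP8 φ (3 ^ j) β Z ∈ even8 (3 * 3 ^ j) (3 ^ j) := h.indP8_mem heven hZ
  apply circ8_symbol (aaP φ (3 ^ j) D α β) c (z := indP8 φ (3 ^ j) β Z) hz _ _ hi0 hi1
  · intro h0
    have h1 := congrFun h0 i₀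
    rw [indP8, if_pos hγ₀] at h1
    exact one_ne_zero h1
  · intro i
    by_cases hi : eP8 φ β i ∈ Z
    · obtain ⟨s, hs, hs2⟩ := H2 _ hi _ hγ₀
      have h3 : nuP8 (φ ^ (3 * 3 ^ j)) (PZ (g.map (algebraMap k F)) (D.map (algebraMap k F)) Z
          (eP8 φ β i) * PZ (g.map (algebraMap k F)) (D.map (algebraMap k F)) Z (eP8 φ β i₀)) = 0 := by
        rw [nuP8_eq_zero_iff]
        exact ⟨s, autP8_adjoin h hs, hs2⟩
      rw [nuP8_mul h2 (h.autP_PZ hZ i) (h.PZ_ne hZ i) (h.autP_PZ hZ i₀) (h.PZ_ne hZ i₀),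
        h.nu_PZ h2 hZ, h.nu_PZ h2 hZ, ← hc] at h3
      have h4 : indP8 φ (3 ^ j) β Z i = 1 := if_pos hi
      rw [h4, mul_one]
      rw [add_eq_zero_iff_eq_neg, CharTwo.neg_eq] at h3
      exact h3
    · obtain ⟨s, hs, hs2⟩ := H1 _ (h.e_root i) hi
      have h3 : nuP8 (φ ^ (3 * 3 ^ j)) (PZ (g.map (algebraMap k F)) (D.map (algebraMap k F)) Z
          (eP8 φ β i)) = 0 := by
        rw [nuP8_eq_zero_iff]
        exact ⟨s, autP8_adjoin h hs, hs2⟩
      rw [h.nu_PZ h2 hZ] at h3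
      have h4 : indP8 φ (3 ^ j) β Z i = 0 := if_neg hi
      rw [h3, h4, mul_zero]

end OrbP8

end Pool.Agent.Lib.MP_89bcae_ag
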