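import Mathlib
import Pool.Agent.Lib.MP_89bcae_ag.Defs8

/-!
# Absence of Tate classes for the curves `D(t) y² = g(x) - t`

`k` is a field, `F` an algebraic closure of `k`, `L` the field of rational functions `F(t)` and
`Ω` a separable closure of `L`.
-/

open Polynomial WeierstrassCurve IsDedekindDomain

open scoped Classical

namespace Pool.Agent.Lib.MP_89bcae_ag

universe u

/-- For every finite extension `k'` of `k` in `F`, every class of the two-adic Selmer group of
`D(t) y² = g(x) - t` over `L = F(t)` (a class in `H¹(L, T₂E)` which is locally trivial at all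
finite places) fixed, up to torsion, by the automorphisms of `Ω` over `k'(t)` vanishes. -/
def NoTateClass (k F L Ω : Type u) [Field k] [Field F] [Algebra k F] [Field L] [Algebra F[X] L]
    [IsFractionRing F[X] L] [Field Ω] [Algebra L Ω] (g D : k[X]) : Prop :=
  ∀ (k' : IntermediateField k F) [FiniteDimensional k k']
    (c : ℕ → (Ω ≃ₐ[L] Ω) → ((twist g D).map (base k F L Ω)).toAffine.Point),
    IsTateCocycle (twist g D) c →
    (∀ (v : HeightOneSpectrum F[X]) (n : ℕ),
      IsLocallyTrivial (twist g D) (c n) (v.adicCompletion L)) →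
    (∀ γ : Ω ≃+* Ω, (∀ p : k'[X], γ (base k' F L Ω p) = base k' F L Ω p) →
      IsFixedBy (twist g D) c γ) →
    IsTrivial (twist g D) c

end Pool.Agent.Lib.MP_89bcae_ag
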