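import Mathlib
import Pool.Agent.Lib.MP_89bcae_ag.GrpD8

/-!
# The divisor of the class of a point; non-squares and automorphisms
-/

open Polynomial WeierstrassCurve WeierstrassCurve.Affine IntermediateField

open scoped Classical

namespace Pool.Agent.Lib.MP_89bcae_ag

set_option linter.unusedSectionVars false

section Point

variable {k F L Ω : Type*} [Field k] [Field F] [Algebra k F] [Algebra.IsAlgebraic k F]
  [IsAlgClosed F] [Field L] [Field Ω]
  [Algebra F[X] L] [IsFractionRing F[X] L] [Algebra L Ω] [Algebra F[X] Ω] [IsScalarTower F[X] L Ω]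
  [Algebra k[X] L] [Algebra k[X] Ω] [IsScalarTower k[X] L Ω]
  [IsGalois L Ω] [IsSepClosed Ω] [IsSepClosure L Ω]

variable {hk : ∀ p : k[X], algebraMap k[X] L p = algebraMap F[X] L (p.map (algebraMap k F))}
variable {W : Affine k[X]} {LT : ((Ω ≃ₐ[L] Ω) → (W.baseChange Ω).Point) → Prop} {g D : k[X]}

/-- The divisor of the class of a point. -/
lemma Ctx8.div_point (h : Ctx8 hk W g D LT) {q : ℕ → (W.baseChange Ω).Point}
    (hq : ∀ n, q (n + 1) + q (n + 1) = q n)
    (h0 : ∀ σ : Ω ≃ₐ[L] Ω, Point.map (W' := W) (σ : Ω →ₐ[L] Ω) (q 0) = q 0)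
    {x : L} {Y : Ω} {hns : (W.baseChange Ω).Nonsingular (algebraMap L Ω x) Y}
    (hq0 : q 0 = .some (algebraMap L Ω x) Y hns) {Z : Finset F} {A B p r : F[X]}
    (hB : B ≠ 0) (hr : r ≠ 0) (hx : x * algebraMap F[X] L B = algebraMap F[X] L A)
    (hZ : r ^ 2 * (B.comp (g.map (algebraMap k F)) * (A.comp (g.map (algebraMap k F)) -
        X * (D.map (algebraMap k F)).comp (g.map (algebraMap k F)) *
          B.comp (g.map (algebraMap k F)))) = p ^ 2 * ∏ β ∈ Z, (X - C β)) :
    div8 (L := L) (Ω := Ω) W (g.map (algebraMap k F)) (D.map (algebraMap k F)) (del8 W q) = Z := by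
  have hF := h.good.map F
  set gF := g.map (algebraMap k F) with hgF
  set DF := D.map (algebraMap k F) with hDF
  have hS := h.del_mem hq h0
  have hd0 : algebraMap F[X] Ω DF ≠ 0 := algebraMap_ne_zero_Om L hF.ne
  have hB0 : algebraMap F[X] Ω B ≠ 0 := algebraMap_ne_zero_Om L hB
  have hxΩ : algebraMap L Ω x * algebraMap F[X] Ω B = algebraMap F[X] Ω A := by
    rw [IsScalarTower.algebraMap_apply F[X] L Ω, ← map_mul, hx,
      ← IsScalarTower.algebraMap_apply]
  have hev : ∀ θ ∈ RootSet (Ω := Ω) gF, ev F Ω θ r ^ 2 * (algebraMap F[X] Ω B *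
      (algebraMap F[X] Ω A - θ * algebraMap F[X] Ω DF * algebraMap F[X] Ω B)) =
        ev F Ω θ p ^ 2 * ∏ β ∈ Z, (θ - algebraMap F[X] Ω (C β)) := by
    intro θ hθ
    have h1 := congrArg (ev F Ω θ) hZ
    rw [map_mul, map_mul, map_sub, map_mul, map_mul, map_pow, map_mul, map_pow, ev_prod, ev_X,
      ev_comp_of_mem hθ, ev_comp_of_mem hθ, ev_comp_of_mem hθ] at h1
    exact h1
  have hp0 : p ≠ 0 := by
    rintro rfl
    obtain ⟨θ₁, θ₂, θ₃, h12, -, -, hR, -, -⟩ :=
      exists_three_roots (F := F) L (Ω := Ω) hF.monic hF.deg hF.der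
    have key : ∀ θ ∈ RootSet (Ω := Ω) gF,
        algebraMap F[X] Ω A = θ * algebraMap F[X] Ω DF * algebraMap F[X] Ω B := by
      intro θ hθ
      have h1 := hev θ hθ
      rw [map_zero, zero_pow two_ne_zero, zero_mul] at h1
      have hr0 : ev F Ω θ r ≠ 0 := by
        intro h3
        exact hr (ev_injective L hθ (h3.trans (map_zero _).symm))
      have h3 := (mul_eq_zero.mp h1).resolve_left (pow_ne_zero 2 hr0)
      exact sub_eq_zero.mp ((mul_eq_zero.mp h3).resolve_left hB0)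
    have e1 := key θ₁ ((hR _).mpr (Or.inl rfl))
    have e2 := key θ₂ ((hR _).mpr (Or.inr (Or.inl rfl)))
    rw [e1] at e2
    exact h12 (mul_right_cancel₀ hd0 (mul_right_cancel₀ hB0 e2))
  have hQ2 : 2 • q 1 = .some (algebraMap L Ω x) Y hns := by
    rw [← hq0, two_nsmul]
    exact hq 0
  have hsq : ∀ θ ∈ RootSet (Ω := Ω) gF, rho (algebraMap F[X] Ω DF * θ) (q 1) ^ 2 =
      algebraMap L Ω x - algebraMap F[X] Ω DF * θ := by
    intro θ hθ
    exact rho_sq_double h.twO.short h.two (h.twO.rt hF.monic hF.deg hθ) hQ2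
  have hpe : ∀ θ ∈ RootSet (Ω := Ω) gF, ev F Ω θ p ≠ 0 := by
    intro θ hθ h3
    exact hp0 (ev_injective L hθ (h3.trans (map_zero _).symm))
  apply h.div_eq hS.tc (b := fun θ => rho (algebraMap F[X] Ω DF * θ) (q 1) *
    (ev F Ω θ r * algebraMap F[X] Ω B / ev F Ω θ p))
  refine ⟨?_, ?_⟩
  · intro θ hθ
    have h1 := hpe θ hθ
    rw [mul_pow, hsq θ hθ, div_pow, mul_pow, mul_div_assoc', _root_.div_eq_iff (pow_ne_zero 2 h1)]
    have h3 := hev θ hθ
    rw [← hxΩ] at h3
    linear_combination h3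
  · intro θ hθ σ
    have hθ' := map_mem_rootSet σ hθ
    have hσD : σ (algebraMap F[X] Ω DF) = algebraMap F[X] Ω DF := map_D σ DF
    have hσB : σ (algebraMap F[X] Ω B) = algebraMap F[X] Ω B := map_D σ B
    have hc2 : 2 • del8 (L := L) W q 1 σ = 0 := hS.tc.two_one σ
    have h1 : σ (rho (algebraMap F[X] Ω DF * θ) (q 1)) =
        rho (algebraMap F[X] Ω DF * σ θ) (Point.map (W' := W) (σ : Ω →ₐ[L] Ω) (q 1)) := by
      have h4 : algebraMap F[X] Ω DF * σ θ = (σ : Ω →ₐ[L] Ω) (algebraMap F[X] Ω DF * θ) := by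
        simp [map_D]
      rw [h4, rho_map]
      rfl
    have h3 : Point.map (W' := W) (σ : Ω →ₐ[L] Ω) (q 1) = q 1 + del8 (L := L) W q 1 σ := by
      change _ = q 1 + (Point.map (W' := W) (σ : Ω →ₐ[L] Ω) (q 1) - q 1)
      abel
    rw [map_mul, h1, h3, rho_add h.twO.short h.two (h.twO.rt hF.monic hF.deg hθ') _ _ hc2,
      map_div₀, map_mul, ev_map, ev_map, hσB]
    ring

end Point

section Moves

variable {k F : Type*} [Field k] [Field F] [Algebra k F] [Algebra.IsAlgebraic k F] [IsAlgClosed F]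

/-- An element of a subfield which is not a square there has its square root moved by an
automorphism. -/
lemma exists_moving (E : IntermediateField k F) {c s : F} (hc : c ∈ E)
    (hs : s ^ 2 = c) (hns : ∀ r ∈ E, r ^ 2 ≠ c) :
    ∃ τ : F ≃ₐ[k] F, (∀ x ∈ E, τ x = x) ∧ τ s = -s := by
  have hsE : s ∉ E := fun h => hns s h hs
  have halg : Algebra.IsAlgebraic E F := inferInstance
  have hN : Normal E F := normal_iff.mpr fun x =>
    ⟨Algebra.IsIntegral.isIntegral x, IsAlgClosed.splits _⟩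
  let cE : E := ⟨c, hc⟩
  have hmin : minpoly E s = X ^ 2 - C cE := by
    symm
    apply minpoly.eq_of_irreducible_of_monic
    · have : Irreducible (X ^ 2 - C cE : (E)[X]) := by
        apply (Monic.irreducible_iff_roots_eq_zero_of_degree_le_three
          (monic_X_pow_sub_C cE two_ne_zero) (by rw [natDegree_X_pow_sub_C])
          (by rw [natDegree_X_pow_sub_C]; norm_num)).mpr
        rw [Multiset.eq_zero_iff_forall_notMem]
        intro r hr
        rw [mem_roots (monic_X_pow_sub_C cE two_ne_zero).ne_zero, IsRoot.def, eval_sub, eval_pow,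
          eval_X, eval_C, sub_eq_zero] at hr
        apply hns r r.2
        have := congrArg (algebraMap E F) hr
        rw [map_pow] at this
        exact this
      exact this
    · rw [map_sub, map_pow, aeval_X, aeval_C, hs]
      exact sub_self _
    · exact monic_X_pow_sub_C cE two_ne_zero
  obtain ⟨σ, hσ⟩ := minpoly.exists_algEquiv_of_root (K := E) (L := F) (x := -s) (y := s)
    (Algebra.IsAlgebraic.isAlgebraic s) (by
      rw [hmin, map_sub, map_pow, aeval_X, aeval_C, neg_sq, hs]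
      exact sub_self _)
  refine ⟨σ.restrictScalars k, fun x hx => ?_, ?_⟩
  · exact σ.commutes ⟨x, hx⟩
  · rw [map_neg] at hσ
    change σ s = -s
    rw [← hσ, neg_neg, hσ]

lemma aeval_mem8 (E : IntermediateField k F) {x : F} (hx : x ∈ E) (p : k[X]) :
    aeval x p ∈ E := by
  have h1 := aeval_algebraMap_apply F (⟨x, hx⟩ : E) p
  change aeval x p = _ at h1
  rw [h1]
  exact (aeval (⟨x, hx⟩ : E) p).2

lemma PZ_mem (E : IntermediateField k F) {g D : k[X]} {Z : Finset F} {β' : F}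
    (hZ : ∀ β ∈ Z, β ∈ E) (hβ' : β' ∈ E) :
    PZ (g.map (algebraMap k F)) (D.map (algebraMap k F)) Z β' ∈ E := by
  rw [PZ]
  apply E.mul_mem
  · apply prod_mem
    intro β hβ
    exact E.sub_mem hβ' (hZ β (Finset.mem_filter.mp hβ).1)
  · split_ifs
    · apply E.neg_mem
      rw [derivative_map, eval_map_algebraMap, eval_map_algebraMap]
      exact aeval_mem8 E (aeval_mem8 E hβ' g) _
    · exact E.one_mem

end Moves

section Conv

variable {k F L Ω : Type*} [Field k] [Field F] [Algebra k F] [Algebra.IsAlgebraic k F]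
  [IsAlgClosed F] [Field L] [Field Ω]
  [Algebra F[X] L] [IsFractionRing F[X] L] [Algebra L Ω] [Algebra F[X] Ω] [IsScalarTower F[X] L Ω]
  [Algebra k[X] L] [Algebra k[X] Ω] [IsScalarTower k[X] L Ω]
  [IsGalois L Ω] [IsSepClosed Ω] [IsSepClosure L Ω]

variable {hk : ∀ p : k[X], algebraMap k[X] L p = algebraMap F[X] L (p.map (algebraMap k F))}
variable {W : Affine k[X]} {LT : ((Ω ≃ₐ[L] Ω) → (W.baseChange Ω).Point) → Prop} {g D : k[X]}

/-- A non-square condition provides an automorphism. -/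
lemma Ctx8.exists_of_nonsquare (h : Ctx8 hk W g D LT) {ζ : Finset F}
    (hζ : ∀ β ∈ ζ, (D.map (algebraMap k F)).eval ((g.map (algebraMap k F)).eval β) = 0)
    (E : IntermediateField k F)
    (hE : ∀ β : F, (D.map (algebraMap k F)).eval ((g.map (algebraMap k F)).eval β) = 0 → β ∈ E)
    (hns : (∃ β : F, (D.map (algebraMap k F)).eval ((g.map (algebraMap k F)).eval β) = 0 ∧
        β ∉ ζ ∧ ∀ s ∈ E, s ^ 2 ≠
          PZ (g.map (algebraMap k F)) (D.map (algebraMap k F)) ζ β) ∨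
      (∃ β ∈ ζ, ∃ β' ∈ ζ, ∀ s ∈ E, s ^ 2 ≠
        PZ (g.map (algebraMap k F)) (D.map (algebraMap k F)) ζ β *
          PZ (g.map (algebraMap k F)) (D.map (algebraMap k F)) ζ β')) :
    ∃ τ : F ≃ₐ[k] F, (∀ β, (D.map (algebraMap k F)).eval
          ((g.map (algebraMap k F)).eval β) = 0 → τ β = β) ∧
        v8 (g.map (algebraMap k F)) (D.map (algebraMap k F)) (τ : F →+* F) ζ ≠ ζ ∧
        v8 (g.map (algebraMap k F)) (D.map (algebraMap k F)) (τ : F →+* F) ζ ≠ ∅ := by
  have hF := h.good.map F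
  set gF := g.map (algebraMap k F) with hgF
  set DF := D.map (algebraMap k F) with hDF
  have hmemE : ∀ β : F, DF.eval (gF.eval β) = 0 → PZ gF DF ζ β ∈ E := fun β hβ =>
    PZ_mem E (fun β' hβ' => hE β' (hζ β' hβ')) (hE β hβ)
  have hne0 : ∀ β : F, DF.eval (gF.eval β) = 0 → PZ gF DF ζ β ≠ 0 := fun β hβ =>
    PZ_ne_zero (h.root_facts hβ).1
  rcases hns with ⟨β, hβ, hβζ, hs⟩ | ⟨β, hβ, β', hβ', hs⟩
  · obtain ⟨s, hs2⟩ := IsAlgClosed.exists_pow_nat_eq (PZ gF DF ζ β) (n := 2) (by norm_num)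
    obtain ⟨τ, hτ, hτs⟩ := exists_moving E (hmemE β hβ) hs2 hs
    have hmv : Moves (τ : F →+* F) (PZ gF DF ζ β) :=
      (moves_iff_neg hF.two (hne0 β hβ) (hτ _ (hmemE β hβ)) hs2).1.mpr hτs
    have hmem : β ∈ v8 gF DF (τ : F →+* F) ζ := (h.mem_v8).mpr ⟨hβ, hmv⟩
    refine ⟨τ, fun β' hβ' => hτ β' (hE β' hβ'), ?_, ?_⟩
    · intro h0
      rw [h0] at hmem
      exact hβζ hmem
    · intro h0
      rw [h0] at hmem
      exact absurd hmem (Finset.notMem_empty _)
  · have r1 := hζ β hβ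
    have r2 := hζ β' hβ'
    obtain ⟨s₁, hs1⟩ := IsAlgClosed.exists_pow_nat_eq (PZ gF DF ζ β) (n := 2) (by norm_num)
    obtain ⟨s₂, hs2⟩ := IsAlgClosed.exists_pow_nat_eq (PZ gF DF ζ β') (n := 2) (by norm_num)
    obtain ⟨τ, hτ, hτs⟩ := exists_moving E (E.mul_mem (hmemE β r1) (hmemE β' r2))
      (s := s₁ * s₂) (by rw [mul_pow, hs1, hs2]) hs
    have a1 := moves_iff_neg (τ := (τ : F →+* F)) hF.two (hne0 β r1) (hτ _ (hmemE β r1)) hs1
    have a2 := moves_iff_neg (τ := (τ : F →+* F)) hF.two (hne0 β' r2) (hτ _ (hmemE β' r2)) hs2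
    have hs10 : s₁ ≠ 0 := by
      rintro rfl
      apply hne0 β r1
      rw [← hs1]; ring
    have hs20 : s₂ ≠ 0 := by
      rintro rfl
      apply hne0 β' r2
      rw [← hs2]; ring
    have hprod0 : s₁ * s₂ ≠ 0 := mul_ne_zero hs10 hs20
    have hneg : s₁ * s₂ ≠ -(s₁ * s₂) := by
      intro h0
      have h3 : 2 * (s₁ * s₂) = 0 := by linear_combination h0
      rcases mul_eq_zero.mp h3 with h4 | h4
      · exact hF.two h4
      · exact hprod0 h4
    have hτs' : (τ : F →+* F) s₁ * (τ : F →+* F) s₂ = -(s₁ * s₂) := by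
      rw [← map_mul]
      exact hτs
    have hone : (Moves (τ : F →+* F) (PZ gF DF ζ β) ∧ ¬ Moves (τ : F →+* F) (PZ gF DF ζ β')) ∨
        (¬ Moves (τ : F →+* F) (PZ gF DF ζ β) ∧ Moves (τ : F →+* F) (PZ gF DF ζ β')) := by
      by_cases m1 : Moves (τ : F →+* F) (PZ gF DF ζ β) <;>
        by_cases m2 : Moves (τ : F →+* F) (PZ gF DF ζ β')
      · exfalso
        rw [a1.1.mp m1, a2.1.mp m2] at hτs'
        exact hneg (by linear_combination hτs')
      · exact Or.inl ⟨m1, m2⟩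
      · exact Or.inr ⟨m1, m2⟩
      · exfalso
        rw [a1.2.mp m1, a2.2.mp m2] at hτs'
        exact hneg hτs'
    refine ⟨τ, fun β' hβ' => hτ β' (hE β' hβ'), ?_, ?_⟩
    · intro h0
      rcases hone with ⟨-, m⟩ | ⟨m, -⟩
      · apply m
        have : β' ∈ v8 gF DF (τ : F →+* F) ζ := by rw [h0]; exact hβ'
        exact ((h.mem_v8).mp this).2
      · apply m
        have : β ∈ v8 gF DF (τ : F →+* F) ζ := by rw [h0]; exact hβ
        exact ((h.mem_v8).mp this).2
    · intro h0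
      rcases hone with ⟨m, -⟩ | ⟨-, m⟩
      · have hmem : β ∈ v8 gF DF (τ : F →+* F) ζ := (h.mem_v8).mpr ⟨r1, m⟩
        rw [h0] at hmem
        exact absurd hmem (Finset.notMem_empty _)
      · have hmem : β' ∈ v8 gF DF (τ : F →+* F) ζ := (h.mem_v8).mpr ⟨r2, m⟩
        rw [h0] at hmem
        exact absurd hmem (Finset.notMem_empty _)

end Conv

end Pool.Agent.Lib.MP_89bcae_ag
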