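import Mathlib
import Pool.Agent.Lib.MP_89bcae_ag.SelB8
import Pool.Agent.Lib.MP_89bcae_ag.PtDiv8

/-!
# Classes fixed by an open subgroup: from the definitions to the abstract setting
-/

open Polynomial WeierstrassCurve WeierstrassCurve.Affine IsDedekindDomain IntermediateField

open scoped Classical

namespace Pool.Agent.Lib.MP_89bcae_ag

set_option linter.unusedSectionVars false
set_option linter.style.haveILetI false

universe u

variable {k F L Ω : Type u} [Field k] [Field F] [Algebra k F] [Algebra.IsAlgebraic k F]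
  [IsAlgClosed F] [Field L] [Algebra F[X] L] [IsFractionRing F[X] L] [Field Ω]
  [Algebra L Ω] [IsGalois L Ω] [IsSepClosed Ω] [IsSepClosure L Ω]

theorem kummer_of_fixed {g D : k[X]} (hgD : Good g D) (hsep : (D.comp g).Separable)
    (M : AddSubgroup ((twist g D).map (base k F L L)).toAffine.Point)
    (hM : ∀ Z : Finset F, Z.Nonempty → (∀ β ∈ Z, aeval β (D.comp g) = 0) →
      (∀ α, Even (Z.filter fun β => aeval β g = α).card) →
      (∃ β : F, aeval β (D.comp g) = 0 ∧ β ∉ Z ∧
        ∀ s ∈ adjoin k {β : F | aeval β (D.comp g) = 0},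
          s ^ 2 ≠ PZ (g.map (algebraMap k F)) (D.map (algebraMap k F)) Z β) ∨
      (∃ β ∈ Z, ∃ β' ∈ Z, ∀ s ∈ adjoin k {β : F | aeval β (D.comp g) = 0},
          s ^ 2 ≠ PZ (g.map (algebraMap k F)) (D.map (algebraMap k F)) Z β *
            PZ (g.map (algebraMap k F)) (D.map (algebraMap k F)) Z β') ∨
      ∃ P ∈ M, HasDivisor g D P Z)
    (k' : IntermediateField k F) [FiniteDimensional k k']
    (c : ℕ → (Ω ≃ₐ[L] Ω) → ((twist g D).map (base k F L Ω)).toAffine.Point)
    (hc : IsTateCocycle (twist g D) c)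
    (hS : ∀ (τ : F) (n : ℕ), IsLocallyTrivial (twist g D) (c n) ((placeAt τ).adicCompletion L))
    (hinv : ∀ γ : Ω ≃+* Ω, (∀ p : k'[X], γ (base k' F L Ω p) = base k' F L Ω p) →
      IsFixedBy (twist g D) c γ) (n : ℕ) :
    ∃ P ∈ M, IsKummerOf (twist g D) (c n) n P := by
  letI := algK k F L L
  letI := algK k F L Ω
  letI := algF F L Ω
  haveI : IsScalarTower F[X] L Ω := IsScalarTower.of_algebraMap_eq fun _ => rfl
  haveI : IsScalarTower k[X] L Ω := IsScalarTower.of_algebraMap_eq fun _ => rfl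
  have hk : ∀ p : k[X], algebraMap k[X] L p = algebraMap F[X] L (p.map (algebraMap k F)) :=
    fun _ => rfl
  let W : Affine k[X] := (twist g D).toAffine
  have hF := hgD.map F
  have hev : ∀ β : F, aeval β (D.comp g) =
      (D.map (algebraMap k F)).eval ((g.map (algebraMap k F)).eval β) := by
    intro β
    rw [aeval_comp, eval_map_algebraMap, eval_map_algebraMap]
  have hg' : ∀ β : F, aeval β g = (g.map (algebraMap k F)).eval β := fun β =>
    (eval_map_algebraMap g β).symm
  have ctx : Ctx8 (k := k) (F := F) (L := L) (Ω := Ω) hk W g D (LT8 (twist g D)) :=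
    ⟨hgD, hsep, isTwist_twist hk, selAx_of hgD⟩
  let ι : (W.baseChange L).Point →+ (W.baseChange Ω).Point :=
    Point.map (W' := W) (Algebra.ofId L Ω)
  let MΩ : AddSubgroup (W.baseChange Ω).Point := AddSubgroup.map ι M
  have hfixed : ∀ (P : (W.baseChange L).Point) (σ : Ω ≃ₐ[L] Ω),
      Point.map (W' := W) (σ : Ω →ₐ[L] Ω) (ι P) = ι P := by
    intro P σ
    rcases P with _ | ⟨x, y, hxy⟩
    · rfl
    · change Point.map (W' := W) (σ : Ω →ₐ[L] Ω) (Point.map (W' := W) (Algebra.ofId L Ω)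
        (.some x y hxy)) = Point.map (W' := W) (Algebra.ofId L Ω) (.some x y hxy)
      rw [Point.map_some, Point.map_some]
      simp only [Point.some.injEq]
      exact ⟨σ.commutes x, σ.commutes y⟩
  have hMΩ : ∀ P ∈ MΩ, ∀ σ : Ω ≃ₐ[L] Ω, Point.map (W' := W) (σ : Ω →ₐ[L] Ω) P = P := by
    rintro _ ⟨P, -, rfl⟩ σ
    exact hfixed P σ
  -- the hypothesis
  have hH : ∀ ζ : Finset F, ζ.Nonempty →
      (∀ β ∈ ζ, (D.map (algebraMap k F)).eval ((g.map (algebraMap k F)).eval β) = 0) →
      (∀ α, Even (ζ.filter fun β => (g.map (algebraMap k F)).eval β = α).card) →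
      (∃ τ : F ≃ₐ[k] F, (∀ β, (D.map (algebraMap k F)).eval
          ((g.map (algebraMap k F)).eval β) = 0 → τ β = β) ∧
        v8 (g.map (algebraMap k F)) (D.map (algebraMap k F)) (τ : F →+* F) ζ ≠ ζ ∧
        v8 (g.map (algebraMap k F)) (D.map (algebraMap k F)) (τ : F →+* F) ζ ≠ ∅) ∨
      (∃ q : ℕ → (W.baseChange Ω).Point, q 0 ∈ MΩ ∧ (∀ n, q (n + 1) + q (n + 1) = q n) ∧
        div8 (L := L) W (g.map (algebraMap k F)) (D.map (algebraMap k F)) (del8 W q) = ζ) := by
    intro ζ hne hζ heven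
    have hmain := hM ζ hne (fun β hβ => by rw [hev]; exact hζ β hβ) (by
      intro α
      have := heven α
      simpa only [hg'] using this)
    rw [← or_assoc] at hmain
    rcases hmain with hns | ⟨P, hPM, hP⟩
    · left
      apply ctx.exists_of_nonsquare hζ (adjoin k {β : F | aeval β (D.comp g) = 0})
      · intro β hβ
        apply subset_adjoin
        change aeval β (D.comp g) = 0
        rw [hev]
        exact hβ
      · rcases hns with ⟨β, h1, h2, h3⟩ | ⟨β, h1, β', h2, h3⟩
        · exact Or.inl ⟨β, by rw [← hev]; exact h1, h2, h3⟩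
        · exact Or.inr ⟨β, h1, β', h2, h3⟩
    · right
      cases hP with
      | zero => exact absurd hne Finset.not_nonempty_empty
      | some x y hxy Z A B p q hB hq hx hZ =>
        let P₁ : (W.baseChange L).Point := .some x y hxy
        obtain ⟨Q, hQ⟩ := exists_halves L hF ctx.twO (ι P₁)
        obtain ⟨s, hs0, -, hs⟩ := exists_seq8 (exists_halves L hF ctx.twO) (ι P₁) Q hQ
        have hs0' : s 0 ∈ MΩ := by
          rw [hs0]
          exact ⟨P₁, hPM, rfl⟩
        refine ⟨s, hs0', hs, ?_⟩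
        exact ctx.div_point hs (hMΩ _ hs0') hs0 hB hq hx hZ
  -- the class is fixed by an open subgroup
  have hTC : TC W (fun n (σ : Ω ≃ₐ[L] Ω) => (c n σ : (W.baseChange Ω).Point)) :=
    { zero := hc.zero
      two := hc.two_smul
      mul := fun n σ τ => hc.cocycle n σ τ _
        (isImage_map (W := twist g D) (σ : Ω →ₐ[L] Ω) (c n τ))
      loc := hc.locallyConstant }
  have hSel : IsSel8 W (LT8 (twist g D))
      (fun n (σ : Ω ≃ₐ[L] Ω) => (c n σ : (W.baseChange Ω).Point)) :=
    ⟨hTC, fun n τ => hS τ n⟩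
  obtain ⟨s, hs⟩ : ∃ s : Finset F, adjoin k (s : Set F) = k' :=
    IntermediateField.essFiniteType_iff.mp inferInstance
  have hG : (fun n (σ : Ω ≃ₐ[L] Ω) => (c n σ : (W.baseChange Ω).Point)) ∈ G8 ctx := by
    refine ⟨hSel, s, fun γ hγ => ?_⟩
    have hfix : ∀ a ∈ k', resF hk γ a = a := by
      intro a ha
      rw [← hs] at ha
      have h1 : adjoin k (s : Set F) ≤
          IntermediateField.fixedField (Subgroup.zpowers (resF hk γ)) := by
        rw [adjoin_le_iff]
        intro b hb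
        rw [SetLike.mem_coe, IntermediateField.mem_fixedField_iff]
        intro τ hτ
        obtain ⟨m, rfl⟩ := Subgroup.mem_zpowers_iff.mp hτ
        have h5 : resF hk γ ∈ MulAction.stabilizer (F ≃ₐ[k] F) b := hγ b hb
        exact (MulAction.stabilizer (F ≃ₐ[k] F) b).zpow_mem h5 m
      exact (IntermediateField.mem_fixedField_iff _ _).mp (h1 ha) _
        (Subgroup.mem_zpowers _)
    have hinvγ : InvMT W (fun n (σ : Ω ≃ₐ[L] Ω) => (c n σ : (W.baseChange Ω).Point)) γ := by
      obtain ⟨m, hm, H⟩ := hinv γ.toRingEquiv (fun p => by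
        change γ (algebraMap F[X] Ω (p.map (algebraMap k' F))) =
          algebraMap F[X] Ω (p.map (algebraMap k' F))
        rw [resF_spec hk]
        congr 1
        ext i
        rw [coeff_map, coeff_map]
        exact hfix _ (p.coeff i).2)
      refine ⟨m, hm, fun n => ?_⟩
      obtain ⟨A, hA, HA⟩ := H n
      refine ⟨A, hA, fun s h hs => ?_⟩
      exact HA s h hs _ _ (isImage_map (W := twist g D) (γ : Ω →ₐ[k[X]] Ω) (c n s))
        (isImage_map (W := twist g D) (h : Ω →ₐ[L] Ω) A)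
    refine ⟨(S8 hk ctx.ax).sub_mem (ctx.map_mem_S γ hSel) hSel, fun l => ?_⟩
    obtain ⟨A, hA, hAσ⟩ := level_invariant ctx.two ctx.twO hF.monic hF.deg hF.der hF.ne hTC
      (exists_conj hk γ) hinvγ l
    refine ⟨A, hA, fun σ => ?_⟩
    exact hAσ (cj hk γ σ) σ (cj_spec hk γ σ)
  obtain ⟨Q, hQ, hcQ⟩ := ctx.main ctx.placeHyp MΩ hMΩ hH hG n
  obtain ⟨P, hPM, hPQ⟩ := hQ
  refine ⟨P, hPM, ι P, Q, ?_, hPQ.symm, fun σ Q' hQ' => ?_⟩
  · exact isImage_map (W := twist g D) (Algebra.ofId L Ω) P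
  · rw [(isImage_iff (W := twist g D) (σ : Ω →ₐ[L] Ω) Q Q').mp hQ']
    exact hcQ σ

end Pool.Agent.Lib.MP_89bcae_ag
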