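import Mathlib
import Pool.Agent.Lib.MP_89bcae_ag.CritPB8
import Pool.Agent.Lib.MP_89bcae_ag.DefsDens8
import Pool.Agent.Lib.MP_89bcae_ag.Geom8

/-!
# The criterion for twists by polynomials whose roots are permuted by an automorphism: statement
-/

open Polynomial WeierstrassCurve IsDedekindDomain IntermediateField

open scoped Classical

namespace Pool.Agent.Lib.MP_89bcae_ag

set_option linter.unusedSectionVars false

universe u

section

variable {k F : Type*} [Field k] [Field F] [Algebra k F] [IsAlgClosed F] {φ : F ≃ₐ[k] F}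
  {g D : k[X]} {n : ℕ} {α β : F}

/-- The symbols of two differences of roots of a fibre, in terms of a product of differences. -/
lemma OrbP8.nu_prod (h2 : (2 : k) ≠ 0) (h : OrbP8 φ g D n α β) {u : ℕ} (hu : ¬ n ∣ u) :
    nuP8 (φ ^ (3 * n)) (((φ ^ u) β - β) * ((φ ^ u) β - (φ ^ n) β)) =
      aaP φ n D α β (u : ZMod (3 * n)) +
        aaP φ n D α β ((u : ZMod (3 * n)) - ((n : ℕ) : ZMod (3 * n))) := by
  have hn0 := h.pos
  have : NeZero (3 * n) := ⟨by omega⟩
  have hne : ∀ c : ℕ, (u : ZMod (3 * n)) ≠ ((n * c : ℕ) : ZMod (3 * n)) := by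
    intro c hc
    rw [ZMod.natCast_eq_natCast_iff, Nat.modEq_iff_dvd] at hc
    apply hu
    have h1 : ((n : ℕ) : ℤ) ∣ ((3 * n : ℕ) : ℤ) := by exact_mod_cast Dvd.intro_left 3 rfl
    have h3 := h1.trans hc
    have h4 : ((n : ℕ) : ℤ) ∣ ((n * c : ℕ) : ℤ) := by exact_mod_cast Dvd.intro c rfl
    have h5 := (dvd_sub_right h4).mp h3
    exact_mod_cast h5
  have hu0 : (u : ZMod (3 * n)) ≠ 0 := by
    have := hne 0
    rwa [mul_zero, Nat.cast_zero] at this
  have hu1 : (u : ZMod (3 * n)) ≠ ((n : ℕ) : ZMod (3 * n)) := by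
    have := hne 1
    rwa [mul_one] at this
  have hu2 : (u : ZMod (3 * n)) ≠ ((2 * n : ℕ) : ZMod (3 * n)) := by
    have := hne 2
    rwa [mul_comm n 2] at this
  have h3n : ((3 * n : ℕ) : ZMod (3 * n)) = 0 := ZMod.natCast_self _
  have hv0 : (u : ZMod (3 * n)) - ((n : ℕ) : ZMod (3 * n)) ≠ 0 := sub_ne_zero.mpr hu1
  have hv1 : (u : ZMod (3 * n)) - ((n : ℕ) : ZMod (3 * n)) ≠ ((n : ℕ) : ZMod (3 * n)) := by
    intro h1
    apply hu2
    rw [sub_eq_iff_eq_add, ← Nat.cast_add] at h1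
    rw [h1]
    congr 1
    ring
  have hv2 : (u : ZMod (3 * n)) - ((n : ℕ) : ZMod (3 * n)) ≠ ((2 * n : ℕ) : ZMod (3 * n)) := by
    intro h1
    apply hu0
    rw [sub_eq_iff_eq_add, ← Nat.cast_add] at h1
    rw [h1]
    have : 2 * n + n = 3 * n := by ring
    rw [this, h3n]
  have hbu : bbP φ n D α β (u : ZMod (3 * n)) = (φ ^ u) β - β := by
    rw [bbP, if_neg hu0, if_neg (not_or.mpr ⟨hu1, hu2⟩), h.e_natCast]
  have hbv : bbP φ n D α β ((u : ZMod (3 * n)) - ((n : ℕ) : ZMod (3 * n))) =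
      eP8 φ β ((u : ZMod (3 * n)) - ((n : ℕ) : ZMod (3 * n))) - β := by
    rw [bbP, if_neg hv0, if_neg (not_or.mpr ⟨hv1, hv2⟩)]
  have hfac : (φ ^ u) β - (φ ^ n) β =
      (φ ^ n) (bbP φ n D α β ((u : ZMod (3 * n)) - ((n : ℕ) : ZMod (3 * n)))) := by
    rw [hbv, map_sub, ← h.e_add_natCast, sub_add_cancel, h.e_natCast]
  have hfix : (φ ^ (3 * n)) ((φ ^ n) (bbP φ n D α β ((u : ZMod (3 * n)) -
      ((n : ℕ) : ZMod (3 * n))))) =
      (φ ^ n) (bbP φ n D α β ((u : ZMod (3 * n)) - ((n : ℕ) : ZMod (3 * n)))) := by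
    rw [← AlgEquiv.mul_apply, ← pow_add, add_comm, pow_add, AlgEquiv.mul_apply, h.autP_bb]
  rw [hfac, ← hbu, nuP8_mul h2 (h.autP_bb _) (h.bb_ne _) hfix
    ((_root_.map_ne_zero _).mpr (h.bb_ne _)), nuP8_aut]
  rfl

end

/-- If the roots of `D ∘ g` are permuted transitively by `φ` and a power of `φ` moves a square root
of the product of two differences, there are no Tate classes. -/
theorem noTateClass_of_movesP8 (k F L Ω : Type u) [Field k] [Field F] [Algebra k F]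
    [IsAlgClosure k F] [Field L] [Algebra F[X] L] [IsFractionRing F[X] L] [Field Ω] [Algebra L Ω]
    [IsSepClosure L Ω] (h2 : (2 : k) ≠ 0) {g D : k[X]} {φ : F ≃ₐ[k] F} {j : ℕ} {α β : F}
    (h : OrbP8 φ g D (3 ^ j) α β) {u : ℕ} (hu : ¬ 3 ^ j ∣ u)
    (hm : Moves (fun x => (φ ^ (3 * 3 ^ j)) x) (((φ ^ u) β - β) * ((φ ^ u) β - (φ ^ 3 ^ j) β))) :
    NoTateClass k F L Ω g D := by
  have hF : IsAlgClosed F := IsAlgClosure.isAlgClosed k
  have hkF : Algebra.IsAlgebraic k F := IsAlgClosure.isAlgebraic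
  have hΩ : IsSepClosed Ω := IsSepClosure.sep_closed L
  have hsp : Algebra.IsSeparable L Ω := IsSepClosure.separable
  have hG : IsGalois L Ω := IsSepClosure.isGalois
  have hsep : (D.comp g).Separable := h.separable
  have hD0 : D ≠ 0 := h.ne_zero
  have hd : derivative g ≠ 0 := by
    intro h0
    have h1 : derivative (D.comp g) = 0 := by
      rw [derivative_comp, h0, zero_mul]
    rw [Polynomial.Separable, h1, isCoprime_zero_right] at hsep
    have h3 := natDegree_eq_zero_of_isUnit hsep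
    rw [h.natDegree_comp] at h3
    have := h.pos
    omega
  intro k' _ c hc hS hinv
  have hgood : Good g D := ⟨h2, h.monic, h.deg, hd, hD0⟩
  have hmain := kummer_of_fixed (k := k) (F := F) (L := L) (Ω := Ω) hgood hsep
    (⊥ : AddSubgroup ((twist g D).map (base k F L L)).toAffine.Point) ?_ k' c hc
    (fun τ n => hS (placeAt τ) n) hinv
  · intro n
    obtain ⟨P, hP, P', Q, h3, h4, h5⟩ := hmain n
    rw [AddSubgroup.mem_bot] at hP
    subst hP
    cases h3
    exact ⟨Q, h4, fun σ Q' hQ' => h5 σ Q' hQ'⟩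
  · intro Z hne hZ heven
    by_contra hcon
    rw [not_or, not_or] at hcon
    obtain ⟨H1, H2, -⟩ := hcon
    have H1' : ∀ γ : F, aeval γ (D.comp g) = 0 → γ ∉ Z →
        ∃ s ∈ adjoin k {β : F | aeval β (D.comp g) = 0},
          s ^ 2 = PZ (g.map (algebraMap k F)) (D.map (algebraMap k F)) Z γ := by
      intro γ h3 h4
      by_contra h5
      push Not at h5
      exact H1 ⟨γ, h3, h4, h5⟩
    have H2' : ∀ γ ∈ Z, ∀ γ' ∈ Z, ∃ s ∈ adjoin k {β : F | aeval β (D.comp g) = 0},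
        s ^ 2 = PZ (g.map (algebraMap k F)) (D.map (algebraMap k F)) Z γ *
          PZ (g.map (algebraMap k F)) (D.map (algebraMap k F)) Z γ' := by
      intro γ h3 γ' h4
      by_contra h5
      push Not at h5
      exact H2 ⟨γ, h3, γ', h4, h5⟩
    have hne0 : ∀ c : ℕ, (u : ZMod (3 * 3 ^ j)) ≠ ((3 ^ j * c : ℕ) : ZMod (3 * 3 ^ j)) := by
      intro c hc
      rw [ZMod.natCast_eq_natCast_iff, Nat.modEq_iff_dvd] at hc
      apply hu
      have h1 : ((3 ^ j : ℕ) : ℤ) ∣ ((3 * 3 ^ j : ℕ) : ℤ) := by exact_mod_cast Dvd.intro_left 3 rfl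
      have h3 := h1.trans hc
      have h4 : ((3 ^ j : ℕ) : ℤ) ∣ ((3 ^ j * c : ℕ) : ℤ) := by exact_mod_cast Dvd.intro c rfl
      have h5 := (dvd_sub_right h4).mp h3
      exact_mod_cast h5
    have h6 := h.symbol_eq h2 hne hZ heven H1' H2' (i := (u : ZMod (3 * 3 ^ j)))
      (by have := hne0 0; rwa [mul_zero, Nat.cast_zero] at this)
      (by have := hne0 1; rwa [mul_one] at this)
    have h7 := h.nu_prod h2 hu
    rw [h6, CharTwo.add_self_eq_zero, nuP8_eq_zero_iff] at h7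
    obtain ⟨s, hs, hs2⟩ := h7
    exact hm s hs2 hs

end Pool.Agent.Lib.MP_89bcae_ag
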