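import Mathlib
import Pool.Agent.Lib.MP_89bcae_ag.InfNP8

/-!
# The last step of the argument: general automorphisms
-/

open Polynomial

open scoped Classical

namespace Pool.Agent.Lib.MP_89bcae_ag

set_option linter.unusedSectionVars false

variable {k F : Type*} [Field k] [Field F] [Algebra k F] [IsAlgClosed F] {φ : F ≃ₐ[k] F}
  {g D : k[X]} {n : ℕ} {α β : F}

/-- A natural number not divisible by `n` is not a multiple of `n` modulo `3 n`. -/
lemma ne_of_not_dvdP8 {n u : ℕ} (hu : ¬ n ∣ u) (c : ℕ) :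
    (u : ZMod (3 * n)) ≠ ((n * c : ℕ) : ZMod (3 * n)) := by
  intro hc
  rw [ZMod.natCast_eq_natCast_iff, Nat.modEq_iff_dvd] at hc
  apply hu
  have h1 : ((n : ℕ) : ℤ) ∣ ((3 * n : ℕ) : ℤ) := by exact_mod_cast Dvd.intro_left 3 rfl
  have h3 := h1.trans hc
  have h4 : ((n : ℕ) : ℤ) ∣ ((n * c : ℕ) : ℤ) := by exact_mod_cast Dvd.intro c rfl
  have h5 := (dvd_sub_right h4).mp h3
  exact_mod_cast h5

/-- If the first divisor is a pair of points of one fibre and the formula holds, the second divisor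
is not supported on this fibre. -/
theorem lastP8 (ho : OrbP8 φ g D n α β) {u : ℕ} (hun : ¬ n ∣ u)
    (hm : Moves (fun x => (φ ^ (3 * n)) x) (((φ ^ u) β - β) * ((φ ^ u) β - (φ ^ n) β)))
    {Z Z' : Finset F} (hZ : ∀ c ∈ Z, aeval c (D.comp g) = 0)
    (hind : OrbP8.indP8 φ n β Z = pair8 n)
    (hf : ∀ b : F, aeval b (D.comp g) = 0 → b ∉ Z →
      (b ∈ Z' ↔ Moves (fun x => (φ ^ (3 * n)) x) (∏ c ∈ Z, (b - c)))) :
    ¬ ∀ u : ZMod (3 * n), u ≠ 0 → u ≠ (n : ℕ) → u ≠ (2 * n : ℕ) → OrbP8.indP8 φ n β Z' u = 0 := by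
  intro hall
  have hn0 : 0 < n := ho.pos
  have : NeZero (3 * n) := ⟨by omega⟩
  have hcast : ∀ a b : ℕ, a < 3 * n → b < 3 * n → ((a : ZMod (3 * n)) = b ↔ a = b) := by
    intro a b ha hb
    rw [ZMod.natCast_eq_natCast_iff, Nat.ModEq, Nat.mod_eq_of_lt ha, Nat.mod_eq_of_lt hb]
  have hmem : ∀ t : ZMod (3 * n), eP8 φ β t ∈ Z ↔ t = 0 ∨ t = (n : ℕ) := by
    intro t
    have h1 := congrFun hind t
    unfold OrbP8.indP8 pair8 at h1
    constructor
    · intro h3
      by_contra h4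
      rw [if_pos h3, if_neg h4] at h1
      exact one_ne_zero h1
    · intro h3
      by_contra h4
      rw [if_neg h4, if_pos h3] at h1
      exact zero_ne_one h1
  have hZeq : Z = {eP8 φ β (0 : ZMod (3 * n)), eP8 φ β ((n : ℕ) : ZMod (3 * n))} := by
    ext c
    rw [Finset.mem_insert, Finset.mem_singleton]
    constructor
    · intro hc
      obtain ⟨t, rfl⟩ := ho.e_surj (hZ c hc)
      rcases (hmem t).mp hc with rfl | rfl
      · exact Or.inl rfl
      · exact Or.inr rfl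
    · rintro (rfl | rfl)
      · exact (hmem _).mpr (Or.inl rfl)
      · exact (hmem _).mpr (Or.inr rfl)
  have hne : eP8 φ β (0 : ZMod (3 * n)) ≠ eP8 φ β ((n : ℕ) : ZMod (3 * n)) := by
    intro h
    have h1 := ho.e_injective h
    rw [← Nat.cast_zero, hcast _ _ (by omega) (by omega)] at h1
    omega
  -- the point outside the fibre
  have hu0 : (u : ZMod (3 * n)) ≠ 0 := by
    have := ne_of_not_dvdP8 hun 0
    rwa [mul_zero, Nat.cast_zero] at this
  have hu1 : (u : ZMod (3 * n)) ≠ (n : ℕ) := by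
    have := ne_of_not_dvdP8 hun 1
    rwa [mul_one] at this
  have hu2 : (u : ZMod (3 * n)) ≠ (2 * n : ℕ) := by
    have := ne_of_not_dvdP8 hun 2
    rwa [mul_comm n 2] at this
  have huZ : eP8 φ β (u : ZMod (3 * n)) ∉ Z := by
    rw [hmem, not_or]
    exact ⟨hu0, hu1⟩
  have huZ' : eP8 φ β (u : ZMod (3 * n)) ∉ Z' := by
    intro h
    have h1 := hall u hu0 hu1 hu2
    unfold OrbP8.indP8 at h1
    rw [if_pos h] at h1
    exact one_ne_zero h1
  apply (not_congr (hf _ (ho.e_root u) huZ)).mp huZ'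
  rw [hZeq, Finset.prod_pair hne, OrbP8.e_zero, ho.e_natCast, ho.e_natCast]
  exact hm

end Pool.Agent.Lib.MP_89bcae_ag
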