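import Mathlib
import Pool.Agent.Lib.MP_89bcae_ag.InfN8
import Pool.Agent.Lib.MP_89bcae_ag.LocInf7
import Pool.Agent.Lib.MP_89bcae_ag.Main8

/-!
# The induction over the tower
-/

open Polynomial WeierstrassCurve WeierstrassCurve.Affine IsDedekindDomain

open scoped Classical

namespace Pool.Agent.Lib.MP_89bcae_ag

set_option linter.unusedSectionVars false
set_option linter.style.haveILetI false

universe u

variable {k F L Ω : Type u} [Field k] [Field F] [Algebra k F] [Algebra.IsAlgebraic k F]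
  [IsAlgClosed F] [Field L] [Algebra F[X] L] [IsFractionRing F[X] L] [Field Ω]
  [Algebra L Ω] [IsGalois L Ω] [IsSepClosed Ω] [IsSepClosure L Ω]

/-- All the classes over `L(s)` which satisfy the local conditions and are fixed by a power of `φ`
vanish. -/
def NoW8 (L : Type u) {k F Ω : Type u} [Field k] [Field F] [Algebra k F] [IsAlgClosed F]
    [Field L] [Algebra F[X] L] [IsFractionRing F[X] L] [Field Ω] [Algebra L Ω]
    (W : WeierstrassCurve k[X]) (s : Ω)
    (φ : letI := algK k F L Ω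
      Ω ≃ₐ[k[X]] Ω) : Prop :=
  letI := algK k F L L
  letI := algK k F L Ω
  haveI : IsScalarTower k[X] L Ω := IsScalarTower.of_algebraMap_eq fun _ => rfl
  letI := actW (k := k) (Ω := Ω) W.toAffine
  ∀ (_ : (HS8 k L s).Normal)
    (hL : Inf.LocAx (A := (W.toAffine.baseChange Ω).Point) (HS8 k L s) (LocS W s)),
    ∀ x ∈ Inf.Wg Ω hL φ, x = 0

/-- Smoothness of the coboundaries. -/
lemma sm_cob (W : WeierstrassCurve k[X])
    (H : letI := algK k F L Ω
      Subgroup (Ω ≃ₐ[k[X]] Ω)) :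
    letI := algK k F L L
    letI := algK k F L Ω
    haveI : IsScalarTower k[X] L Ω := IsScalarTower.of_algebraMap_eq fun _ => rfl
    letI := actW (k := k) (Ω := Ω) W.toAffine
    ∀ a : (W.toAffine.baseChange Ω).Point, Inf.Sm Ω H (Inf.cob a) := by
  letI := algK k F L L
  letI := algK k F L Ω
  haveI : IsScalarTower k[X] L Ω := IsScalarTower.of_algebraMap_eq fun _ => rfl
  letI := actW (k := k) (Ω := Ω) W.toAffine
  intro a
  rcases a with _ | ⟨x, y, hxy⟩
  · exact ⟨∅, fun σ _ _ => Inf.cob_zero σ⟩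
  · refine ⟨{x, y}, fun σ _ h => ?_⟩
    have hx : σ x = x := h x (by simp)
    have hy : σ y = y := h y (by simp)
    unfold Inf.cob
    rw [sub_eq_zero]
    change Point.map (W' := W.toAffine) (σ : Ω →ₐ[k[X]] Ω) (Point.some x y hxy) = _
    rw [Point.map_some]
    congr 1

/-- **One step of the tower.** -/
theorem noW8_step [Fintype k] {g D : k[X]} (hgood : Good g 1) {j : ℕ} {α β : F}
    (ho : Orb8 g D (3 ^ j) α β) {r : ℕ} (hr : 1 ≤ r) {s : Ω}
    (hs : s ^ (2 ^ (r + 1)) = base k F L Ω D)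
    {φ : letI := algK k F L Ω
      Ω ≃ₐ[k[X]] Ω}
    (hφs : φ s = s)
    (hφ : letI := algK k F L L
      letI := algK k F L Ω
      letI := algF F L Ω
      haveI : IsScalarTower F[X] L Ω := IsScalarTower.of_algebraMap_eq fun _ => rfl
      haveI : IsScalarTower k[X] L Ω := IsScalarTower.of_algebraMap_eq fun _ => rfl
      resF (k := k) (F := F) (L := L) (Ω := Ω) (fun _ => rfl) φ = frob8 k F)
    (hform : letI := algK k F L L
      letI := algK k F L Ω
      haveI : IsScalarTower k[X] L Ω := IsScalarTower.of_algebraMap_eq fun _ => rfl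
      letI := actW (k := k) (Ω := Ω) (twist g 1).toAffine
      ∀ τ ∈ GL8 k L Ω, τ (s ^ (2 ^ r)) = -(s ^ (2 ^ r)) →
      ∀ (z z' y : (Ω ≃ₐ[k[X]] Ω) → ((twist g 1).toAffine.baseChange Ω).Point)
        (a a' : ((twist g 1).toAffine.baseChange Ω).Point),
        Inf.Adm (A := ((twist g 1).toAffine.baseChange Ω).Point) Ω (GL8 k L Ω)
          (LocS (twist g 1) s) z →
        Inf.Adm (A := ((twist g 1).toAffine.baseChange Ω).Point) Ω (GL8 k L Ω)
          (LocS (twist g 1) s) z' →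
        Inf.Adm (A := ((twist g 1).toAffine.baseChange Ω).Point) Ω (HS8 k L (s ^ (2 ^ r)))
          (LocS (twist g 1) s) y →
        2 • a = 0 → 2 • a' = 0 →
        (∀ σ ∈ HS8 k L (s ^ (2 ^ r)), y σ - Inf.cj τ y σ = z σ + Inf.cob a σ) →
        (∀ σ ∈ HS8 k L (s ^ (2 ^ r)),
          Inf.cj (φ ^ (3 * 3 ^ j)) y σ - y σ = z' σ + Inf.cob a' σ) →
        dv8 L g (3 ^ j) β z = pair8 (3 ^ j) →
        ¬ ∀ i : ZMod (3 * 3 ^ j), i ≠ 0 → i ≠ (3 ^ j : ℕ) → i ≠ (2 * 3 ^ j : ℕ) →
          dv8 L g (3 ^ j) β z' i = 0)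
    (hprev : NoW8 L (twist g 1) (s ^ 2) φ) : NoW8 L (twist g 1) s φ := by
  letI := algK k F L L
  letI := algK k F L Ω
  letI := algF F L Ω
  haveI : IsScalarTower F[X] L Ω := IsScalarTower.of_algebraMap_eq fun _ => rfl
  haveI : IsScalarTower k[X] L Ω := IsScalarTower.of_algebraMap_eq fun _ => rfl
  letI := actW (k := k) (Ω := Ω) (twist g 1).toAffine
  intro hNs hLs x hx
  have hk : ∀ p : k[X], algebraMap k[X] L p = algebraMap F[X] L (p.map (algebraMap k F)) :=
    fun _ => rfl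
  have hF := hgood.map F
  have h2Ω : (2 : Ω) ≠ 0 := two_ne_zero_Om (F := F) L Ω hF.two
  have hW : IsTwist Ω (twist g 1).toAffine (g.map (algebraMap k F))
      ((1 : k[X]).map (algebraMap k F)) := (isTwist_twist hk).up
  have hs' : s ^ (2 ^ (r + 1)) = algebraMap k[X] Ω D := hs
  have hD0 : (D.map (algebraMap k F)).natDegree = 3 ^ j := by rw [natDegree_map, ho.degD]
  have hDodd : Odd (D.map (algebraMap k F)).natDegree := by
    rw [hD0]; exact Odd.pow (by decide)
  have hDne : D ≠ 0 := ho.ne_zero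
  have hDΩ : algebraMap k[X] Ω D ≠ 0 := by
    intro h0
    have h1 : algebraMap L Ω (algebraMap F[X] L (D.map (algebraMap k F))) = 0 := h0
    rw [map_eq_zero, FaithfulSMul.algebraMap_eq_zero_iff] at h1
    exact (Polynomial.map_ne_zero hDne) h1
  have hs0 : s ≠ 0 := by
    rintro rfl
    rw [zero_pow (by positivity)] at hs'
    exact hDΩ hs'.symm
  have hs2 : (s ^ 2) ^ (2 ^ r) = algebraMap k[X] Ω D := by
    rw [← pow_mul, ← pow_succ']; exact hs'
  have hs20 : s ^ 2 ≠ 0 := pow_ne_zero _ hs0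
  haveI hN2 : (HS8 k L (s ^ 2)).Normal := hs_normal hk hs2 hs20
  haveI hNG : (GL8 k L Ω).Normal := gs_normal hk
  haveI hN1 : (HS8 k L (s ^ (2 ^ r))).Normal := by
    apply hs_normal (r := 1) hk (D := D) _ (pow_ne_zero _ hs0)
    rw [← pow_mul, pow_one, ← pow_succ]; exact hs'
  have hsa : ∀ γ : Ω ≃ₐ[k[X]] Ω, ∃ a : F, γ s = algebraMap L Ω (algebraMap F[X] L (C a)) * s := by
    intro γ
    obtain ⟨ζ, -, h⟩ := exists_zeta (F := F) hs' hs0 γ
    exact ⟨ζ, h⟩
  have hsa2 : ∀ γ : Ω ≃ₐ[k[X]] Ω, ∃ a : F,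
      γ (s ^ 2) = algebraMap L Ω (algebraMap F[X] L (C a)) * s ^ 2 := by
    intro γ
    obtain ⟨ζ, -, h⟩ := exists_zeta (F := F) hs2 hs20 γ
    exact ⟨ζ, h⟩
  have hL2 := locAx_LocS (k := k) (F := F) (L := L) (Ω := Ω) (twist g 1) hsa2
  obtain ⟨τ, hτ, ζ, hζ, hτs⟩ := exists_tau (k := k) (F := F) (L := L) (Ω := Ω) (D := D) hs' hs0 (by
    intro h
    exact not_sq_of_odd (F := F) (L := L) hDodd h)
  have hqodd : Odd (Fintype.card k) := by
    rw [Nat.odd_iff]
    apply FiniteField.odd_card_of_char_ne_two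
    intro h2
    apply hF.two
    have h3 : ((2 : ℕ) : k) = 0 := by
      rw [← h2]; exact ringChar.Nat.cast_ringChar
    have h4 := congrArg (algebraMap k F) h3
    rw [map_natCast, map_zero] at h4
    exact_mod_cast h4
  have hres : ∀ a : F, resF hk φ a = a ^ Fintype.card k := by
    intro a
    have h1 : resF hk φ = frob8 k F := hφ
    rw [h1, frob8_apply]
  have hT := tw_of (k := k) (F := F) (L := L) hk hr hs' hs0 hτ hζ hτs hφs hqodd hres
  have hτ1 : τ (s ^ (2 ^ r)) = -(s ^ (2 ^ r)) := by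
    have h6 : ζ ^ (2 ^ r) = -1 := by
      have h7 : (ζ ^ (2 ^ r)) ^ 2 = 1 := by rw [← pow_mul, ← pow_succ, hζ.pow_eq_one]
      rcases eq_one_or_neg_one_of_sq h7 with h8 | h8
      · exfalso
        have h9 := Nat.le_of_dvd (by positivity) ((hζ.pow_eq_one_iff_dvd (2 ^ r)).mp h8)
        rw [pow_succ] at h9
        have : 0 < 2 ^ r := by positivity
        omega
      · exact h8
    rw [map_pow, hτs, mul_pow, ← cst_pow, h6, cst_neg_one, neg_one_mul]
  refine Inf.Wg_eq_zero (H1 := HS8 k L (s ^ (2 ^ r))) (G := GL8 k L Ω)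
    (hL' := hL2) (dv := dv8 L g (3 ^ j) β) hT ?_ hr ?_ ?_ ?_ ?_ ?_ ?_ ?_ hx
  · intro a ha hfix
    exact noInv_of (k := k) (F := F) (L := L) h2Ω hW hF.monic hF.deg hF.der hF.ne hs' a ha
      hfix
  · exact locS_down (k := k) (F := F) (L := L) (twist g 1) s
  · exact hprev hN2 hL2
  · exact exists_halves L hF hW
  · exact sm_cob (k := k) (F := F) (L := L) (twist g 1) _
  · exact dvAx8 hgood ho hs hsa hNG hφ
  · intro z hz
    exact dv8_even hgood ho hs hz
  · exact hform τ hτ hτ1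

end Pool.Agent.Lib.MP_89bcae_ag
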