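import Mathlib
import Pool.Agent.Lib.MP_89bcae_ag.InfR8
import Pool.Agent.Lib.MP_89bcae_ag.InfNP8

/-!
# The induction over the tower: general automorphisms
-/

open Polynomial WeierstrassCurve WeierstrassCurve.Affine IsDedekindDomain

open scoped Classical

namespace Pool.Agent.Lib.MP_89bcae_ag

set_option linter.unusedSectionVars false
set_option linter.style.haveILetI false

section Groups

variable {k F L Ω : Type*} [Field k] [Field F] [Algebra k F] [Algebra.IsAlgebraic k F]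
  [IsAlgClosed F] [Field L] [Field Ω]
  [Algebra F[X] L] [IsFractionRing F[X] L] [Algebra L Ω] [Algebra F[X] Ω] [IsScalarTower F[X] L Ω]
  [Algebra k[X] L] [Algebra k[X] Ω] [IsScalarTower k[X] L Ω]
  [IsGalois L Ω] [IsSepClosed Ω] [IsSepClosure L Ω]

variable (hk : ∀ p : k[X], algebraMap k[X] L p = algebraMap F[X] L (p.map (algebraMap k F)))

variable {D : k[X]} {r : ℕ} {s : Ω}

include hk in
/-- **The groups of the cyclic cover.** -/
theorem tw_ofP8 (hr : 1 ≤ r) (hs : s ^ (2 ^ (r + 1)) = algebraMap k[X] Ω D)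
    (hs0 : s ≠ 0) {τ : Ω ≃ₐ[k[X]] Ω} (hτ : τ ∈ GL8 k L Ω) {ζ : F}
    (hζ : IsPrimitiveRoot ζ (2 ^ (r + 1))) (h1 : τ s = cst Ω ζ * s) {φ : Ω ≃ₐ[k[X]] Ω}
    (hφ : φ s = s) {q : ℕ} (hq : Odd q) (hres : resF hk φ ζ = ζ ^ q) :
    Inf.Tw Ω (HS8 k L s) (HS8 k L (s ^ 2)) (HS8 k L (s ^ (2 ^ r))) (GL8 k L Ω) τ φ r q := by
  have hp : ∀ i : ℕ, τ ^ i ∈ GL8 k L Ω := fun i => (GL8 k L Ω).pow_mem hτ i
  have hgen : ∀ g ∈ GL8 k L Ω, ∃ i : ℕ, g s = cst Ω (ζ ^ i) * s := by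
    intro g _
    obtain ⟨ζ', hζ', h3⟩ := exists_zeta (F := F) hs hs0 g
    obtain ⟨i, -, hi⟩ := hζ.eq_pow_of_pow_eq_one hζ'
    exact ⟨i, by rw [h3, hi]⟩
  have hone : ∀ u : F, ∀ x : Ω, x ≠ 0 → cst Ω u * x = x → u = 1 := by
    intro u x hx h3
    have h4 : cst Ω u = 1 := by
      have := mul_right_cancel₀ hx (h3.trans (one_mul x).symm)
      exact this
    apply const_injective L Ω
    rw [C_1, map_one]
    exact h4
  have hsub : ∀ m : ℕ, HS8 k L s ≤ HS8 k L (s ^ m) := by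
    intro m g hg
    exact ⟨hg.1, by rw [map_pow, hg.2]⟩
  refine ⟨hsub 2, ?_, fun g hg => hg.1, hτ, ?_, ?_, ?_, ?_, ?_, ?_, hq, ?_⟩
  · intro g hg
    obtain ⟨m, rfl⟩ : ∃ m, r = m + 1 := ⟨r - 1, by omega⟩
    refine ⟨hg.1, ?_⟩
    rw [pow_succ', pow_mul, map_pow, hg.2]
  · refine ⟨hp _, ?_⟩
    rw [map_pow, pow_map_s hτ h1, mul_pow, ← cst_pow, ← pow_mul, ← pow_succ,
      hζ.pow_eq_one, cst_one, one_mul]
  · refine ⟨hp _, ?_⟩
    rw [pow_map_s hτ h1, hζ.pow_eq_one, cst_one, one_mul]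
  · intro g hg
    obtain ⟨i, hi⟩ := hgen g hg
    refine ⟨i, mem_hs_of hg (hp i) ?_⟩
    rw [hi, pow_map_s hτ h1]
  · intro g hg
    obtain ⟨i, hi⟩ := hgen g hg.1
    have h3 := hg.2
    rw [map_pow, hi, mul_pow, ← cst_pow, ← pow_mul] at h3
    have h4 := hone _ _ (pow_ne_zero _ hs0) h3
    rw [hζ.pow_eq_one_iff_dvd, pow_succ', Nat.mul_dvd_mul_iff_right (by positivity)] at h4
    obtain ⟨j, rfl⟩ := h4
    refine ⟨j, mem_hs_of hg.1 (hp _) ?_⟩
    rw [hi, pow_map_s hτ h1]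
  · intro g hg
    obtain ⟨i, hi⟩ := hgen g hg.1
    have h3 := hg.2
    rw [map_pow, hi, mul_pow, ← cst_pow, ← pow_mul] at h3
    have h4 := hone _ _ (pow_ne_zero _ hs0) h3
    have h5 : ζ ^ i = 1 ∨ ζ ^ i = -1 := by
      rw [pow_mul] at h4
      exact eq_one_or_neg_one_of_sq h4
    rcases h5 with h5 | h5
    · left
      refine ⟨hg.1, ?_⟩
      rw [hi, h5, cst_one, one_mul]
    · right
      apply mem_hs_of hg.1 (hp _)
      rw [hi, pow_map_s hτ h1]
      have h6 : ζ ^ (2 ^ r) = -1 := by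
        have h7 : (ζ ^ (2 ^ r)) ^ 2 = 1 := by rw [← pow_mul, ← pow_succ, hζ.pow_eq_one]
        rcases eq_one_or_neg_one_of_sq h7 with h8 | h8
        · exfalso
          have h9 := Nat.le_of_dvd (by positivity) ((hζ.pow_eq_one_iff_dvd (2 ^ r)).mp h8)
          rw [pow_succ] at h9
          have : 0 < 2 ^ r := by positivity
          omega
        · exact h8
      rw [h5, h6]
  · refine ⟨(GL8 k L Ω).mul_mem ((gs_normal hk).conj_mem _ hτ φ)
      ((GL8 k L Ω).inv_mem ((GL8 k L Ω).pow_mem hτ q)), ?_⟩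
    have h3 : φ⁻¹ s = s := by
      apply φ.injective
      rw [hφ]
      exact φ.apply_symm_apply s
    have h4 : (φ * τ * φ⁻¹) s = (τ ^ q) s := by
      rw [AlgEquiv.mul_apply, AlgEquiv.mul_apply, h3, h1, map_mul, hφ, map_cst hk, hres,
        pow_map_s hτ h1]
    have h5 : (φ * τ * φ⁻¹ * (τ ^ q)⁻¹) ((τ ^ q) s) = (τ ^ q) s := by
      rw [AlgEquiv.mul_apply, ← AlgEquiv.mul_apply (τ ^ q)⁻¹, inv_mul_cancel]
      exact h4
    rw [pow_map_s hτ h1, map_mul, gs_cst ((GL8 k L Ω).mul_mem ((gs_normal hk).conj_mem _ hτ φ)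
      ((GL8 k L Ω).inv_mem ((GL8 k L Ω).pow_mem hτ q)))] at h5
    apply mul_left_cancel₀ _ h5
    rw [cst_pow]
    apply pow_ne_zero
    intro h6
    apply hζ.ne_zero (by positivity)
    apply const_injective L Ω
    rw [C_0, map_zero]
    exact h6
  · refine ⟨{s}, fun σ hσ hx => ⟨hσ, ?_⟩⟩
    exact hx s (Finset.mem_singleton_self s)

end Groups

universe u

variable {k F L Ω : Type u} [Field k] [Field F] [Algebra k F] [Algebra.IsAlgebraic k F]
  [IsAlgClosed F] [Field L] [Algebra F[X] L] [IsFractionRing F[X] L] [Field Ω]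
  [Algebra L Ω] [IsGalois L Ω] [IsSepClosed Ω] [IsSepClosure L Ω]

/-- **One step of the tower.** -/
theorem noW8_stepP8 {φ₀ : F ≃ₐ[k] F} {g D : k[X]} (hgood : Good g 1) {j : ℕ} {α β : F}
    (ho : OrbP8 φ₀ g D (3 ^ j) α β) {r : ℕ} (hr : 1 ≤ r) {s : Ω}
    (hs : s ^ (2 ^ (r + 1)) = base k F L Ω D)
    {φ : letI := algK k F L Ω
      Ω ≃ₐ[k[X]] Ω}
    (hφs : φ s = s)
    (hφ : letI := algK k F L L
      letI := algK k F L Ω
      letI := algF F L Ω
      haveI : IsScalarTower F[X] L Ω := IsScalarTower.of_algebraMap_eq fun _ => rfl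
      haveI : IsScalarTower k[X] L Ω := IsScalarTower.of_algebraMap_eq fun _ => rfl
      resF (k := k) (F := F) (L := L) (Ω := Ω) (fun _ => rfl) φ = φ₀)
    (hform : letI := algK k F L L
      letI := algK k F L Ω
      haveI : IsScalarTower k[X] L Ω := IsScalarTower.of_algebraMap_eq fun _ => rfl
      letI := actW (k := k) (Ω := Ω) (twist g 1).toAffine
      ∀ τ ∈ GL8 k L Ω, τ (s ^ (2 ^ r)) = -(s ^ (2 ^ r)) →
      ∀ (z z' y : (Ω ≃ₐ[k[X]] Ω) → ((twist g 1).toAffine.baseChange Ω).Point)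
        (a a' : ((twist g 1).toAffine.baseChange Ω).Point),
        Inf.Adm (A := ((twist g 1).toAffine.baseChange Ω).Point) Ω (GL8 k L Ω)
          (LocS (twist g 1) s) z →
        Inf.Adm (A := ((twist g 1).toAffine.baseChange Ω).Point) Ω (GL8 k L Ω)
          (LocS (twist g 1) s) z' →
        Inf.Adm (A := ((twist g 1).toAffine.baseChange Ω).Point) Ω (HS8 k L (s ^ (2 ^ r)))
          (LocS (twist g 1) s) y →
        2 • a = 0 → 2 • a' = 0 →
        (∀ σ ∈ HS8 k L (s ^ (2 ^ r)), y σ - Inf.cj τ y σ = z σ + Inf.cob a σ) →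
        (∀ σ ∈ HS8 k L (s ^ (2 ^ r)),
          Inf.cj (φ ^ (3 * 3 ^ j)) y σ - y σ = z' σ + Inf.cob a' σ) →
        dvP8 φ₀ L g (3 ^ j) β z = pair8 (3 ^ j) →
        ¬ ∀ i : ZMod (3 * 3 ^ j), i ≠ 0 → i ≠ (3 ^ j : ℕ) → i ≠ (2 * 3 ^ j : ℕ) →
          dvP8 φ₀ L g (3 ^ j) β z' i = 0)
    (hprev : NoW8 L (twist g 1) (s ^ 2) φ) : NoW8 L (twist g 1) s φ := by
  letI := algK k F L L
  letI := algK k F L Ω
  letI := algF F L Ω
  haveI : IsScalarTower F[X] L Ω := IsScalarTower.of_algebraMap_eq fun _ => rfl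
  haveI : IsScalarTower k[X] L Ω := IsScalarTower.of_algebraMap_eq fun _ => rfl
  letI := actW (k := k) (Ω := Ω) (twist g 1).toAffine
  intro hNs hLs x hx
  have hk : ∀ p : k[X], algebraMap k[X] L p = algebraMap F[X] L (p.map (algebraMap k F)) :=
    fun _ => rfl
  have hF := hgood.map F
  have h2Ω : (2 : Ω) ≠ 0 := two_ne_zero_Om (F := F) L Ω hF.two
  have hW : IsTwist Ω (twist g 1).toAffine (g.map (algebraMap k F))
      ((1 : k[X]).map (algebraMap k F)) := (isTwist_twist hk).up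
  have hs' : s ^ (2 ^ (r + 1)) = algebraMap k[X] Ω D := hs
  have hD0 : (D.map (algebraMap k F)).natDegree = 3 ^ j := by rw [natDegree_map, ho.degD]
  have hDodd : Odd (D.map (algebraMap k F)).natDegree := by
    rw [hD0]; exact Odd.pow (by decide)
  have hDne : D ≠ 0 := ho.ne_zero
  have hDΩ : algebraMap k[X] Ω D ≠ 0 := by
    intro h0
    have h1 : algebraMap L Ω (algebraMap F[X] L (D.map (algebraMap k F))) = 0 := h0
    rw [map_eq_zero, FaithfulSMul.algebraMap_eq_zero_iff] at h1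
    exact (Polynomial.map_ne_zero hDne) h1
  have hs0 : s ≠ 0 := by
    rintro rfl
    rw [zero_pow (by positivity)] at hs'
    exact hDΩ hs'.symm
  have hs2 : (s ^ 2) ^ (2 ^ r) = algebraMap k[X] Ω D := by
    rw [← pow_mul, ← pow_succ']; exact hs'
  have hs20 : s ^ 2 ≠ 0 := pow_ne_zero _ hs0
  haveI hN2 : (HS8 k L (s ^ 2)).Normal := hs_normal hk hs2 hs20
  haveI hNG : (GL8 k L Ω).Normal := gs_normal hk
  haveI hN1 : (HS8 k L (s ^ (2 ^ r))).Normal := by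
    apply hs_normal (r := 1) hk (D := D) _ (pow_ne_zero _ hs0)
    rw [← pow_mul, pow_one, ← pow_succ]; exact hs'
  have hsa : ∀ γ : Ω ≃ₐ[k[X]] Ω, ∃ a : F, γ s = algebraMap L Ω (algebraMap F[X] L (C a)) * s := by
    intro γ
    obtain ⟨ζ, -, h⟩ := exists_zeta (F := F) hs' hs0 γ
    exact ⟨ζ, h⟩
  have hsa2 : ∀ γ : Ω ≃ₐ[k[X]] Ω, ∃ a : F,
      γ (s ^ 2) = algebraMap L Ω (algebraMap F[X] L (C a)) * s ^ 2 := by
    intro γ
    obtain ⟨ζ, -, h⟩ := exists_zeta (F := F) hs2 hs20 γ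
    exact ⟨ζ, h⟩
  have hL2 := locAx_LocS (k := k) (F := F) (L := L) (Ω := Ω) (twist g 1) hsa2
  obtain ⟨τ, hτ, ζ, hζ, hτs⟩ := exists_tau (k := k) (F := F) (L := L) (Ω := Ω) (D := D) hs' hs0 (by
    intro h
    exact not_sq_of_odd (F := F) (L := L) hDodd h)
  -- the action on the roots of unity
  obtain ⟨q, hqodd, hres⟩ : ∃ q : ℕ, Odd q ∧ resF hk φ ζ = ζ ^ q := by
    have h1 : (resF hk φ ζ) ^ (2 ^ (r + 1)) = 1 := by rw [← map_pow, hζ.pow_eq_one, map_one]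
    obtain ⟨q, -, hq⟩ := hζ.eq_pow_of_pow_eq_one h1
    refine ⟨q, ?_, hq.symm⟩
    by_contra hodd
    rw [Nat.not_odd_iff_even] at hodd
    obtain ⟨m, hm⟩ := hodd
    have h2 : resF hk φ (ζ ^ 2 ^ r) = 1 := by
      rw [map_pow, ← hq, ← pow_mul, hm]
      have : (m + m) * 2 ^ r = 2 ^ (r + 1) * m := by rw [pow_succ]; ring
      rw [this, pow_mul, hζ.pow_eq_one, one_pow]
    have h3 : ζ ^ 2 ^ r = 1 := by
      apply (resF hk φ).injective
      rw [h2, map_one]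
    have h4 := Nat.le_of_dvd (by positivity) ((hζ.pow_eq_one_iff_dvd (2 ^ r)).mp h3)
    rw [pow_succ] at h4
    have : 0 < 2 ^ r := by positivity
    omega
  have hT := tw_ofP8 (k := k) (F := F) (L := L) hk hr hs' hs0 hτ hζ hτs hφs hqodd hres
  have hτ1 : τ (s ^ (2 ^ r)) = -(s ^ (2 ^ r)) := by
    have h6 : ζ ^ (2 ^ r) = -1 := by
      have h7 : (ζ ^ (2 ^ r)) ^ 2 = 1 := by rw [← pow_mul, ← pow_succ, hζ.pow_eq_one]
      rcases eq_one_or_neg_one_of_sq h7 with h8 | h8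
      · exfalso
        have h9 := Nat.le_of_dvd (by positivity) ((hζ.pow_eq_one_iff_dvd (2 ^ r)).mp h8)
        rw [pow_succ] at h9
        have : 0 < 2 ^ r := by positivity
        omega
      · exact h8
    rw [map_pow, hτs, mul_pow, ← cst_pow, h6, cst_neg_one, neg_one_mul]
  refine Inf.Wg_eq_zero (H1 := HS8 k L (s ^ (2 ^ r))) (G := GL8 k L Ω)
    (hL' := hL2) (dv := dvP8 φ₀ L g (3 ^ j) β) hT ?_ hr ?_ ?_ ?_ ?_ ?_ ?_ ?_ hx
  · intro a ha hfix
    exact noInv_of (k := k) (F := F) (L := L) h2Ω hW hF.monic hF.deg hF.der hF.ne hs' a ha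
      hfix
  · exact locS_down (k := k) (F := F) (L := L) (twist g 1) s
  · exact hprev hN2 hL2
  · exact exists_halves L hF hW
  · exact sm_cob (k := k) (F := F) (L := L) (twist g 1) _
  · exact dvAxP8 hgood ho hs hsa hNG hφ
  · intro z hz
    exact dvP8_even hgood ho hs hz
  · exact hform τ hτ hτ1

end Pool.Agent.Lib.MP_89bcae_ag
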