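import Mathlib
import Pool.Agent.Lib.MP_89bcae_ag.InfC8

/-!
# The bottom of the tower: the first quadratic step, in the abstract setting
-/

namespace Pool.Agent.Lib.MP_89bcae_ag.Inf

set_option linter.unusedSectionVars false

variable {Γ A B X : Type*} [Group Γ] [AddCommGroup A] [DistribMulAction Γ A] [AddCommGroup B]
  [DistribMulAction Γ B] [MulAction Γ X]

/-- The isomorphism `ψ` of groups commutes with `γ`. -/
def Pos (ψ : A ≃+ B) (γ : Γ) : Prop := ∀ a, ψ (γ • a) = γ • ψ a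

/-- The isomorphism `ψ` of groups commutes with `γ` up to the sign `-1`. -/
def Ngt (ψ : A ≃+ B) (γ : Γ) : Prop := ∀ a, ψ (γ • a) = -(γ • ψ a)

lemma Pos.mul {ψ : A ≃+ B} {γ δ : Γ} (h : Pos ψ γ) (h' : Pos ψ δ) : Pos ψ (γ * δ) := by
  intro a
  rw [mul_smul, h, h', mul_smul]

lemma Ngt.mul {ψ : A ≃+ B} {γ δ : Γ} (h : Ngt ψ γ) (h' : Ngt ψ δ) : Pos ψ (γ * δ) := by
  intro a
  rw [mul_smul, h, h', smul_neg, neg_neg, mul_smul]

/-- The function with values in the second group. -/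
def tr (ψ : A ≃+ B) (f : Γ → A) (σ : Γ) : B := ψ (f σ)

lemma tr_cj_pos {ψ : A ≃+ B} {γ : Γ} (h : Pos ψ γ) (f : Γ → A) :
    cj γ (tr ψ f) = tr ψ (cj γ f) := by
  funext σ
  simp only [cj, tr]
  rw [h]

lemma tr_cj_ngt {ψ : A ≃+ B} {γ : Γ} (h : Ngt ψ γ) (f : Γ → A) (σ : Γ) :
    cj γ (tr ψ f) σ = -tr ψ (cj γ f) σ := by
  simp only [cj, tr]
  rw [h, neg_neg]

lemma tr_cob {ψ : A ≃+ B} {σ : Γ} (h : Pos ψ σ) (a : A) : ψ (cob a σ) = cob (ψ a) σ := by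
  simp only [cob]
  rw [map_sub, h]

lemma Eqv.tr {ψ : A ≃+ B} {m : ℕ} {H : Subgroup Γ} (hψ : ∀ σ ∈ H, Pos ψ σ) {f f' : Γ → A}
    (h : Eqv m H f f') : Eqv m H (tr ψ f) (tr ψ f') := by
  obtain ⟨a, ha, h⟩ := h
  refine ⟨ψ a, by rw [← map_nsmul, ha, map_zero], fun σ hσ => ?_⟩
  rw [← tr_cob (hψ σ hσ), ← h σ hσ, map_sub]
  rfl

lemma Pos.symm {ψ : A ≃+ B} {γ : Γ} (h : Pos ψ γ) : Pos ψ.symm γ := by
  intro b
  apply ψ.injective
  rw [h, ψ.apply_symm_apply, ψ.apply_symm_apply]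

lemma TCo.tr {ψ : A ≃+ B} {H : Subgroup Γ} (hψ : ∀ σ ∈ H, Pos ψ σ) {c : ℕ → Γ → A}
    (hc : TCo X H c) : TCo X H (fun n => tr ψ (c n)) where
  zero σ hσ := by
    change ψ (c 0 σ) = 0
    rw [hc.zero σ hσ, map_zero]
  two n σ hσ := by
    change 2 • ψ (c (n + 1) σ) = ψ (c n σ)
    rw [← map_nsmul, hc.two n σ hσ]
  co n σ hσ τ hτ := by
    change ψ (c n (σ * τ)) = ψ (c n σ) + σ • ψ (c n τ)
    rw [hc.co n σ hσ τ hτ, map_add, hψ σ hσ]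
  sm n := by
    obtain ⟨T, hT⟩ := hc.sm n
    refine ⟨T, fun σ hσ hx => ?_⟩
    change ψ (c n σ) = 0
    rw [hT σ hσ hx, map_zero]

section R1

variable {H G : Subgroup Γ} [H.Normal] [G.Normal] {τ φ : Γ}
  {Loc Loc' : (Γ → A) → Prop} {LocB LocB' : (Γ → B) → Prop} {hL : LocAx H Loc}

/-- The first step of the tower: the classes over the quadratic extension are the sum of a class
with values in `A` and a class with values in `B` over the base. -/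
theorem first_step (hHG : H ≤ G) (hτ2 : τ * τ ∈ H)
    (hgen : ∀ g ∈ G, g ∈ H ∨ τ⁻¹ * g ∈ H)
    (hop : ∃ T : Finset X, ∀ σ ∈ G, (∀ x ∈ T, σ • x = x) → σ ∈ H)
    (hA : ∀ a : A, 2 • a = 0 → (∀ σ ∈ H, σ • a = a) → a = 0)
    (hLB : LocAx H LocB)
    (ψ : A ≃+ B) (hψH : ∀ σ ∈ H, Pos ψ σ) (hψτ : Ngt ψ τ) (hψ : ∀ γ : Γ, Pos ψ γ ∨ Ngt ψ γ)
    (hLψ : ∀ f : Γ → A, Loc f → LocB (tr ψ f))
    (hLoc : ∀ d : ℕ → Γ → A, TCo X G d → (∀ n, Loc (d n)) → ∀ n, Loc' (d n))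
    (hLocB : ∀ d : ℕ → Γ → B, TCo X G d → (∀ n, LocB (d n)) → ∀ n, LocB' (d n))
    (hE : ∀ d : ℕ → Γ → A, TCo X G d → (∀ n, Loc' (d n)) → ∀ n, Eqv (2 ^ n) G (d n) 0)
    (hB : ∀ d : ℕ → Γ → B, TCo X G d → (∀ n, LocB' (d n)) →
      (∃ M : ℕ, 0 < M ∧ ∀ n, Eqv (2 ^ n) G (cj (φ ^ M) (d n)) (d n)) →
      ∀ n, Eqv (2 ^ n) G (d n) 0) :
    ∀ x ∈ Wg X hL φ, x = 0 := by
  rintro x ⟨hx, M, hM, h1⟩
  -- the part with values in `A`
  set y := x + cjQ A H τ x with hy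
  have hyZ : y ∈ ZQ X hL := (ZQ X hL).add_mem hx (cjQ_mem hL _ hx)
  have hτy : cjQ A H τ y = y := by
    rw [hy, map_add, ← cjQ_mul, cjQ_of_mem hL hτ2 hx, add_comm]
  have hy0 : y = 0 := by
    obtain ⟨d, hd, hdy⟩ := (mem_ZQ hL).mp hyZ
    obtain ⟨d', hd'1, hd'2⟩ := exists_extT (X := X) (hL := hL) hHG hA hop hd (by
      intro g hg
      rw [hdy]
      rcases hgen g hg with h2 | h2
      · exact cjQ_of_mem hL h2 hyZ
      · have h3 : g = τ * (τ⁻¹ * g) := by group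
        rw [h3, cjQ_mul, cjQ_of_mem hL h2 hyZ, hτy])
    have h5 := hE d' hd'1 (hLoc d' hd'1 (fun n => hL.congr (fun σ hσ => hd'2 n σ hσ) (hd.2 n)))
    rw [← hdy, ← QuotientAddGroup.mk_zero, mk_eq_iff]
    intro n
    obtain ⟨a, ha, h6⟩ := h5 n
    refine ⟨a, ha, fun σ hσ => ?_⟩
    rw [← h6 σ (hHG hσ), hd'2 n σ hσ]
    rfl
  obtain ⟨c, hc, hcx⟩ := (mem_ZQ hL).mp hx
  have hneg : ∀ n, Eqv (2 ^ n) H (cj τ (c n)) (fun σ => -c n σ) := by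
    have h2 : cjQ A H τ x = -x := by
      rw [hy] at hy0
      exact eq_neg_of_add_eq_zero_right hy0
    rw [← hcx, cjQ_mk, ← QuotientAddGroup.mk_neg, mk_eq_iff] at h2
    exact h2
  have hfixM : ∀ n, Eqv (2 ^ n) H (cj (φ ^ M) (c n)) (c n) := by
    rw [← hcx, cjQ_mk, mk_eq_iff] at h1
    exact h1
  -- the part with values in `B`
  have hB0 : ∀ b : B, 2 • b = 0 → (∀ σ ∈ H, σ • b = b) → b = 0 := by
    intro b hb hfix
    have h2 : ψ.symm b = 0 := by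
      apply hA
      · rw [← map_nsmul, hb, map_zero]
      · intro σ hσ
        rw [← (hψH σ hσ).symm, hfix σ hσ]
    rw [← ψ.apply_symm_apply b, h2, map_zero]
  have hcB : (fun n => tr ψ (c n)) ∈ Zg X H hLB :=
    ⟨hc.1.tr hψH, fun n => hLψ _ (hc.2 n)⟩
  have hcBτ : ∀ n, Eqv (2 ^ n) H (cj τ (tr ψ (c n))) (tr ψ (c n)) := by
    intro n
    obtain ⟨a, ha, h2⟩ := hneg n
    refine ⟨-ψ a, by rw [smul_neg, ← map_nsmul, ha, map_zero, neg_zero], fun σ hσ => ?_⟩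
    rw [tr_cj_ngt hψτ, cob_neg, ← tr_cob (hψH σ hσ), ← h2 σ hσ]
    simp only [tr]
    rw [map_sub, map_neg]
    abel
  have hcBZ : (QuotientAddGroup.mk (fun n => tr ψ (c n)) : Q B H) ∈ ZQ X hLB :=
    (mem_ZQ hLB).mpr ⟨_, hcB, rfl⟩
  obtain ⟨d', hd'1, hd'2⟩ := exists_extT (X := X) (hL := hLB) hHG hB0 hop hcB (by
    intro g hg
    rcases hgen g hg with h2 | h2
    · exact cjQ_of_mem hLB h2 hcBZ
    · have h3 : g = τ * (τ⁻¹ * g) := by group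
      rw [h3, cjQ_mul, cjQ_of_mem hLB h2 hcBZ, cjQ_mk, mk_eq_iff]
      exact hcBτ)
  have hLB2 := hLocB d' hd'1 (fun n => hLB.congr (fun σ hσ => hd'2 n σ hσ) (hcB.2 n))
  -- the sign disappears for the square
  have hpos : Pos ψ (φ ^ (M * 2)) := by
    rw [pow_mul, sq]
    rcases hψ (φ ^ M) with h | h
    · exact h.mul h
    · exact h.mul h
  have hfix2 : ∀ n, Eqv (2 ^ n) H (cj (φ ^ (M * 2)) (c n)) (c n) := by
    intro n
    rw [pow_mul, sq, cj_mul]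
    exact ((hfixM n).cj (conj_mem' _)).trans (hfixM n)
  have hfixB : ∀ n, Eqv (2 ^ n) G (cj (φ ^ (M * 2)) (d' n)) (d' n) := by
    intro n
    obtain ⟨a, ha, h3⟩ := (hfix2 n).tr hψH
    have h4 : ∀ σ ∈ H, cj (φ ^ (M * 2)) (d' n) σ - d' n σ = cob a σ := by
      intro σ hσ
      rw [← h3 σ hσ, ← tr_cj_pos hpos]
      simp only [cj]
      rw [hd'2 n _ (conj_mem' _ σ hσ), hd'2 n σ hσ]
    refine ⟨a, ha, ?_⟩
    apply Co.eqv_of_restrict hHG (fun g _ => conj_mem' g) ((hd'1.co n).cj (conj_mem' _))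
      (hd'1.co n) (inv_zero hB0 n) _ (hd'1.tors n) ha h4
    intro g hg
    simp only [cj]
    rw [smul_comm, hd'1.tors n _ (conj_mem' _ g hg), smul_zero]
  have h5 := hB d' hd'1 hLB2 ⟨M * 2, by omega, hfixB⟩
  rw [← hcx, ← QuotientAddGroup.mk_zero, mk_eq_iff]
  intro n
  obtain ⟨b, hb, h6⟩ := h5 n
  refine ⟨ψ.symm b, by rw [← map_nsmul, hb, map_zero], fun σ hσ => ?_⟩
  apply ψ.injective
  have h7 := h6 σ (hHG hσ)
  rw [hd'2 n σ hσ] at h7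
  rw [tr_cob (hψH σ hσ), ψ.apply_symm_apply, ← h7]
  simp [tr]

end R1

end Pool.Agent.Lib.MP_89bcae_ag.Inf
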