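import Mathlib
import Pool.Agent.Lib.MP_89bcae_ag.Frob8

/-!
# Powers of the Frobenius automorphism are dense
-/

open Polynomial IntermediateField

namespace Pool.Agent.Lib.MP_89bcae_ag

variable {k F : Type*} [Field k] [Fintype k] [Field F] [Algebra k F] [Algebra.IsAlgebraic k F]

/-- An element which is fixed by the `M`-th power of the Frobenius automorphism and not by a power
whose exponent is not divisible by `M`. -/
lemma exists_gen45 [IsAlgClosed F] {M : ℕ} (hM : 0 < M) :
    ∃ ζ : F, ∀ a, (frob8 k F ^ a) ζ = ζ ↔ M ∣ a := by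
  obtain ⟨p, hp⟩ := CharP.exists k
  have hpp : Fact p.Prime := ⟨CharP.char_is_prime k p⟩
  have hM' : NeZero M := ⟨hM.ne'⟩
  let E := FiniteField.Extension k p M
  have hfin : FiniteDimensional k E := inferInstance
  have hsep : Algebra.IsSeparable k E := inferInstance
  obtain ⟨α, hα⟩ := Field.exists_primitive_element k E
  let f : E →ₐ[k] F := IsAlgClosed.lift
  refine ⟨f α, fun a => ?_⟩
  have hint : IsIntegral k α := Algebra.IsIntegral.isIntegral α
  have h1 : minpoly k (f α) = minpoly k α := minpoly.algHom_eq f f.injective α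
  have h2 : (minpoly k α).natDegree = M := by
    rw [← adjoin.finrank hint, hα, IntermediateField.finrank_top',
      FiniteField.finrank_extension k p M]
  rw [frob8_pow_eq_iff, h1, h2]

omit [Fintype k] [Algebra.IsAlgebraic k F] in
lemma fix_adjoin45 (σ : F ≃ₐ[k] F) {s : Set F} (h : ∀ x ∈ s, σ x = x) :
    ∀ x ∈ adjoin k s, σ x = x := by
  intro x hx
  induction hx using adjoin_induction with
  | mem x hx => exact h x hx
  | algebraMap x => exact σ.commutes x
  | add x y _ _ h1 h2 => rw [map_add, h1, h2]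
  | inv x _ h1 => rw [map_inv₀, h1]
  | mul x y _ _ h1 h2 => rw [map_mul, h1, h2]

/-- On a finite set, an automorphism agrees with a power of the Frobenius automorphism. -/
lemma exists_frob_agree [IsAlgClosed F] (τ : F ≃ₐ[k] F) (S : Finset F) :
    ∃ a : ℕ, ∀ x ∈ S, τ x = (frob8 k F ^ a) x := by
  have hfin : FiniteDimensional k (adjoin k (S : Set F)) :=
    finiteDimensional_adjoin fun x _ => Algebra.IsIntegral.isIntegral x
  obtain ⟨ζ, hζ⟩ := Field.exists_primitive_element k (adjoin k (S : Set F))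
  have hint : IsIntegral k (ζ : F) := Algebra.IsIntegral.isIntegral _
  have h1 : adjoin k (S : Set F) = k⟮(ζ : F)⟯ := by
    have h2 := congrArg (IntermediateField.map (adjoin k (S : Set F)).val) hζ
    rw [adjoin_map, Set.image_singleton] at h2
    rw [← AlgHom.fieldRange_eq_map, fieldRange_val] at h2
    exact h2.symm
  obtain ⟨a, -, ha⟩ := exists_frob8_pow (k := k) (F := F) (minpoly.irreducible hint)
    (minpoly.aeval k (ζ : F)) (y := τ ζ) (by
      have h3 := minpoly.aeval k (ζ : F)
      rw [← AlgEquiv.coe_toAlgHom τ, aeval_algHom_apply, h3, map_zero])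
  refine ⟨a, fun x hx => ?_⟩
  have h4 : x ∈ k⟮(ζ : F)⟯ := by
    rw [← h1]
    exact subset_adjoin k _ hx
  have h5 := fix_adjoin45 ((frob8 k F ^ a)⁻¹ * τ) (s := {(ζ : F)}) (by
    rintro _ rfl
    rw [AlgEquiv.mul_apply, ha, ← AlgEquiv.mul_apply, inv_mul_cancel]
    rfl) x h4
  have h6 := congrArg (frob8 k F ^ a) h5
  rw [← AlgEquiv.mul_apply, mul_inv_cancel_left] at h6
  exact h6

/-- On a finite set, an automorphism which fixes the fixed field of the `M`-th power of the
Frobenius automorphism agrees with a power of it. -/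
lemma exists_frob_agree_pow [IsAlgClosed F] {M : ℕ} (hM : 0 < M) (τ : F ≃ₐ[k] F)
    (hτ : ∀ x : F, (frob8 k F ^ M) x = x → τ x = x) (S : Finset F) :
    ∃ a : ℕ, ∀ x ∈ S, τ x = (frob8 k F ^ (M * a)) x := by
  classical
  obtain ⟨ζ, hζ⟩ := exists_gen45 (k := k) (F := F) hM
  obtain ⟨a, ha⟩ := exists_frob_agree (k := k) τ (insert ζ S)
  have h1 : (frob8 k F ^ a) ζ = ζ := by
    rw [← ha ζ (Finset.mem_insert_self _ _)]
    exact hτ ζ ((hζ M).mpr dvd_rfl)
  obtain ⟨b, rfl⟩ := (hζ a).mp h1
  exact ⟨b, fun x hx => ha x (Finset.mem_insert_of_mem hx)⟩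

end Pool.Agent.Lib.MP_89bcae_ag
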