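import Mathlib
import Pool.Agent.Lib.MP_89bcae_ag.GrpD8
import Pool.Agent.Lib.MP_89bcae_ag.Tower7
import Pool.Agent.Lib.MP_89bcae_ag.FrobT45

/-!
# Automorphisms which are close to the identity on the constants, continuity of the classes
-/

open Polynomial WeierstrassCurve WeierstrassCurve.Affine

open scoped Classical

namespace Pool.Agent.Lib.MP_89bcae_ag

set_option linter.unusedSectionVars false

section

variable {k F L Ω : Type*} [Field k] [Field F] [Algebra k F] [Algebra.IsAlgebraic k F]
  [IsAlgClosed F] [Field L] [Field Ω]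
  [Algebra F[X] L] [IsFractionRing F[X] L] [Algebra L Ω] [Algebra F[X] Ω] [IsScalarTower F[X] L Ω]
  [Algebra k[X] L] [Algebra k[X] Ω] [IsScalarTower k[X] L Ω]
  [IsGalois L Ω] [IsSepClosed Ω] [IsSepClosure L Ω]

variable (hk : ∀ p : k[X], algebraMap k[X] L p = algebraMap F[X] L (p.map (algebraMap k F)))

/-- Elements of `L` are fixed by the automorphisms which fix a suitable finite set of constants. -/
lemma exists_finset_fix_L (y : L) : ∃ s : Finset F, ∀ γ : Ω ≃ₐ[k[X]] Ω,
    (∀ a ∈ s, resF hk γ a = a) → γ (algebraMap L Ω y) = algebraMap L Ω y := by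
  obtain ⟨p, q, hq, rfl⟩ := IsFractionRing.div_surjective (A := F[X]) y
  refine ⟨p.coeffs ∪ q.coeffs, fun γ hγ => ?_⟩
  have hmap : ∀ r : F[X], (∀ a ∈ r.coeffs, resF hk γ a = a) →
      γ (algebraMap F[X] Ω r) = algebraMap F[X] Ω r := by
    intro r hr
    rw [resF_spec hk]
    congr 1
    ext n
    rw [coeff_map]
    by_cases hn : r.coeff n = 0
    · rw [hn, map_zero]
    · exact hr _ (coeff_mem_coeffs hn)
  rw [map_div₀, map_div₀, ← IsScalarTower.algebraMap_apply, ← IsScalarTower.algebraMap_apply,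
    hmap p (fun a ha => hγ a (Finset.mem_union_left _ ha)),
    hmap q (fun a ha => hγ a (Finset.mem_union_right _ ha))]

/-- The same for the values of polynomials over `L`. -/
lemma exists_finset_fix_aeval (p : L[X]) : ∃ s : Finset F, ∀ γ : Ω ≃ₐ[k[X]] Ω,
    (∀ a ∈ s, resF hk γ a = a) → ∀ x : Ω, γ (aeval x p) = aeval (γ x) p := by
  choose s hs using exists_finset_fix_L (Ω := Ω) hk
  refine ⟨(Finset.range (p.natDegree + 1)).biUnion fun i => s (p.coeff i), fun γ hγ x => ?_⟩
  rw [aeval_eq_sum_range, aeval_eq_sum_range, map_sum]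
  apply Finset.sum_congr rfl
  intro i hi
  rw [Algebra.smul_def, Algebra.smul_def, map_mul, map_pow, hs (p.coeff i) γ]
  intro a ha
  exact hγ a (Finset.mem_biUnion.mpr ⟨i, hi, ha⟩)

/-- An automorphism which fixes suitable constants agrees on a given finite set with an element of
the Galois group over `L`. -/
theorem exists_finset_agree (T : Finset Ω) : ∃ S : Finset F, ∀ γ : Ω ≃ₐ[k[X]] Ω,
    (∀ a ∈ S, resF hk γ a = a) → ∃ σ : Ω ≃ₐ[L] Ω, ∀ x ∈ T, γ x = σ x := by
  have hfin : FiniteDimensional L (IntermediateField.adjoin L (T : Set Ω)) :=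
    IntermediateField.finiteDimensional_adjoin fun x _ => Algebra.IsIntegral.isIntegral x
  obtain ⟨ζ, hζ⟩ := Field.exists_primitive_element L (IntermediateField.adjoin L (T : Set Ω))
  have hint : IsIntegral L (ζ : Ω) := Algebra.IsIntegral.isIntegral _
  have h1 : IntermediateField.adjoin L (T : Set Ω) = IntermediateField.adjoin L {(ζ : Ω)} := by
    have h2 := congrArg (IntermediateField.map (IntermediateField.adjoin L (T : Set Ω)).val) hζ
    rw [IntermediateField.adjoin_map, Set.image_singleton, ← AlgHom.fieldRange_eq_map,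
      IntermediateField.fieldRange_val] at h2
    exact h2.symm
  have hp : ∀ x ∈ T, ∃ p : L[X], aeval (ζ : Ω) p = x := by
    intro x hx
    have h2 : x ∈ IntermediateField.adjoin L {(ζ : Ω)} := by
      rw [← h1]
      exact IntermediateField.subset_adjoin L _ hx
    rw [← IntermediateField.mem_toSubalgebra,
      IntermediateField.adjoin_simple_toSubalgebra_of_isAlgebraic hint.isAlgebraic,
      Algebra.adjoin_singleton_eq_range_aeval] at h2
    exact h2
  choose! p hp using hp
  choose s hs using exists_finset_fix_aeval (Ω := Ω) hk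
  refine ⟨s (minpoly L (ζ : Ω)) ∪ T.biUnion fun x => s (p x), fun γ hγ => ?_⟩
  have h3 : aeval (γ (ζ : Ω)) (minpoly L (ζ : Ω)) = 0 := by
    rw [← hs (minpoly L (ζ : Ω)) γ (fun a ha => hγ a (Finset.mem_union_left _ ha)),
      minpoly.aeval, map_zero]
  obtain ⟨σ, hσ⟩ := minpoly.exists_algEquiv_of_root' hint.isAlgebraic h3
  refine ⟨σ, fun x hx => ?_⟩
  rw [← hp x hx, hs (p x) γ (fun a ha => hγ a (Finset.mem_union_right _
    (Finset.mem_biUnion.mpr ⟨x, hx, ha⟩))), ← hσ]
  exact aeval_algHom_apply (σ : Ω →ₐ[L] Ω) (ζ : Ω) (p x)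

end

end Pool.Agent.Lib.MP_89bcae_ag
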