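import Mathlib
import Pool.Agent.Lib.MP_89bcae_ag.InfDefs8
import Pool.Agent.Lib.MP_89bcae_ag.Cont45

/-!
# A class fixed by a power of the Frobenius automorphism is fixed by an open subgroup
-/

open Polynomial WeierstrassCurve WeierstrassCurve.Affine

open scoped Classical

namespace Pool.Agent.Lib.MP_89bcae_ag

set_option linter.unusedSectionVars false
set_option linter.style.haveILetI false

namespace Inf

section

variable {Γ A X : Type*} [Group Γ] [AddCommGroup A] [DistribMulAction Γ A] [MulAction Γ X]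
  {G : Subgroup Γ}

/-- Elements close to the identity fix a smooth cocycle. -/
lemma cj_eq_of_close [G.Normal] {f : Γ → A} (hf : Co G f) {T : Finset X}
    (hT : ∀ σ ∈ G, (∀ x ∈ T, σ • x = x) → f σ = 0) {ε : Γ}
    (h1 : ∀ σ ∈ G, ∀ x ∈ T, ε • σ • x = σ • x) (h2 : ∀ σ ∈ G, ε • f σ = f σ) :
    ∀ σ ∈ G, cj ε f σ = f σ := by
  intro σ hσ
  have hh : ε⁻¹ * σ * ε ∈ G := conj_mem' ε σ hσ
  have h3 : σ⁻¹ * (ε⁻¹ * σ * ε) ∈ G := G.mul_mem (G.inv_mem hσ) hh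
  have h4 : f (ε⁻¹ * σ * ε) = f σ := by
    have h5 := hf σ hσ _ h3
    rw [mul_inv_cancel_left] at h5
    rw [h5, hT _ h3, smul_zero, add_zero]
    intro x hx
    have h6 : ε • x = x := by simpa using h1 1 G.one_mem x hx
    have h7 := h1 σ hσ x hx
    rw [mul_smul, mul_smul, mul_smul, h6, inv_smul_eq_iff.mpr h7.symm, inv_smul_smul]
  simp only [cj]
  rw [h4, h2 σ hσ]

/-- The values of a smooth cocycle are finite in number if the orbits are finite. -/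
lemma exists_finset_values {f : Γ → A} (hf : Co G f) (hs : Sm X G f)
    (horb : ∀ x : X, ∃ T : Finset X, ∀ σ ∈ G, σ • x ∈ T) :
    ∃ V : Finset A, ∀ σ ∈ G, f σ ∈ V := by
  obtain ⟨T, hT⟩ := hs
  choose O hO using horb
  let F' : (T → X) → A := fun g =>
    if h : ∃ σ ∈ G, ∀ x : T, g x = σ • (x : X) then f h.choose else 0
  have hfin : (Set.pi Set.univ fun x : T => (O (x : X) : Set X)).Finite :=
    Set.Finite.pi fun x => Finset.finite_toSet _
  refine ⟨(hfin.image F').toFinset, fun σ hσ => ?_⟩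
  rw [Set.Finite.mem_toFinset]
  refine ⟨fun x => σ • (x : X), ?_, ?_⟩
  · intro x _
    exact hO (x : X) σ hσ
  · have h : ∃ σ' ∈ G, ∀ x : T, (fun x : T => σ • (x : X)) x = σ' • (x : X) := ⟨σ, hσ, fun _ => rfl⟩
    have h1 : F' (fun x => σ • (x : X)) = f h.choose := dif_pos h
    rw [h1]
    obtain ⟨h2, h3⟩ := h.choose_spec
    set σ' := h.choose
    have h4 : σ⁻¹ * σ' ∈ G := G.mul_mem (G.inv_mem hσ) h2
    have h5 := hf σ hσ _ h4
    rw [mul_inv_cancel_left, hT _ h4, smul_zero, add_zero] at h5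
    · exact h5
    · intro x hx
      have h6 := h3 ⟨x, hx⟩
      change σ • x = σ' • x at h6
      rw [mul_smul, ← h6, inv_smul_smul]

lemma Eqv.comp [G.Normal] {m : ℕ} {f : Γ → A} {γ δ : Γ} (h : Eqv m G (Inf.cj γ f) f)
    (h' : Eqv m G (Inf.cj δ f) f) : Eqv m G (Inf.cj (γ * δ) f) f := by
  rw [cj_mul]
  exact (h'.cj (conj_mem' γ)).trans h

lemma Eqv.pow_fix [G.Normal] {m : ℕ} {f : Γ → A} {γ : Γ} (h : Eqv m G (Inf.cj γ f) f) (a : ℕ) :
    Eqv m G (Inf.cj (γ ^ a) f) f := by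
  induction a with
  | zero =>
    rw [pow_zero, cj_one]
    exact Eqv.refl _ _ _
  | succ a ih =>
    rw [pow_succ]
    exact ih.comp h

end

end Inf

section Conc

variable {k F L Ω : Type*} [Field k] [Field F] [Algebra k F] [Algebra.IsAlgebraic k F]
  [IsAlgClosed F] [Field L] [Field Ω]
  [Algebra F[X] L] [IsFractionRing F[X] L] [Algebra L Ω] [Algebra F[X] Ω] [IsScalarTower F[X] L Ω]
  [Algebra k[X] L] [Algebra k[X] Ω] [IsScalarTower k[X] L Ω]
  [IsGalois L Ω] [IsSepClosed Ω] [IsSepClosure L Ω]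

variable (hk : ∀ p : k[X], algebraMap k[X] L p = algebraMap F[X] L (p.map (algebraMap k F)))

include hk in
lemma normal_GL45 : (GL8 k L Ω).Normal := by
  constructor
  intro σ hσ γ x
  obtain ⟨σ', h⟩ := exists_conj hk γ⁻¹ (ofGL hσ)
  have h1 := h (algebraMap L Ω x)
  rw [σ'.commutes] at h1
  change γ (σ (γ⁻¹ (algebraMap L Ω x))) = _
  have h2 : σ (γ⁻¹ (algebraMap L Ω x)) = γ⁻¹ (algebraMap L Ω x) := h1.symm
  rw [h2]
  exact γ.apply_symm_apply _

lemma orb_GL45 (x : Ω) : ∃ T : Finset Ω, ∀ σ ∈ GL8 k L Ω, σ • x ∈ T := by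
  have hint : IsIntegral L x := Algebra.IsIntegral.isIntegral x
  refine ⟨((minpoly L x).rootSet_finite Ω).toFinset, fun σ hσ => ?_⟩
  rw [Set.Finite.mem_toFinset, mem_rootSet]
  refine ⟨minpoly.ne_zero hint, ?_⟩
  change aeval (σ x) (minpoly L x) = 0
  rw [← ofGL_apply hσ, ← AlgEquiv.coe_toAlgHom (ofGL hσ), aeval_algHom_apply, minpoly.aeval,
    map_zero]

lemma exists_fix_set45 (W : Affine k[X]) (P : (W.baseChange Ω).Point) :
    ∃ S : Finset Ω, ∀ γ : Ω ≃ₐ[k[X]] Ω, (∀ x ∈ S, γ x = x) → gm W γ P = P := by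
  rcases P with _ | ⟨x, y, h⟩
  · exact ⟨∅, fun σ _ => rfl⟩
  · refine ⟨{x, y}, fun σ hσ => ?_⟩
    rw [gm, Point.map_some]
    simp only [Point.some.injEq]
    exact ⟨hσ x (by simp), hσ y (by simp)⟩

include hk in
/-- A smooth cocycle is fixed by the automorphisms which fix a suitable finite set. -/
lemma exists_close45 (W : Affine k[X]) {c : (Ω ≃ₐ[k[X]] Ω) → (W.baseChange Ω).Point}
    (hc : letI := actW (k := k) (Ω := Ω) W
      Inf.Co (GL8 k L Ω) c)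
    (hs : Inf.Sm Ω (GL8 k L Ω) c) :
    letI := actW (k := k) (Ω := Ω) W
    ∃ T' : Finset Ω, ∀ ε : Ω ≃ₐ[k[X]] Ω, (∀ x ∈ T', ε x = x) →
      ∀ σ ∈ GL8 k L Ω, Inf.cj ε c σ = c σ := by
  letI := actW (k := k) (Ω := Ω) W
  haveI := normal_GL45 (Ω := Ω) hk
  obtain ⟨V, hV⟩ := Inf.exists_finset_values hc hs orb_GL45
  obtain ⟨T, hT⟩ := hs
  choose O hO using orb_GL45 (k := k) (L := L) (Ω := Ω)
  choose S hS using exists_fix_set45 (Ω := Ω) W
  refine ⟨T.biUnion O ∪ V.biUnion S, fun ε hε => ?_⟩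
  apply Inf.cj_eq_of_close (X := Ω) hc hT
  · intro σ hσ x hx
    exact hε _ (Finset.mem_union_left _ (Finset.mem_biUnion.mpr ⟨x, hx, hO x σ hσ⟩))
  · intro σ hσ
    exact hS (c σ) ε fun x hx => hε x (Finset.mem_union_right _
      (Finset.mem_biUnion.mpr ⟨c σ, hV σ hσ, hx⟩))

/-- **Density of the powers of the Frobenius automorphism.** -/
theorem eqv_of_frob45 [Fintype k] (W : Affine k[X]) {N : ℕ}
    {c : (Ω ≃ₐ[k[X]] Ω) → (W.baseChange Ω).Point}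
    (hc : letI := actW (k := k) (Ω := Ω) W
      Inf.Co (GL8 k L Ω) c)
    (hs : Inf.Sm Ω (GL8 k L Ω) c) (hN : ∀ σ ∈ GL8 k L Ω, N • c σ = 0)
    {φ : Ω ≃ₐ[k[X]] Ω} (hφ : resF hk φ = frob8 k F) {M : ℕ} (hM : 0 < M)
    (hfix : letI := actW (k := k) (Ω := Ω) W
      Inf.Eqv N (GL8 k L Ω) (Inf.cj (φ ^ M) c) c) {γ : Ω ≃ₐ[k[X]] Ω}
    (hγ : ∀ x : F, (frob8 k F ^ M) x = x → resF hk γ x = x) :
    letI := actW (k := k) (Ω := Ω) W
    Inf.Eqv N (GL8 k L Ω) (Inf.cj γ c) c := by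
  letI := actW (k := k) (Ω := Ω) W
  haveI := normal_GL45 (Ω := Ω) hk
  obtain ⟨T', hT'⟩ := exists_close45 hk W hc hs
  obtain ⟨S, hS⟩ := exists_finset_agree (Ω := Ω) hk T'
  obtain ⟨a, ha⟩ := exists_frob_agree_pow hM (resF hk γ) hγ S
  set δ := (φ ^ (M * a))⁻¹ * γ with hδ
  have hγδ : γ = φ ^ (M * a) * δ := by rw [hδ, mul_inv_cancel_left]
  have h1 : ∀ x ∈ S, resF hk δ x = x := by
    intro x hx
    have h2 := ha x hx
    rw [hγδ, resF_mul, resF_pow, hφ, AlgEquiv.mul_apply] at h2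
    exact (frob8 k F ^ (M * a)).injective h2
  obtain ⟨σ₀, hσ₀⟩ := hS δ h1
  set ε := (toG (k := k) σ₀)⁻¹ * δ with hε
  have hδε : δ = toG σ₀ * ε := by rw [hε, mul_inv_cancel_left]
  have h3 : ∀ x ∈ T', ε x = x := by
    intro x hx
    apply (toG (k := k) σ₀).injective
    rw [← AlgEquiv.mul_apply, ← hδε, hσ₀ x hx]
    rfl
  have e1 : Inf.Eqv N (GL8 k L Ω) (Inf.cj ε c) c := Inf.Eqv.of_eq (hT' ε h3)
  have e2 : Inf.Eqv N (GL8 k L Ω) (Inf.cj (toG σ₀) c) c := by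
    refine ⟨c (toG σ₀), hN _ (toG_mem_GL8 σ₀), fun σ hσ => ?_⟩
    rw [hc.cj_self (toG_mem_GL8 σ₀) hσ]
    abel
  have e3 : Inf.Eqv N (GL8 k L Ω) (Inf.cj (φ ^ (M * a)) c) c := by
    rw [pow_mul]
    exact hfix.pow_fix a
  rw [hγδ, hδε]
  exact e3.comp (e2.comp e1)

end Conc

end Pool.Agent.Lib.MP_89bcae_ag
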