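import Mathlib
import Pool.Agent.Lib.MP_89bcae_ag.Sel8

/-!
# The two-adic Selmer group of `y² = g(x) - t` over `F(t)` vanishes
-/

open Polynomial WeierstrassCurve WeierstrassCurve.Affine IsDedekindDomain

open scoped Classical

namespace Pool.Agent.Lib.MP_89bcae_ag

set_option linter.unusedSectionVars false
set_option linter.style.haveILetI false

universe u

/-- A finite set with even fibres under a cubic `g` which consists of multiple roots is empty. -/
lemma empty_of_multiple {F : Type*} [Field F] {g : F[X]} (hg : g.Monic) (hdeg : g.natDegree = 3)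
    (Z : Finset F) (heven : ∀ α, Even (Z.filter fun β => g.eval β = α).card)
    (hZ : ∀ β ∈ Z, (derivative g).eval β = 0) : Z = ∅ := by
  rw [Finset.eq_empty_iff_forall_notMem]
  intro β hβ
  have h1 := heven (g.eval β)
  have h2 : Z.filter (fun β' => g.eval β' = g.eval β) = {β} := by
    ext β'
    rw [Finset.mem_filter, Finset.mem_singleton]
    constructor
    · rintro ⟨h3, h4⟩
      exact double_root_unique hg hdeg h4 (hZ β' h3) (hZ β hβ)
    · rintro rfl
      exact ⟨hβ, rfl⟩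
  rw [h2, Finset.card_singleton] at h1
  exact absurd h1 (by decide)

section Main

variable {k : Type*} {F L Ω : Type*} [Field k] [Field F] [Algebra k F]
  [Algebra.IsAlgebraic k F] [IsAlgClosed F] [Field L] [Field Ω]
  [Algebra F[X] L] [IsFractionRing F[X] L] [Algebra L Ω] [Algebra F[X] Ω] [IsScalarTower F[X] L Ω]
  [Algebra k[X] L] [Algebra k[X] Ω] [IsScalarTower k[X] L Ω]
  [IsGalois L Ω] [IsSepClosed Ω] [IsSepClosure L Ω]

/-- A class with values in the two-torsion whose divisor lies over the multiple roots is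
trivial. -/
lemma level_one_trivial_one {g : k[X]} (hg1 : Good g 1) {W : Affine k[X]}
    (hWL : IsTwist L W (g.map (algebraMap k F)) ((1 : k[X]).map (algebraMap k F)))
    {c : (Ω ≃ₐ[L] Ω) → (W.baseChange Ω).Point} (hc2 : ∀ σ, 2 • c σ = 0)
    (hmul : ∀ σ τ, c (σ * τ) = c σ + Point.map (W' := W) (σ : Ω →ₐ[L] Ω) (c τ))
    (hloc : IsLocallyConstant c)
    (hS : ∀ (Z : Finset F) (b : Ω → Ω), Desc g 1 W c Z b → ∀ β ∈ Z,
      (derivative (g.map (algebraMap k F))).eval β = 0) :
    ∃ P : (W.baseChange Ω).Point, 2 • P = 0 ∧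
      ∀ σ : Ω ≃ₐ[L] Ω, c σ = Point.map (W' := W) (σ : Ω →ₐ[L] Ω) P - P := by
  have hF := hg1.map F
  have h2Ω : (2 : Ω) ≠ 0 := two_ne_zero_Om (F := F) L Ω hF.two
  have hWΩ : IsTwist Ω W (g.map (algebraMap k F)) ((1 : k[X]).map (algebraMap k F)) := hWL.up
  obtain ⟨Z, b, hb⟩ := exists_desc (F := F) h2Ω hWΩ hF.monic hF.deg hF.der c hc2 hmul hloc
  have hZ : Z = ∅ := empty_of_multiple hF.monic hF.deg Z
    (hb.even h2Ω hWΩ hF.monic hF.deg hF.der hF.ne hc2) (hS Z b hb)
  subst hZ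
  exact hb.coboundary h2Ω hWΩ hF.monic hF.deg hF.der hF.ne hc2

end Main

section Defs

variable {k F L Ω : Type u} [Field k] [Field F] [Algebra k F] [IsAlgClosed F]
  [Field L] [Algebra F[X] L] [IsFractionRing F[X] L] [Field Ω]
  [Algebra L Ω] [IsGalois L Ω] [IsSepClosed Ω]

/-- Locally trivial classes of `y² = g(x) - t` over `F(t)` vanish. -/
theorem isTrivial_one [Algebra.IsAlgebraic k F] [IsSepClosure L Ω] {g : k[X]} (hg1 : Good g 1)
    (c : ℕ → (Ω ≃ₐ[L] Ω) → ((twist g 1).map (base k F L Ω)).toAffine.Point)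
    (hc : IsTateCocycle (twist g 1) c)
    (hS : ∀ (τ : F) (n : ℕ), IsLocallyTrivial (twist g 1) (c n) ((placeAt τ).adicCompletion L)) :
    IsTrivial (twist g 1) c := by
  letI := algK k F L L
  letI := algK k F L Ω
  letI := algF F L Ω
  haveI : IsScalarTower F[X] L Ω := IsScalarTower.of_algebraMap_eq fun _ => rfl
  haveI : IsScalarTower k[X] L Ω := IsScalarTower.of_algebraMap_eq fun _ => rfl
  let W : Affine k[X] := (twist g 1).toAffine
  have hk : ∀ p : k[X], algebraMap k[X] L p = algebraMap F[X] L (p.map (algebraMap k F)) :=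
    fun _ => rfl
  have hWL : IsTwist L W (g.map (algebraMap k F)) ((1 : k[X]).map (algebraMap k F)) :=
    isTwist_twist hk
  have hWΩ : IsTwist Ω W (g.map (algebraMap k F)) ((1 : k[X]).map (algebraMap k F)) := hWL.up
  have key : ∀ n : ℕ, ∀ c : ℕ → (Ω ≃ₐ[L] Ω) → (W.baseChange Ω).Point, TC W c →
      (∀ (τ : F) (n : ℕ), IsLocallyTrivial (twist g 1) (c n) ((placeAt τ).adicCompletion L)) →
      ∃ Q : (W.baseChange Ω).Point, 2 ^ n • Q = 0 ∧
        ∀ σ : Ω ≃ₐ[L] Ω, c n σ = Point.map (W' := W) (σ : Ω →ₐ[L] Ω) Q - Q := by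
    intro n
    induction n with
    | zero =>
      intro c hc _
      exact ⟨0, by simp, fun σ => by rw [hc.zero, map_zero, sub_zero]⟩
    | succ n ih =>
      intro c hc hS
      have hc2 : ∀ σ, 2 • c 1 σ = 0 := fun σ => by rw [hc.two, hc.zero]
      obtain ⟨P, hP, hcP⟩ := level_one_trivial_one hg1 hWL hc2 (hc.mul 1) (hc.loc 1)
        (fun Z b hb β hβ => eval_eq_zero_of_isLocallyTrivial hg1 (c 1) hc2 hb
          (fun τ => hS τ 1) β hβ (by rw [Polynomial.map_one, eval_one]; exact one_ne_zero))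
      obtain ⟨q, hq0, hq1, hq⟩ := exists_seq8 (exists_halves L (hg1.map F) hWΩ) 0 P
        (by rw [← two_nsmul]; exact hP)
      have h1 : ∀ σ : Ω ≃ₐ[L] Ω, c 1 σ =
          Point.map (W' := W) (σ : Ω →ₐ[L] Ω) (q 1) - q 1 := by
        intro σ; rw [hq1]; exact hcP σ
      obtain ⟨Q, hQ, hcQ⟩ := ih _ (hc.half hq h1)
        (fun τ m => (hS τ (m + 1)).sub (q (m + 1)) (fun σ q' hq' => by
          rw [(isImage_iff (W := twist g 1) (σ : Ω →ₐ[L] Ω) _ _).mp hq']
          rfl))
      refine ⟨Q + q (n + 1), ?_, fun σ => ?_⟩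
      · rw [smul_add, pow_succ, mul_comm, mul_smul, hQ, smul_zero, zero_add, mul_comm, ← pow_succ,
          two_pow_seq8 hq, hq0]
      · have := hcQ σ
        rw [sub_eq_iff_eq_add] at this
        rw [this, map_add]
        abel
  have hTC : TC W (fun n (σ : Ω ≃ₐ[L] Ω) => (c n σ : (W.baseChange Ω).Point)) :=
    { zero := hc.zero
      two := hc.two_smul
      mul := fun n σ τ => hc.cocycle n σ τ _
        (isImage_map (W := twist g 1) (σ : Ω →ₐ[L] Ω) (c n τ))
      loc := hc.locallyConstant }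
  intro n
  obtain ⟨Q, hQ, hcQ⟩ := key n _ hTC hS
  refine ⟨Q, hQ, fun σ A' hA' => ?_⟩
  rw [(isImage_iff (W := twist g 1) (σ : Ω →ₐ[L] Ω) Q A').mp hA']
  exact hcQ σ

end Defs

end Pool.Agent.Lib.MP_89bcae_ag
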