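import Mathlib
import Pool.Agent.Lib.MP_89bcae_ag.InfS45
import Pool.Agent.Lib.MP_89bcae_ag.One45
import Pool.Agent.Lib.MP_89bcae_ag.DefsDens8

/-!
# The classes over `L` in the abstract setting
-/

open Polynomial WeierstrassCurve WeierstrassCurve.Affine IsDedekindDomain

open scoped Classical

namespace Pool.Agent.Lib.MP_89bcae_ag

set_option linter.unusedSectionVars false
set_option linter.style.haveILetI false

universe u

/-- All the finite places are of the form `t = τ`. -/
lemma exists_placeAt45 {F : Type*} [Field F] [IsAlgClosed F] (v : HeightOneSpectrum F[X]) :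
    ∃ τ : F, v = placeAt τ := by
  have h1 : v.asIdeal.IsPrincipal := IsPrincipalIdealRing.principal _
  obtain ⟨p, hp⟩ := h1
  have hp' : v.asIdeal = Ideal.span {p} := hp
  have hp0 : p ≠ 0 := by
    rintro rfl
    apply v.ne_bot
    rw [hp', Ideal.span_singleton_eq_bot]
  have hprime : Prime p := by
    rw [← Ideal.span_singleton_prime hp0, ← hp']
    exact v.isPrime
  have hdeg : p.degree = 1 := IsAlgClosed.degree_eq_one_of_irreducible F hprime.irreducible
  obtain ⟨τ, hτ⟩ := IsAlgClosed.exists_root p (by rw [hdeg]; exact one_ne_zero)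
  refine ⟨τ, ?_⟩
  apply HeightOneSpectrum.ext
  change v.asIdeal = Ideal.span {X - C τ}
  rw [hp']
  rw [Ideal.span_singleton_eq_span_singleton]
  exact (Irreducible.associated_of_dvd (prime_X_sub_C τ).irreducible hprime.irreducible
    (dvd_iff_isRoot.mpr hτ)).symm

section Loc

variable {k F L Ω : Type*} [Field k] [Field F] [Algebra k F] [Algebra.IsAlgebraic k F]
  [IsAlgClosed F] [Field L] [Field Ω]
  [Algebra F[X] L] [IsFractionRing F[X] L] [Algebra L Ω] [Algebra F[X] Ω] [IsScalarTower F[X] L Ω]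
  [Algebra k[X] L] [Algebra k[X] Ω] [IsScalarTower k[X] L Ω]
  [IsGalois L Ω] [IsSepClosed Ω] [IsSepClosure L Ω] {W : Affine k[X]}

/-- A cocycle which vanishes near the identity is locally constant. -/
lemma loc_of_cont45 {c : (Ω ≃ₐ[L] Ω) → (W.baseChange Ω).Point}
    (hmul : ∀ σ τ, c (σ * τ) = c σ + Point.map (W' := W) (σ : Ω →ₐ[L] Ω) (c τ))
    (hS : ∃ S : Finset Ω, ∀ σ : Ω ≃ₐ[L] Ω, (∀ x ∈ S, σ x = x) → c σ = 0) :
    IsLocallyConstant c := by
  obtain ⟨S, hS⟩ := hS
  rw [IsLocallyConstant.iff_exists_open]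
  intro σ
  have hfin : FiniteDimensional L (IntermediateField.adjoin L (S : Set Ω)) :=
    IntermediateField.finiteDimensional_adjoin fun x _ => Algebra.IsIntegral.isIntegral x
  have hopen := IntermediateField.fixingSubgroup_isOpen (IntermediateField.adjoin L (S : Set Ω))
  refine ⟨(fun h => σ⁻¹ * h) ⁻¹' ((IntermediateField.adjoin L (S : Set Ω)).fixingSubgroup :
    Set (Ω ≃ₐ[L] Ω)), hopen.preimage (continuous_const_mul σ⁻¹), ?_, ?_⟩
  · simp only [Set.mem_preimage, inv_mul_cancel]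
    exact Subgroup.one_mem _
  · intro h hh
    have h1 : ∀ x ∈ S, (σ⁻¹ * h) x = x := fun x hx =>
      (IntermediateField.mem_fixingSubgroup_iff _ _).mp hh x
        (IntermediateField.subset_adjoin L (S : Set Ω) hx)
    have h2 := hmul σ (σ⁻¹ * h)
    rw [mul_inv_cancel_left, hS _ h1, map_zero, add_zero] at h2
    exact h2

end Loc

section Main

variable {k F L Ω : Type u} [Field k] [Field F] [Algebra k F]
  [IsAlgClosed F] [Field L] [Algebra F[X] L] [IsFractionRing F[X] L] [Field Ω]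
  [Algebra L Ω] [IsGalois L Ω] [IsSepClosed Ω]

/-- The local conditions over `L`. -/
def LocG45 (W : WeierstrassCurve k[X])
    (f : letI := algK k F L Ω
      (Ω ≃ₐ[k[X]] Ω) → (W.map (base k F L Ω)).toAffine.Point) : Prop :=
  letI := algK k F L L
  letI := algK k F L Ω
  haveI : IsScalarTower k[X] L Ω := IsScalarTower.of_algebraMap_eq fun _ => rfl
  ∀ τ : F, IsLocallyTrivial W (fun σ => f (toG (k := k) σ)) ((placeAt τ).adicCompletion L)

/-- A cocycle in the abstract setting is a cocycle with values in the Tate module. -/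
lemma isTateCocycle_of_TCo [Algebra.IsAlgebraic k F] [IsSepClosure L Ω] (W : WeierstrassCurve k[X]) :
    letI := algK k F L L
    letI := algK k F L Ω
    haveI : IsScalarTower k[X] L Ω := IsScalarTower.of_algebraMap_eq fun _ => rfl
    letI := actW (k := k) (Ω := Ω) W.toAffine
    ∀ d : ℕ → (Ω ≃ₐ[k[X]] Ω) → (W.toAffine.baseChange Ω).Point,
      Inf.TCo Ω (GL8 k L Ω) d → IsTateCocycle (F := F) (L := L) W
        (fun n (σ : Ω ≃ₐ[L] Ω) => d n (toG (k := k) σ)) := by
  letI := algK k F L L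
  letI := algK k F L Ω
  letI := algF F L Ω
  haveI : IsScalarTower F[X] L Ω := IsScalarTower.of_algebraMap_eq fun _ => rfl
  haveI : IsScalarTower k[X] L Ω := IsScalarTower.of_algebraMap_eq fun _ => rfl
  letI := actW (k := k) (Ω := Ω) W.toAffine
  intro d hd
  have hmul : ∀ n, ∀ σ τ : Ω ≃ₐ[L] Ω, d n (toG (k := k) (σ * τ)) = d n (toG σ) +
      Point.map (W' := W.toAffine) (σ : Ω →ₐ[L] Ω) (d n (toG τ)) := by
    intro n σ τ
    rw [toG_mul, hd.co n _ (toG_mem_GL8 σ) _ (toG_mem_GL8 τ)]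
    congr 1
  refine ⟨?_, ?_, ?_, ?_⟩
  · intro σ
    exact hd.zero _ (toG_mem_GL8 σ)
  · intro n σ
    exact hd.two n _ (toG_mem_GL8 σ)
  · intro n σ τ P hP
    rw [(isImage_iff (W := W) (σ : Ω →ₐ[L] Ω) _ _).mp hP]
    exact hmul n σ τ
  · intro n
    obtain ⟨T, hT⟩ := hd.sm n
    exact loc_of_cont45 (k := k) (L := L) (Ω := Ω) (W := W.toAffine)
      (c := fun σ : Ω ≃ₐ[L] Ω => d n (toG (k := k) σ)) (hmul n)
      ⟨T, fun σ hσ => hT _ (toG_mem_GL8 σ) hσ⟩

/-- From the vanishing of classes to the abstract setting. -/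
lemma eqv_of_isTrivial45 [Algebra.IsAlgebraic k F] [IsSepClosure L Ω] (W : WeierstrassCurve k[X]) :
    letI := algK k F L L
    letI := algK k F L Ω
    haveI : IsScalarTower k[X] L Ω := IsScalarTower.of_algebraMap_eq fun _ => rfl
    letI := actW (k := k) (Ω := Ω) W.toAffine
    ∀ d : ℕ → (Ω ≃ₐ[k[X]] Ω) → (W.toAffine.baseChange Ω).Point,
      IsTrivial (F := F) (L := L) W (fun n (σ : Ω ≃ₐ[L] Ω) => d n (toG (k := k) σ)) →
      ∀ n, Inf.Eqv (2 ^ n) (GL8 k L Ω) (d n) 0 := by
  letI := algK k F L L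
  letI := algK k F L Ω
  letI := algF F L Ω
  haveI : IsScalarTower F[X] L Ω := IsScalarTower.of_algebraMap_eq fun _ => rfl
  haveI : IsScalarTower k[X] L Ω := IsScalarTower.of_algebraMap_eq fun _ => rfl
  letI := actW (k := k) (Ω := Ω) W.toAffine
  intro d h n
  obtain ⟨A₀, hA₀, h1⟩ := h n
  let A : (W.toAffine.baseChange Ω).Point := A₀
  refine ⟨A, hA₀, fun σ hσ => ?_⟩
  obtain ⟨σ', rfl⟩ : ∃ σ' : Ω ≃ₐ[L] Ω, toG (k := k) σ' = σ := ⟨ofGL hσ, toG_ofGL hσ⟩
  have h2 : d n (toG (k := k) σ') = Point.map (W' := W.toAffine) (σ' : Ω →ₐ[L] Ω) A - A :=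
    h1 σ' _ (isImage_map (W := W) (σ' : Ω →ₐ[L] Ω) A)
  rw [Pi.zero_apply, sub_zero, h2]
  rfl

/-- The classes of `y² = g(x) - t` over `L` vanish. -/
theorem vanish_one45 [Algebra.IsAlgebraic k F] [IsSepClosure L Ω] {g : k[X]} (hg1 : Good g 1) :
    letI := algK k F L L
    letI := algK k F L Ω
    haveI : IsScalarTower k[X] L Ω := IsScalarTower.of_algebraMap_eq fun _ => rfl
    letI := actW (k := k) (Ω := Ω) (twist g 1).toAffine
    ∀ d : ℕ → (Ω ≃ₐ[k[X]] Ω) → ((twist g 1).toAffine.baseChange Ω).Point,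
      Inf.TCo Ω (GL8 k L Ω) d → (∀ n, LocG45 (L := L) (twist g 1) (d n)) →
      ∀ n, Inf.Eqv (2 ^ n) (GL8 k L Ω) (d n) 0 := by
  letI := algK k F L L
  letI := algK k F L Ω
  haveI : IsScalarTower k[X] L Ω := IsScalarTower.of_algebraMap_eq fun _ => rfl
  letI := actW (k := k) (Ω := Ω) (twist g 1).toAffine
  intro d hd hL
  apply eqv_of_isTrivial45 (F := F) (L := L) (twist g 1) d
  exact isTrivial_one hg1 _ (isTateCocycle_of_TCo (F := F) (L := L) (twist g 1) d hd)
    (fun τ n => hL n τ)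

variable (k F) in
/-- The field of the elements fixed by the `M`-th power of the Frobenius automorphism. -/
noncomputable def fixF45 [Fintype k] [Algebra.IsAlgebraic k F] (M : ℕ) : IntermediateField k F :=
  IntermediateField.fixedField (Subgroup.zpowers (frob8 k F ^ M))

omit [IsAlgClosed F] in
lemma mem_fixF45 [Fintype k] [Algebra.IsAlgebraic k F] {M : ℕ} {x : F} :
    x ∈ fixF45 k F M ↔ (frob8 k F ^ M) x = x := by
  rw [fixF45, IntermediateField.mem_fixedField_iff]
  constructor
  · intro h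
    exact h _ (Subgroup.mem_zpowers _)
  · intro h τ hτ
    obtain ⟨m, rfl⟩ := Subgroup.mem_zpowers_iff.mp hτ
    exact (MulAction.stabilizer (F ≃ₐ[k] F) x).zpow_mem
      (show frob8 k F ^ M ∈ MulAction.stabilizer (F ≃ₐ[k] F) x from h) m

omit [IsAlgClosed F] in
lemma finite_fixF45 [Fintype k] [Algebra.IsAlgebraic k F] {M : ℕ} (hM : 0 < M) :
    FiniteDimensional k (fixF45 k F M) := by
  have h1 : 1 < Fintype.card k ^ M := Nat.one_lt_pow hM.ne' Fintype.one_lt_card
  have h2 : (X ^ (Fintype.card k ^ M) - X : F[X]) ≠ 0 := FiniteField.X_pow_card_sub_X_ne_zero F h1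
  have h3 : ((fixF45 k F M : IntermediateField k F) : Set F) ⊆
      ((X ^ (Fintype.card k ^ M) - X : F[X]).roots.toFinset : Set F) := by
    intro x hx
    have h4 := mem_fixF45.mp hx
    rw [frob8_pow_apply] at h4
    rw [Finset.mem_coe, Multiset.mem_toFinset, mem_roots h2, IsRoot.def, eval_sub, eval_pow, eval_X,
      h4, sub_self]
  have h5 : Finite (fixF45 k F M) := (Finset.finite_toSet _).subset h3
  exact Module.Finite.of_finite

/-- The vanishing of the Tate classes in the abstract setting: it suffices that the class is fixed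
by a power of a lift of the Frobenius automorphism. -/
theorem vanish_of_noTate45 [Fintype k] [Algebra.IsAlgebraic k F] [IsSepClosure L Ω] {g D : k[X]}
    (hNT : NoTateClass k F L Ω g D) :
    letI := algK k F L L
    letI := algK k F L Ω
    letI := algF F L Ω
    haveI : IsScalarTower F[X] L Ω := IsScalarTower.of_algebraMap_eq fun _ => rfl
    haveI : IsScalarTower k[X] L Ω := IsScalarTower.of_algebraMap_eq fun _ => rfl
    letI := actW (k := k) (Ω := Ω) (twist g D).toAffine
    ∀ φ : Ω ≃ₐ[k[X]] Ω, resF (k := k) (F := F) (L := L) (Ω := Ω) (fun _ => rfl) φ = frob8 k F →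
    ∀ d : ℕ → (Ω ≃ₐ[k[X]] Ω) → ((twist g D).toAffine.baseChange Ω).Point,
      Inf.TCo Ω (GL8 k L Ω) d → (∀ n, LocG45 (L := L) (twist g D) (d n)) →
      (∃ M : ℕ, 0 < M ∧ ∀ n, Inf.Eqv (2 ^ n) (GL8 k L Ω) (Inf.cj (φ ^ M) (d n)) (d n)) →
      ∀ n, Inf.Eqv (2 ^ n) (GL8 k L Ω) (d n) 0 := by
  letI := algK k F L L
  letI := algK k F L Ω
  letI := algF F L Ω
  haveI : IsScalarTower F[X] L Ω := IsScalarTower.of_algebraMap_eq fun _ => rfl
  haveI : IsScalarTower k[X] L Ω := IsScalarTower.of_algebraMap_eq fun _ => rfl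
  letI := actW (k := k) (Ω := Ω) (twist g D).toAffine
  have hk : ∀ p : k[X], algebraMap k[X] L p = algebraMap F[X] L (p.map (algebraMap k F)) :=
    fun _ => rfl
  rintro φ hφ d hd hL ⟨M, hM, hfix⟩
  haveI := finite_fixF45 (k := k) (F := F) hM
  apply eqv_of_isTrivial45 (F := F) (L := L) (twist g D) d
  apply hNT (fixF45 k F M) _ (isTateCocycle_of_TCo (F := F) (L := L) (twist g D) d hd)
  · intro v n
    obtain ⟨τ, rfl⟩ := exists_placeAt45 v
    exact hL n τ
  · intro γ₀ hγ₀
    -- the automorphism over `k[t]`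
    let γ : Ω ≃ₐ[k[X]] Ω := AlgEquiv.ofRingEquiv (f := γ₀) (by
      intro p
      have h1 := hγ₀ (p.map (algebraMap k (fixF45 k F M)))
      have h2 : base (fixF45 k F M) F L Ω (p.map (algebraMap k (fixF45 k F M))) =
          algebraMap k[X] Ω p := by
        change algebraMap L Ω (algebraMap F[X] L ((p.map (algebraMap k (fixF45 k F M))).map
          (algebraMap (fixF45 k F M) F))) = algebraMap L Ω (algebraMap F[X] L
            (p.map (algebraMap k F)))
        rw [Polynomial.map_map]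
        rfl
      rw [h2] at h1
      exact h1)
    have hγ : ∀ x : F, (frob8 k F ^ M) x = x → resF hk γ x = x := by
      intro x hx
      have h1 := hγ₀ (C ⟨x, mem_fixF45.mpr hx⟩)
      have h2 : base (fixF45 k F M) F L Ω (C ⟨x, mem_fixF45.mpr hx⟩) =
          algebraMap F[X] Ω (C x) := by
        change algebraMap L Ω (algebraMap F[X] L ((C _).map (algebraMap (fixF45 k F M) F))) =
          algebraMap L Ω (algebraMap F[X] L (C x))
        rw [map_C]
        rfl
      rw [h2] at h1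
      have h3 := resF_spec hk γ (C x)
      rw [map_C] at h3
      have h4 : γ (algebraMap F[X] Ω (C x)) = algebraMap F[X] Ω (C x) := h1
      rw [h4] at h3
      exact (const_injective L Ω h3).symm
    refine ⟨1, one_pos, fun n => ?_⟩
    obtain ⟨A, hA, h1⟩ := eqv_of_frob45 hk (twist g D).toAffine (hd.co n) (hd.sm n)
      (hd.tors n) hφ hM (hfix n) hγ
    refine ⟨A, hA, fun s h hs P A' hP hA' => ?_⟩
    have h2 := h1 (toG (k := k) h) (toG_mem_GL8 h)
    have h3 : P = γ • d n (toG (k := k) s) :=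
      (isImage_iff (W := twist g D) (γ : Ω →ₐ[k[X]] Ω) _ _).mp hP
    have h4 : A' = toG (k := k) h • A :=
      (isImage_iff (W := twist g D) (h : Ω →ₐ[L] Ω) _ _).mp hA'
    have h5 : γ⁻¹ * toG (k := k) h * γ = toG s := by
      ext x
      apply γ.injective
      change γ (γ⁻¹ (h (γ x))) = γ (s x)
      have h6 : γ (γ⁻¹ (h (γ x))) = h (γ x) := γ.apply_symm_apply _
      rw [h6]
      exact (hs x).symm
    have h7 : Inf.cj γ (d n) (toG (k := k) h) = P := by
      rw [h3]
      simp only [Inf.cj]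
      rw [h5]
    rw [h7] at h2
    rw [one_smul, h4]
    exact h2

end Main

end Pool.Agent.Lib.MP_89bcae_ag
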