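import Mathlib
import Pool.Agent.Lib.MP_89bcae_ag.Rel8

/-!
# The isomorphism `(x, y) ↦ (u² x, u³ y)` between two Weierstrass curves
-/

open Polynomial WeierstrassCurve WeierstrassCurve.Affine

open scoped Classical

namespace Pool.Agent.Lib.MP_89bcae_ag

set_option linter.unusedSectionVars false

universe u

section Scale

variable {A : Type*} [Field A]

/-- The coefficients of `W'` are those of `W`, scaled by the powers of `u`. -/
structure ScaleRel (u : A) (W W' : Affine A) : Prop where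
  ne : u ≠ 0
  a₁ : W'.a₁ = u * W.a₁
  a₂ : W'.a₂ = u ^ 2 * W.a₂
  a₃ : W'.a₃ = u ^ 3 * W.a₃
  a₄ : W'.a₄ = u ^ 4 * W.a₄
  a₆ : W'.a₆ = u ^ 6 * W.a₆

variable {u : A} {W W' : Affine A}

lemma ScaleRel.symm (h : ScaleRel u W W') : ScaleRel u⁻¹ W' W where
  ne := inv_ne_zero h.ne
  a₁ := by rw [h.a₁, inv_mul_cancel_left₀ h.ne]
  a₂ := by rw [h.a₂, ← mul_assoc, ← mul_pow, inv_mul_cancel₀ h.ne, one_pow, one_mul]
  a₃ := by rw [h.a₃, ← mul_assoc, ← mul_pow, inv_mul_cancel₀ h.ne, one_pow, one_mul]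
  a₄ := by rw [h.a₄, ← mul_assoc, ← mul_pow, inv_mul_cancel₀ h.ne, one_pow, one_mul]
  a₆ := by rw [h.a₆, ← mul_assoc, ← mul_pow, inv_mul_cancel₀ h.ne, one_pow, one_mul]

lemma ScaleRel.equation (h : ScaleRel u W W') (x y : A) :
    W'.Equation (u ^ 2 * x) (u ^ 3 * y) ↔ W.Equation x y := by
  rw [equation_iff, equation_iff, h.a₁, h.a₂, h.a₃, h.a₄, h.a₆]
  have h6 : u ^ 6 ≠ 0 := pow_ne_zero _ h.ne
  constructor
  · intro e
    apply mul_left_cancel₀ h6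
    linear_combination e
  · intro e
    linear_combination (u ^ 6) * e

lemma ScaleRel.nonsingular (h : ScaleRel u W W') {x y : A} (hxy : W.Nonsingular x y) :
    W'.Nonsingular (u ^ 2 * x) (u ^ 3 * y) := by
  rw [nonsingular_iff'] at hxy ⊢
  refine ⟨(h.equation x y).mpr hxy.1, ?_⟩
  rw [h.a₁, h.a₂, h.a₃, h.a₄]
  rcases hxy.2 with h1 | h1
  · left
    have e : u * W.a₁ * (u ^ 3 * y) - (3 * (u ^ 2 * x) ^ 2 + 2 * (u ^ 2 * W.a₂) * (u ^ 2 * x) +
        u ^ 4 * W.a₄) = u ^ 4 * (W.a₁ * y - (3 * x ^ 2 + 2 * W.a₂ * x + W.a₄)) := by ring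
    rw [e]
    exact mul_ne_zero (pow_ne_zero _ h.ne) h1
  · right
    have e : 2 * (u ^ 3 * y) + u * W.a₁ * (u ^ 2 * x) + u ^ 3 * W.a₃ =
        u ^ 3 * (2 * y + W.a₁ * x + W.a₃) := by ring
    rw [e]
    exact mul_ne_zero (pow_ne_zero _ h.ne) h1

lemma ScaleRel.negY (h : ScaleRel u W W') (x y : A) :
    W'.negY (u ^ 2 * x) (u ^ 3 * y) = u ^ 3 * W.negY x y := by
  rw [WeierstrassCurve.Affine.negY, WeierstrassCurve.Affine.negY, h.a₁, h.a₃]
  ring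

lemma ScaleRel.slope (h : ScaleRel u W W') (x₁ x₂ y₁ y₂ : A) :
    W'.slope (u ^ 2 * x₁) (u ^ 2 * x₂) (u ^ 3 * y₁) (u ^ 3 * y₂) = u * W.slope x₁ x₂ y₁ y₂ := by
  have h2 : u ^ 2 ≠ 0 := pow_ne_zero _ h.ne
  have h3 : u ^ 3 ≠ 0 := pow_ne_zero _ h.ne
  by_cases hx : x₁ = x₂
  · by_cases hy : y₁ = W.negY x₂ y₂
    · rw [slope_of_Y_eq hx hy, slope_of_Y_eq (by rw [hx]) (by rw [hy, h.negY]), mul_zero]
    · rw [slope_of_Y_ne hx hy, slope_of_Y_ne (by rw [hx])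
        (fun e => hy (mul_left_cancel₀ h3 (e.trans (h.negY _ _)))), h.negY, h.a₁, h.a₂, h.a₄,
        ← mul_sub]
      by_cases hz : y₁ - W.negY x₁ y₁ = 0
      · rw [hz]; simp
      · have hu := h.ne
        field_simp
  · rw [slope_of_X_ne hx, slope_of_X_ne (fun e => hx (mul_left_cancel₀ h2 e)), ← mul_sub, ← mul_sub]
    have : x₁ - x₂ ≠ 0 := sub_ne_zero.mpr hx
    have hu := h.ne
    field_simp

lemma ScaleRel.addX (h : ScaleRel u W W') (x₁ x₂ ℓ : A) :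
    W'.addX (u ^ 2 * x₁) (u ^ 2 * x₂) (u * ℓ) = u ^ 2 * W.addX x₁ x₂ ℓ := by
  rw [WeierstrassCurve.Affine.addX, WeierstrassCurve.Affine.addX, h.a₁, h.a₂]
  ring

lemma ScaleRel.addY (h : ScaleRel u W W') (x₁ x₂ y₁ ℓ : A) :
    W'.addY (u ^ 2 * x₁) (u ^ 2 * x₂) (u ^ 3 * y₁) (u * ℓ) = u ^ 3 * W.addY x₁ x₂ y₁ ℓ := by
  rw [WeierstrassCurve.Affine.addY, WeierstrassCurve.Affine.addY,
    WeierstrassCurve.Affine.negAddY, WeierstrassCurve.Affine.negAddY, h.addX]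
  have e : u * ℓ * (u ^ 2 * W.addX x₁ x₂ ℓ - u ^ 2 * x₁) + u ^ 3 * y₁ =
      u ^ 3 * (ℓ * (W.addX x₁ x₂ ℓ - x₁) + y₁) := by ring
  rw [e, h.negY]

/-- The isomorphism on points. -/
noncomputable def ScaleRel.pt (h : ScaleRel u W W') : W.Point →+ W'.Point where
  toFun P := match P with
    | 0 => 0
    | .some _ _ hxy => .some _ _ (h.nonsingular hxy)
  map_zero' := rfl
  map_add' := by
    rintro (_ | ⟨x₁, y₁, h₁⟩) (_ | ⟨x₂, y₂, h₂⟩)
    any_goals rfl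
    by_cases hxy : x₁ = x₂ ∧ y₁ = W.negY x₂ y₂
    · rw [Point.add_of_Y_eq hxy.left hxy.right,
        Point.add_of_Y_eq (by rw [hxy.left]) (by rw [hxy.right, h.negY])]
    · have hxy' : ¬(u ^ 2 * x₁ = u ^ 2 * x₂ ∧ u ^ 3 * y₁ = W'.negY (u ^ 2 * x₂) (u ^ 3 * y₂)) := by
        rintro ⟨e1, e2⟩
        exact hxy ⟨mul_left_cancel₀ (pow_ne_zero _ h.ne) e1,
          mul_left_cancel₀ (pow_ne_zero _ h.ne) (e2.trans (h.negY _ _))⟩
      rw [Point.add_some hxy, Point.add_some hxy']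
      simp only [Point.some.injEq]
      rw [h.slope, h.addX, h.addY]
      exact ⟨rfl, rfl⟩

lemma ScaleRel.pt_zero (h : ScaleRel u W W') : h.pt 0 = 0 := rfl

lemma ScaleRel.pt_some (h : ScaleRel u W W') {x y : A} (hxy : W.Nonsingular x y) :
    h.pt (.some x y hxy) = .some _ _ (h.nonsingular hxy) := rfl

lemma ScaleRel.pt_symm_pt (h : ScaleRel u W W') (P : W.Point) : h.symm.pt (h.pt P) = P := by
  rcases P with _ | ⟨x, y, hxy⟩
  · rfl
  · rw [h.pt_some, h.symm.pt_some]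
    simp only [Point.some.injEq]
    have hu := h.ne
    constructor <;> field_simp

lemma ScaleRel.pt_pt_symm (h : ScaleRel u W W') (P : W'.Point) : h.pt (h.symm.pt P) = P := by
  rcases P with _ | ⟨x, y, hxy⟩
  · rfl
  · rw [h.symm.pt_some, h.pt_some]
    simp only [Point.some.injEq]
    have hu := h.ne
    constructor <;> field_simp

/-- Replacing `u` by `-u` changes the isomorphism by a sign. -/
lemma ScaleRel.pt_neg (h : ScaleRel u W W') (h' : ScaleRel (-u) W W') (h1 : W.a₁ = 0)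
    (h3 : W.a₃ = 0) (P : W.Point) : h'.pt P = -h.pt P := by
  rcases P with _ | ⟨x, y, hxy⟩
  · rw [← Point.zero_def, h.pt_zero, h'.pt_zero, neg_zero]
  · rw [h.pt_some, h'.pt_some, Point.neg_some]
    simp only [Point.some.injEq]
    refine ⟨by ring, ?_⟩
    rw [WeierstrassCurve.Affine.negY, h.a₁, h.a₃, h1, h3]
    ring

end Scale

end Pool.Agent.Lib.MP_89bcae_ag
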