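import Mathlib
import Pool.Agent.Lib.MP_89bcae_ag.InfT45
import Pool.Agent.Lib.MP_89bcae_ag.InfR45
import Pool.Agent.Lib.MP_89bcae_ag.Scale45

/-!
# The isomorphism between a curve and its quadratic twist over the quadratic extension
-/

open Polynomial WeierstrassCurve WeierstrassCurve.Affine IsDedekindDomain

open scoped Classical

namespace Pool.Agent.Lib.MP_89bcae_ag

set_option linter.unusedSectionVars false
set_option linter.style.haveILetI false

universe u

section Gen

variable {k A B : Type*} [Field k] [Field A] [Algebra k[X] A] [Field B] [Algebra k[X] B]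
  {g D : k[X]}

/-- Over a field which contains a square root of `D`, the two curves are isomorphic. -/
lemma scaleRel_twist45 {r : A} (hr0 : r ≠ 0) (hr : r ^ 2 = algebraMap k[X] A D) :
    ScaleRel r ((twist g 1).toAffine.baseChange A) ((twist g D).toAffine.baseChange A) where
  ne := hr0
  a₁ := by
    change algebraMap k[X] A 0 = r * algebraMap k[X] A 0
    rw [map_zero, mul_zero]
  a₂ := by
    change algebraMap k[X] A (C (g.coeff 2) * D) = r ^ 2 * algebraMap k[X] A (C (g.coeff 2) * 1)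
    rw [map_mul, map_mul, map_one, hr]
    ring
  a₃ := by
    change algebraMap k[X] A 0 = r ^ 3 * algebraMap k[X] A 0
    rw [map_zero, mul_zero]
  a₄ := by
    change algebraMap k[X] A (C (g.coeff 1) * D ^ 2) =
      r ^ 4 * algebraMap k[X] A (C (g.coeff 1) * 1 ^ 2)
    have h4 : r ^ 4 = algebraMap k[X] A D ^ 2 := by rw [← hr]; ring
    rw [map_mul, map_mul, map_pow, map_pow, map_one, h4]
    ring
  a₆ := by
    change algebraMap k[X] A ((C (g.coeff 0) - X) * D ^ 3) =
      r ^ 6 * algebraMap k[X] A ((C (g.coeff 0) - X) * 1 ^ 3)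
    have h6 : r ^ 6 = algebraMap k[X] A D ^ 3 := by rw [← hr]; ring
    rw [map_mul, map_mul, map_pow, map_pow, map_one, h6]
    ring

/-- The isomorphism on points. -/
noncomputable def psi45 (g : k[X]) {r : A} (hr0 : r ≠ 0) (hr : r ^ 2 = algebraMap k[X] A D) :
    ((twist g 1).toAffine.baseChange A).Point ≃+ ((twist g D).toAffine.baseChange A).Point :=
  { (scaleRel_twist45 (g := g) hr0 hr).pt with
    invFun := (scaleRel_twist45 (g := g) hr0 hr).symm.pt
    left_inv := (scaleRel_twist45 (g := g) hr0 hr).pt_symm_pt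
    right_inv := (scaleRel_twist45 (g := g) hr0 hr).pt_pt_symm }

lemma psi45_apply {r : A} (hr0 : r ≠ 0) (hr : r ^ 2 = algebraMap k[X] A D)
    (P : ((twist g 1).toAffine.baseChange A).Point) :
    psi45 g hr0 hr P = (scaleRel_twist45 (g := g) hr0 hr).pt P := rfl

/-- The isomorphism is compatible with homomorphisms which respect the square roots. -/
lemma psi45_map (f : A →ₐ[k[X]] B) {r : A} (hr0 : r ≠ 0) (hr : r ^ 2 = algebraMap k[X] A D)
    {r' : B} (hr0' : r' ≠ 0) (hr' : r' ^ 2 = algebraMap k[X] B D) (hf : f r = r')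
    (P : ((twist g 1).toAffine.baseChange A).Point) :
    psi45 g hr0' hr' (Point.map (W' := (twist g 1).toAffine) f P) =
      Point.map (W' := (twist g D).toAffine) f (psi45 g hr0 hr P) := by
  subst hf
  rcases P with _ | ⟨x, y, h⟩
  · rfl
  · rw [Point.map_some, psi45_apply, psi45_apply, ScaleRel.pt_some, ScaleRel.pt_some,
      Point.map_some]
    simp only [map_mul, map_pow]

lemma psi45_map_neg (f : A →ₐ[k[X]] B) {r : A} (hr0 : r ≠ 0) (hr : r ^ 2 = algebraMap k[X] A D)
    {r' : B} (hr0' : r' ≠ 0) (hr' : r' ^ 2 = algebraMap k[X] B D) (hf : f r = -r')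
    (P : ((twist g 1).toAffine.baseChange A).Point) :
    psi45 g hr0' hr' (Point.map (W' := (twist g 1).toAffine) f P) =
      -Point.map (W' := (twist g D).toAffine) f (psi45 g hr0 hr P) := by
  have hr0'' : -r' ≠ 0 := neg_ne_zero.mpr hr0'
  have hr'' : (-r') ^ 2 = algebraMap k[X] B D := by rw [neg_sq, hr']
  rw [← psi45_map f hr0 hr hr0'' hr'' hf, psi45_apply, psi45_apply,
    ScaleRel.pt_neg (scaleRel_twist45 hr0' hr') (scaleRel_twist45 hr0'' hr''), neg_neg]
  · change algebraMap k[X] B 0 = 0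
    exact map_zero _
  · change algebraMap k[X] B 0 = 0
    exact map_zero _

end Gen

section Act

variable {k Ω : Type*} [Field k] [Field Ω] [Algebra k[X] Ω] {g D : k[X]}

lemma pos_psi45 {r : Ω} (hr0 : r ≠ 0) (hr : r ^ 2 = algebraMap k[X] Ω D) {γ : Ω ≃ₐ[k[X]] Ω}
    (hγ : γ r = r) :
    letI := actW (k := k) (Ω := Ω) (twist g 1).toAffine
    letI := actW (k := k) (Ω := Ω) (twist g D).toAffine
    Inf.Pos (psi45 g hr0 hr) γ := by
  intro P
  exact psi45_map (γ : Ω →ₐ[k[X]] Ω) hr0 hr hr0 hr hγ P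

lemma ngt_psi45 {r : Ω} (hr0 : r ≠ 0) (hr : r ^ 2 = algebraMap k[X] Ω D) {γ : Ω ≃ₐ[k[X]] Ω}
    (hγ : γ r = -r) :
    letI := actW (k := k) (Ω := Ω) (twist g 1).toAffine
    letI := actW (k := k) (Ω := Ω) (twist g D).toAffine
    Inf.Ngt (psi45 g hr0 hr) γ := by
  intro P
  exact psi45_map_neg (γ : Ω →ₐ[k[X]] Ω) hr0 hr hr0 hr hγ P

lemma pos_or_ngt_psi45 {r : Ω} (hr0 : r ≠ 0) (hr : r ^ 2 = algebraMap k[X] Ω D)
    (γ : Ω ≃ₐ[k[X]] Ω) :
    letI := actW (k := k) (Ω := Ω) (twist g 1).toAffine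
    letI := actW (k := k) (Ω := Ω) (twist g D).toAffine
    Inf.Pos (psi45 g hr0 hr) γ ∨ Inf.Ngt (psi45 g hr0 hr) γ := by
  have h1 : (γ r - r) * (γ r + r) = 0 := by
    have h2 : γ r ^ 2 = r ^ 2 := by rw [← map_pow, hr, γ.commutes]
    linear_combination h2
  rcases mul_eq_zero.mp h1 with h | h
  · exact Or.inl (pos_psi45 hr0 hr (sub_eq_zero.mp h))
  · exact Or.inr (ngt_psi45 hr0 hr (eq_neg_of_add_eq_zero_left h))

end Act

section LTOn

variable {k F L Ω : Type u} [Field k] [Field F] [Algebra k F] [IsAlgClosed F]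
  [Field L] [Algebra F[X] L] [IsFractionRing F[X] L] [Field Ω] [Algebra L Ω]

/-- The local conditions are transported by the isomorphism. -/
lemma ltOn_psi45 {g D : k[X]} {r : Ω} (hr0 : r ≠ 0) (hr : r ^ 2 = base k F L Ω D)
    {N : Subgroup (Ω ≃ₐ[L] Ω)} (hN : ∀ σ ∈ N, σ r = r) {Lv : Type u} [Field Lv] [Algebra L Lv] :
    letI := algK k F L Ω
    ∀ c : (Ω ≃ₐ[L] Ω) → ((twist g 1).toAffine.baseChange Ω).Point,
      LTOn (F := F) (twist g 1) N c Lv →
      LTOn (F := F) (twist g D) N (fun σ => psi45 g (D := D) hr0 hr (c σ)) Lv := by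
  letI := algK k F L L
  letI := algK k F L Ω
  haveI : IsScalarTower k[X] L Ω := IsScalarTower.of_algebraMap_eq fun _ => rfl
  intro c hc M _ _ _ _ _ j
  letI := algK k F L M
  haveI : IsScalarTower k[X] L M := IsScalarTower.of_algebraMap_eq fun _ => rfl
  obtain ⟨Q₀, hQ⟩ := hc M j
  let Q : ((twist g 1).toAffine.baseChange M).Point := Q₀
  let jk : Ω →ₐ[k[X]] M := j.restrictScalars k[X]
  have hj0 : jk r ≠ 0 := (map_ne_zero jk).mpr hr0
  have hj : (jk r) ^ 2 = algebraMap k[X] M D := by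
    rw [← map_pow, hr]
    exact jk.commutes D
  refine ⟨psi45 g hj0 hj Q, fun s s' hs' hss P' hP' => ?_⟩
  let sk : M ≃ₐ[k[X]] M := AlgEquiv.ofRingEquiv (f := (s : M ≃+* M)) (by
    intro p
    change s (algebraMap L M (algebraMap F[X] L (p.map (algebraMap k F)))) =
      algebraMap L M (algebraMap F[X] L (p.map (algebraMap k F)))
    rw [IsScalarTower.algebraMap_apply L Lv M, s.commutes])
  have hsr : sk (jk r) = jk r := by
    change s (j r) = j r
    rw [← hss, hN s' hs']
  have h1 : P' = Point.map (W' := (twist g D).toAffine) (sk : M →ₐ[k[X]] M)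
      (psi45 g hj0 hj Q) :=
    (isImage_iff (W := twist g D) (sk : M →ₐ[k[X]] M) _ _).mp hP'
  rw [← psi45_map (sk : M →ₐ[k[X]] M) hj0 hj hj0 hj hsr] at h1
  have h2 := hQ s s' hs' hss _ (isImage_map (W := twist g 1) (sk : M →ₐ[k[X]] M) Q)
  have h3 : Point.map (W' := (twist g 1).toAffine) (sk : M →ₐ[k[X]] M) Q - Q =
      Point.map (W' := (twist g 1).toAffine) jk (c s') :=
    (isImage_iff (W := twist g 1) jk _ _).mp h2
  have h4 : psi45 g hj0 hj (Point.map (W' := (twist g 1).toAffine) (sk : M →ₐ[k[X]] M) Q) -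
      psi45 g hj0 hj Q = Point.map (W' := (twist g D).toAffine) jk (psi45 g hr0 hr (c s')) := by
    rw [← map_sub, h3, psi45_map jk hr0 hr hj0 hj rfl]
  rw [h1]
  exact (isImage_iff (W := twist g D) jk _ _).mpr h4

end LTOn

end Pool.Agent.Lib.MP_89bcae_ag
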