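import Mathlib
import Pool.Agent.Lib.MP_89bcae_ag.InfU45
import Pool.Agent.Lib.MP_89bcae_ag.InfL8
import Pool.Agent.Lib.MP_89bcae_ag.LocInf7

/-!
# The vanishing of the classes over the first layer
-/

open Polynomial WeierstrassCurve WeierstrassCurve.Affine IsDedekindDomain

open scoped Classical

namespace Pool.Agent.Lib.MP_89bcae_ag

set_option linter.unusedSectionVars false
set_option linter.style.haveILetI false

universe u

section

variable {k F L Ω : Type u} [Field k] [Field F] [Algebra k F]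
  [IsAlgClosed F] [Field L] [Algebra F[X] L] [IsFractionRing F[X] L] [Field Ω]
  [Algebra L Ω] [IsGalois L Ω] [IsSepClosed Ω]

lemma ns_top45 {s : Ω} (hs : ∃ y : L, algebraMap L Ω y = s) (σ : Ω ≃ₐ[L] Ω) : σ ∈ NS L s := by
  obtain ⟨y, rfl⟩ := hs
  rw [mem_NS]
  exact σ.commutes y

/-- The local conditions go down the first step. -/
lemma locG_down45 (W : WeierstrassCurve k[X]) {s : Ω} {D : k[X]}
    (hs : s ^ 2 = base k F L Ω D) :
    letI := algK k F L L
    letI := algK k F L Ω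
    haveI : IsScalarTower k[X] L Ω := IsScalarTower.of_algebraMap_eq fun _ => rfl
    letI := actW (k := k) (Ω := Ω) W.toAffine
    ∀ d : ℕ → (Ω ≃ₐ[k[X]] Ω) → (W.toAffine.baseChange Ω).Point,
      Inf.TCo Ω (GL8 k L Ω) d → (∀ n, LocS (F := F) (L := L) W s (d n)) →
        ∀ n, LocG45 (F := F) (L := L) W (d n) := by
  letI := algK k F L L
  letI := algK k F L Ω
  haveI : IsScalarTower k[X] L Ω := IsScalarTower.of_algebraMap_eq fun _ => rfl
  letI := actW (k := k) (Ω := Ω) W.toAffine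
  intro d hd hloc n τ
  have hG : HS8 k L (s ^ 2) = GL8 k L Ω := by
    apply le_antisymm
    · intro γ hγ
      exact hγ.1
    · intro γ hγ
      refine ⟨hγ, ?_⟩
      rw [hs]
      exact hγ _
  have h1 := locS_down (F := F) (L := L) W s d (by rw [hG]; exact hd) hloc n τ
  intro M _ _ _ _ _ j
  obtain ⟨Q, hQ⟩ := h1 M j
  exact ⟨Q, fun g g' hg P hP => hQ g g' (ns_top45 ⟨_, hs.symm⟩ g') hg P hP⟩

/-- **The first layer.** -/
theorem layer_one45 [Fintype k] [Algebra.IsAlgebraic k F] [IsSepClosure L Ω] {g D : k[X]}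
    (hg1 : Good g 1) (hNT : NoTateClass k F L Ω g D) (hD0 : D ≠ 0)
    (hDsq : ¬ ∃ y : L, y ^ 2 = base k F L L D) {s : Ω} (hs : s ^ 2 = base k F L Ω D)
    (hsa : letI := algK k F L Ω
      ∀ γ : Ω ≃ₐ[k[X]] Ω, ∃ a : F, γ s = algebraMap L Ω (algebraMap F[X] L (C a)) * s)
    (hN : letI := algK k F L L
      letI := algK k F L Ω
      (HS8 k L s).Normal) :
    letI := algK k F L L
    letI := algK k F L Ω
    letI := algF F L Ω
    haveI : IsScalarTower F[X] L Ω := IsScalarTower.of_algebraMap_eq fun _ => rfl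
    haveI : IsScalarTower k[X] L Ω := IsScalarTower.of_algebraMap_eq fun _ => rfl
    letI := actW (k := k) (Ω := Ω) (twist g 1).toAffine
    ∀ φ : Ω ≃ₐ[k[X]] Ω, resF (k := k) (F := F) (L := L) (Ω := Ω) (fun _ => rfl) φ = frob8 k F →
    ∀ x ∈ Inf.Wg Ω (locAx_LocS (twist g 1) hsa) φ, x = 0 := by
  letI := algK k F L L
  letI := algK k F L Ω
  letI := algF F L Ω
  haveI : IsScalarTower F[X] L Ω := IsScalarTower.of_algebraMap_eq fun _ => rfl
  haveI : IsScalarTower k[X] L Ω := IsScalarTower.of_algebraMap_eq fun _ => rfl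
  letI a1 : DistribMulAction (Ω ≃ₐ[k[X]] Ω) ((twist g 1).toAffine.baseChange Ω).Point :=
    actW (k := k) (Ω := Ω) (twist g 1).toAffine
  letI a2 : DistribMulAction (Ω ≃ₐ[k[X]] Ω) ((twist g D).toAffine.baseChange Ω).Point :=
    actW (k := k) (Ω := Ω) (twist g D).toAffine
  have hk : ∀ p : k[X], algebraMap k[X] L p = algebraMap F[X] L (p.map (algebraMap k F)) :=
    fun _ => rfl
  intro φ hφ
  haveI := gs_normal (Ω := Ω) hk
  have hF := hg1.map F
  have h2Ω : (2 : Ω) ≠ 0 := two_ne_zero_Om (F := F) L Ω hF.two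
  have hbD : base k F L Ω D ≠ 0 := by
    intro h0
    apply hD0
    have h1 : Function.Injective (base k F L Ω) :=
      (algebraMap L Ω).injective.comp ((IsFractionRing.injective F[X] L).comp
        (Polynomial.map_injective _ (algebraMap k F).injective))
    exact h1 (h0.trans (map_zero _).symm)
  have hs0 : s ≠ 0 := by
    rintro rfl
    apply hbD
    rw [← hs, zero_pow two_ne_zero]
  have hpm : ∀ γ : Ω ≃ₐ[k[X]] Ω, γ s = s ∨ γ s = -s := by
    intro γ
    have h1 : (γ s - s) * (γ s + s) = 0 := by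
      have h2 : γ s ^ 2 = s ^ 2 := by
        rw [← map_pow, hs]
        exact γ.commutes D
      linear_combination h2
    rcases mul_eq_zero.mp h1 with h | h
    · exact Or.inl (sub_eq_zero.mp h)
    · exact Or.inr (eq_neg_of_add_eq_zero_left h)
  -- an element of the Galois group which moves `s`
  obtain ⟨τ, hτ, hτs⟩ : ∃ τ ∈ GL8 k L Ω, τ s = -s := by
    by_contra hno
    push Not at hno
    apply hDsq
    have hfix : ∀ σ : Ω ≃ₐ[L] Ω, σ s = s := by
      intro σ
      rcases hpm (toG σ) with h | h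
      · exact h
      · exact absurd h (hno _ (toG_mem_GL8 σ))
    obtain ⟨y, hy⟩ := (InfiniteGalois.mem_range_algebraMap_iff_fixed (k := L) _).mpr hfix
    refine ⟨y, ?_⟩
    apply (algebraMap L Ω).injective
    rw [map_pow, hy, hs]
    rfl
  have hτ' : τ⁻¹ s = -s := by
    apply τ.injective
    rw [map_neg, hτs, neg_neg]
    exact τ.apply_symm_apply s
  refine Inf.first_step (A := ((twist g 1).toAffine.baseChange Ω).Point)
    (B := ((twist g D).toAffine.baseChange Ω).Point) (X := Ω) (G := GL8 k L Ω) (τ := τ) (Loc' := LocG45 (L := L) (twist g 1))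
    (LocB := LocS (twist g D) s) (LocB' := LocG45 (L := L) (twist g D))
    (fun γ hγ => hγ.1) ⟨(GL8 k L Ω).mul_mem hτ hτ, ?_⟩ ?_ ?_ ?_
    (locAx_LocS (twist g D) hsa) (psi45 g hs0 hs) ?_ (ngt_psi45 hs0 hs hτs)
    (pos_or_ngt_psi45 hs0 hs) ?_ (locG_down45 (twist g 1) hs) (locG_down45 (twist g D) hs)
    (vanish_one45 hg1) (vanish_of_noTate45 hNT φ hφ)
  · rw [AlgEquiv.mul_apply, hτs, map_neg, hτs, neg_neg]
  · intro γ hγ
    rcases hpm γ with h | h
    · exact Or.inl ⟨hγ, h⟩
    · refine Or.inr ⟨(GL8 k L Ω).mul_mem ((GL8 k L Ω).inv_mem hτ) hγ, ?_⟩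
      rw [AlgEquiv.mul_apply, h, map_neg, hτ', neg_neg]
  · refine ⟨{s}, fun σ hσ hx => ⟨hσ, ?_⟩⟩
    exact hx s (Finset.mem_singleton_self s)
  · intro P hP hfix
    have hWL : IsTwist L (twist g 1).toAffine (g.map (algebraMap k F))
      ((1 : k[X]).map (algebraMap k F)) := isTwist_twist hk
    exact noInv_of (k := k) (F := F) (L := L) (D := D) (r := 1) h2Ω hWL.up hF.monic hF.deg hF.der
      hF.ne (by rw [pow_one]; exact hs) P hP hfix
  · intro σ hσ
    exact pos_psi45 hs0 hs hσ.2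
  · intro f hf τ'
    exact ltOn_psi45 hs0 hs (fun σ hσ => mem_NS.mp hσ) (fun σ => f (toG σ)) (hf τ')

end

end Pool.Agent.Lib.MP_89bcae_ag
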