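import Mathlib
import Pool.Agent.Lib.MP_89bcae_ag.InfU45

/-!
# Transfer of the statements from `D(t) y² = g(x) - t` to `y² = g(x) - t`
-/

open Polynomial WeierstrassCurve WeierstrassCurve.Affine IsDedekindDomain

open scoped Classical

namespace Pool.Agent.Lib.MP_89bcae_ag

set_option linter.unusedSectionVars false
set_option linter.style.haveILetI false

universe u

section Gen

variable {k A B : Type*} [Field k] [Field A] [Algebra k[X] A] [Field B] [Algebra k[X] B]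
  {g D : k[X]}

lemma psi45_symm_map (f : A →ₐ[k[X]] B) {r : A} (hr0 : r ≠ 0) (hr : r ^ 2 = algebraMap k[X] A D)
    {r' : B} (hr0' : r' ≠ 0) (hr' : r' ^ 2 = algebraMap k[X] B D) (hf : f r = r')
    (P : ((twist g D).toAffine.baseChange A).Point) :
    (psi45 g hr0' hr').symm (Point.map (W' := (twist g D).toAffine) f P) =
      Point.map (W' := (twist g 1).toAffine) f ((psi45 g hr0 hr).symm P) := by
  apply (psi45 g hr0' hr').injective
  rw [AddEquiv.apply_symm_apply, psi45_map f hr0 hr hr0' hr' hf, AddEquiv.apply_symm_apply]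

end Gen

section Over

variable {k F L Ω : Type u} [Field k] [Field F] [Algebra k F]
  [Field L] [Algebra F[X] L] [Field Ω] [Algebra L Ω]

/-- The isomorphism from the twist to the curve. -/
noncomputable def one45 (k F L : Type u) {Ω : Type u} [Field k] [Field F] [Algebra k F]
    [Field L] [Algebra F[X] L] [Field Ω] [Algebra L Ω] (g D : k[X]) {r : Ω} (hr0 : r ≠ 0)
    (hr : r ^ 2 = base k F L Ω D) (P : ((twist g D).map (base k F L Ω)).toAffine.Point) :
    ((twist g 1).map (base k F L Ω)).toAffine.Point :=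
  letI := algK k F L Ω
  (psi45 g (D := D) hr0 hr).symm P

variable {g D : k[X]} {K : Subfield Ω} {r : Ω} (hr0 : r ≠ 0) (hr : r ^ 2 = base k F L Ω D)
  (hrK : r ∈ K)
  {c : ℕ → galOver L K → ((twist g D).map (base k F L Ω)).toAffine.Point}

include hrK in
lemma IsTateCocycleOver.one45 (hc : IsTateCocycleOver (twist g D) K c) :
    IsTateCocycleOver (twist g 1) K (fun n σ => one45 k F L g D hr0 hr (c n σ)) := by
  letI := algK k F L L
  letI := algK k F L Ω
  haveI : IsScalarTower k[X] L Ω := IsScalarTower.of_algebraMap_eq fun _ => rfl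
  let ψ : ((twist g D).toAffine.baseChange Ω).Point →+ ((twist g 1).toAffine.baseChange Ω).Point :=
    ((psi45 g (D := D) hr0 hr).symm : _ →+ _)
  let d : ℕ → galOver L K → ((twist g D).toAffine.baseChange Ω).Point := c
  refine ⟨?_, ?_, ?_, ?_⟩
  · intro σ
    have h1 : d 0 σ = 0 := hc.zero σ
    change ψ (d 0 σ) = 0
    rw [h1, map_zero]
  · intro n σ
    have h1 : 2 • d (n + 1) σ = d n σ := hc.two_smul n σ
    exact (map_nsmul ψ 2 (d (n + 1) σ)).symm.trans (congrArg ψ h1)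
  · intro n σ τ P hP
    have hP' : P = Point.map (W' := (twist g 1).toAffine) ((σ : Ω ≃ₐ[L] Ω) : Ω →ₐ[L] Ω)
        (ψ (d n τ)) := (isImage_iff (W := twist g 1) ((σ : Ω ≃ₐ[L] Ω) : Ω →ₐ[L] Ω) _ _).mp hP
    have h1 : d n (σ * τ) = d n σ + Point.map (W' := (twist g D).toAffine)
        ((σ : Ω ≃ₐ[L] Ω) : Ω →ₐ[L] Ω) (d n τ) :=
      hc.cocycle n σ τ _ (isImage_map (W := twist g D) ((σ : Ω ≃ₐ[L] Ω) : Ω →ₐ[L] Ω) (c n τ))
    have h2 := psi45_symm_map (g := g) (D := D)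
      (((σ : Ω ≃ₐ[L] Ω) : Ω →ₐ[L] Ω).restrictScalars k[X]) hr0 hr hr0 hr (σ.2 r hrK) (d n τ)
    have h3 : ψ (d n (σ * τ)) = ψ (d n σ) + Point.map (W' := (twist g 1).toAffine)
        ((σ : Ω ≃ₐ[L] Ω) : Ω →ₐ[L] Ω) (ψ (d n τ)) := by
      rw [h1, map_add]
      congr 1
    rw [hP']
    exact h3
  · intro n
    exact (hc.locallyConstant n).comp _

include hrK in
lemma IsLocallyTrivialOver.one45 {c : galOver L K → ((twist g D).map (base k F L Ω)).toAffine.Point}
    {Lv : Type u} [Field Lv] [Algebra L Lv] (hc : IsLocallyTrivialOver (twist g D) K c Lv) :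
    IsLocallyTrivialOver (twist g 1) K (fun σ => one45 k F L g D hr0 hr (c σ)) Lv := by
  letI := algK k F L L
  letI := algK k F L Ω
  haveI : IsScalarTower k[X] L Ω := IsScalarTower.of_algebraMap_eq fun _ => rfl
  let d : galOver L K → ((twist g D).toAffine.baseChange Ω).Point := c
  intro M _ _ _ _ _ j
  letI := algK k F L M
  haveI : IsScalarTower k[X] L M := IsScalarTower.of_algebraMap_eq fun _ => rfl
  obtain ⟨Q₀, hQ⟩ := hc M j
  let Q : ((twist g D).toAffine.baseChange M).Point := Q₀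
  let jk : Ω →ₐ[k[X]] M := j.restrictScalars k[X]
  have hj0 : jk r ≠ 0 := (map_ne_zero jk).mpr hr0
  have hj : (jk r) ^ 2 = algebraMap k[X] M D := by
    rw [← map_pow, hr]
    exact jk.commutes D
  refine ⟨(psi45 g (D := D) hj0 hj).symm Q, fun s s' hss P' hP' => ?_⟩
  let sk : M ≃ₐ[k[X]] M := AlgEquiv.ofRingEquiv (f := (s : M ≃+* M)) (by
    intro p
    change s (algebraMap L M (algebraMap F[X] L (p.map (algebraMap k F)))) =
      algebraMap L M (algebraMap F[X] L (p.map (algebraMap k F)))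
    rw [IsScalarTower.algebraMap_apply L Lv M, s.commutes])
  have hsr : sk (jk r) = jk r := by
    change s (j r) = j r
    rw [← hss, s'.2 r hrK]
  have h1 : P' = Point.map (W' := (twist g 1).toAffine) (sk : M →ₐ[k[X]] M)
      ((psi45 g (D := D) hj0 hj).symm Q) :=
    (isImage_iff (W := twist g 1) (sk : M →ₐ[k[X]] M) _ _).mp hP'
  rw [← psi45_symm_map (sk : M →ₐ[k[X]] M) hj0 hj hj0 hj hsr] at h1
  have h2 := hQ s s' hss _ (isImage_map (W := twist g D) (sk : M →ₐ[k[X]] M) Q)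
  have h3 : Point.map (W' := (twist g D).toAffine) (sk : M →ₐ[k[X]] M) Q - Q =
      Point.map (W' := (twist g D).toAffine) jk (d s') :=
    (isImage_iff (W := twist g D) jk _ _).mp h2
  have h4 : (psi45 g (D := D) hj0 hj).symm
      (Point.map (W' := (twist g D).toAffine) (sk : M →ₐ[k[X]] M) Q) -
      (psi45 g (D := D) hj0 hj).symm Q = Point.map (W' := (twist g 1).toAffine) jk
        ((psi45 g (D := D) hr0 hr).symm (d s')) := by
    rw [← map_sub, h3, psi45_symm_map jk hr0 hr hj0 hj rfl]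
  rw [h1]
  exact (isImage_iff (W := twist g 1) jk _ _).mpr h4

include hrK in
lemma IsFixedByOver.one45 {γ : Ω ≃+* Ω} (hγ : γ r = r)
    (hγk : ∀ p : k[X], γ (base k F L Ω p) = base k F L Ω p)
    (hc : IsFixedByOver (twist g D) K c γ) :
    IsFixedByOver (twist g 1) K (fun n σ => one45 k F L g D hr0 hr (c n σ)) γ := by
  letI := algK k F L L
  letI := algK k F L Ω
  haveI : IsScalarTower k[X] L Ω := IsScalarTower.of_algebraMap_eq fun _ => rfl
  let ψ : ((twist g D).toAffine.baseChange Ω).Point →+ ((twist g 1).toAffine.baseChange Ω).Point :=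
    ((psi45 g (D := D) hr0 hr).symm : _ →+ _)
  let d : ℕ → galOver L K → ((twist g D).toAffine.baseChange Ω).Point := c
  let γk : Ω ≃ₐ[k[X]] Ω := AlgEquiv.ofRingEquiv (f := γ) hγk
  obtain ⟨m, hm, H⟩ := hc
  refine ⟨m, hm, fun n => ?_⟩
  obtain ⟨A₀, hA, HA⟩ := H n
  let A : ((twist g D).toAffine.baseChange Ω).Point := A₀
  have hA1 : 2 ^ n • ψ A = 0 := by
    have h1 : 2 ^ n • A = 0 := hA
    rw [← map_nsmul, h1, map_zero]
  refine ⟨ψ A, hA1, fun s h hs P A' hP hA' => ?_⟩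
  have hP' : P = Point.map (W' := (twist g 1).toAffine) (γk : Ω →ₐ[k[X]] Ω) (ψ (d n s)) :=
    (isImage_iff (W := twist g 1) (γk : Ω →ₐ[k[X]] Ω) _ _).mp hP
  have hA'' : A' = Point.map (W' := (twist g 1).toAffine) ((h : Ω ≃ₐ[L] Ω) : Ω →ₐ[L] Ω) (ψ A) :=
    (isImage_iff (W := twist g 1) ((h : Ω ≃ₐ[L] Ω) : Ω →ₐ[L] Ω) _ _).mp hA'
  have h1 : m • (Point.map (W' := (twist g D).toAffine) (γk : Ω →ₐ[k[X]] Ω) (d n s) - d n h) =
      Point.map (W' := (twist g D).toAffine) ((h : Ω ≃ₐ[L] Ω) : Ω →ₐ[L] Ω) A - A :=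
    HA s h hs _ _ (isImage_map (W := twist g D) (γk : Ω →ₐ[k[X]] Ω) (c n s))
      (isImage_map (W := twist g D) ((h : Ω ≃ₐ[L] Ω) : Ω →ₐ[L] Ω) A)
  have h2 : ψ (Point.map (W' := (twist g D).toAffine) (γk : Ω →ₐ[k[X]] Ω) (d n s)) =
      Point.map (W' := (twist g 1).toAffine) (γk : Ω →ₐ[k[X]] Ω) (ψ (d n s)) :=
    psi45_symm_map (γk : Ω →ₐ[k[X]] Ω) hr0 hr hr0 hr hγ (d n s)
  have h3 : ψ (Point.map (W' := (twist g D).toAffine) ((h : Ω ≃ₐ[L] Ω) : Ω →ₐ[L] Ω) A) =
      Point.map (W' := (twist g 1).toAffine) ((h : Ω ≃ₐ[L] Ω) : Ω →ₐ[L] Ω) (ψ A) :=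
    psi45_symm_map (g := g) (D := D)
      (((h : Ω ≃ₐ[L] Ω) : Ω →ₐ[L] Ω).restrictScalars k[X]) hr0 hr hr0 hr (h.2 r hrK) A
  have h4 := congrArg ψ h1
  rw [map_nsmul, map_sub, map_sub, h2, h3] at h4
  rw [hP', hA'']
  exact h4

include hrK in
/-- The vanishing of a class over `K` does not depend on the choice of the curve. -/
lemma IsTrivialOver.of_one45
    (h : IsTrivialOver (twist g 1) K (fun n σ => one45 k F L g D hr0 hr (c n σ))) :
    IsTrivialOver (twist g D) K c := by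
  letI := algK k F L L
  letI := algK k F L Ω
  haveI : IsScalarTower k[X] L Ω := IsScalarTower.of_algebraMap_eq fun _ => rfl
  let ψ := psi45 g (D := D) hr0 hr
  let d : ℕ → galOver L K → ((twist g D).toAffine.baseChange Ω).Point := c
  intro n
  obtain ⟨A₀, hA, HA⟩ := h n
  let A : ((twist g 1).toAffine.baseChange Ω).Point := A₀
  have hA1 : 2 ^ n • ψ A = 0 := by
    have h1 : 2 ^ n • A = 0 := hA
    rw [← map_nsmul, h1, map_zero]
  refine ⟨ψ A, hA1, fun σ A' hA' => ?_⟩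
  have hA'' : A' = Point.map (W' := (twist g D).toAffine) ((σ : Ω ≃ₐ[L] Ω) : Ω →ₐ[L] Ω) (ψ A) :=
    (isImage_iff (W := twist g D) ((σ : Ω ≃ₐ[L] Ω) : Ω →ₐ[L] Ω) _ _).mp hA'
  have h1 : ψ.symm (d n σ) =
      Point.map (W' := (twist g 1).toAffine) ((σ : Ω ≃ₐ[L] Ω) : Ω →ₐ[L] Ω) A - A :=
    HA σ _ (isImage_map (W := twist g 1) ((σ : Ω ≃ₐ[L] Ω) : Ω →ₐ[L] Ω) A)
  have h3 : ψ (Point.map (W' := (twist g 1).toAffine) ((σ : Ω ≃ₐ[L] Ω) : Ω →ₐ[L] Ω) A) =
      Point.map (W' := (twist g D).toAffine) ((σ : Ω ≃ₐ[L] Ω) : Ω →ₐ[L] Ω) (ψ A) :=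
    psi45_map (g := g) (D := D)
      (((σ : Ω ≃ₐ[L] Ω) : Ω →ₐ[L] Ω).restrictScalars k[X]) hr0 hr hr0 hr (σ.2 r hrK) A
  have h4 := congrArg ψ h1
  rw [AddEquiv.apply_symm_apply, map_sub, h3] at h4
  rw [hA'']
  exact h4

end Over

end Pool.Agent.Lib.MP_89bcae_ag
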