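import Mathlib
import Pool.Agent.Lib.MP_89bcae_ag.InfR8
import Pool.Agent.Lib.MP_89bcae_ag.InfV45
import Pool.Agent.Lib.MP_89bcae_ag.InfW45
import Pool.Agent.Lib.MP_89bcae_ag.EndInf7

/-!
# All the layers of the tower
-/

open Polynomial WeierstrassCurve WeierstrassCurve.Affine IsDedekindDomain

open scoped Classical

namespace Pool.Agent.Lib.MP_89bcae_ag

set_option linter.unusedSectionVars false
set_option linter.style.haveILetI false

universe u

variable {k F L Ω : Type u} [Field k] [Fintype k] [Field F] [Algebra k F]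
  [Algebra.IsAlgebraic k F] [IsAlgClosed F] [Field L] [Algebra F[X] L] [IsFractionRing F[X] L]
  [Field Ω] [Algebra L Ω] [IsGalois L Ω] [IsSepClosed Ω] [IsSepClosure L Ω]

/-- The formula for the two classes of divisors, in the layer of `s`. -/
def Form8 (L : Type u) {k F Ω : Type u} [Field k] [Fintype k] [Field F] [Algebra k F]
    [Algebra.IsAlgebraic k F] [IsAlgClosed F] [Field L] [Algebra F[X] L] [IsFractionRing F[X] L] [Field Ω] [Algebra L Ω]
    (g : k[X]) (j : ℕ) (β : F) (r : ℕ) (s : Ω)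
    (φ : letI := algK k F L Ω
      Ω ≃ₐ[k[X]] Ω) : Prop :=
  letI := algK k F L L
  letI := algK k F L Ω
  haveI : IsScalarTower k[X] L Ω := IsScalarTower.of_algebraMap_eq fun _ => rfl
  letI := actW (k := k) (Ω := Ω) (twist g 1).toAffine
  ∀ τ ∈ GL8 k L Ω, τ (s ^ (2 ^ r)) = -(s ^ (2 ^ r)) →
  ∀ (z z' y : (Ω ≃ₐ[k[X]] Ω) → ((twist g 1).toAffine.baseChange Ω).Point)
    (a a' : ((twist g 1).toAffine.baseChange Ω).Point),
    Inf.Adm (A := ((twist g 1).toAffine.baseChange Ω).Point) Ω (GL8 k L Ω)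
      (LocS (twist g 1) s) z →
    Inf.Adm (A := ((twist g 1).toAffine.baseChange Ω).Point) Ω (GL8 k L Ω)
      (LocS (twist g 1) s) z' →
    Inf.Adm (A := ((twist g 1).toAffine.baseChange Ω).Point) Ω (HS8 k L (s ^ (2 ^ r)))
      (LocS (twist g 1) s) y →
    2 • a = 0 → 2 • a' = 0 →
    (∀ σ ∈ HS8 k L (s ^ (2 ^ r)), y σ - Inf.cj τ y σ = z σ + Inf.cob a σ) →
    (∀ σ ∈ HS8 k L (s ^ (2 ^ r)),
      Inf.cj (φ ^ (3 * 3 ^ j)) y σ - y σ = z' σ + Inf.cob a' σ) →
    dv8 L g (3 ^ j) β z = pair8 (3 ^ j) →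
    ¬ ∀ i : ZMod (3 * 3 ^ j), i ≠ 0 → i ≠ (3 ^ j : ℕ) → i ≠ (2 * 3 ^ j : ℕ) →
      dv8 L g (3 ^ j) β z' i = 0

section

variable {g D : k[X]} {j : ℕ} {α β : F}

omit [Fintype k] [Algebra.IsAlgebraic k F] [IsAlgClosed F] [IsGalois L Ω] [IsSepClosed Ω]
  [IsSepClosure L Ω] in
lemma base_inj : Function.Injective (base k F L Ω) :=
  (algebraMap L Ω).injective.comp ((IsFractionRing.injective F[X] L).comp
    (Polynomial.map_injective _ (algebraMap k F).injective))

omit [Fintype k] [Algebra.IsAlgebraic k F] [IsAlgClosed F] [IsGalois L Ω] [IsSepClosed Ω]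
  [IsSepClosure L Ω] in
lemma root_ne_zero (hD : D ≠ 0) {r : ℕ} {s : Ω} (hs : s ^ (2 ^ r) = base k F L Ω D) : s ≠ 0 := by
  rintro rfl
  rw [zero_pow (by positivity)] at hs
  exact hD (base_inj (F := F) (L := L) (Ω := Ω) (by rw [map_zero]; exact hs.symm))

/-- **All the layers.** -/
theorem noW8_all (hgood : Good g 1) (ho : Orb8 g D (3 ^ j) α β) (hNT : NoTateClass k F L Ω g D)
    (hform : letI := algK k F L L
      letI := algK k F L Ω
      letI := algF F L Ω
      haveI : IsScalarTower F[X] L Ω := IsScalarTower.of_algebraMap_eq fun _ => rfl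
      haveI : IsScalarTower k[X] L Ω := IsScalarTower.of_algebraMap_eq fun _ => rfl
      ∀ (r : ℕ), 1 ≤ r → ∀ (s : Ω), s ^ (2 ^ (r + 1)) = base k F L Ω D →
      ∀ φ : Ω ≃ₐ[k[X]] Ω, φ s = s →
      resF (k := k) (F := F) (L := L) (Ω := Ω) (fun _ => rfl) φ = frob8 k F →
      Form8 L g j β r s φ) :
    letI := algK k F L L
    letI := algK k F L Ω
    letI := algF F L Ω
    haveI : IsScalarTower F[X] L Ω := IsScalarTower.of_algebraMap_eq fun _ => rfl
    haveI : IsScalarTower k[X] L Ω := IsScalarTower.of_algebraMap_eq fun _ => rfl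
    ∀ (r : ℕ) (s : Ω), s ^ (2 ^ (r + 1)) = base k F L Ω D →
      ∀ φ : Ω ≃ₐ[k[X]] Ω, φ s = s →
      resF (k := k) (F := F) (L := L) (Ω := Ω) (fun _ => rfl) φ = frob8 k F →
      NoW8 L (twist g 1) s φ := by
  letI := algK k F L L
  letI := algK k F L Ω
  letI := algF F L Ω
  haveI : IsScalarTower F[X] L Ω := IsScalarTower.of_algebraMap_eq fun _ => rfl
  haveI : IsScalarTower k[X] L Ω := IsScalarTower.of_algebraMap_eq fun _ => rfl
  letI := actW (k := k) (Ω := Ω) (twist g 1).toAffine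
  intro r
  induction r with
  | zero =>
    intro s hs φ hφs hφ hN hL x hx
    have hs' : s ^ (2 ^ 1) = algebraMap k[X] Ω D := hs
    rw [pow_one] at hs'
    have hs0 := root_ne_zero (F := F) (L := L) ho.ne_zero hs
    have hsa : ∀ γ : Ω ≃ₐ[k[X]] Ω, ∃ a : F,
        γ s = algebraMap L Ω (algebraMap F[X] L (C a)) * s := by
      intro γ
      obtain ⟨ζ, -, h⟩ := exists_zeta (F := F) (r := 1) (D := D) (by rw [pow_one]; exact hs') hs0 γ
      exact ⟨ζ, h⟩
    have hD0 : (D.map (algebraMap k F)).natDegree = 3 ^ j := by rw [natDegree_map, ho.degD]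
    have hDodd : Odd (D.map (algebraMap k F)).natDegree := by
      rw [hD0]; exact Odd.pow (by decide)
    exact layer_one45 hgood hNT ho.ne_zero (not_sq_of_odd (F := F) (L := L) hDodd) hs' hsa hN φ hφ
      x hx
  | succ r ih =>
    intro s hs φ hφs hφ
    apply noW8_step hgood ho (r := r + 1) (by omega) hs hφs hφ (hform (r + 1) (by omega) s hs φ
      hφs hφ)
    apply ih (s ^ 2) _ φ _ hφ
    · rw [← pow_mul, ← pow_succ']; exact hs
    · rw [map_pow, hφs]

/-- The first step: the curve `D(t) y² = g(x) - t` over `F(t)`. -/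
theorem noW8_zero {s : Ω} (hNT : NoTateClass k F L Ω g D) (hs : s = base k F L Ω D) :
    letI := algK k F L L
    letI := algK k F L Ω
    letI := algF F L Ω
    haveI : IsScalarTower F[X] L Ω := IsScalarTower.of_algebraMap_eq fun _ => rfl
    haveI : IsScalarTower k[X] L Ω := IsScalarTower.of_algebraMap_eq fun _ => rfl
    ∀ φ : Ω ≃ₐ[k[X]] Ω,
      resF (k := k) (F := F) (L := L) (Ω := Ω) (fun _ => rfl) φ = frob8 k F →
      NoW8 L (twist g D) s φ := by
  letI := algK k F L L
  letI := algK k F L Ω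
  letI := algF F L Ω
  haveI : IsScalarTower F[X] L Ω := IsScalarTower.of_algebraMap_eq fun _ => rfl
  haveI : IsScalarTower k[X] L Ω := IsScalarTower.of_algebraMap_eq fun _ => rfl
  letI := actW (k := k) (Ω := Ω) (twist g D).toAffine
  intro φ hφ hN hL x hx
  have hG : HS8 k L s = GL8 k L Ω := by
    apply le_antisymm
    · intro γ hγ
      exact hγ.1
    · intro γ hγ
      refine ⟨hγ, ?_⟩
      rw [hs]
      exact hγ _
  obtain ⟨hx1, M, hM, hfix⟩ := hx
  obtain ⟨c, hc, rfl⟩ := (Inf.mem_ZQ hL).mp hx1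
  rw [Inf.cjQ_mk, Inf.mk_eq_iff] at hfix
  rw [← QuotientAddGroup.mk_zero, Inf.mk_eq_iff]
  have h1 := vanish_of_noTate45 (F := F) (L := L) hNT φ hφ c (by rw [← hG]; exact hc.1) (by
    intro n τ M' _ _ _ _ _ j'
    obtain ⟨Q, hQ⟩ := hc.2 n τ M' j'
    exact ⟨Q, fun g g' hg P hP => hQ g g' (ns_top45 ⟨_, hs.symm⟩ g') hg P hP⟩)
    ⟨M, hM, fun n => by rw [← hG]; exact hfix n⟩
  intro n
  have h2 := h1 n
  rw [← hG] at h2
  exact h2

/-- Transfer between the two curves. -/
lemma noTateClassOver_transfer {K : Subfield Ω} {r₁ : Ω} (hr0 : r₁ ≠ 0)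
    (hr : r₁ ^ 2 = base k F L Ω D) (hrK : r₁ ∈ K) (hK : ∀ p : k[X], base k F L Ω p ∈ K)
    (h : NoTateClassOver k F L g 1 K) : NoTateClassOver k F L g D K := by
  intro c hc hS hinv
  apply IsTrivialOver.of_one45 hr0 hr hrK
  apply h _ (hc.one45 hr0 hr hrK)
  · intro v n
    exact (hS v n).one45 hr0 hr hrK
  · intro γ hγ
    exact (hinv γ hγ).one45 hr0 hr hrK (hγ r₁ hrK) (fun p => hγ _ (hK p))

lemma base_mem_cover {s : Ω} (k' : IntermediateField k F) (p : k[X]) :
    base k F L Ω p ∈ cover k' F L s := by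
  apply Subfield.subset_closure
  right
  refine ⟨p.map (algebraMap k k'), ?_⟩
  change algebraMap L Ω (algebraMap F[X] L ((p.map (algebraMap k k')).map (algebraMap k' F))) =
    algebraMap L Ω (algebraMap F[X] L (p.map (algebraMap k F)))
  rw [Polynomial.map_map]
  rfl

/-- **No Tate classes over the whole tower.** -/
theorem noTower8 (hgood : Good g 1) (ho : Orb8 g D (3 ^ j) α β)
    (hNT : NoTateClass k F L Ω g D)
    (hform : letI := algK k F L L
      letI := algK k F L Ω
      letI := algF F L Ω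
      haveI : IsScalarTower F[X] L Ω := IsScalarTower.of_algebraMap_eq fun _ => rfl
      haveI : IsScalarTower k[X] L Ω := IsScalarTower.of_algebraMap_eq fun _ => rfl
      ∀ (r : ℕ), 1 ≤ r → ∀ (s : Ω), s ^ (2 ^ (r + 1)) = base k F L Ω D →
      ∀ φ : Ω ≃ₐ[k[X]] Ω, φ s = s →
      resF (k := k) (F := F) (L := L) (Ω := Ω) (fun _ => rfl) φ = frob8 k F →
      Form8 L g j β r s φ) (k' : IntermediateField k F) [FiniteDimensional k k'] (r : ℕ) (s : Ω)
    (hs : s ^ (2 ^ r) = base k F L Ω D) : NoTateClassOver k F L g D (cover k' F L s) := by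
  letI := algK k F L L
  letI := algK k F L Ω
  letI := algF F L Ω
  haveI : IsScalarTower F[X] L Ω := IsScalarTower.of_algebraMap_eq fun _ => rfl
  haveI : IsScalarTower k[X] L Ω := IsScalarTower.of_algebraMap_eq fun _ => rfl
  have hk : ∀ p : k[X], algebraMap k[X] L p = algebraMap F[X] L (p.map (algebraMap k F)) :=
    fun _ => rfl
  have hF := hgood.map F
  have h2Ω : (2 : Ω) ≠ 0 := two_ne_zero_Om (F := F) L Ω hF.two
  have hs' : s ^ (2 ^ r) = algebraMap k[X] Ω D := hs
  have hD0 : D ≠ 0 := ho.ne_zero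
  have hs0 := root_ne_zero (F := F) (L := L) hD0 hs
  have hN : (HS8 k L s).Normal := hs_normal hk hs' hs0
  have hsa : ∀ γ : Ω ≃ₐ[k[X]] Ω, ∃ a : F,
      γ s = algebraMap L Ω (algebraMap F[X] L (C a)) * s := by
    intro γ
    obtain ⟨ζ, -, h⟩ := exists_zeta (F := F) hs' hs0 γ
    exact ⟨ζ, h⟩
  have hA : ∀ E : k[X], E ≠ 0 → ∀ a : ((twist g E).toAffine.baseChange Ω).Point, 2 • a = 0 →
      (∀ σ ∈ HS8 k L s, gm (twist g E).toAffine σ a = a) → a = 0 := by
    intro E hE a ha hfix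
    have hW : IsTwist Ω (twist g E).toAffine (g.map (algebraMap k F))
      (E.map (algebraMap k F)) := (isTwist_twist hk).up
    exact noInv_of (k := k) (F := F) (L := L) h2Ω hW hF.monic hF.deg hF.der
      (Polynomial.map_ne_zero hE) hs' a ha hfix
  cases r with
  | zero =>
    rw [pow_zero, pow_one] at hs
    obtain ⟨φ, hφ⟩ := exists_lift_aut (Ω := Ω) hk (frob8 k F)
    have hres : resF hk φ = frob8 k F := by
      apply resF_unique
      intro a
      have := hφ (C a)
      rw [map_C] at this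
      exact this
    have hφs : φ s = s := by
      rw [hs]
      exact φ.commutes D
    exact noTateClassOver_of_wg (F := F) (L := L) (g := g) (D := D) k' hN (hA D hD0)
      (locAx_LocS (twist g D) hsa) φ hφs hres
      (noW8_zero (F := F) hNT hs φ hres hN (locAx_LocS (twist g D) hsa))
  | succ r =>
    obtain ⟨τ, hτ, ζ, hζ, hτs⟩ := exists_tau (k := k) (F := F) (L := L) (Ω := Ω) (D := D) hs' hs0 (by
      intro h
      have hD0 : (D.map (algebraMap k F)).natDegree = 3 ^ j := by rw [natDegree_map, ho.degD]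
      have hDodd : Odd (D.map (algebraMap k F)).natDegree := by
        rw [hD0]; exact Odd.pow (by decide)
      exact not_sq_of_odd (F := F) (L := L) hDodd h)
    obtain ⟨φ, hφs, hres⟩ := exists_phi hk hs' hs0 hτ hζ hτs (frob8 k F)
    apply noTateClassOver_transfer (r₁ := s ^ (2 ^ r)) (pow_ne_zero _ hs0) _ _
      (fun p => base_mem_cover k' p)
    · exact noTateClassOver_of_wg (F := F) (L := L) (g := g) (D := 1) k' hN
        (hA 1 one_ne_zero) (locAx_LocS (twist g 1) hsa) φ hφs hres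
        (noW8_all hgood ho hNT hform r s hs φ hφs hres hN (locAx_LocS (twist g 1) hsa))
    · rw [← pow_mul, ← pow_succ]
      exact hs
    · exact pow_mem (Subfield.subset_closure (Set.mem_insert _ _)) _

end

end Pool.Agent.Lib.MP_89bcae_ag
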