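import Mathlib
import Pool.Agent.Lib.MP_89bcae_ag.InfV45
import Pool.Agent.Lib.MP_89bcae_ag.InfZ8
import Pool.Agent.Lib.MP_89bcae_ag.InfRP8
import Pool.Agent.Lib.MP_89bcae_ag.InfQP8
import Pool.Agent.Lib.MP_89bcae_ag.DinfG14

/-!
# All the layers of the tower: general automorphisms
-/

open Polynomial WeierstrassCurve WeierstrassCurve.Affine IsDedekindDomain

open scoped Classical

namespace Pool.Agent.Lib.MP_89bcae_ag

set_option linter.unusedSectionVars false
set_option linter.style.haveILetI false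

universe u

/-- The classes over `L` which satisfy the local conditions and are fixed by a power of a lift of
the automorphism `φ₀` vanish. -/
def VanP8 {k F : Type u} [Field k] [Field F] [Algebra k F] [IsAlgClosed F] (φ₀ : F ≃ₐ[k] F)
    (L Ω : Type u) [Field L] [Algebra F[X] L] [IsFractionRing F[X] L] [Field Ω]
    [Algebra L Ω] [Algebra.IsAlgebraic k F] [IsGalois L Ω] [IsSepClosed Ω] (g D : k[X]) : Prop :=
  letI := algK k F L L
  letI := algK k F L Ω
  letI := algF F L Ω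
  haveI : IsScalarTower F[X] L Ω := IsScalarTower.of_algebraMap_eq fun _ => rfl
  haveI : IsScalarTower k[X] L Ω := IsScalarTower.of_algebraMap_eq fun _ => rfl
  letI := actW (k := k) (Ω := Ω) (twist g D).toAffine
  ∀ φ : Ω ≃ₐ[k[X]] Ω, resF (k := k) (F := F) (L := L) (Ω := Ω) (fun _ => rfl) φ = φ₀ →
  ∀ d : ℕ → (Ω ≃ₐ[k[X]] Ω) → ((twist g D).toAffine.baseChange Ω).Point,
    Inf.TCo Ω (GL8 k L Ω) d → (∀ n, LocG45 (L := L) (twist g D) (d n)) →
    (∃ M : ℕ, 0 < M ∧ ∀ n, Inf.Eqv (2 ^ n) (GL8 k L Ω) (Inf.cj (φ ^ M) (d n)) (d n)) →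
    ∀ n, Inf.Eqv (2 ^ n) (GL8 k L Ω) (d n) 0

section

variable {k F L Ω : Type u} [Field k] [Field F] [Algebra k F]
  [IsAlgClosed F] [Field L] [Algebra F[X] L] [IsFractionRing F[X] L] [Field Ω]
  [Algebra L Ω] [IsGalois L Ω] [IsSepClosed Ω]

/-- **The first layer.** -/
theorem layer_oneP8 [Algebra.IsAlgebraic k F] [IsSepClosure L Ω] {φ₀ : F ≃ₐ[k] F} {g D : k[X]}
    (hg1 : Good g 1) (hV : VanP8 φ₀ L Ω g D) (hD0 : D ≠ 0)
    (hDsq : ¬ ∃ y : L, y ^ 2 = base k F L L D) {s : Ω} (hs : s ^ 2 = base k F L Ω D)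
    (hsa : letI := algK k F L Ω
      ∀ γ : Ω ≃ₐ[k[X]] Ω, ∃ a : F, γ s = algebraMap L Ω (algebraMap F[X] L (C a)) * s)
    (hN : letI := algK k F L L
      letI := algK k F L Ω
      (HS8 k L s).Normal) :
    letI := algK k F L L
    letI := algK k F L Ω
    letI := algF F L Ω
    haveI : IsScalarTower F[X] L Ω := IsScalarTower.of_algebraMap_eq fun _ => rfl
    haveI : IsScalarTower k[X] L Ω := IsScalarTower.of_algebraMap_eq fun _ => rfl
    letI := actW (k := k) (Ω := Ω) (twist g 1).toAffine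
    ∀ φ : Ω ≃ₐ[k[X]] Ω, resF (k := k) (F := F) (L := L) (Ω := Ω) (fun _ => rfl) φ = φ₀ →
    ∀ x ∈ Inf.Wg Ω (locAx_LocS (twist g 1) hsa) φ, x = 0 := by
  letI := algK k F L L
  letI := algK k F L Ω
  letI := algF F L Ω
  haveI : IsScalarTower F[X] L Ω := IsScalarTower.of_algebraMap_eq fun _ => rfl
  haveI : IsScalarTower k[X] L Ω := IsScalarTower.of_algebraMap_eq fun _ => rfl
  letI a1 : DistribMulAction (Ω ≃ₐ[k[X]] Ω) ((twist g 1).toAffine.baseChange Ω).Point :=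
    actW (k := k) (Ω := Ω) (twist g 1).toAffine
  letI a2 : DistribMulAction (Ω ≃ₐ[k[X]] Ω) ((twist g D).toAffine.baseChange Ω).Point :=
    actW (k := k) (Ω := Ω) (twist g D).toAffine
  have hk : ∀ p : k[X], algebraMap k[X] L p = algebraMap F[X] L (p.map (algebraMap k F)) :=
    fun _ => rfl
  intro φ hφ
  haveI := gs_normal (Ω := Ω) hk
  have hF := hg1.map F
  have h2Ω : (2 : Ω) ≠ 0 := two_ne_zero_Om (F := F) L Ω hF.two
  have hbD : base k F L Ω D ≠ 0 := by
    intro h0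
    apply hD0
    have h1 : Function.Injective (base k F L Ω) :=
      (algebraMap L Ω).injective.comp ((IsFractionRing.injective F[X] L).comp
        (Polynomial.map_injective _ (algebraMap k F).injective))
    exact h1 (h0.trans (map_zero _).symm)
  have hs0 : s ≠ 0 := by
    rintro rfl
    apply hbD
    rw [← hs, zero_pow two_ne_zero]
  have hpm : ∀ γ : Ω ≃ₐ[k[X]] Ω, γ s = s ∨ γ s = -s := by
    intro γ
    have h1 : (γ s - s) * (γ s + s) = 0 := by
      have h2 : γ s ^ 2 = s ^ 2 := by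
        rw [← map_pow, hs]
        exact γ.commutes D
      linear_combination h2
    rcases mul_eq_zero.mp h1 with h | h
    · exact Or.inl (sub_eq_zero.mp h)
    · exact Or.inr (eq_neg_of_add_eq_zero_left h)
  -- an element of the Galois group which moves `s`
  obtain ⟨τ, hτ, hτs⟩ : ∃ τ ∈ GL8 k L Ω, τ s = -s := by
    by_contra hno
    push Not at hno
    apply hDsq
    have hfix : ∀ σ : Ω ≃ₐ[L] Ω, σ s = s := by
      intro σ
      rcases hpm (toG σ) with h | h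
      · exact h
      · exact absurd h (hno _ (toG_mem_GL8 σ))
    obtain ⟨y, hy⟩ := (InfiniteGalois.mem_range_algebraMap_iff_fixed (k := L) _).mpr hfix
    refine ⟨y, ?_⟩
    apply (algebraMap L Ω).injective
    rw [map_pow, hy, hs]
    rfl
  have hτ' : τ⁻¹ s = -s := by
    apply τ.injective
    rw [map_neg, hτs, neg_neg]
    exact τ.apply_symm_apply s
  refine Inf.first_step (A := ((twist g 1).toAffine.baseChange Ω).Point)
    (B := ((twist g D).toAffine.baseChange Ω).Point) (X := Ω) (G := GL8 k L Ω) (τ := τ) (Loc' := LocG45 (L := L) (twist g 1))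
    (LocB := LocS (twist g D) s) (LocB' := LocG45 (L := L) (twist g D))
    (fun γ hγ => hγ.1) ⟨(GL8 k L Ω).mul_mem hτ hτ, ?_⟩ ?_ ?_ ?_
    (locAx_LocS (twist g D) hsa) (psi45 g hs0 hs) ?_ (ngt_psi45 hs0 hs hτs)
    (pos_or_ngt_psi45 hs0 hs) ?_ (locG_down45 (twist g 1) hs) (locG_down45 (twist g D) hs)
    (vanish_one45 hg1) (hV φ hφ)
  · rw [AlgEquiv.mul_apply, hτs, map_neg, hτs, neg_neg]
  · intro γ hγ
    rcases hpm γ with h | h
    · exact Or.inl ⟨hγ, h⟩
    · refine Or.inr ⟨(GL8 k L Ω).mul_mem ((GL8 k L Ω).inv_mem hτ) hγ, ?_⟩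
      rw [AlgEquiv.mul_apply, h, map_neg, hτ', neg_neg]
  · refine ⟨{s}, fun σ hσ hx => ⟨hσ, ?_⟩⟩
    exact hx s (Finset.mem_singleton_self s)
  · intro P hP hfix
    have hWL : IsTwist L (twist g 1).toAffine (g.map (algebraMap k F))
      ((1 : k[X]).map (algebraMap k F)) := isTwist_twist hk
    exact noInv_of (k := k) (F := F) (L := L) (D := D) (r := 1) h2Ω hWL.up hF.monic hF.deg hF.der
      hF.ne (by rw [pow_one]; exact hs) P hP hfix
  · intro σ hσ
    exact pos_psi45 hs0 hs hσ.2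
  · intro f hf τ'
    exact ltOn_psi45 hs0 hs (fun σ hσ => mem_NS.mp hσ) (fun σ => f (toG σ)) (hf τ')

end

/-- The formula for the two classes of divisors, in the layer of `s`. -/
def FormP8 {k F : Type u} [Field k] [Field F] [Algebra k F] (φ₀ : F ≃ₐ[k] F) (L : Type u)
    {Ω : Type u}
    [Algebra.IsAlgebraic k F] [IsAlgClosed F] [Field L] [Algebra F[X] L] [IsFractionRing F[X] L] [Field Ω] [Algebra L Ω]
    (g : k[X]) (j : ℕ) (β : F) (r : ℕ) (s : Ω)
    (φ : letI := algK k F L Ω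
      Ω ≃ₐ[k[X]] Ω) : Prop :=
  letI := algK k F L L
  letI := algK k F L Ω
  haveI : IsScalarTower k[X] L Ω := IsScalarTower.of_algebraMap_eq fun _ => rfl
  letI := actW (k := k) (Ω := Ω) (twist g 1).toAffine
  ∀ τ ∈ GL8 k L Ω, τ (s ^ (2 ^ r)) = -(s ^ (2 ^ r)) →
  ∀ (z z' y : (Ω ≃ₐ[k[X]] Ω) → ((twist g 1).toAffine.baseChange Ω).Point)
    (a a' : ((twist g 1).toAffine.baseChange Ω).Point),
    Inf.Adm (A := ((twist g 1).toAffine.baseChange Ω).Point) Ω (GL8 k L Ω)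
      (LocS (twist g 1) s) z →
    Inf.Adm (A := ((twist g 1).toAffine.baseChange Ω).Point) Ω (GL8 k L Ω)
      (LocS (twist g 1) s) z' →
    Inf.Adm (A := ((twist g 1).toAffine.baseChange Ω).Point) Ω (HS8 k L (s ^ (2 ^ r)))
      (LocS (twist g 1) s) y →
    2 • a = 0 → 2 • a' = 0 →
    (∀ σ ∈ HS8 k L (s ^ (2 ^ r)), y σ - Inf.cj τ y σ = z σ + Inf.cob a σ) →
    (∀ σ ∈ HS8 k L (s ^ (2 ^ r)),
      Inf.cj (φ ^ (3 * 3 ^ j)) y σ - y σ = z' σ + Inf.cob a' σ) →
    dvP8 φ₀ L g (3 ^ j) β z = pair8 (3 ^ j) →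
    ¬ ∀ i : ZMod (3 * 3 ^ j), i ≠ 0 → i ≠ (3 ^ j : ℕ) → i ≠ (2 * 3 ^ j : ℕ) →
      dvP8 φ₀ L g (3 ^ j) β z' i = 0

section

variable {k F L Ω : Type u} [Field k] [Field F] [Algebra k F] {φ₀ : F ≃ₐ[k] F}
  [Algebra.IsAlgebraic k F] [IsAlgClosed F] [Field L] [Algebra F[X] L] [IsFractionRing F[X] L]
  [Field Ω] [Algebra L Ω] [IsGalois L Ω] [IsSepClosed Ω] [IsSepClosure L Ω]

variable {g D : k[X]} {j : ℕ} {α β : F}

/-- **All the layers.** -/
theorem noW8_allP8 (hgood : Good g 1) (ho : OrbP8 φ₀ g D (3 ^ j) α β) (hV : VanP8 φ₀ L Ω g D)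
    (hform : letI := algK k F L L
      letI := algK k F L Ω
      letI := algF F L Ω
      haveI : IsScalarTower F[X] L Ω := IsScalarTower.of_algebraMap_eq fun _ => rfl
      haveI : IsScalarTower k[X] L Ω := IsScalarTower.of_algebraMap_eq fun _ => rfl
      ∀ (r : ℕ), 1 ≤ r → ∀ (s : Ω), s ^ (2 ^ (r + 1)) = base k F L Ω D →
      ∀ φ : Ω ≃ₐ[k[X]] Ω, φ s = s →
      resF (k := k) (F := F) (L := L) (Ω := Ω) (fun _ => rfl) φ = φ₀ →
      FormP8 φ₀ L g j β r s φ) :
    letI := algK k F L L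
    letI := algK k F L Ω
    letI := algF F L Ω
    haveI : IsScalarTower F[X] L Ω := IsScalarTower.of_algebraMap_eq fun _ => rfl
    haveI : IsScalarTower k[X] L Ω := IsScalarTower.of_algebraMap_eq fun _ => rfl
    ∀ (r : ℕ) (s : Ω), s ^ (2 ^ (r + 1)) = base k F L Ω D →
      ∀ φ : Ω ≃ₐ[k[X]] Ω, φ s = s →
      resF (k := k) (F := F) (L := L) (Ω := Ω) (fun _ => rfl) φ = φ₀ →
      NoW8 L (twist g 1) s φ := by
  letI := algK k F L L
  letI := algK k F L Ω
  letI := algF F L Ω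
  haveI : IsScalarTower F[X] L Ω := IsScalarTower.of_algebraMap_eq fun _ => rfl
  haveI : IsScalarTower k[X] L Ω := IsScalarTower.of_algebraMap_eq fun _ => rfl
  letI := actW (k := k) (Ω := Ω) (twist g 1).toAffine
  intro r
  induction r with
  | zero =>
    intro s hs φ hφs hφ hN hL x hx
    have hs' : s ^ (2 ^ 1) = algebraMap k[X] Ω D := hs
    rw [pow_one] at hs'
    have hs0 := root_ne_zero (F := F) (L := L) ho.ne_zero hs
    have hsa : ∀ γ : Ω ≃ₐ[k[X]] Ω, ∃ a : F,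
        γ s = algebraMap L Ω (algebraMap F[X] L (C a)) * s := by
      intro γ
      obtain ⟨ζ, -, h⟩ := exists_zeta (F := F) (r := 1) (D := D) (by rw [pow_one]; exact hs') hs0 γ
      exact ⟨ζ, h⟩
    have hD0 : (D.map (algebraMap k F)).natDegree = 3 ^ j := by rw [natDegree_map, ho.degD]
    have hDodd : Odd (D.map (algebraMap k F)).natDegree := by
      rw [hD0]; exact Odd.pow (by decide)
    exact layer_oneP8 hgood hV ho.ne_zero (not_sq_of_odd (F := F) (L := L) hDodd) hs' hsa hN φ hφ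
      x hx
  | succ r ih =>
    intro s hs φ hφs hφ
    apply noW8_stepP8 hgood ho (r := r + 1) (by omega) hs hφs hφ (hform (r + 1) (by omega) s hs φ
      hφs hφ)
    apply ih (s ^ 2) _ φ _ hφ
    · rw [← pow_mul, ← pow_succ']; exact hs
    · rw [map_pow, hφs]

/-- The first step: the curve `D(t) y² = g(x) - t` over `F(t)`. -/
theorem noW8_zeroP8 {s : Ω} (hV : VanP8 φ₀ L Ω g D) (hs : s = base k F L Ω D) :
    letI := algK k F L L
    letI := algK k F L Ω
    letI := algF F L Ω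
    haveI : IsScalarTower F[X] L Ω := IsScalarTower.of_algebraMap_eq fun _ => rfl
    haveI : IsScalarTower k[X] L Ω := IsScalarTower.of_algebraMap_eq fun _ => rfl
    ∀ φ : Ω ≃ₐ[k[X]] Ω,
      resF (k := k) (F := F) (L := L) (Ω := Ω) (fun _ => rfl) φ = φ₀ →
      NoW8 L (twist g D) s φ := by
  letI := algK k F L L
  letI := algK k F L Ω
  letI := algF F L Ω
  haveI : IsScalarTower F[X] L Ω := IsScalarTower.of_algebraMap_eq fun _ => rfl
  haveI : IsScalarTower k[X] L Ω := IsScalarTower.of_algebraMap_eq fun _ => rfl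
  letI := actW (k := k) (Ω := Ω) (twist g D).toAffine
  intro φ hφ hN hL x hx
  have hG : HS8 k L s = GL8 k L Ω := by
    apply le_antisymm
    · intro γ hγ
      exact hγ.1
    · intro γ hγ
      refine ⟨hγ, ?_⟩
      rw [hs]
      exact hγ _
  obtain ⟨hx1, M, hM, hfix⟩ := hx
  obtain ⟨c, hc, rfl⟩ := (Inf.mem_ZQ hL).mp hx1
  rw [Inf.cjQ_mk, Inf.mk_eq_iff] at hfix
  rw [← QuotientAddGroup.mk_zero, Inf.mk_eq_iff]
  have h1 := hV φ hφ c (by rw [← hG]; exact hc.1) (by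
    intro n τ M' _ _ _ _ _ j'
    obtain ⟨Q, hQ⟩ := hc.2 n τ M' j'
    exact ⟨Q, fun g g' hg P hP => hQ g g' (ns_top45 ⟨_, hs.symm⟩ g') hg P hP⟩)
    ⟨M, hM, fun n => by rw [← hG]; exact hfix n⟩
  intro n
  have h2 := h1 n
  rw [← hG] at h2
  exact h2

end

end Pool.Agent.Lib.MP_89bcae_ag
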