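import Mathlib
import Pool.Agent.Lib.MP_89bcae_ag.EndInf7
import Pool.Agent.Lib.MP_89bcae_ag.InfZP8

/-!
# From the layers to the statement: general automorphisms
-/

open Polynomial WeierstrassCurve WeierstrassCurve.Affine IsDedekindDomain

open scoped Classical

namespace Pool.Agent.Lib.MP_89bcae_ag

set_option linter.unusedSectionVars false
set_option linter.style.haveILetI false

universe u

variable {k F L Ω : Type u} [Field k] [Field F] [Algebra k F] {φ₀ : F ≃ₐ[k] F}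
  [Algebra.IsAlgebraic k F] [IsAlgClosed F] [Field L] [Algebra F[X] L] [IsFractionRing F[X] L]
  [Field Ω] [Algebra L Ω] [IsGalois L Ω] [IsSepClosed Ω] [IsSepClosure L Ω]

/-- **From the layers to the statement.** -/
theorem trivialOver_of_wgP8 {g D : k[X]} {s : Ω} {K : Subfield Ω}
    (hK : ∀ σ : Ω ≃ₐ[L] Ω, σ ∈ galOver L K ↔ σ s = s) :
    letI := algK k F L L
    letI := algK k F L Ω
    letI := algF F L Ω
    haveI : IsScalarTower F[X] L Ω := IsScalarTower.of_algebraMap_eq fun _ => rfl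
    haveI : IsScalarTower k[X] L Ω := IsScalarTower.of_algebraMap_eq fun _ => rfl
    letI := actW (k := k) (Ω := Ω) (twist g D).toAffine
    ∀ (_ : (HS8 k L s).Normal)
      (_ : ∀ a : ((twist g D).toAffine.baseChange Ω).Point, 2 • a = 0 →
        (∀ σ ∈ HS8 k L s, σ • a = a) → a = 0)
      (hL : Inf.LocAx (A := ((twist g D).toAffine.baseChange Ω).Point) (HS8 k L s)
        (LocS (F := F) (L := L) (twist g D) s))
      (φ : Ω ≃ₐ[k[X]] Ω)
      (_ : ∀ x ∈ Inf.Wg Ω hL φ, x = 0)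
      (c : ℕ → galOver L K → ((twist g D).map (base k F L Ω)).toAffine.Point)
      (_ : IsTateCocycleOver (twist g D) K c)
      (_ : ∀ (τ : F) (n : ℕ),
        IsLocallyTrivialOver (twist g D) K (c n) ((placeAt τ).adicCompletion L))
      (_ : ∃ M : ℕ, 0 < M ∧
        IsFixedByOver (twist g D) K c (φ ^ M : Ω ≃ₐ[k[X]] Ω).toRingEquiv),
      IsTrivialOver (twist g D) K c := by
  letI := algK k F L L
  letI := algK k F L Ω
  letI := algF F L Ω
  haveI : IsScalarTower F[X] L Ω := IsScalarTower.of_algebraMap_eq fun _ => rfl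
  haveI : IsScalarTower k[X] L Ω := IsScalarTower.of_algebraMap_eq fun _ => rfl
  letI := actW (k := k) (Ω := Ω) (twist g D).toAffine
  intro hN hA hL φ hW c hc hS hinv
  have hk : ∀ p : k[X], algebraMap k[X] L p = algebraMap F[X] L (p.map (algebraMap k F)) :=
    fun _ => rfl
  let W : Affine k[X] := (twist g D).toAffine
  have hmem : ∀ {γ : Ω ≃ₐ[k[X]] Ω} (h : γ ∈ HS8 k L s), ofGL h.1 ∈ galOver L K := fun h =>
    (hK _).mpr h.2
  -- extension by zero
  let d : ℕ → (Ω ≃ₐ[k[X]] Ω) → (W.baseChange Ω).Point := fun n γ =>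
    if h : γ ∈ HS8 k L s then c n ⟨ofGL h.1, hmem h⟩ else 0
  have hd : ∀ n (γ : Ω ≃ₐ[k[X]] Ω) (h : γ ∈ HS8 k L s), d n γ = c n ⟨ofGL h.1, hmem h⟩ :=
    fun n γ h => dif_pos h
  have hTC : Inf.TCo Ω (HS8 k L s) d := by
    refine ⟨?_, ?_, ?_, ?_⟩
    · intro σ hσ
      rw [hd 0 σ hσ]
      exact hc.zero _
    · intro n σ hσ
      rw [hd _ σ hσ, hd _ σ hσ]
      exact hc.two_smul n _
    · intro n σ hσ τ hτ
      rw [hd n σ hσ, hd n τ hτ, hd n (σ * τ) ((HS8 k L s).mul_mem hσ hτ)]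
      exact hc.cocycle n ⟨ofGL hσ.1, hmem hσ⟩ ⟨ofGL hτ.1, hmem hτ⟩ _
        (isImage_map (W := twist g D) (σ : Ω →ₐ[k[X]] Ω) (c n ⟨ofGL hτ.1, hmem hτ⟩))
    · intro n
      obtain ⟨S, hS⟩ := exists_finset_of_locallyConstant (hc.locallyConstant n)
      have h1 : c n 1 = (0 : (W.baseChange Ω).Point) := by
        have h2 := hc.cocycle n 1 1 _
          (isImage_map (W := twist g D) ((1 : Ω ≃ₐ[L] Ω) : Ω →ₐ[L] Ω) (c n 1))
        have h3 : Point.map (W' := W) ((1 : Ω ≃ₐ[L] Ω) : Ω →ₐ[L] Ω) (c n 1) = c n 1 := sm_one W _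
        rw [mul_one] at h2
        let x : (W.baseChange Ω).Point := c n 1
        have h4 : x = x + Point.map (W' := W) ((1 : Ω ≃ₐ[L] Ω) : Ω →ₐ[L] Ω) x := h2
        have h5 : Point.map (W' := W) ((1 : Ω ≃ₐ[L] Ω) : Ω →ₐ[L] Ω) x = x := h3
        rw [h5] at h4
        exact (left_eq_add.mp h4)
      refine ⟨S, fun σ hσ h => ?_⟩
      rw [hd n σ hσ]
      exact (hS ⟨ofGL hσ.1, hmem hσ⟩ h).trans h1
  have hLoc : ∀ n, LocS (F := F) (L := L) (twist g D) s (d n) := by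
    intro n τ M _ _ _ _ _ j
    obtain ⟨Q, hQ⟩ := hS τ n M j
    refine ⟨Q, fun y y' hy' hy P hP => ?_⟩
    have hy2 : toG (k := k) y' ∈ HS8 k L s := toG_mem_HS8.mpr (mem_NS.mp hy')
    have h1 := hQ y ⟨ofGL hy2.1, hmem hy2⟩ hy P hP
    change IsImage _ (d n (toG y')) _
    rw [hd n _ hy2]
    exact h1
  have hx : (QuotientAddGroup.mk d : Inf.Q (W.baseChange Ω).Point (HS8 k L s)) ∈ Inf.ZQ Ω hL :=
    (Inf.mem_ZQ hL).mpr ⟨d, ⟨hTC, hLoc⟩, rfl⟩
  obtain ⟨M, hM, m, hm, H⟩ := hinv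
  have hfix : Inf.cjQ (W.baseChange Ω).Point (HS8 k L s) (φ ^ M) (QuotientAddGroup.mk d) =
      QuotientAddGroup.mk d := by
    rw [← sub_eq_zero]
    apply Inf.ZQ_nsmul_torsion hL hA m ((Inf.ZQ Ω hL).sub_mem (Inf.cjQ_mem hL _ hx) hx) hm
    rw [Inf.cjQ_mk, ← QuotientAddGroup.mk_sub, ← QuotientAddGroup.mk_nsmul,
      ← QuotientAddGroup.mk_zero, Inf.mk_eq_iff]
    intro n
    obtain ⟨A, hA1, hA2⟩ := H n
    refine ⟨A, hA1, fun σ hσ => ?_⟩
    have hσ' : (φ ^ M)⁻¹ * σ * φ ^ M ∈ HS8 k L s := Inf.conj_mem' (φ ^ M) σ hσ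
    have h1 := hA2 ⟨ofGL hσ'.1, hmem hσ'⟩ ⟨ofGL hσ.1, hmem hσ⟩ (fun x => by
      change (φ ^ M) (((φ ^ M)⁻¹ * σ * φ ^ M) x) = σ ((φ ^ M) x)
      rw [AlgEquiv.mul_apply, AlgEquiv.mul_apply, ← AlgEquiv.mul_apply (φ ^ M) (φ ^ M)⁻¹,
        mul_inv_cancel]
      rfl) _ _
      (isImage_map (W := twist g D) ((φ ^ M : Ω ≃ₐ[k[X]] Ω) : Ω →ₐ[k[X]] Ω)
        (c n ⟨ofGL hσ'.1, hmem hσ'⟩))
      (isImage_map (W := twist g D) (σ : Ω →ₐ[k[X]] Ω) A)
    rw [← hd n _ hσ, ← hd n _ hσ'] at h1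
    rw [Pi.zero_apply, Pi.zero_apply, sub_zero]
    exact h1
  have h0 := hW _ ⟨hx, M, hM, hfix⟩
  rw [← QuotientAddGroup.mk_zero, Inf.mk_eq_iff] at h0
  intro n
  obtain ⟨a, ha, h1⟩ := h0 n
  refine ⟨a, ha, fun y A' hA' => ?_⟩
  have hy2 : toG (k := k) (y : Ω ≃ₐ[L] Ω) ∈ HS8 k L s := toG_mem_HS8.mpr ((hK _).mp y.2)
  have h2 := h1 _ hy2
  rw [hd n _ hy2] at h2
  have h3 : A' = Point.map (W' := W) ((y : Ω ≃ₐ[L] Ω) : Ω →ₐ[L] Ω) a :=
    (isImage_iff (W := twist g D) ((y : Ω ≃ₐ[L] Ω) : Ω →ₐ[L] Ω) _ _).mp hA'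
  have h4 : c n y - 0 = Point.map (W' := W) ((y : Ω ≃ₐ[L] Ω) : Ω →ₐ[L] Ω) a - a := h2
  rw [sub_zero] at h4
  rw [h3]
  exact h4

/-- The powers of a lift of an automorphism which fix `k'(t, s)`. -/
lemma exists_pow_fix_coverP8 {s : Ω} (k' : IntermediateField k F) [FiniteDimensional k k'] :
    letI := algK k F L L
    letI := algK k F L Ω
    letI := algF F L Ω
    haveI : IsScalarTower F[X] L Ω := IsScalarTower.of_algebraMap_eq fun _ => rfl
    haveI : IsScalarTower k[X] L Ω := IsScalarTower.of_algebraMap_eq fun _ => rfl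
    ∀ (φ : Ω ≃ₐ[k[X]] Ω) (_ : φ s = s)
      (_ : resF (k := k) (F := F) (L := L) (Ω := Ω) (fun _ => rfl) φ = φ₀),
      ∃ M : ℕ, 0 < M ∧ ∀ x ∈ cover k' F L s, (φ ^ M) x = x := by
  letI := algK k F L L
  letI := algK k F L Ω
  letI := algF F L Ω
  haveI : IsScalarTower F[X] L Ω := IsScalarTower.of_algebraMap_eq fun _ => rfl
  haveI : IsScalarTower k[X] L Ω := IsScalarTower.of_algebraMap_eq fun _ => rfl
  have hk : ∀ p : k[X], algebraMap k[X] L p = algebraMap F[X] L (p.map (algebraMap k F)) :=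
    fun _ => rfl
  intro φ hφ hres
  obtain ⟨M, hM, hM1⟩ : ∃ M : ℕ, 0 < M ∧ ∀ a : k', (φ₀ ^ M) (a : F) = a := by
    obtain ⟨i, j, hij, h⟩ := Finite.exists_ne_map_eq_of_infinite
      (fun i : ℕ => ((φ₀ ^ i : F ≃ₐ[k] F) : F →ₐ[k] F).comp k'.val)
    have key : ∀ i j : ℕ, i < j → ((φ₀ ^ i : F ≃ₐ[k] F) : F →ₐ[k] F).comp k'.val =
        ((φ₀ ^ j : F ≃ₐ[k] F) : F →ₐ[k] F).comp k'.val →
        ∃ M : ℕ, 0 < M ∧ ∀ a : k', (φ₀ ^ M) (a : F) = a := by
      intro i j hij h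
      refine ⟨j - i, by omega, fun a => ?_⟩
      have h1 : (φ₀ ^ i) (a : F) = (φ₀ ^ j) (a : F) := DFunLike.congr_fun h a
      apply (φ₀ ^ i).injective
      rw [← AlgEquiv.mul_apply, ← pow_add, Nat.add_sub_cancel' hij.le]
      exact h1.symm
    rcases lt_or_gt_of_ne hij with h1 | h1
    · exact key i j h1 h
    · exact key j i h1 h.symm
  refine ⟨M, hM, ?_⟩
  have hfixF : ∀ a : k', (resF hk (φ ^ M)) (a : F) = a := by
    intro a
    rw [resF_pow, show resF hk φ = φ₀ from hres]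
    exact hM1 a
  apply fix_cover (f := ((φ ^ M : Ω ≃ₐ[k[X]] Ω) : Ω →+* Ω))
  · change (φ ^ M) s = s
    clear hM1 hfixF hM
    induction M with
    | zero => rfl
    | succ M ih => rw [pow_succ, AlgEquiv.mul_apply, hφ, ih]
  · intro p
    have h1 := resF_spec hk (φ ^ M) (p.map (algebraMap k' F))
    have h2 : (p.map (algebraMap k' F)).map
        ((resF hk (φ ^ M) : F ≃ₐ[k] F) : F →+* F) =
        p.map (algebraMap k' F) := by
      rw [Polynomial.map_map]
      congr 1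
      ext a
      exact hfixF a
    rw [h2] at h1
    exact h1

/-- **No Tate classes over the cover.** -/
theorem noTateClassOver_of_wgP8 {g D : k[X]} {s : Ω} (k' : IntermediateField k F)
    [FiniteDimensional k k'] :
    letI := algK k F L L
    letI := algK k F L Ω
    letI := algF F L Ω
    haveI : IsScalarTower F[X] L Ω := IsScalarTower.of_algebraMap_eq fun _ => rfl
    haveI : IsScalarTower k[X] L Ω := IsScalarTower.of_algebraMap_eq fun _ => rfl
    letI := actW (k := k) (Ω := Ω) (twist g D).toAffine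
    ∀ (_ : (HS8 k L s).Normal)
      (_ : ∀ a : ((twist g D).toAffine.baseChange Ω).Point, 2 • a = 0 →
        (∀ σ ∈ HS8 k L s, σ • a = a) → a = 0)
      (hL : Inf.LocAx (A := ((twist g D).toAffine.baseChange Ω).Point) (HS8 k L s)
        (LocS (F := F) (L := L) (twist g D) s))
      (φ : Ω ≃ₐ[k[X]] Ω) (_ : φ s = s)
      (_ : resF (k := k) (F := F) (L := L) (Ω := Ω) (fun _ => rfl) φ = φ₀)
      (_ : ∀ x ∈ Inf.Wg Ω hL φ, x = 0),
      NoTateClassOver k F L g D (cover k' F L s) := by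
  intro hN hA hL φ hφ hres hW c hc hS hinv
  obtain ⟨M, hM, h⟩ := exists_pow_fix_coverP8 k' φ hφ hres
  exact trivialOver_of_wgP8 (fun σ => mem_galOver_cover) hN hA hL φ hW c hc
    (fun τ n => hS (placeAt τ) n) ⟨M, hM, hinv _ h⟩

/-- Transfer between the two curves. -/
lemma noTateClassOver_transferP8 {g D : k[X]} {K : Subfield Ω} {r₁ : Ω} (hr0 : r₁ ≠ 0)
    (hr : r₁ ^ 2 = base k F L Ω D) (hrK : r₁ ∈ K) (hK : ∀ p : k[X], base k F L Ω p ∈ K)
    (h : NoTateClassOver k F L g 1 K) : NoTateClassOver k F L g D K := by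
  intro c hc hS hinv
  apply IsTrivialOver.of_one45 hr0 hr hrK
  apply h _ (hc.one45 hr0 hr hrK)
  · intro v n
    exact (hS v n).one45 hr0 hr hrK
  · intro γ hγ
    exact (hinv γ hγ).one45 hr0 hr hrK (hγ r₁ hrK) (fun p => hγ _ (hK p))

lemma base_mem_coverP8 {s : Ω} (k' : IntermediateField k F) (p : k[X]) :
    base k F L Ω p ∈ cover k' F L s := by
  apply Subfield.subset_closure
  right
  refine ⟨p.map (algebraMap k k'), ?_⟩
  change algebraMap L Ω (algebraMap F[X] L ((p.map (algebraMap k k')).map (algebraMap k' F))) =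
    algebraMap L Ω (algebraMap F[X] L (p.map (algebraMap k F)))
  rw [Polynomial.map_map]
  rfl

/-- **No Tate classes over the whole tower.** -/
theorem noTowerP8 {g D : k[X]} {j : ℕ} {α β : F} (hgood : Good g 1) (ho : OrbP8 φ₀ g D (3 ^ j) α β)
    (hV : VanP8 φ₀ L Ω g D)
    (hform : letI := algK k F L L
      letI := algK k F L Ω
      letI := algF F L Ω
      haveI : IsScalarTower F[X] L Ω := IsScalarTower.of_algebraMap_eq fun _ => rfl
      haveI : IsScalarTower k[X] L Ω := IsScalarTower.of_algebraMap_eq fun _ => rfl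
      ∀ (r : ℕ), 1 ≤ r → ∀ (s : Ω), s ^ (2 ^ (r + 1)) = base k F L Ω D →
      ∀ φ : Ω ≃ₐ[k[X]] Ω, φ s = s →
      resF (k := k) (F := F) (L := L) (Ω := Ω) (fun _ => rfl) φ = φ₀ →
      FormP8 φ₀ L g j β r s φ) (k' : IntermediateField k F) [FiniteDimensional k k'] (r : ℕ) (s : Ω)
    (hs : s ^ (2 ^ r) = base k F L Ω D) : NoTateClassOver k F L g D (cover k' F L s) := by
  letI := algK k F L L
  letI := algK k F L Ω
  letI := algF F L Ω
  haveI : IsScalarTower F[X] L Ω := IsScalarTower.of_algebraMap_eq fun _ => rfl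
  haveI : IsScalarTower k[X] L Ω := IsScalarTower.of_algebraMap_eq fun _ => rfl
  have hk : ∀ p : k[X], algebraMap k[X] L p = algebraMap F[X] L (p.map (algebraMap k F)) :=
    fun _ => rfl
  have hF := hgood.map F
  have h2Ω : (2 : Ω) ≠ 0 := two_ne_zero_Om (F := F) L Ω hF.two
  have hs' : s ^ (2 ^ r) = algebraMap k[X] Ω D := hs
  have hD0 : D ≠ 0 := ho.ne_zero
  have hs0 := root_ne_zero (F := F) (L := L) hD0 hs
  have hN : (HS8 k L s).Normal := hs_normal hk hs' hs0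
  have hsa : ∀ γ : Ω ≃ₐ[k[X]] Ω, ∃ a : F,
      γ s = algebraMap L Ω (algebraMap F[X] L (C a)) * s := by
    intro γ
    obtain ⟨ζ, -, h⟩ := exists_zeta (F := F) hs' hs0 γ
    exact ⟨ζ, h⟩
  have hA : ∀ E : k[X], E ≠ 0 → ∀ a : ((twist g E).toAffine.baseChange Ω).Point, 2 • a = 0 →
      (∀ σ ∈ HS8 k L s, gm (twist g E).toAffine σ a = a) → a = 0 := by
    intro E hE a ha hfix
    have hW : IsTwist Ω (twist g E).toAffine (g.map (algebraMap k F))
      (E.map (algebraMap k F)) := (isTwist_twist hk).up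
    exact noInv_of (k := k) (F := F) (L := L) h2Ω hW hF.monic hF.deg hF.der
      (Polynomial.map_ne_zero hE) hs' a ha hfix
  cases r with
  | zero =>
    rw [pow_zero, pow_one] at hs
    obtain ⟨φ, hφ⟩ := exists_lift_aut (Ω := Ω) hk (φ₀)
    have hres : resF hk φ = φ₀ := by
      apply resF_unique
      intro a
      have := hφ (C a)
      rw [map_C] at this
      exact this
    have hφs : φ s = s := by
      rw [hs]
      exact φ.commutes D
    exact noTateClassOver_of_wgP8 (F := F) (L := L) (g := g) (D := D) k' hN (hA D hD0)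
      (locAx_LocS (twist g D) hsa) φ hφs hres
      (noW8_zeroP8 (F := F) hV hs φ hres hN (locAx_LocS (twist g D) hsa))
  | succ r =>
    obtain ⟨τ, hτ, ζ, hζ, hτs⟩ := exists_tau (k := k) (F := F) (L := L) (Ω := Ω) (D := D) hs' hs0 (by
      intro h
      have hD0 : (D.map (algebraMap k F)).natDegree = 3 ^ j := by rw [natDegree_map, ho.degD]
      have hDodd : Odd (D.map (algebraMap k F)).natDegree := by
        rw [hD0]; exact Odd.pow (by decide)
      exact not_sq_of_odd (F := F) (L := L) hDodd h)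
    obtain ⟨φ, hφs, hres⟩ := exists_phi hk hs' hs0 hτ hζ hτs (φ₀)
    apply noTateClassOver_transferP8 (r₁ := s ^ (2 ^ r)) (pow_ne_zero _ hs0) _ _
      (fun p => base_mem_coverP8 k' p)
    · exact noTateClassOver_of_wgP8 (F := F) (L := L) (g := g) (D := 1) k' hN
        (hA 1 one_ne_zero) (locAx_LocS (twist g 1) hsa) φ hφs hres
        (noW8_allP8 hgood ho hV hform r s hs φ hφs hres hN (locAx_LocS (twist g 1) hsa))
    · rw [← pow_mul, ← pow_succ]
      exact hs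
    · exact pow_mem (Subfield.subset_closure (Set.mem_insert _ _)) _

end Pool.Agent.Lib.MP_89bcae_ag
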