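import Mathlib
import Pool.Agent.Lib.MP_89bcae_ag.CritB8
import Pool.Agent.Lib.MP_89bcae_ag.DefsDens8
import Pool.Agent.Lib.MP_89bcae_ag.Geom8

/-!
# The criterion for twists by irreducible polynomials of degree a power of three: statement
-/

open Polynomial WeierstrassCurve IsDedekindDomain IntermediateField

open scoped Classical

namespace Pool.Agent.Lib.MP_89bcae_ag

set_option linter.unusedSectionVars false

universe u

/-- If, for a root `α` of `D` and some `i < deg D`, the product of the `(α - c) (α - g(c))`, `c` in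
the field with `q ^ i` elements, is not a square in `k(α)`, then there are no Tate classes. -/
theorem noTateClass_of_nonsquare (k F L Ω : Type u) [Field k] [Fintype k] [Field F] [Algebra k F]
    [IsAlgClosure k F] [Field L] [Algebra F[X] L] [IsFractionRing F[X] L] [Field Ω] [Algebra L Ω]
    [IsSepClosure L Ω] (h2 : (2 : k) ≠ 0) {g D : k[X]} (hg : g.Monic) (hdeg : g.natDegree = 3)
    {j : ℕ} (hD : D.natDegree = 3 ^ j) (hirr : Irreducible (D.comp g)) {α : F}
    (hα : aeval α D = 0) {i : ℕ} (hi0 : 0 < i) (hi : i < 3 ^ j)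
    (hns : ∀ y : F, y ^ (Fintype.card k ^ (3 ^ j)) = y →
      y ^ 2 ≠ ∏ c ∈ fix8 k F i, ((α - c) * (α - aeval c g))) :
    NoTateClass k F L Ω g D := by
  have hF : IsAlgClosed F := IsAlgClosure.isAlgClosed k
  have hkF : Algebra.IsAlgebraic k F := IsAlgClosure.isAlgebraic
  have hΩ : IsSepClosed Ω := IsSepClosure.sep_closed L
  have hsp : Algebra.IsSeparable L Ω := IsSepClosure.separable
  have hG : IsGalois L Ω := IsSepClosure.isGalois
  have hsep : (D.comp g).Separable := PerfectField.separable_of_irreducible hirr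
  have hD0 : D ≠ 0 := by
    rintro rfl
    exact hirr.ne_zero zero_comp
  have hd : derivative g ≠ 0 := by
    intro h0
    have h1 : derivative (D.comp g) = 0 := by
      rw [derivative_comp, h0, zero_mul]
    rw [Polynomial.Separable, h1, isCoprime_zero_right] at hsep
    exact hirr.not_isUnit hsep
  -- a root of `g - α`
  obtain ⟨β, hβ⟩ : ∃ β : F, aeval β g = α := by
    have h1 : (g.map (algebraMap k F) - C α).degree ≠ 0 := by
      have h3 : (g.map (algebraMap k F) - C α).natDegree = 3 := by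
        rw [natDegree_sub_C, hg.natDegree_map, hdeg]
      intro h4
      rw [natDegree_eq_of_degree_eq_some h4] at h3
      exact absurd h3 (by norm_num)
    obtain ⟨β, hβ⟩ := IsAlgClosed.exists_root _ h1
    refine ⟨β, ?_⟩
    rw [IsRoot.def, eval_sub, eval_C, eval_map_algebraMap] at hβ
    exact sub_eq_zero.mp hβ
  have h : Orb8 g D (3 ^ j) α β := ⟨hg, hdeg, hirr, hD, hβ, hα⟩
  intro k' _ c hc hS hinv
  have hgood : Good g D := ⟨h2, hg, hdeg, hd, hD0⟩
  have hmain := kummer_of_fixed (k := k) (F := F) (L := L) (Ω := Ω) hgood hsep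
    (⊥ : AddSubgroup ((twist g D).map (base k F L L)).toAffine.Point) ?_ k' c hc
    (fun τ n => hS (placeAt τ) n) hinv
  · intro n
    obtain ⟨P, hP, P', Q, h3, h4, h5⟩ := hmain n
    rw [AddSubgroup.mem_bot] at hP
    subst hP
    cases h3
    exact ⟨Q, h4, fun σ Q' hQ' => h5 σ Q' hQ'⟩
  · intro Z hne hZ heven
    by_contra hcon
    rw [not_or, not_or] at hcon
    obtain ⟨H1, H2, -⟩ := hcon
    have H1' : ∀ γ : F, aeval γ (D.comp g) = 0 → γ ∉ Z →
        ∃ s ∈ adjoin k {β : F | aeval β (D.comp g) = 0},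
          s ^ 2 = PZ (g.map (algebraMap k F)) (D.map (algebraMap k F)) Z γ := by
      intro γ h3 h4
      by_contra h5
      push Not at h5
      exact H1 ⟨γ, h3, h4, h5⟩
    have H2' : ∀ γ ∈ Z, ∀ γ' ∈ Z, ∃ s ∈ adjoin k {β : F | aeval β (D.comp g) = 0},
        s ^ 2 = PZ (g.map (algebraMap k F)) (D.map (algebraMap k F)) Z γ *
          PZ (g.map (algebraMap k F)) (D.map (algebraMap k F)) Z γ' := by
      intro γ h3 γ' h4
      by_contra h5
      push Not at h5
      exact H2 ⟨γ, h3, γ', h4, h5⟩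
    have hcast : ∀ a b : ℕ, a < 3 * 3 ^ j → b < 3 * 3 ^ j →
        ((a : ZMod (3 * 3 ^ j)) = b ↔ a = b) := by
      intro a b ha hb
      rw [ZMod.natCast_eq_natCast_iff, Nat.ModEq, Nat.mod_eq_of_lt ha, Nat.mod_eq_of_lt hb]
    have h6 := h.symbol_eq h2 hne hZ heven H1' H2' (i := ((i + 2 * 3 ^ j : ℕ) : ZMod (3 * 3 ^ j)))
      (by rw [← Nat.cast_zero, Ne, hcast _ _ (by omega) (by omega)]; omega)
      (by rw [Ne, hcast _ _ (by omega) (by omega)]; omega)
    have h7 : ((i + 2 * 3 ^ j : ℕ) : ZMod (3 * 3 ^ j)) - (3 ^ j : ℕ) =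
        ((i + 3 ^ j : ℕ) : ZMod (3 * 3 ^ j)) := by
      rw [sub_eq_iff_eq_add, ← Nat.cast_add]
      congr 1
      ring
    rw [h7] at h6
    obtain ⟨y, hy1, hy2⟩ := h.exists_sq h2 hi0 hi h6
    rw [frob8_pow_apply] at hy1
    exact hns y hy1 hy2

end Pool.Agent.Lib.MP_89bcae_ag
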