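import Mathlib

/-!
# The family of the monic `D` of degree `n` with `D(g(x))` irreducible
-/

open Polynomial

namespace Pool.Agent.Lib.MP_89bcae_ag

universe u

/-- The monic polynomials `D` of degree `n` for which `D(g(x))` is irreducible. -/
def family {k : Type u} [Field k] (g : k[X]) (n : ℕ) : Set k[X] :=
  {D | D.Monic ∧ D.natDegree = n ∧ Irreducible (D.comp g)}

end Pool.Agent.Lib.MP_89bcae_ag
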