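import Mathlib
import Pool.Agent.Lib.MP_89bcae_ag.DefsFam45

/-!
# The set of possible exceptions
-/

open Polynomial

namespace Pool.Agent.Lib.MP_89bcae_ag

universe u

/-- The elements `D` of the family of degree `n` such that, for every finite extension `K` of `k` of
degree less than `n`, the product of the values `D(c) D(g(c))`, `c ∈ K` (an element of `k`), is a
square in `k`. -/
def exceptional {k : Type u} [Field k] (g : k[X]) (n : ℕ) : Set k[X] :=
  {D | D ∈ family g n ∧ ∀ (K : Type) [Field K] [Fintype K] [Algebra k K],
    Module.finrank k K < n →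
      ∃ a : k, algebraMap k K (a ^ 2) = ∏ c : K, aeval c D * aeval c (D.comp g)}

end Pool.Agent.Lib.MP_89bcae_ag
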