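import Pool.Agent.Lib.MP_89bcae_ag.Dens14

/-!
# The number of exceptional elements
-/

namespace Pool.Agent.Lib.MP_89bcae_ag.Frob14

open Polynomial Finset

open scoped Classical

variable {k F : Type*} [Field k] [Fintype k] [Field F] [Algebra k F]

theorem bad_count_aux [IsAlgClosed F] (h2 : (2 : k) ≠ 0) {g : k[X]} (hg : g.Monic)
    (hdeg : g.natDegree = 3) (hcol : ∃ x y : k, x ≠ y ∧ g.eval x = g.eval y)
    {p r m l n : ℕ} [Fact p.Prime] [CharP k p] (hq : Fintype.card k = p ^ r) (hn : 0 < n)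
    (hml : m ≤ l) (hrn : r * n = m + l) {A : Finset F}
    (hA : ∀ α ∈ A, α ^ (Fintype.card k ^ n) = α) {S : Finset ℕ} (hS : ∀ i ∈ S, 3 ≤ i)
    (hsq : ∀ α ∈ A, ∀ i ∈ S, ∃ y : F, y ^ (Fintype.card k ^ n) = y ∧
      y ^ 2 = ∏ c ∈ fixS k F i, ((α - c) * (α - aeval c g))) :
    2 ^ S.card * A.card ≤ Fintype.card k ^ n +
      2 ^ S.card * (4 * ((∑ i ∈ S, 2 * Fintype.card k ^ i) + 1) * p ^ l +
        ∑ i ∈ S, 2 * Fintype.card k ^ i) := by
  have := finite_fixI (k := k) (F := F) hn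
  let _ : Fintype (fixI k F n) := Fintype.ofFinite _
  have : CharP F p := charP_of_injective_algebraMap (algebraMap k F).injective p
  have : CharP (fixI k F n) p := charP_of_injective_algebraMap
    (algebraMap k (fixI k F n)).injective p
  have hp2 : p ≠ 2 := by
    rintro rfl
    exact h2 (CharP.cast_eq_zero k 2)
  have hcard : Fintype.card (fixI k F n) = p ^ m * p ^ l := by
    rw [← Nat.card_eq_fintype_card, natCard_fixI hn, hq, ← pow_mul, ← pow_add, hrn]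
  choose v hv1 hv2 hv3 using fun i (hi : 3 ≤ i) => exists_special (F := F) h2 hg hdeg hcol hi
  set v' : ℕ → F := fun i => if hi : 3 ≤ i then v i hi else 0 with hv'
  have hv'1 : ∀ i, 3 ≤ i → v' i ^ (Fintype.card k ^ i) = v' i := by
    intro i hi
    simp only [hv', dif_pos hi]
    exact hv1 i hi
  have hv'2 : ∀ i, 3 ≤ i → ∀ x : F, x ^ (Fintype.card k ^ i) = x → aeval x g ≠ v' i := by
    intro i hi
    simp only [hv', dif_pos hi]
    exact hv2 i hi
  have hv'3 : ∀ i, 3 ≤ i → ∀ j, 0 < j → j < i → v' i ^ (Fintype.card k ^ j) ≠ v' i := by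
    intro i hi
    simp only [hv', dif_pos hi]
    exact hv3 i hi
  set A' : Finset (fixI k F n) := univ.filter fun z => (z : F) ∈ A with hA'
  have hAA : A'.card = A.card := by
    apply card_bij (fun (z : fixI k F n) _ => (z : F))
    · intro z hz
      exact (mem_filter.1 hz).2
    · intro a _ b _ h
      exact Subtype.ext h
    · intro α hα
      exact ⟨⟨α, mem_fixI.2 (hA α hα)⟩, mem_filter.2 ⟨mem_univ _, hα⟩, rfl⟩
  have h1 := Count14.count_squares (k := k) (L := fixI k F n) (F := F) hp2 hml hcard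
    (h := H F g) (v := v') (S := S) (fun i hi => (H_monic g (by have := hS i hi; omega)).ne_zero)
    (fun i hi => by
      have hi3 := hS i hi
      rw [H_map g (by omega), HF_rootMultiplicity (by omega) (hv'1 i hi3) (hv'2 i hi3)]
      exact odd_one)
    (fun i hi j hj hji hroot => by
      have hi3 := hS i hi
      have hj3 := hS j hj
      rw [H_map g (by omega)] at hroot
      exact hv'3 i hi3 j (by omega) hji (HF_root (by omega) hroot))
    (A := A') (by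
      intro z hz i hi
      have hi3 := hS i hi
      obtain ⟨y, hy1, hy2⟩ := hsq z (mem_filter.1 hz).2 i hi
      refine ⟨⟨y, mem_fixI.2 hy1⟩, ?_⟩
      apply Subtype.ext
      have h3 : ((aeval z (H F g i) : fixI k F n) : F) = aeval (z : F) (H F g i) :=
        (aeval_algebraMap_apply F z (H F g i)).symm
      rw [h3, aeval_H g (by omega)]
      change _ = y * y
      rw [← sq, hy2]
      exact prod_congr rfl fun c _ => mul_comm _ _)
  rw [hAA] at h1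
  have h4 : Fintype.card (fixI k F n) = Fintype.card k ^ n := by
    rw [← Nat.card_eq_fintype_card, natCard_fixI hn]
  rw [h4, sum_congr rfl fun i hi => H_natDegree (F := F) g (by have := hS i hi; omega)] at h1
  exact h1

/-- The number of `α` in the field with `q ^ n` elements for which all the values `H_i(α)`,
`0 < i < n`, are squares. -/
theorem bad_count [IsAlgClosed F] (h2 : (2 : k) ≠ 0) {g : k[X]} (hg : g.Monic)
    (hdeg : g.natDegree = 3) (hcol : ∃ x y : k, x ≠ y ∧ g.eval x = g.eval y)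
    {n : ℕ} (hn : 0 < n) {A : Finset F}
    (hA : ∀ α ∈ A, α ^ (Fintype.card k ^ n) = α)
    (hsq : ∀ α ∈ A, ∀ i, 0 < i → i < n → ∃ y : F, y ^ (Fintype.card k ^ n) = y ∧
      y ^ 2 = ∏ c ∈ fixS k F i, ((α - c) * (α - aeval c g))) :
    (A.card : ℝ) ≤ (4 + 19 * (Fintype.card k : ℝ) ^ 2) * (2 : ℝ) ^ (-(n : ℝ) / 5) *
      (Fintype.card k : ℝ) ^ n := by
  obtain ⟨p, hp⟩ := CharP.exists k
  have : Fact p.Prime := ⟨CharP.char_is_prime k p⟩
  obtain ⟨r, hr, hq⟩ := FiniteField.card k p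
  set q := Fintype.card k with hqdef
  have hq3 : 3 ≤ q := by
    by_contra h
    have h1 : q = 2 := by
      have := Fintype.one_lt_card (α := k)
      omega
    have h3 : (Fintype.card k : k) = 0 := FiniteField.cast_card_eq_zero k
    rw [← hqdef, h1] at h3
    exact h2 (by exact_mod_cast h3)
  set C := n / 5 + 1 with hC
  set m := r * n / 2 with hm
  set l := r * n - m with hl
  have hml : m ≤ l := by omega
  have h1 := bad_count_aux h2 hg hdeg hcol (p := p) (r := r) (m := m) (l := l) (n := n) hq hn hml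
    (by omega) hA (S := Icc 3 C) (fun i hi => (mem_Icc.1 hi).1) (by
      intro α hα i hi
      rw [mem_Icc] at hi
      exact hsq α hα i (by omega) (by omega))
  rw [← hqdef, Nat.card_Icc] at h1
  have hDg : ∑ i ∈ Icc 3 C, 2 * q ^ i ≤ 3 * q ^ C := by
    refine le_trans ?_ (two_mul_sum_pow_le hq3 C)
    rw [mul_sum]
    apply sum_le_sum_of_subset
    intro i hi
    rw [mem_Icc] at hi ⊢
    omega
  set Dg := ∑ i ∈ Icc 3 C, 2 * q ^ i with hDgdef
  have hqC : 1 ≤ q ^ C := Nat.one_le_pow _ _ (by omega)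
  have hpl : 1 ≤ p ^ l := Nat.one_le_pow _ _ (Nat.Prime.pos Fact.out)
  have h3 : 4 * (Dg + 1) * p ^ l + Dg ≤ 19 * q ^ C * p ^ l := by
    have e1 : 4 * (Dg + 1) * p ^ l ≤ 4 * (3 * q ^ C + q ^ C) * p ^ l := by gcongr
    have e2 : Dg ≤ 3 * q ^ C * p ^ l := hDg.trans (Nat.le_mul_of_pos_right _ hpl)
    nlinarith
  have h4 : 2 ^ (C + 1 - 3) * A.card ≤ q ^ n + 2 ^ (C + 1 - 3) * (19 * q ^ C * p ^ l) :=
    h1.trans (by gcongr)
  -- real numbers
  have hqR : (3 : ℝ) ≤ q := by exact_mod_cast hq3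
  have hq0 : (0 : ℝ) < q := by linarith
  have h5 : (2 : ℝ) ^ (C + 1 - 3) * A.card ≤
      (q : ℝ) ^ n + 2 ^ (C + 1 - 3) * (19 * (q : ℝ) ^ C * (p : ℝ) ^ l) := by exact_mod_cast h4
  have h2pos : (0 : ℝ) < 2 ^ (C + 1 - 3) := by positivity
  have h6 : (A.card : ℝ) ≤ (q : ℝ) ^ n / 2 ^ (C + 1 - 3) + 19 * (q : ℝ) ^ C * (p : ℝ) ^ l := by
    have : (2 : ℝ) ^ (C + 1 - 3) * A.card ≤
      2 ^ (C + 1 - 3) * ((q : ℝ) ^ n / 2 ^ (C + 1 - 3) + 19 * (q : ℝ) ^ C * (p : ℝ) ^ l) := by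
      rw [mul_add, mul_div_cancel₀ _ h2pos.ne']
      exact h5
    exact le_of_mul_le_mul_left this h2pos
  have hCn : (n : ℝ) / 5 ≤ C := by
    have : n < 5 * C := by omega
    have : (n : ℝ) < 5 * C := by exact_mod_cast this
    linarith
  have hCn' : (C : ℝ) ≤ n / 5 + 1 := by
    have : 5 * C ≤ n + 5 := by omega
    have : (5 : ℝ) * C ≤ n + 5 := by exact_mod_cast this
    linarith
  -- first term
  have h7 : (q : ℝ) ^ n / 2 ^ (C + 1 - 3) ≤ 4 * (2 : ℝ) ^ (-(n : ℝ) / 5) * (q : ℝ) ^ n := by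
    have e1 : (2 : ℝ) ^ ((n : ℝ) / 5) ≤ 4 * 2 ^ (C + 1 - 3) := by
      calc (2 : ℝ) ^ ((n : ℝ) / 5) ≤ (2 : ℝ) ^ (C : ℝ) :=
            Real.rpow_le_rpow_of_exponent_le (by norm_num) hCn
        _ = (2 : ℝ) ^ C := Real.rpow_natCast _ _
        _ ≤ (2 : ℝ) ^ (2 + (C + 1 - 3)) := pow_le_pow_right₀ (by norm_num) (by omega)
        _ = 4 * 2 ^ (C + 1 - 3) := by rw [pow_add]; norm_num
    rw [div_le_iff₀ h2pos]
    have e2 : (2 : ℝ) ^ (-(n : ℝ) / 5) * (2 : ℝ) ^ ((n : ℝ) / 5) = 1 := by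
      rw [← Real.rpow_add (by norm_num)]
      have : -(n : ℝ) / 5 + n / 5 = 0 := by ring
      rw [this, Real.rpow_zero]
    have e3 : (0 : ℝ) < (2 : ℝ) ^ (-(n : ℝ) / 5) := Real.rpow_pos_of_pos (by norm_num) _
    calc (q : ℝ) ^ n = ((2 : ℝ) ^ (-(n : ℝ) / 5) * (2 : ℝ) ^ ((n : ℝ) / 5)) * (q : ℝ) ^ n := by
          rw [e2, one_mul]
      _ ≤ ((2 : ℝ) ^ (-(n : ℝ) / 5) * (4 * 2 ^ (C + 1 - 3))) * (q : ℝ) ^ n := by gcongr
      _ = _ := by ring
  -- second term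
  have h8 : (p : ℝ) ^ l ≤ (q : ℝ) ^ (((n : ℝ) + 1) / 2) := by
    have hp1 : (1 : ℝ) ≤ p := by exact_mod_cast (Nat.Prime.one_lt Fact.out).le
    have e1 : (p : ℝ) ^ l = (p : ℝ) ^ (l : ℝ) := (Real.rpow_natCast _ _).symm
    have e2 : (q : ℝ) = (p : ℝ) ^ (r : ℝ) := by
      rw [Real.rpow_natCast, hq]
      push_cast
      rfl
    rw [e1, e2, ← Real.rpow_mul (by linarith)]
    apply Real.rpow_le_rpow_of_exponent_le hp1
    have e3 : 2 * l ≤ r * n + 1 := by omega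
    have e4 : (2 : ℝ) * l ≤ r * n + 1 := by exact_mod_cast e3
    have e5 : (1 : ℝ) ≤ r := by exact_mod_cast r.2
    nlinarith
  have h9 : (q : ℝ) ^ C * (p : ℝ) ^ l ≤ (q : ℝ) ^ 2 * (2 : ℝ) ^ (-(n : ℝ) / 5) * (q : ℝ) ^ n := by
    have hn0 : (0 : ℝ) ≤ n := Nat.cast_nonneg n
    have hq1 : (1 : ℝ) ≤ q := by linarith
    have e1 : (q : ℝ) ^ C ≤ (q : ℝ) ^ ((n : ℝ) / 5 + 1) := by
      rw [← Real.rpow_natCast]
      exact Real.rpow_le_rpow_of_exponent_le hq1 hCn'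
    have e2 : (q : ℝ) ^ (-(n : ℝ) / 5) ≤ (2 : ℝ) ^ (-(n : ℝ) / 5) :=
      Real.rpow_le_rpow_of_nonpos (by norm_num) (by linarith) (by linarith)
    calc (q : ℝ) ^ C * (p : ℝ) ^ l ≤ (q : ℝ) ^ ((n : ℝ) / 5 + 1) * (q : ℝ) ^ (((n : ℝ) + 1) / 2) := by
          gcongr
      _ = (q : ℝ) ^ ((n : ℝ) / 5 + 1 + ((n : ℝ) + 1) / 2) := (Real.rpow_add hq0 _ _).symm
      _ ≤ (q : ℝ) ^ ((2 : ℝ) + -(n : ℝ) / 5 + n) := by
          apply Real.rpow_le_rpow_of_exponent_le hq1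
          linarith
      _ = (q : ℝ) ^ 2 * (q : ℝ) ^ (-(n : ℝ) / 5) * (q : ℝ) ^ n := by
          rw [Real.rpow_add hq0, Real.rpow_add hq0, Real.rpow_natCast]
          norm_num
      _ ≤ _ := by gcongr
  calc (A.card : ℝ) ≤ (q : ℝ) ^ n / 2 ^ (C + 1 - 3) + 19 * ((q : ℝ) ^ C * (p : ℝ) ^ l) := by
        rw [← mul_assoc]; exact h6
    _ ≤ 4 * (2 : ℝ) ^ (-(n : ℝ) / 5) * (q : ℝ) ^ n +
        19 * ((q : ℝ) ^ 2 * (2 : ℝ) ^ (-(n : ℝ) / 5) * (q : ℝ) ^ n) := by gcongr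
    _ = _ := by ring

end Pool.Agent.Lib.MP_89bcae_ag.Frob14
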