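import Mathlib
import Pool.Agent.Lib.MP_89bcae_ag.CritC8
import Pool.Agent.Lib.MP_89bcae_ag.DefsFam45

/-!
# The family of the monic `D` of degree `n` with `D(g(x))` irreducible: counting through roots
-/

open Polynomial WeierstrassCurve IsDedekindDomain IntermediateField

namespace Pool.Agent.Lib.MP_89bcae_ag

universe u

section Basic

variable {k : Type u} [Field k]

lemma family_finite [Finite k] (g : k[X]) (n : ℕ) : (family g n).Finite := by
  have hinj : Set.InjOn (fun D : k[X] => fun i : Fin (n + 1) => D.coeff i) (family g n) := by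
    rintro D ⟨-, h1, -⟩ D' ⟨-, h1', -⟩ h
    ext i
    by_cases hi : i < n + 1
    · exact congrFun h ⟨i, hi⟩
    · rw [coeff_eq_zero_of_natDegree_lt (by omega), coeff_eq_zero_of_natDegree_lt (by omega)]
  exact Set.Finite.of_finite_image (Set.toFinite _) hinj

lemma irreducible_of_comp {g D : k[X]} (hdeg : g.natDegree = 3) (h : Irreducible (D.comp g)) :
    Irreducible D := by
  refine ⟨fun hu => ?_, fun a b hab => ?_⟩
  · have h1 := h.natDegree_pos
    rw [natDegree_comp, natDegree_eq_zero_of_isUnit hu] at h1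
    omega
  · have h1 : IsUnit (a.comp g) ∨ IsUnit (b.comp g) := h.isUnit_or_isUnit (by rw [hab, mul_comp])
    have key : ∀ c : k[X], c ≠ 0 → IsUnit (c.comp g) → IsUnit c := by
      intro c hc hu
      have h2 := natDegree_eq_zero_of_isUnit hu
      rw [natDegree_comp, hdeg] at h2
      have h3 : c.natDegree = 0 := by omega
      obtain ⟨r, hr⟩ := natDegree_eq_zero.mp h3
      rw [← hr] at hc ⊢
      rw [isUnit_C]
      exact (isUnit_iff_ne_zero).mpr (fun h0 => hc (by rw [h0, C_0]))
    have hD0 : D ≠ 0 := by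
      rintro rfl
      exact h.ne_zero zero_comp
    rcases h1 with h1 | h1
    · exact Or.inl (key a (by rintro rfl; exact hD0 (by rw [hab, zero_mul])) h1)
    · exact Or.inr (key b (by rintro rfl; exact hD0 (by rw [hab, mul_zero])) h1)

end Basic

section Count

variable {k F : Type u} [Field k] [Fintype k] [Field F] [Algebra k F] [IsAlgClosure k F]

open scoped Classical in
/-- The roots of the polynomials of a finite set of monic irreducible polynomials of degree `n`. -/
lemma exists_roots_card (n : ℕ) (S : Finset k[X])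
    (hS : ∀ D ∈ S, D.Monic ∧ D.natDegree = n ∧ Irreducible D) :
    ∃ A : Finset F, (∀ a, a ∈ A ↔ minpoly k a ∈ S) ∧ A.card = n * S.card := by
  have hF : IsAlgClosed F := IsAlgClosure.isAlgClosed k
  have hkF : Algebra.IsAlgebraic k F := IsAlgClosure.isAlgebraic
  have key : ∀ D ∈ S, ∀ a : F, a ∈ (D.aroots F).toFinset ↔ minpoly k a = D := by
    intro D hD a
    obtain ⟨h1, -, h3⟩ := hS D hD
    rw [Multiset.mem_toFinset, mem_aroots]
    constructor
    · rintro ⟨-, h4⟩
      exact (minpoly.eq_of_irreducible_of_monic h3 h4 h1).symm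
    · intro h4
      exact ⟨h3.ne_zero, by rw [← h4, minpoly.aeval]⟩
  refine ⟨S.biUnion fun D => (D.aroots F).toFinset, fun a => ?_, ?_⟩
  · rw [Finset.mem_biUnion]
    constructor
    · rintro ⟨D, hD, h⟩
      rw [(key D hD a).mp h]
      exact hD
    · intro h
      exact ⟨_, h, (key _ h a).mpr rfl⟩
  · rw [Finset.card_biUnion]
    · rw [Finset.sum_const_nat (m := n), mul_comm]
      intro D hD
      obtain ⟨h1, h2, h3⟩ := hS D hD
      have hsep : D.Separable := PerfectField.separable_of_irreducible h3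
      have h4 : (D.aroots F).Nodup := nodup_roots hsep.map
      rw [Multiset.toFinset_card_of_nodup h4, aroots_def,
        ← (IsAlgClosed.splits (D.map (algebraMap k F))).natDegree_eq_card_roots, natDegree_map, h2]
    · intro D hD D' hD' hne
      rw [Function.onFun, Finset.disjoint_left]
      intro a ha ha'
      exact hne (((key D hD a).mp ha).symm.trans ((key D' hD' a).mp ha'))

omit [Fintype k] [IsAlgClosure k F] in
lemma aeval_cubic {g : k[X]} (hg : g.Monic) (hdeg : g.natDegree = 3) (x : F) :
    aeval x g = x ^ 3 + algebraMap k F (g.coeff 2) * x ^ 2 + algebraMap k F (g.coeff 1) * x +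
      algebraMap k F (g.coeff 0) := by
  have h3 : g.coeff 3 = 1 := by
    have := hg.coeff_natDegree
    rwa [hdeg] at this
  rw [aeval_eq_sum_range, hdeg]
  simp only [Finset.sum_range_succ, Finset.sum_range_zero, Algebra.smul_def, h3, map_one]
  ring

/-- If `g - a` has no root in `k(a)`, then `D(g(x))` is irreducible for the minimal polynomial `D`
of `a`. -/
lemma minpoly_mem_family {g : k[X]} (hg : g.Monic) (hdeg : g.natDegree = 3) {n : ℕ} (hn : 0 < n)
    {a : F} (ha : a ^ (Fintype.card k ^ n) = a)
    (ha' : ∀ i, 0 < i → i < n → a ^ (Fintype.card k ^ i) ≠ a)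
    (hroot : ∀ x : F, x ^ (Fintype.card k ^ n) = x → aeval x g ≠ a) :
    minpoly k a ∈ family g n := by
  have hF : IsAlgClosed F := IsAlgClosure.isAlgClosed k
  have hkF : Algebra.IsAlgebraic k F := IsAlgClosure.isAlgebraic
  have hint : ∀ x : F, IsIntegral k x := fun x => Algebra.IsIntegral.isIntegral x
  have hdn : (minpoly k a).natDegree = n := by
    have h1 : (minpoly k a).natDegree ∣ n := by
      rw [← frob8_pow_eq_iff, frob8_pow_apply, ha]
    have h2 := Nat.le_of_dvd hn h1
    have h3 : 0 < (minpoly k a).natDegree := minpoly.natDegree_pos (hint a)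
    by_contra h4
    apply ha' _ h3 (lt_of_le_of_ne h2 h4)
    rw [← frob8_pow_apply, frob8_pow_eq_iff]
  refine ⟨minpoly.monic (hint a), hdn, ?_⟩
  -- a root of `g - a`
  obtain ⟨β, hβ⟩ : ∃ β : F, aeval β g = a := by
    have h1 : (g.map (algebraMap k F) - C a).degree ≠ 0 := by
      have h3 : (g.map (algebraMap k F) - C a).natDegree = 3 := by
        rw [natDegree_sub_C, hg.natDegree_map, hdeg]
      intro h4
      rw [natDegree_eq_of_degree_eq_some h4] at h3
      exact absurd h3 (by norm_num)
    obtain ⟨β, hβ⟩ := IsAlgClosed.exists_root _ h1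
    refine ⟨β, ?_⟩
    rw [IsRoot.def, eval_sub, eval_C, eval_map_algebraMap] at hβ
    exact sub_eq_zero.mp hβ
  have hfg : ∀ (i : ℕ) (x : F), aeval ((frob8 k F ^ i) x) g = (frob8 k F ^ i) (aeval x g) := by
    intro i x
    change aeval ((frob8 k F ^ i : F ≃ₐ[k] F) x) g = _
    rw [← AlgEquiv.coe_toAlgHom (frob8 k F ^ i), aeval_algHom_apply]
  have hcomp : aeval β ((minpoly k a).comp g) = 0 := by
    rw [aeval_comp, hβ, minpoly.aeval]
  have hcm : ((minpoly k a).comp g).Monic := (minpoly.monic (hint a)).comp hg (by omega)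
  have hcd : ((minpoly k a).comp g).natDegree = 3 * n := by
    rw [natDegree_comp, hdeg, hdn, mul_comm]
  set m := (minpoly k β).natDegree with hm
  have hmpos : 0 < m := minpoly.natDegree_pos (hint β)
  have hmle : m ≤ 3 * n := by
    rw [← hcd]
    exact natDegree_le_of_dvd (minpoly.dvd k β hcomp) hcm.ne_zero
  have hnm : n ∣ m := by
    rw [← hdn, ← frob8_pow_eq_iff, ← hβ, ← hfg, (frob8_pow_eq_iff β m).mpr dvd_rfl]
  obtain ⟨e, he⟩ := hnm
  have he3 : e ≤ 3 := by
    rw [he, mul_comm] at hmle
    exact Nat.le_of_mul_le_mul_right hmle hn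
  have he0 : e ≠ 0 := by
    rintro rfl
    omega
  have hβn : (frob8 k F ^ n) β ≠ β := by
    intro h
    rw [frob8_pow_apply] at h
    exact hroot β h hβ
  have he1 : e ≠ 1 := by
    rintro rfl
    apply hβn
    rw [frob8_pow_eq_iff, ← hm, he, mul_one]
  have he2 : e ≠ 2 := by
    rintro rfl
    set β' := (frob8 k F ^ n) β with hβ'
    have h1 : (frob8 k F ^ n) β' = β := by
      rw [hβ', ← AlgEquiv.mul_apply, ← pow_add, frob8_pow_eq_iff, ← hm, he]
      exact ⟨1, by ring⟩
    have h2 : aeval β' g = a := by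
      rw [hβ', hfg, hβ, frob8_pow_apply, ha]
    have h3 : (frob8 k F ^ n) (-algebraMap k F (g.coeff 2) - β - β') =
        -algebraMap k F (g.coeff 2) - β - β' := by
      rw [map_sub, map_sub, map_neg, AlgEquiv.commutes, h1, ← hβ']
      ring
    rw [frob8_pow_apply] at h3
    refine hroot _ h3 ?_
    rw [← hβ]
    rw [aeval_cubic hg hdeg] at h2 hβ ⊢
    rw [aeval_cubic hg hdeg]
    have h4 : (β' - β) * (β' ^ 2 + β' * β + β ^ 2 + algebraMap k F (g.coeff 2) * (β' + β) +
        algebraMap k F (g.coeff 1)) = 0 := by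
      linear_combination h2 - hβ
    have h5 := (mul_eq_zero.mp h4).resolve_left (sub_ne_zero.mpr hβn)
    linear_combination (-algebraMap k F (g.coeff 2) - β - β' - β) * h5
  have hm3 : m = 3 * n := by
    have : e = 3 := by omega
    rw [he, this, mul_comm]
  have hfin : (minpoly k a).comp g = minpoly k β := by
    apply eq_of_monic_of_dvd_of_natDegree_le (minpoly.monic (hint β)) hcm
      (minpoly.dvd k β hcomp)
    rw [hcd, ← hm, hm3]
  rw [hfin]
  exact minpoly.irreducible (hint β)

end Count

end Pool.Agent.Lib.MP_89bcae_ag
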