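import Mathlib
import Pool.Agent.Lib.MP_89bcae_ag.DefsExc8
import Pool.Agent.Lib.MP_89bcae_ag.CritC8
import Pool.Agent.Lib.MP_89bcae_ag.Dens45

/-!
# The products in terms of the values of `D`
-/

open Polynomial

namespace Pool.Agent.Lib.MP_89bcae_ag

universe u

section Norm

set_option linter.unusedSectionVars false

variable {k F : Type*} [Field k] [Fintype k] [Field F] [Algebra k F] [Algebra.IsAlgebraic k F]
  [IsAlgClosed F]

lemma mem_range_of_frob8 {x : F} (h : frob8 k F x = x) : ∃ a : k, algebraMap k F a = x := by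
  classical
  have h1 : (frob8 k F ^ 1) x = x := by rw [pow_one]; exact h
  rw [frob8_pow_eq_iff, Nat.dvd_one] at h1
  have hint : IsIntegral k x := Algebra.IsIntegral.isIntegral x
  have h3 := (minpoly.natDegree_eq_one_iff).mp h1
  exact h3

/-- An element of the field with `q ^ n` elements is a square in it if and only if its norm is a
square. -/
lemma sq_iff_norm8 (h2 : (2 : k) ≠ 0) {n : ℕ} {H : F} (hH : (frob8 k F ^ n) H = H) (h0 : H ≠ 0) :
    (∃ y : F, (frob8 k F ^ n) y = y ∧ y ^ 2 = H) ↔
      ∃ a : k, algebraMap k F (a ^ 2) = ∏ m ∈ Finset.range n, (frob8 k F ^ m) H := by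
  constructor
  · rintro ⟨y, hy, rfl⟩
    have h1 : frob8 k F (∏ m ∈ Finset.range n, (frob8 k F ^ m) y) =
        ∏ m ∈ Finset.range n, (frob8 k F ^ m) y := by
      rw [map_prod]
      have h3 : ∀ m, frob8 k F ((frob8 k F ^ m) y) = (frob8 k F ^ (m + 1)) y := by
        intro m
        rw [pow_succ', AlgEquiv.mul_apply]
      simp only [h3]
      rcases n with _ | n
      · simp
      · rw [Finset.prod_range_succ, hy, Finset.prod_range_succ', pow_zero, AlgEquiv.one_apply]
    obtain ⟨a, ha⟩ := mem_range_of_frob8 h1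
    refine ⟨a, ?_⟩
    rw [map_pow, ha, ← Finset.prod_pow]
    exact Finset.prod_congr rfl fun m _ => (map_pow _ _ _).symm
  · rintro ⟨a, ha⟩
    rw [← nu8_eq_zero_iff h2 hH h0]
    have hprod : ∏ m ∈ Finset.range n, (frob8 k F ^ m) H =
        H ^ (∑ m ∈ Finset.range n, Fintype.card k ^ m) := by
      rw [← Finset.prod_pow_eq_pow_sum]
      exact Finset.prod_congr rfl fun m _ => frob8_pow_apply m H
    rw [hprod] at ha
    obtain ⟨e, he⟩ := odd_card8 h2
    have ha0 : a ≠ 0 := by
      rintro rfl
      rw [zero_pow two_ne_zero, map_zero] at ha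
      exact pow_ne_zero _ h0 ha.symm
    have hgeo : (∑ m ∈ Finset.range n, Fintype.card k ^ m) * (2 * e) = Fintype.card k ^ n - 1 := by
      have h4 := Nat.geomSum_eq (m := Fintype.card k) Fintype.one_lt_card n
      have h5 : Fintype.card k - 1 ∣ Fintype.card k ^ n - 1 := by
        simpa using Nat.sub_dvd_pow_sub_pow (Fintype.card k) 1 n
      rw [h4]
      have h6 : Fintype.card k - 1 = 2 * e := by omega
      rw [← h6]
      exact Nat.div_mul_cancel h5
    have hhalf : (Fintype.card k ^ n - 1) / 2 = (∑ m ∈ Finset.range n, Fintype.card k ^ m) * e := by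
      rw [← hgeo, show (∑ m ∈ Finset.range n, Fintype.card k ^ m) * (2 * e) =
        2 * ((∑ m ∈ Finset.range n, Fintype.card k ^ m) * e) by ring]
      exact Nat.mul_div_cancel_left _ (by norm_num)
    unfold nu8
    rw [if_pos]
    rw [hhalf, pow_mul, ← ha, ← map_pow, ← pow_mul]
    have h7 : a ^ (Fintype.card k - 1) = 1 := FiniteField.pow_card_sub_one_eq_one a ha0
    have h8 : Fintype.card k - 1 = 2 * e := by omega
    rw [h8] at h7
    rw [h7, map_one]

/-- A product over the roots of `X ^ q ^ i - X` as a product over a finite field. -/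
lemma prod_fix8_eq {K : Type*} [Field K] [Fintype K] [Algebra k K] (f : F → F) :
    ∀ σ : K →ₐ[k] F, ∏ c ∈ fix8 k F (Module.finrank k K), f c = ∏ c : K, f (σ c) := by
  classical
  intro σ
  have hcard : Fintype.card K = Fintype.card k ^ Module.finrank k K :=
    Module.card_eq_pow_finrank (K := k) (V := K)
  have hpos : 0 < Module.finrank k K := by
    have : Module.Finite k K := Module.Finite.of_finite
    exact Module.finrank_pos
  have h1 : 1 < Fintype.card k ^ Module.finrank k K := by
    rw [← hcard]; exact Fintype.one_lt_card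
  have hne : (X ^ (Fintype.card k ^ Module.finrank k K) - X : F[X]) ≠ 0 :=
    FiniteField.X_pow_card_sub_X_ne_zero F h1
  have himg : (Finset.univ.image (fun c : K => σ c)) = fix8 k F (Module.finrank k K) := by
    apply Finset.eq_of_subset_of_card_le
    · intro x hx
      obtain ⟨c, -, rfl⟩ := Finset.mem_image.mp hx
      unfold fix8
      rw [Multiset.mem_toFinset, mem_roots hne, IsRoot.def, eval_sub, eval_pow, eval_X, ← hcard,
        ← map_pow, FiniteField.pow_card, sub_self]
    · have hc : (Finset.univ.image (fun c : K => σ c)).card = Fintype.card K :=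
        (Finset.card_image_of_injective _ σ.injective).trans Finset.card_univ
      rw [hc, hcard]
      unfold fix8
      refine (Multiset.toFinset_card_le _).trans ((card_roots' _).trans ?_)
      rw [FiniteField.X_pow_card_sub_X_natDegree_eq F h1]
  rw [← himg, Finset.prod_image]
  intro x _ y _ hxy
  exact σ.injective hxy

/-- The values of `D` in terms of one of its roots. -/
lemma aeval_eq_prod8 {D : k[X]} (hm : D.Monic) (hirr : Irreducible D) {n : ℕ}
    (hn : D.natDegree = n) {α : F} (hα : aeval α D = 0) (x : F) :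
    aeval x D = ∏ m ∈ Finset.range n, (x - (frob8 k F ^ m) α) := by
  classical
  have hmin : minpoly k α = D := (minpoly.eq_of_irreducible_of_monic hirr hα hm).symm
  have hiff : ∀ i : ℕ, (frob8 k F ^ i) α = α ↔ n ∣ i := fun i => by
    rw [frob8_pow_eq_iff, hmin, hn]
  set S : Finset F := (Finset.range n).image (fun m => (frob8 k F ^ m) α) with hS
  have hinj : Set.InjOn (fun m => (frob8 k F ^ m) α) (Finset.range n : Set ℕ) := by
    intro a ha b hb hab
    rw [Finset.mem_coe, Finset.mem_range] at ha hb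
    have h1 := (frob8_pow_inj hiff).mp hab
    rwa [Nat.ModEq, Nat.mod_eq_of_lt ha, Nat.mod_eq_of_lt hb] at h1
  have hcard : S.card = n := by
    rw [hS, Finset.card_image_of_injOn hinj, Finset.card_range]
  have hmon : (D.map (algebraMap k F)).Monic := hm.map _
  have hdeg : (D.map (algebraMap k F)).natDegree = n := by rw [natDegree_map, hn]
  have heq : S.val = (D.map (algebraMap k F)).roots := by
    apply Multiset.eq_of_le_of_card_le
    · rw [Finset.val_le_iff_val_subset]
      intro y hy
      have hy' : y ∈ S := hy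
      obtain ⟨m, -, rfl⟩ := Finset.mem_image.mp hy'
      rw [mem_roots hmon.ne_zero, IsRoot.def, eval_map_algebraMap,
        ← AlgEquiv.coe_toAlgHom (frob8 k F ^ m), aeval_algHom_apply, hα, map_zero]
    · refine (card_roots' _).trans ?_
      rw [hdeg]
      exact hcard.ge
  have hprod := (IsAlgClosed.splits (D.map (algebraMap k F))).eq_prod_roots
  rw [hmon.leadingCoeff, C_1, one_mul, ← heq] at hprod
  have h3 := congrArg (eval x) hprod
  rw [eval_map_algebraMap] at h3
  rw [h3]
  change eval x (∏ c ∈ S, (X - C c)) = _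
  rw [eval_prod, hS, Finset.prod_image hinj]
  simp only [eval_sub, eval_X, eval_C]

open scoped Classical in
lemma frob8_mem_fix8 {i : ℕ} (hi : 0 < i) {c : F} (m : ℕ) :
    (frob8 k F ^ m) c ∈ fix8 k F i ↔ c ∈ fix8 k F i := by
  have h1 : 1 < Fintype.card k ^ i := Nat.one_lt_pow hi.ne' Fintype.one_lt_card
  have hne : (X ^ (Fintype.card k ^ i) - X : F[X]) ≠ 0 := FiniteField.X_pow_card_sub_X_ne_zero F h1
  unfold fix8
  rw [Multiset.mem_toFinset, Multiset.mem_toFinset, mem_roots hne, mem_roots hne, IsRoot.def,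
    IsRoot.def, eval_sub, eval_sub, eval_pow, eval_pow, eval_X, eval_X, ← map_pow, ← map_sub,
    EmbeddingLike.map_eq_zero_iff]

/-- The norm of the product. -/
lemma norm_prod8 {g D : k[X]} (hm : D.Monic) (hirr : Irreducible D) {n : ℕ}
    (hn : D.natDegree = n) {α : F} (hα : aeval α D = 0) {i : ℕ} (hi : 0 < i) :
    ∏ m ∈ Finset.range n, (frob8 k F ^ m) (∏ c ∈ fix8 k F i, ((α - c) * (α - aeval c g))) =
      ∏ c ∈ fix8 k F i, (aeval c D * aeval c (D.comp g)) := by
  have h1 : ∀ m, (frob8 k F ^ m) (∏ c ∈ fix8 k F i, ((α - c) * (α - aeval c g))) =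
      ∏ c ∈ fix8 k F i, (((frob8 k F ^ m) α - c) * ((frob8 k F ^ m) α - aeval c g)) := by
    intro m
    rw [map_prod]
    apply Finset.prod_bij (fun c _ => (frob8 k F ^ m) c)
    · intro c hc
      exact (frob8_mem_fix8 hi m).mpr hc
    · intro a _ b _ hab
      exact (frob8 k F ^ m).injective hab
    · intro b hb
      refine ⟨(frob8 k F ^ m).symm b, ?_, (frob8 k F ^ m).apply_symm_apply b⟩
      rw [← frob8_mem_fix8 hi m, (frob8 k F ^ m).apply_symm_apply]
      exact hb
    · intro c _
      rw [map_mul, map_sub, map_sub, ← aeval_algHom_apply (frob8 k F ^ m : F ≃ₐ[k] F)]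
  simp only [h1]
  rw [Finset.prod_comm]
  apply Finset.prod_congr rfl
  intro c _
  rw [Finset.prod_mul_distrib, aeval_comp, aeval_eq_prod8 hm hirr hn hα c,
    aeval_eq_prod8 hm hirr hn hα (aeval c g), ← Finset.prod_mul_distrib, ← Finset.prod_mul_distrib]
  apply Finset.prod_congr rfl
  intro m _
  ring

/-- The criterion in terms of the values of `D`. -/
theorem nonsquare_iff8 (h2 : (2 : k) ≠ 0) {g D : k[X]} (hm : D.Monic) (hirr : Irreducible D)
    {n : ℕ} (hn : D.natDegree = n) {α : F} (hα : aeval α D = 0)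
    {K : Type*} [Field K] [Fintype K] [Algebra k K]
    (h0 : ∏ c ∈ fix8 k F (Module.finrank k K), ((α - c) * (α - aeval c g)) ≠ 0) :
    (∃ y : F, y ^ (Fintype.card k ^ n) = y ∧
      y ^ 2 = ∏ c ∈ fix8 k F (Module.finrank k K), ((α - c) * (α - aeval c g))) ↔
      ∃ a : k, algebraMap k K (a ^ 2) = ∏ c : K, aeval c D * aeval c (D.comp g) := by
  have hfin : Module.Finite k K := Module.Finite.of_finite
  have hi : 0 < Module.finrank k K := Module.finrank_pos
  let σ : K →ₐ[k] F := IsAlgClosed.lift
  have hmin : minpoly k α = D := (minpoly.eq_of_irreducible_of_monic hirr hα hm).symm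
  have hiff : ∀ i : ℕ, (frob8 k F ^ i) α = α ↔ n ∣ i := fun i => by
    rw [frob8_pow_eq_iff, hmin, hn]
  have hH : (frob8 k F ^ n) (∏ c ∈ fix8 k F (Module.finrank k K), ((α - c) * (α - aeval c g))) =
      ∏ c ∈ fix8 k F (Module.finrank k K), ((α - c) * (α - aeval c g)) := by
    rw [map_prod]
    apply Finset.prod_bij (fun c _ => (frob8 k F ^ n) c)
    · intro c hc
      exact (frob8_mem_fix8 hi n).mpr hc
    · intro a _ b _ hab
      exact (frob8 k F ^ n).injective hab
    · intro b hb
      refine ⟨(frob8 k F ^ n).symm b, ?_, (frob8 k F ^ n).apply_symm_apply b⟩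
      rw [← frob8_mem_fix8 hi n, (frob8 k F ^ n).apply_symm_apply]
      exact hb
    · intro c _
      rw [map_mul, map_sub, map_sub, ← aeval_algHom_apply (frob8 k F ^ n : F ≃ₐ[k] F),
        (hiff n).mpr dvd_rfl]
  have h1 := sq_iff_norm8 h2 hH h0
  rw [norm_prod8 hm hirr hn hα hi, prod_fix8_eq (fun c => aeval c D * aeval c (D.comp g)) σ] at h1
  have h3 : (∏ c : K, (aeval (σ c) D * aeval (σ c) (D.comp g))) =
      σ (∏ c : K, aeval c D * aeval c (D.comp g)) := by
    rw [map_prod]
    apply Finset.prod_congr rfl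
    intro c _
    rw [map_mul, aeval_algHom_apply, aeval_algHom_apply]
  rw [h3] at h1
  have h4 : (∃ a : k, algebraMap k F (a ^ 2) = σ (∏ c : K, aeval c D * aeval c (D.comp g))) ↔
      ∃ a : k, algebraMap k K (a ^ 2) = ∏ c : K, aeval c D * aeval c (D.comp g) := by
    apply exists_congr
    intro a
    rw [← σ.commutes]
    exact ⟨fun h => σ.injective h, fun h => congrArg σ h⟩
  rw [h4] at h1
  rw [← h1]
  apply exists_congr
  intro y
  rw [frob8_pow_apply]

end Norm

end Pool.Agent.Lib.MP_89bcae_ag
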