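import Mathlib
import Pool.Agent.Lib.MP_89bcae_ag.Dens45

/-!
# The density theorem for a general property
-/

open Polynomial WeierstrassCurve IsDedekindDomain IntermediateField

namespace Pool.Agent.Lib.MP_89bcae_ag

universe u

/-- The density theorem for any property which holds as soon as one of the products is not a
square. -/
theorem density_gen (k F : Type u) [Field k] [Fintype k] [Field F] [Algebra k F]
    [IsAlgClosure k F] (h2 : (2 : k) ≠ 0) (g : k[X]) (hg : g.Monic) (hdeg : g.natDegree = 3)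
    (hinj : ¬ Function.Injective fun x : k => g.eval x) (j : ℕ) (hj : j ≠ 0) (Pr : k[X] → Prop)
    (hPr : ∀ D : k[X], D.natDegree = 3 ^ j → Irreducible (D.comp g) → ∀ α : F, aeval α D = 0 →
      ∀ i, 0 < i → i < 3 ^ j → (∀ y : F, y ^ (Fintype.card k ^ (3 ^ j)) = y →
        y ^ 2 ≠ ∏ c ∈ fix8 k F i, ((α - c) * (α - aeval c g))) → Pr D) :
    (Fintype.card k : ℝ) ^ (3 ^ j) ≤ 10 * 3 ^ j * (family g (3 ^ j)).ncard ∧
    ({D ∈ family g (3 ^ j) | ¬ Pr D}.ncard : ℝ) ≤
      200 * (Fintype.card k : ℝ) ^ 2 * 2 ^ (-(3 ^ j : ℝ) / 5) * (family g (3 ^ j)).ncard := by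
  classical
  have hF : IsAlgClosed F := IsAlgClosure.isAlgClosed k
  have hkF : Algebra.IsAlgebraic k F := IsAlgClosure.isAlgebraic
  have hcol : ∃ x y : k, x ≠ y ∧ g.eval x = g.eval y := by
    rw [Function.Injective] at hinj
    push Not at hinj
    obtain ⟨x, y, h1, h3⟩ := hinj
    exact ⟨x, y, h3, h1⟩
  set q := Fintype.card k with hq
  set n := 3 ^ j with hn
  have hn3 : 3 ≤ n := by
    calc 3 = 3 ^ 1 := by norm_num
      _ ≤ 3 ^ j := Nat.pow_le_pow_right (by norm_num) (by omega)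
  have hnodd : Odd n := Odd.pow (by decide)
  have hnR : ((3 : ℝ) ^ j) = n := by rw [hn]; push_cast; rfl
  have hn0 : (0 : ℝ) < n := by exact_mod_cast (by omega : 0 < n)
  have hq3 : 3 ≤ q := by
    have h1 := one_lt_card8 k
    obtain ⟨r, hr⟩ := odd_card8 h2
    omega
  have hq3' : (3 : ℝ) ≤ q := by exact_mod_cast hq3
  have hfin := family_finite g n
  have hfam : ∀ D ∈ hfin.toFinset, D.Monic ∧ D.natDegree = n ∧ Irreducible D := by
    intro D hD
    rw [Set.Finite.mem_toFinset] at hD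
    exact ⟨hD.1, hD.2.1, irreducible_of_comp hdeg hD.2.2⟩
  have hcard : hfin.toFinset.card = (family g n).ncard := (Set.ncard_eq_toFinset_card _ hfin).symm
  -- lower bound for the family
  have P1 : (q : ℝ) ^ n ≤ 10 * n * (family g n).ncard := by
    obtain ⟨A, hA1, hA2⟩ := exists_roots_card (F := F) n hfin.toFinset hfam
    have h1 := Frob14.good_count (F := F) h2 hg hdeg hcol (i := n) (by omega)
    have h3 := numeric45 hq3 hn3 hnodd h1
    have h4 : q ^ n ≤ 10 * A.card := by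
      refine h3.trans (Nat.mul_le_mul_left 10 (Finset.card_le_card ?_))
      intro a ha
      rw [Finset.mem_filter, Frob14.mem_fixS (by omega)] at ha
      rw [hA1, Set.Finite.mem_toFinset]
      exact minpoly_mem_family hg hdeg (by omega) ha.1 ha.2.2 ha.2.1
    rw [hA2, hcard, ← mul_assoc] at h4
    exact_mod_cast h4
  -- upper bound for the exceptional set
  have hbfin : {D ∈ family g n | ¬ Pr D}.Finite := hfin.subset fun D hD => hD.1
  have P2 : (n : ℝ) * ({D ∈ family g n | ¬ Pr D}.ncard : ℝ) ≤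
      (4 + 19 * (q : ℝ) ^ 2) * 2 ^ (-(n : ℝ) / 5) * (q : ℝ) ^ n := by
    obtain ⟨A, hA1, hA2⟩ := exists_roots_card (F := F) n hbfin.toFinset (by
      intro D hD
      rw [Set.Finite.mem_toFinset] at hD
      exact ⟨hD.1.1, hD.1.2.1, irreducible_of_comp hdeg hD.1.2.2⟩)
    have hA3 : ∀ a ∈ A, a ^ (Fintype.card k ^ n) = a := by
      intro a ha
      rw [hA1, Set.Finite.mem_toFinset] at ha
      obtain ⟨⟨-, hd, hirr⟩, hbad⟩ := ha
      rw [← frob8_pow_apply, frob8_pow_eq_iff, hd]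
    have hA4 : ∀ a ∈ A, ∀ i, 0 < i → i < n → ∃ y : F, y ^ (Fintype.card k ^ n) = y ∧
        y ^ 2 = ∏ c ∈ Frob14.fixS k F i, ((a - c) * (a - aeval c g)) := by
      intro a ha i hi0 hi
      rw [hA1, Set.Finite.mem_toFinset] at ha
      obtain ⟨⟨-, hd, hirr⟩, hbad⟩ := ha
      by_contra hcon
      push Not at hcon
      exact hbad (hPr _ hd hirr a (minpoly.aeval k a) i hi0 hi hcon)
    have h1 := Frob14.bad_count h2 hg hdeg hcol (n := n) (by omega) hA3 hA4
    rw [hA2, ← Set.ncard_eq_toFinset_card _ hbfin] at h1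
    push_cast at h1
    exact h1
  rw [hnR]
  refine ⟨P1, ?_⟩
  have h7 : (0 : ℝ) ≤ (4 + 19 * (q : ℝ) ^ 2) * 2 ^ (-(n : ℝ) / 5) := by positivity
  have h8 := P2.trans (mul_le_mul_of_nonneg_left P1 h7)
  have h9 : (n : ℝ) * ({D ∈ family g n | ¬ Pr D}.ncard : ℝ) ≤
      n * (200 * (q : ℝ) ^ 2 * 2 ^ (-(n : ℝ) / 5) * (family g n).ncard) := by
    refine h8.trans ?_
    have h10 : (4 + 19 * (q : ℝ) ^ 2) * 10 ≤ 200 * (q : ℝ) ^ 2 := by nlinarith
    have h11 : (0 : ℝ) ≤ n * (2 ^ (-(n : ℝ) / 5) * (family g n).ncard) := by positivity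
    calc (4 + 19 * (q : ℝ) ^ 2) * 2 ^ (-(n : ℝ) / 5) * (10 * n * (family g n).ncard)
        = (4 + 19 * (q : ℝ) ^ 2) * 10 * (n * (2 ^ (-(n : ℝ) / 5) * (family g n).ncard)) := by ring
      _ ≤ 200 * (q : ℝ) ^ 2 * (n * (2 ^ (-(n : ℝ) / 5) * (family g n).ncard)) :=
          mul_le_mul_of_nonneg_right h10 h11
      _ = _ := by ring
  exact le_of_mul_le_mul_left h9 hn0

end Pool.Agent.Lib.MP_89bcae_ag
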