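import Mathlib
import Pool.Agent.Lib.MP_89bcae_ag.InfN8
import Pool.Agent.Lib.MP_89bcae_ag.CritC8

/-!
# The last step of the argument
-/

open Polynomial

open scoped Classical

namespace Pool.Agent.Lib.MP_89bcae_ag

set_option linter.unusedSectionVars false

variable {k F : Type*} [Field k] [Fintype k] [Field F] [Algebra k F] [Algebra.IsAlgebraic k F]
  [IsAlgClosed F] {g D : k[X]} {n : ℕ} {α β : F}

/-- If the first divisor is a pair of points of one fibre and the formula holds, the second divisor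
is not supported on this fibre. -/
theorem last8 (h2 : (2 : k) ≠ 0) (ho : Orb8 g D n α β) {i : ℕ} (hi0 : 0 < i) (hin : i < n)
    (hns : ∀ y : F, y ^ (Fintype.card k ^ n) = y →
      y ^ 2 ≠ ∏ c ∈ fix8 k F i, ((α - c) * (α - aeval c g)))
    {Z Z' : Finset F} (hZ : ∀ c ∈ Z, aeval c (D.comp g) = 0)
    (hind : Orb8.ind8 n β k Z = pair8 n)
    (hf : ∀ b : F, aeval b (D.comp g) = 0 → b ∉ Z →
      (b ∈ Z' ↔ Moves (fun x => (frob8 k F ^ (3 * n)) x) (∏ c ∈ Z, (b - c)))) :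
    ¬ ∀ u : ZMod (3 * n), u ≠ 0 → u ≠ (n : ℕ) → u ≠ (2 * n : ℕ) → Orb8.ind8 n β k Z' u = 0 := by
  intro hall
  have hn0 : 0 < n := by omega
  have : NeZero (3 * n) := ⟨by omega⟩
  have hcast : ∀ a b : ℕ, a < 3 * n → b < 3 * n → ((a : ZMod (3 * n)) = b ↔ a = b) := by
    intro a b ha hb
    rw [ZMod.natCast_eq_natCast_iff, Nat.ModEq, Nat.mod_eq_of_lt ha, Nat.mod_eq_of_lt hb]
  have hmem : ∀ t : ZMod (3 * n), e8 k β t ∈ Z ↔ t = 0 ∨ t = (n : ℕ) := by
    intro t
    have h1 := congrFun hind t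
    unfold Orb8.ind8 pair8 at h1
    constructor
    · intro h3
      by_contra h4
      rw [if_pos h3, if_neg h4] at h1
      exact one_ne_zero h1
    · intro h3
      by_contra h4
      rw [if_neg h4, if_pos h3] at h1
      exact zero_ne_one h1
  have hZeq : Z = {e8 k β (0 : ZMod (3 * n)), e8 k β ((n : ℕ) : ZMod (3 * n))} := by
    ext c
    rw [Finset.mem_insert, Finset.mem_singleton]
    constructor
    · intro hc
      obtain ⟨t, rfl⟩ := ho.e_surj (hZ c hc)
      rcases (hmem t).mp hc with rfl | rfl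
      · exact Or.inl rfl
      · exact Or.inr rfl
    · rintro (rfl | rfl)
      · exact (hmem _).mpr (Or.inl rfl)
      · exact (hmem _).mpr (Or.inr rfl)
  have hne : e8 k β (0 : ZMod (3 * n)) ≠ e8 k β ((n : ℕ) : ZMod (3 * n)) := by
    intro h
    have h1 := ho.e_injective h
    rw [← Nat.cast_zero, hcast _ _ (by omega) (by omega)] at h1
    omega
  -- the point outside the fibre
  set u : ZMod (3 * n) := ((i + 2 * n : ℕ) : ZMod (3 * n)) with hu
  have hu0 : u ≠ 0 := by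
    rw [hu, ← Nat.cast_zero, Ne, hcast _ _ (by omega) (by omega)]
    omega
  have hu1 : u ≠ (n : ℕ) := by
    rw [hu, Ne, hcast _ _ (by omega) (by omega)]
    omega
  have hu2 : u ≠ (2 * n : ℕ) := by
    rw [hu, Ne, hcast _ _ (by omega) (by omega)]
    omega
  have huZ : e8 k β u ∉ Z := by
    rw [hmem, not_or]
    exact ⟨hu0, hu1⟩
  have huZ' : e8 k β u ∉ Z' := by
    intro h
    have h1 := hall u hu0 hu1 hu2
    unfold Orb8.ind8 at h1
    rw [if_pos h] at h1
    exact one_ne_zero h1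
  have h3 := (not_congr (hf _ (ho.e_root u) huZ)).mp huZ'
  unfold Moves at h3
  push Not at h3
  obtain ⟨s, hs, hs3⟩ := h3
  rw [hZeq, Finset.prod_pair hne, Orb8.e_zero] at hs
  -- the differences
  have hv : u = ((i + n : ℕ) : ZMod (3 * n)) + ((n : ℕ) : ZMod (3 * n)) := by
    rw [hu, ← Nat.cast_add]
    congr 1
    ring
  set v : ZMod (3 * n) := ((i + n : ℕ) : ZMod (3 * n)) with hvd
  have hv0 : v ≠ 0 := by
    rw [hvd, ← Nat.cast_zero, Ne, hcast _ _ (by omega) (by omega)]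
    omega
  have hv1 : v ≠ (n : ℕ) := by
    rw [hvd, Ne, hcast _ _ (by omega) (by omega)]
    omega
  have hv2 : v ≠ (2 * n : ℕ) := by
    rw [hvd, Ne, hcast _ _ (by omega) (by omega)]
    omega
  have hbu : Orb8.bb n D α β u = e8 k β u - β := by
    rw [Orb8.bb, if_neg hu0, if_neg (not_or.mpr ⟨hu1, hu2⟩)]
  have hbv : Orb8.bb n D α β v = e8 k β v - β := by
    rw [Orb8.bb, if_neg hv0, if_neg (not_or.mpr ⟨hv1, hv2⟩)]
  have hfac : e8 k β u - e8 k β ((n : ℕ) : ZMod (3 * n)) =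
      (frob8 k F ^ n) (Orb8.bb n D α β v) := by
    rw [hbv, map_sub, hv, ho.e_add_natCast, ho.e_natCast n]
  have h4 : nu8 k (3 * n) ((e8 k β u - β) * (e8 k β u - e8 k β ((n : ℕ) : ZMod (3 * n)))) = 0 := by
    have h5 : (frob8 k F ^ (3 * n))
        ((e8 k β u - β) * (e8 k β u - e8 k β ((n : ℕ) : ZMod (3 * n)))) =
        (e8 k β u - β) * (e8 k β u - e8 k β ((n : ℕ) : ZMod (3 * n))) := by
      rw [map_mul, map_sub, map_sub, ho.frob8_e, ho.frob8_e, ho.frob8_beta]
    rw [nu8_eq_zero_iff h2 h5]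
    · exact ⟨s, hs3, hs⟩
    · rw [hfac, ← hbu]
      exact mul_ne_zero (ho.bb_ne _) ((_root_.map_ne_zero _).mpr (ho.bb_ne _))
  rw [hfac, ← hbu, nu8_mul h2 (ho.frob8_bb _) (ho.bb_ne _) (by
    rw [← AlgEquiv.mul_apply, ← pow_add, add_comm, pow_add, AlgEquiv.mul_apply, ho.frob8_bb])
    ((_root_.map_ne_zero _).mpr (ho.bb_ne _)), nu8_frob] at h4
  have h5 : Orb8.aa k n D α β u = Orb8.aa k n D α β v := by
    unfold Orb8.aa
    exact CharTwo.add_eq_zero.mp h4
  obtain ⟨y, hy, hy2⟩ := ho.exists_sq h2 hi0 hin h5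
  apply hns y _ hy2
  rw [← frob8_pow_apply]
  exact hy

end Pool.Agent.Lib.MP_89bcae_ag
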