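import Mathlib
import Pool.Agent.Lib.MP_89bcae_ag.InfForm8
import Pool.Agent.Lib.MP_89bcae_ag.DensInf8

/-!
# The density theorem for the whole tower
-/

open Polynomial WeierstrassCurve WeierstrassCurve.Affine IsDedekindDomain

open scoped Classical

namespace Pool.Agent.Lib.MP_89bcae_ag

universe u

/-- If one of the products is not a square, there are no Tate classes over the whole tower. -/
theorem noTower_of_nonsquare (k F L Ω : Type u) [Field k] [Fintype k] [Field F] [Algebra k F]
    [IsAlgClosure k F] [Field L] [Algebra F[X] L] [IsFractionRing F[X] L] [Field Ω] [Algebra L Ω]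
    [IsSepClosure L Ω] (h2 : (2 : k) ≠ 0) {g D : k[X]} (hg : g.Monic) (hdeg : g.natDegree = 3)
    {j : ℕ} (hD : D.natDegree = 3 ^ j) (hirr : Irreducible (D.comp g)) {α : F}
    (hα : aeval α D = 0) {i : ℕ} (hi0 : 0 < i) (hi : i < 3 ^ j)
    (hns : ∀ y : F, y ^ (Fintype.card k ^ (3 ^ j)) = y →
      y ^ 2 ≠ ∏ c ∈ fix8 k F i, ((α - c) * (α - aeval c g)))
    (k' : IntermediateField k F) [FiniteDimensional k k'] (r : ℕ) (s : Ω)
    (hs : s ^ 2 ^ r = base k F L Ω D) : NoTateClassOver k F L g D (cover k' F L s) := by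
  have hNT := noTateClass_of_nonsquare k F L Ω h2 hg hdeg hD hirr hα hi0 hi hns
  have hF : IsAlgClosed F := IsAlgClosure.isAlgClosed k
  have hkF : Algebra.IsAlgebraic k F := IsAlgClosure.isAlgebraic
  have hΩ : IsSepClosed Ω := IsSepClosure.sep_closed L
  have hsp : Algebra.IsSeparable L Ω := IsSepClosure.separable
  have hG : IsGalois L Ω := IsSepClosure.isGalois
  have hsep : (D.comp g).Separable := PerfectField.separable_of_irreducible hirr
  have hD0 : D ≠ 0 := by
    rintro rfl
    exact hirr.ne_zero zero_comp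
  have hd : derivative g ≠ 0 := by
    intro h0
    have h1 : derivative (D.comp g) = 0 := by
      rw [derivative_comp, h0, zero_mul]
    rw [Polynomial.Separable, h1, isCoprime_zero_right] at hsep
    exact hirr.not_isUnit hsep
  obtain ⟨β, hβ⟩ : ∃ β : F, aeval β g = α := by
    have h1 : (g.map (algebraMap k F) - C α).degree ≠ 0 := by
      have h3 : (g.map (algebraMap k F) - C α).natDegree = 3 := by
        rw [natDegree_sub_C, hg.natDegree_map, hdeg]
      intro h4
      rw [natDegree_eq_of_degree_eq_some h4] at h3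
      exact absurd h3 (by norm_num)
    obtain ⟨β, hβ⟩ := IsAlgClosed.exists_root _ h1
    refine ⟨β, ?_⟩
    rw [IsRoot.def, eval_sub, eval_C, sub_eq_zero, eval_map_algebraMap] at hβ
    exact hβ
  have ho : Orb8 g D (3 ^ j) α β := ⟨hg, hdeg, hirr, hD, hβ, hα⟩
  have hgood : Good g 1 := ⟨h2, hg, hdeg, hd, one_ne_zero⟩
  exact noTower8 hgood ho hNT (fun r _ s hs φ hφs hφ => form8_of hgood ho hi0 hi hns hs hφs hφ)
    k' r s hs

/-- **The density theorem for the whole tower.** -/
theorem densityTower8 (k F L Ω : Type u) [Field k] [Fintype k] [Field F] [Algebra k F]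
    [IsAlgClosure k F] [Field L] [Algebra F[X] L] [IsFractionRing F[X] L] [Field Ω] [Algebra L Ω]
    [IsSepClosure L Ω] (h2 : (2 : k) ≠ 0) (g : k[X]) (hg : g.Monic) (hdeg : g.natDegree = 3)
    (hinj : ¬ Function.Injective fun x : k => g.eval x) (j : ℕ) (hj : j ≠ 0) :
    (Fintype.card k : ℝ) ^ (3 ^ j) ≤ 10 * 3 ^ j * (family g (3 ^ j)).ncard ∧
    ({D ∈ family g (3 ^ j) | ¬ ∀ (k' : IntermediateField k F) (_ : FiniteDimensional k k') (r : ℕ)
        (s : Ω), s ^ 2 ^ r = base k F L Ω D → NoTateClassOver k F L g D (cover k' F L s)}.ncard :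
        ℝ) ≤
      200 * (Fintype.card k : ℝ) ^ 2 * 2 ^ (-(3 ^ j : ℝ) / 5) * (family g (3 ^ j)).ncard := by
  apply density_gen k F h2 g hg hdeg hinj j hj (fun D =>
    ∀ (k' : IntermediateField k F) (_ : FiniteDimensional k k') (r : ℕ)
        (s : Ω), s ^ 2 ^ r = base k F L Ω D → NoTateClassOver k F L g D (cover k' F L s))
  intro D hD hirr α hα i hi0 hi hns k' _ r s hs
  exact noTower_of_nonsquare k F L Ω h2 hg hdeg hD hirr hα hi0 hi hns k' r s hs

end Pool.Agent.Lib.MP_89bcae_ag
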