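import Mathlib
import Pool.Agent.Lib.MP_89bcae_ag.InfEnd8
import Pool.Agent.Lib.MP_89bcae_ag.Exc8

/-!
# The theorem with the explicit exceptional set
-/

open Polynomial WeierstrassCurve WeierstrassCurve.Affine IsDedekindDomain

namespace Pool.Agent.Lib.MP_89bcae_ag

universe u

set_option linter.unusedSectionVars false
set_option linter.style.haveILetI false

section

variable {k F : Type*} [Field k] [Fintype k] [Field F] [Algebra k F] [Algebra.IsAlgebraic k F]
  [IsAlgClosed F]

open scoped Classical in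
lemma frob8_of_mem_fix8 {i : ℕ} (hi : 0 < i) {c : F} (hc : c ∈ fix8 k F i) :
    (frob8 k F ^ i) c = c := by
  have h1 : 1 < Fintype.card k ^ i := Nat.one_lt_pow hi.ne' Fintype.one_lt_card
  have hne : (X ^ (Fintype.card k ^ i) - X : F[X]) ≠ 0 := FiniteField.X_pow_card_sub_X_ne_zero F h1
  unfold fix8 at hc
  rw [Multiset.mem_toFinset, mem_roots hne, IsRoot.def, eval_sub, eval_pow, eval_X] at hc
  rw [frob8_pow_apply]
  exact sub_eq_zero.mp hc

lemma prod8_ne_zero {g D : k[X]} (hm : D.Monic) (hirr : Irreducible D)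
    {n : ℕ} (hn : D.natDegree = n) {α : F} (hα : aeval α D = 0) {i : ℕ} (hi : 0 < i) (hin : i < n) :
    ∏ c ∈ fix8 k F i, ((α - c) * (α - aeval c g)) ≠ 0 := by
  have hmin : minpoly k α = D := (minpoly.eq_of_irreducible_of_monic hirr hα hm).symm
  have hiff : (frob8 k F ^ i) α ≠ α := fun h => by
    rw [frob8_pow_eq_iff, hmin, hn] at h
    exact absurd (Nat.le_of_dvd hi h) (by omega)
  rw [Finset.prod_ne_zero_iff]
  intro c hc
  have h1 := frob8_of_mem_fix8 hi hc
  refine mul_ne_zero (sub_ne_zero.mpr ?_) (sub_ne_zero.mpr ?_)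
  · rintro rfl
    exact hiff h1
  · intro h
    apply hiff
    rw [h, ← aeval_algHom_apply (frob8 k F ^ i : F ≃ₐ[k] F), h1]

end

/-- **The final theorem.** -/
theorem towerExc8 (k F L Ω : Type u) [Field k] [Fintype k] [Field F] [Algebra k F]
    [IsAlgClosure k F] [Field L] [Algebra F[X] L] [IsFractionRing F[X] L] [Field Ω] [Algebra L Ω]
    [IsSepClosure L Ω] (h2 : (2 : k) ≠ 0) (g : k[X]) (hg : g.Monic) (hdeg : g.natDegree = 3)
    (hinj : ¬ Function.Injective fun x : k => g.eval x) (j : ℕ) (hj : j ≠ 0) :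
    (∀ D ∈ family g (3 ^ j), D ∉ exceptional g (3 ^ j) →
      ∀ (k' : IntermediateField k F) (_ : FiniteDimensional k k') (r : ℕ) (s : Ω),
        s ^ 2 ^ r = base k F L Ω D → NoTateClassOver k F L g D (cover k' F L s)) ∧
    ((exceptional g (3 ^ j)).ncard : ℝ) ≤
      200 * (Fintype.card k : ℝ) ^ 2 * 2 ^ (-(3 ^ j : ℝ) / 5) * (family g (3 ^ j)).ncard ∧
    (Fintype.card k : ℝ) ^ (3 ^ j) ≤ 10 * 3 ^ j * (family g (3 ^ j)).ncard := by
  have hF : IsAlgClosed F := IsAlgClosure.isAlgClosed k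
  have hkF : Algebra.IsAlgebraic k F := IsAlgClosure.isAlgebraic
  refine ⟨?_, ?_⟩
  · intro D hD hexc k' _ r s hs
    obtain ⟨hm, hdD, hirr⟩ := hD
    have hex : ¬ ∀ (K : Type) [Field K] [Fintype K] [Algebra k K], Module.finrank k K < 3 ^ j →
      ∃ a : k, algebraMap k K (a ^ 2) = ∏ c : K, aeval c D * aeval c (D.comp g) :=
      fun h => hexc ⟨⟨hm, hdD, hirr⟩, h⟩
    push Not at hex
    obtain ⟨K, iK, iF, iA, hK, hns⟩ := hex
    have hfin : Module.Finite k K := Module.Finite.of_finite
    have hi : 0 < Module.finrank k K := Module.finrank_pos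
    have hDirr : Irreducible D := irreducible_of_comp hdeg hirr
    obtain ⟨α, hα⟩ : ∃ α : F, aeval α D = 0 := by
      apply IsAlgClosed.exists_aeval_eq_zero
      rw [degree_eq_natDegree hDirr.ne_zero, hdD]
      exact_mod_cast (by positivity : (3 ^ j : ℕ) ≠ 0)
    apply noTower_of_nonsquare k F L Ω h2 hg hdeg hdD hirr hα hi hK _ k' r s hs
    intro y hy hy2
    obtain ⟨a, ha⟩ := (nonsquare_iff8 h2 (g := g) hm hDirr hdD hα (K := K)
      (prod8_ne_zero hm hDirr hdD hα hi hK)).mp ⟨y, hy, hy2⟩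
    exact hns a ha
  · have h1 := density_gen k F h2 g hg hdeg hinj j hj (fun D => D ∉ exceptional g (3 ^ j)) (by
      intro D hdD hirr α hα i hi0 hi hns hexc
      obtain ⟨⟨hm, -, -⟩, hall⟩ := hexc
      have hDirr : Irreducible D := irreducible_of_comp hdeg hirr
      obtain ⟨p, hp⟩ := CharP.exists k
      have hpp : Fact p.Prime := ⟨CharP.char_is_prime k p⟩
      have hi' : NeZero i := ⟨hi0.ne'⟩
      let E := FiniteField.Extension k p i
      have hE : Finite E := inferInstance
      letI : Fintype E := Fintype.ofFinite E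
      have hfr : Module.finrank k E = i := FiniteField.finrank_extension k p i
      have h3 := hall E (by rw [hfr]; exact hi)
      have h4 := (nonsquare_iff8 h2 (g := g) hm hDirr hdD hα (K := E) (by
        rw [hfr]
        exact prod8_ne_zero hm hDirr hdD hα hi0 hi)).mpr h3
      rw [hfr] at h4
      obtain ⟨y, hy, hy2⟩ := h4
      exact hns y hy hy2)
    have h5 : {D ∈ family g (3 ^ j) | ¬ D ∉ exceptional g (3 ^ j)} = exceptional g (3 ^ j) := by
      ext D
      constructor
      · rintro ⟨-, h⟩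
        exact not_not.mp h
      · intro h
        exact ⟨h.1, not_not.mpr h⟩
    rw [h5] at h1
    exact ⟨h1.2, h1.1⟩

end Pool.Agent.Lib.MP_89bcae_ag
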