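import Mathlib
import Pool.Agent.Lib.MP_89bcae_ag.InfZP8
import Pool.Agent.Lib.MP_89bcae_ag.InfQ8
import Pool.Agent.Lib.MP_89bcae_ag.DinfG14

/-!
# The formula in the layer of `s`
-/

open Polynomial WeierstrassCurve WeierstrassCurve.Affine IsDedekindDomain

open scoped Classical

namespace Pool.Agent.Lib.MP_89bcae_ag

set_option linter.unusedSectionVars false
set_option linter.style.haveILetI false

universe u

variable {k F L Ω : Type u} [Field k] [Field F] [Algebra k F] {φ₀ : F ≃ₐ[k] F}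
  [Algebra.IsAlgebraic k F] [IsAlgClosed F] [Field L] [Algebra F[X] L] [IsFractionRing F[X] L]
  [Field Ω] [Algebra L Ω] [IsGalois L Ω] [IsSepClosed Ω] [IsSepClosure L Ω]

/-- If one of the products is not a square, the second divisor is not supported on the fibre of the
first one. -/
theorem formP8_of {g D : k[X]} (hgood : Good g 1) {j : ℕ} {α β : F}
    (ho : OrbP8 φ₀ g D (3 ^ j) α β) {u : ℕ} (hun : ¬ 3 ^ j ∣ u)
    (hm : Moves (fun x => (φ₀ ^ (3 * 3 ^ j)) x)
      (((φ₀ ^ u) β - β) * ((φ₀ ^ u) β - (φ₀ ^ 3 ^ j) β)))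
    {r : ℕ} {s : Ω} (hs : s ^ (2 ^ (r + 1)) = base k F L Ω D)
    {φ : letI := algK k F L Ω
      Ω ≃ₐ[k[X]] Ω}
    (hφs : φ s = s)
    (hφ : letI := algK k F L L
      letI := algK k F L Ω
      letI := algF F L Ω
      haveI : IsScalarTower F[X] L Ω := IsScalarTower.of_algebraMap_eq fun _ => rfl
      haveI : IsScalarTower k[X] L Ω := IsScalarTower.of_algebraMap_eq fun _ => rfl
      resF (k := k) (F := F) (L := L) (Ω := Ω) (fun _ => rfl) φ = φ₀) :
    FormP8 φ₀ L g j β r s φ := by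
  letI := algK k F L L
  letI := algK k F L Ω
  letI := algF F L Ω
  haveI : IsScalarTower F[X] L Ω := IsScalarTower.of_algebraMap_eq fun _ => rfl
  haveI : IsScalarTower k[X] L Ω := IsScalarTower.of_algebraMap_eq fun _ => rfl
  letI := actW (k := k) (Ω := Ω) (twist g 1).toAffine
  have hk : ∀ p : k[X], algebraMap k[X] L p = algebraMap F[X] L (p.map (algebraMap k F)) :=
    fun _ => rfl
  have hGD : Good g D := ⟨hgood.two, hgood.monic, hgood.deg, hgood.der, ho.ne_zero⟩
  have hsep : (D.comp g).Separable := ho.separable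
  have hW : IsTwist Ω (twist g 1).toAffine (g.map (algebraMap k F))
      ((1 : k[X]).map (algebraMap k F)) := (isTwist_twist hk).up
  have hs1 : (s ^ (2 ^ r)) ^ 2 = algebraMap F[X] Ω (D.map (algebraMap k F)) := by
    rw [← pow_mul, ← pow_succ, hs]
    rfl
  have hconv : ∀ b : F, (D.map (algebraMap k F)).eval ((g.map (algebraMap k F)).eval b) = 0 ↔
      aeval b (D.comp g) = 0 := by
    intro b
    rw [aeval_comp, eval_map_algebraMap, eval_map_algebraMap]
  have hφn : ∀ m : ℕ, (φ ^ m) (s ^ (2 ^ r)) = s ^ (2 ^ r) := by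
    intro m
    induction m with
    | zero => rfl
    | succ m ih => rw [pow_succ, AlgEquiv.mul_apply, map_pow, hφs, ih]
  have hres : resF hk (φ ^ (3 * 3 ^ j)) = φ₀ ^ (3 * 3 ^ j) := by
    rw [resF_pow]
    congr 1
  intro τ hτ hτ1 z z' y a a' hz hz' hy ha ha' h1 h2 hdv hall
  refine lastP8 ho hun hm (dvZ_root hgood hs hz) hdv ?_ hall
  intro b hb hbZ
  have h3 := dvZ_formula14 hk hGD hgood hsep hW hs1 (hφn (3 * 3 ^ j)) (fun b hb => by
    rw [hres]
    obtain ⟨t, rfl⟩ := ho.e_surj ((hconv b).mp hb)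
    exact ho.autP_e t) hτ hτ1 hz hz' hy ha ha' h1 h2 (fun c hc => by
      rw [hconv]
      exact dvZ_root hgood hs hz c hc) ((hconv b).mpr hb) hbZ
  rw [hres] at h3
  exact h3

end Pool.Agent.Lib.MP_89bcae_ag
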