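import Mathlib
import Pool.Agent.Lib.MP_89bcae_ag.SpecB14
import Pool.Agent.Lib.MP_89bcae_ag.CritC8

/-!
# From the criterion over a finite field to the automorphism over the field of fractions
-/

open Polynomial

open scoped Classical

namespace Pool.Agent.Lib.MP_89bcae_ag

set_option linter.unusedSectionVars false
set_option linter.style.haveILetI false

section Finite

variable {k F : Type*} [Field k] [Fintype k] [Field F] [Algebra k F] [Algebra.IsAlgebraic k F]
  [IsAlgClosed F] {g D : k[X]} {n : ℕ} {α β : F}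

/-- If one of the products over a finite field is not a square, a power of Frobenius moves the
square roots of the product of two differences of roots. -/
theorem moves_of_nonsquare14 (h2 : (2 : k) ≠ 0) (ho : Orb8 g D n α β) {i : ℕ} (hi0 : 0 < i)
    (hin : i < n)
    (hns : ∀ y : F, y ^ (Fintype.card k ^ n) = y →
      y ^ 2 ≠ ∏ c ∈ fix8 k F i, ((α - c) * (α - aeval c g))) :
    Moves (fun x => (frob8 k F ^ (3 * n)) x)
      (((frob8 k F ^ (i + 2 * n)) β - β) * ((frob8 k F ^ (i + 2 * n)) β - (frob8 k F ^ n) β)) := by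
  intro s hs hs3
  have hn0 : 0 < n := by omega
  have : NeZero (3 * n) := ⟨by omega⟩
  have hcast : ∀ a b : ℕ, a < 3 * n → b < 3 * n → ((a : ZMod (3 * n)) = b ↔ a = b) := by
    intro a b ha hb
    rw [ZMod.natCast_eq_natCast_iff, Nat.ModEq, Nat.mod_eq_of_lt ha, Nat.mod_eq_of_lt hb]
  set u : ZMod (3 * n) := ((i + 2 * n : ℕ) : ZMod (3 * n)) with hu
  have hu0 : u ≠ 0 := by
    rw [hu, ← Nat.cast_zero, Ne, hcast _ _ (by omega) (by omega)]
    omega
  have hu1 : u ≠ (n : ℕ) := by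
    rw [hu, Ne, hcast _ _ (by omega) (by omega)]
    omega
  have hu2 : u ≠ (2 * n : ℕ) := by
    rw [hu, Ne, hcast _ _ (by omega) (by omega)]
    omega
  rw [← ho.e_natCast (i + 2 * n), ← ho.e_natCast n] at hs
  -- the differences
  have hv : u = ((i + n : ℕ) : ZMod (3 * n)) + ((n : ℕ) : ZMod (3 * n)) := by
    rw [hu, ← Nat.cast_add]
    congr 1
    ring
  set v : ZMod (3 * n) := ((i + n : ℕ) : ZMod (3 * n)) with hvd
  have hv0 : v ≠ 0 := by
    rw [hvd, ← Nat.cast_zero, Ne, hcast _ _ (by omega) (by omega)]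
    omega
  have hv1 : v ≠ (n : ℕ) := by
    rw [hvd, Ne, hcast _ _ (by omega) (by omega)]
    omega
  have hv2 : v ≠ (2 * n : ℕ) := by
    rw [hvd, Ne, hcast _ _ (by omega) (by omega)]
    omega
  have hbu : Orb8.bb n D α β u = e8 k β u - β := by
    rw [Orb8.bb, if_neg hu0, if_neg (not_or.mpr ⟨hu1, hu2⟩)]
  have hbv : Orb8.bb n D α β v = e8 k β v - β := by
    rw [Orb8.bb, if_neg hv0, if_neg (not_or.mpr ⟨hv1, hv2⟩)]
  have hfac : e8 k β u - e8 k β ((n : ℕ) : ZMod (3 * n)) =
      (frob8 k F ^ n) (Orb8.bb n D α β v) := by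
    rw [hbv, map_sub, hv, ho.e_add_natCast, ho.e_natCast n]
  have h4 : nu8 k (3 * n) ((e8 k β u - β) * (e8 k β u - e8 k β ((n : ℕ) : ZMod (3 * n)))) = 0 := by
    have h5 : (frob8 k F ^ (3 * n))
        ((e8 k β u - β) * (e8 k β u - e8 k β ((n : ℕ) : ZMod (3 * n)))) =
        (e8 k β u - β) * (e8 k β u - e8 k β ((n : ℕ) : ZMod (3 * n))) := by
      rw [map_mul, map_sub, map_sub, ho.frob8_e, ho.frob8_e, ho.frob8_beta]
    rw [nu8_eq_zero_iff h2 h5]
    · exact ⟨s, hs3, hs⟩
    · rw [hfac, ← hbu]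
      exact mul_ne_zero (ho.bb_ne _) ((_root_.map_ne_zero _).mpr (ho.bb_ne _))
  rw [hfac, ← hbu, nu8_mul h2 (ho.frob8_bb _) (ho.bb_ne _) (by
    rw [← AlgEquiv.mul_apply, ← pow_add, add_comm, pow_add, AlgEquiv.mul_apply, ho.frob8_bb])
    ((_root_.map_ne_zero _).mpr (ho.bb_ne _)), nu8_frob] at h4
  have h5 : Orb8.aa k n D α β u = Orb8.aa k n D α β v := by
    unfold Orb8.aa
    exact CharTwo.add_eq_zero.mp h4
  obtain ⟨y, hy, hy2⟩ := ho.exists_sq h2 hi0 hin h5
  apply hns y _ hy2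
  rw [← frob8_pow_apply]
  exact hy

end Finite

section Spec

variable {R K F κ Fκ : Type*} [CommRing R] [IsDomain R] [IsIntegrallyClosed R] [Field K]
  [Algebra R K] [IsFractionRing R K] [Field F] [Algebra K F] [Algebra R F] [IsScalarTower R K F]
  [IsAlgClosed F] [Algebra.IsAlgebraic K F]
  [Field κ] [Fintype κ] [Field Fκ] [Algebra κ Fκ] [Algebra.IsAlgebraic κ Fκ] [IsAlgClosed Fκ]

/-- **The automorphism.** If the reduction of `D ∘ g` is irreducible over the finite residue field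
and one of the products is not a square, there is an automorphism of the algebraic closure of the
field of fractions which permutes the roots of `D ∘ g` cyclically and whose power of exponent `3 n`
moves the square roots of the product of two differences of roots. -/
theorem exists_phi_spec14 {π : R →+* κ} (hπ : Function.Surjective π) (h2 : (2 : κ) ≠ 0)
    {g D : R[X]} (hg : g.Monic) (hdeg : g.natDegree = 3) (hDu : IsUnit D.leadingCoeff) {n : ℕ}
    (hD : D.natDegree = n) (hirr : Irreducible ((D.map π).comp (g.map π))) {α' : Fκ}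
    (hα' : aeval α' (D.map π) = 0) {i : ℕ} (hi0 : 0 < i) (hin : i < n)
    (hns : ∀ y : Fκ, y ^ (Fintype.card κ ^ n) = y →
      y ^ 2 ≠ ∏ c ∈ fix8 κ Fκ i, ((α' - c) * (α' - aeval c (g.map π)))) :
    ∃ (φ : F ≃ₐ[K] F) (β : F), aeval β (D.comp g) = 0 ∧
      (∀ γ : F, aeval γ (D.comp g) = 0 → ∃ i, (φ ^ i) β = γ) ∧
      (∀ i, (φ ^ i) β = β ↔ 3 * n ∣ i) ∧
      ∃ u : ℕ, ¬ n ∣ u ∧
        Moves (fun x => (φ ^ (3 * n)) x) (((φ ^ u) β - β) * ((φ ^ u) β - (φ ^ n) β)) := by
  have hlc : (D.comp g).leadingCoeff = D.leadingCoeff := by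
    rw [Polynomial.leadingCoeff_comp (by rw [hdeg]; norm_num), hg.leadingCoeff, one_pow, mul_one]
  have hN : (D.comp g).natDegree = 3 * n := by
    rw [natDegree_comp, hdeg, hD, mul_comm]
  have hmap : (D.comp g).map π = (D.map π).comp (g.map π) := Polynomial.map_comp π D g
  -- a root of the reduction
  obtain ⟨β', hβ'⟩ : ∃ β' : Fκ, aeval β' (g.map π) = α' := by
    have hgm : (g.map π).Monic := hg.map π
    have hgd : (g.map π).natDegree = 3 := by rw [hg.natDegree_map, hdeg]
    have h1 : ((g.map π).map (algebraMap κ Fκ) - C α').degree ≠ 0 := by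
      have h3 : ((g.map π).map (algebraMap κ Fκ) - C α').natDegree = 3 := by
        rw [natDegree_sub_C, hgm.natDegree_map, hgd]
      intro h4
      rw [natDegree_eq_of_degree_eq_some h4] at h3
      exact absurd h3 (by norm_num)
    obtain ⟨β, hβ⟩ := IsAlgClosed.exists_root _ h1
    refine ⟨β, ?_⟩
    rw [IsRoot.def, eval_sub, eval_C, sub_eq_zero, eval_map_algebraMap] at hβ
    exact hβ
  have ho : Orb8 (g.map π) (D.map π) n α' β' := by
    refine ⟨hg.map π, by rw [hg.natDegree_map, hdeg], hirr, ?_, hβ', hα'⟩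
    rw [← hD]
    exact natDegree_map_of_leadingCoeff_ne_zero π (hDu.map π).ne_zero
  obtain ⟨φ, β, h3, h4, h5, h6⟩ := frob_spec14 (K := K) (F := F) (Fκ := Fκ) hπ h2
    (f := D.comp g) (by rw [hlc]; exact hDu) hN (by rw [hmap]; exact hirr) (β' := β')
    (by rw [hmap]; exact ho.root)
  refine ⟨φ, β, h3, h4, h5, i + 2 * n, ?_, h6 _ _ (moves_of_nonsquare14 h2 ho hi0 hin hns)⟩
  rw [(Nat.dvd_add_left (Dvd.intro_left 2 rfl) : n ∣ i + 2 * n ↔ n ∣ i)]
  exact Nat.not_dvd_of_pos_of_lt hi0 hin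

end Spec

end Pool.Agent.Lib.MP_89bcae_ag
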