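import Mathlib
import Pool.Agent.Lib.MP_89bcae_ag.FrobT45

/-!
# The fixed field of an automorphism of an algebraic closure
-/

open Polynomial IntermediateField

namespace Pool.Agent.Lib.MP_89bcae_ag

set_option linter.unusedSectionVars false

variable {k F : Type*} [Field k] [Field F] [Algebra k F] [Algebra.IsAlgebraic k F]

/-- The field of the elements fixed by the automorphism `φ`. -/
noncomputable def fixP8 (φ : F ≃ₐ[k] F) : IntermediateField k F :=
  IntermediateField.fixedField (Subgroup.zpowers φ)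

lemma mem_fixP8 {φ : F ≃ₐ[k] F} {x : F} : x ∈ fixP8 φ ↔ φ x = x := by
  rw [fixP8, IntermediateField.mem_fixedField_iff]
  constructor
  · intro h
    exact h _ (Subgroup.mem_zpowers _)
  · intro h τ hτ
    obtain ⟨m, rfl⟩ := Subgroup.mem_zpowers_iff.mp hτ
    exact (MulAction.stabilizer (F ≃ₐ[k] F) x).zpow_mem
      (show φ ∈ MulAction.stabilizer (F ≃ₐ[k] F) x from h) m

/-- The orbits are finite. -/
lemma orbit_finiteP8 (φ : F ≃ₐ[k] F) (x : F) : (Set.range fun a : ℕ => (φ ^ a) x).Finite := by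
  have hint : IsIntegral k x := Algebra.IsIntegral.isIntegral x
  apply Set.Finite.subset ((minpoly k x).rootSet_finite F)
  rintro _ ⟨a, rfl⟩
  rw [mem_rootSet]
  refine ⟨minpoly.ne_zero hint, ?_⟩
  change aeval ((φ ^ a : F ≃ₐ[k] F) x) _ = 0
  rw [← AlgEquiv.coe_toAlgHom (φ ^ a), aeval_algHom_apply, minpoly.aeval, map_zero]

/-- The polynomial whose roots are the points of the orbit. -/
lemma exists_polyP8 (φ : F ≃ₐ[k] F) (x : F) : ∃ q : (fixP8 φ)[X], q.Separable ∧ aeval x q = 0 ∧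
    (∀ y : F, aeval y q = 0 → ∃ a : ℕ, y = (φ ^ a) x) ∧
    ∀ M : ℕ, 0 < M → (φ ^ M) x = x → q.natDegree ≤ M := by
  classical
  set O : Finset F := (orbit_finiteP8 φ x).toFinset with hO
  have hmem : ∀ y, y ∈ O ↔ ∃ a : ℕ, (φ ^ a) x = y := fun y => by
    rw [hO, Set.Finite.mem_toFinset, Set.mem_range]
  -- the orbit is stable
  have himg : O.image φ = O := by
    apply Finset.eq_of_subset_of_card_le
    · intro y hy
      rw [Finset.mem_image] at hy
      obtain ⟨z, hz, rfl⟩ := hy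
      obtain ⟨a, rfl⟩ := (hmem z).mp hz
      exact (hmem _).mpr ⟨a + 1, by rw [pow_succ', AlgEquiv.mul_apply]⟩
    · rw [Finset.card_image_of_injective _ φ.injective]
  set Q : F[X] := ∏ z ∈ O, (X - C z) with hQ
  have hQφ : Q.map (φ : F →+* F) = Q := by
    rw [hQ, Polynomial.map_prod]
    simp only [Polynomial.map_sub, map_X, map_C]
    conv_rhs => rw [← himg]
    rw [Finset.prod_image (fun a _ b _ h => φ.injective h)]
    rfl
  have hlift : Q ∈ lifts (algebraMap (fixP8 φ) F) := by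
    rw [lifts_iff_coeff_lifts]
    intro n
    have h1 : φ (Q.coeff n) = Q.coeff n := by
      have h2 := congrArg (fun p : F[X] => p.coeff n) hQφ
      rw [coeff_map] at h2
      exact h2
    exact ⟨⟨_, mem_fixP8.mpr h1⟩, rfl⟩
  obtain ⟨q, hq⟩ := (mem_lifts _).mp hlift
  have hev : ∀ y : F, aeval y q = Q.eval y := fun y => by
    rw [← hq, eval_map_algebraMap]
  refine ⟨q, ?_, ?_, ?_, ?_⟩
  · rw [← separable_map (algebraMap (fixP8 φ) F), hq, hQ]
    exact separable_prod_X_sub_C_iff'.mpr fun a _ b _ h => h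
  · rw [hev, hQ, eval_prod]
    apply Finset.prod_eq_zero ((hmem x).mpr ⟨0, rfl⟩)
    rw [eval_sub, eval_X, eval_C, sub_self]
  · intro y hy
    rw [hev, hQ, eval_prod, Finset.prod_eq_zero_iff] at hy
    obtain ⟨z, hz, hz0⟩ := hy
    rw [eval_sub, eval_X, eval_C, sub_eq_zero] at hz0
    obtain ⟨a, ha⟩ := (hmem z).mp hz
    exact ⟨a, by rw [hz0, ha]⟩
  · intro M hM hx
    have h1 : q.natDegree = O.card := by
      have h2 : (q.map (algebraMap (fixP8 φ) F)).natDegree = q.natDegree := natDegree_map _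
      rw [← h2, hq, hQ, natDegree_prod_of_monic _ _ fun z _ => monic_X_sub_C z]
      simp
    have h2 : O ⊆ (Finset.range M).image fun a : ℕ => (φ ^ a) x := by
      intro y hy
      obtain ⟨a, rfl⟩ := (hmem y).mp hy
      rw [Finset.mem_image]
      refine ⟨a % M, Finset.mem_range.mpr (Nat.mod_lt _ hM), ?_⟩
      have h3 : ∀ b : ℕ, (φ ^ (M * b)) x = x := by
        intro b
        induction b with
        | zero => simp
        | succ b ih => rw [Nat.mul_succ, pow_add, AlgEquiv.mul_apply, hx, ih]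
      conv_rhs => rw [← Nat.mod_add_div a M, pow_add, AlgEquiv.mul_apply, h3]
    rw [h1]
    calc O.card ≤ _ := Finset.card_le_card h2
      _ ≤ (Finset.range M).card := Finset.card_image_le
      _ = M := Finset.card_range M

/-- `F` is separable over the fixed field. -/
lemma separable_fixP8 (φ : F ≃ₐ[k] F) : Algebra.IsSeparable (fixP8 φ) F := by
  refine ⟨fun x => ?_⟩
  obtain ⟨q, hq, hx, -, -⟩ := exists_polyP8 φ x
  exact hq.of_dvd (minpoly.dvd _ _ hx)

/-- Conjugate elements over the fixed field are in the same orbit. -/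
lemma exists_powP8 (φ : F ≃ₐ[k] F) {x y : F} (h : aeval y (minpoly (fixP8 φ) x) = 0) :
    ∃ a : ℕ, y = (φ ^ a) x := by
  obtain ⟨q, hq, hx, hy, -⟩ := exists_polyP8 φ x
  apply hy
  obtain ⟨p, hp⟩ := minpoly.dvd _ _ hx
  rw [hp, map_mul, h, zero_mul]

/-- **Density.** On a finite set, an automorphism which fixes the fixed field of the automorphism
`φ` agrees with a power of it. -/
lemma exists_agreeP8 (φ τ : F ≃ₐ[k] F) (hτ : ∀ x : F, φ x = x → τ x = x) (S : Finset F) :
    ∃ a : ℕ, ∀ x ∈ S, τ x = (φ ^ a) x := by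
  have halg : Algebra.IsAlgebraic (fixP8 φ) F := Algebra.IsAlgebraic.tower_top (K := k) _
  have hsep := separable_fixP8 φ
  have hfin : FiniteDimensional (fixP8 φ) (adjoin (fixP8 φ) (S : Set F)) :=
    finiteDimensional_adjoin fun x _ => Algebra.IsIntegral.isIntegral x
  have hsep1 : Algebra.IsSeparable (fixP8 φ) (adjoin (fixP8 φ) (S : Set F)) := inferInstance
  obtain ⟨ζ, hζ⟩ := Field.exists_primitive_element (fixP8 φ) (adjoin (fixP8 φ) (S : Set F))
  have h1 : adjoin (fixP8 φ) (S : Set F) = (fixP8 φ)⟮(ζ : F)⟯ := by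
    have h2 := congrArg (IntermediateField.map (adjoin (fixP8 φ) (S : Set F)).val) hζ
    rw [adjoin_map, Set.image_singleton] at h2
    rw [← AlgHom.fieldRange_eq_map, fieldRange_val] at h2
    exact h2.symm
  let τ₁ : F ≃ₐ[fixP8 φ] F := AlgEquiv.ofRingEquiv (f := τ.toRingEquiv) fun x =>
    hτ x (mem_fixP8.mp x.2)
  obtain ⟨a, ha⟩ := exists_powP8 φ (x := (ζ : F)) (y := τ ζ) (by
    have h3 := minpoly.aeval (fixP8 φ) (ζ : F)
    have h4 : τ (ζ : F) = τ₁ (ζ : F) := rfl
    rw [h4, ← AlgEquiv.coe_toAlgHom τ₁, aeval_algHom_apply, h3, map_zero])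
  refine ⟨a, fun x hx => ?_⟩
  have h4 : x ∈ (fixP8 φ)⟮(ζ : F)⟯ := by
    rw [← h1]
    exact subset_adjoin _ _ hx
  have hφa : ∀ b : ℕ, ∀ x : F, φ x = x → (φ ^ b) x = x := by
    intro b x hx
    induction b with
    | zero => rfl
    | succ b ih => rw [pow_succ, AlgEquiv.mul_apply, hx, ih]
  have hinv : ∀ x y : F, (φ ^ a) x = y → (φ ^ a)⁻¹ y = x := by
    rintro x _ rfl
    rw [← AlgEquiv.mul_apply, inv_mul_cancel]
    rfl
  let ρ : F ≃ₐ[fixP8 φ] F := AlgEquiv.ofRingEquiv (f := ((φ ^ a)⁻¹ * τ).toRingEquiv) fun x => by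
    change (φ ^ a)⁻¹ (τ (x : F)) = x
    rw [hτ x (mem_fixP8.mp x.2)]
    exact hinv _ _ (hφa a x (mem_fixP8.mp x.2))
  have h5 := fix_adjoin45 ρ (s := {(ζ : F)}) (by
    rintro _ rfl
    change (φ ^ a)⁻¹ (τ (ζ : F)) = ζ
    exact hinv _ _ ha.symm) x h4
  have h6 : (φ ^ a)⁻¹ (τ x) = x := h5
  have h7 := congrArg (φ ^ a) h6
  rw [← AlgEquiv.mul_apply, mul_inv_cancel] at h7
  exact h7

lemma pow_pow_applyP8 (φ : F ≃ₐ[k] F) (M a : ℕ) (x : F) : ((φ ^ M) ^ a) x = (φ ^ (M * a)) x := by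
  rw [← pow_mul]

/-- Density, for a power. -/
lemma exists_agree_powP8 (φ τ : F ≃ₐ[k] F) {M : ℕ} (hτ : ∀ x : F, (φ ^ M) x = x → τ x = x)
    (S : Finset F) : ∃ a : ℕ, ∀ x ∈ S, τ x = (φ ^ (M * a)) x := by
  obtain ⟨a, ha⟩ := exists_agreeP8 (φ ^ M) τ hτ S
  exact ⟨a, fun x hx => by rw [ha x hx, ← pow_mul]⟩

/-- The same automorphism over the fixed field. -/
noncomputable def upP8 (φ : F ≃ₐ[k] F) : F ≃ₐ[fixP8 φ] F :=
  AlgEquiv.ofRingEquiv (f := φ.toRingEquiv) fun x => mem_fixP8.mp x.2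

lemma upP8_apply (φ : F ≃ₐ[k] F) (x : F) : upP8 φ x = φ x := rfl

lemma upP8_pow_apply (φ : F ≃ₐ[k] F) (M : ℕ) (x : F) : (upP8 φ ^ M) x = (φ ^ M) x := by
  induction M generalizing x with
  | zero => rfl
  | succ M ih => rw [pow_succ, pow_succ, AlgEquiv.mul_apply, AlgEquiv.mul_apply, upP8_apply, ih]

/-- The fixed field of a power is a finite extension. -/
lemma finite_fixP8 (φ : F ≃ₐ[k] F) {M : ℕ} (hM : 0 < M) :
    FiniteDimensional (fixP8 φ) (IntermediateField.fixedField (Subgroup.zpowers (upP8 φ ^ M))) := by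
  have halg : Algebra.IsAlgebraic (fixP8 φ) F := Algebra.IsAlgebraic.tower_top (K := k) _
  have hsep := separable_fixP8 φ
  set E := IntermediateField.fixedField (Subgroup.zpowers (upP8 φ ^ M)) with hE
  have hmem : ∀ x, x ∈ E ↔ (φ ^ M) x = x := by
    intro x
    rw [← upP8_pow_apply]
    exact mem_fixP8 (φ := upP8 φ ^ M)
  have hdeg : ∀ x ∈ E, (minpoly (fixP8 φ) x).natDegree ≤ M := by
    intro x hx
    obtain ⟨q, hq, hx0, -, h4⟩ := exists_polyP8 φ x
    exact (natDegree_le_of_dvd (minpoly.dvd _ _ hx0) hq.ne_zero).trans (h4 M hM ((hmem x).mp hx))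
  -- an element of maximal degree
  obtain ⟨x, hx, hmax⟩ : ∃ x ∈ E, ∀ y ∈ E,
      (minpoly (fixP8 φ) y).natDegree ≤ (minpoly (fixP8 φ) x).natDegree := by
    set T : Set ℕ := {d | ∃ y ∈ E, (minpoly (fixP8 φ) y).natDegree = d} with hT
    have hne : T.Nonempty := ⟨_, 0, E.zero_mem, rfl⟩
    have hbdd : BddAbove T := ⟨M, by rintro _ ⟨y, hy, rfl⟩; exact hdeg y hy⟩
    obtain ⟨x, hx, h1⟩ := Nat.sSup_mem hne hbdd
    exact ⟨x, hx, fun y hy => by rw [h1]; exact le_csSup hbdd ⟨y, hy, rfl⟩⟩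
  have hx0 : FiniteDimensional (fixP8 φ) (fixP8 φ)⟮x⟯ :=
    adjoin.finiteDimensional (Algebra.IsIntegral.isIntegral x)
  have hle : E ≤ (fixP8 φ)⟮x⟯ := by
    intro y hy
    have hfin : FiniteDimensional (fixP8 φ) (adjoin (fixP8 φ) ({x, y} : Set F)) :=
      finiteDimensional_adjoin fun x _ => Algebra.IsIntegral.isIntegral x
    obtain ⟨ζ, hζ⟩ := Field.exists_primitive_element (fixP8 φ)
      (adjoin (fixP8 φ) ({x, y} : Set F))
    have h1 : adjoin (fixP8 φ) ({x, y} : Set F) = (fixP8 φ)⟮(ζ : F)⟯ := by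
      have h2 := congrArg (IntermediateField.map (adjoin (fixP8 φ) ({x, y} : Set F)).val) hζ
      rw [adjoin_map, Set.image_singleton] at h2
      rw [← AlgHom.fieldRange_eq_map, fieldRange_val] at h2
      exact h2.symm
    have hsubE : adjoin (fixP8 φ) ({x, y} : Set F) ≤ E := by
      rw [adjoin_le_iff]
      rintro z (rfl | rfl)
      exacts [hx, hy]
    have hζE : (ζ : F) ∈ E := hsubE ζ.2
    have hxle : (fixP8 φ)⟮x⟯ ≤ (fixP8 φ)⟮(ζ : F)⟯ := by
      rw [← h1, adjoin_simple_le_iff]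
      exact subset_adjoin _ _ (Set.mem_insert _ _)
    have hfin2 : FiniteDimensional (fixP8 φ) (fixP8 φ)⟮(ζ : F)⟯ :=
      adjoin.finiteDimensional (Algebra.IsIntegral.isIntegral _)
    have heq : (fixP8 φ)⟮x⟯ = (fixP8 φ)⟮(ζ : F)⟯ := by
      apply IntermediateField.eq_of_le_of_finrank_le hxle
      rw [adjoin.finrank (Algebra.IsIntegral.isIntegral _),
        adjoin.finrank (Algebra.IsIntegral.isIntegral _)]
      exact hmax _ hζE
    rw [heq, ← h1]
    exact subset_adjoin _ _ (Set.mem_insert_of_mem _ rfl)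
  exact Module.Finite.of_injective (IntermediateField.inclusion hle).toLinearMap
    (IntermediateField.inclusion_injective hle)

end Pool.Agent.Lib.MP_89bcae_ag
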