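import Mathlib
import Pool.Agent.Lib.MP_89bcae_ag.DefsDens8
import Pool.Agent.Lib.MP_89bcae_ag.AutP8
import Pool.Agent.Lib.MP_89bcae_ag.InfS45
import Pool.Agent.Lib.MP_89bcae_ag.InfZP8

/-!
# Change of the base field
-/

open Polynomial WeierstrassCurve WeierstrassCurve.Affine IsDedekindDomain

open scoped Classical

namespace Pool.Agent.Lib.MP_89bcae_ag

set_option linter.unusedSectionVars false
set_option linter.style.haveILetI false

universe u

/-- The statement of the absence of Tate classes for a family of curves over the extensions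
of `L`. -/
def NTF (F L Ω : Type u) [Field F] [Field L] [Algebra F[X] L] [IsFractionRing F[X] L] [Field Ω]
    [Algebra L Ω] (V : ∀ (A : Type u) [Field A] [Algebra L A], WeierstrassCurve A)
    (Γ : Set (Ω ≃+* Ω)) : Prop :=
  ∀ c : ℕ → (Ω ≃ₐ[L] Ω) → (V Ω).toAffine.Point,
    ((∀ σ, c 0 σ = 0) ∧ (∀ n σ, 2 • c (n + 1) σ = c n σ) ∧
      (∀ n (σ τ : Ω ≃ₐ[L] Ω) P, IsImage (σ : Ω →+* Ω) (c n τ) P → c n (σ * τ) = c n σ + P) ∧
      (∀ n, IsLocallyConstant (c n))) →
    (∀ (v : HeightOneSpectrum F[X]) (n : ℕ) (M : Type u) [Field M]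
      [Algebra (v.adicCompletion L) M] [IsSepClosure (v.adicCompletion L) M] [Algebra L M]
      [IsScalarTower L (v.adicCompletion L) M] (j : Ω →ₐ[L] M), ∃ Q : (V M).toAffine.Point,
      ∀ (g : M ≃ₐ[v.adicCompletion L] M) (g' : Ω ≃ₐ[L] Ω), (∀ x, j (g' x) = g (j x)) →
        ∀ P : (V M).toAffine.Point, IsImage (g : M →+* M) Q P →
          IsImage (j : Ω →+* M) (c n g') (P - Q)) →
    (∀ γ ∈ Γ, ∃ m : ℕ, 0 < m ∧ ∀ n, ∃ A : (V Ω).toAffine.Point, 2 ^ n • A = 0 ∧
      ∀ g h : Ω ≃ₐ[L] Ω, (∀ x, γ (g x) = h (γ x)) →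
        ∀ P A' : (V Ω).toAffine.Point, IsImage (γ : Ω →+* Ω) (c n g) P →
          IsImage (h : Ω →+* Ω) A A' → m • (P - c n h) = A' - A) →
    ∀ n, ∃ A : (V Ω).toAffine.Point, 2 ^ n • A = 0 ∧
      ∀ (g : Ω ≃ₐ[L] Ω) (A' : (V Ω).toAffine.Point), IsImage (g : Ω →+* Ω) A A' →
        c n g = A' - A

section

variable {k F L Ω : Type u} [Field k] [Field F] [Algebra k F] [Field L] [Algebra F[X] L]
  [IsFractionRing F[X] L] [Field Ω] [Algebra L Ω]

/-- The family of curves of a Weierstrass equation over `k[t]`. -/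
noncomputable def curF (k F L : Type u) [Field k] [Field F] [Algebra k F] [Field L]
    [Algebra F[X] L] (W : WeierstrassCurve k[X]) (A : Type u) [Field A] [Algebra L A] :
    WeierstrassCurve A := W.map (base k F L A)

lemma NTF_iff (W : WeierstrassCurve k[X]) (Γ : Set (Ω ≃+* Ω)) :
    NTF F L Ω (curF k F L W) Γ ↔
      ∀ c : ℕ → (Ω ≃ₐ[L] Ω) → (W.map (base k F L Ω)).toAffine.Point,
        IsTateCocycle W c →
        (∀ (v : HeightOneSpectrum F[X]) (n : ℕ),
          IsLocallyTrivial W (c n) (v.adicCompletion L)) →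
        (∀ γ ∈ Γ, IsFixedBy W c γ) → IsTrivial W c := by
  constructor
  · intro h c hc hS hinv
    exact h c ⟨hc.zero, hc.two_smul, hc.cocycle, hc.locallyConstant⟩ hS hinv
  · intro h c hc hS hinv
    exact h c ⟨hc.1, hc.2.1, hc.2.2.1, hc.2.2.2⟩ hS hinv

/-- The family of curves does not change with the base field. -/
lemma curF_map (k₁ : IntermediateField k F) (g D : k[X]) :
    (curF k₁ F L (twist (g.map (algebraMap k k₁)) (D.map (algebraMap k k₁))) :
      ∀ (A : Type u) [Field A] [Algebra L A], WeierstrassCurve A) = curF k F L (twist g D) := by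
  funext A _ _
  have h : ∀ p : k[X], base k₁ F L A (p.map (algebraMap k k₁)) = base k F L A p := by
    intro p
    change algebraMap L A (algebraMap F[X] L ((p.map (algebraMap k k₁)).map (algebraMap k₁ F))) =
      algebraMap L A (algebraMap F[X] L (p.map (algebraMap k F)))
    rw [Polynomial.map_map]
    rfl
  have hC : ∀ a : k, (C (algebraMap k k₁ a) : k₁[X]) = (C a : k[X]).map (algebraMap k k₁) :=
    fun a => (map_C _).symm
  unfold curF twist
  ext
  · change base k₁ F L A 0 = base k F L A 0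
    rw [map_zero, map_zero]
  · change base k₁ F L A (C ((g.map (algebraMap k k₁)).coeff 2) * D.map (algebraMap k k₁)) =
      base k F L A (C (g.coeff 2) * D)
    rw [coeff_map, hC, ← Polynomial.map_mul, h]
  · change base k₁ F L A 0 = base k F L A 0
    rw [map_zero, map_zero]
  · change base k₁ F L A (C ((g.map (algebraMap k k₁)).coeff 1) * D.map (algebraMap k k₁) ^ 2) =
      base k F L A (C (g.coeff 1) * D ^ 2)
    rw [coeff_map, hC, ← Polynomial.map_pow, ← Polynomial.map_mul, h]
  · change base k₁ F L A ((C ((g.map (algebraMap k k₁)).coeff 0) - X) *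
      D.map (algebraMap k k₁) ^ 3) = base k F L A ((C (g.coeff 0) - X) * D ^ 3)
    rw [coeff_map, hC, ← Polynomial.map_pow, ← Polynomial.map_X (algebraMap k k₁),
      ← Polynomial.map_sub, ← Polynomial.map_mul, h]

/-- Change of the base field. -/
lemma noTateClass_down (k₁ : IntermediateField k F) {g D : k[X]}
    (h : NoTateClass k₁ F L Ω (g.map (algebraMap k k₁)) (D.map (algebraMap k k₁)))
    (k' : IntermediateField k₁ F) [FiniteDimensional k₁ k']
    (c : ℕ → (Ω ≃ₐ[L] Ω) → ((twist g D).map (base k F L Ω)).toAffine.Point)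
    (hc : IsTateCocycle (twist g D) c)
    (hS : ∀ (v : HeightOneSpectrum F[X]) (n : ℕ),
      IsLocallyTrivial (twist g D) (c n) (v.adicCompletion L))
    (hinv : ∀ γ : Ω ≃+* Ω, (∀ p : k'[X], γ (base k' F L Ω p) = base k' F L Ω p) →
      IsFixedBy (twist g D) c γ) : IsTrivial (twist g D) c := by
  have h1 : NTF F L Ω (curF k₁ F L (twist (g.map (algebraMap k k₁)) (D.map (algebraMap k k₁))))
      {γ | ∀ p : k'[X], γ (base k' F L Ω p) = base k' F L Ω p} := by
    rw [NTF_iff]
    intro c hc hS hinv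
    exact h k' c hc hS hinv
  rw [curF_map, NTF_iff] at h1
  exact h1 c hc hS hinv

end

end Pool.Agent.Lib.MP_89bcae_ag
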