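import Mathlib
import Pool.Agent.Lib.MP_89bcae_ag.FamCur8
import Pool.Agent.Lib.MP_89bcae_ag.InfT45

/-!
# The classes over `L`: general automorphisms
-/

open Polynomial WeierstrassCurve WeierstrassCurve.Affine IsDedekindDomain

open scoped Classical

namespace Pool.Agent.Lib.MP_89bcae_ag

set_option linter.unusedSectionVars false
set_option linter.style.haveILetI false

section Conc

variable {k F L Ω : Type*} [Field k] [Field F] [Algebra k F] [Algebra.IsAlgebraic k F]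
  [IsAlgClosed F] [Field L] [Field Ω]
  [Algebra F[X] L] [IsFractionRing F[X] L] [Algebra L Ω] [Algebra F[X] Ω] [IsScalarTower F[X] L Ω]
  [Algebra k[X] L] [Algebra k[X] Ω] [IsScalarTower k[X] L Ω]
  [IsGalois L Ω] [IsSepClosed Ω] [IsSepClosure L Ω]

variable (hk : ∀ p : k[X], algebraMap k[X] L p = algebraMap F[X] L (p.map (algebraMap k F)))

include hk in
/-- **Density of the powers of an automorphism.** -/
theorem eqv_of_powP8 (W : Affine k[X]) {N : ℕ}
    {c : (Ω ≃ₐ[k[X]] Ω) → (W.baseChange Ω).Point}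
    (hc : letI := actW (k := k) (Ω := Ω) W
      Inf.Co (GL8 k L Ω) c)
    (hs : Inf.Sm Ω (GL8 k L Ω) c) (hN : ∀ σ ∈ GL8 k L Ω, N • c σ = 0)
    {φ : Ω ≃ₐ[k[X]] Ω} {φ₀ : F ≃ₐ[k] F} (hφ : resF hk φ = φ₀) {M : ℕ}
    (hfix : letI := actW (k := k) (Ω := Ω) W
      Inf.Eqv N (GL8 k L Ω) (Inf.cj (φ ^ M) c) c) {γ : Ω ≃ₐ[k[X]] Ω}
    (hγ : ∀ x : F, (φ₀ ^ M) x = x → resF hk γ x = x) :
    letI := actW (k := k) (Ω := Ω) W
    Inf.Eqv N (GL8 k L Ω) (Inf.cj γ c) c := by
  letI := actW (k := k) (Ω := Ω) W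
  haveI := normal_GL45 (Ω := Ω) hk
  obtain ⟨T', hT'⟩ := exists_close45 hk W hc hs
  obtain ⟨S, hS⟩ := exists_finset_agree (Ω := Ω) hk T'
  obtain ⟨a, ha⟩ := exists_agree_powP8 φ₀ (resF hk γ) hγ S
  set δ := (φ ^ (M * a))⁻¹ * γ with hδ
  have hγδ : γ = φ ^ (M * a) * δ := by rw [hδ, mul_inv_cancel_left]
  have h1 : ∀ x ∈ S, resF hk δ x = x := by
    intro x hx
    have h2 := ha x hx
    rw [hγδ, resF_mul, resF_pow, hφ, AlgEquiv.mul_apply] at h2
    exact (φ₀ ^ (M * a)).injective h2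
  obtain ⟨σ₀, hσ₀⟩ := hS δ h1
  set ε := (toG (k := k) σ₀)⁻¹ * δ with hε
  have hδε : δ = toG σ₀ * ε := by rw [hε, mul_inv_cancel_left]
  have h3 : ∀ x ∈ T', ε x = x := by
    intro x hx
    apply (toG (k := k) σ₀).injective
    rw [← AlgEquiv.mul_apply, ← hδε, hσ₀ x hx]
    rfl
  have e1 : Inf.Eqv N (GL8 k L Ω) (Inf.cj ε c) c := Inf.Eqv.of_eq (hT' ε h3)
  have e2 : Inf.Eqv N (GL8 k L Ω) (Inf.cj (toG σ₀) c) c := by
    refine ⟨c (toG σ₀), hN _ (toG_mem_GL8 σ₀), fun σ hσ => ?_⟩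
    rw [hc.cj_self (toG_mem_GL8 σ₀) hσ]
    abel
  have e3 : Inf.Eqv N (GL8 k L Ω) (Inf.cj (φ ^ (M * a)) c) c := by
    rw [pow_mul]
    exact hfix.pow_fix a
  rw [hγδ, hδε]
  exact e3.comp (e2.comp e1)

end Conc

universe u

section Main

variable {k F L Ω : Type u} [Field k] [Field F] [Algebra k F]
  [IsAlgClosed F] [Field L] [Algebra F[X] L] [IsFractionRing F[X] L] [Field Ω]
  [Algebra L Ω] [IsGalois L Ω] [IsSepClosed Ω]

/-- The vanishing of the Tate classes in the abstract setting: it suffices that the class is fixed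
by a power of a lift of the automorphism. -/
theorem vanP8_of_noTate [Algebra.IsAlgebraic k F] [IsSepClosure L Ω] {g D : k[X]} {φ₀ : F ≃ₐ[k] F}
    (hNT : NoTateClass (fixP8 φ₀) F L Ω (g.map (algebraMap k (fixP8 φ₀)))
      (D.map (algebraMap k (fixP8 φ₀)))) : VanP8 φ₀ L Ω g D := by
  letI := algK k F L L
  letI := algK k F L Ω
  letI := algF F L Ω
  haveI : IsScalarTower F[X] L Ω := IsScalarTower.of_algebraMap_eq fun _ => rfl
  haveI : IsScalarTower k[X] L Ω := IsScalarTower.of_algebraMap_eq fun _ => rfl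
  letI := actW (k := k) (Ω := Ω) (twist g D).toAffine
  have hk : ∀ p : k[X], algebraMap k[X] L p = algebraMap F[X] L (p.map (algebraMap k F)) :=
    fun _ => rfl
  rintro φ hφ d hd hL ⟨M, hM, hfix⟩
  set E := IntermediateField.fixedField (Subgroup.zpowers (upP8 φ₀ ^ M)) with hE
  haveI : FiniteDimensional (fixP8 φ₀) E := finite_fixP8 φ₀ hM
  have hmemE : ∀ x, x ∈ E ↔ (φ₀ ^ M) x = x := by
    intro x
    rw [← upP8_pow_apply]
    exact mem_fixP8 (φ := upP8 φ₀ ^ M)
  let ι : k →+* E := (algebraMap (fixP8 φ₀) E).comp (algebraMap k (fixP8 φ₀))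
  apply eqv_of_isTrivial45 (F := F) (L := L) (twist g D) d
  apply noTateClass_down (fixP8 φ₀) hNT E _
    (isTateCocycle_of_TCo (F := F) (L := L) (twist g D) d hd)
  · intro v n
    obtain ⟨τ, rfl⟩ := exists_placeAt45 v
    exact hL n τ
  · intro γ₀ hγ₀
    -- the automorphism over `k[t]`
    let γ : Ω ≃ₐ[k[X]] Ω := AlgEquiv.ofRingEquiv (f := γ₀) (by
      intro p
      have h1 := hγ₀ (p.map ι)
      have h2 : base E F L Ω (p.map ι) = algebraMap k[X] Ω p := by
        change algebraMap L Ω (algebraMap F[X] L ((p.map ι).map (algebraMap E F))) =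
          algebraMap L Ω (algebraMap F[X] L (p.map (algebraMap k F)))
        rw [Polynomial.map_map]
        rfl
      rw [h2] at h1
      exact h1)
    have hγ : ∀ x : F, (φ₀ ^ M) x = x → resF hk γ x = x := by
      intro x hx
      have h1 := hγ₀ (C ⟨x, (hmemE x).mpr hx⟩)
      have h2 : base E F L Ω (C ⟨x, (hmemE x).mpr hx⟩) = algebraMap F[X] Ω (C x) := by
        change algebraMap L Ω (algebraMap F[X] L ((C _).map (algebraMap E F))) =
          algebraMap L Ω (algebraMap F[X] L (C x))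
        rw [map_C]
        rfl
      rw [h2] at h1
      have h3 := resF_spec hk γ (C x)
      rw [map_C] at h3
      have h4 : γ (algebraMap F[X] Ω (C x)) = algebraMap F[X] Ω (C x) := h1
      rw [h4] at h3
      exact (const_injective L Ω h3).symm
    refine ⟨1, one_pos, fun n => ?_⟩
    obtain ⟨A, hA, h1⟩ := eqv_of_powP8 hk (twist g D).toAffine (hd.co n) (hd.sm n)
      (hd.tors n) hφ (hfix n) hγ
    refine ⟨A, hA, fun s h hs P A' hP hA' => ?_⟩
    have h2 := h1 (toG (k := k) h) (toG_mem_GL8 h)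
    have h3 : P = γ • d n (toG (k := k) s) :=
      (isImage_iff (W := twist g D) (γ : Ω →ₐ[k[X]] Ω) _ _).mp hP
    have h4 : A' = toG (k := k) h • A :=
      (isImage_iff (W := twist g D) (h : Ω →ₐ[L] Ω) _ _).mp hA'
    have h5 : γ⁻¹ * toG (k := k) h * γ = toG s := by
      ext x
      apply γ.injective
      change γ (γ⁻¹ (h (γ x))) = γ (s x)
      have h6 : γ (γ⁻¹ (h (γ x))) = h (γ x) := γ.apply_symm_apply _
      rw [h6]
      exact (hs x).symm
    have h7 : Inf.cj γ (d n) (toG (k := k) h) = P := by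
      rw [h3]
      simp only [Inf.cj]
      rw [h5]
    rw [h7] at h2
    rw [one_smul, h4]
    exact h2

end Main

end Pool.Agent.Lib.MP_89bcae_ag
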