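import Mathlib
import Pool.Agent.Lib.MP_89bcae_ag.InfFormP8
import Pool.Agent.Lib.MP_89bcae_ag.InfEndP8
import Pool.Agent.Lib.MP_89bcae_ag.InfExc8
import Pool.Agent.Lib.MP_89bcae_ag.SpecC14
import Pool.Agent.Lib.MP_89bcae_ag.VanP8

/-!
# The theorem over the fields of fractions of normal domains with a finite residue field
-/

open Polynomial WeierstrassCurve WeierstrassCurve.Affine IsDedekindDomain

namespace Pool.Agent.Lib.MP_89bcae_ag

universe u

set_option linter.unusedSectionVars false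
set_option linter.style.haveILetI false

section

variable {k F : Type*} [Field k] [Field F] [Algebra k F] [Algebra.IsAlgebraic k F]
  {φ : F ≃ₐ[k] F} {g D : k[X]} {n : ℕ} {α β : F}

/-- The orbit over the fixed field. -/
lemma OrbP8.up (h : OrbP8 φ g D n α β) :
    OrbP8 (upP8 φ) (g.map (algebraMap k (fixP8 φ))) (D.map (algebraMap k (fixP8 φ))) n α β := by
  have hev : ∀ (x : F) (p : k[X]), aeval x (p.map (algebraMap k (fixP8 φ))) = aeval x p :=
    fun x p => aeval_map_algebraMap _ x p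
  have hinj : Function.Injective (algebraMap k (fixP8 φ)) := (algebraMap k (fixP8 φ)).injective
  refine ⟨h.monic.map _, by rw [h.monic.natDegree_map, h.deg], h.pos, ?_, ?_, ?_, ?_, ?_⟩
  · rw [natDegree_map_eq_of_injective hinj, h.degD]
  · rw [hev, h.gβ]
  · rw [hev, h.Dα]
  · intro γ hγ
    rw [← Polynomial.map_comp, hev] at hγ
    obtain ⟨i, hi⟩ := h.orb γ hγ
    exact ⟨i, by rw [upP8_pow_apply]; exact hi⟩
  · intro i
    rw [upP8_pow_apply]
    exact h.beta_iff i

end

/-- The vanishing over `L`. -/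
theorem vanP8_of {k F L Ω : Type u} [Field k] [Field F] [Algebra k F]
    [IsAlgClosure k F] [Field L] [Algebra F[X] L] [IsFractionRing F[X] L] [Field Ω] [Algebra L Ω]
    [IsSepClosure L Ω] (h2 : (2 : k) ≠ 0) {g D : k[X]} {φ₀ : F ≃ₐ[k] F} {j : ℕ} {α β : F}
    (ho : OrbP8 φ₀ g D (3 ^ j) α β) {u : ℕ} (hu : ¬ 3 ^ j ∣ u)
    (hm : Moves (fun x => (φ₀ ^ (3 * 3 ^ j)) x)
      (((φ₀ ^ u) β - β) * ((φ₀ ^ u) β - (φ₀ ^ 3 ^ j) β))) :
    haveI : IsAlgClosed F := IsAlgClosure.isAlgClosed k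
    haveI : Algebra.IsAlgebraic k F := IsAlgClosure.isAlgebraic
    haveI : IsSepClosed Ω := IsSepClosure.sep_closed L
    haveI : IsGalois L Ω := IsSepClosure.isGalois
    VanP8 φ₀ L Ω g D := by
  haveI : IsAlgClosed F := IsAlgClosure.isAlgClosed k
  haveI : Algebra.IsAlgebraic k F := IsAlgClosure.isAlgebraic
  haveI : IsSepClosed Ω := IsSepClosure.sep_closed L
  haveI : IsGalois L Ω := IsSepClosure.isGalois
  have halg : Algebra.IsAlgebraic (fixP8 φ₀) F := Algebra.IsAlgebraic.tower_top (K := k) _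
  have hcl : IsAlgClosure (fixP8 φ₀) F := ⟨inferInstance, halg⟩
  have h2' : (2 : fixP8 φ₀) ≠ 0 := by
    intro h0
    apply h2
    apply (algebraMap k (fixP8 φ₀)).injective
    rw [map_ofNat, h0, map_zero]
  apply vanP8_of_noTate
  apply noTateClass_of_movesP8 (fixP8 φ₀) F L Ω h2' ho.up hu
  intro s hs
  have h1 := hm s (by
    rw [upP8_pow_apply, upP8_pow_apply] at hs
    exact hs)
  change (upP8 φ₀ ^ (3 * 3 ^ j)) s ≠ s
  rw [upP8_pow_apply]
  exact h1

/-- **No Tate classes over the whole tower**, from an automorphism. -/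
theorem noTower_of_movesP8 (k F L Ω : Type u) [Field k] [Field F] [Algebra k F]
    [IsAlgClosure k F] [Field L] [Algebra F[X] L] [IsFractionRing F[X] L] [Field Ω] [Algebra L Ω]
    [IsSepClosure L Ω] (h2 : (2 : k) ≠ 0) {g D : k[X]} {φ₀ : F ≃ₐ[k] F} {j : ℕ} {α β : F}
    (ho : OrbP8 φ₀ g D (3 ^ j) α β) {u : ℕ} (hu : ¬ 3 ^ j ∣ u)
    (hm : Moves (fun x => (φ₀ ^ (3 * 3 ^ j)) x)
      (((φ₀ ^ u) β - β) * ((φ₀ ^ u) β - (φ₀ ^ 3 ^ j) β)))
    (hV : haveI : IsAlgClosed F := IsAlgClosure.isAlgClosed k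
      haveI : Algebra.IsAlgebraic k F := IsAlgClosure.isAlgebraic
      haveI : IsSepClosed Ω := IsSepClosure.sep_closed L
      haveI : IsGalois L Ω := IsSepClosure.isGalois
      VanP8 φ₀ L Ω g D)
    (k' : IntermediateField k F) [FiniteDimensional k k'] (r : ℕ) (s : Ω)
    (hs : s ^ 2 ^ r = base k F L Ω D) : NoTateClassOver k F L g D (cover k' F L s) := by
  haveI hF : IsAlgClosed F := IsAlgClosure.isAlgClosed k
  haveI hkF : Algebra.IsAlgebraic k F := IsAlgClosure.isAlgebraic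
  haveI hΩ : IsSepClosed Ω := IsSepClosure.sep_closed L
  have hsp : Algebra.IsSeparable L Ω := IsSepClosure.separable
  haveI hG : IsGalois L Ω := IsSepClosure.isGalois
  have hd : derivative g ≠ 0 := by
    intro h0
    have hsep := ho.separable
    have h1 : derivative (D.comp g) = 0 := by
      rw [derivative_comp, h0, zero_mul]
    rw [Polynomial.Separable, h1, isCoprime_zero_right] at hsep
    have h3 := natDegree_eq_zero_of_isUnit hsep
    rw [ho.natDegree_comp] at h3
    have := ho.pos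
    omega
  have hgood : Good g 1 := ⟨h2, ho.monic, ho.deg, hd, one_ne_zero⟩
  exact noTowerP8 hgood ho hV (fun r _ s hs φ hφs hφ => formP8_of hgood ho hu hm hs hφs hφ)
    k' r s hs

/-- Outside of the exceptional set, one of the products is not a square. -/
lemma exists_nonsquareP8 {κ Fκ : Type u} [Field κ] [Fintype κ] [Field Fκ] [Algebra κ Fκ]
    [Algebra.IsAlgebraic κ Fκ] [IsAlgClosed Fκ] (h2 : (2 : κ) ≠ 0) {g D : κ[X]}
    (hdeg : g.natDegree = 3) {n : ℕ} (hD : D ∈ family g n) (hexc : D ∉ exceptional g n)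
    {α : Fκ} (hα : aeval α D = 0) :
    ∃ i : ℕ, 0 < i ∧ i < n ∧ ∀ y : Fκ, y ^ (Fintype.card κ ^ n) = y →
      y ^ 2 ≠ ∏ c ∈ fix8 κ Fκ i, ((α - c) * (α - aeval c g)) := by
  obtain ⟨hm, hdD, hirr⟩ := hD
  have hex : ¬ ∀ (K : Type) [Field K] [Fintype K] [Algebra κ K], Module.finrank κ K < n →
    ∃ a : κ, algebraMap κ K (a ^ 2) = ∏ c : K, aeval c D * aeval c (D.comp g) :=
    fun h => hexc ⟨⟨hm, hdD, hirr⟩, h⟩
  push Not at hex
  obtain ⟨K, iK, iF, iA, hK, hns⟩ := hex
  have hfin : Module.Finite κ K := Module.Finite.of_finite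
  have hi : 0 < Module.finrank κ K := Module.finrank_pos
  have hDirr : Irreducible D := irreducible_of_comp hdeg hirr
  refine ⟨_, hi, hK, ?_⟩
  intro y hy hy2
  obtain ⟨a, ha⟩ := (nonsquare_iff8 h2 (g := g) hm hDirr hdD hα (K := K)
    (prod8_ne_zero hm hDirr hdD hα hi hK)).mp ⟨y, hy, hy2⟩
  exact hns a ha

/-- **No Tate classes over the whole tower**, from the reduction. -/
theorem noTower_of_spec_unitP8 {R κ : Type u} [CommRing R] [IsDomain R] [IsIntegrallyClosed R]
    [Field κ] [Fintype κ] (h2 : (2 : κ) ≠ 0) {π : R →+* κ} (hπ : Function.Surjective π)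
    {g D : R[X]} (hg : g.Monic) (hdeg : g.natDegree = 3) (hDu : IsUnit D.leadingCoeff) {j : ℕ}
    (hD : D.natDegree = 3 ^ j) (hfam : D.map π ∈ family (g.map π) (3 ^ j))
    (hexc : D.map π ∉ exceptional (g.map π) (3 ^ j))
    (K F L Ω : Type u) [Field K] [Algebra R K] [IsFractionRing R K] [Field F] [Algebra K F]
    [IsAlgClosure K F] [Field L] [Algebra F[X] L] [IsFractionRing F[X] L] [Field Ω] [Algebra L Ω]
    [IsSepClosure L Ω] (k' : IntermediateField K F) [FiniteDimensional K k'] (r : ℕ) (s : Ω)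
    (hs : s ^ 2 ^ r = base K F L Ω (D.map (algebraMap R K))) :
    NoTateClassOver K F L (g.map (algebraMap R K)) (D.map (algebraMap R K)) (cover k' F L s) := by
  haveI hF : IsAlgClosed F := IsAlgClosure.isAlgClosed K
  haveI hkF : Algebra.IsAlgebraic K F := IsAlgClosure.isAlgebraic
  letI : Algebra R F := ((algebraMap K F).comp (algebraMap R K)).toAlgebra
  haveI : IsScalarTower R K F := IsScalarTower.of_algebraMap_eq fun _ => rfl
  have hgd : (g.map π).natDegree = 3 := by rw [hg.natDegree_map, hdeg]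
  have hn0 : 0 < 3 ^ j := by positivity
  obtain ⟨α', hα'⟩ : ∃ α' : AlgebraicClosure κ, aeval α' (D.map π) = 0 := by
    apply IsAlgClosed.exists_aeval_eq_zero
    rw [degree_eq_natDegree hfam.1.ne_zero, hfam.2.1]
    exact_mod_cast hn0.ne'
  obtain ⟨i, hi0, hin, hns⟩ := exists_nonsquareP8 h2 hgd hfam hexc hα'
  obtain ⟨φ, β, h1, h3, h4, u, hu, h5⟩ := exists_phi_spec14 (K := K) (F := F) hπ h2 hg hdeg hDu hD
    hfam.2.2 hα' hi0 hin hns
  have hmap : (D.map (algebraMap R K)).comp (g.map (algebraMap R K)) =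
      (D.comp g).map (algebraMap R K) := (Polynomial.map_comp _ _ _).symm
  have hroot : ∀ γ : F, aeval γ ((D.map (algebraMap R K)).comp (g.map (algebraMap R K))) =
      aeval γ (D.comp g) := by
    intro γ
    rw [hmap, aeval_map_algebraMap]
  have ho : OrbP8 φ (g.map (algebraMap R K)) (D.map (algebraMap R K)) (3 ^ j)
      (aeval β (g.map (algebraMap R K))) β := by
    refine ⟨hg.map _, by rw [hg.natDegree_map, hdeg], hn0, ?_, rfl, ?_, ?_, h4⟩
    · rw [natDegree_map_eq_of_injective (IsFractionRing.injective R K), hD]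
    · rw [← aeval_comp, hroot, h1]
    · intro γ hγ
      rw [hroot] at hγ
      obtain ⟨i, hi⟩ := h3 γ hγ
      exact ⟨i, hi.symm⟩
  have h2K : (2 : K) ≠ 0 := by
    intro h0
    have h6 : (2 : R) = 0 := by
      apply IsFractionRing.injective R K
      rw [map_ofNat, map_zero, h0]
    apply h2
    have := congrArg π h6
    rwa [map_ofNat, map_zero] at this
  exact noTower_of_movesP8 K F L Ω h2K ho hu h5 (vanP8_of h2K ho hu h5) k' r s hs

end Pool.Agent.Lib.MP_89bcae_ag

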