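import Mathlib
import Pool.Agent.Lib.MP_89bcae_ag.SpecEndP8

/-!
# The theorem over the fields of fractions of normal domains with a finite residue field: end
-/

open Polynomial WeierstrassCurve WeierstrassCurve.Affine IsDedekindDomain

namespace Pool.Agent.Lib.MP_89bcae_ag

universe u

set_option linter.unusedSectionVars false
set_option linter.style.haveILetI false

/-- **No Tate classes over the whole tower**, from the reduction modulo a maximal ideal. -/
theorem noTower_of_specP8 {R κ : Type u} [CommRing R] [IsDomain R] [IsIntegrallyClosed R]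
    [Field κ] [Fintype κ] (h2 : (2 : κ) ≠ 0) {π : R →+* κ} (hπ : Function.Surjective π)
    {g D : R[X]} (hg : g.Monic) (hdeg : g.natDegree = 3) {j : ℕ}
    (hD : D.natDegree = 3 ^ j) (hfam : D.map π ∈ family (g.map π) (3 ^ j))
    (hexc : D.map π ∉ exceptional (g.map π) (3 ^ j))
    (K F L Ω : Type u) [Field K] [Algebra R K] [IsFractionRing R K] [Field F] [Algebra K F]
    [IsAlgClosure K F] [Field L] [Algebra F[X] L] [IsFractionRing F[X] L] [Field Ω] [Algebra L Ω]
    [IsSepClosure L Ω] (k' : IntermediateField K F) [FiniteDimensional K k'] (r : ℕ) (s : Ω)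
    (hs : s ^ 2 ^ r = base K F L Ω (D.map (algebraMap R K))) :
    NoTateClassOver K F L (g.map (algebraMap R K)) (D.map (algebraMap R K)) (cover k' F L s) := by
  let p : Ideal R := RingHom.ker π
  have hp : p.IsPrime := RingHom.ker_isPrime π
  let S := Localization.AtPrime p
  have hM : p.primeCompl ≤ nonZeroDivisors R := p.primeCompl_le_nonZeroDivisors
  haveI : IsDomain S := IsLocalization.isDomain_localization hM
  haveI : IsIntegrallyClosed S := isIntegrallyClosed_of_isLocalization S p.primeCompl hM
  have hK : ∀ y : p.primeCompl, IsUnit (algebraMap R K y) := by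
    intro y
    rw [isUnit_iff_ne_zero]
    intro h0
    have h1 : (y : R) = 0 := IsFractionRing.injective R K (h0.trans (map_zero _).symm)
    exact y.2 (by rw [h1]; exact p.zero_mem)
  let iK : S →+* K := IsLocalization.lift (M := p.primeCompl) hK
  have hiK : ∀ x : R, iK (algebraMap R S x) = algebraMap R K x := fun x =>
    IsLocalization.lift_eq hK x
  letI : Algebra S K := iK.toAlgebra
  haveI : IsScalarTower R S K := IsScalarTower.of_algebraMap_eq fun x => (hiK x).symm
  haveI : IsFractionRing S K :=
    IsFractionRing.isFractionRing_of_isDomain_of_isLocalization p.primeCompl S K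
  have hκ : ∀ y : p.primeCompl, IsUnit (π y) := by
    intro y
    rw [isUnit_iff_ne_zero]
    exact fun h0 => y.2 h0
  let πS : S →+* κ := IsLocalization.lift (M := p.primeCompl) hκ
  have hπS : ∀ x : R, πS (algebraMap R S x) = π x := fun x => IsLocalization.lift_eq hκ x
  have hsurj : Function.Surjective πS := by
    intro y
    obtain ⟨x, rfl⟩ := hπ y
    exact ⟨algebraMap R S x, hπS x⟩
  have hcompκ : πS.comp (algebraMap R S) = π := RingHom.ext hπS
  have hcompK : (algebraMap S K).comp (algebraMap R S) = algebraMap R K := RingHom.ext hiK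
  have hinj : Function.Injective (algebraMap R S) := IsLocalization.injective S hM
  have hlc : π D.leadingCoeff ≠ 0 := by
    intro h0
    have h1 : (D.map π).natDegree < 3 ^ j := by
      rw [← hD]
      apply natDegree_map_lt' h0
      rw [hD]
      positivity
    rw [hfam.2.1] at h1
    exact lt_irrefl _ h1
  have hDu : IsUnit (D.map (algebraMap R S)).leadingCoeff := by
    rw [leadingCoeff_map_of_injective hinj]
    exact IsLocalization.map_units S (⟨D.leadingCoeff, hlc⟩ : p.primeCompl)
  have hg' : (g.map (algebraMap R S)).map πS = g.map π := by rw [Polynomial.map_map, hcompκ]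
  have hD' : (D.map (algebraMap R S)).map πS = D.map π := by rw [Polynomial.map_map, hcompκ]
  have hgK : (g.map (algebraMap R S)).map (algebraMap S K) = g.map (algebraMap R K) := by
    rw [Polynomial.map_map, hcompK]
  have hDK : (D.map (algebraMap R S)).map (algebraMap S K) = D.map (algebraMap R K) := by
    rw [Polynomial.map_map, hcompK]
  have h := noTower_of_spec_unitP8 h2 hsurj (g := g.map (algebraMap R S))
    (D := D.map (algebraMap R S)) (hg.map _) (by rw [hg.natDegree_map, hdeg]) hDu
    (by rw [natDegree_map_eq_of_injective hinj, hD]) (by rw [hg', hD']; exact hfam)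
    (by rw [hg', hD']; exact hexc) K F L Ω k' r s (by rw [hDK]; exact hs)
  rw [hgK, hDK] at h
  exact h

end Pool.Agent.Lib.MP_89bcae_ag
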