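import Mathlib
import Pool.Agent.Lib.MP_89bcae_ag.SpecFinP8

/-!
# The final theorem over the fields of fractions of normal domains
-/

open Polynomial WeierstrassCurve WeierstrassCurve.Affine IsDedekindDomain

namespace Pool.Agent.Lib.MP_89bcae_ag

universe u

/-- **The final theorem.** -/
theorem towerAllP8 (κ : Type u) [Field κ] [Fintype κ] (h2 : (2 : κ) ≠ 0) (g₀ : κ[X])
    (hg₀ : g₀.Monic) (hdeg : g₀.natDegree = 3)
    (hinj : ¬ Function.Injective fun x : κ => g₀.eval x) (j : ℕ) (hj : j ≠ 0) :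
    (∀ D₀ ∈ family g₀ (3 ^ j), D₀ ∉ exceptional g₀ (3 ^ j) →
      ∀ (R : Type u) [CommRing R] [IsDomain R] [IsIntegrallyClosed R] (π : R →+* κ),
        Function.Surjective π → ∀ g D : R[X], g.Monic → g.map π = g₀ → D.natDegree = 3 ^ j →
        D.map π = D₀ →
      ∀ (k F L Ω : Type u) [Field k] [Algebra R k] [IsFractionRing R k] [Field F] [Algebra k F]
        [IsAlgClosure k F] [Field L] [Algebra F[X] L] [IsFractionRing F[X] L] [Field Ω]
        [Algebra L Ω] [IsSepClosure L Ω]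
        (k' : IntermediateField k F) (_ : FiniteDimensional k k') (r : ℕ) (s : Ω),
        s ^ 2 ^ r = base k F L Ω (D.map (algebraMap R k)) →
          NoTateClassOver k F L (g.map (algebraMap R k)) (D.map (algebraMap R k))
            (cover k' F L s)) ∧
    ((exceptional g₀ (3 ^ j)).ncard : ℝ) ≤
      200 * (Fintype.card κ : ℝ) ^ 2 * 2 ^ (-(3 ^ j : ℝ) / 5) * (family g₀ (3 ^ j)).ncard ∧
    (Fintype.card κ : ℝ) ^ (3 ^ j) ≤ 10 * 3 ^ j * (family g₀ (3 ^ j)).ncard := by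
  refine ⟨?_, ?_⟩
  · intro D₀ hD₀ hexc R _ _ _ π hπ g D hg hgπ hDn hDπ k F L Ω _ _ _ _ _ _ _ _ _ _ _ _ k' _ r s hs
    subst hgπ hDπ
    have hgd : g.natDegree = 3 := by rw [← hg.natDegree_map π, hdeg]
    exact noTower_of_specP8 h2 hπ hg hgd hDn hD₀ hexc k F L Ω k' r s hs
  · exact (towerExc8 κ (AlgebraicClosure κ) (RatFunc (AlgebraicClosure κ))
      (SeparableClosure (RatFunc (AlgebraicClosure κ))) h2 g₀ hg₀ hdeg hinj j hj).2

end Pool.Agent.Lib.MP_89bcae_ag
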