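import Mathlib
import Pool.Agent.Lib.MP_89bcae_ag.Defs8

/-!
# Invariant classes in the `ℓ`-adic Selmer group of the Jacobian of `D(t) y ^ ℓ = g(x) - t`

`k` is a field, `F` an algebraic closure of `k`, `L` the field of rational functions `F(t)` and `Ω`
an algebraic closure of `L`.
-/

open Polynomial IsDedekindDomain

open scoped Classical

namespace Pool.Agent.Lib.MP_89bcae_ag.Superelliptic

universe u

/-- The coordinate ring `A[x, y] / (y ^ ℓ - f(x))` of the affine curve `y ^ ℓ = f(x)`. -/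
def CoordRing (ℓ : ℕ) {A : Type u} [Field A] (f : A[X]) : Type u :=
  AdjoinRoot (X ^ ℓ - C f : A[X][X])

noncomputable instance (ℓ : ℕ) {A : Type u} [Field A] (f : A[X]) : CommRing (CoordRing ℓ f) :=
  AdjoinRoot.instCommRing (X ^ ℓ - C f : A[X][X])

/-- The Picard group of the affine curve `y ^ ℓ = f(x)`, written additively. If `f` is separable of
degree prime to `ℓ` and `A` is an algebraically closed field in which `ℓ ≠ 0`, then the smooth
projective model of the curve has one point at infinity and this is its group of divisor classes of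
degree zero, the group of points over `A` of the Jacobian variety. -/
def Jacobian (ℓ : ℕ) {A : Type u} [Field A] (f : A[X]) : Type u :=
  Additive (CommRing.Pic (CoordRing ℓ f))

noncomputable instance (ℓ : ℕ) {A : Type u} [Field A] (f : A[X]) : AddCommGroup (Jacobian ℓ f) :=
  @Additive.addCommGroup (CommRing.Pic (CoordRing ℓ f)) _

/-- The homomorphism of coordinate rings induced by a homomorphism `σ` of fields which maps the
coefficients of `f` to those of `f'`: `x ↦ x`, `y ↦ y`. -/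
noncomputable def coordHom (ℓ : ℕ) {A B : Type u} [Field A] [Field B] (σ : A →+* B) {f : A[X]}
    {f' : B[X]} (h : f.map σ = f') : CoordRing ℓ f →+* CoordRing ℓ f' :=
  AdjoinRoot.map (mapRingHom σ) (X ^ ℓ - C f) (X ^ ℓ - C f') (by
    rw [← h, Polynomial.map_sub, Polynomial.map_pow, Polynomial.map_X, Polynomial.map_C,
      coe_mapRingHom])

/-- The map of Jacobians induced by a homomorphism `σ` of fields which maps the coefficients of `f`
to those of `f'`. -/
noncomputable def jacMap (ℓ : ℕ) {A B : Type u} [Field A] [Field B] (σ : A →+* B) {f : A[X]}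
    {f' : B[X]} (h : f.map σ = f') (P : Jacobian ℓ f) : Jacobian ℓ f' :=
  Additive.ofMul (CommRing.Pic.mapRingHom (coordHom ℓ σ h) (Additive.toMul P))

section

variable {L : Type u} [Field L]

/-- The points of the Jacobian of `y ^ ℓ = f(x)` over an extension `A` of the field `L` of the
coefficients of `f`. -/
abbrev JacOver (ℓ : ℕ) (f : L[X]) (A : Type u) [Field A] [Algebra L A] : Type u :=
  Jacobian ℓ (f.map (algebraMap L A))

/-- The action of a homomorphism of extensions of `L` on the points of the Jacobian. -/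
noncomputable def push (ℓ : ℕ) (f : L[X]) {A B : Type u} [Field A] [Field B] [Algebra L A]
    [Algebra L B] (σ : A →ₐ[L] B) (P : JacOver ℓ f A) : JacOver ℓ f B :=
  jacMap ℓ (σ : A →+* B) (by rw [Polynomial.map_map, AlgHom.comp_algebraMap]) P

variable {Ω : Type u} [Field Ω] [Algebra L Ω]

/-- `c` is a continuous `1`-cocycle of `Aut(Ω/L)` with values in the `ℓ`-adic Tate module of the
Jacobian of `y ^ ℓ = f(x)`; its component `c n` has values in the points of order dividing
`ℓ ^ n`. -/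
structure IsTateCocycle (ℓ : ℕ) (f : L[X]) (c : ℕ → (Ω ≃ₐ[L] Ω) → JacOver ℓ f Ω) : Prop where
  zero : ∀ σ, c 0 σ = 0
  smul : ∀ n σ, ℓ • c (n + 1) σ = c n σ
  cocycle : ∀ n (σ τ : Ω ≃ₐ[L] Ω), c n (σ * τ) = c n σ + push ℓ f (σ : Ω →ₐ[L] Ω) (c n τ)
  locallyConstant : ∀ n, IsLocallyConstant (c n)

/-- The class of the cocycle `c` in `H¹(Lv, J)` is trivial, where `Lv` is a field containing `L`:
for every algebraic closure `M` of `Lv` and every embedding `j` of `Ω` in `M` over `L`, there is a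
point `Q` of `J(M)` with `j(c(g|_Ω)) = g(Q) - Q` for all `g` in `Aut(M/Lv)`. -/
def IsLocallyTrivial (ℓ : ℕ) (f : L[X]) (c : (Ω ≃ₐ[L] Ω) → JacOver ℓ f Ω)
    (Lv : Type u) [Field Lv] [Algebra L Lv] : Prop :=
  ∀ (M : Type u) [Field M] [Algebra Lv M] [IsAlgClosure Lv M] [Algebra L M] [IsScalarTower L Lv M]
    (j : Ω →ₐ[L] M), ∃ Q : JacOver ℓ f M, ∀ (g : M ≃ₐ[Lv] M) (g' : Ω ≃ₐ[L] Ω),
      (∀ x, j (g' x) = g (j x)) →
        push ℓ f j (c g') = push ℓ f (g.restrictScalars L : M →ₐ[L] M) Q - Q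

/-- The class of the cocycle `c` in `H¹(L, T_ℓ J)` is fixed, up to torsion, by the automorphism `γ`
of `Ω` (which fixes the coefficients of `f`): some positive multiple `m (γ c - c)` is at every level
a coboundary. Here `(γ c)(h) = γ (c (γ⁻¹ h γ))`. -/
def IsFixedBy (ℓ : ℕ) (f : L[X]) (c : ℕ → (Ω ≃ₐ[L] Ω) → JacOver ℓ f Ω) (γ : Ω ≃+* Ω)
    (hγ : (f.map (algebraMap L Ω)).map (γ : Ω →+* Ω) = f.map (algebraMap L Ω)) : Prop :=
  ∃ m : ℕ, 0 < m ∧ ∀ n, ∃ A : JacOver ℓ f Ω, ℓ ^ n • A = 0 ∧
    ∀ g h : Ω ≃ₐ[L] Ω, (∀ x, γ (g x) = h (γ x)) →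
      m • (jacMap ℓ (γ : Ω →+* Ω) hγ (c n g) - c n h) = push ℓ f (h : Ω →ₐ[L] Ω) A - A

/-- The class of the cocycle `c` vanishes: at every level `n`, it is the coboundary of a point of
order dividing `ℓ ^ n`. -/
def IsTrivial (ℓ : ℕ) (f : L[X]) (c : ℕ → (Ω ≃ₐ[L] Ω) → JacOver ℓ f Ω) : Prop :=
  ∀ n, ∃ A : JacOver ℓ f Ω, ℓ ^ n • A = 0 ∧ ∀ g : Ω ≃ₐ[L] Ω,
    c n g = push ℓ f (g : Ω →ₐ[L] Ω) A - A

end

/-- The polynomial `D(t)⁻¹ (g(x) - t)` in `x` over the field `L = F(t)`. -/
noncomputable def curvePoly (k F L : Type u) [Field k] [Field F] [Algebra k F] [Field L]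
    [Algebra F[X] L] (g D : k[X]) : L[X] :=
  C ((base k F L L D)⁻¹) * (g.map ((base k F L L).comp C) - C (base k F L L X))

/-- Let `k'` be an extension of `k` in `F`. Every class of the `ℓ`-adic Selmer group over `L = F(t)`
of the Jacobian of the curve `D(t) y ^ ℓ = g(x) - t` (a class in `H¹(L, T_ℓ J)` which is locally
trivial at all finite places, at all levels) fixed, up to torsion, by the automorphisms of `Ω` over
`k'(t)` vanishes. -/
def NoTateClass (ℓ : ℕ) {k F : Type u} (L Ω : Type u) [Field k] [Field F] [Algebra k F] [Field L]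
    [Algebra F[X] L] [IsFractionRing F[X] L] [Field Ω] [Algebra L Ω] (g D : k[X])
    (k' : IntermediateField k F) : Prop :=
  ∀ c : ℕ → (Ω ≃ₐ[L] Ω) → JacOver ℓ (curvePoly k F L g D) Ω,
    IsTateCocycle ℓ (curvePoly k F L g D) c →
    (∀ (v : HeightOneSpectrum F[X]) (n : ℕ),
      IsLocallyTrivial ℓ (curvePoly k F L g D) (c n) (v.adicCompletion L)) →
    (∀ (γ : Ω ≃+* Ω) hγ, (∀ p : k'[X], γ (base k' F L Ω p) = base k' F L Ω p) →
      IsFixedBy ℓ (curvePoly k F L g D) c γ hγ) →
    IsTrivial ℓ (curvePoly k F L g D) c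

/-- The roots in `F` of the polynomial `D(g(x))`. -/
def roots (k F : Type u) [Field k] [Field F] [Algebra k F] (g D : k[X]) : Set F :=
  {β | aeval (aeval β g) D = 0}

/-- The arithmetic condition on the differences of the roots of `D(g(x))`: let `K` be the field
generated by the set `R` of these roots over `k`. There are no function `e : R → ℤ`, not divisible
by `ℓ`, with sum divisible by `ℓ` over each fibre of `g` in `R`, and `κ ≠ 0` in `K` such that
`κ ^ e(β) ∏ (β - β') ^ (e(β) - e(β'))`, where `β'` runs through the elements of `R` with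
`g(β') ≠ g(β)`, is the `ℓ`-th power of an element of `K` for all `β` in `R`. -/
def IsIndependent (ℓ : ℕ) (k F : Type u) [Field k] [Field F] [Algebra k F] (g D : k[X]) : Prop :=
  ∀ (e : F → ℤ) (κ : F), κ ≠ 0 → κ ∈ IntermediateField.adjoin k (roots k F g D) →
    (∀ β ∈ roots k F g D,
      (ℓ : ℤ) ∣ ∑ᶠ β' ∈ {β' : F | aeval β' g = aeval β g}, e β') →
    (∀ β ∈ roots k F g D, ∃ w ∈ IntermediateField.adjoin k (roots k F g D),
      w ^ ℓ = κ ^ e β *
        ∏ᶠ β' ∈ {β' ∈ roots k F g D | aeval β' g ≠ aeval β g}, (β - β') ^ (e β - e β')) →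
    ∀ β ∈ roots k F g D, (ℓ : ℤ) ∣ e β

end Pool.Agent.Lib.MP_89bcae_ag.Superelliptic
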