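import Mathlib
import Pool.Agent.Lib.MP_89bcae_ag.DefsSup

/-!
# Change of the base field in the statement on invariant classes
-/

open Polynomial IsDedekindDomain

open scoped Classical

set_option linter.unusedSimpArgs false
set_option linter.unusedVariables false
set_option linter.unusedSectionVars false
set_option linter.style.haveILetI false

namespace Pool.Agent.Lib.MP_89bcae_ag.Superelliptic

universe u

/-- The statement for a polynomial `f` and a set of automorphisms. -/
def NT8 (ℓ : ℕ) {F : Type u} (L Ω : Type u) [Field F] [Field L] [Algebra F[X] L]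
    [IsFractionRing F[X] L] [Field Ω] [Algebra L Ω] (f : L[X]) (Γ : Set (Ω ≃+* Ω)) : Prop :=
  ∀ c : ℕ → (Ω ≃ₐ[L] Ω) → JacOver ℓ f Ω,
    IsTateCocycle ℓ f c →
    (∀ (v : HeightOneSpectrum F[X]) (n : ℕ), IsLocallyTrivial ℓ f (c n) (v.adicCompletion L)) →
    (∀ (γ : Ω ≃+* Ω) hγ, γ ∈ Γ → IsFixedBy ℓ f c γ hγ) →
    IsTrivial ℓ f c

theorem NT8.mono {ℓ : ℕ} {F L Ω : Type u} [Field F] [Field L] [Algebra F[X] L]
    [IsFractionRing F[X] L] [Field Ω] [Algebra L Ω] {f : L[X]} {Γ Γ' : Set (Ω ≃+* Ω)}
    (h : NT8 (F := F) ℓ L Ω f Γ) (hle : Γ ⊆ Γ') : NT8 (F := F) ℓ L Ω f Γ' :=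
  fun c hc hloc hfix => h c hc hloc fun γ hγ hγΓ => hfix γ hγ (hle hγΓ)

theorem noTateClass_iff8 {ℓ : ℕ} {k F L Ω : Type u} [Field k] [Field F] [Algebra k F] [Field L]
    [Algebra F[X] L] [IsFractionRing F[X] L] [Field Ω] [Algebra L Ω] {g D : k[X]}
    {k' : IntermediateField k F} : NoTateClass ℓ L Ω g D k' ↔
      NT8 (F := F) ℓ L Ω (curvePoly k F L g D)
        {γ | ∀ p : k'[X], γ (base k' F L Ω p) = base k' F L Ω p} := Iff.rfl

variable {k K F L Ω : Type u} [Field k] [Field K] [Field F] [Algebra k K] [Algebra K F]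
  [Algebra k F] [IsScalarTower k K F] [Field L] [Algebra F[X] L] [IsFractionRing F[X] L] [Field Ω]
  [Algebra L Ω]

lemma base_map8 {A : Type u} [Field A] [Algebra L A] (p : k[X]) :
    base K F L A (p.map (algebraMap k K)) = base k F L A p := by
  show algebraMap L A (algebraMap F[X] L ((p.map (algebraMap k K)).map (algebraMap K F))) =
    algebraMap L A (algebraMap F[X] L (p.map (algebraMap k F)))
  rw [Polynomial.map_map, ← IsScalarTower.algebraMap_eq]

lemma curvePoly_map8 (g D : k[X]) : curvePoly K F L (g.map (algebraMap k K))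
    (D.map (algebraMap k K)) = curvePoly k F L g D := by
  have h1 : ∀ p : k[X], base K F L L (p.map (algebraMap k K)) = base k F L L p := fun p =>
    base_map8 p
  have h2 : base K F L L X = base k F L L X := by
    have h3 := h1 X
    rwa [map_X] at h3
  have h4 : ((base K F L L).comp C).comp (algebraMap k K) = (base k F L L).comp C := by
    ext x
    have h5 := h1 (C x)
    rw [map_C] at h5
    exact h5
  unfold curvePoly
  rw [h1, Polynomial.map_map, h4, h2]

/-- Change of the base field. -/
theorem noTateClass_base8 {ℓ : ℕ} {g D : k[X]} {k' : IntermediateField k F}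
    {K' : IntermediateField K F} (hle : ∀ x ∈ k', x ∈ K')
    (h : NoTateClass ℓ L Ω (g.map (algebraMap k K)) (D.map (algebraMap k K)) K') :
    NoTateClass ℓ L Ω g D k' := by
  rw [noTateClass_iff8, curvePoly_map8] at h
  rw [noTateClass_iff8]
  refine h.mono ?_
  intro γ hγ p
  let i : k' →+* K' := (algebraMap k' F).codRestrict K'.toSubalgebra.toSubring fun x => hle x x.2
  have h1 : ∀ p : k'[X], base K' F L Ω (p.map i) = base k' F L Ω p := by
    intro p
    show algebraMap L Ω (algebraMap F[X] L ((p.map i).map (algebraMap K' F))) =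
      algebraMap L Ω (algebraMap F[X] L (p.map (algebraMap k' F)))
    rw [Polynomial.map_map]
    rfl
  rw [← h1]
  exact hγ _

/-- Every finite extension of `k` is contained in a finite extension of `K`. -/
theorem exists_finite8 [Algebra.IsAlgebraic K F] (k' : IntermediateField k F)
    [FiniteDimensional k k'] :
    ∃ K' : IntermediateField K F, FiniteDimensional K K' ∧ ∀ x ∈ k', x ∈ K' := by
  let b := Module.finBasis k k'
  refine ⟨IntermediateField.adjoin K (Set.range fun i => ((b i : k') : F)),
    IntermediateField.finiteDimensional_adjoin fun x _ => Algebra.IsIntegral.isIntegral x,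
    fun x hx => ?_⟩
  have h1 := congrArg (Subtype.val : k' → F) (b.sum_repr ⟨x, hx⟩)
  have h2 : ((∑ i, b.repr ⟨x, hx⟩ i • b i : k') : F) =
      ∑ i, algebraMap K F (algebraMap k K (b.repr ⟨x, hx⟩ i)) * ((b i : k') : F) := by
    rw [AddSubmonoidClass.coe_finsetSum]
    refine Finset.sum_congr rfl fun i _ => ?_
    rw [← IsScalarTower.algebraMap_apply, ← Algebra.smul_def]
    rfl
  rw [h2] at h1
  have h3 : x = ∑ i, algebraMap K F (algebraMap k K (b.repr ⟨x, hx⟩ i)) * ((b i : k') : F) :=
    h1.symm
  rw [h3]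
  exact sum_mem fun i _ => mul_mem (IntermediateField.algebraMap_mem _ _)
    (IntermediateField.subset_adjoin K _ ⟨i, rfl⟩)

end Pool.Agent.Lib.MP_89bcae_ag.Superelliptic
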