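import Mathlib

/-!
# Families of lines of the projective plane with integral coefficients
-/

open Polynomial

namespace Pool.Agent.Lib.MP_89bcae_ag.Superelliptic

/-- For a family `v` of lines `v(i, 0) X + v(i, 1) Y + v(i, 2) Z = 0` of the projective plane: the
coefficients of the line `i` in the coordinates `x`, `t`, `z` with `(X, Y, Z) = g (x, t, z)`. -/
noncomputable def lineCoeff {ι : Type} (v : ι × Fin 3 → ℤ) (g : Matrix (Fin 3) (Fin 3) ℚ) (i : ι)
    (j : Fin 3) : ℚ :=
  ∑ l, (v (i, l) : ℚ) * g l j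

/-- `x`, `t` (with `z = 1`) are affine coordinates of the plane such that the line `i₀` is the line at
infinity `z = 0`, and the lines `i` in `I` are not of the form `t = constant`. -/
structure IsChart {ι : Type} (v : ι × Fin 3 → ℤ) (g : Matrix (Fin 3) (Fin 3) ℚ) (i₀ : ι)
    (I : Finset ι) : Prop where
  det_ne_zero : g.det ≠ 0
  at_infinity : lineCoeff v g i₀ 0 = 0 ∧ lineCoeff v g i₀ 1 = 0
  ne_zero : ∀ i ∈ I, lineCoeff v g i 0 ≠ 0

/-- The polynomial `α` such that the line `i` is `x = α(t)`. -/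
noncomputable def linePoly {ι : Type} (v : ι × Fin 3 → ℤ) (g : Matrix (Fin 3) (Fin 3) ℚ) (i : ι) :
    ℚ[X] :=
  C (-(lineCoeff v g i 2 / lineCoeff v g i 0)) + C (-(lineCoeff v g i 1 / lineCoeff v g i 0)) * X

end Pool.Agent.Lib.MP_89bcae_ag.Superelliptic
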