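import Mathlib
import Pool.Agent.Lib.MP_89bcae_ag.Defs8

/-!
# Invariant classes in the `ℓ`-adic Selmer group of the Jacobian of `y ^ ℓ = ∏ (x - α_i(t)) ^ (W_i)`

`k` is a field, `F` an algebraic closure of `k`, `L` the field of rational functions `F(t)` and `Ω`
an algebraic closure of `L`; the `α_i` are polynomials in `k[t]` and the `W_i` natural numbers. The
Jacobian is that of the smooth projective model of the curve.
-/

open Polynomial IsDedekindDomain

open scoped Classical

namespace Pool.Agent.Lib.MP_89bcae_ag.Nrm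

universe u

section Rings

variable (N : ℕ) {A : Type u} [Field A] (f : A[X])

/-- The polynomial `y ^ N - f(x)` in `y` over `A(x)`. -/
noncomputable def eqn : (RatFunc A)[X] :=
  X ^ N - C (algebraMap A[X] (RatFunc A) f)

/-- The ring `A(x)[y] / (y ^ N - f(x))` of the rational functions on the curve `y ^ N = f(x)`. -/
def FunRing : Type u :=
  AdjoinRoot (eqn N f)

noncomputable instance instCommRingFunRing : CommRing (FunRing N f) :=
  AdjoinRoot.instCommRing (eqn N f)

noncomputable instance instAlgebraFunRing : Algebra A[X] (FunRing N f) :=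
  AdjoinRoot.instAlgebra (eqn N f)

/-- The integral closure of `A[x]` in `A(x)[y] / (y ^ N - f(x))`: the coordinate ring of the
normalization of the affine curve `y ^ N = f(x)`. -/
def NRing : Type u :=
  integralClosure A[X] (FunRing N f)

noncomputable instance instCommRingNRing : CommRing (NRing N f) :=
  (integralClosure A[X] (FunRing N f)).toCommRing

/-- The Picard group of the normalization of the affine curve `y ^ N = f(x)`, written additively. If
`A` is algebraically closed, `N ≠ 0` in `A` and the degree of `f` is prime to `N`, then the smooth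
projective model of the curve has one point at infinity, and this is its group of divisor classes of
degree zero, the group of points over `A` of the Jacobian variety. -/
def Jac : Type u :=
  Additive (CommRing.Pic (NRing N f))

noncomputable instance instAddCommGroupJac : AddCommGroup (Jac N f) :=
  @Additive.addCommGroup (CommRing.Pic (NRing N f)) _

end Rings

section Maps

variable (N : ℕ) {A B : Type u} [Field A] [Field B]

/-- The homomorphism `A(x) → B(x)` induced by a homomorphism of fields. -/
noncomputable def ratMap (σ : A →+* B) : RatFunc A →+* RatFunc B :=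
  RatFunc.mapRingHom (mapRingHom σ)
    (nonZeroDivisors_le_comap_nonZeroDivisors_of_injective _ (map_injective σ σ.injective))

lemma ratMap_algebraMap (σ : A →+* B) (p : A[X]) :
    ratMap σ (algebraMap A[X] (RatFunc A) p) = algebraMap B[X] (RatFunc B) (p.map σ) := by
  have h := RatFunc.map_apply_div (mapRingHom σ)
    (nonZeroDivisors_le_comap_nonZeroDivisors_of_injective _ (map_injective σ σ.injective)) p 1
  rw [map_one, div_one, map_one, map_one, div_one] at h
  rw [ratMap, RatFunc.coe_mapRingHom_eq_coe_map]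
  exact h

lemma funMap_dvd (σ : A →+* B) {f : A[X]} {f' : B[X]} (h : f.map σ = f') :
    eqn N f' ∣ (eqn N f).map (ratMap σ) :=
  dvd_of_eq (by
    rw [eqn, eqn, Polynomial.map_sub, Polynomial.map_pow, Polynomial.map_X, Polynomial.map_C,
      ratMap_algebraMap, h])

/-- The homomorphism of the rings of rational functions induced by a homomorphism `σ` of fields
which maps the coefficients of `f` to those of `f'`. -/
noncomputable def funMap (σ : A →+* B) {f : A[X]} {f' : B[X]} (h : f.map σ = f') :
    FunRing N f →+* FunRing N f' :=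
  AdjoinRoot.map (ratMap σ) (eqn N f) (eqn N f') (funMap_dvd N σ h)

lemma funMap_algebraMap (σ : A →+* B) {f : A[X]} {f' : B[X]} (h : f.map σ = f') (p : A[X]) :
    funMap N σ h (algebraMap A[X] (FunRing N f) p) =
      algebraMap B[X] (FunRing N f') (p.map σ) := by
  have h1 : algebraMap A[X] (FunRing N f) p =
      AdjoinRoot.of (eqn N f) (algebraMap A[X] (RatFunc A) p) := rfl
  have h2 : algebraMap B[X] (FunRing N f') (p.map σ) =
      AdjoinRoot.of (eqn N f') (algebraMap B[X] (RatFunc B) (p.map σ)) := rfl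
  rw [h1, h2, ← ratMap_algebraMap]
  exact AdjoinRoot.map_of (ratMap σ) _ _ (funMap_dvd N σ h) _

lemma funMap_isIntegral (σ : A →+* B) {f : A[X]} {f' : B[X]} (h : f.map σ = f')
    (a : FunRing N f) (ha : IsIntegral A[X] a) : IsIntegral B[X] (funMap N σ h a) := by
  obtain ⟨p, hp, hpa⟩ := ha
  refine ⟨p.map (mapRingHom σ), hp.map _, ?_⟩
  rw [Polynomial.eval₂_map, show (algebraMap B[X] (FunRing N f')).comp (mapRingHom σ) =
    (funMap N σ h).comp (algebraMap A[X] (FunRing N f)) from
      RingHom.ext fun q => (funMap_algebraMap N σ h q).symm, ← Polynomial.hom_eval₂, hpa, map_zero]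

/-- The homomorphism of coordinate rings induced by a homomorphism `σ` of fields which maps the
coefficients of `f` to those of `f'`. -/
noncomputable def coordMap (σ : A →+* B) {f : A[X]} {f' : B[X]} (h : f.map σ = f') :
    NRing N f →+* NRing N f' :=
  ((funMap N σ h).comp (integralClosure A[X] (FunRing N f)).val.toRingHom).codRestrict
    (integralClosure B[X] (FunRing N f')) (fun a => funMap_isIntegral N σ h a.1 a.2)

/-- The map of Jacobians induced by a homomorphism `σ` of fields which maps the coefficients of `f`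
to those of `f'`. -/
noncomputable def jacMap (σ : A →+* B) {f : A[X]} {f' : B[X]} (h : f.map σ = f') (P : Jac N f) :
    Jac N f' :=
  Additive.ofMul (CommRing.Pic.mapRingHom (coordMap N σ h) (Additive.toMul P))

end Maps

section

variable {L : Type u} [Field L]

/-- The points of the Jacobian of `y ^ ℓ = f(x)` over an extension `A` of the field `L` of the
coefficients of `f`. -/
abbrev JacOver (ℓ : ℕ) (f : L[X]) (A : Type u) [Field A] [Algebra L A] : Type u :=
  Jac ℓ (f.map (algebraMap L A))

/-- The action of a homomorphism of extensions of `L` on the points of the Jacobian. -/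
noncomputable def push (ℓ : ℕ) (f : L[X]) {A B : Type u} [Field A] [Field B] [Algebra L A]
    [Algebra L B] (σ : A →ₐ[L] B) (P : JacOver ℓ f A) : JacOver ℓ f B :=
  jacMap ℓ (σ : A →+* B) (by rw [Polynomial.map_map, AlgHom.comp_algebraMap]) P

variable {Ω : Type u} [Field Ω] [Algebra L Ω]

/-- `c` is a continuous `1`-cocycle of `Aut(Ω/L)` with values in the `ℓ`-adic Tate module of the
Jacobian of `y ^ ℓ = f(x)`; its component `c n` has values in the points of order dividing
`ℓ ^ n`. -/
structure IsTateCocycle (ℓ : ℕ) (f : L[X]) (c : ℕ → (Ω ≃ₐ[L] Ω) → JacOver ℓ f Ω) : Prop where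
  zero : ∀ σ, c 0 σ = 0
  smul : ∀ n σ, ℓ • c (n + 1) σ = c n σ
  cocycle : ∀ n (σ τ : Ω ≃ₐ[L] Ω), c n (σ * τ) = c n σ + push ℓ f (σ : Ω →ₐ[L] Ω) (c n τ)
  locallyConstant : ∀ n, IsLocallyConstant (c n)

/-- The class of the cocycle `c` in `H¹(Lv, J)` is trivial, where `Lv` is a field containing `L`:
for every algebraic closure `M` of `Lv` and every embedding `j` of `Ω` in `M` over `L`, there is a
point `Q` of `J(M)` with `j(c(g|_Ω)) = g(Q) - Q` for all `g` in `Aut(M/Lv)`. -/
def IsLocallyTrivial (ℓ : ℕ) (f : L[X]) (c : (Ω ≃ₐ[L] Ω) → JacOver ℓ f Ω)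
    (Lv : Type u) [Field Lv] [Algebra L Lv] : Prop :=
  ∀ (M : Type u) [Field M] [Algebra Lv M] [IsAlgClosure Lv M] [Algebra L M] [IsScalarTower L Lv M]
    (j : Ω →ₐ[L] M), ∃ Q : JacOver ℓ f M, ∀ (g : M ≃ₐ[Lv] M) (g' : Ω ≃ₐ[L] Ω),
      (∀ x, j (g' x) = g (j x)) →
        push ℓ f j (c g') = push ℓ f (g.restrictScalars L : M →ₐ[L] M) Q - Q

/-- The class of the cocycle `c` in `H¹(L, T_ℓ J)` is fixed, up to torsion, by the automorphism `γ`
of `Ω` (which fixes the coefficients of `f`): some positive multiple `m (γ c - c)` is at every level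
a coboundary. Here `(γ c)(h) = γ (c (γ⁻¹ h γ))`. -/
def IsFixedBy (ℓ : ℕ) (f : L[X]) (c : ℕ → (Ω ≃ₐ[L] Ω) → JacOver ℓ f Ω) (γ : Ω ≃+* Ω)
    (hγ : (f.map (algebraMap L Ω)).map (γ : Ω →+* Ω) = f.map (algebraMap L Ω)) : Prop :=
  ∃ m : ℕ, 0 < m ∧ ∀ n, ∃ A : JacOver ℓ f Ω, ℓ ^ n • A = 0 ∧
    ∀ g h : Ω ≃ₐ[L] Ω, (∀ x, γ (g x) = h (γ x)) →
      m • (jacMap ℓ (γ : Ω →+* Ω) hγ (c n g) - c n h) = push ℓ f (h : Ω →ₐ[L] Ω) A - A

/-- The class of the cocycle `c` vanishes: at every level `n`, it is the coboundary of a point of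
order dividing `ℓ ^ n`. -/
def IsTrivial (ℓ : ℕ) (f : L[X]) (c : ℕ → (Ω ≃ₐ[L] Ω) → JacOver ℓ f Ω) : Prop :=
  ∀ n, ∃ A : JacOver ℓ f Ω, ℓ ^ n • A = 0 ∧ ∀ g : Ω ≃ₐ[L] Ω,
    c n g = push ℓ f (g : Ω →ₐ[L] Ω) A - A

end

section Arrangement

variable (k F L : Type u) [Field k] [Field F] [Algebra k F] [Field L] [Algebra F[X] L]

/-- The polynomial `∏ (x - α_i(t)) ^ (W_i)` in `x` over the field `L = F(t)`. -/
noncomputable def weightedPoly {ι : Type} [Fintype ι] (W : ι → ℕ) (α : ι → k[X]) : L[X] :=
  ∏ i, (X - C (base k F L L (α i))) ^ W i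

end Arrangement

/-- Let `k'` be an extension of `k` in `F`. Every class of the `ℓ`-adic Selmer group over `L = F(t)`
of the Jacobian of the smooth projective model of the curve `y ^ ℓ = ∏ (x - α_i(t)) ^ (W_i)` (a class
in `H¹(L, T_ℓ J)` which is locally trivial at all finite places, at all levels) fixed, up to torsion,
by the automorphisms of `Ω` over `k'(t)` is a torsion class, and it is even killed by `ℓ`. -/
def TateClassesTorsionW (ℓ : ℕ) {k F : Type u} (L Ω : Type u) [Field k] [Field F] [Algebra k F]
    [Field L] [Algebra F[X] L] [IsFractionRing F[X] L] [Field Ω] [Algebra L Ω] {ι : Type}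
    [Fintype ι] (W : ι → ℕ) (α : ι → k[X]) (k' : IntermediateField k F) : Prop :=
  ∀ c : ℕ → (Ω ≃ₐ[L] Ω) → JacOver ℓ (weightedPoly k F L W α) Ω,
    IsTateCocycle ℓ (weightedPoly k F L W α) c →
    (∀ (v : HeightOneSpectrum F[X]) (n : ℕ),
      IsLocallyTrivial ℓ (weightedPoly k F L W α) (c n) (v.adicCompletion L)) →
    (∀ (γ : Ω ≃+* Ω) hγ, (∀ p : k'[X], γ (base k' F L Ω p) = base k' F L Ω p) →
      IsFixedBy ℓ (weightedPoly k F L W α) c γ hγ) →
    IsTrivial ℓ (weightedPoly k F L W α) fun n g => ℓ • c n g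

end Pool.Agent.Lib.MP_89bcae_ag.Nrm

namespace Pool.Agent.Lib.MP_89bcae_ag.Superelliptic

universe u

/-- The differences `α_i - α_j`, `i < j`, are not constant, and their product is separable: they have
simple roots and no common roots. -/
structure IsArrangement {k : Type u} [Field k] {ι : Type} [Fintype ι] [LinearOrder ι]
    (α : ι → k[X]) : Prop where
  separable : (∏ i, ∏ j ∈ Finset.univ.filter fun j => i < j, (α i - α j)).Separable
  natDegree_ne_zero : ∀ i j, i ≠ j → (α i - α j).natDegree ≠ 0

end Pool.Agent.Lib.MP_89bcae_ag.Superelliptic
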