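import Mathlib
import Pool.Agent.Lib.MP_89bcae_ag.DefsSup
import Pool.Agent.Lib.MP_89bcae_ag.DefsW45

/-!
# Invariant classes in the `ℓ`-adic Selmer group of the Jacobian of `y ^ ℓ = ∏ (x - α_i(t))`

`k` is a field, `F` an algebraic closure of `k`, `L` the field of rational functions `F(t)` and `Ω`
an algebraic closure of `L`; the `α_i` are polynomials in `k[t]`.
-/

open Polynomial IsDedekindDomain

open scoped Classical

namespace Pool.Agent.Lib.MP_89bcae_ag.Superelliptic

universe u

/-- The polynomial `∏ (x - α_i(t))` in `x` over the field `L = F(t)`. -/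
noncomputable def arrangementPoly (k F L : Type u) [Field k] [Field F] [Algebra k F] [Field L]
    [Algebra F[X] L] {ι : Type} [Fintype ι] (α : ι → k[X]) : L[X] :=
  ∏ i, (X - C (base k F L L (α i)))

/-- Let `k'` be an extension of `k` in `F`. Every class of the `ℓ`-adic Selmer group over `L = F(t)`
of the Jacobian of the curve `y ^ ℓ = ∏ (x - α_i(t))` (a class in `H¹(L, T_ℓ J)` which is locally
trivial at all finite places, at all levels) fixed, up to torsion, by the automorphisms of `Ω` over
`k'(t)` is a torsion class, and it is even killed by `ℓ`. -/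
def TateClassesTorsion (ℓ : ℕ) {k F : Type u} (L Ω : Type u) [Field k] [Field F] [Algebra k F]
    [Field L] [Algebra F[X] L] [IsFractionRing F[X] L] [Field Ω] [Algebra L Ω] {ι : Type}
    [Fintype ι] (α : ι → k[X]) (k' : IntermediateField k F) : Prop :=
  ∀ c : ℕ → (Ω ≃ₐ[L] Ω) → JacOver ℓ (arrangementPoly k F L α) Ω,
    IsTateCocycle ℓ (arrangementPoly k F L α) c →
    (∀ (v : HeightOneSpectrum F[X]) (n : ℕ),
      IsLocallyTrivial ℓ (arrangementPoly k F L α) (c n) (v.adicCompletion L)) →
    (∀ (γ : Ω ≃+* Ω) hγ, (∀ p : k'[X], γ (base k' F L Ω p) = base k' F L Ω p) →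
      IsFixedBy ℓ (arrangementPoly k F L α) c γ hγ) →
    IsTrivial ℓ (arrangementPoly k F L α) fun n g => ℓ • c n g

/-- The set of the roots in `F` of the differences `α_i - α_j`. -/
def nodes (k F : Type u) [Field k] [Field F] [Algebra k F] {ι : Type} (α : ι → k[X]) : Set F :=
  {s | ∃ i j, i ≠ j ∧ aeval s (α i) = aeval s (α j)}

/-- The arithmetic condition on the roots of the differences `α_i - α_j`: let `K` be the field
generated by the set `S` of these roots over `k`. Let `e_i : S → ℤ` be functions such that, for all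
`s` in `S` and all `i`, the sum of the `e_j(s)` over the `j` with `α_j(s) = α_i(s)` is divisible by
`ℓ`, and let `κ` and the `c_i` be elements of `Kˣ`. If the element
`κ ^ e_i(s) (c_i / c_j) (α_i - α_j)'(s) ^ (-2 e_i(s)) ∏ (α_i(s) - α_l(s)) ^ (-e_i(s))
∏ (s - s') ^ (e_i(s') - e_j(s'))`, where `l` runs through the indices other than `i`, `j` and `s'`
through the elements of `S` other than `s`, is the `ℓ`-th power of an element of `K` for all `i ≠ j`
and all roots `s` of `α_i - α_j`, then there are integers `b_i` with `e_i(s) ≡ b_j - b_i` modulo `ℓ`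
for all `i ≠ j` and all roots `s` of `α_i - α_j`. -/
def ArrangementIndependent (ℓ : ℕ) (k F : Type u) [Field k] [Field F] [Algebra k F] {ι : Type}
    [Fintype ι] (α : ι → k[X]) : Prop :=
  ∀ (e : ι → F → ℤ) (κ : F) (c : ι → F), κ ≠ 0 →
    κ ∈ IntermediateField.adjoin k (nodes k F α) →
    (∀ i, c i ≠ 0 ∧ c i ∈ IntermediateField.adjoin k (nodes k F α)) →
    (∀ s ∈ nodes k F α, ∀ i,
      (ℓ : ℤ) ∣ ∑ j ∈ Finset.univ.filter fun j => aeval s (α j) = aeval s (α i), e j s) →
    (∀ i j s, i ≠ j → aeval s (α i) = aeval s (α j) →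
      ∃ w ∈ IntermediateField.adjoin k (nodes k F α),
        w ^ ℓ = κ ^ e i s * (c i / c j) * aeval s (derivative (α i - α j)) ^ (-2 * e i s) *
          (∏ l ∈ Finset.univ.filter fun l => l ≠ i ∧ l ≠ j,
            (aeval s (α i) - aeval s (α l)) ^ (-e i s)) *
          ∏ᶠ s' ∈ {s' ∈ nodes k F α | s' ≠ s}, (s - s') ^ (e i s' - e j s')) →
    ∃ b : ι → ℤ, ∀ i j s, i ≠ j → aeval s (α i) = aeval s (α j) →
      (ℓ : ℤ) ∣ e i s - (b j - b i)

/-- The polynomials `a_i + b_i t`, where `a_i` is the value of `v` at the element `i` of the first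
copy of the set of indices and `b_i` its value at the element `i` of the second copy. -/
noncomputable def integralLines {ι : Type} (v : ι ⊕ ι → ℤ) (i : ι) : ℚ[X] :=
  C (v (Sum.inl i) : ℚ) + C (v (Sum.inr i) : ℚ) * X

end Pool.Agent.Lib.MP_89bcae_ag.Superelliptic
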