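import Mathlib
import Pool.Agent.Lib.MP_89bcae_ag.DefsArr
import Pool.Agent.Lib.MP_89bcae_ag.BasS8

/-!
# Change of the base field for `y ^ ℓ = ∏ (x - α_i(t))`
-/

open Polynomial IsDedekindDomain

open scoped Classical

set_option linter.unusedSimpArgs false
set_option linter.unusedVariables false
set_option linter.unusedSectionVars false
set_option linter.style.haveILetI false

namespace Pool.Agent.Lib.MP_89bcae_ag.Superelliptic

universe u

/-- The statement for a polynomial `f` and a set of automorphisms, with a multiple. -/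
def NTm8 (ℓ m : ℕ) {F : Type u} (L Ω : Type u) [Field F] [Field L] [Algebra F[X] L]
    [IsFractionRing F[X] L] [Field Ω] [Algebra L Ω] (f : L[X]) (Γ : Set (Ω ≃+* Ω)) : Prop :=
  ∀ c : ℕ → (Ω ≃ₐ[L] Ω) → JacOver ℓ f Ω,
    IsTateCocycle ℓ f c →
    (∀ (v : HeightOneSpectrum F[X]) (n : ℕ), IsLocallyTrivial ℓ f (c n) (v.adicCompletion L)) →
    (∀ (γ : Ω ≃+* Ω) hγ, γ ∈ Γ → IsFixedBy ℓ f c γ hγ) →
    IsTrivial ℓ f fun n g => m • c n g

theorem NTm8.mono {ℓ m : ℕ} {F L Ω : Type u} [Field F] [Field L] [Algebra F[X] L]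
    [IsFractionRing F[X] L] [Field Ω] [Algebra L Ω] {f : L[X]} {Γ Γ' : Set (Ω ≃+* Ω)}
    (h : NTm8 (F := F) ℓ m L Ω f Γ) (hle : Γ ⊆ Γ') : NTm8 (F := F) ℓ m L Ω f Γ' :=
  fun c hc hloc hfix => h c hc hloc fun γ hγ hγΓ => hfix γ hγ (hle hγΓ)

section

variable {ι : Type} [Fintype ι]

theorem tateClassesTorsion_iff8 {ℓ : ℕ} {k F L Ω : Type u} [Field k] [Field F] [Algebra k F]
    [Field L] [Algebra F[X] L] [IsFractionRing F[X] L] [Field Ω] [Algebra L Ω] {α : ι → k[X]}
    {k' : IntermediateField k F} : TateClassesTorsion ℓ L Ω α k' ↔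
      NTm8 (F := F) ℓ ℓ L Ω (arrangementPoly k F L α)
        {γ | ∀ p : k'[X], γ (base k' F L Ω p) = base k' F L Ω p} := Iff.rfl

variable {k K F L Ω : Type u} [Field k] [Field K] [Field F] [Algebra k K] [Algebra K F]
  [Algebra k F] [IsScalarTower k K F] [Field L] [Algebra F[X] L] [IsFractionRing F[X] L] [Field Ω]
  [Algebra L Ω]

lemma arrangementPoly_map8 (α : ι → k[X]) :
    arrangementPoly K F L (fun i => (α i).map (algebraMap k K)) = arrangementPoly k F L α := by
  unfold arrangementPoly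
  exact Finset.prod_congr rfl fun i _ => by rw [base_map8]

/-- Change of the base field. -/
theorem tateClassesTorsion_base8 {ℓ : ℕ} {α : ι → k[X]} {k' : IntermediateField k F}
    {K' : IntermediateField K F} (hle : ∀ x ∈ k', x ∈ K')
    (h : TateClassesTorsion ℓ L Ω (fun i => (α i).map (algebraMap k K)) K') :
    TateClassesTorsion ℓ L Ω α k' := by
  rw [tateClassesTorsion_iff8, arrangementPoly_map8] at h
  rw [tateClassesTorsion_iff8]
  refine h.mono ?_
  intro γ hγ p
  let i : k' →+* K' := (algebraMap k' F).codRestrict K'.toSubalgebra.toSubring fun x => hle x x.2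
  have h1 : ∀ p : k'[X], base K' F L Ω (p.map i) = base k' F L Ω p := by
    intro p
    show algebraMap L Ω (algebraMap F[X] L ((p.map i).map (algebraMap K' F))) =
      algebraMap L Ω (algebraMap F[X] L (p.map (algebraMap k' F)))
    rw [Polynomial.map_map]
    rfl
  rw [← h1]
  exact hγ _

end

end Pool.Agent.Lib.MP_89bcae_ag.Superelliptic
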