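import Mathlib
import Pool.Agent.Lib.MP_89bcae_ag.Alg8
import Pool.Agent.Lib.MP_89bcae_ag.Inv8
import Pool.Agent.Lib.MP_89bcae_ag.Kummer
import Pool.Agent.Lib.MP_89bcae_ag.GrpC8

section AlgFPart

/-!
# Operators which are unipotent modulo two, for a filtration of length two
-/

namespace Pool.Agent.Lib.MP_89bcae_ag

section Rel

variable {A Γ : Type*} [AddCommGroup A] [Group Γ]

/-- The elements congruent to the double of an element of `S` modulo `T`. -/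
def dblF (S T : AddSubgroup A) : AddSubgroup A where
  carrier := {x | ∃ z ∈ S, x - (z + z) ∈ T}
  zero_mem' := ⟨0, S.zero_mem, by simp⟩
  add_mem' := by
    rintro a b ⟨z, hz, h⟩ ⟨z', hz', h'⟩
    refine ⟨z + z', S.add_mem hz hz', ?_⟩
    have := T.add_mem h h'
    have e : a + b - (z + z' + (z + z')) = a - (z + z) + (b - (z' + z')) := by abel
    rwa [e]
  neg_mem' := by
    rintro a ⟨z, hz, h⟩
    refine ⟨-z, S.neg_mem hz, ?_⟩
    have := T.neg_mem h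
    have e : -a - (-z + -z) = -(a - (z + z)) := by abel
    rwa [e]

lemma mem_dblF {S T : AddSubgroup A} {x : A} : x ∈ dblF S T ↔ ∃ z ∈ S, x - (z + z) ∈ T :=
  Iff.rfl

lemma T_le_dblF (S T : AddSubgroup A) : T ≤ dblF S T := fun x hx =>
  ⟨0, S.zero_mem, by simpa using hx⟩

lemma add_self_mem_dblF (S T : AddSubgroup A) {x : A} (hx : x ∈ S) : x + x ∈ dblF S T :=
  ⟨x, hx, by simp⟩

/-- Simultaneous eigenvectors, for a subquotient: there is no fixed class if no class which is not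
divisible by two is an eigenvector modulo two. -/
theorem rel_mem_of_no_eigenF (ρ : Γ →* AddMonoid.End A) (Γ₁ : Subgroup Γ)
    (S T : AddSubgroup A)
    (hS : ∀ γ, ∀ x ∈ S, ρ γ x ∈ S) (hT : ∀ γ, ∀ x ∈ T, ρ γ x ∈ T)
    (htf : ∀ x ∈ S, x + x ∈ T → x ∈ T)
    (hsep : ∀ x ∈ S, (∀ n : ℕ, ∃ y ∈ S, x - 2 ^ n • y ∈ T) → x ∈ T)
    (hcong : ∀ γ ∈ Γ₁, ∀ x ∈ S, ρ γ x - x ∈ dblF S T)
    (G' : AddSubgroup A) (hTG : T ≤ G') (hGS : G' ≤ S)
    (hstab : ∀ γ ∈ Γ₁, ∀ x ∈ G', ρ γ x ∈ G')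
    (hsat : ∀ x ∈ S, x + x ∈ G' → x ∈ G')
    (hfin : ∀ γ ∈ Γ₁, ∀ x ∈ G', ∃ M > 0, ρ (γ ^ M) x - x ∈ T)
    (hfinite : (QuotientAddGroup.mk (s := dblF S T) '' (S : Set A)).Finite)
    (B : AddSubgroup A) (hTB : T ≤ B)
    (hbad : ∀ x ∈ G', x ∉ B → ∃ γ ∈ Γ₁, ∃ z ∈ S, ρ γ x - x - (z + z) ∈ T ∧
      z ∉ dblF S T ∧ z - x ∉ dblF S T) :
    ∀ x ∈ G', x ∈ B := by
  classical
  -- half of the difference is well defined modulo two
  have hwd : ∀ γ ∈ Γ₁, ∀ x ∈ S, ∀ x' ∈ S, ∀ z ∈ S, ∀ z' ∈ S, x - x' ∈ dblF S T →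
      ρ γ x - x - (z + z) ∈ T → ρ γ x' - x' - (z' + z') ∈ T → z - z' ∈ dblF S T := by
    rintro γ hγ x hx x' hx' z hz z' hz' ⟨w, hw, h⟩ h1 h2
    obtain ⟨u, hu, h3⟩ := hcong γ hγ w hw
    refine ⟨u, hu, ?_⟩
    apply htf
    · exact S.sub_mem (S.sub_mem hz hz') (S.add_mem hu hu)
    · have h4 := hT γ _ h
      rw [map_sub, map_add, map_sub] at h4
      have h5 := T.sub_mem (T.sub_mem h4 h) (T.sub_mem h1 h2)
      have h6 := T.add_mem h3 h3
      have h7 := T.add_mem h5 h6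
      have e : z - z' - (u + u) + (z - z' - (u + u)) =
          (ρ γ x - ρ γ x' - (ρ γ w + ρ γ w) - (x - x' - (w + w)) -
            ((ρ γ x - x - (z + z)) - (ρ γ x' - x' - (z' + z')))) +
          ((ρ γ w - w - (u + u)) + (ρ γ w - w - (u + u))) := by abel
      rw [e]
      exact h7
  let Z : A → A ⧸ dblF S T := QuotientAddGroup.mk
  have hZeq : ∀ x y, Z x = Z y ↔ x - y ∈ dblF S T := by
    intro x y
    rw [← neg_sub y x, AddSubgroup.neg_mem_iff, ← neg_add_eq_sub]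
    exact QuotientAddGroup.eq
  let v : Γ → (A ⧸ dblF S T) → (A ⧸ dblF S T) := fun γ ζ =>
    if h : ∃ x ∈ S, ∃ z ∈ S, Z x = ζ ∧ ρ γ x - x - (z + z) ∈ T then
      Z (Classical.choose (Classical.choose_spec h).2) else ζ
  have hv : ∀ γ ∈ Γ₁, ∀ x ∈ S, ∀ z ∈ S, ρ γ x - x - (z + z) ∈ T → Z z = v γ (Z x) := by
    intro γ hγ x hx z hz h
    have hex : ∃ x' ∈ S, ∃ z' ∈ S, Z x' = Z x ∧ ρ γ x' - x' - (z' + z') ∈ T :=
      ⟨x, hx, z, hz, rfl, h⟩
    have hv0 : v γ (Z x) = Z (Classical.choose (Classical.choose_spec hex).2) := dif_pos hex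
    rw [hv0]
    have hx' := (Classical.choose_spec hex).1
    have hz' := (Classical.choose_spec (Classical.choose_spec hex).2)
    rw [hZeq]
    exact hwd γ hγ x hx _ hx' z hz _ hz'.1 ((hZeq _ _).mp hz'.2.1.symm) h hz'.2.2
  exact rel_mem_of_no_eigen ρ Γ₁ S T hS hT htf hsep hcong G' hTG hGS hstab hsat hfin
    Z hfinite (fun x hx y hy => hZeq x y) v hv B hTB (by
      intro x hx hxd
      obtain ⟨γ, hγ, z, hz, h1, h2, h3⟩ := hbad x hx hxd
      refine ⟨γ, hγ, ?_, ?_⟩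
      · rw [← hv γ hγ x (hGS hx) z hz h1]
        intro h
        exact h3 ((hZeq _ _).mp h)
      · rw [← hv γ hγ x (hGS hx) z hz h1]
        intro h
        have := (hZeq _ _).mp h
        rw [sub_zero] at this
        exact h2 this)

/-- Iteration of a division by two. -/
lemma rel_iterate (S T G' : AddSubgroup A) (hTG : T ≤ G') (hGS : G' ≤ S)
    (hsep : ∀ x ∈ S, (∀ n : ℕ, ∃ y ∈ S, x - 2 ^ n • y ∈ T) → x ∈ T)
    (hsat : ∀ x ∈ S, x + x ∈ G' → x ∈ G')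
    (hmain : ∀ x ∈ G', x ∈ dblF S T) : ∀ x ∈ G', x ∈ T := by
  intro x hx
  apply hsep x (hGS hx)
  intro n
  suffices h : ∃ y ∈ G', x - 2 ^ n • y ∈ T by
    obtain ⟨y, hy, h1⟩ := h
    exact ⟨y, hGS hy, h1⟩
  induction n with
  | zero => exact ⟨x, hx, by simp⟩
  | succ n ih =>
    obtain ⟨y, hy, h1⟩ := ih
    obtain ⟨z, hz, h2⟩ := hmain y hy
    refine ⟨z, ?_, ?_⟩
    · apply hsat z hz
      have := G'.sub_mem hy (hTG h2)
      rwa [sub_sub_cancel] at this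
    · have h3 := T.add_mem h1 (T.nsmul_mem h2 (2 ^ n))
      have e : x - 2 ^ (n + 1) • z = x - 2 ^ n • y + 2 ^ n • (y - (z + z)) := by
        rw [smul_sub, smul_add, pow_succ, mul_smul, two_smul]
        rw [smul_add]
        abel
      rw [e]
      exact h3

/-- A filtration `S ⊇ S₁ ⊇ 2 S + T`, with `γ - 1` mapping `S` to `S₁` and `S₁` to `2 S + T`. -/
theorem rel_mem_of_filtrationF (ρ : Γ →* AddMonoid.End A) (Γ₁ : Subgroup Γ)
    (S S₁ T : AddSubgroup A) (hTS₁ : T ≤ S₁) (hS₁S : S₁ ≤ S)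
    (hS : ∀ γ, ∀ x ∈ S, ρ γ x ∈ S) (hT : ∀ γ, ∀ x ∈ T, ρ γ x ∈ T)
    (htf : ∀ x ∈ S, x + x ∈ T → x ∈ T)
    (hsep : ∀ x ∈ S, (∀ n : ℕ, ∃ y ∈ S, x - 2 ^ n • y ∈ T) → x ∈ T)
    (hdbl : ∀ x ∈ S, x + x ∈ S₁)
    (hcong : ∀ γ ∈ Γ₁, ∀ x ∈ S, ρ γ x - x ∈ S₁)
    (hcong₁ : ∀ γ ∈ Γ₁, ∀ x ∈ S₁, ρ γ x - x ∈ dblF S T)
    (G' : AddSubgroup A) (hTG : T ≤ G') (hGS : G' ≤ S)
    (hstab : ∀ γ ∈ Γ₁, ∀ x ∈ G', ρ γ x ∈ G')
    (hsat : ∀ x ∈ S, x + x ∈ G' → x ∈ G')
    (hfin : ∀ γ ∈ Γ₁, ∀ x ∈ G', ∃ M > 0, ρ (γ ^ M) x - x ∈ T)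
    {ι ι' : Type*} (w : A → ι) (w' : A → ι')
    (hwfin : (w '' (S : Set A)).Finite) (hwfin' : (w' '' (S₁ : Set A)).Finite)
    (hw : ∀ x ∈ S, ∀ y ∈ S, w x = w y ↔ x - y ∈ S₁)
    (hw' : ∀ x ∈ S₁, ∀ y ∈ S₁, w' x = w' y ↔ x - y ∈ dblF S T)
    (N : Γ → ι → ι') (N' : Γ → ι' → ι)
    (hN : ∀ γ ∈ Γ₁, ∀ x ∈ S, w' (ρ γ x - x) = N γ (w x))
    (hN' : ∀ γ ∈ Γ₁, ∀ x ∈ S₁, ∀ z ∈ S, ρ γ x - x - (z + z) ∈ T → w z = N' γ (w' x))
    (hbad : ∀ x ∈ S, x ∉ S₁ → ∃ γ ∈ Γ₁, N' γ (N γ (w x)) ≠ w x ∧ N' γ (N γ (w x)) ≠ w 0)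
    (hbad' : ∀ x ∈ S₁, x ∉ dblF S T → ∃ γ ∈ Γ₁, N' γ (w' x) ≠ w 0) :
    ∀ x ∈ G', x ∈ T := by
  classical
  have hdS : dblF S T ≤ S₁ := by
    rintro x ⟨z, hz, h⟩
    have := S₁.add_mem (hTS₁ h) (hdbl z hz)
    rwa [sub_add_cancel] at this
  have hdρ : ∀ γ, ∀ x ∈ dblF S T, ρ γ x ∈ dblF S T := by
    rintro γ x ⟨z, hz, h⟩
    refine ⟨ρ γ z, hS γ z hz, ?_⟩
    have := hT γ _ h
    rwa [map_sub, map_add] at this
  -- the elements congruent to one modulo two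
  let Γ₂ : Subgroup Γ :=
    { carrier := {γ | γ ∈ Γ₁ ∧ ∀ x ∈ S, ρ γ x - x ∈ dblF S T}
      one_mem' := ⟨Γ₁.one_mem, fun x _ => by
        rw [map_one]
        change x - x ∈ _
        rw [sub_self]
        exact (dblF S T).zero_mem⟩
      mul_mem' := by
        rintro γ δ ⟨hγ, h1⟩ ⟨hδ, h2⟩
        refine ⟨Γ₁.mul_mem hγ hδ, fun x hx => ?_⟩
        rw [map_mul, end_mul_apply8]
        have := (dblF S T).add_mem (hdρ γ _ (h2 x hx)) (h1 x hx)
        rw [map_sub] at this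
        have e : ρ γ (ρ δ x) - x = ρ γ (ρ δ x) - ρ γ x + (ρ γ x - x) := by abel
        rwa [e]
      inv_mem' := by
        rintro γ ⟨hγ, h1⟩
        refine ⟨Γ₁.inv_mem hγ, fun x hx => ?_⟩
        have h2 := hdρ γ⁻¹ _ (h1 x hx)
        rw [map_sub, ← end_mul_apply8, ← map_mul, inv_mul_cancel, map_one] at h2
        have h3 := (dblF S T).neg_mem h2
        have e : -((1 : AddMonoid.End A) x - ρ γ⁻¹ x) = ρ γ⁻¹ x - x := by
          change -(x - ρ γ⁻¹ x) = _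
          abel
        rwa [e] at h3 }
  have hsq : ∀ γ ∈ Γ₁, γ * γ ∈ Γ₂ := by
    intro γ hγ
    refine ⟨Γ₁.mul_mem hγ hγ, fun x hx => ?_⟩
    rw [map_mul, end_mul_apply8]
    have h1 := hcong₁ γ hγ _ (hcong γ hγ x hx)
    rw [map_sub] at h1
    have h2 := add_self_mem_dblF S T (x := ρ γ x - x) (S.sub_mem (hS γ x hx) hx)
    have e : ρ γ (ρ γ x) - x = ρ γ (ρ γ x) - ρ γ x - (ρ γ x - x) +
      (ρ γ x - x + (ρ γ x - x)) := by abel
    rw [e]
    exact (dblF S T).add_mem h1 h2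
  -- the fixed classes belong to `S₁`
  have hGS₁ : ∀ x ∈ G', x ∈ S₁ := by
    apply rel_mem_of_no_eigenF ρ Γ₂ S T hS hT htf hsep (fun γ hγ => hγ.2) G' hTG hGS
      (fun γ hγ => hstab γ hγ.1) hsat (fun γ hγ => hfin γ hγ.1) ?_ S₁ hTS₁
    · intro x hx hx1
      obtain ⟨γ, hγ, h1, h2⟩ := hbad x (hGS hx) hx1
      have hxS := hGS hx
      have hy1 : ρ γ x - x ∈ S₁ := hcong γ hγ x hxS
      obtain ⟨z, hz, ht⟩ := hcong₁ γ hγ _ hy1
      have hwz : w z = N' γ (N γ (w x)) := by rw [← hN γ hγ x hxS, hN' γ hγ _ hy1 z hz ht]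
      refine ⟨γ * γ, hsq γ hγ, z + (ρ γ x - x), S.add_mem hz (hS₁S hy1), ?_, ?_, ?_⟩
      · rw [map_mul, end_mul_apply8]
        have e : ρ γ (ρ γ x) - x - (z + (ρ γ x - x) + (z + (ρ γ x - x))) =
          ρ γ (ρ γ x - x) - (ρ γ x - x) - (z + z) := by
          rw [map_sub]
          abel
        rw [e]
        exact ht
      · intro h
        have h3 := S₁.sub_mem (hdS h) hy1
        rw [add_sub_cancel_right] at h3
        apply h2
        rw [← hwz, hw _ hz _ S.zero_mem, sub_zero]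
        exact h3
      · intro h
        have h3 := S₁.sub_mem (hdS h) hy1
        have e : z + (ρ γ x - x) - x - (ρ γ x - x) = z - x := by abel
        rw [e] at h3
        apply h1
        rw [← hwz, hw _ hz _ hxS]
        exact h3
    · -- finiteness
      have hf : (QuotientAddGroup.mk (s := dblF S T) '' (S₁ : Set A)).Finite := by
        apply Set.Finite.of_finite_image (f := fun q => w' (Function.invFunOn
          (QuotientAddGroup.mk (s := dblF S T)) (S₁ : Set A) q)) (hwfin'.subset (by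
            rintro _ ⟨q, hq, rfl⟩
            exact ⟨_, Function.invFunOn_mem (f := QuotientAddGroup.mk (s := dblF S T))
              (s := (S₁ : Set A)) (b := q) hq, rfl⟩))
        rintro q hq q' hq' h
        have hq1 := Function.invFunOn_mem (f := QuotientAddGroup.mk (s := dblF S T))
          (s := (S₁ : Set A)) (b := q) hq
        have hq2 := Function.invFunOn_eq (f := QuotientAddGroup.mk (s := dblF S T))
          (s := (S₁ : Set A)) (b := q) hq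
        have hq1' := Function.invFunOn_mem (f := QuotientAddGroup.mk (s := dblF S T))
          (s := (S₁ : Set A)) (b := q') hq'
        have hq2' := Function.invFunOn_eq (f := QuotientAddGroup.mk (s := dblF S T))
          (s := (S₁ : Set A)) (b := q') hq'
        rw [← hq2, ← hq2']
        have h2 := (hw' _ hq1 _ hq1').mp h
        rw [← neg_sub, AddSubgroup.neg_mem_iff, ← neg_add_eq_sub] at h2
        exact QuotientAddGroup.eq.mpr h2
      -- representatives of `S / S₁`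
      have hr : ∃ r : ι → A, (∀ i, r i ∈ S) ∧ ∀ x ∈ S, x - r (w x) ∈ S₁ := by
        refine ⟨fun i => if h : ∃ x ∈ S, w x = i then Classical.choose h else 0, ?_, ?_⟩
        · intro i
          dsimp only
          split_ifs with h
          · exact (Classical.choose_spec h).1
          · exact S.zero_mem
        · intro x hx
          have h : ∃ y ∈ S, w y = w x := ⟨x, hx, rfl⟩
          dsimp only
          rw [dif_pos h]
          exact (hw x hx _ (Classical.choose_spec h).1).mp (Classical.choose_spec h).2.symm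
      obtain ⟨r, hr1, hr2⟩ := hr
      have hfin2 : (⋃ i ∈ w '' (S : Set A),
          (fun q : A ⧸ dblF S T => QuotientAddGroup.mk (r i) + q) ''
          (QuotientAddGroup.mk (s := dblF S T) '' (S₁ : Set A))).Finite :=
        hwfin.biUnion fun i _ => hf.image _
      apply hfin2.subset
      rintro _ ⟨x, hx, rfl⟩
      rw [Set.mem_iUnion₂]
      refine ⟨w x, ⟨x, hx, rfl⟩, _, ⟨x - r (w x), hr2 x hx, rfl⟩, ?_⟩
      dsimp only
      rw [← QuotientAddGroup.mk_add, add_sub_cancel]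
  -- and are divisible by two
  apply rel_iterate S T G' hTG hGS hsep hsat
  intro x hx
  by_contra hxd
  have hx1 := hGS₁ x hx
  obtain ⟨γ, hγ, h1⟩ := hbad' x hx1 hxd
  obtain ⟨z, hz, ht⟩ := hcong₁ γ hγ x hx1
  have hzG : z ∈ G' := by
    apply hsat z hz
    have h2 := G'.sub_mem (G'.sub_mem (hstab γ hγ x hx) hx) (hTG ht)
    rwa [sub_sub_cancel] at h2
  apply h1
  rw [← hN' γ hγ x hx1 z hz ht, hw _ hz _ S.zero_mem, sub_zero]
  exact hGS₁ z hzG

end Rel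

end Pool.Agent.Lib.MP_89bcae_ag

end AlgFPart

section CharFPart

/-!
# Quadratic characters of the Galois group of `F(t)` and their divisors
-/

open Polynomial

open scoped Classical

namespace Pool.Agent.Lib.MP_89bcae_ag

set_option linter.unusedSectionVars false

variable {F L Ω : Type*} [Field F] [IsAlgClosed F] [Field L] [Field Ω]
  [Algebra F[X] L] [IsFractionRing F[X] L] [Algebra L Ω] [Algebra F[X] Ω] [IsScalarTower F[X] L Ω]
  [IsGalois L Ω] [IsSepClosed Ω]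

/-- The product of the `t - α`, for `α` in `S`. -/
noncomputable def prodF (Ω : Type*) [Field Ω] [Algebra F[X] Ω] (S : Finset F) : Ω :=
  algebraMap F[X] Ω (∏ α ∈ S, (X - C α))

/-- `s` is a square root of the product of the `t - α`, `α ∈ S`, on which the Galois group acts
through the character `χ`. -/
structure IsCharF (χ : (Ω ≃ₐ[L] Ω) → Ω) (S : Finset F) (s : Ω) : Prop where
  sq : s ^ 2 = prodF Ω S
  act : ∀ σ : Ω ≃ₐ[L] Ω, σ s = χ σ * s

variable (L) in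
include L in
lemma prodF_ne_zero (S : Finset F) : prodF Ω S ≠ 0 := by
  apply algebraMap_ne_zero_Om L
  rw [Finset.prod_ne_zero_iff]
  exact fun α _ => X_sub_C_ne_zero α

lemma prodF_empty : prodF Ω (∅ : Finset F) = 1 := by
  rw [prodF, Finset.prod_empty, map_one]

lemma IsCharF.ne_zero {χ : (Ω ≃ₐ[L] Ω) → Ω} {S : Finset F} {s : Ω} (h : IsCharF χ S s) :
    s ≠ 0 := by
  rintro rfl
  have := h.sq
  rw [zero_pow two_ne_zero] at this
  exact prodF_ne_zero L S this.symm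

lemma IsCharF.congr {χ χ' : (Ω ≃ₐ[L] Ω) → Ω} {S : Finset F} {s : Ω} (h : IsCharF χ S s)
    (he : ∀ σ, χ' σ = χ σ) : IsCharF χ' S s :=
  ⟨h.sq, fun σ => by rw [h.act, he]⟩

lemma IsCharF.sq_one {χ : (Ω ≃ₐ[L] Ω) → Ω} {S : Finset F} {s : Ω} (h : IsCharF χ S s)
    (σ : Ω ≃ₐ[L] Ω) : χ σ * χ σ = 1 := by
  have h1 : σ (s ^ 2) = s ^ 2 := by
    rw [h.sq, prodF, map_D]
  rw [map_pow, h.act, mul_pow] at h1
  have h2 : s ^ 2 ≠ 0 := pow_ne_zero 2 h.ne_zero
  have h3 : (χ σ * χ σ - 1) * s ^ 2 = 0 := by linear_combination h1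
  exact sub_eq_zero.mp ((mul_eq_zero.mp h3).resolve_right h2)

/-- Existence of the divisor of a character. -/
lemma exists_charF (χ : (Ω ≃ₐ[L] Ω) → Ω) (h1 : ∀ σ, χ σ = 1 ∨ χ σ = -1)
    (hmul : ∀ σ τ, χ (σ * τ) = χ σ * χ τ) (hloc : IsLocallyConstant χ) :
    ∃ (S : Finset F) (s : Ω), IsCharF χ S s := by
  obtain ⟨b, hb, hσ⟩ := exists_kummer_gen (L := L) (1 : Ω) χ (fun σ _ => h1 σ)
    (fun σ τ _ _ => hmul σ τ) hloc
  have hσ' : ∀ σ : Ω ≃ₐ[L] Ω, σ b = χ σ * b := fun σ => hσ σ (map_one σ)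
  obtain ⟨y, hy⟩ := exists_of_fixed (F := L) (x := b ^ 2) (by
    intro σ
    rw [map_pow, hσ', mul_pow]
    rcases h1 σ with h | h <;> rw [h] <;> ring)
  obtain ⟨p, q, hq, rfl⟩ := IsFractionRing.div_surjective (A := F[X]) y
  have hq0 : q ≠ 0 := nonZeroDivisors.ne_zero hq
  have hqΩ := algebraMap_ne_zero_Om (F := F) L (Ω := Ω) hq0
  rw [map_div₀, ← IsScalarTower.algebraMap_apply, ← IsScalarTower.algebraMap_apply] at hy
  have hp0 : p ≠ 0 := by
    rintro rfl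
    rw [map_zero, zero_div] at hy
    exact hb (pow_eq_zero_iff two_ne_zero |>.mp hy.symm)
  obtain ⟨R, S, hR, hS⟩ := exists_sq_mul_prod (p * q) (mul_ne_zero hp0 hq0)
  have hRΩ := algebraMap_ne_zero_Om (F := F) L (Ω := Ω) hR
  refine ⟨S, b * algebraMap F[X] Ω q / algebraMap F[X] Ω R, ?_, ?_⟩
  · rw [div_pow, mul_pow, ← hy, div_eq_iff (pow_ne_zero 2 hRΩ), prodF]
    have h3 := congrArg (algebraMap F[X] Ω) hS
    rw [map_mul, map_mul, map_pow] at h3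
    rw [mul_comm (algebraMap F[X] Ω (∏ α ∈ S, (X - C α))), ← h3]
    field_simp
  · intro σ
    rw [map_div₀, map_mul, hσ', map_D, map_D]
    ring

/-- Uniqueness of the divisor of a character. -/
lemma IsCharF.unique {χ : (Ω ≃ₐ[L] Ω) → Ω} {S S' : Finset F} {s s' : Ω} (h : IsCharF χ S s)
    (h' : IsCharF χ S' s') : S = S' := by
  obtain ⟨y, hy⟩ := exists_of_fixed (F := L) (x := s * s') (by
    intro σ
    rw [map_mul, h.act, h'.act]
    linear_combination (s * s') * h.sq_one σ)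
  obtain ⟨p, q, hq, rfl⟩ := IsFractionRing.div_surjective (A := F[X]) y
  have hq0 : q ≠ 0 := nonZeroDivisors.ne_zero hq
  have hqΩ := algebraMap_ne_zero_Om (F := F) L (Ω := Ω) hq0
  rw [map_div₀, ← IsScalarTower.algebraMap_apply, ← IsScalarTower.algebraMap_apply,
    div_eq_iff hqΩ] at hy
  apply eq_of_sq S S' hq0 (p := p)
  apply algebraMap_Om_injective L (Ω := Ω)
  rw [map_pow, map_mul, map_mul, map_pow, hy, ← prodF, ← prodF, ← h.sq, ← h'.sq]
  ring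

/-- A character with trivial divisor is trivial. -/
lemma IsCharF.eq_one {χ : (Ω ≃ₐ[L] Ω) → Ω} {s : Ω} (h : IsCharF χ (∅ : Finset F) s)
    (σ : Ω ≃ₐ[L] Ω) : χ σ = 1 := by
  have h1 := h.sq
  rw [prodF_empty] at h1
  have h1' : s * s = 1 := by rw [← pow_two]; exact h1
  have h2 : σ s = s := by
    rcases mul_self_eq_one_iff.mp h1' with e | e <;> simp [e]
  have h3 := h.act σ
  rw [h2] at h3
  exact (mul_eq_right₀ h.ne_zero).mp h3.symm

lemma isCharF_one : IsCharF (fun _ : Ω ≃ₐ[L] Ω => (1 : Ω)) (∅ : Finset F) 1 :=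
  ⟨by rw [prodF_empty, one_pow], fun σ => by rw [map_one, one_mul]⟩

lemma prodF_mul_prodF (S S' : Finset F) :
    prodF Ω S * prodF Ω S' = prodF Ω (symmDiff S S') * prodF Ω (S ∩ S') ^ 2 := by
  unfold prodF
  rw [← map_mul, ← map_pow, ← map_mul]
  congr 1
  have h1 : ∏ α ∈ S, (X - C α) = (∏ α ∈ S \ S', (X - C α)) * ∏ α ∈ S ∩ S', (X - C α) := by
    rw [← Finset.prod_union (Finset.disjoint_sdiff_inter S S'), Finset.sdiff_union_inter]
  have h2 : ∏ α ∈ S', (X - C α) = (∏ α ∈ S' \ S, (X - C α)) * ∏ α ∈ S ∩ S', (X - C α) := by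
    rw [Finset.inter_comm, ← Finset.prod_union (Finset.disjoint_sdiff_inter S' S),
      Finset.sdiff_union_inter]
  have h3 : ∏ α ∈ symmDiff S S', (X - C α) =
      (∏ α ∈ S \ S', (X - C α)) * ∏ α ∈ S' \ S, (X - C α) := by
    rw [symmDiff_def, Finset.sup_eq_union, Finset.prod_union]
    exact disjoint_sdiff_sdiff
  rw [h1, h2, h3]
  ring

/-- The product of two characters. -/
lemma IsCharF.mul {χ χ' : (Ω ≃ₐ[L] Ω) → Ω} {S S' : Finset F} {s s' : Ω} (h : IsCharF χ S s)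
    (h' : IsCharF χ' S' s') :
    IsCharF (fun σ => χ σ * χ' σ) (symmDiff S S') (s * s' / prodF Ω (S ∩ S')) := by
  have hne := prodF_ne_zero (Ω := Ω) L (S ∩ S')
  refine ⟨?_, fun σ => ?_⟩
  · rw [div_pow, mul_pow, h.sq, h'.sq, prodF_mul_prodF]
    field_simp
  · rw [map_div₀, map_mul, h.act, h'.act]
    have : σ (prodF Ω (S ∩ S')) = prodF Ω (S ∩ S') := map_D σ _
    rw [this]
    ring

/-- The conjugate of a character. -/
lemma IsCharF.conj {R : Type*} [CommRing R] [Algebra R Ω] {γ : Ω ≃ₐ[R] Ω} {τ : F →+* F}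
    {χ χ' : (Ω ≃ₐ[L] Ω) → Ω} {S : Finset F} {s : Ω} (h : IsCharF χ S s)
    (hγ : ∀ p : F[X], γ (algebraMap F[X] Ω p) = algebraMap F[X] Ω (p.map τ))
    (hconj : ∀ σ : Ω ≃ₐ[L] Ω, ∃ σ' : Ω ≃ₐ[L] Ω, (∀ x, γ (σ' x) = σ (γ x)) ∧
      χ' σ = γ (χ σ')) :
    IsCharF χ' (S.image τ) (γ s) := by
  refine ⟨?_, fun σ => ?_⟩
  · rw [← map_pow, h.sq, prodF, hγ, prodF, Polynomial.map_prod,
      Finset.prod_image (fun x _ y _ hxy => τ.injective hxy)]
    simp
  · obtain ⟨σ', h1, h2⟩ := hconj σ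
    rw [← h1, h.act, map_mul, h2]

end Pool.Agent.Lib.MP_89bcae_ag

end CharFPart

section IfaceFPart

/-!
# The local input for the curves `y² = x (x² + A x + B)`
-/

open Polynomial WeierstrassCurve WeierstrassCurve.Affine

open scoped Classical

namespace Pool.Agent.Lib.MP_89bcae_ag

set_option linter.unusedSectionVars false

/-- Over the field `K`, the curve `W` is `y² = x (x² + A x + B)`. -/
structure IsABF {R F : Type*} [CommRing R] [Field F] (K : Type*) [Field K] [Algebra R K]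
    [Algebra F[X] K] (W : Affine R) (A B : F[X]) : Prop where
  a₁ : algebraMap R K W.a₁ = 0
  a₂ : algebraMap R K W.a₂ = algebraMap F[X] K A
  a₃ : algebraMap R K W.a₃ = 0
  a₄ : algebraMap R K W.a₄ = algebraMap F[X] K B
  a₆ : algebraMap R K W.a₆ = 0

/-- The point of order two with first coordinate zero, given by its coordinates. -/
def IsTF {K : Type*} [Field K] {W : Affine K} (P : W.Point) : Prop :=
  ∃ h : W.Nonsingular 0 0, P = .some 0 0 h

/-- The character of the group `{0, (0, 0)}`. -/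
noncomputable def psiF {K : Type*} [Field K] {W : Affine K} (P : W.Point) : K :=
  if P = 0 then 1 else -1

section

variable {k F L Ω : Type*} [Field k] [Field F] [Algebra k F] [Algebra.IsAlgebraic k F]
  [IsAlgClosed F] [Field L] [Field Ω]
  [Algebra F[X] L] [IsFractionRing F[X] L] [Algebra L Ω] [Algebra F[X] Ω] [IsScalarTower F[X] L Ω]
  [Algebra k[X] L] [Algebra k[X] Ω] [IsScalarTower k[X] L Ω]
  [IsGalois L Ω] [IsSepClosed Ω] [IsSepClosure L Ω]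

/-- The properties of the local conditions which are used in the global argument.
`A`, `B` are polynomials over `F`. -/
structure LocAxF (hk : ∀ p : k[X], algebraMap k[X] L p = algebraMap F[X] L (p.map (algebraMap k F)))
    (W : Affine k[X]) (A B : F[X])
    (LT : ((Ω ≃ₐ[L] Ω) → (W.baseChange Ω).Point) → Prop) : Prop where
  add : ∀ c c', LT c → LT c' → LT (c + c')
  neg : ∀ c, LT c → LT (-c)
  cob : ∀ q : (W.baseChange Ω).Point,
    LT (fun σ : Ω ≃ₐ[L] Ω => Point.map (W' := W) (σ : Ω →ₐ[L] Ω) q - q)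
  conj : ∀ (γ : Ω ≃ₐ[k[X]] Ω) (c : (Ω ≃ₐ[L] Ω) → (W.baseChange Ω).Point), LT c →
    LT (fun σ => Point.map (W' := W) (γ : Ω →ₐ[k[X]] Ω) (c (cj hk γ σ)))
  /-- first descent: the character is ramified only at the roots of `B` -/
  root : ∀ c : (Ω ≃ₐ[L] Ω) → (W.baseChange Ω).Point, (∀ σ, 2 • c σ = 0) → LT c →
    ∀ (S : Finset F) (s : Ω), IsCharF (fun σ : Ω ≃ₐ[L] Ω => rho 0 (c σ)) S s →
      ∀ α ∈ S, B.eval α = 0
  /-- second descent: the character is ramified only at the roots of `A² - 4 B` -/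
  root' : ∀ c : (Ω ≃ₐ[L] Ω) → (W.baseChange Ω).Point, (∀ σ, c σ = 0 ∨ IsTF (c σ)) → LT c →
    ∀ (S : Finset F) (s : Ω), IsCharF (fun σ : Ω ≃ₐ[L] Ω => psiF (c σ)) S s →
      ∀ β ∈ S, (A ^ 2 - 4 * B).eval β = 0
  /-- the formula at a root of `A² - 4 B` -/
  beta : ∀ β : F, (A ^ 2 - 4 * B).eval β = 0 → ∀ τ : F ≃ₐ[k] F,
    (∀ x, B.eval x = 0 ∨ (A ^ 2 - 4 * B).eval x = 0 → τ x = x) →
    ∃ γ : Ω ≃ₐ[k[X]] Ω, (∀ p : F[X], γ (algebraMap F[X] Ω p) =
        algebraMap F[X] Ω (p.map (τ : F →+* F))) ∧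
      ∀ c : (Ω ≃ₐ[L] Ω) → (W.baseChange Ω).Point, (∀ σ, 2 • c σ = 0) → LT c →
        (∀ (S : Finset F) (s : Ω), (∀ α ∈ S, B.eval α = 0) →
          IsCharF (fun σ : Ω ≃ₐ[L] Ω => rho 0 (c σ)) S s →
          (γ s = s ↔ ¬ Moves (τ : F →+* F) (∏ α ∈ S, (β - α)))) ∧
        ((∀ σ, Point.map (W' := W) (γ : Ω →ₐ[k[X]] Ω) (c (cj hk γ σ)) - c σ = 0 ∨
            IsTF (Point.map (W' := W) (γ : Ω →ₐ[k[X]] Ω) (c (cj hk γ σ)) - c σ)) →
          ∀ (S : Finset F) (s : Ω), IsCharF (fun σ : Ω ≃ₐ[L] Ω =>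
            psiF (Point.map (W' := W) (γ : Ω →ₐ[k[X]] Ω) (c (cj hk γ σ)) - c σ)) S s → β ∉ S)
  /-- the formula at a root of `B` -/
  alpha : ∀ α : F, B.eval α = 0 → ∀ τ : F ≃ₐ[k] F,
    (∀ x, B.eval x = 0 ∨ (A ^ 2 - 4 * B).eval x = 0 → τ x = x) →
    ∃ γ : Ω ≃ₐ[k[X]] Ω, (∀ p : F[X], γ (algebraMap F[X] Ω p) =
        algebraMap F[X] Ω (p.map (τ : F →+* F))) ∧
      ∀ c : (Ω ≃ₐ[L] Ω) → (W.baseChange Ω).Point, (∀ σ, 2 • c σ = 0 ∨ IsTF (2 • c σ)) → LT c →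
        (∀ (S : Finset F) (s : Ω), (∀ β ∈ S, (A ^ 2 - 4 * B).eval β = 0) →
          IsCharF (fun σ : Ω ≃ₐ[L] Ω => psiF (2 • c σ)) S s →
          (γ s = s ↔ ¬ Moves (τ : F →+* F) (∏ β ∈ S, (α - β))) ∧
          ((∀ σ, 2 • (Point.map (W' := W) (γ : Ω →ₐ[k[X]] Ω) (c (cj hk γ σ)) - c σ) = 0) →
            ∀ (S' : Finset F) (s' : Ω), IsCharF (fun σ : Ω ≃ₐ[L] Ω =>
              rho 0 (Point.map (W' := W) (γ : Ω →ₐ[k[X]] Ω) (c (cj hk γ σ)) - c σ)) S' s' →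
              α ∉ S'))

end

end Pool.Agent.Lib.MP_89bcae_ag

end IfaceFPart
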