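import Mathlib
import Pool.Agent.Lib.MP_89bcae_ag.DefsN8

/-!
# Families of polynomials with integral coefficients, over a field `k`
-/

open Polynomial

namespace Pool.Agent.Lib.MP_89bcae_ag.Superelliptic.Graph

/-- The family of the polynomials `v(i, 0) + v(i, 1) t + ... + v(i, n) t ^ n` over `k`. -/
noncomputable def polyFamily (k : Type) [Field k] {ι : Type} {n : ℕ} (v : ι × Fin (n + 1) → ℤ)
    (i : ι) : k[X] :=
  ∑ j : Fin (n + 1), C (v (i, j) : k) * X ^ (j : ℕ)

/-- For the polynomials `α_i` over `k` of the family with `i` in `I`: the `α_i - α_j` are nonconstant with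
separable product; and for all finite extensions `k'` of `k` in an algebraic closure `F` of `k`, every class
of the `ℓ`-adic Selmer group over `F(t)` of the Jacobian of the smooth projective model of the curve
`y ^ ℓ = ∏ (x - α_i(t)) ^ W_i` which is fixed (up to torsion) by the automorphisms over `k'(t)` is killed
by `ℓ`. -/
def HasNoTateClasses (ℓ : ℕ) (k : Type) [Field k] {ι : Type} [LinearOrder ι] {n : ℕ}
    (v : ι × Fin (n + 1) → ℤ) (I : Finset ι) (W : I → ℕ) : Prop :=
  (IsArrangement fun i : I => polyFamily k v i) ∧
  ∀ (F L Ω : Type) [Field F] [Algebra k F] [IsAlgClosure k F] [Field L] [Algebra F[X] L]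
    [IsFractionRing F[X] L] [Field Ω] [Algebra L Ω] [IsAlgClosure L Ω]
    (k' : IntermediateField k F), FiniteDimensional k k' →
      Nrm.TateClassesTorsionW ℓ L Ω W (fun i : I => polyFamily k v i) k'

end Pool.Agent.Lib.MP_89bcae_ag.Superelliptic.Graph
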