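import Mathlib

/-!
# Families of lines of the projective plane with integral coefficients: private primes
-/

namespace Pool.Agent.Lib.MP_89bcae_ag.Superelliptic

/-- The bracket of three of the lines `v(i, 0) X + v(i, 1) Y + v(i, 2) Z = 0`: the determinant of
their coefficients. It is zero if and only if they have a common point. -/
def bracket {ι : Type} (v : ι × Fin 3 → ℤ) (i j k : ι) : ℤ :=
  (Matrix.of ![fun l => v (i, l), fun l => v (j, l), fun l => v (k, l)]).det

/-- Every bracket of three different lines is divisible exactly once by some prime number which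
divides no bracket of another set of three lines. -/
def HasPrivatePrimes {ι : Type} (v : ι × Fin 3 → ℤ) : Prop :=
  ∀ i j k : ι, i ≠ j → j ≠ k → i ≠ k → ∃ p : ℕ, p.Prime ∧
    (p : ℤ) ∣ bracket v i j k ∧ ¬ (p : ℤ) ^ 2 ∣ bracket v i j k ∧
    ∀ a b c : ι, a ≠ b → b ≠ c → a ≠ c → ({a, b, c} : Set ι) ≠ {i, j, k} →
      ¬ (p : ℤ) ∣ bracket v a b c

end Pool.Agent.Lib.MP_89bcae_ag.Superelliptic
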