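import Mathlib

/-!
# From density zero of the complement to density one
-/

open Filter Topology

open scoped Classical

namespace Pool.Agent.Lib.MP_89bcae_ag

/-- From density zero of the complement to density one. -/
lemma density_one8 (m : ℕ) (Good : (Fin m → ℤ) → Prop)
    (h : Tendsto (fun H : ℕ => ({a : Fin m → ℤ | (∀ i, |a i| ≤ H) ∧ ¬ Good a}.ncard : ℝ) /
      (2 * H + 1) ^ m) atTop (𝓝 0)) :
    Tendsto (fun H : ℕ => ({a : Fin m → ℤ | (∀ i, |a i| ≤ H) ∧ Good a}.ncard : ℝ) /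
      (2 * H + 1) ^ m) atTop (𝓝 1) := by
  have h1 : Tendsto (fun H : ℕ => 1 -
      ({a : Fin m → ℤ | (∀ i, |a i| ≤ H) ∧ ¬ Good a}.ncard : ℝ) / (2 * H + 1) ^ m) atTop
      (𝓝 (1 - 0)) := tendsto_const_nhds.sub h
  rw [sub_zero] at h1
  refine h1.congr fun H => ?_
  have hbox : ({a : Fin m → ℤ | ∀ i, |a i| ≤ H}) =
      ((Fintype.piFinset fun _ : Fin m => Finset.Icc (-(H : ℤ)) H : Finset (Fin m → ℤ)) :
        Set (Fin m → ℤ)) := by
    ext a
    rw [Finset.mem_coe, Fintype.mem_piFinset]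
    simp only [Set.mem_ofPred_eq, Finset.mem_Icc, abs_le]
  have hfin : ({a : Fin m → ℤ | ∀ i, |a i| ≤ H}).Finite := by
    rw [hbox]
    exact Finset.finite_toSet _
  have hcard : (({a : Fin m → ℤ | ∀ i, |a i| ≤ H}).ncard : ℝ) = (2 * H + 1) ^ m := by
    rw [hbox, Set.ncard_coe_finset, Fintype.card_piFinset, Finset.prod_const, Finset.card_univ,
      Fintype.card_fin, Int.card_Icc]
    push_cast
    congr 1
    have h3 : ((H : ℤ) + 1 - -(H : ℤ)).toNat = 2 * H + 1 := by omega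
    rw [h3]
    push_cast
    ring
  have hsplit : ({a : Fin m → ℤ | (∀ i, |a i| ≤ H) ∧ Good a}).ncard +
      ({a : Fin m → ℤ | (∀ i, |a i| ≤ H) ∧ ¬ Good a}).ncard =
      ({a : Fin m → ℤ | ∀ i, |a i| ≤ H}).ncard := by
    have hdisj : Disjoint {a : Fin m → ℤ | (∀ i, |a i| ≤ H) ∧ Good a}
        {a : Fin m → ℤ | (∀ i, |a i| ≤ H) ∧ ¬ Good a} := by
      rw [Set.disjoint_left]
      rintro a ⟨-, h3⟩ ⟨-, h4⟩
      exact h4 h3
    rw [← Set.ncard_union_eq hdisj (hfin.subset fun a ha => ha.1) (hfin.subset fun a ha => ha.1)]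
    congr 1
    ext a
    simp only [Set.mem_union, Set.mem_ofPred_eq]
    tauto
  have hpos : (0 : ℝ) < (2 * (H : ℝ) + 1) ^ m := by positivity
  rw [eq_div_iff hpos.ne', sub_mul, div_mul_cancel₀ _ hpos.ne', one_mul, ← hcard, ← hsplit]
  push_cast
  ring

end Pool.Agent.Lib.MP_89bcae_ag
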