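import Mathlib
import Pool.Agent.Lib.MP_89bcae_ag.DefsN8
import Pool.Agent.Lib.MP_89bcae_ag.DefsW45

/-!
# Comparison of the two forms of the definitions
-/

open Polynomial IsDedekindDomain

open scoped Classical

namespace Pool.Agent.Lib.MP_89bcae_ag

universe u

section

variable (N : ℕ) {A B : Type u} [Field A] [Field B]

/-- The identity, from one form of the coordinate ring to the other. -/
noncomputable def ringN8 (f : A[X]) : Nrm.NRing N f →+* Wt.NRing N f where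
  toFun a := (⟨a.1, a.2⟩ : integralClosure A[X] (Wt.FunField N f))
  map_one' := Subtype.ext rfl
  map_zero' := Subtype.ext rfl
  map_mul' _ _ := Subtype.ext rfl
  map_add' _ _ := Subtype.ext rfl

/-- The inverse. -/
noncomputable def ringN8' (f : A[X]) : Wt.NRing N f →+* Nrm.NRing N f where
  toFun a := (⟨a.1, a.2⟩ : integralClosure A[X] (Nrm.FunRing N f))
  map_one' := Subtype.ext rfl
  map_zero' := Subtype.ext rfl
  map_mul' _ _ := Subtype.ext rfl
  map_add' _ _ := Subtype.ext rfl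

theorem ringN8_comp (f : A[X]) : (ringN8 N f).comp (ringN8' N f) = RingHom.id _ :=
  RingHom.ext fun _ => Subtype.ext rfl

theorem ringN8'_comp (f : A[X]) : (ringN8' N f).comp (ringN8 N f) = RingHom.id _ :=
  RingHom.ext fun _ => Subtype.ext rfl

theorem coordMap_compN8 (σ : A →+* B) {f : A[X]} {f' : B[X]} (h : f.map σ = f') :
    (ringN8 N f').comp (Nrm.coordMap N σ h) = (Wt.coordMap N σ h).comp (ringN8 N f) :=
  RingHom.ext fun _ => Subtype.ext rfl

/-- The isomorphism of the groups of points of the Jacobians. -/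
noncomputable def jacN8 (f : A[X]) : Nrm.Jac N f →+ Wt.Jac N f :=
  MonoidHom.toAdditive (CommRing.Pic.mapRingHom (ringN8 N f))

/-- The inverse. -/
noncomputable def jacN8' (f : A[X]) : Wt.Jac N f →+ Nrm.Jac N f :=
  MonoidHom.toAdditive (CommRing.Pic.mapRingHom (ringN8' N f))

theorem jacN8_jacN8' (f : A[X]) (x : Wt.Jac N f) : jacN8 N f (jacN8' N f x) = x := by
  have h : ∀ M : CommRing.Pic (Wt.NRing N f),
      CommRing.Pic.mapRingHom (ringN8 N f) (CommRing.Pic.mapRingHom (ringN8' N f) M) = M := by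
    intro M
    rw [CommRing.Pic.mapRingHom_mapRingHom, ringN8_comp, CommRing.Pic.mapRingHom_id_apply]
  exact congrArg Additive.ofMul (h x.toMul)

theorem jacN8'_jacN8 (f : A[X]) (x : Nrm.Jac N f) : jacN8' N f (jacN8 N f x) = x := by
  have h : ∀ M : CommRing.Pic (Nrm.NRing N f),
      CommRing.Pic.mapRingHom (ringN8' N f) (CommRing.Pic.mapRingHom (ringN8 N f) M) = M := by
    intro M
    rw [CommRing.Pic.mapRingHom_mapRingHom, ringN8'_comp, CommRing.Pic.mapRingHom_id_apply]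
  exact congrArg Additive.ofMul (h (Additive.toMul x))

theorem jacN8_jacMap (σ : A →+* B) {f : A[X]} {f' : B[X]} (h : f.map σ = f') (x : Nrm.Jac N f) :
    jacN8 N f' (Nrm.jacMap N σ h x) = Wt.jacMap N σ h (jacN8 N f x) := by
  have h : ∀ M : CommRing.Pic (Nrm.NRing N f),
      CommRing.Pic.mapRingHom (ringN8 N f') (CommRing.Pic.mapRingHom (Nrm.coordMap N σ h) M) =
        CommRing.Pic.mapRingHom (Wt.coordMap N σ h) (CommRing.Pic.mapRingHom (ringN8 N f) M) := by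
    intro M
    rw [CommRing.Pic.mapRingHom_mapRingHom, CommRing.Pic.mapRingHom_mapRingHom, coordMap_compN8]
  exact congrArg Additive.ofMul (h (Additive.toMul x))

end

section

variable {L : Type u} [Field L] (ℓ : ℕ) (f : L[X])

theorem jacN8_push {A B : Type u} [Field A] [Field B] [Algebra L A] [Algebra L B] (σ : A →ₐ[L] B)
    (x : Nrm.JacOver ℓ f A) :
    jacN8 ℓ (f.map (algebraMap L B)) (Nrm.push ℓ f σ x) =
      Wt.push ℓ f σ (jacN8 ℓ (f.map (algebraMap L A)) x) :=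
  jacN8_jacMap ℓ (σ : A →+* B) _ x

variable {Ω : Type u} [Field Ω] [Algebra L Ω]

theorem isTateCocycleN8 {c : ℕ → (Ω ≃ₐ[L] Ω) → Nrm.JacOver ℓ f Ω} (hc : Nrm.IsTateCocycle ℓ f c) :
    Wt.IsTateCocycle ℓ f fun n σ => jacN8 ℓ (f.map (algebraMap L Ω)) (c n σ) where
  zero σ := by rw [hc.zero, map_zero]
  smul n σ := by rw [← map_nsmul, hc.smul]
  cocycle n σ τ := by rw [hc.cocycle, map_add, jacN8_push]
  locallyConstant n := (hc.locallyConstant n).comp _

theorem isLocallyTrivialN8 {c : (Ω ≃ₐ[L] Ω) → Nrm.JacOver ℓ f Ω} (Lv : Type u) [Field Lv]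
    [Algebra L Lv] (h : Nrm.IsLocallyTrivial ℓ f c Lv) :
    Wt.IsLocallyTrivial ℓ f (fun σ => jacN8 ℓ (f.map (algebraMap L Ω)) (c σ)) Lv := by
  intro M _ _ _ _ _ j
  obtain ⟨Q, hQ⟩ := h M j
  refine ⟨jacN8 ℓ (f.map (algebraMap L M)) Q, fun g g' hg => ?_⟩
  rw [← jacN8_push, hQ g g' hg, map_sub, jacN8_push]

theorem isFixedByN8 {c : ℕ → (Ω ≃ₐ[L] Ω) → Nrm.JacOver ℓ f Ω} {γ : Ω ≃+* Ω}
    {hγ : (f.map (algebraMap L Ω)).map (γ : Ω →+* Ω) = f.map (algebraMap L Ω)}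
    (h : Nrm.IsFixedBy ℓ f c γ hγ) :
    Wt.IsFixedBy ℓ f (fun n σ => jacN8 ℓ (f.map (algebraMap L Ω)) (c n σ)) γ hγ := by
  obtain ⟨m, hm, h⟩ := h
  refine ⟨m, hm, fun n => ?_⟩
  obtain ⟨A, hA, h⟩ := h n
  refine ⟨jacN8 ℓ (f.map (algebraMap L Ω)) A, by rw [← map_nsmul, hA, map_zero], fun g g' hg => ?_⟩
  have h1 := congrArg (jacN8 ℓ (f.map (algebraMap L Ω))) (h g g' hg)
  rw [map_nsmul, map_sub, map_sub, jacN8_push, jacN8_jacMap] at h1
  exact h1

theorem isTrivialN8 {c : ℕ → (Ω ≃ₐ[L] Ω) → Nrm.JacOver ℓ f Ω}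
    (h : Wt.IsTrivial ℓ f fun n σ => jacN8 ℓ (f.map (algebraMap L Ω)) (c n σ)) :
    Nrm.IsTrivial ℓ f c := by
  have hinj : Function.Injective (jacN8 ℓ (f.map (algebraMap L Ω))) :=
    Function.LeftInverse.injective (jacN8'_jacN8 ℓ _)
  intro n
  obtain ⟨A, hA, h⟩ := h n
  obtain ⟨A', rfl⟩ : ∃ A', jacN8 ℓ (f.map (algebraMap L Ω)) A' = A := ⟨_, jacN8_jacN8' ℓ _ A⟩
  refine ⟨A', hinj (by rw [map_nsmul, hA, map_zero]), fun g => hinj ?_⟩
  rw [map_sub, jacN8_push]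
  exact h g

end

theorem weightedPolyN8 (k F L : Type u) [Field k] [Field F] [Algebra k F] [Field L]
    [Algebra F[X] L] {ι : Type} [Fintype ι] (W : ι → ℕ) (α : ι → k[X]) :
    Nrm.weightedPoly k F L W α = Wt.weightedPoly k F L W α := rfl

/-- The two forms of the property. -/
theorem tateClassesTorsionN8 {ℓ : ℕ} {k F : Type u} {L Ω : Type u} [Field k] [Field F]
    [Algebra k F] [Field L] [Algebra F[X] L] [IsFractionRing F[X] L] [Field Ω] [Algebra L Ω]
    {ι : Type} [Fintype ι] {W : ι → ℕ} {α : ι → k[X]} {k' : IntermediateField k F}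
    (h : Wt.TateClassesTorsionW ℓ L Ω W α k') : Nrm.TateClassesTorsionW ℓ L Ω W α k' := by
  have key : ∀ f : L[X], (∀ c : ℕ → (Ω ≃ₐ[L] Ω) → Wt.JacOver ℓ f Ω, Wt.IsTateCocycle ℓ f c →
      (∀ (v : HeightOneSpectrum F[X]) (n : ℕ),
        Wt.IsLocallyTrivial ℓ f (c n) (v.adicCompletion L)) →
      (∀ (γ : Ω ≃+* Ω) hγ, (∀ p : k'[X], γ (base k' F L Ω p) = base k' F L Ω p) →
        Wt.IsFixedBy ℓ f c γ hγ) → Wt.IsTrivial ℓ f fun n g => ℓ • c n g) →
      ∀ c : ℕ → (Ω ≃ₐ[L] Ω) → Nrm.JacOver ℓ f Ω, Nrm.IsTateCocycle ℓ f c →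
      (∀ (v : HeightOneSpectrum F[X]) (n : ℕ),
        Nrm.IsLocallyTrivial ℓ f (c n) (v.adicCompletion L)) →
      (∀ (γ : Ω ≃+* Ω) hγ, (∀ p : k'[X], γ (base k' F L Ω p) = base k' F L Ω p) →
        Nrm.IsFixedBy ℓ f c γ hγ) → Nrm.IsTrivial ℓ f fun n g => ℓ • c n g := by
    intro f h c hc hloc hfix
    refine isTrivialN8 ℓ f ?_
    have h1 := h _ (isTateCocycleN8 ℓ f hc)
      (fun v n => isLocallyTrivialN8 ℓ f (v.adicCompletion L) (hloc v n))
      (fun γ hγ hp => isFixedByN8 ℓ f (hfix γ hγ hp))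
    have h2 : (fun n g => jacN8 ℓ (f.map (algebraMap L Ω)) (ℓ • c n g)) =
        fun n g => ℓ • jacN8 ℓ (f.map (algebraMap L Ω)) (c n g) :=
      funext fun n => funext fun g => map_nsmul _ _ _
    rw [h2]
    exact h1
  exact key _ h

end Pool.Agent.Lib.MP_89bcae_ag
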