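import Mathlib
import Pool.Agent.Lib.MP_89bcae_ag.DefsGeom8

/-!
# The Rédei maps of the surfaces `D(t) y² = g(x) - t`
-/

open Polynomial

open scoped Classical

namespace Pool.Agent.Lib.MP_89bcae_ag

section

variable {F : Type*} [Field F]

/-- The set `Z` has an even number of elements in each fibre of `g`. -/
def EvenOver (g : F[X]) (Z : Finset F) : Prop :=
  ∀ α : F, Even (Z.filter fun c => g.eval c = α).card

/-- The product `PZ g D Z b`, multiplied by the product of the differences `b - c` over the
`c ≠ b` with `g(c) = g(b)` for which exactly one of `b`, `c` belongs to `Z`. -/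
noncomputable def PZ1 (g D : F[X]) (Z : Finset F) (b : F) : F :=
  PZ g D Z b * ∏ c ∈ (g - C (g.eval b)).roots.toFinset.filter
    (fun c => c ≠ b ∧ (c ∈ Z ↔ b ∉ Z)), (b - c)

/-- The Rédei map of the products `P`: the set of the roots `b` of `G` for which `P Z b` has the
property `N`. -/
noncomputable def redei (N : F → Prop) (P : Finset F → F → F) (G : F[X]) (Z : Finset F) :
    Finset F :=
  G.roots.toFinset.filter fun b => N (P Z b)

/-- The Rédei map of the products `P` has no eigenvalue `0` or `1`: a nonempty set of roots of
`D ∘ g`, even on the fibres of `g`, is not mapped to the empty set or to itself. -/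
def NoEigen (N : F → Prop) (P : Finset F → F → F) (g D : F[X]) : Prop :=
  ∀ Z ⊆ (D.comp g).roots.toFinset, EvenOver g Z → Z.Nonempty →
    redei N P (D.comp g) Z ≠ ∅ ∧ redei N P (D.comp g) Z ≠ Z

end

end Pool.Agent.Lib.MP_89bcae_ag
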