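import Mathlib

/-!
# Simple collisions of the polynomials `D(g(x))`
-/

open Polynomial

namespace Pool.Agent.Lib.MP_89bcae_ag

/-- The polynomial `D(g(x))` over the local ring `R` has a simple collision: modulo the maximal ideal
`𝔪` of `R`, `D` is `(t - a)² h`, the polynomial `((t - a) h)(g(x))` is separable, and `D(a)` is not
in `𝔪²`. -/
def IsCollision7 {R : Type*} [CommRing R] [IsLocalRing R] (g D : R[X]) : Prop :=
  ∃ (a : R) (h : (IsLocalRing.ResidueField R)[X]),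
    D.map (IsLocalRing.residue R) = (X - C (IsLocalRing.residue R a)) ^ 2 * h ∧
    (((X - C (IsLocalRing.residue R a)) * h).comp (g.map (IsLocalRing.residue R))).Separable ∧
    D.eval a ∉ IsLocalRing.maximalIdeal R ^ 2

/-- `Aut(F/k)` is transitive on the pairs `(b, c)` of roots of `D(g(x))` in `F` with
`g(b) ≠ g(c)`. -/
def IsPairTransitive7 (k F : Type*) [Field k] [Field F] [Algebra k F] (g D : k[X]) : Prop :=
  ∀ b c b' c' : F, aeval b (D.comp g) = 0 → aeval c (D.comp g) = 0 →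
    aeval b' (D.comp g) = 0 → aeval c' (D.comp g) = 0 →
    aeval b g ≠ aeval c g → aeval b' g ≠ aeval c' g → ∃ σ : F ≃ₐ[k] F, σ b = b' ∧ σ c = c'

/-- The graph `e` on `S` is a perfect matching between the fibres of `p` over `α` and `α'`. -/
structure IsMatch7 {V A : Type*} (S : Finset V) (p : V → A) (α α' : A) (e : V → V → ZMod 2) :
    Prop where
  symm : ∀ b ∈ S, ∀ c ∈ S, e b c = e c b
  supp : ∀ b ∈ S, ∀ c ∈ S, p b ≠ p c → e b c ≠ 0 →
    (p b = α ∧ p c = α') ∨ (p b = α' ∧ p c = α)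
  left : ∀ b ∈ S, p b = α → ∃ c ∈ S, p c = α' ∧ e b c = 1 ∧ ∀ c' ∈ S, p c' = α' → c' ≠ c →
    e b c' = 0
  right : ∀ b ∈ S, p b = α' → ∃ c ∈ S, p c = α ∧ e b c = 1 ∧ ∀ c' ∈ S, p c' = α → c' ≠ c →
    e b c' = 0

/-- The graph `e` on `S` is the complete bipartite graph between the fibres of `p` over `α` and
`α'`. -/
structure IsFull7 {V A : Type*} (S : Finset V) (p : V → A) (α α' : A) (e : V → V → ZMod 2) :
    Prop where
  symm : ∀ b ∈ S, ∀ c ∈ S, e b c = e c b
  supp : ∀ b ∈ S, ∀ c ∈ S, p b ≠ p c → e b c ≠ 0 →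
    (p b = α ∧ p c = α') ∨ (p b = α' ∧ p c = α)
  full : ∀ b ∈ S, ∀ c ∈ S, p b = α → p c = α' → e b c = 1

end Pool.Agent.Lib.MP_89bcae_ag
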