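import Mathlib
import Pool.Agent.Lib.MP_89bcae_ag.DefsB7

/-!
# Rédei maps with prescribed weights: existence of one without eigenvalues
-/

open Polynomial

open scoped Classical

set_option linter.unusedSimpArgs false
set_option linter.unusedVariables false

namespace Pool.Agent.Lib.MP_89bcae_ag

section

variable {V I : Type*}

theorem logic3 {E O : Fin 3 → Prop} (h : ∀ a b : Fin 3, E (b - a) ∨ O (a + b)) :
    (∀ u, E u) ∨ (∀ v, O v) := by
  by_contra hcon
  push Not at hcon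
  obtain ⟨⟨u, hu⟩, ⟨v, hv⟩⟩ := hcon
  have h1 : ∀ u v : Fin 3, ∃ a b : Fin 3, b - a = u ∧ a + b = v := by decide
  obtain ⟨a, b, hab, hab'⟩ := h1 u v
  rcases h a b with h2 | h2
  · rw [hab] at h2; exact hu h2
  · rw [hab'] at h2; exact hv h2

theorem perm3 : ∀ (a b : Fin 3) (σ : Fin 3 → Fin 3), (∀ c d, σ c = σ d → c = d) → σ a = b →
    (∀ c, σ c = c + (b - a)) ∨ (∀ c, σ c = (a + b) - c) := by decide

/-- The operator of the weights `l b c`. -/
noncomputable def opT (R : Finset V) (v : V → I) (l : V → V → ZMod 2) (z : V → ZMod 2) (b : V) :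
    ZMod 2 :=
  ∑ c ∈ R.filter (fun c => v c ≠ v b), l b c * (z c + z b)

/-- The function `z` has sum `0` on each fibre. -/
def EvenZ (R : Finset V) (v : V → I) (z : V → ZMod 2) : Prop :=
  ∀ α : I, ∑ c ∈ R.filter (fun c => v c = α), z c = 0

/-- `m` is a matching of the fibres `i` and `j`. -/
def Match8 (R : Finset V) (v : V → I) (i j : I) (m : V → V) : Prop :=
  (∀ x ∈ R, v x = i → m x ∈ R ∧ v (m x) = j ∧ m (m x) = x) ∧
  (∀ x ∈ R, v x = j → m x ∈ R ∧ v (m x) = i ∧ m (m x) = x)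

/-- `l` has the weights of the matching `m` of the fibres `i` and `j`. -/
def MatchW8 (R : Finset V) (v : V → I) (i j : I) (m : V → V)
    (l : V → V → ZMod 2) : Prop :=
  ∀ x ∈ R, ∀ y ∈ R, v x ≠ v y →
    l x y = if (v x = i ∨ v x = j) ∧ y = m x then 1 else 0

theorem opT_add (R : Finset V) (v : V → I) (l l' : V → V → ZMod 2)
    (z : V → ZMod 2) (b : V) :
    opT R v (l + l') z b = opT R v l z b + opT R v l' z b := by
  unfold opT
  rw [← Finset.sum_add_distrib]
  refine Finset.sum_congr rfl fun c _ => ?_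
  rw [Pi.add_apply, Pi.add_apply]
  ring

theorem opT_match {R : Finset V} {v : V → I} {i j : I} (hij : i ≠ j) {m : V → V}
    {l : V → V → ZMod 2} (hm : Match8 R v i j m) (hl : MatchW8 R v i j m l) (z : V → ZMod 2) {b : V}
    (hb : b ∈ R) : opT R v l z b = if v b = i ∨ v b = j then z (m b) + z b else 0 := by
  unfold opT
  have h1 : ∀ c ∈ R.filter (fun c => v c ≠ v b), l b c * (z c + z b) =
      if c = m b then (if v b = i ∨ v b = j then z c + z b else 0) else 0 := by
    intro c hc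
    rw [Finset.mem_filter] at hc
    rw [hl b hb c hc.1 (Ne.symm hc.2)]
    by_cases h3 : c = m b
    · by_cases h4 : v b = i ∨ v b = j
      · rw [if_pos ⟨h4, h3⟩, if_pos h3, if_pos h4, one_mul]
      · rw [if_neg (fun h => h4 h.1), if_pos h3, if_neg h4, zero_mul]
    · rw [if_neg (fun h => h3 h.2), if_neg h3, zero_mul]
  rw [Finset.sum_congr rfl h1, Finset.sum_ite_eq' _ (m b)]
  by_cases h4 : v b = i ∨ v b = j
  · have h5 : m b ∈ R.filter (fun c => v c ≠ v b) := by
      rw [Finset.mem_filter]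
      rcases h4 with h6 | h6
      · obtain ⟨h7, h8, _⟩ := hm.1 b hb h6
        exact ⟨h7, by rw [h8, h6]; exact hij.symm⟩
      · obtain ⟨h7, h8, _⟩ := hm.2 b hb h6
        exact ⟨h7, by rw [h8, h6]; exact hij⟩
    rw [if_pos h5]
  · rw [if_neg h4]
    split_ifs <;> rfl

theorem opT_full {R : Finset V} {v : V → I} {i j : I} (hij : i ≠ j)
    (hci : (R.filter (fun c => v c = i)).card = 3) (hcj : (R.filter (fun c => v c = j)).card = 3)
    {l : V → V → ZMod 2} (hl : ∀ x ∈ R, ∀ y ∈ R, v x ≠ v y →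
      l x y = if (v x = i ∧ v y = j) ∨ (v x = j ∧ v y = i) then 1 else 0)
    {z : V → ZMod 2} (hz : EvenZ R v z) {b : V}
    (hb : b ∈ R) : opT R v l z b = if v b = i ∨ v b = j then z b else 0 := by
  have key : ∀ i j : I, i ≠ j → (R.filter (fun c => v c = j)).card = 3 →
      (∀ x ∈ R, ∀ y ∈ R, v x ≠ v y →
        l x y = if (v x = i ∧ v y = j) ∨ (v x = j ∧ v y = i) then 1 else 0) →
      v b = i → opT R v l z b = z b := by
    intro i j hij hcj hl hbi
    unfold opT
    have h1 : ∀ c ∈ R.filter (fun c => v c ≠ v b), l b c * (z c + z b) =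
        if v c = j then z c + z b else 0 := by
      intro c hc
      rw [Finset.mem_filter] at hc
      rw [hl b hb c hc.1 (Ne.symm hc.2)]
      by_cases h3 : v c = j
      · rw [if_pos (Or.inl ⟨hbi, h3⟩), if_pos h3, one_mul]
      · rw [if_neg (fun h => ?_), if_neg h3, zero_mul]
        rcases h with h | h
        · exact h3 h.2
        · exact hij (hbi.symm.trans h.1)
    rw [Finset.sum_congr rfl h1, ← Finset.sum_filter, Finset.filter_filter]
    have h2 : R.filter (fun c => v c ≠ v b ∧ v c = j) = R.filter (fun c => v c = j) := by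
      refine Finset.filter_congr fun c _ => ?_
      constructor
      · exact fun h => h.2
      · intro h
        exact ⟨by rw [h, hbi]; exact hij.symm, h⟩
    rw [h2, Finset.sum_add_distrib, hz j, zero_add, Finset.sum_const, hcj]
    have h3 : ∀ t : ZMod 2, 3 • t = t := by decide
    exact h3 _
  by_cases h4 : v b = i ∨ v b = j
  · rw [if_pos h4]
    rcases h4 with h5 | h5
    · exact key i j hij hcj hl h5
    · refine key j i hij.symm hci (fun x hx y hy hxy => ?_) h5
      rw [hl x hx y hy hxy]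
      exact if_congr or_comm rfl rfl
  · rw [if_neg h4]
    unfold opT
    refine Finset.sum_eq_zero fun c hc => ?_
    rw [Finset.mem_filter] at hc
    rw [hl b hb c hc.1 (Ne.symm hc.2), if_neg, zero_mul]
    intro h
    rcases h with h | h
    · exact h4 (Or.inl h.1)
    · exact h4 (Or.inr h.1)

/-- Three disjoint matchings. -/
theorem exists_full {R : Finset V} {v : V → I} {HH : Set (V → V → ZMod 2)}
    (hadd : ∀ l ∈ HH, ∀ l' ∈ HH, l + l' ∈ HH) {i j : I} (hij : i ≠ j)
    (hci : (R.filter (fun c => v c = i)).card = 3) (hcj : (R.filter (fun c => v c = j)).card = 3)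
    (H : ∀ x ∈ R, ∀ y ∈ R, v x = i → v y = j →
      ∃ l ∈ HH, ∃ m : V → V, Match8 R v i j m ∧ MatchW8 R v i j m l ∧ m x = y) :
    ∃ l ∈ HH, ∀ x ∈ R, ∀ y ∈ R, v x ≠ v y →
      l x y = if (v x = i ∧ v y = j) ∨ (v x = j ∧ v y = i) then 1 else 0 := by
  have hX : Nonempty (Fin 3 ≃ (R.filter (fun c => v c = i))) :=
    ⟨(Fintype.equivFinOfCardEq (by rw [Fintype.card_coe, hci])).symm⟩
  have hY : Nonempty (Fin 3 ≃ (R.filter (fun c => v c = j))) :=
    ⟨(Fintype.equivFinOfCardEq (by rw [Fintype.card_coe, hcj])).symm⟩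
  obtain ⟨X⟩ := hX
  obtain ⟨Y⟩ := hY
  have hXR : ∀ a, (X a : V) ∈ R ∧ v (X a) = i := fun a => by
    have := (X a).2
    rwa [Finset.mem_filter] at this
  have hYR : ∀ a, (Y a : V) ∈ R ∧ v (Y a) = j := fun a => by
    have := (Y a).2
    rwa [Finset.mem_filter] at this
  -- availability of a map
  let av : (Fin 3 → Fin 3) → Prop := fun σ => ∃ l ∈ HH, ∃ m : V → V, Match8 R v i j m ∧
    MatchW8 R v i j m l ∧ ∀ a, m (X a) = Y (σ a)
  have hav : ∀ a b : Fin 3, av (fun c => c + (b - a)) ∨ av (fun c => (a + b) - c) := by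
    intro a b
    obtain ⟨l, hl, m, hm, hml, hab⟩ := H (X a) (hXR a).1 (Y b) (hYR b).1 (hXR a).2 (hYR b).2
    have h1 : ∀ c : Fin 3, ∃ d : Fin 3, m (X c) = Y d := by
      intro c
      obtain ⟨h2, h3, _⟩ := hm.1 (X c) (hXR c).1 (hXR c).2
      refine ⟨Y.symm ⟨m (X c), Finset.mem_filter.mpr ⟨h2, h3⟩⟩, ?_⟩
      rw [Equiv.apply_symm_apply]
    choose σ hσ using h1
    have h4 : ∀ c d, σ c = σ d → c = d := by
      intro c d hcd
      have h5 : m (X c) = m (X d) := by rw [hσ, hσ, hcd]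
      have h6 : (X c : V) = X d := by
        rw [← (hm.1 (X c) (hXR c).1 (hXR c).2).2.2, h5,
          (hm.1 (X d) (hXR d).1 (hXR d).2).2.2]
      exact X.injective (Subtype.ext h6)
    have h5 : σ a = b := by
      have h6 : (Y (σ a) : V) = Y b := by rw [← hσ, hab]
      exact Y.injective (Subtype.ext h6)
    rcases perm3 a b σ h4 h5 with h6 | h6
    · exact Or.inl ⟨l, hl, m, hm, hml, fun c => by rw [hσ, h6]⟩
    · exact Or.inr ⟨l, hl, m, hm, hml, fun c => by rw [hσ, h6]⟩
  have hthree : ∃ τ : Fin 3 → Fin 3 → Fin 3, (∀ u, av (τ u)) ∧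
      ∀ a b : Fin 3, (∑ u : Fin 3, if b = τ u a then (1 : ZMod 2) else 0) = 1 := by
    rcases logic3 (E := fun u => av (fun c => c + u)) (O := fun w => av (fun c => w - c)) hav
      with h | h
    · exact ⟨fun u c => c + u, h, by decide⟩
    · exact ⟨fun w c => w - c, h, by decide⟩
  obtain ⟨τ, hτ, hsum⟩ := hthree
  choose l hl m hm hml hmX using hτ
  refine ⟨l 0 + l 1 + l 2, hadd _ (hadd _ (hl 0) _ (hl 1)) _ (hl 2), ?_⟩
  intro x hx y hy hxy
  -- the weights for `x` in the fibre `i` and `y` in the fibre `j`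
  have hXsurj : ∀ x ∈ R, v x = i → ∃ a, x = X a := fun x hx hxi =>
    ⟨X.symm ⟨x, Finset.mem_filter.mpr ⟨hx, hxi⟩⟩, by rw [Equiv.apply_symm_apply]⟩
  have hYsurj : ∀ y ∈ R, v y = j → ∃ b, y = Y b := fun y hy hyj =>
    ⟨Y.symm ⟨y, Finset.mem_filter.mpr ⟨hy, hyj⟩⟩, by rw [Equiv.apply_symm_apply]⟩
  have hXY : ∀ (u a b : Fin 3), (Y b : V) = m u (X a) ↔ b = τ u a := by
    intro u a b
    rw [hmX]
    constructor
    · intro h
      exact Y.injective (Subtype.ext h)
    · intro h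
      rw [h]
  have hYX : ∀ (u a b : Fin 3), (X a : V) = m u (Y b) ↔ b = τ u a := by
    intro u a b
    rw [← hXY]
    constructor
    · intro h
      rw [h, ((hm u).2 (Y b) (hYR b).1 (hYR b).2).2.2]
    · intro h
      rw [h, ((hm u).1 (X a) (hXR a).1 (hXR a).2).2.2]
  have hsum3 : ∀ f : Fin 3 → ZMod 2, f 0 + f 1 + f 2 = ∑ u, f u := fun f => by
    rw [Fin.sum_univ_three]
  have e1 : (l 0 + l 1 + l 2) x y = ∑ u, l u x y := by
    rw [← hsum3]; rfl
  rw [e1, Finset.sum_congr rfl fun u _ => hml u x hx y hy hxy]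
  by_cases c1 : v x = i ∧ v y = j
  · rw [if_pos (Or.inl c1)]
    obtain ⟨a, rfl⟩ := hXsurj x hx c1.1
    obtain ⟨b, rfl⟩ := hYsurj y hy c1.2
    refine Eq.trans ?_ (hsum a b)
    refine Finset.sum_congr rfl fun u _ => if_congr ?_ rfl rfl
    rw [hXY]
    exact ⟨fun h => h.2, fun h => ⟨Or.inl c1.1, h⟩⟩
  · by_cases c2 : v x = j ∧ v y = i
    · rw [if_pos (Or.inr c2)]
      obtain ⟨a, rfl⟩ := hXsurj y hy c2.2
      obtain ⟨b, rfl⟩ := hYsurj x hx c2.1
      refine Eq.trans ?_ (hsum a b)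
      refine Finset.sum_congr rfl fun u _ => if_congr ?_ rfl rfl
      rw [hYX]
      exact ⟨fun h => h.2, fun h => ⟨Or.inr c2.1, h⟩⟩
    · rw [if_neg (fun h => h.elim c1 c2)]
      refine Finset.sum_eq_zero fun u _ => if_neg ?_
      rintro ⟨h | h, hy'⟩
      · exact c1 ⟨h, by rw [hy']; exact ((hm u).1 x hx h).2.1⟩
      · exact c2 ⟨h, by rw [hy']; exact ((hm u).2 x hx h).2.1⟩

/-- The operators which come from `HH`. -/
def IsOp (R : Finset V) (v : V → I) (HH : Set (V → V → ZMod 2))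
    (T : (V → ZMod 2) → V → ZMod 2) : Prop :=
  ∃ l ∈ HH, ∀ z, EvenZ R v z → ∀ b ∈ R, opT R v l z b = T z b

theorem IsOp.add {R : Finset V} {v : V → I} {HH : Set (V → V → ZMod 2)}
    (hadd : ∀ l ∈ HH, ∀ l' ∈ HH, l + l' ∈ HH) {T T' : (V → ZMod 2) → V → ZMod 2}
    (h : IsOp R v HH T) (h' : IsOp R v HH T') : IsOp R v HH (fun z b => T z b + T' z b) := by
  obtain ⟨l, hl, hT⟩ := h
  obtain ⟨l', hl', hT'⟩ := h'
  exact ⟨l + l', hadd l hl l' hl', fun z hz b hb => by
    rw [opT_add, hT z hz b hb, hT' z hz b hb]⟩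

/-- The fibres in `A` have an operator without eigenvalues. -/
def Good8 (R : Finset V) (v : V → I) (HH : Set (V → V → ZMod 2)) (A : Finset I) : Prop :=
  ∃ T, IsOp R v HH T ∧ (∀ z b, v b ∉ A → T z b = 0) ∧
    ∀ (ε : ZMod 2) (z : V → ZMod 2), EvenZ R v z →
      (∀ b ∈ R, v b ∈ A → T z b = ε * z b) → ∀ b ∈ R, v b ∈ A → z b = 0

theorem Good8.union {R : Finset V} {v : V → I} {HH : Set (V → V → ZMod 2)}
    (hadd : ∀ l ∈ HH, ∀ l' ∈ HH, l + l' ∈ HH) {A B : Finset I} (hA : Good8 R v HH A)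
    (hB : Good8 R v HH B) (hAB : Disjoint A B) : Good8 R v HH (A ∪ B) := by
  obtain ⟨T, hT, hT0, hTe⟩ := hA
  obtain ⟨S, hS, hS0, hSe⟩ := hB
  refine ⟨_, hT.add hadd hS, ?_, ?_⟩
  · intro z b hb
    rw [Finset.mem_union, not_or] at hb
    rw [hT0 z b hb.1, hS0 z b hb.2, add_zero]
  · intro ε z hz h b hb hbA
    rw [Finset.mem_union] at hbA
    rcases hbA with h1 | h1
    · refine hTe ε z hz (fun c hc hcA => ?_) b hb h1
      have h2 := h c hc (Finset.mem_union_left _ hcA)
      rwa [hS0 z c (Finset.disjoint_left.mp hAB hcA), add_zero] at h2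
    · refine hSe ε z hz (fun c hc hcB => ?_) b hb h1
      have h2 := h c hc (Finset.mem_union_right _ hcB)
      rwa [hT0 z c (Finset.disjoint_right.mp hAB hcB), zero_add] at h2

/-- The hypothesis on `HH`. -/
def AllMatch8 (R : Finset V) (v : V → I) (HH : Set (V → V → ZMod 2)) : Prop :=
  ∀ x ∈ R, ∀ y ∈ R, v x ≠ v y → ∃ l ∈ HH, ∃ m : V → V,
    Match8 R v (v x) (v y) m ∧ MatchW8 R v (v x) (v y) m l ∧ m x = y

theorem exists_op_full {R : Finset V} {v : V → I} {HH : Set (V → V → ZMod 2)}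
    (hadd : ∀ l ∈ HH, ∀ l' ∈ HH, l + l' ∈ HH)
    (hcard : ∀ x ∈ R, (R.filter (fun c => v c = v x)).card = 3) (H : AllMatch8 R v HH)
    {i j : I} (hi : i ∈ R.image v) (hj : j ∈ R.image v) (hij : i ≠ j) :
    IsOp R v HH (fun z b => if v b = i ∨ v b = j then z b else 0) := by
  obtain ⟨x0, hx0, rfl⟩ := Finset.mem_image.mp hi
  obtain ⟨y0, hy0, rfl⟩ := Finset.mem_image.mp hj
  obtain ⟨l, hl, hw⟩ := exists_full hadd hij (hcard x0 hx0) (hcard y0 hy0)
    (fun x hx y hy hxi hyj => by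
      have := H x hx y hy (by rw [hxi, hyj]; exact hij)
      rwa [hxi, hyj] at this)
  exact ⟨l, hl, fun z hz b hb => opT_full hij (hcard x0 hx0) (hcard y0 hy0) hw hz hb⟩

theorem exists_op_edge {R : Finset V} {v : V → I} {HH : Set (V → V → ZMod 2)}
    (hadd : ∀ l ∈ HH, ∀ l' ∈ HH, l + l' ∈ HH)
    (hcard : ∀ x ∈ R, (R.filter (fun c => v c = v x)).card = 3) (H : AllMatch8 R v HH)
    {i j : I} (hi : i ∈ R.image v) (hj : j ∈ R.image v) (hij : i ≠ j) :
    ∃ m : V → V, Match8 R v i j m ∧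
      IsOp R v HH (fun z b => if v b = i ∨ v b = j then z (m b) else 0) := by
  have hf := exists_op_full hadd hcard H hi hj hij
  obtain ⟨x0, hx0, rfl⟩ := Finset.mem_image.mp hi
  obtain ⟨y0, hy0, rfl⟩ := Finset.mem_image.mp hj
  obtain ⟨l, hl, m, hm, hml, _⟩ := H x0 hx0 y0 hy0 hij
  refine ⟨m, hm, ?_⟩
  have h1 : IsOp R v HH (fun z b => if v b = v x0 ∨ v b = v y0 then z (m b) + z b else 0) :=
    ⟨l, hl, fun z _ b hb => opT_match hij hm hml z hb⟩
  obtain ⟨l', hl', hT⟩ := h1.add hadd hf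
  refine ⟨l', hl', fun z hz b hb => ?_⟩
  rw [hT z hz b hb]
  by_cases h4 : v b = v x0 ∨ v b = v y0
  · simp only [if_pos h4]
    have h3 : ∀ s t : ZMod 2, s + t + t = s := by decide
    exact h3 _ _
  · simp only [if_neg h4, add_zero]

theorem good3 {R : Finset V} {v : V → I} {HH : Set (V → V → ZMod 2)}
    (hadd : ∀ l ∈ HH, ∀ l' ∈ HH, l + l' ∈ HH)
    (hcard : ∀ x ∈ R, (R.filter (fun c => v c = v x)).card = 3) (H : AllMatch8 R v HH)
    {a b c : I} (ha : a ∈ R.image v) (hb : b ∈ R.image v) (hc : c ∈ R.image v)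
    (hab : a ≠ b) (hac : a ≠ c) (hbc : b ≠ c) : Good8 R v HH {a, b, c} := by
  obtain ⟨m, hm, hE⟩ := exists_op_edge hadd hcard H ha hb hab
  obtain ⟨n, hn, hE'⟩ := exists_op_edge hadd hcard H hb hc hbc
  have hP := exists_op_full hadd hcard H ha hb hab
  refine ⟨_, (hE.add hadd hE').add hadd hP, ?_, ?_⟩
  · intro z x hx
    simp only [Finset.mem_insert, Finset.mem_singleton, not_or] at hx
    simp only [hx.1, hx.2.1, hx.2.2, or_self, if_false, add_zero]
  · intro ε z hz h
    -- the path of `x`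
    have key : ∀ x ∈ R, v x = a → z x = 0 ∧ z (m x) = 0 ∧ z (n (m x)) = 0 := by
      intro x hx hxa
      obtain ⟨h1, h2, h3⟩ := hm.1 x hx hxa
      obtain ⟨h4, h5, h6⟩ := hn.1 (m x) h1 h2
      have e1 := h x hx (by simp [hxa])
      have e2 := h (m x) h1 (by simp [h2])
      have e3 := h (n (m x)) h4 (by simp [h5])
      simp only [hxa, hab, hac, or_false, or_true, true_or, false_or, if_true, if_false,
        add_zero, or_self] at e1
      simp only [h2, h3, hbc, hab.symm, or_false, or_true, true_or, false_or, if_true, if_false,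
        add_zero, or_self] at e2
      simp only [h5, h6, hbc.symm, hac.symm, or_false, or_true, true_or, false_or, if_true,
        if_false, add_zero, zero_add, or_self] at e3
      revert e1 e2 e3
      generalize z x = z1
      generalize z (m x) = z2
      generalize z (n (m x)) = z3
      clear h
      revert ε z1 z2 z3
      decide
    intro x hx hxA
    simp only [Finset.mem_insert, Finset.mem_singleton] at hxA
    rcases hxA with h1 | h1 | h1
    · exact (key x hx h1).1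
    · obtain ⟨h2, h3, h4⟩ := hm.2 x hx h1
      have := (key (m x) h2 h3).2.1
      rwa [h4] at this
    · obtain ⟨h2, h3, h4⟩ := hn.2 x hx h1
      obtain ⟨h5, h6, h7⟩ := hm.2 (n x) h2 h3
      have := (key (m (n x)) h5 h6).2.2
      rwa [h7, h4] at this

theorem good4 {R : Finset V} {v : V → I} {HH : Set (V → V → ZMod 2)}
    (hadd : ∀ l ∈ HH, ∀ l' ∈ HH, l + l' ∈ HH)
    (hcard : ∀ x ∈ R, (R.filter (fun c => v c = v x)).card = 3) (H : AllMatch8 R v HH)
    {a b c d : I} (ha : a ∈ R.image v) (hb : b ∈ R.image v) (hc : c ∈ R.image v)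
    (hd : d ∈ R.image v) (hab : a ≠ b) (hac : a ≠ c) (had : a ≠ d) (hbc : b ≠ c) (hbd : b ≠ d)
    (hcd : c ≠ d) : Good8 R v HH {a, b, c, d} := by
  obtain ⟨m, hm, hE⟩ := exists_op_edge hadd hcard H ha hb hab
  obtain ⟨n, hn, hE'⟩ := exists_op_edge hadd hcard H hb hc hbc
  obtain ⟨p, hp, hE''⟩ := exists_op_edge hadd hcard H hc hd hcd
  have hP := exists_op_full hadd hcard H ha hb hab
  have hQ := exists_op_full hadd hcard H hc hd hcd
  refine ⟨_, (((hE.add hadd hE').add hadd hE'').add hadd hP).add hadd hQ, ?_, ?_⟩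
  · intro z x hx
    simp only [Finset.mem_insert, Finset.mem_singleton, not_or] at hx
    simp only [hx.1, hx.2.1, hx.2.2.1, hx.2.2.2, or_self, if_false, add_zero]
  · intro ε z hz h
    have key : ∀ x ∈ R, v x = a → z x = 0 ∧ z (m x) = 0 ∧ z (n (m x)) = 0 ∧
        z (p (n (m x))) = 0 := by
      intro x hx hxa
      obtain ⟨h1, h2, h3⟩ := hm.1 x hx hxa
      obtain ⟨h4, h5, h6⟩ := hn.1 (m x) h1 h2
      obtain ⟨h7, h8, h9⟩ := hp.1 (n (m x)) h4 h5
      have e1 := h x hx (by simp [hxa])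
      have e2 := h (m x) h1 (by simp [h2])
      have e3 := h (n (m x)) h4 (by simp [h5])
      have e4 := h (p (n (m x))) h7 (by simp [h8])
      simp only [hxa, hab, hac, had, or_false, or_true, true_or, false_or, if_true, if_false,
        add_zero, zero_add, or_self] at e1
      simp only [h2, h3, hbc, hbd, hab.symm, or_false, or_true, true_or, false_or, if_true,
        if_false, add_zero, zero_add, or_self] at e2
      simp only [h5, h6, hcd, hbc.symm, hac.symm, or_false, or_true, true_or, false_or, if_true,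
        if_false, add_zero, zero_add, or_self] at e3
      simp only [h8, h9, hcd.symm, hbd.symm, had.symm, or_false, or_true, true_or, false_or,
        if_true, if_false, add_zero, zero_add, or_self] at e4
      revert e1 e2 e3 e4
      generalize z x = z1
      generalize z (m x) = z2
      generalize z (n (m x)) = z3
      generalize z (p (n (m x))) = z4
      clear h
      revert ε z1 z2 z3 z4
      decide
    intro x hx hxA
    simp only [Finset.mem_insert, Finset.mem_singleton] at hxA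
    rcases hxA with h1 | h1 | h1 | h1
    · exact (key x hx h1).1
    · obtain ⟨h2, h3, h4⟩ := hm.2 x hx h1
      have := (key (m x) h2 h3).2.1
      rwa [h4] at this
    · obtain ⟨h2, h3, h4⟩ := hn.2 x hx h1
      obtain ⟨h5, h6, h7⟩ := hm.2 (n x) h2 h3
      have := (key (m (n x)) h5 h6).2.2.1
      rwa [h7, h4] at this
    · obtain ⟨h2, h3, h4⟩ := hp.2 x hx h1
      obtain ⟨h5, h6, h7⟩ := hn.2 (p x) h2 h3
      obtain ⟨h8, h9, h10⟩ := hm.2 (n (p x)) h5 h6
      have := (key (m (n (p x))) h8 h9).2.2.2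
      rwa [h10, h7, h4] at this

theorem good5 {R : Finset V} {v : V → I} {HH : Set (V → V → ZMod 2)}
    (hadd : ∀ l ∈ HH, ∀ l' ∈ HH, l + l' ∈ HH)
    (hcard : ∀ x ∈ R, (R.filter (fun c => v c = v x)).card = 3) (H : AllMatch8 R v HH)
    {a b c d e : I} (ha : a ∈ R.image v) (hb : b ∈ R.image v) (hc : c ∈ R.image v)
    (hd : d ∈ R.image v) (he : e ∈ R.image v) (hab : a ≠ b) (hac : a ≠ c) (had : a ≠ d)
    (hae : a ≠ e) (hbc : b ≠ c) (hbd : b ≠ d) (hbe : b ≠ e) (hcd : c ≠ d) (hce : c ≠ e)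
    (hde : d ≠ e) : Good8 R v HH {a, b, c, d, e} := by
  obtain ⟨m, hm, hE⟩ := exists_op_edge hadd hcard H ha hb hab
  obtain ⟨n, hn, hE'⟩ := exists_op_edge hadd hcard H hb hc hbc
  obtain ⟨p, hp, hE''⟩ := exists_op_edge hadd hcard H hc hd hcd
  obtain ⟨q, hq, hE3⟩ := exists_op_edge hadd hcard H hd he hde
  have hP := exists_op_full hadd hcard H ha hb hab
  refine ⟨_, (((hE.add hadd hE').add hadd hE'').add hadd hE3).add hadd hP, ?_, ?_⟩
  · intro z x hx
    simp only [Finset.mem_insert, Finset.mem_singleton, not_or] at hx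
    simp only [hx.1, hx.2.1, hx.2.2.1, hx.2.2.2.1, hx.2.2.2.2, or_self, if_false, add_zero]
  · intro ε z hz h
    have key : ∀ x ∈ R, v x = a → z x = 0 ∧ z (m x) = 0 ∧ z (n (m x)) = 0 ∧
        z (p (n (m x))) = 0 ∧ z (q (p (n (m x)))) = 0 := by
      intro x hx hxa
      obtain ⟨h1, h2, h3⟩ := hm.1 x hx hxa
      obtain ⟨h4, h5, h6⟩ := hn.1 (m x) h1 h2
      obtain ⟨h7, h8, h9⟩ := hp.1 (n (m x)) h4 h5
      obtain ⟨h10, h11, h12⟩ := hq.1 (p (n (m x))) h7 h8
      have e1 := h x hx (by simp [hxa])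
      have e2 := h (m x) h1 (by simp [h2])
      have e3 := h (n (m x)) h4 (by simp [h5])
      have e4 := h (p (n (m x))) h7 (by simp [h8])
      have e5 := h (q (p (n (m x)))) h10 (by simp [h11])
      simp only [hxa, hab, hac, had, hae, or_false, or_true, true_or, false_or, if_true,
        if_false, add_zero, zero_add, or_self] at e1
      simp only [h2, h3, hbc, hbd, hbe, hab.symm, or_false, or_true, true_or, false_or, if_true,
        if_false, add_zero, zero_add, or_self] at e2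
      simp only [h5, h6, hcd, hce, hbc.symm, hac.symm, or_false, or_true, true_or, false_or,
        if_true, if_false, add_zero, zero_add, or_self] at e3
      simp only [h8, h9, hde, hcd.symm, hbd.symm, had.symm, or_false, or_true, true_or, false_or,
        if_true, if_false, add_zero, zero_add, or_self] at e4
      simp only [h11, h12, hde.symm, hce.symm, hbe.symm, hae.symm, or_false, or_true, true_or,
        false_or, if_true, if_false, add_zero, zero_add, or_self] at e5
      revert e1 e2 e3 e4 e5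
      generalize z x = z1
      generalize z (m x) = z2
      generalize z (n (m x)) = z3
      generalize z (p (n (m x))) = z4
      generalize z (q (p (n (m x)))) = z5
      clear h
      revert ε z1 z2 z3 z4 z5
      decide
    intro x hx hxA
    simp only [Finset.mem_insert, Finset.mem_singleton] at hxA
    rcases hxA with h1 | h1 | h1 | h1 | h1
    · exact (key x hx h1).1
    · obtain ⟨h2, h3, h4⟩ := hm.2 x hx h1
      have := (key (m x) h2 h3).2.1
      rwa [h4] at this
    · obtain ⟨h2, h3, h4⟩ := hn.2 x hx h1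
      obtain ⟨h5, h6, h7⟩ := hm.2 (n x) h2 h3
      have := (key (m (n x)) h5 h6).2.2.1
      rwa [h7, h4] at this
    · obtain ⟨h2, h3, h4⟩ := hp.2 x hx h1
      obtain ⟨h5, h6, h7⟩ := hn.2 (p x) h2 h3
      obtain ⟨h8, h9, h10⟩ := hm.2 (n (p x)) h5 h6
      have := (key (m (n (p x))) h8 h9).2.2.2.1
      rwa [h10, h7, h4] at this
    · obtain ⟨h2, h3, h4⟩ := hq.2 x hx h1
      obtain ⟨h5, h6, h7⟩ := hp.2 (q x) h2 h3
      obtain ⟨h8, h9, h10⟩ := hn.2 (p (q x)) h5 h6
      obtain ⟨h11, h12, h13⟩ := hm.2 (n (p (q x))) h8 h9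
      have := (key (m (n (p (q x)))) h11 h12).2.2.2.2
      rwa [h13, h10, h7, h4] at this

theorem goodAll {R : Finset V} {v : V → I} {HH : Set (V → V → ZMod 2)}
    (hadd : ∀ l ∈ HH, ∀ l' ∈ HH, l + l' ∈ HH)
    (hcard : ∀ x ∈ R, (R.filter (fun c => v c = v x)).card = 3) (H : AllMatch8 R v HH) :
    ∀ (n : ℕ) (A : Finset I), A ⊆ R.image v → A.card = n → 3 ≤ n → Good8 R v HH A := by
  intro n
  induction n using Nat.strong_induction_on with
  | _ n ih =>
    intro A hA hn h3
    by_cases h6 : 6 ≤ n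
    · obtain ⟨B, hBA, hB3⟩ := Finset.exists_subset_card_eq (s := A) (n := 3) (by omega)
      obtain ⟨a, b, c, hab, hac, hbc, rfl⟩ := Finset.card_eq_three.mp hB3
      have h1 : Good8 R v HH {a, b, c} :=
        good3 hadd hcard H (hA (hBA (by simp))) (hA (hBA (by simp))) (hA (hBA (by simp)))
          hab hac hbc
      have h2 : (A \ {a, b, c}).card = n - 3 := by
        rw [Finset.card_sdiff_of_subset hBA, hn, hB3]
      have h4 := (ih (n - 3) (by omega) (A \ {a, b, c})
        (Finset.sdiff_subset.trans hA) h2 (by omega)).union hadd h1 Finset.sdiff_disjoint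
      rwa [Finset.sdiff_union_of_subset hBA] at h4
    · have h7 : n = 3 ∨ n = 4 ∨ n = 5 := by omega
      rcases h7 with h7 | h7 | h7
      · rw [h7] at hn
        obtain ⟨a, b, c, hab, hac, hbc, rfl⟩ := Finset.card_eq_three.mp hn
        exact good3 hadd hcard H (hA (by simp)) (hA (by simp)) (hA (by simp)) hab hac hbc
      · rw [h7] at hn
        obtain ⟨d, B, hdB, rfl, hB⟩ := Finset.card_eq_succ.mp hn
        obtain ⟨a, b, c, hab, hac, hbc, rfl⟩ := Finset.card_eq_three.mp hB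
        simp only [Finset.mem_insert, Finset.mem_singleton, not_or] at hdB
        exact good4 hadd hcard H (hA (by simp)) (hA (by simp)) (hA (by simp)) (hA (by simp))
          hdB.1 hdB.2.1 hdB.2.2 hab hac hbc
      · rw [h7] at hn
        obtain ⟨e, B, heB, rfl, hB⟩ := Finset.card_eq_succ.mp hn
        obtain ⟨d, B', hdB, rfl, hB'⟩ := Finset.card_eq_succ.mp hB
        obtain ⟨a, b, c, hab, hac, hbc, rfl⟩ := Finset.card_eq_three.mp hB'
        simp only [Finset.mem_insert, Finset.mem_singleton, not_or] at hdB heB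
        exact good5 hadd hcard H (hA (by simp)) (hA (by simp)) (hA (by simp)) (hA (by simp))
          (hA (by simp)) heB.1 heB.2.1 heB.2.2.1 heB.2.2.2 hdB.1 hdB.2.1 hdB.2.2 hab hac hbc

/-- There is an `l` in `HH` whose operator has no eigenvalue `0` or `1`. -/
theorem exists_noEigen {R : Finset V} {v : V → I} {HH : Set (V → V → ZMod 2)}
    (hadd : ∀ l ∈ HH, ∀ l' ∈ HH, l + l' ∈ HH)
    (hcard : ∀ x ∈ R, (R.filter (fun c => v c = v x)).card = 3) (H : AllMatch8 R v HH)
    (h3 : 3 ≤ (R.image v).card) :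
    ∃ l ∈ HH, ∀ (ε : ZMod 2) (z : V → ZMod 2), EvenZ R v z →
      (∀ b ∈ R, opT R v l z b = ε * z b) → ∀ b ∈ R, z b = 0 := by
  obtain ⟨T, ⟨l, hl, hT⟩, _, hTe⟩ := goodAll hadd hcard H _ (R.image v) subset_rfl rfl h3
  refine ⟨l, hl, fun ε z hz h b hb => ?_⟩
  exact hTe ε z hz (fun c hc _ => by rw [← hT z hz c hc]; exact h c hc) b hb
    (Finset.mem_image_of_mem v hb)

/-- A perfect matching is given by a map. -/
theorem exists_match_of_isMatch7 {R : Finset V} {v : V → I} {i j : I} (hij : i ≠ j)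
    {e : V → V → ZMod 2} (he : IsMatch7 R v i j e) :
    ∃ m : V → V, Match8 R v i j m ∧ MatchW8 R v i j m e := by
  choose! f hf1 hf2 hf3 hf4 using he.left
  choose! f' hf1' hf2' hf3' hf4' using he.right
  have hji : j ≠ i := hij.symm
  let m : V → V := fun x => if v x = i then f x else f' x
  have hmi : ∀ x, v x = i → m x = f x := fun x hx => if_pos hx
  have hmj : ∀ x, v x = j → m x = f' x := fun x hx => if_neg (by rw [hx]; exact hji)
  have hff : ∀ x ∈ R, v x = i → f' (f x) = x := by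
    intro x hx hxi
    by_contra hne
    have h1 := hf4' (f x) (hf1 x hx hxi) (hf2 x hx hxi) x hx hxi (Ne.symm hne)
    rw [he.symm (f x) (hf1 x hx hxi) x hx, hf3 x hx hxi] at h1
    exact one_ne_zero h1
  have hff' : ∀ x ∈ R, v x = j → f (f' x) = x := by
    intro x hx hxi
    by_contra hne
    have h1 := hf4 (f' x) (hf1' x hx hxi) (hf2' x hx hxi) x hx hxi (Ne.symm hne)
    rw [he.symm (f' x) (hf1' x hx hxi) x hx, hf3' x hx hxi] at h1
    exact one_ne_zero h1
  refine ⟨m, ⟨?_, ?_⟩, ?_⟩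
  · intro x hx hxi
    rw [hmi x hxi]
    exact ⟨hf1 x hx hxi, hf2 x hx hxi, by rw [hmj _ (hf2 x hx hxi), hff x hx hxi]⟩
  · intro x hx hxi
    rw [hmj x hxi]
    exact ⟨hf1' x hx hxi, hf2' x hx hxi, by rw [hmi _ (hf2' x hx hxi), hff' x hx hxi]⟩
  · intro x hx y hy hxy
    by_cases h1 : (v x = i ∧ v y = j) ∨ (v x = j ∧ v y = i)
    · rcases h1 with ⟨h2, h3⟩ | ⟨h2, h3⟩
      · rw [hmi x h2]
        by_cases h4 : y = f x
        · rw [if_pos ⟨Or.inl h2, h4⟩, h4, hf3 x hx h2]
        · rw [if_neg (fun h => h4 h.2), hf4 x hx h2 y hy h3 h4]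
      · rw [hmj x h2]
        by_cases h4 : y = f' x
        · rw [if_pos ⟨Or.inr h2, h4⟩, h4, hf3' x hx h2]
        · rw [if_neg (fun h => h4 h.2), hf4' x hx h2 y hy h3 h4]
    · have h5 : e x y = 0 := by
        by_contra h6
        exact h1 (he.supp x hx y hy hxy h6)
      rw [h5, if_neg]
      rintro ⟨h6 | h6, h7⟩
      · refine h1 (Or.inl ⟨h6, ?_⟩)
        rw [h7, hmi x h6]
        exact hf2 x hx h6
      · refine h1 (Or.inr ⟨h6, ?_⟩)
        rw [h7, hmj x h6]
        exact hf2' x hx h6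

/-- The pattern lemma. -/
theorem exists_pattern8 (S : Finset V) (p : V → I)
    (hfib : ∀ b ∈ S, (S.filter fun c => p c = p b).card = 3) (hn : 3 ≤ (S.image p).card)
    (E : Set (V → V → ZMod 2)) (hadd : ∀ e ∈ E, ∀ e' ∈ E, e + e' ∈ E)
    (hmatch : ∀ b ∈ S, ∀ c ∈ S, p b ≠ p c → ∃ e ∈ E, IsMatch7 S p (p b) (p c) e ∧ e b c = 1) :
    ∃ e ∈ E, ∀ z : V → ZMod 2, (∀ b ∈ S, ∑ c ∈ S.filter (fun c => p c = p b), z c = 0) →
      ∀ ε : ZMod 2, (∀ b ∈ S, ∑ c ∈ S.filter (fun c => p c ≠ p b), e b c * (z b + z c) = ε * z b) →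
        ∀ b ∈ S, z b = 0 := by
  have H : AllMatch8 S p E := by
    intro x hx y hy hxy
    obtain ⟨e, he, hm, h1⟩ := hmatch x hx y hy hxy
    obtain ⟨m, hm1, hm2⟩ := exists_match_of_isMatch7 hxy hm
    refine ⟨e, he, m, hm1, hm2, ?_⟩
    have h2 := hm2 x hx y hy hxy
    rw [h1] at h2
    by_contra h3
    rw [if_neg (fun h => h3 h.2.symm)] at h2
    exact one_ne_zero h2
  obtain ⟨l, hl, hfin⟩ := exists_noEigen hadd hfib H hn
  refine ⟨l, hl, fun z hz ε h b hb => ?_⟩
  refine hfin ε z (fun α => ?_) (fun c hc => ?_) b hb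
  · by_cases h1 : ∃ b ∈ S, p b = α
    · obtain ⟨b, hb, rfl⟩ := h1
      exact hz b hb
    · refine Finset.sum_eq_zero fun c hc => ?_
      rw [Finset.mem_filter] at hc
      exact absurd ⟨c, hc⟩ h1
  · rw [← h c hc]
    unfold opT
    exact Finset.sum_congr rfl fun d _ => by rw [add_comm (z d)]

end

end Pool.Agent.Lib.MP_89bcae_ag
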