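import Mathlib
import Pool.Agent.Lib.MP_89bcae_ag.DefsRedei7
import Pool.Agent.Lib.MP_89bcae_ag.Lin8

/-!
# Rédei maps with prescribed weights: the algebra
-/

open Polynomial

open scoped Classical

set_option linter.unusedSimpArgs false
set_option linter.unusedVariables false
set_option linter.unusedSectionVars false

namespace Pool.Agent.Lib.MP_89bcae_ag

section

variable {F : Type*} [Field F]

theorem eval_derivative_prod8 (R : Finset F) {b : F} (hb : b ∈ R) :
    (derivative (∏ c ∈ R, (X - C c))).eval b = ∏ c ∈ R.erase b, (b - c) := by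
  rw [← Finset.mul_prod_erase R _ hb, derivative_mul, eval_add, eval_mul, eval_mul,
    derivative_X_sub_C, eval_one, one_mul, eval_sub, eval_X, eval_C, sub_self, zero_mul, add_zero,
    eval_prod]
  exact Finset.prod_congr rfl fun c _ => by rw [eval_sub, eval_X, eval_C]

variable [IsAlgClosed F]

theorem eq_prod_of_separable8 {P : F[X]} (hP : P.Separable) :
    P = C P.leadingCoeff * ∏ c ∈ P.roots.toFinset, (X - C c) := by
  have h1 : P.roots.Nodup := nodup_roots hP
  have h2 : P.Splits := IsAlgClosed.splits P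
  conv_lhs => rw [h2.eq_prod_roots]
  congr 1
  rw [Finset.prod_eq_multiset_prod, Multiset.toFinset_val, Multiset.dedup_eq_self.mpr h1]

theorem card_roots_of_separable8 {P : F[X]} (hP : P.Separable) :
    P.roots.toFinset.card = P.natDegree := by
  rw [Multiset.toFinset_card_of_nodup (nodup_roots hP),
    (IsAlgClosed.splits P).natDegree_eq_card_roots]

variable {g D : F[X]}

theorem mem_R8 (hsep : (D.comp g).Separable) {b : F} :
    b ∈ (D.comp g).roots.toFinset ↔ D.eval (g.eval b) = 0 := by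
  have hne : D.comp g ≠ 0 := hsep.ne_zero
  rw [Multiset.mem_toFinset, mem_roots hne, IsRoot.def, eval_comp]

theorem sep_fibre8 (hsep : (D.comp g).Separable) {b : F} (hb : b ∈ (D.comp g).roots.toFinset) :
    (g - C (g.eval b)).Separable := by
  have h1 : D.eval (g.eval b) = 0 := (mem_R8 hsep).mp hb
  have h2 : X - C (g.eval b) ∣ D := dvd_iff_isRoot.mpr h1
  obtain ⟨q, hq⟩ := h2
  refine hsep.of_dvd ⟨q.comp g, ?_⟩
  conv_lhs => rw [hq, mul_comp, sub_comp, X_comp, C_comp]

theorem fibre_eq8 (hg : g.Monic) (hdeg : g.natDegree = 3) (hsep : (D.comp g).Separable) {b : F}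
    (hb : b ∈ (D.comp g).roots.toFinset) :
    (D.comp g).roots.toFinset.filter (fun c => g.eval c = g.eval b) =
      (g - C (g.eval b)).roots.toFinset := by
  have h1 : D.eval (g.eval b) = 0 := (mem_R8 hsep).mp hb
  have h2 : g - C (g.eval b) ≠ 0 := (sep_fibre8 hsep hb).ne_zero
  ext c
  rw [Finset.mem_filter, mem_R8 hsep, Multiset.mem_toFinset, mem_roots h2, IsRoot.def, eval_sub,
    eval_C, sub_eq_zero]
  constructor
  · exact fun h => h.2
  · intro h
    exact ⟨by rw [h]; exact h1, h⟩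

theorem card_fibre8 (hg : g.Monic) (hdeg : g.natDegree = 3) (hsep : (D.comp g).Separable) {b : F}
    (hb : b ∈ (D.comp g).roots.toFinset) :
    ((D.comp g).roots.toFinset.filter (fun c => g.eval c = g.eval b)).card = 3 := by
  rw [fibre_eq8 hg hdeg hsep hb, card_roots_of_separable8 (sep_fibre8 hsep hb), natDegree_sub_C,
    hdeg]

theorem card_image8 (hg : g.Monic) (hdeg : g.natDegree = 3) (hsep : (D.comp g).Separable) :
    ((D.comp g).roots.toFinset.image fun c => g.eval c).card = D.natDegree := by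
  have h1 : (D.comp g).roots.toFinset.card = D.natDegree * 3 := by
    rw [card_roots_of_separable8 hsep, natDegree_comp, hdeg]
  have h2 := Finset.card_eq_sum_card_image (fun c => g.eval c) (D.comp g).roots.toFinset
  have h3 : ∀ α ∈ (D.comp g).roots.toFinset.image (fun c => g.eval c),
      ((D.comp g).roots.toFinset.filter (fun c => g.eval c = α)).card = 3 := by
    intro α hα
    obtain ⟨b, hb, rfl⟩ := Finset.mem_image.mp hα
    exact card_fibre8 hg hdeg hsep hb
  rw [Finset.sum_congr rfl h3, Finset.sum_const, h1, smul_eq_mul] at h2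
  omega

/-- The derivative of `D` at `g(b)` is the product of the differences. -/
theorem derivative_eq_prod8 (hg : g.Monic) (hdeg : g.natDegree = 3)
    (hsep : (D.comp g).Separable) {b : F} (hb : b ∈ (D.comp g).roots.toFinset) :
    (derivative D).eval (g.eval b) = D.leadingCoeff *
      ∏ c ∈ (D.comp g).roots.toFinset.filter (fun c => g.eval c ≠ g.eval b), (b - c) := by
  have hlc : (D.comp g).leadingCoeff = D.leadingCoeff := by
    rw [leadingCoeff_comp (by rw [hdeg]; norm_num), hg.leadingCoeff, one_pow, mul_one]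
  have h1 : (derivative (D.comp g)).eval b =
      D.leadingCoeff * ∏ c ∈ (D.comp g).roots.toFinset.erase b, (b - c) := by
    conv_lhs => rw [eq_prod_of_separable8 hsep, derivative_C_mul, eval_C_mul,
      eval_derivative_prod8 _ hb, hlc]
  have h2 : (derivative g).eval b =
      ∏ c ∈ ((D.comp g).roots.toFinset.filter (fun c => g.eval c = g.eval b)).erase b,
        (b - c) := by
    have h3 : derivative g = derivative (g - C (g.eval b)) := by
      rw [derivative_sub, derivative_C, sub_zero]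
    have hb' : b ∈ (g - C (g.eval b)).roots.toFinset := by
      rw [← fibre_eq8 hg hdeg hsep hb, Finset.mem_filter]
      exact ⟨hb, rfl⟩
    have hm : (g - C (g.eval b)).Monic := hg.sub_of_left (by
      refine lt_of_le_of_lt degree_C_le ?_
      rw [degree_eq_natDegree hg.ne_zero, hdeg]
      norm_num)
    rw [h3, eq_prod_of_separable8 (sep_fibre8 hsep hb), hm.leadingCoeff, C_1, one_mul,
      eval_derivative_prod8 _ hb', fibre_eq8 hg hdeg hsep hb]
  have h4 : (derivative (D.comp g)).eval b =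
      (derivative g).eval b * (derivative D).eval (g.eval b) := by
    rw [derivative_comp, eval_mul, eval_comp]
  have h5 : (D.comp g).roots.toFinset.erase b =
      (((D.comp g).roots.toFinset.filter (fun c => g.eval c = g.eval b)).erase b) ∪
        (D.comp g).roots.toFinset.filter (fun c => g.eval c ≠ g.eval b) := by
    ext c
    simp only [Finset.mem_erase, Finset.mem_union, Finset.mem_filter]
    by_cases h : g.eval c = g.eval b
    · simp [h]
    · have h' : c ≠ b := fun h0 => h (by rw [h0])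
      simp [h, h']
  have h6 : Disjoint (((D.comp g).roots.toFinset.filter
      (fun c => g.eval c = g.eval b)).erase b)
        ((D.comp g).roots.toFinset.filter (fun c => g.eval c ≠ g.eval b)) := by
    rw [Finset.disjoint_left]
    intro c hc hc'
    rw [Finset.mem_erase, Finset.mem_filter] at hc
    rw [Finset.mem_filter] at hc'
    exact hc'.2 hc.2.2
  rw [h5, Finset.prod_union h6, ← h2, h4] at h1
  have h7 : (derivative g).eval b ≠ 0 := by
    rw [h2, Finset.prod_ne_zero_iff]
    intro c hc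
    exact sub_ne_zero.mpr (Ne.symm (Finset.mem_erase.mp hc).1)
  apply mul_left_cancel₀ h7
  rw [h1]
  ring

/-- The value of `l` at a product. -/
theorem l_prod8 {K : Subfield F} {l : F → ZMod 2}
    (hmul : ∀ x ∈ K, ∀ y ∈ K, x ≠ 0 → y ≠ 0 → l (x * y) = l x + l y) {ι : Type*}
    (s : Finset ι) (f : ι → F) (hf : ∀ i ∈ s, f i ∈ K ∧ f i ≠ 0) :
    (∏ i ∈ s, f i ∈ K ∧ ∏ i ∈ s, f i ≠ 0) ∧ l (∏ i ∈ s, f i) = ∑ i ∈ s, l (f i) := by
  have h1 : l 1 = 0 := by
    have := hmul 1 K.one_mem 1 K.one_mem one_ne_zero one_ne_zero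
    rw [one_mul] at this
    have h2 : ∀ t : ZMod 2, t = t + t → t = 0 := by decide
    exact h2 _ this
  induction s using Finset.induction_on with
  | empty => simp [h1, K.one_mem]
  | insert a s ha ih =>
    have h2 := ih fun i hi => hf i (Finset.mem_insert_of_mem hi)
    have h3 := hf a (Finset.mem_insert_self a s)
    rw [Finset.prod_insert ha, Finset.sum_insert ha]
    exact ⟨⟨K.mul_mem h3.1 h2.1.1, mul_ne_zero h3.2 h2.1.2⟩, by
      rw [hmul _ h3.1 _ h2.1.1 h3.2 h2.1.2, h2.2]⟩

/-- The products `PZ` and `PZ1` lie in the field generated by the roots and are not `0`. -/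
theorem PZ_mem8 (hg : g.Monic) (hdeg : g.natDegree = 3) (hsep : (D.comp g).Separable)
    (K : Subfield F) (hK : ∀ x ∈ (D.comp g).roots.toFinset, x ∈ K) (hlc : D.leadingCoeff ∈ K)
    {Z : Finset F} (hZ : Z ⊆ (D.comp g).roots.toFinset) {b : F}
    (hb : b ∈ (D.comp g).roots.toFinset) :
    (PZ g D Z b ∈ K ∧ PZ g D Z b ≠ 0) ∧ (PZ1 g D Z b ∈ K ∧ PZ1 g D Z b ≠ 0) := by
  have hD0 : D ≠ 0 := by
    rintro rfl
    rw [zero_comp] at hsep
    exact not_separable_zero hsep
  have hlc' : D.leadingCoeff ≠ 0 := leadingCoeff_ne_zero.mpr hD0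
  have hdiff : ∀ c ∈ (D.comp g).roots.toFinset, b ≠ c → b - c ∈ K ∧ b - c ≠ 0 :=
    fun c hc hbc => ⟨K.sub_mem (hK b hb) (hK c hc), sub_ne_zero.mpr hbc⟩
  have h1 : PZ g D Z b ∈ K ∧ PZ g D Z b ≠ 0 := by
    have h3 : -(derivative D).eval (g.eval b) ∈ K ∧ -(derivative D).eval (g.eval b) ≠ 0 := by
      rw [derivative_eq_prod8 hg hdeg hsep hb]
      have h4 : ∀ c ∈ (D.comp g).roots.toFinset.filter (fun c => g.eval c ≠ g.eval b),
          b - c ∈ K ∧ b - c ≠ 0 := fun c hc => by
        rw [Finset.mem_filter] at hc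
        exact hdiff c hc.1 (fun h => hc.2 (by rw [h]))
      exact ⟨K.neg_mem (K.mul_mem hlc (K.prod_mem fun c hc => (h4 c hc).1)),
        neg_ne_zero.mpr (mul_ne_zero hlc' (Finset.prod_ne_zero_iff.mpr fun c hc =>
          (h4 c hc).2))⟩
    have h4 : ∀ c ∈ Z.filter (fun β => g.eval β ≠ g.eval b), b - c ∈ K ∧ b - c ≠ 0 :=
      fun c hc => by
        rw [Finset.mem_filter] at hc
        exact hdiff c (hZ hc.1) (fun h => hc.2 (by rw [h]))
    unfold PZ
    refine ⟨K.mul_mem (K.prod_mem fun c hc => (h4 c hc).1) ?_,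
      mul_ne_zero (Finset.prod_ne_zero_iff.mpr fun c hc => (h4 c hc).2) ?_⟩
    · split_ifs
      · exact h3.1
      · exact K.one_mem
    · split_ifs
      · exact h3.2
      · exact one_ne_zero
  refine ⟨h1, ?_⟩
  have h4 : ∀ c ∈ (g - C (g.eval b)).roots.toFinset.filter (fun c => c ≠ b ∧ (c ∈ Z ↔ b ∉ Z)),
      b - c ∈ K ∧ b - c ≠ 0 := fun c hc => by
    rw [Finset.mem_filter, ← fibre_eq8 hg hdeg hsep hb, Finset.mem_filter] at hc
    exact hdiff c hc.1.1 (Ne.symm hc.2.1)
  unfold PZ1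
  exact ⟨K.mul_mem h1.1 (K.prod_mem fun c hc => (h4 c hc).1),
    mul_ne_zero h1.2 (Finset.prod_ne_zero_iff.mpr fun c hc => (h4 c hc).2)⟩

/-- **Existence of a Rédei map without eigenvalues**: the set `HH` of functions on `F` is closed
under addition, its members are homomorphisms on the subfield `K`, and for any two roots `x`, `y`
of `D(g(x))` in different fibres there is an `l` in `HH` whose weights are those of a matching of
the two fibres which matches `x` and `y`. -/
theorem exists_noEigen_of_match8 (hg : g.Monic) (hdeg : g.natDegree = 3)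
    (hsep : (D.comp g).Separable) (hn : 3 ≤ D.natDegree) (K : Subfield F)
    (hK : ∀ x ∈ (D.comp g).roots.toFinset, x ∈ K) (hlc : D.leadingCoeff ∈ K)
    (HH : Set (F → ZMod 2)) (hadd : ∀ l ∈ HH, ∀ l' ∈ HH, l + l' ∈ HH)
    (hmul : ∀ l ∈ HH, ∀ x ∈ K, ∀ y ∈ K, x ≠ 0 → y ≠ 0 → l (x * y) = l x + l y)
    (hneg : ∀ l ∈ HH, l (-1) = 0) (hlc0 : ∀ l ∈ HH, l D.leadingCoeff = 0)
    (hfib : ∀ l ∈ HH, ∀ x ∈ (D.comp g).roots.toFinset, ∀ y ∈ (D.comp g).roots.toFinset, x ≠ y →
      g.eval x = g.eval y → l (x - y) = 0)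
    (hmatch : ∀ x ∈ (D.comp g).roots.toFinset, ∀ y ∈ (D.comp g).roots.toFinset,
      g.eval x ≠ g.eval y → ∃ l ∈ HH, IsMatch7 (D.comp g).roots.toFinset (fun b => g.eval b)
        (g.eval x) (g.eval y) (fun b c => l (b - c)) ∧ l (x - y) = 1) :
    ∃ l ∈ HH, NoEigen (fun x => l x = 1) (PZ g D) g D ∧
      NoEigen (fun x => l x = 1) (PZ1 g D) g D := by
  set S := (D.comp g).roots.toFinset with hS
  obtain ⟨e, ⟨l, hl, rfl⟩, he⟩ := exists_pattern8 S (fun b => g.eval b)
    (fun b hb => card_fibre8 hg hdeg hsep hb) (by rw [hS, card_image8 hg hdeg hsep]; exact hn)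
    {e | ∃ l ∈ HH, e = fun b c => l (b - c)}
    (by
      rintro _ ⟨l, hl, rfl⟩ _ ⟨l', hl', rfl⟩
      exact ⟨l + l', hadd l hl l' hl', rfl⟩)
    (fun b hb c hc hbc => by
      obtain ⟨l, hl, h1, h2⟩ := hmatch b hb c hc hbc
      exact ⟨_, ⟨l, hl, rfl⟩, h1, h2⟩)
  have hmull := hmul l hl
  -- the differences
  have hdiff : ∀ b ∈ S, ∀ c ∈ S, b ≠ c → b - c ∈ K ∧ b - c ≠ 0 := fun b hb c hc hbc =>
    ⟨K.sub_mem (hK b hb) (hK c hc), sub_ne_zero.mpr hbc⟩
  have hlc' : D.leadingCoeff ≠ 0 := by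
    rw [Ne, leadingCoeff_eq_zero]
    rintro rfl
    rw [natDegree_zero] at hn
    omega
  -- the derivative
  have hder : ∀ b ∈ S, (-(derivative D).eval (g.eval b) ∈ K ∧
      -(derivative D).eval (g.eval b) ≠ 0) ∧ l (-(derivative D).eval (g.eval b)) =
        ∑ c ∈ S.filter (fun c => g.eval c ≠ g.eval b), l (b - c) := by
    intro b hb
    obtain ⟨⟨h1, h2⟩, h3⟩ := l_prod8 hmull (S.filter (fun c => g.eval c ≠ g.eval b))
      (fun c => b - c) (fun c hc => by
        rw [Finset.mem_filter] at hc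
        exact hdiff b hb c hc.1 (fun h => hc.2 (by rw [h])))
    rw [derivative_eq_prod8 hg hdeg hsep hb, neg_eq_neg_one_mul]
    have h4 : (-1 : F) ∈ K := K.neg_mem K.one_mem
    have h5 : (-1 : F) ≠ 0 := neg_ne_zero.mpr one_ne_zero
    refine ⟨⟨K.mul_mem h4 (K.mul_mem hlc h1), mul_ne_zero h5 (mul_ne_zero hlc' h2)⟩, ?_⟩
    rw [hmull _ h4 _ (K.mul_mem hlc h1) h5 (mul_ne_zero hlc' h2), hneg l hl, zero_add,
      hmull _ hlc _ h1 hlc' h2, hlc0 l hl, zero_add, h3]
  -- the values of `l` at the products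
  have hPZ : ∀ Z ⊆ S, ∀ b ∈ S, (PZ g D Z b ∈ K ∧ PZ g D Z b ≠ 0) ∧ l (PZ g D Z b) =
      ∑ c ∈ S.filter (fun c => g.eval c ≠ g.eval b),
        l (b - c) * ((if b ∈ Z then 1 else 0) + if c ∈ Z then 1 else 0) := by
    intro Z hZ b hb
    obtain ⟨⟨h1, h2⟩, h3⟩ := l_prod8 hmull (Z.filter (fun β => g.eval β ≠ g.eval b))
      (fun c => b - c) (fun c hc => by
        rw [Finset.mem_filter] at hc
        exact hdiff b hb c (hZ hc.1) (fun h => hc.2 (by rw [h])))
    have h4 : ∑ c ∈ Z.filter (fun β => g.eval β ≠ g.eval b), l (b - c) =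
        ∑ c ∈ S.filter (fun c => g.eval c ≠ g.eval b), l (b - c) * if c ∈ Z then 1 else 0 := by
      have h5 : Z.filter (fun β => g.eval β ≠ g.eval b) =
          (S.filter (fun c => g.eval c ≠ g.eval b)).filter (fun c => c ∈ Z) := by
        ext c
        simp only [Finset.mem_filter]
        exact ⟨fun h => ⟨⟨hZ h.1, h.2⟩, h.1⟩, fun h => ⟨h.2, h.1.2⟩⟩
      rw [h5, Finset.sum_filter]
      refine Finset.sum_congr rfl fun c _ => ?_
      split_ifs <;> simp
    unfold PZ
    by_cases hbZ : b ∈ Z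
    · obtain ⟨⟨h6, h7⟩, h8⟩ := hder b hb
      rw [if_pos hbZ]
      refine ⟨⟨K.mul_mem h1 h6, mul_ne_zero h2 h7⟩, ?_⟩
      rw [hmull _ h1 _ h6 h2 h7, h3, h4, h8, ← Finset.sum_add_distrib]
      refine Finset.sum_congr rfl fun c _ => ?_
      rw [if_pos hbZ]
      ring
    · rw [if_neg hbZ, mul_one]
      refine ⟨⟨h1, h2⟩, ?_⟩
      rw [h3, h4]
      refine Finset.sum_congr rfl fun c _ => ?_
      rw [if_neg hbZ, zero_add]
  have hPZ1 : ∀ Z ⊆ S, ∀ b ∈ S, l (PZ1 g D Z b) = l (PZ g D Z b) := by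
    intro Z hZ b hb
    have hsub : ∀ c, c ∈ (g - C (g.eval b)).roots.toFinset → c ∈ S ∧ g.eval c = g.eval b := by
      intro c hc
      rw [← fibre_eq8 hg hdeg hsep hb, Finset.mem_filter] at hc
      exact hc
    obtain ⟨⟨h1, h2⟩, h3⟩ := l_prod8 hmull ((g - C (g.eval b)).roots.toFinset.filter
      (fun c => c ≠ b ∧ (c ∈ Z ↔ b ∉ Z))) (fun c => b - c) (fun c hc => by
        rw [Finset.mem_filter] at hc
        exact hdiff b hb c (hsub c hc.1).1 (Ne.symm hc.2.1))
    obtain ⟨⟨h4, h5⟩, _⟩ := hPZ Z hZ b hb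
    unfold PZ1
    rw [hmull _ h4 _ h1 h5 h2, h3, Finset.sum_eq_zero, add_zero]
    intro c hc
    rw [Finset.mem_filter] at hc
    exact hfib l hl b hb c (hsub c hc.1).1 (Ne.symm hc.2.1) (hsub c hc.1).2.symm
  -- the conclusion
  have key : ∀ P : Finset F → F → F, (∀ Z ⊆ S, ∀ b ∈ S, l (P Z b) = l (PZ g D Z b)) →
      NoEigen (fun x => l x = 1) P g D := by
    intro P hP Z hZ hev hne
    have hz : ∀ b ∈ S, ∑ c ∈ S.filter (fun c => g.eval c = g.eval b),
        (if c ∈ Z then (1 : ZMod 2) else 0) = 0 := by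
      intro b _
      rw [Finset.sum_ite, Finset.sum_const_zero, add_zero, Finset.sum_const, nsmul_eq_mul,
        mul_one, Finset.filter_filter]
      have h1 : S.filter (fun c => g.eval c = g.eval b ∧ c ∈ Z) =
          Z.filter (fun c => g.eval c = g.eval b) := by
        ext c
        simp only [Finset.mem_filter]
        exact ⟨fun h => ⟨h.2.2, h.2.1⟩, fun h => ⟨hZ h.1, h.2, h.1⟩⟩
      rw [h1]
      exact (ZMod.natCast_eq_zero_iff_even).mpr (hev (g.eval b))
    have hT := he (fun c => if c ∈ Z then 1 else 0) hz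
    have hval : ∀ Z' : Finset F, redei (fun x => l x = 1) P (D.comp g) Z = Z' → Z' ⊆ S →
        ∀ b ∈ S, ∑ c ∈ S.filter (fun c => g.eval c ≠ g.eval b),
          l (b - c) * ((if b ∈ Z then 1 else 0) + if c ∈ Z then 1 else 0) =
            if b ∈ Z' then 1 else 0 := by
      intro Z' hZ' _ b hb
      rw [← (hPZ Z hZ b hb).2, ← hP Z hZ b hb, ← hZ']
      have h1 : b ∈ redei (fun x => l x = 1) P (D.comp g) Z ↔ l (P Z b) = 1 := by
        have h5 : ∀ N : F → Prop, b ∈ redei N P (D.comp g) Z ↔ N (P Z b) := by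
          intro N
          unfold redei
          rw [Finset.mem_filter]
          exact ⟨fun h => h.2, fun h => ⟨hb, h⟩⟩
        exact h5 _
      by_cases h2 : l (P Z b) = 1
      · rw [if_pos (h1.mpr h2), h2]
      · rw [if_neg (fun h => h2 (h1.mp h))]
        have h3 : ∀ t : ZMod 2, t ≠ 1 → t = 0 := by decide
        exact h3 _ h2
    obtain ⟨b0, hb0⟩ := hne
    constructor
    · intro h0
      have h1 := hT 0 (fun b hb => by
        rw [zero_mul]
        have h2 := hval ∅ h0 (Finset.empty_subset _) b hb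
        rw [if_neg (Finset.notMem_empty b)] at h2
        exact h2) b0 (hZ hb0)
      simp only [if_pos hb0] at h1
      exact one_ne_zero h1
    · intro h0
      have h1 := hT 1 (fun b hb => by
        rw [one_mul]
        exact hval Z h0 hZ b hb) b0 (hZ hb0)
      simp only [if_pos hb0] at h1
      exact one_ne_zero h1
  exact ⟨l, hl, key _ fun Z _ b _ => rfl, key _ hPZ1⟩

end

end Pool.Agent.Lib.MP_89bcae_ag
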