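import Mathlib

/-!
# Orders at a discrete valuation of a subfield
-/

open Polynomial WithZero

open scoped Classical

namespace Pool.Agent.Lib.MP_89bcae_ag

section Order

variable {k F : Type*} [Field k] [Field F] [Algebra k F] {K : IntermediateField k F}
  (w : Valuation K ℤᵐ⁰)

/-- Minus the additive order at `w` of the element `x` of `F`, for `x` in `K`. -/
noncomputable def ordF7 (x : F) : ℤ := if h : x ∈ K then WithZero.log (w ⟨x, h⟩) else 0

theorem ordF7_of_mem {x : F} (h : x ∈ K) : ordF7 w x = WithZero.log (w ⟨x, h⟩) := dif_pos h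

theorem ordF7_mul {x y : F} (hx : x ∈ K) (hy : y ∈ K) (hx0 : x ≠ 0) (hy0 : y ≠ 0) :
    ordF7 w (x * y) = ordF7 w x + ordF7 w y := by
  rw [ordF7_of_mem w hx, ordF7_of_mem w hy, ordF7_of_mem w (K.mul_mem hx hy)]
  have h1 : w ⟨x, hx⟩ ≠ 0 := (Valuation.ne_zero_iff w).2 fun h => hx0 (congrArg Subtype.val h)
  have h2 : w ⟨y, hy⟩ ≠ 0 := (Valuation.ne_zero_iff w).2 fun h => hy0 (congrArg Subtype.val h)
  rw [← WithZero.log_mul h1 h2, ← map_mul]
  rfl

theorem ordF7_one : ordF7 w (1 : F) = 0 := by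
  rw [ordF7_of_mem w K.one_mem]
  have : (⟨1, K.one_mem⟩ : K) = 1 := rfl
  rw [this, map_one, WithZero.log_one]

theorem ordF7_neg (x : F) : ordF7 w (-x) = ordF7 w x := by
  by_cases hx : x ∈ K
  · rw [ordF7_of_mem w hx, ordF7_of_mem w (K.neg_mem hx)]
    have : (⟨-x, K.neg_mem hx⟩ : K) = -⟨x, hx⟩ := rfl
    rw [this, Valuation.map_neg]
  · rw [ordF7, ordF7, dif_neg hx, dif_neg fun h => hx (by simpa using K.neg_mem h)]

theorem ordF7_sub_comm (x y : F) : ordF7 w (x - y) = ordF7 w (y - x) := by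
  rw [← ordF7_neg w (x - y), neg_sub]

theorem ordF7_prod {ι : Type*} (s : Finset ι) (f : ι → F) (hf : ∀ i ∈ s, f i ∈ K)
    (hf0 : ∀ i ∈ s, f i ≠ 0) : ordF7 w (∏ i ∈ s, f i) = ∑ i ∈ s, ordF7 w (f i) := by
  induction s using Finset.induction_on with
  | empty => simp [ordF7_one]
  | insert i s hi ih =>
    rw [Finset.prod_insert hi, Finset.sum_insert hi,
      ordF7_mul w (hf i (Finset.mem_insert_self i s))
        (K.prod_mem fun j hj => hf j (Finset.mem_insert_of_mem hj))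
        (hf0 i (Finset.mem_insert_self i s))
        (Finset.prod_ne_zero_iff.2 fun j hj => hf0 j (Finset.mem_insert_of_mem hj)),
      ih (fun j hj => hf j (Finset.mem_insert_of_mem hj))
        (fun j hj => hf0 j (Finset.mem_insert_of_mem hj))]

end Order

/-- If non-positive integers have sum `-1`, one of them is `-1` and the others vanish. -/
theorem exists_of_sum_eq_neg_one7 {ι : Type*} (s : Finset ι) (f : ι → ℤ) (hf : ∀ i ∈ s, f i ≤ 0)
    (h : ∑ i ∈ s, f i = -1) : ∃ i ∈ s, f i = -1 ∧ ∀ j ∈ s, j ≠ i → f j = 0 := by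
  have h1 : ∃ i ∈ s, f i < 0 := by
    by_contra! hcon
    have : 0 ≤ ∑ i ∈ s, f i := Finset.sum_nonneg hcon
    omega
  obtain ⟨i, hi, hi0⟩ := h1
  have h2 : ∀ j ∈ s.erase i, f j ≤ 0 := fun j hj => hf j (Finset.mem_of_mem_erase hj)
  have h3 := Finset.add_sum_erase s f hi
  have h4 := Finset.sum_nonpos h2
  refine ⟨i, hi, by omega, fun j hj hji => ?_⟩
  exact (Finset.sum_eq_zero_iff_of_nonpos h2).1 (by omega) j (Finset.mem_erase.2 ⟨hji, hj⟩)

end Pool.Agent.Lib.MP_89bcae_ag
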