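import Mathlib

/-!
# The ramification index is at most the order of the inertia group
-/

open Algebra MulAction

open scoped Pointwise

namespace Pool.Agent.Lib.MP_89bcae_ag

attribute [local instance] Ideal.Quotient.field in
/-- In a finite Galois extension the ramification index is at most the order of the inertia
group. -/
theorem ramificationIdx_le_card_inertia7 {R S G : Type*} [CommRing R] [CommRing S] [Algebra R S]
    [Group G] [MulSemiringAction G S] [IsGaloisGroup G R S] [Finite G] [IsDomain R] [IsDomain S]
    [Module.Finite R S] [Module.Flat R S] (p : Ideal R) (P : Ideal S) [P.LiesOver p] [p.IsMaximal]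
    [P.IsMaximal] : P.ramificationIdx R ≤ Nat.card (P.inertia G) := by
  have hdeg : P.inertiaDeg R = Module.finrank (R ⧸ p) (S ⧸ P) :=
    Ideal.inertiaDeg_eq_of_isMaximal p P
  have hpos : 0 < P.inertiaDeg R := P.inertiaDeg_pos R
  have hfin : FiniteDimensional (R ⧸ p) (S ⧸ P) := by
    apply Module.finite_of_finrank_pos
    rw [← hdeg]
    exact hpos
  have h1 : ((P.inertia G).subgroupOf (stabilizer G P)).index ≤ P.inertiaDeg R := by
    have h2 : (P.inertia (stabilizer G P)).index = _ := Nat.card_congr
      (Ideal.Quotient.stabilizerQuotientInertiaEquiv G p P).toEquiv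
    rw [AddSubgroup.subgroupOf_inertia, h2, hdeg, Nat.card_eq_fintype_card]
    exact AlgEquiv.card_le
  have h3 : Nat.card (stabilizer G P) = Nat.card (P.inertia G) *
      ((P.inertia G).subgroupOf (stabilizer G P)).index := by
    rw [← ((P.inertia G).subgroupOf (stabilizer G P)).card_mul_index,
      Nat.card_congr (Subgroup.subgroupOfEquivOfLe (Ideal.inertia_le_stabilizer (M := G) P)).toEquiv]
  have h4 : (p.primesOver S).ncard * Nat.card (stabilizer G P) = Nat.card G := by
    rw [← IsInvariant.orbit_eq_primesOver R S G p P]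
    simpa using Nat.card_congr (MulAction.orbitProdStabilizerEquivGroup G P)
  have h5 := Ideal.ncard_primesOver_mul_ramificationIdxIn_mul_inertiaDegIn p S G
  rw [Ideal.ramificationIdxIn_eq_ramificationIdx p P G, Ideal.inertiaDegIn_eq_inertiaDeg p P G] at h5
  have h6 : (p.primesOver S).ncard ≠ 0 := by
    intro h
    rw [h, zero_mul] at h4
    exact Nat.card_pos.ne h4
  have h7 : P.ramificationIdx R * P.inertiaDeg R = Nat.card (stabilizer G P) :=
    Nat.eq_of_mul_eq_mul_left (Nat.pos_of_ne_zero h6) (h5.trans h4.symm)
  rw [h3] at h7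
  have h8 : P.ramificationIdx R * P.inertiaDeg R ≤ Nat.card (P.inertia G) * P.inertiaDeg R := by
    rw [h7]
    exact Nat.mul_le_mul_left _ h1
  exact Nat.le_of_mul_le_mul_right h8 hpos

end Pool.Agent.Lib.MP_89bcae_ag
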