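import Mathlib
import Pool.Agent.Lib.MP_89bcae_ag.DefsB7
import Pool.Agent.Lib.MP_89bcae_ag.RamB7
import Pool.Agent.Lib.MP_89bcae_ag.SpecR7

/-!
# The valuation attached to a simple collision
-/

open Polynomial IsDedekindDomain WithZero

open scoped Classical Pointwise

namespace Pool.Agent.Lib.MP_89bcae_ag

set_option linter.style.haveILetI false
set_option linter.unusedSectionVars false

section Red

/-- Reduction of a product of linear factors. -/
lemma map_prod_red7 {B K : Type*} [CommRing B] [Field K] [Algebra B K]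
    (hinj : Function.Injective (algebraMap B K)) {p : B[X]} {c : B}
    {T : Finset K} {β : K → B} (hβ : ∀ b ∈ T, algebraMap B K (β b) = b)
    (h : p.map (algebraMap B K) = C (algebraMap B K c) * ∏ b ∈ T, (X - C b)) :
    p = C c * ∏ b ∈ T, (X - C (β b)) := by
  apply Polynomial.map_injective _ hinj
  rw [h, Polynomial.map_mul, map_C, Polynomial.map_prod]
  congr 1
  refine Finset.prod_congr rfl fun b hb => ?_
  rw [Polynomial.map_sub, map_X, map_C, hβ b hb]

lemma map_prod_red7' {B ι κ : Type*} [CommRing B] [Field κ] (q : B →+* κ) {c : B} {T : Finset ι}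
    {β : ι → B} :
    (C c * ∏ b ∈ T, (X - C (β b))).map q = C (q c) * ∏ b ∈ T, (X - C (q (β b))) := by
  rw [Polynomial.map_mul, map_C, Polynomial.map_prod]
  congr 1
  refine Finset.prod_congr rfl fun b hb => ?_
  rw [Polynomial.map_sub, map_X, map_C]

variable {κ ι : Type*} [Field κ]

/-- The multiplicity of a root of a product of linear factors. -/
lemma rootMultiplicity_prod7 {c : κ} (hc : c ≠ 0) (T : Finset ι) (r : ι → κ) (γ : κ) :
    (C c * ∏ b ∈ T, (X - C (r b))).rootMultiplicity γ = (T.filter fun b => r b = γ).card := by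
  have h1 : (∏ b ∈ T, (X - C (r b))) ≠ 0 :=
    Finset.prod_ne_zero_iff.mpr fun b _ => X_sub_C_ne_zero _
  rw [rootMultiplicity_mul (mul_ne_zero (C_ne_zero.mpr hc) h1), rootMultiplicity_C, zero_add]
  clear h1
  induction T using Finset.induction_on with
  | empty => simp
  | insert b T hb ih =>
    rw [Finset.prod_insert hb, rootMultiplicity_mul, ih, rootMultiplicity_X_sub_C,
      Finset.filter_insert]
    · split_ifs with h1 h2 h2
      · rw [Finset.card_insert_of_notMem (fun h => hb (Finset.mem_of_mem_filter _ h)), add_comm]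
      · exact absurd h1.symm h2
      · exact absurd h2.symm h1
      · rw [zero_add]
    · exact mul_ne_zero (X_sub_C_ne_zero _)
        (Finset.prod_ne_zero_iff.mpr fun b _ => X_sub_C_ne_zero _)

/-- The reductions of the roots of `D` at a simple collision. -/
lemma res_roots7 {u a : κ} (hu : u ≠ 0) {A : Finset ι} {r : ι → κ} {h₁ : κ[X]}
    (hsep : h₁.Separable) (ha : h₁.eval a = 0)
    (h : C u * ∏ α ∈ A, (X - C (r α)) = (X - C a) * h₁) :
    (∀ α ∈ A, ∀ α' ∈ A, α ≠ α' → r α = r α' → r α = a) ∧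
    (A.filter fun α => r α = a).card = 2 ∧ ∀ α ∈ A, h₁.eval (r α) = 0 := by
  have h10 : h₁ ≠ 0 := hsep.ne_zero
  have key : ∀ γ, (A.filter fun α => r α = γ).card =
      (if γ = a then 1 else 0) + h₁.rootMultiplicity γ := by
    intro γ
    rw [← rootMultiplicity_prod7 hu A r γ, h,
      rootMultiplicity_mul (mul_ne_zero (X_sub_C_ne_zero _) h10), rootMultiplicity_X_sub_C]
  have hle : ∀ γ, h₁.rootMultiplicity γ ≤ 1 := fun γ =>
    rootMultiplicity_le_one_of_separable hsep γ
  have hpos : 0 < h₁.rootMultiplicity a := (rootMultiplicity_pos h10).mpr ha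
  refine ⟨fun α hα α' hα' hne hr => ?_, ?_, fun α hα => ?_⟩
  · by_contra hna
    have h1 := key (r α)
    rw [if_neg hna, zero_add] at h1
    have h2 : 1 < (A.filter fun β => r β = r α).card := by
      rw [Finset.one_lt_card]
      exact ⟨α, Finset.mem_filter.mpr ⟨hα, rfl⟩, α', Finset.mem_filter.mpr ⟨hα', hr.symm⟩, hne⟩
    have h3 := hle (r α)
    omega
  · have h1 := key a
    rw [if_pos rfl] at h1
    have h3 := hle a
    omega
  · by_cases h1 : r α = a
    · rw [h1]; exact ha
    · have h2 := congrArg (eval (r α)) h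
      rw [eval_mul, eval_mul, eval_prod, Finset.prod_eq_zero hα (by simp), mul_zero, eval_sub,
        eval_X, eval_C, eq_comm, mul_eq_zero, sub_eq_zero] at h2
      exact h2.resolve_left h1

/-- The reductions of the roots of `g - α` at a simple collision. -/
lemma res_fibre7 {g h₁ : κ[X]} {γ : κ} (hsep : (h₁.comp g).Separable) (hγ : h₁.eval γ = 0)
    {T : Finset ι} {r : ι → κ} (h : g - C γ = ∏ b ∈ T, (X - C (r b))) :
    ∀ b ∈ T, ∀ c ∈ T, b ≠ c → r b ≠ r c := by
  intro b hb c hc hbc hr
  have h1 : (g - C γ) ∣ h₁.comp g := by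
    obtain ⟨w, hw⟩ := dvd_iff_isRoot.mpr hγ
    refine ⟨w.comp g, ?_⟩
    rw [hw, mul_comp, sub_comp, X_comp, C_comp]
  have h2 : (g - C γ).Separable := hsep.of_dvd h1
  have h3 : (X - C (r b)) * (X - C (r b)) ∣ g - C γ := by
    rw [h, ← Finset.mul_prod_erase T _ hb]
    apply mul_dvd_mul_left
    have h4 : c ∈ T.erase b := Finset.mem_erase.mpr ⟨hbc.symm, hc⟩
    rw [hr]
    exact Finset.dvd_prod_of_mem (fun i => X - C (r i)) h4
  have h4 := h2.squarefree _ h3
  exact not_isUnit_X_sub_C _ h4

end Red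

end Pool.Agent.Lib.MP_89bcae_ag
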