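import Mathlib
import Pool.Agent.Lib.MP_89bcae_ag.DefsB7
import Pool.Agent.Lib.MP_89bcae_ag.ValC7
import Pool.Agent.Lib.MP_89bcae_ag.OrdB7

/-!
# The matching attached to a simple collision
-/

open Polynomial WithZero

open scoped Classical

namespace Pool.Agent.Lib.MP_89bcae_ag

set_option linter.style.haveILetI false
set_option linter.unusedSectionVars false

/-- A separable polynomial over an algebraically closed field. -/
lemma eq_prod_roots7 {F : Type*} [Field F] [IsAlgClosed F] {p : F[X]} (hp : p.Separable) :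
    p = C p.leadingCoeff * ∏ b ∈ p.roots.toFinset, (X - C b) := by
  have h1 := (IsAlgClosed.splits p).eq_prod_roots
  have h2 : p.roots.Nodup := nodup_roots hp
  conv_lhs => rw [h1]
  congr 1
  rw [Finset.prod_eq_multiset_prod, Multiset.toFinset_val, Multiset.dedup_eq_self.mpr h2]

/-- The splitting field of a separable polynomial. -/
lemma galois7 {k F : Type*} [Field k] [Field F] [Algebra k F] [IsAlgClosed F] {f : k[X]}
    (hsep : f.Separable) :
    FiniteDimensional k (IntermediateField.adjoin k (f.rootSet F)) ∧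
      IsGalois k (IntermediateField.adjoin k (f.rootSet F)) := by
  have h1 : IsSplittingField k (IntermediateField.adjoin k (f.rootSet F)) f :=
    IntermediateField.adjoin_rootSet_isSplittingField (IsAlgClosed.splits _)
  exact ⟨IsSplittingField.finiteDimensional _ f, IsGalois.of_separable_splitting_field (p := f) hsep⟩

lemma prod_subtype7 {F M : Type*} [CommMonoid M] (p : F → Prop) (S : Finset F)
    (hS : ∀ b ∈ S, p b) (P : Subtype p → Prop) (Q : F → Prop) (hPQ : ∀ b : Subtype p, P b ↔ Q b)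
    (f : F → M) : ∏ b ∈ (S.subtype p).filter P, f b = ∏ b ∈ S.filter Q, f b := by
  have h1 : S.filter Q = ((S.subtype p).filter P).map (Function.Embedding.subtype p) := by
    ext b
    rw [Finset.mem_filter, Finset.mem_map]
    constructor
    · rintro ⟨hb, hQ⟩
      exact ⟨⟨b, hS b hb⟩, Finset.mem_filter.mpr ⟨Finset.mem_subtype.mpr hb, (hPQ _).mpr hQ⟩, rfl⟩
    · rintro ⟨c, hc, rfl⟩
      rw [Finset.mem_filter, Finset.mem_subtype] at hc
      exact ⟨hc.1, (hPQ _).mp hc.2⟩
  rw [h1, Finset.prod_map]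
  rfl

section Ord

variable {R k F : Type*} [CommRing R] [IsDomain R] [IsDiscreteValuationRing R] [Field k]
  [Algebra R k] [IsFractionRing R k] [Field F] [Algebra k F] [Algebra R F] [IsScalarTower R k F]

/-- The orders of the differences of the roots at a simple collision. -/
theorem exists_ord7 (h2 : IsUnit (2 : R)) {g D : R[X]}
    (hgdeg : g.natDegree ≠ 0) (hg : g.Monic) (hlc : IsUnit D.leadingCoeff) (S A : Finset F)
    (hDA : D.map (algebraMap R F) =
      C (algebraMap R F D.leadingCoeff) * ∏ α ∈ A, (X - C α))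
    (hgS : ∀ α ∈ A, g.map (algebraMap R F) - C α =
      ∏ b ∈ S.filter (fun b => (g.map (algebraMap R F)).eval b = α), (X - C b))
    (hSA : ∀ b ∈ S, (g.map (algebraMap R F)).eval b ∈ A)
    (hAS : ∀ α ∈ A, ∃ b ∈ S, (g.map (algebraMap R F)).eval b = α)
    (K : IntermediateField k F) (hK : K = IntermediateField.adjoin k (S : Set F))
    [FiniteDimensional k K] [IsGalois k K] (hcol : IsCollision7 g D) :
    ∃ w : Valuation K ℤᵐ⁰, ordF7 w (algebraMap R F D.leadingCoeff) = 0 ∧
      (∀ b ∈ S, ∀ c ∈ S, ordF7 w (b - c) ≤ 0) ∧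
      (∀ b ∈ S, ∀ c ∈ S, b ≠ c → (g.map (algebraMap R F)).eval b =
        (g.map (algebraMap R F)).eval c → ordF7 w (b - c) = 0) ∧
      ∃ α₁ ∈ A, ∃ α₂ ∈ A, α₁ ≠ α₂ ∧ ordF7 w (α₁ - α₂) = -1 ∧
        ∀ α ∈ A, ∀ α' ∈ A, α ≠ α' → ¬ (α = α₁ ∧ α' = α₂) → ¬ (α = α₂ ∧ α' = α₁) →
          ordF7 w (α - α') = 0 := by
  have hSK : ∀ b ∈ S, b ∈ K := by
    intro b hb
    rw [hK]
    exact IntermediateField.subset_adjoin _ _ hb
  have hRK : ∀ r : R, algebraMap R F r ∈ K := by
    intro r
    rw [IsScalarTower.algebraMap_apply R k F]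
    exact K.algebraMap_mem _
  have hgK : ∀ b ∈ K, (g.map (algebraMap R F)).eval b ∈ K := by
    intro b hb
    rw [eval_map, eval₂_eq_sum_range]
    exact K.sum_mem fun i _ => K.mul_mem (hRK _) (pow_mem hb i)
  have hAK : ∀ α ∈ A, α ∈ K := by
    intro α hα
    obtain ⟨b, hb, rfl⟩ := hAS α hα
    exact hgK b (hSK b hb)
  have hcomp : (algebraMap K F).comp (algebraMap R K) = algebraMap R F := RingHom.ext fun r => rfl
  have hinj : Function.Injective (Polynomial.map (algebraMap K F)) :=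
    Polynomial.map_injective _ (algebraMap K F).injective
  have hev : ∀ b : K, (((g.map (algebraMap R K)).eval b : K) : F) =
      (g.map (algebraMap R F)).eval (b : F) := by
    intro b
    rw [← hcomp, ← Polynomial.map_map, eval_map (algebraMap K F)]
    exact (eval₂_at_apply (algebraMap K F) b).symm
  obtain ⟨w, hw1, hw2, hw3, α₁, hα₁, α₂, hα₂, h12, hw4, hw5⟩ := exists_val7 (R := R) (k := k)
    (K := K) h2 hgdeg hg hlc (S.subtype (· ∈ K)) (A.subtype (· ∈ K)) (by
      apply hinj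
      rw [Polynomial.map_map, hcomp, hDA, Polynomial.map_mul, map_C, Polynomial.map_prod]
      congr 1
      have h1 := prod_subtype7 (· ∈ K) A hAK (fun _ => True) (fun _ => True) (fun _ => Iff.rfl)
        (fun b => (X - C b : F[X]))
      rw [Finset.filter_true, Finset.filter_true] at h1
      rw [← h1]
      refine Finset.prod_congr rfl fun b _ => ?_
      rw [Polynomial.map_sub, map_X, map_C]
      rfl) (by
      intro α hα
      apply hinj
      rw [Polynomial.map_sub, Polynomial.map_map, hcomp, map_C, Polynomial.map_prod]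
      rw [Finset.mem_subtype] at hα
      have h1 := prod_subtype7 (· ∈ K) S hSK (fun b => (g.map (algebraMap R K)).eval b = α)
        (fun b => (g.map (algebraMap R F)).eval b = (α : F))
        (fun b => by rw [← hev, Subtype.coe_inj]) (fun b => (X - C b : F[X]))
      refine (hgS α hα).trans (h1.symm.trans ?_)
      refine Finset.prod_congr rfl fun b _ => ?_
      rw [Polynomial.map_sub, map_X, map_C]
      rfl) (by
      intro b hb
      rw [Finset.mem_subtype] at hb ⊢
      rw [hev]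
      exact hSA b hb) (by
      intro σ hσ
      subst hK
      ext x
      have h1 : (σ : _ ≃ₐ[k] _).toAlgHom = AlgHom.id k _ := by
        apply IntermediateField.algHom_ext_of_eq_adjoin _ rfl
        intro y hy
        exact hσ ⟨y, IntermediateField.subset_adjoin _ _ hy⟩ (Finset.mem_subtype.mpr hy)
      exact congrArg Subtype.val (congrArg (fun f => f x) h1)) hcol
  rw [Finset.mem_subtype] at hα₁ hα₂
  refine ⟨w, ?_, fun b hb c hc => ?_, fun b hb c hc hbc hgbc => ?_, α₁, hα₁, α₂, hα₂,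
    fun h => h12 (Subtype.ext h), ?_, fun α hα α' hα' hne h1 h3 => ?_⟩
  · rw [ordF7_of_mem w (hRK _)]
    have h1 : (⟨algebraMap R F D.leadingCoeff, hRK _⟩ : K) = algebraMap R K D.leadingCoeff := rfl
    rw [h1, hw1, log_one]
  · have hbK := hSK b hb
    have hcK := hSK c hc
    rw [ordF7_of_mem w (K.sub_mem hbK hcK)]
    have h1 : (⟨b - c, K.sub_mem hbK hcK⟩ : K) = ⟨b, hbK⟩ - ⟨c, hcK⟩ := rfl
    rw [h1]
    have h3 : w (⟨b, hbK⟩ - ⟨c, hcK⟩) ≤ 1 := (w.map_sub _ _).trans
      (max_le (hw2 _ (Finset.mem_subtype.mpr hb)) (hw2 _ (Finset.mem_subtype.mpr hc)))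
    by_cases h0 : w (⟨b, hbK⟩ - ⟨c, hcK⟩) = 0
    · rw [h0, log_zero]
    · rw [log_le_iff_le_exp h0, exp_zero]
      exact h3
  · have hbK := hSK b hb
    have hcK := hSK c hc
    rw [ordF7_of_mem w (K.sub_mem hbK hcK)]
    have h1 : (⟨b - c, K.sub_mem hbK hcK⟩ : K) = ⟨b, hbK⟩ - ⟨c, hcK⟩ := rfl
    rw [h1, hw3 ⟨b, hbK⟩ (Finset.mem_subtype.mpr hb) ⟨c, hcK⟩ (Finset.mem_subtype.mpr hc)
      (fun h => hbc (congrArg Subtype.val h)) (Subtype.ext (by rw [hev, hev]; exact hgbc)), log_one]
  · rw [ordF7_of_mem w (K.sub_mem α₁.2 α₂.2)]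
    have h1 : (⟨(α₁ : F) - α₂, K.sub_mem α₁.2 α₂.2⟩ : K) = α₁ - α₂ := rfl
    rw [h1, hw4, log_exp]
  · have hbK := hAK α hα
    have hcK := hAK α' hα'
    rw [ordF7_of_mem w (K.sub_mem hbK hcK)]
    have h4 : (⟨α - α', K.sub_mem hbK hcK⟩ : K) = ⟨α, hbK⟩ - ⟨α', hcK⟩ := rfl
    rw [h4, hw5 ⟨α, hbK⟩ (Finset.mem_subtype.mpr hα) ⟨α', hcK⟩ (Finset.mem_subtype.mpr hα')
      (fun h => hne (congrArg Subtype.val h))
      (fun h => h1 ⟨congrArg Subtype.val h.1, congrArg Subtype.val h.2⟩)
      (fun h => h3 ⟨congrArg Subtype.val h.1, congrArg Subtype.val h.2⟩), log_one]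

end Ord

end Pool.Agent.Lib.MP_89bcae_ag
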