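import Mathlib
import Pool.Agent.Lib.MP_89bcae_ag.MatB7

/-!
# The symbols of a simple collision and their conjugates
-/

open Polynomial WithZero

open scoped Classical

namespace Pool.Agent.Lib.MP_89bcae_ag

set_option linter.style.haveILetI false
set_option linter.unusedSectionVars false

section Symb

variable {k F : Type*} [Field k] [Field F] [Algebra k F]

/-- A homomorphism `K^* → ℤ/2` which vanishes on `-1`, on `u` and on the differences of the elements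
of `S` in the same fibre of `g`. -/
structure Symb7 (K : IntermediateField k F) (S : Finset F) (g : F[X]) (u : F) (lam : F → ZMod 2) :
    Prop where
  mul : ∀ x ∈ K, ∀ y ∈ K, x ≠ 0 → y ≠ 0 → lam (x * y) = lam x + lam y
  neg : lam (-1) = 0
  lc : lam u = 0
  fib : ∀ b ∈ S, ∀ c ∈ S, b ≠ c → g.eval b = g.eval c → lam (b - c) = 0

variable {K : IntermediateField k F} {S : Finset F} {g : F[X]} {u : F}

lemma Symb7.add {lam lam' : F → ZMod 2} (h : Symb7 K S g u lam) (h' : Symb7 K S g u lam') :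
    Symb7 K S g u (fun x => lam x + lam' x) where
  mul x hx y hy hx0 hy0 := by
    rw [h.mul x hx y hy hx0 hy0, h'.mul x hx y hy hx0 hy0]
    ring
  neg := by rw [h.neg, h'.neg, add_zero]
  lc := by rw [h.lc, h'.lc, add_zero]
  fib b hb c hc hbc hgbc := by
    rw [h.fib b hb c hc hbc hgbc, h'.fib b hb c hc hbc hgbc, add_zero]

lemma Symb7.symm {lam : F → ZMod 2} (h : Symb7 K S g u lam) (hSK : ∀ b ∈ S, b ∈ K) (b c : F)
    (hb : b ∈ S) (hc : c ∈ S) : lam (b - c) = lam (c - b) := by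
  by_cases hbc : b = c
  · rw [hbc]
  · have h1 : b - c = -1 * (c - b) := by ring
    rw [h1, h.mul _ (K.neg_mem K.one_mem) _ (K.sub_mem (hSK c hc) (hSK b hb))
      (neg_ne_zero.mpr one_ne_zero) (sub_ne_zero.mpr fun h => hbc h.symm), h.neg, zero_add]

lemma Symb7.conj {lam : F → ZMod 2} (h : Symb7 K S g u lam) (σ : F ≃ₐ[k] F)
    (hσK : ∀ x ∈ K, σ.symm x ∈ K) (hσS : ∀ x ∈ S, σ.symm x ∈ S)
    (hσg : ∀ x, g.eval (σ.symm x) = σ.symm (g.eval x)) (hσu : σ.symm u = u) :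
    Symb7 K S g u (fun x => lam (σ.symm x)) where
  mul x hx y hy hx0 hy0 := by
    rw [map_mul, h.mul _ (hσK x hx) _ (hσK y hy) ((_root_.map_ne_zero _).mpr hx0)
      ((_root_.map_ne_zero _).mpr hy0)]
  neg := by rw [map_neg, map_one, h.neg]
  lc := by rw [hσu, h.lc]
  fib b hb c hc hbc hgbc := by
    rw [map_sub]
    refine h.fib _ (hσS b hb) _ (hσS c hc) (fun h1 => hbc (σ.symm.injective h1)) ?_
    rw [hσg, hσg, hgbc]

end Symb

section Match

variable {V A : Type*} {S : Finset V} {p : V → A} {α α' : A} {e : V → V → ZMod 2}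

/-- The conjugate of a matching. -/
lemma IsMatch7.conj (h : IsMatch7 S p α α' e) (σ : V → V) (σ' : A → A) (τ : V → V) (τ' : A → A)
    (hS : ∀ x ∈ S, σ x ∈ S) (hτS : ∀ x ∈ S, τ x ∈ S) (hp : ∀ x ∈ S, p (σ x) = σ' (p x))
    (hτp : ∀ x ∈ S, p (τ x) = τ' (p x))
    (hστ : ∀ x ∈ S, σ (τ x) = x) (hτσ : ∀ x ∈ S, τ (σ x) = x) (hστ' : ∀ a, σ' (τ' a) = a)
    (hτσ' : ∀ a, τ' (σ' a) = a) :
    IsMatch7 S p (σ' α) (σ' α') (fun b c => e (τ b) (τ c)) where
  symm b hb c hc := h.symm _ (hτS b hb) _ (hτS c hc)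
  supp b hb c hc hbc he := by
    have h1 := h.supp _ (hτS b hb) _ (hτS c hc) (by
      rw [hτp b hb, hτp c hc]
      intro h3
      apply hbc
      rw [← hστ' (p b), h3, hστ']) he
    rw [hτp b hb, hτp c hc] at h1
    rcases h1 with ⟨h1, h3⟩ | ⟨h1, h3⟩
    · left
      rw [← h1, ← h3, hστ', hστ']
      exact ⟨rfl, rfl⟩
    · right
      rw [← h1, ← h3, hστ', hστ']
      exact ⟨rfl, rfl⟩
  left b hb hpb := by
    obtain ⟨c, hc, h1, h3, h4⟩ := h.left (τ b) (hτS b hb) (by rw [hτp b hb, hpb, hτσ'])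
    refine ⟨σ c, hS c hc, by rw [hp c hc, h1], ?_, fun c' hc' h5 h6 => ?_⟩
    · rw [hτσ c hc, h3]
    · refine h4 _ (hτS c' hc') (by rw [hτp c' hc', h5, hτσ']) fun h7 => h6 ?_
      rw [← h7, hστ c' hc']
  right b hb hpb := by
    obtain ⟨c, hc, h1, h3, h4⟩ := h.right (τ b) (hτS b hb) (by rw [hτp b hb, hpb, hτσ'])
    refine ⟨σ c, hS c hc, by rw [hp c hc, h1], ?_, fun c' hc' h5 h6 => ?_⟩
    · rw [hτσ c hc, h3]
    · refine h4 _ (hτS c' hc') (by rw [hτp c' hc', h5, hτσ']) fun h7 => h6 ?_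
      rw [← h7, hστ c' hc']

end Match

section Base

variable {k F : Type*} [Field k] [Field F] [Algebra k F] {K : IntermediateField k F}

/-- The matching of a simple collision. -/
theorem isMatch_of_ord7 (w : Valuation K ℤᵐ⁰) {g : F[X]} (S A : Finset F)
    (hgS : ∀ α ∈ A, g - C α = ∏ b ∈ S.filter (fun b => g.eval b = α), (X - C b))
    (hSA : ∀ b ∈ S, g.eval b ∈ A) (hSK : ∀ b ∈ S, b ∈ K)
    (h1 : ∀ b ∈ S, ∀ c ∈ S, ordF7 w (b - c) ≤ 0)
    {α₁ α₂ : F} (hα₁ : α₁ ∈ A) (hα₂ : α₂ ∈ A) (h12 : α₁ ≠ α₂) (hw : ordF7 w (α₁ - α₂) = -1)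
    (hw' : ∀ α ∈ A, ∀ α' ∈ A, α ≠ α' → ¬ (α = α₁ ∧ α' = α₂) → ¬ (α = α₂ ∧ α' = α₁) →
          ordF7 w (α - α') = 0) :
    IsMatch7 S (fun b => g.eval b) α₁ α₂ (fun b c => ((ordF7 w (b - c) : ℤ) : ZMod 2)) := by
  have hsum : ∀ b ∈ S, ∀ α ∈ A, g.eval b ≠ α →
      ∑ c ∈ S.filter (fun c => g.eval c = α), ordF7 w (b - c) = ordF7 w (g.eval b - α) := by
    intro b hb α hα hne
    have h3 := congrArg (eval b) (hgS α hα)
    rw [eval_sub, eval_C, eval_prod] at h3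
    rw [h3, ← ordF7_prod]
    · congr 1
      refine Finset.prod_congr rfl fun c _ => ?_
      rw [eval_sub, eval_X, eval_C]
    · intro c hc
      exact K.sub_mem (hSK b hb) (hSK c (Finset.mem_filter.mp hc).1)
    · intro c hc h4
      rw [sub_eq_zero] at h4
      exact hne (h4 ▸ (Finset.mem_filter.mp hc).2)
  have hzero : ∀ b ∈ S, ∀ c ∈ S, g.eval b ≠ g.eval c → ordF7 w (g.eval b - g.eval c) = 0 →
      ordF7 w (b - c) = 0 := by
    intro b hb c hc hne h0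
    have h3 := hsum b hb _ (hSA c hc) hne
    rw [h0] at h3
    exact (Finset.sum_eq_zero_iff_of_nonpos fun i hi => h1 b hb i (Finset.mem_filter.mp hi).1).mp h3
      c (Finset.mem_filter.mpr ⟨hc, rfl⟩)
  refine ⟨fun b _ c _ => by rw [ordF7_sub_comm], fun b hb c hc hbc he => ?_,
    fun b hb hpb => ?_, fun b hb hpb => ?_⟩
  · by_contra hcon
    rw [not_or] at hcon
    apply he
    rw [hzero b hb c hc hbc (hw' _ (hSA b hb) _ (hSA c hc) hbc hcon.1 hcon.2), Int.cast_zero]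
  · have h3 := hsum b hb α₂ hα₂ (by rw [hpb]; exact h12)
    rw [hpb, hw] at h3
    obtain ⟨c, hc, h4, h5⟩ := exists_of_sum_eq_neg_one7 _ _
      (fun i hi => h1 b hb i (Finset.mem_filter.mp hi).1) h3
    refine ⟨c, (Finset.mem_filter.mp hc).1, (Finset.mem_filter.mp hc).2, ?_, fun c' hc' h6 h7 => ?_⟩
    · rw [h4]; decide
    · rw [h5 c' (Finset.mem_filter.mpr ⟨hc', h6⟩) h7, Int.cast_zero]
  · have h3 := hsum b hb α₁ hα₁ (by rw [hpb]; exact h12.symm)
    rw [hpb, ordF7_sub_comm, hw] at h3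
    obtain ⟨c, hc, h4, h5⟩ := exists_of_sum_eq_neg_one7 _ _
      (fun i hi => h1 b hb i (Finset.mem_filter.mp hi).1) h3
    refine ⟨c, (Finset.mem_filter.mp hc).1, (Finset.mem_filter.mp hc).2, ?_, fun c' hc' h6 h7 => ?_⟩
    · rw [h4]; decide
    · rw [h5 c' (Finset.mem_filter.mpr ⟨hc', h6⟩) h7, Int.cast_zero]

end Base

end Pool.Agent.Lib.MP_89bcae_ag
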