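import Mathlib
import Pool.Agent.Lib.MP_89bcae_ag.MatC7
import Pool.Agent.Lib.MP_89bcae_ag.LinB8
import Pool.Agent.Lib.MP_89bcae_ag.Sup.Defs

/-!
# A simple collision implies the arithmetic condition for superelliptic surfaces
-/

open Polynomial WithZero

open scoped Classical

set_option linter.unusedSimpArgs false
set_option linter.unusedVariables false
set_option linter.unusedSectionVars false
set_option linter.style.haveILetI false

namespace Pool.Agent.Lib.MP_89bcae_ag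

universe u

/-- The linear algebra. -/
theorem indep_core8 {V I : Type*} {ℓ : ℕ} [Fact ℓ.Prime] (S : Finset V) (p : V → I)
    (e : V → ZMod ℓ)
    (H : ∀ x ∈ S, ∀ y ∈ S, p x ≠ p y → ∃ c : ZMod ℓ,
      (∀ β ∈ S, p β ≠ p x → p β ≠ p y → c * e β = 0) ∧ (1 + c) * e x = e y ∧
        (1 + c) * e y = e x)
    (h3 : 3 ≤ (S.image p).card) (hsum : ∀ x ∈ S, ∑ β ∈ S.filter (fun β => p β = p x), e β = 0)
    (hcard : ∀ x ∈ S, (((S.filter (fun β => p β = p x)).card : ℕ) : ZMod ℓ) ≠ 0) :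
    ∀ x ∈ S, e x = 0 := by
  -- a third fibre
  have hthird : ∀ i j : I, ∃ z ∈ S, p z ≠ i ∧ p z ≠ j := by
    intro i j
    by_contra hcon
    push Not at hcon
    have h1 : S.image p ⊆ {i, j} := by
      intro l hl
      obtain ⟨z, hz, rfl⟩ := Finset.mem_image.mp hl
      rw [Finset.mem_insert, Finset.mem_singleton]
      by_cases h : p z = i
      · exact Or.inl h
      · exact Or.inr (hcon z hz h)
    have h2 := Finset.card_le_card h1
    have h4 := Finset.card_le_two (a := i) (b := j)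
    omega
  by_cases hc : ∃ x ∈ S, ∃ y ∈ S, p x ≠ p y ∧ ∃ c : ZMod ℓ, c ≠ 0 ∧
      (∀ β ∈ S, p β ≠ p x → p β ≠ p y → c * e β = 0)
  · obtain ⟨x0, hx0, y0, hy0, hxy, c, hc0, hc1⟩ := hc
    obtain ⟨z0, hz0, hz1, hz2⟩ := hthird (p x0) (p y0)
    have hez : e z0 = 0 := (mul_eq_zero.mp (hc1 z0 hz0 hz1 hz2)).resolve_left hc0
    intro w hw
    by_cases hwz : p w = p z0
    · exact (mul_eq_zero.mp (hc1 w hw (by rw [hwz]; exact hz1)
        (by rw [hwz]; exact hz2))).resolve_left hc0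
    · obtain ⟨c', -, -, h5⟩ := H w hw z0 hz0 hwz
      rw [← h5, hez, mul_zero]
  · push Not at hc
    have heq : ∀ x ∈ S, ∀ y ∈ S, p x ≠ p y → e x = e y := by
      intro x hx y hy hxy
      obtain ⟨c, h1, h2, -⟩ := H x hx y hy hxy
      by_cases h0 : c = 0
      · rw [h0, add_zero, one_mul] at h2
        exact h2
      · obtain ⟨β, hβ, hβ1, hβ2, hβ3⟩ := hc x hx y hy hxy c h0
        exact absurd (h1 β hβ hβ1 hβ2) hβ3
    intro x hx
    have h1 : ∀ β ∈ S.filter (fun β => p β = p x), e β = e x := by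
      intro β hβ
      rw [Finset.mem_filter] at hβ
      obtain ⟨z, hz, hz1, -⟩ := hthird (p x) (p x)
      rw [heq β hβ.1 z hz (by rw [hβ.2]; exact hz1.symm), heq x hx z hz hz1.symm]
    have h2 := hsum x hx
    rw [Finset.sum_congr rfl h1, Finset.sum_const, nsmul_eq_mul] at h2
    exact (mul_eq_zero.mp h2).resolve_left (hcard x hx)

section

variable {F : Type*} [Field F]

/-- The function `o` is a homomorphism on `K` which matches `x` with `y`. -/
structure Adm8 (K : Subfield F) (S : Finset F) (p : F → F) (x y : F) (o : F → ℤ) : Prop where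
  mul : ∀ a ∈ K, ∀ b ∈ K, a ≠ 0 → b ≠ 0 → o (a * b) = o a + o b
  out : ∀ β ∈ S, p β ≠ p x → p β ≠ p y → ∀ β' ∈ S, p β' ≠ p β → o (β - β') = 0
  left : ∀ β' ∈ S, p β' ≠ p x → o (x - β') = if β' = y then 1 else 0
  right : ∀ β' ∈ S, p β' ≠ p y → o (y - β') = if β' = x then 1 else 0

theorem Adm8.one {K : Subfield F} {S : Finset F} {p : F → F} {x y : F} {o : F → ℤ}
    (h : Adm8 K S p x y o) : o 1 = 0 := by
  have := h.mul 1 K.one_mem 1 K.one_mem one_ne_zero one_ne_zero
  rw [one_mul] at this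
  omega

theorem Adm8.inv {K : Subfield F} {S : Finset F} {p : F → F} {x y : F} {o : F → ℤ}
    (h : Adm8 K S p x y o) {a : F} (ha : a ∈ K) (ha0 : a ≠ 0) : o a⁻¹ = - o a := by
  have := h.mul a ha a⁻¹ (K.inv_mem ha) ha0 (inv_ne_zero ha0)
  rw [mul_inv_cancel₀ ha0, h.one] at this
  omega

theorem Adm8.pow {K : Subfield F} {S : Finset F} {p : F → F} {x y : F} {o : F → ℤ}
    (h : Adm8 K S p x y o) {a : F} (ha : a ∈ K) (ha0 : a ≠ 0) (n : ℕ) :
    o (a ^ n) = n * o a := by
  induction n with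
  | zero => rw [pow_zero, h.one]; simp
  | succ n ih =>
    rw [pow_succ, h.mul _ (K.pow_mem ha n) _ ha (pow_ne_zero n ha0) ha0, ih]
    push_cast
    ring

theorem Adm8.zpow {K : Subfield F} {S : Finset F} {p : F → F} {x y : F} {o : F → ℤ}
    (h : Adm8 K S p x y o) {a : F} (ha : a ∈ K) (ha0 : a ≠ 0) (n : ℤ) :
    o (a ^ n) = n * o a := by
  obtain ⟨m, rfl | rfl⟩ := n.eq_nat_or_neg
  · rw [zpow_natCast, h.pow ha ha0]
  · rw [zpow_neg, zpow_natCast, h.inv (K.pow_mem ha m) (pow_ne_zero m ha0), h.pow ha ha0]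
    ring

theorem Adm8.prod {K : Subfield F} {S : Finset F} {p : F → F} {x y : F} {o : F → ℤ}
    (h : Adm8 K S p x y o) {ι : Type*} (s : Finset ι) (f : ι → F)
    (hf : ∀ i ∈ s, f i ∈ K ∧ f i ≠ 0) :
    (∏ i ∈ s, f i ∈ K ∧ ∏ i ∈ s, f i ≠ 0) ∧ o (∏ i ∈ s, f i) = ∑ i ∈ s, o (f i) := by
  induction s using Finset.induction_on with
  | empty => simp [h.one, K.one_mem]
  | insert a s ha ih =>
    have h2 := ih fun i hi => hf i (Finset.mem_insert_of_mem hi)
    have h3 := hf a (Finset.mem_insert_self a s)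
    rw [Finset.prod_insert ha, Finset.sum_insert ha]
    exact ⟨⟨K.mul_mem h3.1 h2.1.1, mul_ne_zero h3.2 h2.1.2⟩, by
      rw [h.mul _ h3.1 _ h2.1.1 h3.2 h2.1.2, h2.2]⟩

/-- The relation given by an order. -/
theorem Adm8.rel {K : Subfield F} {S : Finset F} {p : F → F} {x y : F} {o : F → ℤ}
    (h : Adm8 K S p x y o) (hSK : ∀ b ∈ S, b ∈ K) {ℓ : ℕ} (hℓ : ℓ ≠ 0) {e : F → ℤ} {κ : F}
    (hκ : κ ≠ 0) (hκK : κ ∈ K) {β : F} (hβ : β ∈ S) {w : F} (hw : w ∈ K)
    (heq : w ^ ℓ = κ ^ e β * ∏ β' ∈ S.filter (fun β' => p β' ≠ p β),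
      (β - β') ^ (e β - e β')) :
    (ℓ : ℤ) ∣ e β * o κ + ∑ β' ∈ S.filter (fun β' => p β' ≠ p β), (e β - e β') * o (β - β') := by
  have hd : ∀ β' ∈ S.filter (fun β' => p β' ≠ p β), β - β' ∈ K ∧ β - β' ≠ 0 := by
    intro β' hβ'
    rw [Finset.mem_filter] at hβ'
    exact ⟨K.sub_mem (hSK β hβ) (hSK β' hβ'.1), sub_ne_zero.mpr fun h0 => hβ'.2 (by rw [h0])⟩
  obtain ⟨⟨h1, h2⟩, h3⟩ := h.prod (S.filter (fun β' => p β' ≠ p β))
    (fun β' => (β - β') ^ (e β - e β')) (fun β' hβ' =>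
      ⟨zpow_mem (hd β' hβ').1 _, zpow_ne_zero _ (hd β' hβ').2⟩)
  have hκe : κ ^ e β ∈ K := zpow_mem hκK _
  have hκe0 : κ ^ e β ≠ 0 := zpow_ne_zero _ hκ
  have hw0 : w ≠ 0 := by
    rintro rfl
    rw [zero_pow hℓ] at heq
    exact mul_ne_zero hκe0 h2 heq.symm
  have h4 := congrArg o heq
  rw [h.pow hw hw0, h.mul _ hκe _ h1 hκe0 h2, h.zpow hκK hκ, h3] at h4
  refine ⟨o w, ?_⟩
  rw [h4]
  congr 1
  refine Finset.sum_congr rfl fun β' hβ' => ?_
  rw [h.zpow (hd β' hβ').1 (hd β' hβ').2]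

/-- The relations modulo `ℓ` given by an order which matches `x` and `y`. -/
theorem Adm8.rels {K : Subfield F} {S : Finset F} {p : F → F} {x y : F} {o : F → ℤ}
    (h : Adm8 K S p x y o) (hSK : ∀ b ∈ S, b ∈ K) {ℓ : ℕ} (hℓ : ℓ ≠ 0) {e : F → ℤ} {κ : F}
    (hκ : κ ≠ 0) (hκK : κ ∈ K) (hx : x ∈ S) (hy : y ∈ S) (hxy : p x ≠ p y)
    (heq : ∀ β ∈ S, ∃ w ∈ K, w ^ ℓ = κ ^ e β * ∏ β' ∈ S.filter (fun β' => p β' ≠ p β),
      (β - β') ^ (e β - e β')) :
    (∀ β ∈ S, p β ≠ p x → p β ≠ p y → ((o κ : ℤ) : ZMod ℓ) * ((e β : ℤ) : ZMod ℓ) = 0) ∧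
      (1 + ((o κ : ℤ) : ZMod ℓ)) * ((e x : ℤ) : ZMod ℓ) = ((e y : ℤ) : ZMod ℓ) ∧
        (1 + ((o κ : ℤ) : ZMod ℓ)) * ((e y : ℤ) : ZMod ℓ) = ((e x : ℤ) : ZMod ℓ) := by
  refine ⟨fun β hβ hβx hβy => ?_, ?_, ?_⟩
  · obtain ⟨w, hw, hweq⟩ := heq β hβ
    have h1 := h.rel hSK hℓ hκ hκK hβ hw hweq
    rw [Finset.sum_eq_zero, add_zero] at h1
    · rw [← Int.cast_mul, ZMod.intCast_zmod_eq_zero_iff_dvd, mul_comm]
      exact h1
    · intro β' hβ'
      rw [Finset.mem_filter] at hβ'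
      rw [h.out β hβ hβx hβy β' hβ'.1 hβ'.2, mul_zero]
  · obtain ⟨w, hw, hweq⟩ := heq x hx
    have h1 := h.rel hSK hℓ hκ hκK hx hw hweq
    rw [Finset.sum_eq_single y] at h1
    · rw [h.left y hy hxy.symm, if_pos rfl, mul_one] at h1
      rw [← ZMod.intCast_zmod_eq_zero_iff_dvd] at h1
      push_cast at h1
      linear_combination h1
    · intro β' hβ' hne
      rw [Finset.mem_filter] at hβ'
      rw [h.left β' hβ'.1 hβ'.2, if_neg hne, mul_zero]
    · intro hn
      exact absurd (Finset.mem_filter.mpr ⟨hy, hxy.symm⟩) hn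
  · obtain ⟨w, hw, hweq⟩ := heq y hy
    have h1 := h.rel hSK hℓ hκ hκK hy hw hweq
    rw [Finset.sum_eq_single x] at h1
    · rw [h.right x hx hxy, if_pos rfl, mul_one] at h1
      rw [← ZMod.intCast_zmod_eq_zero_iff_dvd] at h1
      push_cast at h1
      linear_combination h1
    · intro β' hβ' hne
      rw [Finset.mem_filter] at hβ'
      rw [h.right β' hβ'.1 hβ'.2, if_neg hne, mul_zero]
    · intro hn
      exact absurd (Finset.mem_filter.mpr ⟨hx, hxy⟩) hn

end

/-- Orders which match any two roots in different fibres imply the arithmetic condition. -/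
theorem isIndependent_of_adm8 {k F : Type u} [Field k] [Field F] [Algebra k F] {ℓ : ℕ}
    (hℓ : ℓ.Prime) {g D : k[X]} (S : Finset F) (hS : ∀ b, b ∈ S ↔ aeval (aeval b g) D = 0)
    (H : ∀ x ∈ S, ∀ y ∈ S, aeval x g ≠ aeval y g → ∃ o : F → ℤ,
      Adm8 (IntermediateField.adjoin k (Sup.roots k F g D)).toSubfield S (fun b => aeval b g)
        x y o)
    (h3 : 3 ≤ (S.image fun b => aeval b g).card)
    (hcard : ∀ x ∈ S, ¬ ℓ ∣ (S.filter (fun β => aeval β g = aeval x g)).card) :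
    Sup.IsIndependent ℓ k F g D := by
  have : Fact ℓ.Prime := ⟨hℓ⟩
  intro e κ hκ hκK hsum hpow
  have hroots : Sup.roots k F g D = (S : Set F) := by
    ext b
    rw [Finset.mem_coe, hS]
    rfl
  have hset1 : ∀ β ∈ S, {β' ∈ Sup.roots k F g D | aeval β' g ≠ aeval β g} =
      ((S.filter (fun β' => aeval β' g ≠ aeval β g) : Finset F) : Set F) := by
    intro β _
    ext b
    rw [Finset.mem_coe, Finset.mem_filter, hroots]
    rfl
  have hset2 : ∀ β ∈ S, {β' : F | aeval β' g = aeval β g} =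
      ((S.filter (fun β' => aeval β' g = aeval β g) : Finset F) : Set F) := by
    intro β hβ
    ext b
    rw [Finset.mem_coe, Finset.mem_filter, Set.mem_ofPred_eq]
    constructor
    · intro h
      exact ⟨(hS b).mpr (by rw [h]; exact (hS β).mp hβ), h⟩
    · exact fun h => h.2
  have hSK : ∀ b ∈ S, b ∈ (IntermediateField.adjoin k (Sup.roots k F g D)).toSubfield := by
    intro b hb
    apply IntermediateField.subset_adjoin k _
    rw [hroots]
    exact hb
  have hpow' : ∀ β ∈ S, ∃ w ∈ (IntermediateField.adjoin k (Sup.roots k F g D)).toSubfield,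
      w ^ ℓ = κ ^ e β * ∏ β' ∈ S.filter (fun β' => aeval β' g ≠ aeval β g),
        (β - β') ^ (e β - e β') := by
    intro β hβ
    obtain ⟨w, hw, hweq⟩ := hpow β (by rw [hroots]; exact hβ)
    rw [hset1 β hβ, finprod_mem_coe_finset] at hweq
    exact ⟨w, hw, hweq⟩
  have hfin := indep_core8 S (fun b => aeval b g) (fun b => ((e b : ℤ) : ZMod ℓ))
    (fun x hx y hy hxy => by
      obtain ⟨o, ho⟩ := H x hx y hy hxy
      exact ⟨_, ho.rels hSK hℓ.ne_zero hκ hκK hx hy hxy hpow'⟩) h3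
    (fun x hx => by
      have h4 := hsum x (by rw [hroots]; exact hx)
      rw [hset2 x hx, finsum_mem_coe_finset, ← ZMod.intCast_zmod_eq_zero_iff_dvd] at h4
      push_cast at h4
      exact h4)
    (fun x hx => by
      rw [Ne, ZMod.natCast_eq_zero_iff]
      exact hcard x hx)
  intro β hβ
  rw [hroots] at hβ
  rw [← ZMod.intCast_zmod_eq_zero_iff_dvd]
  exact hfin β hβ

/-- **A simple collision over a discrete valuation ring and transitivity on pairs of roots imply
the arithmetic condition, for every prime number and in every degree.** -/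
theorem isIndependent_of_collision8 {ℓ : ℕ} (hℓ : ℓ.Prime) (R k F : Type u) [CommRing R]
    [IsDomain R] [IsDiscreteValuationRing R] [Field k] [Algebra R k] [IsFractionRing R k]
    [Field F] [Algebra k F] [IsAlgClosure k F] (h2 : IsUnit (2 : R)) {g D : R[X]} (hg : g.Monic)
    (hgdeg : g.natDegree ≠ 0) (hcop : g.natDegree.Coprime ℓ) (hn : 3 ≤ D.natDegree)
    (hlc : IsUnit D.leadingCoeff) (hcol : IsCollision7 g D)
    (hsep : ((D.comp g).map (algebraMap R k)).Separable)
    (htr : IsPairTransitive7 k F (g.map (algebraMap R k)) (D.map (algebraMap R k))) :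
    Sup.IsIndependent ℓ k F (g.map (algebraMap R k)) (D.map (algebraMap R k)) := by
  have hF : IsAlgClosed F := IsAlgClosure.isAlgClosed k
  have hkF : Algebra.IsAlgebraic k F := IsAlgClosure.isAlgebraic
  letI : Algebra R F := ((algebraMap k F).comp (algebraMap R k)).toAlgebra
  haveI : IsScalarTower R k F := IsScalarTower.of_algebraMap_eq fun _ => rfl
  have hinjk : Function.Injective (algebraMap R k) := IsFractionRing.injective R k
  have hinjF : Function.Injective (algebraMap R F) := (algebraMap k F).injective.comp hinjk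
  have hmapF : ∀ p : R[X], (p.map (algebraMap R k)).map (algebraMap k F) =
      p.map (algebraMap R F) := fun p => by rw [Polynomial.map_map]; rfl
  have hlcF : algebraMap R F D.leadingCoeff ≠ 0 := (hlc.map (algebraMap R F)).ne_zero
  have hlcF' : (D.map (algebraMap R F)).leadingCoeff = algebraMap R F D.leadingCoeff :=
    leadingCoeff_map_of_injective hinjF D
  have hcompF : (D.map (algebraMap R F)).comp (g.map (algebraMap R F)) =
      ((D.comp g).map (algebraMap R k)).map (algebraMap k F) := by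
    rw [hmapF, Polynomial.map_comp]
  have hsepF : ((D.map (algebraMap R F)).comp (g.map (algebraMap R F))).Separable := by
    rw [hcompF]; exact hsep.map
  have hgF : (g.map (algebraMap R F)).natDegree = g.natDegree := hg.natDegree_map _
  have hsepD : (D.map (algebraMap R F)).Separable := separable_left7 (by rw [hgF]; exact hgdeg) hsepF
  set gF := g.map (algebraMap R F) with hgFdef
  set DF := D.map (algebraMap R F) with hDFdef
  set S : Finset F := (DF.comp gF).roots.toFinset with hS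
  set A : Finset F := DF.roots.toFinset with hA
  have hmemS : ∀ b, b ∈ S ↔ DF.eval (gF.eval b) = 0 := by
    intro b
    rw [hS, Multiset.mem_toFinset, mem_roots hsepF.ne_zero, IsRoot.def, eval_comp]
  have hmemA : ∀ α, α ∈ A ↔ DF.eval α = 0 := by
    intro α
    rw [hA, Multiset.mem_toFinset, mem_roots hsepD.ne_zero, IsRoot.def]
  have hSA : ∀ b ∈ S, gF.eval b ∈ A := fun b hb => (hmemA _).mpr ((hmemS b).mp hb)
  have hDA : DF = C (algebraMap R F D.leadingCoeff) * ∏ α ∈ A, (X - C α) := by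
    rw [← hlcF']
    exact eq_prod_roots7 hsepD
  have hdvd : ∀ α ∈ A, (gF - C α) ∣ DF.comp gF := by
    intro α hα
    obtain ⟨w, hw⟩ := dvd_iff_isRoot.mpr ((hmemA α).mp hα)
    refine ⟨w.comp gF, ?_⟩
    rw [hw, mul_comp, sub_comp, X_comp, C_comp]
  have hmon : ∀ α, (gF - C α).Monic := by
    intro α
    have h5 : (C α).degree < gF.degree := by
      rw [degree_eq_natDegree (p := gF) (hg.map _).ne_zero, hgF]
      refine (degree_C_le).trans_lt ?_
      exact_mod_cast Nat.pos_of_ne_zero hgdeg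
    exact (hg.map _).sub_of_left h5
  have hroots : ∀ α ∈ A, (gF - C α).roots.toFinset = S.filter (fun b => gF.eval b = α) := by
    intro α hα
    ext b
    rw [Finset.mem_filter, Multiset.mem_toFinset, mem_roots (hmon α).ne_zero, IsRoot.def, eval_sub,
      eval_C, sub_eq_zero, hmemS]
    constructor
    · exact fun h => ⟨by rw [h]; exact (hmemA α).mp hα, h⟩
    · exact fun h => h.2
  have hgS : ∀ α ∈ A, gF - C α = ∏ b ∈ S.filter (fun b => gF.eval b = α), (X - C b) := by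
    intro α hα
    have h3 := eq_prod_roots7 (hsepF.of_dvd (hdvd α hα))
    rw [(hmon α).leadingCoeff, C_1, one_mul, hroots α hα] at h3
    exact h3
  have hcardS : ∀ α ∈ A, (S.filter (fun b => gF.eval b = α)).card = g.natDegree := by
    intro α hα
    rw [← hroots α hα, card_roots_of_separable8 (hsepF.of_dvd (hdvd α hα)), natDegree_sub_C, hgF]
  have hAS : ∀ α ∈ A, ∃ b ∈ S, gF.eval b = α := by
    intro α hα
    have h1 : (S.filter (fun b => gF.eval b = α)).Nonempty := by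
      rw [← Finset.card_pos, hcardS α hα]
      exact Nat.pos_of_ne_zero hgdeg
    obtain ⟨b, hb⟩ := h1
    exact ⟨b, (Finset.mem_filter.mp hb).1, (Finset.mem_filter.mp hb).2⟩
  have hSroot : (S : Set F) = ((D.comp g).map (algebraMap R k)).rootSet F := by
    rw [rootSet, hS, hcompF, aroots]
  obtain ⟨hfin, hgal⟩ := galois7 (F := F) hsep
  obtain ⟨K, hK⟩ : ∃ K, K = IntermediateField.adjoin k (S : Set F) := ⟨_, rfl⟩
  haveI : FiniteDimensional k K := by rw [hK, hSroot]; exact hfin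
  haveI : IsGalois k K := by rw [hK, hSroot]; exact hgal
  obtain ⟨w, hw1, hw2, hw3, α₁, hα₁, α₂, hα₂, h12, hw4, hw5⟩ := exists_ord7 (R := R) (k := k)
    (F := F) h2 hgdeg hg hlc S A hDA hgS hSA hAS K hK hcol
  have hSK : ∀ b ∈ S, b ∈ K := by
    intro b hb
    rw [hK]
    exact IntermediateField.subset_adjoin _ _ hb
  have hev : ∀ b : F, aeval b (g.map (algebraMap R k)) = gF.eval b := by
    intro b
    rw [← eval_map_algebraMap, hmapF]
  -- the sums of the orders over the fibres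
  let o : F → ℤ := fun x => - ordF7 w x
  have ho0 : ∀ b ∈ S, ∀ c ∈ S, 0 ≤ o (b - c) := fun b hb c hc => by
    have := hw2 b hb c hc
    show 0 ≤ - ordF7 w (b - c)
    omega
  have hsum : ∀ b ∈ S, ∀ α ∈ A, gF.eval b ≠ α →
      ∑ c ∈ S.filter (fun c => gF.eval c = α), o (b - c) = - ordF7 w (gF.eval b - α) := by
    intro b hb α hα hne
    have h3 := congrArg (eval b) (hgS α hα)
    rw [eval_sub, eval_C, eval_prod] at h3
    rw [h3, Finset.prod_congr rfl fun c _ => by rw [eval_sub, eval_X, eval_C],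
      ordF7_prod w _ _ (fun c hc => K.sub_mem (hSK b hb) (hSK c (Finset.mem_filter.mp hc).1))
        (fun c hc => sub_ne_zero.mpr fun h0 => hne (by
          rw [h0]; exact (Finset.mem_filter.mp hc).2)), ← Finset.sum_neg_distrib]
  -- zero outside of the two fibres
  have hzero : ∀ b ∈ S, ∀ α ∈ A, gF.eval b ≠ α → ¬ (gF.eval b = α₁ ∧ α = α₂) →
      ¬ (gF.eval b = α₂ ∧ α = α₁) → ∀ c ∈ S, gF.eval c = α → o (b - c) = 0 := by
    intro b hb α hα hne h1 h3 c hc hcα
    have h4 := hsum b hb α hα hne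
    rw [hw5 _ (hSA b hb) α hα hne h1 h3, neg_zero] at h4
    exact (Finset.sum_eq_zero_iff_of_nonneg (fun c hc =>
      ho0 b hb c (Finset.mem_filter.mp hc).1)).mp h4 c (Finset.mem_filter.mpr ⟨hc, hcα⟩)
  -- one partner in the two fibres
  have hone : ∀ b ∈ S, ∀ α ∈ A, gF.eval b ≠ α → ordF7 w (gF.eval b - α) = -1 →
      ∀ c ∈ S, gF.eval c = α → o (b - c) ≠ 0 → ∀ c' ∈ S, gF.eval c' = α →
        o (b - c') = if c' = c then 1 else 0 := by
    intro b hb α hα hne h1 c hc hcα hc0 c' hc' hcα'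
    have h4 := hsum b hb α hα hne
    rw [h1, neg_neg] at h4
    have hmem : c ∈ S.filter (fun c => gF.eval c = α) := Finset.mem_filter.mpr ⟨hc, hcα⟩
    rw [← Finset.add_sum_erase _ _ hmem] at h4
    have h5 : 0 ≤ ∑ x ∈ (S.filter (fun c => gF.eval c = α)).erase c, o (b - x) :=
      Finset.sum_nonneg fun x hx => ho0 b hb x
        (Finset.mem_filter.mp (Finset.mem_of_mem_erase hx)).1
    have h6 := ho0 b hb c hc
    have h7 : o (b - c) = 1 := by omega
    have h8 : ∑ x ∈ (S.filter (fun c => gF.eval c = α)).erase c, o (b - x) = 0 := by omega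
    by_cases hcc : c' = c
    · rw [if_pos hcc, hcc, h7]
    · rw [if_neg hcc]
      exact (Finset.sum_eq_zero_iff_of_nonneg (fun x hx =>
        ho0 b hb x (Finset.mem_filter.mp (Finset.mem_of_mem_erase hx)).1)).mp h8 c'
        (Finset.mem_erase.mpr ⟨hcc, Finset.mem_filter.mpr ⟨hc', hcα'⟩⟩)
  -- the base pair
  obtain ⟨b₀, hb₀, hgb₀⟩ := hAS α₁ hα₁
  have hb₀α : gF.eval b₀ ≠ α₂ := by rw [hgb₀]; exact h12
  obtain ⟨c₀, hc₀, hgc₀, hoc₀⟩ : ∃ c₀ ∈ S, gF.eval c₀ = α₂ ∧ o (b₀ - c₀) ≠ 0 := by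
    by_contra hcon
    push Not at hcon
    have h4 := hsum b₀ hb₀ α₂ hα₂ hb₀α
    rw [Finset.sum_eq_zero fun c hc => hcon c (Finset.mem_filter.mp hc).1
      (Finset.mem_filter.mp hc).2, hgb₀, hw4] at h4
    omega
  have hsymm : ∀ x y : F, o (x - y) = o (y - x) := fun x y => by
    show - ordF7 w (x - y) = - ordF7 w (y - x)
    rw [ordF7_sub_comm]
  have hbase : Adm8 K.toSubfield S (fun b => gF.eval b) b₀ c₀ o := by
    refine ⟨fun a ha b hb ha0 hb0 => ?_, fun β hβ h1 h3 β' hβ' h4 => ?_, fun β' hβ' h1 => ?_,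
      fun β' hβ' h1 => ?_⟩
    · show - ordF7 w (a * b) = - ordF7 w a + - ordF7 w b
      rw [ordF7_mul w ha hb ha0 hb0]
      ring
    · have h5 : gF.eval β ≠ α₁ := by rw [← hgb₀]; exact h1
      have h6 : gF.eval β ≠ α₂ := by rw [← hgc₀]; exact h3
      exact hzero β hβ _ (hSA β' hβ') (fun h => h4 h.symm) (fun h => h5 h.1) (fun h => h6 h.1)
        β' hβ' rfl
    · by_cases h5 : gF.eval β' = α₂
      · exact hone b₀ hb₀ α₂ hα₂ hb₀α (by rw [hgb₀]; exact hw4) c₀ hc₀ hgc₀ hoc₀ β' hβ' h5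
      · rw [hzero b₀ hb₀ _ (hSA β' hβ') (fun h => h1 h.symm) (fun h => h5 h.2)
          (fun h => h12 (hgb₀.symm.trans h.1)) β' hβ' rfl, if_neg]
        intro h
        exact h5 (by rw [h]; exact hgc₀)
    · have hc₀α : gF.eval c₀ ≠ α₁ := by rw [hgc₀]; exact h12.symm
      by_cases h5 : gF.eval β' = α₁
      · refine hone c₀ hc₀ α₁ hα₁ hc₀α ?_ b₀ hb₀ hgb₀ (by rw [hsymm]; exact hoc₀) β' hβ' h5
        rw [hgc₀, ordF7_sub_comm]
        exact hw4
      · rw [hzero c₀ hc₀ _ (hSA β' hβ') (fun h => h1 h.symm)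
          (fun h => h12 (h.1.symm.trans hgc₀)) (fun h => h5 h.2) β' hβ' rfl, if_neg]
        intro h
        exact h5 (by rw [h]; exact hgb₀)
  -- the Galois conjugates
  have hmemS' : ∀ b, b ∈ S ↔ aeval b ((D.map (algebraMap R k)).comp
      (g.map (algebraMap R k))) = 0 := by
    intro b
    rw [hmemS, aeval_comp, ← eval_map_algebraMap, hmapF, hev]
  have hσS : ∀ (σ : F ≃ₐ[k] F), ∀ x ∈ S, σ x ∈ S := by
    intro σ x hx
    rw [hmemS'] at hx ⊢
    rw [Polynomial.aeval_algHom_apply, hx, map_zero]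
  have hσK : ∀ (σ : F ≃ₐ[k] F), ∀ x ∈ K, σ x ∈ K := by
    intro σ x hx
    rw [hK] at hx ⊢
    refine IntermediateField.adjoin_induction k (p := fun x _ =>
      σ x ∈ IntermediateField.adjoin k (S : Set F)) ?_ ?_ ?_ ?_ ?_ hx
    · intro y hy
      exact IntermediateField.subset_adjoin k _ (hσS σ y hy)
    · intro y
      rw [AlgEquiv.commutes]
      exact IntermediateField.algebraMap_mem _ y
    · intro y z _ _ hy hz
      rw [map_add]; exact add_mem hy hz
    · intro y _ hy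
      rw [map_inv₀]; exact inv_mem hy
    · intro y z _ _ hy hz
      rw [map_mul]; exact mul_mem hy hz
  have hσg : ∀ (σ : F ≃ₐ[k] F) (x : F), gF.eval (σ x) = σ (gF.eval x) := fun σ x => by
    rw [← hev, ← hev]
    exact Polynomial.aeval_algHom_apply (σ : F →ₐ[k] F) x _
  have hKroots : K = IntermediateField.adjoin k (Sup.roots k F (g.map (algebraMap R k))
      (D.map (algebraMap R k))) := by
    rw [hK]
    congr 1
    ext b
    rw [Finset.mem_coe, hmemS', aeval_comp]
    rfl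
  refine isIndependent_of_adm8 hℓ S (fun b => by rw [hmemS', aeval_comp]) ?_ ?_ ?_
  · intro x hx y hy hxy
    rw [← hKroots]
    obtain ⟨σ, hσ1, hσ2⟩ := htr x y b₀ c₀ ((hmemS' x).mp hx) ((hmemS' y).mp hy)
      ((hmemS' b₀).mp hb₀) ((hmemS' c₀).mp hc₀) hxy (by
        rw [hev, hev, hgb₀, hgc₀]; exact h12)
    have hp : ∀ z z' : F, aeval z (g.map (algebraMap R k)) ≠ aeval z' (g.map (algebraMap R k)) →
        gF.eval (σ z) ≠ gF.eval (σ z') := by
      intro z z' h
      rw [hev, hev] at h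
      rw [hσg, hσg]
      exact fun h0 => h (σ.injective h0)
    refine ⟨fun z => o (σ z), fun a ha b hb ha0 hb0 => ?_, fun β hβ h1 h3 β' hβ' h4 => ?_,
      fun β' hβ' h1 => ?_, fun β' hβ' h1 => ?_⟩
    · show o (σ (a * b)) = o (σ a) + o (σ b)
      rw [map_mul]
      exact hbase.mul _ (hσK σ a ha) _ (hσK σ b hb) ((_root_.map_ne_zero σ).mpr ha0)
        ((_root_.map_ne_zero σ).mpr hb0)
    · show o (σ (β - β')) = 0
      rw [map_sub]
      exact hbase.out _ (hσS σ β hβ) (by rw [← hσ1]; exact hp β x h1)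
        (by rw [← hσ2]; exact hp β y h3) _ (hσS σ β' hβ') (hp β' β h4)
    · show o (σ (x - β')) = _
      rw [map_sub, hσ1, hbase.left _ (hσS σ β' hβ') (by rw [← hσ1]; exact hp β' x h1)]
      exact if_congr ⟨fun h => σ.injective (h.trans hσ2.symm), fun h => by rw [h, hσ2]⟩ rfl rfl
    · show o (σ (y - β')) = _
      rw [map_sub, hσ2, hbase.right _ (hσS σ β' hβ') (by rw [← hσ2]; exact hp β' y h1)]
      exact if_congr ⟨fun h => σ.injective (h.trans hσ1.symm), fun h => by rw [h, hσ1]⟩ rfl rfl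
  · have h1 : S.image (fun b => aeval b (g.map (algebraMap R k))) = A := by
      ext α
      rw [Finset.mem_image]
      constructor
      · rintro ⟨b, hb, rfl⟩
        rw [hev]
        exact hSA b hb
      · intro hα
        obtain ⟨b, hb, hbα⟩ := hAS α hα
        exact ⟨b, hb, by rw [hev]; exact hbα⟩
    rw [h1, hA, card_roots_of_separable8 hsepD]
    show 3 ≤ (D.map (algebraMap R F)).natDegree
    rw [natDegree_map_eq_of_injective hinjF]
    exact hn
  · intro x hx
    have h1 : S.filter (fun β => aeval β (g.map (algebraMap R k)) =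
        aeval x (g.map (algebraMap R k))) = S.filter (fun b => gF.eval b = gF.eval x) :=
      Finset.filter_congr fun β _ => by rw [hev, hev]
    rw [h1, hcardS _ (hSA x hx)]
    intro hdvd'
    have h4 : ℓ ∣ Nat.gcd g.natDegree ℓ := Nat.dvd_gcd hdvd' (dvd_refl ℓ)
    rw [Nat.Coprime] at hcop
    rw [hcop] at h4
    exact hℓ.one_lt.ne' (Nat.dvd_one.mp h4)

end Pool.Agent.Lib.MP_89bcae_ag
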