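import Mathlib

/-!
# Simple collisions of roots, and transitivity of the Galois group on pairs of roots
-/

open Polynomial

namespace Pool.Agent.Lib.MP_89bcae_ag

/-- The polynomials `a`, `b`, `a - b` over `R` have degree `n`, unit leading coefficients and are
separable over `R` (coprime to their derivatives, hence of unit discriminants), and the resultant
of `a` and `b` is an irreducible element of `R` (a uniformizer if `R` is a discrete valuation
ring). -/
structure IsSimpleCollision {R : Type*} [CommRing R] (a b : R[X]) (n : ℕ) : Prop where
  deg_a : a.natDegree = n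
  deg_b : b.natDegree = n
  deg_c : (a - b).natDegree = n
  lead_a : IsUnit a.leadingCoeff
  lead_b : IsUnit b.leadingCoeff
  lead_c : IsUnit (a - b).leadingCoeff
  sep_a : a.Separable
  sep_b : b.Separable
  sep_c : (a - b).Separable
  res : Irreducible (a.resultant b)

/-- The Galois group of `F` over `k` is transitive on the pairs formed of a root of `p` and a root
of `q`. -/
def IsTransitiveOnPairs {k : Type*} (F : Type*) [Field k] [Field F] [Algebra k F]
    (p q : k[X]) : Prop :=
  ∀ x y x' y' : F, aeval x p = 0 → aeval y q = 0 → aeval x' p = 0 → aeval y' q = 0 →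
    ∃ σ : F ≃ₐ[k] F, σ x = x' ∧ σ y = y'

end Pool.Agent.Lib.MP_89bcae_ag
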