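import Pool.Agent.Lib.MP_89bcae_ag.DefsLevelTwo
import Pool.Agent.Lib.MP_89bcae_ag.DefsCollision

/-!
# Absence of eigentriples from one simple collision of roots

If the Galois group is transitive on the pairs of roots of any two of the polynomials `a`, `b`,
`a - b`, and if exactly one root of each of them collide, simply, at some discrete valuation, then
there is no eigentriple.
-/

open Polynomial IsDedekindDomain

open scoped Classical WithZero

namespace Pool.Agent.Lib.MP_89bcae_ag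

section Combinatorics

variable {F : Type*}

/-- The conditions on the sets `S`, `T`, `U` coming from a valuation attached to the triple
`(x, y, z)`; `e` is the order of `δ`. -/
def TripleParity (S T U : Finset F) (x y z : F) (e : ℤ) : Prop :=
  Even ((if y ∈ T then 1 else 0) + (if z ∈ U then 1 else 0) + if x ∈ S then 1 + e else 0) ∧
  Even ((if x ∈ S then 1 else 0) + (if z ∈ U then 1 else 0) + if y ∈ T then 1 + e else 0) ∧
  Even ((if x ∈ S then 1 else 0) + (if y ∈ T then 1 else 0) + if z ∈ U then 1 + e else 0) ∧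
  (∀ s ∈ S, s ≠ x → Even e) ∧ (∀ s ∈ T, s ≠ y → Even e) ∧ ∀ s ∈ U, s ≠ z → Even e

theorem TripleParity.even {S T U : Finset F} {x y z : F} {e : ℤ} (h : TripleParity S T U x y z e)
    (he : Even e) : Even ((if x ∈ S then 1 else 0) + (if y ∈ T then 1 else 0) +
      if z ∈ U then 1 else 0 : ℤ) := by
  obtain ⟨h1, -⟩ := h
  obtain ⟨m, hm⟩ := he
  split_ifs at h1 ⊢ <;> (obtain ⟨l, hl⟩ := h1) <;>
    first
    | exact ⟨l, by omega⟩
    | exact ⟨l - m, by omega⟩

/-- The sign attached to a set. -/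
noncomputable def sgn (S : Finset F) (x : F) : ℤ := if x ∈ S then -1 else 1

theorem sgn_mul_self (S : Finset F) (x : F) : sgn S x * sgn S x = 1 := by
  rw [sgn]
  split_ifs <;> norm_num

theorem sum_sgn {A S : Finset F} (hS : S ⊆ A) :
    ∑ x ∈ A, sgn S x = (A.card : ℤ) - 2 * S.card := by
  have h1 : ∀ x ∈ A, sgn S x = 1 - 2 * (if x ∈ S then 1 else 0) := by
    intro x _
    rw [sgn]
    split_ifs <;> norm_num
  rw [Finset.sum_congr rfl h1, Finset.sum_sub_distrib, ← Finset.mul_sum, Finset.sum_ite_mem,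
    Finset.inter_eq_right.2 hS]
  simp

theorem sgn_mul_of_even {S T U : Finset F} {x y z : F}
    (h : Even ((if x ∈ S then 1 else 0) + (if y ∈ T then 1 else 0) +
      if z ∈ U then 1 else 0 : ℤ)) : sgn S x * sgn T y = sgn U z := by
  rw [sgn, sgn, sgn]
  split_ifs at h ⊢ <;> first | (exfalso; revert h; decide) | norm_num

/-- The combinatorial part: `O` is a set of triples, every pair of elements of two of the sets
`A`, `B`, `C` being in the same number of triples. -/
theorem pair_combinatorics {A B C S T U : Finset F} (hS : S ⊆ A) (hT : T ⊆ B) (hU : U ⊆ C)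
    (hA : Odd A.card) (hB : Odd B.card) (hC : Odd C.card) (hA1 : 1 < A.card) (hB1 : 1 < B.card)
    (hST : Even (S.card + T.card)) (hSU : Even (S.card + U.card)) {O : Finset (F × F × F)}
    (hO : ∀ t ∈ O, t.1 ∈ A ∧ t.2.1 ∈ B ∧ t.2.2 ∈ C) (hO0 : O.Nonempty) {r₁ r₂ r₃ : ℕ}
    (h₁ : ∀ x ∈ A, ∀ y ∈ B, (O.filter fun t => t.1 = x ∧ t.2.1 = y).card = r₁)
    (h₂ : ∀ x ∈ A, ∀ z ∈ C, (O.filter fun t => t.1 = x ∧ t.2.2 = z).card = r₂)
    (h₃ : ∀ y ∈ B, ∀ z ∈ C, (O.filter fun t => t.2.1 = y ∧ t.2.2 = z).card = r₃)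
    (h : ∀ t ∈ O, ∃ e : ℤ, TripleParity S T U t.1 t.2.1 t.2.2 e) :
    S = ∅ ∧ T = ∅ ∧ U = ∅ := by
  -- the numbers of triples containing an element
  have nA : ∀ x ∈ A, (O.filter fun t => t.1 = x).card = B.card * r₁ := by
    intro x hx
    rw [Finset.card_eq_sum_card_fiberwise (f := fun t : F × F × F => t.2.1) (t := B)
      (fun t ht => (hO t (Finset.mem_filter.1 ht).1).2.1), Finset.sum_const_nat (m := r₁)]
    intro y hy
    rw [Finset.filter_filter]
    exact h₁ x hx y hy
  have nA' : ∀ x ∈ A, (O.filter fun t => t.1 = x).card = C.card * r₂ := by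
    intro x hx
    rw [Finset.card_eq_sum_card_fiberwise (f := fun t : F × F × F => t.2.2) (t := C)
      (fun t ht => (hO t (Finset.mem_filter.1 ht).1).2.2), Finset.sum_const_nat (m := r₂)]
    intro z hz
    rw [Finset.filter_filter]
    exact h₂ x hx z hz
  have nB : ∀ y ∈ B, (O.filter fun t => t.2.1 = y).card = A.card * r₁ := by
    intro y hy
    rw [Finset.card_eq_sum_card_fiberwise (f := fun t : F × F × F => t.1) (t := A)
      (fun t ht => (hO t (Finset.mem_filter.1 ht).1).1), Finset.sum_const_nat (m := r₁)]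
    intro x hx
    rw [Finset.filter_filter, ← h₁ x hx y hy]
    simp only [and_comm]
  have nB' : ∀ y ∈ B, (O.filter fun t => t.2.1 = y).card = C.card * r₃ := by
    intro y hy
    rw [Finset.card_eq_sum_card_fiberwise (f := fun t : F × F × F => t.2.2) (t := C)
      (fun t ht => (hO t (Finset.mem_filter.1 ht).1).2.2), Finset.sum_const_nat (m := r₃)]
    intro z hz
    rw [Finset.filter_filter]
    exact h₃ y hy z hz
  have nC : ∀ z ∈ C, (O.filter fun t => t.2.2 = z).card = A.card * r₂ := by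
    intro z hz
    rw [Finset.card_eq_sum_card_fiberwise (f := fun t : F × F × F => t.1) (t := A)
      (fun t ht => (hO t (Finset.mem_filter.1 ht).1).1), Finset.sum_const_nat (m := r₂)]
    intro x hx
    rw [Finset.filter_filter, ← h₂ x hx z hz]
    simp only [and_comm]
  have nC' : ∀ z ∈ C, (O.filter fun t => t.2.2 = z).card = B.card * r₃ := by
    intro z hz
    rw [Finset.card_eq_sum_card_fiberwise (f := fun t : F × F × F => t.2.1) (t := B)
      (fun t ht => (hO t (Finset.mem_filter.1 ht).1).2.1), Finset.sum_const_nat (m := r₃)]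
    intro y hy
    rw [Finset.filter_filter, ← h₃ y hy z hz]
    simp only [and_comm]
  obtain ⟨t₀, ht₀⟩ := hO0
  obtain ⟨hx₀, hy₀, hz₀⟩ := hO t₀ ht₀
  have hr₁ : 0 < r₁ := by
    rw [← h₁ _ hx₀ _ hy₀]
    exact Finset.card_pos.2 ⟨t₀, Finset.mem_filter.2 ⟨ht₀, rfl, rfl⟩⟩
  have hr₂ : 0 < r₂ := by
    rw [← h₂ _ hx₀ _ hz₀]
    exact Finset.card_pos.2 ⟨t₀, Finset.mem_filter.2 ⟨ht₀, rfl, rfl⟩⟩
  have hr₃ : 0 < r₃ := by
    rw [← h₃ _ hy₀ _ hz₀]
    exact Finset.card_pos.2 ⟨t₀, Finset.mem_filter.2 ⟨ht₀, rfl, rfl⟩⟩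
  by_cases hev : ∃ t ∈ O, (∀ s ∈ S, s = t.1) ∧ (∀ s ∈ T, s = t.2.1) ∧ ∀ s ∈ U, s = t.2.2
  · obtain ⟨⟨x, y, z⟩, ht, hSx, hTy, hUz⟩ := hev
    simp only at hSx hTy hUz
    obtain ⟨hx, hy, hz⟩ := hO _ ht
    simp only at hx hy hz
    have cS : S.card ≤ 1 := Finset.card_le_one.2 fun a ha b hb => (hSx a ha).trans (hSx b hb).symm
    have cT : T.card ≤ 1 := Finset.card_le_one.2 fun a ha b hb => (hTy a ha).trans (hTy b hb).symm
    have cU : U.card ≤ 1 := Finset.card_le_one.2 fun a ha b hb => (hUz a ha).trans (hUz b hb).symm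
    rw [Nat.even_iff] at hST hSU
    by_cases hS0 : S.card = 0
    · exact ⟨Finset.card_eq_zero.1 hS0, Finset.card_eq_zero.1 (by omega),
        Finset.card_eq_zero.1 (by omega)⟩
    · exfalso
      have hxS : x ∈ S := by
        obtain ⟨s, hs⟩ := Finset.card_pos.1 (Nat.pos_of_ne_zero hS0)
        exact hSx s hs ▸ hs
      have hyT : y ∈ T := by
        obtain ⟨s, hs⟩ := Finset.card_pos.1 (show 0 < T.card by omega)
        exact hTy s hs ▸ hs
      have hzU : z ∈ U := by
        obtain ⟨s, hs⟩ := Finset.card_pos.1 (show 0 < U.card by omega)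
        exact hUz s hs ▸ hs
      obtain ⟨y', hy', hyy⟩ := Finset.exists_mem_ne hB1 y
      -- triples with the pair `(y', z)` have first element `x`
      have k1 : ∀ t ∈ O.filter (fun t => t.2.1 = y' ∧ t.2.2 = z), t = (x, y', z) := by
        rintro ⟨x₁, y₁, z₁⟩ ht
        obtain ⟨ht1, rfl, rfl⟩ := Finset.mem_filter.1 ht
        obtain ⟨e, he⟩ := h _ ht1
        have h1 := he.even (he.2.2.2.2.1 y hyT (Ne.symm hyy))
        have hy'T : y₁ ∉ T := fun h' => hyy (hTy _ h')
        simp only at h1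
        rw [if_neg hy'T, if_pos hzU] at h1
        by_cases hx₁ : x₁ ∈ S
        · rw [hSx _ hx₁]
        · rw [if_neg hx₁] at h1
          exact absurd h1 (by decide)
      have k2 : r₃ ≤ 1 := by
        rw [← h₃ y' hy' z hz]
        exact Finset.card_le_one.2 fun a ha b hb => (k1 a ha).trans (k1 b hb).symm
      -- all triples with second element `y` and first element not `x` have third element `z`
      have k3 : ∀ x' ∈ A, x' ≠ x → (x', y, z) ∈ O := by
        intro x' hx' hxx
        have h1 : 0 < (O.filter fun t => t.1 = x' ∧ t.2.1 = y).card := by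
          rw [h₁ x' hx' y hy]
          exact hr₁
        obtain ⟨⟨x₁, y₁, z₁⟩, ht⟩ := Finset.card_pos.1 h1
        obtain ⟨ht1, rfl, rfl⟩ := Finset.mem_filter.1 ht
        obtain ⟨e, he⟩ := h _ ht1
        have h2 := he.even (he.2.2.2.1 x hxS (Ne.symm hxx))
        have hx'S : x₁ ∉ S := fun h' => hxx (hSx _ h')
        simp only at h2
        rw [if_neg hx'S, if_pos hyT] at h2
        by_cases hz₁ : z₁ ∈ U
        · rw [← hUz _ hz₁]
          exact ht1
        · rw [if_neg hz₁] at h2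
          exact absurd h2 (by decide)
      have k4 : A.card - 1 ≤ r₃ := by
        rw [← h₃ y hy z hz, ← Finset.card_erase_of_mem hx]
        apply Finset.card_le_card_of_injOn (fun x' => (x', y, z))
        · intro x' hx'
          have := Finset.mem_erase.1 (Finset.mem_coe.1 hx')
          exact Finset.mem_coe.2 (Finset.mem_filter.2 ⟨k3 x' this.2 this.1, rfl, rfl⟩)
        · intro a _ b _ hab
          simpa using hab
      rw [Nat.odd_iff] at hA
      omega
  · -- all the parities are even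
    have key : ∀ t ∈ O, sgn S t.1 * sgn T t.2.1 = sgn U t.2.2 := by
      intro t ht
      obtain ⟨e, he⟩ := h t ht
      apply sgn_mul_of_even
      apply he.even
      by_contra hodd
      refine hev ⟨t, ht, fun s hs => ?_, fun s hs => ?_, fun s hs => ?_⟩
      · by_contra hne
        exact hodd (he.2.2.2.1 s hs hne)
      · by_contra hne
        exact hodd (he.2.2.2.2.1 s hs hne)
      · by_contra hne
        exact hodd (he.2.2.2.2.2 s hs hne)
    -- double counting
    have sAB : ∑ t ∈ O, sgn S t.1 * sgn T t.2.1 =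
        r₁ * ((∑ x ∈ A, sgn S x) * ∑ y ∈ B, sgn T y) := by
      rw [Finset.sum_mul_sum, ← Finset.sum_product',
        ← Finset.sum_fiberwise_of_maps_to (t := A ×ˢ B) (g := fun t : F × F × F => (t.1, t.2.1))
          (fun t ht => Finset.mem_product.2 ⟨(hO t ht).1, (hO t ht).2.1⟩), Finset.mul_sum]
      refine Finset.sum_congr rfl fun p hp => ?_
      obtain ⟨hp1, hp2⟩ := Finset.mem_product.1 hp
      rw [← h₁ p.1 hp1 p.2 hp2, ← nsmul_eq_mul, ← Finset.sum_const]
      refine Finset.sum_congr ?_ fun t ht => ?_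
      · ext t
        simp only [Finset.mem_filter, Prod.ext_iff]
      · obtain ⟨-, ht2⟩ := Finset.mem_filter.1 ht
        simp only [← ht2]
    have sAC : ∑ t ∈ O, sgn S t.1 * sgn U t.2.2 =
        r₂ * ((∑ x ∈ A, sgn S x) * ∑ z ∈ C, sgn U z) := by
      rw [Finset.sum_mul_sum, ← Finset.sum_product',
        ← Finset.sum_fiberwise_of_maps_to (t := A ×ˢ C) (g := fun t : F × F × F => (t.1, t.2.2))
          (fun t ht => Finset.mem_product.2 ⟨(hO t ht).1, (hO t ht).2.2⟩), Finset.mul_sum]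
      refine Finset.sum_congr rfl fun p hp => ?_
      obtain ⟨hp1, hp2⟩ := Finset.mem_product.1 hp
      rw [← h₂ p.1 hp1 p.2 hp2, ← nsmul_eq_mul, ← Finset.sum_const]
      refine Finset.sum_congr ?_ fun t ht => ?_
      · ext t
        simp only [Finset.mem_filter, Prod.ext_iff]
      · obtain ⟨-, ht2⟩ := Finset.mem_filter.1 ht
        simp only [← ht2]
    have sBC : ∑ t ∈ O, sgn T t.2.1 * sgn U t.2.2 =
        r₃ * ((∑ y ∈ B, sgn T y) * ∑ z ∈ C, sgn U z) := by
      rw [Finset.sum_mul_sum, ← Finset.sum_product',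
        ← Finset.sum_fiberwise_of_maps_to (t := B ×ˢ C) (g := fun t : F × F × F => (t.2.1, t.2.2))
          (fun t ht => Finset.mem_product.2 ⟨(hO t ht).2.1, (hO t ht).2.2⟩), Finset.mul_sum]
      refine Finset.sum_congr rfl fun p hp => ?_
      obtain ⟨hp1, hp2⟩ := Finset.mem_product.1 hp
      rw [← h₃ p.1 hp1 p.2 hp2, ← nsmul_eq_mul, ← Finset.sum_const]
      refine Finset.sum_congr ?_ fun t ht => ?_
      · ext t
        simp only [Finset.mem_filter, Prod.ext_iff]
      · obtain ⟨-, ht2⟩ := Finset.mem_filter.1 ht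
        simp only [← ht2]
    have sA : ∑ t ∈ O, sgn S t.1 = (B.card * r₁ : ℕ) * ∑ x ∈ A, sgn S x := by
      rw [← Finset.sum_fiberwise_of_maps_to (t := A) (g := fun t : F × F × F => t.1)
          (fun t ht => (hO t ht).1), Finset.mul_sum]
      refine Finset.sum_congr rfl fun x hx => ?_
      rw [← nA x hx, ← nsmul_eq_mul, ← Finset.sum_const]
      exact Finset.sum_congr rfl fun t ht => by rw [(Finset.mem_filter.1 ht).2]
    have sB : ∑ t ∈ O, sgn T t.2.1 = (A.card * r₁ : ℕ) * ∑ y ∈ B, sgn T y := by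
      rw [← Finset.sum_fiberwise_of_maps_to (t := B) (g := fun t : F × F × F => t.2.1)
          (fun t ht => (hO t ht).2.1), Finset.mul_sum]
      refine Finset.sum_congr rfl fun y hy => ?_
      rw [← nB y hy, ← nsmul_eq_mul, ← Finset.sum_const]
      exact Finset.sum_congr rfl fun t ht => by rw [(Finset.mem_filter.1 ht).2]
    have sC : ∑ t ∈ O, sgn U t.2.2 = (A.card * r₂ : ℕ) * ∑ z ∈ C, sgn U z := by
      rw [← Finset.sum_fiberwise_of_maps_to (t := C) (g := fun t : F × F × F => t.2.2)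
          (fun t ht => (hO t ht).2.2), Finset.mul_sum]
      refine Finset.sum_congr rfl fun z hz => ?_
      rw [← nC z hz, ← nsmul_eq_mul, ← Finset.sum_const]
      exact Finset.sum_congr rfl fun t ht => by rw [(Finset.mem_filter.1 ht).2]
    have e1 : ∑ t ∈ O, sgn S t.1 * sgn T t.2.1 = ∑ t ∈ O, sgn U t.2.2 :=
      Finset.sum_congr rfl key
    have e2 : ∑ t ∈ O, sgn S t.1 * sgn U t.2.2 = ∑ t ∈ O, sgn T t.2.1 :=
      Finset.sum_congr rfl fun t ht => by
        rw [← key t ht, ← mul_assoc, sgn_mul_self, one_mul]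
    have e3 : ∑ t ∈ O, sgn T t.2.1 * sgn U t.2.2 = ∑ t ∈ O, sgn S t.1 :=
      Finset.sum_congr rfl fun t ht => by
        rw [← key t ht, mul_comm (sgn S _), ← mul_assoc, sgn_mul_self, one_mul]
    rw [sAB, sC, sum_sgn hS, sum_sgn hT, sum_sgn hU] at e1
    rw [sAC, sB, sum_sgn hS, sum_sgn hT, sum_sgn hU] at e2
    rw [sBC, sA, sum_sgn hS, sum_sgn hT, sum_sgn hU] at e3
    have c1 : B.card * r₁ = C.card * r₂ := (nA _ hx₀).symm.trans (nA' _ hx₀)
    have c2 : A.card * r₁ = C.card * r₃ := (nB _ hy₀).symm.trans (nB' _ hy₀)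
    have c3 : A.card * r₂ = B.card * r₃ := (nC _ hz₀).symm.trans (nC' _ hz₀)
    have hr₁' : (r₁ : ℤ) ≠ 0 := by exact_mod_cast hr₁.ne'
    have hr₂' : (r₂ : ℤ) ≠ 0 := by exact_mod_cast hr₂.ne'
    have hr₃' : (r₃ : ℤ) ≠ 0 := by exact_mod_cast hr₃.ne'
    have hF0 : (A.card : ℤ) - 2 * S.card ≠ 0 := by
      rw [Nat.odd_iff] at hA
      omega
    have hG0 : (B.card : ℤ) - 2 * T.card ≠ 0 := by
      rw [Nat.odd_iff] at hB
      omega
    have hH0 : (C.card : ℤ) - 2 * U.card ≠ 0 := by
      rw [Nat.odd_iff] at hC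
      omega
    have c1' : (B.card : ℤ) * r₁ = C.card * r₂ := by exact_mod_cast c1
    have c2' : (A.card : ℤ) * r₁ = C.card * r₃ := by exact_mod_cast c2
    have c3' : (A.card : ℤ) * r₂ = B.card * r₃ := by exact_mod_cast c3
    push_cast at e1 e2 e3
    generalize hF : (A.card : ℤ) - 2 * S.card = f at e1 e2 e3 hF0
    generalize hG : (B.card : ℤ) - 2 * T.card = g at e1 e2 e3 hG0
    generalize hH : (C.card : ℤ) - 2 * U.card = l at e1 e2 e3 hH0
    have hF2 : f ^ 2 = (A.card : ℤ) ^ 2 := by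
      apply mul_left_cancel₀ (mul_ne_zero (mul_ne_zero hr₁' hr₂') (mul_ne_zero hG0 hH0))
      linear_combination (r₂ * f * l) * e1 + (A.card * r₂ * l) * e2
    have hG2 : g ^ 2 = (B.card : ℤ) ^ 2 := by
      apply mul_left_cancel₀ (mul_ne_zero (mul_ne_zero hr₁' hr₃') (mul_ne_zero hF0 hH0))
      linear_combination (r₃ * g * l) * e1 + (A.card * r₂ * l) * e3 +
        (B.card * r₁ * f * l) * c3'
    have hH2 : l ^ 2 = (C.card : ℤ) ^ 2 := by
      apply mul_left_cancel₀ (mul_ne_zero (mul_ne_zero hr₂' hr₃') (mul_ne_zero hF0 hG0))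
      linear_combination (r₃ * g * l) * e2 + (A.card * r₁ * g) * e3 +
        (B.card * r₁ * f * g) * c2' + (C.card * r₃ * f * g) * c1'
    have hS' : S = ∅ ∨ S = A := by
      rcases sq_eq_sq_iff_eq_or_eq_neg.1 hF2 with h' | h'
      · exact Or.inl (Finset.card_eq_zero.1 (by omega))
      · exact Or.inr (Finset.eq_of_subset_of_card_le hS (by omega))
    have hT' : T = ∅ ∨ T = B := by
      rcases sq_eq_sq_iff_eq_or_eq_neg.1 hG2 with h' | h'
      · exact Or.inl (Finset.card_eq_zero.1 (by omega))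
      · exact Or.inr (Finset.eq_of_subset_of_card_le hT (by omega))
    have hU' : U = ∅ ∨ U = C := by
      rcases sq_eq_sq_iff_eq_or_eq_neg.1 hH2 with h' | h'
      · exact Or.inl (Finset.card_eq_zero.1 (by omega))
      · exact Or.inr (Finset.eq_of_subset_of_card_le hU (by omega))
    rw [Nat.odd_iff] at hA hB hC
    rw [Nat.even_iff] at hST hSU
    have k0 := key t₀ ht₀
    rcases hS' with hS0 | hS0 <;> rcases hT' with hT0 | hT0 <;> rcases hU' with hU0 | hU0
    · exact ⟨hS0, hT0, hU0⟩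
    · exfalso
      simp only [hS0, hU0, Finset.card_empty] at hSU
      omega
    · exfalso
      simp only [hS0, hT0, Finset.card_empty] at hST
      omega
    · exfalso
      simp only [hS0, hT0, Finset.card_empty] at hST
      omega
    · exfalso
      simp only [hS0, hT0, Finset.card_empty] at hST
      omega
    · exfalso
      simp only [hS0, hT0, Finset.card_empty] at hST
      omega
    · exfalso
      simp only [hS0, hU0, Finset.card_empty] at hSU
      omega
    · exfalso
      rw [sgn, sgn, sgn, hS0, hT0, hU0, if_pos hx₀, if_pos hy₀, if_pos hz₀] at k0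
      norm_num at k0

end Combinatorics

section Order

variable {k F : Type*} [Field k] [Field F] [Algebra k F] {K : IntermediateField k F}
  (w : Valuation K ℤᵐ⁰)

/-- Minus the additive order at `w` of the element `x` of `F`, for `x` in `K`. -/
noncomputable def ordF (x : F) : ℤ := if h : x ∈ K then WithZero.log (w ⟨x, h⟩) else 0

theorem ordF_of_mem {x : F} (h : x ∈ K) : ordF w x = WithZero.log (w ⟨x, h⟩) := dif_pos h

theorem ordF_mul {x y : F} (hx : x ∈ K) (hy : y ∈ K) (hx0 : x ≠ 0) (hy0 : y ≠ 0) :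
    ordF w (x * y) = ordF w x + ordF w y := by
  rw [ordF_of_mem w hx, ordF_of_mem w hy, ordF_of_mem w (K.mul_mem hx hy)]
  have h1 : w ⟨x, hx⟩ ≠ 0 := (Valuation.ne_zero_iff w).2 fun h => hx0 (congrArg Subtype.val h)
  have h2 : w ⟨y, hy⟩ ≠ 0 := (Valuation.ne_zero_iff w).2 fun h => hy0 (congrArg Subtype.val h)
  rw [← WithZero.log_mul h1 h2, ← map_mul]
  rfl

theorem ordF_one : ordF w (1 : F) = 0 := by
  rw [ordF_of_mem w K.one_mem]
  have : (⟨1, K.one_mem⟩ : K) = 1 := rfl
  rw [this, map_one, WithZero.log_one]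

theorem ordF_neg (x : F) : ordF w (-x) = ordF w x := by
  by_cases hx : x ∈ K
  · rw [ordF_of_mem w hx, ordF_of_mem w (K.neg_mem hx)]
    have : (⟨-x, K.neg_mem hx⟩ : K) = -⟨x, hx⟩ := rfl
    rw [this, Valuation.map_neg]
  · rw [ordF, ordF, dif_neg hx, dif_neg fun h => hx (by simpa using K.neg_mem h)]

theorem ordF_sub_comm (x y : F) : ordF w (x - y) = ordF w (y - x) := by
  rw [← ordF_neg w (x - y), neg_sub]

theorem ordF_prod {ι : Type*} (s : Finset ι) (f : ι → F) (hf : ∀ i ∈ s, f i ∈ K)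
    (hf0 : ∀ i ∈ s, f i ≠ 0) : ordF w (∏ i ∈ s, f i) = ∑ i ∈ s, ordF w (f i) := by
  induction s using Finset.induction_on with
  | empty => simp [ordF_one]
  | insert i s hi ih =>
    rw [Finset.prod_insert hi, Finset.sum_insert hi,
      ordF_mul w (hf i (Finset.mem_insert_self i s))
        (K.prod_mem fun j hj => hf j (Finset.mem_insert_of_mem hj))
        (hf0 i (Finset.mem_insert_self i s))
        (Finset.prod_ne_zero_iff.2 fun j hj => hf0 j (Finset.mem_insert_of_mem hj)),
      ih (fun j hj => hf j (Finset.mem_insert_of_mem hj))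
        (fun j hj => hf0 j (Finset.mem_insert_of_mem hj))]

theorem ordF_multiset_prod (s : Multiset F) (hf : ∀ i ∈ s, i ∈ K)
    (hf0 : ∀ i ∈ s, i ≠ 0) : ordF w s.prod = (s.map (ordF w)).sum := by
  induction s using Multiset.induction_on with
  | empty => simp [ordF_one]
  | cons i s ih =>
    rw [Multiset.prod_cons, Multiset.map_cons, Multiset.sum_cons,
      ordF_mul w (hf i (Multiset.mem_cons_self i s))
        (multiset_prod_mem _ fun j hj => hf j (Multiset.mem_cons_of_mem hj))
        (hf0 i (Multiset.mem_cons_self i s))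
        (Multiset.prod_ne_zero fun h => hf0 0 (Multiset.mem_cons_of_mem h) rfl),
      ih (fun j hj => hf j (Multiset.mem_cons_of_mem hj))
        (fun j hj => hf0 j (Multiset.mem_cons_of_mem hj))]

theorem even_ordF_of_sq {y d : F} (hy : y ∈ K) (h : y ^ 2 = d) : Even (ordF w d) := by
  by_cases hy0 : y = 0
  · subst hy0
    rw [← h, zero_pow two_ne_zero, ordF_of_mem w K.zero_mem]
    have : (⟨0, K.zero_mem⟩ : K) = 0 := rfl
    rw [this, map_zero, WithZero.log_zero]
    exact Even.zero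
  · rw [← h, sq, ordF_mul w hy hy hy0 hy0]
    exact ⟨_, rfl⟩

/-- Parity of a sum over a finite set in which only one term may be odd. -/
theorem even_sum_add_ite {ι : Type*} (s : Finset ι) (f : ι → ℤ) (i : ι) (hi : Odd (f i))
    (h : ∀ j ∈ s, j ≠ i → Even (f j)) : Even (∑ j ∈ s, f j + if i ∈ s then 1 else 0) := by
  by_cases his : i ∈ s
  · rw [if_pos his, ← Finset.add_sum_erase s f his]
    have h1 : Even (∑ j ∈ s.erase i, f j) :=
      Finset.even_sum _ fun j hj => h j (Finset.mem_of_mem_erase hj) (Finset.ne_of_mem_erase hj)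
    have h2 : Even (f i + 1) := hi.add_odd odd_one
    have : f i + ∑ j ∈ s.erase i, f j + 1 = (f i + 1) + ∑ j ∈ s.erase i, f j := by ring
    rw [this]
    exact h2.add h1
  · rw [if_neg his, add_zero]
    exact Finset.even_sum _ fun j hj => h j hj fun h' => his (h' ▸ hj)

/-- The order of `p(x)` in terms of the roots of `p`. -/
theorem ordF_aeval [IsAlgClosed F] {p : k[X]} {x : F} (hx : x ∈ K)
    (hp : ∀ s ∈ rootsIn F p, s ∈ K) (hx0 : aeval x p ≠ 0) :
    ordF w (aeval x p) = ordF w (algebraMap k F p.leadingCoeff) +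
      ∑ s ∈ rootsIn F p, (p.map (algebraMap k F)).rootMultiplicity s • ordF w (x - s) := by
  have hp0 : p ≠ 0 := by
    rintro rfl
    simp at hx0
  have hsp : Splits (p.map (algebraMap k F)) := IsAlgClosed.splits _
  have heval := hsp.eval_eq_prod_roots x
  rw [eval_map_algebraMap] at heval
  have hne : ∀ s ∈ (p.map (algebraMap k F)).roots, x - s ≠ 0 := by
    intro s hs h0
    apply hx0
    rw [sub_eq_zero] at h0
    rw [heval, h0, Multiset.prod_eq_zero (Multiset.mem_map.2 ⟨s, hs, sub_self s⟩), mul_zero]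
  have hl0 : algebraMap k F p.leadingCoeff ≠ 0 :=
    (_root_.map_ne_zero _).2 (leadingCoeff_ne_zero.2 hp0)
  rw [heval, leadingCoeff_map, ordF_mul w (K.algebraMap_mem _)
    (multiset_prod_mem _ fun y hy => ?_) hl0 (Multiset.prod_ne_zero fun h0 => ?_),
    ordF_multiset_prod w _ (fun y hy => ?_) (fun y hy => ?_)]
  · rw [Multiset.map_map, Finset.sum_multiset_map_count]
    congr 1
    refine Finset.sum_congr rfl fun s _ => ?_
    rw [count_roots, Function.comp]
  · obtain ⟨s, hs, rfl⟩ := Multiset.mem_map.1 hy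
    exact K.sub_mem hx (hp s (Multiset.mem_toFinset.2 hs))
  · obtain ⟨s, hs, rfl⟩ := Multiset.mem_map.1 hy
    exact hne s hs
  · obtain ⟨s, hs, rfl⟩ := Multiset.mem_map.1 hy
    exact K.sub_mem hx (hp s (Multiset.mem_toFinset.2 hs))
  · obtain ⟨s, hs, hs0⟩ := Multiset.mem_map.1 h0
    exact hne s hs hs0

/-- Parity of the order of `p(x)` when no difference between `x` and a root of `p` has odd
order. -/
theorem even_ordF_aeval [IsAlgClosed F] {p : k[X]} {x : F} (hx : x ∈ K)
    (hp : ∀ s ∈ rootsIn F p, s ∈ K) (hx0 : aeval x p ≠ 0)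
    (hlead : Even (ordF w (algebraMap k F p.leadingCoeff)))
    (h : ∀ s ∈ rootsIn F p, Even (ordF w (x - s))) : Even (ordF w (aeval x p)) := by
  rw [ordF_aeval w hx hp hx0]
  exact hlead.add (Finset.even_sum _ fun s hs => (h s hs).nsmul_right _)

/-- Parity of the order of `p(x)` when exactly one difference between `x` and a root of `p` has
odd order. -/
theorem odd_ordF_aeval [IsAlgClosed F] {p : k[X]} {x y : F} (hx : x ∈ K)
    (hp : ∀ s ∈ rootsIn F p, s ∈ K) (hx0 : aeval x p ≠ 0)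
    (hlead : Even (ordF w (algebraMap k F p.leadingCoeff)))
    (hy : y ∈ rootsIn F p) (hmult : Odd ((p.map (algebraMap k F)).rootMultiplicity y))
    (hxy : Odd (ordF w (x - y)))
    (h : ∀ s ∈ rootsIn F p, s ≠ y → Even (ordF w (x - s))) : Odd (ordF w (aeval x p)) := by
  rw [ordF_aeval w hx hp hx0, ← Int.not_even_iff_odd]
  intro h1
  have h2 := even_sum_add_ite (rootsIn F p)
    (fun s => (p.map (algebraMap k F)).rootMultiplicity s • ordF w (x - s)) y ?_
    (fun j hj hjy => (h j hj hjy).nsmul_right _)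
  · rw [if_pos hy] at h2
    obtain ⟨u, hu⟩ := h1
    obtain ⟨v, hv⟩ := h2
    obtain ⟨l, hl⟩ := hlead
    omega
  · show Odd ((p.map (algebraMap k F)).rootMultiplicity y • ordF w (x - y))
    rw [nsmul_eq_mul]
    exact ((Int.odd_coe_nat _).2 hmult).mul hxy

theorem ordF_diffProd {S T U : Finset F} {e x : F} (hx : x ∈ K) (hT : ∀ s ∈ T, s ∈ K ∧ x ≠ s)
    (hU : ∀ s ∈ U, s ∈ K ∧ x ≠ s) (he : e ∈ K) (he0 : e ≠ 0) :
    ordF w (diffProd S T U e x) = ∑ s ∈ T, ordF w (x - s) + ∑ s ∈ U, ordF w (x - s) +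
      if x ∈ S then ordF w e else 0 := by
  have hT1 : ∏ s ∈ T, (x - s) ∈ K := K.prod_mem fun s hs => K.sub_mem hx (hT s hs).1
  have hU1 : ∏ s ∈ U, (x - s) ∈ K := K.prod_mem fun s hs => K.sub_mem hx (hU s hs).1
  have hT0 : ∏ s ∈ T, (x - s) ≠ 0 :=
    Finset.prod_ne_zero_iff.2 fun s hs => sub_ne_zero.2 (hT s hs).2
  have hU0 : ∏ s ∈ U, (x - s) ≠ 0 :=
    Finset.prod_ne_zero_iff.2 fun s hs => sub_ne_zero.2 (hU s hs).2
  have h1 : (if x ∈ S then e else 1) ∈ K := by
    split_ifs
    · exact he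
    · exact K.one_mem
  have h0 : (if x ∈ S then e else 1) ≠ 0 := by
    split_ifs
    · exact he0
    · exact one_ne_zero
  rw [diffProd, ordF_mul w (K.mul_mem hT1 hU1) h1 (mul_ne_zero hT0 hU0) h0,
    ordF_mul w hT1 hU1 hT0 hU0,
    ordF_prod w _ _ (fun s hs => K.sub_mem hx (hT s hs).1)
      (fun s hs => sub_ne_zero.2 (hT s hs).2),
    ordF_prod w _ _ (fun s hs => K.sub_mem hx (hU s hs).1)
      (fun s hs => sub_ne_zero.2 (hU s hs).2)]
  split_ifs
  · rfl
  · rw [ordF_one]

/-- The parity condition at the root `x` of the triple. -/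
theorem parity_at {S T U : Finset F} {e x y z v : F} (hx : x ∈ K) (hT : ∀ s ∈ T, s ∈ K ∧ x ≠ s)
    (hU : ∀ s ∈ U, s ∈ K ∧ x ≠ s) (he : e ∈ K) (he0 : e ≠ 0) (hv : v ∈ K)
    (hsq : v ^ 2 = diffProd S T U e x) (hxy : Odd (ordF w (x - y))) (hxz : Odd (ordF w (x - z)))
    (hT1 : ∀ s ∈ T, s ≠ y → Even (ordF w (x - s)))
    (hU1 : ∀ s ∈ U, s ≠ z → Even (ordF w (x - s))) :
    Even ((if y ∈ T then 1 else 0) + (if z ∈ U then 1 else 0) +
      if x ∈ S then ordF w e else 0) := by
  have h0 := even_ordF_of_sq w hv hsq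
  rw [ordF_diffProd w hx hT hU he he0] at h0
  have h1 := even_sum_add_ite T (fun s => ordF w (x - s)) y hxy hT1
  have h2 := even_sum_add_ite U (fun s => ordF w (x - s)) z hxz hU1
  obtain ⟨i, hi⟩ := h0
  obtain ⟨j, hj⟩ := h1
  obtain ⟨l, hl⟩ := h2
  exact ⟨i + j + l - ∑ s ∈ T, ordF w (x - s) - ∑ s ∈ U, ordF w (x - s), by linarith⟩

/-- The parity condition at a root which is not in the triple. -/
theorem parity_other {S T U : Finset F} {e x v : F} (hx : x ∈ K) (hT : ∀ s ∈ T, s ∈ K ∧ x ≠ s)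
    (hU : ∀ s ∈ U, s ∈ K ∧ x ≠ s) (he : e ∈ K) (he0 : e ≠ 0) (hv : v ∈ K)
    (hsq : v ^ 2 = diffProd S T U e x)
    (hT1 : ∀ s ∈ T, Even (ordF w (x - s)))
    (hU1 : ∀ s ∈ U, Even (ordF w (x - s))) (hxS : x ∈ S) :
    Even (ordF w e) := by
  have h0 := even_ordF_of_sq w hv hsq
  rw [ordF_diffProd w hx hT hU he he0, if_pos hxS] at h0
  have h1 : Even (∑ s ∈ T, ordF w (x - s)) := Finset.even_sum _ hT1
  have h2 : Even (∑ s ∈ U, ordF w (x - s)) := Finset.even_sum _ hU1
  obtain ⟨i, hi⟩ := h0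
  obtain ⟨j, hj⟩ := h1
  obtain ⟨l, hl⟩ := h2
  exact ⟨i - j - l, by linarith⟩

/-- The valuation `w` separates the roots `x`, `y`, `z` of `a`, `b`, `a - b` from the other
roots: the differences of roots of two different polynomials among `a`, `b`, `a - b` have odd
order exactly when both roots are in the triple. -/
structure IsTripleValuation (a b : k[X]) (x y z : F) : Prop where
  xy : Odd (ordF w (x - y))
  xz : Odd (ordF w (x - z))
  yz : Odd (ordF w (y - z))
  ab : ∀ s ∈ rootsIn F a, ∀ t ∈ rootsIn F b, s ≠ x ∨ t ≠ y → Even (ordF w (s - t))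
  ac : ∀ s ∈ rootsIn F a, ∀ t ∈ rootsIn F (a - b), s ≠ x ∨ t ≠ z → Even (ordF w (s - t))
  bc : ∀ s ∈ rootsIn F b, ∀ t ∈ rootsIn F (a - b), s ≠ y ∨ t ≠ z → Even (ordF w (s - t))
  lead_a : Even (ordF w (algebraMap k F a.leadingCoeff))
  lead_b : Even (ordF w (algebraMap k F b.leadingCoeff))

end Order

section Main

variable {k F : Type*} [Field k] [Field F] [Algebra k F]

theorem mem_rootsIn {p : k[X]} {x : F} (hp : p ≠ 0) : x ∈ rootsIn F p ↔ aeval x p = 0 := by
  rw [rootsIn, Multiset.mem_toFinset, mem_roots (map_ne_zero hp), IsRoot.def,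
    eval_map_algebraMap]

theorem aeval_of_mem_rootsIn {p : k[X]} {x : F} (hx : x ∈ rootsIn F p) : aeval x p = 0 := by
  rw [rootsIn, Multiset.mem_toFinset] at hx
  have := (mem_roots'.1 hx).2
  rwa [IsRoot.def, eval_map_algebraMap] at this

theorem mem_rootField_of_mem {a b : k[X]} {x : F}
    (hx : x ∈ rootsIn F a ∨ x ∈ rootsIn F b ∨ x ∈ rootsIn F (a - b)) : x ∈ rootField F a b := by
  apply IntermediateField.subset_adjoin
  simp only [Finset.coe_union, Set.mem_union, Finset.mem_coe]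
  tauto

theorem aeval_ne_zero_of_coprime {a b : k[X]} (hab : IsCoprime a b) {x : F}
    (hx : aeval x a = 0) : aeval x b ≠ 0 := by
  intro hb
  obtain ⟨u, v, huv⟩ := hab
  have := congrArg (aeval x) huv
  simp [hx, hb] at this

/-- The parities of the eigentriple at a valuation attached to a triple of roots. -/
theorem IsEigentriple.tripleParity [IsAlgClosed F] {a b : k[X]} (hab : IsCoprime a b)
    (hmA : ∀ x ∈ rootsIn F a, Odd ((a.map (algebraMap k F)).rootMultiplicity x))
    (hmB : ∀ x ∈ rootsIn F b, Odd ((b.map (algebraMap k F)).rootMultiplicity x))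
    {S T U : Finset F} (h : IsEigentriple a b S T U) :
    ∃ e : Valuation (rootField F a b) ℤᵐ⁰ → ℤ, ∀ x ∈ rootsIn F a, ∀ y ∈ rootsIn F b,
      ∀ z ∈ rootsIn F (a - b), ∀ w, IsTripleValuation w a b x y z →
      TripleParity S T U x y z (e w) := by
  obtain ⟨δ, hδ, hδ0, ha, hb, hc⟩ := h.squares
  have hKa : ∀ s ∈ rootsIn F a, s ∈ rootField F a b := fun s hs =>
    mem_rootField_of_mem (Or.inl hs)
  have hKb : ∀ s ∈ rootsIn F b, s ∈ rootField F a b := fun s hs =>
    mem_rootField_of_mem (Or.inr (Or.inl hs))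
  have hKc : ∀ s ∈ rootsIn F (a - b), s ∈ rootField F a b := fun s hs =>
    mem_rootField_of_mem (Or.inr (Or.inr hs))
  have hba : ∀ x ∈ rootsIn F a, aeval x b ≠ 0 := fun x hx =>
    aeval_ne_zero_of_coprime hab (aeval_of_mem_rootsIn hx)
  have hab' : ∀ x ∈ rootsIn F b, aeval x a ≠ 0 := fun x hx =>
    aeval_ne_zero_of_coprime hab.symm (aeval_of_mem_rootsIn hx)
  have hcop : IsCoprime (a - b) a := by
    obtain ⟨u, v, huv⟩ := hab
    exact ⟨-v, u + v, by linear_combination huv⟩
  have hca : ∀ x ∈ rootsIn F (a - b), aeval x a ≠ 0 := fun x hx =>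
    aeval_ne_zero_of_coprime hcop (aeval_of_mem_rootsIn hx)
  have hneab : ∀ x ∈ rootsIn F a, ∀ y ∈ rootsIn F b, x ≠ y := by
    rintro x hx y hy rfl
    exact hba x hx (aeval_of_mem_rootsIn hy)
  have hneac : ∀ x ∈ rootsIn F a, ∀ y ∈ rootsIn F (a - b), x ≠ y := by
    rintro x hx y hy rfl
    exact hca x hy (aeval_of_mem_rootsIn hx)
  have hnebc : ∀ x ∈ rootsIn F b, ∀ y ∈ rootsIn F (a - b), x ≠ y := by
    rintro x hx y hy rfl
    have h1 := aeval_of_mem_rootsIn hx
    have h2 := aeval_of_mem_rootsIn hy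
    rw [map_sub, h1, sub_zero] at h2
    exact hab' x hx h2
  have hval : ∀ p : k[X], ∀ x ∈ rootField F a b, aeval x p ∈ rootField F a b := by
    intro p x hx
    rw [show x = ((⟨x, hx⟩ : rootField F a b) : F) from rfl, IntermediateField.aeval_coe]
    exact SetLike.coe_mem _
  refine ⟨fun w => ordF w δ, fun x hx y hy z hz w hw => ?_⟩
  change TripleParity S T U x y z (ordF w δ)
  have hA' : ∀ s ∈ rootsIn F a, ordF w (-(aeval s b) * δ) = ordF w (aeval s b) + ordF w δ := by
    intro s hs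
    rw [neg_mul, ordF_neg, ordF_mul w (hval b s (hKa s hs)) hδ (hba s hs) hδ0]
  have hB' : ∀ s ∈ rootsIn F b, ordF w (-(aeval s a) * δ) = ordF w (aeval s a) + ordF w δ := by
    intro s hs
    rw [neg_mul, ordF_neg, ordF_mul w (hval a s (hKb s hs)) hδ (hab' s hs) hδ0]
  have hC' : ∀ s ∈ rootsIn F (a - b),
      ordF w (aeval s a * δ) = ordF w (aeval s a) + ordF w δ := by
    intro s hs
    rw [ordF_mul w (hval a s (hKc s hs)) hδ (hca s hs) hδ0]
  have hAe : ∀ s ∈ rootsIn F a, -(aeval s b) * δ ∈ rootField F a b ∧ -(aeval s b) * δ ≠ 0 :=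
    fun s hs => ⟨(rootField F a b).mul_mem ((rootField F a b).neg_mem (hval b s (hKa s hs))) hδ,
      mul_ne_zero (neg_ne_zero.2 (hba s hs)) hδ0⟩
  have hBe : ∀ s ∈ rootsIn F b, -(aeval s a) * δ ∈ rootField F a b ∧ -(aeval s a) * δ ≠ 0 :=
    fun s hs => ⟨(rootField F a b).mul_mem ((rootField F a b).neg_mem (hval a s (hKb s hs))) hδ,
      mul_ne_zero (neg_ne_zero.2 (hab' s hs)) hδ0⟩
  have hCe : ∀ s ∈ rootsIn F (a - b), aeval s a * δ ∈ rootField F a b ∧ aeval s a * δ ≠ 0 :=
    fun s hs => ⟨(rootField F a b).mul_mem (hval a s (hKc s hs)) hδ,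
      mul_ne_zero (hca s hs) hδ0⟩
  have hTA : ∀ s ∈ rootsIn F a, ∀ t ∈ T, t ∈ rootField F a b ∧ s ≠ t := fun s hs t ht =>
    ⟨hKb t (h.sub_b ht), hneab s hs t (h.sub_b ht)⟩
  have hUA : ∀ s ∈ rootsIn F a, ∀ t ∈ U, t ∈ rootField F a b ∧ s ≠ t := fun s hs t ht =>
    ⟨hKc t (h.sub_c ht), hneac s hs t (h.sub_c ht)⟩
  have hSB : ∀ s ∈ rootsIn F b, ∀ t ∈ S, t ∈ rootField F a b ∧ s ≠ t := fun s hs t ht =>
    ⟨hKa t (h.sub_a ht), (hneab t (h.sub_a ht) s hs).symm⟩
  have hUB : ∀ s ∈ rootsIn F b, ∀ t ∈ U, t ∈ rootField F a b ∧ s ≠ t := fun s hs t ht =>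
    ⟨hKc t (h.sub_c ht), hnebc s hs t (h.sub_c ht)⟩
  have hSC : ∀ s ∈ rootsIn F (a - b), ∀ t ∈ S, t ∈ rootField F a b ∧ s ≠ t := fun s hs t ht =>
    ⟨hKa t (h.sub_a ht), (hneac t (h.sub_a ht) s hs).symm⟩
  have hTC : ∀ s ∈ rootsIn F (a - b), ∀ t ∈ T, t ∈ rootField F a b ∧ s ≠ t := fun s hs t ht =>
    ⟨hKb t (h.sub_b ht), (hnebc t (h.sub_b ht) s hs).symm⟩
  -- parities of the differences
  have pab : ∀ s ∈ rootsIn F a, ∀ t ∈ T, s ≠ x ∨ t ≠ y → Even (ordF w (s - t)) :=
    fun s hs t ht => hw.ab s hs t (h.sub_b ht)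
  have pac : ∀ s ∈ rootsIn F a, ∀ t ∈ U, s ≠ x ∨ t ≠ z → Even (ordF w (s - t)) :=
    fun s hs t ht => hw.ac s hs t (h.sub_c ht)
  have pba : ∀ s ∈ rootsIn F b, ∀ t ∈ S, t ≠ x ∨ s ≠ y → Even (ordF w (s - t)) :=
    fun s hs t ht h' => by
      rw [ordF_sub_comm]
      exact hw.ab t (h.sub_a ht) s hs h'
  have pbc : ∀ s ∈ rootsIn F b, ∀ t ∈ U, s ≠ y ∨ t ≠ z → Even (ordF w (s - t)) :=
    fun s hs t ht => hw.bc s hs t (h.sub_c ht)
  have pca : ∀ s ∈ rootsIn F (a - b), ∀ t ∈ S, t ≠ x ∨ s ≠ z → Even (ordF w (s - t)) :=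
    fun s hs t ht h' => by
      rw [ordF_sub_comm]
      exact hw.ac t (h.sub_a ht) s hs h'
  have pcb : ∀ s ∈ rootsIn F (a - b), ∀ t ∈ T, t ≠ y ∨ s ≠ z → Even (ordF w (s - t)) :=
    fun s hs t ht h' => by
      rw [ordF_sub_comm]
      exact hw.bc t (h.sub_b ht) s hs h'
  -- parities of the values
  have vx : Odd (ordF w (aeval x b)) :=
    odd_ordF_aeval w (hKa x hx) hKb (hba x hx) hw.lead_b hy (hmB y hy) hw.xy
      fun s hs hne => hw.ab x hx s hs (Or.inr hne)
  have vy : Odd (ordF w (aeval y a)) :=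
    odd_ordF_aeval w (hKb y hy) hKa (hab' y hy) hw.lead_a hx (hmA x hx)
      (by rw [ordF_sub_comm]; exact hw.xy)
      fun s hs hne => by rw [ordF_sub_comm]; exact hw.ab s hs y hy (Or.inl hne)
  have vz : Odd (ordF w (aeval z a)) :=
    odd_ordF_aeval w (hKc z hz) hKa (hca z hz) hw.lead_a hx (hmA x hx)
      (by rw [ordF_sub_comm]; exact hw.xz)
      fun s hs hne => by rw [ordF_sub_comm]; exact hw.ac s hs z hz (Or.inl hne)
  have vA : ∀ s ∈ rootsIn F a, s ≠ x → Even (ordF w (aeval s b)) := fun s hs hne =>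
    even_ordF_aeval w (hKa s hs) hKb (hba s hs) hw.lead_b
      fun t ht => hw.ab s hs t ht (Or.inl hne)
  have vB : ∀ s ∈ rootsIn F b, s ≠ y → Even (ordF w (aeval s a)) := fun s hs hne =>
    even_ordF_aeval w (hKb s hs) hKa (hab' s hs) hw.lead_a
      fun t ht => by rw [ordF_sub_comm]; exact hw.ab t ht s hs (Or.inr hne)
  have vC : ∀ s ∈ rootsIn F (a - b), s ≠ z → Even (ordF w (aeval s a)) := fun s hs hne =>
    even_ordF_aeval w (hKc s hs) hKa (hca s hs) hw.lead_a
      fun t ht => by rw [ordF_sub_comm]; exact hw.ac t ht s hs (Or.inr hne)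
  refine ⟨?_, ?_, ?_, ?_, ?_, ?_⟩
  · obtain ⟨v, hv, hsq⟩ := ha x hx
    have h1 := parity_at w (hKa x hx) (hTA x hx) (hUA x hx) (hAe x hx).1 (hAe x hx).2 hv hsq
      hw.xy hw.xz (fun t ht hne => pab x hx t ht (Or.inr hne))
      fun t ht hne => pac x hx t ht (Or.inr hne)
    rw [hA' x hx] at h1
    obtain ⟨i, hi⟩ := vx
    split_ifs at h1 ⊢ <;> (obtain ⟨l, hl⟩ := h1) <;>
      first
      | exact ⟨l, by omega⟩
      | exact ⟨l - i, by omega⟩
  · obtain ⟨v, hv, hsq⟩ := hb y hy
    have h1 := parity_at w (hKb y hy) (hSB y hy) (hUB y hy) (hBe y hy).1 (hBe y hy).2 hv hsq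
      (by rw [ordF_sub_comm]; exact hw.xy) hw.yz
      (fun t ht hne => pba y hy t ht (Or.inl hne))
      fun t ht hne => pbc y hy t ht (Or.inr hne)
    rw [hB' y hy] at h1
    obtain ⟨i, hi⟩ := vy
    split_ifs at h1 ⊢ <;> (obtain ⟨l, hl⟩ := h1) <;>
      first
      | exact ⟨l, by omega⟩
      | exact ⟨l - i, by omega⟩
  · obtain ⟨v, hv, hsq⟩ := hc z hz
    have h1 := parity_at w (hKc z hz) (hSC z hz) (hTC z hz) (hCe z hz).1 (hCe z hz).2 hv hsq
      (by rw [ordF_sub_comm]; exact hw.xz) (by rw [ordF_sub_comm]; exact hw.yz)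
      (fun t ht hne => pca z hz t ht (Or.inl hne))
      fun t ht hne => pcb z hz t ht (Or.inl hne)
    rw [hC' z hz] at h1
    obtain ⟨i, hi⟩ := vz
    split_ifs at h1 ⊢ <;> (obtain ⟨l, hl⟩ := h1) <;>
      first
      | exact ⟨l, by omega⟩
      | exact ⟨l - i, by omega⟩
  · intro s hs hne
    obtain ⟨v, hv, hsq⟩ := ha s (h.sub_a hs)
    have h1 := parity_other w (hKa s (h.sub_a hs)) (hTA s (h.sub_a hs)) (hUA s (h.sub_a hs))
      (hAe s (h.sub_a hs)).1 (hAe s (h.sub_a hs)).2 hv hsq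
      (fun t ht => pab s (h.sub_a hs) t ht (Or.inl hne))
      (fun t ht => pac s (h.sub_a hs) t ht (Or.inl hne)) hs
    rw [hA' s (h.sub_a hs)] at h1
    exact (Int.even_add.1 h1).1 (vA s (h.sub_a hs) hne)
  · intro s hs hne
    obtain ⟨v, hv, hsq⟩ := hb s (h.sub_b hs)
    have h1 := parity_other w (hKb s (h.sub_b hs)) (hSB s (h.sub_b hs)) (hUB s (h.sub_b hs))
      (hBe s (h.sub_b hs)).1 (hBe s (h.sub_b hs)).2 hv hsq
      (fun t ht => pba s (h.sub_b hs) t ht (Or.inr hne))
      (fun t ht => pbc s (h.sub_b hs) t ht (Or.inl hne)) hs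
    rw [hB' s (h.sub_b hs)] at h1
    exact (Int.even_add.1 h1).1 (vB s (h.sub_b hs) hne)
  · intro s hs hne
    obtain ⟨v, hv, hsq⟩ := hc s (h.sub_c hs)
    have h1 := parity_other w (hKc s (h.sub_c hs)) (hSC s (h.sub_c hs)) (hTC s (h.sub_c hs))
      (hCe s (h.sub_c hs)).1 (hCe s (h.sub_c hs)).2 hv hsq
      (fun t ht => pca s (h.sub_c hs) t ht (Or.inr hne))
      (fun t ht => pcb s (h.sub_c hs) t ht (Or.inr hne)) hs
    rw [hC' s (h.sub_c hs)] at h1
    exact (Int.even_add.1 h1).1 (vC s (h.sub_c hs) hne)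

end Main

section Unramified

variable (R : Type*) {k L : Type*} [CommRing R] [Field k] [Algebra R k] [Field L] [Algebra k L]
  [Algebra R L]

/-- `x` is a root of a polynomial over `R` with unit leading coefficient and unit
discriminant. -/
def IsUnramifiedElement (x : L) : Prop :=
  ∃ f : R[X], IsUnit f.leadingCoeff ∧ f.Separable ∧ aeval x f = 0

variable {R}

theorem IsUnramifiedElement.isIntegral {x : L} (h : IsUnramifiedElement R x) : IsIntegral R x := by
  obtain ⟨f, hf, -, hx⟩ := h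
  obtain ⟨u, hu⟩ := hf
  refine ⟨C (↑u⁻¹ : R) * f, ?_, ?_⟩
  · apply monic_C_mul_of_mul_leadingCoeff_eq_one
    rw [← hu, Units.inv_mul]
  · rw [← aeval_def, map_mul, hx, mul_zero]

theorem formallyUnramified_adjoin (Θ : Set L) (h : ∀ x ∈ Θ, IsUnramifiedElement R x) :
    Algebra.FormallyUnramified R (Algebra.adjoin R Θ) := by
  constructor
  have hD : KaehlerDifferential.D R (Algebra.adjoin R Θ) = 0 := by
    refine Derivation.ext_of_adjoin_eq_top _ Algebra.adjoin_adjoin_coe_preimage ?_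
    intro x hx
    obtain ⟨f, -, hsep, hfx⟩ := h _ hx
    obtain ⟨u, v, huv⟩ := hsep
    have hfx' : aeval x f = 0 := by
      have h1 : ((aeval x f : Algebra.adjoin R Θ) : L) = aeval (x : L) f := by
        rw [Subalgebra.aeval_coe]
      exact Subtype.ext (h1.trans hfx)
    have h2 := congrArg (aeval x) huv
    rw [map_add, map_mul, map_mul, hfx', mul_zero, zero_add, map_one] at h2
    have h3 := (KaehlerDifferential.D R (Algebra.adjoin R Θ)).map_aeval f x
    rw [hfx', map_zero] at h3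
    show KaehlerDifferential.D R (Algebra.adjoin R Θ) x = 0
    rw [← one_smul (Algebra.adjoin R Θ) (KaehlerDifferential.D R (Algebra.adjoin R Θ) x), ← h2,
      mul_smul, ← h3, smul_zero]
  have h1 := KaehlerDifferential.span_range_derivation R (Algebra.adjoin R Θ)
  rw [hD] at h1
  have h2 : (⊤ : Submodule (Algebra.adjoin R Θ) (Ω[Algebra.adjoin R Θ⁄R])) = ⊥ := by
    rw [← h1, Submodule.span_eq_bot]
    rintro _ ⟨x, rfl⟩
    rfl
  refine ⟨fun x y => ?_⟩
  have hx : x ∈ (⊤ : Submodule (Algebra.adjoin R Θ) (Ω[Algebra.adjoin R Θ⁄R])) := trivial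
  have hy : y ∈ (⊤ : Submodule (Algebra.adjoin R Θ) (Ω[Algebra.adjoin R Θ⁄R])) := trivial
  rw [h2, Submodule.mem_bot] at hx hy
  rw [hx, hy]

variable [IsDomain R] [IsFractionRing R k] [IsScalarTower R k L]

theorem isFractionRing_adjoin (k : Type*) [Field k] [Algebra R k] [Algebra k L]
    [IsFractionRing R k] [IsScalarTower R k L] (Θ : Set L) (hgen : Algebra.adjoin k Θ = ⊤) :
    IsFractionRing (Algebra.adjoin R Θ) L := by
  refine IsFractionRing.of_field _ _ fun z => ?_
  have hz : z ∈ Algebra.adjoin k Θ := hgen ▸ trivial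
  have hinj : Function.Injective (algebraMap R L) := by
    rw [IsScalarTower.algebraMap_eq R k L]
    exact (algebraMap k L).injective.comp (IsFractionRing.injective R k)
  have key : ∃ x : Algebra.adjoin R Θ, ∃ r : R, r ≠ 0 ∧ z * algebraMap R L r = x := by
    induction hz using Algebra.adjoin_induction with
    | mem x hx => exact ⟨⟨x, Algebra.subset_adjoin hx⟩, 1, one_ne_zero, by simp⟩
    | algebraMap c =>
      obtain ⟨p, q, hq, rfl⟩ := IsFractionRing.div_surjective (A := R) c
      have hq0 : q ≠ 0 := nonZeroDivisors.ne_zero hq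
      refine ⟨algebraMap R _ p, q, hq0, ?_⟩
      have h1 : algebraMap R k q ≠ 0 := fun h =>
        hq0 (IsFractionRing.injective R k (by rw [h, map_zero]))
      rw [IsScalarTower.algebraMap_apply R k L q, ← map_mul, div_mul_cancel₀ _ h1,
        ← IsScalarTower.algebraMap_apply]
      rfl
    | add x y _ _ hx hy =>
      obtain ⟨x', r, hr, hx'⟩ := hx
      obtain ⟨y', s, hs, hy'⟩ := hy
      refine ⟨x' * algebraMap R _ s + y' * algebraMap R _ r, r * s, mul_ne_zero hr hs, ?_⟩
      simp only [Subalgebra.coe_add, Subalgebra.coe_mul, Subalgebra.coe_algebraMap, ← hx', ← hy',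
        map_mul]
      ring
    | mul x y _ _ hx hy =>
      obtain ⟨x', r, hr, hx'⟩ := hx
      obtain ⟨y', s, hs, hy'⟩ := hy
      refine ⟨x' * y', r * s, mul_ne_zero hr hs, ?_⟩
      simp only [Subalgebra.coe_mul, ← hx', ← hy', map_mul]
      ring
  obtain ⟨x, r, hr, hx⟩ := key
  refine ⟨x, algebraMap R _ r, ?_⟩
  have hr' : algebraMap R L r ≠ 0 := fun h => hr (hinj (by rw [h, map_zero]))
  show z = (x : L) / algebraMap (Algebra.adjoin R Θ) L (algebraMap R _ r)
  rw [← hx, ← IsScalarTower.algebraMap_apply R (Algebra.adjoin R Θ) L, mul_div_cancel_right₀ _ hr']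

end Unramified

section Valuation

variable {R : Type*} (k : Type*) {L : Type*} [CommRing R] [IsDomain R]
  [IsDiscreteValuationRing R] [Field k] [Algebra R k] [IsFractionRing R k] [Field L]
  [Algebra k L] [Algebra R L] [IsScalarTower R k L]

/-- A discrete valuation extends, with the same uniformizers, to a field generated by finitely
many roots of polynomials with unit discriminants. -/
theorem exists_unramified_valuation (Θ : Set L) (hfin : Θ.Finite)
    (h : ∀ x ∈ Θ, IsUnramifiedElement R x) (hgen : Algebra.adjoin k Θ = ⊤) :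
    ∃ w : Valuation L ℤᵐ⁰, (∀ x ∈ Θ, w x ≤ 1) ∧ (∀ r : R, w (algebraMap R L r) ≤ 1) ∧
      ∀ p : R, Irreducible p → w (algebraMap R L p) = WithZero.exp (-1) := by
  have hinj : Function.Injective (algebraMap R L) := by
    rw [IsScalarTower.algebraMap_eq R k L]
    exact (algebraMap k L).injective.comp (IsFractionRing.injective R k)
  have h1 : Module.Finite R (Algebra.adjoin R Θ) :=
    Module.Finite.iff_fg.2 (fg_adjoin_of_finite hfin fun x hx => (h x hx).isIntegral)
  have h2 : Algebra.FormallyUnramified R (Algebra.adjoin R Θ) := formallyUnramified_adjoin Θ h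
  have h3 : IsDedekindDomain (Algebra.adjoin R Θ) := isDedekindDomain.of_formallyUnramified R _
  have h4 : IsFractionRing (Algebra.adjoin R Θ) L := isFractionRing_adjoin k Θ hgen
  have h5 : FaithfulSMul R (Algebra.adjoin R Θ) := by
    rw [faithfulSMul_iff_algebraMap_injective]
    intro x y hxy
    exact hinj (congrArg Subtype.val hxy)
  have h5' : Module.IsTorsionFree R (Algebra.adjoin R Θ) := inferInstance
  let v : HeightOneSpectrum R := IsDiscreteValuationRing.maximalIdeal R
  have hvmax : v.asIdeal.IsMaximal := v.isMaximal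
  obtain ⟨P, hPmax, hPv⟩ := Ideal.exists_maximal_ideal_liesOver_of_isIntegral
    (S := Algebra.adjoin R Θ) v.asIdeal
  have hP0 : P ≠ ⊥ := Ideal.ne_bot_of_liesOver_of_ne_bot v.ne_bot P
  let w : HeightOneSpectrum (Algebra.adjoin R Θ) := ⟨P, hPmax.isPrime, hP0⟩
  have hwv : w.asIdeal.LiesOver v.asIdeal := hPv
  have h6 : v.asIdeal.ramificationIdx' w.asIdeal = 1 := by
    have hle : v.asIdeal.map (algebraMap R (Algebra.adjoin R Θ)) ≤ w.asIdeal :=
      Ideal.map_le_iff_le_comap.2 (le_of_eq ((Ideal.liesOver_iff _ _).1 hwv))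
    rw [Ideal.IsDedekindDomain.ramificationIdx'_eq_one_iff w.ne_bot hle]
    let := Localization.AtPrime.algebraOfLiesOver v.asIdeal w.asIdeal
    exact ((Algebra.isUnramifiedAt_iff_map_eq R v.asIdeal w.asIdeal).1 inferInstance).2
  refine ⟨w.valuation L, fun x hx => ?_, fun r => ?_, fun p hp => ?_⟩
  · exact w.valuation_le_one (⟨x, Algebra.subset_adjoin hx⟩ : Algebra.adjoin R Θ)
  · rw [IsScalarTower.algebraMap_apply R (Algebra.adjoin R Θ) L]
    exact w.valuation_le_one _
  · have h7 := HeightOneSpectrum.valuation_liesOver L v w (algebraMap R k p)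
    rw [h6, pow_one, ← IsScalarTower.algebraMap_apply] at h7
    rw [← h7]
    have h8 : v.asIdeal = Ideal.span {p} := hp.maximalIdeal_eq
    exact (HeightOneSpectrum.valuation_of_algebraMap v p).trans
      (v.intValuation_singleton hp.ne_zero h8)

end Valuation

section Sums

/-- If non-positive integers have sum `-1`, one of them is `-1` and the others vanish. -/
theorem exists_of_sum_eq_neg_one {ι : Type*} (s : Finset ι) (f : ι → ℤ) (hf : ∀ i ∈ s, f i ≤ 0)
    (h : ∑ i ∈ s, f i = -1) : ∃ i ∈ s, f i = -1 ∧ ∀ j ∈ s, j ≠ i → f j = 0 := by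
  have h1 : ∃ i ∈ s, f i < 0 := by
    by_contra! hcon
    have : 0 ≤ ∑ i ∈ s, f i := Finset.sum_nonneg hcon
    omega
  obtain ⟨i, hi, hi0⟩ := h1
  have h2 : ∀ j ∈ s.erase i, f j ≤ 0 := fun j hj => hf j (Finset.mem_of_mem_erase hj)
  have h3 := Finset.add_sum_erase s f hi
  have h4 := Finset.sum_nonpos h2
  refine ⟨i, hi, by omega, fun j hj hji => ?_⟩
  exact (Finset.sum_eq_zero_iff_of_nonpos h2).1 (by omega) j (Finset.mem_erase.2 ⟨hji, hj⟩)

end Sums

section Ord

variable {k F : Type*} [Field k] [Field F] [Algebra k F] {K : IntermediateField k F}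
  (w : Valuation K ℤᵐ⁰)

theorem ordF_nonpos {x : F} (h : ∀ h : x ∈ K, w ⟨x, h⟩ ≤ 1) : ordF w x ≤ 0 := by
  by_cases hx : x ∈ K
  · rw [ordF_of_mem w hx]
    by_cases h0 : w ⟨x, hx⟩ = 0
    · rw [h0, WithZero.log_zero]
    · rw [WithZero.log_le_iff_le_exp h0, WithZero.exp_zero]
      exact h hx
  · rw [ordF, dif_neg hx]

theorem val_le_one_of_ordF_nonpos {x : F} (hx : x ∈ K) (h : ordF w x ≤ 0) : w ⟨x, hx⟩ ≤ 1 := by
  rw [ordF_of_mem w hx] at h
  by_cases h0 : w ⟨x, hx⟩ = 0
  · rw [h0]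
    exact zero_le_one
  · rwa [WithZero.log_le_iff_le_exp h0, WithZero.exp_zero] at h

theorem ordF_add_le {x y : F} (hx : x ∈ K) (hy : y ∈ K) (hxy : x + y ≠ 0) {m : ℤ}
    (h1 : x = 0 ∨ ordF w x ≤ m) (h2 : y = 0 ∨ ordF w y ≤ m) : ordF w (x + y) ≤ m := by
  have aux : ∀ {u : F} (hu : u ∈ K), (u = 0 ∨ ordF w u ≤ m) → w ⟨u, hu⟩ ≤ WithZero.exp m := by
    intro u hu h
    by_cases h0 : w ⟨u, hu⟩ = 0
    · rw [h0]
      exact zero_le
    · rcases h with h | h
      · subst h
        exact absurd (map_zero w) h0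
      · rwa [ordF_of_mem w hu, WithZero.log_le_iff_le_exp h0] at h
  have h3 : w (⟨x, hx⟩ + ⟨y, hy⟩) ≤ WithZero.exp m :=
    (w.map_add _ _).trans (max_le (aux hx h1) (aux hy h2))
  rw [ordF_of_mem w (K.add_mem hx hy)]
  have h4 : w ⟨x + y, K.add_mem hx hy⟩ ≠ 0 :=
    (Valuation.ne_zero_iff w).2 fun h => hxy (congrArg Subtype.val h)
  rw [WithZero.log_le_iff_le_exp h4]
  exact h3

theorem ordF_sub_le {x y : F} (hx : x ∈ K) (hy : y ∈ K) (hxy : x ≠ y) {m : ℤ}
    (h1 : x = 0 ∨ ordF w x ≤ m) (h2 : y = 0 ∨ ordF w y ≤ m) : ordF w (x - y) ≤ m := by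
  rw [sub_eq_add_neg]
  refine ordF_add_le w hx (K.neg_mem hy) ?_ h1 ?_
  · rw [← sub_eq_add_neg]
    exact sub_ne_zero.2 hxy
  · rw [ordF_neg, neg_eq_zero]
    exact h2

end Ord

section Transport

variable {k F : Type*} [Field k] [Field F] [Algebra k F] {a b : k[X]}

theorem mem_rootsIn_map (σ : F ≃ₐ[k] F) {p : k[X]} {x : F} (hx : x ∈ rootsIn F p) :
    σ x ∈ rootsIn F p := by
  by_cases hp : p = 0
  · subst hp
    simp [rootsIn] at hx
  · rw [mem_rootsIn hp] at hx ⊢
    rw [aeval_algHom_apply, hx, map_zero]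

theorem map_mem_rootField (σ : F ≃ₐ[k] F) {x : F} (hx : x ∈ rootField F a b) :
    σ x ∈ rootField F a b := by
  have h1 : (rootField F a b).map (σ : F →ₐ[k] F) ≤ rootField F a b := by
    rw [rootField, IntermediateField.adjoin_map, IntermediateField.adjoin_le_iff]
    rintro _ ⟨y, hy, rfl⟩
    simp only [Finset.coe_union, Set.mem_union, Finset.mem_coe] at hy
    apply IntermediateField.subset_adjoin
    simp only [Finset.coe_union, Set.mem_union, Finset.mem_coe]
    rcases hy with (hy | hy) | hy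
    · exact Or.inl (Or.inl (mem_rootsIn_map σ hy))
    · exact Or.inl (Or.inr (mem_rootsIn_map σ hy))
    · exact Or.inr (mem_rootsIn_map σ hy)
  exact h1 ⟨x, hx, rfl⟩

/-- The restriction of an automorphism to the field of the roots. -/
noncomputable def restrictRootField (σ : F ≃ₐ[k] F) : rootField F a b →+* rootField F a b :=
  (((σ : F →ₐ[k] F) : F →+* F).comp (algebraMap (rootField F a b) F)).codRestrict
    (rootField F a b) fun x => map_mem_rootField σ x.2

theorem ordF_comap (σ : F ≃ₐ[k] F) (w : Valuation (rootField F a b) ℤᵐ⁰) {x : F}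
    (hx : x ∈ rootField F a b) :
    ordF (w.comap (restrictRootField σ)) x = ordF w (σ x) := by
  rw [ordF_of_mem _ hx, ordF_of_mem _ (map_mem_rootField σ hx)]
  rfl

theorem IsTripleValuation.comap {w : Valuation (rootField F a b) ℤᵐ⁰} (σ : F ≃ₐ[k] F) {x y z : F}
    (hx : x ∈ rootsIn F a) (hy : y ∈ rootsIn F b) (hz : z ∈ rootsIn F (a - b))
    (h : IsTripleValuation w a b (σ x) (σ y) (σ z)) :
    IsTripleValuation (w.comap (restrictRootField σ)) a b x y z := by
  have hKa : ∀ s ∈ rootsIn F a, s ∈ rootField F a b := fun s hs =>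
    mem_rootField_of_mem (Or.inl hs)
  have hKb : ∀ s ∈ rootsIn F b, s ∈ rootField F a b := fun s hs =>
    mem_rootField_of_mem (Or.inr (Or.inl hs))
  have hKc : ∀ s ∈ rootsIn F (a - b), s ∈ rootField F a b := fun s hs =>
    mem_rootField_of_mem (Or.inr (Or.inr hs))
  have key : ∀ s t : F, s ∈ rootField F a b → t ∈ rootField F a b →
      ordF (w.comap (restrictRootField σ)) (s - t) = ordF w (σ s - σ t) := by
    intro s t hs ht
    rw [ordF_comap σ w ((rootField F a b).sub_mem hs ht), map_sub]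
  refine ⟨?_, ?_, ?_, fun s hs t ht hst => ?_, fun s hs t ht hst => ?_,
    fun s hs t ht hst => ?_, ?_, ?_⟩
  · rw [key _ _ (hKa x hx) (hKb y hy)]
    exact h.xy
  · rw [key _ _ (hKa x hx) (hKc z hz)]
    exact h.xz
  · rw [key _ _ (hKb y hy) (hKc z hz)]
    exact h.yz
  · rw [key _ _ (hKa s hs) (hKb t ht)]
    exact h.ab _ (mem_rootsIn_map σ hs) _ (mem_rootsIn_map σ ht)
      (hst.imp (fun h1 h2 => h1 (σ.injective h2)) fun h1 h2 => h1 (σ.injective h2))
  · rw [key _ _ (hKa s hs) (hKc t ht)]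
    exact h.ac _ (mem_rootsIn_map σ hs) _ (mem_rootsIn_map σ ht)
      (hst.imp (fun h1 h2 => h1 (σ.injective h2)) fun h1 h2 => h1 (σ.injective h2))
  · rw [key _ _ (hKb s hs) (hKc t ht)]
    exact h.bc _ (mem_rootsIn_map σ hs) _ (mem_rootsIn_map σ ht)
      (hst.imp (fun h1 h2 => h1 (σ.injective h2)) fun h1 h2 => h1 (σ.injective h2))
  · rw [ordF_comap σ w ((rootField F a b).algebraMap_mem _), AlgEquiv.commutes]
    exact h.lead_a
  · rw [ordF_comap σ w ((rootField F a b).algebraMap_mem _), AlgEquiv.commutes]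
    exact h.lead_b

/-- If the Galois group is transitive on the pairs of roots of any two of the polynomials `a`, `b`,
`a - b`, and if some triple of roots is separated from the other roots by a discrete valuation,
then there is no eigentriple. -/
theorem no_eigentriple_of_pairs [IsAlgClosed F] (hab : IsCoprime a b)
    (hmA : ∀ x ∈ rootsIn F a, Odd ((a.map (algebraMap k F)).rootMultiplicity x))
    (hmB : ∀ x ∈ rootsIn F b, Odd ((b.map (algebraMap k F)).rootMultiplicity x))
    (hA : Odd (rootsIn F a).card) (hB : Odd (rootsIn F b).card)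
    (hC : Odd (rootsIn F (a - b)).card) (hA1 : 1 < (rootsIn F a).card)
    (hB1 : 1 < (rootsIn F b).card) (tab : IsTransitiveOnPairs F a b)
    (tac : IsTransitiveOnPairs F a (a - b)) (tbc : IsTransitiveOnPairs F b (a - b))
    {x₀ y₀ z₀ : F} (hx₀ : x₀ ∈ rootsIn F a) (hy₀ : y₀ ∈ rootsIn F b)
    (hz₀ : z₀ ∈ rootsIn F (a - b)) {w₀ : Valuation (rootField F a b) ℤᵐ⁰}
    (hw₀ : IsTripleValuation w₀ a b x₀ y₀ z₀)
    {S T U : Finset F} (h : IsEigentriple a b S T U) : S = ∅ ∧ T = ∅ ∧ U = ∅ := by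
  obtain ⟨e, he⟩ := h.tripleParity hab hmA hmB
  set O : Finset (F × F × F) := (rootsIn F a ×ˢ rootsIn F b ×ˢ rootsIn F (a - b)).filter
    (fun t => ∃ w : Valuation (rootField F a b) ℤᵐ⁰,
      IsTripleValuation w a b t.1 t.2.1 t.2.2) with hOdef
  have memO : ∀ {x y z : F}, (x, y, z) ∈ O ↔ (x ∈ rootsIn F a ∧ y ∈ rootsIn F b ∧
      z ∈ rootsIn F (a - b)) ∧ ∃ w : Valuation (rootField F a b) ℤᵐ⁰,
      IsTripleValuation w a b x y z := by
    intro x y z
    rw [hOdef, Finset.mem_filter, Finset.mem_product, Finset.mem_product]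
  have hmove : ∀ (σ : F ≃ₐ[k] F) {x y z : F}, (x, y, z) ∈ O → (σ x, σ y, σ z) ∈ O := by
    intro σ x y z ht
    rw [memO] at ht ⊢
    obtain ⟨⟨hx, hy, hz⟩, w, hw⟩ := ht
    refine ⟨⟨mem_rootsIn_map σ hx, mem_rootsIn_map σ hy, mem_rootsIn_map σ hz⟩,
      w.comap (restrictRootField σ.symm), IsTripleValuation.comap σ.symm
        (mem_rootsIn_map σ hx) (mem_rootsIn_map σ hy) (mem_rootsIn_map σ hz) ?_⟩
    simpa using hw
  -- uniformity of the fibres
  have uni : ∀ (f : F × F × F → F × F),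
      (∀ (σ : F ≃ₐ[k] F) (t : F × F × F), f (σ t.1, σ t.2.1, σ t.2.2) = (σ (f t).1, σ (f t).2)) →
      ∀ p q : F × F, (∃ σ : F ≃ₐ[k] F, σ p.1 = q.1 ∧ σ p.2 = q.2) →
      (O.filter fun t => f t = p).card ≤ (O.filter fun t => f t = q).card := by
    intro f hf p q ⟨σ, h1, h2⟩
    apply Finset.card_le_card_of_injOn (fun t : F × F × F => (σ t.1, σ t.2.1, σ t.2.2))
    · intro t ht
      obtain ⟨ht1, ht2⟩ := Finset.mem_filter.1 (Finset.mem_coe.1 ht)
      refine Finset.mem_coe.2 (Finset.mem_filter.2 ⟨hmove σ ht1, ?_⟩)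
      rw [hf, ht2, h1, h2]
    · intro t _ t' _ htt
      simp only [Prod.mk.injEq, EmbeddingLike.apply_eq_iff_eq] at htt
      exact Prod.ext htt.1 (Prod.ext htt.2.1 htt.2.2)
  have hsub : ∀ t ∈ O, t.1 ∈ rootsIn F a ∧ t.2.1 ∈ rootsIn F b ∧ t.2.2 ∈ rootsIn F (a - b) := by
    rintro ⟨x, y, z⟩ ht
    exact (memO.1 ht).1
  refine pair_combinatorics h.sub_a h.sub_b h.sub_c hA hB hC hA1 hB1 h.card_ab h.card_ac (O := O)
    hsub ⟨(x₀, y₀, z₀), memO.2 ⟨⟨hx₀, hy₀, hz₀⟩, w₀, hw₀⟩⟩
    (r₁ := (O.filter fun t => t.1 = x₀ ∧ t.2.1 = y₀).card)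
    (r₂ := (O.filter fun t => t.1 = x₀ ∧ t.2.2 = z₀).card)
    (r₃ := (O.filter fun t => t.2.1 = y₀ ∧ t.2.2 = z₀).card) (fun x hx y hy => ?_)
    (fun x hx z hz => ?_) (fun y hy z hz => ?_) ?_
  · have key := uni (fun t => (t.1, t.2.1)) (fun σ t => rfl)
    simp only [Prod.ext_iff] at key
    exact le_antisymm
      (key (x, y) (x₀, y₀) (tab x y x₀ y₀ (aeval_of_mem_rootsIn hx) (aeval_of_mem_rootsIn hy)
        (aeval_of_mem_rootsIn hx₀) (aeval_of_mem_rootsIn hy₀)))
      (key (x₀, y₀) (x, y) (tab x₀ y₀ x y (aeval_of_mem_rootsIn hx₀) (aeval_of_mem_rootsIn hy₀)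
        (aeval_of_mem_rootsIn hx) (aeval_of_mem_rootsIn hy)))
  · have key := uni (fun t => (t.1, t.2.2)) (fun σ t => rfl)
    simp only [Prod.ext_iff] at key
    exact le_antisymm
      (key (x, z) (x₀, z₀) (tac x z x₀ z₀ (aeval_of_mem_rootsIn hx) (aeval_of_mem_rootsIn hz)
        (aeval_of_mem_rootsIn hx₀) (aeval_of_mem_rootsIn hz₀)))
      (key (x₀, z₀) (x, z) (tac x₀ z₀ x z (aeval_of_mem_rootsIn hx₀) (aeval_of_mem_rootsIn hz₀)
        (aeval_of_mem_rootsIn hx) (aeval_of_mem_rootsIn hz)))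
  · have key := uni (fun t => (t.2.1, t.2.2)) (fun σ t => rfl)
    simp only [Prod.ext_iff] at key
    exact le_antisymm
      (key (y, z) (y₀, z₀) (tbc y z y₀ z₀ (aeval_of_mem_rootsIn hy) (aeval_of_mem_rootsIn hz)
        (aeval_of_mem_rootsIn hy₀) (aeval_of_mem_rootsIn hz₀)))
      (key (y₀, z₀) (y, z) (tbc y₀ z₀ y z (aeval_of_mem_rootsIn hy₀) (aeval_of_mem_rootsIn hz₀)
        (aeval_of_mem_rootsIn hy) (aeval_of_mem_rootsIn hz)))
  · rintro ⟨x, y, z⟩ ht
    obtain ⟨⟨hx, hy, hz⟩, w, hw⟩ := memO.1 ht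
    exact ⟨e w, he x hx y hy z hz w hw⟩

end Transport

section Collision

variable {k F : Type*} [Field k] [Field F] [Algebra k F]

theorem rootMultiplicity_of_separable {p : k[X]} (hp : p.Separable) {x : F}
    (hx : x ∈ rootsIn F p) : (p.map (algebraMap k F)).rootMultiplicity x = 1 := by
  rw [← count_roots]
  exact Multiset.count_eq_one_of_mem (nodup_roots hp.map) (Multiset.mem_toFinset.1 hx)

theorem card_rootsIn_of_separable [IsAlgClosed F] {p : k[X]} (hp : p.Separable) :
    (rootsIn F p).card = p.natDegree := by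
  rw [rootsIn, Multiset.toFinset_card_of_nodup (nodup_roots hp.map),
    ← (IsAlgClosed.splits (p.map (algebraMap k F))).natDegree_eq_card_roots, natDegree_map]

theorem adjoin_preimage_rootField (a b : k[X]) :
    Algebra.adjoin k (Subtype.val ⁻¹' (↑(rootsIn F a ∪ rootsIn F b ∪ rootsIn F (a - b)) : Set F) :
      Set (rootField F a b)) = ⊤ := by
  rw [eq_top_iff]
  intro x _
  have halg : ∀ y ∈ (↑(rootsIn F a ∪ rootsIn F b ∪ rootsIn F (a - b)) : Set F),
      IsAlgebraic k y := by
    intro y hy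
    simp only [Finset.coe_union, Set.mem_union, Finset.mem_coe] at hy
    have aux : ∀ p : k[X], y ∈ rootsIn F p → IsAlgebraic k y := by
      intro p hp
      refine ⟨p, ?_, aeval_of_mem_rootsIn hp⟩
      rintro rfl
      simp [rootsIn] at hp
    rcases hy with (hy | hy) | hy
    · exact aux _ hy
    · exact aux _ hy
    · exact aux _ hy
  have h1 : (x : F) ∈ Algebra.adjoin k
      (↑(rootsIn F a ∪ rootsIn F b ∪ rootsIn F (a - b)) : Set F) := by
    rw [← IntermediateField.adjoin_toSubalgebra_of_isAlgebraic halg]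
    exact x.2
  have h2 : ((rootField F a b).val : rootField F a b →ₐ[k] F) ''
      (Subtype.val ⁻¹' (↑(rootsIn F a ∪ rootsIn F b ∪ rootsIn F (a - b)) : Set F)) =
      (↑(rootsIn F a ∪ rootsIn F b ∪ rootsIn F (a - b)) : Set F) := by
    apply Set.Subset.antisymm
    · rintro _ ⟨y, hy, rfl⟩
      exact hy
    · intro y hy
      exact ⟨⟨y, IntermediateField.subset_adjoin _ _ hy⟩, hy, rfl⟩
  rw [← h2, ← AlgHom.map_adjoin] at h1
  obtain ⟨y, hy, hyx⟩ := h1
  have : y = x := Subtype.ext hyx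
  exact this ▸ hy

variable {R : Type*} (k) [CommRing R] [IsDomain R] [Algebra R k] [IsFractionRing R k]
  [Algebra R F] [IsScalarTower R k F] [IsDiscreteValuationRing R] [IsAlgClosed F]

/-- The valuation of the field of the roots given by a simple collision: it separates one triple
of roots from the other roots. -/
theorem IsSimpleCollision.exists_tripleValuation {a b : R[X]} {n : ℕ}
    (h : IsSimpleCollision a b n) :
    ∃ w : Valuation (rootField F (a.map (algebraMap R k)) (b.map (algebraMap R k))) ℤᵐ⁰,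
      ∃ x ∈ rootsIn F (a.map (algebraMap R k)), ∃ y ∈ rootsIn F (b.map (algebraMap R k)),
      ∃ z ∈ rootsIn F (a.map (algebraMap R k) - b.map (algebraMap R k)),
      IsTripleValuation w (a.map (algebraMap R k)) (b.map (algebraMap R k)) x y z := by
  set A := a.map (algebraMap R k) with hA
  set B := b.map (algebraMap R k) with hB
  have hC : A - B = (a - b).map (algebraMap R k) := by rw [Polynomial.map_sub]
  have hinj : Function.Injective (algebraMap R k) := IsFractionRing.injective R k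
  have hinj' : Function.Injective (algebraMap R F) := by
    rw [IsScalarTower.algebraMap_eq R k F]
    exact (algebraMap k F).injective.comp hinj
  have hinjp : Function.Injective (Polynomial.map (algebraMap R k)) := map_injective _ hinj
  have hA0 : A ≠ 0 := by
    rw [hA]
    intro h0
    have : a = 0 := hinjp (by rw [h0, Polynomial.map_zero])
    exact h.lead_a.ne_zero (by rw [this, leadingCoeff_zero])
  have hB0 : B ≠ 0 := by
    rw [hB]
    intro h0
    have : b = 0 := hinjp (by rw [h0, Polynomial.map_zero])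
    exact h.lead_b.ne_zero (by rw [this, leadingCoeff_zero])
  have hAsep : A.Separable := h.sep_a.map
  have hBsep : B.Separable := h.sep_b.map
  have hCsep : (A - B).Separable := hC ▸ h.sep_c.map
  have hKa : ∀ s ∈ rootsIn F A, s ∈ rootField F A B := fun s hs =>
    mem_rootField_of_mem (Or.inl hs)
  have hKb : ∀ s ∈ rootsIn F B, s ∈ rootField F A B := fun s hs =>
    mem_rootField_of_mem (Or.inr (Or.inl hs))
  have hKc : ∀ s ∈ rootsIn F (A - B), s ∈ rootField F A B := fun s hs =>
    mem_rootField_of_mem (Or.inr (Or.inr hs))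
  have htower : IsScalarTower R (rootField F A B) F := IsScalarTower.of_algebraMap_eq fun r => rfl
  -- the generators are unramified
  have hunr : ∀ p : R[X], IsUnit p.leadingCoeff → p.Separable →
      ∀ x : rootField F A B, (x : F) ∈ rootsIn F (p.map (algebraMap R k)) →
      IsUnramifiedElement R x := by
    intro p hp hsep x hx
    refine ⟨p, hp, hsep, ?_⟩
    have h1 := aeval_of_mem_rootsIn hx
    rw [aeval_map_algebraMap] at h1
    have h2 : aeval (algebraMap (rootField F A B) F x) p =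
        algebraMap (rootField F A B) F (aeval x p) := aeval_algebraMap_apply F x p
    exact (algebraMap (rootField F A B) F).injective (h2.symm.trans (h1.trans (map_zero _).symm))
  obtain ⟨w, hw1, hw2, hw3⟩ := exists_unramified_valuation (R := R) k
    (Subtype.val ⁻¹' (↑(rootsIn F A ∪ rootsIn F B ∪ rootsIn F (A - B)) : Set F) :
      Set (rootField F A B))
    ((Finset.finite_toSet _).preimage Subtype.val_injective.injOn)
    (by
      intro x hx
      simp only [Set.mem_preimage, Finset.coe_union, Set.mem_union, Finset.mem_coe] at hx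
      rcases hx with (hx | hx) | hx
      · exact hunr a h.lead_a h.sep_a x hx
      · exact hunr b h.lead_b h.sep_b x hx
      · rw [hC] at hx
        exact hunr (a - b) h.lead_c h.sep_c x hx)
    (adjoin_preimage_rootField A B)
  -- consequences for the orders
  have hR : ∀ r : R, algebraMap R F r ∈ rootField F A B := fun r =>
    (algebraMap R (rootField F A B) r).2
  have hle : ∀ r : R, ordF w (algebraMap R F r) ≤ 0 := fun r =>
    ordF_nonpos w fun _ => hw2 r
  have hunit : ∀ r : R, IsUnit r → ordF w (algebraMap R F r) = 0 := by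
    rintro _ ⟨u, rfl⟩
    have h1 : algebraMap R F ↑u * algebraMap R F ↑(u⁻¹ : Rˣ) = 1 := by
      rw [← map_mul, Units.mul_inv, map_one]
    have h2 := ordF_mul w (hR ↑u) (hR ↑(u⁻¹ : Rˣ)) (left_ne_zero_of_mul_eq_one h1)
      (right_ne_zero_of_mul_eq_one h1)
    rw [h1, ordF_one] at h2
    have h3 := hle ↑u
    have h4 := hle ↑(u⁻¹ : Rˣ)
    omega
  have hirr : ∀ p : R, Irreducible p → ordF w (algebraMap R F p) = -1 := by
    intro p hp
    rw [ordF_of_mem w (hR p)]
    have : w ⟨algebraMap R F p, hR p⟩ = WithZero.exp (-1) := hw3 p hp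
    rw [this, WithZero.log_exp]
  have hpow : ∀ (r : R) (m : ℕ), IsUnit r → ordF w (algebraMap R F r ^ m) = 0 := by
    intro r m hr
    rw [← map_pow]
    exact hunit _ (hr.pow m)
  have hrootle : ∀ s ∈ rootsIn F A ∪ rootsIn F B ∪ rootsIn F (A - B), ordF w s ≤ 0 := by
    intro s hs
    exact ordF_nonpos w fun hsK => hw1 ⟨s, hsK⟩ (Finset.mem_coe.2 hs)
  have hrootK : ∀ s ∈ rootsIn F A ∪ rootsIn F B ∪ rootsIn F (A - B), s ∈ rootField F A B := by
    intro s hs
    simp only [Finset.mem_union] at hs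
    exact mem_rootField_of_mem (or_assoc.1 hs)
  have hdiffle : ∀ s ∈ rootsIn F A ∪ rootsIn F B ∪ rootsIn F (A - B),
      ∀ t ∈ rootsIn F A ∪ rootsIn F B ∪ rootsIn F (A - B), ordF w (s - t) ≤ 0 := by
    intro s hs t ht
    by_cases hst : s = t
    · rw [hst, sub_self]
      exact ordF_nonpos w fun h0 => by
        have : (⟨0, h0⟩ : rootField F A B) = 0 := rfl
        rw [this, map_zero]
        exact zero_le_one
    · exact ordF_sub_le w (hrootK s hs) (hrootK t ht) hst (Or.inr (hrootle s hs))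
        (Or.inr (hrootle t ht))
  have memA : ∀ s ∈ rootsIn F A, s ∈ rootsIn F A ∪ rootsIn F B ∪ rootsIn F (A - B) :=
    fun s hs => by simp [hs]
  have memB : ∀ s ∈ rootsIn F B, s ∈ rootsIn F A ∪ rootsIn F B ∪ rootsIn F (A - B) :=
    fun s hs => by simp [hs]
  have memC : ∀ s ∈ rootsIn F (A - B), s ∈ rootsIn F A ∪ rootsIn F B ∪ rootsIn F (A - B) :=
    fun s hs => by simp only [Finset.mem_union]; exact Or.inr hs
  have hlead : ∀ p : R[X], IsUnit p.leadingCoeff →
      ordF w (algebraMap k F (p.map (algebraMap R k)).leadingCoeff) = 0 := by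
    intro p hp
    rw [leadingCoeff_map_of_injective hinj, ← IsScalarTower.algebraMap_apply R k F]
    exact hunit _ hp
  have hleadA : ordF w (algebraMap k F A.leadingCoeff) = 0 := hlead a h.lead_a
  have hleadB : ordF w (algebraMap k F B.leadingCoeff) = 0 := hlead b h.lead_b
  have hleadC : ordF w (algebraMap k F (A - B).leadingCoeff) = 0 := hC ▸ hlead (a - b) h.lead_c
  -- the resultant
  have hcop : IsCoprime A B := by
    by_contra hcop
    have h1 : A.resultant B = 0 := resultant_eq_zero_iff.2 ⟨Or.inl hA0, hcop⟩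
    rw [hA, hB, natDegree_map_eq_of_injective hinj, natDegree_map_eq_of_injective hinj,
      resultant_map_map] at h1
    exact h.res.ne_zero (hinj (h1.trans (map_zero _).symm))
  have hbA : ∀ s ∈ rootsIn F A, aeval s B ≠ 0 := fun s hs =>
    aeval_ne_zero_of_coprime hcop (aeval_of_mem_rootsIn hs)
  have haB : ∀ s ∈ rootsIn F B, aeval s A ≠ 0 := fun s hs =>
    aeval_ne_zero_of_coprime hcop.symm (aeval_of_mem_rootsIn hs)
  have hcA : ∀ s ∈ rootsIn F A, aeval s (A - B) = -aeval s B := fun s hs => by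
    rw [map_sub, aeval_of_mem_rootsIn hs, zero_sub]
  have hcB : ∀ s ∈ rootsIn F B, aeval s (A - B) = aeval s A := fun s hs => by
    rw [map_sub, aeval_of_mem_rootsIn hs, sub_zero]
  -- the order of a value in terms of the differences
  have hval : ∀ p : k[X], p.Separable → ordF w (algebraMap k F p.leadingCoeff) = 0 →
      (∀ s ∈ rootsIn F p, s ∈ rootField F A B) →
      ∀ x ∈ rootField F A B, aeval x p ≠ 0 → ordF w (aeval x p) = ∑ s ∈ rootsIn F p,
        ordF w (x - s) := by
    intro p hp hl hs x hx hx0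
    rw [ordF_aeval w hx hs hx0, hl, zero_add]
    exact Finset.sum_congr rfl fun s hs => by
      rw [rootMultiplicity_of_separable hp hs, one_smul]
  have hsumA : ∑ s ∈ rootsIn F A, ordF w (aeval s B) = -1 := by
    have h1 : algebraMap R F (a.resultant b) = algebraMap R F (a.leadingCoeff) ^ n *
        ∏ s ∈ rootsIn F A, aeval s B := by
      have h2 := resultant_eq_prod_eval (A.map (algebraMap k F)) (B.map (algebraMap k F)) n
        (by rw [natDegree_map, hB, natDegree_map_eq_of_injective hinj, h.deg_b])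
        (IsAlgClosed.splits _)
      rw [natDegree_map, leadingCoeff_map, resultant_map_map, hA,
        natDegree_map_eq_of_injective hinj, leadingCoeff_map_of_injective hinj, hB,
        resultant_map_map, ← IsScalarTower.algebraMap_apply R k F,
        ← IsScalarTower.algebraMap_apply R k F, h.deg_a] at h2
      rw [h.deg_a, h.deg_b, h2, ← hA, ← hB]
      congr 1
      rw [rootsIn, Finset.prod, Multiset.toFinset_val, (nodup_roots hAsep.map).dedup]
      simp only [eval_map_algebraMap]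
    have h3 : ordF w (algebraMap R F (a.resultant b)) = -1 := hirr _ h.res
    rw [h1, ordF_mul w (_root_.pow_mem (hR _) n)
      ((rootField F A B).prod_mem fun s hs => ?_) (pow_ne_zero _ ?_)
      (Finset.prod_ne_zero_iff.2 hbA), hpow _ _ h.lead_a, zero_add,
      ordF_prod w _ _ (fun s hs => ?_) hbA] at h3
    · exact h3
    · rw [show s = ((⟨s, hKa s hs⟩ : rootField F A B) : F) from rfl, IntermediateField.aeval_coe]
      exact SetLike.coe_mem _
    · exact fun h0 => h.lead_a.ne_zero (hinj' (h0.trans (map_zero _).symm))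
    · rw [show s = ((⟨s, hKa s hs⟩ : rootField F A B) : F) from rfl, IntermediateField.aeval_coe]
      exact SetLike.coe_mem _
  have hvalAB : ∀ s ∈ rootsIn F A, ordF w (aeval s B) = ∑ t ∈ rootsIn F B, ordF w (s - t) :=
    fun s hs => hval B hBsep hleadB hKb s (hKa s hs) (hbA s hs)
  have hvalBA : ∀ s ∈ rootsIn F B, ordF w (aeval s A) = ∑ t ∈ rootsIn F A, ordF w (s - t) :=
    fun s hs => hval A hAsep hleadA hKa s (hKb s hs) (haB s hs)
  have hvalAC : ∀ s ∈ rootsIn F A, ordF w (aeval s B) = ∑ t ∈ rootsIn F (A - B),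
      ordF w (s - t) := by
    intro s hs
    rw [← hval (A - B) hCsep hleadC hKc s (hKa s hs) (by rw [hcA s hs]; exact neg_ne_zero.2 (hbA s hs)),
      hcA s hs, ordF_neg]
  have hvalBC : ∀ s ∈ rootsIn F B, ordF w (aeval s A) = ∑ t ∈ rootsIn F (A - B),
      ordF w (s - t) := by
    intro s hs
    rw [← hval (A - B) hCsep hleadC hKc s (hKb s hs) (by rw [hcB s hs]; exact haB s hs),
      hcB s hs]
  -- the colliding roots
  obtain ⟨x, hx, hx1, hx2⟩ := exists_of_sum_eq_neg_one _ _ (fun s hs => by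
    rw [hvalAB s hs]
    exact Finset.sum_nonpos fun t ht => hdiffle s (memA s hs) t (memB t ht)) hsumA
  rw [hvalAB x hx] at hx1
  obtain ⟨y, hy, hy1, hy2⟩ := exists_of_sum_eq_neg_one _ _
    (fun t ht => hdiffle x (memA x hx) t (memB t ht)) hx1
  have hx1' : ordF w (aeval x B) = -1 := by rw [hvalAB x hx, hx1]
  rw [hvalAC x hx] at hx1'
  obtain ⟨z, hz, hz1, hz2⟩ := exists_of_sum_eq_neg_one _ _
    (fun t ht => hdiffle x (memA x hx) t (memC t ht)) hx1'
  have hAB : ∀ s ∈ rootsIn F A, ∀ t ∈ rootsIn F B, s ≠ x ∨ t ≠ y → ordF w (s - t) = 0 := by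
    intro s hs t ht hst
    by_cases hsx : s = x
    · subst hsx
      exact hy2 t ht (hst.resolve_left fun h => h rfl)
    · have h1 := hx2 s hs hsx
      rw [hvalAB s hs] at h1
      exact (Finset.sum_eq_zero_iff_of_nonpos
        fun t ht => hdiffle s (memA s hs) t (memB t ht)).1 h1 t ht
  have hAC : ∀ s ∈ rootsIn F A, ∀ t ∈ rootsIn F (A - B), s ≠ x ∨ t ≠ z → ordF w (s - t) = 0 := by
    intro s hs t ht hst
    by_cases hsx : s = x
    · subst hsx
      exact hz2 t ht (hst.resolve_left fun h => h rfl)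
    · have h1 := hx2 s hs hsx
      rw [hvalAC s hs] at h1
      exact (Finset.sum_eq_zero_iff_of_nonpos
        fun t ht => hdiffle s (memA s hs) t (memC t ht)).1 h1 t ht
  have hyz0 : y ≠ z := by
    rintro rfl
    have h1 := aeval_of_mem_rootsIn hz
    rw [hcB y hy] at h1
    exact haB y hy h1
  have hyz : ordF w (y - z) ≤ -1 := by
    have h1 : y - z = (x - z) - (x - y) := by ring
    rw [h1]
    refine ordF_sub_le w ((rootField F A B).sub_mem (hKa x hx) (hKc z hz))
      ((rootField F A B).sub_mem (hKa x hx) (hKb y hy)) ?_ (Or.inr hz1.le) (Or.inr hy1.le)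
    intro h2
    apply hyz0
    have := sub_right_injective h2
    exact this.symm
  have hvy : ∑ t ∈ rootsIn F (A - B), ordF w (y - t) = -1 := by
    rw [← hvalBC y hy, hvalBA y hy, Finset.sum_eq_single x, ordF_sub_comm, hy1]
    · intro s hs hsx
      rw [ordF_sub_comm]
      exact hAB s hs y hy (Or.inl hsx)
    · exact fun h => absurd hx h
  obtain ⟨z', hz', hz1', hz2'⟩ := exists_of_sum_eq_neg_one _ _
    (fun t ht => hdiffle y (memB y hy) t (memC t ht)) hvy
  have hzz : z = z' := by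
    by_contra hne
    have := hz2' z hz hne
    omega
  subst hzz
  have hBC : ∀ s ∈ rootsIn F B, ∀ t ∈ rootsIn F (A - B), s ≠ y ∨ t ≠ z → ordF w (s - t) = 0 := by
    intro s hs t ht hst
    by_cases hsy : s = y
    · subst hsy
      exact hz2' t ht (hst.resolve_left fun h => h rfl)
    · have h1 : ordF w (aeval s A) = 0 := by
        rw [hvalBA s hs]
        exact Finset.sum_eq_zero fun t ht => by
          rw [ordF_sub_comm]
          exact hAB t ht s hs (Or.inr hsy)
      rw [hvalBC s hs] at h1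
      exact (Finset.sum_eq_zero_iff_of_nonpos
        fun t ht => hdiffle s (memB s hs) t (memC t ht)).1 h1 t ht
  refine ⟨w, x, hx, y, hy, z, hz, ?_, ?_, ?_, fun s hs t ht hst => ?_, fun s hs t ht hst => ?_,
    fun s hs t ht hst => ?_, ?_, ?_⟩
  · rw [hy1]
    exact ⟨-1, rfl⟩
  · rw [hz1]
    exact ⟨-1, rfl⟩
  · rw [hz1']
    exact ⟨-1, rfl⟩
  · rw [hAB s hs t ht hst]
    exact Even.zero
  · rw [hAC s hs t ht hst]
    exact Even.zero
  · rw [hBC s hs t ht hst]
    exact Even.zero
  · rw [hleadA]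
    exact Even.zero
  · rw [hleadB]
    exact Even.zero

theorem IsSimpleCollision.isCoprime {a b : R[X]} {n : ℕ} (h : IsSimpleCollision a b n) :
    IsCoprime (a.map (algebraMap R k)) (b.map (algebraMap R k)) := by
  have hinj : Function.Injective (algebraMap R k) := IsFractionRing.injective R k
  by_contra hcop
  have hA0 : a.map (algebraMap R k) ≠ 0 := by
    intro h0
    have : a = 0 := map_injective _ hinj (by rw [h0, Polynomial.map_zero])
    exact h.lead_a.ne_zero (by rw [this, leadingCoeff_zero])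
  have h1 := resultant_eq_zero_iff.2 ⟨Or.inl hA0, hcop⟩
  rw [natDegree_map_eq_of_injective hinj, natDegree_map_eq_of_injective hinj,
    resultant_map_map] at h1
  exact h.res.ne_zero (hinj (h1.trans (map_zero _).symm))

/-- If the Galois group is transitive on the pairs of roots of any two of the polynomials `a`, `b`,
`a - b` and there is a simple collision at some discrete valuation, there is no eigentriple. -/
theorem IsSimpleCollision.no_eigentriple {a b : R[X]} {n : ℕ} (hn : Odd n) (hn1 : n ≠ 1)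
    (h : IsSimpleCollision a b n)
    (tab : IsTransitiveOnPairs F (a.map (algebraMap R k)) (b.map (algebraMap R k)))
    (tac : IsTransitiveOnPairs F (a.map (algebraMap R k))
      (a.map (algebraMap R k) - b.map (algebraMap R k)))
    (tbc : IsTransitiveOnPairs F (b.map (algebraMap R k))
      (a.map (algebraMap R k) - b.map (algebraMap R k)))
    {S T U : Finset F}
    (hE : IsEigentriple (a.map (algebraMap R k)) (b.map (algebraMap R k)) S T U) :
    S = ∅ ∧ T = ∅ ∧ U = ∅ := by
  have hinj : Function.Injective (algebraMap R k) := IsFractionRing.injective R k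
  have hC : a.map (algebraMap R k) - b.map (algebraMap R k) = (a - b).map (algebraMap R k) := by
    rw [Polynomial.map_sub]
  have hsepA : (a.map (algebraMap R k)).Separable := h.sep_a.map
  have hsepB : (b.map (algebraMap R k)).Separable := h.sep_b.map
  have hsepC : (a.map (algebraMap R k) - b.map (algebraMap R k)).Separable := hC ▸ h.sep_c.map
  have hcA : (rootsIn F (a.map (algebraMap R k))).card = n := by
    rw [card_rootsIn_of_separable hsepA, natDegree_map_eq_of_injective hinj, h.deg_a]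
  have hcB : (rootsIn F (b.map (algebraMap R k))).card = n := by
    rw [card_rootsIn_of_separable hsepB, natDegree_map_eq_of_injective hinj, h.deg_b]
  have hcC : (rootsIn F (a.map (algebraMap R k) - b.map (algebraMap R k))).card = n := by
    rw [card_rootsIn_of_separable hsepC, hC, natDegree_map_eq_of_injective hinj, h.deg_c]
  have h1n : 1 < n := by
    have := hn.pos
    omega
  obtain ⟨w, x, hx, y, hy, z, hz, hw⟩ := h.exists_tripleValuation k (F := F)
  refine no_eigentriple_of_pairs (h.isCoprime k) (fun x hx => ?_) (fun x hx => ?_)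
    (by rwa [hcA]) (by rwa [hcB]) (by rwa [hcC]) (by rwa [hcA]) (by rwa [hcB]) tab tac tbc
    hx hy hz hw hE
  · rw [rootMultiplicity_of_separable hsepA hx]
    exact odd_one
  · rw [rootMultiplicity_of_separable hsepB hx]
    exact odd_one

theorem IsSimpleCollision.oddLevelTwo {a b : R[X]} {n : ℕ} (h2 : (2 : k) ≠ 0) (hn : Odd n)
    (h : IsSimpleCollision a b n) :
    OddLevelTwo (a.map (algebraMap R k)) (b.map (algebraMap R k)) n := by
  have hinj : Function.Injective (algebraMap R k) := IsFractionRing.injective R k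
  have hC : a.map (algebraMap R k) - b.map (algebraMap R k) = (a - b).map (algebraMap R k) := by
    rw [Polynomial.map_sub]
  have key : ∀ p : R[X], IsUnit p.leadingCoeff → p.Separable →
      ∀ x : AlgebraicClosure k, aeval x (p.map (algebraMap R k)) = 0 →
      Odd (((p.map (algebraMap R k)).map
        (algebraMap k (AlgebraicClosure k))).rootMultiplicity x) := by
    intro p hp hsep x hx
    have hp0 : p.map (algebraMap R k) ≠ 0 := by
      intro h0
      have : p = 0 := map_injective _ hinj (by rw [h0, Polynomial.map_zero])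
      exact hp.ne_zero (by rw [this, leadingCoeff_zero])
    rw [rootMultiplicity_of_separable hsep.map ((mem_rootsIn hp0).2 hx)]
    exact odd_one
  refine ⟨h2, hn, ?_, ?_, ?_, h.isCoprime k, key a h.lead_a h.sep_a, key b h.lead_b h.sep_b, ?_⟩
  · rw [natDegree_map_eq_of_injective hinj, h.deg_a]
  · rw [natDegree_map_eq_of_injective hinj, h.deg_b]
  · rw [hC, natDegree_map_eq_of_injective hinj, h.deg_c]
  · rw [hC]
    exact key (a - b) h.lead_c h.sep_c

end Collision

end Pool.Agent.Lib.MP_89bcae_ag
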