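import Pool.Agent.Lib.MP_89bcae_ag.Stepanov14

/-!
# Counting with quadratic characters; missed values of a cubic polynomial
-/

namespace Pool.Agent.Lib.MP_89bcae_ag.Count14

open Polynomial Finset

section char

variable {k L F : Type*} [Field k] [Field L] [Field F] [Algebra k L] [Algebra L F] [Algebra k F]
  [IsScalarTower k L F]

omit [Field k] [Algebra k L] [Algebra k F] [IsScalarTower k L F] in
theorem not_const_sq {H : L[X]} {v : F} (hodd : Odd ((H.map (algebraMap L F)).rootMultiplicity v)) :
    ¬ ∃ (c : L) (g : L[X]), H = C c * g ^ 2 := by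
  rintro ⟨c, g, rfl⟩
  rcases eq_or_ne (C c * g ^ 2) 0 with h0 | h0
  · rw [h0] at hodd
    simp at hodd
  · have h1 : (C c * g ^ 2).map (algebraMap L F) ≠ 0 :=
      (Polynomial.map_ne_zero_iff (algebraMap L F).injective).2 h0
    rw [Polynomial.map_mul, map_C, Polynomial.map_pow] at h1 hodd
    rw [rootMultiplicity_mul h1, rootMultiplicity_C, zero_add, sq, rootMultiplicity_mul (by
      have := right_ne_zero_of_mul h1
      rwa [sq] at this)] at hodd
    exact (Nat.not_even_iff_odd.2 hodd) ⟨_, rfl⟩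

theorem prod_not_const_sq {h : ℕ → k[X]} {v : ℕ → F} {J : Finset ℕ} (hJ : J.Nonempty)
    (h0 : ∀ i ∈ J, h i ≠ 0)
    (hv : ∀ i ∈ J, Odd (((h i).map (algebraMap k F)).rootMultiplicity (v i)))
    (hvj : ∀ i ∈ J, ∀ j ∈ J, j < i → ¬ ((h j).map (algebraMap k F)).IsRoot (v i)) :
    ¬ ∃ (c : L) (g : L[X]), (∏ i ∈ J, h i).map (algebraMap k L) = C c * g ^ 2 := by
  set i := J.max' hJ with hi
  have hiJ : i ∈ J := J.max'_mem hJ
  apply not_const_sq (F := F) (v := v i)
  rw [Polynomial.map_map, ← IsScalarTower.algebraMap_eq, ← mul_prod_erase J h hiJ,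
    Polynomial.map_mul]
  have hne : ∏ j ∈ J.erase i, h j ≠ 0 := prod_ne_zero_iff.2 fun j hj => h0 j (mem_of_mem_erase hj)
  have hne' : (h i).map (algebraMap k F) * (∏ j ∈ J.erase i, h j).map (algebraMap k F) ≠ 0 :=
    mul_ne_zero ((Polynomial.map_ne_zero_iff (algebraMap k F).injective).2 (h0 i hiJ))
      ((Polynomial.map_ne_zero_iff (algebraMap k F).injective).2 hne)
  rw [rootMultiplicity_mul hne']
  have h2 : ((∏ j ∈ J.erase i, h j).map (algebraMap k F)).rootMultiplicity (v i) = 0 := by
    apply rootMultiplicity_eq_zero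
    rw [Polynomial.map_prod, IsRoot.def, eval_prod]
    apply prod_ne_zero_iff.2
    intro j hj
    have hj' := mem_of_mem_erase hj
    exact hvj i hiJ j hj' (lt_of_le_of_ne (J.le_max' j hj') (ne_of_mem_erase hj))
  rw [h2, add_zero]
  exact hv i hiJ

/-- Counting: the number of `α ∈ L` for which all `h i (α)`, `i ∈ S`, are squares. -/
theorem count_squares [Fintype L] {p : ℕ} [Fact p.Prime] [CharP L p] (hp2 : p ≠ 2)
    {m n : ℕ} (hmn : m ≤ n) (hcard : Fintype.card L = p ^ m * p ^ n)
    {h : ℕ → k[X]} {v : ℕ → F} {S : Finset ℕ}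
    (h0 : ∀ i ∈ S, h i ≠ 0)
    (hv : ∀ i ∈ S, Odd (((h i).map (algebraMap k F)).rootMultiplicity (v i)))
    (hvj : ∀ i ∈ S, ∀ j ∈ S, j < i → ¬ ((h j).map (algebraMap k F)).IsRoot (v i))
    {A : Finset L} (hA : ∀ α ∈ A, ∀ i ∈ S, IsSquare (aeval α (h i))) :
    2 ^ S.card * A.card ≤ Fintype.card L +
      2 ^ S.card * (4 * ((∑ i ∈ S, (h i).natDegree) + 1) * p ^ n + ∑ i ∈ S, (h i).natDegree) := by
  classical
  set Dg := ∑ i ∈ S, (h i).natDegree with hDg
  -- the part of `A` where all values are nonzero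
  obtain ⟨P, hP⟩ : ∃ P : L → Prop, ∀ α, P α ↔ ∀ i ∈ S, aeval α (h i) ≠ 0 :=
    ⟨fun α => ∀ i ∈ S, aeval α (h i) ≠ 0, fun _ => Iff.rfl⟩
  set A₀ := A.filter P with hA₀
  have hAA : A.card ≤ A₀.card + Dg := by
    have h1 : A ⊆ A₀ ∪ S.biUnion fun i => (univ.filter fun α : L => aeval α (h i) = 0) := by
      intro α hα
      by_cases hz : ∀ i ∈ S, aeval α (h i) ≠ 0
      · exact mem_union_left _ (mem_filter.2 ⟨hα, (hP α).2 hz⟩)
      · push Not at hz
        obtain ⟨i, hi, hz⟩ := hz
        exact mem_union_right _ (mem_biUnion.2 ⟨i, hi, mem_filter.2 ⟨mem_univ _, hz⟩⟩)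
    refine (card_le_card h1).trans ((card_union_le _ _).trans (Nat.add_le_add_left ?_ _))
    refine card_biUnion_le.trans (sum_le_sum fun i hi => ?_)
    have h2 : ((h i).map (algebraMap k L)).natDegree = (h i).natDegree := natDegree_map _
    rw [← h2]
    apply card_le_degree_of_subset_roots
    intro α hα
    rw [mem_val, mem_filter] at hα
    rw [mem_roots ((Polynomial.map_ne_zero_iff (algebraMap k L).injective).2 (h0 i hi)), IsRoot.def,
      eval_map_algebraMap]
    exact hα.2
  have hprod : (2 : ℤ) ^ S.card * A₀.card ≤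
      ∑ α : L, ∏ i ∈ S, (1 + quadraticChar L (aeval α (h i))) := by
    have h1 : ∀ α : L, (0 : ℤ) ≤ ∏ i ∈ S, (1 + quadraticChar L (aeval α (h i))) := by
      intro α
      apply prod_nonneg
      intro i _
      rcases eq_or_ne (aeval α (h i)) 0 with h | h
      · rw [h]; simp
      · rcases quadraticChar_dichotomy h with h' | h' <;> rw [h'] <;> norm_num
    calc (2 : ℤ) ^ S.card * A₀.card = ∑ α ∈ A₀, (2 : ℤ) ^ S.card := by
          rw [sum_const, nsmul_eq_mul, mul_comm]
      _ = ∑ α ∈ A₀, ∏ i ∈ S, (1 + quadraticChar L (aeval α (h i))) := by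
          refine sum_congr rfl fun α hα => ?_
          rw [← prod_const]
          refine prod_congr rfl fun i hi => ?_
          rw [mem_filter, hP] at hα
          rw [(quadraticChar_one_iff_isSquare (hα.2 i hi)).2 (hA α hα.1 i hi)]
          norm_num
      _ ≤ _ := sum_le_sum_of_subset_of_nonneg (subset_univ _) fun α _ _ => h1 α
  have hexp : ∑ α : L, ∏ i ∈ S, (1 + quadraticChar L (aeval α (h i))) =
      ∑ J ∈ S.powerset, ∑ α : L, quadraticChar L
        (((∏ i ∈ J, h i).map (algebraMap k L)).eval α) := by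
    rw [sum_comm]
    refine sum_congr rfl fun α _ => ?_
    rw [prod_one_add]
    refine sum_congr rfl fun J _ => ?_
    rw [← map_prod, Polynomial.map_prod, eval_prod]
    simp only [eval_map_algebraMap]
  have hbound : ∀ J ∈ S.powerset, J.Nonempty → ∑ α : L, quadraticChar L
        (((∏ i ∈ J, h i).map (algebraMap k L)).eval α) ≤ (4 * (Dg + 1) * p ^ n : ℕ) := by
    intro J hJS hJ
    rw [mem_powerset] at hJS
    have h1 := Stepanov14.char_sum_pn hp2 hmn hcard
      (prod_not_const_sq (L := L) (h := h) (v := v) hJ (fun i hi => h0 i (hJS hi))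
        (fun i hi => hv i (hJS hi)) (fun i hi j hj => hvj i (hJS hi) j (hJS hj)))
    have h2 : ((∏ i ∈ J, h i).map (algebraMap k L)).natDegree ≤ Dg := by
      rw [natDegree_map]
      refine (natDegree_prod_le _ _).trans ?_
      exact sum_le_sum_of_subset hJS
    refine (le_abs_self _).trans (h1.trans ?_)
    push_cast
    gcongr
  have htot : ∑ J ∈ S.powerset, ∑ α : L, quadraticChar L
        (((∏ i ∈ J, h i).map (algebraMap k L)).eval α) ≤
      Fintype.card L + 2 ^ S.card * (4 * (Dg + 1) * p ^ n : ℕ) := by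
    rw [← sum_erase_add _ _ (empty_mem_powerset S), add_comm]
    apply add_le_add
    · simp
    · refine (sum_le_sum (g := fun _ => ((4 * (Dg + 1) * p ^ n : ℕ) : ℤ)) ?_).trans ?_
      · intro J hJ
        rw [mem_erase] at hJ
        exact hbound J hJ.2 (nonempty_iff_ne_empty.2 hJ.1)
      · rw [sum_const, nsmul_eq_mul]
        apply mul_le_mul_of_nonneg_right _ (by positivity)
        have : (S.powerset.erase ∅).card ≤ 2 ^ S.card := by
          rw [← card_powerset]
          exact card_le_card (erase_subset _ _)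
        exact_mod_cast this
  have hfin : (2 : ℤ) ^ S.card * A₀.card ≤
      Fintype.card L + 2 ^ S.card * (4 * (Dg + 1) * p ^ n : ℕ) :=
    hprod.trans (hexp.trans_le htot)
  have hfin' : 2 ^ S.card * A₀.card ≤ Fintype.card L + 2 ^ S.card * (4 * (Dg + 1) * p ^ n) := by
    exact_mod_cast hfin
  calc 2 ^ S.card * A.card ≤ 2 ^ S.card * (A₀.card + Dg) := Nat.mul_le_mul_left _ hAA
    _ = 2 ^ S.card * A₀.card + 2 ^ S.card * Dg := by ring
    _ ≤ Fintype.card L + 2 ^ S.card * (4 * (Dg + 1) * p ^ n) + 2 ^ S.card * Dg :=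
        Nat.add_le_add_right hfin' _
    _ = _ := by ring

end char

section cubic

variable {K : Type*} [Field K] [Fintype K] [DecidableEq K]

/-- A cubic polynomial function with one collision has many collisions. -/
theorem collisions (h2 : (2 : K) ≠ 0) (a b c : K) {x₀ y₀ : K} (hne : x₀ ≠ y₀)
    (hcol : x₀ ^ 3 + a * x₀ ^ 2 + b * x₀ + c = y₀ ^ 3 + a * y₀ ^ 2 + b * y₀ + c) :
    Fintype.card K ≤ (univ.filter fun z : K × K => z.1 ≠ z.2 ∧
      z.1 ^ 3 + a * z.1 ^ 2 + b * z.1 + c = z.2 ^ 3 + a * z.2 ^ 2 + b * z.2 + c).card + 5 := by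
  set s := x₀ + y₀ with hs
  set u := x₀ - y₀ with hu
  have hu0 : u ≠ 0 := sub_ne_zero.2 hne
  have hconic : u ^ 2 + 3 * s ^ 2 + 4 * a * s + 4 * b = 0 := by
    have h1 : u * (u ^ 2 + 3 * s ^ 2 + 4 * a * s + 4 * b) = 0 := by
      rw [hs, hu]
      linear_combination 4 * hcol
    exact (mul_eq_zero.1 h1).resolve_left hu0
  -- the bad slopes
  set P : K[X] := (X ^ 2 + C 3) * (C (2 * u) * X + C (6 * s + 4 * a)) *
    (C u * X ^ 2 + C (6 * s + 4 * a) * X - C (3 * u)) with hP
  have hP1 : (X ^ 2 + C 3 : K[X]).natDegree = 2 := by compute_degree!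
  have hP1' : (X ^ 2 + C 3 : K[X]) ≠ 0 := by
    intro h; rw [h] at hP1; simp at hP1
  have h2u : 2 * u ≠ 0 := mul_ne_zero h2 hu0
  have hP2 : (C (2 * u) * X + C (6 * s + 4 * a) : K[X]).natDegree = 1 := by compute_degree!
  have hP2' : (C (2 * u) * X + C (6 * s + 4 * a) : K[X]) ≠ 0 := by
    intro h; rw [h] at hP2; simp at hP2
  have hP3 : (C u * X ^ 2 + C (6 * s + 4 * a) * X - C (3 * u) : K[X]).natDegree = 2 := by
    compute_degree!
  have hP3' : (C u * X ^ 2 + C (6 * s + 4 * a) * X - C (3 * u) : K[X]) ≠ 0 := by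
    intro h; rw [h] at hP3; simp at hP3
  have hP0 : P ≠ 0 := mul_ne_zero (mul_ne_zero hP1' hP2') hP3'
  have hPdeg : P.natDegree = 5 := by
    rw [hP, natDegree_mul (mul_ne_zero hP1' hP2') hP3', natDegree_mul hP1' hP2', hP1, hP2, hP3]
  have hroots : (univ.filter fun l : K => P.eval l = 0).card ≤ 5 := by
    rw [← hPdeg]
    apply card_le_degree_of_subset_roots
    intro l hl
    rw [mem_val, mem_filter] at hl
    rw [mem_roots hP0]
    exact hl.2
  have htot : Fintype.card K = (univ.filter fun l : K => P.eval l ≠ 0).card +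
      (univ.filter fun l : K => P.eval l = 0).card := by
    have := card_filter_add_card_filter_not (s := (univ : Finset K)) (fun l : K => P.eval l ≠ 0)
    simp only [not_not] at this
    rw [this, card_univ]
  rw [htot]
  refine Nat.add_le_add ?_ hroots
  -- the map `l ↦` second intersection point
  set δ : K → K := fun l => -(2 * l * u + 6 * s + 4 * a) / (l ^ 2 + 3) with hδ
  refine card_le_card_of_injOn
    (fun l => ((s + δ l + (u + l * δ l)) / 2, (s + δ l - (u + l * δ l)) / 2)) ?_ ?_
  · intro l hl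
    have hl' : P.eval l ≠ 0 := by simpa using hl
    have hev : P.eval l = (l ^ 2 + 3) * (2 * u * l + (6 * s + 4 * a)) *
        (u * l ^ 2 + (6 * s + 4 * a) * l - 3 * u) := by
      rw [hP]
      simp only [eval_mul, eval_add, eval_sub, eval_pow, eval_X, eval_C]
    rw [hev] at hl'
    have hl1 : l ^ 2 + 3 ≠ 0 := left_ne_zero_of_mul (left_ne_zero_of_mul hl')
    have hl3 : u * l ^ 2 + (6 * s + 4 * a) * l - 3 * u ≠ 0 := right_ne_zero_of_mul hl'
    have hδl : δ l * (l ^ 2 + 3) = -(2 * l * u + 6 * s + 4 * a) := by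
      rw [hδ]
      exact div_mul_cancel₀ _ hl1
    have hul : u + l * δ l ≠ 0 := by
      intro h0
      apply hl3
      have : (u + l * δ l) * (l ^ 2 + 3) = 0 := by rw [h0, zero_mul]
      linear_combination (-1 : K) * this + l * hδl
    have hcon : (u + l * δ l) ^ 2 + 3 * (s + δ l) ^ 2 + 4 * a * (s + δ l) + 4 * b = 0 := by
      linear_combination hconic + δ l * hδl
    simp only [coe_filter, mem_univ, true_and, Set.mem_ofPred_eq]
    refine ⟨?_, ?_⟩
    · intro h
      apply hul
      have h3 : (2 : K) * ((s + δ l + (u + l * δ l)) / 2) = 2 * ((s + δ l - (u + l * δ l)) / 2) := by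
        rw [h]
      rw [mul_div_cancel₀ _ h2, mul_div_cancel₀ _ h2] at h3
      have h4 : (2 : K) * (u + l * δ l) = 0 := by linear_combination h3
      exact (mul_eq_zero.1 h4).resolve_left h2
    · set x := (s + δ l + (u + l * δ l)) / 2 with hx
      set y := (s + δ l - (u + l * δ l)) / 2 with hy
      have e1 : u + l * δ l = x - y := by
        rw [hx, hy]
        field_simp
        ring
      have e2 : s + δ l = x + y := by
        rw [hx, hy]
        field_simp
        ring
      rw [e1, e2] at hcon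
      have h4 : (4 : K) ≠ 0 := by
        have : (4 : K) = 2 * 2 := by norm_num
        rw [this]; exact mul_ne_zero h2 h2
      have h5 : (4 : K) * ((x ^ 3 + a * x ^ 2 + b * x + c) - (y ^ 3 + a * y ^ 2 + b * y + c)) = 0 := by
        linear_combination (x - y) * hcon
      exact sub_eq_zero.1 ((mul_eq_zero.1 h5).resolve_left h4)
  · intro l hl l' hl' heq
    have hl0 : P.eval l ≠ 0 := by simpa using hl
    have hl0' : P.eval l' ≠ 0 := by simpa using hl'
    have hev : ∀ l, P.eval l = (l ^ 2 + 3) * (2 * u * l + (6 * s + 4 * a)) *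
        (u * l ^ 2 + (6 * s + 4 * a) * l - 3 * u) := by
      intro l
      rw [hP]
      simp only [eval_mul, eval_add, eval_sub, eval_pow, eval_X, eval_C]
    rw [hev] at hl0
    have hl1 : l ^ 2 + 3 ≠ 0 := left_ne_zero_of_mul (left_ne_zero_of_mul hl0)
    have hl2 : 2 * u * l + (6 * s + 4 * a) ≠ 0 := right_ne_zero_of_mul (left_ne_zero_of_mul hl0)
    have hδ0 : δ l ≠ 0 := by
      rw [hδ]
      apply div_ne_zero _ hl1
      rw [neg_ne_zero]
      intro h; apply hl2; linear_combination h
    simp only [Prod.mk.injEq] at heq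
    obtain ⟨e1, e2⟩ := heq
    have e3 : (s + δ l + (u + l * δ l)) = (s + δ l' + (u + l' * δ l')) := by
      have := congrArg (fun z => z * 2) e1
      simpa only [div_mul_cancel₀ _ h2] using this
    have e4 : (s + δ l - (u + l * δ l)) = (s + δ l' - (u + l' * δ l')) := by
      have := congrArg (fun z => z * 2) e2
      simpa only [div_mul_cancel₀ _ h2] using this
    have e5 : δ l = δ l' := by
      have : (2 : K) * (δ l - δ l') = 0 := by linear_combination e3 + e4
      exact sub_eq_zero.1 ((mul_eq_zero.1 this).resolve_left h2)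
    have e6 : l * δ l = l' * δ l := by
      have : (2 : K) * (l * δ l - l' * δ l') = 0 := by linear_combination e3 - e4
      have h7 := sub_eq_zero.1 ((mul_eq_zero.1 this).resolve_left h2)
      rw [← e5] at h7
      exact h7
    exact mul_right_cancel₀ hδ0 e6

/-- A cubic polynomial function with one collision misses about one third of the values. -/
theorem missed (h2 : (2 : K) ≠ 0) (a b c : K) {x₀ y₀ : K} (hne : x₀ ≠ y₀)
    (hcol : x₀ ^ 3 + a * x₀ ^ 2 + b * x₀ + c = y₀ ^ 3 + a * y₀ ^ 2 + b * y₀ + c) :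
    Fintype.card K ≤ 3 * (univ.filter fun v : K =>
      ∀ x : K, x ^ 3 + a * x ^ 2 + b * x + c ≠ v).card + 5 := by
  have hc := collisions h2 a b c hne hcol
  set G : K → K := fun x => x ^ 3 + a * x ^ 2 + b * x + c with hG
  set ν : K → ℤ := fun v => ((univ.filter fun x : K => G x = v).card : ℤ) with hν
  have hν3 : ∀ v, ν v ≤ 3 := by
    intro v
    have h3 : (X ^ 3 + C a * X ^ 2 + C b * X + C (c - v) : K[X]).natDegree = 3 := by
      compute_degree!
    have h0 : (X ^ 3 + C a * X ^ 2 + C b * X + C (c - v) : K[X]) ≠ 0 := by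
      intro h; rw [h] at h3; simp at h3
    have : (univ.filter fun x : K => G x = v).card ≤ 3 := by
      rw [← h3]
      apply card_le_degree_of_subset_roots
      intro x hx
      rw [mem_val, mem_filter] at hx
      rw [mem_roots h0, IsRoot.def]
      simp only [eval_add, eval_mul, eval_pow, eval_X, eval_C]
      have := hx.2
      rw [hG] at this
      linear_combination this
    show ((univ.filter fun x : K => G x = v).card : ℤ) ≤ 3
    exact_mod_cast this
  have hpt : ∀ v, ν v * ν v - 4 * ν v + 3 ≤ 3 * (if ∀ x : K, G x ≠ v then 1 else 0) := by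
    intro v
    have h0 : 0 ≤ ν v := by positivity
    have h3 := hν3 v
    split_ifs with h
    · have : ν v = 0 := by
        rw [hν]
        simp only [Nat.cast_eq_zero, card_eq_zero]
        exact filter_eq_empty_iff.2 fun x _ => h x
      rw [this]; norm_num
    · push Not at h
      obtain ⟨x, hx⟩ := h
      have : 1 ≤ ν v := by
        rw [hν]
        have : 0 < (univ.filter fun x : K => G x = v).card :=
          card_pos.2 ⟨x, mem_filter.2 ⟨mem_univ _, hx⟩⟩
        simp only
        omega
      nlinarith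
  have hsum1 : ∑ v, ν v = Fintype.card K := by
    have := card_eq_sum_card_fiberwise (f := G) (s := (univ : Finset K)) (t := univ)
      (fun x _ => mem_coe.2 (mem_univ _))
    rw [card_univ] at this
    rw [this]
    push_cast
    rfl
  have hsum2 : ∑ v, ν v * ν v = ((univ.filter fun z : K × K => z.1 ≠ z.2 ∧
      G z.1 = G z.2).card : ℤ) + Fintype.card K := by
    have e1 : ∀ v, ν v * ν v = ∑ x : K, ∑ y : K, if G x = v then (if G y = v then 1 else 0) else 0 := by
      intro v
      rw [hν]
      simp only [card_filter]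
      push_cast
      rw [sum_mul_sum]
      refine sum_congr rfl fun x _ => sum_congr rfl fun y _ => ?_
      split_ifs <;> simp
    rw [sum_congr rfl fun v _ => e1 v, sum_comm]
    have e2 : ∀ x : K, ∑ v : K, ∑ y : K, (if G x = v then (if G y = v then 1 else 0) else 0 : ℤ) =
        ∑ y : K, ((if x ≠ y ∧ G x = G y then 1 else 0) + (if x = y then 1 else 0)) := by
      intro x
      rw [sum_comm]
      refine sum_congr rfl fun y _ => ?_
      rw [sum_ite_eq]
      simp only [mem_univ, if_true]
      by_cases hxy : x = y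
      · subst hxy; simp
      · simp [hxy, eq_comm]
    rw [sum_congr rfl fun x _ => e2 x]
    simp only [sum_add_distrib]
    congr 1
    · rw [card_filter, ← univ_product_univ, sum_product]
      push_cast
      rfl
    · simp
  have hmain : ∑ v, (ν v * ν v - 4 * ν v + 3) ≤ 3 * ((univ.filter fun v : K =>
      ∀ x : K, G x ≠ v).card : ℤ) := by
    rw [card_filter]
    push_cast
    rw [mul_sum]
    exact sum_le_sum fun v _ => hpt v
  rw [sum_add_distrib, sum_sub_distrib, ← mul_sum, hsum1, hsum2, sum_const, nsmul_eq_mul,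
    card_univ] at hmain
  have hc' : (Fintype.card K : ℤ) ≤ ((univ.filter fun z : K × K => z.1 ≠ z.2 ∧
      G z.1 = G z.2).card : ℤ) + 5 := by exact_mod_cast hc
  have : (Fintype.card K : ℤ) ≤ 3 * ((univ.filter fun v : K =>
      ∀ x : K, G x ≠ v).card : ℤ) + 5 := by linarith
  exact_mod_cast this

end cubic

end Pool.Agent.Lib.MP_89bcae_ag.Count14
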