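import Mathlib
import Pool.Agent.Lib.MP_89bcae_ag.DefsB7

/-!
# Simple collisions of integral polynomials
-/

open Polynomial

open scoped Classical

set_option linter.unusedSimpArgs false
set_option linter.unusedVariables false
set_option linter.unusedSectionVars false

namespace Pool.Agent.Lib.MP_89bcae_ag

/-- A simple collision modulo the prime `p` of polynomials with integral coefficients. -/
def IsCollisionZ8 (p : ℕ) (g D : ℤ[X]) : Prop :=
  ∃ (a : ℤ) (h : (ZMod p)[X]),
    D.map (Int.castRingHom (ZMod p)) = (X - C (a : ZMod p)) ^ 2 * h ∧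
    (((X - C (a : ZMod p)) * h).comp (g.map (Int.castRingHom (ZMod p)))).Separable ∧
    ¬ ((p : ℤ) ^ 2 ∣ D.eval a)

theorem isCollision7_of_int8 {p : ℕ} (hp : p.Prime) (R : Type*) [CommRing R] [IsDomain R]
    [IsLocalRing R] [Algebra ℤ R] [hP : (Ideal.span {(p : ℤ)}).IsPrime]
    [IsLocalization.AtPrime R (Ideal.span {(p : ℤ)})] {g D : ℤ[X]} (h : IsCollisionZ8 p g D) :
    IsCollision7 (g.map (algebraMap ℤ R)) (D.map (algebraMap ℤ R)) := by
  obtain ⟨a, h, hD, hsep, ha⟩ := h
  have hmax : IsLocalRing.maximalIdeal R = Ideal.span {(algebraMap ℤ R p)} := by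
    rw [← IsLocalization.AtPrime.map_eq_maximalIdeal (Ideal.span {(p : ℤ)}) R, Ideal.map_span,
      Set.image_singleton]
  have hp0 : ((p : ℕ) : IsLocalRing.ResidueField R) = 0 := by
    have h1 : IsLocalRing.residue R (algebraMap ℤ R p) = 0 := by
      rw [IsLocalRing.residue_eq_zero_iff, hmax]
      exact Ideal.mem_span_singleton_self _
    simpa using h1
  have : CharP (IsLocalRing.ResidueField R) p := (CharP.charP_iff_prime_eq_zero hp).mpr hp0
  let φ : ZMod p →+* IsLocalRing.ResidueField R := ZMod.castHom (dvd_refl p) _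
  have hφ : (IsLocalRing.residue R).comp (algebraMap ℤ R) = φ.comp (Int.castRingHom (ZMod p)) :=
    RingHom.ext_int _ _
  have hφa : IsLocalRing.residue R (algebraMap ℤ R a) = φ (a : ZMod p) := RingHom.congr_fun hφ a
  refine ⟨algebraMap ℤ R a, h.map φ, ?_, ?_, ?_⟩
  · rw [Polynomial.map_map, hφ, ← Polynomial.map_map, hD, hφa]
    simp
  · rw [Polynomial.map_map, hφ, ← Polynomial.map_map, hφa]
    have h1 := hsep.map (f := φ)
    rw [Polynomial.map_comp, Polynomial.map_mul, Polynomial.map_sub, map_X, map_C] at h1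
    exact h1
  · rw [hmax, Ideal.span_singleton_pow, Ideal.mem_span_singleton, eval_map,
      eval₂_at_apply]
    rintro ⟨q, hq⟩
    obtain ⟨⟨x, s⟩, hxs⟩ := IsLocalization.surj (Ideal.span {(p : ℤ)}).primeCompl q
    have hinj : Function.Injective (algebraMap ℤ R) :=
      IsLocalization.injective R (Ideal.primeCompl_le_nonZeroDivisors (Ideal.span {(p : ℤ)}))
    have h1 : D.eval a * s = (p : ℤ) ^ 2 * x := by
      apply hinj
      have h2 : algebraMap ℤ R (D.eval a) = algebraMap ℤ R p ^ 2 * q := by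
        rw [← hq]
      rw [map_mul, map_mul, map_pow, h2, ← hxs]
      ring
    have h3 : IsCoprime ((p : ℤ) ^ 2) (s : ℤ) := by
      apply IsCoprime.pow_left
      rw [Prime.coprime_iff_not_dvd (Nat.prime_iff_prime_int.mp hp)]
      intro h4
      exact s.2 (Ideal.mem_span_singleton.mpr h4)
    exact ha (h3.dvd_of_dvd_mul_right ⟨x, h1⟩)

end Pool.Agent.Lib.MP_89bcae_ag
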