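import Mathlib

/-!
# The two-adic Selmer group of an elliptic curve over `k̄(t)` and the Tate conjecture

Let `W` be an elliptic curve over `k(t)` given by a Weierstrass equation with coefficients in
`k[t]`, and let `X` be a smooth projective surface over `k` fibred over `ℙ¹` with generic fibre `W`.
Modulo the classes of the zero section and of the components of the fibres,
`H²(X̄, ℤ₂(1))` is the projective limit of the Selmer groups `Sel_{2ⁿ}(W / k̄(t))`
(classes in `H¹(k̄(t), W[2ⁿ])` which come from local points at every place of `k̄(t)`), and the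
cycle class map is the Kummer map of `W(k(t))`.
-/

open Polynomial WeierstrassCurve WeierstrassCurve.Affine IsDedekindDomain

open scoped Classical

namespace Pool.Agent.Lib.MP_89bcae_ag

universe u v

section General

variable {R : Type*} [CommRing R] (F Ω : Type*) [Field F] [Field Ω] [Algebra R F] [Algebra R Ω]
  [Algebra F Ω] [IsScalarTower R F Ω]

/-- A continuous 1-cocycle of `Gal(Ω/F)` with values in the two-adic Tate module of `W(Ω)`:
its `n`-th component is a continuous 1-cocycle with values in `W(Ω)[2ⁿ]`. -/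
structure TateCocycle (W : Affine R) where
  /-- the component with values in `W(Ω)[2ⁿ]` -/
  level : ℕ → (Ω ≃ₐ[F] Ω) → (W.baseChange Ω).Point
  level_zero : ∀ g, level 0 g = 0
  two_nsmul_level : ∀ n g, 2 • level (n + 1) g = level n g
  level_mul : ∀ n g h, level n (g * h) = level n g + Point.map (g : Ω →ₐ[F] Ω) (level n h)
  isLocallyConstant_level : ∀ n, IsLocallyConstant (level n)

variable {F Ω}

/-- The class of the cocycle `c` in `H¹(L, W)` is trivial, for an extension `L` of `F`: for every
separable closure `M` of `L` and every embedding `j` of `Ω` in `M` there is a point `Q` over `M`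
such that `j(c(g|_Ω)) = g(Q) - Q` for all `g` in the Galois group of `M / L`. -/
def IsLocallyTrivial (L : Type v) [Field L] [Algebra F L] {W : Affine R}
    (c : (Ω ≃ₐ[F] Ω) → (W.baseChange Ω).Point) : Prop :=
  ∀ (M : Type v) [Field M] [Algebra L M] [IsSepClosure L M] [Algebra F M] [IsScalarTower F L M]
    [Algebra R M] [IsScalarTower R F M] (j : Ω →ₐ[F] M), ∃ Q : (W.baseChange M).Point,
    ∀ (g : M ≃ₐ[L] M) (g' : Ω ≃ₐ[F] Ω), (∀ x, j (g' x) = g (j x)) →
      Point.map j (c g') = Point.map (g.restrictScalars F : M →ₐ[F] M) Q - Q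

/-- The class of `c` in `H¹(F, T₂W)` is fixed, up to torsion, by all automorphisms `γ` of `Ω` which
fix the base ring `R` pointwise: some positive multiple `m (γ c - c)` is a coboundary. Here
`(γ c)(h) = γ (c (γ⁻¹ h γ))`. -/
def TateCocycle.IsInvariantModTorsion {W : Affine R} (c : TateCocycle F Ω W) : Prop :=
  ∀ γ : Ω ≃ₐ[R] Ω, ∃ m : ℕ, 0 < m ∧ ∀ n, ∃ A : (W.baseChange Ω).Point, 2 ^ n • A = 0 ∧
    ∀ g h : Ω ≃ₐ[F] Ω, (∀ x, γ (g x) = h (γ x)) →
      m • (Point.map (γ : Ω →ₐ[R] Ω) (c.level n g) - c.level n h) =
        Point.map (h : Ω →ₐ[F] Ω) A - A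

/-- The class of `c.level n` in `H¹(F, W[2ⁿ])` is the Kummer class of a point rational over the
subfield `K` of `Ω`. -/
def TateCocycle.IsKummerOf (K : Type*) [Field K] [Algebra R K] {W : Affine R}
    (c : TateCocycle F Ω W) (n : ℕ) : Prop :=
  ∃ (f : K →ₐ[R] Ω) (P : (W.baseChange K).Point) (Q : (W.baseChange Ω).Point),
    2 ^ n • Q = Point.map f P ∧
      ∀ g : Ω ≃ₐ[F] Ω, c.level n g = Point.map (g : Ω →ₐ[F] Ω) Q - Q

end General

section Geometric

variable {k : Type u} [Field k]

/-- The natural map `k[t] → k̄(t)`. -/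
noncomputable instance geomAlgebra : Algebra k[X] (RatFunc (AlgebraicClosure k)) :=
  ((algebraMap (AlgebraicClosure k)[X] (RatFunc (AlgebraicClosure k))).comp
    (mapRingHom (algebraMap k (AlgebraicClosure k)))).toAlgebra

/-- The cocycle `c` lies in the two-adic Selmer group of `W` over `k̄(t)`: at every level its class
becomes trivial in `H¹(L, W)` for the completion `L` of `k̄(t)` at every place. -/
def IsSelmer {Ω : Type u} [Field Ω] [Algebra (RatFunc (AlgebraicClosure k)) Ω] [Algebra k[X] Ω]
    [IsScalarTower k[X] (RatFunc (AlgebraicClosure k)) Ω] {W : Affine k[X]}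
    (c : TateCocycle (RatFunc (AlgebraicClosure k)) Ω W) : Prop :=
  ∀ n : ℕ, (∀ v : HeightOneSpectrum (AlgebraicClosure k)[X],
    IsLocallyTrivial (v.adicCompletion (RatFunc (AlgebraicClosure k))) (c.level n)) ∧
    IsLocallyTrivial (RatFunc.CompletionAtInfty (AlgebraicClosure k)) (c.level n)

/-- The Tate conjecture at the prime two for the elliptic surface over `k` with generic fibre
`W / k(t)`: every class of the two-adic Selmer group of `W` over `k̄(t)` which is fixed by
`Gal(k̄/k)` up to torsion is, modulo every power of two, the class of a `k(t)`-rational point. -/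
def TateAtTwo (W : Affine k[X]) : Prop :=
  ∀ (Ω : Type u) [Field Ω] [Algebra (RatFunc (AlgebraicClosure k)) Ω]
    [IsSepClosure (RatFunc (AlgebraicClosure k)) Ω] [Algebra k[X] Ω]
    [IsScalarTower k[X] (RatFunc (AlgebraicClosure k)) Ω]
    (c : TateCocycle (RatFunc (AlgebraicClosure k)) Ω W),
    IsSelmer c → c.IsInvariantModTorsion → ∀ n, c.IsKummerOf (RatFunc k) n

end Geometric

end Pool.Agent.Lib.MP_89bcae_ag
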