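import Mathlib
import Pool.Agent.Lib.MP_89bcae_ag.Defs
import Pool.Agent.Lib.MP_89bcae_ag.Local

/-!
# Dividing a Tate module cocycle by two
-/

open Polynomial WeierstrassCurve WeierstrassCurve.Affine

open scoped Classical

namespace Pool.Agent.Lib.MP_89bcae_ag

section Basic

variable {R F Ω : Type*} [CommRing R] [Field F] [Field Ω] [Algebra R F] [Algebra R Ω]
  [Algebra F Ω] [IsScalarTower R F Ω] {W : Affine R}

/-- The stabilizer of an algebraic element is open. -/
lemma isLocallyConstant_apply [Algebra.IsAlgebraic F Ω] (x : Ω) :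
    IsLocallyConstant (fun g : Ω ≃ₐ[F] Ω => g x) := by
  rw [IsLocallyConstant.iff_exists_open]
  intro g
  have hfin : FiniteDimensional F (IntermediateField.adjoin F {x}) :=
    IntermediateField.adjoin.finiteDimensional (Algebra.IsIntegral.isIntegral x)
  have hopen := IntermediateField.fixingSubgroup_isOpen (IntermediateField.adjoin F {x})
  refine ⟨(fun h => g⁻¹ * h) ⁻¹' ((IntermediateField.adjoin F {x}).fixingSubgroup :
    Set (Ω ≃ₐ[F] Ω)), hopen.preimage (continuous_const_mul g⁻¹), ?_, ?_⟩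
  · simp only [Set.mem_preimage, inv_mul_cancel]
    exact Subgroup.one_mem _
  · intro h hh
    have h1 := (IntermediateField.mem_fixingSubgroup_iff _ _).mp hh x
      (IntermediateField.mem_adjoin_simple_self F x)
    have h2 : g ((g⁻¹ * h) x) = g x := by rw [h1]
    rwa [← AlgEquiv.mul_apply, mul_inv_cancel_left] at h2

lemma isLocallyConstant_map [Algebra.IsAlgebraic F Ω] (Q : (W.baseChange Ω).Point) :
    IsLocallyConstant (fun g : Ω ≃ₐ[F] Ω => Point.map (W' := W) (g : Ω →ₐ[F] Ω) Q) := by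
  rcases Q with _ | ⟨x, y, h⟩
  · exact IsLocallyConstant.const 0
  · have h1 := isLocallyConstant_apply (F := F) x
    have h2 := isLocallyConstant_apply (F := F) y
    rw [IsLocallyConstant.iff_exists_open] at h1 h2 ⊢
    intro g
    obtain ⟨U, hU, hgU, h1'⟩ := h1 g
    obtain ⟨V, hV, hgV, h2'⟩ := h2 g
    refine ⟨U ∩ V, hU.inter hV, ⟨hgU, hgV⟩, ?_⟩
    intro h hh
    rw [Point.map_some, Point.map_some]
    simp only [Point.some.injEq]
    exact ⟨h1' h hh.1, h2' h hh.2⟩

/-- A point fixed by the Galois group is rational. -/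
lemma exists_point_of_fixed [IsGalois F Ω] (Q : (W.baseChange Ω).Point)
    (h : ∀ g : Ω ≃ₐ[F] Ω, Point.map (W' := W) (g : Ω →ₐ[F] Ω) Q = Q) :
    ∃ P : (W.baseChange F).Point, Point.map (W' := W) (Algebra.ofId F Ω) P = Q := by
  rcases Q with _ | ⟨x, y, hxy⟩
  · exact ⟨0, rfl⟩
  · have h' : ∀ g : Ω ≃ₐ[F] Ω, g x = x ∧ g y = y := by
      intro g
      have := h g
      rw [Point.map_some] at this
      simp only [Point.some.injEq] at this
      exact this
    obtain ⟨x₀, hx₀⟩ := exists_of_fixed (F := F) (x := x) (fun g => (h' g).1)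
    obtain ⟨y₀, hy₀⟩ := exists_of_fixed (F := F) (x := y) (fun g => (h' g).2)
    subst hx₀ hy₀
    have hN : (W.baseChange F).Nonsingular x₀ y₀ :=
      (W.baseChange_nonsingular (f := Algebra.ofId F Ω) (Algebra.ofId F Ω).injective x₀ y₀).mp hxy
    exact ⟨.some x₀ y₀ hN, rfl⟩

/-- A point of `W` rational over `K = Frac R` is fixed by all automorphisms over `R`. -/
lemma map_rational {K : Type*} [Field K] [Algebra R K] [IsFractionRing R K] (f : K →ₐ[R] Ω)
    (P : (W.baseChange K).Point) (γ : Ω →ₐ[R] Ω) :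
    Point.map (W' := W) γ (Point.map (W' := W) f P) = Point.map (W' := W) f P := by
  rw [Point.map_map]
  have : Subsingleton (K →ₐ[R] Ω) :=
    IsLocalization.algHom_subsingleton (nonZeroDivisors R)
  rw [Subsingleton.elim (γ.comp f) f]

/-- A sequence of successive halves. -/
lemma exists_seq {A : Type*} [AddCommGroup A] (h : ∀ P : A, ∃ Q, Q + Q = P) (P Q : A)
    (hQ : Q + Q = P) : ∃ q : ℕ → A, q 0 = P ∧ q 1 = Q ∧ ∀ n, q (n + 1) + q (n + 1) = q n := by
  choose f hf using h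
  refine ⟨fun n => Nat.casesOn n P (fun m => f^[m] Q), rfl, rfl, ?_⟩
  intro n
  cases n with
  | zero => exact hQ
  | succ m =>
    change f^[m + 1] Q + f^[m + 1] Q = f^[m] Q
    rw [Function.iterate_succ_apply']
    exact hf _

lemma two_pow_seq {A : Type*} [AddCommGroup A] {q : ℕ → A}
    (h : ∀ n, q (n + 1) + q (n + 1) = q n) (n : ℕ) : 2 ^ n • q n = q 0 := by
  induction n with
  | zero => simp
  | succ m ih => rw [pow_succ, mul_smul, two_nsmul, h, ih]

end Basic

section Half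

variable {R F Ω : Type*} [CommRing R] [Field F] [Field Ω] [Algebra R F] [Algebra R Ω]
  [Algebra F Ω] [IsScalarTower R F Ω] {W : Affine R}

/-- The quotient by two of `c - δ(P)`, where `P = q 0` and `c` agrees with `δ(P)` modulo two. -/
noncomputable def halfCocycle [IsGalois F Ω] (c : TateCocycle F Ω W)
    (q : ℕ → (W.baseChange Ω).Point) (hq : ∀ n, q (n + 1) + q (n + 1) = q n)
    (h1 : ∀ g : Ω ≃ₐ[F] Ω, c.level 1 g = Point.map (g : Ω →ₐ[F] Ω) (q 1) - q 1) :
    TateCocycle F Ω W where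
  level n g := c.level (n + 1) g - (Point.map (g : Ω →ₐ[F] Ω) (q (n + 1)) - q (n + 1))
  level_zero g := by rw [zero_add, h1, sub_self]
  two_nsmul_level n g := by
    rw [smul_sub, c.two_nsmul_level, smul_sub, ← map_nsmul, two_nsmul (q (n + 1 + 1)), hq]
  level_mul n g h := by
    have e : Point.map (W' := W) ((g * h : Ω ≃ₐ[F] Ω) : Ω →ₐ[F] Ω) (q (n + 1)) =
        Point.map (g : Ω →ₐ[F] Ω) (Point.map (h : Ω →ₐ[F] Ω) (q (n + 1))) := by
      rw [Point.map_map]; rfl
    rw [c.level_mul, e, map_sub, map_sub]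
    abel
  isLocallyConstant_level n :=
    (c.isLocallyConstant_level (n + 1)).sub ((isLocallyConstant_map _).sub
      (IsLocallyConstant.const _))

lemma level_two_pow (c : TateCocycle F Ω W) (n : ℕ) (g : Ω ≃ₐ[F] Ω) : 2 ^ n • c.level n g = 0 := by
  induction n with
  | zero => rw [c.level_zero, smul_zero]
  | succ m ih => rw [pow_succ, mul_smul, c.two_nsmul_level, ih]

/-- Invariance up to torsion is inherited. -/
lemma half_invariant [IsGalois F Ω] (c : TateCocycle F Ω W)
    (q : ℕ → (W.baseChange Ω).Point) (hq : ∀ n, q (n + 1) + q (n + 1) = q n)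
    (h1 : ∀ g : Ω ≃ₐ[F] Ω, c.level 1 g = Point.map (g : Ω →ₐ[F] Ω) (q 1) - q 1)
    (hfix : ∀ γ : Ω ≃ₐ[R] Ω, Point.map (γ : Ω →ₐ[R] Ω) (q 0) = q 0)
    (hc : c.IsInvariantModTorsion) : (halfCocycle c q hq h1).IsInvariantModTorsion := by
  intro γ
  obtain ⟨m, hm, H⟩ := hc γ
  refine ⟨2 * m, by positivity, fun n => ?_⟩
  obtain ⟨A, hA, HA⟩ := H (n + 1)
  set B := Point.map (γ : Ω →ₐ[R] Ω) (q (n + 1)) - q (n + 1) with hB
  refine ⟨2 • (A - m • B), ?_, ?_⟩
  · have hB' : 2 ^ (n + 1) • B = 0 := by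
      rw [hB, smul_sub, ← map_nsmul, two_pow_seq hq, hfix, sub_self]
    rw [← mul_smul, ← pow_succ, smul_sub, hA, smul_comm, hB', smul_zero, sub_zero]
  · intro g h hgh
    have e1 : Point.map (W' := W) (γ : Ω →ₐ[R] Ω) (Point.map (g : Ω →ₐ[F] Ω) (q (n + 1))) =
        Point.map (h : Ω →ₐ[F] Ω) (Point.map (γ : Ω →ₐ[R] Ω) (q (n + 1))) := by
      rcases q (n + 1) with _ | ⟨x, y, hxy⟩
      · rfl
      · rw [Point.map_some, Point.map_some, Point.map_some, Point.map_some]
        simp only [Point.some.injEq]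
        exact ⟨hgh x, hgh y⟩
    have e2 := HA g h hgh
    change (2 * m) • (Point.map (γ : Ω →ₐ[R] Ω) (c.level (n + 1) g -
      (Point.map (g : Ω →ₐ[F] Ω) (q (n + 1)) - q (n + 1))) - (c.level (n + 1) h -
      (Point.map (h : Ω →ₐ[F] Ω) (q (n + 1)) - q (n + 1)))) = _
    have e3 : Point.map (γ : Ω →ₐ[R] Ω) (c.level (n + 1) g -
      (Point.map (g : Ω →ₐ[F] Ω) (q (n + 1)) - q (n + 1))) - (c.level (n + 1) h -
      (Point.map (h : Ω →ₐ[F] Ω) (q (n + 1)) - q (n + 1))) =
      (Point.map (γ : Ω →ₐ[R] Ω) (c.level (n + 1) g) - c.level (n + 1) h) -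
        (Point.map (h : Ω →ₐ[F] Ω) B - B) := by
      rw [map_sub, map_sub, e1, hB, map_sub]
      abel
    have e4 : Point.map (W' := W) (h : Ω →ₐ[F] Ω) (2 • (A - m • B)) =
        2 • (Point.map (h : Ω →ₐ[F] Ω) A - m • Point.map (h : Ω →ₐ[F] Ω) B) := by
      rw [map_nsmul, map_sub, map_nsmul]
    rw [e3, mul_smul, smul_sub m, e2, e4]
    generalize Point.map (W' := W) (h : Ω →ₐ[F] Ω) A = A'
    generalize Point.map (W' := W) (h : Ω →ₐ[F] Ω) B = B'
    rw [smul_sub m, ← smul_sub 2]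
    congr 1
    abel

/-- The Selmer condition is inherited. -/
lemma half_selmer [IsGalois F Ω] (L : Type*) [Field L] [Algebra F L] (c : TateCocycle F Ω W)
    (q : ℕ → (W.baseChange Ω).Point) (hq : ∀ n, q (n + 1) + q (n + 1) = q n)
    (h1 : ∀ g : Ω ≃ₐ[F] Ω, c.level 1 g = Point.map (g : Ω →ₐ[F] Ω) (q 1) - q 1)
    (n : ℕ) (hc : IsLocallyTrivial L (c.level (n + 1))) :
    IsLocallyTrivial L ((halfCocycle c q hq h1).level n) := by
  intro M _ _ _ _ _ _ _ j
  obtain ⟨Q, HQ⟩ := hc M j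
  refine ⟨Q - Point.map j (q (n + 1)), fun g g' hg => ?_⟩
  change Point.map (W' := W) j (c.level (n + 1) g' -
    (Point.map (g' : Ω →ₐ[F] Ω) (q (n + 1)) - q (n + 1))) = _
  have e1 : Point.map (W' := W) j (Point.map (g' : Ω →ₐ[F] Ω) (q (n + 1))) =
      Point.map (W' := W) (g.restrictScalars F : M →ₐ[F] M)
        (Point.map j (q (n + 1))) := by
    rcases q (n + 1) with _ | ⟨x, y, hxy⟩
    · rfl
    · rw [Point.map_some, Point.map_some, Point.map_some, Point.map_some]
      simp only [Point.some.injEq]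
      exact ⟨hg x, hg y⟩
  rw [map_sub, map_sub, HQ g g' hg, e1, map_sub]
  abel

/-- If all invariant classes satisfying `S` are, modulo two, Kummer classes of `K`-rational points,
then they are Kummer classes of `K`-rational points modulo all powers of two. -/
theorem isKummerOf_of_level_one [IsGalois F Ω] {K : Type*} [Field K] [Algebra R K]
    [IsFractionRing R K] [Nonempty (K →ₐ[R] Ω)]
    (hdiv : ∀ P : (W.baseChange Ω).Point, ∃ Q, Q + Q = P)
    (S : TateCocycle F Ω W → Prop)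
    (hS : ∀ c q hq h1, S c → S (halfCocycle c q hq h1))
    (key : ∀ c : TateCocycle F Ω W, S c → c.IsInvariantModTorsion → c.IsKummerOf K 1)
    (n : ℕ) : ∀ c : TateCocycle F Ω W, S c → c.IsInvariantModTorsion → c.IsKummerOf K n := by
  induction n with
  | zero =>
    intro c _ _
    obtain ⟨f⟩ := (inferInstance : Nonempty (K →ₐ[R] Ω))
    refine ⟨f, 0, 0, ?_, fun g => ?_⟩
    · rw [smul_zero, map_zero]
    · rw [c.level_zero, map_zero, sub_zero]
  | succ n ih =>
    intro c hSc hc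
    obtain ⟨f, P, Q, hPQ, hQ⟩ := key c hSc hc
    rw [pow_one, two_nsmul] at hPQ
    obtain ⟨q, hq0, hq1, hq⟩ := exists_seq hdiv _ Q hPQ
    have h1 : ∀ g : Ω ≃ₐ[F] Ω, c.level 1 g = Point.map (g : Ω →ₐ[F] Ω) (q 1) - q 1 := by
      intro g; rw [hq1]; exact hQ g
    have hfix : ∀ γ : Ω ≃ₐ[R] Ω, Point.map (W' := W) (γ : Ω →ₐ[R] Ω) (q 0) = q 0 := by
      intro γ; rw [hq0]; exact map_rational f P γ
    obtain ⟨f', P', Q', hPQ', hQ'⟩ := ih (halfCocycle c q hq h1) (hS c q hq h1 hSc)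
      (half_invariant c q hq h1 hfix hc)
    have hff : f' = f := by
      have : Subsingleton (K →ₐ[R] Ω) :=
        IsLocalization.algHom_subsingleton (nonZeroDivisors R)
      exact Subsingleton.elim _ _
    subst hff
    refine ⟨f', 2 • P' + P, Q' + q (n + 1), ?_, fun g => ?_⟩
    · rw [smul_add, two_pow_seq hq, hq0, map_add, map_nsmul, ← hPQ', pow_succ, mul_comm, mul_smul]
    · have h2 : c.level (n + 1) g - (Point.map (g : Ω →ₐ[F] Ω) (q (n + 1)) - q (n + 1)) =
          Point.map (g : Ω →ₐ[F] Ω) Q' - Q' := hQ' g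
      rw [sub_eq_iff_eq_add] at h2
      rw [h2, map_add]
      abel

end Half

end Pool.Agent.Lib.MP_89bcae_ag
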