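import Mathlib
import Pool.Agent.Lib.MP_89bcae_ag.Defs
import Pool.Agent.Lib.MP_89bcae_ag.Local
import Pool.Agent.Lib.MP_89bcae_ag.Galois

/-!
# Parities of the multiplicities of a polynomial representing a quadratic character
-/

open Polynomial WeierstrassCurve WeierstrassCurve.Affine

open scoped Classical

namespace Pool.Agent.Lib.MP_89bcae_ag

section Par

variable {kb : Type*} [Field kb]

/-- The parity of the multiplicity of `α` as a root of `P`. -/
noncomputable def par (P : kb[X]) (α : kb) : ZMod 2 := (P.rootMultiplicity α : ZMod 2)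

lemma par_mul {P Q : kb[X]} (hP : P ≠ 0) (hQ : Q ≠ 0) (α : kb) :
    par (P * Q) α = par P α + par Q α := by
  unfold par
  rw [rootMultiplicity_mul (mul_ne_zero hP hQ), Nat.cast_add]

lemma par_sq {P : kb[X]} (hP : P ≠ 0) (α : kb) : par (P ^ 2) α = 0 := by
  rw [pow_two, par_mul hP hP, CharTwo.add_self_eq_zero]

lemma par_map (σ : kb ≃+* kb) (P : kb[X]) (α : kb) :
    par (P.map (σ : kb →+* kb)) (σ α) = par P α := by
  unfold par
  exact congrArg _ (eq_rootMultiplicity_map (p := P) (f := (σ : kb →+* kb)) σ.injective α).symm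

lemma par_eq_zero_iff {P : kb[X]} {α : kb} : par P α = 0 ↔ Even (P.rootMultiplicity α) :=
  ZMod.natCast_eq_zero_iff_even

/-- The degree is the sum of the multiplicities, modulo two. -/
lemma sum_par [IsAlgClosed kb] (P : kb[X]) (S : Finset kb) (hS : ∀ α, α ∉ S → par P α = 0) :
    ∑ α ∈ S, par P α = (P.natDegree : ZMod 2) := by
  have h1 : P.natDegree = ∑ α ∈ P.roots.toFinset, P.rootMultiplicity α := by
    rw [← IsAlgClosed.card_roots_eq_natDegree, ← Multiset.toFinset_sum_count_eq]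
    exact Finset.sum_congr rfl fun α _ => count_roots P
  rw [h1, Nat.cast_sum]
  have h2 : ∀ α, α ∉ P.roots.toFinset → par P α = 0 := by
    intro α hα
    rw [Multiset.mem_toFinset, ← Multiset.count_eq_zero, count_roots] at hα
    unfold par
    rw [hα, Nat.cast_zero]
  have h3 : ∑ α ∈ S, par P α = ∑ α ∈ S ∪ P.roots.toFinset, par P α :=
    Finset.sum_subset Finset.subset_union_left fun α _ hα => hS α hα
  have h4 : ∑ α ∈ P.roots.toFinset, par P α = ∑ α ∈ S ∪ P.roots.toFinset, par P α :=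
    Finset.sum_subset Finset.subset_union_right fun α _ hα => h2 α hα
  rw [h3, ← h4]
  rfl

/-- A polynomial all of whose multiplicities are even is a square. -/
lemma exists_sq_of_par [IsAlgClosed kb] (P : kb[X]) (h : ∀ α, par P α = 0) :
    ∃ Q : kb[X], P = Q ^ 2 := by
  obtain ⟨c, hc⟩ := IsAlgClosed.exists_pow_nat_eq P.leadingCoeff (n := 2) two_pos
  refine ⟨C c * ∏ α ∈ P.roots.toFinset, (X - C α) ^ (P.rootMultiplicity α / 2), ?_⟩
  have h1 : P = C P.leadingCoeff * (P.roots.map fun α => X - C α).prod :=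
    (IsAlgClosed.splits P).eq_prod_roots
  have h2 : (P.roots.map fun α => X - C α).prod =
      ∏ α ∈ P.roots.toFinset, (X - C α) ^ P.rootMultiplicity α := by
    rw [Finset.prod_multiset_map_count]
    exact Finset.prod_congr rfl fun α _ => by rw [count_roots]
  rw [mul_pow, ← C_pow, hc, ← Finset.prod_pow]
  conv_lhs => rw [h1, h2]
  congr 1
  refine Finset.prod_congr rfl fun α _ => ?_
  rw [← pow_mul, Nat.div_mul_cancel (even_iff_two_dvd.mp (par_eq_zero_iff.mp (h α)))]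

end Par

section Orbit

variable {k kb : Type*} [Field k] [Field kb] [Algebra k kb]

/-- A finite set of odd cardinality on which the automorphism group acts transitively. -/
structure OddOrbit (k : Type*) {kb : Type*} [Field k] [Field kb] [Algebra k kb]
    (X : Finset kb) : Prop where
  odd : Odd X.card
  stable : ∀ (σ : kb ≃ₐ[k] kb), ∀ α ∈ X, σ α ∈ X
  trans : ∀ α ∈ X, ∀ β ∈ X, ∃ σ : kb ≃ₐ[k] kb, σ α = β

lemma odd_mul_eq_zero {n : ℕ} (hn : Odd n) {κ : ZMod 2} (h : (n : ZMod 2) * κ = 0) : κ = 0 := by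
  rw [ZMod.natCast_eq_one_iff_odd.mpr hn, one_mul] at h
  exact h

/-- The odd orbit lemma. -/
lemma OddOrbit.const {X : Finset kb} (hX : OddOrbit k X) {f : kb → ZMod 2}
    (h : ∀ σ : kb ≃ₐ[k] kb, ∀ α ∈ X, ∀ β ∈ X, f (σ α) + f α = f (σ β) + f β) :
    ∀ α ∈ X, ∀ β ∈ X, f α = f β := by
  intro α hα β hβ
  obtain ⟨σ, rfl⟩ := hX.trans α hα β hβ
  have h1 : ∑ x ∈ X, (f (σ x) + f x) = ∑ _x ∈ X, (f (σ α) + f α) :=
    Finset.sum_congr rfl fun x hx => h σ x hx α hα
  have h2 : ∑ x ∈ X, f (σ x) = ∑ x ∈ X, f x := by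
    refine Finset.sum_bij (fun x _ => σ x) (fun x hx => hX.stable σ x hx)
      (fun x _ y _ hxy => σ.injective hxy) (fun y hy => ?_) (fun x _ => rfl)
    exact ⟨σ.symm y, hX.stable σ.symm y hy, σ.apply_symm_apply y⟩
  rw [Finset.sum_add_distrib, h2, CharTwo.add_self_eq_zero, Finset.sum_const, nsmul_eq_mul] at h1
  have h3 := odd_mul_eq_zero hX.odd h1.symm
  rw [CharTwo.add_eq_zero] at h3
  exact h3.symm

end Orbit

section PRep

variable {k kb F Ω : Type*} [Field k] [Field kb] [Algebra k kb] [Algebra.IsAlgebraic k kb]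
  [IsAlgClosed kb] [Field F] [Algebra kb[X] F] [IsFractionRing kb[X] F] [Algebra k[X] F]
  [Field Ω] [Algebra F Ω] [Algebra k[X] Ω] [IsScalarTower k[X] F Ω] [Algebra kb[X] Ω]
  [IsScalarTower kb[X] F Ω]

variable {W : Affine k[X]} {a b c : k[X]}

/-- The polynomial `P` represents the quadratic character `g ↦ e₂(s(g), (a, 0))`. -/
def PRep (hΩ : SplitAt Ω W a b c) (s : (Ω ≃ₐ[F] Ω) → (W.baseChange Ω).Point) (P : kb[X]) :
    Prop :=
  Rep (F := F) hΩ s (algebraMap kb[X] F P)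

variable {hΩ : SplitAt Ω W a b c} {s s' : (Ω ≃ₐ[F] Ω) → (W.baseChange Ω).Point} {P P' : kb[X]}

omit [Algebra.IsAlgebraic k kb] [IsAlgClosed kb] [IsScalarTower k[X] F Ω]
  [IsScalarTower kb[X] F Ω] [Algebra kb[X] Ω] [IsFractionRing kb[X] F] [Algebra k kb]
  [Algebra k[X] F] in
lemma PRep.ne_zero (h : PRep hΩ s P) : P ≠ 0 := by
  rintro rfl
  exact Rep.ne_zero hΩ h (map_zero _)

omit [Algebra.IsAlgebraic k kb] [IsAlgClosed kb] [IsScalarTower k[X] F Ω]
  [IsScalarTower kb[X] F Ω] [Algebra kb[X] Ω] [IsFractionRing kb[X] F] [Algebra k kb]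
  [Algebra k[X] F] in
lemma PRep.mul (h : PRep hΩ s P) (h' : PRep hΩ s' P') (hs : ∀ g, s g + s g = 0)
    (hs' : ∀ g, s' g + s' g = 0) : PRep hΩ (fun g => s g + s' g) (P * P') := by
  unfold PRep
  rw [map_mul]
  exact Rep.mul hΩ h h' hs hs'

omit [Algebra.IsAlgebraic k kb] [IsAlgClosed kb] [IsScalarTower k[X] F Ω]
  [IsScalarTower kb[X] F Ω] [Algebra kb[X] Ω] [Algebra k kb]
  [Algebra k[X] F] in
lemma PRep.par_eq [IsGalois F Ω] (h : PRep hΩ s P) (h' : PRep hΩ s P') (α : kb) :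
    par P α = par P' α := by
  obtain ⟨w, hw, e⟩ := Rep.unique hΩ h h'
  rw [← map_mul] at e
  obtain ⟨v, rfl⟩ := IsIntegrallyClosed.exists_algebraMap_eq_of_isIntegral_pow (R := kb[X])
    (K := F) (x := w) two_pos (by rw [← e]; exact isIntegral_algebraMap)
  rw [← map_pow] at e
  have e' := IsFractionRing.injective kb[X] F e
  have hv : v ≠ 0 := by rintro rfl; exact hw (map_zero _)
  have h1 := par_mul h.ne_zero h'.ne_zero α
  rw [e', par_sq hv] at h1
  exact (CharTwo.add_eq_zero.mp h1.symm)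

omit [Algebra.IsAlgebraic k kb] [IsAlgClosed kb] [IsScalarTower k[X] F Ω]
  [IsScalarTower kb[X] F Ω] [Algebra kb[X] Ω] [Algebra k kb]
  [Algebra k[X] F] in
lemma exists_pRep [IsGalois F Ω] (hΩ : SplitAt Ω W a b c) (hs : ∀ g, s g + s g = 0)
    (hmul : ∀ g h, s (g * h) = s g + s h) (hc : IsLocallyConstant s) :
    ∃ P : kb[X], PRep hΩ s P := by
  obtain ⟨d, hd⟩ := exists_rep hΩ hs hmul hc
  obtain ⟨p, q, hq, rfl⟩ := IsFractionRing.div_surjective (A := kb[X]) d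
  have hq0 : algebraMap kb[X] F q ≠ 0 := by
    intro h
    exact (nonZeroDivisors.ne_zero hq) (IsFractionRing.injective kb[X] F (by rw [h, map_zero]))
  refine ⟨p * q, ?_⟩
  have h1 := Rep.mul_sq hΩ hd hq0
  unfold PRep
  convert h1 using 1
  rw [map_mul]
  field_simp

omit [Algebra.IsAlgebraic k kb] [IsAlgClosed kb] [IsScalarTower k[X] F Ω]
  [IsScalarTower kb[X] F Ω] [Algebra kb[X] Ω] [IsFractionRing kb[X] F] [Algebra k kb]
  [Algebra k[X] F] in
lemma PRep.of_eq (h : PRep hΩ s P) (e : ∀ g, s g = s' g) : PRep hΩ s' P := Rep.of_eq hΩ h e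

/-- The polynomial representing a conjugate cocycle. -/
lemma PRep.conj (hk : ∀ p : k[X], algebraMap k[X] F p = algebraMap kb[X] F (p.map (algebraMap k kb)))
    (h : PRep hΩ s P) (γ : Ω ≃ₐ[k[X]] Ω) (σ : kb ≃ₐ[k] kb)
    (hσ : ∀ p : kb[X], γ (algebraMap kb[X] Ω p) = algebraMap kb[X] Ω (p.map (σ : kb →+* kb)))
    (hs : ∀ g h : Ω ≃ₐ[F] Ω, (∀ x, γ (g x) = h (γ x)) →
      s' h = Point.map (γ : Ω →ₐ[k[X]] Ω) (s g)) : PRep hΩ s' (P.map (σ : kb →+* kb)) := by
  obtain ⟨β, hβ, h1, h2⟩ := h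
  refine ⟨γ β, (map_ne_zero γ).mpr hβ, ?_, fun h => ?_⟩
  · rw [← map_pow, h1, ← IsScalarTower.algebraMap_apply, hσ, ← IsScalarTower.algebraMap_apply]
  · obtain ⟨g, hg⟩ := exists_conj (kb := kb) (F := F) hk γ h
    rw [← hg, h2, map_mul, hs g h hg, chi_map (γ : Ω →ₐ[k[X]] Ω) hΩ hΩ]
    simp

/-- Commutation of Galois actions on points. -/
lemma map_conj (γ : Ω ≃ₐ[k[X]] Ω) {g h : Ω ≃ₐ[F] Ω} (hgh : ∀ x, γ (g x) = h (γ x))
    (A : (W.baseChange Ω).Point) :
    Point.map (W' := W) (γ : Ω →ₐ[k[X]] Ω) (Point.map (g : Ω →ₐ[F] Ω) A) =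
      Point.map (h : Ω →ₐ[F] Ω) (Point.map (γ : Ω →ₐ[k[X]] Ω) A) := by
  rcases A with _ | ⟨x, y, hxy⟩
  · rfl
  · rw [Point.map_some, Point.map_some, Point.map_some, Point.map_some]
    simp only [Point.some.injEq]
    exact ⟨hgh x, hgh y⟩

/-- The parities of the class of the cocycle `h ↦ h A - A`, for a torsion point `A` of order a
power of two, are constant on odd orbits. -/
lemma torsion_const [IsSepClosure F Ω]
    (hk : ∀ p : k[X], algebraMap k[X] F p = algebraMap kb[X] F (p.map (algebraMap k kb)))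
    (hΩ : SplitAt Ω W a b c) {Y : Finset kb} (hY : OddOrbit k Y) (n : ℕ) :
    ∀ (A : (W.baseChange Ω).Point) (P : kb[X]), 2 ^ n • A = 0 →
      (∀ h : Ω ≃ₐ[F] Ω, (Point.map (h : Ω →ₐ[F] Ω) A - A) +
        (Point.map (h : Ω →ₐ[F] Ω) A - A) = 0) →
      PRep hΩ (fun h : Ω ≃ₐ[F] Ω => Point.map (h : Ω →ₐ[F] Ω) A - A) P →
      ∀ α ∈ Y, ∀ β ∈ Y, par P α = par P β := by
  have : IsGalois F Ω := inferInstance
  induction n with
  | zero =>
    intro A P hA _ hP α _ β _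
    rw [pow_zero, one_smul] at hA
    subst hA
    have h1 : PRep hΩ (fun h : Ω ≃ₐ[F] Ω => Point.map (h : Ω →ₐ[F] Ω) (0 :
        (W.baseChange Ω).Point) - 0) (1 : kb[X]) := by
      refine ⟨1, one_ne_zero, by simp, fun g => ?_⟩
      change g 1 = (hΩ.chi (Point.map (W' := W) (g : Ω →ₐ[F] Ω) 0 - 0) : Ω) * 1
      rw [Point.map_zero, sub_zero, hΩ.chi_zero]
      simp
    rw [hP.par_eq h1, hP.par_eq h1]
    unfold par
    rw [rootMultiplicity_eq_zero (by simp), rootMultiplicity_eq_zero (by simp)]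
  | succ n ih =>
    intro A P hA h2 hP
    apply hY.const
    intro σ α hα β hβ
    obtain ⟨γ, hγ⟩ := exists_lift_aut (kb := kb) (F := F) (Ω := Ω) hk σ
    set B := Point.map (W' := W) (γ : Ω →ₐ[k[X]] Ω) A - A with hB
    -- the conjugate cocycle
    have hγA : ∀ g h : Ω ≃ₐ[F] Ω, (∀ x, γ (g x) = h (γ x)) →
        Point.map (h : Ω →ₐ[F] Ω) (Point.map (γ : Ω →ₐ[k[X]] Ω) A) -
          Point.map (γ : Ω →ₐ[k[X]] Ω) A =
        Point.map (γ : Ω →ₐ[k[X]] Ω) (Point.map (g : Ω →ₐ[F] Ω) A - A) := by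
      intro g h hgh
      rw [map_sub, map_conj γ hgh]
    have h2' : ∀ h : Ω ≃ₐ[F] Ω, (Point.map (h : Ω →ₐ[F] Ω) (Point.map (γ : Ω →ₐ[k[X]] Ω) A) -
          Point.map (γ : Ω →ₐ[k[X]] Ω) A) +
          (Point.map (h : Ω →ₐ[F] Ω) (Point.map (γ : Ω →ₐ[k[X]] Ω) A) -
          Point.map (γ : Ω →ₐ[k[X]] Ω) A) = 0 := by
      intro h
      obtain ⟨g, hg⟩ := exists_conj (kb := kb) (F := F) hk γ h
      rw [hγA g h hg, ← map_add, h2, map_zero]
    have hP' : PRep hΩ (fun h : Ω ≃ₐ[F] Ω => Point.map (h : Ω →ₐ[F] Ω)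
        (Point.map (γ : Ω →ₐ[k[X]] Ω) A) - Point.map (γ : Ω →ₐ[k[X]] Ω) A)
        (P.map (σ : kb →+* kb)) := hP.conj hk γ σ hγ hγA
    have hB0 : 2 ^ n • B = 0 := by
      have h3 : 2 ^ n • A + 2 ^ n • A = 0 := by
        rw [← two_nsmul, ← mul_smul, ← pow_succ', hA]
      rw [hB, smul_sub, ← map_nsmul, map_two_torsion (γ : Ω →ₐ[k[X]] Ω) hΩ h3, sub_self]
    have e : ∀ h : Ω ≃ₐ[F] Ω, (Point.map (h : Ω →ₐ[F] Ω) (Point.map (γ : Ω →ₐ[k[X]] Ω) A) -
          Point.map (γ : Ω →ₐ[k[X]] Ω) A) + (Point.map (h : Ω →ₐ[F] Ω) A - A) =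
        Point.map (h : Ω →ₐ[F] Ω) B - B := by
      intro h
      have h3 : Point.map (W' := W) (h : Ω →ₐ[F] Ω) A - A =
          -(Point.map (h : Ω →ₐ[F] Ω) A - A) := eq_neg_of_add_eq_zero_left (h2 h)
      rw [h3, hB, map_sub]
      abel
    have hBP : PRep hΩ (fun h : Ω ≃ₐ[F] Ω => Point.map (h : Ω →ₐ[F] Ω) B - B)
        (P.map (σ : kb →+* kb) * P) := (hP'.mul hP h2' h2).of_eq e
    have h2B : ∀ h : Ω ≃ₐ[F] Ω, (Point.map (h : Ω →ₐ[F] Ω) B - B) +
        (Point.map (h : Ω →ₐ[F] Ω) B - B) = 0 := by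
      intro h
      rw [← e h, add_add_add_comm, h2' h, h2 h, add_zero]
    have h4 := ih B _ hB0 h2B hBP (σ α) (hY.stable σ α hα) (σ β) (hY.stable σ β hβ)
    rw [par_mul hP'.ne_zero hP.ne_zero, par_mul hP'.ne_zero hP.ne_zero] at h4
    have h5 := par_map (σ : kb ≃+* kb) P α
    have h6 := par_map (σ : kb ≃+* kb) P β
    have h7 : par (P.map (σ : kb →+* kb)) (σ α) = par P α := h5
    have h8 : par (P.map (σ : kb →+* kb)) (σ β) = par P β := h6
    rw [h7, h8] at h4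
    rw [add_comm, h4, add_comm]

omit [Algebra.IsAlgebraic k kb] [IsAlgClosed kb] [IsScalarTower kb[X] F Ω] [Algebra kb[X] Ω]
  [IsFractionRing kb[X] F] [Algebra k kb] [Field kb] [Algebra kb[X] F] in
lemma two_pow_level (s : TateCocycle F Ω W) (e : ℕ) (g : Ω ≃ₐ[F] Ω) :
    2 ^ e • s.level (e + 1) g = s.level 1 g := by
  induction e with
  | zero => rw [pow_zero, one_smul]
  | succ e ih => rw [pow_succ, mul_smul, s.two_nsmul_level, ih]

/-- The parities of the reduction modulo two of an invariant class are constant on odd orbits. -/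
lemma level_one_const [IsSepClosure F Ω]
    (hk : ∀ p : k[X], algebraMap k[X] F p = algebraMap kb[X] F (p.map (algebraMap k kb)))
    (hΩ : SplitAt Ω W a b c) {Y : Finset kb} (hY : OddOrbit k Y) (s : TateCocycle F Ω W)
    (hs : s.IsInvariantModTorsion) {P : kb[X]} (hP : PRep hΩ (s.level 1) P) :
    ∀ α ∈ Y, ∀ β ∈ Y, par P α = par P β := by
  have : IsGalois F Ω := inferInstance
  have h2 : ∀ g, s.level 1 g + s.level 1 g = 0 := by
    intro g
    rw [← two_nsmul, s.two_nsmul_level, s.level_zero]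
  apply hY.const
  intro σ α hα β hβ
  obtain ⟨γ, hγ⟩ := exists_lift_aut (kb := kb) (F := F) (Ω := Ω) hk σ
  obtain ⟨m, hm, H⟩ := hs γ
  obtain ⟨e, m', hm', rfl⟩ := Nat.exists_eq_two_pow_mul_odd hm.ne'
  obtain ⟨A, hA, HA⟩ := H (e + 1)
  have hpow : ∀ g, 2 ^ e • s.level (e + 1) g = s.level 1 g := two_pow_level s e
  -- the difference of the two cocycles
  have hdiff : ∀ g h : Ω ≃ₐ[F] Ω, (∀ x, γ (g x) = h (γ x)) →
      Point.map (γ : Ω →ₐ[k[X]] Ω) (s.level 1 g) + s.level 1 h =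
        Point.map (h : Ω →ₐ[F] Ω) A - A := by
    intro g h hgh
    rw [← HA g h hgh, mul_comm, mul_smul, smul_sub, ← map_nsmul, hpow, hpow]
    obtain ⟨l, rfl⟩ := hm'
    have h3 : Point.map (γ : Ω →ₐ[k[X]] Ω) (s.level 1 g) - s.level 1 h =
        Point.map (γ : Ω →ₐ[k[X]] Ω) (s.level 1 g) + s.level 1 h := by
      rw [sub_eq_add_neg, ← eq_neg_of_add_eq_zero_left (h2 h)]
    have h4 : 2 • (Point.map (γ : Ω →ₐ[k[X]] Ω) (s.level 1 g) + s.level 1 h) = 0 := by
      rw [smul_add, ← map_nsmul, two_nsmul, two_nsmul, h2, h2, map_zero, add_zero]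
    rw [h3, add_smul, mul_comm, mul_smul, h4, smul_zero, zero_add, one_smul]
  have hP' : PRep hΩ (fun h => Point.map (γ : Ω →ₐ[k[X]] Ω) (s.level 1 (Classical.choose
      (exists_conj (kb := kb) (F := F) hk γ h)))) (P.map (σ : kb →+* kb)) := by
    refine hP.conj hk γ σ hγ fun g h hgh => ?_
    have h3 := Classical.choose_spec (exists_conj (kb := kb) (F := F) hk γ h)
    have h4 : Classical.choose (exists_conj (kb := kb) (F := F) hk γ h) = g := by
      ext x
      apply γ.injective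
      rw [h3, hgh]
    change Point.map (γ : Ω →ₐ[k[X]] Ω) (s.level 1 (Classical.choose
      (exists_conj (kb := kb) (F := F) hk γ h))) = _
    rw [h4]
  have hPA : PRep hΩ (fun h : Ω ≃ₐ[F] Ω => Point.map (h : Ω →ₐ[F] Ω) A - A)
      (P.map (σ : kb →+* kb) * P) := by
    refine (hP'.mul hP (fun h => ?_) h2).of_eq fun h => ?_
    · rw [← map_add, h2, map_zero]
    · exact hdiff _ h (Classical.choose_spec (exists_conj (kb := kb) (F := F) hk γ h))
  have h2A : ∀ h : Ω ≃ₐ[F] Ω, (Point.map (h : Ω →ₐ[F] Ω) A - A) +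
      (Point.map (h : Ω →ₐ[F] Ω) A - A) = 0 := by
    intro h
    obtain ⟨g, hg⟩ := exists_conj (kb := kb) (F := F) hk γ h
    rw [← hdiff g h hg, add_add_add_comm, h2, ← map_add, h2, map_zero, add_zero]
  have h4 := torsion_const hk hΩ hY (e + 1) A _ hA h2A hPA (σ α) (hY.stable σ α hα) (σ β)
    (hY.stable σ β hβ)
  rw [par_mul hP'.ne_zero hP.ne_zero, par_mul hP'.ne_zero hP.ne_zero] at h4
  have h7 : par (P.map (σ : kb →+* kb)) (σ α) = par P α := par_map (σ : kb ≃+* kb) P α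
  have h8 : par (P.map (σ : kb →+* kb)) (σ β) = par P β := par_map (σ : kb ≃+* kb) P β
  rw [h7, h8] at h4
  rw [add_comm, h4, add_comm]

end PRep

end Pool.Agent.Lib.MP_89bcae_ag
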