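import Mathlib
import Pool.Agent.Lib.MP_89bcae_ag.Parity
import Pool.Agent.Lib.MP_89bcae_ag.Descent

/-!
# Parities at the places where the local condition is unramified
-/

open Polynomial WeierstrassCurve WeierstrassCurve.Affine IsDedekindDomain WithZero

open scoped Classical

namespace Pool.Agent.Lib.MP_89bcae_ag

section General

variable {R F Ω : Type*} [CommRing R] [Field F] [Field Ω] [Algebra R F] [Algebra R Ω]
  [Algebra F Ω] [IsScalarTower R F Ω] {W : Affine R} {a b c : R}

lemma even_of_isLocallyTrivial_aux [IsGalois F Ω] (hΩ : SplitAt Ω W a b c)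
    (hF : SplitAt F W a b c)
    (L M : Type*) [Field L] [Algebra F L] (w : Valuation L ℤᵐ⁰) [Field M] [Algebra L M]
    [IsSepClosure L M] [Algebra F M] [IsScalarTower F L M] [Algebra R M] [IsScalarTower R F M]
    {s : (Ω ≃ₐ[F] Ω) → (W.baseChange Ω).Point} (hs : ∀ g, s g + s g = 0)
    (hloc : ∀ j : Ω →ₐ[F] M, ∃ Q : (W.baseChange M).Point,
      ∀ (g : M ≃ₐ[L] M) (g' : Ω ≃ₐ[F] Ω), (∀ x, j (g' x) = g (j x)) →
        Point.map j (s g') = Point.map (g.restrictScalars F : M →ₐ[F] M) Q - Q)
    {d : F} (hrep : Rep hΩ s d)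
    (he : lg w (algebraMap F L (algebraMap R F (a - b))) =
      lg w (algebraMap F L (algebraMap R F (a - c))))
    (h2 : Even (lg w (algebraMap F L (algebraMap R F (a - b))))) :
    Even (lg w (algebraMap F L d)) := by
  let _ : Algebra R L := ((algebraMap F L).comp (algebraMap R F)).toAlgebra
  have : IsScalarTower R F L := IsScalarTower.of_algebraMap_eq fun _ => rfl
  have : IsScalarTower R L M := IsScalarTower.of_algebraMap_eq fun x => by
    rw [IsScalarTower.algebraMap_apply R F M, IsScalarTower.algebraMap_apply F L M]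
    rfl
  have : IsSepClosed M := IsSepClosure.sep_closed L
  have hL : SplitAt L W a b c := hF.up (Algebra.ofId F L)
  let j : Ω →ₐ[F] M := IsSepClosed.lift
  obtain ⟨Q, hQ'⟩ := hloc j
  have hQ : ∀ (g : M ≃ₐ[L] M) (g' : Ω ≃ₐ[F] Ω),
      (∀ x, j (g' x) = g (j x)) → Point.map (W' := W) j (s g') =
        Point.map (W' := W) (g : M →ₐ[L] M) Q - Q := hQ'
  obtain ⟨P, hP⟩ := exists_point_of_fixed (F := L) (W := W) (Q + Q) (by
    intro g
    obtain ⟨g', hg'⟩ := exists_restrict (F := F) j (g.restrictScalars F)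
    have h2 := hQ g g' hg'
    have h3 : Point.map (W' := W) j (s g') + Point.map (W' := W) j (s g') = 0 := by
      rw [← map_add, hs, map_zero]
    rw [h2, sub_add_sub_comm, sub_eq_zero] at h3
    rw [map_add]
    exact h3)
  have hPQ : Q + Q = Point.map (W' := W) (Algebra.ofId L M) P := hP.symm
  obtain ⟨u, hu, H⟩ := local_rep hΩ hL hrep hs j Q P hPQ hQ
  have hab : algebraMap R L a ≠ algebraMap R L b := hL.ab
  have hac : algebraMap R L a ≠ algebraMap R L c := hL.ac
  have e1 : algebraMap F L (algebraMap R F (a - b)) = algebraMap R L a - algebraMap R L b := by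
    rw [map_sub, map_sub]; rfl
  have e2 : algebraMap F L (algebraMap R F (a - c)) = algebraMap R L a - algebraMap R L c := by
    rw [map_sub, map_sub]; rfl
  rw [e1] at he h2
  rw [e2] at he
  rcases H with H | ⟨x, y, hxy, hx, H⟩ | H
  · rw [H, lg_pow]
    exact even_two_mul _
  · rw [H, lg_mul w (pow_ne_zero 2 hu) (sub_ne_zero.mpr hx), lg_pow]
    exact (even_two_mul _).add (even_lg_sub w hab hac he h2 hxy hx)
  · rw [H, lg_mul w (pow_ne_zero 2 hu) (mul_ne_zero (sub_ne_zero.mpr hab) (sub_ne_zero.mpr hac)),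
      lg_pow, lg_mul w (sub_ne_zero.mpr hab) (sub_ne_zero.mpr hac), ← he]
    exact (even_two_mul _).add (h2.add h2)

lemma even_of_isLocallyTrivial [IsGalois F Ω] (hΩ : SplitAt Ω W a b c) (hF : SplitAt F W a b c)
    (L : Type*) [Field L] [Algebra F L] (w : Valuation L ℤᵐ⁰)
    {s : (Ω ≃ₐ[F] Ω) → (W.baseChange Ω).Point} (hs : ∀ g, s g + s g = 0)
    (hloc : IsLocallyTrivial L s) {d : F} (hrep : Rep hΩ s d)
    (he : lg w (algebraMap F L (algebraMap R F (a - b))) =
      lg w (algebraMap F L (algebraMap R F (a - c))))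
    (h2 : Even (lg w (algebraMap F L (algebraMap R F (a - b))))) :
    Even (lg w (algebraMap F L d)) := by
  let _ : Algebra R L := ((algebraMap F L).comp (algebraMap R F)).toAlgebra
  have : IsScalarTower R F L := IsScalarTower.of_algebraMap_eq fun _ => rfl
  have : IsScalarTower R F (SeparableClosure L) := IsScalarTower.to₁₂₄ R F L (SeparableClosure L)
  exact even_of_isLocallyTrivial_aux hΩ hF L (SeparableClosure L) w hs
    (hloc (SeparableClosure L)) hrep he h2

end General

section Finite

variable {kb F : Type*} [Field kb] [Field F] [Algebra kb[X] F] [IsFractionRing kb[X] F]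

/-- The place of `kb(t)` attached to `α`. -/
noncomputable def placeOf (α : kb) : HeightOneSpectrum kb[X] where
  asIdeal := Ideal.span {X - C α}
  isPrime := (Ideal.span_singleton_prime (X_sub_C_ne_zero α)).mpr (prime_X_sub_C α)
  ne_bot := by
    rw [Ne, Ideal.span_singleton_eq_bot]
    exact X_sub_C_ne_zero α

lemma lg_placeOf (α : kb) {p : kb[X]} (hp : p ≠ 0) :
    lg (Valued.v : Valuation ((placeOf α).adicCompletion F) ℤᵐ⁰)
      (algebraMap F ((placeOf α).adicCompletion F) (algebraMap kb[X] F p)) =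
      -(p.rootMultiplicity α : ℤ) := by
  obtain ⟨q, hq, hq'⟩ := exists_eq_pow_rootMultiplicity_mul_and_not_dvd p hp α
  have h1 : (Valued.v : Valuation ((placeOf α).adicCompletion F) ℤᵐ⁰)
      (algebraMap F ((placeOf α).adicCompletion F) (algebraMap kb[X] F p)) =
      (placeOf α).intValuation p := by
    rw [← HeightOneSpectrum.valuation_of_algebraMap (K := F)]
    exact HeightOneSpectrum.valuedAdicCompletion_eq_valuation' (placeOf α) _
  have h2 : (placeOf α).intValuation (X - C α) = exp (-1 : ℤ) :=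
    (placeOf α).intValuation_singleton (X_sub_C_ne_zero α) rfl
  have h3 : (placeOf α).intValuation q = 1 := by
    rw [HeightOneSpectrum.intValuation_eq_one_iff]
    change q ∉ Ideal.span {X - C α}
    rwa [Ideal.mem_span_singleton]
  unfold lg
  rw [h1]
  conv_lhs => rw [hq]
  rw [map_mul, map_pow, h2, h3, mul_one, log_pow, log_exp]
  simp

end Finite

section Infinity

variable {kb : Type*} [Field kb]

lemma lg_infty {p : kb[X]} (hp : p ≠ 0) :
    lg (Valued.v : Valuation (RatFunc.CompletionAtInfty kb) ℤᵐ⁰)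
      (algebraMap (RatFunc kb) (RatFunc.CompletionAtInfty kb) (algebraMap kb[X] (RatFunc kb) p))
      = (p.natDegree : ℤ) := by
  have h1 : (Valued.v : Valuation (RatFunc.CompletionAtInfty kb) ℤᵐ⁰)
      (algebraMap (RatFunc kb) (RatFunc.CompletionAtInfty kb) (algebraMap kb[X] (RatFunc kb) p))
      = RatFunc.inftyValuationDef kb (algebraMap _ _ p) :=
    @Valued.extensionValuation_apply_coe (RatFunc kb) _ ℤᵐ⁰ _ (RatFunc.inftyValued kb) _
  unfold lg
  rw [h1, RatFunc.inftyValuation.polynomial _ hp, log_exp]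

end Infinity

end Pool.Agent.Lib.MP_89bcae_ag
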