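import Mathlib
import Pool.Agent.Lib.MP_89bcae_ag.Places
import Pool.Agent.Lib.MP_89bcae_ag.Descent

/-!
# Invariant Selmer classes over `k̄(t)` modulo two
-/

open Polynomial WeierstrassCurve WeierstrassCurve.Affine IsDedekindDomain WithZero

open scoped Classical

namespace Pool.Agent.Lib.MP_89bcae_ag

section Points

variable {R F Ω : Type*} [CommRing R] [Field F] [Field Ω] [Algebra R F] [Algebra R Ω]
  [Algebra F Ω] [IsScalarTower R F Ω] {W : Affine R} {a b c : R}

/-- Rational points are fixed. -/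
lemma map_ofId (P : (W.baseChange F).Point) (g : Ω ≃ₐ[F] Ω) :
    Point.map (W' := W) (g : Ω →ₐ[F] Ω) (Point.map (W' := W) (Algebra.ofId F Ω) P) =
      Point.map (W' := W) (Algebra.ofId F Ω) P := by
  have h : (g : Ω →ₐ[F] Ω).comp (Algebra.ofId F Ω) = Algebra.ofId F Ω :=
    AlgHom.ext fun x => g.commutes x
  rw [Point.map_map, h]

/-- The Kummer cocycle modulo two is two-torsion valued. -/
lemma kummer_two_torsion (P : (W.baseChange F).Point) (Q : (W.baseChange Ω).Point)
    (hQ : Q + Q = Point.map (W' := W) (Algebra.ofId F Ω) P) (g : Ω ≃ₐ[F] Ω) :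
    (Point.map (W' := W) (g : Ω →ₐ[F] Ω) Q - Q) + (Point.map (W' := W) (g : Ω →ₐ[F] Ω) Q - Q) =
      0 := by
  have h1 : Point.map (W' := W) (g : Ω →ₐ[F] Ω) Q + Point.map (W' := W) (g : Ω →ₐ[F] Ω) Q =
      Q + Q := by
    rw [← map_add, hQ, map_ofId]
  rw [sub_add_sub_comm, h1, sub_self]

/-- The character attached to the Kummer class of a point `(x, y)` is represented by `x - a`. -/
lemma rep_kummer (hΩ : SplitAt Ω W a b c) {x y : F} (hxy : (W.baseChange F).Nonsingular x y)
    (hx : x ≠ algebraMap R F a) (Q : (W.baseChange Ω).Point)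
    (hQ : Q + Q = Point.map (W' := W) (Algebra.ofId F Ω) (.some x y hxy)) :
    Rep hΩ (fun g : Ω ≃ₐ[F] Ω => Point.map (g : Ω →ₐ[F] Ω) Q - Q) (x - algebraMap R F a) := by
  have hx' : x - algebraMap R F a ≠ 0 := sub_ne_zero.mpr hx
  have hT := kummer_two_torsion (W := W) (.some x y hxy) Q hQ
  rcases Q with _ | ⟨u, v, huv⟩
  · exfalso
    have h1 : (0 : (W.baseChange Ω).Point) =
      Point.map (W' := W) (Algebra.ofId F Ω) (.some x y hxy) := hQ
    rw [Point.map_some] at h1
    exact Point.some_ne_zero _ h1.symm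
  · have hv : v ≠ 0 := by
      rintro rfl
      have h1 : (Point.some u 0 huv : (W.baseChange Ω).Point) + Point.some u 0 huv = 0 := by
        apply Point.add_self_of_Y_eq
        rw [hΩ.negY_eq]; ring
      rw [h1, Point.map_some] at hQ
      exact Point.some_ne_zero _ hQ.symm
    obtain ⟨X, Y, H, e, ea, eb, ec⟩ := hΩ.double_some huv hv
    rw [e, Point.map_some] at hQ
    simp only [Point.some.injEq] at hQ
    obtain ⟨hX, -⟩ := hQ
    have hX' : X = algebraMap F Ω x := hX
    set ρ := Split.rho (algebraMap R Ω a) (algebraMap R Ω b) (algebraMap R Ω c) u v with hρ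
    have ea' : ρ ^ 2 = algebraMap F Ω (x - algebraMap R F a) := by
      rw [← ea, hX', map_sub, ← IsScalarTower.algebraMap_apply]
    refine ⟨ρ, ?_, ea', fun g => ?_⟩
    · intro h
      rw [h] at ea'
      apply hx'
      apply (algebraMap F Ω).injective
      rw [← ea', map_zero]; ring
    · have h2 := hT g
      have h3 : Point.map (W' := W) (g : Ω →ₐ[F] Ω) (.some u v huv) = .some u v huv +
          (Point.map (W' := W) (g : Ω →ₐ[F] Ω) (.some u v huv) - .some u v huv) := by abel
      rw [Point.map_some] at h3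
      have h4 := hΩ.rho_add_torsion huv hv _ h2 h3
      rw [map_rho (g : Ω →ₐ[F] Ω)] at h4
      exact h4

end Points

section Level

variable {R F Ω : Type*} [CommRing R] [Field F] [Field Ω] [Algebra R F] [Algebra R Ω]
  [Algebra F Ω] [IsScalarTower R F Ω] {W : Affine R}

lemma level_one_two_torsion (s : TateCocycle F Ω W) (g : Ω ≃ₐ[F] Ω) :
    s.level 1 g + s.level 1 g = 0 := by
  rw [← two_nsmul, s.two_nsmul_level, s.level_zero]

end Level

section Selmer

variable {k kb F Ω : Type*} [Field k] [Field kb] [Algebra k kb] [Algebra.IsAlgebraic k kb]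
  [IsAlgClosed kb] [Field F] [Algebra kb[X] F] [IsFractionRing kb[X] F] [Algebra k[X] F]
  [Field Ω] [Algebra F Ω] [Algebra k[X] Ω] [IsScalarTower k[X] F Ω] [Algebra kb[X] Ω]
  [IsScalarTower kb[X] F Ω] [IsSepClosure F Ω]

variable {W : Affine k[X]} {a b c : k[X]}

/-- The parity vanishes at a point where `a - b` and `a - c` have the same even multiplicity. -/
lemma par_eq_zero_of_local
    (hk : ∀ p : k[X], algebraMap k[X] F p = algebraMap kb[X] F (p.map (algebraMap k kb)))
    (hΩ : SplitAt Ω W a b c) (hF : SplitAt F W a b c) {s : (Ω ≃ₐ[F] Ω) → (W.baseChange Ω).Point}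
    (hs2 : ∀ g, s g + s g = 0) (α : kb) (hs : IsLocallyTrivial ((placeOf α).adicCompletion F) s)
    {P : kb[X]} (hP : PRep hΩ s P)
    (h1 : ((a - b).map (algebraMap k kb)).rootMultiplicity α =
      ((a - c).map (algebraMap k kb)).rootMultiplicity α)
    (h2 : Even (((a - b).map (algebraMap k kb)).rootMultiplicity α)) :
    par P α = 0 := by
  have : IsGalois F Ω := inferInstance
  have hab : (a - b).map (algebraMap k kb) ≠ 0 := by
    rw [Ne, Polynomial.map_eq_zero, sub_eq_zero]
    rintro rfl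
    exact hF.ab rfl
  have hac : (a - c).map (algebraMap k kb) ≠ 0 := by
    rw [Ne, Polynomial.map_eq_zero, sub_eq_zero]
    rintro rfl
    exact hF.ac rfl
  have e1 := lg_placeOf (F := F) α hab
  have e2 := lg_placeOf (F := F) α hac
  rw [← hk] at e1 e2
  have key := even_of_isLocallyTrivial hΩ hF ((placeOf α).adicCompletion F) Valued.v
    hs2 hs hP (by rw [e1, e2, h1]) (by rw [e1, even_neg]; exact_mod_cast h2)
  rw [lg_placeOf α hP.ne_zero, even_neg] at key
  rw [par_eq_zero_iff]
  exact_mod_cast key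

/-- The degree is even if the place at infinity is good. -/
lemma natDegree_eq_zero_of_local
    (hk : ∀ p : k[X], algebraMap k[X] F p = algebraMap kb[X] F (p.map (algebraMap k kb)))
    {L : Type*} [Field L] [Algebra F L] (w : Valuation L ℤᵐ⁰)
    (hw : ∀ p : kb[X], p ≠ 0 → lg w (algebraMap F L (algebraMap kb[X] F p)) = p.natDegree)
    (hΩ : SplitAt Ω W a b c) (hF : SplitAt F W a b c) {s : (Ω ≃ₐ[F] Ω) → (W.baseChange Ω).Point}
    (hs2 : ∀ g, s g + s g = 0) (hs : IsLocallyTrivial L s)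
    {P : kb[X]} (hP : PRep hΩ s P)
    (h1 : (a - b).natDegree = (a - c).natDegree) (h2 : Even (a - b).natDegree) :
    (P.natDegree : ZMod 2) = 0 := by
  have : IsGalois F Ω := inferInstance
  have hab : (a - b).map (algebraMap k kb) ≠ 0 := by
    rw [Ne, Polynomial.map_eq_zero, sub_eq_zero]
    rintro rfl
    exact hF.ab rfl
  have hac : (a - c).map (algebraMap k kb) ≠ 0 := by
    rw [Ne, Polynomial.map_eq_zero, sub_eq_zero]
    rintro rfl
    exact hF.ac rfl
  have e1 := hw _ hab
  have e2 := hw _ hac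
  rw [natDegree_map, ← hk] at e1 e2
  have key := even_of_isLocallyTrivial hΩ hF L w
    hs2 hs hP (by rw [e1, e2, h1]) (by rw [e1]; exact_mod_cast h2)
  rw [hw _ hP.ne_zero] at key
  rw [ZMod.natCast_eq_zero_iff_even]
  exact_mod_cast key

omit [Algebra.IsAlgebraic k kb] [Algebra k[X] F] [Algebra k kb] [IsScalarTower k[X] F Ω]
  [Algebra kb[X] Ω] [IsScalarTower kb[X] F Ω] [IsSepClosure F Ω] [IsFractionRing kb[X] F] in
/-- A cocycle is trivial if its parities vanish. -/
lemma eq_zero_of_par {hΩ : SplitAt Ω W a b c} {s : (Ω ≃ₐ[F] Ω) → (W.baseChange Ω).Point}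
    (hs : ∀ g, s g + s g = 0) {P Q : kb[X]} (hP : PRep hΩ s P)
    (hQ : PRep hΩ.swap12 s Q) (h1 : ∀ α, par P α = 0) (h2 : ∀ α, par Q α = 0) (g) : s g = 0 := by
  obtain ⟨P', rfl⟩ := exists_sq_of_par P h1
  obtain ⟨Q', rfl⟩ := exists_sq_of_par Q h2
  exact hΩ.eq_zero_of_chi (hs g) (Rep.chi_eq_one hΩ hP (map_pow _ _ 2) g)
    (Rep.chi_eq_one hΩ.swap12 hQ (map_pow _ _ 2) g)

end Selmer

end Pool.Agent.Lib.MP_89bcae_ag
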