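import Mathlib

/-!
# The curves `y² = x (x + r^(q+1)) (x + s^(q+1))`
-/

open Polynomial WeierstrassCurve

namespace Pool.Agent.Lib.MP_89bcae_ag

/-- The polynomial `g` has degree `n` and is a constant times a power of an irreducible
polynomial. -/
def IsPrimary {k : Type*} [Field k] (n : ℕ) (g : k[X]) : Prop :=
  g.natDegree = n ∧ ∃ (π : k[X]) (m : ℕ) (u : k), Irreducible π ∧ g = C u * π ^ m

/-- The curve `y² = x (x + r^(q+1)) (x + s^(q+1))` over `k[t]`. -/
noncomputable def legendreCurve {k : Type*} [Field k] (q : ℕ) (r s : k[X]) : Affine k[X] where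
  a₁ := 0
  a₂ := r ^ (q + 1) + s ^ (q + 1)
  a₃ := 0
  a₄ := (r * s) ^ (q + 1)
  a₆ := 0

end Pool.Agent.Lib.MP_89bcae_ag
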