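import Mathlib
import Pool.Agent.Lib.MP_89bcae_ag.Parity
import Pool.Agent.Lib.MP_89bcae_ag.DefsLegendre

/-!
# Roots of prime powers of odd degree
-/

open Polynomial

open scoped Classical

namespace Pool.Agent.Lib.MP_89bcae_ag

section

variable {k kb : Type*} [Field k] [Field kb] [Algebra k kb] [Algebra.IsAlgebraic k kb]
  [IsAlgClosed kb]

/-- The finite set of roots. -/
noncomputable def rootSetOf (kb : Type*) [Field kb] [Algebra k kb] (g : k[X]) : Finset kb :=
  (g.map (algebraMap k kb)).roots.toFinset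

omit [Algebra.IsAlgebraic k kb] [IsAlgClosed kb] in
lemma mem_rootSetOf {g : k[X]} (hg : g ≠ 0) {α : kb} : α ∈ rootSetOf kb g ↔ aeval α g = 0 := by
  unfold rootSetOf
  rw [Multiset.mem_toFinset, mem_roots (by rwa [Ne, Polynomial.map_eq_zero]), IsRoot.def,
    eval_map_algebraMap]

omit [Algebra.IsAlgebraic k kb] [IsAlgClosed kb] in
lemma par_eq_zero_of_not_mem {g : k[X]} (hg : g ≠ 0) {α : kb} (h : α ∉ rootSetOf kb g) :
    (g.map (algebraMap k kb)).rootMultiplicity α = 0 := by
  apply rootMultiplicity_eq_zero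
  rw [mem_rootSetOf hg] at h
  rwa [IsRoot.def, eval_map_algebraMap]

lemma IsPrimary.ne_zero {n : ℕ} (hn : Odd n) {g : k[X]} (hg : IsPrimary n g) : g ≠ 0 := by
  rintro rfl
  have := hg.1
  rw [natDegree_zero] at this
  rw [← this] at hn
  exact absurd hn (by decide)

lemma IsPrimary.oddOrbit {n : ℕ} (hn : Odd n) {g : k[X]} (hg : IsPrimary n g) :
    OddOrbit k (rootSetOf kb g) ∧
      ∀ α ∈ rootSetOf kb g, par (g.map (algebraMap k kb)) α = 1 := by
  have hg0 := hg.ne_zero hn
  obtain ⟨hdeg, π, m, u, hπ, e⟩ := hg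
  have hnormal : Normal k kb := normal_iff.mpr fun x =>
    ⟨Algebra.IsIntegral.isIntegral x, IsAlgClosed.splits _⟩
  have hroot : ∀ α ∈ rootSetOf kb g, aeval α π = 0 := by
    intro α hα
    rw [mem_rootSetOf hg0, e, map_mul, map_pow, aeval_C] at hα
    rcases mul_eq_zero.mp hα with h | h
    · exfalso
      apply hg0
      rw [e]
      have : u = 0 := (algebraMap k kb).injective (by rw [h, map_zero])
      rw [this, C_0, zero_mul]
    · exact eq_zero_of_pow_eq_zero h
  have hstable : ∀ (σ : kb ≃ₐ[k] kb), ∀ α ∈ rootSetOf kb g, σ α ∈ rootSetOf kb g := by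
    intro σ α hα
    rw [mem_rootSetOf hg0] at hα ⊢
    have := aeval_algHom_apply (σ : kb →ₐ[k] kb) α g
    rw [AlgEquiv.coe_toAlgHom] at this
    rw [this, hα, map_zero]
  have htrans : ∀ α ∈ rootSetOf kb g, ∀ β ∈ rootSetOf kb g, ∃ σ : kb ≃ₐ[k] kb, σ α = β := by
    intro α hα β hβ
    have h1 := minpoly.eq_of_irreducible hπ (hroot α hα)
    have h2 := minpoly.eq_of_irreducible hπ (hroot β hβ)
    have h3 : IsConjRoot k β α := by
      rw [isConjRoot_def, ← h1, ← h2]
    obtain ⟨σ, hσ⟩ := h3.exists_algEquiv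
    exact ⟨σ, hσ⟩
  have hconst : ∀ (σ : kb ≃ₐ[k] kb) (α : kb),
      (g.map (algebraMap k kb)).rootMultiplicity (σ α) =
        (g.map (algebraMap k kb)).rootMultiplicity α := by
    intro σ α
    have h1 := eq_rootMultiplicity_map (p := g.map (algebraMap k kb)) (f := (σ : kb →+* kb))
      σ.injective α
    rw [h1, Polynomial.map_map]
    have h2 : (σ : kb →+* kb).comp (algebraMap k kb) = algebraMap k kb := by
      ext x
      exact σ.commutes x
    rw [h2]
    rfl
  have hcard : n = ∑ α ∈ rootSetOf kb g, (g.map (algebraMap k kb)).rootMultiplicity α := by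
    rw [← hdeg, ← natDegree_map (algebraMap k kb), ← IsAlgClosed.card_roots_eq_natDegree,
      ← Multiset.toFinset_sum_count_eq]
    exact Finset.sum_congr rfl fun α _ => count_roots _
  have hodd : ∀ α ∈ rootSetOf kb g, Odd ((g.map (algebraMap k kb)).rootMultiplicity α) ∧
      Odd (rootSetOf kb g).card := by
    intro α hα
    have h1 : ∀ β ∈ rootSetOf kb g, (g.map (algebraMap k kb)).rootMultiplicity β =
        (g.map (algebraMap k kb)).rootMultiplicity α := by
      intro β hβ
      obtain ⟨σ, rfl⟩ := htrans α hα β hβ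
      exact hconst σ α
    rw [Finset.sum_congr rfl h1, Finset.sum_const, smul_eq_mul] at hcard
    rw [hcard, Nat.odd_mul] at hn
    exact ⟨hn.2, hn.1⟩
  have hne : (rootSetOf kb g).Nonempty := by
    rw [Finset.nonempty_iff_ne_empty]
    intro h
    rw [h, Finset.sum_empty] at hcard
    rw [hcard] at hn
    exact absurd hn (by decide)
  obtain ⟨α₀, hα₀⟩ := hne
  refine ⟨⟨(hodd α₀ hα₀).2, hstable, htrans⟩, fun α hα => ?_⟩
  unfold par
  exact ZMod.natCast_eq_one_iff_odd.mpr (hodd α hα).1

end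

end Pool.Agent.Lib.MP_89bcae_ag
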