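import Mathlib
import Pool.Agent.Lib.MP_89bcae_ag.Geometric
import Pool.Agent.Lib.MP_89bcae_ag.Roots

/-!
# The curves `y² = x (x + r^(q+1)) (x + s^(q+1))`
-/

open Polynomial WeierstrassCurve WeierstrassCurve.Affine IsDedekindDomain WithZero

open scoped Classical

namespace Pool.Agent.Lib.MP_89bcae_ag

section Extra

variable {kb : Type*} [Field kb]

lemma par_one (α : kb) : par (1 : kb[X]) α = 0 := by
  unfold par
  rw [rootMultiplicity_eq_zero (by simp), Nat.cast_zero]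

lemma par_pow {P : kb[X]} (hP : P ≠ 0) (n : ℕ) (α : kb) : par (P ^ n) α = n * par P α := by
  induction n with
  | zero => rw [pow_zero, par_one, Nat.cast_zero, zero_mul]
  | succ n ih => rw [pow_succ, par_mul (pow_ne_zero n hP) hP, ih]; push_cast; ring

lemma par_prod {ι : Type*} (S : Finset ι) (f : ι → kb[X]) (hf : ∀ i ∈ S, f i ≠ 0) (α : kb) :
    par (∏ i ∈ S, f i) α = ∑ i ∈ S, par (f i) α := by
  induction S using Finset.induction_on with
  | empty => rw [Finset.prod_empty, Finset.sum_empty, par_one]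
  | insert i S hi ih =>
    rw [Finset.prod_insert hi, Finset.sum_insert hi, par_mul (hf i (Finset.mem_insert_self i S))
      (Finset.prod_ne_zero_iff.mpr fun j hj => hf j (Finset.mem_insert_of_mem hj)),
      ih fun j hj => hf j (Finset.mem_insert_of_mem hj)]

end Extra

section RepExtra

variable {k kb F Ω : Type*} [Field k] [Field kb] [Algebra k kb] [Algebra.IsAlgebraic k kb]
  [IsAlgClosed kb] [Field F] [Algebra kb[X] F] [IsFractionRing kb[X] F] [Algebra k[X] F]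
  [Field Ω] [Algebra F Ω] [Algebra k[X] Ω] [IsScalarTower k[X] F Ω] [Algebra kb[X] Ω]
  [IsScalarTower kb[X] F Ω]

variable {W : Affine k[X]} {a b c : k[X]} {hΩ : SplitAt Ω W a b c}
  {s : (Ω ≃ₐ[F] Ω) → (W.baseChange Ω).Point}

omit [Algebra.IsAlgebraic k kb] [IsAlgClosed kb] [IsScalarTower k[X] F Ω]
  [IsScalarTower kb[X] F Ω] [Algebra kb[X] Ω] [IsFractionRing kb[X] F] [Algebra k kb]
  [Algebra k[X] F] in
/-- The product of two of the three characters is the third. -/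
lemma PRep.third (hs : ∀ g, s g + s g = 0) {A B : kb[X]} (hA : PRep hΩ.rot s A)
    (hB : PRep hΩ.rot.swap12 s B) : PRep hΩ s (A * B) := by
  obtain ⟨β, hβ, h1, h2⟩ := hA
  obtain ⟨β', hβ', h1', h2'⟩ := hB
  refine ⟨β * β', mul_ne_zero hβ hβ', by rw [mul_pow, h1, h1', map_mul, map_mul], fun g => ?_⟩
  have h3 : hΩ.rot.chi (s g) * hΩ.rot.swap12.chi (s g) = hΩ.chi (s g) := hΩ.chi_mul_chi (hs g)
  rw [map_mul, h2, h2', ← h3]
  push_cast
  ring

omit [Algebra.IsAlgebraic k kb] [IsAlgClosed kb] [IsScalarTower k[X] F Ω]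
  [IsScalarTower kb[X] F Ω] [Algebra kb[X] Ω] [IsFractionRing kb[X] F] [Algebra k kb]
  [Algebra k[X] F] in
lemma pRep_zero (hΩ : SplitAt Ω W a b c) :
    PRep hΩ (fun _ : Ω ≃ₐ[F] Ω => (0 : (W.baseChange Ω).Point)) (1 : kb[X]) := by
  refine ⟨1, one_ne_zero, by simp, fun g => ?_⟩
  rw [hΩ.chi_zero]
  simp

omit [Algebra.IsAlgebraic k kb] [IsAlgClosed kb] [IsScalarTower k[X] F Ω]
  [IsScalarTower kb[X] F Ω] [Algebra kb[X] Ω] [IsFractionRing kb[X] F] [Algebra k kb]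
  [Algebra k[X] F] in
lemma pRep_sum {ι : Type*} (S : Finset ι) (f : ι → kb[X])
    (δ : ι → (Ω ≃ₐ[F] Ω) → (W.baseChange Ω).Point) (h2 : ∀ i ∈ S, ∀ g, δ i g + δ i g = 0)
    (h : ∀ i ∈ S, PRep hΩ (δ i) (f i)) :
    (∀ g, (∑ i ∈ S, δ i g) + (∑ i ∈ S, δ i g) = 0) ∧
      PRep hΩ (fun g => ∑ i ∈ S, δ i g) (∏ i ∈ S, f i) := by
  induction S using Finset.induction_on with
  | empty =>
    refine ⟨fun g => by rw [Finset.sum_empty, add_zero], ?_⟩
    rw [Finset.prod_empty]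
    exact (pRep_zero hΩ).of_eq fun g => by rw [Finset.sum_empty]
  | insert i S hi ih =>
    obtain ⟨ih1, ih2⟩ := ih (fun j hj => h2 j (Finset.mem_insert_of_mem hj))
      (fun j hj => h j (Finset.mem_insert_of_mem hj))
    refine ⟨fun g => ?_, ?_⟩
    · rw [Finset.sum_insert hi, add_add_add_comm, ih1, h2 i (Finset.mem_insert_self i S), add_zero]
    · rw [Finset.prod_insert hi]
      exact ((h i (Finset.mem_insert_self i S)).mul ih2
        (h2 i (Finset.mem_insert_self i S)) ih1).of_eq fun g => by rw [Finset.sum_insert hi]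

end RepExtra

section Curve

variable {k : Type*} [Field k]

/-- The hypotheses on `r` and `s`: over each of the `q + 3` points `0`, `∞` and `-ξ`, where
`ξ^(q+1) = 1`, there is exactly one closed point of the line under the map `r / s`, which has odd
degree `n` and under which infinity is not sent to one of these points. -/
structure GoodPair (q n : ℕ) (r s : k[X]) : Prop where
  odd : Odd n
  two : (2 : k) ≠ 0
  frob : ∀ u v : k[X], (u + v) ^ q = u ^ q + v ^ q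
  oddq : Odd q
  root : ∃ ζ : k, IsPrimitiveRoot ζ (q + 1)
  coprime : IsCoprime r s
  left : IsPrimary n r
  right : IsPrimary n s
  other : ∀ ξ : k, ξ ^ (q + 1) = 1 → IsPrimary n (r + C ξ * s)

variable {q n : ℕ} {r s : k[X]}

namespace GoodPair

lemma neg_pow_eq_one (h : GoodPair q n r s) {ξ : k} (hξ : ξ ^ (q + 1) = 1) :
    (-ξ) ^ (q + 1) = 1 := by
  rw [h.oddq.add_one.neg_pow, hξ]

/-- Elements with the same `(q+1)`-th power are proportional. -/
lemma exists_root (h : GoodPair q n r s) {L : Type*} [Field L] [Algebra k L] {x y : L}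
    (hy : y ≠ 0) (hxy : x ^ (q + 1) = y ^ (q + 1)) :
    ∃ ξ : k, ξ ^ (q + 1) = 1 ∧ x + algebraMap k L ξ * y = 0 := by
  obtain ⟨ζ, hζ⟩ := h.root
  have h1 : IsPrimitiveRoot (algebraMap k L ζ) (q + 1) :=
    hζ.map_of_injective (algebraMap k L).injective
  have h2 : (x / y) ^ (q + 1) = 1 := by
    rw [div_pow, hxy, div_self (pow_ne_zero _ hy)]
  obtain ⟨i, -, hi⟩ := h1.eq_pow_of_pow_eq_one h2
  refine ⟨-ζ ^ i, h.neg_pow_eq_one (by rw [← pow_mul, mul_comm, pow_mul, hζ.pow_eq_one, one_pow]),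
    ?_⟩
  rw [map_neg, map_pow, hi]
  field_simp
  ring

lemma left_ne_zero (h : GoodPair q n r s) : r ≠ 0 := h.left.ne_zero h.odd

lemma right_ne_zero (h : GoodPair q n r s) : s ≠ 0 := h.right.ne_zero h.odd

lemma other_ne_zero (h : GoodPair q n r s) {ξ : k} (hξ : ξ ^ (q + 1) = 1) : r + C ξ * s ≠ 0 :=
  (h.other ξ hξ).ne_zero h.odd

lemma natDegree_sub (h : GoodPair q n r s) :
    (r ^ (q + 1) - s ^ (q + 1)).natDegree = n * (q + 1) := by
  have hr := h.left.1
  have hs := h.right.1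
  refine le_antisymm ?_ ?_
  · refine (natDegree_sub_le _ _).trans ?_
    rw [natDegree_pow, natDegree_pow, hr, hs, max_self, mul_comm]
  · apply le_natDegree_of_ne_zero
    rw [mul_comm, coeff_sub, coeff_pow_of_natDegree_le hr.le, coeff_pow_of_natDegree_le hs.le]
    intro h0
    rw [sub_eq_zero] at h0
    have hs0 : s.coeff n ≠ 0 := by
      rw [← hs, coeff_natDegree]
      exact leadingCoeff_ne_zero.mpr h.right_ne_zero
    obtain ⟨ξ, hξ, h1⟩ := h.exists_root hs0 h0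
    have h2 := h.other ξ hξ
    have h3 : (r + C ξ * s).coeff n = 0 := by
      rw [coeff_add, coeff_C_mul]
      exact h1
    have h4 : (r + C ξ * s).leadingCoeff = 0 := by
      rw [leadingCoeff, h2.1, h3]
    exact h.other_ne_zero hξ (leadingCoeff_eq_zero.mp h4)

variable {kb : Type*} [Field kb] [Algebra k kb]

/-- `r` and `s` have no common root. -/
lemma not_both (h : GoodPair q n r s) {α : kb} (h1 : aeval α r = 0) (h2 : aeval α s = 0) :
    False := by
  obtain ⟨u, v, e⟩ := h.coprime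
  have := congrArg (aeval α) e
  rw [map_add, map_mul, map_mul, h1, h2, mul_zero, mul_zero, add_zero, map_one] at this
  exact zero_ne_one this

lemma mem_left (h : GoodPair q n r s) {α : kb} : α ∈ rootSetOf kb r ↔ aeval α r = 0 :=
  mem_rootSetOf h.left_ne_zero

lemma mem_right (h : GoodPair q n r s) {α : kb} : α ∈ rootSetOf kb s ↔ aeval α s = 0 :=
  mem_rootSetOf h.right_ne_zero

lemma mem_other (h : GoodPair q n r s) {ξ : k} (hξ : ξ ^ (q + 1) = 1) {α : kb} :
    α ∈ rootSetOf kb (r + C ξ * s) ↔ aeval α r + algebraMap k kb ξ * aeval α s = 0 := by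
  rw [mem_rootSetOf (h.other_ne_zero hξ), map_add, map_mul, aeval_C]

lemma root_ne_zero {ξ : k} (hξ : ξ ^ (q + 1) = 1) : ξ ≠ 0 := by
  rintro rfl
  rw [zero_pow (Nat.succ_ne_zero q)] at hξ
  exact zero_ne_one hξ

lemma other_not_left (h : GoodPair q n r s) {ξ : k} (hξ : ξ ^ (q + 1) = 1) {α : kb}
    (hα : α ∈ rootSetOf kb (r + C ξ * s)) : α ∉ rootSetOf kb r := by
  intro h1
  rw [h.mem_other hξ] at hα
  rw [h.mem_left] at h1
  rw [h1, zero_add] at hα
  rcases mul_eq_zero.mp hα with h2 | h2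
  · exact root_ne_zero hξ ((algebraMap k kb).injective (by rw [h2, map_zero]))
  · exact h.not_both h1 h2

lemma other_not_right (h : GoodPair q n r s) {ξ : k} (hξ : ξ ^ (q + 1) = 1) {α : kb}
    (hα : α ∈ rootSetOf kb (r + C ξ * s)) : α ∉ rootSetOf kb s := by
  intro h1
  rw [h.mem_other hξ] at hα
  rw [h.mem_right] at h1
  rw [h1, mul_zero, add_zero] at hα
  exact h.not_both hα h1

lemma other_disjoint (h : GoodPair q n r s) {ξ ξ' : k} (hξ : ξ ^ (q + 1) = 1)
    (hξ' : ξ' ^ (q + 1) = 1) (hne : ξ ≠ ξ') {α : kb} (hα : α ∈ rootSetOf kb (r + C ξ * s)) :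
    α ∉ rootSetOf kb (r + C ξ' * s) := by
  intro h1
  have h3 := h.other_not_right hξ hα
  rw [h.mem_other hξ] at hα
  rw [h.mem_other hξ'] at h1
  rw [h.mem_right] at h3
  have h2 : (algebraMap k kb (ξ - ξ')) * aeval α s = 0 := by
    rw [map_sub]
    linear_combination hα - h1
  rcases mul_eq_zero.mp h2 with h4 | h4
  · exact hne (sub_eq_zero.mp ((algebraMap k kb).injective (by rw [h4, map_zero])))
  · exact h3 h4

/-- The roots of `r^(q+1) - s^(q+1)`. -/
lemma exists_mem_other (h : GoodPair q n r s) {α : kb}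
    (hα : aeval α (r ^ (q + 1) - s ^ (q + 1)) = 0) :
    ∃ ξ : k, ξ ^ (q + 1) = 1 ∧ α ∈ rootSetOf kb (r + C ξ * s) := by
  rw [map_sub, map_pow, map_pow, sub_eq_zero] at hα
  have hs : aeval α s ≠ 0 := by
    intro h1
    rw [h1, zero_pow (Nat.succ_ne_zero q)] at hα
    exact h.not_both (eq_zero_of_pow_eq_zero hα) h1
  obtain ⟨ξ, hξ, h1⟩ := h.exists_root hs hα
  exact ⟨ξ, hξ, (h.mem_other hξ).mpr h1⟩

lemma splitAt (h : GoodPair q n r s) (A : Type*) [Field A] [Algebra k[X] A]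
    (hinj : Function.Injective (algebraMap k[X] A)) :
    SplitAt A (legendreCurve q r s) 0 (-(r ^ (q + 1))) (-(s ^ (q + 1))) where
  a₁ := map_zero _
  a₂ := by
    change algebraMap k[X] A (r ^ (q + 1) + s ^ (q + 1)) = _
    simp only [map_add, map_neg, map_zero]
    ring
  a₃ := map_zero _
  a₄ := by
    change algebraMap k[X] A ((r * s) ^ (q + 1)) = _
    rw [mul_pow]
    simp only [map_mul, map_neg, map_zero]
    ring
  a₆ := by
    change algebraMap k[X] A 0 = _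
    simp only [map_neg, map_zero]
    ring
  ab := by
    intro h0
    have := hinj h0
    have h1 : r ^ (q + 1) = 0 := by rw [← neg_eq_zero]; exact this.symm
    exact h.left_ne_zero (eq_zero_of_pow_eq_zero h1)
  ac := by
    intro h0
    have := hinj h0
    have h1 : s ^ (q + 1) = 0 := by rw [← neg_eq_zero]; exact this.symm
    exact h.right_ne_zero (eq_zero_of_pow_eq_zero h1)
  bc := by
    intro h0
    have h1 := neg_injective (hinj h0)
    have h2 := h.natDegree_sub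
    rw [h1, sub_self, natDegree_zero] at h2
    exact (Nat.mul_pos h.odd.pos (Nat.succ_pos q)).ne h2
  two := by
    intro h0
    apply h.two
    have h1 : algebraMap k[X] A (C 2) = 0 := by
      rw [← h0, map_ofNat, map_ofNat]
    exact C_injective (hinj (by rw [h1, C_0, map_zero]))

/-- The `x`-coordinate of the section attached to `ξ`. -/
noncomputable def secX (q : ℕ) (r s : k[X]) (ξ : k) : k[X] := r * (C ξ * s) ^ q

/-- The `y`-coordinate of the section attached to `ξ`. -/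
noncomputable def secY (q : ℕ) (r s : k[X]) (ξ : k) : k[X] :=
  r * (C ξ * s) ^ q * (r + C ξ * s) ^ ((q + 1) / 2)

lemma secX_sub_left (h : GoodPair q n r s) (ξ : k) :
    secX q r s ξ - -(r ^ (q + 1)) = r * (r + C ξ * s) ^ q := by
  unfold secX
  rw [h.frob]
  ring

lemma secX_sub_right {ξ : k} (hξ : ξ ^ (q + 1) = 1) :
    secX q r s ξ - -(s ^ (q + 1)) = (C ξ * s) ^ q * (r + C ξ * s) := by
  unfold secX
  have h1 : (C ξ : k[X]) ^ (q + 1) = 1 := by rw [← C_pow, hξ, C_1]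
  linear_combination (-s ^ (q + 1)) * h1

lemma sec_eq (h : GoodPair q n r s) {ξ : k} (hξ : ξ ^ (q + 1) = 1) :
    (secY q r s ξ) ^ 2 = (secX q r s ξ - 0) * (secX q r s ξ - -(r ^ (q + 1))) *
      (secX q r s ξ - -(s ^ (q + 1))) := by
  rw [h.secX_sub_left, secX_sub_right hξ]
  unfold secX secY
  have h1 : ((r + C ξ * s) ^ ((q + 1) / 2)) ^ 2 = (r + C ξ * s) ^ (q + 1) := by
    rw [← pow_mul, Nat.div_mul_cancel (even_iff_two_dvd.mp h.oddq.add_one)]
  rw [mul_pow, h1]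
  ring

lemma sec_nonsingular (h : GoodPair q n r s) {ξ : k} (hξ : ξ ^ (q + 1) = 1) (A : Type*) [Field A]
    [Algebra k[X] A] (hinj : Function.Injective (algebraMap k[X] A)) :
    ((legendreCurve q r s).baseChange A).Nonsingular (algebraMap k[X] A (secX q r s ξ))
      (algebraMap k[X] A (secY q r s ξ)) := by
  apply (h.splitAt A hinj).nonsingular_of_equation
  rw [← map_pow, h.sec_eq hξ]
  simp only [map_mul, map_sub]

end GoodPair

end Curve

section LevelOne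

variable {k kb F Ω : Type*} [Field k] [Field kb] [Algebra k kb] [Algebra.IsAlgebraic k kb]
  [IsAlgClosed kb] [Field F] [Algebra kb[X] F] [IsFractionRing kb[X] F] [Algebra k[X] F]
  [Field Ω] [Algebra F Ω] [Algebra k[X] Ω] [IsScalarTower k[X] F Ω] [Algebra kb[X] Ω]
  [IsScalarTower kb[X] F Ω] [IsSepClosure F Ω]

variable {q n : ℕ} {r s : k[X]}

/-- Sections are divisible by two over `Ω`, and the parities of their Kummer classes. -/
lemma GoodPair.exists_kummer (h : GoodPair q n r s)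
    (hk : ∀ p : k[X], algebraMap k[X] F p = algebraMap kb[X] F (p.map (algebraMap k kb)))
    (hΩ : SplitAt Ω (legendreCurve q r s) 0 (-(r ^ (q + 1))) (-(s ^ (q + 1))))
    {K : Type*} [Field K] [Algebra k[X] K] [IsFractionRing k[X] K] (f : K →ₐ[k[X]] Ω)
    {ξ : k} (hξ : ξ ^ (q + 1) = 1) :
    ∃ (P : ((legendreCurve q r s).baseChange K).Point)
      (Q : ((legendreCurve q r s).baseChange Ω).Point), Q + Q = Point.map f P ∧
      (∀ g : Ω ≃ₐ[F] Ω, (Point.map (g : Ω →ₐ[F] Ω) Q - Q) + (Point.map (g : Ω →ₐ[F] Ω) Q - Q)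
        = 0) ∧
      PRep hΩ.rot (fun g : Ω ≃ₐ[F] Ω => Point.map (g : Ω →ₐ[F] Ω) Q - Q)
        ((r * (r + C ξ * s) ^ q).map (algebraMap k kb)) ∧
      PRep hΩ.rot.swap12 (fun g : Ω ≃ₐ[F] Ω => Point.map (g : Ω →ₐ[F] Ω) Q - Q)
        (((C ξ * s) ^ q * (r + C ξ * s)).map (algebraMap k kb)) := by
  have hFinj : Function.Injective (algebraMap k[X] F) := by
    intro x y hxy
    rw [hk, hk] at hxy
    exact map_injective _ (algebraMap k kb).injective (IsFractionRing.injective kb[X] F hxy)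
  have hKinj : Function.Injective (algebraMap k[X] K) := IsFractionRing.injective k[X] K
  have hsc : IsSepClosed Ω := IsSepClosure.sep_closed F
  have h2Ω : NeZero (2 : Ω) := ⟨hΩ.two⟩
  obtain ⟨Q, hQ⟩ := hΩ.exists_half (fun z => by
    obtain ⟨w, hw⟩ := IsSepClosed.exists_eq_mul_self z
    exact ⟨w, by rw [hw]; ring⟩) (Point.map (W' := legendreCurve q r s) (Algebra.ofId F Ω)
      (.some _ _ (h.sec_nonsingular hξ F hFinj)))
  have hx1 : algebraMap k[X] F (secX q r s ξ) ≠ algebraMap k[X] F (-(r ^ (q + 1))) := by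
    intro h0
    have h1 := sub_eq_zero.mpr (hFinj h0)
    rw [h.secX_sub_left] at h1
    exact mul_ne_zero h.left_ne_zero (pow_ne_zero q (h.other_ne_zero hξ)) h1
  have hCs : C ξ * s ≠ 0 :=
    mul_ne_zero (by rw [Ne, C_eq_zero]; exact GoodPair.root_ne_zero hξ) h.right_ne_zero
  have hx2 : algebraMap k[X] F (secX q r s ξ) ≠ algebraMap k[X] F (-(s ^ (q + 1))) := by
    intro h0
    have h1 := sub_eq_zero.mpr (hFinj h0)
    rw [GoodPair.secX_sub_right hξ] at h1
    exact mul_ne_zero (pow_ne_zero q hCs) (h.other_ne_zero hξ) h1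
  refine ⟨.some _ _ (h.sec_nonsingular hξ K hKinj), Q, ?_, ?_, ?_, ?_⟩
  · rw [hQ, Point.map_some, Point.map_some]
    simp only [Point.some.injEq]
    constructor
    · change algebraMap F Ω _ = _
      rw [← IsScalarTower.algebraMap_apply, AlgHom.commutes]
    · change algebraMap F Ω _ = _
      rw [← IsScalarTower.algebraMap_apply, AlgHom.commutes]
  · exact kummer_two_torsion _ Q hQ
  · have h1 := rep_kummer hΩ.rot (h.sec_nonsingular hξ F hFinj) hx1 Q hQ
    rw [← map_sub, h.secX_sub_left, hk] at h1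
    exact h1
  · have h1 := rep_kummer hΩ.rot.swap12 (h.sec_nonsingular hξ F hFinj) hx2 Q hQ
    rw [← map_sub, GoodPair.secX_sub_right hξ, hk] at h1
    exact h1

omit [Algebra.IsAlgebraic k kb] in
/-- Constant parities with odd support and even degree vanish. -/
lemma par_final {Y : Finset kb} (hY : OddOrbit k Y) {A : kb[X]} (h0 : ∀ α, α ∉ Y → par A α = 0)
    (hconst : ∀ α ∈ Y, ∀ β ∈ Y, par A α = par A β) (hdeg : (A.natDegree : ZMod 2) = 0) :
    ∀ α, par A α = 0 := by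
  intro α
  by_cases hα : α ∈ Y
  · have h1 := sum_par A Y h0
    rw [hdeg, Finset.sum_congr rfl fun β hβ => hconst β hβ α hα, Finset.sum_const,
      nsmul_eq_mul] at h1
    exact odd_mul_eq_zero hY.odd h1
  · exact h0 α hα

omit [Algebra.IsAlgebraic k kb] [IsAlgClosed kb] in
lemma par_map_of_not_mem {g : k[X]} (hg : g ≠ 0) {α : kb} (h : α ∉ rootSetOf kb g) :
    par (g.map (algebraMap k kb)) α = 0 := by
  unfold par
  rw [par_eq_zero_of_not_mem hg h, Nat.cast_zero]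

omit [Algebra.IsAlgebraic k kb] [IsAlgClosed kb] in
lemma GoodPair.par_left (h : GoodPair q n r s) {ξ : k} (hξ : ξ ^ (q + 1) = 1) (α : kb) :
    par ((r * (r + C ξ * s) ^ q).map (algebraMap k kb)) α =
      par (r.map (algebraMap k kb)) α + par ((r + C ξ * s).map (algebraMap k kb)) α := by
  have h1 : r.map (algebraMap k kb) ≠ 0 := by
    rw [Ne, Polynomial.map_eq_zero]; exact h.left_ne_zero
  have h2 : (r + C ξ * s).map (algebraMap k kb) ≠ 0 := by
    rw [Ne, Polynomial.map_eq_zero]; exact h.other_ne_zero hξ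
  rw [Polynomial.map_mul, Polynomial.map_pow, par_mul h1 (pow_ne_zero q h2), par_pow h2,
    ZMod.natCast_eq_one_iff_odd.mpr h.oddq, one_mul]

omit [Algebra.IsAlgebraic k kb] [IsAlgClosed kb] in
lemma GoodPair.par_right (h : GoodPair q n r s) {ξ : k} (hξ : ξ ^ (q + 1) = 1) (α : kb) :
    par (((C ξ * s) ^ q * (r + C ξ * s)).map (algebraMap k kb)) α =
      par (s.map (algebraMap k kb)) α + par ((r + C ξ * s).map (algebraMap k kb)) α := by
  have h1 : s.map (algebraMap k kb) ≠ 0 := by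
    rw [Ne, Polynomial.map_eq_zero]; exact h.right_ne_zero
  have h2 : (r + C ξ * s).map (algebraMap k kb) ≠ 0 := by
    rw [Ne, Polynomial.map_eq_zero]; exact h.other_ne_zero hξ
  have h3 : algebraMap k kb ξ ≠ 0 := by
    rw [Ne, map_eq_zero]; exact GoodPair.root_ne_zero hξ
  have h4 : par (C (algebraMap k kb ξ)) α = 0 := by
    unfold par
    rw [rootMultiplicity_C, Nat.cast_zero]
  have h5 : (C (algebraMap k kb ξ) : kb[X]) ≠ 0 := by rwa [Ne, C_eq_zero]
  rw [Polynomial.map_mul, Polynomial.map_pow, Polynomial.map_mul, Polynomial.map_C,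
    par_mul (pow_ne_zero q (mul_ne_zero h5 h1)) h2, par_pow (mul_ne_zero h5 h1),
    ZMod.natCast_eq_one_iff_odd.mpr h.oddq, one_mul, par_mul h5 h1, h4, zero_add]

omit [Algebra.IsAlgebraic k kb] [IsAlgClosed kb] in
lemma GoodPair.par_other (h : GoodPair q n r s)
    (hodd : ∀ ξ : k, ξ ^ (q + 1) = 1 → ∀ α ∈ rootSetOf kb (r + C ξ * s),
      par ((r + C ξ * s).map (algebraMap k kb)) α = 1)
    (S : Finset k) (hS : ∀ ξ ∈ S, ξ ^ (q + 1) = 1) {ξ₀ : k}
    (hξ₀ : ξ₀ ^ (q + 1) = 1) {α : kb} (hα : α ∈ rootSetOf kb (r + C ξ₀ * s)) :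
    ∑ ξ ∈ S, par ((r + C ξ * s).map (algebraMap k kb)) α = if ξ₀ ∈ S then 1 else 0 := by
  have h1 : ∀ ξ ∈ S, par ((r + C ξ * s).map (algebraMap k kb)) α =
      if ξ = ξ₀ then 1 else 0 := by
    intro ξ hξ
    split_ifs with e
    · subst e
      exact hodd ξ hξ₀ α hα
    · exact par_map_of_not_mem (h.other_ne_zero (hS ξ hξ))
        (h.other_disjoint hξ₀ (hS ξ hξ) (Ne.symm e) hα)
  rw [Finset.sum_congr rfl h1, Finset.sum_ite_eq']

/-- The combinatorial heart: some combination of sections has the given parities. -/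
lemma GoodPair.parity (h : GoodPair q n r s) {A B : kb[X]} (hA : A ≠ 0) (hB : B ≠ 0)
    (pA0 : ∀ α : kb, α ∉ rootSetOf kb r →
      (∀ ξ : k, ξ ^ (q + 1) = 1 → α ∉ rootSetOf kb (r + C ξ * s)) → par A α = 0)
    (pB0 : ∀ α : kb, α ∉ rootSetOf kb s →
      (∀ ξ : k, ξ ^ (q + 1) = 1 → α ∉ rootSetOf kb (r + C ξ * s)) → par B α = 0)
    (pAB : ∀ ξ : k, ξ ^ (q + 1) = 1 → ∀ α ∈ rootSetOf kb (r + C ξ * s), par B α = par A α)
    (pAc : ∀ ξ : k, ξ ^ (q + 1) = 1 → ∀ α ∈ rootSetOf kb (r + C ξ * s),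
      ∀ β ∈ rootSetOf kb (r + C ξ * s), par A α = par A β)
    (cA : ∀ α ∈ rootSetOf kb r, ∀ β ∈ rootSetOf kb r, par A α = par A β)
    (cB : ∀ α ∈ rootSetOf kb s, ∀ β ∈ rootSetOf kb s, par B α = par B β)
    (hdA : (A.natDegree : ZMod 2) = 0) (hdB : (B.natDegree : ZMod 2) = 0) :
    ∃ S : Finset k, (∀ ξ ∈ S, ξ ^ (q + 1) = 1) ∧
      (∀ α, par (A * ∏ ξ ∈ S, (r * (r + C ξ * s) ^ q).map (algebraMap k kb)) α = 0) ∧
      (∀ α, par (B * ∏ ξ ∈ S, ((C ξ * s) ^ q * (r + C ξ * s)).map (algebraMap k kb)) α = 0) := by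
  have hXr := h.left.oddOrbit (kb := kb) h.odd
  have hXs := h.right.oddOrbit (kb := kb) h.odd
  have hX : ∀ ξ : k, ξ ^ (q + 1) = 1 → _ := fun ξ hξ => (h.other ξ hξ).oddOrbit (kb := kb) h.odd
  set S : Finset k := (nthRootsFinset (q + 1) (1 : k)).filter
    (fun ξ => ∃ α ∈ rootSetOf kb (r + C ξ * s), par A α ≠ 0) with hS
  have hS1 : ∀ ξ ∈ S, ξ ^ (q + 1) = 1 := by
    intro ξ hξ
    rw [hS, Finset.mem_filter, mem_nthRootsFinset (Nat.succ_pos q)] at hξ
    exact hξ.1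
  have hSA : ∀ ξ : k, ξ ^ (q + 1) = 1 → ∀ α ∈ rootSetOf kb (r + C ξ * s),
      par A α = if ξ ∈ S then 1 else 0 := by
    intro ξ hξ α hα
    split_ifs with hmem
    · rw [hS, Finset.mem_filter] at hmem
      obtain ⟨-, β, hβ, h1⟩ := hmem
      rw [pAc ξ hξ α hα β hβ]
      exact Fin.eq_one_of_ne_zero _ h1
    · by_contra h1
      apply hmem
      rw [hS, Finset.mem_filter, mem_nthRootsFinset (Nat.succ_pos q)]
      exact ⟨hξ, α, hα, h1⟩
  clear_value S
  refine ⟨S, hS1, ?_⟩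
  -- nonvanishing
  have neA : ∀ ξ ∈ S, (r * (r + C ξ * s) ^ q).map (algebraMap k kb) ≠ 0 := by
    intro ξ hξ
    rw [Ne, Polynomial.map_eq_zero]
    exact mul_ne_zero h.left_ne_zero (pow_ne_zero q (h.other_ne_zero (hS1 ξ hξ)))
  have neC : ∀ ξ ∈ S, C ξ * s ≠ 0 := by
    intro ξ hξ
    have hξ0 : ξ ≠ 0 := GoodPair.root_ne_zero (hS1 ξ hξ)
    exact mul_ne_zero (by rwa [Ne, C_eq_zero]) h.right_ne_zero
  have neB : ∀ ξ ∈ S, ((C ξ * s) ^ q * (r + C ξ * s)).map (algebraMap k kb) ≠ 0 := by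
    intro ξ hξ
    rw [Ne, Polynomial.map_eq_zero]
    exact mul_ne_zero (pow_ne_zero q (neC ξ hξ)) (h.other_ne_zero (hS1 ξ hξ))
  -- parities of the modified class
  have qA : ∀ α : kb, par (A * ∏ ξ ∈ S, (r * (r + C ξ * s) ^ q).map (algebraMap k kb)) α =
      par A α + (S.card • par (r.map (algebraMap k kb)) α +
        ∑ ξ ∈ S, par ((r + C ξ * s).map (algebraMap k kb)) α) := by
    intro α
    rw [par_mul hA (Finset.prod_ne_zero_iff.mpr neA), par_prod S _ neA,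
      Finset.sum_congr rfl fun ξ hξ => h.par_left (hS1 ξ hξ) α, Finset.sum_add_distrib,
      Finset.sum_const]
  have qB : ∀ α : kb, par (B * ∏ ξ ∈ S, ((C ξ * s) ^ q * (r + C ξ * s)).map (algebraMap k kb)) α =
      par B α + (S.card • par (s.map (algebraMap k kb)) α +
        ∑ ξ ∈ S, par ((r + C ξ * s).map (algebraMap k kb)) α) := by
    intro α
    rw [par_mul hB (Finset.prod_ne_zero_iff.mpr neB), par_prod S _ neB,
      Finset.sum_congr rfl fun ξ hξ => h.par_right (hS1 ξ hξ) α, Finset.sum_add_distrib,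
      Finset.sum_const]
  have hout : ∀ α : kb, (∀ ξ : k, ξ ^ (q + 1) = 1 → α ∉ rootSetOf kb (r + C ξ * s)) →
      ∑ ξ ∈ S, par ((r + C ξ * s).map (algebraMap k kb)) α = 0 := by
    intro α hα
    exact Finset.sum_eq_zero fun ξ hξ =>
      par_map_of_not_mem (h.other_ne_zero (hS1 ξ hξ)) (hα ξ (hS1 ξ hξ))
  have qA0 : ∀ α : kb, α ∉ rootSetOf kb r →
      par (A * ∏ ξ ∈ S, (r * (r + C ξ * s) ^ q).map (algebraMap k kb)) α = 0 := by
    intro α hα
    rw [qA, par_map_of_not_mem h.left_ne_zero hα, smul_zero, zero_add]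
    by_cases hex : ∃ ξ₀ : k, ξ₀ ^ (q + 1) = 1 ∧ α ∈ rootSetOf kb (r + C ξ₀ * s)
    · obtain ⟨ξ₀, hξ₀, hα₀⟩ := hex
      rw [h.par_other (fun ξ hξ => (hX ξ hξ).2) S hS1 hξ₀ hα₀, hSA ξ₀ hξ₀ α hα₀,
        CharTwo.add_self_eq_zero]
    · have hex' : ∀ ξ : k, ξ ^ (q + 1) = 1 → α ∉ rootSetOf kb (r + C ξ * s) :=
        fun ξ hξ hmem => hex ⟨ξ, hξ, hmem⟩
      rw [hout α hex', pA0 α hα hex', add_zero]
  have qB0 : ∀ α : kb, α ∉ rootSetOf kb s →
      par (B * ∏ ξ ∈ S, ((C ξ * s) ^ q * (r + C ξ * s)).map (algebraMap k kb)) α = 0 := by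
    intro α hα
    rw [qB, par_map_of_not_mem h.right_ne_zero hα, smul_zero, zero_add]
    by_cases hex : ∃ ξ₀ : k, ξ₀ ^ (q + 1) = 1 ∧ α ∈ rootSetOf kb (r + C ξ₀ * s)
    · obtain ⟨ξ₀, hξ₀, hα₀⟩ := hex
      rw [h.par_other (fun ξ hξ => (hX ξ hξ).2) S hS1 hξ₀ hα₀, pAB ξ₀ hξ₀ α hα₀,
        hSA ξ₀ hξ₀ α hα₀, CharTwo.add_self_eq_zero]
    · have hex' : ∀ ξ : k, ξ ^ (q + 1) = 1 → α ∉ rootSetOf kb (r + C ξ * s) :=
        fun ξ hξ hmem => hex ⟨ξ, hξ, hmem⟩
      rw [hout α hex', pB0 α hα hex', add_zero]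
  have qAc : ∀ α ∈ rootSetOf kb r, ∀ β ∈ rootSetOf kb r,
      par (A * ∏ ξ ∈ S, (r * (r + C ξ * s) ^ q).map (algebraMap k kb)) α =
        par (A * ∏ ξ ∈ S, (r * (r + C ξ * s) ^ q).map (algebraMap k kb)) β := by
    intro α hα β hβ
    rw [qA, qA, hXr.2 α hα, hXr.2 β hβ, cA α hα β hβ,
      hout α fun ξ hξ hmem => h.other_not_left hξ hmem hα,
      hout β fun ξ hξ hmem => h.other_not_left hξ hmem hβ]
  have qBc : ∀ α ∈ rootSetOf kb s, ∀ β ∈ rootSetOf kb s,
      par (B * ∏ ξ ∈ S, ((C ξ * s) ^ q * (r + C ξ * s)).map (algebraMap k kb)) α =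
        par (B * ∏ ξ ∈ S, ((C ξ * s) ^ q * (r + C ξ * s)).map (algebraMap k kb)) β := by
    intro α hα β hβ
    rw [qB, qB, hXs.2 α hα, hXs.2 β hβ, cB α hα β hβ,
      hout α fun ξ hξ hmem => h.other_not_right hξ hmem hα,
      hout β fun ξ hξ hmem => h.other_not_right hξ hmem hβ]
  -- degrees
  have hqodd : ((q : ZMod 2)) = 1 := ZMod.natCast_eq_one_iff_odd.mpr h.oddq
  have degA : ∀ ξ ∈ S, ((((r * (r + C ξ * s) ^ q).map (algebraMap k kb)).natDegree : ℕ) :
      ZMod 2) = 0 := by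
    intro ξ hξ
    rw [natDegree_map, natDegree_mul h.left_ne_zero (pow_ne_zero q (h.other_ne_zero (hS1 ξ hξ))),
      natDegree_pow, h.left.1, (h.other ξ (hS1 ξ hξ)).1]
    push_cast
    rw [hqodd, one_mul, CharTwo.add_self_eq_zero]
  have degB : ∀ ξ ∈ S, (((((C ξ * s) ^ q * (r + C ξ * s)).map (algebraMap k kb)).natDegree : ℕ) :
      ZMod 2) = 0 := by
    intro ξ hξ
    have hξ0 : ξ ≠ 0 := GoodPair.root_ne_zero (hS1 ξ hξ)
    rw [natDegree_map, natDegree_mul (pow_ne_zero q (neC ξ hξ)) (h.other_ne_zero (hS1 ξ hξ)),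
      natDegree_pow, natDegree_C_mul hξ0, h.right.1, (h.other ξ (hS1 ξ hξ)).1]
    push_cast
    rw [hqodd, one_mul, CharTwo.add_self_eq_zero]
  have dA' : (((A * ∏ ξ ∈ S, (r * (r + C ξ * s) ^ q).map (algebraMap k kb)).natDegree : ℕ) :
      ZMod 2) = 0 := by
    rw [natDegree_mul hA (Finset.prod_ne_zero_iff.mpr neA), natDegree_prod _ _ neA]
    push_cast
    rw [hdA, Finset.sum_eq_zero degA, add_zero]
  have dB' : (((B * ∏ ξ ∈ S, ((C ξ * s) ^ q * (r + C ξ * s)).map (algebraMap k kb)).natDegree : ℕ) :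
      ZMod 2) = 0 := by
    rw [natDegree_mul hB (Finset.prod_ne_zero_iff.mpr neB), natDegree_prod _ _ neB]
    push_cast
    rw [hdB, Finset.sum_eq_zero degB, add_zero]
  exact ⟨par_final hXr.1 qA0 qAc dA', par_final hXs.1 qB0 qBc dB'⟩

/-- The multiplicities of the differences of the roots. -/
lemma GoodPair.mult (h : GoodPair q n r s) (α : kb) :
    (α ∉ rootSetOf kb r → ((-(r ^ (q + 1)) - 0).map (algebraMap k kb)).rootMultiplicity α = 0) ∧
    (α ∉ rootSetOf kb s → ((-(s ^ (q + 1)) - 0).map (algebraMap k kb)).rootMultiplicity α = 0) ∧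
    (α ∉ rootSetOf kb r → ((0 - -(r ^ (q + 1))).map (algebraMap k kb)).rootMultiplicity α = 0) ∧
    (α ∉ rootSetOf kb s → ((0 - -(s ^ (q + 1))).map (algebraMap k kb)).rootMultiplicity α = 0) ∧
    ((∀ ξ : k, ξ ^ (q + 1) = 1 → α ∉ rootSetOf kb (r + C ξ * s)) →
      ((-(r ^ (q + 1)) - -(s ^ (q + 1))).map (algebraMap k kb)).rootMultiplicity α = 0) ∧
    ((∀ ξ : k, ξ ^ (q + 1) = 1 → α ∉ rootSetOf kb (r + C ξ * s)) →
      ((-(s ^ (q + 1)) - -(r ^ (q + 1))).map (algebraMap k kb)).rootMultiplicity α = 0) := by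
  refine ⟨?_, ?_, ?_, ?_, ?_, ?_⟩
  · intro hα
    rw [h.mem_left] at hα
    apply rootMultiplicity_eq_zero
    rw [IsRoot.def, eval_map_algebraMap, sub_zero, map_neg, map_pow, neg_eq_zero]
    exact fun h0 => hα (eq_zero_of_pow_eq_zero h0)
  · intro hα
    rw [h.mem_right] at hα
    apply rootMultiplicity_eq_zero
    rw [IsRoot.def, eval_map_algebraMap, sub_zero, map_neg, map_pow, neg_eq_zero]
    exact fun h0 => hα (eq_zero_of_pow_eq_zero h0)
  · intro hα
    rw [h.mem_left] at hα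
    apply rootMultiplicity_eq_zero
    rw [IsRoot.def, eval_map_algebraMap, zero_sub, neg_neg, map_pow]
    exact fun h0 => hα (eq_zero_of_pow_eq_zero h0)
  · intro hα
    rw [h.mem_right] at hα
    apply rootMultiplicity_eq_zero
    rw [IsRoot.def, eval_map_algebraMap, zero_sub, neg_neg, map_pow]
    exact fun h0 => hα (eq_zero_of_pow_eq_zero h0)
  · intro hα
    apply rootMultiplicity_eq_zero
    rw [IsRoot.def, eval_map_algebraMap,
      show -(r ^ (q + 1)) - -(s ^ (q + 1)) = -(r ^ (q + 1) - s ^ (q + 1)) by ring, map_neg,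
      neg_eq_zero]
    intro h0
    obtain ⟨ξ, hξ, h1⟩ := h.exists_mem_other h0
    exact hα ξ hξ h1
  · intro hα
    apply rootMultiplicity_eq_zero
    rw [IsRoot.def, eval_map_algebraMap,
      show -(s ^ (q + 1)) - -(r ^ (q + 1)) = (r ^ (q + 1) - s ^ (q + 1)) by ring]
    intro h0
    obtain ⟨ξ, hξ, h1⟩ := h.exists_mem_other h0
    exact hα ξ hξ h1

omit [Algebra.IsAlgebraic k kb] [IsAlgClosed kb] [Algebra k kb] [Field kb] [Algebra kb[X] F]
  [IsFractionRing kb[X] F] [Algebra kb[X] Ω] [IsScalarTower kb[X] F Ω] [IsSepClosure F Ω]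
  [Field F] [Algebra k[X] F] [Algebra F Ω] [IsScalarTower k[X] F Ω] [Algebra k[X] Ω] [Field Ω] in
lemma GoodPair.degrees (h : GoodPair q n r s) :
    (-(r ^ (q + 1)) - -(s ^ (q + 1))).natDegree = n * (q + 1) ∧
    (-(s ^ (q + 1)) - -(r ^ (q + 1))).natDegree = n * (q + 1) ∧
    (-(r ^ (q + 1)) - 0).natDegree = n * (q + 1) ∧
    (-(s ^ (q + 1)) - 0).natDegree = n * (q + 1) ∧ Even (n * (q + 1)) := by
  refine ⟨?_, ?_, ?_, ?_, h.oddq.add_one.mul_left n⟩
  · rw [show -(r ^ (q + 1)) - -(s ^ (q + 1)) = -(r ^ (q + 1) - s ^ (q + 1)) by ring,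
      natDegree_neg, h.natDegree_sub]
  · rw [show -(s ^ (q + 1)) - -(r ^ (q + 1)) = (r ^ (q + 1) - s ^ (q + 1)) by ring,
      h.natDegree_sub]
  · rw [sub_zero, natDegree_neg, natDegree_pow, h.left.1, mul_comm]
  · rw [sub_zero, natDegree_neg, natDegree_pow, h.right.1, mul_comm]

/-- Every invariant Selmer class is, modulo two, the Kummer class of a `k(t)`-rational point. -/
theorem GoodPair.level_one (h : GoodPair q n r s)
    (hk : ∀ p : k[X], algebraMap k[X] F p = algebraMap kb[X] F (p.map (algebraMap k kb)))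
    {L : Type*} [Field L] [Algebra F L] (w : Valuation L ℤᵐ⁰)
    (hw : ∀ p : kb[X], p ≠ 0 → lg w (algebraMap F L (algebraMap kb[X] F p)) = p.natDegree)
    {K : Type*} [Field K] [Algebra k[X] K] [IsFractionRing k[X] K] (f : K →ₐ[k[X]] Ω)
    (c : TateCocycle F Ω (legendreCurve q r s))
    (hfin : ∀ α : kb, IsLocallyTrivial ((placeOf α).adicCompletion F) (c.level 1))
    (hinf : IsLocallyTrivial L (c.level 1)) (hinv : c.IsInvariantModTorsion) :
    c.IsKummerOf K 1 := by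
  have : IsGalois F Ω := inferInstance
  have hFinj : Function.Injective (algebraMap k[X] F) := by
    intro x y hxy
    rw [hk, hk] at hxy
    exact map_injective _ (algebraMap k kb).injective (IsFractionRing.injective kb[X] F hxy)
  have hF := h.splitAt F hFinj
  have hΩ : SplitAt Ω (legendreCurve q r s) 0 (-(r ^ (q + 1))) (-(s ^ (q + 1))) :=
    hF.up (Algebra.ofId F Ω)
  have c2 := level_one_two_torsion c
  have cmul : ∀ g g', c.level 1 (g * g') = c.level 1 g + c.level 1 g' := by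
    intro g g'
    rw [c.level_mul, map_two_torsion (g : Ω →ₐ[F] Ω) hΩ (c2 g')]
  -- the two representing polynomials
  obtain ⟨A, hA⟩ := exists_pRep (kb := kb) hΩ.rot c2 cmul (c.isLocallyConstant_level 1)
  obtain ⟨B, hB⟩ := exists_pRep (kb := kb) hΩ.rot.swap12 c2 cmul (c.isLocallyConstant_level 1)
  have hAB := PRep.third (hΩ := hΩ) c2 hA hB
  obtain ⟨hdrs, hdsr, hdr, hds, hev⟩ := h.degrees
  obtain ⟨S, hS1, zA, zB⟩ := h.parity hA.ne_zero hB.ne_zero
    (fun α h1 h2 => by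
      obtain ⟨m1, m2, m3, m4, m5, m6⟩ := h.mult (kb := kb) α
      exact par_eq_zero_of_local hk hΩ.rot hF.rot c2 α (hfin α) hA
        ((m5 h2).trans (m1 h1).symm) (by rw [m5 h2]; exact Even.zero))
    (fun α h1 h2 => by
      obtain ⟨m1, m2, m3, m4, m5, m6⟩ := h.mult (kb := kb) α
      exact par_eq_zero_of_local hk hΩ.rot.swap12 hF.rot.swap12 c2 α (hfin α) hB
        ((m6 h2).trans (m2 h1).symm) (by rw [m6 h2]; exact Even.zero))
    (fun ξ hξ α hα => by
      obtain ⟨m1, m2, m3, m4, m5, m6⟩ := h.mult (kb := kb) α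
      have h1 : par (A * B) α = 0 := par_eq_zero_of_local hk hΩ hF c2 α (hfin α) hAB
        ((m3 (h.other_not_left hξ hα)).trans (m4 (h.other_not_right hξ hα)).symm)
        (by rw [m3 (h.other_not_left hξ hα)]; exact Even.zero)
      rw [par_mul hA.ne_zero hB.ne_zero] at h1
      exact (CharTwo.add_eq_zero.mp h1).symm)
    (fun ξ hξ => level_one_const hk hΩ.rot ((h.other ξ hξ).oddOrbit h.odd).1 c hinv hA)
    (level_one_const hk hΩ.rot (h.left.oddOrbit h.odd).1 c hinv hA)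
    (level_one_const hk hΩ.rot.swap12 (h.right.oddOrbit h.odd).1 c hinv hB)
    (natDegree_eq_zero_of_local hk w hw hΩ.rot hF.rot c2 hinf hA (hdrs.trans hdr.symm)
      (by rw [hdrs]; exact hev))
    (natDegree_eq_zero_of_local hk w hw hΩ.rot.swap12 hF.rot.swap12 c2 hinf hB
      (hdsr.trans hds.symm) (by rw [hdsr]; exact hev))
  -- the linear combination of sections
  have hex : ∀ ξ : k, ∃ (P : ((legendreCurve q r s).baseChange K).Point)
      (Q : ((legendreCurve q r s).baseChange Ω).Point), ξ ^ (q + 1) = 1 → Q + Q = Point.map f P ∧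
      (∀ g : Ω ≃ₐ[F] Ω, (Point.map (g : Ω →ₐ[F] Ω) Q - Q) + (Point.map (g : Ω →ₐ[F] Ω) Q - Q)
        = 0) ∧
      PRep hΩ.rot (fun g : Ω ≃ₐ[F] Ω => Point.map (g : Ω →ₐ[F] Ω) Q - Q)
        ((r * (r + C ξ * s) ^ q).map (algebraMap k kb)) ∧
      PRep hΩ.rot.swap12 (fun g : Ω ≃ₐ[F] Ω => Point.map (g : Ω →ₐ[F] Ω) Q - Q)
        (((C ξ * s) ^ q * (r + C ξ * s)).map (algebraMap k kb)) := by
    intro ξ
    by_cases hξ : ξ ^ (q + 1) = 1
    · obtain ⟨P, Q, H⟩ := h.exists_kummer hk hΩ f hξ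
      exact ⟨P, Q, fun _ => H⟩
    · exact ⟨0, 0, fun h0 => absurd h0 hξ⟩
  choose P Q hPQ using hex
  obtain ⟨hδ2, hδA⟩ := pRep_sum (hΩ := hΩ.rot) S
    (fun ξ => (r * (r + C ξ * s) ^ q).map (algebraMap k kb))
    (fun (ξ : k) (g : Ω ≃ₐ[F] Ω) => Point.map (g : Ω →ₐ[F] Ω) (Q ξ) - Q ξ)
    (fun ξ hξ => (hPQ ξ (hS1 ξ hξ)).2.1) (fun ξ hξ => (hPQ ξ (hS1 ξ hξ)).2.2.1)
  obtain ⟨-, hδB⟩ := pRep_sum (hΩ := hΩ.rot.swap12) S
    (fun ξ => ((C ξ * s) ^ q * (r + C ξ * s)).map (algebraMap k kb))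
    (fun (ξ : k) (g : Ω ≃ₐ[F] Ω) => Point.map (g : Ω →ₐ[F] Ω) (Q ξ) - Q ξ)
    (fun ξ hξ => (hPQ ξ (hS1 ξ hξ)).2.1) (fun ξ hξ => (hPQ ξ (hS1 ξ hξ)).2.2.2)
  have hzero : ∀ g : Ω ≃ₐ[F] Ω,
      c.level 1 g + ∑ ξ ∈ S, (Point.map (g : Ω →ₐ[F] Ω) (Q ξ) - Q ξ) = 0 :=
    eq_zero_of_par (hΩ := hΩ.rot) (fun g => by rw [add_add_add_comm, c2, hδ2, add_zero])
      (hA.mul hδA c2 hδ2) (hB.mul hδB c2 hδ2) zA zB
  refine ⟨f, ∑ ξ ∈ S, P ξ, ∑ ξ ∈ S, Q ξ, ?_, fun g => ?_⟩
  · rw [pow_one, two_nsmul, map_sum, ← Finset.sum_add_distrib]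
    exact Finset.sum_congr rfl fun ξ hξ => (hPQ ξ (hS1 ξ hξ)).1
  · rw [map_sum, ← Finset.sum_sub_distrib]
    have h1 := hzero g
    have h2 := hδ2 g
    rw [← h2] at h1
    exact add_right_cancel h1

end LevelOne

end Pool.Agent.Lib.MP_89bcae_ag
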