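import Mathlib
import Pool.Agent.Lib.MP_89bcae_ag.Family

/-!
# From level two to the Tate conjecture
-/

open Polynomial WeierstrassCurve WeierstrassCurve.Affine IsDedekindDomain WithZero

open scoped Classical

namespace Pool.Agent.Lib.MP_89bcae_ag

universe u

variable {k : Type u} [Field k]

lemma geom_compat (p : k[X]) : algebraMap k[X] (RatFunc (AlgebraicClosure k)) p =
    algebraMap (AlgebraicClosure k)[X] (RatFunc (AlgebraicClosure k))
      (p.map (algebraMap k (AlgebraicClosure k))) := rfl

lemma geom_injective : Function.Injective (algebraMap k[X] (RatFunc (AlgebraicClosure k))) := by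
  intro x y hxy
  rw [geom_compat, geom_compat] at hxy
  exact map_injective _ (algebraMap k (AlgebraicClosure k)).injective
    (IsFractionRing.injective (AlgebraicClosure k)[X] (RatFunc (AlgebraicClosure k)) hxy)

/-- Points over a separable closure are divisible by two. -/
lemma exists_half_of_splitAt {R F Ω : Type*} [CommRing R] [Field F] [Field Ω] [Algebra R F]
    [Algebra R Ω] [Algebra F Ω] [IsScalarTower R F Ω] [IsSepClosure F Ω] {W : Affine R}
    {a b c : R} (hΩ : SplitAt Ω W a b c) (P : (W.baseChange Ω).Point) :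
    ∃ Q : (W.baseChange Ω).Point, Q + Q = P := by
  have hsc : IsSepClosed Ω := IsSepClosure.sep_closed F
  have h2Ω : NeZero (2 : Ω) := ⟨hΩ.two⟩
  exact hΩ.exists_half (fun z => by
    obtain ⟨w, hw⟩ := IsSepClosed.exists_eq_mul_self z
    exact ⟨w, by rw [hw]; ring⟩) P

section

variable {Ω : Type u} [Field Ω] [Algebra (RatFunc (AlgebraicClosure k)) Ω]
  [IsSepClosure (RatFunc (AlgebraicClosure k)) Ω] [Algebra k[X] Ω]
  [IsScalarTower k[X] (RatFunc (AlgebraicClosure k)) Ω]

lemma geom_injective' : Function.Injective (algebraMap k[X] Ω) := by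
  intro x y hxy
  rw [IsScalarTower.algebraMap_apply k[X] (RatFunc (AlgebraicClosure k)) Ω,
    IsScalarTower.algebraMap_apply k[X] (RatFunc (AlgebraicClosure k)) Ω] at hxy
  exact geom_injective ((algebraMap (RatFunc (AlgebraicClosure k)) Ω).injective hxy)

/-- The embedding of `k(t)` in `Ω`. -/
noncomputable def geomEmb : RatFunc k →ₐ[k[X]] Ω :=
  IsFractionRing.liftAlgHom (g := Algebra.ofId k[X] Ω) geom_injective'

/-- If every invariant Selmer class is modulo two the class of a `k(t)`-rational point, and points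
over a separable closure are divisible by two, then the Tate conjecture at two holds. -/
theorem isKummerOf_of_selmer {W : Affine k[X]}
    (key : ∀ c : TateCocycle (RatFunc (AlgebraicClosure k)) Ω W, IsSelmer c →
      c.IsInvariantModTorsion → c.IsKummerOf (RatFunc k) 1)
    {a b c : k[X]} (hF : SplitAt (RatFunc (AlgebraicClosure k)) W a b c)
    (c : TateCocycle (RatFunc (AlgebraicClosure k)) Ω W) (hc : IsSelmer c)
    (hinv : c.IsInvariantModTorsion) (n : ℕ) : c.IsKummerOf (RatFunc k) n := by
  have : Nonempty (RatFunc k →ₐ[k[X]] Ω) := ⟨geomEmb⟩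
  exact isKummerOf_of_level_one
    (exists_half_of_splitAt (F := RatFunc (AlgebraicClosure k))
      (hF.up (Algebra.ofId (RatFunc (AlgebraicClosure k)) Ω)))
    IsSelmer (fun c q hq h1 hc n => ⟨fun v => half_selmer _ c q hq h1 n ((hc (n + 1)).1 v),
      half_selmer _ c q hq h1 n (hc (n + 1)).2⟩) key n c hc hinv

end

/-- The Tate conjecture at two for the curves `y² = x (x + r^(q+1)) (x + s^(q+1))`. -/
theorem GoodPair.tateAtTwo {q n : ℕ} {r s : k[X]} (h : GoodPair q n r s) :
    TateAtTwo (legendreCurve q r s) := by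
  intro Ω _ _ _ _ _ c hc hinv
  let _ : Algebra (AlgebraicClosure k)[X] Ω :=
    ((algebraMap (RatFunc (AlgebraicClosure k)) Ω).comp (algebraMap (AlgebraicClosure k)[X]
      (RatFunc (AlgebraicClosure k)))).toAlgebra
  have : IsScalarTower (AlgebraicClosure k)[X] (RatFunc (AlgebraicClosure k)) Ω :=
    IsScalarTower.of_algebraMap_eq fun _ => rfl
  refine isKummerOf_of_selmer ?_ (h.splitAt _ geom_injective) c hc hinv
  intro c hc hinv
  exact h.level_one (kb := AlgebraicClosure k) geom_compat
    (L := RatFunc.CompletionAtInfty (AlgebraicClosure k)) Valued.v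
    (fun p hp => lg_infty hp) geomEmb c (fun α => (hc 1).1 (placeOf α)) (hc 1).2 hinv

end Pool.Agent.Lib.MP_89bcae_ag
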