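import Mathlib
import Pool.Agent.Lib.MP_89bcae_ag.Main

/-!
# A criterion at level two
-/

open Polynomial WeierstrassCurve WeierstrassCurve.Affine IsDedekindDomain WithZero

open scoped Classical

namespace Pool.Agent.Lib.MP_89bcae_ag

section

variable {k kb F Ω : Type*} [Field k] [Field kb] [Algebra k kb] [Algebra.IsAlgebraic k kb]
  [IsAlgClosed kb] [Field F] [Algebra kb[X] F] [IsFractionRing kb[X] F] [Algebra k[X] F]
  [Field Ω] [Algebra F Ω] [Algebra k[X] Ω] [IsScalarTower k[X] F Ω] [Algebra kb[X] Ω]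
  [IsScalarTower kb[X] F Ω] [IsSepClosure F Ω]

variable {W : Affine k[X]} {a b c : k[X]}

omit [Algebra.IsAlgebraic k kb] [IsAlgClosed kb] [Algebra kb[X] Ω] [IsScalarTower kb[X] F Ω] in
/-- Polynomial points are divisible by two over `Ω`, and the parities of their Kummer classes. -/
lemma exists_kummer_of_polynomial
    (hk : ∀ p : k[X], algebraMap k[X] F p = algebraMap kb[X] F (p.map (algebraMap k kb)))
    (hF : SplitAt F W a b c) (hΩ : SplitAt Ω W a b c)
    {K : Type*} [Field K] [Algebra k[X] K] [IsFractionRing k[X] K] (hK : SplitAt K W a b c)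
    (f : K →ₐ[k[X]] Ω) {x y : k[X]} (hxy : y ^ 2 = (x - a) * (x - b) * (x - c))
    (hxa : x ≠ a) (hxb : x ≠ b) :
    ∃ (P : (W.baseChange K).Point) (Q : (W.baseChange Ω).Point), Q + Q = Point.map f P ∧
      (∀ g : Ω ≃ₐ[F] Ω, (Point.map (g : Ω →ₐ[F] Ω) Q - Q) + (Point.map (g : Ω →ₐ[F] Ω) Q - Q)
        = 0) ∧
      PRep hΩ (fun g : Ω ≃ₐ[F] Ω => Point.map (g : Ω →ₐ[F] Ω) Q - Q)
        ((x - a).map (algebraMap k kb)) ∧
      PRep hΩ.swap12 (fun g : Ω ≃ₐ[F] Ω => Point.map (g : Ω →ₐ[F] Ω) Q - Q)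
        ((x - b).map (algebraMap k kb)) := by
  have hFinj : Function.Injective (algebraMap k[X] F) := by
    intro x y hxy
    rw [hk, hk] at hxy
    exact map_injective _ (algebraMap k kb).injective (IsFractionRing.injective kb[X] F hxy)
  have nF : (W.baseChange F).Nonsingular (algebraMap k[X] F x) (algebraMap k[X] F y) := by
    apply hF.nonsingular_of_equation
    rw [← map_pow, hxy]
    simp only [map_mul, map_sub]
  have nK : (W.baseChange K).Nonsingular (algebraMap k[X] K x) (algebraMap k[X] K y) := by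
    apply hK.nonsingular_of_equation
    rw [← map_pow, hxy]
    simp only [map_mul, map_sub]
  obtain ⟨Q, hQ⟩ := exists_half_of_splitAt (F := F) hΩ (Point.map (W' := W) (Algebra.ofId F Ω)
      (.some _ _ nF))
  refine ⟨.some _ _ nK, Q, ?_, ?_, ?_, ?_⟩
  · rw [hQ, Point.map_some, Point.map_some]
    simp only [Point.some.injEq]
    constructor
    · change algebraMap F Ω _ = _
      rw [← IsScalarTower.algebraMap_apply, AlgHom.commutes]
    · change algebraMap F Ω _ = _
      rw [← IsScalarTower.algebraMap_apply, AlgHom.commutes]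
  · exact kummer_two_torsion _ Q hQ
  · have h1 := rep_kummer hΩ nF (fun h => hxa (hFinj h)) Q hQ
    rw [← map_sub, hk] at h1
    exact h1
  · have h1 := rep_kummer hΩ.swap12 nF (fun h => hxb (hFinj h)) Q hQ
    rw [← map_sub, hk] at h1
    exact h1

/-- If the parities of a class agree with the parities of a combination of polynomial points, the
class is a Kummer class. -/
theorem isKummerOf_one_of_list
    (hk : ∀ p : k[X], algebraMap k[X] F p = algebraMap kb[X] F (p.map (algebraMap k kb)))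
    (hF : SplitAt F W a b c) (hΩ : SplitAt Ω W a b c)
    {K : Type*} [Field K] [Algebra k[X] K] [IsFractionRing k[X] K] (hK : SplitAt K W a b c)
    (f : K →ₐ[k[X]] Ω) (s : TateCocycle F Ω W) {A B : kb[X]} (hA : PRep hΩ (s.level 1) A)
    (hB : PRep hΩ.swap12 (s.level 1) B) (l : List (k[X] × k[X]))
    (hl : ∀ p ∈ l, p.2 ^ 2 = (p.1 - a) * (p.1 - b) * (p.1 - c) ∧ p.1 ≠ a ∧ p.1 ≠ b)
    (zA : ∀ α, par (A * (l.map fun p => (p.1 - a).map (algebraMap k kb)).prod) α = 0)
    (zB : ∀ α, par (B * (l.map fun p => (p.1 - b).map (algebraMap k kb)).prod) α = 0) :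
    s.IsKummerOf K 1 := by
  have : IsGalois F Ω := inferInstance
  have c2 := level_one_two_torsion s
  have key : ∃ (P : (W.baseChange K).Point) (Q : (W.baseChange Ω).Point),
      Q + Q = Point.map f P ∧
      (∀ g : Ω ≃ₐ[F] Ω, (Point.map (g : Ω →ₐ[F] Ω) Q - Q) + (Point.map (g : Ω →ₐ[F] Ω) Q - Q)
        = 0) ∧
      PRep hΩ (fun g : Ω ≃ₐ[F] Ω => s.level 1 g + (Point.map (g : Ω →ₐ[F] Ω) Q - Q))
        (A * (l.map fun p => (p.1 - a).map (algebraMap k kb)).prod) ∧
      PRep hΩ.swap12 (fun g : Ω ≃ₐ[F] Ω => s.level 1 g + (Point.map (g : Ω →ₐ[F] Ω) Q - Q))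
        (B * (l.map fun p => (p.1 - b).map (algebraMap k kb)).prod) := by
    clear zA zB
    induction l with
    | nil =>
      refine ⟨0, 0, ?_, fun g => ?_, ?_, ?_⟩
      · rw [map_zero, add_zero]
      · rw [map_zero, sub_zero, add_zero]
      · rw [List.map_nil, List.prod_nil, mul_one]
        exact hA.of_eq fun g => by rw [map_zero, sub_zero, add_zero]
      · rw [List.map_nil, List.prod_nil, mul_one]
        exact hB.of_eq fun g => by rw [map_zero, sub_zero, add_zero]
    | cons p l ih =>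
      obtain ⟨P, Q, h1, h2, h3, h4⟩ := ih fun q hq => hl q (List.mem_cons_of_mem p hq)
      obtain ⟨hp, hpa, hpb⟩ := hl p List.mem_cons_self
      obtain ⟨P', Q', h1', h2', h3', h4'⟩ :=
        exists_kummer_of_polynomial hk hF hΩ hK f hp hpa hpb
      have e : ∀ g : Ω ≃ₐ[F] Ω, s.level 1 g + (Point.map (g : Ω →ₐ[F] Ω) Q - Q) +
          (Point.map (g : Ω →ₐ[F] Ω) Q' - Q') =
          s.level 1 g + (Point.map (g : Ω →ₐ[F] Ω) (Q + Q') - (Q + Q')) := by
        intro g
        rw [map_add]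
        abel
      have t : ∀ g : Ω ≃ₐ[F] Ω, (s.level 1 g + (Point.map (g : Ω →ₐ[F] Ω) Q - Q)) +
          (s.level 1 g + (Point.map (g : Ω →ₐ[F] Ω) Q - Q)) = 0 := by
        intro g
        rw [add_add_add_comm, c2, h2, add_zero]
      refine ⟨P + P', Q + Q', ?_, fun g => ?_, ?_, ?_⟩
      · rw [map_add, ← h1, ← h1', add_add_add_comm]
      · rw [map_add]
        have : (Point.map (g : Ω →ₐ[F] Ω) Q + Point.map (g : Ω →ₐ[F] Ω) Q' - (Q + Q')) =
            (Point.map (g : Ω →ₐ[F] Ω) Q - Q) + (Point.map (g : Ω →ₐ[F] Ω) Q' - Q') := by abel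
        rw [this, add_add_add_comm, h2, h2', add_zero]
      · rw [List.map_cons, List.prod_cons, mul_comm ((p.1 - a).map (algebraMap k kb)), ← mul_assoc]
        exact (h3.mul h3' t h2').of_eq e
      · rw [List.map_cons, List.prod_cons, mul_comm ((p.1 - b).map (algebraMap k kb)), ← mul_assoc]
        exact (h4.mul h4' t h2').of_eq e
  obtain ⟨P, Q, h1, h2, h3, h4⟩ := key
  have hzero : ∀ g : Ω ≃ₐ[F] Ω, s.level 1 g + (Point.map (g : Ω →ₐ[F] Ω) Q - Q) = 0 :=
    eq_zero_of_par (fun g => by rw [add_add_add_comm, c2, h2, add_zero]) h3 h4 zA zB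
  refine ⟨f, P, Q, ?_, fun g => ?_⟩
  · rw [pow_one, two_nsmul, h1]
  · have h5 := hzero g
    rw [← h2 g] at h5
    exact add_right_cancel h5

end

end Pool.Agent.Lib.MP_89bcae_ag
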