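import Mathlib
import Pool.Agent.Lib.MP_89bcae_ag.DefsArr

/-!
# The arithmetic condition for arrangements with weights
-/

open Polynomial IsDedekindDomain

open scoped Classical

namespace Pool.Agent.Lib.MP_89bcae_ag.Superelliptic

universe u

/-- The arithmetic condition on the roots of the differences `α_i - α_j` for the curve
`y ^ ℓ = ∏ (x - α_i) ^ (W_i)`: let `K` be the field generated by the set `S` of these roots over `k`.
Let `e_i : S → ℤ` be functions such that, for all `s` in `S` and all `i`, the sum of the `W_j e_j(s)`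
over the `j` with `α_j(s) = α_i(s)` is divisible by `ℓ`, and let `κ` and the `c_i` be elements of
`Kˣ`. If the element `κ ^ e_i(s) (c_i / c_j) ^ W_j (α_i - α_j)'(s) ^ (-(W_i + W_j) e_i(s))
∏ (α_i(s) - α_l(s)) ^ (-W_l e_i(s)) ∏ (s - s') ^ (W_j (e_i(s') - e_j(s')))`, where `l` runs through
the indices other than `i`, `j` and `s'` through the elements of `S` other than `s`, is the `ℓ`-th
power of an element of `K` for all `i ≠ j` and all roots `s` of `α_i - α_j`, then there are integers
`b_i` with `e_i(s) ≡ W_j (b_j - b_i)` modulo `ℓ` for all `i ≠ j` and all roots `s` of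
`α_i - α_j`. -/
def ArrangementIndependentW (ℓ : ℕ) (k F : Type u) [Field k] [Field F] [Algebra k F] {ι : Type}
    [Fintype ι] (W : ι → ℕ) (α : ι → k[X]) : Prop :=
  ∀ (e : ι → F → ℤ) (κ : F) (c : ι → F), κ ≠ 0 →
    κ ∈ IntermediateField.adjoin k (nodes k F α) →
    (∀ i, c i ≠ 0 ∧ c i ∈ IntermediateField.adjoin k (nodes k F α)) →
    (∀ s ∈ nodes k F α, ∀ i,
      (ℓ : ℤ) ∣ ∑ j ∈ Finset.univ.filter fun j => aeval s (α j) = aeval s (α i),
        (W j : ℤ) * e j s) →
    (∀ i j s, i ≠ j → aeval s (α i) = aeval s (α j) →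
      ∃ w ∈ IntermediateField.adjoin k (nodes k F α),
        w ^ ℓ = κ ^ e i s * (c i / c j) ^ W j *
          aeval s (derivative (α i - α j)) ^ (-((W i : ℤ) + W j) * e i s) *
          (∏ l ∈ Finset.univ.filter fun l => l ≠ i ∧ l ≠ j,
            (aeval s (α i) - aeval s (α l)) ^ (-(W l : ℤ) * e i s)) *
          ∏ᶠ s' ∈ {s' ∈ nodes k F α | s' ≠ s}, (s - s') ^ ((W j : ℤ) * (e i s' - e j s'))) →
    ∃ b : ι → ℤ, ∀ i j s, i ≠ j → aeval s (α i) = aeval s (α j) →
      (ℓ : ℤ) ∣ e i s - W j * (b j - b i)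

end Pool.Agent.Lib.MP_89bcae_ag.Superelliptic
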