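import Mathlib
import Pool.Agent.Lib.MP_89bcae_ag.Defs8

/-!
# The curves `y² = x (x² + A x + B)` over `k(t)`
-/

open Polynomial WeierstrassCurve

open scoped Classical

namespace Pool.Agent.Lib.MP_89bcae_ag

universe u

/-- The Weierstrass curve `y² = x³ + A x² + B x`. -/
def curveAB {R : Type*} [CommRing R] (A B : R) : WeierstrassCurve R where
  a₁ := 0
  a₂ := A
  a₃ := 0
  a₄ := B
  a₆ := 0

/-- The set of roots in `F` of the polynomial `p`. -/
noncomputable def rootsOf {k : Type*} (F : Type*) [Field k] [Field F] [Algebra k F] (p : k[X]) :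
    Finset F := (p.map (algebraMap k F)).roots.toFinset

/-- For an automorphism `τ` of `F` and finite subsets `R` and `S` of `F`: the set of the `β ∈ R`
for which `τ` moves the square roots of the product of the `β - α`, `α ∈ S`. -/
noncomputable def movedRoots {F : Type*} [Field F] (τ : F → F) (R S : Finset F) : Finset F :=
  R.filter fun β => ∀ s : F, s ^ 2 = ∏ α ∈ S, (β - α) → τ s ≠ s

end Pool.Agent.Lib.MP_89bcae_ag
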