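import Mathlib

/-!
# Families of polynomials with integral coefficients
-/

open Polynomial

namespace Pool.Agent.Lib.MP_89bcae_ag.Superelliptic

/-- The family of the polynomials `v(i, 0) + v(i, 1) t + ... + v(i, n) t ^ n`. -/
noncomputable def polyFamily {ι : Type} {n : ℕ} (v : ι × Fin (n + 1) → ℤ) (i : ι) : ℚ[X] :=
  ∑ j : Fin (n + 1), C (v (i, j) : ℚ) * X ^ (j : ℕ)

end Pool.Agent.Lib.MP_89bcae_ag.Superelliptic
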