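import Mathlib
import Pool.Agent.Lib.MP_89bcae_ag.Defs8
import Pool.Agent.Lib.MP_89bcae_ag.DefsTower7
import Pool.Agent.Lib.MP_89bcae_ag.DefsInf7

/-!
# The surfaces `D(t) y² = g(x) - t` over an arbitrary field
-/

open Polynomial

namespace Pool.Agent.Lib.MP_89bcae_ag

universe u

/-- The polynomial with the coefficients `a`. -/
noncomputable def coeffPoly7 {k : Type u} [Field k] {n : ℕ} (a : Fin (n + 1) → k) : k[X] :=
  ∑ i : Fin (n + 1), C (a i) * X ^ (i : ℕ)

/-- For all finite extensions `k'` of `k` in `F`, all `r` and all `s` in `Ω` with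
`s ^ (2 ^ r) = D(t)`, there are no Tate classes over `k'(t, s)` for `D(t) y² = g(x) - t`. -/
def NoTateTowerOver7 (k F L Ω : Type u) [Field k] [Field F] [Algebra k F] [Field L]
    [Algebra F[X] L] [IsFractionRing F[X] L] [Field Ω] [Algebra L Ω] (g D : k[X]) : Prop :=
  ∀ k' : IntermediateField k F, FiniteDimensional k k' → ∀ (r : ℕ) (s : Ω),
    s ^ 2 ^ r = base k F L Ω D → NoTateClassOver k F L g D (cover k' F L s)

end Pool.Agent.Lib.MP_89bcae_ag
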