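import Mathlib

/-!
# Curves with rational two-torsion
-/

open Polynomial WeierstrassCurve

namespace Pool.Agent.Lib.MP_89bcae_ag

/-- The curve `y² = x (x - e₁) (x - e₂)` over `k[t]`. -/
noncomputable def twoTorsionCurve {k : Type*} [Field k] (e₁ e₂ : k[X]) : Affine k[X] where
  a₁ := 0
  a₂ := -(e₁ + e₂)
  a₃ := 0
  a₄ := e₁ * e₂
  a₆ := 0

end Pool.Agent.Lib.MP_89bcae_ag
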