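import Mathlib
import Pool.Agent.Lib.MP_89bcae_ag.Defs
import Pool.Agent.Lib.MP_89bcae_ag.DefsRational

/-!
# The Tate conjecture at two over all finite extensions; triples of sets of roots
-/

open Polynomial WeierstrassCurve WeierstrassCurve.Affine IsDedekindDomain

open scoped Classical

namespace Pool.Agent.Lib.MP_89bcae_ag

universe u

section General

variable {R : Type*} [CommRing R] {F Ω : Type*} [Field F] [Field Ω] [Algebra R F] [Algebra R Ω]
  [Algebra F Ω] [IsScalarTower R F Ω]

/-- The class of `c` in `H¹(F, T₂W)` is fixed, up to torsion, by the automorphism `γ` of `Ω`: some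
positive multiple `m (γ c - c)` is a coboundary. Here `(γ c)(h) = γ (c (γ⁻¹ h γ))`. -/
def TateCocycle.IsFixedModTorsion {W : Affine R} (c : TateCocycle F Ω W) (γ : Ω ≃ₐ[R] Ω) : Prop :=
  ∃ m : ℕ, 0 < m ∧ ∀ n, ∃ A : (W.baseChange Ω).Point, 2 ^ n • A = 0 ∧
    ∀ g h : Ω ≃ₐ[F] Ω, (∀ x, γ (g x) = h (γ x)) →
      m • (Point.map (γ : Ω →ₐ[R] Ω) (c.level n g) - c.level n h) =
        Point.map (h : Ω →ₐ[F] Ω) A - A

end General

section Geometric

variable {k : Type u} [Field k]

/-- The Tate conjecture at the prime two for the elliptic surface with generic fibre `W / k(t)` over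
all finite extensions of `k` at once: every class of the two-adic Selmer group of `W` over `k̄(t)`
which is fixed up to torsion by `Gal(k̄/k')`, for some finite extension `k'` of `k`, is, modulo
every power of two, the class of a `k(t)`-rational point. -/
def TateAtTwoPotentially (W : Affine k[X]) : Prop :=
  ∀ (Ω : Type u) [Field Ω] [Algebra (RatFunc (AlgebraicClosure k)) Ω]
    [IsSepClosure (RatFunc (AlgebraicClosure k)) Ω] [Algebra k[X] Ω]
    [IsScalarTower k[X] (RatFunc (AlgebraicClosure k)) Ω]
    (c : TateCocycle (RatFunc (AlgebraicClosure k)) Ω W),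
    IsSelmer c → (∃ k' : IntermediateField k (AlgebraicClosure k), FiniteDimensional k k' ∧
      ∀ γ : Ω ≃ₐ[k[X]] Ω, (∀ x ∈ k', γ (algebraMap (RatFunc (AlgebraicClosure k)) Ω (RatFunc.C x)) =
        algebraMap (RatFunc (AlgebraicClosure k)) Ω (RatFunc.C x)) → c.IsFixedModTorsion γ) →
    ∀ n, c.IsKummerOf (RatFunc k) n

/-- The Tate conjecture at the prime two for the elliptic surface with generic fibre `W / k(t)` over
all finite extensions of `k` at once, with rank zero: every class of the two-adic Selmer group of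
`W` over `k̄(t)` which is fixed up to torsion by `Gal(k̄/k')`, for some finite extension `k'` of
`k`, is the Kummer class of a `k(t)`-rational point killed by two. -/
def RankZeroTateAtTwo (W : Affine k[X]) : Prop :=
  ∀ (Ω : Type u) [Field Ω] [Algebra (RatFunc (AlgebraicClosure k)) Ω]
    [IsSepClosure (RatFunc (AlgebraicClosure k)) Ω] [Algebra k[X] Ω]
    [IsScalarTower k[X] (RatFunc (AlgebraicClosure k)) Ω]
    (c : TateCocycle (RatFunc (AlgebraicClosure k)) Ω W),
    IsSelmer c → (∃ k' : IntermediateField k (AlgebraicClosure k), FiniteDimensional k k' ∧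
      ∀ γ : Ω ≃ₐ[k[X]] Ω, (∀ x ∈ k', γ (algebraMap (RatFunc (AlgebraicClosure k)) Ω
        (RatFunc.C x)) = algebraMap (RatFunc (AlgebraicClosure k)) Ω (RatFunc.C x)) →
          c.IsFixedModTorsion γ) →
    ∀ n, ∃ (f : RatFunc k →ₐ[k[X]] Ω) (P : (W.baseChange (RatFunc k)).Point)
      (Q : (W.baseChange Ω).Point), 2 • P = 0 ∧ 2 ^ n • Q = Point.map f P ∧
        ∀ g : Ω ≃ₐ[RatFunc (AlgebraicClosure k)] Ω,
          c.level n g = Point.map (g : Ω →ₐ[RatFunc (AlgebraicClosure k)] Ω) Q - Q

lemma RankZeroTateAtTwo.tate {W : Affine k[X]} (h : RankZeroTateAtTwo W) :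
    TateAtTwoPotentially W := by
  intro Ω _ _ _ _ _ c hc hinv n
  obtain ⟨f, P, Q, -, h1, h2⟩ := h Ω c hc hinv n
  exact ⟨f, P, Q, h1, h2⟩

end Geometric

section Triples

variable {k : Type*} [Field k] (F : Type*) [Field F] [Algebra k F]

/-- The roots of the polynomial `p` in the field `F`. -/
noncomputable def rootsIn (p : k[X]) : Finset F := (p.map (algebraMap k F)).roots.toFinset

/-- The subfield of `F` generated over `k` by the roots of `a`, `b` and `a - b`. -/
noncomputable def rootField (a b : k[X]) : IntermediateField k F :=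
  IntermediateField.adjoin k ↑(rootsIn F a ∪ rootsIn F b ∪ rootsIn F (a - b))

variable {F}

/-- The product of the differences `x - s` over the elements `s` of `T` and of `U`, multiplied by
`e` if `x` belongs to `S`. -/
noncomputable def diffProd (S T U : Finset F) (e x : F) : F :=
  (∏ s ∈ T, (x - s)) * (∏ s ∈ U, (x - s)) * if x ∈ S then e else 1

/-- The triple `(S, T, U)` of sets of roots of `a`, `b` and `a - b`, whose cardinalities have the
same parity, is an eigentriple: for some nonzero `δ` in the field `K` generated by all roots, the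
numbers `diffProd` attached to all the roots are squares in `K`. -/
structure IsEigentriple (a b : k[X]) (S T U : Finset F) : Prop where
  sub_a : S ⊆ rootsIn F a
  sub_b : T ⊆ rootsIn F b
  sub_c : U ⊆ rootsIn F (a - b)
  card_ab : Even (S.card + T.card)
  card_ac : Even (S.card + U.card)
  squares : ∃ δ ∈ rootField F a b, δ ≠ 0 ∧
    (∀ x ∈ rootsIn F a, ∃ y ∈ rootField F a b, y ^ 2 = diffProd S T U (-(aeval x b) * δ) x) ∧
    (∀ x ∈ rootsIn F b, ∃ y ∈ rootField F a b, y ^ 2 = diffProd T S U (-(aeval x a) * δ) x) ∧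
    (∀ x ∈ rootsIn F (a - b), ∃ y ∈ rootField F a b, y ^ 2 = diffProd U S T ((aeval x a) * δ) x)

/-- The triple `(S, T, U)` is the image, under two-descent over `F(t)`, of the point
`(p / q², r / q³)` of the curve `y² = x (x - a) (x - b)` over `k(t)`. -/
def IsPointTriple (a b : k[X]) (S T U : Finset F) : Prop :=
  ∃ p q r : k[X], q ≠ 0 ∧ r ≠ 0 ∧ r ^ 2 = p * (p - a * q ^ 2) * (p - b * q ^ 2) ∧
    IsSquare (p.map (algebraMap k F) * (∏ s ∈ S, (X - C s)) * ∏ s ∈ T, (X - C s)) ∧
    IsSquare ((p - a * q ^ 2).map (algebraMap k F) * (∏ s ∈ S, (X - C s)) * ∏ s ∈ U, (X - C s))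

/-- `y² = x (x - a) (x - b)` has fibres of type `I_{2m}`, with `m` odd, at the finite places and a
fibre of type `I₀*` at infinity. -/
structure OddLevelTwo (a b : k[X]) (n : ℕ) : Prop where
  two : (2 : k) ≠ 0
  odd : Odd n
  deg_a : a.natDegree = n
  deg_b : b.natDegree = n
  deg_c : (a - b).natDegree = n
  coprime : IsCoprime a b
  mult_a : ∀ x : AlgebraicClosure k, aeval x a = 0 →
    Odd ((a.map (algebraMap k (AlgebraicClosure k))).rootMultiplicity x)
  mult_b : ∀ x : AlgebraicClosure k, aeval x b = 0 →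
    Odd ((b.map (algebraMap k (AlgebraicClosure k))).rootMultiplicity x)
  mult_c : ∀ x : AlgebraicClosure k, aeval x (a - b) = 0 →
    Odd (((a - b).map (algebraMap k (AlgebraicClosure k))).rootMultiplicity x)

end Triples

end Pool.Agent.Lib.MP_89bcae_ag
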