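import Mathlib
import Pool.Agent.Lib.MP_89bcae_ag.DefsSup
import Pool.Agent.Lib.MP_89bcae_ag.DefsInf7

/-!
# Invariant classes in the `ℓ`-adic Selmer group of a superelliptic Jacobian over a cyclic cover

`k` is a field, `F` an algebraic closure of `k`, `L` the field of rational functions `F(t)`, `Ω` an
algebraic closure of `L` and `K` a subfield of `Ω` containing `k(t)`; `galOver L K` is the group of
the automorphisms of `Ω` over the field generated by `L` and `K`.
-/

open Polynomial IsDedekindDomain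

open scoped Classical

namespace Pool.Agent.Lib.MP_89bcae_ag.Superelliptic

universe u

section

variable {L Ω : Type u} [Field L] [Field Ω] [Algebra L Ω]

/-- `c` is a continuous `1`-cocycle of the group `galOver L K` with values in the `ℓ`-adic Tate module
of the Jacobian of `y ^ ℓ = f(x)`; its component `c n` has values in the points of order dividing
`ℓ ^ n`. -/
structure IsTateCocycleOver (ℓ : ℕ) (f : L[X]) (K : Subfield Ω)
    (c : ℕ → galOver L K → JacOver ℓ f Ω) : Prop where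
  zero : ∀ σ, c 0 σ = 0
  smul : ∀ n σ, ℓ • c (n + 1) σ = c n σ
  cocycle : ∀ n (σ τ : galOver L K),
    c n (σ * τ) = c n σ + push ℓ f ((σ : Ω ≃ₐ[L] Ω) : Ω →ₐ[L] Ω) (c n τ)
  locallyConstant : ∀ n, IsLocallyConstant (c n)

/-- The class of the cocycle `c` of `galOver L K` is trivial in the cohomology with values in the
Jacobian of all the composites of the field generated by `L` and `K` with the field `Lv` containing
`L`: for every algebraic closure `M` of `Lv` and every embedding `j` of `Ω` in `M` over `L` there is a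
point `Q` of `J(M)` with `j(c(g|_Ω)) = g(Q) - Q` for all `g` in `Aut(M/Lv)` whose restriction to `Ω`
fixes `K` pointwise. -/
def IsLocallyTrivialOver (ℓ : ℕ) (f : L[X]) (K : Subfield Ω) (c : galOver L K → JacOver ℓ f Ω)
    (Lv : Type u) [Field Lv] [Algebra L Lv] : Prop :=
  ∀ (M : Type u) [Field M] [Algebra Lv M] [IsAlgClosure Lv M] [Algebra L M] [IsScalarTower L Lv M]
    (j : Ω →ₐ[L] M), ∃ Q : JacOver ℓ f M, ∀ (g : M ≃ₐ[Lv] M) (g' : galOver L K),
      (∀ x, j ((g' : Ω ≃ₐ[L] Ω) x) = g (j x)) →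
        push ℓ f j (c g') = push ℓ f (g.restrictScalars L : M →ₐ[L] M) Q - Q

/-- The class of the cocycle `c` is fixed, up to torsion, by the automorphism `γ` of `Ω` (which fixes
the coefficients of `f`): some positive multiple `m (γ c - c)` is at every level a coboundary. Here
`(γ c)(h) = γ (c (γ⁻¹ h γ))`. -/
def IsFixedByOver (ℓ : ℕ) (f : L[X]) (K : Subfield Ω) (c : ℕ → galOver L K → JacOver ℓ f Ω)
    (γ : Ω ≃+* Ω)
    (hγ : (f.map (algebraMap L Ω)).map (γ : Ω →+* Ω) = f.map (algebraMap L Ω)) : Prop :=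
  ∃ m : ℕ, 0 < m ∧ ∀ n, ∃ A : JacOver ℓ f Ω, ℓ ^ n • A = 0 ∧
    ∀ g h : galOver L K, (∀ x, γ ((g : Ω ≃ₐ[L] Ω) x) = (h : Ω ≃ₐ[L] Ω) (γ x)) →
      m • (jacMap ℓ (γ : Ω →+* Ω) hγ (c n g) - c n h) =
        push ℓ f ((h : Ω ≃ₐ[L] Ω) : Ω →ₐ[L] Ω) A - A

/-- The class of the cocycle `c` vanishes: at every level `n`, it is the coboundary of a point of
order dividing `ℓ ^ n`. -/
def IsTrivialOver (ℓ : ℕ) (f : L[X]) (K : Subfield Ω)
    (c : ℕ → galOver L K → JacOver ℓ f Ω) : Prop :=
  ∀ n, ∃ A : JacOver ℓ f Ω, ℓ ^ n • A = 0 ∧ ∀ g : galOver L K,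
    c n g = push ℓ f ((g : Ω ≃ₐ[L] Ω) : Ω →ₐ[L] Ω) A - A

end

/-- Let `K` be a subfield of `Ω`. Every class of the `ℓ`-adic Selmer group of the Jacobian of the curve
`D(t) y ^ ℓ = g(x) - t` over the field generated by `L` and `K` (a class in `H¹(·, T_ℓ J)` which is
locally trivial at all finite places, at all levels) fixed, up to torsion, by the automorphisms of
`Ω` over `K` vanishes. -/
def NoTateClassOver (ℓ : ℕ) (k F L : Type u) {Ω : Type u} [Field k] [Field F] [Algebra k F]
    [Field L] [Algebra F[X] L] [IsFractionRing F[X] L] [Field Ω] [Algebra L Ω] (g D : k[X])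
    (K : Subfield Ω) : Prop :=
  ∀ c : ℕ → galOver L K → JacOver ℓ (curvePoly k F L g D) Ω,
    IsTateCocycleOver ℓ (curvePoly k F L g D) K c →
    (∀ (v : HeightOneSpectrum F[X]) (n : ℕ),
      IsLocallyTrivialOver ℓ (curvePoly k F L g D) K (c n) (v.adicCompletion L)) →
    (∀ (γ : Ω ≃+* Ω) hγ, (∀ x ∈ K, γ x = x) →
      IsFixedByOver ℓ (curvePoly k F L g D) K c γ hγ) →
    IsTrivialOver ℓ (curvePoly k F L g D) K c

/-- For every number field `k'` in `F`, every `r ≥ 0` and every `s` in `Ω` with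
`s ^ (ℓ ^ r) = E(t)`, there are no Tate classes over `k'(t, s)` for the curve `y ^ ℓ = g(x) - t`, with
`g`, `E` in `ℤ[x]`, `ℤ[t]`: see `NoTateClassOver`. -/
def NoTateTowerNumberField (ℓ : ℕ) (F L Ω : Type) [Field F] [Algebra ℚ F] [Field L]
    [Algebra F[X] L] [IsFractionRing F[X] L] [Field Ω] [Algebra L Ω] (g E : ℤ[X]) : Prop :=
  ∀ k' : IntermediateField ℚ F, FiniteDimensional ℚ k' →
    ∀ (r : ℕ) (s : Ω), s ^ ℓ ^ r = base ℚ F L Ω (E.map (Int.castRingHom ℚ)) →
      NoTateClassOver ℓ ℚ F L (g.map (Int.castRingHom ℚ)) 1 (cover k' F L s)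

end Pool.Agent.Lib.MP_89bcae_ag.Superelliptic
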