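import Mathlib
import Pool.Agent.Lib.MP_89bcae_ag.DefsSupTow7

/-!
# General polynomials, and the absence of Tate classes over the finite extensions of a field
-/

open Polynomial

namespace Pool.Agent.Lib.MP_89bcae_ag.Superelliptic

/-- The prime `p` is odd, does not divide the leading coefficient of `D`, and `D(g(x))` has a simple
collision modulo `p`: modulo `p`, `D = (t - a) ^ 2 h`, the polynomial `((t - a) h)(g(x))` is separable,
and `D(a)` is not divisible by `p ^ 2`. -/
def HasCollision (p : ℕ) (g D : ℤ[X]) : Prop :=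
  p.Prime ∧ p ≠ 2 ∧ ¬ (p : ℤ) ∣ D.leadingCoeff ∧
  ∃ (a : ℤ) (h : (ZMod p)[X]),
    D.map (Int.castRingHom (ZMod p)) = (X - C (a : ZMod p)) ^ 2 * h ∧
    (((X - C (a : ZMod p)) * h).comp (g.map (Int.castRingHom (ZMod p)))).Separable ∧
    ¬ ((p : ℤ) ^ 2 ∣ D.eval a)

/-- The prime `p` is larger than the degree of `g`, it divides the leading coefficient of `D` exactly
once and does not divide the next coefficient, and `D(g(x))` is separable modulo `p`: one root of `D`
goes to infinity modulo `p`. -/
def HasPole (p : ℕ) (g D : ℤ[X]) : Prop :=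
  p.Prime ∧ g.natDegree < p ∧ (p : ℤ) ∣ D.leadingCoeff ∧ ¬ (p : ℤ) ^ 2 ∣ D.leadingCoeff ∧
  ¬ (p : ℤ) ∣ D.coeff (D.natDegree - 1) ∧
  ((D.map (Int.castRingHom (ZMod p))).comp (g.map (Int.castRingHom (ZMod p)))).Separable

/-- The polynomial `D` is general with respect to `g`. -/
structure IsGeneral (g D : ℤ[X]) : Prop where
  /-- `D(g(x))` is separable over `ℚ` -/
  separable : ((D.comp g).map (Int.castRingHom ℚ)).Separable
  /-- the Galois group of `D` over `ℚ` is doubly transitive on the roots -/
  galois : ∀ a b a' b' : AlgebraicClosure ℚ, aeval a D = 0 → aeval b D = 0 → aeval a' D = 0 →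
    aeval b' D = 0 → a ≠ b → a' ≠ b' →
      ∃ σ : AlgebraicClosure ℚ ≃+* AlgebraicClosure ℚ, σ a = a' ∧ σ b = b'
  /-- `D(g(x))` has a simple collision at two primes at least -/
  collision : ∃ p p' : ℕ, p ≠ p' ∧ HasCollision p g D ∧ HasCollision p' g D
  /-- a root of `D` goes to infinity at two primes at least -/
  pole : ∃ p p' : ℕ, p ≠ p' ∧ HasPole p g D ∧ HasPole p' g D

/-- Let `k` be a field. For every algebraic closure `F` of `k`, every field `L` of rational functions
`F(t)`, every algebraic closure `Ω` of `L`, every finite extension `k'` of `k` in `F`, every `r ≥ 0`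
and every `s` in `Ω` with `s ^ (ℓ ^ r) = D(t)`, there are no Tate classes over `k'(t, s)` for the
curve `y ^ ℓ = g(x) - t`: see `NoTateClassOver`. Here `g` and `D` are polynomials with integral
coefficients, mapped to `k`. -/
def NoTateTower (ℓ : ℕ) (k : Type) [Field k] (g D : ℤ[X]) : Prop :=
  ∀ (F L Ω : Type) [Field F] [Algebra k F] [IsAlgClosure k F] [Field L] [Algebra F[X] L]
    [IsFractionRing F[X] L] [Field Ω] [Algebra L Ω] [IsAlgClosure L Ω]
    (k' : IntermediateField k F), FiniteDimensional k k' →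
    ∀ (r : ℕ) (s : Ω), s ^ ℓ ^ r = base k F L Ω (D.map (Int.castRingHom k)) →
      NoTateClassOver ℓ k F L (g.map (Int.castRingHom k)) 1 (cover k' F L s)

end Pool.Agent.Lib.MP_89bcae_ag.Superelliptic
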