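import Mathlib
import Pool.Agent.Lib.MP_89bcae_ag.Defs8
import Pool.Agent.Lib.MP_89bcae_ag.DefsTower7
import Pool.Agent.Lib.MP_89bcae_ag.DefsInf7

/-!
# The surfaces `D(t) y² = g(x) - t` with integral coefficients
-/

open Polynomial

namespace Pool.Agent.Lib.MP_89bcae_ag

/-- The polynomial with the coefficients `a`. -/
noncomputable def vecPoly7 {n : ℕ} (a : Fin (n + 1) → ℤ) : ℤ[X] :=
  ∑ i : Fin (n + 1), C (a i) * X ^ (i : ℕ)

/-- For all finite extensions `k'` of `ℚ` in `F`, all `r` and all `s` in `Ω` with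
`s ^ (2 ^ r) = D(t)`, there are no Tate classes over `k'(t, s)` for `D(t) y² = g(x) - t`. -/
def NoTateTower7 (F L Ω : Type) [Field F] [Algebra ℚ F] [Field L] [Algebra F[X] L]
    [IsFractionRing F[X] L] [Field Ω] [Algebra L Ω] (g D : ℤ[X]) : Prop :=
  ∀ k' : IntermediateField ℚ F, FiniteDimensional ℚ k' → ∀ (r : ℕ) (s : Ω),
    s ^ 2 ^ r = base ℚ F L Ω (D.map (Int.castRingHom ℚ)) →
      NoTateClassOver ℚ F L (g.map (Int.castRingHom ℚ)) (D.map (Int.castRingHom ℚ))
        (cover k' F L s)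

end Pool.Agent.Lib.MP_89bcae_ag
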