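import Mathlib
import Pool.Agent.Lib.MP_89bcae_ag.DefsSup
import Pool.Agent.Lib.MP_89bcae_ag.DefsZ7

/-!
# The surfaces `D(t) y ^ ℓ = g(x) - t` with integral coefficients
-/

open Polynomial

namespace Pool.Agent.Lib.MP_89bcae_ag.Superelliptic

/-- For every number field `k'` in `F`, there are no Tate classes over `k'` for the curve
`D(t) y ^ ℓ = g(x) - t`, with `g`, `D` in `ℤ[x]`, `ℤ[t]`: see `NoTateClass`. -/
def NoTateNumberField (ℓ : ℕ) (F L Ω : Type) [Field F] [Algebra ℚ F] [Field L] [Algebra F[X] L]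
    [IsFractionRing F[X] L] [Field Ω] [Algebra L Ω] (g D : ℤ[X]) : Prop :=
  ∀ k' : IntermediateField ℚ F, FiniteDimensional ℚ k' →
    NoTateClass ℓ L Ω (g.map (Int.castRingHom ℚ)) (D.map (Int.castRingHom ℚ)) k'

end Pool.Agent.Lib.MP_89bcae_ag.Superelliptic
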