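import Mathlib
import Pool.Agent.Lib.MP_89bcae_ag.Defs8
import Pool.Agent.Lib.MP_89bcae_ag.DefsSup

/-!
# Points of the curve `D(t) y ^ ℓ = g(x) - t` over `F(t)` and the classes which they generate

`k` is a field, `F` an algebraic closure of `k`, `L` the field of rational functions `F(t)` and `Ω`
an algebraic closure of `L`.
-/

open Polynomial IsDedekindDomain

open scoped Classical

namespace Pool.Agent.Lib.MP_89bcae_ag.Superelliptic

universe u

/-- The ideal `(x - a, y - b)` of the coordinate ring `A[x, y] / (y ^ ℓ - f(x))`. -/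
noncomputable def pointIdeal (ℓ : ℕ) {A : Type u} [Field A] (f : A[X]) (a b : A) :
    Ideal (CoordRing ℓ f) :=
  Ideal.span {AdjoinRoot.mk (X ^ ℓ - C f) (C (X - C a)), AdjoinRoot.mk (X ^ ℓ - C f) (X - C (C b))}

/-- The point `Q` of the Jacobian is the class of the point `(a, b)` of the affine curve
`y ^ ℓ = f(x)`, i.e. of the ideal `(x - a, y - b)`, an invertible module over the coordinate ring. -/
def IsPointClass (ℓ : ℕ) {A : Type u} [Field A] (f : A[X]) (a b : A) (Q : Jacobian ℓ f) : Prop :=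
  ∃ _ : Module.Invertible (CoordRing ℓ f) (pointIdeal ℓ f a b),
    Q = Additive.ofMul (CommRing.Pic.mk (CoordRing ℓ f) (pointIdeal ℓ f a b))

/-- A point `(x, y)`, `y ≠ 0`, of the curve `D(t) y ^ ℓ = g(x) - t` over `L = F(t)`, where
`x = num / den` in lowest terms. -/
structure Point (ℓ : ℕ) (k F L : Type u) [Field k] [Field F] [Algebra k F] [Field L]
    [Algebra F[X] L] (g D : k[X]) where
  /-- the numerator of `x` -/
  num : F[X]
  /-- the denominator of `x` -/
  den : F[X]
  /-- the coordinate `y` -/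
  y : L
  coprime : IsCoprime num den
  den_ne_zero : den ≠ 0
  y_ne_zero : y ≠ 0
  eqn : y ^ ℓ =
    (curvePoly k F L g D).eval (algebraMap F[X] L num / algebraMap F[X] L den)

/-- The exponents of a point `P = (x, y)`: `e_P(β) = m - 1`, `m = deg g`, if `x(g(β)) = β`,
`e_P(β) = 0` if `x` has a pole at `g(β)`, and `e_P(β) = -1` in the other cases. -/
noncomputable def Point.exponent {ℓ : ℕ} {k F L : Type u} [Field k] [Field F] [Algebra k F]
    [Field L] [Algebra F[X] L] {g D : k[X]} (P : Point ℓ k F L g D) (β : F) : ℤ :=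
  if P.den.eval (aeval β g) = 0 then 0
  else if P.num.eval (aeval β g) = β * P.den.eval (aeval β g) then g.natDegree - 1
  else -1

/-- The relations between the differences of the elements of the set `R` of the roots of `D(g(x))`:
the function `e` has a sum divisible by `ℓ` over each fibre of `g` in `R` and there is `κ ≠ 0` in the
field `K` generated by `R` over `k` such that `κ ^ e(β) ∏ (β - β') ^ (e(β) - e(β'))`, where `β'` runs
through the elements of `R` with `g(β') ≠ g(β)`, is the `ℓ`-th power of an element of `K` for all `β`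
in `R`. -/
def IsSolution (ℓ : ℕ) (k F : Type u) [Field k] [Field F] [Algebra k F] (g D : k[X])
    (e : F → ℤ) : Prop :=
  (∀ β ∈ roots k F g D, (ℓ : ℤ) ∣ ∑ᶠ β' ∈ {β' : F | aeval β' g = aeval β g}, e β') ∧
    ∃ κ ∈ IntermediateField.adjoin k (roots k F g D), κ ≠ 0 ∧
      ∀ β ∈ roots k F g D, ∃ w ∈ IntermediateField.adjoin k (roots k F g D),
        w ^ ℓ = κ ^ e β *
          ∏ᶠ β' ∈ {β' ∈ roots k F g D | aeval β' g ≠ aeval β g}, (β - β') ^ (e β - e β')

/-- Every solution of the relations between the differences of the roots is modulo `ℓ` a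
combination of the exponents of the points `P i`. -/
def SolutionsGeneratedBy {ℓ : ℕ} {k F L : Type u} [Field k] [Field F] [Algebra k F]
    [Field L] [Algebra F[X] L] {g D : k[X]} {ι : Type} [Fintype ι]
    (P : ι → Point ℓ k F L g D) : Prop :=
  ∀ e : F → ℤ, IsSolution ℓ k F g D e → ∃ a : ι → ℤ, ∀ β ∈ roots k F g D,
    (ℓ : ℤ) ∣ e β - ∑ i, a i * (P i).exponent β

/-- The subgroup of the Jacobian over `Ω` generated by the classes of the points `(x_i, z y_i)`,
`z ^ ℓ = 1`, where `P i = (x_i, y_i)`. -/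
noncomputable def pointGroup {ℓ : ℕ} {k F L : Type u} (Ω : Type u) [Field k] [Field F]
    [Algebra k F] [Field L] [Algebra F[X] L] [Field Ω] [Algebra L Ω] {g D : k[X]} {ι : Type}
    (P : ι → Point ℓ k F L g D) : AddSubgroup (JacOver ℓ (curvePoly k F L g D) Ω) :=
  AddSubgroup.closure {Q | ∃ (i : ι) (z : Ω), z ^ ℓ = 1 ∧
    IsPointClass ℓ ((curvePoly k F L g D).map (algebraMap L Ω))
      (algebraMap L Ω (algebraMap F[X] L (P i).num / algebraMap F[X] L (P i).den))
      (z * algebraMap L Ω (P i).y) Q}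

/-- Let `k'` be an extension of `k` in `F`. Every class of the `ℓ`-adic Selmer group over `L = F(t)`
of the Jacobian of the curve `D(t) y ^ ℓ = g(x) - t` (a class in `H¹(L, T_ℓ J)` which is locally
trivial at all finite places, at all levels) fixed, up to torsion, by the automorphisms of `Ω` over
`k'(t)` is generated by the points `P i`: at every level `n` it is the class `σ ↦ σ(Q) - Q` of a
point `Q` such that `ℓ ^ n Q` is in the group generated by the points `(x_i, z y_i)`,
`z ^ ℓ = 1`. -/
def TateClassesGeneratedBy {ℓ : ℕ} {k F L : Type u} (Ω : Type u) [Field k] [Field F] [Algebra k F]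
    [Field L] [Algebra F[X] L] [IsFractionRing F[X] L] [Field Ω] [Algebra L Ω] {g D : k[X]}
    {ι : Type} (P : ι → Point ℓ k F L g D) (k' : IntermediateField k F) : Prop :=
  ∀ c : ℕ → (Ω ≃ₐ[L] Ω) → JacOver ℓ (curvePoly k F L g D) Ω,
    IsTateCocycle ℓ (curvePoly k F L g D) c →
    (∀ (v : HeightOneSpectrum F[X]) (n : ℕ),
      IsLocallyTrivial ℓ (curvePoly k F L g D) (c n) (v.adicCompletion L)) →
    (∀ (γ : Ω ≃+* Ω) hγ, (∀ p : k'[X], γ (base k' F L Ω p) = base k' F L Ω p) →
      IsFixedBy ℓ (curvePoly k F L g D) c γ hγ) →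
    ∀ n, ∃ Q : JacOver ℓ (curvePoly k F L g D) Ω, ℓ ^ n • Q ∈ pointGroup Ω P ∧
      ∀ σ : Ω ≃ₐ[L] Ω, c n σ = push ℓ (curvePoly k F L g D) (σ : Ω →ₐ[L] Ω) Q - Q

end Pool.Agent.Lib.MP_89bcae_ag.Superelliptic
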