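import Pool.Agent.Lib.MP_89bcae_ag.Frob14

/-!
# Counting the exceptional elements
-/

namespace Pool.Agent.Lib.MP_89bcae_ag.Frob14

open Polynomial Finset

open scoped Classical

section fix

variable (k F : Type*) [Field k] [Fintype k] [Field F] [Algebra k F]

/-- the subfield with `q ^ i` elements -/
def fixI (i : ℕ) : IntermediateField k F where
  toSubalgebra := AlgHom.equalizer (FiniteField.frobeniusAlgHom k F ^ i) (AlgHom.id k F)
  inv_mem' := by
    intro x hx
    change (FiniteField.frobeniusAlgHom k F ^ i) x⁻¹ = x⁻¹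
    rw [map_inv₀]
    congr 1

variable {k F}

theorem frobPow_apply (i : ℕ) (x : F) :
    (FiniteField.frobeniusAlgHom k F ^ i) x = x ^ (Fintype.card k ^ i) := by
  induction i generalizing x with
  | zero => simp
  | succ i ih =>
    rw [pow_succ, AlgHom.mul_apply, ih]
    simp only [FiniteField.frobeniusAlgHom_apply]
    rw [← pow_mul, pow_succ, mul_comm]

theorem mem_fixI {i : ℕ} {x : F} : x ∈ fixI k F i ↔ x ^ (Fintype.card k ^ i) = x := by
  rw [← frobPow_apply]
  rfl

theorem coe_fixI {i : ℕ} (hi : 0 < i) : ((fixI k F i : IntermediateField k F) : Set F) =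
    (fixS k F i : Set F) := by
  ext x
  rw [SetLike.mem_coe, mem_fixI, mem_coe, mem_fixS hi]

theorem finite_fixI {i : ℕ} (hi : 0 < i) : Finite (fixI k F i) := by
  have : ((fixI k F i : IntermediateField k F) : Set F).Finite := by
    rw [coe_fixI hi]; exact finite_toSet _
  exact this.to_subtype

theorem natCard_fixI [IsAlgClosed F] {i : ℕ} (hi : 0 < i) :
    Nat.card (fixI k F i) = Fintype.card k ^ i := by
  have h1 : Nat.card (fixI k F i) = ((fixI k F i : IntermediateField k F) : Set F).ncard := rfl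
  rw [h1, coe_fixI hi, Set.ncard_coe_finset, card_fixS hi]

omit [Fintype k] in
theorem eq_cubic {g : k[X]} (hg : g.Monic) (hdeg : g.natDegree = 3) :
    g = X ^ 3 + C (g.coeff 2) * X ^ 2 + C (g.coeff 1) * X + C (g.coeff 0) := by
  conv_lhs => rw [g.as_sum_range_C_mul_X_pow, hdeg]
  simp only [sum_range_succ, range_zero, sum_empty, zero_add, pow_zero, mul_one, pow_one]
  have : g.coeff 3 = 1 := by rw [← hdeg]; exact hg
  rw [this, C_1, one_mul]
  ring

theorem missed_card [IsAlgClosed F] (h2 : (2 : k) ≠ 0) {g : k[X]} (hg : g.Monic)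
    (hdeg : g.natDegree = 3) (hcol : ∃ x y : k, x ≠ y ∧ g.eval x = g.eval y) {i : ℕ} (hi : 0 < i) :
    Fintype.card k ^ i ≤
      3 * {v ∈ fixS k F i | ∀ x : F, x ^ (Fintype.card k ^ i) = x → aeval x g ≠ v}.card + 5 := by
  have := finite_fixI (k := k) (F := F) hi
  let _ : Fintype (fixI k F i) := Fintype.ofFinite _
  obtain ⟨x, y, hxy, hcol⟩ := hcol
  let K := fixI k F i
  have hev : ∀ z : K, z ^ 3 + algebraMap k K (g.coeff 2) * z ^ 2 + algebraMap k K (g.coeff 1) * z +
      algebraMap k K (g.coeff 0) = aeval z g := by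
    intro z
    conv_rhs => rw [eq_cubic hg hdeg]
    simp
  have h2' : (2 : K) ≠ 0 := by
    have := (map_ne_zero (algebraMap k K)).2 h2
    rwa [map_ofNat] at this
  have h1 := Count14.missed h2' (algebraMap k K (g.coeff 2)) (algebraMap k K (g.coeff 1))
    (algebraMap k K (g.coeff 0)) (x₀ := algebraMap k K x) (y₀ := algebraMap k K y)
    (fun h => hxy ((algebraMap k K).injective h)) (by
      rw [hev, hev, aeval_algebraMap_apply, aeval_algebraMap_apply, coe_aeval_eq_eval,
        coe_aeval_eq_eval, hcol])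
  rw [← Nat.card_eq_fintype_card, natCard_fixI hi] at h1
  refine h1.trans ?_
  gcongr ?_ + _
  apply Nat.mul_le_mul_left
  apply card_le_card_of_injOn (fun z : K => (z : F))
  · intro v hv
    simp only [coe_filter, mem_univ, true_and, Set.mem_ofPred_eq] at hv
    simp only [coe_filter, Set.mem_ofPred_eq]
    refine ⟨(mem_fixS hi).2 (mem_fixI.1 v.2), ?_⟩
    intro x hx h
    apply hv ⟨x, mem_fixI.2 hx⟩
    rw [hev]
    apply Subtype.ext
    rw [← h]
    exact (aeval_algebraMap_apply F (⟨x, mem_fixI.2 hx⟩ : K) g).symm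
  · intro a _ b _ h
    exact Subtype.ext h

theorem two_mul_sum_pow_le {q : ℕ} (hq : 3 ≤ q) (m : ℕ) :
    2 * ∑ d ∈ Icc 1 m, q ^ d ≤ 3 * q ^ m := by
  induction m with
  | zero => simp
  | succ m ih =>
    have e : Icc 1 (m + 1) = insert (m + 1) (Icc 1 m) := by
      ext a
      simp only [mem_insert, mem_Icc]
      omega
    rw [e, sum_insert (by simp), pow_succ]
    nlinarith [pow_pos (show 0 < q by omega) m]

theorem small_card [IsAlgClosed F] (i : ℕ) (hi : 0 < i) :
    {v ∈ fixS k F i | ∃ j, 0 < j ∧ j < i ∧ v ^ (Fintype.card k ^ j) = v}.card ≤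
      ∑ d ∈ Icc 1 (i / 2), Fintype.card k ^ d := by
  have hsub : {v ∈ fixS k F i | ∃ j, 0 < j ∧ j < i ∧ v ^ (Fintype.card k ^ j) = v} ⊆
      (Icc 1 (i / 2)).biUnion fun d => fixS k F d := by
    intro v hv
    rw [mem_filter, mem_fixS hi] at hv
    obtain ⟨hvi, j, hj0, hji, hvj⟩ := hv
    set f : F → F := fun y => y ^ Fintype.card k with hf
    have hpi : Function.IsPeriodicPt f i v := by
      rw [Function.IsPeriodicPt, Function.IsFixedPt, hf, frob_iterate]; exact hvi
    have hpj : Function.IsPeriodicPt f j v := by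
      rw [Function.IsPeriodicPt, Function.IsFixedPt, hf, frob_iterate]; exact hvj
    have hdi := hpi.minimalPeriod_dvd
    have hdj := Nat.le_of_dvd hj0 hpj.minimalPeriod_dvd
    have hd0 := hpi.minimalPeriod_pos hi
    rw [mem_biUnion]
    refine ⟨Function.minimalPeriod f v, ?_, ?_⟩
    · rw [mem_Icc]
      refine ⟨hd0, ?_⟩
      obtain ⟨m, hm⟩ := hdi
      have hm2 : 2 ≤ m := by
        by_contra h
        have h' : m ≤ 1 := by omega
        have : Function.minimalPeriod f v * m ≤ Function.minimalPeriod f v * 1 :=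
          Nat.mul_le_mul_left _ h'
        omega
      rw [Nat.le_div_iff_mul_le (by norm_num)]
      conv_rhs => rw [hm]
      exact Nat.mul_le_mul_left _ hm2
    · rw [mem_fixS hd0]
      have := Function.isPeriodicPt_minimalPeriod f v
      rw [Function.IsPeriodicPt, Function.IsFixedPt, hf, frob_iterate] at this
      exact this
  refine (card_le_card hsub).trans (card_biUnion_le.trans (le_of_eq ?_))
  refine sum_congr rfl fun d hd => ?_
  rw [mem_Icc] at hd
  exact card_fixS (by omega)

/-- the elements of exact degree `i` that are not values of `g` on the field with `q ^ i`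
elements -/
theorem good_count [IsAlgClosed F] (h2 : (2 : k) ≠ 0) {g : k[X]} (hg : g.Monic)
    (hdeg : g.natDegree = 3) (hcol : ∃ x y : k, x ≠ y ∧ g.eval x = g.eval y) {i : ℕ} (hi : 0 < i) :
    2 * Fintype.card k ^ i ≤
      6 * {v ∈ fixS k F i | (∀ x : F, x ^ (Fintype.card k ^ i) = x → aeval x g ≠ v) ∧
        ∀ j, 0 < j → j < i → v ^ (Fintype.card k ^ j) ≠ v}.card +
      9 * Fintype.card k ^ (i / 2) + 10 := by
  have hq : 3 ≤ Fintype.card k := by
    by_contra h
    have h1 : Fintype.card k = 2 := by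
      have := Fintype.one_lt_card (α := k)
      omega
    have h3 : (Fintype.card k : k) = 0 := FiniteField.cast_card_eq_zero k
    rw [h1] at h3
    exact h2 (by exact_mod_cast h3)
  have h1 := missed_card (F := F) h2 hg hdeg hcol hi
  have h3 := small_card (k := k) (F := F) i hi
  have h4 := two_mul_sum_pow_le hq (i / 2)
  have h5 : {v ∈ fixS k F i | ∀ x : F, x ^ (Fintype.card k ^ i) = x → aeval x g ≠ v}.card ≤
      {v ∈ fixS k F i | (∀ x : F, x ^ (Fintype.card k ^ i) = x → aeval x g ≠ v) ∧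
        ∀ j, 0 < j → j < i → v ^ (Fintype.card k ^ j) ≠ v}.card +
      {v ∈ fixS k F i | ∃ j, 0 < j ∧ j < i ∧ v ^ (Fintype.card k ^ j) = v}.card := by
    refine (card_le_card ?_).trans (card_union_le _ _)
    intro v hv
    rw [mem_filter] at hv
    rw [mem_union, mem_filter, mem_filter]
    by_cases h : ∃ j, 0 < j ∧ j < i ∧ v ^ (Fintype.card k ^ j) = v
    · exact Or.inr ⟨hv.1, h⟩
    · push Not at h
      exact Or.inl ⟨hv.1, hv.2, h⟩
  omega

theorem exists_special [IsAlgClosed F] (h2 : (2 : k) ≠ 0) {g : k[X]} (hg : g.Monic)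
    (hdeg : g.natDegree = 3) (hcol : ∃ x y : k, x ≠ y ∧ g.eval x = g.eval y) {i : ℕ} (hi : 3 ≤ i) :
    ∃ v : F, v ^ (Fintype.card k ^ i) = v ∧
      (∀ x : F, x ^ (Fintype.card k ^ i) = x → aeval x g ≠ v) ∧
      ∀ j, 0 < j → j < i → v ^ (Fintype.card k ^ j) ≠ v := by
  have hq : 3 ≤ Fintype.card k := by
    by_contra h
    have h1 : Fintype.card k = 2 := by
      have := Fintype.one_lt_card (α := k)
      omega
    have h3 : (Fintype.card k : k) = 0 := FiniteField.cast_card_eq_zero k
    rw [h1] at h3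
    exact h2 (by exact_mod_cast h3)
  have h1 := good_count (F := F) h2 hg hdeg hcol (i := i) (by omega)
  have h3 : 9 * Fintype.card k ^ (i / 2) ≤ Fintype.card k ^ i := by
    calc 9 * Fintype.card k ^ (i / 2) ≤ Fintype.card k ^ 2 * Fintype.card k ^ (i / 2) := by
          apply Nat.mul_le_mul_right
          calc 9 = 3 ^ 2 := by norm_num
            _ ≤ _ := Nat.pow_le_pow_left hq 2
      _ = Fintype.card k ^ (2 + i / 2) := by rw [pow_add]
      _ ≤ _ := Nat.pow_le_pow_right (by omega) (by omega)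
  have h4 : 27 ≤ Fintype.card k ^ i := by
    calc 27 = 3 ^ 3 := by norm_num
      _ ≤ Fintype.card k ^ 3 := Nat.pow_le_pow_left hq 3
      _ ≤ _ := Nat.pow_le_pow_right (by omega) hi
  have h5 : 0 < {v ∈ fixS k F i | (∀ x : F, x ^ (Fintype.card k ^ i) = x → aeval x g ≠ v) ∧
        ∀ j, 0 < j → j < i → v ^ (Fintype.card k ^ j) ≠ v}.card := by omega
  obtain ⟨v, hv⟩ := card_pos.1 h5
  rw [mem_filter, mem_fixS (by omega)] at hv
  exact ⟨v, hv.1, hv.2.1, hv.2.2⟩

end fix

end Pool.Agent.Lib.MP_89bcae_ag.Frob14
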