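import Mathlib
import Pool.Agent.Lib.MP_89bcae_ag.DensZ7

/-!
# Integral vectors which avoid residue classes whose proportions have a divergent sum have density zero
-/

open Filter Topology

open scoped Classical

namespace Pool.Agent.Lib.MP_89bcae_ag

set_option linter.style.haveILetI false

/-- The number of the residue classes which avoid given sets modulo several coprime integers. -/
lemma card_avoidB7 (m : ℕ) (M : ℕ → ℕ) (D : ∀ p : ℕ, Set (Fin m → ZMod (M p))) (δ : ℕ → ℝ)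
    (S : Finset ℕ) (hM0 : ∀ p ∈ S, 0 < M p)
    (hcop : ∀ p ∈ S, ∀ q ∈ S, p ≠ q → Nat.Coprime (M p) (M q))
    (hD : ∀ p ∈ S, δ p * (M p : ℝ) ^ m ≤ (D p).ncard) {N : ℕ}
    (hN : N = ∏ p ∈ S, M p) :
    ∃ (A : Finset (Fin m → ZMod N)),
      (A.card : ℝ) ≤ (∏ p ∈ S, (1 - δ p)) * (N : ℝ) ^ m ∧
      ∀ a : Fin m → ℤ, (∀ p ∈ S, (fun i => (a i : ZMod (M p))) ∉ D p) →
        (fun i => (a i : ZMod N)) ∈ A := by
  haveI : ∀ p : S, NeZero (M p) := fun p => ⟨(hM0 p p.2).ne'⟩
  haveI : NeZero N := ⟨by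
    rw [hN]
    exact Finset.prod_ne_zero_iff.mpr fun p hp => (hM0 p hp).ne'⟩
  have hdvd : ∀ p : S, M p ∣ N := fun p => by
    rw [hN]
    exact Finset.dvd_prod_of_mem _ p.2
  let ψ : (Fin m → ZMod N) → ∀ p : S, (Fin m → ZMod (M p)) :=
    fun v p i => ZMod.castHom (hdvd p) (ZMod (M p)) (v i)
  have hψ : Function.Injective ψ := by
    intro v w h
    funext i
    have h1 : ∀ p : S, ZMod.castHom (hdvd p) (ZMod (M p)) (v i - w i) = 0 := by
      intro p
      rw [map_sub, sub_eq_zero]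
      exact congrFun (congrFun h p) i
    have h2 : ∀ p ∈ S, M p ∣ (v i - w i).val := by
      intro p hp
      have h3 := h1 ⟨p, hp⟩
      rw [ZMod.castHom_apply, ZMod.cast_eq_val, ZMod.natCast_eq_zero_iff] at h3
      exact h3
    have h3 : N ∣ (v i - w i).val := by
      have h5 : ∏ p ∈ S, M p ∣ (v i - w i).val := by
        apply Finset.prod_dvd_of_isRelPrime _ h2
        intro p hp q hq hpq
        exact Nat.coprime_iff_isRelPrime.mp (hcop p hp q hq hpq)
      rwa [← hN] at h5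
    have h4 : (v i - w i).val = 0 := Nat.eq_zero_of_dvd_of_lt h3 (ZMod.val_lt _)
    rw [ZMod.val_eq_zero] at h4
    exact sub_eq_zero.mp h4
  refine ⟨Finset.univ.filter fun v => ∀ p : S, ψ v p ∉ D p, ?_, ?_⟩
  · have h1 : ((Finset.univ.filter fun v => ∀ p : S, ψ v p ∉ D p).card : ℝ) ≤
        ((Fintype.piFinset fun p : S =>
          Finset.univ.filter fun w : Fin m → ZMod (M p) => w ∉ D p).card : ℝ) := by
      rw [Nat.cast_le, ← Finset.card_image_of_injective _ hψ]
      apply Finset.card_le_card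
      intro x hx
      obtain ⟨v, hv, rfl⟩ := Finset.mem_image.mp hx
      rw [Finset.mem_filter] at hv
      rw [Fintype.mem_piFinset]
      intro p
      rw [Finset.mem_filter]
      exact ⟨Finset.mem_univ _, hv.2 p⟩
    refine h1.trans ?_
    rw [Fintype.card_piFinset]
    push_cast
    have h2 : ∀ p : S, ((Finset.univ.filter fun w : Fin m → ZMod (M p) => w ∉ D p).card : ℝ) ≤
        (1 - δ p) * (M p : ℝ) ^ m := by
      intro p
      have h3 := hD p p.2
      have h4 : (D p).ncard = (Finset.univ.filter fun w : Fin m → ZMod (M p) => w ∈ D p).card := by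
        rw [← Set.ncard_coe_finset]
        congr 1
        ext w
        simp
      have h5 := Finset.card_filter_add_card_filter_not
        (s := (Finset.univ : Finset (Fin m → ZMod (M p)))) (fun w => w ∈ D p)
      rw [Finset.card_univ, Fintype.card_fun, ZMod.card, Fintype.card_fin] at h5
      have h6 : (((Finset.univ.filter fun w : Fin m → ZMod (M p) => w ∈ D p).card : ℝ)) +
          ((Finset.univ.filter fun w : Fin m → ZMod (M p) => w ∉ D p).card : ℝ) =
          (M p : ℝ) ^ m := by exact_mod_cast h5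
      rw [h4] at h3
      linarith
    calc ∏ p : S, ((Finset.univ.filter fun w : Fin m → ZMod (M p) => w ∉ D p).card : ℝ)
        ≤ ∏ p : S, ((1 - δ p) * (M p : ℝ) ^ m) :=
          Finset.prod_le_prod (fun _ _ => by positivity) (fun p _ => h2 p)
      _ = _ := by
          rw [Finset.prod_mul_distrib, Finset.prod_coe_sort S (fun p => (1 - δ p)), hN,
            Finset.prod_pow, Finset.prod_coe_sort S (fun p => (M p : ℝ))]
          push_cast
          rfl
  · intro a ha
    rw [Finset.mem_filter]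
    refine ⟨Finset.mem_univ _, fun p => ?_⟩
    have h1 : ψ (fun i => (a i : ZMod N)) p = fun i => (a i : ZMod (M p)) := by
      funext i
      exact map_intCast _ _
    rw [h1]
    exact ha p p.2

/-- **Density zero**, for residue classes modulo coprime integers whose proportions have a divergent
sum. -/
theorem density_crtB7 (m : ℕ) (M : ℕ → ℕ) (D : ∀ p : ℕ, Set (Fin m → ZMod (M p))) (δ : ℕ → ℝ)
    (P : Set ℕ) (hM0 : ∀ p ∈ P, 0 < M p)
    (hcop : ∀ p ∈ P, ∀ q ∈ P, p ≠ q → Nat.Coprime (M p) (M q))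
    (hδ : ∀ T : ℝ, ∃ S : Finset ℕ, (∀ p ∈ S, p ∈ P) ∧ T ≤ ∑ p ∈ S, δ p)
    (hD : ∀ p ∈ P, δ p * (M p : ℝ) ^ m ≤ (D p).ncard) (Good : (Fin m → ℤ) → Prop)
    (hGood : ∀ a, ∀ p ∈ P, (fun i => (a i : ZMod (M p))) ∈ D p → Good a) :
    Tendsto (fun H : ℕ => ({a : Fin m → ℤ | (∀ i, |a i| ≤ H) ∧ ¬ Good a}.ncard : ℝ) /
      (2 * H + 1) ^ m) atTop (𝓝 0) := by
  have hδ1 : ∀ p ∈ P, δ p ≤ 1 := by
    intro p hp
    haveI : NeZero (M p) := ⟨(hM0 p hp).ne'⟩
    have h1 := hD p hp
    have h2 : ((D p).ncard : ℝ) ≤ (M p : ℝ) ^ m := by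
      have h3 : (D p).ncard ≤ (Set.univ : Set (Fin m → ZMod (M p))).ncard :=
        Set.ncard_le_ncard (Set.subset_univ _)
      rw [Set.ncard_univ, Nat.card_eq_fintype_card, Fintype.card_fun, ZMod.card,
        Fintype.card_fin] at h3
      exact_mod_cast h3
    have h4 : (0 : ℝ) < (M p : ℝ) ^ m := by
      have : (0 : ℝ) < M p := by exact_mod_cast hM0 p hp
      positivity
    nlinarith
  rw [Metric.tendsto_atTop]
  intro ε hε
  obtain ⟨S, hSP, hST⟩ := hδ (- Real.log (ε / 2))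
  obtain ⟨N, hN⟩ : ∃ N, N = ∏ p ∈ S, M p := ⟨_, rfl⟩
  obtain ⟨A, hA1, hA2⟩ := card_avoidB7 m M D δ S (fun p hp => hM0 p (hSP p hp))
    (fun p hp q hq => hcop p (hSP p hp) q (hSP q hq)) (fun p hp => hD p (hSP p hp)) hN
  set t := ∏ p ∈ S, (1 - δ p) with htdef
  have ht : t < ε := by
    have h1 : t ≤ ∏ p ∈ S, Real.exp (- δ p) := by
      refine Finset.prod_le_prod (fun p hp => by linarith [hδ1 p (hSP p hp)]) fun p _ => ?_
      linarith [Real.add_one_le_exp (- δ p)]
    rw [← Real.exp_sum, Finset.sum_neg_distrib] at h1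
    have h2 : Real.exp (- ∑ p ∈ S, δ p) ≤ ε / 2 := by
      rw [← Real.le_log_iff_exp_le (by positivity)]
      linarith
    linarith
  have hN0 : 0 < N := by
    rw [hN]
    exact Finset.prod_pos fun p hp => hM0 p (hSP p hp)
  have hNR : (0 : ℝ) < N := by exact_mod_cast hN0
  have hlim : Tendsto (fun H : ℕ => t * (1 + N / (2 * (H : ℝ) + 1)) ^ m) atTop
      (𝓝 (t * (1 + 0) ^ m)) := by
    apply Tendsto.const_mul
    apply Tendsto.pow
    apply Tendsto.const_add
    apply Tendsto.div_atTop tendsto_const_nhds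
    exact tendsto_atTop_add_const_right _ _
      (Tendsto.const_mul_atTop (by norm_num) tendsto_natCast_atTop_atTop)
  rw [add_zero, one_pow, mul_one] at hlim
  obtain ⟨H0, hH0⟩ := (hlim.eventually_lt_const ht).exists_forall_of_atTop
  refine ⟨H0, fun H hH => ?_⟩
  have hpos : (0 : ℝ) < (2 * (H : ℝ) + 1) ^ m := by positivity
  rw [Real.dist_eq, sub_zero, abs_of_nonneg (by positivity), div_lt_iff₀ hpos]
  have h1 : {a : Fin m → ℤ | (∀ i, |a i| ≤ H) ∧ ¬ Good a} ⊆
      {a : Fin m → ℤ | (∀ i, |a i| ≤ H) ∧ (fun i => (a i : ZMod N)) ∈ A} := by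
    rintro a ⟨h2, h3⟩
    refine ⟨h2, hA2 a fun p hp hap => h3 (hGood a p (hSP p hp) hap)⟩
  have hfin : {a : Fin m → ℤ | (∀ i, |a i| ≤ H) ∧ (fun i => (a i : ZMod N)) ∈ A}.Finite := by
    apply Set.Finite.subset (Finset.finite_toSet
      (Fintype.piFinset fun _ : Fin m => Finset.Icc (-(H : ℤ)) H))
    rintro a ⟨h2, -⟩
    rw [Finset.mem_coe, Fintype.mem_piFinset]
    intro i
    rw [Finset.mem_Icc]
    exact abs_le.mp (h2 i)
  have h2 : (({a : Fin m → ℤ | (∀ i, |a i| ≤ H) ∧ ¬ Good a}.ncard : ℝ)) ≤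
      A.card * ((2 * H + 1) / N + 1) ^ m :=
    (by exact_mod_cast Set.ncard_le_ncard h1 hfin : _ ≤ _).trans (card_box7 hN0 m H A)
  refine lt_of_le_of_lt h2 ?_
  have h3 : (A.card : ℝ) * ((2 * H + 1) / N + 1) ^ m ≤
      (t * (1 + N / (2 * (H : ℝ) + 1)) ^ m) * (2 * (H : ℝ) + 1) ^ m := by
    have h4 : (0 : ℝ) ≤ ((2 * H + 1) / N + 1) ^ m := by positivity
    refine (mul_le_mul_of_nonneg_right hA1 h4).trans ?_
    rw [mul_assoc, mul_assoc, ← mul_pow, ← mul_pow]
    have h5 : (N : ℝ) * ((2 * H + 1) / N + 1) = (1 + N / (2 * (H : ℝ) + 1)) * (2 * H + 1) := by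
      field_simp
    rw [h5]
  exact lt_of_le_of_lt h3 (mul_lt_mul_of_pos_right (hH0 H hH) hpos)

/-- The sums of `c / p` over finite sets of large primes are unbounded. -/
theorem sum_primes_unbounded7 {c : ℝ} (hc : 0 < c) (P₀ : ℕ) (T : ℝ) :
    ∃ S : Finset ℕ, (∀ p ∈ S, p.Prime ∧ P₀ ≤ p) ∧ T ≤ ∑ p ∈ S, c / p := by
  by_contra hcon
  push Not at hcon
  apply not_summable_one_div_on_primes
  apply summable_of_sum_le (c := T / c + ∑ p ∈ Finset.range P₀, (1 : ℝ) / p)
  · intro n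
    exact Set.indicator_nonneg (fun _ _ => by positivity) n
  · intro s
    have h1 := hcon (s.filter fun p => p.Prime ∧ P₀ ≤ p) fun p hp => (Finset.mem_filter.mp hp).2
    have h2 : ∑ x ∈ s, Set.indicator {p : ℕ | p.Prime} (fun n : ℕ => (1 : ℝ) / n) x ≤
        ∑ x ∈ s.filter (fun p => p.Prime ∧ P₀ ≤ p), (1 : ℝ) / x +
          ∑ p ∈ Finset.range P₀, (1 : ℝ) / p := by
      have h3 : ∑ x ∈ s, Set.indicator {p : ℕ | p.Prime} (fun n : ℕ => (1 : ℝ) / n) x =
          ∑ x ∈ s.filter (fun p => p.Prime), (1 : ℝ) / x := by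
        rw [Finset.sum_filter]
        refine Finset.sum_congr rfl fun x _ => ?_
        rw [Set.indicator_apply]
        rfl
      rw [h3]
      have h4 : s.filter (fun p => p.Prime) ⊆
          s.filter (fun p => p.Prime ∧ P₀ ≤ p) ∪ Finset.range P₀ := by
        intro p hp
        rw [Finset.mem_filter] at hp
        rw [Finset.mem_union, Finset.mem_filter, Finset.mem_range]
        rcases le_or_gt P₀ p with h | h
        · exact Or.inl ⟨hp.1, hp.2, h⟩
        · exact Or.inr h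
      refine (Finset.sum_le_sum_of_subset_of_nonneg h4 fun _ _ _ => by positivity).trans ?_
      have h5 := Finset.sum_union_inter (s₁ := s.filter (fun p => p.Prime ∧ P₀ ≤ p))
        (s₂ := Finset.range P₀) (f := fun x : ℕ => (1 : ℝ) / x)
      have h6 : (0 : ℝ) ≤ ∑ x ∈ s.filter (fun p => p.Prime ∧ P₀ ≤ p) ∩ Finset.range P₀,
        (1 : ℝ) / x := Finset.sum_nonneg fun _ _ => by positivity
      linarith
    have h7 : ∑ x ∈ s.filter (fun p => p.Prime ∧ P₀ ≤ p), (1 : ℝ) / x ≤ T / c := by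
      rw [le_div_iff₀ hc, Finset.sum_mul]
      refine le_trans (le_of_eq ?_) h1.le
      refine Finset.sum_congr rfl fun x _ => ?_
      ring
    linarith

end Pool.Agent.Lib.MP_89bcae_ag
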