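import Mathlib
import Pool.Agent.Lib.MP_89bcae_ag.DinfG14

/-!
# The formula for the divisor of `γ y - y` at the points of the divisor of `y - ι y`
-/

open Polynomial WeierstrassCurve WeierstrassCurve.Affine IsDedekindDomain

open scoped Classical

namespace Pool.Agent.Lib.MP_89bcae_ag

set_option linter.unusedSectionVars false
set_option linter.style.haveILetI false

section Tower

variable {R F L Ω : Type*} [CommRing R] [Field F] [IsAlgClosed F] [Field L] [Field Ω]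
  [Algebra F[X] L] [IsFractionRing F[X] L] [Algebra L Ω] [Algebra F[X] Ω] [IsScalarTower F[X] L Ω]
  [Algebra R L] [Algebra R Ω] [IsScalarTower R L Ω] {W : Affine R} {g D E : F[X]}
  [IsGalois L Ω] [IsSepClosed Ω]
  {K : Type*} [Field K] [Algebra L K] [Algebra K Ω] [IsScalarTower L K Ω] [Algebra F[X] K]
  [IsScalarTower F[X] L K] [IsScalarTower F[X] K Ω] [IsGalois K Ω]
  {w : Valuation K (WithZero (Multiplicative ℤ))} {α : F} {S : Ω} {γ : Ω ≃ₐ[R] Ω}
  {γK : K ≃+* K} {τ : F →+* F} {s : Ω}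
  {y z z' : (Ω ≃ₐ[L] Ω) → (W.baseChange Ω).Point} {A A' : (W.baseChange Ω).Point}
  {Z Z' : Finset F} {b b' B : Ω → Ω}

/-- An element on which the elements of the local Galois group fixing `S` act by signs, and whose
product with its conjugate is in `K`, is fixed by the elements of the local Galois group which
fix `S`. -/
lemma IsLoc.fix_Q14 {π : K} (h : IsLoc w g D π S) {ι : Ω ≃ₐ[K] Ω} (hι : ι S = -S) {Q : Ω}
    (hQ0 : Q ≠ 0) (hQ : ∀ σ : Ω ≃ₐ[K] Ω, σ S = S → σ Q = Q ∨ σ Q = -Q)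
    (hN : ∀ σ : Ω ≃ₐ[K] Ω, σ (Q * ι Q) = Q * ι Q) {h₁ : Ω ≃ₐ[K] Ω} (hh : h₁ S = S) :
    h₁ Q = Q := by
  have h2 := h.two
  have hinv : ι⁻¹ S = -S := by
    apply ι.injective
    rw [← AlgEquiv.mul_apply, mul_inv_cancel, map_neg, hι, neg_neg]
    rfl
  have hιQ : ι Q ≠ 0 := (map_ne_zero ι).mpr hQ0
  -- squares
  have q1 : ∀ σ : Ω ≃ₐ[K] Ω, σ S = S → σ Q ^ 2 = Q ^ 2 := by
    intro σ hσ
    rcases hQ σ hσ with h1 | h1 <;> rw [h1]
    rw [neg_sq]
  have q2 : ∀ σ : Ω ≃ₐ[K] Ω, σ S = -S → σ Q ^ 2 = ι Q ^ 2 := by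
    intro σ hσ
    have h1 := q1 (ι⁻¹ * σ) (by rw [AlgEquiv.mul_apply, hσ, map_neg, hinv, neg_neg])
    have h3 := congrArg ι h1
    rw [map_pow, map_pow, ← AlgEquiv.mul_apply, mul_inv_cancel_left] at h3
    exact h3
  have q3 : ∀ σ : Ω ≃ₐ[K] Ω, σ (Q ^ 2 + ι Q ^ 2) = Q ^ 2 + ι Q ^ 2 := by
    intro σ
    rw [map_add, map_pow, map_pow]
    rcases smul_sign h.S_sq σ with hσ | hσ
    · have h1 := q2 (σ * ι) (by rw [AlgEquiv.mul_apply, hι, map_neg, hσ])
      rw [AlgEquiv.mul_apply] at h1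
      rw [q1 σ hσ, h1]
    · have h1 := q1 (σ * ι) (by rw [AlgEquiv.mul_apply, hι, map_neg, hσ, neg_neg])
      rw [AlgEquiv.mul_apply] at h1
      rw [q2 σ hσ, h1, add_comm]
  set k : Ω ≃ₐ[K] Ω := ι⁻¹ * h₁ * ι with hk
  have hkS : k S = S := by
    rw [hk, AlgEquiv.mul_apply, AlgEquiv.mul_apply, hι, map_neg, hh, map_neg, hinv, neg_neg]
  have a3 : h₁ (ι Q) = ι (k Q) := by
    rw [hk, AlgEquiv.mul_apply, AlgEquiv.mul_apply]
    exact (ι.apply_symm_apply _).symm
  rcases hQ h₁ hh with a1 | a1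
  · exact a1
  exfalso
  have a4 : h₁ (ι Q) = -ι Q := by
    rcases hQ k hkS with a2 | a2
    · exfalso
      have h1 := hN h₁
      rw [map_mul, a1, a3, a2] at h1
      have h3 : 2 * (Q * ι Q) = 0 := by linear_combination -h1
      rcases mul_eq_zero.mp h3 with h4 | h4
      · exact h2 h4
      · exact mul_ne_zero hQ0 hιQ h4
    · rw [a3, a2, map_neg]
  -- a nonzero element
  obtain ⟨ε, hε, hε0⟩ : ∃ ε : K, (ε = 1 ∨ ε = -1) ∧ Q + algebraMap K Ω ε * ι Q ≠ 0 := by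
    by_cases h0 : Q + ι Q = 0
    · refine ⟨-1, Or.inr rfl, fun h1 => ?_⟩
      have h3 : 2 * Q = 0 := by
        rw [map_neg, map_one] at h1
        linear_combination h0 + h1
      rcases mul_eq_zero.mp h3 with h4 | h4
      · exact h2 h4
      · exact hQ0 h4
    · exact ⟨1, Or.inl rfl, by rwa [map_one, one_mul]⟩
  set e := Q + algebraMap K Ω ε * ι Q with he
  have he2 : e ^ 2 = (Q ^ 2 + ι Q ^ 2) + 2 * (algebraMap K Ω ε * (Q * ι Q)) := by
    have h1 : algebraMap K Ω ε * algebraMap K Ω ε = 1 := by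
      rcases hε with h3 | h3 <;> rw [h3] <;> simp
    rw [he]
    linear_combination (ι Q ^ 2) * h1
  obtain ⟨n, hn⟩ := exists_of_fixed (F := K) (x := e ^ 2) (by
    intro σ
    rw [he2, map_add, q3 σ, map_mul, map_mul, hN σ, σ.commutes, map_ofNat])
  have hn0 : n ≠ 0 := by
    rintro rfl
    rw [map_zero] at hn
    exact hε0 (pow_eq_zero_iff two_ne_zero |>.mp hn.symm)
  have hhe : h₁ e = e := by
    rcases Int.even_or_odd (lg w n) with hev | hodd
    · obtain ⟨r, hr⟩ := exists_rational_sqrt w h.unif h.sqrt hn0 hev (d := e) hn.symm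
      rw [← hr, h₁.commutes]
    · have h1 := sqrt_odd h.unif h.sqrt h.S_sq hn0 hodd (d := e) hn.symm h₁
      rw [hh] at h1
      exact mul_right_cancel₀ h.S_ne h1
  have hχe : h₁ e = -e := by
    rw [he, map_add, map_mul, h₁.commutes, a1, a4]
    ring
  rw [hhe] at hχe
  have h3 : 2 * e = 0 := by linear_combination hχe
  rcases mul_eq_zero.mp h3 with h4 | h4
  · exact h2 h4
  · exact hε0 h4

/-- **The formula at the points of `Z`.** For a point `β` of a fibre of `g` over a root `α` of `D`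
which belongs to the divisor `Z` of `z = y - ι y`: `β` belongs to the divisor of `z' = γ y - y` if
and only if `γ` moves the square roots of `-D'(α) g'(β)` times the product of the `β - c`, `c ∈ Z`,
`c ≠ β`. -/
theorem KeyData.key14Z (h : KeyData w g D α S γ γK τ) (h2F : (2 : F) ≠ 0)
    (hW : IsTwist Ω W g E) (hE0 : E ≠ 0) (hEτ : E.map τ = E) (hg : g.Monic)
    (hdeg : g.natDegree = 3) (hd : derivative g ≠ 0)
    (hDα : D.eval α = 0) (hD' : (derivative D).eval α ≠ 0)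
    {β βj βl : F} (h12 : β ≠ βj) (h13 : β ≠ βl) (h23 : βj ≠ βl)
    (hfac : g - C α = (X - C β) * (X - C βj) * (X - C βl))
    (hs : s ^ 2 = algebraMap F[X] Ω D) (hγs : γ s = s) {ι₀ : Ω ≃ₐ[L] Ω} (hι₀ : ι₀ s = -s)
    (hconj : ∀ σ : Ω ≃ₐ[L] Ω, ∃ σ' : Ω ≃ₐ[L] Ω, ∀ x, γ (σ' x) = σ (γ x))
    (hr₀ : Rel2 W s γ ι₀ y z z' A A') (hloc : IsLocallyConstant y)
    (hb : IsDesc W g E z Z b) (hb' : IsDesc W g E z' Z' b') (hfix : ∀ β ∈ Z, τ β = β)
    (hβZ : β ∈ Z) :
    β ∈ Z' ↔ Moves τ (-((derivative D).eval α * (derivative g).eval β *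
      ∏ c ∈ Z.erase β, (β - c))) := by
  have h2 := h.loc.two
  have hev : ∀ x, g.eval x - α = (x - β) * (x - βj) * (x - βl) := by
    intro x
    have := congrArg (fun p => p.eval x) hfac
    simpa using this
  have e1 : g.eval β = α := by
    have := hev β
    rw [sub_self, zero_mul, zero_mul] at this
    exact sub_eq_zero.mp this
  have e2 : g.eval βj = α := by
    have := hev βj
    rw [sub_self, mul_zero, zero_mul] at this
    exact sub_eq_zero.mp this
  have e3 : g.eval βl = α := by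
    have := hev βl
    rw [sub_self, mul_zero] at this
    exact sub_eq_zero.mp this
  obtain ⟨x, x₂, x₃, ⟨m1, m2, m3⟩, ⟨n1, n2, n3⟩, hall⟩ :=
    h.labels hg hdeg hd L h12 h13 h23 hfac
  have hγθ : ∀ θ ∈ RootSet (Ω := Ω) g, γ θ = θ := by
    intro θ hθ
    rcases hall θ hθ with rfl | rfl | rfl
    · rw [h.γ_K, h.fix_near e1 m1 (cg_of_near n1)]
    · rw [h.γ_K, h.fix_near e2 m2 (cg_of_near n2)]
    · rw [h.γ_K, h.fix_near e3 m3 (cg_of_near n3)]
  have hx := m1
  have hn := n1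
  have hγx : γK x = x := h.fix_near e1 m1 (cg_of_near n1)
  obtain ⟨σ₀, hσ₀⟩ := exists_moves w h.loc.unif h.loc.S_sq
  obtain ⟨ι, hι1, hι2⟩ := h.exists_conj σ₀
  have hιS := hι2 hσ₀
  have hs0 : s ≠ 0 := by
    rintro rfl
    rw [zero_pow two_ne_zero] at hs
    exact algebraMap_ne_zero_Om (F := F) L (Ω := Ω) h.loc.ne hs.symm
  have hιs : (ι.restrictScalars L) s = -s := (h.act_s L hs ι).2 hιS
  have hιs' : ι s = -s := hιs
  obtain ⟨A₂, hr⟩ := hr₀.change_iota hι₀ hιs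
  have hadp : Adp14 g E D s γ (ι.restrictScalars L) (σ₀.restrictScalars L) τ :=
    ⟨hs, hs0, hιs, hγs, fun θ hθ => h.loc.fix_root hθ ι, hγθ, hι1, h.γ_poly, h.g_fix, hEτ, hconj⟩
  obtain ⟨B, hB0, hB⟩ := exists_desc14 (E := E) h2 hW hg hdeg hd hs hs0 hιs hr.two_y hr.mul_y hloc
  have hmain := hadp.gamma_b hW h2 hg hdeg hd hE0 hr hb hb' hB0 hB hfix hx
  have hCmap := hadp.C_map hW h2 hg hdeg hd hE0 hr hb hB0 hB hx
  set θ := algebraMap K Ω x with hθ
  -- the descent function of `z` at `θ` divided by `s` is in `K`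
  have hoth : ∀ β' : F, β' ≠ β → w (x - algebraMap F[X] K (C β')) = 1 := by
    intro β' hne
    exact ((cg_of_near hn).sub (IsOver.cg_const (w := w) β')).one h.isOver
      (sub_ne_zero.mpr (Ne.symm hne))
  obtain ⟨hne, hlg⟩ := lg_root_prod w hn hoth Z
  rw [if_pos hβZ] at hlg
  have hprod0 : (∏ β' ∈ Z, (x - algebraMap F[X] K (C β'))) ≠ 0 :=
    Finset.prod_ne_zero_iff.mpr fun β' _ => hne β'
  have hsq : b θ ^ 2 = algebraMap K Ω (∏ β' ∈ Z, (x - algebraMap F[X] K (C β'))) := by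
    rw [hb.sq _ hx, map_prod]
    apply Finset.prod_congr rfl
    intro β' _
    rw [map_sub, ← IsScalarTower.algebraMap_apply]
  have hodd : ∀ σ : Ω ≃ₐ[K] Ω, σ (b θ) * S = b θ * σ S :=
    fun σ => sqrt_odd h.loc.unif h.loc.sqrt h.loc.S_sq hprod0 (by rw [hlg]; decide) hsq σ
  have hsign : ∀ σ : Ω ≃ₐ[K] Ω, (σ s = s ∧ σ (b θ) = b θ) ∨ (σ s = -s ∧ σ (b θ) = -b θ) := by
    intro σ
    rcases smul_sign h.loc.S_sq σ with h1 | h1
    · refine Or.inl ⟨(h.act_s L hs σ).1 h1, mul_right_cancel₀ h.loc.S_ne ?_⟩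
      rw [hodd, h1]
    · refine Or.inr ⟨(h.act_s L hs σ).2 h1, mul_right_cancel₀ h.loc.S_ne ?_⟩
      rw [hodd, h1]; ring
  obtain ⟨m, hm⟩ := exists_of_fixed (F := K) (x := b θ / s) (by
    intro σ
    rw [map_div₀]
    rcases hsign σ with ⟨h1, h3⟩ | ⟨h1, h3⟩
    · rw [h1, h3]
    · rw [h1, h3, neg_div_neg_eq])
  -- the square roots of `s` and of `-1`
  obtain ⟨Rt, hRt⟩ : ∃ r : Ω, r ^ 2 = s :=
    IsSepClosed.exists_pow_nat_eq s 2 (hn := ⟨by exact_mod_cast h2⟩)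
  have hRt0 : Rt ≠ 0 := by
    rintro rfl
    apply hs0
    rw [← hRt]; ring
  obtain ⟨i, hi, hιR⟩ : ∃ i : F, i ^ 2 = -1 ∧ ι Rt = algebraMap F[X] Ω (C i) * Rt := by
    obtain ⟨i, hi⟩ := IsAlgClosed.exists_pow_nat_eq (-1 : F) (n := 2) (by norm_num)
    have hI2 : (algebraMap F[X] Ω (C i)) ^ 2 = -1 := by
      rw [← map_pow, ← C_pow, hi, C_neg, map_neg, C_1, map_one]
    have h1 : (ι Rt - algebraMap F[X] Ω (C i) * Rt) * (ι Rt + algebraMap F[X] Ω (C i) * Rt) =
        0 := by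
      have h3 : ι Rt ^ 2 = -s := by rw [← map_pow, hRt, hιs']
      linear_combination h3 - Rt ^ 2 * hI2 + hRt
    rcases mul_eq_zero.mp h1 with h3 | h3
    · exact ⟨i, hi, sub_eq_zero.mp h3⟩
    · refine ⟨-i, by rw [neg_sq, hi], ?_⟩
      rw [C_neg, map_neg]
      linear_combination h3
  set I : Ω := algebraMap F[X] Ω (C i) with hI
  set J : Ω := algebraMap F[X] Ω (C (τ i)) with hJ
  have hI2 : I ^ 2 = -1 := by
    rw [hI, ← map_pow, ← C_pow, hi, C_neg, map_neg, C_1, map_one]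
  have hJ2 : J ^ 2 = -1 := by
    rw [hJ, ← map_pow, ← C_pow, ← map_pow, hi, map_neg, map_one, C_neg, map_neg, C_1, map_one]
  have hIγ : γ I = J := by rw [hI, h.γ_poly, map_C]
  have hconst : ∀ (a : F) (σ : Ω ≃ₐ[K] Ω), σ (algebraMap F[X] Ω (C a)) =
      algebraMap F[X] Ω (C a) := by
    intro a σ
    rw [IsScalarTower.algebraMap_apply F[X] K Ω, σ.commutes]
  have hIK : ∀ σ : Ω ≃ₐ[K] Ω, σ I = I := hconst i
  have hJK : ∀ σ : Ω ≃ₐ[K] Ω, σ J = J := hconst (τ i)
  have hI0 : I ≠ 0 := by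
    intro h0
    rw [h0, zero_pow two_ne_zero] at hI2
    exact one_ne_zero (by linear_combination hI2 : (1 : Ω) = 0)
  have hσ₀R : σ₀ Rt = J * Rt := by
    have h1 : γ Rt = Rt ∨ γ Rt = -Rt := by
      have h3 : (γ Rt) ^ 2 = Rt ^ 2 := by rw [← map_pow, hRt, hγs]
      have h4 : (γ Rt - Rt) * (γ Rt + Rt) = 0 := by linear_combination h3
      rcases mul_eq_zero.mp h4 with h5 | h5
      · exact Or.inl (sub_eq_zero.mp h5)
      · exact Or.inr (by linear_combination h5)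
    have h3 := hι1 Rt
    rw [hιR, map_mul, hIγ] at h3
    rcases h1 with h1 | h1
    · rw [h1] at h3
      exact h3.symm
    · rw [h1, map_neg] at h3
      linear_combination h3
  have hh₁ : (ι⁻¹ * σ₀) S = S := by
    have hinv : ι⁻¹ S = -S := by
      apply ι.injective
      rw [← AlgEquiv.mul_apply, mul_inv_cancel, map_neg, hιS, neg_neg]
      rfl
    rw [AlgEquiv.mul_apply, hσ₀, map_neg, hinv, neg_neg]
  have hh₁R : (ι⁻¹ * σ₀) Rt = -(I * J) * Rt := by
    apply ι.injective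
    rw [← AlgEquiv.mul_apply, mul_inv_cancel_left, hσ₀R, map_mul, map_neg, map_mul, hIK, hJK, hιR]
    linear_combination (J * Rt) * hI2
  -- the element `Q`
  set Q : Ω := B θ / Rt with hQdef
  have hBθ := hB0 θ hx
  have hQ0 : Q ≠ 0 := div_ne_zero hBθ hRt0
  have hactB : ∀ σ : Ω ≃ₐ[K] Ω, σ S = S →
      σ (B θ) = sg14 E θ (y (σ.restrictScalars L)) * B θ ∧
      2 • y (σ.restrictScalars L) = 0 := by
    intro σ hσ
    have h1 : (σ.restrictScalars L) s = s := (h.act_s L hs σ).1 hσ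
    have h3 := hB θ hx (σ.restrictScalars L) h1
    have h4 : (σ.restrictScalars L) θ = θ := h.loc.fix_root hx σ
    rw [h4] at h3
    exact ⟨h3, hr.two_y _ h1⟩
  have hQ : ∀ σ : Ω ≃ₐ[K] Ω, σ S = S → σ Q = Q ∨ σ Q = -Q := by
    intro σ hσ
    obtain ⟨h1, h3⟩ := hactB σ hσ
    have h4 : σ Rt = Rt ∨ σ Rt = -Rt := by
      have h5 : (σ Rt) ^ 2 = Rt ^ 2 := by rw [← map_pow, hRt, (h.act_s L hs σ).1 hσ]
      have h6 : (σ Rt - Rt) * (σ Rt + Rt) = 0 := by linear_combination h5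
      rcases mul_eq_zero.mp h6 with h7 | h7
      · exact Or.inl (sub_eq_zero.mp h7)
      · exact Or.inr (by linear_combination h7)
    rw [hQdef, map_div₀, h1]
    rcases sg_or14 hW h2 θ h3 with h5 | h5 <;> rcases h4 with h4 | h4 <;> rw [h5, h4]
    · left; rw [one_mul]
    · right; rw [one_mul, div_neg]
    · right; rw [neg_mul, one_mul, neg_div]
    · left; rw [neg_mul, one_mul, neg_div_neg_eq]
  have hN : ∀ σ : Ω ≃ₐ[K] Ω, σ (Q * ι Q) = Q * ι Q := by
    intro σ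
    have h1 : Q * ι Q = sg14 E θ A₂ *
        CC14 E (ι.restrictScalars L : Ω ≃ₐ[L] Ω) A₂ b B θ / I * (b θ / s) := by
      have h3 := sg_self14 hW h2 θ hr.two_A
      have h4 : sg14 E θ A₂ * CC14 E (ι.restrictScalars L : Ω ≃ₐ[L] Ω) A₂ b B θ * b θ =
          B θ * ι (B θ) := by
        unfold CC14
        rw [mul_assoc, div_mul_cancel₀ _ (hb.ne_zero hx)]
        change sg14 E θ A₂ * (sg14 E θ A₂ * B θ * ι (B θ)) = B θ * ι (B θ)
        linear_combination (B θ * ι (B θ)) * h3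
      rw [hQdef, map_div₀, hιR, div_mul_div_comm, div_mul_div_comm, h4]
      congr 1
      linear_combination I * hRt
    have h3 : σ (CC14 E (ι.restrictScalars L : Ω ≃ₐ[L] Ω) A₂ b B θ) =
        CC14 E (ι.restrictScalars L : Ω ≃ₐ[L] Ω) A₂ b B θ := by
      have h4 := hCmap (σ.restrictScalars L)
      have h5 : (σ.restrictScalars L) θ = θ := h.loc.fix_root hx σ
      rw [h5] at h4
      exact h4
    have h4 : σ (sg14 E θ A₂) = sg14 E θ A₂ := map_sg14 hW h2 θ hr.two_A (σ.restrictScalars L)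
    rw [h1, ← hm, map_mul, map_div₀, map_mul, h3, h4, hIK, σ.commutes]
  have hfixQ := h.loc.fix_Q14 hιS hQ0 hQ hN hh₁
  have hres : ((ι⁻¹ * σ₀ : Ω ≃ₐ[K] Ω).restrictScalars L : Ω ≃ₐ[L] Ω) =
      (ι.restrictScalars L)⁻¹ * σ₀.restrictScalars L := by
    ext x
    rfl
  have hχ : sg14 E θ (y ((ι.restrictScalars L)⁻¹ * σ₀.restrictScalars L)) = -(I * J) := by
    have h1 := (hactB _ hh₁).1
    rw [hres] at h1
    rw [hQdef, map_div₀, h1, hh₁R] at hfixQ
    have hJ0 : J ≠ 0 := by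
      intro h0
      rw [h0, zero_pow two_ne_zero] at hJ2
      exact one_ne_zero (by linear_combination hJ2 : (1 : Ω) = 0)
    have h3 : -(I * J) * Rt ≠ 0 := mul_ne_zero (neg_ne_zero.mpr (mul_ne_zero hI0 hJ0)) hRt0
    rw [div_eq_div_iff h3 hRt0] at hfixQ
    apply mul_right_cancel₀ (mul_ne_zero hBθ hRt0)
    linear_combination hfixQ
  have hsgn := h.sign_near14 hb' hσ₀ hx hn
  rw [hχ, hsgn] at hmain
  -- the normalised element
  obtain ⟨D₁, hD₁⟩ : (X - C α) ∣ D := dvd_iff_isRoot.mpr hDα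
  have hD₁α : D₁.eval α = (derivative D).eval α := by
    rw [hD₁]
    simp
  have hD₁τ : D₁.map τ = D₁ := by
    have h1 := h.D_fix
    rw [hD₁, Polynomial.map_mul, Polynomial.map_sub, map_X, map_C, h.α_fix] at h1
    exact mul_left_cancel₀ (X_sub_C_ne_zero α) h1
  have hg' : (derivative g).eval β = (β - βj) * (β - βl) := by
    have h1 := congrArg (fun p => (derivative p).eval β) hfac
    simpa using h1
  have hπ : algebraMap F[X] K (X - C α) = (x - algebraMap F[X] K (C β)) *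
      (x - algebraMap F[X] K (C βj)) * (x - algebraMap F[X] K (C βl)) := by
    apply (algebraMap K Ω).injective
    have h1 := congrArg (ev F Ω (algebraMap K Ω x)) hfac
    rw [map_sub, show ev F Ω (algebraMap K Ω x) g = _ from hx] at h1
    simp only [map_mul, map_sub, ev_X, ev_C] at h1
    simp only [map_mul, map_sub, ← IsScalarTower.algebraMap_apply]
    exact h1
  set V : K := algebraMap F[X] K D₁ * ((x - algebraMap F[X] K (C βj)) *
    (x - algebraMap F[X] K (C βl))) with hV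
  have hDV : algebraMap F[X] K D = (x - algebraMap F[X] K (C β)) * V := by
    conv_lhs => rw [hD₁]
    rw [map_mul, hπ, hV]
    ring
  have hγV : γ (algebraMap K Ω V) = algebraMap K Ω V := by
    rw [h.γ_K]
    congr 1
    rw [hV, map_mul, map_mul, map_sub, map_sub, hγx, h.γK_poly, h.γK_poly, h.γK_poly, hD₁τ, map_C,
      map_C, h.β_fix _ e2, h.β_fix _ e3]
  have hm2 : m ^ 2 * V = ∏ c ∈ Z.erase β, (x - algebraMap F[X] K (C c)) := by
    have h1 : m ^ 2 * algebraMap F[X] K D = ∏ β' ∈ Z, (x - algebraMap F[X] K (C β')) := by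
      apply (algebraMap K Ω).injective
      rw [map_mul, map_pow, hm, ← hsq, ← IsScalarTower.algebraMap_apply, ← hs, div_pow,
        div_mul_cancel₀ _ (pow_ne_zero 2 hs0)]
    rw [← Finset.mul_prod_erase Z _ hβZ, hDV] at h1
    apply mul_left_cancel₀ (hne β)
    linear_combination h1
  set m₃ : K := algebraMap F[X] K (C i) * m * V with hm₃
  have hm₃I : algebraMap K Ω m₃ = I * (b θ / s) * algebraMap K Ω V := by
    rw [hm₃, map_mul, map_mul, hm, ← IsScalarTower.algebraMap_apply]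
  have hκ : γ (algebraMap K Ω m₃) = (if β ∈ Z' then -1 else 1) * algebraMap K Ω m₃ := by
    rw [hm₃I, map_mul, map_mul, map_div₀, hγV, hIγ, hmain, hγs]
    linear_combination (-(if β ∈ Z' then (-1 : Ω) else 1) * I * (b θ / s) *
      algebraMap K Ω V) * hJ2
  apply h.final h2F _ _ hκ
  · apply neg_ne_zero.mpr
    refine mul_ne_zero (mul_ne_zero hD' ?_) (Finset.prod_ne_zero_iff.mpr ?_)
    · rw [hg']
      exact mul_ne_zero (sub_ne_zero.mpr h12) (sub_ne_zero.mpr h13)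
    · intro c hc
      exact sub_ne_zero.mpr (Ne.symm (Finset.ne_of_mem_erase hc))
  · have h1 : m₃ ^ 2 = -(V * ∏ c ∈ Z.erase β, (x - algebraMap F[X] K (C c))) := by
      have h3 : (algebraMap F[X] K (C i)) ^ 2 = -1 := by
        rw [← map_pow, ← C_pow, hi, C_neg, map_neg, C_1, map_one]
      rw [hm₃]
      linear_combination (m ^ 2 * V ^ 2) * h3 - V * hm2
    rw [h1, ← hD₁α, hg']
    have hcβ := cg_of_near hn
    exact (((Cg.poly h.isOver D₁).mul h.isOver ((hcβ.sub (IsOver.cg_const βj)).mul h.isOver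
      (hcβ.sub (IsOver.cg_const βl)))).mul h.isOver (Cg.prod h.isOver _ fun c _ =>
      hcβ.sub (IsOver.cg_const c))).neg

end Tower

end Pool.Agent.Lib.MP_89bcae_ag
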