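import Mathlib
import Pool.Agent.Lib.MP_89bcae_ag.DinfH14
import Pool.Agent.Lib.MP_89bcae_ag.DefsRedei7

/-!
# The formula for the divisor of `γ y - y` at all points
-/

open Polynomial WeierstrassCurve WeierstrassCurve.Affine IsDedekindDomain

open scoped Classical

namespace Pool.Agent.Lib.MP_89bcae_ag

set_option linter.unusedSectionVars false
set_option linter.style.haveILetI false

section Alg

variable {F : Type*} [Field F]

lemma sub_C_ne_zero14 {g : F[X]} (hdeg : g.natDegree = 3) (a : F) : g - C a ≠ 0 := by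
  intro h0
  have h1 : g = C a := sub_eq_zero.mp h0
  rw [h1, natDegree_C] at hdeg
  exact absurd hdeg (by norm_num)

lemma mem_roots_fibre14 {g : F[X]} {b c : F} (h0 : g - C (g.eval b) ≠ 0) :
    c ∈ (g - C (g.eval b)).roots.toFinset ↔ g.eval c = g.eval b := by
  rw [Multiset.mem_toFinset, mem_roots h0, IsRoot.def, eval_sub, eval_C, sub_eq_zero]

/-- Multiplication by the square of a fixed element. -/
lemma moves_mul_sq14 {τ : F →+* F} {c e : F} (he : e ≠ 0) (hτ : τ e = e) :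
    Moves τ (c * e ^ 2) ↔ Moves τ c := by
  constructor
  · intro h s hs h1
    apply h (s * e) (by rw [mul_pow, hs])
    rw [map_mul, h1, hτ]
  · intro h s hs h1
    apply h (s / e) (by rw [div_pow, hs, mul_div_assoc, div_self (pow_ne_zero 2 he), mul_one])
    rw [map_div₀, h1, hτ]

lemma PZ1_of_notMem14 {g D : F[X]} {Z : Finset F} {b : F} (h0 : g - C (g.eval b) ≠ 0)
    (hb : b ∉ Z) : PZ1 g D Z b = ∏ c ∈ Z, (b - c) := by
  rw [PZ1, PZ, if_neg hb, mul_one,
    ← Finset.prod_filter_mul_prod_filter_not Z (fun c => g.eval c ≠ g.eval b)]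
  congr 1
  apply Finset.prod_congr _ fun _ _ => rfl
  ext c
  rw [Finset.mem_filter, Finset.mem_filter, mem_roots_fibre14 h0, not_not]
  constructor
  · rintro ⟨h1, -, h3⟩
    exact ⟨h3.mpr hb, h1⟩
  · rintro ⟨h1, h3⟩
    exact ⟨h3, fun h => hb (h ▸ h1), fun _ => hb, fun _ => h1⟩

lemma PZ1_of_mem14 {g D : F[X]} {Z : Finset F} {b bj bl : F} (h12 : b ≠ bj) (h13 : b ≠ bl)
    (h23 : bj ≠ bl) (hfac : g - C (g.eval b) = (X - C b) * (X - C bj) * (X - C bl))
    (hb : b ∈ Z) :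
    -((derivative D).eval (g.eval b) * (derivative g).eval b * ∏ c ∈ Z.erase b, (b - c)) =
      PZ1 g D Z b * (∏ c ∈ (Z.erase b).filter (fun c => g.eval c = g.eval b), (b - c)) ^ 2 := by
  have h0 : g - C (g.eval b) ≠ 0 := by
    rw [hfac]
    exact mul_ne_zero (mul_ne_zero (X_sub_C_ne_zero _) (X_sub_C_ne_zero _)) (X_sub_C_ne_zero _)
  have hev : ∀ x, g.eval x - g.eval b = (x - b) * (x - bj) * (x - bl) := by
    intro x
    have := congrArg (fun p => p.eval x) hfac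
    simpa using this
  have hR : (g - C (g.eval b)).roots.toFinset.erase b = {bj, bl} := by
    ext c
    rw [Finset.mem_erase, mem_roots_fibre14 h0, Finset.mem_insert, Finset.mem_singleton]
    constructor
    · rintro ⟨h1, h3⟩
      have h4 := hev c
      rw [h3, sub_self, eq_comm, mul_eq_zero, mul_eq_zero] at h4
      rcases h4 with (h4 | h4) | h4
      · exact absurd (sub_eq_zero.mp h4) h1
      · exact Or.inl (sub_eq_zero.mp h4)
      · exact Or.inr (sub_eq_zero.mp h4)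
    · rintro (rfl | rfl)
      · refine ⟨Ne.symm h12, sub_eq_zero.mp ?_⟩
        rw [hev, sub_self, mul_zero, zero_mul]
      · refine ⟨Ne.symm h13, sub_eq_zero.mp ?_⟩
        rw [hev, sub_self, mul_zero]
  have hg' : (derivative g).eval b =
      ∏ c ∈ (g - C (g.eval b)).roots.toFinset.erase b, (b - c) := by
    have h1 := congrArg (fun p => (derivative p).eval b) hfac
    rw [hR, Finset.prod_pair h23]
    simpa using h1
  have e1 : ∏ c ∈ (g - C (g.eval b)).roots.toFinset.erase b, (b - c) =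
      (∏ c ∈ (Z.erase b).filter (fun c => g.eval c = g.eval b), (b - c)) *
        ∏ c ∈ (g - C (g.eval b)).roots.toFinset.filter
          (fun c => c ≠ b ∧ (c ∈ Z ↔ b ∉ Z)), (b - c) := by
    rw [← Finset.prod_filter_mul_prod_filter_not
      ((g - C (g.eval b)).roots.toFinset.erase b) (fun c => c ∈ Z)]
    congr 1
    · apply Finset.prod_congr _ fun _ _ => rfl
      ext c
      simp only [Finset.mem_filter, Finset.mem_erase, mem_roots_fibre14 h0]
      tauto
    · apply Finset.prod_congr _ fun _ _ => rfl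
      ext c
      simp only [Finset.mem_filter, Finset.mem_erase, mem_roots_fibre14 h0]
      tauto
  have e2 : ∏ c ∈ Z.erase b, (b - c) =
      (∏ c ∈ Z.filter (fun c => g.eval c ≠ g.eval b), (b - c)) *
        ∏ c ∈ (Z.erase b).filter (fun c => g.eval c = g.eval b), (b - c) := by
    rw [← Finset.prod_filter_mul_prod_filter_not (Z.erase b) (fun c => g.eval c ≠ g.eval b)]
    congr 1
    · apply Finset.prod_congr _ fun _ _ => rfl
      ext c
      simp only [Finset.mem_filter, Finset.mem_erase]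
      constructor
      · rintro ⟨⟨-, h1⟩, h3⟩
        exact ⟨h1, h3⟩
      · rintro ⟨h1, h3⟩
        exact ⟨⟨fun h => h3 (by rw [h]), h1⟩, h3⟩
    · apply Finset.prod_congr _ fun _ _ => rfl
      ext c
      simp only [Finset.mem_filter, not_not]
  rw [hg', e1, e2, PZ1, PZ, if_pos hb]
  ring

lemma moves_PZ1_mem14 {g D : F[X]} {Z : Finset F} {b bj bl : F} (h12 : b ≠ bj) (h13 : b ≠ bl)
    (h23 : bj ≠ bl) (hfac : g - C (g.eval b) = (X - C b) * (X - C bj) * (X - C bl))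
    {τ : F →+* F} (hτb : τ b = b) (hτ : ∀ c ∈ Z, τ c = c) (hb : b ∈ Z) :
    Moves τ (-((derivative D).eval (g.eval b) * (derivative g).eval b *
      ∏ c ∈ Z.erase b, (b - c))) ↔ Moves τ (PZ1 g D Z b) := by
  rw [PZ1_of_mem14 h12 h13 h23 hfac hb]
  apply moves_mul_sq14
  · apply Finset.prod_ne_zero_iff.mpr
    intro c hc
    exact sub_ne_zero.mpr (Ne.symm (Finset.ne_of_mem_erase (Finset.mem_filter.mp hc).1))
  · rw [map_prod]
    apply Finset.prod_congr rfl
    intro c hc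
    rw [map_sub, hτb, hτ c (Finset.mem_of_mem_erase (Finset.mem_filter.mp hc).1)]

/-- The fibre of a given point. -/
lemma exists_fibre_at14 [IsAlgClosed F] {g : F[X]} (hg : g.Monic) (hdeg : g.natDegree = 3) {α b : F}
    (hb : g.eval b = α) (h : ∀ β, g.eval β = α → (derivative g).eval β ≠ 0) :
    ∃ bj bl, b ≠ bj ∧ b ≠ bl ∧ bj ≠ bl ∧ g - C α = (X - C b) * (X - C bj) * (X - C bl) := by
  obtain ⟨β₁, β₂, β₃, h12, h13, h23, hfac⟩ := exists_three_of_fibre hg hdeg (α := α) h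
  have h1 := congrArg (fun p => p.eval b) hfac
  simp only [eval_sub, eval_mul, eval_X, eval_C, hb, sub_self] at h1
  rw [eq_comm, mul_eq_zero, mul_eq_zero] at h1
  rcases h1 with (h1 | h1) | h1
  · rw [sub_eq_zero.mp h1]
    exact ⟨β₂, β₃, h12, h13, h23, hfac⟩
  · rw [sub_eq_zero.mp h1]
    exact ⟨β₁, β₃, Ne.symm h12, h23, h13, by rw [hfac]; ring⟩
  · rw [sub_eq_zero.mp h1]
    exact ⟨β₁, β₂, Ne.symm h13, Ne.symm h23, h12, by rw [hfac]; ring⟩

end Alg

section Tower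

variable {k F L Ω : Type*} [Field k] [Field F] [Algebra k F] [Algebra.IsAlgebraic k F]
  [IsAlgClosed F] [Field L] [Field Ω]
  [Algebra F[X] L] [IsFractionRing F[X] L] [Algebra L Ω] [Algebra F[X] Ω] [IsScalarTower F[X] L Ω]
  [Algebra k[X] L] [Algebra k[X] Ω] [IsScalarTower k[X] L Ω]
  [IsGalois L Ω] [IsSepClosed Ω] [IsSepClosure L Ω]

variable (hk : ∀ p : k[X], algebraMap k[X] L p = algebraMap F[X] L (p.map (algebraMap k F)))
variable {W : Affine k[X]} {g D E : k[X]}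

/-- **The formula.** Let `s² = D`, `y` a cocycle of the stabiliser of `s`, `z` and `z'` cocycles of
the whole group with divisors `Z` and `Z'`, such that the classes of `y - ι y` and `z` (`ι s = -s`)
and those of `γ y - y` and `z'` (`γ s = s`, and `γ` fixes the roots of `D ∘ g`) agree on the
stabiliser of `s`. Then a root `β` of `D ∘ g` is in `Z'` if and only if `γ` moves the square roots
of `PZ1 g D Z β`. -/
theorem formulaP14 (hG : Good g D) (hsep : (D.comp g).Separable)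
    (hW : IsTwist Ω W (g.map (algebraMap k F)) (E.map (algebraMap k F))) (hE : E ≠ 0)
    {s : Ω} (hs : s ^ 2 = algebraMap F[X] Ω (D.map (algebraMap k F)))
    {γ : Ω ≃ₐ[k[X]] Ω} (hγs : γ s = s)
    (hγ : ∀ β, (D.map (algebraMap k F)).eval ((g.map (algebraMap k F)).eval β) = 0 →
      resF hk γ β = β)
    {ι : Ω ≃ₐ[L] Ω} (hι : ι s = -s)
    {y z z' : (Ω ≃ₐ[L] Ω) → (W.baseChange Ω).Point} {A A' : (W.baseChange Ω).Point}
    (hr : Rel2 W s γ ι y z z' A A') (hloc : IsLocallyConstant y)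
    {Z Z' : Finset F} {b b' : Ω → Ω}
    (hb : IsDesc W (g.map (algebraMap k F)) (E.map (algebraMap k F)) z Z b)
    (hb' : IsDesc W (g.map (algebraMap k F)) (E.map (algebraMap k F)) z' Z' b')
    (hZ : ∀ c ∈ Z, (D.map (algebraMap k F)).eval ((g.map (algebraMap k F)).eval c) = 0)
    {β : F} (hβ : (D.map (algebraMap k F)).eval ((g.map (algebraMap k F)).eval β) = 0) :
    β ∈ Z' ↔ Moves ((resF hk γ : F ≃ₐ[k] F) : F →+* F)
      (PZ1 (g.map (algebraMap k F)) (D.map (algebraMap k F)) Z β) := by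
  have hF := hG.map F
  have h2Ω : (2 : Ω) ≠ 0 := two_ne_zero_Om (F := F) L Ω hF.two
  set gF := g.map (algebraMap k F) with hgF
  set DF := D.map (algebraMap k F) with hDF
  set EF := E.map (algebraMap k F) with hEF
  have hEF0 : EF ≠ 0 := by
    rw [hEF, Polynomial.map_ne_zero_iff (algebraMap k F).injective]
    exact hE
  have hroot : ∀ β, DF.eval (gF.eval β) = 0 →
      (derivative DF).eval (gF.eval β) ≠ 0 ∧ (derivative gF).eval β ≠ 0 := by
    intro β hβ
    have h1 : ((D.comp g).map (algebraMap k F)).Separable := hsep.map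
    rw [Polynomial.map_comp] at h1
    have h2 := h1.eval₂_derivative_ne_zero (RingHom.id F) (x := β) (by
      rw [eval₂_id, eval_comp]; exact hβ)
    rw [eval₂_id, derivative_comp, eval_mul, eval_comp] at h2
    exact ⟨right_ne_zero_of_mul h2, left_ne_zero_of_mul h2⟩
  set τ := resF hk γ with hτdef
  have hfix : ∀ p : k[X], (p.map (algebraMap k F)).map (τ : F →+* F) = p.map (algebraMap k F) :=
    fun p => map_fix τ p
  obtain ⟨α, hα⟩ : ∃ α, gF.eval β = α := ⟨_, rfl⟩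
  have hDα0 : DF.eval α = 0 := by rw [← hα]; exact hβ
  obtain ⟨β₂, β₃, h12, h13, h23, hfac⟩ := exists_fibre_at14 hF.monic hF.deg hα
    (fun β' hβ' => (hroot β' (by rw [hβ']; exact hDα0)).2)
  have hDα : (derivative DF).eval α ≠ 0 := by
    have := (hroot β hβ).1
    rwa [hα] at this
  have hτβ : ∀ β', gF.eval β' = α → τ β' = β' := fun β' hβ' => hγ β' (by rw [hβ']; exact hDα0)
  have hτα : τ α = α := by
    have := eval₂_hom (p := gF) (τ : F →+* F) β
    change eval₂ (τ : F →+* F) (τ β) gF = τ (gF.eval β) at this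
    rw [← hα, ← this, ← eval_map, hfix g, hτβ β hα]
  obtain ⟨φ, hφ, hφv⟩ := exists_adic_aut L (τ : F ≃+* F) α hτα
  have hj : Nonempty (Ω →ₐ[L] SeparableClosure ((placeAt α).adicCompletion L)) :=
    ⟨IsSepClosed.lift⟩
  obtain ⟨j⟩ := hj
  obtain ⟨γ', hγp, U, hU, hγ'⟩ := exists_local_lift hk j τ φ hφ
  have hover : IsOver (K := (placeAt α).adicCompletion L) Valued.v α :=
    ⟨val_X_sub_C L α, fun p hp => val_eq_one L α hp⟩
  have hnear : ∀ β, gF.eval β = α → ∃ θv ∈ RootSet (Ω := (placeAt α).adicCompletion L) gF,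
      Valued.v (θv - algebraMap F[X] _ (C β)) = WithZero.exp (-1 : ℤ) := by
    intro β hβ
    have hβ' : (derivative gF).eval β ≠ 0 := (hroot β (by rw [hβ]; exact hDα0)).2
    have := exists_local_root L hF.monic hF.deg hβ'
    rw [hβ] at this
    obtain ⟨θv, h1, h2, -⟩ := this
    exact ⟨θv, h1, h2⟩
  obtain ⟨S, γK, hK⟩ := keyData_of (Ω := Ω) (wv := Valued.v) h2Ω hF.monic hF.deg hF.der hF.ne hDα0
    hDα h12 h13 h23 hfac hover (fun x hx => exists_sqrt_of_unit L hF.two α x hx) hnear j φ hφv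
    hγp hU hγ' (hfix g) (hfix D) hτα hτβ
  have i1 : IsScalarTower F[X] (KF ((placeAt α).adicCompletion L) j) Ω :=
    IsScalarTower.of_algebraMap_eq fun _ => rfl
  -- comparison of the two lifts
  have hres : resF hk γ' = τ := by
    apply resF_unique
    intro a
    rw [hγp, map_C]
    rfl
  obtain ⟨σ₁, hσ₁⟩ := exists_inner hk (γ := γ⁻¹ * γ') (by
    rw [resF_mul, resF_inv, hres, ← hτdef, inv_mul_cancel])
  have hσ₁' : ∀ x, γ' x = γ (σ₁ x) := by
    intro x
    rw [← hσ₁, AlgEquiv.mul_apply]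
    exact (γ.apply_symm_apply _).symm
  -- a local element acting on `s` as `σ₁`
  obtain ⟨σK, hσK⟩ : ∃ σK : Ω ≃ₐ[KF ((placeAt α).adicCompletion L) j] Ω, σK s = σ₁ s := by
    rcases map_sqrt14 hs σ₁ with h1 | h1
    · exact ⟨1, by rw [h1]; rfl⟩
    · obtain ⟨σ, hσ⟩ := exists_moves _ hK.loc.unif hK.loc.S_sq
      exact ⟨σ, by rw [h1]; exact (hK.act_s L hs σ).2 hσ⟩
  set σ₂ : Ω ≃ₐ[L] Ω := σ₁ * σK.restrictScalars L with hσ₂
  have hσ₂s : σ₂ s = s := by
    have h1 : (σK.restrictScalars L : Ω ≃ₐ[L] Ω) s = σ₁ s := hσK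
    rw [hσ₂, AlgEquiv.mul_apply, h1]
    rcases map_sqrt14 hs σ₁ with h3 | h3
    · rw [h3, h3]
    · rw [h3, map_neg, h3, neg_neg]
  set γ₂ : Ω ≃ₐ[k[X]] Ω := γ * σ₂.restrictScalars k[X] with hγ₂
  have hγ₂1 : ∀ x, γ₂ x = γ (σ₂ x) := fun x => rfl
  have hγ₂2 : ∀ x, γ₂ x = γ' (σK x) := fun x => by
    rw [hσ₁', hγ₂1, hσ₂, AlgEquiv.mul_apply]
    rfl
  have hK₂ := hK.comp14 σK hγ₂2
  obtain ⟨A₂, hr₂⟩ := hr.change_gamma hγs hσ₂s hγ₂1
  have hγ₂s : γ₂ s = s := by rw [hγ₂1, hσ₂s, hγs]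
  by_cases hβZ : β ∈ Z
  · rw [hK₂.key14Z hF.two hW hEF0 (hfix E) hF.monic hF.deg hF.der hDα0 hDα h12 h13 h23 hfac hs hγ₂s
      hι (exists_conj hk γ₂) hr₂ hloc hb hb' (fun c hc => hγ c (hZ c hc)) hβZ]
    subst hα
    exact moves_PZ1_mem14 h12 h13 h23 hfac (hτβ β rfl) (fun c hc => hγ c (hZ c hc)) hβZ
  · rw [hK₂.key14 hF.two hW hEF0 (hfix E) hF.monic hF.deg hF.der h12 h13 h23 hfac hs hγ₂s hι
      (exists_conj hk γ₂) hr₂ hloc hb hb' (fun c hc => hγ c (hZ c hc)) hα hβZ,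
      PZ1_of_notMem14 (sub_C_ne_zero14 hF.deg _) hβZ]

end Tower

section

variable {k F L Ω : Type*} [Field k] [Field F] [Algebra k F] [Algebra.IsAlgebraic k F]
  [IsAlgClosed F] [Field L] [Field Ω]
  [Algebra F[X] L] [IsFractionRing F[X] L] [Algebra L Ω] [Algebra F[X] Ω] [IsScalarTower F[X] L Ω]
  [Algebra k[X] L] [Algebra k[X] Ω] [IsScalarTower k[X] L Ω]
  [IsGalois L Ω] [IsSepClosed Ω] [IsSepClosure L Ω]

attribute [local instance] actW

variable (hk : ∀ p : k[X], algebraMap k[X] L p = algebraMap F[X] L (p.map (algebraMap k F)))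
variable {W : Affine k[X]} {Loc Loc' : ((Ω ≃ₐ[k[X]] Ω) → (W.baseChange Ω).Point) → Prop}
  {g D E : k[X]}

/-- **The formula for the divisors, at all roots of `D ∘ g`.** -/
theorem dvZ_formulaP14 (hG : Good g D) (hGE : Good g E) (hsep : (D.comp g).Separable)
    (hW : IsTwist Ω W (g.map (algebraMap k F)) (E.map (algebraMap k F)))
    {s : Ω} (hs : s ^ 2 = algebraMap F[X] Ω (D.map (algebraMap k F)))
    {γ : Ω ≃ₐ[k[X]] Ω} (hγs : γ s = s)
    (hγ : ∀ β, (D.map (algebraMap k F)).eval ((g.map (algebraMap k F)).eval β) = 0 →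
      resF hk γ β = β)
    {τ : Ω ≃ₐ[k[X]] Ω} (hτ : τ ∈ GL8 k L Ω) (hτs : τ s = -s)
    {y z z' : (Ω ≃ₐ[k[X]] Ω) → (W.baseChange Ω).Point} {a a' : (W.baseChange Ω).Point}
    (hz : Inf.Adm Ω (GL8 k L Ω) Loc z) (hz' : Inf.Adm Ω (GL8 k L Ω) Loc z')
    (hy : Inf.Adm Ω (HS8 k L s) Loc' y) (ha : 2 • a = 0) (ha' : 2 • a' = 0)
    (h1 : ∀ σ ∈ HS8 k L s, y σ - Inf.cj τ y σ = z σ + Inf.cob a σ)
    (h2 : ∀ σ ∈ HS8 k L s, Inf.cj γ y σ - y σ = z' σ + Inf.cob a' σ)
    (hZ : ∀ c ∈ dvZ L W (g.map (algebraMap k F)) (E.map (algebraMap k F)) z,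
      (D.map (algebraMap k F)).eval ((g.map (algebraMap k F)).eval c) = 0)
    {β : F} (hβ : (D.map (algebraMap k F)).eval ((g.map (algebraMap k F)).eval β) = 0) :
    β ∈ dvZ L W (g.map (algebraMap k F)) (E.map (algebraMap k F)) z' ↔
      Moves ((resF hk γ : F ≃ₐ[k] F) : F →+* F)
        (PZ1 (g.map (algebraMap k F)) (D.map (algebraMap k F))
          (dvZ L W (g.map (algebraMap k F)) (E.map (algebraMap k F)) z) β) := by
  have hFE := hGE.map F
  have h2Ω : (2 : Ω) ≠ 0 := two_ne_zero_Om (F := F) L Ω hFE.two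
  obtain ⟨b, hb⟩ := dvZ_spec hFE h2Ω hW hz
  obtain ⟨b', hb'⟩ := dvZ_spec hFE h2Ω hW hz'
  have hιs : (ofGL hτ) s = -s := hτs
  have hconj : ∀ h : Ω ≃ₐ[L] Ω, h s = s → ((ofGL hτ)⁻¹ * h * ofGL hτ) s = s := by
    intro h hh
    apply (ofGL hτ).injective
    rw [← AlgEquiv.mul_apply, ← mul_assoc, mul_inv_cancel_left, AlgEquiv.mul_apply, hιs, map_neg, hh]
  have hr : Rel2 W s γ (ofGL hτ) (fun σ : Ω ≃ₐ[L] Ω => if σ s = s then y (toG σ) else 0)
      (cG L z) (cG L z') a a' := by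
    refine ⟨?_, ?_, hz.cG_two, hz.cG_mul, hz'.cG_two, ha, ha', ?_, ?_⟩
    · intro σ hσ
      simp only [if_pos hσ]
      exact hy.two _ (toG_mem_HS8.mpr hσ)
    · intro σ τ' hσ hτ'
      have h3 : (σ * τ') s = s := by rw [AlgEquiv.mul_apply, hτ', hσ]
      simp only [if_pos hσ, if_pos hτ', if_pos h3]
      rw [toG_mul, hy.co _ (toG_mem_HS8.mpr hσ) _ (toG_mem_HS8.mpr hτ')]
      rfl
    · intro h hh
      have h3 := hconj h hh
      simp only [if_pos hh, if_pos h3]
      have h4 := h1 _ (toG_mem_HS8.mpr hh)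
      have h5 : τ⁻¹ * toG h * τ = toG (k := k) ((ofGL hτ)⁻¹ * h * ofGL hτ) := by
        rw [toG_mul, toG_mul, toG_inv, toG_ofGL]
      rw [Inf.cj, h5] at h4
      exact h4
    · intro σ' σ hσσ hσ
      have hσ' : σ' s = s := by
        apply γ.injective
        rw [hσσ, hγs, hσ]
      simp only [if_pos hσ, if_pos hσ']
      have h4 := h2 _ (toG_mem_HS8.mpr hσ)
      have h5 : γ⁻¹ * toG σ * γ = toG (k := k) σ' := by
        ext x
        rw [AlgEquiv.mul_apply, AlgEquiv.mul_apply]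
        apply γ.injective
        rw [← AlgEquiv.mul_apply γ γ⁻¹, mul_inv_cancel, AlgEquiv.one_apply]
        exact (hσσ x).symm
      rw [Inf.cj, h5, sub_eq_iff_eq_add'] at h4
      rw [add_assoc]
      exact h4
  exact formulaP14 hk hG hsep hW hGE.ne hs hγs hγ hιs hr (loc_ext14 hy) hb hb' hZ hβ

end

end Pool.Agent.Lib.MP_89bcae_ag
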