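import Mathlib
import Pool.Agent.Lib.MP_89bcae_ag.RamB7
import Pool.Agent.Lib.MP_89bcae_ag.DefsB7

/-!
# The extension generated by the `ℓ`-th roots of unity is unramified outside of `ℓ`
-/

open Polynomial WithZero IsDedekindDomain

open scoped Classical Pointwise

set_option linter.unusedSimpArgs false
set_option linter.unusedVariables false
set_option linter.unusedSectionVars false
set_option linter.style.haveILetI false

namespace Pool.Agent.Lib.MP_89bcae_ag

universe u

/-- An unramified discrete valuation ring in the field generated by the roots of unity. -/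
theorem exists_unramified8 {R₀ k : Type*} {K : Type u} [CommRing R₀] [IsDomain R₀]
    [IsDiscreteValuationRing R₀] [Field k]
    [Algebra R₀ k] [IsFractionRing R₀ k] [Field K] [Algebra k K] [Algebra R₀ K]
    [IsScalarTower R₀ k K] [FiniteDimensional k K] [IsGalois k K] {ℓ : ℕ}
    (hℓ : (ℓ : IsLocalRing.ResidueField R₀) ≠ 0) {ζ : K} (hζ : IsPrimitiveRoot ζ ℓ)
    (hgen : ∀ σ : K ≃ₐ[k] K, σ ζ = ζ → σ = 1) :
    ∃ (R : Type u) (_ : CommRing R) (_ : IsDomain R) (_ : IsDiscreteValuationRing R)
      (_ : Algebra R₀ R) (_ : Algebra R K) (_ : IsScalarTower R₀ R K) (_ : IsFractionRing R K),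
      ∀ (r : R₀) (n : ℕ), algebraMap R₀ R r ∈ IsLocalRing.maximalIdeal R ^ n ↔
        r ∈ IsLocalRing.maximalIdeal R₀ ^ n := by
  have hℓ0 : ℓ ≠ 0 := by
    rintro rfl
    exact hℓ Nat.cast_zero
  have : NeZero ℓ := ⟨hℓ0⟩
  -- the integral closure
  let B := integralClosure R₀ K
  haveI : IsDedekindDomain B := integralClosure.isDedekindDomain R₀ k K
  haveI : Module.Finite R₀ B := IsIntegralClosure.finite R₀ k K B
  haveI : IsFractionRing B K := integralClosure.isFractionRing_of_finite_extension k K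
  haveI : SMulCommClass (K ≃ₐ[k] K) R₀ K := ⟨fun σ r x => by
    rw [AlgEquiv.smul_def, AlgEquiv.smul_def, Algebra.smul_def, Algebra.smul_def, map_mul,
      IsScalarTower.algebraMap_apply R₀ k K, AlgEquiv.commutes]⟩
  haveI : IsGaloisGroup (K ≃ₐ[k] K) R₀ B := IsGaloisGroup.of_isFractionRing _ _ _ k K
  have hinjK : Function.Injective (algebraMap R₀ K) := by
    rw [IsScalarTower.algebraMap_eq R₀ k K]
    exact (algebraMap k K).injective.comp (IsFractionRing.injective R₀ k)
  have hinjB : Function.Injective (algebraMap B K) := Subtype.val_injective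
  haveI : FaithfulSMul R₀ B := by
    rw [faithfulSMul_iff_algebraMap_injective]
    intro x y hxy
    exact hinjK (congrArg (algebraMap B K) hxy)
  haveI : Module.IsTorsionFree R₀ B := inferInstance
  haveI : Module.Flat R₀ B := inferInstance
  let v : HeightOneSpectrum R₀ := IsDiscreteValuationRing.maximalIdeal R₀
  have hvmax : v.asIdeal.IsMaximal := v.isMaximal
  obtain ⟨P, hPmax, hPv⟩ := Ideal.exists_maximal_ideal_liesOver_of_isIntegral (S := B) v.asIdeal
  have hP0 : P ≠ ⊥ := Ideal.ne_bot_of_liesOver_of_ne_bot v.ne_bot P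
  let w : HeightOneSpectrum B := ⟨P, hPmax.isPrime, hP0⟩
  have hwv : w.asIdeal.LiesOver v.asIdeal := hPv
  have hmP : ∀ r : R₀, algebraMap R₀ B r ∈ P ↔ r ∈ IsLocalRing.maximalIdeal R₀ := by
    intro r
    have h1 : r ∈ Ideal.comap (algebraMap R₀ B) P ↔ r ∈ v.asIdeal := by
      rw [← Ideal.under_def, ← hPv.over]
    exact h1
  -- the inertia group is trivial
  letI : Field (B ⧸ P) := Ideal.Quotient.field P
  have hζi : IsIntegral R₀ ζ := by
    refine ⟨X ^ ℓ - 1, monic_X_pow_sub_C 1 hℓ0, ?_⟩
    rw [eval₂_sub, eval₂_pow, eval₂_X, hζ.pow_eq_one, eval₂_one, sub_self]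
  let ζB : B := ⟨ζ, hζi⟩
  have hζB : ζB ^ ℓ = 1 := Subtype.ext hζ.pow_eq_one
  have hℓP : Ideal.Quotient.mk P (ℓ : B) ≠ 0 := by
    rw [Ne, Ideal.Quotient.eq_zero_iff_mem]
    intro h1
    apply hℓ
    have h2 : algebraMap R₀ B (ℓ : R₀) ∈ P := by rwa [map_natCast]
    rw [hmP] at h2
    have h3 := (IsLocalRing.residue_eq_zero_iff (ℓ : R₀)).mpr h2
    rwa [map_natCast] at h3
  have hζP : ∀ x y : B, x ^ ℓ = 1 → y ^ ℓ = 1 → x - y ∈ P → x = y := by
    intro x y hx hy hxy
    by_contra hne
    -- `x` and `y` are distinct roots of `X ^ ℓ - 1`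
    have h1 : ((X ^ ℓ - C (1 : B)).map (Ideal.Quotient.mk P)).Separable := by
      rw [Polynomial.map_sub, Polynomial.map_pow, map_X, map_C, map_one]
      apply separable_X_pow_sub_C _ _ one_ne_zero
      rw [map_natCast] at hℓP
      exact hℓP
    have hroot : ∀ z : B, z ^ ℓ = 1 → (X ^ ℓ - C (1 : B)).IsRoot z := fun z hz => by
      rw [IsRoot.def, eval_sub, eval_pow, eval_X, eval_C, hz, sub_self]
    obtain ⟨H, hH⟩ := dvd_iff_isRoot.mpr (hroot x hx)
    have h2 := hroot y hy
    rw [hH, IsRoot.def, eval_mul, eval_sub, eval_X, eval_C] at h2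
    have h3 : H.IsRoot y := (mul_eq_zero.mp h2).resolve_left fun h => hne (sub_eq_zero.mp h).symm
    obtain ⟨H', hH'⟩ := dvd_iff_isRoot.mpr h3
    have hxy' : Ideal.Quotient.mk P x = Ideal.Quotient.mk P y := by
      rw [← sub_eq_zero, ← map_sub, Ideal.Quotient.eq_zero_iff_mem]
      exact hxy
    rw [hH, hH', Polynomial.map_mul, Polynomial.map_mul, Polynomial.map_sub, Polynomial.map_sub,
      map_X, map_C, map_C, hxy', ← mul_assoc] at h1
    have h4 : (X - C (Ideal.Quotient.mk P y)) * (X - C (Ideal.Quotient.mk P y)) ∣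
        (X - C (Ideal.Quotient.mk P y)) * (X - C (Ideal.Quotient.mk P y)) *
          H'.map (Ideal.Quotient.mk P) := Dvd.intro _ rfl
    exact not_isUnit_X_sub_C _ (h1.squarefree _ h4)
  have hinertia : ∀ σ ∈ P.inertia (K ≃ₐ[k] K), σ = 1 := by
    intro σ hσ
    apply hgen
    have h1 : σ • ζB - ζB ∈ P := hσ ζB
    have h2 : (σ • ζB) ^ ℓ = 1 := by
      rw [← smul_pow', hζB, smul_one]
    exact congrArg Subtype.val (hζP _ _ h2 hζB h1)
  have he : v.asIdeal.ramificationIdx' w.asIdeal ≤ 1 := by
    have h1 : v.asIdeal.ramificationIdx' w.asIdeal ≤ Nat.card (P.inertia (K ≃ₐ[k] K)) := by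
      rw [Ideal.ramificationIdx'_eq_ramificationIdx v.asIdeal w.asIdeal v.ne_bot]
      exact ramificationIdx_le_card_inertia7 v.asIdeal P
    refine h1.trans ?_
    have : Subsingleton (P.inertia (K ≃ₐ[k] K)) :=
      ⟨fun σ τ => Subtype.ext ((hinertia σ σ.2).trans (hinertia τ τ.2).symm)⟩
    exact Finite.card_le_one_iff_subsingleton.mpr this
  set e := v.asIdeal.ramificationIdx' w.asIdeal with hedef
  have hWk : ∀ r : R₀, w.intValuation (algebraMap R₀ B r) = v.intValuation r ^ e := by
    intro r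
    have h1 := HeightOneSpectrum.valuation_liesOver K v w (algebraMap R₀ k r)
    rw [← IsScalarTower.algebraMap_apply] at h1
    have h2 : w.intValuation (algebraMap R₀ B r) = w.valuation K (algebraMap R₀ K r) := by
      rw [← w.valuation_of_algebraMap (K := K)]
      rfl
    rw [h2, ← h1]
    congr 1
    exact HeightOneSpectrum.valuation_of_algebraMap (K := k) v r
  have he1 : e = 1 := by
    rcases Nat.eq_zero_or_pos e with h0 | h0
    · exfalso
      obtain ⟨ϖ, hϖ⟩ := v.intValuation_exists_uniformizer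
      have h1 : ϖ ∈ IsLocalRing.maximalIdeal R₀ := by
        have h2 : v.intValuation ϖ ≤ exp (-((1 : ℕ) : ℤ)) := by rw [hϖ]; simp
        have h3 := (v.intValuation_le_pow_iff_mem ϖ 1).mp h2
        rw [pow_one] at h3
        exact h3
      have h2 : w.intValuation (algebraMap R₀ B ϖ) < 1 :=
        (w.intValuation_lt_one_iff_mem _).mpr ((hmP ϖ).mpr h1)
      rw [hWk, h0, pow_zero] at h2
      exact lt_irrefl _ h2
    · omega
  have hWk1 : ∀ r : R₀, w.intValuation (algebraMap R₀ B r) = v.intValuation r := fun r => by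
    rw [hWk, he1, pow_one]
  -- the localisation
  haveI hPp : P.IsPrime := hPmax.isPrime
  let R := Localization.AtPrime P
  have hle : P.primeCompl ≤ nonZeroDivisors B := Ideal.primeCompl_le_nonZeroDivisors _
  let φ : R →+* K := IsLocalization.lift (M := P.primeCompl) (g := algebraMap B K) (by
      intro y
      rw [isUnit_iff_ne_zero]
      exact (map_ne_zero_iff _ hinjB).mpr (nonZeroDivisors.ne_zero (hle y.2)))
  letI : Algebra R K := φ.toAlgebra
  have hst : IsScalarTower B R K := IsScalarTower.of_algebraMap_eq fun r =>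
    (IsLocalization.lift_eq _ r).symm
  haveI : IsScalarTower R₀ B R := inferInstance
  have hst2 : IsScalarTower R₀ R K := IsScalarTower.of_algebraMap_eq fun r => by
    rw [IsScalarTower.algebraMap_apply R₀ B R, ← IsScalarTower.algebraMap_apply B R K]
    rfl
  have hDVR : IsDiscreteValuationRing R :=
    IsLocalization.AtPrime.isDiscreteValuationRing_of_dedekind_domain B hP0 _
  have hfr : IsFractionRing R K :=
    IsFractionRing.isFractionRing_of_isDomain_of_isLocalization P.primeCompl R K
  have hmax : IsLocalRing.maximalIdeal R = P.map (algebraMap B R) :=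
    (IsLocalization.AtPrime.map_eq_maximalIdeal P R).symm
  have hpow : ∀ (b : B) (n : ℕ), algebraMap B R b ∈ IsLocalRing.maximalIdeal R ^ n ↔ b ∈ P ^ n := by
    intro b n
    rw [hmax, ← Ideal.map_pow]
    constructor
    · intro h1
      obtain ⟨⟨⟨a, ha⟩, s⟩, hs⟩ := (IsLocalization.mem_map_algebraMap_iff P.primeCompl R).mp h1
      have hinjR : Function.Injective (algebraMap B R) := IsLocalization.injective R hle
      have h2 : b * s = a := by
        apply hinjR
        rw [map_mul]
        exact hs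
      have h3 : w.intValuation a ≤ exp (-(n : ℤ)) := (w.intValuation_le_pow_iff_mem a n).mpr ha
      have h4 : w.intValuation (s : B) = 1 := by
        rw [w.intValuation_eq_one_iff_mem_primeCompl]
        exact s.2
      rw [← h2, map_mul, h4, mul_one] at h3
      exact (w.intValuation_le_pow_iff_mem b n).mp h3
    · exact fun h1 => Ideal.mem_map_of_mem _ h1
  refine ⟨R, inferInstance, inferInstance, hDVR, inferInstance, inferInstance, hst2, hfr,
    fun r n => ?_⟩
  rw [IsScalarTower.algebraMap_apply R₀ B R, hpow]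
  have h2 := w.intValuation_le_pow_iff_mem (algebraMap R₀ B r) n
  have h3 := v.intValuation_le_pow_iff_mem r n
  rw [hWk1, h3] at h2
  exact h2.symm

/-- Simple collisions are preserved by unramified extensions. -/
theorem isCollision_unramified8 {R₀ R : Type*} [CommRing R₀] [IsLocalRing R₀] [CommRing R]
    [IsLocalRing R] [Algebra R₀ R]
    (h : ∀ (r : R₀) (n : ℕ), algebraMap R₀ R r ∈ IsLocalRing.maximalIdeal R ^ n ↔
        r ∈ IsLocalRing.maximalIdeal R₀ ^ n) {g D : R₀[X]} (hcol : IsCollision7 g D) :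
    IsCollision7 (g.map (algebraMap R₀ R)) (D.map (algebraMap R₀ R)) := by
  have h1 : ∀ r : R₀, r ∈ IsLocalRing.maximalIdeal R₀ →
      ((IsLocalRing.residue R).comp (algebraMap R₀ R)) r = 0 := by
    intro r hr
    have h2 := (h r 1).mpr (by rwa [pow_one])
    rw [pow_one] at h2
    exact (IsLocalRing.residue_eq_zero_iff _).mpr h2
  let ψ : IsLocalRing.ResidueField R₀ →+* IsLocalRing.ResidueField R :=
    Ideal.Quotient.lift (IsLocalRing.maximalIdeal R₀) _ h1
  have hψ : ψ.comp (IsLocalRing.residue R₀) = (IsLocalRing.residue R).comp (algebraMap R₀ R) :=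
    RingHom.ext fun r => rfl
  have hmap : ∀ p : R₀[X], (p.map (algebraMap R₀ R)).map (IsLocalRing.residue R) =
      (p.map (IsLocalRing.residue R₀)).map ψ := fun p => by
    rw [Polynomial.map_map, Polynomial.map_map, hψ]
  obtain ⟨a, u, hu1, hu2, hu3⟩ := hcol
  have ha : IsLocalRing.residue R (algebraMap R₀ R a) = ψ (IsLocalRing.residue R₀ a) := rfl
  refine ⟨algebraMap R₀ R a, u.map ψ, ?_, ?_, ?_⟩
  · rw [hmap, hu1, ha, Polynomial.map_mul, Polynomial.map_pow, Polynomial.map_sub, map_X, map_C]
  · have h3 := hu2.map (f := ψ)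
    rw [Polynomial.map_comp, Polynomial.map_mul, Polynomial.map_sub, map_X, map_C] at h3
    rw [hmap, ha]
    exact h3
  · rw [eval_map, eval₂_at_apply, h]
    exact hu3

end Pool.Agent.Lib.MP_89bcae_ag
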