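import Mathlib
import Pool.Agent.Lib.MP_89bcae_ag.UnrS8
import Pool.Agent.Lib.MP_89bcae_ag.LocZ8

/-!
# Discrete valuation rings over a prime number in the field of the `ℓ`-th roots of unity
-/

open Polynomial

open scoped Classical

set_option linter.unusedSimpArgs false
set_option linter.unusedVariables false
set_option linter.unusedSectionVars false
set_option linter.style.haveILetI false

namespace Pool.Agent.Lib.MP_89bcae_ag

/-- The localisation of the integers at a prime number. -/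
theorem exists_dvrZ8 {p : ℕ} (hp : p.Prime) :
    ∃ (R : Type) (_ : CommRing R) (_ : IsDomain R) (_ : IsDiscreteValuationRing R)
      (_ : Algebra R ℚ) (_ : IsFractionRing R ℚ),
      ∀ (z : ℤ) (n : ℕ), (z : R) ∈ IsLocalRing.maximalIdeal R ^ n ↔ (p : ℤ) ^ n ∣ z := by
  have hpZ : Prime (p : ℤ) := Nat.prime_iff_prime_int.mp hp
  have hP : (Ideal.span {(p : ℤ)}).IsPrime :=
    (Ideal.span_singleton_prime hpZ.ne_zero).mpr hpZ
  have hP0 : Ideal.span {(p : ℤ)} ≠ ⊥ := by
    rw [Ne, Ideal.span_singleton_eq_bot]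
    exact hpZ.ne_zero
  let R := Localization.AtPrime (Ideal.span {(p : ℤ)})
  have hDVR : IsDiscreteValuationRing R :=
    IsLocalization.AtPrime.isDiscreteValuationRing_of_dedekind_domain ℤ hP0 _
  letI hA : Algebra R ℚ :=
    IsLocalization.localizationAlgebraOfSubmonoidLe _ ℚ
      (Ideal.span {(p : ℤ)}).primeCompl (nonZeroDivisors ℤ)
      (Ideal.span {(p : ℤ)}).primeCompl_le_nonZeroDivisors
  have hst := IsLocalization.localization_isScalarTower_of_submonoid_le
    R ℚ
    (Ideal.span {(p : ℤ)}).primeCompl (nonZeroDivisors ℤ)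
    (Ideal.span {(p : ℤ)}).primeCompl_le_nonZeroDivisors
  have hfr : IsFractionRing R ℚ :=
    @IsFractionRing.isFractionRing_of_isDomain_of_isLocalization ℤ _
      (Ideal.span {(p : ℤ)}).primeCompl _ R ℚ _ _ _ _ _
      hst _ _
  have hmax : IsLocalRing.maximalIdeal R = Ideal.span {(algebraMap ℤ R p)} := by
    rw [← IsLocalization.AtPrime.map_eq_maximalIdeal (Ideal.span {(p : ℤ)}) R, Ideal.map_span,
      Set.image_singleton]
  refine ⟨R, inferInstance, inferInstance, hDVR, inferInstance, hfr, fun z n => ?_⟩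
  have hz : (z : R) = algebraMap ℤ R z := by simp
  rw [hz, hmax, Ideal.span_singleton_pow, Ideal.mem_span_singleton]
  constructor
  · rintro ⟨q, hq⟩
    obtain ⟨⟨x, s⟩, hxs⟩ := IsLocalization.surj (Ideal.span {(p : ℤ)}).primeCompl q
    have hinj : Function.Injective (algebraMap ℤ R) :=
      IsLocalization.injective R (Ideal.primeCompl_le_nonZeroDivisors (Ideal.span {(p : ℤ)}))
    have h1 : z * s = (p : ℤ) ^ n * x := by
      apply hinj
      rw [map_mul, map_mul, map_pow, hq, ← hxs]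
      ring
    have h3 : IsCoprime ((p : ℤ) ^ n) (s : ℤ) := by
      apply IsCoprime.pow_left
      rw [Prime.coprime_iff_not_dvd (Nat.prime_iff_prime_int.mp hp)]
      intro h4
      exact s.2 (Ideal.mem_span_singleton.mpr h4)
    exact h3.dvd_of_dvd_mul_right ⟨x, h1⟩
  · rintro ⟨q, hq⟩
    exact ⟨algebraMap ℤ R q, by rw [hq, map_mul, map_pow]⟩

/-- Discrete valuation rings in the field of the `ℓ`-th roots of unity. -/
theorem exists_dvrK8 {ℓ p : ℕ} (hℓ : ℓ.Prime) (hp : p.Prime) (hpℓ : p ≠ ℓ) (K : Type) [Field K]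
    [Algebra ℚ K] [FiniteDimensional ℚ K] [IsGalois ℚ K] {ζ : K} (hζ : IsPrimitiveRoot ζ ℓ)
    (hgen : ∀ σ : K ≃ₐ[ℚ] K, σ ζ = ζ → σ = 1) :
    ∃ (R : Type) (_ : CommRing R) (_ : IsDomain R) (_ : IsDiscreteValuationRing R)
      (_ : Algebra R K) (_ : IsFractionRing R K),
      ∀ (z : ℤ) (n : ℕ), (z : R) ∈ IsLocalRing.maximalIdeal R ^ n ↔ (p : ℤ) ^ n ∣ z := by
  obtain ⟨R₀, i1, i2, i3, i4, i5, h⟩ := exists_dvrZ8 hp
  letI : Algebra R₀ K := ((algebraMap ℚ K).comp (algebraMap R₀ ℚ)).toAlgebra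
  haveI : IsScalarTower R₀ ℚ K := IsScalarTower.of_algebraMap_eq fun r => rfl
  have hℓ0 : (ℓ : IsLocalRing.ResidueField R₀) ≠ 0 := by
    intro h0
    have h1 : IsLocalRing.residue R₀ ((ℓ : ℤ) : R₀) = 0 := by
      rw [Int.cast_natCast, map_natCast]
      exact h0
    rw [IsLocalRing.residue_eq_zero_iff] at h1
    have h2 := (h ℓ 1).mp (by rwa [pow_one])
    rw [pow_one, Int.natCast_dvd_natCast] at h2
    exact hpℓ ((Nat.prime_dvd_prime_iff_eq hp hℓ).mp h2)
  obtain ⟨R, j1, j2, j3, j4, j5, j6, j7, h'⟩ := exists_unramified8 (R₀ := R₀) (k := ℚ) (K := K) hℓ0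
    hζ hgen
  refine ⟨R, j1, j2, j3, j5, j7, fun z n => ?_⟩
  have h1 : (z : R) = algebraMap R₀ R (z : R₀) := by rw [map_intCast]
  rw [h1, h', h]

/-- Simple collisions over a discrete valuation ring over `p`. -/
theorem isCollision7_of_Z8 {p : ℕ} (hp : p.Prime) {R : Type*} [CommRing R] [IsDomain R]
    [IsLocalRing R]
    (h : ∀ (z : ℤ) (n : ℕ), (z : R) ∈ IsLocalRing.maximalIdeal R ^ n ↔ (p : ℤ) ^ n ∣ z)
    {g D : ℤ[X]} (hcol : IsCollisionZ8 p g D) :
    IsCollision7 (g.map (Int.castRingHom R)) (D.map (Int.castRingHom R)) := by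
  obtain ⟨a, u, hD, hsep, ha⟩ := hcol
  have hp0 : ((p : ℕ) : IsLocalRing.ResidueField R) = 0 := by
    have h1 : IsLocalRing.residue R ((p : ℤ) : R) = 0 := by
      rw [IsLocalRing.residue_eq_zero_iff]
      have h2 := (h p 1).mpr (by rw [pow_one])
      rwa [pow_one] at h2
    simpa using h1
  have : CharP (IsLocalRing.ResidueField R) p := (CharP.charP_iff_prime_eq_zero hp).mpr hp0
  let φ : ZMod p →+* IsLocalRing.ResidueField R := ZMod.castHom (dvd_refl p) _
  have hφ : (IsLocalRing.residue R).comp (Int.castRingHom R) = φ.comp (Int.castRingHom (ZMod p)) :=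
    RingHom.ext_int _ _
  have hφa : IsLocalRing.residue R (Int.castRingHom R a) = φ (a : ZMod p) := RingHom.congr_fun hφ a
  refine ⟨Int.castRingHom R a, u.map φ, ?_, ?_, ?_⟩
  · rw [Polynomial.map_map, hφ, ← Polynomial.map_map, hD, hφa]
    simp
  · rw [Polynomial.map_map, hφ, ← Polynomial.map_map, hφa]
    have h1 := hsep.map (f := φ)
    rw [Polynomial.map_comp, Polynomial.map_mul, Polynomial.map_sub, map_X, map_C] at h1
    exact h1
  · rw [eval_map, eval₂_at_apply]
    show ((D.eval a : ℤ) : R) ∉ _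
    rw [h]
    exact ha

/-- Polynomials over a discrete valuation ring over `p`: separable reduction. -/
theorem residue_map8 {p : ℕ} (hp : p.Prime) {R : Type*} [CommRing R] [IsDomain R]
    [IsLocalRing R]
    (h : ∀ (z : ℤ) (n : ℕ), (z : R) ∈ IsLocalRing.maximalIdeal R ^ n ↔ (p : ℤ) ^ n ∣ z) :
    ∃ φ : ZMod p →+* IsLocalRing.ResidueField R, ∀ f : ℤ[X],
      (f.map (Int.castRingHom R)).map (IsLocalRing.residue R) =
        (f.map (Int.castRingHom (ZMod p))).map φ := by
  have hp0 : ((p : ℕ) : IsLocalRing.ResidueField R) = 0 := by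
    have h1 : IsLocalRing.residue R ((p : ℤ) : R) = 0 := by
      rw [IsLocalRing.residue_eq_zero_iff]
      have h2 := (h p 1).mpr (by rw [pow_one])
      rwa [pow_one] at h2
    simpa using h1
  have : CharP (IsLocalRing.ResidueField R) p := (CharP.charP_iff_prime_eq_zero hp).mpr hp0
  refine ⟨ZMod.castHom (dvd_refl p) _, fun f => ?_⟩
  rw [Polynomial.map_map, Polynomial.map_map]
  congr 1
  exact RingHom.ext_int _ _

end Pool.Agent.Lib.MP_89bcae_ag
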