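import Mathlib
import Pool.Agent.Lib.MP_89bcae_ag.RamB7

/-!
# A place of a Galois extension with its inertia group
-/

open Polynomial IsDedekindDomain WithZero

open scoped Classical Pointwise

namespace Pool.Agent.Lib.MP_89bcae_ag

set_option linter.style.haveILetI false
set_option linter.unusedSectionVars false

lemma finite_quotient7 {R A : Type*} [CommRing R] [CommRing A] [Algebra R A] [Module.Finite R A]
    (p : Ideal R) (P : Ideal A) [P.LiesOver p] [Finite (R ⧸ p)] : Finite (A ⧸ P) := by
  haveI : Module.Finite (R ⧸ p) (A ⧸ P) := inferInstance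
  exact Module.finite_of_finite (R ⧸ p)

lemma ramificationIdx_dvd_log7 {A B K L : Type*} [CommRing A] [IsDedekindDomain A] [CommRing B]
    [IsDedekindDomain B] [Algebra A B] [Module.IsTorsionFree A B] [Field K] [Algebra A K]
    [IsFractionRing A K] [Field L]
    [Algebra B L] [IsFractionRing B L] [Algebra K L] [Algebra A L] [IsScalarTower A K L]
    [IsScalarTower A B L] (v : HeightOneSpectrum A) (w : HeightOneSpectrum B)
    [w.asIdeal.LiesOver v.asIdeal] (x : K) {c : ℕ} (hc : v.asIdeal.ramificationIdx' w.asIdeal = c) :
    (c : ℤ) ∣ log (w.valuation L (algebraMap K L x)) := by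
  have h3 := HeightOneSpectrum.valuation_liesOver L v w x
  rw [← h3, log_pow, hc]
  exact ⟨_, nsmul_eq_mul _ _⟩

/-- A place of a finite Galois extension, its ramification index and its inertia group. -/
theorem exists_place7 (R k K : Type*) [CommRing R] [IsDomain R] [IsDiscreteValuationRing R]
    [Finite (IsLocalRing.ResidueField R)] [Field k]
    [Algebra R k] [IsFractionRing R k] [Field K] [Algebra k K] [Algebra R K] [IsScalarTower R k K]
    [FiniteDimensional k K] [IsGalois k K] :
    ∃ (W : Valuation K ℤᵐ⁰) (e : ℕ) (I : Subgroup (K ≃ₐ[k] K)), 0 < e ∧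
      (∀ r : R, W (algebraMap R K r) =
        (IsDiscreteValuationRing.maximalIdeal R).intValuation r ^ e) ∧
      (∀ σ ∈ I, ∀ x : K, W x ≤ 1 → W (σ x - x) < 1) ∧ e ≤ Nat.card I ∧
      ∀ y : K, y ≠ 0 → (∀ σ ∈ I, σ y = y) → (Nat.card I : ℤ) ∣ log (W y) := by
  -- the integral closure
  set B := integralClosure R K with hB
  haveI : IsDedekindDomain B := integralClosure.isDedekindDomain R k K
  haveI : Module.Finite R B := IsIntegralClosure.finite R k K B
  haveI : IsFractionRing B K := integralClosure.isFractionRing_of_finite_extension k K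
  haveI : SMulCommClass (K ≃ₐ[k] K) R K := ⟨fun σ r x => by
    rw [AlgEquiv.smul_def, AlgEquiv.smul_def, Algebra.smul_def, Algebra.smul_def, map_mul,
      IsScalarTower.algebraMap_apply R k K, AlgEquiv.commutes]⟩
  haveI : IsGaloisGroup (K ≃ₐ[k] K) R B := IsGaloisGroup.of_isFractionRing _ _ _ k K
  have hinjK : Function.Injective (algebraMap R K) := by
    rw [IsScalarTower.algebraMap_eq R k K]
    exact (algebraMap k K).injective.comp (IsFractionRing.injective R k)
  have hinjB : Function.Injective (algebraMap B K) := Subtype.val_injective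
  haveI : FaithfulSMul R B := by
    rw [faithfulSMul_iff_algebraMap_injective]
    intro x y hxy
    exact hinjK (congrArg (algebraMap B K) hxy)
  haveI : Module.IsTorsionFree R B := inferInstance
  haveI : Module.Flat R B := inferInstance
  let v : HeightOneSpectrum R := IsDiscreteValuationRing.maximalIdeal R
  have hvmax : v.asIdeal.IsMaximal := v.isMaximal
  obtain ⟨P, hPmax, hPv⟩ := Ideal.exists_maximal_ideal_liesOver_of_isIntegral (S := B) v.asIdeal
  have hP0 : P ≠ ⊥ := Ideal.ne_bot_of_liesOver_of_ne_bot v.ne_bot P
  let w : HeightOneSpectrum B := ⟨P, hPmax.isPrime, hP0⟩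
  have hwv : w.asIdeal.LiesOver v.asIdeal := hPv
  set e := v.asIdeal.ramificationIdx' w.asIdeal with hedef
  -- the ramification index
  have he : e ≤ Nat.card (P.inertia (K ≃ₐ[k] K)) := by
    rw [hedef, Ideal.ramificationIdx'_eq_ramificationIdx v.asIdeal w.asIdeal v.ne_bot]
    exact ramificationIdx_le_card_inertia7 v.asIdeal P
  have he0 : e ≠ 0 := Ideal.IsDedekindDomain.ramificationIdx'_ne_zero_of_liesOver w.asIdeal v.ne_bot
  set W := w.valuation K with hW
  have hWk : ∀ r : R, w.valuation K (algebraMap R K r) = v.intValuation r ^ e := by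
    intro r
    have h1 := HeightOneSpectrum.valuation_liesOver K v w (algebraMap R k r)
    rw [← IsScalarTower.algebraMap_apply] at h1
    rw [← h1]
    congr 1
    exact HeightOneSpectrum.valuation_of_algebraMap (K := k) v r
  set I := P.inertia (K ≃ₐ[k] K) with hI
  refine ⟨W, e, I, Nat.pos_of_ne_zero he0, hWk, ?_, he, ?_⟩
  · -- the inertia group
    intro σ hσ x hx
    obtain ⟨n, ⟨d, hd⟩, hnd⟩ := HeightOneSpectrum.exists_primeCompl_mul_eq_of_integer w x hx
    have hd' : W (algebraMap B K d) = 1 := HeightOneSpectrum.valuation_eq_one_iff_notMem w |>.mpr hd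
    have hσB : ∀ b : B, algebraMap B K (σ • b) = σ (algebraMap B K b) := fun b => rfl
    have hlt : ∀ b : B, W (σ (algebraMap B K b) - algebraMap B K b) < 1 := by
      intro b
      rw [← hσB, ← map_sub]
      exact (w.valuation_lt_one_iff_mem _).mpr (hσ b)
    have hσd : W (σ (algebraMap B K d)) = 1 := by
      have h1 : σ (algebraMap B K d) =
          algebraMap B K d + (σ (algebraMap B K d) - algebraMap B K d) := by ring
      rw [h1, Valuation.map_add_eq_of_lt_left _ (by rw [hd']; exact hlt d), hd']
    have h1 : (σ x - x) * (σ (algebraMap B K d) * algebraMap B K d) =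
        (σ (algebraMap B K n) - algebraMap B K n) * algebraMap B K d -
          algebraMap B K n * (σ (algebraMap B K d) - algebraMap B K d) := by
      have h2 : σ x * σ (algebraMap B K d) = σ (algebraMap B K n) := by
        rw [← map_mul]
        exact congrArg σ hnd
      have h3 : x * algebraMap B K d = algebraMap B K n := hnd
      linear_combination (algebraMap B K d) * h2 - σ (algebraMap B K d) * h3
    have h2 := congrArg W h1
    rw [map_mul, map_mul, hσd, hd', mul_one, mul_one] at h2
    rw [h2]
    refine lt_of_le_of_lt (W.map_sub _ _) (max_lt ?_ ?_)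
    · rw [map_mul, hd', mul_one]
      exact hlt n
    · rw [map_mul]
      exact lt_of_le_of_lt (mul_le_of_le_one_left' (w.valuation_le_one n)) (hlt d)
  · -- the fixed field
    intro y hy0 hy
    let E := FixedPoints.intermediateField (F := k) (E := K) I
    have hyE : y ∈ E := fun σ => hy σ σ.2
    haveI : IsGaloisGroup I E K := IsGaloisGroup.subgroup (K ≃ₐ[k] K) k K I
    set A' := integralClosure R E with hA'
    haveI : IsDedekindDomain A' := integralClosure.isDedekindDomain R k E
    haveI : Module.Finite R A' := IsIntegralClosure.finite R k E A'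
    haveI : IsFractionRing A' E := integralClosure.isFractionRing_of_finite_extension k E
    haveI hsRE : IsScalarTower R E K := IsScalarTower.of_algebraMap_eq fun r => by
      rw [IsScalarTower.algebraMap_apply R k K, IsScalarTower.algebraMap_apply R k E]
      rfl
    letI algAB : Algebra A' B := RingHom.toAlgebra
      { toFun := fun a => ⟨algebraMap E K a, a.2.map (IsScalarTower.toAlgHom R E K)⟩
        map_one' := rfl
        map_mul' := fun _ _ => rfl
        map_zero' := rfl
        map_add' := fun _ _ => rfl }
    haveI st1 : IsScalarTower A' B K := IsScalarTower.of_algebraMap_eq fun _ => rfl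
    haveI st2 : IsScalarTower R A' B := IsScalarTower.of_algebraMap_eq fun r => by
      apply Subtype.ext
      change algebraMap R K r = algebraMap E K (algebraMap R E r)
      rw [← IsScalarTower.algebraMap_apply]
    haveI : Module.Finite A' B := Module.Finite.of_restrictScalars_finite R A' B
    haveI : Algebra.IsIntegral A' B := inferInstance
    haveI : IsGaloisGroup I A' B := IsGaloisGroup.of_isFractionRing I A' B E K
    haveI : FaithfulSMul A' B := by
      rw [faithfulSMul_iff_algebraMap_injective]
      intro x z hxz
      apply Subtype.ext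
      have h5 : algebraMap E K (x : E) = algebraMap E K (z : E) := congrArg (algebraMap B K) hxz
      exact (algebraMap E K).injective h5
    haveI : FaithfulSMul R A' := by
      rw [faithfulSMul_iff_algebraMap_injective]
      intro x z hxz
      apply hinjK
      have h5 := congrArg (fun a : A' => algebraMap E K (a : E)) hxz
      change algebraMap E K (algebraMap R E x) = algebraMap E K (algebraMap R E z) at h5
      rwa [← IsScalarTower.algebraMap_apply, ← IsScalarTower.algebraMap_apply] at h5
    haveI : Module.IsTorsionFree A' B := inferInstance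
    haveI : Module.Flat A' B := inferInstance
    set P' := P.under A' with hP'
    haveI hPP' : P.LiesOver P' := ⟨rfl⟩
    haveI hP'max : P'.IsMaximal := Ideal.IsMaximal.under A' P
    haveI hP'v : P'.LiesOver v.asIdeal := by
      refine ⟨?_⟩
      rw [hP', Ideal.under_under]
      exact hPv.over
    have hP'0 : P' ≠ ⊥ := Ideal.ne_bot_of_liesOver_of_ne_bot v.ne_bot P'
    let v' : HeightOneSpectrum A' := ⟨P', hP'max.isPrime, hP'0⟩
    have hwv' : w.asIdeal.LiesOver v'.asIdeal := hPP'
    haveI : Finite (R ⧸ v.asIdeal) := inferInstanceAs (Finite (IsLocalRing.ResidueField R))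
    haveI : Finite (A' ⧸ P') := finite_quotient7 v.asIdeal P'
    have h1 := Ideal.card_inertia_eq_ramificationIdxIn (G := I) P' P
    rw [Ideal.ramificationIdxIn_eq_ramificationIdx P' P I,
      ← Ideal.ramificationIdx'_eq_ramificationIdx P' P hP'0] at h1
    have h2 : Nat.card (P.inertia I) = Nat.card I := by
      apply Nat.card_congr
      refine (Equiv.subtypeUnivEquiv ?_)
      intro σ
      exact σ.2
    exact ramificationIdx_dvd_log7 (K := E) (L := K) v' w (⟨y, hyE⟩ : E) (h1.symm.trans h2)

end Pool.Agent.Lib.MP_89bcae_ag
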