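import Mathlib
import Pool.Agent.Lib.MP_89bcae_ag.EisA7
import Pool.Agent.Lib.MP_89bcae_ag.SpecR7
import Pool.Agent.Lib.MP_89bcae_ag.MatB7

/-!
# Integral polynomials with one large root
-/

open Polynomial IsDedekindDomain WithZero

open scoped Classical Pointwise

namespace Pool.Agent.Lib.MP_89bcae_ag

set_option linter.style.haveILetI false
set_option linter.unusedSectionVars false

section Gauss

variable {K : Type*} [Field K] (W : Valuation K ℤᵐ⁰)

/-- The product of the large roots and the leading coefficient. -/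
theorem gauss_roots7 {D : K[X]} {c : K} {A : Finset K} (hD : D = C c * ∏ α ∈ A, (X - C α))
    (hint : ∀ i, W (D.coeff i) ≤ 1) {n : ℕ} (hn : W (D.coeff n) = 1) :
    W (c * ∏ α ∈ A.filter (fun α => 1 < W α), α) = 1 := by
  let O := W.valuationSubring
  have hO : ∀ x : K, x ∈ O ↔ W x ≤ 1 := fun x => Iff.rfl
  have hinv : ∀ α, 1 < W α → α⁻¹ ∈ O := by
    intro α hα
    rw [hO, map_inv₀]
    exact inv_le_one_of_one_le₀ hα.le
  let Eα : K → O[X] := fun α => if hα : 1 < W α then C ⟨α⁻¹, hinv α hα⟩ * X - 1 else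
    X - C ⟨α, not_lt.mp hα⟩
  set E : O[X] := ∏ α ∈ A, Eα α with hE
  have hEα : ∀ α, C (if 1 < W α then α else 1) * (Eα α).map (algebraMap O K) = X - C α := by
    intro α
    by_cases hα : 1 < W α
    · have h1 : Eα α = C ⟨α⁻¹, hinv α hα⟩ * X - 1 := dif_pos hα
      have hα0 : α ≠ 0 := by
        rintro rfl
        rw [map_zero] at hα
        exact absurd hα (not_lt.mpr zero_le_one)
      rw [h1, if_pos hα, Polynomial.map_sub, Polynomial.map_mul, map_C, map_X, Polynomial.map_one,
        mul_sub, ← mul_assoc, ← C_mul]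
      have h2 : α * algebraMap O K ⟨α⁻¹, hinv α hα⟩ = 1 := mul_inv_cancel₀ hα0
      rw [h2, C_1, one_mul, mul_one]
    · have h1 : Eα α = X - C ⟨α, not_lt.mp hα⟩ := dif_neg hα
      rw [h1, if_neg hα, C_1, one_mul, Polynomial.map_sub, map_X, map_C]
      rfl
  have hDE : D = C (c * ∏ α ∈ A.filter (fun α => 1 < W α), α) * E.map (algebraMap O K) := by
    rw [hD, C_mul, mul_assoc, hE, Polynomial.map_prod, map_prod, Finset.prod_filter]
    congr 1
    rw [← Finset.prod_mul_distrib]
    refine Finset.prod_congr rfl fun α _ => ?_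
    rw [← hEα α]
    split_ifs <;> simp
  have hres : E.map (IsLocalRing.residue O) ≠ 0 := by
    rw [hE, Polynomial.map_prod, Finset.prod_ne_zero_iff]
    intro α _
    by_cases hα : 1 < W α
    · have h1 : Eα α = C ⟨α⁻¹, hinv α hα⟩ * X - 1 := dif_pos hα
      rw [h1]
      intro h2
      have h3 := congrArg (fun p => p.coeff 0) h2
      simp at h3
    · have h1 : Eα α = X - C ⟨α, not_lt.mp hα⟩ := dif_neg hα
      rw [h1, Polynomial.map_sub, map_X, map_C]
      exact X_sub_C_ne_zero _
  obtain ⟨i, hi⟩ : ∃ i, (E.map (IsLocalRing.residue O)).coeff i ≠ 0 := by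
    by_contra hcon
    push Not at hcon
    exact hres (Polynomial.ext fun i => by rw [hcon i, coeff_zero])
  have hunit : IsUnit (E.coeff i) := by
    rw [coeff_map] at hi
    exact (IsLocalRing.residue_ne_zero_iff_isUnit _).mp hi
  have hEi : W (algebraMap O K (E.coeff i)) = 1 := by
    obtain ⟨u, hu⟩ := hunit
    have h1 : W (algebraMap O K (u : O)) ≤ 1 := (u : O).2
    have h2 : W (algebraMap O K (↑u⁻¹ : O)) ≤ 1 := (↑u⁻¹ : O).2
    have h3 : W (algebraMap O K (u : O)) * W (algebraMap O K (↑u⁻¹ : O)) = 1 := by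
      rw [← map_mul, ← map_mul, Units.mul_inv, map_one, map_one]
    rw [← hu]
    refine le_antisymm h1 ?_
    rw [← h3]
    exact mul_le_of_le_one_right' h2
  have h1 := hint i
  rw [hDE, coeff_C_mul, coeff_map, map_mul, hEi, mul_one] at h1
  have h2 := hn
  rw [hDE, coeff_C_mul, coeff_map, map_mul] at h2
  exact le_antisymm h1 (h2.symm.le.trans (mul_le_of_le_one_right' ((hO _).mp (E.coeff n).2)))

variable {R : Type*} [CommRing R] [Algebra R K]

/-- The value of an integral polynomial at an integral element is integral. -/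
lemma eval_le_one7 (hWR : ∀ r : R, W (algebraMap R K r) ≤ 1) (p : R[X]) {x : K} (hx : W x ≤ 1) :
    W ((p.map (algebraMap R K)).eval x) ≤ 1 := by
  rw [eval_map, eval₂_eq_sum_range]
  apply W.map_sum_le
  intro i _
  rw [map_mul, map_pow]
  exact mul_le_one' (hWR _) (pow_le_one' hx i)

/-- The value of a monic integral polynomial at a large element. -/
lemma eval_large7 (hWR : ∀ r : R, W (algebraMap R K r) ≤ 1) {p : R[X]} (hp : p.Monic) {x : K}
    (hx : 1 < W x) : W ((p.map (algebraMap R K)).eval x) = W x ^ p.natDegree := by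
  have hlead : W ((algebraMap R K (p.coeff p.natDegree)) * x ^ p.natDegree) =
      W x ^ p.natDegree := by
    rw [coeff_natDegree, hp.leadingCoeff, map_one, one_mul, map_pow]
  rw [eval_map, eval₂_eq_sum_range, Finset.sum_range_succ]
  rw [Valuation.map_add_eq_of_lt_right, hlead]
  rw [hlead]
  have hx0 : W x ≠ 0 := (zero_lt_one.trans hx).ne'
  apply W.map_sum_lt (pow_ne_zero _ hx0)
  intro i hi
  rw [Finset.mem_range] at hi
  rw [map_mul, map_pow]
  calc W (algebraMap R K (p.coeff i)) * W x ^ i ≤ W x ^ i := mul_le_of_le_one_left' (hWR _)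
    _ < W x ^ p.natDegree := pow_lt_pow_right₀ hx hi

end Gauss

end Pool.Agent.Lib.MP_89bcae_ag
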