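import Mathlib
import Pool.Agent.Lib.MP_89bcae_ag.EisB7

/-!
# The inertia group at a place where one root of `D` is large
-/

open Polynomial IsDedekindDomain WithZero

open scoped Classical Pointwise

namespace Pool.Agent.Lib.MP_89bcae_ag

set_option linter.style.haveILetI false
set_option linter.unusedSectionVars false

/-- Two integral roots with the same reduction of a polynomial with separable reduction. -/
lemma root_unique7 {R K : Type*} [CommRing R] [IsLocalRing R] [Field K] [Algebra R K]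
    (W : Valuation K ℤᵐ⁰) (hWR : ∀ r : R, W (algebraMap R K r) ≤ 1)
    (hWm : ∀ r ∈ IsLocalRing.maximalIdeal R, W (algebraMap R K r) < 1) {f : R[X]}
    (hs : (f.map (IsLocalRing.residue R)).Separable) {b b' : K} (hb : W b ≤ 1) (hb' : W b' ≤ 1)
    (hf : (f.map (algebraMap R K)).eval b = 0) (hf' : (f.map (algebraMap R K)).eval b' = 0)
    (h : W (b' - b) < 1) : b' = b := by
  by_contra hne
  let O := W.valuationSubring
  let φ : R →+* O := (algebraMap R K).codRestrict O hWR
  have hinjO : Function.Injective (algebraMap O K) := Subtype.val_injective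
  have hφ : (algebraMap O K).comp φ = algebraMap R K := RingHom.ext fun r => rfl
  have hres : ∀ x : O, IsLocalRing.residue O x = 0 ↔ W (x : K) < 1 := by
    intro x
    rw [IsLocalRing.residue_eq_zero_iff, IsLocalRing.mem_maximalIdeal, mem_nonunits_iff]
    constructor
    · intro hx
      refine lt_of_le_of_ne x.2 fun h1 => hx ?_
      have hx0 : (x : K) ≠ 0 := by
        rintro h2
        rw [h2, map_zero] at h1
        exact zero_ne_one h1
      have hxi : (x : K)⁻¹ ∈ O := by
        change W (x : K)⁻¹ ≤ 1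
        rw [map_inv₀, h1, inv_one]
      exact IsUnit.of_mul_eq_one (⟨(x : K)⁻¹, hxi⟩ : O) (Subtype.ext (mul_inv_cancel₀ hx0))
    · rintro hx ⟨u, rfl⟩
      have h1 : W ((u : O) : K) * W ((↑u⁻¹ : O) : K) = 1 := by
        rw [← map_mul, ← Subring.coe_mul, Units.mul_inv]
        exact map_one W
      have h2 : W ((u : O) : K) * W ((↑u⁻¹ : O) : K) < 1 :=
        lt_of_le_of_lt (mul_le_of_le_one_right' (↑u⁻¹ : O).2) hx
      exact absurd h1 h2.ne
  have hψ0 : ∀ r ∈ IsLocalRing.maximalIdeal R, (IsLocalRing.residue O).comp φ r = 0 := by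
    intro r hr
    rw [RingHom.comp_apply, hres]
    exact hWm r hr
  let ψ : IsLocalRing.ResidueField R →+* IsLocalRing.ResidueField O :=
    Ideal.Quotient.lift (IsLocalRing.maximalIdeal R) ((IsLocalRing.residue O).comp φ) hψ0
  have hψ : ψ.comp (IsLocalRing.residue R) = (IsLocalRing.residue O).comp φ := RingHom.ext fun r => rfl
  have hev : ∀ (z : K) (hz : z ∈ O), (f.map (algebraMap R K)).eval z = 0 →
      (f.map φ).eval (⟨z, hz⟩ : O) = 0 := by
    intro z hz h0
    apply hinjO
    rw [map_zero, ← eval₂_at_apply, ← eval_map, Polynomial.map_map, hφ]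
    exact h0
  obtain ⟨q, hq⟩ := dvd_iff_isRoot.mpr (hev b hb hf)
  have h1 := hev b' hb' hf'
  rw [hq, eval_mul, eval_sub, eval_X, eval_C] at h1
  have h2 : (⟨b', hb'⟩ : O) - ⟨b, hb⟩ ≠ 0 := by
    intro h0
    exact hne (congrArg Subtype.val (sub_eq_zero.mp h0))
  have h3 : q.IsRoot ⟨b', hb'⟩ := (mul_eq_zero.mp h1).resolve_left h2
  obtain ⟨q', hq'⟩ := dvd_iff_isRoot.mpr h3
  have hbb : IsLocalRing.residue O ⟨b', hb'⟩ = IsLocalRing.residue O ⟨b, hb⟩ := by
    rw [← sub_eq_zero, ← map_sub, hres]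
    exact h
  have h4 : (f.map (IsLocalRing.residue R)).map ψ =
      (X - C (IsLocalRing.residue O ⟨b, hb⟩)) *
        ((X - C (IsLocalRing.residue O ⟨b, hb⟩)) * q'.map (IsLocalRing.residue O)) := by
    have h5 := congrArg (Polynomial.map (IsLocalRing.residue O)) hq
    rw [hq', Polynomial.map_map, Polynomial.map_mul, Polynomial.map_mul, Polynomial.map_sub,
      Polynomial.map_sub, map_X, map_C, map_C, hbb] at h5
    rw [Polynomial.map_map, hψ, h5]
  have h5 := (separable_map ψ).mpr hs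
  rw [h4] at h5
  have h6 : (X - C (IsLocalRing.residue O ⟨b, hb⟩)) * (X - C (IsLocalRing.residue O ⟨b, hb⟩)) ∣
      (X - C (IsLocalRing.residue O ⟨b, hb⟩)) *
        ((X - C (IsLocalRing.residue O ⟨b, hb⟩)) * q'.map (IsLocalRing.residue O)) := by
    rw [← mul_assoc]
    exact Dvd.intro _ rfl
  exact not_isUnit_X_sub_C _ (h5.squarefree _ h6)

/-- The inertia group at a place where one root of `D` is large. -/
theorem exists_inertia7 {R k K : Type*} [CommRing R] [IsDomain R] [IsDiscreteValuationRing R]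
    [Finite (IsLocalRing.ResidueField R)] [Field k]
    [Algebra R k] [IsFractionRing R k] [Field K] [Algebra k K] [Algebra R K] [IsScalarTower R k K]
    [FiniteDimensional k K] [IsGalois k K] {g D : R[X]}
    (hgdeg : g.natDegree ≠ 0) (hg : g.Monic) {n : ℕ} (hn : D.natDegree = n + 1)
    (h1 : D.coeff (n + 1) ∈ IsLocalRing.maximalIdeal R)
    (h2 : D.coeff (n + 1) ∉ IsLocalRing.maximalIdeal R ^ 2)
    (h3 : D.coeff n ∉ IsLocalRing.maximalIdeal R)
    (hsepκ : ((D.map (IsLocalRing.residue R)).comp (g.map (IsLocalRing.residue R))).Separable)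
    (S A : Finset K)
    (hDA : D.map (algebraMap R K) =
      C (algebraMap R K D.leadingCoeff) * ∏ α ∈ A, (X - C α))
    (hgS : ∀ α ∈ A, g.map (algebraMap R K) - C α =
      ∏ b ∈ S.filter (fun b => (g.map (algebraMap R K)).eval b = α), (X - C b))
    (hSA : ∀ b ∈ S, (g.map (algebraMap R K)).eval b ∈ A) :
    ∃ α ∈ A, ∀ x ∈ S, ∀ y ∈ S, (g.map (algebraMap R K)).eval x = α →
      (g.map (algebraMap R K)).eval y = α → ∃ σ : K ≃ₐ[k] K, σ x = y ∧
        ∀ b ∈ S, (g.map (algebraMap R K)).eval b ≠ α → σ b = b := by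
  obtain ⟨W, e, I, he0, hWk, hI, heI, hfix⟩ := exists_place7 R k K
  set v : HeightOneSpectrum R := IsDiscreteValuationRing.maximalIdeal R with hv
  have hinjK : Function.Injective (algebraMap R K) := by
    rw [IsScalarTower.algebraMap_eq R k K]
    exact (algebraMap k K).injective.comp (IsFractionRing.injective R k)
  have hWR : ∀ r : R, W (algebraMap R K r) ≤ 1 := fun r => by
    rw [hWk]
    exact pow_le_one' (v.intValuation_le_one r) e
  have hWm : ∀ r ∈ IsLocalRing.maximalIdeal R, W (algebraMap R K r) < 1 := fun r hr => by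
    rw [hWk]
    exact pow_lt_one₀ bot_le ((v.intValuation_lt_one_iff_mem r).mpr hr) he0.ne'
  -- the coefficients of `D`
  have hvm : ∀ (r : R) (n : ℕ), v.intValuation r ≤ exp (-(n : ℤ)) ↔
      r ∈ IsLocalRing.maximalIdeal R ^ n := fun r n => v.intValuation_le_pow_iff_mem r n
  have hlc0 : D.coeff (n + 1) ≠ 0 := by
    intro h0
    rw [h0] at h2
    exact h2 (Ideal.zero_mem _)
  have hvlc : v.intValuation (D.coeff (n + 1)) = exp (-1 : ℤ) := by
    have h4 := (hvm (D.coeff (n + 1)) 1).mpr (by rw [pow_one]; exact h1)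
    have h5 : ¬ v.intValuation (D.coeff (n + 1)) ≤ exp (-((2 : ℕ) : ℤ)) := fun h4 =>
      h2 ((hvm (D.coeff (n + 1)) 2).mp h4)
    have h6 : v.intValuation (D.coeff (n + 1)) ≠ 0 := v.intValuation_ne_zero _ hlc0
    have h7 := exp_log h6
    rw [← h7] at h4 h5 ⊢
    rw [exp_le_exp] at h4 h5
    rw [exp_inj]
    push_cast at h4 h5
    omega
  have hWlc : W (algebraMap R K D.leadingCoeff) = exp (-(e : ℤ)) := by
    rw [leadingCoeff, hn, hWk, hvlc, ← exp_nsmul]
    simp
  have hWn : W (algebraMap R K (D.coeff n)) = 1 := by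
    rw [hWk]
    have h4 : v.intValuation (D.coeff n) = 1 := by
      refine le_antisymm (v.intValuation_le_one _) (not_lt.mp fun h5 => h3 ?_)
      exact (v.intValuation_lt_one_iff_mem _).mp h5
    rw [h4, one_pow]
  -- the large roots
  have hroot : ∀ α ∈ A, (D.map (algebraMap R K)).eval α = 0 := by
    intro α hα
    rw [hDA, eval_mul, eval_prod, Finset.prod_eq_zero hα (by simp), mul_zero]
  have hlarge : ∀ α ∈ A, 1 < W α → W α = exp (e : ℤ) := by
    intro α hα hα1
    have hα0 : W α ≠ 0 := (zero_lt_one.trans hα1).ne'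
    have h4 := hroot α hα
    rw [eval_map, eval₂_eq_sum_range, hn, Finset.sum_range_succ, Finset.sum_range_succ] at h4
    have h5 : W (algebraMap R K (D.coeff n) * α ^ n) = W α ^ n := by
      rw [map_mul, hWn, one_mul, map_pow]
    have h6 : W (∑ i ∈ Finset.range n, algebraMap R K (D.coeff i) * α ^ i) < W α ^ n := by
      apply W.map_sum_lt (pow_ne_zero _ hα0)
      intro i hi
      rw [Finset.mem_range] at hi
      rw [map_mul, map_pow]
      calc W (algebraMap R K (D.coeff i)) * W α ^ i ≤ W α ^ i := mul_le_of_le_one_left' (hWR _)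
        _ < W α ^ n := pow_lt_pow_right₀ hα1 hi
    have h7 : W (∑ i ∈ Finset.range n, algebraMap R K (D.coeff i) * α ^ i +
        algebraMap R K (D.coeff n) * α ^ n) = W α ^ n := by
      rw [Valuation.map_add_eq_of_lt_right _ (by rw [h5]; exact h6), h5]
    have h8 : W (algebraMap R K (D.coeff (n + 1)) * α ^ (n + 1)) = W α ^ n := by
      rw [← h7, ← W.map_neg (_ + _)]
      congr 1
      linear_combination h4
    rw [map_mul, map_pow, pow_succ, ← hn, coeff_natDegree, hWlc] at h8
    have h9 : exp (-(e : ℤ)) * W α = 1 := by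
      have h10 : W α ^ n * (exp (-(e : ℤ)) * W α) = W α ^ n * 1 := by
        rw [mul_one]
        conv_rhs => rw [← h8]
        rw [mul_left_comm]
      exact mul_left_cancel₀ (pow_ne_zero _ hα0) h10
    have h10 := exp_log hα0
    rw [← h10, ← exp_add, ← exp_zero, exp_inj] at h9
    rw [← h10, exp_inj]
    omega
  have hcard : (A.filter fun α => 1 < W α).card = 1 := by
    have h4 := gauss_roots7 W hDA (fun i => by rw [coeff_map]; exact hWR _) (n := n)
      (by rw [coeff_map]; exact hWn)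
    rw [map_mul, map_prod, hWlc, Finset.prod_congr rfl (fun α hα =>
      hlarge α (Finset.mem_filter.mp hα).1 (Finset.mem_filter.mp hα).2), Finset.prod_const] at h4
    have h4' : ∀ N : ℕ, exp (-(e : ℤ)) * exp (e : ℤ) ^ N = 1 → ((N : ℤ) - 1) * e = 0 := by
      intro N hN
      rw [← exp_nsmul, ← exp_add, ← exp_zero, exp_inj, nsmul_eq_mul] at hN
      linear_combination hN
    have h5 := h4' _ h4
    have he' : (e : ℤ) ≠ 0 := by exact_mod_cast he0.ne'
    rcases mul_eq_zero.mp h5 with h6 | h6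
    · have h7 : (((A.filter fun α => 1 < W α).card : ℤ)) = 1 := by linear_combination h6
      exact_mod_cast h7
    · exact absurd h6 he'
  obtain ⟨α₀, hα₀⟩ := Finset.card_eq_one.mp hcard
  have hα₀A : α₀ ∈ A ∧ 1 < W α₀ := by
    have h4 : α₀ ∈ A.filter fun α => 1 < W α := by rw [hα₀]; exact Finset.mem_singleton_self _
    exact Finset.mem_filter.mp h4
  have hsmall : ∀ α ∈ A, α ≠ α₀ → W α ≤ 1 := by
    intro α hα hne
    by_contra hlt
    have h4 : α ∈ A.filter fun α => 1 < W α := Finset.mem_filter.mpr ⟨hα, not_le.mp hlt⟩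
    rw [hα₀, Finset.mem_singleton] at h4
    exact hne h4
  set G := g.map (algebraMap R K) with hG
  have hSlarge : ∀ x : K, G.eval x = α₀ → 1 < W x := by
    intro x hx
    by_contra hlt
    have h4 := eval_le_one7 W hWR g (not_lt.mp hlt)
    rw [← hG, hx] at h4
    exact absurd hα₀A.2 (not_lt.mpr h4)
  have hSpow : ∀ x : K, G.eval x = α₀ → (g.natDegree : ℤ) * log (W x) = e := by
    intro x hx
    have h4 := eval_large7 W hWR hg (hSlarge x hx)
    rw [← hG, hx, hlarge _ hα₀A.1 hα₀A.2] at h4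
    have h5 := congrArg log h4
    rw [log_exp, log_pow, nsmul_eq_mul] at h5
    exact h5.symm
  have hSsmall : ∀ b ∈ S, G.eval b ≠ α₀ → W b ≤ 1 := by
    intro b hb hne
    by_contra hlt
    have h4 := eval_large7 W hWR hg (not_le.mp hlt)
    rw [← hG] at h4
    have h5 := hsmall _ (hSA b hb) hne
    rw [h4] at h5
    exact absurd h5 (not_le.mpr (one_lt_pow₀ (not_le.mp hlt) hgdeg))
  -- the Galois group
  have hσev : ∀ (σ : K ≃ₐ[k] K) (p : R[X]) (x : K), (p.map (algebraMap R K)).eval (σ x) =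
      σ ((p.map (algebraMap R K)).eval x) := by
    intro σ p x
    have h1 : (σ : K →+* K).comp (algebraMap R K) = algebraMap R K := by
      ext r
      change σ (algebraMap R K r) = algebraMap R K r
      rw [IsScalarTower.algebraMap_apply R k K]
      exact σ.commutes _
    have h3 := Polynomial.hom_eval₂ p (algebraMap R K) (σ : K →+* K) x
    rw [h1] at h3
    rw [eval_map, eval_map]
    exact h3.symm
  have hlc0K : algebraMap R K D.leadingCoeff ≠ 0 := by
    intro h0
    rw [h0, map_zero] at hWlc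
    exact exp_ne_zero hWlc.symm
  have hAmem : ∀ α : K, (D.map (algebraMap R K)).eval α = 0 → α ∈ A := by
    intro α hα
    rw [hDA, eval_mul, eval_C, eval_prod, mul_eq_zero] at hα
    rcases hα with hα | hα
    · exact absurd hα hlc0K
    · obtain ⟨α', h1, h3⟩ := Finset.prod_eq_zero_iff.mp hα
      rw [eval_sub, eval_X, eval_C, sub_eq_zero] at h3
      rw [h3]
      exact h1
  have hSmem : ∀ b : K, G.eval b ∈ A → b ∈ S := by
    intro b hb
    have h1 := congrArg (eval b) (hgS _ hb)
    rw [eval_sub, eval_C, sub_self, eval_prod, eq_comm] at h1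
    obtain ⟨b', h3, h4⟩ := Finset.prod_eq_zero_iff.mp h1
    rw [eval_sub, eval_X, eval_C, sub_eq_zero] at h4
    rw [h4]
    exact (Finset.mem_filter.mp h3).1
  have hσA : ∀ (σ : K ≃ₐ[k] K), ∀ α ∈ A, σ α ∈ A := by
    intro σ α hα
    apply hAmem
    rw [hσev, hroot α hα, map_zero]
  have hσS : ∀ (σ : K ≃ₐ[k] K), ∀ b ∈ S, σ b ∈ S := by
    intro σ b hb
    apply hSmem
    rw [hσev]
    exact hσA σ _ (hSA b hb)
  -- the inertia group
  have hIle : ∀ σ ∈ I, ∀ x : K, W x ≤ 1 → W (σ x) ≤ 1 := by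
    intro σ hσ x hx
    have h4 : σ x = (σ x - x) + x := by ring
    rw [h4]
    exact (W.map_add _ _).trans (max_le (hI σ hσ x hx).le hx)
  have hIα : ∀ σ ∈ I, σ α₀ = α₀ := by
    intro σ hσ
    by_contra hne
    have h4 := hsmall _ (hσA σ _ hα₀A.1) hne
    have h5 := hIle σ⁻¹ (I.inv_mem hσ) _ h4
    have h6 : σ⁻¹ (σ α₀) = α₀ := σ.symm_apply_apply α₀
    rw [h6] at h5
    exact absurd hα₀A.2 (not_lt.mpr h5)
  have hIS : ∀ σ ∈ I, ∀ b ∈ S, G.eval b ≠ α₀ → σ b = b := by
    intro σ hσ b hb hne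
    have hcomp : (D.comp g).map (algebraMap R K) = (D.map (algebraMap R K)).comp G :=
      Polynomial.map_comp _ _ _
    have hev0 : ∀ b ∈ S, ((D.comp g).map (algebraMap R K)).eval b = 0 := by
      intro b hb
      rw [hcomp, eval_comp]
      exact hroot _ (hSA b hb)
    have hW := hSsmall b hb hne
    exact root_unique7 W hWR hWm (f := D.comp g) (by rw [Polynomial.map_comp]; exact hsepκ) hW
      (hIle σ hσ b hW) (hev0 b hb) (hev0 _ (hσS σ b hb)) (hI σ hσ b hW)
  -- the orbits
  refine ⟨α₀, hα₀A.1, fun x hx y hy hgx hgy => ?_⟩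
  haveI : Finite (K ≃ₐ[k] K) := inferInstance
  haveI : Fintype I := Fintype.ofFinite I
  set T : Finset K := Finset.univ.image fun σ : I => (σ : K ≃ₐ[k] K) x with hT
  have hTmem : ∀ z, z ∈ T ↔ ∃ σ ∈ I, σ x = z := by
    intro z
    rw [hT, Finset.mem_image]
    constructor
    · rintro ⟨σ, -, h4⟩
      exact ⟨σ, σ.2, h4⟩
    · rintro ⟨σ, hσ, h4⟩
      exact ⟨⟨σ, hσ⟩, Finset.mem_univ _, h4⟩
  have hTg : ∀ z ∈ T, G.eval z = α₀ := by
    intro z hz
    obtain ⟨σ, hσ, rfl⟩ := (hTmem z).mp hz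
    rw [hG, hσev, ← hG, hgx, hIα σ hσ]
  have hTne : x ∈ T := (hTmem x).mpr ⟨1, I.one_mem, rfl⟩
  have hm0 : (0 : ℤ) < g.natDegree := by exact_mod_cast Nat.pos_of_ne_zero hgdeg
  have he0' : (0 : ℤ) < e := by exact_mod_cast he0
  have hz0 : ∀ z ∈ T, z ≠ 0 := by
    rintro z hz rfl
    have h4 := hSlarge 0 (hTg 0 hz)
    rw [map_zero] at h4
    exact absurd h4 (not_lt.mpr zero_le_one)
  have hprod0 : ∏ z ∈ T, z ≠ 0 := Finset.prod_ne_zero_iff.mpr hz0
  have hfixT : ∀ σ ∈ I, σ (∏ z ∈ T, z) = ∏ z ∈ T, z := by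
    intro σ hσ
    rw [map_prod]
    apply Finset.prod_bij (fun z _ => σ z)
    · intro z hz
      obtain ⟨τ, hτ, rfl⟩ := (hTmem z).mp hz
      exact (hTmem _).mpr ⟨σ * τ, I.mul_mem hσ hτ, rfl⟩
    · intro z _ z' _ h4
      exact σ.injective h4
    · intro z hz
      obtain ⟨τ, hτ, rfl⟩ := (hTmem z).mp hz
      refine ⟨(σ⁻¹ * τ) x, (hTmem _).mpr ⟨σ⁻¹ * τ, I.mul_mem (I.inv_mem hσ) hτ, rfl⟩, ?_⟩
      exact σ.apply_symm_apply (τ x)
    · intro z _
      rfl
  have hdvd := hfix _ hprod0 hfixT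
  have hlogsum : (g.natDegree : ℤ) * log (W (∏ z ∈ T, z)) = T.card * e := by
    have h4 : log (W (∏ z ∈ T, z)) = ∑ z ∈ T, log (W z) := by
      clear hdvd hfixT hprod0
      have h5 : ∀ T' : Finset K, (∀ z ∈ T', z ≠ 0) →
          log (W (∏ z ∈ T', z)) = ∑ z ∈ T', log (W z) := by
        intro T'
        induction T' using Finset.induction_on with
        | empty => simp
        | insert z T' hz ih =>
          intro h6
          rw [Finset.prod_insert hz, Finset.sum_insert hz, map_mul, log_mul, ih]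
          · exact fun z' hz' => h6 z' (Finset.mem_insert_of_mem hz')
          · exact (Valuation.ne_zero_iff _).mpr (h6 z (Finset.mem_insert_self _ _))
          · exact (Valuation.ne_zero_iff _).mpr (Finset.prod_ne_zero_iff.mpr
              fun z' hz' => h6 z' (Finset.mem_insert_of_mem hz'))
      exact h5 T hz0
    rw [h4, Finset.mul_sum, Finset.sum_congr rfl (fun z hz => hSpow z (hTg z hz)),
      Finset.sum_const, nsmul_eq_mul]
  have hge : (e : ℤ) ≤ log (W (∏ z ∈ T, z)) := by
    have hpos : 0 < log (W (∏ z ∈ T, z)) := by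
      have h4 : (0 : ℤ) < T.card := by exact_mod_cast Finset.card_pos.mpr ⟨x, hTne⟩
      have h5 : 0 < (g.natDegree : ℤ) * log (W (∏ z ∈ T, z)) := by
        rw [hlogsum]
        exact mul_pos h4 he0'
      exact (mul_pos_iff_of_pos_left hm0).mp h5
    have h4 := Int.le_of_dvd hpos hdvd
    have h5 : (e : ℤ) ≤ Nat.card I := by exact_mod_cast heI
    exact h5.trans h4
  have hTcard : g.natDegree ≤ T.card := by
    have h4 : (g.natDegree : ℤ) * e ≤ T.card * e := by
      rw [← hlogsum]
      exact mul_le_mul_of_nonneg_left hge hm0.le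
    have h5 := le_of_mul_le_mul_right h4 he0'
    exact_mod_cast h5
  have hfibcard : (S.filter (fun b => G.eval b = α₀)).card = g.natDegree := by
    have h4 := congrArg natDegree (hgS α₀ hα₀A.1)
    rw [natDegree_sub_C, hG, hg.natDegree_map, natDegree_prod_of_monic _ _
      (fun b _ => monic_X_sub_C b)] at h4
    simp only [natDegree_X_sub_C, Finset.sum_const, smul_eq_mul, mul_one] at h4
    exact h4.symm
  have hTeq : T = S.filter (fun b => G.eval b = α₀) := by
    apply Finset.eq_of_subset_of_card_le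
    · intro z hz
      rw [Finset.mem_filter]
      refine ⟨hSmem z ?_, hTg z hz⟩
      rw [hTg z hz]
      exact hα₀A.1
    · rw [hfibcard]
      exact hTcard
  have hyT : y ∈ T := by
    rw [hTeq]
    exact Finset.mem_filter.mpr ⟨hy, hgy⟩
  obtain ⟨σ, hσ, hσx⟩ := (hTmem y).mp hyT
  exact ⟨σ, hσx, fun b hb hne => hIS σ hσ b hb hne⟩

end Pool.Agent.Lib.MP_89bcae_ag
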