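import Mathlib
import Pool.Agent.Lib.MP_89bcae_ag.DefsB7
import Pool.Agent.Lib.MP_89bcae_ag.MatB7
import Pool.Agent.Lib.MP_89bcae_ag.EisC7
import Pool.Agent.Lib.MP_89bcae_ag.CycS8

/-!
# Transitivity on pairs from a place where exactly one root of `D` has a pole
-/

open Polynomial IsDedekindDomain WithZero

open scoped Classical

namespace Pool.Agent.Lib.MP_89bcae_ag

set_option linter.style.haveILetI false
set_option linter.unusedSectionVars false

universe u

/-- Transitivity on the pairs of roots of `D` and automorphisms moving only one fibre imply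
transitivity on the pairs of roots of `D(g)` in different fibres. -/
theorem isPairTransitive_of_fibre7 {k F : Type*} [Field k] [Field F] [Algebra k F] {g D : k[X]}
    (hX : IsPairTransitive7 k F X D) (α₀ : F) (hα₀ : aeval α₀ D = 0)
    (h : ∀ x y : F, aeval x g = α₀ → aeval y g = α₀ → ∃ σ : F ≃ₐ[k] F, σ x = y ∧
      ∀ b : F, aeval b (D.comp g) = 0 → aeval b g ≠ α₀ → σ b = b) :
    IsPairTransitive7 k F g D := by
  have hX' : ∀ α β α' β' : F, aeval α D = 0 → aeval β D = 0 → aeval α' D = 0 → aeval β' D = 0 →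
      α ≠ β → α' ≠ β' → ∃ σ : F ≃ₐ[k] F, σ α = α' ∧ σ β = β' := by
    intro α β α' β' h1 h2 h3 h4 h5 h6
    apply hX α β α' β' <;> simpa
  have hσev : ∀ (σ : F ≃ₐ[k] F) (p : k[X]) (x : F), aeval (σ x) p = σ (aeval x p) := fun σ p x =>
    Polynomial.aeval_algHom_apply σ x p
  have hcomp : ∀ b : F, aeval b (D.comp g) = aeval (aeval b g) D := fun b => aeval_comp b
  -- all the fibres
  have hall : ∀ α β : F, aeval α D = 0 → aeval β D = 0 → α ≠ β → ∀ x y : F, aeval x g = α →
      aeval y g = α → ∃ σ : F ≃ₐ[k] F, σ x = y ∧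
        ∀ b : F, aeval b (D.comp g) = 0 → aeval b g ≠ α → σ b = b := by
    intro α β hα hβ hαβ x y hx hy
    obtain ⟨β₀, hβ₀, hne⟩ : ∃ β₀ : F, aeval β₀ D = 0 ∧ α₀ ≠ β₀ := by
      by_cases hc : α₀ = α
      · exact ⟨β, hβ, by rw [hc]; exact hαβ⟩
      · exact ⟨α, hα, hc⟩
    obtain ⟨τ, hτ, -⟩ := hX' α₀ β₀ α β hα₀ hβ₀ hα hβ hne hαβ
    have hτ' : τ.symm α = α₀ := by rw [← hτ, AlgEquiv.symm_apply_apply]
    obtain ⟨σ, hσ, hfix⟩ := h (τ.symm x) (τ.symm y) (by rw [hσev, hx, hτ'])
      (by rw [hσev, hy, hτ'])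
    refine ⟨(τ.symm.trans σ).trans τ, ?_, fun b hb hne' => ?_⟩
    · change τ (σ (τ.symm x)) = y
      rw [hσ, AlgEquiv.apply_symm_apply]
    · change τ (σ (τ.symm b)) = b
      rw [hfix (τ.symm b) (by rw [hσev, hb, map_zero]) ?_, AlgEquiv.apply_symm_apply]
      intro h1
      rw [hσev] at h1
      apply hne'
      rw [← hτ, ← h1, AlgEquiv.apply_symm_apply]
  intro b c b' c' hb hc hb' hc' hbc hbc'
  rw [hcomp] at hb hc hb' hc'
  obtain ⟨τ, hτb, hτc⟩ := hX' _ _ _ _ hb hc hb' hc' hbc hbc'
  obtain ⟨σ, hσ, hσfix⟩ := hall _ _ hb' hc' hbc' (τ b) b' (by rw [hσev, hτb]) rfl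
  obtain ⟨ρ, hρ, hρfix⟩ := hall _ _ hc' hb' (Ne.symm hbc') (τ c) c' (by rw [hσev, hτc]) rfl
  refine ⟨(τ.trans σ).trans ρ, ?_, ?_⟩
  · change ρ (σ (τ b)) = b'
    rw [hσ, hρfix b' (by rw [hcomp]; exact hb') hbc']
  · change ρ (σ (τ c)) = c'
    rw [hσfix (τ c) (by rw [hcomp, hσev, hτc]; exact hc') (by rw [hσev, hτc]; exact hbc'.symm), hρ]

/-- Transitivity on pairs from automorphisms, of the splitting field, moving only one fibre. -/
theorem isPairTransitive_of_galois7 (R k : Type*) (F : Type u) [CommRing R] [IsDomain R] [Field k]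
    [Algebra R k] [IsFractionRing R k] [Field F] [Algebra k F] [IsAlgClosure k F] {g D : R[X]}
    (hgdeg : g.natDegree ≠ 0) (hg : g.Monic)
    (H : ∀ (K : Type u) [Field K] [Algebra k K] [Algebra R K] [IsScalarTower R k K]
      [FiniteDimensional k K] [IsGalois k K] (S A : Finset K), D.map (algebraMap R K) =
        C (algebraMap R K D.leadingCoeff) * ∏ α ∈ A, (X - C α) →
      (∀ α ∈ A, g.map (algebraMap R K) - C α =
        ∏ b ∈ S.filter (fun b => (g.map (algebraMap R K)).eval b = α), (X - C b)) →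
      (∀ b ∈ S, (g.map (algebraMap R K)).eval b ∈ A) →
      (∀ σ : K ≃ₐ[k] K, (∀ b ∈ S, σ b = b) → σ = 1) →
      ∃ α₀ ∈ A, ∀ x ∈ S, ∀ y ∈ S, (g.map (algebraMap R K)).eval x = α₀ →
        (g.map (algebraMap R K)).eval y = α₀ → ∃ σ : K ≃ₐ[k] K, σ x = y ∧
          ∀ b ∈ S, (g.map (algebraMap R K)).eval b ≠ α₀ → σ b = b)
    (hsep : ((D.comp g).map (algebraMap R k)).Separable)
    (hX : IsPairTransitive7 k F X (D.map (algebraMap R k))) :
    IsPairTransitive7 k F (g.map (algebraMap R k)) (D.map (algebraMap R k)) := by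
  have hF : IsAlgClosed F := IsAlgClosure.isAlgClosed k
  have hkF : Algebra.IsAlgebraic k F := IsAlgClosure.isAlgebraic
  letI : Algebra R F := ((algebraMap k F).comp (algebraMap R k)).toAlgebra
  haveI : IsScalarTower R k F := IsScalarTower.of_algebraMap_eq fun _ => rfl
  have hinjk : Function.Injective (algebraMap R k) := IsFractionRing.injective R k
  have hinjF : Function.Injective (algebraMap R F) := (algebraMap k F).injective.comp hinjk
  have hmapF : ∀ p : R[X], (p.map (algebraMap R k)).map (algebraMap k F) =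
      p.map (algebraMap R F) := fun p => by rw [Polynomial.map_map]; rfl
  have hlcF' : (D.map (algebraMap R F)).leadingCoeff = algebraMap R F D.leadingCoeff :=
    leadingCoeff_map_of_injective hinjF D
  have hcompF : (D.map (algebraMap R F)).comp (g.map (algebraMap R F)) =
      ((D.comp g).map (algebraMap R k)).map (algebraMap k F) := by
    rw [hmapF, Polynomial.map_comp]
  have hsepF : ((D.map (algebraMap R F)).comp (g.map (algebraMap R F))).Separable := by
    rw [hcompF]; exact hsep.map
  have hgF : (g.map (algebraMap R F)).natDegree ≠ 0 := by rwa [hg.natDegree_map]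
  have hsepD : (D.map (algebraMap R F)).Separable := separable_left7 hgF hsepF
  set gF := g.map (algebraMap R F) with hgFdef
  set DF := D.map (algebraMap R F) with hDFdef
  set S : Finset F := (DF.comp gF).roots.toFinset with hS
  set A : Finset F := DF.roots.toFinset with hA
  have hmemS : ∀ b, b ∈ S ↔ DF.eval (gF.eval b) = 0 := by
    intro b
    rw [hS, Multiset.mem_toFinset, mem_roots hsepF.ne_zero, IsRoot.def, eval_comp]
  have hmemA : ∀ α, α ∈ A ↔ DF.eval α = 0 := by
    intro α
    rw [hA, Multiset.mem_toFinset, mem_roots hsepD.ne_zero, IsRoot.def]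
  have hSA : ∀ b ∈ S, gF.eval b ∈ A := fun b hb => (hmemA _).mpr ((hmemS b).mp hb)
  have hDA : DF = C (algebraMap R F D.leadingCoeff) * ∏ α ∈ A, (X - C α) := by
    rw [← hlcF']
    exact eq_prod_roots7 hsepD
  have hgS : ∀ α ∈ A, gF - C α = ∏ b ∈ S.filter (fun b => gF.eval b = α), (X - C b) := by
    intro α hα
    have h1 : (gF - C α) ∣ DF.comp gF := by
      obtain ⟨w, hw⟩ := dvd_iff_isRoot.mpr ((hmemA α).mp hα)
      refine ⟨w.comp gF, ?_⟩
      rw [hw, mul_comp, sub_comp, X_comp, C_comp]
    have h3 := eq_prod_roots7 (hsepF.of_dvd h1)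
    have h4 : (gF - C α).Monic := by
      have h5 : (C α).degree < gF.degree := by
        rw [degree_eq_natDegree (p := gF) (fun h => hgF (by rw [h, natDegree_zero]))]
        exact (degree_C_le).trans_lt (by exact_mod_cast Nat.pos_of_ne_zero hgF)
      exact (hg.map _).sub_of_left h5
    rw [h4.leadingCoeff, C_1, one_mul] at h3
    rw [h3]
    congr 1
    ext b
    rw [Finset.mem_filter, Multiset.mem_toFinset, mem_roots h4.ne_zero, IsRoot.def, eval_sub,
      eval_C, sub_eq_zero, hmemS]
    constructor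
    · exact fun h => ⟨by rw [h]; exact (hmemA α).mp hα, h⟩
    · exact fun h => h.2
  have hAS : ∀ α ∈ A, ∃ b ∈ S, gF.eval b = α := by
    intro α hα
    have h1 : (gF - C α).degree ≠ 0 := by
      intro h4
      have h3 : (gF - C α).natDegree = gF.natDegree := natDegree_sub_C
      rw [natDegree_eq_of_degree_eq_some h4] at h3
      exact hgF h3.symm
    obtain ⟨b, hb⟩ := IsAlgClosed.exists_root _ h1
    rw [IsRoot.def, eval_sub, eval_C, sub_eq_zero] at hb
    exact ⟨b, (hmemS b).mpr (by rw [hb]; exact (hmemA α).mp hα), hb⟩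
  have hSroot : (S : Set F) = ((D.comp g).map (algebraMap R k)).rootSet F := by
    rw [rootSet, hS, hcompF, aroots]
  obtain ⟨hfin, hgal⟩ := galois7 (F := F) hsep
  obtain ⟨K, hK⟩ : ∃ K, K = IntermediateField.adjoin k (S : Set F) := ⟨_, rfl⟩
  haveI : FiniteDimensional k K := by rw [hK, hSroot]; exact hfin
  haveI : IsGalois k K := by rw [hK, hSroot]; exact hgal
  have hSK : ∀ b ∈ S, b ∈ K := by
    intro b hb
    rw [hK]
    exact IntermediateField.subset_adjoin _ _ hb
  have hRK : ∀ r : R, algebraMap R F r ∈ K := by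
    intro r
    rw [IsScalarTower.algebraMap_apply R k F]
    exact K.algebraMap_mem _
  have hgK : ∀ b ∈ K, gF.eval b ∈ K := by
    intro b hb
    rw [hgFdef, eval_map, eval₂_eq_sum_range]
    exact K.sum_mem fun i _ => K.mul_mem (hRK _) (pow_mem hb i)
  have hAK : ∀ α ∈ A, α ∈ K := by
    intro α hα
    obtain ⟨b, hb, rfl⟩ := hAS α hα
    exact hgK b (hSK b hb)
  have hcomp : (algebraMap K F).comp (algebraMap R K) = algebraMap R F := RingHom.ext fun r => rfl
  have hinj : Function.Injective (Polynomial.map (algebraMap K F)) :=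
    Polynomial.map_injective _ (algebraMap K F).injective
  have hev : ∀ b : K, (((g.map (algebraMap R K)).eval b : K) : F) = gF.eval (b : F) := by
    intro b
    rw [hgFdef, ← hcomp, ← Polynomial.map_map, eval_map (algebraMap K F)]
    exact (eval₂_at_apply (algebraMap K F) b).symm
  obtain ⟨α₀, hα₀, hI⟩ := H K (S.subtype (· ∈ K)) (A.subtype (· ∈ K)) (by
      apply hinj
      rw [Polynomial.map_map, hcomp, ← hDFdef, hDA, Polynomial.map_mul, map_C, Polynomial.map_prod]
      congr 1
      have h1 := prod_subtype7 (· ∈ K) A hAK (fun _ => True) (fun _ => True) (fun _ => Iff.rfl)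
        (fun b => (X - C b : F[X]))
      rw [Finset.filter_true, Finset.filter_true] at h1
      rw [← h1]
      refine Finset.prod_congr rfl fun b _ => ?_
      rw [Polynomial.map_sub, map_X, map_C]
      rfl) (by
      intro α hα
      apply hinj
      rw [Polynomial.map_sub, Polynomial.map_map, hcomp, map_C, Polynomial.map_prod]
      rw [Finset.mem_subtype] at hα
      have h1 := prod_subtype7 (· ∈ K) S hSK (fun b => (g.map (algebraMap R K)).eval b = α)
        (fun b => gF.eval b = (α : F))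
        (fun b => by rw [← hev, Subtype.coe_inj]) (fun b => (X - C b : F[X]))
      refine (hgS α hα).trans (h1.symm.trans ?_)
      refine Finset.prod_congr rfl fun b _ => ?_
      rw [Polynomial.map_sub, map_X, map_C]
      rfl) (by
      intro b hb
      rw [Finset.mem_subtype] at hb ⊢
      rw [hev]
      exact hSA b hb) (by
      intro σ hσ
      subst hK
      ext x
      have h1 : (σ : _ ≃ₐ[k] _).toAlgHom = AlgHom.id k _ := by
        apply IntermediateField.algHom_ext_of_eq_adjoin _ rfl
        intro y hy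
        exact hσ ⟨y, IntermediateField.subset_adjoin _ _ hy⟩ (Finset.mem_subtype.mpr hy)
      exact congrArg Subtype.val (congrArg (fun f => f x) h1))
  rw [Finset.mem_subtype] at hα₀
  have heva : ∀ b : F, aeval b (g.map (algebraMap R k)) = gF.eval b := by
    intro b
    rw [← eval_map_algebraMap, hmapF]
  have hevD : ∀ b : F, aeval b (D.map (algebraMap R k)) = DF.eval b := by
    intro b
    rw [← eval_map_algebraMap, hmapF]
  refine isPairTransitive_of_fibre7 hX (α₀ : F) (by rw [hevD]; exact (hmemA _).mp hα₀) ?_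
  intro x y hx hy
  rw [heva] at hx hy
  have hxS : x ∈ S := (hmemS x).mpr (by rw [hx]; exact (hmemA _).mp hα₀)
  have hyS : y ∈ S := (hmemS y).mpr (by rw [hy]; exact (hmemA _).mp hα₀)
  obtain ⟨σ, hσ, hfix⟩ := hI ⟨x, hSK x hxS⟩ (Finset.mem_subtype.mpr hxS) ⟨y, hSK y hyS⟩
    (Finset.mem_subtype.mpr hyS) (Subtype.ext (by rw [hev]; exact hx))
    (Subtype.ext (by rw [hev]; exact hy))
  obtain ⟨τ, hτ⟩ := AlgEquiv.restrictNormalHom_surjective (F := k) (K₁ := K) F σ
  have hτK : ∀ z : K, τ z = (σ z : K) := by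
    intro z
    rw [← hτ]
    exact (AlgEquiv.restrictNormal_commutes τ K z).symm
  refine ⟨τ, ?_, fun b hb hne => ?_⟩
  · have h4 := hτK ⟨x, hSK x hxS⟩
    rw [hσ] at h4
    exact h4
  · rw [aeval_comp, heva, hevD] at hb
    have hbS : b ∈ S := (hmemS b).mpr hb
    have h4 := hτK ⟨b, hSK b hbS⟩
    rw [hfix ⟨b, hSK b hbS⟩ (Finset.mem_subtype.mpr hbS) ?_] at h4
    · exact h4
    · intro h5
      apply hne
      rw [heva, ← hev ⟨b, hSK b hbS⟩, h5]

/-- **Transitivity on pairs from transitivity on the pairs of roots of `D` and a place where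
exactly one root of `D` has a pole, of order one** (finite residue field). -/
theorem isPairTransitive_of_eis7 (R k F : Type*) [CommRing R] [IsDomain R]
    [IsDiscreteValuationRing R] [Finite (IsLocalRing.ResidueField R)] [Field k] [Algebra R k]
    [IsFractionRing R k] [Field F] [Algebra k F] [IsAlgClosure k F] {g D : R[X]}
    (hgdeg : g.natDegree ≠ 0) (hg : g.Monic) {n : ℕ} (hn : D.natDegree = n + 1)
    (h1 : D.coeff (n + 1) ∈ IsLocalRing.maximalIdeal R)
    (h2 : D.coeff (n + 1) ∉ IsLocalRing.maximalIdeal R ^ 2)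
    (h3 : D.coeff n ∉ IsLocalRing.maximalIdeal R)
    (hsepκ : ((D.map (IsLocalRing.residue R)).comp (g.map (IsLocalRing.residue R))).Separable)
    (hsep : ((D.comp g).map (algebraMap R k)).Separable)
    (hX : IsPairTransitive7 k F X (D.map (algebraMap R k))) :
    IsPairTransitive7 k F (g.map (algebraMap R k)) (D.map (algebraMap R k)) := by
  refine isPairTransitive_of_galois7 R k F hgdeg hg ?_ hsep hX
  intro K _ _ _ _ _ _ S A hDA hgS hSA _
  exact exists_inertia7 (k := k) hgdeg hg hn h1 h2 h3 hsepκ S A hDA hgS hSA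

/-- **Transitivity on pairs from transitivity on the pairs of roots of `D` and a place where
exactly one root of `D` has a pole, of order one** (arbitrary residue field). -/
theorem isPairTransitive_of_cycle7 (R k F : Type*) [CommRing R] [IsDomain R]
    [IsDiscreteValuationRing R] [Field k] [Algebra R k]
    [IsFractionRing R k] [Field F] [Algebra k F] [IsAlgClosure k F] {g D : R[X]} (hg : g.Monic)
    (hgm : (g.natDegree : IsLocalRing.ResidueField R) ≠ 0) {n : ℕ} (hn : D.natDegree = n + 1)
    (h1 : D.leadingCoeff ∈ IsLocalRing.maximalIdeal R)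
    (h2 : D.leadingCoeff ∉ IsLocalRing.maximalIdeal R ^ 2)
    (h3 : D.coeff n ∉ IsLocalRing.maximalIdeal R)
    (hsepκ : ((D.map (IsLocalRing.residue R)).comp (g.map (IsLocalRing.residue R))).Separable)
    (hsep : ((D.comp g).map (algebraMap R k)).Separable)
    (hX : IsPairTransitive7 k F X (D.map (algebraMap R k))) :
    IsPairTransitive7 k F (g.map (algebraMap R k)) (D.map (algebraMap R k)) := by
  have hgdeg : g.natDegree ≠ 0 := by
    intro h
    rw [h, Nat.cast_zero] at hgm
    exact hgm rfl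
  refine isPairTransitive_of_galois7 R k F hgdeg hg ?_ hsep hX
  intro K _ _ _ _ _ _ S A hDA hgS hSA hgen
  exact exists_cycle8 (k := k) hg hgm hn h1 h2 h3 hsepκ S A hDA hgS hSA hgen

end Pool.Agent.Lib.MP_89bcae_ag
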