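import Mathlib

/-!
# The local ring of a field at a prime of degree one over `p`
-/

open Polynomial

namespace Pool.Agent.Lib.MP_89bcae_ag

set_option linter.style.haveILetI false
set_option linter.unusedSectionVars false

universe u

/-- The elements of `k` which are integral for the embedding `φ` in `ℚ_p`. -/
def padicRing7 {k : Type u} [Field k] {p : ℕ} [Fact p.Prime] (φ : k →+* ℚ_[p]) :
    ValuationSubring k where
  carrier := {x | ‖φ x‖ ≤ 1}
  mul_mem' := fun {a b} ha hb => by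
    rw [Set.mem_ofPred_eq] at ha hb ⊢
    rw [map_mul, norm_mul]
    exact mul_le_one₀ ha (norm_nonneg _) hb
  one_mem' := by rw [Set.mem_ofPred_eq, map_one, norm_one]
  add_mem' := fun {a b} ha hb => by
    rw [Set.mem_ofPred_eq] at ha hb ⊢
    rw [map_add]
    exact (Padic.nonarchimedean _ _).trans (max_le ha hb)
  zero_mem' := by rw [Set.mem_ofPred_eq, map_zero, norm_zero]; exact zero_le_one
  neg_mem' := fun {a} ha => by
    rw [Set.mem_ofPred_eq] at ha ⊢
    rwa [map_neg, norm_neg]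
  mem_or_inv_mem' := fun x => by
    change ‖φ x‖ ≤ 1 ∨ ‖φ x⁻¹‖ ≤ 1
    rcases le_total ‖φ x‖ 1 with h | h
    · exact Or.inl h
    · right
      rw [map_inv₀, norm_inv]
      exact inv_le_one_of_one_le₀ h

section

variable {k : Type u} [Field k] {p : ℕ} [Fact p.Prime] (φ : k →+* ℚ_[p])

lemma mem_padicRing7 {x : k} : x ∈ padicRing7 φ ↔ ‖φ x‖ ≤ 1 := Iff.rfl

lemma isUnit_padicRing7 (x : padicRing7 φ) (h : ‖φ x‖ = 1) : IsUnit x := by
  have hx0 : (x : k) ≠ 0 := by
    rintro h0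
    rw [h0, map_zero, norm_zero] at h
    exact zero_ne_one h
  have hxi : (x : k)⁻¹ ∈ padicRing7 φ := by
    rw [mem_padicRing7, map_inv₀, norm_inv, h, inv_one]
  exact IsUnit.of_mul_eq_one (⟨(x : k)⁻¹, hxi⟩ : padicRing7 φ) (Subtype.ext (mul_inv_cancel₀ hx0))

lemma norm_of_isUnit7 (x : padicRing7 φ) (h : IsUnit x) : ‖φ x‖ = 1 := by
  obtain ⟨u, rfl⟩ := h
  have h1 : ‖φ ((u : padicRing7 φ) : k)‖ * ‖φ ((↑u⁻¹ : padicRing7 φ) : k)‖ = 1 := by
    rw [← norm_mul, ← map_mul, ← Subring.coe_mul, Units.mul_inv]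
    simp
  have h2 : ‖φ ((u : padicRing7 φ) : k)‖ ≤ 1 := (u : padicRing7 φ).2
  have h3 : ‖φ ((↑u⁻¹ : padicRing7 φ) : k)‖ ≤ 1 := (↑u⁻¹ : padicRing7 φ).2
  refine le_antisymm h2 ?_
  rw [← h1]
  exact mul_le_of_le_one_right (norm_nonneg _) h3

lemma norm_prime7 : ‖φ ((p : padicRing7 φ) : k)‖ = (p : ℝ)⁻¹ := by
  rw [SubringClass.coe_natCast, map_natCast]
  exact Padic.norm_p

lemma irreducible_prime7 : Irreducible (p : padicRing7 φ) := by
  have hp : p.Prime := Fact.out
  have hp1 : (1 : ℝ) < p := by exact_mod_cast hp.one_lt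
  constructor
  · intro h
    have h1 := norm_of_isUnit7 φ _ h
    rw [norm_prime7] at h1
    have h2 : (p : ℝ)⁻¹ < 1 := inv_lt_one_of_one_lt₀ hp1
    exact absurd h1 h2.ne
  · intro a b hab
    by_contra hcon
    push Not at hcon
    have h1 : ‖φ (a : k)‖ * ‖φ (b : k)‖ = (p : ℝ)⁻¹ := by
      rw [← norm_mul, ← map_mul, ← Subring.coe_mul, ← hab]
      exact norm_prime7 φ
    have hlt : ∀ c : padicRing7 φ, ¬ IsUnit c → ‖φ (c : k)‖ ≤ (p : ℝ)⁻¹ := by
      intro c hc
      have h2 : ‖φ (c : k)‖ < 1 := by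
        refine lt_of_le_of_ne c.2 fun h3 => hc (isUnit_padicRing7 φ c h3)
      have h3 := (Padic.norm_le_pow_iff_norm_lt_pow_add_one (φ (c : k)) (-1)).mpr (by simpa using h2)
      rwa [zpow_neg_one] at h3
    have h2 := mul_le_mul (hlt a hcon.1) (hlt b hcon.2) (norm_nonneg _) (by positivity)
    rw [h1] at h2
    have h3 : (p : ℝ)⁻¹ * (p : ℝ)⁻¹ < (p : ℝ)⁻¹ :=
      mul_lt_of_lt_one_right (by positivity) (inv_lt_one_of_one_lt₀ hp1)
    exact absurd h2 (not_le.mpr h3)

lemma isDVR_padicRing7 : IsDiscreteValuationRing (padicRing7 φ) := by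
  have hp : p.Prime := Fact.out
  have hp0 : (p : ℝ) ≠ 0 := by exact_mod_cast hp.ne_zero
  apply IsDiscreteValuationRing.ofHasUnitMulPowIrreducibleFactorization
  refine ⟨p, irreducible_prime7 φ, fun {x} hx => ?_⟩
  have hx0 : φ (x : k) ≠ 0 := by
    rw [_root_.map_ne_zero]
    intro h
    exact hx (Subtype.ext h)
  have h1 := Padic.norm_eq_zpow_neg_valuation hx0
  have h2 : ‖φ (x : k)‖ ≤ 1 := x.2
  have h3 : 0 ≤ (φ (x : k)).valuation := by
    by_contra hlt
    rw [not_le] at hlt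
    have h4 : (1 : ℝ) < (p : ℝ) ^ (-(φ (x : k)).valuation) :=
      one_lt_zpow₀ (by exact_mod_cast hp.one_lt) (by omega)
    rw [h1] at h2
    exact absurd h4 (not_lt.mpr h2)
  obtain ⟨n, hn⟩ := Int.eq_ofNat_of_zero_le h3
  have hpk : ((p : ℕ) : k) ≠ 0 := by
    intro h
    have h4 := norm_prime7 φ
    rw [SubringClass.coe_natCast, h, map_zero, norm_zero] at h4
    exact hp0 (inv_eq_zero.mp h4.symm)
  have hnorm : ‖φ ((x : k) / (p : k) ^ n)‖ = 1 := by
    rw [map_div₀, map_pow, norm_div, norm_pow, map_natCast, Padic.norm_p, h1, hn, zpow_neg,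
      zpow_natCast, inv_pow]
    exact div_self (inv_ne_zero (pow_ne_zero _ hp0))
  let y : padicRing7 φ := ⟨(x : k) / (p : k) ^ n, by rw [mem_padicRing7, hnorm]⟩
  have hy : IsUnit y := isUnit_padicRing7 φ y hnorm
  refine ⟨n, hy.unit, Subtype.ext ?_⟩
  change (((p : padicRing7 φ) ^ n : padicRing7 φ) : k) * ((x : k) / (p : k) ^ n) = x
  rw [SubmonoidClass.coe_pow, SubringClass.coe_natCast]
  exact mul_div_cancel₀ _ (pow_ne_zero _ hpk)

/-- The residue map. -/
noncomputable def toZMod7 : padicRing7 φ →+* ZMod p :=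
  (PadicInt.toZMod (p := p)).comp
    { toFun := fun x => (⟨φ x, x.2⟩ : ℤ_[p])
      map_one' := by
        apply Subtype.ext
        change φ ((1 : padicRing7 φ) : k) = ((1 : ℤ_[p]) : ℚ_[p])
        rw [PadicInt.coe_one]
        exact map_one φ
      map_mul' := fun x y => by
        apply Subtype.ext
        exact map_mul φ _ _
      map_zero' := by
        apply Subtype.ext
        change φ ((0 : padicRing7 φ) : k) = ((0 : ℤ_[p]) : ℚ_[p])
        rw [PadicInt.coe_zero]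
        exact map_zero φ
      map_add' := fun x y => by
        apply Subtype.ext
        exact map_add φ _ _ }

end

/-- The local ring of `k` at the prime of degree one over `p` given by an embedding in `ℚ_p`. -/
theorem exists_local_ring7 {k : Type u} [Field k] {p : ℕ} [Fact p.Prime] (φ : k →+* ℚ_[p]) :
    ∃ (R : Type u) (_ : CommRing R) (_ : IsDomain R) (_ : IsDiscreteValuationRing R)
      (_ : Algebra R k) (_ : IsFractionRing R k) (π : R →+* ZMod p),
      Function.Surjective π ∧ RingHom.ker π = IsLocalRing.maximalIdeal R ∧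
      IsLocalRing.maximalIdeal R = Ideal.span {(p : R)} ∧
      ∀ z : ℤ, (z : ZMod p) ≠ 0 → IsUnit (z : R) := by
  haveI := isDVR_padicRing7 φ
  have hsurj : Function.Surjective (toZMod7 φ) := by
    intro z
    refine ⟨((z.val : ℕ) : padicRing7 φ), ?_⟩
    rw [map_natCast, ZMod.natCast_zmod_val]
  have hker : RingHom.ker (toZMod7 φ) = IsLocalRing.maximalIdeal (padicRing7 φ) :=
    IsLocalRing.eq_maximalIdeal (RingHom.ker_isMaximal_of_surjective _ hsurj)
  refine ⟨padicRing7 φ, inferInstance, inferInstance, inferInstance, inferInstance,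
    inferInstance, toZMod7 φ, hsurj, hker, (irreducible_prime7 φ).maximalIdeal_eq, ?_⟩
  intro z hz
  by_contra hu
  have h1 : (z : padicRing7 φ) ∈ IsLocalRing.maximalIdeal (padicRing7 φ) := hu
  rw [← hker, RingHom.mem_ker, map_intCast] at h1
  exact hz h1

/-- A primitive `ℓ`-th root of unity in `ℚ_p`, when `p` is `1` modulo `ℓ`. -/
theorem exists_primitiveRoot7 {ℓ p : ℕ} (hℓ : ℓ.Prime) [Fact p.Prime] (h : ℓ ∣ p - 1) :
    ∃ ζ : ℚ_[p], IsPrimitiveRoot ζ ℓ := by
  have hp : p.Prime := Fact.out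
  haveI : Fact ℓ.Prime := ⟨hℓ⟩
  -- a primitive root modulo `p`
  obtain ⟨u, hu⟩ := exists_prime_orderOf_dvd_card (G := (ZMod p)ˣ) ℓ (by
    rw [ZMod.card_units_eq_totient, Nat.totient_prime hp]
    exact h)
  have hup : (u : ZMod p) ^ ℓ = 1 := by
    rw [← Units.val_pow_eq_pow_val, ← hu, pow_orderOf_eq_one, Units.val_one]
  have hu1 : (u : ZMod p) ≠ 1 := by
    intro h1
    have h2 : u = 1 := Units.ext h1
    rw [h2, orderOf_one] at hu
    exact hℓ.one_lt.ne hu
  have hℓp : ((ℓ : ℕ) : ZMod p) ≠ 0 := by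
    intro h1
    rw [ZMod.natCast_eq_zero_iff] at h1
    have h2 := (Nat.prime_dvd_prime_iff_eq hp hℓ).mp h1
    rw [← h2] at h
    have h3 := Nat.le_of_dvd (by have := hp.two_le; omega) h
    have := hp.two_le
    omega
  set a : ℤ_[p] := (((u : ZMod p).val : ℕ) : ℤ_[p]) with ha
  have hau : PadicInt.toZMod a = (u : ZMod p) := by
    rw [ha, map_natCast, ZMod.natCast_zmod_val]
  have hzero : ∀ x : ℤ_[p], PadicInt.toZMod x = 0 ↔ ‖x‖ < 1 := by
    intro x
    rw [← RingHom.mem_ker, PadicInt.ker_toZMod, IsLocalRing.mem_maximalIdeal,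
      PadicInt.mem_nonunits]
  have hder : ‖Polynomial.aeval a (derivative (X ^ ℓ - 1 : ℤ_[p][X]))‖ = 1 := by
    refine le_antisymm (PadicInt.norm_le_one _) (not_lt.mp fun h1 => ?_)
    rw [← hzero, derivative_sub, derivative_X_pow, derivative_one, sub_zero, map_mul, map_pow,
      aeval_C, aeval_X, map_mul, map_pow, hau] at h1
    have h2 : ((ℓ : ℕ) : ZMod p) * (u : ZMod p) ^ (ℓ - 1) = 0 := by
      rw [← h1]
      congr 1
      simp
    exact mul_ne_zero hℓp (pow_ne_zero _ u.ne_zero) h2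
  obtain ⟨z, hz, hza, -⟩ := hensels_lemma (p := p) (F := (X ^ ℓ - 1 : ℤ_[p][X])) (a := a) (by
    rw [hder, one_pow, ← hzero, map_sub, map_pow, aeval_X, map_one, map_sub, map_pow, hau, hup,
      map_one, sub_self])
  have hzℓ : z ^ ℓ = 1 := by
    rw [map_sub, map_pow, aeval_X, map_one, sub_eq_zero] at hz
    exact hz
  have hz1 : z ≠ 1 := by
    intro h1
    rw [hder, ← hzero, map_sub, h1, map_one, hau, sub_eq_zero] at hza
    exact hu1 hza.symm
  refine ⟨(z : ℚ_[p]), ?_⟩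
  have h1 : orderOf z = ℓ := orderOf_eq_prime hzℓ hz1
  have h2 : IsPrimitiveRoot z ℓ := by
    rw [← h1]
    exact IsPrimitiveRoot.orderOf z
  exact h2.map_of_injective (f := PadicInt.Coe.ringHom (p := p)) Subtype.val_injective

/-- The `ℓ`-th cyclotomic field embeds in `ℚ_p`, when `p` is `1` modulo `ℓ`. -/
theorem exists_embedding7 {ℓ p : ℕ} (hℓ : ℓ.Prime) [Fact p.Prime] (h : ℓ ∣ p - 1)
    (k : Type u) [Field k] [Algebra ℚ k] [IsCyclotomicExtension {ℓ} ℚ k] :
    Nonempty (k →+* ℚ_[p]) := by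
  haveI : NeZero ℓ := ⟨hℓ.ne_zero⟩
  obtain ⟨ζ, hζ⟩ := exists_primitiveRoot7 hℓ h
  haveI : IsSplittingField ℚ k (X ^ ℓ - 1) :=
    IsCyclotomicExtension.isSplittingField_X_pow_sub_one ℓ ℚ k
  refine ⟨(IsSplittingField.lift (F := ℚ_[p]) k (X ^ ℓ - 1 : ℚ[X]) ?_).toRingHom⟩
  have h1 := X_pow_sub_one_splits hζ
  simpa using h1

end Pool.Agent.Lib.MP_89bcae_ag
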