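import Mathlib
import Pool.Agent.Lib.MP_89bcae_ag.Local
import Pool.Agent.Lib.MP_89bcae_ag.Galois
import Pool.Agent.Lib.MP_89bcae_ag.TC8
import Pool.Agent.Lib.MP_89bcae_ag.Char8
import Pool.Agent.Lib.MP_89bcae_ag.Trans8
import Pool.Agent.Lib.MP_89bcae_ag.Geometric
import Pool.Agent.Lib.MP_89bcae_ag.DefsLevelTwo

/-!
# Level two curves: local theory, action and classes
-/

section

/-!
# Points over a local field with algebraically closed residue field, at a place where two of the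
roots become equal
-/

open WeierstrassCurve WeierstrassCurve.Affine WithZero

namespace Pool.Agent.Lib.MP_89bcae_ag.LevelTwo

section Half

variable {F : Type*} [Field F] [DecidableEq F] {W : Affine F} {a b c : F}

/-- A point whose coordinates `x - a`, `x - b`, `x - c` are squares is divisible by two. -/
lemma exists_half_of_sqrt (h : Split W a b c) {X Y : F} (hP : W.Nonsingular X Y) {r₁ r₂ r₃ : F}
    (h₁ : r₁ ^ 2 = X - a) (h₂ : r₂ ^ 2 = X - b) (h₃ : r₃ ^ 2 = X - c) :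
    ∃ Q : W.Point, Q + Q = .some X Y hP := by
  have h2 := h.two
  have h12 : r₁ + r₂ ≠ 0 := by
    intro h0
    apply h.ab
    have : r₁ ^ 2 = r₂ ^ 2 := by linear_combination (r₁ - r₂) * h0
    rw [h₁, h₂] at this
    linear_combination -this
  have h13 : r₁ + r₃ ≠ 0 := by
    intro h0
    apply h.ac
    have : r₁ ^ 2 = r₃ ^ 2 := by linear_combination (r₁ - r₃) * h0
    rw [h₁, h₃] at this
    linear_combination -this
  have h23 : r₂ + r₃ ≠ 0 := by
    intro h0
    apply h.bc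
    have : r₂ ^ 2 = r₃ ^ 2 := by linear_combination (r₂ - r₃) * h0
    rw [h₂, h₃] at this
    linear_combination -this
  set x := X + r₁ * r₂ + r₁ * r₃ + r₂ * r₃ with hx
  set y := (r₁ + r₂) * (r₁ + r₃) * (r₂ + r₃) with hy
  have xa : x - a = (r₁ + r₂) * (r₁ + r₃) := by rw [hx]; linear_combination -h₁
  have xb : x - b = (r₁ + r₂) * (r₂ + r₃) := by rw [hx]; linear_combination -h₂
  have xc : x - c = (r₁ + r₃) * (r₂ + r₃) := by rw [hx]; linear_combination -h₃
  have hN : W.Nonsingular x y := h.nonsingular_of_equation (by rw [xa, xb, xc, hy]; ring)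
  have hy0 : y ≠ 0 := mul_ne_zero (mul_ne_zero h12 h13) h23
  obtain ⟨X', Y', H', e, ea, -, -⟩ := h.double_some hN hy0
  have hX : X' = X := by
    have : Split.rho a b c x y = r₁ := by
      unfold Split.rho
      rw [div_eq_iff (mul_ne_zero h2 hy0), xa, hy]
      have e1 : a - b = r₂ ^ 2 - r₁ ^ 2 := by linear_combination h₁ - h₂
      have e2 : a - c = r₃ ^ 2 - r₁ ^ 2 := by linear_combination h₁ - h₃
      rw [e1, e2]
      ring
    rw [this] at ea
    linear_combination ea + h₁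
  rcases (Point.X_eq_iff (h₁ := H') (h₂ := hP)).mp hX with h0 | h0
  · exact ⟨.some x y hN, by rw [e, h0]⟩
  · refine ⟨-(.some x y hN), ?_⟩
    rw [← neg_add, e, h0, neg_neg]

end Half

section Local

variable {K : Type*} [Field K] (w : Valuation K ℤᵐ⁰)

lemma lg_eq_zero {x : K} (h : w x = 1) : lg w x = 0 := by
  unfold lg
  rw [h, log_one]

lemma ne_zero_of_val {x : K} (h : w x = 1) : x ≠ 0 := by
  rintro rfl
  rw [map_zero] at h
  exact zero_ne_one h

/-- The collision of the roots `a` and `b`. -/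
structure Collision (a b c : K) : Prop where
  ac : w (a - c) = 1
  bc : w (b - c) = 1
  lt : w (a - b) < 1
  odd : Odd (lg w (a - b))

variable {w} {a b c : K}

lemma Collision.swap (h : Collision w a b c) : Collision w b a c where
  ac := h.bc
  bc := h.ac
  lt := by rw [Valuation.map_sub_swap]; exact h.lt
  odd := by
    have : b - a = -(a - b) := by ring
    rw [this, lg_neg]
    exact h.odd

/-- The parities of the valuations of `x - a`, `x - b`, `x - c` for a point `(x, y)`. -/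
lemma Collision.parity (h : Collision w a b c) {x y : K}
    (H : y ^ 2 = (x - a) * (x - b) * (x - c)) (hy : y ≠ 0) :
    (Even (lg w (x - a)) ↔ Even (lg w (x - b))) ∧ Even (lg w (x - c)) := by
  have hne : (x - a) * (x - b) * (x - c) ≠ 0 := by rw [← H]; exact pow_ne_zero 2 hy
  have hc : x - c ≠ 0 := right_ne_zero_of_mul hne
  have hab := left_ne_zero_of_mul hne
  have ha : x - a ≠ 0 := left_ne_zero_of_mul hab
  have hb : x - b ≠ 0 := right_ne_zero_of_mul hab
  have e := congrArg (lg w) H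
  rw [lg_pow, lg_mul w hab hc, lg_mul w ha hb] at e
  have hxb : x - b = (x - a) + (a - b) := by ring
  have hxc : x - c = (x - a) + (a - c) := by ring
  have hval : ∀ {u v : K}, w u = w v → lg w u = lg w v := fun h => by unfold lg; rw [h]
  rcases lt_trichotomy (w (x - a)) 1 with h1 | h1 | h1
  · -- `x - c` is a unit
    have h2 : w (x - c) = 1 := by
      rw [hxc, w.map_add_eq_of_lt_right (by rw [h.ac]; exact h1), h.ac]
    rw [lg_eq_zero w h2] at e ⊢
    refine ⟨?_, ⟨0, by norm_num⟩⟩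
    constructor
    · rintro ⟨m, hm⟩
      exact ⟨lg w y - m, by push_cast at e; omega⟩
    · rintro ⟨m, hm⟩
      exact ⟨lg w y - m, by push_cast at e; omega⟩
  · have h2 : w (x - b) = 1 := by
      rw [hxb, w.map_add_eq_of_lt_left (by rw [h1]; exact h.lt), h1]
    rw [lg_eq_zero w h1, lg_eq_zero w h2] at e ⊢
    refine ⟨Iff.rfl, ⟨lg w y, ?_⟩⟩
    push_cast at e
    omega
  · have h2 : w (x - b) = w (x - a) := by
      rw [hxb, w.map_add_eq_of_lt_left (lt_trans h.lt h1)]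
    have h3 : w (x - c) = w (x - a) := by
      rw [hxc, w.map_add_eq_of_lt_left (by rw [h.ac]; exact h1)]
    rw [hval h2, hval h3] at e ⊢
    refine ⟨Iff.rfl, ⟨lg w y - lg w (x - a), ?_⟩⟩
    push_cast at e
    omega

variable [DecidableEq K] {W : Affine K}

/-- The two-torsion point `(c, 0)` is divisible by two. -/
lemma Collision.half_T (h : Collision w a b c) (hW : Split W a b c)
    (hsq : ∀ x : K, x ≠ 0 → Even (lg w x) → ∃ r, r ^ 2 = x) :
    ∃ Q : W.Point, Q + Q = hW.rot.rot.T := by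
  have hca : w (c - a) = 1 := by rw [Valuation.map_sub_swap]; exact h.ac
  have hcb : w (c - b) = 1 := by rw [Valuation.map_sub_swap]; exact h.bc
  obtain ⟨r₁, h₁⟩ := hsq (c - a) (ne_zero_of_val w hca) (by rw [lg_eq_zero w hca]; exact ⟨0, rfl⟩)
  obtain ⟨r₂, h₂⟩ := hsq (c - b) (ne_zero_of_val w hcb) (by rw [lg_eq_zero w hcb]; exact ⟨0, rfl⟩)
  exact exists_half_of_sqrt (r₃ := 0) hW _ h₁ h₂ (by ring)

/-- Every point is, up to a double, the origin or the point `(a, 0)`. -/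
lemma Collision.exists_two (h : Collision w a b c) (hW : Split W a b c)
    (hsq : ∀ x : K, x ≠ 0 → Even (lg w x) → ∃ r, r ^ 2 = x) (P : W.Point) :
    ∃ T P' : W.Point, (T = 0 ∨ T = hW.T) ∧ P = T + (P' + P') := by
  by_cases hP2 : P + P = 0
  · obtain ⟨Q, hQ⟩ := h.half_T hW hsq
    rcases hW.two_torsion P hP2 with rfl | rfl | rfl | rfl
    · exact ⟨0, 0, Or.inl rfl, by simp⟩
    · exact ⟨hW.T, 0, Or.inr rfl, by simp⟩
    · refine ⟨hW.T, Q, Or.inr rfl, ?_⟩
      rw [hQ, ← hW.T_add, ← add_assoc, hW.T_add_T, zero_add]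
    · exact ⟨0, Q, Or.inl rfl, by rw [hQ, zero_add]⟩
  rcases P with _ | ⟨x, y, hP⟩
  · exact absurd (by simp [Point.zero_def]) hP2
  · have hy : y ≠ 0 := by
      rintro rfl
      apply hP2
      apply Point.add_self_of_Y_eq
      rw [hW.negY_eq]; ring
    have H := hW.eq_of_point hP
    have hpar := h.parity H hy
    have hxa := hW.ne_root hP hy
    have hxb := hW.swap12.ne_root hP hy
    have hxc := hW.rot.rot.ne_root hP hy
    by_cases hev : Even (lg w (x - a))
    · obtain ⟨r₁, h₁⟩ := hsq _ hxa hev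
      obtain ⟨r₂, h₂⟩ := hsq _ hxb (hpar.1.mp hev)
      obtain ⟨r₃, h₃⟩ := hsq _ hxc hpar.2
      obtain ⟨Q, hQ⟩ := exists_half_of_sqrt hW hP h₁ h₂ h₃
      exact ⟨0, Q, Or.inl rfl, by rw [hQ, zero_add]⟩
    · obtain ⟨hN, hadd⟩ := hW.add_T hP hy
      set x' := a + (a - b) * (a - c) / (x - a) with hx'
      set y' := -(y * ((a - b) * (a - c)) / (x - a) ^ 2) with hy'
      have hab : a - b ≠ 0 := sub_ne_zero.mpr hW.ab
      have hac : a - c ≠ 0 := sub_ne_zero.mpr hW.ac
      have hy'0 : y' ≠ 0 := by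
        rw [hy']
        exact neg_ne_zero.mpr (div_ne_zero (mul_ne_zero hy (mul_ne_zero hab hac))
          (pow_ne_zero 2 hxa))
      have H' := hW.eq_of_point hN
      have hpar' := h.parity H' hy'0
      have hxa' := hW.ne_root hN hy'0
      have hxb' := hW.swap12.ne_root hN hy'0
      have hxc' := hW.rot.rot.ne_root hN hy'0
      have hev' : Even (lg w (x' - a)) := by
        have e1 : (x' - a) * (x - a) = (a - b) * (a - c) := by
          rw [hx']
          field_simp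
          ring
        have e2 := congrArg (lg w) e1
        rw [lg_mul w hxa' hxa, lg_mul w hab hac, lg_eq_zero w h.ac, add_zero] at e2
        rw [Int.not_even_iff_odd] at hev
        have e3 : lg w (x' - a) = lg w (a - b) - lg w (x - a) := by omega
        rw [e3]
        exact h.odd.sub_odd hev
      obtain ⟨r₁, h₁⟩ := hsq _ hxa' hev'
      obtain ⟨r₂, h₂⟩ := hsq _ hxb' (hpar'.1.mp hev')
      obtain ⟨r₃, h₃⟩ := hsq _ hxc' hpar'.2
      obtain ⟨Q, hQ⟩ := exists_half_of_sqrt hW hN h₁ h₂ h₃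
      refine ⟨hW.T, Q, Or.inr rfl, ?_⟩
      rw [hQ, ← hadd, add_comm, add_assoc, hW.T_add_T, add_zero]

/-- Every point is, up to four times a point, the origin or the point `(a, 0)`. -/
lemma Collision.exists_four (h : Collision w a b c) (hW : Split W a b c)
    (hsq : ∀ x : K, x ≠ 0 → Even (lg w x) → ∃ r, r ^ 2 = x) (P : W.Point) :
    ∃ T P' : W.Point, (T = 0 ∨ T = hW.T) ∧ P = T + 4 • P' := by
  obtain ⟨T, P', hT, rfl⟩ := h.exists_two hW hsq P
  obtain ⟨T', P'', hT', rfl⟩ := h.exists_two hW hsq P'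
  have hT2 : T' + T' = 0 := by
    rcases hT' with rfl | rfl
    · exact add_zero _
    · exact hW.T_add_T
  refine ⟨T, P'', hT, ?_⟩
  have : T' + (P'' + P'') + (T' + (P'' + P'')) = (T' + T') + 4 • P'' := by
    rw [show (4 : ℕ) = 2 + 2 from rfl, add_smul, two_nsmul]
    abel
  rw [this, hT2, zero_add]

end Local

end Pool.Agent.Lib.MP_89bcae_ag.LevelTwo

end

section

/-!
# Congruences at a place of `F(t)` and the action on square roots of residues
-/

open Polynomial

open scoped Classical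

namespace Pool.Agent.Lib.MP_89bcae_ag.LevelTwo

set_option linter.unusedSectionVars false

/-- The automorphism `U` moves the square roots of `c`. -/
def Moves {F : Type*} [Field F] (U : F → F) (c : F) : Prop := ∀ s : F, s ^ 2 = c → U s ≠ s

section Cong

variable {F K : Type*} [Field F] [Field K] [Algebra F[X] K]
  (w : Valuation K (WithZero (Multiplicative ℤ))) (α : F)

/-- The valuation `w` lies over the place `t = α`. -/
structure IsOver : Prop where
  unif : w (algebraMap F[X] K (X - C α)) = WithZero.exp (-1 : ℤ)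
  unit : ∀ p : F[X], p.eval α ≠ 0 → w (algebraMap F[X] K p) = 1

/-- `x` is congruent to the constant `c`. -/
def Cg (x : K) (c : F) : Prop := w (x - algebraMap F[X] K (C c)) < 1

variable {w α}

lemma IsOver.unif_lt (h : IsOver w α) : w (algebraMap F[X] K (X - C α)) < 1 := by
  rw [h.unif, ← WithZero.exp_zero, WithZero.exp_lt_exp]; norm_num

lemma IsOver.const_le (h : IsOver w α) (c : F) : w (algebraMap F[X] K (C c)) ≤ 1 := by
  by_cases hc : c = 0
  · rw [hc, map_zero, map_zero, map_zero]; exact zero_le_one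
  · rw [h.unit _ (by rw [eval_C]; exact hc)]

lemma IsOver.const_one (h : IsOver w α) {c : F} (hc : c ≠ 0) : w (algebraMap F[X] K (C c)) = 1 :=
  h.unit _ (by rw [eval_C]; exact hc)

lemma IsOver.cg_const (c : F) : Cg w (algebraMap F[X] K (C c)) c := by
  unfold Cg
  rw [sub_self, map_zero]
  exact zero_lt_one

lemma Cg.le (h : IsOver w α) {x : K} {c : F} (hx : Cg w x c) : w x ≤ 1 := by
  have : x = (x - algebraMap F[X] K (C c)) + algebraMap F[X] K (C c) := by ring
  rw [this]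
  apply le_trans (w.map_add _ _)
  exact max_le (le_of_lt hx) (h.const_le c)

lemma Cg.one (h : IsOver w α) {x : K} {c : F} (hx : Cg w x c) (hc : c ≠ 0) : w x = 1 := by
  have h1 : x = algebraMap F[X] K (C c) + (x - algebraMap F[X] K (C c)) := by ring
  rw [h1, w.map_add_eq_of_lt_left, h.const_one hc]
  rw [h.const_one hc]
  exact hx

lemma Cg.add {x y : K} {c d : F} (hx : Cg w x c) (hy : Cg w y d) : Cg w (x + y) (c + d) := by
  unfold Cg at *
  have : x + y - algebraMap F[X] K (C (c + d)) = (x - algebraMap F[X] K (C c)) +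
      (y - algebraMap F[X] K (C d)) := by rw [C_add, map_add]; ring
  rw [this]
  exact lt_of_le_of_lt (w.map_add _ _) (max_lt hx hy)

lemma Cg.neg {x : K} {c : F} (hx : Cg w x c) : Cg w (-x) (-c) := by
  unfold Cg at *
  have : -x - algebraMap F[X] K (C (-c)) = -(x - algebraMap F[X] K (C c)) := by
    rw [C_neg, map_neg]; ring
  rw [this, w.map_neg]
  exact hx

lemma Cg.sub {x y : K} {c d : F} (hx : Cg w x c) (hy : Cg w y d) : Cg w (x - y) (c - d) := by
  rw [sub_eq_add_neg, sub_eq_add_neg]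
  exact hx.add hy.neg

lemma Cg.mul (h : IsOver w α) {x y : K} {c d : F} (hx : Cg w x c) (hy : Cg w y d) :
    Cg w (x * y) (c * d) := by
  have hyl := hy.le h
  unfold Cg at *
  have : x * y - algebraMap F[X] K (C (c * d)) = (x - algebraMap F[X] K (C c)) * y +
      algebraMap F[X] K (C c) * (y - algebraMap F[X] K (C d)) := by rw [C_mul, map_mul]; ring
  rw [this]
  apply lt_of_le_of_lt (w.map_add _ _)
  apply max_lt
  · rw [map_mul]
    exact lt_of_le_of_lt (mul_le_mul_right hyl _) (by rwa [mul_one])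
  · rw [map_mul]
    exact lt_of_le_of_lt (mul_le_mul_left (h.const_le c) _) (by rwa [one_mul])

lemma Cg.prod (h : IsOver w α) {ι : Type*} (s : Finset ι) {x : ι → K} {c : ι → F}
    (hx : ∀ i ∈ s, Cg w (x i) (c i)) : Cg w (∏ i ∈ s, x i) (∏ i ∈ s, c i) := by
  induction s using Finset.induction_on with
  | empty =>
    rw [Finset.prod_empty, Finset.prod_empty]
    have := IsOver.cg_const (K := K) (w := w) (1 : F)
    rwa [C_1, map_one] at this
  | insert a s ha ih =>
    rw [Finset.prod_insert ha, Finset.prod_insert ha]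
    exact (hx a (Finset.mem_insert_self a s)).mul h
      (ih fun i hi => hx i (Finset.mem_insert_of_mem hi))

lemma Cg.unique (h : IsOver w α) {x : K} {c d : F} (hx : Cg w x c) (hy : Cg w x d) : c = d := by
  by_contra hne
  have h1 := hx.sub hy
  rw [sub_self] at h1
  have h2 := h1.one h (sub_ne_zero.mpr hne)
  rw [map_zero] at h2
  exact zero_ne_one h2

lemma Cg.poly (h : IsOver w α) (p : F[X]) : Cg w (algebraMap F[X] K p) (p.eval α) := by
  unfold Cg
  rw [← map_sub]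
  obtain ⟨q, hq⟩ : (X - C α) ∣ (p - C (p.eval α)) := by
    rw [dvd_iff_isRoot]; simp
  have hle : ∀ q : F[X], w (algebraMap F[X] K q) ≤ 1 := by
    intro q
    induction q using Polynomial.induction_on' with
    | add p q hp hq =>
      rw [map_add]
      exact le_trans (w.map_add _ _) (max_le hp hq)
    | monomial n a =>
      rw [← C_mul_X_pow_eq_monomial, map_mul, map_mul, map_pow, map_pow]
      have hX : w (algebraMap F[X] K X) ≤ 1 := by
        have : (X : F[X]) = (X - C α) + C α := by ring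
        rw [this, map_add]
        exact le_trans (w.map_add _ _) (max_le h.unif_lt.le (h.const_le α))
      exact mul_le_one' (h.const_le a) (pow_le_one' hX n)
  rw [hq, map_mul, map_mul]
  exact lt_of_le_of_lt (mul_le_mul_right (hle q) _) (by rw [mul_one]; exact h.unif_lt)

/-- Reading off from a unit of `K` whether an automorphism moves the square roots of its residue. -/
lemma moves_iff_aux [IsAlgClosed F] (h : IsOver w α) (h2 : (2 : F) ≠ 0) {τ : F →+* F}
    {γK : K ≃+* K} (hγK : ∀ a : F, γK (algebraMap F[X] K (C a)) = algebraMap F[X] K (C (τ a)))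
    (hwγ : ∀ x, w (γK x) = w x) {m : K} {c : F} (hc : c ≠ 0) (hm : Cg w (m ^ 2) c) :
    (γK m = m → ¬ Moves τ c) ∧ (γK m = -m → Moves τ c) := by
  obtain ⟨s₀, hs₀⟩ := IsAlgClosed.exists_pow_nat_eq c (n := 2) (by norm_num)
  have hs0 : s₀ ≠ 0 := by
    rintro rfl
    apply hc
    rw [← hs₀]; ring
  -- choose the sign of the square root
  obtain ⟨s, hs, hms⟩ : ∃ s : F, s ^ 2 = c ∧ Cg w m s := by
    have h1 : w ((m - algebraMap F[X] K (C s₀)) * (m + algebraMap F[X] K (C s₀))) < 1 := by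
      have : (m - algebraMap F[X] K (C s₀)) * (m + algebraMap F[X] K (C s₀)) =
          m ^ 2 - algebraMap F[X] K (C c) := by
        rw [← hs₀, C_pow, map_pow]; ring
      rw [this]
      exact hm
    by_cases h3 : Cg w m s₀
    · exact ⟨s₀, hs₀, h3⟩
    · refine ⟨-s₀, by rw [neg_sq, hs₀], ?_⟩
      unfold Cg at h3 ⊢
      rw [C_neg, map_neg, sub_neg_eq_add]
      rw [map_mul] at h1
      push Not at h3
      by_contra h4
      push Not at h4
      exact absurd (le_trans (by rw [one_mul]) (mul_le_mul' h3 h4)) (not_le.mpr h1)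
  have hs0' : s ≠ 0 := by
    rintro rfl
    apply hc
    rw [← hs]; ring
  have hγm : Cg w (γK m) (τ s) := by
    unfold Cg
    rw [← hγK, ← map_sub, hwγ]
    exact hms
  constructor
  · intro h3 h4
    rw [h3] at hγm
    exact h4 s hs (hγm.unique h hms)
  · intro h3 s' hs' h4
    rw [h3] at hγm
    have h5 : τ s = -s := hγm.unique h hms.neg
    have h6 : (s' - s) * (s' + s) = 0 := by linear_combination hs' - hs
    have h7 : τ s' = -s' := by
      rcases mul_eq_zero.mp h6 with h | h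
      · rw [sub_eq_zero.mp h, h5]
      · have : s' = -s := by linear_combination h
        rw [this, map_neg, h5]
    rw [h7] at h4
    have h8 : 2 * s' = 0 := by linear_combination -h4
    rcases mul_eq_zero.mp h8 with h | h
    · exact h2 h
    · rw [h] at hs'
      apply hc
      rw [← hs']; ring

end Cong

section MovesLemmas

variable {F : Type*} [Field F] [IsAlgClosed F] {τ : F →+* F}

lemma moves_iff_neg (h2 : (2 : F) ≠ 0) {c : F} (hc : c ≠ 0) (hτ : τ c = c) {s : F}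
    (hs : s ^ 2 = c) : (Moves τ c ↔ τ s = -s) ∧ (¬ Moves τ c ↔ τ s = s) := by
  have hs0 : s ≠ 0 := by
    rintro rfl
    apply hc
    rw [← hs]; ring
  have hne : -s ≠ s := by
    intro h0
    have : 2 * s = 0 := by linear_combination -h0
    rcases mul_eq_zero.mp this with h | h
    · exact h2 h
    · exact hs0 h
  have hor : τ s = s ∨ τ s = -s := by
    have h1 : (τ s) ^ 2 = s ^ 2 := by rw [← map_pow, hs, hτ]
    have h3 : (τ s - s) * (τ s + s) = 0 := by linear_combination h1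
    rcases mul_eq_zero.mp h3 with h | h
    · exact Or.inl (sub_eq_zero.mp h)
    · exact Or.inr (by linear_combination h)
  have hall : τ s = -s → Moves τ c := by
    intro h3 s' hs' h4
    have h6 : (s' - s) * (s' + s) = 0 := by linear_combination hs' - hs
    rcases mul_eq_zero.mp h6 with h | h
    · rw [sub_eq_zero.mp h, h3] at h4
      exact hne h4
    · have : s' = -s := by linear_combination h
      rw [this, map_neg, h3, neg_neg] at h4
      exact hne h4.symm
  have hno : Moves τ c → τ s = -s := fun h => hor.resolve_left (h s hs)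
  refine ⟨⟨hno, hall⟩, ⟨fun h => hor.resolve_right (fun h3 => h (hall h3)), fun h h3 => ?_⟩⟩
  exact h3 s hs h

/-- The parity relation. -/
lemma moves_parity (h2 : (2 : F) ≠ 0) {c₁ c₂ c₃ E : F} (h₁ : c₁ ≠ 0) (h₂ : c₂ ≠ 0) (h₃ : c₃ ≠ 0)
    (t₁ : τ c₁ = c₁) (t₂ : τ c₂ = c₂) (t₃ : τ c₃ = c₃) (hE : c₁ * c₂ * c₃ = E ^ 2)
    (hτE : τ E = E) : Moves τ c₁ ↔ ¬ (Moves τ c₂ ↔ Moves τ c₃) := by
  obtain ⟨s₁, hs₁⟩ := IsAlgClosed.exists_pow_nat_eq c₁ (n := 2) (by norm_num)
  obtain ⟨s₂, hs₂⟩ := IsAlgClosed.exists_pow_nat_eq c₂ (n := 2) (by norm_num)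
  obtain ⟨s₃, hs₃⟩ := IsAlgClosed.exists_pow_nat_eq c₃ (n := 2) (by norm_num)
  have a₁ := moves_iff_neg h2 h₁ t₁ hs₁
  have a₂ := moves_iff_neg h2 h₂ t₂ hs₂
  have a₃ := moves_iff_neg h2 h₃ t₃ hs₃
  have hfix : τ (s₁ * s₂ * s₃) = s₁ * s₂ * s₃ := by
    have h4 : (s₁ * s₂ * s₃ - E) * (s₁ * s₂ * s₃ + E) = 0 := by
      have : (s₁ * s₂ * s₃) ^ 2 = E ^ 2 := by
        rw [mul_pow, mul_pow, hs₁, hs₂, hs₃, hE]
      linear_combination this
    rcases mul_eq_zero.mp h4 with h | h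
    · rw [sub_eq_zero.mp h, hτE]
    · have : s₁ * s₂ * s₃ = -E := by linear_combination h
      rw [this, map_neg, hτE]
  have hne : s₁ * s₂ * s₃ ≠ 0 := by
    intro h0
    have : (s₁ * s₂ * s₃) ^ 2 = 0 := by rw [h0]; ring
    rw [mul_pow, mul_pow, hs₁, hs₂, hs₃] at this
    exact mul_ne_zero (mul_ne_zero h₁ h₂) h₃ this
  have hneg : -(s₁ * s₂ * s₃) ≠ s₁ * s₂ * s₃ := by
    intro h0
    have : 2 * (s₁ * s₂ * s₃) = 0 := by linear_combination -h0
    rcases mul_eq_zero.mp this with h | h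
    · exact h2 h
    · exact hne h
  rw [map_mul, map_mul] at hfix
  by_cases m₁ : Moves τ c₁ <;> by_cases m₂ : Moves τ c₂ <;> by_cases m₃ : Moves τ c₃
  · exfalso
    rw [a₁.1.mp m₁, a₂.1.mp m₂, a₃.1.mp m₃] at hfix
    exact hneg (by linear_combination hfix)
  · simp [m₁, m₂, m₃]
  · simp [m₁, m₂, m₃]
  · exfalso
    rw [a₁.1.mp m₁, a₂.2.mp m₂, a₃.2.mp m₃] at hfix
    exact hneg (by linear_combination hfix)
  · simp [m₁, m₂, m₃]
  · exfalso
    rw [a₁.2.mp m₁, a₂.1.mp m₂, a₃.2.mp m₃] at hfix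
    exact hneg (by linear_combination hfix)
  · exfalso
    rw [a₁.2.mp m₁, a₂.2.mp m₂, a₃.1.mp m₃] at hfix
    exact hneg (by linear_combination hfix)
  · simp [m₁, m₂, m₃]

end MovesLemmas

end Pool.Agent.Lib.MP_89bcae_ag.LevelTwo

end

section

/-!
# The action of the automorphisms of `Ω` over `k(t)` on cocycles; lifts compatible with a place
-/

open Polynomial WeierstrassCurve WeierstrassCurve.Affine IsDedekindDomain

open scoped Classical

namespace Pool.Agent.Lib.MP_89bcae_ag.LevelTwo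

set_option linter.unusedSectionVars false

section Closure

variable {R F Ω : Type*} [CommRing R] [Field F] [Field Ω] [Algebra R F] [Algebra R Ω]
  [Algebra F Ω] [IsScalarTower R F Ω] {W : Affine R}

lemma TC.add {c c' : ℕ → (Ω ≃ₐ[F] Ω) → (W.baseChange Ω).Point} (hc : TC W c) (hc' : TC W c') :
    TC W (c + c') where
  zero g := by
    change c 0 g + c' 0 g = 0
    rw [hc.zero, hc'.zero, add_zero]
  two n g := by
    change 2 • (c (n + 1) g + c' (n + 1) g) = c n g + c' n g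
    rw [smul_add, hc.two, hc'.two]
  mul n g h := by
    change c n (g * h) + c' n (g * h) = (c n g + c' n g) + Point.map (W' := W) _ (c n h + c' n h)
    rw [hc.mul, hc'.mul, map_add]
    abel
  loc n := (hc.loc n).add (hc'.loc n)

lemma TC.neg {c : ℕ → (Ω ≃ₐ[F] Ω) → (W.baseChange Ω).Point} (hc : TC W c) : TC W (-c) where
  zero g := by
    change -c 0 g = 0
    rw [hc.zero, neg_zero]
  two n g := by
    change 2 • (-c (n + 1) g) = -c n g
    rw [smul_neg, hc.two]
  mul n g h := by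
    change -c n (g * h) = -c n g + Point.map (W' := W) _ (-c n h)
    rw [hc.mul, map_neg]
    abel
  loc n := (hc.loc n).neg

lemma TC.zero_tc : TC W (0 : ℕ → (Ω ≃ₐ[F] Ω) → (W.baseChange Ω).Point) where
  zero g := rfl
  two n g := smul_zero _
  mul n g h := by
    change (0 : (W.baseChange Ω).Point) = 0 + Point.map (W' := W) _ 0
    rw [map_zero, add_zero]
  loc n := IsLocallyConstant.const 0

end Closure

section Act

variable {k F L Ω : Type*} [Field k] [Field F] [Algebra k F] [Algebra.IsAlgebraic k F]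
  [IsAlgClosed F] [Field L] [Field Ω]
  [Algebra F[X] L] [IsFractionRing F[X] L] [Algebra L Ω] [Algebra F[X] Ω] [IsScalarTower F[X] L Ω]
  [Algebra k[X] L] [Algebra k[X] Ω] [IsScalarTower k[X] L Ω]
  [IsGalois L Ω] [IsSepClosed Ω] [IsSepClosure L Ω]

variable (hk : ∀ p : k[X], algebraMap k[X] L p = algebraMap F[X] L (p.map (algebraMap k F)))

/-- Conjugation of an element of the Galois group by an automorphism. -/
noncomputable def cj (γ : Ω ≃ₐ[k[X]] Ω) (σ : Ω ≃ₐ[L] Ω) : Ω ≃ₐ[L] Ω :=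
  Classical.choose (exists_conj hk γ σ)

lemma cj_spec (γ : Ω ≃ₐ[k[X]] Ω) (σ : Ω ≃ₐ[L] Ω) (x : Ω) : γ (cj hk γ σ x) = σ (γ x) :=
  Classical.choose_spec (exists_conj hk γ σ) x

lemma cj_unique {γ : Ω ≃ₐ[k[X]] Ω} {σ σ' : Ω ≃ₐ[L] Ω} (h : ∀ x, γ (σ' x) = σ (γ x)) :
    cj hk γ σ = σ' := by
  ext x
  apply γ.injective
  rw [cj_spec, h]

lemma cj_mul (γ : Ω ≃ₐ[k[X]] Ω) (σ σ' : Ω ≃ₐ[L] Ω) :
    cj hk γ (σ * σ') = cj hk γ σ * cj hk γ σ' := by
  apply cj_unique
  intro x
  rw [AlgEquiv.mul_apply, cj_spec, cj_spec, AlgEquiv.mul_apply]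

lemma cj_one (σ : Ω ≃ₐ[L] Ω) : cj hk 1 σ = σ := by
  apply cj_unique
  intro x
  rfl

lemma cj_comp (γ δ : Ω ≃ₐ[k[X]] Ω) (σ : Ω ≃ₐ[L] Ω) : cj hk (γ * δ) σ = cj hk δ (cj hk γ σ) := by
  apply cj_unique
  intro x
  rw [AlgEquiv.mul_apply, cj_spec, cj_spec, AlgEquiv.mul_apply]

variable (W : Affine k[X])

/-- The action of an automorphism on functions on the Galois group. -/
noncomputable def act7 (γ : Ω ≃ₐ[k[X]] Ω) :
    AddMonoid.End (ℕ → (Ω ≃ₐ[L] Ω) → (W.baseChange Ω).Point) where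
  toFun c n σ := Point.map (W' := W) (γ : Ω →ₐ[k[X]] Ω) (c n (cj hk γ σ))
  map_zero' := by
    funext n σ
    exact map_zero (Point.map (W' := W) (γ : Ω →ₐ[k[X]] Ω))
  map_add' c c' := by
    funext n σ
    exact map_add (Point.map (W' := W) (γ : Ω →ₐ[k[X]] Ω)) _ _

lemma act7_apply (γ : Ω ≃ₐ[k[X]] Ω) (c : ℕ → (Ω ≃ₐ[L] Ω) → (W.baseChange Ω).Point) (n : ℕ)
    (σ : Ω ≃ₐ[L] Ω) :
    act7 hk W γ c n σ = Point.map (W' := W) (γ : Ω →ₐ[k[X]] Ω) (c n (cj hk γ σ)) := rfl

/-- The action of the group of automorphisms. -/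
noncomputable def rho7 : (Ω ≃ₐ[k[X]] Ω) →*
    AddMonoid.End (ℕ → (Ω ≃ₐ[L] Ω) → (W.baseChange Ω).Point) where
  toFun := act7 hk W
  map_one' := by
    apply AddMonoidHom.ext
    intro c
    funext n σ
    change Point.map (W' := W) ((1 : Ω ≃ₐ[k[X]] Ω) : Ω →ₐ[k[X]] Ω) (c n (cj hk 1 σ)) = c n σ
    rw [cj_one]
    rcases c n σ with _ | ⟨x, y, h⟩
    · rfl
    · rfl
  map_mul' γ δ := by
    apply AddMonoidHom.ext
    intro c
    funext n σ
    change Point.map (W' := W) ((γ * δ : Ω ≃ₐ[k[X]] Ω) : Ω →ₐ[k[X]] Ω) (c n (cj hk (γ * δ) σ)) =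
      Point.map (W' := W) (γ : Ω →ₐ[k[X]] Ω) (Point.map (W' := W) (δ : Ω →ₐ[k[X]] Ω)
        (c n (cj hk δ (cj hk γ σ))))
    rw [cj_comp]
    rcases c n (cj hk δ (cj hk γ σ)) with _ | ⟨x, y, h⟩
    · rfl
    · rfl

lemma rho7_apply (γ : Ω ≃ₐ[k[X]] Ω) (c : ℕ → (Ω ≃ₐ[L] Ω) → (W.baseChange Ω).Point) (n : ℕ)
    (σ : Ω ≃ₐ[L] Ω) :
    rho7 hk W γ c n σ = Point.map (W' := W) (γ : Ω →ₐ[k[X]] Ω) (c n (cj hk γ σ)) := rfl

variable {W}

lemma gamma_sigma_map (γ : Ω ≃ₐ[k[X]] Ω) (σ : Ω ≃ₐ[L] Ω) (Q : (W.baseChange Ω).Point) :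
    Point.map (W' := W) (γ : Ω →ₐ[k[X]] Ω) (Point.map (W' := W) (cj hk γ σ : Ω →ₐ[L] Ω) Q) =
      Point.map (W' := W) (σ : Ω →ₐ[L] Ω) (Point.map (W' := W) (γ : Ω →ₐ[k[X]] Ω) Q) := by
  rcases Q with _ | ⟨x, y, h⟩
  · rfl
  · rw [Point.map_some, Point.map_some, Point.map_some, Point.map_some]
    simp only [Point.some.injEq]
    exact ⟨cj_spec hk γ σ x, cj_spec hk γ σ y⟩

lemma TC.rho7 {c : ℕ → (Ω ≃ₐ[L] Ω) → (W.baseChange Ω).Point} (hc : TC W c)
    (γ : Ω ≃ₐ[k[X]] Ω) : TC W (rho7 hk W γ c) where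
  zero g := by
    rw [rho7_apply, hc.zero, map_zero]
  two n g := by
    rw [rho7_apply, rho7_apply, ← map_nsmul, hc.two]
  mul n g h := by
    rw [rho7_apply, rho7_apply, rho7_apply, cj_mul, hc.mul, map_add, gamma_sigma_map]
  loc n := by
    have h1 := isLocallyConstant_comp8 (K := L) (M := Ω) (γ : Ω →+* Ω) (cj hk γ)
      (fun σ x => cj_spec hk γ σ x) (hc.loc n)
    exact h1.comp (fun Q => Point.map (W' := W) (γ : Ω →ₐ[k[X]] Ω) Q)

/-- Inner automorphisms act trivially on classes. -/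
lemma rho7_inner {c : ℕ → (Ω ≃ₐ[L] Ω) → (W.baseChange Ω).Point} (hc : TC W c)
    {γ : Ω ≃ₐ[k[X]] Ω} {σ₀ : Ω ≃ₐ[L] Ω} (h : ∀ x, γ x = σ₀ x) (n : ℕ) (σ : Ω ≃ₐ[L] Ω) :
    rho7 hk W γ c n σ - c n σ = Point.map (W' := W) (σ : Ω →ₐ[L] Ω) (c n σ₀) - c n σ₀ := by
  have h1 : cj hk γ σ = σ₀⁻¹ * (σ * σ₀) := by
    apply cj_unique
    intro x
    rw [h, h, AlgEquiv.mul_apply, AlgEquiv.mul_apply, ← AlgEquiv.mul_apply σ₀ σ₀⁻¹, mul_inv_cancel]
    rfl
  have h2 : ∀ Q : (W.baseChange Ω).Point, Point.map (W' := W) (γ : Ω →ₐ[k[X]] Ω) Q =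
      Point.map (W' := W) (σ₀ : Ω →ₐ[L] Ω) Q := by
    intro Q
    rcases Q with _ | ⟨x, y, hxy⟩
    · rfl
    · rw [Point.map_some, Point.map_some]
      simp only [Point.some.injEq]
      exact ⟨h x, h y⟩
  have h3 := hc.mul n σ₀ (cj hk γ σ)
  rw [h1, mul_inv_cancel_left, hc.mul n σ σ₀] at h3
  rw [rho7_apply, h2, h1]
  rw [sub_eq_sub_iff_add_eq_add, add_comm, ← h3]
  abel

end Act


section Alg

variable {k F : Type*} [Field k] [Field F] [Algebra k F] [Algebra.IsAlgebraic k F]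

lemma exists_pow_fix_one (τ : F ≃ₐ[k] F) (a : F) : ∃ M > 0, (τ ^ M) a = a := by
  have hfin : ((minpoly k a).rootSet F).Finite := Polynomial.rootSet_finite _ _
  have hne : minpoly k a ≠ 0 := minpoly.ne_zero (Algebra.IsIntegral.isIntegral a)
  have hmem : ∀ n : ℕ, (τ ^ n) a ∈ (minpoly k a).rootSet F := by
    intro n
    rw [Polynomial.mem_rootSet]
    refine ⟨hne, ?_⟩
    have h1 := Polynomial.aeval_algHom_apply ((τ ^ n : F ≃ₐ[k] F) : F →ₐ[k] F) a (minpoly k a)
    rw [minpoly.aeval, map_zero] at h1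
    exact h1
  obtain ⟨i, j, hij, h⟩ := Set.Finite.exists_lt_map_eq_of_forall_mem hmem hfin
  refine ⟨j - i, Nat.sub_pos_of_lt hij, ?_⟩
  apply (τ ^ i).injective
  rw [← AlgEquiv.mul_apply, ← pow_add, Nat.add_sub_cancel' hij.le]
  exact h.symm

lemma exists_pow_fix (τ : F ≃ₐ[k] F) (s : Finset F) : ∃ M > 0, ∀ a ∈ s, (τ ^ M) a = a := by
  induction s using Finset.induction_on with
  | empty => exact ⟨1, one_pos, by simp⟩
  | insert a s ha ih =>
    obtain ⟨M, hM, h⟩ := ih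
    obtain ⟨M', hM', h'⟩ := exists_pow_fix_one τ a
    have hfix : ∀ (σ : F ≃ₐ[k] F) (x : F) (n : ℕ), σ x = x → (σ ^ n) x = x := by
      intro σ x n hσ
      induction n with
      | zero => simp
      | succ n ih => rw [pow_succ, AlgEquiv.mul_apply, hσ, ih]
    refine ⟨M * M', Nat.mul_pos hM hM', fun b hb => ?_⟩
    rcases Finset.mem_insert.mp hb with rfl | hb
    · rw [mul_comm, pow_mul]
      exact hfix _ _ _ h'
    · rw [pow_mul]
      exact hfix _ _ _ (h b hb)

end Alg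

section

variable {k F L Ω : Type*} [Field k] [Field F] [Algebra k F] [Algebra.IsAlgebraic k F]
  [IsAlgClosed F] [Field L] [Field Ω]
  [Algebra F[X] L] [IsFractionRing F[X] L] [Algebra L Ω] [Algebra F[X] Ω] [IsScalarTower F[X] L Ω]
  [Algebra k[X] L] [Algebra k[X] Ω] [IsScalarTower k[X] L Ω]
  [IsGalois L Ω] [IsSepClosed Ω] [IsSepClosure L Ω]

variable (hk : ∀ p : k[X], algebraMap k[X] L p = algebraMap F[X] L (p.map (algebraMap k F)))

/-- The restriction of an automorphism to `F`. -/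
noncomputable def resF (γ : Ω ≃ₐ[k[X]] Ω) : F ≃ₐ[k] F :=
  Classical.choose (exists_restrict_aut hk γ)

lemma resF_spec (γ : Ω ≃ₐ[k[X]] Ω) (p : F[X]) :
    γ (algebraMap F[X] Ω p) = algebraMap F[X] Ω (p.map ((resF hk γ : F ≃ₐ[k] F) : F →+* F)) :=
  Classical.choose_spec (exists_restrict_aut hk γ) p

variable (L Ω) in
include L in
lemma const_injective {a b : F} (h : algebraMap F[X] Ω (C a) = algebraMap F[X] Ω (C b)) :
    a = b :=
  C_injective (algebraMap_Om_injective L h)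

lemma resF_unique {γ : Ω ≃ₐ[k[X]] Ω} {τ : F ≃ₐ[k] F}
    (h : ∀ a : F, γ (algebraMap F[X] Ω (C a)) = algebraMap F[X] Ω (C (τ a))) :
    resF hk γ = τ := by
  ext a
  apply const_injective L Ω
  rw [← h, resF_spec hk, map_C]
  rfl

lemma resF_mul (γ δ : Ω ≃ₐ[k[X]] Ω) : resF hk (γ * δ) = resF hk γ * resF hk δ := by
  apply resF_unique
  intro a
  rw [AlgEquiv.mul_apply, resF_spec hk δ, map_C, resF_spec hk γ, map_C]
  rfl

lemma resF_one : resF hk (1 : Ω ≃ₐ[k[X]] Ω) = 1 := by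
  apply resF_unique
  intro a
  rfl

lemma resF_pow (γ : Ω ≃ₐ[k[X]] Ω) (n : ℕ) : resF hk (γ ^ n) = resF hk γ ^ n := by
  induction n with
  | zero => rw [pow_zero, pow_zero, resF_one]
  | succ n ih => rw [pow_succ, pow_succ, resF_mul, ih]

lemma resF_inv (γ : Ω ≃ₐ[k[X]] Ω) : resF hk γ⁻¹ = (resF hk γ)⁻¹ := by
  rw [eq_inv_iff_mul_eq_one, ← resF_mul, inv_mul_cancel, resF_one]

/-- An automorphism fixing `F` fixes `L`. -/
lemma exists_inner {γ : Ω ≃ₐ[k[X]] Ω} (h : resF hk γ = 1) :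
    ∃ σ : Ω ≃ₐ[L] Ω, ∀ x, γ x = σ x := by
  have h1 : ∀ p : F[X], γ (algebraMap F[X] Ω p) = algebraMap F[X] Ω p := by
    intro p
    rw [resF_spec hk, h]
    congr 1
    exact Polynomial.map_id
  refine ⟨AlgEquiv.ofRingEquiv (f := γ.toRingEquiv) ?_, fun x => rfl⟩
  intro y
  obtain ⟨p, q, hq, rfl⟩ := IsFractionRing.div_surjective (A := F[X]) y
  change γ (algebraMap L Ω (algebraMap F[X] L p / algebraMap F[X] L q)) =
    algebraMap L Ω (algebraMap F[X] L p / algebraMap F[X] L q)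
  rw [map_div₀, map_div₀, ← IsScalarTower.algebraMap_apply, ← IsScalarTower.algebraMap_apply,
    h1, h1]

end

section

variable {k F : Type*} [Field k] [Field F] [Algebra k F]

lemma map_fix (τ : F ≃ₐ[k] F) (p : k[X]) :
    (p.map (algebraMap k F)).map (τ : F →+* F) = p.map (algebraMap k F) := by
  rw [Polynomial.map_map]
  congr 1
  ext x
  exact τ.commutes x

end

section Restrict

variable {L Ω M : Type*} [Field L] [Field Ω] [Field M] [Algebra L Ω] [Algebra L M] [Normal L Ω]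

/-- Two embeddings of a normal extension differ by an automorphism. -/
lemma exists_alg_restrict (j h : Ω →ₐ[L] M) : ∃ σ : Ω ≃ₐ[L] Ω, ∀ x, j (σ x) = h x := by
  let _ : Algebra Ω M := j.toRingHom.toAlgebra
  have : IsScalarTower L Ω M := IsScalarTower.of_algebraMap_eq fun x => (j.commutes x).symm
  exact ⟨h.restrictNormal' Ω, fun x => h.restrictNormal_commutes Ω x⟩

end Restrict

section Tower

variable {k F L Ω : Type*} [Field k] [Field F] [Algebra k F] [Algebra.IsAlgebraic k F]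
  [IsAlgClosed F] [Field L] [Field Ω]
  [Algebra F[X] L] [IsFractionRing F[X] L] [Algebra L Ω] [Algebra F[X] Ω] [IsScalarTower F[X] L Ω]
  [Algebra k[X] L] [Algebra k[X] Ω] [IsScalarTower k[X] L Ω]
  [IsGalois L Ω] [IsSepClosed Ω] [IsSepClosure L Ω]

variable (hk : ∀ p : k[X], algebraMap k[X] L p = algebraMap F[X] L (p.map (algebraMap k F)))

variable {Kv M : Type*} [Field Kv] [Algebra L Kv] [Algebra F[X] Kv] [IsScalarTower F[X] L Kv]
  [Field M] [Algebra Kv M] [IsSepClosure Kv M] [Algebra L M] [IsScalarTower L Kv M]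

include hk in
/-- A lift of the automorphism `τ` of `F` which is compatible with an automorphism of `Kv`. -/
lemma exists_local_lift (j : Ω →ₐ[L] M) (τ : F ≃ₐ[k] F) (φ : Kv ≃+* Kv)
    (hφ : ∀ x : L, φ (algebraMap L Kv x) = algebraMap L Kv (coefL L (τ : F ≃+* F) x)) :
    ∃ γ : Ω ≃ₐ[k[X]] Ω, (∀ p : F[X], γ (algebraMap F[X] Ω p) =
      algebraMap F[X] Ω (p.map (τ : F →+* F))) ∧
      ∃ U : M ≃+* M, (∀ x : Kv, U (algebraMap Kv M x) = algebraMap Kv M (φ x)) ∧
        ∀ x, j (γ x) = U (j x) := by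
  obtain ⟨U, hU⟩ := exists_extend (F := Kv) (Ω := M) φ
  obtain ⟨γ₀, hγ₀⟩ := exists_lift_aut (Ω := Ω) hk τ
  have hγL : ∀ x : L, γ₀ (algebraMap L Ω x) = algebraMap L Ω (coefL L (τ : F ≃+* F) x) := by
    intro x
    obtain ⟨p, q, hq, rfl⟩ := IsFractionRing.div_surjective (A := F[X]) x
    rw [map_div₀, map_div₀, map_div₀, map_div₀, coefL_algebraMap, coefL_algebraMap,
      ← IsScalarTower.algebraMap_apply, ← IsScalarTower.algebraMap_apply,
      ← IsScalarTower.algebraMap_apply, ← IsScalarTower.algebraMap_apply, hγ₀, hγ₀]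
    rfl
  have hUL : ∀ x : L, U (algebraMap L M x) = algebraMap L M (coefL L (τ : F ≃+* F) x) := by
    intro x
    rw [IsScalarTower.algebraMap_apply L Kv M, hU, hφ, ← IsScalarTower.algebraMap_apply]
  -- the second embedding
  let h₁ : Ω →ₐ[L] M :=
    { toRingHom := (U : M →+* M).comp ((j : Ω →+* M).comp (γ₀.symm : Ω →+* Ω))
      commutes' := fun x => by
        change U (j (γ₀.symm (algebraMap L Ω x))) = algebraMap L M x
        have h1 : γ₀.symm (algebraMap L Ω x) =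
            algebraMap L Ω ((coefL L (τ : F ≃+* F)).symm x) := by
          apply γ₀.injective
          rw [AlgEquiv.apply_symm_apply, hγL, RingEquiv.apply_symm_apply]
        rw [h1, j.commutes, hUL, RingEquiv.apply_symm_apply] }
  obtain ⟨σ, hσ⟩ := exists_alg_restrict j h₁
  have hσk : ∀ p : k[X], σ (algebraMap k[X] Ω p) = algebraMap k[X] Ω p := by
    intro p
    rw [IsScalarTower.algebraMap_apply k[X] L Ω, σ.commutes]
  refine ⟨γ₀.trans (AlgEquiv.ofRingEquiv (f := σ.toRingEquiv) hσk), ?_, U, hU, ?_⟩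
  · intro p
    change σ (γ₀ (algebraMap F[X] Ω p)) = _
    rw [hγ₀, IsScalarTower.algebraMap_apply F[X] L Ω, σ.commutes]
  · intro x
    change j (σ (γ₀ x)) = U (j x)
    rw [hσ]
    change U (j (γ₀.symm (γ₀ x))) = U (j x)
    rw [AlgEquiv.symm_apply_apply]

end Tower

end Pool.Agent.Lib.MP_89bcae_ag.LevelTwo

end

section

/-!
# The local computation at a collision of two roots
-/

open Polynomial WeierstrassCurve WeierstrassCurve.Affine WithZero

open scoped Classical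

namespace Pool.Agent.Lib.MP_89bcae_ag.LevelTwo

set_option linter.unusedSectionVars false

section Rep

variable {R F Ω : Type*} [CommRing R] [Field F] [Field Ω] [Algebra R Ω]
  [Algebra F Ω] {W : Affine R} {a b c : R}

/-- The product of the characters attached to two of the points is the third one. -/
lemma rep_of_swap {hΩ : SplitAt Ω W a b c} {s : (Ω ≃ₐ[F] Ω) → (W.baseChange Ω).Point} {d d' : F}
    (h2 : Rep hΩ.swap12 s d) (h3 : Rep hΩ.rot.rot s d') (hs : ∀ g, s g + s g = 0) :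
    Rep hΩ s (d * d') := by
  obtain ⟨β, hβ, h1, h4⟩ := h2
  obtain ⟨β', hβ', h1', h4'⟩ := h3
  refine ⟨β * β', mul_ne_zero hβ hβ', by rw [mul_pow, h1, h1', map_mul], fun g => ?_⟩
  rw [map_mul, h4, h4', ← hΩ.chi_mul_chi (hs g)]
  push_cast
  ring

lemma rep_one {hΩ : SplitAt Ω W a b c} {s : (Ω ≃ₐ[F] Ω) → (W.baseChange Ω).Point}
    (hs : ∀ g, s g = 0) : Rep hΩ s (1 : F) := by
  refine ⟨1, one_ne_zero, by rw [one_pow, map_one], fun g => ?_⟩
  rw [hs, hΩ.chi_zero, map_one]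
  simp

end Rep

section Local

variable {R L Ω K M : Type*} [CommRing R] [Field L] [Field Ω] [Field K] [Field M] [Algebra R L]
  [Algebra R Ω] [Algebra L Ω] [IsScalarTower R L Ω] [Algebra L K] [Algebra R K]
  [IsScalarTower R L K] [Algebra K M] [Algebra L M] [IsScalarTower L K M] [Algebra R M]
  [IsScalarTower R L M] [IsScalarTower R K M] [IsGalois K M] [IsGalois L Ω]
  {W : Affine R} {a b c : R}

/-- Restriction of a representative to a local field. -/
lemma rep_local {hΩ : SplitAt Ω W a b c} (hM : SplitAt M W a b c)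
    {s : (Ω ≃ₐ[L] Ω) → (W.baseChange Ω).Point} {d : L} (hrep : Rep hΩ s d) (j : Ω →ₐ[L] M)
    (s' : (M ≃ₐ[K] M) → (W.baseChange M).Point)
    (hs : ∀ (g : M ≃ₐ[K] M) (g' : Ω ≃ₐ[L] Ω), (∀ x, j (g' x) = g (j x)) →
      Point.map (W' := W) j (s g') = s' g) : Rep (F := K) hM s' (algebraMap L K d) := by
  obtain ⟨β, hβ, h1, h2⟩ := hrep
  refine ⟨j β, (map_ne_zero j).mpr hβ, ?_, fun g => ?_⟩
  · rw [← map_pow, h1, AlgHom.commutes, ← IsScalarTower.algebraMap_apply]
  · obtain ⟨g', hg'⟩ := exists_restrict (F := L) j (g.restrictScalars L)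
    have h3 := hg' β
    rw [h2, map_mul] at h3
    rw [← hs g g' hg', chi_map j hΩ hM, show g (j β) = (g.restrictScalars L) (j β) from rfl, ← h3]
    simp

variable (w : Valuation K ℤᵐ⁰)

/-- The parity of the valuation of a representative of a class which is locally the Kummer class of
the two-torsion point `B`. -/
lemma even_iff_of_local {hΩ : SplitAt Ω W a b c} (hK : SplitAt K W a b c)
    (hcol : Collision w (algebraMap R K a) (algebraMap R K b) (algebraMap R K c))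
    {s : (Ω ≃ₐ[L] Ω) → (W.baseChange Ω).Point} {d : L} (hrep : Rep hΩ s d) (j : Ω →ₐ[L] M)
    (B : (W.baseChange K).Point) (hB : B + B = 0) (Q : (W.baseChange M).Point)
    (hQ : Q + Q = Point.map (W' := W) (Algebra.ofId K M) B)
    (hs : ∀ (g : M ≃ₐ[K] M) (g' : Ω ≃ₐ[L] Ω), (∀ x, j (g' x) = g (j x)) →
      Point.map (W' := W) j (s g') = Point.map (W' := W) (g : M →ₐ[K] M) Q - Q) :
    Even (lg w (algebraMap L K d)) ↔ hK.rot.rot.chi B = 1 := by
  have hM : SplitAt M W a b c := hK.up (Algebra.ofId K M)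
  have hr := rep_local hM hrep j (fun g : M ≃ₐ[K] M => Point.map (W' := W) (g : M →ₐ[K] M) Q - Q) hs
  have hs2 : ∀ g : M ≃ₐ[K] M, (Point.map (W' := W) (g : M →ₐ[K] M) Q - Q) +
      (Point.map (W' := W) (g : M →ₐ[K] M) Q - Q) = 0 := kummer_two_torsion B Q hQ
  have hd0 : algebraMap L K d ≠ 0 := Rep.ne_zero hM hr
  -- comparison with another representative
  have comp : ∀ e : K, Rep (F := K) hM
      (fun g : M ≃ₐ[K] M => Point.map (W' := W) (g : M →ₐ[K] M) Q - Q) e →
      (Even (lg w (algebraMap L K d)) ↔ Even (lg w e)) := by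
    intro e he
    obtain ⟨u, hu, h⟩ := Rep.unique hM hr he
    have he0 : e ≠ 0 := Rep.ne_zero hM he
    have h3 := congrArg (lg w) h
    rw [lg_mul w hd0 he0, lg_pow] at h3
    push_cast at h3
    constructor
    · rintro ⟨m, hm⟩
      exact ⟨lg w u - m, by omega⟩
    · rintro ⟨m, hm⟩
      exact ⟨lg w u - m, by omega⟩
  have lac : lg w (algebraMap R K a - algebraMap R K c) = 0 := lg_eq_zero w hcol.ac
  have lbc : lg w (algebraMap R K b - algebraMap R K c) = 0 := lg_eq_zero w hcol.bc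
  have hnab : algebraMap R K a - algebraMap R K b ≠ 0 := sub_ne_zero.mpr hK.ab
  have hnac : algebraMap R K a - algebraMap R K c ≠ 0 := sub_ne_zero.mpr hK.ac
  rcases hK.two_torsion B hB with rfl | rfl | rfl | rfl
  · rw [hK.rot.rot.chi_zero]
    have h0 : ∀ g : M ≃ₐ[K] M, Point.map (W' := W) (g : M →ₐ[K] M) Q - Q = 0 := by
      intro g
      rw [map_zero] at hQ
      rw [map_two_torsion (g : M →ₐ[K] M) hM hQ, sub_self]
    rw [comp 1 (rep_one h0)]
    unfold lg
    simp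
  · -- `B = (a, 0)`
    have e1 : hK.rot.rot.chi hK.T = -1 := hK.rot.rot.chi_other
    have hb := rep_kummer hM.swap12 (hK.nonsingular_of_equation (by ring)) hK.ab Q hQ
    have hc := rep_kummer hM.rot.rot (hK.nonsingular_of_equation (by ring)) hK.ac Q hQ
    rw [e1, comp _ (rep_of_swap hb hc hs2), lg_mul w hnab hnac, lac, add_zero]
    constructor
    · intro h
      exact absurd h (Int.not_even_iff_odd.mpr hcol.odd)
    · intro h
      norm_num at h
  · -- `B = (b, 0)`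
    have e1 : hK.rot.rot.chi hK.swap12.T = -1 := hK.rot.rot.chi_other'
    have hb := rep_kummer hM (hK.swap12.nonsingular_of_equation (by ring)) hK.ab.symm Q hQ
    rw [e1, comp _ hb, show algebraMap R K b - algebraMap R K a =
      -(algebraMap R K a - algebraMap R K b) by ring, lg_neg]
    constructor
    · intro h
      exact absurd h (Int.not_even_iff_odd.mpr hcol.odd)
    · intro h
      norm_num at h
  · -- `B = (c, 0)`
    have e1 : hK.rot.rot.chi hK.rot.rot.T = 1 := hK.rot.rot.chi_self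
    have hb := rep_kummer hM (hK.rot.rot.nonsingular_of_equation (by ring)) hK.ac.symm Q hQ
    rw [e1, comp _ hb, show algebraMap R K c - algebraMap R K a =
      -(algebraMap R K a - algebraMap R K c) by ring, lg_neg, lac]
    simp

end Local

section MapMap

variable {R A B B' C S₁ S₂ S₃ S₄ : Type*} [CommRing R] [Field A] [Field B] [Field B'] [Field C]
  [CommRing S₁] [CommRing S₂] [CommRing S₃] [CommRing S₄] [Algebra R A] [Algebra R B]
  [Algebra R B'] [Algebra R C] [Algebra R S₁] [Algebra R S₂] [Algebra R S₃] [Algebra R S₄]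
  [Algebra S₁ A] [Algebra S₁ B] [IsScalarTower R S₁ A] [IsScalarTower R S₁ B]
  [Algebra S₂ B] [Algebra S₂ C] [IsScalarTower R S₂ B] [IsScalarTower R S₂ C]
  [Algebra S₃ A] [Algebra S₃ B'] [IsScalarTower R S₃ A] [IsScalarTower R S₃ B']
  [Algebra S₄ B'] [Algebra S₄ C] [IsScalarTower R S₄ B'] [IsScalarTower R S₄ C] {W : Affine R}

/-- Compatibility of maps on points. -/
lemma map_map_eq (f : A →ₐ[S₁] B) (g : B →ₐ[S₂] C) (f' : A →ₐ[S₃] B') (g' : B' →ₐ[S₄] C)
    (h : ∀ x, g (f x) = g' (f' x)) (Q : (W.baseChange A).Point) :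
    Point.map (W' := W) g (Point.map (W' := W) f Q) =
      Point.map (W' := W) g' (Point.map (W' := W) f' Q) := by
  rcases Q with _ | ⟨x, y, hxy⟩
  · rfl
  · rw [Point.map_some, Point.map_some, Point.map_some, Point.map_some]
    simp only [Point.some.injEq]
    exact ⟨h x, h y⟩

lemma map_map_eq' [Algebra S₃ C] [IsScalarTower R S₃ C] (f : A →ₐ[S₁] B) (g : B →ₐ[S₂] C)
    (f' : A →ₐ[S₃] C) (h : ∀ x, g (f x) = f' x) (Q : (W.baseChange A).Point) :
    Point.map (W' := W) g (Point.map (W' := W) f Q) = Point.map (W' := W) f' Q := by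
  rcases Q with _ | ⟨x, y, hxy⟩
  · rfl
  · rw [Point.map_some, Point.map_some, Point.map_some]
    simp only [Point.some.injEq]
    exact ⟨h x, h y⟩

end MapMap

section Lift

variable {R L Ω K M : Type*} [CommRing R] [Field L] [Field Ω] [Field K] [Field M] [Algebra R L]
  [Algebra R Ω] [Algebra L Ω] [IsScalarTower R L Ω] [Algebra L K] [Algebra R K]
  [IsScalarTower R L K] [Algebra K M] [Algebra L M] [IsScalarTower L K M] [Algebra R M]
  [IsScalarTower R L M] [IsScalarTower R K M] [IsGalois K M] [IsGalois L Ω]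
  {W : Affine R} {a b c : R}

/-- The automorphism `γ` of `Ω` is compatible with an automorphism of the local field. -/
structure LocalLift (j : Ω →ₐ[L] M) (γ : Ω ≃ₐ[R] Ω) (U : M ≃ₐ[R] M) (φ : K ≃+* K) : Prop where
  U_K : ∀ x : K, U (algebraMap K M x) = algebraMap K M (φ x)
  j_γ : ∀ x, j (γ x) = U (j x)

/-- The conjugate of an element of the local Galois group. -/
def LocalLift.conj {j : Ω →ₐ[L] M} {γ : Ω ≃ₐ[R] Ω} {U : M ≃ₐ[R] M} {φ : K ≃+* K}
    (h : LocalLift j γ U φ) (g : M ≃ₐ[K] M) : M ≃ₐ[K] M :=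
  AlgEquiv.ofRingEquiv (f := (U.toRingEquiv.trans g.toRingEquiv).trans U.symm.toRingEquiv) (by
    intro x
    change U.symm (g (U (algebraMap K M x))) = algebraMap K M x
    rw [h.U_K, g.commutes, ← h.U_K, AlgEquiv.symm_apply_apply])

lemma LocalLift.conj_apply {j : Ω →ₐ[L] M} {γ : Ω ≃ₐ[R] Ω} {U : M ≃ₐ[R] M} {φ : K ≃+* K}
    (h : LocalLift j γ U φ) (g : M ≃ₐ[K] M) (x : M) : U (h.conj g x) = g (U x) :=
  AlgEquiv.apply_symm_apply U _

/-- The local description of `(γ' c - c) / 2`. -/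
lemma exists_local_data (hK : SplitAt K W a b c) (w : Valuation K ℤᵐ⁰)
    (hcol : Collision w (algebraMap R K a) (algebraMap R K b) (algebraMap R K c))
    (hsq : ∀ x : K, x ≠ 0 → Even (lg w x) → ∃ r, r ^ 2 = x)
    {j : Ω →ₐ[L] M} {γ : Ω ≃ₐ[R] Ω} {U : M ≃ₐ[R] M} {φ : K ≃+* K} (hl : LocalLift j γ U φ)
    {x : ℕ → (Ω ≃ₐ[L] Ω) → (W.baseChange Ω).Point} (hx : TC W x)
    (hloc : ∃ Q : (W.baseChange M).Point, ∀ (g : M ≃ₐ[K] M) (g' : Ω ≃ₐ[L] Ω),
      (∀ x, j (g' x) = g (j x)) →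
        Point.map (W' := W) j (x 2 g') = Point.map (W' := W) (g : M →ₐ[K] M) Q - Q)
    {γ' : Ω ≃ₐ[R] Ω} {h : Ω ≃ₐ[L] Ω} (hh : ∀ x, γ' x = γ (h x))
    (hconj : ∀ g : Ω ≃ₐ[L] Ω, ∃ g' : Ω ≃ₐ[L] Ω, ∀ x, γ' (g' x) = g (γ' x))
    {η : (Ω ≃ₐ[L] Ω) → (W.baseChange Ω).Point}
    (hη : ∀ g g' : Ω ≃ₐ[L] Ω, (∀ x, γ' (g' x) = g (γ' x)) →
      η g = Point.map (W' := W) (γ' : Ω →ₐ[R] Ω) (x 2 g') - x 2 g) :
    ∃ (T : (W.baseChange K).Point) (Q' S : (W.baseChange M).Point), (T = 0 ∨ T = hK.T) ∧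
      Q' + Q' = Point.map (W' := W) (Algebra.ofId K M) T ∧
      (∀ (g : M ≃ₐ[K] M) (g' : Ω ≃ₐ[L] Ω), (∀ x, j (g' x) = g (j x)) →
        Point.map (W' := W) j (x 1 g') = Point.map (W' := W) (g : M →ₐ[K] M) Q' - Q') ∧
      (∀ (g : M ≃ₐ[K] M) (g' : Ω ≃ₐ[L] Ω), (∀ x, j (g' x) = g (j x)) →
        Point.map (W' := W) j (η g') = Point.map (W' := W) (g : M →ₐ[K] M) S - S) ∧
      S + S = Point.map (W' := W) (U : M →ₐ[R] M) Q' - Q' +
        Point.map (W' := W) j (Point.map (W' := W) (γ : Ω →ₐ[R] Ω) (x 1 h)) := by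
  obtain ⟨Q₀, hQ₀⟩ := hloc
  obtain ⟨P, hP⟩ := exists_point_of_fixed (F := K) (W := W) (4 • Q₀) (by
    intro g
    obtain ⟨g', hg'⟩ := exists_restrict (F := L) j (g.restrictScalars L)
    have h3 := congrArg (fun P => 4 • P) (hQ₀ g g' hg')
    have h4 : 4 • x 2 g' = 0 := hx.two_pow 2 g'
    rw [← map_nsmul, h4, map_zero, smul_sub 4, ← map_nsmul] at h3
    exact sub_eq_zero.mp h3.symm)
  obtain ⟨T, P', hT, rfl⟩ := hcol.exists_four hK hsq P
  obtain ⟨Q, hQ⟩ : ∃ Q : (W.baseChange M).Point, Q = Q₀ -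
    Point.map (W' := W) (Algebra.ofId K M) P' := ⟨_, rfl⟩
  have h4Q : 4 • Q = Point.map (W' := W) (Algebra.ofId K M) T := by
    rw [hQ, smul_sub, ← hP, map_add, map_nsmul]
    abel
  have hQg : ∀ (g : M ≃ₐ[K] M) (g' : Ω ≃ₐ[L] Ω), (∀ x, j (g' x) = g (j x)) →
      Point.map (W' := W) j (x 2 g') = Point.map (W' := W) (g : M →ₐ[K] M) Q - Q := by
    intro g g' hg
    rw [hQ₀ g g' hg, hQ, map_sub, map_ofId]
    abel
  refine ⟨T, 2 • Q, Point.map (W' := W) (U : M →ₐ[R] M) Q - Q +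
    Point.map (W' := W) j (Point.map (W' := W) (γ : Ω →ₐ[R] Ω) (x 2 h)), hT, ?_, ?_, ?_, ?_⟩
  · rw [← h4Q, ← add_smul]
  · intro g g' hg
    rw [← hx.two 1 g', map_nsmul, hQg g g' hg, smul_sub, ← map_nsmul]
  · intro g g' hg
    obtain ⟨g'', hg''⟩ := hconj g'
    have hg₁ : ∀ y, γ ((h * g'' * h⁻¹) y) = g' (γ y) := by
      intro y
      have h5 := hg'' (h⁻¹ y)
      rw [hh, hh] at h5
      rw [AlgEquiv.mul_apply, AlgEquiv.mul_apply, h5, ← AlgEquiv.mul_apply h h⁻¹, mul_inv_cancel]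
      rfl
    set g₁ : Ω ≃ₐ[L] Ω := h * g'' * h⁻¹ with hg₁def
    have hmul : g₁ * h = h * g'' := by
      rw [hg₁def, mul_assoc, inv_mul_cancel, mul_one]
    have e1 : Point.map (W' := W) (h : Ω →ₐ[L] Ω) (x 2 g'') =
        x 2 g₁ + Point.map (W' := W) (g₁ : Ω →ₐ[L] Ω) (x 2 h) - x 2 h := by
      have h5 := hx.mul 2 g₁ h
      rw [hmul, hx.mul 2 h g''] at h5
      rw [← h5]
      abel
    have e2 : Point.map (W' := W) (γ' : Ω →ₐ[R] Ω) (x 2 g'') =
        Point.map (W' := W) (γ : Ω →ₐ[R] Ω) (Point.map (W' := W) (h : Ω →ₐ[L] Ω) (x 2 g'')) :=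
      (map_map_eq' (h : Ω →ₐ[L] Ω) (γ : Ω →ₐ[R] Ω) (γ' : Ω →ₐ[R] Ω) (fun y => (hh y).symm) _).symm
    have e3 : Point.map (W' := W) (γ : Ω →ₐ[R] Ω)
        (Point.map (W' := W) (g₁ : Ω →ₐ[L] Ω) (x 2 h)) =
        Point.map (W' := W) (g' : Ω →ₐ[L] Ω) (Point.map (W' := W) (γ : Ω →ₐ[R] Ω) (x 2 h)) :=
      map_map_eq (g₁ : Ω →ₐ[L] Ω) (γ : Ω →ₐ[R] Ω) (γ : Ω →ₐ[R] Ω) (g' : Ω →ₐ[L] Ω) hg₁ _
    have e4 : ∀ Y : (W.baseChange Ω).Point, Point.map (W' := W) j
        (Point.map (W' := W) (γ : Ω →ₐ[R] Ω) Y) =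
        Point.map (W' := W) (U : M →ₐ[R] M) (Point.map (W' := W) j Y) := fun Y =>
      map_map_eq (γ : Ω →ₐ[R] Ω) j j (U : M →ₐ[R] M) hl.j_γ Y
    have e5 : ∀ Y : (W.baseChange Ω).Point, Point.map (W' := W) j
        (Point.map (W' := W) (g' : Ω →ₐ[L] Ω) Y) =
        Point.map (W' := W) (g : M →ₐ[K] M) (Point.map (W' := W) j Y) := fun Y =>
      map_map_eq (g' : Ω →ₐ[L] Ω) j j (g : M →ₐ[K] M) hg Y
    have hg₁' : ∀ y, j (g₁ y) = hl.conj g (j y) := by
      intro y
      apply U.injective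
      rw [hl.conj_apply, ← hl.j_γ, hg₁, hg, hl.j_γ]
    have e6 : Point.map (W' := W) (U : M →ₐ[R] M)
        (Point.map (W' := W) (hl.conj g : M →ₐ[K] M) Q) =
        Point.map (W' := W) (g : M →ₐ[K] M) (Point.map (W' := W) (U : M →ₐ[R] M) Q) :=
      map_map_eq (hl.conj g : M →ₐ[K] M) (U : M →ₐ[R] M) (U : M →ₐ[R] M) (g : M →ₐ[K] M)
        (hl.conj_apply g) Q
    have e7 : Point.map (W' := W) (γ' : Ω →ₐ[R] Ω) (x 2 g'') =
        Point.map (W' := W) (γ : Ω →ₐ[R] Ω) (x 2 g₁) +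
          Point.map (W' := W) (g' : Ω →ₐ[L] Ω) (Point.map (W' := W) (γ : Ω →ₐ[R] Ω) (x 2 h)) -
          Point.map (W' := W) (γ : Ω →ₐ[R] Ω) (x 2 h) := by
      rw [e2, e1, map_sub, map_add, e3]
    have e8 : Point.map (W' := W) j (Point.map (W' := W) (γ' : Ω →ₐ[R] Ω) (x 2 g'')) =
        Point.map (W' := W) (g : M →ₐ[K] M) (Point.map (W' := W) (U : M →ₐ[R] M) Q) -
          Point.map (W' := W) (U : M →ₐ[R] M) Q +
          Point.map (W' := W) (g : M →ₐ[K] M) (Point.map (W' := W) j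
            (Point.map (W' := W) (γ : Ω →ₐ[R] Ω) (x 2 h))) -
          Point.map (W' := W) j (Point.map (W' := W) (γ : Ω →ₐ[R] Ω) (x 2 h)) := by
      rw [e7, map_sub, map_add, e5, e4 (x 2 g₁), hQg _ _ hg₁', map_sub, e6]
    rw [hη g' g'' hg'', map_sub, e8, hQg g g' hg]
    simp only [map_add, map_sub]
    abel
  · have e7 : Point.map (W' := W) j (Point.map (W' := W) (γ : Ω →ₐ[R] Ω) (x 1 h)) =
        2 • Point.map (W' := W) j (Point.map (W' := W) (γ : Ω →ₐ[R] Ω) (x 2 h)) := by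
      rw [← hx.two 1 h, map_nsmul, map_nsmul]
    rw [e7, map_nsmul]
    abel

end Lift

section Formula

lemma chi_eq_or {F : Type*} [Field F] {W : Affine F} {a b c : F} (h : Split W a b c)
    (P : W.Point) : h.chi P = 1 ∨ h.chi P = -1 := by
  unfold Split.chi
  split_ifs
  · exact Or.inl rfl
  · exact Or.inr rfl

variable {k F L Ω K M : Type*} [Field k] [Field F] [IsAlgClosed F] [Algebra k F] [Field L]
  [Field Ω] [Field K] [Field M] [Algebra k[X] L] [Algebra F[X] L] [Algebra F[X] K] [Algebra F[X] Ω]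
  [Algebra k[X] Ω] [Algebra L Ω] [IsScalarTower k[X] L Ω] [Algebra L K] [Algebra k[X] K]
  [IsScalarTower k[X] L K] [IsScalarTower F[X] L K] [IsScalarTower F[X] L Ω] [Algebra K M]
  [Algebra L M] [IsScalarTower L K M]
  [Algebra k[X] M] [IsScalarTower k[X] L M] [IsScalarTower k[X] K M] [IsGalois K M] [IsGalois L Ω]
  {W : Affine k[X]} {a b c : k[X]}

/-- A two-torsion point is rational. -/
lemma exists_descend (hK : SplitAt K W a b c) (hM : SplitAt M W a b c) {X : (W.baseChange M).Point}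
    (hX : X + X = 0) : ∃ B : (W.baseChange K).Point, B + B = 0 ∧
      Point.map (W' := W) (Algebra.ofId K M) B = X := by
  rcases hM.two_torsion X hX with rfl | rfl | rfl | rfl
  · exact ⟨0, add_zero _, map_zero _⟩
  · exact ⟨hK.T, hK.T_add_T, map_T _ hK hM⟩
  · exact ⟨hK.swap12.T, hK.swap12.T_add_T, map_T _ hK.swap12 hM.swap12⟩
  · exact ⟨hK.rot.rot.T, hK.rot.rot.T_add_T, map_T _ hK.rot.rot hM.rot.rot⟩

/-- An element of `M` whose square is a unit of `K` belongs to `K`. -/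
lemma exists_of_sq {w : Valuation K ℤᵐ⁰} (hsq : ∀ x : K, x ≠ 0 → Even (lg w x) → ∃ r, r ^ 2 = x)
    {u : K} (hu : w u = 1) {m : M} (hm : m ^ 2 = algebraMap K M u) :
    ∃ r : K, r ^ 2 = u ∧ algebraMap K M r = m := by
  obtain ⟨r, hr⟩ := hsq u (ne_zero_of_val w hu) (by rw [lg_eq_zero w hu]; exact ⟨0, rfl⟩)
  have h1 : (m - algebraMap K M r) * (m + algebraMap K M r) = 0 := by
    have h2 : (algebraMap K M r) ^ 2 = algebraMap K M u := by rw [← map_pow, hr]
    linear_combination hm - h2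
  rcases mul_eq_zero.mp h1 with h | h
  · exact ⟨r, hr, (sub_eq_zero.mp h).symm⟩
  · refine ⟨-r, by rw [neg_sq, hr], ?_⟩
    rw [map_neg]
    linear_combination -h

/-- **The local formula** at a place where the roots `a` and `b` collide. -/
theorem local_formula (h2F : (2 : F) ≠ 0)
    (hkK : ∀ p : k[X], algebraMap k[X] K p = algebraMap F[X] K (p.map (algebraMap k F)))
    {hΩ : SplitAt Ω W a b c} (hK : SplitAt K W a b c) {w : Valuation K ℤᵐ⁰} {α : F}
    (hover : IsOver w α)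
    (hcol : Collision w (algebraMap k[X] K a) (algebraMap k[X] K b) (algebraMap k[X] K c))
    (hsq : ∀ x : K, x ≠ 0 → Even (lg w x) → ∃ r, r ^ 2 = x) {τ : F →+* F}
    {j : Ω →ₐ[L] M} {γ : Ω ≃ₐ[k[X]] Ω} {U : M ≃ₐ[k[X]] M} {φ : K ≃+* K} (hl : LocalLift j γ U φ)
    (hφ : ∀ x : F, φ (algebraMap F[X] K (C x)) = algebraMap F[X] K (C (τ x)))
    (hφw : ∀ x, w (φ x) = w x)
    {x : ℕ → (Ω ≃ₐ[L] Ω) → (W.baseChange Ω).Point} (hx : TC W x)
    (hloc : ∃ Q : (W.baseChange M).Point, ∀ (g : M ≃ₐ[K] M) (g' : Ω ≃ₐ[L] Ω),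
      (∀ x, j (g' x) = g (j x)) →
        Point.map (W' := W) j (x 2 g') = Point.map (W' := W) (g : M →ₐ[K] M) Q - Q)
    {γ' : Ω ≃ₐ[k[X]] Ω} {h : Ω ≃ₐ[L] Ω} (hh : ∀ x, γ' x = γ (h x))
    (hconj : ∀ g : Ω ≃ₐ[L] Ω, ∃ g' : Ω ≃ₐ[L] Ω, ∀ x, γ' (g' x) = g (γ' x))
    {η : (Ω ≃ₐ[L] Ω) → (W.baseChange Ω).Point}
    (hη : ∀ g g' : Ω ≃ₐ[L] Ω, (∀ x, γ' (g' x) = g (γ' x)) →
      η g = Point.map (W' := W) (γ' : Ω →ₐ[k[X]] Ω) (x 2 g') - x 2 g)
    {P₁ P₃ N : F[X]} (hP₁ : Rep hΩ (x 1) (algebraMap F[X] L P₁))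
    {β : Ω} (hβ : β ^ 2 = algebraMap F[X] Ω P₃)
    (hβg : ∀ g : Ω ≃ₐ[L] Ω, g β = (hΩ.rot.rot.chi (x 1 g) : Ω) * β) {ε' : ℤ}
    (hε' : ε' = 1 ∨ ε' = -1) (hγβ : γ' β = (ε' : Ω) * β)
    (hP₃ : P₃.eval α ≠ 0) (hN : Rep hΩ η (algebraMap F[X] L N)) :
    Even (lg w (algebraMap F[X] K N)) ↔ (Moves τ (P₃.eval α *
      if Even (lg w (algebraMap F[X] K P₁)) then 1 else
        ((a - c).map (algebraMap k F)).eval α) ↔ ε' = -1) := by
  have hM : SplitAt M W a b c := hK.up (Algebra.ofId K M)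
  obtain ⟨T, Q', S, hT, hQ'T, h1, hηS, hS⟩ := exists_local_data hK w hcol hsq hl hx hloc hh hconj hη
  have hT2 : T + T = 0 := by
    rcases hT with rfl | rfl
    · exact add_zero _
    · exact hK.T_add_T
  have hTM2 : Point.map (W' := W) (Algebra.ofId K M) T +
      Point.map (W' := W) (Algebra.ofId K M) T = 0 := by rw [← map_add, hT2, map_zero]
  have hx1 : x 1 h + x 1 h = 0 := by rw [← two_nsmul, hx.two, hx.zero]
  -- the two contributions
  set Y₁ : (W.baseChange M).Point := Point.map (W' := W) (U : M →ₐ[k[X]] M) Q' - Q' with hY₁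
  set Y₂ : (W.baseChange M).Point :=
    Point.map (W' := W) j (Point.map (W' := W) (γ : Ω →ₐ[k[X]] Ω) (x 1 h)) with hY₂
  have hY₁2 : Y₁ + Y₁ = 0 := by
    rw [hY₁, sub_add_sub_comm, ← map_add, hQ'T, map_two_torsion (U : M →ₐ[k[X]] M) hM hTM2,
      sub_self]
  have hY₂2 : Y₂ + Y₂ = 0 := by rw [hY₂, ← map_add, ← map_add, hx1, map_zero, map_zero]
  obtain ⟨B, hB, hBM⟩ := exists_descend hK hM (X := Y₁ + Y₂) (by
    rw [add_add_add_comm, hY₁2, hY₂2, add_zero])
  have hchiB : hK.rot.rot.chi B = hM.rot.rot.chi Y₁ * hM.rot.rot.chi Y₂ := by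
    rw [← hM.rot.rot.chi_add hY₁2 hY₂2, ← hBM,
      chi_map (Algebra.ofId K M) hK.rot.rot hM.rot.rot]
  have evN := even_iff_of_local w hK hcol hN j B hB S (by rw [hS, hBM]) hηS
  have evP := even_iff_of_local w hK hcol hP₁ j T hT2 Q' hQ'T h1
  rw [← IsScalarTower.algebraMap_apply] at evN evP
  -- the action of `γ` on `β`
  obtain ⟨ε, hε⟩ : ∃ ε : ℤ, ε = hΩ.rot.rot.chi (x 1 h) := ⟨_, rfl⟩
  have hε1 : ε = 1 ∨ ε = -1 := by rw [hε]; exact chi_eq_or _ _
  have hchiY₂ : hM.rot.rot.chi Y₂ = ε := by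
    rw [hε, hY₂, chi_map j hΩ.rot.rot hM.rot.rot,
      chi_map (γ : Ω →ₐ[k[X]] Ω) hΩ.rot.rot hΩ.rot.rot]
  have hγβ' : γ β = ((ε * ε' : ℤ) : Ω) * β := by
    have h3 : γ' β = (ε : Ω) * γ β := by
      rw [hh, hβg, ← hε, map_mul]
      simp
    rw [hγβ] at h3
    push_cast
    rcases hε1 with h | h
    · rw [h] at h3 ⊢
      push_cast at h3 ⊢
      linear_combination -h3
    · rw [h] at h3 ⊢
      push_cast at h3 ⊢
      linear_combination h3
  have hUβ : U (j β) = ((ε * ε' : ℤ) : M) * j β := by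
    rw [← hl.j_γ, hγβ', map_mul, map_intCast]
  have hjβ : (j β) ^ 2 = algebraMap K M (algebraMap F[X] K P₃) := by
    rw [← map_pow, hβ, IsScalarTower.algebraMap_apply F[X] L Ω, AlgHom.commutes,
      IsScalarTower.algebraMap_apply F[X] L K, ← IsScalarTower.algebraMap_apply L K M]
  have hwP : w (algebraMap F[X] K P₃) = 1 := hover.unit _ hP₃
  have hmone : ∀ m : K, m ≠ 0 → -m ≠ m := by
    intro m hm h0
    have : 2 * m = 0 := by linear_combination -h0
    rcases mul_eq_zero.mp this with h | h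
    · exact hK.two h
    · exact hm h
  -- the conclusion from an element `m` of `K`
  have concl : ∀ (m : K) (q : F), q ≠ 0 → Cg w (m ^ 2) q →
      U (algebraMap K M m) = ((hK.rot.rot.chi B * ε' : ℤ) : M) * algebraMap K M m →
      (Even (lg w (algebraMap F[X] K N)) ↔ (Moves τ q ↔ ε' = -1)) := by
    intro m q hq hm hUm
    have h4 := moves_iff_aux hover h2F hφ hφw hq hm
    rw [evN]
    rw [hl.U_K] at hUm
    rcases chi_eq_or hK.rot.rot B with h5 | h5 <;> rcases hε' with h6 | h6 <;>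
      rw [h5, h6] at hUm <;> rw [h5, h6]
    · have h7 : φ m = m := (algebraMap K M).injective (by rw [hUm]; simp)
      have := h4.1 h7
      simp [this]
    · have h7 : φ m = -m := (algebraMap K M).injective (by rw [hUm]; simp)
      have := h4.2 h7
      simp [this]
    · have h7 : φ m = -m := (algebraMap K M).injective (by rw [hUm]; simp)
      have := h4.2 h7
      simp [this]
    · have h7 : φ m = m := (algebraMap K M).injective (by rw [hUm]; simp)
      have := h4.1 h7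
      simp [this]
  rcases hT with rfl | rfl
  · -- the class is trivial at the place
    have hev : Even (lg w (algebraMap F[X] K P₁)) := evP.mpr hK.rot.rot.chi_zero
    rw [if_pos hev, mul_one]
    have hY₁0 : Y₁ = 0 := by
      rw [hY₁, map_two_torsion (U : M →ₐ[k[X]] M) hM (by rw [hQ'T, map_zero]), sub_self]
    obtain ⟨m, hm, hmj⟩ := exists_of_sq hsq hwP hjβ
    apply concl m _ hP₃ (by rw [hm]; exact Cg.poly hover P₃)
    rw [hmj, hUβ, hchiB, hY₁0, hM.rot.rot.chi_zero, hchiY₂, one_mul]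
  · -- the class is that of `(a, 0)`
    have e1 : hK.rot.rot.chi hK.T = -1 := hK.rot.rot.chi_other
    have hev : ¬ Even (lg w (algebraMap F[X] K P₁)) := by
      rw [evP, e1]
      norm_num
    rw [if_neg hev]
    have hTM : Point.map (W' := W) (Algebra.ofId K M) hK.T = hM.T := map_T _ hK hM
    rw [hTM] at hQ'T
    obtain ⟨X', Y', hXY, rfl⟩ : ∃ X' Y' h, Q' = Point.some X' Y' h := by
      rcases Q' with _ | ⟨X', Y', h⟩
      · exfalso
        exact hM.T_ne_zero (by rw [← hQ'T]; exact (add_zero _))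
      · exact ⟨X', Y', h, rfl⟩
    have hY' : Y' ≠ 0 := by
      rintro rfl
      apply hM.T_ne_zero
      rw [← hQ'T]
      apply Point.add_self_of_Y_eq
      rw [hM.negY_eq]; ring
    obtain ⟨X₂, Y₂', H, e, -, -, ec⟩ := hM.double_some hXY hY'
    rw [e, Split.T] at hQ'T
    simp only [Point.some.injEq] at hQ'T
    obtain ⟨hX₂, -⟩ := hQ'T
    set ρ := Split.rho (algebraMap k[X] M c) (algebraMap k[X] M a) (algebraMap k[X] M b) X' Y'
      with hρ
    have hρ2 : ρ ^ 2 = algebraMap K M (algebraMap k[X] K a - algebraMap k[X] K c) := by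
      rw [← ec, hX₂, map_sub, ← IsScalarTower.algebraMap_apply, ← IsScalarTower.algebraMap_apply]
    have hUρ : U ρ = (hM.rot.rot.chi Y₁ : M) * ρ := by
      have h5 : Point.map (W' := W) (U : M →ₐ[k[X]] M) (.some X' Y' hXY) =
          .some X' Y' hXY + Y₁ := by rw [hY₁]; abel
      rw [Point.map_some] at h5
      have h6 := hM.rot.rot.rho_add_torsion hXY hY' _ hY₁2 h5
      rw [map_rho (U : M →ₐ[k[X]] M)] at h6
      exact h6
    have hacK : algebraMap k[X] K a - algebraMap k[X] K c =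
        algebraMap F[X] K ((a - c).map (algebraMap k F)) := by
      rw [← map_sub, hkK]
    have hac0 : ((a - c).map (algebraMap k F)).eval α ≠ 0 := by
      intro h0
      have h5 := hcol.ac
      rw [hacK] at h5
      have h6 := (Cg.poly hover ((a - c).map (algebraMap k F)))
      rw [h0] at h6
      unfold Cg at h6
      rw [C_0, map_zero, sub_zero, h5] at h6
      exact lt_irrefl _ h6
    have hprod : w (algebraMap F[X] K P₃ * (algebraMap k[X] K a - algebraMap k[X] K c)) = 1 := by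
      rw [map_mul, hwP, hcol.ac, one_mul]
    obtain ⟨m, hm, hmj⟩ := exists_of_sq (M := M) hsq hprod (m := j β * ρ) (by
      rw [mul_pow, hjβ, hρ2, map_mul])
    apply concl m _ (mul_ne_zero hP₃ hac0)
    · rw [hm, hacK]
      exact (Cg.poly hover P₃).mul hover (Cg.poly hover _)
    · rw [hmj, map_mul, hUβ, hUρ, hchiB, hchiY₂]
      push_cast
      ring

end Formula

end Pool.Agent.Lib.MP_89bcae_ag.LevelTwo

end

section

/-!
# The parities and the degree attached to a class with values in the two-torsion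
-/

open Polynomial WeierstrassCurve WeierstrassCurve.Affine IsDedekindDomain

open scoped Classical

namespace Pool.Agent.Lib.MP_89bcae_ag.LevelTwo

set_option linter.unusedSectionVars false

variable {k F L Ω : Type*} [Field k] [Field F] [Algebra k F]
  [IsAlgClosed F] [Field L] [Algebra F[X] L] [IsFractionRing F[X] L] [Algebra k[X] L]
  [Field Ω] [Algebra L Ω] [Algebra k[X] Ω] [IsScalarTower k[X] L Ω] [Algebra F[X] Ω]
  [IsScalarTower F[X] L Ω] [IsGalois L Ω]

variable {W : Affine k[X]} {a b c : k[X]}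

/-- A continuous homomorphism with values in the two-torsion. -/
structure IsHom (s : (Ω ≃ₐ[L] Ω) → (W.baseChange Ω).Point) : Prop where
  two : ∀ g, s g + s g = 0
  mul : ∀ g h, s (g * h) = s g + s h
  loc : IsLocallyConstant s

lemma IsHom.add {s s' : (Ω ≃ₐ[L] Ω) → (W.baseChange Ω).Point} (h : IsHom s) (h' : IsHom s') :
    IsHom (s + s') where
  two g := by
    change s g + s' g + (s g + s' g) = 0
    rw [add_add_add_comm, h.two, h'.two, add_zero]
  mul g h1 := by
    change s (g * h1) + s' (g * h1) = s g + s' g + (s h1 + s' h1)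
    rw [h.mul, h'.mul, add_add_add_comm]
  loc := h.loc.add h'.loc

lemma IsHom.zero : IsHom (0 : (Ω ≃ₐ[L] Ω) → (W.baseChange Ω).Point) where
  two g := add_zero _
  mul g h := (add_zero _).symm
  loc := IsLocallyConstant.const 0

/-- The polynomial representing a quadratic character. -/
noncomputable def pol (hΩ : SplitAt Ω W a b c) (s : (Ω ≃ₐ[L] Ω) → (W.baseChange Ω).Point) : F[X] :=
  if h : ∃ P : F[X], PRep hΩ s P then Classical.choose h else 0

variable {hΩ : SplitAt Ω W a b c} {s s' : (Ω ≃ₐ[L] Ω) → (W.baseChange Ω).Point}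

lemma pol_spec (h : IsHom s) : PRep hΩ s (pol (F := F) hΩ s) := by
  have h1 : ∃ P : F[X], PRep hΩ s P := exists_pRep hΩ h.two h.mul h.loc
  rw [pol, dif_pos h1]
  exact Classical.choose_spec h1

lemma pRep_mul {P P' : F[X]} (h : PRep hΩ s P) (h' : PRep hΩ s' P') (hs : IsHom s)
    (hs' : IsHom s') : PRep hΩ (s + s') (P * P') :=
  PRep.mul h h' hs.two hs'.two

lemma natDegree_eq_of_pRep {P P' : F[X]} (h : PRep hΩ s P) (h' : PRep hΩ s P') :
    (P.natDegree : ZMod 2) = (P'.natDegree : ZMod 2) := by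
  obtain ⟨w, hw, e⟩ := Rep.unique hΩ h h'
  rw [← map_mul] at e
  obtain ⟨v, rfl⟩ := IsIntegrallyClosed.exists_algebraMap_eq_of_isIntegral_pow (R := F[X])
    (K := L) (x := w) two_pos (by rw [← e]; exact isIntegral_algebraMap)
  rw [← map_pow] at e
  have e' := IsFractionRing.injective F[X] L e
  have h1 := congrArg natDegree e'
  rw [natDegree_mul h.ne_zero h'.ne_zero, natDegree_pow] at h1
  have h2 := congrArg (Nat.cast : ℕ → ZMod 2) h1
  push_cast at h2
  rw [show (2 : ZMod 2) = 0 from rfl, zero_mul] at h2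
  exact CharTwo.add_eq_zero.mp h2

/-- The parities of the multiplicities. -/
noncomputable def dv (F : Type*) [Field F] [Algebra F[X] L] (hΩ : SplitAt Ω W a b c)
    (s : (Ω ≃ₐ[L] Ω) → (W.baseChange Ω).Point) : F → ZMod 2 := par (pol (F := F) hΩ s)

/-- The parity of the degree. -/
noncomputable def dg (F : Type*) [Field F] [Algebra F[X] L] (hΩ : SplitAt Ω W a b c)
    (s : (Ω ≃ₐ[L] Ω) → (W.baseChange Ω).Point) : ZMod 2 :=
  ((pol (F := F) hΩ s).natDegree : ZMod 2)

lemma dv_eq (hs : IsHom s) {P : F[X]} (h : PRep hΩ s P) : dv F hΩ s = par P := by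
  funext α
  exact (pol_spec hs).par_eq h α

lemma dg_eq (hs : IsHom s) {P : F[X]} (h : PRep hΩ s P) : dg F hΩ s = (P.natDegree : ZMod 2) :=
  natDegree_eq_of_pRep (pol_spec hs) h

lemma dv_add (hs : IsHom s) (hs' : IsHom s') (α : F) :
    dv F hΩ (s + s') α = dv F hΩ s α + dv F hΩ s' α := by
  have h1 := pol_spec (F := F) (hΩ := hΩ) hs
  have h2 := pol_spec (F := F) (hΩ := hΩ) hs'
  rw [dv_eq (hs.add hs') (pRep_mul h1 h2 hs hs'), par_mul h1.ne_zero h2.ne_zero]
  rfl

lemma dg_add (hs : IsHom s) (hs' : IsHom s') :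
    dg F hΩ (s + s') = dg F hΩ s + dg F hΩ s' := by
  have h1 := pol_spec (F := F) (hΩ := hΩ) hs
  have h2 := pol_spec (F := F) (hΩ := hΩ) hs'
  rw [dg_eq (hs.add hs') (pRep_mul h1 h2 hs hs'), natDegree_mul h1.ne_zero h2.ne_zero,
    Nat.cast_add]
  rfl

lemma dv_zero (α : F) : dv F hΩ (0 : (Ω ≃ₐ[L] Ω) → (W.baseChange Ω).Point) α = 0 := by
  have h := dv_add (hΩ := hΩ) (IsHom.zero (L := L) (Ω := Ω) (W := W)) IsHom.zero α
  rw [add_zero] at h
  exact (left_eq_add.mp h)

lemma dg_zero : dg F hΩ (0 : (Ω ≃ₐ[L] Ω) → (W.baseChange Ω).Point) = 0 := by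
  have h := dg_add (F := F) (hΩ := hΩ) (IsHom.zero (L := L) (Ω := Ω) (W := W)) IsHom.zero
  rw [add_zero] at h
  exact (left_eq_add.mp h)

/-- The product of the three characters is trivial. -/
lemma pRep_three {P₂ P₃ : F[X]} (h2 : PRep hΩ.swap12 s P₂) (h3 : PRep hΩ.rot.rot s P₃)
    (hs : IsHom s) : PRep hΩ s (P₂ * P₃) := by
  unfold PRep
  rw [map_mul]
  exact rep_of_swap h2 h3 hs.two

lemma dv_three (hs : IsHom s) (α : F) :
    dv F hΩ s α + dv F hΩ.swap12 s α + dv F hΩ.rot.rot s α = 0 := by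
  have h2 := pol_spec (F := F) (hΩ := hΩ.swap12) hs
  have h3 := pol_spec (F := F) (hΩ := hΩ.rot.rot) hs
  rw [dv_eq hs (pRep_three h2 h3 hs), par_mul h2.ne_zero h3.ne_zero, add_assoc]
  exact CharTwo.add_self_eq_zero _

lemma dg_three (hs : IsHom s) :
    dg F hΩ s + dg F hΩ.swap12 s + dg F hΩ.rot.rot s = 0 := by
  have h2 := pol_spec (F := F) (hΩ := hΩ.swap12) hs
  have h3 := pol_spec (F := F) (hΩ := hΩ.rot.rot) hs
  rw [dg_eq hs (pRep_three h2 h3 hs), natDegree_mul h2.ne_zero h3.ne_zero, Nat.cast_add, add_assoc]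
  exact CharTwo.add_self_eq_zero _

/-- A class all of whose parities vanish is trivial. -/
lemma eq_zero_of_dv (hs : IsHom s) (h1 : ∀ α : F, dv F hΩ s α = 0)
    (h2 : ∀ α : F, dv F hΩ.swap12 s α = 0) (g : Ω ≃ₐ[L] Ω) : s g = 0 :=
  eq_zero_of_par hs.two (pol_spec (F := F) (hΩ := hΩ) hs) (pol_spec hs) h1 h2 g

/-- The class is represented by the product of the `X - α` for the `α` where the parity is one. -/
lemma pRep_prod (hs : IsHom s) (S : Finset F) (hS : ∀ α, dv F hΩ s α = if α ∈ S then 1 else 0) :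
    PRep hΩ s (∏ α ∈ S, (X - C α)) := by
  have h1 := pol_spec (F := F) (hΩ := hΩ) hs
  have hne : (∏ α ∈ S, (X - C α) : F[X]) ≠ 0 :=
    Finset.prod_ne_zero_iff.mpr fun α _ => X_sub_C_ne_zero α
  have hpar : ∀ α, par (∏ α ∈ S, (X - C α) : F[X]) α = if α ∈ S then 1 else 0 := by
    intro α
    have : ∀ T : Finset F, par (∏ α ∈ T, (X - C α) : F[X]) α = if α ∈ T then 1 else 0 := by
      intro T
      induction T using Finset.induction_on with
      | empty => simp [par, rootMultiplicity_eq_zero]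
      | insert x T hx ih =>
        rw [Finset.prod_insert hx, par_mul (X_sub_C_ne_zero x)
          (Finset.prod_ne_zero_iff.mpr fun α _ => X_sub_C_ne_zero α), ih]
        have h3 : par (X - C x : F[X]) α = if α = x then 1 else 0 := by
          unfold par
          split_ifs with h
          · rw [h, rootMultiplicity_X_sub_C_self, Nat.cast_one]
          · rw [rootMultiplicity_X_sub_C, if_neg h, Nat.cast_zero]
        rw [h3]
        by_cases h : α = x
        · subst h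
          simp [hx]
        · simp [h]
    exact this S
  obtain ⟨Q, hQ⟩ := exists_sq_of_par (pol (F := F) hΩ s * ∏ α ∈ S, (X - C α)) (by
    intro α
    rw [par_mul h1.ne_zero hne, hpar]
    have := hS α
    unfold dv at this
    rw [this]
    exact CharTwo.add_self_eq_zero _)
  -- `∏ = Q² / pol`, and `pol` differs from it by a square
  have hQ0 : Q ≠ 0 := by
    rintro rfl
    rw [zero_pow two_ne_zero] at hQ
    exact mul_ne_zero h1.ne_zero hne hQ
  have hp0 : algebraMap F[X] L (pol (F := F) hΩ s) ≠ 0 := by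
    intro h
    exact h1.ne_zero (IsFractionRing.injective F[X] L (by rw [h, map_zero]))
  have h4 := Rep.mul_sq hΩ h1 (w := algebraMap F[X] L Q / algebraMap F[X] L (pol (F := F) hΩ s))
    (div_ne_zero (fun h => hQ0 (IsFractionRing.injective F[X] L (by rw [h, map_zero]))) hp0)
  unfold PRep
  convert h4 using 1
  rw [div_pow, ← map_pow, ← hQ, map_mul]
  field_simp

end Pool.Agent.Lib.MP_89bcae_ag.LevelTwo

end

section

/-!
# Stability properties of local triviality
-/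

open Polynomial WeierstrassCurve WeierstrassCurve.Affine IsDedekindDomain

open scoped Classical

namespace Pool.Agent.Lib.MP_89bcae_ag.LevelTwo

set_option linter.unusedSectionVars false

universe v

section

variable {R L Ω : Type*} [CommRing R] [Field L] [Field Ω] [Algebra R L] [Algebra R Ω]
  [Algebra L Ω] [IsScalarTower R L Ω] {W : Affine R} {Lv : Type v} [Field Lv] [Algebra L Lv]

lemma locTriv_add {c c' : (Ω ≃ₐ[L] Ω) → (W.baseChange Ω).Point} (h : IsLocallyTrivial Lv c)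
    (h' : IsLocallyTrivial Lv c') : IsLocallyTrivial Lv (c + c') := by
  intro M _ _ _ _ _ _ _ j
  obtain ⟨Q, hQ⟩ := h M j
  obtain ⟨Q', hQ'⟩ := h' M j
  refine ⟨Q + Q', fun g g' hg => ?_⟩
  change Point.map (W' := W) j (c g' + c' g') = _
  rw [map_add, hQ g g' hg, hQ' g g' hg, map_add]
  abel

lemma locTriv_neg {c : (Ω ≃ₐ[L] Ω) → (W.baseChange Ω).Point} (h : IsLocallyTrivial Lv c) :
    IsLocallyTrivial Lv (-c) := by
  intro M _ _ _ _ _ _ _ j
  obtain ⟨Q, hQ⟩ := h M j
  refine ⟨-Q, fun g g' hg => ?_⟩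
  change Point.map (W' := W) j (-c g') = _
  rw [map_neg, hQ g g' hg, map_neg]
  abel

lemma locTriv_cob (q : (W.baseChange Ω).Point) : IsLocallyTrivial Lv
    (fun σ : Ω ≃ₐ[L] Ω => Point.map (W' := W) (σ : Ω →ₐ[L] Ω) q - q) := by
  intro M _ _ _ _ _ _ _ j
  refine ⟨Point.map (W' := W) j q, fun g g' hg => ?_⟩
  have e1 : Point.map (W' := W) j (Point.map (W' := W) (g' : Ω →ₐ[L] Ω) q) =
      Point.map (W' := W) (g.restrictScalars L : M →ₐ[L] M) (Point.map (W' := W) j q) :=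
    map_map_eq (g' : Ω →ₐ[L] Ω) j j (g.restrictScalars L : M →ₐ[L] M) hg q
  rw [map_sub, e1]

lemma locTriv_conj_aux {c c' : (Ω ≃ₐ[L] Ω) → (W.baseChange Ω).Point} {Lv' : Type v} [Field Lv']
    [Algebra L Lv'] (f : L ≃+* L) (φ : Lv ≃+* Lv') (γ : Ω ≃ₐ[R] Ω)
    (hγ : ∀ x : L, γ (algebraMap L Ω x) = algebraMap L Ω (f x))
    (hcc' : ∀ σ σ' : Ω ≃ₐ[L] Ω, (∀ x, γ (σ' x) = σ (γ x)) →
      Point.map (W' := W) (γ : Ω →ₐ[R] Ω) (c σ') = c' σ) (h : IsLocallyTrivial Lv c)
    {M : Type v} [Field M] [Algebra Lv' M] [Algebra L M] [IsScalarTower L Lv' M]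
    [Algebra R M] [IsScalarTower R L M]
    {M' : Type v} [Field M'] [Algebra Lv M'] [IsSepClosure Lv M'] [Algebra L M']
    [IsScalarTower L Lv M'] [Algebra R M'] [IsScalarTower R L M'] (e : M' ≃+* M)
    (he : ∀ x : Lv, e (algebraMap Lv M' x) = algebraMap Lv' M (φ x))
    (he' : ∀ x : L, e (algebraMap L M' x) = algebraMap L M (f x))
    (heR : ∀ x : R, e (algebraMap R M' x) = algebraMap R M x)
    (j : Ω →ₐ[L] M) :
    ∃ Q : (W.baseChange M).Point,
      ∀ (g : M ≃ₐ[Lv'] M) (g' : Ω ≃ₐ[L] Ω), (∀ x, j (g' x) = g (j x)) →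
        Point.map (W' := W) j (c' g') =
          Point.map (W' := W) (g.restrictScalars L : M →ₐ[L] M) Q - Q := by
  let e' : M' ≃ₐ[R] M := AlgEquiv.ofRingEquiv (f := e) heR
  -- the embedding of `Ω` in `M'`
  let j' : Ω →ₐ[L] M' :=
    { toRingHom := (e.symm : M →+* M').comp ((j : Ω →+* M).comp (γ : Ω →+* Ω))
      commutes' := fun x => by
        change e.symm (j (γ (algebraMap L Ω x))) = algebraMap L M' x
        rw [hγ, j.commutes, ← he', RingEquiv.symm_apply_apply] }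
  have hj' : ∀ x, e (j' x) = j (γ x) := fun x => by
    change e (e.symm (j (γ x))) = _
    rw [RingEquiv.apply_symm_apply]
  obtain ⟨Q₀, hQ₀⟩ := h M' j'
  refine ⟨Point.map (W' := W) (e' : M' →ₐ[R] M) Q₀, fun g g' hg => ?_⟩
  -- the conjugates of `g` and `g'`
  let s : M' ≃ₐ[Lv] M' := AlgEquiv.ofRingEquiv (f := (e.trans g.toRingEquiv).trans e.symm) (by
    intro y
    change e.symm (g (e (algebraMap Lv M' y))) = algebraMap Lv M' y
    rw [he, g.commutes, ← he, RingEquiv.symm_apply_apply])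
  have hs : ∀ x, e (s x) = g (e x) := fun x => by
    change e (e.symm (g (e x))) = _
    rw [RingEquiv.apply_symm_apply]
  obtain ⟨s', hs'⟩ : ∃ s' : Ω ≃ₐ[L] Ω, ∀ x, γ (s' x) = g' (γ x) := by
    refine ⟨AlgEquiv.ofRingEquiv (f := (γ.toRingEquiv.trans g'.toRingEquiv).trans
      γ.symm.toRingEquiv) ?_, ?_⟩
    · intro y
      change γ.symm (g' (γ (algebraMap L Ω y))) = algebraMap L Ω y
      rw [hγ, g'.commutes, ← hγ, AlgEquiv.symm_apply_apply]
    · intro x
      change γ (γ.symm (g' (γ x))) = g' (γ x)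
      rw [AlgEquiv.apply_symm_apply]
  have hss : ∀ x, j' (s' x) = s (j' x) := by
    intro x
    apply e.injective
    rw [hj', hs', hg, hs, hj']
  have h1 := hQ₀ s s' hss
  have e1 : Point.map (W' := W) (g.restrictScalars L : M →ₐ[L] M)
      (Point.map (W' := W) (e' : M' →ₐ[R] M) Q₀) = Point.map (W' := W) (e' : M' →ₐ[R] M)
        (Point.map (W' := W) (s.restrictScalars L : M' →ₐ[L] M') Q₀) :=
    map_map_eq (e' : M' →ₐ[R] M) (g.restrictScalars L : M →ₐ[L] M)
      (s.restrictScalars L : M' →ₐ[L] M') (e' : M' →ₐ[R] M) (fun x => (hs x).symm) Q₀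
  have e2 : Point.map (W' := W) j (Point.map (W' := W) (γ : Ω →ₐ[R] Ω) (c s')) =
      Point.map (W' := W) (e' : M' →ₐ[R] M) (Point.map (W' := W) j' (c s')) :=
    map_map_eq (γ : Ω →ₐ[R] Ω) j j' (e' : M' →ₐ[R] M) (fun x => (hj' x).symm) (c s')
  rw [← hcc' g' s' hs', e1, e2, h1, map_sub]

/-- The conjugate of a locally trivial class is locally trivial at the conjugate place. -/
lemma locTriv_conj {c c' : (Ω ≃ₐ[L] Ω) → (W.baseChange Ω).Point} {Lv' : Type v} [Field Lv']
    [Algebra L Lv'] (f : L ≃+* L) (hf : ∀ x : R, f (algebraMap R L x) = algebraMap R L x)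
    (φ : Lv ≃+* Lv') (hφ : ∀ x : L, φ (algebraMap L Lv x) = algebraMap L Lv' (f x))
    (γ : Ω ≃ₐ[R] Ω) (hγ : ∀ x : L, γ (algebraMap L Ω x) = algebraMap L Ω (f x))
    (hcc' : ∀ σ σ' : Ω ≃ₐ[L] Ω, (∀ x, γ (σ' x) = σ (γ x)) →
      Point.map (W' := W) (γ : Ω →ₐ[R] Ω) (c σ') = c' σ) (h : IsLocallyTrivial Lv c) :
    IsLocallyTrivial Lv' c' := by
  intro M _ i1 i2 i3 i4 i5 i6 j
  have hsc : IsSepClosed M := IsSepClosure.sep_closed Lv'
  have hsep : Algebra.IsSeparable Lv' M := IsSepClosure.separable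
  have htow : ∀ x : L, algebraMap L M x = algebraMap Lv' M (algebraMap L Lv' x) := fun x =>
    IsScalarTower.algebraMap_apply L Lv' M x
  have htow' : ∀ x : R, algebraMap R M x = algebraMap L M (algebraMap R L x) := fun x =>
    IsScalarTower.algebraMap_apply R L M x
  let ιv : Lv' →+* M := algebraMap Lv' M
  let ιL : L →+* M := algebraMap L M
  let a1 : Algebra Lv M := (ιv.comp (φ : Lv →+* Lv')).toAlgebra
  let a2 : Algebra L M := (ιL.comp (f : L →+* L)).toAlgebra
  have a3 : @IsScalarTower L Lv M _ a1.toSMul a2.toSMul :=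
    @IsScalarTower.of_algebraMap_eq L Lv M _ _ _ _ a1 a2 (fun x => by
      change ιL (f x) = ιv (φ (algebraMap L Lv x))
      rw [hφ]
      exact htow (f x))
  have a6 : @IsScalarTower R L M _ a2.toSMul i5.toSMul :=
    @IsScalarTower.of_algebraMap_eq R L M _ _ _ _ a2 i5 (fun x => by
      change @algebraMap R M _ _ i5 x = ιL (f (algebraMap R L x))
      rw [hf]
      exact htow' x)
  have a4 : @Algebra.IsSeparable Lv M _ _ a1 := by
    refine @Algebra.IsSeparable.of_equiv_equiv Lv' M Lv M _ _ _ _ i1 a1 φ.symm (RingEquiv.refl M)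
      ?_ hsep
    ext x
    change ιv (φ (φ.symm x)) = ιv x
    rw [RingEquiv.apply_symm_apply]
  have a5 : @IsSepClosure Lv _ M _ a1 := ⟨hsc, a4⟩
  exact @locTriv_conj_aux R L Ω _ _ _ _ _ _ _ W Lv _ _ c c' Lv' _ _ f φ γ hγ
    hcc' h M _ i1 i3 i4 i5 i6 M _ a1 a5 a2 a3 i5 a6 (RingEquiv.refl M) (fun x => rfl)
      (fun x => rfl) (fun x => rfl) j

end

section Places

variable {k : Type*} {F L : Type v} {Ω : Type*} [Field k] [Field F] [Algebra k F]
  [Algebra.IsAlgebraic k F]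
  [IsAlgClosed F] [Field L] [Field Ω]
  [Algebra F[X] L] [IsFractionRing F[X] L] [Algebra L Ω] [Algebra F[X] Ω] [IsScalarTower F[X] L Ω]
  [Algebra k[X] L] [Algebra k[X] Ω] [IsScalarTower k[X] L Ω]
  [IsGalois L Ω] [IsSepClosed Ω] [IsSepClosure L Ω]

variable {W : Affine k[X]}

/-- Local triviality at the finite places. -/
def LocFin (F : Type v) [Field F] [Algebra F[X] L] [IsFractionRing F[X] L]
    (c : (Ω ≃ₐ[L] Ω) → (W.baseChange Ω).Point) : Prop :=
  ∀ α : F, IsLocallyTrivial ((placeAt α).adicCompletion L) c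

variable (hk : ∀ p : k[X], algebraMap k[X] L p = algebraMap F[X] L (p.map (algebraMap k F)))

lemma locFin_conj {c : (Ω ≃ₐ[L] Ω) → (W.baseChange Ω).Point} (hc : LocFin F c)
    (γ : Ω ≃ₐ[k[X]] Ω) :
    LocFin F (fun σ => Point.map (W' := W) (γ : Ω →ₐ[k[X]] Ω) (c (cj hk γ σ))) := by
  intro τ'
  obtain ⟨τ, rfl⟩ : ∃ τ, (resF hk γ) τ = τ' := (resF hk γ).surjective τ'
  obtain ⟨φ, hφ, -⟩ := exists_adic_equiv L ((resF hk γ : F ≃ₐ[k] F) : F ≃+* F) τ
  refine locTriv_conj (c := c) (coefL L ((resF hk γ : F ≃ₐ[k] F) : F ≃+* F)) ?_ φ hφ γ ?_ ?_ (hc τ)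
  · intro p
    rw [hk, coefL_algebraMap]
    congr 1
    exact map_fix (resF hk γ) p
  · intro x
    obtain ⟨p, q, hq, rfl⟩ := IsFractionRing.div_surjective (A := F[X]) x
    rw [map_div₀, map_div₀, map_div₀, map_div₀, coefL_algebraMap, coefL_algebraMap,
      ← IsScalarTower.algebraMap_apply, ← IsScalarTower.algebraMap_apply,
      ← IsScalarTower.algebraMap_apply, ← IsScalarTower.algebraMap_apply]
    have h1 : ∀ r : F[X], γ (algebraMap F[X] Ω r) = algebraMap F[X] Ω
        (r.map ((resF hk γ : F ≃ₐ[k] F) : F →+* F)) := fun r => resF_spec hk γ r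
    rw [h1, h1]
    rfl
  · intro σ σ' hσ
    rw [cj_unique hk hσ]

end Places

end Pool.Agent.Lib.MP_89bcae_ag.LevelTwo

end

section

/-!
# The quadratic characters attached to the differences of the roots
-/

open Polynomial

open scoped Classical

namespace Pool.Agent.Lib.MP_89bcae_ag.LevelTwo

set_option linter.unusedSectionVars false

section Mu

variable {F : Type*} [Field F] [IsAlgClosed F]

/-- The character of the square roots of `q`. -/
noncomputable def mu (τ : F → F) (q : F) : ZMod 2 := if Moves τ q then 1 else 0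

lemma mu_eq_one {τ : F → F} {q : F} : mu τ q = 1 ↔ Moves τ q := by
  unfold mu
  split_ifs with h
  · simp [h]
  · simp [h]

lemma mu_eq_zero {τ : F → F} {q : F} : mu τ q = 0 ↔ ¬ Moves τ q := by
  unfold mu
  split_ifs with h
  · simp [h]
  · simp [h]

variable {τ : F →+* F} (h2 : (2 : F) ≠ 0)

include h2

lemma mu_mul {q q' : F} (hq : q ≠ 0) (hq' : q' ≠ 0) (hτ : τ q = q) (hτ' : τ q' = q') :
    mu τ (q * q') = mu τ q + mu τ q' := by
  obtain ⟨s, hs⟩ := IsAlgClosed.exists_pow_nat_eq q (n := 2) (by norm_num)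
  obtain ⟨s', hs'⟩ := IsAlgClosed.exists_pow_nat_eq q' (n := 2) (by norm_num)
  have h := moves_iff_neg h2 hq hτ hs
  have h' := moves_iff_neg h2 hq' hτ' hs'
  have h'' := moves_iff_neg h2 (mul_ne_zero hq hq') (s := s * s') (by rw [map_mul, hτ, hτ'])
    (by rw [mul_pow, hs, hs'])
  by_cases m : Moves τ q <;> by_cases m' : Moves τ q'
  · rw [mu_eq_one.mpr m, mu_eq_one.mpr m', mu_eq_zero.mpr (h''.2.mpr (by
      rw [map_mul, h.1.mp m, h'.1.mp m']; ring))]
    rfl
  · rw [mu_eq_one.mpr m, mu_eq_zero.mpr m', mu_eq_one.mpr (h''.1.mpr (by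
      rw [map_mul, h.1.mp m, h'.2.mp m']; ring))]
    rfl
  · rw [mu_eq_zero.mpr m, mu_eq_one.mpr m', mu_eq_one.mpr (h''.1.mpr (by
      rw [map_mul, h.2.mp m, h'.1.mp m']; ring))]
    rfl
  · rw [mu_eq_zero.mpr m, mu_eq_zero.mpr m', mu_eq_zero.mpr (h''.2.mpr (by
      rw [map_mul, h.2.mp m, h'.2.mp m']))]
    rfl

lemma mu_sq {q : F} (_ : q ≠ 0) (hτ : τ q = q) : mu τ (q ^ 2) = 0 := by
  rw [mu_eq_zero]
  intro h
  exact h q rfl hτ

lemma mu_one : mu τ (1 : F) = 0 := by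
  have := mu_sq h2 (τ := τ) (one_ne_zero (α := F)) (map_one τ)
  rwa [one_pow] at this

lemma mu_prod {ι : Type*} (s : Finset ι) (q : ι → F) (hq : ∀ i ∈ s, q i ≠ 0)
    (hτ : ∀ i ∈ s, τ (q i) = q i) : mu τ (∏ i ∈ s, q i) = ∑ i ∈ s, mu τ (q i) := by
  induction s using Finset.induction_on with
  | empty => rw [Finset.prod_empty, Finset.sum_empty, mu_one h2]
  | insert i s hi ih =>
    have h1 : ∀ j ∈ s, q j ≠ 0 := fun j hj => hq j (Finset.mem_insert_of_mem hj)
    have h3 : ∀ j ∈ s, τ (q j) = q j := fun j hj => hτ j (Finset.mem_insert_of_mem hj)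
    rw [Finset.prod_insert hi, Finset.sum_insert hi,
      mu_mul h2 (hq i (Finset.mem_insert_self i s)) (Finset.prod_ne_zero_iff.mpr h1)
        (hτ i (Finset.mem_insert_self i s)) (by rw [map_prod]; exact Finset.prod_congr rfl h3),
      ih h1 h3]

lemma mu_pow {q : F} (hq : q ≠ 0) (hτ : τ q = q) (n : ℕ) : mu τ (q ^ n) = n * mu τ q := by
  induction n with
  | zero => rw [pow_zero, mu_one h2, Nat.cast_zero, zero_mul]
  | succ n ih =>
    rw [pow_succ, mu_mul h2 (pow_ne_zero n hq) hq (by rw [map_pow, hτ]) hτ, ih]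
    push_cast
    ring

lemma mu_neg {q : F} (hq : q ≠ 0) (hτ : τ q = q) : mu τ (-q) = mu τ (-1 : F) + mu τ q := by
  rw [← mu_mul h2 (neg_ne_zero.mpr one_ne_zero) hq (by rw [map_neg, map_one]) hτ, neg_one_mul]

/-- The value of a polynomial with odd multiplicities. -/
lemma mu_eval {p : F[X]} (hp : p ≠ 0) (hlc : τ p.leadingCoeff = p.leadingCoeff)
    (hodd : ∀ α, p.eval α = 0 → Odd (p.rootMultiplicity α)) (hfix : ∀ α, p.eval α = 0 → τ α = α)
    {β : F} (hβ : τ β = β) (h0 : p.eval β ≠ 0) :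
    mu τ (p.eval β) = mu τ p.leadingCoeff + ∑ α ∈ p.roots.toFinset, mu τ (β - α) := by
  have hroot : ∀ α ∈ p.roots.toFinset, p.eval α = 0 := fun α hα => by
    rw [Multiset.mem_toFinset, mem_roots hp] at hα
    exact hα
  have h1 : p = C p.leadingCoeff * (p.roots.map fun α => X - C α).prod :=
    (IsAlgClosed.splits p).eq_prod_roots
  have h3 : (p.roots.map fun α => X - C α).prod =
      ∏ α ∈ p.roots.toFinset, (X - C α) ^ p.rootMultiplicity α := by
    rw [Finset.prod_multiset_map_count]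
    exact Finset.prod_congr rfl fun α _ => by rw [count_roots]
  have h4 : p.eval β = p.leadingCoeff *
      ∏ α ∈ p.roots.toFinset, (β - α) ^ p.rootMultiplicity α := by
    conv_lhs => rw [h1, h3]
    rw [eval_mul, eval_C, eval_prod]
    congr 1
    exact Finset.prod_congr rfl fun α _ => by simp
  have hne : ∀ α ∈ p.roots.toFinset, β - α ≠ 0 := by
    intro α hα h
    apply h0
    rw [sub_eq_zero.mp h]
    exact hroot α hα
  have hτd : ∀ α ∈ p.roots.toFinset, τ (β - α) = β - α := fun α hα => by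
    rw [map_sub, hβ, hfix α (hroot α hα)]
  rw [h4, mu_mul h2 (leadingCoeff_ne_zero.mpr hp)
    (Finset.prod_ne_zero_iff.mpr fun α hα => pow_ne_zero _ (hne α hα)) hlc (by
      rw [map_prod]
      exact Finset.prod_congr rfl fun α hα => by rw [map_pow, hτd α hα]),
    mu_prod h2 _ _ (fun α hα => pow_ne_zero _ (hne α hα)) (fun α hα => by rw [map_pow, hτd α hα])]
  congr 1
  refine Finset.sum_congr rfl fun α hα => ?_
  rw [mu_pow h2 (hne α hα) (hτd α hα), ZMod.natCast_eq_one_iff_odd.mpr (hodd α (hroot α hα)),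
    one_mul]

end Mu

section Identity

variable {F : Type*} [Field F] [IsAlgClosed F] {τ : F →+* F}

/-- The value of `mu` on `diffProd`. -/
lemma mu_diffProd (h2 : (2 : F) ≠ 0) {S T U : Finset F} {e x : F} (he : e ≠ 0) (hτe : τ e = e)
    (hx : τ x = x) (hT : ∀ s ∈ T, τ s = s ∧ s ≠ x) (hU : ∀ s ∈ U, τ s = s ∧ s ≠ x) :
    mu τ (diffProd S T U e x) = ∑ s ∈ T, mu τ (x - s) + ∑ s ∈ U, mu τ (x - s) +
      if x ∈ S then mu τ e else 0 := by
  have nT : ∀ s ∈ T, x - s ≠ 0 := fun s hs => sub_ne_zero.mpr (hT s hs).2.symm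
  have nU : ∀ s ∈ U, x - s ≠ 0 := fun s hs => sub_ne_zero.mpr (hU s hs).2.symm
  have fT : ∀ s ∈ T, τ (x - s) = x - s := fun s hs => by rw [map_sub, hx, (hT s hs).1]
  have fU : ∀ s ∈ U, τ (x - s) = x - s := fun s hs => by rw [map_sub, hx, (hU s hs).1]
  have pT : (∏ s ∈ T, (x - s)) ≠ 0 := Finset.prod_ne_zero_iff.mpr nT
  have pU : (∏ s ∈ U, (x - s)) ≠ 0 := Finset.prod_ne_zero_iff.mpr nU
  have qT : τ (∏ s ∈ T, (x - s)) = ∏ s ∈ T, (x - s) := by
    rw [map_prod]; exact Finset.prod_congr rfl fT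
  have qU : τ (∏ s ∈ U, (x - s)) = ∏ s ∈ U, (x - s) := by
    rw [map_prod]; exact Finset.prod_congr rfl fU
  unfold diffProd
  rw [mu_mul h2 (mul_ne_zero pT pU) (by split_ifs <;> simp [he]) (by rw [map_mul, qT, qU])
    (by split_ifs <;> simp [hτe]), mu_mul h2 pT pU qT qU, mu_prod h2 _ _ nT fT,
    mu_prod h2 _ _ nU fU]
  congr 1
  split_ifs
  · rfl
  · exact mu_one h2

/-- The parity identity. Here `f`, `g` are the polynomials with roots `A`, `B`, and they have the
same values at the elements of `U`. -/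
lemma mu_identity (h2 : (2 : F) ≠ 0) {f g : F[X]} (hf : f ≠ 0) (hg : g ≠ 0)
    (hflc : τ f.leadingCoeff = f.leadingCoeff) (hglc : τ g.leadingCoeff = g.leadingCoeff)
    (hfodd : ∀ α, f.eval α = 0 → Odd (f.rootMultiplicity α))
    (hgodd : ∀ α, g.eval α = 0 → Odd (g.rootMultiplicity α))
    (hffix : ∀ α, f.eval α = 0 → τ α = α) (hgfix : ∀ α, g.eval α = 0 → τ α = α)
    (hcop : ∀ α, f.eval α = 0 → g.eval α ≠ 0)
    (hfcard : Odd f.roots.toFinset.card) (hgcard : Odd g.roots.toFinset.card)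
    {S T U : Finset F} (hS : S ⊆ f.roots.toFinset) (hT : T ⊆ g.roots.toFinset)
    (hU : ∀ u ∈ U, τ u = u ∧ f.eval u ≠ 0 ∧ g.eval u = f.eval u)
    (hST : Even (S.card + T.card)) (hSU : Even (S.card + U.card)) :
    ∑ x ∈ f.roots.toFinset, mu τ (diffProd S T U (g.eval x) x) =
      ∑ x ∈ g.roots.toFinset, mu τ (diffProd T S U (f.eval x) x) := by
  set A := f.roots.toFinset with hA
  set B := g.roots.toFinset with hB
  have hAr : ∀ α ∈ A, f.eval α = 0 := fun α hα => by
    rw [hA, Multiset.mem_toFinset, mem_roots hf] at hα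
    exact hα
  have hBr : ∀ α ∈ B, g.eval α = 0 := fun α hα => by
    rw [hB, Multiset.mem_toFinset, mem_roots hg] at hα
    exact hα
  have hτeval : ∀ (p : F[X]) (x : F), p ≠ 0 → τ p.leadingCoeff = p.leadingCoeff →
      (∀ α, p.eval α = 0 → τ α = α) → τ x = x → τ (p.eval x) = p.eval x := by
    intro p x hp hlc hfix hx
    have h1 : p = C p.leadingCoeff * (p.roots.map fun α => X - C α).prod :=
      (IsAlgClosed.splits p).eq_prod_roots
    have h3 : (p.roots.map fun α => X - C α).prod =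
        ∏ α ∈ p.roots.toFinset, (X - C α) ^ p.rootMultiplicity α := by
      rw [Finset.prod_multiset_map_count]
      exact Finset.prod_congr rfl fun α _ => by rw [count_roots]
    have h4 : p.eval x = p.leadingCoeff *
        ∏ α ∈ p.roots.toFinset, (x - α) ^ p.rootMultiplicity α := by
      conv_lhs => rw [h1, h3]
      rw [eval_mul, eval_C, eval_prod]
      congr 1
      exact Finset.prod_congr rfl fun α _ => by simp
    rw [h4, map_mul, hlc, map_prod]
    congr 1
    refine Finset.prod_congr rfl fun α hα => ?_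
    rw [Multiset.mem_toFinset, mem_roots hp] at hα
    rw [map_pow, map_sub, hx, hfix α hα]
  have hswap : ∀ x y : F, τ x = x → τ y = y → x ≠ y →
      mu τ (x - y) = mu τ (-1 : F) + mu τ (y - x) := by
    intro x y hx hy hxy
    have := mu_neg h2 (τ := τ) (q := y - x) (sub_ne_zero.mpr hxy.symm) (by rw [map_sub, hx, hy])
    rw [neg_sub] at this
    exact this
  have hfixA : ∀ α ∈ A, τ α = α := fun α hα => hffix α (hAr α hα)
  have hfixB : ∀ α ∈ B, τ α = α := fun α hα => hgfix α (hBr α hα)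
  have hAB : ∀ α ∈ A, ∀ β ∈ B, α ≠ β := by
    rintro α hα β hβ rfl
    exact hcop α (hAr α hα) (hBr α hβ)
  have hUA : ∀ u ∈ U, ∀ α ∈ A, u ≠ α := by
    rintro u hu α hα rfl
    exact (hU u hu).2.1 (hAr u hα)
  have hUB : ∀ u ∈ U, ∀ β ∈ B, u ≠ β := by
    rintro u hu β hβ rfl
    exact (hU u hu).2.1 ((hU u hu).2.2 ▸ hBr u hβ)
  -- the two sides
  have L1 : ∀ x ∈ A, mu τ (diffProd S T U (g.eval x) x) = ∑ s ∈ T, mu τ (x - s) +
      ∑ s ∈ U, mu τ (x - s) + if x ∈ S then
        (mu τ g.leadingCoeff + ∑ β ∈ B, mu τ (x - β)) else 0 := by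
    intro x hx
    have hgx : g.eval x ≠ 0 := hcop x (hAr x hx)
    rw [mu_diffProd h2 hgx (hτeval g x hg hglc hgfix (hfixA x hx)) (hfixA x hx)
      (fun s hs => ⟨hfixB s (hT hs), (hAB x hx s (hT hs)).symm⟩)
      (fun s hs => ⟨(hU s hs).1, hUA s hs x hx⟩),
      mu_eval h2 hg hglc hgodd hgfix (hfixA x hx) hgx]
  have L2 : ∀ x ∈ B, mu τ (diffProd T S U (f.eval x) x) = ∑ s ∈ S, mu τ (x - s) +
      ∑ s ∈ U, mu τ (x - s) + if x ∈ T then
        (mu τ f.leadingCoeff + ∑ α ∈ A, mu τ (x - α)) else 0 := by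
    intro x hx
    have hfx : f.eval x ≠ 0 := fun h => hcop x h (hBr x hx)
    rw [mu_diffProd h2 hfx (hτeval f x hf hflc hffix (hfixB x hx)) (hfixB x hx)
      (fun s hs => ⟨hfixA s (hS hs), hAB s (hS hs) x hx⟩)
      (fun s hs => ⟨(hU s hs).1, hUB s hs x hx⟩),
      mu_eval h2 hf hflc hfodd hffix (hfixB x hx) hfx]
  -- values on `U`
  have LU : ∀ u ∈ U, ∑ x ∈ A, mu τ (x - u) + ∑ x ∈ B, mu τ (x - u) =
      mu τ f.leadingCoeff + mu τ g.leadingCoeff := by
    intro u hu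
    have e1 := mu_eval h2 hf hflc hfodd hffix (hU u hu).1 (hU u hu).2.1
    have e2 := mu_eval h2 hg hglc hgodd hgfix (hU u hu).1 (by
      rw [(hU u hu).2.2]; exact (hU u hu).2.1)
    rw [(hU u hu).2.2, e1] at e2
    have e3 : ∑ x ∈ A, mu τ (x - u) = mu τ (-1 : F) + ∑ x ∈ A, mu τ (u - x) := by
      rw [Finset.sum_congr rfl fun x hx => hswap x u (hfixA x hx) (hU u hu).1 (hUA u hu x hx).symm,
        Finset.sum_add_distrib, Finset.sum_const, nsmul_eq_mul,
        ZMod.natCast_eq_one_iff_odd.mpr hfcard, one_mul]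
    have e4 : ∑ x ∈ B, mu τ (x - u) = mu τ (-1 : F) + ∑ x ∈ B, mu τ (u - x) := by
      rw [Finset.sum_congr rfl fun x hx => hswap x u (hfixB x hx) (hU u hu).1 (hUB u hu x hx).symm,
        Finset.sum_add_distrib, Finset.sum_const, nsmul_eq_mul,
        ZMod.natCast_eq_one_iff_odd.mpr hgcard, one_mul]
    rw [e3, e4]
    have h3 := CharTwo.add_self_eq_zero (mu τ (-1 : F))
    have h4 := CharTwo.add_self_eq_zero (∑ x ∈ A, mu τ (u - x))
    have h5 := CharTwo.add_self_eq_zero (mu τ g.leadingCoeff)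
    linear_combination h3 - e2 + h4 - h5
  rw [Finset.sum_congr rfl L1, Finset.sum_congr rfl L2]
  simp only [Finset.sum_add_distrib]
  have iS : ∑ x ∈ A, (if x ∈ S then (mu τ g.leadingCoeff + ∑ β ∈ B, mu τ (x - β)) else 0) =
      ∑ x ∈ S, (mu τ g.leadingCoeff + ∑ β ∈ B, mu τ (x - β)) := by
    rw [← Finset.sum_filter]
    congr 1
    ext x
    rw [Finset.mem_filter]
    exact ⟨fun h => h.2, fun h => ⟨hS h, h⟩⟩
  have iT : ∑ x ∈ B, (if x ∈ T then (mu τ f.leadingCoeff + ∑ α ∈ A, mu τ (x - α)) else 0) =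
      ∑ x ∈ T, (mu τ f.leadingCoeff + ∑ α ∈ A, mu τ (x - α)) := by
    rw [← Finset.sum_filter]
    congr 1
    ext x
    rw [Finset.mem_filter]
    exact ⟨fun h => h.2, fun h => ⟨hT h, h⟩⟩
  rw [iS, iT, Finset.sum_add_distrib, Finset.sum_add_distrib, Finset.sum_const, Finset.sum_const,
    nsmul_eq_mul, nsmul_eq_mul]
  -- the double sums
  have dT : ∑ x ∈ A, ∑ s ∈ T, mu τ (x - s) + ∑ s ∈ T, ∑ x ∈ A, mu τ (s - x) =
      T.card * mu τ (-1 : F) := by
    rw [Finset.sum_comm, ← Finset.sum_add_distrib]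
    rw [Finset.sum_congr rfl (g := fun _ => mu τ (-1 : F)), Finset.sum_const, nsmul_eq_mul]
    intro s hs
    rw [Finset.sum_congr rfl fun x hx => hswap x s (hfixA x hx) (hfixB s (hT hs))
      (hAB x hx s (hT hs)), Finset.sum_add_distrib, Finset.sum_const, nsmul_eq_mul,
      ZMod.natCast_eq_one_iff_odd.mpr hfcard, one_mul, add_assoc, CharTwo.add_self_eq_zero,
      add_zero]
  have dS : ∑ x ∈ B, ∑ s ∈ S, mu τ (x - s) + ∑ s ∈ S, ∑ x ∈ B, mu τ (s - x) =
      S.card * mu τ (-1 : F) := by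
    rw [Finset.sum_comm, ← Finset.sum_add_distrib]
    rw [Finset.sum_congr rfl (g := fun _ => mu τ (-1 : F)), Finset.sum_const, nsmul_eq_mul]
    intro s hs
    rw [Finset.sum_congr rfl fun x hx => hswap x s (hfixB x hx) (hfixA s (hS hs))
      (hAB s (hS hs) x hx).symm, Finset.sum_add_distrib, Finset.sum_const, nsmul_eq_mul,
      ZMod.natCast_eq_one_iff_odd.mpr hgcard, one_mul, add_assoc, CharTwo.add_self_eq_zero,
      add_zero]
  have dU : ∑ x ∈ A, ∑ s ∈ U, mu τ (x - s) + ∑ x ∈ B, ∑ s ∈ U, mu τ (x - s) =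
      U.card * (mu τ f.leadingCoeff + mu τ g.leadingCoeff) := by
    rw [Finset.sum_comm, Finset.sum_comm (s := B), ← Finset.sum_add_distrib,
      Finset.sum_congr rfl LU, Finset.sum_const, nsmul_eq_mul]
  have cST : (T.card : ZMod 2) = S.card := by
    have := (ZMod.natCast_eq_zero_iff_even.mpr hST)
    push_cast at this
    exact (CharTwo.add_eq_zero.mp this).symm
  have cSU : (U.card : ZMod 2) = S.card := by
    have := (ZMod.natCast_eq_zero_iff_even.mpr hSU)
    push_cast at this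
    exact (CharTwo.add_eq_zero.mp this).symm
  rw [cST] at dT ⊢
  rw [cSU] at dU
  have two : (2 : ZMod 2) = 0 := rfl
  linear_combination dT + dS + dU + ((S.card : ZMod 2) * mu τ g.leadingCoeff +
    (S.card : ZMod 2) * mu τ (-1 : F) - ∑ x ∈ B, ∑ s ∈ S, mu τ (x - s) -
    ∑ x ∈ B, ∑ s ∈ U, mu τ (x - s) - ∑ s ∈ T, ∑ x ∈ A, mu τ (s - x)) * two

end Identity

end Pool.Agent.Lib.MP_89bcae_ag.LevelTwo

end
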