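import Mathlib
import Pool.Agent.Lib.MP_89bcae_ag.LocalLevelTwo
import Pool.Agent.Lib.MP_89bcae_ag.Alg8
import Pool.Agent.Lib.MP_89bcae_ag.Trans8
import Pool.Agent.Lib.MP_89bcae_ag.Resid8
import Pool.Agent.Lib.MP_89bcae_ag.Char8

/-!
# Level two curves: the Selmer group, the action on triples, the main theorem
-/

section

/-!
# The group of classes and the map to triples of sets of roots
-/

open Polynomial WeierstrassCurve WeierstrassCurve.Affine IsDedekindDomain

open scoped Classical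

namespace Pool.Agent.Lib.MP_89bcae_ag.LevelTwo

set_option linter.unusedSectionVars false

universe v

section

variable {k : Type*} {F L : Type v} {Ω : Type*} [Field k] [Field F] [Algebra k F]
  [Algebra.IsAlgebraic k F]
  [IsAlgClosed F] [Field L] [Field Ω]
  [Algebra F[X] L] [IsFractionRing F[X] L] [Algebra L Ω] [Algebra F[X] Ω] [IsScalarTower F[X] L Ω]
  [Algebra k[X] L] [Algebra k[X] Ω] [IsScalarTower k[X] L Ω]
  [IsGalois L Ω] [IsSepClosed Ω] [IsSepClosure L Ω]

variable {W : Affine k[X]} {a b c : k[X]} {n : ℕ}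

/-- The standing assumptions. -/
structure Ctx7 (F L : Type v) [Field F] [Algebra k F] [Field L] [Algebra F[X] L]
    [Algebra k[X] L] (W : Affine k[X]) (a b c : k[X]) (n : ℕ) : Prop where
  hk : ∀ p : k[X], algebraMap k[X] L p = algebraMap F[X] L (p.map (algebraMap k F))
  split : SplitAt L W a b c
  odd : Odd n
  dab : (a - b).natDegree = n
  dac : (a - c).natDegree = n
  dbc : (b - c).natDegree = n
  cop : ∀ α : F, ((a - b).map (algebraMap k F)).eval α = 0 →
    ((a - c).map (algebraMap k F)).eval α ≠ 0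
  mab : ∀ α : F, ((a - b).map (algebraMap k F)).eval α = 0 →
    Odd (((a - b).map (algebraMap k F)).rootMultiplicity α)
  mac : ∀ α : F, ((a - c).map (algebraMap k F)).eval α = 0 →
    Odd (((a - c).map (algebraMap k F)).rootMultiplicity α)
  mbc : ∀ α : F, ((b - c).map (algebraMap k F)).eval α = 0 →
    Odd (((b - c).map (algebraMap k F)).rootMultiplicity α)

lemma rootMultiplicity_neg' (p : F[X]) (α : F) :
    (-p).rootMultiplicity α = p.rootMultiplicity α := by
  classical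
  rcases eq_or_ne p 0 with rfl | hp
  · rw [neg_zero]
  · have : (-p) = p * C (-1) := by rw [C_neg, C_1]; ring
    rw [this, rootMultiplicity_mul (mul_ne_zero hp (C_ne_zero.mpr (neg_ne_zero.mpr one_ne_zero))),
      rootMultiplicity_C, add_zero]

lemma map_sub_neg (p q : k[X]) : (p - q).map (algebraMap k F) = -((q - p).map (algebraMap k F)) := by
  rw [← Polynomial.map_neg, neg_sub]

lemma eval_sub_swap (p q : k[X]) (α : F) : ((p - q).map (algebraMap k F)).eval α = 0 ↔
    ((q - p).map (algebraMap k F)).eval α = 0 := by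
  rw [map_sub_neg, eval_neg, neg_eq_zero]

lemma natDegree_sub_swap (p q : k[X]) : (p - q).natDegree = (q - p).natDegree := by
  rw [← natDegree_neg, neg_sub]

namespace Ctx7

lemma swap12 (h : Ctx7 F L W a b c n) : Ctx7 F L W b a c n where
  hk := h.hk
  split := h.split.swap12
  odd := h.odd
  dab := by rw [natDegree_sub_swap]; exact h.dab
  dac := h.dbc
  dbc := h.dac
  cop α hα h' := by
    rw [eval_sub_swap] at hα
    apply h.cop α hα
    have : a - c = (a - b) + (b - c) := by ring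
    rw [this, Polynomial.map_add, eval_add, hα, h', add_zero]
  mab α hα := by
    rw [eval_sub_swap] at hα
    rw [map_sub_neg, rootMultiplicity_neg']
    exact h.mab α hα
  mac := h.mbc
  mbc := h.mac

lemma swap23 (h : Ctx7 F L W a b c n) : Ctx7 F L W a c b n where
  hk := h.hk
  split := h.split.swap23
  odd := h.odd
  dab := h.dac
  dac := h.dab
  dbc := by rw [natDegree_sub_swap]; exact h.dbc
  cop α hα h' := h.cop α h' hα
  mab := h.mac
  mac := h.mab
  mbc α hα := by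
    rw [eval_sub_swap] at hα
    rw [map_sub_neg, rootMultiplicity_neg']
    exact h.mbc α hα

lemma sΩ (h : Ctx7 F L W a b c n) : SplitAt Ω W a b c := h.split.up (Algebra.ofId L Ω)

lemma two (h : Ctx7 F L W a b c n) : (2 : F) ≠ 0 := by
  intro h2
  apply h.split.two
  have : (algebraMap F[X] L) (C (2 : F)) = 2 := by
    rw [map_ofNat, map_ofNat]
  rw [← this, h2, map_zero, map_zero]

lemma ne_ab (h : Ctx7 F L W a b c n) : (a - b).map (algebraMap k F) ≠ 0 := by
  intro h0
  have : a - b = 0 := (Polynomial.map_eq_zero_iff (algebraMap k F).injective).mp h0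
  have h1 := h.dab
  rw [this, natDegree_zero] at h1
  have := h.odd
  rw [← h1] at this
  exact absurd this (by decide)

lemma ne_ac (h : Ctx7 F L W a b c n) : (a - c).map (algebraMap k F) ≠ 0 := h.swap23.ne_ab

lemma ne_bc (h : Ctx7 F L W a b c n) : (b - c).map (algebraMap k F) ≠ 0 := h.swap12.ne_ac

lemma cop_bc (h : Ctx7 F L W a b c n) {α : F} (hα : ((a - b).map (algebraMap k F)).eval α = 0) :
    ((b - c).map (algebraMap k F)).eval α ≠ 0 :=
  h.swap12.cop α ((eval_sub_swap _ _ _).mp hα)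

lemma par_ab (h : Ctx7 F L W a b c n) {α : F}
    (hα : ((a - b).map (algebraMap k F)).eval α = 0) :
    par ((a - b).map (algebraMap k F)) α = 1 :=
  ZMod.natCast_eq_one_iff_odd.mpr (h.mab α hα)

lemma par_ab' {p : F[X]} {α : F} (hα : p.eval α ≠ 0) : par p α = 0 := by
  unfold par
  rw [rootMultiplicity_eq_zero hα, Nat.cast_zero]

/-- The number of roots is odd. -/
lemma card_odd (h : Ctx7 F L W a b c n) :
    Odd ((a - b).map (algebraMap k F)).roots.toFinset.card := by
  have h1 := sum_par ((a - b).map (algebraMap k F)) ((a - b).map (algebraMap k F)).roots.toFinset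
    (by
      intro α hα
      apply par_ab'
      intro h0
      apply hα
      rw [Multiset.mem_toFinset, mem_roots h.ne_ab]
      exact h0)
  rw [Finset.sum_congr rfl (g := fun _ => (1 : ZMod 2)) (by
    intro α hα
    rw [Multiset.mem_toFinset, mem_roots h.ne_ab] at hα
    exact h.par_ab hα), Finset.sum_const, nsmul_eq_mul, mul_one, natDegree_map, h.dab,
    ZMod.natCast_eq_one_iff_odd.mpr h.odd] at h1
  exact ZMod.natCast_eq_one_iff_odd.mp h1

end Ctx7

/-- The Kummer cocycle. -/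
noncomputable def kum (L : Type*) [Field L] [Algebra L Ω] [Algebra k[X] L] [IsScalarTower k[X] L Ω]
    (W : Affine k[X]) (Q : (W.baseChange Ω).Point) :
    (Ω ≃ₐ[L] Ω) → (W.baseChange Ω).Point :=
  fun σ => Point.map (W' := W) (σ : Ω →ₐ[L] Ω) Q - Q

lemma kum_add (Q Q' : (W.baseChange Ω).Point) : kum L W (Q + Q') = kum L W Q + kum L W Q' := by
  funext σ
  change Point.map (W' := W) (σ : Ω →ₐ[L] Ω) (Q + Q') - (Q + Q') =
    (Point.map (W' := W) (σ : Ω →ₐ[L] Ω) Q - Q) + (Point.map (W' := W) (σ : Ω →ₐ[L] Ω) Q' - Q')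
  rw [map_add]
  abel

lemma kum_zero : kum L W (0 : (W.baseChange Ω).Point) = 0 := by
  funext σ
  change Point.map (W' := W) (σ : Ω →ₐ[L] Ω) 0 - 0 = 0
  rw [map_zero, sub_zero]

lemma kum_neg (Q : (W.baseChange Ω).Point) : kum L W (-Q) = -kum L W Q := by
  have := kum_add (L := L) Q (-Q)
  rw [add_neg_cancel, kum_zero] at this
  exact (neg_eq_of_add_eq_zero_right this.symm).symm

lemma kum_two_torsion (h : Ctx7 F L W a b c n) {Q : (W.baseChange Ω).Point} (hQ : Q + Q = 0) :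
    kum L W Q = 0 := by
  funext σ
  change Point.map (W' := W) (σ : Ω →ₐ[L] Ω) Q - Q = 0
  rw [map_two_torsion (σ : Ω →ₐ[L] Ω) h.sΩ hQ, sub_self]

lemma kum_isHom (h : Ctx7 F L W a b c n) {Q : (W.baseChange Ω).Point}
    (hQ : ∀ σ, kum L W Q σ + kum L W Q σ = 0) : IsHom (kum L W Q) where
  two := hQ
  mul g g' := by
    have h1 : Point.map (W' := W) (g : Ω →ₐ[L] Ω) (kum L W Q g') = kum L W Q g' :=
      map_two_torsion (g : Ω →ₐ[L] Ω) h.sΩ (hQ g')
    have h2 : Point.map (W' := W) ((g * g' : Ω ≃ₐ[L] Ω) : Ω →ₐ[L] Ω) Q =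
        Point.map (W' := W) (g : Ω →ₐ[L] Ω) (Point.map (W' := W) (g' : Ω →ₐ[L] Ω) Q) := by
      rcases Q with _ | ⟨x, y, hxy⟩
      · rfl
      · rfl
    change Point.map (W' := W) ((g * g' : Ω ≃ₐ[L] Ω) : Ω →ₐ[L] Ω) Q - Q =
      (Point.map (W' := W) (g : Ω →ₐ[L] Ω) Q - Q) + kum L W Q g'
    rw [h2, ← h1]
    change _ = _ + Point.map (W' := W) (g : Ω →ₐ[L] Ω)
      (Point.map (W' := W) (g' : Ω →ₐ[L] Ω) Q - Q)
    rw [map_sub]
    abel
  loc := (isLocallyConstant_map8 Q).comp (fun P => P - Q)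

lemma kum_two (h : Ctx7 F L W a b c n) {Q : (W.baseChange Ω).Point}
    (hQ : (Q + Q) + (Q + Q) = 0) (σ : Ω ≃ₐ[L] Ω) : kum L W Q σ + kum L W Q σ = 0 := by
  have := congrFun (kum_add (L := L) Q Q) σ
  rw [kum_two_torsion h hQ] at this
  exact this.symm

/-- The characters of the Kummer class of the point `(a, 0)`. -/
lemma pRep_kum (h : Ctx7 F L W a b c n) {Q : (W.baseChange Ω).Point}
    (hQ : Q + Q = h.sΩ.T) :
    PRep (F := L) h.sΩ.swap12 (kum L W Q) ((a - b).map (algebraMap k F)) := by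
  have h1 := rep_kummer (F := L) (Ω := Ω) (W := W) (h.sΩ.swap12)
    (h.split.nonsingular_of_equation (x := algebraMap k[X] L a) (y := 0) (by ring)) h.split.ab Q
    (by rw [hQ]; exact (map_T (Algebra.ofId L Ω) h.split h.sΩ).symm)
  unfold PRep
  rw [← h.hk, map_sub]
  exact h1

lemma dv_kum (h : Ctx7 F L W a b c n) {Q : (W.baseChange Ω).Point}
    (hQ : Q + Q = h.sΩ.T) : dv F h.sΩ.swap12 (kum L W Q) = par ((a - b).map (algebraMap k F)) :=
  dv_eq (kum_isHom h (kum_two h (by rw [hQ, Split.T_add_T]))) (pRep_kum h hQ)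

lemma dg_kum (h : Ctx7 F L W a b c n) {Q : (W.baseChange Ω).Point}
    (hQ : Q + Q = h.sΩ.T) : dg F h.sΩ.swap12 (kum L W Q) = 1 := by
  rw [dg_eq (kum_isHom h (kum_two h (by rw [hQ, Split.T_add_T]))) (pRep_kum h hQ), natDegree_map,
    h.dab]
  exact ZMod.natCast_eq_one_iff_odd.mpr h.odd

/-- The invariants of the Kummer class of a two-torsion point. -/
structure KumData (h : Ctx7 F L W a b c n) (Q : (W.baseChange Ω).Point) (k₁ k₂ k₃ : ZMod 2) :
    Prop where
  sum : k₁ + k₂ + k₃ = 0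
  d1 : dg F h.sΩ (kum L W Q) = k₁
  d2 : dg F h.sΩ.swap12 (kum L W Q) = k₂
  ab : ∀ α : F, ((a - b).map (algebraMap k F)).eval α = 0 → dv F h.sΩ (kum L W Q) α = k₃
  ac : ∀ α : F, ((a - c).map (algebraMap k F)).eval α = 0 → dv F h.sΩ (kum L W Q) α = k₂
  bc : ∀ α : F, ((b - c).map (algebraMap k F)).eval α = 0 → dv F h.sΩ.swap12 (kum L W Q) α = k₁

lemma kumData_zero (h : Ctx7 F L W a b c n) {Q : (W.baseChange Ω).Point} (hQ : Q + Q = 0) :
    KumData h Q 0 0 0 := by
  have h0 : kum L W Q = 0 := kum_two_torsion h hQ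
  refine ⟨rfl, ?_, ?_, fun α _ => ?_, fun α _ => ?_, fun α _ => ?_⟩
  · rw [h0]; exact dg_zero
  · rw [h0]; exact dg_zero
  · rw [h0]; exact dv_zero α
  · rw [h0]; exact dv_zero α
  · rw [h0]; exact dv_zero α

lemma par_neg (p q : k[X]) (α : F) :
    par ((p - q).map (algebraMap k F)) α = par ((q - p).map (algebraMap k F)) α := by
  unfold par
  rw [map_sub_neg, rootMultiplicity_neg']

lemma kumData_T (h : Ctx7 F L W a b c n) {Q : (W.baseChange Ω).Point} (hQ : Q + Q = h.sΩ.T) :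
    KumData h Q 0 1 1 := by
  have hh := kum_isHom h (kum_two h (Q := Q) (by rw [hQ, Split.T_add_T]))
  have e2 : dv F h.sΩ.swap12 (kum L W Q) = par ((a - b).map (algebraMap k F)) := dv_kum h hQ
  have e3 : dv F h.sΩ.rot.rot (kum L W Q) = par ((a - c).map (algebraMap k F)) :=
    dv_kum h.swap23 (Q := Q) hQ
  have g2 : dg F h.sΩ.swap12 (kum L W Q) = 1 := dg_kum h hQ
  have g3 : dg F h.sΩ.rot.rot (kum L W Q) = 1 := dg_kum h.swap23 (Q := Q) hQ
  have e1 : ∀ α : F, dv F h.sΩ (kum L W Q) α =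
      par ((a - b).map (algebraMap k F)) α + par ((a - c).map (algebraMap k F)) α := by
    intro α
    have := dv_three (hΩ := h.sΩ) hh α
    rw [e2, e3, add_assoc, CharTwo.add_eq_zero] at this
    exact this
  refine ⟨by decide, ?_, g2, fun α hα => ?_, fun α hα => ?_, fun α hα => ?_⟩
  · have := dg_three (F := F) (hΩ := h.sΩ) hh
    rw [g2, g3, add_assoc, CharTwo.add_self_eq_zero, add_zero] at this
    exact this
  · rw [e1, h.par_ab hα, Ctx7.par_ab' (h.cop α hα), add_zero]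
  · rw [e1, h.swap23.par_ab hα, Ctx7.par_ab' (h.swap23.cop α hα), zero_add]
  · rw [e2, Ctx7.par_ab']
    intro h'
    exact h.cop_bc h' hα

lemma kumData_T' (h : Ctx7 F L W a b c n) {Q : (W.baseChange Ω).Point}
    (hQ : Q + Q = h.sΩ.swap12.T) : KumData h Q 1 0 1 := by
  have hd := kumData_T h.swap12 (Q := Q) hQ
  have hh := kum_isHom h.swap12 (kum_two h.swap12 (Q := Q) (by rw [hQ, Split.T_add_T]))
  refine ⟨by decide, hd.d2, hd.d1, fun α hα => ?_, fun α hα => ?_, fun α hα => hd.ac α hα⟩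
  · rw [show dv F h.sΩ (kum L W Q) = par ((b - a).map (algebraMap k F)) from
      dv_kum h.swap12 (Q := Q) hQ, par_neg, h.par_ab hα]
  · rw [show dv F h.sΩ (kum L W Q) = par ((b - a).map (algebraMap k F)) from
      dv_kum h.swap12 (Q := Q) hQ, par_neg, Ctx7.par_ab' (h.swap23.cop α hα)]

lemma kumData_T'' (h : Ctx7 F L W a b c n) {Q : (W.baseChange Ω).Point}
    (hQ : Q + Q = h.sΩ.rot.rot.T) : KumData h Q 1 1 0 := by
  have hd := kumData_T' h.swap23 (Q := Q) hQ
  have e3 : dg F h.sΩ.rot.rot (kum L W Q) = 0 := hd.d2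
  have hh := kum_isHom h.swap23.swap12 (kum_two h.swap23.swap12 (Q := Q) (by
    rw [hQ]; exact Split.T_add_T _))
  have g1 : dg F h.sΩ (kum L W Q) = 1 := hd.d1
  have e1 : dv F h.sΩ (kum L W Q) = par ((c - a).map (algebraMap k F)) :=
    dv_kum h.swap23.swap12 (Q := Q) hQ
  have e2 : dv F h.sΩ.swap12 (kum L W Q) = par ((c - b).map (algebraMap k F)) :=
    dv_kum h.swap12.swap23.swap12 (Q := Q) hQ
  refine ⟨by decide, g1, ?_, fun α hα => ?_, fun α hα => ?_, fun α hα => ?_⟩
  · have := dg_three (F := F) (hΩ := h.sΩ) hh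
    rw [e3, add_zero, g1, CharTwo.add_eq_zero] at this
    exact this.symm
  · rw [e1, par_neg, Ctx7.par_ab' (h.cop α hα)]
  · rw [e1, par_neg, h.swap23.par_ab hα]
  · rw [e2, par_neg, h.swap12.swap23.par_ab hα]

/-- All cases. -/
lemma exists_kumData (h : Ctx7 F L W a b c n) {Q : (W.baseChange Ω).Point}
    (hQ : (Q + Q) + (Q + Q) = 0) : ∃ k₁ k₂ k₃, KumData h Q k₁ k₂ k₃ ∧
      (k₁ = 0 → k₂ = 0 → Q + Q = 0) := by
  rcases h.sΩ.two_torsion _ hQ with h1 | h1 | h1 | h1
  · exact ⟨0, 0, 0, kumData_zero h h1, fun _ _ => h1⟩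
  · exact ⟨0, 1, 1, kumData_T h h1, fun _ h2 => absurd h2 (by decide)⟩
  · exact ⟨1, 0, 1, kumData_T' h h1, fun h2 _ => absurd h2 (by decide)⟩
  · exact ⟨1, 1, 0, kumData_T'' h h1, fun h2 _ => absurd h2 (by decide)⟩

/-- Every value of the parities of the degrees is attained by a two-torsion point. -/
lemma exists_torsion (h : Ctx7 F L W a b c n) (k₁ k₂ : ZMod 2) :
    ∃ Q : (W.baseChange Ω).Point, (Q + Q) + (Q + Q) = 0 ∧ dg F h.sΩ (kum L W Q) = k₁ ∧
      dg F h.sΩ.swap12 (kum L W Q) = k₂ := by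
  have hhalf : ∀ P : (W.baseChange Ω).Point, ∃ Q, Q + Q = P :=
    h.sΩ.exists_half (fun z => IsSepClosed.exists_pow_nat_eq z 2 (hn := ⟨by
      push_cast; exact h.sΩ.two⟩))
  have hcases : ∀ x : ZMod 2, x = 0 ∨ x = 1 := by decide
  rcases hcases k₁ with rfl | rfl <;> rcases hcases k₂ with rfl | rfl
  · obtain hd := kumData_zero h (Q := 0) (add_zero (0 : (W.baseChange Ω).Point))
    exact ⟨0, by simp, hd.d1, hd.d2⟩
  · obtain ⟨Q, hQ⟩ := hhalf h.sΩ.T
    have hd := kumData_T h hQ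
    exact ⟨Q, by rw [hQ, Split.T_add_T], hd.d1, hd.d2⟩
  · obtain ⟨Q, hQ⟩ := hhalf h.sΩ.swap12.T
    have hd := kumData_T' h hQ
    exact ⟨Q, by rw [hQ, Split.T_add_T], hd.d1, hd.d2⟩
  · obtain ⟨Q, hQ⟩ := hhalf h.sΩ.rot.rot.T
    have hd := kumData_T'' h hQ
    exact ⟨Q, by rw [hQ, Split.T_add_T], hd.d1, hd.d2⟩

end

end Pool.Agent.Lib.MP_89bcae_ag.LevelTwo

end

section

/-!
# The group of classes and the map to triples of sets of roots, continued
-/

open Polynomial WeierstrassCurve WeierstrassCurve.Affine IsDedekindDomain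

open scoped Classical

namespace Pool.Agent.Lib.MP_89bcae_ag.LevelTwo

set_option linter.unusedSectionVars false

universe v

section Poly

variable {F : Type*} [Field F]

/-- The polynomial with the given simple roots. -/
noncomputable def fP (S : Finset F) : F[X] := ∏ α ∈ S, (X - C α)

lemma fP_monic (S : Finset F) : (fP S).Monic := monic_prod_of_monic _ _ fun _ _ => monic_X_sub_C _

lemma fP_natDegree (S : Finset F) : (fP S).natDegree = S.card := by
  unfold fP
  rw [natDegree_prod_of_monic _ _ fun _ _ => monic_X_sub_C _]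
  simp

lemma fP_eval (S : Finset F) (x : F) : (fP S).eval x = ∏ α ∈ S, (x - α) := by
  unfold fP
  rw [eval_prod]
  exact Finset.prod_congr rfl fun _ _ => by simp

lemma fP_eval_ne {S : Finset F} {x : F} (hx : x ∉ S) : (fP S).eval x ≠ 0 := by
  rw [fP_eval]
  refine Finset.prod_ne_zero_iff.mpr fun α hα h => hx ?_
  rw [sub_eq_zero.mp h]
  exact hα

lemma par_fP (S : Finset F) (x : F) : par (fP S) x = if x ∈ S then 1 else 0 := by
  have h1 : (fP S).roots = S.val := roots_prod_X_sub_C S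
  unfold par
  rw [← count_roots, h1]
  split_ifs with h
  · rw [Multiset.count_eq_one_of_mem S.nodup h, Nat.cast_one]
  · rw [Multiset.count_eq_zero_of_notMem h, Nat.cast_zero]

lemma fP_union {S T : Finset F} (h : Disjoint S T) : fP (S ∪ T) = fP S * fP T :=
  Finset.prod_union h

end Poly

section

variable {k : Type*} {F L : Type v} {Ω : Type*} [Field k] [Field F] [Algebra k F]
  [Algebra.IsAlgebraic k F]
  [IsAlgClosed F] [Field L] [Field Ω]
  [Algebra F[X] L] [IsFractionRing F[X] L] [Algebra L Ω] [Algebra F[X] Ω] [IsScalarTower F[X] L Ω]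
  [Algebra k[X] L] [Algebra k[X] Ω] [IsScalarTower k[X] L Ω]
  [IsGalois L Ω] [IsSepClosed Ω] [IsSepClosure L Ω]

variable {W : Affine k[X]} {a b c : k[X]} {n : ℕ}

/-- The class `s` has the divisor `(S, T, U)`. -/
structure Div7 (h : Ctx7 F L W a b c n) (s : (Ω ≃ₐ[L] Ω) → (W.baseChange Ω).Point)
    (S T U : Finset F) : Prop where
  r1 : PRep (F := L) h.sΩ s (fP S * fP T)
  r2 : PRep (F := L) h.sΩ.swap12 s (fP S * fP U)
  r3 : PRep (F := L) h.sΩ.rot.rot s (fP T * fP U)
  mS : ∀ α ∈ S, ((a - b).map (algebraMap k F)).eval α = 0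
  mT : ∀ α ∈ T, ((a - c).map (algebraMap k F)).eval α = 0
  mU : ∀ α ∈ U, ((b - c).map (algebraMap k F)).eval α = 0

namespace Div7

variable {h : Ctx7 F L W a b c n} {s : (Ω ≃ₐ[L] Ω) → (W.baseChange Ω).Point} {S T U : Finset F}

lemma swap12 (hd : Div7 h s S T U) : Div7 h.swap12 s S U T where
  r1 := hd.r2
  r2 := hd.r1
  r3 := by
    have := hd.r3
    rw [mul_comm] at this
    exact this
  mS α hα := (eval_sub_swap _ _ _).mp (hd.mS α hα)
  mT := hd.mU
  mU := hd.mT

lemma swap23 (hd : Div7 h s S T U) : Div7 h.swap23 s T S U where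
  r1 := by
    have := hd.r1
    rw [mul_comm] at this
    exact this
  r2 := hd.r3
  r3 := hd.r2
  mS := hd.mT
  mT := hd.mS
  mU α hα := (eval_sub_swap _ _ _).mp (hd.mU α hα)

lemma dv1 (hd : Div7 h s S T U) (hs : IsHom s) (α : F) :
    dv F h.sΩ s α = (if α ∈ S then 1 else 0) + if α ∈ T then 1 else 0 := by
  rw [dv_eq hs hd.r1, par_mul (fP_monic S).ne_zero (fP_monic T).ne_zero, par_fP, par_fP]

lemma dg1 (hd : Div7 h s S T U) (hs : IsHom s) :
    dg F h.sΩ s = (S.card + T.card : ℕ) := by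
  rw [dg_eq hs hd.r1, (fP_monic S).natDegree_mul (fP_monic T), fP_natDegree, fP_natDegree]

lemma even_card (hd : Div7 h s S T U) (hs : IsHom s) (h0 : dg F h.sΩ s = 0) :
    Even (S.card + T.card) := by
  rw [hd.dg1 hs] at h0
  exact ZMod.natCast_eq_zero_iff_even.mp h0

end Div7

lemma isHom_one (h : Ctx7 F L W a b c n) {x : ℕ → (Ω ≃ₐ[L] Ω) → (W.baseChange Ω).Point}
    (hx : TC W x) : IsHom (x 1) where
  two g := by
    have := hx.two 0 g
    rw [two_nsmul, hx.zero] at this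
    exact this
  mul g g' := by
    have h1 : x 1 g' + x 1 g' = 0 := by
      have := hx.two 0 g'
      rw [two_nsmul, hx.zero] at this
      exact this
    rw [hx.mul, map_two_torsion (g : Ω →ₐ[L] Ω) h.sΩ h1]
  loc := hx.loc 1

/-- The parities vanish away from the collisions. -/
lemma dv_eq_zero (h : Ctx7 F L W a b c n) {s : (Ω ≃ₐ[L] Ω) → (W.baseChange Ω).Point}
    (hs : IsHom s) (hloc : LocFin F s) {α : F} (h1 : ((a - b).map (algebraMap k F)).eval α ≠ 0)
    (h2 : ((a - c).map (algebraMap k F)).eval α ≠ 0) : dv F h.sΩ s α = 0 := by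
  have hp := pol_spec (F := F) (hΩ := h.sΩ) hs
  rw [dv_eq hs hp]
  refine par_eq_zero_of_local h.hk h.sΩ h.split hs.two α (hloc α) hp ?_ ?_
  · rw [rootMultiplicity_eq_zero h1, rootMultiplicity_eq_zero h2]
  · rw [rootMultiplicity_eq_zero h1]
    exact Even.zero

lemma mem_rootsIn {p : k[X]} (hp : p.map (algebraMap k F) ≠ 0) (α : F) :
    α ∈ rootsIn F p ↔ (p.map (algebraMap k F)).eval α = 0 := by
  unfold rootsIn
  rw [Multiset.mem_toFinset, mem_roots hp]
  rfl

/-- The sets where the parities are one. -/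
noncomputable def tri (h : Ctx7 F L W a b c n) (s : (Ω ≃ₐ[L] Ω) → (W.baseChange Ω).Point) :
    Finset F × Finset F × Finset F :=
  ((rootsIn F (a - b)).filter fun α => dv F h.sΩ s α = 1,
    (rootsIn F (a - c)).filter fun α => dv F h.sΩ s α = 1,
    (rootsIn F (b - c)).filter fun α => dv F h.sΩ.swap12 s α = 1)

lemma zmod_cases (x : ZMod 2) : x = 0 ∨ x = 1 := by
  revert x
  decide

lemma eq_ite_of {x : ZMod 2} {p : Prop} [Decidable p] (h : x = 1 ↔ p) :
    x = if p then 1 else 0 := by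
  split_ifs with hp
  · exact h.mpr hp
  · rcases zmod_cases x with h0 | h1
    · exact h0
    · exact absurd (h.mp h1) hp

lemma tri_spec (h : Ctx7 F L W a b c n) {s : (Ω ≃ₐ[L] Ω) → (W.baseChange Ω).Point}
    (hs : IsHom s) (hloc : LocFin F s) : Div7 h s (tri h s).1 (tri h s).2.1 (tri h s).2.2 := by
  have e3 : ∀ α, dv F h.sΩ.rot.rot s α = dv F h.sΩ s α + dv F h.sΩ.swap12 s α := by
    intro α
    have := dv_three (hΩ := h.sΩ) hs α
    exact (CharTwo.add_eq_zero.mp this).symm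
  have z1 : ∀ α, ((a - b).map (algebraMap k F)).eval α ≠ 0 →
      ((a - c).map (algebraMap k F)).eval α ≠ 0 → dv F h.sΩ s α = 0 :=
    fun α => dv_eq_zero h hs hloc
  have z2 : ∀ α, ((a - b).map (algebraMap k F)).eval α ≠ 0 →
      ((b - c).map (algebraMap k F)).eval α ≠ 0 → dv F h.sΩ.swap12 s α = 0 := by
    intro α h1 h2
    exact dv_eq_zero h.swap12 hs hloc (fun h' => h1 ((eval_sub_swap _ _ _).mp h')) h2
  have z3 : ∀ α, ((a - c).map (algebraMap k F)).eval α ≠ 0 →
      ((b - c).map (algebraMap k F)).eval α ≠ 0 → dv F h.sΩ.rot.rot s α = 0 := by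
    intro α h1 h2
    exact dv_eq_zero h.swap23.swap12 hs hloc (fun h' => h1 ((eval_sub_swap _ _ _).mp h'))
      (fun h' => h2 ((eval_sub_swap _ _ _).mp h'))
  have mS : ∀ α, α ∈ (tri h s).1 ↔ ((a - b).map (algebraMap k F)).eval α = 0 ∧
      dv F h.sΩ s α = 1 := fun α => by
    change α ∈ Finset.filter _ _ ↔ _
    rw [Finset.mem_filter, mem_rootsIn h.ne_ab]
  have mT : ∀ α, α ∈ (tri h s).2.1 ↔ ((a - c).map (algebraMap k F)).eval α = 0 ∧
      dv F h.sΩ s α = 1 := fun α => by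
    change α ∈ Finset.filter _ _ ↔ _
    rw [Finset.mem_filter, mem_rootsIn h.ne_ac]
  have mU : ∀ α, α ∈ (tri h s).2.2 ↔ ((b - c).map (algebraMap k F)).eval α = 0 ∧
      dv F h.sΩ.swap12 s α = 1 := fun α => by
    change α ∈ Finset.filter _ _ ↔ _
    rw [Finset.mem_filter, mem_rootsIn h.ne_bc]
  have dST : Disjoint (tri h s).1 (tri h s).2.1 := by
    rw [Finset.disjoint_left]
    intro α h1 h2
    exact h.cop α ((mS α).mp h1).1 ((mT α).mp h2).1
  have dSU : Disjoint (tri h s).1 (tri h s).2.2 := by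
    rw [Finset.disjoint_left]
    intro α h1 h2
    exact h.cop_bc ((mS α).mp h1).1 ((mU α).mp h2).1
  have cTU : ∀ α, ((a - c).map (algebraMap k F)).eval α = 0 →
      ((b - c).map (algebraMap k F)).eval α ≠ 0 := fun α h1 h2 =>
    h.swap23.cop_bc h1 ((eval_sub_swap _ _ _).mp h2)
  have dTU : Disjoint (tri h s).2.1 (tri h s).2.2 := by
    rw [Finset.disjoint_left]
    intro α h1 h2
    exact cTU α ((mT α).mp h1).1 ((mU α).mp h2).1
  have h01 : ¬ ((0 : ZMod 2) = 1) := by decide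
  refine ⟨?_, ?_, ?_, fun α hα => ((mS α).mp hα).1, fun α hα => ((mT α).mp hα).1,
    fun α hα => ((mU α).mp hα).1⟩
  · rw [← fP_union dST]
    refine pRep_prod hs _ fun α => eq_ite_of ?_
    rw [Finset.mem_union, mS, mT]
    by_cases h1 : ((a - b).map (algebraMap k F)).eval α = 0
    · tauto
    · by_cases h3 : ((a - c).map (algebraMap k F)).eval α = 0
      · tauto
      · rw [z1 α h1 h3]; tauto
  · rw [← fP_union dSU]
    refine pRep_prod hs _ fun α => eq_ite_of ?_
    rw [Finset.mem_union, mS, mU]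
    by_cases h1 : ((a - b).map (algebraMap k F)).eval α = 0
    · have h3 := z3 α (h.cop α h1) (h.cop_bc h1)
      rw [e3] at h3
      have h4 := CharTwo.add_eq_zero.mp h3
      rw [← h4]
      tauto
    · by_cases h3 : ((b - c).map (algebraMap k F)).eval α = 0
      · tauto
      · rw [z2 α h1 h3]; tauto
  · rw [← fP_union dTU]
    refine pRep_prod hs _ fun α => eq_ite_of ?_
    rw [Finset.mem_union, mT, mU, e3]
    by_cases h1 : ((a - c).map (algebraMap k F)).eval α = 0
    · rw [z2 α (h.swap23.cop α h1) (cTU α h1), add_zero]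
      tauto
    · by_cases h3 : ((b - c).map (algebraMap k F)).eval α = 0
      · rw [z1 α (fun h' => h.cop_bc h' h3) h1, zero_add]
        tauto
      · have := z3 α h1 h3
        rw [e3] at this
        rw [this]
        tauto

/-- A class is determined by its triple. -/
lemma eq_of_tri (h : Ctx7 F L W a b c n) {s s' : (Ω ≃ₐ[L] Ω) → (W.baseChange Ω).Point}
    (hs : IsHom s) (hs' : IsHom s') (hl : LocFin F s) (hl' : LocFin F s')
    (ht : tri h s = tri h s') : s = s' := by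
  have h1 := tri_spec h hs hl
  have h2 := tri_spec h hs' hl'
  rw [← ht] at h2
  have hsum : IsHom (s + s') := hs.add hs'
  have key : ∀ g, (s + s') g = 0 := by
    refine eq_zero_of_dv (F := F) (hΩ := h.sΩ) hsum (fun α => ?_) (fun α => ?_)
    · rw [dv_add hs hs', h1.dv1 hs, h2.dv1 hs', CharTwo.add_self_eq_zero]
    · rw [dv_add hs hs']
      have e1 := h1.swap12.dv1 hs α
      have e2 := h2.swap12.dv1 hs' α
      rw [show dv F h.sΩ.swap12 s α = _ from e1, show dv F h.sΩ.swap12 s' α = _ from e2,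
        CharTwo.add_self_eq_zero]
  funext g
  have h3 : s g + s' g = 0 := key g
  have h4 := hs'.two g
  have : s g = -s' g := eq_neg_of_add_eq_zero_left h3
  rw [this]
  exact (eq_neg_of_add_eq_zero_left h4).symm

/-- Selmer cocycles whose reduction modulo two has even degrees. -/
structure IsSel7 (h : Ctx7 F L W a b c n) (x : ℕ → (Ω ≃ₐ[L] Ω) → (W.baseChange Ω).Point) :
    Prop where
  tc : TC W x
  loc : ∀ n, LocFin F (x n)
  d1 : dg F h.sΩ (x 1) = 0
  d2 : dg F h.sΩ.swap12 (x 1) = 0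

/-- Cocycles with trivial class. -/
def IsTriv7 (W : Affine k[X]) (x : ℕ → (Ω ≃ₐ[L] Ω) → (W.baseChange Ω).Point) : Prop :=
  ∀ n, ∃ Q : (W.baseChange Ω).Point, 2 ^ n • Q = 0 ∧ x n = kum L W Q

lemma locFin_kum (Q : (W.baseChange Ω).Point) : LocFin F (kum L W Q) :=
  fun _ => locTriv_cob Q

lemma locFin_add {s s' : (Ω ≃ₐ[L] Ω) → (W.baseChange Ω).Point} (h : LocFin F s)
    (h' : LocFin F s') : LocFin F (s + s') := fun α => locTriv_add (h α) (h' α)

lemma locFin_neg {s : (Ω ≃ₐ[L] Ω) → (W.baseChange Ω).Point} (h : LocFin F s) :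
    LocFin F (-s) := fun α => locTriv_neg (h α)

lemma IsHom.neg_eq {s : (Ω ≃ₐ[L] Ω) → (W.baseChange Ω).Point} (h : IsHom s) : -s = s := by
  funext g
  exact neg_eq_of_add_eq_zero_left (h.two g)

/-- The group of classes. -/
def S7 (Ω : Type*) [Field Ω] [Algebra L Ω] [Algebra F[X] Ω] [IsScalarTower F[X] L Ω]
    [Algebra k[X] Ω] [IsScalarTower k[X] L Ω] [IsGalois L Ω] [IsSepClosed Ω] [IsSepClosure L Ω]
    (h : Ctx7 F L W a b c n) : AddSubgroup (ℕ → (Ω ≃ₐ[L] Ω) → (W.baseChange Ω).Point) where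
  carrier := {x | IsSel7 h x}
  zero_mem' := ⟨TC.zero_tc, fun _ => by
    have := locFin_kum (F := F) (L := L) (W := W) (0 : (W.baseChange Ω).Point)
    rw [kum_zero] at this
    exact this, dg_zero, dg_zero⟩
  add_mem' := fun {x y} hx hy => ⟨TC.add hx.tc hy.tc, fun n => locFin_add (hx.loc n) (hy.loc n),
    by
      change dg F h.sΩ (x 1 + y 1) = 0
      rw [dg_add (isHom_one h hx.tc) (isHom_one h hy.tc), hx.d1, hy.d1, add_zero],
    by
      change dg F h.sΩ.swap12 (x 1 + y 1) = 0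
      rw [dg_add (isHom_one h hx.tc) (isHom_one h hy.tc), hx.d2, hy.d2, add_zero]⟩
  neg_mem' := fun {x} hx => ⟨TC.neg hx.tc, fun n => locFin_neg (hx.loc n),
    by
      change dg F h.sΩ (-x 1) = 0
      rw [(isHom_one h hx.tc).neg_eq, hx.d1],
    by
      change dg F h.sΩ.swap12 (-x 1) = 0
      rw [(isHom_one h hx.tc).neg_eq, hx.d2]⟩

/-- The group of cocycles with trivial class. -/
def T7 (Ω : Type*) [Field Ω] [Algebra L Ω] [Algebra F[X] Ω] [IsScalarTower F[X] L Ω]
    [Algebra k[X] Ω] [IsScalarTower k[X] L Ω] [IsGalois L Ω] [IsSepClosed Ω] [IsSepClosure L Ω]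
    (h : Ctx7 F L W a b c n) : AddSubgroup (ℕ → (Ω ≃ₐ[L] Ω) → (W.baseChange Ω).Point) where
  carrier := {x | x ∈ S7 Ω h ∧ IsTriv7 W x}
  zero_mem' := ⟨(S7 Ω h).zero_mem, fun n => ⟨0, smul_zero _, kum_zero.symm⟩⟩
  add_mem' := by
    rintro x y ⟨hx, hx'⟩ ⟨hy, hy'⟩
    refine ⟨(S7 Ω h).add_mem hx hy, fun n => ?_⟩
    obtain ⟨Q, hQ, h1⟩ := hx' n
    obtain ⟨Q', hQ', h2⟩ := hy' n
    refine ⟨Q + Q', by rw [smul_add, hQ, hQ', add_zero], ?_⟩
    rw [kum_add, ← h1, ← h2]
    rfl
  neg_mem' := by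
    rintro x ⟨hx, hx'⟩
    refine ⟨(S7 Ω h).neg_mem hx, fun n => ?_⟩
    obtain ⟨Q, hQ, h1⟩ := hx' n
    refine ⟨-Q, by rw [smul_neg, hQ, neg_zero], ?_⟩
    rw [kum_neg, ← h1]
    rfl

variable (h : Ctx7 F L W a b c n)

lemma mem_S7 {x : ℕ → (Ω ≃ₐ[L] Ω) → (W.baseChange Ω).Point} : x ∈ S7 Ω h ↔ IsSel7 h x := Iff.rfl

lemma mem_T7 {x : ℕ → (Ω ≃ₐ[L] Ω) → (W.baseChange Ω).Point} :
    x ∈ T7 Ω h ↔ IsSel7 h x ∧ IsTriv7 W x := Iff.rfl

include h in
lemma one_eq_zero_of_triv {x : ℕ → (Ω ≃ₐ[L] Ω) → (W.baseChange Ω).Point} (hx : IsTriv7 W x) :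
    x 1 = 0 := by
  obtain ⟨Q, hQ, h1⟩ := hx 1
  rw [pow_one, two_nsmul] at hQ
  rw [h1, kum_two_torsion h hQ]

/-- The group of classes has no two-torsion. -/
lemma torsionFree {x : ℕ → (Ω ≃ₐ[L] Ω) → (W.baseChange Ω).Point} (hx : x ∈ S7 Ω h)
    (h2 : IsTriv7 W (x + x)) : x ∈ T7 Ω h := by
  refine ⟨hx, fun m => ?_⟩
  rcases m with _ | m
  · exact ⟨0, smul_zero _, by
      rw [kum_zero]
      funext g
      exact hx.tc.zero g⟩
  · obtain ⟨Q, hQ, h1⟩ := h2 (m + 2)
    have e0 : x (m + 1) = kum L W Q := by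
      rw [← h1]
      funext g
      change x (m + 1) g = x (m + 2) g + x (m + 2) g
      rw [← two_nsmul, hx.tc.two]
    set R := 2 ^ m • Q with hR
    have hR4 : (R + R) + (R + R) = 0 := by
      have : (R + R) + (R + R) = 2 ^ (m + 2) • Q := by
        rw [hR, pow_add, mul_comm, mul_smul]
        abel
      rw [this, hQ]
    have e1 : ∀ j : ℕ, 2 ^ j • x (j + 1) = x 1 := by
      intro j
      induction j with
      | zero => rw [pow_zero, one_smul]
      | succ j ih =>
        rw [← ih, pow_succ, mul_smul]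
        congr 1
        funext g
        exact hx.tc.two (j + 1) g
    have e2 : ∀ j : ℕ, j • kum L W Q = kum L W (j • Q) := by
      intro j
      induction j with
      | zero => rw [zero_smul, zero_smul, kum_zero]
      | succ j ih => rw [succ_nsmul, ih, succ_nsmul, kum_add]
    have e3 : x 1 = kum L W R := by
      rw [← e1 m, e0, e2]
    obtain ⟨k₁, k₂, k₃, hd, h0⟩ := exists_kumData h hR4
    have h5 : R + R = 0 := h0 (by rw [← hd.d1, ← e3]; exact hx.d1)
      (by rw [← hd.d2, ← e3]; exact hx.d2)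
    refine ⟨Q, ?_, e0⟩
    rw [pow_succ, mul_comm, mul_smul, two_nsmul]
    exact h5

/-- The group of classes is separated. -/
lemma separated {x : ℕ → (Ω ≃ₐ[L] Ω) → (W.baseChange Ω).Point} (hx : x ∈ S7 Ω h)
    (h2 : ∀ n : ℕ, ∃ y ∈ S7 Ω h, x - 2 ^ n • y ∈ T7 Ω h) : x ∈ T7 Ω h := by
  refine ⟨hx, fun m => ?_⟩
  obtain ⟨y, hy, hyT⟩ := h2 m
  obtain ⟨Q, hQ, h1⟩ := hyT.2 m
  refine ⟨Q, hQ, ?_⟩
  rw [← h1]
  funext g
  change x m g = x m g - 2 ^ m • y m g
  rw [(show IsSel7 h y from hy).tc.two_pow, sub_zero]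

/-- The Kummer cocycle of a sequence of successive halves. -/
noncomputable def del7 (L : Type*) [Field L] [Algebra L Ω] [Algebra k[X] L]
    [IsScalarTower k[X] L Ω] (W : Affine k[X]) (q : ℕ → (W.baseChange Ω).Point) :
    ℕ → (Ω ≃ₐ[L] Ω) → (W.baseChange Ω).Point := fun n => kum L W (q n)

lemma del7_tc {q : ℕ → (W.baseChange Ω).Point}
    (hq : ∀ n, q (n + 1) + q (n + 1) = q n)
    (h0 : ∀ σ : Ω ≃ₐ[L] Ω, Point.map (W' := W) (σ : Ω →ₐ[L] Ω) (q 0) = q 0) :
    TC W (del7 L W q) where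
  zero := fun σ => by
    change Point.map (W' := W) (σ : Ω →ₐ[L] Ω) (q 0) - q 0 = 0
    rw [h0, sub_self]
  two := fun n σ => by
    change 2 • (Point.map (W' := W) (σ : Ω →ₐ[L] Ω) (q (n + 1)) - q (n + 1)) =
      Point.map (W' := W) (σ : Ω →ₐ[L] Ω) (q n) - q n
    rw [smul_sub, ← map_nsmul, two_nsmul, hq]
  mul := fun n σ τ => by
    have e : Point.map (W' := W) ((σ * τ : Ω ≃ₐ[L] Ω) : Ω →ₐ[L] Ω) (q n) =
        Point.map (σ : Ω →ₐ[L] Ω) (Point.map (τ : Ω →ₐ[L] Ω) (q n)) := by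
      rw [Point.map_map]; rfl
    change Point.map (W' := W) ((σ * τ : Ω ≃ₐ[L] Ω) : Ω →ₐ[L] Ω) (q n) - q n =
      (Point.map (W' := W) (σ : Ω →ₐ[L] Ω) (q n) - q n) +
        Point.map (W' := W) (σ : Ω →ₐ[L] Ω) (Point.map (W' := W) (τ : Ω →ₐ[L] Ω) (q n) - q n)
    rw [e, map_sub]
    abel
  loc := fun n => (isLocallyConstant_map8 _).sub (IsLocallyConstant.const _)

/-- Correction by the class of a two-torsion point. -/
lemma exists_correct {x : ℕ → (Ω ≃ₐ[L] Ω) → (W.baseChange Ω).Point} (hx : TC W x)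
    (hl : ∀ n, LocFin F (x n)) : ∃ q : ℕ → (W.baseChange Ω).Point,
      q 0 + q 0 = 0 ∧ (∀ n, q (n + 1) + q (n + 1) = q n) ∧ x - del7 L W q ∈ S7 Ω h := by
  obtain ⟨Q, hQ, d1, d2⟩ := exists_torsion (Ω := Ω) h (dg F h.sΩ (x 1)) (dg F h.sΩ.swap12 (x 1))
  have hhalf : ∀ P : (W.baseChange Ω).Point, ∃ Q, Q + Q = P :=
    h.sΩ.exists_half (fun z => IsSepClosed.exists_pow_nat_eq z 2 (hn := ⟨by
      push_cast; exact h.sΩ.two⟩))
  obtain ⟨q, hq0, hq1, hq⟩ := exists_seq8 hhalf (Q + Q) Q rfl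
  have hfix : ∀ σ : Ω ≃ₐ[L] Ω, Point.map (W' := W) (σ : Ω →ₐ[L] Ω) (q 0) = q 0 := fun σ =>
    map_two_torsion (σ : Ω →ₐ[L] Ω) h.sΩ (by rw [hq0, hQ])
  have htc := del7_tc (L := L) hq hfix
  refine ⟨q, by rw [hq0, hQ], hq, ?_⟩
  have hneg : -(kum L W Q) = kum L W Q := (kum_isHom h (kum_two h hQ)).neg_eq
  have e1 : (x - del7 L W q) 1 = x 1 + kum L W Q := by
    rw [← hneg, ← sub_eq_add_neg, ← hq1]
    rfl
  refine ⟨?_, fun m => ?_, ?_, ?_⟩
  · rw [sub_eq_add_neg]
    exact TC.add hx (TC.neg htc)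
  · have : (x - del7 L W q) m = x m + -kum L W (q m) := sub_eq_add_neg _ _
    rw [this]
    exact locFin_add (hl m) (locFin_neg (locFin_kum _))
  · rw [e1, dg_add (isHom_one h hx) (kum_isHom h (kum_two h hQ)), d1, CharTwo.add_self_eq_zero]
  · rw [e1, dg_add (isHom_one h hx) (kum_isHom h (kum_two h hQ)), d2, CharTwo.add_self_eq_zero]

/-- Division by two. -/
lemma exists_div {x : ℕ → (Ω ≃ₐ[L] Ω) → (W.baseChange Ω).Point} (hx : TC W x)
    (hl : ∀ n, LocFin F (x n)) (h1 : x 1 = 0) :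
    ∃ q : ℕ → (W.baseChange Ω).Point, q 0 + q 0 = 0 ∧ (∀ n, q (n + 1) + q (n + 1) = q n) ∧
      ∃ z ∈ S7 Ω h, (∀ m, x (m + 1) = z m + kum L W (q m)) ∧ IsTriv7 W (x - (z + z)) := by
  have hy := hx.half (q := fun _ => 0) (fun _ => add_zero _) (by
    intro g
    rw [h1]
    change (0 : (W.baseChange Ω).Point) = Point.map (W' := W) (g : Ω →ₐ[L] Ω) 0 - 0
    rw [map_zero, sub_zero])
  obtain ⟨q, hq0, hq, hz⟩ := exists_correct (F := F) h hy (fun m => by
    have : (fun g : Ω ≃ₐ[L] Ω => x (m + 1) g - (Point.map (W' := W) (g : Ω →ₐ[L] Ω)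
        (0 : (W.baseChange Ω).Point) - 0)) = x (m + 1) := by
      funext g
      rw [map_zero, sub_zero, sub_zero]
    change LocFin F (fun g : Ω ≃ₐ[L] Ω => x (m + 1) g - (Point.map (W' := W) (g : Ω →ₐ[L] Ω)
        (0 : (W.baseChange Ω).Point) - 0))
    rw [this]
    exact hl (m + 1))
  refine ⟨q, hq0, hq, _, hz, fun m => ?_, fun m => ?_⟩
  · funext g
    change x (m + 1) g = x (m + 1) g - (Point.map (W' := W) (g : Ω →ₐ[L] Ω)
        (0 : (W.baseChange Ω).Point) - 0) - kum L W (q m) g + kum L W (q m) g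
    rw [map_zero, sub_zero, sub_zero]
    abel
  · refine ⟨q m + q m, ?_, ?_⟩
    · rw [smul_add, two_pow_seq8 hq, hq0]
    · rw [kum_add]
      funext g
      change x m g - ((x (m + 1) g - (Point.map (W' := W) (g : Ω →ₐ[L] Ω)
        (0 : (W.baseChange Ω).Point) - 0) - kum L W (q m) g) +
          (x (m + 1) g - (Point.map (W' := W) (g : Ω →ₐ[L] Ω)
        (0 : (W.baseChange Ω).Point) - 0) - kum L W (q m) g)) =
          kum L W (q m) g + kum L W (q m) g
      rw [map_zero, sub_zero, sub_zero, ← hx.two m g, two_nsmul]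
      abel

/-- Two classes have the same triple if and only if they are congruent modulo two. -/
lemma tri_eq_iff {x y : ℕ → (Ω ≃ₐ[L] Ω) → (W.baseChange Ω).Point} (hx : x ∈ S7 Ω h)
    (hy : y ∈ S7 Ω h) : tri h (x 1) = tri h (y 1) ↔
      ∃ z ∈ S7 Ω h, x - y - (z + z) ∈ T7 Ω h := by
  constructor
  · intro ht
    have h1 : x 1 = y 1 := eq_of_tri h (isHom_one h hx.tc) (isHom_one h hy.tc) (hx.loc 1)
      (hy.loc 1) ht
    have hxy := (S7 Ω h).sub_mem hx hy
    obtain ⟨q, hq0, hq, z, hz, -, hT⟩ := exists_div h (x := x - y) hxy.tc hxy.loc (by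
      change x 1 - y 1 = 0
      rw [h1, sub_self])
    exact ⟨z, hz, (S7 Ω h).sub_mem hxy ((S7 Ω h).add_mem hz hz), hT⟩
  · rintro ⟨z, hz, hT⟩
    have h1 := one_eq_zero_of_triv h hT.2
    have h2 : x 1 = y 1 := by
      have e : x 1 - y 1 - (z 1 + z 1) = 0 := h1
      have e2 : z 1 + z 1 = 0 := by
        funext g
        exact (isHom_one h (show IsSel7 h z from hz).tc).two g
      rw [e2, sub_zero] at e
      exact sub_eq_zero.mp e
    rw [h2]

lemma tri_finite : ((fun x : ℕ → (Ω ≃ₐ[L] Ω) → (W.baseChange Ω).Point => tri h (x 1)) ''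
    (S7 Ω h)).Finite := by
  refine Set.Finite.subset (Finset.finite_toSet ((rootsIn F (a - b)).powerset ×ˢ
    ((rootsIn F (a - c)).powerset ×ˢ (rootsIn F (b - c)).powerset))) ?_
  rintro _ ⟨x, -, rfl⟩
  simp only [Finset.coe_product, Set.mem_prod, Finset.mem_coe, Finset.mem_powerset]
  exact ⟨Finset.filter_subset _ _, Finset.filter_subset _ _, Finset.filter_subset _ _⟩

end

end Pool.Agent.Lib.MP_89bcae_ag.LevelTwo

end

section

/-!
# The action of the automorphisms on the group of classes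
-/

open Polynomial WeierstrassCurve WeierstrassCurve.Affine IsDedekindDomain

open scoped Classical

namespace Pool.Agent.Lib.MP_89bcae_ag.LevelTwo

set_option linter.unusedSectionVars false

universe v

section

variable {k : Type*} {F L : Type v} {Ω : Type*} [Field k] [Field F] [Algebra k F]
  [Algebra.IsAlgebraic k F]
  [IsAlgClosed F] [Field L] [Field Ω]
  [Algebra F[X] L] [IsFractionRing F[X] L] [Algebra L Ω] [Algebra F[X] Ω] [IsScalarTower F[X] L Ω]
  [Algebra k[X] L] [Algebra k[X] Ω] [IsScalarTower k[X] L Ω]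
  [IsGalois L Ω] [IsSepClosed Ω] [IsSepClosure L Ω]

variable {W : Affine k[X]} {a b c : k[X]} {n : ℕ} (h : Ctx7 F L W a b c n)

include h in
lemma pRep_conj {x : ℕ → (Ω ≃ₐ[L] Ω) → (W.baseChange Ω).Point} (γ : Ω ≃ₐ[k[X]] Ω) {P : F[X]}
    (hP : PRep (F := L) h.sΩ (x 1) P) :
    PRep (F := L) h.sΩ (rho7 h.hk W γ x 1) (P.map ((resF h.hk γ : F ≃ₐ[k] F) : F →+* F)) :=
  hP.conj h.hk γ (resF h.hk γ) (resF_spec h.hk γ) (fun g g' hg => by
    rw [rho7_apply, cj_unique h.hk hg])

lemma dv_conj {x : ℕ → (Ω ≃ₐ[L] Ω) → (W.baseChange Ω).Point} (hx : TC W x) (γ : Ω ≃ₐ[k[X]] Ω)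
    (α : F) : dv F h.sΩ (rho7 h.hk W γ x 1) (resF h.hk γ α) = dv F h.sΩ (x 1) α := by
  have h1 := pol_spec (F := F) (hΩ := h.sΩ) (isHom_one h hx)
  rw [dv_eq (isHom_one h (TC.rho7 h.hk hx γ)) (pRep_conj h γ h1), dv_eq (isHom_one h hx) h1]
  exact par_map (resF h.hk γ : F ≃+* F) _ α

lemma dg_conj {x : ℕ → (Ω ≃ₐ[L] Ω) → (W.baseChange Ω).Point} (hx : TC W x) (γ : Ω ≃ₐ[k[X]] Ω) :
    dg F h.sΩ (rho7 h.hk W γ x 1) = dg F h.sΩ (x 1) := by
  have h1 := pol_spec (F := F) (hΩ := h.sΩ) (isHom_one h hx)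
  rw [dg_eq (isHom_one h (TC.rho7 h.hk hx γ)) (pRep_conj h γ h1), dg_eq (isHom_one h hx) h1,
    natDegree_map]

lemma map_mem_S (γ : Ω ≃ₐ[k[X]] Ω) {x : ℕ → (Ω ≃ₐ[L] Ω) → (W.baseChange Ω).Point}
    (hx : x ∈ S7 Ω h) : rho7 h.hk W γ x ∈ S7 Ω h :=
  ⟨TC.rho7 h.hk hx.tc γ, fun m => locFin_conj h.hk (hx.loc m) γ,
    (dg_conj h hx.tc γ).trans hx.d1, (dg_conj h.swap12 hx.tc γ).trans hx.d2⟩

/-- The conjugate of a Kummer cocycle. -/
lemma rho7_kum (γ : Ω ≃ₐ[k[X]] Ω) {x : ℕ → (Ω ≃ₐ[L] Ω) → (W.baseChange Ω).Point} {m : ℕ}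
    {Q : (W.baseChange Ω).Point} (hQ : x m = kum L W Q) :
    rho7 h.hk W γ x m = kum L W (Point.map (W' := W) (γ : Ω →ₐ[k[X]] Ω) Q) := by
  funext σ
  rw [rho7_apply, hQ]
  change Point.map (W' := W) (γ : Ω →ₐ[k[X]] Ω)
    (Point.map (W' := W) (cj h.hk γ σ : Ω →ₐ[L] Ω) Q - Q) = Point.map (W' := W) (σ : Ω →ₐ[L] Ω)
      (Point.map (W' := W) (γ : Ω →ₐ[k[X]] Ω) Q) - Point.map (W' := W) (γ : Ω →ₐ[k[X]] Ω) Q
  rw [map_sub, gamma_sigma_map]

lemma map_mem_T (γ : Ω ≃ₐ[k[X]] Ω) {x : ℕ → (Ω ≃ₐ[L] Ω) → (W.baseChange Ω).Point}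
    (hx : x ∈ T7 Ω h) : rho7 h.hk W γ x ∈ T7 Ω h := by
  refine ⟨map_mem_S h γ hx.1, fun m => ?_⟩
  obtain ⟨Q, hQ, h1⟩ := hx.2 m
  exact ⟨Point.map (W' := W) (γ : Ω →ₐ[k[X]] Ω) Q, by rw [← map_nsmul, hQ, map_zero],
    rho7_kum h γ h1⟩

/-- All the collisions. -/
noncomputable def allR (F : Type*) [Field F] [Algebra k F] (a b c : k[X]) : Finset F :=
  rootsIn F (a - b) ∪ rootsIn F (a - c) ∪ rootsIn F (b - c)

/-- The automorphisms fixing all the collisions. -/
noncomputable def Gam7 (Ω : Type*) [Field Ω] [Algebra L Ω] [Algebra F[X] Ω]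
    [IsScalarTower F[X] L Ω]
    [Algebra k[X] Ω] [IsScalarTower k[X] L Ω] [IsGalois L Ω] [IsSepClosed Ω] [IsSepClosure L Ω]
    (h : Ctx7 F L W a b c n) : Subgroup (Ω ≃ₐ[k[X]] Ω) where
  carrier := {γ | ∀ β ∈ allR F a b c, resF h.hk γ β = β}
  one_mem' := by
    intro β _
    rw [resF_one]
    rfl
  mul_mem' := by
    intro γ δ hγ hδ β hβ
    rw [resF_mul, AlgEquiv.mul_apply, hδ β hβ, hγ β hβ]
  inv_mem' := by
    intro γ hγ β hβ
    rw [resF_inv]
    apply (resF h.hk γ).injective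
    rw [← AlgEquiv.mul_apply, mul_inv_cancel, hγ β hβ]
    rfl

lemma tri_conj {γ : Ω ≃ₐ[k[X]] Ω} (hγ : γ ∈ Gam7 Ω h)
    {x : ℕ → (Ω ≃ₐ[L] Ω) → (W.baseChange Ω).Point} (hx : TC W x) :
    tri h (rho7 h.hk W γ x 1) = tri h (x 1) := by
  have h1 : ∀ α ∈ allR F a b c, dv F h.sΩ (rho7 h.hk W γ x 1) α = dv F h.sΩ (x 1) α := by
    intro α hα
    conv_lhs => rw [← hγ α hα]
    exact dv_conj h hx γ α
  have h2 : ∀ α ∈ allR F a b c, dv F h.sΩ.swap12 (rho7 h.hk W γ x 1) α =
      dv F h.sΩ.swap12 (x 1) α := by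
    intro α hα
    conv_lhs => rw [← hγ α hα]
    exact dv_conj h.swap12 hx γ α
  unfold tri
  refine Prod.ext ?_ (Prod.ext ?_ ?_)
  · refine Finset.filter_congr fun α hα => ?_
    rw [h1 α (by unfold allR; simp [hα])]
  · refine Finset.filter_congr fun α hα => ?_
    rw [h1 α (by unfold allR; simp [hα])]
  · refine Finset.filter_congr fun α hα => ?_
    rw [h2 α (by unfold allR; simp [hα])]

lemma cong {γ : Ω ≃ₐ[k[X]] Ω} (hγ : γ ∈ Gam7 Ω h)
    {x : ℕ → (Ω ≃ₐ[L] Ω) → (W.baseChange Ω).Point} (hx : x ∈ S7 Ω h) :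
    ∃ z ∈ S7 Ω h, rho7 h.hk W γ x - x - (z + z) ∈ T7 Ω h :=
  (tri_eq_iff h (map_mem_S h γ hx) hx).mp (tri_conj h hγ hx.tc)

/-- The classes fixed by the automorphisms fixing a finite subset of `F`. -/
noncomputable def G7 (Ω : Type*) [Field Ω] [Algebra L Ω] [Algebra F[X] Ω]
    [IsScalarTower F[X] L Ω]
    [Algebra k[X] Ω] [IsScalarTower k[X] L Ω] [IsGalois L Ω] [IsSepClosed Ω] [IsSepClosure L Ω]
    (h : Ctx7 F L W a b c n) : AddSubgroup (ℕ → (Ω ≃ₐ[L] Ω) → (W.baseChange Ω).Point) where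
  carrier := {x | x ∈ S7 Ω h ∧ ∃ s : Finset F, ∀ γ : Ω ≃ₐ[k[X]] Ω,
    (∀ a ∈ s, resF h.hk γ a = a) → rho7 h.hk W γ x - x ∈ T7 Ω h}
  zero_mem' := by
    refine ⟨(S7 Ω h).zero_mem, ∅, fun γ _ => ?_⟩
    rw [map_zero, sub_zero]
    exact (T7 Ω h).zero_mem
  add_mem' := by
    rintro a b ⟨ha, s, hs⟩ ⟨hb, s', hs'⟩
    refine ⟨(S7 Ω h).add_mem ha hb, s ∪ s', fun γ hγ => ?_⟩
    have h1 := hs γ (fun a ha => hγ a (Finset.mem_union_left _ ha))
    have h2 := hs' γ (fun a ha => hγ a (Finset.mem_union_right _ ha))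
    have h3 := (T7 Ω h).add_mem h1 h2
    rw [map_add]
    have : rho7 h.hk W γ a + rho7 h.hk W γ b - (a + b) =
      rho7 h.hk W γ a - a + (rho7 h.hk W γ b - b) := by abel
    rw [this]
    exact h3
  neg_mem' := by
    rintro a ⟨ha, s, hs⟩
    refine ⟨(S7 Ω h).neg_mem ha, s, fun γ hγ => ?_⟩
    have h3 := (T7 Ω h).neg_mem (hs γ hγ)
    rw [map_neg]
    have : -rho7 h.hk W γ a - -a = -(rho7 h.hk W γ a - a) := by abel
    rw [this]
    exact h3

lemma T_le_G : T7 Ω h ≤ G7 Ω h := by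
  intro x hx
  exact ⟨hx.1, ∅, fun γ _ => (T7 Ω h).sub_mem (map_mem_T h γ hx) hx⟩

lemma G_le_S : G7 Ω h ≤ S7 Ω h := fun _ hx => hx.1

lemma map_mem_G (γ₀ : Ω ≃ₐ[k[X]] Ω) {x : ℕ → (Ω ≃ₐ[L] Ω) → (W.baseChange Ω).Point}
    (hx : x ∈ G7 Ω h) : rho7 h.hk W γ₀ x ∈ G7 Ω h := by
  obtain ⟨hxS, s, hs⟩ := hx
  refine ⟨map_mem_S h γ₀ hxS, s.image (resF h.hk γ₀), fun γ hγ => ?_⟩
  have h1 := hs (γ₀⁻¹ * γ * γ₀) (by
    intro a ha
    rw [resF_mul, resF_mul, AlgEquiv.mul_apply, AlgEquiv.mul_apply,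
      hγ _ (Finset.mem_image_of_mem _ ha), resF_inv, ← AlgEquiv.mul_apply, inv_mul_cancel]
    rfl)
  have h2 := map_mem_T h γ₀ h1
  rw [map_sub, ← end_mul_apply8, ← map_mul] at h2
  have : γ₀ * (γ₀⁻¹ * γ * γ₀) = γ * γ₀ := by group
  rw [this, map_mul, end_mul_apply8] at h2
  exact h2

lemma G_sat {x : ℕ → (Ω ≃ₐ[L] Ω) → (W.baseChange Ω).Point} (hx : x ∈ S7 Ω h)
    (h2 : x + x ∈ G7 Ω h) : x ∈ G7 Ω h := by
  obtain ⟨-, s, hs⟩ := h2
  refine ⟨hx, s, fun γ hγ => ?_⟩
  apply torsionFree h ((S7 Ω h).sub_mem (map_mem_S h γ hx) hx)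
  have h1 := hs γ hγ
  rw [map_add] at h1
  have : rho7 h.hk W γ x - x + (rho7 h.hk W γ x - x) =
    rho7 h.hk W γ x + rho7 h.hk W γ x - (x + x) := by abel
  rw [this]
  exact h1.2

lemma G_fin (γ : Ω ≃ₐ[k[X]] Ω) {x : ℕ → (Ω ≃ₐ[L] Ω) → (W.baseChange Ω).Point}
    (hx : x ∈ G7 Ω h) : ∃ M > 0, rho7 h.hk W (γ ^ M) x - x ∈ T7 Ω h := by
  obtain ⟨-, s, hs⟩ := hx
  obtain ⟨M, hM, h1⟩ := exists_pow_fix (resF h.hk γ) s
  refine ⟨M, hM, hs _ fun a ha => ?_⟩
  rw [resF_pow]
  exact h1 a ha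

end

end Pool.Agent.Lib.MP_89bcae_ag.LevelTwo

end

section

/-!
# The formula for the action on triples
-/

open Polynomial WeierstrassCurve WeierstrassCurve.Affine IsDedekindDomain

open scoped Classical

namespace Pool.Agent.Lib.MP_89bcae_ag.LevelTwo

set_option linter.unusedSectionVars false

universe v

section Adic

variable {F : Type*} [Field F] (L : Type*) [Field L] [Algebra F[X] L] [IsFractionRing F[X] L]

/-- The automorphism of the completion at a place fixed by an automorphism of `F`. -/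
lemma exists_adic_aut (σ : F ≃+* F) (α : F) (h : σ α = α) :
    ∃ φ : (placeAt α).adicCompletion L ≃+* (placeAt α).adicCompletion L,
      (∀ x : L, φ (algebraMap L _ x) = algebraMap L _ (coefL L σ x)) ∧
      ∀ x, Valued.v (φ x) = Valued.v x := by
  have := exists_adic_equiv L σ α
  rw [h] at this
  exact this

end Adic

section

variable {k : Type*} {F L : Type v} {Ω : Type*} [Field k] [Field F] [Algebra k F]
  [Algebra.IsAlgebraic k F]
  [IsAlgClosed F] [Field L] [Field Ω]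
  [Algebra F[X] L] [IsFractionRing F[X] L] [Algebra L Ω] [Algebra F[X] Ω] [IsScalarTower F[X] L Ω]
  [Algebra k[X] L] [Algebra k[X] Ω] [IsScalarTower k[X] L Ω]
  [IsGalois L Ω] [IsSepClosed Ω] [IsSepClosure L Ω]

variable {W : Affine k[X]} {a b c : k[X]} {n : ℕ} (h : Ctx7 F L W a b c n)

include h in
/-- The local conditions at a root of `a - b`. -/
lemma local_conditions {α : F} (hα : ((a - b).map (algebraMap k F)).eval α = 0) 
    [Algebra k[X] ((placeAt α).adicCompletion L)]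
    [IsScalarTower k[X] L ((placeAt α).adicCompletion L)] :
    (∀ p : k[X], algebraMap k[X] ((placeAt α).adicCompletion L) p =
      algebraMap F[X] ((placeAt α).adicCompletion L) (p.map (algebraMap k F))) ∧
    Collision (Valued.v : Valuation ((placeAt α).adicCompletion L)
        (WithZero (Multiplicative ℤ)))
      (algebraMap k[X] ((placeAt α).adicCompletion L) a)
      (algebraMap k[X] ((placeAt α).adicCompletion L) b)
      (algebraMap k[X] ((placeAt α).adicCompletion L) c) := by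
  have hkK : ∀ p : k[X], algebraMap k[X] ((placeAt α).adicCompletion L) p =
      algebraMap F[X] ((placeAt α).adicCompletion L) (p.map (algebraMap k F)) := by
    intro p
    rw [IsScalarTower.algebraMap_apply k[X] L, h.hk, ← IsScalarTower.algebraMap_apply F[X] L]
  refine ⟨hkK, ?_, ?_, ?_, ?_⟩
  · rw [← map_sub, hkK]
    exact val_eq_one L α (h.cop α hα)
  · rw [← map_sub, hkK]
    exact val_eq_one L α (h.cop_bc hα)
  · rw [← map_sub, hkK]
    exact val_lt_one_of_root L α hα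
  · rw [← map_sub, hkK]
    have := lg_placeOf (F := L) α h.ne_ab
    rw [← IsScalarTower.algebraMap_apply F[X] L] at this
    have e : lg (Valued.v : Valuation ((placeAt α).adicCompletion L)
        (WithZero (Multiplicative ℤ))) (algebraMap F[X] ((placeAt α).adicCompletion L)
          ((a - b).map (algebraMap k F))) =
            -(((a - b).map (algebraMap k F)).rootMultiplicity α : ℤ) := this
    rw [e, odd_neg, Int.odd_coe_nat]
    exact h.mab α hα

lemma even_lg_iff {α : F} {p : F[X]} (hp : p ≠ 0) :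
    Even (lg (Valued.v : Valuation ((placeAt α).adicCompletion L)
      (WithZero (Multiplicative ℤ))) (algebraMap F[X] ((placeAt α).adicCompletion L) p)) ↔
      par p α = 0 := by
  have := lg_placeOf (F := L) α hp
  rw [← IsScalarTower.algebraMap_apply F[X] L] at this
  have e : lg (Valued.v : Valuation ((placeAt α).adicCompletion L)
      (WithZero (Multiplicative ℤ))) (algebraMap F[X] ((placeAt α).adicCompletion L) p) =
        -(p.rootMultiplicity α : ℤ) := this
  rw [e, even_neg, Int.even_coe_nat, par_eq_zero_iff]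

/-- The formula at a root of `a - b`. -/
lemma formula_root {γ : Ω ≃ₐ[k[X]] Ω} {x : ℕ → (Ω ≃ₐ[L] Ω) → (W.baseChange Ω).Point}
    (hx : TC W x) (hloc : LocFin F (x 2)) {η : (Ω ≃ₐ[L] Ω) → (W.baseChange Ω).Point}
    (hη : ∀ σ, η σ = rho7 h.hk W γ x 2 σ - x 2 σ) (hηh : IsHom η) {P₁ P₃ : F[X]}
    (hP₁ : PRep (F := L) h.sΩ (x 1) P₁) {β : Ω} (hβ : β ^ 2 = algebraMap F[X] Ω P₃)
    (hβg : ∀ g : Ω ≃ₐ[L] Ω, g β = (h.sΩ.rot.rot.chi (x 1 g) : Ω) * β) {ε : ℤ}
    (hε : ε = 1 ∨ ε = -1) (hγβ : γ β = (ε : Ω) * β) {α : F}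
    (hα : ((a - b).map (algebraMap k F)).eval α = 0) (hτα : resF h.hk γ α = α)
    (hP₃ : P₃.eval α ≠ 0) :
    dv F h.sΩ η α = mu ((resF h.hk γ : F ≃ₐ[k] F) : F →+* F) (P₃.eval α *
      if par P₁ α = 0 then 1 else ((a - c).map (algebraMap k F)).eval α) +
        if ε = -1 then 1 else 0 := by
  set τ := resF h.hk γ with hτ
  obtain ⟨φ, hφ, hφv⟩ := exists_adic_aut L (τ : F ≃+* F) α hτα
  obtain ⟨j⟩ : Nonempty (Ω →ₐ[L] SeparableClosure ((placeAt α).adicCompletion L)) :=
    ⟨IsSepClosed.lift⟩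
  obtain ⟨γ₀, hγ₀p, U, hU, hγ₀⟩ := exists_local_lift h.hk j τ φ hφ
  let _ : Algebra k[X] ((placeAt α).adicCompletion L) :=
    ((algebraMap L ((placeAt α).adicCompletion L)).comp (algebraMap k[X] L)).toAlgebra
  have : IsScalarTower k[X] L ((placeAt α).adicCompletion L) :=
    IsScalarTower.of_algebraMap_eq fun _ => rfl
  let _ : Algebra k[X] (SeparableClosure ((placeAt α).adicCompletion L)) :=
    ((algebraMap L (SeparableClosure ((placeAt α).adicCompletion L))).comp
      (algebraMap k[X] L)).toAlgebra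
  have : IsScalarTower k[X] L (SeparableClosure ((placeAt α).adicCompletion L)) :=
    IsScalarTower.of_algebraMap_eq fun _ => rfl
  have : IsScalarTower k[X] ((placeAt α).adicCompletion L)
      (SeparableClosure ((placeAt α).adicCompletion L)) :=
    IsScalarTower.of_algebraMap_eq fun p => by
      rw [IsScalarTower.algebraMap_apply k[X] L (SeparableClosure ((placeAt α).adicCompletion L)),
        IsScalarTower.algebraMap_apply L ((placeAt α).adicCompletion L)
          (SeparableClosure ((placeAt α).adicCompletion L)),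
        IsScalarTower.algebraMap_apply k[X] L ((placeAt α).adicCompletion L)]
  obtain ⟨hkK, hcol⟩ := local_conditions h hα
  have hUk : ∀ p : k[X], U (algebraMap k[X] (SeparableClosure ((placeAt α).adicCompletion L)) p) =
      algebraMap k[X] (SeparableClosure ((placeAt α).adicCompletion L)) p := by
    intro p
    rw [IsScalarTower.algebraMap_apply k[X] ((placeAt α).adicCompletion L), hU,
      IsScalarTower.algebraMap_apply k[X] L ((placeAt α).adicCompletion L), hφ, h.hk,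
      coefL_algebraMap]
    congr 3
    exact map_fix τ p
  have hresγ₀ : resF h.hk γ₀ = τ := resF_unique h.hk fun a => by
    rw [hγ₀p, map_C]
    rfl
  obtain ⟨σ₀, hσ₀⟩ := exists_inner h.hk (γ := γ₀⁻¹ * γ) (by
    rw [resF_mul, resF_inv, hresγ₀, ← hτ, inv_mul_cancel])
  have hh : ∀ x, γ x = γ₀ (σ₀ x) := by
    intro y
    rw [← hσ₀]
    change γ y = γ₀ (γ₀⁻¹ (γ y))
    exact (AlgEquiv.apply_symm_apply γ₀ (γ y)).symm
  have hover : IsOver (K := (placeAt α).adicCompletion L) Valued.v α :=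
    ⟨val_X_sub_C L α, fun p hp => val_eq_one L α hp⟩
  have hsq : ∀ y : (placeAt α).adicCompletion L, y ≠ 0 →
      Even (lg (Valued.v : Valuation ((placeAt α).adicCompletion L)
        (WithZero (Multiplicative ℤ))) y) → ∃ r, r ^ 2 = y := fun y hy hev =>
    exists_sqrt_of_even _ (val_X_sub_C L α) (fun y hy => exists_sqrt_of_unit L h.two α y hy) hy hev
  have hK : SplitAt ((placeAt α).adicCompletion L) W a b c :=
    h.split.up (Algebra.ofId L ((placeAt α).adicCompletion L))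
  have hlift : LocalLift (R := k[X]) j γ₀ (AlgEquiv.ofRingEquiv (f := U) hUk) φ :=
    ⟨hU, hγ₀⟩
  have hpol := pol_spec (F := F) (hΩ := h.sΩ) hηh
  have main := local_formula (Ω := Ω) (hΩ := h.sΩ) h.two hkK hK hover hcol hsq
    (τ := ((τ : F ≃ₐ[k] F) : F →+* F)) hlift (fun y => by
      rw [IsScalarTower.algebraMap_apply F[X] L, hφ, coefL_algebraMap, map_C,
        ← IsScalarTower.algebraMap_apply F[X] L]
      rfl) hφv hx (by
      obtain ⟨Q, hQ⟩ := hloc α (SeparableClosure ((placeAt α).adicCompletion L)) j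
      refine ⟨Q, fun g g' hg => ?_⟩
      rw [hQ g g' hg]
      rcases Q with _ | ⟨x, y, hxy⟩
      · rfl
      · rfl) hh (fun g => ⟨cj h.hk γ g, cj_spec h.hk γ g⟩) (η := η) (fun g g' hg => by
      rw [hη, rho7_apply, cj_unique h.hk hg]) hP₁ hβ hβg hε hγβ hP₃ hpol
  have hP₁0 : P₁ ≠ 0 := hP₁.ne_zero
  rw [even_lg_iff hpol.ne_zero] at main
  have e1 : (if Even (lg (Valued.v : Valuation ((placeAt α).adicCompletion L)
      (WithZero (Multiplicative ℤ))) (algebraMap F[X] ((placeAt α).adicCompletion L) P₁)) then 1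
        else ((a - c).map (algebraMap k F)).eval α) = if par P₁ α = 0 then 1 else
          ((a - c).map (algebraMap k F)).eval α := by
    simp only [even_lg_iff hP₁0]
  rw [e1] at main
  change (dv F h.sΩ η α = 0) ↔ _ at main
  have h01 : ¬ ((0 : ZMod 2) = 1) := by decide
  have h10 : ¬ ((1 : ZMod 2) = 0) := by decide
  have h11 : (1 : ZMod 2) + 1 = 0 := rfl
  rcases zmod_cases (dv F h.sΩ η α) with h0 | h1
  · by_cases hm : ε = -1
    · have := (main.mp h0).mpr hm
      rw [h0, if_pos hm, mu_eq_one.mpr this, h11]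
    · have : ¬ Moves _ _ := fun hM => hm ((main.mp h0).mp hM)
      rw [h0, if_neg hm, mu_eq_zero.mpr this, add_zero]
  · have hne : ¬ (dv F h.sΩ η α = 0) := by rw [h1]; exact h10
    rw [main] at hne
    by_cases hm : ε = -1
    · have : ¬ Moves _ _ := fun hM => hne ⟨fun _ => hm, fun _ => hM⟩
      rw [h1, if_pos hm, mu_eq_zero.mpr this, zero_add]
    · by_cases hM : Moves ((τ : F ≃ₐ[k] F) : F →+* F) (P₃.eval α *
          if par P₁ α = 0 then 1 else ((a - c).map (algebraMap k F)).eval α)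
      · rw [h1, if_neg hm, mu_eq_one.mpr hM, add_zero]
      · exact absurd ⟨fun h' => absurd h' hM, fun h' => absurd h' hm⟩ hne

lemma diffProd_comm (S T U : Finset F) (e x : F) : diffProd S T U e x = diffProd S U T e x := by
  unfold diffProd
  rw [mul_comm (∏ s ∈ T, (x - s))]

/-- The formula at the roots of `a - b`, in terms of the divisor. -/
lemma formula_ab {γ : Ω ≃ₐ[k[X]] Ω} {x : ℕ → (Ω ≃ₐ[L] Ω) → (W.baseChange Ω).Point}
    (hx : TC W x) (hloc : LocFin F (x 2)) {η : (Ω ≃ₐ[L] Ω) → (W.baseChange Ω).Point}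
    (hη : ∀ σ, η σ = rho7 h.hk W γ x 2 σ - x 2 σ) (hηh : IsHom η) {S T U : Finset F}
    (hd : Div7 h (x 1) S T U) {β : Ω} (hβ : β ^ 2 = algebraMap F[X] Ω (fP T * fP U))
    (hβg : ∀ g : Ω ≃ₐ[L] Ω, g β = (h.sΩ.rot.rot.chi (x 1 g) : Ω) * β) {ε : ℤ}
    (hε : ε = 1 ∨ ε = -1) (hγβ : γ β = (ε : Ω) * β) {α : F}
    (hα : ((a - b).map (algebraMap k F)).eval α = 0) (hτα : resF h.hk γ α = α) :
    dv F h.sΩ η α = mu ((resF h.hk γ : F ≃ₐ[k] F) : F →+* F)
      (diffProd S T U (((a - c).map (algebraMap k F)).eval α) α) + if ε = -1 then 1 else 0 := by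
  have hT : α ∉ T := fun h' => h.cop α hα (hd.mT α h')
  have hU : α ∉ U := fun h' => h.cop_bc hα (hd.mU α h')
  rw [formula_root h hx hloc hη hηh hd.r1 hβ hβg hε hγβ hα hτα (by
    rw [eval_mul]
    exact mul_ne_zero (fP_eval_ne hT) (fP_eval_ne hU))]
  congr 2
  unfold diffProd
  rw [eval_mul, fP_eval, fP_eval, par_mul (fP_monic S).ne_zero (fP_monic T).ne_zero, par_fP,
    par_fP, if_neg hT, add_zero]
  congr 1
  by_cases hS : α ∈ S
  · simp [hS]
  · simp [hS]

include h in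
lemma gamma_fP {γ : Ω ≃ₐ[k[X]] Ω} {S : Finset F} (hS : ∀ s ∈ S, resF h.hk γ s = s) :
    γ (algebraMap F[X] Ω (fP S)) = algebraMap F[X] Ω (fP S) := by
  rw [resF_spec h.hk]
  congr 1
  unfold fP
  rw [Polynomial.map_prod]
  refine Finset.prod_congr rfl fun s hs => ?_
  rw [Polynomial.map_sub, map_X, map_C]
  congr 2
  exact hS s hs

include h in
/-- The sign attached to a square root. -/
lemma exists_sign {γ : Ω ≃ₐ[k[X]] Ω} {β : Ω} {P : F[X]} (hβ : β ^ 2 = algebraMap F[X] Ω P)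
    (hP : γ (algebraMap F[X] Ω P) = algebraMap F[X] Ω P) :
    ∃ ε : ℤ, (ε = 1 ∨ ε = -1) ∧ γ β = (ε : Ω) * β := by
  have h1 : (γ β) ^ 2 = β ^ 2 := by rw [← map_pow, hβ, hP]
  rcases sq_eq_sq_iff_eq_or_eq_neg.mp h1 with h2 | h2
  · exact ⟨1, Or.inl rfl, by rw [h2]; simp⟩
  · exact ⟨-1, Or.inr rfl, by rw [h2]; simp⟩

/-- The formulas at all the roots. -/
lemma formula_all {γ : Ω ≃ₐ[k[X]] Ω} (hγ : γ ∈ Gam7 Ω h)
    {x : ℕ → (Ω ≃ₐ[L] Ω) → (W.baseChange Ω).Point}
    (hx : TC W x) (hloc : LocFin F (x 2)) {η : (Ω ≃ₐ[L] Ω) → (W.baseChange Ω).Point}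
    (hη : ∀ σ, η σ = rho7 h.hk W γ x 2 σ - x 2 σ) (hηh : IsHom η) {S T U : Finset F}
    (hd : Div7 h (x 1) S T U) : ∃ u₁ u₂ u₃ : ZMod 2, u₁ + u₂ + u₃ = 0 ∧
      (∀ α, ((a - b).map (algebraMap k F)).eval α = 0 → dv F h.sΩ η α =
        mu ((resF h.hk γ : F ≃ₐ[k] F) : F →+* F)
          (diffProd S T U (((a - c).map (algebraMap k F)).eval α) α) + u₃) ∧
      (∀ α, ((a - c).map (algebraMap k F)).eval α = 0 → dv F h.sΩ η α =
        mu ((resF h.hk γ : F ≃ₐ[k] F) : F →+* F)
          (diffProd T S U (((a - b).map (algebraMap k F)).eval α) α) + u₂) ∧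
      (∀ α, ((b - c).map (algebraMap k F)).eval α = 0 → dv F h.sΩ.swap12 η α =
        mu ((resF h.hk γ : F ≃ₐ[k] F) : F →+* F)
          (diffProd U S T (((b - a).map (algebraMap k F)).eval α) α) + u₁) := by
  have fAB : ∀ α, ((a - b).map (algebraMap k F)).eval α = 0 → resF h.hk γ α = α := fun α hα =>
    hγ α (by unfold allR; simp only [Finset.mem_union, mem_rootsIn h.ne_ab]; tauto)
  have fAC : ∀ α, ((a - c).map (algebraMap k F)).eval α = 0 → resF h.hk γ α = α := fun α hα =>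
    hγ α (by unfold allR; simp only [Finset.mem_union, mem_rootsIn h.ne_ac]; tauto)
  have fBC : ∀ α, ((b - c).map (algebraMap k F)).eval α = 0 → resF h.hk γ α = α := fun α hα =>
    hγ α (by unfold allR; simp only [Finset.mem_union, mem_rootsIn h.ne_bc]; tauto)
  have gS := gamma_fP h (γ := γ) (S := S) fun s hs => fAB s (hd.mS s hs)
  have gT := gamma_fP h (γ := γ) (S := T) fun s hs => fAC s (hd.mT s hs)
  have gU := gamma_fP h (γ := γ) (S := U) fun s hs => fBC s (hd.mU s hs)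
  obtain ⟨β₁, hβ₁0, hβ₁, hβ₁g⟩ := hd.r1
  obtain ⟨β₂, hβ₂0, hβ₂, hβ₂g⟩ := hd.r2
  obtain ⟨β₃, hβ₃0, hβ₃, hβ₃g⟩ := hd.r3
  rw [← IsScalarTower.algebraMap_apply] at hβ₁ hβ₂ hβ₃
  obtain ⟨ε₁, hε₁, hγ₁⟩ := exists_sign h (γ := γ) hβ₁ (by rw [map_mul, map_mul, gS, gT])
  obtain ⟨ε₂, hε₂, hγ₂⟩ := exists_sign h (γ := γ) hβ₂ (by rw [map_mul, map_mul, gS, gU])
  obtain ⟨ε₃, hε₃, hγ₃⟩ := exists_sign h (γ := γ) hβ₃ (by rw [map_mul, map_mul, gT, gU])
  have hprod : ((ε₁ : Ω) * ε₂ * ε₃) = 1 := by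
    have h1 : (β₁ * β₂ * β₃) ^ 2 = (algebraMap F[X] Ω (fP S * fP T * fP U)) ^ 2 := by
      rw [mul_pow, mul_pow, hβ₁, hβ₂, hβ₃]
      simp only [map_mul]
      ring
    have h2 : γ (β₁ * β₂ * β₃) = β₁ * β₂ * β₃ := by
      rcases sq_eq_sq_iff_eq_or_eq_neg.mp h1 with h3 | h3
      · rw [h3, map_mul, map_mul, map_mul, map_mul, gS, gT, gU]
      · rw [h3, map_neg, map_mul, map_mul, map_mul, map_mul, gS, gT, gU]
    rw [map_mul, map_mul, hγ₁, hγ₂, hγ₃] at h2
    have h3 : β₁ * β₂ * β₃ ≠ 0 := mul_ne_zero (mul_ne_zero hβ₁0 hβ₂0) hβ₃0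
    apply mul_right_cancel₀ h3
    rw [one_mul]
    linear_combination h2
  refine ⟨if ε₁ = -1 then 1 else 0, if ε₂ = -1 then 1 else 0, if ε₃ = -1 then 1 else 0, ?_,
    fun α hα => ?_, fun α hα => ?_, fun α hα => ?_⟩
  · have h2 : (2 : Ω) ≠ 0 := (h.sΩ (Ω := Ω)).two
    have hm : (-1 : Ω) ≠ 1 := by
      intro h'
      apply h2
      linear_combination -h'
    rcases hε₁ with rfl | rfl <;> rcases hε₂ with rfl | rfl <;> rcases hε₃ with rfl | rfl <;>
      first
      | (norm_num at hprod; exact absurd hprod hm)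
      | (norm_num; done)
      | (norm_num; rfl)
  · exact formula_ab h hx hloc hη hηh hd hβ₃ hβ₃g hε₃ hγ₃ hα (fAB α hα)
  · exact formula_ab h.swap23 hx hloc hη hηh hd.swap23 hβ₂ hβ₂g hε₂ hγ₂ hα (fAC α hα)
  · exact formula_ab h.swap12.swap23 hx hloc hη hηh hd.swap12.swap23 hβ₁ hβ₁g hε₁ hγ₁ hα
      (fBC α hα)

include h in
/-- The parity identity for the numbers attached to the roots. -/
lemma sum_identity {τ : F ≃ₐ[k] F} (hτ : ∀ β ∈ allR F a b c, τ β = β) {S T U : Finset F}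
    (mS : ∀ α ∈ S, ((a - b).map (algebraMap k F)).eval α = 0)
    (mT : ∀ α ∈ T, ((a - c).map (algebraMap k F)).eval α = 0)
    (mU : ∀ α ∈ U, ((b - c).map (algebraMap k F)).eval α = 0)
    (hST : Even (S.card + T.card)) (hSU : Even (S.card + U.card)) :
    ∑ α ∈ rootsIn F (a - b), mu (τ : F →+* F)
      (diffProd S T U (((a - c).map (algebraMap k F)).eval α) α) =
    ∑ α ∈ rootsIn F (a - c), mu (τ : F →+* F)
      (diffProd T S U (((a - b).map (algebraMap k F)).eval α) α) := by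
  have hlc : ∀ p : k[X], (τ : F →+* F) (p.map (algebraMap k F)).leadingCoeff =
      (p.map (algebraMap k F)).leadingCoeff := by
    intro p
    rw [leadingCoeff_map]
    exact τ.commutes _
  have hAB : ∀ α, ((a - b).map (algebraMap k F)).eval α = 0 → τ α = α := fun α hα =>
    hτ α (by unfold allR; simp only [Finset.mem_union, mem_rootsIn h.ne_ab]; tauto)
  have hAC : ∀ α, ((a - c).map (algebraMap k F)).eval α = 0 → τ α = α := fun α hα =>
    hτ α (by unfold allR; simp only [Finset.mem_union, mem_rootsIn h.ne_ac]; tauto)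
  have hBC : ∀ α, ((b - c).map (algebraMap k F)).eval α = 0 → τ α = α := fun α hα =>
    hτ α (by unfold allR; simp only [Finset.mem_union, mem_rootsIn h.ne_bc]; tauto)
  have key := mu_identity (τ := (τ : F →+* F)) h.two h.ne_ab h.ne_ac (hlc _) (hlc _) h.mab h.mac
    hAB hAC h.cop h.card_odd h.swap23.card_odd (S := S) (T := T) (U := U)
    (fun s hs => by
      rw [Multiset.mem_toFinset, mem_roots h.ne_ab]
      exact mS s hs)
    (fun s hs => by
      rw [Multiset.mem_toFinset, mem_roots h.ne_ac]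
      exact mT s hs)
    (fun u hu => ⟨hBC u (mU u hu), fun h' => h.cop_bc h' (mU u hu), by
      have e : a - c = (a - b) + (b - c) := by ring
      rw [e, Polynomial.map_add, eval_add, mU u hu, add_zero]⟩) hST hSU
  exact key

/-- The map on triples attached to an automorphism. -/
noncomputable def v7 (a b c : k[X]) (τ : F → F) (t : Finset F × Finset F × Finset F) :
    Finset F × Finset F × Finset F :=
  ((rootsIn F (a - b)).filter fun α =>
      Moves τ (diffProd t.1 t.2.1 t.2.2 (((a - c).map (algebraMap k F)).eval α) α),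
    (rootsIn F (a - c)).filter fun α =>
      Moves τ (diffProd t.2.1 t.1 t.2.2 (((a - b).map (algebraMap k F)).eval α) α),
    (rootsIn F (b - c)).filter fun α =>
      Moves τ (diffProd t.2.2 t.1 t.2.1 (((b - a).map (algebraMap k F)).eval α) α))

lemma card_filter_eq {R : Finset F} {f : F → ZMod 2} :
    (((R.filter fun α => f α = 1).card : ℕ) : ZMod 2) = ∑ α ∈ R, f α := by
  rw [Finset.card_eq_sum_ones, Nat.cast_sum, Finset.sum_filter]
  refine Finset.sum_congr rfl fun α _ => ?_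
  rcases zmod_cases (f α) with h0 | h1
  · rw [h0, if_neg (by decide)]
  · rw [h1, if_pos rfl, Nat.cast_one]

/-- **The formula** for the triple of `(γ x - x) / 2`. -/
theorem formula {γ : Ω ≃ₐ[k[X]] Ω} (hγ : γ ∈ Gam7 Ω h)
    {x z : ℕ → (Ω ≃ₐ[L] Ω) → (W.baseChange Ω).Point} (hx : x ∈ S7 Ω h) (hz : z ∈ S7 Ω h)
    (hT : rho7 h.hk W γ x - x - (z + z) ∈ T7 Ω h) :
    tri h (z 1) = v7 a b c ((resF h.hk γ : F ≃ₐ[k] F) : F →+* F) (tri h (x 1)) := by
  obtain ⟨Q, hQ, hQe⟩ := hT.2 2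
  have hQ4 : (Q + Q) + (Q + Q) = 0 := by
    rw [← hQ]
    have : (2 : ℕ) ^ 2 = 4 := by norm_num
    rw [this]
    abel
  have hxh := isHom_one h hx.tc
  have hzh := isHom_one h hz.tc
  have hkh := kum_isHom h (kum_two h hQ4)
  set η : (Ω ≃ₐ[L] Ω) → (W.baseChange Ω).Point := z 1 + kum L W Q with hηdef
  have hηh : IsHom η := hzh.add hkh
  have hη : ∀ σ, η σ = rho7 h.hk W γ x 2 σ - x 2 σ := by
    intro σ
    have e1 := congrFun hQe σ
    have e2 : z 2 σ + z 2 σ = z 1 σ := by rw [← two_nsmul]; exact hz.tc.two 1 σ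
    change z 1 σ + kum L W Q σ = _
    rw [← e1, ← e2]
    change _ + (rho7 h.hk W γ x 2 σ - x 2 σ - (z 2 σ + z 2 σ)) = _
    abel
  have hdx := tri_spec h hxh (hx.loc 1)
  have hdz := tri_spec h hzh (hz.loc 1)
  obtain ⟨u₁, u₂, u₃, hu, f1, f2, f3⟩ := formula_all h hγ hx.tc (hx.loc 2) hη hηh hdx
  obtain ⟨k₁, k₂, k₃, hk, -⟩ := exists_kumData h hQ4
  set S := (tri h (x 1)).1 with hS
  set T := (tri h (x 1)).2.1 with hTdef
  set U := (tri h (x 1)).2.2 with hU
  set τ := resF h.hk γ with hτ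
  have g1 : ∀ α, ((a - b).map (algebraMap k F)).eval α = 0 → dv F h.sΩ (z 1) α =
      mu (τ : F →+* F) (diffProd S T U (((a - c).map (algebraMap k F)).eval α) α) +
        (u₃ + k₃) := by
    intro α hα
    have e1 := f1 α hα
    rw [hηdef, dv_add hzh hkh, hk.ab α hα] at e1
    have e2 := CharTwo.add_self_eq_zero k₃
    linear_combination e1 - e2
  have g2 : ∀ α, ((a - c).map (algebraMap k F)).eval α = 0 → dv F h.sΩ (z 1) α =
      mu (τ : F →+* F) (diffProd T S U (((a - b).map (algebraMap k F)).eval α) α) +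
        (u₂ + k₂) := by
    intro α hα
    have e1 := f2 α hα
    rw [hηdef, dv_add hzh hkh, hk.ac α hα] at e1
    have e2 := CharTwo.add_self_eq_zero k₂
    linear_combination e1 - e2
  have g3 : ∀ α, ((b - c).map (algebraMap k F)).eval α = 0 → dv F h.sΩ.swap12 (z 1) α =
      mu (τ : F →+* F) (diffProd U S T (((b - a).map (algebraMap k F)).eval α) α) +
        (u₁ + k₁) := by
    intro α hα
    have e1 := f3 α hα
    rw [hηdef, dv_add hzh hkh, hk.bc α hα] at e1
    have e2 := CharTwo.add_self_eq_zero k₁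
    linear_combination e1 - e2
  -- cardinalities
  have odd1 : ((rootsIn F (a - b)).card : ZMod 2) = 1 := ZMod.natCast_eq_one_iff_odd.mpr h.card_odd
  have odd2 : ((rootsIn F (a - c)).card : ZMod 2) = 1 :=
    ZMod.natCast_eq_one_iff_odd.mpr h.swap23.card_odd
  have odd3 : ((rootsIn F (b - c)).card : ZMod 2) = 1 :=
    ZMod.natCast_eq_one_iff_odd.mpr h.swap12.swap23.card_odd
  have c1 : (((tri h (z 1)).1.card : ℕ) : ZMod 2) = ∑ α ∈ rootsIn F (a - b), mu (τ : F →+* F)
      (diffProd S T U (((a - c).map (algebraMap k F)).eval α) α) + (u₃ + k₃) := by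
    change (((Finset.filter _ _).card : ℕ) : ZMod 2) = _
    rw [card_filter_eq, Finset.sum_congr rfl fun α hα =>
      g1 α ((mem_rootsIn h.ne_ab α).mp hα), Finset.sum_add_distrib, Finset.sum_const,
      nsmul_eq_mul, odd1, one_mul]
  have c2 : (((tri h (z 1)).2.1.card : ℕ) : ZMod 2) = ∑ α ∈ rootsIn F (a - c),
      mu (τ : F →+* F)
      (diffProd T S U (((a - b).map (algebraMap k F)).eval α) α) + (u₂ + k₂) := by
    change (((Finset.filter _ _).card : ℕ) : ZMod 2) = _
    rw [card_filter_eq, Finset.sum_congr rfl fun α hα =>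
      g2 α ((mem_rootsIn h.ne_ac α).mp hα), Finset.sum_add_distrib, Finset.sum_const,
      nsmul_eq_mul, odd2, one_mul]
  have c3 : (((tri h (z 1)).2.2.card : ℕ) : ZMod 2) = ∑ α ∈ rootsIn F (b - c),
      mu (τ : F →+* F)
      (diffProd U S T (((b - a).map (algebraMap k F)).eval α) α) + (u₁ + k₁) := by
    change (((Finset.filter _ _).card : ℕ) : ZMod 2) = _
    rw [card_filter_eq, Finset.sum_congr rfl fun α hα =>
      g3 α ((mem_rootsIn h.ne_bc α).mp hα), Finset.sum_add_distrib, Finset.sum_const,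
      nsmul_eq_mul, odd3, one_mul]
  have ev1 : Even (S.card + T.card) := hdx.even_card hxh hx.d1
  have ev2 : Even (S.card + U.card) := hdx.swap12.even_card hxh hx.d2
  have z1 : (((tri h (z 1)).1.card : ℕ) : ZMod 2) + (((tri h (z 1)).2.1.card : ℕ) : ZMod 2) =
      0 := by
    rw [← Nat.cast_add]
    exact ZMod.natCast_eq_zero_iff_even.mpr (hdz.even_card hzh hz.d1)
  have z2 : (((tri h (z 1)).1.card : ℕ) : ZMod 2) + (((tri h (z 1)).2.2.card : ℕ) : ZMod 2) =
      0 := by
    rw [← Nat.cast_add]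
    exact ZMod.natCast_eq_zero_iff_even.mpr (hdz.swap12.even_card hzh hz.d2)
  have i1 := sum_identity h (τ := τ) hγ hdx.mS hdx.mT hdx.mU ev1 ev2
  have i2 := sum_identity h.swap12 (τ := τ) (S := S) (T := U) (U := T) (by
    intro β hβ
    apply hγ
    unfold allR at hβ ⊢
    simp only [Finset.mem_union, mem_rootsIn h.ne_ab, mem_rootsIn h.ne_ac,
      mem_rootsIn h.ne_bc, mem_rootsIn h.swap12.ne_ab] at hβ ⊢
    rw [eval_sub_swap b a] at hβ
    tauto) hdx.swap12.mS hdx.swap12.mT hdx.swap12.mU ev2 ev1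
  have i3 : ∑ α ∈ rootsIn F (b - a), mu (τ : F →+* F)
      (diffProd S U T (((b - c).map (algebraMap k F)).eval α) α) =
      ∑ α ∈ rootsIn F (a - b), mu (τ : F →+* F)
      (diffProd S T U (((a - c).map (algebraMap k F)).eval α) α) := by
    have : rootsIn F (b - a) = rootsIn F (a - b) := by
      ext α
      rw [mem_rootsIn h.ne_ab, mem_rootsIn h.swap12.ne_ab, eval_sub_swap]
    rw [this]
    refine Finset.sum_congr rfl fun α hα => ?_
    rw [mem_rootsIn h.ne_ab] at hα
    have e : a - c = (a - b) + (b - c) := by ring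
    have e2 : ((a - c).map (algebraMap k F)).eval α = ((b - c).map (algebraMap k F)).eval α := by
      rw [e, Polynomial.map_add, eval_add, hα, zero_add]
    rw [diffProd_comm, e2]
  rw [i3] at i2
  rw [c1, c2, i1] at z1
  rw [c1, c3, i2] at z2
  have two : (2 : ZMod 2) = 0 := rfl
  have s23 : (u₂ + k₂) + (u₃ + k₃) = 0 := by
    linear_combination z1 - (∑ α ∈ rootsIn F (a - c),
      mu (τ : F →+* F) (diffProd T S U (((a - b).map (algebraMap k F)).eval α) α)) * two
  have s13 : (u₁ + k₁) + (u₃ + k₃) = 0 := by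
    linear_combination z2 - (∑ α ∈ rootsIn F (b - c),
      mu (τ : F →+* F) (diffProd U S T (((b - a).map (algebraMap k F)).eval α) α)) * two
  have m1 : u₁ + k₁ = 0 := by linear_combination hu + hk.sum - s23
  have m2 : u₂ + k₂ = 0 := by linear_combination hu + hk.sum - s13
  have m3 : u₃ + k₃ = 0 := by linear_combination s23 - m2
  refine Prod.ext ?_ (Prod.ext ?_ ?_)
  · refine Finset.filter_congr fun α hα => ?_
    rw [g1 α ((mem_rootsIn h.ne_ab α).mp hα), m3, add_zero]
    exact mu_eq_one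
  · refine Finset.filter_congr fun α hα => ?_
    rw [g2 α ((mem_rootsIn h.ne_ac α).mp hα), m2, add_zero]
    exact mu_eq_one
  · refine Finset.filter_congr fun α hα => ?_
    rw [g3 α ((mem_rootsIn h.ne_bc α).mp hα), m1, add_zero]
    exact mu_eq_one

end

end Pool.Agent.Lib.MP_89bcae_ag.LevelTwo

end

section

/-!
# From the action on triples to Kummer classes
-/

open Polynomial WeierstrassCurve WeierstrassCurve.Affine IsDedekindDomain

open scoped Classical

namespace Pool.Agent.Lib.MP_89bcae_ag.LevelTwo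

set_option linter.unusedSectionVars false

universe v

section

variable {k : Type*} {F L : Type v} {Ω : Type*} [Field k] [Field F] [Algebra k F]
  [Algebra.IsAlgebraic k F]
  [IsAlgClosed F] [Field L] [Field Ω]
  [Algebra F[X] L] [IsFractionRing F[X] L] [Algebra L Ω] [Algebra F[X] Ω] [IsScalarTower F[X] L Ω]
  [Algebra k[X] L] [Algebra k[X] Ω] [IsScalarTower k[X] L Ω]
  [IsGalois L Ω] [IsSepClosed Ω] [IsSepClosure L Ω]

variable {W : Affine k[X]} {a b c : k[X]} {n : ℕ} (h : Ctx7 F L W a b c n)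

lemma kum_nsmul (j : ℕ) (Q : (W.baseChange Ω).Point) : j • kum L W Q = kum L W (j • Q) := by
  induction j with
  | zero => rw [zero_smul, zero_smul, kum_zero]
  | succ j ih => rw [succ_nsmul, ih, succ_nsmul, kum_add]

/-- The classes whose reduction modulo two is the Kummer class of a point of `M`. -/
def B7 (_ : Ctx7 F L W a b c n) (M : AddSubgroup (W.baseChange Ω).Point) :
    AddSubgroup (ℕ → (Ω ≃ₐ[L] Ω) → (W.baseChange Ω).Point) where
  carrier := {x | ∃ Q : (W.baseChange Ω).Point, Q + Q ∈ M ∧ x 1 = kum L W Q}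
  zero_mem' := ⟨0, by rw [add_zero]; exact M.zero_mem, kum_zero.symm⟩
  add_mem' := by
    rintro x y ⟨Q, hQ, h1⟩ ⟨Q', hQ', h2⟩
    refine ⟨Q + Q', ?_, ?_⟩
    · have : Q + Q' + (Q + Q') = (Q + Q) + (Q' + Q') := by abel
      rw [this]
      exact M.add_mem hQ hQ'
    · rw [kum_add, ← h1, ← h2]
      rfl
  neg_mem' := by
    rintro x ⟨Q, hQ, h1⟩
    refine ⟨-Q, ?_, ?_⟩
    · have : -Q + -Q = -(Q + Q) := by abel
      rw [this]
      exact M.neg_mem hQ
    · rw [kum_neg, ← h1]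
      rfl

lemma T_le_B (M : AddSubgroup (W.baseChange Ω).Point) : T7 Ω h ≤ B7 h M := by
  intro x hx
  refine ⟨0, by rw [add_zero]; exact M.zero_mem, ?_⟩
  rw [kum_zero]
  exact one_eq_zero_of_triv h hx.2

/-- A class is determined by its divisor. -/
lemma eq_of_div {s s' : (Ω ≃ₐ[L] Ω) → (W.baseChange Ω).Point}
    (hs : IsHom s) (hs' : IsHom s') {S T U : Finset F} (h1 : Div7 h s S T U)
    (h2 : Div7 h s' S T U) : s = s' := by
  have hsum : IsHom (s + s') := hs.add hs'
  have key : ∀ g, (s + s') g = 0 := by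
    refine eq_zero_of_dv (F := F) (hΩ := h.sΩ) hsum (fun α => ?_) (fun α => ?_)
    · rw [dv_add hs hs', h1.dv1 hs, h2.dv1 hs', CharTwo.add_self_eq_zero]
    · rw [dv_add hs hs']
      have e1 := h1.swap12.dv1 hs α
      have e2 := h2.swap12.dv1 hs' α
      rw [show dv F h.sΩ.swap12 s α = _ from e1, show dv F h.sΩ.swap12 s' α = _ from e2,
        CharTwo.add_self_eq_zero]
  funext g
  have h3 : s g + s' g = 0 := key g
  have h4 := hs'.two g
  have : s g = -s' g := eq_neg_of_add_eq_zero_left h3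
  rw [this]
  exact (eq_neg_of_add_eq_zero_left h4).symm

lemma isHom_zero : IsHom (0 : (Ω ≃ₐ[L] Ω) → (W.baseChange Ω).Point) := IsHom.zero

lemma pRep_zero {hΩ : SplitAt Ω W a b c} :
    PRep (F := L) hΩ (0 : (Ω ≃ₐ[L] Ω) → (W.baseChange Ω).Point) (fP (∅ : Finset F) * fP ∅) := by
  refine ⟨1, one_ne_zero, ?_, fun g => ?_⟩
  · unfold fP
    simp
  · change g 1 = (hΩ.chi 0 : Ω) * 1
    rw [Split.chi_zero]
    simp

lemma div_zero : Div7 h (0 : (Ω ≃ₐ[L] Ω) → (W.baseChange Ω).Point) ∅ ∅ ∅ :=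
  ⟨pRep_zero, pRep_zero, pRep_zero, by simp, by simp, by simp⟩

lemma tri_zero : tri h (0 : (Ω ≃ₐ[L] Ω) → (W.baseChange Ω).Point) = (∅, ∅, ∅) := by
  have h01 : ¬ ((0 : ZMod 2) = 1) := by decide
  unfold tri
  refine Prod.ext ?_ (Prod.ext ?_ ?_)
  · refine Finset.filter_eq_empty_iff.mpr fun α _ => ?_
    rw [dv_zero]
    exact h01
  · refine Finset.filter_eq_empty_iff.mpr fun α _ => ?_
    rw [dv_zero]
    exact h01
  · refine Finset.filter_eq_empty_iff.mpr fun α _ => ?_
    rw [dv_zero]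
    exact h01

/-- **Level one.** -/
theorem level_one (M : AddSubgroup (W.baseChange Ω).Point)
    (hM : ∀ P ∈ M, ∀ σ : Ω ≃ₐ[L] Ω, Point.map (W' := W) (σ : Ω →ₐ[L] Ω) P = P)
    (hH : ∀ S T U : Finset F,
      (∀ α ∈ S, ((a - b).map (algebraMap k F)).eval α = 0) →
      (∀ α ∈ T, ((a - c).map (algebraMap k F)).eval α = 0) →
      (∀ α ∈ U, ((b - c).map (algebraMap k F)).eval α = 0) →
      Even (S.card + T.card) → Even (S.card + U.card) →
      (∀ τ : F ≃ₐ[k] F, (∀ β ∈ allR F a b c, τ β = β) →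
        v7 a b c (τ : F →+* F) (S, T, U) = (S, T, U) ∨
        v7 a b c (τ : F →+* F) (S, T, U) = (∅, ∅, ∅)) →
      (S = ∅ ∧ T = ∅ ∧ U = ∅) ∨ ∃ Q : (W.baseChange Ω).Point, Q + Q ∈ M ∧
        Div7 h (kum L W Q) S T U) :
    ∀ x ∈ G7 Ω h, ∃ Q : (W.baseChange Ω).Point, Q + Q ∈ M ∧ x 1 = kum L W Q := by
  have a1 : ∀ γ : Ω ≃ₐ[k[X]] Ω, ∀ x ∈ S7 Ω h, rho7 h.hk W γ x ∈ S7 Ω h :=
    fun γ x hx => map_mem_S h γ hx
  have a2 : ∀ γ : Ω ≃ₐ[k[X]] Ω, ∀ x ∈ T7 Ω h, rho7 h.hk W γ x ∈ T7 Ω h :=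
    fun γ x hx => map_mem_T h γ hx
  have a3 : ∀ x ∈ S7 Ω h, x + x ∈ T7 Ω h → x ∈ T7 Ω h := fun x hx h2 => torsionFree h hx h2.2
  have a4 : ∀ x ∈ S7 Ω h, (∀ n : ℕ, ∃ y ∈ S7 Ω h, x - 2 ^ n • y ∈ T7 Ω h) → x ∈ T7 Ω h :=
    fun x hx h2 => separated h hx h2
  have a5 : ∀ γ ∈ Gam7 Ω h, ∀ x ∈ S7 Ω h,
      ∃ z ∈ S7 Ω h, rho7 h.hk W γ x - x - (z + z) ∈ T7 Ω h := fun γ hγ x hx => cong h hγ hx
  have a6 : ∀ γ ∈ Gam7 Ω h, ∀ x ∈ G7 Ω h, rho7 h.hk W γ x ∈ G7 Ω h :=
    fun γ _ x hx => map_mem_G h γ hx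
  have a7 : ∀ x ∈ S7 Ω h, x + x ∈ G7 Ω h → x ∈ G7 Ω h := fun x hx h2 => G_sat h hx h2
  have a8 : ∀ γ ∈ Gam7 Ω h, ∀ x ∈ G7 Ω h, ∃ M > 0, rho7 h.hk W (γ ^ M) x - x ∈ T7 Ω h :=
    fun γ _ x hx => G_fin h γ hx
  have a9 : ∀ x ∈ S7 Ω h, ∀ y ∈ S7 Ω h, tri h (x 1) = tri h (y 1) ↔
      ∃ z ∈ S7 Ω h, x - y - (z + z) ∈ T7 Ω h := fun x hx y hy => tri_eq_iff h hx hy
  have a10 : ∀ γ ∈ Gam7 Ω h, ∀ x ∈ S7 Ω h, ∀ z ∈ S7 Ω h,
      rho7 h.hk W γ x - x - (z + z) ∈ T7 Ω h →
      tri h (z 1) = v7 a b c ((resF h.hk γ : F ≃ₐ[k] F) : F →+* F) (tri h (x 1)) :=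
    fun γ hγ x hx z hz hT => formula h hγ hx hz hT
  refine rel_mem_of_no_eigen (rho7 h.hk W) (Gam7 Ω h) (S7 Ω h) (T7 Ω h)
    ?_ ?_ ?_ ?_ ?_ (G7 Ω h) (T_le_G h) (G_le_S h) ?_ ?_ ?_ (fun x => tri h (x 1)) (tri_finite h)
    ?_ (fun γ => v7 a b c ((resF h.hk γ : F ≃ₐ[k] F) : F →+* F)) ?_ (B7 h M) (T_le_B h M) ?_
  · exact a1
  · exact a2
  · exact a3
  · exact a4
  · exact a5
  · exact a6
  · exact a7
  · exact a8
  · exact a9
  · exact a10
  intro x hx hxB
  by_contra hcon
  push Not at hcon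
  apply hxB
  have hxS := hx.1
  have hxh := isHom_one h hxS.tc
  have hd := tri_spec h hxh (hxS.loc 1)
  obtain ⟨S, T, U, hSTU⟩ : ∃ S T U, tri h (x 1) = (S, T, U) := ⟨_, _, _, rfl⟩
  have hz0 := tri_zero (Ω := Ω) h
  rw [hSTU] at hd
  have hcon' : ∀ γ ∈ Gam7 Ω h, v7 a b c ((resF h.hk γ : F ≃ₐ[k] F) : F →+* F) (S, T, U) ≠
      (S, T, U) → v7 a b c ((resF h.hk γ : F ≃ₐ[k] F) : F →+* F) (S, T, U) = (∅, ∅, ∅) := by
    intro γ hγ hne
    have h3 := hcon γ hγ
    simp only [hSTU] at h3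
    exact (h3 hne).trans hz0
  have h1 := hH S T U hd.mS hd.mT hd.mU (hd.even_card hxh hxS.d1)
    (hd.swap12.even_card hxh hxS.d2) (by
      intro τ hτ
      obtain ⟨γ, hγ⟩ := exists_lift_aut (F := L) (Ω := Ω) h.hk τ
      have hres : resF h.hk γ = τ := resF_unique h.hk fun a => by
        rw [hγ, map_C]
        rfl
      have hγG : γ ∈ Gam7 Ω h := by
        intro β hβ
        rw [hres]
        exact hτ β hβ
      have h4 := hcon' γ hγG
      rw [hres] at h4
      by_cases h2 : v7 a b c (τ : F →+* F) (S, T, U) = (S, T, U)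
      · exact Or.inl h2
      · exact Or.inr (h4 h2))
  rcases h1 with ⟨e1, e2, e3⟩ | ⟨Q, hQ, hQd⟩
  · rw [e1, e2, e3] at hd
    refine ⟨0, by rw [add_zero]; exact M.zero_mem, ?_⟩
    rw [kum_zero]
    exact eq_of_div h hxh isHom_zero hd (div_zero h)
  · refine ⟨Q, hQ, ?_⟩
    refine eq_of_div h hxh (kum_isHom h fun σ => ?_) hd hQd
    change (Point.map (W' := W) (σ : Ω →ₐ[L] Ω) Q - Q) +
      (Point.map (W' := W) (σ : Ω →ₐ[L] Ω) Q - Q) = 0
    have h2 := hM _ hQ σ
    rw [map_add] at h2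
    have : (Point.map (W' := W) (σ : Ω →ₐ[L] Ω) Q - Q) +
      (Point.map (W' := W) (σ : Ω →ₐ[L] Ω) Q - Q) = (Point.map (W' := W) (σ : Ω →ₐ[L] Ω) Q +
        Point.map (W' := W) (σ : Ω →ₐ[L] Ω) Q) - (Q + Q) := by abel
    rw [this, h2, sub_self]

lemma exists_half7 (h : Ctx7 F L W a b c n) (P : (W.baseChange Ω).Point) : ∃ Q, Q + Q = P :=
  h.sΩ.exists_half (fun z => IsSepClosed.exists_pow_nat_eq z 2 (hn := ⟨by
    push_cast; exact h.sΩ.two⟩)) P

/-- The Kummer cocycle of a point which is fixed by all automorphisms. -/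
lemma del7_mem_G {q : ℕ → (W.baseChange Ω).Point} (hq : ∀ n, q (n + 1) + q (n + 1) = q n)
    (h0 : ∀ σ : Ω ≃ₐ[L] Ω, Point.map (W' := W) (σ : Ω →ₐ[L] Ω) (q 0) = q 0)
    (h0' : ∀ γ : Ω ≃ₐ[k[X]] Ω, Point.map (W' := W) (γ : Ω →ₐ[k[X]] Ω) (q 0) = q 0)
    (d1 : dg F h.sΩ (kum L W (q 1)) = 0) (d2 : dg F h.sΩ.swap12 (kum L W (q 1)) = 0) :
    del7 L W q ∈ G7 Ω h := by
  have hS : del7 L W q ∈ S7 Ω h := ⟨del7_tc hq h0, fun m => locFin_kum _, d1, d2⟩
  refine ⟨hS, ∅, fun γ _ => ⟨(S7 Ω h).sub_mem (map_mem_S h γ hS) hS, fun m => ?_⟩⟩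
  refine ⟨Point.map (W' := W) (γ : Ω →ₐ[k[X]] Ω) (q m) + -(q m), ?_, ?_⟩
  · rw [smul_add, smul_neg, ← map_nsmul, two_pow_seq8 hq, h0', add_neg_cancel]
  · rw [kum_add, kum_neg, ← rho7_kum h γ (x := del7 L W q) (m := m) rfl]
    exact sub_eq_add_neg _ _

/-- **All levels.** -/
theorem all_levels (M : AddSubgroup (W.baseChange Ω).Point)
    (hM : ∀ P ∈ M, ∀ σ : Ω ≃ₐ[L] Ω, Point.map (W' := W) (σ : Ω →ₐ[L] Ω) P = P)
    (hM' : ∀ P ∈ M, ∀ γ : Ω ≃ₐ[k[X]] Ω, Point.map (W' := W) (γ : Ω →ₐ[k[X]] Ω) P = P)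
    (hone : ∀ x ∈ G7 Ω h, ∃ Q : (W.baseChange Ω).Point, Q + Q ∈ M ∧ x 1 = kum L W Q) (m : ℕ) :
    ∀ x ∈ G7 Ω h, ∃ Q : (W.baseChange Ω).Point, 2 ^ m • Q ∈ M ∧ x m = kum L W Q := by
  induction m with
  | zero =>
    intro x hx
    refine ⟨0, by rw [smul_zero]; exact M.zero_mem, ?_⟩
    rw [kum_zero]
    funext g
    exact hx.1.tc.zero g
  | succ m ih =>
    intro x hx
    obtain ⟨Q, hQ, h1⟩ := hone x hx
    obtain ⟨q, hq0, hq1, hq⟩ := exists_seq8 (exists_half7 h) (Q + Q) Q rfl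
    have hdG : del7 L W q ∈ G7 Ω h := del7_mem_G h hq (fun σ => by rw [hq0]; exact hM _ hQ σ)
      (fun γ => by rw [hq0]; exact hM' _ hQ γ) (by rw [hq1, ← h1]; exact hx.1.d1)
      (by rw [hq1, ← h1]; exact hx.1.d2)
    have hyG := (G7 Ω h).sub_mem hx hdG
    have hy1 : (x - del7 L W q) 1 = 0 := by
      change x 1 - kum L W (q 1) = 0
      rw [h1, hq1, sub_self]
    obtain ⟨q', hq'0, hq', z, hz, he, hT⟩ := exists_div h hyG.1.tc hyG.1.loc hy1
    have hzG : z ∈ G7 Ω h := by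
      apply G_sat h hz
      have hTm : x - del7 L W q - (z + z) ∈ T7 Ω h :=
        ⟨(S7 Ω h).sub_mem hyG.1 ((S7 Ω h).add_mem hz hz), hT⟩
      have := (G7 Ω h).sub_mem hyG (T_le_G h hTm)
      rw [sub_sub_cancel] at this
      exact this
    obtain ⟨Q'', hQ'', h2⟩ := ih z hzG
    refine ⟨Q'' + q' m + q (m + 1), ?_, ?_⟩
    · rw [smul_add, smul_add, two_pow_seq8 hq, hq0, pow_succ, mul_smul, mul_smul, two_nsmul,
        two_nsmul, smul_add, smul_add, two_pow_seq8 hq', hq'0, add_zero]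
      exact M.add_mem (M.add_mem hQ'' hQ'') hQ
    · rw [kum_add, kum_add, ← h2, ← he m]
      change x (m + 1) = x (m + 1) - kum L W (q (m + 1)) + kum L W (q (m + 1))
      abel

/-- If a positive multiple of a class is trivial, then the class is trivial. -/
lemma triv_of_nsmul (m : ℕ) : 0 < m → ∀ y ∈ S7 Ω h, IsTriv7 W (m • y) → IsTriv7 W y := by
  induction m using Nat.strong_induction_on with
  | _ m ih =>
    intro hm y hy hT
    rcases Nat.even_or_odd m with ⟨j, rfl⟩ | hodd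
    · have hj : 0 < j := by omega
      rw [add_smul] at hT
      exact ih j (by omega) hj y hy (torsionFree h ((S7 Ω h).nsmul_mem hy j) hT).2
    · intro l
      rcases l with _ | l
      · exact ⟨0, smul_zero _, by
          rw [kum_zero]
          funext g
          exact hy.tc.zero g⟩
      · obtain ⟨Q, hQ, h1⟩ := hT (l + 1)
        have hcop : Nat.Coprime m (2 ^ (l + 1)) :=
          Nat.Coprime.pow_right _ (Nat.coprime_two_right.mpr hodd)
        obtain ⟨u, -, hu⟩ := Nat.exists_mul_mod_eq_one_of_coprime hcop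
          (Nat.one_lt_two_pow (Nat.succ_ne_zero l))
        refine ⟨u • Q, by rw [smul_comm, hQ, smul_zero], ?_⟩
        rw [← kum_nsmul, ← h1]
        change _ = u • (m • y (l + 1))
        rw [← mul_smul, mul_comm]
        have h3 : (2 ^ (l + 1)) • y (l + 1) = 0 := by
          funext g
          exact hy.tc.two_pow (l + 1) g
        have h4 : m * u = 1 + (m * u / 2 ^ (l + 1)) * 2 ^ (l + 1) := by
          have := Nat.mod_add_div (m * u) (2 ^ (l + 1))
          rw [hu] at this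
          rw [mul_comm (m * u / 2 ^ (l + 1))]
          exact this.symm
        rw [h4, add_smul, one_smul, mul_smul, h3, smul_zero, add_zero]

/-- **Potentially invariant Selmer classes.** -/
theorem kummer_of_invMT (M : AddSubgroup (W.baseChange Ω).Point)
    (hM : ∀ P ∈ M, ∀ σ : Ω ≃ₐ[L] Ω, Point.map (W' := W) (σ : Ω →ₐ[L] Ω) P = P)
    (hM' : ∀ P ∈ M, ∀ γ : Ω ≃ₐ[k[X]] Ω, Point.map (W' := W) (γ : Ω →ₐ[k[X]] Ω) P = P)
    (hM2 : ∀ P : (W.baseChange Ω).Point, P + P = 0 → P ∈ M)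
    (hone : ∀ x ∈ G7 Ω h, ∃ Q : (W.baseChange Ω).Point, Q + Q ∈ M ∧ x 1 = kum L W Q)
    {c' : ℕ → (Ω ≃ₐ[L] Ω) → (W.baseChange Ω).Point} (hc : TC W c') (hl : ∀ n, LocFin F (c' n))
    (s : Finset F)
    (hinv : ∀ γ : Ω ≃ₐ[k[X]] Ω, (∀ a ∈ s, resF h.hk γ a = a) → InvMT W c' γ) (m : ℕ) :
    ∃ Q : (W.baseChange Ω).Point, 2 ^ m • Q ∈ M ∧ c' m = kum L W Q := by
  obtain ⟨q, hq0, hq, hx⟩ := exists_correct h hc hl
  have hqM : q 0 ∈ M := hM2 _ hq0
  have hxG : c' - del7 L W q ∈ G7 Ω h := by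
    refine ⟨hx, s, fun γ hγ => ?_⟩
    have hyS := (S7 Ω h).sub_mem (map_mem_S h γ hx) hx
    refine ⟨hyS, ?_⟩
    obtain ⟨j, hj, hA⟩ := hinv γ hγ
    apply triv_of_nsmul h j hj _ hyS
    intro l
    obtain ⟨A, hA0, hA1⟩ := hA l
    set B := Point.map (W' := W) (γ : Ω →ₐ[k[X]] Ω) (q l) + -(q l) with hB
    have hB0 : 2 ^ l • B = 0 := by
      rw [hB, smul_add, smul_neg, ← map_nsmul, two_pow_seq8 hq, hM' _ hqM, add_neg_cancel]
    refine ⟨A + -(j • B), ?_, ?_⟩
    · rw [smul_add, smul_neg, hA0, smul_comm, hB0, smul_zero, neg_zero, add_zero]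
    · have e1 : (rho7 h.hk W γ (c' - del7 L W q) - (c' - del7 L W q)) l =
          (rho7 h.hk W γ c' l - c' l) - kum L W B := by
        rw [map_sub]
        have : rho7 h.hk W γ (del7 L W q) l = kum L W
            (Point.map (W' := W) (γ : Ω →ₐ[k[X]] Ω) (q l)) := rho7_kum h γ rfl
        change rho7 h.hk W γ c' l - rho7 h.hk W γ (del7 L W q) l - (c' l - kum L W (q l)) = _
        rw [this, hB, kum_add, kum_neg]
        abel
      change j • ((rho7 h.hk W γ (c' - del7 L W q) - (c' - del7 L W q)) l) = _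
      rw [e1, smul_sub, kum_nsmul, kum_add, kum_neg, ← sub_eq_add_neg]
      congr 1
      funext σ
      exact hA1 (cj h.hk γ σ) σ (cj_spec h.hk γ σ)
  obtain ⟨Q, hQ, h1⟩ := all_levels h M hM hM' hone m _ hxG
  refine ⟨Q + q m, ?_, ?_⟩
  · rw [smul_add, two_pow_seq8 hq]
    exact M.add_mem hQ hqM
  · rw [kum_add, ← h1]
    change c' m = c' m - kum L W (q m) + kum L W (q m)
    abel

end

end Pool.Agent.Lib.MP_89bcae_ag.LevelTwo

end

section

/-!
# The Tate conjecture for curves with full rational two-torsion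
-/

open Polynomial WeierstrassCurve WeierstrassCurve.Affine IsDedekindDomain IntermediateField

open scoped Classical

namespace Pool.Agent.Lib.MP_89bcae_ag.LevelTwo

set_option linter.unusedSectionVars false

section Field

variable {k F : Type*} [Field k] [Field F] [Algebra k F] [Algebra.IsAlgebraic k F] [IsAlgClosed F]

/-- A square root of an element of `K` which is fixed by the automorphisms over `K` is in `K`. -/
lemma mem_of_sq_of_fixed (h2 : (2 : F) ≠ 0) (K : IntermediateField k F) {s : F}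
    (hs : s ^ 2 ∈ K) (hfix : ∀ τ : F ≃ₐ[k] F, (∀ x ∈ K, τ x = x) → τ s = s) : s ∈ K := by
  by_contra hsK
  have hs0 : s ≠ 0 := by
    rintro rfl
    exact hsK K.zero_mem
  let q : K := ⟨s ^ 2, hs⟩
  have irr : Irreducible (X ^ 2 - C q : K[X]) := by
    apply X_pow_sub_C_irreducible_of_prime Nat.prime_two
    intro b hb
    have hb' : (b : F) ^ 2 = s ^ 2 := congrArg Subtype.val hb
    rcases sq_eq_sq_iff_eq_or_eq_neg.mp hb' with h | h
    · exact hsK (h ▸ b.2)
    · apply hsK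
      have := K.neg_mem b.2
      rw [h, neg_neg] at this
      exact this
  have mon : (X ^ 2 - C q : K[X]).Monic := monic_X_pow_sub_C q (by norm_num)
  have m1 : (X ^ 2 - C q : K[X]) = minpoly K s := by
    apply minpoly.eq_of_irreducible_of_monic irr _ mon
    rw [map_sub, map_pow, aeval_X, aeval_C]
    exact sub_self _
  have m2 : (X ^ 2 - C q : K[X]) = minpoly K (-s) := by
    apply minpoly.eq_of_irreducible_of_monic irr _ mon
    rw [map_sub, map_pow, aeval_X, aeval_C, neg_sq]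
    exact sub_self _
  have : Algebra.IsAlgebraic K F := Algebra.IsAlgebraic.tower_top (K := k) K
  have : IsAlgClosure K F := ⟨inferInstance, this⟩
  have : Normal K F := IsAlgClosure.normal K F
  obtain ⟨σ, hσ⟩ := isConjRoot_iff_exists_algEquiv.mp (show IsConjRoot K s (-s) from m1.symm.trans m2)
  have h3 : σ s = s := hfix (σ.restrictScalars k) (fun x hx => σ.commutes ⟨x, hx⟩)
  rw [map_neg, h3] at hσ
  apply hs0
  have h4 : (2 : F) * s = 0 := by linear_combination -hσ
  exact (mul_eq_zero.mp h4).resolve_left h2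

/-- An element of `K` whose square roots are not moved by the automorphisms over `K` is a
square. -/
lemma exists_sqrt_of_mu (h2 : (2 : F) ≠ 0) (K : IntermediateField k F) {q : F} (hq : q ∈ K)
    (hq0 : q ≠ 0) (hmu : ∀ τ : F ≃ₐ[k] F, (∀ x ∈ K, τ x = x) → mu (τ : F →+* F) q = 0) :
    ∃ y ∈ K, y ^ 2 = q := by
  obtain ⟨s, hs⟩ := IsAlgClosed.exists_pow_nat_eq q (n := 2) (by norm_num)
  refine ⟨s, mem_of_sq_of_fixed h2 K (by rw [hs]; exact hq) fun τ hτ => ?_, hs⟩
  have h1 := mu_eq_zero.mp (hmu τ hτ)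
  exact (moves_iff_neg h2 hq0 (τ := (τ : F →+* F)) (hτ q hq) hs).2.mp h1

lemma diffProd_mul (S T U : Finset F) (e δ x : F) :
    diffProd S T U (e * δ) x = diffProd S T U e x * if x ∈ S then δ else 1 := by
  unfold diffProd
  split_ifs
  · ring
  · ring

lemma aeval_mem_of_mem (K : IntermediateField k F) {x : F} (hx : x ∈ K) (p : k[X]) :
    aeval x p ∈ K := by
  have : aeval x p = algebraMap K F (aeval (⟨x, hx⟩ : K) p) :=
    (aeval_algebraMap_apply F (⟨x, hx⟩ : K) p)
  rw [this]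
  exact (aeval (⟨x, hx⟩ : K) p).2

lemma diffProd_mem (K : IntermediateField k F) {S T U : Finset F} {e x : F} (hT : ∀ s ∈ T, s ∈ K)
    (hU : ∀ s ∈ U, s ∈ K) (he : e ∈ K) (hx : x ∈ K) : diffProd S T U e x ∈ K := by
  unfold diffProd
  refine K.mul_mem (K.mul_mem ?_ ?_) ?_
  · exact K.toSubalgebra.prod_mem fun s hs => K.sub_mem hx (hT s hs)
  · exact K.toSubalgebra.prod_mem fun s hs => K.sub_mem hx (hU s hs)
  · split_ifs
    · exact he
    · exact K.one_mem

lemma diffProd_ne_zero {S T U : Finset F} {e x : F} (hT : x ∉ T) (hU : x ∉ U) (he : e ≠ 0) :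
    diffProd S T U e x ≠ 0 := by
  unfold diffProd
  refine mul_ne_zero (mul_ne_zero ?_ ?_) ?_
  · refine Finset.prod_ne_zero_iff.mpr fun s hs h => hT ?_
    rw [sub_eq_zero.mp h]
    exact hs
  · refine Finset.prod_ne_zero_iff.mpr fun s hs h => hU ?_
    rw [sub_eq_zero.mp h]
    exact hs
  · split_ifs
    · exact he
    · exact one_ne_zero

/-- One of the three families of conditions. -/
lemma exists_sqrt_family (h2 : (2 : F) ≠ 0) (K : IntermediateField k F) {S T U : Finset F}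
    {e δ x : F} (hxK : x ∈ K) (hTK : ∀ s ∈ T, s ∈ K) (hUK : ∀ s ∈ U, s ∈ K) (hxT : x ∉ T)
    (hxU : x ∉ U) (heK : e ∈ K) (he : e ≠ 0) (hδK : δ ∈ K) (hδ : δ ≠ 0)
    (hmu : ∀ τ : F ≃ₐ[k] F, (∀ x ∈ K, τ x = x) →
      mu (τ : F →+* F) (diffProd S T U e x) = if x ∈ S then mu (τ : F →+* F) δ else 0) :
    ∃ y ∈ K, y ^ 2 = diffProd S T U (e * δ) x := by
  have hq := diffProd_mem K hTK hUK heK hxK (S := S)
  have hq0 := diffProd_ne_zero (S := S) hxT hxU he
  rw [diffProd_mul]
  have hd : (if x ∈ S then δ else 1) ∈ K := by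
    split_ifs
    · exact hδK
    · exact K.one_mem
  have hd0 : (if x ∈ S then δ else 1) ≠ 0 := by
    split_ifs
    · exact hδ
    · exact one_ne_zero
  refine exists_sqrt_of_mu h2 K (K.mul_mem hq hd) (mul_ne_zero hq0 hd0) fun τ hτ => ?_
  rw [mu_mul h2 hq0 hd0 (hτ _ hq) (hτ _ hd), hmu τ hτ]
  split_ifs
  · exact CharTwo.add_self_eq_zero _
  · rw [mu_one h2, add_zero]

variable {a b : k[X]} {n : ℕ}

lemma rootsIn_neg (p : k[X]) : rootsIn F (0 - p) = rootsIn F p := by
  unfold rootsIn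
  rw [zero_sub, Polynomial.map_neg, roots_neg]

lemma eval_map_eq (p : k[X]) (x : F) : (p.map (algebraMap k F)).eval x = aeval x p :=
  eval_map_algebraMap p x

/-- The eigentriple condition. -/
theorem isEigentriple_of_fixed (h2 : (2 : F) ≠ 0) (ha : a ≠ 0) (hb : b ≠ 0) (hab : a - b ≠ 0)
    (hcop : ∀ x : F, aeval x a = 0 → aeval x b ≠ 0)
    {S T U : Finset F} (mS : ∀ x ∈ S, aeval x a = 0)
    (mT : ∀ x ∈ T, aeval x b = 0) (mU : ∀ x ∈ U, aeval x (a - b) = 0)
    (hST : Even (S.card + T.card)) (hSU : Even (S.card + U.card))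
    (hne : ¬ (S = ∅ ∧ T = ∅ ∧ U = ∅))
    (hfix : ∀ τ : F ≃ₐ[k] F, (∀ β ∈ allR F 0 a b, τ β = β) →
      v7 0 a b (τ : F →+* F) (S, T, U) = (S, T, U) ∨
        v7 0 a b (τ : F →+* F) (S, T, U) = (∅, ∅, ∅)) : IsEigentriple a b S T U := by
  have hinj := (algebraMap k F).injective
  have ha' : a.map (algebraMap k F) ≠ 0 := (Polynomial.map_ne_zero_iff hinj).mpr ha
  have hb' : b.map (algebraMap k F) ≠ 0 := (Polynomial.map_ne_zero_iff hinj).mpr hb
  have hab' : (a - b).map (algebraMap k F) ≠ 0 := (Polynomial.map_ne_zero_iff hinj).mpr hab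
  have rA : ∀ x, x ∈ rootsIn F a ↔ aeval x a = 0 := fun x => by
    rw [mem_rootsIn ha', eval_map_eq]
  have rB : ∀ x, x ∈ rootsIn F b ↔ aeval x b = 0 := fun x => by
    rw [mem_rootsIn hb', eval_map_eq]
  have rC : ∀ x, x ∈ rootsIn F (a - b) ↔ aeval x (a - b) = 0 := fun x => by
    rw [mem_rootsIn hab', eval_map_eq]
  have hac : ∀ x : F, aeval x a = 0 → aeval x (a - b) ≠ 0 := fun x h1 h2 => hcop x h1 (by
    rw [map_sub, h1, zero_sub, neg_eq_zero] at h2
    exact h2)
  have hbc : ∀ x : F, aeval x b = 0 → aeval x (a - b) ≠ 0 := fun x h1 h2 => hcop x (by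
    rw [map_sub, h1, sub_zero] at h2
    exact h2) h1
  set K := rootField F a b with hK
  have kA : ∀ x, aeval x a = 0 → x ∈ K := fun x hx => subset_adjoin _ _ (by
    simp only [Finset.coe_union, Set.mem_union, Finset.mem_coe, rA]
    exact Or.inl (Or.inl hx))
  have kB : ∀ x, aeval x b = 0 → x ∈ K := fun x hx => subset_adjoin _ _ (by
    simp only [Finset.coe_union, Set.mem_union, Finset.mem_coe, rB]
    exact Or.inl (Or.inr hx))
  have kC : ∀ x, aeval x (a - b) = 0 → x ∈ K := fun x hx => subset_adjoin _ _ (by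
    simp only [Finset.coe_union, Set.mem_union, Finset.mem_coe, rC]
    exact Or.inr hx)
  have eA : ∀ x : F, ((0 - b).map (algebraMap k F)).eval x = -(aeval x b) := fun x => by
    rw [eval_map_eq, zero_sub, map_neg]
  have eB : ∀ x : F, ((0 - a).map (algebraMap k F)).eval x = -(aeval x a) := fun x => by
    rw [eval_map_eq, zero_sub, map_neg]
  have eC : ∀ x : F, ((a - 0).map (algebraMap k F)).eval x = aeval x a := fun x => by
    rw [eval_map_eq, sub_zero]
  -- the dichotomy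
  have dich : ∀ τ : F ≃ₐ[k] F, (∀ x ∈ K, τ x = x) → ∃ c : ZMod 2,
      (∀ x, aeval x a = 0 → mu (τ : F →+* F) (diffProd S T U (-(aeval x b)) x) =
        if x ∈ S then c else 0) ∧
      (∀ x, aeval x b = 0 → mu (τ : F →+* F) (diffProd T S U (-(aeval x a)) x) =
        if x ∈ T then c else 0) ∧
      (∀ x, aeval x (a - b) = 0 → mu (τ : F →+* F) (diffProd U S T (aeval x a) x) =
        if x ∈ U then c else 0) := by
    intro τ hτ
    have hR : ∀ β ∈ allR F 0 a b, τ β = β := by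
      intro β hβ
      unfold allR at hβ
      rw [rootsIn_neg, rootsIn_neg] at hβ
      simp only [Finset.mem_union, rA, rB, rC] at hβ
      rcases hβ with (h | h) | h
      · exact hτ β (kA β h)
      · exact hτ β (kB β h)
      · exact hτ β (kC β h)
    have mA : ∀ x, aeval x a = 0 → (Moves (τ : F →+* F) (diffProd S T U (-(aeval x b)) x) ↔
        x ∈ (v7 0 a b (τ : F →+* F) (S, T, U)).1) := by
      intro x hx
      unfold v7
      rw [Finset.mem_filter, rootsIn_neg, rA, eA]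
      exact ⟨fun h' => ⟨hx, h'⟩, fun h' => h'.2⟩
    have mB : ∀ x, aeval x b = 0 → (Moves (τ : F →+* F) (diffProd T S U (-(aeval x a)) x) ↔
        x ∈ (v7 0 a b (τ : F →+* F) (S, T, U)).2.1) := by
      intro x hx
      unfold v7
      rw [Finset.mem_filter, rootsIn_neg, rB, eB]
      exact ⟨fun h' => ⟨hx, h'⟩, fun h' => h'.2⟩
    have mC : ∀ x, aeval x (a - b) = 0 →
        (Moves (τ : F →+* F) (diffProd U S T (aeval x a) x) ↔
        x ∈ (v7 0 a b (τ : F →+* F) (S, T, U)).2.2) := by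
      intro x hx
      unfold v7
      rw [Finset.mem_filter, rC, eC]
      exact ⟨fun h' => ⟨hx, h'⟩, fun h' => h'.2⟩
    rcases hfix τ hR with h | h
    · refine ⟨1, fun x hx => ?_, fun x hx => ?_, fun x hx => ?_⟩
      · have := mA x hx
        rw [h] at this
        split_ifs with hm
        · exact mu_eq_one.mpr (this.mpr hm)
        · exact mu_eq_zero.mpr fun h' => hm (this.mp h')
      · have := mB x hx
        rw [h] at this
        split_ifs with hm
        · exact mu_eq_one.mpr (this.mpr hm)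
        · exact mu_eq_zero.mpr fun h' => hm (this.mp h')
      · have := mC x hx
        rw [h] at this
        split_ifs with hm
        · exact mu_eq_one.mpr (this.mpr hm)
        · exact mu_eq_zero.mpr fun h' => hm (this.mp h')
    · refine ⟨0, fun x hx => ?_, fun x hx => ?_, fun x hx => ?_⟩
      · have := mA x hx
        rw [h] at this
        rw [ite_self]
        exact mu_eq_zero.mpr fun h' => absurd (this.mp h') (Finset.notMem_empty _)
      · have := mB x hx
        rw [h] at this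
        rw [ite_self]
        exact mu_eq_zero.mpr fun h' => absurd (this.mp h') (Finset.notMem_empty _)
      · have := mC x hx
        rw [h] at this
        rw [ite_self]
        exact mu_eq_zero.mpr fun h' => absurd (this.mp h') (Finset.notMem_empty _)
  have SK : ∀ s ∈ S, s ∈ K := fun s hs => kA s (mS s hs)
  have TK : ∀ s ∈ T, s ∈ K := fun s hs => kB s (mT s hs)
  have UK : ∀ s ∈ U, s ∈ K := fun s hs => kC s (mU s hs)
  have nAe : ∀ x : F, aeval x a = 0 → -(aeval x b) ≠ 0 := fun x hx => neg_ne_zero.mpr (hcop x hx)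
  have nBe : ∀ x : F, aeval x b = 0 → -(aeval x a) ≠ 0 := fun x hx =>
    neg_ne_zero.mpr fun h' => hcop x h' hx
  have nCe : ∀ x : F, aeval x (a - b) = 0 → aeval x a ≠ 0 := fun x hx h' => hac x h' hx
  obtain ⟨δ, hδK, hδ0, hδ⟩ : ∃ δ ∈ K, δ ≠ 0 ∧ ∀ τ : F ≃ₐ[k] F, (∀ x ∈ K, τ x = x) →
      (∀ x, aeval x a = 0 → mu (τ : F →+* F) (diffProd S T U (-(aeval x b)) x) =
        if x ∈ S then mu (τ : F →+* F) δ else 0) ∧
      (∀ x, aeval x b = 0 → mu (τ : F →+* F) (diffProd T S U (-(aeval x a)) x) =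
        if x ∈ T then mu (τ : F →+* F) δ else 0) ∧
      (∀ x, aeval x (a - b) = 0 → mu (τ : F →+* F) (diffProd U S T (aeval x a) x) =
        if x ∈ U then mu (τ : F →+* F) δ else 0) := by
    by_cases hS : S.Nonempty
    · obtain ⟨r, hr⟩ := hS
      have hra := mS r hr
      refine ⟨diffProd S T U (-(aeval r b)) r, diffProd_mem K TK UK
        (K.neg_mem (aeval_mem_of_mem K (kA r hra) b)) (kA r hra),
        diffProd_ne_zero (fun h' => hcop r hra (mT r h')) (fun h' => hac r hra (mU r h'))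
          (nAe r hra), fun τ hτ => ?_⟩
      obtain ⟨c, h1, h3, h4⟩ := dich τ hτ
      have : mu (τ : F →+* F) (diffProd S T U (-(aeval r b)) r) = c := by
        rw [h1 r hra, if_pos hr]
      rw [this]
      exact ⟨h1, h3, h4⟩
    · by_cases hT : T.Nonempty
      · obtain ⟨r, hr⟩ := hT
        have hra := mT r hr
        refine ⟨diffProd T S U (-(aeval r a)) r, diffProd_mem K SK UK
          (K.neg_mem (aeval_mem_of_mem K (kB r hra) a)) (kB r hra),
          diffProd_ne_zero (fun h' => hcop r (mS r h') hra) (fun h' => hbc r hra (mU r h'))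
            (nBe r hra), fun τ hτ => ?_⟩
        obtain ⟨c, h1, h3, h4⟩ := dich τ hτ
        have : mu (τ : F →+* F) (diffProd T S U (-(aeval r a)) r) = c := by
          rw [h3 r hra, if_pos hr]
        rw [this]
        exact ⟨h1, h3, h4⟩
      · have hU : U.Nonempty := by
          rw [Finset.not_nonempty_iff_eq_empty] at hS hT
          by_contra hU
          rw [Finset.not_nonempty_iff_eq_empty] at hU
          exact hne ⟨hS, hT, hU⟩
        obtain ⟨r, hr⟩ := hU
        have hra := mU r hr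
        refine ⟨diffProd U S T (aeval r a) r, diffProd_mem K SK TK
          (aeval_mem_of_mem K (kC r hra) a) (kC r hra),
          diffProd_ne_zero (fun h' => hac r (mS r h') hra) (fun h' => hbc r (mT r h') hra)
            (nCe r hra), fun τ hτ => ?_⟩
        obtain ⟨c, h1, h3, h4⟩ := dich τ hτ
        have : mu (τ : F →+* F) (diffProd U S T (aeval r a) r) = c := by
          rw [h4 r hra, if_pos hr]
        rw [this]
        exact ⟨h1, h3, h4⟩
  refine ⟨fun x hx => (rA x).mpr (mS x hx), fun x hx => (rB x).mpr (mT x hx),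
    fun x hx => (rC x).mpr (mU x hx), hST, hSU, δ, hδK, hδ0, fun x hx => ?_, fun x hx => ?_,
    fun x hx => ?_⟩
  · rw [rA] at hx
    exact exists_sqrt_family h2 K (kA x hx) TK UK (fun h' => hcop x hx (mT x h'))
      (fun h' => hac x hx (mU x h')) (K.neg_mem (aeval_mem_of_mem K (kA x hx) b)) (nAe x hx)
      hδK hδ0 fun τ hτ => (hδ τ hτ).1 x hx
  · rw [rB] at hx
    exact exists_sqrt_family h2 K (kB x hx) SK UK (fun h' => hcop x (mS x h') hx)
      (fun h' => hbc x hx (mU x h')) (K.neg_mem (aeval_mem_of_mem K (kB x hx) a)) (nBe x hx)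
      hδK hδ0 fun τ hτ => (hδ τ hτ).2.1 x hx
  · rw [rC] at hx
    exact exists_sqrt_family h2 K (kC x hx) SK TK (fun h' => hac x (mS x h') hx)
      (fun h' => hbc x (mT x h') hx) (aeval_mem_of_mem K (kC x hx) a) (nCe x hx)
      hδK hδ0 fun τ hτ => (hδ τ hτ).2.2 x hx

end Field

end Pool.Agent.Lib.MP_89bcae_ag.LevelTwo

end

section

/-!
# The Tate conjecture for curves with full rational two-torsion: conclusion
-/

open Polynomial WeierstrassCurve WeierstrassCurve.Affine IsDedekindDomain IntermediateField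

open scoped Classical

namespace Pool.Agent.Lib.MP_89bcae_ag.LevelTwo

set_option linter.unusedSectionVars false

universe u v

section

variable {k : Type*} {F L : Type v} {Ω : Type*} [Field k] [Field F] [Algebra k F]
  [Algebra.IsAlgebraic k F]
  [IsAlgClosed F] [Field L] [Field Ω]
  [Algebra F[X] L] [IsFractionRing F[X] L] [Algebra L Ω] [Algebra F[X] Ω] [IsScalarTower F[X] L Ω]
  [Algebra k[X] L] [Algebra k[X] Ω] [IsScalarTower k[X] L Ω]
  [IsGalois L Ω] [IsSepClosed Ω] [IsSepClosure L Ω]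

/-- A representative may be changed by a square. -/
lemma pRep_of_sq {W : Affine k[X]} {a b c : k[X]} {hΩ : SplitAt Ω W a b c}
    {s : (Ω ≃ₐ[L] Ω) → (W.baseChange Ω).Point} {P P' : F[X]} (h : PRep (F := L) hΩ s P)
    (hP' : P' ≠ 0) (hsq : IsSquare (P * P')) : PRep (F := L) hΩ s P' := by
  obtain ⟨g, hg⟩ := hsq
  have hP := h.ne_zero
  have hg0 : g ≠ 0 := by
    rintro rfl
    rw [mul_zero] at hg
    exact mul_ne_zero hP hP' hg
  have hinj := IsFractionRing.injective F[X] L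
  have hPL : algebraMap F[X] L P ≠ 0 := (map_ne_zero_iff _ hinj).mpr hP
  have hgL : algebraMap F[X] L g ≠ 0 := (map_ne_zero_iff _ hinj).mpr hg0
  have h1 := Rep.mul_sq hΩ h (w := algebraMap F[X] L g / algebraMap F[X] L P)
    (div_ne_zero hgL hPL)
  have h2 : algebraMap F[X] L P * (algebraMap F[X] L g / algebraMap F[X] L P) ^ 2 =
      algebraMap F[X] L P' := by
    have := congrArg (algebraMap F[X] L) hg
    rw [map_mul, map_mul] at this
    field_simp
    rw [this]
    ring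
  rw [h2] at h1
  exact h1

variable {a b : k[X]} {n : ℕ} (h : Ctx7 F L (twoTorsionCurve a b) 0 a b n)

/-- The divisor of the Kummer class of a point. -/
lemma div_of_point {p q : k[X]} (hq : algebraMap k[X] L q ≠ 0) (hp : algebraMap k[X] L p ≠ 0)
    (hpa : algebraMap k[X] L (p - a * q ^ 2) ≠ 0) {y : L}
    (hxy : ((twoTorsionCurve a b).baseChange L).Nonsingular
      (algebraMap k[X] L p / algebraMap k[X] L q ^ 2) y)
    {Q : ((twoTorsionCurve a b).baseChange Ω).Point}
    (hQ : Q + Q = Point.map (W' := twoTorsionCurve a b) (Algebra.ofId L Ω) (.some _ y hxy))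
    {S T U : Finset F} (mS : ∀ x ∈ S, aeval x a = 0)
    (mT : ∀ x ∈ T, aeval x b = 0) (mU : ∀ x ∈ U, aeval x (a - b) = 0)
    (h1 : IsSquare (p.map (algebraMap k F) * (∏ s ∈ S, (X - C s)) * ∏ s ∈ T, (X - C s)))
    (h2 : IsSquare ((p - a * q ^ 2).map (algebraMap k F) * (∏ s ∈ S, (X - C s)) *
      ∏ s ∈ U, (X - C s))) : Div7 h (kum L (twoTorsionCurve a b) Q) S T U := by
  have hx0 : algebraMap k[X] L p / algebraMap k[X] L q ^ 2 ≠ algebraMap k[X] L 0 := by
    rw [map_zero]
    exact div_ne_zero hp (pow_ne_zero 2 hq)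
  have hxa : algebraMap k[X] L p / algebraMap k[X] L q ^ 2 ≠ algebraMap k[X] L a := by
    intro h'
    apply hpa
    rw [div_eq_iff (pow_ne_zero 2 hq)] at h'
    rw [map_sub, map_mul, map_pow, h', sub_self]
  have k1 := rep_kummer (F := L) (h.sΩ (Ω := Ω)) hxy hx0 Q hQ
  have k2 := rep_kummer (F := L) (h.sΩ (Ω := Ω)).swap12 hxy hxa Q hQ
  have r1 : PRep (F := L) h.sΩ (kum L (twoTorsionCurve a b) Q) (fP S * fP T) := by
    have k1' := Rep.mul_sq _ k1 hq
    have e1 : (algebraMap k[X] L p / algebraMap k[X] L q ^ 2 - algebraMap k[X] L 0) *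
        algebraMap k[X] L q ^ 2 = algebraMap F[X] L (p.map (algebraMap k F)) := by
      rw [map_zero, sub_zero, div_mul_cancel₀ _ (pow_ne_zero 2 hq), h.hk]
    rw [e1] at k1'
    refine pRep_of_sq k1' (mul_ne_zero (fP_monic S).ne_zero (fP_monic T).ne_zero) ?_
    rw [← mul_assoc]
    exact h1
  have r2 : PRep (F := L) h.sΩ.swap12 (kum L (twoTorsionCurve a b) Q) (fP S * fP U) := by
    have k2' := Rep.mul_sq _ k2 hq
    have e1 : (algebraMap k[X] L p / algebraMap k[X] L q ^ 2 - algebraMap k[X] L a) *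
        algebraMap k[X] L q ^ 2 = algebraMap F[X] L ((p - a * q ^ 2).map (algebraMap k F)) := by
      rw [← h.hk, map_sub, map_mul, map_pow, sub_mul, div_mul_cancel₀ _ (pow_ne_zero 2 hq)]
    rw [e1] at k2'
    refine pRep_of_sq k2' (mul_ne_zero (fP_monic S).ne_zero (fP_monic U).ne_zero) ?_
    rw [← mul_assoc]
    exact h2
  have hQ4 : ∀ σ, kum L (twoTorsionCurve a b) Q σ + kum L (twoTorsionCurve a b) Q σ = 0 :=
    fun σ => kummer_two_torsion _ Q hQ σ
  refine ⟨r1, r2, ?_, fun x hx => ?_, fun x hx => ?_, fun x hx => ?_⟩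
  · have r3 := pRep_three (hΩ := (h.sΩ (Ω := Ω)).rot.rot) (s := kum L (twoTorsionCurve a b) Q)
      (P₂ := fP S * fP T) (P₃ := fP S * fP U) r1 r2 (kum_isHom h hQ4)
    refine pRep_of_sq r3 (mul_ne_zero (fP_monic T).ne_zero (fP_monic U).ne_zero)
      ⟨fP S * fP T * fP U, by ring⟩
  · rw [eval_map_eq, zero_sub, map_neg, mS x hx, neg_zero]
  · rw [eval_map_eq, zero_sub, map_neg, mT x hx, neg_zero]
  · rw [eval_map_eq, mU x hx]

variable {K : Type*} [Field K] [Algebra k[X] K] [IsFractionRing k[X] K] (f : K →ₐ[k[X]] Ω)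

include f in
lemma fix_emb (γ : Ω ≃ₐ[k[X]] Ω) (x : K) : γ (f x) = f x := by
  obtain ⟨p, q, hq, rfl⟩ := IsFractionRing.div_surjective (A := k[X]) x
  rw [map_div₀, map_div₀, f.commutes, f.commutes, γ.commutes, γ.commutes]

/-- The points which are rational over `K`. -/
noncomputable def ratM (W : Affine k[X]) : AddSubgroup (W.baseChange Ω).Point :=
  AddMonoidHom.range (Point.map (W' := W) f)

lemma ratM_fix {W : Affine k[X]} {P : (W.baseChange Ω).Point} (hP : P ∈ ratM f W)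
    (γ : Ω ≃ₐ[k[X]] Ω) : Point.map (W' := W) (γ : Ω →ₐ[k[X]] Ω) P = P := by
  obtain ⟨P₀, rfl⟩ := hP
  rcases P₀ with _ | ⟨x, y, hxy⟩
  · rfl
  · rw [Point.map_map]
    change Point.map (W' := W) _ (.some x y hxy) = Point.map (W' := W) f (.some x y hxy)
    rw [Point.map_some, Point.map_some]
    simp only [Point.some.injEq]
    exact ⟨fix_emb f γ x, fix_emb f γ y⟩

lemma ratM_fix' {W : Affine k[X]} {P : (W.baseChange Ω).Point} (hP : P ∈ ratM f W)
    (σ : Ω ≃ₐ[L] Ω) : Point.map (W' := W) (σ : Ω →ₐ[L] Ω) P = P := by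
  have h1 := ratM_fix f hP (σ.restrictScalars k[X])
  rcases P with _ | ⟨x, y, hxy⟩
  · rfl
  · exact h1

end

section Final

variable {k : Type u} [Field k] {a b : k[X]} {n : ℕ}

lemma splitAt_of (ho : OddLevelTwo a b n) (A : Type*) [Field A] [Algebra k[X] A]
    (hinj : Function.Injective (algebraMap k[X] A)) :
    SplitAt A (twoTorsionCurve a b) 0 a b where
  a₁ := map_zero _
  a₂ := by
    change algebraMap k[X] A (-(a + b)) = _
    simp only [map_add, map_neg, map_zero]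
    ring
  a₃ := map_zero _
  a₄ := by
    change algebraMap k[X] A (a * b) = _
    simp only [map_mul, map_zero]
    ring
  a₆ := by
    change algebraMap k[X] A 0 = _
    simp only [map_zero]
    ring
  ab := by
    intro h0
    have h1 : a = 0 := (hinj h0).symm
    have h2 := ho.deg_a
    rw [h1, natDegree_zero] at h2
    have := ho.odd
    rw [← h2] at this
    exact absurd this (by decide)
  ac := by
    intro h0
    have h1 : b = 0 := (hinj h0).symm
    have h2 := ho.deg_b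
    rw [h1, natDegree_zero] at h2
    have := ho.odd
    rw [← h2] at this
    exact absurd this (by decide)
  bc := by
    intro h0
    have h1 : a - b = 0 := sub_eq_zero.mpr (hinj h0)
    have h2 := ho.deg_c
    rw [h1, natDegree_zero] at h2
    have := ho.odd
    rw [← h2] at this
    exact absurd this (by decide)
  two := by
    intro h0
    apply ho.two
    have h1 : algebraMap k[X] A (C 2) = 0 := by
      rw [← h0, map_ofNat, map_ofNat]
    exact C_injective (hinj (by rw [h1, C_0, map_zero]))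

lemma geom_compat (p : k[X]) : algebraMap k[X] (RatFunc (AlgebraicClosure k)) p =
    algebraMap (AlgebraicClosure k)[X] (RatFunc (AlgebraicClosure k))
      (p.map (algebraMap k (AlgebraicClosure k))) := rfl

lemma geom_injective : Function.Injective (algebraMap k[X] (RatFunc (AlgebraicClosure k))) := by
  intro x y hxy
  rw [geom_compat, geom_compat] at hxy
  exact map_injective _ (algebraMap k (AlgebraicClosure k)).injective
    (IsFractionRing.injective (AlgebraicClosure k)[X] (RatFunc (AlgebraicClosure k)) hxy)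

lemma aeval_cop (ho : OddLevelTwo a b n) (x : AlgebraicClosure k) (hx : aeval x a = 0) :
    aeval x b ≠ 0 := by
  intro h'
  obtain ⟨u, v, huv⟩ := ho.coprime
  have := congrArg (aeval x) huv
  rw [map_add, map_mul, map_mul, hx, h', mul_zero, mul_zero, add_zero, map_one] at this
  exact zero_ne_one this

lemma ctx_of (ho : OddLevelTwo a b n) :
    Ctx7 (AlgebraicClosure k) (RatFunc (AlgebraicClosure k)) (twoTorsionCurve a b) 0 a b n where
  hk := geom_compat
  split := splitAt_of ho _ geom_injective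
  odd := ho.odd
  dab := by rw [zero_sub, natDegree_neg]; exact ho.deg_a
  dac := by rw [zero_sub, natDegree_neg]; exact ho.deg_b
  dbc := ho.deg_c
  cop x h1 h2 := by
    rw [eval_map_eq, zero_sub, map_neg, neg_eq_zero] at h1 h2
    exact aeval_cop ho x h1 h2
  mab x hx := by
    rw [eval_map_eq, zero_sub, map_neg, neg_eq_zero] at hx
    rw [zero_sub, Polynomial.map_neg, rootMultiplicity_neg']
    exact ho.mult_a x hx
  mac x hx := by
    rw [eval_map_eq, zero_sub, map_neg, neg_eq_zero] at hx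
    rw [zero_sub, Polynomial.map_neg, rootMultiplicity_neg']
    exact ho.mult_b x hx
  mbc x hx := by
    rw [eval_map_eq] at hx
    exact ho.mult_c x hx

/-- **The main theorem.** -/
theorem tateAtTwoPotentially (ho : OddLevelTwo a b n)
    (H : ∀ S T U : Finset (AlgebraicClosure k), IsEigentriple a b S T U →
      (S = ∅ ∧ T = ∅ ∧ U = ∅) ∨ IsPointTriple a b S T U) :
    TateAtTwoPotentially (twoTorsionCurve a b) := by
  intro Ω _ _ _ _ _ c hc hinv m
  obtain ⟨k', hk', hinv⟩ := hinv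
  let _ : Algebra (AlgebraicClosure k)[X] Ω :=
    ((algebraMap (RatFunc (AlgebraicClosure k)) Ω).comp (algebraMap (AlgebraicClosure k)[X]
      (RatFunc (AlgebraicClosure k)))).toAlgebra
  have : IsScalarTower (AlgebraicClosure k)[X] (RatFunc (AlgebraicClosure k)) Ω :=
    IsScalarTower.of_algebraMap_eq fun _ => rfl
  have : IsSepClosed Ω := IsSepClosure.sep_closed (RatFunc (AlgebraicClosure k))
  have h := ctx_of ho
  have hinj' : Function.Injective (algebraMap k[X] Ω) := by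
    intro x y hxy
    rw [IsScalarTower.algebraMap_apply k[X] (RatFunc (AlgebraicClosure k)) Ω,
      IsScalarTower.algebraMap_apply k[X] (RatFunc (AlgebraicClosure k)) Ω] at hxy
    exact geom_injective ((algebraMap (RatFunc (AlgebraicClosure k)) Ω).injective hxy)
  let f : RatFunc k →ₐ[k[X]] Ω := IsFractionRing.liftAlgHom (g := Algebra.ofId k[X] Ω) hinj'
  have hK : SplitAt (RatFunc k) (twoTorsionCurve a b) 0 a b :=
    splitAt_of ho _ (IsFractionRing.injective k[X] (RatFunc k))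
  have hM2 : ∀ P : ((twoTorsionCurve a b).baseChange Ω).Point, P + P = 0 →
      P ∈ ratM f (twoTorsionCurve a b) := by
    intro P hP
    rcases (h.sΩ (Ω := Ω)).two_torsion P hP with h1 | h1 | h1 | h1
    · rw [h1]
      exact (ratM f (twoTorsionCurve a b)).zero_mem
    · rw [h1]
      exact ⟨_, map_T f hK h.sΩ⟩
    · rw [h1]
      exact ⟨_, map_T f hK.swap12 h.sΩ.swap12⟩
    · rw [h1]
      exact ⟨_, map_T f hK.rot.rot h.sΩ.rot.rot⟩
  have hpos : 0 < n := ho.odd.pos
  have ha0 : a ≠ 0 := by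
    rintro rfl
    have := ho.deg_a
    rw [natDegree_zero] at this
    omega
  have hb0 : b ≠ 0 := by
    rintro rfl
    have := ho.deg_b
    rw [natDegree_zero] at this
    omega
  have hab0 : a - b ≠ 0 := by
    intro h0
    have := ho.deg_c
    rw [h0, natDegree_zero] at this
    omega
  have hone := level_one (Ω := Ω) h (ratM f (twoTorsionCurve a b))
    (fun P hP σ => ratM_fix' f hP σ) (by
      intro S T U mS mT mU hST hSU hfix
      have mS' : ∀ x ∈ S, aeval x a = 0 := fun x hx => by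
        have := mS x hx
        rw [eval_map_eq, zero_sub, map_neg, neg_eq_zero] at this
        exact this
      have mT' : ∀ x ∈ T, aeval x b = 0 := fun x hx => by
        have := mT x hx
        rw [eval_map_eq, zero_sub, map_neg, neg_eq_zero] at this
        exact this
      have mU' : ∀ x ∈ U, aeval x (a - b) = 0 := fun x hx => by
        have := mU x hx
        rw [eval_map_eq] at this
        exact this
      by_cases hne : S = ∅ ∧ T = ∅ ∧ U = ∅
      · exact Or.inl hne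
      · right
        have heig := isEigentriple_of_fixed h.two ha0 hb0 hab0 (aeval_cop ho) mS' mT' mU' hST hSU
          hne hfix
        rcases H S T U heig with h1 | ⟨p, q, r, hq, hr, heq, hs1, hs2⟩
        · exact absurd h1 hne
        · have hkinj := IsFractionRing.injective k[X] (RatFunc k)
          have hp0 : p ≠ 0 := by
            rintro rfl
            rw [zero_mul, zero_mul] at heq
            exact hr (pow_eq_zero_iff (two_ne_zero) |>.mp heq)
          have hpa0 : p - a * q ^ 2 ≠ 0 := by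
            intro h'
            rw [h', mul_zero, zero_mul] at heq
            exact hr (pow_eq_zero_iff (two_ne_zero) |>.mp heq)
          -- the point over `k(t)`
          have hpt : ∀ (A : Type u) [Field A] [Algebra k[X] A]
              (_ : Function.Injective (algebraMap k[X] A)) (hA : SplitAt A (twoTorsionCurve a b)
                0 a b), ((twoTorsionCurve a b).baseChange A).Nonsingular
                (algebraMap k[X] A p / algebraMap k[X] A q ^ 2)
                (algebraMap k[X] A r / algebraMap k[X] A q ^ 3) := by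
            intro A _ _ hinj hA
            apply hA.nonsingular_of_equation
            have hqA : algebraMap k[X] A q ≠ 0 := (map_ne_zero_iff _ hinj).mpr hq
            have e := congrArg (algebraMap k[X] A) heq
            simp only [map_mul, map_sub, map_pow] at e
            rw [map_zero, sub_zero]
            field_simp
            linear_combination e
          have hPL := hpt _ geom_injective h.split
          have hPK := hpt _ hkinj hK
          obtain ⟨Q, hQ⟩ := exists_half7 (Ω := Ω) h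
            (Point.map (W' := twoTorsionCurve a b) (Algebra.ofId
              (RatFunc (AlgebraicClosure k)) Ω) (.some _ _ hPL))
          refine ⟨Q, ?_, ?_⟩
          · rw [hQ]
            refine ⟨.some _ _ hPK, ?_⟩
            change Point.map (W' := twoTorsionCurve a b) f (.some _ _ hPK) = _
            rw [Point.map_some, Point.map_some]
            simp only [Point.some.injEq]
            have hcomm : ∀ z : k[X], f (algebraMap k[X] (RatFunc k) z) =
                Algebra.ofId (RatFunc (AlgebraicClosure k)) Ω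
                  (algebraMap k[X] (RatFunc (AlgebraicClosure k)) z) := by
              intro z
              rw [f.commutes]
              exact IsScalarTower.algebraMap_apply k[X] (RatFunc (AlgebraicClosure k)) Ω z
            constructor
            · rw [map_div₀, map_div₀, map_pow, map_pow, hcomm, hcomm]
            · rw [map_div₀, map_div₀, map_pow, map_pow, hcomm, hcomm]
          · exact div_of_point h ((map_ne_zero_iff _ geom_injective).mpr hq)
              ((map_ne_zero_iff _ geom_injective).mpr hp0)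
              ((map_ne_zero_iff _ geom_injective).mpr hpa0) hPL hQ mS' mT' mU' hs1 hs2)
  have hTC : TC (twoTorsionCurve a b) c.level :=
    { zero := c.level_zero
      two := c.two_nsmul_level
      mul := c.level_mul
      loc := c.isLocallyConstant_level }
  obtain ⟨s, hs⟩ : ∃ s : Finset (AlgebraicClosure k),
      adjoin k (s : Set (AlgebraicClosure k)) = k' :=
    IntermediateField.essFiniteType_iff.mp inferInstance
  obtain ⟨Q, hQ, hQc⟩ := kummer_of_invMT h (ratM f (twoTorsionCurve a b))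
    (fun P hP σ => ratM_fix' f hP σ) (fun P hP γ => ratM_fix f hP γ) hM2 hone hTC
    (fun l α => (hc l).1 (placeAt α)) s (fun γ hγ => by
      have hfix : ∀ a ∈ k', resF h.hk γ a = a := by
        intro a ha
        rw [← hs] at ha
        have h1 : adjoin k (s : Set (AlgebraicClosure k)) ≤
            IntermediateField.fixedField (Subgroup.zpowers (resF h.hk γ)) := by
          rw [adjoin_le_iff]
          intro b hb
          rw [SetLike.mem_coe, IntermediateField.mem_fixedField_iff]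
          intro τ hτ
          obtain ⟨m, rfl⟩ := Subgroup.mem_zpowers_iff.mp hτ
          have h5 : resF h.hk γ ∈ MulAction.stabilizer (AlgebraicClosure k ≃ₐ[k]
            AlgebraicClosure k) b := hγ b hb
          exact (MulAction.stabilizer (AlgebraicClosure k ≃ₐ[k] AlgebraicClosure k) b).zpow_mem
            h5 m
        exact (IntermediateField.mem_fixedField_iff _ _).mp (h1 ha) _
          (Subgroup.mem_zpowers _)
      exact hinv γ (fun x hx => by
        have h1 : algebraMap (RatFunc (AlgebraicClosure k)) Ω (RatFunc.C x) =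
            algebraMap (AlgebraicClosure k)[X] Ω (C x) := by
          rw [IsScalarTower.algebraMap_apply (AlgebraicClosure k)[X]
            (RatFunc (AlgebraicClosure k)) Ω, RatFunc.algebraMap_C]
        rw [h1, resF_spec h.hk, map_C]
        congr 2
        exact hfix x hx)) m
  obtain ⟨P, hP⟩ := hQ
  exact ⟨f, P, Q, hP.symm, fun g => congrFun hQc g⟩

/-- **The main theorem without eigentriples.** -/
theorem rankZeroTateAtTwo (ho : OddLevelTwo a b n)
    (H : ∀ S T U : Finset (AlgebraicClosure k), IsEigentriple a b S T U →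
      S = ∅ ∧ T = ∅ ∧ U = ∅) : RankZeroTateAtTwo (twoTorsionCurve a b) := by
  intro Ω _ _ _ _ _ c hc hinv m
  obtain ⟨k', hk', hinv⟩ := hinv
  let _ : Algebra (AlgebraicClosure k)[X] Ω :=
    ((algebraMap (RatFunc (AlgebraicClosure k)) Ω).comp (algebraMap (AlgebraicClosure k)[X]
      (RatFunc (AlgebraicClosure k)))).toAlgebra
  have : IsScalarTower (AlgebraicClosure k)[X] (RatFunc (AlgebraicClosure k)) Ω :=
    IsScalarTower.of_algebraMap_eq fun _ => rfl
  have : IsSepClosed Ω := IsSepClosure.sep_closed (RatFunc (AlgebraicClosure k))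
  have h := ctx_of ho
  have hinj' : Function.Injective (algebraMap k[X] Ω) := by
    intro x y hxy
    rw [IsScalarTower.algebraMap_apply k[X] (RatFunc (AlgebraicClosure k)) Ω,
      IsScalarTower.algebraMap_apply k[X] (RatFunc (AlgebraicClosure k)) Ω] at hxy
    exact geom_injective ((algebraMap (RatFunc (AlgebraicClosure k)) Ω).injective hxy)
  let f : RatFunc k →ₐ[k[X]] Ω := IsFractionRing.liftAlgHom (g := Algebra.ofId k[X] Ω) hinj'
  have hK : SplitAt (RatFunc k) (twoTorsionCurve a b) 0 a b :=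
    splitAt_of ho _ (IsFractionRing.injective k[X] (RatFunc k))
  let M : AddSubgroup ((twoTorsionCurve a b).baseChange Ω).Point :=
    { carrier := {P | P + P = 0}
      zero_mem' := add_zero _
      add_mem' := fun {P Q} hP hQ => by
        have e : P + Q + (P + Q) = (P + P) + (Q + Q) := by abel
        change P + Q + (P + Q) = 0
        rw [e, show P + P = 0 from hP, show Q + Q = 0 from hQ, add_zero]
      neg_mem' := fun {P} hP => by
        have e : -P + -P = -(P + P) := by abel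
        change -P + -P = 0
        rw [e, show P + P = 0 from hP, neg_zero] }
  have hM : ∀ P ∈ M, ∀ σ : Ω ≃ₐ[RatFunc (AlgebraicClosure k)] Ω,
      Point.map (W' := twoTorsionCurve a b) (σ : Ω →ₐ[RatFunc (AlgebraicClosure k)] Ω) P = P :=
    fun P hP σ => map_two_torsion _ h.sΩ hP
  have hM' : ∀ P ∈ M, ∀ γ : Ω ≃ₐ[k[X]] Ω,
      Point.map (W' := twoTorsionCurve a b) (γ : Ω →ₐ[k[X]] Ω) P = P :=
    fun P hP γ => map_two_torsion (γ : Ω →ₐ[k[X]] Ω) h.sΩ hP
  have hpos : 0 < n := ho.odd.pos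
  have ha0 : a ≠ 0 := by
    rintro rfl
    have := ho.deg_a
    rw [natDegree_zero] at this
    omega
  have hb0 : b ≠ 0 := by
    rintro rfl
    have := ho.deg_b
    rw [natDegree_zero] at this
    omega
  have hab0 : a - b ≠ 0 := by
    intro h0
    have := ho.deg_c
    rw [h0, natDegree_zero] at this
    omega
  have hone := level_one (Ω := Ω) h M hM (by
      intro S T U mS mT mU hST hSU hfix
      have mS' : ∀ x ∈ S, aeval x a = 0 := fun x hx => by
        have := mS x hx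
        rw [eval_map_eq, zero_sub, map_neg, neg_eq_zero] at this
        exact this
      have mT' : ∀ x ∈ T, aeval x b = 0 := fun x hx => by
        have := mT x hx
        rw [eval_map_eq, zero_sub, map_neg, neg_eq_zero] at this
        exact this
      have mU' : ∀ x ∈ U, aeval x (a - b) = 0 := fun x hx => by
        have := mU x hx
        rw [eval_map_eq] at this
        exact this
      by_cases hne : S = ∅ ∧ T = ∅ ∧ U = ∅
      · exact Or.inl hne
      · exact absurd (H S T U (isEigentriple_of_fixed h.two ha0 hb0 hab0 (aeval_cop ho) mS' mT'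
          mU' hST hSU hne hfix)) hne)
  have hTC : TC (twoTorsionCurve a b) c.level :=
    { zero := c.level_zero
      two := c.two_nsmul_level
      mul := c.level_mul
      loc := c.isLocallyConstant_level }
  obtain ⟨s, hs⟩ : ∃ s : Finset (AlgebraicClosure k),
      adjoin k (s : Set (AlgebraicClosure k)) = k' :=
    IntermediateField.essFiniteType_iff.mp inferInstance
  obtain ⟨Q, hQ, hQc⟩ := kummer_of_invMT h M hM hM' (fun P hP => hP) hone hTC
    (fun l α => (hc l).1 (placeAt α)) s (fun γ hγ => by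
      have hfix : ∀ a ∈ k', resF h.hk γ a = a := by
        intro a ha
        rw [← hs] at ha
        have h1 : adjoin k (s : Set (AlgebraicClosure k)) ≤
            IntermediateField.fixedField (Subgroup.zpowers (resF h.hk γ)) := by
          rw [adjoin_le_iff]
          intro b hb
          rw [SetLike.mem_coe, IntermediateField.mem_fixedField_iff]
          intro τ hτ
          obtain ⟨m, rfl⟩ := Subgroup.mem_zpowers_iff.mp hτ
          have h5 : resF h.hk γ ∈ MulAction.stabilizer (AlgebraicClosure k ≃ₐ[k]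
            AlgebraicClosure k) b := hγ b hb
          exact (MulAction.stabilizer (AlgebraicClosure k ≃ₐ[k] AlgebraicClosure k) b).zpow_mem
            h5 m
        exact (IntermediateField.mem_fixedField_iff _ _).mp (h1 ha) _
          (Subgroup.mem_zpowers _)
      exact hinv γ (fun x hx => by
        have h1 : algebraMap (RatFunc (AlgebraicClosure k)) Ω (RatFunc.C x) =
            algebraMap (AlgebraicClosure k)[X] Ω (C x) := by
          rw [IsScalarTower.algebraMap_apply (AlgebraicClosure k)[X]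
            (RatFunc (AlgebraicClosure k)) Ω, RatFunc.algebraMap_C]
        rw [h1, resF_spec h.hk, map_C]
        congr 2
        exact hfix x hx)) m
  have hc : ∃ P : ((twoTorsionCurve a b).baseChange (RatFunc k)).Point, P + P = 0 ∧
      2 ^ m • Q = Point.map (W' := twoTorsionCurve a b) f P := by
    rcases (h.sΩ (Ω := Ω)).two_torsion _ hQ with h1 | h1 | h1 | h1
    · exact ⟨0, add_zero _, by rw [h1, map_zero]⟩
    · exact ⟨_, hK.T_add_T, by rw [h1]; exact (map_T f hK h.sΩ).symm⟩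
    · exact ⟨_, hK.swap12.T_add_T, by rw [h1]; exact (map_T f hK.swap12 h.sΩ.swap12).symm⟩
    · exact ⟨_, hK.rot.rot.T_add_T, by rw [h1]; exact (map_T f hK.rot.rot h.sΩ.rot.rot).symm⟩
  obtain ⟨P, hP, hPQ⟩ := hc
  exact ⟨f, P, Q, by rw [two_nsmul]; exact hP, hPQ, fun g => congrFun hQc g⟩

end Final

end Pool.Agent.Lib.MP_89bcae_ag.LevelTwo

end
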