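import Pool.Agent.Lib.MP_89bcae_ag.Trinomials14
import Pool.Agent.Lib.MP_89bcae_ag.SelmerLevelTwo

/-!
# Explicit surfaces
-/

open Polynomial

universe u v

namespace Pool.Agent.Lib.MP_89bcae_ag

theorem FourPlaces.rankZero {O : Type v} [CommRing O] [IsDedekindDomain O] (k : Type u) [Field k]
    [Algebra O k] [IsFractionRing O k] (h2 : (2 : k) ≠ 0) {a b : O[X]} {n : ℕ} (hn : Odd n)
    (hn1 : n ≠ 1) {P₁ P₂ P₃ P₄ : Ideal O} [P₁.IsMaximal] [P₂.IsMaximal] [P₃.IsMaximal]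
    [P₄.IsMaximal] (h : FourPlaces a b n P₁ P₂ P₃ P₄) :
    RankZeroTateAtTwo (twoTorsionCurve (a.map (algebraMap O k)) (b.map (algebraMap O k))) :=
  LevelTwo.rankZeroTateAtTwo (h.oddLevelTwo h2 hn) fun _ _ _ hE => h.no_eigentriple hn hn1 hE

theorem tri_eq {n : ℕ} (α γ : ℤ) : (tri n 1 α γ).map (algebraMap ℤ ℚ) =
    X ^ n + (α : ℚ[X]) * X + (γ : ℚ[X]) := by
  rw [tri_map, tri]
  simp

theorem tri_eq_neg {n : ℕ} (β δ : ℤ) : (tri n (-1) β δ).map (algebraMap ℤ ℚ) =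
    -X ^ n + (β : ℚ[X]) * X + (δ : ℚ[X]) := by
  rw [tri_map, tri]
  simp

theorem TriConditions.rankZero {n : ℕ} (hn : Odd n) (hn1 : n ≠ 1)
    {α β γ δ : ℤ} {p₁ p₂ p₃ p₄ : ℕ} (hp₁ : p₁.Prime) (hp₂ : p₂.Prime) (hp₃ : p₃.Prime)
    (hp₄ : p₄.Prime)
    (h : TriConditions n (-1) α β γ δ (Ideal.span {(p₁ : ℤ)}) (Ideal.span {(p₂ : ℤ)})
      (Ideal.span {(p₃ : ℤ)}) (Ideal.span {(p₄ : ℤ)})) :
    RankZeroTateAtTwo (twoTorsionCurve (X ^ n + (α : ℚ[X]) * X + (γ : ℚ[X]))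
      (-X ^ n + (β : ℚ[X]) * X + (δ : ℚ[X]))) := by
  have := isMaximal_span hp₁
  have := isMaximal_span hp₂
  have := isMaximal_span hp₃
  have := isMaximal_span hp₄
  rw [← tri_eq, ← tri_eq_neg]
  have h1 : 1 < n := by
    have := hn.pos
    omega
  exact (h.fourPlaces h1).rankZero ℚ two_ne_zero hn hn1

/-- Surfaces over `ℚ` in every odd degree `n > 1`, with coefficients in residue classes. -/
theorem exists_rankZero_family {n : ℕ} (hn : Odd n) (hn1 : n ≠ 1) :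
    ∃ M : ℤ, M ≠ 0 ∧ ∃ α₀ β₀ γ₀ δ₀ : ℤ, ∀ α β γ δ : ℤ,
      α ≡ α₀ [ZMOD M] → β ≡ β₀ [ZMOD M] → γ ≡ γ₀ [ZMOD M] → δ ≡ δ₀ [ZMOD M] →
      RankZeroTateAtTwo (twoTorsionCurve (X ^ n + (α : ℚ[X]) * X + (γ : ℚ[X]))
        (-X ^ n + (β : ℚ[X]) * X + (δ : ℚ[X]))) := by
  have h1 : 1 < n := by
    have := hn.pos
    omega
  obtain ⟨p, q, r, s, hp, hq, hr, hs, M, hM, α₀, β₀, γ₀, δ₀, H⟩ := exists_triConditions h1
  exact ⟨M, hM, α₀, β₀, γ₀, δ₀, fun α β γ δ hα hβ hγ hδ =>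
    (H α β γ δ hα hβ hγ hδ).rankZero hn hn1 hp hq hr hs⟩

/-- An explicit surface over `ℚ` for infinitely many odd degrees. -/
theorem rankZero_explicit {n : ℕ} (hn : Odd n) (hn1 : n ≠ 1)
    (h5 : ¬ 5 ∣ n) (h7 : ¬ 7 ∣ n) (h13 : ¬ 13 ∣ n - 1) :
    RankZeroTateAtTwo (twoTorsionCurve (X ^ n + 385 * X - 130 : ℚ[X])
      (-X ^ n + 770 * X - 273)) := by
  have h := (triConditions_explicit h5 h7 h13).rankZero hn hn1 (by norm_num) (by norm_num)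
    (by norm_num) (by norm_num)
  have e1 : (X ^ n + ((385 : ℤ) : ℚ[X]) * X + ((-130 : ℤ) : ℚ[X])) =
      X ^ n + 385 * X - 130 := by
    push_cast
    ring
  have e2 : (-X ^ n + ((770 : ℤ) : ℚ[X]) * X + ((-273 : ℤ) : ℚ[X])) =
      -X ^ n + 770 * X - 273 := by
    push_cast
    ring
  rwa [e1, e2] at h

end Pool.Agent.Lib.MP_89bcae_ag
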