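import Mathlib
import Pool.Agent.Lib.MP_89bcae_ag.Tower7C

/-!
# Extension of invariant cocycles from an open normal subgroup
-/

open Polynomial WeierstrassCurve WeierstrassCurve.Affine

open scoped Classical

namespace Pool.Agent.Lib.MP_89bcae_ag

set_option linter.unusedSectionVars false

section Ext

variable {k F L Ω : Type*} [Field k] [Field F] [Algebra k F] [Algebra.IsAlgebraic k F]
  [IsAlgClosed F] [Field L] [Field Ω]
  [Algebra F[X] L] [IsFractionRing F[X] L] [Algebra L Ω] [Algebra F[X] Ω] [IsScalarTower F[X] L Ω]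
  [Algebra k[X] L] [Algebra k[X] Ω] [IsScalarTower k[X] L Ω]
  [IsGalois L Ω] [IsSepClosed Ω] [IsSepClosure L Ω]

variable (hk : ∀ p : k[X], algebraMap k[X] L p = algebraMap F[X] L (p.map (algebraMap k F)))

/-- `c` is a continuous cocycle of the subgroup `H` with values in the points killed by `N`. -/
structure CocOn (W : Affine k[X]) (H : Subgroup (Ω ≃ₐ[L] Ω)) (N : ℕ)
    (c : (Ω ≃ₐ[L] Ω) → (W.baseChange Ω).Point) : Prop where
  tors : ∀ σ ∈ H, N • c σ = 0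
  mul : ∀ σ ∈ H, ∀ τ ∈ H, c (σ * τ) = c σ + sm W σ (c τ)
  cont : ∃ S : Finset Ω, ∀ σ ∈ H, (∀ x ∈ S, σ x = x) → c σ = 0

/-- There is no nonzero point killed by `N` and fixed by `H`. -/
def NoFixOn (W : Affine k[X]) (H : Subgroup (Ω ≃ₐ[L] Ω)) (N : ℕ) : Prop :=
  ∀ P : (W.baseChange Ω).Point, N • P = 0 → (∀ σ ∈ H, sm W σ P = P) → P = 0

/-- `H₁` is an open subgroup of `H`, normal in `H`. -/
structure OpenNormal (H₁ H : Subgroup (Ω ≃ₐ[L] Ω)) : Prop where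
  le : H₁ ≤ H
  conj : ∀ σ ∈ H, ∀ h ∈ H₁, σ⁻¹ * (h * σ) ∈ H₁
  opn : ∃ S : Finset Ω, ∀ σ ∈ H, (∀ x ∈ S, σ x = x) → σ ∈ H₁

variable {W : Affine k[X]} {H₁ H : Subgroup (Ω ≃ₐ[L] Ω)} {N : ℕ}

lemma NoFixOn.pow (h : NoFixOn W H 2) (n : ℕ) : NoFixOn W H (2 ^ n) := by
  induction n with
  | zero =>
    intro P hP _
    simpa using hP
  | succ n ih =>
    intro P hP hfix
    apply ih _ _ hfix
    apply h
    · rw [← mul_smul, mul_comm, ← pow_succ]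
      exact hP
    · intro σ hσ
      rw [map_nsmul, hfix σ hσ]

lemma NoFixOn.mono (h : NoFixOn W H₁ N) (hle : H₁ ≤ H) : NoFixOn W H N :=
  fun P hP hfix => h P hP (fun σ hσ => hfix σ (hle hσ))

lemma NoFixOn.eq_of_cob (hN : NoFixOn W H₁ N) {B B' : (W.baseChange Ω).Point} (hB : N • B = 0)
    (hB' : N • B' = 0) (h1 : ∀ h ∈ H₁, sm W h B - B = sm W h B' - B') : B = B' := by
  apply sub_eq_zero.mp
  apply hN
  · rw [smul_sub, hB, hB', sub_zero]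
  · intro h hh
    have := h1 h hh
    rw [map_sub, sub_eq_sub_iff_sub_eq_sub.mp this]

lemma CocOn.one {c : (Ω ≃ₐ[L] Ω) → (W.baseChange Ω).Point} (hc : CocOn W H N c) :
    c 1 = 0 := by
  obtain ⟨S, hS⟩ := hc.cont
  exact hS 1 H.one_mem (fun x _ => rfl)

lemma CocOn.mono {c : (Ω ≃ₐ[L] Ω) → (W.baseChange Ω).Point} (hc : CocOn W H N c) (hle : H₁ ≤ H) :
    CocOn W H₁ N c where
  tors σ hσ := hc.tors σ (hle hσ)
  mul σ hσ τ hτ := hc.mul σ (hle hσ) τ (hle hτ)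
  cont := by
    obtain ⟨S, hS⟩ := hc.cont
    exact ⟨S, fun σ hσ => hS σ (hle hσ)⟩

lemma CocOn.comm {c : (Ω ≃ₐ[L] Ω) → (W.baseChange Ω).Point} (hc : CocOn W H N c)
    {σ h h' : Ω ≃ₐ[L] Ω} (hσ : σ ∈ H) (hh : h ∈ H) (hh' : h' ∈ H) (e : σ * h' = h * σ) :
    c σ + sm W σ (c h') = c h + sm W h (c σ) := by
  rw [← hc.mul σ hσ h' hh', ← hc.mul h hh σ hσ, e]

/-- A cocycle of `H` which vanishes on `H₁` vanishes. -/
lemma CocOn.eq_zero {c : (Ω ≃ₐ[L] Ω) → (W.baseChange Ω).Point} (hc : CocOn W H N c)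
    (hH : OpenNormal H₁ H) (hN : NoFixOn W H₁ N) (h1 : ∀ σ ∈ H₁, c σ = 0) :
    ∀ σ ∈ H, c σ = 0 := by
  intro σ hσ
  apply hN _ (hc.tors σ hσ)
  intro h hh
  have e1 := hc.mul h (hH.le hh) σ hσ
  have e2 := hc.mul σ hσ (σ⁻¹ * (h * σ)) (hH.le (hH.conj σ hσ h hh))
  rw [mul_inv_cancel_left, e1, h1 h hh, h1 _ (hH.conj σ hσ h hh), map_zero, zero_add,
    add_zero] at e2
  exact e2

lemma CocOn.sub {c c' : (Ω ≃ₐ[L] Ω) → (W.baseChange Ω).Point} (hc : CocOn W H N c)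
    (hc' : CocOn W H N c') : CocOn W H N (fun σ => c σ - c' σ) where
  tors σ hσ := by rw [smul_sub, hc.tors σ hσ, hc'.tors σ hσ, sub_zero]
  mul σ hσ τ hτ := by
    rw [hc.mul σ hσ τ hτ, hc'.mul σ hσ τ hτ, map_sub]
    abel
  cont := by
    obtain ⟨S, hS⟩ := hc.cont
    obtain ⟨S', hS'⟩ := hc'.cont
    refine ⟨S ∪ S', fun σ hσ h => ?_⟩
    rw [hS σ hσ (fun x hx => h x (Finset.mem_union_left _ hx)),
      hS' σ hσ (fun x hx => h x (Finset.mem_union_right _ hx)), sub_zero]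

lemma CocOn.add {c c' : (Ω ≃ₐ[L] Ω) → (W.baseChange Ω).Point} (hc : CocOn W H N c)
    (hc' : CocOn W H N c') : CocOn W H N (fun σ => c σ + c' σ) where
  tors σ hσ := by rw [smul_add, hc.tors σ hσ, hc'.tors σ hσ, add_zero]
  mul σ hσ τ hτ := by
    rw [hc.mul σ hσ τ hτ, hc'.mul σ hσ τ hτ, map_add]
    abel
  cont := by
    obtain ⟨S, hS⟩ := hc.cont
    obtain ⟨S', hS'⟩ := hc'.cont
    refine ⟨S ∪ S', fun σ hσ h => ?_⟩
    rw [hS σ hσ (fun x hx => h x (Finset.mem_union_left _ hx)),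
      hS' σ hσ (fun x hx => h x (Finset.mem_union_right _ hx)), add_zero]

variable (W) in
lemma cocOn_cob {P : (W.baseChange Ω).Point} (hP : N • P = 0) :
    CocOn W H N (fun σ => sm W σ P - P) where
  tors σ _ := by rw [smul_sub, ← map_nsmul, hP, map_zero, sub_zero]
  mul σ _ τ _ := by
    rw [sm_mul, map_sub]
    abel
  cont := by
    obtain ⟨S, hS⟩ := exists_fix_set (L := L) P
    exact ⟨S, fun σ _ h => by rw [hS σ h, sub_self]⟩

/-- Two cocycles of `H` which agree on `H₁` agree. -/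
lemma CocOn.eq_of_eq {c c' : (Ω ≃ₐ[L] Ω) → (W.baseChange Ω).Point} (hc : CocOn W H N c)
    (hc' : CocOn W H N c')
    (hH : OpenNormal H₁ H) (hN : NoFixOn W H₁ N) (h1 : ∀ σ ∈ H₁, c σ = c' σ) :
    ∀ σ ∈ H, c σ = c' σ := by
  intro σ hσ
  have := (hc.sub hc').eq_zero hH hN (fun σ hσ => by simp only [h1 σ hσ, sub_self]) σ hσ
  exact sub_eq_zero.mp this

/-- Restriction to `H₁` is injective on classes. -/
lemma CocOn.cob_of_cob {c : (Ω ≃ₐ[L] Ω) → (W.baseChange Ω).Point} (hc : CocOn W H N c)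
    (hH : OpenNormal H₁ H) (hN : NoFixOn W H₁ N) {P : (W.baseChange Ω).Point} (hP : N • P = 0)
    (h1 : ∀ σ ∈ H₁, c σ = sm W σ P - P) : ∀ σ ∈ H, c σ = sm W σ P - P :=
  hc.eq_of_eq (cocOn_cob W hP) hH hN h1

/-- An invariant class extends. -/
theorem CocOn.exists_ext {c : (Ω ≃ₐ[L] Ω) → (W.baseChange Ω).Point} (hc : CocOn W H₁ N c)
    (hH : OpenNormal H₁ H) (hN : NoFixOn W H₁ N)
    (hinv : ∀ σ ∈ H, ∃ A : (W.baseChange Ω).Point, N • A = 0 ∧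
      ∀ h ∈ H₁, sm W σ (c (σ⁻¹ * (h * σ))) - c h = sm W h A - A) :
    ∃ c₀ : (Ω ≃ₐ[L] Ω) → (W.baseChange Ω).Point, CocOn W H N c₀ ∧ (∀ σ ∈ H₁, c₀ σ = c σ) ∧
      ∀ σ ∈ H, ∀ h ∈ H₁, sm W σ (c (σ⁻¹ * (h * σ))) - c h = sm W h (c₀ σ) - c₀ σ := by
  choose! A hA2 hA using hinv
  have hconj := hH.conj
  have heq : ∀ σ ∈ H₁, A σ = c σ := by
    intro σ hσ
    apply hN.eq_of_cob (hA2 σ (hH.le hσ)) (hc.tors σ hσ)
    intro h hh
    rw [← hA σ (hH.le hσ) h hh]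
    have h1 := hc.comm (σ := σ) (h := h) (h' := σ⁻¹ * (h * σ)) hσ hh
      (hconj σ (hH.le hσ) h hh) (by rw [mul_inv_cancel_left])
    rw [sub_eq_sub_iff_add_eq_add, add_comm, h1, add_comm]
  refine ⟨A, ⟨hA2, ?_, ?_⟩, heq, hA⟩
  · intro σ hσ τ hτ
    have hστ : σ * τ ∈ H := H.mul_mem hσ hτ
    apply hN.eq_of_cob (hA2 _ hστ) (by rw [smul_add, ← map_nsmul, hA2 σ hσ, hA2 τ hτ, map_zero,
      add_zero])
    intro h hh
    rw [← hA _ hστ h hh]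
    have e1 := hA σ hσ h hh
    have e2 := congrArg (sm W σ) (hA τ hτ _ (hconj σ hσ h hh))
    have e3 : τ⁻¹ * (σ⁻¹ * (h * σ) * τ) = (σ * τ)⁻¹ * (h * (σ * τ)) := by
      rw [mul_inv_rev]; simp only [mul_assoc]
    rw [map_sub, map_sub, ← sm_mul, e3, ← sm_mul, mul_inv_cancel_left, sm_mul W h σ (A τ)] at e2
    rw [sub_eq_iff_eq_add] at e1 e2
    rw [map_add, e2, e1]
    abel
  · obtain ⟨S, hS⟩ := hc.cont
    obtain ⟨S', hS'⟩ := hH.opn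
    refine ⟨S ∪ S', fun σ hσ h1 => ?_⟩
    have h2 : σ ∈ H₁ := hS' σ hσ (fun x hx => h1 x (Finset.mem_union_right _ hx))
    rw [heq σ h2]
    exact hS σ h2 (fun x hx => h1 x (Finset.mem_union_left _ hx))

/-- Relations between conjugates are inherited by the extensions. -/
theorem CocOn.conj_ext {c c' : (Ω ≃ₐ[L] Ω) → (W.baseChange Ω).Point} (hc : CocOn W H N c)
    (hc' : CocOn W H N c') (hH : OpenNormal H₁ H) (hN : NoFixOn W H₁ N)
    {γ : Ω ≃ₐ[k[X]] Ω} (hγ : ∀ σ ∈ H, cj hk γ σ ∈ H)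
    {A : (W.baseChange Ω).Point} (hA : N • A = 0)
    (h1 : ∀ σ ∈ H₁, gm W γ (c (cj hk γ σ)) - c' σ = sm W σ A - A) :
    ∀ σ ∈ H, gm W γ (c (cj hk γ σ)) - c' σ = sm W σ A - A := by
  have hcγ : CocOn W H N (fun σ => gm W γ (c (cj hk γ σ))) := by
    refine ⟨?_, ?_, ?_⟩
    · intro σ hσ
      rw [← map_nsmul, hc.tors _ (hγ σ hσ), map_zero]
    · intro σ hσ τ hτ
      rw [cj_mul, hc.mul _ (hγ σ hσ) _ (hγ τ hτ), map_add, gm_sm]
    · obtain ⟨S, hS⟩ := hc.cont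
      refine ⟨S.image γ, fun σ hσ h1 => ?_⟩
      rw [hS _ (hγ σ hσ) (fun x hx => ?_), map_zero]
      apply γ.injective
      rw [cj_spec]
      exact h1 _ (Finset.mem_image_of_mem _ hx)
  exact (hcγ.sub hc').cob_of_cob hH hN hA h1

/-- Continuous cocycles with values in the Tate module of the subgroup `H`. -/
structure TCS (W : Affine k[X]) (H : Subgroup (Ω ≃ₐ[L] Ω))
    (c : ℕ → (Ω ≃ₐ[L] Ω) → (W.baseChange Ω).Point) : Prop where
  zero : ∀ σ ∈ H, c 0 σ = 0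
  two : ∀ n, ∀ σ ∈ H, 2 • c (n + 1) σ = c n σ
  mul : ∀ n, ∀ σ ∈ H, ∀ τ ∈ H, c n (σ * τ) = c n σ + sm W σ (c n τ)
  cont : ∀ n, ∃ S : Finset Ω, ∀ σ ∈ H, (∀ x ∈ S, σ x = x) → c n σ = 0

lemma TCS.coc {c : ℕ → (Ω ≃ₐ[L] Ω) → (W.baseChange Ω).Point} (hc : TCS W H c) (n : ℕ) :
    CocOn W H (2 ^ n) (c n) where
  tors σ hσ := by
    induction n with
    | zero => rw [hc.zero σ hσ, smul_zero]
    | succ m ih => rw [pow_succ, mul_smul, hc.two m σ hσ, ih]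
  mul := hc.mul n
  cont := hc.cont n

/-- An invariant class with values in the Tate module extends. -/
theorem TCS.exists_ext {c : ℕ → (Ω ≃ₐ[L] Ω) → (W.baseChange Ω).Point} (hc : TCS W H₁ c)
    (hH : OpenNormal H₁ H) (hN : NoFixOn W H₁ 2)
    (hinv : ∀ n, ∀ σ ∈ H, ∃ A : (W.baseChange Ω).Point, 2 ^ n • A = 0 ∧
      ∀ h ∈ H₁, sm W σ (c n (σ⁻¹ * (h * σ))) - c n h = sm W h A - A) :
    ∃ c₀ : ℕ → (Ω ≃ₐ[L] Ω) → (W.baseChange Ω).Point, TCS W H c₀ ∧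
      (∀ n, ∀ σ ∈ H₁, c₀ n σ = c n σ) ∧
      ∀ n, ∀ σ ∈ H, ∀ h ∈ H₁,
        sm W σ (c n (σ⁻¹ * (h * σ))) - c n h = sm W h (c₀ n σ) - c₀ n σ := by
  choose c₀ h0 h1 h2 using fun n => (hc.coc n).exists_ext hH (hN.pow n) (hinv n)
  refine ⟨c₀, ⟨?_, ?_, ?_, ?_⟩, h1, h2⟩
  · intro σ hσ
    have := (h0 0).tors σ hσ
    simpa using this
  · intro n σ hσ
    have e1 : CocOn W H (2 ^ n) (fun σ => 2 • c₀ (n + 1) σ) := by
      refine ⟨?_, ?_, ?_⟩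
      · intro σ hσ
        rw [← mul_smul, ← pow_succ]
        exact (h0 (n + 1)).tors σ hσ
      · intro σ hσ τ hτ
        rw [(h0 (n + 1)).mul σ hσ τ hτ, smul_add, map_nsmul]
      · obtain ⟨S, hS⟩ := (h0 (n + 1)).cont
        exact ⟨S, fun σ hσ h => by rw [hS σ hσ h, smul_zero]⟩
    refine e1.eq_of_eq (h0 n) hH (hN.pow n) (fun σ hσ => ?_) σ hσ
    rw [h1 _ σ hσ, h1 _ σ hσ, hc.two n σ hσ]
  · exact fun n => (h0 n).mul
  · exact fun n => (h0 n).cont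

end Ext

end Pool.Agent.Lib.MP_89bcae_ag
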