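import Mathlib
import Pool.Agent.Lib.MP_89bcae_ag.DinfI14

/-!
# The formula for the divisors, inside of the divisor
-/

open Polynomial WeierstrassCurve WeierstrassCurve.Affine IsDedekindDomain

open scoped Classical

namespace Pool.Agent.Lib.MP_89bcae_ag

set_option linter.unusedSectionVars false
set_option linter.style.haveILetI false

section

variable {k F L Ω : Type*} [Field k] [Field F] [Algebra k F] [Algebra.IsAlgebraic k F]
  [IsAlgClosed F] [Field L] [Field Ω]
  [Algebra F[X] L] [IsFractionRing F[X] L] [Algebra L Ω] [Algebra F[X] Ω] [IsScalarTower F[X] L Ω]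
  [Algebra k[X] L] [Algebra k[X] Ω] [IsScalarTower k[X] L Ω]
  [IsGalois L Ω] [IsSepClosed Ω] [IsSepClosure L Ω]

attribute [local instance] actW

variable (hk : ∀ p : k[X], algebraMap k[X] L p = algebraMap F[X] L (p.map (algebraMap k F)))
variable {W : Affine k[X]} {Loc Loc' : ((Ω ≃ₐ[k[X]] Ω) → (W.baseChange Ω).Point) → Prop}
  {g D E : k[X]}

/-- **The formula for the divisors**, inside of the first divisor. -/
theorem dvZ_formula_in14 (hG : Good g D) (hGE : Good g E) (hsep : (D.comp g).Separable)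
    (hW : IsTwist Ω W (g.map (algebraMap k F)) (E.map (algebraMap k F)))
    {s : Ω} (hs : s ^ 2 = algebraMap F[X] Ω (D.map (algebraMap k F)))
    {γ : Ω ≃ₐ[k[X]] Ω} (hγs : γ s = s)
    (hγ : ∀ β, (D.map (algebraMap k F)).eval ((g.map (algebraMap k F)).eval β) = 0 →
      resF hk γ β = β)
    {τ : Ω ≃ₐ[k[X]] Ω} (hτ : τ ∈ GL8 k L Ω) (hτs : τ s = -s)
    {y z z' : (Ω ≃ₐ[k[X]] Ω) → (W.baseChange Ω).Point} {a a' : (W.baseChange Ω).Point}
    (hz : Inf.Adm Ω (GL8 k L Ω) Loc z) (hz' : Inf.Adm Ω (GL8 k L Ω) Loc z')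
    (hy : Inf.Adm Ω (HS8 k L s) Loc' y) (ha : 2 • a = 0) (ha' : 2 • a' = 0)
    (h1 : ∀ σ ∈ HS8 k L s, y σ - Inf.cj τ y σ = z σ + Inf.cob a σ)
    (h2 : ∀ σ ∈ HS8 k L s, Inf.cj γ y σ - y σ = z' σ + Inf.cob a' σ)
    (hZ : ∀ c ∈ dvZ L W (g.map (algebraMap k F)) (E.map (algebraMap k F)) z,
      (D.map (algebraMap k F)).eval ((g.map (algebraMap k F)).eval c) = 0)
    {β : F} (hβ : (D.map (algebraMap k F)).eval ((g.map (algebraMap k F)).eval β) = 0)
    (hβZ : β ∈ dvZ L W (g.map (algebraMap k F)) (E.map (algebraMap k F)) z) :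
    β ∈ dvZ L W (g.map (algebraMap k F)) (E.map (algebraMap k F)) z' ↔
      Moves ((resF hk γ : F ≃ₐ[k] F) : F →+* F)
        (-(derivative (D.map (algebraMap k F))).eval ((g.map (algebraMap k F)).eval β) *
          (derivative (g.map (algebraMap k F))).eval β *
          ∏ c ∈ (dvZ L W (g.map (algebraMap k F)) (E.map (algebraMap k F)) z).erase β,
            (β - c)) := by
  have hF := hG.map F
  have hroot : ∀ β, (D.map (algebraMap k F)).eval ((g.map (algebraMap k F)).eval β) = 0 →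
      (derivative (g.map (algebraMap k F))).eval β ≠ 0 := by
    intro β hβ
    have h1 : ((D.comp g).map (algebraMap k F)).Separable := hsep.map
    rw [Polynomial.map_comp] at h1
    have h2 := h1.eval₂_derivative_ne_zero (RingHom.id F) (x := β) (by
      rw [eval₂_id, eval_comp]; exact hβ)
    rw [eval₂_id, derivative_comp, eval_mul, eval_comp] at h2
    exact left_ne_zero_of_mul h2
  obtain ⟨βj, βl, h12, h13, h23, hfac⟩ := exists_fibre_at14 hF.monic hF.deg
    (rfl : (g.map (algebraMap k F)).eval β = _) (fun β' hβ' => hroot β' (by rw [hβ']; exact hβ))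
  rw [dvZ_formulaP14 hk hG hGE hsep hW hs hγs hγ hτ hτs hz hz' hy ha ha' h1 h2 hZ hβ,
    ← moves_PZ1_mem14 h12 h13 h23 hfac (hγ β hβ) (fun c hc => hγ c (hZ c hc)) hβZ,
    neg_mul, neg_mul]

end

end Pool.Agent.Lib.MP_89bcae_ag
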