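import Pool.Agent.Lib.MP_89bcae_ag.Count14

/-!
# The polynomials `H_i` and their special roots
-/

namespace Pool.Agent.Lib.MP_89bcae_ag.Frob14

open Polynomial Finset

variable (k F : Type*) [Field k] [Fintype k] [Field F] [Algebra k F]

/-- the elements with `x ^ (q ^ i) = x`, `q = |k|` -/
noncomputable def fixS (i : ℕ) : Finset F := by
  classical
  exact (X ^ (Fintype.card k ^ i) - X : F[X]).roots.toFinset

variable {k F}

theorem one_lt_q_pow {i : ℕ} (hi : 0 < i) : 1 < Fintype.card k ^ i :=
  Nat.one_lt_pow (by omega) Fintype.one_lt_card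

omit [Algebra k F] in
theorem mem_fixS {i : ℕ} (hi : 0 < i) {x : F} : x ∈ fixS k F i ↔ x ^ (Fintype.card k ^ i) = x := by
  classical
  rw [fixS, Multiset.mem_toFinset, mem_roots (FiniteField.X_pow_card_sub_X_ne_zero F
    (one_lt_q_pow hi)), IsRoot.def, eval_sub, eval_pow, eval_X, sub_eq_zero]

theorem card_fixS [IsAlgClosed F] {i : ℕ} (hi : 0 < i) :
    (fixS k F i).card = Fintype.card k ^ i := by
  classical
  have hsep : (X ^ (Fintype.card k ^ i) - X : F[X]).Separable := by
    obtain ⟨p, hp⟩ := CharP.exists k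
    have : Fact p.Prime := ⟨CharP.char_is_prime k p⟩
    have : CharP F p := charP_of_injective_algebraMap (algebraMap k F).injective p
    apply galois_poly_separable p
    obtain ⟨n, hn, hq⟩ := FiniteField.card k p
    rw [hq]
    exact dvd_pow (dvd_pow_self p n.2.ne') hi.ne'
  rw [fixS, Multiset.toFinset_card_of_nodup (nodup_roots hsep),
    ← (IsAlgClosed.splits _).natDegree_eq_card_roots,
    FiniteField.X_pow_card_sub_X_natDegree_eq F (one_lt_q_pow hi)]

omit [Field k] [Algebra k F] in
theorem frob_iterate (i : ℕ) (x : F) :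
    (fun y : F => y ^ Fintype.card k)^[i] x = x ^ (Fintype.card k ^ i) := by
  rw [pow_iterate]

/-- the Frobenius map is injective -/
theorem frob_injective : Function.Injective (fun y : F => y ^ Fintype.card k) := by
  intro a b h
  apply (FiniteField.frobeniusAlgHom k F : F →+* F).injective
  simpa using h

theorem mem_range_of_pow_eq {x : F} (hx : x ^ Fintype.card k = x) :
    x ∈ (algebraMap k F).range := by
  classical
  -- the image of `k` has `q` elements, all roots of `X ^ q - X`
  have h0 : (X ^ (Fintype.card k) - X : F[X]) ≠ 0 :=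
    FiniteField.X_pow_card_sub_X_ne_zero F Fintype.one_lt_card
  have hsub : (univ.image (algebraMap k F)) ⊆ (X ^ (Fintype.card k) - X : F[X]).roots.toFinset := by
    intro y hy
    rw [mem_image] at hy
    obtain ⟨c, _, rfl⟩ := hy
    rw [Multiset.mem_toFinset, mem_roots h0, IsRoot.def, eval_sub, eval_pow, eval_X, ← map_pow,
      FiniteField.pow_card, sub_self]
  have hcard : (X ^ (Fintype.card k) - X : F[X]).roots.toFinset.card ≤
      (univ.image (algebraMap k F)).card := by
    rw [card_image_of_injective _ (algebraMap k F).injective, card_univ]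
    refine (Multiset.toFinset_card_le _).trans ((card_roots' _).trans ?_)
    rw [FiniteField.X_pow_card_sub_X_natDegree_eq F Fintype.one_lt_card]
  have heq := eq_of_subset_of_card_le hsub hcard
  have : x ∈ (X ^ (Fintype.card k) - X : F[X]).roots.toFinset := by
    rw [Multiset.mem_toFinset, mem_roots h0, IsRoot.def, eval_sub, eval_pow, eval_X, hx, sub_self]
  rw [← heq, mem_image] at this
  obtain ⟨c, _, rfl⟩ := this
  exact ⟨c, rfl⟩

theorem aeval_pow_q (g : k[X]) (x : F) (i : ℕ) :
    aeval (x ^ (Fintype.card k ^ i)) g = (aeval x g) ^ (Fintype.card k ^ i) := by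
  induction i with
  | zero => simp
  | succ i ih =>
    rw [pow_succ, pow_mul, pow_mul, ← ih]
    have := FiniteField.frobeniusAlgHom k F
    have h1 := (aeval_algHom_apply (FiniteField.frobeniusAlgHom k F)
      (x ^ (Fintype.card k ^ i)) g)
    simpa using h1

/-- the polynomial `∏ (X - g(c)) (X - c)` over the `c` with `c ^ (q ^ i) = c` -/
noncomputable def HF (F : Type*) [Field F] [Algebra k F] (g : k[X]) (i : ℕ) : F[X] :=
  ∏ c ∈ fixS k F i, ((X - C (aeval c g)) * (X - C c))

theorem HF_map_frob (g : k[X]) {i : ℕ} (hi : 0 < i) :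
    (HF F g i).map (FiniteField.frobeniusAlgHom k F : F →+* F) = HF F g i := by
  classical
  unfold HF
  rw [Polynomial.map_prod]
  refine prod_bij (fun c _ => c ^ Fintype.card k) ?_ ?_ ?_ ?_
  · intro c hc
    rw [mem_fixS hi] at hc ⊢
    rw [← pow_mul, mul_comm, pow_mul, hc]
  · intro c _ c' _ h
    exact frob_injective (k := k) h
  · -- surjective: injective self map of a finite set
    intro c hc
    have hinj : Set.InjOn (fun y : F => y ^ Fintype.card k) (fixS k F i : Set F) :=
      (frob_injective (k := k)).injOn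
    have hmaps : Set.MapsTo (fun y : F => y ^ Fintype.card k) (fixS k F i : Set F) (fixS k F i) := by
      intro y hy
      rw [mem_coe, mem_fixS hi] at hy ⊢
      simp only
      rw [← pow_mul, mul_comm, pow_mul, hy]
    obtain ⟨y, hy, hyc⟩ := (Finset.surjOn_of_injOn_of_card_le _ hmaps hinj le_rfl) hc
    exact ⟨y, hy, hyc⟩
  · intro c _
    have h1 := aeval_pow_q (F := F) g c 1
    rw [pow_one] at h1
    rw [Polynomial.map_mul, Polynomial.map_sub, Polynomial.map_sub, map_X, map_C, map_C, h1]
    simp

theorem HF_monic (g : k[X]) (i : ℕ) : (HF F g i).Monic := by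
  apply monic_prod_of_monic
  intro c _
  exact (monic_X_sub_C _).mul (monic_X_sub_C _)

theorem HF_natDegree [IsAlgClosed F] (g : k[X]) {i : ℕ} (hi : 0 < i) :
    (HF F g i).natDegree = 2 * Fintype.card k ^ i := by
  unfold HF
  rw [natDegree_prod_of_monic _ _ fun c _ => (monic_X_sub_C _).mul (monic_X_sub_C _)]
  rw [sum_congr rfl (g := fun _ => 2) fun c _ => by
    rw [(monic_X_sub_C _).natDegree_mul (monic_X_sub_C _), natDegree_X_sub_C, natDegree_X_sub_C]]
  rw [sum_const, card_fixS hi, smul_eq_mul, mul_comm]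

/-- descent to `k` -/
theorem exists_H (F : Type*) [Field F] [Algebra k F] (g : k[X]) {i : ℕ} (hi : 0 < i) :
    ∃ h : k[X], h.map (algebraMap k F) = HF F g i := by
  have : HF F g i ∈ lifts (algebraMap k F) := by
    rw [lifts_iff_coeff_lifts]
    intro n
    have h1 := congrArg (fun P : F[X] => P.coeff n) (HF_map_frob (F := F) g hi)
    simp only [coeff_map] at h1
    have h2 : (HF F g i).coeff n ^ Fintype.card k = (HF F g i).coeff n := by
      simpa using h1
    exact mem_range_of_pow_eq h2
  exact (mem_lifts _).1 this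

/-- `H_i` over `k` -/
noncomputable def H (F : Type*) [Field F] [Algebra k F] (g : k[X]) (i : ℕ) : k[X] :=
  if hi : 0 < i then (exists_H F g hi).choose else 1

theorem H_map (g : k[X]) {i : ℕ} (hi : 0 < i) :
    (H F g i).map (algebraMap k F) = HF F g i := by
  rw [H, dif_pos hi]
  exact (exists_H F g hi).choose_spec

theorem H_monic (g : k[X]) {i : ℕ} (hi : 0 < i) : (H F g i).Monic := by
  apply monic_of_injective (algebraMap k F).injective
  rw [H_map g hi]
  exact HF_monic g i

theorem H_natDegree [IsAlgClosed F] (g : k[X]) {i : ℕ} (hi : 0 < i) :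
    (H F g i).natDegree = 2 * Fintype.card k ^ i := by
  rw [← natDegree_map (algebraMap k F), H_map g hi, HF_natDegree g hi]

/-- values of `H_i` -/
theorem aeval_H (g : k[X]) {i : ℕ} (hi : 0 < i) (α : F) :
    aeval α (H F g i) = ∏ c ∈ fixS k F i, ((α - aeval c g) * (α - c)) := by
  rw [← eval_map_algebraMap, H_map g hi, HF, eval_prod]
  simp

/-- roots of `H_j` lie in the field with `q ^ j` elements -/
theorem HF_root {g : k[X]} {j : ℕ} (hj : 0 < j) {v : F} (hv : (HF F g j).IsRoot v) :
    v ^ (Fintype.card k ^ j) = v := by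
  rw [IsRoot.def, HF, eval_prod, prod_eq_zero_iff] at hv
  obtain ⟨c, hc, h⟩ := hv
  rw [mem_fixS hj] at hc
  rw [eval_mul, mul_eq_zero] at h
  rcases h with h | h
  · simp only [eval_sub, eval_X, eval_C, sub_eq_zero] at h
    rw [h, ← aeval_pow_q, hc]
  · simp only [eval_sub, eval_X, eval_C, sub_eq_zero] at h
    rw [h, hc]

theorem HF_rootMultiplicity {g : k[X]} {i : ℕ} (hi : 0 < i) {v : F}
    (hv : v ^ (Fintype.card k ^ i) = v)
    (hmiss : ∀ x : F, x ^ (Fintype.card k ^ i) = x → aeval x g ≠ v) :
    (HF F g i).rootMultiplicity v = 1 := by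
  classical
  have hvS : v ∈ fixS k F i := (mem_fixS hi).2 hv
  have h0 := (HF_monic (F := F) g i).ne_zero
  have e : HF F g i = (X - C v) * ((X - C (aeval v g)) *
      ∏ c ∈ (fixS k F i).erase v, ((X - C (aeval c g)) * (X - C c))) := by
    rw [HF, ← mul_prod_erase _ _ hvS]
    ring
  rw [e] at h0 ⊢
  rw [rootMultiplicity_mul h0, rootMultiplicity_X_sub_C_self]
  rw [rootMultiplicity_eq_zero, add_zero]
  rw [IsRoot.def, eval_mul, eval_prod]
  apply mul_ne_zero
  · simp only [eval_sub, eval_X, eval_C]
    exact sub_ne_zero.2 (hmiss v hv).symm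
  · apply prod_ne_zero_iff.2
    intro c hc
    rw [mem_erase, mem_fixS hi] at hc
    rw [eval_mul]
    apply mul_ne_zero
    · simp only [eval_sub, eval_X, eval_C]
      exact sub_ne_zero.2 (hmiss c hc.2).symm
    · simp only [eval_sub, eval_X, eval_C]
      exact sub_ne_zero.2 (Ne.symm hc.1)

end Pool.Agent.Lib.MP_89bcae_ag.Frob14
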