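import Mathlib
import Pool.Agent.Lib.MP_89bcae_ag.CountC8

/-!
# The generic polynomial: transitivity on pairs of roots
-/

open Polynomial

open scoped Classical

set_option linter.unusedSimpArgs false
set_option linter.unusedVariables false
set_option linter.unusedSectionVars false
set_option linter.style.haveILetI false

namespace Pool.Agent.Lib.MP_89bcae_ag

universe u

/-- Two transcendence bases of an algebraically closed field are conjugate. -/
theorem exists_algEquiv_of_basis8 {k F : Type*} [Field k] [Field F] [Algebra k F] [IsAlgClosed F]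
    {ι : Type*} {x y : ι → F} (hx : IsTranscendenceBasis k x) (hy : IsTranscendenceBasis k y) :
    ∃ σ : F ≃ₐ[k] F, ∀ i, σ (x i) = y i := by
  have hcx := IsAlgClosed.isAlgClosure_of_transcendence_basis x hx
  have hcy := IsAlgClosed.isAlgClosure_of_transcendence_basis y hy
  let e : Algebra.adjoin k (Set.range x) ≃ₐ[k] Algebra.adjoin k (Set.range y) :=
    hx.1.aevalEquiv.symm.trans hy.1.aevalEquiv
  let σ : F ≃+* F := IsAlgClosure.equivOfEquiv F F e.toRingEquiv
  have hσ : ∀ s : Algebra.adjoin k (Set.range x), σ (s : F) = (e s : F) := fun s =>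
    IsAlgClosure.equivOfEquiv_algebraMap F F e.toRingEquiv s
  have hσk : ∀ c : k, σ (algebraMap k F c) = algebraMap k F c := by
    intro c
    have h1 := hσ (algebraMap k _ c)
    rw [e.commutes] at h1
    exact h1
  refine ⟨AlgEquiv.ofRingEquiv (f := σ) hσk, fun i => ?_⟩
  have h3 : (⟨x i, Algebra.subset_adjoin ⟨i, rfl⟩⟩ : Algebra.adjoin k (Set.range x)) =
      hx.1.aevalEquiv (MvPolynomial.X i) := by
    apply Subtype.ext
    have h4 := hx.1.algebraMap_aevalEquiv (MvPolynomial.X i)
    rw [MvPolynomial.aeval_X] at h4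
    exact h4.symm
  have h1 := hσ ⟨x i, Algebra.subset_adjoin ⟨i, rfl⟩⟩
  show σ (x i) = y i
  have h2 : e ⟨x i, Algebra.subset_adjoin ⟨i, rfl⟩⟩ = hy.1.aevalEquiv (MvPolynomial.X i) := by
    rw [h3]
    show hy.1.aevalEquiv (hx.1.aevalEquiv.symm (hx.1.aevalEquiv (MvPolynomial.X i))) = _
    rw [AlgEquiv.symm_apply_apply]
  have h5 := hy.1.algebraMap_aevalEquiv (MvPolynomial.X i)
  rw [MvPolynomial.aeval_X] at h5
  exact h1.trans ((congrArg Subtype.val h2).trans h5)

section

variable {k K F : Type*} [Field k] [Field K] [Field F] [Algebra k K] [Algebra K F] [Algebra k F]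
  [IsScalarTower k K F] [IsAlgClosed F] [Algebra.IsAlgebraic K F]

/-- A finite family of at most as many elements as the transcendence degree which generates a field
containing `K` is a transcendence basis. -/
theorem isTranscendenceBasis_of_mem8 {n : ℕ} {a : Fin (n + 1) → K}
    (ha : IsTranscendenceBasis k a) (hgen : ∀ L : IntermediateField k F,
      (∀ i, algebraMap K F (a i) ∈ L) → ∀ z : K, algebraMap K F z ∈ L)
    {x : Option (Fin n) → F} (hx : ∀ i, algebraMap K F (a i) ∈
      IntermediateField.adjoin k (Set.range x)) : IsTranscendenceBasis k x := by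
  have hK : ∀ z : K, algebraMap K F z ∈ IntermediateField.adjoin k (Set.range x) :=
    hgen _ hx
  let φ : K →+* IntermediateField.adjoin k (Set.range x) :=
    (algebraMap K F).codRestrict _ hK
  letI : Algebra K (IntermediateField.adjoin k (Set.range x)) := φ.toAlgebra
  have : IsScalarTower K (IntermediateField.adjoin k (Set.range x)) F :=
    IsScalarTower.of_algebraMap_eq fun z => rfl
  have h1 : Algebra.IsAlgebraic (IntermediateField.adjoin k (Set.range x)) F :=
    Algebra.IsAlgebraic.tower_top (K := K) _
  have h2 : Algebra.IsAlgebraic (Algebra.adjoin k (Set.range x)) F := by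
    open scoped IntermediateField.algebraAdjoinAdjoin in
    exact Algebra.IsAlgebraic.trans (Algebra.adjoin k (Set.range x))
      (IntermediateField.adjoin k (Set.range x)) F
  have h3 : IsTranscendenceBasis k (algebraMap K F ∘ a) := ha.algebraMap_comp
  refine Algebra.IsAlgebraic.isTranscendenceBasis_of_lift_le_trdeg_of_finite k x ?_
  rw [← h3.lift_cardinalMk_eq_trdeg]
  simp

theorem exists_enum8 {α : Type*} (m : Multiset α) {n : ℕ} (h : m.card = n) :
    ∃ f : Fin n → α, m = Multiset.map f Finset.univ.val := by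
  induction m using Quotient.inductionOn with
  | h l =>
    have hl : l.length = n := h
    subst hl
    refine ⟨l.get, ?_⟩
    rw [Fin.univ_val_map, List.ofFn_get]
    rfl

theorem exists_perm8 {n : ℕ} {i j i' j' : Fin n} (h : i ≠ j) (h' : i' ≠ j') :
    ∃ π : Equiv.Perm (Fin n), π i = i' ∧ π j = j' := by
  have h1 : Equiv.swap i i' j ≠ i' := by
    intro h2
    have h3 : Equiv.swap i i' j = Equiv.swap i i' i := by rw [h2, Equiv.swap_apply_left]
    exact h ((Equiv.swap i i').injective h3).symm
  refine ⟨Equiv.swap (Equiv.swap i i' j) j' * Equiv.swap i i', ?_, ?_⟩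
  · rw [Equiv.Perm.mul_apply, Equiv.swap_apply_left, Equiv.swap_apply_of_ne_of_ne h1.symm h']
  · rw [Equiv.Perm.mul_apply, Equiv.swap_apply_left]

/-- The factorisation of the generic polynomial. -/
theorem exists_factor8 {n : ℕ} {a : Fin (n + 1) → K} (ha : a (Fin.last n) ≠ 0) :
    ∃ α : Fin n → F, (polyOf8 a).map (algebraMap K F) =
      C (algebraMap K F (a (Fin.last n))) * ∏ i, (X - C (α i)) := by
  have hcoeff : ∀ i : Fin (n + 1), (polyOf8 a).coeff i = a i := by
    intro i
    unfold polyOf8
    rw [finsetSum_coeff, Finset.sum_eq_single i]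
    · simp
    · intro j _ hj
      rw [coeff_C_mul, coeff_X_pow, if_neg (fun h => hj (Fin.ext h).symm), mul_zero]
    · intro h; exact absurd (Finset.mem_univ _) h
  have hle : (polyOf8 a).natDegree ≤ n := by
    unfold polyOf8
    refine natDegree_sum_le_of_forall_le _ _ fun i _ => ?_
    exact (natDegree_C_mul_X_pow_le _ _).trans (Nat.le_of_lt_succ i.2)
  have hc : (polyOf8 a).coeff n = a (Fin.last n) := by
    have := hcoeff (Fin.last n)
    rwa [Fin.val_last] at this
  have hdeg : (polyOf8 a).natDegree = n :=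
    le_antisymm hle (le_natDegree_of_ne_zero (by rw [hc]; exact ha))
  have hlc : ((polyOf8 a).map (algebraMap K F)).leadingCoeff =
      algebraMap K F (a (Fin.last n)) := by
    rw [leadingCoeff_map, leadingCoeff, hdeg, hc]
  obtain ⟨α, hα⟩ := exists_enum8 ((polyOf8 a).map (algebraMap K F)).roots (n := n) (by
    rw [← (IsAlgClosed.splits _).natDegree_eq_card_roots, natDegree_map, hdeg])
  refine ⟨α, ?_⟩
  conv_lhs => rw [(IsAlgClosed.splits ((polyOf8 a).map (algebraMap K F))).eq_prod_roots, hα, hlc]
  rw [Multiset.map_map]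
  rfl

theorem coeff_polyOf8 {R : Type*} [CommRing R] {n : ℕ} (a : Fin (n + 1) → R) (i : Fin (n + 1)) :
    (polyOf8 a).coeff i = a i := by
  unfold polyOf8
  rw [finsetSum_coeff, Finset.sum_eq_single i]
  · simp
  · intro j _ hj
    rw [coeff_C_mul, coeff_X_pow, if_neg (fun h => hj (Fin.ext h).symm), mul_zero]
  · intro h; exact absurd (Finset.mem_univ _) h

/-- A transversal of the fibres over the roots of the generic polynomial is, together with the
leading coefficient, a transcendence basis. -/
theorem basis_transversal8 {n : ℕ} {a : Fin (n + 1) → K}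
    (ha : IsTranscendenceBasis k a) (hgen : ∀ L : IntermediateField k F,
      (∀ i, algebraMap K F (a i) ∈ L) → ∀ z : K, algebraMap K F z ∈ L) {g : k[X]}
    {α : Fin n → F} (hα : (polyOf8 a).map (algebraMap K F) =
      C (algebraMap K F (a (Fin.last n))) * ∏ i, (X - C (α i))) {b : Fin n → F}
    (hb : ∀ i, aeval (b i) g = α i) :
    IsTranscendenceBasis k (fun o : Option (Fin n) =>
      o.elim (algebraMap K F (a (Fin.last n))) b) := by
  apply isTranscendenceBasis_of_mem8 ha hgen
  set L := IntermediateField.adjoin k (Set.range (fun o : Option (Fin n) =>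
      o.elim (algebraMap K F (a (Fin.last n))) b)) with hL
  have h1 : algebraMap K F (a (Fin.last n)) ∈ L :=
    IntermediateField.subset_adjoin k _ ⟨none, rfl⟩
  have h2 : ∀ i, b i ∈ L := fun i => IntermediateField.subset_adjoin k _ ⟨some i, rfl⟩
  have h3 : ∀ i, α i ∈ L := by
    intro i
    rw [← hb i]
    have h4 := aeval_algebraMap_apply F (⟨b i, h2 i⟩ : L) g
    change aeval (b i) g = _ at h4
    rw [h4]
    exact (aeval (⟨b i, h2 i⟩ : L) g).2
  have h4 : ((C ⟨_, h1⟩ * ∏ i, (X - C ⟨_, h3 i⟩) : L[X])).map (algebraMap L F) =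
      (polyOf8 a).map (algebraMap K F) := by
    rw [hα, Polynomial.map_mul, Polynomial.map_prod, map_C]
    congr 1
    refine Finset.prod_congr rfl fun i _ => ?_
    rw [Polynomial.map_sub, map_X, map_C]
    rfl
  intro i
  have h5 : algebraMap K F (a i) = ((polyOf8 a).map (algebraMap K F)).coeff i := by
    rw [coeff_map, coeff_polyOf8]
  rw [h5, ← h4, coeff_map]
  exact (((C ⟨_, h1⟩ * ∏ i, (X - C ⟨_, h3 i⟩) : L[X])).coeff i).2

/-- Transcendence bases of the transversals with the prescribed elements. -/
theorem exists_transversal8 {n : ℕ} {g : k[X]} (hg : g.natDegree ≠ 0) {α : Fin n → F}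
    {b c : F} {i j : Fin n} (hij : i ≠ j) (hb : aeval b g = α i) (hc : aeval c g = α j) :
    ∃ t : Fin n → F, (∀ l, aeval (t l) g = α l) ∧ t i = b ∧ t j = c := by
  have h1 : ∀ l, ∃ x : F, aeval x g = α l := by
    intro l
    have h2 : (g.map (algebraMap k F) - C (α l)).degree ≠ 0 := by
      intro h0
      have h3 := natDegree_eq_of_degree_eq_some h0
      rw [natDegree_sub_C, natDegree_map] at h3
      exact hg h3
    obtain ⟨x, hx⟩ := IsAlgClosed.exists_root _ h2
    refine ⟨x, ?_⟩
    rwa [IsRoot.def, eval_sub, eval_C, sub_eq_zero, eval_map_algebraMap] at hx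
  choose u hu using h1
  refine ⟨fun l => if l = i then b else if l = j then c else u l, fun l => ?_, if_pos rfl, ?_⟩
  · show aeval (if l = i then b else if l = j then c else u l) g = α l
    split_ifs with h h'
    · rw [h, hb]
    · rw [h', hc]
    · exact hu l
  · show (if j = i then b else if j = j then c else u j) = c
    rw [if_neg hij.symm, if_pos rfl]

/-- The roots of the composite of the generic polynomial. -/
theorem generic_root8 {n : ℕ} {a : Fin (n + 1) → K} {g : k[X]} {α : Fin n → F}
    (hanF : algebraMap K F (a (Fin.last n)) ≠ 0) (hα : (polyOf8 a).map (algebraMap K F) =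
      C (algebraMap K F (a (Fin.last n))) * ∏ i, (X - C (α i))) (x : F) :
    aeval x ((polyOf8 a).comp (g.map (algebraMap k K))) = 0 ↔ ∃ i, aeval x g = α i := by
  rw [aeval_comp, aeval_map_algebraMap, ← eval_map_algebraMap, hα, eval_mul, eval_C,
    eval_prod, mul_eq_zero, or_iff_right hanF, Finset.prod_eq_zero_iff]
  constructor
  · rintro ⟨i, -, hi⟩
    rw [eval_sub, eval_X, eval_C, sub_eq_zero] at hi
    exact ⟨i, hi⟩
  · rintro ⟨i, hi⟩
    exact ⟨i, Finset.mem_univ _, by rw [eval_sub, eval_X, eval_C, hi, sub_self]⟩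

theorem exists_root8 {g : k[X]} (hg : g.natDegree ≠ 0) (α : F) : ∃ x : F, aeval x g = α := by
  have h2 : (g.map (algebraMap k F) - C α).degree ≠ 0 := by
    intro h0
    have h3 := natDegree_eq_of_degree_eq_some h0
    rw [natDegree_sub_C, natDegree_map] at h3
    exact hg h3
  obtain ⟨x, hx⟩ := IsAlgClosed.exists_root _ h2
  refine ⟨x, ?_⟩
  rwa [IsRoot.def, eval_sub, eval_C, sub_eq_zero, eval_map_algebraMap] at hx

/-- **The generic polynomial: transitivity on pairs of roots.** -/
theorem generic_pair8 {n : ℕ} {a : Fin (n + 1) → K} (ha : IsTranscendenceBasis k a)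
    (hgen : ∀ L : IntermediateField k F,
      (∀ i, algebraMap K F (a i) ∈ L) → ∀ z : K, algebraMap K F z ∈ L) {g : k[X]}
    (hg : g.natDegree ≠ 0) :
    IsPairTransitive7 K F (g.map (algebraMap k K)) (polyOf8 a) := by
  have han : a (Fin.last n) ≠ 0 := ha.1.ne_zero (Fin.last n)
  have hanF : algebraMap K F (a (Fin.last n)) ≠ 0 := (_root_.map_ne_zero _).mpr han
  obtain ⟨α, hα⟩ := exists_factor8 (F := F) han
  have hroot := generic_root8 (g := g) hanF hα
  intro b c b' c' hb hc hb' hc' hbc hbc'
  rw [aeval_map_algebraMap, aeval_map_algebraMap] at hbc hbc'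
  obtain ⟨i, hi⟩ := (hroot b).mp hb
  obtain ⟨j, hj⟩ := (hroot c).mp hc
  obtain ⟨i', hi'⟩ := (hroot b').mp hb'
  obtain ⟨j', hj'⟩ := (hroot c').mp hc'
  have hij : i ≠ j := fun h => hbc (by rw [hi, hj, h])
  have hij' : i' ≠ j' := fun h => hbc' (by rw [hi', hj', h])
  obtain ⟨t, ht, hti, htj⟩ := exists_transversal8 hg hij hi hj
  obtain ⟨t', ht', hti', htj'⟩ := exists_transversal8 hg hij' hi' hj'
  obtain ⟨π, hπ1, hπ2⟩ := exists_perm8 hij hij'
  have hbas := basis_transversal8 ha hgen hα ht
  have hfac' : (polyOf8 a).map (algebraMap K F) =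
      C (algebraMap K F (a (Fin.last n))) * ∏ l, (X - C (α (π l))) := by
    rw [hα]
    congr 1
    exact (Equiv.prod_comp π fun l => (X - C (α l) : F[X])).symm
  have hbas' := basis_transversal8 ha hgen hfac' (b := fun l => t' (π l)) (fun l => ht' (π l))
  obtain ⟨σ, hσ⟩ := exists_algEquiv_of_basis8 hbas hbas'
  have hσn : σ (algebraMap K F (a (Fin.last n))) = algebraMap K F (a (Fin.last n)) :=
    hσ none
  have hσt : ∀ l, σ (t l) = t' (π l) := fun l => hσ (some l)
  have hσα : ∀ l, σ (α l) = α (π l) := by
    intro l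
    rw [← ht l, ← Polynomial.aeval_algHom_apply, hσt, ht']
  have hσK : ∀ z : K, σ (algebraMap K F z) = algebraMap K F z := by
    let L : IntermediateField k F := IntermediateField.fixedField (Subgroup.zpowers σ)
    have hL : ∀ x : F, σ x = x → x ∈ L := by
      intro x hx
      rw [IntermediateField.mem_fixedField_iff]
      intro τ hτ
      have h1 : Subgroup.zpowers σ ≤ MulAction.stabilizer (F ≃ₐ[k] F) x := by
        rw [Subgroup.zpowers_le]
        exact hx
      exact h1 hτ
    have hL' : ∀ x ∈ L, σ x = x := by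
      intro x hx
      rw [IntermediateField.mem_fixedField_iff] at hx
      exact hx σ (Subgroup.mem_zpowers σ)
    intro z
    apply hL'
    apply hgen L
    intro i
    apply hL
    have h1 : ((polyOf8 a).map (algebraMap K F)).map (σ : F →+* F) =
        (polyOf8 a).map (algebraMap K F) := by
      conv_lhs => rw [hα]
      rw [hfac', Polynomial.map_mul, Polynomial.map_prod, map_C]
      congr 1
      · congr 1
      · refine Finset.prod_congr rfl fun l _ => ?_
        rw [Polynomial.map_sub, map_X, map_C]
        congr 2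
        exact hσα l
    have h2 := congrArg (fun q : F[X] => q.coeff i) h1
    simp only [coeff_map, coeff_polyOf8] at h2
    exact h2
  refine ⟨AlgEquiv.ofRingEquiv (f := (σ : F ≃+* F)) hσK, ?_, ?_⟩
  · show σ b = b'
    rw [← hti, hσt, hπ1, hti']
  · show σ c = c'
    rw [← htj, hσt, hπ2, htj']
/-- **The generic polynomial: separability.** -/
theorem generic_sep8 {n : ℕ} {a : Fin (n + 1) → K} (ha : IsTranscendenceBasis k a)
    (hgen : ∀ L : IntermediateField k F,
      (∀ i, algebraMap K F (a i) ∈ L) → ∀ z : K, algebraMap K F z ∈ L) {g : k[X]}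
    (hg : g.natDegree ≠ 0) (hg' : derivative g ≠ 0) :
    ((polyOf8 a).comp (g.map (algebraMap k K))).Separable := by
  have han : a (Fin.last n) ≠ 0 := ha.1.ne_zero (Fin.last n)
  have hanF : algebraMap K F (a (Fin.last n)) ≠ 0 := (_root_.map_ne_zero _).mpr han
  obtain ⟨α, hα⟩ := exists_factor8 (F := F) han
  have hne : ∀ i j : Fin n, i ≠ j → α i ≠ α j := by
    intro i j hij h
    obtain ⟨x, hx⟩ := exists_root8 (F := F) hg (α i)
    obtain ⟨t, ht, hti, htj⟩ := exists_transversal8 hg hij hx (by rw [hx, h])
    have hbas := basis_transversal8 ha hgen hα ht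
    have h3 := hbas.1.injective (a₁ := some i) (a₂ := some j) (by
      show t i = t j
      rw [hti, htj])
    exact hij (Option.some.inj h3)
  have hsep1 : ∀ i, (g.map (algebraMap k F) - C (α i)).Separable := by
    intro i
    by_contra hcon
    rw [Polynomial.Separable, Polynomial.isCoprime_iff_aeval_ne_zero_of_isAlgClosed F F] at hcon
    push Not at hcon
    obtain ⟨x, h4, h5⟩ := hcon
    rw [derivative_sub, derivative_C, sub_zero, derivative_map, aeval_map_algebraMap] at h5
    rw [map_sub, aeval_C, sub_eq_zero, aeval_map_algebraMap] at h4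
    choose u hu using fun l => exists_root8 (F := F) hg (α l)
    have ht : ∀ l, aeval ((fun l => if l = i then x else u l) l) g = α l := by
      intro l
      show aeval (if l = i then x else u l) g = α l
      split_ifs with h
      · rw [h, h4]; rfl
      · exact hu l
    have hbas := basis_transversal8 ha hgen hα ht
    have h6 : Transcendental k x := by
      have := hbas.1.transcendental (some i)
      change Transcendental k (if i = i then x else u i) at this
      rwa [if_pos rfl] at this
    exact h6 ⟨derivative g, hg', h5⟩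
  have hmap : ((polyOf8 a).comp (g.map (algebraMap k K))).map (algebraMap K F) =
      C (algebraMap K F (a (Fin.last n))) * ∏ i, (g.map (algebraMap k F) - C (α i)) := by
    rw [Polynomial.map_comp, hα, Polynomial.map_map, ← IsScalarTower.algebraMap_eq, mul_comp,
      C_comp, prod_comp]
    congr 1
    exact Finset.prod_congr rfl fun i _ => by rw [sub_comp, X_comp, C_comp]
  rw [← Polynomial.separable_map (algebraMap K F), hmap]
  have h2 : (∏ i, (g.map (algebraMap k F) - C (α i))).Separable := by
    apply separable_prod'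
    · intro i _ j _ hij
      refine ⟨C ((α j - α i)⁻¹), -C ((α j - α i)⁻¹), ?_⟩
      have h3 : C ((α j - α i)⁻¹) * C (α j - α i) = (1 : F[X]) := by
        rw [← C_mul, inv_mul_cancel₀ (sub_ne_zero.mpr (hne j i hij.symm)), C_1]
      rw [C_sub] at h3
      linear_combination h3
    · exact fun i _ => hsep1 i
  have h3 : (C (algebraMap K F (a (Fin.last n))) : F[X]).Separable :=
    separable_C _ |>.mpr (isUnit_iff_ne_zero.mpr hanF)
  refine h3.mul h2 ⟨C (algebraMap K F (a (Fin.last n)))⁻¹, 0, ?_⟩
  rw [zero_mul, add_zero, ← C_mul, inv_mul_cancel₀ hanF, C_1]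

end

end Pool.Agent.Lib.MP_89bcae_ag
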