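import Mathlib
import Pool.Agent.Lib.MP_89bcae_ag.GenA8

/-!
# The generic polynomial: a simple collision
-/

open Polynomial

open scoped Classical

set_option linter.unusedSimpArgs false
set_option linter.unusedVariables false
set_option linter.unusedSectionVars false
set_option linter.style.haveILetI false

namespace Pool.Agent.Lib.MP_89bcae_ag

universe u

section

variable {k K : Type*} [Field k] [Field K] [Algebra k K]

/-- An algebraically independent family which generates the field is a transcendence basis. -/
theorem basis_of_top8 {ι : Type*} {a : ι → K} (ha : AlgebraicIndependent k a)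
    (htop : IntermediateField.adjoin k (Set.range a) = ⊤) : IsTranscendenceBasis k a := by
  rw [ha.isTranscendenceBasis_iff_isAlgebraic]
  have h1 : Algebra.IsAlgebraic (IntermediateField.adjoin k (Set.range a)) K := by
    refine ⟨fun z => ?_⟩
    have hz : z ∈ IntermediateField.adjoin k (Set.range a) := by rw [htop]; trivial
    exact isAlgebraic_algebraMap (⟨z, hz⟩ : IntermediateField.adjoin k (Set.range a))
  open scoped IntermediateField.algebraAdjoinAdjoin in
  exact Algebra.IsAlgebraic.trans (Algebra.adjoin k (Set.range a))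
    (IntermediateField.adjoin k (Set.range a)) K

theorem hgen_of_top8 {ι : Type*} {a : ι → K} (htop : IntermediateField.adjoin k (Set.range a) = ⊤)
    {F : Type*} [Field F] [Algebra K F] [Algebra k F] [IsScalarTower k K F]
    (L : IntermediateField k F) (hL : ∀ i, algebraMap K F (a i) ∈ L) (z : K) :
    algebraMap K F z ∈ L := by
  have h1 : IntermediateField.adjoin k (Set.range a) ≤
      L.comap (IsScalarTower.toAlgHom k K F) := by
    rw [IntermediateField.adjoin_le_iff]
    rintro _ ⟨i, rfl⟩
    exact hL i
  rw [htop] at h1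
  exact h1 (IntermediateField.mem_top : z ∈ (⊤ : IntermediateField k K))

/-- A polynomial with algebraically independent coefficients: separability of the composite. -/
theorem sep_of_algInd8 {n : ℕ} {a : Fin (n + 1) → K} (ha : AlgebraicIndependent k a) {g : k[X]}
    (hg : g.natDegree ≠ 0) (hg' : derivative g ≠ 0) :
    ((polyOf8 a).comp (g.map (algebraMap k K))).Separable := by
  let K' := IntermediateField.adjoin k (Set.range a)
  let F' := AlgebraicClosure K'
  let a' : Fin (n + 1) → K' := fun i => ⟨a i, IntermediateField.subset_adjoin k _ ⟨i, rfl⟩⟩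
  have ha1 : AlgebraicIndependent k a' := by
    have h1 : (IntermediateField.val K') ∘ a' = a := rfl
    exact AlgebraicIndependent.of_comp (IntermediateField.val K') (by rw [h1]; exact ha)
  have htop : IntermediateField.adjoin k (Set.range a') = ⊤ := by
    rw [eq_top_iff]
    intro z _
    have h1 : (IntermediateField.adjoin k (Set.range a')).map (IntermediateField.val K') =
        K' := by
      rw [IntermediateField.adjoin_map, ← Set.range_comp]
      rfl
    have h2 : (z : K) ∈ (IntermediateField.adjoin k (Set.range a')).map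
        (IntermediateField.val K') := by
      rw [h1]; exact z.2
    obtain ⟨w, hw, hwz⟩ := h2
    have h3 : w = z := Subtype.ext hwz
    rw [← h3]
    exact hw
  have h1 := generic_sep8 (F := F') (basis_of_top8 ha1 htop) (hgen_of_top8 htop) hg hg'
  have h2 := h1.map (f := algebraMap K' K)
  rw [Polynomial.map_comp, Polynomial.map_map, ← IsScalarTower.algebraMap_eq] at h2
  have h3 : (polyOf8 a').map (algebraMap K' K) = polyOf8 a := by
    unfold polyOf8
    rw [Polynomial.map_sum]
    refine Finset.sum_congr rfl fun i _ => ?_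
    rw [Polynomial.map_mul, Polynomial.map_pow, map_X, map_C]
    rfl
  rwa [h3] at h2

theorem basis_of_gen8 {n : ℕ} {a y : Fin (n + 1) → K} (ha : IsTranscendenceBasis k a)
    (htop : IntermediateField.adjoin k (Set.range y) = ⊤) : IsTranscendenceBasis k y := by
  have h1 : Algebra.IsAlgebraic (IntermediateField.adjoin k (Set.range y)) K := by
    refine ⟨fun z => ?_⟩
    have hz : z ∈ IntermediateField.adjoin k (Set.range y) := by rw [htop]; trivial
    exact isAlgebraic_algebraMap (⟨z, hz⟩ : IntermediateField.adjoin k (Set.range y))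
  have h2 : Algebra.IsAlgebraic (Algebra.adjoin k (Set.range y)) K := by
    open scoped IntermediateField.algebraAdjoinAdjoin in
    exact Algebra.IsAlgebraic.trans (Algebra.adjoin k (Set.range y))
      (IntermediateField.adjoin k (Set.range y)) K
  refine Algebra.IsAlgebraic.isTranscendenceBasis_of_lift_le_trdeg_of_finite k y ?_
  rw [← ha.lift_cardinalMk_eq_trdeg]

/-- The coefficients of a composite with `X + c` lie in the field generated by those of the
polynomial. -/
theorem coeff_comp_mem8 (L : IntermediateField k K) {P : K[X]} (hP : ∀ i, P.coeff i ∈ L) (c : k)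
    (i : ℕ) : (P.comp (X + C (algebraMap k K c))).coeff i ∈ L := by
  have h1 : P ∈ Polynomial.lifts (algebraMap L K) := by
    rw [Polynomial.lifts_iff_coeff_lifts]
    intro i
    exact ⟨⟨P.coeff i, hP i⟩, rfl⟩
  obtain ⟨Q, hQ⟩ := (Polynomial.mem_lifts _).mp h1
  have h2 : P.comp (X + C (algebraMap k K c)) =
      (Q.comp (X + C (algebraMap k L c))).map (algebraMap L K) := by
    rw [Polynomial.map_comp, hQ, Polynomial.map_add, map_X, map_C]
    rfl
  rw [h2, coeff_map]
  exact (Q.comp (X + C (algebraMap k L c)) |>.coeff i).2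

theorem natDegree_polyOf_le8 {R : Type*} [CommRing R] {n : ℕ} (a : Fin (n + 1) → R) :
    (polyOf8 a).natDegree ≤ n := by
  unfold polyOf8
  refine natDegree_sum_le_of_forall_le _ _ fun i _ => ?_
  exact (natDegree_C_mul_X_pow_le _ _).trans (Nat.le_of_lt_succ i.2)

theorem coeff_polyOf_lt8 {R : Type*} [CommRing R] {n : ℕ} (a : Fin (n + 1) → R) {i : ℕ}
    (hi : n < i) : (polyOf8 a).coeff i = 0 :=
  coeff_eq_zero_of_natDegree_lt (lt_of_le_of_lt (natDegree_polyOf_le8 a) hi)

/-- The Taylor coefficients of the generic polynomial, the second one divided by the first. -/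
theorem exists_taylor8 {n : ℕ} {a : Fin (n + 2) → K} (ha : IsTranscendenceBasis k a)
    (htop : IntermediateField.adjoin k (Set.range a) = ⊤) (t : k) :
    ∃ y : Fin (n + 2) → K, IsTranscendenceBasis k y ∧
      IntermediateField.adjoin k (Set.range y) = ⊤ ∧
      polyOf8 a = (polyOf8 (Function.update y 1 (y 1 * y 0))).comp
        (X - C (algebraMap k K t)) := by
  set E := (polyOf8 a).comp (X + C (algebraMap k K t)) with hE
  have hEn : E.natDegree ≤ n + 1 := by
    rw [hE, natDegree_comp, natDegree_X_add_C, mul_one]
    exact natDegree_polyOf_le8 a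
  let c : Fin (n + 2) → K := fun i => E.coeff i
  have hEc : polyOf8 c = E := polyOf_coeff8 hEn
  have hDE : polyOf8 a = (polyOf8 c).comp (X - C (algebraMap k K t)) := by
    rw [hEc, hE, comp_assoc]
    simp
  have hctop : IntermediateField.adjoin k (Set.range c) = ⊤ := by
    rw [eq_top_iff, ← htop, IntermediateField.adjoin_le_iff]
    rintro _ ⟨i, rfl⟩
    have h1 : a i = (polyOf8 a).coeff i := (coeff_polyOf8 a i).symm
    have h2 : (X - C (algebraMap k K t) : K[X]) = X + C (algebraMap k K (-t)) := by
      rw [map_neg, C_neg, sub_eq_add_neg]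
    rw [h1, hDE, h2]
    apply coeff_comp_mem8
    intro j
    by_cases hj : j ≤ n + 1
    · have h3 : (polyOf8 c).coeff j = c ⟨j, by omega⟩ := coeff_polyOf8 c ⟨j, by omega⟩
      rw [h3]
      exact IntermediateField.subset_adjoin k _ ⟨_, rfl⟩
    · rw [coeff_polyOf_lt8 c (by omega)]
      exact zero_mem _
  have hcb : IsTranscendenceBasis k c := basis_of_gen8 ha hctop
  have hc0 : c 0 ≠ 0 := hcb.1.ne_zero 0
  let y : Fin (n + 2) → K := Function.update c 1 (c 1 / c 0)
  have hy0 : y 0 = c 0 := Function.update_of_ne (by simp : (0 : Fin (n + 2)) ≠ 1) _ _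
  have hy1 : y 1 = c 1 / c 0 := Function.update_self _ _ _
  have hyc : Function.update y 1 (y 1 * y 0) = c := by
    funext i
    by_cases hi : i = 1
    · rw [hi, Function.update_self, hy1, hy0, div_mul_cancel₀ _ hc0]
    · rw [Function.update_of_ne hi]
      exact Function.update_of_ne hi _ _
  have hytop : IntermediateField.adjoin k (Set.range y) = ⊤ := by
    rw [eq_top_iff, ← hctop, IntermediateField.adjoin_le_iff]
    rintro _ ⟨i, rfl⟩
    have hym : ∀ i, y i ∈ IntermediateField.adjoin k (Set.range y) := fun i =>
      IntermediateField.subset_adjoin k _ ⟨i, rfl⟩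
    rw [← hyc]
    by_cases hi : i = 1
    · rw [hi, Function.update_self]
      exact mul_mem (hym 1) (hym 0)
    · rw [Function.update_of_ne hi]
      exact hym i
  exact ⟨y, basis_of_gen8 ha hytop, hytop, by rw [hyc]; exact hDE⟩

end

section Loc

variable {k : Type u} [Field k] {n : ℕ}

/-- The ideal generated by the first variable. -/
noncomputable def idealX8 (k : Type u) [Field k] (n : ℕ) : Ideal (MvPolynomial (Fin (n + 1)) k) :=
  Ideal.span {MvPolynomial.X 0}

instance isPrime_idealX8 : (idealX8 k n).IsPrime :=
  (Ideal.span_singleton_prime (MvPolynomial.X_ne_zero 0)).mpr MvPolynomial.X_prime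

/-- The localisation at the first variable. -/
abbrev LocX8 (k : Type u) [Field k] (n : ℕ) : Type u := Localization.AtPrime (idealX8 k n)

theorem maximalIdeal_LocX8 : IsLocalRing.maximalIdeal (LocX8 k n) =
    Ideal.span {algebraMap (MvPolynomial (Fin (n + 1)) k) (LocX8 k n) (MvPolynomial.X 0)} := by
  rw [← IsLocalization.AtPrime.map_eq_maximalIdeal (idealX8 k n) (LocX8 k n)]
  show Ideal.map _ (Ideal.span {MvPolynomial.X 0}) = _
  rw [Ideal.map_span, Set.image_singleton]

theorem inj_LocX8 : Function.Injective
    (algebraMap (MvPolynomial (Fin (n + 1)) k) (LocX8 k n)) :=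
  IsLocalization.injective (LocX8 k n)
    (Ideal.primeCompl_le_nonZeroDivisors (idealX8 k n))

instance isDVR_LocX8 : IsDiscreteValuationRing (LocX8 k n) := by
  have hN : IsNoetherianRing (LocX8 k n) :=
    IsLocalization.isNoetherianRing (idealX8 k n).primeCompl _ inferInstance
  have hX : algebraMap (MvPolynomial (Fin (n + 1)) k) (LocX8 k n) (MvPolynomial.X 0) ≠ 0 := by
    rw [Ne, map_eq_zero_iff _ inj_LocX8]
    exact MvPolynomial.X_ne_zero 0
  have hF : ¬ IsField (LocX8 k n) := by
    rw [IsLocalRing.isField_iff_maximalIdeal_eq, maximalIdeal_LocX8, Ideal.span_singleton_eq_bot]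
    exact hX
  have h1 := (IsDiscreteValuationRing.TFAE (LocX8 k n) hF).out 4 0
  rw [← h1, maximalIdeal_LocX8]
  exact ⟨⟨_, rfl⟩⟩

theorem mem_idealX8 (p : MvPolynomial (Fin (n + 1)) k)
    (hp : algebraMap (MvPolynomial (Fin (n + 1)) k) (LocX8 k n) p ∈
      IsLocalRing.maximalIdeal (LocX8 k n)) : MvPolynomial.X 0 ∣ p := by
  rw [← Ideal.mem_span_singleton]
  exact (IsLocalization.AtPrime.to_map_mem_maximal_iff (LocX8 k n) (idealX8 k n) p).mp hp

end Loc

end Pool.Agent.Lib.MP_89bcae_ag
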