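import Mathlib
import Pool.Agent.Lib.MP_89bcae_ag.GenB8

/-!
# The generic polynomial: a simple collision (continued)
-/

open Polynomial

open scoped Classical

set_option linter.unusedSimpArgs false
set_option linter.unusedVariables false
set_option linter.unusedSectionVars false
set_option linter.style.haveILetI false

namespace Pool.Agent.Lib.MP_89bcae_ag

universe u

section

variable {R : Type*} [CommRing R]

theorem polyOf_map8 {S : Type*} [CommRing S] (f : R →+* S) {n : ℕ} (a : Fin (n + 1) → R) :
    (polyOf8 a).map f = polyOf8 (fun i => f (a i)) := by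
  unfold polyOf8
  rw [Polynomial.map_sum]
  refine Finset.sum_congr rfl fun i _ => ?_
  rw [Polynomial.map_mul, Polynomial.map_pow, map_X, map_C]

/-- A polynomial whose first two coefficients are zero. -/
theorem polyOf_succ_succ8 {m : ℕ} (a : Fin (m + 3) → R) (h0 : a 0 = 0) (h1 : a 1 = 0) :
    polyOf8 a = X ^ 2 * polyOf8 (fun i : Fin (m + 1) => a i.succ.succ) := by
  unfold polyOf8
  rw [Fin.sum_univ_succ, Fin.sum_univ_succ, Finset.mul_sum]
  have h1' : a (Fin.succ 0) = 0 := h1
  rw [h0, h1', C_0, zero_mul, zero_mul, zero_add, zero_add]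
  refine Finset.sum_congr rfl fun i _ => ?_
  rw [Fin.val_succ, Fin.val_succ]
  ring

theorem polyOf_succ8 {m : ℕ} (a : Fin (m + 1) → R) :
    ∃ q : R[X], polyOf8 a = C (a 0) + X * q := by
  refine ⟨∑ i : Fin m, C (a i.succ) * X ^ (i : ℕ), ?_⟩
  unfold polyOf8
  rw [Fin.sum_univ_succ, Finset.mul_sum]
  congr 1
  · simp
  · refine Finset.sum_congr rfl fun i _ => ?_
    rw [Fin.val_succ]
    ring

end

section

variable {k κ : Type*} [Field k] [Field κ] [Algebra k κ]

/-- Separability of `((t - t₀) h)(g(x))`. -/
theorem sep_mul8 {m : ℕ} {e : Fin (m + 1) → κ} (he : AlgebraicIndependent k e) {g : k[X]}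
    (hg : g.natDegree ≠ 0) (hg' : derivative g ≠ 0) {t : k} (ht : (g - C t).Separable) :
    (((X - C (algebraMap k κ t)) * (polyOf8 e).comp (X - C (algebraMap k κ t))).comp
      (g.map (algebraMap k κ))).Separable := by
  have h1 : ((X - C (algebraMap k κ t)) * (polyOf8 e).comp (X - C (algebraMap k κ t))).comp
      (g.map (algebraMap k κ)) = (g - C t).map (algebraMap k κ) *
        (polyOf8 e).comp ((g - C t).map (algebraMap k κ)) := by
    rw [mul_comp, comp_assoc, sub_comp, X_comp, C_comp, Polynomial.map_sub, map_C]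
  rw [h1]
  have h2 := sep_of_algInd8 (g := g - C t) he (by rwa [natDegree_sub_C])
    (by rwa [derivative_sub, derivative_C, sub_zero])
  refine ht.map.mul h2 ?_
  obtain ⟨q, hq⟩ := polyOf_succ8 e
  rw [hq, add_comp, C_comp, mul_comp, X_comp]
  have h0 : e 0 ≠ 0 := he.ne_zero 0
  have h3 : IsCoprime ((g - C t).map (algebraMap k κ)) (C (e 0)) :=
    ⟨0, C (e 0)⁻¹, by rw [zero_mul, zero_add, ← C_mul, inv_mul_cancel₀ h0, C_1]⟩
  exact h3.add_mul_left_right _

end

section

variable {k K : Type u} [Field k] [Field K] [Algebra k K]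

/-- The residues of the variables are algebraically independent. -/
theorem algInd_residue8 {m : ℕ} : AlgebraicIndependent k (fun i : Fin (m + 1) =>
    IsLocalRing.residue (LocX8 k (m + 2)) (algebraMap (MvPolynomial (Fin (m + 3)) k)
      (LocX8 k (m + 2)) (MvPolynomial.X i.succ.succ))) := by
  rw [algebraicIndependent_iff]
  intro p hp
  have h1 : MvPolynomial.aeval (fun i : Fin (m + 1) =>
      IsLocalRing.residue (LocX8 k (m + 2)) (algebraMap (MvPolynomial (Fin (m + 3)) k)
        (LocX8 k (m + 2)) (MvPolynomial.X i.succ.succ))) p =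
      IsLocalRing.residue (LocX8 k (m + 2)) (algebraMap (MvPolynomial (Fin (m + 3)) k)
        (LocX8 k (m + 2)) (MvPolynomial.rename (fun i : Fin (m + 1) => i.succ.succ) p)) := by
    have h2 : MvPolynomial.aeval (R := k) (fun i : Fin (m + 1) =>
      IsLocalRing.residue (LocX8 k (m + 2)) (algebraMap (MvPolynomial (Fin (m + 3)) k)
        (LocX8 k (m + 2)) (MvPolynomial.X i.succ.succ))) =
        ((IsScalarTower.toAlgHom k (LocX8 k (m + 2))
          (IsLocalRing.ResidueField (LocX8 k (m + 2)))).comp
          (IsScalarTower.toAlgHom k (MvPolynomial (Fin (m + 3)) k) (LocX8 k (m + 2)))).comp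
            (MvPolynomial.rename (fun i : Fin (m + 1) => (i.succ.succ : Fin (m + 3)))) := by
      ext i
      simp
    rw [h2]
    rfl
  rw [h1, IsLocalRing.residue_eq_zero_iff] at hp
  obtain ⟨q, hq⟩ := mem_idealX8 _ hp
  -- the evaluation
  let ev : MvPolynomial (Fin (m + 3)) k →ₐ[k] MvPolynomial (Fin (m + 1)) k :=
    MvPolynomial.aeval (Fin.cons 0 (Fin.cons 0 fun i => MvPolynomial.X i))
  have h3 : ev (MvPolynomial.rename (fun i : Fin (m + 1) => (i.succ.succ : Fin (m + 3))) p) = p := by
    have h4 : ev.comp (MvPolynomial.rename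
        (fun i : Fin (m + 1) => (i.succ.succ : Fin (m + 3)))) = AlgHom.id k _ := by
      ext i
      simp [ev]
    exact congrArg (fun f => f p) h4
  rw [← h3, hq, map_mul]
  have h5 : ev (MvPolynomial.X 0) = 0 := by simp [ev]
  rw [h5, zero_mul]

/-- **The generic polynomial has a simple collision over a discrete valuation ring.** -/
theorem exists_collision8 {m : ℕ} {a : Fin (m + 3) → K} (ha : IsTranscendenceBasis k a)
    (htop : IntermediateField.adjoin k (Set.range a) = ⊤) {g : k[X]} (hg : g.natDegree ≠ 0)
    (hg' : derivative g ≠ 0) {t : k} (ht : (g - C t).Separable) :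
    ∃ (R : Type u) (_ : CommRing R) (_ : IsDomain R) (_ : IsDiscreteValuationRing R)
      (_ : Algebra k R) (_ : Algebra R K) (_ : IsScalarTower k R K) (_ : IsFractionRing R K)
      (DR : R[X]), DR.map (algebraMap R K) = polyOf8 a ∧ IsUnit DR.leadingCoeff ∧
        DR.natDegree = m + 2 ∧ IsCollision7 (g.map (algebraMap k R)) DR := by
  obtain ⟨y, hy, hytop, hD⟩ := exists_taylor8 (n := m + 1) ha htop t
  let P := MvPolynomial (Fin (m + 3)) k
  let R := LocX8 k (m + 2)
  let ψ : P →ₐ[k] K := MvPolynomial.aeval y
  have hψ : Function.Injective ψ := hy.1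
  letI : Algebra P K := ψ.toRingHom.toAlgebra
  have hPK : ∀ p : P, algebraMap P K p = ψ p := fun p => rfl
  have : IsScalarTower k P K := IsScalarTower.of_algebraMap_eq fun c => (ψ.commutes c).symm
  have : FaithfulSMul P K := (faithfulSMul_iff_algebraMap_injective P K).mpr hψ
  have hfr : IsFractionRing P K := by
    refine IsFractionRing.of_field P K fun z => ?_
    have hz : z ∈ IntermediateField.adjoin k (Set.range y) := by rw [hytop]; trivial
    obtain ⟨r, hr, s, hs, hrs⟩ := IntermediateField.mem_adjoin_iff_div.mp hz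
    rw [Algebra.adjoin_range_eq_range_aeval] at hr hs
    obtain ⟨r', hr'⟩ := hr
    obtain ⟨s', hs'⟩ := hs
    exact ⟨r', s', by rw [hPK, hPK, hrs, ← hr', ← hs']; rfl⟩
  have hunit : ∀ s : (idealX8 k (m + 2)).primeCompl, IsUnit (ψ.toRingHom (s : P)) := by
    intro s
    rw [isUnit_iff_ne_zero]
    have h1 : (s : P) ≠ 0 := fun h => s.2 (by rw [h]; exact zero_mem _)
    exact (map_ne_zero_iff _ hψ).mpr h1
  let φ : R →+* K := IsLocalization.lift (M := (idealX8 k (m + 2)).primeCompl) hunit
  letI : Algebra R K := φ.toAlgebra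
  have hRK : ∀ p : P, algebraMap R K (algebraMap P R p) = ψ p := fun p =>
    IsLocalization.lift_eq hunit p
  have h1 : IsScalarTower P R K := IsScalarTower.of_algebraMap_eq fun p => (hRK p).symm
  have h2 : IsScalarTower k R K := IsScalarTower.of_algebraMap_eq fun c => by
    rw [IsScalarTower.algebraMap_apply k P R, hRK, ψ.commutes]
  have h3 : IsFractionRing R K :=
    IsFractionRing.isFractionRing_of_isDomain_of_isLocalization
      (idealX8 k (m + 2)).primeCompl R K
  obtain ⟨d, hddef⟩ : ∃ d : Fin (m + 3) → P, d = Function.update (fun i => MvPolynomial.X i) 1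
    (MvPolynomial.X 1 * MvPolynomial.X 0) := ⟨_, rfl⟩
  have hne1 : ∀ i : Fin (m + 1), (i.succ.succ : Fin (m + 3)) ≠ 1 := by
    intro i h
    have h5 := congrArg Fin.val h
    rw [Fin.val_succ, Fin.val_succ, Fin.val_one] at h5
    omega
  let dR : Fin (m + 3) → R := fun i => algebraMap P R (d i)
  have hψd : ∀ i, ψ (d i) = Function.update y 1 (y 1 * y 0) i := by
    intro i
    by_cases hi : i = 1
    · rw [hi, Function.update_self, hddef, Function.update_self, map_mul,
        MvPolynomial.aeval_X, MvPolynomial.aeval_X]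
    · rw [Function.update_of_ne hi, hddef, Function.update_of_ne hi, MvPolynomial.aeval_X]
  have hd0 : d 0 = MvPolynomial.X 0 := by
    rw [hddef, Function.update_of_ne (by simp : (0 : Fin (m + 3)) ≠ 1)]
  have hd1 : d 1 = MvPolynomial.X 1 * MvPolynomial.X 0 := by
    rw [hddef, Function.update_self]
  have hd2 : ∀ i : Fin (m + 1), d i.succ.succ = MvPolynomial.X i.succ.succ := fun i => by
    rw [hddef, Function.update_of_ne (hne1 i)]
  have hlast : (Fin.last (m + 2)) = (Fin.last m).succ.succ := rfl
  let DR : R[X] := (polyOf8 dR).comp (X - C (algebraMap k R t))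
  -- the leading coefficient
  have hXn : IsUnit (dR (Fin.last (m + 2))) := by
    by_contra hcon
    have h5 : dR (Fin.last (m + 2)) ∈ IsLocalRing.maximalIdeal R := by
      rwa [IsLocalRing.mem_maximalIdeal, mem_nonunits_iff]
    have h6 := mem_idealX8 _ h5
    rw [hlast, hd2] at h6
    rw [MvPolynomial.X_dvd_X] at h6
    have h7 := congrArg Fin.val h6
    rw [Fin.val_zero, Fin.val_succ, Fin.val_succ] at h7
    omega
  have hdegp : (polyOf8 dR).natDegree = m + 2 := by
    refine le_antisymm (natDegree_polyOf_le8 dR) (le_natDegree_of_ne_zero ?_)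
    have h5 : (polyOf8 dR).coeff (m + 2) = dR (Fin.last (m + 2)) :=
      coeff_polyOf8 dR (Fin.last (m + 2))
    rw [h5]
    exact hXn.ne_zero
  have hlc : (polyOf8 dR).leadingCoeff = dR (Fin.last (m + 2)) := by
    rw [leadingCoeff, hdegp]
    exact coeff_polyOf8 dR (Fin.last (m + 2))
  refine ⟨R, inferInstance, inferInstance, isDVR_LocX8, inferInstance, inferInstance, h2, h3, DR,
    ?_, ?_, ?_, ?_⟩
  · rw [hD, Polynomial.map_comp, polyOf_map8, Polynomial.map_sub, map_X, map_C,
      ← IsScalarTower.algebraMap_apply k R K]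
    congr 2
    funext i
    rw [← hψd]
    exact hRK (d i)
  · rw [leadingCoeff_comp (by rw [natDegree_X_sub_C]; norm_num), leadingCoeff_X_sub_C, one_pow,
      mul_one, hlc]
    exact hXn
  · rw [natDegree_comp, natDegree_X_sub_C, mul_one, hdegp]
  · -- the collision
    have hres0 : IsLocalRing.residue R (dR 0) = 0 := by
      rw [IsLocalRing.residue_eq_zero_iff, maximalIdeal_LocX8]
      show algebraMap P R (d 0) ∈ _
      rw [hd0]
      exact Ideal.mem_span_singleton_self _
    have hres1 : IsLocalRing.residue R (dR 1) = 0 := by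
      show IsLocalRing.residue R (algebraMap P R (d 1)) = 0
      rw [hd1, map_mul, map_mul]
      have h5 : IsLocalRing.residue R (algebraMap P R (MvPolynomial.X 0)) = 0 := by
        rw [← hd0]; exact hres0
      rw [h5, mul_zero]
    have hrest : IsLocalRing.residue R (algebraMap k R t) =
        algebraMap k (IsLocalRing.ResidueField R) t := rfl
    refine ⟨algebraMap k R t, (polyOf8 fun i : Fin (m + 1) =>
      IsLocalRing.residue R (algebraMap P R (MvPolynomial.X i.succ.succ))).comp
        (X - C (IsLocalRing.residue R (algebraMap k R t))), ?_, ?_, ?_⟩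
    · rw [Polynomial.map_comp, polyOf_map8, Polynomial.map_sub, map_X, map_C,
        polyOf_succ_succ8 _ hres0 hres1, mul_comp, pow_comp, X_comp]
      congr 3
      funext i
      show IsLocalRing.residue R (algebraMap P R (d i.succ.succ)) = _
      rw [hd2]
    · rw [hrest, Polynomial.map_map]
      have h5 : (IsLocalRing.residue R).comp (algebraMap k R) =
          algebraMap k (IsLocalRing.ResidueField R) := rfl
      rw [h5]
      exact sep_mul8 algInd_residue8 hg hg' ht
    · have h5 : DR.eval (algebraMap k R t) = algebraMap P R (MvPolynomial.X 0) := by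
        show ((polyOf8 dR).comp (X - C (algebraMap k R t))).eval (algebraMap k R t) = _
        rw [eval_comp, eval_sub, eval_X, eval_C, sub_self, ← coeff_zero_eq_eval_zero]
        have h6 : (polyOf8 dR).coeff 0 = dR 0 := coeff_polyOf8 dR 0
        rw [h6]
        show algebraMap P R (d 0) = _
        rw [hd0]
      rw [h5, maximalIdeal_LocX8, Ideal.span_singleton_pow, Ideal.mem_span_singleton]
      rintro ⟨q, hq⟩
      have h6 : algebraMap P R (MvPolynomial.X 0) ≠ 0 := by
        rw [Ne, map_eq_zero_iff _ inj_LocX8]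
        exact MvPolynomial.X_ne_zero 0
      have h7 : 1 = algebraMap P R (MvPolynomial.X 0) * q := by
        apply mul_left_cancel₀ h6
        rw [mul_one, ← mul_assoc, ← sq]
        exact hq
      have h8 : algebraMap P R (MvPolynomial.X 0) ∈ IsLocalRing.maximalIdeal R := by
        rw [maximalIdeal_LocX8]
        exact Ideal.mem_span_singleton_self _
      exact (IsLocalRing.mem_maximalIdeal _).mp h8 (IsUnit.of_mul_eq_one _ h7.symm)

end

end Pool.Agent.Lib.MP_89bcae_ag
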