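import Mathlib
import Pool.Agent.Lib.MP_89bcae_ag.PtDiv8

/-!
# Kummer duality: automorphisms with prescribed actions on square roots
-/

open Polynomial

open scoped Classical

set_option linter.unusedSimpArgs false
set_option linter.unusedVariables false
set_option linter.unusedSectionVars false

namespace Pool.Agent.Lib.MP_89bcae_ag

/-- The sign of the action on the square roots of `x`. -/
noncomputable def sg8 {F : Type*} [Field F] (U : F → F) (x : F) : ZMod 2 :=
  if Moves U x then 1 else 0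

theorem exists_U_of_symb8 {k F : Type*} [Field k] [Field F] [Algebra k F] [IsAlgClosed F]
    [Algebra.IsAlgebraic k F] (h2 : (2 : k) ≠ 0) (K : IntermediateField k F) (lam : F → ZMod 2)
    (hmul : ∀ x ∈ K, ∀ y ∈ K, x ≠ 0 → y ≠ 0 → lam (x * y) = lam x + lam y) (T : Finset F)
    (hT : ∀ x ∈ T, x ∈ K ∧ x ≠ 0) :
    ∃ U : F ≃ₐ[k] F, (∀ x ∈ K, U x = x) ∧ ∀ x ∈ T, (Moves U x ↔ lam x = 1) := by
  have h2F : (2 : F) ≠ 0 := by
    have h1 : algebraMap k F 2 ≠ 0 := (_root_.map_ne_zero _).mpr h2
    rwa [map_ofNat] at h1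
  -- square roots
  have hsq : ∀ x : F, ∃ s : F, s ^ 2 = x := fun x => IsAlgClosed.exists_pow_nat_eq x two_pos
  choose rt hrt using hsq
  have hneg : ∀ (V : F ≃ₐ[k] F) (x : F), x ≠ 0 → V x = x →
      (Moves V x ↔ V (rt x) = -rt x) ∧ (¬ Moves V x ↔ V (rt x) = rt x) := by
    intro V x hx hV
    exact moves_iff_neg (τ := ((V : F ≃+* F) : F →+* F)) h2F hx hV (hrt x)
  have hsgn : ∀ (V : F ≃ₐ[k] F) (x : F), x ≠ 0 → V x = x →
      V (rt x) = (-1) ^ (sg8 V x).val * rt x := by
    intro V x hx hV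
    unfold sg8
    by_cases h : Moves V x
    · rw [if_pos h, ((hneg V x hx hV).1).mp h]
      have : (1 : ZMod 2).val = 1 := rfl
      rw [this, pow_one, neg_one_mul]
    · rw [if_neg h, ((hneg V x hx hV).2).mp h]
      have : (0 : ZMod 2).val = 0 := rfl
      rw [this, pow_zero, one_mul]
  have hrt0 : ∀ x, x ≠ 0 → rt x ≠ 0 := by
    intro x hx h0
    have := hrt x
    rw [h0] at this
    exact hx (by rw [← this]; ring)
  have hne1 : (-1 : F) ≠ 1 := by
    intro h
    apply h2F
    linear_combination -h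
  have hinj : ∀ a b : ZMod 2, (-1 : F) ^ a.val = (-1) ^ b.val → a = b := by
    have h0 : (0 : ZMod 2).val = 0 := rfl
    have h1 : (1 : ZMod 2).val = 1 := rfl
    have h3 : ∀ a : ZMod 2, a = 0 ∨ a = 1 := by decide
    intro a b h
    rcases h3 a with rfl | rfl <;> rcases h3 b with rfl | rfl
    · rfl
    · rw [h0, h1, pow_zero, pow_one] at h
      exact absurd h.symm hne1
    · rw [h0, h1, pow_zero, pow_one] at h
      exact absurd h hne1
    · rfl
  have hpow : ∀ a b : ZMod 2, (-1 : F) ^ (a + b).val = (-1) ^ a.val * (-1) ^ b.val := by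
    have h0 : (0 : ZMod 2).val = 0 := rfl
    have h1 : (1 : ZMod 2).val = 1 := rfl
    have h3 : ∀ a : ZMod 2, a = 0 ∨ a = 1 := by decide
    intro a b
    rcases h3 a with rfl | rfl <;> rcases h3 b with rfl | rfl
    · simp
    · simp [h1]
    · simp [h1]
    · have : (1 : ZMod 2) + 1 = 0 := by decide
      rw [this, h0, h1]; norm_num
  have hsg_mul : ∀ (V W : F ≃ₐ[k] F) (x : F), x ≠ 0 → V x = x → W x = x →
      sg8 (V * W : F ≃ₐ[k] F) x = sg8 V x + sg8 W x := by
    intro V W x hx hV hW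
    apply hinj
    have h1 : (V * W : F ≃ₐ[k] F) x = x := by rw [AlgEquiv.mul_apply, hW, hV]
    have h3 := hsgn (V * W) x hx h1
    rw [AlgEquiv.mul_apply, hsgn W x hx hW, map_mul, map_pow, map_neg, map_one,
      hsgn V x hx hV] at h3
    rw [hpow]
    apply mul_right_cancel₀ (hrt0 x hx)
    rw [← h3]; ring
  -- the space of the sign vectors
  let H : Submodule (ZMod 2) (T → ZMod 2) :=
    { carrier := {h | ∃ V : F ≃ₐ[k] F, (∀ x ∈ K, V x = x) ∧ ∀ x : T, h x = sg8 V (x : F)}
      zero_mem' := by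
        refine ⟨1, fun x _ => rfl, fun x => ?_⟩
        have h1 : sg8 (1 : F ≃ₐ[k] F) (x : F) = 0 := by
          unfold sg8
          rw [if_neg]
          rw [(hneg 1 _ (hT x x.2).2 rfl).2]
          rfl
        rw [h1]; rfl
      add_mem' := by
        rintro a b ⟨V, hV, hVa⟩ ⟨W, hW, hWb⟩
        refine ⟨V * W, fun x hx => by rw [AlgEquiv.mul_apply, hW x hx, hV x hx], fun x => ?_⟩
        rw [hsg_mul V W _ (hT x x.2).2 (hV _ (hT x x.2).1) (hW _ (hT x x.2).1), Pi.add_apply,
          hVa, hWb]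
      smul_mem' := by
        have h3 : ∀ a : ZMod 2, a = 0 ∨ a = 1 := by decide
        rintro c h ⟨V, hV, hVh⟩
        rcases h3 c with rfl | rfl
        · refine ⟨1, fun x _ => rfl, fun x => ?_⟩
          have h1 : sg8 (1 : F ≃ₐ[k] F) (x : F) = 0 := by
            unfold sg8
            rw [if_neg]
            rw [(hneg 1 _ (hT x x.2).2 rfl).2]
            rfl
          rw [h1, zero_smul]; rfl
        · exact ⟨V, hV, fun x => by rw [one_smul, hVh]⟩ }
  by_cases hmem : (fun x : T => lam (x : F)) ∈ H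
  · obtain ⟨U, hU, hUx⟩ := hmem
    refine ⟨U, hU, fun x hx => ?_⟩
    have h1 := hUx ⟨x, hx⟩
    change lam x = sg8 U x at h1
    rw [h1]
    unfold sg8
    by_cases h : Moves U x
    · simp [h]
    · simp [h]
  · exfalso
    obtain ⟨f, hf1, hf2⟩ := Submodule.exists_le_ker_of_notMem hmem
    -- the coordinates of `f`
    have hcoord : ∀ v : T → ZMod 2, f v = ∑ x : T, v x * f (Pi.single x 1) := by
      intro v
      conv_lhs => rw [pi_eq_sum_univ v, map_sum]
      refine Finset.sum_congr rfl fun x _ => ?_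
      rw [map_smul, smul_eq_mul]
      congr 2
      ext y
      rw [Pi.single_apply]
      exact if_congr eq_comm rfl rfl
    set I : Finset T := Finset.univ.filter fun x => f (Pi.single x 1) = 1 with hI
    have hcoord' : ∀ v : T → ZMod 2, f v = ∑ x ∈ I, v x := by
      intro v
      rw [hcoord, hI, Finset.sum_filter]
      refine Finset.sum_congr rfl fun x _ => ?_
      have h3 : ∀ a b : ZMod 2, b * a = if a = 1 then b else 0 := by decide
      exact h3 _ _
    -- the product of the square roots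
    have hprod : ∀ V : F ≃ₐ[k] F, (∀ x ∈ K, V x = x) →
        V (∏ x ∈ I, rt (x : F)) = ∏ x ∈ I, rt (x : F) := by
      intro V hV
      have h1 : ∀ J : Finset T, V (∏ x ∈ J, rt (x : F)) =
          (-1) ^ (∑ x ∈ J, sg8 V (x : F)).val * ∏ x ∈ J, rt (x : F) := by
        intro J
        induction J using Finset.induction_on with
        | empty => simp
        | insert a J ha ih =>
          rw [Finset.prod_insert ha, Finset.sum_insert ha, map_mul, ih, hpow,
            hsgn V _ (hT a a.2).2 (hV _ (hT a a.2).1)]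
          ring
      have h3 : (fun x : T => sg8 V (x : F)) ∈ H := ⟨V, hV, fun x => rfl⟩
      have h4 := hf2 h3
      rw [LinearMap.mem_ker, hcoord'] at h4
      rw [h1, h4]
      simp
    have hzK : (∏ x ∈ I, rt (x : F)) ^ 2 = ∏ x ∈ I, (x : F) := by
      rw [← Finset.prod_pow]
      exact Finset.prod_congr rfl fun x _ => hrt _
    have hcK : ∏ x ∈ I, (x : F) ∈ K := prod_mem fun x _ => (hT x x.2).1
    have hc0 : ∏ x ∈ I, (x : F) ≠ 0 := Finset.prod_ne_zero_iff.mpr fun x _ => (hT x x.2).2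
    have hz0 : ∏ x ∈ I, rt (x : F) ≠ 0 :=
      Finset.prod_ne_zero_iff.mpr fun x _ => hrt0 _ (hT x x.2).2
    obtain ⟨s, hsK, hs⟩ : ∃ s ∈ K, s ^ 2 = ∏ x ∈ I, (x : F) := by
      by_contra hcon
      push Not at hcon
      obtain ⟨τ, hτ1, hτ2⟩ := exists_moving K hcK hzK hcon
      rw [hprod τ hτ1] at hτ2
      have h3 : (2 : F) * ∏ x ∈ I, rt (x : F) = 0 := by linear_combination hτ2
      rcases mul_eq_zero.mp h3 with h | h
      · exact h2F h
      · exact hz0 h
    have hlam2 : lam (∏ x ∈ I, (x : F)) = 0 := by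
      have hs0 : s ≠ 0 := by
        rintro rfl
        exact hc0 (by rw [← hs]; ring)
      rw [← hs, sq, hmul s hsK s hsK hs0 hs0]
      have h3 : ∀ a : ZMod 2, a + a = 0 := by decide
      exact h3 _
    have hlamI : ∀ J : Finset T, (∏ x ∈ J, (x : F) ∈ K ∧ ∏ x ∈ J, (x : F) ≠ 0) ∧
        lam (∏ x ∈ J, (x : F)) = ∑ x ∈ J, lam (x : F) := by
      have h1 : lam 1 = 0 := by
        have := hmul 1 K.one_mem 1 K.one_mem one_ne_zero one_ne_zero
        rw [one_mul] at this
        have h2 : ∀ t : ZMod 2, t = t + t → t = 0 := by decide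
        exact h2 _ this
      intro J
      induction J using Finset.induction_on with
      | empty => simp [h1, K.one_mem]
      | insert a J ha ih =>
        rw [Finset.prod_insert ha, Finset.sum_insert ha]
        exact ⟨⟨K.mul_mem (hT a a.2).1 ih.1.1, mul_ne_zero (hT a a.2).2 ih.1.2⟩, by
          rw [hmul _ (hT a a.2).1 _ ih.1.1 (hT a a.2).2 ih.1.2, ih.2]⟩
    apply hf1
    rw [hcoord', ← (hlamI I).2, hlam2]

end Pool.Agent.Lib.MP_89bcae_ag
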