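import Mathlib
import Pool.Agent.Lib.MP_89bcae_ag.Grad8

/-!
# A variant of the lemma on automorphisms of a module over a two-power cyclotomic ring
-/

namespace PoolMP89Grad8

open Polynomial

variable {W : Type*} [AddCommGroup W]

/-- **The lemma**, with the third condition only for `u = 3` modulo `4`. -/
theorem pow_apply_ne7 {τ U V : Module.End ℤ W} (htf : ∀ w : W, w + w = 0 → w = 0) {k : ℕ} (hk : 1 ≤ k)
    (hτ : τ ^ (2 ^ k) = -1) {u : ℕ} (hu : Odd u) (hU : U * τ = τ ^ u * U) (hV : U = 1 + (1 - τ) * V)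
    (hsep : ∀ w : W, (∀ i, O τ i w) → w = 0) (h0 : Inj τ V) (h1 : Inj τ (V + 1))
    (h2 : u % 4 = 3 → Inj τ (V * V + V + 1)) {M : ℕ} (hM : 0 < M) {w : W} (hw : w ≠ 0) : (U ^ M) w ≠ w := by
  obtain ⟨c, rfl⟩ := hu
  have hSU := sy_U hk hτ hU hV
  have htwo : ∀ w : W, O τ 1 (w + w) := fun w => (O.of_two hk hτ w).mono (by norm_num)
  set T : Module.End ℤ W := U * U with hT
  -- the symbol of `T - 1`
  have hT1 : T - 1 = (U - 1) * (U - 1) + 2 * (U - 1) := by
    rw [hT, sub_mul, mul_sub, two_mul]; simp only [mul_one, one_mul]; abel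
  have hek : 2 ≤ 2 ^ k := by
    calc 2 = 2 ^ 1 := rfl
      _ ≤ 2 ^ k := Nat.pow_le_pow_right (by norm_num) hk
  obtain ⟨B, hB, hB0, hB1⟩ : ∃ B : Module.End ℤ W, Sy τ (T - 1) 2 (fun _ => B) ∧ Inj τ B ∧ Inj τ (B + 1) := by
    have h3 := (hSU.comp hSU).add (((sy_two τ hk hτ).comp hSU).lower (show 1 + 1 < 1 + 2 ^ k by omega))
    rw [← hT1] at h3
    rcases Nat.even_or_odd c with ⟨d, hd⟩ | ⟨d, hd⟩
    · refine ⟨V * V, h3.congr fun i w => ?_, h0.mul h0, (h1.mul h1).congr fun w => ?_⟩
      · have h4 : ((V + (((i + 1) * c : ℕ) : ℤ) • (1 : Module.End ℤ W)) * (V + ((i * c : ℕ) : ℤ) • (1 : Module.End ℤ W)) + 0) w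
            - (V * V) w = (((2 * i + 1) * d : ℕ) : ℤ) • (V w + V w)
              + ((2 * (i * (i + 1)) * d * d : ℕ) : ℤ) • (w + w) := by
          simp only [Module.End.mul_apply, LinearMap.add_apply, LinearMap.smul_apply, Module.End.one_apply,
            map_add, map_zsmul, LinearMap.zero_apply, hd]
          push_cast
          module
        rw [h4]
        exact ((htwo _).zsmul _).add ((htwo _).zsmul _)
      · have h5 : ((V + 1) * (V + 1)) w - (V * V + 1) w = V w + V w := by
          simp only [Module.End.mul_apply, LinearMap.add_apply, Module.End.one_apply, map_add]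
          abel
        rw [h5]
        exact htwo _
    · refine ⟨(V + 1) * V, h3.congr fun i w => ?_, h1.mul h0, (h2 (by omega)).congr fun w => ?_⟩
      · obtain ⟨b, hb⟩ : ∃ b : ℕ, i * (i + 1) = 2 * b := (Nat.even_mul_succ_self i).exists_two_nsmul.imp
          fun b hb => by rw [hb, smul_eq_mul]
        have hbz : (i : ℤ) * (i + 1) = 2 * b := by exact_mod_cast hb
        have h4 : ((V + (((i + 1) * c : ℕ) : ℤ) • (1 : Module.End ℤ W)) * (V + ((i * c : ℕ) : ℤ) • (1 : Module.End ℤ W)) + 0) w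
            - ((V + 1) * V) w = ((2 * i * d + i + d : ℕ) : ℤ) • (V w + V w)
              + ((b * c * c : ℕ) : ℤ) • (w + w) := by
          simp only [Module.End.mul_apply, LinearMap.add_apply, LinearMap.smul_apply, Module.End.one_apply,
            map_add, map_zsmul, LinearMap.zero_apply]
          have h6 : ((((i + 1) * c : ℕ) : ℤ) * ((i * c : ℕ) : ℤ)) = 2 * ((b * c * c : ℕ) : ℤ) := by
            push_cast
            linear_combination (c : ℤ) * c * hbz
          have h7 : ((((i + 1) * c : ℕ) : ℤ) + ((i * c : ℕ) : ℤ)) = 2 * ((2 * i * d + i + d : ℕ) : ℤ) + 1 := by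
            rw [hd]; push_cast; ring
          have h8 : ∀ x y : ℤ, (V (V w) + x • V w) + y • (V w + x • w) + 0 - (V (V w) + V w)
              = (x + y - 1) • V w + (x * y) • w := by
            intro x y; module
          have h9 := h8 ((((i + 1) * c : ℕ) : ℤ)) (((i * c : ℕ) : ℤ))
          rw [h6, h7] at h9
          rw [h9]
          module
        rw [h4]
        exact ((htwo _).zsmul _).add ((htwo _).zsmul _)
      · have h5 : (V * V + V + 1) w - ((V + 1) * V + 1) w = 0 := by
          rw [add_mul, one_mul, sub_self]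
        rw [h5]
        exact O.zero
  intro hfix
  -- `T ^ M` fixes `w`
  have hTM : (T ^ M) w = w := by
    rw [hT, ← pow_two, ← pow_mul, mul_comm, pow_mul, pow_two, Module.End.mul_apply, hfix, hfix]
  obtain ⟨j, m', hm', rfl⟩ := Nat.exists_eq_two_pow_mul_odd hM.ne'
  obtain ⟨c', rfl⟩ := hm'
  obtain ⟨s, A, hs, hSy, hA, -⟩ := exists_sy hk hτ hB hB0 hB1 j
  have h6 := hSy.odd hk hτ hs c'
  have h7 := h6.ne_zero htf hτ hsep (fun _ => hA) hw
  apply h7
  rw [← pow_mul, LinearMap.sub_apply, hTM, Module.End.one_apply, sub_self]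

end PoolMP89Grad8
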