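import Mathlib
import Pool.Agent.Lib.MP_89bcae_ag.InfG8
import Pool.Agent.Lib.MP_89bcae_ag.GradR7

/-!
# One layer of the tower, for an automorphism which acts trivially on the divisors
-/

namespace Pool.Agent.Lib.MP_89bcae_ag.Inf

set_option linter.unusedSectionVars false

open PoolMP89Grad8

variable {Γ A X : Type*} [Group Γ] [AddCommGroup A] [DistribMulAction Γ A] [MulAction Γ X]
  {H H' H1 G : Subgroup Γ} [H.Normal] [H'.Normal] [H1.Normal] [G.Normal] {τ φ : Γ}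
  {k q : ℕ} {Loc Loc' : (Γ → A) → Prop} {hL : LocAx H Loc} {hL' : LocAx H' Loc'}
  {M : Type*} [AddCommGroup M] {dv : (Γ → A) → M}

/-- **Vanishing of the Tate classes of one layer**, when `φ` acts trivially on the divisors and the
operator `V` is given by a map `T` of the divisors. -/
theorem Wg_eq_zero7 (hT : Tw X H H' H1 G τ φ k q)
    (hA : ∀ a : A, 2 • a = 0 → (∀ σ ∈ H, σ • a = a) → a = 0) (hk : 1 ≤ k)
    (hLoc : ∀ d : ℕ → Γ → A, TCo X H' d → (∀ n, Loc (d n)) → ∀ n, Loc' (d n))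
    (hW' : ∀ y ∈ Wg X hL' φ, y = 0)
    (hdiv : ∀ P : A, ∃ Q, Q + Q = P) (hsm : ∀ a : A, Sm X H (cob a : Γ → A))
    (hM : ∀ m : M, m + m = 0)
    (hD : DvAx X G Loc φ (AddMonoidHom.id M) dv) (T : M → M)
    (hform : ∀ (z z' y : Γ → A) (a a' : A), Adm X G Loc z → Adm X G Loc z' → Adm X H1 Loc y →
      2 • a = 0 → 2 • a' = 0 → (∀ σ ∈ H1, y σ - cj τ y σ = z σ + cob a σ) →
      (∀ σ ∈ H1, cj φ y σ - y σ = z' σ + cob a' σ) → dv z' = T (dv z))
    (h0 : ∀ z, Adm X G Loc z → dv z ≠ 0 → T (dv z) ≠ 0)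
    (h1 : ∀ z, Adm X G Loc z → dv z ≠ 0 → T (dv z) ≠ dv z)
    (h2 : q % 4 = 3 → ∀ z, Adm X G Loc z → dv z ≠ 0 → T (T (dv z)) ≠ T (dv z) + dv z)
    {x : Q A H} (hx : x ∈ Wg X hL φ) : x = 0 := by
  have hτ : tW hT hL ^ (2 ^ k) = -1 := by
    apply LinearMap.ext
    intro y
    apply Subtype.ext
    have h1 := hT.trace (hL := hL) (hL' := hL') hA hLoc hW' y.2
    rw [coe_tW_pow]
    change _ = -(y : Q A H)
    exact (neg_eq_of_add_eq_zero_right h1).symm
  have htf := W_torsion (X := X) (hL := hL) (φ := φ) hA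
  obtain ⟨V, hV⟩ := exists_V hT hA hk hτ hD hM hdiv hsm (N := 1) (fun m => rfl)
  set ϕ := phi hT hA hk hτ dv with hϕ
  have hϕadd : ∀ a b, ϕ (a + b) = ϕ a + ϕ b := phi_add hT hA hk hτ hD hM
  have hϕ0 : ∀ a, ϕ a = 0 ↔ O (tW hT hL) 1 a := phi_eq_zero_iff hT hA hk hτ hD hM hdiv hsm
  have hadm : ∀ a, ∃ z, Adm X G Loc z ∧ ϕ a = dv z := by
    intro a
    obtain ⟨z, hz⟩ := exists_Ph hT hA hk hτ a
    exact ⟨z, hz.1, phi_eq hT hA hk hτ hD hM hz⟩
  have hUo : Odd (q ^ 1) := hT.odd.pow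
  have hUt := f_pow_t (hL := hL) hT 1
  -- the formula
  have hF : ∀ w, ϕ (V w) = T (ϕ w) :=
    phi_V hT hA hk hτ hD hM (Fm := fun ζ ζ' => ζ' = T ζ) (N := 1)
      (fun z z' y a a' hz hz' hy ha ha' e1 e2 => hform z z' y a a' hz hz' hy ha ha' e1
        (fun σ hσ => by rw [← e2 σ hσ, pow_one])) hV
  have hInj0 : Inj (tW hT hL) V := by
    intro w hw hVw
    obtain ⟨z, hz, h⟩ := hadm w
    apply h0 z hz
    · rw [← h]; exact fun h' => hw ((hϕ0 _).mp h')
    · rw [← h, ← hF]; exact (hϕ0 _).mpr hVw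
  have hInj1 : Inj (tW hT hL) (V + 1) := by
    intro w hw hVw
    obtain ⟨z, hz, h⟩ := hadm w
    apply h1 z hz
    · rw [← h]; exact fun h' => hw ((hϕ0 _).mp h')
    · rw [← h, ← hF]
      have h3 := (hϕ0 _).mpr hVw
      rw [LinearMap.add_apply, Module.End.one_apply, hϕadd] at h3
      rw [eq_neg_of_add_eq_zero_left h3]
      exact neg_eq_of_add_eq_zero_left (hM _)
  have hInj2 : q ^ 1 % 4 = 3 → Inj (tW hT hL) (V * V + V + 1) := by
    intro hq w hw hVw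
    rw [pow_one] at hq
    obtain ⟨z, hz, h⟩ := hadm w
    apply h2 hq z hz
    · rw [← h]; exact fun h' => hw ((hϕ0 _).mp h')
    · rw [← h, ← hF, ← hF]
      have h3 := (hϕ0 _).mpr hVw
      rw [LinearMap.add_apply, LinearMap.add_apply, Module.End.one_apply, Module.End.mul_apply,
        hϕadd, hϕadd] at h3
      have h4 : ϕ (V (V w)) + (ϕ (V w) + ϕ w) = 0 := by rw [← add_assoc]; exact h3
      rw [eq_neg_of_add_eq_zero_left h4]
      exact neg_eq_of_add_eq_zero_left (hM _)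
  -- conclusion
  by_contra hx0
  have hw0 : (⟨x, hx⟩ : Wg X hL φ) ≠ 0 := fun h => hx0 (congrArg Subtype.val h)
  obtain ⟨-, Mx, hMx, hfix⟩ := id hx
  refine pow_apply_ne7 htf hk hτ hUo hUt hV ?_ hInj0 hInj1 hInj2 hMx hw0 ?_
  · -- the filtration is separated
    intro y hy
    have h1 : ∀ (n : ℕ) (z : Wg X hL φ), ∃ z', ((1 - tW hT hL : Module.End ℤ (Wg X hL φ)) ^
        (2 ^ k * n)) z = 2 ^ n • z' := by
      intro n
      induction n with
      | zero => intro z; exact ⟨z, by simp⟩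
      | succ n ih =>
        intro z
        obtain ⟨v, hv⟩ := exists_pi_e hk hτ z
        obtain ⟨z', hz'⟩ := ih v
        refine ⟨z', ?_⟩
        rw [Nat.mul_succ, pow_add, Module.End.mul_apply, hv, map_add, hz', pow_succ, mul_comm,
          mul_smul, two_nsmul]
    apply Subtype.ext
    apply ZQ_separated (X := X) hL
    intro n
    obtain ⟨z, hz⟩ := hy (2 ^ k * n)
    obtain ⟨z', hz'⟩ := h1 n z
    refine ⟨z', z'.2.1, ?_⟩
    rw [hz, hz']
    rfl
  · apply Subtype.ext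
    rw [← pow_mul, coe_fW_pow, one_mul]
    exact hfix

end Pool.Agent.Lib.MP_89bcae_ag.Inf
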