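import Mathlib
import Pool.Agent.Lib.MP_89bcae_ag.InfN8
import Pool.Agent.Lib.MP_89bcae_ag.InfRP8
import Pool.Agent.Lib.MP_89bcae_ag.InfG7

/-!
# The map to the divisors satisfies its axioms: automorphisms which fix the roots
-/

open Polynomial WeierstrassCurve WeierstrassCurve.Affine IsDedekindDomain

open scoped Classical

namespace Pool.Agent.Lib.MP_89bcae_ag

set_option linter.unusedSectionVars false
set_option linter.style.haveILetI false

universe u

section Ind

variable {F : Type*}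

/-- The indicator function of a finite set. -/
noncomputable def indR8 (Z : Finset F) (x : F) : ZMod 2 := if x ∈ Z then 1 else 0

lemma indR8_symmDiff (Z Z' : Finset F) : indR8 (symmDiff Z Z') = indR8 Z + indR8 Z' := by
  funext t
  rw [Pi.add_apply]
  unfold indR8
  by_cases h1 : t ∈ Z <;> by_cases h2 : t ∈ Z' <;>
    simp [Finset.mem_symmDiff, h1, h2]
  decide

lemma indR8_inj {Z Z' : Finset F} (h : indR8 Z = indR8 Z') : Z = Z' := by
  ext t
  have h1 := congrFun h t
  unfold indR8 at h1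
  by_cases h2 : t ∈ Z <;> by_cases h3 : t ∈ Z'
  · exact ⟨fun _ => h3, fun _ => h2⟩
  · rw [if_pos h2, if_neg h3] at h1
    exact absurd h1 one_ne_zero
  · rw [if_neg h2, if_pos h3] at h1
    exact absurd h1 zero_ne_one
  · exact ⟨fun h => absurd h h2, fun h => absurd h h3⟩

lemma indR8_empty : indR8 (∅ : Finset F) = 0 := by
  funext t
  exact if_neg (Finset.notMem_empty _)

lemma indR8_eq_zero {Z : Finset F} : indR8 Z = 0 ↔ Z = ∅ := by
  rw [← indR8_empty]
  exact ⟨indR8_inj, fun h => by rw [h]⟩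

/-- A map of finite sets as a map of functions. -/
noncomputable def mapR8 (T : Finset F → Finset F) (ζ : F → ZMod 2) : F → ZMod 2 :=
  if h : ∃ Z : Finset F, indR8 Z = ζ then indR8 (T h.choose) else 0

lemma mapR8_ind (T : Finset F → Finset F) (Z : Finset F) : mapR8 T (indR8 Z) = indR8 (T Z) := by
  have h : ∃ Z' : Finset F, indR8 Z' = indR8 Z := ⟨Z, rfl⟩
  unfold mapR8
  rw [dif_pos h, indR8_inj h.choose_spec]

end Ind

section Root

variable {k F L Ω : Type u} [Field k] [Field F] [Algebra k F] [Algebra.IsAlgebraic k F]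
  [IsAlgClosed F] [Field L] [Algebra F[X] L] [IsFractionRing F[X] L] [Field Ω]
  [Algebra L Ω] [IsGalois L Ω] [IsSepClosed Ω] [IsSepClosure L Ω]

/-- The map to the divisors. -/
noncomputable def dvR8 {k F : Type u} [Field k] [Field F] [Algebra k F] [IsAlgClosed F]
    (L : Type u) {Ω : Type u} [Field L] [Algebra F[X] L] [IsFractionRing F[X] L] [Field Ω]
    [Algebra L Ω] [Algebra.IsAlgebraic k F] [IsGalois L Ω] [IsSepClosed Ω] [IsSepClosure L Ω]
    (g : k[X])
    (z : letI := algK k F L Ω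
      (Ω ≃ₐ[k[X]] Ω) → ((twist g 1).map (base k F L Ω)).toAffine.Point) : F → ZMod 2 :=
  letI := algK k F L L
  letI := algK k F L Ω
  letI := algF F L Ω
  haveI : IsScalarTower k[X] L Ω := IsScalarTower.of_algebraMap_eq fun _ => rfl
  indR8 (dvZ L (twist g 1).toAffine (g.map (algebraMap k F)) ((1 : k[X]).map (algebraMap k F)) z)

theorem dvAxR8 {φ₀ : F ≃ₐ[k] F} {g D : k[X]} (hgood : Good g 1)
    (hU : ∀ β : F, aeval β (D.comp g) = 0 → φ₀ β = β) {r : ℕ} {s : Ω}
    (hs : s ^ (2 ^ r) = base k F L Ω D)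
    (hsa : letI := algK k F L Ω
      ∀ γ : Ω ≃ₐ[k[X]] Ω, ∃ a : F, γ s = algebraMap L Ω (algebraMap F[X] L (C a)) * s)
    (hGn : letI := algK k F L L
      letI := algK k F L Ω
      haveI : IsScalarTower k[X] L Ω := IsScalarTower.of_algebraMap_eq fun _ => rfl
      (GL8 k L Ω).Normal)
    {φ : letI := algK k F L Ω
      (Ω ≃ₐ[k[X]] Ω)}
    (hφ : letI := algK k F L L
      letI := algK k F L Ω
      letI := algF F L Ω
      haveI : IsScalarTower F[X] L Ω := IsScalarTower.of_algebraMap_eq fun _ => rfl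
      haveI : IsScalarTower k[X] L Ω := IsScalarTower.of_algebraMap_eq fun _ => rfl
      resF (k := k) (F := F) (L := L) (Ω := Ω) (fun _ => rfl) φ = φ₀) :
    letI := algK k F L L
    letI := algK k F L Ω
    haveI : IsScalarTower k[X] L Ω := IsScalarTower.of_algebraMap_eq fun _ => rfl
    letI := actW (k := k) (Ω := Ω) (twist g 1).toAffine
    Inf.DvAx (A := ((twist g 1).toAffine.baseChange Ω).Point) Ω (GL8 k L Ω)
      (LocS (twist g 1) s) φ (AddMonoidHom.id (F → ZMod 2)) (dvR8 L g) := by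
  letI := algK k F L L
  letI := algK k F L Ω
  letI := algF F L Ω
  haveI : IsScalarTower F[X] L Ω := IsScalarTower.of_algebraMap_eq fun _ => rfl
  haveI : IsScalarTower k[X] L Ω := IsScalarTower.of_algebraMap_eq fun _ => rfl
  letI := actW (k := k) (Ω := Ω) (twist g 1).toAffine
  have hk : ∀ p : k[X], algebraMap k[X] L p = algebraMap F[X] L (p.map (algebraMap k F)) :=
    fun _ => rfl
  have hF := hgood.map F
  have h2Ω : (2 : Ω) ≠ 0 := two_ne_zero_Om (F := F) L Ω hF.two
  have hW : IsTwist Ω (twist g 1).toAffine (g.map (algebraMap k F))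
      ((1 : k[X]).map (algebraMap k F)) := (isTwist_twist hk).up
  have hL := locAx_LocS (k := k) (F := F) (L := L) (Ω := Ω) (twist g 1) hsa
  refine ⟨?_, ?_, ?_⟩
  · intro z z' hz hz'
    have hzz : Inf.Adm (A := ((twist g 1).toAffine.baseChange Ω).Point) Ω (GL8 k L Ω)
        (LocS (twist g 1) s) (fun σ => z σ + z' σ) :=
      ⟨hz.co.add hz'.co, fun σ hσ => by rw [smul_add, hz.two σ hσ, hz'.two σ hσ, add_zero],
        hz.sm.add hz'.sm, hL.add hz.loc hz'.loc⟩
    unfold dvR8
    rw [dvZ_add hF h2Ω hW hz hz' hzz, indR8_symmDiff]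
  · intro z hz
    rw [← dvZ_eq_empty_iff hF h2Ω hW hz]
    exact indR8_eq_zero
  · intro z hz
    have hcj : Inf.Adm (A := ((twist g 1).toAffine.baseChange Ω).Point) Ω (GL8 k L Ω)
        (LocS (twist g 1) s) (Inf.cj φ z) := by
      have hGc : ∀ σ ∈ GL8 k L Ω, φ⁻¹ * σ * φ ∈ GL8 k L Ω := fun σ hσ => by
        have := hGn.conj_mem σ hσ φ⁻¹
        rwa [inv_inv] at this
      refine ⟨hz.co.cj hGc, fun σ hσ => ?_, hz.sm.cj hGc, hL.cj φ hz.loc⟩
      simp only [Inf.cj]
      rw [smul_comm, hz.two _ (hGc σ hσ), smul_zero]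
    unfold dvR8
    rw [dvZ_cj hk hF h2Ω hW hz φ hcj, hφ, AddMonoidHom.id_apply]
    congr 1
    have hroot := dvZ_root (D := D) hgood hs hz
    ext β
    rw [Finset.mem_image]
    constructor
    · rintro ⟨x, hx, rfl⟩
      rwa [hU x (hroot x hx)]
    · intro hβ
      exact ⟨β, hβ, hU β (hroot β hβ)⟩

end Root

end Pool.Agent.Lib.MP_89bcae_ag
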