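import Mathlib
import Pool.Agent.Lib.MP_89bcae_ag.InfNR8

/-!
# The induction over the tower: automorphisms which fix the roots
-/

open Polynomial WeierstrassCurve WeierstrassCurve.Affine IsDedekindDomain

open scoped Classical

namespace Pool.Agent.Lib.MP_89bcae_ag

set_option linter.unusedSectionVars false
set_option linter.style.haveILetI false

universe u

/-- The conditions on the operator `T₀` on the sets of roots of `D ∘ g`. -/
def CondR8 {k F : Type*} [Field k] [Field F] [Algebra k F] (φ₀ : F ≃ₐ[k] F) (g D : k[X])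
    (T₀ : Finset F → Finset F) : Prop :=
  ∀ Z : Finset F, Z.Nonempty → (∀ c ∈ Z, aeval c (D.comp g) = 0) →
    (∀ a : F, Even (Z.filter fun c => aeval c g = a).card) →
      T₀ Z ≠ ∅ ∧ T₀ Z ≠ Z ∧ (Moves φ₀ (-1) → T₀ (T₀ Z) ≠ symmDiff (T₀ Z) Z)

/-- The formula for the divisors in the layer of `s`. -/
def FormR8 {k F : Type u} [Field k] [Field F] [Algebra k F] [IsAlgClosed F]
    [Algebra.IsAlgebraic k F] (L : Type u) {Ω : Type u} [Field L] [Algebra F[X] L]
    [IsFractionRing F[X] L] [Field Ω] [Algebra L Ω] [IsGalois L Ω] [IsSepClosed Ω]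
    [IsSepClosure L Ω] (g : k[X]) (T₀ : Finset F → Finset F) (r : ℕ) (s : Ω)
    (φ : letI := algK k F L Ω
      Ω ≃ₐ[k[X]] Ω) : Prop :=
  letI := algK k F L L
  letI := algK k F L Ω
  letI := algF F L Ω
  haveI : IsScalarTower F[X] L Ω := IsScalarTower.of_algebraMap_eq fun _ => rfl
  haveI : IsScalarTower k[X] L Ω := IsScalarTower.of_algebraMap_eq fun _ => rfl
  letI := actW (k := k) (Ω := Ω) (twist g 1).toAffine
  ∀ τ ∈ GL8 k L Ω, τ (s ^ (2 ^ r)) = -(s ^ (2 ^ r)) →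
  ∀ (z z' y : (Ω ≃ₐ[k[X]] Ω) → ((twist g 1).toAffine.baseChange Ω).Point)
    (a a' : ((twist g 1).toAffine.baseChange Ω).Point),
    Inf.Adm (A := ((twist g 1).toAffine.baseChange Ω).Point) Ω (GL8 k L Ω)
      (LocS (twist g 1) s) z →
    Inf.Adm (A := ((twist g 1).toAffine.baseChange Ω).Point) Ω (GL8 k L Ω)
      (LocS (twist g 1) s) z' →
    Inf.Adm (A := ((twist g 1).toAffine.baseChange Ω).Point) Ω (HS8 k L (s ^ (2 ^ r)))
      (LocS (twist g 1) s) y →
    2 • a = 0 → 2 • a' = 0 →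
    (∀ σ ∈ HS8 k L (s ^ (2 ^ r)), y σ - Inf.cj τ y σ = z σ + Inf.cob a σ) →
    (∀ σ ∈ HS8 k L (s ^ (2 ^ r)), Inf.cj φ y σ - y σ = z' σ + Inf.cob a' σ) →
    dvZ L (twist g 1).toAffine (g.map (algebraMap k F)) ((1 : k[X]).map (algebraMap k F)) z' =
      T₀ (dvZ L (twist g 1).toAffine (g.map (algebraMap k F))
        ((1 : k[X]).map (algebraMap k F)) z)

variable {k F L Ω : Type u} [Field k] [Field F] [Algebra k F] [Algebra.IsAlgebraic k F]
  [IsAlgClosed F] [Field L] [Algebra F[X] L] [IsFractionRing F[X] L] [Field Ω]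
  [Algebra L Ω] [IsGalois L Ω] [IsSepClosed Ω] [IsSepClosure L Ω]

/-- **One step of the tower.** -/
theorem noW8_stepR8 {φ₀ : F ≃ₐ[k] F} {g D : k[X]} (hgood : Good g 1) (hDne : D ≠ 0)
    (hDsq : ¬ ∃ y : L, y ^ 2 = algebraMap F[X] L (D.map (algebraMap k F)))
    (hU : ∀ β : F, aeval β (D.comp g) = 0 → φ₀ β = β) {T₀ : Finset F → Finset F}
    (hcond : CondR8 φ₀ g D T₀) {r : ℕ} (hr : 1 ≤ r) {s : Ω}
    (hs : s ^ (2 ^ (r + 1)) = base k F L Ω D)
    {φ : letI := algK k F L Ω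
      Ω ≃ₐ[k[X]] Ω}
    (hφs : φ s = s)
    (hφ : letI := algK k F L L
      letI := algK k F L Ω
      letI := algF F L Ω
      haveI : IsScalarTower F[X] L Ω := IsScalarTower.of_algebraMap_eq fun _ => rfl
      haveI : IsScalarTower k[X] L Ω := IsScalarTower.of_algebraMap_eq fun _ => rfl
      resF (k := k) (F := F) (L := L) (Ω := Ω) (fun _ => rfl) φ = φ₀)
    (hform : FormR8 L g T₀ r s φ)
    (hprev : NoW8 L (twist g 1) (s ^ 2) φ) : NoW8 L (twist g 1) s φ := by
  letI := algK k F L L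
  letI := algK k F L Ω
  letI := algF F L Ω
  haveI : IsScalarTower F[X] L Ω := IsScalarTower.of_algebraMap_eq fun _ => rfl
  haveI : IsScalarTower k[X] L Ω := IsScalarTower.of_algebraMap_eq fun _ => rfl
  letI := actW (k := k) (Ω := Ω) (twist g 1).toAffine
  intro hNs hLs x hx
  have hk : ∀ p : k[X], algebraMap k[X] L p = algebraMap F[X] L (p.map (algebraMap k F)) :=
    fun _ => rfl
  have hF := hgood.map F
  have h2Ω : (2 : Ω) ≠ 0 := two_ne_zero_Om (F := F) L Ω hF.two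
  have hW : IsTwist Ω (twist g 1).toAffine (g.map (algebraMap k F))
      ((1 : k[X]).map (algebraMap k F)) := (isTwist_twist hk).up
  have hs' : s ^ (2 ^ (r + 1)) = algebraMap k[X] Ω D := hs
  have hDΩ : algebraMap k[X] Ω D ≠ 0 := by
    intro h0
    have h1 : algebraMap L Ω (algebraMap F[X] L (D.map (algebraMap k F))) = 0 := h0
    rw [map_eq_zero, FaithfulSMul.algebraMap_eq_zero_iff] at h1
    exact (Polynomial.map_ne_zero hDne) h1
  have hs0 : s ≠ 0 := by
    rintro rfl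
    rw [zero_pow (by positivity)] at hs'
    exact hDΩ hs'.symm
  have hs2 : (s ^ 2) ^ (2 ^ r) = algebraMap k[X] Ω D := by
    rw [← pow_mul, ← pow_succ']; exact hs'
  have hs20 : s ^ 2 ≠ 0 := pow_ne_zero _ hs0
  haveI hN2 : (HS8 k L (s ^ 2)).Normal := hs_normal hk hs2 hs20
  haveI hNG : (GL8 k L Ω).Normal := gs_normal hk
  haveI hN1 : (HS8 k L (s ^ (2 ^ r))).Normal := by
    apply hs_normal (r := 1) hk (D := D) _ (pow_ne_zero _ hs0)
    rw [← pow_mul, pow_one, ← pow_succ]; exact hs'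
  have hsa : ∀ γ : Ω ≃ₐ[k[X]] Ω, ∃ a : F, γ s = algebraMap L Ω (algebraMap F[X] L (C a)) * s := by
    intro γ
    obtain ⟨ζ, -, h⟩ := exists_zeta (F := F) hs' hs0 γ
    exact ⟨ζ, h⟩
  have hsa2 : ∀ γ : Ω ≃ₐ[k[X]] Ω, ∃ a : F,
      γ (s ^ 2) = algebraMap L Ω (algebraMap F[X] L (C a)) * s ^ 2 := by
    intro γ
    obtain ⟨ζ, -, h⟩ := exists_zeta (F := F) hs2 hs20 γ
    exact ⟨ζ, h⟩
  have hL2 := locAx_LocS (k := k) (F := F) (L := L) (Ω := Ω) (twist g 1) hsa2
  obtain ⟨τ, hτ, ζ, hζ, hτs⟩ := exists_tau (k := k) (F := F) (L := L) (Ω := Ω) (D := D) hs' hs0 hDsq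
  -- the action on the roots of unity
  obtain ⟨q, hqodd, hres⟩ : ∃ q : ℕ, Odd q ∧ resF hk φ ζ = ζ ^ q := by
    have h1 : (resF hk φ ζ) ^ (2 ^ (r + 1)) = 1 := by rw [← map_pow, hζ.pow_eq_one, map_one]
    obtain ⟨q, -, hq⟩ := hζ.eq_pow_of_pow_eq_one h1
    refine ⟨q, ?_, hq.symm⟩
    by_contra hodd
    rw [Nat.not_odd_iff_even] at hodd
    obtain ⟨m, hm⟩ := hodd
    have h2 : resF hk φ (ζ ^ 2 ^ r) = 1 := by
      rw [map_pow, ← hq, ← pow_mul, hm]
      have : (m + m) * 2 ^ r = 2 ^ (r + 1) * m := by rw [pow_succ]; ring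
      rw [this, pow_mul, hζ.pow_eq_one, one_pow]
    have h3 : ζ ^ 2 ^ r = 1 := by
      apply (resF hk φ).injective
      rw [h2, map_one]
    have h4 := Nat.le_of_dvd (by positivity) ((hζ.pow_eq_one_iff_dvd (2 ^ r)).mp h3)
    rw [pow_succ] at h4
    have : 0 < 2 ^ r := by positivity
    omega
  have hT := tw_ofP8 (k := k) (F := F) (L := L) hk hr hs' hs0 hτ hζ hτs hφs hqodd hres
  have h6 : ζ ^ (2 ^ r) = -1 := by
    have h7 : (ζ ^ (2 ^ r)) ^ 2 = 1 := by rw [← pow_mul, ← pow_succ, hζ.pow_eq_one]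
    rcases eq_one_or_neg_one_of_sq h7 with h8 | h8
    · exfalso
      have h9 := Nat.le_of_dvd (by positivity) ((hζ.pow_eq_one_iff_dvd (2 ^ r)).mp h8)
      rw [pow_succ] at h9
      have : 0 < 2 ^ r := by positivity
      omega
    · exact h8
  have hτ1 : τ (s ^ (2 ^ r)) = -(s ^ (2 ^ r)) := by
    rw [map_pow, hτs, mul_pow, ← cst_pow, h6, cst_neg_one, neg_one_mul]
  -- the square roots of `-1`
  have hmov : q % 4 = 3 → Moves φ₀ (-1) := by
    intro hq t ht hfix
    set i := ζ ^ (2 ^ (r - 1)) with hi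
    have hi2 : i ^ 2 = -1 := by
      rw [hi, ← pow_mul, ← pow_succ, Nat.sub_add_cancel hr, h6]
    have hiq : φ₀ i = i ^ q := by
      have h7 : resF hk φ i = i ^ q := by
        rw [hi, map_pow, hres, ← pow_mul, ← pow_mul, mul_comm]
      rw [← h7]
      exact congrArg (fun f : F ≃ₐ[k] F => f i) hφ.symm
    have hi4 : i ^ 4 = 1 := by
      have : i ^ 4 = (i ^ 2) ^ 2 := by ring
      rw [this, hi2]
      ring
    have hiq3 : φ₀ i = -i := by
      rw [hiq, ← Nat.div_add_mod q 4, hq, pow_add, pow_mul, hi4, one_pow, one_mul, pow_succ, hi2,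
        neg_one_mul]
    have hi0 : i ≠ 0 := by
      intro h0
      rw [h0, zero_pow two_ne_zero] at hi2
      exact one_ne_zero (neg_eq_zero.mp hi2.symm)
    have h2i : i ≠ -i := by
      intro h8
      have h9 : (2 : F) * i = 0 := by linear_combination h8
      exact hi0 ((mul_eq_zero.mp h9).resolve_left hF.two)
    rcases sq_eq_sq_iff_eq_or_eq_neg.mp (ht.trans hi2.symm) with h8 | h8
    · rw [h8, hiq3] at hfix
      exact h2i hfix.symm
    · rw [h8, map_neg, hiq3, neg_neg] at hfix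
      exact h2i hfix
  have hroot : ∀ {z}, Inf.Adm (A := ((twist g 1).toAffine.baseChange Ω).Point) Ω (GL8 k L Ω)
      (LocS (twist g 1) s) z → ∀ c ∈ dvZ L (twist g 1).toAffine (g.map (algebraMap k F))
        ((1 : k[X]).map (algebraMap k F)) z, aeval c (D.comp g) = 0 := fun hz =>
    dvZ_root (D := D) hgood hs hz
  have heven : ∀ {z}, Inf.Adm (A := ((twist g 1).toAffine.baseChange Ω).Point) Ω (GL8 k L Ω)
      (LocS (twist g 1) s) z → ∀ a : F, Even ((dvZ L (twist g 1).toAffine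
        (g.map (algebraMap k F)) ((1 : k[X]).map (algebraMap k F)) z).filter
          fun c => aeval c g = a).card := by
    intro z hz a
    have := dvZ_even hF h2Ω hW hz a
    simpa only [eval_map_algebraMap] using this
  have hne : ∀ {z : (Ω ≃ₐ[k[X]] Ω) → ((twist g 1).toAffine.baseChange Ω).Point},
      dvR8 L g z ≠ 0 → (dvZ L (twist g 1).toAffine (g.map (algebraMap k F))
        ((1 : k[X]).map (algebraMap k F)) z).Nonempty := by
    intro z h0
    rw [Finset.nonempty_iff_ne_empty]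
    intro h3
    exact h0 (indR8_eq_zero.mpr h3)
  refine Inf.Wg_eq_zero7 (H1 := HS8 k L (s ^ (2 ^ r))) (G := GL8 k L Ω)
    (hL' := hL2) (dv := dvR8 L g) hT ?_ hr ?_ ?_ ?_ ?_ ?_ ?_ (mapR8 T₀) ?_ ?_ ?_ ?_ hx
  · intro a ha hfix
    exact noInv_of (k := k) (F := F) (L := L) h2Ω hW hF.monic hF.deg hF.der hF.ne hs' a ha
      hfix
  · exact locS_down (k := k) (F := F) (L := L) (twist g 1) s
  · exact hprev hN2 hL2
  · exact exists_halves L hF hW
  · exact sm_cob (k := k) (F := F) (L := L) (twist g 1) _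
  · intro m
    funext t
    exact CharTwo.add_self_eq_zero _
  · exact dvAxR8 hgood hU hs hsa hNG hφ
  · intro z z' y a a' hz hz' hy ha ha' e1 e2
    have h7 := hform τ hτ hτ1 z z' y a a' hz hz' hy ha ha' e1 e2
    unfold dvR8
    rw [mapR8_ind]
    exact congrArg indR8 h7
  · intro z hz h0
    have h7 := (hcond _ (hne h0) (hroot hz) (heven hz)).1
    unfold dvR8
    rw [mapR8_ind]
    exact fun h8 => h7 (indR8_eq_zero.mp h8)
  · intro z hz h0
    have h7 := (hcond _ (hne h0) (hroot hz) (heven hz)).2.1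
    unfold dvR8
    rw [mapR8_ind]
    exact fun h8 => h7 (indR8_inj h8)
  · intro hq z hz h0
    have h7 := (hcond _ (hne h0) (hroot hz) (heven hz)).2.2 (hmov hq)
    unfold dvR8
    rw [mapR8_ind, mapR8_ind, ← indR8_symmDiff]
    exact fun h8 => h7 (indR8_inj h8)

end Pool.Agent.Lib.MP_89bcae_ag
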