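import Mathlib
import Pool.Agent.Lib.MP_89bcae_ag.InfRR8
import Pool.Agent.Lib.MP_89bcae_ag.InfEndP8

/-!
# All the layers of the tower: automorphisms which fix the roots
-/

open Polynomial WeierstrassCurve WeierstrassCurve.Affine IsDedekindDomain

open scoped Classical

namespace Pool.Agent.Lib.MP_89bcae_ag

set_option linter.unusedSectionVars false
set_option linter.style.haveILetI false

universe u

/-- A nonconstant separable polynomial is not the square of a rational function. -/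
lemma not_sq_of_separable {F L : Type*} [Field F] [IsAlgClosed F] [Field L] [Algebra F[X] L]
    [IsFractionRing F[X] L] {D : F[X]} (hsep : D.Separable) (hD : D.natDegree ≠ 0) :
    ¬ ∃ y : L, y ^ 2 = algebraMap F[X] L D := by
  rintro ⟨y, hy⟩
  obtain ⟨p, q, hq, rfl⟩ := IsFractionRing.div_surjective (A := F[X]) y
  have hq0 : q ≠ 0 := nonZeroDivisors.ne_zero hq
  have hq1 : algebraMap F[X] L q ≠ 0 := by
    rw [Ne, FaithfulSMul.algebraMap_eq_zero_iff]
    exact hq0
  rw [div_pow, div_eq_iff (pow_ne_zero 2 hq1), ← map_pow, ← map_pow, ← map_mul] at hy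
  have h1 : p ^ 2 = D * q ^ 2 := IsFractionRing.injective F[X] L hy
  have hD0 : D ≠ 0 := by
    rintro rfl
    exact hD natDegree_zero
  obtain ⟨α, hα⟩ := IsAlgClosed.exists_root D (fun h => hD (natDegree_eq_of_degree_eq_some h))
  have h2 : D.rootMultiplicity α = 1 := by
    apply le_antisymm (rootMultiplicity_le_one_of_separable hsep α)
    exact (rootMultiplicity_pos hD0).mpr hα
  have hp0 : p ≠ 0 := by
    rintro rfl
    rw [zero_pow two_ne_zero] at h1
    exact mul_ne_zero hD0 (pow_ne_zero 2 hq0) h1.symm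
  have h3 := congrArg (rootMultiplicity α) h1
  rw [rootMultiplicity_mul (mul_ne_zero hD0 (pow_ne_zero 2 hq0)), h2, sq, sq,
    rootMultiplicity_mul (mul_ne_zero hp0 hp0), rootMultiplicity_mul (mul_ne_zero hq0 hq0)] at h3
  omega

section

variable {k F L Ω : Type u} [Field k] [Field F] [Algebra k F] {φ₀ : F ≃ₐ[k] F}
  [Algebra.IsAlgebraic k F] [IsAlgClosed F] [Field L] [Algebra F[X] L] [IsFractionRing F[X] L]
  [Field Ω] [Algebra L Ω] [IsGalois L Ω] [IsSepClosed Ω] [IsSepClosure L Ω]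

variable {g D : k[X]} {T₀ : Finset F → Finset F}

/-- **All the layers.** -/
theorem noW8_allR8 (hgood : Good g 1) (hDne : D ≠ 0)
    (hDsq : ¬ ∃ y : L, y ^ 2 = algebraMap F[X] L (D.map (algebraMap k F)))
    (hU : ∀ β : F, aeval β (D.comp g) = 0 → φ₀ β = β) (hcond : CondR8 φ₀ g D T₀)
    (hV : VanP8 φ₀ L Ω g D)
    (hform : letI := algK k F L L
      letI := algK k F L Ω
      letI := algF F L Ω
      haveI : IsScalarTower F[X] L Ω := IsScalarTower.of_algebraMap_eq fun _ => rfl
      haveI : IsScalarTower k[X] L Ω := IsScalarTower.of_algebraMap_eq fun _ => rfl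
      ∀ (r : ℕ), 1 ≤ r → ∀ (s : Ω), s ^ (2 ^ (r + 1)) = base k F L Ω D →
      ∀ φ : Ω ≃ₐ[k[X]] Ω, φ s = s →
      resF (k := k) (F := F) (L := L) (Ω := Ω) (fun _ => rfl) φ = φ₀ →
      FormR8 L g T₀ r s φ) :
    letI := algK k F L L
    letI := algK k F L Ω
    letI := algF F L Ω
    haveI : IsScalarTower F[X] L Ω := IsScalarTower.of_algebraMap_eq fun _ => rfl
    haveI : IsScalarTower k[X] L Ω := IsScalarTower.of_algebraMap_eq fun _ => rfl
    ∀ (r : ℕ) (s : Ω), s ^ (2 ^ (r + 1)) = base k F L Ω D →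
      ∀ φ : Ω ≃ₐ[k[X]] Ω, φ s = s →
      resF (k := k) (F := F) (L := L) (Ω := Ω) (fun _ => rfl) φ = φ₀ →
      NoW8 L (twist g 1) s φ := by
  letI := algK k F L L
  letI := algK k F L Ω
  letI := algF F L Ω
  haveI : IsScalarTower F[X] L Ω := IsScalarTower.of_algebraMap_eq fun _ => rfl
  haveI : IsScalarTower k[X] L Ω := IsScalarTower.of_algebraMap_eq fun _ => rfl
  letI := actW (k := k) (Ω := Ω) (twist g 1).toAffine
  intro r
  induction r with
  | zero =>
    intro s hs φ hφs hφ hN hL x hx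
    have hs' : s ^ (2 ^ 1) = algebraMap k[X] Ω D := hs
    rw [pow_one] at hs'
    have hs0 := root_ne_zero (F := F) (L := L) hDne hs
    have hsa : ∀ γ : Ω ≃ₐ[k[X]] Ω, ∃ a : F,
        γ s = algebraMap L Ω (algebraMap F[X] L (C a)) * s := by
      intro γ
      obtain ⟨ζ, -, h⟩ := exists_zeta (F := F) (r := 1) (D := D) (by rw [pow_one]; exact hs') hs0 γ
      exact ⟨ζ, h⟩
    exact layer_oneP8 hgood hV hDne hDsq hs' hsa hN φ hφ
      x hx
  | succ r ih =>
    intro s hs φ hφs hφ
    apply noW8_stepR8 hgood hDne hDsq hU hcond (r := r + 1) (by omega) hs hφs hφ (hform (r + 1) (by omega) s hs φ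
      hφs hφ)
    apply ih (s ^ 2) _ φ _ hφ
    · rw [← pow_mul, ← pow_succ']; exact hs
    · rw [map_pow, hφs]

/-- **No Tate classes over the whole tower.** -/
theorem noTowerR8 (hgood : Good g 1) (hDne : D ≠ 0)
    (hDsq : ¬ ∃ y : L, y ^ 2 = algebraMap F[X] L (D.map (algebraMap k F)))
    (hU : ∀ β : F, aeval β (D.comp g) = 0 → φ₀ β = β) (hcond : CondR8 φ₀ g D T₀)
    (hV : VanP8 φ₀ L Ω g D)
    (hform : letI := algK k F L L
      letI := algK k F L Ω
      letI := algF F L Ω
      haveI : IsScalarTower F[X] L Ω := IsScalarTower.of_algebraMap_eq fun _ => rfl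
      haveI : IsScalarTower k[X] L Ω := IsScalarTower.of_algebraMap_eq fun _ => rfl
      ∀ (r : ℕ), 1 ≤ r → ∀ (s : Ω), s ^ (2 ^ (r + 1)) = base k F L Ω D →
      ∀ φ : Ω ≃ₐ[k[X]] Ω, φ s = s →
      resF (k := k) (F := F) (L := L) (Ω := Ω) (fun _ => rfl) φ = φ₀ →
      FormR8 L g T₀ r s φ) (k' : IntermediateField k F) [FiniteDimensional k k'] (r : ℕ) (s : Ω)
    (hs : s ^ (2 ^ r) = base k F L Ω D) : NoTateClassOver k F L g D (cover k' F L s) := by
  letI := algK k F L L
  letI := algK k F L Ω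
  letI := algF F L Ω
  haveI : IsScalarTower F[X] L Ω := IsScalarTower.of_algebraMap_eq fun _ => rfl
  haveI : IsScalarTower k[X] L Ω := IsScalarTower.of_algebraMap_eq fun _ => rfl
  have hk : ∀ p : k[X], algebraMap k[X] L p = algebraMap F[X] L (p.map (algebraMap k F)) :=
    fun _ => rfl
  have hF := hgood.map F
  have h2Ω : (2 : Ω) ≠ 0 := two_ne_zero_Om (F := F) L Ω hF.two
  have hs' : s ^ (2 ^ r) = algebraMap k[X] Ω D := hs
  have hD0 : D ≠ 0 := hDne
  have hs0 := root_ne_zero (F := F) (L := L) hD0 hs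
  have hN : (HS8 k L s).Normal := hs_normal hk hs' hs0
  have hsa : ∀ γ : Ω ≃ₐ[k[X]] Ω, ∃ a : F,
      γ s = algebraMap L Ω (algebraMap F[X] L (C a)) * s := by
    intro γ
    obtain ⟨ζ, -, h⟩ := exists_zeta (F := F) hs' hs0 γ
    exact ⟨ζ, h⟩
  have hA : ∀ E : k[X], E ≠ 0 → ∀ a : ((twist g E).toAffine.baseChange Ω).Point, 2 • a = 0 →
      (∀ σ ∈ HS8 k L s, gm (twist g E).toAffine σ a = a) → a = 0 := by
    intro E hE a ha hfix
    have hW : IsTwist Ω (twist g E).toAffine (g.map (algebraMap k F))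
      (E.map (algebraMap k F)) := (isTwist_twist hk).up
    exact noInv_of (k := k) (F := F) (L := L) h2Ω hW hF.monic hF.deg hF.der
      (Polynomial.map_ne_zero hE) hs' a ha hfix
  cases r with
  | zero =>
    rw [pow_zero, pow_one] at hs
    obtain ⟨φ, hφ⟩ := exists_lift_aut (Ω := Ω) hk (φ₀)
    have hres : resF hk φ = φ₀ := by
      apply resF_unique
      intro a
      have := hφ (C a)
      rw [map_C] at this
      exact this
    have hφs : φ s = s := by
      rw [hs]
      exact φ.commutes D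
    exact noTateClassOver_of_wgP8 (F := F) (L := L) (g := g) (D := D) k' hN (hA D hD0)
      (locAx_LocS (twist g D) hsa) φ hφs hres
      (noW8_zeroP8 (F := F) hV hs φ hres hN (locAx_LocS (twist g D) hsa))
  | succ r =>
    obtain ⟨τ, hτ, ζ, hζ, hτs⟩ := exists_tau (k := k) (F := F) (L := L) (Ω := Ω) (D := D) hs' hs0 hDsq
    obtain ⟨φ, hφs, hres⟩ := exists_phi hk hs' hs0 hτ hζ hτs (φ₀)
    apply noTateClassOver_transferP8 (r₁ := s ^ (2 ^ r)) (pow_ne_zero _ hs0) _ _
      (fun p => base_mem_coverP8 k' p)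
    · exact noTateClassOver_of_wgP8 (F := F) (L := L) (g := g) (D := 1) k' hN
        (hA 1 one_ne_zero) (locAx_LocS (twist g 1) hsa) φ hφs hres
        (noW8_allR8 hgood hDne hDsq hU hcond hV hform r s hs φ hφs hres hN (locAx_LocS (twist g 1) hsa))
    · rw [← pow_mul, ← pow_succ]
      exact hs
    · exact pow_mem (Subfield.subset_closure (Set.mem_insert _ _)) _

end

end Pool.Agent.Lib.MP_89bcae_ag
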