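import Mathlib
import Pool.Agent.Lib.MP_89bcae_ag.VanP8
import Pool.Agent.Lib.MP_89bcae_ag.DefsRedei7
import Pool.Agent.Lib.MP_89bcae_ag.CritPC8

/-!
# The classes over `L`: automorphisms which fix the roots
-/

open Polynomial WeierstrassCurve WeierstrassCurve.Affine IsDedekindDomain IntermediateField

open scoped Classical

namespace Pool.Agent.Lib.MP_89bcae_ag

set_option linter.unusedSectionVars false
set_option linter.style.haveILetI false

universe u

/-- The products are not zero. -/
lemma PZ_ne_zeroR8 {F : Type*} [Field F] {g D : F[X]} (hsep : (D.comp g).Separable) {Z : Finset F}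
    {b : F} (hb : (D.comp g).eval b = 0) : PZ g D Z b ≠ 0 := by
  unfold PZ
  apply mul_ne_zero
  · rw [Finset.prod_ne_zero_iff]
    intro c hc
    rw [Finset.mem_filter] at hc
    apply sub_ne_zero.mpr
    rintro rfl
    exact hc.2 rfl
  · split_ifs
    · apply neg_ne_zero.mpr
      have h2 : (derivative (D.comp g)).eval b ≠ 0 := by
        have := hsep.eval₂_derivative_ne_zero (RingHom.id F) (x := b) (by rw [eval₂_id]; exact hb)
        rwa [eval₂_id] at this
      rw [derivative_comp, eval_mul, eval_comp] at h2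
      exact right_ne_zero_of_mul h2
    · exact one_ne_zero

section

variable {k F L Ω : Type u} [Field k] [Field F] [Algebra k F]
  [IsAlgClosed F] [Field L] [Algebra F[X] L] [IsFractionRing F[X] L] [Field Ω]
  [Algebra L Ω] [IsGalois L Ω] [IsSepClosed Ω]

/-- **The classes over `L` fixed by a power of the automorphism vanish** if the Rédei map has no
eigenvalue `0` or `1`. -/
theorem vanR8_of [Algebra.IsAlgebraic k F] [IsSepClosure L Ω] {g D : k[X]} (hgD : Good g D)
    (hsep : (D.comp g).Separable) {φ₀ : F ≃ₐ[k] F}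
    (hU : ∀ β : F, aeval β (D.comp g) = 0 → φ₀ β = β)
    (hcond : NoEigen (Moves φ₀) (PZ (g.map (algebraMap k F)) (D.map (algebraMap k F)))
      (g.map (algebraMap k F)) (D.map (algebraMap k F))) : VanP8 φ₀ L Ω g D := by
  have halg : Algebra.IsAlgebraic (fixP8 φ₀) F := Algebra.IsAlgebraic.tower_top (K := k) _
  set k₁ := fixP8 φ₀ with hk₁
  set g₁ := g.map (algebraMap k k₁) with hg₁
  set D₁ := D.map (algebraMap k k₁) with hD₁
  have hgF : g₁.map (algebraMap k₁ F) = g.map (algebraMap k F) := by
    rw [hg₁, Polynomial.map_map]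
    rfl
  have hDF : D₁.map (algebraMap k₁ F) = D.map (algebraMap k F) := by
    rw [hD₁, Polynomial.map_map]
    rfl
  have hcomp : D₁.comp g₁ = (D.comp g).map (algebraMap k k₁) := (Polynomial.map_comp _ _ _).symm
  have hsep₁ : (D₁.comp g₁).Separable := by rw [hcomp]; exact hsep.map
  have hroot : ∀ β : F, aeval β (D₁.comp g₁) = aeval β (D.comp g) := by
    intro β
    rw [hcomp, aeval_map_algebraMap]
  have hgood₁ : Good g₁ D₁ := by
    have h := hgD
    refine ⟨?_, h.monic.map _, by rw [hg₁, h.monic.natDegree_map, h.deg], ?_,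
      Polynomial.map_ne_zero h.ne⟩
    · intro h0
      apply h.two
      apply (algebraMap k k₁).injective
      rw [map_ofNat, h0, map_zero]
    · rw [hg₁, derivative_map]
      exact Polynomial.map_ne_zero h.der
  have hcompF : (D.map (algebraMap k F)).comp (g.map (algebraMap k F)) =
      (D.comp g).map (algebraMap k F) := (Polynomial.map_comp _ _ _).symm
  have hsepF : ((D.map (algebraMap k F)).comp (g.map (algebraMap k F))).Separable := by
    rw [hcompF]; exact hsep.map
  have hne : D.comp g ≠ 0 := by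
    intro h0
    rw [h0] at hsep
    exact not_separable_zero hsep
  have hmemR : ∀ β : F, β ∈ ((D.map (algebraMap k F)).comp
      (g.map (algebraMap k F))).roots.toFinset ↔ aeval β (D.comp g) = 0 := by
    intro β
    rw [Multiset.mem_toFinset, hcompF, mem_roots (Polynomial.map_ne_zero hne), IsRoot.def,
      eval_map_algebraMap]
  have hfix : ∀ s ∈ adjoin k₁ {β : F | aeval β (D₁.comp g₁) = 0}, φ₀ s = s := by
    intro s hs
    have h1 := fix_adjoin45 (upP8 φ₀) (s := {β : F | aeval β (D₁.comp g₁) = 0}) (by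
      intro x hx
      rw [upP8_apply]
      exact hU x ((hroot x).symm.trans hx)) s hs
    exact h1
  apply vanP8_of_noTate
  intro k' _ c hc hS hinv
  have hmain := kummer_of_fixed (k := k₁) (F := F) (L := L) (Ω := Ω) hgood₁ hsep₁
    (⊥ : AddSubgroup ((twist g₁ D₁).map (base k₁ F L L)).toAffine.Point) ?_ k' c hc
    (fun τ n => hS (placeAt τ) n) hinv
  · intro n
    obtain ⟨P, hP, P', Q, h3, h4, h5⟩ := hmain n
    rw [AddSubgroup.mem_bot] at hP
    subst hP
    cases h3
    exact ⟨Q, h4, fun σ Q' hQ' => h5 σ Q' hQ'⟩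
  · intro Z hne hZ heven
    by_contra hcon
    rw [not_or, not_or] at hcon
    obtain ⟨H1, H2, -⟩ := hcon
    rw [hgF, hDF] at H1 H2
    have hZ' : ∀ γ ∈ Z, aeval γ (D.comp g) = 0 := fun γ hγ => (hroot γ).symm.trans (hZ γ hγ)
    have hZsub : Z ⊆ ((D.map (algebraMap k F)).comp (g.map (algebraMap k F))).roots.toFinset :=
      fun γ hγ => (hmemR γ).mpr (hZ' γ hγ)
    have hPne : ∀ γ : F, aeval γ (D.comp g) = 0 →
        PZ (g.map (algebraMap k F)) (D.map (algebraMap k F)) Z γ ≠ 0 := by
      intro γ hγ
      apply PZ_ne_zeroR8 hsepF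
      rw [hcompF, eval_map_algebraMap, hγ]
    have hev : EvenOver (g.map (algebraMap k F)) Z := by
      intro α
      have := heven α
      have h3 : (Z.filter fun β => aeval β g₁ = α) =
          Z.filter fun c => (g.map (algebraMap k F)).eval c = α := by
        apply Finset.filter_congr
        intro β _
        rw [hg₁, aeval_map_algebraMap, eval_map_algebraMap]
      rwa [h3] at this
    obtain ⟨h0, h1⟩ := hcond Z hZsub hev hne
    -- outside of `Z`
    have hsub : redei (Moves φ₀) (PZ (g.map (algebraMap k F)) (D.map (algebraMap k F)))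
        ((D.map (algebraMap k F)).comp (g.map (algebraMap k F))) Z ⊆ Z := by
      intro γ hγ
      unfold redei at hγ
      rw [Finset.mem_filter, hmemR] at hγ
      by_contra hγZ
      apply H1
      refine ⟨γ, (hroot γ).trans hγ.1, hγZ, fun s hs hs2 => ?_⟩
      exact hγ.2 s hs2 (hfix s hs)
    -- inside of `Z`
    have hin : ∀ γ ∈ Z, ∀ γ' ∈ Z,
        γ ∈ redei (Moves φ₀) (PZ (g.map (algebraMap k F)) (D.map (algebraMap k F)))
          ((D.map (algebraMap k F)).comp (g.map (algebraMap k F))) Z →
        γ' ∈ redei (Moves φ₀) (PZ (g.map (algebraMap k F)) (D.map (algebraMap k F)))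
          ((D.map (algebraMap k F)).comp (g.map (algebraMap k F))) Z := by
      intro γ hγ γ' hγ' hmem
      unfold redei at hmem ⊢
      rw [Finset.mem_filter] at hmem ⊢
      refine ⟨hZsub hγ', ?_⟩
      intro t ht htf
      obtain ⟨s, hs, hs2⟩ : ∃ s ∈ adjoin k₁ {β : F | aeval β (D₁.comp g₁) = 0},
          s ^ 2 = PZ (g.map (algebraMap k F)) (D.map (algebraMap k F)) Z γ *
            PZ (g.map (algebraMap k F)) (D.map (algebraMap k F)) Z γ' := by
        by_contra h5
        push Not at h5
        exact H2 ⟨γ, hγ, γ', hγ', h5⟩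
      have ht0 : t ≠ 0 := by
        rintro rfl
        apply hPne γ' (hZ' γ' hγ')
        rw [← ht, zero_pow two_ne_zero]
      apply hmem.2 (s / t)
      · rw [div_pow, hs2, ht]
        exact mul_div_cancel_right₀ _ (hPne γ' (hZ' γ' hγ'))
      · rw [map_div₀, hfix s hs, htf]
    obtain ⟨γ₀, hγ₀⟩ := Finset.nonempty_iff_ne_empty.mpr h0
    apply h1
    apply Finset.Subset.antisymm hsub
    intro γ hγ
    exact hin γ₀ (hsub hγ₀) γ hγ hγ₀

end

end Pool.Agent.Lib.MP_89bcae_ag
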