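import Mathlib
import Pool.Agent.Lib.MP_89bcae_ag.InfZR8
import Pool.Agent.Lib.MP_89bcae_ag.VanR8
import Pool.Agent.Lib.MP_89bcae_ag.FormIn14

/-!
# The formula for the divisors and the Rédei map
-/

open Polynomial WeierstrassCurve WeierstrassCurve.Affine IsDedekindDomain

open scoped Classical

namespace Pool.Agent.Lib.MP_89bcae_ag

set_option linter.unusedSectionVars false
set_option linter.style.haveILetI false

universe u

section PZ1

variable {F : Type*} [Field F] {g D : F[X]} {Z : Finset F} {b : F}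

lemma mem_fibreR8 (hg : g.Monic) (hdeg : g.natDegree = 3) {c : F} :
    c ∈ (g - C (g.eval b)).roots.toFinset ↔ g.eval c = g.eval b := by
  have hmon : (g - C (g.eval b)).Monic := by
    apply Monic.sub_of_left hg
    rw [degree_eq_natDegree hg.ne_zero, hdeg]
    exact lt_of_le_of_lt degree_C_le (by norm_num)
  rw [Multiset.mem_toFinset, mem_roots hmon.ne_zero, IsRoot.def, eval_sub, eval_C, sub_eq_zero]

/-- The second product for a point outside of the set. -/
lemma PZ1_of_notMem (hg : g.Monic) (hdeg : g.natDegree = 3) (hb : b ∉ Z) :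
    PZ1 g D Z b = ∏ c ∈ Z, (b - c) := by
  unfold PZ1 PZ
  rw [if_neg hb, mul_one, ← Finset.prod_filter_mul_prod_filter_not Z
    (fun c => g.eval c ≠ g.eval b)]
  congr 1
  apply Finset.prod_congr _ fun _ _ => rfl
  ext c
  rw [Finset.mem_filter, Finset.mem_filter, mem_fibreR8 hg hdeg, not_not]
  constructor
  · rintro ⟨h1, h2, h3⟩
    exact ⟨h3.mpr hb, h1⟩
  · rintro ⟨h1, h2⟩
    exact ⟨h2, fun h3 => hb (h3 ▸ h1), ⟨fun _ => hb, fun _ => h1⟩⟩

/-- The second product for a point of the set, up to a square. -/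
lemma PZ1_of_mem [IsAlgClosed F] (hg : g.Monic) (hdeg : g.natDegree = 3)
    (hsep : (g - C (g.eval b)).Separable) (hb : b ∈ Z) :
    -(derivative D).eval (g.eval b) * (derivative g).eval b * ∏ c ∈ Z.erase b, (b - c) =
      PZ1 g D Z b * (∏ c ∈ (Z.erase b).filter (fun c => g.eval c = g.eval b), (b - c)) ^ 2 := by
  set f := g - C (g.eval b) with hf
  have hmon : f.Monic := by
    apply Monic.sub_of_left hg
    rw [degree_eq_natDegree hg.ne_zero, hdeg]
    exact lt_of_le_of_lt degree_C_le (by norm_num)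
  have hfib : ∀ c, c ∈ f.roots.toFinset ↔ g.eval c = g.eval b := fun c => mem_fibreR8 hg hdeg
  have hbf : b ∈ f.roots.toFinset := (hfib b).mpr rfl
  have hprod : f = ∏ c ∈ f.roots.toFinset, (X - C c) := by
    have h1 := (IsAlgClosed.splits f).eq_prod_roots
    rw [hmon.leadingCoeff, C_1, one_mul] at h1
    conv_lhs => rw [h1]
    change _ = ((f.roots.toFinset).val.map fun c => (X - C c : F[X])).prod
    rw [Multiset.toFinset_val, Multiset.dedup_eq_self.mpr (nodup_roots hsep)]
  -- the derivative
  have hder : (derivative g).eval b = ∏ c ∈ f.roots.toFinset.erase b, (b - c) := by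
    have h1 : derivative g = derivative f := by
      rw [hf, derivative_sub, derivative_C, sub_zero]
    have key : ∀ (f : F[X]) (S : Finset F), b ∈ S → f = ∏ c ∈ S, (X - C c) →
        (derivative f).eval b = ∏ c ∈ S.erase b, (b - c) := by
      intro f S hbS hfS
      rw [hfS, ← Finset.mul_prod_erase _ _ hbS, derivative_mul, eval_add, eval_mul, eval_mul,
        derivative_sub, derivative_X, derivative_C, sub_zero, eval_one, one_mul, eval_sub, eval_X,
        eval_C, sub_self, zero_mul, add_zero, eval_prod]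
      exact Finset.prod_congr rfl fun c _ => by rw [eval_sub, eval_X, eval_C]
    rw [h1]
    exact key _ _ hbf hprod
  -- split the product
  have hs1 : ∏ c ∈ Z.erase b, (b - c) =
      (∏ c ∈ (Z.erase b).filter (fun c => g.eval c = g.eval b), (b - c)) *
        ∏ c ∈ Z.filter (fun c => g.eval c ≠ g.eval b), (b - c) := by
    rw [← Finset.prod_filter_mul_prod_filter_not (Z.erase b) (fun c => g.eval c = g.eval b)]
    congr 1
    apply Finset.prod_congr _ fun _ _ => rfl
    ext c
    rw [Finset.mem_filter, Finset.mem_filter, Finset.mem_erase]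
    constructor
    · rintro ⟨⟨h1, h2⟩, h3⟩
      exact ⟨h2, h3⟩
    · rintro ⟨h1, h2⟩
      exact ⟨⟨fun h => h2 (h ▸ rfl), h1⟩, h2⟩
  have hs2 : ∏ c ∈ f.roots.toFinset.erase b, (b - c) =
      (∏ c ∈ (Z.erase b).filter (fun c => g.eval c = g.eval b), (b - c)) *
        ∏ c ∈ f.roots.toFinset.filter (fun c => c ≠ b ∧ (c ∈ Z ↔ b ∉ Z)), (b - c) := by
    rw [← Finset.prod_filter_mul_prod_filter_not (f.roots.toFinset.erase b) (fun c => c ∈ Z)]
    congr 1
    · apply Finset.prod_congr _ fun _ _ => rfl
      ext c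
      rw [Finset.mem_filter, Finset.mem_filter, Finset.mem_erase, Finset.mem_erase, hfib]
      tauto
    · apply Finset.prod_congr _ fun _ _ => rfl
      ext c
      rw [Finset.mem_filter, Finset.mem_filter, Finset.mem_erase, hfib]
      have hb' : ¬ b ∉ Z := not_not.mpr hb
      tauto
  rw [hder, hs1, hs2]
  unfold PZ1 PZ
  rw [if_pos hb]
  ring

/-- Multiplication by the square of a fixed element does not change the property to be moved. -/
lemma moves_mul_sq {k F : Type*} [Field k] [Field F] [Algebra k F] {φ : F ≃ₐ[k] F} {x y : F}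
    (hy : φ y = y) (hy0 : y ≠ 0) : Moves φ (x * y ^ 2) ↔ Moves φ x := by
  constructor
  · intro h s hs hfix
    exact h (s * y) (by rw [mul_pow, hs]) (by rw [map_mul, hfix, hy])
  · intro h s hs hfix
    refine h (s / y) ?_ (by rw [map_div₀, hfix, hy])
    rw [div_pow, hs, mul_div_assoc, div_self (pow_ne_zero 2 hy0), mul_one]

end PZ1

variable {k F L Ω : Type u} [Field k] [Field F] [Algebra k F] {φ₀ : F ≃ₐ[k] F}
  [Algebra.IsAlgebraic k F] [IsAlgClosed F] [Field L] [Algebra F[X] L] [IsFractionRing F[X] L]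
  [Field Ω] [Algebra L Ω] [IsGalois L Ω] [IsSepClosed Ω] [IsSepClosure L Ω]

section

variable [Algebra F[X] Ω] [IsScalarTower F[X] L Ω]
  [Algebra k[X] L] [Algebra k[X] Ω] [IsScalarTower k[X] L Ω] {W : Affine k[X]} {g D E : k[X]}
  {Loc Loc' : ((Ω ≃ₐ[k[X]] Ω) → (W.baseChange Ω).Point) → Prop}

end

/-- **The formula**: the divisor of the second class is the image of the divisor of the first one
under the Rédei map. -/
theorem formR8_of {g D : k[X]} (hgood : Good g 1) (hsep : (D.comp g).Separable) (hDne : D ≠ 0)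
    (hU : ∀ β : F, aeval β (D.comp g) = 0 → φ₀ β = β)
    {r : ℕ} {s : Ω} (hs : s ^ (2 ^ (r + 1)) = base k F L Ω D)
    {φ : letI := algK k F L Ω
      Ω ≃ₐ[k[X]] Ω}
    (hφs : φ s = s)
    (hφ : letI := algK k F L L
      letI := algK k F L Ω
      letI := algF F L Ω
      haveI : IsScalarTower F[X] L Ω := IsScalarTower.of_algebraMap_eq fun _ => rfl
      haveI : IsScalarTower k[X] L Ω := IsScalarTower.of_algebraMap_eq fun _ => rfl
      resF (k := k) (F := F) (L := L) (Ω := Ω) (fun _ => rfl) φ = φ₀) :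
    FormR8 L g (redei (Moves φ₀) (PZ1 (g.map (algebraMap k F)) (D.map (algebraMap k F)))
      ((D.map (algebraMap k F)).comp (g.map (algebraMap k F)))) r s φ := by
  letI := algK k F L L
  letI := algK k F L Ω
  letI := algF F L Ω
  haveI : IsScalarTower F[X] L Ω := IsScalarTower.of_algebraMap_eq fun _ => rfl
  haveI : IsScalarTower k[X] L Ω := IsScalarTower.of_algebraMap_eq fun _ => rfl
  letI := actW (k := k) (Ω := Ω) (twist g 1).toAffine
  have hk : ∀ p : k[X], algebraMap k[X] L p = algebraMap F[X] L (p.map (algebraMap k F)) :=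
    fun _ => rfl
  have hF := hgood.map F
  have hGD : Good g D := ⟨hgood.two, hgood.monic, hgood.deg, hgood.der, hDne⟩
  have hW : IsTwist Ω (twist g 1).toAffine (g.map (algebraMap k F))
      ((1 : k[X]).map (algebraMap k F)) := (isTwist_twist hk).up
  have hs1 : (s ^ (2 ^ r)) ^ 2 = algebraMap F[X] Ω (D.map (algebraMap k F)) := by
    rw [← pow_mul, ← pow_succ, hs]
    rfl
  have hφ1 : φ (s ^ (2 ^ r)) = s ^ (2 ^ r) := by rw [map_pow, hφs]
  have hcompF : (D.map (algebraMap k F)).comp (g.map (algebraMap k F)) =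
      (D.comp g).map (algebraMap k F) := (Polynomial.map_comp _ _ _).symm
  have hne : D.comp g ≠ 0 := by
    intro h0
    rw [h0] at hsep
    exact not_separable_zero hsep
  have hmemR : ∀ β : F, β ∈ ((D.map (algebraMap k F)).comp
      (g.map (algebraMap k F))).roots.toFinset ↔ aeval β (D.comp g) = 0 := by
    intro β
    rw [Multiset.mem_toFinset, hcompF, mem_roots (Polynomial.map_ne_zero hne), IsRoot.def,
      eval_map_algebraMap]
  have hconv : ∀ b : F, (D.map (algebraMap k F)).eval ((g.map (algebraMap k F)).eval b) = 0 ↔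
      aeval b (D.comp g) = 0 := by
    intro b
    rw [aeval_comp, eval_map_algebraMap, eval_map_algebraMap]
  intro τ hτ hτ1 z z' y a a' hz hz' hy ha ha' h1 h2
  set Z := dvZ L (twist g 1).toAffine (g.map (algebraMap k F))
    ((1 : k[X]).map (algebraMap k F)) z with hZdef
  have hrootZ : ∀ c ∈ Z, aeval c (D.comp g) = 0 := dvZ_root (D := D) hgood hs hz
  have hrootZ' := dvZ_root (D := D) hgood hs hz'
  ext b
  unfold redei
  rw [Finset.mem_filter, hmemR]
  by_cases hb : aeval b (D.comp g) = 0
  swap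
  · exact ⟨fun h => absurd (hrootZ' b h) hb, fun h => absurd h.1 hb⟩
  rw [and_iff_right hb]
  have hfixγ : ∀ β, (D.map (algebraMap k F)).eval ((g.map (algebraMap k F)).eval β) = 0 →
      resF hk φ β = β := by
    intro β hβ
    have h3 := hU β ((hconv β).mp hβ)
    have h4 : resF hk φ = φ₀ := hφ
    rw [h4]
    exact h3
  by_cases hbZ : b ∈ Z
  · have h3 := dvZ_formula_in14 hk hGD hgood hsep hW hs1 hφ1 hfixγ hτ hτ1 hz hz' hy ha ha' h1 h2
      (fun c hc => (hconv c).mpr (hrootZ c hc)) ((hconv b).mpr hb) hbZ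
    rw [h3]
    have hsepb : (g.map (algebraMap k F) - C ((g.map (algebraMap k F)).eval b)).Separable := by
      have h4 : (X - C ((g.map (algebraMap k F)).eval b)) ∣ D.map (algebraMap k F) := by
        rw [dvd_iff_isRoot]
        exact (hconv b).mpr hb
      have h5 : (g.map (algebraMap k F) - C ((g.map (algebraMap k F)).eval b)) ∣
          (D.map (algebraMap k F)).comp (g.map (algebraMap k F)) := by
        obtain ⟨q, hq⟩ := h4
        refine ⟨q.comp (g.map (algebraMap k F)), ?_⟩
        rw [hq, mul_comp, sub_comp, X_comp, C_comp]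
      apply Separable.of_dvd _ h5
      rw [hcompF]
      exact hsep.map
    rw [← hZdef, PZ1_of_mem hF.monic hF.deg hsepb hbZ]
    have h6 : resF hk φ = φ₀ := hφ
    rw [h6]
    apply moves_mul_sq
    · rw [map_prod]
      apply Finset.prod_congr rfl
      intro c hc
      rw [Finset.mem_filter, Finset.mem_erase] at hc
      rw [map_sub, hU b hb, hU c (hrootZ c hc.1.2)]
    · rw [Finset.prod_ne_zero_iff]
      intro c hc
      rw [Finset.mem_filter, Finset.mem_erase] at hc
      exact sub_ne_zero.mpr (Ne.symm hc.1.1)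
  · have h3 := dvZ_formula14 hk hGD hgood hsep hW hs1 hφ1 hfixγ hτ hτ1 hz hz' hy ha ha' h1 h2
      (fun c hc => (hconv c).mpr (hrootZ c hc)) ((hconv b).mpr hb) hbZ
    rw [h3, PZ1_of_notMem hF.monic hF.deg hbZ]
    have h6 : resF hk φ = φ₀ := hφ
    rw [h6]
    exact Iff.rfl

end Pool.Agent.Lib.MP_89bcae_ag
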