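import Mathlib
import Pool.Agent.Lib.MP_89bcae_ag.InfFormR8

/-!
# The Rédei criterion for the whole tower
-/

open Polynomial WeierstrassCurve WeierstrassCurve.Affine IsDedekindDomain

open scoped Classical

namespace Pool.Agent.Lib.MP_89bcae_ag

universe u

/-- **The Rédei criterion for the whole tower.** -/
theorem thmR8 (k F L Ω : Type u) [Field k] [Field F] [Algebra k F]
    [IsAlgClosure k F] [Field L] [Algebra F[X] L] [IsFractionRing F[X] L] [Field Ω] [Algebra L Ω]
    [IsSepClosure L Ω] (h2 : (2 : k) ≠ 0) {g D : k[X]} (hg : g.Monic) (hdeg : g.natDegree = 3)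
    (hD : D.natDegree ≠ 0) (hsep : (D.comp g).Separable) (U : F ≃ₐ[k] F)
    (hU : ∀ β : F, aeval β (D.comp g) = 0 → U β = β)
    (h0 : NoEigen (Moves U) (PZ (g.map (algebraMap k F)) (D.map (algebraMap k F)))
      (g.map (algebraMap k F)) (D.map (algebraMap k F)))
    (h1 : NoEigen (Moves U) (PZ1 (g.map (algebraMap k F)) (D.map (algebraMap k F)))
      (g.map (algebraMap k F)) (D.map (algebraMap k F)))
    (h3 : Moves U (-1) → ∀ Z ⊆ ((D.map (algebraMap k F)).comp
      (g.map (algebraMap k F))).roots.toFinset, EvenOver (g.map (algebraMap k F)) Z →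
        Z.Nonempty → redei (Moves U) (PZ1 (g.map (algebraMap k F)) (D.map (algebraMap k F)))
          ((D.map (algebraMap k F)).comp (g.map (algebraMap k F)))
          (redei (Moves U) (PZ1 (g.map (algebraMap k F)) (D.map (algebraMap k F)))
            ((D.map (algebraMap k F)).comp (g.map (algebraMap k F))) Z) ≠
          symmDiff (redei (Moves U) (PZ1 (g.map (algebraMap k F)) (D.map (algebraMap k F)))
            ((D.map (algebraMap k F)).comp (g.map (algebraMap k F))) Z) Z)
    (k' : IntermediateField k F) [FiniteDimensional k k'] (r : ℕ) (s : Ω)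
    (hs : s ^ 2 ^ r = base k F L Ω D) : NoTateClassOver k F L g D (cover k' F L s) := by
  have hF : IsAlgClosed F := IsAlgClosure.isAlgClosed k
  have hkF : Algebra.IsAlgebraic k F := IsAlgClosure.isAlgebraic
  have hΩ : IsSepClosed Ω := IsSepClosure.sep_closed L
  have hsp : Algebra.IsSeparable L Ω := IsSepClosure.separable
  have hG : IsGalois L Ω := IsSepClosure.isGalois
  have hDne : D ≠ 0 := by
    rintro rfl
    exact hD natDegree_zero
  have hd : derivative g ≠ 0 := by
    intro h0
    have h1 : derivative (D.comp g) = 0 := by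
      rw [derivative_comp, h0, zero_mul]
    have h4 := hsep
    rw [Polynomial.Separable, h1, isCoprime_zero_right] at h4
    have h3 := natDegree_eq_zero_of_isUnit h4
    rw [natDegree_comp, hdeg] at h3
    omega
  have hgood : Good g 1 := ⟨h2, hg, hdeg, hd, one_ne_zero⟩
  have hgD : Good g D := ⟨h2, hg, hdeg, hd, hDne⟩
  have hcompF : (D.map (algebraMap k F)).comp (g.map (algebraMap k F)) =
      (D.comp g).map (algebraMap k F) := (Polynomial.map_comp _ _ _).symm
  have hne : D.comp g ≠ 0 := by
    intro h0
    rw [h0] at hsep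
    exact not_separable_zero hsep
  have hmemR : ∀ β : F, β ∈ ((D.map (algebraMap k F)).comp
      (g.map (algebraMap k F))).roots.toFinset ↔ aeval β (D.comp g) = 0 := by
    intro β
    rw [Multiset.mem_toFinset, hcompF, mem_roots (Polynomial.map_ne_zero hne), IsRoot.def,
      eval_map_algebraMap]
  -- `D` is not a square
  have hsepD : (D.map (algebraMap k F)).Separable := by
    have h5 : (D.map (algebraMap k F)).roots.Nodup := by
      rw [Multiset.nodup_iff_count_le_one]
      intro α
      obtain ⟨b, hb⟩ : ∃ b : F, (g.map (algebraMap k F)).eval b = α := by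
        have h1 : (g.map (algebraMap k F) - C α).degree ≠ 0 := by
          have h3 : (g.map (algebraMap k F) - C α).natDegree = 3 := by
            rw [natDegree_sub_C, hg.natDegree_map, hdeg]
          intro h4
          rw [natDegree_eq_of_degree_eq_some h4] at h3
          exact absurd h3 (by norm_num)
        obtain ⟨β, hβ⟩ := IsAlgClosed.exists_root _ h1
        refine ⟨β, ?_⟩
        rw [IsRoot.def, eval_sub, eval_C, sub_eq_zero] at hβ
        exact hβ
      rw [count_roots]
      by_contra hgt
      push Not at hgt
      have h6 : (X - C α) ^ 2 ∣ D.map (algebraMap k F) :=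
        (pow_dvd_pow _ hgt).trans (pow_rootMultiplicity_dvd _ _)
      have h7 : (g.map (algebraMap k F) - C α) ^ 2 ∣
          (D.map (algebraMap k F)).comp (g.map (algebraMap k F)) := by
        obtain ⟨q, hq⟩ := h6
        refine ⟨q.comp (g.map (algebraMap k F)), ?_⟩
        rw [hq, mul_comp, pow_comp, sub_comp, X_comp, C_comp]
      have h8 : (g.map (algebraMap k F) - C α) * (g.map (algebraMap k F) - C α) ∣
          (D.map (algebraMap k F)).comp (g.map (algebraMap k F)) := by
        rw [← sq]; exact h7
      have h9 : ((D.map (algebraMap k F)).comp (g.map (algebraMap k F))).Separable := by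
        rw [hcompF]; exact hsep.map
      have h10 : IsUnit (g.map (algebraMap k F) - C α) :=
        h9.squarefree _ h8
      have h11 := natDegree_eq_zero_of_isUnit h10
      rw [natDegree_sub_C, hg.natDegree_map, hdeg] at h11
      omega
    rwa [nodup_roots_iff_of_splits (Polynomial.map_ne_zero hDne) (IsAlgClosed.splits _)] at h5
  have hDsq : ¬ ∃ y : L, y ^ 2 = algebraMap F[X] L (D.map (algebraMap k F)) :=
    not_sq_of_separable hsepD (by rw [natDegree_map]; exact hD)
  have hcond : CondR8 U g D (redei (Moves U) (PZ1 (g.map (algebraMap k F))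
      (D.map (algebraMap k F))) ((D.map (algebraMap k F)).comp (g.map (algebraMap k F)))) := by
    intro Z hZ hroot heven
    have hsub : Z ⊆ ((D.map (algebraMap k F)).comp (g.map (algebraMap k F))).roots.toFinset :=
      fun c hc => (hmemR c).mpr (hroot c hc)
    have hev : EvenOver (g.map (algebraMap k F)) Z := by
      intro α
      have := heven α
      simpa only [eval_map_algebraMap] using this
    exact ⟨(h1 Z hsub hev hZ).1, (h1 Z hsub hev hZ).2, fun hm => h3 hm Z hsub hev hZ⟩
  exact noTowerR8 hgood hDne hDsq hU hcond (vanR8_of hgD hsep hU h0)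
    (fun r _ s hs φ hφs hφ => formR8_of hgood hsep hDne hU hs hφs hφ) k' r s hs

end Pool.Agent.Lib.MP_89bcae_ag
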