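import Mathlib
import Pool.Agent.Lib.MP_89bcae_ag.LinB8
import Pool.Agent.Lib.MP_89bcae_ag.ThmR8
import Pool.Agent.Lib.MP_89bcae_ag.KumU8

/-!
# The tower of a simple collision, from a parity homomorphism
-/

open Polynomial

open scoped Classical

set_option linter.unusedSimpArgs false
set_option linter.unusedVariables false
set_option linter.unusedSectionVars false

namespace Pool.Agent.Lib.MP_89bcae_ag

universe u

theorem redei_congr8 {F : Type*} [Field F] {N N' : F → Prop} {P : Finset F → F → F} {G : F[X]}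
    {Z : Finset F} (h : ∀ b ∈ G.roots.toFinset, N (P Z b) ↔ N' (P Z b)) :
    redei N P G Z = redei N' P G Z := by
  unfold redei
  exact Finset.filter_congr h

theorem NoEigen.congr8 {F : Type*} [Field F] {N N' : F → Prop} {P : Finset F → F → F}
    {g D : F[X]} (h : ∀ Z ⊆ (D.comp g).roots.toFinset, ∀ b ∈ (D.comp g).roots.toFinset,
      (N (P Z b) ↔ N' (P Z b))) (hN : NoEigen N P g D) : NoEigen N' P g D := by
  intro Z hZ he hne
  rw [← redei_congr8 (h Z hZ)]
  exact hN Z hZ he hne

/-- The tower of a twisting polynomial `D` such that the Galois group is transitive on the pairs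
of roots of `D(g(x))` in different fibres and there is a homomorphism `l` to `ZMod 2`, trivial at
`-1`, at the leading coefficient and at the differences of roots in the same fibre, and whose
values at the differences of the roots in different fibres describe a matching of two fibres. -/
theorem towerB8 (k F L Ω : Type u) [Field k] [Field F] [Algebra k F]
    [IsAlgClosure k F] [Field L] [Algebra F[X] L] [IsFractionRing F[X] L] [Field Ω] [Algebra L Ω]
    [IsSepClosure L Ω] (h2 : (2 : k) ≠ 0) {g D : k[X]} (hg : g.Monic) (hdeg : g.natDegree = 3)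
    (hn : 3 ≤ D.natDegree) (hsep : (D.comp g).Separable) (htr : IsPairTransitive7 k F g D)
    (S : Finset F) (hS : ∀ b, b ∈ S ↔ aeval b (D.comp g) = 0)
    (K : IntermediateField k F) (hK : K = IntermediateField.adjoin k (S : Set F))
    (l : F → ZMod 2)
    (hmul : ∀ x ∈ K, ∀ y ∈ K, x ≠ 0 → y ≠ 0 → l (x * y) = l x + l y)
    (hneg : l (-1) = 0) (hlc : l (algebraMap k F D.leadingCoeff) = 0)
    (hfib : ∀ x ∈ S, ∀ y ∈ S, x ≠ y → aeval x g = aeval y g → l (x - y) = 0)
    (b₀ c₀ : F) (hb₀ : b₀ ∈ S) (hc₀ : c₀ ∈ S) (hbc : aeval b₀ g ≠ aeval c₀ g)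
    (hm : IsMatch7 S (fun b => aeval b g) (aeval b₀ g) (aeval c₀ g) (fun b c => l (b - c)))
    (hl1 : l (b₀ - c₀) = 1)
    (k' : IntermediateField k F) [FiniteDimensional k k'] (r : ℕ) (s : Ω)
    (hs : s ^ 2 ^ r = base k F L Ω D) : NoTateClassOver k F L g D (cover k' F L s) := by
  have hF : IsAlgClosed F := IsAlgClosure.isAlgClosed k
  have hkF : Algebra.IsAlgebraic k F := IsAlgClosure.isAlgebraic
  have hne : D.comp g ≠ 0 := hsep.ne_zero
  have hcompF : (D.map (algebraMap k F)).comp (g.map (algebraMap k F)) =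
      (D.comp g).map (algebraMap k F) := (Polynomial.map_comp _ _ _).symm
  have hSR : ((D.map (algebraMap k F)).comp (g.map (algebraMap k F))).roots.toFinset = S := by
    ext β
    rw [hS, Multiset.mem_toFinset, hcompF, mem_roots (Polynomial.map_ne_zero hne), IsRoot.def,
      eval_map_algebraMap]
  have hsepF : ((D.map (algebraMap k F)).comp (g.map (algebraMap k F))).Separable := by
    rw [hcompF]; exact hsep.map
  have hnF : (D.map (algebraMap k F)).natDegree = D.natDegree := natDegree_map _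
  have hev : ∀ x : F, (g.map (algebraMap k F)).eval x = aeval x g := fun x =>
    eval_map_algebraMap _ _
  have hSK : ∀ x ∈ S, x ∈ K := fun x hx => by
    rw [hK]; exact IntermediateField.subset_adjoin k _ hx
  -- the Galois group permutes the roots
  have hσS : ∀ (σ : F ≃ₐ[k] F), ∀ x ∈ S, σ x ∈ S := by
    intro σ x hx
    rw [hS] at hx ⊢
    rw [Polynomial.aeval_algHom_apply, hx, map_zero]
  have hσK : ∀ (σ : F ≃ₐ[k] F), ∀ x ∈ K, σ x ∈ K := by
    intro σ x hx
    rw [hK] at hx ⊢
    refine IntermediateField.adjoin_induction k (p := fun x _ =>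
      σ x ∈ IntermediateField.adjoin k (S : Set F)) ?_ ?_ ?_ ?_ ?_ hx
    · intro y hy
      exact IntermediateField.subset_adjoin k _ (hσS σ y hy)
    · intro y
      rw [AlgEquiv.commutes]
      exact IntermediateField.algebraMap_mem _ y
    · intro y z _ _ hy hz
      rw [map_add]; exact add_mem hy hz
    · intro y _ hy
      rw [map_inv₀]; exact inv_mem hy
    · intro y z _ _ hy hz
      rw [map_mul]; exact mul_mem hy hz
  have hσg : ∀ (σ : F ≃ₐ[k] F) (x : F), aeval (σ x) g = σ (aeval x g) := fun σ x =>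
    Polynomial.aeval_algHom_apply (σ : F →ₐ[k] F) x g
  -- the set of the homomorphisms
  let good : Set (F → ZMod 2) := {m | (∀ x ∈ K, ∀ y ∈ K, x ≠ 0 → y ≠ 0 →
      m (x * y) = m x + m y) ∧ m (-1) = 0 ∧ m (algebraMap k F D.leadingCoeff) = 0 ∧
      ∀ x ∈ S, ∀ y ∈ S, x ≠ y → aeval x g = aeval y g → m (x - y) = 0}
  have hgood_add : ∀ m ∈ good, ∀ m' ∈ good, m + m' ∈ good := by
    rintro m ⟨h1, h3, h4, h5⟩ m' ⟨h1', h3', h4', h5'⟩
    refine ⟨fun x hx y hy hx0 hy0 => ?_, ?_, ?_, fun x hx y hy hxy hg => ?_⟩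
    · rw [Pi.add_apply, Pi.add_apply, Pi.add_apply, h1 x hx y hy hx0 hy0, h1' x hx y hy hx0 hy0]
      ring
    · rw [Pi.add_apply, h3, h3', add_zero]
    · rw [Pi.add_apply, h4, h4', add_zero]
    · rw [Pi.add_apply, h5 x hx y hy hxy hg, h5' x hx y hy hxy hg, add_zero]
  have hgood_σ : ∀ σ : F ≃ₐ[k] F, (fun x => l (σ x)) ∈ good := by
    intro σ
    refine ⟨fun x hx y hy hx0 hy0 => ?_, ?_, ?_, fun x hx y hy hxy hg => ?_⟩
    · show l (σ (x * y)) = l (σ x) + l (σ y)
      rw [map_mul]
      exact hmul _ (hσK σ x hx) _ (hσK σ y hy) ((map_ne_zero σ).mpr hx0) ((map_ne_zero σ).mpr hy0)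
    · show l (σ (-1)) = 0
      rw [map_neg, map_one, hneg]
    · show l (σ (algebraMap k F D.leadingCoeff)) = 0
      rw [AlgEquiv.commutes, hlc]
    · show l (σ (x - y)) = 0
      rw [map_sub]
      refine hfib _ (hσS σ x hx) _ (hσS σ y hy) (fun h => hxy (σ.injective h)) ?_
      rw [hσg, hσg, hg]
  obtain ⟨lam, hlam, hE0, hE1⟩ := exists_noEigen_of_match8
    (g := g.map (algebraMap k F)) (D := D.map (algebraMap k F)) (hg.map _)
    (by rw [natDegree_map, hdeg]) hsepF (by rw [hnF]; exact hn) K.toSubfield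
    (by rw [hSR]; exact hSK)
    (by rw [leadingCoeff_map]; exact IntermediateField.algebraMap_mem K _) good hgood_add
    (fun m hm' => hm'.1) (fun m hm' => hm'.2.1)
    (fun m hm' => by rw [leadingCoeff_map]; exact hm'.2.2.1)
    (by
      rw [hSR]
      intro m hm' x hx y hy hxy hg'
      rw [hev, hev] at hg'
      exact hm'.2.2.2 x hx y hy hxy hg')
    (by
      rw [hSR]
      intro x hx y hy hxy
      rw [hev, hev] at hxy
      obtain ⟨σ, hσ1, hσ2⟩ := htr x y b₀ c₀ ((hS x).mp hx) ((hS y).mp hy) ((hS b₀).mp hb₀)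
        ((hS c₀).mp hc₀) hxy hbc
      refine ⟨fun z => l (σ z), hgood_σ σ, ?_, ?_⟩
      · rw [hev, hev]
        have hfx : ∀ z, aeval z g = aeval x g ↔ aeval (σ z) g = aeval b₀ g := by
          intro z
          rw [← hσ1, hσg, hσg]
          exact σ.injective.eq_iff.symm
        have hfy : ∀ z, aeval z g = aeval y g ↔ aeval (σ z) g = aeval c₀ g := by
          intro z
          rw [← hσ2, hσg, hσg]
          exact σ.injective.eq_iff.symm
        have hσS' : ∀ x ∈ S, σ.symm x ∈ S := fun x hx => hσS σ.symm x hx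
        refine ⟨?_, ?_, ?_, ?_⟩
        · intro b hb c hc
          show l (σ (b - c)) = l (σ (c - b))
          rw [map_sub, map_sub]
          exact hm.symm _ (hσS σ b hb) _ (hσS σ c hc)
        · intro b hb c hc hbc' hne'
          simp only [hev] at hbc' ⊢
          change l (σ (b - c)) ≠ 0 at hne'
          rw [map_sub] at hne'
          have := hm.supp _ (hσS σ b hb) _ (hσS σ c hc) (by
            show aeval (σ b) g ≠ aeval (σ c) g
            rw [hσg, hσg]
            exact fun h => hbc' (σ.injective h)) hne'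
          rw [hfx, hfx, hfy, hfy]
          exact this
        · intro b hb hb'
          simp only [hev] at hb' ⊢
          obtain ⟨c, hc, h1, h3, h4⟩ := hm.left _ (hσS σ b hb) ((hfx b).mp hb')
          refine ⟨σ.symm c, hσS' c hc, ?_, ?_, ?_⟩
          · rw [hfy, AlgEquiv.apply_symm_apply]; exact h1
          · show l (σ (b - σ.symm c)) = 1
            rw [map_sub, AlgEquiv.apply_symm_apply]; exact h3
          · intro c' hc' h5 h6
            show l (σ (b - c')) = 0
            rw [map_sub]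
            refine h4 _ (hσS σ c' hc') ((hfy c').mp h5) (fun h7 => h6 ?_)
            rw [← h7, AlgEquiv.symm_apply_apply]
        · intro b hb hb'
          simp only [hev] at hb' ⊢
          obtain ⟨c, hc, h1, h3, h4⟩ := hm.right _ (hσS σ b hb) ((hfy b).mp hb')
          refine ⟨σ.symm c, hσS' c hc, ?_, ?_, ?_⟩
          · rw [hfx, AlgEquiv.apply_symm_apply]; exact h1
          · show l (σ (b - σ.symm c)) = 1
            rw [map_sub, AlgEquiv.apply_symm_apply]; exact h3
          · intro c' hc' h5 h6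
            show l (σ (b - c')) = 0
            rw [map_sub]
            refine h4 _ (hσS σ c' hc') ((hfx c').mp h5) (fun h7 => h6 ?_)
            rw [← h7, AlgEquiv.symm_apply_apply]
      · show l (σ (x - y)) = 1
        rw [map_sub, hσ1, hσ2]
        exact hl1)
  -- the finite set of the products
  set g' := g.map (algebraMap k F) with hg'
  set D' := D.map (algebraMap k F) with hD'
  have hgm : g'.Monic := hg.map _
  have hgd : g'.natDegree = 3 := by rw [hg', natDegree_map, hdeg]
  have hmemPZ : ∀ Z ⊆ S, ∀ b ∈ S, (PZ g' D' Z b ∈ K ∧ PZ g' D' Z b ≠ 0) ∧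
      (PZ1 g' D' Z b ∈ K ∧ PZ1 g' D' Z b ≠ 0) := by
    intro Z hZ b hb
    rw [← hSR] at hZ hb
    exact PZ_mem8 hgm hgd hsepF K.toSubfield (by rw [hSR]; exact hSK)
      (by rw [hD', leadingCoeff_map]; exact IntermediateField.algebraMap_mem K _) hZ hb
  obtain ⟨U, hUK, hUT⟩ := exists_U_of_symb8 h2 K lam hlam.1
    ({-1} ∪ (S.powerset ×ˢ S).image (fun q => PZ g' D' q.1 q.2) ∪
      (S.powerset ×ˢ S).image (fun q => PZ1 g' D' q.1 q.2)) (by
        intro x hx
        rw [Finset.mem_union, Finset.mem_union, Finset.mem_singleton, Finset.mem_image,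
          Finset.mem_image] at hx
        rcases hx with (rfl | ⟨q, hq, rfl⟩) | ⟨q, hq, rfl⟩
        · exact ⟨neg_mem (one_mem K), neg_ne_zero.mpr one_ne_zero⟩
        · rw [Finset.mem_product, Finset.mem_powerset] at hq
          exact (hmemPZ _ hq.1 _ hq.2).1
        · rw [Finset.mem_product, Finset.mem_powerset] at hq
          exact (hmemPZ _ hq.1 _ hq.2).2)
  have hU1 : ∀ Z ⊆ S, ∀ b ∈ S, (lam (PZ g' D' Z b) = 1 ↔ Moves U (PZ g' D' Z b)) :=
    fun Z hZ b hb => (hUT _ (Finset.mem_union_left _ (Finset.mem_union_right _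
      (Finset.mem_image.mpr ⟨(Z, b), Finset.mem_product.mpr
        ⟨Finset.mem_powerset.mpr hZ, hb⟩, rfl⟩)))).symm
  have hU2 : ∀ Z ⊆ S, ∀ b ∈ S, (lam (PZ1 g' D' Z b) = 1 ↔ Moves U (PZ1 g' D' Z b)) :=
    fun Z hZ b hb => (hUT _ (Finset.mem_union_right _
      (Finset.mem_image.mpr ⟨(Z, b), Finset.mem_product.mpr
        ⟨Finset.mem_powerset.mpr hZ, hb⟩, rfl⟩))).symm
  have hU3 : ¬ Moves U (-1) := by
    rw [hUT (-1) (Finset.mem_union_left _ (Finset.mem_union_left _
      (Finset.mem_singleton_self _))), hlam.2.1]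
    exact zero_ne_one
  exact thmR8 k F L Ω h2 hg hdeg (by omega) hsep U
    (fun β hβ => hUK β (hSK β ((hS β).mpr hβ)))
    (NoEigen.congr8 (by rw [hSR]; exact hU1) hE0) (NoEigen.congr8 (by rw [hSR]; exact hU2) hE1)
    (fun h => absurd h hU3) k' r s hs

end Pool.Agent.Lib.MP_89bcae_ag
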