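import Mathlib
import Pool.Agent.Lib.MP_89bcae_ag.MatC7
import Pool.Agent.Lib.MP_89bcae_ag.LinB8
import Pool.Agent.Lib.MP_89bcae_ag.KumU8
import Pool.Agent.Lib.MP_89bcae_ag.ThmB8
import Pool.Agent.Lib.MP_89bcae_ag.GenC8

/-!
# Automorphisms without eigenvalues
-/

open Polynomial WeierstrassCurve WeierstrassCurve.Affine IsDedekindDomain

open scoped Classical

set_option linter.unusedSimpArgs false
set_option linter.unusedVariables false
set_option linter.unusedSectionVars false
set_option linter.style.haveILetI false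

namespace Pool.Agent.Lib.MP_89bcae_ag

universe u

/-- An automorphism without eigenvalues, for a polynomial `D` such that the Galois group is transitive on the pairs
of roots of `D(g(x))` in different fibres and there is a homomorphism `l` to `ZMod 2`, trivial at
`-1`, at the leading coefficient and at the differences of roots in the same fibre, and whose
values at the differences of the roots in different fibres describe a matching of two fibres. -/
theorem exists_U_of_parity8 (k F : Type u) [Field k] [Field F] [Algebra k F]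
    [IsAlgClosure k F] (h2 : (2 : k) ≠ 0) {g D : k[X]} (hg : g.Monic) (hdeg : g.natDegree = 3)
    (hn : 3 ≤ D.natDegree) (hsep : (D.comp g).Separable) (htr : IsPairTransitive7 k F g D)
    (S : Finset F) (hS : ∀ b, b ∈ S ↔ aeval b (D.comp g) = 0)
    (K : IntermediateField k F) (hK : K = IntermediateField.adjoin k (S : Set F))
    (l : F → ZMod 2)
    (hmul : ∀ x ∈ K, ∀ y ∈ K, x ≠ 0 → y ≠ 0 → l (x * y) = l x + l y)
    (hneg : l (-1) = 0) (hlc : l (algebraMap k F D.leadingCoeff) = 0)
    (hfib : ∀ x ∈ S, ∀ y ∈ S, x ≠ y → aeval x g = aeval y g → l (x - y) = 0)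
    (b₀ c₀ : F) (hb₀ : b₀ ∈ S) (hc₀ : c₀ ∈ S) (hbc : aeval b₀ g ≠ aeval c₀ g)
    (hm : IsMatch7 S (fun b => aeval b g) (aeval b₀ g) (aeval c₀ g) (fun b c => l (b - c)))
    (hl1 : l (b₀ - c₀) = 1) :
    ∃ U : F ≃ₐ[k] F, (∀ β : F, aeval β (D.comp g) = 0 → U β = β) ∧
      NoEigen (Moves U) (PZ (g.map (algebraMap k F)) (D.map (algebraMap k F)))
        (g.map (algebraMap k F)) (D.map (algebraMap k F)) ∧
      NoEigen (Moves U) (PZ1 (g.map (algebraMap k F)) (D.map (algebraMap k F)))
        (g.map (algebraMap k F)) (D.map (algebraMap k F)) ∧ ¬ Moves U (-1) := by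
  have hF : IsAlgClosed F := IsAlgClosure.isAlgClosed k
  have hkF : Algebra.IsAlgebraic k F := IsAlgClosure.isAlgebraic
  have hne : D.comp g ≠ 0 := hsep.ne_zero
  have hcompF : (D.map (algebraMap k F)).comp (g.map (algebraMap k F)) =
      (D.comp g).map (algebraMap k F) := (Polynomial.map_comp _ _ _).symm
  have hSR : ((D.map (algebraMap k F)).comp (g.map (algebraMap k F))).roots.toFinset = S := by
    ext β
    rw [hS, Multiset.mem_toFinset, hcompF, mem_roots (Polynomial.map_ne_zero hne), IsRoot.def,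
      eval_map_algebraMap]
  have hsepF : ((D.map (algebraMap k F)).comp (g.map (algebraMap k F))).Separable := by
    rw [hcompF]; exact hsep.map
  have hnF : (D.map (algebraMap k F)).natDegree = D.natDegree := natDegree_map _
  have hev : ∀ x : F, (g.map (algebraMap k F)).eval x = aeval x g := fun x =>
    eval_map_algebraMap _ _
  have hSK : ∀ x ∈ S, x ∈ K := fun x hx => by
    rw [hK]; exact IntermediateField.subset_adjoin k _ hx
  -- the Galois group permutes the roots
  have hσS : ∀ (σ : F ≃ₐ[k] F), ∀ x ∈ S, σ x ∈ S := by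
    intro σ x hx
    rw [hS] at hx ⊢
    rw [Polynomial.aeval_algHom_apply, hx, map_zero]
  have hσK : ∀ (σ : F ≃ₐ[k] F), ∀ x ∈ K, σ x ∈ K := by
    intro σ x hx
    rw [hK] at hx ⊢
    refine IntermediateField.adjoin_induction k (p := fun x _ =>
      σ x ∈ IntermediateField.adjoin k (S : Set F)) ?_ ?_ ?_ ?_ ?_ hx
    · intro y hy
      exact IntermediateField.subset_adjoin k _ (hσS σ y hy)
    · intro y
      rw [AlgEquiv.commutes]
      exact IntermediateField.algebraMap_mem _ y
    · intro y z _ _ hy hz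
      rw [map_add]; exact add_mem hy hz
    · intro y _ hy
      rw [map_inv₀]; exact inv_mem hy
    · intro y z _ _ hy hz
      rw [map_mul]; exact mul_mem hy hz
  have hσg : ∀ (σ : F ≃ₐ[k] F) (x : F), aeval (σ x) g = σ (aeval x g) := fun σ x =>
    Polynomial.aeval_algHom_apply (σ : F →ₐ[k] F) x g
  -- the set of the homomorphisms
  let good : Set (F → ZMod 2) := {m | (∀ x ∈ K, ∀ y ∈ K, x ≠ 0 → y ≠ 0 →
      m (x * y) = m x + m y) ∧ m (-1) = 0 ∧ m (algebraMap k F D.leadingCoeff) = 0 ∧
      ∀ x ∈ S, ∀ y ∈ S, x ≠ y → aeval x g = aeval y g → m (x - y) = 0}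
  have hgood_add : ∀ m ∈ good, ∀ m' ∈ good, m + m' ∈ good := by
    rintro m ⟨h1, h3, h4, h5⟩ m' ⟨h1', h3', h4', h5'⟩
    refine ⟨fun x hx y hy hx0 hy0 => ?_, ?_, ?_, fun x hx y hy hxy hg => ?_⟩
    · rw [Pi.add_apply, Pi.add_apply, Pi.add_apply, h1 x hx y hy hx0 hy0, h1' x hx y hy hx0 hy0]
      ring
    · rw [Pi.add_apply, h3, h3', add_zero]
    · rw [Pi.add_apply, h4, h4', add_zero]
    · rw [Pi.add_apply, h5 x hx y hy hxy hg, h5' x hx y hy hxy hg, add_zero]
  have hgood_σ : ∀ σ : F ≃ₐ[k] F, (fun x => l (σ x)) ∈ good := by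
    intro σ
    refine ⟨fun x hx y hy hx0 hy0 => ?_, ?_, ?_, fun x hx y hy hxy hg => ?_⟩
    · show l (σ (x * y)) = l (σ x) + l (σ y)
      rw [map_mul]
      exact hmul _ (hσK σ x hx) _ (hσK σ y hy) ((map_ne_zero σ).mpr hx0) ((map_ne_zero σ).mpr hy0)
    · show l (σ (-1)) = 0
      rw [map_neg, map_one, hneg]
    · show l (σ (algebraMap k F D.leadingCoeff)) = 0
      rw [AlgEquiv.commutes, hlc]
    · show l (σ (x - y)) = 0
      rw [map_sub]
      refine hfib _ (hσS σ x hx) _ (hσS σ y hy) (fun h => hxy (σ.injective h)) ?_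
      rw [hσg, hσg, hg]
  obtain ⟨lam, hlam, hE0, hE1⟩ := exists_noEigen_of_match8
    (g := g.map (algebraMap k F)) (D := D.map (algebraMap k F)) (hg.map _)
    (by rw [natDegree_map, hdeg]) hsepF (by rw [hnF]; exact hn) K.toSubfield
    (by rw [hSR]; exact hSK)
    (by rw [leadingCoeff_map]; exact IntermediateField.algebraMap_mem K _) good hgood_add
    (fun m hm' => hm'.1) (fun m hm' => hm'.2.1)
    (fun m hm' => by rw [leadingCoeff_map]; exact hm'.2.2.1)
    (by
      rw [hSR]
      intro m hm' x hx y hy hxy hg'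
      rw [hev, hev] at hg'
      exact hm'.2.2.2 x hx y hy hxy hg')
    (by
      rw [hSR]
      intro x hx y hy hxy
      rw [hev, hev] at hxy
      obtain ⟨σ, hσ1, hσ2⟩ := htr x y b₀ c₀ ((hS x).mp hx) ((hS y).mp hy) ((hS b₀).mp hb₀)
        ((hS c₀).mp hc₀) hxy hbc
      refine ⟨fun z => l (σ z), hgood_σ σ, ?_, ?_⟩
      · rw [hev, hev]
        have hfx : ∀ z, aeval z g = aeval x g ↔ aeval (σ z) g = aeval b₀ g := by
          intro z
          rw [← hσ1, hσg, hσg]
          exact σ.injective.eq_iff.symm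
        have hfy : ∀ z, aeval z g = aeval y g ↔ aeval (σ z) g = aeval c₀ g := by
          intro z
          rw [← hσ2, hσg, hσg]
          exact σ.injective.eq_iff.symm
        have hσS' : ∀ x ∈ S, σ.symm x ∈ S := fun x hx => hσS σ.symm x hx
        refine ⟨?_, ?_, ?_, ?_⟩
        · intro b hb c hc
          show l (σ (b - c)) = l (σ (c - b))
          rw [map_sub, map_sub]
          exact hm.symm _ (hσS σ b hb) _ (hσS σ c hc)
        · intro b hb c hc hbc' hne'
          simp only [hev] at hbc' ⊢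
          change l (σ (b - c)) ≠ 0 at hne'
          rw [map_sub] at hne'
          have := hm.supp _ (hσS σ b hb) _ (hσS σ c hc) (by
            show aeval (σ b) g ≠ aeval (σ c) g
            rw [hσg, hσg]
            exact fun h => hbc' (σ.injective h)) hne'
          rw [hfx, hfx, hfy, hfy]
          exact this
        · intro b hb hb'
          simp only [hev] at hb' ⊢
          obtain ⟨c, hc, h1, h3, h4⟩ := hm.left _ (hσS σ b hb) ((hfx b).mp hb')
          refine ⟨σ.symm c, hσS' c hc, ?_, ?_, ?_⟩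
          · rw [hfy, AlgEquiv.apply_symm_apply]; exact h1
          · show l (σ (b - σ.symm c)) = 1
            rw [map_sub, AlgEquiv.apply_symm_apply]; exact h3
          · intro c' hc' h5 h6
            show l (σ (b - c')) = 0
            rw [map_sub]
            refine h4 _ (hσS σ c' hc') ((hfy c').mp h5) (fun h7 => h6 ?_)
            rw [← h7, AlgEquiv.symm_apply_apply]
        · intro b hb hb'
          simp only [hev] at hb' ⊢
          obtain ⟨c, hc, h1, h3, h4⟩ := hm.right _ (hσS σ b hb) ((hfy b).mp hb')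
          refine ⟨σ.symm c, hσS' c hc, ?_, ?_, ?_⟩
          · rw [hfx, AlgEquiv.apply_symm_apply]; exact h1
          · show l (σ (b - σ.symm c)) = 1
            rw [map_sub, AlgEquiv.apply_symm_apply]; exact h3
          · intro c' hc' h5 h6
            show l (σ (b - c')) = 0
            rw [map_sub]
            refine h4 _ (hσS σ c' hc') ((hfx c').mp h5) (fun h7 => h6 ?_)
            rw [← h7, AlgEquiv.symm_apply_apply]
      · show l (σ (x - y)) = 1
        rw [map_sub, hσ1, hσ2]
        exact hl1)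
  -- the finite set of the products
  set g' := g.map (algebraMap k F) with hg'
  set D' := D.map (algebraMap k F) with hD'
  have hgm : g'.Monic := hg.map _
  have hgd : g'.natDegree = 3 := by rw [hg', natDegree_map, hdeg]
  have hmemPZ : ∀ Z ⊆ S, ∀ b ∈ S, (PZ g' D' Z b ∈ K ∧ PZ g' D' Z b ≠ 0) ∧
      (PZ1 g' D' Z b ∈ K ∧ PZ1 g' D' Z b ≠ 0) := by
    intro Z hZ b hb
    rw [← hSR] at hZ hb
    exact PZ_mem8 hgm hgd hsepF K.toSubfield (by rw [hSR]; exact hSK)
      (by rw [hD', leadingCoeff_map]; exact IntermediateField.algebraMap_mem K _) hZ hb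
  obtain ⟨U, hUK, hUT⟩ := exists_U_of_symb8 h2 K lam hlam.1
    ({-1} ∪ (S.powerset ×ˢ S).image (fun q => PZ g' D' q.1 q.2) ∪
      (S.powerset ×ˢ S).image (fun q => PZ1 g' D' q.1 q.2)) (by
        intro x hx
        rw [Finset.mem_union, Finset.mem_union, Finset.mem_singleton, Finset.mem_image,
          Finset.mem_image] at hx
        rcases hx with (rfl | ⟨q, hq, rfl⟩) | ⟨q, hq, rfl⟩
        · exact ⟨neg_mem (one_mem K), neg_ne_zero.mpr one_ne_zero⟩
        · rw [Finset.mem_product, Finset.mem_powerset] at hq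
          exact (hmemPZ _ hq.1 _ hq.2).1
        · rw [Finset.mem_product, Finset.mem_powerset] at hq
          exact (hmemPZ _ hq.1 _ hq.2).2)
  have hU1 : ∀ Z ⊆ S, ∀ b ∈ S, (lam (PZ g' D' Z b) = 1 ↔ Moves U (PZ g' D' Z b)) :=
    fun Z hZ b hb => (hUT _ (Finset.mem_union_left _ (Finset.mem_union_right _
      (Finset.mem_image.mpr ⟨(Z, b), Finset.mem_product.mpr
        ⟨Finset.mem_powerset.mpr hZ, hb⟩, rfl⟩)))).symm
  have hU2 : ∀ Z ⊆ S, ∀ b ∈ S, (lam (PZ1 g' D' Z b) = 1 ↔ Moves U (PZ1 g' D' Z b)) :=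
    fun Z hZ b hb => (hUT _ (Finset.mem_union_right _
      (Finset.mem_image.mpr ⟨(Z, b), Finset.mem_product.mpr
        ⟨Finset.mem_powerset.mpr hZ, hb⟩, rfl⟩))).symm
  have hU3 : ¬ Moves U (-1) := by
    rw [hUT (-1) (Finset.mem_union_left _ (Finset.mem_union_left _
      (Finset.mem_singleton_self _))), hlam.2.1]
    exact zero_ne_one
  exact ⟨U, fun β hβ => hUK β (hSK β ((hS β).mpr hβ)),
    NoEigen.congr8 (by rw [hSR]; exact hU1) hE0, NoEigen.congr8 (by rw [hSR]; exact hU2) hE1, hU3⟩

/-- **The collision criterion: an automorphism without eigenvalues.** -/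
theorem exists_U_of_collision8 (R k F : Type u) [CommRing R] [IsDomain R]
    [IsDiscreteValuationRing R] [Field k] [Algebra R k] [IsFractionRing R k] [Field F] [Algebra k F]
    [IsAlgClosure k F] (h2 : IsUnit (2 : R)) {g D : R[X]} (hg : g.Monic) (hdeg : g.natDegree = 3)
    (hn : 3 ≤ D.natDegree) (hlc : IsUnit D.leadingCoeff) (hcol : IsCollision7 g D)
    (hsep : ((D.comp g).map (algebraMap R k)).Separable)
    (htr : IsPairTransitive7 k F (g.map (algebraMap R k)) (D.map (algebraMap R k))) :
    ∃ U : F ≃ₐ[k] F, (∀ β : F, aeval β ((D.map (algebraMap R k)).comp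
        (g.map (algebraMap R k))) = 0 → U β = β) ∧
      NoEigen (Moves U) (PZ ((g.map (algebraMap R k)).map (algebraMap k F))
        ((D.map (algebraMap R k)).map (algebraMap k F)))
        ((g.map (algebraMap R k)).map (algebraMap k F))
        ((D.map (algebraMap R k)).map (algebraMap k F)) ∧
      NoEigen (Moves U) (PZ1 ((g.map (algebraMap R k)).map (algebraMap k F))
        ((D.map (algebraMap R k)).map (algebraMap k F)))
        ((g.map (algebraMap R k)).map (algebraMap k F))
        ((D.map (algebraMap R k)).map (algebraMap k F)) ∧ ¬ Moves U (-1) := by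
  have hF : IsAlgClosed F := IsAlgClosure.isAlgClosed k
  have hkF : Algebra.IsAlgebraic k F := IsAlgClosure.isAlgebraic
  letI : Algebra R F := ((algebraMap k F).comp (algebraMap R k)).toAlgebra
  haveI : IsScalarTower R k F := IsScalarTower.of_algebraMap_eq fun _ => rfl
  have hinjk : Function.Injective (algebraMap R k) := IsFractionRing.injective R k
  have hinjF : Function.Injective (algebraMap R F) := (algebraMap k F).injective.comp hinjk
  have hmapF : ∀ p : R[X], (p.map (algebraMap R k)).map (algebraMap k F) =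
      p.map (algebraMap R F) := fun p => by rw [Polynomial.map_map]; rfl
  have hgdeg : g.natDegree ≠ 0 := by rw [hdeg]; norm_num
  have h2k : (2 : k) ≠ 0 := by
    have h1 := h2.map (algebraMap R k)
    rw [map_ofNat] at h1
    exact h1.ne_zero
  have hlcF : algebraMap R F D.leadingCoeff ≠ 0 := (hlc.map (algebraMap R F)).ne_zero
  have hlcF' : (D.map (algebraMap R F)).leadingCoeff = algebraMap R F D.leadingCoeff :=
    leadingCoeff_map_of_injective hinjF D
  have hcompF : (D.map (algebraMap R F)).comp (g.map (algebraMap R F)) =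
      ((D.comp g).map (algebraMap R k)).map (algebraMap k F) := by
    rw [hmapF, Polynomial.map_comp]
  have hsepF : ((D.map (algebraMap R F)).comp (g.map (algebraMap R F))).Separable := by
    rw [hcompF]; exact hsep.map
  have hgF : (g.map (algebraMap R F)).natDegree = 3 := by rw [hg.natDegree_map, hdeg]
  have hsepD : (D.map (algebraMap R F)).Separable := separable_left7 (by rw [hgF]; norm_num) hsepF
  set gF := g.map (algebraMap R F) with hgFdef
  set DF := D.map (algebraMap R F) with hDFdef
  set S : Finset F := (DF.comp gF).roots.toFinset with hS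
  set A : Finset F := DF.roots.toFinset with hA
  have hmemS : ∀ b, b ∈ S ↔ DF.eval (gF.eval b) = 0 := by
    intro b
    rw [hS, Multiset.mem_toFinset, mem_roots hsepF.ne_zero, IsRoot.def, eval_comp]
  have hmemA : ∀ α, α ∈ A ↔ DF.eval α = 0 := by
    intro α
    rw [hA, Multiset.mem_toFinset, mem_roots hsepD.ne_zero, IsRoot.def]
  have hSA : ∀ b ∈ S, gF.eval b ∈ A := fun b hb => (hmemA _).mpr ((hmemS b).mp hb)
  have hDA : DF = C (algebraMap R F D.leadingCoeff) * ∏ α ∈ A, (X - C α) := by
    rw [← hlcF']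
    exact eq_prod_roots7 hsepD
  have hgS : ∀ α ∈ A, gF - C α = ∏ b ∈ S.filter (fun b => gF.eval b = α), (X - C b) := by
    intro α hα
    have h1 : (gF - C α) ∣ DF.comp gF := by
      obtain ⟨w, hw⟩ := dvd_iff_isRoot.mpr ((hmemA α).mp hα)
      refine ⟨w.comp gF, ?_⟩
      rw [hw, mul_comp, sub_comp, X_comp, C_comp]
    have h3 := eq_prod_roots7 (hsepF.of_dvd h1)
    have h4 : (gF - C α).Monic := by
      have h5 : (C α).degree < gF.degree := by
        rw [degree_eq_natDegree (p := gF) (fun h => by rw [h, natDegree_zero] at hgF; omega), hgF]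
        exact (degree_C_le).trans_lt (by norm_num)
      exact (hg.map _).sub_of_left h5
    rw [h4.leadingCoeff, C_1, one_mul] at h3
    rw [h3]
    congr 1
    ext b
    rw [Finset.mem_filter, Multiset.mem_toFinset, mem_roots h4.ne_zero, IsRoot.def, eval_sub,
      eval_C, sub_eq_zero, hmemS]
    constructor
    · exact fun h => ⟨by rw [h]; exact (hmemA α).mp hα, h⟩
    · exact fun h => h.2
  have hAS : ∀ α ∈ A, ∃ b ∈ S, gF.eval b = α := by
    intro α hα
    have h1 : (gF - C α).degree ≠ 0 := by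
      have h3 : (gF - C α).natDegree = 3 := by rw [natDegree_sub_C, hgF]
      intro h4
      rw [natDegree_eq_of_degree_eq_some h4] at h3
      exact absurd h3 (by norm_num)
    obtain ⟨b, hb⟩ := IsAlgClosed.exists_root _ h1
    rw [IsRoot.def, eval_sub, eval_C, sub_eq_zero] at hb
    exact ⟨b, (hmemS b).mpr (by rw [hb]; exact (hmemA α).mp hα), hb⟩
  have hSroot : (S : Set F) = ((D.comp g).map (algebraMap R k)).rootSet F := by
    rw [rootSet, hS, hcompF, aroots]
  obtain ⟨hfin, hgal⟩ := galois7 (F := F) hsep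
  obtain ⟨K, hK⟩ : ∃ K, K = IntermediateField.adjoin k (S : Set F) := ⟨_, rfl⟩
  haveI : FiniteDimensional k K := by rw [hK, hSroot]; exact hfin
  haveI : IsGalois k K := by rw [hK, hSroot]; exact hgal
  obtain ⟨w, hw1, hw2, hw3, α₁, hα₁, α₂, hα₂, h12, hw4, hw5⟩ := exists_ord7 (R := R) (k := k)
    (F := F) h2 hgdeg hg hlc S A hDA hgS hSA hAS K hK hcol
  have hSK : ∀ b ∈ S, b ∈ K := by
    intro b hb
    rw [hK]
    exact IntermediateField.subset_adjoin _ _ hb
  have hm := isMatch_of_ord7 w S A hgS hSA hSK hw2 hα₁ hα₂ h12 hw4 hw5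
  obtain ⟨b₀, hb₀, hgb₀⟩ := hAS α₁ hα₁
  obtain ⟨c₀, hc₀, hgc₀, hl1, -⟩ := hm.left b₀ hb₀ hgb₀
  have hev : ∀ b : F, aeval b (g.map (algebraMap R k)) = gF.eval b := by
    intro b
    rw [← eval_map_algebraMap, hmapF]
  have hlck : (D.map (algebraMap R k)).leadingCoeff = algebraMap R k D.leadingCoeff :=
    leadingCoeff_map_of_injective hinjk D
  refine exists_U_of_parity8 k F h2k (hg.map _) (by rw [hg.natDegree_map, hdeg])
    (by rw [natDegree_map_eq_of_injective hinjk]; exact hn)
    (by rw [← Polynomial.map_comp]; exact hsep) htr S (fun b => ?_) K hK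
    (fun x => ((ordF7 w x : ℤ) : ZMod 2)) (fun x hx y hy hx0 hy0 => ?_) ?_ ?_
    (fun x hx y hy hxy hgxy => ?_) b₀ c₀ hb₀ hc₀ ?_ ?_ hl1
  · rw [hmemS, aeval_comp, ← eval_map_algebraMap, hmapF, hev]
  · rw [ordF7_mul w hx hy hx0 hy0, Int.cast_add]
  · rw [ordF7_neg, ordF7_one, Int.cast_zero]
  · rw [hlck]
    have h1 : algebraMap k F (algebraMap R k D.leadingCoeff) = algebraMap R F D.leadingCoeff := rfl
    rw [h1, hw1, Int.cast_zero]
  · rw [hev, hev] at hgxy
    rw [hw3 x hx y hy hxy hgxy, Int.cast_zero]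
  · rw [hev, hev, hgb₀, hgc₀]
    exact h12
  · simp only [hev]
    rw [hgb₀, hgc₀]
    exact hm

/-- **The generic polynomial: an automorphism without eigenvalues.** -/
theorem exists_U_generic8 (k K F : Type u) [Field k] [Field K] [Algebra k K] [Field F]
    [Algebra K F] [Algebra k F] [IsScalarTower k K F] [IsAlgClosure K F] (h2 : (2 : k) ≠ 0)
    {n : ℕ} (hn : 3 ≤ n) {a : Fin (n + 1) → K} (ha : AlgebraicIndependent k a)
    (htop : IntermediateField.adjoin k (Set.range a) = ⊤) {g : k[X]} (hg : g.Monic)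
    (hdeg : g.natDegree = 3) (hg' : derivative g ≠ 0) {t : k} (ht : (g - C t).Separable) :
    ((polyOf8 a).comp (g.map (algebraMap k K))).Separable ∧
    ∃ U : F ≃ₐ[K] F, (∀ β : F, aeval β ((polyOf8 a).comp
        (g.map (algebraMap k K))) = 0 → U β = β) ∧
      NoEigen (Moves U) (PZ ((g.map (algebraMap k K)).map (algebraMap K F))
        ((polyOf8 a).map (algebraMap K F)))
        ((g.map (algebraMap k K)).map (algebraMap K F)) ((polyOf8 a).map (algebraMap K F)) ∧
      NoEigen (Moves U) (PZ1 ((g.map (algebraMap k K)).map (algebraMap K F))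
        ((polyOf8 a).map (algebraMap K F)))
        ((g.map (algebraMap k K)).map (algebraMap K F)) ((polyOf8 a).map (algebraMap K F)) ∧
      ¬ Moves U (-1) := by
  have hF : IsAlgClosed F := IsAlgClosure.isAlgClosed K
  have hKF : Algebra.IsAlgebraic K F := IsAlgClosure.isAlgebraic
  obtain ⟨m, rfl⟩ : ∃ m, n = m + 2 := ⟨n - 2, by omega⟩
  have hg0 : g.natDegree ≠ 0 := by rw [hdeg]; norm_num
  have hbas := basis_of_top8 ha htop
  have hgen : ∀ L : IntermediateField k F, (∀ i, algebraMap K F (a i) ∈ L) →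
      ∀ z : K, algebraMap K F z ∈ L := fun L hL z => hgen_of_top8 htop L hL z
  have htr : IsPairTransitive7 K F (g.map (algebraMap k K)) (polyOf8 a) :=
    generic_pair8 hbas hgen hg0
  have hsep := generic_sep8 (F := F) hbas hgen hg0 hg'
  refine ⟨hsep, ?_⟩
  obtain ⟨R, i1, i2, i3, i4, i5, i6, i7, DR, hDR, hlc, hdR, hcol⟩ :=
    exists_collision8 hbas htop hg0 hg' ht
  have hgR : (g.map (algebraMap k R)).map (algebraMap R K) = g.map (algebraMap k K) := by
    rw [Polynomial.map_map, ← IsScalarTower.algebraMap_eq]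
  have h2R : IsUnit (2 : R) := by
    have h3 : IsUnit (2 : k) := isUnit_iff_ne_zero.mpr h2
    have h4 := h3.map (algebraMap k R)
    rwa [map_ofNat] at h4
  have h5 := exists_U_of_collision8 R K F h2R (g := g.map (algebraMap k R)) (D := DR)
    (hg.map _) (by rw [hg.natDegree_map, hdeg]) (by omega) hlc hcol
    (by rw [Polynomial.map_comp, hDR, hgR]; exact hsep) (by rw [hDR, hgR]; exact htr)
  rw [hDR, hgR] at h5
  exact h5

end Pool.Agent.Lib.MP_89bcae_ag
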