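import Mathlib
import Pool.Agent.Lib.MP_89bcae_ag.ThmC8

/-!
# The generic polynomial over an arbitrary field
-/

open Polynomial

open scoped Classical

set_option linter.unusedSimpArgs false
set_option linter.unusedVariables false
set_option linter.unusedSectionVars false
set_option linter.style.haveILetI false

namespace Pool.Agent.Lib.MP_89bcae_ag

universe u

/-- A cubic with nonzero derivative takes at most two critical values. -/
theorem card_crit_of_derivative8 {K : Type*} [Field K] {g : K[X]} (hder : derivative g ≠ 0)
    (hdeg : g.natDegree = 3) (S : Finset K) (hS : ∀ e ∈ S, ¬ (g - C e).Separable) :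
    S.card ≤ 2 := by
  let L := AlgebraicClosure K
  have hex : ∀ e ∈ S, ∃ θ ∈ ((derivative g).aroots L).toFinset, aeval θ g = algebraMap K L e := by
    intro e he
    have h1 := hS e he
    rw [Polynomial.Separable, Polynomial.isCoprime_iff_aeval_ne_zero_of_isAlgClosed K L] at h1
    push Not at h1
    obtain ⟨θ, h4, h5⟩ := h1
    rw [derivative_sub, derivative_C, sub_zero] at h5
    rw [map_sub, aeval_C, sub_eq_zero] at h4
    exact ⟨θ, by rw [Multiset.mem_toFinset, mem_aroots]; exact ⟨hder, h5⟩, h4⟩
  choose! f hf1 hf2 using hex
  have h6 : S.card ≤ ((derivative g).aroots L).toFinset.card := by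
    apply Finset.card_le_card_of_injOn f hf1
    intro x hx y hy hxy
    apply (algebraMap K L).injective
    rw [← hf2 x hx, ← hf2 y hy, hxy]
  refine h6.trans ((Multiset.toFinset_card_le _).trans ?_)
  refine (card_roots' _).trans ?_
  rw [natDegree_map]
  have := natDegree_derivative_le g
  omega

/-- A cubic with nonzero derivative over a field of characteristic different from `2` has a
noncritical value. -/
theorem exists_noncritical8 {K : Type*} [Field K] (h2 : (2 : K) ≠ 0) {g : K[X]}
    (hder : derivative g ≠ 0) (hdeg : g.natDegree = 3) : ∃ t : K, (g - C t).Separable := by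
  by_contra hcon
  push Not at hcon
  have h1 := card_crit_of_derivative8 hder hdeg {0, 1, -1} (fun e _ => hcon e)
  have h3 : ({0, 1, -1} : Finset K).card = 3 := by
    rw [Finset.card_eq_three]
    refine ⟨0, 1, -1, zero_ne_one, ?_, ?_, rfl⟩
    · intro h
      have : (1 : K) = 0 := by linear_combination h
      exact one_ne_zero this
    · intro h
      apply h2
      linear_combination h
  omega

end Pool.Agent.Lib.MP_89bcae_ag
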