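import Mathlib
import Pool.Agent.Lib.MP_89bcae_ag.ColS8
import Pool.Agent.Lib.MP_89bcae_ag.GenC8

/-!
# The generic superelliptic surface satisfies the arithmetic condition
-/

open Polynomial

open scoped Classical

set_option linter.unusedSimpArgs false
set_option linter.unusedVariables false
set_option linter.unusedSectionVars false
set_option linter.style.haveILetI false

namespace Pool.Agent.Lib.MP_89bcae_ag

universe u

/-- The generic polynomial, when `g` has a noncritical value in `k`. -/
theorem isIndependent_generic_aux8 {ℓ : ℕ} (hℓ : ℓ.Prime) (k K F : Type u) [Field k] [Field K]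
    [Algebra k K] [Field F] [Algebra K F] [Algebra k F] [IsScalarTower k K F] [IsAlgClosure K F]
    (h2 : (2 : k) ≠ 0) {n : ℕ} (hn : 3 ≤ n) {a : Fin (n + 1) → K} (ha : AlgebraicIndependent k a)
    (htop : IntermediateField.adjoin k (Set.range a) = ⊤) {g : k[X]} (hg : g.Monic)
    (hcop : g.natDegree.Coprime ℓ) (hg' : derivative g ≠ 0) {t : k} (ht : (g - C t).Separable) :
    ((polyOf8 a).comp (g.map (algebraMap k K))).Separable ∧
      Sup.IsIndependent ℓ K F (g.map (algebraMap k K)) (polyOf8 a) := by
  have hF : IsAlgClosed F := IsAlgClosure.isAlgClosed K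
  have hKF : Algebra.IsAlgebraic K F := IsAlgClosure.isAlgebraic
  obtain ⟨m, rfl⟩ : ∃ m, n = m + 2 := ⟨n - 2, by omega⟩
  have hg0 : g.natDegree ≠ 0 := by
    intro h0
    apply hg'
    rw [eq_C_of_natDegree_eq_zero h0, derivative_C]
  have hbas := basis_of_top8 ha htop
  have hgen : ∀ L : IntermediateField k F, (∀ i, algebraMap K F (a i) ∈ L) →
      ∀ z : K, algebraMap K F z ∈ L := fun L hL z => hgen_of_top8 htop L hL z
  have htr : IsPairTransitive7 K F (g.map (algebraMap k K)) (polyOf8 a) :=
    generic_pair8 hbas hgen hg0
  have hsep := generic_sep8 (F := F) hbas hgen hg0 hg'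
  refine ⟨hsep, ?_⟩
  obtain ⟨R, i1, i2, i3, i4, i5, i6, i7, DR, hDR, hlc, hdR, hcol⟩ :=
    exists_collision8 hbas htop hg0 hg' ht
  have hgR : (g.map (algebraMap k R)).map (algebraMap R K) = g.map (algebraMap k K) := by
    rw [Polynomial.map_map, ← IsScalarTower.algebraMap_eq]
  have h2R : IsUnit (2 : R) := by
    have h3 : IsUnit (2 : k) := isUnit_iff_ne_zero.mpr h2
    have h4 := h3.map (algebraMap k R)
    rwa [map_ofNat] at h4
  have h5 := isIndependent_of_collision8 hℓ R K F h2R (g := g.map (algebraMap k R)) (D := DR)
    (hg.map _) (by rw [hg.natDegree_map]; exact hg0) (by rw [hg.natDegree_map]; exact hcop)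
    (by omega) hlc hcol
    (by rw [Polynomial.map_comp, hDR, hgR]; exact hsep) (by rw [hDR, hgR]; exact htr)
  rw [hDR, hgR] at h5
  exact h5

/-- The arithmetic condition over an extension implies the arithmetic condition. -/
theorem isIndependent_of_extension8 {ℓ : ℕ} {K K' F : Type u} [Field K] [Field K'] [Field F]
    [Algebra K K'] [Algebra K' F] [Algebra K F] [IsScalarTower K K' F] {g D : K[X]}
    (h : Sup.IsIndependent ℓ K' F (g.map (algebraMap K K')) (D.map (algebraMap K K'))) :
    Sup.IsIndependent ℓ K F g D := by
  have hroots : Sup.roots K' F (g.map (algebraMap K K')) (D.map (algebraMap K K')) =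
      Sup.roots K F g D := by
    ext b
    show aeval (aeval b (g.map (algebraMap K K'))) (D.map (algebraMap K K')) = 0 ↔
      aeval (aeval b g) D = 0
    rw [aeval_map_algebraMap, aeval_map_algebraMap]
  have hle : ∀ x ∈ IntermediateField.adjoin K (Sup.roots K F g D),
      x ∈ IntermediateField.adjoin K' (Sup.roots K F g D) := by
    intro x hx
    refine IntermediateField.adjoin_induction K (p := fun x _ =>
      x ∈ IntermediateField.adjoin K' (Sup.roots K F g D)) ?_ ?_ ?_ ?_ ?_ hx
    · intro y hy
      exact IntermediateField.subset_adjoin K' _ hy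
    · intro y
      rw [IsScalarTower.algebraMap_apply K K' F]
      exact IntermediateField.algebraMap_mem _ _
    · intro y z _ _ hy hz
      exact add_mem hy hz
    · intro y _ hy
      exact inv_mem hy
    · intro y z _ _ hy hz
      exact mul_mem hy hz
  intro e κ hκ hκK hsum hpow β hβ
  refine h e κ hκ (by rw [hroots]; exact hle κ hκK) (fun b hb => ?_) (fun b hb => ?_) β
    (by rw [hroots]; exact hβ)
  · rw [hroots] at hb
    simp only [aeval_map_algebraMap]
    exact hsum b hb
  · rw [hroots] at hb ⊢
    obtain ⟨w, hw1, hw2⟩ := hpow b hb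
    refine ⟨w, hle w hw1, ?_⟩
    simp only [aeval_map_algebraMap]
    exact hw2

/-- A polynomial with nonzero derivative over an infinite field has a noncritical value. -/
theorem exists_noncritical_inf8 {K : Type*} [Field K] [Infinite K] {g : K[X]}
    (hder : derivative g ≠ 0) : ∃ t : K, (g - C t).Separable := by
  by_contra hcon
  push Not at hcon
  let L := AlgebraicClosure K
  have hex : ∀ e : K, ∃ θ ∈ ((derivative g).aroots L).toFinset,
      aeval θ g = algebraMap K L e := by
    intro e
    have h1 := hcon e
    rw [Polynomial.Separable, Polynomial.isCoprime_iff_aeval_ne_zero_of_isAlgClosed K L] at h1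
    push Not at h1
    obtain ⟨θ, h4, h5⟩ := h1
    rw [derivative_sub, derivative_C, sub_zero] at h5
    rw [map_sub, aeval_C, sub_eq_zero] at h4
    exact ⟨θ, by rw [Multiset.mem_toFinset, mem_aroots]; exact ⟨hder, h5⟩, h4⟩
  choose f hf1 hf2 using hex
  have hinj : Function.Injective fun e : K =>
      (⟨f e, hf1 e⟩ : ((derivative g).aroots L).toFinset) := by
    intro x y hxy
    apply (algebraMap K L).injective
    rw [← hf2 x, ← hf2 y]
    exact congrArg (fun z => aeval z g) (congrArg Subtype.val hxy)
  exact not_injective_infinite_finite _ hinj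

/-- **The generic superelliptic surface satisfies the arithmetic condition.** -/
theorem isIndependent_generic8 {ℓ : ℕ} (hℓ : ℓ.Prime) (k K F : Type u) [Field k] [Field K]
    [Algebra k K] [Field F] [Algebra K F] [Algebra k F] [IsScalarTower k K F] [IsAlgClosure K F]
    (h2 : (2 : k) ≠ 0) {n : ℕ} (hn : 3 ≤ n) {a : Fin (n + 1) → K} (ha : AlgebraicIndependent k a)
    (htop : IntermediateField.adjoin k (Set.range a) = ⊤) {g : k[X]} (hg : g.Monic)
    (hcop : g.natDegree.Coprime ℓ) (hg' : derivative g ≠ 0) :
    ((polyOf8 a).comp (g.map (algebraMap k K))).Separable ∧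
      Sup.IsIndependent ℓ K F (g.map (algebraMap k K)) (polyOf8 a) := by
  have hF : IsAlgClosed F := IsAlgClosure.isAlgClosed K
  have hKF : Algebra.IsAlgebraic K F := IsAlgClosure.isAlgebraic
  have hg0 : g.natDegree ≠ 0 := by
    intro h0
    apply hg'
    rw [eq_C_of_natDegree_eq_zero h0, derivative_C]
  refine ⟨generic_sep8 (F := F) (basis_of_top8 ha htop)
    (fun L hL z => hgen_of_top8 htop L hL z) hg0 hg', ?_⟩
  let k' : IntermediateField k F := algebraicClosure k F
  have hk'c : IsAlgClosed k' := IsAlgClosure.isAlgClosed k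
  have hinf : Infinite k' := inferInstance
  let K' : IntermediateField K F := IntermediateField.adjoin K (k' : Set F)
  have hk'K' : ∀ x : k', (x : F) ∈ K' := fun x => IntermediateField.subset_adjoin K _ x.2
  letI : Algebra k' K' := (RingHom.codRestrict (algebraMap k' F) K'.toSubalgebra.toSubring
    (fun x => hk'K' x)).toAlgebra
  haveI : IsScalarTower k' K' F := IsScalarTower.of_algebraMap_eq fun x => rfl
  haveI : IsAlgClosure K' F := ⟨hF, inferInstance⟩
  let a' : Fin (n + 1) → K' := fun i => algebraMap K K' (a i)
  have ha' : AlgebraicIndependent k' a' := by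
    have h1 : AlgebraicIndependent k (fun i => algebraMap K F (a i)) :=
      ha.map' (f := IsScalarTower.toAlgHom k K F) (algebraMap K F).injective
    have h3 : AlgebraicIndependent k' (fun i => algebraMap K F (a i)) := h1.extendScalars k'
    exact AlgebraicIndependent.of_comp (IsScalarTower.toAlgHom k' K' F) h3
  letI : Algebra k K' := ((algebraMap K K').comp (algebraMap k K)).toAlgebra
  haveI : IsScalarTower k K K' := IsScalarTower.of_algebraMap_eq fun x => rfl
  haveI : IsScalarTower k k' K' := IsScalarTower.of_algebraMap_eq fun x => by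
    apply (algebraMap K' F).injective
    show algebraMap K F (algebraMap k K x) = algebraMap k F x
    rw [← IsScalarTower.algebraMap_apply]
  have htop' : IntermediateField.adjoin k' (Set.range a') = ⊤ := by
    rw [eq_top_iff]
    rintro ⟨x, hx⟩ -
    refine IntermediateField.adjoin_induction K (s := (k' : Set F))
      (p := fun x hx => (⟨x, hx⟩ : K') ∈ IntermediateField.adjoin k' (Set.range a'))
      ?_ ?_ ?_ ?_ ?_ hx
    · intro y hy
      exact IntermediateField.algebraMap_mem _ (⟨y, hy⟩ : k')
    · intro y
      have h9 := hgen_of_top8 (F := K') htop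
        ((IntermediateField.adjoin k' (Set.range a')).restrictScalars k)
        (fun i => IntermediateField.subset_adjoin k' _ ⟨i, rfl⟩) y
      exact h9
    · intro y z hy hz h9 h10
      exact add_mem h9 h10
    · intro y hy h9
      exact inv_mem h9
    · intro y z hy hz h9 h10
      exact mul_mem h9 h10
  obtain ⟨t, ht⟩ := exists_noncritical_inf8 (K := k') (g := g.map (algebraMap k k'))
    (by rw [derivative_map]; exact (Polynomial.map_ne_zero_iff (algebraMap k k').injective).mpr hg')
  have h5 := (isIndependent_generic_aux8 hℓ k' K' F (by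
      have h6 := (map_ne_zero_iff (algebraMap k k') (algebraMap k k').injective).mpr h2
      rwa [map_ofNat] at h6) hn ha' htop' (g := g.map (algebraMap k k')) (hg.map _)
    (by rw [hg.natDegree_map]; exact hcop)
    (by rw [derivative_map]; exact (Polynomial.map_ne_zero_iff (algebraMap k k').injective).mpr hg')
    ht).2
  refine isIndependent_of_extension8 (K' := K') ?_
  have h7 : (g.map (algebraMap k k')).map (algebraMap k' K') =
      (g.map (algebraMap k K)).map (algebraMap K K') := by
    rw [Polynomial.map_map, Polynomial.map_map]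
    congr 1
    ext x
    show algebraMap k F x = algebraMap K F (algebraMap k K x)
    rw [← IsScalarTower.algebraMap_apply]
  have h8 : (polyOf8 a).map (algebraMap K K') = polyOf8 a' := polyOf_map8 (algebraMap K K') a
  rw [← h7, h8]
  exact h5

end Pool.Agent.Lib.MP_89bcae_ag
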