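import Mathlib
import Pool.Agent.Lib.MP_89bcae_ag.SpecB14
import Pool.Agent.Lib.MP_89bcae_ag.DefsB7

/-!
# Frobenius elements and the action of the Galois group on the pairs of roots
-/

open Polynomial

namespace Pool.Agent.Lib.MP_89bcae_ag

set_option linter.unusedSectionVars false
set_option linter.style.haveILetI false

section Lift

variable {R K F κ Fκ : Type*} [CommRing R] [IsDomain R] [IsIntegrallyClosed R] [Field K]
  [Algebra R K] [IsFractionRing R K] [Field F] [Algebra K F] [Algebra R F] [IsScalarTower R K F]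
  [IsAlgClosed F] [Algebra.IsAlgebraic K F]
  [Field κ] [Fintype κ] [Field Fκ] [Algebra κ Fκ] [Algebra.IsAlgebraic κ Fκ] [IsAlgClosed Fκ]

/-- Two roots with the same reduction, which is a simple root of the reduced polynomial, are
equal. -/
lemma eq_of_red14 {π : R →+* κ} {ρ : integralClosure R F →+* Fκ}
    (hρ : ∀ r, ρ (algebraMap R (integralClosure R F) r) = algebraMap κ Fκ (π r))
    {f : R[X]} {x y : F} (hx : IsIntegral R x) (hy : IsIntegral R y) (hfx : aeval x f = 0)
    (hfy : aeval y f = 0) (hxy : ρ ⟨x, hx⟩ = ρ ⟨y, hy⟩)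
    (hs : aeval (ρ ⟨x, hx⟩) (derivative (f.map π)) ≠ 0) : x = y := by
  by_contra hne
  apply hs
  have hev : ∀ z : integralClosure R F, ((aeval z f : integralClosure R F) : F) =
      aeval (z : F) f := by
    intro z
    rw [← Subalgebra.coe_val, ← aeval_algHom_apply]
  have h1 : (f.map (algebraMap R (integralClosure R F))).IsRoot ⟨x, hx⟩ := by
    rw [IsRoot.def, eval_map_algebraMap]
    exact Subtype.ext ((hev _).trans hfx)
  have h2 : (f.map (algebraMap R (integralClosure R F))).eval ⟨y, hy⟩ = 0 := by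
    rw [eval_map_algebraMap]
    exact Subtype.ext ((hev _).trans hfy)
  obtain ⟨q, hq⟩ := dvd_iff_isRoot.mpr h1
  have h3 : q.eval ⟨y, hy⟩ = 0 := by
    rw [hq, eval_mul, eval_sub, eval_X, eval_C] at h2
    rcases mul_eq_zero.mp h2 with h | h
    · exact absurd (congrArg Subtype.val (sub_eq_zero.mp h)).symm hne
    · exact h
  have hcomp : (algebraMap κ Fκ).comp π = ρ.comp (algebraMap R (integralClosure R F)) :=
    RingHom.ext fun r => (hρ r).symm
  have h4 : (f.map π).map (algebraMap κ Fκ) = (X - C (ρ ⟨x, hx⟩)) * q.map ρ := by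
    rw [Polynomial.map_map, hcomp, ← Polynomial.map_map, hq, Polynomial.map_mul,
      Polynomial.map_sub, map_X, map_C]
  rw [← eval_map_algebraMap, ← derivative_map, h4, derivative_mul, derivative_sub, derivative_X,
    derivative_C, sub_zero, one_mul, eval_add, eval_mul, eval_sub, eval_X, eval_C, sub_self,
    zero_mul, add_zero, hxy, eval_map, eval₂_at_apply, h3, map_zero]

/-- Every root of the reduced polynomial is the reduction of a root. -/
lemma exists_lift_root14 [FaithfulSMul R F] {π : R →+* κ} {ρ : integralClosure R F →+* Fκ}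
    (hρ : ∀ r, ρ (algebraMap R (integralClosure R F) r) = algebraMap κ Fκ (π r))
    {f : R[X]} (hu : IsUnit f.leadingCoeff) {β : Fκ} (hβ : aeval β (f.map π) = 0) :
    ∃ (x : F) (hx : IsIntegral R x), aeval x f = 0 ∧ ρ ⟨x, hx⟩ = β := by
  classical
  have hinjR : Function.Injective (algebraMap R F) := FaithfulSMul.algebraMap_injective R F
  have hf0 : f ≠ 0 := by
    rintro rfl
    rw [leadingCoeff_zero] at hu
    exact not_isUnit_zero hu
  have hfF0 : f.map (algebraMap R F) ≠ 0 := (Polynomial.map_ne_zero_iff hinjR).mpr hf0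
  have hroot : ∀ x ∈ (f.map (algebraMap R F)).roots, aeval x f = 0 := by
    intro x hx
    rw [mem_roots hfF0, IsRoot.def, eval_map_algebraMap] at hx
    exact hx
  obtain ⟨s, hs⟩ : ∃ s : Multiset (integralClosure R F),
      s.map (fun z : integralClosure R F => (z : F)) = (f.map (algebraMap R F)).roots := by
    refine ⟨(f.map (algebraMap R F)).roots.attach.map fun x =>
      ⟨x.1, integral_root14 hu (hroot x.1 x.2)⟩, ?_⟩
    rw [Multiset.map_map]
    exact Multiset.attach_map_val _
  have h1 : f.map (algebraMap R (integralClosure R F)) =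
      C (algebraMap R (integralClosure R F) f.leadingCoeff) * (s.map fun z => X - C z).prod := by
    apply Polynomial.map_injective (algebraMap (integralClosure R F) F)
      (FaithfulSMul.algebraMap_injective _ _)
    rw [Polynomial.map_map, ← IsScalarTower.algebraMap_eq R (integralClosure R F) F,
      Polynomial.map_mul, map_C, ← IsScalarTower.algebraMap_apply R (integralClosure R F) F]
    have h2 := (IsAlgClosed.splits (f.map (algebraMap R F))).eq_prod_roots
    rw [leadingCoeff_map_of_injective hinjR] at h2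
    rw [Polynomial.map_multiset_prod, Multiset.map_map]
    conv_lhs => rw [h2, ← hs, Multiset.map_map]
    congr 3
    funext z
    simp only [Function.comp_apply, Polynomial.map_sub, map_X, map_C]
    rfl
  have hcomp : (algebraMap κ Fκ).comp π = ρ.comp (algebraMap R (integralClosure R F)) :=
    RingHom.ext fun r => (hρ r).symm
  have h3 : (f.map π).map (algebraMap κ Fκ) =
      C (ρ (algebraMap R (integralClosure R F) f.leadingCoeff)) *
        (s.map fun z => X - C (ρ z)).prod := by
    rw [Polynomial.map_map, hcomp, ← Polynomial.map_map, h1, Polynomial.map_mul, map_C,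
      Polynomial.map_multiset_prod, Multiset.map_map]
    congr 3
    funext z
    simp only [Function.comp_apply, Polynomial.map_sub, map_X, map_C]
  have h4 : (s.map fun z => β - ρ z).prod = 0 := by
    rw [← eval_map_algebraMap, h3, eval_mul, eval_C, eval_multiset_prod, Multiset.map_map] at hβ
    rcases mul_eq_zero.mp hβ with h | h
    · rw [hρ, map_eq_zero] at h
      exact absurd h (hu.map π).ne_zero
    · rw [← h]
      congr 2
      funext z
      simp
  rw [Multiset.prod_eq_zero_iff, Multiset.mem_map] at h4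
  obtain ⟨z, hz, hz0⟩ := h4
  refine ⟨z, z.2, ?_, (sub_eq_zero.mp hz0).symm⟩
  apply hroot
  rw [← hs]
  exact Multiset.mem_map_of_mem _ hz

/-- **The Frobenius element.** -/
theorem exists_frob_roots14 {π : R →+* κ} (hπ : Function.Surjective π) {f : R[X]}
    (hu : IsUnit f.leadingCoeff) (hsep : (f.map (algebraMap R K)).Separable) :
    ∃ (ρ : integralClosure R F →+* Fκ) (φ : F ≃ₐ[K] F),
      (∀ r, ρ (algebraMap R (integralClosure R F) r) = algebraMap κ Fκ (π r)) ∧
      ∀ (i : ℕ) (x : F), aeval x f = 0 → ∀ hx : IsIntegral R x, aeval ((φ ^ i) x) f = 0 ∧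
        ∃ hx' : IsIntegral R ((φ ^ i) x), ρ ⟨(φ ^ i) x, hx'⟩ = (frob8 κ Fκ ^ i) (ρ ⟨x, hx⟩) := by
  classical
  have hinjR : Function.Injective (algebraMap R F) := by
    rw [IsScalarTower.algebraMap_eq R K F]
    exact (algebraMap K F).injective.comp (IsFractionRing.injective R K)
  have hfaith : FaithfulSMul R F := (faithfulSMul_iff_algebraMap_injective R F).mpr hinjR
  obtain ⟨ρ, hρ⟩ := exists_red14 (F := F) (Fκ := Fκ) π hπ
  have hf0 : f ≠ 0 := by
    rintro rfl
    rw [leadingCoeff_zero] at hu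
    exact not_isUnit_zero hu
  have hfF0 : f.map (algebraMap R F) ≠ 0 := (Polynomial.map_ne_zero_iff hinjR).mpr hf0
  set B : Finset F := (f.map (algebraMap R F)).roots.toFinset with hB
  have hmemB : ∀ γ, γ ∈ B ↔ aeval γ f = 0 := by
    intro γ
    rw [hB, Multiset.mem_toFinset, mem_roots hfF0, IsRoot.def, eval_map_algebraMap]
  obtain ⟨φ, M, hSM, hM⟩ := exists_frob_lift14 (κ := κ) π hπ ρ hρ B (by
    intro γ hγ
    apply Separable.of_dvd hsep
    apply minpoly.dvd
    rw [aeval_map_algebraMap]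
    exact (hmemB γ).mp hγ)
  have hMi : ∀ (i : ℕ) (x : F), x ∈ M → ∀ hx : IsIntegral R x, (φ ^ i) x ∈ M ∧
      ∃ hx' : IsIntegral R ((φ ^ i) x), ρ ⟨(φ ^ i) x, hx'⟩ = (frob8 κ Fκ ^ i) (ρ ⟨x, hx⟩) := by
    intro i
    induction i with
    | zero => exact fun x hxM hx => ⟨hxM, hx, rfl⟩
    | succ i ih =>
      intro x hxM hx
      obtain ⟨h3, h4, h5⟩ := ih x hxM hx
      obtain ⟨h6, h7⟩ := hM _ h3
      obtain ⟨h8, h9⟩ := h7 h4
      have h10 : (φ ^ (i + 1)) x = φ ((φ ^ i) x) := by rw [pow_succ', AlgEquiv.mul_apply]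
      refine ⟨by rw [h10]; exact h6, by rw [h10]; exact h8, ?_⟩
      have h11 : ρ ⟨(φ ^ (i + 1)) x, by rw [h10]; exact h8⟩ = ρ ⟨φ ((φ ^ i) x), h8⟩ := by
        congr 1
        exact Subtype.ext h10
      rw [h11, h9, h5, pow_succ' (frob8 κ Fκ), AlgEquiv.mul_apply, frob8_apply,
        Nat.card_eq_fintype_card]
  refine ⟨ρ, φ, hρ, fun i x hx hi => ⟨?_, (hMi i x (hSM x ((hmemB x).mpr hx)) hi).2⟩⟩
  have h3 : aeval ((φ ^ i) x) (f.map (algebraMap R K)) = 0 := by
    rw [← AlgEquiv.coe_toAlgHom (φ ^ i), aeval_algHom_apply, aeval_map_algebraMap, hx, map_zero]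
  rwa [aeval_map_algebraMap] at h3

end Lift

section Types

variable {R K F κ : Type*} [CommRing R] [IsDomain R] [IsIntegrallyClosed R] [Field K]
  [Algebra R K] [IsFractionRing R K] [Field F] [Algebra K F] [Algebra R F] [IsScalarTower R K F]
  [IsAlgClosed F] [Algebra.IsAlgebraic K F]
  [Field κ] [Fintype κ]

variable (K F) in
/-- **Type A.** -/
theorem frob_typeA14 {π : R →+* κ} (hπ : Function.Surjective π) {f : R[X]}
    (hu : IsUnit f.leadingCoeff) (hsep : (f.map (algebraMap R K)).Separable)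
    (hirr : Irreducible (f.map π)) :
    ∃ φ : F ≃ₐ[K] F, ∀ x y : F, aeval x f = 0 → aeval y f = 0 → ∃ i : ℕ, (φ ^ i) x = y := by
  obtain ⟨ρ, φ, hρ, hφ⟩ := exists_frob_roots14 (F := F) (Fκ := AlgebraicClosure κ) hπ hu hsep
  refine ⟨φ, fun x y hx hy => ?_⟩
  have hix := integral_root14 hu hx
  have hiy := integral_root14 hu hy
  obtain ⟨i, -, hi⟩ := exists_frob8_pow hirr (red_root14 hρ hix hx) (red_root14 hρ hiy hy)
  obtain ⟨h1, h2, h3⟩ := hφ i x hx hix
  refine ⟨i, eq_of_red14 hρ h2 hiy h1 hy (by rw [h3, hi]) ?_⟩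
  have hsepκ : (f.map π).Separable := PerfectField.separable_of_irreducible hirr
  intro h4
  obtain ⟨a', b', hab⟩ := hsepκ
  have h5 := congrArg (aeval (ρ ⟨(φ ^ i) x, h2⟩)) hab
  rw [map_add, map_mul, map_mul, red_root14 hρ h2 h1, h4, mul_zero, mul_zero, add_zero,
    map_one] at h5
  exact zero_ne_one h5

variable (K F) in
/-- **Type B.** -/
theorem frob_typeB14 {π : R →+* κ} (hπ : Function.Surjective π) {g D : R[X]} (hg : g.Monic)
    (hdeg : g.natDegree = 3) (hu : IsUnit D.leadingCoeff)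
    (hsep : ((D.comp g).map (algebraMap R K)).Separable) {b : κ} {D₁ : κ[X]}
    (hD : D.map π = (X - C ((g.map π).eval b)) * D₁)
    (hb : (derivative (g.map π)).eval b ≠ 0) (hirr : Irreducible (D₁.comp (g.map π))) :
    ∃ (φ : F ≃ₐ[K] F) (z : F), aeval z (D.comp g) = 0 ∧ φ z = z ∧
      ∀ x y : F, aeval x (D.comp g) = 0 → aeval y (D.comp g) = 0 → aeval x g ≠ aeval z g →
        aeval y g ≠ aeval z g → ∃ i : ℕ, (φ ^ i) x = y := by
  have huD : IsUnit (D.comp g).leadingCoeff := by
    rw [leadingCoeff_comp (by omega), hg.leadingCoeff, one_pow, mul_one]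
    exact hu
  have hinjR : Function.Injective (algebraMap R F) := by
    rw [IsScalarTower.algebraMap_eq R K F]
    exact (algebraMap K F).injective.comp (IsFractionRing.injective R K)
  have hfaith : FaithfulSMul R F := (faithfulSMul_iff_algebraMap_injective R F).mpr hinjR
  obtain ⟨ρ, φ, hρ, hφ⟩ := exists_frob_roots14 (F := F) (Fκ := AlgebraicClosure κ) hπ huD hsep
  set Fκ := AlgebraicClosure κ with hFκ
  set g' := g.map π with hg'
  set β : Fκ := algebraMap κ Fκ b with hβ
  have hmap : (D.comp g).map π = (g' - C (g'.eval b)) * D₁.comp g' := by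
    rw [Polynomial.map_comp, hD, mul_comp, sub_comp, X_comp, C_comp]
  have hmon : g'.Monic := hg.map π
  have hdeg' : g'.natDegree = 3 := by rw [hg', hg.natDegree_map, hdeg]
  -- `D₁ (g (b))` is not zero
  have hD1 : D₁.eval (g'.eval b) ≠ 0 := by
    intro h0
    have h1 : (D₁.comp g').IsRoot b := by rw [IsRoot.def, eval_comp, h0]
    have h2 := degree_eq_one_of_irreducible_of_root hirr h1
    have h3 : (D₁.comp g').natDegree = 1 := natDegree_eq_of_degree_eq_some h2
    rw [natDegree_comp, hdeg'] at h3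
    omega
  have hgβ : aeval β g' = algebraMap κ Fκ (g'.eval b) := by
    rw [hβ, aeval_algebraMap_apply, coe_aeval_eq_eval]
  have hDβ : aeval (aeval β g') D₁ ≠ 0 := by
    rw [hgβ, aeval_algebraMap_apply, coe_aeval_eq_eval]
    exact (_root_.map_ne_zero _).mpr hD1
  -- the root `z`
  obtain ⟨z, hz, hzr, hzβ⟩ := exists_lift_root14 hρ huD (β := β) (by
    rw [hmap, map_mul, map_sub, aeval_C, hgβ, sub_self, zero_mul])
  have hsimple : aeval β (derivative ((D.comp g).map π)) ≠ 0 := by
    rw [hmap, derivative_mul, derivative_sub, derivative_C, sub_zero, map_add, map_mul, map_mul,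
      map_sub, aeval_C, hgβ, sub_self, zero_mul, add_zero]
    apply mul_ne_zero
    · rw [hβ, aeval_algebraMap_apply, coe_aeval_eq_eval]
      exact (_root_.map_ne_zero _).mpr hb
    · rw [aeval_comp]
      exact hDβ
  have hint : ∀ x : F, aeval x (D.comp g) = 0 → IsIntegral R x := fun x hx => integral_root14 huD hx
  -- values of `g`
  have hev : ∀ z : integralClosure R F, ((aeval z g : integralClosure R F) : F) =
      aeval (z : F) g := by
    intro z
    rw [← Subalgebra.coe_val, ← aeval_algHom_apply]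
  have hgint : ∀ x : F, ∀ hx : IsIntegral R x, IsIntegral R (aeval x g) := fun x hx => by
    have h1 := (aeval (⟨x, hx⟩ : integralClosure R F) g).2
    rw [hev] at h1
    exact h1
  have hρg : ∀ (x : F) (hx : IsIntegral R x), ρ ⟨aeval x g, hgint x hx⟩ = aeval (ρ ⟨x, hx⟩) g' := by
    intro x hx
    have h1 : (⟨aeval x g, hgint x hx⟩ : integralClosure R F) =
        aeval (⟨x, hx⟩ : integralClosure R F) g := Subtype.ext (hev ⟨x, hx⟩).symm
    rw [h1, hg', aeval_def, aeval_def, eval₂_map, hom_eval₂]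
    congr 1
    exact RingHom.ext fun r => hρ r
  -- a root with `g x ≠ g z` reduces to a root of `D₁ (g)`
  have hkey : ∀ (x : F) (hx : aeval x (D.comp g) = 0), aeval x g ≠ aeval z g →
      aeval (ρ ⟨x, hint x hx⟩) (D₁.comp g') = 0 := by
    intro x hx hne
    have h1 := red_root14 hρ (hint x hx) hx
    rw [hmap, map_mul] at h1
    rcases mul_eq_zero.mp h1 with h2 | h2
    · exfalso
      apply hne
      rw [map_sub, aeval_C, sub_eq_zero, ← hgβ] at h2
      refine eq_of_red14 hρ (f := D) (hgint x (hint x hx)) (hgint z hz) ?_ ?_ ?_ ?_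
      · rw [← aeval_comp]
        exact hx
      · rw [← aeval_comp]
        exact hzr
      · rw [hρg x (hint x hx), hρg z hz, hzβ, h2]
      · rw [hρg x (hint x hx), h2, hD, derivative_mul, derivative_sub, derivative_X, derivative_C, sub_zero,
          one_mul, map_add, map_mul, map_sub, aeval_X, aeval_C, hgβ, sub_self, zero_mul, add_zero,
          ← hgβ]
        exact hDβ
    · exact h2
  refine ⟨φ, z, hzr, ?_, ?_⟩
  · obtain ⟨h1, h2, h3⟩ := hφ 1 z hzr hz
    rw [pow_one] at h1 h2
    simp only [pow_one] at h3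
    have h4 : frob8 κ Fκ β = β := by rw [hβ, AlgEquiv.commutes]
    refine eq_of_red14 hρ h2 hz h1 hzr (by rw [h3, hzβ, h4]) (by rw [h3, hzβ, h4]; exact hsimple)
  · intro x y hx hy hxz hyz
    obtain ⟨i, -, hi⟩ := exists_frob8_pow hirr (hkey x hx hxz) (hkey y hy hyz)
    obtain ⟨h1, h2, h3⟩ := hφ i x hx (hint x hx)
    refine ⟨i, eq_of_red14 hρ h2 (hint y hy) h1 hy (by rw [h3, hi]) ?_⟩
    have hsepκ : (D₁.comp g').Separable := PerfectField.separable_of_irreducible hirr
    have hr : aeval (ρ ⟨(φ ^ i) x, h2⟩) (D₁.comp g') = 0 := by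
      rw [h3, ← hi]
      exact hkey y hy hyz
    have hder : aeval (ρ ⟨(φ ^ i) x, h2⟩) (derivative (D₁.comp g')) ≠ 0 := by
      intro h4
      obtain ⟨a', b', hab⟩ := hsepκ
      have h5 := congrArg (aeval (ρ ⟨(φ ^ i) x, h2⟩)) hab
      rw [map_add, map_mul, map_mul, hr, h4, mul_zero, mul_zero, add_zero, map_one] at h5
      exact zero_ne_one h5
    rw [hmap, derivative_mul, map_add, map_mul, map_mul, hr, mul_zero, zero_add]
    apply mul_ne_zero _ hder
    rw [map_sub, aeval_C, ← hgβ, sub_ne_zero]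
    intro h4
    apply hDβ
    rw [← h4, ← aeval_comp]
    exact hr

end Types

/-- **Frobenius elements of types A and B make the action on the pairs transitive.** -/
theorem pairTransitive14 {K F : Type*} [Field K] [Field F] [Algebra K F] {g D : K[X]}
    (hA : ∃ φ : F ≃ₐ[K] F, ∀ x y : F, aeval x (D.comp g) = 0 → aeval y (D.comp g) = 0 →
      ∃ i : ℕ, (φ ^ i) x = y)
    (hB : ∃ (φ : F ≃ₐ[K] F) (z : F), aeval z (D.comp g) = 0 ∧ φ z = z ∧
      ∀ x y : F, aeval x (D.comp g) = 0 → aeval y (D.comp g) = 0 → aeval x g ≠ aeval z g →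
        aeval y g ≠ aeval z g → ∃ i : ℕ, (φ ^ i) x = y) :
    IsPairTransitive7 K F g D := by
  obtain ⟨φ, hφ⟩ := hA
  obtain ⟨ψ, z, hz, hzz, hψ⟩ := hB
  intro b c b' c' hb hc hb' hc' hne hne'
  have hroot : ∀ (σ : F ≃ₐ[K] F) (x : F), aeval x (D.comp g) = 0 → aeval (σ x) (D.comp g) = 0 := by
    intro σ x hx
    rw [← AlgEquiv.coe_toAlgHom σ, aeval_algHom_apply, hx, map_zero]
  have hval : ∀ (σ : F ≃ₐ[K] F) (x : F), aeval (σ x) g = σ (aeval x g) := by
    intro σ x
    rw [← AlgEquiv.coe_toAlgHom σ, aeval_algHom_apply]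
  obtain ⟨i, hi⟩ := hφ b z hb hz
  obtain ⟨j, hj⟩ := hφ b' z hb' hz
  obtain ⟨m, hm⟩ := hψ ((φ ^ i) c) ((φ ^ j) c') (hroot _ _ hc) (hroot _ _ hc') (by
    rw [← hi, hval, hval]
    exact fun h => hne ((φ ^ i).injective h).symm) (by
    rw [← hj, hval, hval]
    exact fun h => hne' ((φ ^ j).injective h).symm)
  have hzm : (ψ ^ m) z = z := by
    induction m with
    | zero => rfl
    | succ m ih =>
      clear hm
      rw [pow_succ', AlgEquiv.mul_apply]
      have : (ψ ^ m) z = z := by
        clear ih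
        induction m with
        | zero => rfl
        | succ m ih => rw [pow_succ', AlgEquiv.mul_apply, ih, hzz]
      rw [this, hzz]
  refine ⟨(φ ^ j)⁻¹ * ψ ^ m * φ ^ i, ?_, ?_⟩
  · rw [AlgEquiv.mul_apply, AlgEquiv.mul_apply, hi, hzm, ← hj]
    change ((φ ^ j)⁻¹ * (φ ^ j)) b' = b'
    rw [inv_mul_cancel]
    rfl
  · rw [AlgEquiv.mul_apply, AlgEquiv.mul_apply, hm]
    change ((φ ^ j)⁻¹ * (φ ^ j)) c' = c'
    rw [inv_mul_cancel]
    rfl

end Pool.Agent.Lib.MP_89bcae_ag
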