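import Mathlib
import Pool.Agent.Lib.MP_89bcae_ag.TypA14

/-!
# Integral polynomials whose reductions modulo two primes are of types A and B
-/

open Polynomial

namespace Pool.Agent.Lib.MP_89bcae_ag

set_option linter.unusedSectionVars false
set_option linter.style.haveILetI false

/-- Type A modulo `p`: the polynomial `D(g(x))` is irreducible modulo `p`. -/
def IsTypeA14 (p : ℕ) (g D : ℤ[X]) : Prop :=
  Irreducible ((D.map (Int.castRingHom (ZMod p))).comp (g.map (Int.castRingHom (ZMod p))))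

/-- Type B modulo `p`: `D` is `(t - g(b)) D₁` modulo `p`, where `g'(b) ≠ 0` and `D₁(g(x))` is
irreducible. -/
def IsTypeB14 (p : ℕ) (g D : ℤ[X]) : Prop :=
  ∃ (b : ZMod p) (D₁ : (ZMod p)[X]),
    D.map (Int.castRingHom (ZMod p)) = (X - C ((g.map (Int.castRingHom (ZMod p))).eval b)) * D₁ ∧
    (derivative (g.map (Int.castRingHom (ZMod p)))).eval b ≠ 0 ∧
    Irreducible (D₁.comp (g.map (Int.castRingHom (ZMod p))))

/-- The local ring `ℤ_(p)` with its residue map. -/
lemma exists_local_ring14 {p : ℕ} (hp : p.Prime) :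
    ∃ (R : Type) (_ : CommRing R) (_ : IsDomain R) (_ : IsIntegrallyClosed R)
      (_ : Algebra R ℚ) (_ : IsFractionRing R ℚ) (π : R →+* ZMod p),
      Function.Surjective π ∧
      ∀ z : ℤ, (z : ZMod p) ≠ 0 → IsUnit (Int.castRingHom R z) := by
  haveI : Fact p.Prime := ⟨hp⟩
  have hpi : Prime (p : ℤ) := Nat.prime_iff_prime_int.mp hp
  haveI hP : (Ideal.span {(p : ℤ)}).IsPrime :=
    (Ideal.span_singleton_prime hpi.ne_zero).mpr hpi
  have hmem : ∀ z : ℤ, z ∈ (Ideal.span {(p : ℤ)}).primeCompl ↔ (z : ZMod p) ≠ 0 := by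
    intro z
    rw [Ideal.mem_primeCompl_iff, Ideal.mem_span_singleton, Ne,
      ZMod.intCast_zmod_eq_zero_iff_dvd]
  let R := Localization.AtPrime (Ideal.span {(p : ℤ)})
  have hle : (Ideal.span {(p : ℤ)}).primeCompl ≤ nonZeroDivisors ℤ :=
    Ideal.primeCompl_le_nonZeroDivisors _
  let e : R →+* ℚ := IsLocalization.lift (M := (Ideal.span {(p : ℤ)}).primeCompl)
    (g := algebraMap ℤ ℚ) (by
      intro y
      rw [isUnit_iff_ne_zero]
      exact (map_ne_zero_iff _ (algebraMap ℤ ℚ).injective_int).mpr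
        (nonZeroDivisors.ne_zero (hle y.2)))
  letI : Algebra R ℚ := e.toAlgebra
  have hst := IsScalarTower.of_algebraMap_eq (R := ℤ) (S := R) (A := ℚ) fun r =>
    (IsLocalization.lift_eq _ r).symm
  haveI := hst
  have hfr : IsFractionRing R ℚ :=
    IsFractionRing.isFractionRing_of_isDomain_of_isLocalization
      (Ideal.span {(p : ℤ)}).primeCompl R ℚ
  have hdom : IsDomain R := inferInstance
  have hic : IsIntegrallyClosed R := inferInstance
  let π : R →+* ZMod p := IsLocalization.lift (M := (Ideal.span {(p : ℤ)}).primeCompl)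
    (g := Int.castRingHom (ZMod p)) (by
      intro y
      rw [isUnit_iff_ne_zero]
      exact (hmem y).mp y.2)
  have hπ : ∀ z : ℤ, π (algebraMap ℤ R z) = z := fun z => IsLocalization.lift_eq _ z
  refine ⟨R, inferInstance, hdom, hic, inferInstance, hfr, π, fun x => ?_, fun z hz => ?_⟩
  · obtain ⟨z, hz⟩ := ZMod.intCast_surjective x
    exact ⟨algebraMap ℤ R z, by rw [hπ, hz]⟩
  · have h1 := IsLocalization.map_units R
      (⟨z, (hmem z).mpr hz⟩ : (Ideal.span {(p : ℤ)}).primeCompl)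
    have h2 : algebraMap ℤ R = Int.castRingHom R := RingHom.ext_int _ _
    rw [h2] at h1
    exact h1

section

variable {F : Type*} [Field F] [Algebra ℚ F] [IsAlgClosed F] [Algebra.IsAlgebraic ℚ F]

/-- **Type A.** -/
theorem typeA14 {g D : ℤ[X]} (hg : g.Monic) (hdeg : g.natDegree = 3) {p : ℕ} (hp : p.Prime)
    (hu : (D.leadingCoeff : ZMod p) ≠ 0) (hA : IsTypeA14 p g D) :
    ((D.comp g).map (algebraMap ℤ ℚ)).Separable ∧
    ∃ φ : F ≃ₐ[ℚ] F, ∀ x y : F,
      aeval x ((D.map (algebraMap ℤ ℚ)).comp (g.map (algebraMap ℤ ℚ))) = 0 →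
      aeval y ((D.map (algebraMap ℤ ℚ)).comp (g.map (algebraMap ℤ ℚ))) = 0 →
        ∃ i : ℕ, (φ ^ i) x = y := by
  haveI : Fact p.Prime := ⟨hp⟩
  obtain ⟨R, _, _, _, _, _, π, hπ, hπu⟩ := exists_local_ring14 hp
  letI : Algebra R F := ((algebraMap ℚ F).comp (algebraMap R ℚ)).toAlgebra
  haveI : IsScalarTower R ℚ F := IsScalarTower.of_algebraMap_eq fun _ => rfl
  have hRQ : (algebraMap R ℚ).comp (Int.castRingHom R) = algebraMap ℤ ℚ := RingHom.ext_int _ _
  have hinjZ : Function.Injective (Int.castRingHom R) := by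
    have h1 : Function.Injective ((algebraMap R ℚ).comp (Int.castRingHom R)) := by
      rw [hRQ]
      exact (algebraMap ℤ ℚ).injective_int
    exact Function.Injective.of_comp h1
  haveI hfaith : FaithfulSMul R F := (faithfulSMul_iff_algebraMap_injective R F).mpr
    ((algebraMap ℚ F).injective.comp (IsFractionRing.injective R ℚ))
  have hcomp : π.comp (Int.castRingHom R) = Int.castRingHom (ZMod p) := RingHom.ext_int _ _
  have hu' : IsUnit ((D.comp g).map (Int.castRingHom R)).leadingCoeff := by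
    rw [leadingCoeff_map_of_injective hinjZ, leadingCoeff_comp (by omega), hg.leadingCoeff,
      one_pow, mul_one]
    exact hπu _ hu
  have hirr : Irreducible (((D.comp g).map (Int.castRingHom R)).map π) := by
    rw [Polynomial.map_map, hcomp, Polynomial.map_comp]
    exact hA
  have hQ : ((D.comp g).map (Int.castRingHom R)).map (algebraMap R ℚ) =
      (D.comp g).map (algebraMap ℤ ℚ) := by
    rw [Polynomial.map_map, hRQ]
  have hsepκ : (((D.comp g).map (Int.castRingHom R)).map π).Separable :=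
    PerfectField.separable_of_irreducible hirr
  have hsep := separable_of_red14 (K := ℚ) F hπ hu' hsepκ
  obtain ⟨φ, hφ⟩ := frob_typeA14 ℚ F hπ hu' hsep hirr
  rw [hQ] at hsep
  refine ⟨hsep, φ, fun x y hx hy => hφ x y ?_ ?_⟩
  · rw [← aeval_map_algebraMap ℚ, hQ, Polynomial.map_comp]
    exact hx
  · rw [← aeval_map_algebraMap ℚ, hQ, Polynomial.map_comp]
    exact hy

/-- **Type B.** -/
theorem typeB14 {g D : ℤ[X]} (hg : g.Monic) (hdeg : g.natDegree = 3) {p : ℕ} (hp : p.Prime)
    (hu : (D.leadingCoeff : ZMod p) ≠ 0) (hB : IsTypeB14 p g D)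
    (hsep : ((D.comp g).map (algebraMap ℤ ℚ)).Separable) :
    ∃ (φ : F ≃ₐ[ℚ] F) (z : F),
      aeval z ((D.map (algebraMap ℤ ℚ)).comp (g.map (algebraMap ℤ ℚ))) = 0 ∧ φ z = z ∧
      ∀ x y : F, aeval x ((D.map (algebraMap ℤ ℚ)).comp (g.map (algebraMap ℤ ℚ))) = 0 →
        aeval y ((D.map (algebraMap ℤ ℚ)).comp (g.map (algebraMap ℤ ℚ))) = 0 →
        aeval x (g.map (algebraMap ℤ ℚ)) ≠ aeval z (g.map (algebraMap ℤ ℚ)) →
        aeval y (g.map (algebraMap ℤ ℚ)) ≠ aeval z (g.map (algebraMap ℤ ℚ)) →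
        ∃ i : ℕ, (φ ^ i) x = y := by
  haveI : Fact p.Prime := ⟨hp⟩
  obtain ⟨R, _, _, _, _, _, π, hπ, hπu⟩ := exists_local_ring14 hp
  letI : Algebra R F := ((algebraMap ℚ F).comp (algebraMap R ℚ)).toAlgebra
  haveI : IsScalarTower R ℚ F := IsScalarTower.of_algebraMap_eq fun _ => rfl
  have hRQ : (algebraMap R ℚ).comp (Int.castRingHom R) = algebraMap ℤ ℚ := RingHom.ext_int _ _
  have hinjZ : Function.Injective (Int.castRingHom R) := by
    have h1 : Function.Injective ((algebraMap R ℚ).comp (Int.castRingHom R)) := by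
      rw [hRQ]
      exact (algebraMap ℤ ℚ).injective_int
    exact Function.Injective.of_comp h1
  have hcomp : π.comp (Int.castRingHom R) = Int.castRingHom (ZMod p) := RingHom.ext_int _ _
  have hu' : IsUnit (D.map (Int.castRingHom R)).leadingCoeff := by
    rw [leadingCoeff_map_of_injective hinjZ]
    exact hπu _ hu
  obtain ⟨b, D₁, hD, hb, hirr⟩ := hB
  have hgπ : (g.map (Int.castRingHom R)).map π = g.map (Int.castRingHom (ZMod p)) := by
    rw [Polynomial.map_map, hcomp]
  have hDπ : (D.map (Int.castRingHom R)).map π = D.map (Int.castRingHom (ZMod p)) := by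
    rw [Polynomial.map_map, hcomp]
  have hsep' : ((((D.map (Int.castRingHom R)).comp (g.map (Int.castRingHom R)))).map
      (algebraMap R ℚ)).Separable := by
    rw [← Polynomial.map_comp, Polynomial.map_map, hRQ]
    exact hsep
  obtain ⟨φ, z, hz, hzz, hφ⟩ := frob_typeB14 ℚ F hπ (hg.map (Int.castRingHom R))
    (by rw [hg.natDegree_map, hdeg]) hu' hsep' (b := b) (D₁ := D₁) (by rw [hDπ, hgπ, hD])
    (by rw [hgπ]; exact hb) (by rw [hgπ]; exact hirr)
  have hc : ∀ x : F, aeval x ((D.map (Int.castRingHom R)).comp (g.map (Int.castRingHom R))) =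
      aeval x ((D.map (algebraMap ℤ ℚ)).comp (g.map (algebraMap ℤ ℚ))) := by
    intro x
    rw [← aeval_map_algebraMap ℚ, Polynomial.map_comp, Polynomial.map_map, Polynomial.map_map,
      hRQ]
  have hgc : ∀ x : F, aeval x (g.map (Int.castRingHom R)) = aeval x (g.map (algebraMap ℤ ℚ)) := by
    intro x
    rw [← aeval_map_algebraMap ℚ, Polynomial.map_map, hRQ]
  refine ⟨φ, z, by rw [← hc]; exact hz, hzz, fun x y hx hy hxz hyz => hφ x y ?_ ?_ ?_ ?_⟩
  · rw [hc]; exact hx
  · rw [hc]; exact hy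
  · rw [hgc, hgc]; exact hxz
  · rw [hgc, hgc]; exact hyz

/-- **Types A and B.** -/
theorem pairTransitive_types14 {g D : ℤ[X]} (hg : g.Monic) (hdeg : g.natDegree = 3)
    {p q : ℕ} (hp : p.Prime) (hq : q.Prime) (hup : (D.leadingCoeff : ZMod p) ≠ 0)
    (huq : (D.leadingCoeff : ZMod q) ≠ 0) (hA : IsTypeA14 p g D) (hB : IsTypeB14 q g D) :
    ((D.comp g).map (algebraMap ℤ ℚ)).Separable ∧
    IsPairTransitive7 ℚ F (g.map (algebraMap ℤ ℚ)) (D.map (algebraMap ℤ ℚ)) := by
  obtain ⟨hsep, hA'⟩ := typeA14 (F := F) hg hdeg hp hup hA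
  exact ⟨hsep, pairTransitive14 hA' (typeB14 hg hdeg hq huq hB hsep)⟩

end

end Pool.Agent.Lib.MP_89bcae_ag
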