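import Mathlib
import Pool.Agent.Lib.MP_89bcae_ag.TypB14
import Pool.Agent.Lib.MP_89bcae_ag.FamL8
import Pool.Agent.Lib.MP_89bcae_ag.Dens14

/-!
# Counting the polynomials of types A and B modulo a prime
-/

open Polynomial

namespace Pool.Agent.Lib.MP_89bcae_ag

set_option linter.unusedSectionVars false
set_option linter.style.haveILetI false
set_option linter.unusedVariables false

/-- A cubic polynomial is not injective on the field with `p` elements, `p ≡ 1 mod 3`. -/
lemma exists_collision14 {p : ℕ} [Fact p.Prime] (h1 : p % 3 = 1) {g : (ZMod p)[X]} (hg : g.Monic)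
    (hdeg : g.natDegree = 3) : ∃ x y : ZMod p, x ≠ y ∧ g.eval x = g.eval y := by
  have hp : p.Prime := Fact.out
  -- a primitive cube root of unity
  obtain ⟨ω, hω⟩ : ∃ ω : ZMod p, ω ^ 2 + ω + 1 = 0 := by
    haveI : Fact (Nat.Prime 3) := ⟨Nat.prime_three⟩
    obtain ⟨u, hu⟩ := exists_prime_orderOf_dvd_card (G := (ZMod p)ˣ) 3 (by
      rw [ZMod.card_units]
      omega)
    refine ⟨u, ?_⟩
    have h2 : (u : ZMod p) ^ 3 = 1 := by
      rw [← Units.val_pow_eq_pow_val, ← hu, pow_orderOf_eq_one, Units.val_one]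
    have h3 : (u : ZMod p) ≠ 1 := by
      intro h4
      have h5 : u = 1 := Units.ext h4
      rw [h5, orderOf_one] at hu
      omega
    have h4 : ((u : ZMod p) - 1) * ((u : ZMod p) ^ 2 + u + 1) = 0 := by
      linear_combination h2
    exact (mul_eq_zero.mp h4).resolve_left (sub_ne_zero.mpr h3)
  have h3 : (3 : ZMod p) ≠ 0 := by
    intro h
    have h4 : ((3 : ℕ) : ZMod p) = 0 := by exact_mod_cast h
    rw [ZMod.natCast_eq_zero_iff] at h4
    have h5 := (Nat.prime_dvd_prime_iff_eq hp Nat.prime_three).mp h4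
    omega
  have hev : ∀ x : ZMod p, g.eval x = x ^ 3 + g.coeff 2 * x ^ 2 + g.coeff 1 * x + g.coeff 0 := by
    intro x
    have := aeval_cubic8 (k := ZMod p) (F := ZMod p) hg hdeg x
    rwa [coe_aeval_eq_eval, Algebra.algebraMap_self] at this
  obtain ⟨t, ht⟩ : ∃ t : ZMod p, 3 * t = g.coeff 2 := ⟨g.coeff 2 / 3, by field_simp⟩
  set B := g.coeff 1 - 3 * t ^ 2 with hB
  -- the two linear forms
  obtain ⟨U, V, hUV, hne⟩ : ∃ U V : ZMod p, U * V = -B ∧ U ≠ -ω * V := by
    by_cases hB0 : B = 0
    · exact ⟨1, 0, by rw [hB0]; simp, by simp⟩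
    · by_cases h4 : -B = -ω
      · refine ⟨-B / 2, 2, ?_, ?_⟩
        · have h2 : (2 : ZMod p) ≠ 0 := by
            intro h
            have h4 : ((2 : ℕ) : ZMod p) = 0 := by exact_mod_cast h
            rw [ZMod.natCast_eq_zero_iff] at h4
            have h5 := (Nat.prime_dvd_prime_iff_eq hp Nat.prime_two).mp h4
            omega
          field_simp
        · intro h5
          have h2 : (2 : ZMod p) ≠ 0 := by
            intro h
            have h4 : ((2 : ℕ) : ZMod p) = 0 := by exact_mod_cast h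
            rw [ZMod.natCast_eq_zero_iff] at h4
            have h5 := (Nat.prime_dvd_prime_iff_eq hp Nat.prime_two).mp h4
            omega
          rw [div_eq_iff h2, h4] at h5
          have h6 : 3 * ω = 0 := by linear_combination h5
          have h7 : ω = 0 := (mul_eq_zero.mp h6).resolve_left h3
          rw [h7] at hω
          norm_num at hω
      · exact ⟨-B, 1, by ring, by rw [mul_one]; exact h4⟩
  have hω3 : (ω - 1) * (ω ^ 2 + ω + 1) = ω ^ 3 - 1 := by ring
  have hω1 : ω ≠ 1 := by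
    rintro rfl
    apply h3
    linear_combination hω
  have hω0 : ω ≠ 0 := by
    rintro rfl
    norm_num at hω
  have hd : ω ^ 2 - ω ≠ 0 := by
    intro h
    have : ω * (ω - 1) = 0 := by linear_combination h
    rcases mul_eq_zero.mp this with h | h
    · exact hω0 h
    · exact hω1 (sub_eq_zero.mp h)
  obtain ⟨Y, hY⟩ : ∃ Y : ZMod p, (ω ^ 2 - ω) * Y = U - V := ⟨(U - V) / (ω ^ 2 - ω), by field_simp⟩
  set X' := U + ω * Y with hX'
  have hU : U = X' - ω * Y := by rw [hX']; ring
  have hV : V = X' - ω ^ 2 * Y := by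
    rw [hX']
    linear_combination hY
  have hprod : X' ^ 2 + X' * Y + Y ^ 2 + B = 0 := by
    have h5 : U * V + B = 0 := by rw [hUV]; ring
    rw [hU, hV] at h5
    have h6 : ω ^ 3 = 1 := by linear_combination (ω - 1) * hω
    linear_combination h5 + (X' * Y) * hω - Y ^ 2 * h6
  have hXY : X' ≠ Y := by
    intro h
    apply hne
    rw [hU, hV, h]
    have h6 : ω ^ 3 = 1 := by linear_combination (ω - 1) * hω
    linear_combination -Y * h6 
  refine ⟨X' - t, Y - t, fun h => hXY (sub_left_injective h), ?_⟩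
  rw [hev, hev]
  have h7 : g.coeff 1 = B + 3 * t ^ 2 := by rw [hB]; ring
  rw [h7, ← ht]
  linear_combination (X' - Y) * hprod

lemma numeric14 {q n c : ℕ} (hq : 19 ≤ q) (hn : 2 ≤ n)
    (h : 2 * q ^ n ≤ 6 * c + 9 * q ^ (n / 2) + 10) : q ^ n ≤ 6 * c := by
  obtain ⟨m, rfl⟩ : ∃ m, n = m + 1 := ⟨n - 1, by omega⟩
  have h1 : q ^ ((m + 1) / 2) ≤ q ^ m := Nat.pow_le_pow_right (by omega) (by omega)
  have h2 : 1 ≤ q ^ m := Nat.one_le_pow _ _ (by omega)
  have h3 : 19 * q ^ m ≤ q ^ (m + 1) := by
    rw [pow_succ, mul_comm (q ^ m)]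
    exact Nat.mul_le_mul_right _ hq
  omega

/-- The family is large. -/
lemma family_lower14 {k : Type} [Field k] [Fintype k] (h2 : (2 : k) ≠ 0)
    (hq : 19 ≤ Fintype.card k) {g : k[X]} (hg : g.Monic) (hdeg : g.natDegree = 3)
    (hcol : ∃ x y : k, x ≠ y ∧ g.eval x = g.eval y) {n : ℕ} (hn : 2 ≤ n) :
    Fintype.card k ^ n ≤ 6 * (n * (family g n).ncard) := by
  classical
  have hfin := family_finite8 g n
  have hfam : ∀ D ∈ hfin.toFinset, D.Monic ∧ D.natDegree = n ∧ Irreducible D := by
    intro D hD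
    rw [Set.Finite.mem_toFinset] at hD
    exact ⟨hD.1, hD.2.1, irreducible_of_comp8 hdeg hD.2.2⟩
  have hcard : hfin.toFinset.card = (family g n).ncard := (Set.ncard_eq_toFinset_card _ hfin).symm
  obtain ⟨A, hA1, hA2⟩ := exists_roots_card8 (F := AlgebraicClosure k) n hfin.toFinset hfam
  have h1 := Frob14.good_count (F := AlgebraicClosure k) h2 hg hdeg hcol (i := n) (by omega)
  have h3 := numeric14 hq hn h1
  rw [← hcard, ← hA2]
  refine h3.trans (Nat.mul_le_mul_left 6 (Finset.card_le_card ?_))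
  intro a ha
  rw [Finset.mem_filter, Frob14.mem_fixS (by omega)] at ha
  rw [hA1, Set.Finite.mem_toFinset]
  exact minpoly_mem_family8 hg hdeg (by omega) ha.1 ha.2.2 ha.2.1

/-- The values at the noncritical points. -/
lemma values_lower14 {k : Type} [Field k] [Fintype k] {g : k[X]} (h3 : (3 : k) ≠ 0)
    (hg : g.Monic) (hdeg : g.natDegree = 3) :
    Fintype.card k - 2 ≤
      3 * ({α : k | ∃ b : k, (derivative g).eval b ≠ 0 ∧ g.eval b = α}).ncard := by
  classical
  have hder : (derivative g) ≠ 0 := by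
    intro h
    have h4 := congrArg (fun f => f.coeff 2) h
    simp only [coeff_derivative, coeff_zero] at h4
    have h5 : g.coeff 3 = 1 := by
      have := hg.coeff_natDegree
      rwa [hdeg] at this
    rw [show (2 + 1 : ℕ) = 3 by norm_num, h5, one_mul] at h4
    apply h3
    push_cast at h4
    linear_combination h4
  have hderdeg : (derivative g).natDegree ≤ 2 := by
    have := natDegree_derivative_le g
    omega
  set T : Finset k := Finset.univ.filter fun b => (derivative g).eval b ≠ 0 with hT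
  have hTcard : Fintype.card k - 2 ≤ T.card := by
    have h4 : Tᶜ.card ≤ 2 := by
      refine (Finset.card_le_card (t := (derivative g).roots.toFinset) ?_).trans
        ((Multiset.toFinset_card_le _).trans ((card_roots' _).trans hderdeg))
      intro b hb
      rw [Finset.mem_compl, hT, Finset.mem_filter, not_and, not_not] at hb
      rw [Multiset.mem_toFinset, mem_roots hder]
      exact hb (Finset.mem_univ b)
    rw [Finset.card_compl] at h4
    omega
  have h6 : {α : k | ∃ b : k, (derivative g).eval b ≠ 0 ∧ g.eval b = α} =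
      (T.image fun b => g.eval b : Finset k) := by
    ext α
    rw [Finset.mem_coe, Finset.mem_image]
    constructor
    · rintro ⟨b, hb, rfl⟩
      exact ⟨b, by rw [hT, Finset.mem_filter]; exact ⟨Finset.mem_univ _, hb⟩, rfl⟩
    · rintro ⟨b, hb, rfl⟩
      rw [hT, Finset.mem_filter] at hb
      exact ⟨b, hb.2, rfl⟩
  rw [h6, Set.ncard_coe_finset]
  refine hTcard.trans (Finset.card_le_mul_card_image T 3 fun α _ => ?_)
  have hne : g - C α ≠ 0 := by
    intro h
    have := congrArg natDegree h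
    rw [natDegree_sub_C, hdeg, natDegree_zero] at this
    omega
  refine (Finset.card_le_card (t := (g - C α).roots.toFinset) ?_).trans
    ((Multiset.toFinset_card_le _).trans ((card_roots' _).trans (by rw [natDegree_sub_C, hdeg])))
  intro b hb
  rw [Finset.mem_filter] at hb
  rw [Multiset.mem_toFinset, mem_roots hne, IsRoot.def, eval_sub, eval_C, hb.2, sub_self]

section Coeff

variable {k : Type} [Field k] [Fintype k]

/-- The coefficient vector. -/
def coeffs14 (n : ℕ) (f : k[X]) : Fin (n + 1) → k := fun i => f.coeff i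

omit [Fintype k] in
lemma coeffs_inj14 {n : ℕ} {f f' : k[X]} (hf : f.natDegree ≤ n) (hf' : f'.natDegree ≤ n)
    (h : coeffs14 n f = coeffs14 n f') : f = f' := by
  ext i
  by_cases hi : i < n + 1
  · exact congrFun h ⟨i, hi⟩
  · rw [coeff_eq_zero_of_natDegree_lt (by omega), coeff_eq_zero_of_natDegree_lt (by omega)]

lemma ncard_ne_zero14 : ({u : k | u ≠ 0}).ncard = Fintype.card k - 1 := by
  classical
  have h1 : {u : k | u ≠ 0} = ((Finset.univ.erase (0 : k) : Finset k) : Set k) := by
    ext u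
    simp
  rw [h1, Set.ncard_coe_finset, Finset.card_erase_of_mem (Finset.mem_univ _), Finset.card_univ]

/-- The number of the polynomials of type A. -/
lemma count_A14 (g : k[X]) (n : ℕ) :
    (Fintype.card k - 1) * (family g n).ncard ≤
      ({v : Fin (n + 1) → k | ∃ f : k[X], coeffs14 n f = v ∧ f.natDegree = n ∧
        Irreducible (f.comp g)}).ncard := by
  rw [← ncard_ne_zero14, ← Set.ncard_prod]
  apply Set.ncard_le_ncard_of_injOn (fun x : k × k[X] => coeffs14 n (C x.1 * x.2))
  · rintro ⟨u, D⟩ ⟨hu, h1, h2, h3⟩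
    refine ⟨_, rfl, ?_, ?_⟩
    · rw [natDegree_C_mul hu, h2]
    · rw [mul_comp, C_comp]
      have hu' : IsUnit (C u : k[X]) := isUnit_C.mpr (isUnit_iff_ne_zero.mpr hu)
      rw [irreducible_isUnit_mul hu']
      exact h3
  · rintro ⟨u, D⟩ ⟨hu, h1, h2, h3⟩ ⟨u', D'⟩ ⟨hu', h1', h2', h3'⟩ h
    simp only at hu hu' h1 h2 h3 h1' h2' h3' h
    have h4 := coeffs_inj14 (by rw [natDegree_C_mul hu, h2]) (by rw [natDegree_C_mul hu', h2']) h
    have h5 := congrArg leadingCoeff h4
    rw [leadingCoeff_mul, leadingCoeff_C, h1.leadingCoeff, mul_one, leadingCoeff_mul,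
      leadingCoeff_C, h1'.leadingCoeff, mul_one] at h5
    subst h5
    rw [Prod.mk.injEq]
    exact ⟨rfl, mul_left_cancel₀ (C_ne_zero.mpr hu) h4⟩

/-- The number of the polynomials of type B. -/
lemma count_B14 {g : k[X]} (hdeg : g.natDegree = 3) {n : ℕ} (hn : 3 ≤ n) :
    (Fintype.card k - 1) *
      ({α : k | ∃ b : k, (derivative g).eval b ≠ 0 ∧ g.eval b = α}).ncard *
        (family g (n - 1)).ncard ≤
      ({v : Fin (n + 1) → k | ∃ f : k[X], coeffs14 n f = v ∧ f.natDegree = n ∧
        ∃ (b : k) (D₁ : k[X]), f = (X - C (g.eval b)) * D₁ ∧ (derivative g).eval b ≠ 0 ∧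
        Irreducible (D₁.comp g)}).ncard := by
  rw [← ncard_ne_zero14, ← Set.ncard_prod, ← Set.ncard_prod]
  apply Set.ncard_le_ncard_of_injOn
    (fun x : (k × k) × k[X] => coeffs14 n (C x.1.1 * ((X - C x.1.2) * x.2)))
  · rintro ⟨⟨u, α⟩, D⟩ ⟨⟨hu, b, hb, hα⟩, h1, h2, h3⟩
    simp only at hu hb hα h1 h2 h3
    refine ⟨_, rfl, ?_, b, C u * D, ?_, hb, ?_⟩
    · change (C u * ((X - C α) * D)).natDegree = n
      rw [natDegree_C_mul hu, (monic_X_sub_C α).natDegree_mul h1, natDegree_X_sub_C, h2]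
      omega
    · change C u * ((X - C α) * D) = _
      rw [hα]
      ring
    · rw [mul_comp, C_comp]
      have hu' : IsUnit (C u : k[X]) := isUnit_C.mpr (isUnit_iff_ne_zero.mpr hu)
      rw [irreducible_isUnit_mul hu']
      exact h3
  · rintro ⟨⟨u, α⟩, D⟩ ⟨⟨hu, -⟩, h1, h2, h3⟩ ⟨⟨u', α'⟩, D'⟩ ⟨⟨hu', -⟩, h1', h2', h3'⟩ h
    simp only at hu hu' h1 h2 h3 h1' h2' h3' h
    have hdg : ∀ (u α : k) (D : k[X]), u ≠ 0 → D.Monic → D.natDegree = n - 1 →
        (C u * ((X - C α) * D)).natDegree ≤ n := by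
      intro u α D hu h1 h2
      rw [natDegree_C_mul hu, (monic_X_sub_C α).natDegree_mul h1, natDegree_X_sub_C, h2]
      omega
    have h4 := coeffs_inj14 (hdg u α D hu h1 h2) (hdg u' α' D' hu' h1' h2') h
    have h5 := congrArg leadingCoeff h4
    rw [leadingCoeff_mul, leadingCoeff_C, ((monic_X_sub_C α).mul h1).leadingCoeff, mul_one,
      leadingCoeff_mul, leadingCoeff_C, ((monic_X_sub_C α').mul h1').leadingCoeff, mul_one] at h5
    subst h5
    have h6 := mul_left_cancel₀ (C_ne_zero.mpr hu) h4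
    have h7 : α = α' := by
      by_contra hne
      have h8 := congrArg (eval α) h6
      rw [eval_mul, eval_sub, eval_X, eval_C, sub_self, zero_mul, eval_mul, eval_sub, eval_X,
        eval_C, eq_comm, mul_eq_zero] at h8
      rcases h8 with h8 | h8
      · exact hne (sub_eq_zero.mp h8)
      · have h9 : D'.natDegree = 1 := natDegree_eq_of_degree_eq_some
          (degree_eq_one_of_irreducible_of_root (irreducible_of_comp8 hdeg h3') h8)
        rw [h2'] at h9
        omega
    subst h7
    rw [Prod.mk.injEq]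
    exact ⟨rfl, mul_left_cancel₀ (X_sub_C_ne_zero α) h6⟩

end Coeff

end Pool.Agent.Lib.MP_89bcae_ag
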