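import Mathlib
import Pool.Agent.Lib.MP_89bcae_ag.DefsB7
import Pool.Agent.Lib.MP_89bcae_ag.CountC8

/-!
# The types modulo `p` of the polynomials `D`
-/

open Polynomial

open scoped Classical

namespace Pool.Agent.Lib.MP_89bcae_ag

/-- The polynomial `D(g(x))` is irreducible and the degree of `D` is `n`. -/
def TypeA7 {κ : Type} [Field κ] (g D : κ[X]) (n : ℕ) : Prop :=
  Irreducible (D.comp g) ∧ D.natDegree = n

/-- The polynomial `D` has degree `n` and a root `g(b)`, `b ∈ κ` with `g'(b) ≠ 0`, and for the quotient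
`D₁` of `D` by `t - g(b)` the polynomial `D₁(g(x))` is irreducible. -/
def TypeB7 {κ : Type} [Field κ] (g D : κ[X]) (n : ℕ) : Prop :=
  ∃ (b : κ) (D₁ : κ[X]), D = (X - C (g.eval b)) * D₁ ∧ (derivative g).eval b ≠ 0 ∧
    Irreducible (D₁.comp g) ∧ D.natDegree = n

end Pool.Agent.Lib.MP_89bcae_ag
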