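import Mathlib
import Pool.Agent.Lib.MP_89bcae_ag.DefsB7
import Pool.Agent.Lib.MP_89bcae_ag.TypZ7
import Pool.Agent.Lib.MP_89bcae_ag.TypC14

/-!
# Types A and B: Frobenius elements and counts
-/

open Polynomial

open scoped Classical

namespace Pool.Agent.Lib.MP_89bcae_ag

/-- Types A and B make the action on the pairs transitive. -/
theorem pair_of_types7 (F : Type) [Field F] [Algebra ℚ F] [IsAlgClosure ℚ F] {g D : ℤ[X]}
    (hg : g.Monic) (hdeg : g.natDegree = 3) {n : ℕ} (hD : D.natDegree ≤ n) (hn : 2 ≤ n)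
    {p₁ p₂ : ℕ} [Fact p₁.Prime] [Fact p₂.Prime]
    (h₁ : TypeA7 (g.map (Int.castRingHom (ZMod p₁))) (D.map (Int.castRingHom (ZMod p₁))) n)
    (h₂ : TypeB7 (g.map (Int.castRingHom (ZMod p₂))) (D.map (Int.castRingHom (ZMod p₂))) n) :
    ((D.comp g).map (Int.castRingHom ℚ)).Separable ∧
      IsPairTransitive7 ℚ F (g.map (Int.castRingHom ℚ)) (D.map (Int.castRingHom ℚ)) := by
  haveI : IsAlgClosed F := IsAlgClosure.isAlgClosed ℚ
  haveI : Algebra.IsAlgebraic ℚ F := IsAlgClosure.isAlgebraic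
  obtain ⟨hA, hAn⟩ := h₁
  obtain ⟨b, D₁, h3, h4, h5, hBn⟩ := h₂
  have key : ∀ (p : ℕ) (_ : Fact p.Prime), (D.map (Int.castRingHom (ZMod p))).natDegree = n →
      (D.leadingCoeff : ZMod p) ≠ 0 := by
    intro p _ h
    have h6 : D.natDegree = n := le_antisymm hD (h ▸ natDegree_map_le)
    have h7 : (D.leadingCoeff : ZMod p) = (D.map (Int.castRingHom (ZMod p))).leadingCoeff := by
      rw [leadingCoeff, leadingCoeff, h, h6, coeff_map]
      rfl
    rw [h7, leadingCoeff_ne_zero]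
    intro h8
    rw [h8, natDegree_zero] at h
    omega
  exact pairTransitive_types14 (F := F) hg hdeg (Fact.out : p₁.Prime) (Fact.out : p₂.Prime)
    (key p₁ inferInstance hAn) (key p₂ inferInstance hBn) hA ⟨b, D₁, h3, h4, h5⟩

lemma two_three_ne_zero14 {p : ℕ} (hp : p.Prime) (h : 5 ≤ p) :
    (2 : ZMod p) ≠ 0 ∧ (3 : ZMod p) ≠ 0 := by
  constructor
  · intro h
    have h4 : ((2 : ℕ) : ZMod p) = 0 := by exact_mod_cast h
    rw [ZMod.natCast_eq_zero_iff] at h4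
    have h5 := (Nat.prime_dvd_prime_iff_eq hp Nat.prime_two).mp h4
    omega
  · intro h
    have h4 : ((3 : ℕ) : ZMod p) = 0 := by exact_mod_cast h
    rw [ZMod.natCast_eq_zero_iff] at h4
    have h5 := (Nat.prime_dvd_prime_iff_eq hp Nat.prime_three).mp h4
    omega

lemma polyOf_coeffs14 {k : Type} [Field k] {n : ℕ} {f : k[X]} (hf : f.natDegree = n) :
    polyOf8 (coeffs14 n f) = f := by
  unfold polyOf8 coeffs14
  conv_rhs => rw [f.as_sum_range_C_mul_X_pow, hf]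
  rw [Finset.sum_range]

/-- The number of the residue classes of type A. -/
theorem count_typeA7 (n : ℕ) (hn : 2 ≤ n) : ∃ c : ℝ, 0 < c ∧ ∃ P₀ : ℕ, ∀ p : ℕ, ∀ _ : Fact p.Prime,
    P₀ ≤ p → p % 3 = 1 → ∀ g : (ZMod p)[X], g.Monic → g.natDegree = 3 →
      c * (p : ℝ) ^ (n + 1) ≤
        ({v : Fin (n + 1) → ZMod p | TypeA7 g (polyOf8 v) n}.ncard : ℝ) := by
  have hn0 : (0 : ℝ) < n := by exact_mod_cast (by omega : 0 < n)
  refine ⟨1 / (72 * n), by positivity, 19, fun p _ h19 h1 g hmon hdeg => ?_⟩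
  have hp : p.Prime := Fact.out
  obtain ⟨h2, -⟩ := two_three_ne_zero14 hp (by omega)
  have hcard := ZMod.card p
  have h3 := family_lower14 h2 (by rw [hcard]; exact h19) hmon hdeg
    (exists_collision14 h1 hmon hdeg) hn
  have h4 := count_A14 g n
  rw [hcard] at h3 h4
  have h5 : ({v : Fin (n + 1) → ZMod p | ∃ f : (ZMod p)[X], coeffs14 n f = v ∧
      f.natDegree = n ∧ Irreducible (f.comp g)}).ncard ≤
      {v : Fin (n + 1) → ZMod p | TypeA7 g (polyOf8 v) n}.ncard := by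
    apply Set.ncard_le_ncard _ (Set.toFinite _)
    rintro v ⟨f, rfl, hfn, hirr⟩
    change TypeA7 g (polyOf8 (coeffs14 n f)) n
    rw [polyOf_coeffs14 hfn]
    exact ⟨hirr, hfn⟩
  have h6 : ((p : ℝ) - 1) * ((family g n).ncard : ℝ) ≤
      ({v : Fin (n + 1) → ZMod p | TypeA7 g (polyOf8 v) n}.ncard : ℝ) := by
    have h7 := h4.trans h5
    have h8 : (((p - 1) * (family g n).ncard : ℕ) : ℝ) =
        ((p : ℝ) - 1) * ((family g n).ncard : ℝ) := by
      rw [Nat.cast_mul, Nat.cast_sub (by omega), Nat.cast_one]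
    rw [← h8]
    exact_mod_cast h7
  refine le_trans ?_ h6
  have h7 : (p : ℝ) ^ n ≤ 6 * (n * ((family g n).ncard : ℝ)) := by exact_mod_cast h3
  have hp19 : (19 : ℝ) ≤ p := by exact_mod_cast h19
  rw [div_mul_eq_mul_div, one_mul, div_le_iff₀ (by positivity)]
  have h8 : (0 : ℝ) ≤ ((family g n).ncard : ℝ) := Nat.cast_nonneg _
  calc (p : ℝ) ^ (n + 1) = p * (p : ℝ) ^ n := by ring
    _ ≤ p * (6 * (n * ((family g n).ncard : ℝ))) := by
        apply mul_le_mul_of_nonneg_left h7; linarith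
    _ = 6 * p * (n * ((family g n).ncard : ℝ)) := by ring
    _ ≤ 72 * (p - 1) * (n * ((family g n).ncard : ℝ)) := by
        apply mul_le_mul_of_nonneg_right _ (by positivity)
        linarith
    _ = _ := by ring

/-- The number of the residue classes of type B. -/
theorem count_typeB7 (n : ℕ) (hn : 3 ≤ n) : ∃ c : ℝ, 0 < c ∧ ∃ P₀ : ℕ, ∀ p : ℕ, ∀ _ : Fact p.Prime,
    P₀ ≤ p → p % 3 = 1 → ∀ g : (ZMod p)[X], g.Monic → g.natDegree = 3 →
      c * (p : ℝ) ^ (n + 1) ≤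
        ({v : Fin (n + 1) → ZMod p | TypeB7 g (polyOf8 v) n}.ncard : ℝ) := by
  have hn0 : (0 : ℝ) < n := by exact_mod_cast (by omega : 0 < n)
  refine ⟨1 / (72 * n), by positivity, 19, fun p _ h19 h1 g hmon hdeg => ?_⟩
  have hp : p.Prime := Fact.out
  obtain ⟨h2, h3'⟩ := two_three_ne_zero14 hp (by omega)
  have hcard := ZMod.card p
  have h3 := family_lower14 h2 (by rw [hcard]; exact h19) hmon hdeg
    (exists_collision14 h1 hmon hdeg) (n := n - 1) (by omega)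
  have h4 := count_B14 hdeg hn
  have hV := values_lower14 h3' hmon hdeg
  rw [hcard] at h3 h4 hV
  set V := ({α : ZMod p | ∃ b : ZMod p, (derivative g).eval b ≠ 0 ∧ g.eval b = α}).ncard with hVd
  have h5 : ({v : Fin (n + 1) → ZMod p | ∃ f : (ZMod p)[X], coeffs14 n f = v ∧
      f.natDegree = n ∧ ∃ (b : ZMod p) (D₁ : (ZMod p)[X]), f = (X - C (g.eval b)) * D₁ ∧
        (derivative g).eval b ≠ 0 ∧ Irreducible (D₁.comp g)}).ncard ≤
      {v : Fin (n + 1) → ZMod p | TypeB7 g (polyOf8 v) n}.ncard := by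
    apply Set.ncard_le_ncard _ (Set.toFinite _)
    rintro v ⟨f, rfl, hfn, b, D₁, hf, hb, hirr⟩
    change TypeB7 g (polyOf8 (coeffs14 n f)) n
    rw [polyOf_coeffs14 hfn]
    exact ⟨b, D₁, hf, hb, hirr, hfn⟩
  have h6 : ((p : ℝ) - 1) * V * ((family g (n - 1)).ncard : ℝ) ≤
      ({v : Fin (n + 1) → ZMod p | TypeB7 g (polyOf8 v) n}.ncard : ℝ) := by
    have h7 := h4.trans h5
    have h8 : (((p - 1) * V * (family g (n - 1)).ncard : ℕ) : ℝ) =
        ((p : ℝ) - 1) * V * ((family g (n - 1)).ncard : ℝ) := by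
      rw [Nat.cast_mul, Nat.cast_mul, Nat.cast_sub (by omega), Nat.cast_one]
    rw [← h8]
    exact_mod_cast h7
  refine le_trans ?_ h6
  have h7 : (p : ℝ) ^ (n - 1) ≤ 6 * (((n - 1 : ℕ) : ℝ) * ((family g (n - 1)).ncard : ℝ)) := by
    exact_mod_cast h3
  have hp19 : (19 : ℝ) ≤ p := by exact_mod_cast h19
  have h8 : (0 : ℝ) ≤ ((family g (n - 1)).ncard : ℝ) := Nat.cast_nonneg _
  have h9 : (p : ℝ) ^ (n - 1) ≤ 6 * (n * ((family g (n - 1)).ncard : ℝ)) := by
    refine h7.trans ?_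
    have : ((n - 1 : ℕ) : ℝ) ≤ n := by exact_mod_cast Nat.sub_le _ _
    nlinarith [mul_le_mul_of_nonneg_right this h8]
  have h10 : (p : ℝ) - 2 ≤ 3 * V := by
    have : p ≤ 3 * V + 2 := by omega
    have h11 : (p : ℝ) ≤ 3 * V + 2 := by exact_mod_cast this
    linarith
  rw [div_mul_eq_mul_div, one_mul, div_le_iff₀ (by positivity)]
  have h12 : (p : ℝ) ^ (n + 1) = p ^ 2 * (p : ℝ) ^ (n - 1) := by
    rw [← pow_add]
    congr 1
    omega
  have h13 : (p : ℝ) ^ 2 ≤ 4 * ((p - 1) * (3 * V)) := by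
    nlinarith [mul_le_mul_of_nonneg_left h10 (show (0 : ℝ) ≤ p - 1 by linarith)]
  calc (p : ℝ) ^ (n + 1) = p ^ 2 * (p : ℝ) ^ (n - 1) := h12
    _ ≤ 4 * ((p - 1) * (3 * V)) * (6 * (n * ((family g (n - 1)).ncard : ℝ))) := by
        apply mul_le_mul h13 h9 (by positivity)
        apply le_trans _ h13
        positivity
    _ = _ := by ring

end Pool.Agent.Lib.MP_89bcae_ag
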