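import Mathlib
import Pool.Agent.Lib.MP_89bcae_ag.CountC8
import Pool.Agent.Lib.MP_89bcae_ag.TypC14
import Pool.Agent.Lib.MP_89bcae_ag.StubZ7

/-!
# Counting polynomials modulo `p` and modulo `p ^ 2`, for `g` of any degree
-/

open Polynomial

open scoped Classical

set_option linter.unusedSimpArgs false
set_option linter.unusedVariables false
set_option linter.unusedSectionVars false
set_option linter.style.haveILetI false

namespace Pool.Agent.Lib.MP_89bcae_ag

section Crit

variable {K : Type*} [Field K]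

/-- A polynomial with nonzero derivative has less than `deg g` critical values. -/
theorem card_crit14 {g : K[X]} (hder : derivative g ≠ 0)
    (S : Finset K) (hS : ∀ e ∈ S, ¬ (g - C e).Separable) : S.card ≤ g.natDegree - 1 := by
  let L := AlgebraicClosure K
  have hex : ∀ e ∈ S, ∃ θ ∈ ((derivative g).aroots L).toFinset, aeval θ g = algebraMap K L e := by
    intro e he
    have h1 := hS e he
    rw [Polynomial.Separable, Polynomial.isCoprime_iff_aeval_ne_zero_of_isAlgClosed K L] at h1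
    push Not at h1
    obtain ⟨θ, h4, h5⟩ := h1
    rw [derivative_sub, derivative_C, sub_zero] at h5
    rw [map_sub, aeval_C, sub_eq_zero] at h4
    exact ⟨θ, by rw [Multiset.mem_toFinset, mem_aroots]; exact ⟨hder, h5⟩, h4⟩
  choose! f hf1 hf2 using hex
  have h6 : S.card ≤ ((derivative g).aroots L).toFinset.card := by
    apply Finset.card_le_card_of_injOn f hf1
    intro x hx y hy hxy
    apply (algebraMap K L).injective
    rw [← hf2 x hx, ← hf2 y hy, hxy]
  refine h6.trans ((Multiset.toFinset_card_le _).trans ?_)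
  refine (card_roots' _).trans ?_
  rw [natDegree_map]
  exact natDegree_derivative_le g

/-- The derivative of a monic polynomial of degree `m ≠ 0` in `K` is not zero. -/
lemma derivative_ne_zero14 {g : K[X]} (hg : g.Monic) (h : (g.natDegree : K) ≠ 0) :
    derivative g ≠ 0 := by
  intro h0
  have hd : g.natDegree ≠ 0 := by
    intro h1
    rw [h1, Nat.cast_zero] at h
    exact h rfl
  obtain ⟨d, hd'⟩ := Nat.exists_eq_succ_of_ne_zero hd
  have h1 : (derivative g).coeff d = 0 := by rw [h0, coeff_zero]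
  rw [coeff_derivative] at h1
  have h2 : g.coeff (d + 1) = 1 := by
    have h3 := hg.coeff_natDegree
    rwa [hd', Nat.succ_eq_add_one] at h3
  rw [h2, one_mul] at h1
  apply h
  rw [hd', Nat.succ_eq_add_one]
  push_cast
  exact h1

end Crit

section Irr

/-- The number of the irreducible polynomials. -/
lemma irr_lower14 {k : Type} [Field k] [Fintype k] (hq : 3 ≤ Fintype.card k) {n : ℕ} (hn : 2 ≤ n) :
    Fintype.card k ^ n ≤ 2 * (n * (family (X : k[X]) n).ncard) := by
  have hfin := family_finite8 (X : k[X]) n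
  have hfam : ∀ D ∈ hfin.toFinset, D.Monic ∧ D.natDegree = n ∧ Irreducible D := by
    intro D hD
    rw [Set.Finite.mem_toFinset] at hD
    exact ⟨hD.1, hD.2.1, by simpa using hD.2.2⟩
  have hcard : hfin.toFinset.card = (family (X : k[X]) n).ncard :=
    (Set.ncard_eq_toFinset_card _ hfin).symm
  obtain ⟨A, hA1, hA2⟩ := exists_roots_card8 (F := AlgebraicClosure k) n hfin.toFinset hfam
  have h1 := Frob14.card_fixS (k := k) (F := AlgebraicClosure k) (i := n) (by omega)
  have h2 := Frob14.small_card (k := k) (F := AlgebraicClosure k) n (by omega)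
  have h3 := Frob14.two_mul_sum_pow_le hq (n / 2)
  have h4 : 3 * Fintype.card k ^ (n / 2) ≤ Fintype.card k ^ n := by
    calc 3 * Fintype.card k ^ (n / 2) ≤ Fintype.card k * Fintype.card k ^ (n - 1) :=
          Nat.mul_le_mul hq (Nat.pow_le_pow_right (by omega) (by omega))
      _ = Fintype.card k ^ n := by
          rw [← pow_succ']
          congr 1
          omega
  have h5 := Finset.card_filter_add_card_filter_not (s := Frob14.fixS k (AlgebraicClosure k) n)
    (fun v => ∃ j, 0 < j ∧ j < n ∧ v ^ (Fintype.card k ^ j) = v)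
  have h6 : ((Frob14.fixS k (AlgebraicClosure k) n).filter
      (fun v => ¬ ∃ j, 0 < j ∧ j < n ∧ v ^ (Fintype.card k ^ j) = v)).card ≤ A.card := by
    apply Finset.card_le_card
    intro a ha
    rw [Finset.mem_filter, Frob14.mem_fixS (by omega)] at ha
    obtain ⟨ha1, ha2⟩ := ha
    rw [hA1, Set.Finite.mem_toFinset]
    have hint : IsIntegral k a := Algebra.IsIntegral.isIntegral a
    refine ⟨minpoly.monic hint, ?_, ?_⟩
    · have h1 : (minpoly k a).natDegree ∣ n := by
        rw [← frob8_pow_eq_iff, frob8_pow_apply, ha1]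
      have h2 := Nat.le_of_dvd (by omega) h1
      have h3 : 0 < (minpoly k a).natDegree := minpoly.natDegree_pos hint
      by_contra h4
      apply ha2
      refine ⟨(minpoly k a).natDegree, h3, lt_of_le_of_ne h2 h4, ?_⟩
      rw [← frob8_pow_apply, frob8_pow_eq_iff]
    · rw [comp_X]
      exact minpoly.irreducible hint
  rw [hA2, hcard] at h6
  omega

variable {k : Type} [Field k] [Fintype k]

/-- The number of the products of a linear and an irreducible polynomial. -/
lemma count_BX14 {n : ℕ} (hn : 3 ≤ n) :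
    (Fintype.card k - 1) * Fintype.card k * (family (X : k[X]) (n - 1)).ncard ≤
      ({v : Fin (n + 1) → k | ∃ f : k[X], coeffs14 n f = v ∧ f.natDegree = n ∧
        ∃ (b : k) (D₁ : k[X]), f = (X - C b) * D₁ ∧ Irreducible D₁ ∧ D₁.natDegree = n - 1}).ncard := by
  have huniv : Fintype.card k = (Set.univ : Set k).ncard := by
    rw [Set.ncard_univ, Nat.card_eq_fintype_card]
  rw [← ncard_ne_zero14]
  conv_lhs => rw [huniv]
  rw [← Set.ncard_prod, ← Set.ncard_prod]
  apply Set.ncard_le_ncard_of_injOn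
    (fun x : (k × k) × k[X] => coeffs14 n (C x.1.1 * ((X - C x.1.2) * x.2)))
  · rintro ⟨⟨u, α⟩, D⟩ ⟨⟨hu, -⟩, h1, h2, h3⟩
    simp only at hu h1 h2 h3
    rw [comp_X] at h3
    refine ⟨_, rfl, ?_, α, C u * D, ?_, ?_, ?_⟩
    · change (C u * ((X - C α) * D)).natDegree = n
      rw [natDegree_C_mul hu, (monic_X_sub_C α).natDegree_mul h1, natDegree_X_sub_C, h2]
      omega
    · change C u * ((X - C α) * D) = _
      ring
    · have hu' : IsUnit (C u : k[X]) := isUnit_C.mpr (isUnit_iff_ne_zero.mpr hu)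
      rw [irreducible_isUnit_mul hu']
      exact h3
    · rw [natDegree_C_mul hu, h2]
  · rintro ⟨⟨u, α⟩, D⟩ ⟨⟨hu, -⟩, h1, h2, h3⟩ ⟨⟨u', α'⟩, D'⟩ ⟨⟨hu', -⟩, h1', h2', h3'⟩ h
    simp only at hu hu' h1 h2 h3 h1' h2' h3' h
    rw [comp_X] at h3 h3'
    have hdg : ∀ (u α : k) (D : k[X]), u ≠ 0 → D.Monic → D.natDegree = n - 1 →
        (C u * ((X - C α) * D)).natDegree ≤ n := by
      intro u α D hu h1 h2
      rw [natDegree_C_mul hu, (monic_X_sub_C α).natDegree_mul h1, natDegree_X_sub_C, h2]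
      omega
    have h4 := coeffs_inj14 (hdg u α D hu h1 h2) (hdg u' α' D' hu' h1' h2') h
    have h5 := congrArg leadingCoeff h4
    rw [leadingCoeff_mul, leadingCoeff_C, ((monic_X_sub_C α).mul h1).leadingCoeff, mul_one,
      leadingCoeff_mul, leadingCoeff_C, ((monic_X_sub_C α').mul h1').leadingCoeff, mul_one] at h5
    subst h5
    have h6 := mul_left_cancel₀ (C_ne_zero.mpr hu) h4
    have h7 : α = α' := by
      by_contra hne
      have h8 := congrArg (eval α) h6
      rw [eval_mul, eval_sub, eval_X, eval_C, sub_self, zero_mul, eval_mul, eval_sub, eval_X,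
        eval_C, eq_comm, mul_eq_zero] at h8
      rcases h8 with h8 | h8
      · exact hne (sub_eq_zero.mp h8)
      · have h9 : D'.natDegree = 1 := natDegree_eq_of_degree_eq_some
          (degree_eq_one_of_irreducible_of_root h3' h8)
        rw [h2'] at h9
        omega
    subst h7
    rw [Prod.mk.injEq]
    exact ⟨rfl, mul_left_cancel₀ (X_sub_C_ne_zero α) h6⟩

end Irr

/-- The polynomial is irreducible of degree `n`. -/
def TypeAX14 {κ : Type} [Field κ] (D : κ[X]) (n : ℕ) : Prop :=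
  Irreducible D ∧ D.natDegree = n

/-- The polynomial is the product of a linear polynomial and an irreducible polynomial of degree
`n - 1`. -/
def TypeBX14 {κ : Type} [Field κ] (D : κ[X]) (n : ℕ) : Prop :=
  ∃ (b : κ) (D₁ : κ[X]), D = (X - C b) * D₁ ∧ Irreducible D₁ ∧ D₁.natDegree = n - 1 ∧
    D.natDegree = n

/-- The polynomial `D` has degree `n` and `D(g)` is separable. -/
def TypeS14 {κ : Type} [Field κ] (g D : κ[X]) (n : ℕ) : Prop :=
  D.natDegree = n ∧ (D.comp g).Separable

/-- The number of the residue classes of type A. -/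
theorem count_typeAX14 (n : ℕ) (hn : 2 ≤ n) : ∃ c : ℝ, 0 < c ∧ ∃ P₀ : ℕ, ∀ p : ℕ,
    ∀ _ : Fact p.Prime, P₀ ≤ p →
      c * (p : ℝ) ^ (n + 1) ≤
        ({v : Fin (n + 1) → ZMod p | TypeAX14 (polyOf8 v) n}.ncard : ℝ) := by
  have hn0 : (0 : ℝ) < n := by exact_mod_cast (by omega : 0 < n)
  refine ⟨1 / (4 * n), by positivity, 3, fun p _ hp3 => ?_⟩
  have hp : p.Prime := Fact.out
  have hcard := ZMod.card p
  have h3 := irr_lower14 (k := ZMod p) (by rw [hcard]; exact hp3) hn
  have h4 := count_A14 (X : (ZMod p)[X]) n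
  rw [hcard] at h3 h4
  have h5 : ({v : Fin (n + 1) → ZMod p | ∃ f : (ZMod p)[X], coeffs14 n f = v ∧
      f.natDegree = n ∧ Irreducible (f.comp X)}).ncard ≤
      {v : Fin (n + 1) → ZMod p | TypeAX14 (polyOf8 v) n}.ncard := by
    apply Set.ncard_le_ncard _ (Set.toFinite _)
    rintro v ⟨f, rfl, hfn, hirr⟩
    change TypeAX14 (polyOf8 (coeffs14 n f)) n
    rw [polyOf_coeffs14 hfn]
    rw [comp_X] at hirr
    exact ⟨hirr, hfn⟩
  have h6 : ((p : ℝ) - 1) * ((family (X : (ZMod p)[X]) n).ncard : ℝ) ≤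
      ({v : Fin (n + 1) → ZMod p | TypeAX14 (polyOf8 v) n}.ncard : ℝ) := by
    have h7 := h4.trans h5
    have h8 : (((p - 1) * (family (X : (ZMod p)[X]) n).ncard : ℕ) : ℝ) =
        ((p : ℝ) - 1) * ((family (X : (ZMod p)[X]) n).ncard : ℝ) := by
      rw [Nat.cast_mul, Nat.cast_sub (by omega), Nat.cast_one]
    rw [← h8]
    exact_mod_cast h7
  refine le_trans ?_ h6
  have h7 : (p : ℝ) ^ n ≤ 2 * (n * ((family (X : (ZMod p)[X]) n).ncard : ℝ)) := by
    exact_mod_cast h3
  have hp3' : (3 : ℝ) ≤ p := by exact_mod_cast hp3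
  rw [div_mul_eq_mul_div, one_mul, div_le_iff₀ (by positivity)]
  have h8 : (0 : ℝ) ≤ ((family (X : (ZMod p)[X]) n).ncard : ℝ) := Nat.cast_nonneg _
  calc (p : ℝ) ^ (n + 1) = p * (p : ℝ) ^ n := by ring
    _ ≤ p * (2 * (n * ((family (X : (ZMod p)[X]) n).ncard : ℝ))) := by
        apply mul_le_mul_of_nonneg_left h7; linarith
    _ = 2 * p * (n * ((family (X : (ZMod p)[X]) n).ncard : ℝ)) := by ring
    _ ≤ 4 * (p - 1) * (n * ((family (X : (ZMod p)[X]) n).ncard : ℝ)) := by
        apply mul_le_mul_of_nonneg_right _ (by positivity)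
        linarith
    _ = _ := by ring

/-- The number of the residue classes of type B. -/
theorem count_typeBX14 (n : ℕ) (hn : 3 ≤ n) : ∃ c : ℝ, 0 < c ∧ ∃ P₀ : ℕ, ∀ p : ℕ,
    ∀ _ : Fact p.Prime, P₀ ≤ p →
      c * (p : ℝ) ^ (n + 1) ≤
        ({v : Fin (n + 1) → ZMod p | TypeBX14 (polyOf8 v) n}.ncard : ℝ) := by
  have hn0 : (0 : ℝ) < n := by exact_mod_cast (by omega : 0 < n)
  refine ⟨1 / (4 * n), by positivity, 3, fun p _ hp3 => ?_⟩
  have hp : p.Prime := Fact.out
  have hcard := ZMod.card p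
  have h3 := irr_lower14 (k := ZMod p) (by rw [hcard]; exact hp3) (n := n - 1) (by omega)
  have h4 := count_BX14 (k := ZMod p) hn
  rw [hcard] at h3 h4
  have h5 : ({v : Fin (n + 1) → ZMod p | ∃ f : (ZMod p)[X], coeffs14 n f = v ∧
      f.natDegree = n ∧ ∃ (b : ZMod p) (D₁ : (ZMod p)[X]), f = (X - C b) * D₁ ∧
        Irreducible D₁ ∧ D₁.natDegree = n - 1}).ncard ≤
      {v : Fin (n + 1) → ZMod p | TypeBX14 (polyOf8 v) n}.ncard := by
    apply Set.ncard_le_ncard _ (Set.toFinite _)
    rintro v ⟨f, rfl, hfn, b, D₁, hf, hirr, hd⟩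
    change TypeBX14 (polyOf8 (coeffs14 n f)) n
    rw [polyOf_coeffs14 hfn]
    exact ⟨b, D₁, hf, hirr, hd, hfn⟩
  have h6 : ((p : ℝ) - 1) * p * ((family (X : (ZMod p)[X]) (n - 1)).ncard : ℝ) ≤
      ({v : Fin (n + 1) → ZMod p | TypeBX14 (polyOf8 v) n}.ncard : ℝ) := by
    have h7 := h4.trans h5
    have h8 : (((p - 1) * p * (family (X : (ZMod p)[X]) (n - 1)).ncard : ℕ) : ℝ) =
        ((p : ℝ) - 1) * p * ((family (X : (ZMod p)[X]) (n - 1)).ncard : ℝ) := by
      rw [Nat.cast_mul, Nat.cast_mul, Nat.cast_sub (by omega), Nat.cast_one]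
    rw [← h8]
    exact_mod_cast h7
  refine le_trans ?_ h6
  have h7 : (p : ℝ) ^ (n - 1) ≤
      2 * (((n - 1 : ℕ) : ℝ) * ((family (X : (ZMod p)[X]) (n - 1)).ncard : ℝ)) := by
    exact_mod_cast h3
  have hp3' : (3 : ℝ) ≤ p := by exact_mod_cast hp3
  have h8 : (0 : ℝ) ≤ ((family (X : (ZMod p)[X]) (n - 1)).ncard : ℝ) := Nat.cast_nonneg _
  have h9 : (p : ℝ) ^ (n - 1) ≤ 2 * (n * ((family (X : (ZMod p)[X]) (n - 1)).ncard : ℝ)) := by
    refine h7.trans ?_
    have : ((n - 1 : ℕ) : ℝ) ≤ n := by exact_mod_cast Nat.sub_le _ _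
    nlinarith [mul_le_mul_of_nonneg_right this h8]
  rw [div_mul_eq_mul_div, one_mul, div_le_iff₀ (by positivity)]
  have h12 : (p : ℝ) ^ (n + 1) = p ^ 2 * (p : ℝ) ^ (n - 1) := by
    rw [← pow_add]
    congr 1
    omega
  have h13 : (p : ℝ) ^ 2 ≤ 2 * ((p - 1) * p) := by nlinarith
  calc (p : ℝ) ^ (n + 1) = p ^ 2 * (p : ℝ) ^ (n - 1) := h12
    _ ≤ 2 * ((p - 1) * p) * (2 * (n * ((family (X : (ZMod p)[X]) (n - 1)).ncard : ℝ))) := by
        apply mul_le_mul h13 h9 (by positivity)
        apply le_trans _ h13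
        positivity
    _ = _ := by ring

end Pool.Agent.Lib.MP_89bcae_ag
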