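import Mathlib

/-!
# Brackets of lines: counting modulo `p`

The lines `α i = a i + b i t`, `i ∈ ι`, and the line at infinity (`none`), as points
`(1, a i, b i)` and `(0, 1, 0)`. The bracket of three of them is the determinant of their
coordinates.
-/

open scoped Classical

namespace Pool.Agent.Lib.MP_89bcae_ag

section

variable {ι : Type} {R S : Type*} [CommRing R] [CommRing S]

/-- The first coordinate. -/
def pc14 (R : Type*) [CommRing R] : Option ι → R
  | none => 0
  | some _ => 1

/-- The second coordinate. -/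
def pa14 (v : ι ⊕ ι → R) : Option ι → R
  | none => 1
  | some i => v (Sum.inl i)

/-- The third coordinate. -/
def pb14 (v : ι ⊕ ι → R) : Option ι → R
  | none => 0
  | some i => v (Sum.inr i)

/-- The bracket: the determinant of the rows `(1, a i, b i)`, with `(0, 1, 0)` for `none`. -/
def brk14 (v : ι ⊕ ι → R) (x y z : Option ι) : R :=
  pc14 R x * (pa14 v y * pb14 v z - pb14 v y * pa14 v z) -
    pa14 v x * (pc14 R y * pb14 v z - pb14 v y * pc14 R z) +
    pb14 v x * (pc14 R y * pa14 v z - pa14 v y * pc14 R z)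

lemma brk14_rotate (v : ι ⊕ ι → R) (x y z : Option ι) : brk14 v x y z = brk14 v y z x := by
  unfold brk14
  ring

lemma map_brk14 (φ : R →+* S) (v : ι ⊕ ι → R) (x y z : Option ι) :
    φ (brk14 v x y z) = brk14 (fun i => φ (v i)) x y z := by
  have hc : ∀ x : Option ι, φ (pc14 R x) = pc14 S x := by
    rintro (_ | i)
    · exact map_zero φ
    · exact map_one φ
  have ha : ∀ x : Option ι, φ (pa14 v x) = pa14 (fun i => φ (v i)) x := by
    rintro (_ | i)
    · exact map_one φ
    · rfl
  have hb : ∀ x : Option ι, φ (pb14 v x) = pb14 (fun i => φ (v i)) x := by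
    rintro (_ | i)
    · exact map_zero φ
    · rfl
  unfold brk14
  simp only [map_add, map_sub, map_mul, hc, ha, hb]

/-- The bracket with the line at infinity. -/
lemma brk14_none (v : ι ⊕ ι → R) (i j : ι) :
    brk14 v (some i) (some j) none = v (Sum.inr i) - v (Sum.inr j) := by
  simp only [brk14, pc14, pa14, pb14]
  ring

lemma brk14_none' (v : ι ⊕ ι → R) (j k : ι) :
    brk14 v none (some j) (some k) = v (Sum.inr j) - v (Sum.inr k) := by
  simp only [brk14, pc14, pa14, pb14]
  ring

/-- The coefficients of the bracket as a function of the third line. -/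
def cf1 (v : ι ⊕ ι → R) (x y : Option ι) : R := pb14 v x * pc14 R y - pc14 R x * pb14 v y

/-- See `cf1`. -/
def cf2 (v : ι ⊕ ι → R) (x y : Option ι) : R := pc14 R x * pa14 v y - pa14 v x * pc14 R y

/-- See `cf1`. -/
def cf3 (v : ι ⊕ ι → R) (x y : Option ι) : R := pa14 v x * pb14 v y - pb14 v x * pa14 v y

lemma brk14_some (v : ι ⊕ ι → R) (x y : Option ι) (r : ι) :
    brk14 v x y (some r) =
      cf1 v x y * v (Sum.inl r) + cf2 v x y * v (Sum.inr r) + cf3 v x y := by
  unfold brk14 cf1 cf2 cf3
  simp only [pc14, pa14, pb14]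
  ring

lemma pa14_update_inr [DecidableEq ι] (v : ι ⊕ ι → R) (x : Option ι) (r : ι) (c : R) :
    pa14 (Function.update v (Sum.inr r) c) x = pa14 v x := by
  rcases x with _ | i
  · rfl
  · have h : (Sum.inl i : ι ⊕ ι) ≠ Sum.inr r := Sum.inl_ne_inr
    exact Function.update_of_ne h c v

lemma pb14_update_inl [DecidableEq ι] (v : ι ⊕ ι → R) (x : Option ι) (r : ι) (c : R) :
    pb14 (Function.update v (Sum.inl r) c) x = pb14 v x := by
  rcases x with _ | i
  · rfl
  · have h : (Sum.inr i : ι ⊕ ι) ≠ Sum.inl r := Sum.inr_ne_inl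
    exact Function.update_of_ne h c v

lemma pa14_update_inl [DecidableEq ι] (v : ι ⊕ ι → R) (x : Option ι) (r : ι) (hx : x ≠ some r)
    (c : R) : pa14 (Function.update v (Sum.inl r) c) x = pa14 v x := by
  rcases x with _ | i
  · rfl
  · refine Function.update_of_ne (fun h => hx ?_) _ _
    rw [Sum.inl.injEq] at h
    rw [h]

lemma pb14_update_inr [DecidableEq ι] (v : ι ⊕ ι → R) (x : Option ι) (r : ι) (hx : x ≠ some r)
    (c : R) : pb14 (Function.update v (Sum.inr r) c) x = pb14 v x := by
  rcases x with _ | i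
  · rfl
  · refine Function.update_of_ne (fun h => hx ?_) _ _
    rw [Sum.inr.injEq] at h
    rw [h]

end

section thin

variable {κ : Type} [Fintype κ] [DecidableEq κ] {F : Type} [Fintype F] [AddGroup F]

/-- A set which meets every line in the direction of a coordinate in at most one point. -/
def Thin14 (κ₀ : κ) (Z : Set (κ → F)) : Prop :=
  ∀ v ∈ Z, ∀ x : F, Function.update v κ₀ x ∈ Z → x = v κ₀

omit [Fintype κ] [Fintype F] [AddGroup F] in
lemma Thin14.mono {κ₀ : κ} {Z Z' : Set (κ → F)} (h : Thin14 κ₀ Z) (hs : Z' ⊆ Z) : Thin14 κ₀ Z' :=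
  fun v hv x hx => h v (hs hv) x (hs hx)

lemma Thin14.card {κ₀ : κ} {Z : Set (κ → F)} (h : Thin14 κ₀ Z) :
    Z.ncard * Fintype.card F ≤ Fintype.card F ^ Fintype.card κ := by
  have h1 : Z.ncard * Fintype.card F = Nat.card (Z × F) := by
    rw [Nat.card_prod, Nat.card_coe_set_eq, Nat.card_eq_fintype_card]
  have h2 : Fintype.card F ^ Fintype.card κ = Nat.card (κ → F) := by
    rw [Nat.card_eq_fintype_card, Fintype.card_fun]
  rw [h1, h2]
  refine Nat.card_le_card_of_injective
    (fun p : Z × F => Function.update p.1.1 κ₀ (p.1.1 κ₀ + p.2)) ?_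
  rintro ⟨⟨v, hv⟩, x⟩ ⟨⟨w, hw⟩, y⟩ hvw
  simp only at hvw
  have h3 : ∀ k, k ≠ κ₀ → v k = w k := by
    intro k hk
    have := congrFun hvw k
    rwa [Function.update_of_ne hk, Function.update_of_ne hk] at this
  have h4 : Function.update v κ₀ (w κ₀) = w := by
    funext k
    by_cases hk : k = κ₀
    · subst hk
      rw [Function.update_self]
    · rw [Function.update_of_ne hk, h3 k hk]
  have h5 : w κ₀ = v κ₀ := h v hv (w κ₀) (by rw [h4]; exact hw)
  have h6 : v = w := by
    rw [← h4, h5, Function.update_eq_self]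
  subst h6
  have h7 := congrFun hvw κ₀
  rw [Function.update_self, Function.update_self, add_right_inj] at h7
  rw [h7]

end thin

section count

variable {ι : Type} [Fintype ι] [DecidableEq ι] {F : Type} [Fintype F] [Field F]

/-- Some bracket outside of the triple `x, y, z` vanishes. -/
def Bad14 (x y z : Option ι) {R : Type} [CommRing R] (v : ι ⊕ ι → R) : Prop :=
  ∃ x' y' z' : Option ι, x' ≠ y' ∧ y' ≠ z' ∧ x' ≠ z' ∧ z' ≠ x ∧ z' ≠ y ∧ z' ≠ z ∧
    brk14 v x' y' z' = 0

omit [Fintype ι] [Fintype F] [Field F] in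
lemma thin_b14 (i j : ι) (hij : i ≠ j) :
    Thin14 (Sum.inr i) {v : ι ⊕ ι → F | v (Sum.inr i) = v (Sum.inr j)} := by
  intro v hv x hx
  rw [Set.mem_ofPred_eq] at hv hx
  rw [Function.update_self, Function.update_of_ne (by simpa using hij.symm)] at hx
  rw [hx, hv]

omit [Fintype ι] [Fintype F] [Field F] in
lemma thin_a14 (i j : ι) (hij : i ≠ j) :
    Thin14 (Sum.inl i) {v : ι ⊕ ι → F | v (Sum.inl i) = v (Sum.inl j)} := by
  intro v hv x hx
  rw [Set.mem_ofPred_eq] at hv hx
  rw [Function.update_self, Function.update_of_ne (by simpa using hij.symm)] at hx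
  rw [hx, hv]

/-- The set where a bracket containing a new line `r` vanishes is a union of three thin sets. -/
lemma thin_brk14 {κ₀ : ι ⊕ ι} {sol : (ι ⊕ ι → F) → F} {r : ι} (hr1 : Sum.inl r ≠ κ₀)
    (hr2 : Sum.inr r ≠ κ₀)
    (hsol1 : ∀ v c, sol (Function.update v (Sum.inl r) c) = sol v)
    (hsol2 : ∀ v c, sol (Function.update v (Sum.inr r) c) = sol v)
    (hZ3 : ∀ i j : ι, i ≠ j → ∃ κ₁, Thin14 κ₁ {v : ι ⊕ ι → F |
      Function.update v κ₀ (sol v) (Sum.inl i) = Function.update v κ₀ (sol v) (Sum.inl j) ∧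
      Function.update v κ₀ (sol v) (Sum.inr i) = Function.update v κ₀ (sol v) (Sum.inr j)})
    (x y : Option ι) (hxy : x ≠ y) (hx : x ≠ some r) (hy : y ≠ some r) :
    ({v : ι ⊕ ι → F | brk14 (Function.update v κ₀ (sol v)) x y (some r) = 0}).ncard *
      Fintype.card F ≤ 3 * Fintype.card F ^ Fintype.card (ι ⊕ ι) := by
  set s : (ι ⊕ ι → F) → (ι ⊕ ι → F) := fun v => Function.update v κ₀ (sol v) with hs
  have hs1 : ∀ v c, s (Function.update v (Sum.inl r) c) = Function.update (s v) (Sum.inl r) c := by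
    intro v c
    simp only [hs]
    rw [hsol1, Function.update_comm hr1]
  have hs2 : ∀ v c, s (Function.update v (Sum.inr r) c) = Function.update (s v) (Sum.inr r) c := by
    intro v c
    simp only [hs]
    rw [hsol2, Function.update_comm hr2]
  have hsl : ∀ v, s v (Sum.inl r) = v (Sum.inl r) := fun v => Function.update_of_ne hr1 _ _
  have hsr : ∀ v, s v (Sum.inr r) = v (Sum.inr r) := fun v => Function.update_of_ne hr2 _ _
  have hcf1 : ∀ (v : ι ⊕ ι → F) c, cf1 (Function.update v (Sum.inl r) c) x y = cf1 v x y := by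
    intro v c
    unfold cf1
    rw [pb14_update_inl, pb14_update_inl]
  have hcf2 : ∀ (v : ι ⊕ ι → F) c, cf2 (Function.update v (Sum.inl r) c) x y = cf2 v x y := by
    intro v c
    unfold cf2
    rw [pa14_update_inl _ _ _ hx, pa14_update_inl _ _ _ hy]
  have hcf3 : ∀ (v : ι ⊕ ι → F) c, cf3 (Function.update v (Sum.inl r) c) x y = cf3 v x y := by
    intro v c
    unfold cf3
    rw [pb14_update_inl, pb14_update_inl, pa14_update_inl _ _ _ hx, pa14_update_inl _ _ _ hy]
  have hcf1' : ∀ (v : ι ⊕ ι → F) c, cf1 (Function.update v (Sum.inr r) c) x y = cf1 v x y := by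
    intro v c
    unfold cf1
    rw [pb14_update_inr _ _ _ hx, pb14_update_inr _ _ _ hy]
  have hcf2' : ∀ (v : ι ⊕ ι → F) c, cf2 (Function.update v (Sum.inr r) c) x y = cf2 v x y := by
    intro v c
    unfold cf2
    rw [pa14_update_inr, pa14_update_inr]
  have hcf3' : ∀ (v : ι ⊕ ι → F) c, cf3 (Function.update v (Sum.inr r) c) x y = cf3 v x y := by
    intro v c
    unfold cf3
    rw [pb14_update_inr _ _ _ hx, pb14_update_inr _ _ _ hy, pa14_update_inr, pa14_update_inr]
  -- the three sets
  set Z1 : Set (ι ⊕ ι → F) := {v | cf1 (s v) x y ≠ 0 ∧ brk14 (s v) x y (some r) = 0} with hZ1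
  set Z2 : Set (ι ⊕ ι → F) := {v | cf2 (s v) x y ≠ 0 ∧ brk14 (s v) x y (some r) = 0} with hZ2
  set Z0 : Set (ι ⊕ ι → F) := {v | cf1 (s v) x y = 0 ∧ cf2 (s v) x y = 0} with hZ0
  have t1 : Thin14 (Sum.inl r) Z1 := by
    rintro v ⟨h1, h2⟩ c ⟨h3, h4⟩
    rw [hs1, brk14_some, hcf1, hcf2, hcf3, Function.update_self,
      Function.update_of_ne (by simp)] at h4
    rw [brk14_some] at h2
    have h5 : cf1 (s v) x y * (c - s v (Sum.inl r)) = 0 := by linear_combination h4 - h2
    rcases mul_eq_zero.mp h5 with h6 | h6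
    · exact absurd h6 h1
    · rw [← hsl v]
      exact sub_eq_zero.mp h6
  have t2 : Thin14 (Sum.inr r) Z2 := by
    rintro v ⟨h1, h2⟩ c ⟨h3, h4⟩
    rw [hs2, brk14_some, hcf1', hcf2', hcf3', Function.update_self,
      Function.update_of_ne (by simp)] at h4
    rw [brk14_some] at h2
    have h5 : cf2 (s v) x y * (c - s v (Sum.inr r)) = 0 := by linear_combination h4 - h2
    rcases mul_eq_zero.mp h5 with h6 | h6
    · exact absurd h6 h1
    · rw [← hsr v]
      exact sub_eq_zero.mp h6
  have t0 : ∃ κ₁, Thin14 κ₁ Z0 := by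
    rcases x with _ | i
    · rcases y with _ | j
      · exact absurd rfl hxy
      · refine ⟨κ₀, ?_⟩
        rintro v ⟨-, h2⟩
        exfalso
        simp [cf2, pc14, pa14] at h2
    · rcases y with _ | j
      · refine ⟨κ₀, ?_⟩
        rintro v ⟨-, h2⟩
        exfalso
        simp [cf2, pc14, pa14] at h2
      · obtain ⟨κ₁, h1⟩ := hZ3 i j fun h => hxy (by rw [h])
        refine ⟨κ₁, h1.mono ?_⟩
        rintro v ⟨h2, h3⟩
        simp only [cf1, cf2, pc14, pa14, pb14, mul_one, one_mul] at h2 h3
        exact ⟨(sub_eq_zero.mp h3).symm, sub_eq_zero.mp h2⟩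
  obtain ⟨κ₁, t0⟩ := t0
  have hcov : {v : ι ⊕ ι → F | brk14 (s v) x y (some r) = 0} ⊆ (Z1 ∪ Z2) ∪ Z0 := by
    intro v hv
    by_cases h1 : cf1 (s v) x y = 0
    · by_cases h2 : cf2 (s v) x y = 0
      · exact Or.inr ⟨h1, h2⟩
      · exact Or.inl (Or.inr ⟨h2, hv⟩)
    · exact Or.inl (Or.inl ⟨h1, hv⟩)
  have h1 := Set.ncard_le_ncard hcov (Set.toFinite _)
  have h2 := Set.ncard_union_le (Z1 ∪ Z2) Z0
  have h3 := Set.ncard_union_le Z1 Z2
  have c1 := t1.card
  have c2 := t2.card
  have c0 := t0.card
  have h4 : ({v : ι ⊕ ι → F | brk14 (s v) x y (some r) = 0}).ncard ≤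
      Z1.ncard + Z2.ncard + Z0.ncard := by omega
  calc ({v : ι ⊕ ι → F | brk14 (s v) x y (some r) = 0}).ncard * Fintype.card F
      ≤ (Z1.ncard + Z2.ncard + Z0.ncard) * Fintype.card F := Nat.mul_le_mul_right _ h4
    _ = Z1.ncard * Fintype.card F + Z2.ncard * Fintype.card F + Z0.ncard * Fintype.card F := by
        ring
    _ ≤ 3 * Fintype.card F ^ Fintype.card (ι ⊕ ι) := by omega

/-- The number of the points of the hypersurface where one bracket vanishes and the others do not. -/
lemma count_gen14 {κ₀ : ι ⊕ ι} {sol : (ι ⊕ ι → F) → F} (x : Option ι) (j k : ι)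
    (hκ : κ₀ = Sum.inl k ∨ κ₀ = Sum.inr k)
    (hsol1 : ∀ r, some r ≠ x → r ≠ j → r ≠ k → ∀ v c,
      sol (Function.update v (Sum.inl r) c) = sol v)
    (hsol2 : ∀ r, some r ≠ x → r ≠ j → r ≠ k → ∀ v c,
      sol (Function.update v (Sum.inr r) c) = sol v)
    (hZ3 : ∀ i j : ι, i ≠ j → ∃ κ₁, Thin14 κ₁ {v : ι ⊕ ι → F |
      Function.update v κ₀ (sol v) (Sum.inl i) = Function.update v κ₀ (sol v) (Sum.inl j) ∧
      Function.update v κ₀ (sol v) (Sum.inr i) = Function.update v κ₀ (sol v) (Sum.inr j)})
    (hnone : x ≠ none → ∀ i j : ι, i ≠ j → ∃ κ₁, Thin14 κ₁ {v : ι ⊕ ι → F |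
      Function.update v κ₀ (sol v) (Sum.inr i) = Function.update v κ₀ (sol v) (Sum.inr j)})
    (hzero : ∀ v, ¬ Bad14 x (some j) (some k) (Function.update v κ₀ (sol v)) →
      brk14 (Function.update v κ₀ (sol v)) x (some j) (some k) = 0) :
    Fintype.card F ^ Fintype.card (ι ⊕ ι) * Fintype.card F ≤
      ({v : ι ⊕ ι → F | brk14 v x (some j) (some k) = 0 ∧
        ¬ Bad14 x (some j) (some k) v}).ncard * Fintype.card F * Fintype.card F +
      3 * (Fintype.card ι + 1) ^ 3 * Fintype.card F ^ Fintype.card (ι ⊕ ι) := by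
  set s : (ι ⊕ ι → F) → (ι ⊕ ι → F) := fun v => Function.update v κ₀ (sol v) with hs
  set q := Fintype.card F with hq
  set N := Fintype.card (ι ⊕ ι) with hN
  set S : Set (ι ⊕ ι → F) := {v | brk14 v x (some j) (some k) = 0 ∧
    ¬ Bad14 x (some j) (some k) v} with hS
  set B : Set (ι ⊕ ι → F) := {v | Bad14 x (some j) (some k) (s v)} with hB
  -- the bad set
  let Tr := Option ι × Option ι × Option ι
  let Z : Tr → Finset (ι ⊕ ι → F) := fun t => Finset.univ.filter fun v =>
    t.1 ≠ t.2.1 ∧ t.2.1 ≠ t.2.2 ∧ t.1 ≠ t.2.2 ∧ t.2.2 ≠ x ∧ t.2.2 ≠ some j ∧ t.2.2 ≠ some k ∧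
      brk14 (s v) t.1 t.2.1 t.2.2 = 0
  have hZ : ∀ t : Tr, (Z t).card * q ≤ 3 * q ^ N := by
    rintro ⟨x', y', z'⟩
    by_cases hc : x' ≠ y' ∧ y' ≠ z' ∧ x' ≠ z' ∧ z' ≠ x ∧ z' ≠ some j ∧ z' ≠ some k
    · obtain ⟨h1, h2, h3, h4, h5, h6⟩ := hc
      have e : (Z (x', y', z')).card = ({v : ι ⊕ ι → F | brk14 (s v) x' y' z' = 0}).ncard := by
        rw [← Set.ncard_coe_finset]
        congr 1
        ext v
        simp only [Z, Finset.coe_filter, Finset.mem_univ, true_and, Set.mem_ofPred_eq]
        exact ⟨fun h => h.2.2.2.2.2.2, fun h => ⟨h1, h2, h3, h4, h5, h6, h⟩⟩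
      rw [e]
      rcases z' with _ | r
      · rcases x' with _ | i'
        · exact absurd rfl h3
        · rcases y' with _ | j'
          · exact absurd rfl h2
          · obtain ⟨κ₁, t⟩ := hnone h4.symm i' j' fun h => h1 (by rw [h])
            have t' : Thin14 κ₁ {v : ι ⊕ ι → F | brk14 (s v) (some i') (some j') none = 0} := by
              refine t.mono ?_
              intro v hv
              rw [Set.mem_ofPred_eq, brk14_none] at hv
              exact sub_eq_zero.mp hv
            have h7 : ({v : ι ⊕ ι → F | brk14 (s v) (some i') (some j') none = 0}).ncard * q ≤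
                q ^ N := t'.card
            exact h7.trans (by omega)
      · have hrj : r ≠ j := fun h => h5 (by rw [h])
        have hrk : r ≠ k := fun h => h6 (by rw [h])
        refine thin_brk14 ?_ ?_ (hsol1 r h4 hrj hrk) (hsol2 r h4 hrj hrk) hZ3 x' y' h1 h3 h2
        · rcases hκ with h | h
          · rw [h]
            simpa using hrk
          · rw [h]
            simp
        · rcases hκ with h | h
          · rw [h]
            simp
          · rw [h]
            simpa using hrk
    · have e : Z (x', y', z') = ∅ := by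
        rw [Finset.filter_eq_empty_iff]
        intro v _ h
        exact hc ⟨h.1, h.2.1, h.2.2.1, h.2.2.2.1, h.2.2.2.2.1, h.2.2.2.2.2.1⟩
      rw [e]
      simp
  have hBcard : B.ncard * q ≤ 3 * (Fintype.card ι + 1) ^ 3 * q ^ N := by
    have h1 : B.ncard ≤ ∑ t : Tr, (Z t).card := by
      have h2 : B ⊆ ((Finset.univ.biUnion Z : Finset (ι ⊕ ι → F)) : Set (ι ⊕ ι → F)) := by
        rintro v ⟨x', y', z', h⟩
        rw [Finset.mem_coe, Finset.mem_biUnion]
        exact ⟨(x', y', z'), Finset.mem_univ _, by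
          simp only [Z, Finset.mem_filter, Finset.mem_univ, true_and]
          exact h⟩
      have h3 := Set.ncard_le_ncard h2 (Set.toFinite _)
      rw [Set.ncard_coe_finset] at h3
      exact h3.trans Finset.card_biUnion_le
    calc B.ncard * q ≤ (∑ t : Tr, (Z t).card) * q := Nat.mul_le_mul_right _ h1
      _ = ∑ t : Tr, (Z t).card * q := by rw [Finset.sum_mul]
      _ ≤ ∑ _t : Tr, 3 * q ^ N := Finset.sum_le_sum fun t _ => hZ t
      _ = 3 * (Fintype.card ι + 1) ^ 3 * q ^ N := by
        rw [Finset.sum_const, Finset.card_univ, Fintype.card_prod, Fintype.card_prod,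
          Fintype.card_option, smul_eq_mul]
        ring
  -- the good set
  have hgood : (Bᶜ).ncard ≤ S.ncard * q := by
    have h1 : (S ×ˢ (Set.univ : Set F)).ncard = S.ncard * q := by
      rw [Set.ncard_prod, Set.ncard_univ, Nat.card_eq_fintype_card]
    rw [← h1]
    refine Set.ncard_le_ncard_of_injOn (fun v => (s v, v κ₀)) ?_ ?_ (Set.toFinite _)
    · intro v hv
      refine ⟨⟨hzero v hv, hv⟩, Set.mem_univ _⟩
    · intro v _ w _ hvw
      simp only [Prod.mk.injEq] at hvw
      funext i
      by_cases hi : i = κ₀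
      · rw [hi]
        exact hvw.2
      · have h2 := congrFun hvw.1 i
        simp only [hs] at h2
        rwa [Function.update_of_ne hi, Function.update_of_ne hi] at h2
  have htot : B.ncard + (Bᶜ).ncard = q ^ N := by
    rw [Set.ncard_add_ncard_compl, Nat.card_eq_fintype_card, Fintype.card_fun]
  calc q ^ N * q = B.ncard * q + (Bᶜ).ncard * q := by rw [← htot]; ring
    _ ≤ 3 * (Fintype.card ι + 1) ^ 3 * q ^ N + (S.ncard * q) * q :=
      Nat.add_le_add hBcard (Nat.mul_le_mul_right _ hgood)
    _ = S.ncard * q * q + 3 * (Fintype.card ι + 1) ^ 3 * q ^ N := by ring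

/-- The number of the points over `F` where exactly one bracket vanishes. -/
theorem count_brk14 (x : Option ι) (j k : ι) (hxj : x ≠ some j) (hxk : x ≠ some k) (hjk : j ≠ k) :
    Fintype.card F ^ Fintype.card (ι ⊕ ι) * Fintype.card F ≤
      ({v : ι ⊕ ι → F | brk14 v x (some j) (some k) = 0 ∧
        ¬ Bad14 x (some j) (some k) v}).ncard * Fintype.card F * Fintype.card F +
      3 * (Fintype.card ι + 1) ^ 3 * Fintype.card F ^ Fintype.card (ι ⊕ ι) := by
  rcases x with _ | i
  · -- solve for `b k`
    refine count_gen14 (κ₀ := Sum.inr k) (sol := fun v => v (Sum.inr j)) none j k (Or.inr rfl)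
      (fun r _ _ _ v c => Function.update_of_ne (by simp) _ _)
      (fun r _ h _ v c => Function.update_of_ne (by simpa using h.symm) _ _) ?_
      (fun h => absurd rfl h) ?_
    · intro i' j' h
      refine ⟨Sum.inl i', (thin_a14 i' j' h).mono ?_⟩
      rintro v ⟨h1, -⟩
      rwa [Function.update_of_ne (by simp), Function.update_of_ne (by simp)] at h1
    · intro v _
      rw [brk14_none', Function.update_self, Function.update_of_ne (by simpa using hjk), sub_self]
  · -- solve for `a k`
    have hij : i ≠ j := fun h => hxj (by rw [h])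
    have hik : i ≠ k := fun h => hxk (by rw [h])
    refine count_gen14 (κ₀ := Sum.inl k) (sol := fun v =>
      -(cf2 v (some i) (some j) * v (Sum.inr k) + cf3 v (some i) (some j)) /
        cf1 v (some i) (some j)) (some i) j k (Or.inl rfl) ?_ ?_ ?_ ?_ ?_
    · intro r hr1 hr2 hr3 v c
      have e1 : some i ≠ some r := hr1.symm
      have e2 : some j ≠ some r := fun h => hr2 (Option.some.inj h).symm
      simp only [cf1, cf2, cf3]
      rw [pb14_update_inl, pb14_update_inl, pa14_update_inl _ _ _ e1, pa14_update_inl _ _ _ e2,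
        Function.update_of_ne (by simp)]
    · intro r hr1 hr2 hr3 v c
      have e1 : some i ≠ some r := hr1.symm
      have e2 : some j ≠ some r := fun h => hr2 (Option.some.inj h).symm
      simp only [cf1, cf2, cf3]
      rw [pb14_update_inr _ _ _ e1, pb14_update_inr _ _ _ e2, pa14_update_inr, pa14_update_inr,
        Function.update_of_ne (by simpa using hr3.symm)]
    · intro i' j' h
      refine ⟨Sum.inr i', (thin_b14 i' j' h).mono ?_⟩
      rintro v ⟨-, h1⟩
      rwa [Function.update_of_ne (by simp), Function.update_of_ne (by simp)] at h1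
    · intro _ i' j' h
      refine ⟨Sum.inr i', (thin_b14 i' j' h).mono ?_⟩
      intro v h1
      rw [Set.mem_ofPred_eq] at h1
      rwa [Function.update_of_ne (by simp), Function.update_of_ne (by simp)] at h1
    · intro v hv
      set c : F := -(cf2 v (some i) (some j) * v (Sum.inr k) + cf3 v (some i) (some j)) /
        cf1 v (some i) (some j) with hc
      have e1 : some i ≠ some k := hxk
      have e2 : some j ≠ some k := fun h => hjk (Option.some.inj h)
      have h1 : cf1 v (some i) (some j) ≠ 0 := by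
        intro h0
        apply hv
        refine ⟨some i, some j, none, hxj, by simp, by simp, by simp, by simp, by simp, ?_⟩
        rw [brk14_none, Function.update_of_ne (by simp), Function.update_of_ne (by simp)]
        simpa [cf1, pc14, pb14] using h0
      rw [brk14_some]
      have e3 : cf1 (Function.update v (Sum.inl k) c) (some i) (some j) =
          cf1 v (some i) (some j) := by
        unfold cf1
        rw [pb14_update_inl, pb14_update_inl]
      have e4 : cf2 (Function.update v (Sum.inl k) c) (some i) (some j) =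
          cf2 v (some i) (some j) := by
        unfold cf2
        rw [pa14_update_inl _ _ _ e1, pa14_update_inl _ _ _ e2]
      have e5 : cf3 (Function.update v (Sum.inl k) c) (some i) (some j) =
          cf3 v (some i) (some j) := by
        unfold cf3
        rw [pb14_update_inl, pb14_update_inl, pa14_update_inl _ _ _ e1, pa14_update_inl _ _ _ e2]
      rw [e3, e4, e5, Function.update_self, Function.update_of_ne (by simp), hc,
        mul_div_cancel₀ _ h1]
      ring

end count

end Pool.Agent.Lib.MP_89bcae_ag
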