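import Mathlib

/-!
# Antisymmetric functions on pairs: a criterion to be a coboundary
-/

open scoped Classical

set_option linter.unusedSimpArgs false

namespace Pool.Agent.Lib.MP_89bcae_ag

variable {ι : Type} {F : Type} [Field F]

/-- The antisymmetric function of the oriented triangle `i j l` with weights: its value on an edge is
the weight of the opposite vertex. -/
noncomputable def triw14 (w : ι → F) (i j l a b : ι) : F :=
  (if a = i ∧ b = j then w l else 0) + (if a = j ∧ b = l then w i else 0) +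
    (if a = l ∧ b = i then w j else 0) - (if b = i ∧ a = j then w l else 0) -
    (if b = j ∧ a = l then w i else 0) - (if b = l ∧ a = i then w j else 0)

/-- If the sums over all the triangles vanish the function is a coboundary. -/
lemma cut_of_zero14 [Nonempty ι] (ε : ι → ι → F) (hε : ∀ i j, i ≠ j → ε j i = - ε i j)
    (h : ∀ i j l, i ≠ j → j ≠ l → i ≠ l → ε i j + ε j l + ε l i = 0) :
    ∃ a : ι → F, ∀ i j, i ≠ j → ε i j = a j - a i := by
  obtain ⟨o⟩ := ‹Nonempty ι›
  refine ⟨fun j => if j = o then 0 else ε o j, fun i j hij => ?_⟩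
  beta_reduce
  by_cases hi : i = o
  · subst hi
    rw [if_pos rfl, if_neg (Ne.symm hij), sub_zero]
  · by_cases hj : j = o
    · subst hj
      rw [if_pos rfl, if_neg hi, zero_sub, hε i j hij, neg_neg]
    · rw [if_neg hi, if_neg hj]
      have h1 := h o i j (Ne.symm hi) hij (Ne.symm hj)
      have h2 := hε o j (Ne.symm hj)
      rw [h2] at h1
      linear_combination h1

/-- The criterion. -/
theorem cut_of_triw14 [Fintype ι] (hm : 4 ≤ Fintype.card ι) (w : ι → F) (hw : ∀ i, w i ≠ 0)
    (hs : ∑ i, w i ≠ 0) (h2 : (2 : F) = 0 → ∀ i, w i = 1) (ε : ι → ι → F)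
    (hε : ∀ i j, i ≠ j → ε j i = - ε i j)
    (H : ∀ i j l, i ≠ j → j ≠ l → i ≠ l → ∃ (k : F) (γ : ι → F), ∀ a b, a ≠ b →
      k * ε a b + γ a - γ b = (ε i j + ε j l + ε l i) * triw14 w i j l a b) :
    ∃ a : ι → F, ∀ i j, i ≠ j → ε i j = a j - a i := by
  have : Nonempty ι := by
    rw [← Fintype.card_pos_iff]
    omega
  apply cut_of_zero14 ε hε
  by_contra hcon
  push Not at hcon
  obtain ⟨i, j, l, hij, hjl, hil, hne⟩ := hcon
  -- the general identity
  have key : ∀ i j l, i ≠ j → j ≠ l → i ≠ l → ∃ k : F, ∀ a b c, a ≠ b → b ≠ c → a ≠ c →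
      k * (ε a b + ε b c + ε c a) = (ε i j + ε j l + ε l i) *
        (triw14 w i j l a b + triw14 w i j l b c + triw14 w i j l c a) := by
    intro i j l hij hjl hil
    obtain ⟨k, γ, hk⟩ := H i j l hij hjl hil
    refine ⟨k, fun a b c hab hbc hac => ?_⟩
    linear_combination hk a b hab + hk b c hbc + hk c a (Ne.symm hac)
  have hk3 : ∀ i j l, i ≠ j → j ≠ l → i ≠ l → ε i j + ε j l + ε l i ≠ 0 →
      ∀ a b c, a ≠ b → b ≠ c → a ≠ c →
      (w i + w j + w l) * (ε a b + ε b c + ε c a) = (ε i j + ε j l + ε l i) *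
        (triw14 w i j l a b + triw14 w i j l b c + triw14 w i j l c a) := by
    intro i j l hij hjl hil hne
    obtain ⟨k, hk⟩ := key i j l hij hjl hil
    have h1 := hk i j l hij hjl hil
    have e1 : triw14 w i j l i j = w l := by
      simp [triw14, hij, hij.symm, hjl, hjl.symm, hil, hil.symm]
    have e2 : triw14 w i j l j l = w i := by
      simp [triw14, hij, hij.symm, hjl, hjl.symm, hil, hil.symm]
    have e3 : triw14 w i j l l i = w j := by
      simp [triw14, hij, hij.symm, hjl, hjl.symm, hil, hil.symm]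
    rw [e1, e2, e3] at h1
    have h2 : k = w i + w j + w l := by
      apply mul_right_cancel₀ hne
      rw [h1]
      ring
    rw [h2] at hk
    exact hk
  -- one step: a fourth index `d` and the edge `i j`
  have step : ∀ i j l d, i ≠ j → j ≠ l → i ≠ l → d ≠ i → d ≠ j → d ≠ l →
      ε i j + ε j l + ε l i ≠ 0 → ε i j + ε j d + ε d i ≠ 0 ∧
        (w i + w j) * (w i + w j + w l + w d) = 0 := by
    intro i j l d hij hjl hil hdi hdj hdl hne
    have h1 := hk3 i j l hij hjl hil hne i j d hij (Ne.symm hdj) (Ne.symm hdi)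
    have e1 : triw14 w i j l i j = w l := by
      simp [triw14, hij, hij.symm, hjl, hjl.symm, hil, hil.symm]
    have e2 : triw14 w i j l j d = 0 := by
      simp [triw14, hij, hij.symm, hjl, hjl.symm, hil, hil.symm, hdi, hdj, hdl, Ne.symm hdi,
        Ne.symm hdj, Ne.symm hdl]
    have e3 : triw14 w i j l d i = 0 := by
      simp [triw14, hij, hij.symm, hjl, hjl.symm, hil, hil.symm, hdi, hdj, hdl, Ne.symm hdi,
        Ne.symm hdj, Ne.symm hdl]
    rw [e1, e2, e3, add_zero, add_zero] at h1
    have hne' : ε i j + ε j d + ε d i ≠ 0 := by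
      intro h0
      rw [h0, mul_zero] at h1
      exact mul_ne_zero hne (hw l) h1.symm
    refine ⟨hne', ?_⟩
    have h2 := hk3 i j d hij (Ne.symm hdj) (Ne.symm hdi) hne' i j l hij hjl hil
    have e4 : triw14 w i j d i j = w d := by
      simp [triw14, hij, hij.symm, hdi, hdj, Ne.symm hdi, Ne.symm hdj]
    have e5 : triw14 w i j d j l = 0 := by
      simp [triw14, hij, hij.symm, hjl, hjl.symm, hil, hil.symm, hdi, hdj, hdl, Ne.symm hdi,
        Ne.symm hdj, Ne.symm hdl]
    have e6 : triw14 w i j d l i = 0 := by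
      simp [triw14, hij, hij.symm, hjl, hjl.symm, hil, hil.symm, hdi, hdj, hdl, Ne.symm hdi,
        Ne.symm hdj, Ne.symm hdl]
    rw [e4, e5, e6, add_zero, add_zero] at h2
    have h3 : (ε i j + ε j l + ε l i) * ((w i + w j) * (w i + w j + w l + w d)) = 0 := by
      linear_combination (w d) * h1 + (w i + w j + w l) * h2
    exact (mul_eq_zero.1 h3).resolve_left hne
  -- the sum of four weights vanishes
  have sum4 : ∀ i j l d, i ≠ j → j ≠ l → i ≠ l → d ≠ i → d ≠ j → d ≠ l →
      ε i j + ε j l + ε l i ≠ 0 → w i + w j + w l + w d = 0 := by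
    intro i j l d hij hjl hil hdi hdj hdl hne
    by_contra hS
    have a1 := (step i j l d hij hjl hil hdi hdj hdl hne).2
    have a2 := (step j l i d hjl hil.symm hij.symm hdj hdl hdi
      (fun h => hne (by linear_combination h))).2
    have a3 := (step l i j d hil.symm hij hjl.symm hdl hdi hdj
      (fun h => hne (by linear_combination h))).2
    have b1 := (mul_eq_zero.1 a1).resolve_right hS
    have b2 := (mul_eq_zero.1 a2).resolve_right (by
      intro h
      apply hS
      linear_combination h)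
    have b3 := (mul_eq_zero.1 a3).resolve_right (by
      intro h
      apply hS
      linear_combination h)
    have b4 : (2 : F) * w i = 0 := by linear_combination b1 + b3 - b2
    rcases mul_eq_zero.1 b4 with h | h
    · apply hS
      rw [h2 h i, h2 h j, h2 h l, h2 h d]
      linear_combination 2 * h
    · exact hw i h
  -- a fourth index
  obtain ⟨d, hd⟩ : ∃ d, d ∉ ({i, j, l} : Finset ι) := by
    by_contra h
    push Not at h
    have h1 : Fintype.card ι ≤ ({i, j, l} : Finset ι).card := by
      rw [← Finset.card_univ]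
      exact Finset.card_le_card fun x _ => h x
    have h2 : ({i, j, l} : Finset ι).card ≤ 3 := Finset.card_le_three
    omega
  simp only [Finset.mem_insert, Finset.mem_singleton, not_or] at hd
  obtain ⟨hdi, hdj, hdl⟩ := hd
  have h4 := sum4 i j l d hij hjl hil hdi hdj hdl hne
  by_cases h5 : ∃ f, f ∉ ({i, j, l, d} : Finset ι)
  · obtain ⟨f, hf⟩ := h5
    simp only [Finset.mem_insert, Finset.mem_singleton, not_or] at hf
    obtain ⟨hfi, hfj, hfl, hfd⟩ := hf
    have h4' := sum4 i j l f hij hjl hil hfi hfj hfl hne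
    have hne' := (step i j l d hij hjl hil hdi hdj hdl hne).1
    have hA := hk3 i j l hij hjl hil hne i d f (Ne.symm hdi) (Ne.symm hfd) (Ne.symm hfi)
    have hB := hk3 i j d hij (Ne.symm hdj) (Ne.symm hdi) hne' i d f (Ne.symm hdi) (Ne.symm hfd)
      (Ne.symm hfi)
    have e1 : triw14 w i j l i d = 0 := by
      simp [triw14, hij, hij.symm, hjl, hjl.symm, hil, hil.symm, hdi, hdj, hdl, Ne.symm hdi,
        Ne.symm hdj, Ne.symm hdl]
    have e2 : triw14 w i j l d f = 0 := by
      simp [triw14, hij, hij.symm, hjl, hjl.symm, hil, hil.symm, hdi, hdj, hdl, Ne.symm hdi,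
        Ne.symm hdj, Ne.symm hdl, hfi, hfj, hfl, hfd]
    have e3 : triw14 w i j l f i = 0 := by
      simp [triw14, hij, hij.symm, hjl, hjl.symm, hil, hil.symm, hfi, hfj, hfl, Ne.symm hfi,
        Ne.symm hfj, Ne.symm hfl]
    have e4 : triw14 w i j d i d = -w j := by
      simp [triw14, hij, hij.symm, hdi, hdj, Ne.symm hdi, Ne.symm hdj]
    have e5 : triw14 w i j d d f = 0 := by
      simp [triw14, hij, hij.symm, hdi, hdj, Ne.symm hdi, Ne.symm hdj, hfi, hfj, hfd, Ne.symm hfd]
    have e6 : triw14 w i j d f i = 0 := by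
      simp [triw14, hij, hij.symm, hdi, hdj, Ne.symm hdi, Ne.symm hdj, hfi, hfj, hfd, Ne.symm hfd,
        Ne.symm hfi, Ne.symm hfj]
    rw [e1, e2, e3, add_zero, add_zero, mul_zero] at hA
    rw [e4, e5, e6, add_zero, add_zero] at hB
    have hW : w i + w j + w l ≠ 0 := by
      intro h0
      apply hw d
      linear_combination h4 - h0
    have h0 := (mul_eq_zero.1 hA).resolve_left hW
    rw [h0, mul_zero] at hB
    exact mul_ne_zero hne' (neg_ne_zero.2 (hw j)) hB.symm
  · push Not at h5
    apply hs
    have h6 : (Finset.univ : Finset ι) = {i, j, l, d} := by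
      ext x
      exact ⟨fun _ => h5 x, fun _ => Finset.mem_univ x⟩
    rw [h6, Finset.sum_insert (by simp [hij, hil, Ne.symm hdi]),
      Finset.sum_insert (by simp [hjl, Ne.symm hdj]), Finset.sum_pair (Ne.symm hdl)]
    linear_combination h4

end Pool.Agent.Lib.MP_89bcae_ag
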