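import Mathlib
import Pool.Agent.Lib.MP_89bcae_ag.DefsArr
import Pool.Agent.Lib.MP_89bcae_ag.Lns.ABase
import Pool.Agent.Lib.MP_89bcae_ag.LDenA14
import Pool.Agent.Lib.MP_89bcae_ag.LIndA14

/-!
# Lines over a field: the arithmetic condition
-/

open Polynomial

open scoped Classical

set_option linter.unusedSectionVars false
set_option linter.unusedSimpArgs false
set_option linter.style.haveILetI false

namespace Pool.Agent.Lib.MP_89bcae_ag

universe u

/-- A homomorphism from the multiplicative group to `ZMod ℓ`, trivial at `-1`. -/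
structure Val14 (k : Type u) [Field k] (ℓ : ℕ) where
  ν : k → ZMod ℓ
  mul : ∀ x y, x ≠ 0 → y ≠ 0 → ν (x * y) = ν x + ν y
  neg_one : ν (-1) = 0

namespace Val14

variable {k : Type u} [Field k] {ℓ : ℕ} (V : Val14 k ℓ)

lemma one : V.ν 1 = 0 := by
  have h := V.mul 1 1 one_ne_zero one_ne_zero
  rw [mul_one] at h
  exact left_eq_add.1 h

lemma neg {x : k} (hx : x ≠ 0) : V.ν (-x) = V.ν x := by
  have h2 := V.mul (-1) x (neg_ne_zero.2 one_ne_zero) hx
  rw [neg_one_mul, V.neg_one, zero_add] at h2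
  exact h2

lemma inv {x : k} (hx : x ≠ 0) : V.ν x⁻¹ = -V.ν x := by
  have h := V.mul x x⁻¹ hx (inv_ne_zero hx)
  rw [mul_inv_cancel₀ hx, V.one] at h
  linear_combination -h

lemma div {x y : k} (hx : x ≠ 0) (hy : y ≠ 0) : V.ν (x / y) = V.ν x - V.ν y := by
  rw [div_eq_mul_inv, V.mul _ _ hx (inv_ne_zero hy), V.inv hy]
  ring

lemma pow {x : k} (hx : x ≠ 0) (n : ℕ) : V.ν (x ^ n) = n * V.ν x := by
  induction n with
  | zero => simp [V.one]
  | succ n ih =>
    rw [pow_succ, V.mul _ _ (pow_ne_zero _ hx) hx, ih]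
    push_cast
    ring

lemma zpow {x : k} (hx : x ≠ 0) (n : ℤ) : V.ν (x ^ n) = n * V.ν x := by
  obtain ⟨m, rfl | rfl⟩ := n.eq_nat_or_neg
  · rw [zpow_natCast, V.pow hx, Int.cast_natCast]
  · rw [zpow_neg, V.inv (zpow_ne_zero _ hx), zpow_natCast, V.pow hx]
    push_cast
    ring

lemma prod {κ : Type*} (s : Finset κ) (f : κ → k) (hf : ∀ i ∈ s, f i ≠ 0) :
    V.ν (∏ i ∈ s, f i) = ∑ i ∈ s, V.ν (f i) := by
  induction s using Finset.induction_on with
  | empty => simp [V.one]
  | insert a s ha ih =>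
    rw [Finset.prod_insert ha, Finset.sum_insert ha,
      V.mul _ _ (hf a (Finset.mem_insert_self a s))
        (Finset.prod_ne_zero_iff.2 fun i hi => hf i (Finset.mem_insert_of_mem hi)),
      ih fun i hi => hf i (Finset.mem_insert_of_mem hi)]

end Val14

section

variable {ι : Type} [Fintype ι] [LinearOrder ι] {k : Type u} [Field k]

/-- The line with intercept `v (inl i)` and slope `v (inr i)`. -/
noncomputable def lin14 (v : ι ⊕ ι → k) (i : ι) : k[X] :=
  C (v (Sum.inl i)) + C (v (Sum.inr i)) * X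

/-- No two lines are parallel and no two intersection points have the same abscissa. -/
structure Gen14 (v : ι ⊕ ι → k) : Prop where
  slope : ∀ i j, i ≠ j → v (Sum.inr i) ≠ v (Sum.inr j)
  node : ∀ i j l m, i ≠ j → l ≠ m → ¬ (l = i ∧ m = j) → ¬ (l = j ∧ m = i) →
    (v (Sum.inl i) - v (Sum.inl j)) * (v (Sum.inr l) - v (Sum.inr m)) ≠
      (v (Sum.inl l) - v (Sum.inl m)) * (v (Sum.inr i) - v (Sum.inr j))

variable {v : ι ⊕ ι → k}

lemma lin14_sub (i j : ι) : lin14 v i - lin14 v j =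
    C (v (Sum.inl i) - v (Sum.inl j)) + C (v (Sum.inr i) - v (Sum.inr j)) * X := by
  unfold lin14
  rw [C_sub, C_sub]
  ring

lemma Gen14.slope_ne (h : Gen14 v) {i j : ι} (hij : i ≠ j) :
    v (Sum.inr i) - v (Sum.inr j) ≠ 0 := sub_ne_zero.2 (h.slope i j hij)

lemma Gen14.geom (h : Gen14 v) : Sup.Lns.AGeom (lin14 v) := by
  have hlin : ∀ c d : k, d ≠ 0 → (C c + C d * X : k[X]).Separable := by
    intro c d hd
    rw [separable_def]
    have h1 : derivative (C c + C d * X : k[X]) = C d := by simp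
    rw [h1]
    exact ⟨0, C d⁻¹, by rw [zero_mul, zero_add, ← C_mul, inv_mul_cancel₀ hd, C_1]⟩
  refine ⟨?_, fun i j hij => ?_⟩
  · unfold Sup.Lns.disc
    have h1 : (∏ i, ∏ j ∈ Finset.univ.filter (fun j => i < j), (lin14 v i - lin14 v j)) =
        ∏ q ∈ (Finset.univ : Finset (ι × ι)).filter (fun q => q.1 < q.2),
        (lin14 v q.1 - lin14 v q.2) := by
      rw [← Finset.univ_product_univ, Finset.prod_filter, Finset.prod_product]
      refine Finset.prod_congr rfl fun i _ => ?_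
      rw [Finset.prod_filter]
    rw [h1]
    apply separable_prod'
    · rintro ⟨i, j⟩ hij ⟨l, m⟩ hlm hne
      rw [Finset.mem_filter] at hij hlm
      have hij' : i < j := hij.2
      have hlm' : l < m := hlm.2
      have h2 := h.node i j l m hij'.ne hlm'.ne
        (fun hh => hne (by rw [hh.1, hh.2]))
        (fun hh => by
          rw [hh.1, hh.2] at hlm'
          exact absurd hlm' hij'.asymm)
      beta_reduce
      rw [lin14_sub, lin14_sub]
      set Δ : k := (v (Sum.inl i) - v (Sum.inl j)) * (v (Sum.inr l) - v (Sum.inr m)) -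
        (v (Sum.inl l) - v (Sum.inl m)) * (v (Sum.inr i) - v (Sum.inr j)) with hΔ
      have h3 : Δ ≠ 0 := sub_ne_zero.2 h2
      refine ⟨C (Δ⁻¹ * (v (Sum.inr l) - v (Sum.inr m))),
        C (-(Δ⁻¹ * (v (Sum.inr i) - v (Sum.inr j)))), ?_⟩
      have h4 : Δ⁻¹ * ((v (Sum.inl i) - v (Sum.inl j)) * (v (Sum.inr l) - v (Sum.inr m)) -
          (v (Sum.inl l) - v (Sum.inl m)) * (v (Sum.inr i) - v (Sum.inr j))) = 1 := by
        rw [← hΔ]
        exact inv_mul_cancel₀ h3
      have h5 := congrArg (C : k → k[X]) h4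
      simp only [C_mul, C_sub, C_1, C_neg] at h5 ⊢
      linear_combination h5
    · rintro ⟨i, j⟩ hij
      rw [Finset.mem_filter] at hij
      have hij' : i < j := hij.2
      beta_reduce
      rw [lin14_sub]
      exact hlin _ _ (h.slope_ne hij'.ne)
  · rw [lin14_sub, add_comm, natDegree_add_C, natDegree_C_mul_X _ (h.slope_ne hij)]
    exact one_ne_zero

/-- The abscissa of the intersection point. -/
noncomputable def nd14 (v : ι ⊕ ι → k) (i j : ι) : k :=
  -((v (Sum.inl i) - v (Sum.inl j)) / (v (Sum.inr i) - v (Sum.inr j)))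

lemma Gen14.eval_eq (h : Gen14 v) {i j : ι} (hij : i ≠ j) (s : k) :
    (lin14 v i).eval s = (lin14 v j).eval s ↔ s = nd14 v i j := by
  rw [← sub_eq_zero, ← eval_sub, lin14_sub]
  simp only [eval_add, eval_C, eval_mul, eval_X]
  have h0 := h.slope_ne hij
  unfold nd14
  constructor
  · intro h1
    rw [← neg_div, eq_div_iff h0]
    linear_combination h1
  · rintro rfl
    field_simp
    ring

/-- The bracket of three lines. -/
noncomputable abbrev dd14 (v : ι ⊕ ι → k) (i j l : ι) : k := brk14 v (some i) (some j) (some l)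

lemma dd14_eq (i j l : ι) : dd14 v i j l =
    (v (Sum.inl i) - v (Sum.inl j)) * (v (Sum.inr i) - v (Sum.inr l)) -
      (v (Sum.inr i) - v (Sum.inr j)) * (v (Sum.inl i) - v (Sum.inl l)) := by
  unfold dd14 brk14
  simp only [pc14, pa14, pb14]
  ring

lemma Gen14.dd_ne (h : Gen14 v) {i j l : ι} (hij : i ≠ j) (hil : i ≠ l) (hjl : j ≠ l) :
    dd14 v i j l ≠ 0 := by
  rw [dd14_eq, sub_ne_zero]
  have h1 := h.node i j i l hij hil (fun hh => hjl hh.2.symm) (fun hh => hij hh.1)
  intro h2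
  apply h1
  rw [h2]
  ring

lemma Gen14.sub1 (h : Gen14 v) {i j l : ι} (hij : i ≠ j) :
    (lin14 v i).eval (nd14 v i j) - (lin14 v l).eval (nd14 v i j) =
      -(dd14 v i j l / (v (Sum.inr i) - v (Sum.inr j))) := by
  have h0 := h.slope_ne hij
  rw [← eval_sub, lin14_sub, dd14_eq]
  simp only [eval_add, eval_C, eval_mul, eval_X]
  unfold nd14
  field_simp
  ring

lemma Gen14.sub2 (h : Gen14 v) {i j l : ι} (hij : i ≠ j) (hil : i ≠ l) :
    nd14 v i j - nd14 v i l = -(dd14 v i j l / ((v (Sum.inr i) - v (Sum.inr j)) *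
      (v (Sum.inr i) - v (Sum.inr l)))) := by
  have h0 := h.slope_ne hij
  have h1 := h.slope_ne hil
  rw [dd14_eq]
  unfold nd14
  field_simp
  ring

lemma Gen14.sub3 (h : Gen14 v) {i j l : ι} (hij : i ≠ j) (hjl : j ≠ l) :
    nd14 v i j - nd14 v j l = -(dd14 v i j l / ((v (Sum.inr i) - v (Sum.inr j)) *
      (v (Sum.inr j) - v (Sum.inr l)))) := by
  have h0 := h.slope_ne hij
  have h1 := h.slope_ne hjl
  rw [dd14_eq]
  have e1 : v (Sum.inr i) - v (Sum.inr l) =
      (v (Sum.inr i) - v (Sum.inr j)) + (v (Sum.inr j) - v (Sum.inr l)) := by ring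
  have e2 : v (Sum.inl i) - v (Sum.inl l) =
      (v (Sum.inl i) - v (Sum.inl j)) + (v (Sum.inl j) - v (Sum.inl l)) := by ring
  rw [e1, e2]
  unfold nd14
  field_simp
  ring

lemma nd14_symm (i j : ι) : nd14 v j i = nd14 v i j := by
  unfold nd14
  rw [← neg_sub (v (Sum.inl i)), ← neg_sub (v (Sum.inr i)), neg_div_neg_eq]

lemma dd14_rot (i j l : ι) : dd14 v j l i = dd14 v i j l := by
  rw [dd14_eq, dd14_eq]
  ring

lemma dd14_swap (i j l : ι) : dd14 v j i l = -dd14 v i j l := by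
  rw [dd14_eq, dd14_eq]
  ring

section comb

variable {F : Type} [Field F]

lemma sum_third14 (d : ι → F) (ε : ι → ι → F) {i j l : ι} {r : F}
    (hil : i ≠ l) (hjl : j ≠ l) (h1 : d l = r)
    (h0 : ∀ l', l' ≠ i → l' ≠ j → l' ≠ l → d l' = 0) :
    ∑ m ∈ Finset.univ.filter (fun m => m ≠ i ∧ m ≠ j),
      d m * (ε i j + ε j m + ε m i) = r * (ε i j + ε j l + ε l i) := by
  rw [Finset.sum_eq_single l]
  · rw [h1]
  · intro m hm hml
    rw [Finset.mem_filter] at hm
    rw [h0 m hm.2.1 hm.2.2 hml, zero_mul]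
  · intro hl
    exact absurd (Finset.mem_filter.2 ⟨Finset.mem_univ l, hil.symm, hjl.symm⟩) hl

/-- If only the triangle `i j l` counts. -/
lemma tri14_value (d : ι → ι → ι → F) (r : F) (ε : ι → ι → F)
    (hε : ∀ i j, i ≠ j → ε j i = -ε i j) {i j l : ι} (hij : i ≠ j) (hjl : j ≠ l) (hil : i ≠ l)
    (h1 : ∀ a b c, a ≠ b → b ≠ c → a ≠ c → a ∈ ({i, j, l} : Set ι) → b ∈ ({i, j, l} : Set ι) →
      c ∈ ({i, j, l} : Set ι) → d a b c = r)
    (h0 : ∀ a b c, a ≠ b → b ≠ c → a ≠ c →
      ¬ (a ∈ ({i, j, l} : Set ι) ∧ b ∈ ({i, j, l} : Set ι) ∧ c ∈ ({i, j, l} : Set ι)) →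
        d a b c = 0) {a b : ι} (hab : a ≠ b) :
    ∑ m ∈ Finset.univ.filter (fun m => m ≠ a ∧ m ≠ b),
      d a b m * (ε a b + ε b m + ε m a) =
        r * ((ε i j + ε j l + ε l i) * triw14 (fun _ => 1) i j l a b) := by
  have hz : ∀ {a b c : ι}, a ≠ b → (∀ l', l' ≠ a → l' ≠ b → l' ≠ c → l' ∉ ({i, j, l} : Set ι)) →
      ∀ l', l' ≠ a → l' ≠ b → l' ≠ c → d a b l' = 0 := by
    intro a b c hab hc l' hla hlb hlc
    exact h0 a b l' hab hlb.symm hla.symm fun hh => hc l' hla hlb hlc hh.2.2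
  have e1 := hε i j hij
  have e2 := hε j l hjl
  have e3 := hε l i hil.symm
  by_cases ha : a ∈ ({i, j, l} : Set ι)
  swap
  · rw [Finset.sum_eq_zero]
    · have : triw14 (fun _ => (1 : F)) i j l a b = 0 := by
        simp only [Set.mem_insert_iff, Set.mem_singleton_iff, not_or] at ha
        simp [triw14, ha.1, ha.2.1, ha.2.2]
      rw [this, mul_zero, mul_zero]
    · intro m hm
      rw [Finset.mem_filter] at hm
      rw [h0 a b m hab hm.2.2.symm hm.2.1.symm fun hh => ha hh.1, zero_mul]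
  by_cases hb : b ∈ ({i, j, l} : Set ι)
  swap
  · rw [Finset.sum_eq_zero]
    · have : triw14 (fun _ => (1 : F)) i j l a b = 0 := by
        simp only [Set.mem_insert_iff, Set.mem_singleton_iff, not_or] at hb
        simp [triw14, hb.1, hb.2.1, hb.2.2]
      rw [this, mul_zero, mul_zero]
    · intro m hm
      rw [Finset.mem_filter] at hm
      rw [h0 a b m hab hm.2.2.symm hm.2.1.symm fun hh => hb hh.2.1, zero_mul]
  have hd : ∀ c, a ≠ c → b ≠ c → c ∈ ({i, j, l} : Set ι) → d a b c = r := fun c hac hbc hc =>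
    h1 a b c hab hbc hac ha hb hc
  simp only [Set.mem_insert_iff, Set.mem_singleton_iff] at ha hb
  rcases ha with rfl | rfl | rfl <;> rcases hb with rfl | rfl | rfl
  · exact absurd rfl hab
  · rw [sum_third14 _ ε hil hjl (hd l hil hjl (by simp)) (hz hij (by simp; tauto))]
    have : triw14 (fun _ => (1 : F)) a b l a b = 1 := by
      simp [triw14, hij, hij.symm, hjl, hjl.symm, hil, hil.symm]
    rw [this]
    ring
  · rw [sum_third14 _ ε hij hjl.symm (hd j hij hjl.symm (by simp)) (hz hil (by simp; tauto))]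
    have : triw14 (fun _ => (1 : F)) a j b a b = -1 := by
      simp [triw14, hij, hij.symm, hjl, hjl.symm, hil, hil.symm]
    rw [this]
    linear_combination r * (e1 + e2 + e3)
  · rw [sum_third14 _ ε hjl hil (hd l hjl hil (by simp)) (hz hij.symm (by simp; tauto))]
    have : triw14 (fun _ => (1 : F)) b a l a b = -1 := by
      simp [triw14, hij, hij.symm, hjl, hjl.symm, hil, hil.symm]
    rw [this]
    linear_combination r * (e1 + e2 + e3)
  · exact absurd rfl hab
  · rw [sum_third14 _ ε hij.symm hil.symm (hd i hij.symm hil.symm (by simp))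
      (hz hjl (by simp; tauto))]
    have : triw14 (fun _ => (1 : F)) i a b a b = 1 := by
      simp [triw14, hij, hij.symm, hjl, hjl.symm, hil, hil.symm]
    rw [this]
    ring
  · rw [sum_third14 _ ε hjl.symm hij (hd j hjl.symm hij (by simp)) (hz hil.symm (by simp; tauto))]
    have : triw14 (fun _ => (1 : F)) b j a a b = 1 := by
      simp [triw14, hij, hij.symm, hjl, hjl.symm, hil, hil.symm]
    rw [this]
    ring
  · rw [sum_third14 _ ε hil.symm hij.symm (hd i hil.symm hij.symm (by simp))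
      (hz hjl.symm (by simp; tauto))]
    have : triw14 (fun _ => (1 : F)) i b a a b = -1 := by
      simp [triw14, hij, hij.symm, hjl, hjl.symm, hil, hil.symm]
    rw [this]
    linear_combination r * (e1 + e2 + e3)
  · exact absurd rfl hab

lemma sum_off14 (f : ι → F) {i j : ι} (hij : i ≠ j) :
    ∑ m ∈ Finset.univ.filter (fun m => m ≠ i ∧ m ≠ j), f m = ∑ m, f m - f i - f j := by
  have h1 : (Finset.univ.filter (fun m => m ≠ i ∧ m ≠ j)) = (Finset.univ.erase i).erase j := by
    ext m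
    simp only [Finset.mem_filter, Finset.mem_univ, true_and, Finset.mem_erase]
    tauto
  rw [h1, Finset.sum_erase_eq_sub (Finset.mem_erase.2 ⟨hij.symm, Finset.mem_univ j⟩),
    Finset.sum_erase_eq_sub (Finset.mem_univ i)]

end comb

/-- The hypothesis on the homomorphisms: up to a function of the form `m₀ + μ_x + μ_y + μ_z`, the value
at the bracket `[x y z]` is nonzero exactly for the triangle `i j l`. -/
def HV14 {ℓ : ℕ} (v : ι ⊕ ι → k) (V : Val14 k ℓ) (i j l : ι) : Prop :=
  ∃ (m₀ : ZMod ℓ) (μ : Option ι → ZMod ℓ) (r : ZMod ℓ), r ≠ 0 ∧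
    V.ν (brk14 v (some i) (some j) (some l)) = m₀ + μ (some i) + μ (some j) + μ (some l) + r ∧
    ∀ x y z : Option ι, x ≠ y → y ≠ z → x ≠ z →
      ¬ (x ∈ ({some i, some j, some l} : Set (Option ι)) ∧
        y ∈ ({some i, some j, some l} : Set (Option ι)) ∧
        z ∈ ({some i, some j, some l} : Set (Option ι))) →
      V.ν (brk14 v x y z) = m₀ + μ x + μ y + μ z

/-- All the brackets of `i j l` have the same value. -/
lemma nu_perm14 {ℓ : ℕ} (h : Gen14 v) (V : Val14 k ℓ) {i j l : ι} (hij : i ≠ j) (hjl : j ≠ l)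
    (hil : i ≠ l) (m : ι → ZMod ℓ) {r : ZMod ℓ}
    (h1 : V.ν (dd14 v i j l) = m i + m j + m l + r) :
    ∀ a b c, a ≠ b → b ≠ c → a ≠ c → a ∈ ({i, j, l} : Set ι) → b ∈ ({i, j, l} : Set ι) →
      c ∈ ({i, j, l} : Set ι) → V.ν (dd14 v a b c) = m a + m b + m c + r := by
  have hn : ∀ {x y z : ι}, x ≠ y → y ≠ z → x ≠ z → V.ν (dd14 v y x z) = V.ν (dd14 v x y z) := by
    intro x y z hxy hyz hxz
    rw [dd14_swap, V.neg (h.dd_ne hxy hxz hyz)]
  have c2 : V.ν (dd14 v j l i) = m i + m j + m l + r := by rw [dd14_rot]; exact h1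
  have c3 : V.ν (dd14 v l i j) = m i + m j + m l + r := by rw [dd14_rot, dd14_rot]; exact h1
  have c4 : V.ν (dd14 v j i l) = m i + m j + m l + r := by rw [hn hij hjl hil]; exact h1
  have c5 : V.ν (dd14 v l j i) = m i + m j + m l + r := by rw [hn hjl hil.symm hij.symm]; exact c2
  have c6 : V.ν (dd14 v i l j) = m i + m j + m l + r := by rw [hn hil.symm hij hjl.symm]; exact c3
  intro a b c hab hbc hac ha hb hc
  simp only [Set.mem_insert_iff, Set.mem_singleton_iff] at ha hb hc
  rcases ha with rfl | rfl | rfl <;> rcases hb with rfl | rfl | rfl <;>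
    rcases hc with rfl | rfl | rfl <;> first
    | exact absurd rfl hab
    | exact absurd rfl hbc
    | exact absurd rfl hac
    | exact h1
    | (rw [c2]; ring)
    | (rw [c3]; ring)
    | (rw [c4]; ring)
    | (rw [c5]; ring)
    | (rw [c6]; ring)

end

end Pool.Agent.Lib.MP_89bcae_ag
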