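import Mathlib

/-!
# Specialisations with the full Galois group
-/

open Polynomial

open scoped Classical

namespace Pool.Agent.Lib.MP_89bcae_ag

set_option linter.unusedSectionVars false
set_option linter.style.haveILetI false

variable {R K F κ Fκ : Type*} [CommRing R] [IsDomain R] [IsIntegrallyClosed R] [Field K]
  [Algebra R K] [IsFractionRing R K] [Field F] [Algebra K F] [Algebra R F] [IsScalarTower R K F]
  [Field κ] [Field Fκ] [Algebra κ Fκ] [IsAlgClosed Fκ] [Algebra.IsAlgebraic κ Fκ]

/-- The reduction of the value of a polynomial. -/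
lemma red_aeval7 {π : R →+* κ} {ρ : integralClosure R F →+* Fκ}
    (hρ : ∀ r, ρ (algebraMap R (integralClosure R F) r) = algebraMap κ Fκ (π r))
    (Y : integralClosure R F) (h : R[X]) : ρ (aeval Y h) = aeval (ρ Y) (h.map π) := by
  have h1 : ρ.comp (algebraMap R (integralClosure R F)) = (algebraMap κ Fκ).comp π :=
    RingHom.ext hρ
  rw [aeval_def, hom_eval₂, h1, aeval_def, eval₂_map]

lemma aeval_algEquiv_apply7 {κ Fκ : Type*} [Field κ] [Field Fκ] [Algebra κ Fκ] (τ : Fκ ≃ₐ[κ] Fκ)
    (y : Fκ) (h : κ[X]) : aeval (τ y) h = τ (aeval y h) :=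
  aeval_algHom_apply (τ : Fκ →ₐ[κ] Fκ) y h

/-- **Lifting to a specialisation with the full Galois group.** An element `σ` of the Galois group
of `M/K` is compatible with an automorphism of the algebraic closure of the residue field, if the
minimal polynomial of a generator stays irreducible. -/
theorem exists_tau7 (π : R →+* κ) (ρ : integralClosure R F →+* Fκ)
    (hρ : ∀ r, ρ (algebraMap R (integralClosure R F) r) = algebraMap κ Fκ (π r))
    (M : IntermediateField K F) [FiniteDimensional K M] [Algebra.IsSeparable K M]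
    (B : PowerBasis K M) (hB : IsIntegral R B.gen) (f : R[X]) (hf : f.Monic)
    (hfθ : aeval B.gen f = 0) (hirr : Irreducible (f.map π)) (δ : R)
    (hδ : algebraMap R K δ = Algebra.discr K B.basis) (hδ0 : π δ ≠ 0) (σ : M ≃ₐ[K] M) :
    ∃ τ : Fκ ≃ₐ[κ] Fκ, ∀ (x : M) (hx : IsIntegral R (x : F)),
      ∃ hx' : IsIntegral R ((σ x : M) : F), ρ ⟨(σ x : M), hx'⟩ = τ (ρ ⟨x, hx⟩) := by
  have hRM : IsScalarTower R M F := IsScalarTower.of_algebraMap_eq fun r => rfl
  have hintF : ∀ x : M, IsIntegral R x → IsIntegral R (x : F) := fun x hx =>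
    hx.map (IsScalarTower.toAlgHom R M F)
  have hintM : ∀ x : M, IsIntegral R (x : F) → IsIntegral R x := fun x hx =>
    (isIntegral_algebraMap_iff (A := M) (B := F) (algebraMap M F).injective).mp hx
  have hσint : ∀ x : M, IsIntegral R x → IsIntegral R (σ x) := fun x hx =>
    hx.map (σ.restrictScalars R)
  -- the two roots
  set θ : M := B.gen with hθ
  let Y : integralClosure R F := ⟨(θ : F), hintF θ hB⟩
  let Y' : integralClosure R F := ⟨((σ θ : M) : F), hintF _ (hσint θ hB)⟩
  have hY : ∀ h : R[X], ((aeval Y h : integralClosure R F) : F) = ((aeval θ h : M) : F) := by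
    intro h
    rw [← Subalgebra.coe_val, ← aeval_algHom_apply]
    have h1 : ((aeval θ h : M) : F) = algebraMap M F (aeval θ h) := rfl
    rw [h1, ← aeval_algebraMap_apply]
    rfl
  have hY' : ∀ h : R[X], ((aeval Y' h : integralClosure R F) : F) =
      ((σ (aeval θ h) : M) : F) := by
    intro h
    have h2 : σ (aeval θ h) = aeval (σ θ) h := by
      have h3 := aeval_algHom_apply ((σ.restrictScalars R : M ≃ₐ[R] M) : M →ₐ[R] M) θ h
      exact h3.symm
    rw [← Subalgebra.coe_val, ← aeval_algHom_apply, h2]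
    have h1 : ((aeval (σ θ) h : M) : F) = algebraMap M F (aeval (σ θ) h) := rfl
    rw [h1, ← aeval_algebraMap_apply]
    rfl
  have hfm : (f.map π).Monic := hf.map π
  have hr1 : aeval (ρ Y) (f.map π) = 0 := by
    rw [← red_aeval7 hρ]
    have h1 : aeval Y f = 0 := by
      apply Subtype.ext
      rw [hY, hfθ]
      rfl
    rw [h1, map_zero]
  have hr2 : aeval (ρ Y') (f.map π) = 0 := by
    rw [← red_aeval7 hρ]
    have h1 : aeval Y' f = 0 := by
      apply Subtype.ext
      rw [hY', hfθ, map_zero]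
      rfl
    rw [h1, map_zero]
  have hconj : IsConjRoot κ (ρ Y) (ρ Y') := by
    rw [IsConjRoot, ← minpoly.eq_of_irreducible_of_monic hirr hr1 hfm,
      ← minpoly.eq_of_irreducible_of_monic hirr hr2 hfm]
  have hcl : IsAlgClosure κ Fκ := ⟨inferInstance, inferInstance⟩
  have hnF : Normal κ Fκ := IsAlgClosure.normal κ Fκ
  obtain ⟨τ, hτ⟩ := isConjRoot_iff_exists_algEquiv.mp hconj.symm
  refine ⟨τ, fun x hx => ?_⟩
  have hxM := hintM x hx
  refine ⟨hintF _ (hσint x hxM), ?_⟩
  have h1 := Algebra.discr_mul_isIntegral_mem_adjoin (R := R) (K := K) hB hxM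
  rw [← hδ, Algebra.adjoin_singleton_eq_range_aeval] at h1
  obtain ⟨h, hh⟩ := h1
  have hh' : aeval θ h = algebraMap R M δ * x := by
    rw [← hθ] at hh
    refine hh.trans ?_
    rw [Algebra.smul_def, ← IsScalarTower.algebraMap_apply]
  have hx1 : aeval Y h = algebraMap R (integralClosure R F) δ * ⟨x, hx⟩ := by
    apply Subtype.ext
    rw [hY, hh']
    rfl
  have hx2 : aeval Y' h = algebraMap R (integralClosure R F) δ *
      ⟨((σ x : M) : F), hintF _ (hσint x hxM)⟩ := by
    apply Subtype.ext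
    rw [hY', hh', map_mul]
    have h3 : σ (algebraMap R M δ) = algebraMap R M δ := by
      rw [IsScalarTower.algebraMap_apply R K M, AlgEquiv.commutes]
    rw [h3]
    rfl
  have h4 := congrArg ρ hx1
  have h5 := congrArg ρ hx2
  rw [red_aeval7 hρ, map_mul, hρ] at h4 h5
  rw [← hτ, aeval_algEquiv_apply7, h4, map_mul, AlgEquiv.commutes] at h5
  have h6 : algebraMap κ Fκ (π δ) ≠ 0 := by
    rw [Ne, map_eq_zero_iff _ (algebraMap κ Fκ).injective]
    exact hδ0
  exact (mul_left_cancel₀ h6 h5).symm

end Pool.Agent.Lib.MP_89bcae_ag
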