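import Mathlib
import Pool.Agent.Lib.MP_89bcae_ag.SpecR7

/-!
# Comparison of the Rédei maps with those of the reduction
-/

open Polynomial

open scoped Classical

namespace Pool.Agent.Lib.MP_89bcae_ag

set_option linter.unusedSectionVars false
set_option linter.style.haveILetI false

/-- A bijection between the roots of `D(g(x))` over two fields, compatible with the fibres of `g`
and with the products. -/
structure Cmp7 {F κ : Type*} [Field F] [Field κ] (g D : F[X]) (g' D' : κ[X]) (e : F → κ) : Prop where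
  maps : ∀ b ∈ (D.comp g).roots.toFinset, e b ∈ (D'.comp g').roots.toFinset
  inj : ∀ b ∈ (D.comp g).roots.toFinset, ∀ c ∈ (D.comp g).roots.toFinset, e b = e c → b = c
  surj : ∀ b' ∈ (D'.comp g').roots.toFinset, ∃ b ∈ (D.comp g).roots.toFinset, e b = b'
  fib : ∀ b ∈ (D.comp g).roots.toFinset, ∀ c ∈ (D.comp g).roots.toFinset,
    (g.eval b = g.eval c ↔ g'.eval (e b) = g'.eval (e c))

section Cmp

variable {F κ : Type*} [Field F] [Field κ] {g D : F[X]} {g' D' : κ[X]} {e : F → κ}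

lemma Cmp7.mem_image (h : Cmp7 g D g' D' e) {Z : Finset F} (hZ : Z ⊆ (D.comp g).roots.toFinset)
    {b : F} (hb : b ∈ (D.comp g).roots.toFinset) : e b ∈ Z.image e ↔ b ∈ Z := by
  rw [Finset.mem_image]
  constructor
  · rintro ⟨c, hc, hcb⟩
    rwa [← h.inj c (hZ hc) b hb hcb]
  · intro hb
    exact ⟨b, hb, rfl⟩

lemma Cmp7.image_subset (h : Cmp7 g D g' D' e) {Z : Finset F}
    (hZ : Z ⊆ (D.comp g).roots.toFinset) : Z.image e ⊆ (D'.comp g').roots.toFinset := by
  intro x hx
  obtain ⟨b, hb, rfl⟩ := Finset.mem_image.mp hx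
  exact h.maps b (hZ hb)

lemma Cmp7.even (h : Cmp7 g D g' D' e) {Z : Finset F} (hZ : Z ⊆ (D.comp g).roots.toFinset)
    (he : EvenOver g Z) : EvenOver g' (Z.image e) := by
  intro α'
  by_cases hex : ∃ b ∈ Z, g'.eval (e b) = α'
  · obtain ⟨b, hb, rfl⟩ := hex
    have h1 : (Z.image e).filter (fun c => g'.eval c = g'.eval (e b)) =
        (Z.filter fun c => g.eval c = g.eval b).image e := by
      ext x
      simp only [Finset.mem_filter, Finset.mem_image]
      constructor
      · rintro ⟨⟨c, hc, rfl⟩, h2⟩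
        exact ⟨c, ⟨hc, (h.fib c (hZ hc) b (hZ hb)).mpr h2⟩, rfl⟩
      · rintro ⟨c, ⟨hc, h2⟩, rfl⟩
        exact ⟨⟨c, hc, rfl⟩, (h.fib c (hZ hc) b (hZ hb)).mp h2⟩
    rw [h1, Finset.card_image_of_injOn]
    · exact he _
    · intro c hc d hd hcd
      rw [Finset.mem_coe, Finset.mem_filter] at hc hd
      exact h.inj c (hZ hc.1) d (hZ hd.1) hcd
  · have h1 : (Z.image e).filter (fun c => g'.eval c = α') = ∅ := by
      rw [Finset.filter_eq_empty_iff]
      rintro x hx h2
      obtain ⟨b, hb, rfl⟩ := Finset.mem_image.mp hx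
      exact hex ⟨b, hb, h2⟩
    rw [h1]
    simp

/-- Transfer of the absence of eigenvalues. -/
theorem Cmp7.noEigen (h : Cmp7 g D g' D' e) {N : F → Prop} {N' : κ → Prop}
    {P : Finset F → F → F} {P' : Finset κ → κ → κ}
    (hN : ∀ Z ⊆ (D.comp g).roots.toFinset, ∀ b ∈ (D.comp g).roots.toFinset,
      (N (P Z b) ↔ N' (P' (Z.image e) (e b))))
    (h' : NoEigen N' P' g' D') : NoEigen N P g D := by
  intro Z hZ hev hne
  obtain ⟨h1, h2⟩ := h' (Z.image e) (h.image_subset hZ) (h.even hZ hev) (hne.image e)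
  have h3 : redei N' P' (D'.comp g') (Z.image e) = (redei N P (D.comp g) Z).image e := by
    ext x
    rw [redei, redei, Finset.mem_filter, Finset.mem_image]
    constructor
    · rintro ⟨hx, h4⟩
      obtain ⟨b, hb, rfl⟩ := h.surj x hx
      exact ⟨b, Finset.mem_filter.mpr ⟨hb, (hN Z hZ b hb).mpr h4⟩, rfl⟩
    · rintro ⟨b, hb, rfl⟩
      rw [Finset.mem_filter] at hb
      exact ⟨h.maps b hb.1, (hN Z hZ b hb.1).mp hb.2⟩
  rw [h3] at h1 h2
  constructor
  · intro h4
    apply h1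
    rw [h4, Finset.image_empty]
  · intro h4
    apply h2
    rw [h4]

/-- The products are compatible with a relation which is compatible with the operations. -/
theorem Cmp7.rel_PZ (h : Cmp7 g D g' D' e) {Rl : F → κ → Prop}
    (hmul : ∀ {x y z w}, Rl x z → Rl y w → Rl (x * y) (z * w))
    (hprod : ∀ {S : Finset F} {x : F → F} {z : F → κ}, (∀ i ∈ S, Rl (x i) (z i)) →
      Rl (∏ i ∈ S, x i) (∏ i ∈ S, z i)) (hone : Rl 1 1)
    (hsub : ∀ b ∈ (D.comp g).roots.toFinset, ∀ c ∈ (D.comp g).roots.toFinset, Rl (b - c) (e b - e c))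
    (hD : ∀ b ∈ (D.comp g).roots.toFinset,
      Rl (-(derivative D).eval (g.eval b)) (-(derivative D').eval (g'.eval (e b))))
    {Z : Finset F} (hZ : Z ⊆ (D.comp g).roots.toFinset) {b : F}
    (hb : b ∈ (D.comp g).roots.toFinset) :
    Rl (PZ g D Z b) (PZ g' D' (Z.image e) (e b)) := by
  rw [PZ, PZ]
  apply hmul
  · have h1 : (Z.image e).filter (fun c => g'.eval c ≠ g'.eval (e b)) =
        (Z.filter fun c => g.eval c ≠ g.eval b).image e := by
      ext x
      simp only [Finset.mem_filter, Finset.mem_image]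
      constructor
      · rintro ⟨⟨c, hc, rfl⟩, h2⟩
        exact ⟨c, ⟨hc, fun h3 => h2 ((h.fib c (hZ hc) b hb).mp h3)⟩, rfl⟩
      · rintro ⟨c, ⟨hc, h2⟩, rfl⟩
        exact ⟨⟨c, hc, rfl⟩, fun h3 => h2 ((h.fib c (hZ hc) b hb).mpr h3)⟩
    rw [h1, Finset.prod_image]
    · apply hprod
      intro c hc
      exact hsub b hb c (hZ (Finset.mem_filter.mp hc).1)
    · intro c hc d hd hcd
      rw [Finset.mem_coe, Finset.mem_filter] at hc hd
      exact h.inj c (hZ hc.1) d (hZ hd.1) hcd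
  · by_cases hbZ : b ∈ Z
    · rw [if_pos hbZ, if_pos ((h.mem_image hZ hb).mpr hbZ)]
      exact hD b hb
    · rw [if_neg hbZ, if_neg (fun h1 => hbZ ((h.mem_image hZ hb).mp h1))]
      exact hone

/-- The same for the products `PZ1`. -/
theorem Cmp7.rel_PZ1 (h : Cmp7 g D g' D' e) (hD0 : D.comp g ≠ 0) (hD0' : D'.comp g' ≠ 0)
    (hg0 : 0 < g.natDegree) (hg0' : 0 < g'.natDegree) {Rl : F → κ → Prop}
    (hmul : ∀ {x y z w}, Rl x z → Rl y w → Rl (x * y) (z * w))
    (hprod : ∀ {S : Finset F} {x : F → F} {z : F → κ}, (∀ i ∈ S, Rl (x i) (z i)) →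
      Rl (∏ i ∈ S, x i) (∏ i ∈ S, z i)) (hone : Rl 1 1)
    (hsub : ∀ b ∈ (D.comp g).roots.toFinset, ∀ c ∈ (D.comp g).roots.toFinset, Rl (b - c) (e b - e c))
    (hD : ∀ b ∈ (D.comp g).roots.toFinset,
      Rl (-(derivative D).eval (g.eval b)) (-(derivative D').eval (g'.eval (e b))))
    {Z : Finset F} (hZ : Z ⊆ (D.comp g).roots.toFinset) {b : F}
    (hb : b ∈ (D.comp g).roots.toFinset) :
    Rl (PZ1 g D Z b) (PZ1 g' D' (Z.image e) (e b)) := by
  rw [PZ1, PZ1]
  apply hmul (h.rel_PZ hmul hprod hone hsub hD hZ hb)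
  have hfib : ∀ c, c ∈ (g - C (g.eval b)).roots.toFinset ↔ g.eval c = g.eval b := by
    intro c
    have h0 : g - C (g.eval b) ≠ 0 := by
      intro h1
      have h2 := congrArg natDegree h1
      rw [natDegree_sub_C, natDegree_zero] at h2
      omega
    rw [Multiset.mem_toFinset, mem_roots h0, IsRoot.def, eval_sub, eval_C, sub_eq_zero]
  have hfib' : ∀ c, c ∈ (g' - C (g'.eval (e b))).roots.toFinset ↔ g'.eval c = g'.eval (e b) := by
    intro c
    have h0 : g' - C (g'.eval (e b)) ≠ 0 := by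
      intro h1
      have h2 := congrArg natDegree h1
      rw [natDegree_sub_C, natDegree_zero] at h2
      omega
    rw [Multiset.mem_toFinset, mem_roots h0, IsRoot.def, eval_sub, eval_C, sub_eq_zero]
  have hroot : ∀ c, c ∈ (D.comp g).roots.toFinset ↔ D.eval (g.eval c) = 0 := by
    intro c
    rw [Multiset.mem_toFinset, mem_roots hD0, IsRoot.def, eval_comp]
  have hroot' : ∀ c, c ∈ (D'.comp g').roots.toFinset ↔ D'.eval (g'.eval c) = 0 := by
    intro c
    rw [Multiset.mem_toFinset, mem_roots hD0', IsRoot.def, eval_comp]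
  have hmem : ∀ c, g.eval c = g.eval b → c ∈ (D.comp g).roots.toFinset := by
    intro c hc
    rw [hroot, hc]
    exact (hroot b).mp hb
  have h1 : (g' - C (g'.eval (e b))).roots.toFinset.filter
        (fun c => c ≠ e b ∧ (c ∈ Z.image e ↔ e b ∉ Z.image e)) =
      ((g - C (g.eval b)).roots.toFinset.filter
        (fun c => c ≠ b ∧ (c ∈ Z ↔ b ∉ Z))).image e := by
    ext x
    constructor
    · intro hx
      rw [Finset.mem_filter, hfib', h.mem_image hZ hb] at hx
      obtain ⟨h2, h3, h4⟩ := hx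
      have h5 : x ∈ (D'.comp g').roots.toFinset := by
        rw [hroot', h2]
        exact (hroot' _).mp (h.maps b hb)
      obtain ⟨c, hc, rfl⟩ := h.surj x h5
      apply Finset.mem_image_of_mem
      rw [Finset.mem_filter, hfib]
      rw [h.mem_image hZ hc] at h4
      exact ⟨(h.fib c hc b hb).mpr h2, fun h6 => h3 (by rw [h6]), h4⟩
    · intro hx
      obtain ⟨c, hc, rfl⟩ := Finset.mem_image.mp hx
      rw [Finset.mem_filter, hfib] at hc
      obtain ⟨h2, h3, h4⟩ := hc
      have hcR := hmem c h2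
      rw [Finset.mem_filter, hfib', h.mem_image hZ hb, h.mem_image hZ hcR]
      exact ⟨(h.fib c hcR b hb).mp h2, fun h6 => h3 (h.inj c hcR b hb h6), h4⟩
  rw [h1, Finset.prod_image]
  · apply hprod
    intro c hc
    rw [Finset.mem_filter, hfib] at hc
    exact hsub b hb c (hmem c hc.1)
  · intro c hc d hd hcd
    rw [Finset.mem_coe, Finset.mem_filter, hfib] at hc hd
    exact h.inj c (hmem c hc.1) d (hmem d hd.1) hcd

end Cmp

end Pool.Agent.Lib.MP_89bcae_ag
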