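import Mathlib
import Pool.Agent.Lib.MP_89bcae_ag.SpecS7

/-!
# An automorphism which fixes the roots of `D(g(x))`, from a place where `D(g(x))` splits
-/

open Polynomial

open scoped Classical

namespace Pool.Agent.Lib.MP_89bcae_ag

set_option linter.unusedSectionVars false
set_option linter.style.haveILetI false

lemma map_PZ1 {F : Type*} [Field F] {g D : F[X]} {Z : Finset F} {τ : F →+* F}
    {b : F} (hZ : ∀ c ∈ Z, τ c = c) (hb : τ b = b) (hfib : ∀ c, g.eval c = g.eval b → τ c = c)
    (hg0 : 0 < g.natDegree) (hg : g.map τ = g) (hD : D.map τ = D) :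
    τ (PZ1 g D Z b) = PZ1 g D Z b := by
  rw [PZ1, map_mul, map_PZ hZ hb hg hD, map_prod]
  congr 1
  apply Finset.prod_congr rfl
  intro c hc
  have h0 : g - C (g.eval b) ≠ 0 := by
    intro h1
    have h2 := congrArg natDegree h1
    rw [natDegree_sub_C, natDegree_zero] at h2
    omega
  rw [Finset.mem_filter, Multiset.mem_toFinset, mem_roots h0, IsRoot.def, eval_sub, eval_C,
    sub_eq_zero] at hc
  rw [map_sub, hb, hfib c hc.1]

lemma PZ1_ne_zero {F : Type*} [Field F] {g D : F[X]} {Z : Finset F}
    {b : F} (hD' : (derivative D).eval (g.eval b) ≠ 0) : PZ1 g D Z b ≠ 0 := by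
  rw [PZ1]
  apply mul_ne_zero (PZ_ne_zero hD')
  apply Finset.prod_ne_zero_iff.mpr
  intro c hc
  apply sub_ne_zero.mpr
  rintro rfl
  rw [Finset.mem_filter] at hc
  exact hc.2.1 rfl

variable {R K F κ : Type*} [CommRing R] [IsDomain R] [IsIntegrallyClosed R] [Field K]
  [Algebra R K] [IsFractionRing R K] [Field F] [Algebra K F] [Algebra R F] [IsScalarTower R K F]
  [IsAlgClosed F] [Algebra.IsAlgebraic K F] [Field κ] [Fintype κ]

/-- **The automorphism.** -/
theorem exists_U_spec7 {π : R →+* κ} (hπ : Function.Surjective π) (h2 : (2 : κ) ≠ 0) {g D : R[X]}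
    (hg : g.Monic) (hdeg : 0 < g.natDegree) (hu : IsUnit D.leadingCoeff)
    (hcard : ((D.map π).comp (g.map π)).roots.toFinset.card =
      ((D.map π).comp (g.map π)).natDegree)
    (hi : IsSquare (-1 : κ))
    (h0 : NoEigen (fun x => ¬ IsSquare x) (PZ (g.map π) (D.map π)) (g.map π) (D.map π))
    (h1 : NoEigen (fun x => ¬ IsSquare x) (PZ1 (g.map π) (D.map π)) (g.map π) (D.map π)) :
    ((D.comp g).map (algebraMap R K)).Separable ∧ ∃ U : F ≃ₐ[K] F,
      (∀ b : F, ((D.map (algebraMap R F)).comp (g.map (algebraMap R F))).eval b = 0 → U b = b) ∧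
      (∀ i : F, i ^ 2 = -1 → U i = i) ∧
      NoEigen (fun x => ∀ s : F, s ^ 2 = x → U s ≠ s)
        (PZ (g.map (algebraMap R F)) (D.map (algebraMap R F)))
        (g.map (algebraMap R F)) (D.map (algebraMap R F)) ∧
      NoEigen (fun x => ∀ s : F, s ^ 2 = x → U s ≠ s)
        (PZ1 (g.map (algebraMap R F)) (D.map (algebraMap R F)))
        (g.map (algebraMap R F)) (D.map (algebraMap R F)) := by
  have hinjR : Function.Injective (algebraMap R F) := by
    rw [IsScalarTower.algebraMap_eq R K F]
    exact (algebraMap K F).injective.comp (IsFractionRing.injective R K)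
  have hfaith : FaithfulSMul R F := (faithfulSMul_iff_algebraMap_injective R F).mpr hinjR
  set f : R[X] := D.comp g with hf
  have hfu : IsUnit f.leadingCoeff := by
    rw [hf, leadingCoeff_comp hdeg.ne', hg.leadingCoeff, one_pow, mul_one]
    exact hu
  have hfκ : (D.map π).comp (g.map π) = f.map π := (Polynomial.map_comp _ _ _).symm
  have hfF : (D.map (algebraMap R F)).comp (g.map (algebraMap R F)) = f.map (algebraMap R F) :=
    (Polynomial.map_comp _ _ _).symm
  have hfκ0 : f.map π ≠ 0 := by
    intro h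
    have h3 : (f.map π).coeff f.natDegree = π f.leadingCoeff := coeff_map _ _
    rw [h, coeff_zero] at h3
    exact (hfu.map π).ne_zero h3.symm
  have hf0 : f ≠ 0 := by
    rintro h
    rw [h, Polynomial.map_zero] at hfκ0
    exact hfκ0 rfl
  have hfF0 : f.map (algebraMap R F) ≠ 0 := (Polynomial.map_ne_zero_iff hinjR).mpr hf0
  have hfdeg : (f.map π).natDegree = f.natDegree :=
    natDegree_map_of_leadingCoeff_ne_zero π (hfu.map π).ne_zero
  rw [hfκ] at hcard
  have hsepκ : (f.map π).Separable := separable_of_card7 hfκ0 hcard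
  have hsep : (f.map (algebraMap R K)).Separable := separable_of_red14 F hπ hfu hsepκ
  refine ⟨hsep, ?_⟩
  have h2F : (2 : F) ≠ 0 := by
    intro h0
    have h1 : (2 : R) = 0 := hinjR (by rw [map_ofNat, map_zero]; exact h0)
    apply h2
    rw [← map_ofNat π, h1, map_zero]
  obtain ⟨ρ, hρ⟩ := exists_red14 (F := F) (Fκ := AlgebraicClosure κ) π hπ
  -- the roots
  set B : Finset F := (f.map (algebraMap R F)).roots.toFinset with hB
  have hmemB : ∀ b, b ∈ B ↔ (f.map (algebraMap R F)).eval b = 0 := by
    intro b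
    rw [hB, Multiset.mem_toFinset, mem_roots hfF0, IsRoot.def]
  have hmemκ : ∀ b, b ∈ (f.map π).roots.toFinset ↔ (f.map π).eval b = 0 := by
    intro b
    rw [Multiset.mem_toFinset, mem_roots hfκ0, IsRoot.def]
  have hBint : ∀ b ∈ B, IsIntegral R b := fun b hb =>
    integral_root14 hfu (by rw [← eval_map_algebraMap]; exact (hmemB b).mp hb)
  have hBcard : B.card = f.natDegree := by
    have h3 : (f.map (algebraMap R F)).Separable := by
      rw [IsScalarTower.algebraMap_eq R K F, ← Polynomial.map_map]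
      exact hsep.map
    rw [hB, Multiset.toFinset_card_of_nodup (nodup_roots h3),
      ← natDegree_map_eq_of_injective hinjR f]
    exact splits_iff_card_roots.mp (IsAlgClosed.splits _)
  -- the roots of the reduction
  have hκroots : ∀ x : AlgebraicClosure κ, aeval x (f.map π) = 0 →
      ∃ c ∈ (f.map π).roots.toFinset, algebraMap κ (AlgebraicClosure κ) c = x := by
    intro x hx
    have h3 : (f.map π).roots.card = (f.map π).natDegree :=
      le_antisymm (card_roots' _) (hcard ▸ Multiset.toFinset_card_le _)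
    have h4 : (f.map π).Splits := splits_iff_card_roots.mpr h3
    have h5 := h4.eq_prod_roots
    have h6 : aeval x (f.map π) = algebraMap κ (AlgebraicClosure κ) (f.map π).leadingCoeff *
        ((f.map π).roots.map fun a => x - algebraMap κ (AlgebraicClosure κ) a).prod := by
      conv_lhs => rw [h5]
      rw [map_mul, aeval_C, map_multiset_prod, Multiset.map_map]
      simp
    rw [h6, mul_eq_zero] at hx
    rcases hx with hx | hx
    · exfalso
      rw [map_eq_zero_iff _ (algebraMap κ (AlgebraicClosure κ)).injective] at hx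
      exact hfκ0 (leadingCoeff_eq_zero.mp hx)
    · rw [Multiset.prod_eq_zero_iff, Multiset.mem_map] at hx
      obtain ⟨a, ha, hax⟩ := hx
      exact ⟨a, Multiset.mem_toFinset.mpr ha, (sub_eq_zero.mp hax).symm⟩
  have hredB : ∀ b ∈ B, ∃ c ∈ (f.map π).roots.toFinset, Red7 ρ b c := by
    intro b hb
    have hb0 : aeval b f = 0 := by rw [← eval_map_algebraMap]; exact (hmemB b).mp hb
    obtain ⟨c, hc, hcb⟩ := hκroots _ (red_root14 hρ (hBint b hb) hb0)
    exact ⟨c, hc, hBint b hb, hcb.symm⟩
  choose! e he1 he2 using hredB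
  have heinj : ∀ b ∈ B, ∀ c ∈ B, e b = e c → b = c := by
    intro b hb c hc hbc
    obtain ⟨hx, h3⟩ := he2 b hb
    obtain ⟨hy, h4⟩ := he2 c hc
    exact red_inj7 hρ hsepκ hx hy ((hmemB b).mp hb) ((hmemB c).mp hc) (by rw [h3, h4, hbc])
  have hesurj : ∀ b' ∈ (f.map π).roots.toFinset, ∃ b ∈ B, e b = b' := by
    have h3 : B.image e = (f.map π).roots.toFinset := by
      apply Finset.eq_of_subset_of_card_le
      · intro x hx
        obtain ⟨b, hb, rfl⟩ := Finset.mem_image.mp hx
        exact he1 b hb
      · rw [Finset.card_image_of_injOn (fun b hb c hc hbc => heinj b hb c hc hbc), hBcard, hcard,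
          hfdeg]
    intro b' hb'
    rw [← h3] at hb'
    obtain ⟨b, hb, h4⟩ := Finset.mem_image.mp hb'
    exact ⟨b, hb, h4⟩
  -- the fibres
  have hgκdeg : (g.map π).natDegree = g.natDegree := hg.natDegree_map π
  have hgFdeg : (g.map (algebraMap R F)).natDegree = g.natDegree := hg.natDegree_map _
  have hDsepκ : (D.map π).Separable :=
    separable_left7 (g := g.map π) (by rw [hgκdeg]; exact hdeg.ne') (by rw [hfκ]; exact hsepκ)
  have hfib : ∀ b ∈ B, ∀ c ∈ B, ((g.map (algebraMap R F)).eval b = (g.map (algebraMap R F)).eval c ↔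
      (g.map π).eval (e b) = (g.map π).eval (e c)) := by
    intro b hb c hc
    have hb1 := (he2 b hb).eval hρ g
    have hc1 := (he2 c hc).eval hρ g
    constructor
    · intro h3
      rw [h3] at hb1
      exact hb1.unique hc1
    · intro h3
      obtain ⟨hx, h4⟩ := hb1
      obtain ⟨hy, h5⟩ := hc1
      refine red_inj7 hρ hDsepκ hx hy ?_ ?_ (by rw [h4, h5, h3])
      · rw [← eval_comp, hfF]
        exact (hmemB b).mp hb
      · rw [← eval_comp, hfF]
        exact (hmemB c).mp hc
  have hcmp : Cmp7 (g.map (algebraMap R F)) (D.map (algebraMap R F)) (g.map π) (D.map π) e := by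
    refine ⟨?_, ?_, ?_, ?_⟩
    · rw [hfF, hfκ]; exact he1
    · rw [hfF]; exact heinj
    · rw [hfF, hfκ]; exact hesurj
    · rw [hfF]; exact hfib
  have hRsub : ∀ b ∈ ((D.map (algebraMap R F)).comp (g.map (algebraMap R F))).roots.toFinset,
      ∀ c ∈ ((D.map (algebraMap R F)).comp (g.map (algebraMap R F))).roots.toFinset,
      Red7 ρ (b - c) (e b - e c) := by
    rw [hfF]
    intro b hb c hc
    exact (he2 b hb).sub (he2 c hc)
  have hRD : ∀ b ∈ ((D.map (algebraMap R F)).comp (g.map (algebraMap R F))).roots.toFinset,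
      Red7 ρ (-(derivative (D.map (algebraMap R F))).eval ((g.map (algebraMap R F)).eval b))
        (-(derivative (D.map π)).eval ((g.map π).eval (e b))) := by
    rw [hfF]
    intro b hb
    rw [derivative_map, derivative_map]
    exact (((he2 b hb).eval hρ g).eval hρ (derivative D)).neg
  -- the products
  have hR0 : ∀ Z ⊆ B, ∀ b ∈ B, Red7 ρ
      (PZ (g.map (algebraMap R F)) (D.map (algebraMap R F)) Z b)
      (PZ (g.map π) (D.map π) (Z.image e) (e b)) := by
    intro Z hZ b hb
    exact hcmp.rel_PZ (Rl := Red7 ρ) (fun h h' => h.mul h') (fun h => Red7.prod h) Red7.one hRsub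
      hRD (by rw [hfF]; exact hZ) (by rw [hfF]; exact hb)
  have hR1 : ∀ Z ⊆ B, ∀ b ∈ B, Red7 ρ
      (PZ1 (g.map (algebraMap R F)) (D.map (algebraMap R F)) Z b)
      (PZ1 (g.map π) (D.map π) (Z.image e) (e b)) := by
    intro Z hZ b hb
    exact hcmp.rel_PZ1 (by rw [hfF]; exact hfF0) (by rw [hfκ]; exact hfκ0)
      (by rw [hgFdeg]; exact hdeg) (by rw [hgκdeg]; exact hdeg) (Rl := Red7 ρ)
      (fun h h' => h.mul h') (fun h => Red7.prod h) Red7.one hRsub
      hRD (by rw [hfF]; exact hZ) (by rw [hfF]; exact hb)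
  have hDκ' : ∀ b ∈ B, (derivative (D.map π)).eval ((g.map π).eval (e b)) ≠ 0 := by
    intro b hb h3
    have h4 := (hmemκ _).mp (he1 b hb)
    rw [← hfκ, eval_comp] at h4
    obtain ⟨u, v, huv⟩ := hDsepκ
    have h5 := congrArg (Polynomial.eval ((g.map π).eval (e b))) huv
    rw [eval_add, eval_mul, eval_mul, h4, h3] at h5
    simp at h5
  -- the square roots
  have hsq : ∀ x : F, ∃ y, y ^ 2 = x := fun x => IsAlgClosed.exists_pow_nat_eq x (by norm_num)
  choose sq hsq using hsq
  set P0 := PZ (g.map (algebraMap R F)) (D.map (algebraMap R F)) with hP0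
  set P1 := PZ1 (g.map (algebraMap R F)) (D.map (algebraMap R F)) with hP1
  let T : Finset F := insert (sq (-1)) (((B.powerset ×ˢ B).image fun p => sq (P0 p.1 p.2)) ∪
    ((B.powerset ×ˢ B).image fun p => sq (P1 p.1 p.2)))
  have hBsep : ∀ b ∈ B, b ∈ separableClosure K F := by
    intro b hb
    rw [mem_separableClosure_iff]
    apply Separable.of_dvd hsep
    apply minpoly.dvd
    rw [aeval_map_algebraMap, ← eval_map_algebraMap]
    exact (hmemB b).mp hb
  have hsqsep : ∀ x ∈ separableClosure K F, IsSeparable K (sq x) := by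
    intro x hxs
    by_cases hx0 : x = 0
    · have h3 : sq x = 0 := by
        have := hsq x
        rw [hx0] at this ⊢
        exact pow_eq_zero_iff (two_ne_zero) |>.mp this
      rw [h3]
      exact mem_separableClosure_iff.mp (zero_mem _)
    · apply IsSeparable.of_algebra_isSeparable_of_isSeparable K (E := separableClosure K F)
      have h3 : (X ^ 2 - C (⟨x, hxs⟩ : separableClosure K F)).Separable := by
        apply separable_X_pow_sub_C
        · intro h4
          apply h2F
          have h5 := congrArg (algebraMap (separableClosure K F) F) h4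
          rw [map_natCast, map_zero] at h5
          exact_mod_cast h5
        · intro h4
          exact hx0 (congrArg Subtype.val h4)
      apply Separable.of_dvd h3
      apply minpoly.dvd
      rw [map_sub, map_pow, aeval_X, aeval_C, hsq]
      exact sub_self _
  have hfibB : ∀ b ∈ B, ∀ c, (g.map (algebraMap R F)).eval c = (g.map (algebraMap R F)).eval b →
      c ∈ B := by
    intro b hb c hc
    rw [hmemB, ← hfF, eval_comp, hc, ← eval_comp, hfF]
    exact (hmemB b).mp hb
  have hgF0 : ∀ b, (g.map (algebraMap R F)) - C ((g.map (algebraMap R F)).eval b) ≠ 0 := by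
    intro b h1
    have h2 := congrArg natDegree h1
    rw [natDegree_sub_C, natDegree_zero, hgFdeg] at h2
    omega
  have hevsep : ∀ (p : R[X]) (x : F), x ∈ separableClosure K F →
      (p.map (algebraMap R F)).eval x ∈ separableClosure K F := by
    intro p x hx
    have h3 : (p.map (algebraMap R F)).eval x =
        ((aeval (⟨x, hx⟩ : separableClosure K F) (p.map (algebraMap R K)) :
          separableClosure K F) : F) := by
      rw [eval_map_algebraMap, ← aeval_map_algebraMap K x p]
      exact (aeval_algebraMap_apply F (⟨x, hx⟩ : separableClosure K F)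
        (p.map (algebraMap R K))).symm.trans rfl |>.symm ▸ rfl
    rw [h3]
    exact Subtype.mem _
  have hP0sep : ∀ Z ⊆ B, ∀ b ∈ B, P0 Z b ∈ separableClosure K F := by
    intro Z hZ b hb
    rw [hP0, PZ]
    apply mul_mem
    · apply prod_mem
      intro c hc
      exact sub_mem (hBsep b hb) (hBsep c (hZ (Finset.mem_filter.mp hc).1))
    · split_ifs
      · apply neg_mem
        rw [derivative_map]
        exact hevsep _ _ (hevsep _ _ (hBsep b hb))
      · exact one_mem _
  have hP1sep : ∀ Z ⊆ B, ∀ b ∈ B, P1 Z b ∈ separableClosure K F := by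
    intro Z hZ b hb
    rw [hP1, PZ1]
    apply mul_mem (hP0sep Z hZ b hb)
    apply prod_mem
    intro c hc
    rw [Finset.mem_filter, Multiset.mem_toFinset, mem_roots (hgF0 b), IsRoot.def, eval_sub, eval_C,
      sub_eq_zero] at hc
    exact sub_mem (hBsep b hb) (hBsep c (hfibB b hb c hc.1))
  obtain ⟨U, M, hSM, hM⟩ := exists_frob_lift14 (κ := κ) π hπ ρ hρ (B ∪ T) (by
    intro x hx
    rw [Finset.mem_union] at hx
    rcases hx with hx | hx
    · exact mem_separableClosure_iff.mp (hBsep x hx)
    · rw [Finset.mem_insert, Finset.mem_union, Finset.mem_image, Finset.mem_image] at hx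
      rcases hx with rfl | ⟨⟨Z, b⟩, hp, rfl⟩ | ⟨⟨Z, b⟩, hp, rfl⟩
      · exact hsqsep _ (neg_mem (one_mem _))
      · rw [Finset.mem_product, Finset.mem_powerset] at hp
        exact hsqsep _ (hP0sep Z hp.1 b hp.2)
      · rw [Finset.mem_product, Finset.mem_powerset] at hp
        exact hsqsep _ (hP1sep Z hp.1 b hp.2))
  have hq : ∀ c : κ, (algebraMap κ (AlgebraicClosure κ) c) ^ Nat.card κ =
      algebraMap κ (AlgebraicClosure κ) c := by
    intro c
    rw [Nat.card_eq_fintype_card, ← map_pow, FiniteField.pow_card]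
  -- the roots are fixed
  have hUB : ∀ b ∈ B, U b = b := by
    intro b hb
    obtain ⟨hx, h3⟩ := he2 b hb
    obtain ⟨-, h4⟩ := hM b (hSM b (Finset.mem_union_left _ hb))
    obtain ⟨hx', h5⟩ := h4 hx
    have h6 : (f.map (algebraMap R F)).eval (U b) = 0 := by
      have h7 : aeval (U b) (f.map (algebraMap R K)) = 0 := by
        rw [← AlgEquiv.coe_toAlgHom U, aeval_algHom_apply, aeval_map_algebraMap,
          ← eval_map_algebraMap, (hmemB b).mp hb, map_zero]
      rwa [aeval_map_algebraMap, ← eval_map_algebraMap] at h7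
    apply red_inj7 hρ hsepκ hx' hx h6 ((hmemB b).mp hb)
    rw [h5, h3, hq]
  -- the square roots
  have hcl : ∀ y : AlgebraicClosure κ, y ^ Nat.card κ = y →
      ∃ c : κ, algebraMap κ (AlgebraicClosure κ) c = y := by
    intro y hy
    have h3 : (X ^ Nat.card κ - X : κ[X]).Splits := by
      rw [Nat.card_eq_fintype_card]
      exact splits_iff_card_roots.mpr (by
        rw [FiniteField.roots_X_pow_card_sub_X, FiniteField.X_pow_card_sub_X_natDegree_eq _
          Fintype.one_lt_card]
        rfl)
    have h4 : aeval y (X ^ Nat.card κ - X : κ[X]) = 0 := by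
      rw [map_sub, map_pow, aeval_X, hy, sub_self]
    have h5 : (X ^ Nat.card κ - X : κ[X]) ≠ 0 := by
      rw [Nat.card_eq_fintype_card]
      exact FiniteField.X_pow_card_sub_X_ne_zero _ Fintype.one_lt_card
    have h6 := h3.eq_prod_roots
    have h7 : aeval y (X ^ Nat.card κ - X : κ[X]) =
        algebraMap κ (AlgebraicClosure κ) (X ^ Nat.card κ - X : κ[X]).leadingCoeff *
        ((X ^ Nat.card κ - X : κ[X]).roots.map
          fun a => y - algebraMap κ (AlgebraicClosure κ) a).prod := by
      conv_lhs => rw [h6]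
      rw [map_mul, aeval_C, map_multiset_prod, Multiset.map_map]
      simp
    rw [h7, mul_eq_zero] at h4
    rcases h4 with h4 | h4
    · exfalso
      rw [map_eq_zero_iff _ (algebraMap κ (AlgebraicClosure κ)).injective] at h4
      exact h5 (leadingCoeff_eq_zero.mp h4)
    · rw [Multiset.prod_eq_zero_iff, Multiset.mem_map] at h4
      obtain ⟨a, -, hax⟩ := h4
      exact ⟨a, (sub_eq_zero.mp hax).symm⟩
  have h2κ : (2 : AlgebraicClosure κ) ≠ 0 := by
    intro h3
    apply h2
    apply (algebraMap κ (AlgebraicClosure κ)).injective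
    rw [map_ofNat, map_zero]
    exact h3
  have hmoves : ∀ (x : F) (z : κ), Red7 ρ x z → z ≠ 0 → U x = x → sq x ∈ M →
      ((∀ s : F, s ^ 2 = x → U s ≠ s) ↔ ¬ IsSquare z) := by
    intro x z hxz hz hUx hsM
    obtain ⟨hxi, hxz⟩ := hxz
    have hsi : IsIntegral R (sq x) := by
      apply IsIntegral.of_pow (n := 2) (by norm_num)
      rw [hsq]
      exact hxi
    have hρs : ρ ⟨sq x, hsi⟩ ^ 2 = algebraMap κ (AlgebraicClosure κ) z := by
      rw [← map_pow, ← hxz]
      congr 1
      exact Subtype.ext (hsq x)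
    obtain ⟨-, h3⟩ := hM _ hsM
    obtain ⟨hsi', h4⟩ := h3 hsi
    have hUs : U (sq x) = sq x ∨ U (sq x) = - sq x := by
      apply sq_eq_sq_iff_eq_or_eq_neg.mp
      rw [← map_pow, hsq, hUx]
    constructor
    · rintro hm ⟨w, hw⟩
      rcases hUs with h5 | h5
      · exact hm _ (hsq x) h5
      · have h6 : ρ ⟨sq x, hsi⟩ = algebraMap κ (AlgebraicClosure κ) w ∨
            ρ ⟨sq x, hsi⟩ = -algebraMap κ (AlgebraicClosure κ) w := by
          apply sq_eq_sq_iff_eq_or_eq_neg.mp
          rw [hρs, hw, map_mul, pow_two]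
        have h7 : ρ ⟨sq x, hsi⟩ ^ Nat.card κ = ρ ⟨sq x, hsi⟩ := by
          rcases h6 with h6 | h6
          · rw [h6, hq]
          · rw [h6, ← map_neg, hq]
        rw [h7] at h4
        have h8 : (⟨U (sq x), hsi'⟩ : integralClosure R F) = -⟨sq x, hsi⟩ := Subtype.ext h5
        rw [h8, map_neg] at h4
        have h9 : 2 * ρ ⟨sq x, hsi⟩ = 0 := by linear_combination -h4
        rcases mul_eq_zero.mp h9 with h10 | h10
        · exact h2κ h10
        · rw [h10] at hρs
          apply hz
          apply (algebraMap κ (AlgebraicClosure κ)).injective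
          rw [← hρs, map_zero]
          norm_num
    · rintro hns s hs hUs'
      apply hns
      have h5 : s = sq x ∨ s = -sq x := by
        apply sq_eq_sq_iff_eq_or_eq_neg.mp
        rw [hs, hsq]
      have h6 : U (sq x) = sq x := by
        rcases h5 with h5 | h5
        · rw [← h5]; exact hUs'
        · rw [h5, map_neg] at hUs'
          exact neg_injective hUs'
      have h7 : (⟨U (sq x), hsi'⟩ : integralClosure R F) = ⟨sq x, hsi⟩ := Subtype.ext h6
      rw [h7] at h4
      obtain ⟨c, hc⟩ := hcl _ h4.symm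
      refine ⟨c, ?_⟩
      apply (algebraMap κ (AlgebraicClosure κ)).injective
      rw [map_mul, hc, ← hρs, pow_two]
  have hUmap : ∀ p : R[X], (p.map (algebraMap R F)).map (U : F →+* F) = p.map (algebraMap R F) := by
    intro p
    rw [Polynomial.map_map]
    congr 1
    ext r
    rw [RingHom.comp_apply, IsScalarTower.algebraMap_apply R K F]
    exact U.commutes _
  refine ⟨U, ?_, ?_, ?_, ?_⟩
  · intro b hb
    rw [hfF] at hb
    exact hUB b ((hmemB b).mpr hb)
  · -- the square root of `-1`
    intro i hi'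
    obtain ⟨w, hw⟩ := hi
    have h3 : Red7 ρ (-1 : F) (-1 : κ) := Red7.one.neg
    have h4 := hmoves (-1) (-1) h3 (neg_ne_zero.mpr one_ne_zero) (by rw [map_neg, map_one])
      (hSM _ (Finset.mem_union_right _ (Finset.mem_insert_self _ _)))
    have h5 : ¬ ∀ s : F, s ^ 2 = -1 → U s ≠ s := by
      rw [h4, not_not]
      exact ⟨w, hw⟩
    push Not at h5
    obtain ⟨s, hs, hUs⟩ := h5
    have h6 : i = s ∨ i = -s := by
      apply sq_eq_sq_iff_eq_or_eq_neg.mp
      rw [hi', hs]
    rcases h6 with rfl | rfl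
    · exact hUs
    · rw [map_neg, hUs]
  · refine hcmp.noEigen ?_ h0
    rw [hfF]
    intro Z hZ b hb
    apply hmoves _ _ (hR0 Z hZ b hb) (PZ_ne_zero (hDκ' b hb))
    · exact map_PZ (τ := (U : F →+* F)) (fun c hc => hUB c (hZ hc)) (hUB b hb) (hUmap g) (hUmap D)
    · apply hSM
      apply Finset.mem_union_right
      apply Finset.mem_insert_of_mem
      apply Finset.mem_union_left
      rw [Finset.mem_image]
      exact ⟨(Z, b), Finset.mem_product.mpr ⟨Finset.mem_powerset.mpr hZ, hb⟩, rfl⟩
  · refine hcmp.noEigen ?_ h1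
    rw [hfF]
    intro Z hZ b hb
    apply hmoves _ _ (hR1 Z hZ b hb) (PZ1_ne_zero (hDκ' b hb))
    · exact map_PZ1 (τ := (U : F →+* F)) (fun c hc => hUB c (hZ hc)) (hUB b hb)
        (fun c hc => hUB c (hfibB b hb c hc)) (by rw [hgFdeg]; exact hdeg) (hUmap g) (hUmap D)
    · apply hSM
      apply Finset.mem_union_right
      apply Finset.mem_insert_of_mem
      apply Finset.mem_union_right
      rw [Finset.mem_image]
      exact ⟨(Z, b), Finset.mem_product.mpr ⟨Finset.mem_powerset.mpr hZ, hb⟩, rfl⟩

end Pool.Agent.Lib.MP_89bcae_ag
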