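import Mathlib
import Pool.Agent.Lib.MP_89bcae_ag.HilA7
import Pool.Agent.Lib.MP_89bcae_ag.SpecT7

/-!
# Reduction of the elements of the algebraic closure, and comparison of the Rédei maps
-/

open Polynomial

open scoped Classical

namespace Pool.Agent.Lib.MP_89bcae_ag

set_option linter.unusedSectionVars false
set_option linter.style.haveILetI false

section Symm

variable {F κ : Type*} [Field F] [Field κ] {g D : F[X]} {g' D' : κ[X]} {e : F → κ}

/-- The inverse bijection. -/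
lemma Cmp7.symm (h : Cmp7 g D g' D' e) : ∃ e' : κ → F, Cmp7 g' D' g D e' ∧
    (∀ b' ∈ (D'.comp g').roots.toFinset, e (e' b') = b') ∧
    ∀ b ∈ (D.comp g).roots.toFinset, e' (e b) = b := by
  have h1 := h.surj
  choose! e' he' hee' using h1
  have hinv : ∀ b ∈ (D.comp g).roots.toFinset, e' (e b) = b := fun b hb =>
    h.inj _ (he' _ (h.maps b hb)) b hb (hee' _ (h.maps b hb))
  refine ⟨e', ⟨he', ?_, ?_, ?_⟩, hee', hinv⟩
  · intro b hb c hc hbc
    rw [← hee' b hb, ← hee' c hc, hbc]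
  · intro b hb
    exact ⟨e b, h.maps b hb, hinv b hb⟩
  · intro b hb c hc
    rw [h.fib _ (he' b hb) _ (he' c hc), hee' b hb, hee' c hc]

/-- Transfer of the absence of eigenvalues, in the other direction. -/
theorem Cmp7.noEigen' (h : Cmp7 g D g' D' e) {N : F → Prop} {N' : κ → Prop}
    {P : Finset F → F → F} {P' : Finset κ → κ → κ}
    (hN : ∀ Z ⊆ (D.comp g).roots.toFinset, ∀ b ∈ (D.comp g).roots.toFinset,
      (N (P Z b) ↔ N' (P' (Z.image e) (e b))))
    (h' : NoEigen N P g D) : NoEigen N' P' g' D' := by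
  obtain ⟨e', he', hee', -⟩ := h.symm
  refine he'.noEigen (fun Z hZ b hb => ?_) h'
  rw [hN (Z.image e') (he'.image_subset hZ) (e' b) (he'.maps b hb), hee' b hb, Finset.image_image]
  have h1 : Z.image (e ∘ e') = Z := by
    conv_rhs => rw [← Finset.image_id (s := Z)]
    apply Finset.image_congr
    intro c hc
    exact hee' c (hZ hc)
  rw [h1]

end Symm

section Rd

variable {R F κ Fκ : Type*} [CommRing R] [IsDomain R] [Field F] [Algebra R F] [Field κ] [Field Fκ]
  [Algebra κ Fκ]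

/-- `z` is the reduction of `x`. -/
def Rd7 (ρ : integralClosure R F →+* Fκ) (x : F) (z : Fκ) : Prop :=
  ∃ hx : IsIntegral R x, ρ ⟨x, hx⟩ = z

variable {ρ : integralClosure R F →+* Fκ}

lemma Rd7.unique {x : F} {z z' : Fκ} (h : Rd7 ρ x z) (h' : Rd7 ρ x z') : z = z' := by
  obtain ⟨hx, h⟩ := h
  obtain ⟨hx', h'⟩ := h'
  exact h.symm.trans h'

lemma Rd7.mul {x y : F} {z w : Fκ} (h : Rd7 ρ x z) (h' : Rd7 ρ y w) :
    Rd7 ρ (x * y) (z * w) := by
  obtain ⟨hx, h⟩ := h
  obtain ⟨hy, h'⟩ := h'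
  refine ⟨hx.mul hy, ?_⟩
  rw [← h, ← h', ← map_mul]
  rfl

lemma Rd7.sub {x y : F} {z w : Fκ} (h : Rd7 ρ x z) (h' : Rd7 ρ y w) :
    Rd7 ρ (x - y) (z - w) := by
  obtain ⟨hx, h⟩ := h
  obtain ⟨hy, h'⟩ := h'
  refine ⟨hx.sub hy, ?_⟩
  rw [← h, ← h', ← map_sub]
  rfl

lemma Rd7.neg {x : F} {z : Fκ} (h : Rd7 ρ x z) : Rd7 ρ (-x) (-z) := by
  obtain ⟨hx, h⟩ := h
  refine ⟨hx.neg, ?_⟩
  rw [← h, ← map_neg]
  rfl

lemma Rd7.one : Rd7 ρ (1 : F) (1 : Fκ) := ⟨isIntegral_one, map_one ρ⟩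

lemma Rd7.prod {ι : Type*} {S : Finset ι} {x : ι → F} {z : ι → Fκ}
    (h : ∀ i ∈ S, Rd7 ρ (x i) (z i)) : Rd7 ρ (∏ i ∈ S, x i) (∏ i ∈ S, z i) := by
  classical
  induction S using Finset.induction_on with
  | empty => simpa using Rd7.one
  | insert i S hi ih =>
    rw [Finset.prod_insert hi, Finset.prod_insert hi]
    exact (h i (Finset.mem_insert_self _ _)).mul
      (ih fun j hj => h j (Finset.mem_insert_of_mem hj))

lemma Rd7.eval {π : R →+* κ}
    (hρ : ∀ r, ρ (algebraMap R (integralClosure R F) r) = algebraMap κ Fκ (π r)) {x : F} {z : Fκ}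
    (h : Rd7 ρ x z) (p : R[X]) :
    Rd7 ρ ((p.map (algebraMap R F)).eval x) (((p.map π).map (algebraMap κ Fκ)).eval z) := by
  obtain ⟨hx, h⟩ := h
  have h1 : ((aeval (⟨x, hx⟩ : integralClosure R F) p : integralClosure R F) : F) =
      (p.map (algebraMap R F)).eval x := by
    rw [eval_map_algebraMap, ← Subalgebra.coe_val, ← aeval_algHom_apply]
    rfl
  have h3 : IsIntegral R ((p.map (algebraMap R F)).eval x) := by
    rw [← h1]
    exact (aeval (⟨x, hx⟩ : integralClosure R F) p).2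
  refine ⟨h3, ?_⟩
  have h4 : (⟨(p.map (algebraMap R F)).eval x, h3⟩ : integralClosure R F) =
      aeval (⟨x, hx⟩ : integralClosure R F) p := Subtype.ext h1.symm
  have h5 : ρ.comp (algebraMap R (integralClosure R F)) = (algebraMap κ Fκ).comp π :=
    RingHom.ext hρ
  rw [h4, aeval_def, hom_eval₂, h5, h, Polynomial.map_map, eval_map]

/-- The reduction is injective on the roots of a polynomial with separable reduction. -/
lemma rd_inj7 {π : R →+* κ}
    (hρ : ∀ r, ρ (algebraMap R (integralClosure R F) r) = algebraMap κ Fκ (π r)) {f : R[X]}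
    (hs : (f.map π).Separable) {x y : F} {z : Fκ} (hxz : Rd7 ρ x z) (hyz : Rd7 ρ y z)
    (hfx : (f.map (algebraMap R F)).eval x = 0) (hfy : (f.map (algebraMap R F)).eval y = 0) :
    x = y := by
  obtain ⟨hx, hx'⟩ := hxz
  obtain ⟨hy, hy'⟩ := hyz
  have h : ρ ⟨x, hx⟩ = ρ ⟨y, hy⟩ := by rw [hx', hy']
  by_contra hne
  have hev : ∀ (z : F) (hz : IsIntegral R z), (f.map (algebraMap R F)).eval z = 0 →
      (f.map (algebraMap R (integralClosure R F))).eval (⟨z, hz⟩ : integralClosure R F) = 0 := by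
    intro z hz h0
    rw [eval_map_algebraMap]
    apply Subtype.ext
    have h2 : ((aeval (⟨z, hz⟩ : integralClosure R F) f : integralClosure R F) : F) = aeval z f := by
      rw [← Subalgebra.coe_val, ← aeval_algHom_apply]
      rfl
    rw [h2, ← eval_map_algebraMap, h0]
    rfl
  obtain ⟨q, hq⟩ := dvd_iff_isRoot.mpr (hev x hx hfx)
  have h1 := hev y hy hfy
  rw [hq, eval_mul, eval_sub, eval_X, eval_C] at h1
  have h2 : (⟨y, hy⟩ : integralClosure R F) - ⟨x, hx⟩ ≠ 0 := by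
    intro h0
    exact hne (congrArg Subtype.val (sub_eq_zero.mp h0)).symm
  have h3 : q.IsRoot ⟨y, hy⟩ := (mul_eq_zero.mp h1).resolve_left h2
  obtain ⟨q', hq'⟩ := dvd_iff_isRoot.mpr h3
  have h4 : (f.map π).map (algebraMap κ Fκ) =
      (X - C (ρ ⟨x, hx⟩)) * ((X - C (ρ ⟨x, hx⟩)) * q'.map ρ) := by
    have h5 := congrArg (Polynomial.map ρ) hq
    rw [hq', Polynomial.map_map, Polynomial.map_mul, Polynomial.map_mul, Polynomial.map_sub,
      Polynomial.map_sub, map_X, map_C, map_C] at h5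
    have h6 : ρ.comp (algebraMap R (integralClosure R F)) = (algebraMap κ Fκ).comp π :=
      RingHom.ext hρ
    rw [Polynomial.map_map, ← h6, h5, h]
  have h5 := (separable_map (algebraMap κ Fκ)).mpr hs
  rw [h4] at h5
  have h6 : (X - C (ρ ⟨x, hx⟩)) * (X - C (ρ ⟨x, hx⟩)) ∣
      (X - C (ρ ⟨x, hx⟩)) * ((X - C (ρ ⟨x, hx⟩)) * q'.map ρ) := by
    rw [← mul_assoc]
    exact Dvd.intro _ rfl
  exact not_isUnit_X_sub_C _ (h5.squarefree _ h6)

end Rd

end Pool.Agent.Lib.MP_89bcae_ag
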