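import Mathlib

/-!
# Integral generators of finite Galois extensions of the field of fractions of a normal domain, and
localisations at maximal ideals
-/

open Polynomial

namespace Pool.Agent.Lib.MP_89bcae_ag

set_option linter.unusedSectionVars false
set_option linter.style.haveILetI false

universe u

/-- **Integral generators.** -/
theorem exists_generator14 {P K₀ F₀ : Type*} [CommRing P] [IsDomain P] [IsIntegrallyClosed P]
    [Field K₀] [Algebra P K₀] [IsFractionRing P K₀] [Field F₀] [Algebra K₀ F₀] [Algebra P F₀]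
    [IsScalarTower P K₀ F₀] [IsAlgClosed F₀] [Algebra.IsAlgebraic K₀ F₀] (T : Finset F₀)
    (hT : ∀ x ∈ T, IsSeparable K₀ x) :
    ∃ (M : IntermediateField K₀ F₀) (_ : FiniteDimensional K₀ M) (_ : IsGalois K₀ M)
      (B : PowerBasis K₀ M) (f : P[X]) (δ : P), (∀ x ∈ T, x ∈ M) ∧ IsIntegral P (B.gen : F₀) ∧
      f.Monic ∧ f.map (algebraMap P K₀) = minpoly K₀ B.gen ∧
      Irreducible (f.map (algebraMap P K₀)) ∧ δ ≠ 0 ∧
      algebraMap P K₀ δ = Algebra.discr K₀ B.basis := by
  classical
  have hcl : IsAlgClosure K₀ F₀ := ⟨inferInstance, inferInstance⟩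
  have hnF : Normal K₀ F₀ := IsAlgClosure.normal K₀ F₀
  set M₀ : IntermediateField K₀ F₀ := IntermediateField.adjoin K₀ (T : Set F₀) with hM₀
  have hfd : FiniteDimensional K₀ M₀ :=
    IntermediateField.finiteDimensional_adjoin fun x _ => Algebra.IsIntegral.isIntegral x
  have hsep₀ : Algebra.IsSeparable K₀ M₀ :=
    (IntermediateField.isSeparable_adjoin_iff_isSeparable (F := K₀) (E := F₀)).mpr hT
  obtain ⟨M, hM⟩ : ∃ M, M = IntermediateField.normalClosure K₀ M₀ F₀ := ⟨_, rfl⟩
  have hMn : Normal K₀ M := by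
    rw [hM]
    exact normalClosure.normal K₀ M₀ F₀
  have hMfd : FiniteDimensional K₀ M := by
    rw [hM]
    exact normalClosure.is_finiteDimensional K₀ M₀ F₀
  have hMs : Algebra.IsSeparable K₀ M := by
    rw [hM, ← le_separableClosure_iff, normalClosure_le_iff]
    intro f
    have : Algebra.IsSeparable K₀ f.fieldRange :=
      AlgEquiv.Algebra.isSeparable (AlgEquiv.ofInjectiveField f)
    exact le_separableClosure K₀ F₀ _
  have hMG : IsGalois K₀ M := ⟨⟩
  have hTM : ∀ x ∈ T, x ∈ M := fun x hx => by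
    rw [hM]
    exact (IntermediateField.le_normalClosure M₀) (IntermediateField.subset_adjoin K₀ _ hx)
  -- the algebra structure over `P`
  haveI hst : IsScalarTower P M F₀ := IsScalarTower.of_algebraMap_eq fun r => by
    rw [IsScalarTower.algebraMap_apply P K₀ F₀, IsScalarTower.algebraMap_apply P K₀ M]
    rfl
  haveI hfPM : FaithfulSMul P M := (faithfulSMul_iff_algebraMap_injective P M).mpr (by
    rw [IsScalarTower.algebraMap_eq P K₀ M]
    exact (algebraMap K₀ M).injective.comp (IsFractionRing.injective P K₀))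
  -- a primitive element
  obtain ⟨α, hα⟩ := Field.exists_primitive_element K₀ M
  have halg : IsAlgebraic P α :=
    (IsFractionRing.isAlgebraic_iff P K₀ M).mpr (Algebra.IsAlgebraic.isAlgebraic α)
  obtain ⟨c, hc0, hcα⟩ := halg.exists_integral_multiple
  have hcK : algebraMap P K₀ c ≠ 0 := by
    rw [Ne, FaithfulSMul.algebraMap_eq_zero_iff]
    exact hc0
  set θ : M := c • α with hθ
  have hθα : α = (algebraMap P K₀ c)⁻¹ • θ := by
    rw [hθ, ← algebraMap_smul K₀ c α, smul_smul, inv_mul_cancel₀ hcK, one_smul]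
  have hθtop : IntermediateField.adjoin K₀ {θ} = ⊤ := by
    rw [eq_top_iff, ← hα, IntermediateField.adjoin_simple_le_iff, hθα]
    exact (IntermediateField.adjoin K₀ {θ}).smul_mem
      (IntermediateField.mem_adjoin_simple_self K₀ θ)
  have hθint : IsIntegral K₀ θ := Algebra.IsIntegral.isIntegral θ
  have hadj : Algebra.adjoin K₀ {θ} = ⊤ := by
    rw [← IntermediateField.adjoin_simple_toSubalgebra_of_isAlgebraic hθint.isAlgebraic, hθtop]
    rfl
  let B : PowerBasis K₀ M := PowerBasis.ofAdjoinEqTop hθint hadj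
  have hBgen : B.gen = θ := PowerBasis.ofAdjoinEqTop_gen _ _
  have hmin : minpoly K₀ θ = (minpoly P θ).map (algebraMap P K₀) :=
    minpoly.isIntegrallyClosed_eq_field_fractions K₀ M (R := P) hcα
  have hbasis : ∀ i, IsIntegral P (B.basis i) := fun i => by
    rw [B.basis_eq_pow, hBgen]
    exact hcα.pow _
  obtain ⟨δ, hδ⟩ := IsIntegrallyClosed.isIntegral_iff.mp (Algebra.discr_isIntegral K₀ hbasis)
  refine ⟨M, hMfd, hMG, B, minpoly P θ, δ, hTM, ?_, minpoly.monic hcα, ?_, ?_, ?_, hδ⟩
  · rw [hBgen]
    exact hcα.map (IsScalarTower.toAlgHom P M F₀)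
  · rw [hBgen, hmin]
  · rw [← hmin]
    exact minpoly.irreducible hθint
  · rintro rfl
    rw [map_zero] at hδ
    exact Algebra.discr_not_zero_of_basis K₀ B.basis hδ.symm

/-- **Localisation at the kernel of a surjection onto a field.** -/
theorem exists_localization14 {P K₀ k : Type*} [CommRing P] [IsDomain P] [IsIntegrallyClosed P]
    [Field K₀] [Algebra P K₀] [IsFractionRing P K₀] [Field k] (π : P →+* k)
    (hπ : Function.Surjective π) (R : Type*) [CommRing R] [Algebra P R]
    [hP : (RingHom.ker π).IsPrime] [IsLocalization.AtPrime R (RingHom.ker π)] :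
    ∃ (_ : IsDomain R) (_ : IsIntegrallyClosed R) (_ : Algebra R K₀) (_ : IsScalarTower P R K₀)
      (_ : IsFractionRing R K₀) (π' : R →+* k), Function.Surjective π' ∧
      (∀ x, π' (algebraMap P R x) = π x) ∧ ∀ x, π x ≠ 0 → IsUnit (algebraMap P R x) := by
  have hle : (RingHom.ker π).primeCompl ≤ nonZeroDivisors P :=
    Ideal.primeCompl_le_nonZeroDivisors _
  have hmem : ∀ x, x ∈ (RingHom.ker π).primeCompl ↔ π x ≠ 0 := fun x => by
    rw [Ideal.mem_primeCompl_iff, RingHom.mem_ker]
  let e : R →+* K₀ := IsLocalization.lift (M := (RingHom.ker π).primeCompl)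
    (g := algebraMap P K₀) (by
      intro y
      rw [isUnit_iff_ne_zero]
      exact (map_ne_zero_iff _ (IsFractionRing.injective P K₀)).mpr
        (nonZeroDivisors.ne_zero (hle y.2)))
  letI : Algebra R K₀ := e.toAlgebra
  have hst : IsScalarTower P R K₀ := IsScalarTower.of_algebraMap_eq fun r =>
    (IsLocalization.lift_eq _ r).symm
  have hdom : IsDomain R := IsLocalization.isDomain_of_le_nonZeroDivisors R hle
  have hfr : IsFractionRing R K₀ :=
    IsFractionRing.isFractionRing_of_isDomain_of_isLocalization (RingHom.ker π).primeCompl R K₀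
  have hic : IsIntegrallyClosed R :=
    isIntegrallyClosed_of_isLocalization R (RingHom.ker π).primeCompl hle
  let π' : R →+* k := IsLocalization.lift (M := (RingHom.ker π).primeCompl) (g := π) (by
      intro y
      rw [isUnit_iff_ne_zero]
      exact (hmem y).mp y.2)
  have hπ' : ∀ x, π' (algebraMap P R x) = π x := fun x => IsLocalization.lift_eq _ x
  refine ⟨hdom, hic, inferInstance, hst, hfr, π', fun y => ?_, hπ', fun x hx => ?_⟩
  · obtain ⟨x, rfl⟩ := hπ y
    exact ⟨algebraMap P R x, hπ' x⟩
  · exact IsLocalization.map_units R (⟨x, (hmem x).mpr hx⟩ : (RingHom.ker π).primeCompl)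

end Pool.Agent.Lib.MP_89bcae_ag
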