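import Mathlib
import Pool.Agent.Lib.MP_89bcae_ag.HilB7

/-!
# An automorphism over a point which keeps the whole Galois group
-/

open Polynomial

open scoped Classical

namespace Pool.Agent.Lib.MP_89bcae_ag

set_option linter.unusedSectionVars false
set_option linter.style.haveILetI false

/-- The field `M` contains the roots of `D(g(x))` and the square roots of `-1` and of the products
`PZ`, `PZ1`. -/
structure HasRoots7 {F : Type*} [Field F] (g D : F[X]) (M : Set F) : Prop where
  roots : ∀ b ∈ (D.comp g).roots.toFinset, b ∈ M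
  neg : ∀ s : F, s ^ 2 = -1 → s ∈ M
  prod : ∀ Z ⊆ (D.comp g).roots.toFinset, ∀ b ∈ (D.comp g).roots.toFinset, ∀ s : F,
    s ^ 2 = PZ g D Z b → s ∈ M
  prod1 : ∀ Z ⊆ (D.comp g).roots.toFinset, ∀ b ∈ (D.comp g).roots.toFinset, ∀ s : F,
    s ^ 2 = PZ1 g D Z b → s ∈ M

variable {R K F κ Fκ : Type*} [CommRing R] [IsDomain R] [IsIntegrallyClosed R] [Field K]
  [Algebra R K] [IsFractionRing R K] [Field F] [Algebra K F] [Algebra R F] [IsScalarTower R K F]
  [IsAlgClosed F] [Algebra.IsAlgebraic K F]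
  [Field κ] [Field Fκ] [Algebra κ Fκ] [IsAlgClosed Fκ] [Algebra.IsAlgebraic κ Fκ]

/-- **The automorphism over the point.** -/
theorem exists_tau_noEigen7 {π : R →+* κ} (hπ : Function.Surjective π) (h2 : (2 : κ) ≠ 0)
    {g D : R[X]} (hg : g.Monic) (hdeg : 0 < g.natDegree) (hu : IsUnit D.leadingCoeff)
    (hsep : ((D.comp g).map (algebraMap R K)).Separable)
    (hsepκ : ((D.comp g).map π).Separable) (U : F ≃ₐ[K] F)
    (hUB : ∀ b : F, aeval b (D.comp g) = 0 → U b = b) (hUi : ¬ Moves U (-1))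
    (h0 : NoEigen (Moves U) (PZ (g.map (algebraMap R F)) (D.map (algebraMap R F)))
      (g.map (algebraMap R F)) (D.map (algebraMap R F)))
    (h1 : NoEigen (Moves U) (PZ1 (g.map (algebraMap R F)) (D.map (algebraMap R F)))
      (g.map (algebraMap R F)) (D.map (algebraMap R F)))
    (M : IntermediateField K F) [FiniteDimensional K M] [IsGalois K M]
    (hM : HasRoots7 (g.map (algebraMap R F)) (D.map (algebraMap R F)) (M : Set F))
    (B : PowerBasis K M) (hB : IsIntegral R B.gen) (f : R[X]) (hf : f.Monic)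
    (hfθ : aeval B.gen f = 0) (hirr : Irreducible (f.map π)) (δ : R)
    (hδ : algebraMap R K δ = Algebra.discr K B.basis) (hδ0 : π δ ≠ 0) :
    ∃ τ : Fκ ≃ₐ[κ] Fκ, (∀ b : Fκ, aeval b ((D.comp g).map π) = 0 → τ b = b) ∧ ¬ Moves τ (-1) ∧
      NoEigen (Moves τ) (PZ ((g.map π).map (algebraMap κ Fκ)) ((D.map π).map (algebraMap κ Fκ)))
        ((g.map π).map (algebraMap κ Fκ)) ((D.map π).map (algebraMap κ Fκ)) ∧
      NoEigen (Moves τ) (PZ1 ((g.map π).map (algebraMap κ Fκ)) ((D.map π).map (algebraMap κ Fκ)))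
        ((g.map π).map (algebraMap κ Fκ)) ((D.map π).map (algebraMap κ Fκ)) := by
  have hinjR : Function.Injective (algebraMap R F) := by
    rw [IsScalarTower.algebraMap_eq R K F]
    exact (algebraMap K F).injective.comp (IsFractionRing.injective R K)
  have hfaith : FaithfulSMul R F := (faithfulSMul_iff_algebraMap_injective R F).mpr hinjR
  set G : R[X] := D.comp g with hG
  have hGu : IsUnit G.leadingCoeff := by
    rw [hG, leadingCoeff_comp hdeg.ne', hg.leadingCoeff, one_pow, mul_one]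
    exact hu
  have hGF : (D.map (algebraMap R F)).comp (g.map (algebraMap R F)) = G.map (algebraMap R F) :=
    (Polynomial.map_comp _ _ _).symm
  have hGκ : ((D.map π).map (algebraMap κ Fκ)).comp ((g.map π).map (algebraMap κ Fκ)) =
      (G.map π).map (algebraMap κ Fκ) := by
    rw [hG, Polynomial.map_comp, Polynomial.map_comp]
  have hGκ0 : (G.map π).map (algebraMap κ Fκ) ≠ 0 := Polynomial.map_ne_zero hsepκ.ne_zero
  have hG0 : G ≠ 0 := by
    rintro h
    apply hsepκ.ne_zero
    rw [h, Polynomial.map_zero]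
  have hGF0 : G.map (algebraMap R F) ≠ 0 := (Polynomial.map_ne_zero_iff hinjR).mpr hG0
  have hGdeg : (G.map π).natDegree = G.natDegree :=
    natDegree_map_of_leadingCoeff_ne_zero π (hGu.map π).ne_zero
  have h2κ : (2 : Fκ) ≠ 0 := by
    intro h3
    apply h2
    apply (algebraMap κ Fκ).injective
    rw [map_ofNat, map_zero]
    exact h3
  obtain ⟨ρ, hρ⟩ := exists_red14 (F := F) (Fκ := Fκ) π hπ
  -- the roots
  set S : Finset F := (G.map (algebraMap R F)).roots.toFinset with hS
  have hmemS : ∀ b, b ∈ S ↔ (G.map (algebraMap R F)).eval b = 0 := by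
    intro b
    rw [hS, Multiset.mem_toFinset, mem_roots hGF0, IsRoot.def]
  have hmemκ : ∀ b, b ∈ ((G.map π).map (algebraMap κ Fκ)).roots.toFinset ↔
      ((G.map π).map (algebraMap κ Fκ)).eval b = 0 := by
    intro b
    rw [Multiset.mem_toFinset, mem_roots hGκ0, IsRoot.def]
  have hSint : ∀ b ∈ S, IsIntegral R b := fun b hb =>
    integral_root14 hGu (by rw [← eval_map_algebraMap]; exact (hmemS b).mp hb)
  have hScard : S.card = G.natDegree := by
    have h3 : (G.map (algebraMap R F)).Separable := by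
      rw [IsScalarTower.algebraMap_eq R K F, ← Polynomial.map_map]
      exact hsep.map
    rw [hS, Multiset.toFinset_card_of_nodup (nodup_roots h3),
      ← natDegree_map_eq_of_injective hinjR G]
    exact splits_iff_card_roots.mp (IsAlgClosed.splits _)
  have hκcard : ((G.map π).map (algebraMap κ Fκ)).roots.toFinset.card = G.natDegree := by
    rw [Multiset.toFinset_card_of_nodup (nodup_roots hsepκ.map), ← hGdeg,
      ← natDegree_map (algebraMap κ Fκ) (p := G.map π)]
    exact splits_iff_card_roots.mp (IsAlgClosed.splits _)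
  let e : F → Fκ := fun x => if hx : IsIntegral R x then ρ ⟨x, hx⟩ else 0
  have he : ∀ x (hx : IsIntegral R x), e x = ρ ⟨x, hx⟩ := fun x hx => dif_pos hx
  have he2 : ∀ x, IsIntegral R x → Rd7 ρ x (e x) := fun x hx => ⟨hx, (he x hx).symm⟩
  have he1 : ∀ b ∈ S, e b ∈ ((G.map π).map (algebraMap κ Fκ)).roots.toFinset := by
    intro b hb
    rw [hmemκ]
    have h3 := (he2 b (hSint b hb)).eval hρ G
    rw [(hmemS b).mp hb] at h3
    obtain ⟨h4, h5⟩ := h3
    rw [← h5]
    exact map_zero ρ
  have heinj : ∀ b ∈ S, ∀ c ∈ S, e b = e c → b = c := by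
    intro b hb c hc hbc
    exact rd_inj7 hρ hsepκ (he2 b (hSint b hb)) (by rw [hbc]; exact he2 c (hSint c hc))
      ((hmemS b).mp hb) ((hmemS c).mp hc)
  have himg : S.image e = ((G.map π).map (algebraMap κ Fκ)).roots.toFinset := by
    apply Finset.eq_of_subset_of_card_le
    · intro x hx
      obtain ⟨b, hb, rfl⟩ := Finset.mem_image.mp hx
      exact he1 b hb
    · rw [Finset.card_image_of_injOn (fun b hb c hc hbc => heinj b hb c hc hbc), hScard, hκcard]
  have hesurj : ∀ b' ∈ ((G.map π).map (algebraMap κ Fκ)).roots.toFinset, ∃ b ∈ S, e b = b' := by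
    intro b' hb'
    rw [← himg] at hb'
    obtain ⟨b, hb, h4⟩ := Finset.mem_image.mp hb'
    exact ⟨b, hb, h4⟩
  -- the fibres
  have hgκdeg : ((g.map π).map (algebraMap κ Fκ)).natDegree = g.natDegree := by
    rw [natDegree_map, hg.natDegree_map π]
  have hgFdeg : (g.map (algebraMap R F)).natDegree = g.natDegree := hg.natDegree_map _
  have hDsepκ : (D.map π).Separable := by
    apply separable_left7 (g := g.map π) (by rw [hg.natDegree_map π]; exact hdeg.ne')
    rw [← Polynomial.map_comp]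
    exact hsepκ
  have hfib : ∀ b ∈ S, ∀ c ∈ S, ((g.map (algebraMap R F)).eval b = (g.map (algebraMap R F)).eval c ↔
      ((g.map π).map (algebraMap κ Fκ)).eval (e b) =
        ((g.map π).map (algebraMap κ Fκ)).eval (e c)) := by
    intro b hb c hc
    have hb1 := (he2 b (hSint b hb)).eval hρ g
    have hc1 := (he2 c (hSint c hc)).eval hρ g
    constructor
    · intro h3
      rw [h3] at hb1
      exact hb1.unique hc1
    · intro h3
      rw [← h3] at hc1
      refine rd_inj7 hρ hDsepκ hb1 hc1 ?_ ?_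
      · rw [← eval_comp, hGF]
        exact (hmemS b).mp hb
      · rw [← eval_comp, hGF]
        exact (hmemS c).mp hc
  have hcmp : Cmp7 (g.map (algebraMap R F)) (D.map (algebraMap R F))
      ((g.map π).map (algebraMap κ Fκ)) ((D.map π).map (algebraMap κ Fκ)) e := by
    refine ⟨?_, ?_, ?_, ?_⟩
    · rw [hGF, hGκ]; exact he1
    · rw [hGF]; exact heinj
    · rw [hGF, hGκ]; exact hesurj
    · rw [hGF]; exact hfib
  have hRsub : ∀ b ∈ ((D.map (algebraMap R F)).comp (g.map (algebraMap R F))).roots.toFinset,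
      ∀ c ∈ ((D.map (algebraMap R F)).comp (g.map (algebraMap R F))).roots.toFinset,
      Rd7 ρ (b - c) (e b - e c) := by
    rw [hGF]
    intro b hb c hc
    exact (he2 b (hSint b hb)).sub (he2 c (hSint c hc))
  have hRD : ∀ b ∈ ((D.map (algebraMap R F)).comp (g.map (algebraMap R F))).roots.toFinset,
      Rd7 ρ (-(derivative (D.map (algebraMap R F))).eval ((g.map (algebraMap R F)).eval b))
        (-(derivative ((D.map π).map (algebraMap κ Fκ))).eval
          (((g.map π).map (algebraMap κ Fκ)).eval (e b))) := by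
    rw [hGF]
    intro b hb
    rw [derivative_map, derivative_map, derivative_map]
    exact (((he2 b (hSint b hb)).eval hρ g).eval hρ (derivative D)).neg
  -- the products
  have hR0 : ∀ Z ⊆ S, ∀ b ∈ S, Rd7 ρ
      (PZ (g.map (algebraMap R F)) (D.map (algebraMap R F)) Z b)
      (PZ ((g.map π).map (algebraMap κ Fκ)) ((D.map π).map (algebraMap κ Fκ)) (Z.image e) (e b)) := by
    intro Z hZ b hb
    exact hcmp.rel_PZ (Rl := Rd7 ρ) (fun h h' => h.mul h') (fun h => Rd7.prod h) Rd7.one hRsub
      hRD (by rw [hGF]; exact hZ) (by rw [hGF]; exact hb)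
  have hR1 : ∀ Z ⊆ S, ∀ b ∈ S, Rd7 ρ
      (PZ1 (g.map (algebraMap R F)) (D.map (algebraMap R F)) Z b)
      (PZ1 ((g.map π).map (algebraMap κ Fκ)) ((D.map π).map (algebraMap κ Fκ)) (Z.image e)
        (e b)) := by
    intro Z hZ b hb
    exact hcmp.rel_PZ1 (by rw [hGF]; exact hGF0) (by rw [hGκ]; exact hGκ0)
      (by rw [hgFdeg]; exact hdeg) (by rw [hgκdeg]; exact hdeg) (Rl := Rd7 ρ)
      (fun h h' => h.mul h') (fun h => Rd7.prod h) Rd7.one hRsub
      hRD (by rw [hGF]; exact hZ) (by rw [hGF]; exact hb)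
  have hDκ' : ∀ b ∈ S, (derivative ((D.map π).map (algebraMap κ Fκ))).eval
      (((g.map π).map (algebraMap κ Fκ)).eval (e b)) ≠ 0 := by
    intro b hb h3
    have h4 := (hmemκ _).mp (he1 b hb)
    rw [← hGκ, eval_comp] at h4
    obtain ⟨u, v, huv⟩ := hDsepκ.map (f := algebraMap κ Fκ)
    have h5 := congrArg (Polynomial.eval (((g.map π).map (algebraMap κ Fκ)).eval (e b))) huv
    rw [eval_add, eval_mul, eval_mul, h4, h3] at h5
    simp at h5
  -- the automorphism
  obtain ⟨τ, hτ⟩ := exists_tau7 (Fκ := Fκ) π ρ hρ M B hB f hf hfθ hirr δ hδ hδ0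
    (U.restrictNormal M)
  have hτ' : ∀ x ∈ M, ∀ hx : IsIntegral R x, ∃ hx' : IsIntegral R (U x),
      ρ ⟨U x, hx'⟩ = τ (ρ ⟨x, hx⟩) := by
    intro x hxM hx
    obtain ⟨hx', h3⟩ := hτ ⟨x, hxM⟩ hx
    have h4 : ((U.restrictNormal M ⟨x, hxM⟩ : M) : F) = U x :=
      AlgEquiv.restrictNormal_commutes U M ⟨x, hxM⟩
    refine ⟨h4 ▸ hx', ?_⟩
    rw [← h3]
    congr 1
    exact Subtype.ext h4.symm
  have hSM : ∀ b ∈ S, b ∈ M := by
    intro b hb
    exact hM.roots b (by rw [hGF]; exact hb)
  have hUS : ∀ b ∈ S, U b = b := by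
    intro b hb
    apply hUB
    rw [← eval_map_algebraMap]
    exact (hmemS b).mp hb
  have hτS : ∀ b ∈ S, τ (e b) = e b := by
    intro b hb
    obtain ⟨hx', h3⟩ := hτ' b (hSM b hb) (hSint b hb)
    rw [he b (hSint b hb), ← h3]
    congr 1
    exact Subtype.ext (hUS b hb)
  have hmoves : ∀ (x : F) (z : Fκ), Rd7 ρ x z → z ≠ 0 → U x = x → (∀ s : F, s ^ 2 = x → s ∈ M) →
      (Moves U x ↔ Moves τ z) := by
    intro x z hxz hz hUx hsM
    obtain ⟨s, hs⟩ : ∃ s : F, s ^ 2 = x := IsAlgClosed.exists_pow_nat_eq x (by norm_num)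
    obtain ⟨hxi, hxz⟩ := hxz
    have hsi : IsIntegral R s := by
      apply IsIntegral.of_pow (n := 2) (by norm_num)
      rw [hs]
      exact hxi
    have hρs : ρ ⟨s, hsi⟩ ^ 2 = z := by
      rw [← map_pow, ← hxz]
      congr 1
      exact Subtype.ext hs
    have hρs0 : ρ ⟨s, hsi⟩ ≠ 0 := by
      intro h3
      apply hz
      rw [← hρs, h3]
      norm_num
    obtain ⟨hsi', h3⟩ := hτ' s (hsM s hs) hsi
    have hUs : U s = s ∨ U s = - s := by
      apply sq_eq_sq_iff_eq_or_eq_neg.mp
      rw [← map_pow, hs, hUx]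
    have hA : ∀ {V : F → F} {x s : F}, s ^ 2 = x → (∀ y, V (-y) = - V y) →
        (Moves V x ↔ V s ≠ s) := by
      intro V x s hs hV
      constructor
      · intro h
        exact h s hs
      · intro h s' hs' h5
        have h6 : s' = s ∨ s' = -s := by
          apply sq_eq_sq_iff_eq_or_eq_neg.mp
          rw [hs, hs']
        rcases h6 with rfl | rfl
        · exact h h5
        · rw [hV] at h5
          exact h (neg_injective h5)
    have hA' : ∀ {V : Fκ → Fκ} {x s : Fκ}, s ^ 2 = x → (∀ y, V (-y) = - V y) →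
        (Moves V x ↔ V s ≠ s) := by
      intro V x s hs hV
      constructor
      · intro h
        exact h s hs
      · intro h s' hs' h5
        have h6 : s' = s ∨ s' = -s := by
          apply sq_eq_sq_iff_eq_or_eq_neg.mp
          rw [hs, hs']
        rcases h6 with rfl | rfl
        · exact h h5
        · rw [hV] at h5
          exact h (neg_injective h5)
    rw [hA hs (fun y => map_neg U y), hA' hρs (fun y => map_neg τ y), ← h3]
    rcases hUs with h5 | h5
    · have h6 : (⟨U s, hsi'⟩ : integralClosure R F) = ⟨s, hsi⟩ := Subtype.ext h5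
      rw [h6, h5]
      simp
    · have h6 : (⟨U s, hsi'⟩ : integralClosure R F) = -⟨s, hsi⟩ := Subtype.ext h5
      rw [h6, h5, map_neg]
      constructor
      · intro _ h7
        apply hρs0
        have h8 : 2 * ρ ⟨s, hsi⟩ = 0 := by linear_combination -h7
        exact (mul_eq_zero.mp h8).resolve_left h2κ
      · intro h7 h8
        apply h7
        have h9 : (-⟨s, hsi⟩ : integralClosure R F) = ⟨s, hsi⟩ := Subtype.ext h8
        rw [← map_neg, h9]
  have hfibS : ∀ b ∈ S, ∀ c, (g.map (algebraMap R F)).eval c = (g.map (algebraMap R F)).eval b →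
      c ∈ S := by
    intro b hb c hc
    rw [hmemS, ← hGF, eval_comp, hc, ← eval_comp, hGF]
    exact (hmemS b).mp hb
  have hUmap : ∀ p : R[X], (p.map (algebraMap R F)).map (U : F →+* F) = p.map (algebraMap R F) := by
    intro p
    rw [Polynomial.map_map]
    congr 1
    ext r
    rw [RingHom.comp_apply, IsScalarTower.algebraMap_apply R K F]
    exact U.commutes _
  refine ⟨τ, ?_, ?_, ?_, ?_⟩
  · intro b hb
    obtain ⟨c, hc, rfl⟩ := hesurj b (by
      rw [hmemκ, eval_map_algebraMap]
      exact hb)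
    exact hτS c hc
  · -- the square root of `-1`
    rw [← hmoves (-1) (-1) Rd7.one.neg (neg_ne_zero.mpr one_ne_zero) (by rw [map_neg, map_one])
      hM.neg]
    exact hUi
  · refine hcmp.noEigen' ?_ h0
    rw [hGF]
    intro Z hZ b hb
    apply hmoves _ _ (hR0 Z hZ b hb) (PZ_ne_zero (hDκ' b hb))
    · exact map_PZ (τ := (U : F →+* F)) (fun c hc => hUS c (hZ hc)) (hUS b hb) (hUmap g) (hUmap D)
    · exact hM.prod Z (by rw [hGF]; exact hZ) b (by rw [hGF]; exact hb)
  · refine hcmp.noEigen' ?_ h1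
    rw [hGF]
    intro Z hZ b hb
    apply hmoves _ _ (hR1 Z hZ b hb) (PZ1_ne_zero (hDκ' b hb))
    · exact map_PZ1 (τ := (U : F →+* F)) (fun c hc => hUS c (hZ hc)) (hUS b hb)
        (fun c hc => hUS c (hfibS b hb c hc)) (by rw [hgFdeg]; exact hdeg) (hUmap g) (hUmap D)
    · exact hM.prod1 Z (by rw [hGF]; exact hZ) b (by rw [hGF]; exact hb)

end Pool.Agent.Lib.MP_89bcae_ag
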