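import Mathlib
import Pool.Agent.Lib.MP_89bcae_ag.HilC7
import Pool.Agent.Lib.MP_89bcae_ag.HilC14

/-!
# Specialisation of the generic point
-/

open Polynomial

open scoped Classical

namespace Pool.Agent.Lib.MP_89bcae_ag

set_option linter.unusedSectionVars false
set_option linter.style.haveILetI false

/-- The automorphism over a point, from a normal local ring. -/
theorem point_of_local7 {P K₀ F₀ R κ Fκ : Type*} [CommRing P] [Field K₀] [Algebra P K₀] [Field F₀]
    [Algebra K₀ F₀] [IsAlgClosed F₀] [Algebra.IsAlgebraic K₀ F₀] [CommRing R] [IsDomain R]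
    [IsIntegrallyClosed R] [Algebra P R] [Algebra R K₀] [IsScalarTower P R K₀]
    [IsFractionRing R K₀] [Field κ] [Field Fκ] [Algebra κ Fκ] [IsAlgClosed Fκ]
    [Algebra.IsAlgebraic κ Fκ] (h2 : (2 : κ) ≠ 0) {π : P →+* κ} (π' : R →+* κ)
    (hπ' : Function.Surjective π') (hππ' : ∀ x, π' (algebraMap P R x) = π x)
    (hunit : ∀ x, π x ≠ 0 → IsUnit (algebraMap P R x)) {g D : P[X]} (hg : g.Monic)
    (hdeg : 0 < g.natDegree) (hlc : π D.leadingCoeff ≠ 0)
    (hsep : ((D.comp g).map (algebraMap P K₀)).Separable)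
    (hsepκ : ((D.comp g).map π).Separable) (U : F₀ ≃ₐ[K₀] F₀)
    (hUB : ∀ b : F₀, aeval b ((D.comp g).map (algebraMap P K₀)) = 0 → U b = b)
    (hUi : ¬ Moves U (-1))
    (h0 : NoEigen (Moves U) (PZ ((g.map (algebraMap P K₀)).map (algebraMap K₀ F₀))
      ((D.map (algebraMap P K₀)).map (algebraMap K₀ F₀)))
      ((g.map (algebraMap P K₀)).map (algebraMap K₀ F₀))
      ((D.map (algebraMap P K₀)).map (algebraMap K₀ F₀)))
    (h1 : NoEigen (Moves U) (PZ1 ((g.map (algebraMap P K₀)).map (algebraMap K₀ F₀))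
      ((D.map (algebraMap P K₀)).map (algebraMap K₀ F₀)))
      ((g.map (algebraMap P K₀)).map (algebraMap K₀ F₀))
      ((D.map (algebraMap P K₀)).map (algebraMap K₀ F₀)))
    (M : IntermediateField K₀ F₀) [FiniteDimensional K₀ M] [IsGalois K₀ M]
    (hM : HasRoots7 ((g.map (algebraMap P K₀)).map (algebraMap K₀ F₀))
      ((D.map (algebraMap P K₀)).map (algebraMap K₀ F₀)) (M : Set F₀))
    (B : PowerBasis K₀ M) (f : P[X]) (hf : f.Monic)
    (hfθ : f.map (algebraMap P K₀) = minpoly K₀ B.gen) (hirr : Irreducible (f.map π)) (δ : P)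
    (hδ : algebraMap P K₀ δ = Algebra.discr K₀ B.basis) (hδ0 : π δ ≠ 0) :
    ∃ τ : Fκ ≃ₐ[κ] Fκ, (∀ b : Fκ, aeval b ((D.comp g).map π) = 0 → τ b = b) ∧ ¬ Moves τ (-1) ∧
      NoEigen (Moves τ) (PZ ((g.map π).map (algebraMap κ Fκ)) ((D.map π).map (algebraMap κ Fκ)))
        ((g.map π).map (algebraMap κ Fκ)) ((D.map π).map (algebraMap κ Fκ)) ∧
      NoEigen (Moves τ) (PZ1 ((g.map π).map (algebraMap κ Fκ)) ((D.map π).map (algebraMap κ Fκ)))
        ((g.map π).map (algebraMap κ Fκ)) ((D.map π).map (algebraMap κ Fκ)) := by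
  letI : Algebra R F₀ := ((algebraMap K₀ F₀).comp (algebraMap R K₀)).toAlgebra
  haveI hst : IsScalarTower R K₀ F₀ := IsScalarTower.of_algebraMap_eq fun _ => rfl
  have hcπ : π'.comp (algebraMap P R) = π := RingHom.ext hππ'
  have hmπ : ∀ p : P[X], (p.map (algebraMap P R)).map π' = p.map π := fun p => by
    rw [Polynomial.map_map, hcπ]
  have hmK : ∀ p : P[X], (p.map (algebraMap P R)).map (algebraMap R K₀) =
      p.map (algebraMap P K₀) := fun p => by
    rw [Polynomial.map_map, ← IsScalarTower.algebraMap_eq]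
  have hmF : ∀ p : P[X], (p.map (algebraMap P R)).map (algebraMap R F₀) =
      (p.map (algebraMap P K₀)).map (algebraMap K₀ F₀) := fun p => by
    rw [IsScalarTower.algebraMap_eq R K₀ F₀, ← Polynomial.map_map, hmK]
  have hD0 : algebraMap P R D.leadingCoeff ≠ 0 := (hunit _ hlc).ne_zero
  have hlcR : (D.map (algebraMap P R)).leadingCoeff = algebraMap P R D.leadingCoeff :=
    leadingCoeff_map_of_leadingCoeff_ne_zero _ hD0
  have hcR : (D.map (algebraMap P R)).comp (g.map (algebraMap P R)) =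
      (D.comp g).map (algebraMap P R) := (Polynomial.map_comp _ _ _).symm
  have hfR : aeval B.gen (f.map (algebraMap P R)) = 0 := by
    have h3 : aeval B.gen ((f.map (algebraMap P R)).map (algebraMap R K₀)) = 0 := by
      rw [hmK, hfθ, minpoly.aeval]
    rwa [aeval_map_algebraMap] at h3
  have key := exists_tau_noEigen7 (K := K₀) (F := F₀) (Fκ := Fκ) (π := π') hπ' h2
    (g := g.map (algebraMap P R)) (D := D.map (algebraMap P R)) (hg.map _)
    (by rw [hg.natDegree_map]; exact hdeg) (by rw [hlcR]; exact hunit _ hlc)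
    (by rw [hcR, hmK]; exact hsep) (by rw [hcR, hmπ]; exact hsepκ) U
    (fun b hb => by
      apply hUB
      rw [← hmK, aeval_map_algebraMap, ← hcR]
      exact hb) hUi
    (by rw [hmF, hmF]; exact h0) (by rw [hmF, hmF]; exact h1) M
    (by rw [hmF, hmF]; exact hM) B ⟨f.map (algebraMap P R), hf.map _, hfR⟩
    (f.map (algebraMap P R)) (hf.map _) hfR (by rw [hmπ]; exact hirr) (algebraMap P R δ)
    (by rw [← IsScalarTower.algebraMap_apply]; exact hδ) (by rw [hππ']; exact hδ0)
  rw [hcR, hmπ, hmπ, hmπ] at key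
  exact key

/-- The automorphism over a point. -/
theorem point_of_generic7 {P K₀ F₀ κ Fκ : Type*} [CommRing P] [IsDomain P] [IsIntegrallyClosed P]
    [Field K₀] [Algebra P K₀] [IsFractionRing P K₀] [Field F₀]
    [Algebra K₀ F₀] [IsAlgClosed F₀] [Algebra.IsAlgebraic K₀ F₀] [Field κ] [Field Fκ]
    [Algebra κ Fκ] [IsAlgClosed Fκ]
    [Algebra.IsAlgebraic κ Fκ] (h2 : (2 : κ) ≠ 0) (π : P →+* κ)
    (hπ : Function.Surjective π) {g D : P[X]} (hg : g.Monic)
    (hdeg : 0 < g.natDegree) (hlc : π D.leadingCoeff ≠ 0)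
    (hsep : ((D.comp g).map (algebraMap P K₀)).Separable)
    (hsepκ : ((D.comp g).map π).Separable) (U : F₀ ≃ₐ[K₀] F₀)
    (hUB : ∀ b : F₀, aeval b ((D.comp g).map (algebraMap P K₀)) = 0 → U b = b)
    (hUi : ¬ Moves U (-1))
    (h0 : NoEigen (Moves U) (PZ ((g.map (algebraMap P K₀)).map (algebraMap K₀ F₀))
      ((D.map (algebraMap P K₀)).map (algebraMap K₀ F₀)))
      ((g.map (algebraMap P K₀)).map (algebraMap K₀ F₀))
      ((D.map (algebraMap P K₀)).map (algebraMap K₀ F₀)))
    (h1 : NoEigen (Moves U) (PZ1 ((g.map (algebraMap P K₀)).map (algebraMap K₀ F₀))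
      ((D.map (algebraMap P K₀)).map (algebraMap K₀ F₀)))
      ((g.map (algebraMap P K₀)).map (algebraMap K₀ F₀))
      ((D.map (algebraMap P K₀)).map (algebraMap K₀ F₀)))
    (M : IntermediateField K₀ F₀) [FiniteDimensional K₀ M] [IsGalois K₀ M]
    (hM : HasRoots7 ((g.map (algebraMap P K₀)).map (algebraMap K₀ F₀))
      ((D.map (algebraMap P K₀)).map (algebraMap K₀ F₀)) (M : Set F₀))
    (B : PowerBasis K₀ M) (f : P[X]) (hf : f.Monic)
    (hfθ : f.map (algebraMap P K₀) = minpoly K₀ B.gen) (hirr : Irreducible (f.map π)) (δ : P)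
    (hδ : algebraMap P K₀ δ = Algebra.discr K₀ B.basis) (hδ0 : π δ ≠ 0) :
    ∃ τ : Fκ ≃ₐ[κ] Fκ, (∀ b : Fκ, aeval b ((D.comp g).map π) = 0 → τ b = b) ∧ ¬ Moves τ (-1) ∧
      NoEigen (Moves τ) (PZ ((g.map π).map (algebraMap κ Fκ)) ((D.map π).map (algebraMap κ Fκ)))
        ((g.map π).map (algebraMap κ Fκ)) ((D.map π).map (algebraMap κ Fκ)) ∧
      NoEigen (Moves τ) (PZ1 ((g.map π).map (algebraMap κ Fκ)) ((D.map π).map (algebraMap κ Fκ)))
        ((g.map π).map (algebraMap κ Fκ)) ((D.map π).map (algebraMap κ Fκ)) := by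
  haveI hP : (RingHom.ker π).IsPrime := RingHom.ker_isPrime π
  obtain ⟨i1, i2, i3, i4, i5, π', hπ', hππ', hunit⟩ := exists_localization14 (K₀ := K₀) π hπ
    (Localization.AtPrime (RingHom.ker π))
  exact point_of_local7 (K₀ := K₀) h2 π' hπ' hππ' hunit hg hdeg hlc hsep hsepκ U hUB hUi h0 h1 M hM
    B f hf hfθ hirr δ hδ hδ0

/-- **The discriminant.** A separable polynomial over the field of fractions stays separable outside
a hypersurface. -/
theorem exists_sep_const7 {P K₀ : Type*} [CommRing P] [IsDomain P]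
    [Field K₀] [Algebra P K₀] [IsFractionRing P K₀] {G : P[X]}
    (hG : (G.map (algebraMap P K₀)).Separable) :
    ∃ c : P, c ≠ 0 ∧ ∀ {κ : Type*} [Field κ] (π : P →+* κ), π c ≠ 0 → (G.map π).Separable := by
  obtain ⟨u, v, huv⟩ := hG
  obtain ⟨b, hb, hub⟩ := IsLocalization.integerNormalization_spec (nonZeroDivisors P) u
  obtain ⟨b', hb', hvb⟩ := IsLocalization.integerNormalization_spec (nonZeroDivisors P) v
  set u' := IsLocalization.integerNormalization (nonZeroDivisors P) u with hu'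
  set v' := IsLocalization.integerNormalization (nonZeroDivisors P) v with hv'
  have hinj : Function.Injective (algebraMap P K₀) := IsFractionRing.injective P K₀
  refine ⟨b * b', mul_ne_zero (nonZeroDivisors.ne_zero hb) (nonZeroDivisors.ne_zero hb'), ?_⟩
  have h1 : C b' * u' * G + C b * v' * derivative G = C (b * b') := by
    apply Polynomial.map_injective _ hinj
    rw [Polynomial.map_add, Polynomial.map_mul, Polynomial.map_mul, Polynomial.map_mul,
      Polynomial.map_mul, map_C, map_C, map_C, ← derivative_map]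
    have h2 : u'.map (algebraMap P K₀) = C (algebraMap P K₀ b) * u := by
      rw [hub, Algebra.smul_def]
      rfl
    have h3 : v'.map (algebraMap P K₀) = C (algebraMap P K₀ b') * v := by
      rw [hvb, Algebra.smul_def]
      rfl
    rw [h2, h3, map_mul, C_mul]
    linear_combination C (algebraMap P K₀ b) * C (algebraMap P K₀ b') * huv
  intro κ _ π hπ
  have h2 := congrArg (Polynomial.map π) h1
  rw [Polynomial.map_add, Polynomial.map_mul, Polynomial.map_mul (p := C b * v'), map_C,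
    ← derivative_map] at h2
  refine ⟨C (π (b * b'))⁻¹ * (C b' * u').map π, C (π (b * b'))⁻¹ * (C b * v').map π, ?_⟩
  have h3 : C (π (b * b'))⁻¹ * C (π (b * b')) = (1 : κ[X]) := by
    rw [← C_mul, inv_mul_cancel₀ hπ, C_1]
  rw [← h3, ← h2]
  ring

end Pool.Agent.Lib.MP_89bcae_ag
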