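import Mathlib
import Pool.Agent.Lib.MP_89bcae_ag.HilD7
import Pool.Agent.Lib.MP_89bcae_ag.GenD8
import Pool.Agent.Lib.MP_89bcae_ag.ThmR8

/-!
# The Hilbert set
-/

open Polynomial

open scoped Classical

namespace Pool.Agent.Lib.MP_89bcae_ag

set_option linter.unusedSectionVars false
set_option linter.style.haveILetI false

universe u

/-- The finite set of the roots and square roots. -/
theorem exists_T7 {K F : Type*} [Field K] [Field F] [Algebra K F] [IsAlgClosed F]
    [Algebra.IsAlgebraic K F] (h2 : (2 : K) ≠ 0) {g D : K[X]} (hg0 : 0 < g.natDegree)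
    (hsep : (D.comp g).Separable) :
    ∃ T : Finset F, (∀ x ∈ T, IsSeparable K x) ∧ ∀ M : IntermediateField K F, (∀ x ∈ T, x ∈ M) →
      HasRoots7 (g.map (algebraMap K F)) (D.map (algebraMap K F)) (M : Set F) := by
  have h2F : (2 : F) ≠ 0 := by
    intro h0
    apply h2
    apply (algebraMap K F).injective
    rw [map_ofNat, map_zero]
    exact h0
  have hfF : (D.map (algebraMap K F)).comp (g.map (algebraMap K F)) =
      (D.comp g).map (algebraMap K F) := (Polynomial.map_comp _ _ _).symm
  have hfF0 : (D.comp g).map (algebraMap K F) ≠ 0 := Polynomial.map_ne_zero hsep.ne_zero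
  set B : Finset F := ((D.comp g).map (algebraMap K F)).roots.toFinset with hB
  have hmemB : ∀ b, b ∈ B ↔ ((D.comp g).map (algebraMap K F)).eval b = 0 := by
    intro b
    rw [hB, Multiset.mem_toFinset, mem_roots hfF0, IsRoot.def]
  have hgFdeg : (g.map (algebraMap K F)).natDegree = g.natDegree := natDegree_map _
  -- the square roots
  have hsq : ∀ x : F, ∃ y, y ^ 2 = x := fun x => IsAlgClosed.exists_pow_nat_eq x (by norm_num)
  choose sq hsq using hsq
  set P0 := PZ (g.map (algebraMap K F)) (D.map (algebraMap K F)) with hP0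
  set P1 := PZ1 (g.map (algebraMap K F)) (D.map (algebraMap K F)) with hP1
  let T : Finset F := insert (sq (-1)) (((B.powerset ×ˢ B).image fun p => sq (P0 p.1 p.2)) ∪
    ((B.powerset ×ˢ B).image fun p => sq (P1 p.1 p.2)))
  have hBsep : ∀ b ∈ B, b ∈ separableClosure K F := by
    intro b hb
    rw [mem_separableClosure_iff]
    apply Separable.of_dvd hsep
    apply minpoly.dvd
    rw [← eval_map_algebraMap]
    exact (hmemB b).mp hb
  have hsqsep : ∀ x ∈ separableClosure K F, IsSeparable K (sq x) := by
    intro x hxs
    by_cases hx0 : x = 0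
    · have h3 : sq x = 0 := by
        have := hsq x
        rw [hx0] at this ⊢
        exact pow_eq_zero_iff (two_ne_zero) |>.mp this
      rw [h3]
      exact mem_separableClosure_iff.mp (zero_mem _)
    · apply IsSeparable.of_algebra_isSeparable_of_isSeparable K (E := separableClosure K F)
      have h3 : (X ^ 2 - C (⟨x, hxs⟩ : separableClosure K F)).Separable := by
        apply separable_X_pow_sub_C
        · intro h4
          apply h2F
          have h5 := congrArg (algebraMap (separableClosure K F) F) h4
          rw [map_natCast, map_zero] at h5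
          exact_mod_cast h5
        · intro h4
          exact hx0 (congrArg Subtype.val h4)
      apply Separable.of_dvd h3
      apply minpoly.dvd
      rw [map_sub, map_pow, aeval_X, aeval_C, hsq]
      exact sub_self _
  have hfibB : ∀ b ∈ B, ∀ c, (g.map (algebraMap K F)).eval c = (g.map (algebraMap K F)).eval b →
      c ∈ B := by
    intro b hb c hc
    rw [hmemB, ← hfF, eval_comp, hc, ← eval_comp, hfF]
    exact (hmemB b).mp hb
  have hgF0 : ∀ b, (g.map (algebraMap K F)) - C ((g.map (algebraMap K F)).eval b) ≠ 0 := by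
    intro b h1
    have h2 := congrArg natDegree h1
    rw [natDegree_sub_C, natDegree_zero, hgFdeg] at h2
    omega
  have hevsep : ∀ (p : K[X]) (x : F), x ∈ separableClosure K F →
      (p.map (algebraMap K F)).eval x ∈ separableClosure K F := by
    intro p x hx
    have h3 : (p.map (algebraMap K F)).eval x =
        ((aeval (⟨x, hx⟩ : separableClosure K F) p : separableClosure K F) : F) := by
      rw [eval_map_algebraMap]
      exact (aeval_algebraMap_apply F (⟨x, hx⟩ : separableClosure K F) p).symm.trans rfl |>.symm ▸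
        rfl
    rw [h3]
    exact Subtype.mem _
  have hP0sep : ∀ Z ⊆ B, ∀ b ∈ B, P0 Z b ∈ separableClosure K F := by
    intro Z hZ b hb
    rw [hP0, PZ]
    apply mul_mem
    · apply prod_mem
      intro c hc
      exact sub_mem (hBsep b hb) (hBsep c (hZ (Finset.mem_filter.mp hc).1))
    · split_ifs
      · apply neg_mem
        rw [derivative_map]
        exact hevsep _ _ (hevsep _ _ (hBsep b hb))
      · exact one_mem _
  have hP1sep : ∀ Z ⊆ B, ∀ b ∈ B, P1 Z b ∈ separableClosure K F := by
    intro Z hZ b hb
    rw [hP1, PZ1]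
    apply mul_mem (hP0sep Z hZ b hb)
    apply prod_mem
    intro c hc
    rw [Finset.mem_filter, Multiset.mem_toFinset, mem_roots (hgF0 b), IsRoot.def, eval_sub, eval_C,
      sub_eq_zero] at hc
    exact sub_mem (hBsep b hb) (hBsep c (hfibB b hb c hc.1))
  have hmemsq : ∀ (M : IntermediateField K F) (x s : F), sq x ∈ M → s ^ 2 = x → s ∈ M := by
    intro M x s hM hs
    have h5 : s = sq x ∨ s = -sq x := by
      apply sq_eq_sq_iff_eq_or_eq_neg.mp
      rw [hs, hsq]
    rcases h5 with h5 | h5
    · rw [h5]; exact hM
    · rw [h5]; exact neg_mem hM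
  refine ⟨B ∪ T, ?_, fun M hM => ⟨?_, ?_, ?_, ?_⟩⟩
  · intro x hx
    rw [Finset.mem_union] at hx
    rcases hx with hx | hx
    · exact mem_separableClosure_iff.mp (hBsep x hx)
    · rw [Finset.mem_insert, Finset.mem_union, Finset.mem_image, Finset.mem_image] at hx
      rcases hx with rfl | ⟨⟨Z, b⟩, hp, rfl⟩ | ⟨⟨Z, b⟩, hp, rfl⟩
      · exact hsqsep _ (neg_mem (one_mem _))
      · rw [Finset.mem_product, Finset.mem_powerset] at hp
        exact hsqsep _ (hP0sep Z hp.1 b hp.2)
      · rw [Finset.mem_product, Finset.mem_powerset] at hp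
        exact hsqsep _ (hP1sep Z hp.1 b hp.2)
  · rw [hfF]
    exact fun b hb => hM b (Finset.mem_union_left _ hb)
  · intro s hs
    exact hmemsq M _ s (hM _ (Finset.mem_union_right _ (Finset.mem_insert_self _ _))) hs
  · rw [hfF]
    intro Z hZ b hb s hs
    refine hmemsq M _ s (hM _ (Finset.mem_union_right _ (Finset.mem_insert_of_mem
      (Finset.mem_union_left _ (Finset.mem_image.mpr ⟨(Z, b), ?_, rfl⟩))))) hs
    exact Finset.mem_product.mpr ⟨Finset.mem_powerset.mpr hZ, hb⟩
  · rw [hfF]
    intro Z hZ b hb s hs
    refine hmemsq M _ s (hM _ (Finset.mem_union_right _ (Finset.mem_insert_of_mem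
      (Finset.mem_union_right _ (Finset.mem_image.mpr ⟨(Z, b), ?_, rfl⟩))))) hs
    exact Finset.mem_product.mpr ⟨Finset.mem_powerset.mpr hZ, hb⟩

section Generic

variable {k : Type u} [Field k] {n : ℕ}

/-- The field of fractions of the polynomial ring is generated by the variables. -/
lemma adjoin_X7 : IntermediateField.adjoin k (Set.range fun i : Fin (n + 1) =>
    algebraMap (MvPolynomial (Fin (n + 1)) k) (FractionRing (MvPolynomial (Fin (n + 1)) k))
      (MvPolynomial.X i)) = ⊤ := by
  rw [eq_top_iff]
  intro z _
  have h1 : ∀ p : MvPolynomial (Fin (n + 1)) k,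
      algebraMap (MvPolynomial (Fin (n + 1)) k) (FractionRing (MvPolynomial (Fin (n + 1)) k)) p ∈
      IntermediateField.adjoin k (Set.range fun i : Fin (n + 1) =>
        algebraMap (MvPolynomial (Fin (n + 1)) k) (FractionRing (MvPolynomial (Fin (n + 1)) k))
          (MvPolynomial.X i)) := by
    intro p
    induction p using MvPolynomial.induction_on with
    | C c =>
      have h2 : algebraMap (MvPolynomial (Fin (n + 1)) k)
          (FractionRing (MvPolynomial (Fin (n + 1)) k)) (MvPolynomial.C c) =
          algebraMap k (FractionRing (MvPolynomial (Fin (n + 1)) k)) c := by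
        rw [IsScalarTower.algebraMap_apply k (MvPolynomial (Fin (n + 1)) k)]
        rfl
      rw [h2]
      exact IntermediateField.algebraMap_mem _ c
    | add p q hp hq =>
      rw [map_add]
      exact add_mem hp hq
    | mul_X p i hp =>
      rw [map_mul]
      exact mul_mem hp (IntermediateField.subset_adjoin k _ ⟨i, rfl⟩)
  obtain ⟨x, y, -, rfl⟩ := IsFractionRing.div_surjective (A := MvPolynomial (Fin (n + 1)) k) z
  exact div_mem (h1 x) (h1 y)

lemma algInd_X7 : AlgebraicIndependent k (fun i : Fin (n + 1) =>
    algebraMap (MvPolynomial (Fin (n + 1)) k) (FractionRing (MvPolynomial (Fin (n + 1)) k))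
      (MvPolynomial.X i)) := by
  have h1 := MvPolynomial.algebraicIndependent_X (Fin (n + 1)) k
  exact h1.map' (f := IsScalarTower.toAlgHom k (MvPolynomial (Fin (n + 1)) k)
    (FractionRing (MvPolynomial (Fin (n + 1)) k))) (IsFractionRing.injective _ _)

end Generic

end Pool.Agent.Lib.MP_89bcae_ag
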