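import Mathlib
import Pool.Agent.Lib.MP_89bcae_ag.HilE7
import Pool.Agent.Lib.MP_89bcae_ag.DefsH7

/-!
# The tower outside a thin set
-/

open Polynomial

open scoped Classical

namespace Pool.Agent.Lib.MP_89bcae_ag

set_option linter.unusedSectionVars false
set_option linter.style.haveILetI false

universe u

/-- **The Hilbert set.** -/
theorem hilbertTower7 (k F L Ω : Type u) [Field k] [Field F] [Algebra k F] [IsAlgClosure k F]
    [Field L] [Algebra F[X] L] [IsFractionRing F[X] L] [Field Ω] [Algebra L Ω] [IsSepClosure L Ω]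
    (h2 : (2 : k) ≠ 0) {g : k[X]} (hg : g.Monic) (hdeg : g.natDegree = 3)
    (hg' : derivative g ≠ 0) {n : ℕ} (hn : 3 ≤ n) :
    ∃ (f : (MvPolynomial (Fin (n + 1)) k)[X]) (q : MvPolynomial (Fin (n + 1)) k),
      f.Monic ∧ Irreducible f ∧
      (f.map (algebraMap _ (FractionRing (MvPolynomial (Fin (n + 1)) k)))).Separable ∧ q ≠ 0 ∧
      ∀ a : Fin (n + 1) → k, MvPolynomial.eval a q ≠ 0 →
        Irreducible (f.map (MvPolynomial.eval a)) →
        (coeffPoly7 a).natDegree = n ∧ ((coeffPoly7 a).comp g).Separable ∧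
          NoTateTowerOver7 k F L Ω g (coeffPoly7 a) := by
  have hF : IsAlgClosed F := IsAlgClosure.isAlgClosed k
  have hkF : Algebra.IsAlgebraic k F := IsAlgClosure.isAlgebraic
  haveI hICP : IsIntegrallyClosed (MvPolynomial (Fin (n + 1)) k) :=
    UniqueFactorizationMonoid.instIsIntegrallyClosed
  -- the generic polynomial
  obtain ⟨t, ht⟩ := exists_noncritical8 h2 hg' hdeg
  have hK2 : (2 : FractionRing (MvPolynomial (Fin (n + 1)) k)) ≠ 0 := by
    intro h0
    apply h2
    apply (algebraMap k (FractionRing (MvPolynomial (Fin (n + 1)) k))).injective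
    rw [map_ofNat, map_zero]
    exact h0
  obtain ⟨hsep, U, hU1, hU2, hU3, hU4⟩ := exists_U_generic8 k
    (FractionRing (MvPolynomial (Fin (n + 1)) k))
    (AlgebraicClosure (FractionRing (MvPolynomial (Fin (n + 1)) k))) h2 hn algInd_X7 adjoin_X7 hg
    hdeg hg' ht
  set gP : (MvPolynomial (Fin (n + 1)) k)[X] :=
    g.map (algebraMap k (MvPolynomial (Fin (n + 1)) k)) with hgP
  set DP : (MvPolynomial (Fin (n + 1)) k)[X] := polyOf8 (fun i => MvPolynomial.X i) with hDP
  have hgK : gP.map (algebraMap (MvPolynomial (Fin (n + 1)) k)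
      (FractionRing (MvPolynomial (Fin (n + 1)) k))) =
      g.map (algebraMap k (FractionRing (MvPolynomial (Fin (n + 1)) k))) := by
    rw [hgP, Polynomial.map_map, ← IsScalarTower.algebraMap_eq]
  have hDK : DP.map (algebraMap (MvPolynomial (Fin (n + 1)) k)
      (FractionRing (MvPolynomial (Fin (n + 1)) k))) =
      polyOf8 (fun i => algebraMap (MvPolynomial (Fin (n + 1)) k)
      (FractionRing (MvPolynomial (Fin (n + 1)) k)) (MvPolynomial.X i)) := by
    rw [hDP, polyOf_map8]
  rw [← hgK, ← hDK] at hsep hU1 hU2 hU3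
  have hgm : gP.Monic := hg.map _
  have hgd : gP.natDegree = 3 := by rw [hgP, hg.natDegree_map, hdeg]
  obtain ⟨T, hT1, hT2⟩ := exists_T7
    (F := AlgebraicClosure (FractionRing (MvPolynomial (Fin (n + 1)) k))) hK2
    (by rw [hgm.natDegree_map, hgd]; norm_num) hsep
  obtain ⟨M, i1, i2, B, f, δ, hTM, -, hf, hfm, hfirr, hδ0, hδ⟩ := exists_generator14
    (P := MvPolynomial (Fin (n + 1)) k) T hT1
  rw [← Polynomial.map_comp] at hsep
  obtain ⟨c, hc0, hc⟩ := exists_sep_const7 hsep
  refine ⟨f, δ * c * MvPolynomial.X (Fin.last n), hf, ?_, ?_, ?_, ?_⟩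
  · exact hf.irreducible_iff_irreducible_map_fraction_map.mpr hfirr
  · rw [hfm]
    exact Algebra.IsSeparable.isSeparable _ B.gen
  · exact mul_ne_zero (mul_ne_zero hδ0 hc0) (MvPolynomial.X_ne_zero _)
  intro a ha hirr
  rw [map_mul, map_mul, MvPolynomial.eval_X, mul_ne_zero_iff, mul_ne_zero_iff] at ha
  obtain ⟨⟨ha1, ha2⟩, ha3⟩ := ha
  have hDa : DP.map (MvPolynomial.eval a) = coeffPoly7 a := by
    rw [hDP, polyOf_map8]
    simp only [MvPolynomial.eval_X]
    rfl
  have hga : gP.map (MvPolynomial.eval a) = g := by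
    rw [hgP, Polynomial.map_map]
    have h3 : (MvPolynomial.eval a).comp (algebraMap k (MvPolynomial (Fin (n + 1)) k)) =
        RingHom.id k := by
      ext x
      rw [RingHom.comp_apply, MvPolynomial.algebraMap_eq, MvPolynomial.eval_C]
      rfl
    rw [h3, Polynomial.map_id]
  have hdegD : (coeffPoly7 a).natDegree = n := by
    apply le_antisymm (natDegree_polyOf_le8 a)
    apply le_natDegree_of_ne_zero
    have h3 : (polyOf8 a).coeff n = a (Fin.last n) := coeff_polyOf8 a (Fin.last n)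
    rw [h3]
    exact ha3
  have hdegP : DP.natDegree = n := by
    apply le_antisymm (natDegree_polyOf_le8 _)
    apply le_natDegree_of_ne_zero
    have h3 : DP.coeff n = MvPolynomial.X (Fin.last n) := coeff_polyOf8 _ (Fin.last n)
    rw [h3]
    exact MvPolynomial.X_ne_zero _
  have hlc : MvPolynomial.eval a DP.leadingCoeff ≠ 0 := by
    have h3 : DP.coeff n = MvPolynomial.X (Fin.last n) := coeff_polyOf8 _ (Fin.last n)
    rw [leadingCoeff, hdegP, h3, MvPolynomial.eval_X]
    exact ha3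
  have hsepa := hc (MvPolynomial.eval a) ha2
  have hcomp : (DP.comp gP).map (MvPolynomial.eval a) = (coeffPoly7 a).comp g := by
    rw [Polynomial.map_comp, hDa, hga]
  obtain ⟨τ, hτ1, hτ2, hτ3, hτ4⟩ := point_of_generic7
    (K₀ := FractionRing (MvPolynomial (Fin (n + 1)) k))
    (F₀ := AlgebraicClosure (FractionRing (MvPolynomial (Fin (n + 1)) k))) (Fκ := F) h2
    (MvPolynomial.eval a) (fun x => ⟨MvPolynomial.C x, MvPolynomial.eval_C x⟩) hgm
    (by rw [hgd]; norm_num) hlc hsep hsepa U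
    (fun b hb => hU1 b (by rw [← Polynomial.map_comp]; exact hb)) hU4 hU2 hU3 M (hT2 M hTM) B f hf
    hfm hirr δ hδ ha1
  rw [hcomp] at hsepa hτ1
  rw [hga, hDa] at hτ3 hτ4
  refine ⟨hdegD, hsepa, fun k' hk' r s hs => ?_⟩
  exact thmR8 k F L Ω h2 hg hdeg (by rw [hdegD]; omega) hsepa τ hτ1 hτ3 hτ4
    (fun h => absurd h hτ2) k' r s hs

end Pool.Agent.Lib.MP_89bcae_ag
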