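import Mathlib
import Pool.Agent.Lib.MP_89bcae_ag.Sup.Defs

/-!
# The arithmetic condition without the constant
-/

open Polynomial

open scoped Classical

set_option linter.unusedSimpArgs false
set_option linter.unusedVariables false
set_option linter.unusedSectionVars false
set_option linter.style.haveILetI false

namespace Pool.Agent.Lib.MP_89bcae_ag

universe u

section Sim

variable {F : Type*} [Field F]

/-- `x` and `y` differ by the `ℓ`-th power of a nonzero element of `E`. -/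
def Sim8 (E : Subfield F) (ℓ : ℕ) (x y : F) : Prop := ∃ w ∈ E, w ≠ 0 ∧ x = w ^ ℓ * y

variable {E : Subfield F} {ℓ : ℕ}

lemma Sim8.refl (x : F) : Sim8 E ℓ x x := ⟨1, E.one_mem, one_ne_zero, by rw [one_pow, one_mul]⟩

lemma Sim8.symm {x y : F} (h : Sim8 E ℓ x y) : Sim8 E ℓ y x := by
  obtain ⟨w, hw, hw0, rfl⟩ := h
  refine ⟨w⁻¹, E.inv_mem hw, inv_ne_zero hw0, ?_⟩
  rw [inv_pow, inv_mul_cancel_left₀ (pow_ne_zero ℓ hw0)]

lemma Sim8.trans {x y z : F} (h : Sim8 E ℓ x y) (h' : Sim8 E ℓ y z) : Sim8 E ℓ x z := by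
  obtain ⟨w, hw, hw0, rfl⟩ := h
  obtain ⟨w', hw', hw0', rfl⟩ := h'
  exact ⟨w * w', E.mul_mem hw hw', mul_ne_zero hw0 hw0', by ring⟩

lemma Sim8.mul {x y x' y' : F} (h : Sim8 E ℓ x y) (h' : Sim8 E ℓ x' y') :
    Sim8 E ℓ (x * x') (y * y') := by
  obtain ⟨w, hw, hw0, rfl⟩ := h
  obtain ⟨w', hw', hw0', rfl⟩ := h'
  exact ⟨w * w', E.mul_mem hw hw', mul_ne_zero hw0 hw0', by ring⟩

lemma Sim8.inv {x y : F} (h : Sim8 E ℓ x y) : Sim8 E ℓ x⁻¹ y⁻¹ := by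
  obtain ⟨w, hw, hw0, rfl⟩ := h
  exact ⟨w⁻¹, E.inv_mem hw, inv_ne_zero hw0, by rw [mul_inv, inv_pow]⟩

lemma Sim8.pow {x y : F} (h : Sim8 E ℓ x y) (n : ℕ) : Sim8 E ℓ (x ^ n) (y ^ n) := by
  obtain ⟨w, hw, hw0, rfl⟩ := h
  exact ⟨w ^ n, E.pow_mem hw n, pow_ne_zero n hw0, by ring⟩

lemma Sim8.zpow {x y : F} (h : Sim8 E ℓ x y) (n : ℤ) : Sim8 E ℓ (x ^ n) (y ^ n) := by
  obtain ⟨m, rfl | rfl⟩ := n.eq_nat_or_neg
  · rw [zpow_natCast, zpow_natCast]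
    exact h.pow m
  · rw [zpow_neg, zpow_natCast, zpow_neg, zpow_natCast]
    exact (h.pow m).inv

lemma Sim8.prod {ι : Type*} {s : Finset ι} {f f' : ι → F} (h : ∀ i ∈ s, Sim8 E ℓ (f i) (f' i)) :
    Sim8 E ℓ (∏ i ∈ s, f i) (∏ i ∈ s, f' i) := by
  induction s using Finset.induction_on with
  | empty => exact Sim8.refl _
  | insert i s hi ih =>
    rw [Finset.prod_insert hi, Finset.prod_insert hi]
    exact (h i (Finset.mem_insert_self _ _)).mul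
      (ih fun j hj => h j (Finset.mem_insert_of_mem hj))

lemma Sim8.of_dvd {x : F} (hx : x ∈ E) (hx0 : x ≠ 0) {i j : ℤ} (hij : (ℓ : ℤ) ∣ i - j) :
    Sim8 E ℓ (x ^ i) (x ^ j) := by
  obtain ⟨m, hm⟩ := hij
  refine ⟨x ^ m, E.zpow_mem hx m, zpow_ne_zero m hx0, ?_⟩
  rw [← zpow_natCast (x ^ m) ℓ, ← zpow_mul, ← zpow_add₀ hx0]
  congr 1
  linarith

lemma Sim8.ne_zero {x y : F} (h : Sim8 E ℓ x y) (hy : y ≠ 0) : x ≠ 0 := by
  obtain ⟨w, -, hw0, rfl⟩ := h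
  exact mul_ne_zero (pow_ne_zero ℓ hw0) hy

/-- The exponent reduced modulo `ℓ`. -/
def rmod8 (ℓ : ℕ) (i : ℤ) : ℕ := (i % ℓ).toNat

lemma Sim8.rmod (hℓ : ℓ ≠ 0) {x : F} (hx : x ∈ E) (hx0 : x ≠ 0) (i : ℤ) :
    Sim8 E ℓ (x ^ i) (x ^ rmod8 ℓ i) := by
  rw [← zpow_natCast x (rmod8 ℓ i)]
  apply Sim8.of_dvd hx hx0
  have h1 : ((rmod8 ℓ i : ℕ) : ℤ) = i % ℓ := by
    unfold rmod8
    rw [Int.toNat_of_nonneg]
    exact Int.emod_nonneg i (by exact_mod_cast hℓ)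
  rw [h1]
  exact Int.dvd_self_sub_emod

end Sim

section Prod

variable {F : Type*} [Field F] (S : Finset F) (p : F → F) (e : F → ℤ)

/-- The product of the differences to the roots in the other fibres. -/
noncomputable def PE8 (b : F) : F := ∏ β ∈ S.filter (fun β => p β ≠ p b), (b - β) ^ (e b - e β)

/-- The same product with exponents reduced modulo `ℓ`. -/
noncomputable def PR8 (ℓ : ℕ) (b : F) : F :=
  ∏ β ∈ S.filter (fun β => p β ≠ p b), (b - β) ^ rmod8 ℓ (e b - e β)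

variable {S p e} {E : Subfield F} {ℓ : ℕ}

lemma sub_mem_ne8 (hSE : ∀ b ∈ S, b ∈ E) {b : F} (hb : b ∈ S) {β : F}
    (hβ : β ∈ S.filter (fun β => p β ≠ p b)) : b - β ∈ E ∧ b - β ≠ 0 := by
  rw [Finset.mem_filter] at hβ
  exact ⟨E.sub_mem (hSE b hb) (hSE β hβ.1), sub_ne_zero.mpr fun h0 => hβ.2 (by rw [h0])⟩

lemma PE8_mem (hSE : ∀ b ∈ S, b ∈ E) {b : F} (hb : b ∈ S) : PE8 S p e b ∈ E ∧ PE8 S p e b ≠ 0 := by
  constructor
  · exact prod_mem fun β hβ => zpow_mem (sub_mem_ne8 hSE hb hβ).1 _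
  · exact Finset.prod_ne_zero_iff.mpr fun β hβ => zpow_ne_zero _ (sub_mem_ne8 hSE hb hβ).2

lemma PR8_mem (hSE : ∀ b ∈ S, b ∈ E) {b : F} (hb : b ∈ S) :
    PR8 S p e ℓ b ∈ E ∧ PR8 S p e ℓ b ≠ 0 := by
  constructor
  · exact prod_mem fun β hβ => pow_mem (sub_mem_ne8 hSE hb hβ).1 _
  · exact Finset.prod_ne_zero_iff.mpr fun β hβ => pow_ne_zero _ (sub_mem_ne8 hSE hb hβ).2

lemma PE8_sim (hℓ : ℓ ≠ 0) (hSE : ∀ b ∈ S, b ∈ E) {b : F} (hb : b ∈ S) :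
    Sim8 E ℓ (PE8 S p e b) (PR8 S p e ℓ b) :=
  Sim8.prod fun β hβ => Sim8.rmod hℓ (sub_mem_ne8 hSE hb hβ).1 (sub_mem_ne8 hSE hb hβ).2 _

/-- The relation between two roots, with reduced exponents. -/
noncomputable def QR8 (S : Finset F) (p : F → F) (e : F → ℤ) (ℓ : ℕ) (b c : F) : F :=
  PR8 S p e ℓ b ^ rmod8 ℓ (e c) * PR8 S p e ℓ c ^ rmod8 ℓ (-e b)

lemma QR8_mem (hSE : ∀ b ∈ S, b ∈ E) {b c : F} (hb : b ∈ S) (hc : c ∈ S) :
    QR8 S p e ℓ b c ∈ E ∧ QR8 S p e ℓ b c ≠ 0 :=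
  ⟨E.mul_mem (E.pow_mem (PR8_mem hSE hb).1 _) (E.pow_mem (PR8_mem hSE hc).1 _),
    mul_ne_zero (pow_ne_zero _ (PR8_mem hSE hb).2) (pow_ne_zero _ (PR8_mem hSE hc).2)⟩

lemma QR8_sim (hℓ : ℓ ≠ 0) (hSE : ∀ b ∈ S, b ∈ E) {b c : F} (hb : b ∈ S) (hc : c ∈ S) :
    Sim8 E ℓ (PE8 S p e b ^ e c * PE8 S p e c ^ (-e b)) (QR8 S p e ℓ b c) := by
  refine Sim8.mul ?_ ?_
  · exact (Sim8.rmod hℓ (PE8_mem hSE hb).1 (PE8_mem hSE hb).2 _).trans ((PE8_sim hℓ hSE hb).pow _)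
  · exact (Sim8.rmod hℓ (PE8_mem hSE hc).1 (PE8_mem hSE hc).2 _).trans ((PE8_sim hℓ hSE hc).pow _)

/-- The relations `QR8` give a constant. -/
theorem exists_const8 (hℓ : ℓ.Prime) (hSE : ∀ b ∈ S, b ∈ E)
    (hQ : ∀ b ∈ S, ∀ c ∈ S, Sim8 E ℓ (QR8 S p e ℓ b c) 1) {b₀ : F} (hb₀ : b₀ ∈ S)
    (he : ¬ (ℓ : ℤ) ∣ e b₀) :
    ∃ κ ∈ E, κ ≠ 0 ∧ ∀ b ∈ S, Sim8 E ℓ (κ ^ e b * PE8 S p e b) 1 := by
  obtain ⟨j, m, hj⟩ : ∃ j m : ℤ, j * e b₀ + m * ℓ = -1 := by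
    have h1 : IsCoprime (e b₀) (ℓ : ℤ) := by
      rw [isCoprime_comm, Int.isCoprime_iff_gcd_eq_one]
      rcases (Nat.coprime_or_dvd_of_prime hℓ (e b₀).natAbs) with h | h
      · exact h
      · exact absurd (Int.natCast_dvd.mpr h) he
    obtain ⟨u, v, huv⟩ := h1
    exact ⟨-u, -v, by linear_combination -huv⟩
  refine ⟨PE8 S p e b₀ ^ j, E.zpow_mem (PE8_mem hSE hb₀).1 j, zpow_ne_zero _ (PE8_mem hSE hb₀).2,
    fun b hb => ?_⟩
  have h1 := (QR8_sim hℓ.ne_zero hSE hb hb₀).trans (hQ b hb b₀ hb₀)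
  obtain ⟨hb1, hb2⟩ := PE8_mem (p := p) (e := e) hSE hb
  obtain ⟨hc1, hc2⟩ := PE8_mem (p := p) (e := e) hSE hb₀
  set A := PE8 S p e b with hA
  set B := PE8 S p e b₀ with hB
  -- `B ^ e b` is `A ^ e b₀`
  have h2 : Sim8 E ℓ (B ^ e b) (A ^ e b₀) := by
    have h3 := (h1.inv).mul (Sim8.refl (E := E) (ℓ := ℓ) (A ^ e b₀))
    have h4 : (A ^ e b₀ * B ^ (-e b))⁻¹ * A ^ e b₀ = B ^ e b := by
      rw [mul_inv, zpow_neg, inv_inv, mul_comm (A ^ e b₀)⁻¹, mul_assoc,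
        inv_mul_cancel₀ (zpow_ne_zero _ hb2), mul_one]
    rw [h4, inv_one, one_mul] at h3
    exact h3
  have h5 : Sim8 E ℓ ((B ^ j) ^ e b * A) (A ^ (e b₀ * j + 1)) := by
    rw [zpow_add₀ hb2, zpow_one, zpow_mul, ← zpow_mul, mul_comm j, zpow_mul]
    exact (h2.zpow j).mul (Sim8.refl _)
  refine h5.trans ?_
  have h6 : Sim8 E ℓ (A ^ (e b₀ * j + 1)) (A ^ (0 : ℤ)) := by
    apply Sim8.of_dvd hb1 hb2
    exact ⟨-m, by linear_combination hj⟩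
  rwa [zpow_zero] at h6

/-- The constant gives the relations `QR8`. -/
theorem sim_QR8 (hℓ : ℓ ≠ 0) (hSE : ∀ b ∈ S, b ∈ E) {κ : F} (hκ0 : κ ≠ 0)
    (hκ : ∀ b ∈ S, Sim8 E ℓ (κ ^ e b * PE8 S p e b) 1) {b c : F} (hb : b ∈ S) (hc : c ∈ S) :
    Sim8 E ℓ (QR8 S p e ℓ b c) 1 := by
  refine (QR8_sim hℓ hSE hb hc).symm.trans ?_
  have h1 := ((hκ b hb).zpow (e c)).mul ((hκ c hc).zpow (-e b))
  rw [one_zpow, one_zpow, one_mul] at h1
  have h2 : (κ ^ e b * PE8 S p e b) ^ e c * (κ ^ e c * PE8 S p e c) ^ (-e b) =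
      PE8 S p e b ^ e c * PE8 S p e c ^ (-e b) := by
    rw [mul_zpow, mul_zpow, ← zpow_mul, ← zpow_mul]
    have h3 : κ ^ (e b * e c) * κ ^ (e c * -e b) = 1 := by
      rw [← zpow_add₀ hκ0]
      have h4 : e b * e c + e c * -e b = 0 := by ring
      rw [h4, zpow_zero]
    calc κ ^ (e b * e c) * PE8 S p e b ^ e c * (κ ^ (e c * -e b) * PE8 S p e c ^ (-e b)) =
        (κ ^ (e b * e c) * κ ^ (e c * -e b)) * (PE8 S p e b ^ e c * PE8 S p e c ^ (-e b)) := by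
          ring
      _ = _ := by rw [h3, one_mul]
  rwa [h2] at h1

end Prod

/-- **The arithmetic condition without the constant.** -/
theorem isIndependent_iff8 {k F : Type u} [Field k] [Field F] [Algebra k F] {ℓ : ℕ}
    (hℓ : ℓ.Prime) {g D : k[X]} (S : Finset F) (hS : ∀ b, b ∈ S ↔ aeval (aeval b g) D = 0) :
    Sup.IsIndependent ℓ k F g D ↔ ∀ e : F → ℤ,
      (∀ b ∈ S, (ℓ : ℤ) ∣ ∑ β ∈ S.filter (fun β => aeval β g = aeval b g), e β) →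
      (∀ b ∈ S, ∀ c ∈ S, Sim8 (IntermediateField.adjoin k (S : Set F)).toSubfield ℓ
        (QR8 S (fun b => aeval b g) e ℓ b c) 1) → ∀ b ∈ S, (ℓ : ℤ) ∣ e b := by
  have hroots : Sup.roots k F g D = (S : Set F) := by
    ext b
    rw [Finset.mem_coe, hS]
    rfl
  have hset1 : ∀ β ∈ S, {β' ∈ Sup.roots k F g D | aeval β' g ≠ aeval β g} =
      ((S.filter (fun β' => aeval β' g ≠ aeval β g) : Finset F) : Set F) := by
    intro β _
    ext b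
    rw [Finset.mem_coe, Finset.mem_filter, hroots]
    rfl
  have hset2 : ∀ β ∈ S, {β' : F | aeval β' g = aeval β g} =
      ((S.filter (fun β' => aeval β' g = aeval β g) : Finset F) : Set F) := by
    intro β hβ
    ext b
    rw [Finset.mem_coe, Finset.mem_filter, Set.mem_ofPred_eq]
    constructor
    · intro h
      exact ⟨(hS b).mpr (by rw [h]; exact (hS β).mp hβ), h⟩
    · exact fun h => h.2
  have hSK : ∀ b ∈ S, b ∈ (IntermediateField.adjoin k (S : Set F)).toSubfield := fun b hb =>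
    IntermediateField.subset_adjoin k _ hb
  have hfin1 : ∀ (e : F → ℤ) (κ : F), ∀ β ∈ S,
      κ ^ e β * ∏ᶠ β' ∈ {β' ∈ Sup.roots k F g D | aeval β' g ≠ aeval β g}, (β - β') ^ (e β - e β')
        = κ ^ e β * PE8 S (fun b => aeval b g) e β := by
    intro e κ β hβ
    rw [hset1 β hβ, finprod_mem_coe_finset]
    rfl
  constructor
  · intro hI e hsum hQ b₀ hb₀
    by_contra hcon
    obtain ⟨κ, hκ, hκ0, hκ1⟩ := exists_const8 hℓ hSK hQ hb₀ hcon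
    refine hcon (hI e κ hκ0 (by rw [hroots]; exact hκ) (fun β hβ => ?_) (fun β hβ => ?_) b₀
      (by rw [hroots]; exact hb₀))
    · rw [hroots] at hβ
      rw [hset2 β hβ, finsum_mem_coe_finset]
      exact hsum β hβ
    · rw [hroots] at hβ
      rw [hfin1 e κ β hβ, hroots]
      obtain ⟨w, hw, hw0, hw1⟩ := hκ1 β hβ
      exact ⟨w, hw, by rw [hw1, mul_one]⟩
  · intro H e κ hκ0 hκ hsum hpow β hβ
    rw [hroots] at hβ hκ
    refine H e (fun b hb => ?_) (fun b hb c hc => ?_) β hβ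
    · have h1 := hsum b (by rw [hroots]; exact hb)
      rwa [hset2 b hb, finsum_mem_coe_finset] at h1
    · refine sim_QR8 hℓ.ne_zero hSK hκ0 (fun b hb => ?_) hb hc
      obtain ⟨w, hw, hw1⟩ := hpow b (by rw [hroots]; exact hb)
      rw [hfin1 e κ b hb] at hw1
      rw [hroots] at hw
      refine ⟨w, hw, ?_, by rw [← hw1, mul_one]⟩
      rintro rfl
      rw [zero_pow hℓ.ne_zero] at hw1
      exact mul_ne_zero (zpow_ne_zero _ hκ0) (PE8_mem hSK hb).2 hw1.symm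

end Pool.Agent.Lib.MP_89bcae_ag
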