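import Mathlib
import Pool.Agent.Lib.MP_89bcae_ag.HilB7
import Pool.Agent.Lib.MP_89bcae_ag.SimS8

/-!
# Specialisation of the arithmetic condition
-/

open Polynomial

open scoped Classical

set_option linter.unusedSimpArgs false
set_option linter.unusedVariables false
set_option linter.unusedSectionVars false
set_option linter.style.haveILetI false

namespace Pool.Agent.Lib.MP_89bcae_ag

universe u v

section Power

variable {R K F κ Fκ : Type*} [CommRing R] [IsDomain R] [IsIntegrallyClosed R] [Field K]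
  [Algebra R K] [IsFractionRing R K] [Field F] [Algebra K F] [Algebra R F] [IsScalarTower R K F]
  [IsAlgClosed F] [Algebra.IsAlgebraic K F]
  [Field κ] [Field Fκ] [Algebra κ Fκ] [IsAlgClosed Fκ] [Algebra.IsAlgebraic κ Fκ]

/-- **Transfer of powers.** -/
theorem power_transfer8 {π : R →+* κ} {ρ : integralClosure R F →+* Fκ}
    (hρ : ∀ r, ρ (algebraMap R (integralClosure R F) r) = algebraMap κ Fκ (π r))
    (M : IntermediateField K F) [FiniteDimensional K M] [IsGalois K M]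
    (B : PowerBasis K M) (hB : IsIntegral R B.gen) (f : R[X]) (hf : f.Monic)
    (hfθ : aeval B.gen f = 0) (hirr : Irreducible (f.map π)) (δ : R)
    (hδ : algebraMap R K δ = Algebra.discr K B.basis) (hδ0 : π δ ≠ 0)
    {ℓ : ℕ} (hℓ : ℓ ≠ 0) {ζ : R} (hζ : IsPrimitiveRoot ζ ℓ) (hζ' : IsPrimitiveRoot (π ζ) ℓ)
    (S : Set F) (hSM : ∀ b ∈ S, b ∈ M) (S₀ : Set Fκ)
    (hS₀ : ∀ z ∈ S₀, ∃ b ∈ S, Rd7 ρ b z) {x : F} {z : Fκ} (hxz : Rd7 ρ x z) (hz0 : z ≠ 0)
    (hx : x ∈ IntermediateField.adjoin K S) {q : F} (hq : q ∈ M) (hqx : q ^ ℓ = x)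
    {w : Fκ} (hw : w ∈ IntermediateField.adjoin κ S₀) (hwz : w ^ ℓ = z) :
    q ∈ IntermediateField.adjoin K S := by
  have hSle : IntermediateField.adjoin K S ≤ M := IntermediateField.adjoin_le_iff.mpr hSM
  obtain ⟨hxi, hxz⟩ := hxz
  have hqi : IsIntegral R q := by
    apply IsIntegral.of_pow (Nat.pos_of_ne_zero hℓ)
    rw [hqx]
    exact hxi
  have hq0 : ρ ⟨q, hqi⟩ ^ ℓ = z := by
    rw [← map_pow, ← hxz]
    congr 1
    exact Subtype.ext hqx
  have hρq0 : ρ ⟨q, hqi⟩ ≠ 0 := by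
    intro h
    rw [h, zero_pow hℓ] at hq0
    exact hz0 hq0.symm
  have hw0 : w ≠ 0 := by
    rintro rfl
    rw [zero_pow hℓ] at hwz
    exact hz0 hwz.symm
  have : NeZero ℓ := ⟨hℓ⟩
  have hζF : IsPrimitiveRoot (algebraMap R F ζ) ℓ := by
    refine hζ.map_of_injective ?_
    rw [IsScalarTower.algebraMap_eq R K F]
    exact (algebraMap K F).injective.comp (IsFractionRing.injective R K)
  have hζκ : IsPrimitiveRoot (algebraMap κ Fκ (π ζ)) ℓ :=
    hζ'.map_of_injective (algebraMap κ Fκ).injective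
  -- the quotient of `ρ q` and `w` is a root of unity
  obtain ⟨i, -, hi⟩ : ∃ i < ℓ, algebraMap κ Fκ (π ζ) ^ i = ρ ⟨q, hqi⟩ / w := by
    apply hζκ.eq_pow_of_pow_eq_one
    rw [div_pow, hq0, hwz, div_self hz0]
  have hqw : ρ ⟨q, hqi⟩ = algebraMap κ Fκ (π ζ ^ i) * w := by
    rw [map_pow, hi, div_mul_cancel₀ _ hw0]
  -- all automorphisms fixing `S` fix `q`
  have key : ∀ σ : M ≃ₐ[K] M, (∀ b (hb : b ∈ S), σ ⟨b, hSM b hb⟩ = ⟨b, hSM b hb⟩) →
      σ ⟨q, hq⟩ = ⟨q, hq⟩ := by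
    intro σ hσ
    obtain ⟨τ, hτ⟩ := exists_tau7 (Fκ := Fκ) π ρ hρ M B hB f hf hfθ hirr δ hδ hδ0 σ
    have hτS : ∀ z ∈ S₀, τ z = z := by
      intro z' hz'
      obtain ⟨b, hb, hbi, hbz⟩ := hS₀ z' hz'
      obtain ⟨h1, h2⟩ := hτ ⟨b, hSM b hb⟩ hbi
      have h3 : ((σ ⟨b, hSM b hb⟩ : M) : F) = b := congrArg (Subtype.val : M → F) (hσ b hb)
      have h4 : (⟨((σ ⟨b, hSM b hb⟩ : M) : F), h1⟩ : integralClosure R F) = ⟨b, hbi⟩ :=
        Subtype.ext h3
      rw [h4] at h2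
      rw [← hbz]
      exact h2.symm
    have hτw : τ w = w := by
      refine IntermediateField.adjoin_induction κ (s := S₀) (p := fun w _ => τ w = w)
        (fun y hy => hτS y hy) (fun y => τ.commutes y) ?_ ?_ ?_ hw
      · intro y y' _ _ h1 h2
        rw [map_add, h1, h2]
      · intro y _ h1
        rw [map_inv₀, h1]
      · intro y y' _ _ h1 h2
        rw [map_mul, h1, h2]
    have hτq : τ (ρ ⟨q, hqi⟩) = ρ ⟨q, hqi⟩ := by
      rw [hqw, map_mul, hτw, AlgEquiv.commutes]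
    have hσx : σ ⟨x, hSle hx⟩ = ⟨x, hSle hx⟩ := by
      refine IntermediateField.adjoin_induction K (s := S) (p := fun y hy =>
        σ ⟨y, hSle hy⟩ = ⟨y, hSle hy⟩)
        (fun y hy => hσ y hy) (fun y => ?_) ?_ ?_ ?_ hx
      · have h1 : (⟨algebraMap K F y, hSle (IntermediateField.algebraMap_mem _ y)⟩ : M) =
          algebraMap K M y := rfl
        rw [h1, AlgEquiv.commutes]
      · intro y y' hy hy' h1 h2
        have h3 : (⟨y + y', hSle (add_mem hy hy')⟩ : M) = ⟨y, hSle hy⟩ + ⟨y', hSle hy'⟩ := rfl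
        rw [h3, map_add, h1, h2]
      · intro y hy h1
        have h3 : (⟨y⁻¹, hSle (inv_mem hy)⟩ : M) = ⟨y, hSle hy⟩⁻¹ := rfl
        rw [h3, map_inv₀, h1]
      · intro y y' hy hy' h1 h2
        have h3 : (⟨y * y', hSle (mul_mem hy hy')⟩ : M) = ⟨y, hSle hy⟩ * ⟨y', hSle hy'⟩ := rfl
        rw [h3, map_mul, h1, h2]
    have hqM : (⟨q, hq⟩ : M) ^ ℓ = ⟨x, hSle hx⟩ := Subtype.ext hqx
    have hq1 : q ≠ 0 := by
      rintro rfl
      apply hρq0
      exact map_zero ρ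
    have hσq : ((σ ⟨q, hq⟩ : M) : F) ^ ℓ = q ^ ℓ := by
      have h1 : (σ ⟨q, hq⟩) ^ ℓ = ⟨x, hSle hx⟩ := by rw [← map_pow, hqM, hσx]
      have h2 := congrArg (Subtype.val : M → F) h1
      rw [hqx]
      exact h2
    obtain ⟨j, hj, hj'⟩ : ∃ j < ℓ, algebraMap R F ζ ^ j = ((σ ⟨q, hq⟩ : M) : F) / q := by
      apply hζF.eq_pow_of_pow_eq_one
      rw [div_pow, hσq, div_self (pow_ne_zero ℓ hq1)]
    have hσq' : ((σ ⟨q, hq⟩ : M) : F) = algebraMap R F (ζ ^ j) * q := by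
      rw [map_pow, hj', div_mul_cancel₀ _ hq1]
    obtain ⟨h1, h2⟩ := hτ ⟨q, hq⟩ hqi
    have h3 : (⟨((σ ⟨q, hq⟩ : M) : F), h1⟩ : integralClosure R F) =
        algebraMap R (integralClosure R F) (ζ ^ j) * ⟨q, hqi⟩ := Subtype.ext hσq'
    have h4 : ρ ⟨((⟨q, hq⟩ : M) : F), hqi⟩ = ρ ⟨q, hqi⟩ := rfl
    rw [h3, map_mul, hρ, h4, hτq] at h2
    have h5 : algebraMap κ Fκ (π (ζ ^ j)) = 1 := mul_right_cancel₀ hρq0 (by rw [h2, one_mul])
    rw [map_pow, map_pow] at h5
    have h6 : j = 0 := by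
      by_contra h0
      exact (hζκ.pow_ne_one_of_pos_of_lt h0 hj) h5
    apply Subtype.ext
    rw [hσq', h6, pow_zero, map_one, one_mul]
  -- Galois theory
  let E : IntermediateField K M := IntermediateField.adjoin K {y : M | (y : F) ∈ S}
  have hqE : (⟨q, hq⟩ : M) ∈ E := by
    rw [← IsGalois.fixedField_fixingSubgroup E, IntermediateField.mem_fixedField_iff]
    intro σ hσ
    apply key σ
    intro b hb
    rw [IntermediateField.mem_fixingSubgroup_iff] at hσ
    exact hσ ⟨b, hSM b hb⟩ (IntermediateField.subset_adjoin K _ hb)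
  have hE : E ≤ (IntermediateField.adjoin K S).comap M.val := by
    rw [IntermediateField.adjoin_le_iff]
    intro y hy
    exact IntermediateField.subset_adjoin K S hy
  exact hE hqE

end Power

section Transfer

lemma Rd7.pow8 {R F Fκ : Type*} [CommRing R] [IsDomain R] [Field F] [Algebra R F] [Field Fκ]
    {ρ : integralClosure R F →+* Fκ} {x : F} {z : Fκ} (h : Rd7 ρ x z) (n : ℕ) :
    Rd7 ρ (x ^ n) (z ^ n) := by
  obtain ⟨hx, h⟩ := h
  refine ⟨hx.pow n, ?_⟩
  rw [← h, ← map_pow]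
  rfl

/-- **The arithmetic condition is preserved by the specialisations which keep the Galois group.** -/
theorem isIndependent_specialise8 {R : Type*} {K F : Type u} {κ Fκ : Type v} [CommRing R]
    [IsDomain R] [IsIntegrallyClosed R] [Field K]
    [Algebra R K] [IsFractionRing R K] [Field F] [Algebra K F] [Algebra R F] [IsScalarTower R K F]
    [IsAlgClosed F] [Algebra.IsAlgebraic K F]
    [Field κ] [Field Fκ] [Algebra κ Fκ] [IsAlgClosed Fκ] [Algebra.IsAlgebraic κ Fκ]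
    {π : R →+* κ} (hπ : Function.Surjective π) {ℓ : ℕ} (hℓ : ℓ.Prime) (hℓκ : (ℓ : κ) ≠ 0) {ζ : R}
    (hζ : IsPrimitiveRoot ζ ℓ)
    {g D : R[X]} (hg : g.Monic) (hdeg : 0 < g.natDegree) (hu : IsUnit D.leadingCoeff)
    (hsep : ((D.comp g).map (algebraMap R K)).Separable)
    (hsepκ : ((D.comp g).map π).Separable)
    (hI : Sup.IsIndependent ℓ K F (g.map (algebraMap R K)) (D.map (algebraMap R K)))
    (M : IntermediateField K F) [FiniteDimensional K M] [IsGalois K M]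
    (hM : ∀ b : F, aeval b (D.comp g) = 0 → b ∈ M)
    (hM' : ∀ b c r : F, aeval b (D.comp g) = 0 → aeval c (D.comp g) = 0 → r ^ ℓ = b - c → r ∈ M)
    (B : PowerBasis K M) (hB : IsIntegral R B.gen) (f : R[X]) (hf : f.Monic)
    (hfθ : aeval B.gen f = 0) (hirr : Irreducible (f.map π)) (δ : R)
    (hδ : algebraMap R K δ = Algebra.discr K B.basis) (hδ0 : π δ ≠ 0) :
    Sup.IsIndependent ℓ κ Fκ (g.map π) (D.map π) := by
  have hinjR : Function.Injective (algebraMap R F) := by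
    rw [IsScalarTower.algebraMap_eq R K F]
    exact (algebraMap K F).injective.comp (IsFractionRing.injective R K)
  have hfaith : FaithfulSMul R F := (faithfulSMul_iff_algebraMap_injective R F).mpr hinjR
  have hζ' : IsPrimitiveRoot (π ζ) ℓ := by
    have hp1 : (π ζ) ^ ℓ = 1 := by rw [← map_pow, hζ.pow_eq_one, map_one]
    have hp2 : π ζ ≠ 1 := by
      intro h1
      have h3 := congrArg π (hζ.geom_sum_eq_zero hℓ.one_lt)
      rw [map_sum, map_zero, Finset.sum_congr rfl fun i _ => by rw [map_pow, h1, one_pow],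
        Finset.sum_const, Finset.card_range, nsmul_eq_mul, mul_one] at h3
      exact hℓκ h3
    have : Fact ℓ.Prime := ⟨hℓ⟩
    rw [IsPrimitiveRoot.iff_orderOf]
    exact orderOf_eq_prime hp1 hp2
  set G : R[X] := D.comp g with hG
  have hGu : IsUnit G.leadingCoeff := by
    rw [hG, leadingCoeff_comp hdeg.ne', hg.leadingCoeff, one_pow, mul_one]
    exact hu
  have hGF : (D.map (algebraMap R F)).comp (g.map (algebraMap R F)) = G.map (algebraMap R F) :=
    (Polynomial.map_comp _ _ _).symm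
  have hGκ : ((D.map π).map (algebraMap κ Fκ)).comp ((g.map π).map (algebraMap κ Fκ)) =
      (G.map π).map (algebraMap κ Fκ) := by
    rw [hG, Polynomial.map_comp, Polynomial.map_comp]
  have hGκ0 : (G.map π).map (algebraMap κ Fκ) ≠ 0 := Polynomial.map_ne_zero hsepκ.ne_zero
  have hG0 : G ≠ 0 := by
    rintro h
    apply hsepκ.ne_zero
    rw [h, Polynomial.map_zero]
  have hGF0 : G.map (algebraMap R F) ≠ 0 := (Polynomial.map_ne_zero_iff hinjR).mpr hG0
  have hGdeg : (G.map π).natDegree = G.natDegree :=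
    natDegree_map_of_leadingCoeff_ne_zero π (hGu.map π).ne_zero
  obtain ⟨ρ, hρ⟩ := exists_red14 (F := F) (Fκ := Fκ) π hπ
  -- the roots
  obtain ⟨S, hS⟩ : ∃ S : Finset F, S = (G.map (algebraMap R F)).roots.toFinset := ⟨_, rfl⟩
  obtain ⟨S₀, hS₀⟩ : ∃ S₀ : Finset Fκ, S₀ = ((G.map π).map (algebraMap κ Fκ)).roots.toFinset :=
    ⟨_, rfl⟩
  have hmemS : ∀ b, b ∈ S ↔ (G.map (algebraMap R F)).eval b = 0 := by
    intro b
    rw [hS, Multiset.mem_toFinset, mem_roots hGF0, IsRoot.def]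
  have hmemκ : ∀ b, b ∈ S₀ ↔ ((G.map π).map (algebraMap κ Fκ)).eval b = 0 := by
    intro b
    rw [hS₀, Multiset.mem_toFinset, mem_roots hGκ0, IsRoot.def]
  have hSint : ∀ b ∈ S, IsIntegral R b := fun b hb =>
    integral_root14 hGu (by rw [← eval_map_algebraMap]; exact (hmemS b).mp hb)
  have hScard : S.card = G.natDegree := by
    have h3 : (G.map (algebraMap R F)).Separable := by
      rw [IsScalarTower.algebraMap_eq R K F, ← Polynomial.map_map]
      exact hsep.map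
    rw [hS, Multiset.toFinset_card_of_nodup (nodup_roots h3),
      ← natDegree_map_eq_of_injective hinjR G]
    exact splits_iff_card_roots.mp (IsAlgClosed.splits _)
  have hκcard : S₀.card = G.natDegree := by
    rw [hS₀, Multiset.toFinset_card_of_nodup (nodup_roots hsepκ.map), ← hGdeg,
      ← natDegree_map (algebraMap κ Fκ) (p := G.map π)]
    exact splits_iff_card_roots.mp (IsAlgClosed.splits _)
  obtain ⟨e, hedef⟩ : ∃ e : F → Fκ, e = fun x => if hx : IsIntegral R x then ρ ⟨x, hx⟩ else 0 :=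
    ⟨_, rfl⟩
  have he : ∀ x (hx : IsIntegral R x), e x = ρ ⟨x, hx⟩ := fun x hx => by rw [hedef]; exact dif_pos hx
  have he2 : ∀ x, IsIntegral R x → Rd7 ρ x (e x) := fun x hx => ⟨hx, (he x hx).symm⟩
  have he1 : ∀ b ∈ S, e b ∈ S₀ := by
    intro b hb
    rw [hmemκ]
    have h3 := (he2 b (hSint b hb)).eval hρ G
    rw [(hmemS b).mp hb] at h3
    obtain ⟨h4, h5⟩ := h3
    rw [← h5]
    exact map_zero ρ
  have heinj : ∀ b ∈ S, ∀ c ∈ S, e b = e c → b = c := by
    intro b hb c hc hbc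
    exact rd_inj7 hρ hsepκ (he2 b (hSint b hb)) (by rw [hbc]; exact he2 c (hSint c hc))
      ((hmemS b).mp hb) ((hmemS c).mp hc)
  have himg : S.image e = S₀ := by
    apply Finset.eq_of_subset_of_card_le
    · intro x hx
      obtain ⟨b, hb, rfl⟩ := Finset.mem_image.mp hx
      exact he1 b hb
    · rw [Finset.card_image_of_injOn (fun b hb c hc hbc => heinj b hb c hc hbc), hScard, hκcard]
  have hesurj : ∀ b' ∈ S₀, ∃ b ∈ S, e b = b' := by
    intro b' hb'
    rw [← himg] at hb'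
    obtain ⟨b, hb, h4⟩ := Finset.mem_image.mp hb'
    exact ⟨b, hb, h4⟩
  -- the fibres
  have hDsepκ : (D.map π).Separable := by
    apply separable_left7 (g := g.map π) (by rw [hg.natDegree_map π]; exact hdeg.ne')
    rw [← Polynomial.map_comp]
    exact hsepκ
  obtain ⟨p, hp⟩ : ∃ p : F → F, p = fun b => aeval b (g.map (algebraMap R K)) := ⟨_, rfl⟩
  obtain ⟨p₀, hp₀⟩ : ∃ p₀ : Fκ → Fκ, p₀ = fun b => aeval b (g.map π) := ⟨_, rfl⟩
  have hpev : ∀ b, p b = (g.map (algebraMap R F)).eval b := fun b => by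
    rw [hp]
    show aeval b (g.map (algebraMap R K)) = _
    rw [aeval_map_algebraMap, eval_map_algebraMap]
  have hpev₀ : ∀ b, p₀ b = ((g.map π).map (algebraMap κ Fκ)).eval b := fun b => by
    rw [hp₀]
    show aeval b (g.map π) = _
    rw [eval_map_algebraMap]
  have hfib : ∀ b ∈ S, ∀ c ∈ S, (p b = p c ↔ p₀ (e b) = p₀ (e c)) := by
    intro b hb c hc
    rw [hpev, hpev, hpev₀, hpev₀]
    have hb1 := (he2 b (hSint b hb)).eval hρ g
    have hc1 := (he2 c (hSint c hc)).eval hρ g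
    constructor
    · intro h3
      rw [h3] at hb1
      exact hb1.unique hc1
    · intro h3
      rw [← h3] at hc1
      refine rd_inj7 hρ hDsepκ hb1 hc1 ?_ ?_
      · rw [← eval_comp, hGF]
        exact (hmemS b).mp hb
      · rw [← eval_comp, hGF]
        exact (hmemS c).mp hc
  have hfilt1 : ∀ b ∈ S, (S.filter (fun β => p β = p b)).image e =
      S₀.filter (fun β => p₀ β = p₀ (e b)) := by
    intro b hb
    ext z
    simp only [Finset.mem_image, Finset.mem_filter]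
    constructor
    · rintro ⟨c, ⟨hc, hcb⟩, rfl⟩
      exact ⟨he1 c hc, (hfib c hc b hb).mp hcb⟩
    · rintro ⟨hz, hzb⟩
      obtain ⟨c, hc, rfl⟩ := hesurj z hz
      exact ⟨c, ⟨hc, (hfib c hc b hb).mpr hzb⟩, rfl⟩
  have hfilt2 : ∀ b ∈ S, (S.filter (fun β => p β ≠ p b)).image e =
      S₀.filter (fun β => p₀ β ≠ p₀ (e b)) := by
    intro b hb
    ext z
    simp only [Finset.mem_image, Finset.mem_filter]
    constructor
    · rintro ⟨c, ⟨hc, hcb⟩, rfl⟩
      exact ⟨he1 c hc, fun h => hcb ((hfib c hc b hb).mpr h)⟩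
    · rintro ⟨hz, hzb⟩
      obtain ⟨c, hc, rfl⟩ := hesurj z hz
      exact ⟨c, ⟨hc, fun h => hzb ((hfib c hc b hb).mp h)⟩, rfl⟩
  have hinjS : ∀ T ⊆ S, Set.InjOn e (T : Set F) := fun T hT b hb c hc hbc =>
    heinj b (hT hb) c (hT hc) hbc
  have hSM : ∀ b ∈ S, b ∈ M := fun b hb => hM b (by
    rw [← eval_map_algebraMap]
    exact (hmemS b).mp hb)
  -- the exponents
  have hSiff : ∀ b, b ∈ S ↔ aeval (aeval b (g.map (algebraMap R K))) (D.map (algebraMap R K)) = 0 := by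
    intro b
    rw [hmemS, eval_map_algebraMap, hG, aeval_comp, aeval_map_algebraMap, aeval_map_algebraMap]
  have hS₀iff : ∀ b, b ∈ S₀ ↔ aeval (aeval b (g.map π)) (D.map π) = 0 := by
    intro b
    rw [hmemκ, eval_map_algebraMap, hG, Polynomial.map_comp, aeval_comp]
  rw [isIndependent_iff8 hℓ S₀ hS₀iff]
  intro ε hsum hQ
  rw [isIndependent_iff8 hℓ S hSiff] at hI
  have hfin := hI (fun b => ε (e b)) (fun b hb => ?_) (fun b hb c hc => ?_)
  · intro b₀ hb₀
    obtain ⟨b, hb, rfl⟩ := hesurj b₀ hb₀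
    exact hfin b hb
  · -- the sums
    have h1 := hsum (e b) (he1 b hb)
    have h2 : ∑ β ∈ S.filter (fun β => p β = p b), ε (e β) =
        ∑ β ∈ S₀.filter (fun β => p₀ β = p₀ (e b)), ε β := by
      rw [← hfilt1 b hb, Finset.sum_image (hinjS _ (Finset.filter_subset _ _))]
    rw [hp, hp₀] at h2
    rw [h2]
    exact h1
  · -- the products
    rw [← hp]
    have hQ' := hQ (e b) (he1 b hb) (e c) (he1 c hc)
    rw [← hp₀] at hQ'
    obtain ⟨w, hw, hw0, hw1⟩ := hQ'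
    rw [mul_one] at hw1
    obtain ⟨ε', hε'⟩ : ∃ ε' : F → ℤ, ε' = fun b => ε (e b) := ⟨_, rfl⟩
    rw [← hε']
    have hPRd : ∀ b ∈ S, Rd7 ρ (PR8 S p ε' ℓ b) (PR8 S₀ p₀ ε ℓ (e b)) := by
      intro b hb
      unfold PR8
      rw [← hfilt2 b hb, Finset.prod_image (hinjS _ (Finset.filter_subset _ _)), hε']
      refine Rd7.prod fun β hβ => Rd7.pow8 ?_ _
      exact (he2 b (hSint b hb)).sub (he2 β (hSint β (Finset.mem_filter.mp hβ).1))
    have hQRd : Rd7 ρ (QR8 S p ε' ℓ b c) (QR8 S₀ p₀ ε ℓ (e b) (e c)) := by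
      unfold QR8
      rw [hε'] at hPRd ⊢
      exact ((hPRd b hb).pow8 _).mul ((hPRd c hc).pow8 _)
    have hroot : ∀ b ∈ S, ∃ r ∈ M, r ^ ℓ = PR8 S p ε' ℓ b := by
      intro b hb
      choose r hr using fun x : F => IsAlgClosed.exists_pow_nat_eq x hℓ.pos
      refine ⟨∏ β ∈ S.filter (fun β => p β ≠ p b), r (b - β) ^ rmod8 ℓ (ε' b - ε' β), ?_, ?_⟩
      · refine prod_mem fun β hβ => pow_mem (hM' b β _ ?_ ?_ (hr _)) _
        · rw [← eval_map_algebraMap]
          exact (hmemS b).mp hb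
        · rw [← eval_map_algebraMap]
          exact (hmemS β).mp (Finset.mem_filter.mp hβ).1
      · rw [← Finset.prod_pow]
        unfold PR8
        refine Finset.prod_congr rfl fun β _ => ?_
        rw [← pow_mul, mul_comm, pow_mul, hr]
    obtain ⟨r, hrM, hr⟩ := hroot b hb
    obtain ⟨r', hrM', hr'⟩ := hroot c hc
    have hq : (r ^ rmod8 ℓ (ε' c) * r' ^ rmod8 ℓ (-ε' b)) ^ ℓ = QR8 S p ε' ℓ b c := by
      unfold QR8
      rw [mul_pow, ← pow_mul, mul_comm (rmod8 ℓ (ε' c)), pow_mul, hr, ← pow_mul,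
        mul_comm (rmod8 ℓ (-ε' b)), pow_mul, hr']
    have hSK : ∀ b ∈ S, b ∈ (IntermediateField.adjoin K (S : Set F)).toSubfield := fun b hb =>
      IntermediateField.subset_adjoin K _ hb
    have hSK₀ : ∀ b ∈ S₀, b ∈ (IntermediateField.adjoin κ (S₀ : Set Fκ)).toSubfield := fun b hb =>
      IntermediateField.subset_adjoin κ _ hb
    have hmem := power_transfer8 (R := R) (κ := κ) hρ M B hB f hf hfθ hirr δ hδ hδ0 hℓ.ne_zero hζ
      hζ' (S : Set F) hSM (S₀ : Set Fκ) (fun z hz => by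
        obtain ⟨b, hb, rfl⟩ := hesurj z hz
        exact ⟨b, hb, he2 b (hSint b hb)⟩) hQRd (QR8_mem hSK₀ (he1 b hb) (he1 c hc)).2
      (QR8_mem hSK hb hc).1 (q := r ^ rmod8 ℓ (ε' c) * r' ^ rmod8 ℓ (-ε' b))
      (mul_mem (pow_mem hrM _) (pow_mem hrM' _)) hq hw hw1.symm
    refine ⟨_, hmem, ?_, by rw [hq, mul_one]⟩
    intro h0
    rw [h0, zero_pow hℓ.ne_zero] at hq
    exact (QR8_mem (p := p) (e := ε') (ℓ := ℓ) hSK hb hc).2 hq.symm

end Transfer

end Pool.Agent.Lib.MP_89bcae_ag
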