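import Mathlib
import Pool.Agent.Lib.MP_89bcae_ag.HilS8
import Pool.Agent.Lib.MP_89bcae_ag.HilE7
import Pool.Agent.Lib.MP_89bcae_ag.GenS8
import Pool.Agent.Lib.MP_89bcae_ag.DefsH7

/-!
# The arithmetic condition outside a thin set
-/

open Polynomial

open scoped Classical

set_option linter.unusedSimpArgs false
set_option linter.unusedVariables false
set_option linter.unusedSectionVars false
set_option linter.style.haveILetI false

namespace Pool.Agent.Lib.MP_89bcae_ag

universe u v

/-- The finite set of the roots and of the `ℓ`-th roots of their differences. -/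
theorem exists_TS8 {K F : Type*} [Field K] [Field F] [Algebra K F] [IsAlgClosed F]
    [Algebra.IsAlgebraic K F] {ℓ : ℕ} (hℓ : (ℓ : K) ≠ 0) {ζ : K} (hζ : IsPrimitiveRoot ζ ℓ)
    {G : K[X]} (hsep : G.Separable) :
    ∃ T : Finset F, (∀ x ∈ T, IsSeparable K x) ∧ ∀ M : IntermediateField K F, (∀ x ∈ T, x ∈ M) →
      (∀ b : F, aeval b G = 0 → b ∈ M) ∧
      ∀ b c r : F, aeval b G = 0 → aeval c G = 0 → r ^ ℓ = b - c → r ∈ M := by
  have hℓ0 : ℓ ≠ 0 := by
    rintro rfl
    exact hℓ Nat.cast_zero
  have hℓF : (ℓ : F) ≠ 0 := by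
    intro h0
    apply hℓ
    apply (algebraMap K F).injective
    rw [map_natCast, map_zero]
    exact h0
  have hG0 : G.map (algebraMap K F) ≠ 0 := Polynomial.map_ne_zero hsep.ne_zero
  set B : Finset F := (G.map (algebraMap K F)).roots.toFinset with hB
  have hmemB : ∀ b, b ∈ B ↔ aeval b G = 0 := by
    intro b
    rw [hB, Multiset.mem_toFinset, mem_roots hG0, IsRoot.def, eval_map_algebraMap]
  choose rt hrt using fun x : F => IsAlgClosed.exists_pow_nat_eq x (Nat.pos_of_ne_zero hℓ0)
  have hBsep : ∀ b ∈ B, b ∈ separableClosure K F := by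
    intro b hb
    rw [mem_separableClosure_iff]
    apply Separable.of_dvd hsep
    apply minpoly.dvd
    exact (hmemB b).mp hb
  have hrtsep : ∀ x ∈ separableClosure K F, IsSeparable K (rt x) := by
    intro x hxs
    by_cases hx0 : x = 0
    · have h3 : rt x = 0 := by
        have := hrt x
        rw [hx0] at this ⊢
        exact pow_eq_zero_iff hℓ0 |>.mp this
      rw [h3]
      exact mem_separableClosure_iff.mp (zero_mem _)
    · apply IsSeparable.of_algebra_isSeparable_of_isSeparable K (E := separableClosure K F)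
      have h3 : (X ^ ℓ - C (⟨x, hxs⟩ : separableClosure K F)).Separable := by
        apply separable_X_pow_sub_C
        · intro h4
          apply hℓF
          have h5 := congrArg (algebraMap (separableClosure K F) F) h4
          rw [map_natCast, map_zero] at h5
          exact h5
        · intro h4
          exact hx0 (congrArg Subtype.val h4)
      apply Separable.of_dvd h3
      apply minpoly.dvd
      rw [map_sub, map_pow, aeval_X, aeval_C, hrt]
      exact sub_self _
  refine ⟨B ∪ (B ×ˢ B).image fun p => rt (p.1 - p.2), ?_, fun M hM => ⟨?_, ?_⟩⟩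
  · intro x hx
    rw [Finset.mem_union] at hx
    rcases hx with hx | hx
    · exact mem_separableClosure_iff.mp (hBsep x hx)
    · rw [Finset.mem_image] at hx
      obtain ⟨⟨b, c⟩, hp, rfl⟩ := hx
      rw [Finset.mem_product] at hp
      exact hrtsep _ (sub_mem (hBsep b hp.1) (hBsep c hp.2))
  · intro b hb
    exact hM b (Finset.mem_union_left _ ((hmemB b).mpr hb))
  · intro b c r hb hc hr
    have h1 : rt (b - c) ∈ M := hM _ (Finset.mem_union_right _ (Finset.mem_image.mpr
      ⟨(b, c), Finset.mem_product.mpr ⟨(hmemB b).mpr hb, (hmemB c).mpr hc⟩, rfl⟩))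
    by_cases h0 : b - c = 0
    · rw [h0] at hr
      rw [pow_eq_zero_iff hℓ0 |>.mp hr]
      exact zero_mem M
    · have hrt0 : rt (b - c) ≠ 0 := by
        intro h2
        have h3 := hrt (b - c)
        rw [h2, zero_pow hℓ0] at h3
        exact h0 h3.symm
      have : NeZero ℓ := ⟨hℓ0⟩
      obtain ⟨i, -, hi⟩ := (hζ.map_of_injective (algebraMap K F).injective).eq_pow_of_pow_eq_one
        (ξ := r / rt (b - c)) (by rw [div_pow, hr, hrt, div_self h0])
      have h4 : r = algebraMap K F (ζ ^ i) * rt (b - c) := by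
        rw [map_pow, hi, div_mul_cancel₀ _ hrt0]
      rw [h4]
      exact M.mul_mem (M.algebraMap_mem _) h1

/-- The arithmetic condition at a point, from a normal local ring. -/
theorem indep_of_local8 {P : Type*} {K₀ F₀ : Type u} {R : Type*} {κ Fκ : Type v} [CommRing P]
    [Field K₀] [Algebra P K₀] [Field F₀]
    [Algebra K₀ F₀] [IsAlgClosed F₀] [Algebra.IsAlgebraic K₀ F₀] [CommRing R] [IsDomain R]
    [IsIntegrallyClosed R] [Algebra P R] [Algebra R K₀] [IsScalarTower P R K₀]
    [IsFractionRing R K₀] [Field κ] [Field Fκ] [Algebra κ Fκ] [IsAlgClosed Fκ]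
    [Algebra.IsAlgebraic κ Fκ] {π : P →+* κ} (π' : R →+* κ)
    (hπ' : Function.Surjective π') (hππ' : ∀ x, π' (algebraMap P R x) = π x)
    (hunit : ∀ x, π x ≠ 0 → IsUnit (algebraMap P R x)) {ℓ : ℕ} (hℓ : ℓ.Prime)
    (hℓκ : (ℓ : κ) ≠ 0) {ζ : P} (hζ : IsPrimitiveRoot (algebraMap P R ζ) ℓ) {g D : P[X]}
    (hg : g.Monic) (hdeg : 0 < g.natDegree) (hlc : π D.leadingCoeff ≠ 0)
    (hsep : ((D.comp g).map (algebraMap P K₀)).Separable)
    (hsepκ : ((D.comp g).map π).Separable)
    (hI : Sup.IsIndependent ℓ K₀ F₀ (g.map (algebraMap P K₀)) (D.map (algebraMap P K₀)))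
    (M : IntermediateField K₀ F₀) [FiniteDimensional K₀ M] [IsGalois K₀ M]
    (hM : ∀ b : F₀, aeval b ((D.comp g).map (algebraMap P K₀)) = 0 → b ∈ M)
    (hM' : ∀ b c r : F₀, aeval b ((D.comp g).map (algebraMap P K₀)) = 0 →
      aeval c ((D.comp g).map (algebraMap P K₀)) = 0 → r ^ ℓ = b - c → r ∈ M)
    (B : PowerBasis K₀ M) (f : P[X]) (hf : f.Monic)
    (hfθ : f.map (algebraMap P K₀) = minpoly K₀ B.gen) (hirr : Irreducible (f.map π)) (δ : P)
    (hδ : algebraMap P K₀ δ = Algebra.discr K₀ B.basis) (hδ0 : π δ ≠ 0) :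
    Sup.IsIndependent ℓ κ Fκ (g.map π) (D.map π) := by
  letI : Algebra R F₀ := ((algebraMap K₀ F₀).comp (algebraMap R K₀)).toAlgebra
  haveI hst : IsScalarTower R K₀ F₀ := IsScalarTower.of_algebraMap_eq fun _ => rfl
  have hcπ : π'.comp (algebraMap P R) = π := RingHom.ext hππ'
  have hmπ : ∀ p : P[X], (p.map (algebraMap P R)).map π' = p.map π := fun p => by
    rw [Polynomial.map_map, hcπ]
  have hmK : ∀ p : P[X], (p.map (algebraMap P R)).map (algebraMap R K₀) =
      p.map (algebraMap P K₀) := fun p => by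
    rw [Polynomial.map_map, ← IsScalarTower.algebraMap_eq]
  have hD0 : algebraMap P R D.leadingCoeff ≠ 0 := (hunit _ hlc).ne_zero
  have hlcR : (D.map (algebraMap P R)).leadingCoeff = algebraMap P R D.leadingCoeff :=
    leadingCoeff_map_of_leadingCoeff_ne_zero _ hD0
  have hcR : (D.map (algebraMap P R)).comp (g.map (algebraMap P R)) =
      (D.comp g).map (algebraMap P R) := (Polynomial.map_comp _ _ _).symm
  have hfR : aeval B.gen (f.map (algebraMap P R)) = 0 := by
    have h3 : aeval B.gen ((f.map (algebraMap P R)).map (algebraMap R K₀)) = 0 := by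
      rw [hmK, hfθ, minpoly.aeval]
    rwa [aeval_map_algebraMap] at h3
  have haev : ∀ b : F₀, aeval b ((D.map (algebraMap P R)).comp (g.map (algebraMap P R))) =
      aeval b ((D.comp g).map (algebraMap P K₀)) := fun b => by
    rw [hcR, ← hmK]
    exact (aeval_map_algebraMap K₀ b ((D.comp g).map (algebraMap P R))).symm
  have key := isIndependent_specialise8 (K := K₀) (F := F₀) (Fκ := Fκ) (π := π') hπ' hℓ hℓκ hζ
    (g := g.map (algebraMap P R)) (D := D.map (algebraMap P R)) (hg.map _)
    (by rw [hg.natDegree_map]; exact hdeg) (by rw [hlcR]; exact hunit _ hlc)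
    (by rw [hcR, hmK]; exact hsep) (by rw [hcR, hmπ]; exact hsepκ)
    (by rw [hmK, hmK]; exact hI) M
    (fun b hb => hM b (by rw [← haev]; exact hb))
    (fun b c r hb hc => hM' b c r (by rw [← haev]; exact hb) (by rw [← haev]; exact hc))
    B ⟨f.map (algebraMap P R), hf.map _, hfR⟩
    (f.map (algebraMap P R)) (hf.map _) hfR (by rw [hmπ]; exact hirr) (algebraMap P R δ)
    (by rw [← IsScalarTower.algebraMap_apply]; exact hδ) (by rw [hππ']; exact hδ0)
  rw [hmπ, hmπ] at key
  exact key

/-- **The arithmetic condition outside a thin set.** -/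
theorem hilbert_indep8 {ℓ : ℕ} (hℓ : ℓ.Prime) (k : Type u) [Field k] (h2 : (2 : k) ≠ 0)
    (hℓk : (ℓ : k) ≠ 0) {ζ : k} (hζ : IsPrimitiveRoot ζ ℓ) {g : k[X]} (hg : g.Monic)
    (hcop : g.natDegree.Coprime ℓ) (hg' : derivative g ≠ 0) {n : ℕ} (hn : 3 ≤ n) :
    ∃ (f : (MvPolynomial (Fin (n + 1)) k)[X]) (q : MvPolynomial (Fin (n + 1)) k),
      f.Monic ∧ Irreducible f ∧
      (f.map (algebraMap _ (FractionRing (MvPolynomial (Fin (n + 1)) k)))).Separable ∧ q ≠ 0 ∧
      ∀ a : Fin (n + 1) → k, MvPolynomial.eval a q ≠ 0 →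
        Irreducible (f.map (MvPolynomial.eval a)) →
        (coeffPoly7 a).natDegree = n ∧ ((coeffPoly7 a).comp g).Separable ∧
          ∀ (F : Type u) [Field F] [Algebra k F] [IsAlgClosure k F],
            Sup.IsIndependent ℓ k F g (coeffPoly7 a) := by
  haveI hICP : IsIntegrallyClosed (MvPolynomial (Fin (n + 1)) k) :=
    UniqueFactorizationMonoid.instIsIntegrallyClosed
  have hg0 : g.natDegree ≠ 0 := by
    intro h0
    apply hg'
    rw [eq_C_of_natDegree_eq_zero h0, derivative_C]
  -- the generic polynomial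
  have hKℓ : (ℓ : FractionRing (MvPolynomial (Fin (n + 1)) k)) ≠ 0 := by
    intro h0
    apply hℓk
    apply (algebraMap k (FractionRing (MvPolynomial (Fin (n + 1)) k))).injective
    rw [map_natCast, map_zero]
    exact h0
  obtain ⟨hsep, hI⟩ := isIndependent_generic8 hℓ k
    (FractionRing (MvPolynomial (Fin (n + 1)) k))
    (AlgebraicClosure (FractionRing (MvPolynomial (Fin (n + 1)) k))) h2 hn algInd_X7 adjoin_X7 hg
    hcop hg'
  set gP : (MvPolynomial (Fin (n + 1)) k)[X] :=
    g.map (algebraMap k (MvPolynomial (Fin (n + 1)) k)) with hgP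
  set DP : (MvPolynomial (Fin (n + 1)) k)[X] := polyOf8 (fun i => MvPolynomial.X i) with hDP
  have hgK : gP.map (algebraMap (MvPolynomial (Fin (n + 1)) k)
      (FractionRing (MvPolynomial (Fin (n + 1)) k))) =
      g.map (algebraMap k (FractionRing (MvPolynomial (Fin (n + 1)) k))) := by
    rw [hgP, Polynomial.map_map, ← IsScalarTower.algebraMap_eq]
  have hDK : DP.map (algebraMap (MvPolynomial (Fin (n + 1)) k)
      (FractionRing (MvPolynomial (Fin (n + 1)) k))) =
      polyOf8 (fun i => algebraMap (MvPolynomial (Fin (n + 1)) k)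
      (FractionRing (MvPolynomial (Fin (n + 1)) k)) (MvPolynomial.X i)) := by
    rw [hDP, polyOf_map8]
  rw [← hgK, ← hDK] at hsep hI
  have hgm : gP.Monic := hg.map _
  have hgd : gP.natDegree = g.natDegree := by rw [hgP, hg.natDegree_map]
  rw [← Polynomial.map_comp] at hsep
  have hζK : IsPrimitiveRoot (algebraMap k (FractionRing (MvPolynomial (Fin (n + 1)) k)) ζ) ℓ :=
    hζ.map_of_injective (algebraMap k _).injective
  obtain ⟨T, hT1, hT2⟩ := exists_TS8
    (F := AlgebraicClosure (FractionRing (MvPolynomial (Fin (n + 1)) k))) hKℓ hζK hsep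
  obtain ⟨M, i1, i2, B, f, δ, hTM, -, hf, hfm, hfirr, hδ0, hδ⟩ := exists_generator14
    (P := MvPolynomial (Fin (n + 1)) k) T hT1
  obtain ⟨c, hc0, hc⟩ := exists_sep_const7 hsep
  refine ⟨f, δ * c * MvPolynomial.X (Fin.last n), hf, ?_, ?_, ?_, ?_⟩
  · exact hf.irreducible_iff_irreducible_map_fraction_map.mpr hfirr
  · rw [hfm]
    exact Algebra.IsSeparable.isSeparable _ B.gen
  · exact mul_ne_zero (mul_ne_zero hδ0 hc0) (MvPolynomial.X_ne_zero _)
  intro a ha hirr
  rw [map_mul, map_mul, MvPolynomial.eval_X, mul_ne_zero_iff, mul_ne_zero_iff] at ha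
  obtain ⟨⟨ha1, ha2⟩, ha3⟩ := ha
  have hDa : DP.map (MvPolynomial.eval a) = coeffPoly7 a := by
    rw [hDP, polyOf_map8]
    simp only [MvPolynomial.eval_X]
    rfl
  have hga : gP.map (MvPolynomial.eval a) = g := by
    rw [hgP, Polynomial.map_map]
    have h3 : (MvPolynomial.eval a).comp (algebraMap k (MvPolynomial (Fin (n + 1)) k)) =
        RingHom.id k := by
      ext x
      rw [RingHom.comp_apply, MvPolynomial.algebraMap_eq, MvPolynomial.eval_C]
      rfl
    rw [h3, Polynomial.map_id]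
  have hdegD : (coeffPoly7 a).natDegree = n := by
    apply le_antisymm (natDegree_polyOf_le8 a)
    apply le_natDegree_of_ne_zero
    have h3 : (polyOf8 a).coeff n = a (Fin.last n) := coeff_polyOf8 a (Fin.last n)
    rw [h3]
    exact ha3
  have hdegP : DP.natDegree = n := by
    apply le_antisymm (natDegree_polyOf_le8 _)
    apply le_natDegree_of_ne_zero
    have h3 : DP.coeff n = MvPolynomial.X (Fin.last n) := coeff_polyOf8 _ (Fin.last n)
    rw [h3]
    exact MvPolynomial.X_ne_zero _
  have hlc : MvPolynomial.eval a DP.leadingCoeff ≠ 0 := by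
    have h3 : DP.coeff n = MvPolynomial.X (Fin.last n) := coeff_polyOf8 _ (Fin.last n)
    rw [leadingCoeff, hdegP, h3, MvPolynomial.eval_X]
    exact ha3
  have hsepa := hc (MvPolynomial.eval a) ha2
  have hcomp : (DP.comp gP).map (MvPolynomial.eval a) = (coeffPoly7 a).comp g := by
    rw [Polynomial.map_comp, hDa, hga]
  refine ⟨hdegD, by rw [← hcomp]; exact hsepa, ?_⟩
  intro F _ _ _
  have hF : IsAlgClosed F := IsAlgClosure.isAlgClosed k
  have hkF : Algebra.IsAlgebraic k F := IsAlgClosure.isAlgebraic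
  haveI hP : (RingHom.ker (MvPolynomial.eval a)).IsPrime := RingHom.ker_isPrime (MvPolynomial.eval a)
  obtain ⟨j1, j2, j3, j4, j5, π', hπ', hππ', hunit⟩ := exists_localization14
    (K₀ := FractionRing (MvPolynomial (Fin (n + 1)) k)) (MvPolynomial.eval a)
    (fun x => ⟨MvPolynomial.C x, MvPolynomial.eval_C x⟩)
    (Localization.AtPrime (RingHom.ker (MvPolynomial.eval a)))
  have hζR : IsPrimitiveRoot (algebraMap (MvPolynomial (Fin (n + 1)) k)
      (Localization.AtPrime (RingHom.ker (MvPolynomial.eval a))) (MvPolynomial.C ζ)) ℓ := by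
    have h5 : IsPrimitiveRoot (MvPolynomial.C ζ : MvPolynomial (Fin (n + 1)) k) ℓ :=
      hζ.map_of_injective (MvPolynomial.C_injective _ _)
    apply h5.map_of_injective
    exact IsLocalization.injective (M := (RingHom.ker (MvPolynomial.eval a)).primeCompl) _
      (Ideal.primeCompl_le_nonZeroDivisors _)
  obtain ⟨hM1, hM2⟩ := hT2 M hTM
  have key := indep_of_local8 (K₀ := FractionRing (MvPolynomial (Fin (n + 1)) k))
    (F₀ := AlgebraicClosure (FractionRing (MvPolynomial (Fin (n + 1)) k))) (Fκ := F) π' hπ' hππ'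
    hunit hℓ hℓk hζR hgm (by rw [hgd]; omega) hlc hsep hsepa hI M hM1 hM2 B f hf hfm hirr δ hδ ha1
  rw [hga, hDa] at key
  exact key

end Pool.Agent.Lib.MP_89bcae_ag
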