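import Mathlib
import Pool.Agent.Lib.MP_89bcae_ag.Char8
import Pool.Agent.Lib.MP_89bcae_ag.BaseF
import Pool.Agent.Lib.MP_89bcae_ag.SelB8
import Pool.Agent.Lib.MP_89bcae_ag.DefsF

section LocT69Part

/-!
# Halving of points on `y² = x(x² + ax + b)` over a discretely valued field
-/

open Polynomial WeierstrassCurve WeierstrassCurve.Affine

open scoped Classical

namespace Pool.Agent.Lib.MP_89bcae_ag

set_option linter.unusedSectionVars false

section Halving

variable {K : Type*} [Field K] {W : WeierstrassCurve.Affine K}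

/-- Explicit halving of a point on `y² = x(x² + ax + b)`. -/
lemma exists_half_of_sqrt (hW : Short W) (h6 : W.a₆ = 0) (h2 : (2 : K) ≠ 0) (hb : W.a₄ ≠ 0)
    (hd : W.a₂ ^ 2 - 4 * W.a₄ ≠ 0) {X Y s t u : K} (h : W.Nonsingular X Y) (hs : s ^ 2 = X)
    (ht : t ^ 2 = X ^ 2 + W.a₂ * X + W.a₄) (hY : Y = s * t) (hu : u ^ 2 = W.a₂ + 2 * X + 2 * t) :
    ∃ Q : W.Point, 2 • Q = .some X Y h := by
  have hu0 : u ≠ 0 := by
    rintro rfl
    apply hd
    have h1 : W.a₂ = -(2 * X + 2 * t) := by linear_combination -hu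
    linear_combination (W.a₂ + 2 * X - 2 * t) * (by linear_combination -hu : W.a₂ + 2 * X + 2 * t = 0)
      + 4 * ht
  set x := X + t + s * u with hx
  set y := u * x with hy
  have h7 : x ^ 2 - 2 * (X + t) * x + W.a₄ = 0 := by
    rw [hx]
    linear_combination X * hu - ht + u ^ 2 * hs
  have hx0 : x ≠ 0 := by
    intro h0
    apply hb
    rw [h0] at h7
    linear_combination h7
  have hy0 : y ≠ 0 := mul_ne_zero hu0 hx0
  have heq : y ^ 2 = x ^ 3 + W.a₂ * x ^ 2 + W.a₄ * x := by
    rw [hy]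
    linear_combination x ^ 2 * hu - x * h7
  have hQ : W.Nonsingular x y := by
    rw [W.nonsingular_iff x y, Affine.equation_iff, hW.a₁, hW.a₃, h6]
    refine ⟨by linear_combination heq, Or.inr ?_⟩
    intro h0; apply hy0
    have : 2 * y = 0 := by linear_combination h0
    exact (mul_eq_zero.mp this).resolve_left h2
  refine ⟨.some x y hQ, ?_⟩
  have hne : y ≠ W.negY x y := by
    rw [hW.negY]; intro h1
    have : 2 * y = 0 := by linear_combination h1
    exact hy0 ((mul_eq_zero.mp this).resolve_left h2)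
  have hslope : W.slope x x y y = u + s := by
    rw [Affine.slope_of_Y_ne rfl hne, hW.negY, hW.a₁]
    have : y - -y = 2 * y := by ring
    rw [this, div_eq_iff (mul_ne_zero h2 hy0), hy]
    linear_combination h7 - 2 * x * hu + (2 * x) * (by rw [hx] : x = X + t + s * u)
  have hX : W.addX x x (u + s) = X := by
    rw [Affine.addX, hW.a₁, hx]
    linear_combination hu + hs
  have hY' : W.addY x x y (u + s) = Y := by
    rw [Affine.addY, Affine.negAddY, hX, hW.negY, hY, hy, hx]
    linear_combination u * hs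
  rw [two_nsmul, Affine.Point.add_self_of_Y_ne hne]
  simp only [hslope, hX, hY']

/-- The point `(0, 0)` on `y² = x(x² + ax + b)`. -/
lemma nonsingular_zero (hW : Short W) (h6 : W.a₆ = 0) (hb : W.a₄ ≠ 0) : W.Nonsingular 0 0 :=
  hW.nonsingular_of_rt (by rw [Rt, h6]; ring) (by simpa using hb)

/-- Translation by `(0, 0)`. -/
lemma add_zero_zero (hW : Short W) (h6 : W.a₆ = 0) (hb : W.a₄ ≠ 0) {X Y : K}
    (h : W.Nonsingular X Y) (hX : X ≠ 0) :
    ∃ h', (.some X Y h + .some 0 0 (nonsingular_zero hW h6 hb) : W.Point) =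
      .some (W.a₄ / X) (-(W.a₄ * Y / X ^ 2)) h' := by
  have heq := hW.equation h.1
  rw [h6, add_zero] at heq
  have hns := Affine.nonsingular_add h (nonsingular_zero hW h6 hb) (fun hxy => hX hxy.1)
  rw [Affine.Point.add_of_X_ne hX]
  have hs : W.slope X 0 Y 0 = Y / X := by
    rw [Affine.slope_of_X_ne hX, sub_zero, sub_zero]
  have hx : W.addX X 0 (Y / X) = W.a₄ / X := by
    rw [Affine.addX, hW.a₁]
    field_simp
    linear_combination heq
  have hy : W.addY X 0 Y (Y / X) = -(W.a₄ * Y / X ^ 2) := by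
    rw [Affine.addY, Affine.negAddY, hx, hW.negY]
    field_simp
    ring
  rw [hs, hx, hy] at hns
  refine ⟨hns, ?_⟩
  simp only [hs, hx, hy]

end Halving

section LocalHalving

variable {K : Type*} [Field K] {w : Valuation K (WithZero (Multiplicative ℤ))}
  {W : WeierstrassCurve.Affine K}

/-- A discretely valued field of residue characteristic different from two whose units are
squares. -/
structure SqUnit (w : Valuation K (WithZero (Multiplicative ℤ))) : Prop where
  two : w 2 = 1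
  sqrt : ∀ x : K, w x = 1 → ∃ r, r ^ 2 = x
  unif : ∃ π, w π = WithZero.exp (-1 : ℤ)

lemma SqUnit.two_ne (hw : SqUnit w) : (2 : K) ≠ 0 := ne_zero_of_val_one w hw.two

lemma SqUnit.exists_sqrt (hw : SqUnit w) {x : K} (hx : x ≠ 0) (h : Even (lg w x)) :
    ∃ r, r ^ 2 = x := by
  obtain ⟨π, hπ⟩ := hw.unif
  exact exists_sqrt_of_even w hπ hw.sqrt hx h

lemma lg_le_zero_of {x : K} (hx : x ≠ 0) (h : w x ≤ 1) : lg w x ≤ 0 := by
  by_contra hcon
  push Not at hcon
  have h1 : lg w 1 < lg w x := by rw [lg_one]; exact hcon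
  rw [lg_lt w one_ne_zero hx, map_one] at h1
  exact absurd h (not_le.mpr h1)

/-- The first case of the criterion of divisibility by two. -/
lemma SqUnit.exists_half_aux (hw : SqUnit w) (hW : Short W) (h6 : W.a₆ = 0) (ha : w W.a₂ ≤ 1)
    (hb : W.a₄ ≠ 0)
    (hd : w (W.a₂ ^ 2 - 4 * W.a₄) = 1 ∨ w (W.a₂ ^ 2 - 4 * W.a₄) = WithZero.exp (-1 : ℤ))
    {X Y s t : K} (h : W.Nonsingular X Y) (hs : s ^ 2 = X)
    (ht : t ^ 2 = X ^ 2 + W.a₂ * X + W.a₄) (hY : Y = s * t) :
    ∃ Q : W.Point, 2 • Q = .some X Y h := by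
  have hd0 : W.a₂ ^ 2 - 4 * W.a₄ ≠ 0 := by
    intro h0
    rw [h0, map_zero] at hd
    rcases hd with h1 | h1
    · exact zero_ne_one h1
    · exact WithZero.exp_ne_zero h1.symm
  have hprod : (W.a₂ + 2 * X + 2 * t) * (W.a₂ + 2 * X + 2 * (-t)) = W.a₂ ^ 2 - 4 * W.a₄ := by
    linear_combination -4 * ht
  have hne := mul_ne_zero_iff.mp (hprod ▸ hd0)
  have hsum : lg w (W.a₂ + 2 * X + 2 * t) + lg w (W.a₂ + 2 * X + 2 * (-t)) =
      lg w (W.a₂ ^ 2 - 4 * W.a₄) := by
    rw [← lg_mul w hne.1 hne.2, hprod]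
  -- one of the two factors has even valuation
  have key : Even (lg w (W.a₂ + 2 * X + 2 * t)) ∨ Even (lg w (W.a₂ + 2 * X + 2 * (-t))) := by
    by_contra hcon
    rw [not_or, Int.not_even_iff_odd, Int.not_even_iff_odd] at hcon
    obtain ⟨o1, o2⟩ := hcon
    have hlgd : lg w (W.a₂ ^ 2 - 4 * W.a₄) = 0 := by
      rcases hd with h1 | h1
      · exact lg_eq_zero_of w h1
      · exfalso
        have h3 : lg w (W.a₂ ^ 2 - 4 * W.a₄) = -1 := by
          unfold lg
          rw [h1, WithZero.log_exp]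
        rw [h3] at hsum
        have := o1.add_odd o2
        rw [hsum] at this
        exact absurd this (by decide)
    rw [hlgd] at hsum
    -- the valuation of `a + 2X` is odd and negative
    have aux : ∀ A B : K, A ≠ 0 → B ≠ 0 → A + B = 2 * (W.a₂ + 2 * X) → lg w A + lg w B = 0 →
        Odd (lg w A) → 0 < lg w A → False := by
      intro A B hA hB hAB hlg hodd hpos
      obtain ⟨n1, e1⟩ := lg_add_of_lt w hB hA (by omega)
      have h4 : (2 : K) ≠ 0 := hw.two_ne
      have h4lg : lg w (2 : K) = 0 := lg_eq_zero_of w hw.two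
      have e2 : lg w (2 * (W.a₂ + 2 * X)) = lg w A := by rw [← hAB, add_comm A B, e1]
      have n2 : 2 * (W.a₂ + 2 * X) ≠ 0 := by rw [← hAB, add_comm]; exact n1
      have n3 : W.a₂ + 2 * X ≠ 0 := right_ne_zero_of_mul n2
      rw [lg_mul w h4 n3, h4lg, zero_add] at e2
      by_cases hX : X = 0
      · rw [hX, mul_zero, add_zero] at e2 n3
        have := lg_le_zero_of n3 ha
        omega
      · have e3 : lg w (2 * X) = lg w X := by rw [lg_mul w h4 hX, h4lg, zero_add]
        have e4 : lg w (2 * X) = lg w A := by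
          have e5 : 2 * X = -W.a₂ + (W.a₂ + 2 * X) := by ring
          by_cases ha0 : W.a₂ = 0
          · rw [ha0, zero_add] at e2
            exact e2
          · have h5 := lg_le_zero_of ha0 ha
            rw [e5, (lg_add_of_lt w (neg_ne_zero.mpr ha0) n3 (by rw [lg_neg]; omega)).2, e2]
        rw [e3, ← hs, lg_pow] at e4
        rw [← e4] at hodd
        push_cast at hodd
        exact absurd (even_two_mul _) (Int.not_even_iff_odd.mpr hodd)
    have hA : (W.a₂ + 2 * X + 2 * t) + (W.a₂ + 2 * X + 2 * (-t)) = 2 * (W.a₂ + 2 * X) := by ring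
    rcases lt_trichotomy 0 (lg w (W.a₂ + 2 * X + 2 * t)) with h1 | h1 | h1
    · exact aux _ _ hne.1 hne.2 hA hsum o1 h1
    · rw [← h1] at o1
      exact absurd o1 (by decide)
    · exact aux _ _ hne.2 hne.1 (by rw [add_comm]; exact hA) (by omega) o2 (by omega)
  rcases key with h1 | h1
  · obtain ⟨u, hu⟩ := hw.exists_sqrt hne.1 h1
    exact exists_half_of_sqrt hW h6 hw.two_ne hb hd0 h hs ht hY hu
  · obtain ⟨u, hu⟩ := hw.exists_sqrt hne.2 h1
    exact exists_half_of_sqrt hW h6 hw.two_ne hb hd0 (s := -s) (t := -t) h (by rw [neg_sq, hs])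
      (by rw [neg_sq, ht]) (by rw [hY]; ring) hu

/-- A point `(X, Y)`, `X ≠ 0`, is divisible by two if `X` has even valuation. -/
lemma SqUnit.exists_half (hw : SqUnit w) (hW : Short W) (h6 : W.a₆ = 0) (ha : w W.a₂ ≤ 1)
    (hb : W.a₄ ≠ 0)
    (hd : w (W.a₂ ^ 2 - 4 * W.a₄) = 1 ∨ w (W.a₂ ^ 2 - 4 * W.a₄) = WithZero.exp (-1 : ℤ))
    {X Y : K} (h : W.Nonsingular X Y) (hX : X ≠ 0) (hev : Even (lg w X)) :
    ∃ Q : W.Point, 2 • Q = .some X Y h := by
  obtain ⟨s, hs⟩ := hw.exists_sqrt hX hev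
  have hs0 : s ≠ 0 := by
    rintro rfl
    exact hX (by rw [← hs]; ring)
  have heq := hW.equation h.1
  rw [h6, add_zero] at heq
  refine hw.exists_half_aux hW h6 ha hb hd h hs (t := Y / s) ?_ (by field_simp)
  rw [div_pow, hs, div_eq_iff hX, heq]
  ring

/-- At a place where `b` is a unit and `a² - 4b` has valuation at most one, all points are
divisible by two. -/
theorem SqUnit.divisible (hw : SqUnit w) (hW : Short W) (h6 : W.a₆ = 0) (ha : w W.a₂ ≤ 1)
    (hb : w W.a₄ = 1)
    (hd : w (W.a₂ ^ 2 - 4 * W.a₄) = 1 ∨ w (W.a₂ ^ 2 - 4 * W.a₄) = WithZero.exp (-1 : ℤ))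
    (P : W.Point) : ∃ Q : W.Point, 2 • Q = P := by
  rcases P with _ | ⟨X, Y, h⟩
  · exact ⟨0, by simp [← Affine.Point.zero_def]⟩
  have hb0 := ne_zero_of_val_one w hb
  have heq := hW.equation h.1
  rw [h6, add_zero] at heq
  by_cases hX : X = 0
  · subst hX
    have hY : Y = 0 := by
      have : Y ^ 2 = 0 := by rw [heq]; ring
      exact pow_eq_zero_iff two_ne_zero |>.mp this
    subst hY
    obtain ⟨t, ht⟩ := hw.sqrt _ hb
    exact hw.exists_half_aux hW h6 ha hb0 hd h (s := 0) (t := t) (by ring) (by rw [ht]; ring)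
      (by ring)
  · refine hw.exists_half hW h6 ha hb0 hd h hX (even_lg_of_eq w hX ha hb (Y := Y) ?_)
    rw [heq]; ring

/-- At a place where `b` is a uniformizer and `a² - 4b` is a unit, the point `(0, 0)` generates the
points modulo two. -/
theorem SqUnit.divisible_or (hw : SqUnit w) (hW : Short W) (h6 : W.a₆ = 0) (ha : w W.a₂ ≤ 1)
    (hb : w W.a₄ = WithZero.exp (-1 : ℤ)) (hb0 : W.a₄ ≠ 0)
    (hd : w (W.a₂ ^ 2 - 4 * W.a₄) = 1) (P : W.Point) :
    (∃ Q : W.Point, 2 • Q = P) ∨
      ∃ Q : W.Point, 2 • Q = P + .some 0 0 (nonsingular_zero hW h6 hb0) := by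
  rcases P with _ | ⟨X, Y, h⟩
  · exact Or.inl ⟨0, by simp [← Affine.Point.zero_def]⟩
  have heq := hW.equation h.1
  rw [h6, add_zero] at heq
  by_cases hX : X = 0
  · subst hX
    have hY : Y = 0 := by
      have : Y ^ 2 = 0 := by rw [heq]; ring
      exact pow_eq_zero_iff two_ne_zero |>.mp this
    subst hY
    right
    refine ⟨0, ?_⟩
    rw [smul_zero, (add_self_eq_zero_iff hW hw.two_ne h).mpr rfl]
  · rcases Int.even_or_odd (lg w X) with he | ho
    · exact Or.inl (hw.exists_half hW h6 ha hb0 (Or.inl hd) h hX he)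
    · right
      obtain ⟨h', e⟩ := add_zero_zero hW h6 hb0 h hX
      rw [e]
      apply hw.exists_half hW h6 ha hb0 (Or.inl hd) h' (div_ne_zero hb0 hX)
      have h1 : lg w (W.a₄ / X) + lg w X = lg w W.a₄ := by
        rw [← lg_mul w (div_ne_zero hb0 hX) hX, div_mul_cancel₀ _ hX]
      have h3 : lg w W.a₄ = -1 := by
        unfold lg
        rw [hb, WithZero.log_exp]
      have h4 : lg w (W.a₄ / X) = -1 - lg w X := by omega
      rw [h4]
      exact (by decide : Odd (-1 : ℤ)).sub_odd ho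

/-- At a place where `b` is a uniformizer, the point `(0, 0)` is not divisible by two. -/
theorem SqUnit.not_divisible (hw : SqUnit w) (hW : Short W) (h6 : W.a₆ = 0)
    (hb : w W.a₄ = WithZero.exp (-1 : ℤ)) {Q : W.Point} {h : W.Nonsingular 0 0}
    (hQ : 2 • Q = .some 0 0 h) : False := by
  rcases Q with _ | ⟨x, y, hxy⟩
  · rw [← Affine.Point.zero_def, smul_zero] at hQ
    exact Affine.Point.some_ne_zero _ hQ.symm
  have hy : y ≠ 0 := by
    intro hy0
    rw [two_nsmul, (add_self_eq_zero_iff hW hw.two_ne hxy).mpr hy0] at hQ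
    exact Affine.Point.some_ne_zero _ hQ.symm
  have hr := rho_sq hW hw.two_ne (e := 0) (by rw [Rt, h6]; ring) hxy hy
  have hne : y ≠ W.negY x y := by
    rw [hW.negY]
    intro h1
    have : 2 * y = 0 := by linear_combination h1
    rcases mul_eq_zero.mp this with h3 | h3
    · exact hw.two_ne h3
    · exact hy h3
  rw [two_nsmul, Affine.Point.add_self_of_Y_ne hne] at hQ
  simp only [Affine.Point.some.injEq] at hQ
  rw [hQ.1, sub_zero, pow_eq_zero_iff two_ne_zero, rho_some, if_neg hy, div_eq_zero_iff] at hr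
  have h1 : x ^ 2 = W.a₄ := by
    rcases hr with h2 | h2
    · linear_combination h2
    · exact absurd h2 (mul_ne_zero hw.two_ne hy)
  have h3 := congrArg (lg w) h1
  have h4 : lg w W.a₄ = -1 := by
    unfold lg
    rw [hb, WithZero.log_exp]
  rw [lg_pow, h4] at h3
  push_cast at h3
  omega

end LocalHalving

end Pool.Agent.Lib.MP_89bcae_ag

end LocT69Part

section LocM69Part

/-!
# The local Galois module of points of `y² = x(x² + ax + b)`
-/

open Polynomial WeierstrassCurve WeierstrassCurve.Affine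

open scoped Classical

namespace Pool.Agent.Lib.MP_89bcae_ag

set_option linter.unusedSectionVars false

section MGroup

variable {R Lv M : Type*} [CommRing R] [Field Lv] [Field M] [Algebra Lv M] [Algebra R Lv]
  [Algebra R M] [IsScalarTower R Lv M] [IsGalois Lv M] {W : Affine R}

variable (Lv) in
/-- The point `Q` is rational over `Lv`. -/
def RatPt (Q : (W.baseChange M).Point) : Prop :=
  ∀ g : M ≃ₐ[Lv] M, Point.map (W' := W) (g : M →ₐ[Lv] M) Q = Q

lemma ratPt_map (P : (W.baseChange Lv).Point) :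
    RatPt Lv (Point.map (W' := W) (Algebra.ofId Lv M) P) := by
  intro g
  rcases P with _ | ⟨x, y, h⟩
  · rfl
  · rw [Point.map_some, Point.map_some]
    simp only [Point.some.injEq]
    exact ⟨g.commutes x, g.commutes y⟩

lemma RatPt.exists {Q : (W.baseChange M).Point} (hQ : RatPt Lv Q) :
    ∃ P : (W.baseChange Lv).Point, Point.map (W' := W) (Algebra.ofId Lv M) P = Q :=
  exists_point_of_fixed8 (F := Lv) (W := W) Q hQ

lemma RatPt.add {Q Q' : (W.baseChange M).Point} (hQ : RatPt Lv Q) (hQ' : RatPt Lv Q') :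
    RatPt Lv (Q + Q') := fun g => by rw [map_add, hQ, hQ']

lemma RatPt.neg {Q : (W.baseChange M).Point} (hQ : RatPt Lv Q) :
    RatPt Lv (-Q) := fun g => by rw [map_neg, hQ]

lemma RatPt.sub {Q Q' : (W.baseChange M).Point} (hQ : RatPt Lv Q) (hQ' : RatPt Lv Q') :
    RatPt Lv (Q - Q') := fun g => by rw [map_sub, hQ, hQ']

lemma ratPt_zero : RatPt Lv (0 : (W.baseChange M).Point) := fun _ => map_zero _

lemma RatPt.of_isTF {Q : (W.baseChange M).Point} (hQ : IsTF Q) : RatPt Lv Q := by
  obtain ⟨h, rfl⟩ := hQ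
  intro g
  rw [Point.map_some]
  simp only [Point.some.injEq]
  exact ⟨map_zero _, map_zero _⟩

end MGroup

section TF

variable {K : Type*} [Field K] {V : Affine K}

lemma IsTF.ne_zero {Q : V.Point} (hQ : IsTF Q) : Q ≠ 0 := by
  obtain ⟨h, rfl⟩ := hQ
  exact Point.some_ne_zero _

lemma IsTF.eq {Q Q' : V.Point} (hQ : IsTF Q) (hQ' : IsTF Q') : Q = Q' := by
  obtain ⟨h, rfl⟩ := hQ
  obtain ⟨h', rfl⟩ := hQ'
  rfl

lemma IsTF.two (hV : Short V) (h2 : (2 : K) ≠ 0) {Q : V.Point} (hQ : IsTF Q) : 2 • Q = 0 := by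
  obtain ⟨h, rfl⟩ := hQ
  rw [two_nsmul]
  exact (add_self_eq_zero_iff hV h2 h).mpr rfl

lemma IsTF.neg (hV : Short V) (h2 : (2 : K) ≠ 0) {Q : V.Point} (hQ : IsTF Q) : IsTF (-Q) := by
  have h := hQ.two hV h2
  rw [two_nsmul] at h
  rw [neg_eq_of_add_eq_zero_left h]
  exact hQ

lemma IsTF.a₄_ne (hV : Short V) {Q : V.Point} (hQ : IsTF Q) : V.a₄ ≠ 0 := by
  obtain ⟨h, -⟩ := hQ
  have := hV.deriv_ne h
  intro h0
  apply this
  rw [h0]; ring

/-- A point of order two on which `rho 0` is one is `0` or `(0, 0)`. -/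
lemma isTF_of_rho (hV : Short V) (h2 : (2 : K) ≠ 0) {Q : V.Point} (hQ : 2 • Q = 0)
    (hr : rho 0 Q = 1) : Q = 0 ∨ IsTF Q := by
  rcases (two_torsion_iff hV h2 Q).mp hQ with h | ⟨e, h, he, rfl⟩
  · exact Or.inl h
  · right
    rw [rho_two_torsion] at hr
    by_cases h0 : e = 0
    · subst h0
      exact ⟨h, rfl⟩
    · rw [if_neg h0] at hr
      exfalso
      apply h2
      linear_combination -hr

lemma rho_isTF {Q : V.Point} (hQ : IsTF Q) : rho 0 Q = 1 := by
  obtain ⟨h, rfl⟩ := hQ
  rw [rho_two_torsion, if_pos rfl]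

/-- The first coordinate of a half of `(0, 0)`. -/
lemma exists_of_half (hV : Short V) (h6 : V.a₆ = 0) (h2 : (2 : K) ≠ 0) {Q : V.Point}
    (hQ : IsTF (2 • Q)) : ∃ x y h, Q = .some x y h ∧ x ^ 2 = V.a₄ := by
  obtain ⟨h, hQ⟩ := hQ
  rcases Q with _ | ⟨x, y, hxy⟩
  · rw [← Affine.Point.zero_def, smul_zero] at hQ
    exact absurd hQ.symm (Affine.Point.some_ne_zero _)
  refine ⟨x, y, hxy, rfl, ?_⟩
  have hy : y ≠ 0 := by
    intro hy0
    rw [two_nsmul, (add_self_eq_zero_iff hV h2 hxy).mpr hy0] at hQ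
    exact Affine.Point.some_ne_zero _ hQ.symm
  have hr := rho_sq hV h2 (e := 0) (by rw [Rt, h6]; ring) hxy hy
  have hne : y ≠ V.negY x y := by
    rw [hV.negY]
    intro h1
    have : 2 * y = 0 := by linear_combination h1
    rcases mul_eq_zero.mp this with h3 | h3
    · exact h2 h3
    · exact hy h3
  rw [two_nsmul, Affine.Point.add_self_of_Y_ne hne] at hQ
  simp only [Affine.Point.some.injEq] at hQ
  rw [hQ.1, sub_zero, pow_eq_zero_iff two_ne_zero, rho_some, if_neg hy, div_eq_zero_iff] at hr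
  rcases hr with h3 | h3
  · linear_combination h3
  · exact absurd h3 (mul_ne_zero h2 hy)

end TF

section MFacts

variable {R Lv M : Type*} [CommRing R] [Field Lv] [Field M] [Algebra Lv M] [Algebra R Lv]
  [Algebra R M] [IsScalarTower R Lv M] [IsGalois Lv M] {W : Affine R}
  {w : Valuation Lv (WithZero (Multiplicative ℤ))}

/-- The curve over `Lv` is `y² = x(x² + ax + b)` with `a`, `b` integral and `a² - 4b`, `b` of
valuation at most one and not both of valuation one. -/
structure IsLv69 (W : Affine R) (w : Valuation Lv (WithZero (Multiplicative ℤ))) : Prop where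
  sq : SqUnit w
  short : Short (W.baseChange Lv)
  a₆ : (W.baseChange Lv).a₆ = 0
  a₂ : w (W.baseChange Lv).a₂ ≤ 1

lemma short_up (h : Short (W.baseChange Lv)) : Short (W.baseChange M) where
  a₁ := by
    have h1 : algebraMap R Lv W.a₁ = 0 := h.a₁
    change algebraMap R M W.a₁ = 0
    rw [IsScalarTower.algebraMap_apply R Lv M, h1, map_zero]
  a₃ := by
    have h1 : algebraMap R Lv W.a₃ = 0 := h.a₃
    change algebraMap R M W.a₃ = 0
    rw [IsScalarTower.algebraMap_apply R Lv M, h1, map_zero]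

lemma a₆_up (h : (W.baseChange Lv).a₆ = 0) : (W.baseChange M).a₆ = 0 := by
  change algebraMap R M W.a₆ = 0
  rw [IsScalarTower.algebraMap_apply R Lv M, show algebraMap R Lv W.a₆ = 0 from h, map_zero]

lemma a₄_up : (W.baseChange M).a₄ = algebraMap Lv M (W.baseChange Lv).a₄ := by
  change algebraMap R M W.a₄ = algebraMap Lv M (algebraMap R Lv W.a₄)
  rw [IsScalarTower.algebraMap_apply R Lv M]

lemma a₂_up : (W.baseChange M).a₂ = algebraMap Lv M (W.baseChange Lv).a₂ := by
  change algebraMap R M W.a₂ = algebraMap Lv M (algebraMap R Lv W.a₂)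
  rw [IsScalarTower.algebraMap_apply R Lv M]

lemma IsLv69.two_ne (h : IsLv69 W w) : (2 : M) ≠ 0 := by
  intro h0
  apply h.sq.two_ne
  apply (algebraMap Lv M).injective
  rw [map_ofNat, h0, map_zero]

lemma ofId_isTF {P : (W.baseChange Lv).Point} (hP : IsTF P) :
    IsTF (Point.map (W' := W) (Algebra.ofId Lv M) P) := by
  obtain ⟨h, rfl⟩ := hP
  have e : Point.map (W' := W) (Algebra.ofId Lv M) (.some 0 0 h) =
    .some ((Algebra.ofId Lv M) 0) ((Algebra.ofId Lv M) 0) _ := Point.map_some _ _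
  rw [e]
  simp only [map_zero]
  exact ⟨_, rfl⟩

/-- Divisibility by two at a place at which `b` is a unit. -/
lemma IsLv69.divis (h : IsLv69 W w) (hb : w (W.baseChange Lv).a₄ = 1)
    (hd : w ((W.baseChange Lv).a₂ ^ 2 - 4 * (W.baseChange Lv).a₄) = 1 ∨
      w ((W.baseChange Lv).a₂ ^ 2 - 4 * (W.baseChange Lv).a₄) = WithZero.exp (-1 : ℤ))
    {Q : (W.baseChange M).Point} (hQ : RatPt Lv Q) :
    ∃ Q' : (W.baseChange M).Point, RatPt Lv Q' ∧ 2 • Q' = Q := by
  obtain ⟨P, rfl⟩ := hQ.exists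
  obtain ⟨P', rfl⟩ := h.sq.divisible h.short h.a₆ h.a₂ hb hd P
  exact ⟨_, ratPt_map P', by rw [map_nsmul]⟩

/-- Divisibility by two at a place at which `b` is a uniformizer. -/
lemma IsLv69.divis_or (h : IsLv69 W w) (hb : w (W.baseChange Lv).a₄ = WithZero.exp (-1 : ℤ))
    (hd : w ((W.baseChange Lv).a₂ ^ 2 - 4 * (W.baseChange Lv).a₄) = 1)
    {Q : (W.baseChange M).Point} (hQ : RatPt Lv Q) :
    ∃ Q' : (W.baseChange M).Point, RatPt Lv Q' ∧ (2 • Q' = Q ∨ IsTF (2 • Q' - Q)) := by
  obtain ⟨P, rfl⟩ := hQ.exists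
  have hb0 : (W.baseChange Lv).a₄ ≠ 0 := by
    intro h0
    rw [h0, map_zero] at hb
    exact WithZero.exp_ne_zero hb.symm
  rcases h.sq.divisible_or h.short h.a₆ h.a₂ hb hb0 hd P with ⟨P', rfl⟩ | ⟨P', hP'⟩
  · exact ⟨_, ratPt_map P', Or.inl (by rw [map_nsmul])⟩
  · refine ⟨_, ratPt_map P', Or.inr ?_⟩
    rw [← map_nsmul, ← map_sub, hP', add_sub_cancel_left]
    exact ofId_isTF ⟨_, rfl⟩

/-- Points of order two are rational if `a² - 4b` is a unit. -/
lemma IsLv69.two_rat (h : IsLv69 W w)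
    (hd : w ((W.baseChange Lv).a₂ ^ 2 - 4 * (W.baseChange Lv).a₄) = 1)
    {Q : (W.baseChange M).Point} (hQ : 2 • Q = 0) : RatPt Lv Q := by
  rcases (two_torsion_iff (short_up h.short) h.two_ne Q).mp hQ with rfl | ⟨e, he, hRt, rfl⟩
  · exact ratPt_zero
  · obtain ⟨r, hr⟩ := h.sq.sqrt _ hd
    have h1 : e = 0 ∨ e ^ 2 + (W.baseChange M).a₂ * e + (W.baseChange M).a₄ = 0 := by
      rw [Rt, a₆_up h.a₆] at hRt
      have : e * (e ^ 2 + (W.baseChange M).a₂ * e + (W.baseChange M).a₄) = 0 := by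
        linear_combination hRt
      exact mul_eq_zero.mp this
    obtain ⟨e₀, he₀⟩ : ∃ e₀ : Lv, algebraMap Lv M e₀ = e := by
      rcases h1 with h1 | h1
      · exact ⟨0, by rw [map_zero, h1]⟩
      · rw [a₂_up (Lv := Lv), a₄_up (Lv := Lv)] at h1
        set a := (W.baseChange Lv).a₂ with ha
        set b := (W.baseChange Lv).a₄ with hb
        have h2 : (2 * e + algebraMap Lv M a - algebraMap Lv M r) *
            (2 * e + algebraMap Lv M a + algebraMap Lv M r) = 0 := by
          have hr' := congrArg (algebraMap Lv M) hr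
          simp only [map_pow, map_sub, map_mul, map_ofNat] at hr'
          linear_combination 4 * h1 - hr'
        have h20 := h.two_ne (M := M)
        have h2L := h.sq.two_ne
        rcases mul_eq_zero.mp h2 with h3 | h3
        · refine ⟨(r - a) / 2, ?_⟩
          rw [map_div₀, map_sub, map_ofNat, div_eq_iff h20]
          linear_combination -h3
        · refine ⟨(-r - a) / 2, ?_⟩
          rw [map_div₀, map_sub, map_neg, map_ofNat, div_eq_iff h20]
          linear_combination -h3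
    subst he₀
    intro g
    rw [Point.map_some]
    simp only [Point.some.injEq]
    exact ⟨g.commutes e₀, map_zero _⟩

/-- There is no half of `(0, 0)` which is rational modulo `(0, 0)`, if `b` is a uniformizer. -/
lemma IsLv69.no_half (h : IsLv69 W w) (hb : w (W.baseChange Lv).a₄ = WithZero.exp (-1 : ℤ))
    {Z : (W.baseChange M).Point} (hZ : IsTF (2 • Z))
    (hg : ∀ g : M ≃ₐ[Lv] M, Point.map (W' := W) (g : M →ₐ[Lv] M) Z - Z = 0 ∨
      IsTF (Point.map (W' := W) (g : M →ₐ[Lv] M) Z - Z)) : False := by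
  obtain ⟨x, y, hxy, rfl, hx⟩ := exists_of_half (short_up h.short) (a₆_up h.a₆) h.two_ne hZ
  have hb0M : (W.baseChange M).a₄ ≠ 0 := by
    rw [a₄_up (Lv := Lv), Ne, map_eq_zero]
    intro h0
    rw [h0, map_zero] at hb
    exact WithZero.exp_ne_zero hb.symm
  have hx0 : x ≠ 0 := by
    rintro rfl
    apply hb0M
    rw [← hx]; ring
  have hfix : ∀ g : M ≃ₐ[Lv] M, g x = x := by
    intro g
    rcases hg g with h1 | h1
    · have h3 := sub_eq_zero.mp h1
      rw [Point.map_some] at h3
      simp only [Point.some.injEq] at h3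
      exact h3.1
    · obtain ⟨h', h1⟩ := h1
      have h3 : Point.map (W' := W) (g : M →ₐ[Lv] M) (.some x y hxy) =
          .some x y hxy + .some 0 0 h' := by rw [← h1]; abel
      obtain ⟨h'', h4⟩ := add_zero_zero (short_up h.short) (a₆_up h.a₆) hb0M hxy hx0
      rw [h4, Point.map_some] at h3
      simp only [Point.some.injEq] at h3
      have h5 := h3.1
      change g x = _ at h5
      rw [h5, ← hx]
      field_simp
  obtain ⟨x₀, hx₀⟩ := exists_of_fixed (F := Lv) (x := x) hfix
  have h1 : x₀ ^ 2 = (W.baseChange Lv).a₄ := by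
    apply (algebraMap Lv M).injective
    rw [map_pow, hx₀, hx, a₄_up (Lv := Lv)]
  have h3 := congrArg (lg w) h1
  have h4 : lg w (W.baseChange Lv).a₄ = -1 := by
    unfold lg
    rw [hb, WithZero.log_exp]
  rw [lg_pow, h4] at h3
  push_cast at h3
  omega

/-- A half of a rational point which is rational modulo `(0, 0)` is rational. -/
lemma IsLv69.rat_of_half (h : IsLv69 W w) (hb : w (W.baseChange Lv).a₄ = WithZero.exp (-1 : ℤ))
    (hd : w ((W.baseChange Lv).a₂ ^ 2 - 4 * (W.baseChange Lv).a₄) = 1)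
    {Q : (W.baseChange M).Point} (hQ : RatPt Lv (2 • Q))
    (hg : ∀ g : M ≃ₐ[Lv] M, Point.map (W' := W) (g : M →ₐ[Lv] M) Q - Q = 0 ∨
      IsTF (Point.map (W' := W) (g : M →ₐ[Lv] M) Q - Q)) : RatPt Lv Q := by
  obtain ⟨P, hP, h1⟩ := h.divis_or hb hd hQ
  rcases h1 with h1 | h1
  · have h3 : RatPt Lv (Q - P) := h.two_rat hd (by rw [smul_sub, h1, sub_self])
    have h4 := h3.add hP
    rwa [sub_add_cancel] at h4
  · exfalso
    apply h.no_half hb (Z := P - Q) (by rw [smul_sub]; exact h1)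
    intro g
    have h3 : Point.map (W' := W) (g : M →ₐ[Lv] M) (P - Q) - (P - Q) =
        -(Point.map (W' := W) (g : M →ₐ[Lv] M) Q - Q) := by
      rw [map_sub, hP]
      abel
    rw [h3]
    rcases hg g with h4 | h4
    · exact Or.inl (by rw [h4, neg_zero])
    · exact Or.inr (h4.neg (short_up h.short) h.two_ne)

/-- A quarter of a rational point whose double is rational modulo `(0, 0)`. -/
lemma IsLv69.exists_quarter (h : IsLv69 W w)
    (hb : w (W.baseChange Lv).a₄ = WithZero.exp (-1 : ℤ))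
    (hd : w ((W.baseChange Lv).a₂ ^ 2 - 4 * (W.baseChange Lv).a₄) = 1)
    {Q : (W.baseChange M).Point} (hQ : RatPt Lv (4 • Q))
    (hg : ∀ g : M ≃ₐ[Lv] M, 2 • (Point.map (W' := W) (g : M →ₐ[Lv] M) Q - Q) = 0 ∨
      IsTF (2 • (Point.map (W' := W) (g : M →ₐ[Lv] M) Q - Q))) :
    RatPt Lv (2 • Q) ∧ ∃ P : (W.baseChange M).Point, RatPt Lv P ∧
      (2 • (Q - P) = 0 ∨ IsTF (2 • (Q - P))) := by
  have h1 : RatPt Lv (2 • Q) := by
    apply h.rat_of_half hb hd
    · rw [← mul_smul]; exact hQ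
    · intro g
      have := hg g
      rwa [smul_sub, ← map_nsmul] at this
  obtain ⟨P, hP, h3⟩ := h.divis_or hb hd h1
  refine ⟨h1, P, hP, ?_⟩
  rcases h3 with h3 | h3
  · left
    rw [smul_sub, h3, sub_self]
  · right
    have h5 := h3.neg (short_up h.short) h.two_ne
    rwa [neg_sub, ← smul_sub] at h5

end MFacts

section Tower

variable {k F L Ω : Type*} [Field k] [Field F] [Algebra k F] [Algebra.IsAlgebraic k F]
  [IsAlgClosed F] [Field L] [Field Ω]
  [Algebra F[X] L] [IsFractionRing F[X] L] [Algebra L Ω] [Algebra F[X] Ω] [IsScalarTower F[X] L Ω]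
  [Algebra k[X] L] [Algebra k[X] Ω] [IsScalarTower k[X] L Ω]
  [IsGalois L Ω] [IsSepClosed Ω] [IsSepClosure L Ω]
  {hk : ∀ p : k[X], algebraMap k[X] L p = algebraMap F[X] L (p.map (algebraMap k F))}
  {Lv M : Type*} [Field Lv] [Field M] [Algebra L Lv] [Algebra Lv M] [Algebra L M]
  [IsScalarTower L Lv M] [Algebra F[X] Lv] [Algebra F[X] M]
  [IsScalarTower F[X] L Lv] [IsScalarTower F[X] L M] [IsScalarTower F[X] Lv M]
  [Algebra k[X] Lv] [Algebra k[X] M] [IsScalarTower k[X] L Lv] [IsScalarTower k[X] L M]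
  [IsScalarTower k[X] Lv M] [IsGalois Lv M]
  {W : Affine k[X]} {w : Valuation Lv (WithZero (Multiplicative ℤ))} {j : Ω →ₐ[L] M}
  {α : F}

variable (Lv) in
/-- The restriction of the cocycle `c` to the decomposition group is the coboundary of `Q`. -/
def IsCob69 (j : Ω →ₐ[L] M) (c : (Ω ≃ₐ[L] Ω) → (W.baseChange Ω).Point)
    (Q : (W.baseChange M).Point) : Prop :=
  ∀ (σ : M ≃ₐ[Lv] M) (σ' : Ω ≃ₐ[L] Ω), (∀ x, j (σ' x) = σ (j x)) →
    Point.map (W' := W) j (c σ') = Point.map (W' := W) (σ : M →ₐ[Lv] M) Q - Q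

lemma exists_res69 (j : Ω →ₐ[L] M) (σ : M ≃ₐ[Lv] M) :
    ∃ σ' : Ω ≃ₐ[L] Ω, ∀ x, j (σ' x) = σ (j x) :=
  exists_restrict (F := L) j (σ.restrictScalars L)

lemma map_inj69 (j : Ω →ₐ[L] M) {P : (W.baseChange Ω).Point}
    (h : Point.map (W' := W) j P = 0) : P = 0 := by
  rcases P with _ | ⟨x, y, hxy⟩
  · rfl
  · rw [Point.map_some] at h
    exact absurd h (Point.some_ne_zero _)

lemma map_isTF69 (j : Ω →ₐ[L] M) {P : (W.baseChange Ω).Point} :
    IsTF (Point.map (W' := W) j P) ↔ IsTF P := by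
  constructor
  · rintro ⟨h, h'⟩
    rcases P with _ | ⟨x, y, hxy⟩
    · exact absurd h'.symm (Point.some_ne_zero _)
    · rw [Point.map_some] at h'
      simp only [Point.some.injEq] at h'
      obtain ⟨hx, hy⟩ := h'
      have hx' : x = 0 := by
        have : j x = 0 := hx
        rwa [map_eq_zero] at this
      have hy' : y = 0 := by
        have : j y = 0 := hy
        rwa [map_eq_zero] at this
      subst hx' hy'
      exact ⟨hxy, rfl⟩
  · rintro ⟨h, rfl⟩
    have e : Point.map (W' := W) j (.some 0 0 h) = .some (j 0) (j 0) _ := Point.map_some _ _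
    rw [e]
    simp only [map_zero]
    exact ⟨_, rfl⟩

lemma IsCob69.rat {c : (Ω ≃ₐ[L] Ω) → (W.baseChange Ω).Point} {Q : (W.baseChange M).Point}
    (hQ : IsCob69 Lv j c Q) {n : ℕ} (hc : ∀ σ, n • c σ = 0) : RatPt Lv (n • Q) := by
  intro σ
  obtain ⟨σ', hσ'⟩ := exists_res69 j σ
  have h := congrArg (fun P => n • P) (hQ σ σ' hσ')
  rw [← map_nsmul, hc, map_zero, smul_sub, ← map_nsmul] at h
  exact sub_eq_zero.mp h.symm

lemma IsCob69.eq_zero {c : (Ω ≃ₐ[L] Ω) → (W.baseChange Ω).Point} {Q : (W.baseChange M).Point}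
    (hQ : IsCob69 Lv j c Q) (hr : RatPt Lv Q) (σ : M ≃ₐ[Lv] M) (σ' : Ω ≃ₐ[L] Ω)
    (hσ : ∀ x, j (σ' x) = σ (j x)) : c σ' = 0 := by
  apply map_inj69 j
  rw [hQ σ σ' hσ, hr, sub_self]

/-- A character which is trivial on the decomposition group at `α` is unramified at `α`. -/
lemma charF_local (hover : IsOver w α) {χ : (Ω ≃ₐ[L] Ω) → Ω} {S : Finset F} {s : Ω}
    (hs : IsCharF χ S s)
    (h1 : ∀ (σ : M ≃ₐ[Lv] M) (σ' : Ω ≃ₐ[L] Ω), (∀ x, j (σ' x) = σ (j x)) → χ σ' = 1) :
    α ∉ S ∧ ∃ y : Lv, algebraMap Lv M y = j s ∧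
      y ^ 2 = algebraMap F[X] Lv (∏ a ∈ S, (X - C a)) := by
  obtain ⟨y, hy⟩ := exists_of_fixed (F := Lv) (x := j s) (by
    intro σ
    obtain ⟨σ', hσ'⟩ := exists_res69 j σ
    rw [← hσ', hs.act, h1 σ σ' hσ', one_mul])
  have hy2 : y ^ 2 = algebraMap F[X] Lv (∏ a ∈ S, (X - C a)) := by
    apply (algebraMap Lv M).injective
    rw [map_pow, hy, ← map_pow, hs.sq, prodF, algHom_algebraMap_poly,
      ← IsScalarTower.algebraMap_apply]
  refine ⟨fun hα => ?_, y, hy, hy2⟩
  have h3 : ∀ a : F, a ≠ α → w (algebraMap F[X] Lv X - algebraMap F[X] Lv (C a)) = 1 := by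
    intro a ha
    rw [← map_sub]
    apply hover.unit
    rw [eval_sub, eval_X, eval_C]
    exact sub_ne_zero.mpr (Ne.symm ha)
  have h4 : w (algebraMap F[X] Lv X - algebraMap F[X] Lv (C α)) = WithZero.exp (-1 : ℤ) := by
    rw [← map_sub]; exact hover.unif
  have h5 := (lg_root_prod w h4 h3 S).2
  rw [if_pos hα] at h5
  have h6 := congrArg (lg w) hy2
  rw [lg_pow, map_prod] at h6
  simp only [map_sub] at h6
  rw [h5] at h6
  push_cast at h6
  omega

/-- The effect of a lift of `τ` on the square root of `∏ (t - a)`. -/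
lemma charF_moves (hover : IsOver w α) (h2F : (2 : F) ≠ 0) {τ : F ≃ₐ[k] F} {φ : Lv ≃+* Lv}
    (hφ : ∀ x : L, φ (algebraMap L Lv x) = algebraMap L Lv (coefL L (τ : F ≃+* F) x))
    (hφv : ∀ x, w (φ x) = w x) {γ : Ω ≃ₐ[k[X]] Ω}
    (hγ : ∀ p : F[X], γ (algebraMap F[X] Ω p) = algebraMap F[X] Ω (p.map (τ : F →+* F)))
    {U : M ≃+* M} (hU : ∀ x : Lv, U (algebraMap Lv M x) = algebraMap Lv M (φ x))
    (hγU : ∀ x, j (γ x) = U (j x)) {χ : (Ω ≃ₐ[L] Ω) → Ω} {S : Finset F} {s : Ω}
    (hs : IsCharF χ S s) (hS : ∀ a ∈ S, τ a = a) (hα : α ∉ S) {y : Lv}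
    (hy : algebraMap Lv M y = j s) (hy2 : y ^ 2 = algebraMap F[X] Lv (∏ a ∈ S, (X - C a))) :
    γ s = s ↔ ¬ Moves (τ : F →+* F) (∏ a ∈ S, (α - a)) := by
  have hc : (∏ a ∈ S, (α - a)) ≠ 0 := by
    rw [Finset.prod_ne_zero_iff]
    intro a ha h0
    rw [sub_eq_zero.mp h0] at hα
    exact hα ha
  have hcg : Cg w (y ^ 2) (∏ a ∈ S, (α - a)) := by
    rw [hy2]
    have := Cg.poly hover (∏ a ∈ S, (X - C a))
    rw [eval_prod] at this
    simpa using this
  have haux := moves_iff_aux hover h2F (τ := (τ : F →+* F)) (γK := φ) (fun a => by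
    rw [IsScalarTower.algebraMap_apply F[X] L Lv, hφ, coefL_algebraMap,
      ← IsScalarTower.algebraMap_apply, map_C]
    rfl) hφv hc hcg
  have hγs : j (γ s) = algebraMap Lv M (φ y) := by rw [hγU, ← hy, hU]
  have hsq : γ s ^ 2 = s ^ 2 := by
    rw [← map_pow, hs.sq, prodF, hγ, Polynomial.map_prod]
    congr 1
    apply Finset.prod_congr rfl
    intro a ha
    rw [Polynomial.map_sub, Polynomial.map_X, Polynomial.map_C]
    congr 2
    exact hS a ha
  have hor : γ s = s ∨ γ s = -s := by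
    have h3 : (γ s - s) * (γ s + s) = 0 := by linear_combination hsq
    rcases mul_eq_zero.mp h3 with h4 | h4
    · exact Or.inl (sub_eq_zero.mp h4)
    · exact Or.inr (by linear_combination h4)
  have hfix : γ s = s → φ y = y := by
    intro h
    apply (algebraMap Lv M).injective
    rw [← hγs, h, hy]
  have hneg : γ s = -s → φ y = -y := by
    intro h
    apply (algebraMap Lv M).injective
    rw [← hγs, h, map_neg, map_neg, hy]
  constructor
  · intro h
    exact haux.1 (hfix h)
  · intro h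
    rcases hor with h1 | h1
    · exact h1
    · exact absurd (haux.2 (hneg h1)) h

/-- The conjugate of a local coboundary. -/
lemma IsCob69.conj {c : (Ω ≃ₐ[L] Ω) → (W.baseChange Ω).Point} {Q : (W.baseChange M).Point}
    (hQ : IsCob69 Lv j c Q) {φ : Lv ≃+* Lv} {γ : Ω ≃ₐ[k[X]] Ω} {U : M ≃ₐ[k[X]] M}
    (hU : ∀ x : Lv, U (algebraMap Lv M x) = algebraMap Lv M (φ x))
    (hγU : ∀ x, j (γ x) = U (j x)) :
    IsCob69 Lv j (fun σ => Point.map (W' := W) (γ : Ω →ₐ[k[X]] Ω) (c (cj hk γ σ)))
      (Point.map (W' := W) (U : M →ₐ[k[X]] M) Q) := by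
  intro σ σ' hσ
  -- the conjugate of `σ`
  let s : M ≃ₐ[Lv] M := AlgEquiv.ofRingEquiv
    (f := (U.toRingEquiv.trans σ.toRingEquiv).trans U.symm.toRingEquiv) (by
    intro y
    change U.symm (σ (U (algebraMap Lv M y))) = algebraMap Lv M y
    rw [hU, σ.commutes, ← hU, AlgEquiv.symm_apply_apply])
  have hs : ∀ x, U (s x) = σ (U x) := fun x => by
    change U (U.symm (σ (U x))) = _
    rw [AlgEquiv.apply_symm_apply]
  have hss : ∀ x, j (cj hk γ σ' x) = s (j x) := by
    intro x
    apply U.injective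
    rw [← hγU, cj_spec, hσ, hs, hγU]
  have h1 := hQ s (cj hk γ σ') hss
  have e1 : Point.map (W' := W) j (Point.map (W' := W) (γ : Ω →ₐ[k[X]] Ω) (c (cj hk γ σ'))) =
      Point.map (W' := W) (U : M →ₐ[k[X]] M) (Point.map (W' := W) j (c (cj hk γ σ'))) := by
    rcases c (cj hk γ σ') with _ | ⟨x, y, hxy⟩
    · rfl
    · rw [Point.map_some, Point.map_some, Point.map_some, Point.map_some]
      simp only [Point.some.injEq]
      exact ⟨hγU x, hγU y⟩
  have e2 : Point.map (W' := W) (U : M →ₐ[k[X]] M) (Point.map (W' := W) (s : M →ₐ[Lv] M) Q) =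
      Point.map (W' := W) (σ : M →ₐ[Lv] M) (Point.map (W' := W) (U : M →ₐ[k[X]] M) Q) := by
    rcases Q with _ | ⟨x, y, hxy⟩
    · rfl
    · rw [Point.map_some, Point.map_some, Point.map_some, Point.map_some]
      simp only [Point.some.injEq]
      exact ⟨hs x, hs y⟩
  rw [e1, h1, map_sub, e2]

/-- A cocycle of order two is locally the coboundary of a point of order two at a place at which
`b` is a unit. -/
lemma IsLv69.exists_two (h : IsLv69 W w)
    (hb : w (W.baseChange Lv).a₄ = 1)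
    (hd : w ((W.baseChange Lv).a₂ ^ 2 - 4 * (W.baseChange Lv).a₄) = 1 ∨
      w ((W.baseChange Lv).a₂ ^ 2 - 4 * (W.baseChange Lv).a₄) = WithZero.exp (-1 : ℤ))
    {c : (Ω ≃ₐ[L] Ω) → (W.baseChange Ω).Point} (hc : ∀ σ, 2 • c σ = 0)
    {Q : (W.baseChange M).Point} (hQ : IsCob69 Lv j c Q) :
    ∃ V : (W.baseChange M).Point, 2 • V = 0 ∧ IsCob69 Lv j c V := by
  obtain ⟨P, hP, h1⟩ := h.divis hb hd (hQ.rat hc)
  have hV2 : 2 • (Q - P) = 0 := by rw [smul_sub, h1, sub_self]
  refine ⟨Q - P, hV2, ?_⟩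
  intro σ σ' hσ
  rw [hQ σ σ' hσ, map_sub, hP]
  abel

/-- First descent at a place at which the class comes from a point of order two. -/
lemma IsLv69.root_local (h : IsLv69 W w) (hover : IsOver w α)
    {c : (Ω ≃ₐ[L] Ω) → (W.baseChange Ω).Point}
    {V : (W.baseChange M).Point} (hV2 : 2 • V = 0) (hcob : IsCob69 Lv j c V)
    {S : Finset F} {s : Ω}
    (hs : IsCharF (fun σ : Ω ≃ₐ[L] Ω => rho 0 (c σ)) S s) :
    α ∉ S ∧ ∃ y : Lv, algebraMap Lv M y = j s ∧
      y ^ 2 = algebraMap F[X] Lv (∏ a ∈ S, (X - C a)) := by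
  have hsh : Short (W.baseChange M) := short_up h.short
  have h2M : (2 : M) ≠ 0 := h.two_ne
  refine charF_local (j := j) hover hs ?_
  intro σ σ' hσ
  have h3 := hcob σ σ' hσ
  -- the sign of `σ V - V`
  have h4 : rho 0 (Point.map (W' := W) (σ : M →ₐ[Lv] M) V) = rho 0 V := by
    have h5 := rho_map (W' := W) (σ : M →ₐ[Lv] M) 0 V
    rw [map_zero] at h5
    rw [h5]
    rcases rho_two_torsion_sq hsh h2M 0 hV2 with h6 | h6 <;> rw [h6]
    · exact map_one _
    · rw [map_neg, map_one]
  have h5 : j (rho 0 (c σ')) = 1 := by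
    have h6 := rho_map (W' := W) j 0 (c σ')
    rw [map_zero] at h6
    rw [← h6, h3, sub_eq_add_neg]
    have hn : -V = V := by
      rw [two_nsmul] at hV2
      exact neg_eq_of_add_eq_zero_left hV2
    rw [hn, rho_add hsh h2M (by rw [Rt, a₆_up h.a₆]; ring) _ _ hV2, h4]
    exact rho_two_torsion_mul_self hsh h2M 0 hV2
  apply j.injective
  change j (rho 0 (c σ')) = j 1
  rw [h5, map_one]

/-- Second descent at a place of good reduction. -/
lemma IsLv69.root'_good (h : IsLv69 W w) (hover : IsOver w α)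
    (hb : w (W.baseChange Lv).a₄ = 1)
    (hd : w ((W.baseChange Lv).a₂ ^ 2 - 4 * (W.baseChange Lv).a₄) = 1)
    {c : (Ω ≃ₐ[L] Ω) → (W.baseChange Ω).Point} (hc : ∀ σ, 2 • c σ = 0)
    {Q : (W.baseChange M).Point} (hQ : IsCob69 Lv j c Q) {S : Finset F} {s : Ω}
    (hs : IsCharF (fun σ : Ω ≃ₐ[L] Ω => psiF (c σ)) S s) : α ∉ S := by
  obtain ⟨P, hP, h1⟩ := h.divis hb (Or.inl hd) (hQ.rat hc)
  have hV : RatPt Lv (Q - P) := h.two_rat hd (by rw [smul_sub, h1, sub_self])
  have hQr : RatPt Lv Q := by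
    have := hV.add hP
    rwa [sub_add_cancel] at this
  refine (charF_local (j := j) hover hs ?_).1
  intro σ σ' hσ
  rw [psiF, if_pos (hQ.eq_zero hQr σ σ' hσ)]

/-- A cocycle with values in the subgroup generated by `(0, 0)` is trivial on the decomposition
group at a place at which `b` is a uniformizer. -/
lemma IsLv69.zero_of_isTF (h : IsLv69 W w)
    (hb : w (W.baseChange Lv).a₄ = WithZero.exp (-1 : ℤ))
    (hd : w ((W.baseChange Lv).a₂ ^ 2 - 4 * (W.baseChange Lv).a₄) = 1)
    {c : (Ω ≃ₐ[L] Ω) → (W.baseChange Ω).Point} (hsh : Short (W.baseChange Ω))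
    (h2Ω : (2 : Ω) ≠ 0) (hc : ∀ σ, c σ = 0 ∨ IsTF (c σ))
    {Q : (W.baseChange M).Point} (hQ : IsCob69 Lv j c Q) : RatPt Lv Q := by
  have hc2 : ∀ σ, 2 • c σ = 0 := by
    intro σ
    rcases hc σ with h1 | h1
    · rw [h1, smul_zero]
    · exact h1.two hsh h2Ω
  apply h.rat_of_half hb hd (hQ.rat hc2)
  intro σ
  obtain ⟨σ', hσ'⟩ := exists_res69 j σ
  rw [← hQ σ σ' hσ', map_isTF69]
  rcases hc σ' with h1 | h1
  · left
    rw [h1, map_zero]
  · exact Or.inr h1

/-- The difference between a point of order two and its image under an automorphism. -/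
lemma diff_two69 (hsh : Short (W.baseChange M)) (h6 : (W.baseChange M).a₆ = 0) (h2 : (2 : M) ≠ 0)
    (U : M ≃ₐ[k[X]] M) {V : (W.baseChange M).Point} (hV : 2 • V = 0) :
    Point.map (W' := W) (U : M →ₐ[k[X]] M) V - V = 0 ∨
      IsTF (Point.map (W' := W) (U : M →ₐ[k[X]] M) V - V) := by
  have hUV : 2 • Point.map (W' := W) (U : M →ₐ[k[X]] M) V = 0 := by
    rw [← map_nsmul, hV, map_zero]
  apply isTF_of_rho hsh h2
  · rw [smul_sub, hV, hUV, sub_zero]
  · have hn : -V = V := by
      rw [two_nsmul] at hV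
      exact neg_eq_of_add_eq_zero_left hV
    have h4 : rho 0 (Point.map (W' := W) (U : M →ₐ[k[X]] M) V) = rho 0 V := by
      have h5 := rho_map (W' := W) (U : M →ₐ[k[X]] M) 0 V
      rw [map_zero] at h5
      rw [h5]
      rcases rho_two_torsion_sq hsh h2 0 hV with h6 | h6 <;> rw [h6]
      · exact map_one _
      · rw [map_neg, map_one]
    rw [sub_eq_add_neg, hn, rho_add hsh h2 (by rw [Rt, h6]; ring) _ _ hV, h4]
    exact rho_two_torsion_mul_self hsh h2 0 hV

lemma IsCob69.sub {c c' : (Ω ≃ₐ[L] Ω) → (W.baseChange Ω).Point} {Q Q' : (W.baseChange M).Point}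
    (hQ : IsCob69 Lv j c Q) (hQ' : IsCob69 Lv j c' Q') :
    IsCob69 Lv j (fun σ => c σ - c' σ) (Q - Q') := by
  intro σ σ' hσ
  rw [map_sub, hQ σ σ' hσ, hQ' σ σ' hσ, map_sub]
  abel

/-- The formula at a place at which `b` is a unit. -/
lemma IsLv69.beta_local (h : IsLv69 W w) (hover : IsOver w α)
    {U : M ≃ₐ[k[X]] M}
    {c c' : (Ω ≃ₐ[L] Ω) → (W.baseChange Ω).Point}
    {V : (W.baseChange M).Point} (hV : 2 • V = 0) (hQ : IsCob69 Lv j c V)
    (hQ' : IsCob69 Lv j c' (Point.map (W' := W) (U : M →ₐ[k[X]] M) V))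
    {S : Finset F} {s : Ω}
    (hs : IsCharF (fun σ : Ω ≃ₐ[L] Ω => psiF (c' σ - c σ)) S s) : α ∉ S := by
  have hr : RatPt Lv (Point.map (W' := W) (U : M →ₐ[k[X]] M) V - V) := by
    rcases diff_two69 (short_up h.short) (a₆_up h.a₆) h.two_ne U hV with h1 | h1
    · rw [h1]; exact ratPt_zero
    · exact RatPt.of_isTF h1
  refine (charF_local (j := j) hover hs ?_).1
  intro σ σ' hσ
  have h3 := (hQ'.sub hQ).eq_zero hr σ σ' hσ
  change psiF (c' σ' - c σ') = 1
  rw [psiF, if_pos h3]

/-- The structure of a cocycle whose double has values in the subgroup generated by `(0, 0)`, at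
a place at which `b` is a uniformizer. -/
lemma IsLv69.alpha_local (h : IsLv69 W w)
    (hb : w (W.baseChange Lv).a₄ = WithZero.exp (-1 : ℤ))
    (hd : w ((W.baseChange Lv).a₂ ^ 2 - 4 * (W.baseChange Lv).a₄) = 1)
    {c : (Ω ≃ₐ[L] Ω) → (W.baseChange Ω).Point} (hsh : Short (W.baseChange Ω))
    (h2Ω : (2 : Ω) ≠ 0) (hc : ∀ σ, 2 • c σ = 0 ∨ IsTF (2 • c σ))
    {Q : (W.baseChange M).Point} (hQ : IsCob69 Lv j c Q) :
    ∃ V : (W.baseChange M).Point, IsCob69 Lv j c V ∧ RatPt Lv (2 • V) ∧
      (2 • V = 0 ∨ IsTF (2 • V)) := by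
  have hc4 : ∀ σ, 4 • c σ = 0 := by
    intro σ
    have h4 : 4 • c σ = 2 • (2 • c σ) := by rw [show (4 : ℕ) = 2 * 2 from rfl, mul_smul]
    rw [h4]
    rcases hc σ with h1 | h1
    · rw [h1, smul_zero]
    · exact h1.two hsh h2Ω
  obtain ⟨h1, P, hP, h3⟩ := h.exists_quarter hb hd (hQ.rat hc4) (by
    intro σ
    obtain ⟨σ', hσ'⟩ := exists_res69 j σ
    rw [← hQ σ σ' hσ', ← map_nsmul, map_isTF69]
    rcases hc σ' with h4 | h4
    · left
      rw [h4, map_zero]
    · exact Or.inr h4)
  refine ⟨Q - P, ?_, ?_, h3⟩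
  · intro σ σ' hσ
    rw [hQ σ σ' hσ, map_sub, hP]
    abel
  · rcases h3 with h3 | h3
    · rw [h3]; exact ratPt_zero
    · exact RatPt.of_isTF h3

lemma map_isTF_U69 (U : M ≃ₐ[k[X]] M) {P : (W.baseChange M).Point} (hP : IsTF P) :
    Point.map (W' := W) (U : M →ₐ[k[X]] M) P = P := by
  obtain ⟨h, rfl⟩ := hP
  rw [Point.map_some]
  simp only [Point.some.injEq]
  exact ⟨map_zero _, map_zero _⟩

/-- The formula at a place at which `b` is a uniformizer. -/
lemma IsLv69.alpha_local' (h : IsLv69 W w) (hover : IsOver w α)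
    (hd : w ((W.baseChange Lv).a₂ ^ 2 - 4 * (W.baseChange Lv).a₄) = 1)
    {U : M ≃ₐ[k[X]] M}
    {c c' : (Ω ≃ₐ[L] Ω) → (W.baseChange Ω).Point}
    {V : (W.baseChange M).Point} (hV : 2 • V = 0 ∨ IsTF (2 • V)) (hQ : IsCob69 Lv j c V)
    (hQ' : IsCob69 Lv j c' (Point.map (W' := W) (U : M →ₐ[k[X]] M) V))
    {S : Finset F} {s : Ω}
    (hs : IsCharF (fun σ : Ω ≃ₐ[L] Ω => rho 0 (c' σ - c σ)) S s) : α ∉ S := by
  have h2 : 2 • (Point.map (W' := W) (U : M →ₐ[k[X]] M) V - V) = 0 := by
    rw [smul_sub, ← map_nsmul]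
    rcases hV with h1 | h1
    · rw [h1, map_zero, sub_zero]
    · rw [map_isTF_U69 U h1, sub_self]
  have hr := h.two_rat hd h2
  refine (charF_local (j := j) hover hs ?_).1
  intro σ σ' hσ
  have h3 := (hQ'.sub hQ).eq_zero hr σ σ' hσ
  change rho 0 (c' σ' - c σ') = 1
  rw [h3, rho_zero]

end Tower

end Pool.Agent.Lib.MP_89bcae_ag

end LocM69Part

section LocAx69Part

/-!
# The local conditions at the finite places form a Selmer structure (any Weierstrass equation)
-/

open Polynomial WeierstrassCurve WeierstrassCurve.Affine IsDedekindDomain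

open scoped Classical

namespace Pool.Agent.Lib.MP_89bcae_ag

set_option linter.unusedSectionVars false
set_option linter.style.haveILetI false

universe u

section

variable {k F L Ω : Type*} [Field k] [Field F] [Algebra k F] [Algebra.IsAlgebraic k F]
  [IsAlgClosed F] [Field L] [Field Ω]
  [Algebra F[X] L] [IsFractionRing F[X] L] [Algebra L Ω] [Algebra F[X] Ω] [IsScalarTower F[X] L Ω]
  [Algebra k[X] L] [Algebra k[X] Ω] [IsScalarTower k[X] L Ω]
  [IsGalois L Ω] [IsSepClosed Ω] [IsSepClosure L Ω]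

variable (hk : ∀ p : k[X], algebraMap k[X] L p = algebraMap F[X] L (p.map (algebraMap k F)))

/-- The formal properties of the local conditions. -/
structure LocAx (W : Affine k[X])
    (LT : ((Ω ≃ₐ[L] Ω) → (W.baseChange Ω).Point) → Prop) : Prop where
  add : ∀ c c', LT c → LT c' → LT (c + c')
  neg : ∀ c, LT c → LT (-c)
  cob : ∀ q : (W.baseChange Ω).Point,
    LT (fun σ : Ω ≃ₐ[L] Ω => Point.map (W' := W) (σ : Ω →ₐ[L] Ω) q - q)
  conj : ∀ (γ : Ω ≃ₐ[k[X]] Ω) (c : (Ω ≃ₐ[L] Ω) → (W.baseChange Ω).Point), LT c →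
    LT (fun σ => Point.map (W' := W) (γ : Ω →ₐ[k[X]] Ω) (c (cj hk γ σ)))

end

section Ax

variable {k F L Ω : Type u} [Field k] [Field F] [Algebra k F] [Algebra.IsAlgebraic k F]
  [IsAlgClosed F] [Field L] [Algebra F[X] L] [IsFractionRing F[X] L] [Field Ω]
  [Algebra L Ω] [IsGalois L Ω] [IsSepClosed Ω] [IsSepClosure L Ω]

lemma locAx_of (W : WeierstrassCurve k[X]) :
    letI := algK k F L L
    letI := algK k F L Ω
    letI := algF F L Ω
    haveI : IsScalarTower F[X] L Ω := IsScalarTower.of_algebraMap_eq fun _ => rfl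
    haveI : IsScalarTower k[X] L Ω := IsScalarTower.of_algebraMap_eq fun _ => rfl
    LocAx (k := k) (F := F) (L := L) (Ω := Ω) (fun _ => rfl) W.toAffine (LT8 W) := by
  letI := algK k F L L
  letI := algK k F L Ω
  letI := algF F L Ω
  haveI : IsScalarTower F[X] L Ω := IsScalarTower.of_algebraMap_eq fun _ => rfl
  haveI : IsScalarTower k[X] L Ω := IsScalarTower.of_algebraMap_eq fun _ => rfl
  have hk : ∀ p : k[X], algebraMap k[X] L p = algebraMap F[X] L (p.map (algebraMap k F)) :=
    fun _ => rfl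
  refine ⟨?_, ?_, ?_, ?_⟩
  · intro c c' hc hc' τ
    exact (hc τ).add (hc' τ) (fun _ => rfl)
  · intro c hc τ
    exact (hc τ).neg (fun _ => rfl)
  · intro q τ
    apply isLocallyTrivial_cob (W := W) q
    intro σ q' hq'
    rw [(isImage_iff (W := W) (σ : Ω →ₐ[L] Ω) _ _).mp hq']
    rfl
  · intro γ c hc τ'
    obtain ⟨τ, rfl⟩ : ∃ τ, (resF hk γ) τ = τ' := (resF hk γ).surjective τ'
    obtain ⟨φ, hφ, -⟩ := exists_adic_equiv L ((resF hk γ : F ≃ₐ[k] F) : F ≃+* F) τ
    refine IsLocallyTrivial.conj (W := W) (c := c)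
      (coefL L ((resF hk γ : F ≃ₐ[k] F) : F ≃+* F)) ?_ φ hφ (γ : Ω ≃+* Ω) ?_ ?_ (hc τ)
    · intro p
      change coefL L _ (algebraMap F[X] L (p.map (algebraMap k F))) =
        algebraMap F[X] L (p.map (algebraMap k F))
      rw [coefL_algebraMap]
      congr 1
      exact map_fix (resF hk γ) p
    · intro x
      obtain ⟨p, q, hq, rfl⟩ := IsFractionRing.div_surjective (A := F[X]) x
      rw [map_div₀, map_div₀, map_div₀, map_div₀, coefL_algebraMap, coefL_algebraMap,
        ← IsScalarTower.algebraMap_apply, ← IsScalarTower.algebraMap_apply,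
        ← IsScalarTower.algebraMap_apply, ← IsScalarTower.algebraMap_apply]
      have h1 : ∀ r : F[X], (γ : Ω ≃+* Ω) (algebraMap F[X] Ω r) = algebraMap F[X] Ω
          (r.map ((resF hk γ : F ≃ₐ[k] F) : F →+* F)) := fun r => resF_spec hk γ r
      rw [h1, h1]
      rfl
    · intro σ σ' hσ
      have h1 : cj hk γ σ = σ' := cj_unique hk hσ
      rw [h1]
      exact isImage_map (W := W) (γ : Ω →ₐ[k[X]] Ω) (c σ')

end Ax

end Pool.Agent.Lib.MP_89bcae_ag

end LocAx69Part

section LocF69Part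

/-!
# The local input for the curves `y² = x (x² + A x + B)` over `k(t)`
-/

open Polynomial WeierstrassCurve WeierstrassCurve.Affine IsDedekindDomain

open scoped Classical

namespace Pool.Agent.Lib.MP_89bcae_ag

set_option linter.unusedSectionVars false
set_option linter.style.haveILetI false

universe u

section Val

variable {F : Type*} [Field F] (L : Type*) [Field L] [Algebra F[X] L] [IsFractionRing F[X] L]

lemma val_simple_root (α : F) {p : F[X]} (hp : p.eval α = 0) (hp' : (derivative p).eval α ≠ 0) :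
    Valued.v (algebraMap F[X] ((placeAt α).adicCompletion L) p) = WithZero.exp (-1 : ℤ) := by
  obtain ⟨q, rfl⟩ : (X - C α) ∣ p := dvd_iff_isRoot.mpr hp
  rw [map_mul, map_mul, val_X_sub_C, val_eq_one, mul_one]
  intro h0
  apply hp'
  simp [h0]

lemma isOver_adic (α : F) :
    IsOver (K := (placeAt α).adicCompletion L) Valued.v α :=
  ⟨val_X_sub_C L α, fun _ hp => val_eq_one L α hp⟩

lemma sqUnit_adic [IsAlgClosed F] (h2 : (2 : F) ≠ 0) (α : F) :
    SqUnit (Valued.v : Valuation ((placeAt α).adicCompletion L) _) where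
  two := by
    have := val_eq_one L α (p := C 2) (by rw [eval_C]; exact h2)
    rwa [map_ofNat C 2, map_ofNat] at this
  sqrt := fun x hx => exists_sqrt_of_unit L h2 α x hx
  unif := ⟨_, val_X_sub_C L α⟩

end Val

section Adic

variable {k F L Ω : Type*} [Field k] [Field F] [Algebra k F] [Algebra.IsAlgebraic k F]
  [IsAlgClosed F] [Field L] [Field Ω]
  [Algebra F[X] L] [IsFractionRing F[X] L] [Algebra L Ω] [Algebra F[X] Ω] [IsScalarTower F[X] L Ω]
  [Algebra k[X] L] [Algebra k[X] Ω] [IsScalarTower k[X] L Ω]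
  [IsGalois L Ω] [IsSepClosed Ω] [IsSepClosure L Ω]

variable (hk : ∀ p : k[X], algebraMap k[X] L p = algebraMap F[X] L (p.map (algebraMap k F)))

variable {A B : k[X]} (α : F) [Algebra k[X] ((placeAt α).adicCompletion L)]
  [IsScalarTower k[X] L ((placeAt α).adicCompletion L)]

include hk in
lemma algebraMap_adic (p : k[X]) : algebraMap k[X] ((placeAt α).adicCompletion L) p =
    algebraMap F[X] ((placeAt α).adicCompletion L) (p.map (algebraMap k F)) := by
  rw [IsScalarTower.algebraMap_apply k[X] L ((placeAt α).adicCompletion L), hk,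
    ← IsScalarTower.algebraMap_apply]

include hk in
lemma isLv69_adic (h2 : (2 : F) ≠ 0) :
    IsLv69 (curveAB A B).toAffine
      (Valued.v : Valuation ((placeAt α).adicCompletion L) _) where
  sq := sqUnit_adic L h2 α
  short := ⟨map_zero _, map_zero _⟩
  a₆ := map_zero _
  a₂ := by
    change Valued.v (algebraMap k[X] ((placeAt α).adicCompletion L) A) ≤ 1
    rw [algebraMap_adic hk]
    exact val_le_one L α _

include hk in
lemma a₄_adic_one (hB : (B.map (algebraMap k F)).eval α ≠ 0) :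
    Valued.v (((curveAB A B).toAffine.baseChange ((placeAt α).adicCompletion L)).a₄) = 1 := by
  change Valued.v (algebraMap k[X] ((placeAt α).adicCompletion L) B) = 1
  rw [algebraMap_adic hk]
  exact val_eq_one L α hB

include hk in
lemma a₄_adic_exp (hs : B.Separable) (hB : (B.map (algebraMap k F)).eval α = 0) :
    Valued.v (((curveAB A B).toAffine.baseChange ((placeAt α).adicCompletion L)).a₄) =
      WithZero.exp (-1 : ℤ) := by
  change Valued.v (algebraMap k[X] ((placeAt α).adicCompletion L) B) = _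
  rw [algebraMap_adic hk]
  apply val_simple_root L α hB
  have h1 : (B.map (algebraMap k F)).Separable := hs.map
  exact h1.eval₂_derivative_ne_zero (RingHom.id F) hB

include hk in
lemma disc_adic : ((curveAB A B).toAffine.baseChange ((placeAt α).adicCompletion L)).a₂ ^ 2 -
      4 * ((curveAB A B).toAffine.baseChange ((placeAt α).adicCompletion L)).a₄ =
    algebraMap F[X] ((placeAt α).adicCompletion L)
      ((A.map (algebraMap k F)) ^ 2 - 4 * B.map (algebraMap k F)) := by
  change (algebraMap k[X] ((placeAt α).adicCompletion L) A) ^ 2 -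
    4 * algebraMap k[X] ((placeAt α).adicCompletion L) B = _
  rw [algebraMap_adic hk, algebraMap_adic hk, map_sub, map_mul, map_pow, map_ofNat]

lemma map_disc : (A ^ 2 - 4 * B).map (algebraMap k F) =
    (A.map (algebraMap k F)) ^ 2 - 4 * B.map (algebraMap k F) := by
  rw [Polynomial.map_sub, Polynomial.map_mul, Polynomial.map_pow]
  congr 2
  exact map_ofNat (mapRingHom (algebraMap k F)) 4

include hk in
lemma disc_adic_one
    (hB : ((A.map (algebraMap k F)) ^ 2 - 4 * B.map (algebraMap k F)).eval α ≠ 0) :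
    Valued.v (((curveAB A B).toAffine.baseChange ((placeAt α).adicCompletion L)).a₂ ^ 2 -
      4 * ((curveAB A B).toAffine.baseChange ((placeAt α).adicCompletion L)).a₄) = 1 := by
  rw [disc_adic hk]
  exact val_eq_one L α hB

include hk in
lemma disc_adic_exp (hs : (A ^ 2 - 4 * B).Separable)
    (hB : ((A.map (algebraMap k F)) ^ 2 - 4 * B.map (algebraMap k F)).eval α = 0) :
    Valued.v (((curveAB A B).toAffine.baseChange ((placeAt α).adicCompletion L)).a₂ ^ 2 -
      4 * ((curveAB A B).toAffine.baseChange ((placeAt α).adicCompletion L)).a₄) =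
      WithZero.exp (-1 : ℤ) := by
  rw [disc_adic hk]
  apply val_simple_root L α hB
  have h1 : ((A ^ 2 - 4 * B).map (algebraMap k F)).Separable := hs.map
  rw [map_disc] at h1
  exact h1.eval₂_derivative_ne_zero (RingHom.id F) hB

variable {M : Type*} [Field M] [Algebra ((placeAt α).adicCompletion L) M]
  [IsSepClosure ((placeAt α).adicCompletion L) M] [IsGalois ((placeAt α).adicCompletion L) M]
  [Algebra L M] [IsScalarTower L ((placeAt α).adicCompletion L) M] [Algebra F[X] M]
  [IsScalarTower F[X] L M] [IsScalarTower F[X] ((placeAt α).adicCompletion L) M]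
  [Algebra k[X] M] [IsScalarTower k[X] L M]
  [IsScalarTower k[X] ((placeAt α).adicCompletion L) M]
  {j : Ω →ₐ[L] M} {c : (Ω ≃ₐ[L] Ω) → ((curveAB A B).toAffine.baseChange Ω).Point}
  {Q : ((curveAB A B).toAffine.baseChange M).Point}

include hk in
lemma root_adic (h2 : (2 : F) ≠ 0) (hB' : (A ^ 2 - 4 * B).Separable)
    (hc : ∀ σ, 2 • c σ = 0) (hQ : IsCob69 ((placeAt α).adicCompletion L) j c Q)
    {S : Finset F} {s : Ω} (hs : IsCharF (fun σ : Ω ≃ₐ[L] Ω => rho 0 (c σ)) S s)
    (hα : α ∈ S) : (B.map (algebraMap k F)).eval α = 0 := by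
  by_contra hB
  have hL := isLv69_adic (A := A) (B := B) (L := L) hk α h2
  have hd : Valued.v (((curveAB A B).toAffine.baseChange ((placeAt α).adicCompletion L)).a₂ ^ 2 -
      4 * ((curveAB A B).toAffine.baseChange ((placeAt α).adicCompletion L)).a₄) = 1 ∨
      Valued.v (((curveAB A B).toAffine.baseChange ((placeAt α).adicCompletion L)).a₂ ^ 2 -
      4 * ((curveAB A B).toAffine.baseChange ((placeAt α).adicCompletion L)).a₄) =
      WithZero.exp (-1 : ℤ) := by
    by_cases h : ((A.map (algebraMap k F)) ^ 2 - 4 * B.map (algebraMap k F)).eval α = 0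
    · exact Or.inr (disc_adic_exp hk α hB' h)
    · exact Or.inl (disc_adic_one hk α h)
  obtain ⟨V, hV, hcob⟩ := hL.exists_two (a₄_adic_one hk α hB) hd hc hQ
  exact (hL.root_local (isOver_adic L α) hV hcob hs).1 hα

include hk in
lemma root'_adic (h2 : (2 : F) ≠ 0) (hB : B.Separable)
    (hsh : Short ((curveAB A B).toAffine.baseChange Ω)) (h2Ω : (2 : Ω) ≠ 0)
    (hc : ∀ σ, c σ = 0 ∨ IsTF (c σ)) (hQ : IsCob69 ((placeAt α).adicCompletion L) j c Q)
    {S : Finset F} {s : Ω} (hs : IsCharF (fun σ : Ω ≃ₐ[L] Ω => psiF (c σ)) S s)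
    (hα : α ∈ S) : ((A.map (algebraMap k F)) ^ 2 - 4 * B.map (algebraMap k F)).eval α = 0 := by
  by_contra hd0
  have hL := isLv69_adic (A := A) (B := B) (L := L) hk α h2
  have hd := disc_adic_one (L := L) hk α hd0
  by_cases hB0 : (B.map (algebraMap k F)).eval α = 0
  · have hr := hL.zero_of_isTF (a₄_adic_exp hk α hB hB0) hd hsh h2Ω hc hQ
    refine (charF_local (j := j) (isOver_adic L α) hs ?_).1 hα
    intro σ σ' hσ
    rw [psiF, if_pos (hQ.eq_zero hr σ σ' hσ)]
  · have hc2 : ∀ σ, 2 • c σ = 0 := by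
      intro σ
      rcases hc σ with h1 | h1
      · rw [h1, smul_zero]
      · exact h1.two hsh h2Ω
    exact hL.root'_good (isOver_adic L α) (a₄_adic_one hk α hB0) hd hc2 hQ hs hα

include hk in
/-- The lift of an automorphism of `F` fixing `α` to the decomposition group at `α`. -/
lemma exists_lift69 {τ : F ≃ₐ[k] F} (hτ : τ α = α) (j : Ω →ₐ[L] M) :
    ∃ (φ : (placeAt α).adicCompletion L ≃+* (placeAt α).adicCompletion L) (γ : Ω ≃ₐ[k[X]] Ω)
      (U : M ≃ₐ[k[X]] M),
      (∀ x : L, φ (algebraMap L _ x) = algebraMap L _ (coefL L (τ : F ≃+* F) x)) ∧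
      (∀ x, Valued.v (φ x) = Valued.v x) ∧
      (∀ p : F[X], γ (algebraMap F[X] Ω p) = algebraMap F[X] Ω (p.map (τ : F →+* F))) ∧
      (∀ x : (placeAt α).adicCompletion L, U (algebraMap _ M x) = algebraMap _ M (φ x)) ∧
      ∀ x, j (γ x) = U (j x) := by
  obtain ⟨φ, hφ, hφv⟩ := exists_adic_aut L (τ : F ≃+* F) α hτ
  obtain ⟨γ, hγp, U, hU, hγ⟩ := exists_local_lift hk j τ φ hφ
  have hUk : ∀ p : k[X], U (algebraMap k[X] M p) = algebraMap k[X] M p := by
    intro p
    have h1 : algebraMap k[X] M p = j (algebraMap k[X] Ω p) := by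
      rw [IsScalarTower.algebraMap_apply k[X] L Ω, j.commutes,
        ← IsScalarTower.algebraMap_apply]
    rw [h1, ← hγ, γ.commutes]
  exact ⟨φ, γ, AlgEquiv.ofRingEquiv (f := U) hUk, hφ, hφv, hγp, hU, hγ⟩

variable {τ : F ≃ₐ[k] F}
  {φ : (placeAt α).adicCompletion L ≃+* (placeAt α).adicCompletion L} {γ : Ω ≃ₐ[k[X]] Ω}
  {U : M ≃ₐ[k[X]] M}
  (hφ : ∀ x : L, φ (algebraMap L _ x) = algebraMap L _ (coefL L (τ : F ≃+* F) x))
  (hφv : ∀ x, Valued.v (φ x) = Valued.v x)
  (hγ : ∀ p : F[X], γ (algebraMap F[X] Ω p) = algebraMap F[X] Ω (p.map (τ : F →+* F)))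
  (hU : ∀ x : (placeAt α).adicCompletion L, U (algebraMap _ M x) = algebraMap _ M (φ x))
  (hγU : ∀ x, j (γ x) = U (j x))

include hφ hφv hγ hU hγU in
lemma beta_adic (h2 : (2 : F) ≠ 0) (hB' : (A ^ 2 - 4 * B).Separable)
    (hB : (B.map (algebraMap k F)).eval α ≠ 0)
    (hd : ((A.map (algebraMap k F)) ^ 2 - 4 * B.map (algebraMap k F)).eval α = 0)
    (hτ : ∀ x, (B.map (algebraMap k F)).eval x = 0 → τ x = x)
    (hc : ∀ σ, 2 • c σ = 0) (hQ : IsCob69 ((placeAt α).adicCompletion L) j c Q) :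
    (∀ (S : Finset F) (s : Ω), (∀ a ∈ S, (B.map (algebraMap k F)).eval a = 0) →
      IsCharF (fun σ : Ω ≃ₐ[L] Ω => rho 0 (c σ)) S s →
      (γ s = s ↔ ¬ Moves (τ : F →+* F) (∏ a ∈ S, (α - a)))) ∧
    ∀ (S : Finset F) (s : Ω), IsCharF (fun σ : Ω ≃ₐ[L] Ω =>
      psiF (Point.map (W' := (curveAB A B).toAffine) (γ : Ω →ₐ[k[X]] Ω) (c (cj hk γ σ)) -
        c σ)) S s → α ∉ S := by
  have hL := isLv69_adic (A := A) (B := B) (L := L) hk α h2
  obtain ⟨V, hV, hcob⟩ := hL.exists_two (a₄_adic_one hk α hB)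
    (Or.inr (disc_adic_exp hk α hB' hd)) hc hQ
  refine ⟨fun S s hS hs => ?_, fun S s hs => ?_⟩
  · obtain ⟨h1, y, hy, hy2⟩ := hL.root_local (isOver_adic L α) hV hcob hs
    exact charF_moves (U := U.toRingEquiv) (isOver_adic L α) h2 hφ hφv hγ hU hγU hs
      (fun a ha => hτ a (hS a ha)) h1 hy hy2
  · exact hL.beta_local (isOver_adic L α) hV hcob (hcob.conj (hk := hk) hU hγU) hs

include hφ hφv hγ hU hγU in
lemma alpha_adic (h2 : (2 : F) ≠ 0) (hBs : B.Separable)
    (hB : (B.map (algebraMap k F)).eval α = 0)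
    (hd : ((A.map (algebraMap k F)) ^ 2 - 4 * B.map (algebraMap k F)).eval α ≠ 0)
    (hτ : ∀ x, ((A.map (algebraMap k F)) ^ 2 - 4 * B.map (algebraMap k F)).eval x = 0 → τ x = x)
    (hsh : Short ((curveAB A B).toAffine.baseChange Ω)) (h2Ω : (2 : Ω) ≠ 0)
    (hc : ∀ σ, 2 • c σ = 0 ∨ IsTF (2 • c σ))
    (hQ : IsCob69 ((placeAt α).adicCompletion L) j c Q) :
    (∀ (S : Finset F) (s : Ω),
      (∀ b ∈ S, ((A.map (algebraMap k F)) ^ 2 - 4 * B.map (algebraMap k F)).eval b = 0) →
      IsCharF (fun σ : Ω ≃ₐ[L] Ω => psiF (2 • c σ)) S s →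
      (γ s = s ↔ ¬ Moves (τ : F →+* F) (∏ b ∈ S, (α - b)))) ∧
    ∀ (S : Finset F) (s : Ω), IsCharF (fun σ : Ω ≃ₐ[L] Ω =>
      rho 0 (Point.map (W' := (curveAB A B).toAffine) (γ : Ω →ₐ[k[X]] Ω) (c (cj hk γ σ)) -
        c σ)) S s → α ∉ S := by
  have hL := isLv69_adic (A := A) (B := B) (L := L) hk α h2
  have hd1 := disc_adic_one (L := L) hk α hd
  obtain ⟨V, hcob, hr, hV⟩ := hL.alpha_local (a₄_adic_exp hk α hBs hB) hd1 hsh h2Ω hc hQ
  refine ⟨fun S s hS hs => ?_, fun S s hs => ?_⟩
  · have hcob2 : IsCob69 ((placeAt α).adicCompletion L) j (fun σ => 2 • c σ) (2 • V) := by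
      intro σ σ' hσ
      rw [map_nsmul, hcob σ σ' hσ, smul_sub, map_nsmul]
    obtain ⟨h1, y, hy, hy2⟩ := charF_local (j := j) (isOver_adic L α) hs (by
      intro σ σ' hσ
      rw [psiF, if_pos (hcob2.eq_zero hr σ σ' hσ)])
    exact charF_moves (U := U.toRingEquiv) (isOver_adic L α) h2 hφ hφv hγ hU hγU hs
      (fun a ha => hτ a (hS a ha)) h1 hy hy2
  · exact hL.alpha_local' (isOver_adic L α) hd1 hV hcob (hcob.conj (hk := hk) hU hγU) hs

end Adic

section Final

variable {k F L Ω : Type u} [Field k] [Field F] [Algebra k F] [Algebra.IsAlgebraic k F]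
  [IsAlgClosed F] [Field L] [Algebra F[X] L] [IsFractionRing F[X] L] [Field Ω]
  [Algebra L Ω] [IsGalois L Ω] [IsSepClosed Ω] [IsSepClosure L Ω]

theorem locAxF_of {A B : k[X]} (h2 : (2 : k) ≠ 0) (hB : B.Separable)
    (hB' : (A ^ 2 - 4 * B).Separable) (hAB : IsCoprime A B) :
    letI := algK k F L L
    letI := algK k F L Ω
    letI := algF F L Ω
    haveI : IsScalarTower F[X] L Ω := IsScalarTower.of_algebraMap_eq fun _ => rfl
    haveI : IsScalarTower k[X] L Ω := IsScalarTower.of_algebraMap_eq fun _ => rfl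
    LocAxF (k := k) (F := F) (L := L) (Ω := Ω) (fun _ => rfl) (curveAB A B).toAffine
      (A.map (algebraMap k F)) (B.map (algebraMap k F)) (LT8 (curveAB A B)) := by
  letI := algK k F L L
  letI := algK k F L Ω
  letI := algF F L Ω
  haveI : IsScalarTower F[X] L Ω := IsScalarTower.of_algebraMap_eq fun _ => rfl
  haveI : IsScalarTower k[X] L Ω := IsScalarTower.of_algebraMap_eq fun _ => rfl
  have hk : ∀ p : k[X], algebraMap k[X] L p = algebraMap F[X] L (p.map (algebraMap k F)) :=
    fun _ => rfl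
  have h2F : (2 : F) ≠ 0 := by
    intro h0
    apply h2
    apply (algebraMap k F).injective
    rw [map_ofNat, h0, map_zero]
  have h2Ω : (2 : Ω) ≠ 0 := two_ne_zero_Om (F := F) L Ω h2F
  have hcop : IsCoprime B (A ^ 2 - 4 * B) := by
    have h3 : IsCoprime B (A ^ 2) := hAB.symm.pow_right
    have h4 := h3.add_mul_left_right (-4)
    have h5 : A ^ 2 + B * -4 = A ^ 2 - 4 * B := by ring
    rwa [h5] at h4
  have hsh : Short ((curveAB A B).toAffine.baseChange Ω) := ⟨map_zero _, map_zero _⟩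
  have hax := locAx_of (F := F) (L := L) (Ω := Ω) (curveAB A B)
  have hne : ∀ x : F, (B.map (algebraMap k F)).eval x = 0 →
      ((A.map (algebraMap k F)) ^ 2 - 4 * B.map (algebraMap k F)).eval x = 0 → False := by
    intro x h1 h3
    obtain ⟨u, v, huv⟩ := hcop.map (mapRingHom (algebraMap k F))
    have h4 := congrArg (fun p => p.eval x) huv
    simp only [coe_mapRingHom, map_disc] at h4
    rw [eval_add, eval_mul, eval_mul, h1, h3, mul_zero, mul_zero, add_zero, eval_one] at h4
    exact zero_ne_one h4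
  -- the local data
  have hloc : ∀ (α : F) (c : (Ω ≃ₐ[L] Ω) → ((curveAB A B).toAffine.baseChange Ω).Point),
      LT8 (curveAB A B) c →
      letI := algK k F L ((placeAt α).adicCompletion L)
      letI := algK k F L (SeparableClosure ((placeAt α).adicCompletion L))
      haveI : IsScalarTower k[X] L ((placeAt α).adicCompletion L) :=
        IsScalarTower.of_algebraMap_eq fun _ => rfl
      haveI : IsScalarTower k[X] L (SeparableClosure ((placeAt α).adicCompletion L)) :=
        IsScalarTower.of_algebraMap_eq fun _ => rfl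
      haveI : IsScalarTower k[X] ((placeAt α).adicCompletion L)
          (SeparableClosure ((placeAt α).adicCompletion L)) :=
        IsScalarTower.of_algebraMap_eq fun p => by
          rw [IsScalarTower.algebraMap_apply k[X] L ((placeAt α).adicCompletion L),
            ← IsScalarTower.algebraMap_apply L ((placeAt α).adicCompletion L)
              (SeparableClosure ((placeAt α).adicCompletion L))]
          rfl
      ∀ (j : Ω →ₐ[L] SeparableClosure ((placeAt α).adicCompletion L)),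
        ∃ Q, IsCob69 ((placeAt α).adicCompletion L) j c Q := by
    intro α c hc
    letI := algK k F L ((placeAt α).adicCompletion L)
    letI := algK k F L (SeparableClosure ((placeAt α).adicCompletion L))
    haveI : IsScalarTower k[X] L ((placeAt α).adicCompletion L) :=
      IsScalarTower.of_algebraMap_eq fun _ => rfl
    haveI : IsScalarTower k[X] L (SeparableClosure ((placeAt α).adicCompletion L)) :=
      IsScalarTower.of_algebraMap_eq fun _ => rfl
    haveI : IsScalarTower k[X] ((placeAt α).adicCompletion L)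
        (SeparableClosure ((placeAt α).adicCompletion L)) :=
      IsScalarTower.of_algebraMap_eq fun p => by
        rw [IsScalarTower.algebraMap_apply k[X] L ((placeAt α).adicCompletion L),
          ← IsScalarTower.algebraMap_apply L ((placeAt α).adicCompletion L)
            (SeparableClosure ((placeAt α).adicCompletion L))]
        rfl
    intro j
    obtain ⟨Q₀, hQ₀⟩ := hc α (SeparableClosure ((placeAt α).adicCompletion L)) j
    refine ⟨Q₀, fun σ σ' hσ => ?_⟩
    have h1 := hQ₀ σ σ' hσ (Point.map (W' := (curveAB A B).toAffine)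
      (σ : SeparableClosure ((placeAt α).adicCompletion L) →ₐ[(placeAt α).adicCompletion L]
        SeparableClosure ((placeAt α).adicCompletion L)) Q₀)
      (isImage_map (W := curveAB A B) (σ : SeparableClosure ((placeAt α).adicCompletion L)
        →ₐ[(placeAt α).adicCompletion L] SeparableClosure ((placeAt α).adicCompletion L)) Q₀)
    exact ((isImage_iff (W := curveAB A B) j (c σ') _).mp h1).symm
  refine ⟨hax.add, hax.neg, hax.cob, hax.conj, ?_, ?_, ?_, ?_⟩
  · intro c hc2 hc S s hs α hα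
    letI := algK k F L ((placeAt α).adicCompletion L)
    letI := algK k F L (SeparableClosure ((placeAt α).adicCompletion L))
    haveI : IsScalarTower k[X] L ((placeAt α).adicCompletion L) :=
      IsScalarTower.of_algebraMap_eq fun _ => rfl
    haveI : IsScalarTower k[X] L (SeparableClosure ((placeAt α).adicCompletion L)) :=
      IsScalarTower.of_algebraMap_eq fun _ => rfl
    haveI : IsScalarTower k[X] ((placeAt α).adicCompletion L)
        (SeparableClosure ((placeAt α).adicCompletion L)) :=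
      IsScalarTower.of_algebraMap_eq fun p => by
        rw [IsScalarTower.algebraMap_apply k[X] L ((placeAt α).adicCompletion L),
          ← IsScalarTower.algebraMap_apply L ((placeAt α).adicCompletion L)
            (SeparableClosure ((placeAt α).adicCompletion L))]
        rfl
    haveI : IsScalarTower F[X] L (SeparableClosure ((placeAt α).adicCompletion L)) :=
      IsScalarTower.of_algebraMap_eq fun p => by
        rw [IsScalarTower.algebraMap_apply F[X] ((placeAt α).adicCompletion L)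
          (SeparableClosure ((placeAt α).adicCompletion L)),
          IsScalarTower.algebraMap_apply F[X] L ((placeAt α).adicCompletion L),
          ← IsScalarTower.algebraMap_apply L ((placeAt α).adicCompletion L)
            (SeparableClosure ((placeAt α).adicCompletion L))]
    have hj : Nonempty (Ω →ₐ[L] SeparableClosure ((placeAt α).adicCompletion L)) :=
      ⟨IsSepClosed.lift⟩
    obtain ⟨j⟩ := hj
    obtain ⟨Q, hQ⟩ := hloc α c hc j
    exact root_adic hk α h2F hB' hc2 hQ hs hα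
  · intro c hcT hc S s hs α hα
    letI := algK k F L ((placeAt α).adicCompletion L)
    letI := algK k F L (SeparableClosure ((placeAt α).adicCompletion L))
    haveI : IsScalarTower k[X] L ((placeAt α).adicCompletion L) :=
      IsScalarTower.of_algebraMap_eq fun _ => rfl
    haveI : IsScalarTower k[X] L (SeparableClosure ((placeAt α).adicCompletion L)) :=
      IsScalarTower.of_algebraMap_eq fun _ => rfl
    haveI : IsScalarTower k[X] ((placeAt α).adicCompletion L)
        (SeparableClosure ((placeAt α).adicCompletion L)) :=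
      IsScalarTower.of_algebraMap_eq fun p => by
        rw [IsScalarTower.algebraMap_apply k[X] L ((placeAt α).adicCompletion L),
          ← IsScalarTower.algebraMap_apply L ((placeAt α).adicCompletion L)
            (SeparableClosure ((placeAt α).adicCompletion L))]
        rfl
    haveI : IsScalarTower F[X] L (SeparableClosure ((placeAt α).adicCompletion L)) :=
      IsScalarTower.of_algebraMap_eq fun p => by
        rw [IsScalarTower.algebraMap_apply F[X] ((placeAt α).adicCompletion L)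
          (SeparableClosure ((placeAt α).adicCompletion L)),
          IsScalarTower.algebraMap_apply F[X] L ((placeAt α).adicCompletion L),
          ← IsScalarTower.algebraMap_apply L ((placeAt α).adicCompletion L)
            (SeparableClosure ((placeAt α).adicCompletion L))]
    have hj : Nonempty (Ω →ₐ[L] SeparableClosure ((placeAt α).adicCompletion L)) :=
      ⟨IsSepClosed.lift⟩
    obtain ⟨j⟩ := hj
    obtain ⟨Q, hQ⟩ := hloc α c hc j
    exact root'_adic hk α h2F hB hsh h2Ω hcT hQ hs hα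
  · intro α hα τ hτ
    letI := algK k F L ((placeAt α).adicCompletion L)
    letI := algK k F L (SeparableClosure ((placeAt α).adicCompletion L))
    haveI : IsScalarTower k[X] L ((placeAt α).adicCompletion L) :=
      IsScalarTower.of_algebraMap_eq fun _ => rfl
    haveI : IsScalarTower k[X] L (SeparableClosure ((placeAt α).adicCompletion L)) :=
      IsScalarTower.of_algebraMap_eq fun _ => rfl
    haveI : IsScalarTower k[X] ((placeAt α).adicCompletion L)
        (SeparableClosure ((placeAt α).adicCompletion L)) :=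
      IsScalarTower.of_algebraMap_eq fun p => by
        rw [IsScalarTower.algebraMap_apply k[X] L ((placeAt α).adicCompletion L),
          ← IsScalarTower.algebraMap_apply L ((placeAt α).adicCompletion L)
            (SeparableClosure ((placeAt α).adicCompletion L))]
        rfl
    haveI : IsScalarTower F[X] L (SeparableClosure ((placeAt α).adicCompletion L)) :=
      IsScalarTower.of_algebraMap_eq fun p => by
        rw [IsScalarTower.algebraMap_apply F[X] ((placeAt α).adicCompletion L)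
          (SeparableClosure ((placeAt α).adicCompletion L)),
          IsScalarTower.algebraMap_apply F[X] L ((placeAt α).adicCompletion L),
          ← IsScalarTower.algebraMap_apply L ((placeAt α).adicCompletion L)
            (SeparableClosure ((placeAt α).adicCompletion L))]
    have hj : Nonempty (Ω →ₐ[L] SeparableClosure ((placeAt α).adicCompletion L)) :=
      ⟨IsSepClosed.lift⟩
    obtain ⟨j⟩ := hj
    obtain ⟨φ, γ, U, hφ, hφv, hγ, hU, hγU⟩ := exists_lift69 hk α (hτ α (Or.inr hα)) j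
    refine ⟨γ, hγ, fun c hc2 hc => ?_⟩
    obtain ⟨Q, hQ⟩ := hloc α c hc j
    have := beta_adic hk α hφ hφv hγ hU hγU h2F hB' (fun h0 => hne α h0 hα) hα
      (fun x hx => hτ x (Or.inl hx)) hc2 hQ
    exact ⟨this.1, fun _ => this.2⟩
  · intro α hα τ hτ
    letI := algK k F L ((placeAt α).adicCompletion L)
    letI := algK k F L (SeparableClosure ((placeAt α).adicCompletion L))
    haveI : IsScalarTower k[X] L ((placeAt α).adicCompletion L) :=
      IsScalarTower.of_algebraMap_eq fun _ => rfl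
    haveI : IsScalarTower k[X] L (SeparableClosure ((placeAt α).adicCompletion L)) :=
      IsScalarTower.of_algebraMap_eq fun _ => rfl
    haveI : IsScalarTower k[X] ((placeAt α).adicCompletion L)
        (SeparableClosure ((placeAt α).adicCompletion L)) :=
      IsScalarTower.of_algebraMap_eq fun p => by
        rw [IsScalarTower.algebraMap_apply k[X] L ((placeAt α).adicCompletion L),
          ← IsScalarTower.algebraMap_apply L ((placeAt α).adicCompletion L)
            (SeparableClosure ((placeAt α).adicCompletion L))]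
        rfl
    haveI : IsScalarTower F[X] L (SeparableClosure ((placeAt α).adicCompletion L)) :=
      IsScalarTower.of_algebraMap_eq fun p => by
        rw [IsScalarTower.algebraMap_apply F[X] ((placeAt α).adicCompletion L)
          (SeparableClosure ((placeAt α).adicCompletion L)),
          IsScalarTower.algebraMap_apply F[X] L ((placeAt α).adicCompletion L),
          ← IsScalarTower.algebraMap_apply L ((placeAt α).adicCompletion L)
            (SeparableClosure ((placeAt α).adicCompletion L))]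
    have hj : Nonempty (Ω →ₐ[L] SeparableClosure ((placeAt α).adicCompletion L)) :=
      ⟨IsSepClosed.lift⟩
    obtain ⟨j⟩ := hj
    obtain ⟨φ, γ, U, hφ, hφv, hγ, hU, hγU⟩ := exists_lift69 hk α (hτ α (Or.inl hα)) j
    refine ⟨γ, hγ, fun c hcT hc => ?_⟩
    obtain ⟨Q, hQ⟩ := hloc α c hc j
    have := alpha_adic hk α hφ hφv hγ hU hγU h2F hB hα (fun h0 => hne α hα h0)
      (fun x hx => hτ x (Or.inr hx)) hsh h2Ω hcT hQ
    exact fun S s hS hs => ⟨this.1 S s hS hs, fun _ => this.2⟩

end Final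

end Pool.Agent.Lib.MP_89bcae_ag

end LocF69Part
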