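import Mathlib
import Pool.Agent.Lib.MP_89bcae_ag.BaseF
import Pool.Agent.Lib.MP_89bcae_ag.GrpD8
import Pool.Agent.Lib.MP_89bcae_ag.DefsF
import Pool.Agent.Lib.MP_89bcae_ag.DefsGeom8
import Pool.Agent.Lib.MP_89bcae_ag.LocF

section TorFPart

/-!
# Two-torsion of `y² = x (x² + A x + B)`
-/

open Polynomial WeierstrassCurve WeierstrassCurve.Affine

open scoped Classical

namespace Pool.Agent.Lib.MP_89bcae_ag

set_option linter.unusedSectionVars false

section Basic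

variable {K : Type*} [Field K] {W : Affine K}

lemma IsTF.unique {P Q : W.Point} (h : IsTF P) (h' : IsTF Q) : P = Q := by
  obtain ⟨h1, rfl⟩ := h
  obtain ⟨h2, rfl⟩ := h'
  rfl

lemma two_of_zero_or (hW : Short W) (h2 : (2 : K) ≠ 0) {P : W.Point} (h : P = 0 ∨ IsTF P) :
    2 • P = 0 := by
  rcases h with rfl | h
  · exact smul_zero _
  · exact h.two hW h2

lemma rho_zero_eq_one_iff (hW : Short W) (h2 : (2 : K) ≠ 0) {P : W.Point} (h : 2 • P = 0) :
    rho 0 P = 1 ↔ P = 0 ∨ IsTF P := by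
  rcases (two_torsion_iff hW h2 P).mp h with rfl | ⟨e, he, -, rfl⟩
  · simp
  · rw [rho_two_torsion]
    constructor
    · intro h3
      right
      by_cases h0 : e = 0
      · subst h0
        exact ⟨he, rfl⟩
      · rw [if_neg h0] at h3
        exfalso
        apply h2
        linear_combination -h3
    · rintro (h3 | ⟨h4, h3⟩)
      · exact absurd h3 (Point.some_ne_zero _)
      · simp only [Point.some.injEq] at h3
        rw [if_pos h3.1]

lemma rho_zero_of (hW : Short W) (h2 : (2 : K) ≠ 0) {P : W.Point} (h : P = 0 ∨ IsTF P) :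
    rho 0 P = 1 :=
  (rho_zero_eq_one_iff hW h2 (two_of_zero_or hW h2 h)).mpr h

lemma rt_zero (ha : W.a₆ = 0) : Rt W 0 := by
  rw [Rt, ha]
  ring

lemma psiF_zero : psiF (0 : W.Point) = 1 := if_pos rfl

lemma psiF_eq_one_iff (h2 : (2 : K) ≠ 0) {P : W.Point} : psiF P = 1 ↔ P = 0 := by
  unfold psiF
  constructor
  · intro h
    by_contra h0
    rw [if_neg h0] at h
    apply h2
    linear_combination -h
  · intro h
    rw [if_pos h]

lemma psiF_sign (P : W.Point) : psiF P = 1 ∨ psiF P = -1 := by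
  unfold psiF
  split_ifs
  · left; rfl
  · right; rfl

lemma add_zero_or (hW : Short W) (h2 : (2 : K) ≠ 0) {P Q : W.Point} (hP : P = 0 ∨ IsTF P)
    (hQ : Q = 0 ∨ IsTF Q) : P + Q = 0 ∨ IsTF (P + Q) := by
  rcases hP with rfl | hP
  · rwa [zero_add]
  · rcases hQ with rfl | hQ
    · rw [add_zero]
      exact Or.inr hP
    · left
      rw [hP.unique hQ, ← two_nsmul, hQ.two hW h2]

lemma neg_zero_or (hW : Short W) (h2 : (2 : K) ≠ 0) {P : W.Point} (hP : P = 0 ∨ IsTF P) :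
    -P = 0 ∨ IsTF (-P) := by
  have h : -P = P := by
    have h3 := two_of_zero_or hW h2 hP
    rw [two_nsmul] at h3
    exact neg_eq_of_add_eq_zero_left h3
  rwa [h]

lemma psiF_add (hW : Short W) (h2 : (2 : K) ≠ 0) {P Q : W.Point} (hP : P = 0 ∨ IsTF P)
    (hQ : Q = 0 ∨ IsTF Q) : psiF (P + Q) = psiF P * psiF Q := by
  rcases hP with rfl | hP
  · rw [zero_add, psiF_zero, one_mul]
  · rcases hQ with rfl | hQ
    · rw [add_zero, psiF_zero, mul_one]
    · rw [hP.unique hQ, ← two_nsmul, hQ.two hW h2, psiF_zero, psiF, if_neg hQ.ne_zero]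
      ring

/-- An element of `{0, T}` is determined by its character. -/
lemma eq_of_psiF (h2 : (2 : K) ≠ 0) {P Q : W.Point} (hP : P = 0 ∨ IsTF P)
    (hQ : Q = 0 ∨ IsTF Q) (h : psiF P = psiF Q) : P = Q := by
  rcases hP with rfl | hP
  · rw [psiF_zero, eq_comm, psiF_eq_one_iff h2] at h
    exact h.symm
  · rcases hQ with rfl | hQ
    · rw [psiF_zero, psiF_eq_one_iff h2] at h
      exact h
    · exact hP.unique hQ

/-- A point whose double is `(0, 0)`. -/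
lemma sq_of_double (hW : Short W) (h2 : (2 : K) ≠ 0) (ha : W.a₆ = 0) {x y : K}
    (h : W.Nonsingular x y)
    (hT : IsTF (2 • (Point.some x y h : W.Point))) : y ≠ 0 ∧ x ≠ 0 ∧ x ^ 2 = W.a₄ := by
  obtain ⟨h0, hT'⟩ := hT
  rw [two_nsmul] at hT'
  have hy : y ≠ 0 := by
    intro hy
    rw [(add_self_eq_zero_iff hW h2 h).mpr hy] at hT'
    exact Point.some_ne_zero _ hT'.symm
  have hne : y ≠ W.negY x y := by
    rw [hW.negY]
    intro h1
    have : 2 * y = 0 := by linear_combination h1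
    exact hy ((mul_eq_zero.mp this).resolve_left h2)
  have h3 := rho_sq hW h2 (rt_zero ha) h hy
  rw [Point.add_self_of_Y_ne hne] at hT'
  simp only [Point.some.injEq] at hT'
  rw [hT'.1, sub_zero] at h3
  have h4 : rho 0 (Point.some x y h : W.Point) = 0 := pow_eq_zero_iff two_ne_zero |>.mp h3
  rw [rho_some, if_neg hy, div_eq_zero_iff] at h4
  have h5 := h4.resolve_right (mul_ne_zero h2 hy)
  have h6 : x ^ 2 = W.a₄ := by linear_combination h5
  refine ⟨hy, ?_, h6⟩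
  rintro rfl
  have h7 := hW.equation h.1
  apply hy
  have h8 : y ^ 2 = 0 := by rw [h7, ha]; ring
  exact pow_eq_zero_iff two_ne_zero |>.mp h8

/-- Translation of a point whose double is `(0, 0)` by a two-torsion point. -/
lemma x_add_torsion (hW : Short W) (h2 : (2 : K) ≠ 0) (ha : W.a₆ = 0) {x y x' y' : K}
    (h : W.Nonsingular x y) (h' : W.Nonsingular x' y')
    (hT : IsTF (2 • (Point.some x y h : W.Point))) {P : W.Point} (hP : 2 • P = 0)
    (he : (Point.some x' y' h' : W.Point) = .some x y h + P) : x' = rho 0 P * x := by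
  obtain ⟨hy, hx, hsq⟩ := sq_of_double hW h2 ha h hT
  rcases (two_torsion_iff hW h2 P).mp hP with rfl | ⟨e, hes, het, rfl⟩
  · rw [add_zero] at he
    simp only [Point.some.injEq] at he
    rw [he.1, rho_zero, one_mul]
  · have heq := hW.equation h.1
    have hxe : x ≠ e := by
      rintro rfl
      apply hy
      have : y ^ 2 = 0 := by rw [heq]; exact het
      exact pow_eq_zero_iff (two_ne_zero) |>.mp this
    have hxe' : x - e ≠ 0 := sub_ne_zero.mpr hxe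
    rw [Point.add_of_X_ne hxe] at he
    simp only [Point.some.injEq] at he
    have hX : x' - e = (3 * e ^ 2 + 2 * W.a₂ * e + W.a₄) / (x - e) := by
      rw [he.1, Affine.addX, Affine.slope_of_X_ne hxe, hW.a₁]
      unfold Rt at het
      field_simp
      linear_combination heq + het
    rw [eq_div_iff hxe', ← hsq] at hX
    rw [rho_two_torsion]
    unfold Rt at het
    rw [ha, ← hsq] at het
    by_cases h0 : e = 0
    · subst h0
      rw [if_pos rfl, one_mul]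
      have h6 : (x' - x) * x = 0 := by linear_combination hX
      exact sub_eq_zero.mp ((mul_eq_zero.mp h6).resolve_right hx)
    · rw [if_neg h0]
      have h5 : e ^ 2 + W.a₂ * e + x ^ 2 = 0 := by
        have h6 : e * (e ^ 2 + W.a₂ * e + x ^ 2) = 0 := by linear_combination het
        exact (mul_eq_zero.mp h6).resolve_left h0
      have h6 : (x' + x) * (x - e) = 0 := by linear_combination hX + 2 * h5
      have := (mul_eq_zero.mp h6).resolve_right hxe'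
      linear_combination this

end Basic

section Map

variable {R F : Type*} [CommRing R] [Field F] {K : Type*} [Field K] [Algebra R K]
  [Algebra F[X] K] {W : Affine R} {A B : F[X]}

lemma IsABF.short (h : IsABF K W A B) : Short (W.baseChange K) := ⟨h.a₁, h.a₃⟩

lemma IsABF.six (h : IsABF K W A B) : (W.baseChange K).a₆ = 0 := h.a₆

lemma IsABF.four (h : IsABF K W A B) : (W.baseChange K).a₄ = algebraMap F[X] K B := h.a₄

lemma IsABF.a2 (h : IsABF K W A B) : (W.baseChange K).a₂ = algebraMap F[X] K A := h.a₂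

lemma IsABF.up {M : Type*} [Field M] [Algebra R M] [Algebra F[X] M] [Algebra K M]
    [IsScalarTower R K M] [IsScalarTower F[X] K M] (h : IsABF K W A B) : IsABF M W A B where
  a₁ := by rw [IsScalarTower.algebraMap_apply R K M, h.a₁, map_zero]
  a₂ := by rw [IsScalarTower.algebraMap_apply R K M, h.a₂, ← IsScalarTower.algebraMap_apply]
  a₃ := by rw [IsScalarTower.algebraMap_apply R K M, h.a₃, map_zero]
  a₄ := by rw [IsScalarTower.algebraMap_apply R K M, h.a₄, ← IsScalarTower.algebraMap_apply]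
  a₆ := by rw [IsScalarTower.algebraMap_apply R K M, h.a₆, map_zero]

end Map

section Aut

variable {R S : Type*} [CommRing R] [CommRing S] {M M' : Type*} [Field M] [Field M']
  [Algebra R S] [Algebra R M] [Algebra S M] [IsScalarTower R S M] [Algebra R M']
  [Algebra S M'] [IsScalarTower R S M'] {W : Affine R}

lemma IsTF.map (f : M →ₐ[S] M') {P : (W.baseChange M).Point} (h : IsTF P) :
    IsTF (Point.map (W' := W) f P) := by
  obtain ⟨h1, rfl⟩ := h
  rw [Point.map_some]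
  have h0 : f (0 : M) = 0 := map_zero f
  refine ⟨?_, ?_⟩
  · have := (W.baseChange_nonsingular (f := f) f.injective 0 0).mpr h1
    rwa [h0] at this
  · simp only [Point.some.injEq]
    exact ⟨h0, h0⟩

lemma zero_or_map (f : M →ₐ[S] M') {P : (W.baseChange M).Point} (h : P = 0 ∨ IsTF P) :
    Point.map (W' := W) f P = 0 ∨ IsTF (Point.map (W' := W) f P) := by
  rcases h with rfl | h
  · left; exact map_zero _
  · exact Or.inr (h.map f)

lemma map_eq_of_zero_or (f : M →ₐ[S] M) {P : (W.baseChange M).Point} (h : P = 0 ∨ IsTF P) :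
    Point.map (W' := W) f P = P := by
  rcases h with rfl | h
  · exact map_zero _
  · exact (h.map f).unique h

lemma psiF_map (f : M →ₐ[S] M') (P : (W.baseChange M).Point) :
    psiF (Point.map (W' := W) f P) = f (psiF P) := by
  unfold psiF
  have h : Point.map (W' := W) f P = 0 ↔ P = 0 := by
    constructor
    · intro h
      apply Point.map_injective (W' := W) f
      rw [h, map_zero]
    · rintro rfl
      exact map_zero _
  by_cases h0 : P = 0
  · rw [if_pos h0, if_pos (h.mpr h0), map_one]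
  · rw [if_neg h0, if_neg (fun h1 => h0 (h.mp h1)), map_neg, map_one]

lemma rho_zero_map (f : M →ₐ[S] M') {P : (W.baseChange M).Point} :
    rho 0 (Point.map (W' := W) f P) = f (rho 0 P) := by
  have := rho_map (W' := W) f 0 P
  rwa [map_zero] at this

end Aut

end Pool.Agent.Lib.MP_89bcae_ag

end TorFPart

section CtxFPart

/-!
# The curve `y² = x (x² + A x + B)` over the separable closure of `F(t)`
-/

open Polynomial WeierstrassCurve WeierstrassCurve.Affine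

open scoped Classical

namespace Pool.Agent.Lib.MP_89bcae_ag

set_option linter.unusedSectionVars false

/-- The set of roots. -/
noncomputable def rtF {F : Type*} [Field F] (p : F[X]) : Finset F := p.roots.toFinset

section Roots

variable {F : Type*} [Field F]

lemma mem_rtF {p : F[X]} (hp : p ≠ 0) {x : F} : x ∈ rtF p ↔ p.eval x = 0 := by
  rw [rtF, Multiset.mem_toFinset, mem_roots hp, IsRoot.def]

variable [IsAlgClosed F]

lemma card_rtF {p : F[X]} (hp : p.Separable) : (rtF p).card = p.natDegree := by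
  rw [rtF, Multiset.toFinset_card_of_nodup (nodup_roots hp)]
  exact (IsAlgClosed.splits p).natDegree_eq_card_roots.symm

lemma prod_rtF {p : F[X]} (hp : p.Separable) :
    p = C p.leadingCoeff * ∏ α ∈ rtF p, (X - C α) := by
  conv_lhs => rw [(IsAlgClosed.splits p).eq_prod_roots]
  congr 1
  rw [rtF, Finset.prod, Multiset.toFinset_val, (nodup_roots hp).dedup]

end Roots

section Global

variable {F L Ω : Type*} [Field F] [IsAlgClosed F] [Field L] [Field Ω]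
  [Algebra F[X] L] [IsFractionRing F[X] L] [Algebra L Ω] [Algebra F[X] Ω] [IsScalarTower F[X] L Ω]
  [IsGalois L Ω] [IsSepClosed Ω]

/-- The square root of a separable polynomial, as the square root attached to its divisor. -/
lemma exists_char_of_sqrt {p : F[X]} (hp : p.Separable) {s₀ : Ω}
    (hs : s₀ ^ 2 = algebraMap F[X] Ω p) {χ : (Ω ≃ₐ[L] Ω) → Ω}
    (hχ : ∀ σ : Ω ≃ₐ[L] Ω, σ s₀ = χ σ * s₀) :
    ∃ s : Ω, IsCharF χ (rtF p) s := by
  obtain ⟨z, hz⟩ := IsAlgClosed.exists_pow_nat_eq p.leadingCoeff (n := 2) (by norm_num)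
  have hz0 : z ≠ 0 := by
    rintro rfl
    rw [zero_pow two_ne_zero] at hz
    exact hp.ne_zero (leadingCoeff_eq_zero.mp hz.symm)
  have hzΩ : algebraMap F[X] Ω (C z) ≠ 0 := algebraMap_ne_zero_Om L (C_ne_zero.mpr hz0)
  refine ⟨s₀ / algebraMap F[X] Ω (C z), ?_, fun σ => ?_⟩
  · rw [div_pow, hs, div_eq_iff (pow_ne_zero 2 hzΩ), prodF, ← map_pow, ← map_mul]
    congr 1
    conv_lhs => rw [prod_rtF hp, ← hz, C_pow]
    ring
  · rw [map_div₀, hχ, map_D]
    ring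

end Global

section

variable {R F L Ω : Type*} [CommRing R] [Field F] [IsAlgClosed F] [Field L] [Field Ω]
  [Algebra F[X] L] [IsFractionRing F[X] L] [Algebra L Ω] [Algebra F[X] Ω] [IsScalarTower F[X] L Ω]
  [Algebra R L] [Algebra R Ω] [IsScalarTower R L Ω] [IsGalois L Ω] [IsSepClosed Ω]
  {W : Affine R} {A B : F[X]}

/-- Halving. -/
lemma halvesF (L : Type*) [Field L] [Algebra F[X] L] [IsFractionRing F[X] L] [Algebra L Ω]
    [IsScalarTower F[X] L Ω] [IsGalois L Ω] (h2 : (2 : Ω) ≠ 0) (hW : IsABF Ω W A B)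
    (hB : B ≠ 0) (hB' : A ^ 2 - 4 * B ≠ 0)
    (P : (W.baseChange Ω).Point) : ∃ Q : (W.baseChange Ω).Point, Q + Q = P := by
  have hsq : ∀ x : Ω, ∃ z, z ^ 2 = x := fun x => by
    have : NeZero ((2 : ℕ) : Ω) := ⟨by exact_mod_cast h2⟩
    exact IsSepClosed.exists_pow_nat_eq x 2
  set a := algebraMap F[X] Ω A with ha
  set b := algebraMap F[X] Ω B with hb
  have hb0 : b ≠ 0 := algebraMap_ne_zero_Om L hB
  obtain ⟨d, hd⟩ := hsq (algebraMap F[X] Ω (A ^ 2 - 4 * B))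
  have hd0 : d ≠ 0 := by
    rintro rfl
    rw [zero_pow two_ne_zero] at hd
    exact algebraMap_ne_zero_Om L hB' hd.symm
  have hd' : d ^ 2 = a ^ 2 - 4 * b := by
    rw [hd, map_sub, map_mul, map_pow, map_ofNat]
  have hprod : (-a + d) / 2 * ((-a - d) / 2) = b := by
    field_simp
    linear_combination -hd'
  have e2 : (-a + d) / 2 ≠ 0 := fun h => hb0 (by rw [← hprod, h, zero_mul])
  have e3 : (-a - d) / 2 ≠ 0 := fun h => hb0 (by rw [← hprod, h, mul_zero])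
  have e23 : (-a + d) / 2 ≠ (-a - d) / 2 := by
    intro h
    apply hd0
    have h1 : 2 * d = 0 := by
      field_simp at h
      linear_combination h
    exact (mul_eq_zero.mp h1).resolve_left h2
  have hrt : ∀ e : Ω, e ^ 2 + a * e + b = 0 → Rt (W.baseChange Ω) e := by
    intro e he
    rw [Rt, hW.six, hW.four, hW.a2, ← ha, ← hb]
    linear_combination e * he
  obtain ⟨Q, hQ⟩ := exists_half hW.short h2 hsq (rt_zero hW.six)
    (hrt _ (by field_simp; linear_combination hd')) (hrt _ (by field_simp; linear_combination hd'))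
    e2.symm e3.symm e23 P
  exact ⟨Q, by rw [← two_nsmul]; exact hQ⟩

/-- The character of a two-torsion point outside `{0, T}`. -/
lemma char_of_other (h2 : (2 : Ω) ≠ 0) (hW : IsABF Ω W A B)
    (hs : (A ^ 2 - 4 * B).Separable) {P : (W.baseChange Ω).Point} (hP : 2 • P = 0)
    (hP' : ¬ (P = 0 ∨ IsTF P)) :
    (∀ σ : Ω ≃ₐ[L] Ω, Point.map (W' := W) (σ : Ω →ₐ[L] Ω) P - P = 0 ∨
      IsTF (Point.map (W' := W) (σ : Ω →ₐ[L] Ω) P - P)) ∧
    ∃ s : Ω, IsCharF (fun σ : Ω ≃ₐ[L] Ω => psiF (Point.map (W' := W) (σ : Ω →ₐ[L] Ω) P - P))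
      (rtF (A ^ 2 - 4 * B)) s := by
  have hsub : ∀ σ : Ω ≃ₐ[L] Ω, Point.map (W' := W) (σ : Ω →ₐ[L] Ω) P - P = 0 ∨
      IsTF (Point.map (W' := W) (σ : Ω →ₐ[L] Ω) P - P) := by
    intro σ
    have hσ : 2 • Point.map (W' := W) (σ : Ω →ₐ[L] Ω) P = 0 := by
      rw [← map_nsmul, hP, map_zero]
    have hn : 2 • (-P) = 0 := by rw [smul_neg, hP, neg_zero]
    have hnP : -P = P := by
      rw [two_nsmul] at hP
      exact neg_eq_of_add_eq_zero_left hP
    rw [← rho_zero_eq_one_iff hW.short h2 (by rw [smul_sub, hσ, hP, sub_zero]), sub_eq_add_neg,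
      rho_add hW.short h2 (rt_zero hW.six) _ _ hn, hnP, rho_zero_map]
    have := rho_two_torsion_mul_self hW.short h2 0 hP
    rcases rho_two_torsion_sq hW.short h2 0 hP with h | h
    · rw [h]; simp
    · rw [h]; simp
  refine ⟨hsub, ?_⟩
  rcases (two_torsion_iff hW.short h2 P).mp hP with rfl | ⟨e, he, het, rfl⟩
  · exact absurd (Or.inl rfl) hP'
  have he0 : e ≠ 0 := by
    rintro rfl
    exact hP' (Or.inr ⟨he, rfl⟩)
  have h3 : e ^ 2 + algebraMap F[X] Ω A * e + algebraMap F[X] Ω B = 0 := by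
    have h4 := het
    rw [Rt, hW.six, hW.four, hW.a2] at h4
    have h5 : e * (e ^ 2 + algebraMap F[X] Ω A * e + algebraMap F[X] Ω B) = 0 := by
      linear_combination h4
    exact (mul_eq_zero.mp h5).resolve_left he0
  apply exists_char_of_sqrt hs (s₀ := 2 * e + algebraMap F[X] Ω A)
  · rw [map_sub, map_mul, map_pow, map_ofNat]
    linear_combination 4 * h3
  · intro σ
    have h4 : (σ e) ^ 2 + algebraMap F[X] Ω A * σ e + algebraMap F[X] Ω B = 0 := by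
      have := congrArg σ h3
      rwa [map_add, map_add, map_pow, map_mul, map_D, map_D, map_zero] at this
    have h5 : (σ e - e) * (σ e + e + algebraMap F[X] Ω A) = 0 := by
      linear_combination h4 - h3
    rw [map_add, map_mul, map_ofNat, map_D]
    by_cases h6 : σ e = e
    · have h7 : Point.map (W' := W) (σ : Ω →ₐ[L] Ω) (Point.some e 0 he) = Point.some e 0 he := by
        rw [Point.map_some]
        simp only [Point.some.injEq]
        exact ⟨h6, map_zero σ⟩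
      rw [h7, sub_self, psiF_zero, one_mul, h6]
    · have h7 : Point.map (W' := W) (σ : Ω →ₐ[L] Ω) (Point.some e 0 he) - Point.some e 0 he ≠ 0 := by
        intro h8
        rw [sub_eq_zero, Point.map_some] at h8
        simp only [Point.some.injEq] at h8
        exact h6 h8.1
      rw [psiF, if_neg h7]
      have h8 := (mul_eq_zero.mp h5).resolve_left (sub_ne_zero.mpr h6)
      linear_combination 2 * h8

/-- The character of a half of the point `(0, 0)`. -/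
lemma char_of_half (h2 : (2 : Ω) ≠ 0) (hW : IsABF Ω W A B)
    (hs : B.Separable) {Q : (W.baseChange Ω).Point} (hQ : IsTF (2 • Q)) :
    ∃ s : Ω, IsCharF (fun σ : Ω ≃ₐ[L] Ω => rho 0 (Point.map (W' := W) (σ : Ω →ₐ[L] Ω) Q - Q))
      (rtF B) s := by
  rcases Q with _ | ⟨x, y, h⟩
  · exfalso
    apply hQ.ne_zero
    exact smul_zero _
  obtain ⟨-, -, hsq⟩ := sq_of_double hW.short h2 hW.six h hQ
  rw [hW.four] at hsq
  apply exists_char_of_sqrt hs (s₀ := x) hsq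
  intro σ
  have hσ : 2 • (Point.map (W' := W) (σ : Ω →ₐ[L] Ω) (Point.some x y h) - Point.some x y h) = 0 := by
    rw [smul_sub, ← map_nsmul, map_eq_of_zero_or (W := W) (σ : Ω →ₐ[L] Ω) (Or.inr hQ), sub_self]
  have key : ∀ (x' y' : Ω) (h' : (W.baseChange Ω).Nonsingular x' y'),
      Point.map (W' := W) (σ : Ω →ₐ[L] Ω) (Point.some x y h) = Point.some x' y' h' →
      x' = rho 0 (Point.map (W' := W) (σ : Ω →ₐ[L] Ω) (Point.some x y h) - Point.some x y h) * x := by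
    intro x' y' h' he
    apply x_add_torsion hW.short h2 hW.six h h' hQ hσ
    rw [add_sub_cancel, he]
  exact key _ _ _ (Point.map_some _ _)

/-- Galois invariant two-torsion points. -/
lemma zero_or_of_fixed_two (h2 : (2 : Ω) ≠ 0) (hW : IsABF Ω W A B)
    (hs : (A ^ 2 - 4 * B).Separable) (hne : (rtF (A ^ 2 - 4 * B)).Nonempty)
    {P : (W.baseChange Ω).Point} (hP : 2 • P = 0)
    (hfix : ∀ σ : Ω ≃ₐ[L] Ω, Point.map (W' := W) (σ : Ω →ₐ[L] Ω) P = P) : P = 0 ∨ IsTF P := by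
  by_contra hcon
  obtain ⟨-, s, h3⟩ := char_of_other (L := L) h2 hW hs hP hcon
  have h4 : IsCharF (fun σ : Ω ≃ₐ[L] Ω => (1 : Ω)) (rtF (A ^ 2 - 4 * B)) s :=
    h3.congr fun σ => by rw [hfix, sub_self, psiF_zero]
  have := h4.unique isCharF_one
  rw [this] at hne
  exact Finset.not_nonempty_empty hne

/-- The point `(0, 0)` is not the double of an invariant point. -/
lemma not_half_of_fixed (h2 : (2 : Ω) ≠ 0) (hW : IsABF Ω W A B)
    (hs : B.Separable) (hne : (rtF B).Nonempty) {Q : (W.baseChange Ω).Point}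
    (hfix : ∀ σ : Ω ≃ₐ[L] Ω, Point.map (W' := W) (σ : Ω →ₐ[L] Ω) Q = Q) : ¬ IsTF (2 • Q) := by
  intro hQ
  obtain ⟨s, h3⟩ := char_of_half (L := L) h2 hW hs hQ
  have h4 : IsCharF (fun σ : Ω ≃ₐ[L] Ω => (1 : Ω)) (rtF B) s :=
    h3.congr fun σ => by rw [hfix, sub_self, rho_zero]
  have := h4.unique isCharF_one
  rw [this] at hne
  exact Finset.not_nonempty_empty hne

/-- Galois invariant points of two-power order, modulo `{0, T}`. -/
lemma zero_or_of_fixed (h2 : (2 : Ω) ≠ 0) (hW : IsABF Ω W A B)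
    (hs : B.Separable) (hne : (rtF B).Nonempty)
    (hs' : (A ^ 2 - 4 * B).Separable) (hne' : (rtF (A ^ 2 - 4 * B)).Nonempty) (n : ℕ)
    {Q : (W.baseChange Ω).Point}
    (hfix : ∀ σ : Ω ≃ₐ[L] Ω, Point.map (W' := W) (σ : Ω →ₐ[L] Ω) Q = Q)
    (hQ : 2 ^ n • Q = 0 ∨ IsTF (2 ^ n • Q)) : Q = 0 ∨ IsTF Q := by
  induction n generalizing Q with
  | zero => simpa using hQ
  | succ n ih =>
    have h3 : 2 ^ (n + 1) • Q = 2 ^ n • (2 • Q) := by rw [← mul_smul, pow_succ]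
    rw [h3] at hQ
    have hfix' : ∀ σ : Ω ≃ₐ[L] Ω, Point.map (W' := W) (σ : Ω →ₐ[L] Ω) (2 • Q) = 2 • Q :=
      fun σ => by rw [map_nsmul, hfix]
    rcases ih hfix' hQ with h4 | h4
    · exact zero_or_of_fixed_two (L := L) h2 hW hs' hne' h4 hfix
    · exact absurd h4 (not_half_of_fixed (L := L) h2 hW hs hne hfix)

end

end Pool.Agent.Lib.MP_89bcae_ag

end CtxFPart

section GrpFPart

/-!
# The Selmer classes of `y² = x (x² + A x + B)`: groups and divisors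
-/

open Polynomial WeierstrassCurve WeierstrassCurve.Affine

open scoped Classical

namespace Pool.Agent.Lib.MP_89bcae_ag

set_option linter.unusedSectionVars false

section Comb

variable {F : Type*}

/-- The one of the two sets `S` and `R \ S` which has an even number of elements. -/
noncomputable def nrmF (R S : Finset F) : Finset F := if Even S.card then S else R \ S

lemma nrmF_of_even {R S : Finset F} (h : Even S.card) : nrmF R S = S := if_pos h

lemma card_sdiff_odd {R S : Finset F} (hR : Odd R.card) (hS : S ⊆ R) :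
    Even (R \ S).card ↔ ¬ Even S.card := by
  rw [Finset.card_sdiff_of_subset hS, Nat.even_sub (Finset.card_le_card hS)]
  have : ¬ Even R.card := Nat.not_even_iff_odd.mpr hR
  tauto

lemma nrmF_even {R S : Finset F} (hR : Odd R.card) (hS : S ⊆ R) : Even (nrmF R S).card := by
  unfold nrmF
  split_ifs with h
  · exact h
  · exact (card_sdiff_odd hR hS).mpr h

lemma nrmF_subset {R S : Finset F} (hS : S ⊆ R) : nrmF R S ⊆ R := by
  unfold nrmF
  split_ifs with h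
  · exact hS
  · exact Finset.sdiff_subset

lemma symmDiff_full {R S : Finset F} (hS : S ⊆ R) : symmDiff S R = R \ S := by
  rw [symmDiff_def, Finset.sup_eq_union, Finset.sdiff_eq_empty_iff_subset.mpr hS,
    Finset.empty_union]

lemma nrmF_compl {R S : Finset F} (hR : Odd R.card) (hS : S ⊆ R) :
    nrmF R (R \ S) = nrmF R S := by
  unfold nrmF
  by_cases h : Even S.card
  · rw [if_pos h, if_neg (fun h' => (card_sdiff_odd hR hS).mp h' h), Finset.sdiff_sdiff_eq_self hS]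
  · rw [if_neg h, if_pos ((card_sdiff_odd hR hS).mpr h)]

lemma nrmF_eq_iff {R S S' : Finset F} (hR : Odd R.card) (hS : S ⊆ R) (hS' : S' ⊆ R) :
    nrmF R S = nrmF R S' ↔ symmDiff S S' = ∅ ∨ symmDiff S S' = R := by
  constructor
  · intro h
    unfold nrmF at h
    split_ifs at h with h1 h2 h2
    · left
      rw [h]
      exact symmDiff_self _
    · right
      rw [h, symmDiff_def, Finset.sup_eq_union]
      ext x
      have := @hS' x
      simp only [Finset.mem_union, Finset.mem_sdiff]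
      tauto
    · right
      rw [← h, symmDiff_def, Finset.sup_eq_union]
      ext x
      have := @hS x
      simp only [Finset.mem_union, Finset.mem_sdiff]
      tauto
    · left
      have h3 : S = S' := by
        rw [← Finset.sdiff_sdiff_eq_self hS, h, Finset.sdiff_sdiff_eq_self hS']
      rw [h3]
      exact symmDiff_self _
  · rintro (h | h)
    · rw [← Finset.bot_eq_empty, symmDiff_eq_bot] at h
      rw [h]
    · have h3 : S' = R \ S := by
        ext x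
        have h1 := @hS x
        have h2 := @hS' x
        have h4 := Finset.ext_iff.mp h x
        rw [symmDiff_def, Finset.sup_eq_union] at h4
        simp only [Finset.mem_union, Finset.mem_sdiff] at h4 ⊢
        tauto
      rw [h3, nrmF_compl hR hS]

end Comb

section

variable {k F L Ω : Type*} [Field k] [Field F] [Algebra k F] [Algebra.IsAlgebraic k F]
  [IsAlgClosed F] [Field L] [Field Ω]
  [Algebra F[X] L] [IsFractionRing F[X] L] [Algebra L Ω] [Algebra F[X] Ω] [IsScalarTower F[X] L Ω]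
  [Algebra k[X] L] [Algebra k[X] Ω] [IsScalarTower k[X] L Ω]
  [IsGalois L Ω] [IsSepClosed Ω] [IsSepClosure L Ω]

variable {hk : ∀ p : k[X], algebraMap k[X] L p = algebraMap F[X] L (p.map (algebraMap k F))}
variable {W : Affine k[X]} {LT : ((Ω ≃ₐ[L] Ω) → (W.baseChange Ω).Point) → Prop} {A B : F[X]}

/-- The standing assumptions. -/
structure CtxF (hk : ∀ p : k[X], algebraMap k[X] L p = algebraMap F[X] L (p.map (algebraMap k F)))
    (W : Affine k[X]) (A B : F[X])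
    (LT : ((Ω ≃ₐ[L] Ω) → (W.baseChange Ω).Point) → Prop) : Prop where
  two : (2 : F) ≠ 0
  sep : B.Separable
  sep' : (A ^ 2 - 4 * B).Separable
  odd : Odd B.natDegree
  odd' : Odd (A ^ 2 - 4 * B).natDegree
  mapA : ∀ τ : F ≃ₐ[k] F, A.map (τ : F →+* F) = A
  mapB : ∀ τ : F ≃ₐ[k] F, B.map (τ : F →+* F) = B
  ab : IsABF Ω W A B
  ax : LocAxF hk W A B LT

lemma CtxF.twoO (h : CtxF hk W A B LT) : (2 : Ω) ≠ 0 := two_ne_zero_Om (F := F) L Ω h.two

lemma CtxF.short (h : CtxF hk W A B LT) : Short (W.baseChange Ω) := h.ab.short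

lemma CtxF.rt0 (h : CtxF hk W A B LT) : Rt (W.baseChange Ω) 0 := rt_zero h.ab.six

lemma CtxF.card (h : CtxF hk W A B LT) : Odd (rtF B).card := by
  rw [card_rtF h.sep]
  exact h.odd

lemma CtxF.card' (h : CtxF hk W A B LT) : Odd (rtF (A ^ 2 - 4 * B)).card := by
  rw [card_rtF h.sep']
  exact h.odd'

lemma CtxF.ne (h : CtxF hk W A B LT) : (rtF B).Nonempty :=
  Finset.card_pos.mp h.card.pos

lemma CtxF.ne' (h : CtxF hk W A B LT) : (rtF (A ^ 2 - 4 * B)).Nonempty :=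
  Finset.card_pos.mp h.card'.pos

lemma CtxF.halves (h : CtxF hk W A B LT) (P : (W.baseChange Ω).Point) :
    ∃ Q : (W.baseChange Ω).Point, Q + Q = P :=
  halvesF L h.twoO h.ab h.sep.ne_zero h.sep'.ne_zero P

lemma CtxF.zero (h : CtxF hk W A B LT) : LT 0 := by
  have := h.ax.cob 0
  have h0 : (fun σ : Ω ≃ₐ[L] Ω => Point.map (W' := W) (σ : Ω →ₐ[L] Ω)
      (0 : (W.baseChange Ω).Point) - 0) = 0 := by
    funext σ
    rw [map_zero, sub_zero]
    rfl
  rwa [h0] at this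

/-- The point `(0, 0)`. -/
lemma CtxF.exists_T (h : CtxF hk W A B LT) : ∃ P : (W.baseChange Ω).Point, IsTF P := by
  have hb0 : algebraMap F[X] Ω B ≠ 0 := algebraMap_ne_zero_Om L h.sep.ne_zero
  have hn : (W.baseChange Ω).Nonsingular 0 0 := by
    apply h.short.nonsingular_of_rt h.rt0
    rw [h.ab.four]
    simpa using hb0
  exact ⟨_, hn, rfl⟩

/-- A point of order two other than `(0, 0)`. -/
lemma CtxF.exists_other (h : CtxF hk W A B LT) : ∃ P : (W.baseChange Ω).Point, 2 • P = 0 ∧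
    ¬ (P = 0 ∨ IsTF P) := by
  have h2 := h.twoO
  have hW := h.ab
  have hsq : ∀ x : Ω, ∃ z, z ^ 2 = x := fun x => by
    have : NeZero ((2 : ℕ) : Ω) := ⟨by exact_mod_cast h2⟩
    exact IsSepClosed.exists_pow_nat_eq x 2
  set a := algebraMap F[X] Ω A with ha
  set b := algebraMap F[X] Ω B with hb
  have hb0 : b ≠ 0 := algebraMap_ne_zero_Om L h.sep.ne_zero
  obtain ⟨d, hd⟩ := hsq (algebraMap F[X] Ω (A ^ 2 - 4 * B))
  have hd0 : d ≠ 0 := by
    rintro rfl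
    rw [zero_pow two_ne_zero] at hd
    exact algebraMap_ne_zero_Om L h.sep'.ne_zero hd.symm
  have hd' : d ^ 2 = a ^ 2 - 4 * b := by
    rw [hd, map_sub, map_mul, map_pow, map_ofNat]
  have hprod : (-a + d) / 2 * ((-a - d) / 2) = b := by
    field_simp
    linear_combination -hd'
  have e2 : (-a + d) / 2 ≠ 0 := fun h => hb0 (by rw [← hprod, h, zero_mul])
  have hrt : Rt (W.baseChange Ω) ((-a + d) / 2) := by
    rw [Rt, hW.six, hW.four, hW.a2, ← ha, ← hb]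
    field_simp
    linear_combination (-a + d) * hd'
  have hn : (W.baseChange Ω).Nonsingular ((-a + d) / 2) 0 := by
    apply h.short.nonsingular_of_rt hrt
    rw [hW.four, hW.a2, ← ha, ← hb]
    have h3 : 3 * ((-a + d) / 2) ^ 2 + 2 * a * ((-a + d) / 2) + b = d * ((-a + d) / 2) := by
      field_simp
      linear_combination hd'
    rw [h3]
    exact mul_ne_zero hd0 e2
  refine ⟨.some _ _ hn, ?_, ?_⟩
  · rw [two_nsmul]
    exact (add_self_eq_zero_iff h.short h2 hn).mpr rfl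
  · rintro (h3 | ⟨h4, h3⟩)
    · exact Point.some_ne_zero _ h3
    · simp only [Point.some.injEq] at h3
      exact e2 h3.1

/-- The group of Selmer cocycles. -/
def SF (h : CtxF hk W A B LT) : AddSubgroup (ℕ → (Ω ≃ₐ[L] Ω) → (W.baseChange Ω).Point) where
  carrier := {c | IsSel8 W LT c}
  zero_mem' := ⟨TC.zero_tc, fun _ => h.zero⟩
  add_mem' := fun ha hb => ⟨ha.tc.add hb.tc, fun n => h.ax.add _ _ (ha.lt n) (hb.lt n)⟩
  neg_mem' := fun ha => ⟨ha.tc.neg, fun n => h.ax.neg _ (ha.lt n)⟩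

/-- Cocycles whose class is the class of `0` or of `(0, 0)`. -/
def IsTrivF (W : Affine k[X]) (c : ℕ → (Ω ≃ₐ[L] Ω) → (W.baseChange Ω).Point) : Prop :=
  ∃ P : (W.baseChange Ω).Point, (P = 0 ∨ IsTF P) ∧ ∀ n, ∃ Q : (W.baseChange Ω).Point,
    2 ^ n • Q = P ∧ ∀ σ : Ω ≃ₐ[L] Ω, c n σ = Point.map (W' := W) (σ : Ω →ₐ[L] Ω) Q - Q

/-- The group of Selmer cocycles whose class is the class of `0` or of `(0, 0)`. -/
def TF (h : CtxF hk W A B LT) : AddSubgroup (ℕ → (Ω ≃ₐ[L] Ω) → (W.baseChange Ω).Point) where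
  carrier := {c | IsSel8 W LT c ∧ IsTrivF W c}
  zero_mem' := by
    refine ⟨(SF h).zero_mem, 0, Or.inl rfl, fun n => ⟨0, smul_zero _, fun σ => ?_⟩⟩
    rw [map_zero, sub_zero]
    rfl
  add_mem' := by
    rintro a b ⟨ha, P, hP, ha'⟩ ⟨hb, P', hP', hb'⟩
    refine ⟨(SF h).add_mem ha hb, P + P', add_zero_or h.short h.twoO hP hP', fun n => ?_⟩
    obtain ⟨Q, hQ, h1⟩ := ha' n
    obtain ⟨Q', hQ', h2⟩ := hb' n
    refine ⟨Q + Q', by rw [smul_add, hQ, hQ'], fun σ => ?_⟩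
    change a n σ + b n σ = _
    rw [h1, h2, map_add]
    abel
  neg_mem' := by
    rintro a ⟨ha, P, hP, ha'⟩
    refine ⟨(SF h).neg_mem ha, -P, neg_zero_or h.short h.twoO hP, fun n => ?_⟩
    obtain ⟨Q, hQ, h1⟩ := ha' n
    refine ⟨-Q, by rw [smul_neg, hQ], fun σ => ?_⟩
    change -a n σ = _
    rw [h1, map_neg]
    abel

lemma mem_SF (h : CtxF hk W A B LT) {c : ℕ → (Ω ≃ₐ[L] Ω) → (W.baseChange Ω).Point} :
    c ∈ SF h ↔ IsSel8 W LT c := Iff.rfl

lemma mem_TF (h : CtxF hk W A B LT) {c : ℕ → (Ω ≃ₐ[L] Ω) → (W.baseChange Ω).Point} :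
    c ∈ TF h ↔ IsSel8 W LT c ∧ IsTrivF W c := Iff.rfl

lemma TF_le_SF (h : CtxF hk W A B LT) : TF h ≤ SF h := fun _ hc => hc.1

lemma CtxF.fixed (h : CtxF hk W A B LT) (n : ℕ) {Q : (W.baseChange Ω).Point}
    (hfix : ∀ σ : Ω ≃ₐ[L] Ω, Point.map (W' := W) (σ : Ω →ₐ[L] Ω) Q = Q)
    (hQ : 2 ^ n • Q = 0 ∨ IsTF (2 ^ n • Q)) : Q = 0 ∨ IsTF Q :=
  zero_or_of_fixed (L := L) h.twoO h.ab h.sep h.ne h.sep' h.ne' n hfix hQ

/-- A cocycle which is at every level the class of `0` or `(0, 0)`. -/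
lemma CtxF.mem_TF_of (h : CtxF hk W A B LT) {x : ℕ → (Ω ≃ₐ[L] Ω) → (W.baseChange Ω).Point}
    (hx : IsSel8 W LT x)
    (H : ∀ n, ∃ Q : (W.baseChange Ω).Point, (2 ^ n • Q = 0 ∨ IsTF (2 ^ n • Q)) ∧
      ∀ σ : Ω ≃ₐ[L] Ω, x n σ = Point.map (W' := W) (σ : Ω →ₐ[L] Ω) Q - Q) : x ∈ TF h := by
  obtain ⟨Q₁, hQ₁, h1⟩ := H 1
  rw [pow_one] at hQ₁
  refine ⟨hx, 2 • Q₁, hQ₁, fun n => ?_⟩
  cases n with
  | zero =>
    refine ⟨2 • Q₁, by rw [pow_zero, one_smul], fun σ => ?_⟩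
    rw [hx.tc.zero, map_eq_of_zero_or (W := W) (σ : Ω →ₐ[L] Ω) hQ₁, sub_self]
  | succ n =>
    obtain ⟨Q, hQ, h2⟩ := H (n + 1)
    refine ⟨Q, ?_, h2⟩
    have hlev : ∀ (j : ℕ) (σ : Ω ≃ₐ[L] Ω), 2 ^ j • x (j + 1) σ = x 1 σ := by
      intro j σ
      induction j with
      | zero => simp
      | succ j ih =>
        rw [pow_succ, mul_smul, hx.tc.two, ih]
    -- the difference is fixed
    have h3 : ∀ σ : Ω ≃ₐ[L] Ω, Point.map (W' := W) (σ : Ω →ₐ[L] Ω) (2 ^ n • Q - Q₁) =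
        2 ^ n • Q - Q₁ := by
      intro σ
      have h4 := hlev n σ
      rw [h2, h1, smul_sub, ← map_nsmul, sub_eq_sub_iff_sub_eq_sub, ← map_sub] at h4
      exact h4
    have h5 : 2 ^ (n + 1) • Q = 2 • (2 ^ n • Q) := by
      rw [← mul_smul, pow_succ, mul_comm]
    have h6 := h.fixed 1 h3 (by
      rw [pow_one, smul_sub, ← h5, sub_eq_add_neg]
      exact add_zero_or h.short h.twoO hQ (neg_zero_or h.short h.twoO hQ₁))
    have h7 := two_of_zero_or h.short h.twoO h6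
    rw [smul_sub, ← h5, sub_eq_zero] at h7
    exact h7

/-- The group of classes has no two-torsion. -/
lemma CtxF.torsionFree (h : CtxF hk W A B LT)
    {c : ℕ → (Ω ≃ₐ[L] Ω) → (W.baseChange Ω).Point} (hc : IsSel8 W LT c)
    (h2 : c + c ∈ TF h) : c ∈ TF h := by
  obtain ⟨-, P, hP, H⟩ := h2
  have h3 : ∀ n, ∃ Q : (W.baseChange Ω).Point, 2 ^ (n + 1) • Q = P ∧
      ∀ σ : Ω ≃ₐ[L] Ω, c n σ = Point.map (W' := W) (σ : Ω →ₐ[L] Ω) Q - Q := by
    intro n
    obtain ⟨Q, hQ, h1⟩ := H (n + 1)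
    refine ⟨Q, hQ, fun σ => ?_⟩
    rw [← h1 σ, ← hc.tc.two n σ, two_nsmul]
    rfl
  have hP0 : P = 0 := by
    obtain ⟨Q, hQ, h1⟩ := h3 0
    rw [zero_add, pow_one] at hQ
    rcases hP with hP | hP
    · exact hP
    · exfalso
      rw [← hQ] at hP
      refine not_half_of_fixed (L := L) h.twoO h.ab h.sep h.ne (fun σ => ?_) hP
      have := h1 σ
      rw [hc.tc.zero] at this
      exact (sub_eq_zero.mp this.symm)
  apply h.mem_TF_of hc
  intro n
  obtain ⟨Q, hQ, h1⟩ := h3 n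
  refine ⟨Q, ?_, h1⟩
  apply h.fixed 1
  · intro σ
    have h4 : 2 ^ n • c n σ = 2 ^ n • (Point.map (W' := W) (σ : Ω →ₐ[L] Ω) Q - Q) := by
      rw [← h1 σ]
    rw [hc.tc.two_pow, smul_sub, ← map_nsmul] at h4
    exact (sub_eq_zero.mp h4.symm)
  · left
    rw [pow_one, ← mul_smul, mul_comm, ← pow_succ, hQ, hP0]

/-- The group of classes is separated. -/
lemma CtxF.separated (h : CtxF hk W A B LT)
    {c : ℕ → (Ω ≃ₐ[L] Ω) → (W.baseChange Ω).Point} (hc : IsSel8 W LT c)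
    (h2 : ∀ n : ℕ, ∃ y ∈ SF h, c - 2 ^ n • y ∈ TF h) : c ∈ TF h := by
  apply h.mem_TF_of hc
  intro n
  obtain ⟨y, hy, -, P, hP, H⟩ := h2 n
  obtain ⟨Q, hQ, h1⟩ := H n
  refine ⟨Q, by rw [hQ]; exact hP, fun σ => ?_⟩
  rw [← h1 σ]
  change c n σ = c n σ - 2 ^ n • y n σ
  rw [(show IsSel8 W LT y from hy).tc.two_pow, sub_zero]

lemma CtxF.map_mem_S (h : CtxF hk W A B LT) (γ : Ω ≃ₐ[k[X]] Ω)
    {c : ℕ → (Ω ≃ₐ[L] Ω) → (W.baseChange Ω).Point} (hc : IsSel8 W LT c) :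
    IsSel8 W LT (rho8 hk W γ c) :=
  ⟨hc.tc.rho8 hk γ, fun n => h.ax.conj γ _ (hc.lt n)⟩

lemma CtxF.map_mem_T (h : CtxF hk W A B LT) (γ : Ω ≃ₐ[k[X]] Ω)
    {c : ℕ → (Ω ≃ₐ[L] Ω) → (W.baseChange Ω).Point} (hc : c ∈ TF h) :
    rho8 hk W γ c ∈ TF h := by
  obtain ⟨hc1, P, hP, H⟩ := hc
  refine ⟨h.map_mem_S γ hc1, Point.map (W' := W) (γ : Ω →ₐ[k[X]] Ω) P,
    zero_or_map _ hP, fun n => ?_⟩
  obtain ⟨Q, hQ, h1⟩ := H n
  refine ⟨Point.map (W' := W) (γ : Ω →ₐ[k[X]] Ω) Q, by rw [← map_nsmul, hQ], fun σ => ?_⟩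
  rw [rho8_apply, h1, map_sub, gamma_sigma_map]

/-- Trivial classes. -/
lemma CtxF.triv_mem_T (h : CtxF hk W A B LT)
    {c : ℕ → (Ω ≃ₐ[L] Ω) → (W.baseChange Ω).Point} (hc : IsSel8 W LT c)
    (H : ∀ n, ∃ Q : (W.baseChange Ω).Point, 2 ^ n • Q = 0 ∧
      ∀ σ : Ω ≃ₐ[L] Ω, c n σ = Point.map (W' := W) (σ : Ω →ₐ[L] Ω) Q - Q) : c ∈ TF h :=
  ⟨hc, 0, Or.inl rfl, H⟩

/-- Automorphisms with the same restriction to `F` have the same action on classes. -/
lemma CtxF.sub_mem_T (h : CtxF hk W A B LT) {γ γ' : Ω ≃ₐ[k[X]] Ω}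
    (hγ : resF hk γ = resF hk γ') {x : ℕ → (Ω ≃ₐ[L] Ω) → (W.baseChange Ω).Point}
    (hx : IsSel8 W LT x) : rho8 hk W γ' x - rho8 hk W γ x ∈ TF h := by
  obtain ⟨σ₀, hσ₀⟩ := exists_inner hk (γ := γ⁻¹ * γ') (by
    rw [resF_mul, resF_inv, hγ, inv_mul_cancel])
  have h1 : rho8 hk W (γ⁻¹ * γ') x - x ∈ TF h := by
    apply h.triv_mem_T ((SF h).sub_mem (h.map_mem_S _ hx) hx)
    intro n
    exact ⟨x n σ₀, hx.tc.two_pow n σ₀, fun σ => rho8_inner hk hx.tc hσ₀ n σ⟩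
  have h2 := h.map_mem_T γ h1
  rwa [map_sub, ← end_mul_apply8, ← map_mul, mul_inv_cancel_left] at h2

/-- The first descent character of a Selmer cocycle. -/
lemma CtxF.exists_div (h : CtxF hk W A B LT) {x : ℕ → (Ω ≃ₐ[L] Ω) → (W.baseChange Ω).Point}
    (hx : IsSel8 W LT x) : ∃ (S : Finset F) (s : Ω),
      IsCharF (fun σ : Ω ≃ₐ[L] Ω => rho 0 (x 1 σ)) S s ∧ S ⊆ rtF B := by
  obtain ⟨S, s, hs⟩ := exists_charF (L := L) (F := F) (fun σ : Ω ≃ₐ[L] Ω => rho 0 (x 1 σ))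
    (fun σ => rho_two_torsion_sq h.short h.twoO 0 (hx.tc.two_one σ))
    (fun σ τ => by
      rw [hx.tc.mul, rho_add h.short h.twoO h.rt0 _ _ (by
        rw [← map_nsmul, hx.tc.two_one, map_zero]), rho_zero_map]
      rcases rho_two_torsion_sq h.short h.twoO 0 (hx.tc.two_one τ) with e | e <;> simp [e])
    ((hx.tc.loc 1).comp (rho 0))
  refine ⟨S, s, hs, fun α hα => ?_⟩
  rw [mem_rtF h.sep.ne_zero]
  exact h.ax.root (x 1) hx.tc.two_one (hx.lt 1) S s hs α hα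

/-- The second descent character of a Selmer cocycle. -/
lemma CtxF.exists_div' (h : CtxF hk W A B LT) {x : ℕ → (Ω ≃ₐ[L] Ω) → (W.baseChange Ω).Point}
    (hx : IsSel8 W LT x) (hx1 : ∀ σ, x 1 σ = 0 ∨ IsTF (x 1 σ)) : ∃ (S : Finset F) (s : Ω),
      IsCharF (fun σ : Ω ≃ₐ[L] Ω => psiF (x 1 σ)) S s ∧ S ⊆ rtF (A ^ 2 - 4 * B) := by
  obtain ⟨S, s, hs⟩ := exists_charF (L := L) (F := F) (fun σ : Ω ≃ₐ[L] Ω => psiF (x 1 σ))
    (fun σ => psiF_sign _)
    (fun σ τ => by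
      rw [hx.tc.mul, psiF_add h.short h.twoO (hx1 σ) (zero_or_map _ (hx1 τ)), psiF_map]
      rcases psiF_sign (x 1 τ) with e | e <;> simp [e])
    ((hx.tc.loc 1).comp psiF)
  refine ⟨S, s, hs, fun β hβ => ?_⟩
  rw [mem_rtF h.sep'.ne_zero]
  exact h.ax.root' (x 1) hx1 (hx.lt 1) S s hs β hβ

/-- The first descent character of a sum. -/
lemma CtxF.div_add (h : CtxF hk W A B LT) {x y : (Ω ≃ₐ[L] Ω) → (W.baseChange Ω).Point}
    (hy2 : ∀ σ, 2 • y σ = 0) {S S' : Finset F} {s s' : Ω}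
    (hs : IsCharF (fun σ : Ω ≃ₐ[L] Ω => rho 0 (x σ)) S s)
    (hs' : IsCharF (fun σ : Ω ≃ₐ[L] Ω => rho 0 (y σ)) S' s') :
    ∃ s'' : Ω, IsCharF (fun σ : Ω ≃ₐ[L] Ω => rho 0 (x σ + y σ)) (symmDiff S S') s'' :=
  ⟨_, (hs.mul hs').congr fun σ => rho_add h.short h.twoO h.rt0 _ _ (hy2 σ)⟩

lemma CtxF.div_neg (h : CtxF hk W A B LT) {y : (Ω ≃ₐ[L] Ω) → (W.baseChange Ω).Point}
    (hy2 : ∀ σ, 2 • y σ = 0) {S' : Finset F} {s' : Ω}
    (hs' : IsCharF (fun σ : Ω ≃ₐ[L] Ω => rho 0 (y σ)) S' s') :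
    IsCharF (fun σ : Ω ≃ₐ[L] Ω => rho 0 (-y σ)) S' s' :=
  hs'.congr fun σ => by
    have h3 := hy2 σ
    rw [two_nsmul] at h3
    rw [neg_eq_of_add_eq_zero_left h3]

lemma CtxF.div_sub (h : CtxF hk W A B LT) {x y : (Ω ≃ₐ[L] Ω) → (W.baseChange Ω).Point}
    (hy2 : ∀ σ, 2 • y σ = 0) {S S' : Finset F} {s s' : Ω}
    (hs : IsCharF (fun σ : Ω ≃ₐ[L] Ω => rho 0 (x σ)) S s)
    (hs' : IsCharF (fun σ : Ω ≃ₐ[L] Ω => rho 0 (y σ)) S' s') :
    ∃ s'' : Ω, IsCharF (fun σ : Ω ≃ₐ[L] Ω => rho 0 (x σ - y σ)) (symmDiff S S') s'' := by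
  obtain ⟨s'', h3⟩ := h.div_add (y := fun σ => -y σ) (fun σ => by rw [smul_neg, hy2, neg_zero]) hs
    (h.div_neg hy2 hs')
  exact ⟨s'', h3.congr fun σ => by rw [sub_eq_add_neg]⟩

/-- The second descent character of a sum. -/
lemma CtxF.div_add' (h : CtxF hk W A B LT) {x y : (Ω ≃ₐ[L] Ω) → (W.baseChange Ω).Point}
    (hx1 : ∀ σ, x σ = 0 ∨ IsTF (x σ)) (hy1 : ∀ σ, y σ = 0 ∨ IsTF (y σ)) {S S' : Finset F}
    {s s' : Ω} (hs : IsCharF (fun σ : Ω ≃ₐ[L] Ω => psiF (x σ)) S s)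
    (hs' : IsCharF (fun σ : Ω ≃ₐ[L] Ω => psiF (y σ)) S' s') :
    ∃ s'' : Ω, IsCharF (fun σ : Ω ≃ₐ[L] Ω => psiF (x σ + y σ)) (symmDiff S S') s'' :=
  ⟨_, (hs.mul hs').congr fun σ => psiF_add h.short h.twoO (hx1 σ) (hy1 σ)⟩

lemma CtxF.div_sub' (h : CtxF hk W A B LT) {x y : (Ω ≃ₐ[L] Ω) → (W.baseChange Ω).Point}
    (hx1 : ∀ σ, x σ = 0 ∨ IsTF (x σ)) (hy1 : ∀ σ, y σ = 0 ∨ IsTF (y σ)) {S S' : Finset F}
    {s s' : Ω} (hs : IsCharF (fun σ : Ω ≃ₐ[L] Ω => psiF (x σ)) S s)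
    (hs' : IsCharF (fun σ : Ω ≃ₐ[L] Ω => psiF (y σ)) S' s') :
    ∃ s'' : Ω, IsCharF (fun σ : Ω ≃ₐ[L] Ω => psiF (x σ - y σ)) (symmDiff S S') s'' := by
  obtain ⟨s'', h3⟩ := h.div_add' hx1 hy1 hs hs'
  refine ⟨s'', h3.congr fun σ => ?_⟩
  have h4 := two_of_zero_or h.short h.twoO (hy1 σ)
  rw [two_nsmul] at h4
  rw [sub_eq_add_neg, neg_eq_of_add_eq_zero_left h4]

lemma CtxF.sub_zero_or (h : CtxF hk W A B LT) {P Q : (W.baseChange Ω).Point}
    (hP : P = 0 ∨ IsTF P) (hQ : Q = 0 ∨ IsTF Q) : P - Q = 0 ∨ IsTF (P - Q) := by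
  rw [sub_eq_add_neg]
  exact add_zero_or h.short h.twoO hP (neg_zero_or h.short h.twoO hQ)

/-- The cocycle of a sequence of halves of `0` or `(0, 0)`. -/
lemma CtxF.del_mem_T (h : CtxF hk W A B LT) {q : ℕ → (W.baseChange Ω).Point}
    (hq : ∀ n, q (n + 1) + q (n + 1) = q n) (h0 : q 0 = 0 ∨ IsTF (q 0)) :
    del8 W q ∈ TF h := by
  have h1 : ∀ σ : Ω ≃ₐ[L] Ω, Point.map (W' := W) (σ : Ω →ₐ[L] Ω) (q 0) = q 0 :=
    fun σ => map_eq_of_zero_or (W := W) (σ : Ω →ₐ[L] Ω) h0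
  refine ⟨⟨?_, fun n => h.ax.cob (q n)⟩, q 0, h0, fun n => ⟨q n, two_pow_seq8 hq n, fun σ => rfl⟩⟩
  exact
    { zero := fun σ => by
        change Point.map (W' := W) (σ : Ω →ₐ[L] Ω) (q 0) - q 0 = 0
        rw [h1, sub_self]
      two := fun n σ => by
        change 2 • (Point.map (W' := W) (σ : Ω →ₐ[L] Ω) (q (n + 1)) - q (n + 1)) =
          Point.map (W' := W) (σ : Ω →ₐ[L] Ω) (q n) - q n
        rw [smul_sub, ← map_nsmul, two_nsmul, hq]
      mul := fun n σ τ => by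
        have e : Point.map (W' := W) ((σ * τ : Ω ≃ₐ[L] Ω) : Ω →ₐ[L] Ω) (q n) =
            Point.map (σ : Ω →ₐ[L] Ω) (Point.map (τ : Ω →ₐ[L] Ω) (q n)) := by
          rw [Point.map_map]; rfl
        change Point.map (W' := W) ((σ * τ : Ω ≃ₐ[L] Ω) : Ω →ₐ[L] Ω) (q n) - q n =
          (Point.map (W' := W) (σ : Ω →ₐ[L] Ω) (q n) - q n) +
            Point.map (W' := W) (σ : Ω →ₐ[L] Ω) (Point.map (W' := W) (τ : Ω →ₐ[L] Ω) (q n) - q n)
        rw [e, map_sub]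
        abel
      loc := fun n => (isLocallyConstant_map8 _).sub (IsLocallyConstant.const _) }

/-- The class of `(0, 0)`. -/
lemma CtxF.exists_kappa (h : CtxF hk W A B LT) : ∃ u ∈ TF h, ∃ s : Ω,
    IsCharF (fun σ : Ω ≃ₐ[L] Ω => rho 0 (u 1 σ)) (rtF B) s := by
  obtain ⟨P, hP⟩ := h.exists_T
  obtain ⟨Q, hQ⟩ := h.halves P
  obtain ⟨q, hq0, hq1, hq⟩ := exists_seq8 h.halves P Q hQ
  refine ⟨del8 W q, h.del_mem_T hq (by rw [hq0]; exact Or.inr hP), ?_⟩
  exact char_of_half (L := L) h.twoO h.ab h.sep (Q := q 1) (by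
    rw [two_nsmul, hq, hq0]; exact hP)

/-- The coboundary of a point of order two. -/
lemma CtxF.exists_kappa' (h : CtxF hk W A B LT) : ∃ u ∈ TF h, (∀ σ, u 1 σ = 0 ∨ IsTF (u 1 σ)) ∧
    ∃ s : Ω, IsCharF (fun σ : Ω ≃ₐ[L] Ω => psiF (u 1 σ)) (rtF (A ^ 2 - 4 * B)) s := by
  obtain ⟨P, hP, hP'⟩ := h.exists_other
  obtain ⟨q, hq0, hq1, hq⟩ := exists_seq8 h.halves 0 P (by rw [← two_nsmul]; exact hP)
  have hc := char_of_other (L := L) h.twoO h.ab h.sep' (P := q 1) (by rw [hq1]; exact hP)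
    (by rw [hq1]; exact hP')
  exact ⟨del8 W q, h.del_mem_T hq (Or.inl hq0), hc.1, hc.2⟩

/-- The first descent character of a class in `TF`. -/
lemma CtxF.div_T (h : CtxF hk W A B LT) {u : (Ω ≃ₐ[L] Ω) → (W.baseChange Ω).Point}
    {Q : (W.baseChange Ω).Point} (hQ : 2 • Q = 0 ∨ IsTF (2 • Q))
    (hu : ∀ σ : Ω ≃ₐ[L] Ω, u σ = Point.map (W' := W) (σ : Ω →ₐ[L] Ω) Q - Q) :
    (∃ s : Ω, IsCharF (fun σ : Ω ≃ₐ[L] Ω => rho 0 (u σ)) (∅ : Finset F) s) ∨
    (∃ s : Ω, IsCharF (fun σ : Ω ≃ₐ[L] Ω => rho 0 (u σ)) (rtF B) s) := by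
  rcases hQ with hQ | hQ
  · left
    refine ⟨1, isCharF_one.congr fun σ => ?_⟩
    rw [hu]
    by_cases h3 : Q = 0 ∨ IsTF Q
    · rw [map_eq_of_zero_or (W := W) (σ : Ω →ₐ[L] Ω) h3, sub_self, rho_zero]
    · exact rho_zero_of h.short h.twoO ((char_of_other (L := L) h.twoO h.ab h.sep' hQ h3).1 σ)
  · right
    obtain ⟨s, hs⟩ := char_of_half (L := L) h.twoO h.ab h.sep hQ
    exact ⟨s, hs.congr fun σ => by rw [hu]⟩

/-- The second descent character of a class in `TF`. -/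
lemma CtxF.div_T' (h : CtxF hk W A B LT) {u : (Ω ≃ₐ[L] Ω) → (W.baseChange Ω).Point}
    {Q : (W.baseChange Ω).Point} (hQ : 2 • Q = 0 ∨ IsTF (2 • Q))
    (hu : ∀ σ : Ω ≃ₐ[L] Ω, u σ = Point.map (W' := W) (σ : Ω →ₐ[L] Ω) Q - Q)
    (hu1 : ∀ σ, u σ = 0 ∨ IsTF (u σ)) :
    (∃ s : Ω, IsCharF (fun σ : Ω ≃ₐ[L] Ω => psiF (u σ)) (∅ : Finset F) s) ∨
    (∃ s : Ω, IsCharF (fun σ : Ω ≃ₐ[L] Ω => psiF (u σ)) (rtF (A ^ 2 - 4 * B)) s) := by
  rcases hQ with hQ | hQ
  · by_cases h3 : Q = 0 ∨ IsTF Q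
    · left
      refine ⟨1, isCharF_one.congr fun σ => ?_⟩
      rw [hu, map_eq_of_zero_or (W := W) (σ : Ω →ₐ[L] Ω) h3, sub_self, psiF_zero]
    · right
      obtain ⟨s, hs⟩ := (char_of_other (L := L) h.twoO h.ab h.sep' hQ h3).2
      exact ⟨s, hs.congr fun σ => by rw [hu]⟩
  · exfalso
    obtain ⟨s, hs⟩ := char_of_half (L := L) h.twoO h.ab h.sep hQ
    have h4 : IsCharF (fun σ : Ω ≃ₐ[L] Ω => (1 : Ω)) (rtF B) s :=
      hs.congr fun σ => by rw [← hu, rho_zero_of h.short h.twoO (hu1 σ)]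
    have h5 := h4.unique isCharF_one
    have h6 := h.ne
    rw [h5] at h6
    exact Finset.not_nonempty_empty h6

end

end Pool.Agent.Lib.MP_89bcae_ag

end GrpFPart

section KeyFPart

/-!
# The two formulas for the action of the automorphisms
-/

open Polynomial WeierstrassCurve WeierstrassCurve.Affine

open scoped Classical

namespace Pool.Agent.Lib.MP_89bcae_ag

set_option linter.unusedSectionVars false

/-- The elements `β` of `R` for which the square roots of the product of the `β - α`, `α ∈ S`, are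
moved by `τ`. -/
noncomputable def movF {F : Type*} [Field F] (τ : F → F) (R S : Finset F) : Finset F :=
  R.filter fun β => Moves τ (∏ α ∈ S, (β - α))

section

variable {k F L Ω : Type*} [Field k] [Field F] [Algebra k F] [Algebra.IsAlgebraic k F]
  [IsAlgClosed F] [Field L] [Field Ω]
  [Algebra F[X] L] [IsFractionRing F[X] L] [Algebra L Ω] [Algebra F[X] Ω] [IsScalarTower F[X] L Ω]
  [Algebra k[X] L] [Algebra k[X] Ω] [IsScalarTower k[X] L Ω]
  [IsGalois L Ω] [IsSepClosed Ω] [IsSepClosure L Ω]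

variable {hk : ∀ p : k[X], algebraMap k[X] L p = algebraMap F[X] L (p.map (algebraMap k F))}
variable {W : Affine k[X]} {LT : ((Ω ≃ₐ[L] Ω) → (W.baseChange Ω).Point) → Prop} {A B : F[X]}

/-- An automorphism fixes the square root of a fixed product up to sign. -/
lemma map_sqrt_eq {R : Type*} [CommRing R] [Algebra R Ω] {γ : Ω ≃ₐ[R] Ω} {τ : F →+* F}
    (hγ : ∀ p : F[X], γ (algebraMap F[X] Ω p) = algebraMap F[X] Ω (p.map τ)) {S : Finset F}
    (hτ : ∀ α ∈ S, τ α = α) {s : Ω} (hs : s ^ 2 = prodF Ω S) : γ s = s ∨ γ s = -s := by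
  have h1 : (γ s) ^ 2 = s ^ 2 := by
    rw [← map_pow, hs, prodF, hγ, Polynomial.map_prod]
    congr 1
    apply Finset.prod_congr rfl
    intro α hα
    rw [Polynomial.map_sub, Polynomial.map_X, Polynomial.map_C, hτ α hα]
  have h2 : (γ s - s) * (γ s + s) = 0 := by linear_combination h1
  rcases mul_eq_zero.mp h2 with h | h
  · exact Or.inl (sub_eq_zero.mp h)
  · exact Or.inr (eq_neg_of_add_eq_zero_left h)

/-- The automorphism of the Galois group as an automorphism over `k[t]`. -/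
noncomputable def resK (k : Type*) [Field k] [Algebra k[X] L] [Algebra k[X] Ω]
    [IsScalarTower k[X] L Ω] (σ : Ω ≃ₐ[L] Ω) : Ω ≃ₐ[k[X]] Ω := σ.restrictScalars k[X]

lemma resK_apply (σ : Ω ≃ₐ[L] Ω) (x : Ω) : resK k σ x = σ x := rfl

variable (hk) in
lemma resF_resK (σ : Ω ≃ₐ[L] Ω) : resF hk (resK k σ) = 1 := by
  apply resF_unique
  intro a
  rw [resK_apply, map_D]
  rfl

/-- A lift which fixes a given square root. -/
lemma exists_lift_fix {τ : F ≃ₐ[k] F} {S : Finset F} (hτ : ∀ α ∈ S, τ α = α) {s : Ω}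
    (hs : s ^ 2 = prodF Ω S) : ∃ γ : Ω ≃ₐ[k[X]] Ω, resF hk γ = τ ∧ γ s = s := by
  obtain ⟨γ, hγ⟩ := exists_lift_aut (Ω := Ω) hk τ
  have hres : resF hk γ = τ := by
    apply resF_unique
    intro a
    rw [hγ, map_C]
    rfl
  rcases map_sqrt_eq hγ hτ hs with h | h
  · exact ⟨γ, hres, h⟩
  · by_cases hall : ∀ σ : Ω ≃ₐ[L] Ω, σ s = s
    · have h1 : IsCharF (fun _ : Ω ≃ₐ[L] Ω => (1 : Ω)) S s := ⟨hs, fun σ => by rw [hall, one_mul]⟩
      have h2 := h1.unique isCharF_one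
      subst h2
      have h3 : s * s = 1 := by
        rw [← pow_two, hs, prodF_empty]
      refine ⟨γ, hres, ?_⟩
      rcases mul_self_eq_one_iff.mp h3 with h4 | h4
      · rw [h4, map_one]
      · rw [h4, map_neg, map_one]
    · push Not at hall
      obtain ⟨σ, hσ⟩ := hall
      have h1 : σ s = -s := by
        have h2 : (σ s) ^ 2 = s ^ 2 := by
          rw [← map_pow, hs, prodF, map_D]
        have h3 : (σ s - s) * (σ s + s) = 0 := by linear_combination h2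
        exact eq_neg_of_add_eq_zero_left ((mul_eq_zero.mp h3).resolve_left (sub_ne_zero.mpr hσ))
      refine ⟨γ * resK k σ, ?_, ?_⟩
      · rw [resF_mul, resF_resK, mul_one, hres]
      · rw [AlgEquiv.mul_apply, resK_apply, h1, map_neg, h, neg_neg]

lemma resF_spec' {γ : Ω ≃ₐ[k[X]] Ω} {τ : F ≃ₐ[k] F} (h : resF hk γ = τ) (p : F[X]) :
    γ (algebraMap F[X] Ω p) = algebraMap F[X] Ω (p.map (τ : F →+* F)) := by
  rw [resF_spec hk, h]

/-- The action of `γ'` in terms of the action of `γ`, when both have the same restriction. -/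
lemma exists_inner_rel {γ γ' : Ω ≃ₐ[k[X]] Ω} (h : resF hk γ = resF hk γ') :
    ∃ σ₀ : Ω ≃ₐ[L] Ω, (∀ x, γ' x = γ (σ₀ x)) ∧
      ∀ c : ℕ → (Ω ≃ₐ[L] Ω) → (W.baseChange Ω).Point, TC W c → ∀ n (σ : Ω ≃ₐ[L] Ω),
        Point.map (W' := W) (γ' : Ω →ₐ[k[X]] Ω) (c n (cj hk γ' σ)) - c n σ =
        (Point.map (W' := W) (γ : Ω →ₐ[k[X]] Ω) (c n (cj hk γ σ)) - c n σ) +
          (Point.map (W' := W) (σ : Ω →ₐ[L] Ω)
            (Point.map (W' := W) (γ : Ω →ₐ[k[X]] Ω) (c n σ₀)) -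
            Point.map (W' := W) (γ : Ω →ₐ[k[X]] Ω) (c n σ₀)) := by
  obtain ⟨σ₀, hσ₀⟩ := exists_inner hk (γ := γ⁻¹ * γ') (by
    rw [resF_mul, resF_inv, h, inv_mul_cancel])
  refine ⟨σ₀, ?_, ?_⟩
  · intro x
    rw [← hσ₀, AlgEquiv.mul_apply, ← AlgEquiv.mul_apply γ γ⁻¹, mul_inv_cancel]
    rfl
  · intro c hc n σ
    have h1 := rho8_inner hk hc hσ₀ n (cj hk γ σ)
    have h2 := congrArg (Point.map (W' := W) (γ : Ω →ₐ[k[X]] Ω)) h1
    rw [map_sub, map_sub, gamma_sigma_map, sub_eq_iff_eq_add] at h2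
    have h3 : rho8 hk W γ' c n σ =
        Point.map (W' := W) (γ : Ω →ₐ[k[X]] Ω) (rho8 hk W (γ⁻¹ * γ') c n (cj hk γ σ)) := by
      have h4 : rho8 hk W γ' c = rho8 hk W γ (rho8 hk W (γ⁻¹ * γ') c) := by
        rw [← end_mul_apply8, ← map_mul, mul_inv_cancel_left]
      rw [h4]
      rfl
    have h5 : Point.map (W' := W) (γ' : Ω →ₐ[k[X]] Ω) (c n (cj hk γ' σ)) =
      rho8 hk W γ' c n σ := rfl
    rw [h5, h3, h2]
    abel

/-- The character of the conjugate, for an automorphism fixing the square root. -/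
lemma chi_conj_eq {γ : Ω ≃ₐ[k[X]] Ω} {χ : (Ω ≃ₐ[L] Ω) → Ω} {S : Finset F} {s : Ω}
    (hs : IsCharF χ S s) (hfix : γ s = s) (hχ : ∀ σ, χ σ = 1 ∨ χ σ = -1) (σ : Ω ≃ₐ[L] Ω) :
    χ (cj hk γ σ) = χ σ := by
  have h1 := cj_spec hk γ σ s
  rw [hfix, hs.act, hs.act, map_mul, hfix] at h1
  have h2 : γ (χ (cj hk γ σ)) = χ (cj hk γ σ) := by
    rcases hχ (cj hk γ σ) with h | h <;> rw [h] <;> simp
  rw [h2] at h1
  exact mul_right_cancel₀ hs.ne_zero h1

/-- **First formula.** -/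
lemma CtxF.key (h : CtxF hk W A B LT) {x : ℕ → (Ω ≃ₐ[L] Ω) → (W.baseChange Ω).Point}
    (hx : IsSel8 W LT x) {S : Finset F} {s : Ω}
    (hs : IsCharF (fun σ : Ω ≃ₐ[L] Ω => rho 0 (x 1 σ)) S s) {τ : F ≃ₐ[k] F}
    (hτ : ∀ a, B.eval a = 0 ∨ (A ^ 2 - 4 * B).eval a = 0 → τ a = a) {γ : Ω ≃ₐ[k[X]] Ω}
    (hγ : resF hk γ = τ) (hfix : γ s = s) :
    (∀ σ, (rho8 hk W γ x - x) 1 σ = 0 ∨ IsTF ((rho8 hk W γ x - x) 1 σ)) ∧
    ∃ s' : Ω, IsCharF (fun σ : Ω ≃ₐ[L] Ω => psiF ((rho8 hk W γ x - x) 1 σ))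
      (movF τ (rtF (A ^ 2 - 4 * B)) S) s' := by
  have hy : IsSel8 W LT (rho8 hk W γ x - x) := (SF h).sub_mem (h.map_mem_S γ hx) hx
  have hSB : ∀ α ∈ S, B.eval α = 0 := fun α hα => h.ax.root (x 1) hx.tc.two_one (hx.lt 1) S s hs α hα
  have hsign : ∀ σ, rho 0 (x 1 σ) = 1 ∨ rho 0 (x 1 σ) = -1 := fun σ =>
    rho_two_torsion_sq h.short h.twoO 0 (hx.tc.two_one σ)
  have h2neg : ∀ σ, 2 • (-x 1 σ) = 0 := fun σ => by rw [smul_neg, hx.tc.two_one, neg_zero]
  have hneg : ∀ σ, -x 1 σ = x 1 σ := fun σ => by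
    have h3 := hx.tc.two_one σ
    rw [two_nsmul] at h3
    exact neg_eq_of_add_eq_zero_left h3
  have hy1 : ∀ σ, (rho8 hk W γ x - x) 1 σ = 0 ∨ IsTF ((rho8 hk W γ x - x) 1 σ) := by
    intro σ
    rw [← rho_zero_eq_one_iff h.short h.twoO (hy.tc.two_one σ)]
    change rho 0 (Point.map (W' := W) (γ : Ω →ₐ[k[X]] Ω) (x 1 (cj hk γ σ)) - x 1 σ) = 1
    rw [sub_eq_add_neg, rho_add h.short h.twoO h.rt0 _ _ (h2neg σ), hneg, rho_zero_map]
    have h3 := chi_conj_eq (hk := hk) hs hfix hsign σ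
    rw [h3]
    rcases hsign σ with e | e <;> rw [e] <;> simp
  refine ⟨hy1, ?_⟩
  obtain ⟨S', s', hs', hS'⟩ := h.exists_div' hy hy1
  suffices hSS : S' = movF τ (rtF (A ^ 2 - 4 * B)) S by
    rw [hSS] at hs'
    exact ⟨s', hs'⟩
  ext β
  rw [movF, Finset.mem_filter]
  suffices hb : β ∈ rtF (A ^ 2 - 4 * B) → (β ∈ S' ↔ Moves τ (∏ α ∈ S, (β - α))) from
    ⟨fun h1 => ⟨hS' h1, (hb (hS' h1)).mp h1⟩, fun h1 => (hb h1.1).mpr h1.2⟩
  intro hβ
  obtain ⟨γ', hγ', H⟩ := h.ax.beta β ((mem_rtF h.sep'.ne_zero).mp hβ) τ hτ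
  have hres : resF hk γ' = τ := by
    apply resF_unique
    intro a
    rw [hγ', map_C]
    rfl
  obtain ⟨H1, H2⟩ := H (x 1) hx.tc.two_one (hx.lt 1)
  have H1' := H1 S s hSB hs
  obtain ⟨σ₀, hσ₀, hrel⟩ := exists_inner_rel (hk := hk) (W := W) (hγ.trans hres.symm)
  have hrel1 := hrel x hx.tc 1
  set P := Point.map (W' := W) (γ : Ω →ₐ[k[X]] Ω) (x 1 σ₀) with hP
  have hP2 : 2 • P = 0 := by rw [hP, ← map_nsmul, hx.tc.two_one, map_zero]
  have hγs : γ' s = rho 0 (x 1 σ₀) * s := by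
    rw [hσ₀, hs.act, map_mul, hfix]
    rcases hsign σ₀ with e | e <;> rw [e] <;> simp
  have hγP : rho 0 P = rho 0 (x 1 σ₀) := by
    rw [hP, rho_zero_map]
    rcases hsign σ₀ with e | e <;> rw [e] <;> simp
  have hmov : (rho 0 P = 1 ↔ ¬ Moves τ (∏ α ∈ S, (β - α))) := by
    rw [hγP]
    have : (γ' s = s ↔ rho 0 (x 1 σ₀) = 1) := by
      rw [hγs]
      exact mul_eq_right₀ hs.ne_zero
    rw [← this]
    exact H1'
  by_cases hm : rho 0 P = 1
  · have hm' := hmov.mp hm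
    have hPT := (rho_zero_eq_one_iff h.short h.twoO hP2).mp hm
    have hrel2 : ∀ σ : Ω ≃ₐ[L] Ω,
        Point.map (W' := W) (γ' : Ω →ₐ[k[X]] Ω) (x 1 (cj hk γ' σ)) - x 1 σ =
        (rho8 hk W γ x - x) 1 σ := by
      intro σ
      rw [hrel1, map_eq_of_zero_or (W := W) (σ : Ω →ₐ[L] Ω) hPT, sub_self, add_zero]
      rfl
    have h3 := H2 (fun σ => by rw [hrel2]; exact hy1 σ) S' s' (hs'.congr fun σ => by rw [hrel2])
    exact ⟨fun h4 => absurd h4 h3, fun h4 => absurd h4 hm'⟩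
  · have hm' : Moves τ (∏ α ∈ S, (β - α)) := by
      by_contra hcon
      exact hm (hmov.mpr hcon)
    have hPT : ¬ (P = 0 ∨ IsTF P) := fun h4 => hm (rho_zero_of h.short h.twoO h4)
    obtain ⟨hc1, s₂, hc2⟩ := char_of_other (L := L) h.twoO h.ab h.sep' hP2 hPT
    obtain ⟨s₃, h5⟩ := h.div_add' hy1 hc1 hs' hc2
    have hrel2 : ∀ σ : Ω ≃ₐ[L] Ω,
        Point.map (W' := W) (γ' : Ω →ₐ[k[X]] Ω) (x 1 (cj hk γ' σ)) - x 1 σ =
        (rho8 hk W γ x - x) 1 σ + (Point.map (W' := W) (σ : Ω →ₐ[L] Ω) P - P) := hrel1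
    have h3 := H2 (fun σ => by
      rw [hrel2]
      exact add_zero_or h.short h.twoO (hy1 σ) (hc1 σ)) _ s₃ (h5.congr fun σ => by rw [hrel2])
    rw [symmDiff_full hS', Finset.mem_sdiff] at h3
    refine ⟨fun _ => hm', fun _ => ?_⟩
    by_contra h4
    exact h3 ⟨hβ, h4⟩

/-- **Second formula.** -/
lemma CtxF.key' (h : CtxF hk W A B LT) {x : ℕ → (Ω ≃ₐ[L] Ω) → (W.baseChange Ω).Point}
    (hx : IsSel8 W LT x) (hx1 : ∀ σ, x 1 σ = 0 ∨ IsTF (x 1 σ)) {S : Finset F} {s : Ω}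
    (hs : IsCharF (fun σ : Ω ≃ₐ[L] Ω => psiF (x 1 σ)) S s) {τ : F ≃ₐ[k] F}
    (hτ : ∀ a, B.eval a = 0 ∨ (A ^ 2 - 4 * B).eval a = 0 → τ a = a) {γ : Ω ≃ₐ[k[X]] Ω}
    (hγ : resF hk γ = τ) (hfix : γ s = s) :
    (∀ σ, 2 • (rho8 hk W γ x - x) 2 σ = 0) ∧
    ∃ s' : Ω, IsCharF (fun σ : Ω ≃ₐ[L] Ω => rho 0 ((rho8 hk W γ x - x) 2 σ))
      (movF τ (rtF B) S) s' := by
  have hy : IsSel8 W LT (rho8 hk W γ x - x) := (SF h).sub_mem (h.map_mem_S γ hx) hx
  have hSB : ∀ β ∈ S, (A ^ 2 - 4 * B).eval β = 0 := fun β hβ =>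
    h.ax.root' (x 1) hx1 (hx.lt 1) S s hs β hβ
  have hx2 : ∀ σ, 2 • x 2 σ = x 1 σ := fun σ => hx.tc.two 1 σ
  have hsign : ∀ σ, psiF (x 1 σ) = 1 ∨ psiF (x 1 σ) = -1 := fun σ => psiF_sign _
  have hy1 : ∀ σ, (rho8 hk W γ x - x) 1 σ = 0 := by
    intro σ
    change Point.map (W' := W) (γ : Ω →ₐ[k[X]] Ω) (x 1 (cj hk γ σ)) - x 1 σ = 0
    rw [sub_eq_zero]
    apply eq_of_psiF h.twoO (zero_or_map _ (hx1 _)) (hx1 σ)
    rw [psiF_map]
    have h3 := chi_conj_eq (hk := hk) hs hfix hsign σ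
    rw [h3]
    rcases hsign σ with e | e <;> rw [e] <;> simp
  have hy2 : ∀ σ, 2 • (rho8 hk W γ x - x) 2 σ = 0 := fun σ => by
    rw [hy.tc.two 1 σ, hy1]
  refine ⟨hy2, ?_⟩
  -- the divisor of the second level
  obtain ⟨S', s', hs'⟩ := exists_charF (L := L) (F := F)
    (fun σ : Ω ≃ₐ[L] Ω => rho 0 ((rho8 hk W γ x - x) 2 σ))
    (fun σ => rho_two_torsion_sq h.short h.twoO 0 (hy2 σ))
    (fun σ σ' => by
      rw [hy.tc.mul, rho_add h.short h.twoO h.rt0 _ _ (by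
        rw [← map_nsmul, hy2, map_zero]), rho_zero_map]
      rcases rho_two_torsion_sq h.short h.twoO 0 (hy2 σ') with e | e <;> rw [e] <;> simp)
    ((hy.tc.loc 2).comp (rho 0))
  have hS' : S' ⊆ rtF B := by
    intro α hα
    rw [mem_rtF h.sep.ne_zero]
    exact h.ax.root _ hy2 (hy.lt 2) S' s' hs' α hα
  suffices hSS : S' = movF τ (rtF B) S by
    rw [hSS] at hs'
    exact ⟨s', hs'⟩
  ext α
  rw [movF, Finset.mem_filter]
  suffices hb : α ∈ rtF B → (α ∈ S' ↔ Moves τ (∏ β ∈ S, (α - β))) from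
    ⟨fun h1 => ⟨hS' h1, (hb (hS' h1)).mp h1⟩, fun h1 => (hb h1.1).mpr h1.2⟩
  intro hα
  obtain ⟨γ', hγ', H⟩ := h.ax.alpha α ((mem_rtF h.sep.ne_zero).mp hα) τ hτ
  have hres : resF hk γ' = τ := by
    apply resF_unique
    intro a
    rw [hγ', map_C]
    rfl
  obtain ⟨H1', H2⟩ := H (x 2) (fun σ => by rw [hx2]; exact hx1 σ) (hx.lt 2) S s hSB
    (hs.congr fun σ => by rw [hx2])
  obtain ⟨σ₀, hσ₀, hrel⟩ := exists_inner_rel (hk := hk) (W := W) (hγ.trans hres.symm)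
  have hrel1 := hrel x hx.tc 2
  set P := Point.map (W' := W) (γ : Ω →ₐ[k[X]] Ω) (x 2 σ₀) with hP
  have hP2 : 2 • P = x 1 σ₀ := by
    rw [hP, ← map_nsmul, hx2, map_eq_of_zero_or (W := W) (γ : Ω →ₐ[k[X]] Ω) (hx1 σ₀)]
  have hγs : γ' s = psiF (x 1 σ₀) * s := by
    rw [hσ₀, hs.act, map_mul, hfix]
    rcases hsign σ₀ with e | e <;> rw [e] <;> simp
  have hmov : (x 1 σ₀ = 0 ↔ ¬ Moves τ (∏ β ∈ S, (α - β))) := by
    have : (γ' s = s ↔ x 1 σ₀ = 0) := by
      rw [hγs, ← psiF_eq_one_iff h.twoO]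
      exact mul_eq_right₀ hs.ne_zero
    rw [← this]
    exact H1'
  have hrel2 : ∀ σ : Ω ≃ₐ[L] Ω,
      Point.map (W' := W) (γ' : Ω →ₐ[k[X]] Ω) (x 2 (cj hk γ' σ)) - x 2 σ =
      (rho8 hk W γ x - x) 2 σ + (Point.map (W' := W) (σ : Ω →ₐ[L] Ω) P - P) := hrel1
  have hP4 : 2 • P = 0 ∨ IsTF (2 • P) := by
    rw [hP2]
    exact hx1 σ₀
  have hd2 : ∀ σ : Ω ≃ₐ[L] Ω, 2 • (Point.map (W' := W) (σ : Ω →ₐ[L] Ω) P - P) = 0 := by
    intro σ
    rw [smul_sub, ← map_nsmul, map_eq_of_zero_or (W := W) (σ : Ω →ₐ[L] Ω) hP4, sub_self]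
  have h2' : ∀ σ, 2 • (Point.map (W' := W) (γ' : Ω →ₐ[k[X]] Ω) (x 2 (cj hk γ' σ)) - x 2 σ) = 0 := by
    intro σ
    rw [hrel2, smul_add, hy2, hd2, add_zero]
  by_cases hm : x 1 σ₀ = 0
  · have hm' := hmov.mp hm
    have hP0 : 2 • P = 0 := by rw [hP2, hm]
    have hone : ∀ σ : Ω ≃ₐ[L] Ω, rho 0 (Point.map (W' := W) (σ : Ω →ₐ[L] Ω) P - P) = 1 := by
      intro σ
      by_cases h3 : P = 0 ∨ IsTF P
      · rw [map_eq_of_zero_or (W := W) (σ : Ω →ₐ[L] Ω) h3, sub_self, rho_zero]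
      · exact rho_zero_of h.short h.twoO ((char_of_other (L := L) h.twoO h.ab h.sep' hP0 h3).1 σ)
    have h3 := H2 h2' S' s' (hs'.congr fun σ => by
      rw [hrel2, rho_add h.short h.twoO h.rt0 _ _ (hd2 σ), hone, mul_one])
    exact ⟨fun h4 => absurd h4 h3, fun h4 => absurd h4 hm'⟩
  · have hm' : Moves τ (∏ β ∈ S, (α - β)) := by
      by_contra hcon
      exact hm (hmov.mpr hcon)
    have hPT : IsTF (2 • P) := by
      rcases hP4 with h4 | h4
      · exact absurd (hP2 ▸ h4) hm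
      · exact h4
    obtain ⟨s₂, hc2⟩ := char_of_half (L := L) h.twoO h.ab h.sep hPT
    obtain ⟨s₃, h5⟩ := h.div_add hd2 hs' hc2
    have h3 := H2 h2' _ s₃ (h5.congr fun σ => by rw [hrel2])
    rw [symmDiff_full hS', Finset.mem_sdiff] at h3
    refine ⟨fun _ => hm', fun _ => ?_⟩
    by_contra h4
    exact h3 ⟨hα, h4⟩

end

end Pool.Agent.Lib.MP_89bcae_ag

end KeyFPart

section MainFPart

/-!
# The main argument for the curves `y² = x (x² + A x + B)`
-/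

open Polynomial WeierstrassCurve WeierstrassCurve.Affine

open scoped Classical

namespace Pool.Agent.Lib.MP_89bcae_ag

set_option linter.unusedSectionVars false

/-- For a set `S` of roots with an even number of elements: the set `M` of the `β` in `R` for which
the square roots of the product of the `β - α`, `α ∈ S`, are moved by `τ`, or its complement in `R`,
whichever has an even number of elements. -/
noncomputable def stepF {F : Type*} [Field F] (τ : F → F) (R S : Finset F) : Finset F :=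
  nrmF R (movF τ R S)

section

variable {k F L Ω : Type*} [Field k] [Field F] [Algebra k F] [Algebra.IsAlgebraic k F]
  [IsAlgClosed F] [Field L] [Field Ω]
  [Algebra F[X] L] [IsFractionRing F[X] L] [Algebra L Ω] [Algebra F[X] Ω] [IsScalarTower F[X] L Ω]
  [Algebra k[X] L] [Algebra k[X] Ω] [IsScalarTower k[X] L Ω]
  [IsGalois L Ω] [IsSepClosed Ω] [IsSepClosure L Ω]

variable {hk : ∀ p : k[X], algebraMap k[X] L p = algebraMap F[X] L (p.map (algebraMap k F))}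
variable {W : Affine k[X]} {LT : ((Ω ≃ₐ[L] Ω) → (W.baseChange Ω).Point) → Prop} {A B : F[X]}

/-- The subgroup of classes whose first descent character is trivial, up to the class of `T`. -/
def S1F (h : CtxF hk W A B LT) : AddSubgroup (ℕ → (Ω ≃ₐ[L] Ω) → (W.baseChange Ω).Point) where
  carrier := {c | IsSel8 W LT c ∧ ∃ s : Ω,
    IsCharF (fun σ : Ω ≃ₐ[L] Ω => rho 0 (c 1 σ)) (∅ : Finset F) s ∨
    IsCharF (fun σ : Ω ≃ₐ[L] Ω => rho 0 (c 1 σ)) (rtF B) s}
  zero_mem' := by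
    refine ⟨(SF h).zero_mem, 1, Or.inl (isCharF_one.congr fun σ => ?_)⟩
    exact rho_zero _
  add_mem' := by
    rintro a b ⟨ha, s, hs⟩ ⟨hb, s', hs'⟩
    refine ⟨(SF h).add_mem ha hb, ?_⟩
    have hb2 := hb.tc.two_one
    rcases hs with hs | hs <;> rcases hs' with hs' | hs' <;>
      obtain ⟨s₃, h3⟩ := h.div_add hb2 hs hs'
    · rw [symmDiff_self] at h3
      exact ⟨s₃, Or.inl h3⟩
    · rw [← Finset.bot_eq_empty, bot_symmDiff] at h3
      exact ⟨s₃, Or.inr h3⟩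
    · rw [← Finset.bot_eq_empty, symmDiff_bot] at h3
      exact ⟨s₃, Or.inr h3⟩
    · rw [symmDiff_self] at h3
      exact ⟨s₃, Or.inl h3⟩
  neg_mem' := by
    rintro a ⟨ha, s, hs⟩
    refine ⟨(SF h).neg_mem ha, s, ?_⟩
    rcases hs with hs | hs
    · exact Or.inl (h.div_neg ha.tc.two_one hs)
    · exact Or.inr (h.div_neg ha.tc.two_one hs)

lemma S1F_le (h : CtxF hk W A B LT) : S1F h ≤ SF h := fun _ hc => hc.1

lemma TF_le_S1F (h : CtxF hk W A B LT) : TF h ≤ S1F h := by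
  rintro c ⟨hc, P, hP, H⟩
  obtain ⟨Q, hQ, h1⟩ := H 1
  rw [pow_one] at hQ
  refine ⟨hc, ?_⟩
  rcases h.div_T (u := c 1) (Q := Q) (by rw [hQ]; exact hP) h1 with ⟨s, hs⟩ | ⟨s, hs⟩
  · exact ⟨s, Or.inl hs⟩
  · exact ⟨s, Or.inr hs⟩

lemma CtxF.dbl_mem (h : CtxF hk W A B LT) {x : ℕ → (Ω ≃ₐ[L] Ω) → (W.baseChange Ω).Point}
    (hx : IsSel8 W LT x) : x + x ∈ S1F h := by
  refine ⟨(SF h).add_mem hx hx, 1, Or.inl (isCharF_one.congr fun σ => ?_)⟩
  change rho 0 (x 1 σ + x 1 σ) = 1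
  rw [← two_nsmul, hx.tc.two_one, rho_zero]

/-- The first divisor. -/
noncomputable def divF (F : Type*) [Field F] [Algebra F[X] Ω]
    (x : ℕ → (Ω ≃ₐ[L] Ω) → (W.baseChange Ω).Point) : Finset F :=
  if h : ∃ S : Finset F, ∃ s : Ω, IsCharF (fun σ : Ω ≃ₐ[L] Ω => rho 0 (x 1 σ)) S s then
    Classical.choose h else ∅

lemma divF_eq {x : ℕ → (Ω ≃ₐ[L] Ω) → (W.baseChange Ω).Point} {S : Finset F} {s : Ω}
    (hs : IsCharF (fun σ : Ω ≃ₐ[L] Ω => rho 0 (x 1 σ)) S s) : divF F x = S := by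
  have hex : ∃ S : Finset F, ∃ s : Ω, IsCharF (fun σ : Ω ≃ₐ[L] Ω => rho 0 (x 1 σ)) S s :=
    ⟨S, s, hs⟩
  rw [divF, dif_pos hex]
  obtain ⟨s', hs'⟩ := Classical.choose_spec hex
  exact hs'.unique hs

lemma CtxF.divF_eq_iff (h : CtxF hk W A B LT) {x y : ℕ → (Ω ≃ₐ[L] Ω) → (W.baseChange Ω).Point}
    (hx : IsSel8 W LT x) (hy : IsSel8 W LT y) :
    nrmF (rtF B) (divF F x) = nrmF (rtF B) (divF F y) ↔ x - y ∈ S1F h := by
  obtain ⟨S, s, hs, hS⟩ := h.exists_div hx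
  obtain ⟨S', s', hs', hS'⟩ := h.exists_div hy
  obtain ⟨s₃, h3⟩ := h.div_sub hy.tc.two_one hs hs'
  rw [divF_eq hs, divF_eq hs', nrmF_eq_iff h.card hS hS']
  constructor
  · rintro (h4 | h4)
    · rw [h4] at h3
      exact ⟨(SF h).sub_mem hx hy, s₃, Or.inl h3⟩
    · rw [h4] at h3
      exact ⟨(SF h).sub_mem hx hy, s₃, Or.inr h3⟩
  · rintro ⟨-, s₄, h4 | h4⟩
    · exact Or.inl (h3.unique h4)
    · exact Or.inr (h3.unique h4)

/-- The relation of a class with its second divisor. -/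
def RelF (h : CtxF hk W A B LT) (x : ℕ → (Ω ≃ₐ[L] Ω) → (W.baseChange Ω).Point)
    (S' : Finset F) : Prop :=
  ∃ t ∈ TF h, (∀ σ, (x - t) 1 σ = 0 ∨ IsTF ((x - t) 1 σ)) ∧ ∃ (S : Finset F) (s : Ω),
    IsCharF (fun σ : Ω ≃ₐ[L] Ω => psiF ((x - t) 1 σ)) S s ∧ S' = nrmF (rtF (A ^ 2 - 4 * B)) S

lemma CtxF.exists_RelF (h : CtxF hk W A B LT) {x : ℕ → (Ω ≃ₐ[L] Ω) → (W.baseChange Ω).Point}
    (hx : x ∈ S1F h) : ∃ t ∈ TF h, (∀ σ, (x - t) 1 σ = 0 ∨ IsTF ((x - t) 1 σ)) := by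
  obtain ⟨hxS, s, hs | hs⟩ := hx
  · refine ⟨0, (TF h).zero_mem, fun σ => ?_⟩
    rw [sub_zero, ← rho_zero_eq_one_iff h.short h.twoO (hxS.tc.two_one σ)]
    exact hs.eq_one σ
  · obtain ⟨u, hu, s', hs'⟩ := h.exists_kappa
    refine ⟨u, hu, fun σ => ?_⟩
    obtain ⟨s₃, h3⟩ := h.div_sub hu.1.tc.two_one hs hs'
    rw [symmDiff_self] at h3
    have hxu : IsSel8 W LT (x - u) := (SF h).sub_mem hxS hu.1
    rw [← rho_zero_eq_one_iff h.short h.twoO (hxu.tc.two_one σ)]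
    exact h3.eq_one σ

/-- A representative with second divisor of even cardinality. -/
lemma CtxF.exists_even (h : CtxF hk W A B LT) {x : ℕ → (Ω ≃ₐ[L] Ω) → (W.baseChange Ω).Point}
    (hx : x ∈ S1F h) : ∃ t ∈ TF h, (∀ σ, (x - t) 1 σ = 0 ∨ IsTF ((x - t) 1 σ)) ∧
    ∃ (S : Finset F) (s : Ω), IsCharF (fun σ : Ω ≃ₐ[L] Ω => psiF ((x - t) 1 σ)) S s ∧
      Even S.card ∧ S ⊆ rtF (A ^ 2 - 4 * B) := by
  obtain ⟨t, ht, h1⟩ := h.exists_RelF hx
  have hxt : IsSel8 W LT (x - t) := (SF h).sub_mem hx.1 ht.1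
  obtain ⟨S, s, hs, hS⟩ := h.exists_div' hxt h1
  by_cases hev : Even S.card
  · exact ⟨t, ht, h1, S, s, hs, hev, hS⟩
  · obtain ⟨u, hu, hu1, s', hs'⟩ := h.exists_kappa'
    obtain ⟨s₃, h3⟩ := h.div_sub' h1 hu1 hs hs'
    rw [symmDiff_full hS] at h3
    have e : ∀ σ, (x - (t + u)) 1 σ = (x - t) 1 σ - u 1 σ := by
      intro σ
      change x 1 σ - (t 1 σ + u 1 σ) = x 1 σ - t 1 σ - u 1 σ
      abel
    refine ⟨t + u, (TF h).add_mem ht hu, fun σ => ?_, _, s₃, h3.congr fun σ => by rw [e],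
      (card_sdiff_odd h.card' hS).mpr hev, Finset.sdiff_subset⟩
    rw [e]
    exact h.sub_zero_or (h1 σ) (hu1 σ)

lemma CtxF.RelF_unique (h : CtxF hk W A B LT) {x : ℕ → (Ω ≃ₐ[L] Ω) → (W.baseChange Ω).Point}
    (hx : IsSel8 W LT x) {S S' : Finset F} (hS : RelF h x S) (hS' : RelF h x S') : S = S' := by
  obtain ⟨t, ht, h1, S₁, s₁, hs₁, rfl⟩ := hS
  obtain ⟨t', ht', h1', S₁', s₁', hs₁', rfl⟩ := hS'
  have hxt : IsSel8 W LT (x - t) := (SF h).sub_mem hx ht.1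
  have hxt' : IsSel8 W LT (x - t') := (SF h).sub_mem hx ht'.1
  have hsub : S₁ ⊆ rtF (A ^ 2 - 4 * B) := fun β hβ => (mem_rtF h.sep'.ne_zero).mpr
    (h.ax.root' _ h1 (hxt.lt 1) S₁ s₁ hs₁ β hβ)
  have hsub' : S₁' ⊆ rtF (A ^ 2 - 4 * B) := fun β hβ => (mem_rtF h.sep'.ne_zero).mpr
    (h.ax.root' _ h1' (hxt'.lt 1) S₁' s₁' hs₁' β hβ)
  rw [nrmF_eq_iff h.card' hsub hsub']
  obtain ⟨s₃, h3⟩ := h.div_sub' h1 h1' hs₁ hs₁'
  have hu := (TF h).sub_mem ht' ht
  have e : ∀ σ, (x - t) 1 σ - (x - t') 1 σ = (t' - t) 1 σ := by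
    intro σ
    change x 1 σ - t 1 σ - (x 1 σ - t' 1 σ) = t' 1 σ - t 1 σ
    abel
  obtain ⟨-, P, hP, H⟩ := hu
  obtain ⟨Q, hQ, hQσ⟩ := H 1
  rw [pow_one] at hQ
  rcases h.div_T' (u := (t' - t) 1) (Q := Q) (by rw [hQ]; exact hP) hQσ
    (fun σ => by rw [← e]; exact h.sub_zero_or (h1 σ) (h1' σ)) with ⟨s₄, h4⟩ | ⟨s₄, h4⟩
  · exact Or.inl ((h3.congr fun σ => by rw [e]).unique h4)
  · exact Or.inr ((h3.congr fun σ => by rw [e]).unique h4)

/-- The second divisor. -/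
noncomputable def divF' (h : CtxF hk W A B LT)
    (x : ℕ → (Ω ≃ₐ[L] Ω) → (W.baseChange Ω).Point) : Finset F :=
  if h : ∃ S' : Finset F, RelF h x S' then Classical.choose h else ∅

lemma CtxF.divF'_eq (h : CtxF hk W A B LT) {x : ℕ → (Ω ≃ₐ[L] Ω) → (W.baseChange Ω).Point}
    (hx : IsSel8 W LT x) {S : Finset F} (hS : RelF h x S) : divF' h x = S := by
  have hex : ∃ S' : Finset F, RelF h x S' := ⟨S, hS⟩
  rw [divF', dif_pos hex]
  exact h.RelF_unique hx (Classical.choose_spec hex) hS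

/-- Classes whose first level vanishes are divisible by two. -/
lemma CtxF.half (h : CtxF hk W A B LT) {c : ℕ → (Ω ≃ₐ[L] Ω) → (W.baseChange Ω).Point}
    (hc : IsSel8 W LT c) (h1 : ∀ σ, c 1 σ = 0) : ∃ z ∈ SF h, c = z + z := by
  refine ⟨fun n σ => c (n + 1) σ, ⟨⟨fun σ => h1 σ, fun n σ => hc.tc.two (n + 1) σ,
    fun n σ τ => hc.tc.mul (n + 1) σ τ, fun n => hc.tc.loc (n + 1)⟩, fun n => hc.lt (n + 1)⟩, ?_⟩
  funext n σ
  change c n σ = c (n + 1) σ + c (n + 1) σ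
  rw [← two_nsmul, hc.tc.two]

lemma CtxF.RelF_congr (h : CtxF hk W A B LT) {x y z : ℕ → (Ω ≃ₐ[L] Ω) → (W.baseChange Ω).Point}
    (hz : IsSel8 W LT z) (hv : x - y - (z + z) ∈ TF h) {S : Finset F} (hS : RelF h x S) :
    RelF h y S := by
  obtain ⟨t, ht, h1, S₁, s₁, hs₁, h2⟩ := hS
  have e : ∀ σ, (y - (t - (x - y - (z + z)))) 1 σ = (x - t) 1 σ := by
    intro σ
    have h3 : (z 1 σ + z 1 σ) = 0 := by rw [← two_nsmul, hz.tc.two_one]
    change y 1 σ - (t 1 σ - (x 1 σ - y 1 σ - (z 1 σ + z 1 σ))) = x 1 σ - t 1 σ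
    rw [h3]
    abel
  exact ⟨t - (x - y - (z + z)), (TF h).sub_mem ht hv, fun σ => by rw [e]; exact h1 σ, S₁, s₁,
    hs₁.congr fun σ => by rw [e], h2⟩

lemma CtxF.divF'_spec (h : CtxF hk W A B LT) {x : ℕ → (Ω ≃ₐ[L] Ω) → (W.baseChange Ω).Point}
    (hx : x ∈ S1F h) : ∃ t ∈ TF h, (∀ σ, (x - t) 1 σ = 0 ∨ IsTF ((x - t) 1 σ)) ∧
    ∃ s : Ω, IsCharF (fun σ : Ω ≃ₐ[L] Ω => psiF ((x - t) 1 σ)) (divF' h x) s ∧
      Even (divF' h x).card ∧ divF' h x ⊆ rtF (A ^ 2 - 4 * B) := by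
  obtain ⟨t, ht, h1, S, s, hs, hev, hS⟩ := h.exists_even hx
  have h2 : divF' h x = S := h.divF'_eq hx.1 ⟨t, ht, h1, S, s, hs, (nrmF_of_even hev).symm⟩
  rw [h2]
  exact ⟨t, ht, h1, s, hs, hev, hS⟩

lemma CtxF.divF'_eq_iff (h : CtxF hk W A B LT)
    {x y : ℕ → (Ω ≃ₐ[L] Ω) → (W.baseChange Ω).Point}
    (hx : x ∈ S1F h) (hy : y ∈ S1F h) :
    divF' h x = divF' h y ↔ x - y ∈ dblF (SF h) (TF h) := by
  constructor
  · intro heq
    obtain ⟨t, ht, h1, s, hs, -, -⟩ := h.divF'_spec hx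
    obtain ⟨t', ht', h1', s', hs', -, -⟩ := h.divF'_spec hy
    rw [← heq] at hs'
    have hcS : IsSel8 W LT (x - y - (t - t')) :=
      (SF h).sub_mem ((SF h).sub_mem hx.1 hy.1) ((SF h).sub_mem ht.1 ht'.1)
    obtain ⟨z, hz, hzz⟩ := h.half hcS (by
      intro σ
      change x 1 σ - y 1 σ - (t 1 σ - t' 1 σ) = 0
      have h3 : (x - t) 1 σ = (y - t') 1 σ := by
        apply eq_of_psiF h.twoO (h1 σ) (h1' σ)
        have a := hs.act σ
        have b := hs'.act σ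
        have hne := hs.ne_zero
        -- both characters have the same divisor
        have hm := hs.mul hs'
        rw [symmDiff_self] at hm
        have h5 := hm.eq_one σ
        rcases psiF_sign ((x - t) 1 σ) with e | e <;> rcases psiF_sign ((y - t') 1 σ) with e' | e'
        · rw [e, e']
        · rw [e, e'] at h5
          exfalso
          apply h.twoO
          linear_combination -h5
        · rw [e, e'] at h5
          exfalso
          apply h.twoO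
          linear_combination -h5
        · rw [e, e']
      change x 1 σ - t 1 σ = y 1 σ - t' 1 σ at h3
      have e : x 1 σ - y 1 σ - (t 1 σ - t' 1 σ) = (x 1 σ - t 1 σ) - (y 1 σ - t' 1 σ) := by abel
      rw [e, h3, sub_self])
    refine ⟨z, hz, ?_⟩
    have h4 := (TF h).sub_mem ht ht'
    have e : x - y - (z + z) = t - t' := by
      rw [← hzz]
      abel
    rw [e]
    exact h4
  · rintro ⟨z, hz, hv⟩
    obtain ⟨t, ht, h1, s, hs, hev, -⟩ := h.divF'_spec hx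
    have h2 : RelF h x (divF' h x) := ⟨t, ht, h1, _, s, hs, (nrmF_of_even hev).symm⟩
    exact (h.divF'_eq hy.1 (h.RelF_congr hz hv h2)).symm

/-- The automorphisms fixing the roots of `B` and of `A² - 4 B`. -/
noncomputable def GamF (hk : ∀ p : k[X], algebraMap k[X] L p =
    algebraMap F[X] L (p.map (algebraMap k F))) (A B : F[X]) : Subgroup (Ω ≃ₐ[k[X]] Ω) where
  carrier := {γ : Ω ≃ₐ[k[X]] Ω | ∀ a : F,
    (B.eval a = 0 ∨ (A ^ 2 - 4 * B : F[X]).eval a = 0) → resF hk γ a = a}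
  one_mem' := by
    intro a _
    rw [resF_one]
    rfl
  mul_mem' := by
    intro γ δ hγ hδ a ha
    rw [resF_mul, AlgEquiv.mul_apply, hδ a ha, hγ a ha]
  inv_mem' := by
    intro γ hγ a ha
    rw [resF_inv]
    apply (resF hk γ).injective
    rw [← AlgEquiv.mul_apply, mul_inv_cancel, hγ a ha]
    rfl

lemma image_of_fix {τ : F → F} {S : Finset F} (h : ∀ a ∈ S, τ a = a) : S.image τ = S := by
  ext a
  rw [Finset.mem_image]
  constructor
  · rintro ⟨b, hb, rfl⟩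
    rw [h b hb]
    exact hb
  · intro ha
    exact ⟨a, ha, h a ha⟩

/-- The first divisor of the conjugate class. -/
lemma CtxF.div_conj (h : CtxF hk W A B LT) {γ : Ω ≃ₐ[k[X]] Ω} (hγ : γ ∈ GamF (Ω := Ω) hk A B)
    {x : ℕ → (Ω ≃ₐ[L] Ω) → (W.baseChange Ω).Point} (hx : IsSel8 W LT x) {S : Finset F} {s : Ω}
    (hs : IsCharF (fun σ : Ω ≃ₐ[L] Ω => rho 0 (x 1 σ)) S s) :
    IsCharF (fun σ : Ω ≃ₐ[L] Ω => rho 0 (rho8 hk W γ x 1 σ)) S (γ s) := by
  have h1 := hs.conj (χ' := fun σ : Ω ≃ₐ[L] Ω => rho 0 (rho8 hk W γ x 1 σ)) (resF_spec hk γ)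
    (fun σ => ⟨cj hk γ σ, cj_spec hk γ σ, by
      rw [rho8_apply, rho_zero_map]
      rfl⟩)
  have h2 : S.image ((resF hk γ : F ≃ₐ[k] F) : F →+* F) = S := by
    apply image_of_fix
    intro a ha
    exact hγ a (Or.inl (h.ax.root (x 1) hx.tc.two_one (hx.lt 1) S s hs a ha))
  rwa [h2] at h1

/-- The second divisor of the conjugate class. -/
lemma CtxF.div_conj' (h : CtxF hk W A B LT) {γ : Ω ≃ₐ[k[X]] Ω} (hγ : γ ∈ GamF (Ω := Ω) hk A B)
    {x : ℕ → (Ω ≃ₐ[L] Ω) → (W.baseChange Ω).Point} (hx : IsSel8 W LT x)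
    (hx1 : ∀ σ, x 1 σ = 0 ∨ IsTF (x 1 σ)) {S : Finset F} {s : Ω}
    (hs : IsCharF (fun σ : Ω ≃ₐ[L] Ω => psiF (x 1 σ)) S s) :
    (∀ σ, rho8 hk W γ x 1 σ = 0 ∨ IsTF (rho8 hk W γ x 1 σ)) ∧
    IsCharF (fun σ : Ω ≃ₐ[L] Ω => psiF (rho8 hk W γ x 1 σ)) S (γ s) := by
  refine ⟨fun σ => ?_, ?_⟩
  · rw [rho8_apply]
    exact zero_or_map _ (hx1 _)
  have h1 := hs.conj (χ' := fun σ : Ω ≃ₐ[L] Ω => psiF (rho8 hk W γ x 1 σ)) (resF_spec hk γ)
    (fun σ => ⟨cj hk γ σ, cj_spec hk γ σ, by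
      rw [rho8_apply, psiF_map]
      rfl⟩)
  have h2 : S.image ((resF hk γ : F ≃ₐ[k] F) : F →+* F) = S := by
    apply image_of_fix
    intro a ha
    exact hγ a (Or.inr (h.ax.root' (x 1) hx1 (hx.lt 1) S s hs a ha))
  rwa [h2] at h1

lemma CtxF.cong (h : CtxF hk W A B LT) {γ : Ω ≃ₐ[k[X]] Ω} (hγ : γ ∈ GamF (Ω := Ω) hk A B)
    {x : ℕ → (Ω ≃ₐ[L] Ω) → (W.baseChange Ω).Point} (hx : IsSel8 W LT x) :
    rho8 hk W γ x - x ∈ S1F h := by
  obtain ⟨S, s, hs, hS⟩ := h.exists_div hx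
  obtain ⟨s₃, h3⟩ := h.div_sub hx.tc.two_one (h.div_conj hγ hx hs) hs
  rw [symmDiff_self] at h3
  exact ⟨(SF h).sub_mem (h.map_mem_S γ hx) hx, s₃, Or.inl h3⟩

lemma CtxF.cong' (h : CtxF hk W A B LT) {γ : Ω ≃ₐ[k[X]] Ω} (hγ : γ ∈ GamF (Ω := Ω) hk A B)
    {x : ℕ → (Ω ≃ₐ[L] Ω) → (W.baseChange Ω).Point} (hx : x ∈ S1F h) :
    rho8 hk W γ x - x ∈ dblF (SF h) (TF h) := by
  have hγx : rho8 hk W γ x ∈ S1F h := by
    have := (S1F h).add_mem (h.cong hγ hx.1) hx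
    rwa [sub_add_cancel] at this
  rw [← h.divF'_eq_iff hγx hx]
  obtain ⟨t, ht, h1, s, hs, hev, -⟩ := h.divF'_spec hx
  have hxt : IsSel8 W LT (x - t) := (SF h).sub_mem hx.1 ht.1
  have h2 := h.div_conj' hγ hxt h1 hs
  apply h.divF'_eq hγx.1
  refine ⟨rho8 hk W γ t, h.map_mem_T γ ht, ?_, _, γ s, ?_, (nrmF_of_even hev).symm⟩
  · intro σ
    have := h2.1 σ
    rwa [map_sub] at this
  · have := h2.2
    rwa [map_sub] at this

/-- The first formula, for divisors. -/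
lemma CtxF.formula (h : CtxF hk W A B LT) {γ : Ω ≃ₐ[k[X]] Ω} (hγ : γ ∈ GamF (Ω := Ω) hk A B)
    {x : ℕ → (Ω ≃ₐ[L] Ω) → (W.baseChange Ω).Point} (hx : IsSel8 W LT x) :
    divF' h (rho8 hk W γ x - x) =
      stepF (resF hk γ) (rtF (A ^ 2 - 4 * B)) (nrmF (rtF B) (divF F x)) := by
  obtain ⟨S, s, hs, hS⟩ := h.exists_div hx
  -- a representative with first divisor of even cardinality
  obtain ⟨t, ht, s', hs'⟩ : ∃ t ∈ TF h, ∃ s' : Ω,
      IsCharF (fun σ : Ω ≃ₐ[L] Ω => rho 0 ((x - t) 1 σ)) (nrmF (rtF B) S) s' := by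
    by_cases hev : Even S.card
    · rw [nrmF_of_even hev]
      exact ⟨0, (TF h).zero_mem, s, by rw [sub_zero]; exact hs⟩
    · obtain ⟨u, hu, s', hs'⟩ := h.exists_kappa
      obtain ⟨s₃, h3⟩ := h.div_sub hu.1.tc.two_one hs hs'
      rw [symmDiff_full hS] at h3
      rw [nrmF, if_neg hev]
      exact ⟨u, hu, s₃, h3⟩
  rw [divF_eq hs]
  have hxt : IsSel8 W LT (x - t) := (SF h).sub_mem hx ht.1
  have hSB : ∀ a ∈ nrmF (rtF B) S, B.eval a = 0 := fun a ha =>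
    h.ax.root _ hxt.tc.two_one (hxt.lt 1) _ s' hs' a ha
  obtain ⟨γ', hγ', hfix⟩ := exists_lift_fix (hk := hk) (τ := resF hk γ)
    (fun a ha => hγ a (Or.inl (hSB a ha))) hs'.sq
  obtain ⟨h1, s₂, h2⟩ := h.key hxt hs' hγ hγ' hfix
  apply h.divF'_eq ((SF h).sub_mem (h.map_mem_S γ hx) hx)
  -- the two differences agree modulo trivial classes
  refine h.RelF_congr (x := rho8 hk W γ' (x - t) - (x - t)) (z := 0) (SF h).zero_mem ?_
    ⟨0, (TF h).zero_mem, fun σ => by rw [sub_zero]; exact h1 σ, _, s₂,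
      h2.congr fun σ => by rw [sub_zero], rfl⟩
  have h3 := h.sub_mem_T (hγ'.symm) hx
  have h4 := h.map_mem_T γ' ht
  have e : rho8 hk W γ' (x - t) - (x - t) - (rho8 hk W γ x - x) - (0 + 0) =
      (rho8 hk W γ' x - rho8 hk W γ x) - rho8 hk W γ' t + t := by
    rw [map_sub]
    abel
  rw [e]
  exact (TF h).add_mem ((TF h).sub_mem h3 h4) ht

/-- The second formula, for divisors. -/
lemma CtxF.formula' (h : CtxF hk W A B LT) {γ : Ω ≃ₐ[k[X]] Ω} (hγ : γ ∈ GamF (Ω := Ω) hk A B)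
    {x z : ℕ → (Ω ≃ₐ[L] Ω) → (W.baseChange Ω).Point} (hx : x ∈ S1F h) (hz : IsSel8 W LT z)
    (hT : rho8 hk W γ x - x - (z + z) ∈ TF h) :
    nrmF (rtF B) (divF F z) = stepF (resF hk γ) (rtF B) (divF' h x) := by
  obtain ⟨t, ht, h1, s, hs, hev, hS⟩ := h.divF'_spec hx
  have hxt : IsSel8 W LT (x - t) := (SF h).sub_mem hx.1 ht.1
  obtain ⟨γ', hγ', hfix⟩ := exists_lift_fix (hk := hk) (τ := resF hk γ)
    (fun a ha => hγ a (Or.inr ((mem_rtF h.sep'.ne_zero).mp (hS ha)))) hs.sq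
  obtain ⟨h2, s₂, h3⟩ := h.key' hxt h1 hs hγ hγ' hfix
  -- compare with `2 z`
  have hv : rho8 hk W γ' (x - t) - (x - t) - (z + z) ∈ TF h := by
    have h4 := h.sub_mem_T (hγ'.symm) hx.1
    have h5 := h.map_mem_T γ' ht
    have e : rho8 hk W γ' (x - t) - (x - t) - (z + z) =
        (rho8 hk W γ' x - rho8 hk W γ x) + (rho8 hk W γ x - x - (z + z)) -
          rho8 hk W γ' t + t := by
      rw [map_sub]
      abel
    rw [e]
    exact (TF h).add_mem ((TF h).sub_mem ((TF h).add_mem h4 hT) h5) ht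
  obtain ⟨-, P, hP, H⟩ := hv
  obtain ⟨Q, hQ, hQσ⟩ := H 2
  set η := rho8 hk W γ' (x - t) - (x - t) with hη
  have hz2 : ∀ σ, z 2 σ + z 2 σ = z 1 σ := fun σ => by
    rw [← two_nsmul, hz.tc.two 1]
  have hdiff : ∀ σ : Ω ≃ₐ[L] Ω, η 2 σ - z 1 σ = Point.map (W' := W) (σ : Ω →ₐ[L] Ω) Q - Q := by
    intro σ
    rw [← hQσ σ, ← hz2]
    rfl
  have hQ2 : 2 • Q = 0 ∨ IsTF (2 • Q) := by
    apply h.fixed 1
    · intro σ
      have h4 := congrArg (fun R => 2 • R) (hdiff σ)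
      simp only [smul_sub] at h4
      rw [h2, hz.tc.two_one, sub_zero, ← map_nsmul] at h4
      exact sub_eq_zero.mp h4.symm
    · rw [pow_one, ← mul_smul]
      have : 2 * 2 = 2 ^ 2 := by norm_num
      rw [this, hQ]
      exact hP
  have hd2 : ∀ σ : Ω ≃ₐ[L] Ω, 2 • (Point.map (W' := W) (σ : Ω →ₐ[L] Ω) Q - Q) = 0 := by
    intro σ
    rw [smul_sub, ← map_nsmul, map_eq_of_zero_or (W := W) (σ : Ω →ₐ[L] Ω) hQ2, sub_self]
  have hzη : ∀ σ : Ω ≃ₐ[L] Ω, z 1 σ = η 2 σ - (Point.map (W' := W) (σ : Ω →ₐ[L] Ω) Q - Q) := by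
    intro σ
    rw [← hdiff]
    abel
  obtain ⟨S, s₄, hs₄, hSB⟩ := h.exists_div hz
  have hmov : movF (resF hk γ) (rtF B) (divF' h x) ⊆ rtF B := Finset.filter_subset _ _
  rw [divF_eq hs₄, stepF, nrmF_eq_iff h.card hSB hmov]
  rcases h.div_T (u := fun σ : Ω ≃ₐ[L] Ω => Point.map (W' := W) (σ : Ω →ₐ[L] Ω) Q - Q) hQ2
    (fun σ => rfl) with ⟨s₅, h5⟩ | ⟨s₅, h5⟩
  · left
    obtain ⟨s₆, h6⟩ := h.div_sub hd2 h3 h5
    have h7 := hs₄.unique (h6.congr fun σ => by rw [hzη])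
    rw [h7, ← Finset.bot_eq_empty, symmDiff_bot, symmDiff_self]
  · right
    obtain ⟨s₆, h6⟩ := h.div_sub hd2 h3 h5
    have h7 := hs₄.unique (h6.congr fun σ => by rw [hzη])
    rw [h7, symmDiff_comm, ← symmDiff_assoc, symmDiff_self, bot_symmDiff]

/-- The classes fixed by the automorphisms fixing a finite subset of `F`. -/
def GF (h : CtxF hk W A B LT) : AddSubgroup (ℕ → (Ω ≃ₐ[L] Ω) → (W.baseChange Ω).Point) where
  carrier := {c | IsSel8 W LT c ∧ ∃ s : Finset F, ∀ γ : Ω ≃ₐ[k[X]] Ω,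
    (∀ a ∈ s, resF hk γ a = a) → rho8 hk W γ c - c ∈ TF h}
  zero_mem' := by
    refine ⟨(SF h).zero_mem, ∅, fun γ _ => ?_⟩
    rw [map_zero, sub_zero]
    exact (TF h).zero_mem
  add_mem' := by
    rintro a b ⟨ha, s, hs⟩ ⟨hb, s', hs'⟩
    refine ⟨(SF h).add_mem ha hb, s ∪ s', fun γ hγ => ?_⟩
    have h1 := hs γ (fun a ha => hγ a (Finset.mem_union_left _ ha))
    have h2 := hs' γ (fun a ha => hγ a (Finset.mem_union_right _ ha))
    have h3 := (TF h).add_mem h1 h2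
    rw [map_add]
    have : rho8 hk W γ a + rho8 hk W γ b - (a + b) =
      rho8 hk W γ a - a + (rho8 hk W γ b - b) := by abel
    rw [this]
    exact h3
  neg_mem' := by
    rintro a ⟨ha, s, hs⟩
    refine ⟨(SF h).neg_mem ha, s, fun γ hγ => ?_⟩
    have h3 := (TF h).neg_mem (hs γ hγ)
    rw [map_neg]
    have : -rho8 hk W γ a - -a = -(rho8 hk W γ a - a) := by abel
    rw [this]
    exact h3

lemma CtxF.T_le_G (h : CtxF hk W A B LT) : TF h ≤ GF h := by
  intro c hc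
  exact ⟨hc.1, ∅, fun γ _ => (TF h).sub_mem (h.map_mem_T γ hc) hc⟩

lemma CtxF.map_mem_G (h : CtxF hk W A B LT) (γ₀ : Ω ≃ₐ[k[X]] Ω)
    {c : ℕ → (Ω ≃ₐ[L] Ω) → (W.baseChange Ω).Point} (hc : c ∈ GF h) :
    rho8 hk W γ₀ c ∈ GF h := by
  obtain ⟨hcS, s, hs⟩ := hc
  refine ⟨h.map_mem_S γ₀ hcS, s.image (resF hk γ₀), fun γ hγ => ?_⟩
  have h1 := hs (γ₀⁻¹ * γ * γ₀) (by
    intro a ha
    rw [resF_mul, resF_mul, AlgEquiv.mul_apply, AlgEquiv.mul_apply,
      hγ _ (Finset.mem_image_of_mem _ ha), resF_inv, ← AlgEquiv.mul_apply, inv_mul_cancel]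
    rfl)
  have h2 := h.map_mem_T γ₀ h1
  rw [map_sub, ← end_mul_apply8, ← map_mul] at h2
  have : γ₀ * (γ₀⁻¹ * γ * γ₀) = γ * γ₀ := by group
  rw [this, map_mul, end_mul_apply8] at h2
  exact h2

lemma CtxF.G_sat (h : CtxF hk W A B LT)
    {c : ℕ → (Ω ≃ₐ[L] Ω) → (W.baseChange Ω).Point} (hc : IsSel8 W LT c) (h2 : c + c ∈ GF h) :
    c ∈ GF h := by
  obtain ⟨-, s, hs⟩ := h2
  refine ⟨hc, s, fun γ hγ => ?_⟩
  apply h.torsionFree ((SF h).sub_mem (h.map_mem_S γ hc) hc)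
  have h1 := hs γ hγ
  rw [map_add] at h1
  have : rho8 hk W γ c - c + (rho8 hk W γ c - c) =
    rho8 hk W γ c + rho8 hk W γ c - (c + c) := by abel
  rw [this]
  exact h1

lemma CtxF.G_fin (h : CtxF hk W A B LT) (γ : Ω ≃ₐ[k[X]] Ω)
    {c : ℕ → (Ω ≃ₐ[L] Ω) → (W.baseChange Ω).Point} (hc : c ∈ GF h) :
    ∃ M > 0, rho8 hk W (γ ^ M) c - c ∈ TF h := by
  obtain ⟨-, s, hs⟩ := hc
  obtain ⟨M, hM, h1⟩ := exists_pow_fix (resF hk γ) s
  refine ⟨M, hM, hs _ fun a ha => ?_⟩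
  rw [resF_pow]
  exact h1 a ha

/-- The main theorem in the abstract setting. -/
theorem CtxF.main (h : CtxF hk W A B LT)
    (H : ∀ S : Finset F, S.Nonempty → Even S.card → S ⊆ rtF B → ∃ τ : F ≃ₐ[k] F,
      (∀ a, B.eval a = 0 ∨ (A ^ 2 - 4 * B).eval a = 0 → τ a = a) ∧
      stepF τ (rtF B) (stepF τ (rtF (A ^ 2 - 4 * B)) S) ≠ S ∧
      stepF τ (rtF B) (stepF τ (rtF (A ^ 2 - 4 * B)) S) ≠ ∅)
    (H' : ∀ S : Finset F, S.Nonempty → Even S.card → S ⊆ rtF (A ^ 2 - 4 * B) → ∃ τ : F ≃ₐ[k] F,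
      (∀ a, B.eval a = 0 ∨ (A ^ 2 - 4 * B).eval a = 0 → τ a = a) ∧ stepF τ (rtF B) S ≠ ∅) :
    ∀ c ∈ GF h, c ∈ TF h := by
  have hdiv : ∀ x ∈ SF h, divF F x ⊆ rtF B := by
    intro x hx
    obtain ⟨S, s, hs, hS⟩ := h.exists_div hx
    rw [divF_eq hs]
    exact hS
  have h0 : nrmF (rtF B) (divF F (0 : ℕ → (Ω ≃ₐ[L] Ω) → (W.baseChange Ω).Point)) = ∅ := by
    have h1 : IsCharF (fun σ : Ω ≃ₐ[L] Ω => rho 0
        ((0 : ℕ → (Ω ≃ₐ[L] Ω) → (W.baseChange Ω).Point) 1 σ)) (∅ : Finset F) 1 :=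
      isCharF_one.congr fun σ => rho_zero _
    rw [divF_eq h1]
    exact nrmF_of_even (by simp)
  have h0' : divF' h (0 : ℕ → (Ω ≃ₐ[L] Ω) → (W.baseChange Ω).Point) = ∅ := by
    apply h.divF'_eq (SF h).zero_mem
    refine ⟨0, (TF h).zero_mem, fun σ => Or.inl rfl, ∅, 1, isCharF_one.congr fun σ => ?_,
      (nrmF_of_even (by simp)).symm⟩
    exact psiF_zero
  have hlift : ∀ τ : F ≃ₐ[k] F, (∀ a, B.eval a = 0 ∨ (A ^ 2 - 4 * B).eval a = 0 → τ a = a) →
      ∃ γ ∈ GamF (Ω := Ω) hk A B, resF hk γ = τ := by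
    intro τ hτ
    obtain ⟨γ, hγ⟩ := exists_lift_aut (Ω := Ω) hk τ
    have hres : resF hk γ = τ := by
      apply resF_unique
      intro a
      rw [hγ, map_C]
      rfl
    exact ⟨γ, fun a ha => by rw [hres]; exact hτ a ha, hres⟩
  refine rel_mem_of_filtrationF (A := ℕ → (Ω ≃ₐ[L] Ω) → (W.baseChange Ω).Point)
    (Γ := Ω ≃ₐ[k[X]] Ω) (rho8 hk W) (GamF (Ω := Ω) hk A B) (SF h) (S1F h) (TF h)
    (TF_le_S1F h) (S1F_le h) (fun γ x hx => h.map_mem_S γ hx) (fun γ x hx => h.map_mem_T γ hx)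
    (fun x hx h2 => h.torsionFree hx h2) (fun x hx h2 => h.separated hx h2)
    (fun x hx => h.dbl_mem hx) (fun γ hγ x hx => h.cong hγ hx) (fun γ hγ x hx => h.cong' hγ hx)
    (GF h) h.T_le_G (fun x hx => hx.1) (fun γ _ x hx => h.map_mem_G γ hx)
    (fun x hx h2 => h.G_sat hx h2) (fun γ _ x hx => h.G_fin γ hx)
    (fun x => nrmF (rtF B) (divF F x)) (divF' h) ?_ ?_
    (fun x hx y hy => h.divF_eq_iff hx hy) (fun x hx y hy => h.divF'_eq_iff hx hy)
    (fun γ S => stepF (resF hk γ) (rtF (A ^ 2 - 4 * B)) S)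
    (fun γ S => stepF (resF hk γ) (rtF B) S) (fun γ hγ x hx => h.formula hγ hx)
    (fun γ hγ x hx z hz hT => h.formula' hγ hx hz hT) ?_ ?_
  · apply (Finset.finite_toSet (rtF B).powerset).subset
    rintro _ ⟨x, hx, rfl⟩
    rw [Finset.mem_coe, Finset.mem_powerset]
    exact nrmF_subset (hdiv x hx)
  · apply (Finset.finite_toSet (rtF (A ^ 2 - 4 * B)).powerset).subset
    rintro _ ⟨x, hx, rfl⟩
    rw [Finset.mem_coe, Finset.mem_powerset]
    obtain ⟨t, ht, h1, s, hs, hev, hS⟩ := h.divF'_spec hx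
    exact hS
  · intro x hx hx1
    have hne : nrmF (rtF B) (divF F x) ≠ ∅ := by
      intro he
      apply hx1
      rw [← h0] at he
      have := (h.divF_eq_iff hx (SF h).zero_mem).mp he
      rwa [sub_zero] at this
    obtain ⟨τ, hτ, h1, h2⟩ := H _ (Finset.nonempty_iff_ne_empty.mpr hne)
      (nrmF_even h.card (hdiv x hx)) (nrmF_subset (hdiv x hx))
    obtain ⟨γ, hγ, rfl⟩ := hlift τ hτ
    refine ⟨γ, hγ, h1, ?_⟩
    rw [h0]
    exact h2
  · intro x hx hx1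
    obtain ⟨t, ht, -, s, -, hev, hS⟩ := h.divF'_spec hx
    have hne : divF' h x ≠ ∅ := by
      intro he
      apply hx1
      rw [← h0'] at he
      have := (h.divF'_eq_iff hx (S1F h).zero_mem).mp he
      rwa [sub_zero] at this
    obtain ⟨τ, hτ, h1⟩ := H' _ (Finset.nonempty_iff_ne_empty.mpr hne) hev hS
    obtain ⟨γ, hγ, rfl⟩ := hlift τ hτ
    refine ⟨γ, hγ, ?_⟩
    rw [h0]
    exact h1

end

end Pool.Agent.Lib.MP_89bcae_ag

end MainFPart

section FinalFPart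

/-!
# From the definitions to the abstract setting
-/

open Polynomial WeierstrassCurve WeierstrassCurve.Affine IsDedekindDomain IntermediateField

open scoped Classical

namespace Pool.Agent.Lib.MP_89bcae_ag

set_option linter.unusedSectionVars false
set_option linter.style.haveILetI false

universe u

/-- The set of moved roots has an even number of elements. -/
lemma even_movF {F : Type*} [Field F] [IsAlgClosed F] (h2 : (2 : F) ≠ 0) (τ : F →+* F)
    {p : F[X]} (hp : p.Separable) (hlc : τ p.leadingCoeff = p.leadingCoeff) {S : Finset F}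
    (hS : Even S.card) (hτS : ∀ α ∈ S, τ α = α) (hτR : ∀ β ∈ rtF p, τ β = β)
    (hu : ∀ α ∈ S, ∃ u, τ u = u ∧ u ≠ 0 ∧ p.eval α = u ^ 2) :
    Even (movF τ (rtF p) S).card := by
  choose! u hu1 hu0 hu2 using hu
  have hsq : ∀ β : F, ∃ s : F, s ^ 2 = ∏ α ∈ S, (β - α) := fun β =>
    IsAlgClosed.exists_pow_nat_eq _ (by norm_num)
  choose s hs using hsq
  have hne : ∀ β ∈ rtF p, s β ≠ 0 := by
    intro β hβ h0
    have h1 := hs β
    rw [h0, zero_pow two_ne_zero, eq_comm, Finset.prod_eq_zero_iff] at h1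
    obtain ⟨α, hα, h3⟩ := h1
    have h4 := hu2 α hα
    have h5 : p.eval α = 0 := by
      rw [← sub_eq_zero.mp h3]
      exact (mem_rtF hp.ne_zero).mp hβ
    rw [h5] at h4
    exact hu0 α hα (pow_eq_zero_iff two_ne_zero |>.mp h4.symm)
  have hτs : ∀ β ∈ rtF p, τ (s β) = (if β ∈ movF τ (rtF p) S then -1 else 1) * s β := by
    intro β hβ
    have h1 : τ (s β) ^ 2 = s β ^ 2 := by
      rw [← map_pow, hs, map_prod]
      apply Finset.prod_congr rfl
      intro α hα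
      rw [map_sub, hτS α hα, hτR β hβ]
    rcases sq_eq_sq_iff_eq_or_eq_neg.mp h1 with h3 | h3
    · rw [if_neg, one_mul, h3]
      intro h4
      exact (Finset.mem_filter.mp h4).2 (s β) (hs β) h3
    · rw [if_pos, h3, neg_one_mul]
      rw [movF, Finset.mem_filter]
      refine ⟨hβ, fun r hr h5 => ?_⟩
      have h6 : r ^ 2 = s β ^ 2 := by rw [hr, hs]
      have h7 : s β = -s β := by
        rcases sq_eq_sq_iff_eq_or_eq_neg.mp h6 with h7 | h7
        · rw [h7] at h5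
          rw [← h3, h5]
        · rw [h7, map_neg, h3, neg_neg] at h5
          exact h5
      apply hne β hβ
      have h8 : 2 * s β = 0 := by linear_combination h7
      exact (mul_eq_zero.mp h8).resolve_left h2
  -- the product of the square roots
  set c : F := (-1) ^ p.natDegree / p.leadingCoeff with hc
  have hτc : τ c = c := by rw [hc, map_div₀, map_pow, map_neg, map_one, hlc]
  have hprod : ∀ α ∈ S, ∏ β ∈ rtF p, (β - α) = c * u α ^ 2 := by
    intro α hα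
    have h1 : p.eval α = p.leadingCoeff * ∏ β ∈ rtF p, (α - β) := by
      conv_lhs => rw [prod_rtF hp]
      rw [eval_mul, eval_C, eval_prod]
      simp
    have h3 : ∏ β ∈ rtF p, (β - α) = (-1) ^ p.natDegree * ∏ β ∈ rtF p, (α - β) := by
      rw [← card_rtF hp, ← Finset.prod_const, ← Finset.prod_mul_distrib]
      exact Finset.prod_congr rfl fun β _ => by ring
    have hlc0 : p.leadingCoeff ≠ 0 := leadingCoeff_ne_zero.mpr hp.ne_zero
    rw [h3, ← hu2 α hα, h1, hc]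
    field_simp
  obtain ⟨m, hm⟩ := hS
  have hP2 : (∏ β ∈ rtF p, s β) ^ 2 = (c ^ m * ∏ α ∈ S, u α) ^ 2 := by
    rw [← Finset.prod_pow, Finset.prod_congr rfl fun β _ => hs β, Finset.prod_comm,
      Finset.prod_congr rfl hprod, Finset.prod_mul_distrib, Finset.prod_const, Finset.prod_pow, hm]
    ring
  have hfix : τ (∏ β ∈ rtF p, s β) = ∏ β ∈ rtF p, s β := by
    have h1 : τ (c ^ m * ∏ α ∈ S, u α) = c ^ m * ∏ α ∈ S, u α := by
      rw [map_mul, map_pow, hτc, map_prod, Finset.prod_congr rfl hu1]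
    rcases sq_eq_sq_iff_eq_or_eq_neg.mp hP2 with h3 | h3
    · rw [h3, h1]
    · rw [h3, map_neg, h1]
  have h0 : ∏ β ∈ rtF p, s β ≠ 0 := Finset.prod_ne_zero_iff.mpr hne
  rw [map_prod, Finset.prod_congr rfl hτs, Finset.prod_mul_distrib, Finset.prod_ite,
    Finset.prod_const, Finset.prod_const_one, mul_one] at hfix
  have h1 : (-1 : F) ^ ((rtF p).filter (· ∈ movF τ (rtF p) S)).card = 1 :=
    mul_right_cancel₀ h0 (by rw [hfix, one_mul])
  have h3 : (rtF p).filter (· ∈ movF τ (rtF p) S) = movF τ (rtF p) S := by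
    ext β
    rw [Finset.mem_filter]
    exact ⟨fun h => h.2, fun h => ⟨(Finset.mem_filter.mp h).1, h⟩⟩
  rw [h3] at h1
  by_contra hodd
  rw [Nat.not_even_iff_odd] at hodd
  rw [hodd.neg_one_pow] at h1
  apply h2
  linear_combination -h1

lemma isImage_some_of_eq {A B : Type u} [Field A] [Field B] {σ : A →+* B}
    {W : WeierstrassCurve A} {W' : WeierstrassCurve B} {x y : A} {x' y' : B}
    (h : W.toAffine.Nonsingular x y) (h' : W'.toAffine.Nonsingular x' y') (hx : σ x = x')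
    (hy : σ y = y') : IsImage σ (W := W) (W' := W') (.some x y h) (.some x' y' h') := by
  subst hx hy
  exact .some x y h h'

section Abs

variable {k F L Ω : Type*} [Field k] [Field F] [Algebra k F] [Algebra.IsAlgebraic k F]
  [IsAlgClosed F] [Field L] [Field Ω]
  [Algebra F[X] L] [IsFractionRing F[X] L] [Algebra L Ω] [Algebra F[X] Ω] [IsScalarTower F[X] L Ω]
  [Algebra k[X] L] [Algebra k[X] Ω] [IsScalarTower k[X] L Ω]
  [IsGalois L Ω] [IsSepClosed Ω] [IsSepClosure L Ω]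

variable {hk : ∀ p : k[X], algebraMap k[X] L p = algebraMap F[X] L (p.map (algebraMap k F))}
variable {W : Affine k[X]} {LT : ((Ω ≃ₐ[L] Ω) → (W.baseChange Ω).Point) → Prop} {A B : F[X]}

/-- Multiples of classes which vanish. -/
lemma CtxF.mem_T_of_nsmul (h : CtxF hk W A B LT) {m : ℕ} (hm : 0 < m)
    {y : ℕ → (Ω ≃ₐ[L] Ω) → (W.baseChange Ω).Point} (hy : IsSel8 W LT y) (hmy : m • y ∈ TF h) :
    y ∈ TF h := by
  obtain ⟨a, m', hm', rfl⟩ := Nat.exists_eq_two_pow_mul_odd hm.ne'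
  -- odd multiples
  have hodd : ∀ z : ℕ → (Ω ≃ₐ[L] Ω) → (W.baseChange Ω).Point, IsSel8 W LT z → m' • z ∈ TF h →
      z ∈ TF h := by
    rintro z hz ⟨-, P, hP, H⟩
    apply h.mem_TF_of hz
    intro n
    obtain ⟨Q, hQ, hQσ⟩ := H n
    obtain ⟨r, q, hr⟩ : ∃ r q : ℕ, m' * r = 2 ^ n * q + 1 := by
      rcases Nat.eq_zero_or_pos n with rfl | hl
      · obtain ⟨t, rfl⟩ := hm'
        exact ⟨1, 2 * t, by ring⟩
      · have hcop : Nat.Coprime m' (2 ^ n) := (Nat.coprime_two_right.mpr hm').pow_right n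
        obtain ⟨r, -, hr⟩ := Nat.exists_mul_mod_eq_one_of_coprime hcop
          (Nat.one_lt_two_pow (by omega))
        refine ⟨r, m' * r / 2 ^ n, ?_⟩
        have h3 := Nat.div_add_mod (m' * r) (2 ^ n)
        rw [hr] at h3
        exact h3.symm
    refine ⟨r • Q, ?_, fun σ => ?_⟩
    · rw [smul_comm, hQ]
      have hrP : ∀ r : ℕ, r • P = 0 ∨ IsTF (r • P) := by
        intro r
        induction r with
        | zero => left; exact zero_smul _ _
        | succ r ih =>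
          rw [add_smul, one_smul]
          exact add_zero_or h.short h.twoO ih hP
      exact hrP r
    · have h1 : m' • z n σ = Point.map (W' := W) (σ : Ω →ₐ[L] Ω) Q - Q := hQσ σ
      rw [map_nsmul, ← smul_sub, ← h1, ← mul_smul, mul_comm, hr, add_smul, one_smul,
        mul_comm (2 ^ n), mul_smul, hz.tc.two_pow, smul_zero, zero_add]
  apply hodd y hy
  -- powers of two
  have hpow : ∀ (a : ℕ) (z : ℕ → (Ω ≃ₐ[L] Ω) → (W.baseChange Ω).Point), IsSel8 W LT z →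
      2 ^ a • z ∈ TF h → z ∈ TF h := by
    intro a
    induction a with
    | zero =>
      intro z _ hz'
      simpa using hz'
    | succ a ih =>
      intro z hz hz'
      apply ih z hz
      apply h.torsionFree ((SF h).nsmul_mem hz (2 ^ a))
      rwa [← two_nsmul, ← mul_smul, mul_comm, ← pow_succ]
  have := (SF h).nsmul_mem hy m'
  apply hpow a _ this
  rw [← mul_smul]
  exact hmy

/-- Invariance up to torsion. -/
lemma CtxF.mem_of_InvMT (h : CtxF hk W A B LT) {γ : Ω ≃ₐ[k[X]] Ω}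
    {c : ℕ → (Ω ≃ₐ[L] Ω) → (W.baseChange Ω).Point} (hc : IsSel8 W LT c)
    (hinv : InvMT W c γ) : rho8 hk W γ c - c ∈ TF h := by
  obtain ⟨m, hm, H⟩ := hinv
  have hy : IsSel8 W LT (rho8 hk W γ c - c) := (SF h).sub_mem (h.map_mem_S γ hc) hc
  apply h.mem_T_of_nsmul hm hy
  apply h.triv_mem_T ((SF h).nsmul_mem hy m)
  intro n
  obtain ⟨P, hP, h1⟩ := H n
  refine ⟨P, hP, fun σ => ?_⟩
  exact h1 (cj hk γ σ) σ (cj_spec hk γ σ)

end Abs

section Final

variable {k F L Ω : Type u} [Field k] [Field F] [Algebra k F] [Algebra.IsAlgebraic k F]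
  [IsAlgClosed F] [Field L] [Algebra F[X] L] [IsFractionRing F[X] L] [Field Ω]
  [Algebra L Ω] [IsGalois L Ω] [IsSepClosed Ω] [IsSepClosure L Ω]

theorem kummer_of_fixedF {A B : k[X]} (h2 : (2 : k) ≠ 0) (hB : B.Separable)
    (hB' : (A ^ 2 - 4 * B).Separable) (hAB : IsCoprime A B) (hodd : Odd B.natDegree)
    (hdeg : 2 * A.natDegree < B.natDegree)
    (H : ∀ S ⊆ rootsOf F B, S.Nonempty → Even S.card → ∃ τ : F ≃ₐ[k] F,
      (∀ a : F, aeval a B = 0 ∨ aeval a (A ^ 2 - 4 * B) = 0 → τ a = a) ∧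
      movedRoots τ (rootsOf F B) (movedRoots τ (rootsOf F (A ^ 2 - 4 * B)) S) ≠ ∅ ∧
      movedRoots τ (rootsOf F B) (movedRoots τ (rootsOf F (A ^ 2 - 4 * B)) S) ≠ S)
    (H' : ∀ S ⊆ rootsOf F (A ^ 2 - 4 * B), S.Nonempty → Even S.card → ∃ τ : F ≃ₐ[k] F,
      (∀ a : F, aeval a B = 0 ∨ aeval a (A ^ 2 - 4 * B) = 0 → τ a = a) ∧
      movedRoots τ (rootsOf F B) S ≠ ∅)
    (k' : IntermediateField k F) [FiniteDimensional k k']
    (c : ℕ → (Ω ≃ₐ[L] Ω) → ((curveAB A B).map (base k F L Ω)).toAffine.Point)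
    (hc : IsTateCocycle (curveAB A B) c)
    (hS : ∀ (τ : F) (n : ℕ), IsLocallyTrivial (curveAB A B) (c n) ((placeAt τ).adicCompletion L))
    (hinv : ∀ γ : Ω ≃+* Ω, (∀ p : k'[X], γ (base k' F L Ω p) = base k' F L Ω p) →
      IsFixedBy (curveAB A B) c γ) :
    ∃ P : ((curveAB A B).map (base k F L L)).toAffine.Point,
      (P = 0 ∨ ∃ h, P = .some 0 0 h) ∧ ∀ n, IsKummerOf (curveAB A B) (c n) n P := by
  have hax := locAxF_of (F := F) (L := L) (Ω := Ω) h2 hB hB' hAB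
  letI := algK k F L L
  letI := algK k F L Ω
  letI := algF F L Ω
  haveI : IsScalarTower F[X] L Ω := IsScalarTower.of_algebraMap_eq fun _ => rfl
  haveI : IsScalarTower k[X] L Ω := IsScalarTower.of_algebraMap_eq fun _ => rfl
  have hk : ∀ p : k[X], algebraMap k[X] L p = algebraMap F[X] L (p.map (algebraMap k F)) :=
    fun _ => rfl
  let W : Affine k[X] := (curveAB A B).toAffine
  have hdeg' : (A ^ 2 - 4 * B).natDegree = B.natDegree := by
    have h4 : (4 : k[X]) = C (4 : k) := (map_ofNat C 4).symm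
    have h40 : (4 : k) ≠ 0 := by
      have : (4 : k) = 2 * 2 := by norm_num
      rw [this]
      exact mul_ne_zero h2 h2
    have h1 : (4 * B).natDegree = B.natDegree := by
      rw [h4, natDegree_C_mul h40]
    rw [← h1]
    apply natDegree_sub_eq_right_of_natDegree_lt
    rw [h1]
    exact lt_of_le_of_lt natDegree_pow_le hdeg
  have hmap' : (A ^ 2 - 4 * B).map (algebraMap k F) =
      (A.map (algebraMap k F)) ^ 2 - 4 * B.map (algebraMap k F) := by
    rw [Polynomial.map_sub, Polynomial.map_pow, Polynomial.map_mul]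
    congr 2
    exact Polynomial.map_ofNat _ 4
  have h2F : (2 : F) ≠ 0 := by
    intro h0
    apply h2
    apply (algebraMap k F).injective
    rw [map_ofNat, h0, map_zero]
  have hsepB : (B.map (algebraMap k F)).Separable := hB.map
  have hsepB' : ((A.map (algebraMap k F)) ^ 2 - 4 * B.map (algebraMap k F)).Separable := by
    rw [← hmap']
    exact hB'.map
  have ctx : CtxF (k := k) (F := F) (L := L) (Ω := Ω) hk W (A.map (algebraMap k F))
      (B.map (algebraMap k F)) (LT8 (curveAB A B)) :=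
    { two := h2F
      sep := hsepB
      sep' := hsepB'
      odd := by rwa [natDegree_map]
      odd' := by rwa [← hmap', natDegree_map, hdeg']
      mapA := fun τ => map_fix τ A
      mapB := fun τ => map_fix τ B
      ab := ⟨map_zero _, rfl, map_zero _, rfl, map_zero _⟩
      ax := hax }
  have hrt : rtF (B.map (algebraMap k F)) = rootsOf F B := rfl
  have hrt' : rtF ((A.map (algebraMap k F)) ^ 2 - 4 * B.map (algebraMap k F)) =
      rootsOf F (A ^ 2 - 4 * B) := by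
    rw [rootsOf, hmap', rtF]
  have hev1 : ∀ a : F, aeval a B = (B.map (algebraMap k F)).eval a := fun a => by
    rw [eval_map_algebraMap]
  have hev1' : ∀ a : F, aeval a (A ^ 2 - 4 * B) =
      ((A.map (algebraMap k F)) ^ 2 - 4 * B.map (algebraMap k F)).eval a := fun a => by
    rw [← hmap', eval_map_algebraMap]
  have hevA : ∀ a : F, aeval a A = (A.map (algebraMap k F)).eval a := fun a => by
    rw [eval_map_algebraMap]
  have hmem : ∀ (τ : F ≃ₐ[k] F),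
      (∀ a : F, aeval a B = 0 ∨ aeval a (A ^ 2 - 4 * B) = 0 → τ a = a) →
      ∀ a, (B.map (algebraMap k F)).eval a = 0 ∨
        ((A.map (algebraMap k F)) ^ 2 - 4 * B.map (algebraMap k F)).eval a = 0 → τ a = a := by
    intro τ h1 a ha
    rw [← hev1, ← hev1'] at ha
    exact h1 a ha
  have hcop : IsCoprime (A.map (algebraMap k F)) (B.map (algebraMap k F)) :=
    hAB.map (mapRingHom (algebraMap k F))
  have hAne : ∀ a : F, (B.map (algebraMap k F)).eval a = 0 →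
      (A.map (algebraMap k F)).eval a ≠ 0 := by
    intro a ha h0
    obtain ⟨u, v, huv⟩ := hcop
    have := congrArg (eval a) huv
    rw [eval_add, eval_mul, eval_mul, ha, h0, mul_zero, mul_zero, add_zero, eval_one] at this
    exact zero_ne_one this
  have hτA : ∀ (τ : F ≃ₐ[k] F) (a : F), τ a = a → τ (aeval a A) = aeval a A := by
    intro τ a ha
    rw [← AlgEquiv.coe_toAlgHom τ, ← aeval_algHom_apply]
    exact congrArg (fun b => aeval b A) ha
  have hτC : ∀ (τ : F ≃ₐ[k] F) (p : F[X]), p.map ((τ : F ≃ₐ[k] F) : F →+* F) = p →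
      ((τ : F ≃ₐ[k] F) : F →+* F) p.leadingCoeff = p.leadingCoeff := by
    intro τ p hp
    conv_rhs => rw [← hp]
    rw [leadingCoeff, leadingCoeff, coeff_map, natDegree_map]
  -- the sets of moved roots are even
  have hpar : ∀ (τ : F ≃ₐ[k] F),
      (∀ a : F, aeval a B = 0 ∨ aeval a (A ^ 2 - 4 * B) = 0 → τ a = a) →
      ∀ S ⊆ rootsOf F B, Even S.card →
        stepF τ (rootsOf F (A ^ 2 - 4 * B)) S = movedRoots τ (rootsOf F (A ^ 2 - 4 * B)) S ∧
        Even (movedRoots τ (rootsOf F (A ^ 2 - 4 * B)) S).card := by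
    intro τ hτ S hS hev
    have h1 : Even (movF τ (rootsOf F (A ^ 2 - 4 * B)) S).card := by
      rw [← hrt']
      refine even_movF h2F ((τ : F ≃ₐ[k] F) : F →+* F) hsepB' (hτC τ _ ?_) hev ?_ ?_ ?_
      · rw [← hmap']
        exact map_fix τ _
      · intro α hα
        exact hmem τ hτ α (Or.inl ((mem_rtF hsepB.ne_zero).mp (hS hα)))
      · intro β hβ
        exact hmem τ hτ β (Or.inr ((mem_rtF hsepB'.ne_zero).mp hβ))
      · intro α hα
        have hα' := (mem_rtF hsepB.ne_zero).mp (hS hα)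
        refine ⟨aeval α A, hτA τ α (hmem τ hτ α (Or.inl hα')), ?_, ?_⟩
        · rw [hevA]
          exact hAne α hα'
        · rw [eval_sub, eval_mul, hα', mul_zero, sub_zero, eval_pow, hevA]
    exact ⟨nrmF_of_even h1, h1⟩
  have hpar' : ∀ (τ : F ≃ₐ[k] F),
      (∀ a : F, aeval a B = 0 ∨ aeval a (A ^ 2 - 4 * B) = 0 → τ a = a) →
      ∀ S ⊆ rootsOf F (A ^ 2 - 4 * B), Even S.card →
        stepF τ (rootsOf F B) S = movedRoots τ (rootsOf F B) S := by
    intro τ hτ S hS hev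
    have h1 : Even (movF τ (rootsOf F B) S).card := by
      rw [← hrt]
      refine even_movF h2F ((τ : F ≃ₐ[k] F) : F →+* F) hsepB (hτC τ _ (map_fix τ _)) hev ?_ ?_ ?_
      · intro α hα
        have := hS hα
        rw [← hrt'] at this
        exact hmem τ hτ α (Or.inr ((mem_rtF hsepB'.ne_zero).mp this))
      · intro β hβ
        exact hmem τ hτ β (Or.inl ((mem_rtF hsepB.ne_zero).mp hβ))
      · intro α hα
        have hα1 := hS hα
        rw [← hrt'] at hα1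
        have hα' := (mem_rtF hsepB'.ne_zero).mp hα1
        have hτα := hmem τ hτ α (Or.inr hα')
        rw [eval_sub, eval_mul, eval_pow] at hα'
        have h4 : eval α (4 : F[X]) = 4 := by
          rw [← map_ofNat C 4, eval_C]
        rw [h4] at hα'
        have hA2 := hτA τ α hτα
        refine ⟨aeval α A / 2, ?_, ?_, ?_⟩
        · change τ (aeval α A / 2) = _
          rw [map_div₀, hA2, map_ofNat]
        · intro h0
          have h5 : aeval α A = 0 := by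
            rcases div_eq_zero_iff.mp h0 with h | h
            · exact h
            · exact absurd h h2F
          rw [hevA] at h5
          rw [h5] at hα'
          have h6 : (4 : F) * (B.map (algebraMap k F)).eval α = 0 := by linear_combination -hα'
          have h7 : (4 : F) ≠ 0 := by
            have : (4 : F) = 2 * 2 := by norm_num
            rw [this]
            exact mul_ne_zero h2F h2F
          exact hAne α ((mul_eq_zero.mp h6).resolve_left h7) h5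
        · rw [hevA]
          field_simp
          linear_combination -hα'
    exact nrmF_of_even h1
  have hmain := ctx.main
    (fun S hne hev hsub => by
      obtain ⟨τ, h1, h4, h5⟩ := H S (by rw [← hrt]; exact hsub) hne hev
      obtain ⟨h6, h7⟩ := hpar τ h1 S (by rw [← hrt]; exact hsub) hev
      have h8 := hpar' τ h1 (movedRoots τ (rootsOf F (A ^ 2 - 4 * B)) S)
        (Finset.filter_subset _ _) h7
      refine ⟨τ, hmem τ h1, ?_, ?_⟩
      · rw [hrt, hrt', h6, h8]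
        exact h5
      · rw [hrt, hrt', h6, h8]
        exact h4)
    (fun S hne hev hsub => by
      obtain ⟨τ, h1, h4⟩ := H' S (by rw [← hrt']; exact hsub) hne hev
      refine ⟨τ, hmem τ h1, ?_⟩
      rw [hrt, hpar' τ h1 S (by rw [← hrt']; exact hsub) hev]
      exact h4)
  -- the class is fixed by an open subgroup
  have hTC : TC W (fun n (σ : Ω ≃ₐ[L] Ω) => (c n σ : (W.baseChange Ω).Point)) :=
    { zero := hc.zero
      two := hc.two_smul
      mul := fun n σ τ => hc.cocycle n σ τ _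
        (isImage_map (W := curveAB A B) (σ : Ω →ₐ[L] Ω) (c n τ))
      loc := hc.locallyConstant }
  have hSel : IsSel8 W (LT8 (curveAB A B))
      (fun n (σ : Ω ≃ₐ[L] Ω) => (c n σ : (W.baseChange Ω).Point)) :=
    ⟨hTC, fun n τ => hS τ n⟩
  obtain ⟨s, hs⟩ : ∃ s : Finset F, adjoin k (s : Set F) = k' :=
    IntermediateField.essFiniteType_iff.mp inferInstance
  have hG : (fun n (σ : Ω ≃ₐ[L] Ω) => (c n σ : (W.baseChange Ω).Point)) ∈ GF ctx := by
    refine ⟨hSel, s, fun γ hγ => ?_⟩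
    have hfix : ∀ a ∈ k', resF hk γ a = a := by
      intro a ha
      rw [← hs] at ha
      have h1 : adjoin k (s : Set F) ≤
          IntermediateField.fixedField (Subgroup.zpowers (resF hk γ)) := by
        rw [adjoin_le_iff]
        intro b hb
        rw [SetLike.mem_coe, IntermediateField.mem_fixedField_iff]
        intro τ hτ
        obtain ⟨m, rfl⟩ := Subgroup.mem_zpowers_iff.mp hτ
        have h5 : resF hk γ ∈ MulAction.stabilizer (F ≃ₐ[k] F) b := hγ b hb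
        exact (MulAction.stabilizer (F ≃ₐ[k] F) b).zpow_mem h5 m
      exact (IntermediateField.mem_fixedField_iff _ _).mp (h1 ha) _
        (Subgroup.mem_zpowers _)
    apply ctx.mem_of_InvMT hSel
    obtain ⟨m, hm, H⟩ := hinv γ.toRingEquiv (fun p => by
      change γ (algebraMap F[X] Ω (p.map (algebraMap k' F))) =
        algebraMap F[X] Ω (p.map (algebraMap k' F))
      rw [resF_spec hk]
      congr 1
      ext i
      rw [coeff_map, coeff_map]
      exact hfix _ (p.coeff i).2)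
    refine ⟨m, hm, fun n => ?_⟩
    obtain ⟨P, hP, HP⟩ := H n
    refine ⟨P, hP, fun s h hs => ?_⟩
    exact HP s h hs _ _ (isImage_map (W := curveAB A B) (γ : Ω →ₐ[k[X]] Ω) (c n s))
      (isImage_map (W := curveAB A B) (h : Ω →ₐ[L] Ω) P)
  obtain ⟨-, P, hP, HP⟩ := hmain _ hG
  obtain ⟨P₀, hP₀, hP₀P⟩ : ∃ P₀ : ((curveAB A B).map (base k F L L)).toAffine.Point,
      (P₀ = 0 ∨ ∃ h, P₀ = .some 0 0 h) ∧
      IsImage (W := (curveAB A B).map (base k F L L)) (W' := (curveAB A B).map (base k F L Ω))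
        (algebraMap L Ω) P₀ P := by
    rcases hP with rfl | ⟨h, rfl⟩
    · exact ⟨0, Or.inl rfl, .zero⟩
    · have hns : ((curveAB A B).map (base k F L L)).toAffine.Nonsingular 0 0 := by
        have hBL : base k F L L B ≠ 0 := by
          intro h0
          have h1 : base k F L L B = algebraMap F[X] L (B.map (algebraMap k F)) := rfl
          rw [h1] at h0
          exact hsepB.ne_zero ((IsFractionRing.injective F[X] L) (by rw [h0, map_zero]))
        rw [nonsingular_iff, equation_iff]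
        refine ⟨by simp [curveAB, WeierstrassCurve.map], Or.inl ?_⟩
        simp [curveAB, WeierstrassCurve.map]
        exact hBL.symm
      refine ⟨.some 0 0 hns, Or.inr ⟨hns, rfl⟩, ?_⟩
      exact isImage_some_of_eq hns h (map_zero _) (map_zero _)
  refine ⟨P₀, hP₀, fun n => ?_⟩
  obtain ⟨Q, hQ, hQσ⟩ := HP n
  refine ⟨P, Q, hP₀P, hQ, fun σ Q' hQ' => ?_⟩
  rw [(isImage_iff (W := curveAB A B) (σ : Ω →ₐ[L] Ω) Q Q').mp hQ']
  exact hQσ σ

end Final

end Pool.Agent.Lib.MP_89bcae_ag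

end FinalFPart
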