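import Mathlib
import Pool.Agent.Lib.MP_89bcae_ag.LIndB14

/-!
# Lines over a field: the arithmetic condition, second part
-/

open Polynomial

open scoped Classical

set_option linter.unusedSectionVars false
set_option linter.unusedSimpArgs false
set_option linter.style.haveILetI false

namespace Pool.Agent.Lib.MP_89bcae_ag

universe u

open Sup.Lns (SS mem_SS AGeom)

variable {ι : Type} [Fintype ι] [LinearOrder ι] {k : Type u} [Field k] {v : ι ⊕ ι → k}

lemma Gen14.nd_mem (h : Gen14 v) {i j : ι} (hij : i ≠ j) : nd14 v i j ∈ SS (lin14 v) :=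
  (mem_SS h.geom).2 ⟨i, j, hij, (h.eval_eq hij _).2 rfl⟩

lemma Gen14.mem_SS_iff (h : Gen14 v) {s : k} :
    s ∈ SS (lin14 v) ↔ ∃ i j, i ≠ j ∧ s = nd14 v i j := by
  rw [mem_SS h.geom]
  constructor
  · rintro ⟨i, j, hij, hs⟩
    exact ⟨i, j, hij, (h.eval_eq hij s).1 hs⟩
  · rintro ⟨i, j, hij, hs⟩
    exact ⟨i, j, hij, (h.eval_eq hij s).2 hs⟩

lemma Gen14.nd_inj (h : Gen14 v) {i j a b : ι} (hij : i ≠ j) (hab : a ≠ b)
    (he : nd14 v i j = nd14 v a b) : (a = i ∧ b = j) ∨ (a = j ∧ b = i) :=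
  h.geom.pair hij hab ((h.eval_eq hij _).2 rfl) ((h.eval_eq hab _).2 he)

/-- The sum over the nodes of the line `i`. -/
lemma Gen14.sum_nodes (h : Gen14 v) {F : Type} [Field F] (i j : ι) (hij : i ≠ j) (f : k → F)
    (hf : ∀ a b, a ≠ b → a ≠ i → b ≠ i → f (nd14 v a b) = 0) (g : k → F) :
    ∑ s ∈ (SS (lin14 v)).erase (nd14 v i j), f s * g s =
      ∑ l ∈ Finset.univ.filter (fun l => l ≠ i ∧ l ≠ j), f (nd14 v i l) * g (nd14 v i l) := by
  have hinj : ∀ l ∈ Finset.univ.filter (fun l => l ≠ i ∧ l ≠ j), ∀ l' ∈ Finset.univ.filter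
      (fun l => l ≠ i ∧ l ≠ j), nd14 v i l = nd14 v i l' → l = l' := by
    intro l hl l' hl' he
    rw [Finset.mem_filter] at hl hl'
    rcases h.nd_inj hl.2.1.symm hl'.2.1.symm he with hh | hh
    · exact hh.2.symm
    · exact absurd hh.2 hl'.2.1
  rw [← Finset.sum_image (f := fun s => f s * g s) hinj]
  symm
  apply Finset.sum_subset
  · intro s hs
    obtain ⟨l, hl, rfl⟩ := Finset.mem_image.1 hs
    rw [Finset.mem_filter] at hl
    refine Finset.mem_erase.2 ⟨fun he => ?_, h.nd_mem hl.2.1.symm⟩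
    rcases h.nd_inj hij hl.2.1.symm he.symm with hh | hh
    · exact hl.2.2 hh.2
    · exact hij hh.1
  · intro s hs hs'
    rw [Finset.mem_erase, h.mem_SS_iff] at hs
    obtain ⟨hne, a, b, hab, rfl⟩ := hs
    rw [hf a b hab, zero_mul]
    · rintro rfl
      apply hs'
      refine Finset.mem_image.2 ⟨b, Finset.mem_filter.2 ⟨Finset.mem_univ b, hab.symm, ?_⟩, rfl⟩
      rintro rfl
      exact hne rfl
    · rintro rfl
      apply hs'
      refine Finset.mem_image.2 ⟨a, Finset.mem_filter.2 ⟨Finset.mem_univ a, hab, ?_⟩,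
        nd14_symm _ _⟩
      rintro rfl
      exact hne (nd14_symm _ _)

/-- **The criterion over `k`.** -/
theorem Gen14.indep_k (h : Gen14 v) {ℓ : ℕ} [Fact ℓ.Prime] (hm : 4 ≤ Fintype.card ι)
    (hcop : (Fintype.card ι).Coprime ℓ)
    (HV : ∀ i j l, i ≠ j → j ≠ l → i ≠ l → ∃ V : Val14 k ℓ, HV14 v V i j l)
    (e : ι → k → ℤ) (κ : k) (c : ι → k) (hκ : κ ≠ 0) (hc : ∀ i, c i ≠ 0)
    (hsum : ∀ i j l, i ≠ j → (ℓ : ℤ) ∣ ∑ m ∈ Finset.univ.filter
      (fun m => (lin14 v m).eval (nd14 v i j) = (lin14 v l).eval (nd14 v i j)), e m (nd14 v i j))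
    (hpow : ∀ i j, i ≠ j → ∃ w : k, w ^ ℓ = κ ^ e i (nd14 v i j) * (c i / c j) *
      (derivative (lin14 v i - lin14 v j)).eval (nd14 v i j) ^ (-2 * e i (nd14 v i j)) *
      (∏ l ∈ Finset.univ.filter (fun l => l ≠ i ∧ l ≠ j),
        ((lin14 v i).eval (nd14 v i j) - (lin14 v l).eval (nd14 v i j)) ^ (-e i (nd14 v i j))) *
      ∏ s' ∈ (SS (lin14 v)).erase (nd14 v i j), (nd14 v i j - s') ^ (e i s' - e j s')) :
    ∃ b : ι → ℤ, ∀ i j, i ≠ j → (ℓ : ℤ) ∣ e i (nd14 v i j) - (b j - b i) := by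
  have hℓ : ℓ.Prime := Fact.out
  -- the values modulo `ℓ`
  have hpair : ∀ i j, i ≠ j → ((e i (nd14 v i j) : ℤ) : ZMod ℓ) + (e j (nd14 v i j) : ℤ) = 0 := by
    intro i j hij
    have h1 := hsum i j i hij
    have h2 : Finset.univ.filter
        (fun m => (lin14 v m).eval (nd14 v i j) = (lin14 v i).eval (nd14 v i j)) = {i, j} := by
      ext m
      rw [Finset.mem_filter, Finset.mem_insert, Finset.mem_singleton]
      constructor
      · rintro ⟨-, hm⟩
        by_cases hmi : m = i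
        · exact Or.inl hmi
        · rcases h.nd_inj hij hmi ((h.eval_eq hmi _).1 hm) with hh | hh
          · exact Or.inl hh.1
          · exact Or.inr hh.1
      · rintro (rfl | rfl)
        · exact ⟨Finset.mem_univ _, rfl⟩
        · exact ⟨Finset.mem_univ _, ((h.eval_eq hij _).2 rfl).symm⟩
    rw [h2, Finset.sum_pair hij, ← ZMod.intCast_zmod_eq_zero_iff_dvd] at h1
    push_cast at h1
    exact h1
  have hoff : ∀ i a b, a ≠ b → a ≠ i → b ≠ i → ((e i (nd14 v a b) : ℤ) : ZMod ℓ) = 0 := by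
    intro i a b hab hai hbi
    have h1 := hsum a b i hab
    have h2 : Finset.univ.filter
        (fun m => (lin14 v m).eval (nd14 v a b) = (lin14 v i).eval (nd14 v a b)) = {i} := by
      ext m
      rw [Finset.mem_filter, Finset.mem_singleton]
      constructor
      · rintro ⟨-, hm⟩
        by_contra hmi
        rcases h.nd_inj hab hmi ((h.eval_eq hmi _).1 hm) with hh | hh
        · exact hbi hh.2.symm
        · exact hai hh.2.symm
      · rintro rfl
        exact ⟨Finset.mem_univ _, rfl⟩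
    rw [h2, Finset.sum_singleton, ← ZMod.intCast_zmod_eq_zero_iff_dvd] at h1
    exact h1
  set ε : ι → ι → ZMod ℓ := fun i j => ((e i (nd14 v i j) : ℤ) : ZMod ℓ) with hεdef
  have hε : ∀ i j, i ≠ j → ε j i = -ε i j := by
    intro i j hij
    have h1 := hpair i j hij
    rw [hεdef]
    beta_reduce
    rw [nd14_symm i j]
    linear_combination h1
  have hcard : ∑ _i : ι, (1 : ZMod ℓ) ≠ 0 := by
    rw [Finset.sum_const, Finset.card_univ, nsmul_one, Ne, ZMod.natCast_eq_zero_iff]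
    intro hd
    have h1 := Nat.Coprime.eq_one_of_dvd hcop.symm hd
    exact hℓ.one_lt.ne' h1
  obtain ⟨b, hb⟩ := cut_of_triw14 hm (fun _ => (1 : ZMod ℓ)) (fun _ => one_ne_zero) hcard
    (fun _ _ => rfl) ε hε (by
    intro i₀ j₀ l₀ hij₀ hjl₀ hil₀
    obtain ⟨V, m₀, μ, r, hr, hV1, hV0⟩ := HV i₀ j₀ l₀ hij₀ hjl₀ hil₀
    have hslope : ∀ i j, i ≠ j → V.ν (v (Sum.inr i) - v (Sum.inr j)) =
        m₀ + μ (some i) + μ (some j) + μ none := by
      intro i j hij
      rw [← brk14_none]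
      refine hV0 (some i) (some j) none (by simpa using hij) (by simp) (by simp) ?_
      rintro ⟨-, -, hh⟩
      simp at hh
    -- the brackets
    set δ : ι → ι → ι → ZMod ℓ := fun a b m =>
      V.ν (dd14 v a b m) - (m₀ + μ (some a) + μ (some b) + μ (some m)) with hδ
    have hδ1 : ∀ a b m, a ≠ b → b ≠ m → a ≠ m → a ∈ ({i₀, j₀, l₀} : Set ι) →
        b ∈ ({i₀, j₀, l₀} : Set ι) → m ∈ ({i₀, j₀, l₀} : Set ι) → δ a b m = r := by
      intro a b m hab hbm ham ha hb hm
      have h1 := nu_perm14 h V hij₀ hjl₀ hil₀ (fun x => μ (some x)) (r := m₀ + r) (by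
        rw [hV1]
        ring) a b m hab hbm ham ha hb hm
      rw [hδ]
      beta_reduce
      rw [h1]
      ring
    have hδ0 : ∀ a b m, a ≠ b → b ≠ m → a ≠ m →
        ¬ (a ∈ ({i₀, j₀, l₀} : Set ι) ∧ b ∈ ({i₀, j₀, l₀} : Set ι) ∧
          m ∈ ({i₀, j₀, l₀} : Set ι)) → δ a b m = 0 := by
      intro a b m hab hbm ham hno
      rw [hδ]
      beta_reduce
      rw [sub_eq_zero]
      refine hV0 (some a) (some b) (some m) (by simpa using hab) (by simpa using hbm)
        (by simpa using ham) fun hh => hno ?_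
      simpa using hh
    set E : ι → ZMod ℓ := fun i => ∑ l, ε i l - ε i i with hE
    set M : ZMod ℓ := ∑ l, μ (some l) with hM
    refine ⟨(V.ν κ - M + (Fintype.card ι : ZMod ℓ) * μ none) / r,
      fun i => (V.ν (c i) - E i * (m₀ + μ (some i) + 2 * μ none)) / r, fun i j hij => ?_⟩
    -- the equation for `i, j`
    have hval := tri14_value δ r ε hε hij₀ hjl₀ hil₀ hδ1 hδ0 hij
    obtain ⟨w, hw⟩ := hpow i j hij
    set s := nd14 v i j with hs
    set P := Finset.univ.filter (fun l => l ≠ i ∧ l ≠ j) with hP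
    have hβ := hslope i j hij
    have hβ0 := h.slope_ne hij
    -- the factors are not zero
    have hder : (derivative (lin14 v i - lin14 v j)).eval s = v (Sum.inr i) - v (Sum.inr j) := by
      rw [lin14_sub]
      simp
    have hf1 : ∀ l ∈ P, ((lin14 v i).eval s - (lin14 v l).eval s) ^ (-e i s) ≠ 0 := by
      intro l hl
      rw [hP, Finset.mem_filter] at hl
      apply zpow_ne_zero
      rw [h.sub1 hij]
      exact neg_ne_zero.2 (div_ne_zero (h.dd_ne hij hl.2.1.symm hl.2.2.symm) hβ0)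
    have hf2 : ∀ s' ∈ (SS (lin14 v)).erase s, (s - s') ^ (e i s' - e j s') ≠ 0 := by
      intro s' hs'
      apply zpow_ne_zero
      rw [Finset.mem_erase] at hs'
      exact sub_ne_zero.2 hs'.1.symm
    rw [hder] at hw
    have hA : κ ^ e i s ≠ 0 := zpow_ne_zero _ hκ
    have hB : c i / c j ≠ 0 := div_ne_zero (hc i) (hc j)
    have hC : (v (Sum.inr i) - v (Sum.inr j)) ^ (-2 * e i s) ≠ 0 := zpow_ne_zero _ hβ0
    have hD := Finset.prod_ne_zero_iff.2 hf1
    have hE' := Finset.prod_ne_zero_iff.2 hf2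
    have hw0 : w ≠ 0 := by
      rintro rfl
      rw [zero_pow hℓ.ne_zero] at hw
      exact (mul_ne_zero (mul_ne_zero (mul_ne_zero (mul_ne_zero hA hB) hC) hD) hE') hw.symm
    have hν := congrArg V.ν hw
    rw [V.pow hw0, V.mul _ _ (mul_ne_zero (mul_ne_zero (mul_ne_zero hA hB) hC) hD) hE',
      V.mul _ _ (mul_ne_zero (mul_ne_zero hA hB) hC) hD, V.mul _ _ (mul_ne_zero hA hB) hC,
      V.mul _ _ hA hB, V.zpow hκ, V.div (hc i) (hc j), V.zpow hβ0, V.prod _ _ hf1,
      V.prod _ _ hf2, hβ] at hν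
    -- the first sum
    have hS1 : ∑ l ∈ P, V.ν (((lin14 v i).eval s - (lin14 v l).eval s) ^ (-e i s)) =
        -ε i j * ∑ l ∈ P, (δ i j l + μ (some l) - μ none) := by
      rw [Finset.mul_sum]
      refine Finset.sum_congr rfl fun l hl => ?_
      have hl' := hl
      rw [hP, Finset.mem_filter] at hl'
      have h1 := h.dd_ne hij hl'.2.1.symm hl'.2.2.symm
      rw [h.sub1 hij, V.zpow (neg_ne_zero.2 (div_ne_zero h1 hβ0)), V.neg (div_ne_zero h1 hβ0),
        V.div h1 hβ0, hβ, hεdef, hδ]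
      push_cast
      ring
    -- the second sum
    have hS2 : ∑ s' ∈ (SS (lin14 v)).erase s, V.ν ((s - s') ^ (e i s' - e j s')) =
        (∑ l ∈ P, ε i l * (δ i j l - m₀ - μ (some i) - 2 * μ none)) -
          ∑ l ∈ P, ε j l * (δ i j l - m₀ - μ (some j) - 2 * μ none) := by
      have h1 : ∀ s' ∈ (SS (lin14 v)).erase s, V.ν ((s - s') ^ (e i s' - e j s')) =
          ((e i s' : ℤ) : ZMod ℓ) * V.ν (s - s') - ((e j s' : ℤ) : ZMod ℓ) * V.ν (s - s') := by
        intro s' hs'
        rw [Finset.mem_erase] at hs'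
        rw [V.zpow (sub_ne_zero.2 hs'.1.symm)]
        push_cast
        ring
      have h2 := h.sum_nodes i j hij (fun x => ((e i x : ℤ) : ZMod ℓ)) (hoff i)
        (fun x => V.ν (s - x))
      have h3 := h.sum_nodes j i hij.symm (fun x => ((e j x : ℤ) : ZMod ℓ)) (hoff j)
        (fun x => V.ν (s - x))
      rw [nd14_symm i j] at h3
      have hPP : Finset.univ.filter (fun l => l ≠ j ∧ l ≠ i) = P := by
        rw [hP]
        ext l
        simp only [Finset.mem_filter, Finset.mem_univ, true_and]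
        exact and_comm
      rw [Finset.sum_congr rfl h1, Finset.sum_sub_distrib, h2, h3, hPP]
      congr 1
      · refine Finset.sum_congr rfl fun l hl => ?_
        have hl' := hl
        rw [hP, Finset.mem_filter] at hl'
        have h4 := h.dd_ne hij hl'.2.1.symm hl'.2.2.symm
        have h5 := h.slope_ne hl'.2.1.symm
        rw [hs, h.sub2 hij hl'.2.1.symm, V.neg (div_ne_zero h4 (mul_ne_zero hβ0 h5)),
          V.div h4 (mul_ne_zero hβ0 h5), V.mul _ _ hβ0 h5, hβ, hslope i l hl'.2.1.symm, hεdef, hδ]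
        ring
      · refine Finset.sum_congr rfl fun l hl => ?_
        have hl' := hl
        rw [hP, Finset.mem_filter] at hl'
        have h4 := h.dd_ne hij hl'.2.1.symm hl'.2.2.symm
        have h5 := h.slope_ne hl'.2.2.symm
        rw [hs, h.sub3 hij hl'.2.2.symm, V.neg (div_ne_zero h4 (mul_ne_zero hβ0 h5)),
          V.div h4 (mul_ne_zero hβ0 h5), V.mul _ _ hβ0 h5, hβ, hslope j l hl'.2.2.symm, hεdef, hδ]
        ring
    -- the sums over `P`
    have hT1 : ∑ l ∈ P, (δ i j l + μ (some l) - μ none) = ∑ l ∈ P, δ i j l +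
        (M - μ (some i) - μ (some j)) - ((Fintype.card ι : ZMod ℓ) - 2) * μ none := by
      rw [Finset.sum_sub_distrib, Finset.sum_add_distrib, sum_off14 (fun l => μ (some l)) hij,
        sum_off14 (fun _ => μ none) hij, Finset.sum_const, Finset.card_univ, nsmul_eq_mul]
      ring
    have hT2 : ∑ l ∈ P, ε i l * (δ i j l - m₀ - μ (some i) - 2 * μ none) =
        ∑ l ∈ P, ε i l * δ i j l - (E i - ε i j) * (m₀ + μ (some i) + 2 * μ none) := by
      have h1 : ∀ l ∈ P, ε i l * (δ i j l - m₀ - μ (some i) - 2 * μ none) =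
          ε i l * δ i j l - ε i l * (m₀ + μ (some i) + 2 * μ none) := fun l _ => by ring
      rw [Finset.sum_congr rfl h1, Finset.sum_sub_distrib, ← Finset.sum_mul,
        sum_off14 (fun l => ε i l) hij]
    have hT3 : ∑ l ∈ P, ε j l * (δ i j l - m₀ - μ (some j) - 2 * μ none) =
        ∑ l ∈ P, ε j l * δ i j l - (E j - ε j i) * (m₀ + μ (some j) + 2 * μ none) := by
      have h1 : ∀ l ∈ P, ε j l * (δ i j l - m₀ - μ (some j) - 2 * μ none) =
          ε j l * δ i j l - ε j l * (m₀ + μ (some j) + 2 * μ none) := fun l _ => by ring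
      rw [Finset.sum_congr rfl h1, Finset.sum_sub_distrib, ← Finset.sum_mul,
        sum_off14 (fun l => ε j l) hij]
      ring
    have hT4 : ∑ m ∈ P, δ i j m * (ε i j + ε j m + ε m i) =
        ε i j * ∑ l ∈ P, δ i j l + ∑ l ∈ P, ε j l * δ i j l - ∑ l ∈ P, ε i l * δ i j l := by
      rw [Finset.mul_sum, ← Finset.sum_add_distrib, ← Finset.sum_sub_distrib]
      refine Finset.sum_congr rfl fun l hl => ?_
      rw [hP, Finset.mem_filter] at hl
      rw [hε i l hl.2.1.symm]
      ring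
    rw [hT4] at hval
    rw [hS1, hS2, hT1, hT2, hT3] at hν
    have hj := hε i j hij
    have hcast : (((-2 * e i s : ℤ)) : ZMod ℓ) = -2 * ε i j := by
      push_cast
      rfl
    rw [hcast] at hν
    have hκε : ((e i s : ℤ) : ZMod ℓ) = ε i j := rfl
    rw [hκε, ZMod.natCast_self, zero_mul] at hν
    have hfin : (V.ν κ - M + (Fintype.card ι : ZMod ℓ) * μ none) * ε i j +
        (V.ν (c i) - E i * (m₀ + μ (some i) + 2 * μ none)) -
        (V.ν (c j) - E j * (m₀ + μ (some j) + 2 * μ none)) =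
        r * ((ε i₀ j₀ + ε j₀ l₀ + ε l₀ i₀) * triw14 (fun _ => 1) i₀ j₀ l₀ i j) := by
      linear_combination hval - hν + (m₀ + μ (some j) + 2 * μ none) * hj
    have hr' : r * r⁻¹ = 1 := mul_inv_cancel₀ hr
    rw [div_mul_eq_mul_div, ← add_div, ← sub_div, div_eq_iff hr, hfin]
    ring)
  refine ⟨fun i => ((b i).val : ℤ), fun i j hij => ?_⟩
  rw [← ZMod.intCast_zmod_eq_zero_iff_dvd]
  push_cast
  rw [ZMod.natCast_zmod_val, ZMod.natCast_zmod_val, sub_eq_zero]
  exact hb i j hij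

end Pool.Agent.Lib.MP_89bcae_ag
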