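import Mathlib
import Pool.Agent.Lib.MP_89bcae_ag.LIndC14

/-!
# Lines over a field: `ArrangementIndependent` and `IsArrangement`
-/

open Polynomial

open scoped Classical

set_option linter.unusedSectionVars false
set_option linter.unusedSimpArgs false
set_option linter.style.haveILetI false

namespace Pool.Agent.Lib.MP_89bcae_ag

universe u

open Sup.Lns (SS mem_SS AGeom)

variable {ι : Type} [Fintype ι] [LinearOrder ι] {k : Type u} [Field k] {v : ι ⊕ ι → k}

lemma Gen14.isArrangement (h : Gen14 v) : Superelliptic.IsArrangement (lin14 v) :=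
  ⟨h.geom.sep, h.geom.pos⟩

lemma aeval_map14 {F : Type u} [Field F] [Algebra k F] (x : k) (p : k[X]) :
    aeval (algebraMap k F x) p = algebraMap k F (p.eval x) := by
  rw [aeval_algebraMap_apply, coe_aeval_eq_eval]

lemma Gen14.aeval_eq (h : Gen14 v) {F : Type u} [Field F] [Algebra k F] {i j : ι} (hij : i ≠ j)
    (s : F) : aeval s (lin14 v i) = aeval s (lin14 v j) ↔ s = algebraMap k F (nd14 v i j) := by
  constructor
  · intro hs
    rw [← sub_eq_zero, ← map_sub, lin14_sub] at hs
    simp only [map_add, aeval_C, map_mul, aeval_X] at hs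
    have h0 := h.slope_ne hij
    have h1 : algebraMap k F (v (Sum.inr i) - v (Sum.inr j)) ≠ 0 :=
      (map_ne_zero_iff _ (algebraMap k F).injective).2 h0
    unfold nd14
    rw [← neg_div, map_div₀, map_neg, eq_div_iff h1]
    linear_combination hs
  · rintro rfl
    rw [aeval_map14, aeval_map14, (h.eval_eq hij _).2 rfl]

lemma Gen14.nodes_eq (h : Gen14 v) (F : Type u) [Field F] [Algebra k F] :
    Superelliptic.nodes k F (lin14 v) = algebraMap k F '' (SS (lin14 v) : Set k) := by
  ext s
  constructor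
  · rintro ⟨i, j, hij, hs⟩
    exact ⟨nd14 v i j, h.nd_mem hij, ((h.aeval_eq hij s).1 hs).symm⟩
  · rintro ⟨x, hx, rfl⟩
    obtain ⟨i, j, hij, rfl⟩ := h.mem_SS_iff.1 hx
    exact ⟨i, j, hij, (h.aeval_eq hij _).2 rfl⟩

/-- **The criterion for lines.** -/
theorem Gen14.indep (h : Gen14 v) {ℓ : ℕ} (hℓ : ℓ.Prime) (hm : 4 ≤ Fintype.card ι)
    (hcop : (Fintype.card ι).Coprime ℓ)
    (HV : ∀ i j l, i ≠ j → j ≠ l → i ≠ l → ∃ V : Val14 k ℓ, HV14 v V i j l)
    (F : Type u) [Field F] [Algebra k F] :
    Superelliptic.ArrangementIndependent ℓ k F (lin14 v) := by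
  haveI : Fact ℓ.Prime := ⟨hℓ⟩
  intro e κ c hκ hκm hc hsum hpow
  have hinj : Function.Injective (algebraMap k F) := (algebraMap k F).injective
  have hbot : IntermediateField.adjoin k (Superelliptic.nodes k F (lin14 v)) = ⊥ := by
    rw [IntermediateField.adjoin_eq_bot_iff, h.nodes_eq F]
    rintro _ ⟨x, -, rfl⟩
    exact IntermediateField.algebraMap_mem _ x
  rw [hbot] at hκm hc hpow
  obtain ⟨κ', rfl⟩ := IntermediateField.mem_bot.1 hκm
  choose c' hc' using fun i => IntermediateField.mem_bot.1 (hc i).2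
  have hκ' : κ' ≠ 0 := by
    rintro rfl
    exact hκ (map_zero _)
  have hc0 : ∀ i, c' i ≠ 0 := by
    intro i h0
    apply (hc i).1
    rw [← hc' i, h0, map_zero]
  obtain ⟨b, hb⟩ := h.indep_k hm hcop HV (fun i x => e i (algebraMap k F x)) κ' c' hκ' hc0
    (by
      intro i j l hij
      have h1 := hsum (algebraMap k F (nd14 v i j))
        ⟨i, j, hij, (h.aeval_eq hij _).2 rfl⟩ l
      have h2 : Finset.univ.filter (fun m => aeval (algebraMap k F (nd14 v i j)) (lin14 v m) =
          aeval (algebraMap k F (nd14 v i j)) (lin14 v l)) = Finset.univ.filter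
          (fun m => (lin14 v m).eval (nd14 v i j) = (lin14 v l).eval (nd14 v i j)) := by
        ext m
        rw [Finset.mem_filter, Finset.mem_filter, aeval_map14, aeval_map14, hinj.eq_iff]
      rw [h2] at h1
      exact h1)
    (by
      intro i j hij
      obtain ⟨w, hw, hwe⟩ := hpow i j (algebraMap k F (nd14 v i j)) hij
        ((h.aeval_eq hij _).2 rfl)
      obtain ⟨w', rfl⟩ := IntermediateField.mem_bot.1 hw
      refine ⟨w', hinj ?_⟩
      rw [map_pow, hwe]
      have hset : {s' ∈ Superelliptic.nodes k F (lin14 v) | s' ≠ algebraMap k F (nd14 v i j)} =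
          ((((SS (lin14 v)).erase (nd14 v i j)).image (algebraMap k F) : Finset F) : Set F) := by
        ext s'
        rw [Finset.coe_image, Finset.coe_erase, Set.mem_ofPred_eq, h.nodes_eq F]
        constructor
        · rintro ⟨⟨x, hx, rfl⟩, hne⟩
          exact ⟨x, ⟨hx, fun he => hne (by rw [he])⟩, rfl⟩
        · rintro ⟨x, ⟨hx, hne⟩, rfl⟩
          exact ⟨⟨x, hx, rfl⟩, fun he => hne (hinj he)⟩
      have hP : ∀ P : Finset ι, (∀ l, l ∈ P ↔ l ≠ i ∧ l ≠ j) →
          ∏ l ∈ P, (aeval (algebraMap k F (nd14 v i j)) (lin14 v i) -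
            aeval (algebraMap k F (nd14 v i j)) (lin14 v l)) ^
              (-e i (algebraMap k F (nd14 v i j))) =
          ∏ l ∈ Finset.univ.filter (fun l => l ≠ i ∧ l ≠ j),
            (algebraMap k F ((lin14 v i).eval (nd14 v i j)) -
              algebraMap k F ((lin14 v l).eval (nd14 v i j))) ^
              (-e i (algebraMap k F (nd14 v i j))) := by
        intro P hP
        refine Finset.prod_congr ?_ fun l _ => ?_
        · ext l
          rw [hP, Finset.mem_filter]
          exact ⟨fun hh => ⟨Finset.mem_univ l, hh⟩, fun hh => hh.2⟩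
        · rw [aeval_map14, aeval_map14]
      rw [hset, finprod_mem_coe_finset, Finset.prod_image fun x _ y _ hxy => hinj hxy,
        hP, aeval_map14]
      · simp only [map_mul, map_prod, map_zpow₀, map_div₀, map_sub, hc']
      · intro l
        simp)
  refine ⟨b, fun i j s hij hs => ?_⟩
  rw [(h.aeval_eq hij s).1 hs]
  exact hb i j hij

end Pool.Agent.Lib.MP_89bcae_ag
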