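import Mathlib
import Pool.Agent.Lib.MP_89bcae_ag.LIndD14
import Pool.Agent.Lib.MP_89bcae_ag.LDenB14
import Pool.Agent.Lib.MP_89bcae_ag.EisE7

/-!
# Lines with integral coefficients
-/

open Polynomial Filter Topology

open scoped Classical

set_option linter.unusedSectionVars false
set_option linter.unusedSimpArgs false
set_option linter.style.haveILetI false

namespace Pool.Agent.Lib.MP_89bcae_ag

universe u

variable {ι : Type} [Fintype ι] [LinearOrder ι]

/-- No two lines are parallel and no two intersection points have the same abscissa. -/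
structure GenZ14 (v : ι ⊕ ι → ℤ) : Prop where
  slope : ∀ i j, i ≠ j → v (Sum.inr i) ≠ v (Sum.inr j)
  node : ∀ i j l m, i ≠ j → l ≠ m → ¬ (l = i ∧ m = j) → ¬ (l = j ∧ m = i) →
    (v (Sum.inl i) - v (Sum.inl j)) * (v (Sum.inr l) - v (Sum.inr m)) ≠
      (v (Sum.inl l) - v (Sum.inl m)) * (v (Sum.inr i) - v (Sum.inr j))

lemma GenZ14.gen {v : ι ⊕ ι → ℤ} (h : GenZ14 v) (k : Type u) [Field k] [CharZero k] :
    Gen14 (fun x => (v x : k)) where
  slope i j hij := fun he => h.slope i j hij (by exact_mod_cast he)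
  node i j l m hij hlm h1 h2 := fun he => h.node i j l m hij hlm h1 h2 (by exact_mod_cast he)

/-- The `p`-adic valuation modulo `ℓ`. -/
noncomputable def padicVal14 {k : Type u} [Field k] {p : ℕ} [Fact p.Prime] (φ : k →+* ℚ_[p])
    (ℓ : ℕ) : Val14 k ℓ where
  ν x := ((Padic.valuation (φ x) : ℤ) : ZMod ℓ)
  mul x y hx hy := by
    have hx' : φ x ≠ 0 := (map_ne_zero_iff φ φ.injective).2 hx
    have hy' : φ y ≠ 0 := (map_ne_zero_iff φ φ.injective).2 hy
    rw [map_mul, Padic.valuation_mul hx' hy']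
    push_cast
    rfl
  neg_one := by
    have h1 : Padic.valuation (φ (-1)) = 0 := by
      rw [map_neg, map_one]
      have h2 : (-1 : ℚ_[p]) = ((-1 : ℤ) : ℚ_[p]) := by push_cast; rfl
      rw [h2, Padic.valuation_intCast]
      simp [padicValInt]
    rw [h1, Int.cast_zero]

lemma padicVal14_int {k : Type u} [Field k] {p : ℕ} [Fact p.Prime] (φ : k →+* ℚ_[p])
    (ℓ : ℕ) (z : ℤ) : (padicVal14 φ ℓ).ν (z : k) = ((padicValInt p z : ℕ) : ZMod ℓ) := by
  change ((Padic.valuation (φ (z : k)) : ℤ) : ZMod ℓ) = _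
  rw [map_intCast, Padic.valuation_intCast]
  push_cast
  rfl

lemma OnlyBrk14.hv {v : ι ⊕ ι → ℤ} {i j l : ι} {p : ℕ} [Fact p.Prime]
    (h : OnlyBrk14 p (some i) (some j) (some l) v) {k : Type u} [Field k] (φ : k →+* ℚ_[p])
    (ℓ : ℕ) [Fact ℓ.Prime] : HV14 (fun x => (v x : k)) (padicVal14 φ ℓ) i j l := by
  obtain ⟨h1, h2, h3⟩ := h
  have hb : ∀ x y z : Option ι, brk14 (fun x => (v x : k)) x y z = ((brk14 v x y z : ℤ) : k) := by
    intro x y z
    exact (map_brk14 (Int.castRingHom k) v x y z).symm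
  refine ⟨0, fun _ => 0, 1, one_ne_zero, ?_, ?_⟩
  · rw [hb, padicVal14_int]
    have h4 : padicValInt p (brk14 v (some i) (some j) (some l)) = 1 := by
      have h0 : brk14 v (some i) (some j) (some l) ≠ 0 := by
        intro h0
        apply h2
        rw [h0]
        exact dvd_zero _
      have h5 := (padicValInt_dvd_iff (p := p) 1 (brk14 v (some i) (some j) (some l))).1
        (by rwa [pow_one])
      have h6 : ¬ 2 ≤ padicValInt p (brk14 v (some i) (some j) (some l)) := fun h6 =>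
        h2 ((padicValInt_dvd_iff (p := p) 2 _).2 (Or.inr h6))
      rcases h5 with h5 | h5
      · exact absurd h5 h0
      · omega
    rw [h4]
    simp
  · intro x y z hxy hyz hxz hno
    rw [hb, padicVal14_int, padicValInt.eq_zero_of_not_dvd (h3 x y z hxy hyz hxz hno)]
    simp

/-- **Lines with integral coefficients over the cyclotomic field.** -/
theorem linesIndep14 {ℓ : ℕ} (hℓ : ℓ.Prime) (hm : 4 ≤ Fintype.card ι)
    (hcop : (Fintype.card ι).Coprime ℓ) {v : ι ⊕ ι → ℤ} (hG : GenZ14 v)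
    (hp : ∀ i j l : ι, i ≠ j → j ≠ l → i ≠ l →
      ∃ p : ℕ, p.Prime ∧ (p : ZMod ℓ) = 1 ∧ OnlyBrk14 p (some i) (some j) (some l) v)
    (K F : Type u) [Field K] [Algebra ℚ K] [IsCyclotomicExtension {ℓ} ℚ K] [Field F]
    [Algebra K F] :
    Superelliptic.IsArrangement
        (fun i => C ((v (Sum.inl i) : ℤ) : K) + C ((v (Sum.inr i) : ℤ) : K) * X) ∧
      Superelliptic.ArrangementIndependent ℓ K F
        (fun i => C ((v (Sum.inl i) : ℤ) : K) + C ((v (Sum.inr i) : ℤ) : K) * X) := by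
  haveI : Fact ℓ.Prime := ⟨hℓ⟩
  haveI : CharZero K := charZero_of_injective_algebraMap (algebraMap ℚ K).injective
  have hgen := hG.gen K
  refine ⟨hgen.isArrangement, hgen.indep hℓ hm hcop ?_ F⟩
  intro i j l hij hjl hil
  obtain ⟨p, hpp, hp1, hB⟩ := hp i j l hij hjl hil
  haveI : Fact p.Prime := ⟨hpp⟩
  have hdvd : ℓ ∣ p - 1 := by
    rw [← ZMod.natCast_eq_zero_iff, Nat.cast_sub hpp.one_le, hp1, Nat.cast_one, sub_self]
  obtain ⟨φ⟩ := exists_embedding7 hℓ hdvd K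
  exact ⟨padicVal14 φ ℓ, hB.hv φ ℓ⟩

/-- The set of the families in the box, one relation. -/
lemma card_rel14 (i j l m : ι) (hij : i ≠ j) (hil : i ≠ l) (him : i ≠ m) (H : ℕ) :
    ({v : ι ⊕ ι → ℤ | (∀ x, |v x| ≤ H) ∧ v (Sum.inr l) ≠ v (Sum.inr m) ∧
      (v (Sum.inl i) - v (Sum.inl j)) * (v (Sum.inr l) - v (Sum.inr m)) =
      (v (Sum.inl l) - v (Sum.inl m)) * (v (Sum.inr i) - v (Sum.inr j))}).ncard * (2 * H + 1) ≤
      (2 * H + 1) ^ Fintype.card (ι ⊕ ι) := by
  set S := {v : ι ⊕ ι → ℤ | (∀ x, |v x| ≤ H) ∧ v (Sum.inr l) ≠ v (Sum.inr m) ∧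
      (v (Sum.inl i) - v (Sum.inl j)) * (v (Sum.inr l) - v (Sum.inr m)) =
      (v (Sum.inl l) - v (Sum.inl m)) * (v (Sum.inr i) - v (Sum.inr j))} with hS
  set B : Finset (ι ⊕ ι → ℤ) := Fintype.piFinset fun _ => Finset.Icc (-(H : ℤ)) H with hB
  have hBcard : B.card = (2 * H + 1) ^ Fintype.card (ι ⊕ ι) := by
    rw [hB, Fintype.card_piFinset, Finset.prod_const, Finset.card_univ, Int.card_Icc]
    congr 1
    omega
  have hc : (Finset.Icc (-(H : ℤ)) H).card = 2 * H + 1 := by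
    rw [Int.card_Icc]
    omega
  have h1 : (S ×ˢ ((Finset.Icc (-(H : ℤ)) H : Finset ℤ) : Set ℤ)).ncard = S.ncard * (2 * H + 1) := by
    rw [Set.ncard_prod, Set.ncard_coe_finset, hc]
  rw [← h1, ← hBcard, ← Set.ncard_coe_finset B]
  refine Set.ncard_le_ncard_of_injOn (fun q => Function.update q.1 (Sum.inl i) q.2) ?_ ?_
    (Finset.finite_toSet B)
  · rintro ⟨v, c⟩ ⟨hv, hcc⟩
    rw [Finset.mem_coe, hB, Fintype.mem_piFinset]
    intro x
    rw [Finset.mem_Icc]
    by_cases hx : x = Sum.inl i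
    · subst hx
      beta_reduce
      rw [Function.update_self]
      exact Finset.mem_Icc.1 hcc
    · beta_reduce
      rw [Function.update_of_ne hx]
      exact abs_le.1 (hv.1 x)
  · rintro ⟨v, c⟩ ⟨hv, hcc⟩ ⟨v', c'⟩ ⟨hv', hcc'⟩ he
    beta_reduce at he
    have e1 : c = c' := by
      have := congrFun he (Sum.inl i)
      beta_reduce at this
      rwa [Function.update_self, Function.update_self] at this
    have e2 : ∀ x, x ≠ Sum.inl i → v x = v' x := by
      intro x hx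
      have := congrFun he x
      beta_reduce at this
      rwa [Function.update_of_ne hx, Function.update_of_ne hx] at this
    have e3 : v (Sum.inl i) = v' (Sum.inl i) := by
      obtain ⟨-, hne, hr⟩ := hv
      obtain ⟨-, -, hr'⟩ := hv'
      dsimp only at hne hr hr'
      rw [← e2 (Sum.inl j) (by simpa using hij.symm), ← e2 (Sum.inr l) (by simp),
        ← e2 (Sum.inr m) (by simp), ← e2 (Sum.inl l) (by simpa using hil.symm),
        ← e2 (Sum.inl m) (by simpa using him.symm), ← e2 (Sum.inr i) (by simp),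
        ← e2 (Sum.inr j) (by simp)] at hr'
      have h2 : (v (Sum.inl i) - v' (Sum.inl i)) * (v (Sum.inr l) - v (Sum.inr m)) = 0 := by
        linear_combination hr - hr'
      exact sub_eq_zero.1 ((mul_eq_zero.1 h2).resolve_right (sub_ne_zero.2 hne))
    have e4 : v = v' := by
      funext x
      by_cases hx : x = Sum.inl i
      · rw [hx, e3]
      · exact e2 x hx
    rw [e1, e4]

/-- The condition on the primes. -/
def GoodL14 (ℓ : ℕ) (v : ι ⊕ ι → ℤ) : Prop :=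
  ∀ x y z : Option ι, x ≠ y → y ≠ z → x ≠ z →
    ∃ p : ℕ, p.Prime ∧ (p : ZMod ℓ) = 1 ∧ OnlyBrk14 p x y z v

lemma GoodL14.brk_ne {ℓ : ℕ} {v : ι ⊕ ι → ℤ} (h : GoodL14 ℓ v) {x y z : Option ι} (hxy : x ≠ y)
    (hyz : y ≠ z) (hxz : x ≠ z) : brk14 v x y z ≠ 0 := by
  obtain ⟨p, -, -, -, h2, -⟩ := h x y z hxy hyz hxz
  intro h0
  apply h2
  rw [h0]
  exact dvd_zero _

lemma GoodL14.slope {ℓ : ℕ} {v : ι ⊕ ι → ℤ} (h : GoodL14 ℓ v) {i j : ι} (hij : i ≠ j) :
    v (Sum.inr i) ≠ v (Sum.inr j) := by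
  have h1 := h.brk_ne (x := some i) (y := some j) (z := none) (by simpa using hij) (by simp)
    (by simp)
  rw [brk14_none] at h1
  exact sub_ne_zero.1 h1

/-- If the conditions on the primes hold, only the relations between four different lines can fail. -/
lemma GoodL14.gen {ℓ : ℕ} {v : ι ⊕ ι → ℤ} (h : GoodL14 ℓ v)
    (h4 : ∀ i j l m, i ≠ j → i ≠ l → i ≠ m → j ≠ l → j ≠ m → l ≠ m →
      (v (Sum.inl i) - v (Sum.inl j)) * (v (Sum.inr l) - v (Sum.inr m)) ≠
      (v (Sum.inl l) - v (Sum.inl m)) * (v (Sum.inr i) - v (Sum.inr j))) : GenZ14 v := by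
  have h3 : ∀ i j l, i ≠ j → i ≠ l → j ≠ l →
      (v (Sum.inl i) - v (Sum.inl j)) * (v (Sum.inr i) - v (Sum.inr l)) -
      (v (Sum.inr i) - v (Sum.inr j)) * (v (Sum.inl i) - v (Sum.inl l)) ≠ 0 := by
    intro i j l hij hil hjl
    have h1 := h.brk_ne (x := some i) (y := some j) (z := some l) (by simpa using hij)
      (by simpa using hjl) (by simpa using hil)
    intro h2
    apply h1
    rw [← h2]
    unfold brk14
    simp only [pc14, pa14, pb14]
    ring
  refine ⟨fun i j hij => h.slope hij, fun i j l m hij hlm h1 h2 => ?_⟩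
  by_cases a1 : i = l
  · subst a1
    have hjm : j ≠ m := fun hh => h1 ⟨rfl, hh.symm⟩
    intro he
    exact h3 i j m hij hlm hjm (by linear_combination he)
  by_cases a2 : i = m
  · subst a2
    have hjl : j ≠ l := fun hh => h2 ⟨hh.symm, rfl⟩
    intro he
    exact h3 i j l hij a1 hjl (by linear_combination -he)
  by_cases a3 : j = l
  · subst a3
    intro he
    exact h3 j i m hij.symm hlm a2 (by linear_combination -he)
  by_cases a4 : j = m
  · subst a4
    intro he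
    exact h3 j i l hij.symm a3 a1 (by linear_combination he)
  exact h4 i j l m hij a1 a2 a3 a4 hlm

/-- **Density one.** -/
theorem linesDensityGen14 {ℓ : ℕ} (hℓ : ℓ.Prime) :
    Tendsto (fun H : ℕ => ({v : ι ⊕ ι → ℤ | (∀ i, |v i| ≤ H) ∧ (GoodL14 ℓ v ∧ GenZ14 v)}.ncard : ℝ) /
      (2 * H + 1) ^ Fintype.card (ι ⊕ ι)) atTop (𝓝 1) := by
  haveI : NeZero ℓ := ⟨hℓ.ne_zero⟩
  set N := Fintype.card (ι ⊕ ι) with hN
  have hdens := linesDensity14 (ι := ι) ℓ 0
  rw [← hN] at hdens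
  set G : ℕ → Set (ι ⊕ ι → ℤ) := fun H => {v : ι ⊕ ι → ℤ | (∀ i, |v i| ≤ H) ∧
      ∀ x y z : Option ι, x ≠ y → y ≠ z → x ≠ z →
        ∃ p : ℕ, p.Prime ∧ 0 ≤ p ∧ (p : ZMod ℓ) = 1 ∧ OnlyBrk14 p x y z v} with hG
  set A : ℕ → Set (ι ⊕ ι → ℤ) := fun H =>
    {v : ι ⊕ ι → ℤ | (∀ i, |v i| ≤ H) ∧ (GoodL14 ℓ v ∧ GenZ14 v)} with hA
  set R : ℕ → ι × ι × ι × ι → Set (ι ⊕ ι → ℤ) := fun H q =>
    {v : ι ⊕ ι → ℤ | (∀ x, |v x| ≤ H) ∧ v (Sum.inr q.2.2.1) ≠ v (Sum.inr q.2.2.2) ∧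
      (v (Sum.inl q.1) - v (Sum.inl q.2.1)) * (v (Sum.inr q.2.2.1) - v (Sum.inr q.2.2.2)) =
      (v (Sum.inl q.2.2.1) - v (Sum.inl q.2.2.2)) * (v (Sum.inr q.1) - v (Sum.inr q.2.1))} with hR
  set T : Finset (ι × ι × ι × ι) := Finset.univ.filter fun q => q.1 ≠ q.2.1 ∧ q.1 ≠ q.2.2.1 ∧
    q.1 ≠ q.2.2.2 with hT
  -- the box is finite
  have hbox : ∀ H : ℕ, {v : ι ⊕ ι → ℤ | ∀ i, |v i| ≤ H}.Finite := by
    intro H
    refine Set.Finite.subset (Fintype.piFinset fun _ : ι ⊕ ι =>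
      Finset.Icc (-(H : ℤ)) H).finite_toSet ?_
    intro v hv
    rw [Finset.mem_coe, Fintype.mem_piFinset]
    intro x
    exact Finset.mem_Icc.2 (abs_le.1 (hv x))
  have hboxcard : ∀ H : ℕ, ({v : ι ⊕ ι → ℤ | ∀ i, |v i| ≤ H}).ncard ≤ (2 * H + 1) ^ N := by
    intro H
    have h1 : {v : ι ⊕ ι → ℤ | ∀ i, |v i| ≤ H} ⊆
        ((Fintype.piFinset fun _ : ι ⊕ ι => Finset.Icc (-(H : ℤ)) H : Finset _) : Set _) := by
      intro v hv
      rw [Finset.mem_coe, Fintype.mem_piFinset]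
      intro x
      exact Finset.mem_Icc.2 (abs_le.1 (hv x))
    refine (Set.ncard_le_ncard h1 (Finset.finite_toSet _)).trans ?_
    rw [Set.ncard_coe_finset, Fintype.card_piFinset, Finset.prod_const, Finset.card_univ,
      Int.card_Icc, ← hN]
    refine Nat.pow_le_pow_left ?_ N
    omega
  have hAfin : ∀ H, (A H).Finite := fun H => (hbox H).subset fun v hv => hv.1
  -- the decomposition
  have hsub : ∀ H, G H ⊆ A H ∪ ⋃ q ∈ T, R H q := by
    intro H v hv
    by_cases hgen : GenZ14 v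
    · refine Or.inl ⟨hv.1, ?_, hgen⟩
      intro x y z hxy hyz hxz
      obtain ⟨p, hp, -, hp1, hB⟩ := hv.2 x y z hxy hyz hxz
      exact ⟨p, hp, hp1, hB⟩
    · right
      have hgood : GoodL14 ℓ v := by
        intro x y z hxy hyz hxz
        obtain ⟨p, hp, -, hp1, hB⟩ := hv.2 x y z hxy hyz hxz
        exact ⟨p, hp, hp1, hB⟩
      by_contra hno
      apply hgen
      apply hgood.gen
      intro i j l m hij hil him hjl hjm hlm he
      apply hno
      rw [Set.mem_iUnion₂]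
      exact ⟨(i, j, l, m), Finset.mem_filter.2 ⟨Finset.mem_univ _, hij, hil, him⟩, hv.1,
        hgood.slope hlm, he⟩
  have hRfin : ∀ H q, (R H q).Finite := fun H q => (hbox H).subset fun v hv => hv.1
  have hUfin : ∀ H, (⋃ q ∈ T, R H q).Finite := fun H => Set.Finite.biUnion T.finite_toSet
    fun q _ => hRfin H q
  have hcount : ∀ H, ((G H).ncard : ℝ) ≤ (A H).ncard + T.card * ((2 * H + 1) ^ N / (2 * H + 1)) := by
    intro H
    have h1 : (G H).ncard ≤ (A H).ncard + (⋃ q ∈ T, R H q).ncard :=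
      (Set.ncard_le_ncard (hsub H) ((hAfin H).union (hUfin H))).trans (Set.ncard_union_le _ _)
    have h2 : (⋃ q ∈ T, R H q).ncard ≤ ∑ q ∈ T, (R H q).ncard :=
      Finset.set_ncard_biUnion_le T (fun q => R H q)
    have h3 : ∀ q ∈ T, ((R H q).ncard : ℝ) ≤ (2 * H + 1) ^ N / (2 * H + 1) := by
      intro q hq
      rw [hT, Finset.mem_filter] at hq
      have h4 := card_rel14 q.1 q.2.1 q.2.2.1 q.2.2.2 hq.2.1 hq.2.2.1 hq.2.2.2 H
      rw [le_div_iff₀ (by positivity), ← hN] at *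
      exact_mod_cast h4
    have h5 : (∑ q ∈ T, ((R H q).ncard : ℝ)) ≤ T.card * ((2 * H + 1) ^ N / (2 * H + 1)) := by
      rw [← nsmul_eq_mul]
      exact Finset.sum_le_card_nsmul T _ _ h3
    have h6 : ((⋃ q ∈ T, R H q).ncard : ℝ) ≤ ∑ q ∈ T, ((R H q).ncard : ℝ) := by exact_mod_cast h2
    have h7 : ((G H).ncard : ℝ) ≤ (A H).ncard + (⋃ q ∈ T, R H q).ncard := by exact_mod_cast h1
    linarith
  -- the limit
  have hlim : Tendsto (fun H : ℕ => (T.card : ℝ) * (1 / (2 * (H : ℝ) + 1))) atTop (𝓝 0) := by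
    have h1 : Tendsto (fun H : ℕ => 2 * (H : ℝ) + 1) atTop atTop :=
      tendsto_atTop_add_const_right _ _
        ((tendsto_natCast_atTop_atTop).const_mul_atTop (by norm_num))
    have h2 := (tendsto_const_nhds (x := (1 : ℝ)).div_atTop h1).const_mul (T.card : ℝ)
    rwa [mul_zero] at h2
  have hlow := hdens.sub hlim
  rw [sub_zero] at hlow
  refine tendsto_of_tendsto_of_tendsto_of_le_of_le hlow tendsto_const_nhds (fun H => ?_)
    (fun H => ?_)
  · have h1 := hcount H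
    have h0 : (0 : ℝ) < (2 * (H : ℝ) + 1) ^ N := by positivity
    have h2 : (0 : ℝ) < 2 * (H : ℝ) + 1 := by positivity
    change ((G H).ncard : ℝ) / (2 * (H : ℝ) + 1) ^ N - T.card * (1 / (2 * (H : ℝ) + 1)) ≤
      ((A H).ncard : ℝ) / (2 * (H : ℝ) + 1) ^ N
    rw [sub_le_iff_le_add, div_le_iff₀ h0, add_mul, div_mul_cancel₀ _ h0.ne']
    refine h1.trans (le_of_eq ?_)
    ring
  · have h0 : (0 : ℝ) < (2 * (H : ℝ) + 1) ^ N := by positivity
    change ((A H).ncard : ℝ) / (2 * (H : ℝ) + 1) ^ N ≤ 1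
    rw [div_le_one h0]
    have h1 : (A H).ncard ≤ (2 * H + 1) ^ N :=
      (Set.ncard_le_ncard (fun v hv => hv.1) (hbox H)).trans (hboxcard H)
    exact_mod_cast h1

end Pool.Agent.Lib.MP_89bcae_ag
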