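import Mathlib
import Pool.Agent.Lib.MP_89bcae_ag.LIndC14

/-!
# Lines over a field with weights: the arithmetic condition
-/

open Polynomial

open scoped Classical

set_option linter.unusedSectionVars false
set_option linter.unusedSimpArgs false
set_option linter.style.haveILetI false

namespace Pool.Agent.Lib.MP_89bcae_ag

universe u

lemma zmod_two14 : ∀ x : ZMod 2, x ≠ 0 → x = 1 := by decide

variable {ι : Type} [Fintype ι] [LinearOrder ι]

section comb

variable {F : Type} [Field F]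

/-- If only the triangle `i j l` counts, with weights. -/
lemma tri14w_value (w : ι → F) (d : ι → ι → ι → F) (r : F) (ε : ι → ι → F)
    (hε : ∀ i j, i ≠ j → ε j i = -ε i j) {i j l : ι} (hij : i ≠ j) (hjl : j ≠ l) (hil : i ≠ l)
    (h1 : ∀ a b c, a ≠ b → b ≠ c → a ≠ c → a ∈ ({i, j, l} : Set ι) → b ∈ ({i, j, l} : Set ι) →
      c ∈ ({i, j, l} : Set ι) → d a b c = r)
    (h0 : ∀ a b c, a ≠ b → b ≠ c → a ≠ c →
      ¬ (a ∈ ({i, j, l} : Set ι) ∧ b ∈ ({i, j, l} : Set ι) ∧ c ∈ ({i, j, l} : Set ι)) →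
        d a b c = 0) {a b : ι} (hab : a ≠ b) :
    ∑ m ∈ Finset.univ.filter (fun m => m ≠ a ∧ m ≠ b),
      w m * d a b m * (ε a b + ε b m + ε m a) =
        r * ((ε i j + ε j l + ε l i) * triw14 w i j l a b) := by
  have hz : ∀ {a b c : ι}, a ≠ b → (∀ l', l' ≠ a → l' ≠ b → l' ≠ c → l' ∉ ({i, j, l} : Set ι)) →
      ∀ l', l' ≠ a → l' ≠ b → l' ≠ c → w l' * d a b l' = 0 := by
    intro a b c hab hc l' hla hlb hlc
    rw [h0 a b l' hab hlb.symm hla.symm fun hh => hc l' hla hlb hlc hh.2.2, mul_zero]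
  have e1 := hε i j hij
  have e2 := hε j l hjl
  have e3 := hε l i hil.symm
  by_cases ha : a ∈ ({i, j, l} : Set ι)
  swap
  · rw [Finset.sum_eq_zero]
    · have : triw14 w i j l a b = 0 := by
        simp only [Set.mem_insert_iff, Set.mem_singleton_iff, not_or] at ha
        simp [triw14, ha.1, ha.2.1, ha.2.2]
      rw [this, mul_zero, mul_zero]
    · intro m hm
      rw [Finset.mem_filter] at hm
      rw [h0 a b m hab hm.2.2.symm hm.2.1.symm fun hh => ha hh.1, mul_zero, zero_mul]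
  by_cases hb : b ∈ ({i, j, l} : Set ι)
  swap
  · rw [Finset.sum_eq_zero]
    · have : triw14 w i j l a b = 0 := by
        simp only [Set.mem_insert_iff, Set.mem_singleton_iff, not_or] at hb
        simp [triw14, hb.1, hb.2.1, hb.2.2]
      rw [this, mul_zero, mul_zero]
    · intro m hm
      rw [Finset.mem_filter] at hm
      rw [h0 a b m hab hm.2.2.symm hm.2.1.symm fun hh => hb hh.2.1, mul_zero, zero_mul]
  have hd : ∀ c, a ≠ c → b ≠ c → c ∈ ({i, j, l} : Set ι) → w c * d a b c = w c * r := by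
    intro c hac hbc hc
    rw [h1 a b c hab hbc hac ha hb hc]
  simp only [Set.mem_insert_iff, Set.mem_singleton_iff] at ha hb
  rcases ha with rfl | rfl | rfl <;> rcases hb with rfl | rfl | rfl
  · exact absurd rfl hab
  · rw [sum_third14 (fun m => w m * d a b m) ε hil hjl (hd l hil hjl (by simp))
      (hz hij (by simp; tauto))]
    have : triw14 w a b l a b = w l := by
      simp [triw14, hij, hij.symm, hjl, hjl.symm, hil, hil.symm]
    rw [this]
    ring
  · rw [sum_third14 (fun m => w m * d a b m) ε hij hjl.symm (hd j hij hjl.symm (by simp))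
      (hz hil (by simp; tauto))]
    have : triw14 w a j b a b = -w j := by
      simp [triw14, hij, hij.symm, hjl, hjl.symm, hil, hil.symm]
    rw [this]
    linear_combination w j * r * (e1 + e2 + e3)
  · rw [sum_third14 (fun m => w m * d a b m) ε hjl hil (hd l hjl hil (by simp))
      (hz hij.symm (by simp; tauto))]
    have : triw14 w b a l a b = -w l := by
      simp [triw14, hij, hij.symm, hjl, hjl.symm, hil, hil.symm]
    rw [this]
    linear_combination w l * r * (e1 + e2 + e3)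
  · exact absurd rfl hab
  · rw [sum_third14 (fun m => w m * d a b m) ε hij.symm hil.symm
      (hd i hij.symm hil.symm (by simp)) (hz hjl (by simp; tauto))]
    have : triw14 w i a b a b = w i := by
      simp [triw14, hij, hij.symm, hjl, hjl.symm, hil, hil.symm]
    rw [this]
    ring
  · rw [sum_third14 (fun m => w m * d a b m) ε hjl.symm hij (hd j hjl.symm hij (by simp))
      (hz hil.symm (by simp; tauto))]
    have : triw14 w b j a a b = w j := by
      simp [triw14, hij, hij.symm, hjl, hjl.symm, hil, hil.symm]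
    rw [this]
    ring
  · rw [sum_third14 (fun m => w m * d a b m) ε hil.symm hij.symm
      (hd i hil.symm hij.symm (by simp)) (hz hjl.symm (by simp; tauto))]
    have : triw14 w i b a a b = -w i := by
      simp [triw14, hij, hij.symm, hjl, hjl.symm, hil, hil.symm]
    rw [this]
    linear_combination w i * r * (e1 + e2 + e3)
  · exact absurd rfl hab

end comb

variable {k : Type u} [Field k] {v : ι ⊕ ι → k}

open Sup.Lns (SS mem_SS AGeom)

/-- **The criterion over `k` with weights, in terms of the homomorphisms to `ZMod ℓ`.** -/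
theorem Gen14.cut_kw (h : Gen14 v) {ℓ : ℕ} [Fact ℓ.Prime] (hm : 4 ≤ Fintype.card ι)
    (w : ι → ZMod ℓ) (hw : ∀ i, w i ≠ 0) (hws : ∑ i, w i ≠ 0)
    (HV : ∀ i j l, i ≠ j → j ≠ l → i ≠ l → ∃ V : Val14 k ℓ, HV14 v V i j l)
    (ε : ι → ι → ZMod ℓ) (hε : ∀ i j, i ≠ j → ε j i = -ε i j) (κ : k) (c : ι → k)
    (hpow : ∀ V : Val14 k ℓ, ∀ i j, i ≠ j →
      ε i j * V.ν κ + (V.ν (c i) - V.ν (c j)) -
        (w i + w j) * ε i j * V.ν (v (Sum.inr i) - v (Sum.inr j)) -
        ε i j * ∑ l ∈ Finset.univ.filter (fun l => l ≠ i ∧ l ≠ j),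
          w l * V.ν ((lin14 v i).eval (nd14 v i j) - (lin14 v l).eval (nd14 v i j)) +
        (∑ l ∈ Finset.univ.filter (fun l => l ≠ i ∧ l ≠ j),
            w l * ε i l * V.ν (nd14 v i j - nd14 v i l) -
          ∑ l ∈ Finset.univ.filter (fun l => l ≠ i ∧ l ≠ j),
            w l * ε j l * V.ν (nd14 v i j - nd14 v j l)) = 0) :
    ∃ b : ι → ZMod ℓ, ∀ i j, i ≠ j → ε i j = b j - b i := by
  have hℓ : ℓ.Prime := Fact.out
  have h2 : (2 : ZMod ℓ) = 0 → ∀ i, w i = 1 := by
    intro h2 i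
    have h3 : ℓ ∣ 2 := by
      rw [← ZMod.natCast_eq_zero_iff]
      exact_mod_cast h2
    have h4 : ℓ = 2 := (Nat.prime_dvd_prime_iff_eq hℓ Nat.prime_two).1 h3
    subst h4
    exact zmod_two14 _ (hw i)
  refine cut_of_triw14 hm w hw hws h2 ε hε ?_
  intro i₀ j₀ l₀ hij₀ hjl₀ hil₀
  obtain ⟨V, m₀, μ, r, hr, hV1, hV0⟩ := HV i₀ j₀ l₀ hij₀ hjl₀ hil₀
  have hslope : ∀ i j, i ≠ j → V.ν (v (Sum.inr i) - v (Sum.inr j)) =
      m₀ + μ (some i) + μ (some j) + μ none := by
    intro i j hij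
    rw [← brk14_none]
    refine hV0 (some i) (some j) none (by simpa using hij) (by simp) (by simp) ?_
    rintro ⟨-, -, hh⟩
    simp at hh
  -- the brackets
  set δ : ι → ι → ι → ZMod ℓ := fun a b m =>
    V.ν (dd14 v a b m) - (m₀ + μ (some a) + μ (some b) + μ (some m)) with hδ
  have hδ1 : ∀ a b m, a ≠ b → b ≠ m → a ≠ m → a ∈ ({i₀, j₀, l₀} : Set ι) →
      b ∈ ({i₀, j₀, l₀} : Set ι) → m ∈ ({i₀, j₀, l₀} : Set ι) → δ a b m = r := by
    intro a b m hab hbm ham ha hb hm
    have h1 := nu_perm14 h V hij₀ hjl₀ hil₀ (fun x => μ (some x)) (r := m₀ + r) (by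
      rw [hV1]
      ring) a b m hab hbm ham ha hb hm
    rw [hδ]
    beta_reduce
    rw [h1]
    ring
  have hδ0 : ∀ a b m, a ≠ b → b ≠ m → a ≠ m →
      ¬ (a ∈ ({i₀, j₀, l₀} : Set ι) ∧ b ∈ ({i₀, j₀, l₀} : Set ι) ∧
        m ∈ ({i₀, j₀, l₀} : Set ι)) → δ a b m = 0 := by
    intro a b m hab hbm ham hno
    rw [hδ]
    beta_reduce
    rw [sub_eq_zero]
    refine hV0 (some a) (some b) (some m) (by simpa using hab) (by simpa using hbm)
      (by simpa using ham) fun hh => hno ?_
    simpa using hh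
  set E : ι → ZMod ℓ := fun i => ∑ l, w l * ε i l - w i * ε i i with hE
  set M : ZMod ℓ := ∑ l, w l * μ (some l) with hM
  set W : ZMod ℓ := ∑ l, w l with hW
  refine ⟨(V.ν κ - M + W * μ none) / r,
    fun i => (V.ν (c i) - E i * (m₀ + μ (some i) + 2 * μ none)) / r, fun i j hij => ?_⟩
  -- the equation for `i, j`
  have hval := tri14w_value w δ r ε hε hij₀ hjl₀ hil₀ hδ1 hδ0 hij
  have hν := hpow V i j hij
  set s := nd14 v i j with hs
  set P := Finset.univ.filter (fun l => l ≠ i ∧ l ≠ j) with hP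
  have hβ := hslope i j hij
  have hβ0 := h.slope_ne hij
  rw [hβ] at hν
  -- the first sum
  have hS1 : ∑ l ∈ P, w l * V.ν ((lin14 v i).eval s - (lin14 v l).eval s) =
      ∑ l ∈ P, w l * (δ i j l + μ (some l) - μ none) := by
    refine Finset.sum_congr rfl fun l hl => ?_
    have hl' := hl
    rw [hP, Finset.mem_filter] at hl'
    have h1 := h.dd_ne hij hl'.2.1.symm hl'.2.2.symm
    rw [h.sub1 hij, V.neg (div_ne_zero h1 hβ0), V.div h1 hβ0, hβ, hδ]
    ring
  -- the second sum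
  have hS2 : ∑ l ∈ P, w l * ε i l * V.ν (s - nd14 v i l) =
      ∑ l ∈ P, w l * ε i l * (δ i j l - m₀ - μ (some i) - 2 * μ none) := by
    refine Finset.sum_congr rfl fun l hl => ?_
    have hl' := hl
    rw [hP, Finset.mem_filter] at hl'
    have h4 := h.dd_ne hij hl'.2.1.symm hl'.2.2.symm
    have h5 := h.slope_ne hl'.2.1.symm
    rw [hs, h.sub2 hij hl'.2.1.symm, V.neg (div_ne_zero h4 (mul_ne_zero hβ0 h5)),
      V.div h4 (mul_ne_zero hβ0 h5), V.mul _ _ hβ0 h5, hβ, hslope i l hl'.2.1.symm, hδ]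
    ring
  have hS3 : ∑ l ∈ P, w l * ε j l * V.ν (s - nd14 v j l) =
      ∑ l ∈ P, w l * ε j l * (δ i j l - m₀ - μ (some j) - 2 * μ none) := by
    refine Finset.sum_congr rfl fun l hl => ?_
    have hl' := hl
    rw [hP, Finset.mem_filter] at hl'
    have h4 := h.dd_ne hij hl'.2.1.symm hl'.2.2.symm
    have h5 := h.slope_ne hl'.2.2.symm
    rw [hs, h.sub3 hij hl'.2.2.symm, V.neg (div_ne_zero h4 (mul_ne_zero hβ0 h5)),
      V.div h4 (mul_ne_zero hβ0 h5), V.mul _ _ hβ0 h5, hβ, hslope j l hl'.2.2.symm, hδ]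
    ring
  -- the sums over `P`
  have hT1 : ∑ l ∈ P, w l * (δ i j l + μ (some l) - μ none) = ∑ l ∈ P, w l * δ i j l +
      (M - w i * μ (some i) - w j * μ (some j)) - (W - w i - w j) * μ none := by
    have h1 : ∀ l ∈ P, w l * (δ i j l + μ (some l) - μ none) =
        w l * δ i j l + w l * μ (some l) - w l * μ none := fun l _ => by ring
    rw [Finset.sum_congr rfl h1, Finset.sum_sub_distrib, Finset.sum_add_distrib,
      sum_off14 (fun l => w l * μ (some l)) hij, ← Finset.sum_mul, sum_off14 w hij]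
  have hT2 : ∑ l ∈ P, w l * ε i l * (δ i j l - m₀ - μ (some i) - 2 * μ none) =
      ∑ l ∈ P, w l * ε i l * δ i j l - (E i - w j * ε i j) * (m₀ + μ (some i) + 2 * μ none) := by
    have h1 : ∀ l ∈ P, w l * ε i l * (δ i j l - m₀ - μ (some i) - 2 * μ none) =
        w l * ε i l * δ i j l - w l * ε i l * (m₀ + μ (some i) + 2 * μ none) := fun l _ => by ring
    rw [Finset.sum_congr rfl h1, Finset.sum_sub_distrib, ← Finset.sum_mul,
      sum_off14 (fun l => w l * ε i l) hij]
  have hT3 : ∑ l ∈ P, w l * ε j l * (δ i j l - m₀ - μ (some j) - 2 * μ none) =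
      ∑ l ∈ P, w l * ε j l * δ i j l - (E j - w i * ε j i) * (m₀ + μ (some j) + 2 * μ none) := by
    have h1 : ∀ l ∈ P, w l * ε j l * (δ i j l - m₀ - μ (some j) - 2 * μ none) =
        w l * ε j l * δ i j l - w l * ε j l * (m₀ + μ (some j) + 2 * μ none) := fun l _ => by ring
    rw [Finset.sum_congr rfl h1, Finset.sum_sub_distrib, ← Finset.sum_mul,
      sum_off14 (fun l => w l * ε j l) hij]
    ring
  have hT4 : ∑ m ∈ P, w m * δ i j m * (ε i j + ε j m + ε m i) =
      ε i j * ∑ l ∈ P, w l * δ i j l + ∑ l ∈ P, w l * ε j l * δ i j l -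
        ∑ l ∈ P, w l * ε i l * δ i j l := by
    rw [Finset.mul_sum, ← Finset.sum_add_distrib, ← Finset.sum_sub_distrib]
    refine Finset.sum_congr rfl fun l hl => ?_
    rw [hP, Finset.mem_filter] at hl
    rw [hε i l hl.2.1.symm]
    ring
  rw [hT4] at hval
  rw [hS1, hS2, hS3, hT1, hT2, hT3] at hν
  have hj := hε i j hij
  have hfin : (V.ν κ - M + W * μ none) * ε i j +
      (V.ν (c i) - E i * (m₀ + μ (some i) + 2 * μ none)) -
      (V.ν (c j) - E j * (m₀ + μ (some j) + 2 * μ none)) =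
      r * ((ε i₀ j₀ + ε j₀ l₀ + ε l₀ i₀) * triw14 w i₀ j₀ l₀ i j) := by
    linear_combination hval + hν + w i * (m₀ + μ (some j) + 2 * μ none) * hj
  rw [div_mul_eq_mul_div, ← add_div, ← sub_div, div_eq_iff hr, hfin]
  ring

end Pool.Agent.Lib.MP_89bcae_ag
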