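import Mathlib
import Pool.Agent.Lib.MP_89bcae_ag.Bnd8
import Pool.Agent.Lib.MP_89bcae_ag.LDenB14

/-!
# Lines of the projective plane: brackets, counting, density one
-/

open Filter Topology

open scoped Classical

set_option linter.unusedVariables false
set_option linter.unusedSectionVars false
set_option linter.style.haveILetI false

namespace Pool.Agent.Lib.MP_89bcae_ag

section

variable {ι : Type} {R S : Type*} [CommRing R] [CommRing S]

/-- The minor of the first two coordinates. -/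
def mn14 (v : ι × Fin 3 → R) (x y : ι) : R := v (x, 0) * v (y, 1) - v (x, 1) * v (y, 0)

/-- The bracket: the determinant of three lines. -/
def pbr14 (v : ι × Fin 3 → R) (x y z : ι) : R :=
  v (x, 0) * (v (y, 1) * v (z, 2) - v (y, 2) * v (z, 1)) -
    v (x, 1) * (v (y, 0) * v (z, 2) - v (y, 2) * v (z, 0)) +
    v (x, 2) * (v (y, 0) * v (z, 1) - v (y, 1) * v (z, 0))

lemma pbr14_rotate (v : ι × Fin 3 → R) (x y z : ι) : pbr14 v x y z = pbr14 v y z x := by
  unfold pbr14
  ring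

lemma map_pbr14 (φ : R →+* S) (v : ι × Fin 3 → R) (x y z : ι) :
    φ (pbr14 v x y z) = pbr14 (fun i => φ (v i)) x y z := by
  unfold pbr14
  simp only [map_add, map_sub, map_mul]

lemma map_mn14 (φ : R →+* S) (v : ι × Fin 3 → R) (x y : ι) :
    φ (mn14 v x y) = mn14 (fun i => φ (v i)) x y := by
  unfold mn14
  simp only [map_sub, map_mul]

/-- The part of the bracket which does not depend on the last coordinate of the third line. -/
def rs14 (v : ι × Fin 3 → R) (x y z : ι) : R :=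
  v (x, 2) * mn14 v y z - v (y, 2) * mn14 v x z

lemma pbr14_eq (v : ι × Fin 3 → R) (x y z : ι) :
    pbr14 v x y z = mn14 v x y * v (z, 2) + rs14 v x y z := by
  unfold pbr14 rs14 mn14
  ring

lemma mn14_update [DecidableEq ι] (v : ι × Fin 3 → R) (x y z : ι) (c : R) :
    mn14 (Function.update v (z, 2) c) x y = mn14 v x y := by
  unfold mn14
  rw [Function.update_of_ne (by simp), Function.update_of_ne (by simp),
    Function.update_of_ne (by simp), Function.update_of_ne (by simp)]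

lemma rs14_update [DecidableEq ι] (v : ι × Fin 3 → R) {x y z z' : ι} (hx : z' ≠ x)
    (hy : z' ≠ y) (c : R) :
    rs14 (Function.update v (z', 2) c) x y z = rs14 v x y z := by
  unfold rs14
  rw [mn14_update, mn14_update, Function.update_of_ne (by simpa using hx.symm),
    Function.update_of_ne (by simpa using hy.symm)]

lemma pbr14_shift [DecidableEq ι] (v : ι × Fin 3 → R) {x y z : ι} (hx : z ≠ x) (hy : z ≠ y)
    (c : R) : pbr14 (Function.update v (z, 2) (v (z, 2) + c)) x y z =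
      pbr14 v x y z + c * mn14 v x y := by
  rw [pbr14_eq, pbr14_eq, mn14_update, rs14_update v hx hy, Function.update_self]
  ring

end

section count

variable {ι : Type} [Fintype ι] [DecidableEq ι] {F : Type} [Fintype F] [Field F]

/-- A minor vanishes, or some bracket outside of the triple `x, y, z` vanishes. -/
def BadP14 (x y z : ι) {R : Type} [CommRing R] (v : ι × Fin 3 → R) : Prop :=
  (∃ i j : ι, i ≠ j ∧ mn14 v i j = 0) ∨
  ∃ x' y' z' : ι, x' ≠ y' ∧ y' ≠ z' ∧ x' ≠ z' ∧ z' ≠ x ∧ z' ≠ y ∧ z' ≠ z ∧ pbr14 v x' y' z' = 0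

/-- The set where a minor vanishes. -/
lemma card_mn14 (i j : ι) (hij : i ≠ j) :
    ({v : ι × Fin 3 → F | mn14 v i j = 0}).ncard * Fintype.card F ≤
      2 * Fintype.card F ^ Fintype.card (ι × Fin 3) := by
  set Z1 : Set (ι × Fin 3 → F) := {v | v (i, 0) ≠ 0 ∧ mn14 v i j = 0} with hZ1
  set Z0 : Set (ι × Fin 3 → F) := {v | v (i, 0) = 0} with hZ0
  have t1 : Thin14 (j, 1) Z1 := by
    rintro v ⟨h1, h2⟩ c ⟨h3, h4⟩
    unfold mn14 at h2 h4
    have e0 : ((i, 0) : ι × Fin 3) ≠ (j, 1) := by simp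
    have e1 : ((i, 1) : ι × Fin 3) ≠ (j, 1) := by simpa using hij
    have e2 : ((j, 0) : ι × Fin 3) ≠ (j, 1) := by simp
    rw [Function.update_of_ne e0, Function.update_of_ne e1, Function.update_of_ne e2,
      Function.update_self] at h4
    have h5 : v (i, 0) * (c - v (j, 1)) = 0 := by linear_combination h4 - h2
    exact sub_eq_zero.mp ((mul_eq_zero.mp h5).resolve_left h1)
  have t0 : Thin14 (i, 0) Z0 := by
    intro v hv c hc
    rw [hZ0, Set.mem_ofPred_eq] at hv hc
    rw [Function.update_self] at hc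
    rw [hc, hv]
  have hcov : {v : ι × Fin 3 → F | mn14 v i j = 0} ⊆ Z1 ∪ Z0 := by
    intro v hv
    by_cases h : v (i, 0) = 0
    · exact Or.inr h
    · exact Or.inl ⟨h, hv⟩
  have h1 := Set.ncard_le_ncard hcov (Set.toFinite _)
  have h2 := Set.ncard_union_le Z1 Z0
  have c1 := t1.card
  have c0 := t0.card
  calc ({v : ι × Fin 3 → F | mn14 v i j = 0}).ncard * Fintype.card F
      ≤ (Z1.ncard + Z0.ncard) * Fintype.card F := Nat.mul_le_mul_right _ (h1.trans h2)
    _ = Z1.ncard * Fintype.card F + Z0.ncard * Fintype.card F := by ring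
    _ ≤ 2 * Fintype.card F ^ Fintype.card (ι × Fin 3) := by omega

/-- The number of the points over `F` where exactly one bracket vanishes. -/
theorem count_pbr14 (x y z : ι) (hxy : x ≠ y) (hyz : y ≠ z) (hxz : x ≠ z) :
    Fintype.card F ^ Fintype.card (ι × Fin 3) * Fintype.card F ≤
      ({v : ι × Fin 3 → F | pbr14 v x y z = 0 ∧ ¬ BadP14 x y z v}).ncard *
        Fintype.card F * Fintype.card F +
      (2 * Fintype.card ι ^ 2 + Fintype.card ι ^ 3) *
        Fintype.card F ^ Fintype.card (ι × Fin 3) := by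
  set κ₀ : ι × Fin 3 := (z, 2) with hκ₀
  set sol : (ι × Fin 3 → F) → F := fun v => -(rs14 v x y z) / mn14 v x y with hsol
  set s : (ι × Fin 3 → F) → (ι × Fin 3 → F) := fun v => Function.update v κ₀ (sol v) with hs
  set q := Fintype.card F with hq
  set N := Fintype.card (ι × Fin 3) with hN
  set S : Set (ι × Fin 3 → F) := {v | pbr14 v x y z = 0 ∧ ¬ BadP14 x y z v} with hS
  set B : Set (ι × Fin 3 → F) := {v | BadP14 x y z (s v)} with hB
  have hmn : ∀ v i j, mn14 (s v) i j = mn14 v i j := fun v i j => mn14_update v i j z _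
  -- the minors
  let Z2 : ι × ι → Finset (ι × Fin 3 → F) := fun t => Finset.univ.filter fun v =>
    t.1 ≠ t.2 ∧ mn14 v t.1 t.2 = 0
  have hZ2 : ∀ t, (Z2 t).card * q ≤ 2 * q ^ N := by
    rintro ⟨i, j⟩
    by_cases hij : i = j
    · have e : Z2 (i, j) = ∅ := by
        rw [Finset.filter_eq_empty_iff]
        intro v _ h
        exact h.1 hij
      rw [e]
      simp
    · have e : (Z2 (i, j)).card = ({v : ι × Fin 3 → F | mn14 v i j = 0}).ncard := by
        rw [← Set.ncard_coe_finset]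
        congr 1
        ext v
        simp only [Z2, Finset.coe_filter, Finset.mem_univ, true_and, Set.mem_ofPred_eq]
        exact ⟨fun h => h.2, fun h => ⟨hij, h⟩⟩
      rw [e]
      exact card_mn14 i j hij
  -- the brackets
  let Z3 : ι × ι × ι → Finset (ι × Fin 3 → F) := fun t => Finset.univ.filter fun v =>
    t.1 ≠ t.2.1 ∧ t.2.1 ≠ t.2.2 ∧ t.1 ≠ t.2.2 ∧ t.2.2 ≠ x ∧ t.2.2 ≠ y ∧ t.2.2 ≠ z ∧
      mn14 v t.1 t.2.1 ≠ 0 ∧ pbr14 (s v) t.1 t.2.1 t.2.2 = 0
  have hZ3 : ∀ t, (Z3 t).card * q ≤ q ^ N := by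
    rintro ⟨x', y', z'⟩
    by_cases hc : x' ≠ y' ∧ y' ≠ z' ∧ x' ≠ z' ∧ z' ≠ x ∧ z' ≠ y ∧ z' ≠ z
    · obtain ⟨h1, h2, h3, h4, h5, h6⟩ := hc
      have e : (Z3 (x', y', z')).card = ({v : ι × Fin 3 → F | mn14 v x' y' ≠ 0 ∧
          pbr14 (s v) x' y' z' = 0}).ncard := by
        rw [← Set.ncard_coe_finset]
        congr 1
        ext v
        simp only [Z3, Finset.coe_filter, Finset.mem_univ, true_and, Set.mem_ofPred_eq]
        exact ⟨fun h => h.2.2.2.2.2.2, fun h => ⟨h1, h2, h3, h4, h5, h6, h⟩⟩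
      rw [e]
      have hsol' : ∀ v c, sol (Function.update v (z', 2) c) = sol v := by
        intro v c
        rw [hsol]
        beta_reduce
        rw [mn14_update, rs14_update v h4 h5]
      have hne : ((z', 2) : ι × Fin 3) ≠ κ₀ := by
        rw [hκ₀]
        simpa using h6
      have hs' : ∀ v c, s (Function.update v (z', 2) c) = Function.update (s v) (z', 2) c := by
        intro v c
        rw [hs]
        beta_reduce
        rw [hsol', Function.update_comm hne]
      have hval : ∀ v, s v (z', 2) = v (z', 2) := fun v => Function.update_of_ne hne _ _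
      have t : Thin14 (z', 2) {v : ι × Fin 3 → F | mn14 v x' y' ≠ 0 ∧
          pbr14 (s v) x' y' z' = 0} := by
        rintro v ⟨a1, a2⟩ c ⟨a3, a4⟩
        rw [hs', pbr14_eq, mn14_update, rs14_update _ h3.symm h2.symm, Function.update_self,
          hmn] at a4
        rw [pbr14_eq, hmn, hval] at a2
        have h7 : mn14 v x' y' * (c - v (z', 2)) = 0 := by linear_combination a4 - a2
        exact sub_eq_zero.mp ((mul_eq_zero.mp h7).resolve_left a1)
      exact t.card
    · have e : Z3 (x', y', z') = ∅ := by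
        rw [Finset.filter_eq_empty_iff]
        intro v _ h
        exact hc ⟨h.1, h.2.1, h.2.2.1, h.2.2.2.1, h.2.2.2.2.1, h.2.2.2.2.2.1⟩
      rw [e]
      simp
  have hBcard : B.ncard * q ≤ (2 * Fintype.card ι ^ 2 + Fintype.card ι ^ 3) * q ^ N := by
    have h1 : B.ncard ≤ ∑ t : ι × ι, (Z2 t).card + ∑ t : ι × ι × ι, (Z3 t).card := by
      have h2 : B ⊆ ((Finset.univ.biUnion Z2 ∪ Finset.univ.biUnion Z3 :
          Finset (ι × Fin 3 → F)) : Set (ι × Fin 3 → F)) := by
        rintro v hv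
        rw [Finset.mem_coe, Finset.mem_union, Finset.mem_biUnion, Finset.mem_biUnion]
        by_cases h0 : ∃ i j : ι, i ≠ j ∧ mn14 v i j = 0
        · obtain ⟨i, j, hij, h0⟩ := h0
          exact Or.inl ⟨(i, j), Finset.mem_univ _, by
            simp only [Z2, Finset.mem_filter, Finset.mem_univ, true_and]
            exact ⟨hij, h0⟩⟩
        · rcases hv with ⟨i, j, hij, h1⟩ | ⟨x', y', z', h1, h2, h3, h4, h5, h6, h7⟩
          · rw [hmn] at h1
            exact absurd ⟨i, j, hij, h1⟩ h0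
          · exact Or.inr ⟨(x', y', z'), Finset.mem_univ _, by
              simp only [Z3, Finset.mem_filter, Finset.mem_univ, true_and]
              exact ⟨h1, h2, h3, h4, h5, h6, fun h => h0 ⟨x', y', h1, h⟩, h7⟩⟩
      have h3 := Set.ncard_le_ncard h2 (Set.toFinite _)
      rw [Set.ncard_coe_finset] at h3
      exact h3.trans ((Finset.card_union_le _ _).trans
        (Nat.add_le_add Finset.card_biUnion_le Finset.card_biUnion_le))
    calc B.ncard * q ≤ (∑ t : ι × ι, (Z2 t).card + ∑ t : ι × ι × ι, (Z3 t).card) * q :=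
          Nat.mul_le_mul_right _ h1
      _ = ∑ t : ι × ι, (Z2 t).card * q + ∑ t : ι × ι × ι, (Z3 t).card * q := by
          rw [add_mul, Finset.sum_mul, Finset.sum_mul]
      _ ≤ ∑ _t : ι × ι, 2 * q ^ N + ∑ _t : ι × ι × ι, q ^ N :=
          Nat.add_le_add (Finset.sum_le_sum fun t _ => hZ2 t) (Finset.sum_le_sum fun t _ => hZ3 t)
      _ = (2 * Fintype.card ι ^ 2 + Fintype.card ι ^ 3) * q ^ N := by
        rw [Finset.sum_const, Finset.sum_const, Finset.card_univ, Finset.card_univ,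
          Fintype.card_prod, Fintype.card_prod, Fintype.card_prod, smul_eq_mul, smul_eq_mul]
        ring
  -- the good set
  have hgood : (Bᶜ).ncard ≤ S.ncard * q := by
    have h1 : (S ×ˢ (Set.univ : Set F)).ncard = S.ncard * q := by
      rw [Set.ncard_prod, Set.ncard_univ, Nat.card_eq_fintype_card]
    rw [← h1]
    refine Set.ncard_le_ncard_of_injOn (fun v => (s v, v κ₀)) ?_ ?_ (Set.toFinite _)
    · intro v hv
      refine ⟨⟨?_, hv⟩, Set.mem_univ _⟩
      have h2 : mn14 v x y ≠ 0 := by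
        intro h
        apply hv
        exact Or.inl ⟨x, y, hxy, by rw [hmn]; exact h⟩
      change pbr14 (s v) x y z = 0
      rw [pbr14_eq, hmn]
      have e1 : rs14 (s v) x y z = rs14 v x y z := rs14_update v hxz.symm hyz.symm _
      have e2 : s v (z, 2) = sol v := Function.update_self _ _ _
      rw [e1, e2, hsol]
      beta_reduce
      rw [mul_div_cancel₀ _ h2]
      ring
    · intro v _ w _ hvw
      simp only [Prod.mk.injEq] at hvw
      funext i
      by_cases hi : i = κ₀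
      · rw [hi]
        exact hvw.2
      · have h2 := congrFun hvw.1 i
        simp only [hs] at h2
        rwa [Function.update_of_ne hi, Function.update_of_ne hi] at h2
  have htot : B.ncard + (Bᶜ).ncard = q ^ N := by
    rw [Set.ncard_add_ncard_compl, Nat.card_eq_fintype_card, Fintype.card_fun]
  calc q ^ N * q = B.ncard * q + (Bᶜ).ncard * q := by rw [← htot]; ring
    _ ≤ (2 * Fintype.card ι ^ 2 + Fintype.card ι ^ 3) * q ^ N + (S.ncard * q) * q :=
      Nat.add_le_add hBcard (Nat.mul_le_mul_right _ hgood)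
    _ = S.ncard * q * q + (2 * Fintype.card ι ^ 2 + Fintype.card ι ^ 3) * q ^ N := by ring

end count

section density

variable {ι : Type} [Fintype ι]

/-- Modulo `p ^ 2`: exactly one bracket is divisible by `p`, and it is not divisible by `p ^ 2`. -/
def TypeP14 (p : ℕ) (x y z : ι) (w : ι × Fin 3 → ZMod (p ^ 2)) : Prop :=
  pbr14 (fun i => ZMod.castHom (dvd_pow_self p two_ne_zero) (ZMod p) (w i)) x y z = 0 ∧
    ¬ BadP14 x y z (fun i => ZMod.castHom (dvd_pow_self p two_ne_zero) (ZMod p) (w i)) ∧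
    pbr14 w x y z ≠ 0

/-- The count modulo `p ^ 2`. -/
theorem count_typeP14 (x y z : ι) (hxy : x ≠ y) (hyz : y ≠ z) (hxz : x ≠ z) :
    ∃ P₀ : ℕ, ∀ p : ℕ, p.Prime → P₀ ≤ p →
      (1 / 4 : ℝ) / p * ((p ^ 2 : ℕ) : ℝ) ^ Fintype.card (ι × Fin 3) ≤
        ({w : ι × Fin 3 → ZMod (p ^ 2) | TypeP14 p x y z w}).ncard := by
  refine ⟨2 * (2 * Fintype.card ι ^ 2 + Fintype.card ι ^ 3), fun p hp hP => ?_⟩
  haveI : Fact p.Prime := ⟨hp⟩
  haveI : NeZero (p ^ 2) := ⟨pow_ne_zero 2 hp.ne_zero⟩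
  set N := Fintype.card (ι × Fin 3) with hN
  set S : Set (ι × Fin 3 → ZMod p) := {v | pbr14 v x y z = 0 ∧ ¬ BadP14 x y z v} with hS
  have h1 := count_pbr14 (F := ZMod p) x y z hxy hyz hxz
  rw [ZMod.card] at h1
  change p ^ N * p ≤ S.ncard * p * p + (2 * Fintype.card ι ^ 2 + Fintype.card ι ^ 3) * p ^ N at h1
  set X : Set (ι × Fin 3 → ZMod (p ^ 2)) := {w |
    (fun i => ZMod.castHom (dvd_pow_self p two_ne_zero) (ZMod p) (w i)) ∈ S} with hX
  have h2 : S.ncard * p ^ N ≤ X.ncard := card_lift14 hp S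
  set G : Set (ι × Fin 3 → ZMod (p ^ 2)) := {w | TypeP14 p x y z w} with hG
  -- half of the lifts are good
  have h3 : X.ncard ≤ 2 * G.ncard := by
    have hpz : ZMod.castHom (dvd_pow_self p two_ne_zero) (ZMod p) (p : ZMod (p ^ 2)) = 0 := by
      rw [map_natCast, ZMod.natCast_self]
    have h4 : (X \ G).ncard ≤ G.ncard := by
      refine Set.ncard_le_ncard_of_injOn
        (fun w => Function.update w (z, 2) (w (z, 2) + (p : ZMod (p ^ 2)))) ?_ ?_ (Set.toFinite _)
      · rintro w ⟨hwX, hwG⟩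
        have e1 : (fun i => ZMod.castHom (dvd_pow_self p two_ne_zero) (ZMod p)
            (Function.update w (z, 2) (w (z, 2) + (p : ZMod (p ^ 2))) i)) =
            fun i => ZMod.castHom (dvd_pow_self p two_ne_zero) (ZMod p) (w i) := by
          funext i
          by_cases hi : i = (z, 2)
          · subst hi
            rw [Function.update_self, map_add, hpz, add_zero]
          · rw [Function.update_of_ne hi]
        have e2 : pbr14 w x y z = 0 := by
          by_contra h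
          exact hwG ⟨hwX.1, hwX.2, h⟩
        refine ⟨by rw [e1]; exact hwX.1, by rw [e1]; exact hwX.2, ?_⟩
        rw [pbr14_shift w hxz.symm hyz.symm, e2, zero_add]
        intro h5
        -- `p` times a unit is not zero
        set c : ZMod (p ^ 2) := mn14 w x y with hc
        have hc1 : ZMod.castHom (dvd_pow_self p two_ne_zero) (ZMod p) c ≠ 0 := by
          rw [hc]
          intro h6
          rw [map_mn14] at h6
          exact hwX.2 (Or.inl ⟨x, y, hxy, h6⟩)
        have h7 : (p : ZMod (p ^ 2)) * c = ((p * c.val : ℕ) : ZMod (p ^ 2)) := by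
          push_cast
          rw [ZMod.natCast_val, ZMod.cast_id]
        rw [h7, ZMod.natCast_eq_zero_iff] at h5
        have h5' : p ∣ c.val := by
          generalize c.val = n at h5
          rw [pow_two] at h5
          exact (Nat.mul_dvd_mul_iff_left hp.pos).mp h5
        apply hc1
        have h8 : ZMod.castHom (dvd_pow_self p two_ne_zero) (ZMod p) c =
            ((c.val : ℕ) : ZMod p) := by
          rw [ZMod.castHom_apply, ZMod.cast_eq_val]
        rw [h8, ZMod.natCast_eq_zero_iff]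
        exact h5'
      · intro w _ w' _ h
        funext i
        have h5 := congrFun h i
        simp only at h5
        by_cases hi : i = (z, 2)
        · subst hi
          rwa [Function.update_self, Function.update_self, add_left_inj] at h5
        · rwa [Function.update_of_ne hi, Function.update_of_ne hi] at h5
    have h5 : X.ncard ≤ (X \ G).ncard + G.ncard := by
      have h6 : X ⊆ (X \ G) ∪ G := fun w hw => by
        by_cases h : w ∈ G
        · exact Or.inr h
        · exact Or.inl ⟨hw, h⟩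
      exact (Set.ncard_le_ncard h6 (Set.toFinite _)).trans (Set.ncard_union_le _ _)
    omega
  -- arithmetic
  set K : ℕ := 2 * Fintype.card ι ^ 2 + Fintype.card ι ^ 3 with hK
  have hppos : (0 : ℝ) < p := by exact_mod_cast hp.pos
  have hP' : 2 * (K : ℝ) ≤ p := by exact_mod_cast hP
  have h1' : (p : ℝ) ^ N * p ≤ S.ncard * p * p + (K : ℝ) * p ^ N := by
    exact_mod_cast h1
  have h2' : (S.ncard : ℝ) * (p : ℝ) ^ N ≤ X.ncard := by exact_mod_cast h2
  have h3' : (X.ncard : ℝ) ≤ 2 * G.ncard := by exact_mod_cast h3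
  have hpN : (0 : ℝ) < (p : ℝ) ^ N := by positivity
  have h6 : (K : ℝ) * (p : ℝ) ^ N ≤ (p : ℝ) / 2 * (p : ℝ) ^ N :=
    mul_le_mul_of_nonneg_right (by linarith) hpN.le
  have h7 : (p : ℝ) ^ N ≤ 2 * (S.ncard * p) := by
    have h8 : (p : ℝ) ^ N * p ≤ (2 * (S.ncard * p)) * p := by nlinarith
    exact le_of_mul_le_mul_right h8 hppos
  push_cast
  have h9 : ((p : ℝ) ^ 2) ^ N = (p : ℝ) ^ N * (p : ℝ) ^ N := by
    rw [← pow_mul, two_mul, pow_add]
  rw [h9]
  have h10 : (1 / 4 : ℝ) / p * ((p : ℝ) ^ N * (p : ℝ) ^ N) ≤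
      (1 / 4 : ℝ) / p * ((2 * (S.ncard * p)) * (p : ℝ) ^ N) := by
    apply mul_le_mul_of_nonneg_left _ (by positivity)
    exact mul_le_mul_of_nonneg_right h7 hpN.le
  have h11 : (1 / 4 : ℝ) / p * ((2 * (S.ncard * p)) * (p : ℝ) ^ N) =
      1 / 2 * (S.ncard * (p : ℝ) ^ N) := by
    field_simp
    ring
  linarith

/-- The prime `p` divides the bracket of `x, y, z`, but not its square, and no other bracket. -/
def OnlyPbr14 (p : ℕ) (x y z : ι) (v : ι × Fin 3 → ℤ) : Prop :=
  (p : ℤ) ∣ pbr14 v x y z ∧ ¬ (p : ℤ) ^ 2 ∣ pbr14 v x y z ∧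
    ∀ x' y' z' : ι, x' ≠ y' → y' ≠ z' → x' ≠ z' →
      ¬ (x' ∈ ({x, y, z} : Set ι) ∧ y' ∈ ({x, y, z} : Set ι) ∧
        z' ∈ ({x, y, z} : Set ι)) → ¬ (p : ℤ) ∣ pbr14 v x' y' z'

lemma OnlyPbr14.of_type {p : ℕ} (hp : p.Prime) {x y z : ι} {v : ι × Fin 3 → ℤ}
    (h : TypeP14 p x y z (fun i => (v i : ZMod (p ^ 2)))) : OnlyPbr14 p x y z v := by
  obtain ⟨h1, h2, h3⟩ := h
  have e1 : (fun i => ZMod.castHom (dvd_pow_self p two_ne_zero) (ZMod p)
      ((fun i => (v i : ZMod (p ^ 2))) i)) = fun i => (Int.castRingHom (ZMod p)) (v i) := by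
    funext i
    simp
  rw [e1] at h1 h2
  have hdvd : ∀ a b c : ι,
      pbr14 (fun i => (Int.castRingHom (ZMod p)) (v i)) a b c = 0 ↔ (p : ℤ) ∣ pbr14 v a b c := by
    intro a b c
    rw [← map_pbr14, eq_intCast, ZMod.intCast_zmod_eq_zero_iff_dvd]
  refine ⟨(hdvd _ _ _).mp h1, ?_, ?_⟩
  · intro h4
    apply h3
    have e2 : (fun i => (v i : ZMod (p ^ 2))) = fun i => (Int.castRingHom (ZMod (p ^ 2))) (v i) := rfl
    rw [e2, ← map_pbr14, eq_intCast, ZMod.intCast_zmod_eq_zero_iff_dvd]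
    exact_mod_cast h4
  · intro x' y' z' a b c d h4
    apply h2
    right
    have key : ∀ x' y' z' : ι, x' ≠ y' → y' ≠ z' → x' ≠ z' →
        z' ∉ ({x, y, z} : Set ι) → (p : ℤ) ∣ pbr14 v x' y' z' →
        ∃ x' y' z' : ι, x' ≠ y' ∧ y' ≠ z' ∧ x' ≠ z' ∧ z' ≠ x ∧ z' ≠ y ∧ z' ≠ z ∧
          pbr14 (fun i => (Int.castRingHom (ZMod p)) (v i)) x' y' z' = 0 := by
      intro x' y' z' a b c d h
      simp only [Set.mem_insert_iff, Set.mem_singleton_iff, not_or] at d
      exact ⟨x', y', z', a, b, c, d.1, d.2.1, d.2.2, (hdvd _ _ _).mpr h⟩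
    by_cases hz : z' ∈ ({x, y, z} : Set ι)
    · by_cases hy : y' ∈ ({x, y, z} : Set ι)
      · have hx : x' ∉ ({x, y, z} : Set ι) := fun hx => d ⟨hx, hy, hz⟩
        refine key y' z' x' b c.symm a.symm hx ?_
        rw [← pbr14_rotate]
        exact h4
      · refine key z' x' y' c.symm a b.symm hy ?_
        rw [← pbr14_rotate, ← pbr14_rotate]
        exact h4
    · exact key x' y' z' a b c hz h4

/-- For almost all `v` there is a suitable prime for the bracket of `x, y, z`. -/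
lemma density_pbr14 (q : ℕ) [NeZero q] (P₁ : ℕ) (x y z : ι) (hxy : x ≠ y) (hyz : y ≠ z)
    (hxz : x ≠ z) (e : (ι × Fin 3) ≃ Fin (Fintype.card (ι × Fin 3))) :
    Tendsto (fun H : ℕ => ({a : Fin (Fintype.card (ι × Fin 3)) → ℤ | (∀ i, |a i| ≤ H) ∧
      ¬ (∃ p : ℕ, p.Prime ∧ P₁ ≤ p ∧ (p : ZMod q) = 1 ∧ OnlyPbr14 p x y z (a ∘ e))}.ncard : ℝ) /
      (2 * H + 1) ^ Fintype.card (ι × Fin 3)) atTop (𝓝 0) := by
  obtain ⟨P₀, hP₀⟩ := count_typeP14 x y z hxy hyz hxz
  refine density_crtB7 (Fintype.card (ι × Fin 3)) (fun p => p ^ 2)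
    (fun p => {w | TypeP14 p x y z (w ∘ e)}) (fun p => (1 / 4 : ℝ) / p)
    {p : ℕ | p.Prime ∧ max P₀ P₁ ≤ p ∧ (p : ZMod q) = 1} (fun p hp => pow_pos hp.1.pos 2)
    (fun p hp q hq hpq => Nat.Coprime.pow 2 2 ((Nat.coprime_primes hp.1 hq.1).mpr hpq))
    (fun T => sum_residue_unbounded14 (q := q) (a := 1) isUnit_one (by norm_num) (max P₀ P₁) T)
    (fun p hp => ?_) _ (fun a p hp h => ?_)
  · haveI : NeZero (p ^ 2) := ⟨pow_ne_zero 2 hp.1.ne_zero⟩
    refine (hP₀ p hp.1 ((le_max_left _ _).trans hp.2.1)).trans ?_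
    rw [Nat.cast_le]
    refine Set.ncard_le_ncard_of_injOn (fun w => w ∘ e.symm) ?_ ?_ (Set.toFinite _)
    · intro w hw
      rw [Set.mem_ofPred_eq] at hw ⊢
      have e1 : (w ∘ e.symm) ∘ e = w := by
        funext i
        simp
      rw [e1]
      exact hw
    · intro w _ w' _ h
      funext i
      have := congrFun h (e i)
      simpa using this
  · exact ⟨p, hp.1, (le_max_right _ _).trans hp.2.1, hp.2.2, OnlyPbr14.of_type hp.1 h⟩

/-- **Density one**: for almost all families of lines of the projective plane, for every triple of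
lines there is a prime congruent to `1` modulo `q` which divides exactly once its bracket, and no
other bracket. -/
theorem prjDensity14 (q : ℕ) [NeZero q] (P₁ : ℕ) :
    Tendsto (fun H : ℕ => ({v : ι × Fin 3 → ℤ | (∀ i, |v i| ≤ H) ∧
      ∀ x y z : ι, x ≠ y → y ≠ z → x ≠ z →
        ∃ p : ℕ, p.Prime ∧ P₁ ≤ p ∧ (p : ZMod q) = 1 ∧ OnlyPbr14 p x y z v}.ncard : ℝ) /
      (2 * H + 1) ^ Fintype.card (ι × Fin 3)) atTop (𝓝 1) := by
  set N := Fintype.card (ι × Fin 3) with hN
  set e : (ι × Fin 3) ≃ Fin N := Fintype.equivFin (ι × Fin 3) with he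
  let Good : (Fin N → ℤ) → Prop := fun a => ∀ x y z : ι, x ≠ y → y ≠ z → x ≠ z →
    ∃ p : ℕ, p.Prime ∧ P₁ ≤ p ∧ (p : ZMod q) = 1 ∧ OnlyPbr14 p x y z (a ∘ e)
  have hre : ∀ H : ℕ, ({v : ι × Fin 3 → ℤ | (∀ i, |v i| ≤ H) ∧
      ∀ x y z : ι, x ≠ y → y ≠ z → x ≠ z →
        ∃ p : ℕ, p.Prime ∧ P₁ ≤ p ∧ (p : ZMod q) = 1 ∧ OnlyPbr14 p x y z v}).ncard =
      ({a : Fin N → ℤ | (∀ i, |a i| ≤ H) ∧ Good a}).ncard := by
    intro H
    refine Set.ncard_congr (fun v _ => v ∘ e.symm) ?_ ?_ ?_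
    · rintro v ⟨h1, h2⟩
      refine ⟨fun i => h1 _, ?_⟩
      have e1 : (v ∘ e.symm) ∘ e = v := by
        funext i
        simp
      change ∀ x y z : ι, _
      rw [e1]
      exact h2
    · intro v w _ _ h
      funext i
      have := congrFun h (e i)
      simpa using this
    · rintro a ⟨h1, h2⟩
      refine ⟨a ∘ e, ⟨fun i => h1 _, h2⟩, ?_⟩
      funext i
      simp
  simp only [hre]
  apply density_one8
  let Tr := {t : ι × ι × ι // t.1 ≠ t.2.1 ∧ t.2.1 ≠ t.2.2 ∧ t.1 ≠ t.2.2}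
  have h1 : Tendsto (fun H : ℕ => ∑ t : Tr, (({a : Fin N → ℤ | (∀ i, |a i| ≤ H) ∧
      ¬ (∃ p : ℕ, p.Prime ∧ P₁ ≤ p ∧ (p : ZMod q) = 1 ∧
        OnlyPbr14 p t.1.1 t.1.2.1 t.1.2.2 (a ∘ e))}.ncard : ℝ) /
      (2 * H + 1) ^ N)) atTop (𝓝 (∑ _t : Tr, 0)) :=
    tendsto_finsetSum _ fun t _ => density_pbr14 q P₁ _ _ _ t.2.1 t.2.2.1 t.2.2.2 e
  rw [Finset.sum_const_zero] at h1
  refine squeeze_zero (fun H => by positivity) (fun H => ?_) h1
  rw [← Finset.sum_div]
  apply div_le_div_of_nonneg_right _ (by positivity)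
  have hfin : ∀ Q : (Fin N → ℤ) → Prop,
      ({a : Fin N → ℤ | (∀ i, |a i| ≤ H) ∧ Q a}).Finite := by
    intro Q
    apply Set.Finite.subset (Finset.finite_toSet
      (Fintype.piFinset fun _ : Fin N => Finset.Icc (-(H : ℤ)) H))
    rintro a ⟨h2, -⟩
    rw [Finset.mem_coe, Fintype.mem_piFinset]
    intro i
    rw [Finset.mem_Icc]
    exact abs_le.mp (h2 i)
  let E : Tr → Finset (Fin N → ℤ) := fun t => (hfin fun a =>
    ¬ (∃ p : ℕ, p.Prime ∧ P₁ ≤ p ∧ (p : ZMod q) = 1 ∧
        OnlyPbr14 p t.1.1 t.1.2.1 t.1.2.2 (a ∘ e))).toFinset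
  have hE : ∀ t, ((E t).card : ℝ) = (({a : Fin N → ℤ | (∀ i, |a i| ≤ H) ∧
      ¬ (∃ p : ℕ, p.Prime ∧ P₁ ≤ p ∧ (p : ZMod q) = 1 ∧
        OnlyPbr14 p t.1.1 t.1.2.1 t.1.2.2 (a ∘ e))}).ncard : ℝ) := by
    intro t
    rw [Set.ncard_eq_toFinset_card _ (hfin _)]
  simp only [← hE]
  have hsub : {a : Fin N → ℤ | (∀ i, |a i| ≤ H) ∧ ¬ Good a} ⊆
      ((Finset.univ.biUnion E : Finset (Fin N → ℤ)) : Set (Fin N → ℤ)) := by
    rintro a ⟨h2, h3⟩
    simp only [Good, not_forall] at h3
    obtain ⟨x, y, z, hxy, hyz, hxz, h4⟩ := h3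
    rw [Finset.mem_coe, Finset.mem_biUnion]
    refine ⟨⟨(x, y, z), hxy, hyz, hxz⟩, Finset.mem_univ _, ?_⟩
    rw [Set.Finite.mem_toFinset]
    exact ⟨h2, h4⟩
  have h2 := Set.ncard_le_ncard hsub (Finset.finite_toSet _)
  rw [Set.ncard_coe_finset] at h2
  have h3 := h2.trans Finset.card_biUnion_le
  exact_mod_cast h3

end density

end Pool.Agent.Lib.MP_89bcae_ag
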