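import Mathlib
import Pool.Agent.Lib.MP_89bcae_ag.DefsArrP14
import Pool.Agent.Lib.MP_89bcae_ag.LIndX14
import Pool.Agent.Lib.MP_89bcae_ag.LPrjA14

/-!
# Lines of the projective plane: the arithmetic condition in all the charts
-/

open Polynomial

open scoped Classical

set_option linter.unusedSectionVars false
set_option linter.unusedSimpArgs false
set_option linter.style.haveILetI false

namespace Pool.Agent.Lib.MP_89bcae_ag

open Superelliptic

section chart

variable {K : Type} [Field K] {J : Type}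

/-- The determinant of three rows. -/
def dt14 {R : Type} [CommRing R] (a b c : Fin 3 → R) : R :=
  a 0 * (b 1 * c 2 - b 2 * c 1) - a 1 * (b 0 * c 2 - b 2 * c 0) + a 2 * (b 0 * c 1 - b 1 * c 0)

lemma dt14_mul {R : Type} [CommRing R] (a b c : Fin 3 → R) (g : Matrix (Fin 3) (Fin 3) R) :
    dt14 (fun j => ∑ l, a l * g l j) (fun j => ∑ l, b l * g l j) (fun j => ∑ l, c l * g l j) =
      g.det * dt14 a b c := by
  unfold dt14
  rw [Matrix.det_fin_three]
  simp only [Fin.sum_univ_three]
  ring

/-- The affine coefficients of the lines, from their coefficients in the chart. -/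
noncomputable def aff14 (cr : Option J → Fin 3 → K) : J ⊕ J → K
  | Sum.inl i => -(cr (some i) 2 / cr (some i) 0)
  | Sum.inr i => -(cr (some i) 1 / cr (some i) 0)

/-- The scaling factors. -/
def scl14 (cr : Option J → Fin 3 → K) : Option J → K
  | none => -cr none 2
  | some i => cr (some i) 0

lemma brk_chart14 (cr : Option J → Fin 3 → K) (h0 : cr none 0 = 0) (h1 : cr none 1 = 0)
    (hs : ∀ x, scl14 cr x ≠ 0) (x y z : Option J) :
    brk14 (aff14 cr) x y z * (scl14 cr x * scl14 cr y * scl14 cr z) =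
      -dt14 (cr x) (cr y) (cr z) := by
  have hc : ∀ x : Option J, pc14 K x * scl14 cr x = cr x 0 := by
    rintro (_ | i)
    · rw [h0]
      exact zero_mul _
    · exact one_mul _
  have ha : ∀ x : Option J, pa14 (aff14 cr) x * scl14 cr x = -cr x 2 := by
    rintro (_ | i)
    · exact one_mul _
    · have h2 := hs (some i)
      change cr (some i) 0 ≠ 0 at h2
      change -(cr (some i) 2 / cr (some i) 0) * cr (some i) 0 = -cr (some i) 2
      rw [neg_mul, div_mul_cancel₀ _ h2]
  have hb : ∀ x : Option J, pb14 (aff14 cr) x * scl14 cr x = -cr x 1 := by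
    rintro (_ | i)
    · rw [h1, neg_zero]
      exact zero_mul _
    · have h2 := hs (some i)
      change cr (some i) 0 ≠ 0 at h2
      change -(cr (some i) 1 / cr (some i) 0) * cr (some i) 0 = -cr (some i) 1
      rw [neg_mul, div_mul_cancel₀ _ h2]
  have e : brk14 (aff14 cr) x y z * (scl14 cr x * scl14 cr y * scl14 cr z) =
      (pc14 K x * scl14 cr x) * ((pa14 (aff14 cr) y * scl14 cr y) * (pb14 (aff14 cr) z *
        scl14 cr z) - (pb14 (aff14 cr) y * scl14 cr y) * (pa14 (aff14 cr) z * scl14 cr z)) -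
      (pa14 (aff14 cr) x * scl14 cr x) * ((pc14 K y * scl14 cr y) * (pb14 (aff14 cr) z *
        scl14 cr z) - (pb14 (aff14 cr) y * scl14 cr y) * (pc14 K z * scl14 cr z)) +
      (pb14 (aff14 cr) x * scl14 cr x) * ((pc14 K y * scl14 cr y) * (pa14 (aff14 cr) z *
        scl14 cr z) - (pa14 (aff14 cr) y * scl14 cr y) * (pc14 K z * scl14 cr z)) := by
    unfold brk14
    ring
  rw [e, hc, hc, hc, ha, ha, ha, hb, hb, hb]
  unfold dt14
  ring

/-- The hypothesis on the homomorphism in the chart. -/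
lemma hv_chart14 {ℓ : ℕ} (V : Val14 K ℓ) (cr : Option J → Fin 3 → K) (h0 : cr none 0 = 0)
    (h1 : cr none 1 = 0) (hs : ∀ x, scl14 cr x ≠ 0) (D : K) (hD : D ≠ 0)
    (B : Option J → Option J → Option J → K)
    (hB : ∀ x y z, dt14 (cr x) (cr y) (cr z) = D * B x y z) {i j l : J} {r : ZMod ℓ} (hr : r ≠ 0)
    (hB1 : B (some i) (some j) (some l) ≠ 0) (hV1 : V.ν (B (some i) (some j) (some l)) = r)
    (hV0 : ∀ x y z : Option J, x ≠ y → y ≠ z → x ≠ z →
      ¬ (x ∈ ({some i, some j, some l} : Set (Option J)) ∧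
        y ∈ ({some i, some j, some l} : Set (Option J)) ∧
        z ∈ ({some i, some j, some l} : Set (Option J))) →
      B x y z ≠ 0 ∧ V.ν (B x y z) = 0) :
    HV14 (aff14 cr) V i j l := by
  have key : ∀ x y z : Option J, B x y z ≠ 0 →
      V.ν (brk14 (aff14 cr) x y z) = V.ν D + (-V.ν (scl14 cr x)) + (-V.ν (scl14 cr y)) +
        (-V.ν (scl14 cr z)) + V.ν (B x y z) := by
    intro x y z hne
    have h2 := brk_chart14 cr h0 h1 hs x y z
    rw [hB] at h2
    have hS : scl14 cr x * scl14 cr y * scl14 cr z ≠ 0 :=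
      mul_ne_zero (mul_ne_zero (hs x) (hs y)) (hs z)
    have hDB : D * B x y z ≠ 0 := mul_ne_zero hD hne
    have hb : brk14 (aff14 cr) x y z ≠ 0 := by
      intro h3
      rw [h3, zero_mul] at h2
      exact neg_ne_zero.2 hDB h2.symm
    have h3 := congrArg V.ν h2
    rw [V.mul _ _ hb hS, V.neg hDB, V.mul _ _ hD hne,
      V.mul _ _ (mul_ne_zero (hs x) (hs y)) (hs z), V.mul _ _ (hs x) (hs y)] at h3
    linear_combination h3
  refine ⟨V.ν D, fun x => -V.ν (scl14 cr x), r, hr, ?_, ?_⟩
  · rw [key _ _ _ hB1, hV1]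
  · intro x y z hxy hyz hxz hno
    obtain ⟨h2, h3⟩ := hV0 x y z hxy hyz hxz hno
    rw [key _ _ _ h2, h3, add_zero]

end chart

section gen

variable {K : Type} [Field K] {J : Type} [Fintype J] [LinearOrder J]

/-- An arrangement of lines is generic. -/
lemma gen_of_isArrangement14 {v : J ⊕ J → K} (h : IsArrangement (lin14 v)) : Gen14 v := by
  have hslope : ∀ i j, i ≠ j → v (Sum.inr i) ≠ v (Sum.inr j) := by
    intro i j hij he
    apply h.natDegree_ne_zero i j hij
    rw [lin14_sub, he, sub_self, C_0, zero_mul, add_zero, natDegree_C]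
  refine ⟨hslope, ?_⟩
  -- two different factors are coprime
  have hprod : (∏ q ∈ (Finset.univ : Finset (J × J)).filter (fun q => q.1 < q.2),
      (lin14 v q.1 - lin14 v q.2)).Separable := by
    have h1 : (∏ i, ∏ j ∈ Finset.univ.filter (fun j => i < j), (lin14 v i - lin14 v j)) =
        ∏ q ∈ (Finset.univ : Finset (J × J)).filter (fun q => q.1 < q.2),
        (lin14 v q.1 - lin14 v q.2) := by
      rw [← Finset.univ_product_univ, Finset.prod_filter, Finset.prod_product]
      refine Finset.prod_congr rfl fun i _ => ?_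
      rw [Finset.prod_filter]
    rw [← h1]
    exact h.separable
  have hcop : ∀ q q' : J × J, q.1 < q.2 → q'.1 < q'.2 → q ≠ q' →
      IsCoprime (lin14 v q.1 - lin14 v q.2) (lin14 v q'.1 - lin14 v q'.2) := by
    intro q q' hq hq' hne
    have hm : q ∈ (Finset.univ : Finset (J × J)).filter (fun q => q.1 < q.2) :=
      Finset.mem_filter.2 ⟨Finset.mem_univ q, hq⟩
    have hm' : q' ∈ ((Finset.univ : Finset (J × J)).filter (fun q => q.1 < q.2)).erase q :=
      Finset.mem_erase.2 ⟨hne.symm, Finset.mem_filter.2 ⟨Finset.mem_univ q', hq'⟩⟩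
    rw [← Finset.mul_prod_erase _ _ hm] at hprod
    have h2 := hprod.isCoprime
    exact h2.of_isCoprime_of_dvd_right (Finset.dvd_prod_of_mem _ hm')
  have main : ∀ i j l m, i < j → l < m → (i, j) ≠ (l, m) →
      (v (Sum.inl i) - v (Sum.inl j)) * (v (Sum.inr l) - v (Sum.inr m)) ≠
      (v (Sum.inl l) - v (Sum.inl m)) * (v (Sum.inr i) - v (Sum.inr j)) := by
    intro i j l m hij hlm hne he
    obtain ⟨a, b, hab⟩ := hcop (i, j) (l, m) hij hlm hne
    have h0 := sub_ne_zero.2 (hslope i j hij.ne)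
    have e1 : (lin14 v i - lin14 v j).eval (nd14 v i j) = 0 := by
      rw [lin14_sub]
      simp only [eval_add, eval_C, eval_mul, eval_X]
      unfold nd14
      field_simp
      ring
    have e2 : (lin14 v l - lin14 v m).eval (nd14 v i j) = 0 := by
      rw [lin14_sub]
      simp only [eval_add, eval_C, eval_mul, eval_X]
      unfold nd14
      field_simp
      linear_combination -he
    have h2 := congrArg (eval (nd14 v i j)) hab
    simp only [eval_add, eval_mul] at h2
    rw [e1, e2, mul_zero, mul_zero, add_zero, eval_one] at h2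
    exact zero_ne_one h2
  intro i j l m hij hlm h1 h2 he
  rcases lt_or_gt_of_ne hij with hij' | hij' <;> rcases lt_or_gt_of_ne hlm with hlm' | hlm'
  · exact main i j l m hij' hlm' (fun h => h1 ⟨(Prod.mk.inj h).1.symm, (Prod.mk.inj h).2.symm⟩) he
  · exact main i j m l hij' hlm' (fun h => h2 ⟨(Prod.mk.inj h).2.symm, (Prod.mk.inj h).1.symm⟩)
      (by linear_combination -he)
  · exact main j i l m hij' hlm' (fun h => h2 ⟨(Prod.mk.inj h).1.symm, (Prod.mk.inj h).2.symm⟩)
      (by linear_combination -he)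
  · exact main j i m l hij' hlm' (fun h => h1 ⟨(Prod.mk.inj h).2.symm, (Prod.mk.inj h).1.symm⟩)
      (by linear_combination he)

end gen

section final

variable {ι : Type} [Fintype ι] [LinearOrder ι]

/-- The family with the line at infinity. -/
def opt14 (i₀ : ι) (I : Finset ι) : Option I → ι
  | none => i₀
  | some i => i

omit [Fintype ι] [LinearOrder ι] in
lemma opt14_injective {i₀ : ι} {I : Finset ι} (h : i₀ ∉ I) : Function.Injective (opt14 i₀ I) := by
  rintro (_ | i) (_ | j) hij
  · rfl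
  · exfalso
    apply h
    have h1 : i₀ = (j : ι) := hij
    rw [h1]
    exact j.2
  · exfalso
    apply h
    have h1 : (i : ι) = i₀ := hij
    rw [← h1]
    exact i.2
  · have h1 : (i : ι) = j := hij
    rw [Subtype.ext h1]

/-- **The arithmetic condition in the charts.** -/
theorem prjIndepW14 {ℓ : ℕ} (hℓ : ℓ.Prime) {v : ι × Fin 3 → ℤ}
    (hp : ∀ x y z : ι, x ≠ y → y ≠ z → x ≠ z →
      ∃ p : ℕ, p.Prime ∧ (p : ZMod ℓ) = 1 ∧ OnlyPbr14 p x y z v)
    {g : Matrix (Fin 3) (Fin 3) ℚ} {i₀ : ι} {I : Finset ι} (hi₀ : i₀ ∉ I) (hI : 4 ≤ I.card)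
    (hg : IsChart v g i₀ I) (W : I → ℕ) (hW : ∀ i, (W i).Coprime ℓ) (hcop : (∑ i, W i).Coprime ℓ)
    (harr : IsArrangement fun i : I => linePoly v g i)
    (K F : Type) [Field K] [Algebra ℚ K] [IsCyclotomicExtension {ℓ} ℚ K] [Field F]
    [Algebra K F] :
    IsArrangement (fun i : I => (linePoly v g i).map (algebraMap ℚ K)) ∧
      ArrangementIndependentW ℓ K F W
        (fun i : I => (linePoly v g i).map (algebraMap ℚ K)) := by
  haveI : Fact ℓ.Prime := ⟨hℓ⟩
  haveI : CharZero K := charZero_of_injective_algebraMap (algebraMap ℚ K).injective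
  -- the coefficients in the chart
  set cr : Option I → Fin 3 → K := fun x j => algebraMap ℚ K (lineCoeff v g (opt14 i₀ I x) j)
    with hcr
  set gK : Matrix (Fin 3) (Fin 3) K := fun l j => algebraMap ℚ K (g l j) with hgK
  have hdet : gK.det = algebraMap ℚ K g.det := by
    rw [RingHom.map_det]
    rfl
  have hdet0 : gK.det ≠ 0 := by
    rw [hdet]
    exact (map_ne_zero_iff _ (algebraMap ℚ K).injective).2 hg.det_ne_zero
  have hcrs : ∀ x, cr x = fun j => ∑ l, ((v (opt14 i₀ I x, l) : ℤ) : K) * gK l j := by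
    intro x
    funext j
    rw [hcr, hgK]
    beta_reduce
    unfold lineCoeff
    rw [map_sum]
    refine Finset.sum_congr rfl fun l _ => ?_
    rw [map_mul, map_intCast]
  set B : Option I → Option I → Option I → K := fun x y z =>
    ((pbr14 v (opt14 i₀ I x) (opt14 i₀ I y) (opt14 i₀ I z) : ℤ) : K) with hBdef
  have hB : ∀ x y z, dt14 (cr x) (cr y) (cr z) = gK.det * B x y z := by
    intro x y z
    rw [hcrs x, hcrs y, hcrs z, dt14_mul, hBdef]
    beta_reduce
    congr 1
    unfold dt14 pbr14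
    push_cast
    ring
  have h0 : cr none 0 = 0 := by
    change algebraMap ℚ K (lineCoeff v g i₀ 0) = 0
    rw [hg.at_infinity.1, map_zero]
  have h1 : cr none 1 = 0 := by
    change algebraMap ℚ K (lineCoeff v g i₀ 1) = 0
    rw [hg.at_infinity.2, map_zero]
  -- all the brackets are not zero
  have hpb : ∀ x y z : ι, x ≠ y → y ≠ z → x ≠ z → pbr14 v x y z ≠ 0 := by
    intro x y z hxy hyz hxz h2
    obtain ⟨p, -, -, -, h3, -⟩ := hp x y z hxy hyz hxz
    apply h3
    rw [h2]
    exact dvd_zero _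
  have hs : ∀ x, scl14 cr x ≠ 0 := by
    rintro (_ | i)
    · change -cr none 2 ≠ 0
      rw [neg_ne_zero]
      intro h2
      -- the line `i₀` would vanish
      obtain ⟨x, hx, y, hy, hxy⟩ := Finset.one_lt_card.1 (show 1 < I.card by omega)
      have h3 := hB none (some ⟨x, hx⟩) (some ⟨y, hy⟩)
      have h4 : dt14 (cr none) (cr (some ⟨x, hx⟩)) (cr (some ⟨y, hy⟩)) = 0 := by
        unfold dt14
        rw [h0, h1, h2]
        ring
      rw [h4] at h3
      have h5 := (mul_eq_zero.1 h3.symm).resolve_left hdet0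
      have h6 : pbr14 v i₀ x y = 0 := Int.cast_eq_zero.1 h5
      exact hpb i₀ x y (fun h => hi₀ (h ▸ hx)) hxy (fun h => hi₀ (h ▸ hy)) h6
    · change algebraMap ℚ K (lineCoeff v g i 0) ≠ 0
      exact (map_ne_zero_iff _ (algebraMap ℚ K).injective).2 (hg.ne_zero i i.2)
  have hlin : (fun i : I => (linePoly v g i).map (algebraMap ℚ K)) = lin14 (aff14 cr) := by
    funext i
    unfold linePoly lin14
    rw [Polynomial.map_add, Polynomial.map_mul, map_C, map_C, map_X]
    have e1 : algebraMap ℚ K (-(lineCoeff v g i 2 / lineCoeff v g i 0)) =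
        aff14 cr (Sum.inl i) := by
      rw [map_neg, map_div₀]
      rfl
    have e2 : algebraMap ℚ K (-(lineCoeff v g i 1 / lineCoeff v g i 0)) =
        aff14 cr (Sum.inr i) := by
      rw [map_neg, map_div₀]
      rfl
    rw [e1, e2]
  -- the arrangement over `K`
  have harrK : IsArrangement (lin14 (aff14 cr)) := by
    rw [← hlin]
    refine ⟨?_, fun i j hij => ?_⟩
    · have h2 := harr.separable
      have h3 : (∏ i : I, ∏ j ∈ Finset.univ.filter fun j => i < j,
          ((linePoly v g i).map (algebraMap ℚ K) - (linePoly v g j).map (algebraMap ℚ K))) =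
          (∏ i : I, ∏ j ∈ Finset.univ.filter fun j => i < j,
            (linePoly v g i - linePoly v g j)).map (algebraMap ℚ K) := by
        rw [Polynomial.map_prod]
        refine Finset.prod_congr rfl fun i _ => ?_
        rw [Polynomial.map_prod]
        refine Finset.prod_congr rfl fun j _ => ?_
        rw [Polynomial.map_sub]
      rw [h3, Polynomial.separable_map]
      exact h2
    · rw [← Polynomial.map_sub, natDegree_map]
      exact harr.natDegree_ne_zero i j hij
  rw [hlin]
  refine ⟨harrK, (gen_of_isArrangement14 harrK).indepW hℓ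
    (by rw [Fintype.card_coe]; exact hI) W hW hcop ?_ F⟩
  intro i j l hij hjl hil
  have hne : ∀ {i j : I}, i ≠ j → (i : ι) ≠ j := fun h h' => h (Subtype.ext h')
  obtain ⟨p, hpp, hp1, hd1, hd2, hd3⟩ := hp i j l (hne hij) (hne hjl) (hne hil)
  haveI : Fact p.Prime := ⟨hpp⟩
  have hdvd : ℓ ∣ p - 1 := by
    rw [← ZMod.natCast_eq_zero_iff, Nat.cast_sub hpp.one_le, hp1, Nat.cast_one, sub_self]
  obtain ⟨φ⟩ := exists_embedding7 hℓ hdvd K
  refine ⟨padicVal14 φ ℓ, hv_chart14 (padicVal14 φ ℓ) cr h0 h1 hs gK.det hdet0 B hB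
    (r := 1) one_ne_zero ?_ ?_ ?_⟩
  · exact Int.cast_ne_zero.2 (hpb i j l (hne hij) (hne hjl) (hne hil))
  · rw [hBdef]
    beta_reduce
    rw [padicVal14_int]
    have h5 := (padicValInt_dvd_iff (p := p) 1 (pbr14 v i j l)).1 (by rwa [pow_one])
    have h6 : ¬ 2 ≤ padicValInt p (pbr14 v i j l) := fun h6 =>
      hd2 ((padicValInt_dvd_iff (p := p) 2 _).2 (Or.inr h6))
    have h4 : padicValInt p (pbr14 v i j l) = 1 := by
      rcases h5 with h5 | h5
      · exact absurd h5 (hpb i j l (hne hij) (hne hjl) (hne hil))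
      · omega
    have h7 : pbr14 v (opt14 i₀ I (some i)) (opt14 i₀ I (some j)) (opt14 i₀ I (some l)) =
        pbr14 v i j l := rfl
    rw [h7, h4]
    simp
  · intro x y z hxy hyz hxz hno
    have hinj := opt14_injective hi₀
    have hx' : opt14 i₀ I x ≠ opt14 i₀ I y := fun h => hxy (hinj h)
    have hy' : opt14 i₀ I y ≠ opt14 i₀ I z := fun h => hyz (hinj h)
    have hz' : opt14 i₀ I x ≠ opt14 i₀ I z := fun h => hxz (hinj h)
    have hmem : ∀ w : Option I, opt14 i₀ I w ∈ ({(i : ι), (j : ι), (l : ι)} : Set ι) →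
        w ∈ ({some i, some j, some l} : Set (Option I)) := by
      intro w hw
      simp only [Set.mem_insert_iff, Set.mem_singleton_iff] at hw ⊢
      rcases hw with hw | hw | hw
      · exact Or.inl (hinj hw)
      · exact Or.inr (Or.inl (hinj hw))
      · exact Or.inr (Or.inr (hinj hw))
    refine ⟨?_, ?_⟩
    · exact Int.cast_ne_zero.2 (hpb _ _ _ hx' hy' hz')
    · rw [hBdef]
      beta_reduce
      rw [padicVal14_int, padicValInt.eq_zero_of_not_dvd (hd3 _ _ _ hx' hy' hz'
        fun hh => hno ⟨hmem x hh.1, hmem y hh.2.1, hmem z hh.2.2⟩)]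
      simp

end final

end Pool.Agent.Lib.MP_89bcae_ag
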