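import Mathlib
import Pool.Agent.Lib.MP_89bcae_ag.LPrjB14

/-!
# Lines of the projective plane: existence of charts
-/

open Polynomial

open scoped Classical

set_option linter.unusedSectionVars false
set_option linter.unusedSimpArgs false
set_option linter.style.haveILetI false

namespace Pool.Agent.Lib.MP_89bcae_ag

open Superelliptic

/-- Finitely many nonzero affine functions have a common nonzero. -/
lemma exists_affine14 {κ : Type} [Finite κ] (a b : κ → ℚ) (h : ∀ k, a k ≠ 0 ∨ b k ≠ 0) :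
    ∃ s : ℚ, ∀ k, a k + s * b k ≠ 0 := by
  have hfin : (⋃ k, {s : ℚ | a k + s * b k = 0}).Finite := by
    apply Set.finite_iUnion
    intro k
    apply Set.Subsingleton.finite
    intro s hs t ht
    rw [Set.mem_ofPred_eq] at hs ht
    have h1 : (s - t) * b k = 0 := by linear_combination hs - ht
    rcases mul_eq_zero.1 h1 with h2 | h2
    · exact sub_eq_zero.1 h2
    · rw [h2, mul_zero, add_zero] at hs
      exact absurd h2 ((h k).resolve_left (fun h3 => h3 hs))
  obtain ⟨s, hs⟩ := hfin.exists_notMem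
  refine ⟨s, fun k hk => hs ?_⟩
  exact Set.mem_iUnion.2 ⟨k, hk⟩

/-- Coordinates with a given line at infinity. -/
lemma exists_basis14 (a : Fin 3 → ℚ) (ha : a ≠ 0) : ∃ g : Matrix (Fin 3) (Fin 3) ℚ, g.det ≠ 0 ∧
    ∑ l, a l * g l 0 = 0 ∧ ∑ l, a l * g l 1 = 0 := by
  by_cases h2 : a 2 = 0
  · by_cases h1 : a 1 = 0
    · have h0 : a 0 ≠ 0 := by
        intro h0
        apply ha
        funext i
        fin_cases i
        · exact h0
        · exact h1
        · exact h2
      refine ⟨!![0, 0, 1; 1, 0, 0; 0, 1, 0], ?_, ?_, ?_⟩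
      · rw [Matrix.det_fin_three]
        simp
      · simp [Fin.sum_univ_three, h1]
      · simp [Fin.sum_univ_three, h2]
    · refine ⟨!![a 1, 0, 0; -a 0, 0, 1; 0, 1, 0], ?_, ?_, ?_⟩
      · rw [Matrix.det_fin_three]
        simp [h1]
      · simp [Fin.sum_univ_three, h2]
        ring
      · simp [Fin.sum_univ_three, h2]
  · refine ⟨!![a 2, 0, 0; 0, a 2, 0; -a 0, -a 1, 1], ?_, ?_, ?_⟩
    · rw [Matrix.det_fin_three]
      simp [h2]
    · simp [Fin.sum_univ_three]
      ring
    · simp [Fin.sum_univ_three]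
      ring

variable {ι : Type} [Fintype ι] [LinearOrder ι]

omit [Fintype ι] [LinearOrder ι] in
lemma dt_lineCoeff14 (v : ι × Fin 3 → ℤ) (g : Matrix (Fin 3) (Fin 3) ℚ) (x y z : ι) :
    dt14 (lineCoeff v g x) (lineCoeff v g y) (lineCoeff v g z) = g.det * ((pbr14 v x y z : ℤ) : ℚ) := by
  have h1 := dt14_mul (fun l => (v (x, l) : ℚ)) (fun l => (v (y, l) : ℚ))
    (fun l => (v (z, l) : ℚ)) g
  have h2 : dt14 (fun l => (v (x, l) : ℚ)) (fun l => (v (y, l) : ℚ)) (fun l => (v (z, l) : ℚ)) =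
      ((pbr14 v x y z : ℤ) : ℚ) := by
    unfold dt14 pbr14
    push_cast
    ring
  rw [h2] at h1
  exact h1

/-- **Existence of charts.** -/
theorem exists_chart14 {v : ι × Fin 3 → ℤ} (h : ∀ x y z : ι, x ≠ y → y ≠ z → x ≠ z →
    pbr14 v x y z ≠ 0) (hc : 3 ≤ Fintype.card ι) (i₀ : ι) :
    ∃ g : Matrix (Fin 3) (Fin 3) ℚ, IsChart v g i₀ (Finset.univ.erase i₀) ∧
      IsArrangement (fun i : (Finset.univ.erase i₀ : Finset ι) => linePoly v g i) := by
  -- two other lines for each line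
  have hthird : ∀ i j : ι, ∃ l, l ≠ i ∧ l ≠ j := by
    intro i j
    by_contra hcon
    push Not at hcon
    have h1 : (Finset.univ : Finset ι) ⊆ {i, j} := by
      intro l _
      rw [Finset.mem_insert, Finset.mem_singleton]
      by_cases hl : l = i
      · exact Or.inl hl
      · exact Or.inr (hcon l hl)
    have h2 := Finset.card_le_card h1
    rw [Finset.card_univ] at h2
    have h3 : ({i, j} : Finset ι).card ≤ 2 := Finset.card_le_two
    omega
  have ha : (fun l => (v (i₀, l) : ℚ)) ≠ 0 := by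
    intro h0
    obtain ⟨j, hj, -⟩ := hthird i₀ i₀
    obtain ⟨l, hl, hlj⟩ := hthird i₀ j
    apply h i₀ j l hj.symm hlj.symm hl.symm
    have e : ∀ r : Fin 3, v (i₀, r) = 0 := by
      intro r
      have := congrFun h0 r
      simpa using this
    unfold pbr14
    rw [e, e, e]
    ring
  obtain ⟨G, hG, hG0, hG1⟩ := exists_basis14 _ ha
  set u : ι → ℚ := fun i => lineCoeff v G i 0 with hu
  set w : ι → ℚ := fun i => lineCoeff v G i 1 with hw
  set e : ι → ℚ := fun i => lineCoeff v G i 2 with he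
  have hu0 : u i₀ = 0 := hG0
  have hw0 : w i₀ = 0 := hG1
  have hdt : ∀ x y z, u x * (w y * e z - e y * w z) - w x * (u y * e z - e y * u z) +
      e x * (u y * w z - w y * u z) = G.det * ((pbr14 v x y z : ℤ) : ℚ) := by
    intro x y z
    rw [← dt_lineCoeff14]
    rfl
  have hbr : ∀ x y z, x ≠ y → y ≠ z → x ≠ z → G.det * ((pbr14 v x y z : ℤ) : ℚ) ≠ 0 := fun x y z a b c =>
    mul_ne_zero hG (Int.cast_ne_zero.2 (h x y z a b c))
  have hΔ : ∀ i j, i ≠ j → i ≠ i₀ → j ≠ i₀ → w i * u j - w j * u i ≠ 0 := by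
    intro i j hij hi hj h0
    have h1 := hdt i j i₀
    rw [hu0, hw0] at h1
    apply hbr i j i₀ hij hj hi
    rw [← h1]
    linear_combination -(e i₀) * h0
  -- the conditions
  let κ := {i : ι // i ≠ i₀} ⊕ {q : ι × ι × ι × ι // q.1 ≠ q.2.1 ∧ q.2.2.1 ≠ q.2.2.2 ∧
    ¬ (q.2.2.1 = q.1 ∧ q.2.2.2 = q.2.1) ∧ ¬ (q.2.2.1 = q.2.1 ∧ q.2.2.2 = q.1) ∧
    q.1 ≠ i₀ ∧ q.2.1 ≠ i₀ ∧ q.2.2.1 ≠ i₀ ∧ q.2.2.2 ≠ i₀}
  let Δ : ι → ι → ℚ := fun i j => w i * u j - w j * u i
  let R : ι → ι → ℚ := fun i j => e i * u j - e j * u i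
  let S : ι → ι → ℚ := fun i j => e i * w j - e j * w i
  let A : κ → ℚ := Sum.elim (fun i => u i) (fun q =>
    R q.1.1 q.1.2.1 * Δ q.1.2.2.1 q.1.2.2.2 - R q.1.2.2.1 q.1.2.2.2 * Δ q.1.1 q.1.2.1)
  let B : κ → ℚ := Sum.elim (fun i => w i) (fun q =>
    S q.1.1 q.1.2.1 * Δ q.1.2.2.1 q.1.2.2.2 - S q.1.2.2.1 q.1.2.2.2 * Δ q.1.1 q.1.2.1)
  obtain ⟨s, hs⟩ := exists_affine14 A B (by
    rintro (⟨i, hi⟩ | ⟨⟨i, j, l, m⟩, hij, hlm, h1, h2, hi, hj, hl, hm⟩)
    · change u i ≠ 0 ∨ w i ≠ 0
      by_contra hcon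
      push Not at hcon
      obtain ⟨j, hj, hj0⟩ := hthird i i₀
      apply hΔ i j hj.symm hi hj0
      rw [hcon.1, hcon.2]
      ring
    · change R i j * Δ l m - R l m * Δ i j ≠ 0 ∨ S i j * Δ l m - S l m * Δ i j ≠ 0
      simp only at hij hlm h1 h2 hi hj hl hm
      by_contra hcon
      push Not at hcon
      obtain ⟨c1, c2⟩ := hcon
      -- a line through the two points
      have key : ∀ r, r = l ∨ r = m → r = i ∨ r = j := by
        intro r hr
        by_contra hcon
        push Not at hcon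
        have h3 := hdt r i j
        apply hbr r i j hcon.1 hij hcon.2
        have h4 : Δ l m * (u r * (w i * e j - e i * w j) - w r * (u i * e j - e i * u j) +
            e r * (u i * w j - w i * u j)) = 0 := by
          have h5 : Δ l m * (u r * (w i * e j - e i * w j) - w r * (u i * e j - e i * u j) +
            e r * (u i * w j - w i * u j)) = Δ i j * (-(u r * S l m) + w r * R l m - e r * Δ l m) +
              w r * (R i j * Δ l m - R l m * Δ i j) - u r * (S i j * Δ l m - S l m * Δ i j) := by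
            simp only [Δ, R, S]
            ring
          have h6 : -(u r * S l m) + w r * R l m - e r * Δ l m = 0 := by
            rcases hr with rfl | rfl
            · simp only [Δ, R, S]
              ring
            · simp only [Δ, R, S]
              ring
          rw [h5, h6, c1, c2]
          ring
        rw [← h3]
        exact (mul_eq_zero.1 h4).resolve_left (hΔ l m hlm hl hm)
      rcases key l (Or.inl rfl) with a | a <;> rcases key m (Or.inr rfl) with b | b
      · exact hlm (a.trans b.symm)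
      · exact h1 ⟨a, b⟩
      · exact h2 ⟨a, b⟩
      · exact hlm (a.trans b.symm))
  -- the chart
  set g : Matrix (Fin 3) (Fin 3) ℚ := fun l j => if j = 0 then G l 0 + s * G l 1 else G l j
    with hg
  have hc0 : ∀ i, lineCoeff v g i 0 = u i + s * w i := by
    intro i
    change ∑ l, (v (i, l) : ℚ) * (G l 0 + s * G l 1) =
      ∑ l, (v (i, l) : ℚ) * G l 0 + s * ∑ l, (v (i, l) : ℚ) * G l 1
    rw [Finset.mul_sum, ← Finset.sum_add_distrib]
    exact Finset.sum_congr rfl fun l _ => by ring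
  have hc1 : ∀ i, lineCoeff v g i 1 = w i := fun i => rfl
  have hc2 : ∀ i, lineCoeff v g i 2 = e i := fun i => rfl
  have hdet : g.det = G.det := by
    rw [Matrix.det_fin_three, Matrix.det_fin_three]
    have e0 : ∀ l, g l 0 = G l 0 + s * G l 1 := fun l => rfl
    have e1 : ∀ l, g l 1 = G l 1 := fun l => rfl
    have e2 : ∀ l, g l 2 = G l 2 := fun l => rfl
    rw [e0, e0, e0, e1, e1, e1, e2, e2, e2]
    ring
  have hp : ∀ i, i ≠ i₀ → lineCoeff v g i 0 ≠ 0 := by
    intro i hi
    rw [hc0]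
    exact hs (Sum.inl ⟨i, hi⟩)
  refine ⟨g, ⟨by rw [hdet]; exact hG, ⟨?_, ?_⟩, fun i hi => hp i (Finset.ne_of_mem_erase hi)⟩, ?_⟩
  · rw [hc0, hu0, hw0]
    ring
  · rw [hc1, hw0]
  -- the arrangement
  set v' : (Finset.univ.erase i₀ : Finset ι) ⊕ (Finset.univ.erase i₀ : Finset ι) → ℚ :=
    Sum.elim (fun i => -(lineCoeff v g i 2 / lineCoeff v g i 0))
      (fun i => -(lineCoeff v g i 1 / lineCoeff v g i 0)) with hv'
  have hlin : (fun i : (Finset.univ.erase i₀ : Finset ι) => linePoly v g i) = lin14 v' := rfl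
  rw [hlin]
  apply Gen14.isArrangement
  have hne : ∀ i : (Finset.univ.erase i₀ : Finset ι), (i : ι) ≠ i₀ :=
    fun i => Finset.ne_of_mem_erase i.2
  have hsl : ∀ i j : (Finset.univ.erase i₀ : Finset ι), (v' (Sum.inr i) - v' (Sum.inr j)) *
      (lineCoeff v g i 0 * lineCoeff v g j 0) = -Δ i j := by
    intro i j
    have a1 := hp i (hne i)
    have a2 := hp j (hne j)
    change (-(lineCoeff v g i 1 / lineCoeff v g i 0) - -(lineCoeff v g j 1 / lineCoeff v g j 0)) *
      (lineCoeff v g i 0 * lineCoeff v g j 0) = _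
    field_simp
    rw [hc0, hc0, hc1, hc1]
    simp only [Δ]
    ring
  have hin : ∀ i j : (Finset.univ.erase i₀ : Finset ι), (v' (Sum.inl i) - v' (Sum.inl j)) *
      (lineCoeff v g i 0 * lineCoeff v g j 0) = -(R i j + s * S i j) := by
    intro i j
    have a1 := hp i (hne i)
    have a2 := hp j (hne j)
    change (-(lineCoeff v g i 2 / lineCoeff v g i 0) - -(lineCoeff v g j 2 / lineCoeff v g j 0)) *
      (lineCoeff v g i 0 * lineCoeff v g j 0) = _
    field_simp
    rw [hc0, hc0, hc2, hc2]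
    simp only [R, S]
    ring
  refine ⟨fun i j hij he => ?_, fun i j l m hij hlm h1 h2 he => ?_⟩
  · have h3 := hsl i j
    rw [he, sub_self, zero_mul] at h3
    exact hΔ i j (fun hh => hij (Subtype.ext hh)) (hne i) (hne j) (neg_eq_zero.1 h3.symm)
  · have h3 := hs (Sum.inr ⟨(i, j, l, m), fun hh => hij (Subtype.ext hh),
      fun hh => hlm (Subtype.ext hh), fun hh => h1 ⟨Subtype.ext hh.1, Subtype.ext hh.2⟩,
      fun hh => h2 ⟨Subtype.ext hh.1, Subtype.ext hh.2⟩, hne i, hne j, hne l, hne m⟩)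
    apply h3
    change R i j * Δ l m - R l m * Δ i j + s * (S i j * Δ l m - S l m * Δ i j) = 0
    have e1 := hin i j
    have e2 := hin l m
    have e3 := hsl i j
    have e4 := hsl l m
    linear_combination (Δ l m) * e1 - (v' (Sum.inl i) - v' (Sum.inl j)) *
      (lineCoeff v g i 0 * lineCoeff v g j 0) * e4 - Δ i j * e2 +
      (v' (Sum.inl l) - v' (Sum.inl m)) * (lineCoeff v g l 0 * lineCoeff v g m 0) * e3 +
      (lineCoeff v g i 0 * lineCoeff v g j 0) * (lineCoeff v g l 0 * lineCoeff v g m 0) * he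

end Pool.Agent.Lib.MP_89bcae_ag
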