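import Mathlib
import Pool.Agent.Lib.MP_89bcae_ag.LPrjB14

/-!
# Lines of the projective plane: the arithmetic condition in all the charts, for all primes `ℓ`

The homomorphism is the opposite of the `p`-adic valuation of the norm from `K = ℚ(ζ_ℓ)` to `ℚ`; as the
degree is `ℓ - 1`, it extends the `p`-adic valuation of `ℚ` modulo `ℓ`.
-/

open Polynomial

open scoped Classical

set_option linter.unusedSectionVars false
set_option linter.unusedSimpArgs false
set_option linter.style.haveILetI false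

namespace Pool.Agent.Lib.MP_89bcae_ag

open Superelliptic

/-- The opposite of the `p`-adic valuation of the norm, modulo `ℓ`. -/
noncomputable def normVal14 (K : Type) [Field K] [Algebra ℚ K] (p : ℕ) [Fact p.Prime] (ℓ : ℕ)
    [NeZero ℓ] [IsCyclotomicExtension {ℓ} ℚ K] : Val14 K ℓ where
  ν x := -((padicValRat p (Algebra.norm ℚ x) : ℤ) : ZMod ℓ)
  mul x y hx hy := by
    haveI : FiniteDimensional ℚ K := IsCyclotomicExtension.finiteDimensional {ℓ} ℚ K
    have hx' : Algebra.norm ℚ x ≠ 0 := Algebra.norm_ne_zero_iff.2 hx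
    have hy' : Algebra.norm ℚ y ≠ 0 := Algebra.norm_ne_zero_iff.2 hy
    rw [map_mul, padicValRat.mul hx' hy']
    push_cast
    ring
  neg_one := by
    have h1 : (-1 : K) = algebraMap ℚ K (-1) := by rw [map_neg, map_one]
    have h2 : padicValRat p ((-1 : ℚ) ^ Module.finrank ℚ K) = 0 := by
      rw [padicValRat.pow, padicValRat.neg, padicValRat.one, mul_zero]
    rw [h1, Algebra.norm_algebraMap, h2, Int.cast_zero, neg_zero]

lemma normVal14_int {K : Type} [Field K] [Algebra ℚ K] {p : ℕ} [Fact p.Prime] {ℓ : ℕ}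
    (hℓ : ℓ.Prime) [NeZero ℓ] [IsCyclotomicExtension {ℓ} ℚ K] (z : ℤ) :
    (normVal14 K p ℓ).ν (z : K) = ((padicValInt p z : ℕ) : ZMod ℓ) := by
  change -((padicValRat p (Algebra.norm ℚ (z : K)) : ℤ) : ZMod ℓ) = _
  by_cases hz : z = 0
  · subst hz
    haveI : FiniteDimensional ℚ K := IsCyclotomicExtension.finiteDimensional {ℓ} ℚ K
    simp
  · have h1 : (z : K) = algebraMap ℚ K (z : ℚ) := by rw [map_intCast]
    have hz' : (z : ℚ) ≠ 0 := Int.cast_ne_zero.2 hz
    rw [h1, Algebra.norm_algebraMap, padicValRat.pow, padicValRat.of_int,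
      IsCyclotomicExtension.finrank K (cyclotomic.irreducible_rat hℓ.pos), Nat.totient_prime hℓ]
    push_cast [Nat.cast_sub hℓ.one_le]
    rw [ZMod.natCast_self]
    ring

section final

variable {ι : Type} [Fintype ι] [LinearOrder ι]

/-- **The arithmetic condition in the charts**, for every prime `ℓ`. -/
theorem prjIndepN14 {ℓ : ℕ} (hℓ : ℓ.Prime) {v : ι × Fin 3 → ℤ}
    (hp : ∀ x y z : ι, x ≠ y → y ≠ z → x ≠ z →
      ∃ p : ℕ, p.Prime ∧ OnlyPbr14 p x y z v)
    {g : Matrix (Fin 3) (Fin 3) ℚ} {i₀ : ι} {I : Finset ι} (hi₀ : i₀ ∉ I) (hI : 4 ≤ I.card)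
    (hg : IsChart v g i₀ I) (W : I → ℕ) (hW : ∀ i, (W i).Coprime ℓ) (hcop : (∑ i, W i).Coprime ℓ)
    (harr : IsArrangement fun i : I => linePoly v g i)
    (K F : Type) [Field K] [Algebra ℚ K] [IsCyclotomicExtension {ℓ} ℚ K] [Field F]
    [Algebra K F] :
    IsArrangement (fun i : I => (linePoly v g i).map (algebraMap ℚ K)) ∧
      ArrangementIndependentW ℓ K F W
        (fun i : I => (linePoly v g i).map (algebraMap ℚ K)) := by
  haveI : Fact ℓ.Prime := ⟨hℓ⟩
  haveI : NeZero ℓ := ⟨hℓ.ne_zero⟩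
  haveI : CharZero K := charZero_of_injective_algebraMap (algebraMap ℚ K).injective
  -- the coefficients in the chart
  set cr : Option I → Fin 3 → K := fun x j => algebraMap ℚ K (lineCoeff v g (opt14 i₀ I x) j)
    with hcr
  set gK : Matrix (Fin 3) (Fin 3) K := fun l j => algebraMap ℚ K (g l j) with hgK
  have hdet : gK.det = algebraMap ℚ K g.det := by
    rw [RingHom.map_det]
    rfl
  have hdet0 : gK.det ≠ 0 := by
    rw [hdet]
    exact (map_ne_zero_iff _ (algebraMap ℚ K).injective).2 hg.det_ne_zero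
  have hcrs : ∀ x, cr x = fun j => ∑ l, ((v (opt14 i₀ I x, l) : ℤ) : K) * gK l j := by
    intro x
    funext j
    rw [hcr, hgK]
    beta_reduce
    unfold lineCoeff
    rw [map_sum]
    refine Finset.sum_congr rfl fun l _ => ?_
    rw [map_mul, map_intCast]
  set B : Option I → Option I → Option I → K := fun x y z =>
    ((pbr14 v (opt14 i₀ I x) (opt14 i₀ I y) (opt14 i₀ I z) : ℤ) : K) with hBdef
  have hB : ∀ x y z, dt14 (cr x) (cr y) (cr z) = gK.det * B x y z := by
    intro x y z
    rw [hcrs x, hcrs y, hcrs z, dt14_mul, hBdef]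
    beta_reduce
    congr 1
    unfold dt14 pbr14
    push_cast
    ring
  have h0 : cr none 0 = 0 := by
    change algebraMap ℚ K (lineCoeff v g i₀ 0) = 0
    rw [hg.at_infinity.1, map_zero]
  have h1 : cr none 1 = 0 := by
    change algebraMap ℚ K (lineCoeff v g i₀ 1) = 0
    rw [hg.at_infinity.2, map_zero]
  -- all the brackets are not zero
  have hpb : ∀ x y z : ι, x ≠ y → y ≠ z → x ≠ z → pbr14 v x y z ≠ 0 := by
    intro x y z hxy hyz hxz h2
    obtain ⟨p, -, -, h3, -⟩ := hp x y z hxy hyz hxz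
    apply h3
    rw [h2]
    exact dvd_zero _
  have hs : ∀ x, scl14 cr x ≠ 0 := by
    rintro (_ | i)
    · change -cr none 2 ≠ 0
      rw [neg_ne_zero]
      intro h2
      -- the line `i₀` would vanish
      obtain ⟨x, hx, y, hy, hxy⟩ := Finset.one_lt_card.1 (show 1 < I.card by omega)
      have h3 := hB none (some ⟨x, hx⟩) (some ⟨y, hy⟩)
      have h4 : dt14 (cr none) (cr (some ⟨x, hx⟩)) (cr (some ⟨y, hy⟩)) = 0 := by
        unfold dt14
        rw [h0, h1, h2]
        ring
      rw [h4] at h3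
      have h5 := (mul_eq_zero.1 h3.symm).resolve_left hdet0
      have h6 : pbr14 v i₀ x y = 0 := Int.cast_eq_zero.1 h5
      exact hpb i₀ x y (fun h => hi₀ (h ▸ hx)) hxy (fun h => hi₀ (h ▸ hy)) h6
    · change algebraMap ℚ K (lineCoeff v g i 0) ≠ 0
      exact (map_ne_zero_iff _ (algebraMap ℚ K).injective).2 (hg.ne_zero i i.2)
  have hlin : (fun i : I => (linePoly v g i).map (algebraMap ℚ K)) = lin14 (aff14 cr) := by
    funext i
    unfold linePoly lin14
    rw [Polynomial.map_add, Polynomial.map_mul, map_C, map_C, map_X]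
    have e1 : algebraMap ℚ K (-(lineCoeff v g i 2 / lineCoeff v g i 0)) =
        aff14 cr (Sum.inl i) := by
      rw [map_neg, map_div₀]
      rfl
    have e2 : algebraMap ℚ K (-(lineCoeff v g i 1 / lineCoeff v g i 0)) =
        aff14 cr (Sum.inr i) := by
      rw [map_neg, map_div₀]
      rfl
    rw [e1, e2]
  -- the arrangement over `K`
  have harrK : IsArrangement (lin14 (aff14 cr)) := by
    rw [← hlin]
    refine ⟨?_, fun i j hij => ?_⟩
    · have h2 := harr.separable
      have h3 : (∏ i : I, ∏ j ∈ Finset.univ.filter fun j => i < j,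
          ((linePoly v g i).map (algebraMap ℚ K) - (linePoly v g j).map (algebraMap ℚ K))) =
          (∏ i : I, ∏ j ∈ Finset.univ.filter fun j => i < j,
            (linePoly v g i - linePoly v g j)).map (algebraMap ℚ K) := by
        rw [Polynomial.map_prod]
        refine Finset.prod_congr rfl fun i _ => ?_
        rw [Polynomial.map_prod]
        refine Finset.prod_congr rfl fun j _ => ?_
        rw [Polynomial.map_sub]
      rw [h3, Polynomial.separable_map]
      exact h2
    · rw [← Polynomial.map_sub, natDegree_map]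
      exact harr.natDegree_ne_zero i j hij
  rw [hlin]
  refine ⟨harrK, (gen_of_isArrangement14 harrK).indepW hℓ
    (by rw [Fintype.card_coe]; exact hI) W hW hcop ?_ F⟩
  intro i j l hij hjl hil
  have hne : ∀ {i j : I}, i ≠ j → (i : ι) ≠ j := fun h h' => h (Subtype.ext h')
  obtain ⟨p, hpp, hd1, hd2, hd3⟩ := hp i j l (hne hij) (hne hjl) (hne hil)
  haveI : Fact p.Prime := ⟨hpp⟩
  refine ⟨normVal14 K p ℓ, hv_chart14 (normVal14 K p ℓ) cr h0 h1 hs gK.det hdet0 B hB
    (r := 1) one_ne_zero ?_ ?_ ?_⟩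
  · exact Int.cast_ne_zero.2 (hpb i j l (hne hij) (hne hjl) (hne hil))
  · rw [hBdef]
    beta_reduce
    rw [normVal14_int hℓ]
    have h5 := (padicValInt_dvd_iff (p := p) 1 (pbr14 v i j l)).1 (by rwa [pow_one])
    have h6 : ¬ 2 ≤ padicValInt p (pbr14 v i j l) := fun h6 =>
      hd2 ((padicValInt_dvd_iff (p := p) 2 _).2 (Or.inr h6))
    have h4 : padicValInt p (pbr14 v i j l) = 1 := by
      rcases h5 with h5 | h5
      · exact absurd h5 (hpb i j l (hne hij) (hne hjl) (hne hil))
      · omega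
    have h7 : pbr14 v (opt14 i₀ I (some i)) (opt14 i₀ I (some j)) (opt14 i₀ I (some l)) =
        pbr14 v i j l := rfl
    rw [h7, h4]
    simp
  · intro x y z hxy hyz hxz hno
    have hinj := opt14_injective hi₀
    have hx' : opt14 i₀ I x ≠ opt14 i₀ I y := fun h => hxy (hinj h)
    have hy' : opt14 i₀ I y ≠ opt14 i₀ I z := fun h => hyz (hinj h)
    have hz' : opt14 i₀ I x ≠ opt14 i₀ I z := fun h => hxz (hinj h)
    have hmem : ∀ w : Option I, opt14 i₀ I w ∈ ({(i : ι), (j : ι), (l : ι)} : Set ι) →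
        w ∈ ({some i, some j, some l} : Set (Option I)) := by
      intro w hw
      simp only [Set.mem_insert_iff, Set.mem_singleton_iff] at hw ⊢
      rcases hw with hw | hw | hw
      · exact Or.inl (hinj hw)
      · exact Or.inr (Or.inl (hinj hw))
      · exact Or.inr (Or.inr (hinj hw))
    refine ⟨?_, ?_⟩
    · exact Int.cast_ne_zero.2 (hpb _ _ _ hx' hy' hz')
    · rw [hBdef]
      beta_reduce
      rw [normVal14_int hℓ, padicValInt.eq_zero_of_not_dvd (hd3 _ _ _ hx' hy' hz'
        fun hh => hno ⟨hmem x hh.1, hmem y hh.2.1, hmem z hh.2.2⟩)]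
      simp

end final

end Pool.Agent.Lib.MP_89bcae_ag
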