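import Mathlib
import Pool.Agent.Lib.MP_89bcae_ag.MatC7
import Pool.Agent.Lib.MP_89bcae_ag.DefsRedei7
import Pool.Agent.Lib.MP_89bcae_ag.Key8

/-!
# The Rédei maps of a symbol
-/

open Polynomial WithZero

open scoped Classical

namespace Pool.Agent.Lib.MP_89bcae_ag

set_option linter.style.haveILetI false
set_option linter.unusedSectionVars false

variable {k F : Type*} [Field k] [Field F] [Algebra k F] {K : IntermediateField k F} {S A : Finset F}
  {g D : F[X]} {u : F} {lam : F → ZMod 2}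

lemma Symb7.one (h : Symb7 K S g u lam) : lam 1 = 0 := by
  have h1 := h.mul 1 K.one_mem 1 K.one_mem one_ne_zero one_ne_zero
  rw [mul_one] at h1
  exact left_eq_add.mp h1

lemma Symb7.prod (h : Symb7 K S g u lam) {ι : Type*} (T : Finset ι) (f : ι → F)
    (hf : ∀ i ∈ T, f i ∈ K) (hf0 : ∀ i ∈ T, f i ≠ 0) : lam (∏ i ∈ T, f i) = ∑ i ∈ T, lam (f i) := by
  induction T using Finset.induction_on with
  | empty => simp [h.one]
  | insert i s hi ih =>
    rw [Finset.prod_insert hi, Finset.sum_insert hi,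
      h.mul _ (hf i (Finset.mem_insert_self i s))
        _ (K.prod_mem fun j hj => hf j (Finset.mem_insert_of_mem hj))
        (hf0 i (Finset.mem_insert_self i s))
        (Finset.prod_ne_zero_iff.2 fun j hj => hf0 j (Finset.mem_insert_of_mem hj)),
      ih (fun j hj => hf j (Finset.mem_insert_of_mem hj))
        (fun j hj => hf0 j (Finset.mem_insert_of_mem hj))]

/-- The value of the derivative of `D` at `g(b)`. -/
lemma deriv_eq7 (hDA : D = C u * ∏ α ∈ A, (X - C α))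
    (hgS : ∀ α ∈ A, g - C α = ∏ b ∈ S.filter (fun b => g.eval b = α), (X - C b))
    (hSA : ∀ b ∈ S, g.eval b ∈ A) {b : F} (hb : b ∈ S) :
    (derivative D).eval (g.eval b) = u * ∏ c ∈ S.filter (fun c => g.eval c ≠ g.eval b), (b - c) := by
  have h1 : D = (X - C (g.eval b)) * (C u * ∏ α ∈ A.erase (g.eval b), (X - C α)) := by
    rw [hDA, ← Finset.mul_prod_erase A _ (hSA b hb)]
    ring
  have h3 : (derivative D).eval (g.eval b) = u * ∏ α ∈ A.erase (g.eval b), (g.eval b - α) := by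
    rw [h1, derivative_mul, derivative_X_sub_C, one_mul, eval_add,
      eval_mul (p := X - C (g.eval b)), eval_sub,
      eval_X, eval_C, sub_self, zero_mul, add_zero, eval_mul, eval_C, eval_prod]
    congr 1
    refine Finset.prod_congr rfl fun α _ => ?_
    rw [eval_sub, eval_X, eval_C]
  rw [h3]
  congr 1
  have h4 : ∀ α ∈ A.erase (g.eval b), g.eval b - α =
      ∏ c ∈ (S.filter (fun c => g.eval c ≠ g.eval b)).filter (fun c => g.eval c = α), (b - c) := by
    intro α hα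
    rw [Finset.mem_erase] at hα
    have h5 := congrArg (eval b) (hgS α hα.2)
    rw [eval_sub, eval_C, eval_prod] at h5
    rw [h5, Finset.filter_filter]
    have h6 : S.filter (fun c => g.eval c ≠ g.eval b ∧ g.eval c = α) =
        S.filter (fun c => g.eval c = α) := by
      apply Finset.filter_congr
      intro c _
      constructor
      · exact fun h => h.2
      · exact fun h => ⟨fun h' => hα.1 (h.symm.trans h'), h⟩
    rw [h6]
    refine Finset.prod_congr rfl fun c _ => ?_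
    rw [eval_sub, eval_X, eval_C]
  rw [Finset.prod_congr rfl h4]
  apply Finset.prod_fiberwise_of_maps_to
  intro c hc
  rw [Finset.mem_filter] at hc
  exact Finset.mem_erase.mpr ⟨hc.2, hSA c hc.1⟩

/-- The symbol of `PZ`. -/
theorem lam_PZ7 (h : Symb7 K S g u lam) (hDA : D = C u * ∏ α ∈ A, (X - C α))
    (hgS : ∀ α ∈ A, g - C α = ∏ b ∈ S.filter (fun b => g.eval b = α), (X - C b))
    (hSA : ∀ b ∈ S, g.eval b ∈ A) (hSK : ∀ b ∈ S, b ∈ K) (huK : u ∈ K) (hu0 : u ≠ 0)
    {Z : Finset F} (hZ : Z ⊆ S) {b : F} (hb : b ∈ S) :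
    PZ g D Z b ∈ K ∧ PZ g D Z b ≠ 0 ∧ lam (PZ g D Z b) =
      ∑ c ∈ S.filter (fun c => g.eval c ≠ g.eval b), lam (b - c) *
        ((if b ∈ Z then 1 else 0) + (if c ∈ Z then 1 else 0)) := by
  have hne : ∀ c, g.eval c ≠ g.eval b → b - c ≠ 0 := by
    intro c hc h0
    rw [sub_eq_zero] at h0
    exact hc (by rw [h0])
  have hT : ∀ c ∈ Z.filter (fun β => g.eval β ≠ g.eval b), b - c ∈ K ∧ b - c ≠ 0 := by
    intro c hc
    rw [Finset.mem_filter] at hc
    exact ⟨K.sub_mem (hSK b hb) (hSK c (hZ hc.1)), hne c hc.2⟩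
  have hT' : ∀ c ∈ S.filter (fun β => g.eval β ≠ g.eval b), b - c ∈ K ∧ b - c ≠ 0 := by
    intro c hc
    rw [Finset.mem_filter] at hc
    exact ⟨K.sub_mem (hSK b hb) (hSK c hc.1), hne c hc.2⟩
  have hd := deriv_eq7 hDA hgS hSA hb
  have hdK : (derivative D).eval (g.eval b) ∈ K := by
    rw [hd]
    exact K.mul_mem huK (K.prod_mem fun c hc => (hT' c hc).1)
  have hd0 : (derivative D).eval (g.eval b) ≠ 0 := by
    rw [hd]
    exact mul_ne_zero hu0 (Finset.prod_ne_zero_iff.mpr fun c hc => (hT' c hc).2)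
  have hlam : lam (-(derivative D).eval (g.eval b)) =
      ∑ c ∈ S.filter (fun c => g.eval c ≠ g.eval b), lam (b - c) := by
    rw [← neg_one_mul, h.mul _ (K.neg_mem K.one_mem) _ hdK (neg_ne_zero.mpr one_ne_zero) hd0, h.neg,
      zero_add, hd, h.mul _ huK _ (K.prod_mem fun c hc => (hT' c hc).1) hu0
        (Finset.prod_ne_zero_iff.mpr fun c hc => (hT' c hc).2), h.lc, zero_add,
      h.prod _ _ (fun c hc => (hT' c hc).1) fun c hc => (hT' c hc).2]
  have hsum : ∑ c ∈ Z.filter (fun c => g.eval c ≠ g.eval b), lam (b - c) =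
      ∑ c ∈ S.filter (fun c => g.eval c ≠ g.eval b), lam (b - c) * (if c ∈ Z then 1 else 0) := by
    have h1 : Z.filter (fun c => g.eval c ≠ g.eval b) =
        (S.filter (fun c => g.eval c ≠ g.eval b)).filter (fun c => c ∈ Z) := by
      ext c
      simp only [Finset.mem_filter]
      constructor
      · exact fun h => ⟨⟨hZ h.1, h.2⟩, h.1⟩
      · exact fun h => ⟨h.2, h.1.2⟩
    rw [h1, Finset.sum_filter]
    refine Finset.sum_congr rfl fun c _ => ?_
    split_ifs <;> simp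
  have hP1 : (∏ β ∈ Z.filter (fun β => g.eval β ≠ g.eval b), (b - β)) ∈ K :=
    K.prod_mem fun c hc => (hT c hc).1
  have hP2 : (∏ β ∈ Z.filter (fun β => g.eval β ≠ g.eval b), (b - β)) ≠ 0 :=
    Finset.prod_ne_zero_iff.mpr fun c hc => (hT c hc).2
  rw [PZ]
  split_ifs with hbZ
  · refine ⟨K.mul_mem hP1 (K.neg_mem hdK), mul_ne_zero hP2 (neg_ne_zero.mpr hd0), ?_⟩
    rw [h.mul _ hP1 _ (K.neg_mem hdK) hP2 (neg_ne_zero.mpr hd0), hlam,
      h.prod _ _ (fun c hc => (hT c hc).1) (fun c hc => (hT c hc).2), hsum, ← Finset.sum_add_distrib]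
    refine Finset.sum_congr rfl fun c _ => ?_
    ring
  · rw [mul_one]
    refine ⟨hP1, hP2, ?_⟩
    rw [h.prod _ _ (fun c hc => (hT c hc).1) (fun c hc => (hT c hc).2), hsum]
    refine Finset.sum_congr rfl fun c _ => ?_
    rw [zero_add]

/-- The symbol of `PZ1`. -/
theorem lam_PZ17 (h : Symb7 K S g u lam) (hDA : D = C u * ∏ α ∈ A, (X - C α))
    (hgS : ∀ α ∈ A, g - C α = ∏ b ∈ S.filter (fun b => g.eval b = α), (X - C b))
    (hSA : ∀ b ∈ S, g.eval b ∈ A) (hSK : ∀ b ∈ S, b ∈ K) (huK : u ∈ K) (hu0 : u ≠ 0)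
    {Z : Finset F} (hZ : Z ⊆ S) {b : F} (hb : b ∈ S) :
    PZ1 g D Z b ∈ K ∧ PZ1 g D Z b ≠ 0 ∧ lam (PZ1 g D Z b) =
      ∑ c ∈ S.filter (fun c => g.eval c ≠ g.eval b), lam (b - c) *
        ((if b ∈ Z then 1 else 0) + (if c ∈ Z then 1 else 0)) := by
  obtain ⟨h1, h2, h3⟩ := lam_PZ7 h hDA hgS hSA hSK huK hu0 hZ hb
  have hroot : (g - C (g.eval b)).roots.toFinset = S.filter (fun c => g.eval c = g.eval b) := by
    rw [hgS _ (hSA b hb), roots_prod_X_sub_C, Finset.val_toFinset]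
  have hT : ∀ c ∈ (g - C (g.eval b)).roots.toFinset.filter (fun c => c ≠ b ∧ (c ∈ Z ↔ b ∉ Z)),
      c ∈ S ∧ g.eval c = g.eval b ∧ c ≠ b := by
    intro c hc
    rw [hroot, Finset.mem_filter, Finset.mem_filter] at hc
    exact ⟨hc.1.1, hc.1.2, hc.2.1⟩
  have hTK : ∀ c ∈ (g - C (g.eval b)).roots.toFinset.filter (fun c => c ≠ b ∧ (c ∈ Z ↔ b ∉ Z)),
      b - c ∈ K := fun c hc => K.sub_mem (hSK b hb) (hSK c (hT c hc).1)
  have hT0 : ∀ c ∈ (g - C (g.eval b)).roots.toFinset.filter (fun c => c ≠ b ∧ (c ∈ Z ↔ b ∉ Z)),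
      b - c ≠ 0 := fun c hc => sub_ne_zero.mpr (hT c hc).2.2.symm
  rw [PZ1]
  refine ⟨K.mul_mem h1 (K.prod_mem hTK), mul_ne_zero h2 (Finset.prod_ne_zero_iff.mpr hT0), ?_⟩
  have h4 : ∑ c ∈ (g - C (g.eval b)).roots.toFinset.filter (fun c => c ≠ b ∧ (c ∈ Z ↔ b ∉ Z)),
      lam (b - c) = 0 := Finset.sum_eq_zero fun c hc =>
    h.fib b hb c (hT c hc).1 (hT c hc).2.2.symm (hT c hc).2.1.symm
  rw [h.mul _ h1 _ (K.prod_mem hTK) h2 (Finset.prod_ne_zero_iff.mpr hT0), h.prod _ _ hTK hT0, h3,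
    h4, add_zero]

/-- A symbol whose Laplacian has no eigenvalue gives a Rédei map without eigenvalue. -/
theorem noEigen_of_lam7 (hroots : (D.comp g).roots.toFinset = S) {N : F → Prop} {P : Finset F → F → F}
    (hN : ∀ Z ⊆ S, ∀ b ∈ S, (N (P Z b) ↔ ∑ c ∈ S.filter (fun c => g.eval c ≠ g.eval b),
      lam (b - c) * ((if b ∈ Z then 1 else 0) + (if c ∈ Z then 1 else 0)) = 1))
    (hpat : ∀ z : F → ZMod 2, (∀ b ∈ S, ∑ c ∈ S.filter (fun c => g.eval c = g.eval b), z c = 0) →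
      ∀ ε : ZMod 2, (∀ b ∈ S, ∑ c ∈ S.filter (fun c => g.eval c ≠ g.eval b),
        lam (b - c) * (z b + z c) = ε * z b) → ∀ b ∈ S, z b = 0) :
    NoEigen N P g D := by
  intro Z hZ heven hne
  rw [hroots] at hZ
  have hz : ∀ b ∈ S, ∑ c ∈ S.filter (fun c => g.eval c = g.eval b),
      (if c ∈ Z then 1 else 0 : ZMod 2) = 0 := by
    intro b hb
    rw [Finset.sum_ite_mem, Finset.sum_const, nsmul_eq_mul, mul_one]
    have h1 : (S.filter fun c => g.eval c = g.eval b) ∩ Z = Z.filter fun c => g.eval c = g.eval b := by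
      ext c
      rw [Finset.mem_inter, Finset.mem_filter, Finset.mem_filter]
      constructor
      · exact fun h => ⟨h.2, h.1.2⟩
      · exact fun h => ⟨⟨hZ h.1, h.2⟩, h.1⟩
    rw [h1]
    exact (ZMod.natCast_eq_zero_iff_even).mpr (heven _)
  have hcon : ∀ ε : ZMod 2, ¬ ∀ b ∈ S, ∑ c ∈ S.filter (fun c => g.eval c ≠ g.eval b),
      lam (b - c) * ((if b ∈ Z then 1 else 0) + (if c ∈ Z then 1 else 0)) =
        ε * (if b ∈ Z then 1 else 0) := by
    intro ε hε
    obtain ⟨b, hb⟩ := hne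
    have h1 := hpat (fun b => if b ∈ Z then 1 else 0) hz ε hε b (hZ hb)
    rw [if_pos hb] at h1
    exact one_ne_zero h1
  have h01 : ∀ x : ZMod 2, x = 0 ∨ x = 1 := by decide
  constructor
  · intro h1
    apply hcon 0
    intro b hb
    rw [zero_mul]
    rcases h01 (∑ c ∈ S.filter (fun c => g.eval c ≠ g.eval b),
      lam (b - c) * ((if b ∈ Z then 1 else 0) + (if c ∈ Z then 1 else 0))) with h3 | h3
    · exact h3
    · exfalso
      have h4 : b ∈ redei N P (D.comp g) Z := by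
        rw [redei, Finset.mem_filter, hroots]
        exact ⟨hb, (hN Z hZ b hb).mpr h3⟩
      rw [h1] at h4
      exact absurd h4 (Finset.notMem_empty b)
  · intro h1
    apply hcon 1
    intro b hb
    rw [one_mul]
    have h4 : b ∈ redei N P (D.comp g) Z ↔ ∑ c ∈ S.filter (fun c => g.eval c ≠ g.eval b),
      lam (b - c) * ((if b ∈ Z then 1 else 0) + (if c ∈ Z then 1 else 0)) = 1 := by
      rw [redei, Finset.mem_filter, hroots, hN Z hZ b hb]
      exact ⟨fun h => h.2, fun h => ⟨hb, h⟩⟩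
    rw [h1] at h4
    split_ifs with hbZ
    · have := h4.mp hbZ
      rwa [if_pos hbZ] at this
    · rcases h01 (∑ c ∈ S.filter (fun c => g.eval c ≠ g.eval b),
        lam (b - c) * ((if b ∈ Z then 1 else 0) + (if c ∈ Z then 1 else 0))) with h3 | h3
      · rwa [if_neg hbZ] at h3
      · exact absurd (h4.mpr h3) hbZ

end Pool.Agent.Lib.MP_89bcae_ag
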