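import Mathlib
import Pool.Agent.Lib.MP_89bcae_ag.DefsArr
import Pool.Agent.Lib.MP_89bcae_ag.BasL8
import Pool.Agent.Lib.MP_89bcae_ag.Lns.GA10
import Pool.Agent.Lib.MP_89bcae_ag.LIndE14

/-!
# Lines with integral coefficients: density one
-/

open Polynomial Filter Topology

open scoped Classical

set_option linter.unusedSimpArgs false
set_option linter.unusedVariables false
set_option linter.unusedSectionVars false
set_option linter.style.haveILetI false

namespace Pool.Agent.Lib.MP_89bcae_ag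

open Superelliptic

/-- Monotonicity of density one. -/
theorem density_mono8 {κ : Type} [Fintype κ] (N : ℕ) (hN : Fintype.card κ = N)
    {P Q : (κ → ℤ) → Prop} (hPQ : ∀ v, P v → Q v)
    (h : Tendsto (fun H : ℕ => ({v : κ → ℤ | (∀ i, |v i| ≤ H) ∧ P v}.ncard : ℝ) /
      (2 * H + 1) ^ N) atTop (𝓝 1)) :
    Tendsto (fun H : ℕ => ({v : κ → ℤ | (∀ i, |v i| ≤ H) ∧ Q v}.ncard : ℝ) /
      (2 * H + 1) ^ N) atTop (𝓝 1) := by
  have hbox : ∀ H : ℕ, {v : κ → ℤ | ∀ i, |v i| ≤ H} =
      ((Fintype.piFinset fun _ : κ => Finset.Icc (-(H : ℤ)) H : Finset (κ → ℤ)) :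
        Set (κ → ℤ)) := by
    intro H
    ext v
    rw [Finset.mem_coe, Fintype.mem_piFinset]
    refine forall_congr' fun i => ?_
    rw [Finset.mem_Icc]
    exact abs_le
  have hfin : ∀ (H : ℕ) (R : (κ → ℤ) → Prop), ({v : κ → ℤ | (∀ i, |v i| ≤ H) ∧ R v}).Finite := by
    intro H R
    refine Set.Finite.subset (Finset.finite_toSet
      (Fintype.piFinset fun _ : κ => Finset.Icc (-(H : ℤ)) H)) ?_
    rw [← hbox]
    exact fun v hv => hv.1
  have hcard : ∀ H : ℕ, ({v : κ → ℤ | ∀ i, |v i| ≤ H}).ncard = (2 * H + 1) ^ N := by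
    intro H
    rw [hbox, Set.ncard_coe_finset, Fintype.card_piFinset]
    rw [Finset.prod_const, Finset.card_univ, hN, Int.card_Icc]
    congr 1
    omega
  refine tendsto_of_tendsto_of_tendsto_of_le_of_le h tendsto_const_nhds (fun H => ?_) fun H => ?_
  · have hpos : (0 : ℝ) < (2 * (H : ℝ) + 1) ^ N := by positivity
    rw [div_le_div_iff_of_pos_right hpos]
    have h1 : ({v : κ → ℤ | (∀ i, |v i| ≤ H) ∧ P v}).ncard ≤
        ({v : κ → ℤ | (∀ i, |v i| ≤ H) ∧ Q v}).ncard :=
      Set.ncard_le_ncard (fun v (hv : (∀ i, |v i| ≤ H) ∧ P v) => ⟨hv.1, hPQ v hv.2⟩) (hfin H Q)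
    exact_mod_cast h1
  · have hpos : (0 : ℝ) < (2 * (H : ℝ) + 1) ^ N := by positivity
    rw [div_le_one hpos]
    have h1 : ({v : κ → ℤ | (∀ i, |v i| ≤ H) ∧ Q v}).ncard ≤
        ({v : κ → ℤ | ∀ i, |v i| ≤ H}).ncard := by
      refine Set.ncard_le_ncard (fun v hv => hv.1) ?_
      rw [hbox]
      exact Finset.finite_toSet _
    rw [hcard] at h1
    exact_mod_cast h1

section

variable {ι : Type}

lemma integralLines_map8 (K : Type) [Field K] [Algebra ℚ K] (v : ι ⊕ ι → ℤ) (i : ι) :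
    (integralLines v i).map (algebraMap ℚ K) =
      C (v (Sum.inl i) : K) + C (v (Sum.inr i) : K) * X := by
  unfold integralLines
  rw [Polynomial.map_add, Polynomial.map_mul, map_C, map_C, map_X]
  have h1 : ∀ n : ℤ, algebraMap ℚ K (n : ℚ) = (n : K) := fun n => map_intCast (algebraMap ℚ K) n
  rw [h1, h1]

variable [Fintype ι] [LinearOrder ι]

lemma isArrangement_of_map8 {k K : Type} [Field k] [Field K] [Algebra k K]
    {α : ι → k[X]} (h : IsArrangement fun i => (α i).map (algebraMap k K)) :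
    IsArrangement α := by
  refine ⟨?_, fun i j hij => ?_⟩
  · have h1 := h.separable
    have h2 : (∏ i, ∏ j ∈ Finset.univ.filter fun j => i < j,
        ((α i).map (algebraMap k K) - (α j).map (algebraMap k K))) =
        (∏ i, ∏ j ∈ Finset.univ.filter fun j => i < j, (α i - α j)).map (algebraMap k K) := by
      rw [Polynomial.map_prod]
      refine Finset.prod_congr rfl fun i _ => ?_
      rw [Polynomial.map_prod]
      refine Finset.prod_congr rfl fun j _ => ?_
      rw [Polynomial.map_sub]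
    rw [h2, Polynomial.separable_map] at h1
    exact h1
  · have h1 := h.natDegree_ne_zero i j hij
    rw [← Polynomial.map_sub, natDegree_map] at h1
    exact h1

/-- The conclusion for one `v`, from the statement over the cyclotomic field. -/
theorem lines_of_indep8 {ℓ : ℕ} (hℓ : ℓ.Prime) (F L Ω : Type) [Field F] [Algebra ℚ F]
    [IsAlgClosure ℚ F] [Field L] [Algebra F[X] L] [IsFractionRing F[X] L] [Field Ω] [Algebra L Ω]
    [IsAlgClosure L Ω] (hcop : (Fintype.card ι).Coprime ℓ) (K : Type) [Field K] [Algebra ℚ K]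
    [IsCyclotomicExtension {ℓ} ℚ K] [Algebra K F] [IsScalarTower ℚ K F]
    (v : ι ⊕ ι → ℤ)
    (h1 : IsArrangement fun i : ι => (C (v (Sum.inl i) : K) + C (v (Sum.inr i) : K) * X : K[X]))
    (h2 : ArrangementIndependent ℓ K F
      fun i : ι => (C (v (Sum.inl i) : K) + C (v (Sum.inr i) : K) * X : K[X])) :
    IsArrangement (integralLines v) ∧ ∀ k' : IntermediateField ℚ F, FiniteDimensional ℚ k' →
      TateClassesTorsion ℓ L Ω (integralLines v) k' := by
  haveI : NeZero ℓ := ⟨hℓ.ne_zero⟩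
  have hF : IsAlgClosed F := IsAlgClosure.isAlgClosed ℚ
  have hQF : Algebra.IsAlgebraic ℚ F := IsAlgClosure.isAlgebraic
  haveI hKFa : Algebra.IsAlgebraic K F := Algebra.IsAlgebraic.tower_top (K := ℚ) K
  haveI : IsAlgClosure K F := ⟨hF, hKFa⟩
  haveI : CharZero K := algebraRat.charZero K
  have hζ : IsPrimitiveRoot (IsCyclotomicExtension.zeta ℓ ℚ K) ℓ :=
    IsCyclotomicExtension.zeta_spec ℓ ℚ K
  have e1 : (fun i : ι => (C (v (Sum.inl i) : K) + C (v (Sum.inr i) : K) * X : K[X])) =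
      fun i => (integralLines v i).map (algebraMap ℚ K) := by
    funext i
    rw [integralLines_map8]
  refine ⟨isArrangement_of_map8 (K := K) (by rw [← e1]; exact h1), ?_⟩
  intro k' hk'
  obtain ⟨K', hK', hle⟩ := exists_finite8 (K := K) k'
  refine tateClassesTorsion_base8 (K := K) hle ?_
  rw [← e1]
  exact Sup.Lns.arrangement F L Ω hℓ (by exact_mod_cast hℓ.ne_zero) hζ _ h1 hcop h2 K'

omit [Fintype ι] [LinearOrder ι] in
/-- The brackets of a subset of the lines. -/
lemma brk_sub8 (I : Finset ι) (v : ι ⊕ ι → ℤ) (x y z : Option I) :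
    brk14 (fun p : I ⊕ I => v (Sum.map Subtype.val Subtype.val p)) x y z =
      brk14 v (x.map Subtype.val) (y.map Subtype.val) (z.map Subtype.val) := by
  have hc : ∀ x : Option I, pc14 ℤ (x.map Subtype.val) = pc14 ℤ x := by
    rintro (_ | i) <;> rfl
  have ha : ∀ x : Option I, pa14 v (x.map Subtype.val) =
      pa14 (fun p : I ⊕ I => v (Sum.map Subtype.val Subtype.val p)) x := by
    rintro (_ | i) <;> rfl
  have hb : ∀ x : Option I, pb14 v (x.map Subtype.val) =
      pb14 (fun p : I ⊕ I => v (Sum.map Subtype.val Subtype.val p)) x := by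
    rintro (_ | i) <;> rfl
  unfold brk14
  rw [hc, hc, hc, ha, ha, ha, hb, hb, hb]

omit [Fintype ι] [LinearOrder ι] in
lemma onlyBrk_sub8 (I : Finset ι) {v : ι ⊕ ι → ℤ} {p : ℕ} {i j l : I}
    (h : OnlyBrk14 p (some i.1) (some j.1) (some l.1) v) :
    OnlyBrk14 p (some i) (some j) (some l)
      (fun p : I ⊕ I => v (Sum.map Subtype.val Subtype.val p)) := by
  obtain ⟨h1, h2, h3⟩ := h
  have hinj : Function.Injective (Option.map (Subtype.val : I → ι)) :=
    Option.map_injective Subtype.val_injective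
  refine ⟨by rw [brk_sub8]; exact h1, by rw [brk_sub8]; exact h2, ?_⟩
  intro x y z hxy hyz hxz hno
  rw [brk_sub8]
  refine h3 _ _ _ (fun hh => hxy (hinj hh)) (fun hh => hyz (hinj hh)) (fun hh => hxz (hinj hh)) ?_
  have hmem : ∀ w : Option I, w.map Subtype.val ∈
      ({some i.1, some j.1, some l.1} : Set (Option ι)) →
      w ∈ ({some i, some j, some l} : Set (Option I)) := by
    rintro (_ | w) hw
    · simp at hw
    · simp only [Option.map_some, Set.mem_insert_iff, Set.mem_singleton_iff, Option.some.injEq,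
        Subtype.val_inj] at hw ⊢
      exact hw
  exact fun hh => hno ⟨hmem x hh.1, hmem y hh.2.1, hmem z hh.2.2⟩

/-- **Density one**, with the cyclotomic field as an argument. -/
theorem linesDensity8' {ℓ : ℕ} (hℓ : ℓ.Prime) (F L Ω : Type) [Field F] [Algebra ℚ F]
    [IsAlgClosure ℚ F] [Field L] [Algebra F[X] L] [IsFractionRing F[X] L] [Field Ω] [Algebra L Ω]
    [IsAlgClosure L Ω] (K : Type) [Field K] [Algebra ℚ K] [IsCyclotomicExtension {ℓ} ℚ K] :
    Tendsto (fun H : ℕ => ({v : ι ⊕ ι → ℤ | (∀ i, |v i| ≤ H) ∧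
      (IsArrangement (integralLines v) ∧
        ∀ I : Finset ι, 4 ≤ I.card → I.card.Coprime ℓ →
          ∀ k' : IntermediateField ℚ F, FiniteDimensional ℚ k' →
            TateClassesTorsion ℓ L Ω (fun i : I => integralLines v i) k')}.ncard : ℝ) /
      (2 * H + 1) ^ Fintype.card (ι ⊕ ι)) atTop (𝓝 1) := by
  haveI : NeZero ℓ := ⟨hℓ.ne_zero⟩
  have hF : IsAlgClosed F := IsAlgClosure.isAlgClosed ℚ
  haveI hfin : FiniteDimensional ℚ K := IsCyclotomicExtension.finiteDimensional {ℓ} ℚ K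
  let e : K →ₐ[ℚ] F := IsAlgClosed.lift
  letI : Algebra K F := e.toRingHom.toAlgebra
  haveI : IsScalarTower ℚ K F := IsScalarTower.of_algebraMap_eq fun x => (e.commutes x).symm
  refine density_mono8 (Fintype.card (ι ⊕ ι)) rfl ?_ (linesDensityGen14 (ι := ι) hℓ)
  rintro v ⟨hv1, hv2⟩
  have key : ∀ I : Finset ι, 4 ≤ I.card → I.card.Coprime ℓ →
      IsArrangement (integralLines
        (fun p : I ⊕ I => v (Sum.map Subtype.val Subtype.val p))) ∧
      ∀ k' : IntermediateField ℚ F, FiniteDimensional ℚ k' → TateClassesTorsion ℓ L Ω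
        (integralLines (fun p : I ⊕ I => v (Sum.map Subtype.val Subtype.val p))) k' := by
    intro I hI hIc
    have hcI : Fintype.card I = I.card := Fintype.card_coe I
    have hGI : GenZ14 (fun p : I ⊕ I => v (Sum.map Subtype.val Subtype.val p)) := by
      refine ⟨fun i j hij => hv2.slope i.1 j.1 (fun hh => hij (Subtype.ext hh)), ?_⟩
      intro i j l m hij hlm h1 h2
      exact hv2.node i.1 j.1 l.1 m.1 (fun hh => hij (Subtype.ext hh))
        (fun hh => hlm (Subtype.ext hh)) (fun hh => h1 ⟨Subtype.ext hh.1, Subtype.ext hh.2⟩)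
        (fun hh => h2 ⟨Subtype.ext hh.1, Subtype.ext hh.2⟩)
    obtain ⟨h1, h2⟩ := linesIndep14 (ι := I) hℓ (by rw [hcI]; exact hI) (by rw [hcI]; exact hIc) hGI
      (fun i j l hij hjl hil => by
        obtain ⟨p, hp, hp1, hpo⟩ := hv1 (some i.1) (some j.1) (some l.1)
          (fun hh => hij (Subtype.ext (Option.some.inj hh)))
          (fun hh => hjl (Subtype.ext (Option.some.inj hh)))
          (fun hh => hil (Subtype.ext (Option.some.inj hh)))
        exact ⟨p, hp, hp1, onlyBrk_sub8 I hpo⟩) K F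
    exact lines_of_indep8 hℓ F L Ω (by rw [hcI]; exact hIc) K _ h1 h2
  exact ⟨(hv2.gen ℚ).isArrangement, fun I hI hIc k' hk' => (key I hI hIc).2 k' hk'⟩

end

/-- **Density one.** -/
theorem linesDensity8 {ℓ : ℕ} (hℓ : ℓ.Prime) (F L Ω : Type) [Field F] [Algebra ℚ F]
    [IsAlgClosure ℚ F] [Field L] [Algebra F[X] L] [IsFractionRing F[X] L] [Field Ω] [Algebra L Ω]
    [IsAlgClosure L Ω] (m : ℕ) :
    Tendsto (fun H : ℕ => ({v : Fin m ⊕ Fin m → ℤ | (∀ i, |v i| ≤ H) ∧
      (IsArrangement (integralLines v) ∧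
        ∀ I : Finset (Fin m), 4 ≤ I.card → I.card.Coprime ℓ →
          ∀ k' : IntermediateField ℚ F, FiniteDimensional ℚ k' →
            TateClassesTorsion ℓ L Ω (fun i : I => integralLines v i) k')}.ncard : ℝ) /
      (2 * H + 1) ^ (2 * m)) atTop (𝓝 1) := by
  haveI : NeZero ℓ := ⟨hℓ.ne_zero⟩
  have h1 : Fintype.card (Fin m ⊕ Fin m) = 2 * m := by
    rw [Fintype.card_sum, Fintype.card_fin, two_mul]
  have h2 := @linesDensity8' (Fin m) _ _ ℓ hℓ F L Ω _ _ _ _ _ _ _ _ _ (CyclotomicField ℓ ℚ) _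
    (CyclotomicField.algebra ℓ ℚ) inferInstance
  rw [h1] at h2
  exact h2

end Pool.Agent.Lib.MP_89bcae_ag
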