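import Mathlib
import Pool.Agent.Lib.MP_89bcae_ag.LPrjC14
import Pool.Agent.Lib.MP_89bcae_ag.LPrjN14
import Pool.Agent.Lib.MP_89bcae_ag.BasW45
import Pool.Agent.Lib.MP_89bcae_ag.Wl.GA10
import Pool.Agent.Lib.MP_89bcae_ag.BrgN8

/-!
# The density one theorem for lines of the projective plane, for all primes `ℓ` at the same time
-/

open Polynomial Filter Topology

open scoped Classical

set_option linter.unusedSimpArgs false
set_option linter.unusedVariables false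
set_option linter.unusedSectionVars false
set_option linter.style.haveILetI false

namespace Pool.Agent.Lib.MP_89bcae_ag

open Superelliptic

/-- Monotonicity of density one. -/
theorem density_monoN14 {κ : Type} [Fintype κ] (N : ℕ) (hN : Fintype.card κ = N)
    {P Q : (κ → ℤ) → Prop} (hPQ : ∀ v, P v → Q v)
    (h : Tendsto (fun H : ℕ => ({v : κ → ℤ | (∀ i, |v i| ≤ H) ∧ P v}.ncard : ℝ) /
      (2 * H + 1) ^ N) atTop (𝓝 1)) :
    Tendsto (fun H : ℕ => ({v : κ → ℤ | (∀ i, |v i| ≤ H) ∧ Q v}.ncard : ℝ) /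
      (2 * H + 1) ^ N) atTop (𝓝 1) := by
  have hbox : ∀ H : ℕ, {v : κ → ℤ | ∀ i, |v i| ≤ H} =
      ((Fintype.piFinset fun _ : κ => Finset.Icc (-(H : ℤ)) H : Finset (κ → ℤ)) :
        Set (κ → ℤ)) := by
    intro H
    ext v
    rw [Finset.mem_coe, Fintype.mem_piFinset]
    refine forall_congr' fun i => ?_
    rw [Finset.mem_Icc]
    exact abs_le
  have hfin : ∀ (H : ℕ) (R : (κ → ℤ) → Prop), ({v : κ → ℤ | (∀ i, |v i| ≤ H) ∧ R v}).Finite := by
    intro H R
    refine Set.Finite.subset (Finset.finite_toSet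
      (Fintype.piFinset fun _ : κ => Finset.Icc (-(H : ℤ)) H)) ?_
    rw [← hbox]
    exact fun v hv => hv.1
  have hcard : ∀ H : ℕ, ({v : κ → ℤ | ∀ i, |v i| ≤ H}).ncard = (2 * H + 1) ^ N := by
    intro H
    rw [hbox, Set.ncard_coe_finset, Fintype.card_piFinset]
    rw [Finset.prod_const, Finset.card_univ, hN, Int.card_Icc]
    congr 1
    omega
  refine tendsto_of_tendsto_of_tendsto_of_le_of_le h tendsto_const_nhds (fun H => ?_) fun H => ?_
  · have hpos : (0 : ℝ) < (2 * (H : ℝ) + 1) ^ N := by positivity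
    rw [div_le_div_iff_of_pos_right hpos]
    have h1 : ({v : κ → ℤ | (∀ i, |v i| ≤ H) ∧ P v}).ncard ≤
        ({v : κ → ℤ | (∀ i, |v i| ≤ H) ∧ Q v}).ncard :=
      Set.ncard_le_ncard (fun v (hv : (∀ i, |v i| ≤ H) ∧ P v) => ⟨hv.1, hPQ v hv.2⟩) (hfin H Q)
    exact_mod_cast h1
  · have hpos : (0 : ℝ) < (2 * (H : ℝ) + 1) ^ N := by positivity
    rw [div_le_one hpos]
    have h1 : ({v : κ → ℤ | (∀ i, |v i| ≤ H) ∧ Q v}).ncard ≤
        ({v : κ → ℤ | ∀ i, |v i| ≤ H}).ncard := by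
      refine Set.ncard_le_ncard (fun v hv => hv.1) ?_
      rw [hbox]
      exact Finset.finite_toSet _
    rw [hcard] at h1
    exact_mod_cast h1

/-- The property at one prime `ℓ` and one family of lines, with the cyclotomic field as an argument. -/
theorem tateClassesTorsionN14 {ι : Type} [Fintype ι] [LinearOrder ι] {v : ι × Fin 3 → ℤ}
    (hv : ∀ x y z : ι, x ≠ y → y ≠ z → x ≠ z → ∃ p : ℕ, p.Prime ∧ OnlyPbr14 p x y z v)
    {ℓ : ℕ} (hℓ : ℓ.Prime) (F L Ω : Type) [Field F] [Algebra ℚ F]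
    [IsAlgClosure ℚ F] [Field L] [Algebra F[X] L] [IsFractionRing F[X] L] [Field Ω] [Algebra L Ω]
    [IsAlgClosure L Ω] (K : Type) [Field K] [Algebra ℚ K] [IsCyclotomicExtension {ℓ} ℚ K]
    (i₀ : ι) (g : Matrix (Fin 3) (Fin 3) ℚ) (I : Finset ι) (hg : IsChart v g i₀ I)
    (harr : IsArrangement fun i : I => linePoly v g i) (hI : 4 ≤ I.card)
    (W : I → ℕ) (hW : ∀ i, (W i).Coprime ℓ) (hs : (∑ i, W i).Coprime ℓ)
    (k' : IntermediateField ℚ F) (hk' : FiniteDimensional ℚ k') :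
    Nrm.TateClassesTorsionW ℓ L Ω W (fun i : I => linePoly v g i) k' := by
  haveI : NeZero ℓ := ⟨hℓ.ne_zero⟩
  have hF : IsAlgClosed F := IsAlgClosure.isAlgClosed ℚ
  haveI hfin : FiniteDimensional ℚ K := IsCyclotomicExtension.finiteDimensional {ℓ} ℚ K
  let e : K →ₐ[ℚ] F := IsAlgClosed.lift
  letI : Algebra K F := e.toRingHom.toAlgebra
  haveI : IsScalarTower ℚ K F := IsScalarTower.of_algebraMap_eq fun x => (e.commutes x).symm
  have hi₀ : i₀ ∉ I := fun h => hg.ne_zero i₀ h hg.at_infinity.1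
  obtain ⟨h1, h2⟩ := prjIndepN14 hℓ hv hi₀ hI hg W hW hs harr K F
  exact tateClassesTorsionN8 (Wt.tateClassesTorsionW_of_cyclotomic45 hℓ F L Ω K W _
    (fun hcl h0 ζ hζ K' hK' => by
      haveI := hcl
      haveI := hK'
      exact Wt.Lns.arrangementW F L Ω hℓ h0 hζ W hW hs _ h1 h2 K') k' hk')

/-- **The density one theorem**, for all primes `ℓ` at the same time. -/
theorem lineCoversN14 (F L Ω : Type) [Field F] [Algebra ℚ F]
    [IsAlgClosure ℚ F] [Field L] [Algebra F[X] L] [IsFractionRing F[X] L] [Field Ω] [Algebra L Ω]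
    [IsAlgClosure L Ω] (m : ℕ) (hm : 3 ≤ m) :
    Tendsto (fun H : ℕ => ({v : Fin m × Fin 3 → ℤ | (∀ i, |v i| ≤ H) ∧
      ((∀ i₀, ∃ g : Matrix (Fin 3) (Fin 3) ℚ, IsChart v g i₀ (Finset.univ.erase i₀) ∧
        IsArrangement fun i : (Finset.univ.erase i₀ : Finset (Fin m)) => linePoly v g i) ∧
      ∀ ℓ : ℕ, ℓ.Prime →
        ∀ (i₀ : Fin m) (g : Matrix (Fin 3) (Fin 3) ℚ) (I : Finset (Fin m)), IsChart v g i₀ I →
        (IsArrangement fun i : I => linePoly v g i) → 4 ≤ I.card →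
        ∀ W : I → ℕ, (∀ i, (W i).Coprime ℓ) → (∑ i, W i).Coprime ℓ →
          ∀ k' : IntermediateField ℚ F, FiniteDimensional ℚ k' →
            Nrm.TateClassesTorsionW ℓ L Ω W (fun i : I => linePoly v g i) k')}.ncard : ℝ) /
      (2 * H + 1) ^ (3 * m)) atTop (𝓝 1) := by
  have hcard : Fintype.card (Fin m × Fin 3) = 3 * m := by
    rw [Fintype.card_prod, Fintype.card_fin, Fintype.card_fin, mul_comm]
  have hd := prjDensity14 (ι := Fin m) 1 0
  rw [hcard] at hd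
  refine density_monoN14 (3 * m) hcard ?_ hd
  intro v hv
  have hv' : ∀ x y z : Fin m, x ≠ y → y ≠ z → x ≠ z → ∃ p : ℕ, p.Prime ∧ OnlyPbr14 p x y z v := by
    intro x y z hxy hyz hxz
    obtain ⟨p, hp, -, -, hpo⟩ := hv x y z hxy hyz hxz
    exact ⟨p, hp, hpo⟩
  refine ⟨fun i₀ => exists_chart14 (fun x y z hxy hyz hxz h0 => ?_)
    (by rw [Fintype.card_fin]; exact hm) i₀, ?_⟩
  · obtain ⟨p, -, -, h3, -⟩ := hv' x y z hxy hyz hxz
    apply h3
    rw [h0]
    exact dvd_zero _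
  · intro ℓ hℓ i₀ g I hg harr hI W hW hs k' hk'
    haveI : NeZero ℓ := ⟨hℓ.ne_zero⟩
    exact @tateClassesTorsionN14 (Fin m) _ _ v hv' ℓ hℓ F L Ω _ _ _ _ _ _ _ _ _
      (CyclotomicField ℓ ℚ) _ (CyclotomicField.algebra ℓ ℚ) inferInstance i₀ g I hg harr hI W hW
      hs k' hk'

end Pool.Agent.Lib.MP_89bcae_ag
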