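import Mathlib
import Pool.Agent.Lib.MP_89bcae_ag.DefsM8
import Pool.Agent.Lib.MP_89bcae_ag.LprN14

/-!
# Lines of the projective plane whose brackets have private primes
-/

open Polynomial Filter Topology

open scoped Classical

set_option linter.unusedVariables false
set_option linter.style.haveILetI false

namespace Pool.Agent.Lib.MP_89bcae_ag

open Superelliptic

section

variable {ι : Type}

lemma bracket_eq8 (v : ι × Fin 3 → ℤ) (i j k : ι) : bracket v i j k = pbr14 v i j k := by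
  unfold bracket pbr14
  rw [Matrix.det_fin_three]
  simp
  ring

lemma set_three_ne8 {i j k a b c : ι} (hab : a ≠ b) (hbc : b ≠ c) (hac : a ≠ c) :
    ({a, b, c} : Set ι) ≠ {i, j, k} ↔
      ¬ (a ∈ ({i, j, k} : Set ι) ∧ b ∈ ({i, j, k} : Set ι) ∧ c ∈ ({i, j, k} : Set ι)) := by
  refine not_congr ⟨fun h => ?_, fun h => ?_⟩
  · rw [← h]
    simp
  · obtain ⟨h1, h2, h3⟩ := h
    simp only [Set.mem_insert_iff, Set.mem_singleton_iff] at h1 h2 h3
    ext x
    simp only [Set.mem_insert_iff, Set.mem_singleton_iff]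
    constructor
    · rintro (rfl | rfl | rfl) <;> assumption
    · rintro (rfl | rfl | rfl) <;> rcases h1 with rfl | rfl | rfl <;>
        rcases h2 with rfl | rfl | rfl <;> rcases h3 with rfl | rfl | rfl <;> simp_all

lemma hasPrivatePrimes_iff8 (v : ι × Fin 3 → ℤ) : HasPrivatePrimes v ↔
    ∀ x y z : ι, x ≠ y → y ≠ z → x ≠ z → ∃ p : ℕ, p.Prime ∧ OnlyPbr14 p x y z v := by
  unfold HasPrivatePrimes OnlyPbr14
  refine forall_congr' fun i => forall_congr' fun j => forall_congr' fun k => forall_congr' fun _ =>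
    forall_congr' fun _ => forall_congr' fun _ => exists_congr fun p => and_congr_right fun _ => ?_
  rw [bracket_eq8]
  refine and_congr_right fun _ => and_congr_right fun _ => forall_congr' fun a =>
    forall_congr' fun b => forall_congr' fun c => forall_congr' fun hab => forall_congr' fun hbc =>
    forall_congr' fun hac => ?_
  rw [set_three_ne8 hab hbc hac, bracket_eq8]

end

/-- **The criterion and the density one theorem.** -/
theorem lineCovers8 (F L Ω : Type) [Field F] [Algebra ℚ F]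
    [IsAlgClosure ℚ F] [Field L] [Algebra F[X] L] [IsFractionRing F[X] L] [Field Ω] [Algebra L Ω]
    [IsAlgClosure L Ω] (m : ℕ) (hm : 3 ≤ m) :
    (∀ v : Fin m × Fin 3 → ℤ, HasPrivatePrimes v →
      (∀ i₀, ∃ g : Matrix (Fin 3) (Fin 3) ℚ, IsChart v g i₀ (Finset.univ.erase i₀) ∧
        IsArrangement fun i : (Finset.univ.erase i₀ : Finset (Fin m)) => linePoly v g i) ∧
      ∀ ℓ : ℕ, ℓ.Prime →
        ∀ (i₀ : Fin m) (g : Matrix (Fin 3) (Fin 3) ℚ) (I : Finset (Fin m)), IsChart v g i₀ I →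
        (IsArrangement fun i : I => linePoly v g i) → 4 ≤ I.card →
        ∀ W : I → ℕ, (∀ i, (W i).Coprime ℓ) → (∑ i, W i).Coprime ℓ →
          ∀ k' : IntermediateField ℚ F, FiniteDimensional ℚ k' →
            Nrm.TateClassesTorsionW ℓ L Ω W (fun i : I => linePoly v g i) k') ∧
    Tendsto (fun H : ℕ => ({v : Fin m × Fin 3 → ℤ | (∀ i, |v i| ≤ H) ∧
      HasPrivatePrimes v}.ncard : ℝ) / (2 * H + 1) ^ (3 * m)) atTop (𝓝 1) := by
  have hcard : Fintype.card (Fin m × Fin 3) = 3 * m := by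
    rw [Fintype.card_prod, Fintype.card_fin, Fintype.card_fin, mul_comm]
  refine ⟨fun v hv => ?_, ?_⟩
  · rw [hasPrivatePrimes_iff8] at hv
    refine ⟨fun i₀ => exists_chart14 (fun x y z hxy hyz hxz h0 => ?_)
      (by rw [Fintype.card_fin]; exact hm) i₀, ?_⟩
    · obtain ⟨p, -, -, h3, -⟩ := hv x y z hxy hyz hxz
      apply h3
      rw [h0]
      exact dvd_zero _
    · intro ℓ hℓ i₀ g I hg harr hI W hW hs k' hk'
      haveI : NeZero ℓ := ⟨hℓ.ne_zero⟩
      exact @tateClassesTorsionN14 (Fin m) _ _ v hv ℓ hℓ F L Ω _ _ _ _ _ _ _ _ _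
        (CyclotomicField ℓ ℚ) _ (CyclotomicField.algebra ℓ ℚ) inferInstance i₀ g I hg harr hI W hW
        hs k' hk'
  · have hd := prjDensity14 (ι := Fin m) 1 0
    rw [hcard] at hd
    refine density_monoN14 (3 * m) hcard (fun v hv => ?_) hd
    rw [hasPrivatePrimes_iff8]
    intro x y z hxy hyz hxz
    obtain ⟨p, hp, -, -, hpo⟩ := hv x y z hxy hyz hxz
    exact ⟨p, hp, hpo⟩

end Pool.Agent.Lib.MP_89bcae_ag
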