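import Mathlib
import Pool.Agent.Lib.MP_89bcae_ag.Crit
import Pool.Agent.Lib.MP_89bcae_ag.DefsRational

/-!
# Pull-backs of rational elliptic surfaces with full level two structure
-/

open Polynomial WeierstrassCurve WeierstrassCurve.Affine IsDedekindDomain WithZero

open scoped Classical

namespace Pool.Agent.Lib.MP_89bcae_ag

section Functions

variable {k kb : Type*} [Field k] [Field kb] [Algebra k kb] [Algebra.IsAlgebraic k kb]
  [IsAlgClosed kb]

/-- A finitely supported function with sum zero. -/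
def Deg0 {kb : Type*} (p : kb → ZMod 2) : Prop :=
  ∃ S : Finset kb, (∀ α, α ∉ S → p α = 0) ∧ ∑ α ∈ S, p α = 0

omit [Field kb] [Field k] [Algebra k kb] [Algebra.IsAlgebraic k kb] [IsAlgClosed kb] in
lemma Deg0.sum_eq {p : kb → ZMod 2} (h : Deg0 p) (T : Finset kb) (hT : ∀ α, α ∉ T → p α = 0) :
    ∑ α ∈ T, p α = 0 := by
  obtain ⟨S, hS, h0⟩ := h
  have h1 : ∑ α ∈ S, p α = ∑ α ∈ S ∪ T, p α :=
    Finset.sum_subset Finset.subset_union_left fun α _ hα => hS α hα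
  have h2 : ∑ α ∈ T, p α = ∑ α ∈ S ∪ T, p α :=
    Finset.sum_subset Finset.subset_union_right fun α _ hα => hT α hα
  rw [h2, ← h1, h0]

omit [Field kb] [Field k] [Algebra k kb] [Algebra.IsAlgebraic k kb] [IsAlgClosed kb] in
lemma Deg0.add {p q : kb → ZMod 2} (hp : Deg0 p) (hq : Deg0 q) : Deg0 (fun α => p α + q α) := by
  obtain ⟨S, hS, h0⟩ := hp
  obtain ⟨T, hT, h0'⟩ := hq
  refine ⟨S ∪ T, fun α hα => ?_, ?_⟩
  · rw [Finset.mem_union, not_or] at hα
    change p α + q α = 0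
    rw [hS α hα.1, hT α hα.2, add_zero]
  · rw [Finset.sum_add_distrib, Deg0.sum_eq ⟨S, hS, h0⟩ (S ∪ T) (fun α hα => hS α fun h =>
      hα (Finset.mem_union_left T h)), Deg0.sum_eq ⟨T, hT, h0'⟩ (S ∪ T) (fun α hα => hT α fun h =>
      hα (Finset.mem_union_right S h)), add_zero]

omit [Algebra.IsAlgebraic k kb] [Field k] [Algebra k kb] in
lemma deg0_par {A : kb[X]} (hA : (A.natDegree : ZMod 2) = 0) : Deg0 (par A) := by
  refine ⟨A.roots.toFinset, fun α hα => ?_, ?_⟩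
  · rw [Multiset.mem_toFinset, ← Multiset.count_eq_zero, count_roots] at hα
    unfold par
    rw [hα, Nat.cast_zero]
  · rw [sum_par, hA]
    intro α hα
    rw [Multiset.mem_toFinset, ← Multiset.count_eq_zero, count_roots] at hα
    unfold par
    rw [hα, Nat.cast_zero]

omit [Algebra.IsAlgebraic k kb] [IsAlgClosed kb] in
lemma par_map_aut (g : k[X]) (σ : kb ≃ₐ[k] kb) (α : kb) :
    par (g.map (algebraMap k kb)) (σ α) = par (g.map (algebraMap k kb)) α := by
  have h1 := par_map (σ : kb ≃+* kb) (g.map (algebraMap k kb)) α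
  rw [Polynomial.map_map] at h1
  have h2 : (((σ : kb ≃+* kb) : kb →+* kb)).comp (algebraMap k kb) = algebraMap k kb := by
    ext x
    exact σ.commutes x
  rw [h2] at h1
  exact h1

omit [Algebra.IsAlgebraic k kb] [IsAlgClosed kb] in
lemma OddOrbit.par_const {Y : Finset kb} (hY : OddOrbit k Y) (g : k[X]) :
    ∀ α ∈ Y, ∀ β ∈ Y, par (g.map (algebraMap k kb)) α = par (g.map (algebraMap k kb)) β := by
  intro α hα β hβ
  obtain ⟨σ, rfl⟩ := hY.trans α hα β hβ
  exact (par_map_aut g σ α).symm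

omit [Algebra.IsAlgebraic k kb] [IsAlgClosed kb] in
/-- Two odd orbits are equal or disjoint. -/
lemma OddOrbit.eq_or_disjoint {Y Z : Finset kb} (hY : OddOrbit k Y) (hZ : OddOrbit k Z) :
    Y = Z ∨ Disjoint Y Z := by
  by_cases h : Disjoint Y Z
  · exact Or.inr h
  · left
    rw [Finset.not_disjoint_iff] at h
    obtain ⟨x, hx, hx'⟩ := h
    ext y
    constructor
    · intro hy
      obtain ⟨σ, rfl⟩ := hY.trans x hx y hy
      exact hZ.stable σ x hx'
    · intro hy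
      obtain ⟨σ, rfl⟩ := hZ.trans x hx' y hy
      exact hY.stable σ x hx

lemma zmod_two_cases (x : ZMod 2) : x = 0 ∨ x = 1 := by
  fin_cases x
  · exact Or.inl rfl
  · exact Or.inr rfl

omit [Algebra.IsAlgebraic k kb] [IsAlgClosed kb] in
/-- A parity function supported on two odd orbits. -/
lemma pair_dichotomy {Y Z : Finset kb} (hY : OddOrbit k Y) (hZ : OddOrbit k Z)
    {yf zf : kb → ZMod 2} (yf1 : ∀ α ∈ Y, yf α = 1) (yf0 : ∀ α, α ∉ Y → yf α = 0)
    (zf1 : ∀ α ∈ Z, zf α = 1) (zf0 : ∀ α, α ∉ Z → zf α = 0)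
    {p : kb → ZMod 2} (hp : Deg0 p) (h0 : ∀ α, α ∉ Y → α ∉ Z → p α = 0)
    (cY : ∀ α ∈ Y, ∀ β ∈ Y, p α = p β) (cZ : ∀ α ∈ Z, ∀ β ∈ Z, p α = p β) :
    (∀ α, p α = 0) ∨ (∀ α, p α = yf α + zf α) := by
  rcases hY.eq_or_disjoint hZ with rfl | hd
  · left
    have h1 : ∀ α, α ∉ Y → p α = 0 := fun α hα => h0 α hα hα
    intro α
    by_cases hα : α ∈ Y
    · have h2 := hp.sum_eq Y h1
      rw [Finset.sum_congr rfl fun β hβ => cY β hβ α hα, Finset.sum_const, nsmul_eq_mul] at h2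
      exact odd_mul_eq_zero hY.odd h2
    · exact h1 α hα
  · have hYne : Y.Nonempty := Finset.card_pos.mp hY.odd.pos
    have hZne : Z.Nonempty := Finset.card_pos.mp hZ.odd.pos
    obtain ⟨y, hy⟩ := hYne
    obtain ⟨z, hz⟩ := hZne
    have h1 : ∀ α, α ∉ Y ∪ Z → p α = 0 := by
      intro α hα
      rw [Finset.mem_union, not_or] at hα
      exact h0 α hα.1 hα.2
    have h2 := hp.sum_eq (Y ∪ Z) h1
    rw [Finset.sum_union hd, Finset.sum_congr rfl fun β hβ => cY β hβ y hy,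
      Finset.sum_congr (s₁ := Z) rfl fun β hβ => cZ β hβ z hz, Finset.sum_const, Finset.sum_const,
      nsmul_eq_mul, nsmul_eq_mul, ZMod.natCast_eq_one_iff_odd.mpr hY.odd,
      ZMod.natCast_eq_one_iff_odd.mpr hZ.odd, one_mul, one_mul] at h2
    have h3 : p y = p z := CharTwo.add_eq_zero.mp h2
    rcases zmod_two_cases (p y) with h4 | h4
    · left
      intro α
      by_cases hα : α ∈ Y
      · rw [cY α hα y hy, h4]
      · by_cases hα' : α ∈ Z
        · rw [cZ α hα' z hz, ← h3, h4]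
        · exact h0 α hα hα'
    · right
      intro α
      by_cases hα : α ∈ Y
      · rw [cY α hα y hy, h4, yf1 α hα, zf0 α (Finset.disjoint_left.mp hd hα), add_zero]
      · by_cases hα' : α ∈ Z
        · rw [cZ α hα' z hz, ← h3, h4, yf0 α hα, zf1 α hα', zero_add]
        · rw [h0 α hα hα', yf0 α hα, zf0 α hα', add_zero]

end Functions

section Curve

variable {k : Type*} [Field k]

/-- The hypotheses of the theorem. -/
structure RatPair (n : ℕ) (u v ρ : k) (a b : k[X]) : Prop where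
  odd : Odd n
  two : (2 : k) ≠ 0
  sq : ρ ^ 2 = -(u * (u + v) * (v - 1))
  ne : ρ ≠ 0
  coprime : IsCoprime a b
  pa : IsPrimary n a
  pb : IsPrimary n b
  pc : IsPrimary n (a - b)
  pa' : IsPrimary n (C u * a + C v * b)
  pb' : IsPrimary n (C (u + 1) * a + C (v - 1) * b)
  pc' : IsPrimary n (C u * a + C (v - 1) * b)

variable {n : ℕ} {u v ρ : k} {a b : k[X]}

namespace RatPair

lemma u_ne (h : RatPair n u v ρ a b) : u ≠ 0 := by
  rintro rfl
  apply h.ne
  have := h.sq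
  rw [zero_mul, zero_mul, neg_zero] at this
  exact eq_zero_of_pow_eq_zero this

lemma uv_ne (h : RatPair n u v ρ a b) : u + v ≠ 0 := by
  intro h0
  apply h.ne
  have := h.sq
  rw [h0, mul_zero, zero_mul, neg_zero] at this
  exact eq_zero_of_pow_eq_zero this

lemma v_ne (h : RatPair n u v ρ a b) : v - 1 ≠ 0 := by
  intro h0
  apply h.ne
  have := h.sq
  rw [h0, mul_zero, neg_zero] at this
  exact eq_zero_of_pow_eq_zero this

variable {kb : Type*} [Field kb] [Algebra k kb]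

/-- No common root of two independent linear combinations. -/
lemma no_common (h : RatPair n u v ρ a b) {x₁ y₁ x₂ y₂ : k} (hd : x₁ * y₂ - x₂ * y₁ ≠ 0) {α : kb}
    (h1 : α ∈ rootSetOf kb (C x₁ * a + C y₁ * b)) (h2 : α ∈ rootSetOf kb (C x₂ * a + C y₂ * b)) :
    False := by
  have e1 : aeval α (C x₁ * a + C y₁ * b) = 0 := by
    by_cases h0 : C x₁ * a + C y₁ * b = 0
    · rw [h0, map_zero]
    · exact (mem_rootSetOf h0).mp h1
  have e2 : aeval α (C x₂ * a + C y₂ * b) = 0 := by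
    by_cases h0 : C x₂ * a + C y₂ * b = 0
    · rw [h0, map_zero]
    · exact (mem_rootSetOf h0).mp h2
  rw [map_add, map_mul, map_mul, aeval_C, aeval_C] at e1 e2
  have hd' : algebraMap k kb (x₁ * y₂ - x₂ * y₁) ≠ 0 := by
    rw [Ne, map_eq_zero]; exact hd
  have e3 : algebraMap k kb (x₁ * y₂ - x₂ * y₁) * aeval α a = 0 := by
    rw [map_sub, map_mul, map_mul]
    linear_combination (algebraMap k kb y₂) * e1 - (algebraMap k kb y₁) * e2
  have e4 : algebraMap k kb (x₁ * y₂ - x₂ * y₁) * aeval α b = 0 := by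
    rw [map_sub, map_mul, map_mul]
    linear_combination (algebraMap k kb x₁) * e2 - (algebraMap k kb x₂) * e1
  have e5 := (mul_eq_zero.mp e3).resolve_left hd'
  have e6 := (mul_eq_zero.mp e4).resolve_left hd'
  obtain ⟨p, q, e⟩ := h.coprime
  have := congrArg (aeval α) e
  rw [map_add, map_mul, map_mul, e5, e6, mul_zero, mul_zero, add_zero, map_one] at this
  exact zero_ne_one this

end RatPair

/-- The roots. -/
noncomputable def eOne (u v : k) (a b : k[X]) : k[X] := a * (C u * a + C v * b)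

/-- The roots. -/
noncomputable def eTwo (u v : k) (a b : k[X]) : k[X] := b * (C (u + 1) * a + C (v - 1) * b)

lemma eOne_sub_eTwo (u v : k) (a b : k[X]) :
    eOne u v a b - eTwo u v a b = (a - b) * (C u * a + C (v - 1) * b) := by
  unfold eOne eTwo
  simp only [C_add, C_sub, C_1]
  ring

/-- The five points. -/
lemma points (h : RatPair n u v ρ a b) :
    (∃ x y : k[X], y ^ 2 = (x - eOne u v a b) * (x - eTwo u v a b) * (x - 0) ∧
      x - eOne u v a b = C (-u) * (a * (a - b)) ∧ x - eTwo u v a b = C (v - 1) * (b * (a - b))) ∧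
    (∃ x y : k[X], y ^ 2 = (x - eOne u v a b) * (x - eTwo u v a b) * (x - 0) ∧
      x - eOne u v a b = C 1 * ((C u * a + C v * b) * (C u * a + C (v - 1) * b)) ∧
      x - eTwo u v a b = C 1 * ((C (u + 1) * a + C (v - 1) * b) * (C u * a + C (v - 1) * b))) ∧
    (∃ x y : k[X], y ^ 2 = (x - eOne u v a b) * (x - eTwo u v a b) * (x - 0) ∧
      x - eOne u v a b = C (-1) * (a * (C u * a + C v * b)) ∧
      x - eTwo u v a b = C (-1) * (b * (C (u + 1) * a + C (v - 1) * b))) ∧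
    (∃ x y : k[X], y ^ 2 = (x - eOne u v a b) * (x - eTwo u v a b) * (x - 0) ∧
      x - eOne u v a b = C (-1) * ((C u * a + C v * b) * (a - b)) ∧
      x - eTwo u v a b = C (-1) * (b * (a - b))) ∧
    (∃ x y : k[X], y ^ 2 = (x - eOne u v a b) * (x - eTwo u v a b) * (x - 0) ∧
      x - eOne u v a b = C 1 * (a * (a - b)) ∧
      x - eTwo u v a b = C 1 * ((C (u + 1) * a + C (v - 1) * b) * (a - b))) := by
  have hs : (C ρ : k[X]) ^ 2 = -(C u * (C u + C v) * (C v - 1)) := by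
    rw [← C_pow, h.sq]
    simp only [C_add, C_sub, C_1, C_mul, C_neg]
  refine ⟨⟨C (u + v) * (a * b), C ρ * (a * b * (a - b)), ?_, ?_, ?_⟩,
    ⟨(C u * a + C v * b) * (C (u + 1) * a + C (v - 1) * b),
      (C u * a + C v * b) * (C (u + 1) * a + C (v - 1) * b) * (C u * a + C (v - 1) * b), ?_, ?_, ?_⟩,
    ⟨0, 0, ?_, ?_, ?_⟩,
    ⟨(C u * a + C v * b) * b, (C u * a + C v * b) * b * (a - b), ?_, ?_, ?_⟩,
    ⟨a * (C (u + 1) * a + C (v - 1) * b), a * (C (u + 1) * a + C (v - 1) * b) * (a - b),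
      ?_, ?_, ?_⟩⟩
  · unfold eOne eTwo
    simp only [C_add, C_sub, C_1]
    linear_combination (a * b * (a - b)) ^ 2 * hs
  all_goals
    simp only [eOne, eTwo, C_add, C_sub, C_1, C_neg]
    ring

end Curve

section Combi

variable {k kb : Type*} [Field k] [Field kb] [Algebra k kb]

/-- The combinatorial heart. -/
lemma combi {Ya Ya' Yb Yb' Yc Yc' : Finset kb} (hYa : OddOrbit k Ya) (hYa' : OddOrbit k Ya')
    (hYb : OddOrbit k Yb) (hYb' : OddOrbit k Yb') (hYc : OddOrbit k Yc) (hYc' : OddOrbit k Yc')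
    {fa fa' fb fb' fc fc' : kb → ZMod 2}
    (a1 : ∀ α ∈ Ya, fa α = 1) (a0 : ∀ α, α ∉ Ya → fa α = 0)
    (a1' : ∀ α ∈ Ya', fa' α = 1) (a0' : ∀ α, α ∉ Ya' → fa' α = 0)
    (b1 : ∀ α ∈ Yb, fb α = 1) (b0 : ∀ α, α ∉ Yb → fb α = 0)
    (b1' : ∀ α ∈ Yb', fb' α = 1) (b0' : ∀ α, α ∉ Yb' → fb' α = 0)
    (c1 : ∀ α ∈ Yc, fc α = 1) (c0 : ∀ α, α ∉ Yc → fc α = 0)
    (c1' : ∀ α ∈ Yc', fc' α = 1) (c0' : ∀ α, α ∉ Yc' → fc' α = 0)
    -- the functions are constant on orbits
    (ka : ∀ α ∈ Ya, ∀ β ∈ Ya, fa' α = fa' β) (ka' : ∀ α ∈ Ya', ∀ β ∈ Ya', fa α = fa β)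
    (kb₁ : ∀ α ∈ Yb, ∀ β ∈ Yb, fb' α = fb' β) (kb₁' : ∀ α ∈ Yb', ∀ β ∈ Yb', fb α = fb β)
    -- cross pairs are disjoint
    (dac : ∀ α ∈ Ya, α ∉ Yc) (dac' : ∀ α ∈ Ya, α ∉ Yc') (da'c : ∀ α ∈ Ya', α ∉ Yc)
    (da'c' : ∀ α ∈ Ya', α ∉ Yc') (dbc : ∀ α ∈ Yb, α ∉ Yc) (dbc' : ∀ α ∈ Yb, α ∉ Yc')
    (db'c : ∀ α ∈ Yb', α ∉ Yc) (db'c' : ∀ α ∈ Yb', α ∉ Yc')
    -- sums of the indicator functions
    (sa : Deg0 fun α => fa α + fc α) (sa' : Deg0 fun α => fa' α + fc' α)
    (sb : Deg0 fun α => fb α + fc α) (sb' : Deg0 fun α => fb' α + fc' α)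
    {p q : kb → ZMod 2} (hp : Deg0 p) (hq : Deg0 q)
    (p0 : ∀ α, α ∉ Ya → α ∉ Ya' → α ∉ Yc → α ∉ Yc' → p α = 0)
    (q0 : ∀ α, α ∉ Yb → α ∉ Yb' → α ∉ Yc → α ∉ Yc' → q α = 0)
    (pq : ∀ α ∈ Yc, q α = p α) (pq' : ∀ α ∈ Yc', q α = p α)
    (pa : ∀ α ∈ Ya, ∀ β ∈ Ya, p α = p β) (pa' : ∀ α ∈ Ya', ∀ β ∈ Ya', p α = p β)
    (pc : ∀ α ∈ Yc, ∀ β ∈ Yc, p α = p β) (pc' : ∀ α ∈ Yc', ∀ β ∈ Yc', p α = p β)
    (qb : ∀ α ∈ Yb, ∀ β ∈ Yb, q α = q β) (qb' : ∀ α ∈ Yb', ∀ β ∈ Yb', q α = q β) :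
    ∃ m₁ m₂ m₃ m₄ m₅ : ZMod 2,
      (∀ α, p α + (m₁ * (fa α + fc α) + (m₂ * (fa' α + fc' α) + (m₃ * (fa α + fa' α) +
        (m₄ * (fa' α + fc α) + m₅ * (fa α + fc α))))) = 0) ∧
      (∀ α, q α + (m₁ * (fb α + fc α) + (m₂ * (fb' α + fc' α) + (m₃ * (fb α + fb' α) +
        (m₄ * (fb α + fc α) + m₅ * (fb' α + fc α))))) = 0) := by
  have two : (2 : ZMod 2) = 0 := rfl
  -- first step: make the classes trivial at the points of type `c`
  have step : ∃ m₁ m₂ : ZMod 2,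
      (∀ α, α ∈ Yc ∨ α ∈ Yc' → p α + (m₁ * (fa α + fc α) + m₂ * (fa' α + fc' α)) = 0) ∧
      (∀ α, α ∈ Yc ∨ α ∈ Yc' → q α + (m₁ * (fb α + fc α) + m₂ * (fb' α + fc' α)) = 0) := by
    obtain ⟨x, hx⟩ : Yc.Nonempty := Finset.card_pos.mp hYc.odd.pos
    obtain ⟨x', hx'⟩ : Yc'.Nonempty := Finset.card_pos.mp hYc'.odd.pos
    have hfa : ∀ α, α ∈ Yc ∨ α ∈ Yc' → fa α = 0 ∧ fa' α = 0 ∧ fb α = 0 ∧ fb' α = 0 := by
      intro α hα
      refine ⟨a0 α fun h => ?_, a0' α fun h => ?_, b0 α fun h => ?_, b0' α fun h => ?_⟩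
      · rcases hα with h' | h'
        · exact dac α h h'
        · exact dac' α h h'
      · rcases hα with h' | h'
        · exact da'c α h h'
        · exact da'c' α h h'
      · rcases hα with h' | h'
        · exact dbc α h h'
        · exact dbc' α h h'
      · rcases hα with h' | h'
        · exact db'c α h h'
        · exact db'c' α h h'
    have hpq : ∀ α, α ∈ Yc ∨ α ∈ Yc' → q α = p α := by
      rintro α (h | h)
      · exact pq α h
      · exact pq' α h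
    have main : ∃ m₁ m₂ : ZMod 2,
        ∀ α, α ∈ Yc ∨ α ∈ Yc' → p α + (m₁ * fc α + m₂ * fc' α) = 0 := by
      rcases hYc.eq_or_disjoint hYc' with rfl | hd
      · refine ⟨p x, 0, fun α hα => ?_⟩
        have hα' : α ∈ Yc := by simpa using hα
        rw [c1 α hα', zero_mul, add_zero, mul_one, pc α hα' x hx, CharTwo.add_self_eq_zero]
      · refine ⟨p x, p x', fun α hα => ?_⟩
        rcases hα with hα | hα
        · rw [c1 α hα, c0' α (Finset.disjoint_left.mp hd hα), mul_zero, add_zero, mul_one,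
            pc α hα x hx, CharTwo.add_self_eq_zero]
        · rw [c1' α hα, c0 α (Finset.disjoint_right.mp hd hα), mul_zero, zero_add, mul_one,
            pc' α hα x' hx', CharTwo.add_self_eq_zero]
    obtain ⟨m₁, m₂, hm⟩ := main
    refine ⟨m₁, m₂, fun α hα => ?_, fun α hα => ?_⟩
    · obtain ⟨h1, h2, -, -⟩ := hfa α hα
      rw [h1, h2, zero_add, zero_add]
      exact hm α hα
    · obtain ⟨-, -, h1, h2⟩ := hfa α hα
      rw [h1, h2, zero_add, zero_add, hpq α hα]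
      exact hm α hα
  obtain ⟨m₁, m₂, hp1, hq1⟩ := step
  have deg_smul : ∀ (m : ZMod 2) {f : kb → ZMod 2}, Deg0 f → Deg0 fun α => m * f α := by
    rintro m f ⟨S, hS, h0⟩
    refine ⟨S, fun α hα => ?_, ?_⟩
    · change m * f α = 0
      rw [hS α hα, mul_zero]
    · rw [← Finset.mul_sum, h0, mul_zero]
  have P1 := hp.add ((deg_smul m₁ sa).add (deg_smul m₂ sa'))
  have Q1 := hq.add ((deg_smul m₁ sb).add (deg_smul m₂ sb'))
  have Pd := pair_dichotomy hYa hYa' a1 a0 a1' a0' P1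
    (fun α h1 h2 => by
      by_cases h3 : α ∈ Yc ∨ α ∈ Yc'
      · exact hp1 α h3
      · rw [not_or] at h3
        change p α + (m₁ * (fa α + fc α) + m₂ * (fa' α + fc' α)) = 0
        rw [p0 α h1 h2 h3.1 h3.2, a0 α h1, a0' α h2, c0 α h3.1, c0' α h3.2]
        ring)
    (fun α hα β hβ => by
      rw [pa α hα β hβ, ka α hα β hβ, a1 α hα, a1 β hβ, c0 α (dac α hα), c0 β (dac β hβ),
        c0' α (dac' α hα), c0' β (dac' β hβ)])
    (fun α hα β hβ => by
      rw [pa' α hα β hβ, ka' α hα β hβ, a1' α hα, a1' β hβ, c0 α (da'c α hα), c0 β (da'c β hβ),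
        c0' α (da'c' α hα), c0' β (da'c' β hβ)])
  have Qd := pair_dichotomy hYb hYb' b1 b0 b1' b0' Q1
    (fun α h1 h2 => by
      by_cases h3 : α ∈ Yc ∨ α ∈ Yc'
      · exact hq1 α h3
      · rw [not_or] at h3
        change q α + (m₁ * (fb α + fc α) + m₂ * (fb' α + fc' α)) = 0
        rw [q0 α h1 h2 h3.1 h3.2, b0 α h1, b0' α h2, c0 α h3.1, c0' α h3.2]
        ring)
    (fun α hα β hβ => by
      rw [qb α hα β hβ, kb₁ α hα β hβ, b1 α hα, b1 β hβ, c0 α (dbc α hα), c0 β (dbc β hβ),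
        c0' α (dbc' α hα), c0' β (dbc' β hβ)])
    (fun α hα β hβ => by
      rw [qb' α hα β hβ, kb₁' α hα β hβ, b1' α hα, b1' β hβ, c0 α (db'c α hα), c0 β (db'c β hβ),
        c0' α (db'c' α hα), c0' β (db'c' β hβ)])
  rcases Pd with hP | hP <;> rcases Qd with hQ | hQ
  · refine ⟨m₁, m₂, 0, 0, 0, fun α => ?_, fun α => ?_⟩
    · linear_combination hP α
    · linear_combination hQ α
  · refine ⟨m₁ + 1, m₂, 0, 0, 1, fun α => ?_, fun α => ?_⟩
    · linear_combination hP α + (fa α + fc α) * two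
    · linear_combination hQ α + (fb α + fb' α + fc α) * two
  · refine ⟨m₁ + 1, m₂, 0, 1, 0, fun α => ?_, fun α => ?_⟩
    · linear_combination hP α + (fa α + fa' α + fc α) * two
    · linear_combination hQ α + (fb α + fc α) * two
  · refine ⟨m₁, m₂, 1, 0, 0, fun α => ?_, fun α => ?_⟩
    · linear_combination hP α + (fa α + fa' α) * two
    · linear_combination hQ α + (fb α + fb' α) * two

end Combi

section Split

variable {k : Type*} [Field k] {n : ℕ} {u v ρ : k} {a b : k[X]}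

namespace RatPair

lemma a_ne (h : RatPair n u v ρ a b) : a ≠ 0 := h.pa.ne_zero h.odd
lemma b_ne (h : RatPair n u v ρ a b) : b ≠ 0 := h.pb.ne_zero h.odd
lemma c_ne (h : RatPair n u v ρ a b) : a - b ≠ 0 := h.pc.ne_zero h.odd
lemma a'_ne (h : RatPair n u v ρ a b) : C u * a + C v * b ≠ 0 := h.pa'.ne_zero h.odd
lemma b'_ne (h : RatPair n u v ρ a b) : C (u + 1) * a + C (v - 1) * b ≠ 0 := h.pb'.ne_zero h.odd
lemma c'_ne (h : RatPair n u v ρ a b) : C u * a + C (v - 1) * b ≠ 0 := h.pc'.ne_zero h.odd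

lemma splitAt (h : RatPair n u v ρ a b) (A : Type*) [Field A] [Algebra k[X] A]
    (hinj : Function.Injective (algebraMap k[X] A)) :
    SplitAt A (twoTorsionCurve (eOne u v a b) (eTwo u v a b)) 0 (eOne u v a b)
      (eTwo u v a b) where
  a₁ := map_zero _
  a₂ := by
    change algebraMap k[X] A (-(eOne u v a b + eTwo u v a b)) = _
    simp only [map_add, map_neg, map_zero]
    ring
  a₃ := map_zero _
  a₄ := by
    change algebraMap k[X] A (eOne u v a b * eTwo u v a b) = _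
    simp only [map_mul, map_zero]
    ring
  a₆ := by
    change algebraMap k[X] A 0 = _
    simp only [map_zero]
    ring
  ab := by
    intro h0
    exact mul_ne_zero h.a_ne h.a'_ne (hinj h0).symm
  ac := by
    intro h0
    exact mul_ne_zero h.b_ne h.b'_ne (hinj h0).symm
  bc := by
    intro h0
    have := sub_eq_zero.mpr (hinj h0)
    rw [eOne_sub_eTwo] at this
    exact mul_ne_zero h.c_ne h.c'_ne this
  two := by
    intro h0
    apply h.two
    have h1 : algebraMap k[X] A (C 2) = 0 := by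
      rw [← h0, map_ofNat, map_ofNat]
    exact C_injective (hinj (by rw [h1, C_0, map_zero]))

lemma degrees (h : RatPair n u v ρ a b) :
    (eOne u v a b - eTwo u v a b).natDegree = n + n ∧
    (eTwo u v a b - eOne u v a b).natDegree = n + n ∧
    (eOne u v a b - 0).natDegree = n + n ∧ (eTwo u v a b - 0).natDegree = n + n := by
  have e1 : (eOne u v a b - eTwo u v a b).natDegree = n + n := by
    rw [eOne_sub_eTwo, natDegree_mul h.c_ne h.c'_ne, h.pc.1, h.pc'.1]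
  refine ⟨e1, ?_, ?_, ?_⟩
  · rw [← e1, ← natDegree_neg, neg_sub]
  · rw [sub_zero, eOne, natDegree_mul h.a_ne h.a'_ne, h.pa.1, h.pa'.1]
  · rw [sub_zero, eTwo, natDegree_mul h.b_ne h.b'_ne, h.pb.1, h.pb'.1]

variable {kb : Type*} [Field kb] [Algebra k kb]

lemma mult_zero {f g : k[X]} (hf : f ≠ 0) (hg : g ≠ 0) {w : k} (hw : w ≠ 0) {α : kb}
    (h1 : α ∉ rootSetOf kb f) (h2 : α ∉ rootSetOf kb g) :
    ((C w * (f * g)).map (algebraMap k kb)).rootMultiplicity α = 0 := by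
  have hf' : f.map (algebraMap k kb) ≠ 0 := by rwa [Ne, Polynomial.map_eq_zero]
  have hg' : g.map (algebraMap k kb) ≠ 0 := by rwa [Ne, Polynomial.map_eq_zero]
  have hw' : (C (algebraMap k kb w) : kb[X]) ≠ 0 := by rwa [Ne, C_eq_zero, map_eq_zero]
  rw [Polynomial.map_mul, Polynomial.map_mul, Polynomial.map_C,
    rootMultiplicity_mul (mul_ne_zero hw' (mul_ne_zero hf' hg')),
    rootMultiplicity_mul (mul_ne_zero hf' hg'), rootMultiplicity_C,
    par_eq_zero_of_not_mem hf h1, par_eq_zero_of_not_mem hg h2]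

lemma par_two {f g : k[X]} (hf : f ≠ 0) (hg : g ≠ 0) {w : k} (hw : w ≠ 0) (α : kb) :
    par ((C w * (f * g)).map (algebraMap k kb)) α =
      par (f.map (algebraMap k kb)) α + par (g.map (algebraMap k kb)) α := by
  have hf' : f.map (algebraMap k kb) ≠ 0 := by rwa [Ne, Polynomial.map_eq_zero]
  have hg' : g.map (algebraMap k kb) ≠ 0 := by rwa [Ne, Polynomial.map_eq_zero]
  have hw' : (C (algebraMap k kb w) : kb[X]) ≠ 0 := by rwa [Ne, C_eq_zero, map_eq_zero]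
  have h4 : par (C (algebraMap k kb w)) α = 0 := by
    unfold par
    rw [rootMultiplicity_C, Nat.cast_zero]
  rw [Polynomial.map_mul, Polynomial.map_mul, Polynomial.map_C, par_mul hw' (mul_ne_zero hf' hg'),
    par_mul hf' hg', h4, zero_add]

lemma deg0_two [IsAlgClosed kb] {f g : k[X]} (hf : f ≠ 0) (hg : g ≠ 0)
    (h : f.natDegree = g.natDegree) :
    Deg0 fun α : kb => par (f.map (algebraMap k kb)) α + par (g.map (algebraMap k kb)) α := by
  have hf' : f.map (algebraMap k kb) ≠ 0 := by rwa [Ne, Polynomial.map_eq_zero]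
  have hg' : g.map (algebraMap k kb) ≠ 0 := by rwa [Ne, Polynomial.map_eq_zero]
  have h1 : (fun α : kb => par (f.map (algebraMap k kb)) α + par (g.map (algebraMap k kb)) α) =
      par (f.map (algebraMap k kb) * g.map (algebraMap k kb)) := by
    funext α
    rw [par_mul hf' hg']
  rw [h1]
  apply deg0_par
  rw [natDegree_mul hf' hg', natDegree_map, natDegree_map, h]
  push_cast
  exact CharTwo.add_self_eq_zero _

/-- Optional insertion of a point in a list. -/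
lemma par_opt {l : List (k[X] × k[X])} {e : k[X]} {pt : k[X] × k[X]} {m : ZMod 2}
    (hl : ∀ p ∈ l, p.1 ≠ e) (hpt : pt.1 ≠ e) (α : kb) :
    par (((if m = 0 then l else pt :: l).map fun p => (p.1 - e).map (algebraMap k kb)).prod) α =
      m * par ((pt.1 - e).map (algebraMap k kb)) α +
        par ((l.map fun p => (p.1 - e).map (algebraMap k kb)).prod) α := by
  split_ifs with hm
  · rw [hm, zero_mul, zero_add]
  · have hm1 : m = 1 := Fin.eq_one_of_ne_zero _ hm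
    rw [hm1, one_mul, List.map_cons, List.prod_cons, par_mul]
    · rw [Ne, Polynomial.map_eq_zero]
      exact sub_ne_zero.mpr hpt
    · rw [Ne, List.prod_eq_zero_iff, List.mem_map]
      rintro ⟨p, hp, h0⟩
      rw [Polynomial.map_eq_zero] at h0
      exact hl p hp (sub_eq_zero.mp h0)

end RatPair

end Split

section Final

variable {k kb : Type*} [Field k] [Field kb] [Algebra k kb] [Algebra.IsAlgebraic k kb]
  [IsAlgClosed kb]

variable {n : ℕ} {u v ρ : k} {a b : k[X]}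

/-- Some combination of the five points has given parities. -/
lemma RatPair.exists_list (h : RatPair n u v ρ a b) {A B : kb[X]} (hA : A ≠ 0) (hB : B ≠ 0)
    (dA : (A.natDegree : ZMod 2) = 0) (dB : (B.natDegree : ZMod 2) = 0)
    (p0 : ∀ α, α ∉ rootSetOf kb a → α ∉ rootSetOf kb (C u * a + C v * b) →
      α ∉ rootSetOf kb (a - b) → α ∉ rootSetOf kb (C u * a + C (v - 1) * b) → par A α = 0)
    (q0 : ∀ α, α ∉ rootSetOf kb b → α ∉ rootSetOf kb (C (u + 1) * a + C (v - 1) * b) →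
      α ∉ rootSetOf kb (a - b) → α ∉ rootSetOf kb (C u * a + C (v - 1) * b) → par B α = 0)
    (pq : ∀ α ∈ rootSetOf kb (a - b), par B α = par A α)
    (pq' : ∀ α ∈ rootSetOf kb (C u * a + C (v - 1) * b), par B α = par A α)
    (cA : ∀ g : k[X], IsPrimary n g → ∀ α ∈ rootSetOf kb g, ∀ β ∈ rootSetOf kb g,
      par A α = par A β)
    (cB : ∀ g : k[X], IsPrimary n g → ∀ α ∈ rootSetOf kb g, ∀ β ∈ rootSetOf kb g,
      par B α = par B β) :
    ∃ l : List (k[X] × k[X]), (∀ p ∈ l, p.2 ^ 2 = (p.1 - eOne u v a b) * (p.1 - eTwo u v a b) *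
        (p.1 - 0) ∧ p.1 ≠ eOne u v a b ∧ p.1 ≠ eTwo u v a b) ∧
      (∀ α, par (A * (l.map fun p => (p.1 - eOne u v a b).map (algebraMap k kb)).prod) α = 0) ∧
      (∀ α, par (B * (l.map fun p => (p.1 - eTwo u v a b).map (algebraMap k kb)).prod) α = 0) := by
  have oa := h.pa.oddOrbit (kb := kb) h.odd
  have oa' := h.pa'.oddOrbit (kb := kb) h.odd
  have ob := h.pb.oddOrbit (kb := kb) h.odd
  have ob' := h.pb'.oddOrbit (kb := kb) h.odd
  have oc := h.pc.oddOrbit (kb := kb) h.odd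
  have oc' := h.pc'.oddOrbit (kb := kb) h.odd
  have hu := h.u_ne
  have huv := h.uv_ne
  have hv := h.v_ne
  have ra : a = C 1 * a + C 0 * b := by simp
  have rb : b = C 0 * a + C 1 * b := by simp
  have rc : a - b = C 1 * a + C (-1) * b := by simp [sub_eq_add_neg]
  have key := combi oa.1 oa'.1 ob.1 ob'.1 oc.1 oc'.1
    (fa := par (a.map (algebraMap k kb))) (fa' := par ((C u * a + C v * b).map (algebraMap k kb)))
    (fb := par (b.map (algebraMap k kb)))
    (fb' := par ((C (u + 1) * a + C (v - 1) * b).map (algebraMap k kb)))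
    (fc := par ((a - b).map (algebraMap k kb)))
    (fc' := par ((C u * a + C (v - 1) * b).map (algebraMap k kb)))
    oa.2 (fun α hα => par_map_of_not_mem h.a_ne hα) oa'.2
    (fun α hα => par_map_of_not_mem h.a'_ne hα) ob.2
    (fun α hα => par_map_of_not_mem h.b_ne hα) ob'.2
    (fun α hα => par_map_of_not_mem h.b'_ne hα) oc.2
    (fun α hα => par_map_of_not_mem h.c_ne hα) oc'.2
    (fun α hα => par_map_of_not_mem h.c'_ne hα)
    (oa.1.par_const _) (oa'.1.par_const _) (ob.1.par_const _) (ob'.1.par_const _)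
    (fun α h1 h2 => h.no_common (x₁ := 1) (y₁ := 0) (x₂ := 1) (y₂ := -1) (by norm_num)
      (by rwa [← ra]) (by rwa [← rc]))
    (fun α h1 h2 => h.no_common (x₁ := 1) (y₁ := 0) (x₂ := u) (y₂ := v - 1)
      (by rw [one_mul, mul_zero, sub_zero]; exact hv) (by rwa [← ra]) h2)
    (fun α h1 h2 => h.no_common (x₁ := u) (y₁ := v) (x₂ := 1) (y₂ := -1)
      (by intro h0; apply huv; linear_combination -h0) h1 (by rwa [← rc]))
    (fun α h1 h2 => h.no_common (x₁ := u) (y₁ := v) (x₂ := u) (y₂ := v - 1)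
      (by intro h0; apply hu; linear_combination -h0) h1 h2)
    (fun α h1 h2 => h.no_common (x₁ := 0) (y₁ := 1) (x₂ := 1) (y₂ := -1) (by norm_num)
      (by rwa [← rb]) (by rwa [← rc]))
    (fun α h1 h2 => h.no_common (x₁ := 0) (y₁ := 1) (x₂ := u) (y₂ := v - 1)
      (by intro h0; apply hu; linear_combination -h0) (by rwa [← rb]) h2)
    (fun α h1 h2 => h.no_common (x₁ := u + 1) (y₁ := v - 1) (x₂ := 1) (y₂ := -1)
      (by intro h0; apply huv; linear_combination -h0) h1 (by rwa [← rc]))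
    (fun α h1 h2 => h.no_common (x₁ := u + 1) (y₁ := v - 1) (x₂ := u) (y₂ := v - 1)
      (by intro h0; apply hv; linear_combination h0) h1 h2)
    (deg0_two h.a_ne h.c_ne (h.pa.1.trans h.pc.1.symm))
    (deg0_two h.a'_ne h.c'_ne (h.pa'.1.trans h.pc'.1.symm))
    (deg0_two h.b_ne h.c_ne (h.pb.1.trans h.pc.1.symm))
    (deg0_two h.b'_ne h.c'_ne (h.pb'.1.trans h.pc'.1.symm))
    (deg0_par dA) (deg0_par dB) p0 q0 pq pq' (cA _ h.pa) (cA _ h.pa') (cA _ h.pc) (cA _ h.pc')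
    (cB _ h.pb) (cB _ h.pb')
  obtain ⟨m₁, m₂, m₃, m₄, m₅, kA, kB⟩ := key
  obtain ⟨⟨x₁, y₁, g₁, s₁, t₁⟩, ⟨x₂, y₂, g₂, s₂, t₂⟩, ⟨x₃, y₃, g₃, s₃, t₃⟩, ⟨x₄, y₄, g₄, s₄, t₄⟩,
    ⟨x₅, y₅, g₅, s₅, t₅⟩⟩ := points h
  have ne_of : ∀ {x e f g : k[X]} {w : k}, f ≠ 0 → g ≠ 0 → w ≠ 0 → x - e = C w * (f * g) →
      x ≠ e := by
    intro x e f g w hf hg hw he h0
    rw [h0, sub_self] at he
    exact mul_ne_zero (by rwa [Ne, C_eq_zero]) (mul_ne_zero hf hg) he.symm
  have hneg : (-1 : k) ≠ 0 := neg_ne_zero.mpr one_ne_zero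
  have n₁ := ne_of h.a_ne h.c_ne (neg_ne_zero.mpr hu) s₁
  have n₁' := ne_of h.b_ne h.c_ne hv t₁
  have n₂ := ne_of h.a'_ne h.c'_ne one_ne_zero s₂
  have n₂' := ne_of h.b'_ne h.c'_ne one_ne_zero t₂
  have n₃ := ne_of h.a_ne h.a'_ne hneg s₃
  have n₃' := ne_of h.b_ne h.b'_ne hneg t₃
  have n₄ := ne_of h.a'_ne h.c_ne hneg s₄
  have n₄' := ne_of h.b_ne h.c_ne hneg t₄
  have n₅ := ne_of h.a_ne h.c_ne one_ne_zero s₅
  have n₅' := ne_of h.b'_ne h.c_ne one_ne_zero t₅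
  -- the list
  let good : k[X] × k[X] → Prop := fun p => p.2 ^ 2 = (p.1 - eOne u v a b) *
    (p.1 - eTwo u v a b) * (p.1 - 0) ∧ p.1 ≠ eOne u v a b ∧ p.1 ≠ eTwo u v a b
  have step : ∀ (l : List (k[X] × k[X])) (pt : k[X] × k[X]) (m : ZMod 2), (∀ p ∈ l, good p) →
      good pt → ∀ p ∈ (if m = 0 then l else pt :: l), good p := by
    intro l pt m hl hpt p hp
    split_ifs at hp with hm
    · exact hl p hp
    · rcases List.mem_cons.mp hp with rfl | hp
      · exact hpt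
      · exact hl p hp
  set l₅ : List (k[X] × k[X]) := if m₅ = 0 then [] else [(x₅, y₅)] with hl₅
  set l₄ : List (k[X] × k[X]) := if m₄ = 0 then l₅ else (x₄, y₄) :: l₅ with hl₄
  set l₃ : List (k[X] × k[X]) := if m₃ = 0 then l₄ else (x₃, y₃) :: l₄ with hl₃
  set l₂ : List (k[X] × k[X]) := if m₂ = 0 then l₃ else (x₂, y₂) :: l₃ with hl₂
  set l₁ : List (k[X] × k[X]) := if m₁ = 0 then l₂ else (x₁, y₁) :: l₂ with hl₁
  have G₅ : ∀ p ∈ l₅, good p := step [] (x₅, y₅) m₅ (fun p hp => absurd hp List.not_mem_nil)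
    ⟨g₅, n₅, n₅'⟩
  have G₄ : ∀ p ∈ l₄, good p := step l₅ (x₄, y₄) m₄ G₅ ⟨g₄, n₄, n₄'⟩
  have G₃ : ∀ p ∈ l₃, good p := step l₄ (x₃, y₃) m₃ G₄ ⟨g₃, n₃, n₃'⟩
  have G₂ : ∀ p ∈ l₂, good p := step l₃ (x₂, y₂) m₂ G₃ ⟨g₂, n₂, n₂'⟩
  have G₁ : ∀ p ∈ l₁, good p := step l₂ (x₁, y₁) m₁ G₂ ⟨g₁, n₁, n₁'⟩
  have prod_ne : ∀ (e : k[X]) (l : List (k[X] × k[X])), (∀ p ∈ l, p.1 ≠ e) →
      (l.map fun p => (p.1 - e).map (algebraMap k kb)).prod ≠ 0 := by
    intro e l hl
    rw [Ne, List.prod_eq_zero_iff, List.mem_map]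
    rintro ⟨p, hp, h0⟩
    rw [Polynomial.map_eq_zero] at h0
    exact hl p hp (sub_eq_zero.mp h0)
  refine ⟨l₁, G₁, fun α => ?_, fun α => ?_⟩
  · rw [par_mul hA (prod_ne _ _ fun p hp => (G₁ p hp).2.1)]
    rw [hl₁, par_opt (fun p hp => (G₂ p hp).2.1) n₁, hl₂, par_opt (fun p hp => (G₃ p hp).2.1) n₂,
      hl₃, par_opt (fun p hp => (G₄ p hp).2.1) n₃, hl₄, par_opt (fun p hp => (G₅ p hp).2.1) n₄,
      hl₅, par_opt (fun p hp => absurd hp List.not_mem_nil) n₅]
    dsimp only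
    rw [s₁, s₂, s₃, s₄, s₅, par_two h.a_ne h.c_ne (neg_ne_zero.mpr hu),
      par_two h.a'_ne h.c'_ne one_ne_zero, par_two h.a_ne h.a'_ne hneg,
      par_two h.a'_ne h.c_ne hneg, par_two h.a_ne h.c_ne one_ne_zero, List.map_nil,
      List.prod_nil, par_one, add_zero]
    exact kA α
  · rw [par_mul hB (prod_ne _ _ fun p hp => (G₁ p hp).2.2)]
    rw [hl₁, par_opt (fun p hp => (G₂ p hp).2.2) n₁', hl₂,
      par_opt (fun p hp => (G₃ p hp).2.2) n₂',
      hl₃, par_opt (fun p hp => (G₄ p hp).2.2) n₃', hl₄, par_opt (fun p hp => (G₅ p hp).2.2) n₄',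
      hl₅, par_opt (fun p hp => absurd hp List.not_mem_nil) n₅']
    dsimp only
    rw [t₁, t₂, t₃, t₄, t₅, par_two h.b_ne h.c_ne hv,
      par_two h.b'_ne h.c'_ne one_ne_zero, par_two h.b_ne h.b'_ne hneg,
      par_two h.b_ne h.c_ne hneg, par_two h.b'_ne h.c_ne one_ne_zero, List.map_nil,
      List.prod_nil, par_one, add_zero]
    exact kB α

end Final

end Pool.Agent.Lib.MP_89bcae_ag
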