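import Mathlib
import Pool.Agent.Lib.MP_89bcae_ag.Rational

/-!
# The Tate conjecture at two for pull-backs of rational elliptic surfaces
-/

open Polynomial WeierstrassCurve WeierstrassCurve.Affine IsDedekindDomain WithZero

open scoped Classical

namespace Pool.Agent.Lib.MP_89bcae_ag

section LevelOne

variable {k kb F Ω : Type*} [Field k] [Field kb] [Algebra k kb] [Algebra.IsAlgebraic k kb]
  [IsAlgClosed kb] [Field F] [Algebra kb[X] F] [IsFractionRing kb[X] F] [Algebra k[X] F]
  [Field Ω] [Algebra F Ω] [Algebra k[X] Ω] [IsScalarTower k[X] F Ω] [Algebra kb[X] Ω]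
  [IsScalarTower kb[X] F Ω] [IsSepClosure F Ω]

variable {n : ℕ} {u v ρ : k} {a b : k[X]}

/-- Every invariant Selmer class is, modulo two, the Kummer class of a `k(t)`-rational point. -/
theorem RatPair.level_one (h : RatPair n u v ρ a b)
    (hk : ∀ p : k[X], algebraMap k[X] F p = algebraMap kb[X] F (p.map (algebraMap k kb)))
    {L : Type*} [Field L] [Algebra F L] (w : Valuation L ℤᵐ⁰)
    (hw : ∀ p : kb[X], p ≠ 0 → lg w (algebraMap F L (algebraMap kb[X] F p)) = p.natDegree)
    {K : Type*} [Field K] [Algebra k[X] K] [IsFractionRing k[X] K] (f : K →ₐ[k[X]] Ω)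
    (c : TateCocycle F Ω (twoTorsionCurve (eOne u v a b) (eTwo u v a b)))
    (hfin : ∀ α : kb, IsLocallyTrivial ((placeOf α).adicCompletion F) (c.level 1))
    (hinf : IsLocallyTrivial L (c.level 1)) (hinv : c.IsInvariantModTorsion) :
    c.IsKummerOf K 1 := by
  have : IsGalois F Ω := inferInstance
  have hFinj : Function.Injective (algebraMap k[X] F) := by
    intro x y hxy
    rw [hk, hk] at hxy
    exact map_injective _ (algebraMap k kb).injective (IsFractionRing.injective kb[X] F hxy)
  have hF := h.splitAt F hFinj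
  have hK := h.splitAt K (IsFractionRing.injective k[X] K)
  have hΩ : SplitAt Ω (twoTorsionCurve (eOne u v a b) (eTwo u v a b)) 0 (eOne u v a b)
    (eTwo u v a b) := hF.up (Algebra.ofId F Ω)
  have c2 := level_one_two_torsion c
  have cmul : ∀ g g', c.level 1 (g * g') = c.level 1 g + c.level 1 g' := by
    intro g g'
    rw [c.level_mul, map_two_torsion (g : Ω →ₐ[F] Ω) hΩ (c2 g')]
  -- the two representing polynomials
  obtain ⟨A, hA⟩ := exists_pRep (kb := kb) hΩ.rot c2 cmul (c.isLocallyConstant_level 1)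
  obtain ⟨B, hB⟩ := exists_pRep (kb := kb) hΩ.rot.swap12 c2 cmul (c.isLocallyConstant_level 1)
  have hAB := PRep.third (hΩ := hΩ) c2 hA hB
  obtain ⟨d12, d21, d1, d2⟩ := h.degrees
  have hev : Even (n + n) := ⟨n, rfl⟩
  have hone : (1 : k) ≠ 0 := one_ne_zero
  have hneg : (-1 : k) ≠ 0 := neg_ne_zero.mpr one_ne_zero
  have i12 : eOne u v a b - eTwo u v a b = C 1 * ((a - b) * (C u * a + C (v - 1) * b)) := by
    rw [eOne_sub_eTwo, C_1, one_mul]
  have i21 : eTwo u v a b - eOne u v a b = C (-1) * ((a - b) * (C u * a + C (v - 1) * b)) := by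
    rw [← neg_sub, eOne_sub_eTwo, C_neg, C_1, neg_mul, one_mul]
  have i1 : eOne u v a b - 0 = C 1 * (a * (C u * a + C v * b)) := by
    rw [sub_zero, eOne, C_1, one_mul]
  have i2 : eTwo u v a b - 0 = C 1 * (b * (C (u + 1) * a + C (v - 1) * b)) := by
    rw [sub_zero, eTwo, C_1, one_mul]
  have j1 : 0 - eOne u v a b = C (-1) * (a * (C u * a + C v * b)) := by
    rw [zero_sub, eOne, C_neg, C_1, neg_mul, one_mul]
  have j2 : 0 - eTwo u v a b = C (-1) * (b * (C (u + 1) * a + C (v - 1) * b)) := by
    rw [zero_sub, eTwo, C_neg, C_1, neg_mul, one_mul]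
  have ra : a = C 1 * a + C 0 * b := by simp
  have rb : b = C 0 * a + C 1 * b := by simp
  have rc : a - b = C 1 * a + C (-1) * b := by simp [sub_eq_add_neg]
  have hu := h.u_ne
  have huv := h.uv_ne
  have hv := h.v_ne
  -- third character at the points of type `c`
  have third : ∀ α : kb, α ∉ rootSetOf kb a → α ∉ rootSetOf kb (C u * a + C v * b) →
      α ∉ rootSetOf kb b → α ∉ rootSetOf kb (C (u + 1) * a + C (v - 1) * b) →
      par B α = par A α := by
    intro α h1 h2 h3 h4
    have m1 := RatPair.mult_zero h.a_ne h.a'_ne hneg h1 h2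
    have m2 := RatPair.mult_zero h.b_ne h.b'_ne hneg h3 h4
    rw [← j1] at m1
    rw [← j2] at m2
    have h5 : par (A * B) α = 0 := par_eq_zero_of_local hk hΩ hF c2 α (hfin α) hAB
      (m1.trans m2.symm) (by rw [m1]; exact Even.zero)
    rw [par_mul hA.ne_zero hB.ne_zero] at h5
    exact (CharTwo.add_eq_zero.mp h5).symm
  obtain ⟨l, hl, zA, zB⟩ := h.exists_list hA.ne_zero hB.ne_zero
    (natDegree_eq_zero_of_local hk w hw hΩ.rot hF.rot c2 hinf hA (d12.trans d1.symm)
      (by rw [d12]; exact hev))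
    (natDegree_eq_zero_of_local hk w hw hΩ.rot.swap12 hF.rot.swap12 c2 hinf hB
      (d21.trans d2.symm) (by rw [d21]; exact hev))
    (fun α h1 h2 h3 h4 => by
      have m1 := RatPair.mult_zero h.c_ne h.c'_ne hone h3 h4
      have m2 := RatPair.mult_zero h.a_ne h.a'_ne hone h1 h2
      rw [← i12] at m1
      rw [← i1] at m2
      exact par_eq_zero_of_local hk hΩ.rot hF.rot c2 α (hfin α) hA
        (m1.trans m2.symm) (by rw [m1]; exact Even.zero))
    (fun α h1 h2 h3 h4 => by
      have m1 := RatPair.mult_zero h.c_ne h.c'_ne hneg h3 h4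
      have m2 := RatPair.mult_zero h.b_ne h.b'_ne hone h1 h2
      rw [← i21] at m1
      rw [← i2] at m2
      exact par_eq_zero_of_local hk hΩ.rot.swap12 hF.rot.swap12 c2 α (hfin α) hB
        (m1.trans m2.symm) (by rw [m1]; exact Even.zero))
    (fun α hα => third α
      (fun h1 => h.no_common (x₁ := 1) (y₁ := 0) (x₂ := 1) (y₂ := -1) (by norm_num)
        (by rwa [← ra]) (by rwa [← rc]))
      (fun h1 => h.no_common (x₁ := u) (y₁ := v) (x₂ := 1) (y₂ := -1)
        (by intro h0; apply huv; linear_combination -h0) h1 (by rwa [← rc]))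
      (fun h1 => h.no_common (x₁ := 0) (y₁ := 1) (x₂ := 1) (y₂ := -1) (by norm_num)
        (by rwa [← rb]) (by rwa [← rc]))
      (fun h1 => h.no_common (x₁ := u + 1) (y₁ := v - 1) (x₂ := 1) (y₂ := -1)
        (by intro h0; apply huv; linear_combination -h0) h1 (by rwa [← rc])))
    (fun α hα => third α
      (fun h1 => h.no_common (x₁ := 1) (y₁ := 0) (x₂ := u) (y₂ := v - 1)
        (by rw [one_mul, mul_zero, sub_zero]; exact hv) (by rwa [← ra]) hα)
      (fun h1 => h.no_common (x₁ := u) (y₁ := v) (x₂ := u) (y₂ := v - 1)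
        (by intro h0; apply hu; linear_combination -h0) h1 hα)
      (fun h1 => h.no_common (x₁ := 0) (y₁ := 1) (x₂ := u) (y₂ := v - 1)
        (by intro h0; apply hu; linear_combination -h0) (by rwa [← rb]) hα)
      (fun h1 => h.no_common (x₁ := u + 1) (y₁ := v - 1) (x₂ := u) (y₂ := v - 1)
        (by intro h0; apply hv; linear_combination h0) h1 hα))
    (fun g hg => level_one_const hk hΩ.rot (hg.oddOrbit h.odd).1 c hinv hA)
    (fun g hg => level_one_const hk hΩ.rot.swap12 (hg.oddOrbit h.odd).1 c hinv hB)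
  exact isKummerOf_one_of_list hk hF.rot hΩ.rot hK.rot f c hA hB l hl zA zB

end LevelOne

universe w

/-- The Tate conjecture at two for pull-backs of rational elliptic surfaces. -/
theorem RatPair.tateAtTwo {k : Type w} [Field k] {n : ℕ} {u v ρ : k} {a b : k[X]}
    (h : RatPair n u v ρ a b) :
    TateAtTwo (twoTorsionCurve (eOne u v a b) (eTwo u v a b)) := by
  intro Ω _ _ _ _ _ c hc hinv
  let _ : Algebra (AlgebraicClosure k)[X] Ω :=
    ((algebraMap (RatFunc (AlgebraicClosure k)) Ω).comp (algebraMap (AlgebraicClosure k)[X]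
      (RatFunc (AlgebraicClosure k)))).toAlgebra
  have : IsScalarTower (AlgebraicClosure k)[X] (RatFunc (AlgebraicClosure k)) Ω :=
    IsScalarTower.of_algebraMap_eq fun _ => rfl
  refine isKummerOf_of_selmer ?_ (h.splitAt _ geom_injective) c hc hinv
  intro c hc hinv
  exact h.level_one (kb := AlgebraicClosure k) geom_compat
    (L := RatFunc.CompletionAtInfty (AlgebraicClosure k)) Valued.v
    (fun p hp => lg_infty hp) geomEmb c (fun α => (hc 1).1 (placeOf α)) (hc 1).2 hinv

end Pool.Agent.Lib.MP_89bcae_ag
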