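import Mathlib
import Pool.Agent.Lib.MP_89bcae_ag.SDenB14

/-!
# Counting the polynomials with a simple collision, with a simple pole and with simple roots
-/

open Polynomial

open scoped Classical

set_option linter.unusedSimpArgs false
set_option linter.unusedVariables false
set_option linter.unusedSectionVars false
set_option linter.style.haveILetI false

namespace Pool.Agent.Lib.MP_89bcae_ag

section Count

variable {p : ℕ} [Fact p.Prime]

/-- The noncritical values. -/
lemma noncritical14 {d : ℕ} (hd : d ≠ 0) (hp : d < p) {g : ℤ[X]} (hg : g.Monic)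
    (hdeg : g.natDegree = d) :
    p - (d - 1) ≤ (Finset.univ.filter fun e : ZMod p =>
      (g.map (Int.castRingHom (ZMod p)) - C e).Separable).card := by
  have hpp : p.Prime := Fact.out
  have hder : derivative (g.map (Int.castRingHom (ZMod p))) ≠ 0 := by
    apply derivative_ne_zero14 (hg.map _)
    rw [hg.natDegree_map, hdeg, Ne, ZMod.natCast_eq_zero_iff]
    intro h
    have := Nat.le_of_dvd (by omega) h
    omega
  have h1 := card_crit14 hder (Finset.univ.filter fun e : ZMod p =>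
      ¬ (g.map (Int.castRingHom (ZMod p)) - C e).Separable)
    (fun e he => (Finset.mem_filter.mp he).2)
  rw [hg.natDegree_map, hdeg] at h1
  have h2 := Finset.card_filter_add_card_filter_not (s := (Finset.univ : Finset (ZMod p)))
    (fun e => (g.map (Int.castRingHom (ZMod p)) - C e).Separable)
  rw [Finset.card_univ, ZMod.card] at h2
  omega

theorem count_typeC_aux14 (m : ℕ) (hm : 1 ≤ m) {d : ℕ} (hd : d ≠ 0) (hdp : d < p) {g : ℤ[X]}
    (hg : g.Monic) (hdeg : g.natDegree = d) :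
    (p - 1) * (p - (d - 1)).choose m * p ^ (m + 2) ≤
      2 * {v : Fin (m + 2) → ZMod (p ^ 2) | TypeC8 p g (m + 1) v}.ncard := by
  have hp : p.Prime := Fact.out
  have : NeZero p := ⟨hp.ne_zero⟩
  have : NeZero (p ^ 2) := ⟨pow_ne_zero 2 hp.ne_zero⟩
  set g' := g.map (Int.castRingHom (ZMod p)) with hg'
  obtain ⟨A, hAdef⟩ : ∃ A : Finset (ZMod p),
      A = Finset.univ.filter fun e => (g' - C e).Separable := ⟨_, rfl⟩
  have hA : p - (d - 1) ≤ A.card := by
    rw [hAdef]
    exact noncritical14 hd hdp hg hdeg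
  set B := ((Finset.univ.filter fun c : ZMod p => c ≠ 0) ×ˢ A.powersetCard m).image
      (fun q => fun i : Fin (m + 2) => (polC8 q.1 q.2 (pick8 q.2)).coeff i) with hB
  have hBc : (p - 1) * (p - (d - 1)).choose m ≤ B.card := by
    rw [hB, card_polC8 m hm A]
    exact Nat.mul_le_mul_left _ (Nat.choose_le_choose m hA)
  obtain ⟨Q, hQ⟩ : ∃ Q : Finset (Fin (m + 2) → ZMod (p ^ 2)),
      Q = Finset.univ.filter fun v => red8 p v ∈ B := ⟨_, rfl⟩
  have hlift : B.card * p ^ (m + 2) ≤ Q.card := by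
    rw [hQ]
    convert card_lift8 (p := p) (m + 1) B
  refine (Nat.mul_le_mul_right _ hBc).trans (hlift.trans ?_)
  -- the translation
  let T : Finset (Fin (m + 2) → ZMod (p ^ 2)) := Finset.univ.filter fun v => TypeC8 p g (m + 1) v
  have hT : {v : Fin (m + 2) → ZMod (p ^ 2) | TypeC8 p g (m + 1) v}.ncard = T.card := by
    rw [← Set.ncard_coe_finset]
    congr 1
    ext v
    simp [T]
  rw [hT]
  have hsplit : (Q.filter (fun v => TypeC8 p g (m + 1) v)).card +
      (Q.filter (fun v => ¬ TypeC8 p g (m + 1) v)).card = Q.card := by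
    convert Finset.card_filter_add_card_filter_not (s := Q) (fun v => TypeC8 p g (m + 1) v)
  have hA1 : (Q.filter (fun v => TypeC8 p g (m + 1) v)).card ≤ T.card := by
    apply Finset.card_le_card
    intro v hv
    rw [Finset.mem_filter] at hv
    exact Finset.mem_filter.mpr ⟨Finset.mem_univ _, hv.2⟩
  have hA2 : (Q.filter (fun v => ¬ TypeC8 p g (m + 1) v)).card ≤ T.card := by
    apply Finset.card_le_card_of_injOn
      (fun v => v + Pi.single (0 : Fin (m + 2)) (p : ZMod (p ^ 2)))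
    · intro v hv
      rw [Finset.mem_coe, Finset.mem_filter, hQ, Finset.mem_filter] at hv
      obtain ⟨⟨-, hvB⟩, hvT⟩ := hv
      rw [hB, Finset.mem_image] at hvB
      obtain ⟨⟨c, S⟩, hq, hv⟩ := hvB
      rw [Finset.mem_product, Finset.mem_filter, Finset.mem_powersetCard] at hq
      have hc : c ≠ 0 := hq.1.2
      have hS : S.card = m := hq.2.2
      have hne : S.Nonempty := Finset.card_pos.mp (by omega)
      have hpm := pick_mem8 hne
      have hSA : ∀ e ∈ S, (g' - C e).Separable := fun e he =>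
        by
          have h8 := hq.2.1 he
          rw [hAdef, Finset.mem_filter] at h8
          exact h8.2
      obtain ⟨h1, h2⟩ := natDegree_polC8 hc S (pick8 S)
      have hred : ∀ v' : Fin (m + 2) → ZMod (p ^ 2), red8 p v' = red8 p v →
          ∑ i : Fin (m + 2), v' i * (((pick8 S).val : ℤ) : ZMod (p ^ 2)) ^ (i : ℕ) ≠ 0 →
          TypeC8 p g (m + 1) v' := by
        intro v' hv' hne'
        have hpick : ((((pick8 S).val : ℤ)) : ZMod p) = pick8 S := by
          push_cast
          exact ZMod.natCast_zmod_val _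
        refine ⟨((pick8 S).val : ℤ), C c * ∏ e ∈ S.erase (pick8 S), (X - C e), ?_, ?_, hne', ?_⟩
        · rw [hpick, hv', ← hv, ← polC8_eq hpm]
          exact polyOf_coeff8 (show (polC8 c S (pick8 S)).natDegree ≤ m + 1 by omega)
        · rw [hpick]
          exact separable_polC8 hc hpm hSA
        · rw [hv', ← hv]
          show (polC8 c S (pick8 S)).coeff (Fin.last (m + 1) : ℕ) ≠ 0
          rw [Fin.val_last]
          have h5 : m + 1 = (polC8 c S (pick8 S)).natDegree := by omega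
          rw [h5, coeff_natDegree, h2]
          exact hc
      have h0 : ∑ i : Fin (m + 2), v i * (((pick8 S).val : ℤ) : ZMod (p ^ 2)) ^ (i : ℕ) = 0 := by
        by_contra h0
        exact hvT (hred v rfl h0)
      rw [Finset.mem_coe, Finset.mem_filter]
      refine ⟨Finset.mem_univ _, hred _ ?_ ?_⟩
      · funext i
        show ZMod.castHom (dvd_pow_self p two_ne_zero) (ZMod p)
          ((v + Pi.single (0 : Fin (m + 2)) (p : ZMod (p ^ 2)) : Fin (m + 2) → ZMod (p ^ 2)) i) =
            ZMod.castHom (dvd_pow_self p two_ne_zero) (ZMod p) (v i)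
        rw [Pi.add_apply, map_add]
        by_cases hi : i = 0
        · rw [hi, Pi.single_eq_same, map_natCast, ZMod.natCast_self, add_zero]
        · rw [Pi.single_eq_of_ne hi, map_zero, add_zero]
      · have h6 : ∑ i : Fin (m + 2),
            (v + Pi.single (0 : Fin (m + 2)) (p : ZMod (p ^ 2)) : Fin (m + 2) → ZMod (p ^ 2)) i *
            (((pick8 S).val : ℤ) : ZMod (p ^ 2)) ^ (i : ℕ) = p := by
          simp only [Pi.add_apply, add_mul]
          rw [Finset.sum_add_distrib, h0, zero_add, Finset.sum_eq_single 0]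
          · rw [Pi.single_eq_same, Fin.val_zero, pow_zero, mul_one]
          · intro i _ hi
            rw [Pi.single_eq_of_ne hi, zero_mul]
          · intro h; exact absurd (Finset.mem_univ _) h
        rw [h6]
        intro h7
        rw [ZMod.natCast_eq_zero_iff] at h7
        have h8 := Nat.le_of_dvd hp.pos h7
        have h9 := hp.two_le
        nlinarith
    · intro v _ v' _ h
      exact add_right_cancel h
  omega

/-! ### Simple roots -/

/-- The polynomial with the leading coefficient `c` and the simple roots `S`. -/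
noncomputable def polS14 (c : ZMod p) (S : Finset (ZMod p)) : (ZMod p)[X] :=
  C c * ∏ e ∈ S, (X - C e)

theorem natDegree_polS14 {c : ZMod p} (hc : c ≠ 0) (S : Finset (ZMod p)) :
    (polS14 c S).natDegree = S.card ∧ (polS14 c S).leadingCoeff = c := by
  have h1 : (∏ e ∈ S, (X - C e : (ZMod p)[X])).Monic := monic_prod_X_sub_C _ _
  unfold polS14
  constructor
  · rw [natDegree_C_mul hc, natDegree_prod_of_monic _ _ (fun e _ => monic_X_sub_C e)]
    simp
  · rw [leadingCoeff_mul, leadingCoeff_C, h1.leadingCoeff, mul_one]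

theorem roots_polS14 {c : ZMod p} (hc : c ≠ 0) (S : Finset (ZMod p)) :
    (polS14 c S).roots.toFinset = S := by
  unfold polS14
  rw [roots_C_mul _ hc, roots_prod_X_sub_C]
  ext x
  simp

theorem separable_polS14 {c : ZMod p} (hc : c ≠ 0) {S : Finset (ZMod p)}
    {g : (ZMod p)[X]} (hS : ∀ e ∈ S, (g - C e).Separable) :
    ((polS14 c S).comp g).Separable := by
  have h1 : (polS14 c S).comp g = C c * ∏ e ∈ S, (g - C e) := by
    unfold polS14
    rw [mul_comp, C_comp, prod_comp]
    congr 1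
    exact Finset.prod_congr rfl fun e _ => by rw [sub_comp, X_comp, C_comp]
  rw [h1]
  have h2 : (∏ e ∈ S, (g - C e)).Separable := by
    apply separable_prod'
    · intro x hx y hy hxy
      refine ⟨C ((y - x)⁻¹), -C ((y - x)⁻¹), ?_⟩
      have h3 : C ((y - x)⁻¹) * C (y - x) = (1 : (ZMod p)[X]) := by
        rw [← C_mul, inv_mul_cancel₀ (sub_ne_zero.mpr (Ne.symm hxy)), C_1]
      rw [C_sub] at h3
      linear_combination h3
    · exact hS
  have h3 : (C c : (ZMod p)[X]).Separable := separable_C c |>.mpr (isUnit_iff_ne_zero.mpr hc)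
  refine h3.mul h2 ⟨C c⁻¹, 0, ?_⟩
  rw [zero_mul, add_zero, ← C_mul, inv_mul_cancel₀ hc, C_1]

/-- The number of the polynomials modulo `p` with simple roots in a given set. -/
theorem card_polS14 (m n : ℕ) (hmn : m ≤ n) (A : Finset (ZMod p)) :
    (((Finset.univ.filter fun c : ZMod p => c ≠ 0) ×ˢ A.powersetCard m).image
      (fun q => fun i : Fin (n + 1) => (polS14 q.1 q.2).coeff i)).card =
      (p - 1) * A.card.choose m := by
  have hp : p.Prime := Fact.out
  have : NeZero p := ⟨hp.ne_zero⟩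
  rw [Finset.card_image_of_injOn, Finset.card_product, Finset.card_powersetCard]
  · congr 1
    rw [Finset.filter_ne', Finset.card_erase_of_mem (Finset.mem_univ _), Finset.card_univ,
      ZMod.card]
  · rintro ⟨c, S⟩ hq ⟨c', S'⟩ hq' h
    rw [Finset.mem_coe, Finset.mem_product, Finset.mem_filter, Finset.mem_powersetCard] at hq hq'
    have hc : c ≠ 0 := hq.1.2
    have hc' : c' ≠ 0 := hq'.1.2
    have hS : S.card = m := hq.2.2
    have hS' : S'.card = m := hq'.2.2
    obtain ⟨h1, h2⟩ := natDegree_polS14 hc S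
    obtain ⟨h1', h2'⟩ := natDegree_polS14 hc' S'
    have h3 : polS14 c S = polS14 c' S' := by
      rw [← polyOf_coeff8 (n := n) (D := polS14 c S) (by omega),
        ← polyOf_coeff8 (n := n) (D := polS14 c' S') (by omega)]
      exact congrArg polyOf8 h
    have h4 : c = c' := by rw [← h2, h3, h2']
    have h5 : S = S' := by
      rw [← roots_polS14 hc S, h3, roots_polS14 hc' S']
    rw [h4, h5]

/-- Type S. -/
theorem count_typeS_aux14 (n : ℕ) {d : ℕ} (hd : d ≠ 0) (hdp : d < p) {g : ℤ[X]}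
    (hg : g.Monic) (hdeg : g.natDegree = d) :
    (p - 1) * (p - (d - 1)).choose n ≤ {v : Fin (n + 1) → ZMod p |
      TypeS14 (g.map (Int.castRingHom (ZMod p))) (polyOf8 v) n}.ncard := by
  set g' := g.map (Int.castRingHom (ZMod p)) with hg'
  obtain ⟨A, hAdef⟩ : ∃ A : Finset (ZMod p),
      A = Finset.univ.filter fun e => (g' - C e).Separable := ⟨_, rfl⟩
  have hA : p - (d - 1) ≤ A.card := by
    rw [hAdef]
    exact noncritical14 hd hdp hg hdeg
  refine (Nat.mul_le_mul_left _ (Nat.choose_le_choose n hA)).trans ?_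
  rw [← card_polS14 n n le_rfl A, ← Set.ncard_coe_finset]
  apply Set.ncard_le_ncard _ (Set.toFinite _)
  intro v hv
  rw [Finset.mem_coe, Finset.mem_image] at hv
  obtain ⟨⟨c, S⟩, hq, hv⟩ := hv
  rw [Finset.mem_product, Finset.mem_filter, Finset.mem_powersetCard] at hq
  have hc : c ≠ 0 := hq.1.2
  have hS : S.card = n := hq.2.2
  have hSA : ∀ e ∈ S, (g' - C e).Separable := fun e he => by
    have h8 := hq.2.1 he
    rw [hAdef, Finset.mem_filter] at h8
    exact h8.2
  obtain ⟨h1, h2⟩ := natDegree_polS14 hc S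
  have h3 : polyOf8 v = polS14 c S := by
    rw [← hv]
    exact polyOf_coeff8 (show (polS14 c S).natDegree ≤ n by omega)
  refine ⟨by rw [h3, h1, hS], ?_⟩
  rw [h3]
  exact separable_polS14 hc hSA

/-! ### A simple pole -/

/-- The residue classes modulo `p ^ 2` of the polynomials `D` of degree `n` for which `p` divides the
leading coefficient once, the reduction of `D` has degree `n - 1`, and for the reduction `D(g)` is
separable. -/
def TypeE14 (p : ℕ) (g : ℤ[X]) (n : ℕ) (v : Fin (n + 1) → ZMod (p ^ 2)) : Prop :=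
  red8 p v (Fin.last n) = 0 ∧ v (Fin.last n) ≠ 0 ∧ (polyOf8 (red8 p v)).natDegree = n - 1 ∧
    ((polyOf8 (red8 p v)).comp (g.map (Int.castRingHom (ZMod p)))).Separable

/-- The same for an integral polynomial. -/
def IsPoleZ14 (p : ℕ) (g D : ℤ[X]) (n : ℕ) : Prop :=
  (p : ℤ) ∣ D.coeff n ∧ ¬ (p : ℤ) ^ 2 ∣ D.coeff n ∧ ¬ (p : ℤ) ∣ D.coeff (n - 1) ∧
    ((D.map (Int.castRingHom (ZMod p))).comp (g.map (Int.castRingHom (ZMod p)))).Separable

theorem isPoleZ14_of_typeE14 {g : ℤ[X]} {n : ℕ} (hn : 2 ≤ n) {D : ℤ[X]} (hD : D.natDegree ≤ n)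
    (h : TypeE14 p g n (fun i => (D.coeff i : ZMod (p ^ 2)))) : IsPoleZ14 p g D n := by
  have hp : p.Prime := Fact.out
  obtain ⟨h1, h2, h3, h4⟩ := h
  have hred : red8 p (fun i : Fin (n + 1) => (D.coeff i : ZMod (p ^ 2))) =
      fun i : Fin (n + 1) => (D.map (Int.castRingHom (ZMod p))).coeff i := by
    funext i
    unfold red8
    rw [map_intCast, coeff_map]
    rfl
  rw [hred, polyOf_coeff8 (natDegree_map_le.trans hD)] at h3 h4
  rw [hred] at h1
  refine ⟨?_, ?_, ?_, h4⟩
  · change (D.map (Int.castRingHom (ZMod p))).coeff (Fin.last n : ℕ) = 0 at h1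
    rw [Fin.val_last, coeff_map] at h1
    exact (ZMod.intCast_zmod_eq_zero_iff_dvd _ _).mp h1
  · intro hdvd
    apply h2
    change ((D.coeff (Fin.last n : ℕ) : ℤ) : ZMod (p ^ 2)) = 0
    rw [Fin.val_last, ZMod.intCast_zmod_eq_zero_iff_dvd]
    exact_mod_cast hdvd
  · intro hdvd
    have h5 : (D.map (Int.castRingHom (ZMod p))).coeff (n - 1) = 0 := by
      rw [coeff_map]
      exact (ZMod.intCast_zmod_eq_zero_iff_dvd _ _).mpr hdvd
    rw [← h3, coeff_natDegree, leadingCoeff_eq_zero] at h5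
    rw [h5, natDegree_zero] at h3
    omega

theorem count_typeE_aux14 (m : ℕ) (hm : 1 ≤ m) {d : ℕ} (hd : d ≠ 0) (hdp : d < p) {g : ℤ[X]}
    (hg : g.Monic) (hdeg : g.natDegree = d) :
    (p - 1) * (p - (d - 1)).choose m * p ^ (m + 2) ≤
      2 * {v : Fin (m + 2) → ZMod (p ^ 2) | TypeE14 p g (m + 1) v}.ncard := by
  have hp : p.Prime := Fact.out
  have : NeZero p := ⟨hp.ne_zero⟩
  have : NeZero (p ^ 2) := ⟨pow_ne_zero 2 hp.ne_zero⟩
  set g' := g.map (Int.castRingHom (ZMod p)) with hg'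
  obtain ⟨A, hAdef⟩ : ∃ A : Finset (ZMod p),
      A = Finset.univ.filter fun e => (g' - C e).Separable := ⟨_, rfl⟩
  have hA : p - (d - 1) ≤ A.card := by
    rw [hAdef]
    exact noncritical14 hd hdp hg hdeg
  set B := ((Finset.univ.filter fun c : ZMod p => c ≠ 0) ×ˢ A.powersetCard m).image
      (fun q => fun i : Fin (m + 2) => (polS14 q.1 q.2).coeff i) with hB
  have hBc : (p - 1) * (p - (d - 1)).choose m ≤ B.card := by
    rw [hB, card_polS14 m (m + 1) (by omega) A]
    exact Nat.mul_le_mul_left _ (Nat.choose_le_choose m hA)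
  obtain ⟨Q, hQ⟩ : ∃ Q : Finset (Fin (m + 2) → ZMod (p ^ 2)),
      Q = Finset.univ.filter fun v => red8 p v ∈ B := ⟨_, rfl⟩
  have hlift : B.card * p ^ (m + 2) ≤ Q.card := by
    rw [hQ]
    convert card_lift8 (p := p) (m + 1) B
  refine (Nat.mul_le_mul_right _ hBc).trans (hlift.trans ?_)
  -- the translation
  let T : Finset (Fin (m + 2) → ZMod (p ^ 2)) := Finset.univ.filter fun v => TypeE14 p g (m + 1) v
  have hT : {v : Fin (m + 2) → ZMod (p ^ 2) | TypeE14 p g (m + 1) v}.ncard = T.card := by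
    rw [← Set.ncard_coe_finset]
    congr 1
    ext v
    simp [T]
  rw [hT]
  have hsplit : (Q.filter (fun v => TypeE14 p g (m + 1) v)).card +
      (Q.filter (fun v => ¬ TypeE14 p g (m + 1) v)).card = Q.card := by
    convert Finset.card_filter_add_card_filter_not (s := Q) (fun v => TypeE14 p g (m + 1) v)
  have hA1 : (Q.filter (fun v => TypeE14 p g (m + 1) v)).card ≤ T.card := by
    apply Finset.card_le_card
    intro v hv
    rw [Finset.mem_filter] at hv
    exact Finset.mem_filter.mpr ⟨Finset.mem_univ _, hv.2⟩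
  have hA2 : (Q.filter (fun v => ¬ TypeE14 p g (m + 1) v)).card ≤ T.card := by
    apply Finset.card_le_card_of_injOn
      (fun v => v + Pi.single (Fin.last (m + 1)) (p : ZMod (p ^ 2)))
    · intro v hv
      rw [Finset.mem_coe, Finset.mem_filter, hQ, Finset.mem_filter] at hv
      obtain ⟨⟨-, hvB⟩, hvT⟩ := hv
      rw [hB, Finset.mem_image] at hvB
      obtain ⟨⟨c, S⟩, hq, hv⟩ := hvB
      rw [Finset.mem_product, Finset.mem_filter, Finset.mem_powersetCard] at hq
      have hc : c ≠ 0 := hq.1.2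
      have hS : S.card = m := hq.2.2
      have hSA : ∀ e ∈ S, (g' - C e).Separable := fun e he => by
        have h8 := hq.2.1 he
        rw [hAdef, Finset.mem_filter] at h8
        exact h8.2
      obtain ⟨h1, h2⟩ := natDegree_polS14 hc S
      have hpol : polyOf8 (red8 p v) = polS14 c S := by
        rw [← hv]
        exact polyOf_coeff8 (show (polS14 c S).natDegree ≤ m + 1 by omega)
      have hlast : red8 p v (Fin.last (m + 1)) = 0 := by
        rw [← hv]
        show (polS14 c S).coeff (Fin.last (m + 1) : ℕ) = 0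
        rw [Fin.val_last]
        exact coeff_eq_zero_of_natDegree_lt (by omega)
      have hred : ∀ v' : Fin (m + 2) → ZMod (p ^ 2), red8 p v' = red8 p v →
          v' (Fin.last (m + 1)) ≠ 0 → TypeE14 p g (m + 1) v' := by
        intro v' hv' hne'
        refine ⟨by rw [hv', hlast], hne', ?_, ?_⟩
        · rw [hv', hpol, h1, hS]
          rfl
        · rw [hv', hpol]
          exact separable_polS14 hc hSA
      have h0 : v (Fin.last (m + 1)) = 0 := by
        by_contra h0
        exact hvT (hred v rfl h0)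
      rw [Finset.mem_coe, Finset.mem_filter]
      refine ⟨Finset.mem_univ _, hred _ ?_ ?_⟩
      · funext i
        show ZMod.castHom (dvd_pow_self p two_ne_zero) (ZMod p)
          ((v + Pi.single (Fin.last (m + 1)) (p : ZMod (p ^ 2)) :
            Fin (m + 2) → ZMod (p ^ 2)) i) =
            ZMod.castHom (dvd_pow_self p two_ne_zero) (ZMod p) (v i)
        rw [Pi.add_apply, map_add]
        by_cases hi : i = Fin.last (m + 1)
        · rw [hi, Pi.single_eq_same, map_natCast, ZMod.natCast_self, add_zero]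
        · rw [Pi.single_eq_of_ne hi, map_zero, add_zero]
      · show (v + Pi.single (Fin.last (m + 1)) (p : ZMod (p ^ 2)) :
            Fin (m + 2) → ZMod (p ^ 2)) (Fin.last (m + 1)) ≠ 0
        rw [Pi.add_apply, h0, Pi.single_eq_same, zero_add]
        intro h7
        rw [ZMod.natCast_eq_zero_iff] at h7
        have h8 := Nat.le_of_dvd hp.pos h7
        have h9 := hp.two_le
        nlinarith
    · intro v _ v' _ h
      exact add_right_cancel h
  omega

end Count

/-- The common numerical estimate. -/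
lemma numeric_lower14 {p m d : ℕ} (hm : 1 ≤ m) (hp : 2 * m + 2 * d + 2 ≤ p) :
    (p : ℝ) ^ (m + 1) / (2 ^ (m + 1) * m.factorial) ≤
      ((p - 1 : ℕ) : ℝ) * ((p - (d - 1)).choose m : ℝ) := by
  have h2 : ((p - (d - 1) + 1 - m : ℕ) : ℝ) ^ m ≤ m.factorial * (p - (d - 1)).choose m := by
    exact_mod_cast Nat.pow_sub_le_descFactorial (p - (d - 1)) m |>.trans_eq
      (Nat.descFactorial_eq_factorial_mul_choose _ _)
  have h3 : (p : ℝ) / 2 ≤ ((p - (d - 1) + 1 - m : ℕ) : ℝ) := by
    have h4 : p ≤ 2 * (p - (d - 1) + 1 - m) := by omega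
    have h5 : (p : ℝ) ≤ 2 * ((p - (d - 1) + 1 - m : ℕ) : ℝ) := by exact_mod_cast h4
    linarith
  have h4 : (p : ℝ) / 2 ≤ ((p - 1 : ℕ) : ℝ) := by
    have h4 : p ≤ 2 * (p - 1) := by omega
    have h5 : (p : ℝ) ≤ 2 * ((p - 1 : ℕ) : ℝ) := by exact_mod_cast h4
    linarith
  have h5 : ((p : ℝ) / 2) ^ m ≤ m.factorial * (p - (d - 1)).choose m :=
    (pow_le_pow_left₀ (by positivity) h3 m).trans h2
  have hf : (0 : ℝ) < m.factorial := by exact_mod_cast m.factorial_pos
  rw [div_le_iff₀ (by positivity)]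
  have h8 : ((p : ℝ) / 2) * ((p : ℝ) / 2) ^ m ≤
      ((p - 1 : ℕ) : ℝ) * (m.factorial * (p - (d - 1)).choose m) :=
    mul_le_mul h4 h5 (by positivity) (by positivity)
  have h9 : ((p : ℝ) / 2) * ((p : ℝ) / 2) ^ m = (p : ℝ) ^ (m + 1) / 2 ^ (m + 1) := by
    rw [← pow_succ', div_pow]
  rw [h9, div_le_iff₀ (by positivity)] at h8
  linarith

/-- **The number of the residue classes with a simple collision.** -/
theorem count_typeC14 (n : ℕ) (hn : 2 ≤ n) (d : ℕ) (hd : d ≠ 0) : ∃ c : ℝ, 0 < c ∧ ∃ P0 : ℕ,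
    ∀ p : ℕ, p.Prime → P0 ≤ p → ∀ g : ℤ[X], g.Monic → g.natDegree = d →
      c / p * ((p : ℝ) ^ 2) ^ (n + 1) ≤
        ({v : Fin (n + 1) → ZMod (p ^ 2) | TypeC8 p g n v}.ncard : ℝ) := by
  obtain ⟨m, rfl⟩ : ∃ m, n = m + 1 := ⟨n - 1, by omega⟩
  have hm : 1 ≤ m := by omega
  refine ⟨1 / (2 ^ (m + 2) * m.factorial), by positivity, 2 * m + 2 * d + 2,
    fun p hp hP g hg hdeg => ?_⟩
  have : Fact p.Prime := ⟨hp⟩
  have h1 := count_typeC_aux14 (p := p) m hm hd (by omega) hg hdeg
  have h7 := numeric_lower14 hm hP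
  have hp0 : (0 : ℝ) < p := by exact_mod_cast hp.pos
  have hf : (0 : ℝ) < m.factorial := by exact_mod_cast m.factorial_pos
  have h6 : (((p - 1 : ℕ) : ℝ) * ((p - (d - 1)).choose m : ℝ)) * (p : ℝ) ^ (m + 2) ≤
      2 * ({v : Fin (m + 2) → ZMod (p ^ 2) | TypeC8 p g (m + 1) v}.ncard : ℝ) := by
    exact_mod_cast h1
  have h8 : (p : ℝ) ^ (m + 1) / (2 ^ (m + 1) * m.factorial) * (p : ℝ) ^ (m + 2) ≤
      2 * ({v : Fin (m + 2) → ZMod (p ^ 2) | TypeC8 p g (m + 1) v}.ncard : ℝ) :=
    (mul_le_mul_of_nonneg_right h7 (by positivity)).trans h6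
  have h9 : 1 / (2 ^ (m + 2) * (m.factorial : ℝ)) / p * ((p : ℝ) ^ 2) ^ (m + 1 + 1) =
      (p : ℝ) ^ (m + 1) / (2 ^ (m + 1) * m.factorial) * (p : ℝ) ^ (m + 2) / 2 := by
    field_simp
    ring
  rw [h9]
  linarith

/-- **The number of the residue classes with a simple pole.** -/
theorem count_typeE14 (n : ℕ) (hn : 2 ≤ n) (d : ℕ) (hd : d ≠ 0) : ∃ c : ℝ, 0 < c ∧ ∃ P0 : ℕ,
    ∀ p : ℕ, p.Prime → P0 ≤ p → ∀ g : ℤ[X], g.Monic → g.natDegree = d →
      c / p * ((p : ℝ) ^ 2) ^ (n + 1) ≤
        ({v : Fin (n + 1) → ZMod (p ^ 2) | TypeE14 p g n v}.ncard : ℝ) := by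
  obtain ⟨m, rfl⟩ : ∃ m, n = m + 1 := ⟨n - 1, by omega⟩
  have hm : 1 ≤ m := by omega
  refine ⟨1 / (2 ^ (m + 2) * m.factorial), by positivity, 2 * m + 2 * d + 2,
    fun p hp hP g hg hdeg => ?_⟩
  have : Fact p.Prime := ⟨hp⟩
  have h1 := count_typeE_aux14 (p := p) m hm hd (by omega) hg hdeg
  have h7 := numeric_lower14 hm hP
  have hp0 : (0 : ℝ) < p := by exact_mod_cast hp.pos
  have hf : (0 : ℝ) < m.factorial := by exact_mod_cast m.factorial_pos
  have h6 : (((p - 1 : ℕ) : ℝ) * ((p - (d - 1)).choose m : ℝ)) * (p : ℝ) ^ (m + 2) ≤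
      2 * ({v : Fin (m + 2) → ZMod (p ^ 2) | TypeE14 p g (m + 1) v}.ncard : ℝ) := by
    exact_mod_cast h1
  have h8 : (p : ℝ) ^ (m + 1) / (2 ^ (m + 1) * m.factorial) * (p : ℝ) ^ (m + 2) ≤
      2 * ({v : Fin (m + 2) → ZMod (p ^ 2) | TypeE14 p g (m + 1) v}.ncard : ℝ) :=
    (mul_le_mul_of_nonneg_right h7 (by positivity)).trans h6
  have h9 : 1 / (2 ^ (m + 2) * (m.factorial : ℝ)) / p * ((p : ℝ) ^ 2) ^ (m + 1 + 1) =
      (p : ℝ) ^ (m + 1) / (2 ^ (m + 1) * m.factorial) * (p : ℝ) ^ (m + 2) / 2 := by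
    field_simp
    ring
  rw [h9]
  linarith

/-- **The number of the residue classes with simple roots.** -/
theorem count_typeS14 (n : ℕ) (hn : 1 ≤ n) (d : ℕ) (hd : d ≠ 0) : ∃ c : ℝ, 0 < c ∧ ∃ P0 : ℕ,
    ∀ p : ℕ, ∀ _ : Fact p.Prime, P0 ≤ p → ∀ g : ℤ[X], g.Monic → g.natDegree = d →
      c * (p : ℝ) ^ (n + 1) ≤ ({v : Fin (n + 1) → ZMod p |
        TypeS14 (g.map (Int.castRingHom (ZMod p))) (polyOf8 v) n}.ncard : ℝ) := by
  refine ⟨1 / (2 ^ (n + 1) * n.factorial), by positivity, 2 * n + 2 * d + 2,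
    fun p _ hP g hg hdeg => ?_⟩
  have h1 := count_typeS_aux14 (p := p) n hd (by omega) hg hdeg
  have h7 := numeric_lower14 hn hP
  have h6 : ((p - 1 : ℕ) : ℝ) * ((p - (d - 1)).choose n : ℝ) ≤
      ({v : Fin (n + 1) → ZMod p |
        TypeS14 (g.map (Int.castRingHom (ZMod p))) (polyOf8 v) n}.ncard : ℝ) := by
    exact_mod_cast h1
  refine le_trans (le_of_eq ?_) (h7.trans h6)
  ring

end Pool.Agent.Lib.MP_89bcae_ag
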