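import Mathlib
import Pool.Agent.Lib.MP_89bcae_ag.SDenC14
import Pool.Agent.Lib.MP_89bcae_ag.TypB14

/-!
# Frobenius elements acting on the roots of `D`
-/

open Polynomial

open scoped Classical

set_option linter.unusedSimpArgs false
set_option linter.unusedVariables false
set_option linter.unusedSectionVars false
set_option linter.style.haveILetI false

namespace Pool.Agent.Lib.MP_89bcae_ag

section Frob

variable {R K F κ : Type*} [CommRing R] [IsDomain R] [IsIntegrallyClosed R] [Field K]
  [Algebra R K] [IsFractionRing R K] [Field F] [Algebra K F] [Algebra R F] [IsScalarTower R K F]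
  [IsAlgClosed F] [Algebra.IsAlgebraic K F]
  [Field κ] [Fintype κ]

variable (K F) in
/-- A Frobenius element which fixes one root and is transitive on the other ones. -/
theorem frob_typeBX14 {π : R →+* κ} (hπ : Function.Surjective π) {D : R[X]}
    (hu : IsUnit D.leadingCoeff) (hsep : (D.map (algebraMap R K)).Separable) {b : κ} {D₁ : κ[X]}
    (hD : D.map π = (X - C b) * D₁) (hirr : Irreducible D₁) (hdeg : 2 ≤ D₁.natDegree) :
    ∃ (φ : F ≃ₐ[K] F) (z : F), aeval z D = 0 ∧ φ z = z ∧
      ∀ x y : F, aeval x D = 0 → aeval y D = 0 → x ≠ z → y ≠ z → ∃ i : ℕ, (φ ^ i) x = y := by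
  have hinjR : Function.Injective (algebraMap R F) := by
    rw [IsScalarTower.algebraMap_eq R K F]
    exact (algebraMap K F).injective.comp (IsFractionRing.injective R K)
  have hfaith : FaithfulSMul R F := (faithfulSMul_iff_algebraMap_injective R F).mpr hinjR
  obtain ⟨ρ, φ, hρ, hφ⟩ := exists_frob_roots14 (F := F) (Fκ := AlgebraicClosure κ) hπ hu hsep
  set Fκ := AlgebraicClosure κ with hFκ
  set β : Fκ := algebraMap κ Fκ b with hβ
  have hD1 : D₁.eval b ≠ 0 := by
    intro h0
    have h3 : D₁.natDegree = 1 :=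
      natDegree_eq_of_degree_eq_some (degree_eq_one_of_irreducible_of_root hirr h0)
    omega
  have hDβ : aeval β D₁ ≠ 0 := by
    rw [hβ, aeval_algebraMap_apply, coe_aeval_eq_eval]
    exact (_root_.map_ne_zero _).mpr hD1
  have hint : ∀ x : F, aeval x D = 0 → IsIntegral R x := fun x hx => integral_root14 hu hx
  -- the root `z`
  obtain ⟨z, hz, hzr, hzβ⟩ := exists_lift_root14 hρ hu (β := β) (by
    rw [hD, map_mul, map_sub, aeval_X, aeval_C, hβ, sub_self, zero_mul])
  have hsimple : aeval β (derivative (D.map π)) ≠ 0 := by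
    rw [hD, derivative_mul, derivative_sub, derivative_X, derivative_C, sub_zero, one_mul, map_add,
      map_mul, map_sub, aeval_X, aeval_C, hβ, sub_self, zero_mul, add_zero]
    exact hDβ
  have hkey : ∀ (x : F) (hx : aeval x D = 0), x ≠ z → aeval (ρ ⟨x, hint x hx⟩) D₁ = 0 := by
    intro x hx hne
    have h1 := red_root14 hρ (hint x hx) hx
    rw [hD, map_mul] at h1
    rcases mul_eq_zero.mp h1 with h2 | h2
    · exfalso
      apply hne
      rw [map_sub, aeval_X, aeval_C, sub_eq_zero] at h2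
      exact eq_of_red14 hρ (f := D) (hint x hx) hz hx hzr (by rw [h2, hzβ])
        (by rw [h2]; exact hsimple)
    · exact h2
  refine ⟨φ, z, hzr, ?_, ?_⟩
  · obtain ⟨h1, h2, h3⟩ := hφ 1 z hzr hz
    rw [pow_one] at h1 h2
    simp only [pow_one] at h3
    have h4 : frob8 κ Fκ β = β := by rw [hβ, AlgEquiv.commutes]
    refine eq_of_red14 hρ h2 hz h1 hzr (by rw [h3, hzβ, h4]) (by rw [h3, hzβ, h4]; exact hsimple)
  · intro x y hx hy hxz hyz
    obtain ⟨i, -, hi⟩ := exists_frob8_pow hirr (hkey x hx hxz) (hkey y hy hyz)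
    obtain ⟨h1, h2, h3⟩ := hφ i x hx (hint x hx)
    refine ⟨i, eq_of_red14 hρ h2 (hint y hy) h1 hy (by rw [h3, hi]) ?_⟩
    have hsepκ : D₁.Separable := PerfectField.separable_of_irreducible hirr
    have hr : aeval (ρ ⟨(φ ^ i) x, h2⟩) D₁ = 0 := by
      rw [h3, ← hi]
      exact hkey y hy hyz
    have hder : aeval (ρ ⟨(φ ^ i) x, h2⟩) (derivative D₁) ≠ 0 := by
      intro h4
      obtain ⟨a', b', hab⟩ := hsepκ
      have h5 := congrArg (aeval (ρ ⟨(φ ^ i) x, h2⟩)) hab
      rw [map_add, map_mul, map_mul, hr, h4, mul_zero, mul_zero, add_zero, map_one] at h5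
      exact zero_ne_one h5
    rw [hD, derivative_mul, map_add, map_mul, map_mul, hr, mul_zero, zero_add]
    apply mul_ne_zero _ hder
    rw [map_sub, aeval_X, aeval_C, sub_ne_zero]
    intro h4
    apply hDβ
    rw [hβ, ← h4]
    exact hr

end Frob

section Int

variable {K F : Type*} [Field K] [Field F] [Algebra K F] [IsAlgClosed F] [Algebra.IsAlgebraic K F]

/-- The degree and the leading coefficient. -/
lemma lead_of_red14 {p : ℕ} [Fact p.Prime] {D : ℤ[X]} {n : ℕ} (hD : D.natDegree ≤ n) (hn : 1 ≤ n)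
    (h : (D.map (Int.castRingHom (ZMod p))).natDegree = n) :
    D.natDegree = n ∧ (D.leadingCoeff : ZMod p) ≠ 0 := by
  have h6 : D.natDegree = n := le_antisymm hD (h ▸ natDegree_map_le)
  refine ⟨h6, ?_⟩
  have h7 : (D.leadingCoeff : ZMod p) = (D.map (Int.castRingHom (ZMod p))).leadingCoeff := by
    rw [leadingCoeff, leadingCoeff, h, h6, coeff_map]
    rfl
  rw [h7, leadingCoeff_ne_zero]
  intro h8
  rw [h8, natDegree_zero] at h
  omega

/-- Type A over a ring with residue field `ZMod p`. -/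
theorem typeAX_of_ring14 (R : Type*) [CommRing R] [IsDomain R] [IsIntegrallyClosed R]
    [Algebra R K] [IsFractionRing R K] {p : ℕ} [Fact p.Prime] (π : R →+* ZMod p)
    (hπ : Function.Surjective π) (hunit : ∀ z : ℤ, (z : ZMod p) ≠ 0 → IsUnit (z : R))
    [CharZero K] {D : ℤ[X]} {n : ℕ} (hD : D.natDegree ≤ n) (hn : 1 ≤ n)
    (h : TypeAX14 (D.map (Int.castRingHom (ZMod p))) n) :
    ∃ φ : F ≃ₐ[K] F, ∀ x y : F, aeval x (D.map (Int.castRingHom K)) = 0 →
      aeval y (D.map (Int.castRingHom K)) = 0 → ∃ i : ℕ, (φ ^ i) x = y := by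
  obtain ⟨hirr, hdn⟩ := h
  obtain ⟨hDn, hlc⟩ := lead_of_red14 hD hn hdn
  letI : Algebra R F := ((algebraMap K F).comp (algebraMap R K)).toAlgebra
  haveI : IsScalarTower R K F := IsScalarTower.of_algebraMap_eq fun _ => rfl
  have hRK : (algebraMap R K).comp (Int.castRingHom R) = Int.castRingHom K := RingHom.ext_int _ _
  have hinjZ : Function.Injective (Int.castRingHom R) := by
    have h1 : Function.Injective ((algebraMap R K).comp (Int.castRingHom R)) := by
      rw [hRK]
      exact (Int.castRingHom K).injective_int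
    exact Function.Injective.of_comp h1
  haveI hfaith : FaithfulSMul R F := (faithfulSMul_iff_algebraMap_injective R F).mpr
    ((algebraMap K F).injective.comp (IsFractionRing.injective R K))
  have hcomp : π.comp (Int.castRingHom R) = Int.castRingHom (ZMod p) := RingHom.ext_int _ _
  have hu' : IsUnit (D.map (Int.castRingHom R)).leadingCoeff := by
    rw [leadingCoeff_map_of_injective hinjZ]
    exact hunit _ hlc
  have hirr' : Irreducible ((D.map (Int.castRingHom R)).map π) := by
    rw [Polynomial.map_map, hcomp]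
    exact hirr
  have hQ : (D.map (Int.castRingHom R)).map (algebraMap R K) = D.map (Int.castRingHom K) := by
    rw [Polynomial.map_map, hRK]
  have hsep := separable_of_red14 (K := K) F hπ hu' (PerfectField.separable_of_irreducible hirr')
  obtain ⟨φ, hφ⟩ := frob_typeA14 K F hπ hu' hsep hirr'
  refine ⟨φ, fun x y hx hy => hφ x y ?_ ?_⟩
  · rw [← aeval_map_algebraMap K, hQ]
    exact hx
  · rw [← aeval_map_algebraMap K, hQ]
    exact hy

/-- Type B over a ring with residue field `ZMod p`. -/
theorem typeBX_of_ring14 (R : Type*) [CommRing R] [IsDomain R] [IsIntegrallyClosed R]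
    [Algebra R K] [IsFractionRing R K] {p : ℕ} [Fact p.Prime] (π : R →+* ZMod p)
    (hπ : Function.Surjective π) (hunit : ∀ z : ℤ, (z : ZMod p) ≠ 0 → IsUnit (z : R))
    [CharZero K] {D : ℤ[X]} {n : ℕ} (hD : D.natDegree ≤ n) (hn : 3 ≤ n)
    (hsep : (D.map (Int.castRingHom K)).Separable)
    (h : TypeBX14 (D.map (Int.castRingHom (ZMod p))) n) :
    ∃ (φ : F ≃ₐ[K] F) (z : F), aeval z (D.map (Int.castRingHom K)) = 0 ∧ φ z = z ∧
      ∀ x y : F, aeval x (D.map (Int.castRingHom K)) = 0 →
        aeval y (D.map (Int.castRingHom K)) = 0 → x ≠ z → y ≠ z → ∃ i : ℕ, (φ ^ i) x = y := by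
  obtain ⟨b, D₁, hD1, hirr, hd1, hdn⟩ := h
  obtain ⟨hDn, hlc⟩ := lead_of_red14 hD (by omega) hdn
  letI : Algebra R F := ((algebraMap K F).comp (algebraMap R K)).toAlgebra
  haveI : IsScalarTower R K F := IsScalarTower.of_algebraMap_eq fun _ => rfl
  have hRK : (algebraMap R K).comp (Int.castRingHom R) = Int.castRingHom K := RingHom.ext_int _ _
  have hinjZ : Function.Injective (Int.castRingHom R) := by
    have h1 : Function.Injective ((algebraMap R K).comp (Int.castRingHom R)) := by
      rw [hRK]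
      exact (Int.castRingHom K).injective_int
    exact Function.Injective.of_comp h1
  have hcomp : π.comp (Int.castRingHom R) = Int.castRingHom (ZMod p) := RingHom.ext_int _ _
  have hu' : IsUnit (D.map (Int.castRingHom R)).leadingCoeff := by
    rw [leadingCoeff_map_of_injective hinjZ]
    exact hunit _ hlc
  have hQ : (D.map (Int.castRingHom R)).map (algebraMap R K) = D.map (Int.castRingHom K) := by
    rw [Polynomial.map_map, hRK]
  obtain ⟨φ, z, hz, hzz, hφ⟩ := frob_typeBX14 K F hπ hu' (by rw [hQ]; exact hsep)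
    (b := b) (D₁ := D₁) (by rw [Polynomial.map_map, hcomp]; exact hD1) hirr (by omega)
  have hc : ∀ x : F, aeval x (D.map (Int.castRingHom R)) = aeval x (D.map (Int.castRingHom K)) := by
    intro x
    rw [← aeval_map_algebraMap K, hQ]
  refine ⟨φ, z, by rw [← hc]; exact hz, hzz, fun x y hx hy hxz hyz => hφ x y ?_ ?_ hxz hyz⟩
  · rw [hc]; exact hx
  · rw [hc]; exact hy

/-- Types A and B give the transitivity on the pairs of roots of `D`. -/
theorem pairTransitiveX14 {D : K[X]}
    (hA : ∃ φ : F ≃ₐ[K] F, ∀ x y : F, aeval x D = 0 → aeval y D = 0 → ∃ i : ℕ, (φ ^ i) x = y)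
    (hB : ∃ (φ : F ≃ₐ[K] F) (z : F), aeval z D = 0 ∧ φ z = z ∧
      ∀ x y : F, aeval x D = 0 → aeval y D = 0 → x ≠ z → y ≠ z → ∃ i : ℕ, (φ ^ i) x = y) :
    IsPairTransitive7 K F X D := by
  apply pairTransitive14
  · rw [comp_X]
    exact hA
  · rw [comp_X]
    obtain ⟨φ, z, h1, h2, h3⟩ := hB
    refine ⟨φ, z, h1, h2, fun x y hx hy hxz hyz => h3 x y hx hy ?_ ?_⟩
    · simpa using hxz
    · simpa using hyz

/-- Type S gives separability over the rational numbers. -/
theorem separable_of_typeS_aux14 (F₀ : Type*) [Field F₀] [Algebra ℚ F₀] [IsAlgClosed F₀]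
    [Algebra.IsAlgebraic ℚ F₀] {g D : ℤ[X]} (hg : g.Monic) (hd : g.natDegree ≠ 0)
    {p : ℕ} [Fact p.Prime] (hlc : (D.leadingCoeff : ZMod p) ≠ 0)
    (hs : ((D.map (Int.castRingHom (ZMod p))).comp (g.map (Int.castRingHom (ZMod p)))).Separable) :
    ((D.comp g).map (Int.castRingHom ℚ)).Separable := by
  obtain ⟨R, _, _, _, _, _, π, hπ, hπu⟩ := exists_local_ring14 (Fact.out : p.Prime)
  letI : Algebra R F₀ := ((algebraMap ℚ F₀).comp (algebraMap R ℚ)).toAlgebra
  haveI : IsScalarTower R ℚ F₀ := IsScalarTower.of_algebraMap_eq fun _ => rfl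
  have hRQ : (algebraMap R ℚ).comp (Int.castRingHom R) = Int.castRingHom ℚ := RingHom.ext_int _ _
  have hinjZ : Function.Injective (Int.castRingHom R) := by
    have h1 : Function.Injective ((algebraMap R ℚ).comp (Int.castRingHom R)) := by
      rw [hRQ]
      exact (Int.castRingHom ℚ).injective_int
    exact Function.Injective.of_comp h1
  haveI hfaith : FaithfulSMul R F₀ :=
    (faithfulSMul_iff_algebraMap_injective R _).mpr
      ((algebraMap ℚ F₀).injective.comp (IsFractionRing.injective R ℚ))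
  have hcomp : π.comp (Int.castRingHom R) = Int.castRingHom (ZMod p) := RingHom.ext_int _ _
  have hu' : IsUnit ((D.comp g).map (Int.castRingHom R)).leadingCoeff := by
    rw [leadingCoeff_map_of_injective hinjZ, leadingCoeff_comp hd, hg.leadingCoeff,
      one_pow, mul_one]
    exact hπu _ hlc
  have hsep := separable_of_red14 (K := ℚ) F₀ hπ hu' (by
    rw [Polynomial.map_map, hcomp, Polynomial.map_comp]
    exact hs)
  rwa [Polynomial.map_map, hRQ] at hsep

lemma exists_closure14 (k : Type) [Field k] : ∃ (F₀ : Type) (_ : Field F₀) (_ : Algebra k F₀)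
    (_ : IsAlgClosed F₀), Algebra.IsAlgebraic k F₀ :=
  ⟨AlgebraicClosure k, inferInstance, inferInstance, inferInstance, inferInstance⟩

variable (K) in
/-- Type S gives separability. -/
theorem separable_of_typeS14 [CharZero K] {g D : ℤ[X]} (hg : g.Monic) (hd : g.natDegree ≠ 0)
    {n : ℕ} (hD : D.natDegree ≤ n) (hn : 1 ≤ n) {p : ℕ} [Fact p.Prime]
    (h : TypeS14 (g.map (Int.castRingHom (ZMod p))) (D.map (Int.castRingHom (ZMod p))) n) :
    D.natDegree = n ∧ ((D.comp g).map (Int.castRingHom K)).Separable := by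
  obtain ⟨hdn, hs⟩ := h
  obtain ⟨hDn, hlc⟩ := lead_of_red14 hD hn hdn
  refine ⟨hDn, ?_⟩
  obtain ⟨F₀, _, _, _, _⟩ := exists_closure14 ℚ
  have h1 := (separable_of_typeS_aux14 F₀ hg hd hlc hs).map (f := algebraMap ℚ K)
  rw [Polynomial.map_map] at h1
  have h2 : (algebraMap ℚ K).comp (Int.castRingHom ℚ) = Int.castRingHom K := RingHom.ext_int _ _
  rwa [h2] at h1

end Int

end Pool.Agent.Lib.MP_89bcae_ag
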