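import Mathlib
import Pool.Agent.Lib.MP_89bcae_ag.SDenA14
import Pool.Agent.Lib.MP_89bcae_ag.SDenD14
import Pool.Agent.Lib.MP_89bcae_ag.DefsZ7
import Pool.Agent.Lib.MP_89bcae_ag.ZVec8
import Pool.Agent.Lib.MP_89bcae_ag.DensZ7
import Pool.Agent.Lib.MP_89bcae_ag.DensB7

/-!
# Density one for the good polynomials
-/

open Polynomial Filter Topology

open scoped Classical

set_option linter.unusedVariables false
set_option linter.unusedSectionVars false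
set_option linter.style.haveILetI false

namespace Pool.Agent.Lib.MP_89bcae_ag

/-- The primes which are `1` modulo `q`, from some point on. -/
lemma infinite_primes_residue14 (q : ℕ) [NeZero q] (P₀ : ℕ) :
    {p : ℕ | p.Prime ∧ P₀ ≤ p ∧ (p : ZMod q) = 1}.Infinite := by
  have h1 := Nat.infinite_setOfPred_prime_and_eq_mod (q := q) (a := 1) isUnit_one
  have h2 := h1.sdiff (Set.finite_lt_nat P₀)
  refine h2.mono ?_
  rintro p ⟨⟨hp, hp1⟩, hp0⟩
  exact ⟨hp, not_lt.mp hp0, hp1⟩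

/-- **Density one.** It suffices to treat the polynomials `D` which have, modulo suitable primes
congruent to `1` modulo `q`, the types A, B, a simple collision and a simple pole. -/
theorem superDensity14 (q : ℕ) [NeZero q] {g : ℤ[X]} (hg : g.Monic) (hd : g.natDegree ≠ 0) {n : ℕ}
    (hn : 3 ≤ n) (P₀ : ℕ) (Good : (Fin (n + 1) → ℤ) → Prop)
    (hGood : ∀ a : Fin (n + 1) → ℤ, (vecPoly7 a).natDegree = n →
      (((vecPoly7 a).comp g).map (Int.castRingHom ℚ)).Separable →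
      (∃ (p : ℕ) (_ : Fact p.Prime), P₀ ≤ p ∧ (p : ZMod q) = 1 ∧
        TypeAX14 ((vecPoly7 a).map (Int.castRingHom (ZMod p))) n) →
      (∃ (p : ℕ) (_ : Fact p.Prime), P₀ ≤ p ∧ (p : ZMod q) = 1 ∧
        TypeBX14 ((vecPoly7 a).map (Int.castRingHom (ZMod p))) n) →
      (∃ p : ℕ, p.Prime ∧ P₀ ≤ p ∧ (p : ZMod q) = 1 ∧ IsCollisionZ8 p g (vecPoly7 a) ∧
        ¬ (p : ℤ) ∣ (vecPoly7 a).coeff n) →
      (∃ p : ℕ, p.Prime ∧ P₀ ≤ p ∧ (p : ZMod q) = 1 ∧ IsPoleZ14 p g (vecPoly7 a) n) →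
      Good a) :
    Tendsto (fun H : ℕ => ({a : Fin (n + 1) → ℤ | (∀ i, |a i| ≤ H) ∧ Good a}.ncard : ℝ) /
      (2 * H + 1) ^ (n + 1)) atTop (𝓝 1) := by
  obtain ⟨d, hdeg⟩ : ∃ d, g.natDegree = d := ⟨_, rfl⟩
  rw [hdeg] at hd
  obtain ⟨cA, hcA, PA, hA⟩ := count_typeAX14 n (by omega)
  obtain ⟨cB, hcB, PB, hB⟩ := count_typeBX14 n (by omega)
  obtain ⟨cC, hcC, PC, hC⟩ := count_typeC14 n (by omega) d hd
  obtain ⟨cE, hcE, PE, hE⟩ := count_typeE14 n (by omega) d hd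
  obtain ⟨cS, hcS, PS, hS⟩ := count_typeS14 n (by omega) d hd
  -- the five events
  let GA : (Fin (n + 1) → ℤ) → Prop := fun a => ∃ (p : ℕ) (_ : Fact p.Prime), P₀ ≤ p ∧
    (p : ZMod q) = 1 ∧ TypeAX14 ((vecPoly7 a).map (Int.castRingHom (ZMod p))) n
  let GB : (Fin (n + 1) → ℤ) → Prop := fun a => ∃ (p : ℕ) (_ : Fact p.Prime), P₀ ≤ p ∧
    (p : ZMod q) = 1 ∧ TypeBX14 ((vecPoly7 a).map (Int.castRingHom (ZMod p))) n
  let GS : (Fin (n + 1) → ℤ) → Prop := fun a => ∃ (p : ℕ) (_ : Fact p.Prime),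
    TypeS14 (g.map (Int.castRingHom (ZMod p))) ((vecPoly7 a).map (Int.castRingHom (ZMod p))) n
  let GC : (Fin (n + 1) → ℤ) → Prop := fun a => ∃ p : ℕ, p.Prime ∧ P₀ ≤ p ∧ (p : ZMod q) = 1 ∧
    IsCollisionZ8 p g (vecPoly7 a) ∧ ¬ (p : ℤ) ∣ (vecPoly7 a).coeff n
  let GE : (Fin (n + 1) → ℤ) → Prop := fun a => ∃ p : ℕ, p.Prime ∧ P₀ ≤ p ∧ (p : ZMod q) = 1 ∧
    IsPoleZ14 p g (vecPoly7 a) n
  have dA : Tendsto (fun H : ℕ => ({a : Fin (n + 1) → ℤ | (∀ i, |a i| ≤ H) ∧ ¬ GA a}.ncard : ℝ) /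
      (2 * H + 1) ^ (n + 1)) atTop (𝓝 0) := by
    refine density_crt7 (n + 1) (fun p => {v | ∃ _ : Fact p.Prime, TypeAX14 (polyOf8 v) n}) cA hcA
      {p : ℕ | p.Prime ∧ max PA P₀ ≤ p ∧ (p : ZMod q) = 1} (infinite_primes_residue14 q _)
      (fun p hp => hp.1) (fun p hp => ?_) GA (fun a p hp h => ?_)
    · haveI : Fact p.Prime := ⟨hp.1⟩
      refine (hA p ⟨hp.1⟩ ((le_max_left _ _).trans hp.2.1)).trans ?_
      rw [Nat.cast_le]
      apply Set.ncard_le_ncard _ (Set.toFinite _)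
      intro v hv
      exact ⟨⟨hp.1⟩, hv⟩
    · obtain ⟨hpp, h⟩ := h
      exact ⟨p, hpp, (le_max_right _ _).trans hp.2.1, hp.2.2, by rw [map_vecPoly8]; exact h⟩
  have dB : Tendsto (fun H : ℕ => ({a : Fin (n + 1) → ℤ | (∀ i, |a i| ≤ H) ∧ ¬ GB a}.ncard : ℝ) /
      (2 * H + 1) ^ (n + 1)) atTop (𝓝 0) := by
    refine density_crt7 (n + 1) (fun p => {v | ∃ _ : Fact p.Prime, TypeBX14 (polyOf8 v) n}) cB hcB
      {p : ℕ | p.Prime ∧ max PB P₀ ≤ p ∧ (p : ZMod q) = 1} (infinite_primes_residue14 q _)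
      (fun p hp => hp.1) (fun p hp => ?_) GB (fun a p hp h => ?_)
    · haveI : Fact p.Prime := ⟨hp.1⟩
      refine (hB p ⟨hp.1⟩ ((le_max_left _ _).trans hp.2.1)).trans ?_
      rw [Nat.cast_le]
      apply Set.ncard_le_ncard _ (Set.toFinite _)
      intro v hv
      exact ⟨⟨hp.1⟩, hv⟩
    · obtain ⟨hpp, h⟩ := h
      exact ⟨p, hpp, (le_max_right _ _).trans hp.2.1, hp.2.2, by rw [map_vecPoly8]; exact h⟩
  have dS : Tendsto (fun H : ℕ => ({a : Fin (n + 1) → ℤ | (∀ i, |a i| ≤ H) ∧ ¬ GS a}.ncard : ℝ) /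
      (2 * H + 1) ^ (n + 1)) atTop (𝓝 0) := by
    refine density_crt7 (n + 1) (fun p => {v | ∃ _ : Fact p.Prime,
      TypeS14 (g.map (Int.castRingHom (ZMod p))) (polyOf8 v) n}) cS hcS
      {p : ℕ | p.Prime ∧ PS ≤ p ∧ (p : ZMod q) = 1} (infinite_primes_residue14 q _)
      (fun p hp => hp.1) (fun p hp => ?_) GS (fun a p hp h => ?_)
    · haveI : Fact p.Prime := ⟨hp.1⟩
      refine (hS p ⟨hp.1⟩ hp.2.1 g hg hdeg).trans ?_
      rw [Nat.cast_le]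
      apply Set.ncard_le_ncard _ (Set.toFinite _)
      intro v hv
      exact ⟨⟨hp.1⟩, hv⟩
    · obtain ⟨hpp, h⟩ := h
      exact ⟨p, hpp, by rw [map_vecPoly8]; exact h⟩
  have hsumC : ∀ (c : ℝ), 0 < c → ∀ (P : ℕ) (T : ℝ), ∃ S : Finset ℕ,
      (∀ p ∈ S, p ∈ {p : ℕ | p.Prime ∧ P ≤ p ∧ (p : ZMod q) = 1}) ∧ T ≤ ∑ p ∈ S, c / p :=
    fun c hc P T => sum_residue_unbounded14 (q := q) (a := 1) isUnit_one hc P T
  have dC : Tendsto (fun H : ℕ => ({a : Fin (n + 1) → ℤ | (∀ i, |a i| ≤ H) ∧ ¬ GC a}.ncard : ℝ) /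
      (2 * H + 1) ^ (n + 1)) atTop (𝓝 0) := by
    refine density_crtB7 (n + 1) (fun p => p ^ 2) (fun p => {v | TypeC8 p g n v}) (fun p => cC / p)
      {p : ℕ | p.Prime ∧ max PC P₀ ≤ p ∧ (p : ZMod q) = 1} (fun p hp => pow_pos hp.1.pos 2)
      (fun p hp q hq hpq => ?_)
      (fun T => hsumC cC hcC (max PC P₀) T) (fun p hp => ?_) GC (fun a p hp h => ?_)
    · exact Nat.Coprime.pow 2 2 ((Nat.coprime_primes hp.1 hq.1).mpr hpq)
    · have h1 := hC p hp.1 ((le_max_left _ _).trans hp.2.1) g hg hdeg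
      push_cast
      exact h1
    · have h1 : (fun i : Fin (n + 1) => ((vecPoly7 a).coeff i : ZMod (p ^ 2))) =
          fun i => (a i : ZMod (p ^ 2)) := by
        funext i
        rw [coeff_vecPoly8]
      have h3 := isCollisionZ8_of_typeC8 (p := p) (g := g) (n := n) (D := vecPoly7 a)
        (natDegree_vecPoly8 a) (by rw [h1]; exact h)
      exact ⟨p, hp.1, (le_max_right _ _).trans hp.2.1, hp.2.2, h3⟩
  have dE : Tendsto (fun H : ℕ => ({a : Fin (n + 1) → ℤ | (∀ i, |a i| ≤ H) ∧ ¬ GE a}.ncard : ℝ) /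
      (2 * H + 1) ^ (n + 1)) atTop (𝓝 0) := by
    refine density_crtB7 (n + 1) (fun p => p ^ 2) (fun p => {v | TypeE14 p g n v}) (fun p => cE / p)
      {p : ℕ | p.Prime ∧ max PE P₀ ≤ p ∧ (p : ZMod q) = 1} (fun p hp => pow_pos hp.1.pos 2)
      (fun p hp q hq hpq => ?_)
      (fun T => hsumC cE hcE (max PE P₀) T) (fun p hp => ?_) GE (fun a p hp h => ?_)
    · exact Nat.Coprime.pow 2 2 ((Nat.coprime_primes hp.1 hq.1).mpr hpq)
    · have h1 := hE p hp.1 ((le_max_left _ _).trans hp.2.1) g hg hdeg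
      push_cast
      exact h1
    · have h1 : (fun i : Fin (n + 1) => ((vecPoly7 a).coeff i : ZMod (p ^ 2))) =
          fun i => (a i : ZMod (p ^ 2)) := by
        funext i
        rw [coeff_vecPoly8]
      haveI : Fact p.Prime := ⟨hp.1⟩
      have h3 := isPoleZ14_of_typeE14 (p := p) (g := g) (n := n) (by omega) (D := vecPoly7 a)
        (natDegree_vecPoly8 a) (by rw [h1]; exact h)
      exact ⟨p, hp.1, (le_max_right _ _).trans hp.2.1, hp.2.2, h3⟩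
  apply density_one8
  -- the union of the five exceptional sets
  have hsum := (((dA.add dB).add dC).add dE).add dS
  rw [add_zero, add_zero, add_zero, add_zero] at hsum
  refine squeeze_zero (fun H => by positivity) (fun H => ?_) hsum
  rw [← add_div, ← add_div, ← add_div, ← add_div]
  apply div_le_div_of_nonneg_right _ (by positivity)
  have hfin : ∀ Q : (Fin (n + 1) → ℤ) → Prop,
      ({a : Fin (n + 1) → ℤ | (∀ i, |a i| ≤ H) ∧ Q a}).Finite := by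
    intro Q
    apply Set.Finite.subset (Finset.finite_toSet
      (Fintype.piFinset fun _ : Fin (n + 1) => Finset.Icc (-(H : ℤ)) H))
    rintro a ⟨h2, -⟩
    rw [Finset.mem_coe, Fintype.mem_piFinset]
    intro i
    rw [Finset.mem_Icc]
    exact abs_le.mp (h2 i)
  let E : ((Fin (n + 1) → ℤ) → Prop) → Set (Fin (n + 1) → ℤ) := fun Q =>
    {a : Fin (n + 1) → ℤ | (∀ i, |a i| ≤ H) ∧ ¬ Q a}
  have hsub : {a : Fin (n + 1) → ℤ | (∀ i, |a i| ≤ H) ∧ ¬ Good a} ⊆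
      (((E GA ∪ E GB) ∪ E GC) ∪ E GE) ∪ E GS := by
    rintro a ⟨hbox, hbad⟩
    by_contra hcon
    simp only [E, Set.mem_union, Set.mem_ofPred_eq, not_or, not_and, not_not] at hcon
    obtain ⟨⟨⟨⟨hGA, hGB⟩, hGC⟩, hGE⟩, hGS⟩ := hcon
    obtain ⟨p, hp, hs⟩ := hGS hbox
    obtain ⟨h1, h2⟩ := separable_of_typeS14 ℚ hg (by rw [hdeg]; exact hd) (natDegree_vecPoly8 a)
      (by omega) hs
    exact hbad (hGood a h1 h2 (hGA hbox) (hGB hbox) (hGC hbox) (hGE hbox))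
  have hE' : ∀ Q, (E Q).Finite := fun Q => hfin fun a => ¬ Q a
  have h1 := Set.ncard_le_ncard hsub
    (((((hE' GA).union (hE' GB)).union (hE' GC)).union (hE' GE)).union (hE' GS))
  have h2 := Set.ncard_union_le (((E GA ∪ E GB) ∪ E GC) ∪ E GE) (E GS)
  have h3 := Set.ncard_union_le ((E GA ∪ E GB) ∪ E GC) (E GE)
  have h4 := Set.ncard_union_le (E GA ∪ E GB) (E GC)
  have h5 := Set.ncard_union_le (E GA) (E GB)
  have h6 : ({a : Fin (n + 1) → ℤ | (∀ i, |a i| ≤ H) ∧ ¬ Good a}).ncard ≤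
      (E GA).ncard + (E GB).ncard + (E GC).ncard + (E GE).ncard + (E GS).ncard := by omega
  exact_mod_cast h6

end Pool.Agent.Lib.MP_89bcae_ag
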