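import Mathlib
import Pool.Agent.Lib.MP_89bcae_ag.SDenD14
import Pool.Agent.Lib.MP_89bcae_ag.EisE7

/-!
# Transitivity on the pairs of roots of `D` over the cyclotomic field
-/

open Polynomial

set_option linter.unusedVariables false
set_option linter.unusedSectionVars false
set_option linter.style.haveILetI false

universe u v

namespace Pool.Agent.Lib.MP_89bcae_ag

/-- Type A over a ring with residue field `ZMod p`: separability. -/
theorem separable_of_typeAX14 {K : Type u} [Field K] [CharZero K] {D : ℤ[X]} {n : ℕ}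
    (hD : D.natDegree ≤ n) (hn : 1 ≤ n) {p : ℕ} [Fact p.Prime]
    (h : TypeAX14 (D.map (Int.castRingHom (ZMod p))) n) :
    (D.map (Int.castRingHom K)).Separable := by
  obtain ⟨hDn, hlc⟩ := lead_of_red14 hD hn h.2
  have h1 := separable_of_typeS14 K (g := X) (D := D) monic_X (by rw [natDegree_X]; exact one_ne_zero)
    hD hn (p := p) ⟨h.2, by
      rw [map_X, comp_X]
      exact PerfectField.separable_of_irreducible h.1⟩
  have h2 := h1.2
  rwa [comp_X] at h2

/-- **Transitivity on the pairs of roots of `D`**, `k` embedded in `ℚ_p` and in `ℚ_q`. -/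
theorem pair2_of_types14 {k : Type u} [Field k] [CharZero k] {F : Type v} [Field F] [Algebra k F]
    [IsAlgClosed F] [Algebra.IsAlgebraic k F] {p q : ℕ} [Fact p.Prime] [Fact q.Prime]
    (φ : k →+* ℚ_[p]) (ψ : k →+* ℚ_[q]) {D : ℤ[X]} {n : ℕ} (hD : D.natDegree ≤ n) (hn : 3 ≤ n)
    (hA : TypeAX14 (D.map (Int.castRingHom (ZMod p))) n)
    (hB : TypeBX14 (D.map (Int.castRingHom (ZMod q))) n) :
    (D.map (Int.castRingHom k)).Separable ∧
      IsPairTransitive7 k F X (D.map (Int.castRingHom k)) := by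
  have hsep : (D.map (Int.castRingHom k)).Separable := separable_of_typeAX14 hD (by omega) hA
  refine ⟨hsep, pairTransitiveX14 ?_ ?_⟩
  · obtain ⟨R, _, _, _, _, _, π, hπ, -, -, hunit⟩ := exists_local_ring7 φ
    exact typeAX_of_ring14 R π hπ hunit hD (by omega) hA
  · obtain ⟨R, _, _, _, _, _, π, hπ, -, -, hunit⟩ := exists_local_ring7 ψ
    exact typeBX_of_ring14 R π hπ hunit hD hn hsep hB

/-- The same over the cyclotomic field. -/
theorem pair2_cyclotomic14 {ℓ : ℕ} (hℓ : ℓ.Prime) {k : Type u} [Field k] [Algebra ℚ k]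
    [IsCyclotomicExtension {ℓ} ℚ k] {F : Type v} [Field F] [Algebra k F]
    [IsAlgClosed F] [Algebra.IsAlgebraic k F] {p q : ℕ} [Fact p.Prime] [Fact q.Prime]
    (hp : (p : ZMod ℓ) = 1) (hq : (q : ZMod ℓ) = 1) {D : ℤ[X]} {n : ℕ} (hD : D.natDegree ≤ n)
    (hn : 3 ≤ n) (hA : TypeAX14 (D.map (Int.castRingHom (ZMod p))) n)
    (hB : TypeBX14 (D.map (Int.castRingHom (ZMod q))) n) :
    (D.map (Int.castRingHom k)).Separable ∧
      IsPairTransitive7 k F X (D.map (Int.castRingHom k)) := by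
  haveI : CharZero k := charZero_of_injective_algebraMap (algebraMap ℚ k).injective
  have hdvd : ∀ (p : ℕ), p.Prime → (p : ZMod ℓ) = 1 → ℓ ∣ p - 1 := by
    intro p hp h
    rw [← ZMod.natCast_eq_zero_iff, Nat.cast_sub hp.one_le, h, Nat.cast_one, sub_self]
  obtain ⟨φ⟩ := exists_embedding7 hℓ (hdvd p Fact.out hp) k
  obtain ⟨ψ⟩ := exists_embedding7 hℓ (hdvd q Fact.out hq) k
  exact pair2_of_types14 φ ψ hD hn hA hB

end Pool.Agent.Lib.MP_89bcae_ag
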