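import Mathlib
import Pool.Agent.Lib.MP_89bcae_ag.Main

/-!
# Sanity checks on the definitions

The Kummer classes of `k(t)`-rational points lie in the two-adic Selmer group and are fixed by
`Gal(k̄/k)`, so that the condition in `TateAtTwo` is an equivalence.
-/

open Polynomial WeierstrassCurve WeierstrassCurve.Affine IsDedekindDomain WithZero

open scoped Classical

namespace Pool.Agent.Lib.MP_89bcae_ag

section General

variable {R F Ω : Type*} [CommRing R] [Field F] [Field Ω] [Algebra R F] [Algebra R Ω]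
  [Algebra F Ω] [IsScalarTower R F Ω] {W : Affine R}

/-- The Kummer class of a rational point, given by a sequence of successive halves. -/
noncomputable def kummerCocycle [IsGalois F Ω] (q : ℕ → (W.baseChange Ω).Point)
    (hq : ∀ n, q (n + 1) + q (n + 1) = q n) (P : (W.baseChange F).Point)
    (h0 : q 0 = Point.map (W' := W) (Algebra.ofId F Ω) P) : TateCocycle F Ω W where
  level n g := Point.map (g : Ω →ₐ[F] Ω) (q n) - q n
  level_zero g := by rw [h0, map_ofId, sub_self]
  two_nsmul_level n g := by rw [smul_sub, ← map_nsmul, two_nsmul, hq]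
  level_mul n g h := by
    have e : Point.map (W' := W) ((g * h : Ω ≃ₐ[F] Ω) : Ω →ₐ[F] Ω) (q n) =
        Point.map (g : Ω →ₐ[F] Ω) (Point.map (h : Ω →ₐ[F] Ω) (q n)) := by
      rw [Point.map_map]; rfl
    rw [e, map_sub]
    abel
  isLocallyConstant_level n := (isLocallyConstant_map _).sub (IsLocallyConstant.const _)

/-- Kummer classes are locally trivial in the group of points. -/
lemma kummerCocycle_isLocallyTrivial [IsGalois F Ω] (q : ℕ → (W.baseChange Ω).Point)
    (hq : ∀ n, q (n + 1) + q (n + 1) = q n) (P : (W.baseChange F).Point)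
    (h0 : q 0 = Point.map (W' := W) (Algebra.ofId F Ω) P) (L : Type*) [Field L] [Algebra F L]
    (n : ℕ) : IsLocallyTrivial L ((kummerCocycle q hq P h0).level n) := by
  intro M _ _ _ _ _ _ _ j
  refine ⟨Point.map j (q n), fun g g' hg => ?_⟩
  change Point.map (W' := W) j (Point.map (g' : Ω →ₐ[F] Ω) (q n) - q n) = _
  have e1 : Point.map (W' := W) j (Point.map (g' : Ω →ₐ[F] Ω) (q n)) =
      Point.map (W' := W) (g.restrictScalars F : M →ₐ[F] M) (Point.map j (q n)) := by
    rcases q n with _ | ⟨x, y, hxy⟩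
    · rfl
    · rw [Point.map_some, Point.map_some, Point.map_some, Point.map_some]
      simp only [Point.some.injEq]
      exact ⟨hg x, hg y⟩
  rw [map_sub, e1]

/-- Kummer classes of points fixed by all automorphisms over `R` are invariant. -/
lemma kummerCocycle_invariant [IsGalois F Ω] (q : ℕ → (W.baseChange Ω).Point)
    (hq : ∀ n, q (n + 1) + q (n + 1) = q n) (P : (W.baseChange F).Point)
    (h0 : q 0 = Point.map (W' := W) (Algebra.ofId F Ω) P)
    (hfix : ∀ γ : Ω ≃ₐ[R] Ω, Point.map (γ : Ω →ₐ[R] Ω) (q 0) = q 0) :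
    (kummerCocycle q hq P h0).IsInvariantModTorsion := by
  intro γ
  refine ⟨1, one_pos, fun n => ⟨Point.map (γ : Ω →ₐ[R] Ω) (q n) - q n, ?_, ?_⟩⟩
  · rw [smul_sub, ← map_nsmul, two_pow_seq hq, hfix, sub_self]
  · intro g h hgh
    change 1 • (Point.map (γ : Ω →ₐ[R] Ω) (Point.map (g : Ω →ₐ[F] Ω) (q n) - q n) -
      (Point.map (h : Ω →ₐ[F] Ω) (q n) - q n)) = _
    have e1 : Point.map (W' := W) (γ : Ω →ₐ[R] Ω) (Point.map (g : Ω →ₐ[F] Ω) (q n)) =
        Point.map (h : Ω →ₐ[F] Ω) (Point.map (γ : Ω →ₐ[R] Ω) (q n)) := by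
      rcases q n with _ | ⟨x, y, hxy⟩
      · rfl
      · rw [Point.map_some, Point.map_some, Point.map_some, Point.map_some]
        simp only [Point.some.injEq]
        exact ⟨hgh x, hgh y⟩
    rw [one_smul, map_sub, e1, map_sub]
    abel

end General

end Pool.Agent.Lib.MP_89bcae_ag
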