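import Mathlib

/-!
# Stepanov's bound for quadratic character sums

`F` a finite field of odd characteristic `p` with `p ^ m * p ^ n` elements, `m ≤ n`, `f ∈ F[X]` not of
the form `c g ^ 2`. Then `|∑ χ(f(x))| ≤ 4 (deg f) p ^ n`.
-/

namespace Pool.Agent.Lib.MP_89bcae_ag.Stepanov14

open Polynomial Finset

variable {F : Type*} [Field F]

/-- the polynomial with the given coefficients -/
noncomputable def pol {H : ℕ} (c : Fin H → F) : F[X] := ((degreeLTEquiv F H).symm c : degreeLT F H)

theorem pol_sub {H : ℕ} (c c' : Fin H → F) : pol (c - c') = pol c - pol c' := by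
  simp [pol]

theorem pol_eq_zero {H : ℕ} {c : Fin H → F} (h : pol c = 0) : c = 0 := by
  simpa [pol] using h

theorem natDegree_pol_le {H : ℕ} (c : Fin H → F) : (pol c).natDegree ≤ H - 1 := by
  rcases Nat.eq_zero_or_pos H with rfl | hH
  · have : c = 0 := Subsingleton.elim _ _
    rw [this, pol, map_zero, ZeroMemClass.coe_zero, natDegree_zero]
  · by_cases h0 : pol c = 0
    · rw [h0]; simp
    · have h1 : (pol c) ∈ degreeLT F H := ((degreeLTEquiv F H).symm c).2
      rw [mem_degreeLT] at h1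
      have := (natDegree_lt_iff_degree_lt h0).2 h1
      omega

theorem sum_zero {N : ℕ} : ∀ (I : ℕ) (u : ℕ → F[X]),
    (∀ i < I, X ^ N ∣ u i → u i = 0) → ∑ i ∈ range I, u i * X ^ (i * N) = 0 →
    ∀ i < I, u i = 0 := by
  intro I
  induction I with
  | zero => intro u _ _ i hi; omega
  | succ I ih =>
    intro u hu hs
    rw [sum_range_succ'] at hs
    have e1 : ∑ i ∈ range I, u (i + 1) * X ^ ((i + 1) * N) =
        (∑ i ∈ range I, u (i + 1) * X ^ (i * N)) * X ^ N := by
      rw [sum_mul]
      refine sum_congr rfl fun i _ => ?_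
      rw [add_mul, one_mul, pow_add, mul_assoc]
    rw [e1, zero_mul, pow_zero, mul_one] at hs
    have h0 : u 0 = 0 := by
      apply hu 0 (by omega)
      rw [eq_neg_of_add_eq_zero_right hs]
      exact (dvd_neg.2 (dvd_mul_left _ _))
    rw [h0, add_zero] at hs
    have hs' : ∑ i ∈ range I, u (i + 1) * X ^ (i * N) = 0 := by
      rcases mul_eq_zero.1 hs with h | h
      · exact h
      · exact absurd h (pow_ne_zero _ X_ne_zero)
    intro i hi
    rcases Nat.eq_zero_or_pos i with rfl | hpos
    · exact h0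
    · obtain ⟨j, rfl⟩ := Nat.exists_eq_add_of_lt hpos
      have := ih (fun i => u (i + 1)) (fun i hi => hu (i + 1) (by omega)) hs' j (by omega)
      simpa [add_comm] using this

section
variable {p : ℕ} [Fact p.Prime] [CharP F p]

/-- `h + k f ^ ((Q' - 1) / 2)` is not divisible by `X ^ Q'` -/
theorem eq_zero_of_dvd {n Q₂ : ℕ} (hQ : p ^ n = 2 * Q₂ + 1) {f h k : F[X]}
    (hf0 : f.eval 0 ≠ 0) (hf : ¬ ∃ (c : F) (g : F[X]), f = C c * g ^ 2)
    (hh : 2 * h.natDegree + f.natDegree < p ^ n) (hk : 2 * k.natDegree < p ^ n)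
    (hdvd : X ^ p ^ n ∣ h + k * f ^ Q₂) : h = 0 ∧ k = 0 := by
  set c : F := (f.eval 0) ^ p ^ n with hc
  have hc0 : c ≠ 0 := pow_ne_zero _ hf0
  have h1 : X ^ p ^ n ∣ h ^ 2 * f - k ^ 2 * f ^ p ^ n := by
    have e : h ^ 2 * f - k ^ 2 * f ^ p ^ n = (h + k * f ^ Q₂) * ((h - k * f ^ Q₂) * f) := by
      rw [hQ]
      ring
    rw [e]
    exact Dvd.dvd.mul_right hdvd _
  have h2 : X ^ p ^ n ∣ f ^ p ^ n - C c := by
    have e : f ^ p ^ n - C c = (f - C (f.eval 0)) ^ p ^ n := by
      rw [sub_pow_char_pow, hc, C_pow]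
    rw [e]
    apply pow_dvd_pow_of_dvd
    have := X_sub_C_dvd_sub_C_eval (a := (0 : F)) (p := f)
    simpa using this
  have h3 : X ^ p ^ n ∣ h ^ 2 * f - C c * k ^ 2 := by
    have e : h ^ 2 * f - C c * k ^ 2 =
        (h ^ 2 * f - k ^ 2 * f ^ p ^ n) + (f ^ p ^ n - C c) * k ^ 2 := by ring
    rw [e]
    exact dvd_add h1 (Dvd.dvd.mul_right h2 _)
  have h4 : h ^ 2 * f - C c * k ^ 2 = 0 := by
    by_contra hne
    have h5 := natDegree_le_of_dvd h3 hne
    rw [natDegree_X_pow] at h5
    have h6 : (h ^ 2 * f - C c * k ^ 2).natDegree < p ^ n := by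
      refine lt_of_le_of_lt (natDegree_sub_le _ _) (max_lt ?_ ?_)
      · refine lt_of_le_of_lt natDegree_mul_le ?_
        refine lt_of_le_of_lt (Nat.add_le_add_right natDegree_pow_le _) hh
      · refine lt_of_le_of_lt (natDegree_C_mul_le _ _) ?_
        exact lt_of_le_of_lt natDegree_pow_le hk
    omega
  have h5 : h ^ 2 * f = C c * k ^ 2 := sub_eq_zero.1 h4
  by_cases hh0 : h = 0
  · refine ⟨hh0, ?_⟩
    rw [hh0] at h5
    have : C c * k ^ 2 = 0 := by rw [← h5]; ring
    rcases mul_eq_zero.1 this with h | h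
    · exact absurd (C_eq_zero.1 h) hc0
    · exact pow_eq_zero_iff (two_ne_zero) |>.1 h
  · exfalso
    have h6 : h ^ 2 ∣ k ^ 2 := by
      have : k ^ 2 = h ^ 2 * (f * C c⁻¹) := by
        rw [← mul_assoc, h5, mul_comm (C c * k ^ 2), ← mul_assoc, ← C_mul, inv_mul_cancel₀ hc0,
          C_1, one_mul]
      rw [this]
      exact dvd_mul_right _ _
    obtain ⟨g, rfl⟩ := (IsIntegrallyClosed.pow_dvd_pow_iff two_ne_zero).1 h6
    apply hf
    refine ⟨c, g, ?_⟩
    have : h ^ 2 * f = h ^ 2 * (C c * g ^ 2) := by rw [h5]; ring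
    exact mul_left_cancel₀ (pow_ne_zero 2 hh0) this

variable [Fintype F] [DecidableEq F]

/-- the auxiliary polynomial -/
noncomputable def auxS (p m M₂ : ℕ) (f : F[X]) (a : F) {I H : ℕ} (c c' : Fin I → Fin H → F) : F[X] :=
  ∑ i : Fin I, (pol (c i) ^ p ^ m * f ^ M₂ + C a * pol (c' i) ^ p ^ m) * X ^ (i : ℕ)

omit [Fintype F] [DecidableEq F] in
theorem auxS_sub (m M₂ : ℕ) (f : F[X]) (a : F) {I H : ℕ} (c c' e e' : Fin I → Fin H → F) :
    auxS p m M₂ f a (c - e) (c' - e') = auxS p m M₂ f a c c' - auxS p m M₂ f a e e' := by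
  unfold auxS
  rw [← sum_sub_distrib]
  refine sum_congr rfl fun i _ => ?_
  rw [Pi.sub_apply, Pi.sub_apply, pol_sub, pol_sub, sub_pow_char_pow, sub_pow_char_pow]
  ring

omit [Fact p.Prime] [CharP F p] [Fintype F] [DecidableEq F] in
theorem natDegree_auxS_lt (m M₂ : ℕ) (f : F[X]) (a : F) {I H : ℕ} (hI : 0 < I)
    (c c' : Fin I → Fin H → F) :
    (auxS p m M₂ f a c c').natDegree < p ^ m * (H - 1) + f.natDegree * M₂ + I := by
  have : (auxS p m M₂ f a c c').natDegree ≤ p ^ m * (H - 1) + f.natDegree * M₂ + (I - 1) := by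
    apply natDegree_sum_le_of_forall_le
    intro i _
    have hi := i.2
    refine natDegree_mul_le.trans ?_
    rw [natDegree_X_pow]
    have h1 : (pol (c i) ^ p ^ m * f ^ M₂).natDegree ≤ p ^ m * (H - 1) + f.natDegree * M₂ := by
      refine natDegree_mul_le.trans (Nat.add_le_add ?_ ?_)
      · exact natDegree_pow_le.trans (Nat.mul_le_mul_left _ (natDegree_pol_le _))
      · refine natDegree_pow_le.trans ?_
        rw [mul_comm]
    have h2 : (C a * pol (c' i) ^ p ^ m).natDegree ≤ p ^ m * (H - 1) + f.natDegree * M₂ := by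
      refine (natDegree_C_mul_le _ _).trans ?_
      refine (natDegree_pow_le.trans (Nat.mul_le_mul_left _ (natDegree_pol_le _))).trans ?_
      omega
    have h3 := (natDegree_add_le (pol (c i) ^ p ^ m * f ^ M₂) (C a * pol (c' i) ^ p ^ m)).trans
      (max_le h1 h2)
    omega
  omega

/-- the number of `x` with `f(x) ^ ((Q - 1) / 2) = a` -/
theorem count_le {m n M₂ Q₂ : ℕ} (hQ : p ^ n = 2 * Q₂ + 1)
    (hcard : Fintype.card F = p ^ m * p ^ n) {f : F[X]}
    (hf0 : f.eval 0 ≠ 0) (hf : ¬ ∃ (c : F) (g : F[X]), f = C c * g ^ 2) {a : F} (ha : a ≠ 0)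
    {H I : ℕ} (hI : 0 < I) (hH : 2 * (H - 1) + f.natDegree < p ^ n)
    (hPH : p ^ m * (H - 1) + f.natDegree * M₂ + I < 2 * I * H) :
    (univ.filter fun x : F => (f.eval x) ^ (p ^ m * Q₂ + M₂) = a).card ≤
      (I - 1) * p ^ n + (H - 1) + f.natDegree * Q₂ := by
  have hp : 0 < p ^ n := by omega
  -- pigeonhole
  obtain ⟨⟨c, c'⟩, ⟨e, e'⟩, hne, hΦ⟩ := Fintype.exists_ne_map_eq_of_card_lt
    (fun cc : (Fin I → Fin H → F) × (Fin I → Fin H → F) =>
      fun j : Fin (p ^ m * (H - 1) + f.natDegree * M₂ + I) =>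
        (auxS p m M₂ f a cc.1 cc.2).coeff j) (by
      rw [Fintype.card_prod]
      simp only [Fintype.card_fun, Fintype.card_fin]
      rw [← pow_mul, ← pow_add]
      apply Nat.pow_lt_pow_right Fintype.one_lt_card
      calc _ < 2 * I * H := hPH
        _ = H * I + H * I := by ring)
  have hS : auxS p m M₂ f a (c - e) (c' - e') = 0 := by
    have h1 := natDegree_auxS_lt (p := p) m M₂ f a hI (c - e) (c' - e')
    rw [auxS_sub] at h1 ⊢
    ext j
    rw [coeff_zero]
    by_cases hj : j < p ^ m * (H - 1) + f.natDegree * M₂ + I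
    · have := congrFun hΦ ⟨j, hj⟩
      simp only at this
      rw [coeff_sub, this, sub_self]
    · exact coeff_eq_zero_of_natDegree_lt (by omega)
  -- the polynomials
  set h : ℕ → F[X] := fun i => if hi : i < I then pol ((c - e) ⟨i, hi⟩) else 0 with hhdef
  set k : ℕ → F[X] := fun i => if hi : i < I then pol ((c' - e') ⟨i, hi⟩) else 0 with hkdef
  have hh : ∀ i, (h i).natDegree ≤ H - 1 := by
    intro i
    simp only [hhdef]
    split_ifs with hi
    · exact natDegree_pol_le _
    · simp
  have hk : ∀ i, (k i).natDegree ≤ H - 1 := by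
    intro i
    simp only [hkdef]
    split_ifs with hi
    · exact natDegree_pol_le _
    · simp
  have hSeval : ∀ x : F, ∑ i ∈ range I, ((h i).eval x ^ p ^ m * f.eval x ^ M₂ +
      a * (k i).eval x ^ p ^ m) * x ^ i = 0 := by
    intro x
    have h1 := congrArg (eval x) hS
    rw [auxS, eval_finsetSum, eval_zero] at h1
    rw [← h1, ← Fin.sum_univ_eq_sum_range (fun i => ((h i).eval x ^ p ^ m * f.eval x ^ M₂ +
      a * (k i).eval x ^ p ^ m) * x ^ i)]
    refine sum_congr rfl fun i _ => ?_
    simp only [eval_mul, eval_add, eval_pow, eval_C, eval_X]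
    simp only [hhdef, hkdef, i.2, dif_pos, Fin.eta]
  set R : F[X] := ∑ i ∈ range I, (h i + k i * f ^ Q₂) * X ^ (i * p ^ n) with hR
  have hR0 : R ≠ 0 := by
    intro hR0
    have hz : ∀ i < I, X ^ p ^ n ∣ h i + k i * f ^ Q₂ → h i = 0 ∧ k i = 0 := by
      intro i _ hi
      refine eq_zero_of_dvd hQ hf0 hf ?_ ?_ hi
      · have := hh i; omega
      · have := hk i; omega
    have h1 := sum_zero I (fun i => h i + k i * f ^ Q₂) (fun i hi hd => by
      obtain ⟨e1, e2⟩ := hz i hi hd
      simp only [e1, e2]; ring) hR0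
    have h2 : ∀ i < I, h i = 0 ∧ k i = 0 := fun i hi => hz i hi (by
      have := h1 i hi
      rw [this]; exact dvd_zero _)
    apply hne
    have h3 : c - e = 0 := by
      funext i
      apply pol_eq_zero
      have := (h2 i i.2).1
      simpa only [hhdef, i.2, dif_pos, Fin.eta] using this
    have h4 : c' - e' = 0 := by
      funext i
      apply pol_eq_zero
      have := (h2 i i.2).2
      simpa only [hkdef, i.2, dif_pos, Fin.eta] using this
    rw [sub_eq_zero.1 h3, sub_eq_zero.1 h4]
  -- vanishing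
  have hvan : ∀ x : F, (f.eval x) ^ (p ^ m * Q₂ + M₂) = a → R.eval x = 0 := by
    intro x hx
    have hfx : f.eval x ≠ 0 := by
      intro h0
      rw [h0] at hx
      rcases Nat.eq_zero_or_pos (p ^ m * Q₂ + M₂) with h' | h'
      · have : Q₂ = 0 := by
          have hpm : 0 < p ^ m := pow_pos (Nat.Prime.pos Fact.out) m
          by_contra hq
          have : 0 < p ^ m * Q₂ := Nat.mul_pos hpm (by omega)
          omega
        have h1n : n = 0 := by
          by_contra hn
          have := Nat.one_lt_pow hn (Nat.Prime.one_lt (Fact.out : p.Prime))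
          omega
        have : 2 * (H - 1) + f.natDegree < 1 := by
          rw [h1n, pow_zero] at hH; exact hH
        have hfd : f.natDegree = 0 := by omega
        exact hf ⟨f.coeff 0, 1, by
          rw [one_pow, mul_one]
          exact eq_C_of_natDegree_eq_zero hfd⟩
      · rw [zero_pow (by omega)] at hx
        exact ha hx.symm
    have h1 : (f.eval x) ^ M₂ * (iterateFrobenius F p m (R.eval x)) = 0 := by
      rw [← hSeval x, hR, eval_finsetSum, map_sum, mul_sum]
      refine sum_congr rfl fun i _ => ?_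
      simp only [eval_mul, eval_add, eval_pow, eval_X, map_mul, map_add, map_pow,
        iterateFrobenius_def]
      have e1 : (x ^ p ^ m) ^ (i * p ^ n) = x ^ i := by
        rw [← pow_mul, show p ^ m * (i * p ^ n) = (p ^ m * p ^ n) * i by ring, pow_mul, ← hcard,
          FiniteField.pow_card]
      have e2 : f.eval x ^ M₂ * (f.eval x ^ p ^ m) ^ Q₂ = a := by
        rw [← pow_mul, ← pow_add, add_comm, hx]
      rw [e1, ← e2]
      ring
    rcases mul_eq_zero.1 h1 with h | h
    · exact absurd h (pow_ne_zero _ hfx)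
    · rw [iterateFrobenius_def] at h
      exact pow_eq_zero_iff (pow_pos (Nat.Prime.pos Fact.out) m).ne' |>.1 h
  -- count
  have hdeg : R.natDegree ≤ (I - 1) * p ^ n + (H - 1) + f.natDegree * Q₂ := by
    apply natDegree_sum_le_of_forall_le
    intro i hi
    rw [mem_range] at hi
    refine natDegree_mul_le.trans ?_
    rw [natDegree_X_pow]
    have h1 : (h i + k i * f ^ Q₂).natDegree ≤ (H - 1) + f.natDegree * Q₂ := by
      refine (natDegree_add_le _ _).trans (max_le ?_ ?_)
      · exact (hh i).trans (Nat.le_add_right _ _)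
      · refine natDegree_mul_le.trans (Nat.add_le_add (hk i) ?_)
        refine natDegree_pow_le.trans ?_
        rw [mul_comm]
    have h2 : i * p ^ n ≤ (I - 1) * p ^ n := Nat.mul_le_mul_right _ (by omega)
    omega
  refine le_trans ?_ hdeg
  apply card_le_degree_of_subset_roots
  intro x hx
  rw [mem_val, mem_filter] at hx
  rw [mem_roots hR0]
  exact hvan x hx.2

/-- Stepanov's bound, `f(0) ≠ 0` -/
theorem char_sum_aux {m n : ℕ} (hp2 : p ≠ 2) (hmn : m ≤ n)
    (hcard : Fintype.card F = p ^ m * p ^ n) {f : F[X]} (hf0 : f.eval 0 ≠ 0)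
    (hf : ¬ ∃ (c : F) (g : F[X]), f = C c * g ^ 2) :
    |∑ x : F, quadraticChar F (f.eval x)| ≤ 4 * (f.natDegree + 1) * p ^ n := by
  have hpp : p.Prime := Fact.out
  have hodd : Odd p := hpp.odd_of_ne_two hp2
  obtain ⟨M₂, hM⟩ := hodd.pow (n := m)
  obtain ⟨Q₂, hQ⟩ := hodd.pow (n := n)
  have hchar : ringChar F ≠ 2 := by
    rw [ringChar.eq F p]; exact hp2
  have hmn' : p ^ m ≤ p ^ n := Nat.pow_le_pow_right hpp.pos hmn
  set d := f.natDegree with hd
  have hcardle : |∑ x : F, quadraticChar F (f.eval x)| ≤ Fintype.card F := by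
    refine (abs_sum_le_sum_abs _ _).trans ?_
    rw [Fintype.card_eq_sum_ones]
    push_cast
    refine sum_le_sum fun x _ => ?_
    rcases eq_or_ne (f.eval x) 0 with h | h
    · rw [h]; simp
    · rcases quadraticChar_dichotomy h with h' | h' <;> rw [h'] <;> simp
  by_cases hbig : p ^ m ≤ 4 * (d + 1)
  · refine hcardle.trans ?_
    rw [hcard]
    push_cast
    have : ((p : ℤ) ^ m) ≤ 4 * (d + 1) := by exact_mod_cast hbig
    gcongr
  · rw [not_le] at hbig
    have hd1 : d < p ^ n := by omega
    have hhalf : Fintype.card F / 2 = p ^ m * Q₂ + M₂ := by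
      rw [hcard, hQ, mul_add, mul_one]
      nth_rewrite 2 [hM]
      have : p ^ m * (2 * Q₂) = 2 * (p ^ m * Q₂) := by ring
      omega
    have hcount : ∀ a : F, a ≠ 0 → 2 * (univ.filter fun x : F =>
        (f.eval x) ^ (p ^ m * Q₂ + M₂) = a).card ≤ p ^ m * p ^ n + 3 * d * p ^ n := by
      intro a ha
      have h1 := count_le (H := (p ^ n + 1 - d) / 2) (I := M₂ + 1 + d) hQ hcard hf0 hf ha
        (by omega) (by omega) (by
          rw [← hd]
          obtain ⟨H, hH⟩ : ∃ H, (p ^ n + 1 - d) / 2 = H + 1 := ⟨(p ^ n + 1 - d) / 2 - 1, by omega⟩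
          have hM2 : 2 * d + 2 ≤ M₂ := by omega
          have h3 : M₂ ≤ 2 * H := by omega
          have h4 : d * M₂ ≤ d * (2 * H) := Nat.mul_le_mul_left _ h3
          rw [hH, Nat.add_sub_cancel, hM]
          nlinarith)
      rw [← hd] at h1
      have h2 : 2 * ((p ^ n + 1 - d) / 2 - 1) ≤ p ^ n := by omega
      have h3 : (M₂ + 1 + d - 1) * p ^ n = (M₂ + d) * p ^ n := by
        rw [show M₂ + 1 + d - 1 = M₂ + d by omega]
      have h4 : p ^ m * p ^ n = 2 * (M₂ * p ^ n) + p ^ n := by rw [hM]; ring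
      have h5 : (M₂ + d) * p ^ n = M₂ * p ^ n + d * p ^ n := by ring
      have h6 : 2 * (d * Q₂) ≤ d * p ^ n := by
        rw [hQ]
        nlinarith
      have h7 : 3 * d * p ^ n = 3 * (d * p ^ n) := by ring
      omega
    -- the three sets
    have hval : ∀ x : F, (f.eval x) ^ (p ^ m * Q₂ + M₂) = (quadraticChar F (f.eval x) : F) := by
      intro x
      rw [quadraticChar_eq_pow_of_char_ne_two' hchar, hhalf]
    set N1 := (univ.filter fun x : F => (f.eval x) ^ (p ^ m * Q₂ + M₂) = 1).card with hN1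
    set N2 := (univ.filter fun x : F => (f.eval x) ^ (p ^ m * Q₂ + M₂) = -1).card with hN2
    have h1 := hcount 1 one_ne_zero
    have h2 := hcount (-1) (neg_ne_zero.2 one_ne_zero)
    rw [← hN1] at h1
    rw [← hN2] at h2
    have hne1 : (1 : F) ≠ -1 := by
      intro h
      have := Ring.neg_one_ne_one_of_char_ne_two hchar
      exact this h.symm
    have hf' : f ≠ 0 := by
      rintro rfl
      exact hf0 (by simp)
    have hzero : (univ.filter fun x : F => f.eval x = 0).card ≤ d := by
      apply card_le_degree_of_subset_roots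
      intro x hx
      rw [mem_val, mem_filter] at hx
      rw [mem_roots hf']
      exact hx.2
    have hchi : ∀ x : F, quadraticChar F (f.eval x) =
        (if (f.eval x) ^ (p ^ m * Q₂ + M₂) = 1 then 1 else 0) -
        (if (f.eval x) ^ (p ^ m * Q₂ + M₂) = -1 then 1 else 0) := by
      intro x
      rw [hval]
      rcases eq_or_ne (f.eval x) 0 with h | h
      · rw [h]; simp
      · rcases quadraticChar_dichotomy h with h' | h'
        · rw [h']
          simp [hne1]
        · rw [h']
          simp [hne1.symm]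
    have hone : ∀ x : F, (1 : ℕ) ≤
        (if (f.eval x) ^ (p ^ m * Q₂ + M₂) = 1 then 1 else 0) +
        (if (f.eval x) ^ (p ^ m * Q₂ + M₂) = -1 then 1 else 0) +
        (if f.eval x = 0 then 1 else 0) := by
      intro x
      rw [hval]
      rcases eq_or_ne (f.eval x) 0 with h | h
      · rw [h]; simp
      · rcases quadraticChar_dichotomy h with h' | h' <;> rw [h'] <;> simp [h, hne1, hne1.symm]
    have hsum : ∑ x : F, quadraticChar F (f.eval x) = (N1 : ℤ) - N2 := by
      rw [sum_congr rfl fun x _ => hchi x, sum_sub_distrib, hN1, hN2, card_filter, card_filter]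
      push_cast
      rfl
    have htot : p ^ m * p ^ n ≤ N1 + N2 + d := by
      rw [← hcard]
      calc Fintype.card F = ∑ x : F, 1 := Fintype.card_eq_sum_ones
        _ ≤ ∑ x : F, ((if (f.eval x) ^ (p ^ m * Q₂ + M₂) = 1 then 1 else 0) +
            (if (f.eval x) ^ (p ^ m * Q₂ + M₂) = -1 then 1 else 0) +
            (if f.eval x = 0 then 1 else 0)) := sum_le_sum fun x _ => hone x
        _ = N1 + N2 + (univ.filter fun x : F => f.eval x = 0).card := by
            rw [sum_add_distrib, sum_add_distrib, hN1, hN2, card_filter, card_filter, card_filter]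
        _ ≤ _ := Nat.add_le_add_left hzero _
    rw [hsum, abs_le]
    have hd2 : d ≤ d * p ^ n := Nat.le_mul_of_pos_right _ (by omega)
    have e3 : 3 * d * p ^ n = 3 * (d * p ^ n) := by ring
    have e4 : (4 * (d + 1) * p ^ n : ℤ) = ((4 * (d * p ^ n) + 4 * p ^ n : ℕ) : ℤ) := by
      push_cast; ring
    rw [e4]
    constructor <;> omega

/-- **Stepanov's bound for quadratic character sums.** `F` a finite field of odd characteristic `p`
with `p ^ m * p ^ n` elements, `m ≤ n`, `f` not a constant times a square. -/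
theorem char_sum_pn {m n : ℕ} (hp2 : p ≠ 2) (hmn : m ≤ n)
    (hcard : Fintype.card F = p ^ m * p ^ n) {f : F[X]}
    (hf : ¬ ∃ (c : F) (g : F[X]), f = C c * g ^ 2) :
    |∑ x : F, quadraticChar F (f.eval x)| ≤ 4 * (f.natDegree + 1) * p ^ n := by
  have hpp : p.Prime := Fact.out
  have hf' : f ≠ 0 := by
    rintro rfl
    exact hf ⟨0, 0, by simp⟩
  by_cases hbig : ∃ x : F, f.eval x ≠ 0
  · obtain ⟨y, hy⟩ := hbig
    have h1 := char_sum_aux (f := f.comp (X + C y)) hp2 hmn hcard (by simpa using hy) (by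
      rintro ⟨c, g, hg⟩
      apply hf
      refine ⟨c, g.comp (X - C y), ?_⟩
      have h2 := congrArg (fun u => u.comp (X - C y)) hg
      simp only [comp_assoc, add_comp, X_comp, C_comp, sub_add_cancel, comp_X, mul_comp,
        pow_comp] at h2
      exact h2)
    rw [natDegree_comp, natDegree_X_add_C, mul_one] at h1
    have h3 : ∑ x : F, quadraticChar F ((f.comp (X + C y)).eval x) =
        ∑ x : F, quadraticChar F (f.eval x) := by
      simp only [eval_comp, eval_add, eval_X, eval_C]
      exact Equiv.sum_comp (Equiv.addRight y) (fun x => quadraticChar F (f.eval x))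
    rw [h3] at h1
    exact h1
  · push Not at hbig
    simp only [hbig, quadraticChar_zero, sum_const_zero, abs_zero]
    positivity

/-- **Stepanov's bound for quadratic character sums.** `F` a finite field of odd characteristic `p`
with `p ^ κ` elements, `2 m ≤ κ`, `f` not a constant times a square. -/
theorem char_sum {κ m : ℕ} (hp2 : p ≠ 2) (hmκ : 2 * m ≤ κ)
    (hcard : Fintype.card F = p ^ κ) {f : F[X]}
    (hf : ¬ ∃ (c : F) (g : F[X]), f = C c * g ^ 2) :
    |((∑ x : F, quadraticChar F (f.eval x) : ℤ) : ℝ)| ≤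
      4 * (f.natDegree + 1) * Fintype.card F / p ^ m := by
  have hpp : p.Prime := Fact.out
  have h1 := char_sum_pn (m := m) (n := κ - m) hp2 (by omega) (by
    rw [hcard, ← pow_add]; congr 1; omega) hf
  have h2 : (Fintype.card F : ℝ) / p ^ m = p ^ (κ - m) := by
    rw [hcard]
    push_cast
    have : (p : ℝ) ≠ 0 := by exact_mod_cast hpp.ne_zero
    rw [div_eq_iff (pow_ne_zero _ this), ← pow_add]
    congr 1
    omega
  rw [mul_div_assoc, h2]
  exact_mod_cast h1

end

end Pool.Agent.Lib.MP_89bcae_ag.Stepanov14
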