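import Mathlib
import Pool.Agent.Lib.MP_89bcae_ag.DefsSup
import Pool.Agent.Lib.MP_89bcae_ag.Sup.Defs

/-!
# The two forms of the definitions
-/

open Polynomial IsDedekindDomain

open scoped Classical

namespace Pool.Agent.Lib.MP_89bcae_ag.Superelliptic

universe u

theorem IsIndependent.toSup {ℓ : ℕ} {k F : Type u} [Field k] [Field F] [Algebra k F] {g D : k[X]}
    (h : IsIndependent ℓ k F g D) : Sup.IsIndependent ℓ k F g D := h

theorem NoTateClass.ofSup {ℓ : ℕ} {k F : Type u} {L Ω : Type u} [Field k] [Field F] [Algebra k F]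
    [Field L] [Algebra F[X] L] [IsFractionRing F[X] L] [Field Ω] [Algebra L Ω] {g D : k[X]}
    {k' : IntermediateField k F} (h : Sup.NoTateClass ℓ L Ω g D k') :
    NoTateClass ℓ L Ω g D k' := by
  intro c hc hloc hfix
  exact h c ⟨hc.zero, hc.smul, hc.cocycle, hc.locallyConstant⟩ hloc hfix

end Pool.Agent.Lib.MP_89bcae_ag.Superelliptic
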