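import Mathlib
import Pool.Agent.Lib.MP_89bcae_ag.ColS8
import Pool.Agent.Lib.MP_89bcae_ag.DvrS8
import Pool.Agent.Lib.MP_89bcae_ag.BasS8
import Pool.Agent.Lib.MP_89bcae_ag.EisD7
import Pool.Agent.Lib.MP_89bcae_ag.SupConv
import Pool.Agent.Lib.MP_89bcae_ag.Sup.G20

/-!
# Superelliptic surfaces with integral coefficients: the arithmetic part
-/

open Polynomial

open scoped Classical

set_option linter.unusedSimpArgs false
set_option linter.unusedVariables false
set_option linter.unusedSectionVars false
set_option linter.style.haveILetI false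

namespace Pool.Agent.Lib.MP_89bcae_ag

/-- From the residual data to the vanishing of the invariant classes. -/
theorem noTate_of_pair8 {ℓ : ℕ} (hℓ : ℓ.Prime) (F L Ω : Type) [Field F] [Algebra ℚ F]
    [IsAlgClosure ℚ F] [Field L] [Algebra F[X] L] [IsFractionRing F[X] L] [Field Ω] [Algebra L Ω]
    [IsAlgClosure L Ω] {g D : ℤ[X]} (hg : g.Monic) (hcop : g.natDegree.Coprime ℓ) {n : ℕ}
    (hn : 2 ≤ n) (hdegD : D.natDegree = n + 1)
    (hsep : ((D.comp g).map (Int.castRingHom ℚ)).Separable)
    {p : ℕ} (hp : p.Prime) (hp2 : p ≠ 2) (hpℓ : p ≠ ℓ) (hlc : ¬ (p : ℤ) ∣ D.leadingCoeff)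
    (hcol : IsCollisionZ8 p g D)
    {q : ℕ} (hq : q.Prime) (hqℓ : q ≠ ℓ) (hqm : ¬ q ∣ g.natDegree)
    (hE1 : (q : ℤ) ∣ D.leadingCoeff) (hE2 : ¬ (q : ℤ) ^ 2 ∣ D.leadingCoeff)
    (hE3 : ¬ (q : ℤ) ∣ D.coeff n)
    (hE4 : ((D.map (Int.castRingHom (ZMod q))).comp
      (g.map (Int.castRingHom (ZMod q)))).Separable)
    (K : Type) [Field K] [Algebra ℚ K] [Algebra K F] [IsScalarTower ℚ K F] [FiniteDimensional ℚ K]
    [IsGalois ℚ K] {ζ : K}
    (hζ : IsPrimitiveRoot ζ ℓ) (hgen : ∀ σ : K ≃ₐ[ℚ] K, σ ζ = ζ → σ = 1)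
    (hX : IsPairTransitive7 K F X (D.map (Int.castRingHom K)))
    (k' : IntermediateField ℚ F) [FiniteDimensional ℚ k'] :
    Superelliptic.NoTateClass ℓ L Ω (g.map (Int.castRingHom ℚ)) (D.map (Int.castRingHom ℚ)) k' := by
  have hF : IsAlgClosed F := IsAlgClosure.isAlgClosed ℚ
  have hQF : Algebra.IsAlgebraic ℚ F := IsAlgClosure.isAlgebraic
  have hKFa : Algebra.IsAlgebraic K F := Algebra.IsAlgebraic.tower_top (K := ℚ) K
  have hKF : IsAlgClosure K F := ⟨hF, hKFa⟩
  have hchar : CharZero K := charZero_of_injective_algebraMap (algebraMap ℚ K).injective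
  have hg0 : g.natDegree ≠ 0 := by
    intro h0
    rw [h0, Nat.coprime_zero_left] at hcop
    exact hℓ.one_lt.ne' hcop
  have hinjK : Function.Injective (Int.castRingHom K) := (Int.castRingHom K).injective_int
  have hQK : (algebraMap ℚ K).comp (Int.castRingHom ℚ) = Int.castRingHom K := RingHom.ext_int _ _
  have hmapK : ∀ f : ℤ[X], (f.map (Int.castRingHom ℚ)).map (algebraMap ℚ K) =
      f.map (Int.castRingHom K) := fun f => by rw [Polynomial.map_map, hQK]
  have hsepK : ((D.comp g).map (Int.castRingHom K)).Separable := by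
    rw [← hmapK]
    exact hsep.map
  -- the discrete valuation rings
  have hmapR : ∀ (R : Type) [CommRing R] [Algebra R K] (f : ℤ[X]),
      (f.map (Int.castRingHom R)).map (algebraMap R K) = f.map (Int.castRingHom K) := by
    intro R _ _ f
    rw [Polynomial.map_map]
    congr 1
    exact RingHom.ext_int _ _
  have hinjR : ∀ (R : Type) [CommRing R] [Algebra R K], Function.Injective (Int.castRingHom R) := by
    intro R _ _
    have h1 : Function.Injective ((algebraMap R K).comp (Int.castRingHom R)) := by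
      have h2 : (algebraMap R K).comp (Int.castRingHom R) = Int.castRingHom K := RingHom.ext_int _ _
      rw [h2]
      exact hinjK
    exact Function.Injective.of_comp h1
  -- transitivity on pairs
  have htr : IsPairTransitive7 K F (g.map (Int.castRingHom K)) (D.map (Int.castRingHom K)) := by
    obtain ⟨R, i1, i2, i3, i4, i5, hR⟩ := exists_dvrK8 hℓ hq hqℓ K hζ hgen
    obtain ⟨φ, hφ⟩ := residue_map8 hq hR
    have hR1 : ∀ z : ℤ, (z : R) ∈ IsLocalRing.maximalIdeal R ↔ (q : ℤ) ∣ z := by
      intro z
      have h1 := hR z 1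
      rwa [pow_one, pow_one] at h1
    have hDdeg : (D.map (Int.castRingHom R)).natDegree = n + 1 := by
      rw [natDegree_map_eq_of_injective (hinjR R), hdegD]
    have hDlc : (D.map (Int.castRingHom R)).leadingCoeff = ((D.leadingCoeff : ℤ) : R) := by
      rw [leadingCoeff_map_of_injective (hinjR R)]
      rfl
    have h := isPairTransitive_of_cycle7 R K F (g := g.map (Int.castRingHom R))
      (D := D.map (Int.castRingHom R)) (hg.map _) (by
        rw [hg.natDegree_map]
        intro h0
        have h1 : IsLocalRing.residue R ((g.natDegree : ℤ) : R) = 0 := by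
          rw [Int.cast_natCast, map_natCast]
          exact h0
        rw [IsLocalRing.residue_eq_zero_iff, hR1] at h1
        exact hqm (Int.natCast_dvd_natCast.mp h1)) hDdeg
      (by rw [hDlc, hR1]; exact hE1) (by rw [hDlc, hR]; exact hE2)
      (by
        rw [coeff_map]
        have h1 : Int.castRingHom R (D.coeff n) = ((D.coeff n : ℤ) : R) := rfl
        rw [h1, hR1]
        exact hE3)
      (by
        rw [hφ, hφ, ← Polynomial.map_comp]
        exact hE4.map)
      (by rw [← Polynomial.map_comp, hmapR]; exact hsepK)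
      (by rw [hmapR]; exact hX)
    rw [hmapR, hmapR] at h
    exact h
  -- the arithmetic condition
  have hI : Sup.IsIndependent ℓ K F (g.map (Int.castRingHom K)) (D.map (Int.castRingHom K)) := by
    obtain ⟨R, i1, i2, i3, i4, i5, hR⟩ := exists_dvrK8 hℓ hp hpℓ K hζ hgen
    have hR1 : ∀ z : ℤ, ¬ (p : ℤ) ∣ z → IsUnit (z : R) := by
      intro z hz
      have h1 := hR z 1
      rw [pow_one, pow_one] at h1
      rw [← IsLocalRing.notMem_maximalIdeal, h1]
      exact hz
    have h2 : IsUnit (2 : R) := by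
      have h1 := hR1 2 (by
        intro h
        have h3 : p ∣ 2 := by exact_mod_cast h
        exact hp2 ((Nat.prime_dvd_prime_iff_eq hp Nat.prime_two).mp h3))
      simpa using h1
    have hDlc : (D.map (Int.castRingHom R)).leadingCoeff = ((D.leadingCoeff : ℤ) : R) := by
      rw [leadingCoeff_map_of_injective (hinjR R)]
      rfl
    have h := isIndependent_of_collision8 hℓ R K F h2 (g := g.map (Int.castRingHom R))
      (D := D.map (Int.castRingHom R)) (hg.map _) (by rw [hg.natDegree_map]; exact hg0)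
      (by rw [hg.natDegree_map]; exact hcop)
      (by rw [natDegree_map_eq_of_injective (hinjR R), hdegD]; omega)
      (by rw [hDlc]; exact hR1 _ hlc) (isCollision7_of_Z8 hp hR hcol)
      (by rw [← Polynomial.map_comp, hmapR]; exact hsepK)
      (by rw [hmapR, hmapR]; exact htr)
    rw [hmapR, hmapR] at h
    exact h
  -- the vanishing over `K`
  obtain ⟨K', hK', hle⟩ := Superelliptic.exists_finite8 (K := K) k'
  have hmain := Sup.main K F L Ω (g.map (Int.castRingHom K)) (D.map (Int.castRingHom K)) ζ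
    ⟨hℓ, by exact_mod_cast hℓ.ne_zero, hζ, hg.map _, by rw [hg.natDegree_map]; exact hcop,
      by rw [← Polynomial.map_comp]; exact hsepK,
      by rw [natDegree_map_eq_of_injective hinjK, hdegD]; omega⟩ hI K'
  have h := Superelliptic.NoTateClass.ofSup hmain
  apply Superelliptic.noTateClass_base8 (K := K) hle
  rw [hmapK, hmapK]
  exact h

end Pool.Agent.Lib.MP_89bcae_ag
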