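import Mathlib
import Pool.Agent.Lib.MP_89bcae_ag.DefsSupD8
import Pool.Agent.Lib.MP_89bcae_ag.SupZ8
import Pool.Agent.Lib.MP_89bcae_ag.SDenE14
import Pool.Agent.Lib.MP_89bcae_ag.SDenF14

/-!
# Superelliptic surfaces with integral coefficients: density one
-/

open Polynomial Filter Topology

open scoped Classical

set_option linter.unusedSimpArgs false
set_option linter.unusedVariables false
set_option linter.unusedSectionVars false
set_option linter.style.haveILetI false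

namespace Pool.Agent.Lib.MP_89bcae_ag

/-- **Density one**, with the cyclotomic field as an argument. -/
theorem superDensity8' {ℓ : ℕ} (hℓ : ℓ.Prime) (F L Ω : Type) [Field F] [Algebra ℚ F]
    [IsAlgClosure ℚ F] [Field L] [Algebra F[X] L] [IsFractionRing F[X] L] [Field Ω] [Algebra L Ω]
    [IsAlgClosure L Ω] {g : ℤ[X]} (hg : g.Monic) (hcop : g.natDegree.Coprime ℓ) {n : ℕ}
    (hn : 3 ≤ n) (K : Type) [Field K] [Algebra ℚ K] [IsCyclotomicExtension {ℓ} ℚ K] :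
    Tendsto (fun H : ℕ => ({a : Fin (n + 1) → ℤ | (∀ i, |a i| ≤ H) ∧
      ((vecPoly7 a).natDegree = n ∧ (((vecPoly7 a).comp g).map (Int.castRingHom ℚ)).Separable ∧
        Superelliptic.NoTateNumberField ℓ F L Ω g (vecPoly7 a))}.ncard : ℝ) /
          (2 * H + 1) ^ (n + 1)) atTop (𝓝 1) := by
  haveI : NeZero ℓ := ⟨hℓ.ne_zero⟩
  have hg0 : g.natDegree ≠ 0 := by
    intro h0
    rw [h0, Nat.coprime_zero_left] at hcop
    exact hℓ.one_lt.ne' hcop
  have hF : IsAlgClosed F := IsAlgClosure.isAlgClosed ℚ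
  have hQF : Algebra.IsAlgebraic ℚ F := IsAlgClosure.isAlgebraic
  -- the cyclotomic field
  haveI hfin : FiniteDimensional ℚ K := IsCyclotomicExtension.finiteDimensional {ℓ} ℚ K
  haveI hgal : IsGalois ℚ K := IsCyclotomicExtension.isGalois {ℓ} ℚ K
  let e : K →ₐ[ℚ] F := IsAlgClosed.lift
  letI : Algebra K F := e.toRingHom.toAlgebra
  haveI : IsScalarTower ℚ K F := IsScalarTower.of_algebraMap_eq fun x => (e.commutes x).symm
  haveI hKFa : Algebra.IsAlgebraic K F := Algebra.IsAlgebraic.tower_top (K := ℚ) K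
  have hζ : IsPrimitiveRoot (IsCyclotomicExtension.zeta ℓ ℚ K) ℓ :=
    IsCyclotomicExtension.zeta_spec ℓ ℚ K
  have hgen : ∀ σ : K ≃ₐ[ℚ] K, σ (IsCyclotomicExtension.zeta ℓ ℚ K) =
      IsCyclotomicExtension.zeta ℓ ℚ K → σ = 1 := by
    intro σ hσ
    apply AlgEquiv.coe_toAlgHom_injective
    apply (hζ.powerBasis ℚ).algHom_ext
    rw [IsPrimitiveRoot.powerBasis_gen]
    simpa using hσ
  refine superDensity14 ℓ hg hg0 hn (ℓ + 3 + g.natDegree) _ ?_
  intro a hdeg hsep hA hB hC hE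
  refine ⟨hdeg, hsep, ?_⟩
  intro k' hk'
  obtain ⟨pA, fA, -, hA1, hA2⟩ := hA
  obtain ⟨pB, fB, -, hB1, hB2⟩ := hB
  obtain ⟨p, hp, hpP, -, hcol, hlc⟩ := hC
  obtain ⟨q, hq, hqP, -, hE1, hE2, hE3, hE4⟩ := hE
  have hX := (pair2_cyclotomic14 hℓ (k := K) (F := F) hA1 hB1 (D := vecPoly7 a) (n := n)
    hdeg.le hn hA2 hB2).2
  have hco : (vecPoly7 a).coeff n = (vecPoly7 a).leadingCoeff := by
    rw [leadingCoeff, hdeg]
  rw [hco] at hlc hE1 hE2
  obtain ⟨m, rfl⟩ : ∃ m, n = m + 1 := ⟨n - 1, by omega⟩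
  refine noTate_of_pair8 hℓ F L Ω hg hcop (n := m) (by omega) hdeg hsep hp (by omega) (by omega)
    hlc hcol hq (by omega) (fun h => ?_) hE1 hE2 hE3 hE4 K hζ hgen hX k'
  have h1 := Nat.le_of_dvd (Nat.pos_of_ne_zero hg0) h
  omega

/-- **Density one.** -/
theorem superDensity8 {ℓ : ℕ} (hℓ : ℓ.Prime) (F L Ω : Type) [Field F] [Algebra ℚ F]
    [IsAlgClosure ℚ F] [Field L] [Algebra F[X] L] [IsFractionRing F[X] L] [Field Ω] [Algebra L Ω]
    [IsAlgClosure L Ω] {g : ℤ[X]} (hg : g.Monic) (hcop : g.natDegree.Coprime ℓ) {n : ℕ}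
    (hn : 3 ≤ n) :
    Tendsto (fun H : ℕ => ({a : Fin (n + 1) → ℤ | (∀ i, |a i| ≤ H) ∧
      ((vecPoly7 a).natDegree = n ∧ (((vecPoly7 a).comp g).map (Int.castRingHom ℚ)).Separable ∧
        Superelliptic.NoTateNumberField ℓ F L Ω g (vecPoly7 a))}.ncard : ℝ) /
          (2 * H + 1) ^ (n + 1)) atTop (𝓝 1) := by
  haveI : NeZero ℓ := ⟨hℓ.ne_zero⟩
  exact @superDensity8' ℓ hℓ F L Ω _ _ _ _ _ _ _ _ _ g hg hcop n hn (CyclotomicField ℓ ℚ) _
    (CyclotomicField.algebra ℓ ℚ) inferInstance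

end Pool.Agent.Lib.MP_89bcae_ag
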