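import Mathlib
import Pool.Agent.Lib.MP_89bcae_ag.DefsSupPt
import Pool.Agent.Lib.MP_89bcae_ag.SupConv
import Pool.Agent.Lib.MP_89bcae_ag.Sup.B15

/-!
# The two forms of the definitions, with points
-/

open Polynomial IsDedekindDomain

open scoped Classical

namespace Pool.Agent.Lib.MP_89bcae_ag.Superelliptic

universe u

variable {ℓ : ℕ} {k F L : Type u} [Field k] [Field F] [Algebra k F] [Field L] [Algebra F[X] L]
  {g D : k[X]}

/-- The point in the other form. -/
def Point.toSection (P : Point ℓ k F L g D) : Sup.Section ℓ k F L g D where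
  num := P.num
  den := P.den
  y := P.y
  coprime := P.coprime
  den_ne_zero := P.den_ne_zero
  y_ne_zero := P.y_ne_zero
  eqn := P.eqn

theorem isPointClass_iff_sup {A : Type u} [Field A] (f : A[X]) (a b : A) (Q : Jacobian ℓ f) :
    IsPointClass ℓ f a b Q ↔ Sup.IsPointClass ℓ f a b Q := by
  have h : (Ideal.span {AdjoinRoot.of (X ^ ℓ - C f : A[X][X]) (X - C a),
      AdjoinRoot.root (X ^ ℓ - C f : A[X][X]) - AdjoinRoot.of (X ^ ℓ - C f : A[X][X]) (C b)} :
      Ideal (Sup.Coord ℓ f)) = pointIdeal ℓ f a b := by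
    unfold pointIdeal
    rw [map_sub (AdjoinRoot.mk (X ^ ℓ - C f : A[X][X])) X (C (C b))]
    rfl
  unfold Sup.IsPointClass
  rw [h]
  change (∃ _ : Module.Invertible (Sup.Coord ℓ f) (pointIdeal ℓ f a b : Ideal (Sup.Coord ℓ f)),
    Q = Additive.ofMul (CommRing.Pic.mk (Sup.Coord ℓ f)
      (pointIdeal ℓ f a b : Ideal (Sup.Coord ℓ f)))) ↔
    Nonempty ((show CommRing.Pic (Sup.Coord ℓ f) from Additive.toMul Q).AsModule
      ≃ₗ[Sup.Coord ℓ f] (pointIdeal ℓ f a b : Ideal (Sup.Coord ℓ f)))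
  generalize (pointIdeal ℓ f a b : Ideal (Sup.Coord ℓ f)) = I
  constructor
  · rintro ⟨inst, rfl⟩
    exact ⟨CommRing.Pic.mk.linearEquiv (Sup.Coord ℓ f) I⟩
  · rintro ⟨e⟩
    have inst : Module.Invertible (Sup.Coord ℓ f) I := Module.Invertible.congr e
    refine ⟨inst, ?_⟩
    have h1 : CommRing.Pic.mk (Sup.Coord ℓ f) I =
        (show CommRing.Pic (Sup.Coord ℓ f) from Additive.toMul Q) :=
      CommRing.Pic.mk_eq_iff.mpr ⟨e.symm⟩
    exact congrArg Additive.ofMul h1.symm

theorem SolutionsGeneratedBy.toSup {ι : Type} [Fintype ι] {P : ι → Point ℓ k F L g D}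
    (h : SolutionsGeneratedBy P) : Sup.SolutionsGeneratedBy fun i => (P i).toSection :=
  fun e he => h e he

theorem TateClassesGeneratedBy.ofSup {Ω : Type u} [IsFractionRing F[X] L] [Field Ω] [Algebra L Ω]
    {ι : Type} {P : ι → Point ℓ k F L g D} {k' : IntermediateField k F}
    (h : Sup.IsGeneratedBy Ω (fun i => (P i).toSection) k') :
    TateClassesGeneratedBy Ω P k' := by
  intro c hc hloc hfix n
  obtain ⟨Q, hQ, hcQ⟩ := h c ⟨hc.zero, hc.smul, hc.cocycle, hc.locallyConstant⟩ hloc hfix n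
  refine ⟨Q, ?_, hcQ⟩
  have hG : pointGroup Ω P = Sup.sectionGroup Ω (fun i => (P i).toSection) := by
    unfold pointGroup Sup.sectionGroup
    congr 1
    ext Q
    constructor
    · rintro ⟨i, z, hz, h⟩
      exact ⟨i, z, hz, (isPointClass_iff_sup _ _ _ _).mp h⟩
    · rintro ⟨i, z, hz, h⟩
      exact ⟨i, z, hz, (isPointClass_iff_sup _ _ _ _).mpr h⟩
  rw [hG]
  exact hQ

end Pool.Agent.Lib.MP_89bcae_ag.Superelliptic
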