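import Mathlib
import Pool.Agent.Lib.MP_89bcae_ag.MatC7
import Pool.Agent.Lib.MP_89bcae_ag.ThmB8

/-!
# A simple collision over a discrete valuation ring: no Tate classes in the whole tower
-/

open Polynomial WeierstrassCurve WeierstrassCurve.Affine IsDedekindDomain

open scoped Classical

namespace Pool.Agent.Lib.MP_89bcae_ag

set_option linter.style.haveILetI false

universe u

/-- **The collision criterion for the whole tower.** -/
theorem collisionTower7 (R k F L Ω : Type u) [CommRing R] [IsDomain R] [IsDiscreteValuationRing R]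
    [Field k] [Algebra R k] [IsFractionRing R k] [Field F] [Algebra k F] [IsAlgClosure k F]
    [Field L] [Algebra F[X] L] [IsFractionRing F[X] L] [Field Ω] [Algebra L Ω]
    [IsSepClosure L Ω] (h2 : IsUnit (2 : R)) {g D : R[X]} (hg : g.Monic) (hdeg : g.natDegree = 3)
    (hn : 3 ≤ D.natDegree) (hlc : IsUnit D.leadingCoeff) (hcol : IsCollision7 g D)
    (hsep : ((D.comp g).map (algebraMap R k)).Separable)
    (htr : IsPairTransitive7 k F (g.map (algebraMap R k)) (D.map (algebraMap R k)))
    (k' : IntermediateField k F) [FiniteDimensional k k'] (r : ℕ) (s : Ω)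
    (hs : s ^ 2 ^ r = base k F L Ω (D.map (algebraMap R k))) :
    NoTateClassOver k F L (g.map (algebraMap R k)) (D.map (algebraMap R k)) (cover k' F L s) := by
  have hF : IsAlgClosed F := IsAlgClosure.isAlgClosed k
  have hkF : Algebra.IsAlgebraic k F := IsAlgClosure.isAlgebraic
  letI : Algebra R F := ((algebraMap k F).comp (algebraMap R k)).toAlgebra
  haveI : IsScalarTower R k F := IsScalarTower.of_algebraMap_eq fun _ => rfl
  have hinjk : Function.Injective (algebraMap R k) := IsFractionRing.injective R k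
  have hinjF : Function.Injective (algebraMap R F) := (algebraMap k F).injective.comp hinjk
  have hmapF : ∀ p : R[X], (p.map (algebraMap R k)).map (algebraMap k F) =
      p.map (algebraMap R F) := fun p => by rw [Polynomial.map_map]; rfl
  have hgdeg : g.natDegree ≠ 0 := by rw [hdeg]; norm_num
  have h2k : (2 : k) ≠ 0 := by
    have h1 := h2.map (algebraMap R k)
    rw [map_ofNat] at h1
    exact h1.ne_zero
  have hlcF : algebraMap R F D.leadingCoeff ≠ 0 := (hlc.map (algebraMap R F)).ne_zero
  have hlcF' : (D.map (algebraMap R F)).leadingCoeff = algebraMap R F D.leadingCoeff :=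
    leadingCoeff_map_of_injective hinjF D
  have hcompF : (D.map (algebraMap R F)).comp (g.map (algebraMap R F)) =
      ((D.comp g).map (algebraMap R k)).map (algebraMap k F) := by
    rw [hmapF, Polynomial.map_comp]
  have hsepF : ((D.map (algebraMap R F)).comp (g.map (algebraMap R F))).Separable := by
    rw [hcompF]; exact hsep.map
  have hgF : (g.map (algebraMap R F)).natDegree = 3 := by rw [hg.natDegree_map, hdeg]
  have hsepD : (D.map (algebraMap R F)).Separable := separable_left7 (by rw [hgF]; norm_num) hsepF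
  set gF := g.map (algebraMap R F) with hgFdef
  set DF := D.map (algebraMap R F) with hDFdef
  set S : Finset F := (DF.comp gF).roots.toFinset with hS
  set A : Finset F := DF.roots.toFinset with hA
  have hmemS : ∀ b, b ∈ S ↔ DF.eval (gF.eval b) = 0 := by
    intro b
    rw [hS, Multiset.mem_toFinset, mem_roots hsepF.ne_zero, IsRoot.def, eval_comp]
  have hmemA : ∀ α, α ∈ A ↔ DF.eval α = 0 := by
    intro α
    rw [hA, Multiset.mem_toFinset, mem_roots hsepD.ne_zero, IsRoot.def]
  have hSA : ∀ b ∈ S, gF.eval b ∈ A := fun b hb => (hmemA _).mpr ((hmemS b).mp hb)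
  have hDA : DF = C (algebraMap R F D.leadingCoeff) * ∏ α ∈ A, (X - C α) := by
    rw [← hlcF']
    exact eq_prod_roots7 hsepD
  have hgS : ∀ α ∈ A, gF - C α = ∏ b ∈ S.filter (fun b => gF.eval b = α), (X - C b) := by
    intro α hα
    have h1 : (gF - C α) ∣ DF.comp gF := by
      obtain ⟨w, hw⟩ := dvd_iff_isRoot.mpr ((hmemA α).mp hα)
      refine ⟨w.comp gF, ?_⟩
      rw [hw, mul_comp, sub_comp, X_comp, C_comp]
    have h3 := eq_prod_roots7 (hsepF.of_dvd h1)
    have h4 : (gF - C α).Monic := by
      have h5 : (C α).degree < gF.degree := by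
        rw [degree_eq_natDegree (p := gF) (fun h => by rw [h, natDegree_zero] at hgF; omega), hgF]
        exact (degree_C_le).trans_lt (by norm_num)
      exact (hg.map _).sub_of_left h5
    rw [h4.leadingCoeff, C_1, one_mul] at h3
    rw [h3]
    congr 1
    ext b
    rw [Finset.mem_filter, Multiset.mem_toFinset, mem_roots h4.ne_zero, IsRoot.def, eval_sub,
      eval_C, sub_eq_zero, hmemS]
    constructor
    · exact fun h => ⟨by rw [h]; exact (hmemA α).mp hα, h⟩
    · exact fun h => h.2
  have hAS : ∀ α ∈ A, ∃ b ∈ S, gF.eval b = α := by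
    intro α hα
    have h1 : (gF - C α).degree ≠ 0 := by
      have h3 : (gF - C α).natDegree = 3 := by rw [natDegree_sub_C, hgF]
      intro h4
      rw [natDegree_eq_of_degree_eq_some h4] at h3
      exact absurd h3 (by norm_num)
    obtain ⟨b, hb⟩ := IsAlgClosed.exists_root _ h1
    rw [IsRoot.def, eval_sub, eval_C, sub_eq_zero] at hb
    exact ⟨b, (hmemS b).mpr (by rw [hb]; exact (hmemA α).mp hα), hb⟩
  have hSroot : (S : Set F) = ((D.comp g).map (algebraMap R k)).rootSet F := by
    rw [rootSet, hS, hcompF, aroots]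
  obtain ⟨hfin, hgal⟩ := galois7 (F := F) hsep
  obtain ⟨K, hK⟩ : ∃ K, K = IntermediateField.adjoin k (S : Set F) := ⟨_, rfl⟩
  haveI : FiniteDimensional k K := by rw [hK, hSroot]; exact hfin
  haveI : IsGalois k K := by rw [hK, hSroot]; exact hgal
  obtain ⟨w, hw1, hw2, hw3, α₁, hα₁, α₂, hα₂, h12, hw4, hw5⟩ := exists_ord7 (R := R) (k := k)
    (F := F) h2 hgdeg hg hlc S A hDA hgS hSA hAS K hK hcol
  have hSK : ∀ b ∈ S, b ∈ K := by
    intro b hb
    rw [hK]
    exact IntermediateField.subset_adjoin _ _ hb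
  have hm := isMatch_of_ord7 w S A hgS hSA hSK hw2 hα₁ hα₂ h12 hw4 hw5
  obtain ⟨b₀, hb₀, hgb₀⟩ := hAS α₁ hα₁
  obtain ⟨c₀, hc₀, hgc₀, hl1, -⟩ := hm.left b₀ hb₀ hgb₀
  have hev : ∀ b : F, aeval b (g.map (algebraMap R k)) = gF.eval b := by
    intro b
    rw [← eval_map_algebraMap, hmapF]
  have hlck : (D.map (algebraMap R k)).leadingCoeff = algebraMap R k D.leadingCoeff :=
    leadingCoeff_map_of_injective hinjk D
  refine towerB8 k F L Ω h2k (hg.map _) (by rw [hg.natDegree_map, hdeg])
    (by rw [natDegree_map_eq_of_injective hinjk]; exact hn)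
    (by rw [← Polynomial.map_comp]; exact hsep) htr S (fun b => ?_) K hK
    (fun x => ((ordF7 w x : ℤ) : ZMod 2)) (fun x hx y hy hx0 hy0 => ?_) ?_ ?_
    (fun x hx y hy hxy hgxy => ?_) b₀ c₀ hb₀ hc₀ ?_ ?_ hl1 k' r s hs
  · rw [hmemS, aeval_comp, ← eval_map_algebraMap, hmapF, hev]
  · rw [ordF7_mul w hx hy hx0 hy0, Int.cast_add]
  · rw [ordF7_neg, ordF7_one, Int.cast_zero]
  · rw [hlck]
    have h1 : algebraMap k F (algebraMap R k D.leadingCoeff) = algebraMap R F D.leadingCoeff := rfl
    rw [h1, hw1, Int.cast_zero]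
  · rw [hev, hev] at hgxy
    rw [hw3 x hx y hy hxy hgxy, Int.cast_zero]
  · rw [hev, hev, hgb₀, hgc₀]
    exact h12
  · simp only [hev]
    rw [hgb₀, hgc₀]
    exact hm

end Pool.Agent.Lib.MP_89bcae_ag
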