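import Pool.Agent.Lib.MP_89bcae_ag.Collision14

/-!
# Local conditions at four places, and trinomials over `ℚ` in every odd degree
-/

open Polynomial

open scoped Classical WithZero

namespace Pool.Agent.Lib.MP_89bcae_ag

section Eisenstein

variable {L : Type*} [Field L] (w : Valuation L ℤᵐ⁰)

/-- The ideal of the elements of the valuation ring of value at most `exp m`. -/
def valIdeal (m : ℤ) : Ideal w.valuationSubring where
  carrier := {x | w x ≤ WithZero.exp m}
  add_mem' := fun {x y} hx hy => (w.map_add _ _).trans (max_le hx hy)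
  zero_mem' := by
    show w ((0 : w.valuationSubring) : L) ≤ _
    rw [ZeroMemClass.coe_zero, map_zero]
    exact zero_le
  smul_mem' := fun c x hx => by
    show w ((c • x : w.valuationSubring) : L) ≤ _
    rw [smul_eq_mul, MulMemClass.coe_mul, map_mul]
    exact (mul_le_mul' ((Valuation.mem_valuationSubring_iff _ _).1 c.2) hx).trans
      (one_mul _).le

theorem mem_valIdeal {m : ℤ} {x : w.valuationSubring} :
    x ∈ valIdeal w m ↔ w (x : L) ≤ WithZero.exp m := Iff.rfl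

theorem eq_one_of_not_le {γ : ℤᵐ⁰} (h1 : γ ≤ 1) (h2 : ¬ γ ≤ WithZero.exp (-1)) : γ = 1 := by
  by_cases h0 : γ = 0
  · subst h0
    exact absurd zero_le h2
  · rw [← WithZero.log_le_iff_le_exp h0] at h2
    rw [← WithZero.exp_zero, ← WithZero.log_le_iff_le_exp h0] at h1
    have h3 : WithZero.log γ = 0 := by omega
    rw [← WithZero.exp_log h0, h3, WithZero.exp_zero]

theorem isPrime_valIdeal : (valIdeal w (-1)).IsPrime := by
  refine ⟨?_, fun {x y} hxy => ?_⟩
  · rw [Ideal.ne_top_iff_one, mem_valIdeal, OneMemClass.coe_one, map_one, ← WithZero.exp_zero,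
      WithZero.exp_le_exp]
    omega
  · by_contra! hcon
    have hx := eq_one_of_not_le ((Valuation.mem_valuationSubring_iff _ _).1 x.2) hcon.1
    have hy := eq_one_of_not_le ((Valuation.mem_valuationSubring_iff _ _).1 y.2) hcon.2
    rw [mem_valIdeal, MulMemClass.coe_mul, map_mul, hx, hy, one_mul, ← WithZero.exp_zero,
      WithZero.exp_le_exp] at hxy
    omega

theorem valIdeal_sq_le : valIdeal w (-1) ^ 2 ≤ valIdeal w (-2) := by
  rw [sq, Ideal.mul_le]
  intro x hx y hy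
  rw [mem_valIdeal] at hx hy ⊢
  rw [MulMemClass.coe_mul, map_mul]
  exact (mul_le_mul' hx hy).trans_eq (by rw [← WithZero.exp_add]; norm_num)

/-- Eisenstein's criterion for a discrete valuation of a field. -/
theorem irreducible_of_valuation {p : L[X]} (hp : p.Monic) (hdeg : 0 < p.natDegree)
    (h0 : w (p.coeff 0) = WithZero.exp (-1))
    (hi : ∀ i < p.natDegree, w (p.coeff i) ≤ WithZero.exp (-1)) : Irreducible p := by
  have hle : ∀ i, w (p.coeff i) ≤ 1 := by
    intro i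
    rcases lt_trichotomy i p.natDegree with h | h | h
    · refine (hi i h).trans ?_
      rw [← WithZero.exp_zero, WithZero.exp_le_exp]
      omega
    · rw [h, coeff_natDegree, hp.leadingCoeff, map_one]
    · rw [coeff_eq_zero_of_natDegree_lt h, map_zero]
      exact zero_le_one
  have hlift : p ∈ lifts (algebraMap w.valuationSubring L) := by
    rw [lifts_iff_coeff_lifts]
    exact fun i => ⟨⟨p.coeff i, (Valuation.mem_valuationSubring_iff _ _).2 (hle i)⟩, rfl⟩
  obtain ⟨q, hq, hqdeg, hqm⟩ := lifts_and_natDegree_eq_and_monic hlift hp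
  have hcoeff : ∀ i, ((q.coeff i : w.valuationSubring) : L) = p.coeff i := by
    intro i
    rw [← hq, coeff_map]
    rfl
  have hE : q.IsEisensteinAt (valIdeal w (-1)) := by
    refine ⟨?_, fun {i} hi' => ?_, fun h => ?_⟩
    · rw [hqm.leadingCoeff]
      exact (Ideal.ne_top_iff_one _).1 (isPrime_valIdeal w).ne_top
    · rw [mem_valIdeal, hcoeff]
      exact hi i (hqdeg ▸ hi')
    · have h1 := valIdeal_sq_le w h
      rw [mem_valIdeal, hcoeff, h0, WithZero.exp_le_exp] at h1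
      omega
  have h1 := hE.irreducible (isPrime_valIdeal w) hqm.isPrimitive (hqdeg ▸ hdeg)
  rwa [hqm.irreducible_iff_irreducible_map_fraction_map (K := L), hq] at h1

end Eisenstein

section Adjoin

variable {R k F : Type*} [CommRing R] [IsDomain R] [IsDiscreteValuationRing R] [Field k]
  [Algebra R k] [IsFractionRing R k] [Field F] [Algebra k F] [Algebra R F] [IsScalarTower R k F]

theorem adjoin_preimage_adjoin {S : Set F} (hS : ∀ x ∈ S, IsAlgebraic k x) :
    Algebra.adjoin k (Subtype.val ⁻¹' S : Set (IntermediateField.adjoin k S)) = ⊤ := by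
  rw [eq_top_iff]
  intro x _
  have h1 : (x : F) ∈ Algebra.adjoin k S := by
    rw [← IntermediateField.adjoin_toSubalgebra_of_isAlgebraic hS]
    exact x.2
  have h2 : ((IntermediateField.adjoin k S).val : IntermediateField.adjoin k S →ₐ[k] F) ''
      (Subtype.val ⁻¹' S) = S := by
    apply Set.Subset.antisymm
    · rintro _ ⟨y, hy, rfl⟩
      exact hy
    · intro y hy
      exact ⟨⟨y, IntermediateField.subset_adjoin _ _ hy⟩, hy, rfl⟩
  have h3 : (x : F) ∈ Subalgebra.map (IntermediateField.adjoin k S).val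
      (Algebra.adjoin k (Subtype.val ⁻¹' S)) := by
    rw [AlgHom.map_adjoin, h2]
    exact h1
  obtain ⟨y, hy, hyx⟩ := h3
  have : y = x := Subtype.ext hyx
  exact this ▸ hy

theorem exists_valuation_adjoin (S : Set F) (hfin : S.Finite)
    (hS : ∀ x ∈ S, IsUnramifiedElement R x) :
    ∃ w : Valuation (IntermediateField.adjoin k S) ℤᵐ⁰,
      (∀ r : R, w (algebraMap k _ (algebraMap R k r)) ≤ 1) ∧
      ∀ p : R, Irreducible p → w (algebraMap k _ (algebraMap R k p)) = WithZero.exp (-1) := by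
  have htower : IsScalarTower R (IntermediateField.adjoin k S) F :=
    IsScalarTower.of_algebraMap_eq fun r => rfl
  have halg : ∀ x ∈ S, IsAlgebraic k x := by
    intro x hx
    obtain ⟨f, hf, -, hfx⟩ := hS x hx
    refine ⟨f.map (algebraMap R k), ?_, ?_⟩
    · intro h0
      have : f = 0 := map_injective _ (IsFractionRing.injective R k)
        (by rw [h0, Polynomial.map_zero])
      exact hf.ne_zero (by rw [this, leadingCoeff_zero])
    · rw [aeval_map_algebraMap, hfx]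
  obtain ⟨w, -, hw1, hw2⟩ := exists_unramified_valuation (R := R) k
    (Subtype.val ⁻¹' S : Set (IntermediateField.adjoin k S))
    (hfin.preimage Subtype.val_injective.injOn)
    (by
      intro x hx
      obtain ⟨f, hf, hsep, hfx⟩ := hS x hx
      refine ⟨f, hf, hsep, ?_⟩
      have h2 : aeval (algebraMap (IntermediateField.adjoin k S) F x) f =
        algebraMap (IntermediateField.adjoin k S) F (aeval x f) := aeval_algebraMap_apply F x f
      exact (algebraMap (IntermediateField.adjoin k S) F).injective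
        (h2.symm.trans (hfx.trans (map_zero _).symm)))
    (adjoin_preimage_adjoin halg)
  refine ⟨w, fun r => ?_, fun p hp => ?_⟩
  · rw [← IsScalarTower.algebraMap_apply]
    exact hw1 r
  · rw [← IsScalarTower.algebraMap_apply]
    exact hw2 p hp

/-- An Eisenstein polynomial stays irreducible over an extension generated by elements with unit
discriminants. -/
theorem irreducible_map_adjoin (S : Set F) (hfin : S.Finite)
    (hS : ∀ x ∈ S, IsUnramifiedElement R x) {p : R[X]} (hdeg : 0 < p.natDegree)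
    (hp : p.IsEisensteinAt (IsLocalRing.maximalIdeal R)) :
    Irreducible ((p.map (algebraMap R k)).map
      (algebraMap k (IntermediateField.adjoin k S))) := by
  obtain ⟨w, hw1, hw2⟩ := exists_valuation_adjoin (k := k) S hfin hS
  have hu : IsUnit p.leadingCoeff := by
    by_contra h
    exact hp.leading ((IsLocalRing.mem_maximalIdeal _).2 h)
  obtain ⟨ϖ, hϖ⟩ := IsDiscreteValuationRing.exists_irreducible R
  have hmax : ∀ r ∈ IsLocalRing.maximalIdeal R,
      w (algebraMap k _ (algebraMap R k r)) ≤ WithZero.exp (-1) := by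
    intro r hr
    rw [hϖ.maximalIdeal_eq, Ideal.mem_span_singleton] at hr
    obtain ⟨s, rfl⟩ := hr
    rw [map_mul, map_mul, map_mul, hw2 ϖ hϖ]
    exact (mul_le_mul' le_rfl (hw1 s)).trans (mul_one _).le
  have hunit : ∀ r : R, IsUnit r → w (algebraMap k _ (algebraMap R k r)) = 1 := by
    rintro _ ⟨u, rfl⟩
    refine le_antisymm (hw1 _) ?_
    have h1 : w (algebraMap k _ (algebraMap R k (↑u : R))) *
        w (algebraMap k _ (algebraMap R k (↑u⁻¹ : R))) = 1 := by
      rw [← map_mul, ← map_mul, ← map_mul, Units.mul_inv, map_one, map_one, map_one]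
    calc (1 : ℤᵐ⁰) = w (algebraMap k _ (algebraMap R k (↑u : R))) *
        w (algebraMap k _ (algebraMap R k (↑u⁻¹ : R))) := h1.symm
      _ ≤ w (algebraMap k _ (algebraMap R k (↑u : R))) * 1 := mul_le_mul' le_rfl (hw1 _)
      _ = _ := mul_one _
  have h0 : w (algebraMap k _ (algebraMap R k (p.coeff 0))) = WithZero.exp (-1) := by
    have h1 : p.coeff 0 ∈ IsLocalRing.maximalIdeal R := hp.mem hdeg
    have h2 := hp.notMem
    rw [hϖ.maximalIdeal_eq, Ideal.mem_span_singleton] at h1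
    obtain ⟨s, hs⟩ := h1
    rw [hϖ.maximalIdeal_eq, Ideal.span_singleton_pow, Ideal.mem_span_singleton] at h2
    have h3 : IsUnit s := by
      by_contra h4
      have h5 : s ∈ IsLocalRing.maximalIdeal R := (IsLocalRing.mem_maximalIdeal _).2 h4
      rw [hϖ.maximalIdeal_eq, Ideal.mem_span_singleton] at h5
      obtain ⟨t, ht⟩ := h5
      exact h2 ⟨t, by rw [hs, ht]; ring⟩
    rw [hs, map_mul, map_mul, map_mul, hw2 ϖ hϖ, hunit s h3, mul_one]
  -- make the polynomial monic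
  obtain ⟨u, hu'⟩ := hu
  have hmonic : (C (↑u⁻¹ : R) * p).Monic :=
    monic_C_mul_of_mul_leadingCoeff_eq_one (by rw [← hu', Units.inv_mul])
  have hdeg' : (C (↑u⁻¹ : R) * p).natDegree = p.natDegree :=
    natDegree_C_mul_of_isUnit (Units.isUnit u⁻¹) p
  have hinj : Function.Injective
      ((algebraMap k (IntermediateField.adjoin k S)).comp (algebraMap R k)) :=
    (algebraMap k _).injective.comp (IsFractionRing.injective R k)
  have key : Irreducible ((C (↑u⁻¹ : R) * p).map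
      ((algebraMap k (IntermediateField.adjoin k S)).comp (algebraMap R k))) := by
    apply irreducible_of_valuation w (hmonic.map _)
    · rw [natDegree_map_eq_of_injective hinj, hdeg']
      exact hdeg
    · rw [coeff_map, coeff_C_mul, RingHom.comp_apply, map_mul, map_mul, map_mul, h0,
        hunit _ (Units.isUnit u⁻¹), one_mul]
    · intro i hi
      rw [natDegree_map_eq_of_injective hinj, hdeg'] at hi
      rw [coeff_map, coeff_C_mul, RingHom.comp_apply]
      exact hmax _ (Ideal.mul_mem_left _ _ (hp.mem hi))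
  rw [← Polynomial.map_map] at key
  rw [Polynomial.map_mul, Polynomial.map_mul, map_C, map_C] at key
  rwa [irreducible_isUnit_mul] at key
  rw [isUnit_C]
  exact ((Units.isUnit u⁻¹).map (algebraMap R k)).map _

end Adjoin

section Transitive

variable {k F : Type*} [Field k] [Field F] [Algebra k F] [IsAlgClosed F] [Algebra.IsAlgebraic k F]

theorem exists_algEquiv_fixing (L : IntermediateField k F) {p : k[X]}
    (hp : Irreducible (p.map (algebraMap k L))) {x y : F} (hx : aeval x p = 0)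
    (hy : aeval y p = 0) : ∃ σ : F ≃ₐ[k] F, σ x = y ∧ ∀ z ∈ L, σ z = z := by
  have : IsAlgClosure L F := ⟨inferInstance, inferInstance⟩
  have : Normal L F := IsAlgClosure.normal L F
  have h1 : aeval x (p.map (algebraMap k L)) = 0 := by rw [aeval_map_algebraMap, hx]
  have h2 : aeval y (p.map (algebraMap k L)) = 0 := by rw [aeval_map_algebraMap, hy]
  have h3 := minpoly.eq_of_irreducible hp h1
  obtain ⟨σ, hσ⟩ := minpoly.exists_algEquiv_of_root' (K := L) (x := y) (y := x)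
    (Algebra.IsAlgebraic.isAlgebraic x) (by rw [← h3, map_mul, h2, zero_mul])
  refine ⟨σ.restrictScalars k, hσ, fun z hz => ?_⟩
  exact σ.commutes ⟨z, hz⟩

/-- If `p` is irreducible over a field containing the roots of `q` and `q` is irreducible over some
field, the Galois group is transitive on pairs of roots. -/
theorem isTransitiveOnPairs_of_irreducible {p q : k[X]} {L L' : IntermediateField k F}
    (hp : Irreducible (p.map (algebraMap k L))) (hL : ∀ y ∈ rootsIn F q, y ∈ L)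
    (hq : Irreducible (q.map (algebraMap k L'))) : IsTransitiveOnPairs F p q := by
  have hq0 : q ≠ 0 := by
    rintro rfl
    rw [Polynomial.map_zero] at hq
    exact not_irreducible_zero hq
  intro x y x' y' hx hy hx' hy'
  obtain ⟨σ, hσ, -⟩ := exists_algEquiv_fixing L' hq hy hy'
  obtain ⟨τ, hτ, hτ'⟩ := exists_algEquiv_fixing L hp (x := σ x) (y := x')
    (by rw [aeval_algHom_apply, hx, map_zero]) hx'
  refine ⟨σ.trans τ, hτ, ?_⟩
  rw [AlgEquiv.trans_apply, hσ]
  exact hτ' y' (hL y' ((mem_rootsIn hq0).2 hy'))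

end Transitive

section Local

variable {R : Type*} [CommRing R] [IsLocalRing R]

theorem isCoprime_of_residue {f g : R[X]} (hf : f.Monic)
    (h : IsCoprime (f.map (IsLocalRing.residue R)) (g.map (IsLocalRing.residue R))) :
    IsCoprime f g := by
  rw [← isUnit_resultant_iff_isCoprime hf]
  apply isUnit_of_map_unit (IsLocalRing.residue R)
  rw [← resultant_map_map]
  obtain ⟨m, hm⟩ := Nat.exists_eq_add_of_le (natDegree_map_le (f := IsLocalRing.residue R) (p := g))
  have h1 : (f.map (IsLocalRing.residue R)).natDegree = f.natDegree := hf.natDegree_map _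
  rw [hm, resultant_add_right_deg _ _ _ _ _ le_rfl, ← h1, coeff_natDegree,
    (hf.map _).leadingCoeff, one_pow, one_mul, isUnit_resultant_iff_isCoprime (hf.map _)]
  exact h

/-- Over a local ring, a polynomial with unit leading coefficient and separable reduction is
separable. -/
theorem separable_of_residue {f : R[X]} (hf : IsUnit f.leadingCoeff)
    (h : (f.map (IsLocalRing.residue R)).Separable) : f.Separable := by
  obtain ⟨u, hu⟩ := hf
  have hmonic : (C (↑u⁻¹ : R) * f).Monic :=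
    monic_C_mul_of_mul_leadingCoeff_eq_one (by rw [← hu, Units.inv_mul])
  have h1 : (C (↑u⁻¹ : R) * f).Separable := by
    apply isCoprime_of_residue hmonic
    rw [← derivative_map]
    rw [Polynomial.map_mul, map_C]
    exact Separable.unit_mul (isUnit_C.2 ((Units.isUnit u⁻¹).map _)) h
  exact h1.of_mul_right

end Local

section Places

variable {O : Type*} [CommRing O] [IsDedekindDomain O]

/-- The polynomial `p` keeps its degree and is separable modulo `P`. -/
def IsSeparableMod (P : Ideal O) (p : O[X]) : Prop :=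
  p.leadingCoeff ∉ P ∧ (p.map (Ideal.Quotient.mk P)).Separable

variable (k : Type*) [Field k] [Algebra O k] [IsFractionRing O k]

/-- The localization at `P` as a subring of the fraction field. -/
noncomputable abbrev locAt (P : Ideal O) [P.IsPrime] : Subalgebra O k :=
  Localization.subalgebra.ofField k P.primeCompl P.primeCompl_le_nonZeroDivisors

instance locAt_isLocalization (P : Ideal O) [P.IsPrime] :
    IsLocalization.AtPrime (locAt k P) P :=
  Localization.subalgebra.isLocalization_ofField k P.primeCompl P.primeCompl_le_nonZeroDivisors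

instance locAt_isLocalRing (P : Ideal O) [P.IsPrime] : IsLocalRing (locAt k P) :=
  IsLocalization.AtPrime.isLocalRing _ P

instance locAt_isFractionRing (P : Ideal O) [P.IsPrime] : IsFractionRing (locAt k P) k :=
  Localization.subalgebra.isFractionRing_ofField k P.primeCompl P.primeCompl_le_nonZeroDivisors

theorem locAt_isDVR {P : Ideal O} [P.IsPrime] (hP : P ≠ ⊥) :
    IsDiscreteValuationRing (locAt k P) :=
  IsLocalization.AtPrime.isDiscreteValuationRing_of_dedekind_domain O hP _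

variable {k}

theorem map_map_locAt (P : Ideal O) [P.IsPrime] (p : O[X]) :
    (p.map (algebraMap O (locAt k P))).map (algebraMap (locAt k P) k) =
      p.map (algebraMap O k) := by
  rw [Polynomial.map_map, ← IsScalarTower.algebraMap_eq]

theorem locAt_injective (P : Ideal O) [P.IsPrime] :
    Function.Injective (algebraMap O (locAt k P)) := by
  have h := IsFractionRing.injective O k
  rw [IsScalarTower.algebraMap_eq O (locAt k P) k, RingHom.coe_comp] at h
  exact h.of_comp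

theorem IsSeparableMod.isUnit_leadingCoeff {P : Ideal O} [P.IsPrime] {p : O[X]}
    (h : IsSeparableMod P p) : IsUnit (p.map (algebraMap O (locAt k P))).leadingCoeff := by
  rw [leadingCoeff_map_of_injective (locAt_injective P),
    IsLocalization.AtPrime.isUnit_to_map_iff (locAt k P) P]
  exact h.1

theorem IsSeparableMod.separable {P : Ideal O} [P.IsPrime] {p : O[X]}
    (h : IsSeparableMod P p) : (p.map (algebraMap O (locAt k P))).Separable := by
  apply separable_of_residue h.isUnit_leadingCoeff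
  have h1 : ∀ x ∈ P, ((IsLocalRing.residue (locAt k P)).comp (algebraMap O (locAt k P))) x = 0 :=
    fun x hx => (IsLocalRing.residue_eq_zero_iff _).2
      ((IsLocalization.AtPrime.to_map_mem_maximal_iff (locAt k P) P x).2 hx)
  rw [Polynomial.map_map, ← Ideal.Quotient.lift_comp_mk P _ h1, ← Polynomial.map_map]
  exact h.2.map

theorem IsSeparableMod.isUnramifiedElement {F : Type*} [Field F] [Algebra k F] [Algebra O F]
    [IsScalarTower O k F] {P : Ideal O} [P.IsPrime] {p : O[X]}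
    (h : IsSeparableMod P p) {x : F} (hx : x ∈ rootsIn F (p.map (algebraMap O k))) :
    IsUnramifiedElement (locAt k P) x := by
  refine ⟨_, h.isUnit_leadingCoeff (k := k), h.separable, ?_⟩
  have h1 := aeval_of_mem_rootsIn hx
  rwa [← map_map_locAt P, aeval_map_algebraMap] at h1

theorem mem_maximalIdeal_sq_iff {P : Ideal O} [P.IsMaximal] {x : O} :
    algebraMap O (locAt k P) x ∈ IsLocalRing.maximalIdeal (locAt k P) ^ 2 ↔ x ∈ P ^ 2 := by
  rw [← Ideal.Quotient.eq_zero_iff_mem, ← Ideal.Quotient.eq_zero_iff_mem]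
  have h1 : Ideal.Quotient.mk (IsLocalRing.maximalIdeal (locAt k P) ^ 2)
      (algebraMap O (locAt k P) x) =
      IsLocalization.AtPrime.equivQuotMaximalIdealPow P (locAt k P) 2
        (Ideal.Quotient.mk (P ^ 2) x) := by
    exact ((IsLocalization.AtPrime.equivQuotMaximalIdealPow P (locAt k P) 2).commutes x).symm
  rw [h1, EmbeddingLike.map_eq_zero_iff]

theorem isEisensteinAt_locAt {P : Ideal O} [P.IsMaximal] {p : O[X]} (h : p.IsEisensteinAt P) :
    (p.map (algebraMap O (locAt k P))).IsEisensteinAt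
      (IsLocalRing.maximalIdeal (locAt k P)) := by
  refine ⟨?_, fun {i} hi => ?_, ?_⟩
  · rw [leadingCoeff_map_of_injective (locAt_injective P),
      IsLocalization.AtPrime.to_map_mem_maximal_iff (locAt k P) P]
    exact h.leading
  · rw [natDegree_map_eq_of_injective (locAt_injective P)] at hi
    rw [coeff_map, IsLocalization.AtPrime.to_map_mem_maximal_iff (locAt k P) P]
    exact h.mem hi
  · rw [coeff_map, mem_maximalIdeal_sq_iff]
    exact h.notMem

theorem irreducible_locAt {P : Ideal O} [P.IsMaximal] {x : O} (h1 : x ∈ P) (h2 : x ∉ P ^ 2) :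
    Irreducible (algebraMap O (locAt k P) x) := by
  have hP : P ≠ ⊥ := by
    rintro rfl
    rw [Ideal.mem_bot] at h1
    exact h2 (h1 ▸ Ideal.zero_mem _)
  have := locAt_isDVR k hP
  obtain ⟨ϖ, hϖ⟩ := IsDiscreteValuationRing.exists_irreducible (locAt k P)
  have h3 := (IsLocalization.AtPrime.to_map_mem_maximal_iff (locAt k P) P x).2 h1
  rw [← mem_maximalIdeal_sq_iff (k := k)] at h2
  rw [hϖ.maximalIdeal_eq, Ideal.mem_span_singleton] at h3
  obtain ⟨s, hs⟩ := h3
  have hs' : IsUnit s := by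
    by_contra h4
    have h5 : s ∈ IsLocalRing.maximalIdeal (locAt k P) := (IsLocalRing.mem_maximalIdeal _).2 h4
    apply h2
    rw [hs, sq]
    exact Ideal.mul_mem_mul ((IsLocalRing.mem_maximalIdeal _).2 hϖ.not_isUnit) h5
  rw [hs, irreducible_mul_isUnit hs']
  exact hϖ

/-- Local conditions on `a` and `b` at four places: `a` is Eisenstein at `P₁`, the polynomials `b`
and `a - b` being separable modulo `P₁`; `b` is Eisenstein at `P₂`, the polynomial `a - b` being
separable modulo `P₂`; `a - b` is Eisenstein at `P₃`; all three are separable modulo `P₄` and the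
resultant of `a` and `b` is divisible by `P₄` exactly once. -/
structure FourPlaces (a b : O[X]) (n : ℕ) (P₁ P₂ P₃ P₄ : Ideal O) : Prop where
  deg_a : a.natDegree = n
  deg_b : b.natDegree = n
  deg_c : (a - b).natDegree = n
  eis_a : a.IsEisensteinAt P₁
  sep_b₁ : IsSeparableMod P₁ b
  sep_c₁ : IsSeparableMod P₁ (a - b)
  eis_b : b.IsEisensteinAt P₂
  sep_c₂ : IsSeparableMod P₂ (a - b)
  eis_c : (a - b).IsEisensteinAt P₃
  sep_a₄ : IsSeparableMod P₄ a
  sep_b₄ : IsSeparableMod P₄ b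
  sep_c₄ : IsSeparableMod P₄ (a - b)
  res_mem : a.resultant b ∈ P₄
  res_notMem : a.resultant b ∉ P₄ ^ 2

theorem irreducible_adjoin_of_isEisensteinAt {F : Type*} [Field F] [Algebra k F] [Algebra O F]
    [IsScalarTower O k F] {P : Ideal O} [P.IsMaximal] {p : O[X]} (hp : p.IsEisensteinAt P)
    (hdeg : 0 < p.natDegree) {S : Set F} (hfin : S.Finite)
    (hS : ∀ x ∈ S, IsUnramifiedElement (locAt k P) x) :
    Irreducible ((p.map (algebraMap O k)).map
      (algebraMap k (IntermediateField.adjoin k S))) := by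
  have hP : P ≠ ⊥ := by
    rintro rfl
    have h1 : p.coeff 0 ∈ (⊥ : Ideal O) := hp.mem hdeg
    rw [Ideal.mem_bot] at h1
    exact hp.notMem (h1 ▸ Ideal.zero_mem _)
  have := locAt_isDVR k hP
  rw [← map_map_locAt P p]
  apply irreducible_map_adjoin (R := locAt k P) _ hfin hS
  · rwa [natDegree_map_eq_of_injective (locAt_injective P)]
  · exact isEisensteinAt_locAt hp

variable {a b : O[X]} {n : ℕ} {P₁ P₂ P₃ P₄ : Ideal O} [P₁.IsMaximal] [P₂.IsMaximal]
  [P₃.IsMaximal] [P₄.IsMaximal]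

theorem isTransitiveOnPairs_of_isEisensteinAt {F : Type*} [Field F] [IsAlgClosed F] [Algebra k F]
    [Algebra.IsAlgebraic k F] [Algebra O F] [IsScalarTower O k F] {p q : O[X]}
    {P Q : Ideal O} [P.IsMaximal] [Q.IsMaximal] (hp : p.IsEisensteinAt P)
    (hpdeg : 0 < p.natDegree) (hqP : IsSeparableMod P q) (hq : q.IsEisensteinAt Q)
    (hqdeg : 0 < q.natDegree) :
    IsTransitiveOnPairs F (p.map (algebraMap O k)) (q.map (algebraMap O k)) :=
  isTransitiveOnPairs_of_irreducible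
    (irreducible_adjoin_of_isEisensteinAt (k := k) hp hpdeg
      (S := ↑(rootsIn F (q.map (algebraMap O k)))) (Finset.finite_toSet _)
      fun _ hx => hqP.isUnramifiedElement hx)
    (fun _ hy => IntermediateField.subset_adjoin _ _ hy)
    (irreducible_adjoin_of_isEisensteinAt (k := k) hq hqdeg (S := ∅) Set.finite_empty
      fun _ hx => absurd hx (Set.notMem_empty _))

omit [P₁.IsMaximal] [P₂.IsMaximal] [P₃.IsMaximal] in
theorem FourPlaces.isSimpleCollision (h : FourPlaces a b n P₁ P₂ P₃ P₄) :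
    IsSimpleCollision (a.map (algebraMap O (locAt k P₄))) (b.map (algebraMap O (locAt k P₄))) n := by
  refine ⟨?_, ?_, ?_, h.sep_a₄.isUnit_leadingCoeff, h.sep_b₄.isUnit_leadingCoeff, ?_,
    h.sep_a₄.separable, h.sep_b₄.separable, ?_, ?_⟩
  · rw [natDegree_map_eq_of_injective (locAt_injective P₄), h.deg_a]
  · rw [natDegree_map_eq_of_injective (locAt_injective P₄), h.deg_b]
  · rw [← Polynomial.map_sub, natDegree_map_eq_of_injective (locAt_injective P₄), h.deg_c]
  · rw [← Polynomial.map_sub]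
    exact h.sep_c₄.isUnit_leadingCoeff
  · rw [← Polynomial.map_sub]
    exact h.sep_c₄.separable
  · rw [natDegree_map_eq_of_injective (locAt_injective P₄),
      natDegree_map_eq_of_injective (locAt_injective P₄), resultant_map_map]
    exact irreducible_locAt h.res_mem h.res_notMem

omit [IsDedekindDomain O] [P₁.IsMaximal] [P₂.IsMaximal] [P₃.IsMaximal] in
theorem FourPlaces.ne_bot (h : FourPlaces a b n P₁ P₂ P₃ P₄) : P₄ ≠ ⊥ := by
  rintro rfl
  have h1 := h.res_mem
  rw [Ideal.mem_bot] at h1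
  exact h.res_notMem (h1 ▸ Ideal.zero_mem _)

theorem FourPlaces.no_eigentriple {F : Type*} [Field F] [IsAlgClosed F] [Algebra k F]
    [Algebra.IsAlgebraic k F] [Algebra O F] [IsScalarTower O k F]
    (h : FourPlaces a b n P₁ P₂ P₃ P₄) (hn : Odd n) (hn1 : n ≠ 1) {S T U : Finset F}
    (hE : IsEigentriple (a.map (algebraMap O k)) (b.map (algebraMap O k)) S T U) :
    S = ∅ ∧ T = ∅ ∧ U = ∅ := by
  have := locAt_isDVR k h.ne_bot
  have hn0 := hn.pos
  have h1 := h.isSimpleCollision (k := k)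
  have h3 := h1.no_eigentriple k hn hn1 (F := F)
  rw [map_map_locAt P₄, map_map_locAt P₄, ← Polynomial.map_sub] at h3
  exact h3
    (isTransitiveOnPairs_of_isEisensteinAt h.eis_a (h.deg_a ▸ hn0) h.sep_b₁ h.eis_b
      (h.deg_b ▸ hn0))
    (isTransitiveOnPairs_of_isEisensteinAt h.eis_a (h.deg_a ▸ hn0) h.sep_c₁ h.eis_c
      (h.deg_c ▸ hn0))
    (isTransitiveOnPairs_of_isEisensteinAt h.eis_b (h.deg_b ▸ hn0) h.sep_c₂ h.eis_c
      (h.deg_c ▸ hn0)) hE

omit [P₁.IsMaximal] [P₂.IsMaximal] [P₃.IsMaximal] in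
theorem FourPlaces.oddLevelTwo (h : FourPlaces a b n P₁ P₂ P₃ P₄) (h2 : (2 : k) ≠ 0)
    (hn : Odd n) : OddLevelTwo (a.map (algebraMap O k)) (b.map (algebraMap O k)) n := by
  have := locAt_isDVR k h.ne_bot
  have h1 := (h.isSimpleCollision (k := k)).oddLevelTwo k h2 hn
  rwa [map_map_locAt P₄, map_map_locAt P₄] at h1

end Places

section Trinomial

/-- The trinomial `u Xⁿ + α X + γ`. -/
noncomputable def tri {O : Type*} [CommRing O] (n : ℕ) (u α γ : O) : O[X] :=
  C u * X ^ n + C α * X + C γ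

variable {O : Type*} [CommRing O] {n : ℕ} {u α γ : O}

theorem tri_map {S : Type*} [CommRing S] (φ : O →+* S) :
    (tri n u α γ).map φ = tri n (φ u) (φ α) (φ γ) := by
  simp [tri]

theorem tri_sub {v β δ : O} : tri n u α γ - tri n v β δ = tri n (u - v) (α - β) (γ - δ) := by
  simp only [tri, C_sub]
  ring

theorem tri_coeff_zero (hn : 1 < n) : (tri n u α γ).coeff 0 = γ := by
  have : n ≠ 0 := by omega
  simp [tri, coeff_X_pow, this.symm]

theorem tri_coeff_one (hn : 1 < n) : (tri n u α γ).coeff 1 = α := by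
  have : (1 : ℕ) ≠ n := by omega
  simp [tri, coeff_X_pow, this]

theorem tri_coeff_of_ne {i : ℕ} (h0 : i ≠ 0) (h1 : i ≠ 1) (hn : i ≠ n) :
    (tri n u α γ).coeff i = 0 := by
  simp only [tri, coeff_add, coeff_C_mul, coeff_X_pow, coeff_X, coeff_C]
  rw [if_neg hn, if_neg (Ne.symm h1), if_neg h0]
  simp

theorem tri_coeff_self (hn : 1 < n) : (tri n u α γ).coeff n = u := by
  have h1 : (1 : ℕ) ≠ n := by omega
  have h0 : n ≠ 0 := by omega
  simp only [tri, coeff_add, coeff_C_mul, coeff_X_pow, coeff_X, coeff_C]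
  rw [if_neg h1, if_neg h0]
  simp

theorem tri_natDegree_le (hn : 1 < n) : (tri n u α γ).natDegree ≤ n := by
  rw [natDegree_le_iff_coeff_eq_zero]
  intro i hi
  exact tri_coeff_of_ne (by omega) (by omega) (by omega)

theorem tri_natDegree (hn : 1 < n) (hu : u ≠ 0) : (tri n u α γ).natDegree = n :=
  natDegree_eq_of_le_of_coeff_ne_zero (tri_natDegree_le hn) (by rwa [tri_coeff_self hn])

theorem tri_leadingCoeff (hn : 1 < n) (hu : u ≠ 0) : (tri n u α γ).leadingCoeff = u := by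
  rw [leadingCoeff, tri_natDegree hn hu, tri_coeff_self hn]

theorem tri_isEisensteinAt {P : Ideal O} (hn : 1 < n) (hu : u ∉ P) (hα : α ∈ P) (hγ : γ ∈ P)
    (hγ2 : γ ∉ P ^ 2) : (tri n u α γ).IsEisensteinAt P := by
  have hu0 : u ≠ 0 := fun h => hu (h ▸ P.zero_mem)
  refine ⟨by rwa [tri_leadingCoeff hn hu0], fun {i} hi => ?_, by rwa [tri_coeff_zero hn]⟩
  rw [tri_natDegree hn hu0] at hi
  rcases Nat.eq_zero_or_pos i with h | h
  · rwa [h, tri_coeff_zero hn]
  · by_cases h1 : i = 1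
    · rwa [h1, tri_coeff_one hn]
    · rw [tri_coeff_of_ne (by omega) h1 (by omega)]
      exact P.zero_mem

theorem tri_derivative : derivative (tri n u α γ) = C (u * n) * X ^ (n - 1) + C α := by
  simp only [tri, derivative_add, derivative_C_mul, derivative_X_pow, derivative_X,
    derivative_C, mul_one, add_zero, C_mul, mul_assoc]

/-- Separability of `u Xⁿ + γ`. -/
theorem tri_separable_zero {κ : Type*} [Field κ] {u γ : κ} (hn : 1 < n) (hnκ : (n : κ) ≠ 0)
    (hγ : γ ≠ 0) : (tri n u 0 γ).Separable := by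
  refine ⟨C γ⁻¹, -(C (γ * n)⁻¹ * X), ?_⟩
  rw [tri_derivative, tri]
  obtain ⟨m, rfl⟩ : ∃ m, n = m + 1 := ⟨n - 1, by omega⟩
  have h1 : (C γ⁻¹ : κ[X]) * C γ = 1 := by rw [← C_mul, inv_mul_cancel₀ hγ, C_1]
  have h2 : (C (γ * (m + 1 : ℕ))⁻¹ : κ[X]) * C (u * (m + 1 : ℕ)) = C γ⁻¹ * C u := by
    rw [← C_mul, ← C_mul]
    congr 1
    field_simp
  simp only [Nat.add_sub_cancel, C_0, zero_mul, add_zero]
  linear_combination h1 - X ^ (m + 1) * h2

/-- Separability of `u Xⁿ + α X`. -/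
theorem tri_separable_one {κ : Type*} [Field κ] {u α : κ} (hn : 1 < n)
    (hnκ : ((n - 1 : ℕ) : κ) ≠ 0) (hα : α ≠ 0) : (tri n u α 0).Separable := by
  obtain ⟨m, rfl⟩ : ∃ m, n = m + 1 := ⟨n - 1, by omega⟩
  obtain ⟨l, rfl⟩ : ∃ l, m = l + 1 := ⟨m - 1, by omega⟩
  have hfac : tri (l + 1 + 1) u α 0 = X * (C u * X ^ (l + 1) + C α) := by
    rw [tri, C_0]
    ring
  have hder := tri_derivative (n := l + 1 + 1) (u := u) (α := α) (γ := (0 : κ))
  rw [Separable, hder, hfac]
  simp only [Nat.add_sub_cancel]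
  apply IsCoprime.mul_left
  · refine ⟨-(C (α⁻¹ * (u * (l + 1 + 1 : ℕ))) * X ^ l), C α⁻¹, ?_⟩
    have h1 : (C α⁻¹ : κ[X]) * C α = 1 := by rw [← C_mul, inv_mul_cancel₀ hα, C_1]
    simp only [C_mul]
    linear_combination h1
  · have hl : ((l + 1 : ℕ) : κ) ≠ 0 := hnκ
    refine ⟨C ((α * (l + 1 : ℕ))⁻¹ * (l + 1 + 1 : ℕ)), -C (α * (l + 1 : ℕ))⁻¹, ?_⟩
    have h1 : (C (α * (l + 1 : ℕ))⁻¹ : κ[X]) * (C α * C ((l + 1 : ℕ) : κ)) = 1 := by
      rw [← C_mul, ← C_mul, inv_mul_cancel₀ (mul_ne_zero hα hl), C_1]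
    have h2 : (C ((l + 1 + 1 : ℕ) : κ) : κ[X]) = C ((l + 1 : ℕ) : κ) + 1 := by
      rw [← C_1, ← C_add]
      congr 1
      push_cast
      ring
    simp only [C_mul, h2]
    linear_combination h1

theorem tri_isSeparableMod_zero {P : Ideal O} [P.IsMaximal] (hn : 1 < n)
    (hnP : (n : O) ∉ P) (hu : u ∉ P) (hα : α ∈ P) (hγ : γ ∉ P) :
    IsSeparableMod P (tri n u α γ) := by
  have hu0 : u ≠ 0 := fun h => hu (h ▸ P.zero_mem)
  refine ⟨by rwa [tri_leadingCoeff hn hu0], ?_⟩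
  let : Field (O ⧸ P) := Ideal.Quotient.field P
  rw [tri_map, Ideal.Quotient.eq_zero_iff_mem.2 hα]
  apply tri_separable_zero hn
  · rwa [← map_natCast (Ideal.Quotient.mk P), Ne, Ideal.Quotient.eq_zero_iff_mem]
  · rwa [Ne, Ideal.Quotient.eq_zero_iff_mem]

theorem tri_isSeparableMod_one {P : Ideal O} [P.IsMaximal] (hn : 1 < n)
    (hnP : ((n - 1 : ℕ) : O) ∉ P) (hu : u ∉ P) (hα : α ∉ P) (hγ : γ ∈ P) :
    IsSeparableMod P (tri n u α γ) := by
  have hu0 : u ≠ 0 := fun h => hu (h ▸ P.zero_mem)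
  refine ⟨by rwa [tri_leadingCoeff hn hu0], ?_⟩
  let : Field (O ⧸ P) := Ideal.Quotient.field P
  rw [tri_map, Ideal.Quotient.eq_zero_iff_mem.2 hγ]
  apply tri_separable_one hn
  · rwa [← map_natCast (Ideal.Quotient.mk P), Ne, Ideal.Quotient.eq_zero_iff_mem]
  · rwa [Ne, Ideal.Quotient.eq_zero_iff_mem]

theorem eval_tri {x : O} : (tri n u α γ).eval x = u * x ^ n + α * x + γ := by
  simp [tri]

/-- The resultant of two trinomials over a field. -/
theorem tri_resultant_field {κ : Type*} [Field κ] {v α β γ δ : κ} (hn : 1 < n)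
    (hl : β - v * α ≠ 0) :
    (tri n 1 α γ).resultant (tri n v β δ) n n = (-1) ^ n * ((-(δ - v * γ)) ^ n +
      (β - v * α) ^ (n - 1) * (γ * β - α * δ)) := by
  have hd : (tri n (1 : κ) α γ).natDegree = n := tri_natDegree hn one_ne_zero
  obtain ⟨m, rfl⟩ : ∃ m, n = m + 1 := ⟨n - 1, by omega⟩
  have h1 := resultant_add_mul_right (tri (m + 1) (1 : κ) α γ) (tri (m + 1) v β δ) (C (-v)) (m + 1)
    (m + 1) (by rw [natDegree_C, zero_add]) hd.le
  have h2 : tri (m + 1) v β δ + tri (m + 1) 1 α γ * C (-v) =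
      C (β - v * α) * (X + C ((δ - v * γ) / (β - v * α))) := by
    rw [mul_add, ← C_mul, mul_div_cancel₀ _ hl]
    simp only [tri, C_neg, C_sub, C_mul, C_1]
    ring
  have h3 : (C (β - v * α) * (X + C ((δ - v * γ) / (β - v * α)))).natDegree ≤ 1 := by
    rw [natDegree_C_mul hl]
    exact (natDegree_X_add_C _).le
  rw [← h1, h2, show (m + 1 : ℕ) = 1 + m from add_comm _ _,
    resultant_add_right_deg _ _ _ _ _ h3, resultant_C_mul_right,
    resultant_X_add_C_right _ _ _ (by rw [add_comm 1 m]; exact hd.le), eval_tri, add_comm 1 m,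
    tri_coeff_self hn, one_pow, one_mul]
  simp only [Nat.add_sub_cancel]
  have h4 : (β - v * α) ^ (m + 1) * (1 * (-((δ - v * γ) / (β - v * α))) ^ (m + 1) +
      α * -((δ - v * γ) / (β - v * α)) + γ) = (-(δ - v * γ)) ^ (m + 1) +
      (β - v * α) ^ m * (γ * β - α * δ) := by
    have h5 : (β - v * α) ^ (m + 1) * (-((δ - v * γ) / (β - v * α))) ^ (m + 1) =
        (-(δ - v * γ)) ^ (m + 1) := by
      rw [← mul_pow]
      congr 1
      field_simp
    have h6 : (β - v * α) ^ (m + 1) * (α * -((δ - v * γ) / (β - v * α))) =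
        (β - v * α) ^ m * (-(α * (δ - v * γ))) := by
      rw [pow_succ]
      field_simp
    have h7 : (β - v * α) ^ (m + 1) = (β - v * α) ^ m * (β - v * α) := pow_succ _ _
    linear_combination h5 + h6 + γ * h7
  linear_combination (-1) ^ (m + 1) * h4

/-- The resultant of two trinomials. -/
theorem tri_resultant [IsDomain O] {v α β γ δ : O} (hn : 1 < n) (hl : β - v * α ≠ 0)
    (hv : v ≠ 0) :
    (tri n 1 α γ).resultant (tri n v β δ) = (-1) ^ n * ((-(δ - v * γ)) ^ n +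
      (β - v * α) ^ (n - 1) * (γ * β - α * δ)) := by
  have hinj := IsFractionRing.injective O (FractionRing O)
  apply hinj
  rw [tri_natDegree hn one_ne_zero, tri_natDegree hn hv, ← resultant_map_map, tri_map, tri_map,
    map_one, tri_resultant_field hn]
  · simp
  · rw [← map_mul, ← map_sub]
    exact fun h => hl (hinj (h.trans (map_zero _).symm))

variable [IsDedekindDomain O]

/-- Conditions on the coefficients of the trinomials `Xⁿ + α X + γ` and `v Xⁿ + β X + δ`. -/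
structure TriConditions (n : ℕ) (v α β γ δ : O) (P₁ P₂ P₃ P₄ : Ideal O) : Prop where
  n₁ : (n : O) ∉ P₁
  v₁ : v ∉ P₁
  w₁ : 1 - v ∉ P₁
  α₁ : α ∈ P₁
  β₁ : β ∈ P₁
  γ₁ : γ ∈ P₁
  γ₁' : γ ∉ P₁ ^ 2
  δ₁ : δ ∉ P₁
  n₂ : (n : O) ∉ P₂
  v₂ : v ∉ P₂
  w₂ : 1 - v ∉ P₂
  α₂ : α ∈ P₂
  β₂ : β ∈ P₂
  δ₂ : δ ∈ P₂
  δ₂' : δ ∉ P₂ ^ 2
  γ₂ : γ ∉ P₂
  w₃ : 1 - v ∉ P₃
  αβ₃ : α - β ∈ P₃
  γδ₃ : γ - δ ∈ P₃
  γδ₃' : γ - δ ∉ P₃ ^ 2
  n₄ : ((n - 1 : ℕ) : O) ∉ P₄
  v₄ : v ∉ P₄
  w₄ : 1 - v ∉ P₄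
  α₄ : α ∉ P₄
  β₄ : β ∉ P₄
  αβ₄ : α - β ∉ P₄
  l₄ : β - v * α ∉ P₄
  γ₄ : γ ∈ P₄
  δ₄ : δ ∈ P₄
  r₄ : γ * β - α * δ ∉ P₄ ^ 2

theorem TriConditions.fourPlaces {v α β γ δ : O} {P₁ P₂ P₃ P₄ : Ideal O} [P₁.IsMaximal]
    [P₂.IsMaximal] [P₃.IsMaximal] [P₄.IsMaximal] (hn : 1 < n)
    (h : TriConditions n v α β γ δ P₁ P₂ P₃ P₄) :
    FourPlaces (tri n 1 α γ) (tri n v β δ) n P₁ P₂ P₃ P₄ := by
  have hv0 : v ≠ 0 := fun h0 => h.v₁ (h0 ▸ P₁.zero_mem)
  have hw0 : 1 - v ≠ 0 := fun h0 => h.w₁ (h0 ▸ P₁.zero_mem)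
  have hl0 : β - v * α ≠ 0 := fun h0 => h.l₄ (h0 ▸ P₄.zero_mem)
  have h11 : (1 : O) ∉ P₁ := (Ideal.ne_top_iff_one _).1 Ideal.IsPrime.ne_top'
  have h14 : (1 : O) ∉ P₄ := (Ideal.ne_top_iff_one _).1 Ideal.IsPrime.ne_top'
  have hγδ₁ : γ - δ ∉ P₁ := fun h0 => h.δ₁ (by simpa using P₁.sub_mem h.γ₁ h0)
  have hγδ₂ : γ - δ ∉ P₂ := fun h0 => h.γ₂ (by simpa using P₂.add_mem h0 h.δ₂)
  refine ⟨tri_natDegree hn one_ne_zero, tri_natDegree hn hv0, ?_,
    tri_isEisensteinAt hn h11 h.α₁ h.γ₁ h.γ₁', tri_isSeparableMod_zero hn h.n₁ h.v₁ h.β₁ h.δ₁, ?_,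
    tri_isEisensteinAt hn h.v₂ h.β₂ h.δ₂ h.δ₂', ?_, ?_,
    tri_isSeparableMod_one hn h.n₄ h14 h.α₄ h.γ₄, tri_isSeparableMod_one hn h.n₄ h.v₄ h.β₄ h.δ₄,
    ?_, ?_, ?_⟩
  · rw [tri_sub, tri_natDegree hn hw0]
  · rw [tri_sub]
    exact tri_isSeparableMod_zero hn h.n₁ h.w₁ (P₁.sub_mem h.α₁ h.β₁) hγδ₁
  · rw [tri_sub]
    exact tri_isSeparableMod_zero hn h.n₂ h.w₂ (P₂.sub_mem h.α₂ h.β₂) hγδ₂
  · rw [tri_sub]
    exact tri_isEisensteinAt hn h.w₃ h.αβ₃ h.γδ₃ h.γδ₃'
  · rw [tri_sub]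
    exact tri_isSeparableMod_one hn h.n₄ h.w₄ h.αβ₄ (P₄.sub_mem h.γ₄ h.δ₄)
  · rw [tri_resultant hn hl0 hv0]
    apply Ideal.mul_mem_left
    apply Ideal.add_mem
    · exact Ideal.pow_mem_of_mem _ (P₄.neg_mem (P₄.sub_mem h.δ₄ (P₄.mul_mem_left _ h.γ₄))) _
        (by omega)
    · exact Ideal.mul_mem_left _ _ (P₄.sub_mem (P₄.mul_mem_right _ h.γ₄)
        (P₄.mul_mem_left _ h.δ₄))
  · rw [tri_resultant hn hl0 hv0]
    intro h0
    have h1 : (-(δ - v * γ)) ^ n ∈ P₄ ^ 2 := by
      obtain ⟨m, rfl⟩ : ∃ m, n = 2 + m := ⟨n - 2, by omega⟩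
      rw [pow_add]
      exact Ideal.mul_mem_right _ _ (Ideal.pow_mem_pow
        (P₄.neg_mem (P₄.sub_mem h.δ₄ (P₄.mul_mem_left _ h.γ₄))) 2)
    have h2 : (-(δ - v * γ)) ^ n + (β - v * α) ^ (n - 1) * (γ * β - α * δ) ∈ P₄ ^ 2 := by
      have h3 := Ideal.mul_mem_left (P₄ ^ 2) ((-1) ^ n) h0
      rwa [← mul_assoc, ← mul_pow, neg_one_mul, neg_neg, one_pow, one_mul] at h3
    have h4 : (β - v * α) ^ (n - 1) * (γ * β - α * δ) ∈ P₄ ^ 2 := by
      have := Ideal.sub_mem _ h2 h1
      rwa [add_sub_cancel_left] at this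
    rcases Ideal.IsPrime.mul_mem_pow P₄ h4 with h5 | h5
    · exact h.l₄ (Ideal.IsPrime.mem_of_pow_mem inferInstance _ h5)
    · exact h.r₄ h5

end Trinomial

section Congruence

variable {O : Type*} [CommRing O]

theorem mem_iff_of_sub_mem {I : Ideal O} {x x₀ : O} (h : x - x₀ ∈ I) : x ∈ I ↔ x₀ ∈ I :=
  ⟨fun hx => by simpa using I.sub_mem hx h, fun hx => by simpa using I.add_mem h hx⟩

/-- The conditions on the trinomials depend only on the coefficients modulo the squares of the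
four primes. -/
theorem TriConditions.congr {n : ℕ} {v α β γ δ α' β' γ' δ' : O} {P₁ P₂ P₃ P₄ : Ideal O}
    (h : TriConditions n v α β γ δ P₁ P₂ P₃ P₄)
    (hα : ∀ P ∈ ({P₁, P₂, P₃, P₄} : Set (Ideal O)), α' - α ∈ P ^ 2)
    (hβ : ∀ P ∈ ({P₁, P₂, P₃, P₄} : Set (Ideal O)), β' - β ∈ P ^ 2)
    (hγ : ∀ P ∈ ({P₁, P₂, P₃, P₄} : Set (Ideal O)), γ' - γ ∈ P ^ 2)
    (hδ : ∀ P ∈ ({P₁, P₂, P₃, P₄} : Set (Ideal O)), δ' - δ ∈ P ^ 2) :
    TriConditions n v α' β' γ' δ' P₁ P₂ P₃ P₄ := by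
  have hle : ∀ P : Ideal O, P ^ 2 ≤ P := fun P => Ideal.pow_le_self two_ne_zero
  have m1 : P₁ ∈ ({P₁, P₂, P₃, P₄} : Set (Ideal O)) := by simp
  have m2 : P₂ ∈ ({P₁, P₂, P₃, P₄} : Set (Ideal O)) := by simp
  have m3 : P₃ ∈ ({P₁, P₂, P₃, P₄} : Set (Ideal O)) := by simp
  have m4 : P₄ ∈ ({P₁, P₂, P₃, P₄} : Set (Ideal O)) := by simp
  have hγδ : ∀ P ∈ ({P₁, P₂, P₃, P₄} : Set (Ideal O)), (γ' - δ') - (γ - δ) ∈ P ^ 2 := by
    intro P hP
    have : (γ' - δ') - (γ - δ) = (γ' - γ) - (δ' - δ) := by ring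
    rw [this]
    exact (P ^ 2).sub_mem (hγ P hP) (hδ P hP)
  have hαβ : ∀ P ∈ ({P₁, P₂, P₃, P₄} : Set (Ideal O)), (α' - β') - (α - β) ∈ P ^ 2 := by
    intro P hP
    have : (α' - β') - (α - β) = (α' - α) - (β' - β) := by ring
    rw [this]
    exact (P ^ 2).sub_mem (hα P hP) (hβ P hP)
  have hl : (β' - v * α') - (β - v * α) ∈ P₄ ^ 2 := by
    have : (β' - v * α') - (β - v * α) = (β' - β) - v * (α' - α) := by ring
    rw [this]
    exact (P₄ ^ 2).sub_mem (hβ _ m4) (Ideal.mul_mem_left _ _ (hα _ m4))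
  have hr : (γ' * β' - α' * δ') - (γ * β - α * δ) ∈ P₄ ^ 2 := by
    have : (γ' * β' - α' * δ') - (γ * β - α * δ) =
        β' * (γ' - γ) + γ * (β' - β) - (δ' * (α' - α) + α * (δ' - δ)) := by ring
    rw [this]
    exact (P₄ ^ 2).sub_mem ((P₄ ^ 2).add_mem (Ideal.mul_mem_left _ _ (hγ _ m4))
      (Ideal.mul_mem_left _ _ (hβ _ m4))) ((P₄ ^ 2).add_mem (Ideal.mul_mem_left _ _ (hα _ m4))
      (Ideal.mul_mem_left _ _ (hδ _ m4)))
  refine ⟨h.n₁, h.v₁, h.w₁, ?_, ?_, ?_, ?_, ?_, h.n₂, h.v₂, h.w₂, ?_, ?_, ?_, ?_, ?_, h.w₃,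
    ?_, ?_, ?_, h.n₄, h.v₄, h.w₄, ?_, ?_, ?_, ?_, ?_, ?_, ?_⟩
  · exact (mem_iff_of_sub_mem (hle _ (hα _ m1))).2 h.α₁
  · exact (mem_iff_of_sub_mem (hle _ (hβ _ m1))).2 h.β₁
  · exact (mem_iff_of_sub_mem (hle _ (hγ _ m1))).2 h.γ₁
  · exact fun h0 => h.γ₁' ((mem_iff_of_sub_mem (hγ _ m1)).1 h0)
  · exact fun h0 => h.δ₁ ((mem_iff_of_sub_mem (hle _ (hδ _ m1))).1 h0)
  · exact (mem_iff_of_sub_mem (hle _ (hα _ m2))).2 h.α₂
  · exact (mem_iff_of_sub_mem (hle _ (hβ _ m2))).2 h.β₂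
  · exact (mem_iff_of_sub_mem (hle _ (hδ _ m2))).2 h.δ₂
  · exact fun h0 => h.δ₂' ((mem_iff_of_sub_mem (hδ _ m2)).1 h0)
  · exact fun h0 => h.γ₂ ((mem_iff_of_sub_mem (hle _ (hγ _ m2))).1 h0)
  · exact (mem_iff_of_sub_mem (hle _ (hαβ _ m3))).2 h.αβ₃
  · exact (mem_iff_of_sub_mem (hle _ (hγδ _ m3))).2 h.γδ₃
  · exact fun h0 => h.γδ₃' ((mem_iff_of_sub_mem (hγδ _ m3)).1 h0)
  · exact fun h0 => h.α₄ ((mem_iff_of_sub_mem (hle _ (hα _ m4))).1 h0)
  · exact fun h0 => h.β₄ ((mem_iff_of_sub_mem (hle _ (hβ _ m4))).1 h0)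
  · exact fun h0 => h.αβ₄ ((mem_iff_of_sub_mem (hle _ (hαβ _ m4))).1 h0)
  · exact fun h0 => h.l₄ ((mem_iff_of_sub_mem (hle _ hl)).1 h0)
  · exact (mem_iff_of_sub_mem (hle _ (hγ _ m4))).2 h.γ₄
  · exact (mem_iff_of_sub_mem (hle _ (hδ _ m4))).2 h.δ₄
  · exact fun h0 => h.r₄ ((mem_iff_of_sub_mem hr).1 h0)

end Congruence

section Integers

theorem mem_span_int {p : ℤ} {x : ℤ} : x ∈ Ideal.span {p} ↔ p ∣ x := Ideal.mem_span_singleton

theorem mem_span_int_sq {p : ℤ} {x : ℤ} : x ∈ Ideal.span {p} ^ 2 ↔ p ^ 2 ∣ x := by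
  rw [Ideal.span_singleton_pow, Ideal.mem_span_singleton]

theorem isMaximal_span {p : ℕ} (hp : p.Prime) : (Ideal.span {(p : ℤ)}).IsMaximal :=
  PrincipalIdealRing.isMaximal_of_irreducible (Nat.prime_iff_prime_int.1 hp).irreducible

/-- The explicit trinomials `Xⁿ + 385 X - 130` and `-Xⁿ + 770 X - 273`. -/
theorem triConditions_explicit {n : ℕ} (h5 : ¬ 5 ∣ n) (h7 : ¬ 7 ∣ n) (h13 : ¬ 13 ∣ n - 1) :
    TriConditions n (-1 : ℤ) 385 770 (-130) (-273) (Ideal.span {((5 : ℕ) : ℤ)})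
      (Ideal.span {((7 : ℕ) : ℤ)}) (Ideal.span {((11 : ℕ) : ℤ)}) (Ideal.span {((13 : ℕ) : ℤ)}) := by
  constructor <;>
  simp only [mem_span_int, mem_span_int_sq, Int.natCast_dvd_natCast] <;>
  first
  | assumption
  | decide

/-- There are such trinomials in every degree, satisfying congruence conditions. -/
theorem exists_triConditions {n : ℕ} (hn : 1 < n) :
    ∃ p₁ p₂ p₃ p₄ : ℕ, p₁.Prime ∧ p₂.Prime ∧ p₃.Prime ∧ p₄.Prime ∧
      ∃ M : ℤ, M ≠ 0 ∧ ∃ α₀ β₀ γ₀ δ₀ : ℤ, ∀ α β γ δ : ℤ,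
      α ≡ α₀ [ZMOD M] → β ≡ β₀ [ZMOD M] → γ ≡ γ₀ [ZMOD M] → δ ≡ δ₀ [ZMOD M] →
      TriConditions n (-1 : ℤ) α β γ δ (Ideal.span {(p₁ : ℤ)}) (Ideal.span {(p₂ : ℤ)})
        (Ideal.span {(p₃ : ℤ)}) (Ideal.span {(p₄ : ℤ)}) := by
  obtain ⟨p, hpn, hp⟩ := Nat.exists_infinite_primes (n + 3)
  obtain ⟨q, hqn, hq⟩ := Nat.exists_infinite_primes (p + 1)
  obtain ⟨r, hrn, hr⟩ := Nat.exists_infinite_primes (q + 1)
  obtain ⟨s, hsn, hs⟩ := Nat.exists_infinite_primes (r + 1)
  have hp' := Nat.prime_iff_prime_int.1 hp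
  have hq' := Nat.prime_iff_prime_int.1 hq
  have hr' := Nat.prime_iff_prime_int.1 hr
  have hs' := Nat.prime_iff_prime_int.1 hs
  -- non-divisibilities
  have small : ∀ {l : ℕ}, n + 3 ≤ l → ∀ {m : ℕ}, 0 < m → m < n + 3 → ¬ (l : ℤ) ∣ (m : ℤ) := by
    intro l hl m hm0 hm h
    rw [Int.natCast_dvd_natCast] at h
    have := Nat.le_of_dvd hm0 h
    omega
  have ndvd : ∀ {l m : ℕ}, l.Prime → m.Prime → l ≠ m → ¬ (l : ℤ) ∣ (m : ℤ) := by
    intro l m hl hm hlm h
    rw [Int.natCast_dvd_natCast] at h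
    exact hlm ((Nat.prime_dvd_prime_iff_eq hl hm).1 h)
  have hpq := ndvd hp hq (by omega)
  have hpr := ndvd hp hr (by omega)
  have hps := ndvd hp hs (by omega)
  have hqp := ndvd hq hp (by omega)
  have hqr := ndvd hq hr (by omega)
  have hqs := ndvd hq hs (by omega)
  have hrp := ndvd hr hp (by omega)
  have hrq := ndvd hr hq (by omega)
  have hrs := ndvd hr hs (by omega)
  have hsp := ndvd hs hp (by omega)
  have hsq := ndvd hs hq (by omega)
  have hsr := ndvd hs hr (by omega)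
  -- the Chinese remainder theorem
  obtain ⟨z, hz1, hz2, hz3⟩ : ∃ z : ℤ, ¬ (p : ℤ) ∣ z ∧ ¬ (q : ℤ) ∣ z ∧
      (r : ℤ) ^ 2 ∣ (q : ℤ) * s * z - (p - r) := by
    have hc1 : IsCoprime ((p : ℤ) * q) ((r : ℤ) ^ 2) := by
      apply IsCoprime.pow_right
      apply IsCoprime.mul_left
      · exact (hp'.coprime_iff_not_dvd).2 hpr
      · exact (hq'.coprime_iff_not_dvd).2 hqr
    have hc2 : IsCoprime ((q : ℤ) * s) ((r : ℤ) ^ 2) := by
      apply IsCoprime.pow_right
      apply IsCoprime.mul_left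
      · exact (hq'.coprime_iff_not_dvd).2 hqr
      · exact (hs'.coprime_iff_not_dvd).2 hsr
    obtain ⟨u, v, huv⟩ := hc1
    obtain ⟨x, y, hxy⟩ := hc2
    refine ⟨v * r ^ 2 + x * (p - r) * (u * (p * q)), fun h => ?_, fun h => ?_, ?_⟩
    · apply hp'.not_dvd_one
      have h1 : (p : ℤ) ∣ v * r ^ 2 := by
        have : v * (r : ℤ) ^ 2 = (v * r ^ 2 + x * (p - r) * (u * (p * q))) -
          p * (x * (p - r) * (u * q)) := by ring
        rw [this]
        exact dvd_sub h (dvd_mul_right _ _)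
      rw [← huv]
      exact dvd_add (Dvd.intro (u * q) (by ring)) h1
    · apply hq'.not_dvd_one
      have h1 : (q : ℤ) ∣ v * r ^ 2 := by
        have : v * (r : ℤ) ^ 2 = (v * r ^ 2 + x * (p - r) * (u * (p * q))) -
          q * (x * (p - r) * (u * p)) := by ring
        rw [this]
        exact dvd_sub h (dvd_mul_right _ _)
      rw [← huv]
      exact dvd_add (Dvd.intro (u * p) (by ring)) h1
    · have : (q : ℤ) * s * (v * r ^ 2 + x * (p - r) * (u * (p * q))) - (p - r) =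
          r ^ 2 * (q * s * v - v * (x * (q * s) * (p - r)) - y * (p - r)) := by
        linear_combination ((p : ℤ) - r) * x * (q * s) * huv + ((p : ℤ) - r) * hxy
      rw [this]
      exact dvd_mul_right _ _
  have hp0 : (p : ℤ) ≠ 0 := hp'.ne_zero
  have hq0 : (q : ℤ) ≠ 0 := hq'.ne_zero
  have hr0 : (r : ℤ) ≠ 0 := hr'.ne_zero
  have hs0 : (s : ℤ) ≠ 0 := hs'.ne_zero
  have h2 : ∀ {l : ℕ}, n + 3 ≤ l → ¬ (l : ℤ) ∣ 2 := fun hl => by
    exact_mod_cast small hl (m := 2) (by omega) (by omega)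
  have h3 : ∀ {l : ℕ}, n + 3 ≤ l → ¬ (l : ℤ) ∣ 3 := fun hl => by
    exact_mod_cast small hl (m := 3) (by omega) (by omega)
  have hu : ∀ {l : ℕ}, l.Prime → ¬ (l : ℤ) ∣ -1 := fun hl h =>
    (Nat.prime_iff_prime_int.1 hl).not_dvd_one ((dvd_neg).1 h)
  have sq_dvd : ∀ {l : ℕ}, (l : ℤ) ≠ 0 → ∀ {m : ℤ}, (l : ℤ) ^ 2 ∣ l * m → (l : ℤ) ∣ m := by
    intro l hl m h
    rw [sq] at h
    exact (mul_dvd_mul_iff_left hl).1 h
  obtain ⟨t, ht⟩ := hz3
  have base : TriConditions n (-1 : ℤ) (p * q * r) (2 * (p * q * r)) (p * s) (q * s * (s * z))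
      (Ideal.span {(p : ℤ)}) (Ideal.span {(q : ℤ)}) (Ideal.span {(r : ℤ)})
      (Ideal.span {(s : ℤ)}) := by
    constructor <;> simp only [mem_span_int, mem_span_int_sq]
    · exact small hpn (by omega) (by omega)
    · exact hu hp
    · norm_num
      exact h2 hpn
    · exact ⟨q * r, by ring⟩
    · exact ⟨2 * (q * r), by ring⟩
    · exact ⟨s, by ring⟩
    · intro h
      exact hps (sq_dvd hp0 h)
    · simp only [hp'.dvd_mul]
      tauto
    · exact small (by omega) (by omega) (by omega)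
    · exact hu hq
    · norm_num
      exact h2 (by omega)
    · exact ⟨p * r, by ring⟩
    · exact ⟨2 * (p * r), by ring⟩
    · exact ⟨s * (s * z), by ring⟩
    · intro h
      have h1 : (q : ℤ) ^ 2 ∣ q * (s * (s * z)) := by
        rwa [← mul_assoc]
      have := sq_dvd hq0 h1
      simp only [hq'.dvd_mul] at this
      tauto
    · simp only [hq'.dvd_mul]
      tauto
    · norm_num
      exact h2 (by omega)
    · exact ⟨-(p * q), by ring⟩
    · exact ⟨s * (1 - r * t), by linear_combination (-(s : ℤ)) * ht⟩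
    · intro h
      have h1 : (r : ℤ) ^ 2 ∣ r * (s * (1 - r * t)) := by
        have : (p : ℤ) * s - q * s * (s * z) = r * (s * (1 - r * t)) := by
          linear_combination (-(s : ℤ)) * ht
        rwa [this] at h
      have h4 := sq_dvd hr0 h1
      rw [hr'.dvd_mul] at h4
      rcases h4 with h4 | h4
      · exact hrs h4
      · apply hr'.not_dvd_one
        have : (1 : ℤ) = (1 - r * t) + r * t := by ring
        rw [this]
        exact dvd_add h4 (dvd_mul_right _ _)
    · exact small (by omega) (by omega) (by omega)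
    · exact hu hs
    · norm_num
      exact h2 (by omega)
    · simp only [hs'.dvd_mul]
      tauto
    · have := h2 (l := s) (by omega)
      simp only [hs'.dvd_mul]
      tauto
    · have : (p : ℤ) * q * r - 2 * (p * q * r) = -1 * (p * q * r) := by ring
      rw [this]
      have := hu hs
      simp only [hs'.dvd_mul]
      tauto
    · have : 2 * ((p : ℤ) * q * r) - -1 * (p * q * r) = 3 * (p * q * r) := by ring
      rw [this]
      have := h3 (l := s) (by omega)
      simp only [hs'.dvd_mul]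
      tauto
    · exact ⟨p, by ring⟩
    · exact ⟨q * (s * z), by ring⟩
    · intro h
      have h1 : (s : ℤ) ^ 2 ∣ s * (p * q * r * (2 * p - s * (q * z))) := by
        have : (p : ℤ) * s * (2 * (p * q * r)) - p * q * r * (q * s * (s * z)) =
            s * (p * q * r * (2 * p - s * (q * z))) := by ring
        rwa [this] at h
      have h4 := sq_dvd hs0 h1
      rw [hs'.dvd_mul] at h4
      rcases h4 with h4 | h4
      · simp only [hs'.dvd_mul] at h4
        tauto
      · have h5 : (s : ℤ) ∣ 2 * p := by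
          have : 2 * (p : ℤ) = (2 * p - s * (q * z)) + s * (q * z) := by ring
          rw [this]
          exact dvd_add h4 (dvd_mul_right _ _)
        have := h2 (l := s) (by omega)
        rw [hs'.dvd_mul] at h5
        tauto
  refine ⟨p, q, r, s, hp, hq, hr, hs, (p * q * r * s) ^ 2, by positivity, p * q * r,
    2 * (p * q * r), p * s, q * s * (s * z), fun α β γ δ hα hβ hγ hδ => ?_⟩
  have key : ∀ {x x₀ : ℤ}, x ≡ x₀ [ZMOD (p * q * r * s) ^ 2] →
      ∀ P ∈ ({Ideal.span {(p : ℤ)}, Ideal.span {(q : ℤ)}, Ideal.span {(r : ℤ)},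
        Ideal.span {(s : ℤ)}} : Set (Ideal ℤ)), x - x₀ ∈ P ^ 2 := by
    intro x x₀ h P hP
    have h1 : ((p : ℤ) * q * r * s) ^ 2 ∣ x - x₀ := h.symm.dvd
    simp only [Set.mem_insert_iff, Set.mem_singleton_iff] at hP
    rcases hP with rfl | rfl | rfl | rfl <;> rw [mem_span_int_sq] <;>
      refine (pow_dvd_pow_of_dvd ?_ 2).trans h1
    · exact ⟨q * r * s, by ring⟩
    · exact ⟨p * r * s, by ring⟩
    · exact ⟨p * q * s, by ring⟩
    · exact ⟨p * q * r, by ring⟩
  exact base.congr (key hα) (key hβ) (key hγ) (key hδ)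

end Integers

end Pool.Agent.Lib.MP_89bcae_ag
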