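import Mathlib
import Pool.Agent.Lib.MP_89bcae_ag.TypC14
import Pool.Agent.Lib.MP_89bcae_ag.DensZ7

/-!
# Almost all integral polynomials are of type A modulo some prime, and of type B modulo some prime
-/

open Polynomial Filter Topology

namespace Pool.Agent.Lib.MP_89bcae_ag

set_option linter.unusedSectionVars false
set_option linter.style.haveILetI false

/-- The polynomial with given integral coefficients. -/
noncomputable def polyZ14 {n : ℕ} (a : Fin (n + 1) → ℤ) : ℤ[X] := ∑ i : Fin (n + 1), C (a i) * X ^ (i : ℕ)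

lemma coeff_polyZ14 {n : ℕ} (a : Fin (n + 1) → ℤ) (i : Fin (n + 1)) :
    (polyZ14 a).coeff i = a i := by
  rw [polyZ14, finsetSum_coeff, Finset.sum_eq_single i]
  · rw [coeff_C_mul, coeff_X_pow, if_pos rfl, mul_one]
  · intro j _ hj
    rw [coeff_C_mul, coeff_X_pow, if_neg (fun h => hj (Fin.ext h.symm)), mul_zero]
  · intro h
    exact absurd (Finset.mem_univ _) h

lemma natDegree_polyZ14 {n : ℕ} (a : Fin (n + 1) → ℤ) : (polyZ14 a).natDegree ≤ n := by
  apply natDegree_sum_le_of_forall_le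
  intro i _
  exact (natDegree_C_mul_X_pow_le _ _).trans (by omega)

section Count

variable {p n : ℕ} [Fact p.Prime]

/-- An integral polynomial of degree at most `n` whose reduction is `f` of degree `n`. -/
lemma map_eq_of_coeffs14 {f : (ZMod p)[X]} (hf : f.natDegree = n) {D : ℤ[X]}
    (hD : D.natDegree ≤ n) (h : ∀ i : Fin (n + 1), (D.coeff i : ZMod p) = coeffs14 n f i)
    (hf0 : f ≠ 0) :
    D.map (Int.castRingHom (ZMod p)) = f ∧ D.natDegree = n ∧ (D.leadingCoeff : ZMod p) ≠ 0 := by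
  have h1 : D.map (Int.castRingHom (ZMod p)) = f := by
    ext i
    rw [coeff_map]
    by_cases hi : i < n + 1
    · exact h ⟨i, hi⟩
    · rw [coeff_eq_zero_of_natDegree_lt (by omega), coeff_eq_zero_of_natDegree_lt (by omega),
        map_zero]
  have h2 : D.natDegree = n := by
    apply le_antisymm hD
    rw [← hf, ← h1]
    exact natDegree_map_le
  refine ⟨h1, h2, ?_⟩
  rw [leadingCoeff, h2]
  have h3 : (D.coeff n : ZMod p) = f.coeff n := by
    rw [← h1, coeff_map]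
    rfl
  rw [h3, ← hf]
  exact leadingCoeff_ne_zero.mpr hf0

/-- **The number of the residue classes of type A.** -/
theorem count_typeA14 (hn : 2 ≤ n) (h1 : p % 3 = 1) (h19 : 19 ≤ p) {g : ℤ[X]} (hg : g.Monic)
    (hdeg : g.natDegree = 3) :
    (1 / (72 * n) : ℝ) * (p : ℝ) ^ (n + 1) ≤ ({v : Fin (n + 1) → ZMod p | ∀ D : ℤ[X],
      D.natDegree ≤ n → (∀ i : Fin (n + 1), (D.coeff i : ZMod p) = v i) →
        D.natDegree = n ∧ (D.leadingCoeff : ZMod p) ≠ 0 ∧ IsTypeA14 p g D}.ncard : ℝ) := by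
  have hp : p.Prime := Fact.out
  set g' := g.map (Int.castRingHom (ZMod p)) with hg'
  have hmon : g'.Monic := hg.map _
  have hdeg' : g'.natDegree = 3 := by rw [hg', hg.natDegree_map, hdeg]
  have h2 : (2 : ZMod p) ≠ 0 := by
    intro h
    have h4 : ((2 : ℕ) : ZMod p) = 0 := by exact_mod_cast h
    rw [ZMod.natCast_eq_zero_iff] at h4
    have h5 := (Nat.prime_dvd_prime_iff_eq hp Nat.prime_two).mp h4
    omega
  have hcard := ZMod.card p
  have h3 := family_lower14 h2 (by rw [hcard]; exact h19) hmon hdeg'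
    (exists_collision14 h1 hmon hdeg') hn
  have h4 := count_A14 g' n
  rw [hcard] at h3 h4
  have h5 : ({v : Fin (n + 1) → ZMod p | ∃ f : (ZMod p)[X], coeffs14 n f = v ∧
      f.natDegree = n ∧ Irreducible (f.comp g')}).ncard ≤ {v : Fin (n + 1) → ZMod p |
      ∀ D : ℤ[X], D.natDegree ≤ n → (∀ i : Fin (n + 1), (D.coeff i : ZMod p) = v i) →
        D.natDegree = n ∧ (D.leadingCoeff : ZMod p) ≠ 0 ∧ IsTypeA14 p g D}.ncard := by
    apply Set.ncard_le_ncard _ (Set.toFinite _)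
    rintro v ⟨f, hfv, hfn, hirr⟩ D hD hDv
    have hf0 : f ≠ 0 := by
      rintro rfl
      exact hirr.ne_zero zero_comp
    obtain ⟨h6, h7, h8⟩ := map_eq_of_coeffs14 hfn hD (fun i => by rw [hDv, hfv]) hf0
    refine ⟨h7, h8, ?_⟩
    rw [IsTypeA14, h6]
    exact hirr
  have h6 : ((p : ℝ) - 1) * ((family g' n).ncard : ℝ) ≤ ({v : Fin (n + 1) → ZMod p |
      ∀ D : ℤ[X], D.natDegree ≤ n → (∀ i : Fin (n + 1), (D.coeff i : ZMod p) = v i) →
        D.natDegree = n ∧ (D.leadingCoeff : ZMod p) ≠ 0 ∧ IsTypeA14 p g D}.ncard : ℝ) := by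
    have h7 := h4.trans h5
    have h8 : (((p - 1) * (family g' n).ncard : ℕ) : ℝ) =
        ((p : ℝ) - 1) * ((family g' n).ncard : ℝ) := by
      rw [Nat.cast_mul, Nat.cast_sub (by omega), Nat.cast_one]
    rw [← h8]
    exact_mod_cast h7
  refine le_trans ?_ h6
  have h7 : (p : ℝ) ^ n ≤ 6 * (n * ((family g' n).ncard : ℝ)) := by exact_mod_cast h3
  have hn0 : (0 : ℝ) < n := by exact_mod_cast (by omega : 0 < n)
  have hp19 : (19 : ℝ) ≤ p := by exact_mod_cast h19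
  rw [div_mul_eq_mul_div, one_mul, div_le_iff₀ (by positivity)]
  have h8 : (0 : ℝ) ≤ ((family g' n).ncard : ℝ) := Nat.cast_nonneg _
  calc (p : ℝ) ^ (n + 1) = p * (p : ℝ) ^ n := by ring
    _ ≤ p * (6 * (n * ((family g' n).ncard : ℝ))) := by
        apply mul_le_mul_of_nonneg_left h7; linarith
    _ = 6 * p * (n * ((family g' n).ncard : ℝ)) := by ring
    _ ≤ 72 * (p - 1) * (n * ((family g' n).ncard : ℝ)) := by
        apply mul_le_mul_of_nonneg_right _ (by positivity)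
        linarith
    _ = _ := by ring

/-- **The number of the residue classes of type B.** -/
theorem count_typeB14 (hn : 3 ≤ n) (h1 : p % 3 = 1) (h19 : 19 ≤ p) {g : ℤ[X]} (hg : g.Monic)
    (hdeg : g.natDegree = 3) :
    (1 / (72 * n) : ℝ) * (p : ℝ) ^ (n + 1) ≤ ({v : Fin (n + 1) → ZMod p | ∀ D : ℤ[X],
      D.natDegree ≤ n → (∀ i : Fin (n + 1), (D.coeff i : ZMod p) = v i) →
        D.natDegree = n ∧ (D.leadingCoeff : ZMod p) ≠ 0 ∧ IsTypeB14 p g D}.ncard : ℝ) := by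
  have hp : p.Prime := Fact.out
  set g' := g.map (Int.castRingHom (ZMod p)) with hg'
  have hmon : g'.Monic := hg.map _
  have hdeg' : g'.natDegree = 3 := by rw [hg', hg.natDegree_map, hdeg]
  have h2 : (2 : ZMod p) ≠ 0 := by
    intro h
    have h4 : ((2 : ℕ) : ZMod p) = 0 := by exact_mod_cast h
    rw [ZMod.natCast_eq_zero_iff] at h4
    have h5 := (Nat.prime_dvd_prime_iff_eq hp Nat.prime_two).mp h4
    omega
  have h3' : (3 : ZMod p) ≠ 0 := by
    intro h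
    have h4 : ((3 : ℕ) : ZMod p) = 0 := by exact_mod_cast h
    rw [ZMod.natCast_eq_zero_iff] at h4
    have h5 := (Nat.prime_dvd_prime_iff_eq hp Nat.prime_three).mp h4
    omega
  have hcard := ZMod.card p
  have h3 := family_lower14 h2 (by rw [hcard]; exact h19) hmon hdeg'
    (exists_collision14 h1 hmon hdeg') (n := n - 1) (by omega)
  have h4 := count_B14 hdeg' hn
  have hV := values_lower14 h3' hmon hdeg'
  rw [hcard] at h3 h4 hV
  set V := ({α : ZMod p | ∃ b : ZMod p, (derivative g').eval b ≠ 0 ∧ g'.eval b = α}).ncard with hVd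
  have h5 : ({v : Fin (n + 1) → ZMod p | ∃ f : (ZMod p)[X], coeffs14 n f = v ∧
      f.natDegree = n ∧ ∃ (b : ZMod p) (D₁ : (ZMod p)[X]), f = (X - C (g'.eval b)) * D₁ ∧
        (derivative g').eval b ≠ 0 ∧ Irreducible (D₁.comp g')}).ncard ≤
      {v : Fin (n + 1) → ZMod p |
      ∀ D : ℤ[X], D.natDegree ≤ n → (∀ i : Fin (n + 1), (D.coeff i : ZMod p) = v i) →
        D.natDegree = n ∧ (D.leadingCoeff : ZMod p) ≠ 0 ∧ IsTypeB14 p g D}.ncard := by
    apply Set.ncard_le_ncard _ (Set.toFinite _)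
    rintro v ⟨f, hfv, hfn, b, D₁, hf, hb, hirr⟩ D hD hDv
    have hf0 : f ≠ 0 := by
      rintro rfl
      rw [natDegree_zero] at hfn
      omega
    obtain ⟨h6, h7, h8⟩ := map_eq_of_coeffs14 hfn hD (fun i => by rw [hDv, hfv]) hf0
    refine ⟨h7, h8, b, D₁, ?_, hb, hirr⟩
    rw [h6]
    exact hf
  have h6 : ((p : ℝ) - 1) * V * ((family g' (n - 1)).ncard : ℝ) ≤
      ({v : Fin (n + 1) → ZMod p |
      ∀ D : ℤ[X], D.natDegree ≤ n → (∀ i : Fin (n + 1), (D.coeff i : ZMod p) = v i) →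
        D.natDegree = n ∧ (D.leadingCoeff : ZMod p) ≠ 0 ∧ IsTypeB14 p g D}.ncard : ℝ) := by
    have h7 := h4.trans h5
    have h8 : (((p - 1) * V * (family g' (n - 1)).ncard : ℕ) : ℝ) =
        ((p : ℝ) - 1) * V * ((family g' (n - 1)).ncard : ℝ) := by
      rw [Nat.cast_mul, Nat.cast_mul, Nat.cast_sub (by omega), Nat.cast_one]
    rw [← h8]
    exact_mod_cast h7
  refine le_trans ?_ h6
  have h7 : (p : ℝ) ^ (n - 1) ≤ 6 * (((n - 1 : ℕ) : ℝ) * ((family g' (n - 1)).ncard : ℝ)) := by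
    exact_mod_cast h3
  have hn0 : (0 : ℝ) < n := by exact_mod_cast (by omega : 0 < n)
  have hp19 : (19 : ℝ) ≤ p := by exact_mod_cast h19
  have h8 : (0 : ℝ) ≤ ((family g' (n - 1)).ncard : ℝ) := Nat.cast_nonneg _
  have h9 : (p : ℝ) ^ (n - 1) ≤ 6 * (n * ((family g' (n - 1)).ncard : ℝ)) := by
    refine h7.trans ?_
    have : ((n - 1 : ℕ) : ℝ) ≤ n := by exact_mod_cast Nat.sub_le _ _
    nlinarith [mul_le_mul_of_nonneg_right this h8]
  have h10 : (p : ℝ) - 2 ≤ 3 * V := by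
    have : p ≤ 3 * V + 2 := by omega
    have h11 : (p : ℝ) ≤ 3 * V + 2 := by exact_mod_cast this
    linarith
  rw [div_mul_eq_mul_div, one_mul, div_le_iff₀ (by positivity)]
  have h12 : (p : ℝ) ^ (n + 1) = p ^ 2 * (p : ℝ) ^ (n - 1) := by
    rw [← pow_add]
    congr 1
    omega
  have h13 : (p : ℝ) ^ 2 ≤ 4 * ((p - 1) * (3 * V)) := by
    nlinarith [mul_le_mul_of_nonneg_left h10 (show (0 : ℝ) ≤ p - 1 by linarith)]
  calc (p : ℝ) ^ (n + 1) = p ^ 2 * (p : ℝ) ^ (n - 1) := h12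
    _ ≤ 4 * ((p - 1) * (3 * V)) * (6 * (n * ((family g' (n - 1)).ncard : ℝ))) := by
        apply mul_le_mul h13 h9 (by positivity)
        apply le_trans _ h13
        positivity
    _ = _ := by ring

end Count

lemma infinite_primes14 : {p : ℕ | p.Prime ∧ p % 3 = 1 ∧ 19 ≤ p}.Infinite := by
  have h1 : {p : ℕ | p.Prime ∧ p ≡ 1 [MOD 3]}.Infinite :=
    Nat.infinite_setOfPred_prime_modEq_one (by norm_num)
  apply Set.Infinite.mono _ (h1.sdiff (Set.finite_Iio 19))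
  rintro p ⟨⟨h2, h3⟩, h4⟩
  rw [Set.mem_Iio, not_lt] at h4
  exact ⟨h2, h3, h4⟩

/-- **Type A.** -/
theorem density_typeA14 {n : ℕ} (hn : 2 ≤ n) {g : ℤ[X]} (hg : g.Monic) (hdeg : g.natDegree = 3) :
    Tendsto (fun H : ℕ => ({a : Fin (n + 1) → ℤ | (∀ i, |a i| ≤ H) ∧
      ¬ ∃ p : ℕ, p.Prime ∧ (polyZ14 a).natDegree = n ∧ ((polyZ14 a).leadingCoeff : ZMod p) ≠ 0 ∧
        IsTypeA14 p g (polyZ14 a)}.ncard : ℝ) / (2 * H + 1) ^ (n + 1)) atTop (𝓝 0) := by
  apply density_crt7 (n + 1) (fun p => {v : Fin (n + 1) → ZMod p | ∀ D : ℤ[X],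
      D.natDegree ≤ n → (∀ i : Fin (n + 1), (D.coeff i : ZMod p) = v i) →
        D.natDegree = n ∧ (D.leadingCoeff : ZMod p) ≠ 0 ∧ IsTypeA14 p g D})
    (1 / (72 * n)) (by
      have hn0 : (0 : ℝ) < n := by exact_mod_cast (by omega : 0 < n)
      positivity) _ infinite_primes14 (fun p hp => hp.1)
  · intro p hp
    haveI : Fact p.Prime := ⟨hp.1⟩
    exact count_typeA14 hn hp.2.1 hp.2.2 hg hdeg
  · intro a p hp h
    obtain ⟨h1, h2, h3⟩ := h (polyZ14 a) (natDegree_polyZ14 a) fun i => by rw [coeff_polyZ14]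
    exact ⟨p, hp.1, h1, h2, h3⟩

/-- **Type B.** -/
theorem density_typeB14 {n : ℕ} (hn : 3 ≤ n) {g : ℤ[X]} (hg : g.Monic) (hdeg : g.natDegree = 3) :
    Tendsto (fun H : ℕ => ({a : Fin (n + 1) → ℤ | (∀ i, |a i| ≤ H) ∧
      ¬ ∃ p : ℕ, p.Prime ∧ (polyZ14 a).natDegree = n ∧ ((polyZ14 a).leadingCoeff : ZMod p) ≠ 0 ∧
        IsTypeB14 p g (polyZ14 a)}.ncard : ℝ) / (2 * H + 1) ^ (n + 1)) atTop (𝓝 0) := by
  apply density_crt7 (n + 1) (fun p => {v : Fin (n + 1) → ZMod p | ∀ D : ℤ[X],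
      D.natDegree ≤ n → (∀ i : Fin (n + 1), (D.coeff i : ZMod p) = v i) →
        D.natDegree = n ∧ (D.leadingCoeff : ZMod p) ≠ 0 ∧ IsTypeB14 p g D})
    (1 / (72 * n)) (by
      have hn0 : (0 : ℝ) < n := by exact_mod_cast (by omega : 0 < n)
      positivity) _ infinite_primes14 (fun p hp => hp.1)
  · intro p hp
    haveI : Fact p.Prime := ⟨hp.1⟩
    exact count_typeB14 hn hp.2.1 hp.2.2 hg hdeg
  · intro a p hp h
    obtain ⟨h1, h2, h3⟩ := h (polyZ14 a) (natDegree_polyZ14 a) fun i => by rw [coeff_polyZ14]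
    exact ⟨p, hp.1, h1, h2, h3⟩

end Pool.Agent.Lib.MP_89bcae_ag
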