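import Mathlib
import Pool.Agent.Lib.MP_89bcae_ag.ThmBF7
import Pool.Agent.Lib.MP_89bcae_ag.LocZ8

/-!
# The collision criterion over the rational numbers
-/

open Polynomial WeierstrassCurve WeierstrassCurve.Affine IsDedekindDomain

open scoped Classical

namespace Pool.Agent.Lib.MP_89bcae_ag

set_option linter.style.haveILetI false

/-- The collision criterion over the rational numbers, for a given localization of the integers. -/
theorem collisionTowerLoc7 (R : Type) [CommRing R] [IsDomain R] [IsDiscreteValuationRing R]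
    [Algebra ℤ R] [Algebra R ℚ] [IsFractionRing R ℚ] (F L Ω : Type) [Field F] [Algebra ℚ F]
    [IsAlgClosure ℚ F]
    [Field L] [Algebra F[X] L] [IsFractionRing F[X] L] [Field Ω] [Algebra L Ω]
    [IsSepClosure L Ω] {g D : ℤ[X]} (hg : g.Monic) (hdeg : g.natDegree = 3)
    (hn : 3 ≤ D.natDegree) {p : ℕ} (hp : p.Prime) (hp2 : p ≠ 2) (hlc : ¬ (p : ℤ) ∣ D.leadingCoeff)
    (hcol : IsCollisionZ8 p g D) (hP : (Ideal.span {(p : ℤ)}).IsPrime)
    [IsLocalization.AtPrime R (Ideal.span {(p : ℤ)})]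
    (hsep : ((D.comp g).map (Int.castRingHom ℚ)).Separable)
    (htr : IsPairTransitive7 ℚ F (g.map (Int.castRingHom ℚ)) (D.map (Int.castRingHom ℚ)))
    (k' : IntermediateField ℚ F) [FiniteDimensional ℚ k'] (r : ℕ) (s : Ω)
    (hs : s ^ 2 ^ r = base ℚ F L Ω (D.map (Int.castRingHom ℚ))) :
    NoTateClassOver ℚ F L (g.map (Int.castRingHom ℚ)) (D.map (Int.castRingHom ℚ))
      (cover k' F L s) := by
  have hunit : ∀ m : ℤ, ¬ (p : ℤ) ∣ m → IsUnit (algebraMap ℤ R m) := by
    intro m hm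
    exact IsLocalization.map_units R (⟨m, fun h => hm (Ideal.mem_span_singleton.mp h)⟩ :
      (Ideal.span {(p : ℤ)}).primeCompl)
  have hinj : Function.Injective (algebraMap ℤ R) :=
    IsLocalization.injective R (Ideal.primeCompl_le_nonZeroDivisors (Ideal.span {(p : ℤ)}))
  have hcomp : (algebraMap R ℚ).comp (algebraMap ℤ R) = Int.castRingHom ℚ := RingHom.ext_int _ _
  have hmap : ∀ f : ℤ[X], (f.map (algebraMap ℤ R)).map (algebraMap R ℚ) =
      f.map (Int.castRingHom ℚ) := fun f => by rw [Polynomial.map_map, hcomp]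
  have h2 : IsUnit (2 : R) := by
    have h1 := hunit 2 (by
      intro h
      have h3 : p ∣ 2 := by exact_mod_cast h
      exact hp2 ((Nat.prime_dvd_prime_iff_eq hp Nat.prime_two).mp h3))
    rwa [map_ofNat] at h1
  have h := collisionTower7 R ℚ F L Ω h2 (g := g.map (algebraMap ℤ R)) (D := D.map (algebraMap ℤ R))
    (hg.map _) (by rw [hg.natDegree_map, hdeg]) (by rw [natDegree_map_eq_of_injective hinj]; exact hn)
    (by rw [leadingCoeff_map_of_injective hinj]; exact hunit _ hlc)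
    (isCollision7_of_int8 hp R hcol)
    (by rw [← Polynomial.map_comp, hmap]; exact hsep)
    (by rw [hmap, hmap]; exact htr) k' r s (by rw [hmap]; exact hs)
  rw [hmap, hmap] at h
  exact h

/-- The collision criterion over the rational numbers. -/
theorem collisionTowerInt7 (F L Ω : Type) [Field F] [Algebra ℚ F] [IsAlgClosure ℚ F]
    [Field L] [Algebra F[X] L] [IsFractionRing F[X] L] [Field Ω] [Algebra L Ω]
    [IsSepClosure L Ω] {g D : ℤ[X]} (hg : g.Monic) (hdeg : g.natDegree = 3)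
    (hn : 3 ≤ D.natDegree) {p : ℕ} (hp : p.Prime) (hp2 : p ≠ 2) (hlc : ¬ (p : ℤ) ∣ D.leadingCoeff)
    (hcol : IsCollisionZ8 p g D)
    (hsep : ((D.comp g).map (Int.castRingHom ℚ)).Separable)
    (htr : IsPairTransitive7 ℚ F (g.map (Int.castRingHom ℚ)) (D.map (Int.castRingHom ℚ)))
    (k' : IntermediateField ℚ F) [FiniteDimensional ℚ k'] (r : ℕ) (s : Ω)
    (hs : s ^ 2 ^ r = base ℚ F L Ω (D.map (Int.castRingHom ℚ))) :
    NoTateClassOver ℚ F L (g.map (Int.castRingHom ℚ)) (D.map (Int.castRingHom ℚ))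
      (cover k' F L s) := by
  have hpZ : Prime (p : ℤ) := Nat.prime_iff_prime_int.mp hp
  have hP : (Ideal.span {(p : ℤ)}).IsPrime :=
    (Ideal.span_singleton_prime hpZ.ne_zero).mpr hpZ
  have hP0 : Ideal.span {(p : ℤ)} ≠ ⊥ := by
    rw [Ne, Ideal.span_singleton_eq_bot]
    exact hpZ.ne_zero
  have hDVR : IsDiscreteValuationRing (Localization.AtPrime (Ideal.span {(p : ℤ)})) :=
    IsLocalization.AtPrime.isDiscreteValuationRing_of_dedekind_domain ℤ hP0 _
  letI hA : Algebra (Localization.AtPrime (Ideal.span {(p : ℤ)})) ℚ :=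
    IsLocalization.localizationAlgebraOfSubmonoidLe _ ℚ
      (Ideal.span {(p : ℤ)}).primeCompl (nonZeroDivisors ℤ)
      (Ideal.span {(p : ℤ)}).primeCompl_le_nonZeroDivisors
  have hst := IsLocalization.localization_isScalarTower_of_submonoid_le
    (Localization.AtPrime (Ideal.span {(p : ℤ)})) ℚ
    (Ideal.span {(p : ℤ)}).primeCompl (nonZeroDivisors ℤ)
    (Ideal.span {(p : ℤ)}).primeCompl_le_nonZeroDivisors
  have hfr : IsFractionRing (Localization.AtPrime (Ideal.span {(p : ℤ)})) ℚ :=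
    @IsFractionRing.isFractionRing_of_isDomain_of_isLocalization ℤ _
      (Ideal.span {(p : ℤ)}).primeCompl _ (Localization.AtPrime (Ideal.span {(p : ℤ)})) ℚ _ _ _ _ _
      hst _ _
  exact @collisionTowerLoc7 (Localization.AtPrime (Ideal.span {(p : ℤ)})) _ _ hDVR _ hA hfr F L Ω
    _ _ _ _ _ _ _ _ _ g D hg hdeg hn p hp hp2 hlc hcol hP inferInstance hsep htr k' _ r s hs

end Pool.Agent.Lib.MP_89bcae_ag
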