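import Mathlib
import Pool.Agent.Lib.MP_89bcae_ag.ZTow7
import Pool.Agent.Lib.MP_89bcae_ag.DefsZ7
import Pool.Agent.Lib.MP_89bcae_ag.DensB7
import Pool.Agent.Lib.MP_89bcae_ag.CountC8
import Pool.Agent.Lib.MP_89bcae_ag.TypD14

/-!
# Theorem Z
-/

open Polynomial WeierstrassCurve WeierstrassCurve.Affine IsDedekindDomain Filter Topology

open scoped Classical

namespace Pool.Agent.Lib.MP_89bcae_ag

set_option linter.style.haveILetI false

section Vec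

lemma map_vecPoly7 {n : ℕ} (a : Fin (n + 1) → ℤ) (p : ℕ) :
    (vecPoly7 a).map (Int.castRingHom (ZMod p)) = polyOf8 (fun i => (a i : ZMod p)) := by
  unfold vecPoly7 polyOf8
  rw [Polynomial.map_sum]
  refine Finset.sum_congr rfl fun i _ => ?_
  rw [Polynomial.map_mul, map_C, Polynomial.map_pow, map_X]
  rfl

lemma natDegree_vecPoly7 {n : ℕ} (a : Fin (n + 1) → ℤ) : (vecPoly7 a).natDegree ≤ n := by
  unfold vecPoly7
  apply natDegree_sum_le_of_forall_le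
  intro i _
  refine (natDegree_C_mul_X_pow_le _ _).trans ?_
  exact Nat.lt_succ_iff.mp i.2

lemma coeff_vecPoly7 {n : ℕ} (a : Fin (n + 1) → ℤ) (i : Fin (n + 1)) :
    (vecPoly7 a).coeff i = a i := by
  unfold vecPoly7
  rw [finsetSum_coeff, Finset.sum_eq_single i]
  · rw [coeff_C_mul, coeff_X_pow, if_pos rfl, mul_one]
  · intro j _ hj
    rw [coeff_C_mul, coeff_X_pow, if_neg (fun h => hj (Fin.ext h.symm)), mul_zero]
  · exact fun h => absurd (Finset.mem_univ _) h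

end Vec

/-- From density zero of the complement to density one. -/
lemma density_one7 (m : ℕ) (Good : (Fin m → ℤ) → Prop)
    (h : Tendsto (fun H : ℕ => ({a : Fin m → ℤ | (∀ i, |a i| ≤ H) ∧ ¬ Good a}.ncard : ℝ) /
      (2 * H + 1) ^ m) atTop (𝓝 0)) :
    Tendsto (fun H : ℕ => ({a : Fin m → ℤ | (∀ i, |a i| ≤ H) ∧ Good a}.ncard : ℝ) /
      (2 * H + 1) ^ m) atTop (𝓝 1) := by
  have h1 : Tendsto (fun H : ℕ => 1 -
      ({a : Fin m → ℤ | (∀ i, |a i| ≤ H) ∧ ¬ Good a}.ncard : ℝ) / (2 * H + 1) ^ m) atTop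
      (𝓝 (1 - 0)) := tendsto_const_nhds.sub h
  rw [sub_zero] at h1
  refine h1.congr fun H => ?_
  have hbox : ({a : Fin m → ℤ | ∀ i, |a i| ≤ H}) =
      ((Fintype.piFinset fun _ : Fin m => Finset.Icc (-(H : ℤ)) H : Finset (Fin m → ℤ)) :
        Set (Fin m → ℤ)) := by
    ext a
    rw [Finset.mem_coe, Fintype.mem_piFinset]
    simp only [Set.mem_ofPred_eq, Finset.mem_Icc, abs_le]
  have hfin : ({a : Fin m → ℤ | ∀ i, |a i| ≤ H}).Finite := by
    rw [hbox]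
    exact Finset.finite_toSet _
  have hcard : (({a : Fin m → ℤ | ∀ i, |a i| ≤ H}).ncard : ℝ) = (2 * H + 1) ^ m := by
    rw [hbox, Set.ncard_coe_finset, Fintype.card_piFinset, Finset.prod_const, Finset.card_univ,
      Fintype.card_fin, Int.card_Icc]
    push_cast
    congr 1
    have h3 : ((H : ℤ) + 1 - -(H : ℤ)).toNat = 2 * H + 1 := by omega
    rw [h3]
    push_cast
    ring
  have hsplit : ({a : Fin m → ℤ | (∀ i, |a i| ≤ H) ∧ Good a}).ncard +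
      ({a : Fin m → ℤ | (∀ i, |a i| ≤ H) ∧ ¬ Good a}).ncard =
      ({a : Fin m → ℤ | ∀ i, |a i| ≤ H}).ncard := by
    have hdisj : Disjoint {a : Fin m → ℤ | (∀ i, |a i| ≤ H) ∧ Good a}
        {a : Fin m → ℤ | (∀ i, |a i| ≤ H) ∧ ¬ Good a} := by
      rw [Set.disjoint_left]
      rintro a ⟨-, h3⟩ ⟨-, h4⟩
      exact h4 h3
    rw [← Set.ncard_union_eq hdisj (hfin.subset fun a ha => ha.1) (hfin.subset fun a ha => ha.1)]
    congr 1
    ext a
    simp only [Set.mem_union, Set.mem_ofPred_eq]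
    tauto
  have hpos : (0 : ℝ) < (2 * (H : ℝ) + 1) ^ m := by positivity
  rw [eq_div_iff hpos.ne', sub_mul, div_mul_cancel₀ _ hpos.ne', one_mul, ← hcard, ← hsplit]
  push_cast
  ring

/-- **Theorem Z.** -/
theorem densityTower7 (F L Ω : Type) [Field F] [Algebra ℚ F] [IsAlgClosure ℚ F]
    [Field L] [Algebra F[X] L] [IsFractionRing F[X] L] [Field Ω] [Algebra L Ω]
    [IsSepClosure L Ω] {g : ℤ[X]} (hg : g.Monic) (hdeg : g.natDegree = 3) {n : ℕ} (hn : 3 ≤ n) :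
    Tendsto (fun H : ℕ => ({a : Fin (n + 1) → ℤ | (∀ i, |a i| ≤ H) ∧
      ((vecPoly7 a).natDegree = n ∧ (((vecPoly7 a).comp g).map (Int.castRingHom ℚ)).Separable ∧
        NoTateTower7 F L Ω g (vecPoly7 a))}.ncard : ℝ) / (2 * H + 1) ^ (n + 1)) atTop (𝓝 1) := by
  obtain ⟨cC, hcC, PC, hC⟩ := count_typeC8 n (by omega)
  -- the three events
  let GA : (Fin (n + 1) → ℤ) → Prop := fun a => ∃ p : ℕ, p.Prime ∧ (vecPoly7 a).natDegree = n ∧
    ((vecPoly7 a).leadingCoeff : ZMod p) ≠ 0 ∧ IsTypeA14 p g (vecPoly7 a)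
  let GB : (Fin (n + 1) → ℤ) → Prop := fun a => ∃ p : ℕ, p.Prime ∧ (vecPoly7 a).natDegree = n ∧
    ((vecPoly7 a).leadingCoeff : ZMod p) ≠ 0 ∧ IsTypeB14 p g (vecPoly7 a)
  let GC : (Fin (n + 1) → ℤ) → Prop := fun a => ∃ p : ℕ, p.Prime ∧ p ≠ 2 ∧
    IsCollisionZ8 p g (vecPoly7 a) ∧ ¬ (p : ℤ) ∣ (vecPoly7 a).coeff n
  have dA : Tendsto (fun H : ℕ => ({a : Fin (n + 1) → ℤ | (∀ i, |a i| ≤ H) ∧ ¬ GA a}.ncard : ℝ) /
      (2 * H + 1) ^ (n + 1)) atTop (𝓝 0) := density_typeA14 (by omega) hg hdeg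
  have dB : Tendsto (fun H : ℕ => ({a : Fin (n + 1) → ℤ | (∀ i, |a i| ≤ H) ∧ ¬ GB a}.ncard : ℝ) /
      (2 * H + 1) ^ (n + 1)) atTop (𝓝 0) := density_typeB14 hn hg hdeg
  have dC : Tendsto (fun H : ℕ => ({a : Fin (n + 1) → ℤ | (∀ i, |a i| ≤ H) ∧ ¬ GC a}.ncard : ℝ) /
      (2 * H + 1) ^ (n + 1)) atTop (𝓝 0) := by
    refine density_crtB7 (n + 1) (fun p => p ^ 2) (fun p => {v | TypeC8 p g n v}) (fun p => cC / p)
      {p : ℕ | p.Prime ∧ max PC 3 ≤ p} (fun p hp => pow_pos hp.1.pos 2) (fun p hp q hq hpq => ?_)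
      (fun T => sum_primes_unbounded7 hcC (max PC 3) T) (fun p hp => ?_) GC (fun a p hp h => ?_)
    · exact Nat.Coprime.pow 2 2 ((Nat.coprime_primes hp.1 hq.1).mpr hpq)
    · have h1 := hC p hp.1 ((le_max_left _ _).trans hp.2) g hg hdeg
      push_cast
      exact h1
    · have h1 : (fun i : Fin (n + 1) => ((vecPoly7 a).coeff i : ZMod (p ^ 2))) =
          fun i => (a i : ZMod (p ^ 2)) := by
        funext i
        rw [coeff_vecPoly7]
      have h3 := isCollisionZ8_of_typeC8 (p := p) (g := g) (n := n) (D := vecPoly7 a)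
        (natDegree_vecPoly7 a) (by rw [h1]; exact h)
      refine ⟨p, hp.1, ?_, h3⟩
      have h4 : 3 ≤ p := (le_max_right _ _).trans hp.2
      omega
  apply density_one7
  -- the union of the three exceptional sets
  have hsum := (dA.add dB).add dC
  rw [add_zero, add_zero] at hsum
  refine squeeze_zero (fun H => by positivity) (fun H => ?_) hsum
  rw [← add_div, ← add_div]
  apply div_le_div_of_nonneg_right _ (by positivity)
  have hfin : ∀ Q : (Fin (n + 1) → ℤ) → Prop,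
      ({a : Fin (n + 1) → ℤ | (∀ i, |a i| ≤ H) ∧ Q a}).Finite := by
    intro Q
    apply Set.Finite.subset (Finset.finite_toSet
      (Fintype.piFinset fun _ : Fin (n + 1) => Finset.Icc (-(H : ℤ)) H))
    rintro a ⟨h2, -⟩
    rw [Finset.mem_coe, Fintype.mem_piFinset]
    intro i
    rw [Finset.mem_Icc]
    exact abs_le.mp (h2 i)
  have hsub : {a : Fin (n + 1) → ℤ | (∀ i, |a i| ≤ H) ∧ ¬ ((vecPoly7 a).natDegree = n ∧
      (((vecPoly7 a).comp g).map (Int.castRingHom ℚ)).Separable ∧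
        NoTateTower7 F L Ω g (vecPoly7 a))} ⊆
      ({a : Fin (n + 1) → ℤ | (∀ i, |a i| ≤ H) ∧ ¬ GA a} ∪
        {a : Fin (n + 1) → ℤ | (∀ i, |a i| ≤ H) ∧ ¬ GB a}) ∪
        {a : Fin (n + 1) → ℤ | (∀ i, |a i| ≤ H) ∧ ¬ GC a} := by
    rintro a ⟨hbox, hbad⟩
    by_contra hcon
    simp only [Set.mem_union, Set.mem_ofPred_eq, not_or, not_and, not_not] at hcon
    obtain ⟨⟨hGA, hGB⟩, hGC⟩ := hcon
    obtain ⟨p₁, hp₁, hdegD, hl₁, h₁⟩ := hGA hbox
    obtain ⟨p₂, hp₂, -, hl₂, h₂⟩ := hGB hbox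
    obtain ⟨p, hp, hp2, hcol, hlc⟩ := hGC hbox
    apply hbad
    haveI : IsAlgClosed F := IsAlgClosure.isAlgClosed ℚ
    haveI : Algebra.IsAlgebraic ℚ F := IsAlgClosure.isAlgebraic
    obtain ⟨hsep, htr⟩ := pairTransitive_types14 (F := F) hg hdeg hp₁ hp₂ hl₁ hl₂ h₁ h₂
    refine ⟨hdegD, hsep, fun k' hk' r s hs => ?_⟩
    refine collisionTowerInt7 F L Ω hg hdeg (by rw [hdegD]; exact hn) hp hp2 ?_ hcol hsep htr k' r
      s hs
    rw [leadingCoeff, hdegD]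
    exact hlc
  have h1 := Set.ncard_le_ncard hsub (((hfin _).union (hfin _)).union (hfin _))
  have h2 := Set.ncard_union_le ({a : Fin (n + 1) → ℤ | (∀ i, |a i| ≤ H) ∧ ¬ GA a} ∪
        {a : Fin (n + 1) → ℤ | (∀ i, |a i| ≤ H) ∧ ¬ GB a})
        {a : Fin (n + 1) → ℤ | (∀ i, |a i| ≤ H) ∧ ¬ GC a}
  have h3 := Set.ncard_union_le {a : Fin (n + 1) → ℤ | (∀ i, |a i| ≤ H) ∧ ¬ GA a}
        {a : Fin (n + 1) → ℤ | (∀ i, |a i| ≤ H) ∧ ¬ GB a}
  exact_mod_cast h1.trans (h2.trans (Nat.add_le_add_right h3 _))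

end Pool.Agent.Lib.MP_89bcae_ag
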